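import Pool.Agent.H43.PM.M05

/-! The parts of this file: H53.MID.Edges, H53.MID.Climb, H53.MID.Tower. -/

section

/-!
# MID Edges: many scales `M` with many edges

For `M : ℕ` let `VM C P F M = {(p, K) : p ∈ (P, 2P] prime, K ∈ F, |K p - M P| ≤ (2C+1) P}` and
`EM C P F R M` = the pairs `((p,K), (p',K'))` in `VM × VM` with `p ≠ p'` such that `(K, p', G), (K', p, G) ∈ R` for some `G`.

`VM_fib`: for every `p` there are at most `4C+3` elements `(p, K)` in `VM` (`|K - M P/p| ≤ (2C+1) P/p ≤ 2C+1`; number of integers in a closed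
interval of length `≤ 4C+2` is `≤ 4C+3`).  `VM_card`: `|VM| ≤ (4C+3) P` (at most `P` values of `p`).
`edges` proof.  `N(G) = {(K,p') : (K,p',G) ∈ R}`, `∑_G |N(G)| = |R| ≥ δ n P`, `|F'| ≤ C n` (`rngF'`: `F' ⊆ [1, C n]`, as `K ≥ n/C > 0`), so
`∑_G |N(G)|^2 ≥ |R|^2/|F'| ≥ δ^2 n P^2/C`.
A pair `(K,p'), (K',p) ∈ N(G)`, `p ≠ p'`, is mapped to `M = ⌊G p p'/P^2⌋` and the edge `((p,K),(p',K'))` of `EM M`:
`|G p' - K P| ≤ C P` gives `|G p p'/P^2 - K p/P| ≤ C p/P ≤ 2C`, so `|K p - M P| ≤ (2C+1) P`, the same for `(p',K')`.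
At most `2C+1` values `G` give the same `(M, (p,K), (p',K'))` (`|G - K P/p'| ≤ C P/p' < C`).
Pairs with `p = p'`: given `(K,p,G) ∈ R` at most `2C+1` values `K'` (`|G p - K' P| ≤ C P`), and `|R| ≤ |F| P (2C+1) ≤ C (2C+1) n P`; in total
`≤ C (2C+1)^2 n P ≤ δ^2 n P^2/(2C)` as `P ≥ D/δ^4`.  So `∑_M |EM M| ≥ κ n P^2`, `κ = δ^2/(2C(2C+1))`.
`M ≥ G ≥ n/C` (`p p' ≥ P^2`) and `M ≤ 4 G ≤ 4 C n`: at most `4 C n + 1 ≤ 5 C n` values `M`.  Those with `|EM M| < κ P^2/(10 C)` contribute at most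
`κ n P^2/2`, the others at most `((4C+3) P)^2` each, so the set `F''` of the `M` with `|EM M| ≥ κ P^2/(10C)` has `≥ κ n/(2 (4C+3)^2)` elements.
Take `D` large (any explicit polynomial in `C`, for example `D = 10^6 C^6`).
-/

set_option autoImplicit false

namespace Pool.Agent.H53.MID

open Finset

/-- the vertices `(p, K)` at `M` -/
noncomputable def VM (C : ℝ) (P : ℕ) (F : Finset ℕ) (M : ℕ) : Finset (ℕ × ℕ) :=
  (((Ioc P (2 * P)).filter Nat.Prime) ×ˢ F).filter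
    (fun v => |(v.2 : ℝ) * v.1 - M * P| ≤ (2 * C + 1) * P)

open Classical in
/-- the edges at `M` -/
noncomputable def EM (C : ℝ) (P : ℕ) (F : Finset ℕ) (R : Finset (ℕ × ℕ × ℕ)) (M : ℕ) :
    Finset ((ℕ × ℕ) × (ℕ × ℕ)) :=
  (VM C P F M ×ˢ VM C P F M).filter
    (fun e => e.1.1 ≠ e.2.1 ∧ ∃ G : ℕ, (e.1.2, e.2.1, G) ∈ R ∧ (e.2.2, e.1.1, G) ∈ R)

private theorem Edges_count (S : Finset ℕ) (x r : ℝ) (hr : 0 ≤ r)
    (h : ∀ k ∈ S, |(k : ℝ) - x| ≤ r) : (S.card : ℝ) ≤ 2 * r + 1 := by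
  rcases S.eq_empty_or_nonempty with rfl | hS
  · simp only [card_empty, Nat.cast_zero]
    linarith
  · have h1 : S ⊆ Icc (S.min' hS) (S.max' hS) :=
      fun k hk => Finset.mem_Icc.2 ⟨S.min'_le k hk, S.le_max' k hk⟩
    have h2 := Finset.card_le_card h1
    rw [Nat.card_Icc] at h2
    have h3 := h _ (S.min'_mem hS)
    have h4 := h _ (S.max'_mem hS)
    have h5 : S.min' hS ≤ S.max' hS := S.min'_le _ (S.max'_mem hS)
    have h6 : (S.card : ℝ) ≤ (S.max' hS : ℝ) + 1 - S.min' hS := by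
      have h7 : S.card + S.min' hS ≤ S.max' hS + 1 := by omega
      have h8 : ((S.card + S.min' hS : ℕ) : ℝ) ≤ ((S.max' hS + 1 : ℕ) : ℝ) := by exact_mod_cast h7
      push_cast at h8
      linarith
    rw [abs_le] at h3 h4
    linarith [h3.1, h4.2]

private theorem Edges_cnt {α : Type*} (S : Finset α) (g : α → ℕ)
    (hg : ∀ a ∈ S, ∀ a' ∈ S, g a = g a' → a = a') (x r : ℝ) (hr : 0 ≤ r)
    (h : ∀ a ∈ S, |(g a : ℝ) - x| ≤ r) : (S.card : ℝ) ≤ 2 * r + 1 := by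
  classical
  have h1 : (S.image g).card = S.card := Finset.card_image_of_injOn fun a ha a' ha' => hg a ha a' ha'
  rw [← h1]
  refine Edges_count _ x r hr fun k hk => ?_
  obtain ⟨a, ha, rfl⟩ := Finset.mem_image.1 hk
  exact h a ha

private theorem Edges_fib {α β : Type*} [DecidableEq β] {s : Finset α} {t : Finset β} (f : α → β)
    (c : ℝ) (hm : ∀ a ∈ s, f a ∈ t) (hf : ∀ b ∈ t, ((s.filter (fun a => f a = b)).card : ℝ) ≤ c) :
    (s.card : ℝ) ≤ c * t.card := by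
  have h1 : s.card = ∑ b ∈ t, (s.filter (fun a => f a = b)).card :=
    Finset.card_eq_sum_card_fiberwise fun a ha => hm a ha
  rw [h1]
  push_cast
  calc ∑ b ∈ t, ((s.filter (fun a => f a = b)).card : ℝ) ≤ ∑ _b ∈ t, c := Finset.sum_le_sum hf
    _ = c * t.card := by rw [Finset.sum_const, nsmul_eq_mul, mul_comm]

/-- `|k - y / q| ≤ r` from `|k q - y| ≤ r P` and `P ≤ q`. -/
private theorem Edges_div {k y q r P : ℝ} (hP : 0 < P) (hq : P ≤ q) (hr : 0 ≤ r)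
    (h : |k * q - y| ≤ r * P) : |k - y / q| ≤ r := by
  have hq0 : 0 < q := lt_of_lt_of_le hP hq
  have h1 : k - y / q = (k * q - y) / q := by field_simp
  rw [h1, abs_div, abs_of_pos hq0, div_le_iff₀ hq0]
  exact h.trans (mul_le_mul_of_nonneg_left hq hr)

theorem VM_fib (C : ℝ) (hC : 1 ≤ C) (P : ℕ) (F : Finset ℕ) (M p : ℕ) (hP : 1 ≤ P) :
    (((VM C P F M).filter (fun v => v.1 = p)).card : ℝ) ≤ 4 * C + 3 := by
  have hP0 : (0 : ℝ) < P := by exact_mod_cast hP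
  have h1 : (((VM C P F M).filter (fun v => v.1 = p)).card : ℝ) ≤ 2 * (2 * C + 1) + 1 := by
    refine Edges_cnt _ Prod.snd ?_ ((M : ℝ) * P / p) (2 * C + 1) (by linarith) ?_
    · intro a ha a' ha' haa
      have h1 := (Finset.mem_filter.1 ha).2
      have h2 := (Finset.mem_filter.1 ha').2
      exact Prod.ext (h1.trans h2.symm) haa
    · intro a ha
      obtain ⟨ha1, ha2⟩ := Finset.mem_filter.1 ha
      unfold VM at ha1
      rw [Finset.mem_filter, Finset.mem_product, Finset.mem_filter, Finset.mem_Ioc] at ha1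
      obtain ⟨⟨⟨⟨h3, _⟩, _⟩, _⟩, h4⟩ := ha1
      rw [ha2] at h3 h4
      have h5 : (P : ℝ) ≤ p := by exact_mod_cast h3.le
      exact Edges_div hP0 h5 (by linarith) h4
  linarith

theorem VM_card (C : ℝ) (hC : 1 ≤ C) (P : ℕ) (F : Finset ℕ) (M : ℕ) (hP : 1 ≤ P) :
    ((VM C P F M).card : ℝ) ≤ (4 * C + 3) * P := by
  have h1 : ((VM C P F M).card : ℝ) ≤ (4 * C + 3) * ((Ioc P (2 * P)).card : ℕ) := by
    refine Edges_fib Prod.fst (4 * C + 3) ?_ fun p _ => VM_fib C hC P F M p hP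
    intro a ha
    unfold VM at ha
    rw [Finset.mem_filter, Finset.mem_product, Finset.mem_filter] at ha
    exact ha.1.1.1
  have h2 : (Ioc P (2 * P)).card = P := by
    rw [Nat.card_Ioc]
    omega
  rw [h2] at h1
  exact h1

private theorem Edges_mem {C : ℝ} {P : ℕ} (hC : 1 ≤ C) (hP : 1 ≤ P) {F : Finset ℕ} {K G p p' M : ℕ}
    (hK : K ∈ F) (hp : p.Prime) (hp1 : P < p) (hp2 : p ≤ 2 * P)
    (h : |(G : ℝ) * p' - K * P| ≤ C * P)
    (hM : |(M : ℝ) * (P : ℝ) ^ 2 - G * p * p'| ≤ (P : ℝ) ^ 2) : (p, K) ∈ VM C P F M := by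
  have hP0 : (0 : ℝ) < P := by exact_mod_cast hP
  unfold VM
  rw [Finset.mem_filter, Finset.mem_product, Finset.mem_filter, Finset.mem_Ioc]
  refine ⟨⟨⟨⟨hp1, hp2⟩, hp⟩, hK⟩, ?_⟩
  have hp3 : (p : ℝ) ≤ 2 * P := by exact_mod_cast hp2
  have hp4 : (0 : ℝ) ≤ p := Nat.cast_nonneg p
  have h1 : ((K : ℝ) * p - M * P) * P =
      -(((G : ℝ) * p' - K * P) * p) - (M * (P : ℝ) ^ 2 - G * p * p') := by ring
  have h2 : |((K : ℝ) * p - M * P) * P| ≤ (2 * C + 1) * P * P := by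
    rw [h1]
    have h3 : |-(((G : ℝ) * p' - K * P) * p) - (M * (P : ℝ) ^ 2 - G * p * p')| ≤
        |((G : ℝ) * p' - K * P) * p| + |M * (P : ℝ) ^ 2 - G * p * p'| := by
      have := abs_sub (-(((G : ℝ) * p' - K * P) * p)) (M * (P : ℝ) ^ 2 - G * p * p')
      rwa [abs_neg] at this
    have h4 : |((G : ℝ) * p' - K * P) * p| ≤ C * P * (2 * P) := by
      rw [abs_mul, abs_of_nonneg hp4]
      exact mul_le_mul h hp3 hp4 (by positivity)
    nlinarith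
  rw [abs_mul, abs_of_pos hP0] at h2
  exact le_of_mul_le_mul_right h2 hP0

private theorem Edges_card {C : ℝ} {n : ℕ} (hC : 1 ≤ C) (hn : 1 ≤ n) {F : Finset ℕ}
    (h : ∀ K ∈ F, (n : ℝ) / C ≤ K ∧ (K : ℝ) ≤ C * n) : (F.card : ℝ) ≤ C * n := by
  have hn0 : (0 : ℝ) < n := by exact_mod_cast hn
  have h1 : F ⊆ Icc 1 ⌊C * n⌋₊ := by
    intro K hK
    obtain ⟨h2, h3⟩ := h K hK
    rw [Finset.mem_Icc]
    refine ⟨?_, Nat.le_floor h3⟩
    have h4 : (0 : ℝ) < K := lt_of_lt_of_le (by positivity) h2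
    have h5 : 0 < K := by exact_mod_cast h4
    omega
  have h2 := Finset.card_le_card h1
  rw [Nat.card_Icc, Nat.add_sub_cancel] at h2
  have h3 : ((F.card : ℕ) : ℝ) ≤ (⌊C * n⌋₊ : ℕ) := by exact_mod_cast h2
  exact h3.trans (Nat.floor_le (by positivity))

/-- the number of triples -/
private theorem Edges_R {C : ℝ} (hC : 1 ≤ C) {n P : ℕ} {η : ℝ} {F F' : Finset ℕ} {α α' : ℕ → ℝ}
    {R : Finset (ℕ × ℕ × ℕ)} (h : Rel C n P η F F' α α' R) (hn : 1 ≤ n) (hP : 1 ≤ P) :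
    (R.card : ℝ) ≤ (2 * C + 1) * (C * n * P) := by
  have hP0 : (0 : ℝ) < P := by exact_mod_cast hP
  have h1 : (R.card : ℝ) ≤ (2 * C + 1) * ((F ×ˢ Ioc P (2 * P)).card : ℕ) := by
    refine Edges_fib (fun t => (t.1, t.2.1)) (2 * C + 1) ?_ ?_
    · intro t ht
      rw [Finset.mem_product, Finset.mem_Ioc]
      exact ⟨h.memF t ht, (h.prime t ht).2⟩
    · intro b hb
      rw [Finset.mem_product, Finset.mem_Ioc] at hb
      refine Edges_cnt _ (fun t => t.2.2) ?_ ((b.1 : ℝ) * P / b.2) C (by linarith) ?_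
      · intro a ha a' ha' haa
        have h1 := (Finset.mem_filter.1 ha).2.trans (Finset.mem_filter.1 ha').2.symm
        simp only [Prod.mk.injEq] at h1
        exact Prod.ext h1.1 (Prod.ext h1.2 haa)
      · intro a ha
        obtain ⟨ha1, ha2⟩ := Finset.mem_filter.1 ha
        have h3 := h.pos a ha1
        rw [← ha2]
        have h4 : (P : ℝ) ≤ a.2.1 := by exact_mod_cast (h.prime a ha1).2.1.le
        exact Edges_div hP0 h4 (by linarith) h3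
  have h2 : (Ioc P (2 * P)).card = P := by
    rw [Nat.card_Ioc]
    omega
  rw [Finset.card_product, h2] at h1
  push_cast at h1
  refine h1.trans (mul_le_mul_of_nonneg_left ?_ (by linarith))
  exact mul_le_mul_of_nonneg_right (Edges_card hC hn h.rngF) hP0.le

/-- pairs of triples with the same `G` -/
private def Edges_Q (R : Finset (ℕ × ℕ × ℕ)) : Finset ((ℕ × ℕ × ℕ) × (ℕ × ℕ × ℕ)) :=
  (R ×ˢ R).filter (fun q => q.1.2.2 = q.2.2.2)

private theorem Edges_CS (R : Finset (ℕ × ℕ × ℕ)) (F' : Finset ℕ) (h : ∀ t ∈ R, t.2.2 ∈ F') :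
    (R.card : ℝ) ^ 2 ≤ F'.card * (Edges_Q R).card := by
  have h1 : R.card = ∑ G ∈ F', (R.filter (fun t => t.2.2 = G)).card :=
    Finset.card_eq_sum_card_fiberwise fun a ha => h a ha
  have h2 : (Edges_Q R).card = ∑ G ∈ F', ((Edges_Q R).filter (fun q => q.1.2.2 = G)).card := by
    refine Finset.card_eq_sum_card_fiberwise fun a ha => ?_
    have h3 := (Finset.mem_filter.1 (show a ∈ (R ×ˢ R).filter (fun q => q.1.2.2 = q.2.2.2) from ha)).1
    exact h a.1 (Finset.mem_product.1 h3).1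
  have h3 : ∀ G ∈ F', ((Edges_Q R).filter (fun q => q.1.2.2 = G)).card =
      (R.filter (fun t => t.2.2 = G)).card ^ 2 := by
    intro G _
    rw [pow_two, ← Finset.card_product]
    congr 1
    ext q
    unfold Edges_Q
    simp only [Finset.mem_filter, Finset.mem_product]
    constructor
    · rintro ⟨⟨⟨h1, h2⟩, h3⟩, h4⟩
      exact ⟨⟨h1, h4⟩, h2, h3 ▸ h4⟩
    · rintro ⟨⟨h1, h4⟩, h2, h5⟩
      exact ⟨⟨⟨h1, h2⟩, h4.trans h5.symm⟩, h4⟩
  rw [h2, Finset.sum_congr rfl h3, h1]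
  push_cast
  exact sq_sum_le_card_mul_sum_sq

/-- pairs with the same `p` -/
private theorem Edges_Q0 {C : ℝ} (hC : 1 ≤ C) {n P : ℕ} {η : ℝ} {F F' : Finset ℕ} {α α' : ℕ → ℝ}
    {R : Finset (ℕ × ℕ × ℕ)} (h : Rel C n P η F F' α α' R) (hP : 1 ≤ P) :
    (((Edges_Q R).filter (fun q => q.1.2.1 = q.2.2.1)).card : ℝ) ≤ (2 * C + 1) * R.card := by
  have hP0 : (0 : ℝ) < P := by exact_mod_cast hP
  refine Edges_fib Prod.fst (2 * C + 1) ?_ ?_
  · intro q hq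
    unfold Edges_Q at hq
    rw [Finset.mem_filter, Finset.mem_filter, Finset.mem_product] at hq
    exact hq.1.1.1
  · intro t ht
    refine Edges_cnt _ (fun q => q.2.1) ?_ ((t.2.2 : ℝ) * t.2.1 / P) C (by linarith) ?_
    · intro a ha a' ha' haa
      unfold Edges_Q at ha ha'
      simp only [Finset.mem_filter, Finset.mem_product] at ha ha'
      obtain ⟨⟨⟨⟨_, _⟩, a1⟩, a2⟩, a3⟩ := ha
      obtain ⟨⟨⟨⟨_, _⟩, a1'⟩, a2'⟩, a3'⟩ := ha'
      refine Prod.ext (a3.trans a3'.symm) (Prod.ext haa (Prod.ext ?_ ?_))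
      · rw [← a2, ← a2', a3, a3']
      · rw [← a1, ← a1', a3, a3']
    · intro a ha
      unfold Edges_Q at ha
      simp only [Finset.mem_filter, Finset.mem_product] at ha
      obtain ⟨⟨⟨⟨_, b1⟩, a1⟩, a2⟩, a3⟩ := ha
      have h3 := h.pos a.2 b1
      rw [← a1, ← a2, a3] at h3
      rw [abs_sub_comm] at h3
      exact Edges_div hP0 le_rfl (by linarith) h3

private theorem Edges_floor {G p p' P n : ℕ} {C : ℝ} (hP : 1 ≤ P) (hp1 : P < p)
    (hp2 : p ≤ 2 * P) (hp1' : P < p') (hp2' : p' ≤ 2 * P) (h1 : (n : ℝ) / C ≤ G)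
    (h2 : (G : ℝ) ≤ C * n) : ∃ M : ℕ, M = ⌊(G : ℝ) * p * p' / (P : ℝ) ^ 2⌋₊ ∧
      |(M : ℝ) * (P : ℝ) ^ 2 - G * p * p'| ≤ (P : ℝ) ^ 2 ∧ (n : ℝ) / C ≤ M ∧
      (M : ℝ) ≤ 4 * C * n := by
  have hP0 : (0 : ℝ) < P := by exact_mod_cast hP
  have hG0 : (0 : ℝ) ≤ G := Nat.cast_nonneg G
  have a1 : (P : ℝ) ≤ p := by exact_mod_cast hp1.le
  have a2 : (p : ℝ) ≤ 2 * P := by exact_mod_cast hp2
  have a1' : (P : ℝ) ≤ p' := by exact_mod_cast hp1'.le
  have a2' : (p' : ℝ) ≤ 2 * P := by exact_mod_cast hp2'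
  have hx0 : 0 ≤ (G : ℝ) * p * p' / (P : ℝ) ^ 2 := by positivity
  refine ⟨_, rfl, ?_, ?_, ?_⟩
  · have b1 := Nat.floor_le hx0
    have b2 := Nat.lt_floor_add_one ((G : ℝ) * p * p' / (P : ℝ) ^ 2)
    rw [le_div_iff₀ (by positivity)] at b1
    rw [div_lt_iff₀ (by positivity)] at b2
    rw [abs_le]
    constructor <;> linarith
  · have b1 : (P : ℝ) ^ 2 ≤ (p : ℝ) * p' := by
      rw [pow_two]
      exact mul_le_mul a1 a1' hP0.le (by linarith)
    have b2 : G ≤ ⌊(G : ℝ) * p * p' / (P : ℝ) ^ 2⌋₊ := by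
      apply Nat.le_floor
      rw [le_div_iff₀ (by positivity), mul_assoc]
      exact mul_le_mul_of_nonneg_left b1 hG0
    have b3 : (G : ℝ) ≤ (⌊(G : ℝ) * p * p' / (P : ℝ) ^ 2⌋₊ : ℕ) := by exact_mod_cast b2
    exact h1.trans b3
  · have b1 : (p : ℝ) * p' ≤ 4 * (P : ℝ) ^ 2 := by
      calc (p : ℝ) * p' ≤ 2 * P * (2 * P) := mul_le_mul a2 a2' (by linarith) (by linarith)
        _ = 4 * (P : ℝ) ^ 2 := by ring
    refine (Nat.floor_le hx0).trans ?_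
    rw [div_le_iff₀ (by positivity), mul_assoc]
    calc (G : ℝ) * (p * p') ≤ (G : ℝ) * (4 * (P : ℝ) ^ 2) := mul_le_mul_of_nonneg_left b1 hG0
      _ ≤ C * n * (4 * (P : ℝ) ^ 2) := mul_le_mul_of_nonneg_right h2 (by positivity)
      _ = 4 * C * n * (P : ℝ) ^ 2 := by ring

/-- the scales -/
private noncomputable def Edges_S (C : ℝ) (n : ℕ) : Finset ℕ :=
  (range (⌊4 * C * n⌋₊ + 1)).filter (fun M => (n : ℝ) / C ≤ M)

private theorem Edges_memS {C : ℝ} {n M : ℕ} (h1 : (n : ℝ) / C ≤ M) (h2 : (M : ℝ) ≤ 4 * C * n) :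
    M ∈ Edges_S C n := by
  unfold Edges_S
  rw [Finset.mem_filter, Finset.mem_range]
  exact ⟨Nat.lt_succ_of_le (Nat.le_floor h2), h1⟩

private theorem Edges_ofS {C : ℝ} {n M : ℕ} (hC : 1 ≤ C) (h : M ∈ Edges_S C n) :
    (n : ℝ) / C ≤ M ∧ (M : ℝ) ≤ 4 * C * n := by
  unfold Edges_S at h
  rw [Finset.mem_filter, Finset.mem_range] at h
  refine ⟨h.2, ?_⟩
  have h1 : M ≤ ⌊4 * C * n⌋₊ := Nat.lt_succ_iff.1 h.1
  have h2 : (M : ℝ) ≤ (⌊4 * C * n⌋₊ : ℕ) := by exact_mod_cast h1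
  exact h2.trans (Nat.floor_le (by positivity))

private theorem Edges_cardS {C : ℝ} {n : ℕ} (hC : 1 ≤ C) (hn : 1 ≤ n) :
    ((Edges_S C n).card : ℝ) ≤ 5 * C * n := by
  have hn0 : (1 : ℝ) ≤ n := by exact_mod_cast hn
  unfold Edges_S
  have h1 := Finset.card_filter_le (range (⌊4 * C * n⌋₊ + 1)) (fun M : ℕ => (n : ℝ) / C ≤ M)
  rw [Finset.card_range] at h1
  have h2 : ((((range (⌊4 * C * n⌋₊ + 1)).filter (fun M : ℕ => (n : ℝ) / C ≤ M)).card : ℕ) : ℝ) ≤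
      ((⌊4 * C * n⌋₊ + 1 : ℕ) : ℝ) := by exact_mod_cast h1
  refine h2.trans ?_
  push_cast
  have h3 : (⌊4 * C * n⌋₊ : ℝ) ≤ 4 * C * n := Nat.floor_le (by positivity)
  nlinarith

private theorem Edges_EMcard (C : ℝ) (P : ℕ) (F : Finset ℕ) (R : Finset (ℕ × ℕ × ℕ)) (M : ℕ) :
    (EM C P F R M).card ≤ (VM C P F M).card * (VM C P F M).card := by
  classical
  rw [← Finset.card_product]
  unfold EM
  exact Finset.card_filter_le _ _

/-- pairs with different `p` -/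
private theorem Edges_Q1 {C : ℝ} (hC : 1 ≤ C) {n P : ℕ} {η : ℝ} {F F' : Finset ℕ} {α α' : ℕ → ℝ}
    {R : Finset (ℕ × ℕ × ℕ)} (h : Rel C n P η F F' α α' R) (hP : 1 ≤ P) :
    (((Edges_Q R).filter (fun q => ¬ q.1.2.1 = q.2.2.1)).card : ℝ) ≤
      (2 * C + 1) * ∑ M ∈ Edges_S C n, ((EM C P F R M).card : ℝ) := by
  classical
  have hP0 : (0 : ℝ) < P := by exact_mod_cast hP
  have h1 : (((Edges_Q R).filter (fun q => ¬ q.1.2.1 = q.2.2.1)).card : ℝ) ≤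
      (2 * C + 1) * (((Edges_S C n).sigma (fun M => EM C P F R M)).card : ℕ) := by
    refine Edges_fib (fun q => (⟨⌊(q.1.2.2 : ℝ) * q.2.2.1 * q.1.2.1 / (P : ℝ) ^ 2⌋₊,
      ((q.2.2.1, q.1.1), (q.1.2.1, q.2.1))⟩ : Σ _ : ℕ, (ℕ × ℕ) × (ℕ × ℕ))) (2 * C + 1) ?_ ?_
    · rintro ⟨⟨K, p', G⟩, ⟨K', p, G'⟩⟩ hq
      unfold Edges_Q at hq
      simp only [Finset.mem_filter, Finset.mem_product] at hq
      obtain ⟨⟨⟨t1, t2⟩, hG⟩, hpp⟩ := hq
      subst hG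
      have p1 := h.prime _ t1
      have p2 := h.prime _ t2
      have q1 := h.pos _ t1
      have q2 := h.pos _ t2
      have f1 := h.rngF' _ (h.memF' _ t1)
      simp only at p1 p2 q1 q2 f1
      obtain ⟨M, hM, m1, m2, m3⟩ := Edges_floor (G := G) hP p2.2.1 p2.2.2 p1.2.1 p1.2.2 f1.1 f1.2
      rw [Finset.mem_sigma]
      simp only
      rw [← hM]
      refine ⟨Edges_memS m2 m3, ?_⟩
      unfold EM
      rw [Finset.mem_filter, Finset.mem_product]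
      refine ⟨⟨?_, ?_⟩, fun hc => hpp hc.symm, G, t1, t2⟩
      · exact Edges_mem hC hP (h.memF _ t1) p2.1 p2.2.1 p2.2.2 q1 m1
      · refine Edges_mem hC hP (h.memF _ t2) p1.1 p1.2.1 p1.2.2 q2 ?_
        have : (G : ℝ) * p' * p = G * p * p' := by ring
        rw [this]
        exact m1
    · rintro ⟨M, ⟨⟨p, K⟩, ⟨p', K'⟩⟩⟩ _
      refine Edges_cnt _ (fun q => q.1.2.2) ?_ ((K : ℝ) * P / p') C (by linarith) ?_
      · rintro ⟨⟨K1, p1', G1⟩, ⟨K1', p1, G1'⟩⟩ ha ⟨⟨K2, p2', G2⟩, ⟨K2', p2, G2'⟩⟩ ha' haa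
        unfold Edges_Q at ha ha'
        simp only [Finset.mem_filter, Finset.mem_product, Sigma.mk.injEq, heq_eq_eq,
          Prod.mk.injEq] at ha ha' haa
        obtain ⟨⟨⟨_, a1⟩, _⟩, _, ⟨a2, a3⟩, a4, a5⟩ := ha
        obtain ⟨⟨⟨_, b1⟩, _⟩, _, ⟨b2, b3⟩, b4, b5⟩ := ha'
        subst a1 a2 a3 a4 a5 b1 b2 b3 b4 b5 haa
        rfl
      · rintro ⟨⟨K1, p1', G1⟩, ⟨K1', p1, G1'⟩⟩ ha
        unfold Edges_Q at ha
        simp only [Finset.mem_filter, Finset.mem_product, Sigma.mk.injEq, heq_eq_eq,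
          Prod.mk.injEq] at ha
        obtain ⟨⟨⟨⟨t1, _⟩, a1⟩, _⟩, _, ⟨a2, a3⟩, a4, a5⟩ := ha
        subst a1 a2 a3 a4 a5
        have h3 := h.pos _ t1
        have h4 := h.prime _ t1
        simp only at h3 h4
        have h5 : (P : ℝ) ≤ p1' := by exact_mod_cast h4.2.1.le
        exact Edges_div hP0 h5 (by linarith) h3
  rw [Finset.card_sigma] at h1
  push_cast at h1
  exact h1

theorem edges (C : ℝ) (hC : 1 ≤ C) : ∃ D : ℝ, C ≤ D ∧ ∀ (n P : ℕ) (δ η : ℝ) (F F' : Finset ℕ) (α α' : ℕ → ℝ)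
    (R : Finset (ℕ × ℕ × ℕ)), Rel C n P η F F' α α' R → 0 < δ → δ ≤ 1 → D ≤ δ ^ 4 * P → 1 ≤ n →
    δ * n * P ≤ R.card →
    ∃ F'' : Finset ℕ, δ ^ 2 / D * n ≤ F''.card ∧ (∀ M ∈ F'', (n : ℝ) / D ≤ M ∧ (M : ℝ) ≤ D * n) ∧
      ∀ M ∈ F'', δ ^ 2 / D * (P : ℝ) ^ 2 ≤ (EM C P F R M).card := by
  have hC0 : (0 : ℝ) < C := by linarith
  have hC2 : 0 ≤ C ^ 2 := by positivity
  set D : ℝ := 2 * C ^ 2 * (2 * C + 1) ^ 2 + 20 * C ^ 2 * (2 * C + 1) +
    4 * C * (2 * C + 1) * (4 * C + 3) ^ 2 with hD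
  have d1 : 2 * C ^ 2 * (2 * C + 1) ^ 2 ≤ D := by
    have e1 : 0 ≤ 20 * C ^ 2 * (2 * C + 1) := by positivity
    have e2 : 0 ≤ 4 * C * (2 * C + 1) * (4 * C + 3) ^ 2 := by positivity
    linarith
  have d2 : 20 * C ^ 2 * (2 * C + 1) ≤ D := by
    have e1 : 0 ≤ 2 * C ^ 2 * (2 * C + 1) ^ 2 := by positivity
    have e2 : 0 ≤ 4 * C * (2 * C + 1) * (4 * C + 3) ^ 2 := by positivity
    linarith
  have d3 : 4 * C * (2 * C + 1) * (4 * C + 3) ^ 2 ≤ D := by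
    have e1 : 0 ≤ 2 * C ^ 2 * (2 * C + 1) ^ 2 := by positivity
    have e2 : 0 ≤ 20 * C ^ 2 * (2 * C + 1) := by positivity
    linarith
  have d4 : 4 * C ≤ D := by
    refine le_trans ?_ d2
    nlinarith [mul_nonneg hC2 hC0.le]
  have hD0 : 0 < D := by linarith
  refine ⟨D, by linarith, ?_⟩
  intro n P δ η F F' α α' R h hδ hδ1 hDP hn hR
  have hn0 : (1 : ℝ) ≤ n := by exact_mod_cast hn
  have hδ4 : δ ^ 4 ≤ δ ^ 2 := pow_le_pow_of_le_one hδ.le hδ1 (by norm_num)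
  have hP0 : (0 : ℝ) < P := by
    by_contra hc
    have h1 : (P : ℝ) = 0 := le_antisymm (not_lt.1 hc) (Nat.cast_nonneg P)
    rw [h1, mul_zero] at hDP
    linarith
  have hP : 1 ≤ P := by
    have : 0 < P := by exact_mod_cast hP0
    omega
  have hDP2 : D ≤ δ ^ 2 * P := hDP.trans (mul_le_mul_of_nonneg_right hδ4 hP0.le)
  -- the number of pairs
  have c1 := Edges_CS R F' h.memF'
  have c2 := Edges_card hC hn h.rngF'
  have c3 := Edges_R hC h hn hP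
  have c4 := Edges_Q0 hC h hP
  have c5 := Edges_Q1 hC h hP
  have c6 : (((Edges_Q R).filter (fun q => q.1.2.1 = q.2.2.1)).card : ℝ) +
      ((Edges_Q R).filter (fun q => ¬ q.1.2.1 = q.2.2.1)).card = (Edges_Q R).card := by
    have := Finset.card_filter_add_card_filter_not (s := Edges_Q R)
      (fun q : (ℕ × ℕ × ℕ) × (ℕ × ℕ × ℕ) => q.1.2.1 = q.2.2.1)
    exact_mod_cast this
  set q : ℝ := ((Edges_Q R).card : ℝ) with hq
  set q0 : ℝ := (((Edges_Q R).filter (fun q => q.1.2.1 = q.2.2.1)).card : ℝ) with hq0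
  set q1 : ℝ := (((Edges_Q R).filter (fun q => ¬ q.1.2.1 = q.2.2.1)).card : ℝ) with hq1
  set S : ℝ := ∑ M ∈ Edges_S C n, ((EM C P F R M).card : ℝ) with hS
  have hq00 : 0 ≤ q := Nat.cast_nonneg _
  -- `q ≥ δ² n P² / C`
  have e1 : δ ^ 2 * n * P ^ 2 ≤ C * q := by
    have f1 : (δ * n * P) ^ 2 ≤ (R.card : ℝ) ^ 2 := pow_le_pow_left₀ (by positivity) hR 2
    have f2 : (F'.card : ℝ) * q ≤ C * n * q := mul_le_mul_of_nonneg_right c2 hq00
    have f3 : (n : ℝ) * (δ ^ 2 * n * P ^ 2) ≤ n * (C * q) := by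
      calc (n : ℝ) * (δ ^ 2 * n * P ^ 2) = (δ * n * P) ^ 2 := by ring
        _ ≤ C * n * q := by linarith
        _ = n * (C * q) := by ring
    exact le_of_mul_le_mul_left f3 (by linarith)
  -- `q0 ≤ δ² n P² / (2 C)`
  have e2 : 2 * (C * q0) ≤ δ ^ 2 * n * P ^ 2 := by
    have f1 : q0 ≤ (2 * C + 1) * ((2 * C + 1) * (C * n * P)) :=
      c4.trans (mul_le_mul_of_nonneg_left c3 (by linarith))
    have f2 : 2 * (C * q0) ≤ 2 * C ^ 2 * (2 * C + 1) ^ 2 * (n * P) := by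
      calc 2 * (C * q0) ≤ 2 * (C * ((2 * C + 1) * ((2 * C + 1) * (C * n * P)))) := by
            refine mul_le_mul_of_nonneg_left (mul_le_mul_of_nonneg_left f1 hC0.le) (by norm_num)
        _ = _ := by ring
    refine f2.trans ?_
    calc 2 * C ^ 2 * (2 * C + 1) ^ 2 * (n * P) ≤ (δ ^ 2 * P) * (n * P) :=
          mul_le_mul_of_nonneg_right (d1.trans hDP2) (by positivity)
      _ = _ := by ring
  have e3 : δ ^ 2 * n * P ^ 2 ≤ 2 * C * (2 * C + 1) * S := by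
    have f1 : C * q = C * q0 + C * q1 := by rw [← c6]; ring
    have f2 : C * q1 ≤ C * ((2 * C + 1) * S) := mul_le_mul_of_nonneg_left c5 hC0.le
    have f3 : 2 * C * (2 * C + 1) * S = 2 * (C * ((2 * C + 1) * S)) := by ring
    linarith
  -- the set of the good scales
  set F'' := (Edges_S C n).filter (fun M => δ ^ 2 / D * (P : ℝ) ^ 2 ≤ (EM C P F R M).card)
    with hF''
  have e4 : S ≤ F''.card * ((4 * C + 3) * P) ^ 2 + 5 * C * n * (δ ^ 2 / D * (P : ℝ) ^ 2) := by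
    rw [hS, ← Finset.sum_filter_add_sum_filter_not (Edges_S C n)
      (fun M => δ ^ 2 / D * (P : ℝ) ^ 2 ≤ (EM C P F R M).card)]
    refine add_le_add ?_ ?_
    · calc ∑ M ∈ F'', ((EM C P F R M).card : ℝ) ≤ ∑ _M ∈ F'', ((4 * C + 3) * (P : ℝ)) ^ 2 := by
            refine Finset.sum_le_sum fun M _ => ?_
            have f1 := Edges_EMcard C P F R M
            have f2 : ((EM C P F R M).card : ℝ) ≤ (VM C P F M).card * (VM C P F M).card := by
              exact_mod_cast f1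
            refine f2.trans ?_
            rw [pow_two]
            have f3 := VM_card C hC P F M hP
            exact mul_le_mul f3 f3 (Nat.cast_nonneg _) (by positivity)
        _ = _ := by rw [Finset.sum_const, nsmul_eq_mul]
    · calc ∑ M ∈ (Edges_S C n).filter (fun M => ¬ δ ^ 2 / D * (P : ℝ) ^ 2 ≤ (EM C P F R M).card),
            ((EM C P F R M).card : ℝ)
          ≤ ∑ _M ∈ (Edges_S C n).filter
            (fun M => ¬ δ ^ 2 / D * (P : ℝ) ^ 2 ≤ (EM C P F R M).card),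
              (δ ^ 2 / D * (P : ℝ) ^ 2) := by
            refine Finset.sum_le_sum fun M hM => ?_
            exact (not_le.1 (Finset.mem_filter.1 hM).2).le
        _ = (((Edges_S C n).filter
            (fun M => ¬ δ ^ 2 / D * (P : ℝ) ^ 2 ≤ (EM C P F R M).card)).card : ℝ) *
              (δ ^ 2 / D * (P : ℝ) ^ 2) := by rw [Finset.sum_const, nsmul_eq_mul]
        _ ≤ 5 * C * n * (δ ^ 2 / D * (P : ℝ) ^ 2) := by
            refine mul_le_mul_of_nonneg_right ?_ (by positivity)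
            refine le_trans ?_ (Edges_cardS hC hn)
            exact_mod_cast Finset.card_filter_le _ _
  refine ⟨F'', ?_, ?_, ?_⟩
  · -- the number of good scales
    have g1 : 2 * C * (2 * C + 1) * (5 * C * n * (δ ^ 2 / D * (P : ℝ) ^ 2)) ≤
        (1 / 2) * (δ ^ 2 * n * P ^ 2) := by
      have f1 : 2 * C * (2 * C + 1) * (5 * C * n * (δ ^ 2 / D * (P : ℝ) ^ 2)) =
          (20 * C ^ 2 * (2 * C + 1)) / D * ((1 / 2) * (δ ^ 2 * n * P ^ 2)) := by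
        field_simp
        ring
      rw [f1]
      have f2 : (20 * C ^ 2 * (2 * C + 1)) / D ≤ 1 := (div_le_one hD0).2 d2
      have f3 : 0 ≤ (1 / 2) * (δ ^ 2 * n * (P : ℝ) ^ 2) := by positivity
      nlinarith
    have g2 : (1 / 2) * (δ ^ 2 * n * (P : ℝ) ^ 2) ≤
        2 * C * (2 * C + 1) * (F''.card * ((4 * C + 3) * P) ^ 2) := by
      have f1 : 2 * C * (2 * C + 1) * S ≤ 2 * C * (2 * C + 1) *
          (F''.card * ((4 * C + 3) * P) ^ 2 + 5 * C * n * (δ ^ 2 / D * (P : ℝ) ^ 2)) :=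
        mul_le_mul_of_nonneg_left e4 (by positivity)
      rw [mul_add] at f1
      linarith
    have g3 : δ ^ 2 * n ≤ 4 * C * (2 * C + 1) * (4 * C + 3) ^ 2 * F''.card := by
      have f1 : (δ ^ 2 * n) * (P : ℝ) ^ 2 ≤
          (4 * C * (2 * C + 1) * (4 * C + 3) ^ 2 * F''.card) * (P : ℝ) ^ 2 := by
        calc (δ ^ 2 * n) * (P : ℝ) ^ 2 = 2 * ((1 / 2) * (δ ^ 2 * n * (P : ℝ) ^ 2)) := by ring
          _ ≤ 2 * (2 * C * (2 * C + 1) * (F''.card * ((4 * C + 3) * P) ^ 2)) := by linarith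
          _ = _ := by ring
      exact le_of_mul_le_mul_right f1 (by positivity)
    have g4 : δ ^ 2 * n ≤ D * F''.card :=
      g3.trans (mul_le_mul_of_nonneg_right d3 (Nat.cast_nonneg _))
    rw [div_mul_eq_mul_div, div_le_iff₀ hD0]
    linarith
  · intro M hM
    have hM1 := Edges_ofS hC (Finset.mem_filter.1 hM).1
    refine ⟨?_, ?_⟩
    · refine le_trans ?_ hM1.1
      exact div_le_div_of_nonneg_left (by linarith) hC0 (by linarith)
    · refine hM1.2.trans ?_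
      exact mul_le_mul_of_nonneg_right d4 (by linarith)
  · intro M hM
    exact (Finset.mem_filter.1 hM).2

end Pool.Agent.H53.MID

end

section

/-!
# MID Climb: one step to a larger scale

Proof.  `edges` gives `D1` and `F''`.  For `M ∈ F''` apply `codeg` to `V = VM C P F M`, `pr = Prod.fst`, `E = EM C P F R M`, `b = 4C+3`,
`δ := δ^2/D1` (`VM_fib`, `VM_card`; `2 b^4 ≤ (δ^2/D1)^2 P` since `D ≤ δ^4 P` with `D ≥ 2 b^4 D1^2`): vertices `v = (p, K_v)`, `v' = (q, K_q)`, `p ≠ q`, with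
`≥ (δ^2/D1)^2 P/(2 b^3)` common neighbours `u = (p_u, K_u)`.  An edge `(v,u) ∈ EM` gives (with its `G`)
`nz (p_u α(K_v) - α'(G)) ≤ η`, `nz (p α(K_u) - α'(G)) ≤ η`, so `nz (p_u α(K_v) - p α(K_u)) ≤ 2 η =: d`; the same for `v'`:
`nz (p_u α(K_q) - q α(K_u)) ≤ d`; and `p_u ≠ p`.  Fix one common neighbour `u1`; `lift` gives `s`, put `w = (α(K_v) + s)/p`.  For any common neighbour
`u` let `s_u` be its lift; `four_cycle` (with `p1 = p_{u1}`, `p2 = p_u`, `a = α(K_v)`, `b = α(K_q)`, `48 d P^2 = 96 η P^2 < 1`) gives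
`nz (p_u w - α(K_u)) ≤ d/p ≤ 2 η/P`.  Put `α''(M) = w` and let `R''` contain the triples `(M, p_u, K_u)`; `|K_u p_u - M P| ≤ (2C+1) P` by the
definition of `VM`; `u ↦ (M, p_u, K_u)` is injective.  Use choice over `M ∈ F''` (functions `w : ℕ → ℝ`, `U : ℕ → Finset (ℕ × ℕ)`).
-/

set_option autoImplicit false

namespace Pool.Agent.H53.MID

open Finset

private theorem Climb_edge (C : ℝ) (n P : ℕ) (η : ℝ) (F F' : Finset ℕ) (α α' : ℕ → ℝ)
    (R : Finset (ℕ × ℕ × ℕ)) (h : Rel C n P η F F' α α' R) (M : ℕ) (v u : ℕ × ℕ)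
    (he : (v, u) ∈ EM C P F R M) :
    v.1 ≠ u.1 ∧ nz ((u.1 : ℝ) * α v.2 - (v.1 : ℝ) * α u.2) ≤ 2 * η := by
  classical
  unfold EM at he
  rw [Finset.mem_filter] at he
  obtain ⟨_, hne, G, h1, h2⟩ := he
  refine ⟨hne, ?_⟩
  have f1 := h.freq _ h1
  have f2 := h.freq _ h2
  simp only at f1 f2
  have f3 : nz (α' G - (v.1 : ℝ) * α u.2) ≤ η := by
    rw [← nz_neg]
    have : -(α' G - (v.1 : ℝ) * α u.2) = (v.1 : ℝ) * α u.2 - α' G := by ring
    rw [this]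
    exact f2
  calc nz ((u.1 : ℝ) * α v.2 - (v.1 : ℝ) * α u.2)
      ≤ nz ((u.1 : ℝ) * α v.2 - α' G) + nz (α' G - (v.1 : ℝ) * α u.2) := nz_triangle _ _ _
    _ ≤ η + η := add_le_add f1 f3
    _ = 2 * η := by ring

private theorem Climb_vm (C : ℝ) (P : ℕ) (F : Finset ℕ) (M : ℕ) (v : ℕ × ℕ) (hv : v ∈ VM C P F M) :
    v.1.Prime ∧ (P < v.1 ∧ v.1 ≤ 2 * P) ∧ v.2 ∈ F ∧ |(v.2 : ℝ) * v.1 - M * P| ≤ (2 * C + 1) * P := by
  unfold VM at hv
  rw [Finset.mem_filter, Finset.mem_product, Finset.mem_filter, Finset.mem_Ioc] at hv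
  exact ⟨hv.1.1.2, hv.1.1.1, hv.1.2, hv.2⟩

private theorem Climb_one (C D1 : ℝ) (hC : 1 ≤ C) (hD1 : C ≤ D1) (n P : ℕ) (δ η : ℝ)
    (F F' : Finset ℕ) (α α' : ℕ → ℝ)
    (R : Finset (ℕ × ℕ × ℕ)) (h : Rel C n P η F F' α α' R) (hδ : 0 < δ)
    (hη : 0 ≤ η) (hηP : 100 * η * (P : ℝ) ^ 2 ≤ 1) (hP : 1 ≤ P)
    (hbig : 2 * (4 * C + 3) ^ 4 * D1 ^ 2 ≤ δ ^ 4 * P) (M : ℕ)
    (hcard : δ ^ 2 / D1 * (P : ℝ) ^ 2 ≤ (EM C P F R M).card) :
    ∃ (w : ℝ) (U : Finset (ℕ × ℕ)), U ⊆ VM C P F M ∧ (∀ u ∈ U, nz ((u.1 : ℝ) * w - α u.2) ≤ 2 * η / P) ∧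
      δ ^ 4 * P / (2 * (4 * C + 3) ^ 3 * D1 ^ 2) ≤ (U.card : ℝ) := by
  classical
  have hD1pos : 0 < D1 := by linarith
  have hPr : (0 : ℝ) < P := by exact_mod_cast hP
  have hb : (1 : ℝ) ≤ 4 * C + 3 := by linarith
  have hEsub : EM C P F R M ⊆ VM C P F M ×ˢ VM C P F M := by
    unfold EM
    exact Finset.filter_subset _ _
  have hbig2 : 2 * (4 * C + 3) ^ 4 ≤ (δ ^ 2 / D1) ^ 2 * P := by
    have e1 : (δ ^ 2 / D1) ^ 2 * P = δ ^ 4 * P / D1 ^ 2 := by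
      field_simp
    rw [e1, le_div_iff₀ (by positivity)]
    exact hbig
  obtain ⟨v, hv, v', hv', hne, hU⟩ := codeg (VM C P F M) (Prod.fst : ℕ × ℕ → ℕ) (EM C P F R M) (4 * C + 3) P
    (δ ^ 2 / D1) hb hPr (by positivity) (VM_card C hC P F M hP)
    (fun v _ => VM_fib C hC P F M v.1 hP) hEsub hcard hbig2
  obtain ⟨hvp, hvP, -, -⟩ := Climb_vm C P F M v hv
  obtain ⟨hvp', hvP', -, -⟩ := Climb_vm C P F M v' hv'
  set U := (VM C P F M).filter (fun u => (v, u) ∈ EM C P F R M ∧ (v', u) ∈ EM C P F R M) with hUdef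
  have hcardU : δ ^ 4 * P / (2 * (4 * C + 3) ^ 3 * D1 ^ 2) ≤ (U.card : ℝ) := by
    refine le_trans (le_of_eq ?_) hU
    have hb0 : (4 * C + 3 : ℝ) ≠ 0 := by linarith
    field_simp
  rcases U.eq_empty_or_nonempty with hemp | ⟨u1, hu1⟩
  · refine ⟨0, U, ?_, ?_, hcardU⟩
    · exact Finset.filter_subset _ _
    · intro u hu
      rw [hemp] at hu
      exact absurd hu (Finset.notMem_empty u)
  · have hu1' := hu1
    rw [hUdef, Finset.mem_filter] at hu1'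
    obtain ⟨hu1V, hu1e, hu1e'⟩ := hu1'
    obtain ⟨hu1p, hu1P, -, -⟩ := Climb_vm C P F M u1 hu1V
    obtain ⟨n1, f1⟩ := Climb_edge C n P η F F' α α' R h M v u1 hu1e
    obtain ⟨n1', f1'⟩ := Climb_edge C n P η F F' α α' R h M v' u1 hu1e'
    obtain ⟨s1, hs1⟩ := lift v.1 u1.1 hvp hu1p n1 (α v.2) (α u1.2) (2 * η) f1
    refine ⟨(α v.2 + s1) / v.1, U, Finset.filter_subset _ _, ?_, hcardU⟩
    intro u hu
    have hu' := hu
    rw [hUdef, Finset.mem_filter] at hu'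
    obtain ⟨huV, hue, hue'⟩ := hu'
    obtain ⟨hup, huP, -, -⟩ := Climb_vm C P F M u huV
    obtain ⟨n2, f2⟩ := Climb_edge C n P η F F' α α' R h M v u hue
    obtain ⟨n2', f2'⟩ := Climb_edge C n P η F F' α α' R h M v' u hue'
    obtain ⟨s2, hs2⟩ := lift v.1 u.1 hvp hup n2 (α v.2) (α u.2) (2 * η) f2
    have hd : 48 * (2 * η) * (P : ℝ) ^ 2 < 1 := by
      have hx : 0 ≤ η * (P : ℝ) ^ 2 := by positivity
      nlinarith
    have key := four_cycle P v.1 v'.1 u1.1 u.1 hvp hvp' hu1p hup hvP hvP' hu1P huP hne n1 n2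
      (α v.2) (α v'.2) (α u1.2) (α u.2) (2 * η) s1 s2 hs1 hs2 f1' f2' (by positivity) hd
    refine key.trans ?_
    apply div_le_div_of_nonneg_left (by positivity) hPr
    exact_mod_cast hvP.1.le

theorem climb (C : ℝ) (hC : 1 ≤ C) : ∃ D : ℝ, C ≤ D ∧ ∀ (n P : ℕ) (δ η : ℝ) (F F' : Finset ℕ) (α α' : ℕ → ℝ)
    (R : Finset (ℕ × ℕ × ℕ)), Rel C n P η F F' α α' R → 0 < δ → δ ≤ 1 → 0 ≤ η → 100 * η * (P : ℝ) ^ 2 ≤ 1 →
    D ≤ δ ^ 4 * P → 1 ≤ n → δ * n * P ≤ R.card →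
    ∃ (F'' : Finset ℕ) (α'' : ℕ → ℝ) (R'' : Finset (ℕ × ℕ × ℕ)), Rel D n P (2 * η / P) F'' F α'' α R'' ∧
      δ ^ 2 / D * n ≤ F''.card ∧
      ∀ M ∈ F'', δ ^ 4 / D * P ≤ ((R''.filter (fun t => t.1 = M)).card : ℝ) := by
  classical
  obtain ⟨D1, hCD1, hedges⟩ := edges C hC
  have hD1pos : 0 < D1 := by linarith
  have hD1one : 1 ≤ D1 := by linarith
  have hb : (7 : ℝ) ≤ 4 * C + 3 := by linarith
  have hb1 : (1 : ℝ) ≤ 4 * C + 3 := by linarith
  have hDsq : 1 ≤ D1 ^ 2 := one_le_pow₀ hD1one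
  have hDsq' : D1 ≤ D1 ^ 2 := by nlinarith
  have hb3 : 4 * C + 3 ≤ (4 * C + 3) ^ 3 := le_self_pow₀ hb1 (by norm_num)
  have hb4 : (4 * C + 3) ^ 3 ≤ (4 * C + 3) ^ 4 := pow_le_pow_right₀ hb1 (by norm_num)
  have hb4one : 1 ≤ (4 * C + 3) ^ 4 := one_le_pow₀ hb1
  obtain ⟨D, hDdef⟩ : ∃ D : ℝ, D = 2 * (4 * C + 3) ^ 4 * D1 ^ 2 := ⟨_, rfl⟩
  have hDD1 : D1 ≤ D := by
    rw [hDdef]
    nlinarith
  have hDC : 2 * C + 1 ≤ D := by
    have : 4 * C + 3 ≤ D := by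
      rw [hDdef]
      have h1 : 4 * C + 3 ≤ (4 * C + 3) ^ 4 := hb3.trans hb4
      nlinarith
    linarith
  have hD3 : 2 * (4 * C + 3) ^ 3 * D1 ^ 2 ≤ D := by
    rw [hDdef]
    have h0 : 0 ≤ D1 ^ 2 := by positivity
    nlinarith
  have hCD : C ≤ D := hCD1.trans hDD1
  have hDpos : 0 < D := by linarith
  refine ⟨D, hCD, ?_⟩
  intro n P δ η F F' α α' R hRel hδ hδ1 hη hηP hDP hn hcard
  have hPpos : 1 ≤ P := by
    rcases Nat.eq_zero_or_pos P with h0 | h0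
    · subst h0
      simp only [Nat.cast_zero, mul_zero] at hDP
      linarith
    · exact h0
  have hPr : (0 : ℝ) < P := by exact_mod_cast hPpos
  obtain ⟨F'', hF1, hF2, hF3⟩ := hedges n P δ η F F' α α' R hRel hδ hδ1 (hDD1.trans hDP) hn hcard
  have hone : ∀ M : ℕ, M ∈ F'' → ∃ (w : ℝ) (U : Finset (ℕ × ℕ)), U ⊆ VM C P F M ∧
      (∀ u ∈ U, nz ((u.1 : ℝ) * w - α u.2) ≤ 2 * η / P) ∧
      δ ^ 4 * P / (2 * (4 * C + 3) ^ 3 * D1 ^ 2) ≤ (U.card : ℝ) := by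
    intro M hM
    exact Climb_one C D1 hC hCD1 n P δ η F F' α α' R hRel hδ hη hηP hPpos (by rw [← hDdef]; exact hDP) M
      (hF3 M hM)
  choose! w U hU1 hU2 hU3 using hone
  have hmem : ∀ t : ℕ × ℕ × ℕ, t ∈ F''.biUnion (fun M => (U M).image (fun u => (M, u.1, u.2))) ↔
      t.1 ∈ F'' ∧ (t.2.1, t.2.2) ∈ U t.1 := by
    intro t
    rw [Finset.mem_biUnion]
    constructor
    · rintro ⟨M, hM, ht⟩
      rw [Finset.mem_image] at ht
      obtain ⟨u, hu, rfl⟩ := ht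
      exact ⟨hM, hu⟩
    · rintro ⟨hM, ht⟩
      refine ⟨t.1, hM, ?_⟩
      rw [Finset.mem_image]
      exact ⟨(t.2.1, t.2.2), ht, rfl⟩
  refine ⟨F'', w, F''.biUnion (fun M => (U M).image (fun u => (M, u.1, u.2))), ?_, ?_, ?_⟩
  · refine ⟨?_, ?_, ?_, ?_, ?_, ?_, ?_⟩
    · intro t ht
      exact ((hmem t).1 ht).1
    · intro t ht
      obtain ⟨hM, hu⟩ := (hmem t).1 ht
      exact (Climb_vm C P F t.1 _ (hU1 t.1 hM hu)).2.2.1
    · intro t ht
      obtain ⟨hM, hu⟩ := (hmem t).1 ht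
      obtain ⟨a1, a2, -, -⟩ := Climb_vm C P F t.1 _ (hU1 t.1 hM hu)
      exact ⟨a1, a2.1, a2.2⟩
    · intro t ht
      obtain ⟨hM, hu⟩ := (hmem t).1 ht
      obtain ⟨-, -, -, a4⟩ := Climb_vm C P F t.1 _ (hU1 t.1 hM hu)
      refine a4.trans ?_
      exact mul_le_mul_of_nonneg_right hDC hPr.le
    · intro t ht
      obtain ⟨hM, hu⟩ := (hmem t).1 ht
      exact hU2 t.1 hM _ hu
    · intro M hM
      obtain ⟨a1, a2⟩ := hF2 M hM
      refine ⟨le_trans ?_ a1, a2.trans ?_⟩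
      · exact div_le_div_of_nonneg_left (Nat.cast_nonneg n) hD1pos hDD1
      · exact mul_le_mul_of_nonneg_right hDD1 (Nat.cast_nonneg n)
    · intro K hK
      obtain ⟨a1, a2⟩ := hRel.rngF K hK
      refine ⟨le_trans ?_ a1, a2.trans ?_⟩
      · exact div_le_div_of_nonneg_left (Nat.cast_nonneg n) (by linarith) hCD
      · exact mul_le_mul_of_nonneg_right hCD (Nat.cast_nonneg n)
  · refine le_trans ?_ hF1
    apply mul_le_mul_of_nonneg_right _ (Nat.cast_nonneg n)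
    exact div_le_div_of_nonneg_left (by positivity) hD1pos hDD1
  · intro M hM
    have hinj : (U M).card ≤ ((F''.biUnion (fun M => (U M).image (fun u => (M, u.1, u.2)))).filter
        (fun t => t.1 = M)).card := by
      refine Finset.card_le_card_of_injOn (fun u => (M, u.1, u.2)) ?_ ?_
      · intro u hu
        rw [Finset.mem_coe, Finset.mem_filter]
        refine ⟨(hmem _).2 ⟨hM, ?_⟩, rfl⟩
        exact hu
      · intro u _ u' _ he
        simp only [Prod.mk.injEq, true_and] at he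
        exact Prod.ext he.1 he.2
    have h3 := hU3 M hM
    calc δ ^ 4 / D * P = δ ^ 4 * P / D := by ring
      _ ≤ δ ^ 4 * P / (2 * (4 * C + 3) ^ 3 * D1 ^ 2) :=
          div_le_div_of_nonneg_left (by positivity) (by positivity) hD3
      _ ≤ (U M).card := h3
      _ ≤ _ := by exact_mod_cast hinj

end Pool.Agent.H53.MID

end

section

/-!
# MID Tower: `J` steps up

Proof.  Induction on `j ≥ 1` of the statement: for every `C` there are `D ≥ 1`, `e` such that for all data there are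
`F, F', α_j, α', R` with `Rel D n P (2^j η P/P^j) F F' α_j α' R`, `δ^e/D n P ≤ |R|`, `F ≠ ∅`, and for every `K ∈ F` a set `S K` with
`Desc P j D (4^j η) F0 α K (α_j K) (S K)` and `δ^e/D P^j ≤ |S K|` (here `F0, α` is level 0, the given relation is `Rel C n P (η P) F0 G0 α β R0`).
`j = 1`: `climb` (its `η` is `η P`; `100 η P^3 ≤ 1`) gives `F'', α'', R''` with `Rel D1 n P (2 η) F'' F0 α'' α R''`;
`S M = {(p, i) : (M, p, i) ∈ R''}`; `|R''| = ∑_{M} ≥ (δ^2/D1 n)(δ^4/D1 P)`.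
`j → j+1`: `climb` with `C := D_j`, `δ := δ^e/D_j` (`≤ 1`), `η := 2^j η P/P^j` (`100 η_j P^2 ≤ 100 · 2^j η P ≤ 1`, as `2^j ≤ P`), then `chain_step` with
`T = {(p, K) : (M,p,K) ∈ R''}`, `η' = 2^(j+1) η P/P^(j+1)`: `(2P)^j η' ≤ 2^(2j+1) η`, `2^(2j+1) η + 4^j η ≤ 4^(j+1) η`.
All constants (`D`, `e`) depend only on `C` and `j`; `D ≤ δ^e P` gives all the largeness conditions (enlarge `D`, `e`; `δ ≤ 1`).
-/

set_option autoImplicit false

namespace Pool.Agent.H53.MID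

open Finset

private theorem Tower_relmono {C C' : ℝ} {n P : ℕ} {η : ℝ} {F F' : Finset ℕ} {α α' : ℕ → ℝ}
    {R : Finset (ℕ × ℕ × ℕ)} (h : Rel C n P η F F' α α' R) (hC : 1 ≤ C) (hCC : C ≤ C') :
    Rel C' n P η F F' α α' R where
  memF := h.memF
  memF' := h.memF'
  prime := h.prime
  pos := fun t ht => (h.pos t ht).trans (mul_le_mul_of_nonneg_right hCC (Nat.cast_nonneg P))
  freq := h.freq
  rngF := fun K hK => ⟨(div_le_div_of_nonneg_left (Nat.cast_nonneg n) (by linarith) hCC).trans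
    (h.rngF K hK).1, (h.rngF K hK).2.trans (mul_le_mul_of_nonneg_right hCC (Nat.cast_nonneg n))⟩
  rngF' := fun K hK => ⟨(div_le_div_of_nonneg_left (Nat.cast_nonneg n) (by linarith) hCC).trans
    (h.rngF' K hK).1, (h.rngF' K hK).2.trans (mul_le_mul_of_nonneg_right hCC (Nat.cast_nonneg n))⟩

private theorem Tower_descmono {P j : ℕ} {D D' τ τ' : ℝ} {F0 : Finset ℕ} {α : ℕ → ℝ} {K : ℕ} {w : ℝ}
    {S : Finset (ℕ × ℕ)} (h : Desc P j D τ F0 α K w S) (hD : D ≤ D') (hτ : τ ≤ τ') :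
    Desc P j D' τ' F0 α K w S where
  mem := h.mem
  lo := h.lo
  hi := h.hi
  pos := fun t ht => (h.pos t ht).trans (mul_le_mul_of_nonneg_right hD (by positivity))
  freq := fun t ht => (h.freq t ht).trans hτ

private theorem Tower_sum {F'' : Finset ℕ} {R : Finset (ℕ × ℕ × ℕ)} (hF : ∀ t ∈ R, t.1 ∈ F'') {a b : ℝ}
    (hb : 0 ≤ b) (ha : a ≤ F''.card)
    (hR : ∀ M ∈ F'', b ≤ ((R.filter (fun t => t.1 = M)).card : ℝ)) : a * b ≤ R.card := by
  have h1 : R.card = ∑ M ∈ F'', (R.filter (fun t => t.1 = M)).card :=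
    Finset.card_eq_sum_card_fiberwise hF
  rw [h1, Nat.cast_sum]
  calc a * b ≤ F''.card * b := mul_le_mul_of_nonneg_right ha hb
    _ = ∑ _M ∈ F'', b := by rw [Finset.sum_const, nsmul_eq_mul]
    _ ≤ _ := Finset.sum_le_sum hR

private noncomputable def Tower_T (R : Finset (ℕ × ℕ × ℕ)) (M : ℕ) : Finset (ℕ × ℕ) :=
  (R.filter (fun t => t.1 = M)).image Prod.snd

private theorem Tower_memT {R : Finset (ℕ × ℕ × ℕ)} {M : ℕ} {t : ℕ × ℕ} (h : t ∈ Tower_T R M) :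
    (M, t) ∈ R := by
  obtain ⟨x, hx, rfl⟩ := Finset.mem_image.1 h
  obtain ⟨h1, h2⟩ := Finset.mem_filter.1 hx
  rw [← h2]
  exact h1

private theorem Tower_cardT (R : Finset (ℕ × ℕ × ℕ)) (M : ℕ) :
    (Tower_T R M).card = (R.filter (fun t => t.1 = M)).card := by
  apply Finset.card_image_of_injOn
  intro x hx y hy hxy
  have h1 := (Finset.mem_filter.1 hx).2
  have h2 := (Finset.mem_filter.1 hy).2
  exact Prod.ext (h1.trans h2.symm) hxy

private def Tower_Q (C : ℝ) (j : ℕ) : Prop := ∃ (D : ℝ) (e : ℕ), 1 ≤ D ∧ ∀ (n P : ℕ) (δ η : ℝ)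
    (F0 G0 : Finset ℕ) (α β : ℕ → ℝ) (R0 : Finset (ℕ × ℕ × ℕ)), Rel C n P (η * P) F0 G0 α β R0 → 0 < δ → δ ≤ 1 →
    0 ≤ η → 100 * η * (P : ℝ) ^ 3 ≤ 1 → D ≤ δ ^ e * P → 1 ≤ n → δ * n * P ≤ R0.card →
    ∃ (F F' : Finset ℕ) (αj α' : ℕ → ℝ) (R : Finset (ℕ × ℕ × ℕ)),
      Rel D n P (2 ^ j * η * P / (P : ℝ) ^ j) F F' αj α' R ∧ δ ^ e / D * n * P ≤ R.card ∧ F.Nonempty ∧
      ∃ S : ℕ → Finset (ℕ × ℕ), ∀ K ∈ F, Desc P j D (4 ^ j * η) F0 α K (αj K) (S K) ∧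
        δ ^ e / D * (P : ℝ) ^ j ≤ (S K).card

private theorem Tower_base (C : ℝ) (hC : 1 ≤ C) : Tower_Q C 1 := by
  obtain ⟨D1, hD1, hcl⟩ := climb C hC
  have hD1' : 1 ≤ D1 := hC.trans hD1
  have hD1p : 0 < D1 := by linarith
  refine ⟨D1 ^ 2, 6, by nlinarith, ?_⟩
  intro n P δ η F0 G0 α β R0 hR hδ hδ1 hη hηP hDP hn hcard
  have hδ64 : δ ^ 6 ≤ δ ^ 4 := pow_le_pow_of_le_one hδ.le hδ1 (by norm_num)
  have hP0 : (0 : ℝ) ≤ P := Nat.cast_nonneg P
  have hP : (0 : ℝ) < P := by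
    rcases hP0.lt_or_eq with h | h
    · exact h
    · rw [← h, mul_zero] at hDP
      nlinarith
  have h1 : D1 ≤ δ ^ 4 * P := by
    have h2 : δ ^ 6 * P ≤ δ ^ 4 * P := mul_le_mul_of_nonneg_right hδ64 hP0
    nlinarith
  obtain ⟨F, αj, R, hrel, hF, hRM⟩ := hcl n P δ (η * P) F0 G0 α β R0 hR hδ hδ1 (by positivity)
    (by linarith [show 100 * (η * P) * (P : ℝ) ^ 2 = 100 * η * (P : ℝ) ^ 3 by ring]) h1 hn hcard
  have he : 2 * (η * P) / (P : ℝ) = 2 ^ 1 * η * P / (P : ℝ) ^ 1 := by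
    rw [pow_one, pow_one]
    ring
  have he2 : 2 * (η * P) / (P : ℝ) = 2 * η := by
    field_simp
  have hDD : D1 ≤ D1 ^ 2 := by nlinarith
  have hn' : (1 : ℝ) ≤ n := by exact_mod_cast hn
  refine ⟨F, F0, αj, α, R, he ▸ Tower_relmono hrel hD1' hDD, ?_, ?_, Tower_T R, ?_⟩
  · have h2 := Tower_sum hrel.memF (a := δ ^ 2 / D1 * n) (b := δ ^ 4 / D1 * P) (by positivity) hF hRM
    have h3 : δ ^ 2 / D1 * n * (δ ^ 4 / D1 * P) = δ ^ 6 / D1 ^ 2 * n * P := by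
      field_simp
    rw [h3] at h2
    exact h2
  · rw [← Finset.card_pos]
    have h2 : (0 : ℝ) < F.card := lt_of_lt_of_le (by positivity) hF
    exact_mod_cast h2
  · intro K hK
    constructor
    · refine ⟨?_, ?_, ?_, ?_, ?_⟩
      · intro t ht
        exact hrel.memF' _ (Tower_memT ht)
      · intro t ht
        have h2 := (hrel.prime _ (Tower_memT ht)).2.1
        rw [pow_one]
        exact_mod_cast h2.le
      · intro t ht
        have h2 := (hrel.prime _ (Tower_memT ht)).2.2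
        rw [pow_one]
        exact_mod_cast h2
      · intro t ht
        have h2 := hrel.pos _ (Tower_memT ht)
        rw [pow_one]
        exact h2.trans (mul_le_mul_of_nonneg_right hDD hP0)
      · intro t ht
        have h2 := hrel.freq _ (Tower_memT ht)
        rw [he2] at h2
        refine h2.trans ?_
        rw [pow_one]
        linarith
    · rw [Tower_cardT, pow_one]
      refine le_trans ?_ (hRM K hK)
      refine mul_le_mul_of_nonneg_right ?_ hP0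
      rw [div_le_div_iff₀ (by positivity) hD1p]
      exact mul_le_mul hδ64 hDD hD1p.le (by positivity)

private theorem Tower_step (C : ℝ) (j : ℕ) (h : Tower_Q C j) :
    Tower_Q C (j + 1) := by
  obtain ⟨B, e, hB, hQ⟩ := h
  obtain ⟨D2, hBD, hcl⟩ := climb B hB
  have hD2 : 1 ≤ D2 := hB.trans hBD
  set K0 : ℝ := (j + 1) * (2 * D2 + 1) with hK0
  have hj0 : (0 : ℝ) ≤ j := Nat.cast_nonneg j
  have hK01 : 1 ≤ K0 := by
    rw [hK0]
    nlinarith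
  have h2j : (1 : ℝ) ≤ 2 ^ (j + 1) := one_le_pow₀ (by norm_num)
  set D : ℝ := 3 * B ^ 6 * D2 ^ 2 * K0 * 2 ^ (j + 1) with hD
  have hB6 : 1 ≤ B ^ 6 := one_le_pow₀ hB
  have hB5 : 1 ≤ B ^ 5 := one_le_pow₀ hB
  have hB4 : 1 ≤ B ^ 4 := one_le_pow₀ hB
  have hD22 : 1 ≤ D2 ^ 2 := one_le_pow₀ hD2
  have hBp : 0 < B := by linarith
  have hD2p : 0 < D2 := by linarith
  have hK0p : 0 < K0 := by linarith
  -- comparisons of the constants
  have c1 : B ^ 6 * D2 ^ 2 * K0 ≤ D := by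
    rw [hD]
    have : 0 ≤ B ^ 6 * D2 ^ 2 * K0 := by positivity
    nlinarith
  have c2 : 3 * (B ^ 6 * D2 ^ 2) ≤ D := by
    rw [hD]
    have h3 : 0 ≤ B ^ 6 * D2 ^ 2 := by positivity
    have h4 : 1 ≤ K0 * 2 ^ (j + 1) := by nlinarith
    nlinarith
  have c3 : B ≤ B ^ 6 := by
    calc B = B ^ 1 := (pow_one B).symm
      _ ≤ B ^ 6 := pow_le_pow_right₀ hB (by norm_num)
  have c4 : D2 ≤ D2 ^ 2 := by nlinarith
  have c5 : B ^ 6 ≤ B ^ 6 * D2 ^ 2 := le_mul_of_one_le_right (by positivity) hD22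
  have c6 : D2 ^ 2 ≤ B ^ 6 * D2 ^ 2 := le_mul_of_one_le_left (by positivity) hB6
  have c7 : 2 * B + D2 ≤ D := by linarith
  have c8 : B ≤ D := by linarith
  have c9 : D2 ≤ D := by linarith
  have c10 : D2 * B ^ 4 ≤ D := by
    have h3 : D2 * B ^ 4 ≤ D2 ^ 2 * B ^ 6 :=
      mul_le_mul c4 (pow_le_pow_right₀ hB (by norm_num)) (by positivity) (by positivity)
    linarith [mul_comm (D2 ^ 2) (B ^ 6)]
  have c11 : (2 : ℝ) ^ (j + 1) < D := by
    rw [hD]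
    have h3 : 1 ≤ B ^ 6 * D2 ^ 2 * K0 := one_le_mul_of_one_le_of_one_le
      (one_le_mul_of_one_le_of_one_le hB6 hD22) hK01
    nlinarith
  have hD1 : 1 ≤ D := by linarith
  have hDp : 0 < D := by linarith
  refine ⟨D, e * 6, hD1, ?_⟩
  intro n P δ η F0 G0 α β R0 hR hδ hδ1 hη hηP hDP hn hcard
  rw [pow_mul] at hDP ⊢
  set A : ℝ := δ ^ e with hA
  have hA0 : 0 < A := pow_pos hδ e
  have hA1 : A ≤ 1 := pow_le_one₀ hδ.le hδ1
  have hA6 : A ^ 6 ≤ A := by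
    calc A ^ 6 ≤ A ^ 1 := pow_le_pow_of_le_one hA0.le hA1 (by norm_num)
      _ = A := pow_one A
  have hA64 : A ^ 6 ≤ A ^ 4 := pow_le_pow_of_le_one hA0.le hA1 (by norm_num)
  have hA65 : A ^ 6 ≤ A ^ 5 := pow_le_pow_of_le_one hA0.le hA1 (by norm_num)
  have hA61 : A ^ 6 ≤ 1 := pow_le_one₀ hA0.le hA1
  have hP0 : (0 : ℝ) ≤ P := Nat.cast_nonneg P
  have hP : (0 : ℝ) < P := by
    rcases hP0.lt_or_eq with h | h
    · exact h
    · rw [← h, mul_zero] at hDP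
      linarith
  have hDP1 : D ≤ P := hDP.trans (by nlinarith)
  have hP2 : (2 : ℝ) ^ (j + 1) < P := by linarith
  have hP2' : 2 ^ (j + 1) < P := by exact_mod_cast hP2
  obtain ⟨F, F', αj, α', R, hrel, hRc, hFn, S, hS⟩ := hQ n P δ η F0 G0 α β R0 hR hδ hδ1 hη hηP
    (by
      have h3 : A ^ 6 * P ≤ A * P := mul_le_mul_of_nonneg_right hA6 hP0
      linarith) hn hcard
  have hn' : (1 : ℝ) ≤ n := by exact_mod_cast hn
  have hAB : 0 < A / B := by positivity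
  have hAB1 : A / B ≤ 1 := by
    rw [div_le_one hBp]
    linarith
  have hPj : (2 : ℝ) ^ j ≤ (P : ℝ) ^ j := by
    apply pow_le_pow_left₀ (by norm_num)
    have h3 : (2 : ℝ) ^ 1 ≤ 2 ^ (j + 1) := pow_le_pow_right₀ (by norm_num) (by omega)
    linarith
  have hPjp : (0 : ℝ) < (P : ℝ) ^ j := by positivity
  obtain ⟨F2, α2, R2, hrel2, hF2, hRM⟩ := hcl n P (A / B) (2 ^ j * η * P / (P : ℝ) ^ j) F F' αj α' R hrel
    hAB hAB1 (by positivity)
    (by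
      have h3 : 100 * (2 ^ j * η * P / (P : ℝ) ^ j) * (P : ℝ) ^ 2 =
          (100 * η * (P : ℝ) ^ 3) * (2 ^ j / (P : ℝ) ^ j) := by
        field_simp
      rw [h3]
      have h4 : (2 : ℝ) ^ j / (P : ℝ) ^ j ≤ 1 := (div_le_one hPjp).2 hPj
      have h5 : 0 ≤ (2 : ℝ) ^ j / (P : ℝ) ^ j := by positivity
      calc (100 * η * (P : ℝ) ^ 3) * (2 ^ j / (P : ℝ) ^ j) ≤ 1 * 1 :=
            mul_le_mul hηP h4 h5 (by norm_num)
        _ = 1 := one_mul 1)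
    (by
      rw [div_pow, div_mul_eq_mul_div, le_div_iff₀ (by positivity)]
      have h3 : A ^ 6 * P ≤ A ^ 4 * P := mul_le_mul_of_nonneg_right hA64 hP0
      linarith) hn hRc
  have he : 2 * (2 ^ j * η * P / (P : ℝ) ^ j) / P = 2 ^ (j + 1) * η * P / (P : ℝ) ^ (j + 1) := by
    rw [pow_succ, pow_succ]
    field_simp
  have hm0 : 0 ≤ A / B * (P : ℝ) ^ j := by positivity
  have hτ : (2 * (P : ℝ)) ^ j * (2 * (2 ^ j * η * P / (P : ℝ) ^ j) / P) + 4 ^ j * η ≤ 4 ^ (j + 1) * η := by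
    have h3 : (2 * (P : ℝ)) ^ j * (2 * (2 ^ j * η * P / (P : ℝ) ^ j) / P) = 2 * ((2 : ℝ) ^ j * 2 ^ j) * η := by
      rw [mul_pow]
      field_simp
    have h4 : ((2 : ℝ) ^ j * 2 ^ j) = 4 ^ j := by
      rw [← mul_pow]
      norm_num
    rw [h3, h4, pow_succ]
    have h5 : 0 ≤ (4 : ℝ) ^ j * η := by positivity
    linarith
  -- the descendants
  have hdesc : ∀ M : ℕ, ∃ S' : Finset (ℕ × ℕ), M ∈ F2 →
      Desc P (j + 1) D (4 ^ (j + 1) * η) F0 α M (α2 M) S' ∧ A ^ 6 / D * (P : ℝ) ^ (j + 1) ≤ S'.card := by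
    intro M
    by_cases hM : M ∈ F2
    · have hη' : 0 ≤ 2 * (2 ^ j * η * P / (P : ℝ) ^ j) / P := by positivity
      obtain ⟨S', hS', hc⟩ := chain_step P j D2 B (4 ^ j * η) (2 * (2 ^ j * η * P / (P : ℝ) ^ j) / P)
        (A / B * (P : ℝ) ^ j) (α2 M) hD2 F0 α M αj S (Tower_T R2 M) hP2'
        (by
          intro t ht
          have h3 := Tower_memT ht
          have h4 := hrel2.prime _ h3
          have h5 := hS t.2 (hrel2.memF' _ h3)
          exact ⟨h4.1, h4.2.1, h4.2.2, hrel2.pos _ h3, hrel2.freq _ h3, h5.1, h5.2⟩) hη' hm0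
      refine ⟨S', fun _ => ⟨Tower_descmono hS' c7 hτ, ?_⟩⟩
      refine le_trans ?_ hc
      have h6 := hRM M hM
      rw [← Tower_cardT] at h6
      have h7 : (A / B) ^ 4 / D2 * P * (A / B * (P : ℝ) ^ j) / K0 ≤
          ((Tower_T R2 M).card : ℝ) * (A / B * (P : ℝ) ^ j) / ((j + 1) * (2 * D2 + 1)) := by
        rw [← hK0]
        exact div_le_div_of_nonneg_right (mul_le_mul_of_nonneg_right h6 hm0) hK0p.le
      refine le_trans ?_ h7
      have h8 : (A / B) ^ 4 / D2 * P * (A / B * (P : ℝ) ^ j) / K0 =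
          A ^ 5 / (B ^ 5 * D2 * K0) * (P : ℝ) ^ (j + 1) := by
        rw [pow_succ (P : ℝ) j]
        field_simp
      rw [h8]
      refine mul_le_mul_of_nonneg_right ?_ (by positivity)
      have h9 : B ^ 5 * D2 * K0 ≤ D := by
        refine le_trans ?_ c1
        refine mul_le_mul_of_nonneg_right ?_ hK0p.le
        exact mul_le_mul (pow_le_pow_right₀ hB (by norm_num)) c4 hD2p.le (by positivity)
      exact div_le_div₀ (by positivity) hA65 (by positivity) h9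
    · exact ⟨∅, fun h => absurd h hM⟩
  choose S2 hS2 using hdesc
  refine ⟨F2, F, α2, αj, R2, he ▸ Tower_relmono hrel2 hD2 c9, ?_, ?_, S2, hS2⟩
  · have h2 := Tower_sum hrel2.memF (a := (A / B) ^ 2 / D2 * n) (b := (A / B) ^ 4 / D2 * P)
      (by positivity) hF2 hRM
    have h3 : (A / B) ^ 2 / D2 * n * ((A / B) ^ 4 / D2 * P) = A ^ 6 / (B ^ 6 * D2 ^ 2) * n * P := by
      field_simp
    rw [h3] at h2
    refine le_trans ?_ h2
    refine mul_le_mul_of_nonneg_right (mul_le_mul_of_nonneg_right ?_ (by linarith)) hP0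
    refine div_le_div_of_nonneg_left (by positivity) (by positivity) ?_
    linarith [show 0 ≤ B ^ 6 * D2 ^ 2 by positivity]
  · rw [← Finset.card_pos]
    have h2 : (0 : ℝ) < F2.card := lt_of_lt_of_le (by positivity) hF2
    exact_mod_cast h2

private theorem Tower_all (C : ℝ) (hC : 1 ≤ C) (J : ℕ) (hJ : 1 ≤ J) : Tower_Q C J := by
  induction J, hJ using Nat.le_induction with
  | base => exact Tower_base C hC
  | succ j _ ih => exact Tower_step C j ih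

theorem tower (C : ℝ) (hC : 1 ≤ C) (J : ℕ) (hJ : 1 ≤ J) : ∃ (D : ℝ) (e : ℕ), 1 ≤ D ∧ ∀ (n P : ℕ) (δ η : ℝ)
    (F0 G0 : Finset ℕ) (α β : ℕ → ℝ) (R0 : Finset (ℕ × ℕ × ℕ)), Rel C n P (η * P) F0 G0 α β R0 → 0 < δ → δ ≤ 1 →
    0 ≤ η → 100 * η * (P : ℝ) ^ 3 ≤ 1 → D ≤ δ ^ e * P → 1 ≤ n → δ * n * P ≤ R0.card →
    ∃ (K : ℕ) (w : ℝ) (S : Finset (ℕ × ℕ)), (n : ℝ) / D ≤ K ∧ (K : ℝ) ≤ D * n ∧
      Desc P J D (D * η) F0 α K w S ∧ δ ^ e / D * (P : ℝ) ^ J ≤ S.card := by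
  obtain ⟨D, e, hD, hQ⟩ := Tower_all C hC J hJ
  have hDp : 0 < D := by linarith
  have h4 : (0 : ℝ) < 4 ^ J := by positivity
  refine ⟨D + 4 ^ J, e, by linarith, ?_⟩
  intro n P δ η F0 G0 α β R0 hR hδ hδ1 hη hηP hDP hn hcard
  obtain ⟨F, F', αj, α', R, hrel, -, ⟨K, hK⟩, S, hS⟩ := hQ n P δ η F0 G0 α β R0 hR hδ hδ1 hη hηP
    (by linarith) hn hcard
  have hr := (Tower_relmono hrel hD (by linarith : D ≤ D + 4 ^ J)).rngF K hK
  obtain ⟨h1, h2⟩ := hS K hK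
  refine ⟨K, αj K, S K, hr.1, hr.2, Tower_descmono h1 (by linarith) ?_, ?_⟩
  · exact mul_le_mul_of_nonneg_right (by linarith) hη
  · refine le_trans ?_ h2
    refine mul_le_mul_of_nonneg_right ?_ (by positivity)
    exact div_le_div_of_nonneg_left (by positivity) hDp (by linarith)

end Pool.Agent.H53.MID

end
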