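import Mathlib

/-! The parts of this file: H91.PK.Defs, H76.EHB.Defs, H35.W.Defs. -/

section

/-!
PROJECT PK (MP_967f73_nt): every even N >= 4 is a prime plus a number with at most 17 prime factors.
Common definitions.
-/

set_option autoImplicit false

namespace Pool.Agent.H91.PK

open Finset

/-- The weight `t (1-t)^2` on `[0,1]`. -/
noncomputable def om (t : ℝ) : ℝ := if 0 ≤ t ∧ t ≤ 1 then t * (1 - t) ^ 2 else 0

/-- The primitive characters modulo `r`. -/
noncomputable def Pch (r : ℕ) : Finset (DirichletCharacter ℂ r) :=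
  open Classical in univ.filter (fun χ => χ.IsPrimitive)

/-- The non-principal characters modulo `d`. -/
noncomputable def Nch (d : ℕ) : Finset (DirichletCharacter ℂ d) :=
  open Classical in univ.filter (fun χ => χ ≠ 1)

theorem mem_Nch {d : ℕ} {χ : DirichletCharacter ℂ d} : χ ∈ Nch d ↔ χ ≠ 1 := by
  unfold Nch; simp

/-- `e(t) = exp(2 π i t)` -/
noncomputable def ee (t : ℝ) : ℂ := Complex.exp (2 * Real.pi * t * Complex.I)

/-- Vaughan coefficient of type I. -/
noncomputable def nuV (U V a : ℕ) : ℝ :=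
  ∑ d ∈ a.divisors.filter (fun d => d ≤ V ∧ a / d ≤ U),
    (ArithmeticFunction.moebius d : ℝ) * ArithmeticFunction.vonMangoldt (a / d)

/-- Vaughan coefficient of type II. -/
noncomputable def cV (V n : ℕ) : ℝ :=
  ∑ d ∈ n.divisors.filter (fun d => V < d), (ArithmeticFunction.moebius d : ℝ)

/-- Fourier kernel of the weight. -/
noncomputable def KK (β t : ℝ) : ℂ :=
  2 / (((β : ℂ) + 1 + t * Complex.I) * ((β : ℂ) + 2 + t * Complex.I) * ((β : ℂ) + 3 + t * Complex.I))

end Pool.Agent.H91.PK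

end

section

/-!
# PROJECT EHB (MP_a78e8f_nt): common definitions

The exponential sum `FF f N θ = ∑_{n ≤ N} f(n) e(n θ)`, `S2 f N = ∑_{n ≤ N} f(n)^2`, the set `ks K` of the
integers `k ≠ 0` with `|k| ≤ K`, the Gaussian weight `wt A u = exp(-π (u/A)^2)`.
-/

set_option autoImplicit false

namespace Pool.Agent.H76.EHB

open Finset MeasureTheory
open Pool.Agent.H91.PK (ee)

/-- `∑_{n ≤ N} f(n) e(n θ)` -/
noncomputable def FF (f : ℕ → ℝ) (N : ℕ) (θ : ℝ) : ℂ := ∑ n ∈ Icc 1 N, (f n : ℂ) * ee (n * θ)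

/-- `∑_{n ≤ N} f(n)^2` -/
noncomputable def S2 (f : ℕ → ℝ) (N : ℕ) : ℝ := ∑ n ∈ Icc 1 N, f n ^ 2

end Pool.Agent.H76.EHB

end

section

/-!
# PROJECT W (MP_a78e8f_nt): common definitions

Elliott-Halberstam with the saving `(log x)^(-1/2+o(1))` for almost all residues `a` in every interval of
length `x^ε`.  Notation: `L = log x`, `f = hR R` with `R = ⌊L^20⌋`, `ee(t) = exp(2 π i t)`.
`FF f N θ = ∑_{n ≤ N} f(n) ee(n θ)`, `S2 f N = ∑_{n ≤ N} f(n)^2`, `ZZ S t = ∑_{k ∈ S} k^{-1/2 + i t}`,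
`Mel g t = ∫_0^∞ g(θ) θ^{-1/2 - i t} dθ`, `II S g = ∫_0^∞ |∑_{k ∈ S} g(k y)|^2 dy` are those of EHB.
-/

set_option autoImplicit false

namespace Pool.Agent.H35.W

open Finset MeasureTheory
open Pool.Agent.H91.PK (ee)
open Pool.Agent.H76.EHB

/-- the primes of the block `(P, 2P]` -/
def pb (P : ℕ) : Finset ℕ := (Ioc P (2 * P)).filter Nat.Prime

/-- the primes of the block `(P, 2P]` in the class `l` modulo `d` -/
def pbl (P d : ℕ) (l : ℤ) : Finset ℕ := (pb P).filter (fun p => (d : ℤ) ∣ (p : ℤ) - l)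

/-- a finite set of natural numbers as a set of integers -/
def zs (S : Finset ℕ) : Finset ℤ := S.image (fun k : ℕ => (k : ℤ))

/-- `k` has no prime factor in the blocks `pb (P 2^i)`, `i < J`, i.e. in `(P, P 2^J]` -/
def Rk (P J k : ℕ) : Prop := ∀ i, i < J → ∀ p ∈ pb (P * 2 ^ i), ¬ p ∣ k

open Classical in
/-- the `k ≤ y` without prime factor in `(P, P 2^J]` -/
noncomputable def rgh (P J y : ℕ) : Finset ℕ := (Icc 1 y).filter (fun k => Rk P J k)

/-- the correlation of `g` with `ee(n α + t log (n - a0))` on `(M, y]` -/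
noncomputable def cor (g : ℕ → ℝ) (a0 M : ℕ) (α t : ℝ) (y : ℕ) : ℂ :=
  ∑ n ∈ Ioc M y, (g n : ℂ) * ee (n * α + t * Real.log ((n : ℝ) - a0))

/-- the small denominator integral of a finite set `T` of integers -/
noncomputable def JJT (f : ℕ → ℝ) (N : ℕ) (T : Finset ℤ) (α a Y : ℝ) : ℝ :=
  ∫ y in Set.Icc (-Y) Y, ‖∑ k ∈ T, FF f N (α + k * y) * ee (-(a * k * y))‖ ^ 2

/-- the exponentially damped exponential sum -/
noncomputable def ge (f : ℕ → ℝ) (N : ℕ) (α a Θ s θ : ℝ) : ℂ :=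
  if 0 < θ then FF f N (α + s * θ) * ee (-(a * s * θ)) * ((Real.exp (-(θ / Θ)) : ℝ) : ℂ) else 0

end Pool.Agent.H35.W

end
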