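import Pool.Agent.H43.PM.H91.EHA.Defs
import Pool.Agent.H43.PM.M01

/-! The parts of this file: H53.MID.Defs, H53.MID.FpL1. -/

section

/-!
# MID Defs: analytic definitions

`ee t = exp(2 π i t)` (`Pool.Agent.H91.PK.ee`; `LSa_ee_add`, `LSa_norm_ee`, `LSa_conj_ee` in `H91/PK/LSa.lean`), `pb P` = primes in
`(P, 2P]`, `pbl P d l` = those in the class `l` mod `d` (`H35/W/Defs.lean`), `Lam`, `lamR`, `hR = Lam - lamR` (`H91/EHA/Defs.lean`).

* `Fp f P m = ∑_{p ∈ pb P, p ∣ m} f(m/p)`;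
* `Bs g H i α = ∑_{m ∈ [iH, (i+1)H)} g(m) ee(-m α)` (blocks);
* `SqB f w0 X L`: the second moment of `f` on every interval of length `w ≥ w0` inside `[0, X)` is at most `w L^4`;
* `Dw c X θ u = ∑_{m ≤ X, u < log m ≤ u + θ} c m` (multiplicative windows), `Cs c X t = ∑_{m ≤ X} c m ee(-t log m)`;
* `cut K1 K2 f k = f k` for `K1 < k ≤ K2`, `0` otherwise;
* `cc f P a T m = Fp f P m · ee(-m a) · ee(-T log m)`.
-/

set_option autoImplicit false

namespace Pool.Agent.H53.MID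

open Finset MeasureTheory
open Pool.Agent.H91.PK (ee)
open Pool.Agent.H91.EHA (Lam hR lamR ramS)
open Pool.Agent.H35.W (pb pbl)

/-- `∑_{p ∈ pb P, p ∣ m} f(m/p)` -/
noncomputable def Fp (f : ℕ → ℝ) (P m : ℕ) : ℝ := ∑ p ∈ (pb P).filter (fun p => p ∣ m), f (m / p)

/-- the exponential sum over the block `[iH, (i+1)H)` -/
noncomputable def Bs (g : ℕ → ℝ) (H i : ℕ) (α : ℝ) : ℂ :=
  ∑ m ∈ Ico (i * H) ((i + 1) * H), (g m : ℂ) * ee (-(m * α))

/-- second moment bound on short intervals -/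
def SqB (f : ℕ → ℝ) (w0 X : ℕ) (L : ℝ) : Prop :=
  ∀ u w : ℕ, w0 ≤ w → u + w ≤ X → ∑ k ∈ Ico u (u + w), f k ^ 2 ≤ w * L ^ 4

/-- the sum over the multiplicative window `(e^u, e^(u+θ)]` -/
noncomputable def Dw (c : ℕ → ℂ) (X : ℕ) (θ u : ℝ) : ℂ :=
  ∑ m ∈ (Icc 1 X).filter (fun m : ℕ => u < Real.log m ∧ Real.log m ≤ u + θ), c m

/-- the Dirichlet polynomial -/
noncomputable def Cs (c : ℕ → ℂ) (X : ℕ) (t : ℝ) : ℂ := ∑ m ∈ Icc 1 X, c m * ee (-(t * Real.log m))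

/-- restriction to `(K1, K2]` -/
noncomputable def cut (K1 K2 : ℕ) (f : ℕ → ℝ) (k : ℕ) : ℝ := if k ∈ Ioc K1 K2 then f k else 0

/-- the twisted coefficients -/
noncomputable def cc (f : ℕ → ℝ) (P : ℕ) (a T : ℝ) (m : ℕ) : ℂ :=
  (Fp f P m : ℂ) * ee (-(m * a)) * ee (-(T * Real.log m))

/-- Vinogradov-Korobov (`Pool.Agent.H97.VK.vk_class`), used as a hypothesis -/
def VKp : Prop := ∀ (K B : ℕ) (e0 : ℝ), 0 < e0 → ∃ K' x0 : ℕ, ∀ x : ℕ, x0 ≤ x →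
  ∀ (d u z : ℕ) (t : ℝ), 1 ≤ d → (d : ℝ) ≤ Real.log x ^ B → (x : ℝ) ^ e0 ≤ z → z ≤ x ^ 2 →
    Real.log x ^ K' ≤ |t| → |t| ≤ (x : ℝ) ^ (2 : ℕ) →
    ‖∑ n ∈ (Icc 1 z).filter (fun n => n % d = u % d), ((Lam n : ℝ) : ℂ) * ee (t * Real.log n)‖
      ≤ z / Real.log x ^ K

/-- Siegel-Walfisz for `hR R` with independent parameters, used as a hypothesis -/
def SWp : Prop := ∀ (B m k : ℕ) (e0 : ℝ), 0 < e0 → ∃ N0 : ℕ, ∀ N : ℕ, N0 ≤ N → ∀ (R c b K1 K2 : ℕ) (t : ℝ),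
  (R : ℝ) ≤ Real.log N ^ B → 1 ≤ c → c ≤ R → Nat.Coprime b c → (N : ℝ) ^ e0 ≤ K2 → K2 ≤ N → |t| ≤ Real.log N ^ m →
    ‖∑ n ∈ Ioc K1 K2, ((hR R n : ℝ) : ℂ) * ee (-((n : ℝ) * b / c)) * ee (-(t * Real.log n))‖
      ≤ K2 / Real.log N ^ k

end Pool.Agent.H53.MID

end

section

/-!
# MID FpL1: `L¹` bound for `Fp f P` on intervals

Proof.  `∑_{m ∈ [u,u+v)} |Fp f P m| ≤ ∑_{p ∈ pb P} ∑_{k : u ≤ p k < u+v} |f k|`; the `k` are in an interval `[a, a + ℓ)` with `a = ⌈u/p⌉`,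
`ℓ = v/P + 1 + w0` (natural division; `≥ ` the number of the `k`, `≥ w0`; `a + ℓ ≤ u + v + w0 + 2 ≤ X`), so Cauchy-Schwarz and `SqB` give `≤ ℓ L^2` for every `p`; `|pb P| ≤ P`.
-/

set_option autoImplicit false

namespace Pool.Agent.H53.MID

open Finset
open Pool.Agent.H35.W (pb)

private theorem FpL1_card (P : ℕ) : (pb P).card ≤ P := by
  have h1 : (pb P).card ≤ (Ioc P (2 * P)).card := card_filter_le _ _
  rw [Nat.card_Ioc] at h1
  omega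

private theorem FpL1_one (f : ℕ → ℝ) (P w0 X u v p : ℕ) (L : ℝ) (hP : 1 ≤ P)
    (hp : P < p) (hf : SqB f w0 X L) (hX : u + v + w0 + 2 ≤ X) :
    ∑ m ∈ (Ico u (u + v)).filter (fun m => p ∣ m), |f (m / p)| ≤
      ((v : ℝ) / P + 1 + w0) * L ^ 2 := by
  have hp0 : 0 < p := by omega
  obtain ⟨a, ha⟩ : ∃ a, a = (u + p - 1) / p := ⟨_, rfl⟩
  obtain ⟨l, hl⟩ : ∃ l, l = v / P + 1 + w0 := ⟨_, rfl⟩
  have ha1 : u ≤ a * p := by
    rw [ha]
    have := Nat.lt_div_mul_add (a := u + p - 1) hp0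
    omega
  have ha2 : a ≤ u := by
    rw [ha]
    rcases Nat.eq_zero_or_pos u with hu | hu
    · subst hu
      rw [Nat.div_eq_of_lt (by omega)]
    · rw [Nat.div_le_iff_le_mul_add_pred hp0]
      have : u ≤ p * u := Nat.le_mul_of_pos_left _ hp0
      omega
  obtain ⟨q, hq⟩ : ∃ q, q = v / P := ⟨_, rfl⟩
  have hlv : q ≤ v := by
    rw [hq]
    exact Nat.div_le_self _ _
  rw [← hq] at hl
  have hsq := hf a l (by omega) (by omega)
  have hinj : Set.InjOn (fun m => m / p) ((Ico u (u + v)).filter (fun m => p ∣ m)) := by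
    intro m hm m' hm' h
    rw [mem_coe, mem_filter] at hm hm'
    have h1 : m / p = m' / p := h
    rw [← Nat.div_mul_cancel hm.2, ← Nat.div_mul_cancel hm'.2, h1]
  have e1 : ∑ m ∈ (Ico u (u + v)).filter (fun m => p ∣ m), |f (m / p)| =
      ∑ k ∈ ((Ico u (u + v)).filter (fun m => p ∣ m)).image (fun m => m / p), |f k| :=
    (sum_image (f := fun k => |f k|) hinj).symm
  have e2 : ∑ k ∈ ((Ico u (u + v)).filter (fun m => p ∣ m)).image (fun m => m / p), |f k| ≤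
      ∑ k ∈ Ico a (a + l), |f k| := by
    refine sum_le_sum_of_subset_of_nonneg ?_ fun k _ _ => abs_nonneg _
    intro k hk
    rw [mem_image] at hk
    obtain ⟨m, hm, rfl⟩ := hk
    rw [mem_filter, mem_Ico] at hm
    obtain ⟨⟨hm1, hm2⟩, k, rfl⟩ := hm
    rw [Nat.mul_div_cancel_left _ hp0, mem_Ico]
    have hak : a ≤ k := by
      rw [ha, Nat.div_le_iff_le_mul_add_pred hp0]
      have : p * k = k * p := mul_comm _ _
      omega
    refine ⟨hak, ?_⟩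
    obtain ⟨t, rfl⟩ := Nat.exists_eq_add_of_le hak
    have h3 : p * t < v := by
      have : p * (a + t) = a * p + p * t := by ring
      omega
    have h4 : t ≤ q := by
      rw [hq, Nat.le_div_iff_mul_le (by omega)]
      have : t * P ≤ p * t := by
        rw [mul_comm]
        exact Nat.mul_le_mul_right _ hp.le
      omega
    omega
  have hcs : (∑ k ∈ Ico a (a + l), |f k|) ^ 2 ≤ (l * L ^ 2) ^ 2 := by
    have h1 := sq_sum_le_card_mul_sum_sq (s := Ico a (a + l)) (f := fun k => |f k|)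
    have h2 : ((Ico a (a + l)).card : ℝ) = l := by
      rw [Nat.card_Ico]
      simp
    have h3 : ∑ k ∈ Ico a (a + l), |f k| ^ 2 = ∑ k ∈ Ico a (a + l), f k ^ 2 :=
      sum_congr rfl fun k _ => sq_abs _
    rw [h2, h3] at h1
    calc (∑ k ∈ Ico a (a + l), |f k|) ^ 2 ≤ l * ∑ k ∈ Ico a (a + l), f k ^ 2 := h1
      _ ≤ l * (l * L ^ 4) := mul_le_mul_of_nonneg_left hsq (Nat.cast_nonneg _)
      _ = (l * L ^ 2) ^ 2 := by ring
  have hc2 : ∑ k ∈ Ico a (a + l), |f k| ≤ l * L ^ 2 :=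
    le_of_sq_le_sq hcs (by positivity)
  have hlr : (l : ℝ) ≤ (v : ℝ) / P + 1 + w0 := by
    rw [hl, hq]
    push_cast
    have : ((v / P : ℕ) : ℝ) ≤ (v : ℝ) / P := Nat.cast_div_le
    linarith
  rw [e1]
  exact e2.trans (hc2.trans (mul_le_mul_of_nonneg_right hlr (by positivity)))

theorem fp_l1 (f : ℕ → ℝ) (P w0 X u v : ℕ) (L : ℝ) (hL : 0 ≤ L) (hP : 1 ≤ P) (hf : SqB f w0 X L)
    (hX : u + v + w0 + 2 ≤ X) :
    ∑ m ∈ Ico u (u + v), |Fp f P m| ≤ P * ((v : ℝ) / P + 1 + w0) * L ^ 2 := by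
  have h1 : ∑ m ∈ Ico u (u + v), |Fp f P m| ≤
      ∑ m ∈ Ico u (u + v), ∑ p ∈ pb P, if p ∣ m then |f (m / p)| else 0 := by
    refine sum_le_sum fun m _ => ?_
    unfold Fp
    refine (abs_sum_le_sum_abs _ _).trans (le_of_eq ?_)
    rw [sum_filter]
  rw [sum_comm] at h1
  refine h1.trans ?_
  have h2 : ∀ p ∈ pb P, (∑ m ∈ Ico u (u + v), if p ∣ m then |f (m / p)| else 0) ≤
      ((v : ℝ) / P + 1 + w0) * L ^ 2 := by
    intro p hp
    rw [← sum_filter]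
    unfold Pool.Agent.H35.W.pb at hp
    rw [mem_filter, mem_Ioc] at hp
    exact FpL1_one f P w0 X u v p L hP hp.1.1 hf hX
  refine (sum_le_sum h2).trans ?_
  rw [sum_const, nsmul_eq_mul]
  have h3 : ((pb P).card : ℝ) ≤ P := by exact_mod_cast FpL1_card P
  have h4 : 0 ≤ ((v : ℝ) / P + 1 + w0) * L ^ 2 := by positivity
  calc ((pb P).card : ℝ) * (((v : ℝ) / P + 1 + w0) * L ^ 2)
      ≤ P * (((v : ℝ) / P + 1 + w0) * L ^ 2) := mul_le_mul_of_nonneg_right h3 h4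
    _ = P * ((v : ℝ) / P + 1 + w0) * L ^ 2 := by ring

end Pool.Agent.H53.MID

end
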