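import Pool.Agent.H43.PM.M07

/-! The parts of this file: H76.EHB.HRm, H53.MID.VkPr, H53.MID.HSq, H53.MID.Msc, H53.MID.Ms. -/

section

/-!
# EHB HRm: mean square of `hR`

`lamR_sq`: dual large sieve: put `lam(c,b) = μ(c)/φ(c)`, `g(n) = lamR R n`.  `∑_n |g|^2 = ∑_{c,b} lam(c,b) ∑_n g(n) e(n b/c)`
`≤ (∑ |lam|^2)^{1/2} (∑_{c,b} |∑_n g(n) e(nb/c)|^2)^{1/2} ≤ (∑_{c ≤ R} 1/φ(c))^{1/2} (5 M ∑ g^2)^{1/2}` (`Pool.Agent.H92.EH2.farey_ls`, `M = max N (R^2)`), so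
`∑ g^2 ≤ 5 M ∑_{c≤R} 1/φ(c)`.
`hR_sq`: `hR^2 ≤ 2 Lam^2 + 2 lamR^2`, `∑ Lam^2 ≤ log x * ψ(x) ≤ 6 x log x` (`Chebyshev.psi_le_const_mul_self`),
`1/φ(c) ≤ (Nat.log 2 c + 1)/c` (`le_totient_mul`, `card_primeFactors_le` in `H92/EH/Totient.lean`), `∑_{c ≤ R} 1/φ(c) ≤ (2 log R + 2)(1 + log R) ≤ C log^2 x`.
-/

set_option autoImplicit false

namespace Pool.Agent.H76.EHB

open Finset
open Pool.Agent.H91.PK (ee)
open Pool.Agent.H92.EH (red)
open Pool.Agent.H91.EHA (Lam lamR hR ramS)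

theorem HRm_e (t : ℝ) : Pool.Agent.H92.EH.e t = ee t := by
  unfold Pool.Agent.H92.EH.e ee
  congr 1
  push_cast
  ring

theorem lamR_sq (R N M : ℕ) (hM : 0 < M) (hR : R ^ 2 ≤ M) (hN : N ≤ M) :
    ∑ n ∈ Icc 1 N, lamR R n ^ 2 ≤ 5 * M * ∑ c ∈ Icc 1 R, 1 / (c.totient : ℝ) := by
  classical
  set J : Finset (Σ _ : ℕ, ℕ) := (Icc 1 R).sigma (fun r => red r) with hJ
  have hsp : ∀ i ∈ J, ∀ j ∈ J, i ≠ j → ∀ k : ℤ,
      (1 : ℝ) / M ≤ |(i.2 : ℝ) / i.1 - (j.2 : ℝ) / j.1 - k| := by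
    rintro ⟨r, b⟩ hi ⟨r', b'⟩ hj hne k
    rw [hJ, mem_sigma, mem_Icc] at hi hj
    simp only at hi hj
    refine le_trans ?_ (Pool.Agent.H92.EH.farey_spacing (by omega) (by omega) hi.2 hj.2 ?_ k)
    · apply one_div_le_one_div_of_le
      · have h1 : (0 : ℝ) < r := by exact_mod_cast hi.1.1
        have h2 : (0 : ℝ) < r' := by exact_mod_cast hj.1.1
        positivity
      · have : r * r' ≤ M := by
          calc r * r' ≤ R * R := Nat.mul_le_mul hi.1.2 hj.1.2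
            _ = R ^ 2 := by ring
            _ ≤ M := hR
        exact_mod_cast this
    · rintro ⟨rfl, rfl⟩
      exact hne rfl
  set m : ℕ → ℝ := fun c => ((ArithmeticFunction.moebius c : ℤ) : ℝ) / (c.totient : ℝ) with hm
  have h := Pool.Agent.H92.EH.dual_large_sieve J (fun j => (j.2 : ℝ) / j.1)
    (fun j => ((m j.1 : ℝ) : ℂ)) M N hN hM hsp
  have h1 : ∀ n ∈ Icc 1 N, lamR R n ^ 2 =
      ‖∑ j ∈ J, ((m j.1 : ℝ) : ℂ) * Pool.Agent.H92.EH.e (n * ((j.2 : ℝ) / j.1))‖ ^ 2 := by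
    intro n hn
    have h2 := lamR_eq R n (mem_Icc.mp hn).1
    have h3 : ∑ j ∈ J, ((m j.1 : ℝ) : ℂ) * Pool.Agent.H92.EH.e (n * ((j.2 : ℝ) / j.1)) =
        ((lamR R n : ℝ) : ℂ) := by
      rw [h2, hJ, sum_sigma]
      refine sum_congr rfl fun c _ => ?_
      rw [mul_sum]
      refine sum_congr rfl fun b _ => ?_
      rw [HRm_e]
    rw [h3, Complex.norm_real, Real.norm_eq_abs, sq_abs]
  rw [sum_congr rfl h1]
  refine h.trans (mul_le_mul_of_nonneg_left ?_ (by positivity))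
  rw [hJ, sum_sigma]
  refine sum_le_sum fun c hc => ?_
  simp only
  rw [sum_const, Pool.Agent.H92.EH.card_red, nsmul_eq_mul, Complex.norm_real, Real.norm_eq_abs,
    sq_abs]
  have hc1 : 0 < c := (mem_Icc.mp hc).1
  have ht : (0 : ℝ) < c.totient := by exact_mod_cast Nat.totient_pos.mpr hc1
  have hmu : (((ArithmeticFunction.moebius c : ℤ) : ℝ)) ^ 2 ≤ 1 := by
    have h5 := ArithmeticFunction.abs_moebius_le_one (n := c)
    have h6 : |((ArithmeticFunction.moebius c : ℤ) : ℝ)| ≤ 1 := by exact_mod_cast h5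
    rw [← sq_abs]
    exact pow_le_one₀ (abs_nonneg _) h6
  rw [hm]
  simp only
  rw [div_pow, mul_div_assoc', div_le_div_iff₀ (by positivity) ht]
  nlinarith [mul_pos ht ht]

/-- `∑_{n ≤ N} Λ(n)^2 ≤ 6 x log x` -/
theorem HRm_Lam (x N : ℕ) (hx : 1 ≤ x) (hN : N ≤ x) :
    ∑ n ∈ Icc 1 N, Lam n ^ 2 ≤ 6 * x * Real.log x := by
  have hL : 0 ≤ Real.log x := Real.log_natCast_nonneg x
  have h1 : ∀ n ∈ Icc 1 N, Lam n ^ 2 ≤ Real.log x * Lam n := by
    intro n hn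
    rw [mem_Icc] at hn
    have h2 : (0 : ℝ) ≤ Lam n := ArithmeticFunction.vonMangoldt_nonneg
    have h3 : Lam n ≤ Real.log n := ArithmeticFunction.vonMangoldt_le_log
    have h4 : Real.log n ≤ Real.log x :=
      Real.log_le_log (by exact_mod_cast hn.1) (by exact_mod_cast hn.2.trans hN)
    rw [sq]
    exact mul_le_mul_of_nonneg_right (h3.trans h4) h2
  refine (sum_le_sum h1).trans ?_
  rw [← mul_sum]
  have h5 : ∑ n ∈ Icc 1 N, Lam n ≤ Chebyshev.psi x := by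
    rw [Chebyshev.psi, Nat.floor_natCast]
    refine sum_le_sum_of_subset_of_nonneg ?_ fun n _ _ => ArithmeticFunction.vonMangoldt_nonneg
    intro n hn
    rw [mem_Icc] at hn
    rw [mem_Ioc]
    omega
  have h6 : Chebyshev.psi x ≤ (Real.log 4 + 4) * x :=
    Chebyshev.psi_le_const_mul_self (by positivity)
  have h7 : Real.log 4 ≤ 2 := by
    have : Real.log 4 = 2 * Real.log 2 := by
      rw [show (4 : ℝ) = 2 ^ 2 by norm_num, Real.log_pow]
      norm_num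
    rw [this]
    have := Real.log_two_lt_d9
    linarith
  have h8 : (Real.log 4 + 4) * (x : ℝ) ≤ 6 * x :=
    mul_le_mul_of_nonneg_right (by linarith) (by positivity)
  calc Real.log x * ∑ n ∈ Icc 1 N, Lam n ≤ Real.log x * (6 * x) :=
        mul_le_mul_of_nonneg_left (h5.trans (h6.trans h8)) hL
    _ = 6 * x * Real.log x := by ring

/-- `∑_{c ≤ R} 1/φ(c)` -/
theorem HRm_tot (x R : ℕ) (hR : 1 ≤ R) (hRx : R ^ 2 ≤ x) :
    ∑ c ∈ Icc 1 R, 1 / (c.totient : ℝ) ≤ (Real.log x + 1) * (1 + Real.log x) := by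
  have hR' : (1 : ℝ) ≤ R := by exact_mod_cast hR
  have hRlog : 2 * Real.log R ≤ Real.log x := by
    have h1 : Real.log ((R : ℝ) ^ 2) ≤ Real.log x :=
      Real.log_le_log (by positivity) (by exact_mod_cast hRx)
    rw [Real.log_pow] at h1
    push_cast at h1
    exact h1
  have hR0 : 0 ≤ Real.log R := Real.log_natCast_nonneg R
  have hlog2 : (Nat.log 2 R : ℝ) ≤ Real.log x := by
    have h1 : (2 : ℝ) ^ Nat.log 2 R ≤ R := by
      exact_mod_cast Nat.pow_log_le_self 2 (by omega)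
    have h2 : (Nat.log 2 R : ℝ) * Real.log 2 ≤ Real.log R := by
      rw [← Real.log_pow]
      exact Real.log_le_log (by positivity) h1
    have h3 := Real.log_two_gt_d9
    have h4 : (Nat.log 2 R : ℝ) * (1 / 2) ≤ (Nat.log 2 R : ℝ) * Real.log 2 :=
      mul_le_mul_of_nonneg_left (by linarith) (by positivity)
    linarith
  have h1 : ∀ c ∈ Icc 1 R, 1 / (c.totient : ℝ) ≤ (Real.log x + 1) * ((c : ℝ)⁻¹) := by
    intro c hc
    rw [mem_Icc] at hc
    have hc0 : (0 : ℝ) < c := by exact_mod_cast hc.1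
    have ht : (0 : ℝ) < c.totient := by exact_mod_cast Nat.totient_pos.mpr hc.1
    have h2 := Pool.Agent.H92.EH.le_totient_mul c
    have h3 : (c.primeFactors.card : ℝ) ≤ Real.log x := by
      refine le_trans ?_ hlog2
      exact_mod_cast (Pool.Agent.H92.EH.card_primeFactors_le c).trans (Nat.log_mono_right hc.2)
    rw [← div_eq_mul_inv, div_le_div_iff₀ ht hc0, one_mul]
    calc (c : ℝ) ≤ c.totient * (c.primeFactors.card + 1) := h2
      _ ≤ c.totient * (Real.log x + 1) := mul_le_mul_of_nonneg_left (by linarith) ht.le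
      _ = (Real.log x + 1) * c.totient := by ring
  refine (sum_le_sum h1).trans ?_
  rw [← mul_sum]
  refine mul_le_mul_of_nonneg_left ?_ (by linarith [Real.log_natCast_nonneg x])
  have h5 := harmonic_le_one_add_log R
  have h6 : ((harmonic R : ℚ) : ℝ) = ∑ c ∈ Icc 1 R, (c : ℝ)⁻¹ := by
    rw [harmonic_eq_sum_Icc]
    push_cast
    rfl
  rw [← h6]
  linarith

end Pool.Agent.H76.EHB

end

section

/-!
# MID VkPr: prime sums in classes (from the hypothesis `VKp`)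

Proof.  `VKp` with `K + 3`, `B = C' + 1`, `e0 = e1/2` at `x = N^2` (`log x = 2L`, `x^e0 = N^e1`, `|t| ≤ N^3 ≤ x^2`, `log N ^K' ≤ |t|` must imply
`log x ^ K1 ≤ |t|`: take `K' = 2 K1` or `K1 + 1`... for `N` large: `(2L)^K1 ≤ L^(K1+1)`).  Let `S(z) = ∑_{n ≤ z, n ≡ l (d)} Λ(n) ee(∓t log n)`: `‖S(z)‖ ≤ 2P/(2L)^(K+3)` for `P ≤ z ≤ 2P`.
Abel summation with the monotone weight `1/log n` on `(P, 2P]`: `‖∑_{P < n ≤ 2P, n ≡ l} Λ(n)/log n ee(..)‖ ≤ 3 max ‖S‖/log P`.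
The prime powers `n = q^j`, `j ≥ 2` in `(P, 2P]`: at most `√(2P) log(2P)/log 2`-many (`q ≤ √(2P)`), weight `Λ/log ≤ 1`: `≤ P/(2 L^K)` since `P ≥ N^e1`.
For primes `Λ(p)/log p = 1`.
-/

set_option autoImplicit false

namespace Pool.Agent.H53.MID

open Finset
open Pool.Agent.H91.PK (ee)
open Pool.Agent.H91.EHA (Lam)
open Pool.Agent.H35.W (pb)

private theorem VkPr_norm_ee (t : ℝ) : ‖ee t‖ = 1 := by
  unfold ee
  have : (2 * Real.pi * t * Complex.I : ℂ) = ((2 * Real.pi * t : ℝ) : ℂ) * Complex.I := by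
    push_cast
    ring
  rw [this, Complex.norm_exp_ofReal_mul_I]

/-- Abel summation with a decreasing weight -/
private theorem VkPr_abel (a : ℕ → ℂ) (w : ℕ → ℝ) (P Q : ℕ) (hPQ : P + 1 ≤ Q) {M : ℝ}
    (hw : ∀ n, P + 1 ≤ n → n < Q → w (n + 1) ≤ w n) (hw0 : 0 ≤ w Q)
    (hS : ∀ z, P ≤ z → z ≤ Q → ‖∑ n ∈ Icc 1 z, a n‖ ≤ M) :
    ‖∑ n ∈ Ioc P Q, (w n : ℂ) * a n‖ ≤ 2 * M * w (P + 1) := by
  have hT : ∀ z, P ≤ z → z ≤ Q → ‖∑ n ∈ Ioc P z, a n‖ ≤ 2 * M := by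
    intro z hz hz'
    have h1 : ∑ n ∈ Icc 1 z, a n = ∑ n ∈ Icc 1 P, a n + ∑ n ∈ Ioc P z, a n := by
      have e1 : ∀ k : ℕ, Icc 1 k = Ioc 0 k := fun k => by
        ext x
        simp only [mem_Icc, mem_Ioc]
        omega
      rw [e1, e1, Finset.sum_Ioc_consecutive _ (Nat.zero_le _) hz]
    have h2 : ∑ n ∈ Ioc P z, a n = ∑ n ∈ Icc 1 z, a n - ∑ n ∈ Icc 1 P, a n := by
      rw [h1]
      ring
    rw [h2]
    have h3 := hS z hz hz'
    have h4 := hS P le_rfl (by omega)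
    exact (norm_sub_le _ _).trans (by linarith)
  have hM : 0 ≤ 2 * M := (norm_nonneg _).trans (hT P le_rfl (by omega))
  have key : ∀ q, P + 1 ≤ q → q ≤ Q →
      ‖∑ n ∈ Ioc P q, (w n : ℂ) * a n - (w q : ℂ) * ∑ n ∈ Ioc P q, a n‖ ≤
        2 * M * (w (P + 1) - w q) := by
    intro q hq
    induction q, hq using Nat.le_induction with
    | base =>
      intro _
      rw [Nat.Ioc_succ_singleton, Finset.sum_singleton, Finset.sum_singleton, sub_self, norm_zero,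
        sub_self, mul_zero]
    | succ q hq ih =>
      intro hqQ
      have h1 := ih (by omega)
      have e1 : Ioc P (q + 1) = insert (q + 1) (Ioc P q) := by
        ext x
        simp only [mem_Ioc, mem_insert]
        omega
      have e2 : q + 1 ∉ Ioc P q := by simp
      have h2 : ∑ n ∈ Ioc P (q + 1), (w n : ℂ) * a n - (w (q + 1) : ℂ) * ∑ n ∈ Ioc P (q + 1), a n =
          (∑ n ∈ Ioc P q, (w n : ℂ) * a n - (w q : ℂ) * ∑ n ∈ Ioc P q, a n) +
          ((w q - w (q + 1) : ℝ) : ℂ) * ∑ n ∈ Ioc P q, a n := by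
        rw [e1, Finset.sum_insert e2, Finset.sum_insert e2]
        push_cast
        ring
      rw [h2]
      have h3 : 0 ≤ w q - w (q + 1) := sub_nonneg.mpr (hw q hq (by omega))
      have h4 : ‖((w q - w (q + 1) : ℝ) : ℂ) * ∑ n ∈ Ioc P q, a n‖ ≤
          (w q - w (q + 1)) * (2 * M) := by
        rw [norm_mul, Complex.norm_real, Real.norm_eq_abs, abs_of_nonneg h3]
        exact mul_le_mul_of_nonneg_left (hT q (by omega) (by omega)) h3
      exact (norm_add_le _ _).trans (by linarith)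
  have h1 := key Q hPQ le_rfl
  have h2 := hT Q (by omega) le_rfl
  have h3 : ‖(w Q : ℂ) * ∑ n ∈ Ioc P Q, a n‖ ≤ w Q * (2 * M) := by
    rw [norm_mul, Complex.norm_real, Real.norm_eq_abs, abs_of_nonneg hw0]
    exact mul_le_mul_of_nonneg_left h2 hw0
  have h4 : ‖∑ n ∈ Ioc P Q, (w n : ℂ) * a n‖ ≤
      ‖∑ n ∈ Ioc P Q, (w n : ℂ) * a n - (w Q : ℂ) * ∑ n ∈ Ioc P Q, a n‖ +
      ‖(w Q : ℂ) * ∑ n ∈ Ioc P Q, a n‖ := by
    have h5 := norm_add_le (∑ n ∈ Ioc P Q, (w n : ℂ) * a n - (w Q : ℂ) * ∑ n ∈ Ioc P Q, a n)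
      ((w Q : ℂ) * ∑ n ∈ Ioc P Q, a n)
    rwa [sub_add_cancel] at h5
  linarith

/-- from von Mangoldt sums to prime sums -/
private theorem VkPr_primes (P d l : ℕ) (hP : 3 ≤ P) (t M : ℝ)
    (hS : ∀ z, P ≤ z → z ≤ 2 * P → ‖∑ n ∈ (Icc 1 z).filter (fun n => n % d = l % d),
      ((Lam n : ℝ) : ℂ) * ee (-(t * Real.log n))‖ ≤ M) :
    ‖∑ p ∈ (pb P).filter (fun p => p % d = l % d), ee (-(t * Real.log p))‖ ≤
      2 * M + 2 * Real.sqrt (2 * P) * Real.log (2 * P) := by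
  classical
  set a : ℕ → ℂ := fun n => if n % d = l % d then ((Lam n : ℝ) : ℂ) * ee (-(t * Real.log n)) else 0
    with ha
  set w : ℕ → ℝ := fun n => 1 / Real.log n with hw
  have hlog1 : ∀ n : ℕ, P + 1 ≤ n → 1 ≤ Real.log n := by
    intro n hn
    have h1 : Real.exp 1 ≤ (n : ℝ) := by
      have h2 : (3 : ℝ) ≤ n := by exact_mod_cast (by omega : 3 ≤ n)
      linarith [Real.exp_one_lt_d9]
    have h3 := Real.log_le_log (Real.exp_pos 1) h1
    rwa [Real.log_exp] at h3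
  have hM : 0 ≤ M := (norm_nonneg _).trans (hS P le_rfl (by omega))
  have hA := VkPr_abel a w P (2 * P) (by omega) (M := M)
    (fun n hn _ => by
      simp only [hw]
      apply one_div_le_one_div_of_le
      · linarith [hlog1 n hn]
      · apply Real.log_le_log
        · exact_mod_cast (by omega : 0 < n)
        · exact_mod_cast Nat.le_succ n)
    (by
      simp only [hw]
      have := hlog1 (2 * P) (by omega)
      positivity)
    (fun z hz hz' => by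
      have h1 := hS z hz hz'
      rw [Finset.sum_filter] at h1
      exact h1)
  have hwP : w (P + 1) ≤ 1 := by
    simp only [hw]
    rw [div_le_one (by linarith [hlog1 (P + 1) le_rfl])]
    exact hlog1 (P + 1) le_rfl
  have hA2 : ‖∑ n ∈ Ioc P (2 * P), (w n : ℂ) * a n‖ ≤ 2 * M := by
    refine hA.trans ?_
    have := mul_le_mul_of_nonneg_left hwP (show 0 ≤ 2 * M by linarith)
    linarith
  -- split into primes and non-primes
  have hsplit : ∑ n ∈ Ioc P (2 * P), (w n : ℂ) * a n =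
      ∑ p ∈ (pb P).filter (fun p => p % d = l % d), ee (-(t * Real.log p)) +
      ∑ n ∈ (Ioc P (2 * P)).filter (fun n => ¬ n.Prime), (w n : ℂ) * a n := by
    rw [← Finset.sum_filter_add_sum_filter_not (Ioc P (2 * P)) Nat.Prime]
    congr 1
    rw [Finset.sum_filter (s := pb P)]
    apply Finset.sum_congr rfl
    intro p hp
    rw [Finset.mem_filter, mem_Ioc] at hp
    simp only [ha, hw]
    by_cases h1 : p % d = l % d
    · rw [if_pos h1, if_pos h1]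
      have h2 : Lam p = Real.log p := by
        unfold Lam
        exact ArithmeticFunction.vonMangoldt_apply_prime hp.2
      have h3 := hlog1 p (by omega)
      have h4 : Real.log p ≠ 0 := by linarith
      rw [h2, ← mul_assoc, ← Complex.ofReal_mul, one_div, inv_mul_cancel₀ h4, Complex.ofReal_one,
        one_mul]
    · rw [if_neg h1, if_neg h1, mul_zero]
  have hnp : ‖∑ n ∈ (Ioc P (2 * P)).filter (fun n => ¬ n.Prime), (w n : ℂ) * a n‖ ≤
      2 * Real.sqrt (2 * P) * Real.log (2 * P) := by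
    have h0 : ∀ n : ℕ, 0 ≤ Lam n := fun n => by
      unfold Lam
      exact ArithmeticFunction.vonMangoldt_nonneg
    have h1 : ‖∑ n ∈ (Ioc P (2 * P)).filter (fun n => ¬ n.Prime), (w n : ℂ) * a n‖ ≤
        ∑ n ∈ (Ioc P (2 * P)).filter (fun n => ¬ n.Prime), Lam n := by
      apply norm_sum_le_of_le
      intro n hn
      rw [Finset.mem_filter, mem_Ioc] at hn
      have h2 := hlog1 n (by omega)
      simp only [ha, hw]
      by_cases h3 : n % d = l % d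
      · rw [if_pos h3, norm_mul, norm_mul, VkPr_norm_ee, mul_one, Complex.norm_real,
          Complex.norm_real, Real.norm_eq_abs, Real.norm_eq_abs, abs_of_nonneg (h0 n),
          abs_of_nonneg (by positivity)]
        have h4 : 1 / Real.log n ≤ 1 := by
          rw [div_le_one (by linarith)]
          exact h2
        have := mul_le_mul_of_nonneg_right h4 (h0 n)
        linarith
      · rw [if_neg h3, mul_zero, norm_zero]
        exact h0 n
    have h2 : ∑ n ∈ (Ioc P (2 * P)).filter (fun n => ¬ n.Prime), Lam n ≤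
        Chebyshev.psi ((2 * P : ℕ) : ℝ) - Chebyshev.theta ((2 * P : ℕ) : ℝ) := by
      rw [Chebyshev.psi_sub_theta_eq_sum_not_prime, Nat.floor_natCast]
      apply Finset.sum_le_sum_of_subset_of_nonneg
      · apply Finset.filter_subset_filter
        intro x hx
        rw [mem_Ioc] at hx ⊢
        omega
      · intro n _ _
        exact h0 n
    have h3 := Chebyshev.psi_sub_theta_le (x := ((2 * P : ℕ) : ℝ)) (by exact_mod_cast (by omega : 1 ≤ 2 * P))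
    push_cast at h2 h3
    linarith
  have hfin : ∑ p ∈ (pb P).filter (fun p => p % d = l % d), ee (-(t * Real.log p)) =
      ∑ n ∈ Ioc P (2 * P), (w n : ℂ) * a n -
      ∑ n ∈ (Ioc P (2 * P)).filter (fun n => ¬ n.Prime), (w n : ℂ) * a n := by
    rw [hsplit]
    ring
  rw [hfin]
  exact (norm_sub_le _ _).trans (by linarith)

theorem vk_pr (hVK : VKp) (K C' : ℕ) (e1 : ℝ) (he1 : 0 < e1) : ∃ K' N0 : ℕ, ∀ N : ℕ, N0 ≤ N →
    ∀ (P d l : ℕ) (t : ℝ), (N : ℝ) ^ e1 ≤ P → P ≤ N → 1 ≤ d → (d : ℝ) ≤ Real.log N ^ C' →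
    Real.log N ^ K' ≤ |t| → |t| ≤ (N : ℝ) ^ 3 →
    ‖∑ p ∈ (pb P).filter (fun p => p % d = l % d), ee (-(t * Real.log p))‖ ≤ P / Real.log N ^ K := by
  obtain ⟨K1, x0, hV⟩ := hVK (K + 1) C' (e1 / 2) (by linarith)
  have hlog : Filter.Tendsto (fun N : ℕ => Real.log N) Filter.atTop Filter.atTop :=
    Real.tendsto_log_atTop.comp tendsto_natCast_atTop_atTop
  have hsmall : ∀ᶠ N : ℕ in Filter.atTop, 12 * Real.log N ^ (K + 1) ≤ (N : ℝ) ^ (e1 / 2) := by
    have h1 := isLittleO_log_rpow_rpow_atTop (s := e1 / 2) ((K + 1 : ℕ) : ℝ) (by linarith)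
    have h2 := (h1.comp_tendsto tendsto_natCast_atTop_atTop).def (c := 1 / 12) (by norm_num)
    filter_upwards [h2, hlog.eventually_ge_atTop 1] with N hN hN1
    simp only [Function.comp_apply] at hN
    rw [Real.rpow_natCast, Real.norm_eq_abs, Real.norm_eq_abs, abs_of_nonneg (by positivity),
      abs_of_nonneg (by positivity)] at hN
    linarith
  have hbig : ∀ᶠ N : ℕ in Filter.atTop, (3 : ℝ) ≤ (N : ℝ) ^ e1 :=
    ((tendsto_rpow_atTop he1).comp tendsto_natCast_atTop_atTop).eventually_ge_atTop 3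
  obtain ⟨N0, hN0⟩ := Filter.eventually_atTop.mp (hsmall.and (hbig.and
    ((hlog.eventually_ge_atTop 4).and ((hlog.eventually_ge_atTop (2 ^ K1)).and
    (Filter.eventually_ge_atTop (max x0 2))))))
  refine ⟨K1 + 1, N0, ?_⟩
  intro N hN P d l t hP1 hP2 hd1 hd2 ht1 ht2
  obtain ⟨h12, h3, hL4, hLK, hNx⟩ := hN0 N hN
  have hN2 : 2 ≤ N := le_trans (le_max_right _ _) hNx
  have hNx0 : x0 ≤ N := le_trans (le_max_left _ _) hNx
  set L : ℝ := Real.log N with hL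
  have hNr : (2 : ℝ) ≤ N := by exact_mod_cast hN2
  have hN0' : (0 : ℝ) < N := by linarith
  have hPr3 : (3 : ℝ) ≤ P := h3.trans hP1
  have hP3 : 3 ≤ P := by exact_mod_cast hPr3
  have hPr0 : (0 : ℝ) < P := by linarith
  have hx : x0 ≤ N ^ 2 := hNx0.trans (Nat.le_self_pow (by norm_num) N)
  have hlogx : Real.log ((N ^ 2 : ℕ) : ℝ) = 2 * L := by
    rw [Nat.cast_pow, Real.log_pow]
    push_cast
    rfl
  have hxe : ((N ^ 2 : ℕ) : ℝ) ^ (e1 / 2) = (N : ℝ) ^ e1 := by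
    rw [Nat.cast_pow, ← Real.rpow_natCast, ← Real.rpow_mul hN0'.le]
    congr 1
    push_cast
    ring
  have hV2 := hV (N ^ 2) hx
  rw [hlogx, hxe] at hV2
  have hpow1 : L ^ C' ≤ (2 * L) ^ C' := pow_le_pow_left₀ (by linarith) (by linarith) C'
  have hpow2 : (2 * L) ^ K1 ≤ |t| := by
    calc (2 * L) ^ K1 = 2 ^ K1 * L ^ K1 := by rw [mul_pow]
      _ ≤ L * L ^ K1 := mul_le_mul_of_nonneg_right hLK (by positivity)
      _ = L ^ (K1 + 1) := by ring
      _ ≤ |t| := ht1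
  have hpow3 : |t| ≤ (((N ^ 2 : ℕ) : ℝ)) ^ (2 : ℕ) := by
    refine ht2.trans ?_
    rw [Nat.cast_pow, ← pow_mul]
    exact pow_le_pow_right₀ (by linarith) (by norm_num)
  have hS : ∀ z, P ≤ z → z ≤ 2 * P → ‖∑ n ∈ (Icc 1 z).filter (fun n => n % d = l % d),
      ((Lam n : ℝ) : ℂ) * ee (-(t * Real.log n))‖ ≤ 2 * P / (2 * L) ^ (K + 1) := by
    intro z hz hz'
    have hzr : (P : ℝ) ≤ z := by exact_mod_cast hz
    have hzr' : (z : ℝ) ≤ 2 * P := by exact_mod_cast hz'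
    have hzx : z ≤ (N ^ 2) ^ 2 := by
      have h1 : z ≤ N ^ 2 := by nlinarith
      exact h1.trans (Nat.le_self_pow (by norm_num) _)
    have h1 := hV2 d l z (-t) hd1 (hd2.trans hpow1) (hP1.trans hzr) hzx (by rwa [abs_neg])
      (by rwa [abs_neg])
    simp only [neg_mul] at h1
    refine h1.trans ?_
    exact div_le_div_of_nonneg_right hzr' (by positivity)
  have hmain := VkPr_primes P d l hP3 t _ hS
  refine hmain.trans ?_
  have hL0 : 0 < L := by linarith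
  have hLK0 : 0 < L ^ K := by positivity
  have e1' : 2 * (2 * P / (2 * L) ^ (K + 1)) ≤ P / L ^ K / 2 := by
    have h1 : (2 * L) ^ (K + 1) = 2 ^ K * (2 * L) * L ^ K := by
      rw [mul_pow]
      ring
    have h2 : 8 * L ^ K ≤ (2 * L) ^ (K + 1) := by
      rw [h1]
      have h3 : (1 : ℝ) ≤ 2 ^ K := one_le_pow₀ (by norm_num)
      have h4 : 8 ≤ 2 ^ K * (2 * L) := by nlinarith
      exact mul_le_mul_of_nonneg_right h4 hLK0.le
    have h5 : 2 * (2 * P / (2 * L) ^ (K + 1)) ≤ 4 * P / (8 * L ^ K) := by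
      rw [← mul_div_assoc]
      have h6 : 2 * (2 * (P : ℝ)) = 4 * P := by ring
      rw [h6]
      exact div_le_div_of_nonneg_left (by positivity) (by positivity) h2
    refine h5.trans (le_of_eq ?_)
    field_simp
    ring
  have e2' : 2 * Real.sqrt (2 * P) * Real.log (2 * P) ≤ P / L ^ K / 2 := by
    have hlog2P : Real.log (2 * P) ≤ 2 * L := by
      have h1 : (2 : ℝ) * P ≤ (N : ℝ) ^ 2 := by
        have : (P : ℝ) ≤ N := by exact_mod_cast hP2
        nlinarith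
      have h2 := Real.log_le_log (by positivity) h1
      rw [Real.log_pow] at h2
      push_cast at h2
      exact h2
    have hsq : Real.sqrt (2 * P) ≤ 3 / 2 * Real.sqrt P := by
      rw [Real.sqrt_le_left (by positivity), mul_pow, Real.sq_sqrt hPr0.le]
      linarith
    have hsP : (N : ℝ) ^ (e1 / 2) ≤ Real.sqrt P := by
      apply Real.le_sqrt_of_sq_le
      rw [← Real.rpow_natCast, ← Real.rpow_mul hN0'.le]
      have : e1 / 2 * ((2 : ℕ) : ℝ) = e1 := by push_cast; ring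
      rw [this]
      exact hP1
    have hsP0 : 0 ≤ Real.sqrt P := Real.sqrt_nonneg _
    have hlog0 : 0 ≤ Real.log (2 * P) := Real.log_nonneg (by linarith)
    have h1 : 2 * Real.sqrt (2 * P) * Real.log (2 * P) ≤ 2 * (3 / 2 * Real.sqrt P) * (2 * L) := by
      apply mul_le_mul (by linarith) hlog2P hlog0 (by positivity)
    have h2 : 12 * L ^ (K + 1) ≤ Real.sqrt P := h12.trans hsP
    rw [div_div, le_div_iff₀ (by positivity)]
    calc 2 * Real.sqrt (2 * P) * Real.log (2 * P) * (L ^ K * 2)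
        ≤ 2 * (3 / 2 * Real.sqrt P) * (2 * L) * (L ^ K * 2) :=
          mul_le_mul_of_nonneg_right h1 (by positivity)
      _ = (12 * L ^ (K + 1)) * Real.sqrt P := by ring
      _ ≤ Real.sqrt P * Real.sqrt P := mul_le_mul_of_nonneg_right h2 hsP0
      _ = P := Real.mul_self_sqrt hPr0.le
  linarith

end Pool.Agent.H53.MID

end

section

/-!
# MID HSq: the second moment of `hR` in short intervals

Proof.  `hR^2 ≤ 2 Lam^2 + 2 lamR^2`.  `Lam k ≤ log k ≤ 4 L` for `k < N^4` (`L = log N`), so `∑ 2 Lam^2 ≤ 32 w L^2`.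
`lamR`: the proof of `lamR_sq` in `H76/EHB/HRm.lean` works for a shifted interval: for `k = (u - 1) + j`, `j = 1..w`,
`lamR R k = ∑_{c ≤ R} μ(c)/φ(c) ∑_{b ∈ red c} e(k b/c)` (`Pool.Agent.H76.EHB.lamR_eq`, `k ≥ 1`) has the coefficients `μ(c)/φ(c) e((u-1) b/c)` of the
same absolute value; `dual_large_sieve` with `M = w ≥ R^2`: `∑ lamR^2 ≤ 5 w ∑_{c ≤ R} 1/φ(c)`, and
`∑_{c ≤ R} 1/φ(c) ≤ (2 log R + 2)(1 + log R)` as in `hR_sq` (same file); `log R ≤ B log L ≤ L^(1/2)`.  In total `≤ w L^4` for `N ≥ N0(B)`.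
`hsq`: `cut K1 K2 f 0 = 0` (`0 ∉ Ioc K1 K2`) and `(cut K1 K2 f k)^2 ≤ f k ^2`; if `u = 0` drop the term `k = 0` (length `w - 1 ≥ R^4 + 1`).
-/

set_option autoImplicit false

namespace Pool.Agent.H53.MID

open Finset
open Pool.Agent.H91.EHA (Lam hR lamR ramS)

/-- mean square of `lamR` in a short interval -/
private theorem HSq_lamR (R u w : ℕ) (hu : 1 ≤ u) (hw : 0 < w) (hR : R ^ 2 ≤ w) :
    ∑ k ∈ Ico u (u + w), lamR R k ^ 2 ≤ 5 * w * ∑ c ∈ Icc 1 R, 1 / (c.totient : ℝ) := by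
  classical
  set J : Finset (Σ _ : ℕ, ℕ) := (Icc 1 R).sigma (fun r => Pool.Agent.H92.EH.red r) with hJ
  have hsp : ∀ i ∈ J, ∀ j ∈ J, i ≠ j → ∀ k : ℤ,
      (1 : ℝ) / w ≤ |(i.2 : ℝ) / i.1 - (j.2 : ℝ) / j.1 - k| := by
    rintro ⟨r, b⟩ hi ⟨r', b'⟩ hj hne k
    rw [hJ, mem_sigma, mem_Icc] at hi hj
    simp only at hi hj
    refine le_trans ?_ (Pool.Agent.H92.EH.farey_spacing (by omega) (by omega) hi.2 hj.2 ?_ k)
    · apply one_div_le_one_div_of_le
      · have h1 : (0 : ℝ) < r := by exact_mod_cast hi.1.1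
        have h2 : (0 : ℝ) < r' := by exact_mod_cast hj.1.1
        positivity
      · have : r * r' ≤ w := by
          calc r * r' ≤ R * R := Nat.mul_le_mul hi.1.2 hj.1.2
            _ = R ^ 2 := by ring
            _ ≤ w := hR
        exact_mod_cast this
    · rintro ⟨rfl, rfl⟩
      exact hne rfl
  set m : ℕ → ℝ := fun c => ((ArithmeticFunction.moebius c : ℤ) : ℝ) / (c.totient : ℝ) with hm
  set cf : (Σ _ : ℕ, ℕ) → ℂ := fun j => ((m j.1 : ℝ) : ℂ) *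
    Pool.Agent.H92.EH.e (((u : ℝ) - 1) * ((j.2 : ℝ) / j.1)) with hcf
  have hen : ∀ t : ℝ, ‖Pool.Agent.H92.EH.e t‖ = 1 := fun t => by
    rw [Pool.Agent.H76.EHB.HRm_e, Pool.Agent.H91.PK.LSa_norm_ee]
  have h := Pool.Agent.H92.EH.dual_large_sieve J (fun j => (j.2 : ℝ) / j.1) cf w w le_rfl hw hsp
  have himg : Ico u (u + w) = (Icc 1 w).image (fun n => u + n - 1) := by
    ext k
    rw [Finset.mem_Ico, Finset.mem_image]
    constructor
    · rintro ⟨h3, h4⟩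
      exact ⟨k + 1 - u, by rw [Finset.mem_Icc]; omega, by omega⟩
    · rintro ⟨n, hn, rfl⟩
      rw [Finset.mem_Icc] at hn
      omega
  have h1 : ∀ n ∈ Icc 1 w, lamR R (u + n - 1) ^ 2 =
      ‖∑ j ∈ J, cf j * Pool.Agent.H92.EH.e (n * ((j.2 : ℝ) / j.1))‖ ^ 2 := by
    intro n hn
    rw [Finset.mem_Icc] at hn
    have h2 := Pool.Agent.H76.EHB.lamR_eq R (u + n - 1) (by omega)
    have h3 : ∑ j ∈ J, cf j * Pool.Agent.H92.EH.e (n * ((j.2 : ℝ) / j.1)) =
        ((lamR R (u + n - 1) : ℝ) : ℂ) := by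
      rw [h2, hJ, sum_sigma]
      refine sum_congr rfl fun c _ => ?_
      rw [mul_sum]
      refine sum_congr rfl fun b _ => ?_
      have h4 : ((u + n - 1 : ℕ) : ℝ) = ((u : ℝ) - 1) + n := by
        rw [Nat.cast_sub (by omega)]
        push_cast
        ring
      rw [hcf]
      simp only
      rw [Pool.Agent.H76.EHB.HRm_e, Pool.Agent.H76.EHB.HRm_e, mul_assoc,
        ← Pool.Agent.H91.PK.LSa_ee_add, h4, ← add_mul]
    rw [h3, Complex.norm_real, Real.norm_eq_abs, sq_abs]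
  rw [himg, Finset.sum_image (by
    intro a ha b hb hab
    simp only [Finset.coe_Icc, Set.mem_Icc] at ha hb
    simp only at hab
    omega), sum_congr rfl h1]
  refine h.trans (mul_le_mul_of_nonneg_left ?_ (by positivity))
  rw [hJ, sum_sigma]
  refine sum_le_sum fun c hc => ?_
  have h5 : ∀ b ∈ Pool.Agent.H92.EH.red c, ‖cf ⟨c, b⟩‖ ^ 2 = m c ^ 2 := fun b _ => by
    rw [hcf]
    simp only
    rw [norm_mul, hen, mul_one, Complex.norm_real, Real.norm_eq_abs, sq_abs]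
  rw [sum_congr rfl h5, sum_const, Pool.Agent.H92.EH.card_red, nsmul_eq_mul]
  have hc1 : 0 < c := (mem_Icc.mp hc).1
  have ht : (0 : ℝ) < c.totient := by exact_mod_cast Nat.totient_pos.mpr hc1
  have hmu : (((ArithmeticFunction.moebius c : ℤ) : ℝ)) ^ 2 ≤ 1 := by
    have h5 := ArithmeticFunction.abs_moebius_le_one (n := c)
    have h6 : |((ArithmeticFunction.moebius c : ℤ) : ℝ)| ≤ 1 := by exact_mod_cast h5
    rw [← sq_abs]
    exact pow_le_one₀ (abs_nonneg _) h6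
  rw [hm]
  simp only
  rw [div_pow, mul_div_assoc', div_le_div_iff₀ (by positivity) ht]
  nlinarith [mul_pos ht ht]

theorem hsq1 (B : ℕ) : ∃ N0 : ℕ, ∀ N : ℕ, N0 ≤ N → ∀ R : ℕ, (R : ℝ) ≤ Real.log N ^ B → ∀ u w : ℕ, 1 ≤ u →
    R ^ 4 + 1 ≤ w → u + w ≤ N ^ 4 → ∑ k ∈ Ico u (u + w), hR R k ^ 2 ≤ w * Real.log N ^ 4 := by
  refine ⟨⌈Real.exp 17⌉₊, fun N hN R hRB u w hu hw huw => ?_⟩
  have hN1 : Real.exp 17 ≤ N := Nat.ceil_le.mp hN
  have hN0 : (0 : ℝ) < N := lt_of_lt_of_le (Real.exp_pos _) hN1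
  have hL : 17 ≤ Real.log N := by
    rw [Real.le_log_iff_exp_le hN0]; exact hN1
  set L := Real.log N with hLdef
  have hw1 : 1 ≤ w := by omega
  have hw0 : (0 : ℝ) < w := by exact_mod_cast hw1
  have hR2 : R ^ 2 ≤ w := by
    have h1 : R ^ 2 ≤ R ^ 4 + 1 := by
      rcases Nat.eq_zero_or_pos R with rfl | hR
      · simp
      · exact (Nat.pow_le_pow_right hR (by norm_num)).trans (Nat.le_succ _)
    exact h1.trans hw
  have hlog4 : ∀ k : ℕ, 1 ≤ k → k ≤ N ^ 4 → Real.log k ≤ 4 * L := by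
    intro k hk1 hk
    have h1 : Real.log k ≤ Real.log ((N : ℝ) ^ 4) :=
      Real.log_le_log (by exact_mod_cast hk1) (by exact_mod_cast hk)
    rw [Real.log_pow] at h1
    push_cast at h1
    exact h1
  -- the first sum
  have hLam : ∑ k ∈ Ico u (u + w), Lam k ^ 2 ≤ w * (16 * L ^ 2) := by
    have h1 : ∀ k ∈ Ico u (u + w), Lam k ^ 2 ≤ 16 * L ^ 2 := by
      intro k hk
      rw [Finset.mem_Ico] at hk
      have h2 : (0 : ℝ) ≤ Lam k := ArithmeticFunction.vonMangoldt_nonneg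
      have h3 : Lam k ≤ Real.log k := ArithmeticFunction.vonMangoldt_le_log
      have h4 := hlog4 k (by omega) (by omega)
      have h5 : Lam k ≤ 4 * L := h3.trans h4
      calc Lam k ^ 2 ≤ (4 * L) ^ 2 := pow_le_pow_left₀ h2 h5 2
        _ = 16 * L ^ 2 := by ring
    refine (Finset.sum_le_sum h1).trans (le_of_eq ?_)
    rw [Finset.sum_const, Nat.card_Ico, nsmul_eq_mul, Nat.add_sub_cancel_left]
  -- the second sum
  have hlam : ∑ k ∈ Ico u (u + w), lamR R k ^ 2 ≤ w * (125 * L ^ 2) := by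
    refine (HSq_lamR R u w hu hw1 hR2).trans ?_
    have h1 : ∑ c ∈ Icc 1 R, 1 / (c.totient : ℝ) ≤ 25 * L ^ 2 := by
      rcases Nat.eq_zero_or_pos R with rfl | hR
      · rw [Finset.Icc_eq_empty (by norm_num), Finset.sum_empty]
        positivity
      · refine (Pool.Agent.H76.EHB.HRm_tot w R hR hR2).trans ?_
        have h2 := hlog4 w hw1 (by omega)
        have h3 : 0 ≤ Real.log w := Real.log_natCast_nonneg w
        have h4 : Real.log w + 1 ≤ 5 * L := by linarith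
        calc (Real.log w + 1) * (1 + Real.log w) = (Real.log w + 1) ^ 2 := by ring
          _ ≤ (5 * L) ^ 2 := pow_le_pow_left₀ (by linarith) h4 2
          _ = 25 * L ^ 2 := by ring
    calc 5 * (w : ℝ) * ∑ c ∈ Icc 1 R, 1 / (c.totient : ℝ) ≤ 5 * w * (25 * L ^ 2) :=
          mul_le_mul_of_nonneg_left h1 (by positivity)
      _ = w * (125 * L ^ 2) := by ring
  have hsum : ∑ k ∈ Ico u (u + w), hR R k ^ 2 ≤
      2 * ∑ k ∈ Ico u (u + w), Lam k ^ 2 + 2 * ∑ k ∈ Ico u (u + w), lamR R k ^ 2 := by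
    rw [mul_sum, mul_sum, ← sum_add_distrib]
    refine sum_le_sum fun n _ => ?_
    show (Lam n - lamR R n) ^ 2 ≤ _
    nlinarith [sq_nonneg (Lam n + lamR R n)]
  have hfin : 282 * L ^ 2 ≤ L ^ 4 := by
    have h1 : 289 ≤ L ^ 2 := by nlinarith
    have h2 : L ^ 4 = L ^ 2 * L ^ 2 := by ring
    rw [h2]
    exact mul_le_mul_of_nonneg_right (by linarith) (by positivity)
  calc ∑ k ∈ Ico u (u + w), hR R k ^ 2 ≤ 2 * (w * (16 * L ^ 2)) + 2 * (w * (125 * L ^ 2)) := by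
        linarith
    _ = w * (282 * L ^ 2) := by ring
    _ ≤ w * L ^ 4 := mul_le_mul_of_nonneg_left hfin hw0.le

theorem hsq (B : ℕ) : ∃ N0 : ℕ, ∀ N : ℕ, N0 ≤ N → ∀ R : ℕ, (R : ℝ) ≤ Real.log N ^ B → ∀ K1 K2 : ℕ,
    SqB (cut K1 K2 (hR R)) (R ^ 4 + 2) (N ^ 4) (Real.log N) := by
  obtain ⟨N0, h⟩ := hsq1 B
  refine ⟨N0, fun N hN R hRB K1 K2 => ?_⟩
  intro u w hw huw
  have hcut : ∀ k, cut K1 K2 (hR R) k ^ 2 ≤ hR R k ^ 2 := by
    intro k
    unfold cut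
    split_ifs
    · exact le_rfl
    · rw [zero_pow two_ne_zero]
      exact sq_nonneg _
  rcases Nat.eq_zero_or_pos u with rfl | hu
  · have h1 := h N hN R hRB 1 (w - 1) le_rfl (by omega) (by omega)
    rw [show 1 + (w - 1) = 0 + w by omega] at h1
    have h2 : cut K1 K2 (hR R) 0 = 0 := by
      unfold cut
      rw [if_neg (by rw [Finset.mem_Ioc]; omega)]
    rw [Finset.sum_eq_sum_Ico_succ_bot (by omega), h2, zero_pow two_ne_zero, zero_add, zero_add]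
    refine (Finset.sum_le_sum fun k _ => hcut k).trans (h1.trans ?_)
    have h3 : ((w - 1 : ℕ) : ℝ) ≤ w := by exact_mod_cast Nat.sub_le w 1
    have h4 : 0 ≤ Real.log N ^ 4 := by positivity
    exact mul_le_mul_of_nonneg_right h3 h4
  · exact (Finset.sum_le_sum fun k _ => hcut k).trans (h N hN R hRB u w hu (by omega) huw)

end Pool.Agent.H53.MID

end

section

/-!
# MID Msc: the mean square of the twisted Dirichlet polynomial

Proof.  `L = log N`, `R = ⌊L^B⌋`, `f = hR R`.  `vk_pr` with `K = C' + A' + 6` gives `K'`.  `SWp` with `B`, `m = K'`, `k = C' + K' + A' + 10`, `e0 = e1`.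
By `fac_sq`, `∫_{|t| ≤ U} ‖Cs‖^2 ≤ d ∑_{l<d} ∫ ‖Pl‖^2 ‖Kl‖^2`.  If `gcd(l, d) > 1` then `Pl = 0` (a prime `p > P > d` is coprime to `d`).  Otherwise:
(1) `L^K' ≤ |T + t|`: `‖Pl‖ ≤ P/L^K` (`|T + t| ≤ N^2 + N ≤ N^3`) and `∫_{|t| ≤ U} ‖Kl(T+t)‖^2 ≤ (2U + 2 K2 (1 + log K2)) ∑_{k ≤ K2} |cut f|^2` (`mvt` with `X = K2`, `c k = cut K1 K2 f k ee(-k a)`, `τ = T`),
`∑ ≤ (K2 + 1) L^4` (`hsq`, interval `[0, K2 + 1)`), `U ≤ N/P`, `K2 ≤ 16 N/P`: `≤ (N/P)^2 L^7`.
(2) `|T + t| < L^K'`: `‖Pl‖ ≤ P`, and with `l b/d = b'/c` in lowest terms (`c ≤ d ≤ L^C' ≤ L^B`, so `c ≤ R`; if `c = 1` or `l b ≡ 0` this is fine) `‖Kl‖ ≤ K2/L^k` by `SWp`; the set of these `t` has measure `≤ 2 L^K'`.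
Total `≤ d^2 (P^2 L^(-2K) (N/P)^2 L^7 + P^2 · 2 L^K' · 256 (N/P)^2 L^(-2k)) ≤ N^2/L^A'`.
(If `K1 ≥ K2` everything is `0`.)
-/

set_option autoImplicit false

namespace Pool.Agent.H53.MID

open Finset MeasureTheory
open Pool.Agent.H91.PK (ee)
open Pool.Agent.H91.EHA (Lam hR lamR ramS)
open Pool.Agent.H35.W (pb)

private theorem Msc_int (p q : ℝ → ℝ) (hp : Continuous p) (hq : Continuous q)
    (hq0 : ∀ t, 0 ≤ q t) (U T M a b : ℝ) (hM : 0 ≤ M) (ha : 0 ≤ a) (hb : 0 ≤ b)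
    (h1 : ∀ t ∈ Set.Icc (-U) U, M ≤ |T + t| → p t ≤ a)
    (h2 : ∀ t ∈ Set.Icc (-U) U, |T + t| < M → p t * q t ≤ b) :
    ∫ t in Set.Icc (-U) U, p t * q t ≤ a * (∫ t in Set.Icc (-U) U, q t) + 2 * M * b := by
  set S : Set ℝ := Set.Ioo (-T - M) (-T + M) with hS
  have hint1 : IntegrableOn (fun t => p t * q t) (Set.Icc (-U) U) :=
    (hp.mul hq).continuousOn.integrableOn_Icc
  have hint2 : IntegrableOn q (Set.Icc (-U) U) := hq.continuousOn.integrableOn_Icc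
  have hvol : volume S ≠ ⊤ := by
    rw [hS, Real.volume_Ioo]
    exact ENNReal.ofReal_ne_top
  have hint3 : Integrable (S.indicator (fun _ : ℝ => b)) volume :=
    (integrable_indicator_iff measurableSet_Ioo).2 (integrableOn_const hvol)
  have hnn : ∀ t, 0 ≤ S.indicator (fun _ : ℝ => b) t :=
    fun t => Set.indicator_nonneg (fun _ _ => hb) t
  have e1 : ∫ t in Set.Icc (-U) U, p t * q t ≤
      ∫ t in Set.Icc (-U) U, (a * q t + S.indicator (fun _ : ℝ => b) t) := by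
    refine setIntegral_mono_on hint1 ((hint2.const_mul a).add hint3.integrableOn)
      measurableSet_Icc fun t ht => ?_
    rcases le_or_gt M |T + t| with h | h
    · have := mul_le_mul_of_nonneg_right (h1 t ht h) (hq0 t)
      have := hnn t
      linarith
    · have hmem : t ∈ S := by
        rw [hS, Set.mem_Ioo]
        rw [abs_lt] at h
        constructor <;> linarith [h.1, h.2]
      rw [Set.indicator_of_mem hmem]
      have := h2 t ht h
      have := mul_nonneg ha (hq0 t)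
      linarith
  have e2 : ∫ t in Set.Icc (-U) U, (a * q t + S.indicator (fun _ : ℝ => b) t) =
      a * (∫ t in Set.Icc (-U) U, q t) + ∫ t in Set.Icc (-U) U, S.indicator (fun _ : ℝ => b) t := by
    rw [integral_add (hint2.const_mul a) hint3.integrableOn, integral_const_mul]
  have e3 : ∫ t in Set.Icc (-U) U, S.indicator (fun _ : ℝ => b) t ≤ 2 * M * b := by
    refine (setIntegral_le_integral hint3 (Filter.Eventually.of_forall hnn)).trans ?_
    rw [integral_indicator_const _ measurableSet_Ioo, Real.volume_real_Ioo_of_le (by linarith),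
      smul_eq_mul]
    exact le_of_eq (by ring)
  linarith

private theorem Msc_ee_cont (y : ℝ) (T : ℝ) : Continuous fun t : ℝ => ee (-((T + t) * y)) := by
  unfold Pool.Agent.H91.PK.ee
  fun_prop

private theorem Msc_norm_ee (t : ℝ) : ‖ee t‖ = 1 := Pool.Agent.H91.PK.LSa_norm_ee t

private theorem Msc_Pl_cont (P d l : ℕ) (T : ℝ) : Continuous fun t : ℝ => Pl P d l (T + t) := by
  unfold Pl
  exact continuous_finsetSum _ fun p _ => Msc_ee_cont _ _

private theorem Msc_Kl_cont (f : ℕ → ℝ) (K1 K2 : ℕ) (a T : ℝ) :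
    Continuous fun t : ℝ => Kl f K1 K2 a (T + t) := by
  unfold Kl
  exact continuous_finsetSum _ fun p _ => continuous_const.mul (Msc_ee_cont _ _)

private theorem Msc_Pl_le (P d l : ℕ) (s : ℝ) : ‖Pl P d l s‖ ≤ P := by
  unfold Pl
  refine (norm_sum_le _ _).trans ?_
  simp only [Msc_norm_ee, sum_const, nsmul_eq_mul, mul_one]
  have h : ((pb P).filter (fun p => p % d = l % d)).card ≤ P := by
    refine (Finset.card_filter_le _ _).trans ?_
    unfold Pool.Agent.H35.W.pb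
    refine (Finset.card_filter_le _ _).trans ?_
    rw [Nat.card_Ioc]
    omega
  exact_mod_cast h

/-- lowest terms -/
private theorem Msc_low (l b d : ℕ) (hd : 1 ≤ d) : ∃ b' c : ℕ, 1 ≤ c ∧ c ≤ d ∧ Nat.Coprime b' c ∧
    (l : ℝ) * b / d = (b' : ℝ) / c := by
  have hg : 0 < Nat.gcd (l * b) d := Nat.gcd_pos_of_pos_right _ (by omega)
  have h1 : Nat.gcd (l * b) d ∣ d := Nat.gcd_dvd_right _ _
  have h2 : Nat.gcd (l * b) d ∣ l * b := Nat.gcd_dvd_left _ _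
  refine ⟨l * b / Nat.gcd (l * b) d, d / Nat.gcd (l * b) d, ?_, Nat.div_le_self _ _,
    Nat.coprime_div_gcd_div_gcd hg, ?_⟩
  · exact Nat.div_pos (Nat.le_of_dvd (by omega) h1) hg
  · have hg' : ((Nat.gcd (l * b) d : ℕ) : ℝ) ≠ 0 := by
      exact_mod_cast hg.ne'
    rw [Nat.cast_div h2 hg', Nat.cast_div h1 hg', Nat.cast_mul]
    have hd' : (d : ℝ) ≠ 0 := by
      exact_mod_cast (by omega : d ≠ 0)
    field_simp

/-- `Kl` as a sum over `[1, K2]` -/
private theorem Msc_Kl_eq (f : ℕ → ℝ) (K1 K2 : ℕ) (a s : ℝ) :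
    Kl f K1 K2 a s = ∑ m ∈ Icc 1 K2, ((cut K1 K2 f m : ℂ) * ee (-(m * a))) *
      ee (-(s * Real.log m)) := by
  unfold Kl
  have hsub : Ioc K1 K2 ⊆ Icc 1 K2 := by
    intro m hm
    rw [mem_Ioc] at hm
    rw [mem_Icc]
    omega
  rw [← sum_subset hsub (f := fun m => ((cut K1 K2 f m : ℂ) * ee (-(m * a))) *
      ee (-(s * Real.log m)))]
  · refine Finset.sum_congr rfl fun m hm => ?_
    unfold cut
    rw [if_pos hm]
  · intro m _ hm
    unfold cut
    rw [if_neg hm]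
    simp

/-- mean square of `Kl` -/
private theorem Msc_Kl_ms (f : ℕ → ℝ) (K1 K2 w0 Y : ℕ) (L a T U : ℝ) (hK : 1 ≤ K2) (hU : 0 ≤ U)
    (h : SqB (cut K1 K2 f) w0 Y L) (hw : w0 ≤ K2 + 1) (hY : K2 + 1 ≤ Y) :
    ∫ t in Set.Icc (-U) U, ‖Kl f K1 K2 a (T + t)‖ ^ 2 ≤
      (2 * U + 2 * K2 * (1 + Real.log K2)) * ((K2 + 1) * L ^ 4) := by
  have h1 := mvt (fun m => (cut K1 K2 f m : ℂ) * ee (-(m * a))) K2 U T hK hU
  simp only [← Msc_Kl_eq] at h1
  refine h1.trans ?_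
  have h2 : ∑ m ∈ Icc 1 K2, ‖(cut K1 K2 f m : ℂ) * ee (-(m * a))‖ ^ 2 ≤ (K2 + 1) * L ^ 4 := by
    have h3 := h 0 (K2 + 1) hw (by omega)
    rw [zero_add] at h3
    push_cast at h3
    refine le_trans ?_ h3
    have h4 : ∑ m ∈ Icc 1 K2, ‖(cut K1 K2 f m : ℂ) * ee (-(m * a))‖ ^ 2 =
        ∑ m ∈ Icc 1 K2, cut K1 K2 f m ^ 2 := by
      refine Finset.sum_congr rfl fun m _ => ?_
      rw [norm_mul, Msc_norm_ee, mul_one, Complex.norm_real, Real.norm_eq_abs, sq_abs]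
    rw [h4]
    refine Finset.sum_le_sum_of_subset_of_nonneg ?_ fun m _ _ => sq_nonneg _
    intro m hm
    rw [mem_Icc] at hm
    rw [mem_Ico]
    omega
  have h5 : 0 ≤ 2 * U + 2 * K2 * (1 + Real.log K2) := by
    have : 0 ≤ Real.log K2 := Real.log_natCast_nonneg K2
    positivity
  exact mul_le_mul_of_nonneg_left h2 h5

/-- the elementary thresholds -/
private theorem Msc_big (B : ℕ) (e1 : ℝ) (he1 : 0 < e1) : ∃ N0 : ℕ, ∀ N : ℕ, N0 ≤ N →
    50 ≤ Real.log N ∧ Real.log N ^ (4 * B) + 1 ≤ (N : ℝ) ^ e1 ∧ 3 ≤ N := by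
  have h1 := (isLittleO_log_rpow_atTop (r := e1 / (4 * B + 1)) (by positivity)).bound (c := 1)
    one_pos
  have h2 := (Real.tendsto_log_atTop.eventually (Filter.eventually_ge_atTop (50 : ℝ))).and
    (h1.and (Filter.eventually_ge_atTop (3 : ℝ)))
  have h3 := tendsto_natCast_atTop_atTop (R := ℝ) |>.eventually h2
  obtain ⟨x1, hx1⟩ := Filter.eventually_atTop.1 h3
  refine ⟨x1, fun N hN => ?_⟩
  obtain ⟨g1, g2, g3⟩ := hx1 N hN
  refine ⟨g1, ?_, by exact_mod_cast g3⟩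
  have hN0 : (0 : ℝ) < N := by linarith
  have hL0 : 0 ≤ Real.log N := by linarith
  rw [one_mul, Real.norm_eq_abs, Real.norm_eq_abs, abs_of_nonneg hL0,
    abs_of_nonneg (Real.rpow_nonneg hN0.le _)] at g2
  have h4 : Real.log N ^ (4 * B + 1) ≤ (N : ℝ) ^ e1 := by
    calc Real.log N ^ (4 * B + 1) ≤ ((N : ℝ) ^ (e1 / (4 * B + 1))) ^ (4 * B + 1) :=
          pow_le_pow_left₀ hL0 g2 _
      _ = (N : ℝ) ^ e1 := by
          rw [← Real.rpow_natCast, ← Real.rpow_mul hN0.le]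
          congr 1
          push_cast
          field_simp
  have h5 : 1 ≤ Real.log N ^ (4 * B) := one_le_pow₀ (by linarith)
  rw [pow_succ] at h4
  nlinarith

/-- final arithmetic -/
private theorem Msc_arith (N P K2 d U L : ℝ) (A' C' K' : ℕ) (hN : 0 < N) (hP : 0 < P)
    (hL : 50 ≤ L) (hd : d ≤ L ^ C') (hd0 : 0 ≤ d) (hU : 1 ≤ U) (hUP : U * P ≤ N)
    (hK : 1 ≤ K2) (hKP : K2 * P ≤ 16 * N) (lk : ℝ) (hlk : lk ≤ L) (hlk0 : 0 ≤ lk) :
    d * (d * ((P / L ^ (C' + A' + 6)) ^ 2 * ((2 * U + 2 * K2 * (1 + lk)) * ((K2 + 1) * L ^ 4)) +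
      2 * L ^ K' * (P * (K2 / L ^ (C' + K' + A' + 10))) ^ 2)) ≤ N ^ 2 / L ^ A' := by
  have hL0 : 0 < L := by linarith
  have hL1 : 1 ≤ L := by linarith
  have hdd : d * d ≤ (L ^ C') ^ 2 := by
    rw [sq]
    exact mul_le_mul hd hd hd0 (by positivity)
  have hPU : P * U ≤ N := by linarith
  -- first term
  have a1 : P * (2 * U + 2 * K2 * (1 + lk)) ≤ N * (66 * L) := by
    have e1 : P * K2 * (1 + lk) ≤ 16 * N * (2 * L) := by
      have : P * K2 ≤ 16 * N := by linarith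
      exact mul_le_mul this (by linarith) (by linarith) (by positivity)
    have e2 : N ≤ N * L := le_mul_of_one_le_right hN.le hL1
    nlinarith
  have a2 : P * (K2 + 1) ≤ 32 * N := by
    have : P * 1 ≤ P * K2 := mul_le_mul_of_nonneg_left hK hP.le
    linarith
  have a3 : P ^ 2 * ((2 * U + 2 * K2 * (1 + lk)) * ((K2 + 1) * L ^ 4)) ≤ N ^ 2 * L ^ 7 := by
    have e1 : 0 ≤ 2 * U + 2 * K2 * (1 + lk) := by positivity
    calc P ^ 2 * ((2 * U + 2 * K2 * (1 + lk)) * ((K2 + 1) * L ^ 4))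
        = (P * (2 * U + 2 * K2 * (1 + lk))) * (P * (K2 + 1)) * L ^ 4 := by ring
      _ ≤ (N * (66 * L)) * (32 * N) * L ^ 4 := by
          refine mul_le_mul_of_nonneg_right (mul_le_mul a1 a2 (by positivity) (by positivity)) (by positivity)
      _ = N ^ 2 * (2112 * L ^ 5) := by ring
      _ ≤ N ^ 2 * L ^ 7 := by
          refine mul_le_mul_of_nonneg_left ?_ (by positivity)
          have : 2112 ≤ L ^ 2 := by nlinarith
          calc 2112 * L ^ 5 ≤ L ^ 2 * L ^ 5 := mul_le_mul_of_nonneg_right this (by positivity)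
            _ = L ^ 7 := by ring
  have b1 : P ^ 2 * K2 ^ 2 ≤ 256 * N ^ 2 := by
    have : (P * K2) ^ 2 ≤ (16 * N) ^ 2 := pow_le_pow_left₀ (by positivity) (by linarith) 2
    nlinarith
  have c1 : (P / L ^ (C' + A' + 6)) ^ 2 * ((2 * U + 2 * K2 * (1 + lk)) * ((K2 + 1) * L ^ 4)) ≤
      N ^ 2 / ((L ^ C') ^ 2 * L ^ A') * (1 / 2) := by
    rw [div_pow, div_mul_eq_mul_div, div_le_iff₀ (by positivity)]
    refine a3.trans ?_
    have e : N ^ 2 / ((L ^ C') ^ 2 * L ^ A') * (1 / 2) * (L ^ (C' + A' + 6)) ^ 2 =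
        N ^ 2 * (L ^ 7 * (L ^ A' * L ^ 5 / 2)) := by
      rw [pow_add, pow_add]
      field_simp
    rw [e]
    refine mul_le_mul_of_nonneg_left ?_ (by positivity)
    have h1 : 1 ≤ L ^ A' := one_le_pow₀ hL1
    have h2 : 2 ≤ L ^ 5 := by
      calc (2 : ℝ) ≤ L := by linarith
        _ = L ^ 1 := (pow_one L).symm
        _ ≤ L ^ 5 := pow_le_pow_right₀ hL1 (by norm_num)
    refine le_mul_of_one_le_right (by positivity) ?_
    nlinarith
  have c2 : 2 * L ^ K' * (P * (K2 / L ^ (C' + K' + A' + 10))) ^ 2 ≤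
      N ^ 2 / ((L ^ C') ^ 2 * L ^ A') * (1 / 2) := by
    have e0 : 2 * L ^ K' * (P * (K2 / L ^ (C' + K' + A' + 10))) ^ 2 =
        2 * L ^ K' * (P ^ 2 * K2 ^ 2) / (L ^ (C' + K' + A' + 10)) ^ 2 := by
      field_simp
    rw [e0, div_le_iff₀ (by positivity)]
    have e : N ^ 2 / ((L ^ C') ^ 2 * L ^ A') * (1 / 2) * (L ^ (C' + K' + A' + 10)) ^ 2 =
        N ^ 2 * L ^ K' * (L ^ K' * L ^ A' * L ^ 20 / 2) := by
      rw [pow_add, pow_add, pow_add]
      field_simp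
    rw [e]
    have h1 : 1 ≤ L ^ A' := one_le_pow₀ hL1
    have h1' : 1 ≤ L ^ K' := one_le_pow₀ hL1
    have h3 : 1 ≤ L ^ K' * L ^ A' := one_le_mul_of_one_le_of_one_le h1' h1
    have h2 : 1024 ≤ L ^ 20 := by
      calc (1024 : ℝ) ≤ L ^ 2 := by nlinarith
        _ ≤ L ^ 20 := pow_le_pow_right₀ hL1 (by norm_num)
    have h4 : 512 ≤ L ^ K' * L ^ A' * L ^ 20 / 2 := by nlinarith
    calc 2 * L ^ K' * (P ^ 2 * K2 ^ 2) ≤ 2 * L ^ K' * (256 * N ^ 2) :=
          mul_le_mul_of_nonneg_left b1 (by positivity)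
      _ = N ^ 2 * L ^ K' * 512 := by ring
      _ ≤ _ := mul_le_mul_of_nonneg_left h4 (by positivity)
  have hX : 0 ≤ N ^ 2 / ((L ^ C') ^ 2 * L ^ A') := by positivity
  calc _ = d * d * ((P / L ^ (C' + A' + 6)) ^ 2 * ((2 * U + 2 * K2 * (1 + lk)) * ((K2 + 1) * L ^ 4)) +
      2 * L ^ K' * (P * (K2 / L ^ (C' + K' + A' + 10))) ^ 2) := by ring
    _ ≤ d * d * (N ^ 2 / ((L ^ C') ^ 2 * L ^ A')) := by
        refine mul_le_mul_of_nonneg_left ?_ (by positivity)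
        linarith
    _ ≤ (L ^ C') ^ 2 * (N ^ 2 / ((L ^ C') ^ 2 * L ^ A')) := mul_le_mul_of_nonneg_right hdd hX
    _ = N ^ 2 / L ^ A' := by
        field_simp

theorem msc (hVK : VKp) (hSW : SWp) (A' C' : ℕ) (e1 : ℝ) (he1 : 0 < e1) : ∀ B : ℕ, C' ≤ B → ∃ N0 : ℕ, ∀ N : ℕ, N0 ≤ N →
    ∀ (P K1 K2 X d b : ℕ) (T U : ℝ), (N : ℝ) ^ e1 ≤ P → P ≤ N → 1 ≤ d → (d : ℝ) ≤ Real.log N ^ C' →
    |T| ≤ (N : ℝ) ^ 2 → 1 ≤ U → U * P ≤ N → (N : ℝ) ^ e1 ≤ K2 → K2 ≤ N → K2 * P ≤ 16 * N → 2 * P * K2 ≤ X →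
    ∫ t in Set.Icc (-U) U, ‖Cs (cc (cut K1 K2 (hR ⌊Real.log N ^ B⌋₊)) P ((b : ℝ) / d) T) X t‖ ^ 2
      ≤ (N : ℝ) ^ 2 / Real.log N ^ A' := by
  intro B hCB
  obtain ⟨K', N1, hN1⟩ := vk_pr hVK (C' + A' + 6) C' e1 he1
  obtain ⟨N2, hN2⟩ := hSW B K' (C' + K' + A' + 10) e1 he1
  obtain ⟨N3, hN3⟩ := hsq B
  obtain ⟨N4, hN4⟩ := Msc_big B e1 he1
  refine ⟨max (max N1 N2) (max N3 N4), fun N hN P K1 K2 X d b T U hP1 hP2 hd1 hd2 hT hU hUP hK1 hK2
    hKP hX => ?_⟩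
  have g1 := hN1 N (le_trans (le_trans (le_max_left _ _) (le_max_left _ _)) hN)
  have g2 := hN2 N (le_trans (le_trans (le_max_right _ _) (le_max_left _ _)) hN)
  have g3 := hN3 N (le_trans (le_trans (le_max_left _ _) (le_max_right _ _)) hN)
  obtain ⟨hL, hbig, hN3'⟩ := hN4 N (le_trans (le_trans (le_max_right _ _) (le_max_right _ _)) hN)
  set L := Real.log N with hLdef
  set R := ⌊L ^ B⌋₊ with hR'
  set f := hR R with hf
  have hL1 : 1 ≤ L := by linarith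
  have hL0 : 0 < L := by linarith
  have hR1 : (R : ℝ) ≤ L ^ B := Nat.floor_le (by positivity)
  have hNR : (3 : ℝ) ≤ N := by exact_mod_cast hN3'
  have hP0 : (0 : ℝ) < P := lt_of_lt_of_le (Real.rpow_pos_of_pos (by linarith) _) hP1
  have hK20 : (0 : ℝ) < K2 := lt_of_lt_of_le (Real.rpow_pos_of_pos (by linarith) _) hK1
  have hK2' : 1 ≤ K2 := by
    have : 0 < K2 := by exact_mod_cast hK20
    omega
  have hK2R : (1 : ℝ) ≤ K2 := by exact_mod_cast hK2'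
  have hUN : U ≤ N := by
    have hP1' : (1 : ℝ) ≤ P := by
      have h0 : 0 < P := by exact_mod_cast hP0
      exact_mod_cast h0
    nlinarith
  -- pointwise
  have hpt : ∀ t : ℝ, ‖Cs (cc (cut K1 K2 f) P ((b : ℝ) / d) T) X t‖ ^ 2 ≤
      d * ∑ l ∈ range d, ‖Pl P d l (T + t)‖ ^ 2 * ‖Kl f K1 K2 ((l : ℝ) * b / d) (T + t)‖ ^ 2 :=
    fun t => fac_sq f P K1 K2 X d b T t hd1 hX
  have hcontP : ∀ l, Continuous fun t : ℝ => ‖Pl P d l (T + t)‖ ^ 2 :=
    fun l => (Msc_Pl_cont P d l T).norm.pow 2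
  have hcontK : ∀ l : ℕ, Continuous fun t : ℝ => ‖Kl f K1 K2 ((l : ℝ) * b / d) (T + t)‖ ^ 2 :=
    fun l => (Msc_Kl_cont f K1 K2 _ T).norm.pow 2
  have hcontC : Continuous fun t : ℝ => ‖Cs (cc (cut K1 K2 f) P ((b : ℝ) / d) T) X t‖ ^ 2 := by
    refine Continuous.pow (Continuous.norm ?_) 2
    unfold Cs
    refine continuous_finsetSum _ fun m _ => continuous_const.mul ?_
    have := Msc_ee_cont (Real.log m) 0
    simpa only [zero_add] using this
  have hI1 : ∫ t in Set.Icc (-U) U, ‖Cs (cc (cut K1 K2 f) P ((b : ℝ) / d) T) X t‖ ^ 2 ≤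
      d * ∑ l ∈ range d, ∫ t in Set.Icc (-U) U,
        ‖Pl P d l (T + t)‖ ^ 2 * ‖Kl f K1 K2 ((l : ℝ) * b / d) (T + t)‖ ^ 2 := by
    have hi : ∀ l ∈ range d, Integrable (fun t : ℝ => ‖Pl P d l (T + t)‖ ^ 2 *
        ‖Kl f K1 K2 ((l : ℝ) * b / d) (T + t)‖ ^ 2) (volume.restrict (Set.Icc (-U) U)) :=
      fun l _ => ((hcontP l).mul (hcontK l)).continuousOn.integrableOn_Icc
    rw [← integral_finsetSum _ hi, ← integral_const_mul]
    refine setIntegral_mono_on hcontC.continuousOn.integrableOn_Icc ?_ measurableSet_Icc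
      fun t _ => hpt t
    refine Continuous.continuousOn ?_ |>.integrableOn_Icc
    exact continuous_const.mul (continuous_finsetSum _ fun l _ => (hcontP l).mul (hcontK l))
  refine hI1.trans ?_
  -- each class
  have hcl : ∀ l ∈ range d, ∫ t in Set.Icc (-U) U,
        ‖Pl P d l (T + t)‖ ^ 2 * ‖Kl f K1 K2 ((l : ℝ) * b / d) (T + t)‖ ^ 2 ≤
      (P / L ^ (C' + A' + 6)) ^ 2 * ((2 * U + 2 * K2 * (1 + Real.log K2)) * ((K2 + 1) * L ^ 4)) +
      2 * L ^ K' * (P * (K2 / L ^ (C' + K' + A' + 10))) ^ 2 := by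
    intro l _
    obtain ⟨b', c, hc1, hc2, hc3, hc4⟩ := Msc_low l b d hd1
    have hcR : c ≤ R := by
      refine Nat.le_floor ?_
      calc (c : ℝ) ≤ d := by exact_mod_cast hc2
        _ ≤ L ^ C' := hd2
        _ ≤ L ^ B := pow_le_pow_right₀ hL1 hCB
    have k1 := Msc_int (fun t => ‖Pl P d l (T + t)‖ ^ 2)
      (fun t => ‖Kl f K1 K2 ((l : ℝ) * b / d) (T + t)‖ ^ 2) (hcontP l) (hcontK l)
      (fun t => by positivity) U T (L ^ K') ((P / L ^ (C' + A' + 6)) ^ 2)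
      ((P * (K2 / L ^ (C' + K' + A' + 10))) ^ 2) (by positivity) (by positivity) (by positivity)
      ?_ ?_
    · refine k1.trans ?_
      have k2 := Msc_Kl_ms f K1 K2 (R ^ 4 + 2) (N ^ 4) L ((l : ℝ) * b / d) T U hK2' (by linarith)
        (g3 R hR1 K1 K2) ?_ ?_
      · have := mul_le_mul_of_nonneg_left k2 (by positivity : (0 : ℝ) ≤ (P / L ^ (C' + A' + 6)) ^ 2)
        linarith
      · have h1 : ((R ^ 4 + 1 : ℕ) : ℝ) ≤ (K2 : ℝ) := by
          push_cast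
          calc (R : ℝ) ^ 4 + 1 ≤ (L ^ B) ^ 4 + 1 := by
                have := pow_le_pow_left₀ (Nat.cast_nonneg R) hR1 4
                linarith
            _ = L ^ (4 * B) + 1 := by rw [← pow_mul, mul_comm B 4]
            _ ≤ (N : ℝ) ^ e1 := hbig
            _ ≤ K2 := hK1
        have h2 : R ^ 4 + 1 ≤ K2 := by exact_mod_cast h1
        omega
      · have : N + 1 ≤ N ^ 4 := by
          calc N + 1 ≤ N * N := by nlinarith
            _ = N ^ 2 := (sq N).symm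
            _ ≤ N ^ 4 := Nat.pow_le_pow_right (by omega) (by norm_num)
        omega
    · intro t ht hM
      rw [Set.mem_Icc] at ht
      have habs : |T + t| ≤ (N : ℝ) ^ 3 := by
        have h1 : |t| ≤ U := abs_le.2 ht
        have h2 : |T + t| ≤ |T| + |t| := abs_add_le _ _
        nlinarith [sq_nonneg (N : ℝ)]
      have k2 := g1 P d l (T + t) hP1 hP2 hd1 hd2 hM habs
      exact pow_le_pow_left₀ (norm_nonneg _) k2 2
    · intro t ht hM
      have k2 := g2 R c b' K1 K2 (T + t) hR1 hc1 hcR hc3 hK1 hK2 hM.le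
      have k3 : ‖Kl f K1 K2 ((l : ℝ) * b / d) (T + t)‖ ≤ K2 / L ^ (C' + K' + A' + 10) := by
        refine le_trans (le_of_eq ?_) k2
        unfold Kl
        congr 1
        refine Finset.sum_congr rfl fun m _ => ?_
        rw [hc4, mul_div_assoc]
      have k4 := Msc_Pl_le P d l (T + t)
      show ‖Pl P d l (T + t)‖ ^ 2 * ‖Kl f K1 K2 ((l : ℝ) * b / d) (T + t)‖ ^ 2 ≤ _
      rw [← mul_pow]
      exact pow_le_pow_left₀ (by positivity)
        (mul_le_mul k4 k3 (norm_nonneg _) (Nat.cast_nonneg P)) 2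
  have hsum := Finset.sum_le_sum hcl
  rw [sum_const, card_range, nsmul_eq_mul] at hsum
  refine (mul_le_mul_of_nonneg_left hsum (Nat.cast_nonneg d)).trans ?_
  refine Msc_arith N P K2 d U L A' C' K' (by linarith) hP0 hL hd2 (Nat.cast_nonneg d) hU
    hUP hK2R (by exact_mod_cast hKP) (Real.log K2) ?_ (Real.log_natCast_nonneg K2)
  exact Real.log_le_log hK20 (by exact_mod_cast hK2)

end Pool.Agent.H53.MID

end

section

/-!
# MID Ms: the mean square over multiplicative windows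

Proof.  `C4 = A' + 12`, `U = L^C4/θ` (`U ≥ 1`, `U P ≤ N`), `msc` with `A' + 1`, `plw`.  Tail: `‖cc .. m‖ = |Fp f P m|`, `|Fp f P m|^2 ≤ #{p ∈ pb P : p ∣ m} ∑_{p ∈ pb P, p ∣ m} f(m/p)^2`, the number of these `p` is
`≤ log m/log 2 ≤ 4 L` (for `m ≤ X ≤ 64 N`), so `∑_{m ≤ X} ‖cc m‖^2 ≤ 4 L ∑_{p ∈ pb P} ∑_k (cut f k)^2 ≤ 4 L P (K2 + 1) L^4 ≤ 128 N L^5` (`hsq` on `[0, K2+1)`; `K2 + 1 ≥ R^4 + 2` since `K2 ≥ N^e1`).
`(4/U + 4X(1+log X)/U^2) 128 N L^5 ≤ (4 θ/L^C4 + 512 N L θ^2/L^(2 C4)) 128 N L^5 ≤ θ^2 N^2/(2 L^A')`, using `θ N ≥ 1`.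
-/

set_option autoImplicit false

namespace Pool.Agent.H53.MID

open Finset MeasureTheory
open Pool.Agent.H91.PK (ee)
open Pool.Agent.H91.EHA (Lam hR lamR ramS)
open Pool.Agent.H35.W (pb)

private theorem Ms_asy (k : ℕ) (e1 : ℝ) (he1 : 0 < e1) :
    ∀ᶠ N : ℕ in Filter.atTop, Real.log N ^ k + 1 ≤ (N : ℝ) ^ e1 := by
  have h1 := (isLittleO_log_rpow_rpow_atTop (k : ℝ) he1).bound (show (0 : ℝ) < 1 / 2 by norm_num)
  have h2 := (tendsto_rpow_atTop he1).eventually_ge_atTop 2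
  have h3 := (tendsto_natCast_atTop_atTop (R := ℝ)).eventually (h1.and h2)
  filter_upwards [h3] with N hN
  obtain ⟨h4, h5⟩ := hN
  rw [Real.rpow_natCast, Real.norm_eq_abs, Real.norm_eq_abs] at h4
  have h6 : |(N : ℝ) ^ e1| = (N : ℝ) ^ e1 := abs_of_nonneg (by positivity)
  rw [h6] at h4
  have h7 := (le_abs_self _).trans h4
  linarith

private theorem Ms_cc (f : ℕ → ℝ) (P m : ℕ) (a T : ℝ) : ‖cc f P a T m‖ = |Fp f P m| := by
  unfold cc
  rw [norm_mul, norm_mul, Pool.Agent.H91.PK.LSa_norm_ee, Pool.Agent.H91.PK.LSa_norm_ee, mul_one, mul_one,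
    Complex.norm_real, Real.norm_eq_abs]

private theorem Ms_card (P m : ℕ) (hm : 1 ≤ m) : (((pb P).filter (fun p => p ∣ m)).card : ℝ) ≤ 2 * Real.log m := by
  have hsub : (pb P).filter (fun p => p ∣ m) ⊆ m.primeFactors := by
    intro p hp
    rw [Finset.mem_filter] at hp
    unfold pb at hp
    rw [Finset.mem_filter] at hp
    exact Nat.mem_primeFactors.2 ⟨hp.1.2, hp.2, by omega⟩
  have h1 : 2 ^ m.primeFactors.card ≤ m := by
    calc 2 ^ m.primeFactors.card = ∏ _p ∈ m.primeFactors, 2 := by rw [Finset.prod_const]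
      _ ≤ ∏ p ∈ m.primeFactors, p := Finset.prod_le_prod' fun p hp => (Nat.prime_of_mem_primeFactors hp).two_le
      _ ≤ m := Nat.le_of_dvd (by omega) (Nat.prod_primeFactors_dvd m)
  have h2 : 2 ^ ((pb P).filter (fun p => p ∣ m)).card ≤ m :=
    (Nat.pow_le_pow_right (by norm_num) (Finset.card_le_card hsub)).trans h1
  have h3 : (2 : ℝ) ^ ((pb P).filter (fun p => p ∣ m)).card ≤ m := by exact_mod_cast h2
  have h4 := Real.log_le_log (by positivity) h3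
  rw [Real.log_pow] at h4
  have h5 := Real.log_two_gt_d9
  have h6 : (0 : ℝ) ≤ (((pb P).filter (fun p => p ∣ m)).card : ℝ) := by positivity
  nlinarith

private theorem Ms_sum (f : ℕ → ℝ) (P K1 K2 X : ℕ) (M S : ℝ) (hM0 : 0 ≤ M)
    (hM : ∀ m ∈ Icc 1 X, (((pb P).filter (fun p => p ∣ m)).card : ℝ) ≤ M)
    (hS : ∑ k ∈ Ico 0 (0 + (K2 + 1)), cut K1 K2 f k ^ 2 ≤ S) :
    ∑ m ∈ Icc 1 X, |Fp (cut K1 K2 f) P m| ^ 2 ≤ M * (P * S) := by
  have h1 : ∀ m ∈ Icc 1 X, |Fp (cut K1 K2 f) P m| ^ 2 ≤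
      M * ∑ p ∈ (pb P).filter (fun p => p ∣ m), cut K1 K2 f (m / p) ^ 2 := by
    intro m hm
    rw [sq_abs]
    unfold Fp
    refine sq_sum_le_card_mul_sum_sq.trans ?_
    exact mul_le_mul_of_nonneg_right (hM m hm) (Finset.sum_nonneg fun _ _ => sq_nonneg _)
  refine (Finset.sum_le_sum h1).trans ?_
  rw [← Finset.mul_sum]
  refine mul_le_mul_of_nonneg_left ?_ hM0
  have hS0 : 0 ≤ S := (Finset.sum_nonneg fun _ _ => sq_nonneg _).trans hS
  have h2 : ∑ m ∈ Icc 1 X, ∑ p ∈ (pb P).filter (fun p => p ∣ m), cut K1 K2 f (m / p) ^ 2 =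
      ∑ p ∈ pb P, ∑ m ∈ (Icc 1 X).filter (fun m => p ∣ m), cut K1 K2 f (m / p) ^ 2 := by
    simp_rw [Finset.sum_filter]
    exact Finset.sum_comm
  rw [h2]
  have h3 : ∀ p ∈ pb P, ∑ m ∈ (Icc 1 X).filter (fun m => p ∣ m), cut K1 K2 f (m / p) ^ 2 ≤ S := by
    intro p _
    refine le_trans ?_ hS
    have hinj : Set.InjOn (fun m => m / p) (((Icc 1 X).filter (fun m => p ∣ m) : Finset ℕ) : Set ℕ) := by
      intro a ha b hb hab
      rw [Finset.mem_coe, Finset.mem_filter] at ha hb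
      have e : a / p = b / p := hab
      rw [← Nat.div_mul_cancel ha.2, ← Nat.div_mul_cancel hb.2, e]
    rw [← Finset.sum_image (f := fun k => cut K1 K2 f k ^ 2) (g := fun m => m / p) hinj]
    rw [← Finset.sum_filter_ne_zero]
    refine Finset.sum_le_sum_of_subset_of_nonneg ?_ fun _ _ _ => sq_nonneg _
    intro k hk
    rw [Finset.mem_filter] at hk
    rw [Finset.mem_Ico]
    refine ⟨Nat.zero_le _, ?_⟩
    by_contra hcon
    apply hk.2
    have : cut K1 K2 f k = 0 := by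
      unfold cut
      rw [if_neg]
      rw [Finset.mem_Ioc]
      omega
    simp [this]
  refine (Finset.sum_le_sum h3).trans ?_
  rw [Finset.sum_const, nsmul_eq_mul]
  refine mul_le_mul_of_nonneg_right ?_ hS0
  have h4 : (pb P).card ≤ P := by
    unfold pb
    refine (Finset.card_filter_le _ _).trans ?_
    rw [Nat.card_Ioc]
    omega
  exact_mod_cast h4

theorem ms (hVK : VKp) (hSW : SWp) (A' C' : ℕ) (e1 : ℝ) (he1 : 0 < e1) : ∃ C4 : ℕ, ∀ B : ℕ, C' ≤ B → ∃ N0 : ℕ,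
    ∀ N : ℕ, N0 ≤ N → ∀ (P K1 K2 X d b : ℕ) (T θ : ℝ), (N : ℝ) ^ e1 ≤ P → P ≤ N → 1 ≤ d → (d : ℝ) ≤ Real.log N ^ C' →
    |T| ≤ (N : ℝ) ^ 2 → (N : ℝ) ^ e1 ≤ K2 → K2 ≤ N → K2 * P ≤ 16 * N → 2 * P * K2 ≤ X → X ≤ 64 * N → 1 ≤ X →
    0 < θ → θ ≤ 1 → P * Real.log N ^ C4 ≤ θ * N →
    Integrable (fun u => ‖Dw (cc (cut K1 K2 (hR ⌊Real.log N ^ B⌋₊)) P ((b : ℝ) / d) T) X θ u‖ ^ 2) ∧
    ∫ u, ‖Dw (cc (cut K1 K2 (hR ⌊Real.log N ^ B⌋₊)) P ((b : ℝ) / d) T) X θ u‖ ^ 2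
      ≤ θ ^ 2 * (N : ℝ) ^ 2 / Real.log N ^ A' := by
  refine ⟨A' + 12, fun B hB => ?_⟩
  obtain ⟨N1, hN1⟩ := msc hVK hSW (A' + 1) C' e1 he1 B hB
  obtain ⟨N2, hN2⟩ := hsq B
  obtain ⟨N3, hN3⟩ := Filter.eventually_atTop.1 (Ms_asy (B * 4) e1 he1)
  refine ⟨max (max N1 N2) (max N3 64), fun N hN P K1 K2 X d b T θ hP1 hP2 hd1 hd2 hT hK1 hK2 hKP hPX hX1 hX2 hθ0 hθ1 hθ2 => ?_⟩
  have hNN1 : N1 ≤ N := (le_max_left _ _).trans ((le_max_left _ _).trans hN)
  have hNN2 : N2 ≤ N := (le_max_right _ _).trans ((le_max_left _ _).trans hN)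
  have hNN3 : N3 ≤ N := (le_max_left _ _).trans ((le_max_right _ _).trans hN)
  have hN64 : 64 ≤ N := (le_max_right _ _).trans ((le_max_right _ _).trans hN)
  have hN64' : (64 : ℝ) ≤ N := by exact_mod_cast hN64
  have hN0 : (0 : ℝ) < N := by linarith
  obtain ⟨L, hL⟩ : ∃ L, L = Real.log N := ⟨_, rfl⟩
  have hlog64 : Real.log 64 = 6 * Real.log 2 := by
    rw [show (64 : ℝ) = 2 ^ 6 by norm_num, Real.log_pow]
    norm_num
  have hlog2 := Real.log_two_gt_d9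
  have hL4 : 4 ≤ L := by
    rw [hL]
    have h1 := Real.log_le_log (by norm_num) hN64'
    linarith
  have hL0 : 0 < L := by linarith
  have hlogX : Real.log X ≤ 2 * L := by
    have h1 : (X : ℝ) ≤ N * N := by
      have h2 : (X : ℝ) ≤ 64 * N := by exact_mod_cast hX1
      nlinarith
    have h3 := Real.log_le_log (by exact_mod_cast hX2) h1
    rw [Real.log_mul hN0.ne' hN0.ne', ← hL] at h3
    linarith
  rw [← hL] at hd2 hθ2 ⊢
  set R : ℕ := ⌊L ^ B⌋₊ with hR'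
  have hRle : (R : ℝ) ≤ L ^ B := Nat.floor_le (by positivity)
  have hK0 : (1 : ℝ) ≤ K2 := by
    have h1 := hN3 N hNN3
    have h2 : 0 ≤ Real.log N ^ (B * 4) := by
      rw [← hL]
      positivity
    linarith
  have hRK : R ^ 4 + 2 ≤ K2 + 1 := by
    have h1 := hN3 N hNN3
    rw [← hL] at h1
    have h2 : (R : ℝ) ^ 4 ≤ L ^ (B * 4) := by
      rw [pow_mul]
      exact pow_le_pow_left₀ (by positivity) hRle 4
    have h3 : (R : ℝ) ^ 4 + 1 ≤ K2 := by linarith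
    have h4 : R ^ 4 + 1 ≤ K2 := by exact_mod_cast h3
    omega
  have hP0 : (1 : ℝ) ≤ P := by
    have h1 := hN3 N hNN3
    have h2 : 0 ≤ Real.log N ^ (B * 4) := by
      rw [← hL]
      positivity
    linarith
  have hSq : ∑ k ∈ Ico 0 (0 + (K2 + 1)), cut K1 K2 (hR R) k ^ 2 ≤ ((K2 + 1 : ℕ) : ℝ) * L ^ 4 := by
    have h1 := hN2 N hNN2 R (by rw [← hL]; exact hRle) K1 K2 0 (K2 + 1) hRK ?_
    · rw [← hL] at h1
      exact h1
    · have h2 : N * 64 ^ 3 ≤ N ^ 4 := by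
        calc N * 64 ^ 3 ≤ N * N ^ 3 := Nat.mul_le_mul_left _ (Nat.pow_le_pow_left hN64 3)
          _ = N ^ 4 := by ring
      omega
  obtain ⟨U, hU⟩ : ∃ U, U = L ^ (A' + 12) / θ := ⟨_, rfl⟩
  have hLC1 : 1 ≤ L ^ (A' + 12) := one_le_pow₀ (by linarith)
  have hU1 : 1 ≤ U := by
    rw [hU, le_div_iff₀ hθ0]
    linarith
  have hUP : U * P ≤ N := by
    rw [hU, div_mul_eq_mul_div, div_le_iff₀ hθ0]
    linarith
  have hU0 : 0 < U := by linarith
  have hθN : 1 ≤ θ * N := by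
    refine le_trans ?_ hθ2
    nlinarith
  have hmsc := hN1 N hNN1 P K1 K2 X d b T U hP1 hP2 hd1 (by rw [← hL]; exact hd2) hT hU1 hUP hK1 hK2 hKP hPX
  rw [← hL, ← hR'] at hmsc
  obtain ⟨hI, hplw⟩ := plw (cc (cut K1 K2 (hR R)) P ((b : ℝ) / d) T) X θ U hX2 hθ0 hU0
  refine ⟨hI, hplw.trans ?_⟩
  have hsum : ∑ m ∈ Icc 1 X, ‖cc (cut K1 K2 (hR R)) P ((b : ℝ) / d) T m‖ ^ 2 ≤ 128 * N * L ^ 5 := by
    simp_rw [Ms_cc]
    have h1 := Ms_sum (hR R) P K1 K2 X (4 * L) (((K2 + 1 : ℕ) : ℝ) * L ^ 4) (by positivity) ?_ hSq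
    · refine h1.trans ?_
      have h2 : (K2 : ℝ) * P ≤ 16 * N := by exact_mod_cast hKP
      push_cast
      have h3 : (P : ℝ) * ((K2 : ℝ) + 1) ≤ 32 * N := by nlinarith
      calc 4 * L * ((P : ℝ) * (((K2 : ℝ) + 1) * L ^ 4)) = (P * (K2 + 1)) * (4 * L ^ 5) := by ring
        _ ≤ (32 * N) * (4 * L ^ 5) := mul_le_mul_of_nonneg_right h3 (by positivity)
        _ = 128 * N * L ^ 5 := by ring
    · intro m hm
      rw [Finset.mem_Icc] at hm
      refine (Ms_card P m hm.1).trans ?_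
      have h2 : Real.log m ≤ Real.log X :=
        Real.log_le_log (by exact_mod_cast hm.1) (by exact_mod_cast hm.2)
      linarith
  have hX0 : (X : ℝ) ≤ 64 * N := by exact_mod_cast hX1
  have hlogX0 : 0 ≤ Real.log X := Real.log_natCast_nonneg X
  have hfac : 4 / U + 4 * X * (1 + Real.log X) / U ^ 2 ≤
      4 * θ / L ^ (A' + 12) + 768 * N * L * θ ^ 2 / (L ^ (A' + 12)) ^ 2 := by
    refine add_le_add (le_of_eq ?_) ?_
    · rw [hU]
      field_simp
    · rw [hU, div_pow, div_div_eq_mul_div]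
      apply div_le_div_of_nonneg_right _ (by positivity)
      apply mul_le_mul_of_nonneg_right _ (by positivity)
      have h1 : 1 + Real.log X ≤ 3 * L := by linarith
      calc 4 * (X : ℝ) * (1 + Real.log X) ≤ 4 * (64 * N) * (3 * L) := by
            apply mul_le_mul (by linarith) h1 (by linarith) (by positivity)
        _ = 768 * N * L := by ring
  have hfirst : θ ^ 2 * (∫ t in Set.Icc (-U) U, ‖Cs (cc (cut K1 K2 (hR R)) P ((b : ℝ) / d) T) X t‖ ^ 2) ≤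
      (1 / 4) * (θ ^ 2 * (N : ℝ) ^ 2 / L ^ A') := by
    refine (mul_le_mul_of_nonneg_left hmsc (by positivity)).trans ?_
    have e0 : θ ^ 2 * ((N : ℝ) ^ 2 / L ^ (A' + 1)) = (θ ^ 2 * (N : ℝ) ^ 2 / L ^ A') * (1 / L) := by
      rw [pow_succ L A']
      field_simp
    rw [e0, mul_comm]
    have h1 : 0 ≤ θ ^ 2 * (N : ℝ) ^ 2 / L ^ A' := by positivity
    refine mul_le_mul_of_nonneg_right ?_ h1
    exact one_div_le_one_div_of_le (by norm_num) hL4
  have hsecond : (4 / U + 4 * X * (1 + Real.log X) / U ^ 2) *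
      ∑ m ∈ Icc 1 X, ‖cc (cut K1 K2 (hR R)) P ((b : ℝ) / d) T m‖ ^ 2 ≤
      (1 / 2) * (θ ^ 2 * (N : ℝ) ^ 2 / L ^ A') := by
    have h0 : 0 ≤ ∑ m ∈ Icc 1 X, ‖cc (cut K1 K2 (hR R)) P ((b : ℝ) / d) T m‖ ^ 2 :=
      Finset.sum_nonneg fun _ _ => by positivity
    refine (mul_le_mul hfac hsum h0 (by positivity)).trans ?_
    have e1 : (4 * θ / L ^ (A' + 12) + 768 * N * L * θ ^ 2 / (L ^ (A' + 12)) ^ 2) * (128 * N * L ^ 5) =
        (θ * N / L ^ A') * (512 / L ^ 7) + (θ ^ 2 * (N : ℝ) ^ 2 / L ^ A') * (98304 / L ^ (A' + 18)) := by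
      rw [add_mul]
      congr 1
      · rw [div_mul_eq_mul_div, div_mul_div_comm, div_eq_div_iff (by positivity) (by positivity)]
        ring
      · rw [div_mul_eq_mul_div, div_mul_div_comm, div_eq_div_iff (by positivity) (by positivity)]
        ring
    rw [e1]
    have h2 : θ * N / L ^ A' ≤ θ ^ 2 * (N : ℝ) ^ 2 / L ^ A' := by
      apply div_le_div_of_nonneg_right _ (by positivity)
      nlinarith
    have h3 : 512 / L ^ 7 ≤ 1 / 32 := by
      rw [div_le_div_iff₀ (by positivity) (by norm_num)]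
      have h4 : (4 : ℝ) ^ 7 ≤ L ^ 7 := pow_le_pow_left₀ (by norm_num) hL4 7
      norm_num at h4 ⊢
      linarith
    have h5 : 98304 / L ^ (A' + 18) ≤ 1 / 32 := by
      rw [div_le_div_iff₀ (by positivity) (by norm_num)]
      have h4 : (4 : ℝ) ^ 18 ≤ L ^ 18 := pow_le_pow_left₀ (by norm_num) hL4 18
      have h6 : L ^ 18 ≤ L ^ (A' + 18) := pow_le_pow_right₀ (by linarith) (by omega)
      norm_num at h4 ⊢
      linarith
    have hq : 0 ≤ θ ^ 2 * (N : ℝ) ^ 2 / L ^ A' := by positivity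
    have hq2 : 0 ≤ θ * N / L ^ A' := by positivity
    have h7 : θ * N / L ^ A' * (512 / L ^ 7) ≤ (θ ^ 2 * (N : ℝ) ^ 2 / L ^ A') * (1 / 32) :=
      mul_le_mul h2 h3 (by positivity) hq
    have h8 : (θ ^ 2 * (N : ℝ) ^ 2 / L ^ A') * (98304 / L ^ (A' + 18)) ≤ (θ ^ 2 * (N : ℝ) ^ 2 / L ^ A') * (1 / 32) :=
      mul_le_mul_of_nonneg_left h5 hq
    linarith
  have hq : 0 ≤ θ ^ 2 * (N : ℝ) ^ 2 / L ^ A' := by positivity
  linarith

end Pool.Agent.H53.MID

end
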