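import Pool.Agent.H43.PM.M08

/-! The parts of this file: H53.MID.BaseA, H53.MID.Base. -/

section

/-!
# MID BaseA: a bad block has many good primes

`w = ⌊H/(P L^(A+5))⌋`, cells `[c w, c w + w)`.
Proof.  `Bs (Fp f P) H i α = ∑_{p ∈ pb P} In p`, `In p = ∑_{k : i H ≤ k p < (i+1) H} f(k) ee(-k p α)` (`m = k p`), `k ∈ Ico a b`,
`a = ⌈iH/p⌉`, `b = ⌈(i+1)H/p⌉`, `H/p - 1 ≤ b - a ≤ H/p + 1`, so `w0 ≤ b - a ≤ 2H/P`.
Cauchy-Schwarz and `SqB`: `‖In p‖ ≤ (b - a) L^2 ≤ 2 H L^2/P`.  With `ν = H/(2 P L^A)` and `G = {p : ‖In p‖ ≥ ν}`: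
`H/L^A ≤ |G| 2 H L^2/P + P ν` (`|pb P| ≤ P`), so `|G| ≥ P/(4 L^(A+2))`.
For `p ∈ G`: `w ≥ H/(2 P L^(A+5))` (as `H/(P L^(A+5)) ≥ 2 w0 ≥ 2`), `w ≥ w0`.  Split `Ico a b` into cells: full cells `c` with `a ≤ c w`, `c w + w ≤ b`, and at most two partial cells, whose
contribution is `≤ 2 w L^2 ≤ 2 H/(P L^(A+3)) ≤ ν/2` (Cauchy-Schwarz and `SqB` on the whole cell, which is inside `[0, X)`; `L ≥ 100`).
The number of full cells is `≤ (b-a)/w ≤ 4 L^(A+5)`, so one of them has `‖∑_cell‖ ≥ (ν/2)/(4 L^(A+5)) = H/(16 P L^(2A+5)) ≥ w/(16 L^A)`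
(`w ≤ H/(P L^(A+5))`).  `a ≤ c w` and `c w < b` give `i H ≤ c w p < (i+1) H`.
-/

set_option autoImplicit false

namespace Pool.Agent.H53.MID

open Finset
open Pool.Agent.H91.PK (ee)
open Pool.Agent.H35.W (pb)

/-- the length of the cells -/
noncomputable def cw (H P A : ℕ) (L : ℝ) : ℕ := ⌊(H : ℝ) / (P * L ^ (A + 5))⌋₊

private theorem BaseA_norm_ee (t : ℝ) : ‖ee t‖ = 1 := by
  unfold ee
  have h : (2 * Real.pi * t * Complex.I : ℂ) = ((2 * Real.pi * t : ℝ) : ℂ) * Complex.I := by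
    push_cast
    ring
  rw [h, Complex.norm_exp_ofReal_mul_I]

/-- the least `k` with `x ≤ k p` -/
private def BaseA_cl (x p : ℕ) : ℕ := (x + p - 1) / p

private theorem BaseA_cl_le {x p : ℕ} (hp : 0 < p) (k : ℕ) : BaseA_cl x p ≤ k ↔ x ≤ k * p := by
  unfold BaseA_cl
  rw [Nat.div_le_iff_le_mul_add_pred hp]
  rw [mul_comm p k]
  omega

private theorem BaseA_lt_cl {x p : ℕ} (hp : 0 < p) (k : ℕ) : k < BaseA_cl x p ↔ k * p < x := by
  have h := BaseA_cl_le (x := x) hp k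
  omega

private theorem BaseA_cl_mul {x p : ℕ} (hp : 0 < p) :
    x ≤ BaseA_cl x p * p ∧ BaseA_cl x p * p ≤ x + p - 1 :=
  ⟨(BaseA_cl_le hp _).1 le_rfl, Nat.div_mul_le_self _ _⟩

private theorem BaseA_split (f : ℕ → ℝ) (H P i : ℕ) (α : ℝ) :
    Bs (Fp f P) H i α = ∑ p ∈ pb P, ∑ k ∈ Ico (BaseA_cl (i * H) p) (BaseA_cl ((i + 1) * H) p),
      (f k : ℂ) * ee (-(k * (p * α))) := by
  unfold Bs Fp
  have h1 : ∀ m ∈ Ico (i * H) ((i + 1) * H),
      (((∑ p ∈ (pb P).filter (fun p => p ∣ m), f (m / p) : ℝ)) : ℂ) * ee (-(m * α)) =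
        ∑ p ∈ pb P, if p ∣ m then (f (m / p) : ℂ) * ee (-(m * α)) else 0 := by
    intro m _
    push_cast
    rw [Finset.sum_mul, Finset.sum_filter]
  rw [Finset.sum_congr rfl h1, Finset.sum_comm]
  refine Finset.sum_congr rfl fun p hp => ?_
  have hp0 : 0 < p := by
    unfold pb at hp
    exact (Finset.mem_filter.1 hp).2.pos
  rw [← Finset.sum_filter]
  refine Finset.sum_bij' (fun m _ => m / p) (fun k _ => k * p) ?_ ?_ ?_ ?_ ?_
  · intro m hm
    rw [Finset.mem_filter, Finset.mem_Ico] at hm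
    obtain ⟨⟨h1, h2⟩, k, rfl⟩ := hm
    rw [Nat.mul_div_cancel_left _ hp0, Finset.mem_Ico, BaseA_cl_le hp0, BaseA_lt_cl hp0, mul_comm k p]
    exact ⟨h1, h2⟩
  · intro k hk
    rw [Finset.mem_Ico, BaseA_cl_le hp0, BaseA_lt_cl hp0] at hk
    rw [Finset.mem_filter, Finset.mem_Ico]
    exact ⟨hk, Dvd.intro_left k rfl⟩
  · intro m hm
    exact Nat.div_mul_cancel (Finset.mem_filter.1 hm).2
  · intro k _
    exact Nat.mul_div_cancel _ hp0
  · intro m hm
    obtain ⟨k, rfl⟩ := (Finset.mem_filter.1 hm).2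
    rw [Nat.mul_div_cancel_left _ hp0]
    congr 2
    push_cast
    ring

/-- Cauchy-Schwarz on a piece of an interval. -/
private theorem BaseA_CS {f : ℕ → ℝ} {w0 X : ℕ} {L : ℝ} (hf : SqB f w0 X L) {u v w : ℕ}
    (hw : w0 ≤ w) (hv : v ≤ u + w) (hX : u + w ≤ X) (β : ℝ) :
    ‖∑ k ∈ Ico u v, (f k : ℂ) * ee (-(k * β))‖ ≤ w * L ^ 2 := by
  have h1 : ‖∑ k ∈ Ico u v, (f k : ℂ) * ee (-(k * β))‖ ≤ ∑ k ∈ Ico u v, |f k| := by
    refine (norm_sum_le _ _).trans (Finset.sum_le_sum fun k _ => ?_)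
    rw [norm_mul, BaseA_norm_ee, mul_one, Complex.norm_real, Real.norm_eq_abs]
  have hL2 : 0 ≤ L ^ 2 := sq_nonneg L
  have hw0 : (0 : ℝ) ≤ w := Nat.cast_nonneg w
  refine h1.trans ?_
  have h2 : (∑ k ∈ Ico u v, |f k|) ^ 2 ≤ (w * L ^ 2) ^ 2 := by
    have h3 : (∑ k ∈ Ico u v, |f k|) ^ 2 ≤ ((Ico u v).card : ℝ) * ∑ k ∈ Ico u v, |f k| ^ 2 :=
      sq_sum_le_card_mul_sum_sq
    have h4 : ((Ico u v).card : ℝ) ≤ w := by
      rw [Nat.card_Ico]
      have : v - u ≤ w := by omega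
      exact_mod_cast this
    have h5 : ∑ k ∈ Ico u v, |f k| ^ 2 ≤ w * L ^ 4 := by
      refine le_trans ?_ (hf u w hw hX)
      simp only [sq_abs]
      refine Finset.sum_le_sum_of_subset_of_nonneg ?_ fun k _ _ => sq_nonneg _
      intro k hk
      rw [Finset.mem_Ico] at hk ⊢
      omega
    calc (∑ k ∈ Ico u v, |f k|) ^ 2 ≤ ((Ico u v).card : ℝ) * ∑ k ∈ Ico u v, |f k| ^ 2 := h3
      _ ≤ w * (w * L ^ 4) := mul_le_mul h4 h5 (Finset.sum_nonneg fun k _ => sq_nonneg _) hw0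
      _ = (w * L ^ 2) ^ 2 := by ring
  exact (pow_le_pow_iff_left₀ (Finset.sum_nonneg fun k _ => abs_nonneg _) (by positivity)
    two_ne_zero).1 h2

private theorem BaseA_cells (g : ℕ → ℂ) (w c0 n : ℕ) :
    ∑ k ∈ Ico (c0 * w) ((c0 + n) * w), g k =
      ∑ j ∈ range n, ∑ k ∈ Ico ((c0 + j) * w) ((c0 + j) * w + w), g k := by
  induction n with
  | zero => simp
  | succ n ih =>
    rw [Finset.sum_range_succ, ← ih]
    have h1 : (c0 + (n + 1)) * w = (c0 + n) * w + w := by ring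
    rw [h1, Finset.sum_Ico_consecutive _ (Nat.mul_le_mul_right w (Nat.le_add_right c0 n))
      (Nat.le_add_right _ _)]

/-- the numerical facts for one prime -/
private theorem BaseA_num {L : ℝ} {A H P w0 X i p : ℕ} (hL : 100 ≤ L) (hw0 : 1 ≤ w0) (hP : 1 ≤ P)
    (hH : 2 * w0 * P * L ^ (A + 5) ≤ H) (hX : 4 * (i + 1) * H ≤ X) (hp1 : P < p) (hp2 : p ≤ 2 * P) :
    (((BaseA_cl ((i + 1) * H) p : ℝ) - BaseA_cl (i * H) p) * P ≤ 2 * H) ∧
    w0 ≤ cw H P A L ∧ (cw H P A L : ℝ) * P * L ^ (A + 5) ≤ H ∧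
    BaseA_cl (i * H) p + 2 * cw H P A L ≤ BaseA_cl ((i + 1) * H) p ∧
    BaseA_cl ((i + 1) * H) p + cw H P A L ≤ X := by
  have hP0 : (0 : ℝ) < P := by exact_mod_cast hP
  have hL0 : 0 < L := by linarith
  have hp0 : 0 < p := by omega
  have hLA : 1 ≤ L ^ A := one_le_pow₀ (by linarith)
  have hL5 : (10000 : ℝ) ≤ L ^ 5 := by
    calc (10000 : ℝ) ≤ 100 ^ 5 := by norm_num
      _ ≤ L ^ 5 := pow_le_pow_left₀ (by norm_num) hL 5
  have hLA5 : (10000 : ℝ) ≤ L ^ (A + 5) := by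
    rw [pow_add]
    nlinarith
  have hw0' : (1 : ℝ) ≤ w0 := by exact_mod_cast hw0
  -- `w`
  have hx : (2 * w0 : ℝ) ≤ H / (P * L ^ (A + 5)) := by
    rw [le_div_iff₀ (by positivity)]
    calc (2 * w0 : ℝ) * (P * L ^ (A + 5)) = 2 * w0 * P * L ^ (A + 5) := by ring
      _ ≤ H := hH
  have hw1 : 2 * w0 ≤ cw H P A L := by
    unfold cw
    apply Nat.le_floor
    push_cast
    exact hx
  have hw2 : (cw H P A L : ℝ) * P * L ^ (A + 5) ≤ H := by
    have h1 : (cw H P A L : ℝ) ≤ H / (P * L ^ (A + 5)) := Nat.floor_le (by positivity)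
    rw [le_div_iff₀ (by positivity)] at h1
    linarith
  generalize cw H P A L = w at hw1 hw2
  obtain ⟨a1, a2⟩ := BaseA_cl_mul (x := i * H) hp0
  obtain ⟨b1, b2⟩ := BaseA_cl_mul (x := (i + 1) * H) hp0
  have hmono : BaseA_cl (i * H) p ≤ BaseA_cl ((i + 1) * H) p := by
    rw [BaseA_cl_le hp0]
    refine le_trans ?_ b1
    exact Nat.mul_le_mul_right H (Nat.le_succ i)
  have hbX : BaseA_cl ((i + 1) * H) p ≤ (i + 1) * H := by
    rw [BaseA_cl_le hp0]
    exact Nat.le_mul_of_pos_right _ hp0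
  generalize BaseA_cl (i * H) p = a at a1 a2 hmono
  generalize BaseA_cl ((i + 1) * H) p = b at b1 b2 hmono hbX
  have e1 : (i + 1) * H = i * H + H := by ring
  rw [e1] at b1 b2
  have hmono' : (a : ℝ) ≤ b := by exact_mod_cast hmono
  have pR : (P : ℝ) ≤ p := by exact_mod_cast hp1.le
  have pR2 : (p : ℝ) ≤ 2 * P := by exact_mod_cast hp2
  have a1' : (i : ℝ) * H ≤ a * p := by exact_mod_cast a1
  have a2' : (a : ℝ) * p ≤ i * H + p := by
    have : a * p ≤ i * H + p := by omega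
    exact_mod_cast this
  have b1' : (i : ℝ) * H + H ≤ b * p := by exact_mod_cast b1
  have b2' : (b : ℝ) * p ≤ i * H + H + p := by
    have : b * p ≤ i * H + H + p := by omega
    exact_mod_cast this
  have hPH : 20000 * (P : ℝ) ≤ H := by
    have h1 : (P : ℝ) * 10000 ≤ P * L ^ (A + 5) := mul_le_mul_of_nonneg_left hLA5 hP0.le
    have h2 : 2 * (P * L ^ (A + 5)) ≤ 2 * w0 * (P * L ^ (A + 5)) := by
      have : 0 ≤ (P : ℝ) * L ^ (A + 5) := by positivity
      nlinarith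
    linarith
  have hwH : 10000 * ((w : ℝ) * P) ≤ H := by
    have h1 : (w : ℝ) * P * 10000 ≤ w * P * L ^ (A + 5) :=
      mul_le_mul_of_nonneg_left hLA5 (by positivity)
    linarith
  refine ⟨?_, by omega, hw2, ?_, ?_⟩
  · have h1 : ((b : ℝ) - a) * P ≤ (b - a) * p := mul_le_mul_of_nonneg_left pR (by linarith)
    have h2 : ((b : ℝ) - a) * p ≤ H + p := by linarith
    linarith
  · have h1 : ((b : ℝ) - a) * p ≤ (b - a) * (2 * P) := mul_le_mul_of_nonneg_left pR2 (by linarith)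
    have h2 : (H : ℝ) - p ≤ (b - a) * p := by linarith
    have h3 : (2 * (w : ℝ)) * (2 * P) ≤ (b - a) * (2 * P) := by linarith
    have h4 : (2 * (w : ℝ)) ≤ b - a := le_of_mul_le_mul_right h3 (by linarith)
    have h5 : (a : ℝ) + 2 * w ≤ b := by linarith
    exact_mod_cast h5
  · have h1 : w ≤ H := by
      have h2 : (w : ℝ) ≤ w * P := by
        have : (1 : ℝ) ≤ P := by exact_mod_cast hP
        have h3 : (0 : ℝ) ≤ w := Nat.cast_nonneg w
        nlinarith
      have h3 : (0 : ℝ) ≤ w * P := by positivity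
      have h4 : (w : ℝ) ≤ H := by linarith
      exact_mod_cast h4
    have h2 : H ≤ (i + 1) * H := Nat.le_mul_of_pos_left H (Nat.succ_pos i)
    have h3 : 4 * (i + 1) * H = 4 * ((i + 1) * H) := by ring
    omega

/-- a cell with a large sum -/
private theorem BaseA_cell {L : ℝ} {A H P w0 X i p : ℕ} {f : ℕ → ℝ} (α : ℝ) (hL : 100 ≤ L)
    (hw0 : 1 ≤ w0) (hP : 1 ≤ P)
    (hH : 2 * w0 * P * L ^ (A + 5) ≤ H) (hf : SqB f w0 X L) (hX : 4 * (i + 1) * H ≤ X)
    (hp1 : P < p) (hp2 : p ≤ 2 * P)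
    (hbig : (H : ℝ) ≤ 2 * (P * L ^ A) * ‖∑ k ∈ Ico (BaseA_cl (i * H) p) (BaseA_cl ((i + 1) * H) p),
      (f k : ℂ) * ee (-(k * (p * α)))‖) :
    ∃ c : ℕ, i * H ≤ c * cw H P A L * p ∧
      c * cw H P A L * p < (i + 1) * H ∧ (cw H P A L : ℝ) / (16 * L ^ A) ≤
        ‖∑ k ∈ Ico (c * cw H P A L) (c * cw H P A L + cw H P A L), (f k : ℂ) * ee (-(k * (p * α)))‖ := by
  obtain ⟨n1, n2, n3, n4, n5⟩ := BaseA_num hL hw0 hP hH hX hp1 hp2
  have hp0 : 0 < p := by omega
  have hP0 : (0 : ℝ) < P := by exact_mod_cast hP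
  have hL0 : 0 < L := by linarith
  by_contra hcon
  have hcell : ∀ c : ℕ, BaseA_cl (i * H) p ≤ c * cw H P A L →
      c * cw H P A L < BaseA_cl ((i + 1) * H) p →
      ‖∑ k ∈ Ico (c * cw H P A L) (c * cw H P A L + cw H P A L),
        (f k : ℂ) * ee (-(k * (p * α)))‖ ≤ (cw H P A L : ℝ) / (16 * L ^ A) := by
    intro c h1 h2
    by_contra hc
    exact hcon ⟨c, (BaseA_cl_le hp0 _).1 h1, (BaseA_lt_cl hp0 _).1 h2, (not_le.1 hc).le⟩
  generalize cw H P A L = w at n2 n3 n4 n5 hcell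
  generalize BaseA_cl (i * H) p = a at n1 n4 hbig hcell
  generalize BaseA_cl ((i + 1) * H) p = b at n1 n4 n5 hbig hcell
  have hw1 : 0 < w := by omega
  obtain ⟨c1, c2⟩ := BaseA_cl_mul (x := a) hw1
  set c0 := BaseA_cl a w with hc0
  set n := b / w - c0 with hn
  have c3 : b / w * w ≤ b := Nat.div_mul_le_self b w
  have c4 : b < b / w * w + w := by
    have := Nat.lt_div_mul_add hw1 (a := b)
    omega
  have c5 : c0 ≤ b / w := by
    have h1 : c0 * w < b / w * w := by omega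
    exact (lt_of_mul_lt_mul_right h1 (Nat.zero_le w)).le
  have c6 : c0 + n = b / w := by omega
  set g : ℕ → ℂ := fun k => (f k : ℂ) * ee (-(k * (p * α))) with hg
  have s0 : ∑ k ∈ Ico a b, g k = ∑ k ∈ Ico a (c0 * w), g k +
      ∑ k ∈ Ico (c0 * w) ((c0 + n) * w), g k + ∑ k ∈ Ico ((c0 + n) * w) b, g k := by
    rw [c6, Finset.sum_Ico_consecutive _ c1 (Nat.mul_le_mul_right w c5),
      Finset.sum_Ico_consecutive _ (c1.trans (Nat.mul_le_mul_right w c5)) c3]
  have s1 : ‖∑ k ∈ Ico a (c0 * w), g k‖ ≤ w * L ^ 2 :=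
    BaseA_CS hf n2 (by omega) (by omega) (p * α)
  have s3 : ‖∑ k ∈ Ico ((c0 + n) * w) b, g k‖ ≤ w * L ^ 2 := by
    rw [c6]
    exact BaseA_CS hf n2 (by omega) (by omega) (p * α)
  have s2 : ‖∑ k ∈ Ico (c0 * w) ((c0 + n) * w), g k‖ ≤ n * ((w : ℝ) / (16 * L ^ A)) := by
    rw [BaseA_cells]
    refine (norm_sum_le _ _).trans ?_
    calc ∑ j ∈ range n, ‖∑ k ∈ Ico ((c0 + j) * w) ((c0 + j) * w + w), g k‖
        ≤ ∑ _j ∈ range n, ((w : ℝ) / (16 * L ^ A)) := by
          refine Finset.sum_le_sum fun j hj => ?_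
          rw [Finset.mem_range] at hj
          refine hcell (c0 + j) ?_ ?_
          · exact c1.trans (Nat.mul_le_mul_right w (Nat.le_add_right c0 j))
          · have h1 : (c0 + j) * w < (b / w) * w := by
              refine Nat.mul_lt_mul_of_pos_right ?_ hw1
              omega
            omega
      _ = _ := by rw [Finset.sum_const, nsmul_eq_mul, Finset.card_range]
  have s4 : ‖∑ k ∈ Ico a b, g k‖ ≤ 2 * (w * L ^ 2) + n * ((w : ℝ) / (16 * L ^ A)) := by
    rw [s0]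
    calc _ ≤ w * L ^ 2 + n * ((w : ℝ) / (16 * L ^ A)) + w * L ^ 2 :=
          (norm_add_le _ _).trans (add_le_add ((norm_add_le _ _).trans (add_le_add s1 s2)) s3)
      _ = _ := by ring
  have t1 : (n : ℝ) * w ≤ b - a := by
    have h1 : n * w + a ≤ b := by
      have h2 : n * w + c0 * w = b / w * w := by rw [← Nat.add_mul, add_comm n c0, c6]
      omega
    have h2 : (n : ℝ) * w + a ≤ b := by exact_mod_cast h1
    linarith
  have t2 : 2 * (P * L ^ A) * (n * ((w : ℝ) / (16 * L ^ A))) ≤ H / 4 := by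
    have h1 : 2 * (P * L ^ A) * (n * ((w : ℝ) / (16 * L ^ A))) = (n * w) * P / 8 := by
      field_simp
      ring
    rw [h1]
    have h2 : (n : ℝ) * w * P ≤ (b - a) * P := mul_le_mul_of_nonneg_right t1 hP0.le
    linarith
  have t3 : 2 * (P * L ^ A) * (2 * (w * L ^ 2)) ≤ H / 4 := by
    have h1 : (w : ℝ) * P * L ^ (A + 5) = (w * P * L ^ A * L ^ 2) * L ^ 3 := by ring
    have h2 : (1000000 : ℝ) ≤ L ^ 3 := by
      calc (1000000 : ℝ) = 100 ^ 3 := by norm_num
        _ ≤ L ^ 3 := pow_le_pow_left₀ (by norm_num) hL 3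
    have h3 : (w * P * L ^ A * L ^ 2) * 1000000 ≤ (w * P * L ^ A * L ^ 2) * L ^ 3 :=
      mul_le_mul_of_nonneg_left h2 (by positivity)
    have h4 : 0 ≤ (w : ℝ) * P * L ^ A * L ^ 2 := by positivity
    have h5 : 2 * (P * L ^ A) * (2 * (w * L ^ 2)) = 4 * (w * P * L ^ A * L ^ 2) := by ring
    rw [h5]
    linarith
  have t4 : (H : ℝ) ≤ H / 4 + H / 4 := by
    have h1 : 2 * (P * L ^ A) * ‖∑ k ∈ Ico a b, g k‖ ≤
        2 * (P * L ^ A) * (2 * (w * L ^ 2) + n * ((w : ℝ) / (16 * L ^ A))) :=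
      mul_le_mul_of_nonneg_left s4 (by positivity)
    rw [mul_add] at h1
    linarith
  have t5 : (0 : ℝ) < H := by
    have : (0 : ℝ) < 2 * w0 * P * L ^ (A + 5) := by
      have : (1 : ℝ) ≤ w0 := by exact_mod_cast hw0
      positivity
    linarith
  linarith

open Classical in
theorem base_a (L : ℝ) (A H P w0 X i : ℕ) (f : ℕ → ℝ) (α : ℝ) (hL : 100 ≤ L) (hw0 : 1 ≤ w0) (hP : 1 ≤ P)
    (hH : 2 * w0 * P * L ^ (A + 5) ≤ H) (hf : SqB f w0 X L) (hX : 4 * (i + 1) * H ≤ X)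
    (hbig : H / L ^ A ≤ ‖Bs (Fp f P) H i α‖) :
    P / (4 * L ^ (A + 2)) ≤ (((pb P).filter (fun p : ℕ => ∃ c : ℕ, i * H ≤ c * cw H P A L * p ∧
      c * cw H P A L * p < (i + 1) * H ∧ (cw H P A L : ℝ) / (16 * L ^ A) ≤
        ‖∑ k ∈ Ico (c * cw H P A L) (c * cw H P A L + cw H P A L), (f k : ℂ) * ee (-(k * (p * α)))‖)).card : ℝ) := by
  have hP0 : (0 : ℝ) < P := by exact_mod_cast hP
  have hL0 : 0 < L := by linarith
  set G := (pb P).filter (fun p : ℕ => ∃ c : ℕ, i * H ≤ c * cw H P A L * p ∧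
      c * cw H P A L * p < (i + 1) * H ∧ (cw H P A L : ℝ) / (16 * L ^ A) ≤
        ‖∑ k ∈ Ico (c * cw H P A L) (c * cw H P A L + cw H P A L), (f k : ℂ) * ee (-(k * (p * α)))‖)
    with hG
  rw [BaseA_split] at hbig
  have hH0 : (0 : ℝ) < H := by
    have h1 : (0 : ℝ) < 2 * w0 * P * L ^ (A + 5) := by
      have : (1 : ℝ) ≤ w0 := by exact_mod_cast hw0
      positivity
    linarith
  have hterm : ∀ p ∈ pb P, ‖∑ k ∈ Ico (BaseA_cl (i * H) p) (BaseA_cl ((i + 1) * H) p),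
      (f k : ℂ) * ee (-(k * (p * α)))‖ ≤ (if p ∈ G then 2 * H * L ^ 2 / P else 0) +
        H / (2 * (P * L ^ A)) := by
    intro p hp
    have hp' := hp
    unfold pb at hp'
    rw [Finset.mem_filter, Finset.mem_Ioc] at hp'
    obtain ⟨⟨hp1, hp2⟩, _⟩ := hp'
    have hν : 0 ≤ (H : ℝ) / (2 * (P * L ^ A)) := by positivity
    split_ifs with hpG
    · obtain ⟨n1, n2, n3, n4, n5⟩ := BaseA_num hL hw0 hP hH hX hp1 hp2
      have h1 := BaseA_CS hf (u := BaseA_cl (i * H) p) (v := BaseA_cl ((i + 1) * H) p)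
        (w := BaseA_cl ((i + 1) * H) p - BaseA_cl (i * H) p) (by omega) (by omega) (by omega) (p * α)
      have h2 : ((BaseA_cl ((i + 1) * H) p - BaseA_cl (i * H) p : ℕ) : ℝ) * L ^ 2 ≤
          2 * H * L ^ 2 / P := by
        rw [Nat.cast_sub (by omega), le_div_iff₀ hP0]
        calc ((BaseA_cl ((i + 1) * H) p : ℝ) - BaseA_cl (i * H) p) * L ^ 2 * P =
            (((BaseA_cl ((i + 1) * H) p : ℝ) - BaseA_cl (i * H) p) * P) * L ^ 2 := by ring
          _ ≤ 2 * H * L ^ 2 := mul_le_mul_of_nonneg_right n1 (by positivity)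
      linarith
    · rw [zero_add, le_div_iff₀ (by positivity)]
      by_contra hc
      apply hpG
      rw [hG, Finset.mem_filter]
      refine ⟨hp, BaseA_cell α hL hw0 hP hH hf hX hp1 hp2 ?_⟩
      have := (not_le.1 hc).le
      linarith
  have hsum : (H : ℝ) / L ^ A ≤ G.card * (2 * H * L ^ 2 / P) + P * (H / (2 * (P * L ^ A))) := by
    refine hbig.trans ((norm_sum_le _ _).trans ((Finset.sum_le_sum hterm).trans ?_))
    rw [Finset.sum_add_distrib]
    refine add_le_add (le_of_eq ?_) ?_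
    · rw [← Finset.sum_filter, Finset.sum_const, nsmul_eq_mul]
      congr 2
      congr 1
      ext p
      rw [Finset.mem_filter]
      exact ⟨fun h => h.2, fun h => ⟨(Finset.mem_filter.1 h).1, h⟩⟩
    · rw [Finset.sum_const, nsmul_eq_mul]
      refine mul_le_mul_of_nonneg_right ?_ (by positivity)
      unfold pb
      have h1 := Finset.card_filter_le (Ioc P (2 * P)) Nat.Prime
      rw [Nat.card_Ioc] at h1
      have h2 : ((Ioc P (2 * P)).filter Nat.Prime).card ≤ P := by omega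
      exact_mod_cast h2
  have e1 : (P : ℝ) * (H / (2 * (P * L ^ A))) = (H / L ^ A) / 2 := by
    field_simp
  rw [e1] at hsum
  have e2 : (H / L ^ A) / 2 ≤ G.card * (2 * H * L ^ 2 / P) := by linarith
  rw [div_le_iff₀ (by positivity)]
  have e3 : (H / L ^ A) / 2 * (2 * P * L ^ A / H) ≤
      G.card * (2 * H * L ^ 2 / P) * (2 * P * L ^ A / H) :=
    mul_le_mul_of_nonneg_right e2 (by positivity)
  have e4 : (H / L ^ A) / 2 * (2 * P * L ^ A / H) = P := by
    field_simp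
  have e5 : G.card * (2 * H * L ^ 2 / P) * (2 * P * L ^ A / H) = G.card * (4 * L ^ (A + 2)) := by
    rw [pow_add]
    field_simp
    ring
  rw [e4, e5] at e3
  exact e3

end Pool.Agent.H53.MID

end

section

/-!
# MID Base: the base relation

Proof.  `w = cw H P A L`; `w ≥ H/(2 P L^(A+5))`, `w ≥ w0 ≥ 1`.  For every cell `c` with `(c+1) w ≤ X` let `Γ c` be the net of `net` with `u = c w`, `ν = w/(16 L^A)`, `S = w L^4`:
`|Γ c| ≤ 5 · 256 L^(2A+4)`.  For `g : ℕ` let `B g` be the union of the `Γ c` over the `c` with `g ≤ c w P/H < g + 1`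
(at most `H/(w P) + 1 ≤ 2 L^(A+5) + 1` values): `|B g| ≤ 1280 L^(2A+4) · 3 L^(A+5)`.
For `i ∈ F0` and `p` in the set of `base_a`: `c` as there, `g = ⌊c w P/H⌋`: `i P/p ≤ c w P/H < (i+1) P/p`, so `|g - i P/p| ≤ 1`, `|g p - i P| ≤ p ≤ 2P`,
`g ≥ n/(2C) - 1 ≥ n/(3C)`, `g ≤ C n + 1 ≤ 3 C n`; some `β ∈ B g` has `nz (p α_i - β) ≤ 1/w`.
Let `N(g, β)` be the set of the `(i,p)` with the chosen `g(i,p) = g` and `nz (p α_i - β) ≤ 1/w`.  `∑_{g} ∑_{β ∈ B g} |N(g,β)| ≥ |F0| P/(4 L^(A+2))`.  For every `g` with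
`B g ≠ ∅` let `β_g ∈ B g` maximise `|N(g, β)|`; then `∑_g |N(g, β_g)| ≥ |F0| P/(4 L^(A+2))/(3840 L^(3A+9))`.
`R0 = {(i, p, g) : (i,p) ∈ N(g, β_g)}`, `G0` = the `g` that occur; `1/w ≤ 2 P L^(A+5)/H = η P`.  `|F0| ≥ n/L^A`; `15360 ≤ L^3`: `C0 = 5A + 14`.
-/

set_option autoImplicit false

namespace Pool.Agent.H53.MID

open Finset
open Pool.Agent.H91.PK (ee)
open Pool.Agent.H35.W (pb)

/-- pigeonhole: choose for each `g` the most popular value -/
private theorem Base_pigeon {T : Type*} [DecidableEq T] (T0 : Finset T) (g : T → ℕ) (b : T → ℝ) (B : ℕ → Finset ℝ) (K : ℝ)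
    (hK : 0 < K) (hb : ∀ t ∈ T0, b t ∈ B (g t)) (hB : ∀ n, ((B n).card : ℝ) ≤ K) :
    ∃ β : ℕ → ℝ, (T0.card : ℝ) / K ≤ ((T0.filter (fun t => b t = β (g t))).card : ℝ) := by
  classical
  have h1 : ∀ n : ℕ, ∃ y : ℝ, ((T0.filter (fun t => g t = n)).card : ℝ) / K ≤
      (((T0.filter (fun t => g t = n)).filter (fun t => b t = y)).card : ℝ) := by
    intro n
    by_cases hne : (T0.filter (fun t => g t = n)).Nonempty
    · obtain ⟨t, ht⟩ := hne
      rw [Finset.mem_filter] at ht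
      have hBne : (B n).Nonempty := ⟨b t, by have := hb t ht.1; rwa [ht.2] at this⟩
      have hmap : ∀ a ∈ T0.filter (fun t => g t = n), b a ∈ B n := by
        intro a ha
        rw [Finset.mem_filter] at ha
        have := hb a ha.1
        rwa [ha.2] at this
      have hle : (B n).card • (((T0.filter (fun t => g t = n)).card : ℝ) / K) ≤
          ((T0.filter (fun t => g t = n)).card : ℝ) := by
        rw [nsmul_eq_mul]
        calc ((B n).card : ℝ) * (((T0.filter (fun t => g t = n)).card : ℝ) / K)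
            ≤ K * (((T0.filter (fun t => g t = n)).card : ℝ) / K) :=
              mul_le_mul_of_nonneg_right (hB n) (by positivity)
          _ = _ := by field_simp
      obtain ⟨y, _, hy⟩ := Finset.exists_le_card_fiber_of_nsmul_le_card_of_maps_to hmap hBne hle
      exact ⟨y, hy⟩
    · rw [Finset.not_nonempty_iff_eq_empty] at hne
      refine ⟨0, ?_⟩
      rw [hne]
      simp
  choose β hβ using h1
  refine ⟨β, ?_⟩
  have e1 : (T0.card : ℝ) = ∑ n ∈ T0.image g, ((T0.filter (fun t => g t = n)).card : ℝ) := by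
    rw [← Nat.cast_sum, ← Finset.card_eq_sum_card_image]
  have e2 : ((T0.filter (fun t => b t = β (g t))).card : ℝ) =
      ∑ n ∈ T0.image g, (((T0.filter (fun t => g t = n)).filter (fun t => b t = β n)).card : ℝ) := by
    rw [← Nat.cast_sum]
    congr 1
    rw [Finset.card_eq_sum_card_fiberwise (f := g) (t := T0.image g)]
    · refine Finset.sum_congr rfl fun n _ => ?_
      congr 1
      ext t
      simp only [Finset.mem_filter]
      constructor
      · rintro ⟨⟨h1, h2⟩, h3⟩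
        exact ⟨⟨h1, h3⟩, by rw [← h3]; exact h2⟩
      · rintro ⟨⟨h1, h2⟩, h3⟩
        exact ⟨⟨h1, by rw [h2]; exact h3⟩, h2⟩
    · intro t ht
      rw [Finset.mem_coe, Finset.mem_filter] at ht
      exact Finset.mem_coe.2 (Finset.mem_image_of_mem g ht.1)
  rw [e1, e2, Finset.sum_div]
  exact Finset.sum_le_sum fun n _ => hβ n

theorem base (C : ℝ) (hC : 1 ≤ C) (A : ℕ) (L : ℝ) (n H P w0 X : ℕ) (f : ℕ → ℝ) (F0 : Finset ℕ) (α : ℕ → ℝ)
    (hL : 100 ≤ L) (hn : 100 * C ≤ n) (hw0 : 1 ≤ w0) (hP : 1 ≤ P) (hH : 2 * w0 * P * L ^ (A + 5) ≤ H)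
    (hf : SqB f w0 X L) (hX : 8 * C * n * H ≤ X) (hF : ∀ i ∈ F0, (n : ℝ) / C ≤ i ∧ (i : ℝ) ≤ C * n)
    (hcard : n / L ^ A ≤ (F0.card : ℝ)) (hbig : ∀ i ∈ F0, H / L ^ A ≤ ‖Bs (Fp f P) H i (α i)‖) :
    ∃ (G0 : Finset ℕ) (β : ℕ → ℝ) (R0 : Finset (ℕ × ℕ × ℕ)),
      Rel (3 * C) n P (2 * L ^ (A + 5) / H * P) F0 G0 α β R0 ∧ n * P / L ^ (5 * A + 14) ≤ (R0.card : ℝ) := by
  classical
  have hL0 : (0 : ℝ) < L := by linarith
  have hP1 : (1 : ℝ) ≤ P := by exact_mod_cast hP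
  have hP0 : (0 : ℝ) < P := by linarith
  have hC0 : 0 < C := by linarith
  have hLA : 0 < L ^ (A + 5) := by positivity
  have hLA1 : 1 ≤ L ^ (A + 5) := one_le_pow₀ (by linarith)
  have hw0' : (1 : ℝ) ≤ w0 := by exact_mod_cast hw0
  have hn0 : (0 : ℝ) < n := by linarith
  have hq : 2 * (w0 : ℝ) ≤ (H : ℝ) / (P * L ^ (A + 5)) := by
    rw [le_div_iff₀ (by positivity)]
    calc 2 * (w0 : ℝ) * (P * L ^ (A + 5)) = 2 * w0 * P * L ^ (A + 5) := by ring
      _ ≤ H := hH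
  have hH0 : (0 : ℝ) < H := lt_of_lt_of_le (by positivity) hH
  have hH0' : 0 < H := by exact_mod_cast hH0
  obtain ⟨w, hw⟩ : ∃ w, w = cw H P A L := ⟨_, rfl⟩
  have hwdef : w = ⌊(H : ℝ) / (P * L ^ (A + 5))⌋₊ := by rw [hw, cw]
  have hwge : (H : ℝ) / (P * L ^ (A + 5)) / 2 ≤ w := by
    have h := Nat.lt_floor_add_one ((H : ℝ) / (P * L ^ (A + 5)))
    rw [← hwdef] at h
    linarith
  have hwle : (w : ℝ) ≤ (H : ℝ) / (P * L ^ (A + 5)) := by
    rw [hwdef]
    exact Nat.floor_le (by positivity)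
  have hww0 : w0 ≤ w := by
    rw [hwdef]
    apply Nat.le_floor
    linarith
  have hw1 : 1 ≤ w := hw0.trans hww0
  have hwR : (1 : ℝ) ≤ w := by exact_mod_cast hw1
  have hwH : (w : ℝ) ≤ H := by
    refine hwle.trans (div_le_self hH0.le ?_)
    nlinarith
  have hwinv : 1 / (w : ℝ) ≤ 2 * L ^ (A + 5) / H * P := by
    rw [div_le_iff₀ (by linarith)]
    have h1 : 2 * L ^ (A + 5) / H * P * ((H : ℝ) / (P * L ^ (A + 5)) / 2) = 1 := by
      field_simp
    rw [← h1]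
    exact mul_le_mul_of_nonneg_left hwge (by positivity)
  -- the nets
  have hnet : ∀ c : ℕ, ∃ Γ : Finset ℝ, (Γ.card : ℝ) ≤ 1280 * L ^ (2 * A + 4) ∧
      (c * w + w ≤ X → ∀ γ : ℝ, (w : ℝ) / (16 * L ^ A) ≤
        ‖∑ k ∈ Ico (c * w) (c * w + w), (f k : ℂ) * ee (-(k * γ))‖ → ∃ β ∈ Γ, nz (γ - β) ≤ 1 / w) := by
    intro c
    by_cases h : c * w + w ≤ X
    · obtain ⟨Γ, h1, h2⟩ := net f (c * w) w hw1 (w / (16 * L ^ A)) (w * L ^ 4) (by positivity) (hf _ _ hww0 h)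
      refine ⟨Γ, h1.trans (le_of_eq ?_), fun _ => h2⟩
      have hw' : (w : ℝ) ≠ 0 := by linarith
      rw [div_pow, div_div_eq_mul_div, div_eq_iff (by positivity)]
      ring
    · exact ⟨∅, by simp; positivity, fun h' => absurd h' h⟩
  choose Γ hΓ1 hΓ2 using hnet
  let S : ℕ → Finset ℕ := fun g => (range ((g + 1) * H)).filter
    (fun c => g * H ≤ c * w * P ∧ c * w * P < (g + 1) * H)
  let B : ℕ → Finset ℝ := fun g => (S g).biUnion Γ
  have hM : (0 : ℝ) < w * P := by positivity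
  have hScard : ∀ g, ((S g).card : ℝ) ≤ 3 * L ^ (A + 5) := by
    intro g
    have hsub : S g ⊆ Ico ⌈(g : ℝ) * H / (w * P)⌉₊ ⌈((g : ℝ) + 1) * H / (w * P)⌉₊ := by
      intro c hc
      simp only [S, Finset.mem_filter] at hc
      obtain ⟨_, h1, h2⟩ := hc
      rw [Finset.mem_Ico, Nat.ceil_le, Nat.lt_ceil]
      have h1' : (g : ℝ) * H ≤ c * w * P := by exact_mod_cast h1
      have h2' : (c : ℝ) * w * P < (g + 1) * H := by exact_mod_cast h2
      constructor
      · rw [div_le_iff₀ hM]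
        linarith
      · rw [lt_div_iff₀ hM]
        linarith
    have h3 := Finset.card_le_card hsub
    rw [Nat.card_Ico] at h3
    have h4 : ⌈(g : ℝ) * H / (w * P)⌉₊ ≤ ⌈((g : ℝ) + 1) * H / (w * P)⌉₊ := by
      apply Nat.ceil_mono
      apply div_le_div_of_nonneg_right _ hM.le
      nlinarith
    have h5 : ((S g).card : ℝ) ≤ (⌈((g : ℝ) + 1) * H / (w * P)⌉₊ : ℝ) - ⌈(g : ℝ) * H / (w * P)⌉₊ := by
      rw [← Nat.cast_sub h4]
      exact_mod_cast h3
    have h6 : (⌈((g : ℝ) + 1) * H / (w * P)⌉₊ : ℝ) < ((g : ℝ) + 1) * H / (w * P) + 1 :=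
      Nat.ceil_lt_add_one (by positivity)
    have h7 : (g : ℝ) * H / (w * P) ≤ ⌈(g : ℝ) * H / (w * P)⌉₊ := Nat.le_ceil _
    have h8 : ((g : ℝ) + 1) * H / (w * P) = (g : ℝ) * H / (w * P) + H / (w * P) := by ring
    have h9 : (H : ℝ) / (w * P) ≤ 2 * L ^ (A + 5) := by
      rw [div_le_iff₀ hM]
      have h10 : 2 * L ^ (A + 5) * (((H : ℝ) / (P * L ^ (A + 5)) / 2) * P) = H := by
        field_simp
      rw [← h10]
      apply mul_le_mul_of_nonneg_left _ (by positivity)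
      exact mul_le_mul_of_nonneg_right hwge hP0.le
    linarith
  have hBcard : ∀ g, ((B g).card : ℝ) ≤ 3840 * L ^ (3 * A + 9) := by
    intro g
    have h1 : ((B g).card : ℝ) ≤ ∑ c ∈ S g, ((Γ c).card : ℝ) := by
      exact_mod_cast Finset.card_biUnion_le
    refine h1.trans ?_
    calc ∑ c ∈ S g, ((Γ c).card : ℝ) ≤ ∑ _c ∈ S g, 1280 * L ^ (2 * A + 4) := Finset.sum_le_sum fun c _ => hΓ1 c
      _ = (S g).card * (1280 * L ^ (2 * A + 4)) := by rw [Finset.sum_const, nsmul_eq_mul]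
      _ ≤ (3 * L ^ (A + 5)) * (1280 * L ^ (2 * A + 4)) := mul_le_mul_of_nonneg_right (hScard g) (by positivity)
      _ = 3840 * L ^ (3 * A + 9) := by ring
  -- the pairs
  let Q : ℕ → ℕ → Prop := fun i p => ∃ c : ℕ, i * H ≤ c * w * p ∧ c * w * p < (i + 1) * H ∧
    (w : ℝ) / (16 * L ^ A) ≤ ‖∑ k ∈ Ico (c * w) (c * w + w), (f k : ℂ) * ee (-(k * (p * α i)))‖
  let T0 : Finset (ℕ × ℕ) := (F0 ×ˢ pb P).filter (fun t => Q t.1 t.2)
  have hipos : ∀ i ∈ F0, (100 : ℝ) ≤ i := by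
    intro i hi
    have h1 := (hF i hi).1
    have h2 : 100 ≤ (n : ℝ) / C := by
      rw [le_div_iff₀ hC0]
      exact hn
    linarith
  have hT0card : (F0.card : ℝ) * (P / (4 * L ^ (A + 2))) ≤ T0.card := by
    have h1 : (T0.card : ℝ) = ∑ i ∈ F0, (((pb P).filter (fun p => Q i p)).card : ℝ) := by
      simp only [T0]
      rw [Finset.card_filter, Finset.sum_product, Nat.cast_sum]
      refine Finset.sum_congr rfl fun i _ => ?_
      rw [Finset.card_filter]
    rw [h1, ← nsmul_eq_mul, ← Finset.sum_const]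
    refine Finset.sum_le_sum fun i hi => ?_
    have h2 : 4 * (i + 1) * H ≤ X := by
      have h3 := hipos i hi
      have h4 := (hF i hi).2
      have h5 : (4 : ℝ) * (i + 1) * H ≤ X := by
        refine le_trans ?_ hX
        have h6 : 4 * ((i : ℝ) + 1) ≤ 8 * C * n := by linarith
        exact mul_le_mul_of_nonneg_right h6 hH0.le
      exact_mod_cast h5
    have h3 := base_a L A H P w0 X i f (α i) hL hw0 hP hH hf h2 (hbig i hi)
    rw [← hw] at h3
    convert h3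
  have key : ∀ t ∈ T0, ∃ (g : ℕ) (b : ℝ), b ∈ B g ∧ |(g : ℝ) * t.2 - t.1 * P| ≤ 3 * C * P ∧
      nz (t.2 * α t.1 - b) ≤ 1 / w ∧ (n : ℝ) / (3 * C) ≤ g ∧ (g : ℝ) ≤ 3 * C * n := by
    rintro ⟨i, p⟩ ht
    simp only [T0, Finset.mem_filter, Finset.mem_product] at ht
    obtain ⟨⟨hi, hp⟩, c, hc1, hc2, hc3⟩ := ht
    simp only
    have hp' : P < p ∧ p ≤ 2 * P := by
      unfold pb at hp
      rw [Finset.mem_filter, Finset.mem_Ioc] at hp
      exact hp.1
    have hpP : (P : ℝ) < p := by exact_mod_cast hp'.1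
    have hp2 : (p : ℝ) ≤ 2 * P := by exact_mod_cast hp'.2
    have hp0 : (0 : ℝ) < p := by linarith
    obtain ⟨g, hg⟩ : ∃ g, g = c * w * P / H := ⟨_, rfl⟩
    have hg1 : g * H ≤ c * w * P := by
      rw [hg]
      exact Nat.div_mul_le_self _ _
    have hg2 : c * w * P < (g + 1) * H := by
      rw [hg, mul_comm _ H]
      exact Nat.lt_mul_div_succ _ hH0'
    have hcS : c ∈ S g := by
      simp only [S, Finset.mem_filter, Finset.mem_range]
      refine ⟨lt_of_le_of_lt ?_ hg2, hg1, hg2⟩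
      calc c = c * 1 * 1 := by ring
        _ ≤ c * w * P := Nat.mul_le_mul (Nat.mul_le_mul_left _ hw1) hP
    have hi1 := hipos i hi
    have hi2 := (hF i hi).1
    have hi3 := (hF i hi).2
    have hc1' : (i : ℝ) * H ≤ c * w * p := by exact_mod_cast hc1
    have hc2' : (c : ℝ) * w * p < (i + 1) * H := by exact_mod_cast hc2
    have hg1' : (g : ℝ) * H ≤ c * w * P := by exact_mod_cast hg1
    have hg2' : (c : ℝ) * w * P < (g + 1) * H := by exact_mod_cast hg2
    have hcX : c * w + w ≤ X := by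
      have h1 : (c : ℝ) * w ≤ c * w * p := by
        have : (0 : ℝ) ≤ (c : ℝ) * w := by positivity
        nlinarith
      have h2 : (c : ℝ) * w + w ≤ X := by
        have h3 : ((i : ℝ) + 2) * H ≤ 8 * C * n * H := by
          apply mul_le_mul_of_nonneg_right _ hH0.le
          linarith
        linarith
      exact_mod_cast h2
    obtain ⟨b, hb1, hb2⟩ := hΓ2 c hcX _ hc3
    have k1 : (g : ℝ) * p < (i + 1) * P := by
      have h1 : (g : ℝ) * p * H < (i + 1) * P * H := by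
        calc (g : ℝ) * p * H = (g * H) * p := by ring
          _ ≤ (c * w * P) * p := mul_le_mul_of_nonneg_right hg1' hp0.le
          _ = (c * w * p) * P := by ring
          _ < ((i + 1) * H) * P := mul_lt_mul_of_pos_right hc2' hP0
          _ = (i + 1) * P * H := by ring
      exact lt_of_mul_lt_mul_right h1 hH0.le
    have k2 : (i : ℝ) * P < (g + 1) * p := by
      have h1 : (i : ℝ) * P * H < (g + 1) * p * H := by
        calc (i : ℝ) * P * H = (i * H) * P := by ring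
          _ ≤ (c * w * p) * P := mul_le_mul_of_nonneg_right hc1' hP0.le
          _ = (c * w * P) * p := by ring
          _ < ((g + 1) * H) * p := mul_lt_mul_of_pos_right hg2' hp0
          _ = (g + 1) * p * H := by ring
      exact lt_of_mul_lt_mul_right h1 hH0.le
    refine ⟨g, b, Finset.mem_biUnion.2 ⟨c, hcS, hb1⟩, ?_, hb2, ?_, ?_⟩
    · rw [abs_le]
      have h3C : 3 * (P : ℝ) ≤ 3 * C * P := by nlinarith
      constructor
      · linarith
      · linarith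
    · have h1 : (i : ℝ) < 2 * (g + 1) := by
        have h2 : (i : ℝ) * P < 2 * (g + 1) * P := by
          have h3 : ((g : ℝ) + 1) * p ≤ (g + 1) * (2 * P) := mul_le_mul_of_nonneg_left hp2 (by positivity)
          linarith
        exact lt_of_mul_lt_mul_right h2 hP0.le
      have h2 : (n : ℝ) / (3 * C) + 1 ≤ (n : ℝ) / C / 2 := by
        have h3 : 100 ≤ (n : ℝ) / C := by
          rw [le_div_iff₀ hC0]
          exact hn
        have h4 : (n : ℝ) / (3 * C) = n / C / 3 := by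
          field_simp
        rw [h4]
        linarith
      linarith
    · have h1 : (g : ℝ) < i + 1 := by
        have h2 : (g : ℝ) * P < (i + 1) * P := by
          have h3 : (g : ℝ) * P ≤ g * p := mul_le_mul_of_nonneg_left hpP.le (by positivity)
          linarith
        exact lt_of_mul_lt_mul_right h2 hP0.le
      linarith
  choose! g b hgb using key
  obtain ⟨β, hβ⟩ := Base_pigeon T0 g b B (3840 * L ^ (3 * A + 9)) (by positivity) (fun t ht => (hgb t ht).1) hBcard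
  have hmem : ∀ s ∈ (T0.filter (fun t => b t = β (g t))).image (fun t => (t.1, t.2, g t)),
      ∃ t ∈ T0, b t = β (g t) ∧ s = (t.1, t.2, g t) := by
    intro s hs
    rw [Finset.mem_image] at hs
    obtain ⟨t, ht, rfl⟩ := hs
    rw [Finset.mem_filter] at ht
    exact ⟨t, ht.1, ht.2, rfl⟩
  have hT0mem : ∀ t ∈ T0, t.1 ∈ F0 ∧ t.2 ∈ pb P := by
    intro t ht
    simp only [T0, Finset.mem_filter, Finset.mem_product] at ht
    exact ht.1
  refine ⟨T0.image g, β, (T0.filter (fun t => b t = β (g t))).image (fun t => (t.1, t.2, g t)), ?_, ?_⟩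
  · constructor
    · intro s hs
      obtain ⟨t, ht, _, rfl⟩ := hmem s hs
      exact (hT0mem t ht).1
    · intro s hs
      obtain ⟨t, ht, _, rfl⟩ := hmem s hs
      exact Finset.mem_image_of_mem g ht
    · intro s hs
      obtain ⟨t, ht, _, rfl⟩ := hmem s hs
      have h1 := (hT0mem t ht).2
      unfold pb at h1
      rw [Finset.mem_filter, Finset.mem_Ioc] at h1
      exact ⟨h1.2, h1.1⟩
    · intro s hs
      obtain ⟨t, ht, _, rfl⟩ := hmem s hs
      exact (hgb t ht).2.1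
    · intro s hs
      obtain ⟨t, ht, hbt, rfl⟩ := hmem s hs
      have h1 := (hgb t ht).2.2.1
      rw [hbt] at h1
      exact h1.trans hwinv
    · intro K hK
      obtain ⟨h1, h2⟩ := hF K hK
      constructor
      · refine le_trans ?_ h1
        apply div_le_div_of_nonneg_left hn0.le hC0
        linarith
      · nlinarith
    · intro K hK
      rw [Finset.mem_image] at hK
      obtain ⟨t, ht, rfl⟩ := hK
      exact (hgb t ht).2.2.2
  · rw [Finset.card_image_of_injective]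
    · refine le_trans ?_ hβ
      have h1 : (n : ℝ) / L ^ A * (P / (4 * L ^ (A + 2))) ≤ T0.card :=
        le_trans (mul_le_mul_of_nonneg_right hcard (by positivity)) hT0card
      refine le_trans ?_ (div_le_div_of_nonneg_right h1 (by positivity))
      have h2 : (n : ℝ) / L ^ A * (P / (4 * L ^ (A + 2))) / (3840 * L ^ (3 * A + 9)) =
          n * P / (15360 * L ^ (5 * A + 11)) := by
        rw [div_mul_div_comm, div_div]
        congr 1
        ring
      rw [h2]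
      apply div_le_div_of_nonneg_left (by positivity) (by positivity)
      have h3 : (15360 : ℝ) ≤ L ^ 3 := by
        calc (15360 : ℝ) ≤ 100 ^ 3 := by norm_num
          _ ≤ L ^ 3 := pow_le_pow_left₀ (by norm_num) hL 3
      calc (15360 : ℝ) * L ^ (5 * A + 11) ≤ L ^ 3 * L ^ (5 * A + 11) :=
            mul_le_mul_of_nonneg_right h3 (by positivity)
        _ = L ^ (5 * A + 14) := by ring
    · rintro ⟨a1, a2⟩ ⟨b1, b2⟩ hab
      simp only [Prod.mk.injEq] at hab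
      exact Prod.ext hab.1 hab.2.1

end Pool.Agent.H53.MID

end
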