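import Pool.Agent.H43.PM.H53.MID.Comb
import Pool.Agent.H43.PM.H53.MID.Win
import Pool.Agent.H43.PM.M10
import Pool.Agent.H43.PM.M14

/-! The parts of this file: H53.MID.Contra, H53.MID.Lfu. -/

section

/-!
# MID Contra: many structured blocks give a large mean square

Proof.  `win` for every `i ∈ F1`; the intervals `[log(iH), log((i+1)H)]` overlap only in endpoints and lie in `[log(nH/C), log(2CnH)]`, of length `≤ log(2C^2)`.  So
`∫_{log(nH/C)}^{log(2CnH)} ‖Dw‖ ≥ |F1| θ H/(2 L^A) ≥ n θ H/(2 L^(A+C1))`, and by Cauchy-Schwarz `(n θ H)^2/(4 L^(2A+2C1)) ≤ log(2C^2) ∫ ‖Dw‖^2`; `4 log(2C^2) ≤ L`.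
(`hint`: integrability of `‖Dw‖^2` on the line, from `ms`/`plw`; on the bounded interval `‖Dw‖` is bounded and measurable: a finite sum of indicators.)
-/

set_option autoImplicit false

namespace Pool.Agent.H53.MID

open Finset MeasureTheory
open Pool.Agent.H91.PK (ee)

private theorem Contra_int {D : ℝ → ℝ} (hD0 : ∀ u, 0 ≤ D u)
    (hint : Integrable (fun u => D u ^ 2)) (p q : ℝ) : IntegrableOn D (Set.Icc p q) := by
  have hm : AEStronglyMeasurable D volume := by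
    have h := Real.continuous_sqrt.comp_aestronglyMeasurable hint.aestronglyMeasurable
    refine h.congr (Filter.Eventually.of_forall fun u => ?_)
    exact Real.sqrt_sq (hD0 u)
  have h1 : IntegrableOn (fun u => (1 + D u ^ 2) / 2) (Set.Icc p q) := by
    have h2 : IntegrableOn (fun _ : ℝ => (1 : ℝ)) (Set.Icc p q) := by
      rw [integrableOn_const_iff]
      right
      rw [Real.volume_Icc]
      exact ENNReal.ofReal_lt_top
    exact (h2.add hint.integrableOn).div_const 2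
  refine Integrable.mono' h1 hm.restrict (Filter.Eventually.of_forall fun u => ?_)
  rw [Real.norm_of_nonneg (hD0 u)]
  nlinarith [sq_nonneg (D u - 1)]

private theorem Contra_cs {D : ℝ → ℝ} (hD0 : ∀ u, 0 ≤ D u)
    (hint : Integrable (fun u => D u ^ 2)) {p q M : ℝ} (hpq : p < q) (hM : 0 ≤ M)
    (h : M ≤ ∫ u in Set.Icc p q, D u) : M ^ 2 / (q - p) ≤ ∫ u, D u ^ 2 := by
  have hD := Contra_int hD0 hint p q
  have hl : 0 < q - p := sub_pos.2 hpq
  set c : ℝ := M / (q - p) with hc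
  have hc0 : 0 ≤ c := div_nonneg hM hl.le
  have h1 : 2 * c * ∫ u in Set.Icc p q, D u ≤ ∫ u in Set.Icc p q, (D u ^ 2 + c ^ 2) := by
    rw [← integral_const_mul]
    refine integral_mono (hD.const_mul _) ?_ fun u => ?_
    · refine hint.integrableOn.add ?_
      rw [integrableOn_const_iff]
      right
      rw [Real.volume_Icc]
      exact ENNReal.ofReal_lt_top
    · show 2 * c * D u ≤ D u ^ 2 + c ^ 2
      nlinarith [sq_nonneg (D u - c)]
  have h2 : ∫ u in Set.Icc p q, (D u ^ 2 + c ^ 2) =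
      (∫ u in Set.Icc p q, D u ^ 2) + (q - p) * c ^ 2 := by
    rw [integral_add hint.integrableOn]
    · congr 1
      rw [setIntegral_const, Measure.real, Real.volume_Icc, ENNReal.toReal_ofReal hl.le]
      rfl
    · rw [integrable_const_iff]
      right
      rw [isFiniteMeasure_restrict, Real.volume_Icc]
      exact ENNReal.ofReal_ne_top
  have h3 : ∫ u in Set.Icc p q, D u ^ 2 ≤ ∫ u, D u ^ 2 :=
    setIntegral_le_integral hint (Filter.Eventually.of_forall fun u => sq_nonneg _)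
  have h4 : 2 * c * M ≤ 2 * c * ∫ u in Set.Icc p q, D u :=
    mul_le_mul_of_nonneg_left h (by positivity)
  have h5 : M ^ 2 / (q - p) = 2 * c * M - (q - p) * c ^ 2 := by
    rw [hc]
    field_simp
    ring
  rw [h5]
  linarith

theorem contra (C : ℝ) (hC : 1 ≤ C) (A C1 C2 : ℕ) : ∃ L0 : ℝ, 1 ≤ L0 ∧ ∀ (L : ℝ) (n H P w0 X Xf : ℕ) (f : ℕ → ℝ) (a T : ℝ)
    (F1 : Finset ℕ) (α : ℕ → ℝ),
    L0 ≤ L → 100 * C ≤ n → 1 ≤ w0 → 1 ≤ P → w0 * P * L ^ (A + C2 + 4) ≤ H → SqB f w0 Xf L →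
    8 * C * n * H ≤ Xf → 4 * C * n * H ≤ X → (∀ i ∈ F1, (n : ℝ) / C ≤ i ∧ (i : ℝ) ≤ C * n) →
    n / L ^ C1 ≤ (F1.card : ℝ) → |T| ≤ L ^ C2 * (n : ℝ) ^ 2 →
    (∀ i ∈ F1, nz (α i - a - T / (i * H)) ≤ L ^ C2 / H) → (∀ i ∈ F1, H / L ^ A ≤ ‖Bs (Fp f P) H i (α i)‖) →
    Integrable (fun u => ‖Dw (cc f P a T) X (1 / (n * L ^ (A + C2 + 3))) u‖ ^ 2) →
    (1 / (n * L ^ (A + C2 + 3))) ^ 2 * ((n : ℝ) * H) ^ 2 / L ^ (2 * A + 2 * C1 + 1) ≤
      ∫ u, ‖Dw (cc f P a T) X (1 / (n * L ^ (A + C2 + 3))) u‖ ^ 2 := by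
  obtain ⟨L1, hL1, hw⟩ := win C hC A C2
  refine ⟨max L1 (4 * Real.log (2 * C ^ 2)), le_max_of_le_left hL1, ?_⟩
  intro L n H P w0 X Xf f a T F1 α hL hn hw0 hP hH hSq hXf hX hF1 hcard hT hnz hBs hint
  have hLL : L1 ≤ L := (le_max_left _ _).trans hL
  have hL4 : 4 * Real.log (2 * C ^ 2) ≤ L := (le_max_right _ _).trans hL
  have hL0 : 1 ≤ L := hL1.trans hLL
  have hLp : 0 < L := by linarith
  have hC0 : 0 < C := by linarith
  have hn1 : (100 : ℝ) ≤ n := by nlinarith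
  have hn0 : (0 : ℝ) < n := by linarith
  have hw0' : (1 : ℝ) ≤ w0 := by exact_mod_cast hw0
  have hP' : (1 : ℝ) ≤ P := by exact_mod_cast hP
  have hH1 : (1 : ℝ) ≤ H := by
    refine le_trans ?_ hH
    have h1 : (1 : ℝ) ≤ L ^ (A + C2 + 4) := one_le_pow₀ hL0
    have h2 : (1 : ℝ) ≤ w0 * P := one_le_mul_of_one_le_of_one_le hw0' hP'
    exact one_le_mul_of_one_le_of_one_le h2 h1
  have hH0 : (0 : ℝ) < H := by linarith
  set θ : ℝ := 1 / (n * L ^ (A + C2 + 3)) with hθ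
  have hθ0 : 0 < θ := by positivity
  set D : ℝ → ℝ := fun u => ‖Dw (cc f P a T) X θ u‖ with hD
  have hD0 : ∀ u, 0 ≤ D u := fun u => norm_nonneg _
  have hint' : Integrable (fun u => D u ^ 2) := hint
  set p : ℝ := Real.log (n * H / C) with hp
  set q : ℝ := Real.log (2 * C * n * H) with hq
  have hqp : q - p = Real.log (2 * C ^ 2) := by
    rw [hq, hp, ← Real.log_div (by positivity) (by positivity)]
    congr 1
    field_simp
  have hlog : 0 < Real.log (2 * C ^ 2) := Real.log_pos (by nlinarith)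
  have hpq : p < q := by linarith
  have hI := Contra_int hD0 hint' p q
  have hi0 : ∀ i ∈ F1, (0 : ℝ) < i := fun i hi => lt_of_lt_of_le (by positivity) (hF1 i hi).1
  have hsub : ∀ i ∈ F1, Set.Ico (Real.log (i * H)) (Real.log ((i + 1) * H)) ⊆ Set.Icc p q := by
    intro i hi u hu
    have h1 := (hF1 i hi).1
    have h2 := (hF1 i hi).2
    have h3 := hi0 i hi
    refine ⟨le_trans ?_ hu.1, hu.2.le.trans ?_⟩
    · refine Real.log_le_log (by positivity) ?_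
      rw [mul_div_right_comm]
      exact mul_le_mul_of_nonneg_right h1 hH0.le
    · refine Real.log_le_log (by positivity) ?_
      have : (i : ℝ) + 1 ≤ 2 * C * n := by nlinarith
      exact mul_le_mul_of_nonneg_right this hH0.le
  have hdisj : Set.Pairwise (F1 : Set ℕ)
      (Function.onFun Disjoint fun i : ℕ => Set.Ico (Real.log (i * H)) (Real.log ((i + 1) * H))) := by
    intro i hi j hj hij
    have key : ∀ i ∈ F1, ∀ j ∈ F1, i < j → Disjoint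
        (Set.Ico (Real.log ((i : ℝ) * H)) (Real.log ((i + 1) * H)))
        (Set.Ico (Real.log ((j : ℝ) * H)) (Real.log ((j + 1) * H))) := by
      intro i hi j hj hlt
      rw [Set.disjoint_left]
      intro u hu hv
      have h1 : ((i : ℝ) + 1) * H ≤ j * H := by
        refine mul_le_mul_of_nonneg_right ?_ hH0.le
        exact_mod_cast hlt
      have h2 : Real.log (((i : ℝ) + 1) * H) ≤ Real.log (j * H) :=
        Real.log_le_log (by positivity) h1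
      exact absurd (hu.2.trans_le (h2.trans hv.1)) (lt_irrefl _)
    rcases lt_or_gt_of_ne hij with h | h
    · exact key i hi j hj h
    · exact (key j hj i hi h).symm
  have hsum : ∑ i ∈ F1, ∫ u in Set.Ico (Real.log ((i : ℝ) * H)) (Real.log ((i + 1) * H)), D u ≤
      ∫ u in Set.Icc p q, D u := by
    rw [← integral_biUnion_finset F1 (fun i _ => measurableSet_Ico) hdisj
      (fun i hi => hI.mono_set (hsub i hi))]
    refine setIntegral_mono_set hI (Filter.Eventually.of_forall fun u => hD0 u) ?_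
    exact (Set.iUnion₂_subset hsub).eventuallyLE
  have hone : ∀ i ∈ F1, θ * H / (2 * L ^ A) ≤
      ∫ u in Set.Ico (Real.log ((i : ℝ) * H)) (Real.log ((i + 1) * H)), D u := by
    intro i hi
    rw [← integral_Icc_eq_integral_Ico]
    exact hw L n H P w0 X Xf i f a T (α i) hLL hn hw0 hP hH hSq hXf hX (hF1 i hi).1 (hF1 i hi).2 hT
      (hnz i hi) (hBs i hi)
  have hlow : (F1.card : ℝ) * (θ * H / (2 * L ^ A)) ≤ ∫ u in Set.Icc p q, D u := by
    refine le_trans ?_ hsum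
    rw [← nsmul_eq_mul]
    exact Finset.card_nsmul_le_sum F1 _ _ hone
  have hM : n / L ^ C1 * (θ * H / (2 * L ^ A)) ≤ ∫ u in Set.Icc p q, D u :=
    (mul_le_mul_of_nonneg_right hcard (by positivity)).trans hlow
  have h := Contra_cs hD0 hint' hpq (by positivity) hM
  refine le_trans ?_ h
  rw [hqp]
  have e1 : (n / L ^ C1 * (θ * H / (2 * L ^ A))) ^ 2 / Real.log (2 * C ^ 2) =
      θ ^ 2 * ((n : ℝ) * H) ^ 2 / (L ^ (2 * A + 2 * C1) * (4 * Real.log (2 * C ^ 2))) := by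
    have : L ^ (2 * A + 2 * C1) = (L ^ A) ^ 2 * (L ^ C1) ^ 2 := by ring
    rw [this]
    field_simp
    ring
  rw [e1, pow_succ]
  refine div_le_div_of_nonneg_left (by positivity) (by positivity) ?_
  exact mul_le_mul_of_nonneg_left hL4 (by positivity)

end Pool.Agent.H53.MID

end

section

/-!
# MID Lfu: local Fourier uniformity of `F# = Fp (hR R) P`

`badB`: the blocks `i ∈ [N/(2H), 4N/H]` with `sup_α ‖∑_{m ∈ I_i} Fp f P m ee(-m α)‖ > H/L^A`.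
Proof.  `L = log N`, `n = N/H` (natural division), `C = 10`: `n/10 ≤ N/(2H) ≤ i ≤ 4N/H ≤ 10 n` for the `i` in the range.  `Jm = ⌈1/e1⌉` (`n ≤ N ≤ P^Jm`).
Constants in this order: `A, e1` are given; `comb (3C) Jm` gives `D, e`; `C0 = 5(A+1)+14`; `C2` = any number with `2 D L^(A+7+C0 e) ≤ L^C2` for large `L`, for example `C2 = A + 8 + C0 e`; `C1 = C0 e + 1`;
`A' = 2(A+1) + 2C1 + 3`; `ms A' C2 e1` gives `C4`; `B0 = C2`.  Let `B ≥ B0`, `R = ⌊L^B⌋`, `N` large, and let `F0` be the set of the bad `i`; suppose `|F0| > (N/H)/L^A ≥ n/L^(A+1)`.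
`K1 = N/(20 P)`... choose `K1, K2` with `K1 < N/(8P)`, `K2 ≥ 5N/P + 1`, `K2 P ≤ 16 N`, for example `K1 = N/(16 P)`, `K2 = 12 N/P` (natural division), `f = cut K1 K2 (hR R)`: for `m ∈ [N/4, 5N]` (all blocks) and
`p ∈ pb P`, `p ∣ m`: `K1 < m/p ≤ K2`, so `Fp f P m = Fp (hR R) P m`.  `α i` with `H/L^(A+1) ≤ H/L^A < ‖Bs (Fp f P) H i (α i)‖`.
`SqB f (R^4+2) (N^4) L` by `hsq B`; `w0 = R^4 + 2`: `2 w0 P L^(A+6) ≤ H` since `P^5 ≤ H`, `P ≥ N^e1`.  `base` (with `A+1`) gives `Rel 30 n P (η P)`, `η = 2 L^(A+6)/H`, `|R0| ≥ n P/L^C0`; `comb` with `δ = L^(-C0)`: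
`D η P^3 ≤ δ^e`, `D ≤ δ^e P`: clear for large `N`.  So `d ≤ D L^(C0 e) ≤ L^C2`, `T := T' H`, `|T| ≤ D η L^(C0 e) n^2 H ≤ L^C2 n^2`, `nz (α i - b/d - T/(iH)) ≤ D η L^(C0 e) ≤ L^C2/H`, `|F1| ≥ n/(D L^(C0 e)) ≥ n/L^C1`.
`contra` (`X = 60 N`, `Xf = N^4`, `a = b/d`) and `ms` (`θ = 1/(n L^(A+1+C2+3))`: `θ N ≥ H/L^(..) ≥ P L^C4` as `P^5 ≤ H`; `|T| ≤ L^C2 n^2 ≤ N^2`; `K2 ≥ N/P ≥ N^e1` since `P^5 ≤ H ≤ √N`) contradict each other:
`θ^2 (nH)^2/L^(2(A+1)+2C1+1) ≤ θ^2 N^2/L^A'`, but `n H ≥ N/2` and `L^2 > 4`.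
-/

set_option autoImplicit false

namespace Pool.Agent.H53.MID

open Finset MeasureTheory
open Pool.Agent.H91.PK (ee)
open Pool.Agent.H91.EHA (Lam hR lamR ramS)
open Pool.Agent.H35.W (pb)

open Classical in
/-- the bad blocks -/
noncomputable def badB (g : ℕ → ℝ) (N H : ℕ) (M : ℝ) : Finset ℕ :=
  (Icc (N / (2 * H)) (4 * N / H)).filter (fun i => ∃ α : ℝ, M < ‖Bs g H i α‖)

/-- the indices of the blocks -/
private theorem Lfu_range {N H i : ℕ} (hH : 8 ≤ H) (hHN : H ^ 2 ≤ N)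
    (hi : i ∈ Icc (N / (2 * H)) (4 * N / H)) :
    ((N / H : ℕ) : ℝ) / 10 ≤ i ∧ (i : ℝ) ≤ 10 * ((N / H : ℕ) : ℝ) ∧ N ≤ 4 * (i * H) ∧
      (i + 1) * H ≤ 5 * N := by
  rw [mem_Icc] at hi
  obtain ⟨h1, h2⟩ := hi
  have hH0 : 0 < H := by omega
  have e1 : N / (2 * H) = N / H / 2 := by
    rw [Nat.div_div_eq_div_mul, mul_comm]
  rw [e1] at h1
  have h8 : 8 * H ≤ N := by nlinarith
  have hn8 : 8 ≤ N / H := (Nat.le_div_iff_mul_le hH0).mpr h8
  have hnH : N / H * H ≤ N := Nat.div_mul_le_self N H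
  have hnH2 : N < (N / H + 1) * H := by
    have := Nat.lt_mul_div_succ N hH0
    rw [mul_comm]
    exact this
  have h3 : N / H ≤ 2 * i + 1 := by omega
  have h4 : 4 * N / H ≤ 4 * (N / H) + 3 := by
    have h5 : 4 * N < (4 * (N / H) + 4) * H := by nlinarith
    have h6 : 4 * N / H < 4 * (N / H) + 4 := by
      rw [Nat.div_lt_iff_lt_mul hH0]
      exact h5
    omega
  have h5 : 4 * N / H * H ≤ 4 * N := Nat.div_mul_le_self _ _
  refine ⟨?_, ?_, ?_, ?_⟩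
  · have h6 : ((N / H : ℕ) : ℝ) ≤ 2 * i + 1 := by exact_mod_cast h3
    have h7 : (8 : ℝ) ≤ ((N / H : ℕ) : ℝ) := by exact_mod_cast hn8
    linarith
  · have h6 : i ≤ 10 * (N / H) := by omega
    exact_mod_cast h6
  · have h6 : (N / H + 1) * H ≤ (2 * i + 2) * H := Nat.mul_le_mul_right H (by omega)
    nlinarith
  · have h6 : i * H ≤ 4 * N / H * H := Nat.mul_le_mul_right H h2
    nlinarith

/-- cutting off the coefficients does not change the values on the blocks -/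
private theorem Lfu_cut {N P m : ℕ} (g : ℕ → ℝ) (hN : 0 < N) (hP : 0 < P) (h1 : N ≤ 4 * m)
    (h2 : m ≤ 5 * N) :
    Fp (cut (N / (16 * P)) (5 * N / P) g) P m = Fp g P m := by
  unfold Fp
  apply Finset.sum_congr rfl
  intro p hp
  rw [Finset.mem_filter] at hp
  obtain ⟨hp1, k, rfl⟩ := hp
  unfold pb at hp1
  rw [Finset.mem_filter, mem_Ioc] at hp1
  obtain ⟨⟨hp2, hp3⟩, -⟩ := hp1
  have hp0 : 0 < p := by omega
  rw [Nat.mul_div_cancel_left k hp0]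
  unfold cut
  rw [if_pos]
  rw [mem_Ioc]
  have hk : 0 < k := by
    rcases Nat.eq_zero_or_pos k with h | h
    · rw [h] at h1
      omega
    · exact h
  constructor
  · have h3 : N / (16 * P) * (16 * P) ≤ N := Nat.div_mul_le_self _ _
    have h4 : 4 * (p * k) ≤ 8 * (P * k) := by
      have : p * k ≤ 2 * P * k := Nat.mul_le_mul_right k hp3
      nlinarith
    have h5 : P * (2 * (N / (16 * P))) ≤ P * k := by nlinarith
    have h6 := Nat.le_of_mul_le_mul_left h5 hP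
    omega
  · rw [Nat.le_div_iff_mul_le hP]
    calc k * P ≤ k * p := Nat.mul_le_mul_left k hp2.le
      _ = p * k := mul_comm _ _
      _ ≤ 5 * N := h2

private theorem Lfu_Bs {N P H i : ℕ} (g : ℕ → ℝ) (hN : 0 < N) (hP : 0 < P) (h1 : N ≤ 4 * (i * H))
    (h2 : (i + 1) * H ≤ 5 * N) (α : ℝ) :
    Bs (Fp (cut (N / (16 * P)) (5 * N / P) g) P) H i α = Bs (Fp g P) H i α := by
  unfold Bs
  apply Finset.sum_congr rfl
  intro m hm
  rw [mem_Ico] at hm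
  rw [Lfu_cut g hN hP (by omega) (by omega)]

open Classical in
private theorem mem_badB (g : ℕ → ℝ) (N H : ℕ) (M : ℝ) (i : ℕ) : i ∈ badB g N H M ↔
    i ∈ Icc (N / (2 * H)) (4 * N / H) ∧ ∃ α : ℝ, M < ‖Bs g H i α‖ := by
  unfold badB
  rw [Finset.mem_filter]

private theorem Lfu_pow {L P D : ℝ} {E k : ℕ} (hL : 1 ≤ L) (hD : 1 ≤ D)
    (h : 10 * D * L ^ E ≤ P) (hk : k ≤ E) : 10 * D * L ^ k ≤ P := by
  refine le_trans ?_ h
  exact mul_le_mul_of_nonneg_left (pow_le_pow_right₀ hL hk) (by linarith)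

/-- consequences of `P` being larger than all powers of the logarithm -/
private theorem Lfu_num {L D : ℝ} {A B C2 C4 E F N H P n R : ℕ} (hL : 100 ≤ L) (hD : 1 ≤ D)
    (hP : 10 * D * L ^ E ≤ P) (hE : E = 4 * B + A + C2 + C4 + F + 10) (hPH : P ^ 5 ≤ H)
    (hHN : H ^ 2 ≤ N) (hn : n = N / H) (hRB : (R : ℝ) ≤ L ^ B) :
    100 ≤ P ∧ 1000 ≤ n ∧ 8 ≤ H ∧ n * H ≤ N ∧ N ≤ 2 * (n * H) ∧
      2 * ((R ^ 4 + 2 : ℕ) : ℝ) * P * L ^ (A + 5) ≤ H ∧
      ((R ^ 4 + 2 : ℕ) : ℝ) * P * L ^ (A + C2 + 4) ≤ H ∧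
      2 * D * L ^ (A + 5 + F) * (P : ℝ) ^ 3 ≤ H ∧ D * L ^ F ≤ P ∧
      L ^ C2 * (n : ℝ) ^ 2 ≤ (N : ℝ) ^ 2 ∧ (P : ℝ) * L ^ C4 * (n * L ^ (A + C2 + 3)) ≤ N ∧
      P * P ≤ N := by
  have hL1 : 1 ≤ L := by linarith
  have hpow := fun k hk => Lfu_pow (k := k) hL1 hD hP hk
  have hP100r : (100 : ℝ) ≤ P := by
    have h1 := hpow 1 (by omega)
    rw [pow_one] at h1
    nlinarith
  have hP100 : 100 ≤ P := by exact_mod_cast hP100r
  have hP1 : (1 : ℝ) ≤ P := by linarith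
  have hPHr : (P : ℝ) ^ 5 ≤ H := by exact_mod_cast hPH
  have hP5 : P ≤ P ^ 5 := Nat.le_self_pow (by norm_num) P
  have hH0 : 0 < H := by omega
  have hP2 : 1000 ≤ P ^ 5 := by
    calc 1000 ≤ 100 ^ 5 := by norm_num
      _ ≤ P ^ 5 := Nat.pow_le_pow_left hP100 5
  have hH1000 : 1000 ≤ H := hP2.trans hPH
  have hHn : H ≤ n := by
    rw [hn, Nat.le_div_iff_mul_le hH0]
    calc H * H = H ^ 2 := by ring
      _ ≤ N := hHN
  have hnH : n * H ≤ N := by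
    rw [hn]
    exact Nat.div_mul_le_self N H
  have hnH2 : N < (n + 1) * H := by
    have := Nat.lt_mul_div_succ N hH0
    rw [← hn] at this
    rw [mul_comm]
    exact this
  have hNn : N ≤ 2 * (n * H) := by nlinarith
  have hw0 : ((R ^ 4 + 2 : ℕ) : ℝ) ≤ 3 * L ^ (4 * B) := by
    push_cast
    have h1 : (R : ℝ) ^ 4 ≤ (L ^ B) ^ 4 := pow_le_pow_left₀ (Nat.cast_nonneg R) hRB 4
    rw [← pow_mul, mul_comm B 4] at h1
    have h2 : (1 : ℝ) ≤ L ^ (4 * B) := one_le_pow₀ hL1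
    linarith
  have hw00 : (0 : ℝ) ≤ ((R ^ 4 + 2 : ℕ) : ℝ) := Nat.cast_nonneg _
  have hPP : ∀ x : ℝ, 0 ≤ x → x ≤ P → x * P ≤ (P : ℝ) ^ 5 := by
    intro x hx hxP
    have h1 : x * P ≤ P * P := mul_le_mul_of_nonneg_right hxP (by linarith)
    have h2 : (P : ℝ) ^ 2 ≤ (P : ℝ) ^ 5 := pow_le_pow_right₀ hP1 (by norm_num)
    nlinarith
  refine ⟨hP100, hH1000.trans hHn, by omega, hnH, hNn, ?_, ?_, ?_, ?_, ?_, ?_, ?_⟩
  · have h1 := hpow (4 * B + (A + 5)) (by omega)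
    rw [pow_add] at h1
    have h2 : 2 * ((R ^ 4 + 2 : ℕ) : ℝ) * L ^ (A + 5) ≤ P := by
      have h3 : ((R ^ 4 + 2 : ℕ) : ℝ) * L ^ (A + 5) ≤ 3 * L ^ (4 * B) * L ^ (A + 5) :=
        mul_le_mul_of_nonneg_right hw0 (by positivity)
      have h4 : 0 ≤ L ^ (4 * B) * L ^ (A + 5) := by positivity
      nlinarith
    have h5 := hPP _ (by positivity) h2
    calc 2 * ((R ^ 4 + 2 : ℕ) : ℝ) * P * L ^ (A + 5) = 2 * ((R ^ 4 + 2 : ℕ) : ℝ) * L ^ (A + 5) * P := by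
          ring
      _ ≤ (P : ℝ) ^ 5 := h5
      _ ≤ H := hPHr
  · have h1 := hpow (4 * B + (A + C2 + 4)) (by omega)
    rw [pow_add] at h1
    have h2 : ((R ^ 4 + 2 : ℕ) : ℝ) * L ^ (A + C2 + 4) ≤ P := by
      have h3 : ((R ^ 4 + 2 : ℕ) : ℝ) * L ^ (A + C2 + 4) ≤ 3 * L ^ (4 * B) * L ^ (A + C2 + 4) :=
        mul_le_mul_of_nonneg_right hw0 (by positivity)
      have h4 : 0 ≤ L ^ (4 * B) * L ^ (A + C2 + 4) := by positivity
      nlinarith
    have h5 := hPP _ (by positivity) h2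
    calc ((R ^ 4 + 2 : ℕ) : ℝ) * P * L ^ (A + C2 + 4) = ((R ^ 4 + 2 : ℕ) : ℝ) * L ^ (A + C2 + 4) * P := by
          ring
      _ ≤ (P : ℝ) ^ 5 := h5
      _ ≤ H := hPHr
  · have h1 := hpow (A + 5 + F) (by omega)
    have h2 : 2 * D * L ^ (A + 5 + F) ≤ P := by
      have : 0 ≤ D * L ^ (A + 5 + F) := by positivity
      linarith
    calc 2 * D * L ^ (A + 5 + F) * (P : ℝ) ^ 3 ≤ P * (P : ℝ) ^ 3 :=
          mul_le_mul_of_nonneg_right h2 (by positivity)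
      _ = (P : ℝ) ^ 4 := by ring
      _ ≤ (P : ℝ) ^ 5 := pow_le_pow_right₀ hP1 (by norm_num)
      _ ≤ H := hPHr
  · have h1 := hpow F (by omega)
    have : 0 ≤ D * L ^ F := by positivity
    linarith
  · have h1 := hpow C2 (by omega)
    have h2 : L ^ C2 ≤ P := by
      have h3 : 0 ≤ L ^ C2 := by positivity
      nlinarith
    have h3 : (P : ℝ) ≤ H := by
      have : (P : ℝ) ≤ (P : ℝ) ^ 5 := le_self_pow₀ hP1 (by norm_num)
      linarith
    have h4 : (H : ℝ) ≤ (H : ℝ) ^ 2 := le_self_pow₀ (by linarith) (by norm_num)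
    have h5 : ((n * H : ℕ) : ℝ) ≤ N := Nat.cast_le.mpr hnH
    rw [Nat.cast_mul] at h5
    calc L ^ C2 * (n : ℝ) ^ 2 ≤ (H : ℝ) ^ 2 * (n : ℝ) ^ 2 :=
          mul_le_mul_of_nonneg_right (h2.trans (h3.trans h4)) (by positivity)
      _ = ((n : ℝ) * H) ^ 2 := by ring
      _ ≤ (N : ℝ) ^ 2 := pow_le_pow_left₀ (by positivity) h5 2
  · have h1 := hpow (C4 + (A + C2 + 3)) (by omega)
    rw [pow_add] at h1
    have h2 : L ^ C4 * L ^ (A + C2 + 3) ≤ P := by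
      have h3 : 0 ≤ L ^ C4 * L ^ (A + C2 + 3) := by positivity
      nlinarith
    have h5 := hPP _ (by positivity) h2
    have h6 : ((n * H : ℕ) : ℝ) ≤ N := Nat.cast_le.mpr hnH
    rw [Nat.cast_mul] at h6
    calc (P : ℝ) * L ^ C4 * (n * L ^ (A + C2 + 3)) = n * (L ^ C4 * L ^ (A + C2 + 3) * P) := by ring
      _ ≤ n * H := mul_le_mul_of_nonneg_left (h5.trans hPHr) (Nat.cast_nonneg n)
      _ ≤ N := h6
  · calc P * P = P ^ 2 := by ring
      _ ≤ P ^ 5 := Nat.pow_le_pow_right (by omega) (by norm_num)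
      _ ≤ H := hPH
      _ ≤ H ^ 2 := Nat.le_self_pow (by norm_num) H
      _ ≤ N := hHN

/-- the numbers which come out of `comb` -/
private theorem Lfu_out {L D δ η d T n c x : ℝ} {A C0 e H : ℕ} (hL : 100 ≤ L) (hD : 1 ≤ D)
    (hDL : 2 * D ≤ L) (hH : (0 : ℝ) < H) (hδ : δ = 1 / L ^ C0) (hη : η = 2 * L ^ (A + 5) / H)
    (_hn : 0 ≤ n) (hc : 0 ≤ c) (h1 : d * δ ^ e ≤ D) (h2 : |T| * δ ^ e ≤ D * η * n ^ 2) (h3 : δ ^ e * n ≤ D * c)
    (h4 : x * δ ^ e ≤ D * η) :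
    d ≤ L ^ (A + 6 + C0 * e) ∧ |T * H| ≤ L ^ (A + 6 + C0 * e) * n ^ 2 ∧ n / L ^ (C0 * e + 1) ≤ c ∧
      x ≤ L ^ (A + 6 + C0 * e) / H := by
  have hL0 : 0 < L := by linarith
  have hL1 : 1 ≤ L := by linarith
  have hδe : δ ^ e = 1 / L ^ (C0 * e) := by rw [hδ, div_pow, one_pow, ← pow_mul]
  have hF : 0 < L ^ (C0 * e) := by positivity
  rw [hδe] at h1 h2 h3 h4
  rw [mul_one_div, div_le_iff₀ hF] at h1 h2 h4
  rw [one_div_mul_eq_div, div_le_iff₀ hF] at h3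
  have e1 : L ^ (A + 6 + C0 * e) = L ^ (A + 5) * L * L ^ (C0 * e) := by
    rw [← pow_succ, ← pow_add]
  have hA5 : 1 ≤ L ^ (A + 5) := one_le_pow₀ hL1
  have hkey : 2 * D * L ^ (A + 5) * L ^ (C0 * e) ≤ L ^ (A + 6 + C0 * e) := by
    rw [e1]
    apply mul_le_mul_of_nonneg_right _ hF.le
    rw [mul_comm (L ^ (A + 5)) L]
    exact mul_le_mul_of_nonneg_right hDL (by positivity)
  refine ⟨?_, ?_, ?_, ?_⟩
  · refine h1.trans (le_trans ?_ hkey)
    have h5 : D * L ^ (C0 * e) * 1 ≤ D * L ^ (C0 * e) * L ^ (A + 5) :=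
      mul_le_mul_of_nonneg_left hA5 (by positivity)
    have h6 : 0 ≤ D * L ^ (C0 * e) * L ^ (A + 5) := by positivity
    nlinarith
  · rw [abs_mul, abs_of_pos hH]
    have h5 : |T| * H ≤ D * η * n ^ 2 * L ^ (C0 * e) * H := mul_le_mul_of_nonneg_right h2 hH.le
    have h6 : D * η * n ^ 2 * L ^ (C0 * e) * H = 2 * D * L ^ (A + 5) * L ^ (C0 * e) * n ^ 2 := by
      rw [hη]
      field_simp
    rw [h6] at h5
    exact h5.trans (mul_le_mul_of_nonneg_right hkey (by positivity))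
  · rw [div_le_iff₀ (by positivity)]
    refine h3.trans ?_
    rw [pow_succ]
    have h5 : D * c ≤ L * c := mul_le_mul_of_nonneg_right (by linarith) hc
    have h6 : D * c * L ^ (C0 * e) ≤ L * c * L ^ (C0 * e) := mul_le_mul_of_nonneg_right h5 hF.le
    linarith
  · rw [le_div_iff₀ hH]
    have h5 : x * H ≤ D * η * L ^ (C0 * e) * H := mul_le_mul_of_nonneg_right h4 hH.le
    have h6 : D * η * L ^ (C0 * e) * H = 2 * D * L ^ (A + 5) * L ^ (C0 * e) := by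
      rw [hη]
      field_simp
    rw [h6] at h5
    exact h5.trans hkey

/-- the final contradiction -/
private theorem Lfu_end {L θ I : ℝ} {n H N k : ℕ} (hL : 100 ≤ L) (hθ : 0 < θ) (hN : 0 < N)
    (hNn : N ≤ 2 * (n * H)) (h1 : θ ^ 2 * ((n : ℝ) * H) ^ 2 / L ^ (k + 1) ≤ I)
    (h2 : I ≤ θ ^ 2 * (N : ℝ) ^ 2 / L ^ (k + 3)) : False := by
  have hL0 : 0 < L := by linarith
  have hNr : (0 : ℝ) < N := by exact_mod_cast hN
  have h3 := h1.trans h2
  rw [div_le_div_iff₀ (by positivity) (by positivity)] at h3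
  have e1 : L ^ (k + 3) = L ^ (k + 1) * L ^ 2 := by rw [← pow_add]
  rw [e1] at h3
  have h4 : (θ ^ 2 * L ^ (k + 1)) * (((n : ℝ) * H) ^ 2 * L ^ 2) ≤ (θ ^ 2 * L ^ (k + 1)) * (N : ℝ) ^ 2 := by
    linarith
  have h5 : ((n : ℝ) * H) ^ 2 * L ^ 2 ≤ (N : ℝ) ^ 2 := le_of_mul_le_mul_left h4 (by positivity)
  have h6 : (N : ℝ) ≤ 2 * (n * H) := by exact_mod_cast hNn
  have h7 : (N : ℝ) ^ 2 ≤ 4 * ((n : ℝ) * H) ^ 2 := by
    have := pow_le_pow_left₀ hNr.le h6 2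
    linarith
  have h8 : 0 < ((n : ℝ) * H) ^ 2 := by
    by_contra hcon
    have : (N : ℝ) ^ 2 ≤ 0 := by linarith
    have : 0 < (N : ℝ) ^ 2 := by positivity
    linarith
  have h9 : (10000 : ℝ) ≤ L ^ 2 := by nlinarith
  have h10 : ((n : ℝ) * H) ^ 2 * 10000 ≤ ((n : ℝ) * H) ^ 2 * L ^ 2 :=
    mul_le_mul_of_nonneg_left h9 h8.le
  linarith

theorem lfu (hVK : VKp) (hSW : SWp) (e1 : ℝ) (he1 : 0 < e1) (A : ℕ) : ∃ B0 : ℕ, ∀ B : ℕ, B0 ≤ B → ∃ N0 : ℕ,
    ∀ N : ℕ, N0 ≤ N → ∀ H P : ℕ, (N : ℝ) ^ e1 ≤ P → P ^ 5 ≤ H → H ^ 2 ≤ N →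
    ((badB (Fp (hR ⌊Real.log N ^ B⌋₊) P) N H (H / Real.log N ^ A)).card : ℝ) ≤ (N / H : ℝ) / Real.log N ^ A := by
  obtain ⟨D, e, hD, hcomb⟩ := comb 30 (by norm_num) ⌈1 / e1⌉₊
  obtain ⟨C0, hC0⟩ : ∃ C0, C0 = 5 * A + 14 := ⟨_, rfl⟩
  obtain ⟨C2, hC2⟩ : ∃ C2, C2 = A + 6 + C0 * e := ⟨_, rfl⟩
  obtain ⟨C1, hC1⟩ : ∃ C1, C1 = C0 * e + 1 := ⟨_, rfl⟩
  obtain ⟨C4, hms⟩ := ms hVK hSW (2 * A + 2 * C1 + 3) C2 e1 he1
  obtain ⟨L0, hL0, hcon⟩ := contra 10 (by norm_num) A C1 C2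
  refine ⟨C2, fun B hB => ?_⟩
  obtain ⟨N1, hms1⟩ := hms B hB
  obtain ⟨N2, hsq2⟩ := hsq B
  obtain ⟨E, hE⟩ : ∃ E, E = 4 * B + A + C2 + C4 + C0 * e + 10 := ⟨_, rfl⟩
  have hlog : Filter.Tendsto (fun N : ℕ => Real.log N) Filter.atTop Filter.atTop :=
    Real.tendsto_log_atTop.comp tendsto_natCast_atTop_atTop
  have hsmall : ∀ᶠ N : ℕ in Filter.atTop, 10 * D * Real.log N ^ E ≤ (N : ℝ) ^ e1 := by
    have h1 := isLittleO_log_rpow_rpow_atTop (s := e1) (E : ℝ) he1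
    have h2 := (h1.comp_tendsto tendsto_natCast_atTop_atTop).def (c := 1 / (10 * D)) (by positivity)
    filter_upwards [h2, hlog.eventually_ge_atTop 1] with N hN hN1
    simp only [Function.comp_apply] at hN
    rw [Real.rpow_natCast, Real.norm_eq_abs, Real.norm_eq_abs, abs_of_nonneg (by positivity),
      abs_of_nonneg (by positivity), one_div_mul_eq_div, le_div_iff₀ (by positivity)] at hN
    linarith
  obtain ⟨N0, hN0⟩ := Filter.eventually_atTop.mp (hsmall.and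
    ((hlog.eventually_ge_atTop (max (max 100 L0) (2 * D))).and
    (Filter.eventually_ge_atTop (max N1 (max N2 100)))))
  refine ⟨N0, fun N hN H P hP1 hPH hHN => ?_⟩
  obtain ⟨hP2, hLL, hNN⟩ := hN0 N hN
  have hL100 : 100 ≤ Real.log N := le_trans (le_trans (le_max_left _ _) (le_max_left _ _)) hLL
  have hLL0 : L0 ≤ Real.log N := le_trans (le_trans (le_max_right _ _) (le_max_left _ _)) hLL
  have hDL : 2 * D ≤ Real.log N := le_trans (le_max_right _ _) hLL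
  have hNN1 : N1 ≤ N := le_trans (le_max_left _ _) hNN
  have hNN2 : N2 ≤ N := le_trans (le_trans (le_max_left _ _) (le_max_right _ _)) hNN
  have hN100 : 100 ≤ N := le_trans (le_trans (le_max_right _ _) (le_max_right _ _)) hNN
  have hms2 := hms1 N hNN1
  have hsq3 := hsq2 N hNN2
  obtain ⟨L, hL⟩ : ∃ L, L = Real.log N := ⟨_, rfl⟩
  rw [← hL] at hP2 hL100 hLL0 hDL hms2 hsq3
  rw [← hL]
  have hNpos : 0 < N := by omega
  have hNr : (100 : ℝ) ≤ N := by exact_mod_cast hN100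
  have hL1 : 1 ≤ L := by linarith
  have hLpos : 0 < L := by linarith
  obtain ⟨R, hRdef⟩ : ∃ R, R = ⌊L ^ B⌋₊ := ⟨_, rfl⟩
  rw [← hRdef] at hms2
  rw [← hRdef]
  have hRB : (R : ℝ) ≤ L ^ B := by
    rw [hRdef]
    exact Nat.floor_le (by positivity)
  obtain ⟨n, hn⟩ : ∃ n, n = N / H := ⟨_, rfl⟩
  obtain ⟨hP100, hn1000, hH8, hnH, hNn, hw1, hw2, hη3, hDP, hT2, hθN, hPP⟩ :=
    Lfu_num (F := C0 * e) hL100 hD (hP2.trans hP1) hE hPH hHN hn hRB
  have hPpos : 0 < P := by omega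
  have hHpos : 0 < H := by omega
  have hHr : (0 : ℝ) < H := by exact_mod_cast hHpos
  by_contra hbad
  push Not at hbad
  obtain ⟨F0, hF0⟩ : ∃ F0, F0 = badB (Fp (hR R) P) N H (H / L ^ A) := ⟨_, rfl⟩
  rw [← hF0] at hbad
  have hmemF : ∀ i ∈ F0, i ∈ Icc (N / (2 * H)) (4 * N / H) ∧
      ∃ α : ℝ, H / L ^ A < ‖Bs (Fp (hR R) P) H i α‖ := by
    intro i hi
    rw [hF0] at hi
    exact (mem_badB _ _ _ _ _).mp hi
  choose! α hα using fun i hi => (hmemF i hi).2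
  obtain ⟨f, hf⟩ : ∃ f, f = cut (N / (16 * P)) (5 * N / P) (hR R) := ⟨_, rfl⟩
  have hrange := fun i hi => Lfu_range hH8 hHN (hmemF i hi).1
  rw [← hn] at hrange
  have hbig : ∀ i ∈ F0, H / L ^ A ≤ ‖Bs (Fp f P) H i (α i)‖ := by
    intro i hi
    obtain ⟨-, -, h3, h4⟩ := hrange i hi
    rw [hf, Lfu_Bs (hR R) hNpos hPpos h3 h4]
    exact (hα i hi).le
  have hSq : SqB f (R ^ 4 + 2) (N ^ 4) L := by
    rw [hf]
    exact hsq3 R hRB _ _
  have hN4 : N ≤ N ^ 4 := Nat.le_self_pow (by norm_num) N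
  have hnHr : (n : ℝ) * H ≤ N := by exact_mod_cast hnH
  have hX : 8 * 10 * (n : ℝ) * H ≤ ((N ^ 4 : ℕ) : ℝ) := by
    push_cast
    have h1 : 100 * (N : ℝ) ≤ (N : ℝ) ^ 4 := by
      have h2 : (N : ℝ) ^ 4 = N ^ 2 * (N * N) := by ring
      rw [h2]
      have h3 : (1 : ℝ) ≤ N ^ 2 := one_le_pow₀ (by linarith)
      have h4 : 100 * (N : ℝ) ≤ N * N := by nlinarith
      nlinarith
    linarith
  have hcard : n / L ^ A ≤ (F0.card : ℝ) := by
    refine le_trans ?_ hbad.le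
    apply div_le_div_of_nonneg_right _ (by positivity)
    rw [le_div_iff₀ hHr]
    exact hnHr
  have hn1000r : (1000 : ℝ) ≤ n := by exact_mod_cast hn1000
  obtain ⟨G0, β, R0, hRel, hR0⟩ := base 10 (by norm_num) A L n H P (R ^ 4 + 2) (N ^ 4) f F0 α hL100
    (by linarith) (by omega) (by omega) hw1 hSq hX (fun i hi => ⟨(hrange i hi).1, (hrange i hi).2.1⟩)
    hcard hbig
  rw [← hC0] at hR0
  obtain ⟨δ, hδ⟩ : ∃ δ, δ = 1 / L ^ C0 := ⟨_, rfl⟩
  obtain ⟨η, hη⟩ : ∃ η, η = 2 * L ^ (A + 5) / H := ⟨_, rfl⟩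
  have hδe : δ ^ e = 1 / L ^ (C0 * e) := by rw [hδ, div_pow, one_pow, ← pow_mul]
  have hF : 0 < L ^ (C0 * e) := by positivity
  have h30 : (3 : ℝ) * 10 = 30 := by norm_num
  rw [h30, ← hη] at hRel
  obtain ⟨d, b, T, F1, hd1, hd2, hT1, hF1, hF1c, hnz⟩ := hcomb n P δ η F0 G0 α β R0 hRel
    (by rw [hδ]; positivity)
    (by
      rw [hδ, div_le_one (by positivity)]
      exact one_le_pow₀ hL1)
    (by rw [hη]; positivity)
    (by
      rw [hδe, hη, le_div_iff₀ hF]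
      have h1 : D * (2 * L ^ (A + 5) / H) * (P : ℝ) ^ 3 * L ^ (C0 * e) =
          (2 * D * L ^ (A + 5 + C0 * e) * (P : ℝ) ^ 3) / H := by
        rw [pow_add L (A + 5) (C0 * e)]
        field_simp
      rw [h1, div_le_one hHr]
      exact hη3)
    (by
      rw [hδe, one_div_mul_eq_div, le_div_iff₀ hF]
      exact hDP)
    (by omega)
    (by
      have h1 : (N : ℝ) ≤ (P : ℝ) ^ ⌈1 / e1⌉₊ := by
        have h2 : (N : ℝ) ^ (1 : ℝ) ≤ (N : ℝ) ^ (e1 * (⌈1 / e1⌉₊ : ℝ)) := by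
          apply Real.rpow_le_rpow_of_exponent_le (by linarith)
          have h3 := Nat.le_ceil (1 / e1)
          rw [div_le_iff₀ he1] at h3
          linarith
        rw [Real.rpow_one, Real.rpow_mul (by linarith), Real.rpow_natCast] at h2
        exact h2.trans (pow_le_pow_left₀ (by positivity) hP1 _)
      have h2 : N ≤ P ^ ⌈1 / e1⌉₊ := by exact_mod_cast h1
      have h3 : n ≤ N := by
        rw [hn]
        exact Nat.div_le_self N H
      exact h3.trans h2)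
    (by
      rw [hδ]
      refine le_trans (le_of_eq ?_) hR0
      ring)
  have hF1ne : F1.Nonempty := by
    rw [← Finset.card_pos]
    have h1 : 0 < D * (F1.card : ℝ) := by
      refine lt_of_lt_of_le ?_ hF1c
      rw [hδe]
      positivity
    have h2 : (0 : ℝ) < F1.card := by
      by_contra hcon2
      have h3 : (F1.card : ℝ) = 0 := le_antisymm (not_lt.mp hcon2) (Nat.cast_nonneg _)
      rw [h3, mul_zero] at h1
      exact lt_irrefl _ h1
    exact_mod_cast h2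
  have hout := fun i (hi : i ∈ F1) => Lfu_out (x := nz (α i - b / d - T / i)) hL100 hD hDL hHr hδ hη
    (Nat.cast_nonneg n) (Nat.cast_nonneg F1.card) hd2 hT1 hF1c (hnz i hi)
  rw [← hC2, ← hC1] at hout
  obtain ⟨i1, hi1⟩ := hF1ne
  obtain ⟨hdL, hTL, hF1L, -⟩ := hout i1 hi1
  obtain ⟨θ, hθ⟩ : ∃ θ, θ = 1 / ((n : ℝ) * L ^ (A + C2 + 3)) := ⟨_, rfl⟩
  have hθden : (0 : ℝ) < n * L ^ (A + C2 + 3) := by positivity
  have hθ0 : 0 < θ := by rw [hθ]; positivity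
  have hK2P : 5 * N / P * P ≤ 5 * N := Nat.div_mul_le_self _ _
  have hPK2 : P ≤ 5 * N / P := by
    rw [Nat.le_div_iff_mul_le hPpos]
    omega
  obtain ⟨hint, hle⟩ := hms2 P (N / (16 * P)) (5 * N / P) (60 * N) d b (T * H) θ hP1
    (by nlinarith) hd1 hdL (hTL.trans hT2)
    (hP1.trans (by exact_mod_cast hPK2))
    (by
      rw [Nat.div_le_iff_le_mul_add_pred hPpos]
      nlinarith)
    (by omega)
    (by
      have : 2 * P * (5 * N / P) = 2 * (5 * N / P * P) := by ring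
      omega)
    (by omega) (by omega) hθ0
    (by
      rw [hθ, div_le_one hθden]
      have h1 : (1 : ℝ) ≤ L ^ (A + C2 + 3) := one_le_pow₀ hL1
      nlinarith)
    (by
      rw [hθ, one_div_mul_eq_div, le_div_iff₀ hθden]
      exact hθN)
  rw [← hf] at hint hle
  have hcon3 := hcon L n H P (R ^ 4 + 2) (60 * N) (N ^ 4) f ((b : ℝ) / d) (T * H) F1 α hLL0
    (by linarith) (by omega) (by omega) hw2 hSq hX
    (by
      push_cast
      linarith)
    (fun i hi => ⟨(hrange i (hF1 hi)).1, (hrange i (hF1 hi)).2.1⟩)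
    hF1L hTL
    (fun i hi => by
      have h1 := (hout i hi).2.2.2
      have h2 : T * H / ((i : ℝ) * H) = T / i := mul_div_mul_right _ _ hHr.ne'
      rw [h2]
      exact h1)
    (fun i hi => hbig i (hF1 hi))
    (by
      rw [← hθ]
      exact hint)
  rw [← hθ] at hcon3
  exact Lfu_end hL100 hθ0 hNpos hNn hcon3 hle

end Pool.Agent.H53.MID

end
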