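import Pool.Agent.H43.PM.M03
import Pool.Agent.H43.PM.M10

/-! The parts of this file: H53.MIX.MscW, H53.MIX.MsW. -/

section

/-!
# MIX MscW: mean square of the twisted Dirichlet polynomial, `P ≥ exp((log N)^t2)`

Copy and adapt `Pool.Agent.H53.MID.msc` (file `H53/MID/Msc.lean`, complete) with `vk_pr_w` in place of `vk_pr`; `SWp` and `K2` with the exponent `1/2` (`K2 ≥ N^(1/2)`); `P > L^C' ≥ d` since `P ≥ exp(L^t2)`.
-/

set_option autoImplicit false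

namespace Pool.Agent.H53.MIX

open Finset MeasureTheory
open Pool.Agent.H91.PK (ee)
open Pool.Agent.H91.EHA (Lam hR lamR ramS)
open Pool.Agent.H35.W (pb)
open Pool.Agent.H53.MID

private theorem MscW_int (p q : ℝ → ℝ) (hp : Continuous p) (hq : Continuous q)
    (hq0 : ∀ t, 0 ≤ q t) (U T M a b : ℝ) (hM : 0 ≤ M) (ha : 0 ≤ a) (hb : 0 ≤ b)
    (h1 : ∀ t ∈ Set.Icc (-U) U, M ≤ |T + t| → p t ≤ a)
    (h2 : ∀ t ∈ Set.Icc (-U) U, |T + t| < M → p t * q t ≤ b) :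
    ∫ t in Set.Icc (-U) U, p t * q t ≤ a * (∫ t in Set.Icc (-U) U, q t) + 2 * M * b := by
  set S : Set ℝ := Set.Ioo (-T - M) (-T + M) with hS
  have hint1 : IntegrableOn (fun t => p t * q t) (Set.Icc (-U) U) :=
    (hp.mul hq).continuousOn.integrableOn_Icc
  have hint2 : IntegrableOn q (Set.Icc (-U) U) := hq.continuousOn.integrableOn_Icc
  have hvol : volume S ≠ ⊤ := by
    rw [hS, Real.volume_Ioo]
    exact ENNReal.ofReal_ne_top
  have hint3 : Integrable (S.indicator (fun _ : ℝ => b)) volume :=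
    (integrable_indicator_iff measurableSet_Ioo).2 (integrableOn_const hvol)
  have hnn : ∀ t, 0 ≤ S.indicator (fun _ : ℝ => b) t :=
    fun t => Set.indicator_nonneg (fun _ _ => hb) t
  have e1 : ∫ t in Set.Icc (-U) U, p t * q t ≤
      ∫ t in Set.Icc (-U) U, (a * q t + S.indicator (fun _ : ℝ => b) t) := by
    refine setIntegral_mono_on hint1 ((hint2.const_mul a).add hint3.integrableOn)
      measurableSet_Icc fun t ht => ?_
    rcases le_or_gt M |T + t| with h | h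
    · have := mul_le_mul_of_nonneg_right (h1 t ht h) (hq0 t)
      have := hnn t
      linarith
    · have hmem : t ∈ S := by
        rw [hS, Set.mem_Ioo]
        rw [abs_lt] at h
        constructor <;> linarith [h.1, h.2]
      rw [Set.indicator_of_mem hmem]
      have := h2 t ht h
      have := mul_nonneg ha (hq0 t)
      linarith
  have e2 : ∫ t in Set.Icc (-U) U, (a * q t + S.indicator (fun _ : ℝ => b) t) =
      a * (∫ t in Set.Icc (-U) U, q t) + ∫ t in Set.Icc (-U) U, S.indicator (fun _ : ℝ => b) t := by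
    rw [integral_add (hint2.const_mul a) hint3.integrableOn, integral_const_mul]
  have e3 : ∫ t in Set.Icc (-U) U, S.indicator (fun _ : ℝ => b) t ≤ 2 * M * b := by
    refine (setIntegral_le_integral hint3 (Filter.Eventually.of_forall hnn)).trans ?_
    rw [integral_indicator_const _ measurableSet_Ioo, Real.volume_real_Ioo_of_le (by linarith),
      smul_eq_mul]
    exact le_of_eq (by ring)
  linarith

private theorem MscW_ee_cont (y : ℝ) (T : ℝ) : Continuous fun t : ℝ => ee (-((T + t) * y)) := by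
  unfold Pool.Agent.H91.PK.ee
  fun_prop

private theorem MscW_norm_ee (t : ℝ) : ‖ee t‖ = 1 := Pool.Agent.H91.PK.LSa_norm_ee t

private theorem MscW_Pl_cont (P d l : ℕ) (T : ℝ) : Continuous fun t : ℝ => Pl P d l (T + t) := by
  unfold Pl
  exact continuous_finsetSum _ fun p _ => MscW_ee_cont _ _

private theorem MscW_Kl_cont (f : ℕ → ℝ) (K1 K2 : ℕ) (a T : ℝ) :
    Continuous fun t : ℝ => Kl f K1 K2 a (T + t) := by
  unfold Kl
  exact continuous_finsetSum _ fun p _ => continuous_const.mul (MscW_ee_cont _ _)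

private theorem MscW_Pl_le (P d l : ℕ) (s : ℝ) : ‖Pl P d l s‖ ≤ P := by
  unfold Pl
  refine (norm_sum_le _ _).trans ?_
  simp only [MscW_norm_ee, sum_const, nsmul_eq_mul, mul_one]
  have h : ((pb P).filter (fun p => p % d = l % d)).card ≤ P := by
    refine (Finset.card_filter_le _ _).trans ?_
    unfold Pool.Agent.H35.W.pb
    refine (Finset.card_filter_le _ _).trans ?_
    rw [Nat.card_Ioc]
    omega
  exact_mod_cast h

/-- lowest terms -/
private theorem MscW_low (l b d : ℕ) (hd : 1 ≤ d) : ∃ b' c : ℕ, 1 ≤ c ∧ c ≤ d ∧ Nat.Coprime b' c ∧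
    (l : ℝ) * b / d = (b' : ℝ) / c := by
  have hg : 0 < Nat.gcd (l * b) d := Nat.gcd_pos_of_pos_right _ (by omega)
  have h1 : Nat.gcd (l * b) d ∣ d := Nat.gcd_dvd_right _ _
  have h2 : Nat.gcd (l * b) d ∣ l * b := Nat.gcd_dvd_left _ _
  refine ⟨l * b / Nat.gcd (l * b) d, d / Nat.gcd (l * b) d, ?_, Nat.div_le_self _ _,
    Nat.coprime_div_gcd_div_gcd hg, ?_⟩
  · exact Nat.div_pos (Nat.le_of_dvd (by omega) h1) hg
  · have hg' : ((Nat.gcd (l * b) d : ℕ) : ℝ) ≠ 0 := by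
      exact_mod_cast hg.ne'
    rw [Nat.cast_div h2 hg', Nat.cast_div h1 hg', Nat.cast_mul]
    have hd' : (d : ℝ) ≠ 0 := by
      exact_mod_cast (by omega : d ≠ 0)
    field_simp

/-- `Kl` as a sum over `[1, K2]` -/
private theorem MscW_Kl_eq (f : ℕ → ℝ) (K1 K2 : ℕ) (a s : ℝ) :
    Kl f K1 K2 a s = ∑ m ∈ Icc 1 K2, ((cut K1 K2 f m : ℂ) * ee (-(m * a))) *
      ee (-(s * Real.log m)) := by
  unfold Kl
  have hsub : Ioc K1 K2 ⊆ Icc 1 K2 := by
    intro m hm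
    rw [mem_Ioc] at hm
    rw [mem_Icc]
    omega
  rw [← sum_subset hsub (f := fun m => ((cut K1 K2 f m : ℂ) * ee (-(m * a))) *
      ee (-(s * Real.log m)))]
  · refine Finset.sum_congr rfl fun m hm => ?_
    unfold cut
    rw [if_pos hm]
  · intro m _ hm
    unfold cut
    rw [if_neg hm]
    simp

/-- mean square of `Kl` -/
private theorem MscW_Kl_ms (f : ℕ → ℝ) (K1 K2 w0 Y : ℕ) (L a T U : ℝ) (hK : 1 ≤ K2) (hU : 0 ≤ U)
    (h : SqB (cut K1 K2 f) w0 Y L) (hw : w0 ≤ K2 + 1) (hY : K2 + 1 ≤ Y) :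
    ∫ t in Set.Icc (-U) U, ‖Kl f K1 K2 a (T + t)‖ ^ 2 ≤
      (2 * U + 2 * K2 * (1 + Real.log K2)) * ((K2 + 1) * L ^ 4) := by
  have h1 := mvt (fun m => (cut K1 K2 f m : ℂ) * ee (-(m * a))) K2 U T hK hU
  simp only [← MscW_Kl_eq] at h1
  refine h1.trans ?_
  have h2 : ∑ m ∈ Icc 1 K2, ‖(cut K1 K2 f m : ℂ) * ee (-(m * a))‖ ^ 2 ≤ (K2 + 1) * L ^ 4 := by
    have h3 := h 0 (K2 + 1) hw (by omega)
    rw [zero_add] at h3
    push_cast at h3
    refine le_trans ?_ h3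
    have h4 : ∑ m ∈ Icc 1 K2, ‖(cut K1 K2 f m : ℂ) * ee (-(m * a))‖ ^ 2 =
        ∑ m ∈ Icc 1 K2, cut K1 K2 f m ^ 2 := by
      refine Finset.sum_congr rfl fun m _ => ?_
      rw [norm_mul, MscW_norm_ee, mul_one, Complex.norm_real, Real.norm_eq_abs, sq_abs]
    rw [h4]
    refine Finset.sum_le_sum_of_subset_of_nonneg ?_ fun m _ _ => sq_nonneg _
    intro m hm
    rw [mem_Icc] at hm
    rw [mem_Ico]
    omega
  have h5 : 0 ≤ 2 * U + 2 * K2 * (1 + Real.log K2) := by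
    have : 0 ≤ Real.log K2 := Real.log_natCast_nonneg K2
    positivity
  exact mul_le_mul_of_nonneg_left h2 h5

/-- the elementary thresholds -/
private theorem MscW_big (B : ℕ) (e1 : ℝ) (he1 : 0 < e1) : ∃ N0 : ℕ, ∀ N : ℕ, N0 ≤ N →
    50 ≤ Real.log N ∧ Real.log N ^ (4 * B) + 1 ≤ (N : ℝ) ^ e1 ∧ 3 ≤ N := by
  have h1 := (isLittleO_log_rpow_atTop (r := e1 / (4 * B + 1)) (by positivity)).bound (c := 1)
    one_pos
  have h2 := (Real.tendsto_log_atTop.eventually (Filter.eventually_ge_atTop (50 : ℝ))).and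
    (h1.and (Filter.eventually_ge_atTop (3 : ℝ)))
  have h3 := tendsto_natCast_atTop_atTop (R := ℝ) |>.eventually h2
  obtain ⟨x1, hx1⟩ := Filter.eventually_atTop.1 h3
  refine ⟨x1, fun N hN => ?_⟩
  obtain ⟨g1, g2, g3⟩ := hx1 N hN
  refine ⟨g1, ?_, by exact_mod_cast g3⟩
  have hN0 : (0 : ℝ) < N := by linarith
  have hL0 : 0 ≤ Real.log N := by linarith
  rw [one_mul, Real.norm_eq_abs, Real.norm_eq_abs, abs_of_nonneg hL0,
    abs_of_nonneg (Real.rpow_nonneg hN0.le _)] at g2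
  have h4 : Real.log N ^ (4 * B + 1) ≤ (N : ℝ) ^ e1 := by
    calc Real.log N ^ (4 * B + 1) ≤ ((N : ℝ) ^ (e1 / (4 * B + 1))) ^ (4 * B + 1) :=
          pow_le_pow_left₀ hL0 g2 _
      _ = (N : ℝ) ^ e1 := by
          rw [← Real.rpow_natCast, ← Real.rpow_mul hN0.le]
          congr 1
          push_cast
          field_simp
  have h5 : 1 ≤ Real.log N ^ (4 * B) := one_le_pow₀ (by linarith)
  rw [pow_succ] at h4
  nlinarith

/-- final arithmetic -/
private theorem MscW_arith (N P K2 d U L : ℝ) (A' C' K' : ℕ) (hN : 0 < N) (hP : 0 < P)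
    (hL : 50 ≤ L) (hd : d ≤ L ^ C') (hd0 : 0 ≤ d) (hU : 1 ≤ U) (hUP : U * P ≤ N)
    (hK : 1 ≤ K2) (hKP : K2 * P ≤ 16 * N) (lk : ℝ) (hlk : lk ≤ L) (hlk0 : 0 ≤ lk) :
    d * (d * ((P / L ^ (C' + A' + 6)) ^ 2 * ((2 * U + 2 * K2 * (1 + lk)) * ((K2 + 1) * L ^ 4)) +
      2 * L ^ K' * (P * (K2 / L ^ (C' + K' + A' + 10))) ^ 2)) ≤ N ^ 2 / L ^ A' := by
  have hL0 : 0 < L := by linarith
  have hL1 : 1 ≤ L := by linarith
  have hdd : d * d ≤ (L ^ C') ^ 2 := by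
    rw [sq]
    exact mul_le_mul hd hd hd0 (by positivity)
  have hPU : P * U ≤ N := by linarith
  -- first term
  have a1 : P * (2 * U + 2 * K2 * (1 + lk)) ≤ N * (66 * L) := by
    have e1 : P * K2 * (1 + lk) ≤ 16 * N * (2 * L) := by
      have : P * K2 ≤ 16 * N := by linarith
      exact mul_le_mul this (by linarith) (by linarith) (by positivity)
    have e2 : N ≤ N * L := le_mul_of_one_le_right hN.le hL1
    nlinarith
  have a2 : P * (K2 + 1) ≤ 32 * N := by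
    have : P * 1 ≤ P * K2 := mul_le_mul_of_nonneg_left hK hP.le
    linarith
  have a3 : P ^ 2 * ((2 * U + 2 * K2 * (1 + lk)) * ((K2 + 1) * L ^ 4)) ≤ N ^ 2 * L ^ 7 := by
    have e1 : 0 ≤ 2 * U + 2 * K2 * (1 + lk) := by positivity
    calc P ^ 2 * ((2 * U + 2 * K2 * (1 + lk)) * ((K2 + 1) * L ^ 4))
        = (P * (2 * U + 2 * K2 * (1 + lk))) * (P * (K2 + 1)) * L ^ 4 := by ring
      _ ≤ (N * (66 * L)) * (32 * N) * L ^ 4 := by
          refine mul_le_mul_of_nonneg_right (mul_le_mul a1 a2 (by positivity) (by positivity)) (by positivity)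
      _ = N ^ 2 * (2112 * L ^ 5) := by ring
      _ ≤ N ^ 2 * L ^ 7 := by
          refine mul_le_mul_of_nonneg_left ?_ (by positivity)
          have : 2112 ≤ L ^ 2 := by nlinarith
          calc 2112 * L ^ 5 ≤ L ^ 2 * L ^ 5 := mul_le_mul_of_nonneg_right this (by positivity)
            _ = L ^ 7 := by ring
  have b1 : P ^ 2 * K2 ^ 2 ≤ 256 * N ^ 2 := by
    have : (P * K2) ^ 2 ≤ (16 * N) ^ 2 := pow_le_pow_left₀ (by positivity) (by linarith) 2
    nlinarith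
  have c1 : (P / L ^ (C' + A' + 6)) ^ 2 * ((2 * U + 2 * K2 * (1 + lk)) * ((K2 + 1) * L ^ 4)) ≤
      N ^ 2 / ((L ^ C') ^ 2 * L ^ A') * (1 / 2) := by
    rw [div_pow, div_mul_eq_mul_div, div_le_iff₀ (by positivity)]
    refine a3.trans ?_
    have e : N ^ 2 / ((L ^ C') ^ 2 * L ^ A') * (1 / 2) * (L ^ (C' + A' + 6)) ^ 2 =
        N ^ 2 * (L ^ 7 * (L ^ A' * L ^ 5 / 2)) := by
      rw [pow_add, pow_add]
      field_simp
    rw [e]
    refine mul_le_mul_of_nonneg_left ?_ (by positivity)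
    have h1 : 1 ≤ L ^ A' := one_le_pow₀ hL1
    have h2 : 2 ≤ L ^ 5 := by
      calc (2 : ℝ) ≤ L := by linarith
        _ = L ^ 1 := (pow_one L).symm
        _ ≤ L ^ 5 := pow_le_pow_right₀ hL1 (by norm_num)
    refine le_mul_of_one_le_right (by positivity) ?_
    nlinarith
  have c2 : 2 * L ^ K' * (P * (K2 / L ^ (C' + K' + A' + 10))) ^ 2 ≤
      N ^ 2 / ((L ^ C') ^ 2 * L ^ A') * (1 / 2) := by
    have e0 : 2 * L ^ K' * (P * (K2 / L ^ (C' + K' + A' + 10))) ^ 2 =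
        2 * L ^ K' * (P ^ 2 * K2 ^ 2) / (L ^ (C' + K' + A' + 10)) ^ 2 := by
      field_simp
    rw [e0, div_le_iff₀ (by positivity)]
    have e : N ^ 2 / ((L ^ C') ^ 2 * L ^ A') * (1 / 2) * (L ^ (C' + K' + A' + 10)) ^ 2 =
        N ^ 2 * L ^ K' * (L ^ K' * L ^ A' * L ^ 20 / 2) := by
      rw [pow_add, pow_add, pow_add]
      field_simp
    rw [e]
    have h1 : 1 ≤ L ^ A' := one_le_pow₀ hL1
    have h1' : 1 ≤ L ^ K' := one_le_pow₀ hL1
    have h3 : 1 ≤ L ^ K' * L ^ A' := one_le_mul_of_one_le_of_one_le h1' h1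
    have h2 : 1024 ≤ L ^ 20 := by
      calc (1024 : ℝ) ≤ L ^ 2 := by nlinarith
        _ ≤ L ^ 20 := pow_le_pow_right₀ hL1 (by norm_num)
    have h4 : 512 ≤ L ^ K' * L ^ A' * L ^ 20 / 2 := by nlinarith
    calc 2 * L ^ K' * (P ^ 2 * K2 ^ 2) ≤ 2 * L ^ K' * (256 * N ^ 2) :=
          mul_le_mul_of_nonneg_left b1 (by positivity)
      _ = N ^ 2 * L ^ K' * 512 := by ring
      _ ≤ _ := mul_le_mul_of_nonneg_left h4 (by positivity)
  have hX : 0 ≤ N ^ 2 / ((L ^ C') ^ 2 * L ^ A') := by positivity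
  calc _ = d * d * ((P / L ^ (C' + A' + 6)) ^ 2 * ((2 * U + 2 * K2 * (1 + lk)) * ((K2 + 1) * L ^ 4)) +
      2 * L ^ K' * (P * (K2 / L ^ (C' + K' + A' + 10))) ^ 2) := by ring
    _ ≤ d * d * (N ^ 2 / ((L ^ C') ^ 2 * L ^ A')) := by
        refine mul_le_mul_of_nonneg_left ?_ (by positivity)
        linarith
    _ ≤ (L ^ C') ^ 2 * (N ^ 2 / ((L ^ C') ^ 2 * L ^ A')) := mul_le_mul_of_nonneg_right hdd hX
    _ = N ^ 2 / L ^ A' := by
        field_simp

theorem msc_w (t1 t2 : ℝ) (h0 : 0 < t1) (h12 : t1 < t2) (hVK : VKw t1) (hSW : SWp) (A' C' : ℕ) :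
    ∀ B : ℕ, C' ≤ B → ∃ N0 : ℕ, ∀ N : ℕ, N0 ≤ N →
    ∀ (P K1 K2 X d b : ℕ) (T U : ℝ), Real.exp (Real.log N ^ t2) ≤ P → P ≤ N → 1 ≤ d → (d : ℝ) ≤ Real.log N ^ C' →
    |T| ≤ (N : ℝ) ^ 2 → 1 ≤ U → U * P ≤ N → (N : ℝ) ^ (1 / 2 : ℝ) ≤ K2 → K2 ≤ N → K2 * P ≤ 16 * N → 2 * P * K2 ≤ X →
    ∫ t in Set.Icc (-U) U, ‖Cs (cc (cut K1 K2 (hR ⌊Real.log N ^ B⌋₊)) P ((b : ℝ) / d) T) X t‖ ^ 2
      ≤ (N : ℝ) ^ 2 / Real.log N ^ A' := by
  intro B hCB
  obtain ⟨K', N1, hN1⟩ := vk_pr_w t1 t2 h0 h12 hVK (C' + A' + 6) C'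
  obtain ⟨N2, hN2⟩ := hSW B K' (C' + K' + A' + 10) (1 / 2) (by norm_num)
  obtain ⟨N3, hN3⟩ := hsq B
  obtain ⟨N4, hN4⟩ := MscW_big B (1 / 2) (by norm_num)
  refine ⟨max (max N1 N2) (max N3 N4), fun N hN P K1 K2 X d b T U hP1 hP2 hd1 hd2 hT hU hUP hK1 hK2
    hKP hX => ?_⟩
  have g1 := hN1 N (le_trans (le_trans (le_max_left _ _) (le_max_left _ _)) hN)
  have g2 := hN2 N (le_trans (le_trans (le_max_right _ _) (le_max_left _ _)) hN)
  have g3 := hN3 N (le_trans (le_trans (le_max_left _ _) (le_max_right _ _)) hN)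
  obtain ⟨hL, hbig, hN3'⟩ := hN4 N (le_trans (le_trans (le_max_right _ _) (le_max_right _ _)) hN)
  set L := Real.log N with hLdef
  set R := ⌊L ^ B⌋₊ with hR'
  set f := hR R with hf
  have hL1 : 1 ≤ L := by linarith
  have hL0 : 0 < L := by linarith
  have hR1 : (R : ℝ) ≤ L ^ B := Nat.floor_le (by positivity)
  have hNR : (3 : ℝ) ≤ N := by exact_mod_cast hN3'
  have hP0 : (0 : ℝ) < P := lt_of_lt_of_le (Real.exp_pos _) hP1
  have hK20 : (0 : ℝ) < K2 := lt_of_lt_of_le (Real.rpow_pos_of_pos (by linarith) _) hK1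
  have hK2' : 1 ≤ K2 := by
    have : 0 < K2 := by exact_mod_cast hK20
    omega
  have hK2R : (1 : ℝ) ≤ K2 := by exact_mod_cast hK2'
  have hUN : U ≤ N := by
    have hP1' : (1 : ℝ) ≤ P := by
      have h0 : 0 < P := by exact_mod_cast hP0
      exact_mod_cast h0
    nlinarith
  -- pointwise
  have hpt : ∀ t : ℝ, ‖Cs (cc (cut K1 K2 f) P ((b : ℝ) / d) T) X t‖ ^ 2 ≤
      d * ∑ l ∈ range d, ‖Pl P d l (T + t)‖ ^ 2 * ‖Kl f K1 K2 ((l : ℝ) * b / d) (T + t)‖ ^ 2 :=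
    fun t => fac_sq f P K1 K2 X d b T t hd1 hX
  have hcontP : ∀ l, Continuous fun t : ℝ => ‖Pl P d l (T + t)‖ ^ 2 :=
    fun l => (MscW_Pl_cont P d l T).norm.pow 2
  have hcontK : ∀ l : ℕ, Continuous fun t : ℝ => ‖Kl f K1 K2 ((l : ℝ) * b / d) (T + t)‖ ^ 2 :=
    fun l => (MscW_Kl_cont f K1 K2 _ T).norm.pow 2
  have hcontC : Continuous fun t : ℝ => ‖Cs (cc (cut K1 K2 f) P ((b : ℝ) / d) T) X t‖ ^ 2 := by
    refine Continuous.pow (Continuous.norm ?_) 2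
    unfold Cs
    refine continuous_finsetSum _ fun m _ => continuous_const.mul ?_
    have := MscW_ee_cont (Real.log m) 0
    simpa only [zero_add] using this
  have hI1 : ∫ t in Set.Icc (-U) U, ‖Cs (cc (cut K1 K2 f) P ((b : ℝ) / d) T) X t‖ ^ 2 ≤
      d * ∑ l ∈ range d, ∫ t in Set.Icc (-U) U,
        ‖Pl P d l (T + t)‖ ^ 2 * ‖Kl f K1 K2 ((l : ℝ) * b / d) (T + t)‖ ^ 2 := by
    have hi : ∀ l ∈ range d, Integrable (fun t : ℝ => ‖Pl P d l (T + t)‖ ^ 2 *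
        ‖Kl f K1 K2 ((l : ℝ) * b / d) (T + t)‖ ^ 2) (volume.restrict (Set.Icc (-U) U)) :=
      fun l _ => ((hcontP l).mul (hcontK l)).continuousOn.integrableOn_Icc
    rw [← integral_finsetSum _ hi, ← integral_const_mul]
    refine setIntegral_mono_on hcontC.continuousOn.integrableOn_Icc ?_ measurableSet_Icc
      fun t _ => hpt t
    refine Continuous.continuousOn ?_ |>.integrableOn_Icc
    exact continuous_const.mul (continuous_finsetSum _ fun l _ => (hcontP l).mul (hcontK l))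
  refine hI1.trans ?_
  -- each class
  have hcl : ∀ l ∈ range d, ∫ t in Set.Icc (-U) U,
        ‖Pl P d l (T + t)‖ ^ 2 * ‖Kl f K1 K2 ((l : ℝ) * b / d) (T + t)‖ ^ 2 ≤
      (P / L ^ (C' + A' + 6)) ^ 2 * ((2 * U + 2 * K2 * (1 + Real.log K2)) * ((K2 + 1) * L ^ 4)) +
      2 * L ^ K' * (P * (K2 / L ^ (C' + K' + A' + 10))) ^ 2 := by
    intro l _
    obtain ⟨b', c, hc1, hc2, hc3, hc4⟩ := MscW_low l b d hd1
    have hcR : c ≤ R := by
      refine Nat.le_floor ?_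
      calc (c : ℝ) ≤ d := by exact_mod_cast hc2
        _ ≤ L ^ C' := hd2
        _ ≤ L ^ B := pow_le_pow_right₀ hL1 hCB
    have k1 := MscW_int (fun t => ‖Pl P d l (T + t)‖ ^ 2)
      (fun t => ‖Kl f K1 K2 ((l : ℝ) * b / d) (T + t)‖ ^ 2) (hcontP l) (hcontK l)
      (fun t => by positivity) U T (L ^ K') ((P / L ^ (C' + A' + 6)) ^ 2)
      ((P * (K2 / L ^ (C' + K' + A' + 10))) ^ 2) (by positivity) (by positivity) (by positivity)
      ?_ ?_
    · refine k1.trans ?_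
      have k2 := MscW_Kl_ms f K1 K2 (R ^ 4 + 2) (N ^ 4) L ((l : ℝ) * b / d) T U hK2' (by linarith)
        (g3 R hR1 K1 K2) ?_ ?_
      · have := mul_le_mul_of_nonneg_left k2 (by positivity : (0 : ℝ) ≤ (P / L ^ (C' + A' + 6)) ^ 2)
        linarith
      · have h1 : ((R ^ 4 + 1 : ℕ) : ℝ) ≤ (K2 : ℝ) := by
          push_cast
          calc (R : ℝ) ^ 4 + 1 ≤ (L ^ B) ^ 4 + 1 := by
                have := pow_le_pow_left₀ (Nat.cast_nonneg R) hR1 4
                linarith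
            _ = L ^ (4 * B) + 1 := by rw [← pow_mul, mul_comm B 4]
            _ ≤ (N : ℝ) ^ (1 / 2 : ℝ) := hbig
            _ ≤ K2 := hK1
        have h2 : R ^ 4 + 1 ≤ K2 := by exact_mod_cast h1
        omega
      · have : N + 1 ≤ N ^ 4 := by
          calc N + 1 ≤ N * N := by nlinarith
            _ = N ^ 2 := (sq N).symm
            _ ≤ N ^ 4 := Nat.pow_le_pow_right (by omega) (by norm_num)
        omega
    · intro t ht hM
      rw [Set.mem_Icc] at ht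
      have habs : |T + t| ≤ (N : ℝ) ^ 3 := by
        have h1 : |t| ≤ U := abs_le.2 ht
        have h2 : |T + t| ≤ |T| + |t| := abs_add_le _ _
        nlinarith [sq_nonneg (N : ℝ)]
      have k2 := g1 P d l (T + t) hP1 hP2 hd1 hd2 hM habs
      exact pow_le_pow_left₀ (norm_nonneg _) k2 2
    · intro t ht hM
      have k2 := g2 R c b' K1 K2 (T + t) hR1 hc1 hcR hc3 hK1 hK2 hM.le
      have k3 : ‖Kl f K1 K2 ((l : ℝ) * b / d) (T + t)‖ ≤ K2 / L ^ (C' + K' + A' + 10) := by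
        refine le_trans (le_of_eq ?_) k2
        unfold Kl
        congr 1
        refine Finset.sum_congr rfl fun m _ => ?_
        rw [hc4, mul_div_assoc]
      have k4 := MscW_Pl_le P d l (T + t)
      show ‖Pl P d l (T + t)‖ ^ 2 * ‖Kl f K1 K2 ((l : ℝ) * b / d) (T + t)‖ ^ 2 ≤ _
      rw [← mul_pow]
      exact pow_le_pow_left₀ (by positivity)
        (mul_le_mul k4 k3 (norm_nonneg _) (Nat.cast_nonneg P)) 2
  have hsum := Finset.sum_le_sum hcl
  rw [sum_const, card_range, nsmul_eq_mul] at hsum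
  refine (mul_le_mul_of_nonneg_left hsum (Nat.cast_nonneg d)).trans ?_
  refine MscW_arith N P K2 d U L A' C' K' (by linarith) hP0 hL hd2 (Nat.cast_nonneg d) hU
    hUP hK2R (by exact_mod_cast hKP) (Real.log K2) ?_ (Real.log_natCast_nonneg K2)
  exact Real.log_le_log hK20 (by exact_mod_cast hK2)

end Pool.Agent.H53.MIX

end

section

/-!
# MIX MsW: mean square over multiplicative windows, `P ≥ exp((log N)^t2)`

Copy and adapt `Pool.Agent.H53.MID.ms` (file `H53/MID/Ms.lean`, complete), using `msc_w`.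
-/

set_option autoImplicit false

namespace Pool.Agent.H53.MIX

open Finset MeasureTheory
open Pool.Agent.H91.PK (ee)
open Pool.Agent.H91.EHA (Lam hR lamR ramS)
open Pool.Agent.H35.W (pb)
open Pool.Agent.H53.MID

private theorem MsW_asy (k : ℕ) (e1 : ℝ) (he1 : 0 < e1) :
    ∀ᶠ N : ℕ in Filter.atTop, Real.log N ^ k + 1 ≤ (N : ℝ) ^ e1 := by
  have h1 := (isLittleO_log_rpow_rpow_atTop (k : ℝ) he1).bound (show (0 : ℝ) < 1 / 2 by norm_num)
  have h2 := (tendsto_rpow_atTop he1).eventually_ge_atTop 2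
  have h3 := (tendsto_natCast_atTop_atTop (R := ℝ)).eventually (h1.and h2)
  filter_upwards [h3] with N hN
  obtain ⟨h4, h5⟩ := hN
  rw [Real.rpow_natCast, Real.norm_eq_abs, Real.norm_eq_abs] at h4
  have h6 : |(N : ℝ) ^ e1| = (N : ℝ) ^ e1 := abs_of_nonneg (by positivity)
  rw [h6] at h4
  have h7 := (le_abs_self _).trans h4
  linarith

private theorem MsW_cc (f : ℕ → ℝ) (P m : ℕ) (a T : ℝ) : ‖cc f P a T m‖ = |Fp f P m| := by
  unfold cc
  rw [norm_mul, norm_mul, Pool.Agent.H91.PK.LSa_norm_ee, Pool.Agent.H91.PK.LSa_norm_ee, mul_one, mul_one,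
    Complex.norm_real, Real.norm_eq_abs]

private theorem MsW_card (P m : ℕ) (hm : 1 ≤ m) : (((pb P).filter (fun p => p ∣ m)).card : ℝ) ≤ 2 * Real.log m := by
  have hsub : (pb P).filter (fun p => p ∣ m) ⊆ m.primeFactors := by
    intro p hp
    rw [Finset.mem_filter] at hp
    unfold pb at hp
    rw [Finset.mem_filter] at hp
    exact Nat.mem_primeFactors.2 ⟨hp.1.2, hp.2, by omega⟩
  have h1 : 2 ^ m.primeFactors.card ≤ m := by
    calc 2 ^ m.primeFactors.card = ∏ _p ∈ m.primeFactors, 2 := by rw [Finset.prod_const]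
      _ ≤ ∏ p ∈ m.primeFactors, p := Finset.prod_le_prod' fun p hp => (Nat.prime_of_mem_primeFactors hp).two_le
      _ ≤ m := Nat.le_of_dvd (by omega) (Nat.prod_primeFactors_dvd m)
  have h2 : 2 ^ ((pb P).filter (fun p => p ∣ m)).card ≤ m :=
    (Nat.pow_le_pow_right (by norm_num) (Finset.card_le_card hsub)).trans h1
  have h3 : (2 : ℝ) ^ ((pb P).filter (fun p => p ∣ m)).card ≤ m := by exact_mod_cast h2
  have h4 := Real.log_le_log (by positivity) h3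
  rw [Real.log_pow] at h4
  have h5 := Real.log_two_gt_d9
  have h6 : (0 : ℝ) ≤ (((pb P).filter (fun p => p ∣ m)).card : ℝ) := by positivity
  nlinarith

private theorem MsW_sum (f : ℕ → ℝ) (P K1 K2 X : ℕ) (M S : ℝ) (hM0 : 0 ≤ M)
    (hM : ∀ m ∈ Icc 1 X, (((pb P).filter (fun p => p ∣ m)).card : ℝ) ≤ M)
    (hS : ∑ k ∈ Ico 0 (0 + (K2 + 1)), cut K1 K2 f k ^ 2 ≤ S) :
    ∑ m ∈ Icc 1 X, |Fp (cut K1 K2 f) P m| ^ 2 ≤ M * (P * S) := by
  have h1 : ∀ m ∈ Icc 1 X, |Fp (cut K1 K2 f) P m| ^ 2 ≤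
      M * ∑ p ∈ (pb P).filter (fun p => p ∣ m), cut K1 K2 f (m / p) ^ 2 := by
    intro m hm
    rw [sq_abs]
    unfold Fp
    refine sq_sum_le_card_mul_sum_sq.trans ?_
    exact mul_le_mul_of_nonneg_right (hM m hm) (Finset.sum_nonneg fun _ _ => sq_nonneg _)
  refine (Finset.sum_le_sum h1).trans ?_
  rw [← Finset.mul_sum]
  refine mul_le_mul_of_nonneg_left ?_ hM0
  have hS0 : 0 ≤ S := (Finset.sum_nonneg fun _ _ => sq_nonneg _).trans hS
  have h2 : ∑ m ∈ Icc 1 X, ∑ p ∈ (pb P).filter (fun p => p ∣ m), cut K1 K2 f (m / p) ^ 2 =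
      ∑ p ∈ pb P, ∑ m ∈ (Icc 1 X).filter (fun m => p ∣ m), cut K1 K2 f (m / p) ^ 2 := by
    simp_rw [Finset.sum_filter]
    exact Finset.sum_comm
  rw [h2]
  have h3 : ∀ p ∈ pb P, ∑ m ∈ (Icc 1 X).filter (fun m => p ∣ m), cut K1 K2 f (m / p) ^ 2 ≤ S := by
    intro p _
    refine le_trans ?_ hS
    have hinj : Set.InjOn (fun m => m / p) (((Icc 1 X).filter (fun m => p ∣ m) : Finset ℕ) : Set ℕ) := by
      intro a ha b hb hab
      rw [Finset.mem_coe, Finset.mem_filter] at ha hb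
      have e : a / p = b / p := hab
      rw [← Nat.div_mul_cancel ha.2, ← Nat.div_mul_cancel hb.2, e]
    rw [← Finset.sum_image (f := fun k => cut K1 K2 f k ^ 2) (g := fun m => m / p) hinj]
    rw [← Finset.sum_filter_ne_zero]
    refine Finset.sum_le_sum_of_subset_of_nonneg ?_ fun _ _ _ => sq_nonneg _
    intro k hk
    rw [Finset.mem_filter] at hk
    rw [Finset.mem_Ico]
    refine ⟨Nat.zero_le _, ?_⟩
    by_contra hcon
    apply hk.2
    have : cut K1 K2 f k = 0 := by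
      unfold cut
      rw [if_neg]
      rw [Finset.mem_Ioc]
      omega
    simp [this]
  refine (Finset.sum_le_sum h3).trans ?_
  rw [Finset.sum_const, nsmul_eq_mul]
  refine mul_le_mul_of_nonneg_right ?_ hS0
  have h4 : (pb P).card ≤ P := by
    unfold pb
    refine (Finset.card_filter_le _ _).trans ?_
    rw [Nat.card_Ioc]
    omega
  exact_mod_cast h4

theorem ms_w (t1 t2 : ℝ) (h0 : 0 < t1) (h12 : t1 < t2) (hVK : VKw t1) (hSW : SWp) (A' C' : ℕ) : ∃ C4 : ℕ, ∀ B : ℕ,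
    C' ≤ B → ∃ N0 : ℕ,
    ∀ N : ℕ, N0 ≤ N → ∀ (P K1 K2 X d b : ℕ) (T θ : ℝ), Real.exp (Real.log N ^ t2) ≤ P → P ≤ N → 1 ≤ d →
    (d : ℝ) ≤ Real.log N ^ C' →
    |T| ≤ (N : ℝ) ^ 2 → (N : ℝ) ^ (1 / 2 : ℝ) ≤ K2 → K2 ≤ N → K2 * P ≤ 16 * N → 2 * P * K2 ≤ X → X ≤ 64 * N → 1 ≤ X →
    0 < θ → θ ≤ 1 → P * Real.log N ^ C4 ≤ θ * N →
    Integrable (fun u => ‖Dw (cc (cut K1 K2 (hR ⌊Real.log N ^ B⌋₊)) P ((b : ℝ) / d) T) X θ u‖ ^ 2) ∧
    ∫ u, ‖Dw (cc (cut K1 K2 (hR ⌊Real.log N ^ B⌋₊)) P ((b : ℝ) / d) T) X θ u‖ ^ 2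
      ≤ θ ^ 2 * (N : ℝ) ^ 2 / Real.log N ^ A' := by
  refine ⟨A' + 12, fun B hB => ?_⟩
  obtain ⟨N1, hN1⟩ := msc_w t1 t2 h0 h12 hVK hSW (A' + 1) C' B hB
  obtain ⟨N2, hN2⟩ := hsq B
  obtain ⟨N3, hN3⟩ := Filter.eventually_atTop.1 (MsW_asy (B * 4) (1 / 2) (by norm_num))
  refine ⟨max (max N1 N2) (max N3 64), fun N hN P K1 K2 X d b T θ hP1 hP2 hd1 hd2 hT hK1 hK2 hKP hPX hX1 hX2 hθ0 hθ1 hθ2 => ?_⟩
  have hNN1 : N1 ≤ N := (le_max_left _ _).trans ((le_max_left _ _).trans hN)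
  have hNN2 : N2 ≤ N := (le_max_right _ _).trans ((le_max_left _ _).trans hN)
  have hNN3 : N3 ≤ N := (le_max_left _ _).trans ((le_max_right _ _).trans hN)
  have hN64 : 64 ≤ N := (le_max_right _ _).trans ((le_max_right _ _).trans hN)
  have hN64' : (64 : ℝ) ≤ N := by exact_mod_cast hN64
  have hN0 : (0 : ℝ) < N := by linarith
  obtain ⟨L, hL⟩ : ∃ L, L = Real.log N := ⟨_, rfl⟩
  have hlog64 : Real.log 64 = 6 * Real.log 2 := by
    rw [show (64 : ℝ) = 2 ^ 6 by norm_num, Real.log_pow]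
    norm_num
  have hlog2 := Real.log_two_gt_d9
  have hL4 : 4 ≤ L := by
    rw [hL]
    have h1 := Real.log_le_log (by norm_num) hN64'
    linarith
  have hL0 : 0 < L := by linarith
  have hlogX : Real.log X ≤ 2 * L := by
    have h1 : (X : ℝ) ≤ N * N := by
      have h2 : (X : ℝ) ≤ 64 * N := by exact_mod_cast hX1
      nlinarith
    have h3 := Real.log_le_log (by exact_mod_cast hX2) h1
    rw [Real.log_mul hN0.ne' hN0.ne', ← hL] at h3
    linarith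
  rw [← hL] at hd2 hθ2 ⊢
  set R : ℕ := ⌊L ^ B⌋₊ with hR'
  have hRle : (R : ℝ) ≤ L ^ B := Nat.floor_le (by positivity)
  have hK0 : (1 : ℝ) ≤ K2 := by
    have h1 := hN3 N hNN3
    have h2 : 0 ≤ Real.log N ^ (B * 4) := by
      rw [← hL]
      positivity
    linarith
  have hRK : R ^ 4 + 2 ≤ K2 + 1 := by
    have h1 := hN3 N hNN3
    rw [← hL] at h1
    have h2 : (R : ℝ) ^ 4 ≤ L ^ (B * 4) := by
      rw [pow_mul]
      exact pow_le_pow_left₀ (by positivity) hRle 4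
    have h3 : (R : ℝ) ^ 4 + 1 ≤ K2 := by linarith
    have h4 : R ^ 4 + 1 ≤ K2 := by exact_mod_cast h3
    omega
  have hP0 : (1 : ℝ) ≤ P := by
    refine le_trans ?_ hP1
    refine Real.one_le_exp ?_
    rw [← hL]
    positivity
  have hSq : ∑ k ∈ Ico 0 (0 + (K2 + 1)), cut K1 K2 (hR R) k ^ 2 ≤ ((K2 + 1 : ℕ) : ℝ) * L ^ 4 := by
    have h1 := hN2 N hNN2 R (by rw [← hL]; exact hRle) K1 K2 0 (K2 + 1) hRK ?_
    · rw [← hL] at h1
      exact h1
    · have h2 : N * 64 ^ 3 ≤ N ^ 4 := by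
        calc N * 64 ^ 3 ≤ N * N ^ 3 := Nat.mul_le_mul_left _ (Nat.pow_le_pow_left hN64 3)
          _ = N ^ 4 := by ring
      omega
  obtain ⟨U, hU⟩ : ∃ U, U = L ^ (A' + 12) / θ := ⟨_, rfl⟩
  have hLC1 : 1 ≤ L ^ (A' + 12) := one_le_pow₀ (by linarith)
  have hU1 : 1 ≤ U := by
    rw [hU, le_div_iff₀ hθ0]
    linarith
  have hUP : U * P ≤ N := by
    rw [hU, div_mul_eq_mul_div, div_le_iff₀ hθ0]
    linarith
  have hU0 : 0 < U := by linarith
  have hθN : 1 ≤ θ * N := by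
    refine le_trans ?_ hθ2
    nlinarith
  have hmsc := hN1 N hNN1 P K1 K2 X d b T U hP1 hP2 hd1 (by rw [← hL]; exact hd2) hT hU1 hUP hK1 hK2 hKP hPX
  rw [← hL, ← hR'] at hmsc
  obtain ⟨hI, hplw⟩ := plw (cc (cut K1 K2 (hR R)) P ((b : ℝ) / d) T) X θ U hX2 hθ0 hU0
  refine ⟨hI, hplw.trans ?_⟩
  have hsum : ∑ m ∈ Icc 1 X, ‖cc (cut K1 K2 (hR R)) P ((b : ℝ) / d) T m‖ ^ 2 ≤ 128 * N * L ^ 5 := by
    simp_rw [MsW_cc]
    have h1 := MsW_sum (hR R) P K1 K2 X (4 * L) (((K2 + 1 : ℕ) : ℝ) * L ^ 4) (by positivity) ?_ hSq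
    · refine h1.trans ?_
      have h2 : (K2 : ℝ) * P ≤ 16 * N := by exact_mod_cast hKP
      push_cast
      have h3 : (P : ℝ) * ((K2 : ℝ) + 1) ≤ 32 * N := by nlinarith
      calc 4 * L * ((P : ℝ) * (((K2 : ℝ) + 1) * L ^ 4)) = (P * (K2 + 1)) * (4 * L ^ 5) := by ring
        _ ≤ (32 * N) * (4 * L ^ 5) := mul_le_mul_of_nonneg_right h3 (by positivity)
        _ = 128 * N * L ^ 5 := by ring
    · intro m hm
      rw [Finset.mem_Icc] at hm
      refine (MsW_card P m hm.1).trans ?_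
      have h2 : Real.log m ≤ Real.log X :=
        Real.log_le_log (by exact_mod_cast hm.1) (by exact_mod_cast hm.2)
      linarith
  have hX0 : (X : ℝ) ≤ 64 * N := by exact_mod_cast hX1
  have hlogX0 : 0 ≤ Real.log X := Real.log_natCast_nonneg X
  have hfac : 4 / U + 4 * X * (1 + Real.log X) / U ^ 2 ≤
      4 * θ / L ^ (A' + 12) + 768 * N * L * θ ^ 2 / (L ^ (A' + 12)) ^ 2 := by
    refine add_le_add (le_of_eq ?_) ?_
    · rw [hU]
      field_simp
    · rw [hU, div_pow, div_div_eq_mul_div]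
      apply div_le_div_of_nonneg_right _ (by positivity)
      apply mul_le_mul_of_nonneg_right _ (by positivity)
      have h1 : 1 + Real.log X ≤ 3 * L := by linarith
      calc 4 * (X : ℝ) * (1 + Real.log X) ≤ 4 * (64 * N) * (3 * L) := by
            apply mul_le_mul (by linarith) h1 (by linarith) (by positivity)
        _ = 768 * N * L := by ring
  have hfirst : θ ^ 2 * (∫ t in Set.Icc (-U) U, ‖Cs (cc (cut K1 K2 (hR R)) P ((b : ℝ) / d) T) X t‖ ^ 2) ≤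
      (1 / 4) * (θ ^ 2 * (N : ℝ) ^ 2 / L ^ A') := by
    refine (mul_le_mul_of_nonneg_left hmsc (by positivity)).trans ?_
    have e0 : θ ^ 2 * ((N : ℝ) ^ 2 / L ^ (A' + 1)) = (θ ^ 2 * (N : ℝ) ^ 2 / L ^ A') * (1 / L) := by
      rw [pow_succ L A']
      field_simp
    rw [e0, mul_comm]
    have h1 : 0 ≤ θ ^ 2 * (N : ℝ) ^ 2 / L ^ A' := by positivity
    refine mul_le_mul_of_nonneg_right ?_ h1
    exact one_div_le_one_div_of_le (by norm_num) hL4
  have hsecond : (4 / U + 4 * X * (1 + Real.log X) / U ^ 2) *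
      ∑ m ∈ Icc 1 X, ‖cc (cut K1 K2 (hR R)) P ((b : ℝ) / d) T m‖ ^ 2 ≤
      (1 / 2) * (θ ^ 2 * (N : ℝ) ^ 2 / L ^ A') := by
    have h0 : 0 ≤ ∑ m ∈ Icc 1 X, ‖cc (cut K1 K2 (hR R)) P ((b : ℝ) / d) T m‖ ^ 2 :=
      Finset.sum_nonneg fun _ _ => by positivity
    refine (mul_le_mul hfac hsum h0 (by positivity)).trans ?_
    have e1 : (4 * θ / L ^ (A' + 12) + 768 * N * L * θ ^ 2 / (L ^ (A' + 12)) ^ 2) * (128 * N * L ^ 5) =
        (θ * N / L ^ A') * (512 / L ^ 7) + (θ ^ 2 * (N : ℝ) ^ 2 / L ^ A') * (98304 / L ^ (A' + 18)) := by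
      rw [add_mul]
      congr 1
      · rw [div_mul_eq_mul_div, div_mul_div_comm, div_eq_div_iff (by positivity) (by positivity)]
        ring
      · rw [div_mul_eq_mul_div, div_mul_div_comm, div_eq_div_iff (by positivity) (by positivity)]
        ring
    rw [e1]
    have h2 : θ * N / L ^ A' ≤ θ ^ 2 * (N : ℝ) ^ 2 / L ^ A' := by
      apply div_le_div_of_nonneg_right _ (by positivity)
      nlinarith
    have h3 : 512 / L ^ 7 ≤ 1 / 32 := by
      rw [div_le_div_iff₀ (by positivity) (by norm_num)]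
      have h4 : (4 : ℝ) ^ 7 ≤ L ^ 7 := pow_le_pow_left₀ (by norm_num) hL4 7
      norm_num at h4 ⊢
      linarith
    have h5 : 98304 / L ^ (A' + 18) ≤ 1 / 32 := by
      rw [div_le_div_iff₀ (by positivity) (by norm_num)]
      have h4 : (4 : ℝ) ^ 18 ≤ L ^ 18 := pow_le_pow_left₀ (by norm_num) hL4 18
      have h6 : L ^ 18 ≤ L ^ (A' + 18) := pow_le_pow_right₀ (by linarith) (by omega)
      norm_num at h4 ⊢
      linarith
    have hq : 0 ≤ θ ^ 2 * (N : ℝ) ^ 2 / L ^ A' := by positivity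
    have hq2 : 0 ≤ θ * N / L ^ A' := by positivity
    have h7 : θ * N / L ^ A' * (512 / L ^ 7) ≤ (θ ^ 2 * (N : ℝ) ^ 2 / L ^ A') * (1 / 32) :=
      mul_le_mul h2 h3 (by positivity) hq
    have h8 : (θ ^ 2 * (N : ℝ) ^ 2 / L ^ A') * (98304 / L ^ (A' + 18)) ≤ (θ ^ 2 * (N : ℝ) ^ 2 / L ^ A') * (1 / 32) :=
      mul_le_mul_of_nonneg_left h5 hq
    linarith
  have hq : 0 ≤ θ ^ 2 * (N : ℝ) ^ 2 / L ^ A' := by positivity
  linarith

end Pool.Agent.H53.MIX

end
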