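import Pool.Agent.H43.PM.M08

/-! The parts of this file: H76.EHB.AvB, H76.EHB.VdcF, H35.W.KS1, H80.LV.GInt, H80.LV.HM. -/

section

/-!
# EHB AvB: averages of the differenced sums

Induction on `J'` (number of further differences), `J' = 0` is `av_base`: with `j = hs.length`; by definition of `AvS` and `PH` (`PH (h :: hs) t β n = PH hs t β (n+h) - PH hs t β n`)
`AvS H (J'+1) (PH hs) a b` is the average over `h ∈ [1,H]` of `AvS H J' (PH (h :: hs)) a (b-h)`, bounded by the induction hypothesis (`(h :: hs).prod = h * hs.prod`,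
`(h :: hs).sum + J' H ≤ hs.sum + (J'+1) H ≤ M`).  The average of `1/h` over `h ≤ H` is `≤ (1+log H)/H`, the average of `h` is `≤ H`.
-/

set_option autoImplicit false

namespace Pool.Agent.H76.EHB

open Finset
open Pool.Agent.H91.PK (ee)

theorem AvB_prod_pos (hs : List ℝ) (hpos : ∀ g ∈ hs, 1 ≤ g) : 0 < hs.prod := by
  induction hs with
  | nil => simp
  | cons h hs ih =>
    rw [List.prod_cons]
    exact mul_pos (lt_of_lt_of_le one_pos (hpos h (by simp)))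
      (ih fun g hg => hpos g (List.mem_cons_of_mem _ hg))

theorem AvB_harm (H : ℕ) : ∑ h ∈ Icc 1 H, 1 / (h : ℝ) ≤ 1 + Real.log H := by
  have h := harmonic_le_one_add_log H
  rw [harmonic_eq_sum_Icc] at h
  push_cast at h
  simpa [one_div] using h

theorem av_main (J' : ℕ) (hs : List ℝ) (t β : ℝ) (M a b H : ℕ) (hM : 1 ≤ M) (ha : M ≤ a) (hb : b ≤ 2 * M)
    (hβ : 0 ≤ β) (hβ1 : β ≤ 1) (ht : t ≠ 0) (hpos : ∀ g ∈ hs, 1 ≤ g) (hH : 1 ≤ H)
    (hsum : hs.sum + J' * H ≤ M) :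
    AvS H J' (fun n => PH hs t β n) a b
      ≤ (4 * M : ℝ) ^ (hs.length + J' + 1) / (|t| * hs.prod) * ((1 + Real.log H) / H) ^ J'
        + 7 * ((hs.length + J').factorial : ℝ) * |t| * hs.prod * (H : ℝ) ^ J' / (M : ℝ) ^ (hs.length + J') := by
  induction J' generalizing hs b with
  | zero =>
    have h0 : hs.sum ≤ M := by simpa using hsum
    have h1 := av_base hs t β M a b hM ha hb hβ hβ1 ht hpos h0
    simp only [AvS, add_zero, pow_zero, mul_one]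
    exact h1
  | succ J' ih =>
    have hH0 : (0 : ℝ) < H := by exact_mod_cast hH
    have hM0 : (0 : ℝ) < M := by exact_mod_cast hM
    have ht0 : 0 < |t| := abs_pos.mpr ht
    have hprod : 0 < hs.prod := AvB_prod_pos hs hpos
    have hlog : 0 ≤ Real.log H := Real.log_nonneg (by exact_mod_cast hH)
    have hL : 0 ≤ ((1 + Real.log H) / H) ^ J' := by positivity
    have key : ∀ h ∈ Icc 1 H,
        AvS H J' (fun n => PH hs t β ((n + h : ℕ) : ℝ) - PH hs t β n) a (b - h)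
          ≤ (4 * M : ℝ) ^ (hs.length + (J' + 1) + 1) / (|t| * hs.prod)
              * ((1 + Real.log H) / H) ^ J' * (1 / (h : ℝ))
            + 7 * ((hs.length + (J' + 1)).factorial : ℝ) * |t| * hs.prod * (H : ℝ) ^ J'
              / (M : ℝ) ^ (hs.length + (J' + 1)) * H := by
      intro h hh
      rw [mem_Icc] at hh
      have hh0 : (0 : ℝ) < h := by exact_mod_cast hh.1
      have hh1 : (1 : ℝ) ≤ h := by exact_mod_cast hh.1
      have hhH : (h : ℝ) ≤ H := by exact_mod_cast hh.2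
      have e1 : (fun n : ℕ => PH hs t β ((n + h : ℕ) : ℝ) - PH hs t β n)
          = fun n : ℕ => PH ((h : ℝ) :: hs) t β n := by
        funext n
        simp only [PH]
        push_cast
        rfl
      rw [e1]
      have h2 := ih ((h : ℝ) :: hs) (b - h) (by omega)
        (by
          intro g hg
          rcases List.mem_cons.mp hg with rfl | hg
          · exact hh1
          · exact hpos g hg)
        (by
          rw [List.sum_cons]
          push_cast at hsum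
          nlinarith [hsum, hhH])
      rw [List.length_cons, List.prod_cons] at h2
      have e2 : hs.length + 1 + J' = hs.length + (J' + 1) := by ring
      rw [e2] at h2
      refine h2.trans (add_le_add (le_of_eq ?_) ?_)
      · field_simp
      · have h3 : 0 ≤ 7 * ((hs.length + (J' + 1)).factorial : ℝ) * |t| * hs.prod * (H : ℝ) ^ J'
              / (M : ℝ) ^ (hs.length + (J' + 1)) := by positivity
        calc 7 * ((hs.length + (J' + 1)).factorial : ℝ) * |t| * ((h : ℝ) * hs.prod) * (H : ℝ) ^ J'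
              / (M : ℝ) ^ (hs.length + (J' + 1))
            = 7 * ((hs.length + (J' + 1)).factorial : ℝ) * |t| * hs.prod * (H : ℝ) ^ J'
              / (M : ℝ) ^ (hs.length + (J' + 1)) * h := by ring
          _ ≤ _ := mul_le_mul_of_nonneg_left hhH h3
    have h4 : AvS H (J' + 1) (fun n => PH hs t β n) a b
        = 1 / (H : ℝ) * ∑ h ∈ Icc 1 H,
          AvS H J' (fun n => PH hs t β ((n + h : ℕ) : ℝ) - PH hs t β n) a (b - h) := rfl
    rw [h4]
    refine (mul_le_mul_of_nonneg_left (sum_le_sum key) (by positivity)).trans ?_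
    rw [sum_add_distrib, ← mul_sum, sum_const, Nat.card_Icc, nsmul_eq_mul, Nat.add_sub_cancel]
    have h5 : ∑ h ∈ Icc 1 H, 1 / (h : ℝ) ≤ 1 + Real.log H := AvB_harm H
    have h6 : 0 ≤ (4 * M : ℝ) ^ (hs.length + (J' + 1) + 1) / (|t| * hs.prod)
              * ((1 + Real.log H) / H) ^ J' := by positivity
    have h7 := mul_le_mul_of_nonneg_left h5 h6
    calc 1 / (H : ℝ) * ((4 * M : ℝ) ^ (hs.length + (J' + 1) + 1) / (|t| * hs.prod)
              * ((1 + Real.log H) / H) ^ J' * ∑ h ∈ Icc 1 H, 1 / (h : ℝ)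
            + H * (7 * ((hs.length + (J' + 1)).factorial : ℝ) * |t| * hs.prod * (H : ℝ) ^ J'
              / (M : ℝ) ^ (hs.length + (J' + 1)) * H))
        ≤ 1 / (H : ℝ) * ((4 * M : ℝ) ^ (hs.length + (J' + 1) + 1) / (|t| * hs.prod)
              * ((1 + Real.log H) / H) ^ J' * (1 + Real.log H)
            + H * (7 * ((hs.length + (J' + 1)).factorial : ℝ) * |t| * hs.prod * (H : ℝ) ^ J'
              / (M : ℝ) ^ (hs.length + (J' + 1)) * H)) :=
          mul_le_mul_of_nonneg_left (add_le_add h7 le_rfl) (by positivity)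
      _ = _ := by
          rw [pow_succ ((1 + Real.log H) / H) J', pow_succ (H : ℝ) J']
          field_simp

end Pool.Agent.H76.EHB

end

section

/-!
# EHB VdcF: the van der Corput bound

`low_sum`: `av_base` with `hs = []`: `|∑_{a<n≤b} ee(t log(n+β))| ≤ 4M/|t| + 7|t|` for `M ≤ a`, `b ≤ 2M`.
`vdc`: small `M` (`M ≤ M0(k0)`) by the trivial bound `≤ M`.  If `|t| ≤ M^{3/4}`: `low_sum` gives `≤ 4 M^{2/3} + 7 M^{3/4}`.
Otherwise choose the integer `J ∈ [1, k0+1]` with `M^{J-3/4} ≤ |t| ≤ M^{J+1/4}` (J = 1 covers `[M^{1/4}, M^{5/4}]`; we use it for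
`|t| ∈ [M^{3/4}, M^{5/4}]`) and `H = floor((M^{J+1/2}/|t|)^{1/J})`: `M^{J+1/2}/|t| ∈ [M^{1/4}, M^{5/4}]`, for `J = 1` in `[M^{1/4}, M^{3/4}]`, so
`M^{1/(4J)}/2 ≤ H ≤ M^{3/4}`, `J H ≤ M`.  `vdc_iter` (Y = M) and `av_main` (`hs = []`) give
`(|S|/M)^{2^J} ≤ 16^{2^J} (1/H + 4^{J+1} M^J (1+log H)^J/(|t| H^J) + 7 J! |t| H^J/M^{J+1})`, where
`M^J/(|t| H^J) ≤ 2^J M^{-1/2}` and `|t| H^J/M^{J+1} ≤ M^{-1/2}`; so the bracket is `≤ C M^{-1/(4J)}` and `|S| ≤ C M^{1 - 1/(4J 2^J)}`.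
-/

set_option autoImplicit false

namespace Pool.Agent.H76.EHB

open Finset
open Pool.Agent.H91.PK (ee)

theorem low_sum (t β : ℝ) (M a b : ℕ) (hM : 1 ≤ M) (ha : M ≤ a) (hb : b ≤ 2 * M)
    (hβ : 0 ≤ β) (hβ1 : β ≤ 1) (ht : t ≠ 0) :
    ‖∑ n ∈ Ioc a b, ee (t * Real.log (n + β))‖ ≤ 4 * M / |t| + 7 * |t| := by
  have h := av_base [] t β M a b hM ha hb hβ hβ1 ht (by simp) (by simp)
  simpa [PH] using h

/-- bracket estimate -/
private theorem VdcF_bracket (n J : ℕ) (hn : 1 ≤ n) (hJ1 : 1 ≤ J) (hJn : J ≤ n) (m T : ℝ)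
    (H : ℕ) (hm : 1 ≤ m) (hT : 0 < T) (hH : 1 ≤ H) (hHm : (H : ℝ) ≤ m)
    (hX1 : m ^ (1 / (4 * (J : ℝ))) ≤ 2 * H)
    (hlo : m ^ ((J : ℝ) + 1 / 2) ≤ T * (2 * H) ^ J)
    (hhi : T * (H : ℝ) ^ J ≤ m ^ ((J : ℝ) + 1 / 2)) :
    1 / (H : ℝ) + ((4 * m) ^ (J + 1) / T * ((1 + Real.log H) / H) ^ J
        + 7 * (J.factorial : ℝ) * T * (H : ℝ) ^ J / m ^ J) / m
      ≤ (2 + 4 ^ (n + 1) * (8 * n) ^ n + 7 * (n.factorial : ℝ)) * m ^ (-(1 / (4 * (J : ℝ)))) := by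
  have hm0 : 0 < m := by linarith
  have hH0 : (0 : ℝ) < H := by exact_mod_cast hH
  have hJ0 : (0 : ℝ) < J := by exact_mod_cast hJ1
  have hJr : (1 : ℝ) ≤ J := by exact_mod_cast hJ1
  have hnr : (1 : ℝ) ≤ n := by exact_mod_cast hn
  have hJnr : (J : ℝ) ≤ n := by exact_mod_cast hJn
  have hexp : 1 / (4 * (J : ℝ)) ≤ 1 / 4 := by
    apply one_div_le_one_div_of_le (by norm_num) (by linarith)
  set e := 1 / (4 * (J : ℝ)) with he
  have he0 : 0 < e := by rw [he]; positivity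
  have heJ : e * J = 1 / 4 := by rw [he]; field_simp
  -- first term
  have t1 : 1 / (H : ℝ) ≤ 2 * m ^ (-e) := by
    rw [Real.rpow_neg hm0.le, div_le_iff₀ hH0]
    have h1 : 0 < m ^ e := Real.rpow_pos_of_pos hm0 _
    rw [mul_assoc, inv_mul_eq_div, ← mul_div_assoc, le_div_iff₀ h1]
    linarith
  -- log
  have hlog : 1 + Real.log H ≤ 4 * J * m ^ e := by
    have h1 : Real.log H ≤ Real.log m := Real.log_le_log hH0 hHm
    have h2 : Real.log m = 4 * J * Real.log (m ^ e) := by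
      rw [Real.log_rpow hm0, he]; field_simp
    have h3 : Real.log (m ^ e) ≤ m ^ e - 1 :=
      Real.log_le_sub_one_of_pos (Real.rpow_pos_of_pos hm0 _)
    have h4 : 4 * (J : ℝ) * Real.log (m ^ e) ≤ 4 * J * (m ^ e - 1) :=
      mul_le_mul_of_nonneg_left h3 (by positivity)
    nlinarith
  have hlog0 : 0 ≤ 1 + Real.log H := by
    have := Real.log_nonneg (show (1 : ℝ) ≤ H by exact_mod_cast hH)
    linarith
  have hlogJ : (1 + Real.log H) ^ J ≤ (4 * J) ^ J * m ^ (1 / 4 : ℝ) := by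
    calc (1 + Real.log H) ^ J ≤ (4 * J * m ^ e) ^ J := pow_le_pow_left₀ hlog0 hlog J
      _ = (4 * J) ^ J * m ^ (1 / 4 : ℝ) := by
        rw [mul_pow, ← Real.rpow_natCast (m ^ e) J, ← Real.rpow_mul hm0.le, heJ]
  -- powers of m
  have hmJ : m ^ ((J : ℝ) + 1 / 2) = m ^ J * m ^ (1 / 2 : ℝ) := by
    rw [Real.rpow_add hm0, Real.rpow_natCast]
  have hhalf : 0 < m ^ (1 / 2 : ℝ) := Real.rpow_pos_of_pos hm0 _
  have hquart : 0 < m ^ (1 / 4 : ℝ) := Real.rpow_pos_of_pos hm0 _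
  have hmJ0 : 0 < m ^ J := pow_pos hm0 J
  have hHJ0 : (0 : ℝ) < (H : ℝ) ^ J := pow_pos hH0 J
  have hle : m ^ (-(1 / 4) : ℝ) ≤ m ^ (-e) :=
    Real.rpow_le_rpow_of_exponent_le hm (by linarith)
  have hle2 : m ^ (-(1 / 2) : ℝ) ≤ m ^ (-e) :=
    Real.rpow_le_rpow_of_exponent_le hm (by linarith)
  have hme0 : 0 < m ^ (-e) := Real.rpow_pos_of_pos hm0 _
  -- second term
  have t2 : (4 * m) ^ (J + 1) / T * ((1 + Real.log H) / H) ^ J / m
      ≤ 4 ^ (n + 1) * (8 * n) ^ n * m ^ (-e) := by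
    have h1 : (4 * m) ^ (J + 1) / T * ((1 + Real.log H) / H) ^ J / m
        = 4 ^ (J + 1) * (m ^ J / (T * (H : ℝ) ^ J)) * (1 + Real.log H) ^ J := by
      rw [div_pow, mul_pow, pow_succ m J]
      field_simp
    have h2 : m ^ J / (T * (H : ℝ) ^ J) ≤ 2 ^ J * m ^ (-(1 / 2) : ℝ) := by
      rw [div_le_iff₀ (by positivity), Real.rpow_neg hm0.le]
      rw [hmJ, mul_pow] at hlo
      have h3 : m ^ J ≤ T * (2 ^ J * (H : ℝ) ^ J) / m ^ (1 / 2 : ℝ) := by
        rw [le_div_iff₀ hhalf]; exact hlo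
      calc m ^ J ≤ T * (2 ^ J * (H : ℝ) ^ J) / m ^ (1 / 2 : ℝ) := h3
        _ = 2 ^ J * (m ^ (1 / 2 : ℝ))⁻¹ * (T * (H : ℝ) ^ J) := by
          field_simp
    rw [h1]
    have h5 : m ^ (-(1 / 2) : ℝ) * m ^ (1 / 4 : ℝ) = m ^ (-(1 / 4) : ℝ) := by
      rw [← Real.rpow_add hm0]; norm_num
    calc 4 ^ (J + 1) * (m ^ J / (T * (H : ℝ) ^ J)) * (1 + Real.log H) ^ J
        ≤ 4 ^ (J + 1) * (2 ^ J * m ^ (-(1 / 2) : ℝ)) * ((4 * J) ^ J * m ^ (1 / 4 : ℝ)) := by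
          apply mul_le_mul _ hlogJ (by positivity) (by positivity)
          exact mul_le_mul_of_nonneg_left h2 (by positivity)
      _ = 4 ^ (J + 1) * (2 * (4 * J)) ^ J * (m ^ (-(1 / 2) : ℝ) * m ^ (1 / 4 : ℝ)) := by
          rw [mul_pow 2 (4 * (J : ℝ))]; ring
      _ = 4 ^ (J + 1) * (8 * J) ^ J * m ^ (-(1 / 4) : ℝ) := by
          rw [h5]; congr 3; ring
      _ ≤ 4 ^ (n + 1) * (8 * n) ^ n * m ^ (-e) := by
          have e1 : (4 : ℝ) ^ (J + 1) ≤ 4 ^ (n + 1) := pow_le_pow_right₀ (by norm_num) (by omega)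
          have e2 : (8 * (J : ℝ)) ^ J ≤ (8 * n) ^ n := by
            calc (8 * (J : ℝ)) ^ J ≤ (8 * n) ^ J :=
                  pow_le_pow_left₀ (by positivity) (by linarith) J
              _ ≤ (8 * n) ^ n := pow_le_pow_right₀ (by linarith) hJn
          apply mul_le_mul (mul_le_mul e1 e2 (by positivity) (by positivity)) hle
            (by positivity) (by positivity)
  -- third term
  have t3 : 7 * (J.factorial : ℝ) * T * (H : ℝ) ^ J / m ^ J / m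
      ≤ 7 * (n.factorial : ℝ) * m ^ (-e) := by
    have h1 : 7 * (J.factorial : ℝ) * T * (H : ℝ) ^ J / m ^ J / m
        = 7 * (J.factorial : ℝ) * (T * (H : ℝ) ^ J / (m ^ J * m)) := by
      field_simp
    have h2 : T * (H : ℝ) ^ J / (m ^ J * m) ≤ m ^ (-(1 / 2) : ℝ) := by
      rw [div_le_iff₀ (by positivity)]
      have h3 : m ^ (-(1 / 2) : ℝ) * (m ^ J * m) = m ^ ((J : ℝ) + 1 / 2) := by
        have : m ^ J * m = m ^ ((J : ℝ) + 1) := by
          rw [Real.rpow_add hm0, Real.rpow_natCast, Real.rpow_one]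
        rw [this, ← Real.rpow_add hm0]
        congr 1; ring
      rw [h3]; exact hhi
    rw [h1]
    have h4 : (J.factorial : ℝ) ≤ n.factorial := by exact_mod_cast Nat.factorial_le hJn
    apply mul_le_mul (by linarith) (h2.trans hle2) (by positivity) (by positivity)
  rw [add_div]
  calc _ ≤ 2 * m ^ (-e) + (4 ^ (n + 1) * (8 * n) ^ n * m ^ (-e) + 7 * (n.factorial : ℝ) * m ^ (-e)) := by
        apply add_le_add t1
        apply add_le_add t2 t3
    _ = _ := by ring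

private theorem VdcF_big (n : ℕ) (hn : 1 ≤ n) (M a b J : ℕ) (β t : ℝ) (hM : (n + 1) ^ 4 ≤ M)
    (ha : M ≤ a) (hb : b ≤ 2 * M) (hβ : 0 ≤ β) (hβ1 : β ≤ 1) (hJ1 : 1 ≤ J) (hJn : J ≤ n)
    (h1 : (M : ℝ) ^ ((J : ℝ) - 3 / 4) ≤ |t|) (h2 : |t| ≤ (M : ℝ) ^ ((J : ℝ) + 1 / 4))
    (h3 : (M : ℝ) ^ (3 / 4 : ℝ) ≤ |t|) :
    ‖∑ n ∈ Ioc a b, ee (t * Real.log (n + β))‖
      ≤ 16 * (2 + 4 ^ (n + 1) * (8 * n) ^ n + 7 * (n.factorial : ℝ))
        * (M : ℝ) ^ (1 - 1 / (4 * (n : ℝ) * 2 ^ n)) := by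
  have hM1 : 1 ≤ M := le_trans (Nat.one_le_pow _ _ (by omega)) hM
  set m : ℝ := (M : ℝ) with hmdef
  have hm : 1 ≤ m := by rw [hmdef]; exact_mod_cast hM1
  have hm0 : 0 < m := by linarith
  set T := |t| with hTdef
  have hT : 0 < T := lt_of_lt_of_le (Real.rpow_pos_of_pos hm0 _) h3
  have ht : t ≠ 0 := abs_pos.mp hT
  have hJ0 : (0 : ℝ) < J := by exact_mod_cast hJ1
  have hJr : (1 : ℝ) ≤ J := by exact_mod_cast hJ1
  have hnr : (1 : ℝ) ≤ n := by exact_mod_cast hn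
  have hJnr : (J : ℝ) ≤ n := by exact_mod_cast hJn
  set P := m ^ ((J : ℝ) + 1 / 2) / T with hP
  have hP0 : 0 < P := by rw [hP]; positivity
  set X := P ^ (1 / (J : ℝ)) with hX
  have hXJ : X ^ J = P := by
    rw [hX, ← Real.rpow_natCast, ← Real.rpow_mul hP0.le]
    rw [one_div, inv_mul_cancel₀ hJ0.ne', Real.rpow_one]
  have hPlo : m ^ (1 / 4 : ℝ) ≤ P := by
    rw [hP, le_div_iff₀ hT]
    calc m ^ (1 / 4 : ℝ) * T ≤ m ^ (1 / 4 : ℝ) * m ^ ((J : ℝ) + 1 / 4) :=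
          mul_le_mul_of_nonneg_left h2 (by positivity)
      _ = m ^ ((J : ℝ) + 1 / 2) := by
          rw [← Real.rpow_add hm0]; congr 1; ring
  have hPhi : P ≤ m ^ (3 / 4 * (J : ℝ)) := by
    rw [hP, div_le_iff₀ hT]
    rcases Nat.lt_or_ge 1 J with hJ2 | hJ2
    · have hJ2r : (2 : ℝ) ≤ J := by exact_mod_cast hJ2
      calc m ^ ((J : ℝ) + 1 / 2) ≤ m ^ (3 / 4 * (J : ℝ) + ((J : ℝ) - 3 / 4)) :=
            Real.rpow_le_rpow_of_exponent_le hm (by linarith)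
        _ = m ^ (3 / 4 * (J : ℝ)) * m ^ ((J : ℝ) - 3 / 4) := Real.rpow_add hm0 _ _
        _ ≤ m ^ (3 / 4 * (J : ℝ)) * T := mul_le_mul_of_nonneg_left h1 (by positivity)
    · have hJe : (J : ℝ) = 1 := by
        have : J = 1 := by omega
        rw [this]; norm_num
      rw [hJe]
      calc m ^ ((1 : ℝ) + 1 / 2) = m ^ (3 / 4 * (1 : ℝ)) * m ^ (3 / 4 : ℝ) := by
            rw [← Real.rpow_add hm0]; norm_num
        _ ≤ m ^ (3 / 4 * (1 : ℝ)) * T := mul_le_mul_of_nonneg_left h3 (by positivity)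
  have hXlo : m ^ (1 / (4 * (J : ℝ))) ≤ X := by
    have : m ^ (1 / (4 * (J : ℝ))) = (m ^ (1 / 4 : ℝ)) ^ (1 / (J : ℝ)) := by
      rw [← Real.rpow_mul hm0.le]; congr 1; field_simp
    rw [this, hX]
    exact Real.rpow_le_rpow (by positivity) hPlo (by positivity)
  have hXhi : X ≤ m ^ (3 / 4 : ℝ) := by
    have : m ^ (3 / 4 : ℝ) = (m ^ (3 / 4 * (J : ℝ))) ^ (1 / (J : ℝ)) := by
      rw [← Real.rpow_mul hm0.le]; congr 1; field_simp
    rw [this, hX]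
    exact Real.rpow_le_rpow hP0.le hPhi (by positivity)
  have hX1 : 1 ≤ X := le_trans (Real.one_le_rpow hm (by positivity)) hXlo
  set H := ⌊X⌋₊ with hHdef
  have hHX : (H : ℝ) ≤ X := Nat.floor_le (by linarith)
  have hH1 : 1 ≤ H := by
    rw [hHdef]; exact Nat.le_floor (by simpa using hX1)
  have hHr : (1 : ℝ) ≤ H := by exact_mod_cast hH1
  have hX2 : X ≤ 2 * H := by
    have := Nat.lt_floor_add_one X
    rw [← hHdef] at this
    linarith
  have hm34 : m ^ (3 / 4 : ℝ) ≤ m := by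
    calc m ^ (3 / 4 : ℝ) ≤ m ^ (1 : ℝ) := Real.rpow_le_rpow_of_exponent_le hm (by norm_num)
      _ = m := Real.rpow_one m
  have hHm : (H : ℝ) ≤ m := hHX.trans (hXhi.trans hm34)
  have hHM : H ≤ M := by
    have : (H : ℝ) ≤ (M : ℝ) := hHm
    exact_mod_cast this
  have hquart : (n : ℝ) + 1 ≤ m ^ (1 / 4 : ℝ) := by
    have h4 : ((n : ℝ) + 1) ^ 4 ≤ m := by
      rw [hmdef]; exact_mod_cast hM
    calc (n : ℝ) + 1 = (((n : ℝ) + 1) ^ 4) ^ (1 / 4 : ℝ) := by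
          rw [← Real.rpow_natCast, ← Real.rpow_mul (by positivity)]; norm_num
      _ ≤ m ^ (1 / 4 : ℝ) := Real.rpow_le_rpow (by positivity) h4 (by norm_num)
  have hJH : (J : ℝ) * H ≤ M := by
    rw [← hmdef]
    calc (J : ℝ) * H ≤ m ^ (1 / 4 : ℝ) * m ^ (3 / 4 : ℝ) := by
          apply mul_le_mul (by linarith) (hHX.trans hXhi) (by positivity) (by positivity)
      _ = m := by rw [← Real.rpow_add hm0]; norm_num
  have hbr := VdcF_bracket n J hn hJ1 hJn m T H hm hT hH1 hHm (hXlo.trans hX2)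
    (by
      have h4 : X ^ J ≤ (2 * (H : ℝ)) ^ J := pow_le_pow_left₀ (by linarith) hX2 J
      rw [hXJ, hP, div_le_iff₀ hT] at h4
      linarith)
    (by
      have h4 : (H : ℝ) ^ J ≤ X ^ J := pow_le_pow_left₀ (by positivity) hHX J
      rw [hXJ, hP, le_div_iff₀ hT] at h4
      linarith)
  have hav := av_main J [] t β M a b H hM1 ha hb hβ hβ1 ht (by simp) hH1
    (by simpa using hJH)
  simp only [List.length_nil, zero_add, List.prod_nil, mul_one] at hav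
  have hit := vdc_iter J (fun k => PH [] t β k) a b M H (by omega) hH1 hHM
  set S := ‖∑ k ∈ Ioc a b, ee (t * Real.log ((k : ℝ) + β))‖ with hS
  have hit' : (S / m) ^ (2 ^ J) ≤ 16 ^ (2 ^ J) * (1 / (H : ℝ)
      + AvS H J (fun k => PH [] t β k) a b / m) := hit
  set B : ℝ := 2 + 4 ^ (n + 1) * (8 * n) ^ n + 7 * (n.factorial : ℝ) with hB
  have hB1 : 1 ≤ B := by
    have : 0 ≤ (4 : ℝ) ^ (n + 1) * (8 * n) ^ n := by positivity
    have : 0 ≤ 7 * (n.factorial : ℝ) := by positivity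
    linarith
  have hmain : (S / m) ^ (2 ^ J) ≤ 16 ^ (2 ^ J) * (B * m ^ (-(1 / (4 * (J : ℝ))))) := by
    refine hit'.trans (mul_le_mul_of_nonneg_left ?_ (by positivity))
    refine le_trans ?_ hbr
    gcongr
  set δ := 1 / (4 * (n : ℝ) * 2 ^ n) with hδ
  have hfin : (S / m) ^ (2 ^ J) ≤ (16 * B * m ^ (-δ)) ^ (2 ^ J) := by
    refine hmain.trans ?_
    rw [mul_pow, mul_pow, mul_assoc]
    apply mul_le_mul_of_nonneg_left _ (by positivity)
    apply mul_le_mul (le_self_pow₀ hB1 (by positivity)) _ (by positivity) (by positivity)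
    rw [← Real.rpow_natCast (m ^ (-δ)), ← Real.rpow_mul hm0.le]
    apply Real.rpow_le_rpow_of_exponent_le hm
    have h4 : δ * ((2 ^ J : ℕ) : ℝ) ≤ 1 / (4 * (J : ℝ)) := by
      rw [hδ]
      push_cast
      have h5 : (2 : ℝ) ^ J ≤ 2 ^ n := pow_le_pow_right₀ (by norm_num) hJn
      rw [div_mul_eq_mul_div, one_mul, div_le_div_iff₀ (by positivity) (by positivity), one_mul]
      calc (2 : ℝ) ^ J * (4 * J) ≤ 2 ^ n * (4 * n) := by
            apply mul_le_mul h5 (by linarith) (by positivity) (by positivity)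
        _ = 4 * (n : ℝ) * 2 ^ n := by ring
    linarith
  have hfin2 : S / m ≤ 16 * B * m ^ (-δ) :=
    le_of_pow_le_pow_left₀ (by positivity) (by positivity) hfin
  rw [div_le_iff₀ hm0] at hfin2
  refine hfin2.trans (le_of_eq ?_)
  rw [mul_assoc, sub_eq_neg_add, Real.rpow_add hm0, Real.rpow_one]

private theorem VdcF_trivial (a b M : ℕ) (β t : ℝ) (ha : M ≤ a) (hb : b ≤ 2 * M) :
    ‖∑ n ∈ Ioc a b, ee (t * Real.log (n + β))‖ ≤ M := by
  have h1 : ‖∑ n ∈ Ioc a b, ee (t * Real.log (n + β))‖ ≤ ∑ n ∈ Ioc a b, (1 : ℝ) := by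
    refine (norm_sum_le _ _).trans (Finset.sum_le_sum fun n _ => ?_)
    rw [Pool.Agent.H91.PK.LSa_norm_ee]
  refine h1.trans ?_
  rw [Finset.sum_const, Nat.card_Ioc, nsmul_eq_mul, mul_one]
  exact_mod_cast (by omega : b - a ≤ M)

theorem vdc (k0 : ℕ) : ∃ δ C : ℝ, 0 < δ ∧ δ ≤ 1 ∧ 1 ≤ C ∧ ∀ (M a b : ℕ) (β t : ℝ), 1 ≤ M → M ≤ a → b ≤ 2 * M →
    0 ≤ β → β ≤ 1 → (M : ℝ) ^ (1 / 3 : ℝ) ≤ |t| → |t| ≤ (M : ℝ) ^ k0 →
    ‖∑ n ∈ Ioc a b, ee (t * Real.log (n + β))‖ ≤ C * (M : ℝ) ^ (1 - δ) := by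
  set n := k0 + 1 with hn
  have hn1 : 1 ≤ n := by omega
  have hnr : (1 : ℝ) ≤ n := by exact_mod_cast hn1
  set δ : ℝ := 1 / (4 * (n : ℝ) * 2 ^ n) with hδ
  have hδ0 : 0 < δ := by rw [hδ]; positivity
  have h2n : (1 : ℝ) ≤ 2 ^ n := one_le_pow₀ (by norm_num)
  have hδ4 : δ ≤ 1 / 4 := by
    rw [hδ]
    apply one_div_le_one_div_of_le (by norm_num)
    nlinarith
  set B : ℝ := 16 * (2 + 4 ^ (n + 1) * (8 * n) ^ n + 7 * (n.factorial : ℝ)) with hB
  have hB0 : 0 ≤ B := by rw [hB]; positivity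
  set M0 : ℕ := (n + 1) ^ 4 with hM0
  refine ⟨δ, B + 11 + M0, hδ0, by linarith, ?_, ?_⟩
  · have : (0 : ℝ) ≤ (M0 : ℝ) := Nat.cast_nonneg _
    linarith
  intro M a b β t hM ha hb hβ hβ1 hlo hhi
  have hm : (1 : ℝ) ≤ M := by exact_mod_cast hM
  have hm0 : (0 : ℝ) < M := by linarith
  have hone : (1 : ℝ) ≤ (M : ℝ) ^ (1 - δ) := Real.one_le_rpow hm (by linarith)
  have hM00 : (0 : ℝ) ≤ (M0 : ℝ) := Nat.cast_nonneg _
  have hgoal : ∀ c : ℝ, c ≤ B + 11 + M0 →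
      ‖∑ n ∈ Ioc a b, ee (t * Real.log (n + β))‖ ≤ c * (M : ℝ) ^ (1 - δ) →
      ‖∑ n ∈ Ioc a b, ee (t * Real.log (n + β))‖ ≤ (B + 11 + M0) * (M : ℝ) ^ (1 - δ) := by
    intro c hc h
    exact h.trans (mul_le_mul_of_nonneg_right hc (by linarith))
  have ht0 : 0 < |t| := lt_of_lt_of_le (Real.rpow_pos_of_pos hm0 _) hlo
  have ht : t ≠ 0 := abs_pos.mp ht0
  rcases Nat.lt_or_ge M M0 with hsmall | hbig
  · -- small M
    apply hgoal M0 (by linarith)
    have h1 := VdcF_trivial a b M β t ha hb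
    have h2 : (M : ℝ) ≤ M0 := by exact_mod_cast hsmall.le
    calc _ ≤ (M : ℝ) := h1
      _ ≤ M0 * 1 := by linarith
      _ ≤ M0 * (M : ℝ) ^ (1 - δ) := mul_le_mul_of_nonneg_left hone hM00
  · rcases le_or_gt |t| ((M : ℝ) ^ (3 / 4 : ℝ)) with hlow | hlarge
    · apply hgoal 11 (by linarith)
      have h1 := low_sum t β M a b hM ha hb hβ hβ1 ht
      have h2 : 4 * (M : ℝ) / |t| ≤ 4 * (M : ℝ) ^ (2 / 3 : ℝ) := by
        rw [div_le_iff₀ ht0]
        have h3 : (M : ℝ) = (M : ℝ) ^ (2 / 3 : ℝ) * (M : ℝ) ^ (1 / 3 : ℝ) := by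
          rw [← Real.rpow_add hm0]; norm_num
        calc 4 * (M : ℝ) = 4 * ((M : ℝ) ^ (2 / 3 : ℝ) * (M : ℝ) ^ (1 / 3 : ℝ)) := by
              rw [← h3]
          _ ≤ 4 * ((M : ℝ) ^ (2 / 3 : ℝ) * |t|) := by gcongr
          _ = _ := by ring
      have h4 : (M : ℝ) ^ (2 / 3 : ℝ) ≤ (M : ℝ) ^ (1 - δ) :=
        Real.rpow_le_rpow_of_exponent_le hm (by linarith)
      have h5 : (M : ℝ) ^ (3 / 4 : ℝ) ≤ (M : ℝ) ^ (1 - δ) :=
        Real.rpow_le_rpow_of_exponent_le hm (by linarith)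
      linarith
    · -- choose J
      have hM16 : 16 ≤ M := by
        refine le_trans ?_ hbig
        calc 16 = 2 ^ 4 := by norm_num
          _ ≤ (n + 1) ^ 4 := Nat.pow_le_pow_left (by omega) 4
      have hm1 : (1 : ℝ) < M := by exact_mod_cast (by omega : 1 < M)
      have hex : ∃ J : ℕ, |t| ≤ (M : ℝ) ^ ((J : ℝ) + 1 / 4) := by
        refine ⟨k0, hhi.trans ?_⟩
        rw [← Real.rpow_natCast]
        exact Real.rpow_le_rpow_of_exponent_le hm (by linarith)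
      classical
      let J := Nat.find hex
      have hJ2 : |t| ≤ (M : ℝ) ^ ((J : ℝ) + 1 / 4) := Nat.find_spec hex
      have hJk : J ≤ k0 := by
        apply Nat.find_min' hex
        refine hhi.trans ?_
        rw [← Real.rpow_natCast]
        exact Real.rpow_le_rpow_of_exponent_le hm (by linarith)
      have hJ1 : 1 ≤ J := by
        by_contra hc
        have hJ0 : J = 0 := by omega
        rw [hJ0] at hJ2
        have h6 := hlarge.trans_le hJ2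
        rw [Real.rpow_lt_rpow_left_iff hm1] at h6
        norm_num at h6
      have hJ3 : (M : ℝ) ^ ((J : ℝ) - 3 / 4) ≤ |t| := by
        have h6 := Nat.find_min hex (m := J - 1) (by omega)
        push Not at h6
        have h7 : ((J - 1 : ℕ) : ℝ) + 1 / 4 = (J : ℝ) - 3 / 4 := by
          rw [Nat.cast_sub hJ1]; push_cast; ring
        rw [h7] at h6
        exact h6.le
      apply hgoal B (by linarith)
      exact VdcF_big n hn1 M a b J β t hbig ha hb hβ hβ1 hJ1 (by omega) hJ3 hJ2 hlarge.le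

end Pool.Agent.H76.EHB

end

section

/-!
# W KS1: sums of `(n + β)^{it}` over intervals starting anywhere

`|∑_{a < n ≤ b} ee(t log(n+β))| ≤ C K (1/|t| + x^{-δ})` for `b ≤ K`, `x^κ ≤ K ≤ x`, `1 ≤ |t| ≤ x^3`.

Proof.  Let `k0 = ⌈8/κ⌉₊` and let `δ0, C0` be the constants of `EHB.vdc k0`; put `δ = κ δ0 / 4` or smaller
(e.g. `min (κ δ0 / 4) (κ/8)`, we may assume `κ ≤ 1`: if `κ > 1` there is no `K` once `x ≥ 2`).  The terms with
`n ≤ K^{1/2}` contribute at most `K^{1/2} + 1`.  Cut the rest into the intervals `(a', b'] ⊂ (M, 2M]` with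
`M = 2^i`, `M ≥ K^{1/2}/2`, `2^i ≤ K`.  For `|t| ≥ M^{1/3}` use `vdc k0` (`|t| ≤ x^3 ≤ M^{k0}` as
`M ≥ K^{1/2}/2 ≥ x^{κ/2}/2`, for large `x`): `≤ C0 M^{1-δ0}`; for `|t| ≤ M^{1/3}` use `low_sum`:
`≤ 4M/|t| + 7 M^{1/3}`.  The sum over `M = 2^i ≤ K` is `≤ C (K^{1-δ0}·K^{..} + K/|t| + K^{1/3})` (geometric
series; `∑ M^{1-δ0} ≤ (number of i) K^{1-δ0}`, number of `i ≤ 2 log K ≤ C K^{δ0/2}`).  Finally
`K^{-δ0/2}, K^{-1/2} ≤ x^{-δ}`.
-/

set_option autoImplicit false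

namespace Pool.Agent.H35.W

open Finset
open Pool.Agent.H91.PK (ee)

private theorem KS1_triv (a b : ℕ) (β t : ℝ) :
    ‖∑ n ∈ Ioc a b, ee (t * Real.log (n + β))‖ ≤ b := by
  have h1 : ‖∑ n ∈ Ioc a b, ee (t * Real.log (n + β))‖ ≤ ∑ n ∈ Ioc a b, (1 : ℝ) := by
    refine (norm_sum_le _ _).trans (Finset.sum_le_sum fun n _ => ?_)
    rw [Pool.Agent.H91.PK.LSa_norm_ee]
  refine h1.trans ?_
  rw [Finset.sum_const, Nat.card_Ioc, nsmul_eq_mul, mul_one]
  exact_mod_cast Nat.sub_le b a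

/-- a dyadic piece -/
private theorem KS1_piece (C0 δ0 δ1 : ℝ) (k0 : ℕ) (hC0 : 1 ≤ C0) (h10 : δ1 ≤ δ0)
    (h1h : δ1 ≤ 1 / 2)
    (hv : ∀ (M a b : ℕ) (β t : ℝ), 1 ≤ M → M ≤ a → b ≤ 2 * M → 0 ≤ β → β ≤ 1 →
      (M : ℝ) ^ (1 / 3 : ℝ) ≤ |t| → |t| ≤ (M : ℝ) ^ k0 →
      ‖∑ n ∈ Ioc a b, ee (t * Real.log (n + β))‖ ≤ C0 * (M : ℝ) ^ (1 - δ0))
    (M a b : ℕ) (β t : ℝ) (hM : 1 ≤ M) (ha : M ≤ a) (hb : b ≤ 2 * M) (hβ : 0 ≤ β) (hβ1 : β ≤ 1)
    (ht1 : 1 ≤ |t|) (ht : |t| ≤ (M : ℝ) ^ k0) :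
    ‖∑ n ∈ Ioc a b, ee (t * Real.log (n + β))‖ ≤
      (C0 + 7) * (M : ℝ) ^ (1 - δ1) + 4 * M / |t| := by
  have hm : (1 : ℝ) ≤ M := by exact_mod_cast hM
  have hm0 : (0 : ℝ) < M := by linarith
  have hp : 0 < (M : ℝ) ^ (1 - δ1) := Real.rpow_pos_of_pos hm0 _
  have ht0 : 0 < |t| := by linarith
  have hq : 0 ≤ 4 * (M : ℝ) / |t| := by positivity
  rcases le_or_gt ((M : ℝ) ^ (1 / 3 : ℝ)) |t| with h | h
  · refine (hv M a b β t hM ha hb hβ hβ1 h ht).trans ?_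
    have h1 : (M : ℝ) ^ (1 - δ0) ≤ (M : ℝ) ^ (1 - δ1) :=
      Real.rpow_le_rpow_of_exponent_le hm (by linarith)
    nlinarith
  · refine (Pool.Agent.H76.EHB.low_sum t β M a b hM ha hb hβ hβ1 (abs_pos.1 ht0)).trans ?_
    have h1 : (M : ℝ) ^ (1 / 3 : ℝ) ≤ (M : ℝ) ^ (1 - δ1) :=
      Real.rpow_le_rpow_of_exponent_le hm (by linarith)
    nlinarith

/-- halving -/
private theorem KS1_step (C1 δ1 τ : ℝ) (hC1 : 0 ≤ C1) (h1h : δ1 ≤ 1 / 2) (hτ : 0 < τ)
    (m b : ℝ) (hm : 0 ≤ m) (hmb : m ≤ 2 / 3 * b) :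
    (C1 * m ^ (1 - δ1) + 4 * m / τ) + (6 * C1 * m ^ (1 - δ1) + 8 * m / τ) ≤
      6 * C1 * b ^ (1 - δ1) + 8 * b / τ := by
  have hb : 0 ≤ b := by linarith
  have h1 : m ^ (1 - δ1) ≤ 5 / 6 * b ^ (1 - δ1) := by
    calc m ^ (1 - δ1) ≤ (2 / 3 * b) ^ (1 - δ1) := Real.rpow_le_rpow hm hmb (by linarith)
      _ = (2 / 3) ^ (1 - δ1) * b ^ (1 - δ1) := Real.mul_rpow (by norm_num) hb
      _ ≤ 5 / 6 * b ^ (1 - δ1) := by
          refine mul_le_mul_of_nonneg_right ?_ (Real.rpow_nonneg hb _)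
          calc (2 / 3 : ℝ) ^ (1 - δ1) ≤ (2 / 3 : ℝ) ^ (1 / 2 : ℝ) :=
                Real.rpow_le_rpow_of_exponent_ge (by norm_num) (by norm_num) (by linarith)
            _ ≤ 5 / 6 := by
                rw [← Real.sqrt_eq_rpow, Real.sqrt_le_left (by norm_num)]
                norm_num
  have h2 : m / τ ≤ 2 / 3 * (b / τ) := by
    rw [← mul_div_assoc]
    exact div_le_div_of_nonneg_right hmb hτ.le
  have h3 : 0 ≤ b ^ (1 - δ1) := Real.rpow_nonneg hb _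
  have e1 : (C1 * m ^ (1 - δ1) + 4 * m / τ) + (6 * C1 * m ^ (1 - δ1) + 8 * m / τ) =
      7 * (C1 * m ^ (1 - δ1)) + 12 * (m / τ) := by ring
  have e2 : 6 * C1 * b ^ (1 - δ1) + 8 * b / τ = 6 * (C1 * b ^ (1 - δ1)) + 8 * (b / τ) := by ring
  rw [e1, e2]
  have h4 : C1 * m ^ (1 - δ1) ≤ 5 / 6 * (C1 * b ^ (1 - δ1)) := by
    calc C1 * m ^ (1 - δ1) ≤ C1 * (5 / 6 * b ^ (1 - δ1)) := mul_le_mul_of_nonneg_left h1 hC1
      _ = _ := by ring
  have h5 : 0 ≤ C1 * b ^ (1 - δ1) := by positivity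
  linarith

/-- all intervals -/
private theorem KS1_all (C0 δ0 δ1 T : ℝ) (k0 : ℕ) (hC0 : 1 ≤ C0) (h10 : δ1 ≤ δ0)
    (h1h : δ1 ≤ 1 / 2) (hT : 3 ≤ T)
    (hv : ∀ (M a b : ℕ) (β t : ℝ), 1 ≤ M → M ≤ a → b ≤ 2 * M → 0 ≤ β → β ≤ 1 →
      (M : ℝ) ^ (1 / 3 : ℝ) ≤ |t| → |t| ≤ (M : ℝ) ^ k0 →
      ‖∑ n ∈ Ioc a b, ee (t * Real.log (n + β))‖ ≤ C0 * (M : ℝ) ^ (1 - δ0))
    (β t : ℝ) (hβ : 0 ≤ β) (hβ1 : β ≤ 1) (ht1 : 1 ≤ |t|) (ht : |t| ≤ (T / 2) ^ k0) (b : ℕ) :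
    ∀ a : ℕ, ‖∑ n ∈ Ioc a b, ee (t * Real.log (n + β))‖ ≤
      T + (6 * (C0 + 7) * (b : ℝ) ^ (1 - δ1) + 8 * b / |t|) := by
  induction b using Nat.strong_induction_on with
  | _ b ih =>
    intro a
    have ht0 : 0 < |t| := by linarith
    have hG : 0 ≤ 6 * (C0 + 7) * (b : ℝ) ^ (1 - δ1) + 8 * b / |t| := by
      have h1 : 0 ≤ (b : ℝ) ^ (1 - δ1) := Real.rpow_nonneg (Nat.cast_nonneg _) _
      have h2 : 0 ≤ C0 + 7 := by linarith
      positivity
    rcases le_or_gt (b : ℝ) T with hbT | hbT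
    · have := KS1_triv a b β t
      linarith
    · have hb3 : 3 < b := by
        have : (3 : ℝ) < b := by linarith
        exact_mod_cast this
      set M := (b + 1) / 2 with hMdef
      have hMb : M < b := by omega
      have hM1 : 1 ≤ M := by omega
      have hb2 : b ≤ 2 * M := by omega
      have h3M : 3 * M ≤ 2 * b := by omega
      have hMr : (M : ℝ) ≤ 2 / 3 * b := by
        have : (3 : ℝ) * M ≤ 2 * b := by exact_mod_cast h3M
        linarith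
      have hMT : T / 2 ≤ (M : ℝ) := by
        have : (b : ℝ) ≤ 2 * M := by exact_mod_cast hb2
        linarith
      have htM : |t| ≤ (M : ℝ) ^ k0 := ht.trans (pow_le_pow_left₀ (by linarith) hMT k0)
      have hstep := KS1_step (C0 + 7) δ1 |t| (by linarith) h1h ht0 M b (Nat.cast_nonneg _) hMr
      have hG' : 0 ≤ 6 * (C0 + 7) * (M : ℝ) ^ (1 - δ1) + 8 * M / |t| := by
        have h1 : 0 ≤ (M : ℝ) ^ (1 - δ1) := Real.rpow_nonneg (Nat.cast_nonneg _) _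
        have h2 : 0 ≤ C0 + 7 := by linarith
        positivity
      rcases le_or_gt M a with haM | haM
      · have h := KS1_piece C0 δ0 δ1 k0 hC0 h10 h1h hv M a b β t hM1 haM hb2 hβ hβ1 ht1 htM
        linarith
      · have h := KS1_piece C0 δ0 δ1 k0 hC0 h10 h1h hv M M b β t hM1 le_rfl hb2 hβ hβ1 ht1 htM
        have h' := ih M hMb a
        have e : ∑ n ∈ Ioc a b, ee (t * Real.log (n + β)) =
            ∑ n ∈ Ioc a M, ee (t * Real.log (n + β)) +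
              ∑ n ∈ Ioc M b, ee (t * Real.log (n + β)) :=
          (Finset.sum_Ioc_consecutive _ haM.le hMb.le).symm
        rw [e]
        have := norm_add_le (∑ n ∈ Ioc a M, ee (t * Real.log (n + β)))
          (∑ n ∈ Ioc M b, ee (t * Real.log (n + β)))
        linarith

theorem ks1 (kap : ℝ) (hkap : 0 < kap) : ∃ δ C : ℝ, 0 < δ ∧ δ ≤ 1 ∧ 1 ≤ C ∧ ∃ x0 : ℕ,
    ∀ x : ℕ, x0 ≤ x → ∀ (K a b : ℕ) (β t : ℝ), (x : ℝ) ^ kap ≤ K → K ≤ x → b ≤ K → 0 ≤ β → β ≤ 1 →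
      1 ≤ |t| → |t| ≤ (x : ℝ) ^ (3 : ℕ) →
      ‖∑ n ∈ Ioc a b, ee (t * Real.log (n + β))‖ ≤ C * K * (1 / |t| + (x : ℝ) ^ (-δ)) := by
  obtain ⟨δ0, C0, hδ0, hδ01, hC0, hv⟩ := Pool.Agent.H76.EHB.vdc ⌈8 / kap⌉₊
  set k0 := ⌈8 / kap⌉₊ with hk0
  set δ1 : ℝ := min δ0 (1 / 2) with hδ1
  have h10 : δ1 ≤ δ0 := min_le_left _ _
  have h1h : δ1 ≤ 1 / 2 := min_le_right _ _
  have h1p : 0 < δ1 := lt_min hδ0 (by norm_num)
  refine ⟨min (kap * δ1) 1, 6 * C0 + 51, lt_min (by positivity) one_pos, min_le_right _ _,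
    by linarith, ⌈(2 : ℝ) ^ (8 / kap)⌉₊ + 1, ?_⟩
  intro x hx K a b β t hK hKx hb hβ hβ1 ht1 ht
  have hx2 : (2 : ℝ) ^ (8 / kap) ≤ x := by
    refine (Nat.le_ceil _).trans ?_
    exact_mod_cast (by omega : ⌈(2 : ℝ) ^ (8 / kap)⌉₊ ≤ x)
  have hx1 : (1 : ℝ) ≤ x := by exact_mod_cast (by omega : 1 ≤ x)
  have hx0 : (0 : ℝ) < x := by linarith
  have h2 : (2 : ℝ) ≤ (x : ℝ) ^ (kap / 8) := by
    calc (2 : ℝ) = ((2 : ℝ) ^ (8 / kap)) ^ (kap / 8) := by
          rw [← Real.rpow_mul (by norm_num)]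
          have : 8 / kap * (kap / 8) = 1 := by field_simp
          rw [this, Real.rpow_one]
      _ ≤ (x : ℝ) ^ (kap / 8) := Real.rpow_le_rpow (by positivity) hx2 (by positivity)
  have hK1 : (1 : ℝ) ≤ K := (Real.one_le_rpow hx1 hkap.le).trans hK
  have hK0 : (0 : ℝ) < K := by linarith
  set T : ℝ := (K : ℝ) ^ (1 / 2 : ℝ) with hT
  have hTx : (x : ℝ) ^ (kap / 2) ≤ T := by
    calc (x : ℝ) ^ (kap / 2) = ((x : ℝ) ^ kap) ^ (1 / 2 : ℝ) := by
          rw [← Real.rpow_mul hx0.le]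
          congr 1
          ring
      _ ≤ T := Real.rpow_le_rpow (by positivity) hK (by norm_num)
  have hx4 : (16 : ℝ) ≤ (x : ℝ) ^ (kap / 2) := by
    have e : (x : ℝ) ^ (kap / 2) = ((x : ℝ) ^ (kap / 8)) ^ 4 := by
      rw [← Real.rpow_natCast, ← Real.rpow_mul hx0.le]
      congr 1
      push_cast
      ring
    rw [e]
    calc (16 : ℝ) = 2 ^ 4 := by norm_num
      _ ≤ _ := pow_le_pow_left₀ (by norm_num) h2 4
  have hT3 : 3 ≤ T := by linarith
  have hT2 : (x : ℝ) ^ (3 * kap / 8) ≤ T / 2 := by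
    have e : (x : ℝ) ^ (kap / 2) = (x : ℝ) ^ (kap / 8) * (x : ℝ) ^ (3 * kap / 8) := by
      rw [← Real.rpow_add hx0]
      congr 1
      ring
    have h3 : 0 < (x : ℝ) ^ (3 * kap / 8) := Real.rpow_pos_of_pos hx0 _
    rw [e] at hTx
    nlinarith
  have htT : |t| ≤ (T / 2) ^ k0 := by
    refine ht.trans ?_
    calc (x : ℝ) ^ (3 : ℕ) = (x : ℝ) ^ (3 : ℝ) := by
          rw [← Real.rpow_natCast]
          norm_num
      _ ≤ (x : ℝ) ^ (3 * kap / 8 * k0) := by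
          apply Real.rpow_le_rpow_of_exponent_le hx1
          have h3 : 8 / kap ≤ k0 := Nat.le_ceil _
          rw [div_le_iff₀ hkap] at h3
          nlinarith
      _ = ((x : ℝ) ^ (3 * kap / 8)) ^ k0 := by
          rw [← Real.rpow_natCast, ← Real.rpow_mul hx0.le]
      _ ≤ (T / 2) ^ k0 := pow_le_pow_left₀ (by positivity) hT2 k0
  have hmain := KS1_all C0 δ0 δ1 T k0 hC0 h10 h1h hT3 hv β t hβ hβ1 ht1 htT b a
  refine hmain.trans ?_
  have ht0 : 0 < |t| := by linarith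
  have hbK : (b : ℝ) ≤ K := by exact_mod_cast hb
  have f1 : (b : ℝ) ^ (1 - δ1) ≤ (K : ℝ) ^ (1 - δ1) :=
    Real.rpow_le_rpow (Nat.cast_nonneg _) hbK (by linarith)
  have f2 : (b : ℝ) / |t| ≤ K / |t| := div_le_div_of_nonneg_right hbK ht0.le
  have f3 : T ≤ (K : ℝ) ^ (1 - δ1) := Real.rpow_le_rpow_of_exponent_le hK1 (by linarith)
  have f4 : (K : ℝ) ^ (1 - δ1) ≤ K * (x : ℝ) ^ (-(min (kap * δ1) 1)) := by
    have e : (K : ℝ) ^ (1 - δ1) = K * (K : ℝ) ^ (-δ1) := by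
      rw [sub_eq_add_neg, Real.rpow_add hK0, Real.rpow_one]
    rw [e]
    refine mul_le_mul_of_nonneg_left ?_ hK0.le
    calc (K : ℝ) ^ (-δ1) ≤ ((x : ℝ) ^ kap) ^ (-δ1) :=
          Real.rpow_le_rpow_of_nonpos (by positivity) hK (by linarith)
      _ = (x : ℝ) ^ (-(kap * δ1)) := by
          rw [← Real.rpow_mul hx0.le]
          congr 1
          ring
      _ ≤ (x : ℝ) ^ (-(min (kap * δ1) 1)) :=
          Real.rpow_le_rpow_of_exponent_le hx1 (neg_le_neg (min_le_left _ _))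
  have e1 : 8 * (b : ℝ) / |t| = 8 * (b / |t|) := by ring
  rw [e1]
  have e2 : (6 * C0 + 51) * (K : ℝ) * (1 / |t| + (x : ℝ) ^ (-(min (kap * δ1) 1))) =
      (6 * C0 + 51) * (K / |t|) +
        (6 * C0 + 51) * (K * (x : ℝ) ^ (-(min (kap * δ1) 1))) := by ring
  rw [e2]
  have g0 : 0 ≤ (K : ℝ) / |t| := by positivity
  have g1 : 0 ≤ (K : ℝ) ^ (1 - δ1) := by positivity
  have g2 : 6 * (C0 + 7) * (b : ℝ) ^ (1 - δ1) ≤ 6 * (C0 + 7) * (K : ℝ) ^ (1 - δ1) :=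
    mul_le_mul_of_nonneg_left f1 (by linarith)
  have g3 : (6 * C0 + 43) * (K : ℝ) ^ (1 - δ1) ≤
      (6 * C0 + 51) * (K * (x : ℝ) ^ (-(min (kap * δ1) 1))) :=
    mul_le_mul (by linarith) f4 g1 (by linarith)
  have g4 : 8 * ((K : ℝ) / |t|) ≤ (6 * C0 + 51) * (K / |t|) :=
    mul_le_mul_of_nonneg_right (by linarith) g0
  linarith

end Pool.Agent.H35.W

end

section

/-!
# LV GInt: the kernel integral

`D(u) = ∑_{n ≤ K} ee(u log n)`, `x^κ ≤ K ≤ x`.  `ks1 κ` (with `β = 0`, `a = 0`, `b = K`) gives `δ, C ≥ 1, x1` with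
`|D(u)| ≤ C K (1/|u| + x^{-δ})` for `1 ≤ |u| ≤ x^3`; trivially `|D(u)| ≤ K`.  Hence for `|u| ≤ 2 x^2 ≤ x^3`
`|D(u)| ≤ 2 C K / (1 + |u|) + C K x^{-δ}`.  For `t ∈ B`: `∫_B 1/(1+|t-s|) ds ≤ ∫_{|u| ≤ 2 x^2} du/(1+|u|) = 2 log(1 + 2 x^2) ≤ 6 L` and
`∫_B x^{-δ} ≤ x^{η - δ} ≤ 1` with `η = δ`.  So the integral is `≤ 12 C K L + C K ≤ K L^2` for large `x`.
(To avoid computing the integral one may also compare on dyadic pieces or use
`∫_0^Y du/(1+u) = log(1+Y)`, `integral_one_div_of_pos` after a shift.)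
-/

set_option autoImplicit false

namespace Pool.Agent.H80.LV

open Finset MeasureTheory
open Pool.Agent.H91.PK (ee)

private theorem GInt_log (t Y : ℝ) (hY : 0 ≤ Y) :
    ∫ s in (t - Y)..(t + Y), 1 / (1 + |t - s|) = 2 * Real.log (1 + Y) := by
  have hcont : Continuous (fun s : ℝ => 1 / (1 + |t - s|)) := by
    refine continuous_const.div (by fun_prop) fun s => ?_
    positivity
  have h1 : ∫ s in (t - Y)..t, 1 / (1 + |t - s|) = Real.log (1 + Y) := by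
    have e1 : ∫ s in (t - Y)..t, 1 / (1 + |t - s|) =
        ∫ s in (t - Y)..t, (fun u : ℝ => 1 / u) (1 + t - s) := by
      refine intervalIntegral.integral_congr fun s hs => ?_
      rw [Set.uIcc_of_le (by linarith), Set.mem_Icc] at hs
      simp only
      rw [abs_of_nonneg (by linarith)]
      congr 1
      ring
    rw [e1, intervalIntegral.integral_comp_sub_left, integral_one_div_of_pos (by linarith)
      (by linarith)]
    congr 1
    rw [show (1 : ℝ) + t - t = 1 by ring, div_one]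
    ring
  have h2 : ∫ s in t..(t + Y), 1 / (1 + |t - s|) = Real.log (1 + Y) := by
    have e1 : ∫ s in t..(t + Y), 1 / (1 + |t - s|) =
        ∫ s in t..(t + Y), (fun u : ℝ => 1 / u) (s - (t - 1)) := by
      refine intervalIntegral.integral_congr fun s hs => ?_
      rw [Set.uIcc_of_le (by linarith), Set.mem_Icc] at hs
      simp only
      rw [abs_of_nonpos (by linarith)]
      congr 1
      ring
    rw [e1, intervalIntegral.integral_comp_sub_right, integral_one_div_of_pos (by linarith)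
      (by linarith)]
    congr 1
    rw [show t - (t - 1) = 1 by ring, div_one]
    ring
  rw [← intervalIntegral.integral_add_adjacent_intervals (b := t)
    (hcont.intervalIntegrable _ _) (hcont.intervalIntegrable _ _), h1, h2]
  ring

theorem g_int (κ : ℝ) (hκ : 0 < κ) : ∃ η : ℝ, 0 < η ∧ η ≤ 1 ∧ ∃ x0 : ℕ, ∀ x : ℕ, x0 ≤ x →
    ∀ (K : ℕ) (B : Set ℝ), (x : ℝ) ^ κ ≤ K → K ≤ x → MeasurableSet B →
      B ⊆ Set.Icc (-((x : ℝ) ^ (2 : ℕ))) ((x : ℝ) ^ (2 : ℕ)) → volume.real B ≤ (x : ℝ) ^ η →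
      ∀ t ∈ B, ∫ s in B, ‖∑ n ∈ Icc 1 K, ee ((t - s) * Real.log n)‖ ≤ K * Real.log x ^ 2 := by
  obtain ⟨δ, C, hδ, hδ1, hC, x1, hx1⟩ := Pool.Agent.H35.W.ks1 κ hκ
  obtain ⟨x2, hx2⟩ := log_ge (13 * C)
  refine ⟨δ, hδ, hδ1, max (max x1 x2) 3, fun x hx K B hK hKx hB hBs hvol t ht => ?_⟩
  have hxx1 : x1 ≤ x := le_trans (le_trans (le_max_left _ _) (le_max_left _ _)) hx
  have hxx2 : x2 ≤ x := le_trans (le_trans (le_max_right _ _) (le_max_left _ _)) hx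
  have hx3 : 3 ≤ x := le_trans (le_max_right _ _) hx
  have hxr : (3 : ℝ) ≤ x := by exact_mod_cast hx3
  have hx0 : (0 : ℝ) < x := by linarith
  have hL := hx2 x hxx2
  set L : ℝ := Real.log x with hLdef
  have hL1 : 13 ≤ L := by linarith
  have hK0 : (0 : ℝ) ≤ K := Nat.cast_nonneg _
  set Y : ℝ := 2 * (x : ℝ) ^ 2 with hY
  have hY0 : 0 ≤ Y := by positivity
  have hYx : 1 + Y ≤ (x : ℝ) ^ 3 := by
    rw [hY]
    nlinarith [sq_nonneg ((x : ℝ) - 3)]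
  have hxd : 0 ≤ (x : ℝ) ^ (-δ) := Real.rpow_nonneg hx0.le _
  -- pointwise bound
  have hpt : ∀ s ∈ B, ‖∑ n ∈ Icc 1 K, ee ((t - s) * Real.log n)‖ ≤
      2 * C * K * (1 / (1 + |t - s|)) + C * K * (x : ℝ) ^ (-δ) := by
    intro s hs
    have hs1 := hBs hs
    have ht1 := hBs ht
    rw [Set.mem_Icc] at hs1 ht1
    have habs : |t - s| ≤ Y := by
      rw [hY, abs_le]
      constructor <;> linarith [hs1.1, hs1.2, ht1.1, ht1.2]
    rcases lt_or_ge |t - s| 1 with h | h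
    · have h1 : ‖∑ n ∈ Icc 1 K, ee ((t - s) * Real.log n)‖ ≤ K := by
        refine (norm_sum_le _ _).trans ?_
        refine (Finset.sum_le_card_nsmul _ _ 1 fun n _ =>
          (Pool.Agent.H91.PK.LSa_norm_ee _).le).trans ?_
        rw [Nat.card_Icc, nsmul_eq_mul, mul_one, Nat.add_sub_cancel]
      have h2 : 1 ≤ 2 * (1 / (1 + |t - s|)) := by
        rw [mul_one_div, le_div_iff₀ (by positivity)]
        linarith
      have h3 : (0 : ℝ) ≤ C * K * (x : ℝ) ^ (-δ) := by positivity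
      have h4 : (K : ℝ) ≤ 2 * C * K * (1 / (1 + |t - s|)) := by
        calc (K : ℝ) = K * 1 := (mul_one _).symm
          _ ≤ K * (2 * (1 / (1 + |t - s|))) := mul_le_mul_of_nonneg_left h2 hK0
          _ = 1 * (2 * K * (1 / (1 + |t - s|))) := by ring
          _ ≤ C * (2 * K * (1 / (1 + |t - s|))) :=
              mul_le_mul_of_nonneg_right hC (by positivity)
          _ = _ := by ring
      linarith
    · have h1 := hx1 x hxx1 K 0 K 0 (t - s) hK hKx le_rfl le_rfl zero_le_one h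
        (habs.trans (by linarith))
      simp only [add_zero] at h1
      have e : Ioc 0 K = Icc 1 K := by
        ext n
        simp only [mem_Ioc, mem_Icc]
        omega
      rw [e] at h1
      refine h1.trans ?_
      have h2 : 1 / |t - s| ≤ 2 * (1 / (1 + |t - s|)) := by
        rw [mul_one_div, div_le_div_iff₀ (by linarith) (by positivity)]
        linarith
      calc C * K * (1 / |t - s| + (x : ℝ) ^ (-δ)) ≤
            C * K * (2 * (1 / (1 + |t - s|)) + (x : ℝ) ^ (-δ)) :=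
            mul_le_mul_of_nonneg_left (by linarith) (by positivity)
        _ = _ := by ring
  have hcee : Continuous (fun s : ℝ => ‖∑ n ∈ Icc 1 K, ee ((t - s) * Real.log n)‖) := by
    unfold ee
    fun_prop
  have hcg0 : Continuous (fun s : ℝ => 1 / (1 + |t - s|)) := by
    refine continuous_const.div (by fun_prop) fun s => ?_
    positivity
  have hcg : Continuous (fun s : ℝ => 2 * C * K * (1 / (1 + |t - s|))) :=
    continuous_const.mul hcg0
  have hi1 : IntegrableOn (fun s : ℝ => ‖∑ n ∈ Icc 1 K, ee ((t - s) * Real.log n)‖) B :=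
    (hcee.continuousOn.integrableOn_Icc).mono_set hBs
  have hi2 : IntegrableOn (fun s : ℝ => 2 * C * K * (1 / (1 + |t - s|))) B :=
    (hcg.continuousOn.integrableOn_Icc).mono_set hBs
  have hi3 : IntegrableOn (fun _ : ℝ => C * K * (x : ℝ) ^ (-δ)) B :=
    (continuous_const.continuousOn.integrableOn_Icc).mono_set hBs
  refine (setIntegral_mono_on hi1 (hi2.add hi3) hB hpt).trans ?_
  have e1 : ∫ s in B, (2 * C * K * (1 / (1 + |t - s|)) + C * K * (x : ℝ) ^ (-δ)) =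
      2 * C * K * (∫ s in B, 1 / (1 + |t - s|)) + volume.real B * (C * K * (x : ℝ) ^ (-δ)) := by
    rw [integral_add hi2 hi3, integral_const_mul, setIntegral_const, smul_eq_mul]
  have e2 : ∫ s in B, 1 / (1 + |t - s|) ≤ 2 * Real.log (1 + Y) := by
    rw [← GInt_log t Y hY0, intervalIntegral.integral_of_le (by linarith),
      ← integral_Icc_eq_integral_Ioc]
    refine setIntegral_mono_set (hcg0.continuousOn.integrableOn_Icc)
      (Filter.Eventually.of_forall fun s => ?_) (HasSubset.Subset.eventuallyLE ?_)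
    · simp only [Pi.zero_apply]
      positivity
    · intro s hs
      have hs1 := hBs hs
      have ht1 := hBs ht
      rw [Set.mem_Icc] at hs1 ht1 ⊢
      constructor <;> linarith [hs1.1, hs1.2, ht1.1, ht1.2]
  have e3 : Real.log (1 + Y) ≤ 3 * L := by
    calc Real.log (1 + Y) ≤ Real.log ((x : ℝ) ^ 3) := Real.log_le_log (by positivity) hYx
      _ = 3 * L := by rw [Real.log_pow, hLdef]; norm_num
  have e4 : volume.real B * (x : ℝ) ^ (-δ) ≤ 1 := by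
    calc volume.real B * (x : ℝ) ^ (-δ) ≤ (x : ℝ) ^ δ * (x : ℝ) ^ (-δ) :=
          mul_le_mul_of_nonneg_right hvol hxd
      _ = 1 := by rw [← Real.rpow_add hx0, add_neg_cancel, Real.rpow_zero]
  have e5 : 2 * C * K * (∫ s in B, 1 / (1 + |t - s|)) ≤ 2 * C * K * (2 * (3 * L)) := by
    refine mul_le_mul_of_nonneg_left ?_ (by positivity)
    linarith
  have e6 : volume.real B * (C * K * (x : ℝ) ^ (-δ)) ≤ C * K * 1 := by
    calc volume.real B * (C * K * (x : ℝ) ^ (-δ)) = C * K * (volume.real B * (x : ℝ) ^ (-δ)) := by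
          ring
      _ ≤ C * K * 1 := mul_le_mul_of_nonneg_left e4 (by positivity)
  have e7 : 12 * C * L + C ≤ L ^ 2 := by
    have : C ≤ C * L := le_mul_of_one_le_right (by linarith) (by linarith)
    nlinarith
  change ∫ s in B, (2 * C * K * (1 / (1 + |t - s|)) + C * K * (x : ℝ) ^ (-δ)) ≤ K * L ^ 2
  rw [e1]
  calc 2 * C * K * (∫ s in B, 1 / (1 + |t - s|)) + volume.real B * (C * K * (x : ℝ) ^ (-δ))
      ≤ 2 * C * K * (2 * (3 * L)) + C * K * 1 := add_le_add e5 e6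
    _ = K * (12 * C * L + C) := by ring
    _ ≤ K * L ^ 2 := mul_le_mul_of_nonneg_left e7 hK0

end Pool.Agent.H80.LV

end

section

/-!
# LV HM: the Halász-Montgomery inequality for short sets
-/

set_option autoImplicit false

namespace Pool.Agent.H80.LV

open Finset MeasureTheory
open Pool.Agent.H91.PK (ee)

theorem hm (κ : ℝ) (hκ : 0 < κ) : ∃ η : ℝ, 0 < η ∧ η ≤ 1 ∧ ∃ x0 : ℕ, ∀ x : ℕ, x0 ≤ x →
    ∀ (K : ℕ) (a : ℕ → ℂ) (B : Set ℝ), (x : ℝ) ^ κ ≤ K → K ≤ x → MeasurableSet B →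
      B ⊆ Set.Icc (-((x : ℝ) ^ (2 : ℕ))) ((x : ℝ) ^ (2 : ℕ)) → volume.real B ≤ (x : ℝ) ^ η →
      ∫ t in B, ‖∑ n ∈ Icc 1 K, a n * ee (t * Real.log n)‖ ^ 2
        ≤ K * Real.log x ^ 2 * ∑ n ∈ Icc 1 K, ‖a n‖ ^ 2 := by
  obtain ⟨η, h1, h2, x0, H⟩ := g_int κ hκ
  refine ⟨η, h1, h2, x0, fun x hx K a B hK hKx hB hb hv => ?_⟩
  exact dual_ineq B _ hB hb K a _ (by positivity) (H x hx K B hK hKx hB hb hv)

end Pool.Agent.H80.LV

end
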