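import Mathlib

/-! The parts of this file: H91.GoldMertens, H91.GoldMertens2, H91.GoldMertens3. -/

section

/-!
Explicit weak forms of the theorem of Mertens for `∑ 1/p`.
-/

namespace Pool.Agent.H91.Gold

open Finset Real
open scoped ArithmeticFunction.vonMangoldt

/-- Discrete partial summation. -/
theorem abel_le {w z : ℕ} (hwz : w ≤ z) {c : ℝ} (hc : 0 ≤ c) {a b f : ℕ → ℝ}
    (hf0 : ∀ k, w < k → k ≤ z → 0 ≤ f k) (hf1 : 0 ≤ f (w + 1)) (hf : ∀ k, w < k → k < z → f (k + 1) ≤ f k)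
    (hA : ∀ m, w ≤ m → m ≤ z → ∑ k ∈ Ioc w m, a k ≤ ∑ k ∈ Ioc w m, b k + c) :
    ∑ k ∈ Ioc w z, a k * f k ≤ ∑ k ∈ Ioc w z, b k * f k + c * f (w + 1) := by
  have key : ∀ m, w ≤ m → m < z →
      (∑ k ∈ Ioc w (m + 1), b k + c - ∑ k ∈ Ioc w (m + 1), a k) * f (m + 1)
        ≤ ∑ k ∈ Ioc w (m + 1), b k * f k + c * f (w + 1) - ∑ k ∈ Ioc w (m + 1), a k * f k := by
    intro m hm
    induction m, hm using Nat.le_induction with
    | base =>
      intro _
      have : Ioc w (w + 1) = {w + 1} := by ext x; simp only [mem_Ioc, mem_singleton]; omega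
      rw [this]
      simp
      linarith
    | succ m hm ih =>
      intro hmz
      have ih' := ih (by omega)
      have e : ∀ h : ℕ → ℝ, ∑ k ∈ Ioc w (m + 1 + 1), h k = ∑ k ∈ Ioc w (m + 1), h k + h (m + 1 + 1) := by
        intro h
        rw [sum_Ioc_succ_top (by omega)]
      rw [e, e, e, e]
      have h1 := hA (m + 1) (by omega) (by omega)
      have h2 := hf (m + 1) (by omega) hmz
      have h3 : (∑ k ∈ Ioc w (m + 1), b k + c - ∑ k ∈ Ioc w (m + 1), a k) * f (m + 1 + 1)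
          ≤ (∑ k ∈ Ioc w (m + 1), b k + c - ∑ k ∈ Ioc w (m + 1), a k) * f (m + 1) :=
        mul_le_mul_of_nonneg_left h2 (by linarith)
      nlinarith
  rcases eq_or_lt_of_le hwz with h | h
  · subst h
    simp
    positivity
  · obtain ⟨m, rfl⟩ : ∃ m, z = m + 1 := ⟨z - 1, by omega⟩
    have h1 := key m (by omega) (by omega)
    have h2 := hA (m + 1) (by omega) le_rfl
    have h3 := hf0 (m + 1) (by omega) le_rfl
    have h4 : 0 ≤ (∑ k ∈ Ioc w (m + 1), b k + c - ∑ k ∈ Ioc w (m + 1), a k) * f (m + 1) :=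
      mul_nonneg (by linarith) h3
    linarith

/-- The sum of `Λ d / d` for `d ≤ n`. -/
noncomputable def Mt (n : ℕ) : ℝ := ∑ d ∈ Ioc 0 n, Λ d / d

theorem log_fact_eq (n : ℕ) : ∑ k ∈ Ioc 0 n, Real.log k = ∑ d ∈ Ioc 0 n, Λ d * ((n / d : ℕ) : ℝ) := by
  rw [← ArithmeticFunction.sum_Ioc_mul_zeta_eq_sum, ArithmeticFunction.vonMangoldt_mul_zeta]
  rfl

theorem log_fact_ge (n : ℕ) (hn : 1 ≤ n) : n * Real.log n - n ≤ ∑ k ∈ Ioc 0 n, Real.log k := by
  induction n, hn using Nat.le_induction with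
  | base => simp
  | succ n hn ih =>
    rw [sum_Ioc_succ_top (by omega)]
    have hn0 : (0 : ℝ) < n := by exact_mod_cast hn
    have h1 : Real.log ((n + 1 : ℕ) : ℝ) - Real.log n ≤ 1 / n := by
      rw [← Real.log_div (by positivity) hn0.ne']
      have := Real.log_le_sub_one_of_pos (x := ((n + 1 : ℕ) : ℝ) / n) (by positivity)
      have e : ((n + 1 : ℕ) : ℝ) / n - 1 = 1 / n := by push_cast; field_simp; ring
      linarith
    have h2 : (n : ℝ) * (Real.log ((n + 1 : ℕ) : ℝ) - Real.log n) ≤ 1 := by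
      calc (n : ℝ) * (Real.log ((n + 1 : ℕ) : ℝ) - Real.log n) ≤ n * (1 / n) :=
            mul_le_mul_of_nonneg_left h1 hn0.le
        _ = 1 := by field_simp
    push_cast at *
    nlinarith

theorem log_fact_le (n : ℕ) (hn : 1 ≤ n) :
    ∑ k ∈ Ioc 0 n, Real.log k ≤ n * Real.log n - n + 1 + Real.log n := by
  induction n, hn using Nat.le_induction with
  | base => simp
  | succ n hn ih =>
    rw [sum_Ioc_succ_top (by omega)]
    have hn0 : (0 : ℝ) < n := by exact_mod_cast hn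
    have h1 : 1 / ((n + 1 : ℕ) : ℝ) ≤ Real.log ((n + 1 : ℕ) : ℝ) - Real.log n := by
      have h := Real.log_le_sub_one_of_pos (x := (n : ℝ) / ((n + 1 : ℕ) : ℝ)) (by positivity)
      rw [Real.log_div hn0.ne' (by positivity)] at h
      have e : (n : ℝ) / ((n + 1 : ℕ) : ℝ) - 1 = - (1 / ((n + 1 : ℕ) : ℝ)) := by
        push_cast; field_simp; ring
      linarith
    have h2 : 1 ≤ ((n + 1 : ℕ) : ℝ) * (Real.log ((n + 1 : ℕ) : ℝ) - Real.log n) := by
      calc (1 : ℝ) = ((n + 1 : ℕ) : ℝ) * (1 / ((n + 1 : ℕ) : ℝ)) := by field_simp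
        _ ≤ _ := mul_le_mul_of_nonneg_left h1 (by positivity)
    push_cast at *
    nlinarith

end Pool.Agent.H91.Gold

end

section

/-!
A sharper explicit form of the theorem of Mertens for `∑ log p / p` and `∑ 1/p`, by linear
combinations of `log n!`.
-/

namespace Pool.Agent.H91.Gold

open Finset Real
open scoped ArithmeticFunction.vonMangoldt

/-- `log n!` -/
noncomputable def Tf (n : ℕ) : ℝ := ∑ k ∈ Ioc 0 n, Real.log k

theorem psi_eq (n : ℕ) : Chebyshev.psi n = ∑ d ∈ Ioc 0 n, Λ d := by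
  rw [Chebyshev.psi]; simp

theorem Tf_div (m n i : ℕ) (hmi : m / i ≤ n) :
    Tf (m / i) = ∑ d ∈ Ioc 0 n, Λ d * (((m / d) / i : ℕ) : ℝ) := by
  unfold Tf
  rw [log_fact_eq]
  have h1 : ∑ d ∈ Ioc 0 (m / i), Λ d * ((m / i / d : ℕ) : ℝ)
      = ∑ d ∈ Ioc 0 (m / i), Λ d * (((m / d) / i : ℕ) : ℝ) := by
    apply sum_congr rfl
    intro d _
    rw [Nat.div_div_eq_div_mul, Nat.div_div_eq_div_mul, mul_comm i d]
  rw [h1]
  apply sum_subset
  · intro d hd
    rw [mem_Ioc] at hd ⊢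
    omega
  · intro d hd hd'
    rw [mem_Ioc] at hd hd'
    have h2 : m / i < d := by omega
    have h3 : m / d / i = 0 := by
      rw [Nat.div_div_eq_div_mul, mul_comm d i, ← Nat.div_div_eq_div_mul]
      exact Nat.div_eq_of_lt h2
    rw [h3]; simp

theorem Tf_ge {m i : ℕ} (hi : 1 ≤ i) (him : i ≤ m) :
    (m : ℝ) / i * Real.log ((m : ℝ) / i) - (m : ℝ) / i - Real.log ((m : ℝ) / i) ≤ Tf (m / i) := by
  have hi0 : (0 : ℝ) < i := by exact_mod_cast hi
  have hm0 : (0 : ℝ) < m := by exact_mod_cast (by omega : 0 < m)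
  have h1 : 1 ≤ m / i := (Nat.one_le_div_iff hi).2 him
  have h2 := log_fact_ge (m / i) h1
  set k := m / i with hk
  set x : ℝ := (m : ℝ) / i with hx
  have hx0 : 0 < x := by positivity
  have hk0 : (0 : ℝ) < k := by exact_mod_cast h1
  have hkx : (k : ℝ) ≤ x := Nat.cast_div_le
  have hxk : x ≤ k + 1 := by
    rw [hx, div_le_iff₀ hi0]
    have h3 := Nat.div_add_mod m i
    have h4 := Nat.mod_lt m (show 0 < i by omega)
    have h5 : m ≤ (k + 1) * i := by rw [hk]; nlinarith only [h3, h4]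
    exact_mod_cast h5
  have hx1 : 1 ≤ x := by
    have : (1 : ℝ) ≤ k := by exact_mod_cast h1
    linarith
  have h3 := Real.log_le_sub_one_of_pos (x := x / k) (by positivity)
  rw [Real.log_div hx0.ne' hk0.ne'] at h3
  have h4 : (k : ℝ) * (Real.log x - Real.log k) ≤ x - k := by
    calc (k : ℝ) * (Real.log x - Real.log k) ≤ k * (x / k - 1) :=
          mul_le_mul_of_nonneg_left h3 hk0.le
      _ = x - k := by field_simp
  have h5 : 0 ≤ Real.log x := Real.log_nonneg hx1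
  have h6 : (x - k) * Real.log x ≤ 1 * Real.log x :=
    mul_le_mul_of_nonneg_right (by linarith) h5
  unfold Tf
  nlinarith only [h2, h4, h6]

theorem Tf_le {m i : ℕ} (hi : 1 ≤ i) (him : i ≤ m) :
    Tf (m / i) ≤ (m : ℝ) / i * Real.log ((m : ℝ) / i) - (m : ℝ) / i + 1 + Real.log ((m : ℝ) / i) := by
  have hi0 : (0 : ℝ) < i := by exact_mod_cast hi
  have hm0 : (0 : ℝ) < m := by exact_mod_cast (by omega : 0 < m)
  have h1 : 1 ≤ m / i := (Nat.one_le_div_iff hi).2 him
  have h2 := log_fact_le (m / i) h1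
  set k := m / i with hk
  set x : ℝ := (m : ℝ) / i with hx
  have hx0 : 0 < x := by positivity
  have hk0 : (0 : ℝ) < k := by exact_mod_cast h1
  have hk1 : (1 : ℝ) ≤ k := by exact_mod_cast h1
  have hkx : (k : ℝ) ≤ x := Nat.cast_div_le
  have h3 := Real.log_le_sub_one_of_pos (x := k / x) (by positivity)
  rw [Real.log_div hk0.ne' hx0.ne'] at h3
  have h4 : x - k ≤ x * (Real.log x - Real.log k) := by
    calc x - k = x * (-(k / x - 1)) := by field_simp; ring
      _ ≤ x * (Real.log x - Real.log k) := mul_le_mul_of_nonneg_left (by linarith only [h3]) hx0.le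
  have h5 : 0 ≤ Real.log k := Real.log_nonneg hk1
  have h6 : Real.log k ≤ Real.log x := Real.log_le_log hk0 hkx
  have h7 : 0 ≤ (x - k) * Real.log k := mul_nonneg (by linarith) h5
  unfold Tf
  nlinarith only [h2, h4, h6, h7]

/-! ### The theorem of Hanson: `ψ(n) ≤ n log 3` -/

def lcmChk : ℕ → ℕ → ℕ → ℕ → Bool
  | 0, _, _, _ => true
  | f + 1, n, L, T => Nat.ble L T && lcmChk f (n + 1) (Nat.lcm L (n + 1)) (3 * T)

theorem lcmUpto_succ (n : ℕ) : Nat.lcmUpto (n + 1) = Nat.lcm (Nat.lcmUpto n) (n + 1) := by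
  have h1 : Icc 1 (n + 1) = insert (n + 1) (Icc 1 n) := by
    ext x; simp only [mem_Icc, mem_insert]; omega
  unfold Nat.lcmUpto
  rw [h1, Finset.lcm_insert]
  simp only [id_eq]
  rw [← lcm_comm]
  rfl

theorem lcmChk_spec (f n : ℕ) (h : lcmChk f n (Nat.lcmUpto n) (3 ^ n) = true) :
    ∀ m, n ≤ m → m < n + f → Nat.lcmUpto m ≤ 3 ^ m := by
  induction f generalizing n with
  | zero => intro m h1 h2; omega
  | succ f ih =>
    intro m h1 h2
    simp only [lcmChk, Bool.and_eq_true, Nat.ble_eq] at h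
    rcases eq_or_lt_of_le h1 with h3 | h3
    · subst h3; exact h.1
    · apply ih (n + 1) _ m (by omega) (by omega)
      rw [lcmUpto_succ, pow_succ, mul_comm (3 ^ n) 3]
      exact h.2

theorem lcmChk_run : lcmChk 3001 0 1 1 = true := by decide +kernel

theorem psi_small {n : ℕ} (hn : n ≤ 3000) : Chebyshev.psi n ≤ Real.log 3 * n := by
  have h0 : Nat.lcmUpto 0 = 1 := by unfold Nat.lcmUpto; simp
  have h1 := lcmChk_spec 3001 0 (by rw [h0, pow_zero]; exact lcmChk_run) n (by omega) (by omega)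
  rw [Chebyshev.psi_eq_log_lcmUpto]
  have h2 : (0 : ℝ) < Nat.lcmUpto n := by exact_mod_cast Nat.lcmUpto_pos n
  calc Real.log (Nat.lcmUpto n) ≤ Real.log ((3 : ℝ) ^ n) := by
        apply Real.log_le_log h2
        exact_mod_cast h1
    _ = Real.log 3 * n := by rw [Real.log_pow]; ring

theorem psi_step (n : ℕ) : Chebyshev.psi n ≤ Chebyshev.psi ((n / 1806 : ℕ) : ℝ)
    + (Tf n - Tf (n / 2) - Tf (n / 3) - Tf (n / 7) - Tf (n / 43) - Tf (n / 1806)) := by
  have e : ∀ i : ℕ, 1 ≤ i → Tf (n / i) = ∑ d ∈ Ioc 0 n, Λ d * (((n / d) / i : ℕ) : ℝ) := by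
    intro i hi
    exact Tf_div _ _ _ (Nat.div_le_self _ _)
  have e1 := e 1 le_rfl
  rw [Nat.div_one] at e1
  rw [e1, e 2 (by norm_num), e 3 (by norm_num), e 7 (by norm_num), e 43 (by norm_num),
    e 1806 (by norm_num), psi_eq, psi_eq]
  have h1 : ∑ d ∈ Ioc 0 (n / 1806), Λ d = ∑ d ∈ Ioc 0 n, (if 1806 ≤ n / d then Λ d else 0) := by
    rw [← sum_filter]
    apply sum_congr _ (fun _ _ => rfl)
    ext d
    simp only [mem_Ioc, mem_filter]
    constructor
    · rintro ⟨h1, h2⟩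
      have h3 : d * 1806 ≤ n := (Nat.le_div_iff_mul_le (by norm_num)).1 h2
      refine ⟨⟨h1, by omega⟩, (Nat.le_div_iff_mul_le h1).2 (by linarith)⟩
    · rintro ⟨⟨h1, h2⟩, h3⟩
      refine ⟨h1, (Nat.le_div_iff_mul_le (by norm_num)).2 ?_⟩
      have := (Nat.le_div_iff_mul_le h1).1 h3
      linarith
  rw [h1]
  simp only [← sum_sub_distrib, ← sum_add_distrib]
  apply sum_le_sum
  intro d hd
  rw [mem_Ioc] at hd
  have hL := ArithmeticFunction.vonMangoldt_nonneg (n := d)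
  have ht : 1 ≤ n / d := (Nat.one_le_div_iff hd.1).2 hd.2
  set t := n / d with htd
  have key : 1 + (t / 2 + t / 3 + t / 7 + t / 43 + t / 1806) ≤ (if 1806 ≤ t then 1 else 0) + t := by
    split_ifs with h <;> omega
  have key2 : (1 : ℝ) + ((t / 2 : ℕ) + (t / 3 : ℕ) + (t / 7 : ℕ) + (t / 43 : ℕ) + (t / 1806 : ℕ))
      ≤ (if 1806 ≤ t then (1 : ℝ) else 0) + t := by
    have := (Nat.cast_le (α := ℝ)).2 key
    push_cast at this
    exact this
  rw [Nat.div_one]
  have := mul_le_mul_of_nonneg_left key2 hL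
  have h5 : Λ d * (if 1806 ≤ t then (1 : ℝ) else 0) = if 1806 ≤ t then Λ d else 0 := by
    split_ifs <;> simp
  simp only [mul_add, h5] at this
  linarith only [this]

theorem log_three_bounds : (84 : ℝ) / 53 * Real.log 2 ≤ Real.log 3 ∧ Real.log 3 ≤ 485 / 306 * Real.log 2 := by
  constructor
  · have h : Real.log ((2 : ℝ) ^ 84) ≤ Real.log ((3 : ℝ) ^ 53) :=
      Real.log_le_log (by norm_num) (by norm_num)
    rw [Real.log_pow, Real.log_pow] at h
    push_cast at h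
    linarith
  · have h : Real.log ((9 : ℝ) ^ 153) ≤ Real.log ((32 : ℝ) ^ 97) :=
      Real.log_le_log (by norm_num) (by norm_num)
    rw [Real.log_pow, Real.log_pow, show (9 : ℝ) = 3 ^ 2 by norm_num,
      show (32 : ℝ) = 2 ^ 5 by norm_num, Real.log_pow, Real.log_pow] at h
    push_cast at h
    linarith

theorem log_seven_le : Real.log 7 ≤ 73 / 26 * Real.log 2 := by
  have h : Real.log ((7 : ℝ) ^ 26) ≤ Real.log ((2 : ℝ) ^ 73) :=
    Real.log_le_log (by norm_num) (by norm_num)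
  rw [Real.log_pow, Real.log_pow] at h
  push_cast at h
  linarith

theorem log_43_le : Real.log 43 ≤ 38 / 7 * Real.log 2 := by
  have h : Real.log ((43 : ℝ) ^ 7) ≤ Real.log ((2 : ℝ) ^ 38) :=
    Real.log_le_log (by norm_num) (by norm_num)
  rw [Real.log_pow, Real.log_pow] at h
  push_cast at h
  linarith

/-- The theorem of Hanson: `lcm(1,...,n) ≤ 3 ^ n`. -/
theorem psi_le_log_three (n : ℕ) : Chebyshev.psi n ≤ Real.log 3 * n := by
  induction n using Nat.strong_induction_on with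
  | _ n ih =>
    by_cases hn : n ≤ 3000
    · exact psi_small hn
    push Not at hn
    have h0 := ih (n / 1806) (by omega)
    have h1 := psi_step n
    have hn0 : (3000 : ℝ) < n := by exact_mod_cast hn
    have hnp : (0 : ℝ) < n := by linarith
    have hd : ((n / 1806 : ℕ) : ℝ) ≤ (n : ℝ) / 1806 := by
      have := @Nat.cast_div_le ℝ _ _ _ n 1806
      exact_mod_cast this
    have t1 := Tf_le (m := n) (i := 1) le_rfl (by omega)
    have t2 := Tf_ge (m := n) (i := 2) (by norm_num) (by omega)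
    have t3 := Tf_ge (m := n) (i := 3) (by norm_num) (by omega)
    have t7 := Tf_ge (m := n) (i := 7) (by norm_num) (by omega)
    have t43 := Tf_ge (m := n) (i := 43) (by norm_num) (by omega)
    have t1806 := Tf_ge (m := n) (i := 1806) (by norm_num) (by omega)
    rw [Nat.div_one] at t1
    push_cast at t1 t2 t3 t7 t43 t1806
    rw [div_one] at t1
    rw [Real.log_div hnp.ne' (by norm_num)] at t2 t3 t7 t43 t1806
    have l3 := log_three_bounds
    have l7 := log_seven_le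
    have l43 := log_43_le
    have l2 := Real.log_two_lt_d9
    have l2' := Real.log_two_gt_d9
    have e1806 : Real.log 1806 = Real.log 2 + Real.log 3 + Real.log 7 + Real.log 43 := by
      rw [← Real.log_mul (by norm_num) (by norm_num), ← Real.log_mul (by norm_num) (by norm_num),
        ← Real.log_mul (by norm_num) (by norm_num)]
      norm_num
    have p7 : 0 < Real.log 7 := Real.log_pos (by norm_num)
    have p43 : (3.5 : ℝ) ≤ Real.log 43 := by
      have h : Real.log ((2 : ℝ) ^ 5) ≤ Real.log 43 := Real.log_le_log (by norm_num) (by norm_num)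
      rw [Real.log_pow] at h
      have h' : (3.4657 : ℝ) ≤ Real.log 43 := by push_cast at h; linarith only [l2', h]
      have h2 : Real.log ((2 : ℝ) ^ 27) ≤ Real.log ((43 : ℝ) ^ 5) := Real.log_le_log (by norm_num) (by norm_num)
      rw [Real.log_pow, Real.log_pow] at h2
      push_cast at h2
      linarith only [l2', h2]
    have p7' : (1.9 : ℝ) ≤ Real.log 7 := by
      have h2 : Real.log ((2 : ℝ) ^ 14) ≤ Real.log ((7 : ℝ) ^ 5) := Real.log_le_log (by norm_num) (by norm_num)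
      rw [Real.log_pow, Real.log_pow] at h2
      push_cast at h2
      linarith only [l2', h2]
    -- `log n ≤ n / 4096 - 1 + log 4096`
    have hlog : Real.log n ≤ n / 4096 - 1 + 12 * Real.log 2 := by
      have h := Real.log_le_sub_one_of_pos (x := (n : ℝ) / 4096) (by positivity)
      rw [Real.log_div hnp.ne' (by norm_num)] at h
      have e : Real.log (4096 : ℝ) = 12 * Real.log 2 := by
        rw [show (4096 : ℝ) = 2 ^ 12 by norm_num, Real.log_pow]; norm_num
      rw [e] at h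
      linarith only [h]
    rw [e1806] at t1806
    have main : Chebyshev.psi n ≤ Real.log 3 * (n / 1806)
        + n * (Real.log 2 / 2 + Real.log 3 / 3 + Real.log 7 / 7 + Real.log 43 / 43
            + (Real.log 2 + Real.log 3 + Real.log 7 + Real.log 43) / 1806)
        + 1 + 6 * Real.log n - 2 * (Real.log 2 + Real.log 3 + Real.log 7 + Real.log 43) := by
      have l3pos : 0 ≤ Real.log 3 := by linarith only [l2', l3.1]
      have := mul_le_mul_of_nonneg_left hd l3pos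
      nlinarith
    have e5 : n * (Real.log 2 / 2 + Real.log 3 / 3 + Real.log 7 / 7 + Real.log 43 / 43
            + (Real.log 2 + Real.log 3 + Real.log 7 + Real.log 43) / 1806) + Real.log 3 * (n / 1806) + 6 * (n / 4096)
            + 32
          ≤ Real.log 3 * n := by
      have q1 : Real.log 2 / 2 + Real.log 3 / 3 + Real.log 7 / 7 + Real.log 43 / 43
            + (Real.log 2 + Real.log 3 + Real.log 7 + Real.log 43) / 1806 + Real.log 3 / 1806 + 6 / 4096 + 0.011
            ≤ Real.log 3 := by linarith only [l7, l43, l2', l3.1]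
      have q2 := mul_le_mul_of_nonneg_left q1 hnp.le
      nlinarith only [hn0, q2]
    linarith only [l2, p43, p7', hlog, main, e5, l3.1]

/-! ### Linear combinations of `log n!` -/

/-- `∑ a ⌊k / i⌋` -/
def evl : List (ℕ × ℕ) → ℕ → ℕ
  | [], _ => 0
  | x :: l, k => x.2 * (k / x.1) + evl l k

/-- `∑ a` -/
def sml : List (ℕ × ℕ) → ℕ
  | [] => 0
  | x :: l => x.2 + sml l

/-- `∑ J [s ≤ k]` -/
def stp : List (ℕ × ℕ) → ℕ → ℕ
  | [], _ => 0
  | x :: l, k => (if x.1 ≤ k then x.2 else 0) + stp l k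

/-- `∑ a / i` -/
def rsq : List (ℕ × ℕ) → ℚ
  | [] => 0
  | x :: l => (x.2 : ℚ) / x.1 + rsq l

/-- `∑ a T(q n / i)` -/
noncomputable def Tl (q : ℕ) : List (ℕ × ℕ) → ℕ → ℝ
  | [], _ => 0
  | x :: l, n => x.2 * Tf (q * n / x.1) + Tl q l n

/-- `∑ a (q / i) log (q / i)` -/
noncomputable def c0l (q : ℕ) : List (ℕ × ℕ) → ℝ
  | [] => 0
  | x :: l => x.2 * ((q : ℝ) / x.1 * Real.log ((q : ℝ) / x.1)) + c0l q l

theorem Tl_eq {q : ℕ} (l : List (ℕ × ℕ)) (n : ℕ) (hl : ∀ x ∈ l, q ≤ x.1) :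
    Tl q l n = ∑ d ∈ Ioc 0 n, Λ d * (evl l (q * n / d) : ℝ) := by
  induction l with
  | nil => simp [Tl, evl]
  | cons x l ih =>
    have hx := hl x (by simp)
    simp only [Tl, evl]
    rw [ih (fun y hy => hl y (by simp [hy])), Tf_div (q * n) n x.1, mul_sum, ← sum_add_distrib]
    · apply sum_congr rfl
      intro d _
      push_cast
      ring
    · apply Nat.div_le_of_le_mul
      nlinarith

theorem stp_sum {q : ℕ} (l : List (ℕ × ℕ)) (n : ℕ) (hl : ∀ x ∈ l, 1 ≤ x.1) :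
    ∑ d ∈ Ioc 0 n, Λ d * (stp l (q * n / d) : ℝ) ≤ Real.log 3 * (q * n) * (rsq l : ℝ) := by
  induction l with
  | nil => simp [stp, rsq]
  | cons x l ih =>
    have ih' := ih (fun y hy => hl y (by simp [hy]))
    have hx := hl x (by simp)
    have hx0 : (0 : ℝ) < x.1 := by exact_mod_cast hx
    simp only [stp, rsq]
    have h1 : ∑ d ∈ Ioc 0 n, Λ d * (((if x.1 ≤ q * n / d then x.2 else 0) + stp l (q * n / d) : ℕ) : ℝ)
        = x.2 * ∑ d ∈ Ioc 0 n, (if x.1 ≤ q * n / d then Λ d else 0)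
          + ∑ d ∈ Ioc 0 n, Λ d * (stp l (q * n / d) : ℝ) := by
      rw [mul_sum, ← sum_add_distrib]
      apply sum_congr rfl
      intro d _
      split_ifs
      · push_cast; ring
      · push_cast; ring
    have h2 : ∑ d ∈ Ioc 0 n, (if x.1 ≤ q * n / d then Λ d else 0)
        ≤ Chebyshev.psi ((q * n / x.1 : ℕ) : ℝ) := by
      rw [← sum_filter, psi_eq]
      apply sum_le_sum_of_subset_of_nonneg
      · intro d hd
        rw [mem_filter, mem_Ioc] at hd
        rw [mem_Ioc]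
        refine ⟨hd.1.1, (Nat.le_div_iff_mul_le hx).2 ?_⟩
        have := (Nat.le_div_iff_mul_le hd.1.1).1 hd.2
        linarith only [this]
      · intro d _ _
        exact ArithmeticFunction.vonMangoldt_nonneg
    have h3 := psi_le_log_three (q * n / x.1)
    have h4 : ((q * n / x.1 : ℕ) : ℝ) ≤ (q * n : ℝ) / x.1 := by
      have := @Nat.cast_div_le ℝ _ _ _ (q * n) x.1
      push_cast at this
      exact this
    have h5 : 0 ≤ Real.log 3 := Real.log_nonneg (by norm_num)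
    have h6 : ∑ d ∈ Ioc 0 n, (if x.1 ≤ q * n / d then Λ d else 0) ≤ Real.log 3 * ((q * n : ℝ) / x.1) :=
      (h2.trans h3).trans (mul_le_mul_of_nonneg_left h4 h5)
    have h7 := mul_le_mul_of_nonneg_left h6 (Nat.cast_nonneg x.2 : (0 : ℝ) ≤ x.2)
    rw [h1]
    push_cast
    have h8 : (x.2 : ℝ) * (Real.log 3 * ((q * n : ℝ) / x.1)) = Real.log 3 * (q * n) * ((x.2 : ℝ) / x.1) := by
      field_simp
    rw [mul_add, ← h8]
    linarith only [ih', h7]

/-- Main terms of `Tl`. -/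
noncomputable def mainT (q : ℕ) (l : List (ℕ × ℕ)) (n : ℕ) : ℝ :=
  n * (Real.log n - 1) * (q * (rsq l : ℝ)) + n * c0l q l

theorem Tl_bounds {q : ℕ} (l : List (ℕ × ℕ)) (n : ℕ) (hq : 1 ≤ q) (hn : 1 ≤ n)
    (hl : ∀ x ∈ l, q ≤ x.1 ∧ x.1 ≤ n) :
    mainT q l n - sml l * (Real.log n + 1) ≤ Tl q l n
      ∧ Tl q l n ≤ mainT q l n + sml l * (Real.log n + 1) := by
  induction l with
  | nil => simp [Tl, sml, mainT, rsq, c0l]
  | cons x l ih =>
    obtain ⟨ih1, ih2⟩ := ih (fun y hy => hl y (by simp [hy]))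
    obtain ⟨hx1, hx2⟩ := hl x (by simp)
    have hx0 : (0 : ℝ) < x.1 := by exact_mod_cast (by omega : 0 < x.1)
    have hq0 : (0 : ℝ) < q := by exact_mod_cast hq
    have hn0 : (0 : ℝ) < n := by exact_mod_cast hn
    have hle : x.1 ≤ q * n := by nlinarith only [hq, hx2]
    have g1 := Tf_ge (m := q * n) (i := x.1) (by omega) hle
    have g2 := Tf_le (m := q * n) (i := x.1) (by omega) hle
    have e1 : ((q * n : ℕ) : ℝ) / x.1 = n * ((q : ℝ) / x.1) := by push_cast; ring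
    have e2 : Real.log ((n : ℝ) * ((q : ℝ) / x.1)) = Real.log n + Real.log ((q : ℝ) / x.1) :=
      Real.log_mul hn0.ne' (by positivity)
    have e3 : Real.log ((q : ℝ) / x.1) ≤ 0 := by
      apply Real.log_nonpos (by positivity)
      rw [div_le_one hx0]
      exact_mod_cast hx1
    rw [e1, e2] at g1 g2
    have hlog : 0 ≤ Real.log n + 1 := by
      have := Real.log_natCast_nonneg n
      linarith
    have a0 : (0 : ℝ) ≤ x.2 := Nat.cast_nonneg _
    simp only [Tl, sml, mainT, rsq, c0l] at *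
    push_cast
    set r : ℝ := (q : ℝ) / x.1 with hr
    have e4 : (q : ℝ) * ((x.2 : ℝ) / x.1) = x.2 * r := by rw [hr]; ring
    have m1 := mul_le_mul_of_nonneg_left g1 a0
    have m2 := mul_le_mul_of_nonneg_left g2 a0
    have m3 : (x.2 : ℝ) * (Real.log r) ≤ 0 := mul_nonpos_of_nonneg_of_nonpos a0 e3
    have e5 : (n : ℝ) * (Real.log n - 1) * (q * ((x.2 : ℝ) / x.1 + (rsq l : ℝ)))
        = n * (Real.log n - 1) * (q * (rsq l : ℝ)) + x.2 * (n * r * Real.log n - n * r) := by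
      rw [mul_add (q : ℝ), e4]; ring
    rw [e5]
    constructor
    · linarith
    · linarith only [ih2, m2, m3]

/-- The parameters of a linear combination, with all conditions checked by computation. -/
structure Cmb where
  q : ℕ
  L : ℕ
  K : ℕ
  M : ℕ
  P : List (ℕ × ℕ)
  N : List (ℕ × ℕ)
  SU : List (ℕ × ℕ)
  SL : List (ℕ × ℕ)
  w : ℕ

def Cmb.chkU (c : Cmb) (k : ℕ) : Bool :=
  Nat.ble ((2 * (k + 1) + evl c.N k) * c.M) (evl c.P k * c.M + c.w * (k / c.L) + stp c.SU k)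

def Cmb.chkL (c : Cmb) (k : ℕ) : Bool :=
  Nat.ble (evl c.P k * c.M + (c.w + 1) * (k / c.L)) ((2 * k + evl c.N k) * c.M + stp c.SL k)

/-- Fast checking loop for the kernel: `f m` for all `lo ≤ m < hi`. -/
def allD (f : ℕ → Bool) (lo hi : ℕ) : Bool :=
  Nat.rec (motive := fun _ => Bool) true
    (fun m ih => cond (Nat.ble lo m) (cond (f m) ih false) true) hi

theorem allD_spec {f : ℕ → Bool} {lo hi : ℕ} (h : allD f lo hi = true) :
    ∀ k, lo ≤ k → k < hi → f k = true := by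
  induction hi with
  | zero => intro k h1 h2; omega
  | succ n ih =>
    intro k h1 h2
    have h3 : cond (Nat.ble lo n) (cond (f n) (allD f lo n) false) true = true := h
    have h4 : lo ≤ n := by omega
    have h5 : Nat.ble lo n = true := by rw [Nat.ble_eq]; exact h4
    rw [h5] at h3
    simp only [cond_true] at h3
    cases h6 : f n with
    | false => rw [h6] at h3; simp at h3
    | true =>
      rw [h6] at h3
      simp only [cond_true] at h3
      rcases Nat.lt_or_ge k n with h7 | h7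
      · exact ih h3 k h1 h7
      · have : k = n := by omega
        rw [this]; exact h6

def stpB : List (ℕ × ℕ) → ℕ → ℕ
  | [], _ => 0
  | x :: l, k => cond (Nat.ble x.1 k) x.2 0 + stpB l k

theorem stp_eq (l : List (ℕ × ℕ)) (k : ℕ) : stp l k = stpB l k := by
  induction l with
  | nil => rfl
  | cons x l ih =>
    simp only [stp, stpB, ih]
    congr 1
    by_cases h : x.1 ≤ k
    · have h5 : Nat.ble x.1 k = true := by rw [Nat.ble_eq]; exact h
      rw [if_pos h, h5]; rfl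
    · have h5 : Nat.ble x.1 k = false := by
        rw [← Bool.not_eq_true, Nat.ble_eq]; exact h
      rw [if_neg h, h5]; rfl

/-- Validity of the parameters. -/
structure Cmb.Valid (c : Cmb) : Prop where
  hq : 1 ≤ c.q
  hM : 1 ≤ c.M
  hL : c.q ≤ c.L
  hP : ∀ x ∈ c.P, c.q ≤ x.1 ∧ x.1 ≤ c.L
  hN : ∀ x ∈ c.N, c.q ≤ x.1 ∧ x.1 ≤ c.L
  hSU : ∀ x ∈ c.SU, 1 ≤ x.1 ∧ x.1 ≤ c.K
  hSL : ∀ x ∈ c.SL, 1 ≤ x.1 ∧ x.1 ≤ c.K
  w1 : (c.w : ℚ) ≤ (2 - rsq c.P + rsq c.N) * c.L * c.M
  w2 : (2 - rsq c.P + rsq c.N) * c.L * c.M ≤ (c.w : ℚ) + 1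
  tU : sml c.P * c.M + c.w + 1 ≤ sml c.SU
  tL : sml c.N * c.M ≤ sml c.SL
  U : ∀ k, c.q ≤ k → k < c.K → c.chkU k = true
  D : ∀ k, c.q ≤ k → k < c.K → c.chkL k = true

theorem stp_top (l : List (ℕ × ℕ)) (k : ℕ) (h : ∀ x ∈ l, x.1 ≤ k) : stp l k = sml l := by
  induction l with
  | nil => rfl
  | cons x l ih =>
    simp only [stp, sml]
    rw [ih (fun y hy => h y (by simp [hy])), if_pos (h x (by simp))]

theorem evl_bounds (l : List (ℕ × ℕ)) (k : ℕ) (h : ∀ x ∈ l, 1 ≤ x.1) :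
    (evl l k : ℝ) ≤ (rsq l : ℝ) * k ∧ (rsq l : ℝ) * (k + 1) ≤ evl l k + sml l
      ∧ (0 : ℝ) ≤ (rsq l : ℝ) := by
  induction l with
  | nil => simp [evl, sml, rsq]
  | cons x l ih =>
    obtain ⟨ih1, ih2, ih3⟩ := ih (fun y hy => h y (by simp [hy]))
    have hx := h x (by simp)
    have hx0 : (0 : ℝ) < x.1 := by exact_mod_cast hx
    have a0 : (0 : ℝ) ≤ x.2 := Nat.cast_nonneg _
    have h1 : ((k / x.1 : ℕ) : ℝ) ≤ (k : ℝ) / x.1 := Nat.cast_div_le
    have h2 : ((k : ℝ) + 1) / x.1 ≤ ((k / x.1 : ℕ) : ℝ) + 1 := by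
      rw [div_le_iff₀ hx0]
      have h3 := Nat.div_add_mod k x.1
      have h4 := Nat.mod_lt k (show 0 < x.1 by omega)
      have h5 : k + 1 ≤ (k / x.1 + 1) * x.1 := by nlinarith only [h3, h4]
      exact_mod_cast h5
    simp only [evl, sml, rsq]
    push_cast
    have m1 := mul_le_mul_of_nonneg_left h1 a0
    have m2 := mul_le_mul_of_nonneg_left h2 a0
    refine ⟨?_, ?_, ?_⟩
    · have : (x.2 : ℝ) * (k / x.1) = x.2 / x.1 * k := by ring
      nlinarith only [ih1, m1, this]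
    · have : (x.2 : ℝ) * ((k + 1) / x.1) = x.2 / x.1 * (k + 1) := by ring
      nlinarith
    · positivity

/-- The real weight of the last term. -/
noncomputable def Cmb.wr (c : Cmb) : ℝ := (2 - (rsq c.P : ℝ) + (rsq c.N : ℝ)) * c.L

noncomputable def Cmb.G (c : Cmb) (k : ℕ) : ℝ :=
  (evl c.P k : ℝ) - evl c.N k + c.wr * ((k / c.L : ℕ) : ℝ)

theorem Cmb.wr_bounds {c : Cmb} (h : c.Valid) :
    (c.w : ℝ) ≤ c.wr * c.M ∧ c.wr * c.M ≤ c.w + 1 := by
  have h1 : ((c.w : ℚ) : ℝ) ≤ (((2 - rsq c.P + rsq c.N) * c.L * c.M : ℚ) : ℝ) := by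
    exact_mod_cast h.w1
  have h2 : (((2 - rsq c.P + rsq c.N) * c.L * c.M : ℚ) : ℝ) ≤ (((c.w : ℚ) + 1 : ℚ) : ℝ) := by
    exact_mod_cast h.w2
  push_cast at h1 h2
  unfold Cmb.wr
  exact ⟨h1, h2⟩

theorem Cmb.wr_nonneg {c : Cmb} (h : c.Valid) : 0 ≤ c.wr := by
  have h1 := (c.wr_bounds h).1
  have h2 : (1 : ℝ) ≤ c.M := by exact_mod_cast h.hM
  have h3 : (0 : ℝ) ≤ c.w := Nat.cast_nonneg _
  by_contra h4
  push Not at h4
  nlinarith

theorem Cmb.upper {c : Cmb} (h : c.Valid) {k : ℕ} (hk : c.q ≤ k) :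
    (2 * (k + 1) - c.G k) * c.M ≤ stp c.SU k := by
  have hM : (1 : ℝ) ≤ c.M := by exact_mod_cast h.hM
  have hwr := c.wr_bounds h
  have hw0 := c.wr_nonneg h
  rcases Nat.lt_or_ge k c.K with hK | hK
  · have h1 := h.U k hk hK
    unfold Cmb.chkU at h1
    rw [Nat.ble_eq] at h1
    have h2 : (((2 * (k + 1) + evl c.N k) * c.M : ℕ) : ℝ)
        ≤ ((evl c.P k * c.M + c.w * (k / c.L) + stp c.SU k : ℕ) : ℝ) := Nat.cast_le.2 h1
    rw [Nat.cast_add, Nat.cast_add, Nat.cast_mul, Nat.cast_mul, Nat.cast_mul, Nat.cast_add] at h2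
    push_cast at h2
    unfold Cmb.G
    have h3 : (0 : ℝ) ≤ ((k / c.L : ℕ) : ℝ) := Nat.cast_nonneg _
    have h4 := mul_le_mul_of_nonneg_right hwr.1 h3
    nlinarith
  · have h1 := stp_top c.SU k (fun x hx => ((h.hSU x hx).2).trans hK)
    rw [h1]
    have hq := h.hq
    have b1 := evl_bounds c.P k (fun x hx => by have := (h.hP x hx).1; omega)
    have b2 := evl_bounds c.N k (fun x hx => by have := (h.hN x hx).1; omega)
    have hL0 : (0 : ℝ) < c.L := by exact_mod_cast (by have := h.hL; omega : 0 < c.L)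
    have h2 : ((k : ℝ) + 1) / c.L ≤ ((k / c.L : ℕ) : ℝ) + 1 := by
      rw [div_le_iff₀ hL0]
      have h3 := Nat.div_add_mod k c.L
      have h4 := Nat.mod_lt k (show 0 < c.L by have := h.hL; omega)
      have h5 : k + 1 ≤ (k / c.L + 1) * c.L := by nlinarith only [h3, h4]
      exact_mod_cast h5
    have h3 : 2 * ((k : ℝ) + 1) = (rsq c.P : ℝ) * (k + 1) - (rsq c.N : ℝ) * (k + 1)
        + c.wr * ((k + 1) / c.L) := by
      unfold Cmb.wr; field_simp; ring
    have h4 : 2 * ((k : ℝ) + 1) - c.G k ≤ sml c.P + c.wr := by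
      unfold Cmb.G
      have := mul_le_mul_of_nonneg_left h2 hw0
      nlinarith [b1.2.1, b2.1, b2.2.2]
    have h5 : ((sml c.P * c.M + c.w + 1 : ℕ) : ℝ) ≤ sml c.SU := Nat.cast_le.2 h.tU
    push_cast at h5
    have h6 := mul_le_mul_of_nonneg_right h4 (by linarith : (0 : ℝ) ≤ c.M)
    nlinarith only [h5, h6, hwr.2]

theorem Cmb.lower {c : Cmb} (h : c.Valid) {k : ℕ} (hk : c.q ≤ k) :
    (c.G k - 2 * k) * c.M ≤ stp c.SL k := by
  have hM : (1 : ℝ) ≤ c.M := by exact_mod_cast h.hM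
  have hwr := c.wr_bounds h
  have hw0 := c.wr_nonneg h
  rcases Nat.lt_or_ge k c.K with hK | hK
  · have h1 := h.D k hk hK
    unfold Cmb.chkL at h1
    rw [Nat.ble_eq] at h1
    have h2 : ((evl c.P k * c.M + (c.w + 1) * (k / c.L) : ℕ) : ℝ)
        ≤ (((2 * k + evl c.N k) * c.M + stp c.SL k : ℕ) : ℝ) := Nat.cast_le.2 h1
    rw [Nat.cast_add, Nat.cast_add, Nat.cast_mul, Nat.cast_mul, Nat.cast_mul, Nat.cast_add] at h2
    push_cast at h2
    unfold Cmb.G
    have h3 : (0 : ℝ) ≤ ((k / c.L : ℕ) : ℝ) := Nat.cast_nonneg _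
    have h4 := mul_le_mul_of_nonneg_right hwr.2 h3
    nlinarith only [h2, h4]
  · have h1 := stp_top c.SL k (fun x hx => ((h.hSL x hx).2).trans hK)
    rw [h1]
    have hq := h.hq
    have b1 := evl_bounds c.P k (fun x hx => by have := (h.hP x hx).1; omega)
    have b2 := evl_bounds c.N k (fun x hx => by have := (h.hN x hx).1; omega)
    have hL0 : (0 : ℝ) < c.L := by exact_mod_cast (by have := h.hL; omega : 0 < c.L)
    have h2 : ((k / c.L : ℕ) : ℝ) ≤ (k : ℝ) / c.L := Nat.cast_div_le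
    have h3 : 2 * (k : ℝ) = (rsq c.P : ℝ) * k - (rsq c.N : ℝ) * k
        + c.wr * (k / c.L) := by
      unfold Cmb.wr; field_simp; ring
    have h4 : c.G k - 2 * k ≤ sml c.N := by
      unfold Cmb.G
      have := mul_le_mul_of_nonneg_left h2 hw0
      nlinarith [b1.1, b2.2.1, b2.2.2]
    have h5 : ((sml c.N * c.M : ℕ) : ℝ) ≤ sml c.SL := Nat.cast_le.2 h.tL
    push_cast at h5
    have h6 := mul_le_mul_of_nonneg_right h4 (by linarith : (0 : ℝ) ≤ c.M)
    nlinarith only [h5, h6]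

/-- The constant of the main term. -/
noncomputable def Cmb.C (c : Cmb) : ℝ := c0l c.q c.P - c0l c.q c.N + c.wr * c0l c.q [(c.L, 1)]

/-- Total weight. -/
noncomputable def Cmb.W (c : Cmb) : ℝ := sml c.P + sml c.N + c.wr

theorem Cmb.sum_G {c : Cmb} (h : c.Valid) (n : ℕ) :
    ∑ d ∈ Ioc 0 n, Λ d * c.G (c.q * n / d)
      = Tl c.q c.P n - Tl c.q c.N n + c.wr * Tl c.q [(c.L, 1)] n := by
  rw [Tl_eq c.P n (fun x hx => (h.hP x hx).1), Tl_eq c.N n (fun x hx => (h.hN x hx).1),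
    Tl_eq [(c.L, 1)] n (fun x hx => by
      simp only [List.mem_singleton] at hx; rw [hx]; exact h.hL), mul_sum, ← sum_sub_distrib,
    ← sum_add_distrib]
  apply sum_congr rfl
  intro d _
  unfold Cmb.G
  simp only [evl]
  push_cast
  ring

theorem Cmb.sum_G_bounds {c : Cmb} (h : c.Valid) {n : ℕ} (hn : c.L ≤ n) :
    |∑ d ∈ Ioc 0 n, Λ d * c.G (c.q * n / d) - (2 * c.q * (n * (Real.log n - 1)) + n * c.C)|
      ≤ c.W * (Real.log n + 1) := by
  have hq := h.hq
  have hL := h.hL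
  rw [c.sum_G h n]
  have b1 := Tl_bounds c.P n hq (by omega) (fun x hx => ⟨(h.hP x hx).1, (h.hP x hx).2.trans hn⟩)
  have b2 := Tl_bounds c.N n hq (by omega) (fun x hx => ⟨(h.hN x hx).1, (h.hN x hx).2.trans hn⟩)
  have b3 := Tl_bounds [(c.L, 1)] n hq (by omega) (fun x hx => by
      simp only [List.mem_singleton] at hx; rw [hx]; exact ⟨hL, hn⟩)
  have hw := c.wr_nonneg h
  have hL0 : (0 : ℝ) < c.L := by exact_mod_cast (by omega : 0 < c.L)
  have e : mainT c.q c.P n - mainT c.q c.N n + c.wr * mainT c.q [(c.L, 1)] n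
      = 2 * c.q * (n * (Real.log n - 1)) + n * c.C := by
    unfold mainT Cmb.C
    simp only [rsq]
    push_cast
    have e2 : c.wr * (1 / c.L + 0 : ℝ) = 2 - (rsq c.P : ℝ) + (rsq c.N : ℝ) := by
      unfold Cmb.wr; field_simp; ring
    have e3 : c.wr * (n * (Real.log n - 1) * (c.q * (1 / c.L + 0 : ℝ)) + n * c0l c.q [(c.L, 1)])
        = n * (Real.log n - 1) * c.q * (c.wr * (1 / c.L + 0 : ℝ)) + n * (c.wr * c0l c.q [(c.L, 1)]) := by
      ring
    rw [e3, e2]
    ring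
  have m1 := mul_le_mul_of_nonneg_left b3.1 hw
  have m2 := mul_le_mul_of_nonneg_left b3.2 hw
  simp only [sml] at m1 m2
  push_cast at m1 m2
  rw [← e, abs_le]
  unfold Cmb.W
  constructor
  · nlinarith only [m1, b1.1, b2.2]
  · nlinarith only [m2, b1.2, b2.1]

theorem Cmb.bounds {c : Cmb} (h : c.Valid) {n : ℕ} (hn : c.L ≤ n) :
    |Mt n - (Real.log n - 1 + c.C / (2 * c.q)) - Real.log 3 / (4 * c.M) * ((rsq c.SU : ℝ) - rsq c.SL)|
      ≤ c.W * (Real.log n + 1) / (2 * c.q * n) + Real.log 3 / (4 * c.M) * ((rsq c.SU : ℝ) + rsq c.SL) := by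
  have hq := h.hq
  have hL := h.hL
  have hq0 : (0 : ℝ) < c.q := by exact_mod_cast hq
  have hn0 : (0 : ℝ) < n := by exact_mod_cast (by omega : 0 < n)
  have hM0 : (0 : ℝ) < c.M := by exact_mod_cast h.hM
  have hG := abs_le.1 (c.sum_G_bounds h hn)
  have s1 := stp_sum (q := c.q) c.SU n (fun x hx => (h.hSU x hx).1)
  have s2 := stp_sum (q := c.q) c.SL n (fun x hx => (h.hSL x hx).1)
  have hk : ∀ d ∈ Ioc 0 n, c.q ≤ c.q * n / d ∧ ((c.q * n / d : ℕ) : ℝ) ≤ (c.q * n : ℝ) / d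
      ∧ (c.q * n : ℝ) / d ≤ ((c.q * n / d : ℕ) : ℝ) + 1 := by
    intro d hd
    rw [mem_Ioc] at hd
    have hd0 : (0 : ℝ) < d := by exact_mod_cast hd.1
    refine ⟨(Nat.le_div_iff_mul_le hd.1).2 (Nat.mul_le_mul_left _ hd.2), ?_, ?_⟩
    · have := @Nat.cast_div_le ℝ _ _ _ (c.q * n) d
      push_cast at this
      exact this
    · rw [div_le_iff₀ hd0]
      have h3 := Nat.div_add_mod (c.q * n) d
      have h4 := Nat.mod_lt (c.q * n) (show 0 < d by omega)
      have h5 : c.q * n ≤ (c.q * n / d + 1) * d := by nlinarith only [h3, h4]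
      exact_mod_cast h5
  have eM : ∑ d ∈ Ioc 0 n, Λ d * (2 * ((c.q * n : ℝ) / d)) = 2 * c.q * n * Mt n := by
    unfold Mt
    rw [mul_sum]
    apply sum_congr rfl
    intro d _
    ring
  have up : 2 * c.q * n * Mt n ≤ ∑ d ∈ Ioc 0 n, Λ d * c.G (c.q * n / d)
      + (∑ d ∈ Ioc 0 n, Λ d * (stp c.SU (c.q * n / d) : ℝ)) / c.M := by
    rw [← eM, sum_div, ← sum_add_distrib]
    apply sum_le_sum
    intro d hd
    obtain ⟨k1, k2, k3⟩ := hk d hd
    have hu := c.upper h k1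
    have hL0 := ArithmeticFunction.vonMangoldt_nonneg (n := d)
    have h1 : 2 * ((c.q * n : ℝ) / d) ≤ c.G (c.q * n / d) + (stp c.SU (c.q * n / d) : ℝ) / c.M := by
      have h2 : 2 * (((c.q * n / d : ℕ) : ℝ) + 1) - c.G (c.q * n / d)
          ≤ (stp c.SU (c.q * n / d) : ℝ) / c.M := by
        rw [le_div_iff₀ hM0]; exact hu
      linarith only [k3, h2]
    have h3 := mul_le_mul_of_nonneg_left h1 hL0
    calc Λ d * (2 * ((c.q * n : ℝ) / d)) ≤ _ := h3
      _ = _ := by ring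
  have lo : ∑ d ∈ Ioc 0 n, Λ d * c.G (c.q * n / d)
      - (∑ d ∈ Ioc 0 n, Λ d * (stp c.SL (c.q * n / d) : ℝ)) / c.M ≤ 2 * c.q * n * Mt n := by
    rw [← eM, sum_div, ← sum_sub_distrib]
    apply sum_le_sum
    intro d hd
    obtain ⟨k1, k2, k3⟩ := hk d hd
    have hu := c.lower h k1
    have hL0 := ArithmeticFunction.vonMangoldt_nonneg (n := d)
    have h1 : c.G (c.q * n / d) - (stp c.SL (c.q * n / d) : ℝ) / c.M ≤ 2 * ((c.q * n : ℝ) / d) := by
      have h2 : c.G (c.q * n / d) - 2 * ((c.q * n / d : ℕ) : ℝ)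
          ≤ (stp c.SL (c.q * n / d) : ℝ) / c.M := by
        rw [le_div_iff₀ hM0]; exact hu
      linarith only [k2, h2]
    have h3 := mul_le_mul_of_nonneg_left h1 hL0
    calc _ = Λ d * (c.G (c.q * n / d) - (stp c.SL (c.q * n / d) : ℝ) / c.M) := by ring
      _ ≤ _ := h3
  have s1' := div_le_div_of_nonneg_right s1 hM0.le
  have s2' := div_le_div_of_nonneg_right s2 hM0.le
  have hqn : (0 : ℝ) < 2 * c.q * n := by positivity
  have f1 : 2 * c.q * n * (Mt n - (Real.log n - 1 + c.C / (2 * c.q)))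
      = 2 * c.q * n * Mt n - (2 * c.q * (n * (Real.log n - 1)) + n * c.C) := by
    field_simp
  have f2 : 2 * c.q * n * (c.W * (Real.log n + 1) / (2 * c.q * n)) = c.W * (Real.log n + 1) := by
    field_simp
  have f3 : 2 * c.q * n * (Real.log 3 / (2 * c.M) * (rsq c.SU : ℝ))
      = Real.log 3 * (c.q * n) * (rsq c.SU : ℝ) / c.M := by
    field_simp
  have f4 : 2 * c.q * n * (Real.log 3 / (2 * c.M) * (rsq c.SL : ℝ))
      = Real.log 3 * (c.q * n) * (rsq c.SL : ℝ) / c.M := by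
    field_simp
  have g1 : Mt n - (Real.log n - 1 + c.C / (2 * c.q))
      ≤ c.W * (Real.log n + 1) / (2 * c.q * n) + Real.log 3 / (2 * c.M) * (rsq c.SU : ℝ) := by
    apply le_of_mul_le_mul_left _ hqn
    rw [f1, mul_add, f2, f3]
    linarith only [up, s1', hG.2]
  have g2 : -(c.W * (Real.log n + 1) / (2 * c.q * n) + Real.log 3 / (2 * c.M) * (rsq c.SL : ℝ))
      ≤ Mt n - (Real.log n - 1 + c.C / (2 * c.q)) := by
    apply le_of_mul_le_mul_left _ hqn
    rw [f1, mul_neg, mul_add, f2, f4]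
    linarith only [lo, s2', hG.1]
  have e4 : Real.log 3 / (2 * c.M) = 2 * (Real.log 3 / (4 * c.M)) := by
    field_simp; ring
  rw [e4] at g1 g2
  rw [abs_le]
  constructor
  · linarith only [g2]
  · linarith only [g1]

theorem Cmb.osc {c : Cmb} (h : c.Valid) {n m : ℕ} (hn : c.L ≤ n) (hm : c.L ≤ m) :
    Mt m - Mt n ≤ Real.log m - Real.log n
      + Real.log 3 / (2 * c.M) * ((rsq c.SU : ℝ) + rsq c.SL)
      + c.W / (2 * c.q) * ((Real.log m + 1) / m + (Real.log n + 1) / n) := by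
  have h1 := abs_le.1 (c.bounds h hn)
  have h2 := abs_le.1 (c.bounds h hm)
  have e4 : Real.log 3 / (2 * c.M) = 2 * (Real.log 3 / (4 * c.M)) := by
    have hM0 : (0 : ℝ) < c.M := by exact_mod_cast h.hM
    field_simp; ring
  have e5 : c.W * (Real.log m + 1) / (2 * c.q * m) = c.W / (2 * c.q) * ((Real.log m + 1) / m) := by
    rw [mul_div_mul_comm]
  have e6 : c.W * (Real.log n + 1) / (2 * c.q * n) = c.W / (2 * c.q) * ((Real.log n + 1) / n) := by
    rw [mul_div_mul_comm]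
  rw [e6] at h1
  rw [e5] at h2
  rw [e4]
  linarith only [h1.1, h2.2]

end Pool.Agent.H91.Gold

end

section

/-!
Data for the combination with `q = 24`, `L = 360`.
-/

namespace Pool.Agent.H91.Gold

open Finset Real

def cA : Cmb where
  q := 24
  L := 360
  K := 24000
  M := 100000
  P := [(24, 49), (25, 2), (26, 2), (27, 2), (28, 2), (29, 2), (30, 2), (31, 2), (32, 2), (33, 2), (34, 2), (35, 2), (36, 2), (37, 2), (38, 2), (39, 2), (40, 2), (41, 2), (42, 2), (43, 2), (44, 2), (45, 2), (46, 2), (47, 2), (49, 2), (51, 2), (53, 2), (55, 2), (57, 2), (59, 2), (61, 2), (63, 2), (65, 2), (67, 2), (69, 2), (71, 2), (73, 2), (77, 2), (79, 2), (83, 2), (85, 2), (89, 2), (91, 2), (95, 2), (97, 2), (101, 2), (103, 2), (107, 2), (109, 2), (113, 2), (115, 2), (119, 2), (121, 2), (127, 2), (131, 2), (133, 2), (137, 2), (139, 2), (143, 2), (144, 47), (149, 2), (151, 2), (157, 2), (161, 2), (163, 2), (167, 2), (169, 2), (173, 2), (179, 2),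 (181, 2), (187, 2), (191, 2), (193, 2), (197, 2), (199, 2), (209, 2), (211, 2), (221, 2), (223, 2), (227, 2), (229, 2), (233, 2), (239, 2), (240, 47), (241, 2), (247, 2), (251, 2), (253, 2), (257, 2), (263, 2), (269, 2), (271, 2), (277, 2), (281, 2), (283, 2), (289, 2), (293, 2), (299, 2), (307, 2), (311, 2), (313, 2), (317, 2), (323, 2), (331, 2), (336, 47), (337, 2), (347, 2), (349, 2), (353, 2), (359, 2)]
  N := [(48, 47), (72, 49), (78, 2), (84, 2), (90, 2), (96, 2), (102, 2), (108, 2), (114, 2), (120, 51), (126, 2), (130, 2), (132, 2), (135, 2), (138, 2), (140, 2), (150, 2), (160, 2), (165, 2), (168, 49), (170, 2), (175, 2), (180, 2), (182, 2), (189, 2), (190, 2), (195, 2), (196, 2), (200, 2), (210, 4), (220, 2), (224, 2), (225, 2), (230, 2), (231, 2), (238, 2), (245, 2), (252, 2), (255, 2), (264, 49), (266, 2), (273, 2), (275, 2), (280, 2), (285, 2), (286, 2), (294, 2), (297, 2), (308, 4), (312, 49), (315, 4), (322, 2),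 (325, 2), (330, 2), (338, 2), (345, 2), (351, 2), (352, 2), (357, 2)]
  SU := [(24, 100000), (360, 4103761), (361, 200000), (383, 200000), (643, 200000), (660, 200000), (661, 200000), (1584, 3111283), (22464, 318138), (22465, 200000), (24000, 32163058)]
  SL := [(24, 100000), (408, 396240), (418, 200000), (456, 4700000), (476, 200000), (495, 200000), (748, 196240), (783, 200000), (1464, 992480), (2491, 192480), (2492, 200000), (2494, 200000), (5785, 62400), (6528, 192480), (6534, 200000), (6545, 200000), (6792, 400000), (6795, 200000), (10557, 58640), (11835, 188720), (11836, 200000), (11837, 200000), (11850, 200000), (24000, 30720320)]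
  w := 796239

set_option maxRecDepth 10000

def fP (k : ℕ) : ℕ := Nat.add (Nat.mul (nat_lit 49) (Nat.div k (nat_lit 24))) (Nat.add (Nat.mul (nat_lit 2) (Nat.div k (nat_lit 25))) (Nat.add (Nat.mul (nat_lit 2) (Nat.div k (nat_lit 26))) (Nat.add (Nat.mul (nat_lit 2) (Nat.div k (nat_lit 27))) (Nat.add (Nat.mul (nat_lit 2) (Nat.div k (nat_lit 28))) (Nat.add (Nat.mul (nat_lit 2) (Nat.div k (nat_lit 29))) (Nat.add (Nat.mul (nat_lit 2) (Nat.div k (nat_lit 30))) (Nat.add (Nat.mul (nat_lit 2) (Nat.div k (nat_lit 31))) (Nat.add (Nat.mul (nat_lit 2) (Nat.div k (nat_lit 32))) (Nat.add (Nat.mul (nat_lit 2) (Nat.div k (nat_lit 33))) (Nat.add (Nat.mul (nat_lit 2) (Nat.div k (nat_lit 34))) (Nat.add (Nat.mul (nat_lit 2) (Nat.div k (nat_lit 35))) (Nat.add (Nat.mul (nat_lit 2) (Nat.div k (nat_lit 36))) (Nat.add (Nat.mul (nat_lit 2) (Nat.div k (nat_lit 37))) (Nat.add (Nat.mul (nat_lit 2) (Nat.div k (nat_lit 38))) (Nat.add (Nat.mul (nat_lit 2) (Nat.div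 k (nat_lit 39))) (Nat.add (Nat.mul (nat_lit 2) (Nat.div k (nat_lit 40))) (Nat.add (Nat.mul (nat_lit 2) (Nat.div k (nat_lit 41))) (Nat.add (Nat.mul (nat_lit 2) (Nat.div k (nat_lit 42))) (Nat.add (Nat.mul (nat_lit 2) (Nat.div k (nat_lit 43))) (Nat.add (Nat.mul (nat_lit 2) (Nat.div k (nat_lit 44))) (Nat.add (Nat.mul (nat_lit 2) (Nat.div k (nat_lit 45))) (Nat.add (Nat.mul (nat_lit 2) (Nat.div k (nat_lit 46))) (Nat.add (Nat.mul (nat_lit 2) (Nat.div k (nat_lit 47))) (Nat.add (Nat.mul (nat_lit 2) (Nat.div k (nat_lit 49))) (Nat.add (Nat.mul (nat_lit 2) (Nat.div k (nat_lit 51))) (Nat.add (Nat.mul (nat_lit 2) (Nat.div k (nat_lit 53))) (Nat.add (Nat.mul (nat_lit 2) (Nat.div k (nat_lit 55))) (Nat.add (Nat.mul (nat_lit 2) (Nat.div k (nat_lit 57))) (Nat.add (Nat.mul (nat_lit 2) (Nat.div k (nat_lit 59))) (Nat.add (Nat.mul (nat_lit 2) (Nat.div k (nat_lit 61))) (Nat.add (Nat.mul (nat_lit 2) (Nat.div k (nat_lit 63))) (Nat.add (Nat.mul (nat_lit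 2) (Nat.div k (nat_lit 65))) (Nat.add (Nat.mul (nat_lit 2) (Nat.div k (nat_lit 67))) (Nat.add (Nat.mul (nat_lit 2) (Nat.div k (nat_lit 69))) (Nat.add (Nat.mul (nat_lit 2) (Nat.div k (nat_lit 71))) (Nat.add (Nat.mul (nat_lit 2) (Nat.div k (nat_lit 73))) (Nat.add (Nat.mul (nat_lit 2) (Nat.div k (nat_lit 77))) (Nat.add (Nat.mul (nat_lit 2) (Nat.div k (nat_lit 79))) (Nat.add (Nat.mul (nat_lit 2) (Nat.div k (nat_lit 83))) (Nat.add (Nat.mul (nat_lit 2) (Nat.div k (nat_lit 85))) (Nat.add (Nat.mul (nat_lit 2) (Nat.div k (nat_lit 89))) (Nat.add (Nat.mul (nat_lit 2) (Nat.div k (nat_lit 91))) (Nat.add (Nat.mul (nat_lit 2) (Nat.div k (nat_lit 95))) (Nat.add (Nat.mul (nat_lit 2) (Nat.div k (nat_lit 97))) (Nat.add (Nat.mul (nat_lit 2) (Nat.div k (nat_lit 101))) (Nat.add (Nat.mul (nat_lit 2) (Nat.div k (nat_lit 103))) (Nat.add (Nat.mul (nat_lit 2) (Nat.div k (nat_lit 107))) (Nat.add (Nat.mul (nat_lit 2) (Nat.div k (nat_lit 109))) (Nat.add (Nat.mul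 (nat_lit 2) (Nat.div k (nat_lit 113))) (Nat.add (Nat.mul (nat_lit 2) (Nat.div k (nat_lit 115))) (Nat.add (Nat.mul (nat_lit 2) (Nat.div k (nat_lit 119))) (Nat.add (Nat.mul (nat_lit 2) (Nat.div k (nat_lit 121))) (Nat.add (Nat.mul (nat_lit 2) (Nat.div k (nat_lit 127))) (Nat.add (Nat.mul (nat_lit 2) (Nat.div k (nat_lit 131))) (Nat.add (Nat.mul (nat_lit 2) (Nat.div k (nat_lit 133))) (Nat.add (Nat.mul (nat_lit 2) (Nat.div k (nat_lit 137))) (Nat.add (Nat.mul (nat_lit 2) (Nat.div k (nat_lit 139))) (Nat.add (Nat.mul (nat_lit 2) (Nat.div k (nat_lit 143))) (Nat.add (Nat.mul (nat_lit 47) (Nat.div k (nat_lit 144))) (Nat.add (Nat.mul (nat_lit 2) (Nat.div k (nat_lit 149))) (Nat.add (Nat.mul (nat_lit 2) (Nat.div k (nat_lit 151))) (Nat.add (Nat.mul (nat_lit 2) (Nat.div k (nat_lit 157))) (Nat.add (Nat.mul (nat_lit 2) (Nat.div k (nat_lit 161))) (Nat.add (Nat.mul (nat_lit 2) (Nat.div k (nat_lit 163))) (Nat.add (Nat.mul (nat_lit 2) (Nat.div k (nat_lit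 167))) (Nat.add (Nat.mul (nat_lit 2) (Nat.div k (nat_lit 169))) (Nat.add (Nat.mul (nat_lit 2) (Nat.div k (nat_lit 173))) (Nat.add (Nat.mul (nat_lit 2) (Nat.div k (nat_lit 179))) (Nat.add (Nat.mul (nat_lit 2) (Nat.div k (nat_lit 181))) (Nat.add (Nat.mul (nat_lit 2) (Nat.div k (nat_lit 187))) (Nat.add (Nat.mul (nat_lit 2) (Nat.div k (nat_lit 191))) (Nat.add (Nat.mul (nat_lit 2) (Nat.div k (nat_lit 193))) (Nat.add (Nat.mul (nat_lit 2) (Nat.div k (nat_lit 197))) (Nat.add (Nat.mul (nat_lit 2) (Nat.div k (nat_lit 199))) (Nat.add (Nat.mul (nat_lit 2) (Nat.div k (nat_lit 209))) (Nat.add (Nat.mul (nat_lit 2) (Nat.div k (nat_lit 211))) (Nat.add (Nat.mul (nat_lit 2) (Nat.div k (nat_lit 221))) (Nat.add (Nat.mul (nat_lit 2) (Nat.div k (nat_lit 223))) (Nat.add (Nat.mul (nat_lit 2) (Nat.div k (nat_lit 227))) (Nat.add (Nat.mul (nat_lit 2) (Nat.div k (nat_lit 229))) (Nat.add (Nat.mul (nat_lit 2) (Nat.div k (nat_lit 233))) (Nat.add (Nat.mul (nat_lit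 2) (Nat.div k (nat_lit 239))) (Nat.add (Nat.mul (nat_lit 47) (Nat.div k (nat_lit 240))) (Nat.add (Nat.mul (nat_lit 2) (Nat.div k (nat_lit 241))) (Nat.add (Nat.mul (nat_lit 2) (Nat.div k (nat_lit 247))) (Nat.add (Nat.mul (nat_lit 2) (Nat.div k (nat_lit 251))) (Nat.add (Nat.mul (nat_lit 2) (Nat.div k (nat_lit 253))) (Nat.add (Nat.mul (nat_lit 2) (Nat.div k (nat_lit 257))) (Nat.add (Nat.mul (nat_lit 2) (Nat.div k (nat_lit 263))) (Nat.add (Nat.mul (nat_lit 2) (Nat.div k (nat_lit 269))) (Nat.add (Nat.mul (nat_lit 2) (Nat.div k (nat_lit 271))) (Nat.add (Nat.mul (nat_lit 2) (Nat.div k (nat_lit 277))) (Nat.add (Nat.mul (nat_lit 2) (Nat.div k (nat_lit 281))) (Nat.add (Nat.mul (nat_lit 2) (Nat.div k (nat_lit 283))) (Nat.add (Nat.mul (nat_lit 2) (Nat.div k (nat_lit 289))) (Nat.add (Nat.mul (nat_lit 2) (Nat.div k (nat_lit 293))) (Nat.add (Nat.mul (nat_lit 2) (Nat.div k (nat_lit 299))) (Nat.add (Nat.mul (nat_lit 2) (Nat.div k (nat_lit 307)))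 (Nat.add (Nat.mul (nat_lit 2) (Nat.div k (nat_lit 311))) (Nat.add (Nat.mul (nat_lit 2) (Nat.div k (nat_lit 313))) (Nat.add (Nat.mul (nat_lit 2) (Nat.div k (nat_lit 317))) (Nat.add (Nat.mul (nat_lit 2) (Nat.div k (nat_lit 323))) (Nat.add (Nat.mul (nat_lit 2) (Nat.div k (nat_lit 331))) (Nat.add (Nat.mul (nat_lit 47) (Nat.div k (nat_lit 336))) (Nat.add (Nat.mul (nat_lit 2) (Nat.div k (nat_lit 337))) (Nat.add (Nat.mul (nat_lit 2) (Nat.div k (nat_lit 347))) (Nat.add (Nat.mul (nat_lit 2) (Nat.div k (nat_lit 349))) (Nat.add (Nat.mul (nat_lit 2) (Nat.div k (nat_lit 353))) (Nat.add (Nat.mul (nat_lit 2) (Nat.div k (nat_lit 359))) ((nat_lit 0)))))))))))))))))))))))))))))))))))))))))))))))))))))))))))))))))))))))))))))))))))))))))))))))))))))))))))))))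

def fN (k : ℕ) : ℕ := Nat.add (Nat.mul (nat_lit 47) (Nat.div k (nat_lit 48))) (Nat.add (Nat.mul (nat_lit 49) (Nat.div k (nat_lit 72))) (Nat.add (Nat.mul (nat_lit 2) (Nat.div k (nat_lit 78))) (Nat.add (Nat.mul (nat_lit 2) (Nat.div k (nat_lit 84))) (Nat.add (Nat.mul (nat_lit 2) (Nat.div k (nat_lit 90))) (Nat.add (Nat.mul (nat_lit 2) (Nat.div k (nat_lit 96))) (Nat.add (Nat.mul (nat_lit 2) (Nat.div k (nat_lit 102))) (Nat.add (Nat.mul (nat_lit 2) (Nat.div k (nat_lit 108))) (Nat.add (Nat.mul (nat_lit 2) (Nat.div k (nat_lit 114))) (Nat.add (Nat.mul (nat_lit 51) (Nat.div k (nat_lit 120))) (Nat.add (Nat.mul (nat_lit 2) (Nat.div k (nat_lit 126))) (Nat.add (Nat.mul (nat_lit 2) (Nat.div k (nat_lit 130))) (Nat.add (Nat.mul (nat_lit 2) (Nat.div k (nat_lit 132))) (Nat.add (Nat.mul (nat_lit 2) (Nat.div k (nat_lit 135))) (Nat.add (Nat.mul (nat_lit 2) (Nat.div k (nat_lit 138))) (Nat.add (Nat.mul (nat_lit 2) (Nat.div k (nat_lit 140))) (Nat.add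 (Nat.mul (nat_lit 2) (Nat.div k (nat_lit 150))) (Nat.add (Nat.mul (nat_lit 2) (Nat.div k (nat_lit 160))) (Nat.add (Nat.mul (nat_lit 2) (Nat.div k (nat_lit 165))) (Nat.add (Nat.mul (nat_lit 49) (Nat.div k (nat_lit 168))) (Nat.add (Nat.mul (nat_lit 2) (Nat.div k (nat_lit 170))) (Nat.add (Nat.mul (nat_lit 2) (Nat.div k (nat_lit 175))) (Nat.add (Nat.mul (nat_lit 2) (Nat.div k (nat_lit 180))) (Nat.add (Nat.mul (nat_lit 2) (Nat.div k (nat_lit 182))) (Nat.add (Nat.mul (nat_lit 2) (Nat.div k (nat_lit 189))) (Nat.add (Nat.mul (nat_lit 2) (Nat.div k (nat_lit 190))) (Nat.add (Nat.mul (nat_lit 2) (Nat.div k (nat_lit 195))) (Nat.add (Nat.mul (nat_lit 2) (Nat.div k (nat_lit 196))) (Nat.add (Nat.mul (nat_lit 2) (Nat.div k (nat_lit 200))) (Nat.add (Nat.mul (nat_lit 4) (Nat.div k (nat_lit 210))) (Nat.add (Nat.mul (nat_lit 2) (Nat.div k (nat_lit 220))) (Nat.add (Nat.mul (nat_lit 2) (Nat.div k (nat_lit 224))) (Nat.add (Nat.mul (nat_lit 2) (Nat.div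 k (nat_lit 225))) (Nat.add (Nat.mul (nat_lit 2) (Nat.div k (nat_lit 230))) (Nat.add (Nat.mul (nat_lit 2) (Nat.div k (nat_lit 231))) (Nat.add (Nat.mul (nat_lit 2) (Nat.div k (nat_lit 238))) (Nat.add (Nat.mul (nat_lit 2) (Nat.div k (nat_lit 245))) (Nat.add (Nat.mul (nat_lit 2) (Nat.div k (nat_lit 252))) (Nat.add (Nat.mul (nat_lit 2) (Nat.div k (nat_lit 255))) (Nat.add (Nat.mul (nat_lit 49) (Nat.div k (nat_lit 264))) (Nat.add (Nat.mul (nat_lit 2) (Nat.div k (nat_lit 266))) (Nat.add (Nat.mul (nat_lit 2) (Nat.div k (nat_lit 273))) (Nat.add (Nat.mul (nat_lit 2) (Nat.div k (nat_lit 275))) (Nat.add (Nat.mul (nat_lit 2) (Nat.div k (nat_lit 280))) (Nat.add (Nat.mul (nat_lit 2) (Nat.div k (nat_lit 285))) (Nat.add (Nat.mul (nat_lit 2) (Nat.div k (nat_lit 286))) (Nat.add (Nat.mul (nat_lit 2) (Nat.div k (nat_lit 294))) (Nat.add (Nat.mul (nat_lit 2) (Nat.div k (nat_lit 297))) (Nat.add (Nat.mul (nat_lit 4) (Nat.div k (nat_lit 308))) (Nat.add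 (Nat.mul (nat_lit 49) (Nat.div k (nat_lit 312))) (Nat.add (Nat.mul (nat_lit 4) (Nat.div k (nat_lit 315))) (Nat.add (Nat.mul (nat_lit 2) (Nat.div k (nat_lit 322))) (Nat.add (Nat.mul (nat_lit 2) (Nat.div k (nat_lit 325))) (Nat.add (Nat.mul (nat_lit 2) (Nat.div k (nat_lit 330))) (Nat.add (Nat.mul (nat_lit 2) (Nat.div k (nat_lit 338))) (Nat.add (Nat.mul (nat_lit 2) (Nat.div k (nat_lit 345))) (Nat.add (Nat.mul (nat_lit 2) (Nat.div k (nat_lit 351))) (Nat.add (Nat.mul (nat_lit 2) (Nat.div k (nat_lit 352))) (Nat.add (Nat.mul (nat_lit 2) (Nat.div k (nat_lit 357))) ((nat_lit 0))))))))))))))))))))))))))))))))))))))))))))))))))))))))))))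

def fSU (k : ℕ) : ℕ := Nat.add (cond (Nat.ble (nat_lit 24) k) (nat_lit 100000) (nat_lit 0)) (Nat.add (cond (Nat.ble (nat_lit 360) k) (nat_lit 4103761) (nat_lit 0)) (Nat.add (cond (Nat.ble (nat_lit 361) k) (nat_lit 200000) (nat_lit 0)) (Nat.add (cond (Nat.ble (nat_lit 383) k) (nat_lit 200000) (nat_lit 0)) (Nat.add (cond (Nat.ble (nat_lit 643) k) (nat_lit 200000) (nat_lit 0)) (Nat.add (cond (Nat.ble (nat_lit 660) k) (nat_lit 200000) (nat_lit 0)) (Nat.add (cond (Nat.ble (nat_lit 661) k) (nat_lit 200000) (nat_lit 0)) (Nat.add (cond (Nat.ble (nat_lit 1584) k) (nat_lit 3111283) (nat_lit 0)) (Nat.add (cond (Nat.ble (nat_lit 22464) k) (nat_lit 318138) (nat_lit 0)) (Nat.add (cond (Nat.ble (nat_lit 22465) k) (nat_lit 200000) (nat_lit 0)) (Nat.add (cond (Nat.ble (nat_lit 24000) k) (nat_lit 32163058) (nat_lit 0)) ((nat_lit 0))))))))))))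

def fSL (k : ℕ) : ℕ := Nat.add (cond (Nat.ble (nat_lit 24) k) (nat_lit 100000) (nat_lit 0)) (Nat.add (cond (Nat.ble (nat_lit 408) k) (nat_lit 396240) (nat_lit 0)) (Nat.add (cond (Nat.ble (nat_lit 418) k) (nat_lit 200000) (nat_lit 0)) (Nat.add (cond (Nat.ble (nat_lit 456) k) (nat_lit 4700000) (nat_lit 0)) (Nat.add (cond (Nat.ble (nat_lit 476) k) (nat_lit 200000) (nat_lit 0)) (Nat.add (cond (Nat.ble (nat_lit 495) k) (nat_lit 200000) (nat_lit 0)) (Nat.add (cond (Nat.ble (nat_lit 748) k) (nat_lit 196240) (nat_lit 0)) (Nat.add (cond (Nat.ble (nat_lit 783) k) (nat_lit 200000) (nat_lit 0)) (Nat.add (cond (Nat.ble (nat_lit 1464) k) (nat_lit 992480) (nat_lit 0)) (Nat.add (cond (Nat.ble (nat_lit 2491) k) (nat_lit 192480) (nat_lit 0)) (Nat.add (cond (Nat.ble (nat_lit 2492) k) (nat_lit 200000) (nat_lit 0)) (Nat.add (cond (Nat.ble (nat_lit 2494) k) (nat_lit 200000) (nat_lit 0)) (Nat.add (cond (Nat.ble (nat_lit 5785) k) (nat_lit 62400) (nat_lit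 0)) (Nat.add (cond (Nat.ble (nat_lit 6528) k) (nat_lit 192480) (nat_lit 0)) (Nat.add (cond (Nat.ble (nat_lit 6534) k) (nat_lit 200000) (nat_lit 0)) (Nat.add (cond (Nat.ble (nat_lit 6545) k) (nat_lit 200000) (nat_lit 0)) (Nat.add (cond (Nat.ble (nat_lit 6792) k) (nat_lit 400000) (nat_lit 0)) (Nat.add (cond (Nat.ble (nat_lit 6795) k) (nat_lit 200000) (nat_lit 0)) (Nat.add (cond (Nat.ble (nat_lit 10557) k) (nat_lit 58640) (nat_lit 0)) (Nat.add (cond (Nat.ble (nat_lit 11835) k) (nat_lit 188720) (nat_lit 0)) (Nat.add (cond (Nat.ble (nat_lit 11836) k) (nat_lit 200000) (nat_lit 0)) (Nat.add (cond (Nat.ble (nat_lit 11837) k) (nat_lit 200000) (nat_lit 0)) (Nat.add (cond (Nat.ble (nat_lit 11850) k) (nat_lit 200000) (nat_lit 0)) (Nat.add (cond (Nat.ble (nat_lit 24000) k) (nat_lit 30720320) (nat_lit 0)) ((nat_lit 0)))))))))))))))))))))))))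

theorem fP_eq (k : ℕ) : evl cA.P k = fP k := rfl

theorem fN_eq (k : ℕ) : evl cA.N k = fN k := rfl

theorem fSU_eq (k : ℕ) : stp cA.SU k = fSU k := by rw [stp_eq]; rfl

theorem fSL_eq (k : ℕ) : stp cA.SL k = fSL k := by rw [stp_eq]; rfl

def fchk (k : ℕ) : Bool :=
  and (Nat.ble (Nat.mul (Nat.add (Nat.add (Nat.add k k) (nat_lit 2)) (fN k)) (nat_lit 100000))
      (Nat.add (Nat.add (Nat.mul (fP k) (nat_lit 100000)) (Nat.mul (nat_lit 796239) (Nat.div k (nat_lit 360)))) (fSU k)))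
    (Nat.ble (Nat.add (Nat.mul (fP k) (nat_lit 100000)) (Nat.mul (nat_lit 796240) (Nat.div k (nat_lit 360))))
      (Nat.add (Nat.mul (Nat.add (Nat.add k k) (fN k)) (nat_lit 100000)) (fSL k)))

theorem fchk_spec {k : ℕ} (h : fchk k = true) : cA.chkU k = true ∧ cA.chkL k = true := by
  unfold fchk at h
  rw [Bool.and_eq_true, Nat.ble_eq, Nat.ble_eq] at h
  unfold Cmb.chkU Cmb.chkL
  rw [Nat.ble_eq, Nat.ble_eq, fP_eq, fN_eq, fSU_eq, fSL_eq]
  obtain ⟨h1, h2⟩ := h
  constructor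
  · have e : 2 * (k + 1) = k + k + 2 := by ring
    rw [e]; exact h1
  · have e : 2 * k = k + k := by ring
    rw [e]; exact h2

theorem cA_0 : allD fchk 24 1523 = true := by decide +kernel
theorem cA_1 : allD fchk 1523 3022 = true := by decide +kernel
theorem cA_2 : allD fchk 3022 4521 = true := by decide +kernel
theorem cA_3 : allD fchk 4521 6020 = true := by decide +kernel
theorem cA_4 : allD fchk 6020 7519 = true := by decide +kernel
theorem cA_5 : allD fchk 7519 9018 = true := by decide +kernel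
theorem cA_6 : allD fchk 9018 10517 = true := by decide +kernel
theorem cA_7 : allD fchk 10517 12016 = true := by decide +kernel
theorem cA_8 : allD fchk 12016 13515 = true := by decide +kernel
theorem cA_9 : allD fchk 13515 15014 = true := by decide +kernel
theorem cA_10 : allD fchk 15014 16513 = true := by decide +kernel
theorem cA_11 : allD fchk 16513 18012 = true := by decide +kernel
theorem cA_12 : allD fchk 18012 19511 = true := by decide +kernel
theorem cA_13 : allD fchk 19511 21010 = true := by decide +kernel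
theorem cA_14 : allD fchk 21010 22509 = true := by decide +kernel
theorem cA_15 : allD fchk 22509 24000 = true := by decide +kernel

theorem cA_all : ∀ k, 24 ≤ k → k < 24000 → fchk k = true := by
  intro k h1 h2
  rcases Nat.lt_or_ge k 1523 with h | h1
  · exact allD_spec cA_0 k h1 h
  rcases Nat.lt_or_ge k 3022 with h | h1
  · exact allD_spec cA_1 k h1 h
  rcases Nat.lt_or_ge k 4521 with h | h1
  · exact allD_spec cA_2 k h1 h
  rcases Nat.lt_or_ge k 6020 with h | h1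
  · exact allD_spec cA_3 k h1 h
  rcases Nat.lt_or_ge k 7519 with h | h1
  · exact allD_spec cA_4 k h1 h
  rcases Nat.lt_or_ge k 9018 with h | h1
  · exact allD_spec cA_5 k h1 h
  rcases Nat.lt_or_ge k 10517 with h | h1
  · exact allD_spec cA_6 k h1 h
  rcases Nat.lt_or_ge k 12016 with h | h1
  · exact allD_spec cA_7 k h1 h
  rcases Nat.lt_or_ge k 13515 with h | h1
  · exact allD_spec cA_8 k h1 h
  rcases Nat.lt_or_ge k 15014 with h | h1
  · exact allD_spec cA_9 k h1 h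
  rcases Nat.lt_or_ge k 16513 with h | h1
  · exact allD_spec cA_10 k h1 h
  rcases Nat.lt_or_ge k 18012 with h | h1
  · exact allD_spec cA_11 k h1 h
  rcases Nat.lt_or_ge k 19511 with h | h1
  · exact allD_spec cA_12 k h1 h
  rcases Nat.lt_or_ge k 21010 with h | h1
  · exact allD_spec cA_13 k h1 h
  rcases Nat.lt_or_ge k 22509 with h | h1
  · exact allD_spec cA_14 k h1 h
  exact allD_spec cA_15 k h1 h2

theorem cA_valid : cA.Valid where
  hq := by decide
  hM := by decide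
  hL := by decide
  hP := by decide +kernel
  hN := by decide +kernel
  hSU := by decide +kernel
  hSL := by decide +kernel
  w1 := by decide +kernel
  w2 := by decide +kernel
  tU := by decide +kernel
  tL := by decide +kernel
  U := fun k h1 h2 => (fchk_spec (cA_all k h1 h2)).1
  D := fun k h1 h2 => (fchk_spec (cA_all k h1 h2)).2

theorem cA_rsq : (rsq cA.SU + rsq cA.SL) ≤ 0.203046 * 200000 := by decide +kernel

theorem cA_sml : sml cA.P + sml cA.N = 808 := by decide +kernel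

theorem log_div_bound {n : ℕ} (hn : 65536 ≤ n) : (Real.log n + 1) / n ≤ 0.000184485 := by
  have hn0 : (65536 : ℝ) ≤ n := by exact_mod_cast hn
  have hnp : (0 : ℝ) < n := by linarith
  have l2 := Real.log_two_lt_d9
  have h := Real.log_le_sub_one_of_pos (x := (n : ℝ) / 65536) (by positivity)
  rw [Real.log_div hnp.ne' (by norm_num)] at h
  have e : Real.log (65536 : ℝ) = 16 * Real.log 2 := by
    rw [show (65536 : ℝ) = 2 ^ 16 by norm_num, Real.log_pow]; norm_num
  rw [e] at h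
  rw [div_le_iff₀ hnp]
  nlinarith

/-- Explicit theorem of Mertens for `∑ Λ(d)/d`. -/
theorem Mt_osc {n m : ℕ} (hn : 65536 ≤ n) (hm : 65536 ≤ m) :
    Mt m - Mt n ≤ Real.log m - Real.log n + 0.2295 := by
  have h := Cmb.osc cA_valid (n := n) (m := m) (by show 360 ≤ n; omega) (by show 360 ≤ m; omega)
  have h1 := log_div_bound hn
  have h2 := log_div_bound hm
  have e1 : ((cA.M : ℕ) : ℝ) = 100000 := by unfold cA; norm_num
  have e2 : ((cA.q : ℕ) : ℝ) = 24 := by unfold cA; norm_num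
  have h3 : ((rsq cA.SU : ℝ) + (rsq cA.SL : ℝ)) ≤ 0.203046 * 200000 := by
    have := cA_rsq
    have h4 : ((rsq cA.SU + rsq cA.SL : ℚ) : ℝ) ≤ ((0.203046 * 200000 : ℚ) : ℝ) := by exact_mod_cast this
    push_cast at h4
    exact h4
  have h5 : ((sml cA.P : ℝ) + (sml cA.N : ℝ)) = 808 := by
    have := cA_sml
    exact_mod_cast this
  have hw := cA.wr_bounds cA_valid
  have hw0 := cA.wr_nonneg cA_valid
  have h6 : cA.wr ≤ 20 := by
    have h7 := hw.2
    rw [e1] at h7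
    have h8 : ((cA.w : ℕ) : ℝ) ≤ 1900000 := by
      have : cA.w ≤ 1900000 := by decide
      exact_mod_cast this
    linarith
  have hW : cA.W ≤ 828 := by unfold Cmb.W; linarith
  have hW0 : 0 ≤ cA.W := by unfold Cmb.W; linarith
  rw [e1, e2] at h
  have l3 := log_three_bounds
  have l2 := Real.log_two_lt_d9
  have l2' := Real.log_two_gt_d9
  have l3' : Real.log 3 ≤ 1.098617 := by linarith [l3.2]
  have l30 : 0 ≤ Real.log 3 := by linarith [l3.1]
  have a1 : Real.log 3 / (2 * 100000) * ((rsq cA.SU : ℝ) + (rsq cA.SL : ℝ)) ≤ 0.22307 := by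
    calc Real.log 3 / (2 * 100000) * ((rsq cA.SU : ℝ) + (rsq cA.SL : ℝ))
        ≤ Real.log 3 / (2 * 100000) * (0.203046 * 200000) :=
          mul_le_mul_of_nonneg_left h3 (by positivity)
      _ = Real.log 3 * 0.203046 := by ring
      _ ≤ 0.22307 := by linarith
  have a2 : cA.W / (2 * 24) * ((Real.log m + 1) / m + (Real.log n + 1) / n)
      ≤ 0.00642 := by
    calc cA.W / (2 * 24) * ((Real.log m + 1) / m + (Real.log n + 1) / n)
        ≤ cA.W / (2 * 24) * (0.00036897) := mul_le_mul_of_nonneg_left (by linarith) (by positivity)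
      _ ≤ 0.00642 := by linarith
  linarith

end Pool.Agent.H91.Gold

end
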