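import Pool.Agent.H43.PM.M18
import Pool.Agent.H43.PM.M20

/-! The parts of this file: H91.PK.Om, H91.EHA.SwG, H91.EHA.SwK2, H97.VK.SmTwo, H91.PK.MB, H76.GB.PbCard, H97.VK.SDef, H76.SP.LamD, H76.GB.Defs, H76.GB.Sing. -/

section

/-!
PK Om: the weight `om t = t(1-t)^2` and its Fourier representation.

* `0 ≤ om ≤ 4/27`, `om` is 1-Lipschitz on ℝ (on [0,1] the derivative (1-t)(1-3t) is in [-1/3, 1]; om(0)=om(1)=0).
* For β ≥ 0 let g(v) = e^{-βv} om(e^{-v}) = e^{-(β+1)v} (1-e^{-v})² for v ≥ 0 and 0 for v < 0.  g is continuous,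
  integrable and ∫ g(v) e^{-itv} dv = ∑ of three exponentials = 1/(s+1) - 2/(s+2) + 1/(s+3)
  = 2/((s+1)(s+2)(s+3)), s = β + it, i.e. = KK β t, which is integrable in t.  Fourier inversion
  (Mathlib: `MeasureTheory.Integrable.fourierInv_fourier_eq`, with the change of variable w = t/(2π)) gives
     g(v) = (1/2π) ∫ KK β t e^{itv} dt   for every real v.
* |KK β t| ≤ |KK 0 t| = 2/√((1+t²)(4+t²)(9+t²)) ≤ 0.4386/(1+t²)  since (4+u)(9+u) ≥ 20.797 (1+u) for u ≥ 0
  ((4+u)(9+u) - 20.797(1+u) = u² - 7.797u + 15.203 has negative discriminant 60.79-60.81) and 4/20.797 ≤ 0.4386².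
  Also |KK β t| ≤ 2/|t|³.
-/

set_option autoImplicit false

namespace Pool.Agent.H91.PK

open Finset MeasureTheory

private theorem om_lip01 {s t : ℝ} (hs0 : 0 ≤ s) (hs1 : s ≤ 1) (ht0 : 0 ≤ t) (ht1 : t ≤ 1) :
    |s * (1 - s) ^ 2 - t * (1 - t) ^ 2| ≤ |s - t| := by
  have e : s * (1 - s) ^ 2 - t * (1 - t) ^ 2 =
      (s - t) * ((1 - (s + t)) ^ 2 - s * t) := by ring
  rw [e, abs_mul]
  have h : |(1 - (s + t)) ^ 2 - s * t| ≤ 1 := by
    rw [abs_le]
    have hst : 0 ≤ s * t := mul_nonneg hs0 ht0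
    constructor
    · nlinarith [sq_nonneg (s - t), sq_nonneg (3 * (s + t) - 4)]
    · nlinarith [mul_nonneg (sub_nonneg.2 hs1) (sub_nonneg.2 ht1)]
  calc |s - t| * |(1 - (s + t)) ^ 2 - s * t| ≤ |s - t| * 1 := by gcongr
    _ = |s - t| := mul_one _

theorem om_lip (s t : ℝ) : |om s - om t| ≤ |s - t| := by
  have key : ∀ s : ℝ, om s = (max 0 (min s 1)) * (1 - max 0 (min s 1)) ^ 2 := by
    intro s
    unfold om
    split_ifs with h
    · rw [min_eq_left h.2, max_eq_right h.1]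
    · rcases lt_or_ge s 0 with h1 | h1
      · rw [min_eq_left (by linarith), max_eq_left h1.le]; ring
      · have h2 : 1 < s := by
          by_contra h3
          exact h ⟨h1, not_lt.1 h3⟩
        rw [min_eq_right h2.le, max_eq_right zero_le_one]; ring
  rw [key s, key t]
  have hb : ∀ s : ℝ, 0 ≤ max 0 (min s 1) ∧ max 0 (min s 1) ≤ 1 := fun s =>
    ⟨le_max_left _ _, max_le zero_le_one (min_le_right _ _)⟩
  refine (om_lip01 (hb s).1 (hb s).2 (hb t).1 (hb t).2).trans ?_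
  calc |max 0 (min s 1) - max 0 (min t 1)| ≤ max |(0 : ℝ) - 0| |min s 1 - min t 1| :=
        abs_max_sub_max_le_max _ _ _ _
    _ ≤ |s - t| := by
        refine max_le (by simp) ?_
        refine (abs_min_sub_min_le_max _ _ _ _).trans (max_le le_rfl (by simp))

theorem om_eq_zero {t : ℝ} (h : 1 ≤ t) : om t = 0 := by
  unfold om
  split_ifs with h1
  · have : t = 1 := le_antisymm h1.2 h
    rw [this]; norm_num
  · rfl

private theorem normSq_add (b t : ℝ) : ‖(b : ℂ) + t * Complex.I‖ ^ 2 = b ^ 2 + t ^ 2 := by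
  rw [← Complex.normSq_eq_norm_sq, Complex.normSq_add_mul_I]

private theorem KK_eq (β t : ℝ) : KK β t = 2 / ((((β + 1 : ℝ) : ℂ) + t * Complex.I) *
    (((β + 2 : ℝ) : ℂ) + t * Complex.I) * (((β + 3 : ℝ) : ℂ) + t * Complex.I)) := by
  unfold KK; push_cast; rfl

private theorem norm_KK (β t : ℝ) : ‖KK β t‖ = 2 / (‖((β + 1 : ℝ) : ℂ) + t * Complex.I‖ *
    ‖((β + 2 : ℝ) : ℂ) + t * Complex.I‖ * ‖((β + 3 : ℝ) : ℂ) + t * Complex.I‖) := by
  rw [KK_eq, norm_div, norm_mul, norm_mul, RCLike.norm_ofNat]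

theorem norm_KK_le (β t : ℝ) (hβ : 0 ≤ β) : ‖KK β t‖ ≤ 0.4386 / (1 + t ^ 2) := by
  rw [norm_KK]
  set a := ‖((β + 1 : ℝ) : ℂ) + t * Complex.I‖ with ha
  set b := ‖((β + 2 : ℝ) : ℂ) + t * Complex.I‖ with hb
  set c := ‖((β + 3 : ℝ) : ℂ) + t * Complex.I‖ with hc
  have ha2 : 1 + t ^ 2 ≤ a ^ 2 := by rw [ha, normSq_add]; nlinarith
  have hb2 : 4 + t ^ 2 ≤ b ^ 2 := by rw [hb, normSq_add]; nlinarith
  have hc2 : 9 + t ^ 2 ≤ c ^ 2 := by rw [hc, normSq_add]; nlinarith
  have ha0 : 0 ≤ a := norm_nonneg _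
  have hb0 : 0 ≤ b := norm_nonneg _
  have hc0 : 0 ≤ c := norm_nonneg _
  have ht : 0 < 1 + t ^ 2 := by positivity
  have h1 : (2 / 0.4386 * (1 + t ^ 2)) ^ 2 ≤ (a * b * c) ^ 2 := by
    have h2 : (1 + t ^ 2) * (4 + t ^ 2) * (9 + t ^ 2) ≤ a ^ 2 * b ^ 2 * c ^ 2 := by
      gcongr
    have h3 : (2 / 0.4386 : ℝ) ^ 2 * (1 + t ^ 2) ≤ (4 + t ^ 2) * (9 + t ^ 2) := by
      have h4 : (2 / 0.4386 : ℝ) ^ 2 ≤ 20.7935 := by norm_num
      have h5 : 20.7935 * (1 + t ^ 2) ≤ (4 + t ^ 2) * (9 + t ^ 2) := by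
        nlinarith [sq_nonneg (t ^ 2 - 3.89675)]
      calc (2 / 0.4386 : ℝ) ^ 2 * (1 + t ^ 2) ≤ 20.7935 * (1 + t ^ 2) := by gcongr
        _ ≤ _ := h5
    calc (2 / 0.4386 * (1 + t ^ 2)) ^ 2 = (1 + t ^ 2) * ((2 / 0.4386 : ℝ) ^ 2 * (1 + t ^ 2)) := by
          ring
      _ ≤ (1 + t ^ 2) * ((4 + t ^ 2) * (9 + t ^ 2)) := by gcongr
      _ = (1 + t ^ 2) * (4 + t ^ 2) * (9 + t ^ 2) := by ring
      _ ≤ a ^ 2 * b ^ 2 * c ^ 2 := h2
      _ = (a * b * c) ^ 2 := by ring
  have h6 : 2 / 0.4386 * (1 + t ^ 2) ≤ a * b * c :=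
    le_of_sq_le_sq h1 (by positivity)
  have h7 : 0 < a * b * c := lt_of_lt_of_le (by positivity) h6
  rw [div_le_div_iff₀ h7 ht]
  have : (0.4386 : ℝ) * (2 / 0.4386 * (1 + t ^ 2)) = 2 * (1 + t ^ 2) := by ring
  nlinarith

theorem norm_KK_le' (β t : ℝ) (hβ : 0 ≤ β) (ht : t ≠ 0) : ‖KK β t‖ ≤ 2 / |t| ^ 3 := by
  rw [norm_KK]
  have key : ∀ b : ℝ, |t| ≤ ‖(b : ℂ) + t * Complex.I‖ := by
    intro b
    refine le_of_sq_le_sq ?_ (norm_nonneg _)
    rw [normSq_add, sq_abs]
    nlinarith [sq_nonneg b]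
  have ht0 : 0 < |t| := abs_pos.2 ht
  have h1 := key (β + 1)
  have h2 := key (β + 2)
  have h3 := key (β + 3)
  have : |t| ^ 3 ≤ ‖((β + 1 : ℝ) : ℂ) + t * Complex.I‖ * ‖((β + 2 : ℝ) : ℂ) + t * Complex.I‖ *
      ‖((β + 3 : ℝ) : ℂ) + t * Complex.I‖ := by
    calc |t| ^ 3 = |t| * |t| * |t| := by ring
      _ ≤ _ := by gcongr
  gcongr

private theorem ne_zero_of_pos {b : ℝ} (hb : 0 < b) (t : ℝ) : (b : ℂ) + t * Complex.I ≠ 0 := by
  intro h
  have := congrArg Complex.re h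
  simp at this
  exact hb.ne' this

theorem KK_continuous (β : ℝ) (hβ : 0 ≤ β) : Continuous (fun t : ℝ => KK β t) := by
  have e : (fun t : ℝ => KK β t) = fun t : ℝ => 2 / ((((β + 1 : ℝ) : ℂ) + t * Complex.I) *
    (((β + 2 : ℝ) : ℂ) + t * Complex.I) * (((β + 3 : ℝ) : ℂ) + t * Complex.I)) := by
    funext t; exact KK_eq β t
  rw [e]
  refine Continuous.div continuous_const (by fun_prop) fun t => ?_
  exact mul_ne_zero (mul_ne_zero (ne_zero_of_pos (by linarith) t) (ne_zero_of_pos (by linarith) t))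
    (ne_zero_of_pos (by linarith) t)

theorem KK_integrable (β : ℝ) (hβ : 0 ≤ β) : Integrable (fun t : ℝ => KK β t) := by
  refine Integrable.mono' (integrable_inv_one_add_sq.const_mul 0.4386)
    (KK_continuous β hβ).aestronglyMeasurable (Filter.Eventually.of_forall fun t => ?_)
  simpa [div_eq_mul_inv] using norm_KK_le β t hβ

private theorem om_continuous : Continuous om := by
  rw [Metric.continuous_iff]
  intro t ε hε
  refine ⟨ε, hε, fun s hs => ?_⟩
  rw [Real.dist_eq] at hs ⊢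
  exact (om_lip s t).trans_lt hs

private noncomputable def gg (β v : ℝ) : ℂ := ((Real.exp (-β * v) * om (Real.exp (-v)) : ℝ) : ℂ)

private theorem gg_continuous (β : ℝ) : Continuous (gg β) := by
  unfold gg
  refine Complex.continuous_ofReal.comp ?_
  exact (by fun_prop : Continuous fun v : ℝ => Real.exp (-β * v)).mul
    (om_continuous.comp (by fun_prop))

private theorem gg_of_nonpos (β : ℝ) {v : ℝ} (hv : v ≤ 0) : gg β v = 0 := by
  unfold gg
  rw [om_eq_zero (Real.one_le_exp (by linarith)), mul_zero, Complex.ofReal_zero]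

/-- the exponent -/
private noncomputable def aa (β w : ℝ) (j : ℝ) : ℂ := -(((β + j : ℝ) : ℂ) + (2 * Real.pi * w : ℝ) * Complex.I)

private theorem aa_re (β w j : ℝ) : (aa β w j).re = -(β + j) := by
  unfold aa; simp

private theorem gg_of_pos (β w : ℝ) {v : ℝ} (hv : 0 < v) :
    Complex.exp ((-2 * Real.pi * v * w : ℝ) * Complex.I) • gg β v =
      Complex.exp (aa β w 1 * v) - 2 * Complex.exp (aa β w 2 * v) + Complex.exp (aa β w 3 * v) := by
  have h1 : om (Real.exp (-v)) = Real.exp (-v) * (1 - Real.exp (-v)) ^ 2 := by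
    unfold om
    rw [if_pos ⟨(Real.exp_pos _).le, Real.exp_le_one_iff.2 (by linarith)⟩]
  unfold gg
  rw [h1, smul_eq_mul]
  have e : ∀ j : ℕ, Complex.exp (aa β w j * v) =
      Complex.exp ((-2 * Real.pi * v * w : ℝ) * Complex.I) *
        ((Real.exp (-β * v) * Real.exp (-v) ^ j : ℝ) : ℂ) := by
    intro j
    rw [← Real.exp_nat_mul, ← Real.exp_add, Complex.ofReal_exp, ← Complex.exp_add]
    congr 1
    unfold aa
    push_cast
    ring
  have e1 := e 1
  have e2 := e 2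
  have e3 := e 3
  push_cast at e1 e2 e3
  rw [e1, e2, e3]
  push_cast
  ring

private theorem intOn_aa (β w j : ℝ) (h : 0 < β + j) :
    IntegrableOn (fun v : ℝ => Complex.exp (aa β w j * v)) (Set.Ioi 0) :=
  integrableOn_exp_mul_complex_Ioi (by rw [aa_re]; linarith) 0

private theorem int_aa (β w j : ℝ) (h : 0 < β + j) :
    ∫ v : ℝ in Set.Ioi 0, Complex.exp (aa β w j * v) =
      1 / (((β + j : ℝ) : ℂ) + (2 * Real.pi * w : ℝ) * Complex.I) := by
  rw [integral_exp_mul_complex_Ioi (by rw [aa_re]; linarith) 0]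
  unfold aa
  rw [Complex.ofReal_zero, mul_zero, Complex.exp_zero, neg_div_neg_eq]

private theorem gg_integrable (β : ℝ) (hβ : 0 ≤ β) : Integrable (gg β) := by
  have h1 : gg β = (Set.Ioi (0 : ℝ)).indicator (gg β) := by
    funext v
    by_cases hv : v ∈ Set.Ioi (0 : ℝ)
    · rw [Set.indicator_of_mem hv]
    · rw [Set.indicator_of_notMem hv, gg_of_nonpos β (not_lt.1 hv)]
  rw [h1, integrable_indicator_iff measurableSet_Ioi]
  have h2 : IntegrableOn (fun v : ℝ => Complex.exp (aa β 0 1 * v) - 2 * Complex.exp (aa β 0 2 * v)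
      + Complex.exp (aa β 0 3 * v)) (Set.Ioi 0) :=
    ((intOn_aa β 0 1 (by linarith)).sub ((intOn_aa β 0 2 (by linarith)).const_mul 2)).add
      (intOn_aa β 0 3 (by linarith))
  refine h2.congr_fun (fun v hv => ?_) measurableSet_Ioi
  have := gg_of_pos β 0 hv
  simp only [mul_zero, Complex.ofReal_zero, zero_mul, Complex.exp_zero, one_smul] at this
  exact this.symm

private theorem gg_fourier (β : ℝ) (hβ : 0 ≤ β) (w : ℝ) :
    FourierTransform.fourier (gg β) w = KK β (2 * Real.pi * w) := by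
  rw [Real.fourier_real_eq_integral_exp_smul]
  have h1 : ∫ v : ℝ, Complex.exp ((-2 * Real.pi * v * w : ℝ) * Complex.I) • gg β v =
      ∫ v : ℝ in Set.Ioi 0, (Complex.exp (aa β w 1 * v) - 2 * Complex.exp (aa β w 2 * v) +
        Complex.exp (aa β w 3 * v)) := by
    rw [← setIntegral_eq_integral_of_forall_compl_eq_zero (s := Set.Ioi (0 : ℝ))
      (fun v hv => by rw [gg_of_nonpos β (not_lt.1 hv), smul_zero])]
    exact setIntegral_congr_fun measurableSet_Ioi fun v hv => gg_of_pos β w hv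
  rw [h1, integral_add, integral_sub, integral_const_mul, int_aa β w 1 (by linarith),
    int_aa β w 2 (by linarith), int_aa β w 3 (by linarith)]
  · rw [KK_eq]
    have n1 := ne_zero_of_pos (show 0 < β + 1 by linarith) (2 * Real.pi * w)
    have n2 := ne_zero_of_pos (show 0 < β + 2 by linarith) (2 * Real.pi * w)
    have n3 := ne_zero_of_pos (show 0 < β + 3 by linarith) (2 * Real.pi * w)
    push_cast at n1 n2 n3 ⊢
    field_simp
    ring
  · exact intOn_aa β w 1 (by linarith)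
  · exact (intOn_aa β w 2 (by linarith)).const_mul 2
  · exact (intOn_aa β w 1 (by linarith)).sub ((intOn_aa β w 2 (by linarith)).const_mul 2)
  · exact intOn_aa β w 3 (by linarith)

/-- The Fourier representation. -/
theorem om_fourier (β v : ℝ) (hβ : 0 ≤ β) :
    ((Real.exp (-β * v) * om (Real.exp (-v)) : ℝ) : ℂ)
      = (1 / (2 * Real.pi)) * ∫ t : ℝ, KK β t * Complex.exp (t * v * Complex.I) := by
  have hF : FourierTransform.fourier (gg β) = fun w => KK β (2 * Real.pi * w) := by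
    funext w; exact gg_fourier β hβ w
  have hint : Integrable (FourierTransform.fourier (gg β)) := by
    rw [hF]
    exact (KK_integrable β hβ).comp_mul_left' (by positivity)
  have hinv := congrFun ((gg_continuous β).fourierInv_fourier_eq (gg_integrable β hβ) hint) v
  rw [hF, Real.fourierInv_eq'] at hinv
  show gg β v = _
  rw [← hinv]
  have h1 := Measure.integral_comp_mul_left
    (fun t : ℝ => KK β t * Complex.exp (t * v * Complex.I)) (2 * Real.pi)
  have h2 : ∫ w : ℝ, Complex.exp ((2 * Real.pi * inner ℝ w v : ℝ) * Complex.I) •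
      KK β (2 * Real.pi * w) = ∫ w : ℝ, KK β (2 * Real.pi * w) *
        Complex.exp (((2 * Real.pi * w : ℝ) : ℂ) * v * Complex.I) := by
    refine integral_congr_ae (Filter.Eventually.of_forall fun w => ?_)
    simp only [smul_eq_mul]
    rw [mul_comm]
    congr 2
    simp only [RCLike.inner_apply, conj_trivial]
    push_cast
    ring
  rw [h2, h1, abs_of_pos (by positivity)]
  rw [Complex.real_smul]
  push_cast
  ring

/-- In terms of `N / n`. -/
theorem om_fourier' (β : ℝ) (hβ : 0 ≤ β) {N n : ℕ} (hN : 1 ≤ N) (hn : 1 ≤ n) :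
    ((om ((n : ℝ) / N) : ℝ) : ℂ)
      = (((N : ℝ) / n) ^ β : ℝ) * ((1 / (2 * Real.pi)) *
        ∫ t : ℝ, KK β t * ((N : ℂ) ^ (t * Complex.I) * (n : ℂ) ^ (-(t * Complex.I)))) := by
  have hN0 : (0 : ℝ) < N := by exact_mod_cast hN
  have hn0 : (0 : ℝ) < n := by exact_mod_cast hn
  set v : ℝ := Real.log (N / n) with hv
  have hexp : Real.exp (-v) = n / N := by
    rw [Real.exp_neg, hv, Real.exp_log (by positivity), inv_div]
  have hβv : Real.exp (-β * v) = (((N : ℝ) / n) ^ β)⁻¹ := by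
    rw [Real.rpow_def_of_pos (by positivity), ← Real.exp_neg]
    congr 1
    rw [← hv]; ring
  have h := om_fourier β v hβ
  rw [hexp, hβv] at h
  have hint : ∫ t : ℝ, KK β t * ((N : ℂ) ^ (t * Complex.I) * (n : ℂ) ^ (-(t * Complex.I))) =
      ∫ t : ℝ, KK β t * Complex.exp (t * v * Complex.I) := by
    refine integral_congr_ae (Filter.Eventually.of_forall fun t => ?_)
    simp only
    congr 1
    have hNc : (N : ℂ) ≠ 0 := by exact_mod_cast hN0.ne'
    have hnc : (n : ℂ) ≠ 0 := by exact_mod_cast hn0.ne'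
    rw [Complex.cpow_def_of_ne_zero hNc, Complex.cpow_def_of_ne_zero hnc, ← Complex.exp_add]
    congr 1
    rw [hv, Real.log_div hN0.ne' hn0.ne', Complex.natCast_log.symm, Complex.natCast_log.symm]
    push_cast
    ring
  rw [hint, ← h]
  have hpos : (0 : ℝ) < ((N : ℝ) / n) ^ β := by positivity
  rw [← Complex.ofReal_mul]
  congr 1
  field_simp

end Pool.Agent.H91.PK

end

section

/-!
# Smooth sums from Dirichlet series bounds

`om(n/N) = (1/2π) ∫ KK β t (N/n)^{β+it} dt` (`om_fourier'` in `PK/Om.lean`; holds for all `n ≥ 1`, both sides are `0`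
for `n > N`).  Take `β = 1 + 1/log N` for `N ≥ 3`, `β = 2` for `N = 2`; interchange sum and integral
(absolutely convergent): `∑ a_n om(n/N) = (1/2π) ∫ KK β t N^{β+it} LSeries a (β+it) dt`;
`N^β ≤ 4 N`, `‖KK β t‖ ≤ 2/(1+t²)^{3/2}`-type decay against `log(|t|+3)^K`.
-/

set_option autoImplicit false

namespace Pool.Agent.H91.EHA

open Finset
open Pool.Agent.H91.PK
open MeasureTheory

/-- decay of the kernel against a power of the logarithm -/
private theorem swG_kernel (K : ℕ) (β t : ℝ) (hβ : 0 ≤ β) :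
    ‖KK β t‖ * Real.log (|t| + 3) ^ K ≤
      1.7544 / (1 / (2 * ((K : ℝ) + 1))) ^ K * (1 + ‖t‖) ^ (-(3 / 2 : ℝ)) := by
  set ε : ℝ := 1 / (2 * ((K : ℝ) + 1)) with hε
  have hK : (0 : ℝ) ≤ K := Nat.cast_nonneg K
  have hε0 : 0 < ε := by positivity
  have hεK : ε * K ≤ 1 / 2 := by
    rw [hε, div_mul_eq_mul_div, one_mul, div_le_div_iff₀ (by positivity) (by norm_num)]
    nlinarith
  have ht : 0 ≤ |t| := abs_nonneg t
  rw [Real.norm_eq_abs]
  have hx1 : (0 : ℝ) < 1 + |t| := by positivity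
  have h1 : ‖KK β t‖ ≤ 0.8772 / (1 + |t|) ^ 2 := by
    refine (norm_KK_le β t hβ).trans ?_
    rw [div_le_div_iff₀ (by positivity) (by positivity)]
    have : t ^ 2 = |t| ^ 2 := (sq_abs t).symm
    rw [this]
    nlinarith [sq_nonneg (1 - |t|)]
  have h2 : Real.log (|t| + 3) ^ K ≤ 2 / ε ^ K * (1 + |t|) ^ (1 / 2 : ℝ) := by
    have h3 : Real.log (|t| + 3) ≤ (|t| + 3) ^ ε / ε :=
      Real.log_le_rpow_div (by positivity) hε0
    have h4 : 0 ≤ Real.log (|t| + 3) := Real.log_nonneg (by linarith)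
    have h5 : Real.log (|t| + 3) ^ K ≤ ((|t| + 3) ^ ε / ε) ^ K := pow_le_pow_left₀ h4 h3 K
    have h6 : ((|t| + 3) ^ ε / ε) ^ K = (|t| + 3) ^ (ε * K) / ε ^ K := by
      rw [div_pow, ← Real.rpow_natCast ((|t| + 3) ^ ε) K, ← Real.rpow_mul (by positivity)]
    have h7 : (|t| + 3) ^ (ε * K) ≤ (|t| + 3) ^ (1 / 2 : ℝ) :=
      Real.rpow_le_rpow_of_exponent_le (by linarith) hεK
    have h8 : (|t| + 3) ^ (1 / 2 : ℝ) ≤ 2 * (1 + |t|) ^ (1 / 2 : ℝ) := by
      have h9 : (2 : ℝ) * (1 + |t|) ^ (1 / 2 : ℝ) = (4 * (1 + |t|)) ^ (1 / 2 : ℝ) := by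
        rw [Real.mul_rpow (by norm_num) (by positivity)]
        congr 1
        rw [← Real.sqrt_eq_rpow, show (4 : ℝ) = 2 ^ 2 by norm_num, Real.sqrt_sq (by norm_num)]
      rw [h9]
      exact Real.rpow_le_rpow (by positivity) (by linarith) (by norm_num)
    calc Real.log (|t| + 3) ^ K ≤ (|t| + 3) ^ (ε * K) / ε ^ K := by rw [← h6]; exact h5
      _ ≤ (2 * (1 + |t|) ^ (1 / 2 : ℝ)) / ε ^ K := by
          gcongr
          exact h7.trans h8
      _ = 2 / ε ^ K * (1 + |t|) ^ (1 / 2 : ℝ) := by ring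
  have h10 : (1 + |t|) ^ (-(3 / 2 : ℝ)) = (1 + |t|) ^ (1 / 2 : ℝ) / (1 + |t|) ^ 2 := by
    rw [← Real.rpow_natCast (1 + |t|) 2, ← Real.rpow_sub hx1]
    norm_num
  calc ‖KK β t‖ * Real.log (|t| + 3) ^ K
      ≤ (0.8772 / (1 + |t|) ^ 2) * (2 / ε ^ K * (1 + |t|) ^ (1 / 2 : ℝ)) := by
        apply mul_le_mul h1 h2 _ (by positivity)
        exact pow_nonneg (Real.log_nonneg (by linarith)) K
    _ = 1.7544 / ε ^ K * (1 + |t|) ^ (-(3 / 2 : ℝ)) := by
        rw [h10]; ring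

/-- the summand -/
private noncomputable def swG_F (a : ℕ → ℂ) (β : ℝ) (N n : ℕ) (t : ℝ) : ℂ :=
  KK β t * ((N : ℂ) ^ (t * Complex.I) * LSeries.term a ((β : ℂ) + t * Complex.I) n)

private theorem swG_F_eq (a : ℕ → ℂ) (β : ℝ) (N n : ℕ) (hn : 1 ≤ n) (t : ℝ) :
    swG_F a β N n t = (a n / (n : ℂ) ^ (β : ℂ)) *
      (KK β t * ((N : ℂ) ^ (t * Complex.I) * (n : ℂ) ^ (-(t * Complex.I)))) := by
  unfold swG_F
  have hn0 : (n : ℂ) ≠ 0 := by exact_mod_cast (by omega : n ≠ 0)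
  rw [LSeries.term_of_ne_zero (by omega), Complex.cpow_add _ _ hn0, Complex.cpow_neg]
  have h1 : (n : ℂ) ^ (β : ℂ) ≠ 0 := by
    rw [Complex.cpow_def_of_ne_zero hn0]; exact Complex.exp_ne_zero _
  have h2 : (n : ℂ) ^ ((t : ℂ) * Complex.I) ≠ 0 := by
    rw [Complex.cpow_def_of_ne_zero hn0]; exact Complex.exp_ne_zero _
  field_simp

private theorem swG_norm_F (a : ℕ → ℂ) (β : ℝ) (N n : ℕ) (hN : 1 ≤ N) (t : ℝ) :
    ‖swG_F a β N n t‖ = ‖LSeries.term a (β : ℂ) n‖ * ‖KK β t‖ := by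
  unfold swG_F
  rw [norm_mul, norm_mul, Complex.norm_natCast_cpow_of_pos (by omega)]
  have h1 : ((t : ℂ) * Complex.I).re = 0 := by simp
  have h2 : ‖LSeries.term a ((β : ℂ) + t * Complex.I) n‖ = ‖LSeries.term a (β : ℂ) n‖ := by
    rw [LSeries.norm_term_eq, LSeries.norm_term_eq]
    simp
  rw [h1, Real.rpow_zero, one_mul, h2, mul_comm]

private theorem swG_F_cont (a : ℕ → ℂ) (β : ℝ) (hβ : 0 ≤ β) (N n : ℕ) (hN : 1 ≤ N) :
    Continuous (swG_F a β N n) := by
  rcases Nat.eq_zero_or_pos n with rfl | hn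
  · have : swG_F a β N 0 = fun _ => 0 := by
      funext t; unfold swG_F; rw [LSeries.term_zero, mul_zero, mul_zero]
    rw [this]; exact continuous_const
  · have : swG_F a β N n = fun t : ℝ => (a n / (n : ℂ) ^ (β : ℂ)) *
      (KK β t * ((N : ℂ) ^ (t * Complex.I) * (n : ℂ) ^ (-(t * Complex.I)))) := by
      funext t; exact swG_F_eq a β N n hn t
    rw [this]
    have hn0 : (n : ℂ) ≠ 0 := by exact_mod_cast (by omega : n ≠ 0)
    have hN0 : (N : ℂ) ≠ 0 := by exact_mod_cast (by omega : N ≠ 0)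
    refine continuous_const.mul ((KK_continuous β hβ).mul (Continuous.mul ?_ ?_))
    · exact Continuous.const_cpow (by fun_prop) (Or.inl hN0)
    · exact Continuous.const_cpow (by fun_prop) (Or.inl hn0)

private theorem swG_F_int (a : ℕ → ℂ) (β : ℝ) (hβ : 0 ≤ β) (N n : ℕ) (hN : 1 ≤ N) :
    Integrable (swG_F a β N n) := by
  refine Integrable.mono' ((KK_integrable β hβ).norm.const_mul ‖LSeries.term a (β : ℂ) n‖)
    (swG_F_cont a β hβ N n hN).aestronglyMeasurable (Filter.Eventually.of_forall fun t => ?_)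
  rw [swG_norm_F a β N n hN t]

private theorem swG_identity (a : ℕ → ℂ) (β : ℝ) (hβ : 0 ≤ β) (N : ℕ) (hN : 1 ≤ N)
    (hs : LSeriesSummable a (β : ℂ)) :
    ∑ n ∈ Icc 1 N, a n * ((om ((n : ℝ) / N) : ℝ) : ℂ) =
      (((N : ℝ) ^ β : ℝ) : ℂ) * (1 / (2 * Real.pi)) *
        ∫ t : ℝ, KK β t * ((N : ℂ) ^ (t * Complex.I) * LSeries a ((β : ℂ) + t * Complex.I)) := by
  have hN0 : (0 : ℝ) < N := by exact_mod_cast hN
  have h1 : HasSum (fun n => ∫ t, swG_F a β N n t) (∫ t, ∑' n, swG_F a β N n t) := by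
    apply hasSum_integral_of_summable_integral_norm (swG_F_int a β hβ N · hN)
    have h2 : (fun n => ∫ t, ‖swG_F a β N n t‖) =
        fun n => ‖LSeries.term a (β : ℂ) n‖ * ∫ t, ‖KK β t‖ := by
      funext n
      simp only [swG_norm_F a β N n hN]
      rw [integral_const_mul]
    rw [h2]
    exact (Summable.norm hs).mul_right _
  have h3 : ∀ t : ℝ, ∑' n, swG_F a β N n t =
      KK β t * ((N : ℂ) ^ (t * Complex.I) * LSeries a ((β : ℂ) + t * Complex.I)) := by
    intro t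
    unfold swG_F LSeries
    rw [tsum_mul_left, tsum_mul_left]
  simp only [h3] at h1
  have h4 := h1.mul_left ((((N : ℝ) ^ β : ℝ) : ℂ) * (1 / (2 * Real.pi)))
  have hval : ∀ n : ℕ, 1 ≤ n → (((N : ℝ) ^ β : ℝ) : ℂ) * (1 / (2 * Real.pi)) *
      (∫ t, swG_F a β N n t) = a n * ((om ((n : ℝ) / N) : ℝ) : ℂ) := by
    intro n hn
    have hn0 : (0 : ℝ) < n := by exact_mod_cast hn
    have e1 : ∫ t, swG_F a β N n t = (a n / (n : ℂ) ^ (β : ℂ)) *
        ∫ t : ℝ, KK β t * ((N : ℂ) ^ (t * Complex.I) * (n : ℂ) ^ (-(t * Complex.I))) := by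
      simp only [swG_F_eq a β N n hn]
      rw [integral_const_mul]
    rw [e1, om_fourier' β hβ hN hn, Real.div_rpow hN0.le hn0.le]
    have e2 : (n : ℂ) ^ (β : ℂ) = (((n : ℝ) ^ β : ℝ) : ℂ) := by
      rw [Complex.ofReal_cpow hn0.le]; simp
    rw [e2]
    push_cast
    ring
  have h5 : HasSum (fun n => (((N : ℝ) ^ β : ℝ) : ℂ) * (1 / (2 * Real.pi)) *
      (∫ t, swG_F a β N n t)) (∑ n ∈ Icc 1 N, (((N : ℝ) ^ β : ℝ) : ℂ) * (1 / (2 * Real.pi)) *
      (∫ t, swG_F a β N n t)) := by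
    apply hasSum_sum_of_ne_finset_zero
    intro n hn
    rcases Nat.eq_zero_or_pos n with rfl | hn1
    · have : ∀ t, swG_F a β N 0 t = 0 := by
        intro t; unfold swG_F; rw [LSeries.term_zero, mul_zero, mul_zero]
      simp only [this, integral_zero, mul_zero]
    · rw [hval n hn1]
      have hnN : N < n := by
        by_contra h
        exact hn (Finset.mem_Icc.2 ⟨hn1, not_lt.1 h⟩)
      rw [om_eq_zero, Complex.ofReal_zero, mul_zero]
      rw [le_div_iff₀ hN0, one_mul]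
      exact_mod_cast hnN.le
  rw [← h5.unique h4]
  apply Finset.sum_congr rfl
  intro n hn
  rw [hval n (Finset.mem_Icc.1 hn).1]

theorem smooth_gen (K : ℕ) : ∃ C : ℝ, 0 < C ∧ ∀ (a : ℕ → ℂ) (B : ℝ), 0 ≤ B →
    (∀ s : ℂ, 1 < s.re → s.re ≤ 2 → LSeriesSummable a s ∧
      ‖LSeries a s‖ ≤ B * Real.log (|s.im| + 3) ^ K) →
    ∀ N : ℕ, 2 ≤ N → ‖∑ n ∈ Icc 1 N, a n * ((om ((n : ℝ) / N) : ℝ) : ℂ)‖ ≤ C * B * N := by
  set C0 : ℝ := 1.7544 / (1 / (2 * ((K : ℝ) + 1))) ^ K with hC0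
  have hC0pos : 0 < C0 := by positivity
  set I0 : ℝ := ∫ t : ℝ, (1 + ‖t‖) ^ (-(3 / 2 : ℝ)) with hI0
  have hI0nn : 0 ≤ I0 := integral_nonneg (fun t => by positivity)
  have hint : Integrable (fun t : ℝ => (1 + ‖t‖) ^ (-(3 / 2 : ℝ))) :=
    integrable_one_add_norm (by simp; norm_num)
  refine ⟨C0 * I0 + 1, by positivity, ?_⟩
  intro a B hB h N hN
  have hN0 : (0 : ℝ) < N := by exact_mod_cast (by omega : 0 < N)
  have hlog : 0 < Real.log N := Real.log_pos (by exact_mod_cast (by omega : 1 < N))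
  set β : ℝ := 1 + 1 / (1 + Real.log N) with hβ
  have hβ1 : 1 < β := by rw [hβ]; have : 0 < 1 / (1 + Real.log N) := by positivity
                         linarith
  have hβ2 : β ≤ 2 := by
    have : 1 / (1 + Real.log N) ≤ 1 := by
      rw [div_le_one (by positivity)]; linarith
    linarith
  have hs : LSeriesSummable a (β : ℂ) := (h (β : ℂ) (by simpa using hβ1) (by simpa using hβ2)).1
  rw [swG_identity a β (by linarith) N (by omega) hs]
  have hpow : (N : ℝ) ^ β ≤ Real.exp 1 * N := by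
    rw [hβ, Real.rpow_add hN0, Real.rpow_one, mul_comm]
    gcongr
    rw [Real.rpow_def_of_pos hN0, Real.exp_le_exp, mul_one_div, div_le_one (by positivity)]
    linarith
  have hbound : ‖∫ t : ℝ, KK β t * ((N : ℂ) ^ (t * Complex.I) *
      LSeries a ((β : ℂ) + t * Complex.I))‖ ≤ ∫ t : ℝ, B * (C0 * (1 + ‖t‖) ^ (-(3 / 2 : ℝ))) := by
    apply norm_integral_le_of_norm_le ((hint.const_mul C0).const_mul B)
    refine Filter.Eventually.of_forall fun t => ?_
    rw [norm_mul, norm_mul, Complex.norm_natCast_cpow_of_pos (by omega)]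
    have h1 : ((t : ℂ) * Complex.I).re = 0 := by simp
    have h2 := (h ((β : ℂ) + t * Complex.I) (by simpa using hβ1) (by simpa using hβ2)).2
    have h3 : ((β : ℂ) + t * Complex.I).im = t := by simp
    rw [h3] at h2
    rw [h1, Real.rpow_zero, one_mul]
    have h4 := swG_kernel K β t (by linarith)
    calc ‖KK β t‖ * ‖LSeries a ((β : ℂ) + t * Complex.I)‖
        ≤ ‖KK β t‖ * (B * Real.log (|t| + 3) ^ K) := by gcongr
      _ = B * (‖KK β t‖ * Real.log (|t| + 3) ^ K) := by ring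
      _ ≤ B * (C0 * (1 + ‖t‖) ^ (-(3 / 2 : ℝ))) := by
          apply mul_le_mul_of_nonneg_left h4 hB
  rw [integral_const_mul, integral_const_mul, ← hI0] at hbound
  have hpi : Real.exp 1 * (1 / (2 * Real.pi)) ≤ 1 := by
    have h1 := Real.exp_one_lt_d9
    have h2 := Real.pi_gt_three
    rw [mul_one_div, div_le_one (by positivity)]
    linarith
  rw [norm_mul, norm_mul]
  have e1 : ‖(((N : ℝ) ^ β : ℝ) : ℂ)‖ = (N : ℝ) ^ β := by
    rw [Complex.norm_real, Real.norm_of_nonneg (by positivity)]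
  have e2 : ‖(1 / (2 * Real.pi) : ℂ)‖ = 1 / (2 * Real.pi) := by
    have : (1 / (2 * Real.pi) : ℂ) = ((1 / (2 * Real.pi) : ℝ) : ℂ) := by push_cast; rfl
    rw [this, Complex.norm_real, Real.norm_of_nonneg (by positivity)]
  rw [e1, e2]
  have hpi0 : 0 < 1 / (2 * Real.pi) := by positivity
  calc (N : ℝ) ^ β * (1 / (2 * Real.pi)) * ‖∫ t : ℝ, KK β t * ((N : ℂ) ^ (t * Complex.I) *
        LSeries a ((β : ℂ) + t * Complex.I))‖
      ≤ (Real.exp 1 * N) * (1 / (2 * Real.pi)) * (B * (C0 * I0)) := by gcongr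
    _ = (Real.exp 1 * (1 / (2 * Real.pi))) * (C0 * I0 * B * N) := by ring
    _ ≤ 1 * (C0 * I0 * B * N) := by
        apply mul_le_mul_of_nonneg_right hpi (by positivity)
    _ ≤ (C0 * I0 + 1) * B * N := by
        have : 0 ≤ B * N := by positivity
        nlinarith

end Pool.Agent.H91.EHA

end

section

/-!
# Ramanujan sums

`ramS_eq`: `c_c(n) = ∑_{b mod c, (b,c)=1} e(nb/c) = ∑_{d | (c,n)} d μ(c/d)` (see also
`Pool/Agent/H92/EH/Ramanujan.lean`, `ram_eq`).
`lamR_exp`: for `c ≤ R`, `(b,c)=1`, `∑_{n≤y} lamR R n e(nb/c) = (μ(c)/φ(c)) y + O(R^4)`: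
write `lamR R n = ∑_{d≤R} μ(d)/φ(d) ∑_{b'} e(n b'/d)`; the pair `(d,b')` with `b'/d + b/c ∈ ℤ` is only
`d = c`, `b' ≡ -b`; for the others `‖b'/d + b/c‖ ≥ 1/(cd) ≥ 1/R²`, the geometric sum is `≤ R²`, and
`∑_{d≤R} (1/φ(d)) φ(d) R² ≤ R³`.
-/

set_option autoImplicit false

namespace Pool.Agent.H91.EHA

open Finset
open Pool.Agent.H91.PK

private theorem swk2_ee (t : ℝ) : ee t = Pool.Agent.H92.EH.e t := by
  unfold ee Pool.Agent.H92.EH.e
  congr 1
  push_cast
  ring

private theorem swk2_red (c : ℕ) (hc : 1 ≤ c) (f : ℕ → ℂ) (hf : f c = f 0) :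
    ∑ b ∈ (Icc 1 c).filter (fun b => Nat.Coprime b c), f b
      = ∑ b ∈ Pool.Agent.H92.EH.red c, f b := by
  rcases Nat.eq_or_lt_of_le hc with h1 | h1
  · subst h1
    have e1 : (Icc 1 1).filter (fun b => Nat.Coprime b 1) = {1} := by decide
    have e2 : Pool.Agent.H92.EH.red 1 = {0} := by decide
    rw [e1, e2, sum_singleton, sum_singleton, hf]
  · apply sum_congr _ (fun _ _ => rfl)
    ext b
    rw [mem_filter, mem_Icc, Pool.Agent.H92.EH.mem_red]
    constructor
    · rintro ⟨⟨h2, h3⟩, h4⟩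
      refine ⟨lt_of_le_of_ne h3 ?_, h4⟩
      rintro rfl
      rw [Nat.coprime_self] at h4
      omega
    · rintro ⟨h2, h4⟩
      refine ⟨⟨Nat.one_le_iff_ne_zero.mpr ?_, h2.le⟩, h4⟩
      rintro rfl
      rw [Nat.coprime_zero_left] at h4
      omega

private theorem swk2_ram (c n : ℕ) (hc : 1 ≤ c) :
    ((ramS c n : ℝ) : ℂ) = Pool.Agent.H92.EH.ram c (n : ℤ) := by
  rw [Pool.Agent.H92.EH.ram_eq c hc]
  rw [Nat.sum_divisorsAntidiagonal' (f := fun a b : ℕ =>
    ((ArithmeticFunction.moebius a : ℤ) : ℂ) * (if ((b : ℕ) : ℤ) ∣ (n : ℤ) then (b : ℂ) else 0))]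
  unfold ramS
  have hg : (Nat.gcd c n).divisors = c.divisors.filter (fun d => d ∣ n) := by
    ext d
    rw [Nat.mem_divisors, mem_filter, Nat.mem_divisors]
    constructor
    · rintro ⟨h1, h2⟩
      exact ⟨⟨h1.trans (Nat.gcd_dvd_left c n), by omega⟩, h1.trans (Nat.gcd_dvd_right c n)⟩
    · rintro ⟨⟨h1, h2⟩, h3⟩
      refine ⟨Nat.dvd_gcd h1 h3, ?_⟩
      intro h4
      rw [Nat.gcd_eq_zero_iff] at h4
      omega
  rw [hg, sum_filter]
  push_cast
  apply sum_congr rfl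
  intro d _
  by_cases h : d ∣ n
  · have h' : (d : ℤ) ∣ (n : ℤ) := by exact_mod_cast h
    rw [if_pos h, if_pos h']
    push_cast
    ring
  · have h' : ¬ (d : ℤ) ∣ (n : ℤ) := by
      intro h2
      exact h (by exact_mod_cast h2)
    rw [if_neg h, if_neg h']
    simp

theorem ramS_eq (c n : ℕ) (hc : 1 ≤ c) :
    ((ramS c n : ℝ) : ℂ) = ∑ b ∈ (Icc 1 c).filter (fun b => Nat.Coprime b c),
      ee ((n : ℝ) * b / c) := by
  have hc0 : (c : ℝ) ≠ 0 := by exact_mod_cast (by omega : c ≠ 0)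
  rw [swk2_red c hc (fun b => ee ((n : ℝ) * b / c)), swk2_ram c n hc]
  · unfold Pool.Agent.H92.EH.ram
    apply sum_congr rfl
    intro b _
    rw [swk2_ee]
    congr 1
    push_cast
    ring
  · rw [swk2_ee, swk2_ee]
    have h1 : (n : ℝ) * (c : ℝ) / c = (n : ℝ) := by field_simp
    have h2 : (n : ℝ) * ((0 : ℕ) : ℝ) / c = ((0 : ℕ) : ℝ) := by simp
    rw [h1, h2, Pool.Agent.H92.EH.e_nat, Pool.Agent.H92.EH.e_nat]

private theorem swk2_geom (y : ℕ) (t δ : ℝ) (hδ : 0 < δ) (h : ∀ m : ℤ, δ ≤ |t - m|) :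
    ‖∑ n ∈ Icc 1 y, Pool.Agent.H92.EH.e (n * t)‖ ≤ 1 / (2 * δ) := by
  have h3 := Pool.Agent.H92.EH.le_norm_e_sub_one h
  have h1 : ∑ n ∈ Icc 1 y, Pool.Agent.H92.EH.e (n * t)
      = Pool.Agent.H92.EH.e t * ∑ n ∈ range y, Pool.Agent.H92.EH.e t ^ n := by
    clear h3
    induction y with
    | zero => simp
    | succ y ih =>
      rw [Finset.sum_Icc_succ_top (by omega), ih, sum_range_succ, mul_add]
      congr 1
      rw [Pool.Agent.H92.EH.e_nat_mul, pow_succ]
      ring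
  have h2 : (∑ n ∈ range y, Pool.Agent.H92.EH.e t ^ n) * (Pool.Agent.H92.EH.e t - 1)
      = Pool.Agent.H92.EH.e t ^ y - 1 := geom_sum_mul _ _
  have h4 : ‖(∑ n ∈ range y, Pool.Agent.H92.EH.e t ^ n)‖ * ‖Pool.Agent.H92.EH.e t - 1‖ ≤ 2 := by
    rw [← norm_mul, h2]
    refine (norm_sub_le _ _).trans ?_
    rw [norm_pow, Pool.Agent.H92.EH.norm_e, one_pow, norm_one]
    norm_num
  rw [h1, norm_mul, Pool.Agent.H92.EH.norm_e, one_mul, le_div_iff₀ (by positivity)]
  have h5 : ‖(∑ n ∈ range y, Pool.Agent.H92.EH.e t ^ n)‖ * (4 * δ) ≤ 2 :=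
    (mul_le_mul_of_nonneg_left h3 (norm_nonneg _)).trans h4
  linarith

private theorem swk2_lamR (R n : ℕ) :
    ((lamR R n : ℝ) : ℂ) = ∑ d ∈ Icc 1 R,
      (((ArithmeticFunction.moebius d : ℝ) / (d.totient : ℝ) : ℝ) : ℂ)
        * ∑ b' ∈ Pool.Agent.H92.EH.red d, Pool.Agent.H92.EH.e (n * ((b' : ℝ) / d)) := by
  unfold lamR
  push_cast
  apply sum_congr rfl
  intro d hd
  rw [mem_Icc] at hd
  have h := swk2_ram d n hd.1
  unfold Pool.Agent.H92.EH.ram at h
  rw [show ((ramS d n : ℝ) : ℂ) = _ from h]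
  push_cast
  rfl

theorem lamR_exp (R y c b : ℕ) (hc : 1 ≤ c) (hcR : c ≤ R) (hb : Nat.Coprime b c) :
    ‖(∑ n ∈ Icc 1 y, ((lamR R n : ℝ) : ℂ) * ee ((n : ℝ) * b / c))
      - (((ArithmeticFunction.moebius c : ℝ) / (c.totient : ℝ) * y : ℝ) : ℂ)‖ ≤ (R : ℝ) ^ 4 := by
  have hc0 : (c : ℝ) ≠ 0 := by exact_mod_cast (by omega : c ≠ 0)
  have hcpos : (0 : ℝ) < c := by exact_mod_cast (by omega : 0 < c)
  -- the residue `bs ≡ -b`
  obtain ⟨bs, hbs, k, hk⟩ : ∃ bs ∈ Pool.Agent.H92.EH.red c, ∃ k : ℤ,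
      (b : ℤ) = k * c - bs := by
    refine ⟨(c - b % c) % c, ?_, ?_⟩
    · rw [Pool.Agent.H92.EH.mem_red]
      refine ⟨Nat.mod_lt _ (by omega), ?_⟩
      have h1 : Nat.Coprime (b % c) c := by
        rw [Nat.Coprime, ← Nat.gcd_rec]
        rwa [Nat.coprime_comm] at hb
      have h2 : Nat.Coprime (c - b % c) c := by
        have h3 : b % c ≤ c := (Nat.mod_lt _ (by omega)).le
        rw [Nat.coprime_self_sub_left h3]
        exact h1
      rw [Nat.Coprime, ← Nat.gcd_rec]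
      rwa [Nat.coprime_comm] at h2
    · have h3 : b % c ≤ c := (Nat.mod_lt _ (by omega)).le
      have h4 : ((c : ℤ)) ∣ (b : ℤ) + (((c - b % c) % c : ℕ) : ℤ) := by
        have h5 : (b + (c - b % c) % c) % c = 0 := by
          rw [Nat.add_mod, Nat.mod_mod, ← Nat.add_mod]
          have h6 : b + (c - b % c) = c * (b / c + 1) := by
            have := Nat.div_add_mod b c
            rw [mul_add, mul_one]
            omega
          rw [h6, Nat.mul_mod_right]
        have h7 : c ∣ b + (c - b % c) % c := Nat.dvd_of_mod_eq_zero h5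
        exact_mod_cast h7
      obtain ⟨k, hk⟩ := h4
      refine ⟨k, ?_⟩
      rw [mul_comm] at hk
      linarith
  have hbR : (b : ℝ) = k * c - bs := by exact_mod_cast hk
  have hee : ∀ n : ℕ, ee ((n : ℝ) * b / c) = Pool.Agent.H92.EH.e (n * (-((bs : ℝ) / c))) := by
    intro n
    rw [swk2_ee]
    have h1 : (n : ℝ) * b / c = n * (-((bs : ℝ) / c)) + ((n * k : ℤ) : ℝ) := by
      rw [hbR]
      push_cast
      field_simp
      ring
    rw [h1, Pool.Agent.H92.EH.e_add_int]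
  -- expand
  set m : ℕ → ℂ := fun d => (((ArithmeticFunction.moebius d : ℝ) / (d.totient : ℝ) : ℝ) : ℂ)
    with hm
  have hexp : (∑ n ∈ Icc 1 y, ((lamR R n : ℝ) : ℂ) * ee ((n : ℝ) * b / c))
      = ∑ d ∈ Icc 1 R, m d * ∑ b' ∈ Pool.Agent.H92.EH.red d,
          ∑ n ∈ Icc 1 y, Pool.Agent.H92.EH.e (n * ((b' : ℝ) / d - (bs : ℝ) / c)) := by
    calc (∑ n ∈ Icc 1 y, ((lamR R n : ℝ) : ℂ) * ee ((n : ℝ) * b / c))
        = ∑ n ∈ Icc 1 y, ∑ d ∈ Icc 1 R, m d * ∑ b' ∈ Pool.Agent.H92.EH.red d,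
            Pool.Agent.H92.EH.e (n * ((b' : ℝ) / d - (bs : ℝ) / c)) := by
          apply sum_congr rfl
          intro n _
          rw [swk2_lamR, hee, sum_mul]
          apply sum_congr rfl
          intro d _
          rw [mul_assoc, sum_mul]
          congr 1
          apply sum_congr rfl
          intro b' _
          rw [← Pool.Agent.H92.EH.e_add]
          congr 1
          ring
      _ = ∑ d ∈ Icc 1 R, m d * ∑ n ∈ Icc 1 y, ∑ b' ∈ Pool.Agent.H92.EH.red d,
            Pool.Agent.H92.EH.e (n * ((b' : ℝ) / d - (bs : ℝ) / c)) := by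
          rw [sum_comm]
          apply sum_congr rfl
          intro d _
          rw [mul_sum]
      _ = _ := by
          apply sum_congr rfl
          intro d _
          rw [sum_comm]
  have hR1 : (1 : ℝ) ≤ R := by exact_mod_cast hc.trans hcR
  have hcR' : (c : ℝ) ≤ R := by exact_mod_cast hcR
  -- difference as a sum
  have hdiff : (∑ n ∈ Icc 1 y, ((lamR R n : ℝ) : ℂ) * ee ((n : ℝ) * b / c))
      - (((ArithmeticFunction.moebius c : ℝ) / (c.totient : ℝ) * y : ℝ) : ℂ)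
      = ∑ d ∈ Icc 1 R, m d * ∑ b' ∈ Pool.Agent.H92.EH.red d,
          (if d = c ∧ b' = bs then 0 else
            ∑ n ∈ Icc 1 y, Pool.Agent.H92.EH.e (n * ((b' : ℝ) / d - (bs : ℝ) / c))) := by
    rw [hexp, sub_eq_iff_eq_add]
    have hmain : (((ArithmeticFunction.moebius c : ℝ) / (c.totient : ℝ) * y : ℝ) : ℂ)
        = ∑ d ∈ Icc 1 R, m d * ∑ b' ∈ Pool.Agent.H92.EH.red d,
          (if d = c ∧ b' = bs then (y : ℂ) else 0) := by
      rw [sum_eq_single_of_mem c (mem_Icc.mpr ⟨hc, hcR⟩)]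
      · rw [sum_eq_single_of_mem bs hbs]
        · rw [if_pos ⟨rfl, rfl⟩, hm]
          push_cast
          ring
        · intro b' _ hne
          rw [if_neg]
          rintro ⟨_, h⟩
          exact hne h
      · intro d _ hne
        rw [sum_eq_zero, mul_zero]
        intro b' _
        rw [if_neg]
        rintro ⟨h, _⟩
        exact hne h
    rw [hmain, ← sum_add_distrib]
    apply sum_congr rfl
    intro d _
    rw [← mul_add, ← sum_add_distrib]
    congr 1
    apply sum_congr rfl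
    intro b' _
    by_cases h : d = c ∧ b' = bs
    · rw [if_pos h, if_pos h, h.1, h.2, zero_add]
      simp [Pool.Agent.H92.EH.e_zero]
    · rw [if_neg h, if_neg h, add_zero]
  rw [hdiff]
  have hterm : ∀ d ∈ Icc 1 R, ‖m d * ∑ b' ∈ Pool.Agent.H92.EH.red d,
          (if d = c ∧ b' = bs then 0 else
            ∑ n ∈ Icc 1 y, Pool.Agent.H92.EH.e (n * ((b' : ℝ) / d - (bs : ℝ) / c)))‖
      ≤ (R : ℝ) ^ 2 := by
    intro d hd
    rw [mem_Icc] at hd
    have hdpos : (0 : ℝ) < d := by exact_mod_cast hd.1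
    have hdR : (d : ℝ) ≤ R := by exact_mod_cast hd.2
    have htot : (0 : ℝ) < (d.totient : ℝ) := by
      exact_mod_cast Nat.totient_pos.mpr hd.1
    have hmd : ‖m d‖ ≤ 1 / (d.totient : ℝ) := by
      rw [hm]
      simp only
      rw [Complex.norm_real, Real.norm_eq_abs, abs_div, abs_of_pos htot]
      apply div_le_div_of_nonneg_right _ htot.le
      exact_mod_cast ArithmeticFunction.abs_moebius_le_one
    have hin : ‖∑ b' ∈ Pool.Agent.H92.EH.red d,
          (if d = c ∧ b' = bs then (0 : ℂ) else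
            ∑ n ∈ Icc 1 y, Pool.Agent.H92.EH.e (n * ((b' : ℝ) / d - (bs : ℝ) / c)))‖
        ≤ (d.totient : ℝ) * (R : ℝ) ^ 2 := by
      refine (norm_sum_le _ _).trans ?_
      have : ∀ b' ∈ Pool.Agent.H92.EH.red d, ‖(if d = c ∧ b' = bs then (0 : ℂ) else
            ∑ n ∈ Icc 1 y, Pool.Agent.H92.EH.e (n * ((b' : ℝ) / d - (bs : ℝ) / c)))‖
            ≤ (R : ℝ) ^ 2 := by
        intro b' hb'
        split_ifs with h
        · rw [norm_zero]; positivity
        · have hsp := Pool.Agent.H92.EH.farey_spacing (by omega : 0 < d) (by omega : 0 < c)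
            hb' hbs h
          have hg := swk2_geom y ((b' : ℝ) / d - (bs : ℝ) / c) (1 / ((d : ℝ) * c))
            (by positivity) hsp
          refine hg.trans ?_
          have : 1 / (2 * (1 / ((d : ℝ) * c))) = (d : ℝ) * c / 2 := by
            field_simp
          rw [this]
          nlinarith
      refine (sum_le_sum this).trans ?_
      rw [sum_const, nsmul_eq_mul, Pool.Agent.H92.EH.card_red]
    rw [norm_mul]
    calc ‖m d‖ * _ ≤ (1 / (d.totient : ℝ)) * ((d.totient : ℝ) * (R : ℝ) ^ 2) :=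
          mul_le_mul hmd hin (norm_nonneg _) (by positivity)
      _ = (R : ℝ) ^ 2 := by field_simp
  refine (norm_sum_le _ _).trans ((sum_le_sum hterm).trans ?_)
  rw [sum_const, nsmul_eq_mul, Nat.card_Icc, Nat.add_sub_cancel]
  nlinarith [pow_le_pow_right₀ hR1 (show 3 ≤ 4 by norm_num)]

end Pool.Agent.H91.EHA

end

section

/-!
# VK SmTwo: smooth sums from a bound on one vertical line

Proof (as in `EHA/SwG.lean`, `smooth_gen`).  `om(n/N) = (1/2π) ∫ KK β τ (N/n)^{β+iτ} dτ` (`om_fourier'` in `PK/Om.lean`), interchange the (absolutely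
convergent) sum and integral: `∑_{n≤N} a_n om(n/N) = (1/2π) ∫ KK β τ N^{β+iτ} LSeries a (β+iτ) dτ`.  `‖KK β τ‖ ≤ 0.4386/(1+τ^2)` (`norm_KK_le`) on `|τ| ≤ T`
and `‖KK β τ‖ ≤ 2/|τ|^3` (`norm_KK_le'`) on `|τ| > T`: `∫_{|τ|>T} 2/|τ|^3 = 2/T^2`.
-/

set_option autoImplicit false

namespace Pool.Agent.H97.VK

open Finset
open Pool.Agent.H91.PK
open MeasureTheory

/-- the summand -/
private noncomputable def smTwo_F (a : ℕ → ℂ) (β : ℝ) (N n : ℕ) (t : ℝ) : ℂ :=
  KK β t * ((N : ℂ) ^ (t * Complex.I) * LSeries.term a ((β : ℂ) + t * Complex.I) n)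

private theorem smTwo_F_eq (a : ℕ → ℂ) (β : ℝ) (N n : ℕ) (hn : 1 ≤ n) (t : ℝ) :
    smTwo_F a β N n t = (a n / (n : ℂ) ^ (β : ℂ)) *
      (KK β t * ((N : ℂ) ^ (t * Complex.I) * (n : ℂ) ^ (-(t * Complex.I)))) := by
  unfold smTwo_F
  have hn0 : (n : ℂ) ≠ 0 := by exact_mod_cast (by omega : n ≠ 0)
  rw [LSeries.term_of_ne_zero (by omega), Complex.cpow_add _ _ hn0, Complex.cpow_neg]
  have h1 : (n : ℂ) ^ (β : ℂ) ≠ 0 := by
    rw [Complex.cpow_def_of_ne_zero hn0]; exact Complex.exp_ne_zero _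
  have h2 : (n : ℂ) ^ ((t : ℂ) * Complex.I) ≠ 0 := by
    rw [Complex.cpow_def_of_ne_zero hn0]; exact Complex.exp_ne_zero _
  field_simp

private theorem smTwo_norm_F (a : ℕ → ℂ) (β : ℝ) (N n : ℕ) (hN : 1 ≤ N) (t : ℝ) :
    ‖smTwo_F a β N n t‖ = ‖LSeries.term a (β : ℂ) n‖ * ‖KK β t‖ := by
  unfold smTwo_F
  rw [norm_mul, norm_mul, Complex.norm_natCast_cpow_of_pos (by omega)]
  have h1 : ((t : ℂ) * Complex.I).re = 0 := by simp
  have h2 : ‖LSeries.term a ((β : ℂ) + t * Complex.I) n‖ = ‖LSeries.term a (β : ℂ) n‖ := by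
    rw [LSeries.norm_term_eq, LSeries.norm_term_eq]
    simp
  rw [h1, Real.rpow_zero, one_mul, h2, mul_comm]

private theorem smTwo_F_cont (a : ℕ → ℂ) (β : ℝ) (hβ : 0 ≤ β) (N n : ℕ) (hN : 1 ≤ N) :
    Continuous (smTwo_F a β N n) := by
  rcases Nat.eq_zero_or_pos n with rfl | hn
  · have : smTwo_F a β N 0 = fun _ => 0 := by
      funext t; unfold smTwo_F; rw [LSeries.term_zero, mul_zero, mul_zero]
    rw [this]; exact continuous_const
  · have : smTwo_F a β N n = fun t : ℝ => (a n / (n : ℂ) ^ (β : ℂ)) *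
      (KK β t * ((N : ℂ) ^ (t * Complex.I) * (n : ℂ) ^ (-(t * Complex.I)))) := by
      funext t; exact smTwo_F_eq a β N n hn t
    rw [this]
    have hn0 : (n : ℂ) ≠ 0 := by exact_mod_cast (by omega : n ≠ 0)
    have hN0 : (N : ℂ) ≠ 0 := by exact_mod_cast (by omega : N ≠ 0)
    refine continuous_const.mul ((KK_continuous β hβ).mul (Continuous.mul ?_ ?_))
    · exact Continuous.const_cpow (by fun_prop) (Or.inl hN0)
    · exact Continuous.const_cpow (by fun_prop) (Or.inl hn0)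

private theorem smTwo_F_int (a : ℕ → ℂ) (β : ℝ) (hβ : 0 ≤ β) (N n : ℕ) (hN : 1 ≤ N) :
    Integrable (smTwo_F a β N n) := by
  refine Integrable.mono' ((KK_integrable β hβ).norm.const_mul ‖LSeries.term a (β : ℂ) n‖)
    (smTwo_F_cont a β hβ N n hN).aestronglyMeasurable (Filter.Eventually.of_forall fun t => ?_)
  rw [smTwo_norm_F a β N n hN t]

private theorem smTwo_identity (a : ℕ → ℂ) (β : ℝ) (hβ : 0 ≤ β) (N : ℕ) (hN : 1 ≤ N)
    (hs : LSeriesSummable a (β : ℂ)) :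
    ∑ n ∈ Icc 1 N, a n * ((om ((n : ℝ) / N) : ℝ) : ℂ) =
      (((N : ℝ) ^ β : ℝ) : ℂ) * (1 / (2 * Real.pi)) *
        ∫ t : ℝ, KK β t * ((N : ℂ) ^ (t * Complex.I) * LSeries a ((β : ℂ) + t * Complex.I)) := by
  have hN0 : (0 : ℝ) < N := by exact_mod_cast hN
  have h1 : HasSum (fun n => ∫ t, smTwo_F a β N n t) (∫ t, ∑' n, smTwo_F a β N n t) := by
    apply hasSum_integral_of_summable_integral_norm (smTwo_F_int a β hβ N · hN)
    have h2 : (fun n => ∫ t, ‖smTwo_F a β N n t‖) =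
        fun n => ‖LSeries.term a (β : ℂ) n‖ * ∫ t, ‖KK β t‖ := by
      funext n
      simp only [smTwo_norm_F a β N n hN]
      rw [integral_const_mul]
    rw [h2]
    exact (Summable.norm hs).mul_right _
  have h3 : ∀ t : ℝ, ∑' n, smTwo_F a β N n t =
      KK β t * ((N : ℂ) ^ (t * Complex.I) * LSeries a ((β : ℂ) + t * Complex.I)) := by
    intro t
    unfold smTwo_F LSeries
    rw [tsum_mul_left, tsum_mul_left]
  simp only [h3] at h1
  have h4 := h1.mul_left ((((N : ℝ) ^ β : ℝ) : ℂ) * (1 / (2 * Real.pi)))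
  have hval : ∀ n : ℕ, 1 ≤ n → (((N : ℝ) ^ β : ℝ) : ℂ) * (1 / (2 * Real.pi)) *
      (∫ t, smTwo_F a β N n t) = a n * ((om ((n : ℝ) / N) : ℝ) : ℂ) := by
    intro n hn
    have hn0 : (0 : ℝ) < n := by exact_mod_cast hn
    have e1 : ∫ t, smTwo_F a β N n t = (a n / (n : ℂ) ^ (β : ℂ)) *
        ∫ t : ℝ, KK β t * ((N : ℂ) ^ (t * Complex.I) * (n : ℂ) ^ (-(t * Complex.I))) := by
      simp only [smTwo_F_eq a β N n hn]
      rw [integral_const_mul]
    rw [e1, om_fourier' β hβ hN hn, Real.div_rpow hN0.le hn0.le]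
    have e2 : (n : ℂ) ^ (β : ℂ) = (((n : ℝ) ^ β : ℝ) : ℂ) := by
      rw [Complex.ofReal_cpow hn0.le]; simp
    rw [e2]
    push_cast
    ring
  have h5 : HasSum (fun n => (((N : ℝ) ^ β : ℝ) : ℂ) * (1 / (2 * Real.pi)) *
      (∫ t, smTwo_F a β N n t)) (∑ n ∈ Icc 1 N, (((N : ℝ) ^ β : ℝ) : ℂ) * (1 / (2 * Real.pi)) *
      (∫ t, smTwo_F a β N n t)) := by
    apply hasSum_sum_of_ne_finset_zero
    intro n hn
    rcases Nat.eq_zero_or_pos n with rfl | hn1
    · have : ∀ t, smTwo_F a β N 0 t = 0 := by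
        intro t; unfold smTwo_F; rw [LSeries.term_zero, mul_zero, mul_zero]
      simp only [this, integral_zero, mul_zero]
    · rw [hval n hn1]
      have hnN : N < n := by
        by_contra h
        exact hn (Finset.mem_Icc.2 ⟨hn1, not_lt.1 h⟩)
      rw [om_eq_zero, Complex.ofReal_zero, mul_zero]
      rw [le_div_iff₀ hN0, one_mul]
      exact_mod_cast hnN.le
  rw [← h5.unique h4]
  apply Finset.sum_congr rfl
  intro n hn
  rw [hval n (Finset.mem_Icc.1 hn).1]

private theorem smTwo_tail {T t : ℝ} (hT : 1 ≤ T) (ht : T < |t|) :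
    2 / |t| ^ 3 ≤ 16 * (1 / T ^ 3 * (1 + ‖t / T‖) ^ (-(3 : ℝ))) := by
  have hT0 : 0 < T := by linarith
  have ht0 : 0 < |t| := by linarith
  have h1 : (1 + ‖t / T‖) ^ (-(3 : ℝ)) = 1 / (1 + |t| / T) ^ 3 := by
    rw [Real.norm_eq_abs, abs_div, abs_of_pos hT0, Real.rpow_neg (by positivity), one_div]
    congr 1
    exact_mod_cast Real.rpow_natCast (1 + |t| / T) 3
  have h2 : 1 / T ^ 3 * (1 / (1 + |t| / T) ^ 3) = 1 / (T + |t|) ^ 3 := by
    have h3 : T + |t| = T * (1 + |t| / T) := by field_simp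
    rw [h3, mul_pow]
    have h4 : (1 + |t| / T) ≠ 0 := by positivity
    field_simp
  rw [h1, h2, mul_one_div, div_le_div_iff₀ (by positivity) (by positivity)]
  have h5 : (T + |t|) ^ 3 ≤ (2 * |t|) ^ 3 := pow_le_pow_left₀ (by positivity) (by linarith) 3
  calc 2 * (T + |t|) ^ 3 ≤ 2 * (2 * |t|) ^ 3 := by linarith
    _ = 16 * |t| ^ 3 := by ring

theorem smooth_two : ∃ C : ℝ, 1 ≤ C ∧ ∀ (a : ℕ → ℂ) (β B1 B2 T : ℝ), 1 < β → β ≤ 2 → LSeriesSummable a (β : ℂ) →
    0 ≤ B1 → 0 ≤ B2 → 1 ≤ T → (∀ τ : ℝ, |τ| ≤ T → ‖LSeries a (β + τ * Complex.I)‖ ≤ B1) →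
    (∀ τ : ℝ, ‖LSeries a (β + τ * Complex.I)‖ ≤ B2) → ∀ N : ℕ, 1 ≤ N →
    ‖∑ n ∈ Icc 1 N, a n * ((om ((n : ℝ) / N) : ℝ) : ℂ)‖ ≤ C * (N : ℝ) ^ β * (B1 + B2 / T ^ 2) := by
  obtain ⟨I3, hI3⟩ : ∃ I3 : ℝ, I3 = ∫ t : ℝ, (1 + ‖t‖) ^ (-(3 : ℝ)) := ⟨_, rfl⟩
  have hI3nn : 0 ≤ I3 := by
    rw [hI3]; exact integral_nonneg (fun t => by positivity)
  have hint3 : Integrable (fun t : ℝ => (1 + ‖t‖) ^ (-(3 : ℝ))) :=
    integrable_one_add_norm (by simp)
  refine ⟨0.4386 * Real.pi + 16 * I3 + 1, ?_, ?_⟩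
  · have := Real.pi_pos
    have h1 : 0 ≤ 0.4386 * Real.pi := by positivity
    linarith
  intro a β B1 B2 T hβ1 hβ2 hs hB1 hB2 hT hb1 hb2 N hN
  have hT0 : 0 < T := by linarith
  have hN0 : (0 : ℝ) < N := by exact_mod_cast (by omega : 0 < N)
  rw [smTwo_identity a β (by linarith) N hN hs]
  have hintT : Integrable (fun t : ℝ => (1 + ‖t / T‖) ^ (-(3 : ℝ))) :=
    hint3.comp_div hT0.ne'
  have hintval : ∫ t : ℝ, (1 + ‖t / T‖) ^ (-(3 : ℝ)) = T * I3 := by
    have := MeasureTheory.Measure.integral_comp_div (fun t : ℝ => (1 + ‖t‖) ^ (-(3 : ℝ))) T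
    rw [this, abs_of_pos hT0, smul_eq_mul, hI3]
  have hbound : ‖∫ t : ℝ, KK β t * ((N : ℂ) ^ (t * Complex.I) *
      LSeries a ((β : ℂ) + t * Complex.I))‖ ≤ ∫ t : ℝ, (B1 * (0.4386 * (1 + t ^ 2)⁻¹) +
        B2 * (16 * (1 / T ^ 3 * (1 + ‖t / T‖) ^ (-(3 : ℝ))))) := by
    apply norm_integral_le_of_norm_le
      (((integrable_inv_one_add_sq.const_mul 0.4386).const_mul B1).add
        (((hintT.const_mul (1 / T ^ 3)).const_mul 16).const_mul B2))
    refine Filter.Eventually.of_forall fun t => ?_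
    rw [norm_mul, norm_mul, Complex.norm_natCast_cpow_of_pos (by omega)]
    have h1 : ((t : ℂ) * Complex.I).re = 0 := by simp
    rw [h1, Real.rpow_zero, one_mul]
    have hnn1 : 0 ≤ B1 * (0.4386 * (1 + t ^ 2)⁻¹) := by positivity
    have hnn2 : 0 ≤ B2 * (16 * (1 / T ^ 3 * (1 + ‖t / T‖) ^ (-(3 : ℝ)))) := by positivity
    rcases le_or_gt |t| T with ht | ht
    · have h2 : ‖KK β t‖ ≤ 0.4386 * (1 + t ^ 2)⁻¹ := by
        have := norm_KK_le β t (by linarith)
        rwa [div_eq_mul_inv] at this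
      have h3 := hb1 t ht
      calc ‖KK β t‖ * ‖LSeries a ((β : ℂ) + t * Complex.I)‖
          ≤ 0.4386 * (1 + t ^ 2)⁻¹ * B1 := by gcongr
        _ = B1 * (0.4386 * (1 + t ^ 2)⁻¹) := by ring
        _ ≤ _ := le_add_of_nonneg_right hnn2
    · have ht0 : t ≠ 0 := by
        intro h
        rw [h, abs_zero] at ht
        linarith
      have h2 := (norm_KK_le' β t (by linarith) ht0).trans (smTwo_tail hT ht)
      have h3 := hb2 t
      calc ‖KK β t‖ * ‖LSeries a ((β : ℂ) + t * Complex.I)‖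
          ≤ 16 * (1 / T ^ 3 * (1 + ‖t / T‖) ^ (-(3 : ℝ))) * B2 := by gcongr
        _ = B2 * (16 * (1 / T ^ 3 * (1 + ‖t / T‖) ^ (-(3 : ℝ)))) := by ring
        _ ≤ _ := le_add_of_nonneg_left hnn1
  rw [integral_add ((integrable_inv_one_add_sq.const_mul 0.4386).const_mul B1)
        (((hintT.const_mul (1 / T ^ 3)).const_mul 16).const_mul B2),
    integral_const_mul, integral_const_mul, integral_univ_inv_one_add_sq,
    integral_const_mul, integral_const_mul, integral_const_mul, hintval] at hbound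
  have hval : B1 * (0.4386 * Real.pi) + B2 * (16 * (1 / T ^ 3 * (T * I3))) ≤
      (0.4386 * Real.pi + 16 * I3 + 1) * (B1 + B2 / T ^ 2) := by
    have h1 : B2 * (16 * (1 / T ^ 3 * (T * I3))) = 16 * I3 * (B2 / T ^ 2) := by
      field_simp
    rw [h1]
    have h2 : 0 ≤ B2 / T ^ 2 := by positivity
    have h3 : 0 ≤ 0.4386 * Real.pi := by positivity
    have h4 : 0 ≤ 16 * I3 * B1 := by positivity
    have h5 : 0 ≤ 0.4386 * Real.pi * (B2 / T ^ 2) := by positivity
    linarith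
  rw [norm_mul, norm_mul]
  have e1 : ‖(((N : ℝ) ^ β : ℝ) : ℂ)‖ = (N : ℝ) ^ β := by
    rw [Complex.norm_real, Real.norm_of_nonneg (by positivity)]
  have e2 : ‖(1 / (2 * Real.pi) : ℂ)‖ = 1 / (2 * Real.pi) := by
    have : (1 / (2 * Real.pi) : ℂ) = ((1 / (2 * Real.pi) : ℝ) : ℂ) := by push_cast; rfl
    rw [this, Complex.norm_real, Real.norm_of_nonneg (by positivity)]
  rw [e1, e2]
  have hpi0 : 0 < 1 / (2 * Real.pi) := by positivity
  have hpi1 : 1 / (2 * Real.pi) ≤ 1 := by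
    rw [div_le_one (by positivity)]
    have := Real.pi_gt_three
    linarith
  have hC0 : 0 ≤ (0.4386 * Real.pi + 16 * I3 + 1) * (B1 + B2 / T ^ 2) := by positivity
  calc (N : ℝ) ^ β * (1 / (2 * Real.pi)) * ‖∫ t : ℝ, KK β t * ((N : ℂ) ^ (t * Complex.I) *
        LSeries a ((β : ℂ) + t * Complex.I))‖
      ≤ (N : ℝ) ^ β * 1 * ((0.4386 * Real.pi + 16 * I3 + 1) * (B1 + B2 / T ^ 2)) := by
        gcongr
        exact hbound.trans hval
    _ = (0.4386 * Real.pi + 16 * I3 + 1) * (N : ℝ) ^ β * (B1 + B2 / T ^ 2) := by ring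

end Pool.Agent.H97.VK

end

section

/-!
PK MB: the Mertens product.

`mertens_lower`: naturals 65536 ≤ w ≤ z: ∑_{w<p≤z} 1/p ≥ log(log z/log w) - 0.25/log w.
 (`Gold.Mt_osc` with the roles of n, m exchanged gives Mt z - Mt w ≥ log z - log w - 0.2295 (Mt n = ∑_{d≤n} Λ(d)/d);
  Abel summation against 1/log as in `Gold.mertens_gen`.  The prime powers with exponent at least two are handled by the
  bound ψ(m) - θ(m) ≤ 2 ψ(√m) ≤ 2 log 3 √m and another Abel summation: their total is ≤ 4 log 3/(√w log w).)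
`prod_65536`: ∏_{p ≤ 65536} (1 - 1/p) ≤ 0.05065   (kernel computation).
`prod_z`: for natural al ≥ 16: ∏_{p ≤ 2^al} (1 - 1/p) ≤ 0.575/(al log 2).
-/

set_option autoImplicit false

namespace Pool.Agent.H91.PK

open Finset Gold
open scoped ArithmeticFunction.vonMangoldt

/-! ### The prime powers -/

theorem MB_psi_sub_theta (m : ℕ) :
    Chebyshev.psi m - Chebyshev.theta m ≤ 2 * Real.log 3 * Real.sqrt m := by
  have h0 : Chebyshev.psi m - Chebyshev.theta m
      = ∑ p ∈ Nat.primesLE m.sqrt, ((Nat.log p m : ℝ) * Real.log p - Real.log p) := by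
    rw [Chebyshev.psi_eq_sum_mul_log_prime, Chebyshev.theta_eq_sum_primesLE_log, ← sum_sub_distrib]
    have hsub : Nat.primesLE m.sqrt ⊆ Nat.primesLE m := by
      intro p hp
      rw [Nat.mem_primesLE] at hp ⊢
      exact ⟨hp.1.trans (Nat.sqrt_le_self m), hp.2⟩
    symm
    apply sum_subset hsub
    intro p hp hnp
    rw [Nat.mem_primesLE] at hp hnp
    have hlt : m.sqrt < p := by
      by_contra h
      push Not at h
      exact hnp ⟨h, hp.2⟩
    have h1 : m < p * p := Nat.sqrt_lt.1 hlt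
    have h2 : Nat.log p m = 1 := by
      rw [Nat.log_eq_iff]
      · refine ⟨by simp; exact hp.1, by rw [sq]; exact h1⟩
      · left; norm_num
    rw [h2]; simp
  rw [h0]
  have h1 : ∀ p ∈ Nat.primesLE m.sqrt, ((Nat.log p m : ℝ) * Real.log p - Real.log p)
      ≤ 2 * ((Nat.log p m.sqrt : ℝ) * Real.log p) := by
    intro p hp
    rw [Nat.mem_primesLE] at hp
    have hp1 := hp.2.one_lt
    have h2 : m < p ^ (2 * Nat.log p m.sqrt + 2) := by
      have h3 := Nat.lt_pow_succ_log_self hp1 m.sqrt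
      have h4 := Nat.sqrt_lt.1 h3
      calc m < _ := h4
        _ = p ^ (2 * Nat.log p m.sqrt + 2) := by rw [← pow_add]; congr 1; omega
    have h5 : Nat.log p m ≤ 2 * Nat.log p m.sqrt + 1 := by
      have := Nat.log_lt_of_lt_pow' (by omega) h2
      omega
    have h6 : (Nat.log p m : ℝ) ≤ 2 * (Nat.log p m.sqrt : ℝ) + 1 := by exact_mod_cast h5
    have h7 : 0 ≤ Real.log p := Real.log_natCast_nonneg p
    nlinarith
  refine (sum_le_sum h1).trans ?_
  rw [← mul_sum]
  have h2 := Chebyshev.psi_eq_sum_mul_log_prime (m.sqrt)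
  have h3 := psi_le_log_three m.sqrt
  have h4 : (m.sqrt : ℝ) ≤ Real.sqrt m := Real.nat_sqrt_le_real_sqrt
  have h5 : 0 ≤ Real.log 3 := Real.log_nonneg (by norm_num)
  rw [h2] at h3
  nlinarith

theorem MB_nonprime (w m : ℕ) :
    ∑ k ∈ Ioc w m, (if k.Prime then 0 else Λ k) ≤ 2 * Real.log 3 * Real.sqrt m := by
  have h1 : ∑ k ∈ Ioc w m, (if k.Prime then 0 else Λ k) ≤ ∑ k ∈ Ioc 0 m, (if k.Prime then 0 else Λ k) := by
    apply sum_le_sum_of_subset_of_nonneg
    · intro k hk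
      rw [mem_Ioc] at hk ⊢
      exact ⟨by omega, hk.2⟩
    · intro k _ _
      split_ifs
      · exact le_rfl
      · exact ArithmeticFunction.vonMangoldt_nonneg
  refine h1.trans (le_trans (le_of_eq ?_) (MB_psi_sub_theta m))
  rw [Chebyshev.psi, Chebyshev.theta, sum_filter]
  simp only [Nat.floor_natCast]
  rw [← sum_sub_distrib]
  apply sum_congr rfl
  intro k _
  split_ifs with h
  · rw [ArithmeticFunction.vonMangoldt_apply_prime h]; ring
  · ring

theorem MB_log_pos {w : ℕ} (hw : 2 ≤ w) {k : ℕ} (hk : w ≤ k) : 0 < Real.log k := by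
  apply Real.log_pos
  exact_mod_cast (by omega : 1 < k)

theorem MB_powers {w z : ℕ} (hw : 2 ≤ w) (hwz : w ≤ z) :
    ∑ k ∈ Ioc w z, (if k.Prime then 0 else Λ k) * (1 / (k * Real.log k))
      ≤ 4 * Real.log 3 / (Real.sqrt w * Real.log w) := by
  have hw0 : (0 : ℝ) < w := by exact_mod_cast (by omega : 0 < w)
  have hsw : 0 < Real.sqrt w := Real.sqrt_pos.2 hw0
  have hlw := MB_log_pos hw le_rfl
  have l3 : 0 ≤ Real.log 3 := Real.log_nonneg (by norm_num)
  set C : ℝ := 2 * Real.log 3 with hC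
  have hC0 : 0 ≤ C := by positivity
  have h1 : ∑ k ∈ Ioc w z, (if k.Prime then 0 else Λ k) * (1 / (k * Real.log k))
      ≤ ∑ k ∈ Ioc w z, (C * (Real.sqrt k - Real.sqrt (k - 1 : ℕ))) * (1 / (k * Real.log k))
        + (C * Real.sqrt w) * (1 / (((w + 1 : ℕ) : ℝ) * Real.log ((w + 1 : ℕ) : ℝ))) := by
    apply abel_le (f := fun k : ℕ => 1 / ((k : ℝ) * Real.log k)) hwz (by positivity)
    · intro k hk1 _
      have := MB_log_pos hw hk1.le
      positivity
    · have := MB_log_pos hw (Nat.le_succ w)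
      positivity
    · intro k hk1 _
      have h2 := MB_log_pos hw hk1.le
      have h3 : (0 : ℝ) < k := by exact_mod_cast (by omega : 0 < k)
      apply one_div_le_one_div_of_le (by positivity)
      apply mul_le_mul
      · push_cast; linarith
      · apply Real.log_le_log h3
        push_cast; linarith
      · exact h2.le
      · positivity
    · intro m hm1 _
      have e1 : ∑ k ∈ Ioc w m, (C * (Real.sqrt k - Real.sqrt (k - 1 : ℕ)))
          = C * (Real.sqrt m - Real.sqrt w) := by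
        rw [← mul_sum]
        congr 1
        induction m, hm1 using Nat.le_induction with
        | base => simp
        | succ m hm ih =>
          rw [sum_Ioc_succ_top (by omega), ih (by omega)]
          simp
      rw [e1]
      have := MB_nonprime w m
      linarith
  have h2 : ∀ m, w ≤ m → ∑ k ∈ Ioc w m, (C * (Real.sqrt k - Real.sqrt (k - 1 : ℕ))) * (1 / (k * Real.log k))
      ≤ C / Real.log w * (1 / Real.sqrt w - 1 / Real.sqrt m) := by
    intro m hm
    induction m, hm using Nat.le_induction with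
    | base => simp
    | succ m hm ih =>
      rw [sum_Ioc_succ_top (by omega)]
      have hm0 : (0 : ℝ) < m := by exact_mod_cast (by omega : 0 < m)
      have hs0 : 0 < Real.sqrt m := Real.sqrt_pos.2 hm0
      have hs1 : Real.sqrt m ≤ Real.sqrt ((m + 1 : ℕ) : ℝ) := by
        apply Real.sqrt_le_sqrt; push_cast; linarith
      have hs2 : 0 < Real.sqrt ((m + 1 : ℕ) : ℝ) := by linarith
      have hl := MB_log_pos hw (show w ≤ m + 1 by omega)
      have hl2 : Real.log w ≤ Real.log ((m + 1 : ℕ) : ℝ) := by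
        apply Real.log_le_log hw0
        exact_mod_cast (by omega : w ≤ m + 1)
      have hss : ((m + 1 : ℕ) : ℝ) = Real.sqrt ((m + 1 : ℕ) : ℝ) * Real.sqrt ((m + 1 : ℕ) : ℝ) :=
        (Real.mul_self_sqrt (by positivity)).symm
      have key : (C * (Real.sqrt ((m + 1 : ℕ) : ℝ) - Real.sqrt (m + 1 - 1 : ℕ)))
            * (1 / (((m + 1 : ℕ) : ℝ) * Real.log ((m + 1 : ℕ) : ℝ)))
          ≤ C / Real.log w * (1 / Real.sqrt m - 1 / Real.sqrt ((m + 1 : ℕ) : ℝ)) := by
        rw [Nat.add_sub_cancel]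
        have a1 : 1 / (((m + 1 : ℕ) : ℝ) * Real.log ((m + 1 : ℕ) : ℝ))
            ≤ 1 / (Real.sqrt m * Real.sqrt ((m + 1 : ℕ) : ℝ) * Real.log w) := by
          apply one_div_le_one_div_of_le (by positivity)
          apply mul_le_mul _ hl2 hlw.le (by positivity)
          exact (mul_le_mul_of_nonneg_right hs1 hs2.le).trans hss.ge
        have a2 : 0 ≤ C * (Real.sqrt ((m + 1 : ℕ) : ℝ) - Real.sqrt m) :=
          mul_nonneg hC0 (by linarith)
        refine (mul_le_mul_of_nonneg_left a1 a2).trans (le_of_eq ?_)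
        field_simp
      have e : C / Real.log w * (1 / Real.sqrt w - 1 / Real.sqrt ((m + 1 : ℕ) : ℝ))
          = C / Real.log w * (1 / Real.sqrt w - 1 / Real.sqrt m)
            + C / Real.log w * (1 / Real.sqrt m - 1 / Real.sqrt ((m + 1 : ℕ) : ℝ)) := by ring
      rw [e]
      linarith
  have h3 := h2 z hwz
  have h4 : C / Real.log w * (1 / Real.sqrt w - 1 / Real.sqrt z) ≤ C / (Real.sqrt w * Real.log w) := by
    have hz0 : (0 : ℝ) < z := by exact_mod_cast (by omega : 0 < z)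
    have : 0 ≤ 1 / Real.sqrt z := by positivity
    calc C / Real.log w * (1 / Real.sqrt w - 1 / Real.sqrt z) ≤ C / Real.log w * (1 / Real.sqrt w) :=
          mul_le_mul_of_nonneg_left (by linarith) (by positivity)
      _ = C / (Real.sqrt w * Real.log w) := by field_simp
  have h5 : (C * Real.sqrt w) * (1 / (((w + 1 : ℕ) : ℝ) * Real.log ((w + 1 : ℕ) : ℝ)))
      ≤ C / (Real.sqrt w * Real.log w) := by
    have a1 : 1 / (((w + 1 : ℕ) : ℝ) * Real.log ((w + 1 : ℕ) : ℝ)) ≤ 1 / (w * Real.log w) := by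
      apply one_div_le_one_div_of_le (by positivity)
      apply mul_le_mul
      · push_cast; linarith
      · apply Real.log_le_log hw0
        push_cast; linarith
      · exact hlw.le
      · positivity
    refine (mul_le_mul_of_nonneg_left a1 (by positivity)).trans (le_of_eq ?_)
    have hss : (w : ℝ) = Real.sqrt w * Real.sqrt w := (Real.mul_self_sqrt (by positivity)).symm
    rw [mul_one_div, div_eq_div_iff (by positivity) (by positivity)]
    calc C * Real.sqrt w * (Real.sqrt w * Real.log w) = C * (Real.sqrt w * Real.sqrt w * Real.log w) := by ring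
      _ = C * (w * Real.log w) := by rw [← hss]
  have e : 4 * Real.log 3 / (Real.sqrt w * Real.log w) = C / (Real.sqrt w * Real.log w) + C / (Real.sqrt w * Real.log w) := by
    rw [hC]; ring
  rw [e]
  linarith

/-! ### The lower bound -/

theorem MB_loglog {w z : ℕ} (hw : 2 ≤ w) (hwz : w ≤ z) :
    Real.log (Real.log z) - Real.log (Real.log w) - 1 / (w * Real.log w)
      ≤ ∑ k ∈ Ioc w z, (Real.log k - Real.log (k - 1 : ℕ)) * (1 / Real.log k) := by
  have hw0 : (0 : ℝ) < w := by exact_mod_cast (by omega : 0 < w)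
  have h1 : ∀ m, w ≤ m → Real.log (Real.log m) - Real.log (Real.log w)
        - 1 / w * (1 / Real.log w - 1 / Real.log m)
      ≤ ∑ k ∈ Ioc w m, (Real.log k - Real.log (k - 1 : ℕ)) * (1 / Real.log k) := by
    intro m hm
    induction m, hm using Nat.le_induction with
    | base => simp
    | succ m hm ih =>
      rw [sum_Ioc_succ_top (by omega), Nat.add_sub_cancel]
      have hm0 : (0 : ℝ) < m := by exact_mod_cast (by omega : 0 < m)
      have a1 := MB_log_pos hw hm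
      have a2 := MB_log_pos hw (show w ≤ m + 1 by omega)
      have a3 : Real.log m ≤ Real.log ((m + 1 : ℕ) : ℝ) := by
        apply Real.log_le_log hm0; push_cast; linarith
      have b1 := Real.log_le_sub_one_of_pos (x := Real.log ((m + 1 : ℕ) : ℝ) / Real.log m) (by positivity)
      rw [Real.log_div a2.ne' a1.ne'] at b1
      have b2 : Real.log ((m + 1 : ℕ) : ℝ) / Real.log m - 1
          = (Real.log ((m + 1 : ℕ) : ℝ) - Real.log m) * (1 / Real.log ((m + 1 : ℕ) : ℝ))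
            + (Real.log ((m + 1 : ℕ) : ℝ) - Real.log m) * (1 / Real.log m - 1 / Real.log ((m + 1 : ℕ) : ℝ)) := by
        field_simp
        ring
      have b3 : Real.log ((m + 1 : ℕ) : ℝ) - Real.log m ≤ 1 / w := by
        have h := Real.log_le_sub_one_of_pos (x := ((m + 1 : ℕ) : ℝ) / m) (by positivity)
        rw [Real.log_div (by positivity) hm0.ne'] at h
        have e : ((m + 1 : ℕ) : ℝ) / m - 1 = 1 / m := by push_cast; field_simp; ring
        have h2 : 1 / (m : ℝ) ≤ 1 / w := one_div_le_one_div_of_le hw0 (by exact_mod_cast hm)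
        linarith
      have b4 : 0 ≤ 1 / Real.log m - 1 / Real.log ((m + 1 : ℕ) : ℝ) := by
        have := one_div_le_one_div_of_le a1 a3
        linarith
      have b5 := mul_le_mul_of_nonneg_right b3 b4
      have e2 : 1 / (w : ℝ) * (1 / Real.log w - 1 / Real.log ((m + 1 : ℕ) : ℝ))
          = 1 / (w : ℝ) * (1 / Real.log w - 1 / Real.log m)
            + 1 / (w : ℝ) * (1 / Real.log m - 1 / Real.log ((m + 1 : ℕ) : ℝ)) := by ring
      rw [e2]
      linarith
  have h2 := h1 z hwz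
  have h3 := MB_log_pos hw hwz
  have h4 := MB_log_pos hw le_rfl
  have h5 : 1 / (w : ℝ) * (1 / Real.log w - 1 / Real.log z) ≤ 1 / (w * Real.log w) := by
    have : 0 ≤ 1 / Real.log z := by positivity
    calc 1 / (w : ℝ) * (1 / Real.log w - 1 / Real.log z) ≤ 1 / (w : ℝ) * (1 / Real.log w) :=
          mul_le_mul_of_nonneg_left (by linarith) (by positivity)
      _ = 1 / (w * Real.log w) := by field_simp
  linarith

theorem mertens_lower {w z : ℕ} (hw : 65536 ≤ w) (hwz : w ≤ z) :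
    Real.log (Real.log z / Real.log w) - 0.25 / Real.log w ≤ ∑ p ∈ Pr w z, (1 : ℝ) / p := by
  have hw2 : 2 ≤ w := by omega
  have hw0 : (65536 : ℝ) ≤ w := by exact_mod_cast hw
  have hwp : (0 : ℝ) < w := by linarith
  have hlw := MB_log_pos hw2 le_rfl
  have hlz := MB_log_pos hw2 hwz
  -- Abel summation
  have h1 : ∑ k ∈ Ioc w z, (Real.log k - Real.log (k - 1 : ℕ)) * (1 / Real.log k)
      ≤ ∑ k ∈ Ioc w z, (Λ k / k) * (1 / Real.log k) + 0.2295 * (1 / Real.log ((w + 1 : ℕ) : ℝ)) := by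
    apply abel_le (f := fun k : ℕ => 1 / Real.log k) hwz (by norm_num)
    · intro k hk1 _
      have := MB_log_pos hw2 hk1.le
      positivity
    · have := MB_log_pos hw2 (Nat.le_succ w)
      positivity
    · intro k hk1 _
      have h2 := MB_log_pos hw2 hk1.le
      apply one_div_le_one_div_of_le h2
      apply Real.log_le_log
      · exact_mod_cast (by omega : 0 < k)
      · push_cast; linarith
    · intro m hm1 _
      have e1 : ∑ k ∈ Ioc w m, (Real.log k - Real.log (k - 1 : ℕ)) = Real.log m - Real.log w := by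
        induction m, hm1 using Nat.le_induction with
        | base => simp
        | succ m hm ih =>
          rw [sum_Ioc_succ_top (by omega), ih (by omega)]
          simp
      have e3 : Mt m - Mt w = ∑ k ∈ Ioc w m, Λ k / k := by
        unfold Mt
        rw [← sum_Ioc_consecutive _ (Nat.zero_le w) hm1]
        ring
      have h2 := Mt_osc (n := m) (m := w) (by omega) hw
      rw [e1, ← e3]
      linarith
  -- splitting off the primes
  have h2 : ∑ k ∈ Ioc w z, (Λ k / k) * (1 / Real.log k)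
      = ∑ p ∈ Pr w z, (1 : ℝ) / p + ∑ k ∈ Ioc w z, (if k.Prime then 0 else Λ k) * (1 / (k * Real.log k)) := by
    unfold Pr
    rw [sum_filter, ← sum_add_distrib]
    apply sum_congr rfl
    intro k hk
    rw [mem_Ioc] at hk
    have hk0 : (0 : ℝ) < k := by exact_mod_cast (by omega : 0 < k)
    have hl := MB_log_pos hw2 hk.1.le
    split_ifs with hp
    · rw [ArithmeticFunction.vonMangoldt_apply_prime hp]
      field_simp
      ring
    · field_simp
      ring
  have h3 := MB_powers hw2 hwz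
  have h4 := MB_loglog hw2 hwz
  have h5 : 0.2295 * (1 / Real.log ((w + 1 : ℕ) : ℝ)) ≤ 0.2295 / Real.log w := by
    rw [mul_one_div]
    apply div_le_div_of_nonneg_left (by norm_num) hlw
    apply Real.log_le_log hwp
    push_cast; linarith
  have l3 : Real.log 3 ≤ 1.098617 := by
    have := log_three_bounds.2
    have l2 := Real.log_two_lt_d9
    linarith
  have hs : (256 : ℝ) ≤ Real.sqrt w := by
    rw [show (256 : ℝ) = Real.sqrt 65536 by
      rw [show (65536 : ℝ) = 256 ^ 2 by norm_num, Real.sqrt_sq (by norm_num)]]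
    exact Real.sqrt_le_sqrt hw0
  have h6 : 4 * Real.log 3 / (Real.sqrt w * Real.log w) ≤ 0.0172 / Real.log w := by
    rw [div_le_div_iff₀ (by positivity) hlw]
    have : 4 * Real.log 3 ≤ 0.0172 * Real.sqrt w := by linarith
    nlinarith
  have h7 : 1 / (w * Real.log w) ≤ 0.0001 / Real.log w := by
    rw [div_le_div_iff₀ (by positivity) hlw]
    have : 1 ≤ 0.0001 * (w : ℝ) := by linarith
    nlinarith
  have h8 : 0.25 / Real.log w = 0.2295 / Real.log w + 0.0172 / Real.log w + 0.0001 / Real.log w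
      + 0.0032 / Real.log w := by ring
  have h9 : 0 ≤ 0.0032 / Real.log w := by positivity
  rw [Real.log_div hlz.ne' hlw.ne']
  rw [h2] at h1
  linarith

/-! ### The product up to 65536 -/

end Pool.Agent.H91.PK

end

section

/-!
# GB PbCard: a lower bound for the number of primes in `(P, 2P]` (elementary, central binomial coefficient)
-/

set_option autoImplicit false

namespace Pool.Agent.H76.GB

open Finset
open Pool.Agent.H35.W

private theorem pbcard_binom (n : ℕ) (hn : 2 < n) :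
    n.centralBinom ≤ (2 * n) ^ (Nat.sqrt (2 * n) + (pb n).card) * 4 ^ (2 * n / 3) := by
  have h0 : 0 < 2 * n := by omega
  have h1 : n.centralBinom =
      ∏ p ∈ (range (2 * n + 1)).filter Nat.Prime, p ^ n.centralBinom.factorization p := by
    conv_lhs => rw [← Nat.prod_pow_factorization_centralBinom n]
    symm
    refine Finset.prod_filter_of_ne fun p _ h => ?_
    contrapose h
    rw [Nat.factorization_eq_zero_of_not_prime n.centralBinom h, pow_zero]
  have h2 : ∀ p ∈ (range (2 * n + 1)).filter Nat.Prime, p ^ n.centralBinom.factorization p ≤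
      (if p ≤ Nat.sqrt (2 * n) ∨ n < p then 2 * n else 1) * (if p ≤ 2 * n / 3 then p else 1) := by
    intro p hp
    rw [mem_filter, mem_range] at hp
    have hp1 : 1 ≤ p := hp.2.one_lt.le
    have hb : 1 ≤ (if p ≤ 2 * n / 3 then p else 1) := by split_ifs <;> omega
    have hf : p ^ n.centralBinom.factorization p ≤ 2 * n := Nat.pow_factorization_choose_le h0
    by_cases ha : p ≤ Nat.sqrt (2 * n) ∨ n < p
    · rw [if_pos ha]
      nlinarith
    · rw [if_neg ha, one_mul]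
      push Not at ha
      have h3 : n.centralBinom.factorization p ≤ 1 :=
        Nat.factorization_choose_le_one (Nat.sqrt_lt'.mp ha.1)
      by_cases hc : p ≤ 2 * n / 3
      · rw [if_pos hc]
        exact (Nat.pow_le_pow_right hp1 h3).trans (pow_one p).le
      · rw [if_neg hc]
        have h4 : n.centralBinom.factorization p = 0 :=
          Nat.factorization_centralBinom_of_two_mul_self_lt_three_mul hn ha.2 (by omega)
        rw [h4, pow_zero]
  rw [h1]
  refine (Finset.prod_le_prod' h2).trans ?_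
  rw [Finset.prod_mul_distrib]
  refine Nat.mul_le_mul ?_ ?_
  · rw [← Finset.prod_filter, Finset.prod_const]
    refine Nat.pow_le_pow_right h0 ?_
    have h5 : ((range (2 * n + 1)).filter Nat.Prime).filter (fun p => p ≤ Nat.sqrt (2 * n) ∨ n < p) ⊆
        Icc 1 (Nat.sqrt (2 * n)) ∪ pb n := by
      intro p hp
      simp only [mem_filter, mem_range] at hp
      unfold pb
      simp only [mem_union, mem_Icc, mem_filter, mem_Ioc]
      have := hp.1.2.one_lt
      rcases hp.2 with h | h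
      · left
        omega
      · right
        exact ⟨by omega, hp.1.2⟩
    refine (card_le_card h5).trans ((card_union_le _ _).trans ?_)
    rw [Nat.card_Icc]
    omega
  · rw [← Finset.prod_filter]
    refine le_trans ?_ (primorial_le_four_pow (2 * n / 3))
    unfold primorial
    refine Finset.prod_le_prod_of_subset_of_one_le' ?_ ?_
    · intro p hp
      simp only [mem_filter, mem_range] at hp ⊢
      exact ⟨by omega, hp.1.2⟩
    · intro p hp _
      exact (mem_filter.1 hp).2.one_lt.le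

theorem pb_card : ∃ P0 : ℕ, ∀ P : ℕ, P0 ≤ P → (P : ℝ) / (8 * Real.log P) ≤ ((pb P).card : ℝ) := by
  have h1 := (isLittleO_log_rpow_atTop (r := 1 / 4) (by norm_num)).bound (c := 1)
    (by norm_num)
  obtain ⟨x1, hx1⟩ := Filter.eventually_atTop.1 (tendsto_natCast_atTop_atTop (R := ℝ) |>.eventually h1)
  refine ⟨max x1 (10 ^ 12), fun P hP => ?_⟩
  have hPx : x1 ≤ P := (le_max_left _ _).trans hP
  have hP1 : 10 ^ 12 ≤ P := (le_max_right _ _).trans hP
  have hPR : (10 : ℝ) ^ 12 ≤ P := by exact_mod_cast hP1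
  have hP0 : (0 : ℝ) < P := by linarith [pow_pos (show (0:ℝ) < 10 by norm_num) 12]
  obtain ⟨k, hk⟩ : ∃ k, k = (pb P).card := ⟨_, rfl⟩
  have hlogP : Real.log P ≤ (P : ℝ) ^ (1 / 4 : ℝ) := by
    have h := hx1 P hPx
    rw [Real.norm_eq_abs, Real.norm_eq_abs, one_mul] at h
    exact (le_abs_self _).trans (h.trans (le_of_eq (abs_of_nonneg (by positivity))))
  have hL1 : 1 ≤ Real.log P := by
    rw [Real.le_log_iff_exp_le hP0]
    linarith [Real.exp_one_lt_d9, show (2.7182818286 : ℝ) < 10 ^ 12 by norm_num]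
  have b1 : (4 : ℝ) ^ P < P * ((2 * P : ℕ) : ℝ) ^ (Nat.sqrt (2 * P) + k) * 4 ^ (2 * P / 3) := by
    have h2 := Nat.four_pow_lt_mul_centralBinom P (by omega)
    have h3 := pbcard_binom P (by omega)
    rw [← hk] at h3
    have h4 : 4 ^ P < P * ((2 * P) ^ (Nat.sqrt (2 * P) + k) * 4 ^ (2 * P / 3)) :=
      h2.trans_le (Nat.mul_le_mul_left _ h3)
    rw [← mul_assoc] at h4
    exact_mod_cast h4
  have b2 := Real.log_lt_log (by positivity) b1
  rw [Real.log_mul (by positivity) (by positivity), Real.log_mul (by positivity) (by positivity),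
    Real.log_pow, Real.log_pow, Real.log_pow] at b2
  have l4 : Real.log 4 = 2 * Real.log 2 := by
    rw [show (4 : ℝ) = 2 ^ 2 by norm_num, Real.log_pow]
    norm_num
  have l2a := Real.log_two_gt_d9
  have l2b := Real.log_two_lt_d9
  have b3 : ((2 * P / 3 : ℕ) : ℝ) ≤ 2 * P / 3 := by
    have := @Nat.cast_div_le ℝ _ _ _ (2 * P) 3
    push_cast at this
    exact this
  have b4 : Real.log ((2 * P : ℕ) : ℝ) ≤ 2 * Real.log P := by
    push_cast
    rw [Real.log_mul (by norm_num) hP0.ne']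
    linarith
  have b5 : ((Nat.sqrt (2 * P) : ℕ) : ℝ) ≤ 2 * (P : ℝ) ^ (1 / 2 : ℝ) := by
    have h5 : Nat.sqrt (2 * P) * Nat.sqrt (2 * P) ≤ 2 * P := Nat.sqrt_le _
    have h6 : ((Nat.sqrt (2 * P) : ℕ) : ℝ) * ((Nat.sqrt (2 * P) : ℕ) : ℝ) ≤ 2 * P := by exact_mod_cast h5
    have h7 : (P : ℝ) ^ (1 / 2 : ℝ) * (P : ℝ) ^ (1 / 2 : ℝ) = P := by
      rw [← Real.rpow_add hP0]
      norm_num
    have h8 : 0 ≤ (P : ℝ) ^ (1 / 2 : ℝ) := by positivity
    by_contra hc
    push Not at hc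
    nlinarith [mul_pos_of_neg_of_neg (sub_neg.2 hc) (sub_neg.2 hc)]
  have hq : (P : ℝ) ^ (1 / 4 : ℝ) * (P : ℝ) ^ (1 / 4 : ℝ) = (P : ℝ) ^ (1 / 2 : ℝ) := by
    rw [← Real.rpow_add hP0]
    norm_num
  have hq2 : (P : ℝ) ^ (1 / 2 : ℝ) * (P : ℝ) ^ (1 / 4 : ℝ) * (P : ℝ) ^ (1 / 4 : ℝ) = P := by
    rw [mul_assoc, hq, ← Real.rpow_add hP0]
    norm_num
  have hq3 : (1000 : ℝ) ≤ (P : ℝ) ^ (1 / 4 : ℝ) := by
    have h9 := Real.rpow_le_rpow (by positivity) hPR (show (0 : ℝ) ≤ 1 / 4 by norm_num)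
    refine le_trans (le_of_eq ?_) h9
    rw [← Real.rpow_natCast, ← Real.rpow_mul (by norm_num)]
    norm_num
  set r : ℝ := (P : ℝ) ^ (1 / 2 : ℝ) with hr
  set t : ℝ := (P : ℝ) ^ (1 / 4 : ℝ) with ht
  have hr0 : 0 ≤ r := by positivity
  -- the main inequality
  have b6 : ((Nat.sqrt (2 * P) : ℕ) : ℝ) * Real.log ((2 * P : ℕ) : ℝ) ≤ 4 * (r * t) := by
    have hs0 : (0 : ℝ) ≤ ((Nat.sqrt (2 * P) : ℕ) : ℝ) := Nat.cast_nonneg _
    calc ((Nat.sqrt (2 * P) : ℕ) : ℝ) * Real.log ((2 * P : ℕ) : ℝ) ≤ (2 * r) * (2 * t) :=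
          mul_le_mul b5 (b4.trans (by linarith)) (Real.log_nonneg (by exact_mod_cast (by omega : 1 ≤ 2 * P)))
            (by positivity)
      _ = 4 * (r * t) := by ring
  have b7 : r * t * 1000 ≤ P := by
    rw [← hq2]
    exact mul_le_mul_of_nonneg_left hq3 (by positivity)
  have b8 : Real.log P ≤ r * t := by
    have : (1 : ℝ) ≤ r := by
      rw [← hq]
      nlinarith
    nlinarith
  have b9 : (k : ℝ) * Real.log ((2 * P : ℕ) : ℝ) ≤ k * (2 * Real.log P) :=
    mul_le_mul_of_nonneg_left b4 (Nat.cast_nonneg _)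
  push_cast at b2 b6 b9
  rw [l4] at b2
  have b10 : (2 * P / 3 : ℝ) * (2 * Real.log 2) = (P : ℝ) * (4 / 3 * Real.log 2) := by ring
  have b11 : ((2 * P / 3 : ℕ) : ℝ) * (2 * Real.log 2) ≤ (P : ℝ) * (4 / 3 * Real.log 2) := by
    rw [← b10]
    exact mul_le_mul_of_nonneg_right b3 (by linarith)
  rw [← hk, div_le_iff₀ (by positivity)]
  nlinarith

end Pool.Agent.H76.GB

end

section

/-!
# PROJECT VK, Part I.b: sieved Dirichlet characters

Notation: `L = log x`, `L9 x = L^{9/10}`, `LL x = log L`, `y = Yx x = ⌊exp(L^{9/10})⌋`.  A character `χ` mod `d` is replaced by the character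
`ch x χ` modulo `qm x d = d · y#` induced by it: `ch x χ n = χ(n)` if `n` has no prime factor `≤ y`, otherwise `0`.
The tools `Lk`, `Fk` (`∑ χ(n) (log n)^k n^{-s}`, `∑ Λ(n) χ(n) (log n)^k n^{-s}`) of EHA are applied to `ch x χ`.
-/

set_option autoImplicit false

namespace Pool.Agent.H97.VK

open Finset

/-- `(log x)^{9/10}` -/
noncomputable def L9 (x : ℕ) : ℝ := Real.log x ^ (9 / 10 : ℝ)

/-- `log log x` -/
noncomputable def LL (x : ℕ) : ℝ := Real.log (Real.log x)

/-- the sieving level -/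
noncomputable def Yx (x : ℕ) : ℕ := ⌊Real.exp (L9 x)⌋₊

/-- the modulus `d · y#` -/
noncomputable def qm (x d : ℕ) : ℕ := d * primorial (Yx x)

/-- the character modulo `qm x d` induced by `χ` -/
noncomputable def ch (x : ℕ) {d : ℕ} (χ : DirichletCharacter ℂ d) : DirichletCharacter ℂ (qm x d) :=
  DirichletCharacter.changeLevel (Dvd.intro _ rfl) χ

end Pool.Agent.H97.VK

end

section

/-!
# SP LamD: `lamR` as a divisor sum

`lam_div`: expand `ramS q n = ∑_{d | gcd(q,n)} d μ(q/d)` and exchange (compare `Pool/Agent/H87/WL/Sel1.lean`, `ps_eq`).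
`ramS_mul`: `gcd(q, k n) = gcd(q, n)` if `(k, q) = 1`.  `lamR_mul`: all `q ≤ R < k` are prime to the prime `k`.
`lam1_le`: if `d` is not squarefree all `μ(q) = 0` (`d | q`); otherwise for `q = d e` with `μ(q) ≠ 0` we have `(d, e) = 1`, `φ(q) = φ(d) φ(e)`:
`|lam1 R d| ≤ (d/φ(d)) ∑_{e ≤ R} 1/φ(e)` and `d/φ(d) = ∑_{l | d} 1/φ(l) (l squarefree) ≤ ∑_{l ≤ R} 1/φ(l)`
(e.g. `φ(d) ∑_{l | d} μ(l)^2/φ(l) = d`; for squarefree `d` this is `∑_{l | d} φ(d)/φ(l) = ∑_{l | d} φ(d/l) = d`, `Nat.sum_totient`).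
`lam1_SR`: `∑_{d ≤ R, (d,N)=1} lam1 R d/φ(d) = ∑_{q ≤ R} (μ(q)/φ(q)) ∑_{d | q, (d,N)=1} d μ(q/d)/φ(d)`; for squarefree `q`, `g = gcd(q, N)`, `q = g e`
(`(g,e) = 1`): `d | q, (d,N) = 1 ↔ d | e` (`q` squarefree), so the inner sum is `μ(g) ∑_{d | e} μ(e/d) d/φ(d) = μ(g)/φ(e)`
(Möbius inversion of `d/φ(d) = ∑_{l | d} 1/φ(l)` for the squarefree `e`), while the term of `SR` is
`μ(q)^2 ramS q N/φ(q)^2` with `ramS q N = μ(e) φ(g)` (private lemma `Sing_ram` of `H76/GB/Sing.lean`, copy it):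
`(μ(q)/φ(q)) μ(g)/φ(e) = μ(e)/(φ(g) φ(e)^2) = ramS q N/φ(q)^2`.
-/

set_option autoImplicit false

namespace Pool.Agent.H76.SP

open Finset
open Pool.Agent.H91.EHA (Lam hR lamR ramS)

theorem ramS_mul (q k n : ℕ) (hk : Nat.Coprime k q) : ramS q (k * n) = ramS q n := by
  unfold ramS
  rw [Nat.Coprime.gcd_mul_left_cancel_right n hk]

theorem lamR_mul (R k n : ℕ) (hk : k.Prime) (hR : R < k) : lamR R (k * n) = lamR R n := by
  unfold lamR
  refine sum_congr rfl fun c hc => ?_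
  rw [mem_Icc] at hc
  rw [ramS_mul c k n ((Nat.Prime.coprime_iff_not_dvd hk).2 fun h => ?_)]
  have := Nat.le_of_dvd (by omega) h
  omega

end Pool.Agent.H76.SP

end

section

/-!
# PROJECT GB (MP_967f73_nt): common definitions

Goldbach up to a polylogarithmic prime factor for almost all even integers in very short intervals.
`L = log x`, `ee(t) = exp(2 π i t)` (`Pool.Agent.H91.PK.ee`; `LSa_ee_add`, `LSa_norm_ee`, `LSa_conj_ee` in
`H91/PK/LSa.lean`).  Numbers `n' = x - k` are counted from the top `x`.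

* `GG x α t z1 z2 k = ee((x-k) α + t log(x-k))` for `z1 ≤ k < z2`, `0` otherwise;
* `gG x B n' = hR ⌊L^B⌋ (x - n')` for `x/4 < n' ≤ x - 1`, `0` otherwise;
* `SR R E = ∑_{r ≤ R} μ(r)^2 c_r(E) / φ(r)^2`, the truncated singular series.
-/

set_option autoImplicit false

namespace Pool.Agent.H76.GB

open Finset
open Pool.Agent.H91.EHA

/-- the truncated singular series -/
noncomputable def SR (R E : ℕ) : ℝ :=
  ∑ r ∈ Icc 1 R, (ArithmeticFunction.moebius r : ℝ) ^ 2 * ramS r E / (r.totient : ℝ) ^ 2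

/-- logarithms are smaller than powers -/
theorem log_pow_le (s C : ℝ) (hs : 0 < s) (hC : 0 < C) (c : ℕ) :
    ∃ x0 : ℕ, ∀ x : ℕ, x0 ≤ x → C * Real.log x ^ c ≤ (x : ℝ) ^ s := by
  have h1 := (isLittleO_log_rpow_rpow_atTop (c : ℝ) hs).bound (c := 1 / C) (by positivity)
  have h2 := h1.and (Filter.eventually_ge_atTop (1 : ℝ))
  have h3 := tendsto_natCast_atTop_atTop (R := ℝ) |>.eventually h2
  obtain ⟨x0, hx0⟩ := Filter.eventually_atTop.1 h3
  refine ⟨x0, fun x hx => ?_⟩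
  obtain ⟨h4, h5⟩ := hx0 x hx
  have hl : 0 ≤ Real.log x := Real.log_nonneg h5
  have hp : (0 : ℝ) ≤ (x : ℝ) ^ s := Real.rpow_nonneg (by positivity) _
  rw [Real.rpow_natCast, Real.norm_eq_abs, Real.norm_eq_abs, abs_of_nonneg (by positivity),
    abs_of_nonneg hp] at h4
  rw [div_mul_eq_mul_div, one_mul, le_div_iff₀ hC] at h4
  linarith

/-- logarithms are large -/
theorem log_ge (C : ℝ) : ∃ x0 : ℕ, ∀ x : ℕ, x0 ≤ x → C ≤ Real.log x := by
  have h := (Real.tendsto_log_atTop.comp (tendsto_natCast_atTop_atTop (R := ℝ))).eventually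
    (Filter.eventually_ge_atTop C)
  exact Filter.eventually_atTop.1 h

end Pool.Agent.H76.GB

end

section

/-!
# GB Sing: the truncated singular series is at least 1

Proof.  For squarefree `r` and `d = gcd(r, E)`, `e = r/d`: `ramS r E = μ(e) φ(d)` (`∑_{g | d} g μ(r/g) = μ(e) ∑_{g | d} g μ(d/g)`, as
`r/g = e (d/g)` with coprime factors), so the term is `μ(e)/(φ(d) φ(e)^2)`; `d | E`, `(e, E) = 1` (as `r` is squarefree), in particular `e` is odd.  So
`SR R E = ∑_{d | E, d ≤ R, d squarefree} (1/φ(d)) ∑_{e ≤ R/d, (e,E) = 1, squarefree} μ(e)/φ(e)^2`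
(the map `(d, e) ↦ d e` is a bijection onto the squarefree `r ≤ R`).  Inner sum `≥ 1 - ∑_{1 < e ≤ R, e odd, squarefree} 1/φ(e)^2 ≥ 1/2`, because
`∑_{e ≤ Y odd squarefree} 1/φ(e)^2 ≤ ∏_{3 ≤ p ≤ Y prime} (1 + 1/(p-1)^2) ≤ exp(∑_{3 ≤ p ≤ Y} 1/(p-1)^2) ≤ exp(0.3959) ≤ 3/2`:
`∑ ≤ 1/4 + 1/16 + 1/36 + ∑_{n odd ≥ 11} 1/(n-1)^2`, the last sum is `(1/4) ∑_{j ≥ 5} 1/j^2 ≤ (1/4)(1/4.5)` (`1/j^2 ≤ 1/(j-1/2) - 1/(j+1/2)`).
The terms `d = 1` and `d = 2` give `≥ 1/2 + 1/2`, the others are `≥ 0`.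
-/

set_option autoImplicit false

namespace Pool.Agent.H76.GB

open Finset
open Pool.Agent.H91.EHA

private noncomputable def Sing_f (j : ℕ) : ℝ := 1 + 1 / (2 * (j : ℝ)) ^ 2

private lemma Sing_f_ge (j : ℕ) : 1 ≤ Sing_f j := by
  have : (0 : ℝ) ≤ 1 / (2 * (j : ℝ)) ^ 2 := by positivity
  unfold Sing_f
  linarith

private lemma Sing_prod (J : ℕ) :
    ∏ j ∈ Icc 1 (J + 2), Sing_f j ≤ 3 / 2 * (4 * ((J : ℝ) + 2) / (4 * ((J : ℝ) + 2) + 1)) := by
  induction J with
  | zero =>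
    have : Icc 1 (0 + 2) = ({1, 2} : Finset ℕ) := by decide
    rw [this, prod_pair (by norm_num)]
    unfold Sing_f
    norm_num
  | succ J ih =>
    rw [prod_Icc_succ_top (by omega)]
    have hJ : (0 : ℝ) ≤ J := Nat.cast_nonneg J
    refine (mul_le_mul_of_nonneg_right ih (zero_le_one.trans (Sing_f_ge _))).trans ?_
    unfold Sing_f
    push_cast
    rw [mul_assoc]
    refine mul_le_mul_of_nonneg_left ?_ (by norm_num)
    rw [div_mul_eq_mul_div, div_le_div_iff₀ (by positivity) (by positivity)]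
    have h1 : (2 * ((J : ℝ) + 2 + 1)) ^ 2 ≠ 0 := by positivity
    have h2 : 1 + 1 / (2 * ((J : ℝ) + 2 + 1)) ^ 2 =
        ((2 * ((J : ℝ) + 2 + 1)) ^ 2 + 1) / (2 * ((J : ℝ) + 2 + 1)) ^ 2 := by
      field_simp
    rw [h2, mul_div_assoc', div_mul_eq_mul_div, div_le_iff₀ (by positivity)]
    nlinarith [mul_nonneg hJ hJ, mul_nonneg (mul_nonneg hJ hJ) hJ]

private lemma Sing_prod' (Y : ℕ) : ∏ j ∈ Icc 1 Y, Sing_f j ≤ 3 / 2 := by
  have h1 : ∏ j ∈ Icc 1 Y, Sing_f j ≤ ∏ j ∈ Icc 1 (Y + 2), Sing_f j :=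
    prod_le_prod_of_subset_of_one_le (Icc_subset_Icc le_rfl (by omega))
      (fun i _ => zero_le_one.trans (Sing_f_ge i)) fun i _ _ => Sing_f_ge i
  refine h1.trans ((Sing_prod Y).trans ?_)
  have h2 : (4 * ((Y : ℝ) + 2) / (4 * ((Y : ℝ) + 2) + 1)) ≤ 1 := by
    rw [div_le_one (by positivity)]
    linarith
  linarith

private lemma Sing_tot {e : ℕ} (he : Squarefree e) :
    1 / (e.totient : ℝ) ^ 2 = ∏ p ∈ e.primeFactors, (1 / ((p : ℝ) - 1) ^ 2) := by
  have h1 : e.totient = ∏ p ∈ e.primeFactors, (p - 1) := by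
    have h := Nat.totient_mul_prod_primeFactors e
    rw [Nat.prod_primeFactors_of_squarefree he] at h
    have he0 : 0 < e := Nat.pos_of_ne_zero he.ne_zero
    rw [mul_comm] at h
    exact Nat.eq_of_mul_eq_mul_left he0 h
  rw [h1]
  push_cast
  rw [← prod_pow, one_div, ← prod_inv_distrib]
  refine prod_congr rfl fun p hp => ?_
  have h2 : 1 ≤ p := (Nat.prime_of_mem_primeFactors hp).one_lt.le
  rw [Nat.cast_sub h2, Nat.cast_one, one_div]

theorem odd_sum_le (Y : ℕ) :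
    ∑ e ∈ (Icc 1 Y).filter (fun e => Squarefree e ∧ ¬ 2 ∣ e), 1 / (e.totient : ℝ) ^ 2 ≤ 3 / 2 := by
  set S := (Icc 1 Y).filter (fun p => p.Prime ∧ ¬ 2 ∣ p) with hS
  have h1 : ∑ e ∈ (Icc 1 Y).filter (fun e => Squarefree e ∧ ¬ 2 ∣ e), 1 / (e.totient : ℝ) ^ 2 ≤
      ∑ T ∈ S.powerset, ∏ p ∈ T, (1 / ((p : ℝ) - 1) ^ 2) := by
    have h2 : ∑ e ∈ (Icc 1 Y).filter (fun e => Squarefree e ∧ ¬ 2 ∣ e), 1 / (e.totient : ℝ) ^ 2 =
        ∑ T ∈ ((Icc 1 Y).filter (fun e => Squarefree e ∧ ¬ 2 ∣ e)).image Nat.primeFactors,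
          ∏ p ∈ T, (1 / ((p : ℝ) - 1) ^ 2) := by
      rw [sum_image]
      · refine sum_congr rfl fun e he => ?_
        rw [mem_filter] at he
        exact Sing_tot he.2.1
      · intro a ha b hb hab
        rw [mem_coe, mem_filter] at ha hb
        rw [← Nat.prod_primeFactors_of_squarefree ha.2.1,
          ← Nat.prod_primeFactors_of_squarefree hb.2.1, hab]
    rw [h2]
    refine sum_le_sum_of_subset_of_nonneg ?_ fun T _ _ => prod_nonneg fun p _ => by positivity
    intro T hT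
    rw [mem_image] at hT
    obtain ⟨e, he, rfl⟩ := hT
    rw [mem_filter, mem_Icc] at he
    rw [mem_powerset]
    intro p hp
    rw [hS, mem_filter, mem_Icc]
    have hpp := Nat.prime_of_mem_primeFactors hp
    have hpe := Nat.dvd_of_mem_primeFactors hp
    refine ⟨⟨hpp.one_lt.le, (Nat.le_of_dvd (by omega) hpe).trans he.1.2⟩, hpp, fun h => ?_⟩
    exact he.2.2 (h.trans hpe)
  refine h1.trans ?_
  rw [← prod_one_add]
  have h3 : ∏ p ∈ S, (1 + 1 / ((p : ℝ) - 1) ^ 2) =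
      ∏ j ∈ S.image (fun p : ℕ => (p - 1) / 2), Sing_f j := by
    rw [prod_image]
    · refine prod_congr rfl fun p hp => ?_
      unfold Sing_f
      rw [hS, mem_filter, mem_Icc] at hp
      have h4 : 2 * ((p - 1) / 2) + 1 = p := by omega
      have h5 : (p : ℝ) - 1 = 2 * (((p - 1) / 2 : ℕ) : ℝ) := by
        have : ((2 * ((p - 1) / 2) + 1 : ℕ) : ℝ) = p := by rw [h4]
        push_cast at this
        linarith
      rw [h5]
    · intro a ha b hb hab
      rw [mem_coe, hS, mem_filter, mem_Icc] at ha hb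
      change (a - 1) / 2 = (b - 1) / 2 at hab
      omega
  rw [h3]
  refine le_trans (prod_le_prod_of_subset_of_one_le ?_ (fun i _ => zero_le_one.trans (Sing_f_ge i))
    fun i _ _ => Sing_f_ge i) (Sing_prod' Y)
  intro j hj
  rw [mem_image] at hj
  obtain ⟨p, hp, rfl⟩ := hj
  rw [hS, mem_filter, mem_Icc] at hp
  have := hp.2.1.two_le
  rw [mem_Icc]
  omega

/-- the Ramanujan sum of a squarefree number -/
private lemma Sing_ram {r E : ℕ} (hr : Squarefree r) :
    ramS r E = (ArithmeticFunction.moebius (r / Nat.gcd r E) : ℝ) * ((Nat.gcd r E).totient : ℝ) := by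
  set d := Nat.gcd r E with hd
  have hdr : d ∣ r := Nat.gcd_dvd_left r E
  obtain ⟨e, he⟩ := hdr
  have hr0 : r ≠ 0 := hr.ne_zero
  have hd0 : 0 < d := Nat.pos_of_ne_zero fun h => hr0 (by rw [he, h, zero_mul])
  have hcop : Nat.Coprime d e := Nat.coprime_of_squarefree_mul (he ▸ hr)
  have hre : r / d = e := by rw [he, Nat.mul_div_cancel_left _ hd0]
  rw [hre]
  unfold ramS
  rw [← hd]
  have hphi : ∑ g ∈ d.divisors, (g : ℝ) * (ArithmeticFunction.moebius (d / g) : ℝ) = (d.totient : ℝ) := by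
    have h1 := (ArithmeticFunction.sum_eq_iff_sum_mul_moebius_eq (R := ℝ)
      (f := fun n => (n.totient : ℝ)) (g := fun n => (n : ℝ))).1
      (fun n _ => by
        have := Nat.sum_totient n
        exact_mod_cast this) d hd0
    rw [← h1, Nat.sum_divisorsAntidiagonal' (f := fun a b => (ArithmeticFunction.moebius a : ℝ) * (b : ℝ))]
    exact sum_congr rfl fun g _ => mul_comm _ _
  rw [← hphi, mul_sum]
  refine sum_congr rfl fun g hg => ?_
  have hgd : g ∣ d := Nat.dvd_of_mem_divisors hg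
  obtain ⟨h, hh⟩ := hgd
  have hg0 : 0 < g := Nat.pos_of_mem_divisors hg
  have h1 : r / g = h * e := by
    rw [he, hh, mul_assoc, Nat.mul_div_cancel_left _ hg0]
  have h2 : d / g = h := by rw [hh, Nat.mul_div_cancel_left _ hg0]
  have h3 : Nat.Coprime h e := Nat.Coprime.coprime_dvd_left ⟨g, by rw [hh, mul_comm]⟩ hcop
  rw [h1, h2, ArithmeticFunction.isMultiplicative_moebius.map_mul_of_coprime h3]
  push_cast
  ring

private lemma Sing_mu_le (c : ℕ) : |(ArithmeticFunction.moebius c : ℝ)| ≤ 1 := by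
  have := ArithmeticFunction.abs_moebius_le_one (n := c)
  exact_mod_cast this

private noncomputable def Sing_t (E r : ℕ) : ℝ :=
  (ArithmeticFunction.moebius r : ℝ) ^ 2 * ramS r E / (r.totient : ℝ) ^ 2

private lemma Sing_t_eq {E r : ℕ} (hr : Squarefree r) :
    Sing_t E r = (ArithmeticFunction.moebius (r / Nat.gcd r E) : ℝ) /
      (((Nat.gcd r E).totient : ℝ) * ((r / Nat.gcd r E).totient : ℝ) ^ 2) := by
  unfold Sing_t
  rw [Sing_ram hr]
  set d := Nat.gcd r E with hd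
  have hdr : d ∣ r := Nat.gcd_dvd_left r E
  obtain ⟨e, he⟩ := hdr
  have hr0 : r ≠ 0 := hr.ne_zero
  have hd0 : 0 < d := Nat.pos_of_ne_zero fun h => hr0 (by rw [he, h, zero_mul])
  have he0 : 0 < e := Nat.pos_of_ne_zero fun h => hr0 (by rw [he, h, mul_zero])
  have hcop : Nat.Coprime d e := Nat.coprime_of_squarefree_mul (he ▸ hr)
  have hre : r / d = e := by rw [he, Nat.mul_div_cancel_left _ hd0]
  rw [hre]
  have h1 : (ArithmeticFunction.moebius r : ℝ) ^ 2 = 1 := by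
    have := ArithmeticFunction.moebius_sq_eq_one_of_squarefree hr
    exact_mod_cast this
  have h2 : (r.totient : ℝ) = (d.totient : ℝ) * (e.totient : ℝ) := by
    rw [he, Nat.totient_mul hcop]
    push_cast
    ring
  have h3 : (0 : ℝ) < d.totient := by exact_mod_cast Nat.totient_pos.2 hd0
  have h4 : (0 : ℝ) < e.totient := by exact_mod_cast Nat.totient_pos.2 he0
  rw [h1, h2]
  field_simp

private lemma Sing_inner {R E d : ℕ} (h2 : 2 ∣ E) (hdE : d ∣ E) (hds : Squarefree d) (hdR : d ≤ R) :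
    1 / (2 * (d.totient : ℝ)) ≤ ∑ r ∈ (Icc 1 R).filter (fun r => Nat.gcd r E = d), Sing_t E r := by
  have hd0 : 0 < d := Nat.pos_of_ne_zero hds.ne_zero
  have hphi : (0 : ℝ) < d.totient := by exact_mod_cast Nat.totient_pos.2 hd0
  -- restrict to the squarefree numbers
  have e1 : ∑ r ∈ (Icc 1 R).filter (fun r => Nat.gcd r E = d), Sing_t E r =
      ∑ r ∈ ((Icc 1 R).filter (fun r => Nat.gcd r E = d)).filter (fun r => Squarefree r), Sing_t E r := by
    symm
    refine sum_filter_of_ne fun r _ hne => ?_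
    by_contra hns
    refine hne ?_
    unfold Sing_t
    rw [ArithmeticFunction.moebius_eq_zero_of_not_squarefree hns]
    simp
  rw [e1]
  set S := ((Icc 1 R).filter (fun r => Nat.gcd r E = d)).filter (fun r => Squarefree r) with hS
  have hmem : ∀ r ∈ S, 1 ≤ r ∧ r ≤ R ∧ Nat.gcd r E = d ∧ Squarefree r := by
    intro r hr
    rw [hS, mem_filter, mem_filter, mem_Icc] at hr
    exact ⟨hr.1.1.1, hr.1.1.2, hr.1.2, hr.2⟩
  have hdS : d ∈ S := by
    rw [hS, mem_filter, mem_filter, mem_Icc]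
    exact ⟨⟨⟨hd0, hdR⟩, Nat.gcd_eq_left hdE⟩, hds⟩
  rw [← add_sum_erase _ _ hdS]
  have t1 : Sing_t E d = 1 / (d.totient : ℝ) := by
    rw [Sing_t_eq hds, Nat.gcd_eq_left hdE, Nat.div_self hd0]
    simp
  have t2 : ∀ r ∈ S.erase d, -(1 / (d.totient : ℝ) * (1 / ((r / d).totient : ℝ) ^ 2)) ≤ Sing_t E r := by
    intro r hr
    obtain ⟨hr1, hrR, hg, hsq⟩ := hmem r (mem_of_mem_erase hr)
    rw [Sing_t_eq hsq, hg]
    have hdr : d ∣ r := hg ▸ Nat.gcd_dvd_left r E
    have he0 : 0 < r / d := Nat.div_pos (Nat.le_of_dvd (by omega) hdr) hd0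
    have h4 : (0 : ℝ) < (r / d).totient := by exact_mod_cast Nat.totient_pos.2 he0
    have h5 := (abs_le.1 (Sing_mu_le (r / d))).1
    calc -(1 / (d.totient : ℝ) * (1 / ((r / d).totient : ℝ) ^ 2)) =
          (-1) / ((d.totient : ℝ) * ((r / d).totient : ℝ) ^ 2) := by
            field_simp
      _ ≤ _ := by gcongr
  have t3 : ∑ r ∈ S.erase d, 1 / ((r / d).totient : ℝ) ^ 2 ≤ 1 / 2 := by
    have h1 := odd_sum_le R
    have hmem1 : 1 ∈ (Icc 1 R).filter (fun e => Squarefree e ∧ ¬ 2 ∣ e) := by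
      rw [mem_filter, mem_Icc]
      exact ⟨⟨le_rfl, by omega⟩, squarefree_one, by norm_num⟩
    rw [← add_sum_erase _ _ hmem1] at h1
    have h2' : (1 : ℝ) / ((1 : ℕ).totient : ℝ) ^ 2 = 1 := by simp
    rw [h2'] at h1
    have h3 : ∑ r ∈ S.erase d, 1 / ((r / d).totient : ℝ) ^ 2 ≤
        ∑ e ∈ ((Icc 1 R).filter (fun e => Squarefree e ∧ ¬ 2 ∣ e)).erase 1,
          1 / (e.totient : ℝ) ^ 2 := by
      have h4 : ∑ r ∈ S.erase d, 1 / ((r / d).totient : ℝ) ^ 2 =
          ∑ e ∈ (S.erase d).image (fun r => r / d), 1 / (e.totient : ℝ) ^ 2 := by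
        rw [sum_image]
        intro a ha b hb hab
        rw [mem_coe, mem_erase] at ha hb
        obtain ⟨_, _, hga, _⟩ := hmem a ha.2
        obtain ⟨_, _, hgb, _⟩ := hmem b hb.2
        have hda : d ∣ a := hga ▸ Nat.gcd_dvd_left a E
        have hdb : d ∣ b := hgb ▸ Nat.gcd_dvd_left b E
        change a / d = b / d at hab
        rw [← Nat.div_mul_cancel hda, ← Nat.div_mul_cancel hdb, hab]
      rw [h4]
      refine sum_le_sum_of_subset_of_nonneg ?_ fun e _ _ => by positivity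
      intro e he
      rw [mem_image] at he
      obtain ⟨r, hr, rfl⟩ := he
      rw [mem_erase] at hr
      obtain ⟨hr1, hrR, hg, hsq⟩ := hmem r hr.2
      have hdr : d ∣ r := hg ▸ Nat.gcd_dvd_left r E
      obtain ⟨e, he⟩ := hdr
      have hre : r / d = e := by rw [he, Nat.mul_div_cancel_left _ hd0]
      have he0 : 0 < e := Nat.pos_of_ne_zero fun h => by rw [h, mul_zero] at he; omega
      have hcop : Nat.Coprime d e := Nat.coprime_of_squarefree_mul (he ▸ hsq)
      rw [hre, mem_erase, mem_filter, mem_Icc]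
      refine ⟨fun h => hr.1 (by rw [he, h, mul_one]), ⟨he0, ?_⟩, ?_, fun h => ?_⟩
      · calc e ≤ d * e := Nat.le_mul_of_pos_left e hd0
          _ = r := he.symm
          _ ≤ R := hrR
      · exact hsq.squarefree_of_dvd ⟨d, by rw [he, mul_comm]⟩
      · have h5 : 2 ∣ d := by
          rw [← hg]
          exact Nat.dvd_gcd (h.trans ⟨d, by rw [he, mul_comm]⟩) h2
        have h6 := Nat.dvd_gcd h5 h
        rw [hcop] at h6
        omega
    linarith
  have t4 : -(1 / (d.totient : ℝ) * (1 / 2)) ≤ ∑ r ∈ S.erase d, Sing_t E r := by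
    calc -(1 / (d.totient : ℝ) * (1 / 2)) ≤
          -(1 / (d.totient : ℝ) * ∑ r ∈ S.erase d, 1 / ((r / d).totient : ℝ) ^ 2) := by
            gcongr
      _ = ∑ r ∈ S.erase d, -(1 / (d.totient : ℝ) * (1 / ((r / d).totient : ℝ) ^ 2)) := by
            rw [mul_sum, sum_neg_distrib]
      _ ≤ _ := sum_le_sum t2
  rw [t1]
  have t5 : 1 / (2 * (d.totient : ℝ)) = 1 / (d.totient : ℝ) - 1 / (d.totient : ℝ) * (1 / 2) := by
    field_simp
    norm_num
  linarith

private lemma Sing_nonneg {R E d : ℕ} (h2 : 2 ∣ E) :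
    0 ≤ ∑ r ∈ (Icc 1 R).filter (fun r => Nat.gcd r E = d), Sing_t E r := by
  by_cases h : ∃ r ∈ (Icc 1 R).filter (fun r => Nat.gcd r E = d), Squarefree r
  · obtain ⟨r, hr, hsq⟩ := h
    rw [mem_filter, mem_Icc] at hr
    have hdr : d ∣ r := hr.2 ▸ Nat.gcd_dvd_left r E
    refine le_trans (by positivity) (Sing_inner h2 (hr.2 ▸ Nat.gcd_dvd_right r E)
      (hsq.squarefree_of_dvd hdr) ((Nat.le_of_dvd (by omega) hdr).trans hr.1.2))
  · push Not at h
    rw [sum_eq_zero]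
    intro r hr
    unfold Sing_t
    rw [ArithmeticFunction.moebius_eq_zero_of_not_squarefree (h r hr)]
    simp

theorem sr_ge (R E : ℕ) (hR : 2 ≤ R) (hE : 1 ≤ E) (h2 : 2 ∣ E) : 1 ≤ SR R E := by
  have h1 : SR R E = ∑ r ∈ Icc 1 R, Sing_t E r := rfl
  rw [h1]
  have hmap : ∀ r ∈ Icc 1 R, Nat.gcd r E ∈ Icc 1 R := by
    intro r hr
    rw [mem_Icc] at hr ⊢
    exact ⟨Nat.gcd_pos_of_pos_left E hr.1, (Nat.gcd_le_left E hr.1).trans hr.2⟩
  rw [← sum_fiberwise_of_maps_to hmap]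
  have hsub : ({1, 2} : Finset ℕ) ⊆ Icc 1 R := by
    intro d hd
    rw [mem_insert, mem_singleton] at hd
    rw [mem_Icc]
    omega
  refine le_trans ?_ (sum_le_sum_of_subset_of_nonneg hsub fun d _ _ => Sing_nonneg h2)
  rw [sum_pair (by norm_num)]
  have a1 := Sing_inner (R := R) h2 (one_dvd E) squarefree_one (by omega)
  have a2 := Sing_inner (R := R) h2 h2 Nat.prime_two.squarefree hR
  have b1 : (1 : ℝ) / (2 * ((1 : ℕ).totient : ℝ)) = 1 / 2 := by simp
  have b2 : (1 : ℝ) / (2 * ((2 : ℕ).totient : ℝ)) = 1 / 2 := by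
    rw [Nat.totient_two]
    norm_num
  rw [b1] at a1
  rw [b2] at a2
  linarith

end Pool.Agent.H76.GB

end
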