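import Pool.Agent.H43.PM.M18

/-! The parts of this file: H91.EHA.SwH, H91.EHA.SwJ2, H91.PK.DiA, H76.VKT.SDef, H76.VKT.PropB, H97.VK.BrunC, H91.PK.CA, H97.VK.TailA. -/

section

/-!
# From smooth sums to sharp cut-offs

`om(t) = t(1-t)²` on `[0,1]`.  Choose `ρ : ℝ → ℝ`, `ρ = 3` on `(0,1]`, `ρ(u) = P(u)` on `(1,1+δ]`, `0` beyond, where
`P` is a combination of (for instance) three step functions on thirds of `(1,1+δ]` (or a polynomial) with
`∫ P u^{-2} = 3`, `∫ P u^{-3} = 3/2`, `∫ P u^{-4} = 1`, `|P| ≤ C₀ δ^{-3}`.  Then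
`w(t) := ∫_0^∞ om(t/u) ρ(u) du/u` satisfies `w(t) = 1` for `0 < t ≤ 1`, `w(t) = 0` for `t ≥ 1+δ`,
`|w| ≤ C₀` (for `t ≤ 1`: `3∫_t^1 (1-v)² dv = (1-t)³`, and the moments give `3t - 3t² + t³`).
Linear system: with `u = 1 + δ z` the three conditions are a `3×3` system whose determinant is `≍ δ³` (Vandermonde).
(If you prefer: any other explicit `w`.)
Then `∑_{n ≤ y} a_n = ∑_n a_n w(n/y) - ∑_{y < n ≤ (1+δ)y} a_n w(n/y)`, and
`∑ a_n w(n/y) = ∫ ρ(u) S(uy) du/u`, `S(v) = ∑_{n ≤ v} a_n om(n/v)` for real `v`, `S(v) = 0` for `v < 1`,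
`‖S(v) - S(⌊v⌋)‖ ≤ (1/⌊v⌋) ∑_{n ≤ v} ‖a_n‖ ≤ 2 H (1 + P/v)` by `om_lip`.
-/

set_option autoImplicit false

namespace Pool.Agent.H91.EHA

open Finset
open Pool.Agent.H91.PK

/-- The average over `K` consecutive values. -/
noncomputable def swhA (K : ℕ) (f : ℕ → ℝ) (N : ℕ) : ℝ := (∑ i ∈ range K, f (N + i)) / K

theorem swhA_diff (K : ℕ) (f : ℕ → ℝ) (N : ℕ) :
    swhA K f (N + 1) - swhA K f N = (f (N + K) - f N) / K := by
  unfold swhA
  rw [← sub_div]
  congr 1
  have h1 := Finset.sum_range_succ (fun i => f (N + i)) K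
  have h2 := Finset.sum_range_succ' (fun i => f (N + i)) K
  rw [h1] at h2
  have h3 : ∑ i ∈ range K, f (N + 1 + i) = ∑ i ∈ range K, f (N + (i + 1)) := by
    refine Finset.sum_congr rfl fun i _ => ?_
    congr 1
    ring
  rw [h3]
  simp only [add_zero] at h2
  linarith

theorem swhA_nonneg (K : ℕ) (f : ℕ → ℝ) (hf : ∀ N, 0 ≤ f N) (N : ℕ) : 0 ≤ swhA K f N := by
  unfold swhA
  exact div_nonneg (Finset.sum_nonneg fun i _ => hf _) (Nat.cast_nonneg _)

theorem swhA_le_one (K : ℕ) (hK : 0 < K) (f : ℕ → ℝ) (hf : ∀ N, f N ≤ 1) (N : ℕ) :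
    swhA K f N ≤ 1 := by
  unfold swhA
  rw [div_le_one (Nat.cast_pos.2 hK)]
  calc ∑ i ∈ range K, f (N + i) ≤ ∑ _i ∈ range K, (1 : ℝ) := Finset.sum_le_sum fun i _ => hf _
    _ = K := by simp

theorem swhA_eq_one (K : ℕ) (hK : 0 < K) (f : ℕ → ℝ) (T : ℕ) (hf : ∀ N, N ≤ T → f N = 1) (N : ℕ)
    (hN : N + K ≤ T) : swhA K f N = 1 := by
  unfold swhA
  rw [Finset.sum_congr rfl (fun i hi => hf (N + i) (by
    have := Finset.mem_range.1 hi
    omega))]
  simp only [Finset.sum_const, Finset.card_range, nsmul_eq_mul, mul_one]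
  exact div_self (Nat.cast_pos.2 hK).ne'

theorem swhA_eq_zero (K : ℕ) (f : ℕ → ℝ) (T : ℕ) (hf : ∀ N, T < N → f N = 0) (N : ℕ)
    (hN : T < N) : swhA K f N = 0 := by
  unfold swhA
  rw [Finset.sum_eq_zero (fun i _ => hf (N + i) (by omega)), zero_div]

/-- The sharp cut-off. -/
noncomputable def swhC (M N : ℕ) : ℝ := if N ≤ M then 1 else 0

theorem swhC_nonneg (M N : ℕ) : 0 ≤ swhC M N := by
  unfold swhC
  split_ifs <;> norm_num

theorem swhC_le_one (M N : ℕ) : swhC M N ≤ 1 := by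
  unfold swhC
  split_ifs <;> norm_num

/-- The smoothed cut-off. -/
noncomputable def swhP (K M : ℕ) : ℕ → ℝ := swhA K (swhA K (swhA K (swhC M)))

theorem swhP_nonneg (K M N : ℕ) : 0 ≤ swhP K M N :=
  swhA_nonneg K _ (swhA_nonneg K _ (swhA_nonneg K _ (swhC_nonneg M))) N

theorem swhP_le_one (K M : ℕ) (hK : 0 < K) (N : ℕ) : swhP K M N ≤ 1 :=
  swhA_le_one K hK _ (swhA_le_one K hK _ (swhA_le_one K hK _ (swhC_le_one M))) N

theorem swhP_eq_one (K M : ℕ) (hK : 0 < K) (N : ℕ) (hN : N + 3 * K ≤ M) : swhP K M N = 1 := by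
  have h0 : ∀ N, N ≤ M → swhC M N = 1 := fun N h => if_pos h
  have h1 : ∀ N, N ≤ M - K → swhA K (swhC M) N = 1 := fun N h =>
    swhA_eq_one K hK _ M h0 N (by omega)
  have h2 : ∀ N, N ≤ M - 2 * K → swhA K (swhA K (swhC M)) N = 1 := fun N h =>
    swhA_eq_one K hK _ (M - K) h1 N (by omega)
  exact swhA_eq_one K hK _ (M - 2 * K) h2 N (by omega)

theorem swhP_eq_zero (K M N : ℕ) (hN : M < N) : swhP K M N = 0 := by
  have h0 : ∀ N, M < N → swhC M N = 0 := fun N h => if_neg (by omega)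
  have h1 : ∀ N, M < N → swhA K (swhC M) N = 0 := fun N h => swhA_eq_zero K _ M h0 N h
  have h2 : ∀ N, M < N → swhA K (swhA K (swhC M)) N = 0 := fun N h => swhA_eq_zero K _ M h1 N h
  exact swhA_eq_zero K _ M h2 N hN

theorem swhP_d1 (K M : ℕ) (hK : 0 < K) (N : ℕ) : |swhP K M (N + 1) - swhP K M N| ≤ 1 / K := by
  have hK' : (0 : ℝ) < K := Nat.cast_pos.2 hK
  unfold swhP
  rw [swhA_diff, abs_div, abs_of_pos hK']
  refine div_le_div_of_nonneg_right ?_ hK'.le
  have a1 := swhA_nonneg K _ (swhA_nonneg K _ (swhC_nonneg M)) (N + K)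
  have a2 := swhA_nonneg K _ (swhA_nonneg K _ (swhC_nonneg M)) N
  have a3 := swhA_le_one K hK _ (swhA_le_one K hK _ (swhC_le_one M)) (N + K)
  have a4 := swhA_le_one K hK _ (swhA_le_one K hK _ (swhC_le_one M)) N
  rw [abs_le]
  constructor <;> linarith

theorem swhP_d2_eq (K M : ℕ) (hK : 0 < K) (N : ℕ) :
    swhP K M (N + 2) - 2 * swhP K M (N + 1) + swhP K M N =
      (swhA K (swhC M) (N + 2 * K) - 2 * swhA K (swhC M) (N + K) + swhA K (swhC M) N) / K ^ 2 := by
  have hK' : (0 : ℝ) < K := Nat.cast_pos.2 hK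
  have h1 : swhP K M (N + 2) - swhP K M (N + 1) =
      (swhA K (swhA K (swhC M)) (N + 1 + K) - swhA K (swhA K (swhC M)) (N + 1)) / K :=
    swhA_diff K _ (N + 1)
  have h2 : swhP K M (N + 1) - swhP K M N =
      (swhA K (swhA K (swhC M)) (N + K) - swhA K (swhA K (swhC M)) N) / K :=
    swhA_diff K _ N
  have h3 := swhA_diff K (swhA K (swhC M)) (N + K)
  have h4 := swhA_diff K (swhA K (swhC M)) N
  rw [show N + 1 + K = N + K + 1 by ring] at h1
  rw [show N + K + K = N + 2 * K by ring] at h3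
  have h5 : swhP K M (N + 2) - 2 * swhP K M (N + 1) + swhP K M N =
      ((swhA K (swhA K (swhC M)) (N + K + 1) - swhA K (swhA K (swhC M)) (N + K)) -
        (swhA K (swhA K (swhC M)) (N + 1) - swhA K (swhA K (swhC M)) N)) / K := by
    have : swhP K M (N + 2) - 2 * swhP K M (N + 1) + swhP K M N =
      (swhP K M (N + 2) - swhP K M (N + 1)) - (swhP K M (N + 1) - swhP K M N) := by ring
    rw [this, h1, h2]
    ring
  rw [h5, h3, h4]
  field_simp
  ring

theorem swhP_d2 (K M : ℕ) (hK : 0 < K) (N : ℕ) :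
    |swhP K M (N + 2) - 2 * swhP K M (N + 1) + swhP K M N| ≤ 2 / K ^ 2 := by
  have hK' : (0 : ℝ) < K := Nat.cast_pos.2 hK
  rw [swhP_d2_eq K M hK N, abs_div, abs_of_pos (by positivity : (0 : ℝ) < (K : ℝ) ^ 2)]
  refine div_le_div_of_nonneg_right ?_ (by positivity)
  have a1 := swhA_nonneg K _ (swhC_nonneg M) (N + 2 * K)
  have a2 := swhA_nonneg K _ (swhC_nonneg M) (N + K)
  have a3 := swhA_nonneg K _ (swhC_nonneg M) N
  have a4 := swhA_le_one K hK _ (swhC_le_one M) (N + 2 * K)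
  have a5 := swhA_le_one K hK _ (swhC_le_one M) (N + K)
  have a6 := swhA_le_one K hK _ (swhC_le_one M) N
  rw [abs_le]
  constructor <;> linarith

theorem swhP_d3 (K M : ℕ) (hK : 0 < K) (N : ℕ) :
    |swhP K M (N + 3) - 3 * swhP K M (N + 2) + 3 * swhP K M (N + 1) - swhP K M N|
      ≤ 4 / K ^ 3 := by
  have hK' : (0 : ℝ) < K := Nat.cast_pos.2 hK
  have h1 := swhP_d2_eq K M hK (N + 1)
  have h2 := swhP_d2_eq K M hK N
  have h3 := swhA_diff K (swhC M) (N + 2 * K)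
  have h4 := swhA_diff K (swhC M) (N + K)
  have h5 := swhA_diff K (swhC M) N
  rw [show N + 1 + 2 * K = N + 2 * K + 1 by ring, show N + 1 + K = N + K + 1 by ring] at h1
  have e : swhP K M (N + 3) - 3 * swhP K M (N + 2) + 3 * swhP K M (N + 1) - swhP K M N =
      (swhC M (N + 2 * K + K) - swhC M (N + 2 * K) - 2 * (swhC M (N + K + K) - swhC M (N + K)) +
        (swhC M (N + K) - swhC M N)) / K ^ 3 := by
    have e1 : swhP K M (N + 3) - 3 * swhP K M (N + 2) + 3 * swhP K M (N + 1) - swhP K M N =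
      (swhP K M (N + 1 + 2) - 2 * swhP K M (N + 1 + 1) + swhP K M (N + 1)) -
      (swhP K M (N + 2) - 2 * swhP K M (N + 1) + swhP K M N) := by
      rw [show N + 1 + 2 = N + 3 by ring, show N + 1 + 1 = N + 2 by ring]
      ring
    rw [e1, h1, h2]
    have e2 : (swhA K (swhC M) (N + 2 * K + 1) - 2 * swhA K (swhC M) (N + K + 1) +
        swhA K (swhC M) (N + 1)) / (K : ℝ) ^ 2 -
        (swhA K (swhC M) (N + 2 * K) - 2 * swhA K (swhC M) (N + K) +
          swhA K (swhC M) N) / (K : ℝ) ^ 2 =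
        ((swhA K (swhC M) (N + 2 * K + 1) - swhA K (swhC M) (N + 2 * K)) -
          2 * (swhA K (swhC M) (N + K + 1) - swhA K (swhC M) (N + K)) +
          (swhA K (swhC M) (N + 1) - swhA K (swhC M) N)) / (K : ℝ) ^ 2 := by ring
    rw [e2, h3, h4, h5]
    field_simp
  rw [e, abs_div, abs_of_pos (by positivity : (0 : ℝ) < (K : ℝ) ^ 3)]
  refine div_le_div_of_nonneg_right ?_ (by positivity)
  have b1 : N + 2 * K + K = N + 3 * K := by ring
  have b2 : N + K + K = N + 2 * K := by ring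
  rw [b1, b2]
  have a1 := swhC_nonneg M (N + 3 * K)
  have a2 := swhC_nonneg M (N + 2 * K)
  have a3 := swhC_nonneg M (N + K)
  have a4 := swhC_nonneg M N
  have a5 := swhC_le_one M (N + 3 * K)
  have a6 := swhC_le_one M (N + 2 * K)
  have a7 := swhC_le_one M (N + K)
  have a8 := swhC_le_one M N
  rw [abs_le]
  constructor <;> linarith

/-- The weight. -/
noncomputable def swhW (K M : ℕ) (N : ℕ) : ℝ := swhP K M N * (1 / (2 * (N : ℝ)))

/-- Its third difference. -/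
noncomputable def swhD (K M : ℕ) (N : ℕ) : ℝ :=
  swhW K M (N + 3) - 3 * swhW K M (N + 2) + 3 * swhW K M (N + 1) - swhW K M N

theorem swh_psi3 (x : ℝ) (hx : 1 ≤ x) :
    |1 / (2 * (x + 3)) - 3 * (1 / (2 * (x + 2))) + 3 * (1 / (2 * (x + 1))) - 1 / (2 * x)|
      ≤ 3 / x ^ 4 := by
  have e : 1 / (2 * (x + 3)) - 3 * (1 / (2 * (x + 2))) + 3 * (1 / (2 * (x + 1))) - 1 / (2 * x)
      = -(3 / (x * (x + 1) * (x + 2) * (x + 3))) := by
    field_simp
    ring
  rw [e, abs_neg, abs_of_pos (by positivity)]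
  refine div_le_div_of_nonneg_left (by norm_num) (by positivity) ?_
  have h : x ^ 4 = x * x * x * x := by ring
  rw [h]
  gcongr <;> linarith

theorem swh_psi2 (x : ℝ) (hx : 1 ≤ x) :
    |1 / (2 * (x + 2)) - 2 * (1 / (2 * (x + 1))) + 1 / (2 * x)| ≤ 1 / x ^ 3 := by
  have e : 1 / (2 * (x + 2)) - 2 * (1 / (2 * (x + 1))) + 1 / (2 * x)
      = 1 / (x * (x + 1) * (x + 2)) := by
    field_simp
    ring
  rw [e, abs_of_pos (by positivity)]
  refine div_le_div_of_nonneg_left (by norm_num) (by positivity) ?_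
  have h : x ^ 3 = x * x * x := by ring
  rw [h]
  gcongr <;> linarith

theorem swh_psi1 (x : ℝ) (hx : 1 ≤ x) :
    |1 / (2 * (x + 1)) - 1 / (2 * x)| ≤ 1 / (2 * x ^ 2) := by
  have e : 1 / (2 * (x + 1)) - 1 / (2 * x) = -(1 / (2 * (x * (x + 1)))) := by
    field_simp
    ring
  rw [e, abs_neg, abs_of_pos (by positivity)]
  refine div_le_div_of_nonneg_left (by norm_num) (by positivity) ?_
  have h : x ^ 2 = x * x := by ring
  rw [h]
  gcongr
  linarith

theorem swhD_bound (K y : ℕ) (hK : 0 < K) (hKy : K ≤ y) (N : ℕ) (hN : 1 ≤ N) :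
    (N : ℝ) ^ 3 * |swhD K (y + 2 + 3 * K) N| ≤
      3 / N + (if y ≤ N then 8 * (N : ℝ) ^ 2 / K ^ 3 else 0) := by
  have hx : (1 : ℝ) ≤ N := by exact_mod_cast hN
  have hx0 : (0 : ℝ) < N := by linarith
  have hK' : (0 : ℝ) < K := Nat.cast_pos.2 hK
  set M := y + 2 + 3 * K with hM
  have c1 : ((N + 1 : ℕ) : ℝ) = (N : ℝ) + 1 := by push_cast; ring
  have c2 : ((N + 2 : ℕ) : ℝ) = (N : ℝ) + 2 := by push_cast; ring
  have c3 : ((N + 3 : ℕ) : ℝ) = (N : ℝ) + 3 := by push_cast; ring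
  have p3 := swh_psi3 N hx
  have p2 := swh_psi2 N hx
  have p1 := swh_psi1 N hx
  by_cases hy : y ≤ N
  · rw [if_pos hy]
    have hKN : (K : ℝ) ≤ N := by exact_mod_cast hKy.trans hy
    have q0 := swhP_nonneg K M (N + 3)
    have q0' := swhP_le_one K M hK (N + 3)
    have q1 := swhP_d1 K M hK (N + 2)
    have q2 := swhP_d2 K M hK (N + 1)
    have q3 := swhP_d3 K M hK N
    rw [show N + 2 + 1 = N + 3 by ring] at q1
    rw [show N + 1 + 2 = N + 3 by ring, show N + 1 + 1 = N + 2 by ring] at q2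
    have e : swhD K M N =
        swhP K M (N + 3) * (1 / (2 * ((N : ℝ) + 3)) - 3 * (1 / (2 * ((N : ℝ) + 2))) +
          3 * (1 / (2 * ((N : ℝ) + 1))) - 1 / (2 * (N : ℝ))) +
        3 * (swhP K M (N + 3) - swhP K M (N + 2)) *
          (1 / (2 * ((N : ℝ) + 2)) - 2 * (1 / (2 * ((N : ℝ) + 1))) + 1 / (2 * (N : ℝ))) +
        3 * (swhP K M (N + 3) - 2 * swhP K M (N + 2) + swhP K M (N + 1)) *
          (1 / (2 * ((N : ℝ) + 1)) - 1 / (2 * (N : ℝ))) +
        (swhP K M (N + 3) - 3 * swhP K M (N + 2) + 3 * swhP K M (N + 1) - swhP K M N) *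
          (1 / (2 * (N : ℝ))) := by
      unfold swhD swhW
      rw [c1, c2, c3]
      ring
    have hb : |swhD K M N| ≤ 1 * (3 / (N : ℝ) ^ 4) + 3 * (1 / (K : ℝ)) * (1 / (N : ℝ) ^ 3) +
        3 * (2 / (K : ℝ) ^ 2) * (1 / (2 * (N : ℝ) ^ 2)) +
        (4 / (K : ℝ) ^ 3) * (1 / (2 * (N : ℝ))) := by
      rw [e]
      refine (abs_add_le _ _).trans (add_le_add ((abs_add_le _ _).trans (add_le_add
        ((abs_add_le _ _).trans (add_le_add ?_ ?_)) ?_)) ?_)
      · rw [abs_mul, abs_of_nonneg q0]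
        exact mul_le_mul q0' p3 (abs_nonneg _) (by norm_num)
      · rw [abs_mul, abs_mul, abs_of_pos (by norm_num : (0 : ℝ) < 3)]
        exact mul_le_mul (mul_le_mul_of_nonneg_left q1 (by norm_num)) p2 (abs_nonneg _)
          (by positivity)
      · rw [abs_mul, abs_mul, abs_of_pos (by norm_num : (0 : ℝ) < 3)]
        exact mul_le_mul (mul_le_mul_of_nonneg_left q2 (by norm_num)) p1 (abs_nonneg _)
          (by positivity)
      · rw [abs_mul, abs_of_pos (by positivity : (0 : ℝ) < 1 / (2 * (N : ℝ)))]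
        exact mul_le_mul_of_nonneg_right q3 (by positivity)
    have h1 : (N : ℝ) ^ 3 * |swhD K M N| ≤
        3 / N + 3 * (1 / K) + 3 * (N / K ^ 2) + 2 * (N ^ 2 / K ^ 3) := by
      calc (N : ℝ) ^ 3 * |swhD K M N| ≤ (N : ℝ) ^ 3 * (1 * (3 / (N : ℝ) ^ 4) +
          3 * (1 / (K : ℝ)) * (1 / (N : ℝ) ^ 3) + 3 * (2 / (K : ℝ) ^ 2) * (1 / (2 * (N : ℝ) ^ 2)) +
          (4 / (K : ℝ) ^ 3) * (1 / (2 * (N : ℝ)))) :=
            mul_le_mul_of_nonneg_left hb (by positivity)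
        _ = _ := by
            field_simp
            ring
    have h2 : (1 : ℝ) / K ≤ N ^ 2 / K ^ 3 := by
      rw [div_le_div_iff₀ hK' (by positivity)]
      have : (K : ℝ) ^ 2 ≤ N ^ 2 := pow_le_pow_left₀ hK'.le hKN 2
      nlinarith
    have h3 : (N : ℝ) / K ^ 2 ≤ N ^ 2 / K ^ 3 := by
      rw [div_le_div_iff₀ (by positivity) (by positivity)]
      have e1 : (N : ℝ) * K ^ 3 = (N * K ^ 2) * K := by ring
      have e2 : (N : ℝ) ^ 2 * K ^ 2 = (N * K ^ 2) * N := by ring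
      rw [e1, e2]
      exact mul_le_mul_of_nonneg_left hKN (by positivity)
    have h4 : 8 * (N : ℝ) ^ 2 / K ^ 3 = 8 * (N ^ 2 / K ^ 3) := by ring
    rw [h4]
    linarith
  · rw [if_neg hy, add_zero]
    have o0 : swhP K M N = 1 := swhP_eq_one K M hK N (by omega)
    have o1 : swhP K M (N + 1) = 1 := swhP_eq_one K M hK (N + 1) (by omega)
    have o2 : swhP K M (N + 2) = 1 := swhP_eq_one K M hK (N + 2) (by omega)
    have o3 : swhP K M (N + 3) = 1 := swhP_eq_one K M hK (N + 3) (by omega)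
    have e : swhD K M N = 1 / (2 * ((N : ℝ) + 3)) - 3 * (1 / (2 * ((N : ℝ) + 2))) +
          3 * (1 / (2 * ((N : ℝ) + 1))) - 1 / (2 * (N : ℝ)) := by
      unfold swhD swhW
      rw [c1, c2, c3, o0, o1, o2, o3]
      ring
    rw [e]
    calc (N : ℝ) ^ 3 * _ ≤ (N : ℝ) ^ 3 * (3 / (N : ℝ) ^ 4) :=
          mul_le_mul_of_nonneg_left p3 (by positivity)
      _ = 3 / N := by field_simp

theorem swh_tel (w : ℕ → ℝ) (n L : ℕ) :
    ∑ m ∈ range L, (m : ℝ) ^ 2 * (w (n + m + 3) - 3 * w (n + m + 2) + 3 * w (n + m + 1) -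
      w (n + m)) = -w (n + 1) - w (n + 2) + ((L : ℝ) - 1) ^ 2 * w (n + L + 2) +
      (((L : ℝ) - 2) ^ 2 - 3 * ((L : ℝ) - 1) ^ 2) * w (n + L + 1) + (L : ℝ) ^ 2 * w (n + L) := by
  induction L with
  | zero =>
    simp
    ring
  | succ L ih =>
    rw [Finset.sum_range_succ, ih]
    have e1 : n + (L + 1) + 2 = n + L + 3 := by ring
    have e2 : n + (L + 1) + 1 = n + L + 2 := by ring
    have e3 : n + (L + 1) = n + L + 1 := by ring
    rw [e1, e2, e3]
    push_cast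
    ring

theorem swh_inner (K M n : ℕ) (hn : n ≤ M) :
    ∑ N ∈ Icc n M, ((N : ℝ) - n) ^ 2 * (-swhD K M N) = swhW K M (n + 1) + swhW K M (n + 2) := by
  have h0 : ∀ N, M < N → swhW K M N = 0 := by
    intro N hN
    unfold swhW
    rw [swhP_eq_zero K M N hN, zero_mul]
  have h1 := swh_tel (swhW K M) n (M + 1 - n)
  rw [show n + (M + 1 - n) = M + 1 by omega, h0 (M + 1) (by omega), h0 (M + 1 + 1) (by omega),
    h0 (M + 1 + 2) (by omega)] at h1
  have h2 : Icc n M = Ico n (M + 1) := by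
    ext x
    simp only [mem_Icc, mem_Ico]
    omega
  rw [h2, Finset.sum_Ico_eq_sum_range]
  have h3 : ∑ k ∈ range (M + 1 - n), (((n + k : ℕ) : ℝ) - n) ^ 2 * (-swhD K M (n + k)) =
      -∑ m ∈ range (M + 1 - n), (m : ℝ) ^ 2 * (swhW K M (n + m + 3) - 3 * swhW K M (n + m + 2) +
        3 * swhW K M (n + m + 1) - swhW K M (n + m)) := by
    rw [← Finset.sum_neg_distrib]
    refine Finset.sum_congr rfl fun m _ => ?_
    unfold swhD
    push_cast
    ring
  rw [h3, h1]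
  ring

theorem swh_ident (K M : ℕ) (a : ℕ → ℂ) :
    ∑ n ∈ Icc 1 M, (((n : ℝ) * (swhW K M (n + 1) + swhW K M (n + 2)) : ℝ) : ℂ) * a n =
      ∑ N ∈ Icc 1 M, ((-swhD K M N : ℝ) : ℂ) *
        ∑ n ∈ Icc 1 N, (((n : ℝ) * ((N : ℝ) - n) ^ 2 : ℝ) : ℂ) * a n := by
  have h1 : ∑ N ∈ Icc 1 M, ((-swhD K M N : ℝ) : ℂ) *
        ∑ n ∈ Icc 1 N, (((n : ℝ) * ((N : ℝ) - n) ^ 2 : ℝ) : ℂ) * a n =
      ∑ N ∈ Icc 1 M, ∑ n ∈ Icc 1 N,
        ((((N : ℝ) - n) ^ 2 * (-swhD K M N) : ℝ) : ℂ) * (((n : ℝ) : ℂ) * a n) := by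
    refine Finset.sum_congr rfl fun N _ => ?_
    rw [Finset.mul_sum]
    refine Finset.sum_congr rfl fun n _ => ?_
    push_cast
    ring
  rw [h1, Finset.sum_comm' (t' := Icc 1 M) (s' := fun n => Icc n M) (by
    intro x y
    simp only [mem_Icc]
    omega)]
  refine Finset.sum_congr rfl fun n hn => ?_
  rw [← Finset.sum_mul, ← Complex.ofReal_sum, swh_inner K M n (mem_Icc.1 hn).2]
  push_cast
  ring

theorem swh_S (a : ℕ → ℂ) (N : ℕ) (hN : 1 ≤ N) :
    ∑ n ∈ Icc 1 N, (((n : ℝ) * ((N : ℝ) - n) ^ 2 : ℝ) : ℂ) * a n =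
      (((N : ℝ) ^ 3 : ℝ) : ℂ) * ∑ n ∈ Icc 1 N, a n * ((om ((n : ℝ) / N) : ℝ) : ℂ) := by
  have hN0 : (0 : ℝ) < N := Nat.cast_pos.2 hN
  rw [Finset.mul_sum]
  refine Finset.sum_congr rfl fun n hn => ?_
  obtain ⟨h1, h2⟩ := mem_Icc.1 hn
  have h3 : om ((n : ℝ) / N) = (n : ℝ) / N * (1 - (n : ℝ) / N) ^ 2 := by
    unfold om
    rw [if_pos]
    refine ⟨by positivity, ?_⟩
    rw [div_le_one hN0]
    exact_mod_cast h2
  have h4 : (N : ℝ) ^ 3 * om ((n : ℝ) / N) = (n : ℝ) * ((N : ℝ) - n) ^ 2 := by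
    rw [h3]
    field_simp
  rw [← h4]
  push_cast
  ring

theorem swh_abel (b : ℕ → ℝ) (Y : ℕ) :
    ∑ n ∈ Icc 1 Y, b n / n = (∑ n ∈ Icc 1 Y, b n) / (Y + 1) +
      ∑ k ∈ Icc 1 Y, (∑ n ∈ Icc 1 k, b n) / ((k : ℝ) * (k + 1)) := by
  induction Y with
  | zero => simp
  | succ Y ih =>
    rw [Finset.sum_Icc_succ_top (by omega), Finset.sum_Icc_succ_top (by omega) (f := fun k =>
      (∑ n ∈ Icc 1 k, b n) / ((k : ℝ) * (k + 1))), ih, Finset.sum_Icc_succ_top (by omega) (f := b)]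
    push_cast
    have h1 : (0 : ℝ) < (Y : ℝ) + 1 := by positivity
    field_simp
    ring

theorem swh_harm (M : ℕ) : ∑ N ∈ Icc 1 M, (1 : ℝ) / N ≤ 1 + Real.log M := by
  have h := harmonic_le_one_add_log M
  rw [harmonic_eq_sum_Icc] at h
  push_cast at h
  simpa using h

theorem swh_tele (Y : ℕ) : ∑ k ∈ Icc 1 Y, (1 : ℝ) / ((k : ℝ) * (k + 1)) = 1 - 1 / (Y + 1) := by
  induction Y with
  | zero => simp
  | succ Y ih =>
    rw [Finset.sum_Icc_succ_top (by omega), ih]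
    push_cast
    field_simp
    ring

theorem swh_logsum (b : ℕ → ℝ) (H P : ℝ) (hH : 0 ≤ H) (hP : 1 ≤ P) (Y : ℕ)
    (hb : ∀ k, k ≤ Y → ∑ n ∈ Icc 1 k, b n ≤ H * (k + P)) :
    ∑ n ∈ Icc 1 Y, b n / n ≤ H * (4 * P + Real.log Y) := by
  rw [swh_abel]
  have hY : (0 : ℝ) ≤ Y := Nat.cast_nonneg _
  have h1 : (∑ n ∈ Icc 1 Y, b n) / ((Y : ℝ) + 1) ≤ H * (1 + P) := by
    rw [div_le_iff₀ (by positivity)]
    refine (hb Y le_rfl).trans ?_
    rw [mul_assoc]
    refine mul_le_mul_of_nonneg_left ?_ hH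
    nlinarith
  have h2 : ∑ k ∈ Icc 1 Y, (∑ n ∈ Icc 1 k, b n) / ((k : ℝ) * (k + 1)) ≤
      H * (1 + Real.log Y + P) := by
    calc ∑ k ∈ Icc 1 Y, (∑ n ∈ Icc 1 k, b n) / ((k : ℝ) * (k + 1))
        ≤ ∑ k ∈ Icc 1 Y, (H * (1 / (k : ℝ)) + H * P * (1 / ((k : ℝ) * (k + 1)))) := by
          refine Finset.sum_le_sum fun k hk => ?_
          obtain ⟨hk1, hk2⟩ := mem_Icc.1 hk
          have hk0 : (1 : ℝ) ≤ k := by exact_mod_cast hk1
          have hk0' : (0 : ℝ) < k := by linarith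
          have e : H * (1 / (k : ℝ)) + H * P * (1 / ((k : ℝ) * (k + 1))) =
              H * ((k : ℝ) + 1 + P) / ((k : ℝ) * (k + 1)) := by
            field_simp
          rw [e]
          refine div_le_div_of_nonneg_right ?_ (by positivity)
          refine (hb k hk2).trans (mul_le_mul_of_nonneg_left (by linarith) hH)
      _ = H * (∑ k ∈ Icc 1 Y, 1 / (k : ℝ)) + H * P * ∑ k ∈ Icc 1 Y, 1 / ((k : ℝ) * (k + 1)) := by
          rw [Finset.sum_add_distrib, Finset.mul_sum, Finset.mul_sum]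
      _ ≤ H * (1 + Real.log Y) + H * P * 1 := by
          refine add_le_add (mul_le_mul_of_nonneg_left (swh_harm Y) hH)
            (mul_le_mul_of_nonneg_left ?_ (by positivity))
          rw [swh_tele]
          have : (0 : ℝ) ≤ 1 / ((Y : ℝ) + 1) := by positivity
          linarith
      _ = _ := by ring
  have h3 : H * (1 + P) + H * (1 + Real.log Y + P) ≤ H * (4 * P + Real.log Y) := by
    nlinarith
  linarith

theorem swh_c_bounds (K M : ℕ) (hK : 0 < K) (n : ℕ) :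
    0 ≤ (n : ℝ) * (swhW K M (n + 1) + swhW K M (n + 2)) ∧
      (n : ℝ) * (swhW K M (n + 1) + swhW K M (n + 2)) ≤ 1 := by
  have hn : (0 : ℝ) ≤ n := Nat.cast_nonneg _
  have a1 := swhP_nonneg K M (n + 1)
  have a2 := swhP_nonneg K M (n + 2)
  have a3 := swhP_le_one K M hK (n + 1)
  have a4 := swhP_le_one K M hK (n + 2)
  have c1 : ((n + 1 : ℕ) : ℝ) = (n : ℝ) + 1 := by push_cast; ring
  have c2 : ((n + 2 : ℕ) : ℝ) = (n : ℝ) + 2 := by push_cast; ring
  have w1 : swhW K M (n + 1) ≤ 1 / (2 * ((n : ℝ) + 1)) := by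
    unfold swhW
    rw [c1]
    calc _ ≤ 1 * (1 / (2 * ((n : ℝ) + 1))) := mul_le_mul_of_nonneg_right a3 (by positivity)
      _ = _ := one_mul _
  have w2 : swhW K M (n + 2) ≤ 1 / (2 * ((n : ℝ) + 2)) := by
    unfold swhW
    rw [c2]
    calc _ ≤ 1 * (1 / (2 * ((n : ℝ) + 2))) := mul_le_mul_of_nonneg_right a4 (by positivity)
      _ = _ := one_mul _
  have w1' : 0 ≤ swhW K M (n + 1) := by
    unfold swhW
    positivity
  have w2' : 0 ≤ swhW K M (n + 2) := by
    unfold swhW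
    positivity
  refine ⟨by positivity, ?_⟩
  calc (n : ℝ) * (swhW K M (n + 1) + swhW K M (n + 2))
      ≤ (n : ℝ) * (1 / (2 * ((n : ℝ) + 1)) + 1 / (2 * ((n : ℝ) + 2))) :=
        mul_le_mul_of_nonneg_left (add_le_add w1 w2) hn
    _ ≤ 1 := by
        have e : (n : ℝ) * (1 / (2 * ((n : ℝ) + 1)) + 1 / (2 * ((n : ℝ) + 2))) =
          (n : ℝ) * (2 * n + 3) / (2 * ((n : ℝ) + 1) * ((n : ℝ) + 2)) := by
            field_simp
            ring
        rw [e, div_le_one (by positivity)]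
        nlinarith

theorem swh_c_low (K y : ℕ) (hK : 0 < K) (n : ℕ) (hn : 1 ≤ n) (hny : n ≤ y) :
    1 - (n : ℝ) * (swhW K (y + 2 + 3 * K) (n + 1) + swhW K (y + 2 + 3 * K) (n + 2)) ≤
      2 / (n : ℝ) := by
  have hn0 : (1 : ℝ) ≤ n := by exact_mod_cast hn
  have c1 : ((n + 1 : ℕ) : ℝ) = (n : ℝ) + 1 := by push_cast; ring
  have c2 : ((n + 2 : ℕ) : ℝ) = (n : ℝ) + 2 := by push_cast; ring
  unfold swhW
  rw [swhP_eq_one K _ hK (n + 1) (by omega), swhP_eq_one K _ hK (n + 2) (by omega), c1, c2]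
  have e : 1 - (n : ℝ) * (1 * (1 / (2 * ((n : ℝ) + 1))) + 1 * (1 / (2 * ((n : ℝ) + 2)))) =
      (3 * (n : ℝ) + 4) / (2 * ((n : ℝ) + 1) * ((n : ℝ) + 2)) := by
    field_simp
    ring
  rw [e, div_le_div_iff₀ (by positivity) (by positivity)]
  nlinarith

theorem smooth_to_sharp : ∃ C : ℝ, 0 < C ∧ ∀ (a : ℕ → ℂ) (B H P : ℝ) (y : ℕ) (δ : ℝ),
    0 ≤ B → 0 ≤ H → 1 ≤ P → 2 ≤ y → 0 < δ → δ ≤ 1 / 2 →
    (∀ N : ℕ, 1 ≤ N → N ≤ 2 * y → ‖∑ n ∈ Icc 1 N, a n * ((om ((n : ℝ) / N) : ℝ) : ℂ)‖ ≤ B) →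
    (∀ u v : ℕ, u ≤ v → v ≤ 2 * y → ∑ n ∈ Ioc u v, ‖a n‖ ≤ H * ((v : ℝ) - u + P)) →
    ‖∑ n ∈ Icc 1 y, a n‖
      ≤ C * (B * (1 / δ ^ 3 + Real.log y) + H * (δ * y + Real.log y + P / δ ^ 3)) := by
  refine ⟨30000, by norm_num, fun a B H P y δ hB hH hP hy hδ hδ2 hS hA => ?_⟩
  have hy0 : (2 : ℝ) ≤ y := by exact_mod_cast hy
  have hlog0 : 0 ≤ Real.log y := Real.log_nonneg (by linarith)
  have hlog2 : Real.log 2 ≤ Real.log y := Real.log_le_log (by norm_num) hy0
  have hδ3 : 0 < δ ^ 3 := by positivity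
  have hd1 : 1 / δ ≤ 1 / δ ^ 3 := by
    refine one_div_le_one_div_of_le hδ3 ?_
    nlinarith [sq_nonneg δ, mul_pos hδ hδ]
  have hd2 : 1 / δ ^ 2 ≤ 1 / δ ^ 3 := by
    refine one_div_le_one_div_of_le hδ3 ?_
    nlinarith [sq_nonneg δ, mul_pos hδ hδ]
  have hd0 : 1 ≤ 1 / δ ^ 3 := by
    rw [le_div_iff₀ hδ3]
    nlinarith [sq_nonneg δ, mul_pos hδ hδ]
  have hP3 : P ≤ P / δ ^ 3 := by
    rw [div_eq_mul_one_div]
    nlinarith
  have hIcc : ∀ N : ℕ, Icc 1 N = Ioc 0 N := by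
    intro N
    ext x
    simp only [mem_Icc, mem_Ioc]
    omega
  have hA0 : ∀ k : ℕ, k ≤ 2 * y → ∑ n ∈ Icc 1 k, ‖a n‖ ≤ H * ((k : ℝ) + P) := by
    intro k hk
    rw [hIcc]
    have := hA 0 k (Nat.zero_le _) hk
    simpa using this
  rcases lt_or_ge (δ * y) 6 with hsmall | hbig
  · -- trivial bound
    have h1 : ‖∑ n ∈ Icc 1 y, a n‖ ≤ H * ((y : ℝ) + P) :=
      (norm_sum_le _ _).trans (hA0 y (by omega))
    have h2 : (y : ℝ) ≤ 6 * (1 / δ) := by
      rw [mul_one_div, le_div_iff₀ hδ]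
      linarith
    have h3 : (y : ℝ) + P ≤ 7 * (P / δ ^ 3) := by
      have e1 : 6 * (1 / δ) ≤ 6 * (P / δ ^ 3) := by
        have : 1 / δ ^ 3 ≤ P / δ ^ 3 := div_le_div_of_nonneg_right hP hδ3.le
        linarith
      linarith
    have h4 : H * ((y : ℝ) + P) ≤ 7 * (H * (P / δ ^ 3)) := by
      calc H * ((y : ℝ) + P) ≤ H * (7 * (P / δ ^ 3)) := mul_le_mul_of_nonneg_left h3 hH
        _ = _ := by ring
    have h5 : 0 ≤ B * (1 / δ ^ 3 + Real.log y) := by positivity
    have h6 : 0 ≤ H * (δ * y + Real.log y) := by positivity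
    have h7 : 0 ≤ H * (P / δ ^ 3) := by positivity
    have h8 : H * (δ * y + Real.log y + P / δ ^ 3) = H * (δ * y + Real.log y) + H * (P / δ ^ 3) := by
      ring
    rw [h8]
    linarith
  · set K := ⌊δ * y / 6⌋₊ with hKdef
    have hKr : (K : ℝ) ≤ δ * y / 6 := Nat.floor_le (by positivity)
    have hKr2 : δ * y / 6 < K + 1 := Nat.lt_floor_add_one _
    have hK : 0 < K := by
      rw [hKdef, Nat.floor_pos]
      linarith
    have hK1 : (1 : ℝ) ≤ K := by exact_mod_cast hK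
    have hK' : (0 : ℝ) < K := by linarith
    have hK12 : δ * y / 12 ≤ K := by linarith
    have hy12 : (12 : ℝ) ≤ y := by nlinarith
    have hKy' : (K : ℝ) ≤ y / 12 := by nlinarith
    have hKy : K ≤ y := by
      have : (K : ℝ) ≤ y := by linarith
      exact_mod_cast this
    set M := y + 2 + 3 * K with hM
    have hMr : (M : ℝ) = y + 2 + 3 * K := by rw [hM]; push_cast; ring
    have hM2r : (M : ℝ) ≤ 2 * y := by rw [hMr]; linarith
    have hM2 : M ≤ 2 * y := by exact_mod_cast hM2r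
    have hM0 : (0 : ℝ) < M := by rw [hMr]; positivity
    set c : ℕ → ℝ := fun n => (n : ℝ) * (swhW K M (n + 1) + swhW K M (n + 2)) with hc
    -- the smooth part
    have hI : ‖∑ n ∈ Icc 1 M, ((c n : ℝ) : ℂ) * a n‖ ≤
        B * (3 * (1 + Real.log M) + 27648 * (1 / δ ^ 2)) := by
      rw [hc]
      simp only []
      rw [swh_ident K M a]
      calc ‖∑ N ∈ Icc 1 M, ((-swhD K M N : ℝ) : ℂ) *
            ∑ n ∈ Icc 1 N, (((n : ℝ) * ((N : ℝ) - n) ^ 2 : ℝ) : ℂ) * a n‖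
          ≤ ∑ N ∈ Icc 1 M, B * (3 / (N : ℝ) + (if y ≤ N then 8 * (N : ℝ) ^ 2 / K ^ 3 else 0)) := by
            refine (norm_sum_le _ _).trans (Finset.sum_le_sum fun N hN => ?_)
            obtain ⟨hN1, hN2⟩ := mem_Icc.1 hN
            rw [swh_S a N hN1, norm_mul, norm_mul, Complex.norm_real, Complex.norm_real,
              Real.norm_eq_abs, Real.norm_eq_abs, abs_neg,
              abs_of_nonneg (by positivity : (0 : ℝ) ≤ (N : ℝ) ^ 3)]
            have h1 := hS N hN1 (hN2.trans hM2)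
            have h2 := swhD_bound K y hK hKy N hN1
            calc |swhD K M N| * ((N : ℝ) ^ 3 *
                  ‖∑ n ∈ Icc 1 N, a n * ((om ((n : ℝ) / N) : ℝ) : ℂ)‖)
                ≤ |swhD K M N| * ((N : ℝ) ^ 3 * B) := by
                  refine mul_le_mul_of_nonneg_left ?_ (abs_nonneg _)
                  exact mul_le_mul_of_nonneg_left h1 (by positivity)
              _ = B * ((N : ℝ) ^ 3 * |swhD K M N|) := by ring
              _ ≤ _ := mul_le_mul_of_nonneg_left h2 hB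
        _ = B * (3 * (∑ N ∈ Icc 1 M, 1 / (N : ℝ)) +
            ∑ N ∈ Icc 1 M, (if y ≤ N then 8 * (N : ℝ) ^ 2 / K ^ 3 else 0)) := by
            rw [← Finset.mul_sum, Finset.sum_add_distrib]
            congr 2
            rw [Finset.mul_sum]
            exact Finset.sum_congr rfl fun N _ => by ring
        _ ≤ B * (3 * (1 + Real.log M) + 27648 * (1 / δ ^ 2)) := by
            refine mul_le_mul_of_nonneg_left (add_le_add
              (mul_le_mul_of_nonneg_left (swh_harm M) (by norm_num)) ?_) hB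
            rw [← Finset.sum_filter]
            have hcard : ((Icc 1 M).filter (fun N => y ≤ N)).card ≤ 3 * K + 3 := by
              calc ((Icc 1 M).filter (fun N => y ≤ N)).card ≤ (Icc y M).card := by
                    refine Finset.card_le_card fun x hx => ?_
                    rw [Finset.mem_filter, mem_Icc] at hx
                    exact mem_Icc.2 ⟨hx.2, hx.1.2⟩
                _ = 3 * K + 3 := by
                    rw [Nat.card_Icc]
                    omega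
            have hb : ∀ N ∈ (Icc 1 M).filter (fun N => y ≤ N),
                8 * (N : ℝ) ^ 2 / K ^ 3 ≤ 8 * (M : ℝ) ^ 2 / K ^ 3 := by
              intro N hN
              rw [Finset.mem_filter, mem_Icc] at hN
              have : (N : ℝ) ≤ M := by exact_mod_cast hN.1.2
              gcongr
            have h3 := Finset.sum_le_card_nsmul _ _ _ hb
            rw [nsmul_eq_mul] at h3
            refine h3.trans ?_
            have h4 : ((((Icc 1 M).filter (fun N => y ≤ N)).card : ℕ) : ℝ) ≤ 6 * K := by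
              have : ((((Icc 1 M).filter (fun N => y ≤ N)).card : ℕ) : ℝ) ≤ 3 * K + 3 := by
                exact_mod_cast hcard
              linarith
            calc _ ≤ (6 * K) * (8 * (M : ℝ) ^ 2 / K ^ 3) :=
                  mul_le_mul_of_nonneg_right h4 (by positivity)
              _ = 48 * ((M : ℝ) / K) ^ 2 := by
                  field_simp
                  ring
              _ ≤ 48 * (24 / δ) ^ 2 := by
                  have h5 : (M : ℝ) / K ≤ 24 / δ := by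
                    rw [div_le_div_iff₀ hK' hδ]
                    nlinarith
                  have h6 : 0 ≤ (M : ℝ) / K := by positivity
                  have h7 := pow_le_pow_left₀ h6 h5 2
                  linarith
              _ = 27648 * (1 / δ ^ 2) := by
                  field_simp
                  ring
    -- decomposition
    have hdec : ∑ n ∈ Icc 1 y, a n = ∑ n ∈ Icc 1 M, ((c n : ℝ) : ℂ) * a n +
        ∑ n ∈ Icc 1 y, ((1 - c n : ℝ) : ℂ) * a n - ∑ n ∈ Ioc y M, ((c n : ℝ) : ℂ) * a n := by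
      have h1 : ∑ n ∈ Icc 1 M, ((c n : ℝ) : ℂ) * a n = ∑ n ∈ Icc 1 y, ((c n : ℝ) : ℂ) * a n +
          ∑ n ∈ Ioc y M, ((c n : ℝ) : ℂ) * a n := by
        rw [hIcc, hIcc]
        exact (Finset.sum_Ioc_consecutive _ (Nat.zero_le y) (by omega)).symm
      have h2 : ∑ n ∈ Icc 1 y, a n = ∑ n ∈ Icc 1 y, ((c n : ℝ) : ℂ) * a n +
          ∑ n ∈ Icc 1 y, ((1 - c n : ℝ) : ℂ) * a n := by
        rw [← Finset.sum_add_distrib]
        refine Finset.sum_congr rfl fun n _ => ?_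
        push_cast
        ring
      rw [h1, h2]
      ring
    have hII : ‖∑ n ∈ Icc 1 y, ((1 - c n : ℝ) : ℂ) * a n‖ ≤ 2 * (H * (4 * P + Real.log y)) := by
      calc ‖∑ n ∈ Icc 1 y, ((1 - c n : ℝ) : ℂ) * a n‖
          ≤ ∑ n ∈ Icc 1 y, 2 * (‖a n‖ / n) := by
            refine (norm_sum_le _ _).trans (Finset.sum_le_sum fun n hn => ?_)
            obtain ⟨h1, h2⟩ := mem_Icc.1 hn
            rw [norm_mul, Complex.norm_real, Real.norm_eq_abs]
            have h3 := swh_c_low K y hK n h1 h2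
            have h4 := (swh_c_bounds K M hK n).2
            have h5 : 0 ≤ 1 - c n := by
              rw [hc]
              simp only []
              linarith
            rw [abs_of_nonneg h5]
            calc (1 - c n) * ‖a n‖ ≤ (2 / (n : ℝ)) * ‖a n‖ :=
                  mul_le_mul_of_nonneg_right h3 (norm_nonneg _)
              _ = 2 * (‖a n‖ / n) := by ring
        _ = 2 * ∑ n ∈ Icc 1 y, ‖a n‖ / n := by rw [Finset.mul_sum]
        _ ≤ 2 * (H * (4 * P + Real.log y)) :=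
            mul_le_mul_of_nonneg_left (swh_logsum (fun n => ‖a n‖) H P hH hP y
              (fun k hk => hA0 k (by omega))) (by norm_num)
    have hIII : ‖∑ n ∈ Ioc y M, ((c n : ℝ) : ℂ) * a n‖ ≤ H * (δ * y + 3 * P) := by
      calc ‖∑ n ∈ Ioc y M, ((c n : ℝ) : ℂ) * a n‖ ≤ ∑ n ∈ Ioc y M, ‖a n‖ := by
            refine (norm_sum_le _ _).trans (Finset.sum_le_sum fun n _ => ?_)
            rw [norm_mul, Complex.norm_real, Real.norm_eq_abs]
            obtain ⟨h3, h4⟩ := swh_c_bounds K M hK n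
            rw [hc]
            simp only []
            rw [abs_of_nonneg h3]
            calc _ ≤ 1 * ‖a n‖ := mul_le_mul_of_nonneg_right h4 (norm_nonneg _)
              _ = _ := one_mul _
        _ ≤ H * ((M : ℝ) - y + P) := hA y M (by omega) hM2
        _ ≤ H * (δ * y + 3 * P) := by
            refine mul_le_mul_of_nonneg_left ?_ hH
            rw [hMr]
            linarith
    have hlogM : Real.log M ≤ 2 * Real.log y := by
      calc Real.log M ≤ Real.log (2 * y) := Real.log_le_log hM0 hM2r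
        _ = Real.log 2 + Real.log y := Real.log_mul (by norm_num) (by positivity)
        _ ≤ 2 * Real.log y := by linarith
    have htot : ‖∑ n ∈ Icc 1 y, a n‖ ≤ B * (3 * (1 + Real.log M) + 27648 * (1 / δ ^ 2)) +
        2 * (H * (4 * P + Real.log y)) + H * (δ * y + 3 * P) := by
      rw [hdec]
      refine (norm_sub_le _ _).trans (add_le_add ((norm_add_le _ _).trans (add_le_add hI hII)) hIII)
    have f1 : B * (3 * (1 + Real.log M) + 27648 * (1 / δ ^ 2)) ≤
        30000 * (B * (1 / δ ^ 3 + Real.log y)) := by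
      have : 3 * (1 + Real.log M) + 27648 * (1 / δ ^ 2) ≤ 30000 * (1 / δ ^ 3 + Real.log y) := by
        linarith
      calc _ ≤ B * (30000 * (1 / δ ^ 3 + Real.log y)) := mul_le_mul_of_nonneg_left this hB
        _ = _ := by ring
    have f2 : 2 * (H * (4 * P + Real.log y)) + H * (δ * y + 3 * P) ≤
        30000 * (H * (δ * y + Real.log y + P / δ ^ 3)) := by
      have h1 : 0 ≤ δ * y := by positivity
      have h2 : 2 * (4 * P + Real.log y) + (δ * y + 3 * P) ≤
          30000 * (δ * y + Real.log y + P / δ ^ 3) := by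
        have h3 : 0 ≤ P / δ ^ 3 := by positivity
        linarith
      calc 2 * (H * (4 * P + Real.log y)) + H * (δ * y + 3 * P)
          = H * (2 * (4 * P + Real.log y) + (δ * y + 3 * P)) := by ring
        _ ≤ H * (30000 * (δ * y + Real.log y + P / δ ^ 3)) := mul_le_mul_of_nonneg_left h2 hH
        _ = _ := by ring
    linarith

end Pool.Agent.H91.EHA

end

section

/-!
# The series of `(Λ(n) - 1)(log n)^k` for `|Im s| ≤ 1`

The series is `(-1)^k G^{(k)}(s)`, `G = -ζ'/ζ - ζ`, and `G` extends to a function analytic in a neighbourhood of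
`{1 ≤ Re s ≤ 2, |Im s| ≤ 1}`: `ζ(s) = h(s)/(s-1)` with `h` entire (removable singularity), `h(1) = 1`,
`h ≠ 0` on `Re s ≥ 1` (`riemannZeta_ne_zero_of_one_le_re`), so
`-ζ'/ζ - ζ = -h'/h + 1/(s-1) - h/(s-1) = -h'/h - (h(s)-h(1))/(s-1)`.
A continuous function on a compact set is bounded.
-/

set_option autoImplicit false

namespace Pool.Agent.H91.EHA

open Finset

/-- The function `Λ - 1` with complex values. -/
private noncomputable def swj2F (n : ℕ) : ℂ := ((Lam n : ℝ) : ℂ) - 1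

/-- The analytic continuation of `-ζ'/ζ - ζ`. -/
private noncomputable def swj2G (s : ℂ) : ℂ :=
  -(deriv riemannZeta₁ s / riemannZeta₁ s) - riemannZeta₀ s

private theorem swj2_ne (s : ℂ) (hs : 1 ≤ s.re) : riemannZeta₁ s ≠ 0 := by
  by_cases h1 : s = 1
  · rw [h1, riemannZeta₁_one]
    exact one_ne_zero
  · intro h0
    have h2 := riemannZeta_ne_zero_of_one_le_re hs
    apply h2
    rw [riemannZeta_eq_inv_sub_mul h1, h0, mul_zero]

private theorem swj2_analytic (s : ℂ) (hs : 1 ≤ s.re) : AnalyticAt ℂ swj2G s := by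
  have h1 : AnalyticAt ℂ riemannZeta₁ s := differentiable_riemannZeta₁.analyticAt s
  have h0 : AnalyticAt ℂ riemannZeta₀ s := differentiable_riemannZeta₀.analyticAt s
  exact ((h1.deriv.div h1 (swj2_ne s hs)).neg).sub h0

private theorem swj2_summable (s : ℂ) (hs : 1 < s.re) : LSeriesSummable swj2F s := by
  have h1 : LSeriesSummable (fun n : ℕ => ((ArithmeticFunction.vonMangoldt n : ℝ) : ℂ)) s :=
    ArithmeticFunction.LSeriesSummable_vonMangoldt hs
  have h2 : LSeriesSummable (1 : ℕ → ℂ) s := LSeriesSummable_one_iff.mpr hs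
  exact h1.sub h2

private theorem swj2_eq (s : ℂ) (hs : 1 < s.re) : LSeries swj2F s = swj2G s := by
  have h1 : LSeriesSummable (fun n : ℕ => ((ArithmeticFunction.vonMangoldt n : ℝ) : ℂ)) s :=
    ArithmeticFunction.LSeriesSummable_vonMangoldt hs
  have h2 : LSeriesSummable (1 : ℕ → ℂ) s := LSeriesSummable_one_iff.mpr hs
  have h3 : LSeries swj2F s = LSeries (fun n : ℕ => ((ArithmeticFunction.vonMangoldt n : ℝ) : ℂ)) s -
      LSeries 1 s := LSeries_sub h1 h2
  have hne : s ≠ 1 := by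
    intro h
    rw [h, Complex.one_re] at hs
    exact lt_irrefl _ hs
  have hz1 := swj2_ne s hs.le
  have hs1 : s - 1 ≠ 0 := sub_ne_zero.mpr hne
  rw [h3, ArithmeticFunction.LSeries_vonMangoldt_eq_deriv_riemannZeta_div hs,
    LSeries_one_eq_riemannZeta hs, deriv_riemannZeta_eq_neg_inv_sub_sq_mul_add hne]
  have h4 : riemannZeta s = (s - 1)⁻¹ * riemannZeta₁ s := riemannZeta_eq_inv_sub_mul hne
  have h5 : riemannZeta s = (s - 1)⁻¹ + riemannZeta₀ s := riemannZeta_eq_inv_sub_add hne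
  have h6 : riemannZeta₀ s = (s - 1)⁻¹ * riemannZeta₁ s - (s - 1)⁻¹ := by
    rw [← h4, h5]; ring
  unfold swj2G
  rw [h4, h6]
  field_simp
  ring

private theorem swj2_logMul (k n : ℕ) :
    (LSeries.logMul^[k] swj2F) n = Complex.log n ^ k * swj2F n := by
  induction k generalizing n with
  | zero => simp
  | succ k ih =>
    rw [Function.iterate_succ_apply', LSeries.logMul, ih, pow_succ]
    ring

theorem zetaF_low (k : ℕ) : ∃ C : ℝ, 0 < C ∧ ∀ s : ℂ, 1 < s.re → s.re ≤ 2 → |s.im| ≤ 1 →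
    ‖LSeries (fun n => (((Lam n - 1) * Real.log n ^ k : ℝ) : ℂ)) s‖ ≤ C := by
  have hK : IsCompact ((Set.Icc (1 : ℝ) 2) ×ℂ (Set.Icc (-1 : ℝ) 1)) :=
    isCompact_Icc.reProdIm isCompact_Icc
  have hc : ContinuousOn (iteratedDeriv k swj2G) ((Set.Icc (1 : ℝ) 2) ×ℂ (Set.Icc (-1 : ℝ) 1)) := by
    intro s hs
    rw [iteratedDeriv_eq_iterate]
    exact ((swj2_analytic s hs.1.1).iterated_deriv k).continuousAt.continuousWithinAt
  obtain ⟨B, hB⟩ := hK.exists_bound_of_continuousOn hc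
  refine ⟨|B| + 1, by positivity, fun s h1 h2 h3 => ?_⟩
  have hab : LSeries.abscissaOfAbsConv swj2F ≤ ((1 : ℝ) : EReal) := by
    refine LSeries.abscissaOfAbsConv_le_of_forall_lt_LSeriesSummable fun y hy => ?_
    exact swj2_summable y (by simpa using hy)
  have hab2 : LSeries.abscissaOfAbsConv swj2F < (s.re : EReal) :=
    lt_of_le_of_lt hab (by exact_mod_cast h1)
  have h4 := LSeries_iteratedDeriv (f := swj2F) k hab2
  have h5 : LSeries swj2F =ᶠ[nhds s] swj2G := by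
    have ho : IsOpen {z : ℂ | 1 < z.re} := isOpen_lt continuous_const Complex.continuous_re
    filter_upwards [ho.mem_nhds h1] with z hz
    exact swj2_eq z hz
  rw [h5.iteratedDeriv_eq k] at h4
  have h6 : LSeries (fun n => (((Lam n - 1) * Real.log n ^ k : ℝ) : ℂ)) s =
      LSeries (LSeries.logMul^[k] swj2F) s := by
    refine LSeries_congr (fun {n} _ => ?_) s
    rw [swj2_logMul, Complex.ofReal_mul, Complex.ofReal_pow, Complex.ofReal_log (Nat.cast_nonneg n),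
      Complex.ofReal_natCast]
    unfold swj2F
    push_cast
    ring
  have h7 : ‖LSeries (LSeries.logMul^[k] swj2F) s‖ = ‖iteratedDeriv k swj2G s‖ := by
    rw [h4, norm_mul, norm_pow, norm_neg, norm_one, one_pow, one_mul]
  rw [h6, h7]
  have hs : s ∈ (Set.Icc (1 : ℝ) 2) ×ℂ (Set.Icc (-1 : ℝ) 1) :=
    ⟨⟨h1.le, h2⟩, abs_le.mp h3⟩
  have h8 := hB s hs
  have h9 := le_abs_self B
  linarith

end Pool.Agent.H91.EHA

end

section

/-!
PK DiA: Λ in one residue class through primitive characters.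

Let L = log N, N ≥ 3, 1 ≤ d ≤ N, (N,d) = 1,
  A(d) = ∑_{n ≤ N, d | N - n} Λ(n) W(n),   MW = ∑_{n ≤ N} Λ(n) W(n).
Then |A(d) - MW/φ(d)| ≤ L² + (1/φ(d)) ∑_{χ mod d, χ ≠ 1} |TT N k χ*|, χ* = the primitive character inducing χ.

Proof.  d | N-n with (N,d)=1 forces (n,d)=1 and n ≡ N; by `DirichletCharacter.sum_char_inv_mul_char_eq`
  A(d) = (1/φ(d)) ∑_χ χ(N)⁻¹ TT N k χ  (|χ(N)⁻¹| ≤ 1).  For χ = 1: TT N k 1 = MW - ∑_{(n,d)>1} Λ(n)W(n).
For every χ: TT N k χ = TT N k χ* - ∑_{(n,d)>1} Λ(n) χ*(n) W(n) (χ(n) = χ*(n) for (n,d)=1: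
`DirichletCharacter.primitiveCharacter_apply_of_isCoprime`, and χ(n) = 0 otherwise).
Error: ∑_{n ≤ N, (n,d)>1} Λ(n) W(n) ≤ (4/27) ∑_{q | d} ∑_{j : q^j ≤ N} log q ≤ (4/27) ω(d) L ≤ (4/27)(1.45) L²  ≤ 0.22 L²
 (0 ≤ W ≤ 4/27 as log n/log N ≤ 1; 2^ω(d) ≤ d ≤ N).  Two such errors.
-/

set_option autoImplicit false

namespace Pool.Agent.H91.PK

open Finset

theorem DiA_omega_le {d : ℕ} (hd : 1 ≤ d) : (d.primeFactors.card : ℝ) * Real.log 2 ≤ Real.log d := by
  have h1 : 2 ^ d.primeFactors.card ≤ d := by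
    calc 2 ^ d.primeFactors.card ≤ ∏ p ∈ d.primeFactors, p :=
          Finset.pow_card_le_prod _ _ _ (fun p hp => (Nat.prime_of_mem_primeFactors hp).two_le)
      _ ≤ d := Nat.le_of_dvd hd (Nat.prod_primeFactors_dvd d)
  have h2 : ((2 : ℝ) ^ d.primeFactors.card) ≤ d := by exact_mod_cast h1
  have h3 := Real.log_le_log (by positivity) h2
  rwa [Real.log_pow] at h3

theorem DiA_psi_noncoprime {N d : ℕ} (hN : 1 ≤ N) (hd : 1 ≤ d) :
    ∑ n ∈ (Icc 1 N).filter (fun n => ¬ Nat.Coprime n d), ArithmeticFunction.vonMangoldt n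
      ≤ (d.primeFactors.card : ℝ) * Real.log N := by
  classical
  have key : ∀ n ∈ (Icc 1 N).filter (fun n => ¬ Nat.Coprime n d),
      ArithmeticFunction.vonMangoldt n ≤ ∑ q ∈ d.primeFactors,
        (if n ∈ (Icc 1 (Nat.log q N)).image (fun j => q ^ j) then
          ArithmeticFunction.vonMangoldt n else 0) := by
    intro n hn
    rw [mem_filter, mem_Icc] at hn
    have hnn : ∀ q ∈ d.primeFactors,
        0 ≤ (if n ∈ (Icc 1 (Nat.log q N)).image (fun j => q ^ j) then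
          ArithmeticFunction.vonMangoldt n else 0) := by
      intro q _
      split_ifs
      · exact ArithmeticFunction.vonMangoldt_nonneg
      · exact le_rfl
    by_cases hp : IsPrimePow n
    · obtain ⟨p, j, hp1, hj, rfl⟩ := hp
      have hpp : p.Prime := Nat.prime_iff.mpr hp1
      have hpd : p ∣ d := by
        by_contra hcon
        exact hn.2 (Nat.Coprime.pow_left _ ((Nat.Prime.coprime_iff_not_dvd hpp).mpr hcon))
      have hmem : p ∈ d.primeFactors := Nat.mem_primeFactors.mpr ⟨hpp, hpd, by omega⟩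
      refine le_trans ?_ (single_le_sum hnn hmem)
      rw [if_pos]
      refine mem_image.mpr ⟨j, ?_, rfl⟩
      rw [mem_Icc]
      exact ⟨hj, (Nat.le_log_iff_pow_le hpp.one_lt (by omega)).mpr hn.1.2⟩
    · rw [ArithmeticFunction.vonMangoldt_eq_zero_iff.mpr hp]
      simp
  calc ∑ n ∈ (Icc 1 N).filter (fun n => ¬ Nat.Coprime n d), ArithmeticFunction.vonMangoldt n
      ≤ ∑ n ∈ (Icc 1 N).filter (fun n => ¬ Nat.Coprime n d), ∑ q ∈ d.primeFactors,
        (if n ∈ (Icc 1 (Nat.log q N)).image (fun j => q ^ j) then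
          ArithmeticFunction.vonMangoldt n else 0) := sum_le_sum key
    _ = ∑ q ∈ d.primeFactors, ∑ n ∈ (Icc 1 N).filter (fun n => ¬ Nat.Coprime n d),
        (if n ∈ (Icc 1 (Nat.log q N)).image (fun j => q ^ j) then
          ArithmeticFunction.vonMangoldt n else 0) := sum_comm
    _ ≤ ∑ q ∈ d.primeFactors, Real.log N := by
        refine sum_le_sum fun q hq => ?_
        have hqp := Nat.prime_of_mem_primeFactors hq
        rw [← sum_filter]
        calc ∑ n ∈ ((Icc 1 N).filter (fun n => ¬ Nat.Coprime n d)).filter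
              (fun n => n ∈ (Icc 1 (Nat.log q N)).image (fun j => q ^ j)),
              ArithmeticFunction.vonMangoldt n
            ≤ ∑ n ∈ (Icc 1 (Nat.log q N)).image (fun j => q ^ j),
              ArithmeticFunction.vonMangoldt n := by
              refine sum_le_sum_of_subset_of_nonneg ?_
                (fun _ _ _ => ArithmeticFunction.vonMangoldt_nonneg)
              intro n hn
              exact (mem_filter.mp hn).2
          _ = ∑ j ∈ Icc 1 (Nat.log q N), ArithmeticFunction.vonMangoldt (q ^ j) := by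
              refine sum_image ?_
              intro a _ b _ hab
              exact Nat.pow_right_injective hqp.two_le hab
          _ = ∑ j ∈ Icc 1 (Nat.log q N), Real.log q := by
              refine sum_congr rfl fun j hj => ?_
              rw [mem_Icc] at hj
              rw [ArithmeticFunction.vonMangoldt_apply_pow (by omega),
                ArithmeticFunction.vonMangoldt_apply_prime hqp]
          _ = (Nat.log q N : ℝ) * Real.log q := by
              rw [sum_const, Nat.card_Icc, nsmul_eq_mul]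
              norm_num
          _ ≤ Real.log N := by
              rw [← Real.log_pow]
              refine Real.log_le_log ?_ ?_
              · have : (0 : ℝ) < q := by exact_mod_cast hqp.pos
                positivity
              · exact_mod_cast Nat.pow_log_le_self q (by omega)
    _ = (d.primeFactors.card : ℝ) * Real.log N := by
        rw [sum_const, nsmul_eq_mul]

theorem DiA_norm_char_le {m : ℕ} (χ : DirichletCharacter ℂ m) (a : ZMod m) : ‖χ a‖ ≤ 1 :=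
  χ.norm_le_one a

/-- values of the primitive character -/
theorem DiA_prim_eq {d n : ℕ} (χ : DirichletCharacter ℂ d) (h : Nat.Coprime n d) :
    χ.primitiveCharacter (n : ZMod χ.conductor) = χ (n : ZMod d) := by
  have h1 : IsCoprime (n : ℤ) (d : ℤ) := Nat.isCoprime_iff_coprime.mpr h
  have h2 := DirichletCharacter.primitiveCharacter_apply_of_isCoprime χ h1
  simpa using h2

theorem DiA_char_zero {d n : ℕ} (χ : DirichletCharacter ℂ d) (h : ¬ Nat.Coprime n d) :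
    χ (n : ZMod d) = 0 := by
  refine χ.map_nonunit ?_
  intro hu
  exact h ((ZMod.isUnit_iff_coprime n d).mp hu)

end Pool.Agent.H91.PK

end

section

/-!
# PROJECT VKT (H97/VK of helper97 with the parameter `T0.t` in place of `9/10`), Part I.b: sieved Dirichlet characters

Notation: `L = log x`, `L9 x = L^{9/10}`, `LL x = log L`, `y = Yx x = ⌊exp(L^{9/10})⌋`.  A character `χ` mod `d` is replaced by the character
`ch x χ` modulo `qm x d = d · y#` induced by it: `ch x χ n = χ(n)` if `n` has no prime factor `≤ y`, otherwise `0`.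
The tools `Lk`, `Fk` (`∑ χ(n) (log n)^k n^{-s}`, `∑ Λ(n) χ(n) (log n)^k n^{-s}`) of EHA are applied to `ch x χ`.
-/

set_option autoImplicit false

namespace Pool.Agent.H76.VKT

open Finset

/-- the parameter `t ∈ (2/3, 1)`; it replaces `9/10` in `Pool.Agent.H97.VK` -/
class T0 where
  /-- the exponent -/
  t : ℝ
  lo : 2 / 3 < t
  hi : t < 1

variable [T0]

/-- `(log x)^t` -/
noncomputable def L9 (x : ℕ) : ℝ := Real.log x ^ T0.t

/-- `log log x` -/
noncomputable def LL (x : ℕ) : ℝ := Real.log (Real.log x)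

/-- the sieving level -/
noncomputable def Yx (x : ℕ) : ℕ := ⌊Real.exp (L9 x)⌋₊

/-- the modulus `d · y#` -/
noncomputable def qm (x d : ℕ) : ℕ := d * primorial (Yx x)

/-- the character modulo `qm x d` induced by `χ` -/
noncomputable def ch (x : ℕ) {d : ℕ} (χ : DirichletCharacter ℂ d) : DirichletCharacter ℂ (qm x d) :=
  DirichletCharacter.changeLevel (Dvd.intro _ rfl) χ

theorem qm_pos (x d : ℕ) (hd : 1 ≤ d) : 1 ≤ qm x d :=
  Nat.mul_pos hd (primorial_pos _)

theorem ch_sq (x : ℕ) {d : ℕ} (χ : DirichletCharacter ℂ d) : ch x χ ^ 2 = ch x (χ ^ 2) := by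
  unfold ch
  rw [map_pow]
  rfl

theorem ch_apply (x : ℕ) {d : ℕ} (hd : 1 ≤ d) (χ : DirichletCharacter ℂ d) (n : ℕ) :
    ch x χ (n : ZMod (qm x d)) =
      if n.Coprime (primorial (Yx x)) then χ (n : ZMod d) else 0 := by
  have hq0 : qm x d ≠ 0 := by have := qm_pos x d hd; omega
  by_cases h1 : n.Coprime (qm x d)
  · have h2 : n.Coprime (primorial (Yx x)) := by
      unfold qm at h1
      exact (Nat.coprime_mul_iff_right.1 h1).2
    rw [if_pos h2]
    unfold ch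
    have h3 : IsCoprime (n : ℤ) (qm x d : ℤ) := Nat.isCoprime_iff_coprime.2 h1
    have h4 := DirichletCharacter.changeLevel_eq_cast_of_dvd' χ
      (Dvd.intro (primorial (Yx x)) rfl : d ∣ qm x d) h3
    rw [Int.cast_natCast, Int.cast_natCast] at h4
    exact h4
  · have h2 : ¬ IsUnit (n : ZMod (qm x d)) := by
      rw [ZMod.isUnit_iff_coprime]; exact h1
    rw [MulChar.map_nonunit _ h2]
    split_ifs with h3
    · have h4 : ¬ n.Coprime d := by
        intro h5
        apply h1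
        unfold qm
        exact Nat.coprime_mul_iff_right.2 ⟨h5, h3⟩
      have h5 : ¬ IsUnit (n : ZMod d) := by
        rw [ZMod.isUnit_iff_coprime]; exact h4
      rw [MulChar.map_nonunit _ h5]
    · rfl

theorem ch_norm_le (x : ℕ) {d : ℕ} (χ : DirichletCharacter ℂ d) (n : ZMod (qm x d)) : ‖ch x χ n‖ ≤ 1 :=
  DirichletCharacter.norm_le_one _ _

omit [T0] in
theorem cop_gt (y n : ℕ) (hy : 2 ≤ y) (hn : n.Coprime (primorial y)) : n = 1 ∨ y < n := by
  by_contra hcon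
  push Not at hcon
  obtain ⟨h1, h2⟩ := hcon
  have h3 : n.minFac.Prime := Nat.minFac_prime h1
  rcases Nat.eq_zero_or_pos n with h0 | h0
  · subst h0
    have h4 : 2 ∣ primorial y := Nat.prime_two.dvd_primorial_iff.2 hy
    rw [Nat.coprime_zero_left] at hn
    rw [hn] at h4
    omega
  · have h4 : n.minFac ≤ y := (Nat.minFac_le h0).trans h2
    have h5 : n.minFac ∣ primorial y := h3.dvd_primorial_iff.2 h4
    exact Nat.not_coprime_of_dvd_of_dvd h3.one_lt (Nat.minFac_dvd n) h5 hn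

theorem yx_ev : ∃ x0 : ℕ, ∀ x : ℕ, x0 ≤ x → 3 ≤ Yx x ∧ Real.log (Yx x) ≤ L9 x ∧ L9 x / 2 ≤ Real.log (Yx x) ∧
    1 ≤ LL x ∧ 1 ≤ L9 x ∧ 1 ≤ Real.log x ∧ (Yx x : ℝ) + 1 ≤ x := by
  have hlo := T0.lo
  have hhi := T0.hi
  have hev : ∀ᶠ L : ℝ in Filter.atTop, 1024 ≤ L ∧ 512 ≤ L ^ T0.t ∧ 2 ≤ L ^ (1 - T0.t) := by
    filter_upwards [Filter.eventually_ge_atTop (1024 : ℝ),
      (tendsto_rpow_atTop (show 0 < T0.t by linarith)).eventually_ge_atTop 512,
      (tendsto_rpow_atTop (show 0 < 1 - T0.t by linarith)).eventually_ge_atTop 2] with L h1 h2 h3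
    exact ⟨h1, h2, h3⟩
  obtain ⟨x1, hx1'⟩ := Filter.eventually_atTop.1
    ((Real.tendsto_log_atTop.comp tendsto_natCast_atTop_atTop).eventually hev)
  refine ⟨max x1 1, fun x hx => ?_⟩
  obtain ⟨hL1, h512', hpow2⟩ := hx1' x ((le_max_left _ _).trans hx)
  simp only [Function.comp_apply] at hL1 h512' hpow2
  have hx0 : (0:ℝ) < x := by
    have : 1 ≤ x := (le_max_right _ _).trans hx
    exact_mod_cast this
  obtain ⟨L, hL⟩ : ∃ L, L = Real.log x := ⟨_, rfl⟩
  rw [← hL] at hL1 h512' hpow2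
  have hL0 : 0 < L := by linarith
  obtain ⟨M, hM⟩ : ∃ M, M = L9 x := ⟨_, rfl⟩
  have hM1 : M = L ^ T0.t := by rw [hM, hL]; rfl
  have h512 : (512:ℝ) ≤ M := by rw [hM1]; exact h512'
  have hML : M ≤ L / 2 := by
    have h2 : M * L ^ (1 - T0.t) = L := by
      rw [hM1, ← Real.rpow_add hL0]
      rw [show T0.t + (1 - T0.t) = 1 by ring, Real.rpow_one]
    have h3 : 0 ≤ M := by linarith
    nlinarith
  have hexpM : 512 ≤ Real.exp (M / 2) := by
    have := Real.add_one_le_exp (M / 2)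
    have h4 : Real.exp (M / 4) ^ 2 = Real.exp (M / 2) := by
      rw [← Real.exp_nat_mul]; congr 1; push_cast; ring
    have h5 := Real.add_one_le_exp (M / 4)
    nlinarith
  have hsq : Real.exp M = Real.exp (M / 2) * Real.exp (M / 2) := by
    rw [← Real.exp_add]; congr 1; ring
  have hY1 : (Yx x : ℝ) ≤ Real.exp M := by
    unfold Yx; rw [← hM]; exact Nat.floor_le (Real.exp_pos _).le
  have hY2 : Real.exp (M / 2) + 3 ≤ (Yx x : ℝ) := by
    have h1 : Real.exp M < (Yx x : ℝ) + 1 := by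
      unfold Yx; rw [← hM]; exact Nat.lt_floor_add_one _
    nlinarith
  have hY0 : (0:ℝ) < Yx x := by linarith
  refine ⟨?_, ?_, ?_, ?_, ?_, ?_, ?_⟩
  · have h1 : (3:ℝ) ≤ (Yx x : ℝ) := by linarith
    exact_mod_cast h1
  · rw [← hM, Real.log_le_iff_le_exp hY0]; exact hY1
  · rw [← hM, Real.le_log_iff_exp_le hY0]; linarith
  · unfold LL
    rw [← hL, Real.le_log_iff_exp_le hL0]
    have := Real.exp_one_lt_d9
    linarith
  · rw [← hM]; linarith
  · rw [← hL]; linarith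
  · have h1 : Real.exp L = x := by rw [hL, Real.exp_log hx0]
    have h2 : Real.exp M ≤ Real.exp (L / 2) := Real.exp_le_exp.2 hML
    have h3 : Real.exp L = Real.exp (L / 2) * Real.exp (L / 2) := by
      rw [← Real.exp_add]; congr 1; ring
    have h4 : 512 ≤ Real.exp (L / 2) := by
      have := Real.add_one_le_exp (L / 2)
      linarith
    rw [← h1]
    nlinarith

end Pool.Agent.H76.VKT

end

section

set_option autoImplicit false

namespace Pool.Agent.H76.VKT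

open Finset
open Pool.Agent.H91.EHA
open Pool.Agent.H91.PK (ee)

/-- the statement of `vk_exp` -/
def vk_exp_P [T0] : Prop := ∀ (A : ℕ),
    ∃ x0 : ℕ, ∀ x : ℕ, x0 ≤ x → ∀ (K a b : ℕ) (β t : ℝ),
    Real.exp (Real.log x ^ T0.t) ≤ K → K ≤ x → b ≤ K → 0 ≤ β → β ≤ 1 →
    1 ≤ |t| → |t| ≤ (x : ℝ) ^ (3 : ℕ) →
    ‖∑ n ∈ Ioc a b, ee (t * Real.log (n + β))‖ ≤ K * (100 / |t| + 1 / Real.log x ^ A)

/-- the statement of `psum` -/
def psum_P [T0] : Prop := ∀ (A B : ℕ),
    ∃ K' x0 : ℕ, ∀ x : ℕ, x0 ≤ x → ∀ (d : ℕ) (χ : DirichletCharacter ℂ d) (t : ℝ) (v : ℕ),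
    1 ≤ d → (d : ℝ) ≤ Real.log x ^ B → Real.log x ^ K' ≤ |t| → |t| ≤ (x : ℝ) ^ (3 : ℕ) → Yx x + 1 ≤ v →
    ‖∑ n ∈ Icc 1 v, χ (n : ZMod d) * ee (t * Real.log n)‖ ≤ v / Real.log x ^ A

/-- the statement of `rtw` -/
def rtw_P [T0] : Prop := ∀ (A B : ℕ),
    ∃ K' D x0 : ℕ, ∀ x : ℕ, x0 ≤ x → ∀ (d : ℕ) (χ : DirichletCharacter ℂ d) (t : ℝ) (u : ℕ),
    1 ≤ d → (d : ℝ) ≤ Real.log x ^ B → Real.log x ^ K' ≤ |t| → |t| ≤ (x : ℝ) ^ (3 : ℕ) → D * (LL x * L9 x) ≤ Real.log u →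
    ‖∑ n ∈ Icc 1 u, ch x χ (n : ZMod (qm x d)) * ee (t * Real.log n)‖ ≤ u / Real.log x ^ A

/-- the statement of `lk_up` -/
def lk_up_P [T0] : Prop := ∀ (k B : ℕ),
    ∃ C : ℝ, 1 ≤ C ∧ ∃ K' x0 : ℕ, ∀ x : ℕ, x0 ≤ x → ∀ (d : ℕ) (χ : DirichletCharacter ℂ d) (s : ℂ),
    1 ≤ d → (d : ℝ) ≤ Real.log x ^ B → 1 + 1 / (4 * Real.log x) ≤ s.re → s.re ≤ 2 →
    Real.log x ^ K' ≤ |s.im| → |s.im| ≤ 6 * (x : ℝ) ^ (3 : ℕ) →
    ‖Lk (qm x d) (ch x χ) k s‖ ≤ C * L9 x ^ k * LL x ^ (k + 1)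

/-- the statement of `zy_up` -/
def zy_up_P [T0] : Prop :=
    ∃ C : ℝ, 1 ≤ C ∧ ∃ x0 : ℕ, ∀ x : ℕ, x0 ≤ x → ∀ (d : ℕ) (s : ℂ), 1 ≤ d → 1 < s.re → s.re ≤ 2 →
    ‖Lk (qm x d) 1 0 s‖ ≤ C * (1 + 1 / ((s.re - 1) * L9 x))

/-- the statement of `lk_low` -/
def lk_low_P [T0] : Prop := ∀ (B : ℕ),
    ∃ c : ℝ, 0 < c ∧ c ≤ 1 ∧ ∃ K' x0 : ℕ, ∀ x : ℕ, x0 ≤ x → ∀ (d : ℕ) (χ : DirichletCharacter ℂ d) (s : ℂ),
    1 ≤ d → (d : ℝ) ≤ Real.log x ^ B → 1 + 1 / (4 * Real.log x) ≤ s.re → s.re ≤ 2 →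
    Real.log x ^ K' ≤ |s.im| → |s.im| ≤ 3 * (x : ℝ) ^ (3 : ℕ) →
    c / LL x ^ 7 ≤ ‖Lk (qm x d) (ch x χ) 0 s‖

/-- the statement of `fk_up` -/
def fk_up_P [T0] : Prop := ∀ (k B : ℕ),
    ∃ C : ℝ, 1 ≤ C ∧ ∃ K' x0 : ℕ, ∀ x : ℕ, x0 ≤ x → ∀ (d : ℕ) (χ : DirichletCharacter ℂ d) (s : ℂ),
    1 ≤ d → (d : ℝ) ≤ Real.log x ^ B → 1 + 1 / (4 * Real.log x) ≤ s.re → s.re ≤ 2 →
    Real.log x ^ K' ≤ |s.im| → |s.im| ≤ 3 * (x : ℝ) ^ (3 : ℕ) →
    ‖Fk (qm x d) (ch x χ) k s‖ ≤ C * L9 x ^ (k + 1) * LL x ^ (20 * (k + 1))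

/-- the statement of `sm_sharp_w` -/
def sm_sharp_w_P [T0] : Prop := ∀ (t1 : ℝ) (ht1' : T0.t < t1) (k κ B : ℕ) (hκ : 1 ≤ κ),
    ∃ C : ℝ, 1 ≤ C ∧ ∃ K' x0 : ℕ, ∀ x : ℕ, x0 ≤ x →
    ∀ (d : ℕ) (χ : DirichletCharacter ℂ d) (t : ℝ) (v z : ℕ), 1 ≤ d → (d : ℝ) ≤ Real.log x ^ B →
    Real.exp (Real.log x ^ t1) ≤ z → z ≤ x ^ 2 → v ≤ z → Real.log x ^ K' ≤ |t| → |t| ≤ (x : ℝ) ^ (2 : ℕ) →
    ‖∑ n ∈ Icc 1 v, ((Lam n * Real.log n ^ k : ℝ) : ℂ) * ch x χ (n : ZMod (qm x d)) * ee (t * Real.log n)‖ ≤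
      C * z * (L9 x ^ (k + 1) * LL x ^ (20 * (k + 1)) * Real.log x ^ (3 * κ) +
        Real.log (2 * z) ^ (k + 1) / Real.log x ^ κ)

end Pool.Agent.H76.VKT

end

section

/-!
# VK BrunC: the pure sieve of Brun, combinatorial part

`brun_ineq`: `g = gcd(n, y#)` is squarefree with `w` prime factors; the sum over `m ∣ g` with less than `r` prime factors of `μ(m)` is
`∑_{i<r} (-1)^i C(w,i)`, which is `1` for `w = 0` and `(-1)^{r-1} C(w-1,r-1)` for `w ≥ 1`, of absolute value `≤ C(w,r)` = the number of `m ∣ g` with `r` prime factors.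
(`m ∣ y#` and `m ∣ n` iff `m ∣ g`; divisors of a squarefree number correspond to subsets of `primeFactors`: `Nat.sum_divisors_filter_squarefree`, `Finset.powerset`,
`Nat.divisors_prod...`, `Nat.primeFactors_prod`; the partial alternating sum: `Int.alternating_sum_range_choose_eq_choose` or induction on `r`.)
`brun_tail`: `∑_{ω(m)=r} 1/m ≤ (∑_{p≤y} 1/p)^r / r!` (`Finset.sum_powersetCard...`, `Finset.esymm`-type inequality, e.g. induction on `r`, or count ordered
tuples), `r! ≥ (r/e)^r`, `∑_{p≤y} 1/p ≤ log log y + C` (`Pool.Agent.H91.PK.MR_sum_inv` for `y ≥ 65536`, see `rough_upper` in `H35/W/Rough.lean`).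
`brun_sum`: `∑_{m ∣ y#} 1/m = ∏_{p ≤ y} (1 + 1/p) ≤ exp(∑ 1/p) ≤ C log y`.
-/

set_option autoImplicit false

namespace Pool.Agent.H97.VK

open Finset

/-- the divisors of `y#` with exactly `r` prime factors -/
noncomputable def bd (y r : ℕ) : Finset ℕ := (primorial y).divisors.filter (fun m => m.primeFactors.card = r)

/-- the divisors of `y#` with less than `r` prime factors -/
noncomputable def bdl (y r : ℕ) : Finset ℕ := (primorial y).divisors.filter (fun m => m.primeFactors.card < r)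

private theorem BrunC_dvd_iff (N : ℕ) (hN : Squarefree N) (P : ℕ → Prop) [DecidablePred P]
    {M : Type*} [AddCommMonoid M] (F : ℕ → M) :
    ∑ m ∈ N.divisors.filter (fun m => P m.primeFactors.card), F m =
      ∑ T ∈ N.primeFactors.powerset.filter (fun T => P T.card), F (∏ p ∈ T, p) := by
  have hN0 : N ≠ 0 := hN.ne_zero
  have hpr : ∀ T : Finset ℕ, T ⊆ N.primeFactors → ∀ p ∈ T, p.Prime := fun T hT p hp =>
    Nat.prime_of_mem_primeFactors (hT hp)
  refine Finset.sum_nbij' (fun m => m.primeFactors) (fun T => ∏ p ∈ T, p) ?_ ?_ ?_ ?_ ?_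
  · intro m hm
    rw [mem_filter, Nat.mem_divisors] at hm
    rw [mem_filter, mem_powerset]
    exact ⟨Nat.primeFactors_mono hm.1.1 hN0, hm.2⟩
  · intro T hT
    rw [mem_filter, mem_powerset] at hT
    rw [mem_filter, Nat.mem_divisors, Nat.primeFactors_prod (hpr T hT.1)]
    refine ⟨⟨?_, hN0⟩, hT.2⟩
    have h := Finset.prod_dvd_prod_of_subset T N.primeFactors (fun p => p) hT.1
    rwa [Nat.prod_primeFactors_of_squarefree hN] at h
  · intro m hm
    rw [mem_filter, Nat.mem_divisors] at hm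
    exact Nat.prod_primeFactors_of_squarefree (hN.squarefree_of_dvd hm.1.1)
  · intro T hT
    rw [mem_filter, mem_powerset] at hT
    exact Nat.primeFactors_prod (hpr T hT.1)
  · intro m hm
    rw [mem_filter, Nat.mem_divisors] at hm
    rw [Nat.prod_primeFactors_of_squarefree (hN.squarefree_of_dvd hm.1.1)]

private theorem BrunC_mu (T : Finset ℕ) (hT : ∀ p ∈ T, p.Prime) :
    (ArithmeticFunction.moebius (∏ p ∈ T, p) : ℝ) = (-1) ^ T.card := by
  rw [ArithmeticFunction.isMultiplicative_moebius.map_prod_of_prime T hT]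
  rw [Finset.prod_congr rfl (fun p hp => ArithmeticFunction.moebius_apply_prime (hT p hp)),
    Finset.prod_const]
  push_cast
  rfl

private theorem BrunC_alt (A : Finset ℕ) (r : ℕ) :
    ∑ T ∈ A.powerset.filter (fun T => T.card < r), (-1 : ℝ) ^ T.card =
      ∑ i ∈ range r, (-1 : ℝ) ^ i * (A.card.choose i : ℝ) := by
  have h1 : ∑ T ∈ A.powerset.filter (fun T => T.card < r), (-1 : ℝ) ^ T.card =
      ∑ T ∈ A.powerset, (fun j : ℕ => if j < r then (-1 : ℝ) ^ j else 0) T.card := by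
    rw [sum_filter]
  rw [h1, sum_powerset_apply_card (fun j : ℕ => if j < r then (-1 : ℝ) ^ j else 0)]
  have h2 : ∑ j ∈ range (A.card + 1), A.card.choose j • (if j < r then (-1 : ℝ) ^ j else 0) =
      ∑ j ∈ range (max (A.card + 1) r), A.card.choose j • (if j < r then (-1 : ℝ) ^ j else 0) := by
    apply sum_subset
    · intro j hj
      rw [mem_range] at hj ⊢
      exact lt_of_lt_of_le hj (le_max_left _ _)
    · intro j _ hj
      rw [mem_range, not_lt] at hj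
      rw [Nat.choose_eq_zero_of_lt (by omega), zero_nsmul]
  have h4 : ∑ j ∈ range r, (-1 : ℝ) ^ j * (A.card.choose j : ℝ) =
      ∑ j ∈ range r, A.card.choose j • (if j < r then (-1 : ℝ) ^ j else 0) := by
    refine sum_congr rfl fun j hj => ?_
    rw [mem_range] at hj
    rw [if_pos hj, nsmul_eq_mul, mul_comm]
  rw [h2, h4]
  symm
  apply sum_subset
  · intro j hj
    rw [mem_range] at hj ⊢
    exact lt_of_lt_of_le hj (le_max_right _ _)
  · intro j _ hj
    rw [mem_range, not_lt] at hj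
    rw [if_neg (by omega), smul_zero]

private theorem BrunC_abs (w r : ℕ) (hr : 1 ≤ r) :
    |(if w = 0 then (1 : ℝ) else 0) - ∑ i ∈ range r, (-1 : ℝ) ^ i * (w.choose i : ℝ)| ≤
      (w.choose r : ℝ) := by
  obtain ⟨m, rfl⟩ : ∃ m, r = m + 1 := ⟨r - 1, by omega⟩
  rcases Nat.eq_zero_or_pos w with h | h
  · subst h
    rw [if_pos rfl, Finset.sum_range_succ']
    have : ∀ i ∈ range m, (-1 : ℝ) ^ (i + 1) * ((Nat.choose 0 (i + 1) : ℕ) : ℝ) = 0 := by
      intro i _
      rw [Nat.choose_zero_succ]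
      simp
    rw [Finset.sum_eq_zero this]
    simp
  · obtain ⟨n, rfl⟩ : ∃ n, w = n + 1 := ⟨w - 1, by omega⟩
    rw [if_neg (by omega)]
    have h5 := Int.alternating_sum_range_choose_eq_choose (n := n) (m := m)
    have h6 := congrArg (fun z : ℤ => (z : ℝ)) h5
    push_cast at h6
    rw [h6, zero_sub, abs_neg, abs_mul, abs_pow, abs_neg, abs_one, one_pow, one_mul,
      Nat.abs_cast]
    have h7 : n.choose m ≤ (n + 1).choose (m + 1) := by
      rw [Nat.choose_succ_succ]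
      omega
    exact_mod_cast h7

private theorem BrunC_gcd (N n : ℕ) (hN : N ≠ 0) (P : ℕ → Prop) [DecidablePred P] :
    (N.divisors.filter (fun m => P m.primeFactors.card)).filter (fun m => m ∣ n) =
      (Nat.gcd n N).divisors.filter (fun m => P m.primeFactors.card) := by
  ext m
  rw [mem_filter, mem_filter, mem_filter, Nat.mem_divisors, Nat.mem_divisors, Nat.dvd_gcd_iff]
  constructor
  · rintro ⟨⟨⟨h1, _⟩, h2⟩, h3⟩
    exact ⟨⟨⟨h3, h1⟩, Nat.gcd_ne_zero_right hN⟩, h2⟩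
  · rintro ⟨⟨⟨h3, h1⟩, _⟩, h2⟩
    exact ⟨⟨⟨h1, hN⟩, h2⟩, h3⟩

theorem brun_ineq (y r n : ℕ) (hr : 1 ≤ r) (hn : 1 ≤ n) :
    |(if n.Coprime (primorial y) then (1 : ℝ) else 0) -
        ∑ m ∈ (bdl y r).filter (fun m => m ∣ n), (ArithmeticFunction.moebius m : ℝ)| ≤
      (((bd y r).filter (fun m => m ∣ n)).card : ℝ) := by
  have hN0 : primorial y ≠ 0 := primorial_ne_zero y
  have hsq : Squarefree (Nat.gcd n (primorial y)) :=
    (squarefree_primorial y).squarefree_of_dvd (Nat.gcd_dvd_right _ _)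
  obtain ⟨g, hg⟩ : ∃ g, g = Nat.gcd n (primorial y) := ⟨_, rfl⟩
  have e1 : ∑ m ∈ (bdl y r).filter (fun m => m ∣ n), (ArithmeticFunction.moebius m : ℝ) =
      ∑ i ∈ range r, (-1 : ℝ) ^ i * (g.primeFactors.card.choose i : ℝ) := by
    unfold bdl
    rw [BrunC_gcd (primorial y) n hN0 (fun j => j < r), ← hg]
    rw [← hg] at hsq
    rw [BrunC_dvd_iff g hsq (fun j => j < r), ← BrunC_alt]
    refine Finset.sum_congr rfl fun T hT => ?_
    rw [mem_filter, mem_powerset] at hT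
    exact BrunC_mu T fun p hp => Nat.prime_of_mem_primeFactors (hT.1 hp)
  have e2 : (((bd y r).filter (fun m => m ∣ n)).card : ℝ) = (g.primeFactors.card.choose r : ℝ) := by
    unfold bd
    rw [BrunC_gcd (primorial y) n hN0 (fun j => j = r), ← hg]
    rw [← hg] at hsq
    rw [Finset.card_eq_sum_ones, BrunC_dvd_iff g hsq (fun j => j = r), ← Finset.card_eq_sum_ones,
      ← Finset.card_powersetCard r g.primeFactors, Finset.powersetCard_eq_filter]
  have e3 : (if n.Coprime (primorial y) then (1 : ℝ) else 0) =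
      if g.primeFactors.card = 0 then 1 else 0 := by
    have h : n.Coprime (primorial y) ↔ g.primeFactors.card = 0 := by
      rw [Finset.card_eq_zero, Nat.primeFactors_eq_empty, hg]
      constructor
      · exact fun h => Or.inr h
      · rintro (h | h)
        · exact absurd h (Nat.gcd_ne_zero_right hN0)
        · exact h
    simp only [h]
  rw [e1, e2, e3]
  exact BrunC_abs _ r hr

private theorem BrunC_upper : ∃ C : ℝ, 0 < C ∧ ∀ y : ℕ, 2 ≤ y →
    ∑ p ∈ (Icc 1 y).filter Nat.Prime, (1 : ℝ) / p ≤ Real.log (Real.log y) + C :=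
  Pool.Agent.H43.MP.mrt_upper

private theorem BrunC_upper2 : ∃ C : ℝ, 0 < C ∧ ∀ y : ℕ, 2 ≤ y →
    ∑ p ∈ (primorial y).primeFactors, (1 : ℝ) / p ≤ Real.log (Real.log y) + C := by
  obtain ⟨C, hC, h⟩ := BrunC_upper
  refine ⟨C, hC, fun y hy => ?_⟩
  have e : (primorial y).primeFactors = (Icc 1 y).filter Nat.Prime := by
    rw [primeFactors_primorial]
    ext p
    rw [Nat.mem_primesLE, mem_filter, mem_Icc]
    constructor
    · rintro ⟨h1, h2⟩
      exact ⟨⟨h2.one_lt.le, h1⟩, h2⟩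
    · rintro ⟨⟨_, h1⟩, h2⟩
      exact ⟨h1, h2⟩
  rw [e]
  exact h y hy

private theorem BrunC_binom (A a : ℝ) (hA : 0 ≤ A) (ha : 0 ≤ a) (r : ℕ) :
    A ^ (r + 1) + (r + 1 : ℕ) * (a * A ^ r) ≤ (A + a) ^ (r + 1) := by
  induction r with
  | zero => simp
  | succ r ih =>
    have h1 : (A + a) ^ (r + 1 + 1) = (A + a) ^ (r + 1) * (A + a) := pow_succ _ _
    rw [h1]
    have h2 := mul_le_mul_of_nonneg_right ih (add_nonneg hA ha)
    refine le_trans ?_ h2
    have h3 : (A ^ (r + 1) + ((r + 1 : ℕ) : ℝ) * (a * A ^ r)) * (A + a) =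
        A ^ (r + 1 + 1) + ((r + 1 + 1 : ℕ) : ℝ) * (a * A ^ (r + 1)) +
          ((r + 1 : ℕ) : ℝ) * (a * a * A ^ r) := by
      push_cast
      ring
    rw [h3]
    have h4 : 0 ≤ ((r + 1 : ℕ) : ℝ) * (a * a * A ^ r) := by positivity
    linarith

private theorem BrunC_esymm (S : Finset ℕ) (a : ℕ → ℝ) (ha : ∀ p, 0 ≤ a p) (r : ℕ) :
    (r.factorial : ℝ) * ∑ T ∈ S.powersetCard r, ∏ p ∈ T, a p ≤ (∑ p ∈ S, a p) ^ r := by
  induction S using Finset.induction_on generalizing r with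
  | empty =>
    cases r with
    | zero => simp
    | succ r =>
      have h : (∅ : Finset ℕ).powersetCard (r + 1) = ∅ := by
        rw [Finset.powersetCard_eq_empty]
        simp
      rw [h]
      simp
  | insert q S hq ih =>
    cases r with
    | zero => simp
    | succ r =>
      rw [Finset.powersetCard_succ_insert hq, Finset.sum_union, Finset.sum_image,
        Finset.sum_insert hq]
      · have e : ∀ T ∈ S.powersetCard r, ∏ p ∈ insert q T, a p = a q * ∏ p ∈ T, a p := by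
          intro T hT
          rw [mem_powersetCard] at hT
          exact Finset.prod_insert fun h => hq (hT.1 h)
        rw [Finset.sum_congr rfl e, ← Finset.mul_sum]
        have h1 := ih (r + 1)
        have h2 := ih r
        have hA : 0 ≤ ∑ p ∈ S, a p := Finset.sum_nonneg fun p _ => ha p
        have h3 := BrunC_binom (∑ p ∈ S, a p) (a q) hA (ha q) r
        have h4 : ((r + 1).factorial : ℝ) = ((r + 1 : ℕ) : ℝ) * (r.factorial : ℝ) := by
          rw [Nat.factorial_succ]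
          push_cast
          ring
        have h5 := mul_le_mul_of_nonneg_left h2 (mul_nonneg (Nat.cast_nonneg (r + 1)) (ha q))
        rw [add_comm (a q)]
        refine le_trans ?_ h3
        rw [mul_add]
        refine add_le_add h1 ?_
        rw [h4]
        calc ((r + 1 : ℕ) : ℝ) * (r.factorial : ℝ) *
              (a q * ∑ T ∈ S.powersetCard r, ∏ p ∈ T, a p)
            = ((r + 1 : ℕ) : ℝ) * a q *
              ((r.factorial : ℝ) * ∑ T ∈ S.powersetCard r, ∏ p ∈ T, a p) := by ring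
          _ ≤ ((r + 1 : ℕ) : ℝ) * a q * (∑ p ∈ S, a p) ^ r := h5
          _ = ((r + 1 : ℕ) : ℝ) * (a q * (∑ p ∈ S, a p) ^ r) := by ring
      · intro T hT T' hT' h
        rw [mem_coe, mem_powersetCard] at hT hT'
        have h1 : q ∉ T := fun h => hq (hT.1 h)
        have h2 : q ∉ T' := fun h => hq (hT'.1 h)
        rw [← Finset.erase_insert h1, ← Finset.erase_insert h2]
        exact congrArg (fun U => U.erase q) h
      · rw [Finset.disjoint_left]
        intro T hT hT'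
        rw [mem_powersetCard] at hT
        rw [mem_image] at hT'
        obtain ⟨U, _, rfl⟩ := hT'
        exact hq (hT.1 (mem_insert_self q U))

private theorem BrunC_inv (T : Finset ℕ) :
    (1 : ℝ) / ((∏ p ∈ T, p : ℕ) : ℝ) = ∏ p ∈ T, (1 : ℝ) / p := by
  rw [Nat.cast_prod, Finset.prod_div_distrib, Finset.prod_const_one]

theorem brun_tail : ∃ C : ℝ, 1 ≤ C ∧ ∀ y r : ℕ, 3 ≤ y → 1 ≤ r →
    ∑ m ∈ bd y r, (1 : ℝ) / m ≤ (Real.exp 1 * (Real.log (Real.log y) + C) / r) ^ r := by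
  obtain ⟨C, hC, hup⟩ := BrunC_upper2
  refine ⟨max 1 C, le_max_left _ _, fun y r hy hr => ?_⟩
  have hr0 : (0 : ℝ) < r := by exact_mod_cast hr
  have e1 : ∑ m ∈ bd y r, (1 : ℝ) / m =
      ∑ T ∈ (primorial y).primeFactors.powersetCard r, ∏ p ∈ T, (1 : ℝ) / p := by
    unfold bd
    rw [BrunC_dvd_iff (primorial y) (squarefree_primorial y) (fun j => j = r),
      Finset.powersetCard_eq_filter]
    exact Finset.sum_congr rfl fun T _ => BrunC_inv T
  obtain ⟨A, hA⟩ : ∃ A, A = ∑ p ∈ (primorial y).primeFactors, (1 : ℝ) / p := ⟨_, rfl⟩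
  have hA0 : 0 ≤ A := by rw [hA]; exact Finset.sum_nonneg fun p _ => by positivity
  have h1 := BrunC_esymm (primorial y).primeFactors (fun p => (1 : ℝ) / p)
    (fun p => by positivity) r
  rw [← hA] at h1
  have h2 : A ≤ Real.log (Real.log y) + max 1 C := by
    rw [hA]
    exact (hup y (by omega)).trans (add_le_add le_rfl (le_max_right _ _))
  have h3 : (r : ℝ) ^ r / (r.factorial : ℝ) ≤ Real.exp r :=
    Real.pow_div_factorial_le_exp r hr0.le r
  have hf0 : (0 : ℝ) < (r.factorial : ℝ) := by exact_mod_cast Nat.factorial_pos r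
  have h4 : Real.exp (r : ℝ) = Real.exp 1 ^ r := by
    rw [← Real.exp_nat_mul, mul_one]
  rw [e1]
  have h5 : ∑ T ∈ (primorial y).primeFactors.powersetCard r, ∏ p ∈ T, (1 : ℝ) / p ≤
      A ^ r / (r.factorial : ℝ) := by
    rw [le_div_iff₀ hf0, mul_comm]
    exact h1
  refine h5.trans ?_
  have h6 : A ^ r / (r.factorial : ℝ) = (A / r) ^ r * ((r : ℝ) ^ r / (r.factorial : ℝ)) := by
    rw [div_pow]
    field_simp
  rw [h6]
  have h7 : (A / r) ^ r * ((r : ℝ) ^ r / (r.factorial : ℝ)) ≤ (A / r) ^ r * Real.exp 1 ^ r := by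
    rw [← h4]
    exact mul_le_mul_of_nonneg_left h3 (by positivity)
  refine h7.trans ?_
  rw [← mul_pow]
  refine pow_le_pow_left₀ (by positivity) ?_ r
  rw [mul_comm, mul_div_assoc']
  exact div_le_div_of_nonneg_right (mul_le_mul_of_nonneg_left h2 (Real.exp_pos 1).le) hr0.le

theorem brun_sum : ∃ C : ℝ, 1 ≤ C ∧ ∀ y r : ℕ, 3 ≤ y → ∑ m ∈ bdl y r, (1 : ℝ) / m ≤ C * Real.log y := by
  obtain ⟨C, hC, hup⟩ := BrunC_upper2
  refine ⟨Real.exp C, Real.one_le_exp hC.le, fun y r hy => ?_⟩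
  have hy1 : (1 : ℝ) < y := by exact_mod_cast (by omega : 1 < y)
  have hly : 0 < Real.log y := Real.log_pos hy1
  have h1 : ∑ m ∈ bdl y r, (1 : ℝ) / m ≤
      ∑ T ∈ (primorial y).primeFactors.powerset, ∏ p ∈ T, (1 : ℝ) / p := by
    unfold bdl
    rw [BrunC_dvd_iff (primorial y) (squarefree_primorial y) (fun j => j < r)]
    refine (Finset.sum_le_sum_of_subset_of_nonneg (filter_subset _ _)
      fun T _ _ => by positivity).trans (le_of_eq ?_)
    exact Finset.sum_congr rfl fun T _ => BrunC_inv T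
  refine h1.trans ?_
  rw [← Finset.prod_one_add]
  have h2 : ∏ p ∈ (primorial y).primeFactors, (1 + (1 : ℝ) / p) ≤
      Real.exp (∑ p ∈ (primorial y).primeFactors, (1 : ℝ) / p) := by
    rw [Real.exp_sum]
    refine Finset.prod_le_prod (fun p _ => by positivity) fun p _ => ?_
    have h := Real.add_one_le_exp ((1 : ℝ) / p)
    linarith
  refine h2.trans ?_
  have h3 : Real.exp C * Real.log y = Real.exp (Real.log (Real.log y) + C) := by
    rw [Real.exp_add, Real.exp_log hly, mul_comm]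
  rw [h3]
  exact Real.exp_le_exp.2 (hup y (by omega))

theorem bdl_le (y r m : ℕ) (hy : 1 ≤ y) (hm : m ∈ bdl y r) : m ≤ y ^ r := by
  unfold bdl at hm
  rw [mem_filter, Nat.mem_divisors] at hm
  have hsq : Squarefree m := (squarefree_primorial y).squarefree_of_dvd hm.1.1
  rw [← Nat.prod_primeFactors_of_squarefree hsq]
  have h1 : ∏ p ∈ m.primeFactors, p ≤ y ^ m.primeFactors.card := by
    refine Finset.prod_le_pow_card m.primeFactors (fun p => p) y fun p hp => ?_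
    have h2 := Nat.primeFactors_mono hm.1.1 hm.1.2 hp
    rw [primeFactors_primorial, Nat.mem_primesLE] at h2
    exact h2.1
  exact h1.trans (Nat.pow_le_pow_right hy hm.2.le)

end Pool.Agent.H97.VK

end

section

/-!
PK CA: Taylor coefficients of L-functions to the right of 1 and their trivial bounds.

aL f j s = ∑_n f(n) (log n)^j/j! n^{-s},  fL f j s = ∑_n f(n) Λ(n) (log n)^j/j! n^{-s}.

`aL_bound`: let |f| ≤ 1, all partial sums over [1,B] bounded by r (r ≥ 1 real), 1 < σ ≤ 2, y = r(|t|+2),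
  A = log y + 5.  Then |aL f j (σ+it)| ≤ A^(j+1).
Proof. n ≤ y: ∑_{n≤y} (log n)^j/n ≤ (log y)^j (log y + 1).
 n > y: partial sums of f over (⌊y⌋, u] are ≤ 2r; Abel summation against h(u) = (log u)^j u^{-s}:
   |∑_{n>y}| ≤ 2r (sup_{u≥y} |h| + ∫_y^∞ |h'|) (or directly with h(n)-h(n+1) = -∫_n^{n+1} h'), |h'(u)| ≤
   (j (log u)^{j-1} + |s| (log u)^j)/u².   I_j := ∫_y^∞ (log u)^j u^{-2} du = (1/y) ∑_{i≤j} (j!/i!) (log y)^i
   ≤ (j!/y)(1+log y)^j, and sup_{u≥y} (log u)^j/u ≤ I_j.  Total ≤ 2r (j!/y)(1+log y)^j (2+|s|) ≤ 4 j! (1+log y)^j as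
   |s| ≤ 2+|t|.
 Sum: j! |aL| ≤ (log y)^j(log y+1) + 4 j!(1+log y)^j ≤ j! (1+log y)^j (log y + 5).
 (An alternative to integrals: the sequence h(n) for n > y and induction; free choice.)
`aL_bound_principal`: if instead |∑_{n≤B} f(n) - κ B| ≤ r with 0 ≤ κ ≤ 1, then |aL f 0 s| ≤ log y + 8 + 1/|s-1|.
 (tail: ∑_{n>Y} n^{-s} = Y^{1-s}/(s-1) + O((|s|+1)/Y) with Y = ⌊y⌋ or ⌈y⌉, plus the part with f - κ bounded as before.)
`char_principal`: for the principal character mod r: |∑_{n≤B} 1_{(n,r)=1} - (φ(r)/r) B| ≤ r.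
-/

set_option autoImplicit false

namespace Pool.Agent.H91.PK

open Finset

/-! ### auxiliary functions -/

/-- zeta at 1+x -/
theorem zeta_bound {x : ℝ} (hx : 0 < x) : ∑' n : ℕ, 1 / ((n : ℝ) + 1) ^ (1 + x) ≤ 1 + 1 / x := by
  have key : ∀ a : ℝ, 1 ≤ a → 1 / (a + 1) ^ (1 + x) ≤ 1 / x * (a ^ (-x) - (a + 1) ^ (-x)) := by
    intro a ha
    have ha0 : 0 < a := by linarith
    have h1 : 1 + x / (a + 1) ≤ ((a + 1) / a) ^ x := by
      rw [Real.rpow_def_of_pos (by positivity)]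
      have h2 := Real.add_one_le_exp (Real.log ((a + 1) / a) * x)
      have h3 := Real.one_sub_inv_le_log_of_pos (show 0 < (a + 1) / a by positivity)
      have h4 : 1 - ((a + 1) / a)⁻¹ = 1 / (a + 1) := by
        field_simp; ring
      rw [h4] at h3
      have h5 : x / (a + 1) ≤ Real.log ((a + 1) / a) * x := by
        calc x / (a + 1) = 1 / (a + 1) * x := by ring
          _ ≤ _ := mul_le_mul_of_nonneg_right h3 hx.le
      linarith
    have h2 : ((a + 1) / a) ^ x = (a + 1) ^ x * a ^ (-x) := by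
      rw [Real.div_rpow (by positivity) ha0.le, Real.rpow_neg ha0.le]; rfl
    have h3 : (a + 1) ^ (-x) * ((a + 1) ^ x * a ^ (-x)) = a ^ (-x) := by
      rw [← mul_assoc, ← Real.rpow_add (by positivity)]; simp
    have h4 : 0 < (a + 1) ^ (-x) := Real.rpow_pos_of_pos (by positivity) _
    have h5 := mul_le_mul_of_nonneg_left h1 h4.le
    rw [h2, h3] at h5
    have h6 : 1 / (a + 1) ^ (1 + x) = (a + 1) ^ (-x) / (a + 1) := by
      rw [Real.rpow_add (by positivity), Real.rpow_one, Real.rpow_neg (by positivity)]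
      field_simp
    rw [h6]
    have h7 : (a + 1) ^ (-x) / (a + 1) = 1 / x * ((a + 1) ^ (-x) * (1 + x / (a + 1)) - (a + 1) ^ (-x)) := by
      field_simp
      ring
    rw [h7]
    apply mul_le_mul_of_nonneg_left _ (by positivity)
    linarith
  have part : ∀ M : ℕ, ∑ n ∈ range (M + 1), 1 / ((n : ℝ) + 1) ^ (1 + x)
      ≤ 1 + 1 / x * (1 - ((M : ℝ) + 1) ^ (-x)) := by
    intro M
    induction M with
    | zero => simp
    | succ M ih =>
      rw [Finset.sum_range_succ]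
      have h := key ((M : ℝ) + 1) (by linarith [Nat.cast_nonneg (α := ℝ) M])
      push_cast
      have : 1 + 1 / x * (1 - ((M : ℝ) + 1 + 1) ^ (-x)) = 1 + 1 / x * (1 - ((M : ℝ) + 1) ^ (-x))
        + 1 / x * (((M : ℝ) + 1) ^ (-x) - ((M : ℝ) + 1 + 1) ^ (-x)) := by ring
      rw [this]
      exact add_le_add ih h
  apply Real.tsum_le_of_sum_range_le
  · intro n; positivity
  · intro n
    cases n with
    | zero => simp; positivity
    | succ M =>
      refine (part M).trans ?_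
      have h1 : 0 < ((M : ℝ) + 1) ^ (-x) := by positivity
      have h2 : 1 / x * (1 - ((M : ℝ) + 1) ^ (-x)) ≤ 1 / x * 1 :=
        mul_le_mul_of_nonneg_left (by linarith) (by positivity)
      linarith

end Pool.Agent.H91.PK

end

section

/-!
# VK TailA: tails of Dirichlet series by Abel summation

Proof.  `g(u) = (log u)^k u^{-σ}`, `S(u) = ∑_{n ≤ u} f n`.
`∑_{N<n≤M} f(n) g(n) = S(M) g(M) - S(N) g(N+1) + ∑_{N<n<M} S(n) (g(n) - g(n+1))` (for `M > N`), and `|g(n) - g(n+1)| ≤ sup |g'|` on `[n,n+1]`,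
`|g'(u)| ≤ (k (log u)^{k-1} + σ (log u)^k) u^{-σ-1} ≤ (k+2) (1 + log(n+1))^k n^{-σ-1}`.  So everything is at most
`3 (k+2) δ (sup_n n g(n) + ∑_n (1 + log(n+1))^k n^{-σ})`.  With `a = (σ-1)/2 ≤ 1/2`: `w^k ≤ k! a^{-k} e^{a w}` for `w = 1 + log(n+1)`, so
`(1+log(n+1))^k ≤ 4 k! (2/(σ-1))^k n^{(σ-1)/2}` and `∑_n n^{-1-(σ-1)/2} ≤ 1 + 2/(σ-1) ≤ 3/(σ-1)`.
-/

set_option autoImplicit false

namespace Pool.Agent.H97.VK

open Finset

/-- the weight -/
private noncomputable def tailA_g (k : ℕ) (σ : ℝ) (n : ℕ) : ℝ := Real.log n ^ k * (n : ℝ) ^ (-σ)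

private lemma tailA_diff (k : ℕ) (σ : ℝ) (h1 : 1 < σ) (h2 : σ ≤ 2) (n : ℕ) (hn : 1 ≤ n) :
    |tailA_g k σ n - tailA_g k σ (n + 1)| ≤
      (k + 2) * ((1 + Real.log (n + 1)) ^ k * (n : ℝ) ^ (-σ - 1)) := by
  have hn0 : (0 : ℝ) < n := by exact_mod_cast (show 0 < n by omega)
  have hn1 : (1 : ℝ) ≤ n := by exact_mod_cast hn
  have hder : ∀ u ∈ Set.Icc (n : ℝ) (n + 1), HasDerivWithinAt
      (fun u : ℝ => Real.log u ^ k * u ^ (-σ))
      ((k : ℝ) * Real.log u ^ (k - 1) * u⁻¹ * u ^ (-σ) + Real.log u ^ k * (-σ * u ^ (-σ - 1)))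
      (Set.Icc (n : ℝ) (n + 1)) u := by
    intro u hu
    have hu0 : u ≠ 0 := by
      have := hu.1
      linarith
    exact (((Real.hasDerivAt_log hu0).pow k).mul
      (Real.hasDerivAt_rpow_const (Or.inl hu0))).hasDerivWithinAt
  have hbd : ∀ u ∈ Set.Icc (n : ℝ) (n + 1),
      ‖(k : ℝ) * Real.log u ^ (k - 1) * u⁻¹ * u ^ (-σ) +
        Real.log u ^ k * (-σ * u ^ (-σ - 1))‖ ≤
      (k + 2) * ((1 + Real.log (n + 1)) ^ k * (n : ℝ) ^ (-σ - 1)) := by
    intro u hu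
    have hu0 : 0 < u := lt_of_lt_of_le hn0 hu.1
    have hu1 : 1 ≤ u := hn1.trans hu.1
    have hlu : 0 ≤ Real.log u := Real.log_nonneg hu1
    have hlw : Real.log u ≤ 1 + Real.log (n + 1) := by
      have := Real.log_le_log hu0 hu.2
      linarith
    have hw1 : 1 ≤ 1 + Real.log ((n : ℝ) + 1) := by
      have : 0 ≤ Real.log ((n : ℝ) + 1) := Real.log_nonneg (by linarith)
      linarith
    have hinv : u⁻¹ * u ^ (-σ) = u ^ (-σ - 1) := by
      rw [← Real.rpow_neg_one u, ← Real.rpow_add hu0]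
      congr 1
      ring
    have hun : u ^ (-σ - 1) ≤ (n : ℝ) ^ (-σ - 1) :=
      Real.rpow_le_rpow_of_nonpos hn0 hu.1 (by linarith)
    have hun0 : 0 ≤ u ^ (-σ - 1) := by positivity
    have hp1 : Real.log u ^ (k - 1) ≤ (1 + Real.log ((n : ℝ) + 1)) ^ k :=
      (pow_le_pow_left₀ hlu hlw _).trans (pow_le_pow_right₀ hw1 (Nat.sub_le k 1))
    have hp2 : Real.log u ^ k ≤ (1 + Real.log ((n : ℝ) + 1)) ^ k := pow_le_pow_left₀ hlu hlw _
    have hlp1 : 0 ≤ Real.log u ^ (k - 1) := pow_nonneg hlu _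
    have hlp2 : 0 ≤ Real.log u ^ k := pow_nonneg hlu _
    have hk : (0 : ℝ) ≤ k := Nat.cast_nonneg k
    have hm1 : Real.log u ^ (k - 1) * u ^ (-σ - 1) ≤
        (1 + Real.log ((n : ℝ) + 1)) ^ k * (n : ℝ) ^ (-σ - 1) :=
      mul_le_mul hp1 hun hun0 (by positivity)
    have hm2 : Real.log u ^ k * u ^ (-σ - 1) ≤
        (1 + Real.log ((n : ℝ) + 1)) ^ k * (n : ℝ) ^ (-σ - 1) :=
      mul_le_mul hp2 hun hun0 (by positivity)
    have e1 : (k : ℝ) * Real.log u ^ (k - 1) * u⁻¹ * u ^ (-σ) +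
        Real.log u ^ k * (-σ * u ^ (-σ - 1)) =
        k * (Real.log u ^ (k - 1) * u ^ (-σ - 1)) - σ * (Real.log u ^ k * u ^ (-σ - 1)) := by
      rw [← hinv]
      ring
    rw [e1, Real.norm_eq_abs, abs_le]
    have hA := mul_le_mul_of_nonneg_left hm1 hk
    have hB : σ * (Real.log u ^ k * u ^ (-σ - 1)) ≤
        2 * ((1 + Real.log ((n : ℝ) + 1)) ^ k * (n : ℝ) ^ (-σ - 1)) :=
      mul_le_mul h2 hm2 (by positivity) (by norm_num)
    have hA0 : 0 ≤ (k : ℝ) * (Real.log u ^ (k - 1) * u ^ (-σ - 1)) := by positivity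
    have hB0 : 0 ≤ σ * (Real.log u ^ k * u ^ (-σ - 1)) := by positivity
    have hX : 0 ≤ (1 + Real.log ((n : ℝ) + 1)) ^ k * (n : ℝ) ^ (-σ - 1) := by positivity
    have hkX : 0 ≤ (k : ℝ) * ((1 + Real.log ((n : ℝ) + 1)) ^ k * (n : ℝ) ^ (-σ - 1)) := by
      positivity
    constructor
    · linarith
    · linarith
  have h := Convex.norm_image_sub_le_of_norm_hasDerivWithin_le hder hbd (convex_Icc _ _)
    (Set.right_mem_Icc.2 (by linarith)) (Set.left_mem_Icc.2 (by linarith))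
  have e2 : ‖(n : ℝ) - ((n : ℝ) + 1)‖ = 1 := by
    rw [show (n : ℝ) - ((n : ℝ) + 1) = -1 by ring]
    simp
  rw [e2, mul_one, Real.norm_eq_abs] at h
  unfold tailA_g
  push_cast
  exact h

private lemma tailA_sum (a : ℝ) (ha : 0 < a) (ha1 : a ≤ 1) (M : ℕ) :
    ∑ n ∈ Icc 1 M, (n : ℝ) ^ (-1 - a) ≤ 1 + 1 / a := by
  have key : ∀ n : ℕ, 1 ≤ n →
      a * ((n + 1 : ℕ) : ℝ) ^ (-1 - a) ≤ (n : ℝ) ^ (-a) - ((n + 1 : ℕ) : ℝ) ^ (-a) := by
    intro n hn
    have hn0 : (0 : ℝ) < n := by exact_mod_cast (show 0 < n by omega)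
    have hm0 : (0 : ℝ) < (n : ℝ) + 1 := by linarith
    push_cast
    set m : ℝ := (n : ℝ) + 1 with hm
    have h1 : (n / m) ^ a ≤ 1 - a / m := by
      have h := rpow_one_add_le_one_add_mul_self (s := -(1 / m)) (by
        rw [neg_le_neg_iff, div_le_one hm0]
        linarith) ha.le ha1
      have e1 : 1 + -(1 / m) = n / m := by
        field_simp
        rw [hm]
        ring
      rw [e1] at h
      refine h.trans (le_of_eq ?_)
      ring
    have hnm : 0 < (n : ℝ) / m := by positivity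
    have hx0 : 0 < ((n : ℝ) / m) ^ a := Real.rpow_pos_of_pos hnm a
    have ham : 0 ≤ a / m := by positivity
    have h2 : 1 + a / m ≤ (n / m) ^ (-a) := by
      rw [Real.rpow_neg hnm.le, ← one_div, le_div_iff₀ hx0]
      nlinarith
    have h3 : (n : ℝ) ^ (-a) = (n / m) ^ (-a) * m ^ (-a) := by
      rw [← Real.mul_rpow hnm.le hm0.le]
      congr 1
      field_simp
    have h4 : m ^ (-1 - a) = m ^ (-a) / m := by
      rw [show (-1 - a) = -a - 1 by ring, Real.rpow_sub hm0, Real.rpow_one]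
    have h5 : 0 ≤ m ^ (-a) := by positivity
    rw [h3, h4]
    have h6 := mul_le_mul_of_nonneg_right h2 h5
    have e3 : a * (m ^ (-a) / m) = a / m * m ^ (-a) := by ring
    rw [e3]
    linarith
  have hind : ∀ M : ℕ, 1 ≤ M → a * ∑ n ∈ Icc 1 M, (n : ℝ) ^ (-1 - a) ≤
      a + 1 - (M : ℝ) ^ (-a) := by
    intro M hM
    induction M, hM using Nat.le_induction with
    | base => simp
    | succ M hM ih =>
      rw [sum_Icc_succ_top (by omega)]
      have := key M hM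
      rw [mul_add]
      linarith
  rcases Nat.eq_zero_or_pos M with rfl | hM
  · simp
    positivity
  · have h := hind M hM
    have h0 : 0 ≤ (M : ℝ) ^ (-a) := by positivity
    have e : 1 + 1 / a = (a + 1) / a := by field_simp
    rw [e, le_div_iff₀ ha, mul_comm]
    linarith

private lemma tailA_pow (k : ℕ) (a w : ℝ) (ha : 0 < a) (hw : 0 ≤ w) :
    w ^ k ≤ (k.factorial : ℝ) * (1 / a) ^ k * Real.exp (a * w) := by
  have h := Real.pow_div_factorial_le_exp (a * w) (by positivity) k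
  have hf : (0 : ℝ) < k.factorial := by exact_mod_cast Nat.factorial_pos k
  rw [div_le_iff₀ hf, mul_pow] at h
  have e : w ^ k = (1 / a) ^ k * (a ^ k * w ^ k) := by
    rw [← mul_assoc, ← mul_pow, one_div, inv_mul_cancel₀ ha.ne', one_pow, one_mul]
  rw [e]
  calc (1 / a) ^ k * (a ^ k * w ^ k) ≤ (1 / a) ^ k * (Real.exp (a * w) * k.factorial) :=
        mul_le_mul_of_nonneg_left h (by positivity)
    _ = _ := by ring

private lemma tailA_abel (f : ℕ → ℂ) (g : ℕ → ℝ) (N M : ℕ) (hM : N ≤ M) :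
    ∑ n ∈ Ioc N M, f n * (g n : ℂ) = (∑ n ∈ Ioc N M, f n) * (g M : ℂ) +
      ∑ n ∈ Ico N M, (∑ j ∈ Ioc N n, f j) * ((g n - g (n + 1) : ℝ) : ℂ) := by
  induction M, hM using Nat.le_induction with
  | base => simp
  | succ M hM ih =>
    rw [sum_Ioc_succ_top (by omega), sum_Ico_succ_top (by omega), sum_Ioc_succ_top (by omega), ih]
    push_cast
    ring

theorem tail_abel (k : ℕ) : ∃ C : ℝ, 1 ≤ C ∧ ∀ (f : ℕ → ℂ) (δ σ : ℝ) (N : ℕ), 0 ≤ δ → 1 < σ → σ ≤ 2 → 1 ≤ N →
    (∀ u : ℕ, N ≤ u → ‖∑ n ∈ Icc 1 u, f n‖ ≤ δ * u) → ∀ M : ℕ, N ≤ M →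
    ‖∑ n ∈ Ioc N M, f n * ((Real.log n ^ k * (n : ℝ) ^ (-σ) : ℝ) : ℂ)‖ ≤ C * δ * (1 / (σ - 1)) ^ (k + 1) := by
  have hf1 : (1 : ℝ) ≤ k.factorial := by exact_mod_cast Nat.factorial_pos k
  have hk0 : (0 : ℝ) ≤ k := Nat.cast_nonneg k
  have h2k : (1 : ℝ) ≤ 2 ^ k := one_le_pow₀ (by norm_num)
  refine ⟨(k.factorial : ℝ) * 2 ^ k * (2 + 24 * (k + 2)), ?_, ?_⟩
  · have h1 : (1 : ℝ) ≤ k.factorial * 2 ^ k := one_le_mul_of_one_le_of_one_le hf1 h2k
    nlinarith
  intro f δ σ N hδ h1 h2 hN hS M hM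
  set a : ℝ := (σ - 1) / 2 with ha
  have ha0 : 0 < a := by rw [ha]; linarith
  have ha1 : a ≤ 1 / 2 := by rw [ha]; linarith
  set X : ℝ := 1 / (σ - 1) with hX
  have hX1 : 1 ≤ X := by
    rw [hX, le_div_iff₀ (by linarith)]
    linarith
  have hinva : 1 / a = 2 * X := by
    rw [ha, hX]
    field_simp
  have hinvak : (1 / a) ^ k = 2 ^ k * X ^ k := by rw [hinva, mul_pow]
  have hfg : ∀ n : ℕ, ((Real.log n ^ k * (n : ℝ) ^ (-σ) : ℝ) : ℂ) = (tailA_g k σ n : ℂ) :=
    fun n => rfl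
  simp only [hfg]
  rw [tailA_abel f (tailA_g k σ) N M hM]
  have hT : ∀ n : ℕ, N ≤ n → ‖∑ j ∈ Ioc N n, f j‖ ≤ 2 * δ * n := by
    intro n hn
    have e : ∑ j ∈ Ioc N n, f j = ∑ j ∈ Icc 1 n, f j - ∑ j ∈ Icc 1 N, f j := by
      have h3 : Icc 1 n = Icc 1 N ∪ Ioc N n := by
        ext j
        simp only [mem_Icc, mem_union, mem_Ioc]
        omega
      have h4 : Disjoint (Icc 1 N) (Ioc N n) := by
        rw [disjoint_left]
        intro j hj hj'
        rw [mem_Icc] at hj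
        rw [mem_Ioc] at hj'
        omega
      rw [h3, sum_union h4]
      ring
    rw [e]
    have h5 := norm_sub_le (∑ j ∈ Icc 1 n, f j) (∑ j ∈ Icc 1 N, f j)
    have h6 := hS n hn
    have h7 := hS N le_rfl
    have h8 : δ * N ≤ δ * n := mul_le_mul_of_nonneg_left (by exact_mod_cast hn) hδ
    linarith
  have hgM : (M : ℝ) * |tailA_g k σ M| ≤ k.factorial * (2 ^ k * X ^ k) := by
    have hM1 : 1 ≤ M := hN.trans hM
    have hM0 : (0 : ℝ) < M := by exact_mod_cast (show 0 < M by omega)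
    have hM1' : (1 : ℝ) ≤ M := by exact_mod_cast hM1
    have hlM : 0 ≤ Real.log M := Real.log_nonneg hM1'
    have h3 := tailA_pow k a (Real.log M) ha0 hlM
    have e1 : Real.exp (a * Real.log M) = (M : ℝ) ^ a := by
      rw [Real.rpow_def_of_pos hM0, mul_comm]
    rw [e1, hinvak] at h3
    unfold tailA_g
    rw [abs_of_nonneg (by positivity)]
    have h4 : (M : ℝ) ^ a * (M : ℝ) ^ (-σ) * M ≤ 1 := by
      have : (M : ℝ) ^ a * (M : ℝ) ^ (-σ) * M = (M : ℝ) ^ (-a) := by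
        rw [← Real.rpow_add hM0]
        nth_rewrite 2 [← Real.rpow_one (M : ℝ)]
        rw [← Real.rpow_add hM0]
        congr 1
        rw [ha]
        ring
      rw [this]
      exact Real.rpow_le_one_of_one_le_of_nonpos hM1' (by linarith)
    have h5 : 0 ≤ (M : ℝ) ^ (-σ) * M := by positivity
    calc (M : ℝ) * (Real.log M ^ k * (M : ℝ) ^ (-σ)) = Real.log M ^ k * ((M : ℝ) ^ (-σ) * M) := by
          ring
      _ ≤ (k.factorial * (2 ^ k * X ^ k) * (M : ℝ) ^ a) * ((M : ℝ) ^ (-σ) * M) :=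
          mul_le_mul_of_nonneg_right h3 h5
      _ = (k.factorial * (2 ^ k * X ^ k)) * ((M : ℝ) ^ a * (M : ℝ) ^ (-σ) * M) := by ring
      _ ≤ (k.factorial * (2 ^ k * X ^ k)) * 1 := mul_le_mul_of_nonneg_left h4 (by positivity)
      _ = _ := mul_one _
  have hterm : ∀ n ∈ Ico N M, ‖(∑ j ∈ Ioc N n, f j) * ((tailA_g k σ n - tailA_g k σ (n + 1) : ℝ) : ℂ)‖ ≤
      8 * δ * (k + 2) * (k.factorial * (2 ^ k * X ^ k)) * (n : ℝ) ^ (-1 - a) := by
    intro n hn
    rw [mem_Ico] at hn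
    have hn1 : 1 ≤ n := hN.trans hn.1
    have hn0 : (0 : ℝ) < n := by exact_mod_cast (show 0 < n by omega)
    have hn1' : (1 : ℝ) ≤ n := by exact_mod_cast hn1
    have hd := tailA_diff k σ h1 h2 n hn1
    have hw : 0 ≤ 1 + Real.log ((n : ℝ) + 1) := by
      have : 0 ≤ Real.log ((n : ℝ) + 1) := Real.log_nonneg (by linarith)
      linarith
    have h3 := tailA_pow k a (1 + Real.log ((n : ℝ) + 1)) ha0 hw
    rw [hinvak] at h3
    have h4 : Real.exp (a * (1 + Real.log ((n : ℝ) + 1))) ≤ 4 * (n : ℝ) ^ a := by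
      have e1 : a * (1 + Real.log ((n : ℝ) + 1)) = a + a * Real.log ((n : ℝ) + 1) := by ring
      have e2 : Real.exp (a * Real.log ((n : ℝ) + 1)) = ((n : ℝ) + 1) ^ a := by
        rw [Real.rpow_def_of_pos (by linarith), mul_comm]
      rw [e1, Real.exp_add, e2]
      have h5 : Real.exp a ≤ 2 := by
        have h6 : Real.exp a ≤ Real.exp (1 / 2) := Real.exp_le_exp.2 ha1
        have h7 : Real.exp (1 / 2) ^ 2 = Real.exp 1 := by
          rw [← Real.exp_nat_mul]
          norm_num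
        have h8 := Real.exp_one_lt_d9
        have h9 : 0 < Real.exp (1 / 2) := Real.exp_pos _
        nlinarith
      have h6 : ((n : ℝ) + 1) ^ a ≤ 2 * (n : ℝ) ^ a := by
        calc ((n : ℝ) + 1) ^ a ≤ (2 * (n : ℝ)) ^ a :=
              Real.rpow_le_rpow (by linarith) (by linarith) ha0.le
          _ = 2 ^ a * (n : ℝ) ^ a := Real.mul_rpow (by norm_num) hn0.le
          _ ≤ 2 * (n : ℝ) ^ a := by
              refine mul_le_mul_of_nonneg_right ?_ (by positivity)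
              calc (2 : ℝ) ^ a ≤ (2 : ℝ) ^ (1 : ℝ) :=
                    Real.rpow_le_rpow_of_exponent_le (by norm_num) (by linarith)
                _ = 2 := Real.rpow_one 2
      calc Real.exp a * ((n : ℝ) + 1) ^ a ≤ 2 * (2 * (n : ℝ) ^ a) :=
            mul_le_mul h5 h6 (by positivity) (by norm_num)
        _ = 4 * (n : ℝ) ^ a := by ring
    have h5 : (1 + Real.log ((n : ℝ) + 1)) ^ k ≤
        k.factorial * (2 ^ k * X ^ k) * (4 * (n : ℝ) ^ a) :=
      h3.trans (mul_le_mul_of_nonneg_left h4 (by positivity))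
    have h6 : (n : ℝ) ^ a * (n : ℝ) ^ (-σ - 1) * n = (n : ℝ) ^ (-1 - a) := by
      rw [← Real.rpow_add hn0]
      nth_rewrite 2 [← Real.rpow_one (n : ℝ)]
      rw [← Real.rpow_add hn0]
      congr 1
      rw [ha]
      ring
    rw [norm_mul, Complex.norm_real, Real.norm_eq_abs]
    have hp : 0 ≤ (n : ℝ) ^ (-σ - 1) := by positivity
    calc ‖∑ j ∈ Ioc N n, f j‖ * |tailA_g k σ n - tailA_g k σ (n + 1)|
        ≤ (2 * δ * n) * ((k + 2) * ((1 + Real.log (n + 1)) ^ k * (n : ℝ) ^ (-σ - 1))) :=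
          mul_le_mul (hT n hn.1) hd (abs_nonneg _) (by positivity)
      _ ≤ (2 * δ * n) * ((k + 2) * ((k.factorial * (2 ^ k * X ^ k) * (4 * (n : ℝ) ^ a)) *
            (n : ℝ) ^ (-σ - 1))) := by
          refine mul_le_mul_of_nonneg_left ?_ (by positivity)
          refine mul_le_mul_of_nonneg_left ?_ (by positivity)
          exact mul_le_mul_of_nonneg_right h5 hp
      _ = 8 * δ * (k + 2) * (k.factorial * (2 ^ k * X ^ k)) *
            ((n : ℝ) ^ a * (n : ℝ) ^ (-σ - 1) * n) := by ring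
      _ = _ := by rw [h6]
  have hsum : ‖∑ n ∈ Ico N M, (∑ j ∈ Ioc N n, f j) *
      ((tailA_g k σ n - tailA_g k σ (n + 1) : ℝ) : ℂ)‖ ≤
      8 * δ * (k + 2) * (k.factorial * (2 ^ k * X ^ k)) * (3 * X) := by
    refine (norm_sum_le _ _).trans ((sum_le_sum hterm).trans ?_)
    rw [← mul_sum]
    refine mul_le_mul_of_nonneg_left ?_ (by positivity)
    have h3 : ∑ n ∈ Ico N M, (n : ℝ) ^ (-1 - a) ≤ ∑ n ∈ Icc 1 M, (n : ℝ) ^ (-1 - a) := by
      refine sum_le_sum_of_subset_of_nonneg ?_ fun _ _ _ => by positivity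
      intro n hn
      rw [mem_Ico] at hn
      rw [mem_Icc]
      omega
    refine h3.trans ((tailA_sum a ha0 (by linarith) M).trans ?_)
    rw [hinva]
    linarith
  have hfirst : ‖(∑ n ∈ Ioc N M, f n) * (tailA_g k σ M : ℂ)‖ ≤
      2 * δ * (k.factorial * (2 ^ k * X ^ k)) := by
    rw [norm_mul, Complex.norm_real, Real.norm_eq_abs]
    calc ‖∑ n ∈ Ioc N M, f n‖ * |tailA_g k σ M| ≤ (2 * δ * M) * |tailA_g k σ M| :=
          mul_le_mul_of_nonneg_right (hT M hM) (abs_nonneg _)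
      _ = 2 * δ * (M * |tailA_g k σ M|) := by ring
      _ ≤ _ := mul_le_mul_of_nonneg_left hgM (by positivity)
  refine (norm_add_le _ _).trans ((add_le_add hfirst hsum).trans ?_)
  have hD : 0 ≤ δ * (k.factorial * (2 ^ k * X ^ k)) := by positivity
  have e1 : (k.factorial : ℝ) * 2 ^ k * (2 + 24 * (k + 2)) * δ * X ^ (k + 1) =
      δ * (k.factorial * (2 ^ k * X ^ k)) * (2 * X + 24 * (k + 2) * X) := by
    rw [pow_succ]
    ring
  have e2 : 2 * δ * (k.factorial * (2 ^ k * X ^ k)) +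
      8 * δ * (k + 2) * (k.factorial * (2 ^ k * X ^ k)) * (3 * X) =
      δ * (k.factorial * (2 ^ k * X ^ k)) * (2 + 24 * (k + 2) * X) := by
    ring
  rw [e1, e2]
  refine mul_le_mul_of_nonneg_left ?_ hD
  linarith

end Pool.Agent.H97.VK

end
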