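import Pool.Agent.H43.PM.M37

/-! The parts of this file: H88.PSI.Kap, H88.PSI.Pars, H88.PSI.Conv, H88.PSI.Lon. -/

section

/-!
# PSI Kap: the kernel of the logarithmic windows

`kp h t = ∫_{-h}^{0} ee(-t v) dv`; `|kp| ≤ h`, `|kp| ≤ 1/(π|t|)`, `|kp - h| ≤ π |t| h^2`.  The Fourier transform of
`u ↦ [u < c ≤ u + h]` is `ee(-t c) kp h t`... (`u = c + v`, `-h ≤ v < 0`).
-/

set_option autoImplicit false

namespace Pool.Agent.H88.PSI

open Finset MeasureTheory
open Pool.Agent.H91.PK (ee)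

private theorem kap_cont (t : ℝ) : Continuous fun v : ℝ => ee (-(v * t)) := by
  unfold ee
  fun_prop

/-- `∫_{-h}^{0} ee(-(v t)) dv` -/
noncomputable def kp (h t : ℝ) : ℂ := ∫ v in (-h)..0, ee (-(v * t))

theorem kp_le (h t : ℝ) (hh : 0 ≤ h) : ‖kp h t‖ ≤ h := by
  unfold kp
  have h1 : ‖∫ v in (-h)..0, ee (-(v * t))‖ ≤ 1 * |0 - (-h)| :=
    intervalIntegral.norm_integral_le_of_norm_le_const fun x _ =>
      (Pool.Agent.H91.PK.LSa_norm_ee _).le
  rwa [one_mul, zero_sub, neg_neg, abs_of_nonneg hh] at h1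

theorem kp_inv (h t : ℝ) (ht : t ≠ 0) : ‖kp h t‖ ≤ 1 / (2 * |t|) := by
  have hc : (-(2 * Real.pi * t * Complex.I) : ℂ) ≠ 0 := by
    refine neg_ne_zero.2 (mul_ne_zero (mul_ne_zero (mul_ne_zero two_ne_zero ?_) ?_)
      Complex.I_ne_zero)
    · exact_mod_cast Real.pi_ne_zero
    · exact_mod_cast ht
  have hd : ∀ v : ℝ, HasDerivAt (fun v : ℝ => ee (-(v * t)) / (-(2 * Real.pi * t * Complex.I)))
      (ee (-(v * t))) v := by
    intro v
    have h1 : HasDerivAt (fun v : ℝ => (-(2 * Real.pi * t * Complex.I) : ℂ) * ((v : ℝ) : ℂ))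
        (-(2 * Real.pi * t * Complex.I)) v := by
      have h2 := (Complex.ofRealCLM.hasDerivAt (x := v)).const_mul
        (-(2 * Real.pi * t * Complex.I) : ℂ)
      simpa using h2
    have h3 := h1.cexp.div_const (-(2 * Real.pi * t * Complex.I))
    have h4 : (fun v : ℝ => ee (-(v * t)) / (-(2 * Real.pi * t * Complex.I))) =
        fun v : ℝ => Complex.exp (-(2 * Real.pi * t * Complex.I) * (v : ℂ)) /
          (-(2 * Real.pi * t * Complex.I)) := by
      funext v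
      unfold ee
      congr 2
      push_cast
      ring
    rw [h4]
    have h5 : ee (-(v * t)) = Complex.exp (-(2 * Real.pi * t * Complex.I) * (v : ℂ)) *
        (-(2 * Real.pi * t * Complex.I)) / (-(2 * Real.pi * t * Complex.I)) := by
      rw [mul_div_cancel_right₀ _ hc]
      unfold ee
      congr 1
      push_cast
      ring
    rw [h5]
    exact h3
  have h6 : kp h t = ee (-(0 * t)) / (-(2 * Real.pi * t * Complex.I)) -
      ee (-(-h * t)) / (-(2 * Real.pi * t * Complex.I)) := by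
    unfold kp
    exact intervalIntegral.integral_eq_sub_of_hasDerivAt (fun v _ => hd v)
      ((kap_cont t).intervalIntegrable _ _)
  rw [h6, ← sub_div, norm_div]
  have h7 : ‖(-(2 * Real.pi * t * Complex.I) : ℂ)‖ = 2 * Real.pi * |t| := by
    rw [norm_neg, norm_mul, norm_mul, norm_mul, Complex.norm_I, Complex.norm_real,
      Complex.norm_real, Real.norm_eq_abs, Real.norm_eq_abs, abs_of_pos Real.pi_pos]
    simp
  have h8 : ‖ee (-(0 * t)) - ee (-(-h * t))‖ ≤ 2 := by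
    refine (norm_sub_le _ _).trans ?_
    rw [Pool.Agent.H91.PK.LSa_norm_ee, Pool.Agent.H91.PK.LSa_norm_ee]
    norm_num
  have ht' : 0 < |t| := abs_pos.2 ht
  rw [h7]
  refine (div_le_div_of_nonneg_right h8 (by positivity)).trans ?_
  rw [div_le_div_iff₀ (by positivity) (by positivity)]
  nlinarith [Real.pi_gt_three]

private theorem kap_sub_one (s : ℝ) : ‖ee s - 1‖ ≤ 2 * Real.pi * |s| := by
  have h1 := Real.norm_exp_I_mul_ofReal_sub_one_le (x := 2 * Real.pi * s)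
  have h2 : ee s = Complex.exp (Complex.I * ((2 * Real.pi * s : ℝ) : ℂ)) := by
    unfold ee
    congr 1
    push_cast
    ring
  rw [h2]
  refine h1.trans ?_
  rw [Real.norm_eq_abs, abs_mul, abs_of_pos (by positivity : (0 : ℝ) < 2 * Real.pi)]

theorem kp_sub (h t : ℝ) (hh : 0 ≤ h) : ‖kp h t - h‖ ≤ 4 * |t| * h ^ 2 := by
  have h1 : kp h t - h = ∫ v in (-h)..0, (ee (-(v * t)) - 1) := by
    rw [intervalIntegral.integral_sub ((kap_cont t).intervalIntegrable _ _)
      (continuous_const.intervalIntegrable _ _), intervalIntegral.integral_const]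
    unfold kp
    simp
  rw [h1]
  have h2 : ‖∫ v in (-h)..0, (ee (-(v * t)) - 1)‖ ≤
      ∫ v in (-h)..0, (2 * Real.pi * |t|) * (-v) := by
    refine intervalIntegral.norm_integral_le_of_norm_le (by linarith) ?_ ?_
    · filter_upwards with v hv
      refine (kap_sub_one _).trans (le_of_eq ?_)
      rw [abs_neg, abs_mul, abs_of_nonpos hv.2]
      ring
    · exact (continuous_const.mul continuous_neg).intervalIntegrable _ _
  refine h2.trans ?_
  rw [intervalIntegral.integral_const_mul, intervalIntegral.integral_neg, integral_id]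
  have h3 : 0 ≤ |t| * h ^ 2 := by positivity
  nlinarith [Real.pi_lt_four]

private theorem kap_ind (c h u : ℝ) (a : ℂ) :
    (if u < c ∧ c ≤ u + h then a else 0) = (Set.Ico (c - h) c).indicator (fun _ => a) u := by
  by_cases h1 : u < c ∧ c ≤ u + h
  · rw [if_pos h1, Set.indicator_of_mem]
    exact ⟨by linarith [h1.2], h1.1⟩
  · rw [if_neg h1, Set.indicator_of_notMem]
    intro h2
    exact h1 ⟨h2.2, by linarith [h2.1]⟩

private theorem kap_gw (f : ℕ → ℂ) (N : ℕ) (hs hl H H1 u : ℝ) :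
    Gw f N hs hl H H1 u = ∑ n ∈ Icc 1 N,
      ((Set.Ico (Real.log n - hs) (Real.log n)).indicator (fun _ => f n * (1 / H : ℝ)) u -
        (Set.Ico (Real.log n - hl) (Real.log n)).indicator (fun _ => f n * (1 / H1 : ℝ)) u) := by
  unfold Gw
  refine sum_congr rfl fun n _ => ?_
  rw [← kap_ind, ← kap_ind]
  push_cast
  split_ifs <;> simp [mul_sub]

private theorem kap_mem (f : ℕ → ℂ) (N : ℕ) (hs hl H H1 : ℝ) (p : ENNReal) :
    MemLp (Gw f N hs hl H H1) p := by
  have h1 : Gw f N hs hl H H1 = fun u => ∑ n ∈ Icc 1 N,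
      ((Set.Ico (Real.log n - hs) (Real.log n)).indicator (fun _ => f n * (1 / H : ℝ)) u -
        (Set.Ico (Real.log n - hl) (Real.log n)).indicator (fun _ => f n * (1 / H1 : ℝ)) u) :=
    funext fun u => kap_gw f N hs hl H H1 u
  rw [h1]
  refine memLp_finsetSum _ fun n _ => ?_
  refine MemLp.sub ?_ ?_
  · exact memLp_indicator_const p measurableSet_Ico _ (Or.inr (by simp))
  · exact memLp_indicator_const p measurableSet_Ico _ (Or.inr (by simp))

/-- `Gw` is bounded with compact support -/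
theorem gw_L1 (f : ℕ → ℂ) (N : ℕ) (hs hl H H1 : ℝ) (h1 : 0 ≤ hs) (h2 : 0 ≤ hl) :
    Integrable (Gw f N hs hl H H1) ∧ MemLp (Gw f N hs hl H H1) 2 := by
  have _ := h1
  have _ := h2
  exact ⟨memLp_one_iff_integrable.1 (kap_mem f N hs hl H H1 1), kap_mem f N hs hl H H1 2⟩

private theorem kap_int (c h t : ℝ) (a : ℂ) (hh : 0 ≤ h) :
    ∫ u, (Set.Ico (c - h) c).indicator (fun _ => a) u * ee (-(u * t)) =
      a * (ee (-(c * t)) * kp h t) := by
  have h1 : (fun u => (Set.Ico (c - h) c).indicator (fun _ => a) u * ee (-(u * t))) =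
      (Set.Ico (c - h) c).indicator fun u => a * ee (-(u * t)) := by
    funext u
    by_cases hu : u ∈ Set.Ico (c - h) c
    · rw [Set.indicator_of_mem hu, Set.indicator_of_mem hu]
    · rw [Set.indicator_of_notMem hu, Set.indicator_of_notMem hu, zero_mul]
  rw [h1, integral_indicator measurableSet_Ico, integral_Ico_eq_integral_Ioo,
    ← integral_Ioc_eq_integral_Ioo, ← intervalIntegral.integral_of_le (by linarith),
    intervalIntegral.integral_const_mul]
  congr 1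
  unfold kp
  have h2 : ∫ u in (c - h)..c, ee (-(u * t)) = ∫ v in (-h)..0, ee (-((v + c) * t)) := by
    rw [intervalIntegral.integral_comp_add_right (fun x => ee (-(x * t))) c]
    congr 1 <;> ring
  rw [h2, ← intervalIntegral.integral_const_mul]
  refine intervalIntegral.integral_congr fun v _ => ?_
  show ee (-((v + c) * t)) = ee (-(c * t)) * ee (-(v * t))
  rw [← Pool.Agent.H91.PK.LSa_ee_add]
  congr 1
  ring

private theorem kap_integrable (c h t : ℝ) (a : ℂ) :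
    Integrable fun u => (Set.Ico (c - h) c).indicator (fun _ => a) u * ee (-(u * t)) := by
  have h1 : Integrable fun u => (Set.Ico (c - h) c).indicator (fun _ => a) u :=
    memLp_one_iff_integrable.1 (memLp_indicator_const 1 measurableSet_Ico _ (Or.inr (by simp)))
  refine h1.mul_bdd (c := 1) (kap_cont t).aestronglyMeasurable ?_
  filter_upwards with u
  exact (Pool.Agent.H91.PK.LSa_norm_ee _).le

/-- the Fourier transform of `Gw` -/
theorem gw_four (f : ℕ → ℂ) (N : ℕ) (hs hl H H1 t : ℝ) (h1 : 0 ≤ hs) (h2 : 0 ≤ hl) :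
    ∫ u, Gw f N hs hl H H1 u * ee (-(u * t)) = DP f N (-t) * (kp hs t / H - kp hl t / H1) := by
  have h3 : (fun u => Gw f N hs hl H H1 u * ee (-(u * t))) = fun u => ∑ n ∈ Icc 1 N,
      ((Set.Ico (Real.log n - hs) (Real.log n)).indicator (fun _ => f n * (1 / H : ℝ)) u *
          ee (-(u * t)) -
        (Set.Ico (Real.log n - hl) (Real.log n)).indicator (fun _ => f n * (1 / H1 : ℝ)) u *
          ee (-(u * t))) := by
    funext u
    rw [kap_gw, sum_mul]
    exact sum_congr rfl fun n _ => sub_mul _ _ _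
  rw [h3]
  have h5 : ∀ n ∈ Icc 1 N, Integrable fun u : ℝ =>
      ((Set.Ico (Real.log n - hs) (Real.log n)).indicator (fun _ => f n * (1 / H : ℝ)) u *
          ee (-(u * t)) -
        (Set.Ico (Real.log n - hl) (Real.log n)).indicator (fun _ => f n * (1 / H1 : ℝ)) u *
          ee (-(u * t))) := fun n _ => (kap_integrable _ _ _ _).sub (kap_integrable _ _ _ _)
  rw [integral_finsetSum _ h5]
  unfold DP
  rw [sum_mul]
  refine sum_congr rfl fun n _ => ?_
  rw [integral_sub (kap_integrable _ _ _ _) (kap_integrable _ _ _ _), kap_int _ _ _ _ h1,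
    kap_int _ _ _ _ h2]
  have h4 : -(Real.log n * t) = -t * Real.log n := by ring
  rw [h4]
  push_cast
  ring

end Pool.Agent.H88.PSI

end

section

/-!
# PSI Pars: Plancherel for the logarithmic windows

`Pool.Agent.H76.EHB.planch` (`Pool/Agent/H76/EHB/Planch.lean`) with `gw_four`, `gw_L1`; `t ↦ -t`.  The weight `w(t) = |kp hs t/H - kp hl t/H1|^2` is
* `≤ ((1 + 8|t|) H1/X^2)^2` (`kp_sub`, `hd`, `hs^2/H ≤ H/X^2`, `hl^2/H1 ≤ H1/X^2`) for `|t| ≤ T0`, where also `|DP|^2 ≤ N SS`;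
* `≤ (2/X)^2` always (`kp_le`);
* `≤ (1/(|t| H))^2` for `t ≠ 0` (`kp_inv`, `H ≤ H1`), used with `tail_int` for `|t| > T`.
-/

set_option autoImplicit false

namespace Pool.Agent.H88.PSI

open Finset MeasureTheory
open Pool.Agent.H91.PK (ee)

private theorem pars_dp (f : ℕ → ℂ) (N : ℕ) (t : ℝ) : ‖DP f N t‖ ^ 2 ≤ N * SS f N := by
  have h1 := dp_norm_le f N t
  have h2 : (∑ n ∈ Icc 1 N, ‖f n‖) ^ 2 ≤ ((Icc 1 N).card : ℝ) * ∑ n ∈ Icc 1 N, ‖f n‖ ^ 2 :=
    sq_sum_le_card_mul_sum_sq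
  rw [Nat.card_Icc, Nat.add_sub_cancel] at h2
  exact (pow_le_pow_left₀ (norm_nonneg _) h1 2).trans h2

private theorem pars_SS (f : ℕ → ℂ) (N : ℕ) : 0 ≤ SS f N :=
  sum_nonneg fun _ _ => by positivity

/-- the weight near zero -/
private theorem pars_w0 {X H H1 hs hl t : ℝ} (hX : 1 ≤ X) (hH : 1 ≤ H)
    (hH1 : H ≤ H1) (h1 : 0 ≤ hs) (h2 : hs ≤ H / X) (h3 : 0 ≤ hl) (h4 : hl ≤ H1 / X)
    (hd : |hs / H - hl / H1| ≤ H1 / X ^ 2) :
    ‖kp hs t / (H : ℂ) - kp hl t / (H1 : ℂ)‖ ≤ (1 + 8 * |t|) * (H1 / X ^ 2) := by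
  have pH : 0 < H := by linarith
  have pH1 : 0 < H1 := by linarith
  have pX : 0 < X := by linarith
  have e1 : kp hs t / (H : ℂ) - kp hl t / (H1 : ℂ) =
      (kp hs t - hs) / (H : ℂ) - (kp hl t - hl) / (H1 : ℂ) + ((hs / H - hl / H1 : ℝ) : ℂ) := by
    push_cast
    ring
  have n1 : ‖(kp hs t - hs) / (H : ℂ)‖ ≤ 4 * |t| * (H / X ^ 2) := by
    rw [norm_div, Complex.norm_real, Real.norm_eq_abs, abs_of_pos pH, div_le_iff₀ pH]
    refine (kp_sub hs t h1).trans ?_
    have e2 : hs ^ 2 ≤ (H / X) ^ 2 := pow_le_pow_left₀ h1 h2 2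
    have e3 : 4 * |t| * (H / X ^ 2) * H = 4 * |t| * (H / X) ^ 2 := by
      field_simp
    rw [e3]
    exact mul_le_mul_of_nonneg_left e2 (by positivity)
  have n2 : ‖(kp hl t - hl) / (H1 : ℂ)‖ ≤ 4 * |t| * (H1 / X ^ 2) := by
    rw [norm_div, Complex.norm_real, Real.norm_eq_abs, abs_of_pos pH1, div_le_iff₀ pH1]
    refine (kp_sub hl t h3).trans ?_
    have e2 : hl ^ 2 ≤ (H1 / X) ^ 2 := pow_le_pow_left₀ h3 h4 2
    have e3 : 4 * |t| * (H1 / X ^ 2) * H1 = 4 * |t| * (H1 / X) ^ 2 := by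
      field_simp
    rw [e3]
    exact mul_le_mul_of_nonneg_left e2 (by positivity)
  have n3 : ‖((hs / H - hl / H1 : ℝ) : ℂ)‖ ≤ H1 / X ^ 2 := by
    rw [Complex.norm_real, Real.norm_eq_abs]
    exact hd
  have n4 : 4 * |t| * (H / X ^ 2) ≤ 4 * |t| * (H1 / X ^ 2) := by
    refine mul_le_mul_of_nonneg_left ?_ (by positivity)
    exact div_le_div_of_nonneg_right hH1 (by positivity)
  rw [e1]
  refine (norm_add_le _ _).trans ?_
  have n5 := norm_sub_le ((kp hs t - hs) / (H : ℂ)) ((kp hl t - hl) / (H1 : ℂ))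
  nlinarith

/-- the weight everywhere -/
private theorem pars_w1 {X H H1 hs hl t : ℝ} (hX : 1 ≤ X) (hH : 1 ≤ H)
    (hH1 : H ≤ H1) (h1 : 0 ≤ hs) (h2 : hs ≤ H / X) (h3 : 0 ≤ hl) (h4 : hl ≤ H1 / X) :
    ‖kp hs t / (H : ℂ) - kp hl t / (H1 : ℂ)‖ ≤ 2 / X := by
  have pH : 0 < H := by linarith
  have pH1 : 0 < H1 := by linarith
  have pX : 0 < X := by linarith
  have n1 : ‖kp hs t / (H : ℂ)‖ ≤ 1 / X := by
    rw [norm_div, Complex.norm_real, Real.norm_eq_abs, abs_of_pos pH, div_le_iff₀ pH]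
    refine (kp_le hs t h1).trans (h2.trans (le_of_eq ?_))
    ring
  have n2 : ‖kp hl t / (H1 : ℂ)‖ ≤ 1 / X := by
    rw [norm_div, Complex.norm_real, Real.norm_eq_abs, abs_of_pos pH1, div_le_iff₀ pH1]
    refine (kp_le hl t h3).trans (h4.trans (le_of_eq ?_))
    ring
  refine (norm_sub_le _ _).trans ?_
  have e : 2 / X = 1 / X + 1 / X := by ring
  rw [e]
  exact add_le_add n1 n2

/-- the weight far from zero -/
private theorem pars_w2 {H H1 hs hl t : ℝ} (hH : 1 ≤ H) (hH1 : H ≤ H1) (ht : t ≠ 0) :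
    ‖kp hs t / (H : ℂ) - kp hl t / (H1 : ℂ)‖ ≤ 1 / (|t| * H) := by
  have pH : 0 < H := by linarith
  have pH1 : 0 < H1 := by linarith
  have pt : 0 < |t| := abs_pos.2 ht
  have n1 : ‖kp hs t / (H : ℂ)‖ ≤ 1 / (2 * |t| * H) := by
    rw [norm_div, Complex.norm_real, Real.norm_eq_abs, abs_of_pos pH, div_le_iff₀ pH]
    refine (kp_inv hs t ht).trans (le_of_eq ?_)
    field_simp
  have n2 : ‖kp hl t / (H1 : ℂ)‖ ≤ 1 / (2 * |t| * H) := by
    rw [norm_div, Complex.norm_real, Real.norm_eq_abs, abs_of_pos pH1]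
    have e1 := kp_inv hl t ht
    refine (div_le_div_of_nonneg_right e1 pH1.le).trans ?_
    rw [div_div]
    refine one_div_le_one_div_of_le (by positivity) ?_
    exact mul_le_mul_of_nonneg_left hH1 (by positivity)
  refine (norm_sub_le _ _).trans ?_
  have e : 1 / (|t| * H) = 1 / (2 * |t| * H) + 1 / (2 * |t| * H) := by
    field_simp
    norm_num
  rw [e]
  exact add_le_add n1 n2

theorem pars (f : ℕ → ℂ) (N : ℕ) (X H H1 hs hl T0 T : ℝ) (hN : 1 ≤ N) (hX : 1 ≤ X) (hH : 1 ≤ H)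
    (hH1 : H ≤ H1) (hH2 : H1 ≤ X) (h1 : 0 ≤ hs) (h2 : hs ≤ H / X) (h3 : 0 ≤ hl) (h4 : hl ≤ H1 / X)
    (hd : |hs / H - hl / H1| ≤ H1 / X ^ 2) (hT0 : 1 ≤ T0) (hT : T0 ≤ T) :
    ∫ u, ‖Gw f N hs hl H H1 u‖ ^ 2
      ≤ 1000 * (T0 ^ 3 * H1 ^ 2 * N / X ^ 4
          + 1 / H ^ 2 * (1 / T + N * (1 + Real.log N) / T ^ 2)) * SS f N
        + 4 / X ^ 2 * ∫ t in {t : ℝ | T0 ≤ |t| ∧ |t| ≤ T}, ‖DP f N t‖ ^ 2 := by
  have _ := hH2
  have pX : 0 < X := by linarith
  have pH : 0 < H := by linarith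
  have pH1 : 0 < H1 := by linarith
  have pT : 1 ≤ T := by linarith
  obtain ⟨i1, i2⟩ := gw_L1 f N hs hl H H1 h1 h3
  obtain ⟨p1, p2⟩ := Pool.Agent.H76.EHB.planch (Gw f N hs hl H H1) i1 i2
  set Φ : ℝ → ℝ := fun t => ‖DP f N t * (kp hs (-t) / (H : ℂ) - kp hl (-t) / (H1 : ℂ))‖ ^ 2
    with hΦ
  have e1 : (fun ξ : ℝ => ‖∫ u, Gw f N hs hl H H1 u * ee (-(u * ξ))‖ ^ 2) =
      fun ξ => Φ (-ξ) := by
    funext ξ
    rw [gw_four f N hs hl H H1 ξ h1 h3, hΦ]
    simp only [neg_neg]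
  rw [e1] at p1
  have e1' : ∫ ξ : ℝ, ‖∫ u, Gw f N hs hl H H1 u * ee (-(u * ξ))‖ ^ 2 = ∫ ξ, Φ (-ξ) := by
    rw [e1]
  rw [e1', integral_neg_eq_self Φ volume] at p2
  have p3 : Integrable Φ := by
    have := p1.comp_neg
    simpa using this
  rw [← p2]
  -- the three sets
  set A : Set ℝ := {t | |t| < T0} with hA
  set B : Set ℝ := {t | T0 ≤ |t| ∧ |t| ≤ T} with hB
  set C : Set ℝ := {t | T < |t|} with hC
  have mA : MeasurableSet A := measurableSet_lt continuous_abs.measurable measurable_const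
  have mC : MeasurableSet C := measurableSet_lt measurable_const continuous_abs.measurable
  have mB : MeasurableSet B :=
    (measurableSet_le measurable_const continuous_abs.measurable).inter
      (measurableSet_le continuous_abs.measurable measurable_const)
  have hU : A ∪ (B ∪ C) = Set.univ := by
    ext t
    simp only [hA, hB, hC, Set.mem_union, Set.mem_ofPred_eq, Set.mem_univ, iff_true]
    rcases lt_or_ge |t| T0 with h | h
    · exact Or.inl h
    · rcases le_or_gt |t| T with h' | h'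
      · exact Or.inr (Or.inl ⟨h, h'⟩)
      · exact Or.inr (Or.inr h')
  have dBC : Disjoint B C := by
    rw [Set.disjoint_left]
    intro t ht ht'
    exact absurd ht.2 (not_le.2 ht')
  have dA : Disjoint A (B ∪ C) := by
    rw [Set.disjoint_left]
    rintro t ht (ht' | ht')
    · exact absurd ht'.1 (not_le.2 ht)
    · have a1 : |t| < T0 := ht
      have a2 : T < |t| := ht'
      linarith
  have hsplit : ∫ t, Φ t = (∫ t in A, Φ t) + ((∫ t in B, Φ t) + ∫ t in C, Φ t) := by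
    rw [← setIntegral_univ, ← hU, setIntegral_union dA (mB.union mC) p3.integrableOn
      p3.integrableOn, setIntegral_union dBC mC p3.integrableOn p3.integrableOn]
  rw [hsplit]
  have hS := pars_SS f N
  have hNN : (0 : ℝ) ≤ N := Nat.cast_nonneg N
  have hlog : 0 ≤ Real.log N := Real.log_natCast_nonneg N
  -- near zero
  have bA : ∫ t in A, Φ t ≤ 1000 * (T0 ^ 3 * H1 ^ 2 * N / X ^ 4) * SS f N := by
    have hsub : A ⊆ Set.Icc (-T0) T0 := by
      intro t ht
      have a1 : |t| < T0 := ht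
      exact abs_le.1 a1.le
    have hvol : volume (Set.Icc (-T0) T0) = ENNReal.ofReal (2 * T0) := by
      rw [Real.volume_Icc]
      congr 1
      ring
    have hfin : volume A ≤ ENNReal.ofReal (2 * T0) := hvol ▸ measure_mono hsub
    have hc : ∀ t ∈ A, Φ t ≤ N * SS f N * ((9 * T0) * (H1 / X ^ 2)) ^ 2 := by
      intro t ht
      have a1 : |t| < T0 := ht
      have a2 := pars_w0 (t := -t) hX hH hH1 h1 h2 h3 h4 hd
      rw [abs_neg] at a2
      have a3 : (1 + 8 * |t|) * (H1 / X ^ 2) ≤ (9 * T0) * (H1 / X ^ 2) := by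
        refine mul_le_mul_of_nonneg_right ?_ (by positivity)
        linarith
      rw [hΦ]
      simp only [norm_mul, mul_pow (‖DP f N t‖)]
      refine mul_le_mul (pars_dp f N t) (pow_le_pow_left₀ (norm_nonneg _) (a2.trans a3) 2)
        (by positivity) (by positivity)
    have hlt : volume A < ⊤ := lt_of_le_of_lt hfin ENNReal.ofReal_lt_top
    refine (setIntegral_mono_on p3.integrableOn (integrableOn_const hlt.ne) mA hc).trans ?_
    rw [setIntegral_const, smul_eq_mul]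
    have hreal : volume.real A ≤ 2 * T0 := by
      unfold Measure.real
      refine ENNReal.toReal_le_of_le_ofReal (by positivity) hfin
    refine (mul_le_mul_of_nonneg_right hreal (by positivity)).trans ?_
    have e2 : 2 * T0 * (N * SS f N * ((9 * T0) * (H1 / X ^ 2)) ^ 2) =
        162 * ((T0 ^ 3 * H1 ^ 2 * N / X ^ 4) * SS f N) := by
      field_simp
      ring
    rw [e2, mul_assoc (1000 : ℝ)]
    refine mul_le_mul_of_nonneg_right (by norm_num) (by positivity)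
  -- the middle part
  have hcont : Continuous fun t => ‖DP f N t‖ ^ 2 := (dp_cont f N).norm.pow 2
  have iB : IntegrableOn (fun t => ‖DP f N t‖ ^ 2) B := by
    refine (hcont.continuousOn.integrableOn_compact (isCompact_Icc (a := -T) (b := T))).mono_set ?_
    intro t ht
    exact abs_le.1 ht.2
  have bB : ∫ t in B, Φ t ≤ 4 / X ^ 2 * ∫ t in B, ‖DP f N t‖ ^ 2 := by
    rw [← integral_const_mul]
    refine setIntegral_mono_on p3.integrableOn (iB.const_mul _) mB fun t _ => ?_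
    have a2 := pars_w1 (t := -t) hX hH hH1 h1 h2 h3 h4
    rw [hΦ]
    simp only [norm_mul, mul_pow (‖DP f N t‖)]
    rw [mul_comm]
    refine mul_le_mul_of_nonneg_right ?_ (by positivity)
    refine (pow_le_pow_left₀ (norm_nonneg _) a2 2).trans (le_of_eq ?_)
    ring
  -- the tail
  obtain ⟨iC, bC0⟩ := tail_int f N T hN pT
  have bC : ∫ t in C, Φ t ≤ 1000 * (1 / H ^ 2 * (1 / T + N * (1 + Real.log N) / T ^ 2)) *
      SS f N := by
    have hc : ∀ t ∈ C, Φ t ≤ 1 / H ^ 2 * (‖DP f N t‖ ^ 2 / t ^ 2) := by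
      intro t ht
      have a1 : T < |t| := ht
      have a0 : t ≠ 0 := by
        rintro rfl
        rw [abs_zero] at a1
        linarith
      have a2 := pars_w2 (t := -t) (hs := hs) (hl := hl) hH hH1 (neg_ne_zero.2 a0)
      rw [abs_neg] at a2
      rw [hΦ]
      simp only [norm_mul, mul_pow (‖DP f N t‖)]
      have a3 : (1 / (|t| * H)) ^ 2 = 1 / H ^ 2 * (1 / t ^ 2) := by
        rw [div_pow, mul_pow, sq_abs]
        field_simp
      have a4 := pow_le_pow_left₀ (norm_nonneg _) a2 2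
      rw [a3] at a4
      refine (mul_le_mul_of_nonneg_left a4 (by positivity)).trans (le_of_eq ?_)
      ring
    refine (setIntegral_mono_on p3.integrableOn (iC.const_mul _) mC hc).trans ?_
    rw [integral_const_mul]
    refine (mul_le_mul_of_nonneg_left bC0 (by positivity)).trans ?_
    have e2 : 1 / H ^ 2 * (100 * (1 / T + N * (1 + Real.log N) / T ^ 2) * SS f N) =
        100 * ((1 / H ^ 2 * (1 / T + N * (1 + Real.log N) / T ^ 2)) * SS f N) := by ring
    rw [e2, mul_assoc (1000 : ℝ)]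
    refine mul_le_mul_of_nonneg_right (by norm_num) (by positivity)
  have e3 : 1000 * (T0 ^ 3 * H1 ^ 2 * N / X ^ 4
          + 1 / H ^ 2 * (1 / T + N * (1 + Real.log N) / T ^ 2)) * SS f N =
      1000 * (T0 ^ 3 * H1 ^ 2 * N / X ^ 4) * SS f N +
        1000 * (1 / H ^ 2 * (1 / T + N * (1 + Real.log N) / T ^ 2)) * SS f N := by ring
  rw [e3]
  linarith

end Pool.Agent.H88.PSI

end

section

/-!
# PSI Conv: from windows of fixed length to logarithmic windows

`∑_{x ∈ [X, 2X)} |D(x)|^2 = ∫_X^{2X} |D(⌊x⌋)|^2 dx`; for real `x` and natural `H`: `n ∈ (⌊x⌋, ⌊x⌋ + H]` iff `x < n ≤ x + H`.  For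
`X_i = X (1 + i/K) ≤ x < X_{i+1}` the window `(x, x + H]` is compared with `(x, x + H x/X_i] = (x, x e^{h_i}]`, `h_i = log(1 + H/X_i)` (`x < n ≤ x e^h` iff
`log x < log n ≤ log x + h`): the difference is a sum over `(x + H, x + H x/X_i]`, of length `≤ H/K`, with `≤ H/K + 1 ≤ 2 H/K` integers; by
Cauchy-Schwarz and Fubini its mean square is `≤ (2H/K)(H/K) SS f N` (every `n` lies in the windows for `x` in a set of measure
`≤ 2 H/K`).  The same for `H1`.  Main part: substitution `u = log x`, `dx = e^u du ≤ 2 X du`.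
-/

set_option autoImplicit false

namespace Pool.Agent.H88.PSI

open Finset MeasureTheory

/-- the sum over a real window -/
private noncomputable def convW (f : ℕ → ℂ) (N : ℕ) (s e : ℝ) : ℂ :=
  ∑ n ∈ Icc 1 N, if s < (n : ℝ) ∧ (n : ℝ) ≤ e then f n else 0

private noncomputable def convP (f : ℕ → ℂ) (N : ℕ) (a b y : ℝ) : ℝ :=
  ∑ n ∈ Icc 1 N, (Set.Ico ((n : ℝ) - a - b) ((n : ℝ) - a)).indicator (fun _ => ‖f n‖ ^ 2) y

private theorem convP_nonneg (f : ℕ → ℂ) (N : ℕ) (a b y : ℝ) : 0 ≤ convP f N a b y :=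
  sum_nonneg fun n _ => Set.indicator_nonneg (fun _ _ => by positivity) _

private theorem conv_card (N : ℕ) (a b : ℝ) (ha : 0 ≤ a) (hab : a ≤ b) :
    (((Icc 1 N).filter fun n : ℕ => a < (n : ℝ) ∧ (n : ℝ) ≤ b).card : ℝ) ≤ b - a + 1 := by
  have h1 : ((Icc 1 N).filter fun n : ℕ => a < (n : ℝ) ∧ (n : ℝ) ≤ b) ⊆ Ioc ⌊a⌋₊ ⌊b⌋₊ := by
    intro n hn
    rw [mem_filter] at hn
    rw [mem_Ioc]
    exact ⟨(Nat.floor_lt ha).2 hn.2.1, Nat.le_floor hn.2.2⟩
  have h2 := card_le_card h1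
  rw [Nat.card_Ioc] at h2
  have h3 : ⌊a⌋₊ ≤ ⌊b⌋₊ := Nat.floor_le_floor hab
  have h4 : ((⌊b⌋₊ - ⌊a⌋₊ : ℕ) : ℝ) = (⌊b⌋₊ : ℝ) - ⌊a⌋₊ := Nat.cast_sub h3
  have h5 : (⌊b⌋₊ : ℝ) ≤ b := Nat.floor_le (ha.trans hab)
  have h6 : a < ⌊a⌋₊ + 1 := Nat.lt_floor_add_one a
  have h7 : (((Icc 1 N).filter fun n : ℕ => a < (n : ℝ) ∧ (n : ℝ) ≤ b).card : ℝ) ≤
      ((⌊b⌋₊ - ⌊a⌋₊ : ℕ) : ℝ) := by exact_mod_cast h2
  linarith

private theorem conv_diff (f : ℕ → ℂ) (N : ℕ) (K H c y : ℝ) (hK : 1 ≤ K) (hH : 0 ≤ H) (hc : 0 < c)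
    (hy : c ≤ y) (hy2 : y ≤ c * (1 + 1 / K)) :
    ‖convW f N y (y + H * y / c) - convW f N y (y + H)‖ ^ 2 ≤
      (H / K + 1) * convP f N H (H / K) y := by
  have hy0 : 0 < y := by linarith
  have hK0 : 0 < K := by linarith
  have hle : y + H ≤ y + H * y / c := by
    have : H ≤ H * y / c := by
      rw [le_div_iff₀ hc]
      exact mul_le_mul_of_nonneg_left hy hH
    linarith
  have hle2 : H * y / c ≤ H + H / K := by
    rw [div_le_iff₀ hc]
    have h1 : H * y ≤ H * (c * (1 + 1 / K)) := mul_le_mul_of_nonneg_left hy2 hH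
    have h2 : H * (c * (1 + 1 / K)) = (H + H / K) * c := by ring
    linarith
  set S := (Icc 1 N).filter fun n : ℕ => y + H < (n : ℝ) ∧ (n : ℝ) ≤ y + H * y / c with hS
  have h1 : convW f N y (y + H * y / c) - convW f N y (y + H) = ∑ n ∈ S, f n := by
    unfold convW
    rw [← sum_sub_distrib, hS, sum_filter]
    refine sum_congr rfl fun n _ => ?_
    by_cases a1 : (n : ℝ) ≤ y
    · rw [if_neg (fun h => absurd h.1 (not_lt.2 a1)), if_neg (fun h => absurd h.1 (not_lt.2 a1)),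
        if_neg (fun h => absurd h.1 (not_lt.2 (by linarith))), sub_zero]
    · have a2 : y < (n : ℝ) := not_le.1 a1
      by_cases a3 : (n : ℝ) ≤ y + H
      · rw [if_pos ⟨a2, a3.trans hle⟩, if_pos ⟨a2, a3⟩, if_neg (fun h => absurd h.1 (not_lt.2 a3)),
          sub_self]
      · by_cases a4 : (n : ℝ) ≤ y + H * y / c
        · rw [if_pos ⟨a2, a4⟩, if_neg (fun h => a3 h.2), if_pos ⟨not_le.1 a3, a4⟩, sub_zero]
        · rw [if_neg (fun h => a4 h.2), if_neg (fun h => a3 h.2), if_neg (fun h => a4 h.2),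
            sub_zero]
  have h2 : ‖∑ n ∈ S, f n‖ ^ 2 ≤ (S.card : ℝ) * ∑ n ∈ S, ‖f n‖ ^ 2 :=
    (pow_le_pow_left₀ (norm_nonneg _) (norm_sum_le _ _) 2).trans sq_sum_le_card_mul_sum_sq
  have h3 : (S.card : ℝ) ≤ H / K + 1 := by
    refine (conv_card N (y + H) (y + H * y / c) (by linarith) hle).trans ?_
    linarith
  have h4 : ∑ n ∈ S, ‖f n‖ ^ 2 ≤ convP f N H (H / K) y := by
    unfold convP
    rw [hS, sum_filter]
    refine sum_le_sum fun n _ => ?_
    split_ifs with a1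
    · rw [Set.indicator_of_mem]
      exact ⟨by linarith [a1.2], by linarith [a1.1]⟩
    · exact Set.indicator_nonneg (fun _ _ => by positivity) _
  rw [h1]
  refine h2.trans (mul_le_mul h3 h4 (sum_nonneg fun _ _ => by positivity) ?_)
  positivity

private theorem conv_W (f : ℕ → ℂ) (N H x : ℕ) (y : ℝ) (hy : (x : ℝ) ≤ y) (hy2 : y < x + 1)
    (hN : x + H ≤ N) : W f H x = convW f N y (y + H) := by
  unfold W convW
  rw [← sum_filter]
  refine sum_congr ?_ fun _ _ => rfl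
  ext n
  rw [mem_Ioc, mem_filter, mem_Icc]
  constructor
  · rintro ⟨h1, h2⟩
    have h1' : (x : ℝ) + 1 ≤ n := by exact_mod_cast h1
    have h2' : (n : ℝ) ≤ x + H := by exact_mod_cast h2
    exact ⟨⟨by omega, by omega⟩, by linarith, by linarith⟩
  · rintro ⟨⟨h1, h2⟩, h3, h4⟩
    constructor
    · by_contra h5
      have h6 : (n : ℝ) ≤ x := by exact_mod_cast not_lt.1 h5
      linarith
    · by_contra h5
      have h6 : (x : ℝ) + H + 1 ≤ n := by exact_mod_cast not_le.1 h5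
      linarith

private theorem conv_G (f : ℕ → ℂ) (N : ℕ) (H H1 c y : ℝ) (hH : 0 ≤ H) (hH1 : 0 ≤ H1) (hc : 0 < c)
    (hy : 0 < y) : Gw f N (Real.log (1 + H / c)) (Real.log (1 + H1 / c)) H H1 (Real.log y) =
      convW f N y (y + H * y / c) / H - convW f N y (y + H1 * y / c) / H1 := by
  have key : ∀ (h : ℝ), 0 ≤ h → ∀ n ∈ Icc 1 N, (Real.log y < Real.log (n : ℝ) ∧
      Real.log (n : ℝ) ≤ Real.log y + Real.log (1 + h / c)) ↔
      (y < (n : ℝ) ∧ (n : ℝ) ≤ y + h * y / c) := by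
    intro h hh n hn
    have hn0 : (0 : ℝ) < n := by
      rw [mem_Icc] at hn
      exact_mod_cast hn.1
    have hp : 0 < 1 + h / c := by positivity
    rw [Real.log_lt_log_iff hy hn0, ← Real.log_mul hy.ne' hp.ne',
      Real.log_le_log_iff hn0 (by positivity)]
    have e : y * (1 + h / c) = y + h * y / c := by ring
    rw [e]
  unfold Gw convW
  rw [sum_div, sum_div, ← sum_sub_distrib]
  refine sum_congr rfl fun n hn => ?_
  have k1 := key H hH n hn
  have k2 := key H1 hH1 n hn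
  by_cases a1 : y < (n : ℝ) ∧ (n : ℝ) ≤ y + H * y / c
  · by_cases a2 : y < (n : ℝ) ∧ (n : ℝ) ≤ y + H1 * y / c
    · rw [if_pos (k1.2 a1), if_pos (k2.2 a2), if_pos a1, if_pos a2]
      push_cast
      ring
    · rw [if_pos (k1.2 a1), if_neg (fun h => a2 (k2.1 h)), if_pos a1, if_neg a2]
      push_cast
      ring
  · by_cases a2 : y < (n : ℝ) ∧ (n : ℝ) ≤ y + H1 * y / c
    · rw [if_neg (fun h => a1 (k1.1 h)), if_pos (k2.2 a2), if_neg a1, if_pos a2]
      push_cast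
      ring
    · rw [if_neg (fun h => a1 (k1.1 h)), if_neg (fun h => a2 (k2.1 h)), if_neg a1, if_neg a2]
      push_cast
      ring

private theorem conv_sq (a b : ℂ) : ‖a + b‖ ^ 2 ≤ 2 * ‖a‖ ^ 2 + 2 * ‖b‖ ^ 2 := by
  have h1 := pow_le_pow_left₀ (norm_nonneg _) (norm_add_le a b) 2
  nlinarith [sq_nonneg (‖a‖ - ‖b‖)]

private theorem conv_scale {K H : ℝ} {d : ℂ} {P : ℝ} (hK : 1 ≤ K) (hH : K ≤ H) (hP : 0 ≤ P)
    (h : ‖d‖ ^ 2 ≤ (H / K + 1) * P) : ‖d / (H : ℂ)‖ ^ 2 ≤ 2 / (H * K) * P := by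
  have pK : 0 < K := by linarith
  have pH : 0 < H := by linarith
  rw [norm_div, Complex.norm_real, Real.norm_eq_abs, abs_of_pos pH, div_pow,
    div_le_iff₀ (by positivity)]
  have h1 : 1 ≤ H / K := by rwa [le_div_iff₀ pK, one_mul]
  have h2 : (H / K + 1) * P ≤ (2 * (H / K)) * P := mul_le_mul_of_nonneg_right (by linarith) hP
  have h3 : 2 / (H * K) * P * H ^ 2 = 2 * (H / K) * P := by field_simp
  rw [h3]
  exact h.trans h2

private theorem conv_point (f : ℕ → ℂ) (N X H H1 x : ℕ) (K c y : ℝ) (hK : 1 ≤ K) (hH : K ≤ H)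
    (hH1 : H ≤ H1) (hH2 : H1 ≤ X) (hN : 4 * X ≤ N) (hx : x < 2 * X) (h1 : (x : ℝ) ≤ y)
    (h2 : y < x + 1) (hc : 0 < c) (hy : c ≤ y) (hy2 : y ≤ c * (1 + 1 / K)) :
    ‖D f H H1 x‖ ^ 2 ≤
      2 * ‖Gw f N (Real.log (1 + H / c)) (Real.log (1 + H1 / c)) H H1 (Real.log y)‖ ^ 2 +
        (8 / (H * K) * convP f N H (H / K) y + 8 / (H1 * K) * convP f N H1 (H1 / K) y) := by
  have pH : (0 : ℝ) ≤ H := Nat.cast_nonneg H
  have pH1 : (0 : ℝ) ≤ H1 := Nat.cast_nonneg H1
  have hHH : (H : ℝ) ≤ H1 := by exact_mod_cast hH1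
  have hy0 : 0 < y := by linarith
  have e1 := conv_G f N H H1 c y pH pH1 hc hy0
  have e2 := conv_W f N H x y h1 h2 (by omega)
  have e3 := conv_W f N H1 x y h1 h2 (by omega)
  have d1 := conv_scale hK hH (convP_nonneg _ _ _ _ _) (conv_diff f N K H c y hK pH hc hy hy2)
  have d2 := conv_scale hK (hH.trans hHH) (convP_nonneg _ _ _ _ _)
    (conv_diff f N K H1 c y hK pH1 hc hy hy2)
  have e4 : D f H H1 x = Gw f N (Real.log (1 + H / c)) (Real.log (1 + H1 / c)) H H1 (Real.log y) +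
      (-((convW f N y (y + H * y / c) - convW f N y (y + H)) / ((H : ℝ) : ℂ)) +
        (convW f N y (y + H1 * y / c) - convW f N y (y + H1)) / ((H1 : ℝ) : ℂ)) := by
    rw [e1]
    unfold D
    rw [e2, e3]
    push_cast
    ring
  rw [e4]
  refine (conv_sq _ _).trans ?_
  have s1 := conv_sq (-((convW f N y (y + H * y / c) - convW f N y (y + H)) / ((H : ℝ) : ℂ)))
    ((convW f N y (y + H1 * y / c) - convW f N y (y + H1)) / ((H1 : ℝ) : ℂ))
  rw [norm_neg] at s1
  have s2 : 8 / ((H : ℝ) * K) * convP f N H (H / K) y = 4 * (2 / (H * K) * convP f N H (H / K) y) :=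
    by ring
  have s3 : 8 / ((H1 : ℝ) * K) * convP f N H1 (H1 / K) y =
    4 * (2 / (H1 * K) * convP f N H1 (H1 / K) y) := by ring
  rw [s2, s3]
  linarith

private theorem convP_int (f : ℕ → ℂ) (N : ℕ) (a b : ℝ) (hb : 0 ≤ b) :
    Integrable (convP f N a b) ∧ ∫ y, convP f N a b y = b * SS f N := by
  have h1 : ∀ n ∈ Icc 1 N, Integrable fun y : ℝ =>
      (Set.Ico ((n : ℝ) - a - b) ((n : ℝ) - a)).indicator (fun _ => ‖f n‖ ^ 2) y := fun n _ =>
    memLp_one_iff_integrable.1 (memLp_indicator_const 1 measurableSet_Ico _ (Or.inr (by simp)))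
  refine ⟨integrable_finsetSum _ h1, ?_⟩
  unfold convP SS
  rw [integral_finsetSum _ h1, mul_sum]
  refine sum_congr rfl fun n _ => ?_
  rw [integral_indicator_const _ measurableSet_Ico, smul_eq_mul]
  congr 1
  rw [Real.volume_real_Ico_of_le (by linarith)]
  ring

/-- the substitution -/
private theorem conv_subst (g : ℝ → ℝ) (hg : Integrable g) (hg0 : ∀ u, 0 ≤ g u) (a b : ℝ)
    (ha : 0 < a) (hab : a ≤ b) :
    IntegrableOn (fun y => g (Real.log y)) (Set.Ico a b) ∧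
      ∫ y in Set.Ico a b, g (Real.log y) ≤ b * ∫ u, g u := by
  have hb : 0 < b := by linarith
  have him : Real.exp '' Set.Ico (Real.log a) (Real.log b) = Set.Ico a b := by
    ext y
    constructor
    · rintro ⟨u, ⟨h1, h2⟩, rfl⟩
      exact ⟨(Real.log_le_iff_le_exp ha).1 h1, (Real.lt_log_iff_exp_lt hb).1 h2⟩
    · rintro ⟨h1, h2⟩
      have hy : 0 < y := by linarith
      exact ⟨Real.log y, ⟨Real.log_le_log ha h1, Real.log_lt_log hy h2⟩, Real.exp_log hy⟩
  have hd : ∀ x ∈ Set.Ico (Real.log a) (Real.log b),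
      HasDerivWithinAt Real.exp (Real.exp x) (Set.Ico (Real.log a) (Real.log b)) x :=
    fun x _ => (Real.hasDerivAt_exp x).hasDerivWithinAt
  have hinj : Set.InjOn Real.exp (Set.Ico (Real.log a) (Real.log b)) :=
    Real.exp_injective.injOn
  have hi : IntegrableOn (fun u => |Real.exp u| • g (Real.log (Real.exp u)))
      (Set.Ico (Real.log a) (Real.log b)) := by
    have h1 : Integrable (fun u => g u) (volume.restrict (Set.Ico (Real.log a) (Real.log b))) :=
      hg.integrableOn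
    have h2 := h1.bdd_mul (c := b) (f := fun u => |Real.exp u|)
      (Real.continuous_exp.abs.aestronglyMeasurable) (by
        filter_upwards [ae_restrict_mem measurableSet_Ico] with u hu
        rw [Real.norm_eq_abs, abs_abs, abs_of_pos (Real.exp_pos u)]
        exact ((Real.lt_log_iff_exp_lt hb).1 hu.2).le)
    refine h2.congr ?_
    filter_upwards with u
    rw [Real.log_exp, smul_eq_mul]
  constructor
  · rw [← him, integrableOn_image_iff_integrableOn_abs_deriv_smul measurableSet_Ico hd hinj]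
    exact hi
  · rw [← him, integral_image_eq_integral_abs_deriv_smul measurableSet_Ico hd hinj,
      ← integral_const_mul]
    refine (setIntegral_mono_on hi (hg.const_mul b).integrableOn measurableSet_Ico
      fun u hu => ?_).trans ?_
    · rw [Real.log_exp, smul_eq_mul, abs_of_pos (Real.exp_pos u)]
      exact mul_le_mul_of_nonneg_right ((Real.lt_log_iff_exp_lt hb).1 hu.2).le (hg0 u)
    · refine setIntegral_le_integral (hg.const_mul b) ?_
      filter_upwards with u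
      exact mul_nonneg hb.le (hg0 u)

theorem conv (f : ℕ → ℂ) (N X H H1 K : ℕ) (hX : 1 ≤ X) (hK : 1 ≤ K) (hH : K ≤ H) (hH1 : H ≤ H1)
    (hH2 : H1 ≤ X) (hN : 4 * X ≤ N) :
    ∑ x ∈ Ico X (2 * X), ‖D f H H1 x‖ ^ 2
      ≤ 100 * SS f N / (K : ℝ) ^ 2 + 8 * X * ∑ i ∈ range K,
        ∫ u, ‖Gw f N (Real.log (1 + H / (X * (1 + (i : ℝ) / K))))
          (Real.log (1 + H1 / (X * (1 + (i : ℝ) / K)))) H H1 u‖ ^ 2 := by
  have pX : (0 : ℝ) < X := by exact_mod_cast hX
  have pK : (0 : ℝ) < K := by exact_mod_cast hK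
  have hK1 : (1 : ℝ) ≤ K := by exact_mod_cast hK
  have hKH : (K : ℝ) ≤ H := by exact_mod_cast hH
  have hHH : (H : ℝ) ≤ H1 := by exact_mod_cast hH1
  have pH : (0 : ℝ) < H := by linarith
  have pH1 : (0 : ℝ) < H1 := by linarith
  set c : ℕ → ℝ := fun i => X * (1 + (i : ℝ) / K) with hcdef
  have cX : ∀ i, (X : ℝ) ≤ c i := by
    intro i
    have : (0 : ℝ) ≤ (i : ℝ) / K := by positivity
    show (X : ℝ) ≤ X * (1 + (i : ℝ) / K)
    nlinarith
  have cpos : ∀ i, 0 < c i := fun i => lt_of_lt_of_le pX (cX i)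
  have cstep : ∀ i, c (i + 1) = c i + X / K := by
    intro i
    simp only [hcdef]
    push_cast
    ring
  have cle : ∀ i ∈ range K, c (i + 1) ≤ 2 * X := by
    intro i hi
    rw [mem_range] at hi
    have h1 : ((i + 1 : ℕ) : ℝ) ≤ K := by exact_mod_cast hi
    have h2 : ((i + 1 : ℕ) : ℝ) / K ≤ 1 := by rwa [div_le_one pK]
    show (X : ℝ) * (1 + ((i + 1 : ℕ) : ℝ) / K) ≤ 2 * X
    nlinarith
  set g : ℕ → ℝ → ℝ := fun i u => ‖Gw f N (Real.log (1 + H / c i))
          (Real.log (1 + H1 / c i)) H H1 u‖ ^ 2 with hgdef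
  have hlog : ∀ (h : ℝ) (i : ℕ), 0 ≤ h → 0 ≤ Real.log (1 + h / c i) := by
    intro h i hh
    refine Real.log_nonneg ?_
    have : 0 ≤ h / c i := div_nonneg hh (cpos i).le
    linarith
  have hgi : ∀ i, Integrable (g i) := by
    intro i
    have h1 := (gw_L1 f N (Real.log (1 + H / c i)) (Real.log (1 + H1 / c i)) H H1
      (hlog _ _ pH.le) (hlog _ _ pH1.le)).2
    exact (memLp_two_iff_integrable_sq_norm h1.1).1 h1
  have hg0 : ∀ i u, 0 ≤ g i u := fun i u => by
    simp only [hgdef]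
    positivity
  set Q : ℝ → ℝ := fun y => (∑ i ∈ range K,
      (Set.Ico (c i) (c (i + 1))).indicator (fun y => 2 * g i (Real.log y)) y) +
      (8 / ((H : ℝ) * K) * convP f N H (H / K) y + 8 / ((H1 : ℝ) * K) * convP f N H1 (H1 / K) y)
    with hQ
  have hs : ∀ i, IntegrableOn (fun y => g i (Real.log y)) (Set.Ico (c i) (c (i + 1))) ∧
      ∫ y in Set.Ico (c i) (c (i + 1)), g i (Real.log y) ≤ c (i + 1) * ∫ u, g i u := fun i =>
    conv_subst (g i) (hgi i) (hg0 i) _ _ (cpos i) (by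
      rw [cstep]
      have : (0 : ℝ) ≤ X / K := by positivity
      linarith)
  have hi1 : ∀ i ∈ range K, Integrable fun y =>
      (Set.Ico (c i) (c (i + 1))).indicator (fun y => 2 * g i (Real.log y)) y := by
    intro i _
    rw [integrable_indicator_iff measurableSet_Ico]
    exact (hs i).1.const_mul 2
  have hP1 := convP_int f N H ((H : ℝ) / K) (by positivity)
  have hP2 := convP_int f N H1 ((H1 : ℝ) / K) (by positivity)
  have hi2 : Integrable fun y => 8 / ((H : ℝ) * K) * convP f N H (H / K) y := hP1.1.const_mul _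
  have hi3 : Integrable fun y => 8 / ((H1 : ℝ) * K) * convP f N H1 (H1 / K) y := hP2.1.const_mul _
  have hQi : Integrable Q := (integrable_finsetSum _ hi1).add (hi2.add hi3)
  have hQ0 : ∀ y, 0 ≤ Q y := by
    intro y
    simp only [hQ]
    have := convP_nonneg f N H ((H : ℝ) / K) y
    have := convP_nonneg f N H1 ((H1 : ℝ) / K) y
    have : 0 ≤ ∑ i ∈ range K,
      (Set.Ico (c i) (c (i + 1))).indicator (fun y => 2 * g i (Real.log y)) y :=
      sum_nonneg fun i _ => Set.indicator_nonneg (fun y _ => mul_nonneg zero_le_two (hg0 i _)) _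
    positivity
  -- the pointwise bound
  have hpt : ∀ x ∈ Ico X (2 * X), ∀ y ∈ Set.Ico (x : ℝ) (x + 1), ‖D f H H1 x‖ ^ 2 ≤ Q y := by
    intro x hx y hy
    rw [mem_Ico] at hx
    have hXx : (X : ℝ) ≤ x := by exact_mod_cast hx.1
    have hx2 : (x : ℝ) + 1 ≤ 2 * X := by exact_mod_cast hx.2
    have hz0 : 0 ≤ (y / X - 1) * K := by
      refine mul_nonneg ?_ pK.le
      have : 1 ≤ y / X := by
        rw [le_div_iff₀ pX]
        linarith [hy.1]
      linarith
    set i := ⌊(y / X - 1) * K⌋₊ with hi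
    have hi1 : (i : ℝ) ≤ (y / X - 1) * K := Nat.floor_le hz0
    have hi2 : (y / X - 1) * K < i + 1 := Nat.lt_floor_add_one _
    have hci : c i ≤ y := by
      have h1 : (i : ℝ) / K ≤ y / X - 1 := by rwa [div_le_iff₀ pK]
      have h2 : (X : ℝ) * (1 + (i : ℝ) / K) ≤ X * (y / X) :=
        mul_le_mul_of_nonneg_left (by linarith) pX.le
      rwa [mul_div_cancel₀ _ pX.ne'] at h2
    have hci2 : y < c (i + 1) := by
      have h1 : y / X - 1 < ((i + 1 : ℕ) : ℝ) / K := by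
        rw [lt_div_iff₀ pK]
        push_cast
        exact hi2
      have h2 : (X : ℝ) * (y / X) < X * (1 + ((i + 1 : ℕ) : ℝ) / K) :=
        mul_lt_mul_of_pos_left (by linarith) pX
      rwa [mul_div_cancel₀ _ pX.ne'] at h2
    have hiK : i < K := by
      have h1 : (y / X - 1) * K < K := by
        have : y / X < 2 := by
          rw [div_lt_iff₀ pX]
          linarith [hy.2]
        nlinarith
      have h2 : (i : ℝ) < K := lt_of_le_of_lt hi1 h1
      exact_mod_cast h2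
    have hy2 : y ≤ c i * (1 + 1 / (K : ℝ)) := by
      have h1 : y < c i + X / K := by rw [← cstep]; exact hci2
      have h2 : (X : ℝ) / K ≤ c i / K := div_le_div_of_nonneg_right (cX i) pK.le
      have h3 : c i * (1 + 1 / (K : ℝ)) = c i + c i / K := by ring
      rw [h3]
      linarith
    have h5 := conv_point f N X H H1 x (K : ℝ) (c i) y hK1 hKH hH1 hH2 hN hx.2 hy.1 hy.2 (cpos i)
      hci hy2
    refine h5.trans ?_
    simp only [hQ]
    refine add_le_add ?_ le_rfl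
    have h6 : 2 * ‖Gw f N (Real.log (1 + H / c i)) (Real.log (1 + H1 / c i)) H H1
        (Real.log y)‖ ^ 2 = (Set.Ico (c i) (c (i + 1))).indicator
          (fun y => 2 * g i (Real.log y)) y := by
      rw [Set.indicator_of_mem (show y ∈ Set.Ico (c i) (c (i + 1)) from ⟨hci, hci2⟩)]
    rw [h6]
    exact single_le_sum (f := fun i => (Set.Ico (c i) (c (i + 1))).indicator
      (fun y => 2 * g i (Real.log y)) y) (fun j _ => Set.indicator_nonneg
        (fun y _ => mul_nonneg zero_le_two (hg0 j _)) _) (mem_range.2 hiK)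
  -- integration
  have hx1 : ∀ x ∈ Ico X (2 * X), ‖D f H H1 x‖ ^ 2 ≤ ∫ y in Set.Ico (x : ℝ) (x + 1), Q y := by
    intro x hx
    have h1 : ∫ y in Set.Ico (x : ℝ) (x + 1), ‖D f H H1 x‖ ^ 2 = ‖D f H H1 x‖ ^ 2 := by
      rw [setIntegral_const, smul_eq_mul, Real.volume_real_Ico_of_le (by linarith)]
      ring
    rw [← h1]
    refine setIntegral_mono_on (integrableOn_const (by simp)) hQi.integrableOn measurableSet_Ico ?_
    exact hpt x hx
  have hsum : ∑ x ∈ Ico X (2 * X), ‖D f H H1 x‖ ^ 2 ≤ ∫ y, Q y := by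
    refine (sum_le_sum hx1).trans ?_
    rw [← integral_biUnion_finset _ (fun _ _ => measurableSet_Ico) ?_
      (fun _ _ => hQi.integrableOn)]
    · refine setIntegral_le_integral hQi ?_
      filter_upwards with y
      exact hQ0 y
    · intro a _ b _ hab
      rw [Function.onFun, Set.disjoint_left]
      intro y h1 h2
      rcases lt_or_gt_of_ne hab with h | h
      · have h3 : (a : ℝ) + 1 ≤ b := by exact_mod_cast h
        linarith [h1.2, h2.1]
      · have h3 : (b : ℝ) + 1 ≤ a := by exact_mod_cast h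
        linarith [h1.1, h2.2]
  refine hsum.trans ?_
  have hQint : ∫ y, Q y = (∑ i ∈ range K,
      ∫ y in Set.Ico (c i) (c (i + 1)), 2 * g i (Real.log y)) +
      (8 / ((H : ℝ) * K) * ((H : ℝ) / K * SS f N) +
        8 / ((H1 : ℝ) * K) * ((H1 : ℝ) / K * SS f N)) := by
    have e0 : ∫ y, Q y = (∫ y, ∑ i ∈ range K,
        (Set.Ico (c i) (c (i + 1))).indicator (fun y => 2 * g i (Real.log y)) y) +
        ∫ y, (8 / ((H : ℝ) * K) * convP f N H (H / K) y +
          8 / ((H1 : ℝ) * K) * convP f N H1 (H1 / K) y) :=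
      integral_add (integrable_finsetSum _ hi1) (hi2.add hi3)
    rw [e0, integral_finsetSum _ hi1, integral_add hi2 hi3, integral_const_mul, integral_const_mul,
      hP1.2, hP2.2]
    congr 1
    exact sum_congr rfl fun i _ => integral_indicator measurableSet_Ico
  rw [hQint]
  have hS : 0 ≤ SS f N := sum_nonneg fun _ _ => by positivity
  have h7 : ∑ i ∈ range K, ∫ y in Set.Ico (c i) (c (i + 1)), 2 * g i (Real.log y) ≤
      8 * X * ∑ i ∈ range K, ∫ u, g i u := by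
    rw [mul_sum]
    refine sum_le_sum fun i hi => ?_
    rw [integral_const_mul]
    have h8 := (hs i).2
    have h9 : 0 ≤ ∫ u, g i u := integral_nonneg (hg0 i)
    have h10 := mul_le_mul_of_nonneg_right (cle i hi) h9
    nlinarith [mul_nonneg pX.le h9]
  have h8 : 8 / ((H : ℝ) * K) * ((H : ℝ) / K * SS f N) +
        8 / ((H1 : ℝ) * K) * ((H1 : ℝ) / K * SS f N) = 16 * (SS f N / (K : ℝ) ^ 2) := by
    field_simp
    ring
  have h9 : 0 ≤ SS f N / (K : ℝ) ^ 2 := by positivity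
  have h10 : 100 * SS f N / (K : ℝ) ^ 2 = 100 * (SS f N / (K : ℝ) ^ 2) := by ring
  rw [h8, h10]
  have h11 : ∑ i ∈ range K, ∫ u, g i u = ∑ i ∈ range K,
        ∫ u, ‖Gw f N (Real.log (1 + H / (X * (1 + (i : ℝ) / K))))
          (Real.log (1 + H1 / (X * (1 + (i : ℝ) / K)))) H H1 u‖ ^ 2 := rfl
  rw [← h11]
  linarith

end Pool.Agent.H88.PSI

end

section

/-!
# PSI Lon: long windows, type I

`em_abs`: `∑_{m ≤ x/k} |a m|/H1 ≤ 4 X^(13/24) Q/H1`; edge: `∑_zone |a m|/H1 ≤ Q (H1/k + 1)/H1`; and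
`(∑_zone |a m|/m)^2 ≤ (1 + log 3X) ∑_zone |a m|^2/m`, `zone_sum`, `tau_momd`: `≤ 2 L H1 (20 L)^2 (1+log 3X)^(2^10) ≤ X L^(C - A1)`.
-/

set_option autoImplicit false

namespace Pool.Agent.H88.PSI

open Finset

private theorem Lon_ev (c : ℝ) (n : ℕ) (e : ℝ) (he : 0 < e) :
    ∀ᶠ X : ℕ in Filter.atTop, c * Real.log X ^ n ≤ (X : ℝ) ^ e := by
  have h1 := isLittleO_log_rpow_rpow_atTop (s := e) (n : ℝ) he
  have hc : (0 : ℝ) < 1 / (|c| + 1) := by positivity
  have h2 := (tendsto_natCast_atTop_atTop (R := ℝ)).eventually (h1.bound hc)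
  filter_upwards [h2, Filter.eventually_ge_atTop 1] with X hX hX1
  have hx1 : (1 : ℝ) ≤ X := by exact_mod_cast hX1
  have hl : 0 ≤ Real.log X := Real.log_nonneg hx1
  rw [Real.norm_of_nonneg (show (0 : ℝ) ≤ Real.log X ^ (n : ℝ) from Real.rpow_nonneg hl _),
    Real.norm_of_nonneg (show (0 : ℝ) ≤ (X : ℝ) ^ e by positivity), Real.rpow_natCast] at hX
  have h3 : (|c| + 1) * Real.log X ^ n ≤ (X : ℝ) ^ e := by
    have := mul_le_mul_of_nonneg_left hX (show 0 ≤ |c| + 1 by positivity)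
    calc (|c| + 1) * Real.log X ^ n ≤ (|c| + 1) * (1 / (|c| + 1) * (X : ℝ) ^ e) := this
      _ = (X : ℝ) ^ e := by field_simp
  refine le_trans (mul_le_mul_of_nonneg_right ?_ (by positivity)) h3
  linarith [le_abs_self c]

/-- the divisor bound used -/
private theorem Lon_Q : ∀ᶠ X : ℕ in Filter.atTop, ∀ m : ℕ, m ≤ 3 * X →
    20 * Real.log X * tau m ^ 5 ≤ (X : ℝ) ^ (1 / 1000 : ℝ) := by
  obtain ⟨C, hC, hτ⟩ := tau_eps (1 / 10000) (by norm_num)
  filter_upwards [Lon_ev (1920 * C ^ 5) 1 (1 / 2000) (by norm_num),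
    Filter.eventually_ge_atTop 1] with X hX hX1 m hm
  have hx1 : (1 : ℝ) ≤ X := by exact_mod_cast hX1
  have hx0 : (0 : ℝ) < X := by linarith
  have hl : 0 ≤ Real.log X := Real.log_nonneg hx1
  have hmr : (m : ℝ) ≤ 3 * X := by exact_mod_cast hm
  have h1 : (m : ℝ) ^ (1 / 10000 : ℝ) ≤ (3 * (X : ℝ)) ^ (1 / 10000 : ℝ) :=
    Real.rpow_le_rpow (Nat.cast_nonneg _) hmr (by norm_num)
  have h2 : (1 : ℝ) ≤ (3 * (X : ℝ)) ^ (1 / 10000 : ℝ) :=
    Real.one_le_rpow (by linarith) (by norm_num)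
  have h3 : tau m ≤ 2 * C * (3 * (X : ℝ)) ^ (1 / 10000 : ℝ) := by
    have h4 := hτ m
    have h5 := mul_le_mul_of_nonneg_left h1 (show (0 : ℝ) ≤ C by linarith)
    have h6 := mul_le_mul_of_nonneg_left h2 (show (0 : ℝ) ≤ C by linarith)
    linarith
  have ht0 : 0 ≤ tau m := by unfold tau; positivity
  have h4 : tau m ^ 5 ≤ 96 * C ^ 5 * (X : ℝ) ^ (1 / 2000 : ℝ) := by
    calc tau m ^ 5 ≤ (2 * C * (3 * (X : ℝ)) ^ (1 / 10000 : ℝ)) ^ 5 :=
          pow_le_pow_left₀ ht0 h3 5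
      _ = 32 * C ^ 5 * ((3 : ℝ) ^ (1 / 2000 : ℝ) * (X : ℝ) ^ (1 / 2000 : ℝ)) := by
          rw [mul_pow, ← Real.mul_rpow (by norm_num) hx0.le, ← Real.rpow_natCast
            ((3 * (X : ℝ)) ^ (1 / 10000 : ℝ)), ← Real.rpow_mul (by positivity), mul_pow]
          norm_num
      _ ≤ 32 * C ^ 5 * (3 * (X : ℝ) ^ (1 / 2000 : ℝ)) := by
          refine mul_le_mul_of_nonneg_left (mul_le_mul_of_nonneg_right ?_ (by positivity))
            (by positivity)
          calc (3 : ℝ) ^ (1 / 2000 : ℝ) ≤ (3 : ℝ) ^ (1 : ℝ) :=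
                Real.rpow_le_rpow_of_exponent_le (by norm_num) (by norm_num)
            _ = 3 := Real.rpow_one _
      _ = 96 * C ^ 5 * (X : ℝ) ^ (1 / 2000 : ℝ) := by ring
  rw [pow_one] at hX
  calc 20 * Real.log X * tau m ^ 5 ≤ 20 * Real.log X * (96 * C ^ 5 * (X : ℝ) ^ (1 / 2000 : ℝ)) :=
        mul_le_mul_of_nonneg_left h4 (by positivity)
    _ = (1920 * C ^ 5 * Real.log X) * (X : ℝ) ^ (1 / 2000 : ℝ) := by ring
    _ ≤ (X : ℝ) ^ (1 / 2000 : ℝ) * (X : ℝ) ^ (1 / 2000 : ℝ) :=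
        mul_le_mul_of_nonneg_right hX (by positivity)
    _ = (X : ℝ) ^ (1 / 1000 : ℝ) := by
        rw [← Real.rpow_add hx0]
        norm_num

/-- pointwise bound of the difference -/
private theorem Lon_pt (d u H1 k X x : ℕ) (a : ArithmeticFunction ℝ) (Q : ℝ) (hd : 1 ≤ d)
    (hu : Nat.Coprime u d) (hk : 1 ≤ k) (hH1 : 1 ≤ H1) (hHX : H1 ≤ X) (hx : x ∈ Ico X (2 * X))
    (hQ : ∀ m ≤ 3 * X, |a m| ≤ Q) :
    ‖W (cl d u (hi 0 k * a)) H1 x / H1 - ((Bk a d k x : ℝ) : ℂ)‖ ≤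
      ∑ m ∈ Ioc (x / k) ((x + H1) / k), |a m| / m +
        (Q / k + Q / H1 + 2 * X / k * Q / H1) := by
  rw [mem_Ico] at hx
  have hH0 : (0 : ℝ) < H1 := by exact_mod_cast hH1
  have hk0 : (0 : ℝ) < k := by exact_mod_cast hk
  have hQ0 : 0 ≤ Q := (abs_nonneg _).trans (hQ 0 (Nat.zero_le _))
  have hxX : x ≤ 2 * X := hx.2.le
  set S : ℝ := ∑ m ∈ (Icc 1 (x / k)).filter (fun m => Nat.Coprime m d), a m * cnt d u H1 m x
    with hS
  set S' : ℝ := ∑ m ∈ (Icc 1 (x / k)).filter (fun m => Nat.Coprime m d), a m * em d u H1 m x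
    with hS'
  have e1 := ti_edge a d u H1 k x hd hk hu
  have e2 := bk_eq a d u H1 k x hH1
  rw [← hS, ← hS'] at e2
  rw [← hS] at e1
  have e3 : W (cl d u (hi 0 k * a)) H1 x / H1 - ((Bk a d k x : ℝ) : ℂ) =
      (W (cl d u (hi 0 k * a)) H1 x - ((S : ℝ) : ℂ)) / H1 + ((S' / H1 : ℝ) : ℂ) := by
    rw [← e2]
    push_cast
    ring
  rw [e3]
  refine (norm_add_le _ _).trans ?_
  have n1 : ‖(W (cl d u (hi 0 k * a)) H1 x - ((S : ℝ) : ℂ)) / H1‖ ≤
      ∑ m ∈ Ioc (x / k) ((x + H1) / k), |a m| / m + (Q / k + Q / H1) := by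
    rw [norm_div, Complex.norm_natCast, div_le_iff₀ hH0]
    refine e1.trans ?_
    have z1 : ∑ m ∈ Ioc (x / k) ((x + H1) / k), |a m| * ((H1 : ℝ) / m + 1) =
        (∑ m ∈ Ioc (x / k) ((x + H1) / k), |a m| / m) * H1 +
          ∑ m ∈ Ioc (x / k) ((x + H1) / k), |a m| := by
      rw [sum_mul, ← sum_add_distrib]
      exact sum_congr rfl fun m _ => by ring
    have z2 : ∑ m ∈ Ioc (x / k) ((x + H1) / k), |a m| ≤ ((H1 : ℝ) / k + 1) * Q := by
      have c1 : ∑ m ∈ Ioc (x / k) ((x + H1) / k), |a m| ≤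
          ∑ m ∈ Ioc (x / k) ((x + H1) / k), Q := by
        refine sum_le_sum fun m hm => hQ m ?_
        rw [mem_Ioc] at hm
        have := hm.2.trans (Nat.div_le_self _ _)
        omega
      rw [sum_const, nsmul_eq_mul, Nat.card_Ioc] at c1
      refine c1.trans (mul_le_mul_of_nonneg_right ?_ hQ0)
      have c2 : (x + H1) / k - x / k ≤ H1 / k + 1 := by
        have := Nat.add_div (a := x) (b := H1) (c := k) (by omega)
        rw [this]
        generalize x / k = q1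
        generalize H1 / k = q2
        split_ifs <;> omega
      have c3 : (((x + H1) / k - x / k : ℕ) : ℝ) ≤ ((H1 / k + 1 : ℕ) : ℝ) := by exact_mod_cast c2
      refine c3.trans ?_
      push_cast
      have := Nat.cast_div_le (α := ℝ) (m := H1) (n := k)
      linarith
    rw [z1]
    have z3 : ((∑ m ∈ Ioc (x / k) ((x + H1) / k), |a m| / m) + (Q / k + Q / H1)) * H1 =
        (∑ m ∈ Ioc (x / k) ((x + H1) / k), |a m| / m) * H1 + ((H1 : ℝ) / k + 1) * Q := by
      field_simp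
    rw [z3]
    linarith
  have n2 : ‖((S' / H1 : ℝ) : ℂ)‖ ≤ 2 * X / k * Q / H1 := by
    rw [Complex.norm_real, norm_div, Real.norm_eq_abs, Real.norm_of_nonneg hH0.le]
    refine div_le_div_of_nonneg_right ?_ hH0.le
    rw [hS']
    refine (abs_sum_le_sum_abs _ _).trans ?_
    have c1 : ∑ m ∈ (Icc 1 (x / k)).filter (fun m => Nat.Coprime m d), |a m * em d u H1 m x| ≤
        ∑ m ∈ (Icc 1 (x / k)).filter (fun m => Nat.Coprime m d), Q := by
      refine sum_le_sum fun m hm => ?_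
      rw [mem_filter, mem_Icc] at hm
      rw [abs_mul]
      have hmX : m ≤ 3 * X := by
        have := hm.1.2.trans (Nat.div_le_self _ _)
        omega
      calc |a m| * |em d u H1 m x| ≤ Q * 1 :=
            mul_le_mul (hQ m hmX) (em_abs d u H1 m x hd hm.1.1 hm.2) (abs_nonneg _) hQ0
        _ = Q := mul_one _
    refine c1.trans ?_
    rw [sum_const, nsmul_eq_mul]
    refine mul_le_mul_of_nonneg_right ?_ hQ0
    have c2 : ((Icc 1 (x / k)).filter (fun m => Nat.Coprime m d)).card ≤ x / k := by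
      refine (card_filter_le _ _).trans ?_
      rw [Nat.card_Icc]
      exact (Nat.add_sub_cancel (x / k) 1).le
    have c3 : (((Icc 1 (x / k)).filter (fun m => Nat.Coprime m d)).card : ℝ) ≤ ((x / k : ℕ) : ℝ) := by
      exact_mod_cast c2
    refine c3.trans (Nat.cast_div_le.trans ?_)
    refine div_le_div_of_nonneg_right ?_ hk0.le
    exact_mod_cast hxX
  linarith

theorem ti_long (A B : ℕ) : ∃ A0 : ℕ, ∀ A1 : ℕ, A0 ≤ A1 → ∃ X0 : ℕ, ∀ X : ℕ, X0 ≤ X →
    ∀ (d u H1 k : ℕ) (a : ArithmeticFunction ℝ), 1 ≤ d → (d : ℝ) ≤ Real.log X ^ B → Nat.Coprime u d →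
    H1 = ⌊X / Real.log X ^ A1⌋₊ →
    (X : ℝ) ^ (11 / 24 : ℝ) / 2 ≤ k → (∀ m, |a m| ≤ 20 * Real.log X * tau m ^ 5) →
    ∑ x ∈ Ico X (2 * X), ‖W (cl d u (hi 0 k * a)) H1 x / H1 - ((Bk a d k x : ℝ) : ℂ)‖ ^ 2
      ≤ X / Real.log X ^ A := by
  refine ⟨A + (2 ^ 10 + 4), fun A1 hA1 => ?_⟩
  rw [← Filter.eventually_atTop]
  have htm : ∀ n : ℕ, ∑ m ∈ Icc 1 n, tau m ^ 10 / m ≤ (1 + Real.log n) ^ (2 ^ 10) :=
    fun n => tau_momd 10 n
  generalize (2 ^ 10 : ℕ) = N at htm hA1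
  obtain ⟨K3, hK3, hK30⟩ : ∃ K3 : ℝ, (∀ t : ℝ, (3 * t) ^ (N + 1) = K3 * t ^ (N + 1)) ∧ 0 < K3 :=
    ⟨3 ^ (N + 1), fun t => mul_pow 3 t (N + 1), by positivity⟩
  have hL : ∀ c : ℝ, ∀ᶠ X : ℕ in Filter.atTop, c ≤ Real.log X := fun c =>
    (Real.tendsto_log_atTop.comp (tendsto_natCast_atTop_atTop (R := ℝ))).eventually_ge_atTop c
  filter_upwards [Lon_Q, hL (1600 * K3 + 2), Lon_ev 2 A1 1 one_pos,
    Lon_ev 12 A1 (1 / 10) (by norm_num), Lon_ev 4 A (1 / 2) (by norm_num),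
    Filter.eventually_ge_atTop 1] with X hQ hL1 hX1 hX2 hX3 hXge d u H1 k a hd hdB hu hH1 hk ha
  have hx1 : (1 : ℝ) ≤ X := by exact_mod_cast hXge
  have hx0 : (0 : ℝ) < X := by linarith
  set L : ℝ := Real.log X with hLdef
  have hL2 : 2 ≤ L := by linarith
  have hL0 : 0 < L := by linarith
  set Q : ℝ := (X : ℝ) ^ (1 / 1000 : ℝ) with hQdef
  have hQ0 : 0 < Q := by positivity
  have haQ : ∀ m ≤ 3 * X, |a m| ≤ Q := fun m hm => (ha m).trans (hQ m hm)
  -- `H1`
  have hLA : 1 ≤ L ^ A1 := one_le_pow₀ (by linarith)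
  rw [Real.rpow_one] at hX1
  have hq2 : 2 ≤ X / L ^ A1 := by
    rw [le_div_iff₀ (by positivity)]
    exact hX1
  have hH1le : (H1 : ℝ) ≤ X / L ^ A1 := by
    rw [hH1]
    exact Nat.floor_le (by positivity)
  have hH1ge : X / (2 * L ^ A1) ≤ (H1 : ℝ) := by
    have h1 : X / L ^ A1 < (H1 : ℝ) + 1 := by
      rw [hH1]
      exact Nat.lt_floor_add_one _
    have h2 : X / (2 * L ^ A1) = (X / L ^ A1) / 2 := by ring
    rw [h2]
    linarith
  have hH1pos : (0 : ℝ) < H1 := lt_of_lt_of_le (by positivity) hH1ge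
  have hH1one : 1 ≤ H1 := by
    have : 0 < H1 := by exact_mod_cast hH1pos
    omega
  have hHX : H1 ≤ X := by
    have : (H1 : ℝ) ≤ X := hH1le.trans (div_le_self hx0.le hLA)
    exact_mod_cast this
  have hkpos : (0 : ℝ) < k := lt_of_lt_of_le (by positivity) hk
  have hkone : 1 ≤ k := by
    have : 0 < k := by exact_mod_cast hkpos
    omega
  -- the constant part
  set R : ℝ := Q / k + Q / H1 + 2 * X / k * Q / H1 with hR
  have hR0 : 0 ≤ R := by positivity
  have hRle : R ≤ (X : ℝ) ^ (-(1 / 4) : ℝ) := by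
    have k1 : 1 / (k : ℝ) ≤ 2 * (X : ℝ) ^ (-(11 / 24) : ℝ) := by
      rw [div_le_iff₀ hkpos, Real.rpow_neg hx0.le]
      have hp : (0 : ℝ) < (X : ℝ) ^ (11 / 24 : ℝ) := by positivity
      calc (1 : ℝ) = 2 * ((X : ℝ) ^ (11 / 24 : ℝ))⁻¹ * ((X : ℝ) ^ (11 / 24 : ℝ) / 2) := by
            field_simp
        _ ≤ _ := mul_le_mul_of_nonneg_left hk (by positivity)
    have k2 : 1 / (H1 : ℝ) ≤ 2 * L ^ A1 / X := by
      rw [div_le_div_iff₀ hH1pos hx0]
      rw [div_le_iff₀ (by positivity)] at hH1ge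
      linarith
    have s1 : Q / k ≤ 2 * ((X : ℝ) ^ (-(11 / 24) : ℝ) * Q) := by
      have := mul_le_mul_of_nonneg_left k1 hQ0.le
      calc Q / k = Q * (1 / k) := by ring
        _ ≤ _ := this
        _ = _ := by ring
    have s2 : Q / H1 ≤ 2 * L ^ A1 * ((X : ℝ) ^ (-1 : ℝ) * Q) := by
      have := mul_le_mul_of_nonneg_left k2 hQ0.le
      calc Q / H1 = Q * (1 / H1) := by ring
        _ ≤ _ := this
        _ = _ := by rw [Real.rpow_neg_one]; ring
    have s3 : 2 * X / k * Q / H1 ≤ 8 * L ^ A1 * ((X : ℝ) ^ (-(11 / 24) : ℝ) * Q) := by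
      calc 2 * X / k * Q / H1 = 2 * X * Q * ((1 / k) * (1 / H1)) := by ring
        _ ≤ 2 * X * Q * ((2 * (X : ℝ) ^ (-(11 / 24) : ℝ)) * (2 * L ^ A1 / X)) :=
            mul_le_mul_of_nonneg_left (mul_le_mul k1 k2 (by positivity) (by positivity))
              (by positivity)
        _ = _ := by field_simp; ring
    have t1 : (X : ℝ) ^ (-1 : ℝ) * Q ≤ (X : ℝ) ^ (-(11 / 24) : ℝ) * Q :=
      mul_le_mul_of_nonneg_right (Real.rpow_le_rpow_of_exponent_le hx1 (by norm_num)) hQ0.le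
    have t2 : (X : ℝ) ^ (-(11 / 24) : ℝ) * Q ≤ (X : ℝ) ^ (-(7 / 20) : ℝ) := by
      rw [hQdef, ← Real.rpow_add hx0]
      exact Real.rpow_le_rpow_of_exponent_le hx1 (by norm_num)
    have t3 : R ≤ 12 * L ^ A1 * (X : ℝ) ^ (-(7 / 20) : ℝ) := by
      have u0 : 0 ≤ (X : ℝ) ^ (-(11 / 24) : ℝ) * Q := by positivity
      have u1 : 2 * ((X : ℝ) ^ (-(11 / 24) : ℝ) * Q) ≤
          2 * L ^ A1 * ((X : ℝ) ^ (-(11 / 24) : ℝ) * Q) := by
        nlinarith [mul_le_mul_of_nonneg_right hLA u0]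
      have u2 : 2 * L ^ A1 * ((X : ℝ) ^ (-1 : ℝ) * Q) ≤
          2 * L ^ A1 * ((X : ℝ) ^ (-(11 / 24) : ℝ) * Q) :=
        mul_le_mul_of_nonneg_left t1 (by positivity)
      have u3 : 12 * L ^ A1 * ((X : ℝ) ^ (-(11 / 24) : ℝ) * Q) ≤
          12 * L ^ A1 * (X : ℝ) ^ (-(7 / 20) : ℝ) :=
        mul_le_mul_of_nonneg_left t2 (by positivity)
      rw [hR]
      linarith
    refine t3.trans ?_
    calc 12 * L ^ A1 * (X : ℝ) ^ (-(7 / 20) : ℝ) ≤
        (X : ℝ) ^ (1 / 10 : ℝ) * (X : ℝ) ^ (-(7 / 20) : ℝ) :=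
          mul_le_mul_of_nonneg_right hX2 (by positivity)
      _ = (X : ℝ) ^ (-(1 / 4) : ℝ) := by
          rw [← Real.rpow_add hx0]
          norm_num
  -- the zone part
  set T : ℕ → ℝ := fun x => ∑ m ∈ Ioc (x / k) ((x + H1) / k), |a m| / m with hT
  have hT0 : ∀ x, 0 ≤ T x := fun x => sum_nonneg fun m _ => by positivity
  set ℓ : ℝ := 1 + Real.log ((3 * X : ℕ) : ℝ) with hℓ
  have hℓ1 : ℓ ≤ 3 * L := by
    rw [hℓ]
    push_cast
    rw [Real.log_mul (by norm_num) hx0.ne']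
    have : Real.log 3 ≤ 2 := by
      have := Real.log_le_sub_one_of_pos (show (0 : ℝ) < 3 by norm_num)
      linarith
    linarith
  have hℓ0 : 0 ≤ ℓ := by
    have : 0 ≤ Real.log ((3 * X : ℕ) : ℝ) := Real.log_natCast_nonneg _
    linarith
  have hTsq : ∀ x ∈ Ico X (2 * X), T x ^ 2 ≤
      ℓ * ∑ m ∈ Ioc (x / k) ((x + H1) / k), |a m| ^ 2 / m := by
    intro x hx
    rw [mem_Ico] at hx
    have c1 : T x ^ 2 ≤ (∑ m ∈ Ioc (x / k) ((x + H1) / k), 1 / (m : ℝ)) *
        ∑ m ∈ Ioc (x / k) ((x + H1) / k), |a m| ^ 2 / m := by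
      refine sum_sq_le_sum_mul_sum_of_sq_le_mul _ (fun m _ => by positivity)
        (fun m _ => by positivity) (fun m _ => ?_)
      rw [div_pow, div_mul_div_comm, one_mul, ← pow_two]
    refine c1.trans (mul_le_mul_of_nonneg_right ?_ (sum_nonneg fun m _ => by positivity))
    have c2 := tau_momd 0 (3 * X)
    simp only [pow_zero, pow_one] at c2
    refine le_trans (sum_le_sum_of_subset_of_nonneg ?_ fun m _ _ => by positivity) c2
    intro m hm
    rw [mem_Ioc] at hm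
    rw [mem_Icc]
    have := hm.2.trans (Nat.div_le_self _ _)
    exact ⟨lt_of_le_of_lt (Nat.zero_le _) hm.1, by omega⟩
  have hTsum : ∑ x ∈ Ico X (2 * X), T x ^ 2 ≤ ℓ * (H1 * (400 * L ^ 2 * ℓ ^ N)) := by
    refine (sum_le_sum hTsq).trans ?_
    rw [← mul_sum]
    refine mul_le_mul_of_nonneg_left ?_ hℓ0
    refine (zone_sum X H1 k hkone hXge hHX (fun m => |a m| ^ 2 / m)
      (fun m => by positivity)).trans ?_
    refine mul_le_mul_of_nonneg_left ?_ (Nat.cast_nonneg _)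
    calc ∑ m ∈ Icc 1 (3 * X), |a m| ^ 2 / (m : ℝ) ≤
        ∑ m ∈ Icc 1 (3 * X), 400 * L ^ 2 * (tau m ^ 10 / m) := by
          refine sum_le_sum fun m _ => ?_
          rw [mul_div_assoc']
          refine div_le_div_of_nonneg_right ?_ (Nat.cast_nonneg _)
          calc |a m| ^ 2 ≤ (20 * L * tau m ^ 5) ^ 2 :=
                pow_le_pow_left₀ (abs_nonneg _) (ha m) 2
            _ = 400 * L ^ 2 * tau m ^ 10 := by ring
      _ = 400 * L ^ 2 * ∑ m ∈ Icc 1 (3 * X), tau m ^ 10 / m := by rw [mul_sum]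
      _ ≤ 400 * L ^ 2 * ℓ ^ N := by
          refine mul_le_mul_of_nonneg_left ?_ (by positivity)
          exact htm (3 * X)
  have hTfin : 2 * ∑ x ∈ Ico X (2 * X), T x ^ 2 ≤ X / L ^ A / 2 := by
    have c1 : ℓ * (H1 * (400 * L ^ 2 * ℓ ^ N)) ≤ X / L ^ A1 * (400 * K3 * L ^ (N + 3)) := by
      calc ℓ * (H1 * (400 * L ^ 2 * ℓ ^ N)) = H1 * (400 * L ^ 2 * ℓ ^ (N + 1)) := by ring
        _ ≤ X / L ^ A1 * (400 * L ^ 2 * (3 * L) ^ (N + 1)) := by
            refine mul_le_mul hH1le ?_ (by positivity) (by positivity)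
            exact mul_le_mul_of_nonneg_left (pow_le_pow_left₀ hℓ0 hℓ1 _) (by positivity)
        _ = X / L ^ A1 * (400 * K3 * L ^ (N + 3)) := by
            rw [hK3]
            ring
    have c2 : L ^ (A + (N + 4)) ≤ L ^ A1 := pow_le_pow_right₀ (by linarith) hA1
    have c3 : X / L ^ A1 * (400 * K3 * L ^ (N + 3)) ≤ X / L ^ A / 4 := by
      calc X / L ^ A1 * (400 * K3 * L ^ (N + 3)) ≤
          X / L ^ (A + (N + 4)) * (400 * K3 * L ^ (N + 3)) :=
            mul_le_mul_of_nonneg_right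
              (div_le_div_of_nonneg_left hx0.le (by positivity) c2) (by positivity)
        _ = X / L ^ A * ((400 * K3) / L) := by
            rw [pow_add, show N + 4 = (N + 3) + 1 from rfl, pow_succ L (N + 3)]
            field_simp
        _ ≤ X / L ^ A * (1 / 4) := by
            refine mul_le_mul_of_nonneg_left ?_ (by positivity)
            rw [div_le_div_iff₀ hL0 (by norm_num)]
            linarith
        _ = X / L ^ A / 4 := by ring
    have := hTsum.trans (c1.trans c3)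
    linarith
  have hRfin : 2 * (X * R ^ 2) ≤ X / L ^ A / 2 := by
    have c1 : R ^ 2 ≤ (X : ℝ) ^ (-(1 / 2) : ℝ) := by
      calc R ^ 2 ≤ ((X : ℝ) ^ (-(1 / 4) : ℝ)) ^ 2 := pow_le_pow_left₀ hR0 hRle 2
        _ = (X : ℝ) ^ (-(1 / 2) : ℝ) := by
            rw [← Real.rpow_natCast, ← Real.rpow_mul hx0.le]
            norm_num
    have c2 : (X : ℝ) ^ (-(1 / 2) : ℝ) ≤ 1 / (4 * L ^ A) := by
      rw [Real.rpow_neg hx0.le, inv_eq_one_div]
      exact one_div_le_one_div_of_le (by positivity) hX3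
    calc 2 * (X * R ^ 2) ≤ 2 * (X * (1 / (4 * L ^ A))) := by
          have := mul_le_mul_of_nonneg_left (c1.trans c2) hx0.le
          linarith
      _ = X / L ^ A / 2 := by field_simp; ring
  -- assembly
  calc ∑ x ∈ Ico X (2 * X), ‖W (cl d u (hi 0 k * a)) H1 x / H1 - ((Bk a d k x : ℝ) : ℂ)‖ ^ 2 ≤
      ∑ x ∈ Ico X (2 * X), (2 * T x ^ 2 + 2 * R ^ 2) := by
        refine sum_le_sum fun x hx => ?_
        have h1 := Lon_pt d u H1 k X x a Q hd hu hkone hH1one hHX hx haQ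
        have h2 : ‖W (cl d u (hi 0 k * a)) H1 x / H1 - ((Bk a d k x : ℝ) : ℂ)‖ ^ 2 ≤
            (T x + R) ^ 2 := pow_le_pow_left₀ (norm_nonneg _) h1 2
        nlinarith [sq_nonneg (T x - R)]
    _ = 2 * ∑ x ∈ Ico X (2 * X), T x ^ 2 + 2 * (X * R ^ 2) := by
        rw [sum_add_distrib, ← mul_sum, sum_const, nsmul_eq_mul, Nat.card_Ico]
        have : 2 * X - X = X := by omega
        rw [this]
        ring
    _ ≤ X / L ^ A := by linarith

end Pool.Agent.H88.PSI

end
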