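import Pool.Agent.H43.PM.M37

/-! The parts of this file: H88.PSI.Ems, H88.PSI.Tls, H88.PSI.Tmax, H88.PSI.Sho. -/

section

/-!
# PSI Ems: finite Fourier expansion of the error terms `em`, grouped by reduced fractions

`[m ∣ n] = (1/m) ∑_{a<m} ee(n a/m)`, `[n ≡ u (d)] = (1/d) ∑_{b<d} ee(b(n-u)/d)`; the term `a = b = 0` is `H/(m d)`;
`∑_{x<n≤x+H} ee(nθ) = ee(xθ) dk H θ`.  Then `a/m = c/q` reduced (`q = m/(a,m)`, `c ∈ [1, q]`, `(c, q) = 1`; `a = 0` is `q = 1, c = 1`; all functions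
have period 1).
-/

set_option autoImplicit false

namespace Pool.Agent.H88.PSI

open Finset
open Pool.Agent.H91.PK (ee)

private theorem ems_int (k : ℤ) : ee (k : ℝ) = 1 := by
  unfold ee
  rw [Complex.exp_eq_one_iff]
  exact ⟨k, by push_cast; ring⟩

private theorem ems_nat (k : ℕ) : ee (k : ℝ) = 1 := by
  have := ems_int (k : ℤ)
  simpa using this

private theorem ems_eq_one {t : ℝ} (h : ee t = 1) : ∃ k : ℤ, t = k := by
  unfold ee at h
  rw [Complex.exp_eq_one_iff] at h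
  obtain ⟨k, hk⟩ := h
  refine ⟨k, ?_⟩
  have h1 : ((2 * Real.pi * t : ℝ) : ℂ) * Complex.I = ((2 * Real.pi * k : ℝ) : ℂ) * Complex.I := by
    push_cast
    rw [hk]
    ring
  have h2 := mul_right_cancel₀ Complex.I_ne_zero h1
  have h3 : 2 * Real.pi * t = 2 * Real.pi * k := by exact_mod_cast h2
  exact mul_left_cancel₀ (by positivity) h3

private theorem ems_pow (t : ℝ) (n : ℕ) : ee t ^ n = ee (n * t) := by
  unfold ee
  rw [← Complex.exp_nat_mul]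
  congr 1
  push_cast
  ring

private theorem ems_ortho (d : ℕ) (hd : 1 ≤ d) (k : ℤ) :
    ∑ b ∈ range d, ee ((b : ℝ) * k / d) = if (d : ℤ) ∣ k then (d : ℂ) else 0 := by
  have hd0 : (d : ℝ) ≠ 0 := by
    have : d ≠ 0 := by omega
    exact_mod_cast this
  have h1 : ∀ b ∈ range d, ee ((b : ℝ) * k / d) = ee ((k : ℝ) / d) ^ b := by
    intro b _
    rw [ems_pow]
    congr 1
    ring
  rw [sum_congr rfl h1]
  split_ifs with h
  · obtain ⟨j, rfl⟩ := h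
    have h2 : ee (((d : ℤ) * j : ℤ) / (d : ℝ)) = 1 := by
      have h3 : (((d : ℤ) * j : ℤ) : ℝ) / (d : ℝ) = (j : ℝ) := by
        push_cast
        field_simp
      rw [h3, ems_int]
    rw [h2]
    simp
  · have h2 : ee ((k : ℝ) / d) ≠ 1 := by
      intro h3
      obtain ⟨j, hj⟩ := ems_eq_one h3
      apply h
      refine ⟨j, ?_⟩
      rw [div_eq_iff hd0] at hj
      have h4 : (k : ℝ) = ((d : ℤ) * j : ℤ) := by
        push_cast
        rw [hj]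
        ring
      exact_mod_cast h4
    have h3 : ee ((k : ℝ) / d) ^ d = 1 := by
      rw [ems_pow]
      have h4 : (d : ℝ) * ((k : ℝ) / d) = k := by field_simp
      rw [h4, ems_int]
    rw [geom_sum_eq h2, h3, sub_self, zero_div]

private theorem ems_Icc (m : ℕ) (hm : 1 ≤ m) (n : ℕ) :
    ∑ a ∈ Icc 1 m, ee ((n : ℝ) * ((a : ℝ) / m)) = if m ∣ n then (m : ℂ) else 0 := by
  have hm0 : (m : ℝ) ≠ 0 := by
    have : m ≠ 0 := by omega
    exact_mod_cast this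
  have h1 : ∑ a ∈ Icc 1 m, ee ((n : ℝ) * ((a : ℝ) / m)) =
      ∑ a ∈ range m, ee ((a : ℝ) * ((n : ℤ) : ℝ) / m) := by
    have h2 : ∑ a ∈ range (m + 1), ee ((n : ℝ) * ((a : ℝ) / m)) =
        ∑ a ∈ Icc 1 m, ee ((n : ℝ) * ((a : ℝ) / m)) + ee ((n : ℝ) * (((0 : ℕ) : ℝ) / m)) := by
      rw [sum_range_succ', Finset.range_eq_Ico, Finset.sum_Ico_add' (fun a : ℕ =>
        ee ((n : ℝ) * ((a : ℝ) / m))) 0 m 1]
      congr 1
    rw [sum_range_succ] at h2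
    have h3 : ee ((n : ℝ) * (((0 : ℕ) : ℝ) / m)) = 1 := by
      have : (n : ℝ) * (((0 : ℕ) : ℝ) / m) = ((0 : ℤ) : ℝ) := by simp
      rw [this, ems_int]
    have h4 : ee ((n : ℝ) * ((m : ℝ) / m)) = 1 := by
      rw [div_self hm0, mul_one, ems_nat]
    rw [h3, h4] at h2
    have h5 := add_right_cancel h2
    rw [← h5]
    refine sum_congr rfl fun a _ => ?_
    congr 1
    push_cast
    ring
  rw [h1, ems_ortho m hm]
  simp only [Int.natCast_dvd_natCast]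

private theorem ems_group (m : ℕ) (hm : 1 ≤ m) (G : ℕ → ℕ → ℂ) :
    ∑ a ∈ Icc 1 m, G (m / Nat.gcd a m) (a / Nat.gcd a m) =
      ∑ q ∈ m.divisors, ∑ c ∈ (Icc 1 q).filter (fun c => Nat.Coprime c q), G q c := by
  rw [sum_sigma']
  refine sum_nbij' (fun a => (⟨m / Nat.gcd a m, a / Nat.gcd a m⟩ : Σ _ : ℕ, ℕ))
    (fun p => p.2 * (m / p.1)) ?_ ?_ ?_ ?_ ?_
  · intro a ha
    rw [mem_Icc] at ha
    rw [mem_sigma, Nat.mem_divisors, mem_filter, mem_Icc]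
    have hg : 0 < Nat.gcd a m := Nat.gcd_pos_of_pos_left _ ha.1
    refine ⟨⟨Nat.div_dvd_of_dvd (Nat.gcd_dvd_right a m), by omega⟩, ⟨?_, ?_⟩, ?_⟩
    · exact Nat.div_pos (Nat.le_of_dvd ha.1 (Nat.gcd_dvd_left a m)) hg
    · exact Nat.div_le_div_right ha.2
    · exact Nat.coprime_div_gcd_div_gcd hg
  · rintro ⟨q, c⟩ h
    rw [mem_sigma, Nat.mem_divisors, mem_filter, mem_Icc] at h
    obtain ⟨⟨h1, -⟩, ⟨h2, h3⟩, -⟩ := h
    dsimp only at h1 h2 h3 ⊢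
    rw [mem_Icc]
    have hq : 0 < q := by omega
    have hmq : 0 < m / q := Nat.div_pos (Nat.le_of_dvd hm h1) hq
    refine ⟨Nat.mul_pos h2 hmq, ?_⟩
    calc c * (m / q) ≤ q * (m / q) := Nat.mul_le_mul_right _ h3
      _ = m := Nat.mul_div_cancel' h1
  · intro a ha
    rw [mem_Icc] at ha
    have hg : 0 < Nat.gcd a m := Nat.gcd_pos_of_pos_left _ ha.1
    dsimp only
    rw [Nat.div_div_self (Nat.gcd_dvd_right a m) (by omega)]
    exact Nat.div_mul_cancel (Nat.gcd_dvd_left a m)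
  · rintro ⟨q, c⟩ h
    rw [mem_sigma, Nat.mem_divisors, mem_filter, mem_Icc] at h
    obtain ⟨⟨h1, -⟩, ⟨h2, h3⟩, h4⟩ := h
    dsimp only at h1 h2 h3 h4 ⊢
    have hq : 0 < q := by omega
    have hmq : 0 < m / q := Nat.div_pos (Nat.le_of_dvd hm h1) hq
    have hgcd : Nat.gcd (c * (m / q)) m = m / q := by
      conv_lhs => rw [← Nat.mul_div_cancel' h1]
      rw [Nat.mul_div_cancel_left (m / q) hq, Nat.gcd_mul_right, h4, one_mul]
    rw [hgcd, Nat.div_div_self h1 (by omega), Nat.mul_div_cancel _ hmq]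
  · intro a _
    rfl

private theorem ems_dk (H x : ℕ) (θ : ℝ) :
    ∑ n ∈ Ioc x (x + H), ee ((n : ℝ) * θ) = ee ((x : ℝ) * θ) * dk H θ := by
  unfold dk
  rw [mul_sum]
  have h1 : Ioc x (x + H) = (Icc 1 H).image (fun j => x + j) := by
    ext n
    rw [mem_Ioc, mem_image]
    constructor
    · rintro ⟨h1, h2⟩
      exact ⟨n - x, mem_Icc.2 ⟨by omega, by omega⟩, by omega⟩
    · rintro ⟨j, hj, rfl⟩
      rw [mem_Icc] at hj
      omega
  rw [h1, sum_image (fun a _ b _ h => Nat.add_left_cancel h)]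
  refine sum_congr rfl fun j _ => ?_
  rw [← Pool.Agent.H91.PK.LSa_ee_add]
  congr 1
  push_cast
  ring

private theorem ems_cong (d : ℕ) (n u : ℕ) : ((d : ℤ) ∣ (n : ℤ) - u) ↔ n % d = u % d := by
  constructor
  · intro h
    have h1 : u ≡ n [MOD d] := (Nat.modEq_iff_dvd).2 h
    exact h1.symm
  · intro h
    exact (Nat.modEq_iff_dvd).1 (show u ≡ n [MOD d] from h.symm)

private theorem ems_one (d u H m x : ℕ) (hd : 1 ≤ d) (hm : 1 ≤ m) :
    ((em d u H m x : ℝ) : ℂ) * m = 1 / (d : ℂ) * ∑ b ∈ range d, ee (-((b : ℝ) * u / d)) *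
      (ee ((x : ℝ) * b / d) * ∑ q ∈ m.divisors, ∑ c ∈ (Icc 1 q).filter (fun c => Nat.Coprime c q),
        (if q = 1 ∧ b = 0 then 0 else dk H ((c : ℝ) / q + (b : ℝ) / d)) *
          ee ((x : ℝ) * c / q)) := by
  have hd0 : (d : ℂ) ≠ 0 := by
    have : d ≠ 0 := by omega
    exact_mod_cast this
  have hdr : (d : ℝ) ≠ 0 := by
    have : d ≠ 0 := by omega
    exact_mod_cast this
  have hm0 : (m : ℂ) ≠ 0 := by
    have : m ≠ 0 := by omega
    exact_mod_cast this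
  set E : ℝ → ℂ := fun θ => ∑ n ∈ Ioc x (x + H), ee ((n : ℝ) * θ) with hE
  -- the inner double sum
  have h1 : ∀ b ∈ range d, ee ((x : ℝ) * b / d) * ∑ q ∈ m.divisors,
      ∑ c ∈ (Icc 1 q).filter (fun c => Nat.Coprime c q),
        (if q = 1 ∧ b = 0 then 0 else dk H ((c : ℝ) / q + (b : ℝ) / d)) * ee ((x : ℝ) * c / q) =
      (∑ a ∈ Icc 1 m, E ((a : ℝ) / m + (b : ℝ) / d)) - if b = 0 then (H : ℂ) else 0 := by
    intro b _
    have h2 : ∑ a ∈ Icc 1 m, E ((a : ℝ) / m + (b : ℝ) / d) =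
        ∑ q ∈ m.divisors, ∑ c ∈ (Icc 1 q).filter (fun c => Nat.Coprime c q),
          E ((c : ℝ) / q + (b : ℝ) / d) := by
      rw [← ems_group m hm fun q c => E ((c : ℝ) / q + (b : ℝ) / d)]
      refine sum_congr rfl fun a ha => ?_
      rw [mem_Icc] at ha
      have hg : 0 < Nat.gcd a m := Nat.gcd_pos_of_pos_left _ ha.1
      have hg0 : ((Nat.gcd a m : ℕ) : ℝ) ≠ 0 := by exact_mod_cast hg.ne'
      have e1 : (a : ℝ) / m = ((a / Nat.gcd a m : ℕ) : ℝ) / ((m / Nat.gcd a m : ℕ) : ℝ) := by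
        rw [Nat.cast_div (Nat.gcd_dvd_left a m) hg0, Nat.cast_div (Nat.gcd_dvd_right a m) hg0]
        field_simp
      rw [e1]
    have h3 : ∀ q ∈ m.divisors, ∀ c ∈ (Icc 1 q).filter (fun c => Nat.Coprime c q),
        ee ((x : ℝ) * b / d) * ((if q = 1 ∧ b = 0 then 0 else
          dk H ((c : ℝ) / q + (b : ℝ) / d)) * ee ((x : ℝ) * c / q)) =
        E ((c : ℝ) / q + (b : ℝ) / d) - if q = 1 ∧ b = 0 then (H : ℂ) else 0 := by
      intro q _ c hc
      rw [mem_filter, mem_Icc] at hc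
      have h4 : E ((c : ℝ) / q + (b : ℝ) / d) = ee ((x : ℝ) * ((c : ℝ) / q + (b : ℝ) / d)) *
          dk H ((c : ℝ) / q + (b : ℝ) / d) := ems_dk H x _
      split_ifs with h5
      · obtain ⟨rfl, rfl⟩ := h5
        have hc1 : c = 1 := by omega
        subst hc1
        have h6 : E ((((1 : ℕ) : ℝ)) / ((1 : ℕ) : ℝ) + ((0 : ℕ) : ℝ) / d) = H := by
          simp only [hE]
          have h7 : ∀ n ∈ Ioc x (x + H), ee ((n : ℝ) *
              ((((1 : ℕ) : ℝ)) / ((1 : ℕ) : ℝ) + ((0 : ℕ) : ℝ) / d)) = 1 := by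
            intro n _
            have h8 : (n : ℝ) * ((((1 : ℕ) : ℝ)) / ((1 : ℕ) : ℝ) + ((0 : ℕ) : ℝ) / d) = n := by
              simp
            rw [h8, ems_nat]
          rw [sum_congr rfl h7]
          simp
        rw [h6, zero_mul, mul_zero, sub_self]
      · rw [h4, sub_zero]
        have h6 : ee ((x : ℝ) * ((c : ℝ) / q + (b : ℝ) / d)) =
            ee ((x : ℝ) * b / d) * ee ((x : ℝ) * c / q) := by
          rw [← Pool.Agent.H91.PK.LSa_ee_add]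
          congr 1
          ring
        rw [h6]
        ring
    rw [mul_sum, h2]
    have h4 : ∀ q ∈ m.divisors, ee ((x : ℝ) * b / d) *
        ∑ c ∈ (Icc 1 q).filter (fun c => Nat.Coprime c q),
        (if q = 1 ∧ b = 0 then 0 else dk H ((c : ℝ) / q + (b : ℝ) / d)) * ee ((x : ℝ) * c / q) =
        (∑ c ∈ (Icc 1 q).filter (fun c => Nat.Coprime c q), E ((c : ℝ) / q + (b : ℝ) / d)) -
          if q = 1 ∧ b = 0 then (H : ℂ) else 0 := by
      intro q hq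
      rw [mul_sum, sum_congr rfl (h3 q hq), sum_sub_distrib]
      congr 1
      by_cases h5 : q = 1 ∧ b = 0
      · obtain ⟨rfl, rfl⟩ := h5
        have h6 : (Icc 1 1).filter (fun c => Nat.Coprime c 1) = {1} := by decide
        rw [h6, sum_singleton]
      · simp [h5]
    rw [sum_congr rfl h4, sum_sub_distrib]
    congr 1
    by_cases hb : b = 0
    · rw [if_pos hb]
      have h5 : ∀ q ∈ m.divisors, (if q = 1 ∧ b = 0 then (H : ℂ) else 0) =
          if q = 1 then (H : ℂ) else 0 := fun q _ => by simp [hb]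
      rw [sum_congr rfl h5, sum_ite_eq' m.divisors 1 fun _ => (H : ℂ)]
      rw [if_pos (Nat.one_mem_divisors.2 (by omega))]
    · rw [if_neg hb]
      refine sum_eq_zero fun q _ => ?_
      rw [if_neg (fun h => hb h.2)]
  have h2 : ∑ b ∈ range d, ee (-((b : ℝ) * u / d)) *
      (ee ((x : ℝ) * b / d) * ∑ q ∈ m.divisors, ∑ c ∈ (Icc 1 q).filter (fun c => Nat.Coprime c q),
        (if q = 1 ∧ b = 0 then 0 else dk H ((c : ℝ) / q + (b : ℝ) / d)) *
          ee ((x : ℝ) * c / q)) =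
      (∑ b ∈ range d, ee (-((b : ℝ) * u / d)) * ∑ a ∈ Icc 1 m, E ((a : ℝ) / m + (b : ℝ) / d)) -
        H := by
    have h3 : ∀ b ∈ range d, ee (-((b : ℝ) * u / d)) *
      (ee ((x : ℝ) * b / d) * ∑ q ∈ m.divisors, ∑ c ∈ (Icc 1 q).filter (fun c => Nat.Coprime c q),
        (if q = 1 ∧ b = 0 then 0 else dk H ((c : ℝ) / q + (b : ℝ) / d)) *
          ee ((x : ℝ) * c / q)) =
        ee (-((b : ℝ) * u / d)) * ∑ a ∈ Icc 1 m, E ((a : ℝ) / m + (b : ℝ) / d) -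
          (if b = 0 then (H : ℂ) else 0) := by
      intro b hb
      rw [h1 b hb, mul_sub]
      congr 1
      split_ifs with h4
      · subst h4
        have h5 : ee (-(((0 : ℕ) : ℝ) * u / d)) = 1 := by
          have : (-(((0 : ℕ) : ℝ) * u / d)) = ((0 : ℤ) : ℝ) := by simp
          rw [this, ems_int]
        rw [h5, one_mul]
      · rw [mul_zero]
    rw [sum_congr rfl h3, sum_sub_distrib, sum_ite_eq' (range d) 0 fun _ => (H : ℂ),
      if_pos (mem_range.2 (by omega))]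
  have h3 : ∑ b ∈ range d, ee (-((b : ℝ) * u / d)) * ∑ a ∈ Icc 1 m, E ((a : ℝ) / m + (b : ℝ) / d) =
      ∑ n ∈ Ioc x (x + H), (if n % d = u % d then (d : ℂ) else 0) *
        (if m ∣ n then (m : ℂ) else 0) := by
    have h4 : ∀ b ∈ range d, ee (-((b : ℝ) * u / d)) *
        ∑ a ∈ Icc 1 m, E ((a : ℝ) / m + (b : ℝ) / d) =
        ∑ n ∈ Ioc x (x + H), ee ((b : ℝ) * (((n : ℤ) - u : ℤ) : ℝ) / d) *
          ∑ a ∈ Icc 1 m, ee ((n : ℝ) * ((a : ℝ) / m)) := by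
      intro b _
      simp only [hE]
      rw [sum_comm, mul_sum]
      refine sum_congr rfl fun n _ => ?_
      rw [mul_sum, mul_sum]
      refine sum_congr rfl fun a _ => ?_
      rw [← Pool.Agent.H91.PK.LSa_ee_add, ← Pool.Agent.H91.PK.LSa_ee_add]
      congr 1
      push_cast
      ring
    rw [sum_congr rfl h4, sum_comm]
    refine sum_congr rfl fun n _ => ?_
    rw [← sum_mul, ems_ortho d hd, ems_Icc m hm]
    congr 1
    exact if_congr (ems_cong d n u) rfl rfl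
  rw [h2, h3]
  have h4 : ∑ n ∈ Ioc x (x + H), (if n % d = u % d then (d : ℂ) else 0) *
        (if m ∣ n then (m : ℂ) else 0) = (d : ℂ) * m * cnt d u H m x := by
    unfold cnt
    rw [card_eq_sum_ones, sum_filter]
    push_cast
    rw [mul_sum]
    refine sum_congr rfl fun n _ => ?_
    by_cases a1 : m ∣ n
    · by_cases a2 : n % d = u % d
      · simp [a1, a2]
      · simp [a2]
    · simp [a1]
  rw [h4]
  unfold em
  push_cast
  field_simp

theorem em_sum (d u H M x : ℕ) (hd : 1 ≤ d) (S : Finset ℕ) (hS : S ⊆ Icc 1 M) (a : ℕ → ℝ) :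
    ((∑ m ∈ S, a m * em d u H m x : ℝ) : ℂ)
      = 1 / (d : ℂ) * ∑ b ∈ range d, ee (-((b : ℝ) * u / d)) * (ee ((x : ℝ) * b / d) *
        ∑ q ∈ Icc 1 M, ∑ c ∈ (Icc 1 q).filter (fun c => Nat.Coprime c q),
          (if q = 1 ∧ b = 0 then 0 else
            ((∑ m ∈ S.filter (fun m => q ∣ m), a m / m : ℝ) : ℂ) *
              dk H ((c : ℝ) / q + (b : ℝ) / d)) * ee ((x : ℝ) * c / q)) := by
  have hm : ∀ m ∈ S, 1 ≤ m := fun m hm => (mem_Icc.1 (hS hm)).1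
  have h1 : ∀ m ∈ S, ((a m * em d u H m x : ℝ) : ℂ) = 1 / (d : ℂ) * ∑ b ∈ range d,
      ee (-((b : ℝ) * u / d)) * (ee ((x : ℝ) * b / d) * ∑ q ∈ m.divisors, ((a m / m : ℝ) : ℂ) *
        ∑ c ∈ (Icc 1 q).filter (fun c => Nat.Coprime c q),
        (if q = 1 ∧ b = 0 then 0 else dk H ((c : ℝ) / q + (b : ℝ) / d)) *
          ee ((x : ℝ) * c / q)) := by
    intro m hmS
    have h2 := ems_one d u H m x hd (hm m hmS)
    have hm0 : (m : ℂ) ≠ 0 := by
      have : m ≠ 0 := by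
        have := hm m hmS
        omega
      exact_mod_cast this
    have h3 : ((a m * em d u H m x : ℝ) : ℂ) = ((a m / m : ℝ) : ℂ) *
        (((em d u H m x : ℝ) : ℂ) * m) := by
      push_cast
      field_simp
    rw [h3, h2, mul_left_comm]
    congr 1
    rw [mul_sum]
    refine sum_congr rfl fun b _ => ?_
    rw [← mul_sum]
    ring
  rw [Complex.ofReal_sum, sum_congr rfl h1, ← mul_sum, sum_comm]
  congr 1
  refine sum_congr rfl fun b _ => ?_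
  rw [← mul_sum, ← mul_sum]
  congr 2
  -- exchange of `m` and `q`
  set T : ℕ → ℂ := fun q => ∑ c ∈ (Icc 1 q).filter (fun c => Nat.Coprime c q),
        (if q = 1 ∧ b = 0 then 0 else dk H ((c : ℝ) / q + (b : ℝ) / d)) *
          ee ((x : ℝ) * c / q) with hT
  have h4 : ∀ m ∈ S, ∑ q ∈ m.divisors, ((a m / m : ℝ) : ℂ) * T q =
      ∑ q ∈ Icc 1 M, if q ∣ m then ((a m / m : ℝ) : ℂ) * T q else 0 := by
    intro m hmS
    rw [← sum_filter]
    refine sum_congr ?_ fun _ _ => rfl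
    ext q
    rw [Nat.mem_divisors, mem_filter, mem_Icc]
    have h5 := mem_Icc.1 (hS hmS)
    constructor
    · rintro ⟨h6, -⟩
      have h7 := Nat.le_of_dvd h5.1 h6
      exact ⟨⟨Nat.pos_of_dvd_of_pos h6 h5.1, by omega⟩, h6⟩
    · rintro ⟨-, h6⟩
      exact ⟨h6, by omega⟩
  rw [sum_congr rfl h4, sum_comm]
  refine sum_congr rfl fun q _ => ?_
  have h5 : ∑ m ∈ S, (if q ∣ m then ((a m / m : ℝ) : ℂ) * T q else 0) =
      ((∑ m ∈ S.filter (fun m => q ∣ m), a m / m : ℝ) : ℂ) * T q := by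
    rw [← sum_filter, Complex.ofReal_sum, sum_mul]
  rw [h5, hT, mul_sum]
  refine sum_congr rfl fun c _ => ?_
  split_ifs with h6
  · ring
  · ring

end Pool.Agent.H88.PSI

end

section

/-!
# PSI Tls: large sieve bound for sums of `em`

`em_sum`, `|(1/d) ∑_b ·|^2 ≤ (1/d) ∑_b |·|^2`, `dual_ls` for every `b` (`Ico X (2X) = Ioc (X-1) (X-1+X)`), `dk_sum` (if `(q, d) > 1` the inner sum over
`m` is empty as `(m, d) = 1` on `S`).
-/

set_option autoImplicit false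

namespace Pool.Agent.H88.PSI

open Finset

open Pool.Agent.H91.PK (ee)

private theorem Tls_norm_ee (t : ℝ) : ‖ee t‖ = 1 := by
  unfold Pool.Agent.H91.PK.ee
  have : (2 * (Real.pi : ℂ) * (t : ℂ) * Complex.I) = ((2 * Real.pi * t : ℝ) : ℂ) * Complex.I := by
    push_cast
    ring
  rw [this, Complex.norm_exp_ofReal_mul_I]

theorem ti_ls (d u H M X : ℕ) (hd : 1 ≤ d) (hH : 1 ≤ H) (hX : 1 ≤ X) (S : Finset ℕ)
    (hS : S ⊆ Icc 1 M) (hSd : ∀ m ∈ S, Nat.Coprime m d) (a : ℕ → ℝ) :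
    ∑ x ∈ Ico X (2 * X), (∑ m ∈ S, a m * em d u H m x) ^ 2
      ≤ 400 * (d : ℝ) ^ 2 * ((M : ℝ) ^ 2 + X) * ∑ q ∈ Icc 1 M,
        (∑ m ∈ S.filter (fun m => q ∣ m), |a m| / m) ^ 2 * min ((q : ℝ) ^ 2) (q * H) := by
  have hdr : (0 : ℝ) < d := by exact_mod_cast hd
  set C : ℕ → ℕ → ℕ → ℂ := fun b q c => if q = 1 ∧ b = 0 then 0 else
            ((∑ m ∈ S.filter (fun m => q ∣ m), a m / m : ℝ) : ℂ) *
              dk H ((c : ℝ) / q + (b : ℝ) / d) with hC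
  set I : ℕ → ℕ → ℂ := fun b x => ∑ q ∈ Icc 1 M, ∑ c ∈ (Icc 1 q).filter (fun c => Nat.Coprime c q),
    C b q c * ee ((x : ℝ) * c / q) with hI
  have h1 : ∀ x : ℕ, (∑ m ∈ S, a m * em d u H m x) ^ 2 ≤ 1 / (d : ℝ) * ∑ b ∈ range d, ‖I b x‖ ^ 2 := by
    intro x
    have e1 := em_sum d u H M x hd S hS a
    have e2 : (∑ m ∈ S, a m * em d u H m x) ^ 2 = ‖((∑ m ∈ S, a m * em d u H m x : ℝ) : ℂ)‖ ^ 2 := by
      rw [Complex.norm_real, Real.norm_eq_abs, sq_abs]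
    rw [e2, e1, norm_mul, mul_pow]
    have e3 : ‖(1 / (d : ℂ))‖ = 1 / (d : ℝ) := by
      rw [norm_div, norm_one, Complex.norm_natCast]
    rw [e3]
    have e4 : ‖∑ b ∈ range d, ee (-((b : ℝ) * u / d)) * (ee ((x : ℝ) * b / d) *
        ∑ q ∈ Icc 1 M, ∑ c ∈ (Icc 1 q).filter (fun c => Nat.Coprime c q),
          (if q = 1 ∧ b = 0 then 0 else
            ((∑ m ∈ S.filter (fun m => q ∣ m), a m / m : ℝ) : ℂ) *
              dk H ((c : ℝ) / q + (b : ℝ) / d)) * ee ((x : ℝ) * c / q))‖ ≤ ∑ b ∈ range d, ‖I b x‖ := by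
      refine (norm_sum_le _ _).trans (le_of_eq ?_)
      refine sum_congr rfl fun b _ => ?_
      rw [norm_mul, norm_mul, Tls_norm_ee, Tls_norm_ee, one_mul, one_mul]
    have e5 : (∑ b ∈ range d, ‖I b x‖) ^ 2 ≤ d * ∑ b ∈ range d, ‖I b x‖ ^ 2 := by
      have := sq_sum_le_card_mul_sum_sq (s := range d) (f := fun b => ‖I b x‖)
      rwa [card_range] at this
    have e6 := pow_le_pow_left₀ (norm_nonneg _) e4 2
    calc (1 / (d : ℝ)) ^ 2 * _ ≤ (1 / (d : ℝ)) ^ 2 * (d * ∑ b ∈ range d, ‖I b x‖ ^ 2) :=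
          mul_le_mul_of_nonneg_left (e6.trans e5) (by positivity)
      _ = 1 / (d : ℝ) * ∑ b ∈ range d, ‖I b x‖ ^ 2 := by
          field_simp
  have hIco : Ico X (2 * X) = Ioc (X - 1) (X - 1 + X) := by
    ext x
    rw [mem_Ico, mem_Ioc]
    omega
  set A : ℕ → ℝ := fun q => (∑ m ∈ S.filter (fun m => q ∣ m), |a m| / m) ^ 2 * min ((q : ℝ) ^ 2) (q * H) with hA
  have hA0 : ∀ q, 0 ≤ A q := by
    intro q
    rw [hA]
    positivity
  have h2 : ∀ b ∈ range d, ∑ x ∈ Ico X (2 * X), ‖I b x‖ ^ 2 ≤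
      ((M : ℝ) ^ 2 + Real.pi * X) * (100 * (d : ℝ) ^ 2 * ∑ q ∈ Icc 1 M, A q) := by
    intro b hb
    have hb' := mem_range.1 hb
    rw [hIco]
    refine (dual_ls M (X - 1) X (C b)).trans ?_
    refine mul_le_mul_of_nonneg_left ?_ (by positivity)
    rw [mul_sum]
    refine sum_le_sum fun q hq => ?_
    have hq' := mem_Icc.1 hq
    by_cases h0 : q = 1 ∧ b = 0
    · have e1 : ∑ c ∈ (Icc 1 q).filter (fun c => Nat.Coprime c q), ‖C b q c‖ ^ 2 = 0 := by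
        refine sum_eq_zero fun c _ => ?_
        rw [hC]
        simp only
        rw [if_pos h0, norm_zero]
        norm_num
      rw [e1]
      exact mul_nonneg (by positivity) (hA0 q)
    · have e1 : ∑ c ∈ (Icc 1 q).filter (fun c => Nat.Coprime c q), ‖C b q c‖ ^ 2 =
          (∑ m ∈ S.filter (fun m => q ∣ m), a m / m) ^ 2 *
            ∑ c ∈ (Icc 1 q).filter (fun c => Nat.Coprime c q), ‖dk H ((c : ℝ) / q + (b : ℝ) / d)‖ ^ 2 := by
        rw [mul_sum]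
        refine sum_congr rfl fun c _ => ?_
        rw [hC]
        simp only
        rw [if_neg h0, norm_mul, mul_pow, Complex.norm_real, Real.norm_eq_abs, sq_abs]
      rw [e1]
      by_cases hqd : Nat.Coprime q d
      · have e2 := dk_sum H q d b hH hq'.1 hd hb' hqd h0
        have e3 : (∑ m ∈ S.filter (fun m => q ∣ m), a m / m) ^ 2 ≤ (∑ m ∈ S.filter (fun m => q ∣ m), |a m| / m) ^ 2 := by
          rw [← sq_abs]
          refine pow_le_pow_left₀ (abs_nonneg _) ?_ 2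
          refine (abs_sum_le_sum_abs _ _).trans (le_of_eq ?_)
          refine sum_congr rfl fun m _ => ?_
          rw [abs_div, Nat.abs_cast]
        calc (∑ m ∈ S.filter (fun m => q ∣ m), a m / m) ^ 2 * _
            ≤ (∑ m ∈ S.filter (fun m => q ∣ m), |a m| / m) ^ 2 * (100 * (d : ℝ) ^ 2 * min ((q : ℝ) ^ 2) (q * H)) :=
              mul_le_mul e3 e2 (sum_nonneg fun _ _ => by positivity) (by positivity)
          _ = 100 * (d : ℝ) ^ 2 * A q := by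
              rw [hA]
              ring
      · have e2 : S.filter (fun m => q ∣ m) = ∅ := by
          rw [filter_eq_empty_iff]
          intro m hm hqm
          exact hqd (Nat.Coprime.coprime_dvd_left hqm (hSd m hm))
        rw [e2, sum_empty]
        have : 0 ≤ 100 * (d : ℝ) ^ 2 * A q := mul_nonneg (by positivity) (hA0 q)
        linarith
  have h3 : ∑ x ∈ Ico X (2 * X), (∑ m ∈ S, a m * em d u H m x) ^ 2 ≤
      1 / (d : ℝ) * ∑ b ∈ range d, ∑ x ∈ Ico X (2 * X), ‖I b x‖ ^ 2 := by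
    refine (sum_le_sum fun x _ => h1 x).trans (le_of_eq ?_)
    rw [← mul_sum, sum_comm]
  refine h3.trans ?_
  have h4 := sum_le_sum h2
  rw [sum_const, card_range, nsmul_eq_mul] at h4
  have hs0 : 0 ≤ ∑ q ∈ Icc 1 M, A q := sum_nonneg fun q _ => hA0 q
  calc 1 / (d : ℝ) * ∑ b ∈ range d, ∑ x ∈ Ico X (2 * X), ‖I b x‖ ^ 2
      ≤ 1 / (d : ℝ) * (d * (((M : ℝ) ^ 2 + Real.pi * X) * (100 * (d : ℝ) ^ 2 * ∑ q ∈ Icc 1 M, A q))) :=
        mul_le_mul_of_nonneg_left h4 (by positivity)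
    _ = ((M : ℝ) ^ 2 + Real.pi * X) * (100 * (d : ℝ) ^ 2 * ∑ q ∈ Icc 1 M, A q) := by
        field_simp
    _ ≤ (4 * ((M : ℝ) ^ 2 + X)) * (100 * (d : ℝ) ^ 2 * ∑ q ∈ Icc 1 M, A q) := by
        refine mul_le_mul_of_nonneg_right ?_ (by positivity)
        have hpi := Real.pi_le_four
        have hX0 : (0 : ℝ) ≤ X := Nat.cast_nonneg X
        nlinarith [sq_nonneg (M : ℝ)]
    _ = 400 * (d : ℝ) ^ 2 * ((M : ℝ) ^ 2 + X) * ∑ q ∈ Icc 1 M, A q := by ring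

end Pool.Agent.H88.PSI

end

section

/-!
# PSI Tmax: maximal version of `ti_ls`

`bin_dec` for `f m = a m em(m)` (`m ≤ M`, `(m, d) = 1`, else `0`) and `M' x + 1 < 2^r`; `ti_ls` for every block; for fixed `l` the blocks are disjoint, so
`∑_J (∑_{m ∈ J, q ∣ m} |a m|/m)^2 ≤ (∑_{m ≤ M, q ∣ m} |a m|/m)^2 ≤ (Q (1 + log M)/q)^2`; `∑_q min(q^2, qH)/q^2 ≤ H + H (1 + log M)`.
-/

set_option autoImplicit false

namespace Pool.Agent.H88.PSI

open Finset

private theorem Tmax_harm (n : ℕ) : ∑ k ∈ Icc 1 n, 1 / (k : ℝ) ≤ 1 + Real.log n := by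
  have h := harmonic_le_one_add_log n
  have e : ((harmonic n : ℚ) : ℝ) = ∑ k ∈ Icc 1 n, 1 / (k : ℝ) := by
    rw [harmonic_eq_sum_Icc]
    push_cast
    exact Finset.sum_congr rfl fun k _ => by rw [one_div]
  rw [← e]
  exact h

private theorem Tmax_mult (M q : ℕ) (hq : 1 ≤ q) :
    ∑ m ∈ (Icc 1 M).filter (fun m => q ∣ m), 1 / (m : ℝ) ≤ (1 + Real.log M) / q := by
  have h1 : (Icc 1 M).filter (fun m => q ∣ m) ⊆ (Icc 1 M).image (fun k => q * k) := by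
    intro m hm
    rw [mem_filter, mem_Icc] at hm
    obtain ⟨⟨hm1, hm2⟩, k, rfl⟩ := hm
    rw [mem_image]
    refine ⟨k, ?_, rfl⟩
    rw [mem_Icc]
    constructor
    · rcases Nat.eq_zero_or_pos k with h | h
      · subst h; simp at hm1
      · exact h
    · exact le_trans (Nat.le_mul_of_pos_left k hq) hm2
  calc ∑ m ∈ (Icc 1 M).filter (fun m => q ∣ m), 1 / (m : ℝ)
      ≤ ∑ m ∈ (Icc 1 M).image (fun k => q * k), 1 / (m : ℝ) :=
        Finset.sum_le_sum_of_subset_of_nonneg h1 fun _ _ _ => by positivity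
    _ = ∑ k ∈ Icc 1 M, 1 / ((q * k : ℕ) : ℝ) := by
        rw [Finset.sum_image]
        intro x _ y _ hxy
        exact Nat.eq_of_mul_eq_mul_left hq hxy
    _ = (∑ k ∈ Icc 1 M, 1 / (k : ℝ)) / q := by
        rw [Finset.sum_div]
        refine Finset.sum_congr rfl fun k _ => ?_
        rw [Nat.cast_mul, div_div, mul_comm]
    _ ≤ (1 + Real.log M) / q := by
        gcongr
        exact Tmax_harm M

private theorem Tmax_sq {ι : Type*} (s : Finset ι) (g : ι → ℝ) (hg : ∀ i ∈ s, 0 ≤ g i) :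
    ∑ i ∈ s, g i ^ 2 ≤ (∑ i ∈ s, g i) ^ 2 := by
  calc ∑ i ∈ s, g i ^ 2 ≤ ∑ i ∈ s, g i * ∑ j ∈ s, g j := by
        refine Finset.sum_le_sum fun i hi => ?_
        rw [sq]
        exact mul_le_mul_of_nonneg_left (Finset.single_le_sum hg hi) (hg i hi)
    _ = _ := by rw [← Finset.sum_mul, sq]

theorem ti_max (d u H M X r : ℕ) (hd : 1 ≤ d) (hH : 1 ≤ H) (hX : 1 ≤ X) (hM : 1 ≤ M)
    (hr : M + 1 < 2 ^ r) (a : ℕ → ℝ) (Q : ℝ) (ha : ∀ m ∈ Icc 1 M, |a m| ≤ Q) (M' : ℕ → ℕ)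
    (hM' : ∀ x, M' x ≤ M) :
    ∑ x ∈ Ico X (2 * X),
        (∑ m ∈ (Icc 1 (M' x)).filter (fun m => Nat.Coprime m d), a m * em d u H m x) ^ 2
      ≤ 1000 * (r : ℝ) ^ 2 * (d : ℝ) ^ 2 * ((M : ℝ) ^ 2 + X) * Q ^ 2 * (1 + Real.log M) ^ 3 * H := by
  classical
  have hQ0 : 0 ≤ Q := (abs_nonneg _).trans (ha 1 (mem_Icc.mpr ⟨le_rfl, hM⟩))
  have hMr : (1 : ℝ) ≤ M := by exact_mod_cast hM
  have hlog0 : 0 ≤ Real.log M := Real.log_nonneg hMr
  set Λ : ℝ := 1 + Real.log M with hΛ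
  have hΛ0 : 0 ≤ Λ := by linarith
  set T : Finset ℕ := (Icc 1 M).filter (fun m => Nat.Coprime m d) with hT
  set f : ℕ → ℕ → ℝ := fun x m => if m ∈ T then a m * em d u H m x else 0 with hf
  -- the blocks
  set SJ : ℕ → ℕ → Finset ℕ := fun l j => T.filter (fun m => m / 2 ^ l = j) with hSJ
  have hblock : ∀ x l j, ∑ m ∈ Ico (j * 2 ^ l) ((j + 1) * 2 ^ l), f x m =
      ∑ m ∈ SJ l j, a m * em d u H m x := by
    intro x l j
    rw [hf, hSJ]
    simp only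
    rw [← Finset.sum_filter]
    refine Finset.sum_congr ?_ fun _ _ => rfl
    ext m
    simp only [mem_filter, mem_Ico]
    rw [Nat.div_eq_iff (by positivity)]
    constructor
    · rintro ⟨⟨h1, h2⟩, h3⟩
      refine ⟨h3, ?_, ?_⟩
      · linarith
      · have : (j + 1) * 2 ^ l = j * 2 ^ l + 2 ^ l := by ring
        omega
    · rintro ⟨h3, h1, h2⟩
      refine ⟨⟨?_, ?_⟩, h3⟩
      · linarith
      · have h4 : (j + 1) * 2 ^ l = j * 2 ^ l + 2 ^ l := by ring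
        have h5 : 0 < 2 ^ l := by positivity
        omega
  have hinit : ∀ x, ∑ m ∈ (Icc 1 (M' x)).filter (fun m => Nat.Coprime m d), a m * em d u H m x =
      ∑ m ∈ range (M' x + 1), f x m := by
    intro x
    rw [hf]
    simp only
    rw [← Finset.sum_filter]
    refine Finset.sum_congr ?_ fun _ _ => rfl
    ext m
    simp only [hT, mem_filter, mem_range, mem_Icc]
    have := hM' x
    constructor
    · rintro ⟨⟨h1, h2⟩, h3⟩
      exact ⟨by omega, ⟨h1, by omega⟩, h3⟩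
    · rintro ⟨h1, ⟨h2, h4⟩, h3⟩
      exact ⟨⟨h2, by omega⟩, h3⟩
  have hstep : ∀ x, (∑ m ∈ (Icc 1 (M' x)).filter (fun m => Nat.Coprime m d),
      a m * em d u H m x) ^ 2 ≤ r * ∑ l ∈ range r, ∑ j ∈ range (2 ^ (r - l)),
      (∑ m ∈ SJ l j, a m * em d u H m x) ^ 2 := by
    intro x
    rw [hinit]
    have h1 := bin_dec r (f x) (M' x + 1) (by have := hM' x; omega)
    refine h1.trans (le_of_eq ?_)
    simp only [hblock]
  -- the sum over one level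
  have hlev : ∀ l ∈ range r, ∑ j ∈ range (2 ^ (r - l)), ∑ x ∈ Ico X (2 * X),
      (∑ m ∈ SJ l j, a m * em d u H m x) ^ 2 ≤
      400 * (d : ℝ) ^ 2 * ((M : ℝ) ^ 2 + X) * (Q ^ 2 * Λ ^ 3 * H) := by
    intro l hl
    rw [mem_range] at hl
    have h1 : ∀ j ∈ range (2 ^ (r - l)), ∑ x ∈ Ico X (2 * X),
        (∑ m ∈ SJ l j, a m * em d u H m x) ^ 2 ≤
        400 * (d : ℝ) ^ 2 * ((M : ℝ) ^ 2 + X) * ∑ q ∈ Icc 1 M,
          (∑ m ∈ (SJ l j).filter (fun m => q ∣ m), |a m| / m) ^ 2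
            * min ((q : ℝ) ^ 2) (q * H) := by
      intro j _
      refine ti_ls d u H M X hd hH hX (SJ l j) ?_ ?_ a
      · exact (Finset.filter_subset _ _).trans (Finset.filter_subset _ _)
      · intro m hm
        simp only [hSJ, hT, mem_filter] at hm
        exact hm.1.2
    refine (Finset.sum_le_sum h1).trans ?_
    rw [← Finset.mul_sum, Finset.sum_comm]
    refine mul_le_mul_of_nonneg_left ?_ (by positivity)
    have h2 : ∀ q ∈ Icc 1 M, ∑ j ∈ range (2 ^ (r - l)),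
        (∑ m ∈ (SJ l j).filter (fun m => q ∣ m), |a m| / m) ^ 2 * min ((q : ℝ) ^ 2) (q * H) ≤
        Q ^ 2 * Λ ^ 2 * H * (1 / (q : ℝ)) := by
      intro q hq
      rw [mem_Icc] at hq
      have hq0 : (0 : ℝ) < q := by exact_mod_cast hq.1
      rw [← Finset.sum_mul]
      have h3 : ∑ j ∈ range (2 ^ (r - l)),
          (∑ m ∈ (SJ l j).filter (fun m => q ∣ m), |a m| / m) ^ 2 ≤ (Q * (Λ / q)) ^ 2 := by
        refine (Tmax_sq _ _ fun j _ => Finset.sum_nonneg fun m _ => by positivity).trans ?_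
        have h4 : ∑ j ∈ range (2 ^ (r - l)), ∑ m ∈ (SJ l j).filter (fun m => q ∣ m), |a m| / m =
            ∑ m ∈ T.filter (fun m => q ∣ m), |a m| / (m : ℝ) := by
          have h5 : ∀ j, (SJ l j).filter (fun m => q ∣ m) =
              (T.filter (fun m => q ∣ m)).filter (fun m => m / 2 ^ l = j) := by
            intro j
            rw [hSJ]
            simp only
            rw [Finset.filter_comm]
          simp only [h5]
          refine Finset.sum_fiberwise_of_maps_to (fun m hm => ?_) _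
          simp only [hT, mem_filter, mem_Icc] at hm
          rw [mem_range, Nat.div_lt_iff_lt_mul (by positivity), ← pow_add,
            Nat.sub_add_cancel hl.le]
          omega
        rw [h4]
        have h6 : ∑ m ∈ T.filter (fun m => q ∣ m), |a m| / (m : ℝ) ≤ Q * (Λ / q) := by
          calc ∑ m ∈ T.filter (fun m => q ∣ m), |a m| / (m : ℝ)
              ≤ ∑ m ∈ T.filter (fun m => q ∣ m), Q * (1 / (m : ℝ)) := by
                refine Finset.sum_le_sum fun m hm => ?_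
                simp only [hT, mem_filter] at hm
                rw [mul_one_div]
                gcongr
                exact ha m hm.1.1
            _ ≤ ∑ m ∈ (Icc 1 M).filter (fun m => q ∣ m), Q * (1 / (m : ℝ)) := by
                refine Finset.sum_le_sum_of_subset_of_nonneg ?_ fun _ _ _ => by positivity
                exact Finset.filter_subset_filter _ (Finset.filter_subset _ _)
            _ = Q * ∑ m ∈ (Icc 1 M).filter (fun m => q ∣ m), 1 / (m : ℝ) := by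
                rw [Finset.mul_sum]
            _ ≤ Q * (Λ / q) := mul_le_mul_of_nonneg_left (Tmax_mult M q hq.1) hQ0
        have h7 : 0 ≤ ∑ m ∈ T.filter (fun m => q ∣ m), |a m| / (m : ℝ) :=
          Finset.sum_nonneg fun _ _ => by positivity
        exact pow_le_pow_left₀ h7 h6 2
      have h8 : min ((q : ℝ) ^ 2) (q * H) ≤ q * H := min_le_right _ _
      have h9 : (0 : ℝ) ≤ min ((q : ℝ) ^ 2) (q * H) := le_min (by positivity) (by positivity)
      calc _ ≤ (Q * (Λ / q)) ^ 2 * (q * H) := by gcongr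
        _ = Q ^ 2 * Λ ^ 2 * H * (1 / (q : ℝ)) := by
            field_simp
    refine (Finset.sum_le_sum h2).trans ?_
    rw [← Finset.mul_sum]
    calc Q ^ 2 * Λ ^ 2 * H * ∑ q ∈ Icc 1 M, 1 / (q : ℝ) ≤ Q ^ 2 * Λ ^ 2 * H * Λ := by
          gcongr
          exact Tmax_harm M
      _ = Q ^ 2 * Λ ^ 3 * H := by ring
  calc ∑ x ∈ Ico X (2 * X),
        (∑ m ∈ (Icc 1 (M' x)).filter (fun m => Nat.Coprime m d), a m * em d u H m x) ^ 2
      ≤ ∑ x ∈ Ico X (2 * X), (r * ∑ l ∈ range r, ∑ j ∈ range (2 ^ (r - l)),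
          (∑ m ∈ SJ l j, a m * em d u H m x) ^ 2) := Finset.sum_le_sum fun x _ => hstep x
    _ = r * ∑ l ∈ range r, ∑ j ∈ range (2 ^ (r - l)), ∑ x ∈ Ico X (2 * X),
          (∑ m ∈ SJ l j, a m * em d u H m x) ^ 2 := by
        rw [← Finset.mul_sum, Finset.sum_comm]
        congr 1
        refine Finset.sum_congr rfl fun l _ => ?_
        rw [Finset.sum_comm]
    _ ≤ r * ∑ l ∈ range r, (400 * (d : ℝ) ^ 2 * ((M : ℝ) ^ 2 + X) * (Q ^ 2 * Λ ^ 3 * H)) := by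
        gcongr with l hl
        exact hlev l hl
    _ = 400 * (r : ℝ) ^ 2 * (d : ℝ) ^ 2 * ((M : ℝ) ^ 2 + X) * Q ^ 2 * Λ ^ 3 * H := by
        rw [Finset.sum_const, Finset.card_range, nsmul_eq_mul]
        ring
    _ ≤ 1000 * (r : ℝ) ^ 2 * (d : ℝ) ^ 2 * ((M : ℝ) ^ 2 + X) * Q ^ 2 * Λ ^ 3 * H := by
        gcongr
        norm_num

end Pool.Agent.H88.PSI

end

section

/-!
# PSI Sho: short windows, type I

`Q = X^(1/1000)` bounds `20 L tau(m)^5` for `m ≤ 3X` (`tau_eps`).  `M = 2X/k ≤ 4 X^(13/24)`, `ti_max` with `M' x = x/k` (for `x < 2X`; `min (x/k) M`), `r = 2 ⌈L⌉`-ish: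
`≤ L^C d^2 (16 X^(13/12) + X) Q^2 H`, divided by `H^2`: `≤ X^(11/12 + 1/100)`.  Edge (`ti_edge`): the zone has at most `H/k + 1 ≤ 2` elements
(`H ≤ X^(1/3) ≤ k`): `(∑_zone |a m| (1/m + 1/H))^2 ≤ 4 ∑_zone Q^2/m^2 + 8 Q^2/H^2`, `zone_sum` with `b m = 1/m^2`: total `≤ 8 Q^2 H + 8 X Q^2/H^2`.
-/

set_option autoImplicit false

namespace Pool.Agent.H88.PSI

open Finset

/-- powers of logarithms are small -/
private theorem Sho_log (s C : ℝ) (hs : 0 < s) (hC : 0 < C) (c : ℕ) :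
    ∀ᶠ x : ℕ in Filter.atTop, C * Real.log x ^ c ≤ (x : ℝ) ^ s := by
  have h1 := (isLittleO_log_rpow_rpow_atTop (c : ℝ) hs).bound (c := 1 / C) (by positivity)
  have h2 := h1.and (Filter.eventually_ge_atTop (1 : ℝ))
  filter_upwards [(tendsto_natCast_atTop_atTop (R := ℝ)).eventually h2] with x hx
  obtain ⟨h4, h5⟩ := hx
  have hl : 0 ≤ Real.log x := Real.log_nonneg h5
  rw [Real.rpow_natCast, Real.norm_of_nonneg (by positivity),
    Real.norm_of_nonneg (by positivity)] at h4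
  calc C * Real.log x ^ c ≤ C * (1 / C * (x : ℝ) ^ s) := mul_le_mul_of_nonneg_left h4 hC.le
    _ = (x : ℝ) ^ s := by field_simp

private theorem Sho_inv_sq (N : ℕ) : ∑ m ∈ Icc 1 N, 1 / (m : ℝ) ^ 2 ≤ 2 := by
  have h := sum_Ioo_inv_sq_le (α := ℝ) 0 (N + 1)
  have e : Ioo 0 (N + 1) = Icc 1 N := by
    ext m
    simp only [mem_Ioo, mem_Icc]
    omega
  rw [e] at h
  have e2 : ∑ m ∈ Icc 1 N, 1 / (m : ℝ) ^ 2 = ∑ m ∈ Icc 1 N, ((m : ℝ) ^ 2)⁻¹ :=
    sum_congr rfl fun m _ => one_div _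
  rw [e2]
  refine h.trans ?_
  norm_num

/-- the edge term at one point -/
private theorem Sho_pt {a : ArithmeticFunction ℝ} {d u H k x N : ℕ} {Q : ℝ} (hd : 1 ≤ d)
    (hk : 1 ≤ k) (hu : Nat.Coprime u d) (hH : 1 ≤ H) (hHk : H ≤ k)
    (hxN : x + H ≤ N) (hQ : ∀ m ≤ N, |a m| ≤ Q) :
    ‖W (cl d u (hi 0 k * a)) H x / H - ((Bk a d k x : ℝ) : ℂ)‖ ^ 2 ≤
      4 * Q ^ 2 * ∑ m ∈ Ioc (x / k) ((x + H) / k), 1 / (m : ℝ) ^ 2 + 4 * Q ^ 2 / (H : ℝ) ^ 2 +
        2 / (H : ℝ) ^ 2 *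
          (∑ m ∈ (Icc 1 (x / k)).filter (fun m => Nat.Coprime m d), a m * em d u H m x) ^ 2 := by
  have hH0 : (0 : ℝ) < H := by exact_mod_cast hH
  obtain ⟨S, hS⟩ : ∃ S : ℝ, S = ∑ m ∈ (Icc 1 (x / k)).filter (fun m => Nat.Coprime m d),
    a m * cnt d u H m x := ⟨_, rfl⟩
  obtain ⟨R, hR⟩ : ∃ R : ℝ, R = ∑ m ∈ (Icc 1 (x / k)).filter (fun m => Nat.Coprime m d),
    a m * em d u H m x := ⟨_, rfl⟩
  obtain ⟨G, hG⟩ : ∃ G : ℂ, G = W (cl d u (hi 0 k * a)) H x := ⟨_, rfl⟩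
  have h1 := ti_edge a d u H k x hd hk hu
  have h2 := bk_eq a d u H k x hH
  rw [← hS, ← hG] at h1
  rw [← hS, ← hR] at h2
  rw [← hG, ← hR]
  have e1 : G / H - ((Bk a d k x : ℝ) : ℂ) = (G - (S : ℂ)) / H + ((R / H : ℝ) : ℂ) := by
    rw [← h2]
    push_cast
    ring
  obtain ⟨E, hE⟩ : ∃ E : ℝ, E = ‖G - (S : ℂ)‖ := ⟨_, rfl⟩
  rw [← hE] at h1
  have hE0 : 0 ≤ E := by
    rw [hE]
    exact norm_nonneg _
  have h3 : ‖G / H - ((Bk a d k x : ℝ) : ℂ)‖ ≤ E / H + |R| / H := by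
    rw [e1]
    refine (norm_add_le _ _).trans ?_
    rw [norm_div, Complex.norm_natCast, ← hE, Complex.norm_real, Real.norm_eq_abs, abs_div,
      abs_of_pos hH0]
  have hcard : (Ioc (x / k) ((x + H) / k)).card ≤ 1 := by
    rw [Nat.card_Ioc]
    have h4 : (x + H) / k ≤ (x + k) / k := Nat.div_le_div_right (by omega)
    rw [Nat.add_div_right x (by omega)] at h4
    omega
  have hcard' : ((Ioc (x / k) ((x + H) / k)).card : ℝ) ≤ 1 := by exact_mod_cast hcard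
  have h5 : (E / H) ^ 2 ≤ Q ^ 2 * (2 * ∑ m ∈ Ioc (x / k) ((x + H) / k), 1 / (m : ℝ) ^ 2 +
      2 / (H : ℝ) ^ 2) := by
    have h6 : E / H ≤ ∑ m ∈ Ioc (x / k) ((x + H) / k), |a m| * (1 / m + 1 / H) := by
      rw [div_le_iff₀ hH0, sum_mul]
      refine h1.trans (le_of_eq (sum_congr rfl fun m _ => ?_))
      field_simp
    have h7 := pow_le_pow_left₀ (by positivity) h6 2
    refine h7.trans (sq_sum_le_card_mul_sum_sq.trans ?_)
    have h8 : ∀ m ∈ Ioc (x / k) ((x + H) / k), (|a m| * (1 / (m : ℝ) + 1 / H)) ^ 2 ≤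
        Q ^ 2 * (2 * (1 / (m : ℝ) ^ 2) + 2 / (H : ℝ) ^ 2) := by
      intro m hm
      have hm' := mem_Ioc.1 hm
      have hmN : m ≤ N := by
        have := Nat.div_le_self (x + H) k
        omega
      rw [mul_pow]
      refine mul_le_mul (pow_le_pow_left₀ (abs_nonneg _) (hQ m hmN) 2) ?_ (sq_nonneg _)
        (sq_nonneg _)
      have h9 : (1 / (m : ℝ) + 1 / H) ^ 2 ≤ 2 * (1 / (m : ℝ)) ^ 2 + 2 * (1 / (H : ℝ)) ^ 2 := by
        nlinarith [sq_nonneg (1 / (m : ℝ) - 1 / H)]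
      refine h9.trans (le_of_eq ?_)
      rw [one_div_pow, one_div_pow]
      ring
    have h10 : 0 ≤ ∑ m ∈ Ioc (x / k) ((x + H) / k), (|a m| * (1 / (m : ℝ) + 1 / H)) ^ 2 :=
      sum_nonneg fun _ _ => sq_nonneg _
    refine (mul_le_of_le_one_left h10 hcard').trans ((sum_le_sum h8).trans ?_)
    rw [← mul_sum, sum_add_distrib, ← mul_sum, sum_const, nsmul_eq_mul]
    refine mul_le_mul_of_nonneg_left ?_ (sq_nonneg Q)
    have h11 := mul_le_mul_of_nonneg_right hcard' (by positivity : 0 ≤ 2 / (H : ℝ) ^ 2)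
    linarith
  have h6 := pow_le_pow_left₀ (norm_nonneg _) h3 2
  refine h6.trans ?_
  have h7 : (E / H + |R| / H) ^ 2 ≤ 2 * (E / H) ^ 2 + 2 * (|R| / H) ^ 2 := by
    nlinarith [sq_nonneg (E / H - |R| / H)]
  refine h7.trans ?_
  have h8 : 2 * (|R| / H) ^ 2 = 2 / (H : ℝ) ^ 2 * R ^ 2 := by
    rw [div_pow, sq_abs]
    ring
  rw [h8]
  have h9 : Q ^ 2 * (2 * ∑ m ∈ Ioc (x / k) ((x + H) / k), 1 / (m : ℝ) ^ 2 +
      2 / (H : ℝ) ^ 2) * 2 = 4 * Q ^ 2 * ∑ m ∈ Ioc (x / k) ((x + H) / k), 1 / (m : ℝ) ^ 2 +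
      4 * Q ^ 2 / (H : ℝ) ^ 2 := by ring
  linarith

theorem ti_short (B : ℕ) : ∃ X0 : ℕ, ∀ X : ℕ, X0 ≤ X →
    ∀ (d u H k : ℕ) (a : ArithmeticFunction ℝ), 1 ≤ d → (d : ℝ) ≤ Real.log X ^ B → Nat.Coprime u d →
    (X : ℝ) ^ (1 / 6 : ℝ) ≤ H → (H : ℝ) ≤ (X : ℝ) ^ (1 / 3 : ℝ) →
    (X : ℝ) ^ (11 / 24 : ℝ) / 2 ≤ k → (∀ m, |a m| ≤ 20 * Real.log X * tau m ^ 5) →
    ∑ x ∈ Ico X (2 * X), ‖W (cl d u (hi 0 k * a)) H x / H - ((Bk a d k x : ℝ) : ℂ)‖ ^ 2
      ≤ (X : ℝ) ^ (49 / 50 : ℝ) := by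
  obtain ⟨C, hC, htau⟩ := tau_eps (1 / 10000) (by norm_num)
  have ev1 := Sho_log (1 / 2000) (20 * (4 * C) ^ 5) (by norm_num) (by positivity) 1
  have ev2 := Sho_log (1 / 100) 7488000 (by norm_num) (by norm_num) (2 * B + 5)
  have ev3 := Sho_log (1 / 100) 24 (by norm_num) (by norm_num) 0
  have ev4 : ∀ᶠ x : ℕ in Filter.atTop, 1 ≤ Real.log x :=
    (Real.tendsto_log_atTop.comp tendsto_natCast_atTop_atTop).eventually_ge_atTop 1
  obtain ⟨X0, hX0⟩ := Filter.eventually_atTop.1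
    (((ev1.and ev2).and (ev3.and ev4)).and (Filter.eventually_ge_atTop 3))
  refine ⟨X0, fun X hX d u H k a hd hdB hu hH6 hH3 hk ha => ?_⟩
  obtain ⟨⟨⟨f1, f2⟩, f3, f4⟩, f5⟩ := hX0 X hX
  rw [pow_one] at f1
  rw [pow_zero, mul_one] at f3
  obtain ⟨L, hL⟩ : ∃ L : ℝ, L = Real.log X := ⟨_, rfl⟩
  rw [← hL] at f1 f2 f4 hdB ha
  have hX3 : (3 : ℝ) ≤ X := by exact_mod_cast f5
  have hX1 : (1 : ℝ) ≤ X := by linarith
  have hXpos : (0 : ℝ) < X := by linarith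
  have hL0 : 0 < L := by linarith
  have hadd : ∀ s t : ℝ, (X : ℝ) ^ s * (X : ℝ) ^ t = (X : ℝ) ^ (s + t) := fun s t =>
    (Real.rpow_add hXpos s t).symm
  have hmono : ∀ s t : ℝ, s ≤ t → (X : ℝ) ^ s ≤ (X : ℝ) ^ t := fun s t h =>
    Real.rpow_le_rpow_of_exponent_le hX1 h
  have hpos : ∀ s : ℝ, 0 < (X : ℝ) ^ s := fun s => Real.rpow_pos_of_pos hXpos s
  have hone : ∀ s : ℝ, 0 ≤ s → 1 ≤ (X : ℝ) ^ s := fun s h => Real.one_le_rpow hX1 h
  -- H and k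
  have hH1 : (1 : ℝ) ≤ H := (hone (1 / 6) (by norm_num)).trans hH6
  have hH0 : (0 : ℝ) < H := by linarith
  have hH1' : 1 ≤ H := by exact_mod_cast hH1
  have hHkR : (H : ℝ) ≤ k := by
    refine hH3.trans (le_trans ?_ hk)
    rw [le_div_iff₀ (by norm_num)]
    have h1 : (X : ℝ) ^ (1 / 3 : ℝ) * (X : ℝ) ^ (1 / 8 : ℝ) = (X : ℝ) ^ (11 / 24 : ℝ) := by
      rw [hadd]
      norm_num
    rw [← h1]
    refine mul_le_mul_of_nonneg_left ?_ (hpos _).le
    have := hmono (1 / 100) (1 / 8) (by norm_num)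
    linarith
  have hHk : H ≤ k := by exact_mod_cast hHkR
  have hk1 : 1 ≤ k := hH1'.trans hHk
  have hHXR : (H : ℝ) ≤ X := by
    refine hH3.trans ?_
    have := hmono (1 / 3) 1 (by norm_num)
    rwa [Real.rpow_one] at this
  have hHX : H ≤ X := by exact_mod_cast hHXR
  -- Q
  obtain ⟨Q, hQ⟩ : ∃ Q : ℝ, Q = (X : ℝ) ^ (1 / 1000 : ℝ) := ⟨_, rfl⟩
  have hQ0 : 0 < Q := by
    rw [hQ]
    exact hpos _
  have hQ2 : Q ^ 2 = (X : ℝ) ^ (1 / 500 : ℝ) := by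
    rw [hQ, sq, hadd]
    norm_num
  have haQ : ∀ m ≤ 3 * X, |a m| ≤ Q := by
    intro m hm
    refine (ha m).trans ?_
    have hmX : (m : ℝ) ≤ 3 * X := by exact_mod_cast hm
    have ht0 : 0 ≤ tau m := by
      unfold tau
      positivity
    have h1 : tau m ≤ 4 * C * (X : ℝ) ^ (1 / 10000 : ℝ) := by
      refine (htau m).trans ?_
      have h2 : (m : ℝ) ^ (1 / 10000 : ℝ) ≤ 3 * (X : ℝ) ^ (1 / 10000 : ℝ) := by
        calc (m : ℝ) ^ (1 / 10000 : ℝ) ≤ (3 * (X : ℝ)) ^ (1 / 10000 : ℝ) :=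
              Real.rpow_le_rpow (Nat.cast_nonneg m) hmX (by norm_num)
          _ = (3 : ℝ) ^ (1 / 10000 : ℝ) * (X : ℝ) ^ (1 / 10000 : ℝ) :=
              Real.mul_rpow (by norm_num) hXpos.le
          _ ≤ 3 * (X : ℝ) ^ (1 / 10000 : ℝ) := by
              refine mul_le_mul_of_nonneg_right ?_ (hpos _).le
              have := Real.rpow_le_rpow_of_exponent_le (by norm_num : (1 : ℝ) ≤ 3)
                (by norm_num : (1 / 10000 : ℝ) ≤ 1)
              rwa [Real.rpow_one] at this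
      have h3 := hone (1 / 10000) (by norm_num)
      have h4 := mul_le_mul_of_nonneg_left h2 (by linarith : 0 ≤ C)
      have h5 := mul_le_mul_of_nonneg_left h3 (by linarith : 0 ≤ C)
      linarith
    have h2 := pow_le_pow_left₀ ht0 h1 5
    have h3 : (4 * C * (X : ℝ) ^ (1 / 10000 : ℝ)) ^ 5 = (4 * C) ^ 5 * (X : ℝ) ^ (1 / 2000 : ℝ) := by
      rw [mul_pow, ← Real.rpow_natCast ((X : ℝ) ^ (1 / 10000 : ℝ)) 5, ← Real.rpow_mul hXpos.le]
      norm_num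
    rw [h3] at h2
    calc 20 * L * tau m ^ 5 ≤ 20 * L * ((4 * C) ^ 5 * (X : ℝ) ^ (1 / 2000 : ℝ)) :=
          mul_le_mul_of_nonneg_left h2 (by positivity)
      _ = (20 * (4 * C) ^ 5 * L) * (X : ℝ) ^ (1 / 2000 : ℝ) := by ring
      _ ≤ (X : ℝ) ^ (1 / 2000 : ℝ) * (X : ℝ) ^ (1 / 2000 : ℝ) :=
          mul_le_mul_of_nonneg_right f1 (hpos _).le
      _ = Q := by
          rw [hadd, hQ]
          norm_num
  -- M and r
  obtain ⟨M, hM⟩ : ∃ M : ℕ, M = 2 * X / k + 1 := ⟨_, rfl⟩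
  have hM1 : 1 ≤ M := by
    rw [hM]
    exact Nat.le_add_left 1 _
  have hk0 : (0 : ℝ) < k := by exact_mod_cast hk1
  have hMR : (M : ℝ) ≤ 5 * (X : ℝ) ^ (13 / 24 : ℝ) := by
    have h1 : ((2 * X / k : ℕ) : ℝ) ≤ 2 * X / k := by
      have := Nat.cast_div_le (α := ℝ) (m := 2 * X) (n := k)
      push_cast at this
      exact this
    have h2 : 2 * (X : ℝ) / k ≤ 4 * (X : ℝ) ^ (13 / 24 : ℝ) := by
      rw [div_le_iff₀ hk0]
      have h3 : (X : ℝ) ^ (13 / 24 : ℝ) * (X : ℝ) ^ (11 / 24 : ℝ) = X := by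
        rw [hadd]
        norm_num
      have h4 := mul_le_mul_of_nonneg_left hk (by positivity : 0 ≤ 4 * (X : ℝ) ^ (13 / 24 : ℝ))
      have h5 : 4 * (X : ℝ) ^ (13 / 24 : ℝ) * ((X : ℝ) ^ (11 / 24 : ℝ) / 2) =
          2 * ((X : ℝ) ^ (13 / 24 : ℝ) * (X : ℝ) ^ (11 / 24 : ℝ)) := by ring
      rw [h5, h3] at h4
      exact h4
    have h3 := hone (13 / 24) (by norm_num)
    rw [hM]
    push_cast
    linarith
  have hM1X : (M : ℝ) + 1 ≤ X := by
    have h3 := hone (13 / 24) (by norm_num)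
    have h4 : (X : ℝ) ^ (13 / 24 : ℝ) * (X : ℝ) ^ (11 / 24 : ℝ) = X := by
      rw [hadd]
      norm_num
    have h5 : 24 ≤ (X : ℝ) ^ (11 / 24 : ℝ) := f3.trans (hmono _ _ (by norm_num))
    have h6 := mul_le_mul_of_nonneg_left h5 (hpos (13 / 24)).le
    rw [h4] at h6
    linarith
  have hMX : M ≤ X := by
    have : (M : ℝ) ≤ X := by linarith
    exact_mod_cast this
  obtain ⟨r, hr⟩ : ∃ r : ℕ, r = Nat.log 2 (M + 1) + 1 := ⟨_, rfl⟩
  have hr1 : M + 1 < 2 ^ r := by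
    rw [hr]
    exact Nat.lt_pow_succ_log_self (by norm_num) _
  have hr2 : (r : ℝ) ≤ 3 * L := by
    have h1 : (2 : ℕ) ^ Nat.log 2 (M + 1) ≤ M + 1 := Nat.pow_log_le_self 2 (by omega)
    have h2 : (2 : ℝ) ^ Nat.log 2 (M + 1) ≤ X := by
      have h3 : ((2 ^ Nat.log 2 (M + 1) : ℕ) : ℝ) ≤ ((M + 1 : ℕ) : ℝ) := by exact_mod_cast h1
      push_cast at h3
      linarith
    have h3 := Real.log_le_log (by positivity) h2
    rw [Real.log_pow, ← hL] at h3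
    have h4 : (1 / 2 : ℝ) ≤ Real.log 2 := by
      have := Real.log_two_gt_d9
      linarith
    have h5 : (Nat.log 2 (M + 1) : ℝ) * (1 / 2) ≤ L :=
      (mul_le_mul_of_nonneg_left h4 (Nat.cast_nonneg _)).trans h3
    rw [hr]
    push_cast
    linarith
  have hlogM : 0 ≤ Real.log M ∧ 1 + Real.log M ≤ 2 * L := by
    have h1 : Real.log M ≤ L := by
      rw [hL]
      exact Real.log_le_log (by exact_mod_cast hM1) (by exact_mod_cast hMX)
    exact ⟨Real.log_natCast_nonneg M, by linarith⟩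
  -- the error terms
  have hmax := ti_max d u H M X r hd hH1' (by omega) hM1 hr1 a Q
    (fun m hm => haQ m (by have := (mem_Icc.1 hm).2; omega)) (fun x => min (x / k) M)
    (fun x => min_le_right _ _)
  have hmax' : ∑ x ∈ Ico X (2 * X),
      (∑ m ∈ (Icc 1 (x / k)).filter (fun m => Nat.Coprime m d), a m * em d u H m x) ^ 2 ≤
      1000 * (r : ℝ) ^ 2 * (d : ℝ) ^ 2 * ((M : ℝ) ^ 2 + X) * Q ^ 2 * (1 + Real.log M) ^ 3 * H := by
    refine le_trans (le_of_eq (sum_congr rfl fun x hx => ?_)) hmax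
    have hx' := (mem_Ico.1 hx).2
    have h1 : x / k ≤ 2 * X / k := Nat.div_le_div_right (by omega)
    have h2 : min (x / k) M = x / k := by
      refine min_eq_left ?_
      rw [hM]
      exact h1.trans (Nat.le_succ _)
    rw [h2]
  -- the sum
  have hsum : ∑ x ∈ Ico X (2 * X),
      ‖W (cl d u (hi 0 k * a)) H x / H - ((Bk a d k x : ℝ) : ℂ)‖ ^ 2 ≤
      4 * Q ^ 2 * (H * 2) + 4 * Q ^ 2 / (H : ℝ) ^ 2 * X + 2 / (H : ℝ) ^ 2 *
        (1000 * (r : ℝ) ^ 2 * (d : ℝ) ^ 2 * ((M : ℝ) ^ 2 + X) * Q ^ 2 *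
          (1 + Real.log M) ^ 3 * H) := by
    refine (sum_le_sum fun x hx => Sho_pt (N := 3 * X) (Q := Q) hd hk1 hu hH1' hHk
      (by have := (mem_Ico.1 hx).2; omega) haQ).trans ?_
    rw [sum_add_distrib, sum_add_distrib, ← mul_sum, ← mul_sum, sum_const, Nat.card_Ico,
      nsmul_eq_mul]
    have e1 : 2 * X - X = X := by omega
    rw [e1]
    have h1 := zone_sum X H k hk1 (by omega) hHX (fun m => 1 / (m : ℝ) ^ 2)
      (fun m => by positivity)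
    have h2 := mul_le_mul_of_nonneg_left (Sho_inv_sq (3 * X)) hH0.le
    have h3 := mul_le_mul_of_nonneg_left (h1.trans h2) (by positivity : 0 ≤ 4 * Q ^ 2)
    have h4 := mul_le_mul_of_nonneg_left hmax' (by positivity : 0 ≤ 2 / (H : ℝ) ^ 2)
    have h5 : (X : ℝ) * (4 * Q ^ 2 / (H : ℝ) ^ 2) = 4 * Q ^ 2 / (H : ℝ) ^ 2 * X := by ring
    rw [h5]
    exact add_le_add (add_le_add h3 le_rfl) h4
  refine hsum.trans ?_
  -- sizes
  have g1 : 4 * Q ^ 2 * (H * 2) + 4 * Q ^ 2 / (H : ℝ) ^ 2 * X ≤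
      1 / 2 * (X : ℝ) ^ (49 / 50 : ℝ) := by
    have h1 : (H : ℝ) ≤ (X : ℝ) ^ (2 / 3 : ℝ) := hH3.trans (hmono _ _ (by norm_num))
    have h2 : (X : ℝ) / (H : ℝ) ^ 2 ≤ (X : ℝ) ^ (2 / 3 : ℝ) := by
      rw [div_le_iff₀ (by positivity)]
      have h3 := pow_le_pow_left₀ (hpos _).le hH6 2
      have h4 : (X : ℝ) ^ (2 / 3 : ℝ) * ((X : ℝ) ^ (1 / 6 : ℝ)) ^ 2 = X := by
        rw [sq, hadd, hadd]
        norm_num
      calc (X : ℝ) = (X : ℝ) ^ (2 / 3 : ℝ) * ((X : ℝ) ^ (1 / 6 : ℝ)) ^ 2 := h4.symm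
        _ ≤ _ := mul_le_mul_of_nonneg_left h3 (hpos _).le
    have h5 : 4 * Q ^ 2 * (H * 2) + 4 * Q ^ 2 / (H : ℝ) ^ 2 * X ≤
        12 * (Q ^ 2 * (X : ℝ) ^ (2 / 3 : ℝ)) := by
      have h6 := mul_le_mul_of_nonneg_left h1 (by positivity : 0 ≤ 8 * Q ^ 2)
      have h7 := mul_le_mul_of_nonneg_left h2 (by positivity : 0 ≤ 4 * Q ^ 2)
      have h8 : 4 * Q ^ 2 / (H : ℝ) ^ 2 * X = 4 * Q ^ 2 * (X / (H : ℝ) ^ 2) := by ring
      rw [h8]
      linarith
    refine h5.trans ?_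
    rw [hQ2, hadd]
    have h9 := mul_le_mul_of_nonneg_right f3 (hpos (1 / 500 + 2 / 3)).le
    rw [hadd] at h9
    have h10 := hmono (1 / 100 + (1 / 500 + 2 / 3)) (49 / 50) (by norm_num)
    linarith
  have g2 : 2 / (H : ℝ) ^ 2 * (1000 * (r : ℝ) ^ 2 * (d : ℝ) ^ 2 * ((M : ℝ) ^ 2 + X) * Q ^ 2 *
      (1 + Real.log M) ^ 3 * H) ≤ 1 / 2 * (X : ℝ) ^ (49 / 50 : ℝ) := by
    have e1 : 2 / (H : ℝ) ^ 2 * (1000 * (r : ℝ) ^ 2 * (d : ℝ) ^ 2 * ((M : ℝ) ^ 2 + X) * Q ^ 2 *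
        (1 + Real.log M) ^ 3 * H) = 2000 * ((r : ℝ) ^ 2 * (d : ℝ) ^ 2 * (1 + Real.log M) ^ 3) *
        (((M : ℝ) ^ 2 + X) / H) * Q ^ 2 := by
      field_simp
      ring
    have h1 : (r : ℝ) ^ 2 ≤ (3 * L) ^ 2 := pow_le_pow_left₀ (Nat.cast_nonneg r) hr2 2
    have h2 : (d : ℝ) ^ 2 ≤ (L ^ B) ^ 2 := pow_le_pow_left₀ (Nat.cast_nonneg d) hdB 2
    have h3 : (1 + Real.log M) ^ 3 ≤ (2 * L) ^ 3 :=
      pow_le_pow_left₀ (by linarith [hlogM.1]) hlogM.2 3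
    have h4 : (r : ℝ) ^ 2 * (d : ℝ) ^ 2 * (1 + Real.log M) ^ 3 ≤
        (3 * L) ^ 2 * (L ^ B) ^ 2 * (2 * L) ^ 3 :=
      mul_le_mul (mul_le_mul h1 h2 (by positivity) (by positivity)) h3
        (pow_nonneg (by linarith [hlogM.1]) 3) (by positivity)
    have h5 : (3 * L) ^ 2 * (L ^ B) ^ 2 * (2 * L) ^ 3 = 72 * L ^ (2 * B + 5) := by
      rw [pow_add, pow_mul']
      ring
    rw [h5] at h4
    have h6 : ((M : ℝ) ^ 2 + X) / H ≤ 26 * (X : ℝ) ^ (11 / 12 : ℝ) := by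
      rw [div_le_iff₀ hH0]
      have h7 := pow_le_pow_left₀ (Nat.cast_nonneg M) hMR 2
      have h8 : (5 * (X : ℝ) ^ (13 / 24 : ℝ)) ^ 2 = 25 * (X : ℝ) ^ (13 / 12 : ℝ) := by
        rw [mul_pow, sq ((X : ℝ) ^ (13 / 24 : ℝ)), hadd]
        norm_num
      rw [h8] at h7
      have h9 : (X : ℝ) ≤ (X : ℝ) ^ (13 / 12 : ℝ) := by
        have := hmono 1 (13 / 12) (by norm_num)
        rwa [Real.rpow_one] at this
      have h10 : (X : ℝ) ^ (11 / 12 : ℝ) * (X : ℝ) ^ (1 / 6 : ℝ) = (X : ℝ) ^ (13 / 12 : ℝ) := by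
        rw [hadd]
        norm_num
      have h11 := mul_le_mul_of_nonneg_left hH6 (by positivity : 0 ≤ 26 * (X : ℝ) ^ (11 / 12 : ℝ))
      have h12 : 26 * (X : ℝ) ^ (11 / 12 : ℝ) * (X : ℝ) ^ (1 / 6 : ℝ) =
          26 * ((X : ℝ) ^ (11 / 12 : ℝ) * (X : ℝ) ^ (1 / 6 : ℝ)) := by ring
      rw [h12, h10] at h11
      linarith
    have h13 : 2000 * ((r : ℝ) ^ 2 * (d : ℝ) ^ 2 * (1 + Real.log M) ^ 3) *
        (((M : ℝ) ^ 2 + X) / H) ≤ 2000 * (72 * L ^ (2 * B + 5)) *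
          (26 * (X : ℝ) ^ (11 / 12 : ℝ)) :=
      mul_le_mul (mul_le_mul_of_nonneg_left h4 (by norm_num)) h6 (by positivity) (by positivity)
    rw [e1]
    refine (mul_le_mul_of_nonneg_right h13 (sq_nonneg Q)).trans ?_
    rw [hQ2]
    have h14 : 2000 * (72 * L ^ (2 * B + 5)) * (26 * (X : ℝ) ^ (11 / 12 : ℝ)) *
        (X : ℝ) ^ (1 / 500 : ℝ) = 1 / 2 * (7488000 * L ^ (2 * B + 5)) *
          ((X : ℝ) ^ (11 / 12 : ℝ) * (X : ℝ) ^ (1 / 500 : ℝ)) := by ring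
    rw [h14, hadd]
    have h15 := mul_le_mul_of_nonneg_right f2 (hpos (11 / 12 + 1 / 500)).le
    rw [hadd] at h15
    have h16 := hmono (1 / 100 + (11 / 12 + 1 / 500)) (49 / 50) (by norm_num)
    linarith
  linarith

end Pool.Agent.H88.PSI

end
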