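import Pool.Agent.H43.PM.M07

/-! The parts of this file: H91.EHA.SwD1, H91.EHA.SwD2, H43.MP.Mrt, H91.GoldWeight, H97.VK.Fou, H97.VK.GGB, H97.VK.Bil. -/

section

/-!
# Bounds for `L(s,χ)` in `Re s ≥ 1/2` (for Siegel's theorem)

`LF_le`: for `Re s > 1`, `L(s,χ) = s ∫_1^∞ S(u) u^{-s-1} du`, `S(u) = ∑_{n≤u} χ(n)`, `‖S(u)‖ ≤ q`
(Mathlib: `LSeries_eq_mul_integral`, file `SumCoeff.lean`).  The right side is analytic for `Re s > 0`
and equals `LFunction χ` (entire for `χ ≠ 1`, `DirichletCharacter.differentiable_LFunction`)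
by the identity theorem on the half plane.  So `‖L(s,χ)‖ ≤ ‖s‖ q / Re s ≤ 2 q ‖s‖`.
`LF1_le`: `A(u) = #{n ≤ u, (n,q)=1} = (φ(q)/q) u + E(u)`, `|E(u)| ≤ q`:
`(s-1) L(s,χ0) = (φ(q)/q) s + (s-1) s ∫ E(u) u^{-s-1} du`.
-/

set_option autoImplicit false

namespace Pool.Agent.H91.EHA

open Finset

/-! ### partial sums of periodic functions -/

private lemma swd1_period (q : ℕ) (f : ℕ → ℂ) (hf : ∀ k, f (k + q) = f k) (N : ℕ) :
    ∑ k ∈ range (N + q), f k = ∑ k ∈ range N, f k + ∑ k ∈ range q, f k := by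
  rw [add_comm N q, Finset.sum_range_add, add_comm]
  congr 1
  exact Finset.sum_congr rfl fun k _ => by rw [add_comm q k, hf]

/-- mean value of a periodic function -/
private noncomputable def swd1_mean (q : ℕ) (f : ℕ → ℂ) : ℂ := (∑ k ∈ range q, f k) / q

private lemma swd1_mean_le (q : ℕ) (hq : 0 < q) (f : ℕ → ℂ) (h1 : ∀ k, ‖f k‖ ≤ 1) :
    ‖swd1_mean q f‖ ≤ 1 := by
  unfold swd1_mean
  rw [norm_div, Complex.norm_natCast]
  rw [div_le_one (by exact_mod_cast hq)]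
  calc ‖∑ k ∈ range q, f k‖ ≤ ∑ k ∈ range q, ‖f k‖ := norm_sum_le _ _
    _ ≤ ∑ k ∈ range q, (1 : ℝ) := Finset.sum_le_sum fun k _ => h1 k
    _ = q := by simp

private lemma swd1_dev (q : ℕ) (hq : 0 < q) (f : ℕ → ℂ) (hf : ∀ k, f (k + q) = f k)
    (h1 : ∀ k, ‖f k‖ ≤ 1) (N : ℕ) :
    ‖∑ k ∈ range N, f k - swd1_mean q f * N‖ ≤ 2 * q := by
  induction N using Nat.strong_induction_on with
  | _ N ih =>
    by_cases hN : N < q
    · have hm := swd1_mean_le q hq f h1
      have hNq : (N : ℝ) ≤ q := by exact_mod_cast hN.le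
      calc ‖∑ k ∈ range N, f k - swd1_mean q f * N‖
          ≤ ‖∑ k ∈ range N, f k‖ + ‖swd1_mean q f * N‖ := norm_sub_le _ _
        _ ≤ (N : ℝ) + 1 * N := by
            refine add_le_add ?_ ?_
            · calc ‖∑ k ∈ range N, f k‖ ≤ ∑ k ∈ range N, ‖f k‖ := norm_sum_le _ _
                _ ≤ ∑ k ∈ range N, (1 : ℝ) := Finset.sum_le_sum fun k _ => h1 k
                _ = N := by simp
            · rw [norm_mul, Complex.norm_natCast]
              exact mul_le_mul_of_nonneg_right hm (Nat.cast_nonneg _)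
        _ ≤ 2 * q := by linarith
    · push Not at hN
      obtain ⟨M, rfl⟩ := Nat.exists_eq_add_of_le hN
      have hM : M < q + M := by omega
      have h := ih M hM
      have e : ∑ k ∈ range (q + M), f k - swd1_mean q f * ((q + M : ℕ) : ℂ)
          = ∑ k ∈ range M, f k - swd1_mean q f * M := by
        rw [add_comm q M, swd1_period q f hf M]
        have hq' : (q : ℂ) ≠ 0 := by exact_mod_cast hq.ne'
        unfold swd1_mean
        push_cast
        field_simp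
        ring
      rw [e]
      exact h

/-- the error term -/
private noncomputable def swd1_E (q : ℕ) (f : ℕ → ℂ) (t : ℝ) : ℂ :=
  ∑ k ∈ Icc 1 ⌊t⌋₊, f k - swd1_mean q f * t

private lemma swd1_E_le (q : ℕ) (hq : 0 < q) (f : ℕ → ℂ) (hf : ∀ k, f (k + q) = f k)
    (h1 : ∀ k, ‖f k‖ ≤ 1) (t : ℝ) (ht : 0 ≤ t) : ‖swd1_E q f t‖ ≤ 4 * q := by
  have hq1 : (1 : ℝ) ≤ q := by exact_mod_cast hq
  have e0 : ∑ k ∈ Icc 1 ⌊t⌋₊, f k = ∑ k ∈ range (⌊t⌋₊ + 1), f k - f 0 := by
    rw [Finset.sum_range_succ', Finset.range_eq_Ico, Finset.sum_Ico_add' f 0 ⌊t⌋₊ 1]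
    simp only [zero_add, add_sub_cancel_right]
    rfl
  have hm := swd1_mean_le q hq f h1
  have e : swd1_E q f t = (∑ k ∈ range (⌊t⌋₊ + 1), f k - swd1_mean q f * ((⌊t⌋₊ + 1 : ℕ) : ℂ))
      - f 0 + swd1_mean q f * (((⌊t⌋₊ + 1 : ℝ) - t : ℝ) : ℂ) := by
    unfold swd1_E
    rw [e0]
    push_cast
    ring
  rw [e]
  have hfl1 := Nat.floor_le ht
  have hfl2 := Nat.lt_floor_add_one t
  have h3 : ‖(((⌊t⌋₊ + 1 : ℝ) - t : ℝ) : ℂ)‖ ≤ 1 := by
    rw [Complex.norm_real, Real.norm_eq_abs, abs_le]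
    constructor <;> linarith
  calc ‖(∑ k ∈ range (⌊t⌋₊ + 1), f k - swd1_mean q f * ((⌊t⌋₊ + 1 : ℕ) : ℂ))
      - f 0 + swd1_mean q f * (((⌊t⌋₊ + 1 : ℝ) - t : ℝ) : ℂ)‖
      ≤ ‖(∑ k ∈ range (⌊t⌋₊ + 1), f k - swd1_mean q f * ((⌊t⌋₊ + 1 : ℕ) : ℂ))
      - f 0‖ + ‖swd1_mean q f * (((⌊t⌋₊ + 1 : ℝ) - t : ℝ) : ℂ)‖ := norm_add_le _ _
    _ ≤ (2 * q + 1) + 1 * 1 := by
        refine add_le_add ((norm_sub_le _ _).trans
          (add_le_add (swd1_dev q hq f hf h1 _) (h1 0))) ?_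
        rw [norm_mul]
        exact mul_le_mul hm h3 (norm_nonneg _) zero_le_one
    _ ≤ 4 * q := by linarith

private lemma swd1_E_meas (q : ℕ) (f : ℕ → ℂ) : Measurable (swd1_E q f) := by
  unfold swd1_E
  refine Measurable.sub ?_ ?_
  · have h : Measurable (fun n : ℕ => ∑ k ∈ Icc 1 n, f k) := measurable_from_top
    exact h.comp Nat.measurable_floor
  · exact measurable_const.mul Complex.measurable_ofReal

/-! ### the integral -/

private noncomputable def swd1_G (E : ℝ → ℂ) (s : ℂ) : ℂ :=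
  ∫ t in Set.Ioi (1 : ℝ), E t * (t : ℂ) ^ (-(s + 1))

private lemma swd1_int (E : ℝ → ℂ) (hE : Measurable E) (K : ℝ)
    (hK : ∀ t, 1 ≤ t → ‖E t‖ ≤ K) (s : ℂ) (hs : 0 < s.re) :
    MeasureTheory.IntegrableOn (fun t : ℝ => E t * (t : ℂ) ^ (-(s + 1))) (Set.Ioi 1) ∧
    ‖swd1_G E s‖ ≤ K / s.re := by
  have hr : -(s.re + 1) < -1 := by linarith
  have hi := integrableOn_Ioi_rpow_of_lt hr one_pos
  have hb : ∀ t ∈ Set.Ioi (1 : ℝ), ‖E t * (t : ℂ) ^ (-(s + 1))‖ ≤ K * t ^ (-(s.re + 1)) := by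
    intro t ht
    have ht1 : (1 : ℝ) < t := ht
    have ht0 : 0 < t := by linarith
    rw [norm_mul, Complex.norm_cpow_eq_rpow_re_of_pos ht0]
    have : (-(s + 1)).re = -(s.re + 1) := by simp
    rw [this]
    exact mul_le_mul_of_nonneg_right (hK t ht1.le) (Real.rpow_nonneg ht0.le _)
  have hmeas : Measurable (fun t : ℝ => E t * (t : ℂ) ^ (-(s + 1))) := by
    refine hE.mul ?_
    exact Complex.measurable_ofReal.pow_const _
  refine ⟨?_, ?_⟩
  · refine MeasureTheory.Integrable.mono' (hi.const_mul K) hmeas.aestronglyMeasurable ?_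
    exact (MeasureTheory.ae_restrict_iff' measurableSet_Ioi).mpr
      (Filter.Eventually.of_forall fun t ht => hb t ht)
  · unfold swd1_G
    have h1 : ‖∫ t in Set.Ioi (1 : ℝ), E t * (t : ℂ) ^ (-(s + 1))‖
        ≤ ∫ t in Set.Ioi (1 : ℝ), K * t ^ (-(s.re + 1)) := by
      refine MeasureTheory.norm_integral_le_of_norm_le (hi.const_mul K) ?_
      exact (MeasureTheory.ae_restrict_iff' measurableSet_Ioi).mpr
        (Filter.Eventually.of_forall fun t ht => hb t ht)
    refine h1.trans (le_of_eq ?_)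
    rw [MeasureTheory.integral_const_mul, integral_Ioi_rpow_of_lt hr one_pos]
    rw [Real.one_rpow]
    have : -(s.re + 1) + 1 = - s.re := by ring
    rw [this]
    field_simp

private lemma swd1_G_diff (E : ℝ → ℂ) (hE : Measurable E) (K : ℝ)
    (hK : ∀ t, 1 ≤ t → ‖E t‖ ≤ K) (s : ℂ) (hs : 0 < s.re) :
    DifferentiableAt ℂ (swd1_G E) s := by
  have hK0 : 0 ≤ K := (norm_nonneg _).trans (hK 1 le_rfl)
  set F : ℝ → ℂ := (Set.Ioi (1 : ℝ)).indicator E with hF
  have hFm : Measurable F := hE.indicator measurableSet_Ioi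
  have hFb : ∀ t, ‖F t‖ ≤ K := by
    intro t
    rw [hF]
    by_cases ht : t ∈ Set.Ioi (1 : ℝ)
    · rw [Set.indicator_of_mem ht]
      exact hK t (le_of_lt ht)
    · rw [Set.indicator_of_notMem ht, norm_zero]
      exact hK0
  have hG : ∀ z : ℂ, swd1_G E z = mellin F (-z) := by
    intro z
    unfold swd1_G mellin
    have h1 : Set.Ioi (1 : ℝ) ⊆ Set.Ioi 0 := Set.Ioi_subset_Ioi zero_le_one
    rw [← MeasureTheory.integral_indicator measurableSet_Ioi,
      ← MeasureTheory.integral_indicator measurableSet_Ioi]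
    refine MeasureTheory.integral_congr_ae (Filter.Eventually.of_forall fun t => ?_)
    by_cases ht : t ∈ Set.Ioi (1 : ℝ)
    · rw [Set.indicator_of_mem ht, Set.indicator_of_mem (h1 ht), hF, Set.indicator_of_mem ht,
        smul_eq_mul, mul_comm]
      congr 2
      ring
    · rw [Set.indicator_of_notMem ht]
      by_cases ht0 : t ∈ Set.Ioi (0 : ℝ)
      · rw [Set.indicator_of_mem ht0, hF, Set.indicator_of_notMem ht, smul_zero]
      · rw [Set.indicator_of_notMem ht0]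
  have hfun : swd1_G E = fun z => mellin F (-z) := funext hG
  rw [hfun]
  have hloc : MeasureTheory.LocallyIntegrableOn F (Set.Ioi 0) := by
    have h := (MeasureTheory.memLp_top_of_bound (μ := MeasureTheory.volume)
      hFm.aestronglyMeasurable K (Filter.Eventually.of_forall hFb)).locallyIntegrable le_top
    exact h.locallyIntegrableOn _
  have htop : F =O[Filter.atTop] (fun t : ℝ => t ^ (-(0 : ℝ))) := by
    refine Asymptotics.IsBigO.of_bound K (Filter.Eventually.of_forall fun t => ?_)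
    simp only [neg_zero, Real.rpow_zero, norm_one, mul_one]
    exact hFb t
  have hbot : F =O[nhdsWithin 0 (Set.Ioi 0)] (fun t : ℝ => t ^ (-(-(s.re + 1)))) := by
    have : F =ᶠ[nhdsWithin 0 (Set.Ioi 0)] (fun _ => (0 : ℂ)) := by
      have h1 : Set.Iio (1 : ℝ) ∈ nhdsWithin (0 : ℝ) (Set.Ioi 0) :=
        mem_nhdsWithin_of_mem_nhds (Iio_mem_nhds one_pos)
      filter_upwards [h1] with t ht
      rw [hF, Set.indicator_of_notMem]
      simp only [Set.mem_Ioi, not_lt]
      exact le_of_lt ht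
    exact this.trans_isBigO (Asymptotics.isBigO_zero _ _)
  have hd : DifferentiableAt ℂ (mellin F) (-s) := by
    refine mellin_differentiableAt_of_isBigO_rpow hloc htop ?_ hbot ?_
    · simp only [Complex.neg_re]; linarith
    · simp only [Complex.neg_re]; linarith
  exact hd.comp s differentiableAt_id.neg

/-! ### the L-function -/

private noncomputable def swd1_S (q : ℕ) (χ : DirichletCharacter ℂ q) : ℕ → ℂ :=
  fun n => χ (n : ZMod q)

private lemma swd1_S_per (q : ℕ) (χ : DirichletCharacter ℂ q) (k : ℕ) :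
    swd1_S q χ (k + q) = swd1_S q χ k := by
  unfold swd1_S
  push_cast
  rw [ZMod.natCast_self, add_zero]

private lemma swd1_S_norm (q : ℕ) (χ : DirichletCharacter ℂ q) (k : ℕ) :
    ‖swd1_S q χ k‖ ≤ 1 := by
  unfold swd1_S
  exact χ.norm_le_one _

private lemma swd1_rep (q : ℕ) [NeZero q] (χ : DirichletCharacter ℂ q) (s : ℂ) (hs : 1 < s.re) :
    DirichletCharacter.LFunction χ s
      = swd1_mean q (swd1_S q χ) * s / (s - 1) + s * swd1_G (swd1_E q (swd1_S q χ)) s := by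
  have hq : 0 < q := Nat.pos_of_ne_zero (NeZero.ne q)
  rw [DirichletCharacter.LFunction_eq_LSeries χ hs]
  have h0 : (0 : ℝ) < s.re := by linarith
  have hs1 : s - 1 ≠ 0 := by
    intro h
    have := congrArg Complex.re h
    simp at this
    linarith
  have hO : (fun n : ℕ => ∑ k ∈ Icc 1 n, swd1_S q χ k) =O[Filter.atTop]
      fun n : ℕ => (n : ℝ) ^ (1 : ℝ) := by
    refine Asymptotics.IsBigO.of_bound 1 (Filter.Eventually.of_forall fun n => ?_)
    rw [Real.rpow_one, one_mul, Real.norm_natCast]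
    calc ‖∑ k ∈ Icc 1 n, swd1_S q χ k‖ ≤ ∑ k ∈ Icc 1 n, ‖swd1_S q χ k‖ := norm_sum_le _ _
      _ ≤ ∑ k ∈ Icc 1 n, (1 : ℝ) := Finset.sum_le_sum fun k _ => swd1_S_norm q χ k
      _ = n := by simp
  have hsum := DirichletCharacter.LSeriesSummable_of_one_lt_re χ hs
  have h := LSeries_eq_mul_integral (swd1_S q χ) zero_le_one hs hsum hO
  have e1 : (fun n : ℕ => χ (n : ZMod q)) = swd1_S q χ := rfl
  rw [e1, h]
  obtain ⟨hi, -⟩ := swd1_int (swd1_E q (swd1_S q χ)) (swd1_E_meas q _) (4 * q)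
    (fun t ht => swd1_E_le q hq _ (swd1_S_per q χ) (swd1_S_norm q χ) t (by linarith)) s h0
  have hre : (-s).re < -1 := by simp only [Complex.neg_re]; linarith
  have hi2 : MeasureTheory.IntegrableOn (fun t : ℝ => swd1_mean q (swd1_S q χ) * (t : ℂ) ^ (-s))
      (Set.Ioi 1) := (integrableOn_Ioi_cpow_of_lt hre one_pos).const_mul _
  have hsplit : (∫ t in Set.Ioi (1 : ℝ), (∑ k ∈ Icc 1 ⌊t⌋₊, swd1_S q χ k) * (t : ℂ) ^ (-(s + 1)))
      = ∫ t in Set.Ioi (1 : ℝ), (swd1_mean q (swd1_S q χ) * (t : ℂ) ^ (-s)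
        + swd1_E q (swd1_S q χ) t * (t : ℂ) ^ (-(s + 1))) := by
    refine MeasureTheory.setIntegral_congr_fun measurableSet_Ioi fun t ht => ?_
    have ht1 : (1 : ℝ) < t := ht
    have ht0 : (t : ℂ) ≠ 0 := by
      exact_mod_cast (by linarith : t ≠ 0)
    have e2 : (t : ℂ) ^ (-s) = t * (t : ℂ) ^ (-(s + 1)) := by
      have : (-s : ℂ) = 1 + (-(s + 1)) := by ring
      rw [this, Complex.cpow_add _ _ ht0, Complex.cpow_one]
    rw [e2]
    unfold swd1_E
    ring
  rw [hsplit, MeasureTheory.integral_add hi2 hi, MeasureTheory.integral_const_mul,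
    integral_Ioi_cpow_of_lt hre one_pos]
  unfold swd1_G
  rw [Complex.ofReal_one, Complex.one_cpow]
  have e3 : (-s + 1 : ℂ) = -(s - 1) := by ring
  rw [e3]
  have hs1' : -(s - 1) ≠ 0 := neg_ne_zero.mpr hs1
  field_simp

private lemma swd1_halfplane : IsPreconnected {z : ℂ | 0 < z.re} :=
  (convex_halfSpace_re_gt 0).isPreconnected

private lemma swd1_open : IsOpen {z : ℂ | 0 < z.re} :=
  isOpen_lt continuous_const Complex.continuous_re

private lemma swd1_eqon (f g : ℂ → ℂ) (hf : ∀ s : ℂ, 0 < s.re → DifferentiableAt ℂ f s)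
    (hg : ∀ s : ℂ, 0 < s.re → DifferentiableAt ℂ g s) (h : ∀ s : ℂ, 1 < s.re → f s = g s)
    (s : ℂ) (hs : 0 < s.re) : f s = g s := by
  have hf' : AnalyticOnNhd ℂ f {z : ℂ | 0 < z.re} :=
    DifferentiableOn.analyticOnNhd (fun z hz => (hf z hz).differentiableWithinAt) swd1_open
  have hg' : AnalyticOnNhd ℂ g {z : ℂ | 0 < z.re} :=
    DifferentiableOn.analyticOnNhd (fun z hz => (hg z hz).differentiableWithinAt) swd1_open
  have h2 : (2 : ℂ) ∈ {z : ℂ | 0 < z.re} := by simp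
  refine hf'.eqOn_of_preconnected_of_eventuallyEq hg' swd1_halfplane h2 ?_ hs
  have : {z : ℂ | 1 < z.re} ∈ nhds (2 : ℂ) :=
    (isOpen_lt continuous_const Complex.continuous_re).mem_nhds (by simp)
  filter_upwards [this] with z hz
  exact h z hz

private lemma swd1_mean_zero (q : ℕ) [NeZero q] (χ : DirichletCharacter ℂ q) (hχ : χ ≠ 1) :
    swd1_mean q (swd1_S q χ) = 0 := by
  unfold swd1_mean swd1_S
  have h : ∑ k ∈ range q, χ ((k : ℕ) : ZMod q) = ∑ a : ZMod q, χ a := by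
    refine Finset.sum_bij' (fun k _ => ((k : ℕ) : ZMod q)) (fun a _ => a.val) ?_ ?_ ?_ ?_ ?_
    · intro k _; exact mem_univ _
    · intro a _; exact mem_range.mpr (ZMod.val_lt a)
    · intro k hk; exact ZMod.val_cast_of_lt (mem_range.mp hk)
    · intro a _; exact ZMod.natCast_zmod_val a
    · intro k _; rfl
  rw [h, MulChar.sum_eq_zero_of_ne_one hχ, zero_div]

theorem LF_le : ∃ C : ℝ, 1 ≤ C ∧ ∀ (q : ℕ) [NeZero q] (χ : DirichletCharacter ℂ q), χ ≠ 1 →
    ∀ s : ℂ, 1 / 2 ≤ s.re → ‖DirichletCharacter.LFunction χ s‖ ≤ C * q * ‖s‖ := by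
  refine ⟨8, by norm_num, ?_⟩
  intro q _ χ hχ s hs
  have hq : 0 < q := Nat.pos_of_ne_zero (NeZero.ne q)
  have hb : ∀ t : ℝ, 1 ≤ t → ‖swd1_E q (swd1_S q χ) t‖ ≤ 4 * q := fun t ht =>
    swd1_E_le q hq _ (swd1_S_per q χ) (swd1_S_norm q χ) t (by linarith)
  have hs0 : 0 < s.re := by linarith
  have h := swd1_eqon (DirichletCharacter.LFunction χ)
    (fun z => z * swd1_G (swd1_E q (swd1_S q χ)) z)
    (fun z _ => (DirichletCharacter.differentiable_LFunction hχ) z)
    (fun z hz => differentiableAt_id.mul (swd1_G_diff _ (swd1_E_meas q _) (4 * q) hb z hz))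
    (fun z hz => by
      rw [swd1_rep q χ z hz, swd1_mean_zero q χ hχ, zero_mul, zero_div, zero_add]) s hs0
  rw [h]
  simp only [norm_mul]
  have hG := (swd1_int _ (swd1_E_meas q (swd1_S q χ)) (4 * q) hb s hs0).2
  have h4 : (4 * q : ℝ) / s.re ≤ 8 * q := by
    rw [div_le_iff₀ hs0]
    have : (0 : ℝ) ≤ q := Nat.cast_nonneg q
    nlinarith
  calc ‖s‖ * ‖swd1_G (swd1_E q (swd1_S q χ)) s‖ ≤ ‖s‖ * (8 * q) :=
        mul_le_mul_of_nonneg_left (hG.trans h4) (norm_nonneg _)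
    _ = 8 * q * ‖s‖ := by ring

theorem LF1_le : ∃ C : ℝ, 1 ≤ C ∧ ∀ (q : ℕ) [NeZero q], ∀ s : ℂ, 1 / 2 ≤ s.re → s ≠ 1 →
    ‖(s - 1) * DirichletCharacter.LFunction (1 : DirichletCharacter ℂ q) s‖
      ≤ C * q * (1 + ‖s‖) ^ 2 := by
  refine ⟨9, by norm_num, ?_⟩
  intro q _ s hs hs1
  have hq : 0 < q := Nat.pos_of_ne_zero (NeZero.ne q)
  have hq1 : (1 : ℝ) ≤ q := by exact_mod_cast hq
  set f := swd1_S q (1 : DirichletCharacter ℂ q) with hf
  have hb : ∀ t : ℝ, 1 ≤ t → ‖swd1_E q f t‖ ≤ 4 * q := fun t ht =>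
    swd1_E_le q hq _ (swd1_S_per q _) (swd1_S_norm q _) t (by linarith)
  have hs0 : 0 < s.re := by linarith
  have h := swd1_eqon (DirichletCharacter.LFunctionTrivChar₁ q)
    (fun z => swd1_mean q f * z + (z - 1) * (z * swd1_G (swd1_E q f) z))
    (fun z _ => (DirichletCharacter.differentiable_LFunctionTrivChar₁ q) z)
    (fun z hz => (differentiableAt_id.const_mul _).add ((differentiableAt_id.sub_const 1).mul
      (differentiableAt_id.mul (swd1_G_diff _ (swd1_E_meas q _) (4 * q) hb z hz))))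
    (fun z hz => by
      have hz1 : z ≠ 1 := by
        rintro rfl
        simp at hz
      have hz1' : z - 1 ≠ 0 := sub_ne_zero.mpr hz1
      rw [DirichletCharacter.LFunctionTrivChar₁, Function.update_of_ne hz1]
      show (z - 1) * DirichletCharacter.LFunction (1 : DirichletCharacter ℂ q) z = _
      rw [swd1_rep q _ z hz]
      simp only [← hf]
      field_simp) s hs0
  rw [DirichletCharacter.LFunctionTrivChar₁, Function.update_of_ne hs1] at h
  have h' : (s - 1) * DirichletCharacter.LFunction (1 : DirichletCharacter ℂ q) s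
      = swd1_mean q f * s + (s - 1) * (s * swd1_G (swd1_E q f) s) := h
  rw [h']
  have hG := (swd1_int _ (swd1_E_meas q f) (4 * q) hb s hs0).2
  have h4 : (4 * q : ℝ) / s.re ≤ 8 * q := by
    rw [div_le_iff₀ hs0]
    nlinarith
  have hm := swd1_mean_le q hq f (swd1_S_norm q _)
  have hns := norm_nonneg s
  have hs1n : ‖s - 1‖ ≤ 1 + ‖s‖ := by
    calc ‖s - 1‖ ≤ ‖s‖ + ‖(1 : ℂ)‖ := norm_sub_le _ _
      _ = 1 + ‖s‖ := by rw [norm_one, add_comm]
  have hA : ‖(s - 1) * (s * swd1_G (swd1_E q f) s)‖ ≤ (1 + ‖s‖) * (‖s‖ * (8 * q)) := by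
    rw [norm_mul, norm_mul]
    exact mul_le_mul hs1n (mul_le_mul_of_nonneg_left (hG.trans h4) hns)
      (mul_nonneg hns (norm_nonneg _)) (by linarith)
  have hB : ‖swd1_mean q f * s‖ ≤ 1 * ‖s‖ := by
    rw [norm_mul]
    exact mul_le_mul_of_nonneg_right hm hns
  calc ‖swd1_mean q f * s + (s - 1) * (s * swd1_G (swd1_E q f) s)‖
      ≤ 1 * ‖s‖ + (1 + ‖s‖) * (‖s‖ * (8 * q)) := (norm_add_le _ _).trans (add_le_add hB hA)
    _ ≤ 9 * q * (1 + ‖s‖) ^ 2 := by nlinarith [mul_nonneg hns hns, mul_nonneg (sub_nonneg.mpr hq1) hns]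

end Pool.Agent.H91.EHA

end

section

/-!
# Estermann's lemma

`χ1, χ2` real characters mod `N` (possibly imprimitive), `F(s) = L(s,χ0)L(s,χ1)L(s,χ2)L(s,χ1χ2)`,
`λ = (φ(N)/N) L(1,χ1)L(1,χ2)L(1,χ1χ2)`.
(1) For `Re s > 1`, `F(s) = ∑ a(n) n^{-s}` with `a(n) ≥ 0`, `a(1) = 1`.  (For instance
`a = g * (χ2 g)`, `g = χ0 * χ1` (Dirichlet convolution), multiplicative; at prime powers the local factor is
`1/((1-z)(1-χ1(p)z)(1-χ2(p)z)(1-χ1χ2(p)z))`, `χ1(p),χ2(p) ∈ {±1}` for `p ∤ N` (equal to `1` for `p ∣ N`):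
`(1-z)^{-4}` or `(1-z²)^{-2}`.  Or: `log F` has nonnegative coefficients
`Λ(n)/log n (1+χ1(n))(1+χ2(n))` for `(n,N)=1`; whatever is easiest.  Mathlib: `DirichletCharacter.zetaMul`,
`Mathlib/NumberTheory/LSeries/Positivity.lean`.)
(2) `F(s) - λ/(s-1)` is analytic in `Re s ≥ 1/2` (removable singularity,
`DirichletCharacter.LFunctionTrivChar_residue_one`).  Its Taylor series at `2`:
`F(s) - λ/(s-1) = ∑ (b_m - λ)(2-s)^m` for `|s-2| < 3/2`, `b_m = (-1)^m F^{(m)}(2)/m! ≥ 0`, `b_0 ≥ 1`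
(since `1/(s-1) = ∑ (2-s)^m` for `|s-2|<1`).  By Cauchy and SwD1 `|b_m - λ| ≤ C N^4 (2/3)^m`.
(3) For `7/8 < s < 1`, `(2-s) ≤ 9/8`: tail `∑_{m≥M} |b_m-λ|(2-s)^m ≤ 4 C N^4 (3/4)^M ≤ 1/2` for
`M = ⌈(4 log N + C')/log(4/3)⌉`.  Hence `F(s) ≥ λ/(s-1) + b_0 - λ ∑_{m<M}(2-s)^m - 1/2
≥ 1/2 - λ (2-s)^M/(1-s)`, and `(2-s)^M ≤ e^{M(1-s)} ≤ C N^{14(1-s)}`.
(`λ` is real and `≥ 0`: each `L(1,χ)` is a limit of values at real `s>1`, which are `> 0`.)
-/

set_option autoImplicit false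

namespace Pool.Agent.H91.EHA

open Finset ArithmeticFunction DirichletCharacter
open scoped ComplexOrder

/-- the arithmetic function of a character -/
private noncomputable def swd2Af {N : ℕ} (χ : DirichletCharacter ℂ N) : ArithmeticFunction ℂ :=
  toArithmeticFunction (χ ·)

private theorem swd2_conv_nonneg {f g : ArithmeticFunction ℂ} {p : ℕ} (hp : p.Prime)
    (hf : ∀ k, 0 ≤ f (p ^ k)) (hg : ∀ k, 0 ≤ g (p ^ k)) (k : ℕ) : 0 ≤ (f * g) (p ^ k) := by
  rw [ArithmeticFunction.mul_apply]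
  apply Finset.sum_nonneg
  intro x hx
  rw [Nat.mem_divisorsAntidiagonal] at hx
  obtain ⟨i, _, hi⟩ := (Nat.dvd_prime_pow hp).mp (Dvd.intro _ hx.1)
  obtain ⟨j, _, hj⟩ := (Nat.dvd_prime_pow hp).mp (Dvd.intro_left _ hx.1)
  rw [hi, hj]
  exact mul_nonneg (hf i) (hg j)

private theorem swd2_geom_nonneg {f g : ArithmeticFunction ℂ} {p : ℕ} (hp : p.Prime) {e : ℂ}
    (he : e = 1 ∨ e = -1)
    (hf : ∀ k, f (p ^ k) = 1) (hg : ∀ k, g (p ^ k) = e ^ k) (k : ℕ) : 0 ≤ (f * g) (p ^ k) := by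
  have h1 : (f * g) (p ^ k) = ∑ i ∈ range (k + 1), e ^ i := by
    rw [ArithmeticFunction.mul_apply]
    have h2 : ∑ x ∈ (p ^ k).divisorsAntidiagonal, f x.1 * g x.2 =
        ∑ x ∈ (p ^ k).divisorsAntidiagonal, g x.2 := by
      apply Finset.sum_congr rfl
      intro x hx
      rw [Nat.mem_divisorsAntidiagonal] at hx
      obtain ⟨i, _, hi⟩ := (Nat.dvd_prime_pow hp).mp (Dvd.intro _ hx.1)
      rw [hi, hf, one_mul]
    rw [h2, Nat.sum_divisorsAntidiagonal' (f := fun _ y => g y), Nat.sum_divisors_prime_pow hp]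
    exact Finset.sum_congr rfl fun i _ => hg i
  rw [h1]
  rcases he with rfl | rfl
  · apply Finset.sum_nonneg
    intro i _
    rw [one_pow]
    exact zero_le_one
  · rw [neg_one_geom_sum]
    split_ifs
    exacts [le_rfl, zero_le_one]

private theorem swd2Af_pow {N : ℕ} (χ : DirichletCharacter ℂ N) {p : ℕ} (hp : p.Prime) (k : ℕ) :
    swd2Af χ (p ^ k) = χ p ^ k := by
  unfold swd2Af
  rw [← apply_eq_toArithmeticFunction_apply χ (pow_ne_zero k hp.ne_zero)]
  rw [Nat.cast_pow, map_pow]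

/-- the coefficients -/
private noncomputable def swd2A {N : ℕ} (χ1 χ2 : DirichletCharacter ℂ N) : ArithmeticFunction ℂ :=
  (swd2Af (1 : DirichletCharacter ℂ N) * swd2Af χ1) * (swd2Af χ2 * swd2Af (χ1 * χ2))

private theorem swd2A_mult {N : ℕ} (χ1 χ2 : DirichletCharacter ℂ N) :
    (swd2A χ1 χ2).IsMultiplicative :=
  ((isMultiplicative_toArithmeticFunction _).mul (isMultiplicative_toArithmeticFunction _)).mul
    ((isMultiplicative_toArithmeticFunction _).mul (isMultiplicative_toArithmeticFunction _))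

private theorem swd2A_pow_nonneg {N : ℕ} {χ1 χ2 : DirichletCharacter ℂ N} (h1 : χ1 ^ 2 = 1)
    (h2 : χ2 ^ 2 = 1) {p : ℕ} (hp : p.Prime) (k : ℕ) : 0 ≤ swd2A χ1 χ2 (p ^ k) := by
  have hmul : (χ1 * χ2) p = χ1 p * χ2 p := MulChar.mul_apply χ1 χ2 _
  by_cases hu : IsUnit (p : ZMod N)
  · have h0 : (1 : DirichletCharacter ℂ N) p = 1 := MulChar.one_apply hu
    have q1 : χ1 p = 1 ∨ χ1 p = -1 := by
      have h : χ1 p * χ1 p = 1 := by
        rw [← MulChar.mul_apply, ← pow_two, h1, MulChar.one_apply hu]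
      exact mul_self_eq_one_iff.mp h
    have q2 : χ2 p = 1 ∨ χ2 p = -1 := by
      have h : χ2 p * χ2 p = 1 := by
        rw [← MulChar.mul_apply, ← pow_two, h2, MulChar.one_apply hu]
      exact mul_self_eq_one_iff.mp h
    have f0 : ∀ k, swd2Af (1 : DirichletCharacter ℂ N) (p ^ k) = 1 := fun k => by
      rw [swd2Af_pow _ hp, h0, one_pow]
    rcases q2 with e2 | e2
    · -- `χ2 p = 1`
      have f2 : ∀ k, swd2Af χ2 (p ^ k) = 1 := fun k => by rw [swd2Af_pow _ hp, e2, one_pow]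
      exact swd2_conv_nonneg hp (swd2_geom_nonneg hp q1 f0 (fun k => swd2Af_pow _ hp k))
        (swd2_geom_nonneg hp q1 f2 (fun k => by rw [swd2Af_pow _ hp, hmul, e2, mul_one])) k
    · rcases q1 with e1 | e1
      · -- `χ1 p = 1`
        have f1 : ∀ k, swd2Af χ1 (p ^ k) = 1 := fun k => by rw [swd2Af_pow _ hp, e1, one_pow]
        have hre : swd2A χ1 χ2 = (swd2Af (1 : DirichletCharacter ℂ N) * swd2Af χ2) * (swd2Af χ1 * swd2Af (χ1 * χ2)) := by
          unfold swd2A; ring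
        rw [hre]
        exact swd2_conv_nonneg hp (swd2_geom_nonneg hp (Or.inr rfl) f0
          (fun k => by rw [swd2Af_pow _ hp, e2]))
          (swd2_geom_nonneg hp (Or.inr rfl) f1
            (fun k => by rw [swd2Af_pow _ hp, hmul, e1, e2, one_mul])) k
      · have f3 : ∀ k, swd2Af (χ1 * χ2) (p ^ k) = 1 := fun k => by
          rw [swd2Af_pow _ hp, hmul, e1, e2]; norm_num
        have hre : swd2A χ1 χ2 = (swd2Af (1 : DirichletCharacter ℂ N) * swd2Af χ1) * (swd2Af (χ1 * χ2) * swd2Af χ2) := by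
          unfold swd2A; ring
        rw [hre]
        exact swd2_conv_nonneg hp (swd2_geom_nonneg hp (Or.inr rfl) f0
          (fun k => by rw [swd2Af_pow _ hp, e1]))
          (swd2_geom_nonneg hp (Or.inr rfl) f3 (fun k => by rw [swd2Af_pow _ hp, e2])) k
  · have hz : ∀ (χ : DirichletCharacter ℂ N) (k : ℕ), 0 ≤ swd2Af χ (p ^ k) := by
      intro χ k
      rw [swd2Af_pow _ hp, MulChar.map_nonunit χ hu]
      exact pow_nonneg le_rfl k
    exact swd2_conv_nonneg hp (swd2_conv_nonneg hp (hz _) (hz _))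
      (swd2_conv_nonneg hp (hz _) (hz _)) k

private theorem swd2A_nonneg {N : ℕ} {χ1 χ2 : DirichletCharacter ℂ N} (h1 : χ1 ^ 2 = 1)
    (h2 : χ2 ^ 2 = 1) (n : ℕ) : 0 ≤ swd2A χ1 χ2 n := by
  rcases eq_or_ne n 0 with rfl | hn
  · simp only [ArithmeticFunction.map_zero, le_refl]
  · rw [(swd2A_mult χ1 χ2).multiplicative_factorization _ hn]
    exact Finset.prod_nonneg
        fun p hp ↦ swd2A_pow_nonneg h1 h2 (Nat.prime_of_mem_primeFactors hp) _

private theorem swd2_summable {N : ℕ} [NeZero N] (χ : DirichletCharacter ℂ N) {s : ℂ}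
    (hs : 1 < s.re) : LSeriesSummable (swd2Af χ) s := by
  refine (LSeriesSummable_congr _ fun h ↦ (χ.apply_eq_toArithmeticFunction_apply h).symm).mpr <|
      ZMod.LSeriesSummable_of_one_lt_re χ hs

private theorem swd2_LSeries {N : ℕ} [NeZero N] (χ : DirichletCharacter ℂ N) {s : ℂ}
    (hs : 1 < s.re) : LSeries (swd2Af χ) s = LFunction χ s := by
  rw [LFunction_eq_LSeries χ hs]
  exact (LSeries_congr χ.apply_eq_toArithmeticFunction_apply s).symm

private theorem swd2A_summable {N : ℕ} [NeZero N] (χ1 χ2 : DirichletCharacter ℂ N) {s : ℂ}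
    (hs : 1 < s.re) : LSeriesSummable (swd2A χ1 χ2) s := by
  have h1 : LSeriesSummable (fun n => (swd2Af (1 : DirichletCharacter ℂ N) * swd2Af χ1) n) s :=
    ArithmeticFunction.LSeriesSummable_mul (swd2_summable 1 hs) (swd2_summable χ1 hs)
  have h2 : LSeriesSummable (fun n => (swd2Af χ2 * swd2Af (χ1 * χ2)) n) s :=
    ArithmeticFunction.LSeriesSummable_mul (swd2_summable χ2 hs) (swd2_summable (χ1 * χ2) hs)
  exact ArithmeticFunction.LSeriesSummable_mul h1 h2

private theorem swd2A_LSeries {N : ℕ} [NeZero N] (χ1 χ2 : DirichletCharacter ℂ N) {s : ℂ}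
    (hs : 1 < s.re) : LSeries (swd2A χ1 χ2) s =
      LFunction (1 : DirichletCharacter ℂ N) s * LFunction χ1 s * LFunction χ2 s *
          LFunction (χ1 * χ2) s := by
  have e1 : LSeries (swd2A χ1 χ2) s =
      LSeries (fun n => (swd2Af (1 : DirichletCharacter ℂ N) * swd2Af χ1) n) s *
      LSeries (fun n => (swd2Af χ2 * swd2Af (χ1 * χ2)) n) s :=
    ArithmeticFunction.LSeries_mul'
      (ArithmeticFunction.LSeriesSummable_mul (swd2_summable 1 hs) (swd2_summable χ1 hs))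
      (ArithmeticFunction.LSeriesSummable_mul (swd2_summable χ2 hs) (swd2_summable (χ1 * χ2) hs))
  have e2 : LSeries (fun n => (swd2Af (1 : DirichletCharacter ℂ N) * swd2Af χ1) n) s =
      LSeries (swd2Af (1 : DirichletCharacter ℂ N)) s * LSeries (swd2Af χ1) s :=
    ArithmeticFunction.LSeries_mul' (swd2_summable 1 hs) (swd2_summable χ1 hs)
  have e3 : LSeries (fun n => (swd2Af χ2 * swd2Af (χ1 * χ2)) n) s =
      LSeries (swd2Af χ2) s * LSeries (swd2Af (χ1 * χ2)) s :=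
    ArithmeticFunction.LSeries_mul' (swd2_summable χ2 hs) (swd2_summable (χ1 * χ2) hs)
  rw [e1, e2, e3, swd2_LSeries _ hs, swd2_LSeries _ hs, swd2_LSeries _ hs, swd2_LSeries _ hs]
  ring

/-- the purely real part of the argument -/
private theorem swd2_real {r : ℕ → ℝ} {l B t S : ℝ} (hB : 0 ≤ B) (ht1 : 1 < t) (ht2 : t < 9 / 8)
    (hS : HasSum (fun m => r m * t ^ m) S) (hr : ∀ m, |r m| ≤ B * (2 / 3) ^ m)
    (h0 : ∀ m, 0 ≤ r m + l) (h1 : 1 ≤ r 0 + l) {M : ℕ} (hM : 1 ≤ M)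
    (hBM : B * 4 * (3 / 4) ^ M ≤ 1 / 2) :
    1 / 2 - l * (t ^ M / (t - 1)) ≤ S - l / (t - 1) := by
  have hsplit := hS.summable.sum_add_tsum_nat_add M
  rw [hS.tsum_eq] at hsplit
  have ht0 : 0 < t := by linarith
  have htail : |∑' i, r (i + M) * t ^ (i + M)| ≤ 1 / 2 := by
    have hg : HasSum (fun i : ℕ => B * (3 / 4) ^ M * (3 / 4) ^ i) (B * (3 / 4) ^ M * 4) := by
      have h := (hasSum_geometric_of_lt_one (r := (3 / 4 : ℝ)) (by norm_num)
        (by norm_num)).mul_left (B * (3 / 4) ^ M)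
      norm_num at h
      norm_num
      exact h
    have hb : ∀ i, ‖r (i + M) * t ^ (i + M)‖ ≤ B * (3 / 4) ^ M * (3 / 4) ^ i := by
      intro i
      rw [Real.norm_eq_abs, abs_mul, abs_of_nonneg (pow_nonneg ht0.le _)]
      have e1 : t ^ (i + M) ≤ (9 / 8) ^ (i + M) := pow_le_pow_left₀ ht0.le ht2.le _
      calc |r (i + M)| * t ^ (i + M) ≤ B * (2 / 3) ^ (i + M) * (9 / 8) ^ (i + M) :=
            mul_le_mul (hr _) e1 (pow_nonneg ht0.le _) (by positivity)
        _ = B * (3 / 4) ^ M * (3 / 4) ^ i := by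
            rw [mul_assoc, ← mul_pow]
            norm_num
            rw [pow_add]
            ring
    have h := tsum_of_norm_bounded hg hb
    rw [Real.norm_eq_abs] at h
    linarith
  have hgeom : ∑ m ∈ Finset.range M, t ^ m = (t ^ M - 1) / (t - 1) := geom_sum_eq ht1.ne' M
  have hfin : 1 - l * ((t ^ M - 1) / (t - 1)) ≤ ∑ m ∈ Finset.range M, r m * t ^ m := by
    rw [← hgeom]
    have e1 : ∑ m ∈ Finset.range M, r m * t ^ m + l * ∑ m ∈ Finset.range M, t ^ m =
        ∑ m ∈ Finset.range M, (r m + l) * t ^ m := by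
      rw [Finset.mul_sum, ← Finset.sum_add_distrib]
      exact Finset.sum_congr rfl fun m _ => by ring
    have e2 : (r 0 + l) * t ^ 0 ≤ ∑ m ∈ Finset.range M, (r m + l) * t ^ m :=
      Finset.single_le_sum (f := fun m => (r m + l) * t ^ m)
        (fun m _ => mul_nonneg (h0 m) (pow_nonneg ht0.le m)) (Finset.mem_range.mpr (by omega))
    rw [pow_zero, mul_one] at e2
    linarith
  have hlow := (abs_le.mp htail).1
  have htt : 0 < t - 1 := by linarith
  have e3 : l * (t ^ M / (t - 1)) = l * ((t ^ M - 1) / (t - 1)) + l / (t - 1) := by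
    field_simp
    ring
  rw [e3]
  linarith

private theorem swd2_totient (N : ℕ) [NeZero N] :
    (∏ p ∈ N.primeFactors, (1 - (p : ℂ)⁻¹)) = (((N.totient : ℝ) / N : ℝ) : ℂ) := by
  have h := Nat.totient_eq_mul_prod_factors N
  have hN : (N : ℂ) ≠ 0 := by exact_mod_cast NeZero.ne N
  have h2 : ((N.totient : ℚ) : ℂ) = ((N * ∏ p ∈ N.primeFactors, (1 - (p : ℚ)⁻¹) : ℚ) : ℂ) := by
    rw [h]
  push_cast at h2
  push_cast
  rw [h2]
  field_simp

private theorem swd2_iter_inv (m : ℕ) :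
    iteratedDeriv m (fun s : ℂ => (s - 1)⁻¹) 2 = (-1) ^ m * (m.factorial : ℂ) := by
  have h := congrFun (iter_deriv_inv_linear_sub (𝕜 := ℂ) m 1 1) 2
  rw [iteratedDeriv_eq_iterate]
  simp only [one_mul, one_pow, mul_one] at h
  rw [h]
  norm_num

private theorem swd2_ev {N : ℕ} [NeZero N] (χ1 χ2 : DirichletCharacter ℂ N) (s : ℂ) (hs : s ≠ 1) :
    DirichletCharacter.LFunctionTrivChar₁ N s * DirichletCharacter.LFunction χ1 s *
      DirichletCharacter.LFunction χ2 s * DirichletCharacter.LFunction (χ1 * χ2) s =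
    (s - 1) * (DirichletCharacter.LFunction (1 : DirichletCharacter ℂ N) s *
      DirichletCharacter.LFunction χ1 s * DirichletCharacter.LFunction χ2 s *
      DirichletCharacter.LFunction (χ1 * χ2) s) := by
  rw [show DirichletCharacter.LFunctionTrivChar₁ N s =
    (s - 1) * DirichletCharacter.LFunctionTrivChar N s from Function.update_of_ne hs ..]
  ring

private theorem swd2_core {C0 C1 : ℝ} (hC0 : 1 ≤ C0) (hC1 : 1 ≤ C1) {N : ℕ} [NeZero N]
    (hL : ∀ χ : DirichletCharacter ℂ N, χ ≠ 1 →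
      ∀ s : ℂ, 1 / 2 ≤ s.re → ‖DirichletCharacter.LFunction χ s‖ ≤ C1 * N * ‖s‖)
    (hL0 : ∀ s : ℂ, 1 / 2 ≤ s.re → s ≠ 1 →
      ‖(s - 1) * DirichletCharacter.LFunction (1 : DirichletCharacter ℂ N) s‖
      ≤ C0 * N * (1 + ‖s‖) ^ 2)
    (χ1 χ2 : DirichletCharacter ℂ N) (h1 : χ1 ^ 2 = 1) (h2 : χ2 ^ 2 = 1) (n1 : χ1 ≠ 1)
    (n2 : χ2 ≠ 1) (n3 : χ1 * χ2 ≠ 1) {s : ℝ} (hs1 : 7 / 8 < s) (hs2 : s < 1) {M : ℕ} (hM : 1 ≤ M)
    (hBM : 2000 * C0 * C1 ^ 3 * (N : ℝ) ^ 4 * 4 * (3 / 4) ^ M ≤ 1 / 2) :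
    0 ≤ (((N.totient : ℝ) / N) *
        (DirichletCharacter.LFunction χ1 1 * DirichletCharacter.LFunction χ2 1 *
          DirichletCharacter.LFunction (χ1 * χ2) 1).re) ∧
    1 / 2 - (((N.totient : ℝ) / N) *
        (DirichletCharacter.LFunction χ1 1 * DirichletCharacter.LFunction χ2 1 *
          DirichletCharacter.LFunction (χ1 * χ2) 1).re) * ((2 - s) ^ M / (1 - s))
      ≤ (DirichletCharacter.LFunction (1 : DirichletCharacter ℂ N) s *
          DirichletCharacter.LFunction χ1 s * DirichletCharacter.LFunction χ2 s *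
          DirichletCharacter.LFunction (χ1 * χ2) s).re := by
  set W : ℂ → ℂ := fun s => DirichletCharacter.LFunctionTrivChar₁ N s *
    DirichletCharacter.LFunction χ1 s * DirichletCharacter.LFunction χ2 s *
      DirichletCharacter.LFunction (χ1 * χ2) s with hW
  set F : ℂ → ℂ := fun s => DirichletCharacter.LFunction (1 : DirichletCharacter ℂ N) s *
    DirichletCharacter.LFunction χ1 s * DirichletCharacter.LFunction χ2 s *
      DirichletCharacter.LFunction (χ1 * χ2) s with hF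
  have hN1 : (1 : ℝ) ≤ (N : ℝ) := by exact_mod_cast NeZero.one_le
  have hWd : Differentiable ℂ W :=
    (((DirichletCharacter.differentiable_LFunctionTrivChar₁ N).mul
      (DirichletCharacter.differentiable_LFunction n1)).mul
      (DirichletCharacter.differentiable_LFunction n2)).mul
      (DirichletCharacter.differentiable_LFunction n3)
  have hWF : ∀ s : ℂ, s ≠ 1 → W s = (s - 1) * F s := fun s hs => swd2_ev χ1 χ2 s hs
  set lam : ℂ := W 1 with hlam
  have hlam2 : lam = (((N.totient : ℝ) / N : ℝ) : ℂ) *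
      (DirichletCharacter.LFunction χ1 1 * DirichletCharacter.LFunction χ2 1 *
          DirichletCharacter.LFunction (χ1 * χ2) 1) := by
    rw [hlam, hW, ← swd2_totient N]
    simp only [Function.update_self]
    ring
  have hlre : lam.re = (((N.totient : ℝ) / N) *
        (DirichletCharacter.LFunction χ1 1 * DirichletCharacter.LFunction χ2 1 *
          DirichletCharacter.LFunction (χ1 * χ2) 1).re) := by
    rw [hlam2, Complex.re_ofReal_mul]
  rw [← hlre]
  -- the entire function `H`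
  set H : ℂ → ℂ := dslope W 1 with hH
  have hHd : Differentiable ℂ H := by
    rw [← differentiableOn_univ, hH, Complex.differentiableOn_dslope Filter.univ_mem,
      differentiableOn_univ]
    exact hWd
  have hHF : ∀ s : ℂ, s ≠ 1 → H s = F s - lam * (s - 1)⁻¹ := by
    intro s hs
    have hs' : s - 1 ≠ 0 := sub_ne_zero.mpr hs
    rw [hH, dslope_of_ne _ hs, slope_def_field, hWF s hs, ← hlam]
    field_simp
  -- bound on the circle
  set B : ℝ := 2000 * C0 * C1 ^ 3 * (N : ℝ) ^ 4 with hB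
  have hB0 : 0 ≤ B := by positivity
  have hsph : ∀ z ∈ Metric.sphere (2 : ℂ) (3 / 2), ‖H z‖ ≤ B := by
    intro z hz
    rw [mem_sphere_iff_norm] at hz
    have hre : |z.re - 2| ≤ 3 / 2 := by
      have h := Complex.abs_re_le_norm (z - 2)
      rw [hz] at h
      simpa using h
    have hre1 : 1 / 2 ≤ z.re := by have := (abs_le.mp hre).1; linarith
    have hzn : ‖z‖ ≤ 7 / 2 := by
      have h := norm_add_le (z - 2) 2
      rw [hz, sub_add_cancel, Complex.norm_ofNat] at h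
      linarith
    have hz1 : 1 / 2 ≤ ‖z - 1‖ := by
      have h := norm_sub_norm_le (z - 2) (-1)
      rw [hz, norm_neg, norm_one] at h
      have e : z - 2 - -1 = z - 1 := by ring
      rw [e] at h
      linarith
    have hzne : z ≠ 1 := by
      rintro rfl
      norm_num at hz1
    have hz1' : 0 < ‖z - 1‖ := by linarith only [hz1]
    have e0 : ‖(z - 1) * DirichletCharacter.LFunction (1 : DirichletCharacter ℂ N) z‖ ≤
        C0 * N * (9 / 2) ^ 2 := by
      refine (hL0 z hre1 hzne).trans ?_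
      apply mul_le_mul_of_nonneg_left _ (by positivity)
      apply pow_le_pow_left₀ (by positivity)
      linarith only [hzn]
    have e1 : ∀ χ : DirichletCharacter ℂ N, χ ≠ 1 →
        ‖DirichletCharacter.LFunction χ z‖ ≤ C1 * N * (7 / 2) := by
      intro χ hχ
      refine (hL χ hχ z hre1).trans ?_
      apply mul_le_mul_of_nonneg_left hzn (by positivity)
    have e2 : ∀ χ : DirichletCharacter ℂ N, χ ≠ 1 →
        ‖DirichletCharacter.LFunction χ 1‖ ≤ C1 * N := by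
      intro χ hχ
      have h := hL χ hχ 1 (by norm_num)
      rw [norm_one, mul_one] at h
      exact h
    have hWz : ‖W z‖ ≤ C0 * N * (9 / 2) ^ 2 * (C1 * N * (7 / 2)) * (C1 * N * (7 / 2)) *
        (C1 * N * (7 / 2)) := by
      have e : W z = (z - 1) * DirichletCharacter.LFunction (1 : DirichletCharacter ℂ N) z *
        DirichletCharacter.LFunction χ1 z * DirichletCharacter.LFunction χ2 z *
          DirichletCharacter.LFunction (χ1 * χ2) z := by
        rw [hWF z hzne, hF]; ring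
      rw [e, norm_mul, norm_mul, norm_mul]
      gcongr
      · exact e1 χ1 n1
      · exact e1 χ2 n2
      · exact e1 (χ1 * χ2) n3
    have hlamn : ‖lam‖ ≤ (C1 * N) * (C1 * N) * (C1 * N) := by
      rw [hlam2, norm_mul, norm_mul, norm_mul]
      have et : ‖(((N.totient : ℝ) / N : ℝ) : ℂ)‖ ≤ 1 := by
        rw [Complex.norm_real, Real.norm_eq_abs, abs_of_nonneg (by positivity)]
        rw [div_le_one (by linarith only [hN1])]
        exact_mod_cast Nat.totient_le N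
      calc _ ≤ 1 * ((C1 * N) * (C1 * N) * (C1 * N)) := by
            gcongr
            · exact e2 χ1 n1
            · exact e2 χ2 n2
            · exact e2 (χ1 * χ2) n3
        _ = _ := one_mul _
    rw [hH, dslope_of_ne _ hzne, slope_def_field, norm_div, div_le_iff₀ hz1', ← hlam]
    have e3 : ‖W z - lam‖ ≤ ‖W z‖ + ‖lam‖ := norm_sub_le _ _
    have e4 : (C1 * N) * (C1 * N) * (C1 * N) ≤ C0 * C1 ^ 3 * (N : ℝ) ^ 4 := by
      have f1 : (1 : ℝ) ≤ C0 * N := by nlinarith only [hC0, hN1]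
      have f2 : 0 ≤ (C1 * N) * (C1 * N) * (C1 * N) := by positivity
      have f3 : C0 * C1 ^ 3 * (N : ℝ) ^ 4 = (C1 * N) * (C1 * N) * (C1 * N) * (C0 * N) := by ring
      rw [f3]
      exact le_mul_of_one_le_right f2 f1
    have e5 : C0 * N * (9 / 2) ^ 2 * (C1 * N * (7 / 2)) * (C1 * N * (7 / 2)) *
        (C1 * N * (7 / 2)) = 27783 / 32 * (C0 * C1 ^ 3 * (N : ℝ) ^ 4) := by ring
    have e6 : 0 ≤ C0 * C1 ^ 3 * (N : ℝ) ^ 4 := by positivity
    have e7 : B * (1 / 2) ≤ B * ‖z - 1‖ := mul_le_mul_of_nonneg_left hz1 hB0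
    have e8 : B = 2000 * (C0 * C1 ^ 3 * (N : ℝ) ^ 4) := by rw [hB]; ring
    rw [e5] at hWz
    rw [e8] at e7 ⊢
    linarith only [hB0, hWz, hlamn, e3, e4, e7]
  -- derivatives at `2`
  have hder : ∀ m, ‖iteratedDeriv m H 2‖ ≤ m.factorial * B / (3 / 2) ^ m := fun m =>
    Complex.norm_iteratedDeriv_le_of_forall_mem_sphere_norm_le m (by norm_num)
      hHd.diffContOnCl hsph
  have habs : LSeries.abscissaOfAbsConv (swd2A χ1 χ2) < ((2 : ℝ) : EReal) := by
    refine lt_of_le_of_lt (b := ((1 : ℝ) : EReal)) ?_ (by exact_mod_cast one_lt_two)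
    exact LSeries.abscissaOfAbsConv_le_of_forall_lt_LSeriesSummable
      fun y hy => swd2A_summable χ1 χ2 (by simpa using hy)
  have hnonneg : ∀ m : ℕ, 0 ≤ (-1) ^ m * iteratedDeriv m (LSeries (swd2A χ1 χ2)) (2 : ℂ) := by
    intro m
    have h := ArithmeticFunction.iteratedDeriv_LSeries_alternating (swd2A χ1 χ2)
      (swd2A_nonneg h1 h2) habs m
    simpa using h
  have hev : LSeries (swd2A χ1 χ2) =ᶠ[nhds (2 : ℂ)] fun z => H z + lam * (z - 1)⁻¹ := by
    have hopen : IsOpen {z : ℂ | 1 < z.re} := isOpen_lt continuous_const Complex.continuous_re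
    filter_upwards [hopen.mem_nhds (show (2 : ℂ) ∈ {z : ℂ | 1 < z.re} by simp)] with z hz
    have hz' : z ≠ 1 := by
      rintro rfl
      simp at hz
    rw [swd2A_LSeries χ1 χ2 hz, hHF z hz', hF]
    ring
  have hsm : ∀ m : ℕ, iteratedDeriv m (LSeries (swd2A χ1 χ2)) (2 : ℂ) =
      iteratedDeriv m H 2 + lam * ((-1) ^ m * (m.factorial : ℂ)) := by
    intro m
    rw [(hev.iteratedDeriv m).eq_of_nhds]
    have ha : ContDiffAt ℂ m H 2 := (hHd.contDiff).contDiffAt
    have hb' : ContDiffAt ℂ m (fun z : ℂ => (z - 1)⁻¹) 2 := by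
      apply ContDiffAt.inv
      · exact contDiffAt_id.sub contDiffAt_const
      · norm_num
    have hb : ContDiffAt ℂ m (fun z : ℂ => lam * (z - 1)⁻¹) 2 := contDiffAt_const.mul hb'
    rw [iteratedDeriv_fun_add ha hb, iteratedDeriv_const_mul_field, swd2_iter_inv]
  -- the real coefficients
  set r : ℕ → ℝ := fun m => ((-1) ^ m * iteratedDeriv m H 2).re / m.factorial with hr
  have hfac : ∀ m : ℕ, (0 : ℝ) < (m.factorial : ℝ) := fun m => by
    exact_mod_cast Nat.factorial_pos m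
  have hrle : ∀ m, |r m| ≤ B * (2 / 3) ^ m := by
    intro m
    rw [hr]
    simp only
    rw [abs_div, abs_of_pos (hfac m), div_le_iff₀ (hfac m)]
    refine (Complex.abs_re_le_norm _).trans ?_
    rw [norm_mul, norm_pow, norm_neg, norm_one, one_pow, one_mul]
    refine (hder m).trans (le_of_eq ?_)
    rw [div_eq_iff (by positivity)]
    have : ((2 : ℝ) / 3) ^ m * (3 / 2) ^ m = 1 := by
      rw [← mul_pow]; norm_num
    calc (m.factorial : ℝ) * B = B * m.factorial * 1 := by ring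
      _ = B * m.factorial * (((2 : ℝ) / 3) ^ m * (3 / 2) ^ m) := by rw [this]
      _ = _ := by ring
  have hre_eq : ∀ m, ((-1) ^ m * iteratedDeriv m (LSeries (swd2A χ1 χ2)) (2 : ℂ)).re =
      (r m + lam.re) * m.factorial := by
    intro m
    have e : (-1) ^ m * iteratedDeriv m (LSeries (swd2A χ1 χ2)) (2 : ℂ) =
        (-1) ^ m * iteratedDeriv m H 2 + ((m.factorial : ℝ) : ℂ) * lam := by
      rw [hsm m, mul_add]
      have : ((-1 : ℂ)) ^ m * (-1) ^ m = 1 := by
        rw [← mul_pow]; norm_num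
      push_cast
      linear_combination (lam * (m.factorial : ℂ)) * this
    rw [e, Complex.add_re, Complex.re_ofReal_mul, hr]
    simp only
    have := (hfac m).ne'
    field_simp
  have hr0 : ∀ m, 0 ≤ r m + lam.re := by
    intro m
    have h := (Complex.le_def.mp (hnonneg m)).1
    rw [hre_eq m, Complex.zero_re] at h
    exact nonneg_of_mul_nonneg_left h (hfac m)
  have hr1 : 1 ≤ r 0 + lam.re := by
    have h := hre_eq 0
    rw [pow_zero, one_mul, iteratedDeriv_zero, Nat.factorial_zero, Nat.cast_one, mul_one] at h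
    rw [← h]
    have hsum : Summable (fun n => LSeries.term (swd2A χ1 χ2) 2 n) :=
      swd2A_summable χ1 χ2 (s := 2) (by norm_num)
    have h3 := hsum.le_tsum 1 (fun n _ => by
      have := LSeries.term_nonneg (a := fun n => swd2A χ1 χ2 n) (n := n)
        (swd2A_nonneg h1 h2 n) 2
      simpa using this)
    have h4 : LSeries.term (swd2A χ1 χ2) 2 1 = 1 := by
      rw [LSeries.term_of_ne_zero one_ne_zero, (swd2A_mult χ1 χ2).map_one]
      simp
    rw [h4] at h3
    have h5 := (Complex.le_def.mp h3).1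
    rw [Complex.one_re] at h5
    exact h5
  have hl0 : 0 ≤ lam.re := by
    by_contra hneg
    push Not at hneg
    have ht : Filter.Tendsto (fun m : ℕ => B * (2 / 3 : ℝ) ^ m) Filter.atTop (nhds (B * 0)) :=
      (tendsto_pow_atTop_nhds_zero_of_lt_one (by norm_num) (by norm_num)).const_mul B
    rw [mul_zero] at ht
    obtain ⟨m, hm⟩ := (ht.eventually (gt_mem_nhds (show (0 : ℝ) < -lam.re by linarith))).exists
    have := hr0 m
    have h6 := (abs_le.mp (hrle m)).2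
    linarith
  refine ⟨hl0, ?_⟩
  -- the Taylor series at real `s`
  have hsne : (s : ℂ) ≠ 1 := by
    intro h
    have : s = 1 := by exact_mod_cast h
    linarith
  have hS : HasSum (fun m => r m * (2 - s) ^ m) (H s).re := by
    have h := Complex.hasSum_re (Complex.hasSum_taylorSeries_of_entire hHd 2 (s : ℂ))
    have hfun : (fun m => r m * (2 - s) ^ m) = fun m : ℕ =>
        (((m.factorial : ℂ))⁻¹ • ((s : ℂ) - 2) ^ m • iteratedDeriv m H 2).re := by
      funext m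
      have e : (((m.factorial : ℂ))⁻¹ • ((s : ℂ) - 2) ^ m • iteratedDeriv m H 2) =
          (((m.factorial : ℝ)⁻¹ * (2 - s) ^ m : ℝ) : ℂ) * ((-1) ^ m * iteratedDeriv m H 2) := by
        have e' : ((s : ℂ) - 2) ^ m = (-1) ^ m * (2 - (s : ℂ)) ^ m := by
          rw [← mul_pow]; congr 1; ring
        rw [smul_eq_mul, smul_eq_mul, e']
        push_cast
        ring
      rw [e, Complex.re_ofReal_mul, hr]
      simp only
      rw [div_eq_mul_inv]
      ring
    rw [hfun]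
    exact h
  have hmain := swd2_real hB0 (t := 2 - s) (by linarith) (by linarith) hS hrle hr0 hr1 hM hBM
  have e9 : (2 : ℝ) - s - 1 = 1 - s := by ring
  rw [e9] at hmain
  refine hmain.trans (le_of_eq ?_)
  have e10 : F s = H s + lam * ((s : ℂ) - 1)⁻¹ := by rw [hHF s hsne]; ring
  have e11 : ((s : ℂ) - 1)⁻¹ = (((s - 1)⁻¹ : ℝ) : ℂ) := by push_cast; ring
  show (H s).re - lam.re / (1 - s) = (F s).re
  rw [e10, e11, Complex.add_re, Complex.re_mul_ofReal]
  have e12 : (s - 1)⁻¹ = - (1 - s)⁻¹ := by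
    rw [← inv_neg]; congr 1; ring
  rw [e12]
  ring

theorem estermann : ∃ C : ℝ, 1 ≤ C ∧ ∀ (N : ℕ) [NeZero N] (χ1 χ2 : DirichletCharacter ℂ N),
    χ1 ^ 2 = 1 → χ2 ^ 2 = 1 → χ1 ≠ 1 → χ2 ≠ 1 → χ1 * χ2 ≠ 1 → ∀ s : ℝ, 7 / 8 < s → s < 1 →
    1 / 2 - C * (N : ℝ) ^ (C * (1 - s)) / (1 - s) * (((N.totient : ℝ) / N) *
        (DirichletCharacter.LFunction χ1 1 * DirichletCharacter.LFunction χ2 1 *
          DirichletCharacter.LFunction (χ1 * χ2) 1).re)
      ≤ (DirichletCharacter.LFunction (1 : DirichletCharacter ℂ N) s *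
          DirichletCharacter.LFunction χ1 s * DirichletCharacter.LFunction χ2 s *
          DirichletCharacter.LFunction (χ1 * χ2) s).re := by
  obtain ⟨C1, hC1, hL⟩ := LF_le
  obtain ⟨C0, hC0, hL0⟩ := LF1_le
  set K : ℝ := 2000 * C0 * C1 ^ 3 with hK
  have hC13 : (1 : ℝ) ≤ C1 ^ 3 := one_le_pow₀ hC1
  have hK1 : 2000 ≤ K := by
    have h := mul_le_mul hC0 hC13 zero_le_one (by linarith : (0 : ℝ) ≤ C0)
    rw [hK, mul_assoc]
    linarith
  have hEpos := Real.exp_pos (4 * Real.log (8 * K) + 1)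
  refine ⟨16 + Real.exp (4 * Real.log (8 * K) + 1), by linarith, ?_⟩
  intro N _ χ1 χ2 h1 h2 n1 n2 n3 s hs1 hs2
  have hN1 : (1 : ℝ) ≤ (N : ℝ) := by exact_mod_cast NeZero.one_le
  have hN4 : (1 : ℝ) ≤ (N : ℝ) ^ 4 := one_le_pow₀ hN1
  have hKN : 2000 ≤ K * (N : ℝ) ^ 4 := by nlinarith only [hK1, hN4]
  set Y : ℝ := 8 * (K * (N : ℝ) ^ 4) with hY
  have hY1 : 16000 ≤ Y := by rw [hY]; linarith
  have hY0 : 0 < Y := by linarith
  have hlogY : 0 < Real.log Y := Real.log_pos (by linarith)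
  set M : ℕ := ⌈4 * Real.log Y⌉₊ with hMdef
  have hM0 : 4 * Real.log Y ≤ M := Nat.le_ceil _
  have hM2 : (M : ℝ) < 4 * Real.log Y + 1 := Nat.ceil_lt_add_one (by positivity)
  have hM1 : 1 ≤ M := by
    rw [hMdef, Nat.one_le_ceil_iff]
    positivity
  have h43 : (1 : ℝ) / 4 ≤ Real.log (4 / 3) := by
    have h := Real.one_sub_inv_le_log_of_pos (show (0 : ℝ) < 4 / 3 by norm_num)
    norm_num at h ⊢
    linarith
  have hpow : Y ≤ (4 / 3 : ℝ) ^ M := by
    have e1 : (4 / 3 : ℝ) ^ M = Real.exp (M * Real.log (4 / 3)) := by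
      rw [Real.exp_nat_mul, Real.exp_log (by norm_num)]
    have e2 : Real.log Y ≤ M * Real.log (4 / 3) := by nlinarith only [hM0, h43]
    calc Y = Real.exp (Real.log Y) := (Real.exp_log hY0).symm
      _ ≤ Real.exp (M * Real.log (4 / 3)) := Real.exp_le_exp.mpr e2
      _ = _ := e1.symm
  have hBM : 2000 * C0 * C1 ^ 3 * (N : ℝ) ^ 4 * 4 * (3 / 4) ^ M ≤ 1 / 2 := by
    rw [← hK]
    have e1 : (3 / 4 : ℝ) ^ M * (4 / 3) ^ M = 1 := by rw [← mul_pow]; norm_num
    have e2 : 0 < (3 / 4 : ℝ) ^ M := by positivity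
    have e3 : (3 / 4 : ℝ) ^ M * Y ≤ 1 := by
      rw [← e1]; exact mul_le_mul_of_nonneg_left hpow e2.le
    rw [hY] at e3
    nlinarith only [e3]
  obtain ⟨hl0, hmain⟩ := swd2_core hC0 hC1 (hL N) (hL0 N) χ1 χ2 h1 h2 n1 n2 n3 hs1 hs2 hM1 hBM
  refine le_trans ?_ hmain
  set l : ℝ := (((N.totient : ℝ) / N) *
        (DirichletCharacter.LFunction χ1 1 * DirichletCharacter.LFunction χ2 1 *
          DirichletCharacter.LFunction (χ1 * χ2) 1).re) with hl
  have h1s : 0 < 1 - s := by linarith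
  set C : ℝ := 16 + Real.exp (4 * Real.log (8 * K) + 1) with hC
  have hCbig : (2 - s) ^ M ≤ C * (N : ℝ) ^ (C * (1 - s)) := by
    have e1 : (2 - s) ≤ Real.exp (1 - s) := by
      have := Real.add_one_le_exp (1 - s)
      linarith
    have e2 : (2 - s) ^ M ≤ Real.exp (M * (1 - s)) := by
      rw [Real.exp_nat_mul]
      exact pow_le_pow_left₀ (by linarith) e1 M
    have e3 : (M : ℝ) * (1 - s) ≤ (4 * Real.log (8 * K) + 1) + Real.log N * (16 * (1 - s)) := by
      have f1 : Real.log Y = Real.log (8 * K) + 4 * Real.log N := by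
        rw [hY, ← mul_assoc, Real.log_mul (by positivity) (by positivity), Real.log_pow]
        push_cast
        ring
      have f2 : 0 ≤ Real.log N := Real.log_nonneg hN1
      have f3 : 0 ≤ Real.log (8 * K) := Real.log_nonneg (by linarith)
      have f4 : (M : ℝ) * (1 - s) ≤ (4 * Real.log Y + 1) * (1 - s) :=
        mul_le_mul_of_nonneg_right hM2.le h1s.le
      rw [f1] at f4
      have f5 : (4 * Real.log (8 * K) + 1) * (1 - s) ≤ (4 * Real.log (8 * K) + 1) * 1 :=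
        mul_le_mul_of_nonneg_left (by linarith only [hs1]) (by linarith)
      nlinarith only [f4, f5]
    have e4 : Real.exp (M * (1 - s)) ≤
        Real.exp (4 * Real.log (8 * K) + 1) * (N : ℝ) ^ (16 * (1 - s)) := by
      rw [Real.rpow_def_of_pos (by linarith), ← Real.exp_add]
      exact Real.exp_le_exp.mpr e3
    have e5 : (N : ℝ) ^ (16 * (1 - s)) ≤ (N : ℝ) ^ (C * (1 - s)) := by
      apply Real.rpow_le_rpow_of_exponent_le hN1
      apply mul_le_mul_of_nonneg_right _ h1s.le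
      linarith
    have e6 : 0 ≤ (N : ℝ) ^ (16 * (1 - s)) := by positivity
    calc (2 - s) ^ M ≤ Real.exp (4 * Real.log (8 * K) + 1) * (N : ℝ) ^ (16 * (1 - s)) :=
          e2.trans e4
      _ ≤ C * (N : ℝ) ^ (C * (1 - s)) := by
          apply mul_le_mul _ e5 e6 (by linarith)
          linarith
  have e7 : l * ((2 - s) ^ M / (1 - s)) ≤ C * (N : ℝ) ^ (C * (1 - s)) / (1 - s) * l := by
    rw [mul_comm]
    apply mul_le_mul_of_nonneg_right _ hl0
    exact div_le_div_of_nonneg_right hCbig h1s.le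
  linarith only [e7]

end Pool.Agent.H91.EHA

end

section

/-!
# Mrt: the upper bound of Mertens for the sum of the reciprocals of the primes, elementary
-/

set_option autoImplicit false

namespace Pool.Agent.H43.MP

open Finset

private theorem mrt_log {n : ℕ} (hn : 1 ≤ n) :
    ∑ p ∈ (Icc 1 n).filter Nat.Prime, Real.log p / p ≤ Real.log n + Real.log 4 := by
  have hn0 : (0 : ℝ) < n := by exact_mod_cast hn
  have h1 : ∑ k ∈ Ioc 0 n, Real.log k = ∑ d ∈ Ioc 0 n, ArithmeticFunction.vonMangoldt d * ((n / d : ℕ) : ℝ) := by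
    rw [← ArithmeticFunction.sum_Ioc_mul_zeta_eq_sum, ArithmeticFunction.vonMangoldt_mul_zeta]
    rfl
  have h2 : ∑ k ∈ Ioc 0 n, Real.log (k : ℝ) ≤ n * Real.log n := by
    calc ∑ k ∈ Ioc 0 n, Real.log (k : ℝ) ≤ ∑ _k ∈ Ioc 0 n, Real.log n := by
          refine sum_le_sum fun k hk => ?_
          rw [mem_Ioc] at hk
          exact Real.log_le_log (by exact_mod_cast hk.1) (by exact_mod_cast hk.2)
      _ = n * Real.log n := by
          rw [sum_const, Nat.card_Ioc, nsmul_eq_mul]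
          simp
  have h3 : ∑ p ∈ (Icc 1 n).filter Nat.Prime, Real.log p ≤ Real.log 4 * n := by
    have h := Chebyshev.theta_le_log4_mul_x (x := (n : ℝ)) (by positivity)
    unfold Chebyshev.theta at h
    rw [Nat.floor_natCast] at h
    refine le_trans (le_of_eq ?_) h
    refine sum_congr ?_ fun _ _ => rfl
    ext p
    simp only [mem_filter, mem_Icc, mem_Ioc]
    constructor
    · rintro ⟨⟨a, b⟩, c⟩
      exact ⟨⟨by omega, b⟩, c⟩
    · rintro ⟨⟨a, b⟩, c⟩
      exact ⟨⟨by omega, b⟩, c⟩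
  have h4 : n * ∑ p ∈ (Icc 1 n).filter Nat.Prime, Real.log p / p ≤
      ∑ d ∈ Ioc 0 n, ArithmeticFunction.vonMangoldt d * ((n / d : ℕ) : ℝ) +
        ∑ p ∈ (Icc 1 n).filter Nat.Prime, Real.log p := by
    have h5 : ∑ p ∈ (Icc 1 n).filter Nat.Prime, ArithmeticFunction.vonMangoldt p * ((n / p : ℕ) : ℝ) ≤
        ∑ d ∈ Ioc 0 n, ArithmeticFunction.vonMangoldt d * ((n / d : ℕ) : ℝ) := by
      refine sum_le_sum_of_subset_of_nonneg ?_ fun d _ _ =>
        mul_nonneg ArithmeticFunction.vonMangoldt_nonneg (Nat.cast_nonneg _)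
      intro p hp
      simp only [mem_filter, mem_Icc] at hp
      rw [mem_Ioc]
      omega
    refine le_trans ?_ (add_le_add_left h5 _)
    rw [mul_sum, ← sum_add_distrib]
    refine sum_le_sum fun p hp => ?_
    rw [mem_filter, mem_Icc] at hp
    have hp0 : (0 : ℝ) < p := by exact_mod_cast hp.1.1
    rw [ArithmeticFunction.vonMangoldt_apply_prime hp.2]
    have hlp : 0 ≤ Real.log p := Real.log_nonneg (by exact_mod_cast hp.1.1)
    have h6 : (n : ℝ) / p ≤ ((n / p : ℕ) : ℝ) + 1 := by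
      rw [div_le_iff₀ hp0]
      have h7 : n < (n / p + 1) * p := by
        have := Nat.lt_div_mul_add (a := n) (b := p) hp.1.1
        rw [add_mul, one_mul]
        exact this
      exact_mod_cast h7.le
    calc (n : ℝ) * (Real.log p / p) = Real.log p * (n / p) := by ring
      _ ≤ Real.log p * (((n / p : ℕ) : ℝ) + 1) := mul_le_mul_of_nonneg_left h6 hlp
      _ = Real.log p * ((n / p : ℕ) : ℝ) + Real.log p := by ring
  rw [← h1] at h4
  have h8 : n * ∑ p ∈ (Icc 1 n).filter Nat.Prime, Real.log p / p ≤ n * (Real.log n + Real.log 4) := by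
    linarith
  exact le_of_mul_le_mul_left h8 hn0

private theorem mrt_step (y : ℕ) (hy : 2 ≤ y) :
    ∑ p ∈ (Icc 1 y).filter Nat.Prime, (1 : ℝ) / p -
      (∑ p ∈ (Icc 1 y).filter Nat.Prime, Real.log p / p - Real.log y - Real.log 4) / Real.log y ≤
      Real.log (Real.log y) + (2 + Real.log 4 / Real.log 2 - Real.log (Real.log 2)) := by
  have hl2 : 0 < Real.log 2 := Real.log_pos (by norm_num)
  induction y, hy using Nat.le_induction with
  | base =>
    have e : (Icc 1 2).filter Nat.Prime = {2} := by decide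
    rw [e, sum_singleton, sum_singleton]
    push_cast
    have h1 : (1 : ℝ) / 2 - (Real.log 2 / 2 - Real.log 2 - Real.log 4) / Real.log 2 =
        1 + Real.log 4 / Real.log 2 := by
      field_simp
      ring
    rw [h1]
    linarith
  | succ y hy ih =>
    have hL : 0 < Real.log y := Real.log_pos (by exact_mod_cast (by omega : 1 < y))
    have hLL : Real.log y ≤ Real.log ((y + 1 : ℕ) : ℝ) :=
      Real.log_le_log (by exact_mod_cast (by omega : 0 < y)) (by exact_mod_cast (by omega))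
    have hA := mrt_log (n := y) (by omega)
    obtain ⟨L, hLd⟩ : ∃ L, L = Real.log y := ⟨_, rfl⟩
    obtain ⟨M, hMd⟩ : ∃ M, M = Real.log ((y + 1 : ℕ) : ℝ) := ⟨_, rfl⟩
    obtain ⟨A, hAd⟩ : ∃ A, A = ∑ p ∈ (Icc 1 y).filter Nat.Prime, Real.log p / p := ⟨_, rfl⟩
    obtain ⟨S, hSd⟩ : ∃ S, S = ∑ p ∈ (Icc 1 y).filter Nat.Prime, (1 : ℝ) / p := ⟨_, rfl⟩
    rw [← hLd, ← hAd, ← hSd] at ih
    rw [← hLd] at hL
    rw [← hLd, ← hMd] at hLL
    rw [← hLd, ← hAd] at hA
    have hM : 0 < M := lt_of_lt_of_le hL hLL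
    have hlog : 1 - L / M ≤ Real.log M - Real.log L := by
      have h := Real.one_sub_inv_le_log_of_pos (div_pos hM hL)
      rw [Real.log_div hM.ne' hL.ne', inv_div] at h
      exact h
    have key : (A - Real.log 4) * (1 / L - 1 / M) ≤ 1 - L / M := by
      have h1 : 0 ≤ 1 / L - 1 / M := sub_nonneg.2 (one_div_le_one_div_of_le hL hLL)
      calc (A - Real.log 4) * (1 / L - 1 / M) ≤ L * (1 / L - 1 / M) :=
            mul_le_mul_of_nonneg_right (by linarith) h1
        _ = 1 - L / M := by field_simp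
    have hfin : ∀ S' A' : ℝ, (S' - (A' - M - Real.log 4) / M) =
        (S - (A - L - Real.log 4) / L) + (A - Real.log 4) * (1 / L - 1 / M) →
        S' - (A' - M - Real.log 4) / M ≤
          Real.log M + (2 + Real.log 4 / Real.log 2 - Real.log (Real.log 2)) := by
      intro S' A' h
      rw [h]
      linarith
    rw [← hMd]
    apply hfin
    have hins : Icc 1 y.succ = insert y.succ (Icc 1 y) := by
      ext k
      rw [mem_insert, mem_Icc, mem_Icc]
      omega
    rw [← Nat.succ_eq_add_one, hins, Finset.filter_insert]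
    have hni : y.succ ∉ (Icc 1 y).filter Nat.Prime := by
      rw [mem_filter, mem_Icc]
      omega
    by_cases hp : y.succ.Prime
    · rw [if_pos hp, sum_insert hni, sum_insert hni, ← hAd, ← hSd]
      rw [Nat.succ_eq_add_one, ← hMd]
      have hy0 : ((y + 1 : ℕ) : ℝ) ≠ 0 := by positivity
      field_simp
      ring
    · rw [if_neg hp, ← hAd, ← hSd]
      field_simp
      ring

theorem mrt_upper : ∃ C : ℝ, 0 < C ∧ ∀ y : ℕ, 2 ≤ y →
    ∑ p ∈ (Icc 1 y).filter Nat.Prime, (1 : ℝ) / p ≤ Real.log (Real.log y) + C := by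
  have hl2 : 0 < Real.log 2 := Real.log_pos (by norm_num)
  have hl4 : 0 < Real.log 4 := Real.log_pos (by norm_num)
  have hll : Real.log (Real.log 2) ≤ 0 := by
    refine Real.log_nonpos hl2.le ?_
    have := Real.log_two_lt_d9
    linarith
  refine ⟨2 + Real.log 4 / Real.log 2 - Real.log (Real.log 2), ?_, fun y hy => ?_⟩
  · have : 0 < Real.log 4 / Real.log 2 := div_pos hl4 hl2
    linarith
  · have h1 := mrt_step y hy
    have hL : 0 < Real.log y := Real.log_pos (by exact_mod_cast (by omega : 1 < y))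
    have h2 := mrt_log (n := y) (by omega)
    have h3 : (∑ p ∈ (Icc 1 y).filter Nat.Prime, Real.log p / p - Real.log y - Real.log 4) / Real.log y ≤ 0 :=
      div_nonpos_of_nonpos_of_nonneg (by linarith) hL.le
    linarith

end Pool.Agent.H43.MP

end

section

/-!
The logarithmic weights of Richert combined with the sieve of `GoldChain`.
-/

namespace Pool.Agent.H91.Gold

open Finset

/-- The primes in the interval `(x, y]`. -/
def Pr (x y : ℕ) : Finset ℕ := (Ioc x y).filter Nat.Prime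

end Pool.Agent.H91.Gold

end

section

/-!
# VK Fou: counting with exponential sums on a finite grid

Proofs.  `fs_orth`: the sum is the product over `j` of the geometric sums `∑_{a < Q} ee(a v_j / Q)` (`Finset.prod_univ_sum`), each is `Q` if
`Q ∣ v_j`, else `0`.
`fs_count`: expand the right side, `fs_orth` for `v = φ x - ψ y - h`; by `hb` divisibility of `v_j` by `Q` means `v_j = 0`.
`fs_pow`: `FS` of the power set with `∑ pv` is the product (`Finset.prod_univ_sum` / `Fintype.piFinset`), `pv` of `u : Fin s → ℕ` is the sum of the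
values of the single coordinates.
`shift_le`: Cauchy's inequality (either with `fs_count`, `Q` large, or directly: with `r(v) = #{x ∈ X : φ x = v}` the left side is `∑ r(v) r(v - h)`).
`sc_class`: `SC` is `(1/Q^k) ∑_α |FS W φ|^2 |f|^{2s}`, `f = FS A`, `f = ∑_{b < p} f_b`; Hölder (`inner_le_nnorm_mul_nnorm` or
`Real.pow_arith_mean_le_arith_mean_pow`, Mathlib `inner_mul_le_norm_mul_norm`, `Finset.sum_pow_le ...`): `|∑_b f_b|^{2s} ≤ p^{2s-1} ∑_b |f_b|^{2s}`.
(`W` and `A` are finite, so some `Q` satisfies the bounds needed in `fs_count`.)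
`jv_mono`, `jv_two`: `JV k (s + r) M ≤ M^{2r} JV k s M` (`|f| ≤ M`, or fix the last `r` coordinates of both tuples and use `shift_le`).
-/

set_option autoImplicit false

namespace Pool.Agent.H97.VK

open Finset
open Pool.Agent.H91.PK (ee)

private theorem ee_add' (s t : ℝ) : ee (s + t) = ee s * ee t :=
  Pool.Agent.H91.PK.LSa_ee_add s t

private theorem ee_zero' : ee 0 = 1 := by
  simp [ee]

private theorem ee_sum' {ι : Type*} (s : Finset ι) (f : ι → ℝ) :
    ee (∑ i ∈ s, f i) = ∏ i ∈ s, ee (f i) := by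
  classical
  induction s using Finset.induction_on with
  | empty => simp [ee_zero']
  | insert a s ha ih => rw [sum_insert ha, prod_insert ha, ee_add', ih]

private theorem ee_nsmul' (n : ℕ) (t : ℝ) : ee ((n : ℝ) * t) = ee t ^ n := by
  induction n with
  | zero => simp [ee_zero']
  | succ n ih => rw [pow_succ, ← ih, ← ee_add']; congr 1; push_cast; ring

private theorem ee_eq_one_iff' (t : ℝ) : ee t = 1 ↔ ∃ n : ℤ, t = n := by
  unfold ee
  rw [Complex.exp_eq_one_iff]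
  constructor
  · rintro ⟨n, hn⟩
    refine ⟨n, ?_⟩
    have h2 : (2 * (Real.pi : ℂ) * Complex.I) ≠ 0 := by
      simp [Real.pi_ne_zero, Complex.I_ne_zero]
    have h3 : (t : ℂ) * (2 * (Real.pi : ℂ) * Complex.I) = n * (2 * (Real.pi : ℂ) * Complex.I) := by
      rw [← hn]; ring
    have h4 := mul_right_cancel₀ h2 h3
    exact_mod_cast h4
  · rintro ⟨n, rfl⟩
    exact ⟨n, by push_cast; ring⟩

private theorem geom' (Q : ℕ) (hQ : 1 ≤ Q) (v : ℤ) :
    ∑ a ∈ range Q, ee ((a : ℝ) * (v : ℝ) / Q) = if (Q : ℤ) ∣ v then (Q : ℂ) else 0 := by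
  have hQ0 : (Q : ℝ) ≠ 0 := by positivity
  have h1 : ∀ a : ℕ, ee ((a : ℝ) * (v : ℝ) / Q) = ee ((v : ℝ) / Q) ^ a := by
    intro a
    rw [← ee_nsmul']
    congr 1
    ring
  simp_rw [h1]
  by_cases hd : (Q : ℤ) ∣ v
  · rw [if_pos hd]
    obtain ⟨m, rfl⟩ := hd
    have : ee ((((Q : ℤ) * m : ℤ) : ℝ) / Q) = 1 := by
      rw [ee_eq_one_iff']
      refine ⟨m, ?_⟩
      push_cast
      field_simp
    rw [this]
    simp
  · rw [if_neg hd]
    have hne : ee ((v : ℝ) / Q) ≠ 1 := by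
      rw [Ne, ee_eq_one_iff']
      rintro ⟨n, hn⟩
      apply hd
      refine ⟨n, ?_⟩
      rw [div_eq_iff hQ0] at hn
      have : (v : ℝ) = ((Q * n : ℤ) : ℝ) := by rw [hn]; push_cast; ring
      exact_mod_cast this
    have h3 := geom_sum_mul (ee ((v : ℝ) / Q)) Q
    have h4 : ee ((v : ℝ) / Q) ^ Q = 1 := by
      rw [← ee_nsmul', ee_eq_one_iff']
      exact ⟨v, by field_simp⟩
    rw [h4, sub_self] at h3
    rcases mul_eq_zero.1 h3 with h | h
    · exact h
    · exact absurd (sub_eq_zero.1 h) hne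

theorem fs_orth (k Q : ℕ) (hQ : 1 ≤ Q) (v : Fin k → ℤ) :
    ∑ α ∈ grid k Q, ee ((∑ j, (α j : ℝ) * (v j : ℝ)) / Q) = if ∀ j, (Q : ℤ) ∣ v j then ((Q : ℂ) ^ k) else 0 := by
  have h1 : ∀ α : Fin k → ℕ, ee ((∑ j, (α j : ℝ) * (v j : ℝ)) / Q) =
      ∏ j, ee ((α j : ℝ) * (v j : ℝ) / Q) := by
    intro α
    rw [sum_div, ee_sum']
  simp_rw [h1]
  unfold grid
  rw [← Finset.prod_univ_sum (fun _ => range Q) (fun (j : Fin k) (a : ℕ) => ee ((a : ℝ) * (v j : ℝ) / Q))]
  simp_rw [geom' Q hQ]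
  by_cases hd : ∀ j, (Q : ℤ) ∣ v j
  · rw [if_pos hd]
    rw [prod_congr rfl (fun j _ => if_pos (hd j))]
    simp
  · rw [if_neg hd]
    push Not at hd
    obtain ⟨j, hj⟩ := hd
    exact prod_eq_zero (mem_univ j) (if_neg hj)

theorem fs_count {ι κ : Type} {k : ℕ} (X : Finset ι) (Y : Finset κ) (φ : ι → Fin k → ℤ)
    (ψ : κ → Fin k → ℤ) (h : Fin k → ℤ) (Q : ℕ) (hQ : 1 ≤ Q)
    (hb : ∀ x ∈ X, ∀ y ∈ Y, ∀ j, |φ x j - ψ y j - h j| < Q) :
    ((((X ×ˢ Y).filter (fun w => ∀ j, φ w.1 j = ψ w.2 j + h j)).card : ℕ) : ℂ) =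
      (1 / (Q : ℂ) ^ k) * ∑ α ∈ grid k Q, FS X φ Q α * (starRingEnd ℂ) (FS Y ψ Q α) *
        ee (-(∑ j, (α j : ℝ) * (h j : ℝ)) / Q) := by
  have hQ0 : (Q : ℂ) ^ k ≠ 0 := by
    apply pow_ne_zero
    have : (Q : ℂ) ≠ 0 := by exact_mod_cast (by omega : Q ≠ 0)
    exact this
  have key : ∀ α : Fin k → ℕ, FS X φ Q α * (starRingEnd ℂ) (FS Y ψ Q α) *
        ee (-(∑ j, (α j : ℝ) * (h j : ℝ)) / Q) =
      ∑ w ∈ X ×ˢ Y, ee ((∑ j, (α j : ℝ) * (((φ w.1 j - ψ w.2 j - h j : ℤ)) : ℝ)) / Q) := by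
    intro α
    unfold FS
    rw [map_sum, sum_mul_sum, ← sum_product', sum_mul]
    apply sum_congr rfl
    intro w _
    rw [Pool.Agent.H91.PK.LSa_conj_ee, ← ee_add', ← ee_add']
    congr 1
    rw [← neg_div, ← add_div, ← add_div]
    congr 1
    rw [← sum_neg_distrib, ← sum_neg_distrib, ← sum_add_distrib, ← sum_add_distrib]
    apply sum_congr rfl
    intro j _
    push_cast
    ring
  simp_rw [key]
  rw [sum_comm]
  simp_rw [fs_orth k Q hQ]
  rw [card_filter]
  push_cast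
  rw [mul_sum]
  apply sum_congr rfl
  intro w hw
  rw [mem_product] at hw
  have hiff : (∀ j, (Q : ℤ) ∣ φ w.1 j - ψ w.2 j - h j) ↔ (∀ j, φ w.1 j = ψ w.2 j + h j) := by
    constructor
    · intro hd j
      have h1 := Int.eq_zero_of_abs_lt_dvd (hd j) (hb w.1 hw.1 w.2 hw.2 j)
      omega
    · intro he j
      have : φ w.1 j - ψ w.2 j - h j = 0 := by rw [he j]; ring
      rw [this]
      exact dvd_zero _
  by_cases hc : ∀ j, φ w.1 j = ψ w.2 j + h j
  · rw [if_pos hc, if_pos (hiff.2 hc)]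
    field_simp
  · rw [if_neg hc, if_neg (fun h => hc (hiff.1 h))]
    simp

theorem fs_pow (k s Q : ℕ) (A : Finset ℕ) (α : Fin k → ℕ) :
    FS (Fintype.piFinset (fun _ : Fin s => A)) (pv k) Q α =
      (∑ n ∈ A, ee ((∑ j : Fin k, (α j : ℝ) * (n : ℝ) ^ ((j : ℕ) + 1)) / Q)) ^ s := by
  unfold FS
  have h1 : ∀ x : Fin s → ℕ, ee ((∑ j, (α j : ℝ) * ((pv k x j : ℤ) : ℝ)) / Q) =
      ∏ i, ee ((∑ j : Fin k, (α j : ℝ) * (x i : ℝ) ^ ((j : ℕ) + 1)) / Q) := by
    intro x
    rw [← ee_sum']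
    congr 1
    rw [← sum_div]
    congr 1
    rw [sum_comm]
    apply sum_congr rfl
    intro j _
    rw [← mul_sum]
    congr 1
    unfold pv
    push_cast
    rfl
  simp_rw [h1]
  rw [← Finset.prod_univ_sum (fun _ : Fin s => A) (fun (_ : Fin s) (n : ℕ) =>
    ee ((∑ j : Fin k, (α j : ℝ) * (n : ℝ) ^ ((j : ℕ) + 1)) / Q))]
  simp

theorem shift_le {ι : Type} {k : ℕ} (X : Finset ι) (φ : ι → Fin k → ℤ) (h : Fin k → ℤ) :
    ((X ×ˢ X).filter (fun w => ∀ j, φ w.1 j = φ w.2 j + h j)).card ≤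
      ((X ×ˢ X).filter (fun w => ∀ j, φ w.1 j = φ w.2 j)).card := by
  classical
  -- r(v) = # {x ∈ X : φ x = v}
  set r : (Fin k → ℤ) → ℕ := fun v => (X.filter (fun x => φ x = v)).card with hr
  set V : Finset (Fin k → ℤ) := X.image φ ∪ X.image (fun x => φ x + h) with hV
  have hsum : ∀ g : Fin k → ℤ, (∀ x ∈ X, φ x + g ∈ V) →
      ((X ×ˢ X).filter (fun w => ∀ j, φ w.1 j = φ w.2 j + g j)).card =
        ∑ v ∈ V, r v * r (v - g) := by
    intro g hg
    rw [card_eq_sum_card_fiberwise (f := fun w => φ w.2 + g) (t := V)]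
    · apply sum_congr rfl
      intro v _
      rw [hr]
      simp only
      rw [← card_product]
      congr 1
      ext w
      simp only [mem_filter, mem_product]
      constructor
      · rintro ⟨⟨⟨h1, h2⟩, h3⟩, h4⟩
        refine ⟨⟨h1, ?_⟩, h2, ?_⟩
        · rw [← h4]; funext j; exact h3 j
        · rw [← h4]; simp
      · rintro ⟨⟨h1, h2⟩, h3, h4⟩
        refine ⟨⟨⟨h1, h3⟩, ?_⟩, ?_⟩
        · intro j
          rw [h2, h4]; simp
        · rw [h4]; simp
    · intro w hw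
      rw [mem_coe, mem_filter, mem_product] at hw
      exact hg _ hw.1.2
  have e1 := hsum h (fun x hx => by
    rw [hV, mem_union]; right; exact mem_image.2 ⟨x, hx, rfl⟩)
  have e0 := hsum 0 (fun x hx => by
    rw [hV, mem_union, add_zero]; left; exact mem_image.2 ⟨x, hx, rfl⟩)
  have e0' : ((X ×ˢ X).filter (fun w => ∀ j, φ w.1 j = φ w.2 j)).card =
        ∑ v ∈ V, r v * r v := by
    simpa using e0
  rw [e1, e0']
  have hshift : ∑ v ∈ V, r (v - h) ^ 2 ≤ ∑ v ∈ V, r v ^ 2 := by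
    -- support of r is image φ
    have hs : ∀ v, r v ≠ 0 → v ∈ X.image φ := by
      intro v hv
      rw [hr] at hv
      simp only at hv
      obtain ⟨x, hx⟩ := card_pos.1 (Nat.pos_of_ne_zero hv)
      rw [mem_filter] at hx
      exact mem_image.2 ⟨x, hx.1, hx.2⟩
    calc ∑ v ∈ V, r (v - h) ^ 2 = ∑ v ∈ V.filter (fun v => r (v - h) ≠ 0), r (v - h) ^ 2 := by
          rw [sum_filter_of_ne]
          intro v _ hv hv'
          apply hv
          rw [hv']; simp
      _ = ∑ u ∈ (V.filter (fun v => r (v - h) ≠ 0)).image (fun v => v - h), r u ^ 2 := by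
          rw [sum_image]
          intro a _ b _ hab
          simpa using hab
      _ ≤ ∑ v ∈ V, r v ^ 2 := by
          apply sum_le_sum_of_subset
          intro u hu
          rw [mem_image] at hu
          obtain ⟨v, hv, rfl⟩ := hu
          rw [mem_filter] at hv
          rw [hV, mem_union]
          left
          exact hs _ hv.2
  have hcs : 2 * ∑ v ∈ V, r v * r (v - h) ≤ ∑ v ∈ V, r v ^ 2 + ∑ v ∈ V, r (v - h) ^ 2 := by
    rw [mul_sum, ← sum_add_distrib]
    apply sum_le_sum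
    intro v _
    nlinarith [sq_nonneg ((r v : ℤ) - r (v - h)), two_mul_le_add_sq (r v) (r (v - h))]
  have hsq : ∑ v ∈ V, r v * r v = ∑ v ∈ V, r v ^ 2 := by
    apply sum_congr rfl
    intro v _
    ring
  omega

/-- combined counting set -/
private theorem sc_fs {ι : Type} {k : ℕ} (s : ℕ) (W : Finset ι) (φ : ι → Fin k → ℤ) (A : Finset ℕ)
    (Q : ℕ) (hQ : 1 ≤ Q)
    (hb : ∀ x ∈ W ×ˢ (Fintype.piFinset (fun _ : Fin s => A)),
      ∀ y ∈ W ×ˢ (Fintype.piFinset (fun _ : Fin s => A)),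
      ∀ j, |(φ x.1 j + pv k x.2 j) - (φ y.1 j + pv k y.2 j)| < (Q : ℤ)) :
    ((SC s W φ A : ℕ) : ℝ) =
      (1 / (Q : ℝ) ^ k) * ∑ α ∈ grid k Q, ‖FS W φ Q α‖ ^ 2 *
        ‖∑ n ∈ A, ee ((∑ j : Fin k, (α j : ℝ) * (n : ℝ) ^ ((j : ℕ) + 1)) / Q)‖ ^ (2 * s) := by
  have h1 := fs_count (W ×ˢ (Fintype.piFinset (fun _ : Fin s => A)))
    (W ×ˢ (Fintype.piFinset (fun _ : Fin s => A)))
    (fun x j => φ x.1 j + pv k x.2 j) (fun x j => φ x.1 j + pv k x.2 j) 0 Q hQ
    (by
      intro x hx y hy j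
      have := hb x hx y hy j
      simpa using this)
  have hcard : (((W ×ˢ (Fintype.piFinset (fun _ : Fin s => A))) ×ˢ
      (W ×ˢ (Fintype.piFinset (fun _ : Fin s => A)))).filter
        (fun w => ∀ j, φ w.1.1 j + pv k w.1.2 j = φ w.2.1 j + pv k w.2.2 j + (0 : Fin k → ℤ) j)).card
      = SC s W φ A := by
    unfold SC
    apply card_bij (fun z _ => ((z.1.1, z.2.1), (z.1.2, z.2.2)))
    · intro z hz
      simp only [mem_filter, mem_product, Pi.zero_apply, add_zero] at hz ⊢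
      tauto
    · intro z _ z' _ he
      simp only [Prod.mk.injEq] at he
      obtain ⟨⟨h1, h2⟩, h3, h4⟩ := he
      exact Prod.ext (Prod.ext h1 h3) (Prod.ext h2 h4)
    · intro z hz
      refine ⟨((z.1.1, z.2.1), (z.1.2, z.2.2)), ?_, rfl⟩
      simp only [mem_filter, mem_product, Pi.zero_apply, add_zero] at hz ⊢
      tauto
  rw [hcard] at h1
  have hFS : ∀ α : Fin k → ℕ, FS (W ×ˢ (Fintype.piFinset (fun _ : Fin s => A)))
      (fun x j => φ x.1 j + pv k x.2 j) Q α = FS W φ Q α *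
        (∑ n ∈ A, ee ((∑ j : Fin k, (α j : ℝ) * (n : ℝ) ^ ((j : ℕ) + 1)) / Q)) ^ s := by
    intro α
    rw [← fs_pow]
    unfold FS
    rw [sum_mul_sum, ← sum_product']
    apply sum_congr rfl
    intro x _
    rw [← ee_add', ← add_div, ← sum_add_distrib]
    congr 2
    apply sum_congr rfl
    intro j _
    push_cast
    ring
  have h2 : ((SC s W φ A : ℕ) : ℂ) = (((1 / (Q : ℝ) ^ k) * ∑ α ∈ grid k Q, ‖FS W φ Q α‖ ^ 2 *
        ‖∑ n ∈ A, ee ((∑ j : Fin k, (α j : ℝ) * (n : ℝ) ^ ((j : ℕ) + 1)) / Q)‖ ^ (2 * s) : ℝ) : ℂ) := by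
    rw [h1]
    push_cast
    congr 1
    apply sum_congr rfl
    intro α _
    have : ee (-(∑ j, (α j : ℝ) * (((0 : Fin k → ℤ) j : ℤ) : ℝ)) / Q) = 1 := by
      simp [ee_zero']
    rw [this, mul_one, Complex.mul_conj', hFS, norm_mul, norm_pow]
    push_cast
    ring
  exact_mod_cast h2

private theorem hoelder' (p s : ℕ) (hs : 1 ≤ s) (g : ℕ → ℂ) :
    ‖∑ b ∈ range p, g b‖ ^ (2 * s) ≤ (p : ℝ) ^ (2 * s - 1) * ∑ b ∈ range p, ‖g b‖ ^ (2 * s) := by
  obtain ⟨m, hm⟩ : ∃ m, 2 * s = m + 1 := ⟨2 * s - 1, by omega⟩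
  rw [hm, Nat.add_sub_cancel]
  have h1 : ‖∑ b ∈ range p, g b‖ ^ (m + 1) ≤ (∑ b ∈ range p, ‖g b‖) ^ (m + 1) :=
    pow_le_pow_left₀ (norm_nonneg _) (norm_sum_le _ _) _
  refine h1.trans ?_
  rcases Nat.eq_zero_or_pos p with rfl | hp
  · simp
  have h3 := pow_sum_div_card_le_sum_pow (s := range p) (f := fun b => ‖g b‖)
    (hf := fun b _ => norm_nonneg _) m
  rw [card_range, div_le_iff₀ (by positivity)] at h3
  linarith

private theorem bound' {κ : Type} {k : ℕ} (X : Finset κ) (f : κ → Fin k → ℤ) :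
    ∃ B : ℤ, 0 ≤ B ∧ ∀ x ∈ X, ∀ j, |f x j| ≤ B := by
  classical
  induction X using Finset.induction_on with
  | empty => exact ⟨0, le_refl _, by simp⟩
  | insert a X ha ih =>
    obtain ⟨B, hB, h⟩ := ih
    have h0 : 0 ≤ ∑ j, |f a j| := sum_nonneg fun j _ => abs_nonneg _
    refine ⟨B + ∑ j, |f a j|, add_nonneg hB h0, ?_⟩
    intro x hx j
    rcases mem_insert.1 hx with rfl | hx
    · have h1 : |f x j| ≤ ∑ j, |f x j| :=
        single_le_sum (f := fun j => |f x j|) (fun j _ => abs_nonneg _) (mem_univ j)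
      linarith
    · have := h x hx j
      linarith

theorem sc_class {ι : Type} {k : ℕ} (s p : ℕ) (hs : 1 ≤ s) (hp : 1 ≤ p) (W : Finset ι)
    (φ : ι → Fin k → ℤ) (A : Finset ℕ) :
    SC s W φ A ≤ p ^ (2 * s - 1) * ∑ b ∈ range p, SC s W φ (A.filter (fun n => n % p = b)) := by
  classical
  -- choose Q
  set X := W ×ˢ (Fintype.piFinset (fun _ : Fin s => A)) with hX
  obtain ⟨B, hB0, hxB⟩ := bound' X (fun x j => φ x.1 j + pv k x.2 j)
  obtain ⟨Q, hQB⟩ : ∃ Q : ℕ, (Q : ℤ) = 2 * B + 1 :=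
    ⟨(2 * B + 1).toNat, Int.toNat_of_nonneg (by linarith)⟩
  have hQ1 : 1 ≤ Q := by
    have : (1 : ℤ) ≤ Q := by linarith
    exact_mod_cast this
  have hb : ∀ x ∈ X, ∀ y ∈ X,
      ∀ j, |(φ x.1 j + pv k x.2 j) - (φ y.1 j + pv k y.2 j)| < (Q : ℤ) := by
    intro x hx y hy j
    have h1 := hxB x hx j
    have h2 := hxB y hy j
    calc |(φ x.1 j + pv k x.2 j) - (φ y.1 j + pv k y.2 j)| ≤
          |φ x.1 j + pv k x.2 j| + |φ y.1 j + pv k y.2 j| := abs_sub _ _
      _ < Q := by rw [hQB]; linarith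
  have hsub : ∀ b, ∀ x ∈ W ×ˢ (Fintype.piFinset (fun _ : Fin s => A.filter (fun n => n % p = b))),
      x ∈ X := by
    intro b x hx
    rw [mem_product, Fintype.mem_piFinset] at hx
    rw [hX, mem_product, Fintype.mem_piFinset]
    exact ⟨hx.1, fun i => (mem_filter.1 (hx.2 i)).1⟩
  have e1 := sc_fs s W φ A Q hQ1 hb
  have e2 : ∀ b, ((SC s W φ (A.filter (fun n => n % p = b)) : ℕ) : ℝ) =
      (1 / (Q : ℝ) ^ k) * ∑ α ∈ grid k Q, ‖FS W φ Q α‖ ^ 2 *
        ‖∑ n ∈ A.filter (fun n => n % p = b),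
          ee ((∑ j : Fin k, (α j : ℝ) * (n : ℝ) ^ ((j : ℕ) + 1)) / Q)‖ ^ (2 * s) := by
    intro b
    exact sc_fs s W φ _ Q hQ1 (fun x hx y hy j => hb x (hsub b x hx) y (hsub b y hy) j)
  have main : ((SC s W φ A : ℕ) : ℝ) ≤ (p : ℝ) ^ (2 * s - 1) *
      ∑ b ∈ range p, ((SC s W φ (A.filter (fun n => n % p = b)) : ℕ) : ℝ) := by
    rw [e1]
    simp_rw [e2]
    rw [← mul_sum, sum_comm, mul_left_comm]
    apply mul_le_mul_of_nonneg_left _ (by positivity)
    rw [mul_sum]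
    apply sum_le_sum
    intro α _
    rw [← mul_sum, mul_left_comm]
    apply mul_le_mul_of_nonneg_left _ (by positivity)
    have h5 : ∑ n ∈ A, ee ((∑ j : Fin k, (α j : ℝ) * (n : ℝ) ^ ((j : ℕ) + 1)) / Q) =
        ∑ b ∈ range p, ∑ n ∈ A.filter (fun n => n % p = b),
          ee ((∑ j : Fin k, (α j : ℝ) * (n : ℝ) ^ ((j : ℕ) + 1)) / Q) := by
      rw [sum_fiberwise_of_maps_to]
      intro n _
      rw [mem_range]
      exact Nat.mod_lt _ hp
    rw [h5]
    exact hoelder' p s hs _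
  exact_mod_cast main

theorem jv_mono (k s M M' : ℕ) (h : M ≤ M') : JV k s M ≤ JV k s M' := by
  unfold JV
  apply card_le_card
  apply filter_subset_filter
  have : box s M ⊆ box s M' := by
    unfold box
    intro x hx
    rw [Fintype.mem_piFinset] at hx ⊢
    intro i
    have := mem_Icc.1 (hx i)
    exact mem_Icc.2 ⟨this.1, this.2.trans h⟩
  exact product_subset_product this this

theorem jv_add (k s r M : ℕ) : JV k (s + r) M ≤ M ^ (2 * r) * JV k s M := by
  classical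
  have hpv : ∀ (x : Fin (s + r) → ℕ) (j : Fin k), pv k x j =
      pv k (fun i : Fin s => x (Fin.castAdd r i)) j + pv k (fun i : Fin r => x (Fin.natAdd s i)) j := by
    intro x j
    unfold pv
    rw [Fin.sum_univ_add]
  -- map a pair to the pair of the last coordinates
  unfold JV
  have hmaps : ∀ w ∈ ((box (s + r) M) ×ˢ (box (s + r) M)).filter (fun w => pv k w.1 = pv k w.2),
      ((fun i : Fin r => w.1 (Fin.natAdd s i)), (fun i : Fin r => w.2 (Fin.natAdd s i))) ∈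
        (box r M) ×ˢ (box r M) := by
    intro w hw
    rw [mem_filter, mem_product] at hw
    unfold box at hw ⊢
    rw [Fintype.mem_piFinset, Fintype.mem_piFinset] at hw
    rw [mem_product, Fintype.mem_piFinset, Fintype.mem_piFinset]
    exact ⟨fun i => hw.1.1 _, fun i => hw.1.2 _⟩
  rw [card_eq_sum_card_fiberwise (f := fun w : (Fin (s + r) → ℕ) × (Fin (s + r) → ℕ) =>
    ((fun i : Fin r => w.1 (Fin.natAdd s i)), (fun i : Fin r => w.2 (Fin.natAdd s i))))
    (t := (box r M) ×ˢ (box r M)) (by intro w hw; exact hmaps w hw)]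
  have hfib : ∀ y ∈ (box r M) ×ˢ (box r M),
      ((((box (s + r) M) ×ˢ (box (s + r) M)).filter (fun w => pv k w.1 = pv k w.2)).filter
        (fun w => ((fun i : Fin r => w.1 (Fin.natAdd s i)), (fun i : Fin r => w.2 (Fin.natAdd s i))) = y)).card
        ≤ (((box s M) ×ˢ (box s M)).filter (fun w => pv k w.1 = pv k w.2)).card := by
    intro y _
    calc _ ≤ (((box s M) ×ˢ (box s M)).filter (fun w => ∀ j, pv k w.1 j = pv k w.2 j +
          (pv k y.2 - pv k y.1) j)).card := by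
          apply card_le_card_of_injOn (fun w => ((fun i : Fin s => w.1 (Fin.castAdd r i)),
            (fun i : Fin s => w.2 (Fin.castAdd r i))))
          · intro w hw
            rw [mem_coe, mem_filter, mem_filter, mem_product] at hw
            rw [mem_coe, mem_filter, mem_product]
            obtain ⟨⟨⟨h1, h2⟩, h3⟩, h4⟩ := hw
            unfold box at h1 h2 ⊢
            rw [Fintype.mem_piFinset] at h1 h2
            refine ⟨⟨Fintype.mem_piFinset.2 fun i => h1 _, Fintype.mem_piFinset.2 fun i => h2 _⟩, ?_⟩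
            intro j
            have h5 := congrFun h3 j
            rw [hpv, hpv] at h5
            rw [← h4]
            simp only [Pi.sub_apply]
            linarith
          · intro w hw w' hw' he
            rw [mem_coe, mem_filter, mem_filter] at hw hw'
            have h4 := hw.2.trans hw'.2.symm
            simp only [Prod.mk.injEq] at he h4
            apply Prod.ext
            · funext i
              refine Fin.addCases (fun i => ?_) (fun i => ?_) i
              · exact congrFun he.1 i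
              · exact congrFun h4.1 i
            · funext i
              refine Fin.addCases (fun i => ?_) (fun i => ?_) i
              · exact congrFun he.2 i
              · exact congrFun h4.2 i
      _ ≤ (((box s M) ×ˢ (box s M)).filter (fun w => ∀ j, pv k w.1 j = pv k w.2 j)).card :=
          shift_le _ _ _
      _ = _ := by
          congr 1
          apply filter_congr
          intro w _
          exact funext_iff.symm
  refine (sum_le_card_nsmul _ _ _ hfib).trans ?_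
  rw [smul_eq_mul, card_product]
  have hbc : (box r M).card = M ^ r := by
    unfold box
    rw [Fintype.card_piFinset]
    simp
  rw [hbc]
  apply le_of_eq
  ring

end Pool.Agent.H97.VK

end

section

/-!
# VK GGB: bounds for `GG`

`gg_triv`: at most `(2W+1)^2` terms of size `≤ 1`.
`gg_bound`: the inner sum is `≤ min (2W+1, 1/(2‖α w‖))` (geometric series; `|1 - ee θ| ≥ 4‖θ‖`).  The map
`w ↦ (n, m, s)`, `n = round (α w)`, `m = ⌊|α w - n| / |α|⌋`, `s = (n ≤ α w)` is injective, so the sum is at most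
`(2 |α| W + 2) * 2 * (2 W + 1 + ∑_{1 ≤ m ≤ 1/(2|α|)} 1/(2 m |α|))`.
-/

set_option autoImplicit false

namespace Pool.Agent.H97.VK

open Finset
open Pool.Agent.H91.PK (ee LSa_ee_add LSa_norm_ee)

private theorem GGB_card (W : ℕ) : ((Icc (-(W : ℤ)) W).card : ℝ) = 2 * (W : ℝ) + 1 := by
  rw [Int.card_Icc]
  have h : ((W : ℤ) + 1 - -(W : ℤ)).toNat = 2 * W + 1 := by omega
  rw [h]
  push_cast
  ring

private theorem GGB_inner_triv (θ : ℝ) (W : ℕ) :
    ‖∑ v ∈ Icc (-(W : ℤ)) W, ee (θ * v)‖ ≤ 2 * (W : ℝ) + 1 := by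
  refine (norm_sum_le _ _).trans ?_
  have h : ∑ v ∈ Icc (-(W : ℤ)) W, ‖ee (θ * v)‖ = ((Icc (-(W : ℤ)) W).card : ℝ) := by
    simp only [LSa_norm_ee, Finset.sum_const, nsmul_eq_mul, mul_one]
  rw [h, GGB_card]

theorem gg_triv (α : ℝ) (W : ℕ) : GG α W ≤ (2 * (W : ℝ) + 1) ^ 2 := by
  unfold GG
  refine (Finset.sum_le_sum (fun (w : ℤ) _ => GGB_inner_triv (α * (w : ℝ)) W)).trans ?_
  rw [Finset.sum_const, nsmul_eq_mul, GGB_card, sq]

theorem gg_nonneg (α : ℝ) (W : ℕ) : 0 ≤ GG α W :=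
  Finset.sum_nonneg fun _ _ => norm_nonneg _

private theorem GGB_ee_int (θ : ℝ) (n : ℤ) : ee (θ - n) = ee θ := by
  unfold ee
  rw [Complex.exp_eq_exp_iff_exists_int]
  refine ⟨-n, ?_⟩
  push_cast
  ring

private theorem GGB_lower (x : ℝ) (h : |x| ≤ 1 / 2) : 4 * |x| ≤ ‖ee x - 1‖ := by
  have h1 : ee x = Complex.exp (Complex.I * ((2 * Real.pi * x : ℝ) : ℂ)) := by
    unfold ee
    congr 1
    push_cast
    ring
  rw [h1, Complex.norm_exp_I_mul_ofReal_sub_one, norm_mul, Real.norm_eq_abs, Real.norm_eq_abs]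
  have h2 : 2 * Real.pi * x / 2 = Real.pi * x := by ring
  rw [h2]
  have h3 : |Real.pi * x| ≤ Real.pi / 2 := by
    rw [abs_mul, abs_of_pos Real.pi_pos]
    nlinarith [Real.pi_pos]
  have h4 := Real.mul_abs_le_abs_sin h3
  rw [abs_mul, abs_of_pos Real.pi_pos] at h4
  have h5 : 2 / Real.pi * (Real.pi * |x|) = 2 * |x| := by
    field_simp
  rw [h5] at h4
  have h6 : |(2 : ℝ)| = 2 := abs_of_pos (by norm_num)
  rw [h6]
  linarith

private theorem GGB_shift (θ : ℝ) (W : ℕ) :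
    ∑ v ∈ Icc (-(W : ℤ)) W, ee (θ * v) = ee (-(θ * W)) * ∑ i ∈ range (2 * W + 1), ee θ ^ i := by
  have hp : ∀ i : ℕ, ee (θ * i) = ee θ ^ i := by
    intro i
    induction i with
    | zero =>
      simp [ee]
    | succ i ih =>
      rw [pow_succ, ← ih, ← LSa_ee_add]
      congr 1
      push_cast
      ring
  rw [Finset.mul_sum]
  symm
  refine Finset.sum_nbij' (fun i : ℕ => (i : ℤ) - W) (fun v : ℤ => (v + W).toNat) ?_ ?_ ?_ ?_ ?_
  · intro i hi
    rw [Finset.mem_range] at hi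
    rw [Finset.mem_Icc]
    omega
  · intro v hv
    rw [Finset.mem_Icc] at hv
    rw [Finset.mem_range]
    omega
  · intro i hi
    simp
  · intro v hv
    rw [Finset.mem_Icc] at hv
    omega
  · intro i hi
    rw [← hp, ← LSa_ee_add]
    congr 1
    push_cast
    ring

private theorem GGB_inner (θ : ℝ) (n : ℤ) (W : ℕ) (h : |θ - n| ≤ 1 / 2) :
    ‖∑ v ∈ Icc (-(W : ℤ)) W, ee (θ * v)‖ * (4 * |θ - n|) ≤ 2 := by
  have h1 : 4 * |θ - n| ≤ ‖ee θ - 1‖ := by
    have := GGB_lower (θ - n) h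
    rwa [GGB_ee_int] at this
  refine (mul_le_mul_of_nonneg_left h1 (norm_nonneg _)).trans ?_
  rw [← norm_mul, GGB_shift, mul_assoc, geom_sum_mul, norm_mul, LSa_norm_ee, one_mul]
  refine (norm_sub_le _ _).trans ?_
  rw [norm_pow, LSa_norm_ee, one_pow, norm_one]
  norm_num

/-- The bound of the term with `⌊|α w - round (α w)| / |α|⌋ = m`. -/
private noncomputable def GGB_b (a : ℝ) (W m : ℕ) : ℝ :=
  if m = 0 then 2 * (W : ℝ) + 1 else 1 / (2 * m * a)

private theorem GGB_term (α : ℝ) (hα : α ≠ 0) (W : ℕ) (w : ℤ) :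
    ‖∑ v ∈ Icc (-(W : ℤ)) W, ee (α * w * v)‖ ≤
      GGB_b |α| W ⌊|α * w - round (α * w)| / |α|⌋₊ := by
  have ha : 0 < |α| := abs_pos.2 hα
  set m := ⌊|α * w - round (α * w)| / |α|⌋₊ with hm
  unfold GGB_b
  split_ifs with h0
  · exact GGB_inner_triv _ W
  · have hm1 : 1 ≤ m := Nat.one_le_iff_ne_zero.2 h0
    have hm2 : (m : ℝ) ≤ |α * w - round (α * w)| / |α| :=
      Nat.floor_le (div_nonneg (abs_nonneg _) ha.le)
    have hm3 : (m : ℝ) * |α| ≤ |α * w - round (α * w)| := by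
      rwa [le_div_iff₀ ha] at hm2
    have hmp : (0 : ℝ) < m := by exact_mod_cast hm1
    have h1 := GGB_inner (α * w) (round (α * w)) W (abs_sub_round _)
    have h2 : ‖∑ v ∈ Icc (-(W : ℤ)) W, ee (α * w * v)‖ * (4 * (m * |α|)) ≤ 2 :=
      (mul_le_mul_of_nonneg_left (by linarith) (norm_nonneg _)).trans h1
    have h3 : (0 : ℝ) < 2 * m * |α| := by positivity
    rw [le_div_iff₀ h3]
    linarith

private theorem GGB_inj (α : ℝ) (hα : α ≠ 0) (w w' : ℤ)
    (hn : round (α * w) = round (α * w'))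
    (hm : ⌊|α * w - round (α * w)| / |α|⌋₊ = ⌊|α * w' - round (α * w')| / |α|⌋₊)
    (hs : ((round (α * w) : ℤ) : ℝ) ≤ α * w ↔ ((round (α * w') : ℤ) : ℝ) ≤ α * w') : w = w' := by
  have ha : 0 < |α| := abs_pos.2 hα
  set n := round (α * w) with hn'
  rw [← hn] at hm hs
  set x := α * w - n with hx
  set y := α * w' - n with hy
  set m := ⌊|x| / |α|⌋₊ with hmx
  have h1 : (m : ℝ) ≤ |x| / |α| := Nat.floor_le (div_nonneg (abs_nonneg _) ha.le)
  have h2 : |x| / |α| < m + 1 := Nat.lt_floor_add_one _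
  have h3 : (m : ℝ) ≤ |y| / |α| := by
    rw [hm]
    exact Nat.floor_le (div_nonneg (abs_nonneg _) ha.le)
  have h4 : |y| / |α| < m + 1 := by
    rw [hm]
    exact Nat.lt_floor_add_one _
  rw [le_div_iff₀ ha] at h1 h3
  rw [div_lt_iff₀ ha] at h2 h4
  have h5 : |x - y| < |α| := by
    by_cases hc : (n : ℝ) ≤ α * w
    · have hc' := hs.1 hc
      have e1 : |x| = x := abs_of_nonneg (by linarith)
      have e2 : |y| = y := abs_of_nonneg (by linarith)
      rw [e1] at h1 h2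
      rw [e2] at h3 h4
      rw [abs_lt]
      constructor <;> linarith
    · have hc' : ¬ (n : ℝ) ≤ α * w' := fun h => hc (hs.2 h)
      push Not at hc hc'
      have e1 : |x| = -x := abs_of_nonpos (by linarith)
      have e2 : |y| = -y := abs_of_nonpos (by linarith)
      rw [e1] at h1 h2
      rw [e2] at h3 h4
      rw [abs_lt]
      constructor <;> linarith
  have h6 : x - y = α * ((w - w' : ℤ) : ℝ) := by
    rw [hx, hy]
    push_cast
    ring
  rw [h6, abs_mul] at h5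
  have h7 : |((w - w' : ℤ) : ℝ)| < 1 := by
    by_contra hc
    push Not at hc
    have := mul_le_mul_of_nonneg_left hc ha.le
    linarith
  have h8 : |w - w'| < 1 := by
    have : ((|w - w'| : ℤ) : ℝ) < 1 := by
      rw [Int.cast_abs]
      exact h7
    exact_mod_cast this
  rw [Int.abs_lt_one_iff] at h8
  omega

private theorem GGB_main (α : ℝ) (hα : α ≠ 0) (W : ℕ) :
    GG α W ≤ (2 * |α| * W + 2) * (2 * ∑ m ∈ range (⌊1 / (2 * |α|)⌋₊ + 1), GGB_b |α| W m) := by
  classical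
  have ha : 0 < |α| := abs_pos.2 hα
  set J := ⌊1 / (2 * |α|)⌋₊ with hJ
  set B := ⌊|α| * W + 1 / 2⌋₊ with hB
  have hb0 : ∀ m, 0 ≤ GGB_b |α| W m := by
    intro m
    unfold GGB_b
    split_ifs
    · positivity
    · positivity
  let key : ℤ → ℤ × ℕ × Bool := fun w =>
    (round (α * w), ⌊|α * w - round (α * w)| / |α|⌋₊,
      decide (((round (α * w) : ℤ) : ℝ) ≤ α * w))
  have hinj : Set.InjOn key (Icc (-(W : ℤ)) W : Finset ℤ) := by
    intro w _ w' _ h
    simp only [key, Prod.mk.injEq, decide_eq_decide] at h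
    exact GGB_inj α hα w w' h.1 h.2.1 h.2.2
  have hmaps : ∀ w ∈ Icc (-(W : ℤ)) W, key w ∈ (Icc (-(B : ℤ)) B) ×ˢ (range (J + 1) ×ˢ
      (Finset.univ : Finset Bool)) := by
    intro w hw
    rw [Finset.mem_Icc] at hw
    have hw' : |(w : ℝ)| ≤ W := by
      rw [abs_le]
      constructor
      · have := hw.1
        exact_mod_cast this
      · have := hw.2
        exact_mod_cast this
    have hr := abs_sub_round (α * w)
    rw [Finset.mem_product, Finset.mem_product]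
    refine ⟨?_, ?_, Finset.mem_univ _⟩
    · have h1 : |((round (α * w) : ℤ) : ℝ)| ≤ |α| * W + 1 / 2 := by
        have h2 : ((round (α * w) : ℤ) : ℝ) = α * w - (α * w - round (α * w)) := by ring
        rw [h2]
        refine (abs_sub _ _).trans ?_
        rw [abs_mul]
        have := mul_le_mul_of_nonneg_left hw' ha.le
        linarith
      have h3 : (round (α * w)).natAbs ≤ B := by
        rw [hB]
        refine Nat.le_floor ?_
        rw [Nat.cast_natAbs]
        push_cast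
        exact h1
      rw [Finset.mem_Icc]
      show -(B : ℤ) ≤ round (α * w) ∧ round (α * w) ≤ B
      omega
    · rw [Finset.mem_range]
      show ⌊|α * w - round (α * w)| / |α|⌋₊ < J + 1
      refine Nat.lt_succ_of_le (Nat.floor_le_floor ?_)
      rw [div_le_div_iff₀ ha (by positivity)]
      nlinarith
  have hstep : GG α W ≤ ∑ z ∈ (Icc (-(B : ℤ)) B) ×ˢ (range (J + 1) ×ˢ
      (Finset.univ : Finset Bool)), GGB_b |α| W z.2.1 := by
    unfold GG
    calc ∑ w ∈ Icc (-(W : ℤ)) W, ‖∑ v ∈ Icc (-(W : ℤ)) W, ee (α * w * v)‖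
        ≤ ∑ w ∈ Icc (-(W : ℤ)) W, GGB_b |α| W (key w).2.1 :=
          Finset.sum_le_sum fun w _ => GGB_term α hα W w
      _ = ∑ z ∈ (Icc (-(W : ℤ)) W).image key, GGB_b |α| W z.2.1 :=
          (Finset.sum_image (f := fun z : ℤ × ℕ × Bool => GGB_b |α| W z.2.1) hinj).symm
      _ ≤ _ := by
          refine Finset.sum_le_sum_of_subset_of_nonneg ?_ (fun z _ _ => hb0 _)
          intro z hz
          obtain ⟨w, hw, rfl⟩ := Finset.mem_image.1 hz
          exact hmaps w hw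
  refine hstep.trans ?_
  rw [Finset.sum_product]
  simp only [Finset.sum_product, Finset.sum_const, nsmul_eq_mul, Finset.card_univ,
    Fintype.card_bool, GGB_card, ← Finset.mul_sum]
  have hBle : (B : ℝ) ≤ |α| * W + 1 / 2 := Nat.floor_le (by positivity)
  have hsum : 0 ≤ ∑ m ∈ range (J + 1), GGB_b |α| W m := Finset.sum_nonneg fun m _ => hb0 m
  push_cast
  refine mul_le_mul_of_nonneg_right ?_ (by positivity)
  linarith

theorem gg_bound : ∃ C : ℝ, 1 ≤ C ∧ ∀ (α Δ : ℝ) (W : ℕ), 1 ≤ W → 0 < Δ → Δ ≤ 1 / 2 → |α| ≤ Δ →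
    1 ≤ Δ * W → 1 ≤ Δ * (W : ℝ) ^ 2 * |α| → GG α W ≤ C * Δ * (W : ℝ) ^ 2 * (1 + Real.log W) := by
  refine ⟨28, by norm_num, ?_⟩
  intro α Δ W hW hΔ hΔ2 haΔ h1 h2
  have hα : α ≠ 0 := by
    rintro rfl
    rw [abs_zero, mul_zero] at h2
    linarith
  have ha : 0 < |α| := abs_pos.2 hα
  have hW1 : (1 : ℝ) ≤ W := by exact_mod_cast hW
  have hL : 0 ≤ Real.log W := Real.log_nonneg hW1
  refine (GGB_main α hα W).trans ?_
  set a := |α| with haa
  set J := ⌊1 / (2 * a)⌋₊ with hJ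
  set L := Real.log W with hLL
  have hinv : 1 / a ≤ Δ * (W : ℝ) ^ 2 := by
    rw [div_le_iff₀ ha]
    exact h2
  have hJle : (J : ℝ) ≤ 1 / (2 * a) := Nat.floor_le (by positivity)
  have hJW : (J : ℝ) ≤ (W : ℝ) ^ 2 := by
    have e1 : 1 / (2 * a) = 1 / a / 2 := by ring
    have e2 : 0 < 1 / a := by positivity
    have e3 : Δ * (W : ℝ) ^ 2 ≤ 1 / 2 * (W : ℝ) ^ 2 :=
      mul_le_mul_of_nonneg_right hΔ2 (by positivity)
    have e4 : 0 ≤ (W : ℝ) ^ 2 := by positivity
    rw [e1] at hJle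
    linarith
  have hlogJ : Real.log J ≤ 2 * L := by
    rcases Nat.eq_zero_or_pos J with h0 | h0
    · rw [h0, Nat.cast_zero, Real.log_zero]
      linarith
    · have e1 : (0 : ℝ) < J := by exact_mod_cast h0
      have e2 := Real.log_le_log e1 hJW
      rw [Real.log_pow] at e2
      exact_mod_cast e2
  have hsum : ∑ m ∈ range (J + 1), GGB_b a W m ≤
      (2 * (W : ℝ) + 1) + 1 / a * (1 / 2 * (1 + 2 * L)) := by
    rw [Finset.sum_range_succ']
    have e0 : GGB_b a W 0 = 2 * (W : ℝ) + 1 := by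
      unfold GGB_b
      rw [if_pos rfl]
    have e1 : ∑ m ∈ range J, GGB_b a W (m + 1) = 1 / a * (1 / 2 * (harmonic J : ℝ)) := by
      rw [harmonic]
      push_cast
      rw [Finset.mul_sum, Finset.mul_sum]
      refine Finset.sum_congr rfl fun m _ => ?_
      unfold GGB_b
      rw [if_neg (Nat.succ_ne_zero m)]
      push_cast
      field_simp
    rw [e0, e1]
    have e2 : (harmonic J : ℝ) ≤ 1 + Real.log J := harmonic_le_one_add_log J
    have e3 : (0 : ℝ) ≤ 1 / a := by positivity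
    have e4 : 1 / 2 * (harmonic J : ℝ) ≤ 1 / 2 * (1 + 2 * L) := by linarith
    have e5 := mul_le_mul_of_nonneg_left e4 e3
    linarith
  have hfac : (0 : ℝ) ≤ 2 * a * W + 2 := by positivity
  refine (mul_le_mul_of_nonneg_left (mul_le_mul_of_nonneg_left hsum (by norm_num)) hfac).trans ?_
  have hexp : (2 * a * W + 2) * (2 * ((2 * (W : ℝ) + 1) + 1 / a * (1 / 2 * (1 + 2 * L)))) =
      4 * a * W * (2 * W + 1) + 2 * W * (1 + 2 * L) + 4 * (2 * W + 1) +
        2 * (1 / a) * (1 + 2 * L) := by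
    field_simp
    ring
  rw [hexp]
  set D := Δ * (W : ℝ) ^ 2 with hD
  have hWD : (W : ℝ) ≤ D := by
    have e1 := mul_le_mul_of_nonneg_right h1 (by positivity : (0 : ℝ) ≤ W)
    rw [hD]
    calc (W : ℝ) = 1 * W := (one_mul _).symm
      _ ≤ Δ * W * W := e1
      _ = Δ * (W : ℝ) ^ 2 := by ring
  have t1 : 4 * a * W * (2 * W + 1) ≤ 12 * D := by
    have e1 : 4 * a * W * (2 * W + 1) ≤ 4 * a * W * (3 * W) :=
      mul_le_mul_of_nonneg_left (by linarith) (by positivity)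
    have e2 : 4 * a * W * (3 * W) = 12 * (a * (W : ℝ) ^ 2) := by ring
    have e3 : a * (W : ℝ) ^ 2 ≤ D := mul_le_mul_of_nonneg_right haΔ (by positivity)
    linarith
  have hL2 : (0 : ℝ) ≤ 1 + 2 * L := by linarith
  have t2 : 2 * W * (1 + 2 * L) ≤ 2 * D * (1 + 2 * L) :=
    mul_le_mul_of_nonneg_right (by linarith) hL2
  have t3 : 4 * (2 * (W : ℝ) + 1) ≤ 12 * D := by linarith
  have t4 : 2 * (1 / a) * (1 + 2 * L) ≤ 2 * D * (1 + 2 * L) :=
    mul_le_mul_of_nonneg_right (by linarith) hL2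
  have hD0 : 0 ≤ D := by linarith
  have t5 : 28 * Δ * (W : ℝ) ^ 2 * (1 + L) = 28 * D + 28 * (D * L) := by
    rw [hD]
    ring
  have t6 : 2 * D * (1 + 2 * L) = 2 * D + 4 * (D * L) := by ring
  have t7 : 0 ≤ D * L := mul_nonneg hD0 hL
  rw [t5]
  rw [t6] at t2 t4
  linarith

end Pool.Agent.H97.VK

end

section

/-!
# VK Bil: the bilinear sum and the mean value

Write `U = ‖bil k X α‖`, `ψ(v) = ∑_j α_j v_j`.
(1) `U ≤ ∑_a |∑_b ee(∑_j α_j a^j b^j)|`, so `U^{2s} ≤ X^{2s-1} ∑_a |∑_b ..|^{2s}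
 = X^{2s-1} ∑_a ∑_{y,y' ∈ [1,X]^s} ee(∑_j α_j a^j (pv(y)_j - pv(y')_j)) ≤ X^{2s-1} ∑_v R(v) |T(v)|`, where
 `R(v) = #{(y,y') : pv(y) - pv(y') = v}`, `T(v) = ∑_{a ≤ X} ee(∑_j α_j v_j a^j)`; `v` runs over `V = {|v_j| ≤ s X^j}` (finite).
(2) Hölder (exponents `s/(s-1), 2s, 2s`; or Cauchy-Schwarz-type steps):
 `(∑ R|T|)^{2s} ≤ (∑ R)^{2s-2} (∑ R^2) (∑_{v ∈ V} |T(v)|^{2s})`.  (E.g. `(∑ R |T|)^s ≤ (∑ R)^{s-1} ∑ R |T|^s` and
 `(∑ R|T|^s)^2 ≤ ∑ R^2 ∑ |T|^{2s}`.)
(3) `∑ R = X^{2s}`; `∑ R^2 ≤ JV k (2s) X` (equality after renaming: `pv(y) - pv(y') = pv(z) - pv(z')`).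
(4) `∑_{v ∈ V} |T(v)|^{2s} = ∑_w R(w) ∑_{v ∈ V} ee(∑_j α_j v_j w_j) ≤ JV k s X ∏_j GG (α_j) (s X^j)`: `R(w) ≤ R(0) = JV k s X` (`shift_le`),
 `w` runs over `V`, and the sum over `v ∈ V` is the product over `j` of `∑_{|v| ≤ s X^j} ee(α_j w_j v)`.
Exponents: `2s(2s-1) + 2s(2s-2) = 8s^2 - 6s`.  Here `j` = `(j : Fin k) + 1`.
-/

set_option autoImplicit false

namespace Pool.Agent.H97.VK

open Finset
open Pool.Agent.H91.PK (ee)

private theorem Bil_ee_zero : ee 0 = 1 := by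
  simp [ee]

private theorem Bil_ee_sum {ι : Type} (S : Finset ι) (f : ι → ℝ) :
    ee (∑ i ∈ S, f i) = ∏ i ∈ S, ee (f i) := by
  classical
  induction S using Finset.induction_on with
  | empty => simp [Bil_ee_zero]
  | insert a S ha ih => rw [Finset.sum_insert ha, Finset.prod_insert ha,
      Pool.Agent.H91.PK.LSa_ee_add, ih]

/-- the one variable exponential sum with coefficients `c` -/
private noncomputable def BilE {k : ℕ} (X : ℕ) (c : Fin k → ℝ) : ℂ :=
  ∑ n ∈ Icc 1 X, ee (∑ j : Fin k, c j * (n : ℝ) ^ ((j : ℕ) + 1))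

private noncomputable def BilD {k s : ℕ} (w : (Fin s → ℕ) × (Fin s → ℕ)) (j : Fin k) : ℤ :=
  pv k w.1 j - pv k w.2 j

private theorem Bil_pow (k s X : ℕ) (c : Fin k → ℝ) :
    (BilE X c) ^ s = ∑ y ∈ box s X, ee (∑ j : Fin k, c j * (pv k y j : ℝ)) := by
  have h1 : (BilE X c) ^ s = ∏ _i : Fin s, BilE X c := by
    rw [Finset.prod_const, Finset.card_univ, Fintype.card_fin]
  rw [h1]
  unfold BilE
  rw [Finset.prod_univ_sum]
  unfold box
  refine Finset.sum_congr rfl fun y _ => ?_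
  rw [← Bil_ee_sum]
  congr 1
  rw [Finset.sum_comm]
  refine Finset.sum_congr rfl fun j _ => ?_
  rw [← Finset.mul_sum]
  congr 1
  unfold pv
  push_cast
  rfl

private theorem Bil_norm_pow (k s X : ℕ) (c : Fin k → ℝ) :
    ((‖BilE X c‖ ^ (2 * s) : ℝ) : ℂ) =
      ∑ w ∈ box s X ×ˢ box s X, ee (∑ j : Fin k, c j * (BilD w j : ℝ)) := by
  have h1 : ((‖BilE X c‖ ^ (2 * s) : ℝ) : ℂ) = (BilE X c) ^ s * (starRingEnd ℂ) ((BilE X c) ^ s) := by
    rw [map_pow, ← mul_pow, Complex.mul_conj, Complex.normSq_eq_norm_sq, pow_mul]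
    push_cast
    rfl
  rw [h1, Bil_pow, map_sum, Finset.sum_mul_sum, Finset.sum_product]
  refine Finset.sum_congr rfl fun y _ => Finset.sum_congr rfl fun y' _ => ?_
  rw [Pool.Agent.H91.PK.LSa_conj_ee, ← Pool.Agent.H91.PK.LSa_ee_add]
  congr 1
  rw [← sub_eq_add_neg, ← Finset.sum_sub_distrib]
  refine Finset.sum_congr rfl fun j _ => ?_
  unfold BilD
  push_cast
  ring

private noncomputable def BilV (k s X : ℕ) : Finset (Fin k → ℤ) :=
  Fintype.piFinset (fun j : Fin k => Icc (-((s * X ^ ((j : ℕ) + 1) : ℕ) : ℤ)) ((s * X ^ ((j : ℕ) + 1) : ℕ) : ℤ))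

private theorem Bil_pv_le {k s X : ℕ} {y : Fin s → ℕ} (hy : y ∈ box s X) (j : Fin k) :
    0 ≤ pv k y j ∧ pv k y j ≤ ((s * X ^ ((j : ℕ) + 1) : ℕ) : ℤ) := by
  unfold box at hy
  rw [Fintype.mem_piFinset] at hy
  unfold pv
  refine ⟨Finset.sum_nonneg fun i _ => by positivity, ?_⟩
  calc ∑ i, (y i : ℤ) ^ ((j : ℕ) + 1) ≤ ∑ _i : Fin s, (X : ℤ) ^ ((j : ℕ) + 1) := by
        refine Finset.sum_le_sum fun i _ => ?_
        have := (Finset.mem_Icc.mp (hy i)).2
        exact pow_le_pow_left₀ (by positivity) (by exact_mod_cast this) _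
    _ = ((s * X ^ ((j : ℕ) + 1) : ℕ) : ℤ) := by
        rw [Finset.sum_const, Finset.card_univ, Fintype.card_fin]
        push_cast
        simp

private theorem Bil_mem {k s X : ℕ} {w : (Fin s → ℕ) × (Fin s → ℕ)} (hw : w ∈ box s X ×ˢ box s X) :
    (BilD w : Fin k → ℤ) ∈ BilV k s X := by
  rw [Finset.mem_product] at hw
  unfold BilV
  rw [Fintype.mem_piFinset]
  intro j
  rw [Finset.mem_Icc]
  have h1 := Bil_pv_le hw.1 j
  have h2 := Bil_pv_le hw.2 j
  unfold BilD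
  constructor <;> linarith [h1.1, h1.2, h2.1, h2.2]

private noncomputable def BilR (k s X : ℕ) (v : Fin k → ℤ) : ℕ :=
  ((box s X ×ˢ box s X).filter (fun w => BilD w = v)).card

private theorem Bil_fiber (k s X : ℕ) (f : (Fin k → ℤ) → ℝ) :
    ∑ w ∈ box s X ×ˢ box s X, f (BilD w) = ∑ v ∈ BilV k s X, (BilR k s X v : ℝ) * f v := by
  rw [← Finset.sum_fiberwise_of_maps_to' (fun w hw => Bil_mem (k := k) hw) f]
  refine Finset.sum_congr rfl fun v _ => ?_
  rw [Finset.sum_const, nsmul_eq_mul]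
  rfl

private theorem Bil_R_le (k s X : ℕ) (v : Fin k → ℤ) : BilR k s X v ≤ JV k s X := by
  have h := shift_le (box s X) (pv k) v
  unfold BilR JV
  calc ((box s X ×ˢ box s X).filter (fun w => BilD w = v)).card
      = ((box s X ×ˢ box s X).filter (fun w => ∀ j, pv k w.1 j = pv k w.2 j + v j)).card := by
        congr 1
        refine Finset.filter_congr fun w _ => ?_
        rw [funext_iff]
        refine forall_congr' fun j => ?_
        unfold BilD
        constructor <;> intro h <;> linarith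
    _ ≤ ((box s X ×ˢ box s X).filter (fun w => ∀ j, pv k w.1 j = pv k w.2 j)).card := h
    _ = ((box s X ×ˢ box s X).filter (fun w => pv k w.1 = pv k w.2)).card := by
        congr 1
        refine Finset.filter_congr fun w _ => ?_
        rw [funext_iff]

private theorem Bil_pv_append (k s : ℕ) (a b : Fin s → ℕ) (j : Fin k) :
    pv k (Fin.append a b) j = pv k a j + pv k b j := by
  unfold pv
  rw [Fin.sum_univ_add]
  simp only [Fin.append_left, Fin.append_right]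

private theorem Bil_append_mem {s X : ℕ} {a b : Fin s → ℕ} (ha : a ∈ box s X) (hb : b ∈ box s X) :
    Fin.append a b ∈ box (s + s) X := by
  unfold box at *
  rw [Fintype.mem_piFinset] at *
  intro i
  refine Fin.addCases (fun i => ?_) (fun i => ?_) i
  · rw [Fin.append_left]; exact ha i
  · rw [Fin.append_right]; exact hb i

private theorem Bil_append_inj {s : ℕ} {a b a' b' : Fin s → ℕ}
    (h : Fin.append a b = Fin.append a' b') : a = a' ∧ b = b' := by
  constructor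
  · funext i
    have := congrFun h (Fin.castAdd s i)
    rwa [Fin.append_left, Fin.append_left] at this
  · funext i
    have := congrFun h (Fin.natAdd s i)
    rwa [Fin.append_right, Fin.append_right] at this

private theorem Bil_sumR_sq (k s X : ℕ) :
    ∑ v ∈ BilV k s X, (BilR k s X v : ℝ) ^ 2 ≤ (JV k (2 * s) X : ℝ) := by
  have h1 : ∑ v ∈ BilV k s X, (BilR k s X v : ℝ) ^ 2 =
      ∑ w ∈ box s X ×ˢ box s X, (BilR k s X (BilD w) : ℝ) := by
    refine Eq.trans ?_ (Bil_fiber k s X (fun v => (BilR k s X v : ℝ))).symm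
    exact Finset.sum_congr rfl fun v _ => pow_two _
  have h2' : ∑ w ∈ box s X ×ˢ box s X, BilR k s X (BilD w) =
      (((box s X ×ˢ box s X) ×ˢ (box s X ×ˢ box s X)).filter
        (fun z => (BilD z.2 : Fin k → ℤ) = BilD z.1)).card := by
    rw [Finset.card_filter]
    refine Eq.symm ((Finset.sum_product (box s X ×ˢ box s X) (box s X ×ˢ box s X) _).trans ?_)
    refine Finset.sum_congr rfl fun w _ => ?_
    unfold BilR
    rw [Finset.card_filter]
  have h2 : ∑ w ∈ box s X ×ˢ box s X, (BilR k s X (BilD w) : ℝ) =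
      ((((box s X ×ˢ box s X) ×ˢ (box s X ×ˢ box s X)).filter
        (fun z => (BilD z.2 : Fin k → ℤ) = BilD z.1)).card : ℝ) := by
    rw [← h2', Nat.cast_sum]
  rw [h1, h2]
  have h3 : JV k (2 * s) X = JV k (s + s) X := by rw [two_mul]
  rw [h3]
  unfold JV
  rw [Nat.cast_le]
  refine Finset.card_le_card_of_injOn
    (fun z => (Fin.append z.1.1 z.2.2, Fin.append z.1.2 z.2.1)) ?_ ?_
  · intro z hz
    rw [Finset.mem_coe, Finset.mem_filter, Finset.mem_product, Finset.mem_product,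
      Finset.mem_product] at hz
    obtain ⟨⟨⟨h11, h12⟩, ⟨h21, h22⟩⟩, he⟩ := hz
    rw [Finset.mem_coe, Finset.mem_filter, Finset.mem_product]
    refine ⟨⟨Bil_append_mem h11 h22, Bil_append_mem h12 h21⟩, ?_⟩
    funext j
    simp only
    rw [Bil_pv_append, Bil_pv_append]
    have := congrFun he j
    unfold BilD at this
    linarith
  · intro z _ z' _ h
    simp only [Prod.mk.injEq] at h
    have h1 := Bil_append_inj h.1
    have h2 := Bil_append_inj h.2
    ext1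
    · ext1
      · exact h1.1
      · exact h2.1
    · ext1
      · exact h2.2
      · exact h1.2

private theorem Bil_prod_norm (k s X : ℕ) (α : Fin k → ℝ) (u : Fin k → ℤ) :
    ‖∑ v ∈ BilV k s X, ee (∑ j : Fin k, α j * (v j : ℝ) * (u j : ℝ))‖ =
      ∏ j : Fin k, ‖∑ v ∈ Icc (-((s * X ^ ((j : ℕ) + 1) : ℕ) : ℤ)) ((s * X ^ ((j : ℕ) + 1) : ℕ) : ℤ),
        ee (α j * (u j : ℝ) * (v : ℝ))‖ := by
  rw [← norm_prod, Finset.prod_univ_sum]
  unfold BilV
  congr 1
  refine Finset.sum_congr rfl fun v _ => ?_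
  rw [Bil_ee_sum]
  refine Finset.prod_congr rfl fun j _ => ?_
  congr 1
  ring

private theorem Bil_sumT (k s X : ℕ) (α : Fin k → ℝ) :
    ∑ v ∈ BilV k s X, ‖BilE X (fun j => α j * (v j : ℝ))‖ ^ (2 * s) ≤
      (JV k s X : ℝ) * ∏ j : Fin k, GG (α j) (s * X ^ ((j : ℕ) + 1)) := by
  have h1 : ((∑ v ∈ BilV k s X, ‖BilE X (fun j => α j * (v j : ℝ))‖ ^ (2 * s) : ℝ) : ℂ) =
      ∑ w ∈ box s X ×ˢ box s X, ∑ v ∈ BilV k s X,
        ee (∑ j : Fin k, α j * (v j : ℝ) * (BilD w j : ℝ)) := by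
    rw [Complex.ofReal_sum, Finset.sum_comm]
    refine Finset.sum_congr rfl fun v _ => ?_
    exact Bil_norm_pow k s X (fun j => α j * (v j : ℝ))
  have h0 : 0 ≤ ∑ v ∈ BilV k s X, ‖BilE X (fun j => α j * (v j : ℝ))‖ ^ (2 * s) :=
    Finset.sum_nonneg fun v _ => by positivity
  have h2 : ∑ v ∈ BilV k s X, ‖BilE X (fun j => α j * (v j : ℝ))‖ ^ (2 * s) =
      ‖((∑ v ∈ BilV k s X, ‖BilE X (fun j => α j * (v j : ℝ))‖ ^ (2 * s) : ℝ) : ℂ)‖ := by
    rw [Complex.norm_real, Real.norm_of_nonneg h0]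
  rw [h2, h1]
  calc ‖∑ w ∈ box s X ×ˢ box s X, ∑ v ∈ BilV k s X,
        ee (∑ j : Fin k, α j * (v j : ℝ) * (BilD w j : ℝ))‖
      ≤ ∑ w ∈ box s X ×ˢ box s X, ‖∑ v ∈ BilV k s X,
        ee (∑ j : Fin k, α j * (v j : ℝ) * (BilD w j : ℝ))‖ := norm_sum_le _ _
    _ = ∑ u ∈ BilV k s X, (BilR k s X u : ℝ) * ‖∑ v ∈ BilV k s X,
        ee (∑ j : Fin k, α j * (v j : ℝ) * (u j : ℝ))‖ :=
        Bil_fiber k s X (fun u => ‖∑ v ∈ BilV k s X,
          ee (∑ j : Fin k, α j * (v j : ℝ) * (u j : ℝ))‖)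
    _ ≤ ∑ u ∈ BilV k s X, (JV k s X : ℝ) * ‖∑ v ∈ BilV k s X,
        ee (∑ j : Fin k, α j * (v j : ℝ) * (u j : ℝ))‖ := by
        refine Finset.sum_le_sum fun u _ => ?_
        refine mul_le_mul_of_nonneg_right ?_ (norm_nonneg _)
        exact_mod_cast Bil_R_le k s X u
    _ = (JV k s X : ℝ) * ∏ j : Fin k, GG (α j) (s * X ^ ((j : ℕ) + 1)) := by
        rw [← Finset.mul_sum]
        congr 1
        unfold GG
        rw [Finset.prod_univ_sum]
        refine Finset.sum_congr rfl fun u _ => ?_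
        exact Bil_prod_norm k s X α u

private theorem Bil_box_card (s X : ℕ) : (box s X ×ˢ box s X).card = X ^ (2 * s) := by
  rw [Finset.card_product]
  unfold box
  rw [Fintype.card_piFinset]
  simp only [Nat.card_Icc, Finset.prod_const, Finset.card_univ, Fintype.card_fin,
    Nat.add_sub_cancel]
  rw [two_mul, pow_add]

/-- the sum of the norms of `T(v)` over the pairs -/
private noncomputable def BilA (k s X : ℕ) (α : Fin k → ℝ) : ℝ :=
  ∑ w ∈ box s X ×ˢ box s X, ‖BilE X (fun j : Fin k => α j * (BilD w j : ℝ))‖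

private theorem Bil_step1 (k s X : ℕ) (hs : 1 ≤ s) (α : Fin k → ℝ) :
    ‖bil k X α‖ ^ (2 * s) ≤ (X : ℝ) ^ (2 * s - 1) * BilA k s X α := by
  have hE : ∀ a : ℕ, (∑ b ∈ Icc 1 X, ee (∑ j : Fin k, α j * ((a : ℝ) * b) ^ ((j : ℕ) + 1))) =
      BilE X (fun j : Fin k => α j * (a : ℝ) ^ ((j : ℕ) + 1)) := by
    intro a
    unfold BilE
    refine Finset.sum_congr rfl fun b _ => ?_
    congr 1
    refine Finset.sum_congr rfl fun j _ => ?_
    rw [mul_pow]
    ring
  have h1 : ‖bil k X α‖ ≤ ∑ a ∈ Icc 1 X, ‖BilE X (fun j : Fin k => α j * (a : ℝ) ^ ((j : ℕ) + 1))‖ := by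
    unfold bil
    refine (norm_sum_le _ _).trans (le_of_eq ?_)
    refine Finset.sum_congr rfl fun a _ => ?_
    rw [hE a]
  have h2 : (∑ a ∈ Icc 1 X, ‖BilE X (fun j : Fin k => α j * (a : ℝ) ^ ((j : ℕ) + 1))‖) ^ (2 * s) ≤
      (X : ℝ) ^ (2 * s - 1) *
        ∑ a ∈ Icc 1 X, ‖BilE X (fun j : Fin k => α j * (a : ℝ) ^ ((j : ℕ) + 1))‖ ^ (2 * s) := by
    obtain ⟨n, hn⟩ : ∃ n, 2 * s = n + 1 := ⟨2 * s - 1, by omega⟩
    rw [hn, Nat.add_sub_cancel]
    have := pow_sum_le_card_mul_sum_pow (s := Icc 1 X)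
      (f := fun a : ℕ => ‖BilE X (fun j : Fin k => α j * (a : ℝ) ^ ((j : ℕ) + 1))‖)
      (fun a _ => norm_nonneg _) n
    rw [Nat.card_Icc, Nat.add_sub_cancel] at this
    exact this
  have h3 : ∑ a ∈ Icc 1 X, ‖BilE X (fun j : Fin k => α j * (a : ℝ) ^ ((j : ℕ) + 1))‖ ^ (2 * s) ≤
      BilA k s X α := by
    have e : ((∑ a ∈ Icc 1 X, ‖BilE X (fun j : Fin k => α j * (a : ℝ) ^ ((j : ℕ) + 1))‖ ^ (2 * s) : ℝ) : ℂ)
        = ∑ w ∈ box s X ×ˢ box s X, BilE X (fun j : Fin k => α j * (BilD w j : ℝ)) := by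
      rw [Complex.ofReal_sum]
      unfold BilE
      rw [Finset.sum_comm]
      refine Finset.sum_congr rfl fun a _ => ?_
      have := Bil_norm_pow k s X (fun j : Fin k => α j * (a : ℝ) ^ ((j : ℕ) + 1))
      unfold BilE at this
      rw [this]
      refine Finset.sum_congr rfl fun w _ => ?_
      congr 1
      refine Finset.sum_congr rfl fun j _ => ?_
      ring
    have h0 : 0 ≤ ∑ a ∈ Icc 1 X, ‖BilE X (fun j : Fin k => α j * (a : ℝ) ^ ((j : ℕ) + 1))‖ ^ (2 * s) :=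
      Finset.sum_nonneg fun v _ => by positivity
    have e2 : ∑ a ∈ Icc 1 X, ‖BilE X (fun j : Fin k => α j * (a : ℝ) ^ ((j : ℕ) + 1))‖ ^ (2 * s) =
        ‖((∑ a ∈ Icc 1 X, ‖BilE X (fun j : Fin k => α j * (a : ℝ) ^ ((j : ℕ) + 1))‖ ^ (2 * s) : ℝ) : ℂ)‖ := by
      rw [Complex.norm_real, Real.norm_of_nonneg h0]
    rw [e2, e]
    exact norm_sum_le _ _
  calc ‖bil k X α‖ ^ (2 * s)
      ≤ (∑ a ∈ Icc 1 X, ‖BilE X (fun j : Fin k => α j * (a : ℝ) ^ ((j : ℕ) + 1))‖) ^ (2 * s) :=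
        pow_le_pow_left₀ (norm_nonneg _) h1 _
    _ ≤ _ := h2
    _ ≤ _ := mul_le_mul_of_nonneg_left h3 (by positivity)

private theorem Bil_step2 (k s X : ℕ) (hs : 1 ≤ s) (α : Fin k → ℝ) :
    BilA k s X α ^ (2 * s) ≤ (X : ℝ) ^ (2 * s * (2 * s - 2)) * ((JV k (2 * s) X : ℝ) *
      ((JV k s X : ℝ) * ∏ j : Fin k, GG (α j) (s * X ^ ((j : ℕ) + 1)))) := by
  have hA0 : 0 ≤ BilA k s X α := Finset.sum_nonneg fun w _ => norm_nonneg _
  set B : ℝ := ∑ w ∈ box s X ×ˢ box s X, ‖BilE X (fun j : Fin k => α j * (BilD w j : ℝ))‖ ^ s with hB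
  have hB0 : 0 ≤ B := Finset.sum_nonneg fun w _ => by positivity
  have h1 : BilA k s X α ^ s ≤ (X : ℝ) ^ (2 * s * (s - 1)) * B := by
    obtain ⟨n, hn⟩ : ∃ n, s = n + 1 := ⟨s - 1, by omega⟩
    have := pow_sum_le_card_mul_sum_pow (s := box s X ×ˢ box s X)
      (f := fun w => ‖BilE X (fun j : Fin k => α j * (BilD w j : ℝ))‖)
      (fun a _ => norm_nonneg _) (s - 1)
    rw [Bil_box_card, Nat.sub_add_cancel hs] at this
    unfold BilA
    rw [hB]
    push_cast at this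
    rw [← pow_mul] at this
    exact this
  have h2 : B = ∑ v ∈ BilV k s X, (BilR k s X v : ℝ) * ‖BilE X (fun j => α j * (v j : ℝ))‖ ^ s := by
    rw [hB]
    exact Bil_fiber k s X (fun v => ‖BilE X (fun j => α j * (v j : ℝ))‖ ^ s)
  have h3 : B ^ 2 ≤ (JV k (2 * s) X : ℝ) *
      ((JV k s X : ℝ) * ∏ j : Fin k, GG (α j) (s * X ^ ((j : ℕ) + 1))) := by
    rw [h2]
    refine (Finset.sum_mul_sq_le_sq_mul_sq _ _ _).trans ?_
    have e : ∑ v ∈ BilV k s X, (‖BilE X (fun j => α j * (v j : ℝ))‖ ^ s) ^ 2 =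
        ∑ v ∈ BilV k s X, ‖BilE X (fun j => α j * (v j : ℝ))‖ ^ (2 * s) := by
      refine Finset.sum_congr rfl fun v _ => ?_
      rw [← pow_mul, mul_comm s 2]
    rw [e]
    refine mul_le_mul (Bil_sumR_sq k s X) (Bil_sumT k s X α) ?_ (by positivity)
    exact Finset.sum_nonneg fun v _ => by positivity
  calc BilA k s X α ^ (2 * s) = (BilA k s X α ^ s) ^ 2 := by rw [← pow_mul, mul_comm s 2]
    _ ≤ ((X : ℝ) ^ (2 * s * (s - 1)) * B) ^ 2 := pow_le_pow_left₀ (by positivity) h1 2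
    _ = (X : ℝ) ^ (2 * s * (2 * s - 2)) * B ^ 2 := by
        rw [mul_pow, ← pow_mul]
        congr 2
        have : 2 * s - 2 = 2 * (s - 1) := by omega
        rw [this]
        ring
    _ ≤ _ := mul_le_mul_of_nonneg_left h3 (by positivity)

theorem bil_bound (k s X : ℕ) (hs : 1 ≤ s) (hX : 1 ≤ X) (α : Fin k → ℝ) :
    ‖bil k X α‖ ^ (4 * s ^ 2) ≤ (X : ℝ) ^ (8 * s ^ 2 - 6 * s) * (JV k (2 * s) X : ℝ) * (JV k s X : ℝ) *
      ∏ j : Fin k, GG (α j) (s * X ^ ((j : ℕ) + 1)) := by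
  have hA0 : 0 ≤ BilA k s X α := Finset.sum_nonneg fun w _ => norm_nonneg _
  have e1 : ‖bil k X α‖ ^ (4 * s ^ 2) = (‖bil k X α‖ ^ (2 * s)) ^ (2 * s) := by
    rw [← pow_mul]
    congr 1
    ring
  have e2 : (2 * s - 1) * (2 * s) + 2 * s * (2 * s - 2) = 8 * s ^ 2 - 6 * s := by
    obtain ⟨n, rfl⟩ : ∃ n, s = n + 1 := ⟨s - 1, by omega⟩
    have a1 : 2 * (n + 1) - 1 = 2 * n + 1 := by omega
    have a2 : 2 * (n + 1) - 2 = 2 * n := by omega
    rw [a1, a2]
    refine (Nat.sub_eq_of_eq_add ?_).symm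
    ring
  rw [e1]
  calc (‖bil k X α‖ ^ (2 * s)) ^ (2 * s)
      ≤ ((X : ℝ) ^ (2 * s - 1) * BilA k s X α) ^ (2 * s) :=
        pow_le_pow_left₀ (by positivity) (Bil_step1 k s X hs α) _
    _ = (X : ℝ) ^ ((2 * s - 1) * (2 * s)) * BilA k s X α ^ (2 * s) := by
        rw [mul_pow, ← pow_mul]
    _ ≤ (X : ℝ) ^ ((2 * s - 1) * (2 * s)) * ((X : ℝ) ^ (2 * s * (2 * s - 2)) * ((JV k (2 * s) X : ℝ) *
      ((JV k s X : ℝ) * ∏ j : Fin k, GG (α j) (s * X ^ ((j : ℕ) + 1))))) :=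
        mul_le_mul_of_nonneg_left (Bil_step2 k s X hs α) (by positivity)
    _ = _ := by
        rw [← e2, pow_add]
        ring

end Pool.Agent.H97.VK

end
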