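import Mathlib

/-! The parts of this file: H35.W.MeanV, H92.EH.Totient, H92.EH.Exp, H92.EH.Farey. -/

section

/-!
# W MeanV: mean value theorem for Dirichlet polynomials (elementary)

Proof.  Expand: `∫_{-T}^T ‖∑‖^2 = ∑_{m,m'} a_m conj(a_m') (m m')^{-1/2} ∫_{-T}^T (m/m')^{it} dt`; the diagonal gives
`2T ∑ |a_m|^2/m`; for `m ≠ m'` the integral is `≤ 2/|log(m/m')| ≤ 2 X/|m - m'|` in absolute value
(`|log(m/m')| ≥ |m-m'|/max(m,m')`), `|a_m a_m'| (m m')^{-1/2} ≤ (|a_m|^2/m + |a_m'|^2/m')/2`, and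
`∑_{m' ≠ m, m' ≤ X} 1/|m-m'| ≤ 2 (1 + log X)`.
-/

set_option autoImplicit false

namespace Pool.Agent.H35.W

open Finset MeasureTheory

/-- the integral of a character -/
private theorem mv_int (T c : ℝ) (hc : c ≠ 0) :
    ‖∫ t in (-T)..T, Complex.exp ((c * Complex.I) * (t : ℂ))‖ ≤ 2 / |c| := by
  have hc' : (c * Complex.I : ℂ) ≠ 0 := by
    simp [hc]
  rw [integral_exp_mul_complex hc', norm_div]
  have h1 : ‖(c * Complex.I : ℂ)‖ = |c| := by simp
  rw [h1]
  refine div_le_div_of_nonneg_right ?_ (abs_nonneg _)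
  have e : ∀ s : ℝ, ‖Complex.exp ((c * Complex.I) * (s : ℂ))‖ = 1 := by
    intro s
    have : (c * Complex.I) * (s : ℂ) = ((c * s : ℝ) : ℂ) * Complex.I := by push_cast; ring
    rw [this, Complex.norm_exp_ofReal_mul_I]
  refine (norm_sub_le _ _).trans ?_
  rw [e, e]
  norm_num

/-- expansion of the mean square -/
private theorem mv_expand (b : ℕ → ℂ) (l : ℕ → ℝ) (S : Finset ℕ) (T : ℝ) :
    ∫ t in (-T)..T, ‖∑ m ∈ S, b m * Complex.exp ((l m * Complex.I) * (t : ℂ))‖ ^ 2
      ≤ ∑ m ∈ S, ∑ n ∈ S, ‖b m‖ * ‖b n‖ *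
        ‖∫ t in (-T)..T, Complex.exp ((((l m - l n : ℝ) : ℂ) * Complex.I) * (t : ℂ))‖ := by
  have hpt : ∀ t : ℝ, ((‖∑ m ∈ S, b m * Complex.exp ((l m * Complex.I) * (t : ℂ))‖ ^ 2 : ℝ) : ℂ)
      = ∑ m ∈ S, ∑ n ∈ S, b m * (starRingEnd ℂ) (b n) *
        Complex.exp ((((l m - l n : ℝ) : ℂ) * Complex.I) * (t : ℂ)) := by
    intro t
    rw [← Complex.normSq_eq_norm_sq, ← Complex.mul_conj, map_sum, Finset.sum_mul_sum]
    refine Finset.sum_congr rfl fun m _ => Finset.sum_congr rfl fun n _ => ?_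
    rw [map_mul, ← Complex.exp_conj]
    have : (starRingEnd ℂ) ((l n * Complex.I) * (t : ℂ)) = -((l n * Complex.I) * (t : ℂ)) := by
      simp
    rw [this]
    have e : Complex.exp ((((l m - l n : ℝ) : ℂ) * Complex.I) * (t : ℂ)) =
        Complex.exp ((l m * Complex.I) * (t : ℂ)) * Complex.exp (-((l n * Complex.I) * (t : ℂ))) := by
      rw [← Complex.exp_add]
      congr 1
      push_cast
      ring
    rw [e]
    ring
  have hcont : ∀ c : ℝ, Continuous fun t : ℝ => Complex.exp ((c * Complex.I) * (t : ℂ)) := by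
    intro c
    fun_prop
  have hint : ((∫ t in (-T)..T, ‖∑ m ∈ S, b m * Complex.exp ((l m * Complex.I) * (t : ℂ))‖ ^ 2 : ℝ) : ℂ)
      = ∑ m ∈ S, ∑ n ∈ S, b m * (starRingEnd ℂ) (b n) *
        ∫ t in (-T)..T, Complex.exp ((((l m - l n : ℝ) : ℂ) * Complex.I) * (t : ℂ)) := by
    rw [← intervalIntegral.integral_ofReal]
    have : (fun t : ℝ => ((‖∑ m ∈ S, b m * Complex.exp ((l m * Complex.I) * (t : ℂ))‖ ^ 2 : ℝ) : ℂ))
        = fun t : ℝ => ∑ m ∈ S, ∑ n ∈ S, b m * (starRingEnd ℂ) (b n) *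
        Complex.exp ((((l m - l n : ℝ) : ℂ) * Complex.I) * (t : ℂ)) := funext hpt
    rw [intervalIntegral.integral_congr (g := fun t : ℝ => ∑ m ∈ S, ∑ n ∈ S,
      b m * (starRingEnd ℂ) (b n) *
        Complex.exp ((((l m - l n : ℝ) : ℂ) * Complex.I) * (t : ℂ))) (fun t _ => hpt t)]
    rw [intervalIntegral.integral_finsetSum]
    · refine Finset.sum_congr rfl fun m _ => ?_
      rw [intervalIntegral.integral_finsetSum]
      · refine Finset.sum_congr rfl fun n _ => ?_
        rw [intervalIntegral.integral_const_mul]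
      · intro n _
        exact ((hcont _).const_mul _).intervalIntegrable _ _
    · intro m _
      refine Continuous.intervalIntegrable ?_ _ _
      refine continuous_finsetSum _ fun n _ => ?_
      exact continuous_const.mul (hcont _)
  have hn : ∫ t in (-T)..T, ‖∑ m ∈ S, b m * Complex.exp ((l m * Complex.I) * (t : ℂ))‖ ^ 2 ≤
      ‖((∫ t in (-T)..T, ‖∑ m ∈ S, b m * Complex.exp ((l m * Complex.I) * (t : ℂ))‖ ^ 2 : ℝ) : ℂ)‖ := by
    rw [Complex.norm_real]
    exact le_abs_self _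
  refine hn.trans ?_
  rw [hint]
  refine (norm_sum_le _ _).trans (Finset.sum_le_sum fun m _ => ?_)
  refine (norm_sum_le _ _).trans (Finset.sum_le_sum fun n _ => ?_)
  rw [norm_mul, norm_mul, Complex.norm_conj]

/-- harmonic bound -/
private theorem mv_harm (X : ℕ) : ∑ i ∈ range X, (1 : ℝ) / ((i : ℝ) + 1) ≤ 1 + Real.log X := by
  have h := harmonic_le_one_add_log X
  have e : ((harmonic X : ℚ) : ℝ) = ∑ i ∈ range X, (1 : ℝ) / ((i : ℝ) + 1) := by
    unfold harmonic
    push_cast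
    exact Finset.sum_congr rfl fun i _ => by rw [one_div]
  linarith

private theorem mv_row (X m : ℕ) (hm : m ∈ Icc 1 X) :
    ∑ n ∈ (Icc 1 X).filter (fun n => n ≠ m), (1 : ℝ) / |(m : ℝ) - n| ≤ 2 * (1 + Real.log X) := by
  have hm' := Finset.mem_Icc.1 hm
  have hsplit : (Icc 1 X).filter (fun n => n ≠ m) =
      (Icc 1 X).filter (fun n => n < m) ∪ (Icc 1 X).filter (fun n => m < n) := by
    ext n
    simp only [Finset.mem_filter, Finset.mem_union, Finset.mem_Icc]
    omega
  have hdisj : Disjoint ((Icc 1 X).filter (fun n => n < m)) ((Icc 1 X).filter (fun n => m < n)) := by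
    rw [Finset.disjoint_left]
    intro n h1 h2
    have := (Finset.mem_filter.1 h1).2
    have := (Finset.mem_filter.1 h2).2
    omega
  rw [hsplit, Finset.sum_union hdisj]
  have h1 : ∑ n ∈ (Icc 1 X).filter (fun n => n < m), (1 : ℝ) / |(m : ℝ) - n| ≤ 1 + Real.log X := by
    refine le_trans ?_ (mv_harm X)
    have hinj : Set.InjOn (fun n => m - n - 1) ((Icc 1 X).filter (fun n => n < m) : Finset ℕ) := by
      intro a ha b hb hab
      have ha' := (Finset.mem_filter.1 (Finset.mem_coe.1 ha)).2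
      have hb' := (Finset.mem_filter.1 (Finset.mem_coe.1 hb)).2
      simp only at hab
      omega
    have hsub : ((Icc 1 X).filter (fun n => n < m)).image (fun n => m - n - 1) ⊆ range X := by
      intro k hk
      obtain ⟨n, hn, rfl⟩ := Finset.mem_image.1 hk
      have hn' := Finset.mem_filter.1 hn
      have := Finset.mem_Icc.1 hn'.1
      rw [Finset.mem_range]
      omega
    calc ∑ n ∈ (Icc 1 X).filter (fun n => n < m), (1 : ℝ) / |(m : ℝ) - n|
        = ∑ n ∈ (Icc 1 X).filter (fun n => n < m), (1 : ℝ) / (((m - n - 1 : ℕ) : ℝ) + 1) := by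
          refine Finset.sum_congr rfl fun n hn => ?_
          have hn' := (Finset.mem_filter.1 hn).2
          have e : ((m - n - 1 : ℕ) : ℝ) + 1 = (m : ℝ) - n := by
            have : m - n - 1 + 1 + n = m := by omega
            have h3 : (((m - n - 1 + 1 + n : ℕ)) : ℝ) = (m : ℝ) := by rw [this]
            push_cast at h3
            linarith
          rw [e, abs_of_pos]
          have : (n : ℝ) < m := by exact_mod_cast hn'
          linarith
      _ = ∑ k ∈ ((Icc 1 X).filter (fun n => n < m)).image (fun n => m - n - 1),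
            (1 : ℝ) / ((k : ℝ) + 1) := by
          rw [Finset.sum_image hinj]
      _ ≤ ∑ i ∈ range X, (1 : ℝ) / ((i : ℝ) + 1) :=
          Finset.sum_le_sum_of_subset_of_nonneg hsub fun i _ _ => by positivity
  have h2 : ∑ n ∈ (Icc 1 X).filter (fun n => m < n), (1 : ℝ) / |(m : ℝ) - n| ≤ 1 + Real.log X := by
    refine le_trans ?_ (mv_harm X)
    have hinj : Set.InjOn (fun n => n - m - 1) ((Icc 1 X).filter (fun n => m < n) : Finset ℕ) := by
      intro a ha b hb hab
      have ha' := (Finset.mem_filter.1 (Finset.mem_coe.1 ha)).2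
      have hb' := (Finset.mem_filter.1 (Finset.mem_coe.1 hb)).2
      simp only at hab
      omega
    have hsub : ((Icc 1 X).filter (fun n => m < n)).image (fun n => n - m - 1) ⊆ range X := by
      intro k hk
      obtain ⟨n, hn, rfl⟩ := Finset.mem_image.1 hk
      have hn' := Finset.mem_filter.1 hn
      have := Finset.mem_Icc.1 hn'.1
      rw [Finset.mem_range]
      omega
    calc ∑ n ∈ (Icc 1 X).filter (fun n => m < n), (1 : ℝ) / |(m : ℝ) - n|
        = ∑ n ∈ (Icc 1 X).filter (fun n => m < n), (1 : ℝ) / (((n - m - 1 : ℕ) : ℝ) + 1) := by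
          refine Finset.sum_congr rfl fun n hn => ?_
          have hn' := (Finset.mem_filter.1 hn).2
          have e : ((n - m - 1 : ℕ) : ℝ) + 1 = (n : ℝ) - m := by
            have : n - m - 1 + 1 + m = n := by omega
            have h3 : (((n - m - 1 + 1 + m : ℕ)) : ℝ) = (n : ℝ) := by rw [this]
            push_cast at h3
            linarith
          rw [e, abs_sub_comm, abs_of_pos]
          have : (m : ℝ) < n := by exact_mod_cast hn'
          linarith
      _ = ∑ k ∈ ((Icc 1 X).filter (fun n => m < n)).image (fun n => n - m - 1),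
            (1 : ℝ) / ((k : ℝ) + 1) := by
          rw [Finset.sum_image hinj]
      _ ≤ ∑ i ∈ range X, (1 : ℝ) / ((i : ℝ) + 1) :=
          Finset.sum_le_sum_of_subset_of_nonneg hsub fun i _ _ => by positivity
  linarith

private theorem mv_log {m n X : ℕ} (hm : m ∈ Icc 1 X) (hn : n ∈ Icc 1 X) (hne : n ≠ m) :
    |(m : ℝ) - n| / X ≤ |Real.log m - Real.log n| := by
  have key : ∀ a b : ℕ, a ∈ Icc 1 X → b ∈ Icc 1 X → b < a →
      ((a : ℝ) - b) / X ≤ Real.log a - Real.log b := by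
    intro a b ha hb hlt
    have ha' := Finset.mem_Icc.1 ha
    have hb' := Finset.mem_Icc.1 hb
    have ha0 : (0 : ℝ) < a := by exact_mod_cast (show 0 < a by omega)
    have hb0 : (0 : ℝ) < b := by exact_mod_cast (show 0 < b by omega)
    have hX : (0 : ℝ) < X := by exact_mod_cast (show 0 < X by omega)
    have haX : (a : ℝ) ≤ X := by exact_mod_cast ha'.2
    have hlt' : (b : ℝ) < a := by exact_mod_cast hlt
    have h := Real.log_le_sub_one_of_pos (div_pos hb0 ha0)
    rw [Real.log_div hb0.ne' ha0.ne'] at h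
    have e : (b : ℝ) / a - 1 = -(((a : ℝ) - b) / a) := by field_simp; ring
    rw [e] at h
    have h2 : ((a : ℝ) - b) / X ≤ ((a : ℝ) - b) / a :=
      div_le_div_of_nonneg_left (by linarith) ha0 haX
    linarith
  rcases lt_or_gt_of_ne hne with h | h
  · have h1 := key m n hm hn h
    have h2 : (n : ℝ) < m := by exact_mod_cast h
    rw [abs_of_pos (by linarith : (0 : ℝ) < (m : ℝ) - n)]
    exact h1.trans (le_abs_self _)
  · have h1 := key n m hn hm h
    have h2 : (m : ℝ) < n := by exact_mod_cast h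
    rw [abs_sub_comm, abs_of_pos (by linarith : (0 : ℝ) < (n : ℝ) - m), abs_sub_comm]
    exact h1.trans (le_abs_self _)

/-- the kernel -/
private noncomputable def mvK (X : ℕ) (T : ℝ) (m n : ℕ) : ℝ :=
  if n = m then 2 * T else 2 * X * (1 / |(m : ℝ) - n|)

private theorem mvK_symm (X : ℕ) (T : ℝ) (m n : ℕ) : mvK X T m n = mvK X T n m := by
  unfold mvK
  by_cases h : n = m
  · rw [if_pos h, if_pos h.symm]
  · rw [if_neg h, if_neg (Ne.symm h), abs_sub_comm]

private theorem mvK_nonneg (X : ℕ) {T : ℝ} (hT : 0 ≤ T) (m n : ℕ) : 0 ≤ mvK X T m n := by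
  unfold mvK
  split_ifs <;> positivity

private theorem mvK_row (X m : ℕ) (T : ℝ) (hm : m ∈ Icc 1 X) :
    ∑ n ∈ Icc 1 X, mvK X T m n ≤ 2 * T + 4 * X * (1 + Real.log X) := by
  rw [← Finset.sum_filter_add_sum_filter_not (Icc 1 X) (fun n => n = m)]
  have h1 : ∑ n ∈ (Icc 1 X).filter (fun n => n = m), mvK X T m n = 2 * T := by
    rw [Finset.filter_eq' (Icc 1 X) m, if_pos hm, Finset.sum_singleton]
    unfold mvK
    rw [if_pos rfl]
  have h2 : ∑ n ∈ (Icc 1 X).filter (fun n => ¬ n = m), mvK X T m n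
      = 2 * X * ∑ n ∈ (Icc 1 X).filter (fun n => n ≠ m), (1 : ℝ) / |(m : ℝ) - n| := by
    rw [Finset.mul_sum]
    refine Finset.sum_congr rfl fun n hn => ?_
    unfold mvK
    rw [if_neg (Finset.mem_filter.1 hn).2]
  rw [h1, h2]
  have h3 := mul_le_mul_of_nonneg_left (mv_row X m hm) (by positivity : (0 : ℝ) ≤ 2 * X)
  linarith

private theorem mv_kernel {X m n : ℕ} {T : ℝ} (hT : 0 ≤ T) (hm : m ∈ Icc 1 X) (hn : n ∈ Icc 1 X) :
    ‖∫ t in (-T)..T, Complex.exp ((((Real.log m - Real.log n : ℝ) : ℂ) * Complex.I) * (t : ℂ))‖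
      ≤ mvK X T m n := by
  unfold mvK
  by_cases h : n = m
  · rw [if_pos h, h]
    have e : ∀ t : ℝ, Complex.exp ((((Real.log m - Real.log m : ℝ) : ℂ) * Complex.I) * (t : ℂ)) = 1 := by
      intro t
      rw [sub_self]
      simp
    simp only [e]
    rw [intervalIntegral.integral_const]
    simp only [Complex.real_smul, mul_one]
    rw [Complex.norm_real, Real.norm_eq_abs, abs_of_nonneg (by linarith)]
    linarith
  · rw [if_neg h]
    have hX : (0 : ℝ) < X := by
      have := Finset.mem_Icc.1 hm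
      exact_mod_cast (show 0 < X by omega)
    have hne : (m : ℝ) - n ≠ 0 := by
      intro h0
      apply h
      have : (n : ℝ) = m := by linarith
      exact_mod_cast this
    have hpos : 0 < |(m : ℝ) - n| := abs_pos.2 hne
    have hl := mv_log hm hn h
    have hlpos : 0 < |Real.log m - Real.log n| := lt_of_lt_of_le (div_pos hpos hX) hl
    refine (mv_int T _ (abs_pos.1 hlpos)).trans ?_
    calc 2 / |Real.log m - Real.log n| ≤ 2 / (|(m : ℝ) - n| / X) :=
          div_le_div_of_nonneg_left (by norm_num) (div_pos hpos hX) hl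
      _ = 2 * X * (1 / |(m : ℝ) - n|) := by field_simp

theorem mean_v (a : ℕ → ℂ) (X : ℕ) (T : ℝ) (hX : 1 ≤ X) (hT : 0 ≤ T) :
    ∫ t in (-T)..T, ‖∑ m ∈ Icc 1 X, a m * (m : ℂ) ^ (-(1 / 2 : ℂ) + t * Complex.I)‖ ^ 2
      ≤ (2 * T + 4 * X * (1 + Real.log X)) * ∑ m ∈ Icc 1 X, ‖a m‖ ^ 2 / m := by
  set b : ℕ → ℂ := fun m => a m * (m : ℂ) ^ (-(1 / 2 : ℂ)) with hb
  have hbn : ∀ m ∈ Icc 1 X, ‖b m‖ ^ 2 = ‖a m‖ ^ 2 / m := by
    intro m hm
    have hm' := Finset.mem_Icc.1 hm
    have hm0 : (0 : ℝ) < m := by exact_mod_cast (show 0 < m by omega)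
    rw [hb]
    simp only
    rw [norm_mul, mul_pow, Complex.norm_natCast_cpow_of_pos (by omega)]
    have e : (-(1 / 2 : ℂ)).re = -(1 / 2 : ℝ) := by simp
    rw [e, ← Real.rpow_natCast, ← Real.rpow_natCast, ← Real.rpow_mul hm0.le]
    norm_num
    rw [Real.rpow_neg_one]
    ring
  have hpt : ∀ t : ℝ, ∑ m ∈ Icc 1 X, a m * (m : ℂ) ^ (-(1 / 2 : ℂ) + t * Complex.I)
      = ∑ m ∈ Icc 1 X, b m * Complex.exp ((((Real.log m : ℝ) : ℂ) * Complex.I) * (t : ℂ)) := by
    intro t
    refine Finset.sum_congr rfl fun m hm => ?_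
    have hm' := Finset.mem_Icc.1 hm
    have hm0 : (m : ℂ) ≠ 0 := by exact_mod_cast (show m ≠ 0 by omega)
    rw [hb]
    simp only
    rw [Complex.cpow_add _ _ hm0, mul_assoc]
    congr 2
    rw [Complex.cpow_def_of_ne_zero hm0, ← Complex.natCast_log]
    congr 1
    ring
  simp_rw [hpt]
  refine (mv_expand b (fun m => Real.log m) (Icc 1 X) T).trans ?_
  calc ∑ m ∈ Icc 1 X, ∑ n ∈ Icc 1 X, ‖b m‖ * ‖b n‖ *
        ‖∫ t in (-T)..T, Complex.exp ((((Real.log m - Real.log n : ℝ) : ℂ) * Complex.I) * (t : ℂ))‖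
      ≤ ∑ m ∈ Icc 1 X, ∑ n ∈ Icc 1 X, (‖b m‖ ^ 2 / 2 * mvK X T m n + ‖b n‖ ^ 2 / 2 * mvK X T m n) := by
        refine Finset.sum_le_sum fun m hm => Finset.sum_le_sum fun n hn => ?_
        have h1 := mv_kernel hT hm hn
        have h2 : ‖b m‖ * ‖b n‖ ≤ ‖b m‖ ^ 2 / 2 + ‖b n‖ ^ 2 / 2 := by
          nlinarith [sq_nonneg (‖b m‖ - ‖b n‖)]
        have h3 := mvK_nonneg X hT m n
        calc ‖b m‖ * ‖b n‖ * ‖∫ t in (-T)..T,
              Complex.exp ((((Real.log m - Real.log n : ℝ) : ℂ) * Complex.I) * (t : ℂ))‖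
            ≤ ‖b m‖ * ‖b n‖ * mvK X T m n := mul_le_mul_of_nonneg_left h1 (by positivity)
          _ ≤ (‖b m‖ ^ 2 / 2 + ‖b n‖ ^ 2 / 2) * mvK X T m n := mul_le_mul_of_nonneg_right h2 h3
          _ = _ := by ring
    _ = ∑ m ∈ Icc 1 X, ‖b m‖ ^ 2 * ∑ n ∈ Icc 1 X, mvK X T m n := by
        simp_rw [Finset.sum_add_distrib]
        have e1 : ∑ m ∈ Icc 1 X, ∑ n ∈ Icc 1 X, ‖b n‖ ^ 2 / 2 * mvK X T m n
            = ∑ m ∈ Icc 1 X, ∑ n ∈ Icc 1 X, ‖b m‖ ^ 2 / 2 * mvK X T m n := by
          rw [Finset.sum_comm]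
          refine Finset.sum_congr rfl fun m _ => Finset.sum_congr rfl fun n _ => ?_
          rw [mvK_symm]
        rw [e1, ← Finset.sum_add_distrib]
        refine Finset.sum_congr rfl fun m _ => ?_
        rw [← Finset.sum_add_distrib, Finset.mul_sum]
        refine Finset.sum_congr rfl fun n _ => ?_
        ring
    _ ≤ ∑ m ∈ Icc 1 X, ‖b m‖ ^ 2 * (2 * T + 4 * X * (1 + Real.log X)) := by
        refine Finset.sum_le_sum fun m hm => ?_
        exact mul_le_mul_of_nonneg_left (mvK_row X m T hm) (by positivity)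
    _ = (2 * T + 4 * X * (1 + Real.log X)) * ∑ m ∈ Icc 1 X, ‖a m‖ ^ 2 / m := by
        rw [Finset.mul_sum]
        refine Finset.sum_congr rfl fun m hm => ?_
        rw [hbn m hm]
        ring

end Pool.Agent.H35.W

end

section

/-!
A lower bound for Euler's function in terms of the number of prime factors, and a bound for
that number.
-/

set_option autoImplicit false

namespace Pool.Agent.H92.EH

open Finset

theorem prod_one_sub_inv_ge (S : Finset ℕ) (hS : ∀ p ∈ S, 2 ≤ p) :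
    (1 : ℝ) / (S.card + 1) ≤ ∏ p ∈ S, (1 - (p : ℝ)⁻¹) := by
  induction S using Finset.induction_on_max with
  | empty => simp
  | insert a s hmax ih =>
    have ha : a ∉ s := fun h => lt_irrefl _ (hmax a h)
    rw [prod_insert ha, card_insert_of_notMem ha]
    have h1 := ih (fun p hp => hS p (mem_insert_of_mem hp))
    -- `a ≥ card s + 2`
    have h2 : s.card + 2 ≤ a := by
      have hsub : s ⊆ Ico 2 a := by
        intro p hp
        rw [mem_Ico]
        exact ⟨hS p (mem_insert_of_mem hp), hmax p hp⟩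
      have h3 := card_le_card hsub
      rw [Nat.card_Ico] at h3
      have h4 := hS a (mem_insert_self _ _)
      omega
    have h2' : ((s.card : ℝ) + 2) ≤ a := by exact_mod_cast h2
    have hc : (0 : ℝ) ≤ s.card := by positivity
    have h5 : (1 : ℝ) - ((s.card : ℝ) + 2)⁻¹ ≤ 1 - (a : ℝ)⁻¹ := by
      have : (a : ℝ)⁻¹ ≤ ((s.card : ℝ) + 2)⁻¹ := inv_anti₀ (by positivity) h2'
      linarith
    have h6 : (1 : ℝ) - ((s.card : ℝ) + 2)⁻¹ = ((s.card : ℝ) + 1) / (s.card + 2) := by
      field_simp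
      ring
    have h7 : (0 : ℝ) ≤ ((s.card : ℝ) + 1) / (s.card + 2) := by positivity
    push_cast
    calc (1 : ℝ) / ((s.card : ℝ) + 1 + 1)
        = (((s.card : ℝ) + 1) / (s.card + 2)) * (1 / (s.card + 1)) := by
          field_simp
          ring
      _ ≤ (1 - (a : ℝ)⁻¹) * ∏ p ∈ s, (1 - (p : ℝ)⁻¹) := by
          rw [← h6] at h7
          apply mul_le_mul (by rw [← h6]; exact h5) h1 (by positivity) (h7.trans h5)

theorem le_totient_mul (q : ℕ) :
    (q : ℝ) ≤ Nat.totient q * (q.primeFactors.card + 1) := by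
  have h1 : (Nat.totient q : ℝ) = q * ∏ p ∈ q.primeFactors, (1 - (p : ℝ)⁻¹) := by
    have := Nat.totient_eq_mul_prod_factors q
    have h2 : ((Nat.totient q : ℚ) : ℝ) = ((q * ∏ p ∈ q.primeFactors, (1 - (p : ℚ)⁻¹) : ℚ) : ℝ) := by
      rw [this]
    push_cast at h2
    exact h2
  have h3 := prod_one_sub_inv_ge q.primeFactors (fun p hp => (Nat.prime_of_mem_primeFactors hp).two_le)
  rw [h1]
  have hc : (0 : ℝ) < (q.primeFactors.card : ℝ) + 1 := by positivity
  rw [div_le_iff₀ hc] at h3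
  have hq : (0 : ℝ) ≤ q := by positivity
  nlinarith

theorem card_primeFactors_le (q : ℕ) : q.primeFactors.card ≤ Nat.log 2 q := by
  rcases Nat.eq_zero_or_pos q with rfl | hq
  · simp
  · apply Nat.le_log_of_pow_le (by norm_num)
    calc 2 ^ q.primeFactors.card ≤ ∏ p ∈ q.primeFactors, p := by
          rw [← prod_const]
          exact prod_le_prod' fun p hp => (Nat.prime_of_mem_primeFactors hp).two_le
      _ ≤ q := Nat.le_of_dvd hq (Nat.prod_primeFactors_dvd q)

end Pool.Agent.H92.EH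

end

section

/-!
The additive character `e t = exp (2 π i t)` and elementary estimates.
-/

set_option autoImplicit false

namespace Pool.Agent.H92.EH

open Finset

/-- `e t = exp (2 π i t)`. -/
noncomputable def e (t : ℝ) : ℂ := Complex.exp (Complex.I * ((2 * Real.pi * t : ℝ) : ℂ))

theorem e_zero : e 0 = 1 := by simp [e]

theorem e_add (s t : ℝ) : e (s + t) = e s * e t := by
  unfold e
  rw [← Complex.exp_add]
  congr 1
  push_cast
  ring

theorem norm_e (t : ℝ) : ‖e t‖ = 1 := Complex.norm_exp_I_mul_ofReal _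

theorem e_int (n : ℤ) : e n = 1 := by
  unfold e
  rw [Complex.exp_eq_one_iff]
  exact ⟨n, by push_cast; ring⟩

theorem e_nat (n : ℕ) : e n = 1 := by
  have := e_int n
  simpa using this

theorem e_add_int (t : ℝ) (n : ℤ) : e (t + n) = e t := by
  rw [e_add, e_int, mul_one]

theorem e_sub_int (t : ℝ) (n : ℤ) : e (t - n) = e t := by
  have := e_add_int t (-n)
  push_cast at this
  rw [← sub_eq_add_neg] at this
  exact this

theorem e_neg (t : ℝ) : e (-t) = (starRingEnd ℂ) (e t) := by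
  unfold e
  rw [← Complex.exp_conj, map_mul, Complex.conj_I, Complex.conj_ofReal]
  congr 1
  push_cast
  ring

theorem e_mul_conj (s t : ℝ) : e s * (starRingEnd ℂ) (e t) = e (s - t) := by
  rw [← e_neg, ← e_add, sub_eq_add_neg]

theorem e_nat_mul (n : ℕ) (t : ℝ) : e (n * t) = e t ^ n := by
  unfold e
  rw [← Complex.exp_nat_mul]
  congr 1
  push_cast
  ring

/-- Lower bound for `|e t - 1|` when `|t| ≤ 1/2`. -/
theorem le_norm_e_sub_one_of_abs_le {t : ℝ} (ht : |t| ≤ 1 / 2) : 4 * |t| ≤ ‖e t - 1‖ := by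
  unfold e
  rw [Complex.norm_exp_I_mul_ofReal_sub_one]
  have h1 : 2 * Real.pi * t / 2 = Real.pi * t := by ring
  rw [h1]
  have h2 : 2 / Real.pi * |Real.pi * t| ≤ |Real.sin (Real.pi * t)| := by
    apply Real.mul_abs_le_abs_sin
    rw [abs_mul, abs_of_pos Real.pi_pos]
    have := Real.pi_pos
    nlinarith
  rw [abs_mul, abs_of_pos Real.pi_pos] at h2
  have h3 : 2 / Real.pi * (Real.pi * |t|) = 2 * |t| := by
    field_simp
  rw [h3] at h2
  simp only [norm_mul, Real.norm_eq_abs]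
  rw [abs_of_pos (by norm_num : (0:ℝ) < 2)]
  linarith

/-- If `|t - m| ≥ δ` for all integers `m` then `|e t - 1| ≥ 4 δ`. -/
theorem le_norm_e_sub_one {t δ : ℝ} (h : ∀ m : ℤ, δ ≤ |t - m|) : 4 * δ ≤ ‖e t - 1‖ := by
  have h1 := h (round t)
  have h2 : |t - round t| ≤ 1 / 2 := abs_sub_round t
  have h3 := le_norm_e_sub_one_of_abs_le h2
  rw [e_sub_int] at h3
  linarith

end Pool.Agent.H92.EH

end

section

/-!
Farey fractions are well spaced, and the resulting mean value estimate for exponential sums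
over primes.
-/

set_option autoImplicit false

namespace Pool.Agent.H92.EH

open Finset

/-- Reduced residues modulo `r`, as natural numbers less than `r`. -/
def red (r : ℕ) : Finset ℕ := (range r).filter (fun b => Nat.Coprime b r)

theorem mem_red {r b : ℕ} : b ∈ red r ↔ b < r ∧ Nat.Coprime b r := by
  simp [red]

theorem card_red (r : ℕ) : (red r).card = Nat.totient r := by
  unfold red
  rw [Nat.totient_eq_card_coprime]
  congr 1
  ext b
  simp [Nat.coprime_comm]

theorem farey_spacing {r r' b b' : ℕ} (hr : 0 < r) (hr' : 0 < r') (hb : b ∈ red r)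
    (hb' : b' ∈ red r') (hne : ¬ (r = r' ∧ b = b')) (m : ℤ) :
    (1 : ℝ) / (r * r') ≤ |(b : ℝ) / r - (b' : ℝ) / r' - m| := by
  have hr0 : (0 : ℝ) < r := by exact_mod_cast hr
  have hr0' : (0 : ℝ) < r' := by exact_mod_cast hr'
  rw [mem_red] at hb hb'
  set N : ℤ := (b : ℤ) * r' - b' * r - m * (r * r') with hN
  have h1 : (b : ℝ) / r - (b' : ℝ) / r' - m = (N : ℝ) / (r * r') := by
    rw [hN]
    push_cast
    field_simp
  have hN0 : N ≠ 0 := by
    intro h0
    apply hne
    have h2 : (b : ℤ) * r' = r * (b' + m * r') := by rw [hN] at h0; linarith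
    have h3 : (b' : ℤ) * r = r' * (b - m * r) := by rw [hN] at h0; linarith
    have d1 : (r : ℤ) ∣ b * r' := ⟨_, h2⟩
    have d2 : (r' : ℤ) ∣ b' * r := ⟨_, h3⟩
    have d1' : r ∣ b * r' := by exact_mod_cast d1
    have d2' : r' ∣ b' * r := by exact_mod_cast d2
    have e1 : r ∣ r' := (Nat.Coprime.dvd_of_dvd_mul_left (Nat.coprime_comm.mp hb.2) d1')
    have e2 : r' ∣ r := (Nat.Coprime.dvd_of_dvd_mul_left (Nat.coprime_comm.mp hb'.2) d2')
    have e3 : r = r' := Nat.dvd_antisymm e1 e2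
    refine ⟨e3, ?_⟩
    subst e3
    have h4 : (r : ℤ) * b = r * (b' + m * r) := by linarith
    have hrz : (r : ℤ) ≠ 0 := by exact_mod_cast hr.ne'
    have h5 : (b : ℤ) = b' + m * r := mul_left_cancel₀ hrz h4
    have h6 : (b : ℤ) < r := by exact_mod_cast hb.1
    have h7 : (b' : ℤ) < r := by exact_mod_cast hb'.1
    have h8 : (0 : ℤ) ≤ b := by positivity
    have h9 : (0 : ℤ) ≤ b' := by positivity
    have h10 : m = 0 := by
      by_contra hm
      rcases lt_or_gt_of_ne hm with hm | hm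
      · have : m * r ≤ -1 * r := mul_le_mul_of_nonneg_right (by omega) (by positivity)
        linarith
      · have : 1 * (r : ℤ) ≤ m * r := mul_le_mul_of_nonneg_right (by omega) (by positivity)
        linarith
    rw [h10] at h5
    simp at h5
    exact h5
  rw [h1, abs_div, abs_of_pos (by positivity : (0 : ℝ) < r * r')]
  apply div_le_div_of_nonneg_right _ (by positivity)
  have : (1 : ℤ) ≤ |N| := Int.one_le_abs hN0
  exact_mod_cast this

end Pool.Agent.H92.EH

end
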