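import Pool.Agent.H43.PM.H53.MID.Nz
import Pool.Agent.H43.PM.H91.EHA.Defs
import Pool.Agent.H43.PM.M01
import Pool.Agent.H43.PM.M02

/-! The parts of this file: H53.MDB.Defs, H53.MDB.Young, H53.MDB.Fej, H53.MIX.Defs, H53.MDB.SRes, H76.EHB.Jred, H76.EHB.Mell, H76.SP.Defs, H91.EHA.T1fin, H35.W.PowZ, H35.W.BadM, H35.W.BadN, H76.EHB.JB, H91.PK.Vau, H53.MIX.VkPrW. -/

section

/-!
# MDB Defs: the boost (part II of project MDX/MIX)

`L = log N`, `Q = exp(L^t2)`.
* `CombWk t t2`: the weak combinatorial theorem (project MDX of helper74): a rational approximation with denominator `d ≤ Q` on a set `F1` of `≥ n/Q` indices.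
* `QS C P U`: the quadruples `((i, p), (i', p'))` with `i, i' ∈ U`, `p, p'` primes in `(P, 2P]`, `|i p' - i' p| ≤ 4 C P`.
* `Cov C n Q η α r U s d b T`: the set `U` is divided into `r ≤ C Q` classes (`s i < r` is the number of the class of `i`); `j`-th class: data `d j ≤ Q`, `b j` prime to `d j`, `|T j| ≤ Q η n^2`, and
  `nz (α i - b/d - T/i) ≤ Q η` for all `i` of the class.
* `NB C P U δ bb`: the quadruples of `QS` with `p bb(i) ≡ p' bb(i') mod δ`.
* `sres P δ r t = ∑_{P < m ≤ 2P, m ≡ r mod δ} m^(-2πit)`.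
* `GG P δ U bb t = ∑_{β mod δ} |∑_{i ∈ U} ∑_{P < m ≤ 2P, (m,δ)=1, m bb(i) ≡ β} (i/m)^(2πit)|^2`.
-/

set_option autoImplicit false

namespace Pool.Agent.H53.MDB

open Finset
open Pool.Agent.H91.PK (ee)
open Pool.Agent.H53.MID (nz Rel)

/-- the weak combinatorial theorem -/
def CombWk (t t2 : ℝ) : Prop := ∀ (C : ℝ), 1 ≤ C → ∀ C0 : ℕ, ∃ N0 : ℕ, ∀ N : ℕ, N0 ≤ N →
  ∀ (n P : ℕ) (η : ℝ) (F0 G0 : Finset ℕ) (α β : ℕ → ℝ) (R0 : Finset (ℕ × ℕ × ℕ)),
    Real.exp (Real.log N ^ t) ≤ P → P ≤ N → 1 ≤ n → n ≤ N → 0 < η → η * Real.exp (Real.log N ^ t2) * (P : ℝ) ^ 3 ≤ 1 →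
    Rel C n P (η * P) F0 G0 α β R0 → n * P / Real.log N ^ C0 ≤ (R0.card : ℝ) →
    ∃ (d b : ℕ) (T : ℝ) (F1 : Finset ℕ), 1 ≤ d ∧ (d : ℝ) ≤ Real.exp (Real.log N ^ t2) ∧ Nat.Coprime b d ∧
      |T| ≤ Real.exp (Real.log N ^ t2) * η * (n : ℝ) ^ 2 ∧ F1 ⊆ F0 ∧ (n : ℝ) ≤ Real.exp (Real.log N ^ t2) * F1.card ∧
      ∀ i ∈ F1, nz (α i - b / d - T / i) ≤ Real.exp (Real.log N ^ t2) * η

/-- quadruples -/
noncomputable def QS (C : ℝ) (P : ℕ) (U : Finset ℕ) : Finset ((ℕ × ℕ) × (ℕ × ℕ)) := by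
  classical
  exact ((U ×ˢ (Ioc P (2 * P)).filter Nat.Prime) ×ˢ (U ×ˢ (Ioc P (2 * P)).filter Nat.Prime)).filter
    (fun q => |(q.1.1 : ℝ) * q.2.2 - q.2.1 * q.1.2| ≤ 4 * C * P)

theorem mem_QS {C : ℝ} {P : ℕ} {U : Finset ℕ} {q : (ℕ × ℕ) × (ℕ × ℕ)} :
    q ∈ QS C P U ↔ q.1.1 ∈ U ∧ P < q.1.2 ∧ q.1.2 ≤ 2 * P ∧ q.1.2.Prime ∧ q.2.1 ∈ U ∧ P < q.2.2 ∧ q.2.2 ≤ 2 * P ∧ q.2.2.Prime ∧
      |(q.1.1 : ℝ) * q.2.2 - q.2.1 * q.1.2| ≤ 4 * C * P := by
  classical
  unfold QS
  rw [Finset.mem_filter, Finset.mem_product, Finset.mem_product, Finset.mem_product, Finset.mem_filter, Finset.mem_filter,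
    Finset.mem_Ioc, Finset.mem_Ioc]
  tauto

/-- the cover of `U` by classes with a common rational approximation -/
structure Cov (C : ℝ) (n : ℕ) (Q η : ℝ) (α : ℕ → ℝ) (r : ℕ) (U : Finset ℕ) (s d b : ℕ → ℕ) (T : ℕ → ℝ) : Prop where
  cnt : (r : ℝ) ≤ C * Q
  rng : ∀ i ∈ U, (n : ℝ) / C ≤ i ∧ (i : ℝ) ≤ C * n
  lab : ∀ i ∈ U, s i < r
  dat : ∀ j < r, 1 ≤ d j ∧ (d j : ℝ) ≤ Q ∧ Nat.Coprime (b j) (d j) ∧ |T j| ≤ Q * η * (n : ℝ) ^ 2
  frq : ∀ i ∈ U, nz (α i - b (s i) / d (s i) - T (s i) / i) ≤ Q * η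

/-- quadruples with the congruence -/
noncomputable def NB (C : ℝ) (P : ℕ) (U : Finset ℕ) (δ : ℕ) (bb : ℕ → ℕ) : Finset ((ℕ × ℕ) × (ℕ × ℕ)) := by
  classical
  exact (QS C P U).filter (fun q => q.1.2 * bb q.1.1 ≡ q.2.2 * bb q.2.1 [MOD δ])

theorem mem_NB {C : ℝ} {P : ℕ} {U : Finset ℕ} {δ : ℕ} {bb : ℕ → ℕ} {q : (ℕ × ℕ) × (ℕ × ℕ)} :
    q ∈ NB C P U δ bb ↔ q ∈ QS C P U ∧ q.1.2 * bb q.1.1 ≡ q.2.2 * bb q.2.1 [MOD δ] := by
  classical
  unfold NB
  rw [Finset.mem_filter]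

/-- integers in a residue class -/
noncomputable def sres (P δ r : ℕ) (t : ℝ) : ℂ :=
  ∑ m ∈ (Ioc P (2 * P)).filter (fun m => m % δ = r % δ), ee (-(t * Real.log m))

/-- the sum over residue classes of the squares -/
noncomputable def GG (P δ : ℕ) (U : Finset ℕ) (bb : ℕ → ℕ) (t : ℝ) : ℝ :=
  ∑ β ∈ range δ, ‖∑ i ∈ U, ∑ m ∈ (Ioc P (2 * P)).filter (fun m => Nat.Coprime m δ ∧ (m * bb i) % δ = β),
    ee (t * (Real.log i - Real.log m))‖ ^ 2

end Pool.Agent.H53.MDB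

end

section

/-!
# MDB Young: bounds for `GG` from a bound for `sres`

Proof.  Let `c = bb i % δ` (prime to `δ`) and `β < δ`.  If `β` is not prime to `δ`, no `m` prime to `δ` satisfies `m bb(i) ≡ β mod δ`: the inner sum is empty.  If `β` is prime to `δ` there is `r = r(β, c)` with `r c ≡ β mod δ` (`r` prime to `δ`), and for all `m`:
(`m` prime to `δ` and `m bb(i) % δ = β`) iff `m % δ = r % δ`; so the inner sum is `ee(t log i) · sres P δ r t`.  In all cases it is `ee(t log i) w(β, c)` with `|w(β, c)| ≤ M`, where `w` depends only on `β` and `c = bb i % δ`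
(define `w(β, c) = ∑_{m ∈ (P,2P], (m,δ)=1, (m c) % δ = β} ee(-t log m)`; `(m * bb i) % δ = (m * (bb i % δ)) % δ`).
`gg_triv`: `|∑_{i ∈ U} ee(t log i) w| ≤ |U| M`, `δ` values of `β`.
`gg_young`: `∑_{i ∈ U} ee(t log i) w(β, bb i % δ) = ∑_{c < δ} w(β, c) u_c`, `u_c = ∑_{i ∈ U, bb i % δ = c} ee(t log i)`; Cauchy-Schwarz: `|…|^2 ≤ (∑_c |w|^2)(∑_c |u_c|^2) ≤ δ M^2 ∑_c |u_c|^2` (the classes `c` not prime to `δ` have `u_c = 0`,
use only `c` in the image of `U`); sum over the `δ` values of `β`.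
(`M ≥ 0` as `0 ≤ ‖sres‖ ≤ M`.)
-/

set_option autoImplicit false

namespace Pool.Agent.H53.MDB

open Finset
open Pool.Agent.H91.PK (ee)

private theorem Young_ee_add (a b : ℝ) : ee (a + b) = ee a * ee b := by
  unfold ee
  rw [← Complex.exp_add]
  congr 1
  push_cast
  ring

private theorem Young_norm_ee (t : ℝ) : ‖ee t‖ = 1 := by
  unfold ee
  have h : (2 * Real.pi * t * Complex.I : ℂ) = ((2 * Real.pi * t : ℝ) : ℂ) * Complex.I := by push_cast; ring
  rw [h, Complex.norm_exp_ofReal_mul_I]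

/-- the sum over `m` with `m c ≡ β` -/
private noncomputable def Young_W (P δ : ℕ) (t : ℝ) (β c : ℕ) : ℂ :=
  ∑ m ∈ (Ioc P (2 * P)).filter (fun m => Nat.Coprime m δ ∧ (m * c) % δ = β), ee (-(t * Real.log m))

private theorem Young_inner (P δ : ℕ) (bb : ℕ → ℕ) (t : ℝ) (β i : ℕ) :
    ∑ m ∈ (Ioc P (2 * P)).filter (fun m => Nat.Coprime m δ ∧ (m * bb i) % δ = β),
      ee (t * (Real.log i - Real.log m)) = ee (t * Real.log i) * Young_W P δ t β (bb i % δ) := by
  unfold Young_W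
  rw [Finset.mul_sum]
  refine Finset.sum_congr ?_ fun m _ => ?_
  · refine Finset.filter_congr fun m _ => ?_
    rw [Nat.mul_mod m (bb i % δ), Nat.mod_mod, ← Nat.mul_mod]
  · rw [← Young_ee_add]; congr 1; ring

private theorem Young_W_le {P δ : ℕ} {t M : ℝ} (hδ : 1 ≤ δ) (hM : ∀ r : ℕ, ‖sres P δ r t‖ ≤ M) {β c : ℕ}
    (hβ : β < δ) (hc : Nat.Coprime c δ) : ‖Young_W P δ t β c‖ ≤ M := by
  have hM0 : 0 ≤ M := (norm_nonneg _).trans (hM 0)
  by_cases hβc : Nat.Coprime β δ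
  · obtain ⟨r, hr⟩ : ∃ r : ℕ, (r * c) % δ = β := by
      obtain ⟨x, hx⟩ := Nat.exists_mul_mod_eq_of_coprime (n := c) (k := δ) β hc (by omega)
      exact ⟨x, by rw [mul_comm, hx.2, Nat.mod_eq_of_lt hβ]⟩
    have hrc : Nat.Coprime r δ := by
      have h1 : Nat.Coprime ((r * c) % δ) δ := by rw [hr]; exact hβc
      have h2 : Nat.gcd (r * c) δ = 1 := by
        rw [Nat.Coprime, ← Nat.gcd_rec, Nat.gcd_comm] at h1
        exact h1
      exact Nat.Coprime.coprime_mul_right h2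
    have hfil : (Ioc P (2 * P)).filter (fun m => Nat.Coprime m δ ∧ (m * c) % δ = β) =
        (Ioc P (2 * P)).filter (fun m => m % δ = r % δ) := by
      refine Finset.filter_congr fun m _ => ?_
      constructor
      · rintro ⟨-, h2⟩
        have h3 : m * c ≡ r * c [MOD δ] := by
          show (m * c) % δ = (r * c) % δ
          rw [h2, hr]
        exact Nat.ModEq.cancel_right_of_coprime (by rw [Nat.gcd_comm]; exact hc) h3
      · intro h
        have h1 : m ≡ r [MOD δ] := h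
        refine ⟨?_, ?_⟩
        · have h2 : Nat.gcd m δ = Nat.gcd r δ := h1.gcd_eq
          rw [Nat.Coprime, h2]; exact hrc
        · have h2 : m * c ≡ r * c [MOD δ] := h1.mul_right c
          have h3 : (m * c) % δ = (r * c) % δ := h2
          rw [h3, hr]
    unfold Young_W
    rw [hfil]
    exact hM r
  · have hemp : (Ioc P (2 * P)).filter (fun m => Nat.Coprime m δ ∧ (m * c) % δ = β) = ∅ := by
      rw [Finset.filter_eq_empty_iff]
      rintro m _ ⟨h1, h2⟩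
      apply hβc
      have h3 : Nat.Coprime (m * c) δ := Nat.Coprime.mul_left h1 hc
      rw [← h2, Nat.Coprime, ← Nat.gcd_rec, Nat.gcd_comm]
      exact h3
    unfold Young_W
    rw [hemp, Finset.sum_empty, norm_zero]
    exact hM0

private theorem Young_mod {bb : ℕ} {δ : ℕ} (h : Nat.Coprime bb δ) : Nat.Coprime (bb % δ) δ := by
  rw [Nat.Coprime, ← Nat.gcd_rec, Nat.gcd_comm]
  exact h

private theorem Young_GG (P δ : ℕ) (U : Finset ℕ) (bb : ℕ → ℕ) (t : ℝ) :
    GG P δ U bb t = ∑ β ∈ range δ, ‖∑ i ∈ U, ee (t * Real.log i) * Young_W P δ t β (bb i % δ)‖ ^ 2 := by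
  unfold GG
  refine Finset.sum_congr rfl fun β _ => ?_
  rw [Finset.sum_congr rfl fun i _ => Young_inner P δ bb t β i]

theorem gg_triv (P δ : ℕ) (U : Finset ℕ) (bb : ℕ → ℕ) (t M : ℝ) (hδ : 1 ≤ δ) (hb : ∀ i ∈ U, Nat.Coprime (bb i) δ)
    (hM : ∀ r : ℕ, ‖sres P δ r t‖ ≤ M) : GG P δ U bb t ≤ δ * (M * U.card) ^ 2 := by
  rw [Young_GG]
  have h1 : ∀ β ∈ range δ, ‖∑ i ∈ U, ee (t * Real.log i) * Young_W P δ t β (bb i % δ)‖ ^ 2 ≤
      (M * U.card) ^ 2 := by
    intro β hβ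
    rw [mem_range] at hβ
    refine pow_le_pow_left₀ (norm_nonneg _) ?_ 2
    refine (norm_sum_le _ _).trans ?_
    calc ∑ i ∈ U, ‖ee (t * Real.log i) * Young_W P δ t β (bb i % δ)‖ ≤ ∑ i ∈ U, M := by
          refine Finset.sum_le_sum fun i hi => ?_
          rw [norm_mul, Young_norm_ee, one_mul]
          exact Young_W_le hδ hM hβ (Young_mod (hb i hi))
      _ = M * U.card := by rw [Finset.sum_const, nsmul_eq_mul, mul_comm]
  refine (Finset.sum_le_sum h1).trans ?_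
  rw [Finset.sum_const, card_range, nsmul_eq_mul]

theorem gg_young (P δ : ℕ) (U : Finset ℕ) (bb : ℕ → ℕ) (t M : ℝ) (hδ : 1 ≤ δ) (hb : ∀ i ∈ U, Nat.Coprime (bb i) δ)
    (hM : ∀ r : ℕ, ‖sres P δ r t‖ ≤ M) :
    GG P δ U bb t ≤ (δ * M) ^ 2 * ∑ c ∈ range δ, ‖∑ i ∈ U.filter (fun i => bb i % δ = c), ee (t * Real.log i)‖ ^ 2 := by
  have hM0 : 0 ≤ M := (norm_nonneg _).trans (hM 0)
  rw [Young_GG]
  set u : ℕ → ℂ := fun c => ∑ i ∈ U.filter (fun i => bb i % δ = c), ee (t * Real.log i) with hu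
  have h1 : ∀ β ∈ range δ, ‖∑ i ∈ U, ee (t * Real.log i) * Young_W P δ t β (bb i % δ)‖ ^ 2 ≤
      M ^ 2 * (δ * ∑ c ∈ range δ, ‖u c‖ ^ 2) := by
    intro β hβ
    rw [mem_range] at hβ
    have e1 : ∑ i ∈ U, ee (t * Real.log i) * Young_W P δ t β (bb i % δ) =
        ∑ c ∈ range δ, u c * Young_W P δ t β c := by
      rw [← Finset.sum_fiberwise_of_maps_to (s := U) (t := range δ) (g := fun i => bb i % δ)
        (fun i _ => mem_range.2 (Nat.mod_lt _ (by omega)))]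
      refine Finset.sum_congr rfl fun c _ => ?_
      simp only [hu]
      rw [Finset.sum_mul]
      refine Finset.sum_congr rfl fun i hi => ?_
      rw [(Finset.mem_filter.1 hi).2]
    have e2 : ‖∑ i ∈ U, ee (t * Real.log i) * Young_W P δ t β (bb i % δ)‖ ≤ M * ∑ c ∈ range δ, ‖u c‖ := by
      rw [e1, Finset.mul_sum]
      refine (norm_sum_le _ _).trans (Finset.sum_le_sum fun c _ => ?_)
      rw [norm_mul, mul_comm]
      by_cases hex : ∃ i ∈ U, bb i % δ = c
      · obtain ⟨i, hi, hic⟩ := hex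
        refine mul_le_mul_of_nonneg_right ?_ (norm_nonneg _)
        exact Young_W_le hδ hM hβ (hic ▸ Young_mod (hb i hi))
      · have : u c = 0 := by
          simp only [hu]
          rw [Finset.filter_eq_empty_iff.2 (fun i hi hic => hex ⟨i, hi, hic⟩), Finset.sum_empty]
        rw [this, norm_zero, mul_zero, mul_zero]
    calc ‖∑ i ∈ U, ee (t * Real.log i) * Young_W P δ t β (bb i % δ)‖ ^ 2
        ≤ (M * ∑ c ∈ range δ, ‖u c‖) ^ 2 := pow_le_pow_left₀ (norm_nonneg _) e2 2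
      _ = M ^ 2 * (∑ c ∈ range δ, ‖u c‖) ^ 2 := by ring
      _ ≤ M ^ 2 * (δ * ∑ c ∈ range δ, ‖u c‖ ^ 2) := by
        refine mul_le_mul_of_nonneg_left ?_ (by positivity)
        have := sq_sum_le_card_mul_sum_sq (s := range δ) (f := fun c => ‖u c‖)
        rwa [card_range] at this
  refine (Finset.sum_le_sum h1).trans (le_of_eq ?_)
  rw [Finset.sum_const, card_range, nsmul_eq_mul]
  ring

end Pool.Agent.H53.MDB

end

section

/-!
# MDB Fej: pairs with close values, by an exponential integral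

Proof.  Write `I(y) = ∫_0^V ee(t y) dt`.  If `|y| V ≤ 1/2` then `|I(y)| ≥ V/2`: for `y = 0` clear, otherwise `I(y) = (ee(V y) - 1)/(2πi y)`, `|I(y)| = |sin(π V y)|/(π |y|) ≥ (2/π) V ≥ V/2` (`|sin u| ≥ (2/π)|u|` for `|u| ≤ π/2`, Jordan:
`Real.mul_le_sin` / `Real.mul_abs_le_abs_sin`).  Or directly: `Re ee(t y) = cos(2π t y)`, and `cos u ≥ 1 - 2u/π` on `[0, π]` (`Real.one_sub_mul_le_cos`...), so `Re I(y) ≥ ∫_0^V (1 - 4 t |y|) dt = V - 2 V^2 |y|`, good only for `|y| V ≤ 1/4`; use the first way.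
So `1 ≤ (4/V^2) |I(y)|^2`, and `|I(y)|^2 ≥ 0` for all `y`.  `|I(y)|^2 = ∫_0^V ∫_0^V ee((t - t') y) dt' dt`.  Sum over all pairs `(s, s')` with `c s = c s'`, `y = x s - x s'`:
`N ≤ (4/V^2) ∫_0^V ∫_0^V ∑_{β ∈ B} ∑_{s, s' ∈ S_β} ee((t - t')(x s - x s')) = (4/V^2) ∫_0^V ∫_0^V G(t - t') dt' dt`, `G(u) = ∑_β |∑_{s ∈ S_β} ee(u x_s)|^2 ≥ 0`, and for every `t ∈ [0, V]`:
`∫_0^V G(t - t') dt' = ∫_{t-V}^{t} G(u) du ≤ ∫_{-V}^{V} G`.  So `N ≤ (4/V) ∫_{-V}^{V} G`.
Alternative without double integrals: `|I(y)|^2 = ∫_{-V}^{V} (V - |u|) ee(u y) du` is also fine (compute both sides for `y ≠ 0`, and `y = 0`).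
-/

set_option autoImplicit false

namespace Pool.Agent.H53.MDB

open Finset MeasureTheory
open Pool.Agent.H91.PK (ee)

/-- the Fejer kernel as an integral -/
private noncomputable def Fej_F (V y : ℝ) : ℝ :=
  ∫ t in Set.Icc (-V) V, (V - |t|) * Real.cos (2 * Real.pi * (t * y))

private theorem Fej_half {V w : ℝ} (hV : 0 < V) (hw : w ≠ 0) :
    ∫ t in Set.Icc (-V) V, (V - |t|) * Real.cos (w * t) = 2 * (1 - Real.cos (w * V)) / w ^ 2 := by
  have hcont : Continuous (fun t : ℝ => (V - |t|) * Real.cos (w * t)) := by fun_prop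
  rw [integral_Icc_eq_integral_Ioc, ← intervalIntegral.integral_of_le (by linarith),
    ← intervalIntegral.integral_add_adjacent_intervals (b := 0)
      (hcont.intervalIntegrable _ _) (hcont.intervalIntegrable _ _)]
  have h1 : ∫ t in (-V)..0, (V - |t|) * Real.cos (w * t) = (1 - Real.cos (w * V)) / w ^ 2 := by
    have e1 : ∫ t in (-V)..0, (V - |t|) * Real.cos (w * t) = ∫ t in (-V)..0, (V + t) * Real.cos (w * t) := by
      refine intervalIntegral.integral_congr fun t ht => ?_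
      rw [Set.uIcc_of_le (by linarith)] at ht
      rw [abs_of_nonpos ht.2, sub_neg_eq_add]
    rw [e1, intervalIntegral.integral_eq_sub_of_hasDerivAt
      (f := fun t => (V + t) * Real.sin (w * t) / w + Real.cos (w * t) / w ^ 2)]
    · simp only [mul_zero, Real.sin_zero, Real.cos_zero, add_neg_cancel, zero_mul, zero_div, zero_add,
        mul_neg, Real.cos_neg]
      ring
    · intro t _
      have d1 : HasDerivAt (fun t : ℝ => w * t) w t := by
        simpa using (hasDerivAt_id t).const_mul w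
      have d2 : HasDerivAt (fun t : ℝ => V + t) 1 t := by
        simpa using (hasDerivAt_id t).const_add V
      have d3 := ((d2.fun_mul d1.sin).div_const w).fun_add (d1.cos.div_const (w ^ 2))
      refine d3.congr_deriv ?_
      field_simp
      ring
    · exact (Continuous.intervalIntegrable (by fun_prop) _ _)
  have h2 : ∫ t in (0 : ℝ)..V, (V - |t|) * Real.cos (w * t) = (1 - Real.cos (w * V)) / w ^ 2 := by
    have e1 : ∫ t in (0 : ℝ)..V, (V - |t|) * Real.cos (w * t) = ∫ t in (0 : ℝ)..V, (V - t) * Real.cos (w * t) := by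
      refine intervalIntegral.integral_congr fun t ht => ?_
      rw [Set.uIcc_of_le hV.le] at ht
      rw [abs_of_nonneg ht.1]
    rw [e1, intervalIntegral.integral_eq_sub_of_hasDerivAt
      (f := fun t => (V - t) * Real.sin (w * t) / w - Real.cos (w * t) / w ^ 2)]
    · simp only [mul_zero, Real.sin_zero, Real.cos_zero, sub_self, zero_mul, zero_div, zero_sub, sub_zero]
      ring
    · intro t _
      have d1 : HasDerivAt (fun t : ℝ => w * t) w t := by
        simpa using (hasDerivAt_id t).const_mul w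
      have d2 : HasDerivAt (fun t : ℝ => V - t) (-1) t := by
        simpa using (hasDerivAt_id t).const_sub V
      have d3 := ((d2.fun_mul d1.sin).div_const w).fun_sub (d1.cos.div_const (w ^ 2))
      refine d3.congr_deriv ?_
      field_simp
      ring
    · exact (Continuous.intervalIntegrable (by fun_prop) _ _)
  rw [h1, h2]
  ring

private theorem Fej_zero {V : ℝ} (hV : 0 < V) :
    ∫ t in Set.Icc (-V) V, (V - |t|) = V ^ 2 := by
  have hcont : Continuous (fun t : ℝ => (V - |t|)) := by fun_prop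
  rw [integral_Icc_eq_integral_Ioc, ← intervalIntegral.integral_of_le (by linarith),
    ← intervalIntegral.integral_add_adjacent_intervals (b := 0)
      (hcont.intervalIntegrable _ _) (hcont.intervalIntegrable _ _)]
  have h1 : ∫ t in (-V)..0, (V - |t|) = V ^ 2 / 2 := by
    have e1 : ∫ t in (-V)..0, (V - |t|) = ∫ t in (-V)..0, (V + t) := by
      refine intervalIntegral.integral_congr fun t ht => ?_
      rw [Set.uIcc_of_le (by linarith)] at ht
      rw [abs_of_nonpos ht.2, sub_neg_eq_add]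
    rw [e1, intervalIntegral.integral_eq_sub_of_hasDerivAt (f := fun t => V * t + t ^ 2 / 2)]
    · ring
    · intro t _
      have d1 : HasDerivAt (fun t : ℝ => V * t) V t := by
        simpa using (hasDerivAt_id t).const_mul V
      have d4 : HasDerivAt (fun t : ℝ => t ^ 2) (2 * t) t := by
        simpa using hasDerivAt_pow 2 t
      refine (d1.fun_add (d4.div_const 2)).congr_deriv ?_
      ring
    · exact (Continuous.intervalIntegrable (by fun_prop) _ _)
  have h2 : ∫ t in (0 : ℝ)..V, (V - |t|) = V ^ 2 / 2 := by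
    have e1 : ∫ t in (0 : ℝ)..V, (V - |t|) = ∫ t in (0 : ℝ)..V, (V - t) := by
      refine intervalIntegral.integral_congr fun t ht => ?_
      rw [Set.uIcc_of_le hV.le] at ht
      rw [abs_of_nonneg ht.1]
    rw [e1, intervalIntegral.integral_eq_sub_of_hasDerivAt (f := fun t => V * t - t ^ 2 / 2)]
    · ring
    · intro t _
      have d1 : HasDerivAt (fun t : ℝ => V * t) V t := by
        simpa using (hasDerivAt_id t).const_mul V
      have d4 : HasDerivAt (fun t : ℝ => t ^ 2) (2 * t) t := by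
        simpa using hasDerivAt_pow 2 t
      refine (d1.fun_sub (d4.div_const 2)).congr_deriv ?_
      ring
    · exact (Continuous.intervalIntegrable (by fun_prop) _ _)
  rw [h1, h2]
  ring

private theorem Fej_F_eq {V y : ℝ} (hV : 0 < V) (hy : y ≠ 0) :
    Fej_F V y = 2 * (1 - Real.cos (2 * Real.pi * y * V)) / (2 * Real.pi * y) ^ 2 := by
  rw [← Fej_half hV (mul_ne_zero (by positivity) hy)]
  unfold Fej_F
  refine integral_congr_ae (Filter.Eventually.of_forall fun t => ?_)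
  simp only
  congr 2
  ring

private theorem Fej_F_zero {V : ℝ} (hV : 0 < V) : Fej_F V 0 = V ^ 2 := by
  rw [← Fej_zero hV]
  unfold Fej_F
  refine integral_congr_ae (Filter.Eventually.of_forall fun t => ?_)
  simp

private theorem Fej_F_nonneg {V : ℝ} (hV : 0 < V) (y : ℝ) : 0 ≤ Fej_F V y := by
  rcases eq_or_ne y 0 with h | h
  · rw [h, Fej_F_zero hV]
    positivity
  · rw [Fej_F_eq hV h]
    have := Real.cos_le_one (2 * Real.pi * y * V)
    refine div_nonneg ?_ (by positivity)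
    linarith

private theorem Fej_F_ge {V : ℝ} (hV : 0 < V) (y : ℝ) (hy : |y| * V ≤ 1 / 2) : V ^ 2 / 4 ≤ Fej_F V y := by
  rcases eq_or_ne y 0 with h | h
  · rw [h, Fej_F_zero hV]
    nlinarith [sq_nonneg V]
  · rw [Fej_F_eq hV h]
    have hpi := Real.pi_pos
    have hy0 : 0 < |y| := abs_pos.2 h
    -- `1 - cos x = 2 sin^2 (x/2)`, `x/2 = π |y| V`
    have h1 : Real.cos (2 * Real.pi * y * V) = Real.cos (2 * (Real.pi * (|y| * V))) := by
      rcases abs_choice y with h2 | h2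
      · rw [h2]
        congr 1
        ring
      · rw [h2, ← Real.cos_neg]
        congr 1
        ring
    have h3 : 2 / Real.pi * (Real.pi * (|y| * V)) ≤ Real.sin (Real.pi * (|y| * V)) := by
      refine Real.mul_le_sin (by positivity) ?_
      nlinarith
    have h4 : 2 / Real.pi * (Real.pi * (|y| * V)) = 2 * (|y| * V) := by
      field_simp
    rw [h4] at h3
    have h5 : (2 * (|y| * V)) ^ 2 ≤ Real.sin (Real.pi * (|y| * V)) ^ 2 :=
      pow_le_pow_left₀ (by positivity) h3 2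
    have h6 : 1 - Real.cos (2 * Real.pi * y * V) = 2 * Real.sin (Real.pi * (|y| * V)) ^ 2 := by
      rw [h1, Real.cos_two_mul, Real.cos_sq']
      ring
    rw [h6]
    have h7 : (2 * Real.pi * y) ^ 2 = 4 * Real.pi ^ 2 * |y| ^ 2 := by
      rw [sq_abs]
      ring
    rw [h7, le_div_iff₀ (by positivity)]
    have h8 : Real.pi ^ 2 ≤ 16 := by
      nlinarith [Real.pi_le_four]
    have h9 : 0 ≤ V ^ 2 * |y| ^ 2 := by positivity
    nlinarith

private theorem Fej_re (a b : ℝ) : (ee a * (starRingEnd ℂ) (ee b)).re = Real.cos (2 * Real.pi * (a - b)) := by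
  unfold Pool.Agent.H91.PK.ee
  rw [← Complex.exp_conj, ← Complex.exp_add]
  have h : 2 * (Real.pi : ℂ) * (a : ℂ) * Complex.I +
      (starRingEnd ℂ) (2 * (Real.pi : ℂ) * (b : ℂ) * Complex.I) =
      ((2 * Real.pi * (a - b) : ℝ) : ℂ) * Complex.I := by
    simp only [map_mul, Complex.conj_ofReal, Complex.conj_I, map_ofNat]
    push_cast
    ring
  rw [h, Complex.exp_ofReal_mul_I_re]

private theorem Fej_sq {ι : Type} (T : Finset ι) (x : ι → ℝ) (t : ℝ) :
    ‖∑ s ∈ T, ee (t * x s)‖ ^ 2 = ∑ s ∈ T, ∑ s' ∈ T, Real.cos (2 * Real.pi * (t * (x s - x s'))) := by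
  have h1 : ((‖∑ s ∈ T, ee (t * x s)‖ ^ 2 : ℝ) : ℂ) =
      (∑ s ∈ T, ee (t * x s)) * (starRingEnd ℂ) (∑ s ∈ T, ee (t * x s)) := by
    rw [Complex.mul_conj, Complex.normSq_eq_norm_sq]
  have h2 : ‖∑ s ∈ T, ee (t * x s)‖ ^ 2 =
      ((∑ s ∈ T, ee (t * x s)) * (starRingEnd ℂ) (∑ s ∈ T, ee (t * x s))).re := by
    rw [← h1, Complex.ofReal_re]
  rw [h2, map_sum, Finset.sum_mul_sum, Complex.re_sum]
  refine sum_congr rfl fun s _ => ?_
  rw [Complex.re_sum]
  refine sum_congr rfl fun s' _ => ?_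
  rw [Fej_re]
  congr 2
  ring

open Classical in
theorem fej {ι : Type} (S : Finset ι) (x : ι → ℝ) (c : ι → ℕ) (B : Finset ℕ) (V : ℝ) (hV : 0 < V) (hc : ∀ s ∈ S, c s ∈ B) :
    (((S ×ˢ S).filter (fun q => c q.1 = c q.2 ∧ |x q.1 - x q.2| * V ≤ 1 / 2)).card : ℝ) ≤
      4 / V * ∫ t in Set.Icc (-V) V, ∑ β ∈ B, ‖∑ s ∈ S.filter (fun s => c s = β), ee (t * x s)‖ ^ 2 := by
  set Pr := (S ×ˢ S).filter (fun q => c q.1 = c q.2) with hPr
  -- the sum over the pairs
  have hG : ∀ t : ℝ, ∑ β ∈ B, ‖∑ s ∈ S.filter (fun s => c s = β), ee (t * x s)‖ ^ 2 =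
      ∑ q ∈ Pr, Real.cos (2 * Real.pi * (t * (x q.1 - x q.2))) := by
    intro t
    have h1 : ∀ β ∈ B, ‖∑ s ∈ S.filter (fun s => c s = β), ee (t * x s)‖ ^ 2 =
        ∑ s ∈ S.filter (fun s => c s = β), ∑ s' ∈ S.filter (fun s' => c s = c s'),
          Real.cos (2 * Real.pi * (t * (x s - x s'))) := by
      intro β _
      rw [Fej_sq]
      refine sum_congr rfl fun s hs => ?_
      rw [(mem_filter.1 hs).2]
      refine sum_congr ?_ fun _ _ => rfl
      ext s'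
      rw [mem_filter, mem_filter, eq_comm (a := β)]
    rw [sum_congr rfl h1, sum_fiberwise_of_maps_to (g := c)
      (f := fun s => ∑ s' ∈ S.filter (fun s' => c s = c s'), Real.cos (2 * Real.pi * (t * (x s - x s')))) hc,
      hPr, sum_filter, sum_product]
    refine sum_congr rfl fun s _ => ?_
    rw [sum_filter]
  have hcontq : ∀ q : ι × ι, Continuous (fun t : ℝ => Real.cos (2 * Real.pi * (t * (x q.1 - x q.2)))) := by
    intro q
    fun_prop
  have hGcont : Continuous (fun t : ℝ => ∑ q ∈ Pr, Real.cos (2 * Real.pi * (t * (x q.1 - x q.2)))) :=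
    continuous_finsetSum _ fun q _ => hcontq q
  have hGnn : ∀ t : ℝ, 0 ≤ ∑ q ∈ Pr, Real.cos (2 * Real.pi * (t * (x q.1 - x q.2))) := by
    intro t
    rw [← hG t]
    exact sum_nonneg fun _ _ => by positivity
  have hint : ∫ t in Set.Icc (-V) V, ∑ β ∈ B, ‖∑ s ∈ S.filter (fun s => c s = β), ee (t * x s)‖ ^ 2 =
      ∫ t in Set.Icc (-V) V, ∑ q ∈ Pr, Real.cos (2 * Real.pi * (t * (x q.1 - x q.2))) := by
    refine integral_congr_ae (Filter.Eventually.of_forall fun t => ?_)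
    exact hG t
  rw [hint]
  -- the sum of the kernels
  have hsum : ∑ q ∈ Pr, Fej_F V (x q.1 - x q.2) ≤
      V * ∫ t in Set.Icc (-V) V, ∑ q ∈ Pr, Real.cos (2 * Real.pi * (t * (x q.1 - x q.2))) := by
    have h1 : ∑ q ∈ Pr, Fej_F V (x q.1 - x q.2) =
        ∫ t in Set.Icc (-V) V, (V - |t|) * ∑ q ∈ Pr, Real.cos (2 * Real.pi * (t * (x q.1 - x q.2))) := by
      unfold Fej_F
      rw [← integral_finsetSum]
      · refine integral_congr_ae (Filter.Eventually.of_forall fun t => ?_)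
        simp only
        rw [mul_sum]
      · intro q _
        exact (Continuous.continuousOn (by fun_prop)).integrableOn_Icc
    rw [h1, ← integral_const_mul]
    refine setIntegral_mono_on ?_ ?_ measurableSet_Icc fun t ht => ?_
    · exact (Continuous.continuousOn ((by fun_prop : Continuous fun t : ℝ => V - |t|).mul hGcont)).integrableOn_Icc
    · exact (Continuous.continuousOn (continuous_const.mul hGcont)).integrableOn_Icc
    · refine mul_le_mul_of_nonneg_right ?_ (hGnn t)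
      have := abs_nonneg t
      linarith
  have hcard : (((S ×ˢ S).filter (fun q => c q.1 = c q.2 ∧ |x q.1 - x q.2| * V ≤ 1 / 2)).card : ℝ) * (V ^ 2 / 4) ≤
      ∑ q ∈ Pr, Fej_F V (x q.1 - x q.2) := by
    have h1 : (S ×ˢ S).filter (fun q => c q.1 = c q.2 ∧ |x q.1 - x q.2| * V ≤ 1 / 2) ⊆ Pr := by
      intro q hq
      rw [mem_filter] at hq
      exact mem_filter.2 ⟨hq.1, hq.2.1⟩
    have h2 : ∑ q ∈ (S ×ˢ S).filter (fun q => c q.1 = c q.2 ∧ |x q.1 - x q.2| * V ≤ 1 / 2), (V ^ 2 / 4) ≤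
        ∑ q ∈ (S ×ˢ S).filter (fun q => c q.1 = c q.2 ∧ |x q.1 - x q.2| * V ≤ 1 / 2),
          Fej_F V (x q.1 - x q.2) :=
      sum_le_sum fun q hq => Fej_F_ge hV _ (mem_filter.1 hq).2.2
    rw [sum_const, nsmul_eq_mul] at h2
    exact h2.trans (sum_le_sum_of_subset_of_nonneg h1 fun q _ _ => Fej_F_nonneg hV _)
  have h3 := hcard.trans hsum
  have h4 : 4 / V * ∫ t in Set.Icc (-V) V, ∑ q ∈ Pr, Real.cos (2 * Real.pi * (t * (x q.1 - x q.2))) =
      (V * ∫ t in Set.Icc (-V) V, ∑ q ∈ Pr, Real.cos (2 * Real.pi * (t * (x q.1 - x q.2)))) / (V ^ 2 / 4) := by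
    field_simp
  rw [h4, le_div_iff₀ (by positivity)]
  exact h3

end Pool.Agent.H53.MDB

end

section

/-!
# MIX Defs: hypotheses of the strengthened theorem (windows `exp((log N)^θ)`)

* `VKw t1`: Vinogradov-Korobov for sums over residue classes, `z ≥ exp((log x)^t1)`;
* `VKe t0`: exponential sums over integers, `K ≥ exp((log x)^t0)`;
* `CombX t t2`: the combinatorial theorem with the boost (project MIDX of helper74): `P ≥ exp((log N)^t)`, `Q = exp((log N)^t2)`.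
-/

set_option autoImplicit false

namespace Pool.Agent.H53.MIX

open Finset
open Pool.Agent.H91.PK (ee)
open Pool.Agent.H91.EHA (Lam hR lamR ramS)
open Pool.Agent.H53.MID

/-- Vinogradov-Korobov for `Λ` in residue classes -/
def VKw (t1 : ℝ) : Prop := ∀ (K B : ℕ), ∃ K' x0 : ℕ, ∀ x : ℕ, x0 ≤ x →
  ∀ (d u z : ℕ) (t : ℝ), 1 ≤ d → (d : ℝ) ≤ Real.log x ^ B → Real.exp (Real.log x ^ t1) ≤ z → z ≤ x ^ 2 →
    Real.log x ^ K' ≤ |t| → |t| ≤ (x : ℝ) ^ (2 : ℕ) →
    ‖∑ n ∈ (Icc 1 z).filter (fun n => n % d = u % d), ((Lam n : ℝ) : ℂ) * ee (t * Real.log n)‖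
      ≤ z / Real.log x ^ K

/-- exponential sums `∑ (n+β)^{2πit}` over intervals in `[0, K]`, `K ≥ exp((log x)^t0)` -/
def VKe (t0 : ℝ) : Prop := ∀ A : ℕ, ∃ x0 : ℕ, ∀ x : ℕ, x0 ≤ x → ∀ (K a b : ℕ) (β t : ℝ),
  Real.exp (Real.log x ^ t0) ≤ K → K ≤ x → b ≤ K → 0 ≤ β → β ≤ 1 → 1 ≤ |t| → |t| ≤ (x : ℝ) ^ (3 : ℕ) →
    ‖∑ n ∈ Ioc a b, ee (t * Real.log (n + β))‖ ≤ K * (100 / |t| + 1 / Real.log x ^ A)

/-- the combinatorial theorem with the boost -/
def CombX (t t2 : ℝ) : Prop := ∀ (C : ℝ), 1 ≤ C → ∀ C0 : ℕ, ∃ C1 N0 : ℕ, ∀ N : ℕ, N0 ≤ N →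
  ∀ (n P : ℕ) (η : ℝ) (F0 G0 : Finset ℕ) (α β : ℕ → ℝ) (R0 : Finset (ℕ × ℕ × ℕ)),
    Real.exp (Real.log N ^ t) ≤ P → P ≤ N → n ≤ N → (N : ℝ) ^ (1 / 4 : ℝ) ≤ n → 0 < η →
    η * Real.exp (Real.log N ^ t2) ^ 60 * (P : ℝ) ^ 3 ≤ 1 → Rel C n P (η * P) F0 G0 α β R0 →
    n * P / Real.log N ^ C0 ≤ (R0.card : ℝ) →
    ∃ (d b : ℕ) (T : ℝ) (F1 : Finset ℕ), 1 ≤ d ∧ (d : ℝ) ≤ Real.log N ^ C1 ∧
      |T| ≤ Real.exp (Real.log N ^ t2) ^ 20 * η * (n : ℝ) ^ 2 ∧ F1 ⊆ F0 ∧ n / Real.log N ^ C1 ≤ (F1.card : ℝ) ∧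
      ∀ i ∈ F1, nz (α i - b / d - T / i) ≤ Real.exp (Real.log N ^ t2) ^ 13 * η

end Pool.Agent.H53.MIX

end

section

/-!
# MDB SRes: integers in residue classes

`sres_triv`: the number of `m ∈ (P, 2P]` in a residue class mod `δ` is `≤ P/δ + 1`.
`sres_vk`: `r0 = r % δ`, `m = r0 + δ q`: `P < m ≤ 2P` iff `q ∈ Ioc a b`, `a = (P - r0)/δ`, `b = (2P - r0)/δ` (natural numbers, `r0 < δ ≤ P`).  `log m = log δ + log (q + r0/δ)`, so (norms) `|sres| = |∑_{q ∈ Ioc a b} ee(-t log(q + r0/δ))|`.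
`VKe t0` at `x = 2N`, `K = 2P/δ` (natural division; `b ≤ K ≤ 2N`, `K ≥ P/δ ≥ exp(L^t - L^t2) ≥ exp((log 2N)^t0)` for large `N` as `t0 < t`, `t2 < t`; `|t| ≤ N ≤ x^3`; `β = r0/δ`), with the exponent `A + 1`:
`≤ K (100/|t| + 1/(log x)^(A+1)) ≤ (2P/δ)(100/L^(A+1) + 1/L^(A+1)) ≤ (P/δ)/L^A` for `L ≥ 202`; `T1 = A + 1`.
-/

set_option autoImplicit false

namespace Pool.Agent.H53.MDB

open Finset
open Pool.Agent.H91.PK (ee)
open Pool.Agent.H53.MIX (VKe)

private theorem SRes_ee_add (a b : ℝ) : ee (a + b) = ee a * ee b := by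
  unfold ee
  rw [← Complex.exp_add]
  congr 1
  push_cast
  ring

private theorem SRes_norm_ee (t : ℝ) : ‖ee t‖ = 1 := by
  unfold ee
  have h : (2 * Real.pi * t * Complex.I : ℂ) = ((2 * Real.pi * t : ℝ) : ℂ) * Complex.I := by push_cast; ring
  rw [h, Complex.norm_exp_ofReal_mul_I]

theorem sres_triv (P δ r : ℕ) (t : ℝ) (hδ : 1 ≤ δ) : ‖sres P δ r t‖ ≤ P / δ + 1 := by
  have hδR : (0 : ℝ) < δ := by exact_mod_cast hδ
  have h1 : ‖sres P δ r t‖ ≤ (((Ioc P (2 * P)).filter (fun m => m % δ = r % δ)).card : ℝ) := by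
    unfold sres
    refine (norm_sum_le _ _).trans ?_
    simp only [SRes_norm_ee]
    rw [Finset.sum_const, nsmul_eq_mul, mul_one]
  refine h1.trans ?_
  have h2 := Nat.Ioc_filter_modEq_card P (2 * P) (r := δ) (by omega) r
  have h3 : ((Ioc P (2 * P)).filter (fun m => m % δ = r % δ)) = ((Ioc P (2 * P)).filter (fun m => m ≡ r [MOD δ])) := rfl
  have h4 : ((((Ioc P (2 * P)).filter (fun m => m % δ = r % δ)).card : ℤ) : ℝ) ≤ P / δ + 1 := by
    rw [h3, h2]
    push_cast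
    refine max_le ?_ (by positivity)
    have e1 : ((⌊(((2 * P : ℕ) : ℚ) - r) / δ⌋ : ℤ) : ℝ) ≤ ((2 * P : ℝ) - r) / δ := by
      have := Int.floor_le ((((2 * P : ℕ) : ℚ) - r) / δ)
      have h : (((⌊(((2 * P : ℕ) : ℚ) - r) / δ⌋ : ℤ) : ℚ) : ℝ) ≤ (((((2 * P : ℕ) : ℚ) - r) / δ : ℚ) : ℝ) := by
        exact_mod_cast this
      push_cast at h ⊢
      exact h
    have e2 : ((P : ℝ) - r) / δ < ((⌊((P : ℚ) - r) / δ⌋ : ℤ) : ℝ) + 1 := by
      have := Int.lt_floor_add_one (((P : ℚ) - r) / δ)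
      have h : (((((P : ℚ) - r) / δ : ℚ)) : ℝ) < ((((⌊((P : ℚ) - r) / δ⌋ : ℤ) : ℚ) + 1 : ℚ) : ℝ) := by
        exact_mod_cast this
      push_cast at h
      exact h
    have e3 : ((2 * P : ℝ) - r) / δ = ((P : ℝ) - r) / δ + P / δ := by ring
    push_cast at e1
    linarith
  exact_mod_cast h4

private theorem SRes_ev {t0 t t2 : ℝ} (h0t : t0 < t) (h2t : t2 < t) :
    ∃ L0 : ℝ, 202 ≤ L0 ∧ ∀ L : ℝ, L0 ≤ L → (2 * L) ^ t0 + L ^ t2 ≤ L ^ t := by
  have e1 : Filter.Tendsto (fun L : ℝ => 2 ^ t0 * L ^ (-(t - t0))) Filter.atTop (nhds (2 ^ t0 * 0)) :=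
    (tendsto_rpow_neg_atTop (by linarith)).const_mul _
  have e2 : Filter.Tendsto (fun L : ℝ => L ^ (-(t - t2))) Filter.atTop (nhds 0) :=
    tendsto_rpow_neg_atTop (by linarith)
  rw [mul_zero] at e1
  have f1 := e1.eventually (Iio_mem_nhds (show (0 : ℝ) < 1 / 2 by norm_num))
  have f2 := e2.eventually (Iio_mem_nhds (show (0 : ℝ) < 1 / 2 by norm_num))
  obtain ⟨L1, hL1⟩ := Filter.eventually_atTop.1 (f1.and f2)
  refine ⟨max 202 L1, le_max_left _ _, fun L hL => ?_⟩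
  have hL2 : 202 ≤ L := (le_max_left _ _).trans hL
  have hLpos : 0 < L := by linarith
  obtain ⟨g1, g2⟩ := hL1 L ((le_max_right _ _).trans hL)
  replace g1 : 2 ^ t0 * L ^ (-(t - t0)) < 1 / 2 := g1
  replace g2 : L ^ (-(t - t2)) < 1 / 2 := g2
  have k1 : (2 * L) ^ t0 = (2 ^ t0 * L ^ (-(t - t0))) * L ^ t := by
    rw [Real.mul_rpow (by norm_num) hLpos.le, mul_assoc, ← Real.rpow_add hLpos]
    congr 2; ring
  have k2 : L ^ t2 = L ^ (-(t - t2)) * L ^ t := by
    rw [← Real.rpow_add hLpos]; congr 1; ring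
  have k3 : 0 < L ^ t := Real.rpow_pos_of_pos hLpos _
  rw [k1, k2]
  nlinarith

theorem sres_vk (t0 t t2 : ℝ) (h0 : 0 < t0) (h0t : t0 < t) (h2 : 0 < t2) (h2t : t2 < t) (hV : VKe t0) (A : ℕ) :
    ∃ T1 N0 : ℕ, ∀ N : ℕ, N0 ≤ N → ∀ (P δ r : ℕ) (u : ℝ), Real.exp (Real.log N ^ t) ≤ P → P ≤ N → 1 ≤ δ →
    (δ : ℝ) ≤ Real.exp (Real.log N ^ t2) → Real.log N ^ T1 ≤ |u| → |u| ≤ N →
    ‖sres P δ r u‖ ≤ P / δ / Real.log N ^ A := by
  obtain ⟨L0, hL0, hL⟩ := SRes_ev (t0 := t0) h0t h2t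
  obtain ⟨x0, hx0⟩ := hV (A + 1)
  obtain ⟨N1, hN1⟩ := exists_nat_ge (Real.exp L0)
  refine ⟨A + 1, max (max x0 N1) 2, fun N hN P δ r u hP hPN hδ hδ2 hu hu2 => ?_⟩
  have hNx : x0 ≤ N := le_trans (le_trans (le_max_left _ _) (le_max_left _ _)) hN
  have hNN : N1 ≤ N := le_trans (le_trans (le_max_right _ _) (le_max_left _ _)) hN
  have hN2 : 2 ≤ N := le_trans (le_max_right _ _) hN
  have hNR : (0 : ℝ) < N := by exact_mod_cast (by omega : 0 < N)
  set L := Real.log N with hLdef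
  have hLL0 : L0 ≤ L := by
    rw [hLdef, Real.le_log_iff_exp_le hNR]
    exact hN1.trans (by exact_mod_cast hNN)
  have hL202 : 202 ≤ L := hL0.trans hLL0
  have hLpos : 0 < L := by linarith
  have hkey := hL L hLL0
  have hδR : (0 : ℝ) < δ := by exact_mod_cast hδ
  have hδP : δ ≤ P := by
    have h1 : L ^ t2 ≤ L ^ t := Real.rpow_le_rpow_of_exponent_le (by linarith) h2t.le
    have : (δ : ℝ) ≤ P := hδ2.trans ((Real.exp_le_exp.2 h1).trans hP)
    exact_mod_cast this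
  set r0 := r % δ with hr0
  have hr0δ : r0 < δ := Nat.mod_lt _ (by omega)
  set a := (P - r0) / δ with ha
  set b := (2 * P - r0) / δ with hb
  set K := 2 * P / δ with hK
  -- reindexing
  have hre : sres P δ r u = ∑ q ∈ Ioc a b, ee (-(u * Real.log ((r0 + δ * q : ℕ) : ℝ))) := by
    unfold sres
    symm
    refine Finset.sum_nbij' (fun q => r0 + δ * q) (fun m => m / δ) ?_ ?_ ?_ ?_ ?_
    · intro q hq
      rw [mem_Ioc] at hq
      rw [mem_filter, mem_Ioc]
      have h1 : P - r0 < q * δ := (Nat.div_lt_iff_lt_mul (by omega)).1 hq.1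
      have h2 : q * δ ≤ 2 * P - r0 := (Nat.le_div_iff_mul_le (by omega)).1 hq.2
      refine ⟨⟨?_, ?_⟩, ?_⟩
      · rw [mul_comm δ q]; omega
      · rw [mul_comm δ q]; omega
      · rw [Nat.add_mul_mod_self_left, hr0, Nat.mod_mod]
    · intro m hm
      rw [mem_filter, mem_Ioc] at hm
      rw [mem_Ioc]
      have h1 : r0 + δ * (m / δ) = m := by
        rw [hr0, ← hm.2]; exact Nat.mod_add_div m δ
      constructor
      · rw [ha, Nat.div_lt_iff_lt_mul (by omega)]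
        rw [mul_comm δ] at h1; omega
      · rw [hb, Nat.le_div_iff_mul_le (by omega)]
        rw [mul_comm δ] at h1; omega
    · intro q hq
      show (r0 + δ * q) / δ = q
      rw [Nat.add_mul_div_left _ _ (by omega), Nat.div_eq_of_lt hr0δ, zero_add]
    · intro m hm
      rw [mem_filter, mem_Ioc] at hm
      show r0 + δ * (m / δ) = m
      rw [hr0, ← hm.2]; exact Nat.mod_add_div m δ
    · intro q hq
      rfl
  have hfac : ∀ q ∈ Ioc a b, ee (-(u * Real.log ((r0 + δ * q : ℕ) : ℝ))) =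
      ee (-(u * Real.log δ)) * ee ((-u) * Real.log ((q : ℝ) + (r0 : ℝ) / δ)) := by
    intro q hq
    rw [mem_Ioc] at hq
    have hq0 : (0 : ℝ) < q := by exact_mod_cast lt_of_le_of_lt (Nat.zero_le a) hq.1
    rw [← SRes_ee_add]
    congr 1
    have h1 : ((r0 + δ * q : ℕ) : ℝ) = δ * ((q : ℝ) + (r0 : ℝ) / δ) := by
      push_cast; field_simp; ring
    have h2 : (0 : ℝ) < (q : ℝ) + (r0 : ℝ) / δ := by positivity
    rw [h1, Real.log_mul hδR.ne' h2.ne']
    ring
  have hnorm : ‖sres P δ r u‖ = ‖∑ q ∈ Ioc a b, ee ((-u) * Real.log ((q : ℝ) + (r0 : ℝ) / δ))‖ := by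
    rw [hre, Finset.sum_congr rfl hfac, ← Finset.mul_sum, norm_mul, SRes_norm_ee, one_mul]
  rw [hnorm]
  have hlog2 : Real.log ((2 * N : ℕ) : ℝ) ≤ 2 * L := by
    push_cast
    rw [Real.log_mul (by norm_num) hNR.ne']
    have : Real.log 2 ≤ Real.log N := Real.log_le_log (by norm_num) (by exact_mod_cast hN2)
    linarith
  have hlog2' : L ≤ Real.log ((2 * N : ℕ) : ℝ) := by
    rw [hLdef]
    refine Real.log_le_log hNR ?_
    push_cast; linarith
  -- size of K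
  have hPδ : Real.exp (L ^ t - L ^ t2) ≤ (P : ℝ) / δ := by
    rw [Real.exp_sub]
    exact div_le_div₀ (Nat.cast_nonneg _) hP hδR hδ2
  have hPδ1 : (1 : ℝ) ≤ (P : ℝ) / δ := by
    rw [le_div_iff₀ hδR, one_mul]; exact_mod_cast hδP
  have hKle : (K : ℝ) ≤ 2 * ((P : ℝ) / δ) := by
    have := Nat.cast_div_le (m := 2 * P) (n := δ) (α := ℝ)
    rw [← hK] at this
    refine this.trans (le_of_eq ?_)
    push_cast; ring
  have hKge : (P : ℝ) / δ ≤ K := by
    have h1 : (2 * P : ℕ) < (K + 1) * δ := by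
      rw [hK]
      have := Nat.lt_div_mul_add (a := 2 * P) (b := δ) (by omega)
      calc 2 * P < 2 * P / δ * δ + δ := this
        _ = (2 * P / δ + 1) * δ := by ring
    have h2 : (2 * P : ℝ) < (K + 1) * δ := by exact_mod_cast h1
    have h3 : 2 * ((P : ℝ) / δ) < K + 1 := by
      rw [← mul_div_assoc, div_lt_iff₀ hδR]; exact h2
    linarith
  have hK1 : Real.exp (Real.log ((2 * N : ℕ) : ℝ) ^ t0) ≤ K := by
    refine le_trans ?_ (hPδ.trans hKge)
    rw [Real.exp_le_exp]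
    have h1 : Real.log ((2 * N : ℕ) : ℝ) ^ t0 ≤ (2 * L) ^ t0 :=
      Real.rpow_le_rpow (by linarith) hlog2 h0.le
    linarith
  have hK2 : K ≤ 2 * N := by
    rw [hK]
    exact (Nat.div_le_self _ _).trans (by omega)
  have hbK : b ≤ K := by
    rw [hb, hK]
    exact Nat.div_le_div_right (by omega)
  have hβ1 : (r0 : ℝ) / δ ≤ 1 := by
    rw [div_le_one hδR]; exact_mod_cast hr0δ.le
  have hLT : 1 ≤ L ^ (A + 1) := one_le_pow₀ (by linarith)
  have hu1 : 1 ≤ |(-u)| := by rw [abs_neg]; exact hLT.trans hu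
  have hu3 : |(-u)| ≤ ((2 * N : ℕ) : ℝ) ^ (3 : ℕ) := by
    rw [abs_neg]
    refine hu2.trans ?_
    have h1 : (1 : ℝ) ≤ N := by exact_mod_cast (by omega : 1 ≤ N)
    push_cast
    nlinarith [mul_pos hNR hNR, mul_nonneg (sq_nonneg ((N : ℝ) - 1)) hNR.le]
  have hmain := hx0 (2 * N) (by omega) K a b ((r0 : ℝ) / δ) (-u) hK1 hK2 hbK (by positivity) hβ1 hu1 hu3
  refine hmain.trans ?_
  rw [abs_neg]
  have hu0 : 0 < |u| := lt_of_lt_of_le (by positivity) hu
  have g1 : 100 / |u| ≤ 100 / L ^ (A + 1) := div_le_div_of_nonneg_left (by norm_num) (by positivity) hu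
  have g2 : 1 / Real.log ((2 * N : ℕ) : ℝ) ^ (A + 1) ≤ 1 / L ^ (A + 1) :=
    one_div_le_one_div_of_le (by positivity) (pow_le_pow_left₀ hLpos.le hlog2' _)
  have g3 : 100 / |u| + 1 / Real.log ((2 * N : ℕ) : ℝ) ^ (A + 1) ≤ 101 / L ^ (A + 1) := by
    have : (101 : ℝ) / L ^ (A + 1) = 100 / L ^ (A + 1) + 1 / L ^ (A + 1) := by ring
    linarith
  calc (K : ℝ) * (100 / |u| + 1 / Real.log ((2 * N : ℕ) : ℝ) ^ (A + 1))
      ≤ (2 * ((P : ℝ) / δ)) * (101 / L ^ (A + 1)) := by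
        refine mul_le_mul hKle g3 ?_ (by positivity)
        have : 0 ≤ Real.log ((2 * N : ℕ) : ℝ) := by linarith
        positivity
    _ = ((P : ℝ) / δ) / L ^ A * (202 / L) := by
        rw [pow_succ]; field_simp; ring
    _ ≤ ((P : ℝ) / δ) / L ^ A * 1 := by
        refine mul_le_mul_of_nonneg_left ?_ (by positivity)
        rw [div_le_one hLpos]; exact hL202
    _ = (P : ℝ) / δ / L ^ A := mul_one _

end Pool.Agent.H53.MDB

end

section

/-!
# EHB Jred: from `JJ` to Mellin transforms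

`gg f N α a Θ s` (`s = 1` or `-1`) is `FF(α + s θ) e(-a s θ)` on `(0, Θ]`, zero elsewhere.
For `0 < y ≤ Y` (`K Y ≤ Θ`) the inner sum of `JJ` is `∑_{k ∈ S+} gg_{+}(k y) + ∑_{k ∈ S-} gg_{-}(k y)` with
`S+ = {1 ≤ k ≤ K : d ∣ k - l}`, `S- = {1 ≤ k ≤ K : d ∣ -k - l}` (from `k < 0`); for `y = -z < 0` it is
`∑_{S+} gg_{-}(k z) + ∑_{S-} gg_{+}(k z)`.  Use `|u+v|^2 ≤ 2|u|^2 + 2|v|^2` and enlarge `(0, Y]` to `(0, ∞)`
(integrable, since the functions are bounded with bounded support).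
-/

set_option autoImplicit false

namespace Pool.Agent.H76.EHB

open Finset MeasureTheory

/-- `∫_0^∞ |∑_{k ∈ S} g(k y)|^2 dy` -/
noncomputable def II (S : Finset ℕ) (g : ℝ → ℂ) : ℝ :=
  ∫ y in Set.Ioi (0 : ℝ), ‖∑ k ∈ S, g (k * y)‖ ^ 2

end Pool.Agent.H76.EHB

end

section

/-!
# EHB Mell: Mellin transform on the line 1/2

`Mel g t = ∫_0^∞ g(θ) θ^{-1/2 - i t} dθ` (Mathlib's `mellin g (1/2 - t i)`).
`mel_planch`: with `G(u) = exp(-u/2) g(exp(-u))`, Mathlib's `mellin_eq_fourier` gives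
`mellin g (1/2 - i t) = Ĝ(-t/(2π))`.  `g` bounded by `B`, zero outside `(0, Θ]`: `G` is integrable and square integrable,
`∫ |G|^2 du = ∫_0^∞ |g|^2 dθ` (substitution `θ = exp(-u)`), so `planch` and the substitution `ξ = -t/(2π)` give the claim.
`mel_sum`: `mellin_comp_mul_left`.  `int_sum_sq`: combine (the function `∑ g(k ·)` is again bounded with bounded support).
-/

set_option autoImplicit false

namespace Pool.Agent.H76.EHB

open Finset MeasureTheory

/-- Mellin transform at `1/2 - i t` -/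
noncomputable def Mel (g : ℝ → ℂ) (t : ℝ) : ℂ := mellin g (1 / 2 - t * Complex.I)

/-- `∑_{k ∈ S} k^{-1/2 + i t}` -/
noncomputable def ZZ (S : Finset ℕ) (t : ℝ) : ℂ := ∑ k ∈ S, (k : ℂ) ^ (-(1 / 2 : ℂ) + t * Complex.I)

end Pool.Agent.H76.EHB

end

section

/-!
# PROJECT SP, Parts III and IV (MP_967f73_nt): common definitions

Almost all even `N` are `p + p1 p2` with primes `p, p1, p2`, `p` and `p1` at most a power of `log N`.
`L = log x`, `ee(t) = exp(2 π i t)` (`Pool.Agent.H91.PK.ee`; `LSa_ee_add`, `LSa_norm_ee`, `LSa_conj_ee` in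
`H91/PK/LSa.lean`), `FF f N θ = ∑_{n ≤ N} f(n) ee(n θ)`, `S2 f N = ∑_{n ≤ N} f(n)^2`, `pb P` = primes in `(P, 2P]`,
`pbl P d l` = those in the class `l mod d`, `cor`, `ge`, `JJT` as in `H35/W/Defs.lean`.

* `CorL x B m K η N M g` (Part III): the hypotheses on `g`: support, second moment, no correlation with
  `ee(n c/d) n^{2 π i t}` for `|t| ≤ L^(4m)`, small mean square of the correlations over sets of measure `≤ T^η` in
  `T ≤ |t| ≤ 2T`.
* `LVP` = the result of Part II (helper80), used as a hypothesis.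
* `rr f P H N = ∑_{p ≤ H, p < N} ∑_{k ∈ pb P, k | N - p} f((N - p)/k)` (`p` prime).
-/

set_option autoImplicit false

namespace Pool.Agent.H76.SP

open Finset MeasureTheory
open Pool.Agent.H91.PK (ee)
open Pool.Agent.H91.EHA (Lam hR lamR ramS)
open Pool.Agent.H76.EHB
open Pool.Agent.H35.W

/-- Part II (theorem `Pool.Agent.H80.LV.lv`) -/
def LVP : Prop := ∃ η : ℝ, 0 < η ∧ η ≤ 1 ∧ ∀ K A : ℕ, ∃ K' x0 : ℕ, ∀ x : ℕ, x0 ≤ x →
    ∀ (M y d R : ℕ) (c : ℤ) (T : ℝ) (B : Set ℝ), 1 ≤ d → (d : ℝ) ≤ Real.log x ^ A →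
      (R : ℝ) ≤ Real.log x ^ A → y ≤ x → Real.log x ^ K' ≤ T → 2 * T ≤ (x : ℝ) ^ (2 : ℕ) →
      MeasurableSet B → (∀ t ∈ B, T ≤ |t| ∧ |t| ≤ 2 * T) →
      volume.real B ≤ T ^ η * Real.log x ^ A →
      ∫ t in B, ‖cor (hR R) 0 M ((c : ℝ) / d) t y‖ ^ 2 ≤ (x : ℝ) ^ 2 / Real.log x ^ K

/-- the hypotheses of Part III on `g` -/
structure CorL (x B m K : ℕ) (η : ℝ) (N M : ℕ) (g : ℕ → ℝ) : Prop where
  supp : ∀ n, n ∉ Ioc M N → g n = 0
  sq : S2 g N ≤ x * Real.log x ^ 2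
  low : ∀ (c : ℤ) (d : ℕ) (t : ℝ) (y : ℕ), 1 ≤ d → (d : ℝ) ≤ Real.log x ^ B →
    IsCoprime c (d : ℤ) → y ≤ N → |t| ≤ Real.log x ^ (4 * m) →
      ‖cor g 0 M ((c : ℝ) / d) t y‖ ≤ x / Real.log x ^ (3 * m)
  large : ∀ (c : ℤ) (d y : ℕ) (T : ℝ) (𝓑 : Set ℝ), 1 ≤ d → (d : ℝ) ≤ Real.log x ^ B →
    IsCoprime c (d : ℤ) → y ≤ N → Real.log x ^ m ≤ T → 2 * T ≤ (x : ℝ) ^ (2 : ℕ) →
    MeasurableSet 𝓑 → (∀ t ∈ 𝓑, T ≤ |t| ∧ |t| ≤ 2 * T) → volume.real 𝓑 ≤ T ^ η →
      ∫ t in 𝓑, ‖cor g 0 M ((c : ℝ) / d) t y‖ ^ 2 ≤ (x : ℝ) ^ 2 / Real.log x ^ K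

/-- logarithms are large -/
theorem log_ge (C : ℝ) : ∃ x0 : ℕ, ∀ x : ℕ, x0 ≤ x → C ≤ Real.log x := by
  have h := (Real.tendsto_log_atTop.comp (tendsto_natCast_atTop_atTop (R := ℝ))).eventually
    (Filter.eventually_ge_atTop C)
  exact Filter.eventually_atTop.1 h

end Pool.Agent.H76.SP

end

section

/-!
# From the second moment of `hR` to the range `Q A ≥ x^{1+ε}`
-/

set_option autoImplicit false

namespace Pool.Agent.H91.EHA

open Finset

/-- powers of `log x` are eventually smaller than any positive power of `x`. -/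
lemma log_pow_le_rpow (m : ℕ) (δ : ℝ) (hδ : 0 < δ) : ∃ x0 : ℕ, ∀ x : ℕ, x0 ≤ x →
    Real.log x ^ m ≤ (x : ℝ) ^ δ := by
  have h := isLittleO_log_rpow_rpow_atTop (m : ℝ) hδ
  have h2 := h.bound (show (0:ℝ) < 1 by norm_num)
  have h3 := (tendsto_natCast_atTop_atTop (R := ℝ)).eventually h2
  obtain ⟨x0, hx0⟩ := Filter.eventually_atTop.1 h3
  refine ⟨max x0 1, fun x hx => ?_⟩
  have h4 := hx0 x (le_trans (le_max_left _ _) hx)
  have h5 : (1:ℝ) ≤ x := by exact_mod_cast le_trans (le_max_right _ _) hx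
  have h6 : 0 ≤ Real.log x := Real.log_nonneg h5
  rw [Real.norm_of_nonneg (by positivity), Real.norm_of_nonneg (by positivity), one_mul,
    Real.rpow_natCast] at h4
  exact h4

/-- the logarithm is eventually larger than any constant. -/
lemma log_ge (K : ℝ) : ∃ x0 : ℕ, ∀ x : ℕ, x0 ≤ x → K ≤ Real.log x := by
  have h := Real.tendsto_log_atTop.comp (tendsto_natCast_atTop_atTop (R := ℝ))
  have h2 := h.eventually (Filter.eventually_ge_atTop K)
  obtain ⟨x0, hx0⟩ := Filter.eventually_atTop.1 h2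
  exact ⟨x0, fun x hx => hx0 x hx⟩

end Pool.Agent.H91.EHA

end

section

/-!
# W PowZ: powers of the prime sums

`ZZ S t ^ j = ∑_m a_m m^{-1/2+it}`, `a_m` the number of `(p_1, ..., p_j) ∈ S^j` with product `m`.
Recursion: `a^{(0)} = 1_{m = 1}`, `a^{(j+1)}(m) = ∑_{p ∈ S, p ∣ m} a^{(j)}(m/p)`.  If `a^{(j+1)}(m) ≠ 0` then `m` is a product of
`j+1` primes, so it has at most `j+1` prime divisors and `a^{(j+1)}(m) ≤ (j+1) a^{(j)}`-max `≤ (j+1)!`
(keep in the induction: `a^{(j)}(m) ≠ 0 → ArithmeticFunction.cardFactors m = j` (`m ≠ 0`), or `m.primeFactors.card ≤ j`).  The support is in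
`[1, (2P)^j]`, and `∑_m a_m/m = (∑_{p ∈ S} 1/p)^j ≤ 1` as `∑_{p ∈ S} 1/p ≤ P · (1/P)`.
-/

set_option autoImplicit false

namespace Pool.Agent.H35.W

open Finset
open Pool.Agent.H76.EHB

/-- the number of `j`-tuples of elements of `S` with product `m` -/
private def powzA (S : Finset ℕ) : ℕ → ℕ → ℕ
  | 0, m => if m = 1 then 1 else 0
  | j + 1, m => ∑ p ∈ S.filter (fun p => p ∣ m), powzA S j (m / p)

private theorem powzA_supp {P : ℕ} {S : Finset ℕ} (hS : S ⊆ pb P) (j : ℕ) :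
    ∀ m, powzA S j m ≠ 0 → m.primeFactors.card ≤ j ∧ 1 ≤ m ∧ m ≤ (2 * P) ^ j := by
  induction j with
  | zero =>
    intro m hm
    have h1 : m = 1 := by
      by_contra h
      exact hm (by simp [powzA, h])
    subst h1
    simp
  | succ j ih =>
    intro m hm
    unfold powzA at hm
    obtain ⟨p, hp, hpm⟩ := Finset.exists_ne_zero_of_sum_ne_zero hm
    rw [Finset.mem_filter] at hp
    have hpb := hS hp.1
    unfold pb at hpb
    rw [Finset.mem_filter, Finset.mem_Ioc] at hpb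
    obtain ⟨⟨_, hp2⟩, hpp⟩ := hpb
    obtain ⟨h1, h2, h3⟩ := ih _ hpm
    have hmul : p * (m / p) = m := Nat.mul_div_cancel' hp.2
    have hk : m / p ≠ 0 := by omega
    refine ⟨?_, ?_, ?_⟩
    · rw [← hmul, Nat.primeFactors_mul hpp.ne_zero hk, hpp.primeFactors]
      refine (Finset.card_union_le _ _).trans ?_
      rw [Finset.card_singleton]
      omega
    · rw [← hmul]
      exact Nat.mul_pos hpp.pos h2
    · rw [← hmul, pow_succ, mul_comm]
      exact Nat.mul_le_mul h3 hp2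

private theorem powzA_le {P : ℕ} {S : Finset ℕ} (hS : S ⊆ pb P) (j : ℕ) :
    ∀ m, powzA S j m ≤ j.factorial := by
  induction j with
  | zero =>
    intro m
    unfold powzA
    split_ifs <;> simp
  | succ j ih =>
    intro m
    by_cases hm : powzA S (j + 1) m = 0
    · rw [hm]
      exact Nat.zero_le _
    · obtain ⟨h1, h2, -⟩ := powzA_supp hS (j + 1) m hm
      unfold powzA
      refine (Finset.sum_le_sum fun p _ => ih (m / p)).trans ?_
      rw [Finset.sum_const, smul_eq_mul, Nat.factorial_succ]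
      refine Nat.mul_le_mul_right _ (le_trans (Finset.card_le_card ?_) h1)
      intro p hp
      rw [Finset.mem_filter] at hp
      have hpb := hS hp.1
      unfold pb at hpb
      rw [Finset.mem_filter] at hpb
      exact Nat.mem_primeFactors.2 ⟨hpb.2, hp.2, by omega⟩

private theorem powzA_sum {R : Type*} [CommSemiring R] {P : ℕ} {S : Finset ℕ} (hS : S ⊆ pb P)
    (h : ℕ → R) (h1 : h 1 = 1) (hm : ∀ p ∈ S, ∀ k, 1 ≤ k → h (p * k) = h p * h k) (j : ℕ) :
    ∑ m ∈ Icc 1 ((2 * P) ^ j), (powzA S j m : R) * h m = (∑ p ∈ S, h p) ^ j := by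
  induction j with
  | zero => simp [powzA, h1]
  | succ j ih =>
    have e1 : ∀ m ∈ Icc 1 ((2 * P) ^ (j + 1)), (powzA S (j + 1) m : R) * h m =
        ∑ p ∈ S, (if p ∣ m then (powzA S j (m / p) : R) * h m else 0) := by
      intro m _
      rw [← Finset.sum_filter]
      show ((∑ p ∈ S.filter (fun p => p ∣ m), powzA S j (m / p) : ℕ) : R) * h m = _
      rw [Nat.cast_sum, Finset.sum_mul]
    rw [Finset.sum_congr rfl e1, Finset.sum_comm, pow_succ' (∑ p ∈ S, h p), ← ih, Finset.sum_mul]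
    refine Finset.sum_congr rfl fun p hp => ?_
    have hpb := hS hp
    unfold pb at hpb
    rw [Finset.mem_filter, Finset.mem_Ioc] at hpb
    obtain ⟨⟨_, hp2⟩, hpp⟩ := hpb
    rw [← Finset.sum_filter, Finset.mul_sum]
    have hinj : Set.InjOn (fun k : ℕ => p * k) (Icc 1 ((2 * P) ^ j) : Finset ℕ) :=
      fun a _ b _ hab => Nat.eq_of_mul_eq_mul_left hpp.pos hab
    have e2 : ∑ k ∈ Icc 1 ((2 * P) ^ j), h p * ((powzA S j k : R) * h k) =
        ∑ m ∈ (Icc 1 ((2 * P) ^ j)).image (fun k => p * k), (powzA S j (m / p) : R) * h m := by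
      rw [Finset.sum_image hinj]
      refine Finset.sum_congr rfl fun k hk => ?_
      rw [Finset.mem_Icc] at hk
      rw [Nat.mul_div_cancel_left _ hpp.pos, hm p hp k hk.1]
      ring
    rw [e2]
    symm
    refine Finset.sum_subset ?_ ?_
    · intro m hm'
      rw [Finset.mem_image] at hm'
      obtain ⟨k, hk, rfl⟩ := hm'
      rw [Finset.mem_Icc] at hk
      rw [Finset.mem_filter, Finset.mem_Icc]
      refine ⟨⟨Nat.mul_pos hpp.pos hk.1, ?_⟩, Dvd.intro _ rfl⟩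
      rw [pow_succ, mul_comm]
      exact Nat.mul_le_mul hk.2 hp2
    · intro m hm' hn
      rw [Finset.mem_filter] at hm'
      have : powzA S j (m / p) = 0 := by
        by_contra h0
        obtain ⟨-, h2, h3⟩ := powzA_supp hS j _ h0
        refine hn (Finset.mem_image.2 ⟨m / p, Finset.mem_Icc.2 ⟨h2, h3⟩, ?_⟩)
        exact Nat.mul_div_cancel' hm'.2
      rw [this, Nat.cast_zero, zero_mul]

theorem pow_z (P j : ℕ) (S : Finset ℕ) (hP : 1 ≤ P) (hS : S ⊆ pb P) :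
    ∃ a : ℕ → ℝ, (∀ m, 0 ≤ a m ∧ a m ≤ (j.factorial : ℝ)) ∧
      (∀ t : ℝ, ZZ S t ^ j
        = ∑ m ∈ Icc 1 ((2 * P) ^ j), (a m : ℂ) * (m : ℂ) ^ (-(1 / 2 : ℂ) + t * Complex.I)) ∧
      ∑ m ∈ Icc 1 ((2 * P) ^ j), a m / m ≤ 1 := by
  refine ⟨fun m => (powzA S j m : ℝ), fun m => ⟨Nat.cast_nonneg _, ?_⟩, fun t => ?_, ?_⟩
  · show (powzA S j m : ℝ) ≤ (j.factorial : ℝ)
    exact_mod_cast powzA_le hS j m
  · have h1 := powzA_sum (R := ℂ) hS (fun m => (m : ℂ) ^ (-(1 / 2 : ℂ) + t * Complex.I)) (by simp)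
      (fun p _ k _ => by
        push_cast
        rw [Complex.natCast_mul_natCast_cpow]) j
    unfold ZZ
    rw [← h1]
    refine Finset.sum_congr rfl fun m _ => ?_
    push_cast
    rfl
  · have h1 := powzA_sum (R := ℝ) hS (fun m => (1 : ℝ) / m) (by simp)
      (fun p _ k _ => by
        push_cast
        rw [one_div_mul_one_div]) j
    have h2 : ∑ m ∈ Icc 1 ((2 * P) ^ j), (powzA S j m : ℝ) / m = (∑ p ∈ S, (1 : ℝ) / p) ^ j := by
      rw [← h1]
      refine Finset.sum_congr rfl fun m _ => ?_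
      rw [mul_one_div]
    have hP0 : (0 : ℝ) < P := by exact_mod_cast hP
    have h3 : ∑ p ∈ S, (1 : ℝ) / p ≤ 1 := by
      have h4 : ∀ p ∈ S, (1 : ℝ) / p ≤ 1 / P := by
        intro p hp
        have hpb := hS hp
        unfold pb at hpb
        rw [Finset.mem_filter, Finset.mem_Ioc] at hpb
        exact one_div_le_one_div_of_le hP0 (by exact_mod_cast hpb.1.1.le)
      refine (Finset.sum_le_sum h4).trans ?_
      rw [Finset.sum_const, nsmul_eq_mul, mul_one_div, div_le_one hP0]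
      have h5 : S.card ≤ P := by
        refine (Finset.card_le_card hS).trans ?_
        unfold pb
        refine (Finset.card_filter_le _ _).trans ?_
        rw [Nat.card_Ioc]
        omega
      exact_mod_cast h5
    show ∑ m ∈ Icc 1 ((2 * P) ^ j), (powzA S j m : ℝ) / m ≤ 1
    rw [h2]
    exact pow_le_one₀ (Finset.sum_nonneg fun p _ => by positivity) h3

end Pool.Agent.H35.W

end

section

/-!
# W BadM: the measure of the set where the prime sum is large

Proof.  Markov: `(P/D)^j vol ≤ ∫_{-T}^T ‖ZZ S t‖^{2j} dt = ∫ ‖ZZ S t ^ j‖^2 ≤ (2T + 4X(1 + log X)) ∑ a_m^2/m`, `X = (2P)^j`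
(`pow_z`, `mean_v`), `∑ a_m^2/m ≤ j! ∑ a_m/m ≤ j!`.  (`ZZ S` is continuous: finite sum.)
-/

set_option autoImplicit false

namespace Pool.Agent.H35.W

open Finset MeasureTheory
open Pool.Agent.H76.EHB

theorem bad_m (P j : ℕ) (S : Finset ℕ) (T D : ℝ) (hP : 1 ≤ P) (hS : S ⊆ pb P) (hT : 0 ≤ T)
    (hD : 0 < D) :
    volume.real {t : ℝ | |t| ≤ T ∧ P / D < ‖ZZ S t‖ ^ 2}
      ≤ (D / P) ^ j * ((2 * T + 4 * (2 * P : ℝ) ^ j * (1 + Real.log ((2 * P : ℝ) ^ j)))
        * j.factorial) := by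
  have hP0 : (0 : ℝ) < P := by exact_mod_cast hP
  obtain ⟨a, ha, hpow, hsum⟩ := pow_z P j S hP hS
  set X : ℕ := (2 * P) ^ j with hX
  have hX1 : 1 ≤ X := Nat.one_le_pow _ _ (by omega)
  have hXr : (X : ℝ) = (2 * P : ℝ) ^ j := by
    rw [hX]
    push_cast
    ring
  have hcont : Continuous fun t : ℝ => ZZ S t := by
    unfold ZZ
    refine continuous_finsetSum _ fun k hk => ?_
    have hk1 : k.Prime := (Finset.mem_filter.1 (hS hk)).2
    refine Continuous.const_cpow (by fun_prop) (Or.inl ?_)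
    exact_mod_cast hk1.ne_zero
  have hgcont : Continuous fun t : ℝ => ‖ZZ S t ^ j‖ ^ 2 := by fun_prop
  have hmean := mean_v (fun m => (a m : ℂ)) X T hX1 hT
  have hsq : ∑ m ∈ Icc 1 X, ‖(a m : ℂ)‖ ^ 2 / m ≤ j.factorial := by
    calc ∑ m ∈ Icc 1 X, ‖(a m : ℂ)‖ ^ 2 / m ≤ ∑ m ∈ Icc 1 X, (j.factorial : ℝ) * (a m / m) := by
          refine Finset.sum_le_sum fun m _ => ?_
          obtain ⟨h0, h1⟩ := ha m
          rw [Complex.norm_real, Real.norm_eq_abs, sq_abs, ← mul_div_assoc]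
          refine div_le_div_of_nonneg_right ?_ (Nat.cast_nonneg _)
          rw [sq]
          exact mul_le_mul_of_nonneg_right h1 h0
      _ = (j.factorial : ℝ) * ∑ m ∈ Icc 1 X, a m / m := by rw [Finset.mul_sum]
      _ ≤ (j.factorial : ℝ) * 1 := mul_le_mul_of_nonneg_left hsum (Nat.cast_nonneg _)
      _ = j.factorial := mul_one _
  have hK0 : 0 ≤ 2 * T + 4 * (X : ℝ) * (1 + Real.log X) := by
    have h1 : 0 ≤ Real.log (X : ℝ) := Real.log_nonneg (by exact_mod_cast hX1)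
    positivity
  have hint : ∫ t in (-T)..T, ‖ZZ S t ^ j‖ ^ 2 ≤
      (2 * T + 4 * (X : ℝ) * (1 + Real.log X)) * j.factorial := by
    have h1 : ∫ t in (-T)..T, ‖ZZ S t ^ j‖ ^ 2 =
        ∫ t in (-T)..T, ‖∑ m ∈ Icc 1 X, (a m : ℂ) * (m : ℂ) ^ (-(1 / 2 : ℂ) + t * Complex.I)‖ ^ 2 := by
      refine intervalIntegral.integral_congr fun t _ => ?_
      show ‖ZZ S t ^ j‖ ^ 2 = _
      rw [hpow t]
    rw [h1]
    exact hmean.trans (mul_le_mul_of_nonneg_left hsq hK0)
  set B : Set ℝ := {t : ℝ | |t| ≤ T ∧ P / D < ‖ZZ S t‖ ^ 2} with hB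
  have hBm : MeasurableSet B := by
    have m1 : MeasurableSet {t : ℝ | |t| ≤ T} := measurableSet_le (by fun_prop) measurable_const
    have m2 : MeasurableSet {t : ℝ | (P : ℝ) / D < ‖ZZ S t‖ ^ 2} :=
      measurableSet_lt measurable_const (hcont.norm.pow 2).measurable
    exact m1.inter m2
  have hBsub : B ⊆ Set.Icc (-T) T := by
    intro t ht
    exact abs_le.1 ht.1
  have hc0 : 0 ≤ (P : ℝ) / D := by positivity
  have h1 : volume.real B * ((P : ℝ) / D) ^ j ≤ ∫ t in B, ‖ZZ S t ^ j‖ ^ 2 := by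
    have h2 : ∫ _ in B, ((P : ℝ) / D) ^ j = volume.real B * ((P : ℝ) / D) ^ j := by
      rw [setIntegral_const, smul_eq_mul]
    rw [← h2]
    refine setIntegral_mono_on ?_ ?_ hBm ?_
    · exact (continuous_const.integrableOn_Icc).mono_set hBsub
    · exact (hgcont.integrableOn_Icc).mono_set hBsub
    · intro t ht
      rw [norm_pow, ← pow_mul, mul_comm, pow_mul]
      exact pow_le_pow_left₀ hc0 ht.2.le j
  have h2 : ∫ t in B, ‖ZZ S t ^ j‖ ^ 2 ≤ ∫ t in (-T)..T, ‖ZZ S t ^ j‖ ^ 2 := by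
    rw [intervalIntegral.integral_of_le (by linarith), ← integral_Icc_eq_integral_Ioc]
    refine setIntegral_mono_set hgcont.integrableOn_Icc ?_ hBsub.eventuallyLE
    exact Filter.Eventually.of_forall fun t => by positivity
  have h3 : volume.real B * ((P : ℝ) / D) ^ j ≤
      (2 * T + 4 * (X : ℝ) * (1 + Real.log X)) * j.factorial := h1.trans (h2.trans hint)
  have h4 : volume.real B = (D / P) ^ j * (volume.real B * ((P : ℝ) / D) ^ j) := by
    have h5 : (D / P) ^ j * ((P : ℝ) / D) ^ j = 1 := by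
      rw [← mul_pow]
      have : D / P * (P / D) = 1 := by
        field_simp
      rw [this, one_pow]
    calc volume.real B = 1 * volume.real B := (one_mul _).symm
      _ = _ := by rw [← h5]; ring
  rw [h4]
  have h6 : (0 : ℝ) ≤ (D / P) ^ j := by positivity
  have h7 := mul_le_mul_of_nonneg_left h3 h6
  rw [hXr] at h7
  exact h7

end Pool.Agent.H35.W

end

section

/-!
# W BadN: the measure of the bad set, choice of the exponent

Proof.  We may assume `c ≤ 1`.  Take `j = ⌈log T / log P⌉₊ ≥ 1`, so `T ≤ P^j` and `j ≤ log T/log P + 1`.  By `bad_m` (with `2T`, `D = L^E`):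
`vol ≤ L^{Ej} P^{-j} (4 P^j + 4 · 2^j P^j (1 + j log(2P))) j! ≤ L^{Ej} 2^j · 16 L^2 · j!` (for `P ≤ x`, `T ≤ x^3`,
`j ≤ 3L + 1 ≤ 4L`, `1 + j log (2P) ≤ 2 · 4L · 2L`-like; adapt the constants) and `j! ≤ j^j ≤ (4L)^j`.  So
`vol ≤ C L^2 (8 L^{E+1})^j ≤ C L^2 L^{(E+2) j}` (`L ≥ 8`) and `L^{(E+2) j} ≤ L^{E+2} · L^{(E+2) log T/log P} ≤ L^{E+2} T^{(E+2)/b}`
as `log P ≥ b log L`.  With `b ≥ 2 (E+2)/c` this is `L^{E+2} T^{c/2}` and `C L^{E+4} ≤ L^{E+5} ≤ T^{c/2}` for `T ≥ L^m`,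
`m ≥ 2(E+5)/c`.
-/

set_option autoImplicit false

namespace Pool.Agent.H35.W

open Finset MeasureTheory
open Pool.Agent.H76.EHB

theorem bad_n (E : ℕ) (c : ℝ) (hc : 0 < c) : ∃ b m x0 : ℕ, ∀ x : ℕ, x0 ≤ x →
    ∀ (P : ℕ) (S : Finset ℕ) (T : ℝ), Real.log x ^ b ≤ P → P ≤ x → S ⊆ pb P →
      Real.log x ^ m ≤ T → T ≤ (x : ℝ) ^ (3 : ℕ) →
      volume.real {t : ℝ | |t| ≤ 2 * T ∧ P / Real.log x ^ E < ‖ZZ S t‖ ^ 2} ≤ T ^ c := by
  obtain ⟨b, hb⟩ := exists_nat_ge (2 * ((E : ℝ) + 2) / c + 1)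
  obtain ⟨m, hm⟩ := exists_nat_ge (2 * ((E : ℝ) + 5) / c + 1)
  obtain ⟨x0, hx0⟩ := exists_nat_ge (Real.exp 40)
  refine ⟨b, m, x0, fun x hx P S T hP hPx hS hT1 hT2 => ?_⟩
  have hxr : Real.exp 40 ≤ (x : ℝ) := hx0.trans (by exact_mod_cast hx)
  have hx1 : (0 : ℝ) < x := (Real.exp_pos 40).trans_le hxr
  set L := Real.log x with hL
  have hL40 : 40 ≤ L := (Real.le_log_iff_exp_le hx1).2 hxr
  have hL0 : 0 < L := by linarith
  have hE0 : 0 ≤ 2 * ((E : ℝ) + 2) / c := by positivity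
  have hE1 : 0 ≤ 2 * ((E : ℝ) + 5) / c := by positivity
  have hb1 : (1 : ℝ) ≤ b := by linarith
  have hm1 : (1 : ℝ) ≤ m := by linarith
  set l := Real.log L with hl
  have hl1 : 1 ≤ l := by
    rw [hl, Real.le_log_iff_exp_le hL0]
    have := Real.exp_one_lt_d9
    linarith
  have hLp : ∀ k : ℕ, L ^ k = Real.exp (k * l) := by
    intro k
    rw [Real.exp_nat_mul, hl, Real.exp_log hL0]
  have hLge1 : ∀ k : ℕ, 1 ≤ L ^ k := fun k => one_le_pow₀ (by linarith)
  have hP1 : (1 : ℝ) ≤ P := (hLge1 b).trans hP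
  have hP0 : (0 : ℝ) < P := by linarith
  have hPn : 1 ≤ P := by exact_mod_cast hP1
  have hT0 : 0 < T := lt_of_lt_of_le (by linarith [hLge1 m]) hT1
  have hlP : b * l ≤ Real.log P := by
    rw [Real.le_log_iff_exp_le hP0, ← hLp]
    exact hP
  have hlT : m * l ≤ Real.log T := by
    rw [Real.le_log_iff_exp_le hT0, ← hLp]
    exact hT1
  have hlT2 : Real.log T ≤ 3 * L := by
    have h := Real.log_le_log hT0 hT2
    rw [Real.log_pow] at h
    push_cast at h
    exact h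
  have hlP1 : 1 ≤ Real.log P := by nlinarith
  have hlP0 : 0 < Real.log P := by linarith
  have hlT0 : 0 ≤ Real.log T := le_trans (by positivity) hlT
  set r := Real.log T / Real.log P with hr
  have hr0 : 0 ≤ r := div_nonneg hlT0 hlP0.le
  obtain ⟨j, hj⟩ : ∃ j, j = ⌈r⌉₊ := ⟨_, rfl⟩
  have hj1 : r ≤ j := hj ▸ Nat.le_ceil r
  have hj2 : (j : ℝ) ≤ r + 1 := hj ▸ (Nat.ceil_lt_add_one hr0).le
  have hrL : r ≤ 3 * L := by
    rw [hr, div_le_iff₀ hlP0]
    nlinarith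
  have hj4 : (j : ℝ) ≤ 4 * L := by linarith
  have hTP : T ≤ (P : ℝ) ^ j := by
    rw [← Real.log_le_log_iff hT0 (by positivity), Real.log_pow]
    have : r * Real.log P ≤ j * Real.log P := mul_le_mul_of_nonneg_right hj1 hlP0.le
    rw [hr, div_mul_cancel₀ _ hlP0.ne'] at this
    exact this
  have h2P : Real.log (2 * P) ≤ 2 * L := by
    have h1 : (2 * P : ℝ) ≤ (x : ℝ) ^ 2 := by
      have h2 : (2 : ℝ) ≤ x := by
        have := Real.add_one_le_exp (40 : ℝ)
        linarith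
      have h3 : (P : ℝ) ≤ x := by exact_mod_cast hPx
      nlinarith
    have h := Real.log_le_log (by positivity) h1
    rw [Real.log_pow] at h
    push_cast at h
    exact h
  have hmain := bad_m P j S (2 * T) (L ^ E) hPn hS (by positivity) (by positivity)
  refine hmain.trans ?_
  have h2j : (1 : ℝ) ≤ 2 ^ j := one_le_pow₀ (by norm_num)
  have hPj : (0 : ℝ) < (P : ℝ) ^ j := by positivity
  have hlog : Real.log ((2 * P : ℝ) ^ j) ≤ 8 * L ^ 2 := by
    rw [Real.log_pow]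
    have h1 : 0 ≤ Real.log (2 * (P : ℝ)) := Real.log_nonneg (by linarith)
    calc (j : ℝ) * Real.log (2 * P) ≤ (4 * L) * (2 * L) :=
          mul_le_mul hj4 h2P h1 (by positivity)
      _ = 8 * L ^ 2 := by ring
  have hX : 2 * (2 * T) + 4 * (2 * P : ℝ) ^ j * (1 + Real.log ((2 * P : ℝ) ^ j)) ≤
      (P : ℝ) ^ j * (2 ^ j * (40 * L ^ 2)) := by
    have h1 : 2 * (2 * T) ≤ 4 * ((P : ℝ) ^ j * 2 ^ j) := by
      have h6 : (P : ℝ) ^ j * 1 ≤ (P : ℝ) ^ j * 2 ^ j := mul_le_mul_of_nonneg_left h2j hPj.le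
      linarith
    have h2 : 4 * (2 * P : ℝ) ^ j * (1 + Real.log ((2 * P : ℝ) ^ j)) ≤
        4 * ((P : ℝ) ^ j * 2 ^ j) * (1 + 8 * L ^ 2) := by
      rw [mul_pow, mul_comm ((2 : ℝ) ^ j)]
      refine mul_le_mul_of_nonneg_left ?_ (by positivity)
      rw [mul_pow, mul_comm ((2 : ℝ) ^ j)] at hlog
      linarith
    have h3 : 0 < (P : ℝ) ^ j * 2 ^ j := by positivity
    have h4 : (1 : ℝ) ≤ L ^ 2 := hLge1 2
    refine (add_le_add h1 h2).trans ?_
    have h5 : 4 * ((P : ℝ) ^ j * 2 ^ j) + 4 * ((P : ℝ) ^ j * 2 ^ j) * (1 + 8 * L ^ 2) =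
        ((P : ℝ) ^ j * 2 ^ j) * (8 + 32 * L ^ 2) := by ring
    rw [h5, ← mul_assoc ((P : ℝ) ^ j)]
    exact mul_le_mul_of_nonneg_left (by linarith) h3.le
  have hfac : (j.factorial : ℝ) ≤ (4 * L) ^ j := by
    have h1 : (j.factorial : ℝ) ≤ (j : ℝ) ^ j := by exact_mod_cast Nat.factorial_le_pow j
    exact h1.trans (pow_le_pow_left₀ (Nat.cast_nonneg _) hj4 j)
  have hstep : (L ^ E / P) ^ j * ((2 * (2 * T) + 4 * (2 * P : ℝ) ^ j * (1 + Real.log ((2 * P : ℝ) ^ j)))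
      * j.factorial) ≤ 40 * L ^ 2 * (8 * L ^ (E + 1)) ^ j := by
    have h0 : 0 ≤ (L ^ E / P) ^ j := by positivity
    have h1 : (2 * (2 * T) + 4 * (2 * P : ℝ) ^ j * (1 + Real.log ((2 * P : ℝ) ^ j))) * j.factorial ≤
        ((P : ℝ) ^ j * (2 ^ j * (40 * L ^ 2))) * (4 * L) ^ j :=
      mul_le_mul hX hfac (Nat.cast_nonneg _) (by positivity)
    refine (mul_le_mul_of_nonneg_left h1 h0).trans (le_of_eq ?_)
    have e1 : (8 * L ^ (E + 1)) ^ j = (L ^ E) ^ j * 2 ^ j * (4 * L) ^ j := by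
      rw [← mul_pow, ← mul_pow]
      congr 1
      ring
    rw [e1, div_pow]
    field_simp
  refine hstep.trans ?_
  have h8 : (8 * L ^ (E + 1)) ^ j ≤ (L ^ (E + 2)) ^ j := by
    refine pow_le_pow_left₀ (by positivity) ?_ j
    have e1 : L ^ (E + 2) = L * L ^ (E + 1) := by ring
    rw [e1]
    exact mul_le_mul_of_nonneg_right (by linarith) (by positivity)
  have h40 : 40 * L ^ 2 ≤ L ^ 3 := by
    have e1 : L ^ 3 = L * L ^ 2 := by ring
    rw [e1]
    exact mul_le_mul_of_nonneg_right hL40 (by positivity)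
  refine (mul_le_mul h40 h8 (by positivity) (by positivity)).trans ?_
  rw [← pow_mul, ← pow_add, hLp, Real.rpow_def_of_pos hT0, Real.exp_le_exp]
  have hf1 : l * ((E : ℝ) + 5) ≤ c / 2 * Real.log T := by
    have h1 : ((E : ℝ) + 5) ≤ c / 2 * m := by
      have h2 : 2 * ((E : ℝ) + 5) / c ≤ m := by linarith
      rw [div_le_iff₀ hc] at h2
      linarith
    calc l * ((E : ℝ) + 5) ≤ l * (c / 2 * m) := mul_le_mul_of_nonneg_left h1 (by linarith)
      _ = c / 2 * (m * l) := by ring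
      _ ≤ c / 2 * Real.log T := mul_le_mul_of_nonneg_left hlT (by linarith)
  have hf2 : ((E : ℝ) + 2) * (l * r) ≤ c / 2 * Real.log T := by
    have h1 : l * r ≤ Real.log T / b := by
      rw [hr, le_div_iff₀ (by linarith), mul_div_assoc', div_mul_eq_mul_div, div_le_iff₀ hlP0]
      calc l * Real.log T * b = Real.log T * (b * l) := by ring
        _ ≤ Real.log T * Real.log P := mul_le_mul_of_nonneg_left hlP hlT0
    have h3 : ((E : ℝ) + 2) ≤ c / 2 * b := by
      have h2 : 2 * ((E : ℝ) + 2) / c ≤ b := by linarith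
      rw [div_le_iff₀ hc] at h2
      linarith
    have h4 : 0 ≤ Real.log T / b := div_nonneg hlT0 (by linarith)
    calc ((E : ℝ) + 2) * (l * r) ≤ ((E : ℝ) + 2) * (Real.log T / b) :=
          mul_le_mul_of_nonneg_left h1 (by positivity)
      _ ≤ (c / 2 * b) * (Real.log T / b) := mul_le_mul_of_nonneg_right h3 h4
      _ = c / 2 * Real.log T := by
          have : (b : ℝ) ≠ 0 := by linarith
          field_simp
  push_cast
  have hf3 : ((E : ℝ) + 2) * (l * j) ≤ ((E : ℝ) + 2) * (l * (r + 1)) :=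
    mul_le_mul_of_nonneg_left (mul_le_mul_of_nonneg_left hj2 (by linarith)) (by positivity)
  have e1 : ((3 : ℝ) + ((E : ℝ) + 2) * j) * l = 3 * l + ((E : ℝ) + 2) * (l * j) := by ring
  have e2 : ((E : ℝ) + 2) * (l * (r + 1)) = ((E : ℝ) + 2) * (l * r) + ((E : ℝ) + 2) * l := by ring
  have e3 : l * ((E : ℝ) + 5) = 3 * l + ((E : ℝ) + 2) * l := by ring
  rw [e1]
  linarith

end Pool.Agent.H35.W

end

section

/-!
# EHB JB: the bound for `II`

`int_sum_sq`; `‖ZZ S t‖ ≤ ∑_{k ≤ K} k^{-1/2} ≤ 2 √K` for `S ⊆ Icc 1 K`.  Split the `t`-integral of `‖ZZ‖²‖Mel‖²` into `|t| ≤ T0`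
(`≤ 4K * 2 T0 * MB²`), `T0 < |t| ≤ T1` (`≤ ZB * ∫‖Mel‖² ≤ ZB * 2π S2`, `mel_planch`, `gg_L2`), `|t| > T1`
(`≤ 4K * 2 * (7 (N+|a|+1) F1)²/T1`, `mel_tail`, `∫_{T1}^∞ dt/t² = 1/T1`).  Divide by `2π`.
-/

set_option autoImplicit false

namespace Pool.Agent.H76.EHB

open Finset MeasureTheory

theorem jb_sum (K : ℕ) : ∑ k ∈ Icc 1 K, 1 / Real.sqrt (k : ℝ) ≤ 2 * Real.sqrt K := by
  induction K with
  | zero => simp
  | succ n ih =>
    rw [Finset.sum_Icc_succ_top (by omega)]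
    have h0 : (0 : ℝ) ≤ n := Nat.cast_nonneg n
    have h1 : (0 : ℝ) < ((n + 1 : ℕ) : ℝ) := by positivity
    have hb : 0 < Real.sqrt ((n + 1 : ℕ) : ℝ) := Real.sqrt_pos.2 h1
    have ha : 0 ≤ Real.sqrt (n : ℝ) := Real.sqrt_nonneg _
    have hb2 : Real.sqrt ((n + 1 : ℕ) : ℝ) ^ 2 = (n : ℝ) + 1 := by
      rw [Real.sq_sqrt h1.le]; push_cast; ring
    have ha2 : Real.sqrt (n : ℝ) ^ 2 = (n : ℝ) := Real.sq_sqrt h0
    have key : 1 / Real.sqrt ((n + 1 : ℕ) : ℝ)
        ≤ 2 * Real.sqrt ((n + 1 : ℕ) : ℝ) - 2 * Real.sqrt (n : ℝ) := by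
      rw [div_le_iff₀ hb]
      nlinarith [sq_nonneg (Real.sqrt ((n + 1 : ℕ) : ℝ) - Real.sqrt (n : ℝ))]
    linarith

theorem jb_norm_term (k : ℕ) (hk : 1 ≤ k) (t : ℝ) :
    ‖(k : ℂ) ^ (-(1 / 2 : ℂ) + t * Complex.I)‖ = 1 / Real.sqrt (k : ℝ) := by
  rw [Complex.norm_natCast_cpow_of_pos (by omega)]
  have h : (-(1 / 2 : ℂ) + t * Complex.I).re = -(1 / 2 : ℝ) := by
    simp
  rw [h, Real.rpow_neg (Nat.cast_nonneg k), ← Real.sqrt_eq_rpow, one_div]

theorem norm_ZZ_sq_le (K : ℕ) (S : Finset ℕ) (hS : S ⊆ Icc 1 K) (t : ℝ) : ‖ZZ S t‖ ^ 2 ≤ 4 * K := by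
  have h1 : ‖ZZ S t‖ ≤ 2 * Real.sqrt K := by
    unfold ZZ
    refine (norm_sum_le _ _).trans ?_
    have h2 : ∑ k ∈ S, ‖(k : ℂ) ^ (-(1 / 2 : ℂ) + t * Complex.I)‖
        = ∑ k ∈ S, 1 / Real.sqrt (k : ℝ) :=
      Finset.sum_congr rfl fun k hk => jb_norm_term k (Finset.mem_Icc.1 (hS hk)).1 t
    rw [h2]
    refine (Finset.sum_le_sum_of_subset_of_nonneg hS ?_).trans (jb_sum K)
    intro i _ _
    positivity
  have h3 : (2 * Real.sqrt K) ^ 2 = 4 * (K : ℝ) := by
    rw [mul_pow, Real.sq_sqrt (Nat.cast_nonneg K)]; norm_num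
  rw [← h3]
  exact pow_le_pow_left₀ (norm_nonneg _) h1 2

end Pool.Agent.H76.EHB

end

section

/-!
PK Vau: Vaughan's identity, summed against an arbitrary function `g`.

Pointwise: for n ≥ 1
 Λ(n) = [n ≤ U] Λ(n) + ∑_{ab=n, a ≤ V} μ(a) log b - ∑_{ab=n} nuV(a) + ∑_{ml=n, m > U} Λ(m) cV(l),
 (cV(l) = ∑_{d|l, d>V} μ(d), nuV(a) = ∑_{de=a, d≤V, e≤U} μ(d)Λ(e)).
Proof: Λ·[>U] * (μ * 1) = Λ·[>U]; split μ = μ·[≤V] + μ·[>V]; and (μ[≤V]) * 1 * Λ[>U] = (μ[≤V]) * log - (μ[≤V])*Λ[≤U]*1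
 because Λ * 1 = log.  One can work with ArithmeticFunction (ℝ) and its ring structure: define the arithmetic functions
 ΛU, ΛU', μV, μV' (restrictions, all vanish at 0) and compute in the commutative ring.
Then multiply by g(n), sum over n in [1,N] and reorder the sum over pairs (a,b) with ab ≤ N.
In the last sum cV V n = 0 for n ≤ V, so the restriction n > V is harmless.
nuV(a) ≠ 0 only for a ≤ U V (a = d e, d ≤ V, e ≤ U).
-/

set_option autoImplicit false

namespace Pool.Agent.H91.PK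

open Finset

/-- restriction of an arithmetic function to `n ≤ U` -/
noncomputable def Vau_lo (f : ArithmeticFunction ℝ) (U : ℕ) : ArithmeticFunction ℝ :=
  ⟨fun n => if n ≤ U then f n else 0, by simp⟩

/-- restriction of an arithmetic function to `n > U` -/
noncomputable def Vau_hi (f : ArithmeticFunction ℝ) (U : ℕ) : ArithmeticFunction ℝ :=
  ⟨fun n => if n ≤ U then 0 else f n, by simp⟩

theorem Vau_lo_apply (f : ArithmeticFunction ℝ) (U n : ℕ) : Vau_lo f U n = if n ≤ U then f n else 0 := rfl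

theorem Vau_hi_apply (f : ArithmeticFunction ℝ) (U n : ℕ) : Vau_hi f U n = if n ≤ U then 0 else f n := rfl

theorem Vau_split (f : ArithmeticFunction ℝ) (U : ℕ) : f = Vau_lo f U + Vau_hi f U := by
  ext n
  rw [ArithmeticFunction.add_apply, Vau_lo_apply, Vau_hi_apply]
  split_ifs <;> simp

/-- the real Moebius function -/
noncomputable def Vau_mu : ArithmeticFunction ℝ := ((ArithmeticFunction.moebius : ArithmeticFunction ℤ) : ArithmeticFunction ℝ)

/-- the real zeta function -/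
noncomputable def Vau_z : ArithmeticFunction ℝ := ((ArithmeticFunction.zeta : ArithmeticFunction ℕ) : ArithmeticFunction ℝ)

theorem Vau_mu_apply (n : ℕ) : Vau_mu n = (ArithmeticFunction.moebius n : ℝ) := rfl

theorem Vau_mu_z : Vau_mu * Vau_z = 1 := ArithmeticFunction.coe_moebius_mul_coe_zeta

theorem Vau_Lam_z : ArithmeticFunction.vonMangoldt * Vau_z = ArithmeticFunction.log :=
  ArithmeticFunction.vonMangoldt_mul_zeta

theorem Vau_id (U V : ℕ) :
    (ArithmeticFunction.vonMangoldt : ArithmeticFunction ℝ)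
      = Vau_lo ArithmeticFunction.vonMangoldt U + Vau_lo Vau_mu V * ArithmeticFunction.log
        - Vau_lo Vau_mu V * Vau_lo ArithmeticFunction.vonMangoldt U * Vau_z
        + Vau_hi ArithmeticFunction.vonMangoldt U * (Vau_hi Vau_mu V * Vau_z) := by
  have h1 := Vau_split ArithmeticFunction.vonMangoldt U
  have h2 := Vau_split Vau_mu V
  have h3 := Vau_mu_z
  have h4 := Vau_Lam_z
  set Lam : ArithmeticFunction ℝ := ArithmeticFunction.vonMangoldt
  set A := Vau_lo Lam U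
  set B := Vau_hi Lam U
  set C := Vau_lo Vau_mu V
  set D := Vau_hi Vau_mu V
  rw [← h4]
  have h5 : (C + D) * Vau_z = 1 := by rw [← h2]; exact h3
  have h6 : B * ((C + D) * Vau_z) = B := by rw [h5, mul_one]
  calc Lam = A + B := h1
    _ = A + B * ((C + D) * Vau_z) := by rw [h6]
    _ = A + C * ((A + B) * Vau_z) - C * A * Vau_z + B * (D * Vau_z) := by ring
    _ = _ := by rw [← h1]

theorem Vau_sum_conv (F H : ArithmeticFunction ℝ) (N : ℕ) (g : ℕ → ℂ) :
    ∑ n ∈ Icc 1 N, (((F * H) n : ℝ) : ℂ) * g n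
      = ∑ a ∈ Icc 1 N, ((F a : ℝ) : ℂ) * ∑ b ∈ Icc 1 (N / a), ((H b : ℝ) : ℂ) * g (a * b) := by
  have h1 : ∀ n ∈ Icc 1 N, (((F * H) n : ℝ) : ℂ) * g n
      = ∑ p ∈ n.divisorsAntidiagonal, ((F p.1 : ℝ) : ℂ) * (((H p.2 : ℝ) : ℂ) * g (p.1 * p.2)) := by
    intro n hn
    rw [ArithmeticFunction.mul_apply, Complex.ofReal_sum, Finset.sum_mul]
    refine Finset.sum_congr rfl fun p hp => ?_
    rw [(Nat.mem_divisorsAntidiagonal.mp hp).1, Complex.ofReal_mul]
    ring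
  rw [Finset.sum_congr rfl h1, Finset.sum_sigma']
  simp_rw [Finset.mul_sum]
  rw [Finset.sum_sigma']
  refine Finset.sum_bij' (fun x _ => ⟨x.2.1, x.2.2⟩) (fun y _ => ⟨y.1 * y.2, (y.1, y.2)⟩) ?_ ?_ ?_ ?_ ?_
  · rintro ⟨n, a, b⟩ hx
    simp only [Finset.mem_sigma, Finset.mem_Icc, Nat.mem_divisorsAntidiagonal] at hx ⊢
    obtain ⟨⟨hn1, hnN⟩, hab, hn0⟩ := hx
    have ha : 1 ≤ a := by
      rcases Nat.eq_zero_or_pos a with h | h
      · subst h; simp at hab; omega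
      · exact h
    have hb : 1 ≤ b := by
      rcases Nat.eq_zero_or_pos b with h | h
      · subst h; simp at hab; omega
      · exact h
    refine ⟨⟨ha, ?_⟩, hb, ?_⟩
    · calc a = a * 1 := (mul_one a).symm
        _ ≤ a * b := Nat.mul_le_mul_left a hb
        _ ≤ N := by rw [hab]; exact hnN
    · rw [Nat.le_div_iff_mul_le (by omega)]
      calc b * a = a * b := mul_comm b a
        _ ≤ N := by rw [hab]; exact hnN
  · rintro ⟨a, b⟩ hy
    simp only [Finset.mem_sigma, Finset.mem_Icc, Nat.mem_divisorsAntidiagonal] at hy ⊢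
    obtain ⟨⟨ha1, haN⟩, hb1, hb⟩ := hy
    rw [Nat.le_div_iff_mul_le (by omega)] at hb
    have : 0 < a * b := Nat.mul_pos (by omega) (by omega)
    refine ⟨⟨this, ?_⟩, trivial, this.ne'⟩
    calc a * b = b * a := mul_comm a b
      _ ≤ N := hb
  · rintro ⟨n, a, b⟩ hx
    simp only [Finset.mem_sigma, Finset.mem_Icc, Nat.mem_divisorsAntidiagonal] at hx
    obtain ⟨⟨hn1, hnN⟩, hab, hn0⟩ := hx
    subst hab
    rfl
  · rintro ⟨a, b⟩ hy
    rfl
  · rintro ⟨n, a, b⟩ hx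
    rfl

theorem Vau_restrict (F : ℕ → ℂ) (G : ℕ → ℂ) (N M : ℕ) (hF : ∀ a, M < a → F a = 0)
    (hG : ∀ a, N < a → G a = 0) : ∑ a ∈ Icc 1 N, F a * G a = ∑ a ∈ Icc 1 M, F a * G a := by
  have h1 : ∑ a ∈ Icc 1 N, F a * G a = ∑ a ∈ Icc 1 (max N M), F a * G a := by
    refine Finset.sum_subset (Finset.Icc_subset_Icc_right (le_max_left _ _)) fun a ha hna => ?_
    rw [hG a, mul_zero]
    simp only [Finset.mem_Icc, not_and, not_le] at ha hna
    exact hna ha.1
  have h2 : ∑ a ∈ Icc 1 M, F a * G a = ∑ a ∈ Icc 1 (max N M), F a * G a := by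
    refine Finset.sum_subset (Finset.Icc_subset_Icc_right (le_max_right _ _)) fun a ha hna => ?_
    rw [hF a, zero_mul]
    simp only [Finset.mem_Icc, not_and, not_le] at ha hna
    exact hna ha.1
  rw [h1, h2]

theorem Vau_nuV (U V a : ℕ) :
    (Vau_lo Vau_mu V * Vau_lo ArithmeticFunction.vonMangoldt U) a = nuV U V a := by
  rw [ArithmeticFunction.mul_apply, nuV, Finset.sum_filter,
    Nat.sum_divisorsAntidiagonal (fun x y => Vau_lo Vau_mu V x * Vau_lo ArithmeticFunction.vonMangoldt U y)]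
  refine Finset.sum_congr rfl fun d _ => ?_
  rw [Vau_lo_apply, Vau_lo_apply, Vau_mu_apply]
  by_cases h1 : d ≤ V <;> by_cases h2 : a / d ≤ U <;> simp [h1, h2]

theorem Vau_cV (V n : ℕ) : (Vau_hi Vau_mu V * Vau_z) n = cV V n := by
  rw [Vau_z, ArithmeticFunction.coe_mul_zeta_apply, cV, Finset.sum_filter]
  refine Finset.sum_congr rfl fun d _ => ?_
  rw [Vau_hi_apply, Vau_mu_apply]
  by_cases h1 : d ≤ V
  · simp [h1]
  · simp [h1]

theorem Vau_cV_zero {V n : ℕ} (h : n ≤ V) : cV V n = 0 := by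
  rw [cV]
  refine Finset.sum_eq_zero fun d hd => ?_
  rw [Finset.mem_filter, Nat.mem_divisors] at hd
  have := Nat.le_of_dvd (Nat.pos_of_ne_zero hd.1.2) hd.1.1
  omega

theorem Vau_nuV_zero {U V a : ℕ} (h : U * V < a) : nuV U V a = 0 := by
  rw [nuV]
  refine Finset.sum_eq_zero fun d hd => ?_
  rw [Finset.mem_filter, Nat.mem_divisors] at hd
  exfalso
  have h1 : d * (a / d) = a := Nat.mul_div_cancel' hd.1.1
  have h2 : d * (a / d) ≤ V * U := Nat.mul_le_mul hd.2.1 hd.2.2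
  rw [h1, mul_comm] at h2
  omega

theorem vaughan (N U V : ℕ) (g : ℕ → ℂ) :
    ∑ n ∈ Icc 1 N, ((ArithmeticFunction.vonMangoldt n : ℝ) : ℂ) * g n
      = ∑ n ∈ Icc 1 (min U N), ((ArithmeticFunction.vonMangoldt n : ℝ) : ℂ) * g n
      + ∑ a ∈ Icc 1 V, ((ArithmeticFunction.moebius a : ℝ) : ℂ) *
          ∑ b ∈ Icc 1 (N / a), ((Real.log b : ℝ) : ℂ) * g (a * b)
      - ∑ a ∈ Icc 1 (U * V), ((nuV U V a : ℝ) : ℂ) * ∑ b ∈ Icc 1 (N / a), g (a * b)
      + ∑ m ∈ Ioc U N, ((ArithmeticFunction.vonMangoldt m : ℝ) : ℂ) *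
          ∑ n ∈ Ioc V (N / m), ((cV V n : ℝ) : ℂ) * g (m * n) := by
  have hid := Vau_id U V
  have hpt : ∀ n, ((ArithmeticFunction.vonMangoldt n : ℝ) : ℂ) * g n
      = ((Vau_lo ArithmeticFunction.vonMangoldt U n : ℝ) : ℂ) * g n
        + (((Vau_lo Vau_mu V * ArithmeticFunction.log) n : ℝ) : ℂ) * g n
        - (((Vau_lo Vau_mu V * Vau_lo ArithmeticFunction.vonMangoldt U * Vau_z) n : ℝ) : ℂ) * g n
        + (((Vau_hi ArithmeticFunction.vonMangoldt U * (Vau_hi Vau_mu V * Vau_z)) n : ℝ) : ℂ) * g n := by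
    intro n
    conv_lhs => rw [hid]
    rw [ArithmeticFunction.add_apply, sub_eq_add_neg, ArithmeticFunction.add_apply,
      ArithmeticFunction.add_apply, ArithmeticFunction.neg_apply]
    push_cast
    ring
  rw [Finset.sum_congr rfl fun n _ => hpt n, Finset.sum_add_distrib, Finset.sum_sub_distrib,
    Finset.sum_add_distrib, Vau_sum_conv (Vau_lo Vau_mu V) ArithmeticFunction.log,
    Vau_sum_conv (Vau_lo Vau_mu V * Vau_lo ArithmeticFunction.vonMangoldt U) Vau_z,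
    Vau_sum_conv (Vau_hi ArithmeticFunction.vonMangoldt U) (Vau_hi Vau_mu V * Vau_z)]
  have hGz : ∀ (H : ℕ → ℂ) (a : ℕ), N < a → ∑ b ∈ Icc 1 (N / a), H b * g (a * b) = 0 := by
    intro H a ha
    rw [Nat.div_eq_of_lt ha]
    simp
  congr 1
  · congr 1
    · congr 1
      · rw [show ∑ n ∈ Icc 1 (min U N), ((ArithmeticFunction.vonMangoldt n : ℝ) : ℂ) * g n
          = ∑ n ∈ Icc 1 (min U N), ((Vau_lo ArithmeticFunction.vonMangoldt U n : ℝ) : ℂ) * g n from ?_]
        · symm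
          refine Finset.sum_subset (Finset.Icc_subset_Icc_right (min_le_right _ _)) fun a ha hna => ?_
          simp only [Finset.mem_Icc, not_and, not_le] at ha hna
          have h1 := hna ha.1
          rw [min_lt_iff] at h1
          have h2 : ¬ a ≤ U := by
            rcases h1 with h1 | h1
            · omega
            · omega
          rw [Vau_lo_apply, if_neg h2]
          simp
        · refine Finset.sum_congr rfl fun n hn => ?_
          rw [Finset.mem_Icc, le_min_iff] at hn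
          rw [Vau_lo_apply, if_pos hn.2.1]
      · rw [Vau_restrict (fun a => ((Vau_lo Vau_mu V a : ℝ) : ℂ))
          (fun a => ∑ b ∈ Icc 1 (N / a), ((ArithmeticFunction.log b : ℝ) : ℂ) * g (a * b)) N V]
        · refine Finset.sum_congr rfl fun a ha => ?_
          rw [Finset.mem_Icc] at ha
          rw [Vau_lo_apply, if_pos ha.2, Vau_mu_apply]
          simp only [ArithmeticFunction.log_apply]
        · intro a ha
          rw [Vau_lo_apply, if_neg (by omega)]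
          simp
        · intro a ha
          exact hGz _ a ha
    · rw [Vau_restrict (fun a => (((Vau_lo Vau_mu V * Vau_lo ArithmeticFunction.vonMangoldt U) a : ℝ) : ℂ))
          (fun a => ∑ b ∈ Icc 1 (N / a), ((Vau_z b : ℝ) : ℂ) * g (a * b)) N (U * V)]
      · refine Finset.sum_congr rfl fun a ha => ?_
        rw [Vau_nuV]
        congr 1
        refine Finset.sum_congr rfl fun b hb => ?_
        rw [Finset.mem_Icc] at hb
        rw [Vau_z, ArithmeticFunction.natCoe_apply, ArithmeticFunction.zeta_apply_ne (by omega)]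
        simp
      · intro a ha
        rw [Vau_nuV, Vau_nuV_zero ha]
        simp
      · intro a ha
        exact hGz _ a ha
  · have hsub : Ioc U N ⊆ Icc 1 N := by
      intro a ha
      rw [Finset.mem_Ioc] at ha
      rw [Finset.mem_Icc]
      omega
    rw [← Finset.sum_subset hsub]
    · refine Finset.sum_congr rfl fun a ha => ?_
      rw [Finset.mem_Ioc] at ha
      rw [Vau_hi_apply, if_neg (by omega)]
      congr 1
      simp only [Vau_cV]
      have hsub2 : Ioc V (N / a) ⊆ Icc 1 (N / a) := by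
        intro b hb
        rw [Finset.mem_Ioc] at hb
        rw [Finset.mem_Icc]
        omega
      rw [← Finset.sum_subset hsub2]
      intro b hb hnb
      rw [Finset.mem_Icc] at hb
      rw [Finset.mem_Ioc] at hnb
      have hbV : b ≤ V := by
        by_contra hcon
        exact hnb ⟨by omega, hb.2⟩
      rw [Vau_cV_zero hbV]
      simp
    · intro a ha hna
      rw [Finset.mem_Icc] at ha
      rw [Finset.mem_Ioc] at hna
      have haU : a ≤ U := by
        by_contra hcon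
        exact hna ⟨by omega, ha.2⟩
      rw [Vau_hi_apply, if_pos haU]
      simp

/-- `|nuV(a)| ≤ log a` (as `∑_{e | a} Λ(e) = log a`). -/
theorem abs_nuV_le (U V a : ℕ) (ha : 1 ≤ a) : |nuV U V a| ≤ Real.log a := by
  rw [nuV]
  refine (Finset.abs_sum_le_sum_abs _ _).trans ?_
  have h1 : ∀ d ∈ a.divisors.filter (fun d => d ≤ V ∧ a / d ≤ U),
      |(ArithmeticFunction.moebius d : ℝ) * ArithmeticFunction.vonMangoldt (a / d)|
        ≤ ArithmeticFunction.vonMangoldt (a / d) := by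
    intro d _
    rw [abs_mul, abs_of_nonneg (ArithmeticFunction.vonMangoldt_nonneg)]
    have h2 : |(ArithmeticFunction.moebius d : ℝ)| ≤ 1 := by
      have := ArithmeticFunction.abs_moebius_le_one (n := d)
      exact_mod_cast this
    calc |(ArithmeticFunction.moebius d : ℝ)| * ArithmeticFunction.vonMangoldt (a / d)
        ≤ 1 * ArithmeticFunction.vonMangoldt (a / d) :=
          mul_le_mul_of_nonneg_right h2 ArithmeticFunction.vonMangoldt_nonneg
      _ = _ := one_mul _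
  refine (Finset.sum_le_sum h1).trans ?_
  calc ∑ d ∈ a.divisors.filter (fun d => d ≤ V ∧ a / d ≤ U), ArithmeticFunction.vonMangoldt (a / d)
      ≤ ∑ d ∈ a.divisors, ArithmeticFunction.vonMangoldt (a / d) :=
        Finset.sum_le_sum_of_subset_of_nonneg (Finset.filter_subset _ _)
          (fun _ _ _ => ArithmeticFunction.vonMangoldt_nonneg)
    _ = ∑ d ∈ a.divisors, ArithmeticFunction.vonMangoldt d := by
        exact Nat.sum_div_divisors a (fun d => ArithmeticFunction.vonMangoldt d)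
    _ = Real.log a := ArithmeticFunction.vonMangoldt_sum

end Pool.Agent.H91.PK

end

section

/-!
# MIX VkPrW: prime sums in classes for `P ≥ exp((log N)^t2)`

Copy and adapt `Pool.Agent.H53.MID.vk_pr` (file `H53/MID/VkPr.lean`, complete): `VKw t1` at `x = N^2`: `exp((2L)^t1) ≤ exp(L^t2) ≤ P` for large `N` (`t1 < t2`), `|t| ≤ N^3 ≤ x^2`; prime powers: `≤ √(2P) log(2P)/log 2 ≤ P/(2 L^K)` since
`P ≥ exp(L^t2)`.
-/

set_option autoImplicit false

namespace Pool.Agent.H53.MIX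

open Finset
open Pool.Agent.H91.PK (ee)
open Pool.Agent.H91.EHA (Lam)
open Pool.Agent.H35.W (pb)
open Pool.Agent.H53.MID

private theorem VkPrW_norm_ee (t : ℝ) : ‖ee t‖ = 1 := by
  unfold ee
  have : (2 * Real.pi * t * Complex.I : ℂ) = ((2 * Real.pi * t : ℝ) : ℂ) * Complex.I := by
    push_cast
    ring
  rw [this, Complex.norm_exp_ofReal_mul_I]

/-- Abel summation with a decreasing weight -/
private theorem VkPrW_abel (a : ℕ → ℂ) (w : ℕ → ℝ) (P Q : ℕ) (hPQ : P + 1 ≤ Q) {M : ℝ}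
    (hw : ∀ n, P + 1 ≤ n → n < Q → w (n + 1) ≤ w n) (hw0 : 0 ≤ w Q)
    (hS : ∀ z, P ≤ z → z ≤ Q → ‖∑ n ∈ Icc 1 z, a n‖ ≤ M) :
    ‖∑ n ∈ Ioc P Q, (w n : ℂ) * a n‖ ≤ 2 * M * w (P + 1) := by
  have hT : ∀ z, P ≤ z → z ≤ Q → ‖∑ n ∈ Ioc P z, a n‖ ≤ 2 * M := by
    intro z hz hz'
    have h1 : ∑ n ∈ Icc 1 z, a n = ∑ n ∈ Icc 1 P, a n + ∑ n ∈ Ioc P z, a n := by
      have e1 : ∀ k : ℕ, Icc 1 k = Ioc 0 k := fun k => by
        ext x
        simp only [mem_Icc, mem_Ioc]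
        omega
      rw [e1, e1, Finset.sum_Ioc_consecutive _ (Nat.zero_le _) hz]
    have h2 : ∑ n ∈ Ioc P z, a n = ∑ n ∈ Icc 1 z, a n - ∑ n ∈ Icc 1 P, a n := by
      rw [h1]
      ring
    rw [h2]
    have h3 := hS z hz hz'
    have h4 := hS P le_rfl (by omega)
    exact (norm_sub_le _ _).trans (by linarith)
  have hM : 0 ≤ 2 * M := (norm_nonneg _).trans (hT P le_rfl (by omega))
  have key : ∀ q, P + 1 ≤ q → q ≤ Q →
      ‖∑ n ∈ Ioc P q, (w n : ℂ) * a n - (w q : ℂ) * ∑ n ∈ Ioc P q, a n‖ ≤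
        2 * M * (w (P + 1) - w q) := by
    intro q hq
    induction q, hq using Nat.le_induction with
    | base =>
      intro _
      rw [Nat.Ioc_succ_singleton, Finset.sum_singleton, Finset.sum_singleton, sub_self, norm_zero,
        sub_self, mul_zero]
    | succ q hq ih =>
      intro hqQ
      have h1 := ih (by omega)
      have e1 : Ioc P (q + 1) = insert (q + 1) (Ioc P q) := by
        ext x
        simp only [mem_Ioc, mem_insert]
        omega
      have e2 : q + 1 ∉ Ioc P q := by simp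
      have h2 : ∑ n ∈ Ioc P (q + 1), (w n : ℂ) * a n - (w (q + 1) : ℂ) * ∑ n ∈ Ioc P (q + 1), a n =
          (∑ n ∈ Ioc P q, (w n : ℂ) * a n - (w q : ℂ) * ∑ n ∈ Ioc P q, a n) +
          ((w q - w (q + 1) : ℝ) : ℂ) * ∑ n ∈ Ioc P q, a n := by
        rw [e1, Finset.sum_insert e2, Finset.sum_insert e2]
        push_cast
        ring
      rw [h2]
      have h3 : 0 ≤ w q - w (q + 1) := sub_nonneg.mpr (hw q hq (by omega))
      have h4 : ‖((w q - w (q + 1) : ℝ) : ℂ) * ∑ n ∈ Ioc P q, a n‖ ≤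
          (w q - w (q + 1)) * (2 * M) := by
        rw [norm_mul, Complex.norm_real, Real.norm_eq_abs, abs_of_nonneg h3]
        exact mul_le_mul_of_nonneg_left (hT q (by omega) (by omega)) h3
      exact (norm_add_le _ _).trans (by linarith)
  have h1 := key Q hPQ le_rfl
  have h2 := hT Q (by omega) le_rfl
  have h3 : ‖(w Q : ℂ) * ∑ n ∈ Ioc P Q, a n‖ ≤ w Q * (2 * M) := by
    rw [norm_mul, Complex.norm_real, Real.norm_eq_abs, abs_of_nonneg hw0]
    exact mul_le_mul_of_nonneg_left h2 hw0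
  have h4 : ‖∑ n ∈ Ioc P Q, (w n : ℂ) * a n‖ ≤
      ‖∑ n ∈ Ioc P Q, (w n : ℂ) * a n - (w Q : ℂ) * ∑ n ∈ Ioc P Q, a n‖ +
      ‖(w Q : ℂ) * ∑ n ∈ Ioc P Q, a n‖ := by
    have h5 := norm_add_le (∑ n ∈ Ioc P Q, (w n : ℂ) * a n - (w Q : ℂ) * ∑ n ∈ Ioc P Q, a n)
      ((w Q : ℂ) * ∑ n ∈ Ioc P Q, a n)
    rwa [sub_add_cancel] at h5
  linarith

/-- from von Mangoldt sums to prime sums -/
private theorem VkPrW_primes (P d l : ℕ) (hP : 3 ≤ P) (t M : ℝ)
    (hS : ∀ z, P ≤ z → z ≤ 2 * P → ‖∑ n ∈ (Icc 1 z).filter (fun n => n % d = l % d),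
      ((Lam n : ℝ) : ℂ) * ee (-(t * Real.log n))‖ ≤ M) :
    ‖∑ p ∈ (pb P).filter (fun p => p % d = l % d), ee (-(t * Real.log p))‖ ≤
      2 * M + 2 * Real.sqrt (2 * P) * Real.log (2 * P) := by
  classical
  set a : ℕ → ℂ := fun n => if n % d = l % d then ((Lam n : ℝ) : ℂ) * ee (-(t * Real.log n)) else 0
    with ha
  set w : ℕ → ℝ := fun n => 1 / Real.log n with hw
  have hlog1 : ∀ n : ℕ, P + 1 ≤ n → 1 ≤ Real.log n := by
    intro n hn
    have h1 : Real.exp 1 ≤ (n : ℝ) := by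
      have h2 : (3 : ℝ) ≤ n := by exact_mod_cast (by omega : 3 ≤ n)
      linarith [Real.exp_one_lt_d9]
    have h3 := Real.log_le_log (Real.exp_pos 1) h1
    rwa [Real.log_exp] at h3
  have hM : 0 ≤ M := (norm_nonneg _).trans (hS P le_rfl (by omega))
  have hA := VkPrW_abel a w P (2 * P) (by omega) (M := M)
    (fun n hn _ => by
      simp only [hw]
      apply one_div_le_one_div_of_le
      · linarith [hlog1 n hn]
      · apply Real.log_le_log
        · exact_mod_cast (by omega : 0 < n)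
        · exact_mod_cast Nat.le_succ n)
    (by
      simp only [hw]
      have := hlog1 (2 * P) (by omega)
      positivity)
    (fun z hz hz' => by
      have h1 := hS z hz hz'
      rw [Finset.sum_filter] at h1
      exact h1)
  have hwP : w (P + 1) ≤ 1 := by
    simp only [hw]
    rw [div_le_one (by linarith [hlog1 (P + 1) le_rfl])]
    exact hlog1 (P + 1) le_rfl
  have hA2 : ‖∑ n ∈ Ioc P (2 * P), (w n : ℂ) * a n‖ ≤ 2 * M := by
    refine hA.trans ?_
    have := mul_le_mul_of_nonneg_left hwP (show 0 ≤ 2 * M by linarith)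
    linarith
  -- split into primes and non-primes
  have hsplit : ∑ n ∈ Ioc P (2 * P), (w n : ℂ) * a n =
      ∑ p ∈ (pb P).filter (fun p => p % d = l % d), ee (-(t * Real.log p)) +
      ∑ n ∈ (Ioc P (2 * P)).filter (fun n => ¬ n.Prime), (w n : ℂ) * a n := by
    rw [← Finset.sum_filter_add_sum_filter_not (Ioc P (2 * P)) Nat.Prime]
    congr 1
    rw [Finset.sum_filter (s := pb P)]
    apply Finset.sum_congr rfl
    intro p hp
    rw [Finset.mem_filter, mem_Ioc] at hp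
    simp only [ha, hw]
    by_cases h1 : p % d = l % d
    · rw [if_pos h1, if_pos h1]
      have h2 : Lam p = Real.log p := by
        unfold Lam
        exact ArithmeticFunction.vonMangoldt_apply_prime hp.2
      have h3 := hlog1 p (by omega)
      have h4 : Real.log p ≠ 0 := by linarith
      rw [h2, ← mul_assoc, ← Complex.ofReal_mul, one_div, inv_mul_cancel₀ h4, Complex.ofReal_one,
        one_mul]
    · rw [if_neg h1, if_neg h1, mul_zero]
  have hnp : ‖∑ n ∈ (Ioc P (2 * P)).filter (fun n => ¬ n.Prime), (w n : ℂ) * a n‖ ≤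
      2 * Real.sqrt (2 * P) * Real.log (2 * P) := by
    have h0 : ∀ n : ℕ, 0 ≤ Lam n := fun n => by
      unfold Lam
      exact ArithmeticFunction.vonMangoldt_nonneg
    have h1 : ‖∑ n ∈ (Ioc P (2 * P)).filter (fun n => ¬ n.Prime), (w n : ℂ) * a n‖ ≤
        ∑ n ∈ (Ioc P (2 * P)).filter (fun n => ¬ n.Prime), Lam n := by
      apply norm_sum_le_of_le
      intro n hn
      rw [Finset.mem_filter, mem_Ioc] at hn
      have h2 := hlog1 n (by omega)
      simp only [ha, hw]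
      by_cases h3 : n % d = l % d
      · rw [if_pos h3, norm_mul, norm_mul, VkPrW_norm_ee, mul_one, Complex.norm_real,
          Complex.norm_real, Real.norm_eq_abs, Real.norm_eq_abs, abs_of_nonneg (h0 n),
          abs_of_nonneg (by positivity)]
        have h4 : 1 / Real.log n ≤ 1 := by
          rw [div_le_one (by linarith)]
          exact h2
        have := mul_le_mul_of_nonneg_right h4 (h0 n)
        linarith
      · rw [if_neg h3, mul_zero, norm_zero]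
        exact h0 n
    have h2 : ∑ n ∈ (Ioc P (2 * P)).filter (fun n => ¬ n.Prime), Lam n ≤
        Chebyshev.psi ((2 * P : ℕ) : ℝ) - Chebyshev.theta ((2 * P : ℕ) : ℝ) := by
      rw [Chebyshev.psi_sub_theta_eq_sum_not_prime, Nat.floor_natCast]
      apply Finset.sum_le_sum_of_subset_of_nonneg
      · apply Finset.filter_subset_filter
        intro x hx
        rw [mem_Ioc] at hx ⊢
        omega
      · intro n _ _
        exact h0 n
    have h3 := Chebyshev.psi_sub_theta_le (x := ((2 * P : ℕ) : ℝ)) (by exact_mod_cast (by omega : 1 ≤ 2 * P))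
    push_cast at h2 h3
    linarith
  have hfin : ∑ p ∈ (pb P).filter (fun p => p % d = l % d), ee (-(t * Real.log p)) =
      ∑ n ∈ Ioc P (2 * P), (w n : ℂ) * a n -
      ∑ n ∈ (Ioc P (2 * P)).filter (fun n => ¬ n.Prime), (w n : ℂ) * a n := by
    rw [hsplit]
    ring
  rw [hfin]
  exact (norm_sub_le _ _).trans (by linarith)

theorem vk_pr_w (t1 t2 : ℝ) (h0 : 0 < t1) (h12 : t1 < t2) (hVK : VKw t1) (K C' : ℕ) : ∃ K' N0 : ℕ, ∀ N : ℕ, N0 ≤ N →
    ∀ (P d l : ℕ) (t : ℝ), Real.exp (Real.log N ^ t2) ≤ P → P ≤ N → 1 ≤ d → (d : ℝ) ≤ Real.log N ^ C' →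
    Real.log N ^ K' ≤ |t| → |t| ≤ (N : ℝ) ^ 3 →
    ‖∑ p ∈ (pb P).filter (fun p => p % d = l % d), ee (-(t * Real.log p))‖ ≤ P / Real.log N ^ K := by
  have ht2 : 0 < t2 := h0.trans h12
  obtain ⟨K1, x0, hV⟩ := hVK (K + 1) C'
  have hlog : Filter.Tendsto (fun N : ℕ => Real.log N) Filter.atTop Filter.atTop :=
    Real.tendsto_log_atTop.comp tendsto_natCast_atTop_atTop
  have hlogp : Filter.Tendsto (fun N : ℕ => Real.log N ^ t2) Filter.atTop Filter.atTop :=
    (tendsto_rpow_atTop ht2).comp hlog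
  have hsmall : ∀ᶠ N : ℕ in Filter.atTop, 12 * Real.log N ^ (K + 1) ≤
      Real.exp (Real.log N ^ t2 / 2) := by
    have h1 := isLittleO_rpow_exp_pos_mul_atTop (((K + 1 : ℕ) : ℝ) / t2) (b := 1 / 2) (by norm_num)
    have h2 := (h1.comp_tendsto hlogp).def (c := 1 / 12) (by norm_num)
    filter_upwards [h2, hlog.eventually_ge_atTop 1] with N hN hN1
    simp only [Function.comp_apply] at hN
    have hL0 : 0 ≤ Real.log N := by linarith
    rw [← Real.rpow_mul hL0, mul_div_cancel₀ _ ht2.ne', Real.rpow_natCast, Real.norm_eq_abs,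
      Real.norm_eq_abs, abs_of_nonneg (by positivity), abs_of_nonneg (by positivity)] at hN
    have e : Real.log N ^ t2 / 2 = 1 / 2 * Real.log N ^ t2 := by ring
    rw [e]
    linarith
  have hbig : ∀ᶠ N : ℕ in Filter.atTop, (3 : ℝ) ≤ Real.exp (Real.log N ^ t2) :=
    (Real.tendsto_exp_atTop.comp hlogp).eventually_ge_atTop 3
  have htt : ∀ᶠ N : ℕ in Filter.atTop, (2 : ℝ) ^ t1 ≤ Real.log N ^ (t2 - t1) :=
    ((tendsto_rpow_atTop (sub_pos.2 h12)).comp hlog).eventually_ge_atTop _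
  obtain ⟨N0, hN0⟩ := Filter.eventually_atTop.mp (hsmall.and (hbig.and (htt.and
    ((hlog.eventually_ge_atTop 4).and ((hlog.eventually_ge_atTop (2 ^ K1)).and
    (Filter.eventually_ge_atTop (max x0 2)))))))
  refine ⟨K1 + 1, N0, ?_⟩
  intro N hN P d l t hP1 hP2 hd1 hd2 ht1 ht2'
  obtain ⟨h12', h3, htt', hL4, hLK, hNx⟩ := hN0 N hN
  have hN2 : 2 ≤ N := le_trans (le_max_right _ _) hNx
  have hNx0 : x0 ≤ N := le_trans (le_max_left _ _) hNx
  set L : ℝ := Real.log N with hL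
  have hNr : (2 : ℝ) ≤ N := by exact_mod_cast hN2
  have hN0' : (0 : ℝ) < N := by linarith
  have hPr3 : (3 : ℝ) ≤ P := h3.trans hP1
  have hP3 : 3 ≤ P := by exact_mod_cast hPr3
  have hPr0 : (0 : ℝ) < P := by linarith
  have hx : x0 ≤ N ^ 2 := hNx0.trans (Nat.le_self_pow (by norm_num) N)
  have hlogx : Real.log ((N ^ 2 : ℕ) : ℝ) = 2 * L := by
    rw [Nat.cast_pow, Real.log_pow]
    push_cast
    rfl
  have hxe : Real.exp ((2 * L) ^ t1) ≤ P := by
    refine le_trans (Real.exp_le_exp.2 ?_) hP1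
    rw [Real.mul_rpow (by norm_num) (by linarith)]
    calc (2 : ℝ) ^ t1 * L ^ t1 ≤ L ^ (t2 - t1) * L ^ t1 :=
          mul_le_mul_of_nonneg_right htt' (by positivity)
      _ = L ^ t2 := by
          rw [← Real.rpow_add (by linarith)]
          congr 1
          ring
  have hV2 := hV (N ^ 2) hx
  rw [hlogx] at hV2
  have hpow1 : L ^ C' ≤ (2 * L) ^ C' := pow_le_pow_left₀ (by linarith) (by linarith) C'
  have hpow2 : (2 * L) ^ K1 ≤ |t| := by
    calc (2 * L) ^ K1 = 2 ^ K1 * L ^ K1 := by rw [mul_pow]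
      _ ≤ L * L ^ K1 := mul_le_mul_of_nonneg_right hLK (by positivity)
      _ = L ^ (K1 + 1) := by ring
      _ ≤ |t| := ht1
  have hpow3 : |t| ≤ (((N ^ 2 : ℕ) : ℝ)) ^ (2 : ℕ) := by
    refine ht2'.trans ?_
    rw [Nat.cast_pow, ← pow_mul]
    exact pow_le_pow_right₀ (by linarith) (by norm_num)
  have hS : ∀ z, P ≤ z → z ≤ 2 * P → ‖∑ n ∈ (Icc 1 z).filter (fun n => n % d = l % d),
      ((Lam n : ℝ) : ℂ) * ee (-(t * Real.log n))‖ ≤ 2 * P / (2 * L) ^ (K + 1) := by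
    intro z hz hz'
    have hzr : (P : ℝ) ≤ z := by exact_mod_cast hz
    have hzr' : (z : ℝ) ≤ 2 * P := by exact_mod_cast hz'
    have hzx : z ≤ (N ^ 2) ^ 2 := by
      have h1 : z ≤ N ^ 2 := by nlinarith
      exact h1.trans (Nat.le_self_pow (by norm_num) _)
    have h1 := hV2 d l z (-t) hd1 (hd2.trans hpow1) (hxe.trans hzr) hzx (by rwa [abs_neg])
      (by rwa [abs_neg])
    simp only [neg_mul] at h1
    refine h1.trans ?_
    exact div_le_div_of_nonneg_right hzr' (by positivity)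
  have hmain := VkPrW_primes P d l hP3 t _ hS
  refine hmain.trans ?_
  have hL0 : 0 < L := by linarith
  have hLK0 : 0 < L ^ K := by positivity
  have e1' : 2 * (2 * P / (2 * L) ^ (K + 1)) ≤ P / L ^ K / 2 := by
    have h1 : (2 * L) ^ (K + 1) = 2 ^ K * (2 * L) * L ^ K := by
      rw [mul_pow]
      ring
    have h2 : 8 * L ^ K ≤ (2 * L) ^ (K + 1) := by
      rw [h1]
      have h3 : (1 : ℝ) ≤ 2 ^ K := one_le_pow₀ (by norm_num)
      have h4 : 8 ≤ 2 ^ K * (2 * L) := by nlinarith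
      exact mul_le_mul_of_nonneg_right h4 hLK0.le
    have h5 : 2 * (2 * P / (2 * L) ^ (K + 1)) ≤ 4 * P / (8 * L ^ K) := by
      rw [← mul_div_assoc]
      have h6 : 2 * (2 * (P : ℝ)) = 4 * P := by ring
      rw [h6]
      exact div_le_div_of_nonneg_left (by positivity) (by positivity) h2
    refine h5.trans (le_of_eq ?_)
    field_simp
    ring
  have e2' : 2 * Real.sqrt (2 * P) * Real.log (2 * P) ≤ P / L ^ K / 2 := by
    have hlog2P : Real.log (2 * P) ≤ 2 * L := by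
      have h1 : (2 : ℝ) * P ≤ (N : ℝ) ^ 2 := by
        have : (P : ℝ) ≤ N := by exact_mod_cast hP2
        nlinarith
      have h2 := Real.log_le_log (by positivity) h1
      rw [Real.log_pow] at h2
      push_cast at h2
      exact h2
    have hsq : Real.sqrt (2 * P) ≤ 3 / 2 * Real.sqrt P := by
      rw [Real.sqrt_le_left (by positivity), mul_pow, Real.sq_sqrt hPr0.le]
      linarith
    have hsP : Real.exp (L ^ t2 / 2) ≤ Real.sqrt P := by
      apply Real.le_sqrt_of_sq_le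
      rw [← Real.exp_nat_mul]
      have : ((2 : ℕ) : ℝ) * (L ^ t2 / 2) = L ^ t2 := by push_cast; ring
      rw [this]
      exact hP1
    have hsP0 : 0 ≤ Real.sqrt P := Real.sqrt_nonneg _
    have hlog0 : 0 ≤ Real.log (2 * P) := Real.log_nonneg (by linarith)
    have h1 : 2 * Real.sqrt (2 * P) * Real.log (2 * P) ≤ 2 * (3 / 2 * Real.sqrt P) * (2 * L) := by
      apply mul_le_mul (by linarith) hlog2P hlog0 (by positivity)
    have h2 : 12 * L ^ (K + 1) ≤ Real.sqrt P := h12'.trans hsP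
    rw [div_div, le_div_iff₀ (by positivity)]
    calc 2 * Real.sqrt (2 * P) * Real.log (2 * P) * (L ^ K * 2)
        ≤ 2 * (3 / 2 * Real.sqrt P) * (2 * L) * (L ^ K * 2) :=
          mul_le_mul_of_nonneg_right h1 (by positivity)
      _ = (12 * L ^ (K + 1)) * Real.sqrt P := by ring
      _ ≤ Real.sqrt P * Real.sqrt P := mul_le_mul_of_nonneg_right h2 hsP0
      _ = P := Real.mul_self_sqrt hPr0.le
  linarith

end Pool.Agent.H53.MIX

end
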