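import Pool.Agent.H43.PM.H53.MID.Nz

/-! The parts of this file: H53.MID.Chain, H53.MID.FourC, H53.MID.CoDeg. -/

section

/-!
# MID Chain: descendants at level 0

`Desc P j Dj w K α S`: all `(Π, i) ∈ S` satisfy `P^j ≤ Π ≤ (2P)^j`, `|i Π - K P^j| ≤ Dj P^j`, `nz (Π w - α i) ≤ τ`, `i ∈ F0`.
`chain_step`: from the descendants of the `K ∈ F` (level `j`) and the triples `(M, p, K)` of one `M` (level `j+1`), `|K p - M P| ≤ C P`,
`nz (p w' - w K) ≤ η'`, one gets the descendants `(p Π, i)` of `M`.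
Proof.  `S' = ` image of the set of the quadruples `(p, K, Π, i)`, `(p,K) ∈ T`, `(Π,i) ∈ S K`, under `(p Π, i)`.
`|i Π p - M P^(j+1)| ≤ p |i Π - K P^j| + P^j |K p - M P| ≤ (2 Dj + C) P^(j+1)`;
`nz (Π p w' - α i) ≤ nz (Π (p w' - w K)) + nz (Π w K - α i) ≤ (2P)^j η' + τ`.
Fibres: given `(Π', i)`: `p` is a prime `> P` dividing `Π' ≤ (2P)^(j+1) < P^(j+2)` (`2^(j+1) < P`), so at most `j+1` values of `p` (their product divides `Π'`,
`Finset.prod_primes_dvd`, and is `> P^(#)`); given `p`: `Π = Π'/p`, and `|K p - M P| ≤ C P` leaves at most `2C+1` values `K`.  So the fibres have at most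
`(j+1)(2C+1)` elements and `|S'| ≥ ∑_{(p,K) ∈ T} |S K|/((j+1)(2C+1)) ≥ |T| m/((j+1)(2C+1))` if all `|S K| ≥ m`.
-/

set_option autoImplicit false

namespace Pool.Agent.H53.MID

open Finset

/-- `S` is a set of descendants `(Π, i)` of the index `K` with the frequency `w`, `j` levels down -/
structure Desc (P j : ℕ) (D τ : ℝ) (F0 : Finset ℕ) (α : ℕ → ℝ) (K : ℕ) (w : ℝ) (S : Finset (ℕ × ℕ)) : Prop where
  mem : ∀ t ∈ S, t.2 ∈ F0
  lo : ∀ t ∈ S, (P : ℝ) ^ j ≤ t.1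
  hi : ∀ t ∈ S, (t.1 : ℝ) ≤ (2 * P) ^ j
  pos : ∀ t ∈ S, |(t.2 : ℝ) * t.1 - K * P ^ j| ≤ D * P ^ j
  freq : ∀ t ∈ S, nz (t.1 * w - α t.2) ≤ τ

/-- the number of the indices at a bounded distance -/
private theorem Chain_cardK {C X : ℝ} {p P : ℕ} (hC : 1 ≤ C) (hP : 0 < P) (hp : P < p)
    (U : Finset ℕ) (hU : ∀ K ∈ U, |(K : ℝ) * p - X| ≤ C * P) :
    U.card ≤ ⌊2 * C⌋₊ + 1 := by
  rcases U.eq_empty_or_nonempty with h0 | hne
  · rw [h0]
    simp
  · obtain ⟨a, ha⟩ : ∃ a, a = U.min' hne := ⟨_, rfl⟩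
    have haU : a ∈ U := by
      rw [ha]
      exact Finset.min'_mem _ _
    have hsub : U ⊆ Finset.Icc a (a + ⌊2 * C⌋₊) := by
      intro K hK
      have h1 : a ≤ K := by
        rw [ha]
        exact Finset.min'_le _ _ hK
      rw [Finset.mem_Icc]
      refine ⟨h1, ?_⟩
      have h2 := hU K hK
      have h3 := hU a haU
      rw [abs_le] at h2 h3
      have hP0 : (0 : ℝ) < P := by exact_mod_cast hP
      have hpP : (P : ℝ) < p := by exact_mod_cast hp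
      have h4 : ((K : ℝ) - a) * p ≤ 2 * C * P := by linarith [h2.2, h3.1]
      have h5 : (K : ℝ) - a ≤ 2 * C := by
        by_contra hcon
        push Not at hcon
        have h6 : 2 * C * p < ((K : ℝ) - a) * p :=
          mul_lt_mul_of_pos_right hcon (hP0.trans hpP)
        have h7 : 2 * C * P < 2 * C * p := mul_lt_mul_of_pos_left hpP (by linarith)
        linarith
      have h8 : ((K - a : ℕ) : ℝ) ≤ 2 * C := by
        rw [Nat.cast_sub h1]
        exact h5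
      have h9 : K - a ≤ ⌊2 * C⌋₊ := Nat.le_floor h8
      omega
    refine (Finset.card_le_card hsub).trans ?_
    rw [Nat.card_Icc]
    omega

/-- the number of the large prime factors -/
private theorem Chain_cardP {P j N : ℕ} (hP : 2 ^ (j + 1) < P) (hN : 0 < N)
    (hN2 : (N : ℝ) ≤ (2 * P) ^ (j + 1)) (B : Finset ℕ)
    (hB : ∀ p ∈ B, p.Prime ∧ P < p ∧ p ∣ N) : B.card ≤ j + 1 := by
  have hP0 : 0 < P := lt_of_le_of_lt (Nat.zero_le _) hP
  have h1 : ∏ p ∈ B, p ∣ N :=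
    Finset.prod_primes_dvd N (fun p hp => (hB p hp).1.prime) fun p hp => (hB p hp).2.2
  have h2 : ∏ p ∈ B, p ≤ N := Nat.le_of_dvd hN h1
  have h3 : P ^ B.card ≤ ∏ p ∈ B, p := Finset.pow_card_le_prod _ _ _ fun p hp => (hB p hp).2.1.le
  have h4 : N ≤ (2 * P) ^ (j + 1) := by exact_mod_cast hN2
  have h5 : (2 * P) ^ (j + 1) < P ^ (j + 2) := by
    rw [mul_pow, pow_succ P (j + 1), mul_comm (P ^ (j + 1)) P]
    exact Nat.mul_lt_mul_of_pos_right hP (pow_pos hP0 _)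
  have h6 : P ^ B.card < P ^ (j + 2) := lt_of_le_of_lt (h3.trans (h2.trans h4)) h5
  have h7 : 1 < P := lt_of_le_of_lt Nat.one_le_two_pow hP
  have h8 := (Nat.pow_lt_pow_iff_right h7).mp h6
  omega

theorem chain_step (P j : ℕ) (C D τ η' m w' : ℝ) (hC : 1 ≤ C) (F0 : Finset ℕ) (α : ℕ → ℝ) (M : ℕ)
    (w : ℕ → ℝ) (S : ℕ → Finset (ℕ × ℕ)) (T : Finset (ℕ × ℕ)) (hP : 2 ^ (j + 1) < P)
    (hT : ∀ t ∈ T, t.1.Prime ∧ P < t.1 ∧ t.1 ≤ 2 * P ∧ |(t.2 : ℝ) * t.1 - M * P| ≤ C * P ∧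
      nz (t.1 * w' - w t.2) ≤ η' ∧ Desc P j D τ F0 α t.2 (w t.2) (S t.2) ∧ m ≤ (S t.2).card)
    (hη : 0 ≤ η') (hm : 0 ≤ m) :
    ∃ S' : Finset (ℕ × ℕ), Desc P (j + 1) (2 * D + C) ((2 * P) ^ j * η' + τ) F0 α M w' S' ∧
      T.card * m / ((j + 1) * (2 * C + 1)) ≤ S'.card := by
  classical
  have hP0 : 0 < P := lt_of_le_of_lt (Nat.zero_le _) hP
  have hP0' : (0 : ℝ) < P := by exact_mod_cast hP0
  have hPj : (0 : ℝ) < (P : ℝ) ^ j := pow_pos hP0' _
  set f : (Σ _ : ℕ × ℕ, ℕ × ℕ) → ℕ × ℕ := fun x => (x.1.1 * x.2.1, x.2.2) with hf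
  set Q : Finset (Σ _ : ℕ × ℕ, ℕ × ℕ) := T.sigma fun t => S t.2 with hQ
  have key : ∀ x ∈ Q, x.1 ∈ T ∧ x.2 ∈ S x.1.2 := by
    intro x hx
    rw [hQ, Finset.mem_sigma] at hx
    exact hx
  have hdesc : Desc P (j + 1) (2 * D + C) ((2 * P) ^ j * η' + τ) F0 α M w' (Q.image f) := by
    have main : ∀ x ∈ Q, (f x).2 ∈ F0 ∧ (P : ℝ) ^ (j + 1) ≤ (f x).1 ∧
        ((f x).1 : ℝ) ≤ (2 * P) ^ (j + 1) ∧
        |((f x).2 : ℝ) * (f x).1 - M * P ^ (j + 1)| ≤ (2 * D + C) * P ^ (j + 1) ∧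
        nz ((f x).1 * w' - α (f x).2) ≤ (2 * P) ^ j * η' + τ := by
      intro x hx
      obtain ⟨hxT, hxS⟩ := key x hx
      obtain ⟨hpr, hPp, hp2, hKM, hnz, hD, _⟩ := hT x.1 hxT
      have hPp' : (P : ℝ) < x.1.1 := by exact_mod_cast hPp
      have hp2' : (x.1.1 : ℝ) ≤ 2 * P := by exact_mod_cast hp2
      have hp0 : (0 : ℝ) < x.1.1 := hP0'.trans hPp'
      have a1 := hD.mem _ hxS
      have a2 := hD.lo _ hxS
      have a3 := hD.hi _ hxS
      have a4 := hD.pos _ hxS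
      have a5 := hD.freq _ hxS
      have hD0 : 0 ≤ D := by
        have h1 : 0 ≤ D * (P : ℝ) ^ j := (abs_nonneg _).trans a4
        exact nonneg_of_mul_nonneg_left h1 hPj
      have hu0 : (0 : ℝ) < x.2.1 := hPj.trans_le a2
      have hfst : ((f x).1 : ℝ) = (x.1.1 : ℝ) * x.2.1 := by
        simp only [hf]
        push_cast
        ring
      have hsnd : (f x).2 = x.2.2 := rfl
      rw [hfst, hsnd]
      refine ⟨a1, ?_, ?_, ?_, ?_⟩
      · rw [pow_succ, mul_comm]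
        exact mul_le_mul hPp'.le a2 hPj.le hp0.le
      · rw [pow_succ, mul_comm]
        exact mul_le_mul a3 hp2' hp0.le (by positivity)
      · have e : (x.2.2 : ℝ) * (x.1.1 * x.2.1) - M * P ^ (j + 1) =
            x.1.1 * (x.2.2 * x.2.1 - x.1.2 * P ^ j) + P ^ j * (x.1.2 * x.1.1 - M * P) := by
          ring
        rw [e]
        refine (abs_add_le _ _).trans ?_
        rw [abs_mul, abs_mul, abs_of_pos hp0, abs_of_pos hPj]
        have b1 : (x.1.1 : ℝ) * |(x.2.2 : ℝ) * x.2.1 - x.1.2 * P ^ j| ≤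
            (2 * P) * (D * P ^ j) := mul_le_mul hp2' a4 (abs_nonneg _) (by positivity)
        have b2 : (P : ℝ) ^ j * |(x.1.2 : ℝ) * x.1.1 - M * P| ≤ P ^ j * (C * P) :=
          mul_le_mul_of_nonneg_left hKM hPj.le
        have e2 : (2 * D + C) * (P : ℝ) ^ (j + 1) = (2 * P) * (D * P ^ j) + P ^ j * (C * P) := by
          ring
        rw [e2]
        exact add_le_add b1 b2
      · have e : (x.1.1 : ℝ) * x.2.1 * w' - α x.2.2 =
            (x.2.1 : ℝ) * (x.1.1 * w' - w x.1.2) + (x.2.1 * w x.1.2 - α x.2.2) := by ring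
        rw [e]
        refine (nz_add _ _).trans (add_le_add ?_ a5)
        refine (nz_nat_mul _ _).trans ?_
        exact mul_le_mul a3 hnz (nz_nonneg _) (by positivity)
    have main' : ∀ t ∈ Q.image f, t.2 ∈ F0 ∧ (P : ℝ) ^ (j + 1) ≤ t.1 ∧
        (t.1 : ℝ) ≤ (2 * P) ^ (j + 1) ∧
        |(t.2 : ℝ) * t.1 - M * P ^ (j + 1)| ≤ (2 * D + C) * P ^ (j + 1) ∧
        nz (t.1 * w' - α t.2) ≤ (2 * P) ^ j * η' + τ := by
      intro t ht
      rw [Finset.mem_image] at ht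
      obtain ⟨x, hx, rfl⟩ := ht
      exact main x hx
    exact ⟨fun t ht => (main' t ht).1, fun t ht => (main' t ht).2.1,
      fun t ht => (main' t ht).2.2.1, fun t ht => (main' t ht).2.2.2.1,
      fun t ht => (main' t ht).2.2.2.2⟩
  refine ⟨Q.image f, hdesc, ?_⟩
  -- the fibres
  have hfib : ∀ a ∈ Q.image f, (Q.filter fun x => f x = a).card ≤
      (⌊2 * C⌋₊ + 1) * (j + 1) := by
    intro a ha
    have ha1 := hdesc.lo a ha
    have ha2 := hdesc.hi a ha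
    have ha0 : 0 < a.1 := by
      have h1 : (0 : ℝ) < a.1 := (pow_pos hP0' (j + 1)).trans_le ha1
      exact_mod_cast h1
    set G : Finset (ℕ × ℕ) := (Q.filter fun x => f x = a).image fun x => x.1 with hG
    have hcard : (Q.filter fun x => f x = a).card = G.card := by
      rw [hG, Finset.card_image_of_injOn]
      intro x hx y hy hxy
      rw [Finset.mem_coe, Finset.mem_filter] at hx hy
      have hxy' : x.1 = y.1 := hxy
      have hp : 0 < x.1.1 := hP0.trans (hT x.1 (key x hx.1).1).2.1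
      have e1 : x.1.1 * x.2.1 = a.1 := congrArg Prod.fst hx.2
      have e2 : y.1.1 * y.2.1 = a.1 := congrArg Prod.fst hy.2
      have e3 : (f x).2 = a.2 := by rw [hx.2]
      have e4 : (f y).2 = a.2 := by rw [hy.2]
      have e5 : x.2.1 = y.2.1 := by
        rw [← hxy', ← e1] at e2
        exact (Nat.eq_of_mul_eq_mul_left hp e2).symm
      have e6 : x.2 = y.2 := Prod.ext e5 (e3.trans e4.symm)
      exact Sigma.ext hxy' (heq_of_eq e6)
    have hGmem : ∀ t ∈ G, t ∈ T ∧ t.1 ∣ a.1 := by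
      intro t ht
      rw [hG, Finset.mem_image] at ht
      obtain ⟨x, hx, rfl⟩ := ht
      rw [Finset.mem_filter] at hx
      exact ⟨(key x hx.1).1, ⟨x.2.1, (congrArg Prod.fst hx.2).symm⟩⟩
    have h1 : G.card ≤ (⌊2 * C⌋₊ + 1) * (G.image Prod.fst).card := by
      refine Finset.card_le_mul_card_image G _ fun p hp => ?_
      have hp' := hp
      rw [Finset.mem_image] at hp'
      obtain ⟨t0, ht0, ht0p⟩ := hp'
      have hPp : P < p := by
        rw [← ht0p]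
        exact (hT t0 (hGmem t0 ht0).1).2.1
      have hinj : (G.filter fun x => Prod.fst x = p).card =
          ((G.filter fun x => Prod.fst x = p).image Prod.snd).card := by
        rw [Finset.card_image_of_injOn]
        intro x hx y hy hxy
        rw [Finset.mem_coe, Finset.mem_filter] at hx hy
        exact Prod.ext (hx.2.trans hy.2.symm) hxy
      rw [hinj]
      refine Chain_cardK (X := (M : ℝ) * P) hC hP0 hPp _ fun K hK => ?_
      rw [Finset.mem_image] at hK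
      obtain ⟨t, ht, rfl⟩ := hK
      rw [Finset.mem_filter] at ht
      have := (hT t (hGmem t ht.1).1).2.2.2.1
      rw [← ht.2]
      exact this
    have h2 : (G.image Prod.fst).card ≤ j + 1 := by
      refine Chain_cardP hP ha0 ha2 _ fun p hp => ?_
      rw [Finset.mem_image] at hp
      obtain ⟨t, ht, rfl⟩ := hp
      obtain ⟨htT, htd⟩ := hGmem t ht
      exact ⟨(hT t htT).1, (hT t htT).2.1, htd⟩
    rw [hcard]
    exact h1.trans (Nat.mul_le_mul_left _ h2)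
  have hcardQ : Q.card ≤ ((⌊2 * C⌋₊ + 1) * (j + 1)) * (Q.image f).card :=
    Finset.card_le_mul_card_image Q _ hfib
  have hQc : (T.card : ℝ) * m ≤ Q.card := by
    rw [hQ, Finset.card_sigma]
    push_cast
    calc (T.card : ℝ) * m = ∑ _t ∈ T, m := by rw [Finset.sum_const, nsmul_eq_mul]
      _ ≤ ∑ t ∈ T, ((S t.2).card : ℝ) := Finset.sum_le_sum fun t ht => (hT t ht).2.2.2.2.2.2
  have hC2 : ((⌊2 * C⌋₊ : ℕ) : ℝ) ≤ 2 * C := Nat.floor_le (by linarith)
  have hpos : (0 : ℝ) < (j + 1) * (2 * C + 1) := by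
    have : (0 : ℝ) ≤ j := Nat.cast_nonneg j
    positivity
  rw [div_le_iff₀ hpos]
  have h3 : (Q.card : ℝ) ≤ ((⌊2 * C⌋₊ : ℝ) + 1) * (j + 1) * (Q.image f).card := by
    exact_mod_cast hcardQ
  have h4 : ((⌊2 * C⌋₊ : ℝ) + 1) * (j + 1) * (Q.image f).card ≤
      (2 * C + 1) * (j + 1) * (Q.image f).card := by
    have : (0 : ℝ) ≤ j := Nat.cast_nonneg j
    refine mul_le_mul_of_nonneg_right (mul_le_mul_of_nonneg_right ?_ ?_) (Nat.cast_nonneg _)
    · linarith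
    · linarith
  calc (T.card : ℝ) * m ≤ Q.card := hQc
    _ ≤ _ := h3
    _ ≤ _ := h4
    _ = ((Q.image f).card : ℝ) * ((j + 1) * (2 * C + 1)) := by ring

end Pool.Agent.H53.MID

end

section

/-!
# MID FourC: lifting a frequency and the 4-cycle lemma

`lift`: `p ≠ p1` primes, `nz (p1 a - p a1) ≤ d`.  Then there is `s : ℤ` such that `w = (a + s)/p` satisfies `nz (p1 w - a1) ≤ d/p`.
Proof.  `p1 a - p a1 = r + e`, `r ∈ ℤ`, `|e| = nz(..) ≤ d` (`nz_exists`).  `p1 w - a1 = (r + p1 s + e)/p`; choose `s` with `p ∣ r + p1 s`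
(`p1` is invertible modulo `p`: `Int.isCoprime_iff_gcd_eq_one`/Bezout: `u p1 + v p = 1`, `s = -r u`).

`four_cycle`: `p ≠ q`, `p ≠ p1`, `p ≠ p2` primes in `(P, 2P]`, `w_i = (a + s_i)/p`, `nz (p_i w_i - a_i) ≤ d/p`, `nz (p_i b - q a_i) ≤ d` for
`i = 1, 2`, `48 d P^2 < 1`.  Then `p ∣ s1 - s2` (so `w1 - w2` is an integer) and therefore `nz (p2 w1 - a2) ≤ d/p`.
Proof.  `u_i = b - q w_i`.  `p_i u_i = (p_i b - q a_i) - q (p_i w_i - a_i)`, so `p_i u_i = c_i + f_i`, `c_i ∈ ℤ`,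
`|f_i| ≤ d + q d/p ≤ 3 d` (`q ≤ 2P < 2p`).  `u_2 - u_1 = q (w_1 - w_2) = q (s_1 - s_2)/p`.  Multiply
`c_2/p_2 + f_2/p_2 - c_1/p_1 - f_1/p_1 = q (s_1 - s_2)/p` by `p p_1 p_2`: the integer `Z = c_2 p p_1 - c_1 p p_2 - q (s_1 - s_2) p_1 p_2`
is `f_1 p p_2 - f_2 p p_1`, of absolute value `≤ 3 d · 4 P^2 · 2 = 24 d P^2 < 1`, so `Z = 0` and `p ∣ q (s_1 - s_2) p_1 p_2`; `p` is prime and
different from the primes `q, p_1, p_2`, so `p ∣ s_1 - s_2`.
-/

set_option autoImplicit false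

namespace Pool.Agent.H53.MID

theorem lift (p p1 : ℕ) (hp : p.Prime) (hp1 : p1.Prime) (hne : p ≠ p1) (a a1 d : ℝ)
    (h : nz (p1 * a - p * a1) ≤ d) : ∃ s : ℤ, nz (p1 * ((a + s) / p) - a1) ≤ d / p := by
  obtain ⟨r, hr⟩ := nz_exists (p1 * a - p * a1)
  have hcop : Nat.Coprime p1 p := (Nat.coprime_primes hp1 hp).2 (Ne.symm hne)
  have hcop' : IsCoprime (p1 : ℤ) (p : ℤ) := Nat.isCoprime_iff_coprime.2 hcop
  obtain ⟨u, v, huv⟩ := hcop'
  have hp0 : (0 : ℝ) < p := by exact_mod_cast hp.pos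
  refine ⟨-(r * u), ?_⟩
  have huv' : (u : ℝ) * p1 + v * p = 1 := by exact_mod_cast huv
  refine (nz_le_of _ (r * v)).trans ?_
  have e : (p1 : ℝ) * ((a + ((-(r * u) : ℤ) : ℝ)) / p) - a1 - ((r * v : ℤ) : ℝ) =
      (p1 * a - p * a1 - r) / p := by
    push_cast
    field_simp
    linear_combination (-(r : ℝ)) * huv'
  rw [e, abs_div, abs_of_pos hp0]
  exact div_le_div_of_nonneg_right (hr.trans_le h) hp0.le

private theorem FourC_aux (P p q p1 : ℕ) (hp : p.Prime) (hpP : P < p ∧ p ≤ 2 * P) (hqP : P < q ∧ q ≤ 2 * P)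
    (b a1 d w : ℝ) (h1 : nz (p1 * w - a1) ≤ d / p) (g1 : nz (p1 * b - q * a1) ≤ d) :
    ∃ (c : ℤ) (f : ℝ), |f| ≤ 3 * d ∧ p1 * (b - q * w) = c + f := by
  obtain ⟨m, hm⟩ := nz_exists (p1 * w - a1)
  obtain ⟨c, hc⟩ := nz_exists (p1 * b - q * a1)
  refine ⟨c - q * m, (p1 * b - q * a1 - c) - q * (p1 * w - a1 - m), ?_, ?_⟩
  · have hp0 : (0 : ℝ) < p := by exact_mod_cast hp.pos
    have hqp : (q : ℝ) ≤ 2 * p := by
      have : q ≤ 2 * p := by omega
      exact_mod_cast this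
    have e1 : |p1 * b - q * a1 - c| ≤ d := hc.trans_le g1
    have e2 : |(p1 * w - a1 - m : ℝ)| ≤ d / p := hm.trans_le h1
    have e3 : |(q : ℝ) * (p1 * w - a1 - m)| ≤ 2 * d := by
      rw [abs_mul, abs_of_nonneg (Nat.cast_nonneg q)]
      calc (q : ℝ) * |p1 * w - a1 - m| ≤ (2 * p) * (d / p) :=
            mul_le_mul hqp e2 (abs_nonneg _) (by positivity)
        _ = 2 * d := by field_simp
    calc |(p1 * b - q * a1 - c) - q * (p1 * w - a1 - m)| ≤ |p1 * b - q * a1 - c| +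
          |(q : ℝ) * (p1 * w - a1 - m)| := abs_sub _ _
      _ ≤ d + 2 * d := add_le_add e1 e3
      _ = 3 * d := by ring
  · push_cast
    ring

theorem four_cycle (P p q p1 p2 : ℕ) (hp : p.Prime) (hq : q.Prime) (hp1 : p1.Prime) (hp2 : p2.Prime)
    (hpP : P < p ∧ p ≤ 2 * P) (hqP : P < q ∧ q ≤ 2 * P) (hp1P : P < p1 ∧ p1 ≤ 2 * P) (hp2P : P < p2 ∧ p2 ≤ 2 * P)
    (hpq : p ≠ q) (hpp1 : p ≠ p1) (hpp2 : p ≠ p2) (a b a1 a2 d : ℝ) (s1 s2 : ℤ)
    (h1 : nz (p1 * ((a + s1) / p) - a1) ≤ d / p) (h2 : nz (p2 * ((a + s2) / p) - a2) ≤ d / p)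
    (g1 : nz (p1 * b - q * a1) ≤ d) (g2 : nz (p2 * b - q * a2) ≤ d) (hd0 : 0 ≤ d) (hd : 48 * d * (P : ℝ) ^ 2 < 1) :
    nz (p2 * ((a + s1) / p) - a2) ≤ d / p := by
  obtain ⟨c1, f1, hf1, e1⟩ := FourC_aux P p q p1 hp hpP hqP b a1 d _ h1 g1
  obtain ⟨c2, f2, hf2, e2⟩ := FourC_aux P p q p2 hp hpP hqP b a2 d _ h2 g2
  have hp0 : (0 : ℝ) < p := by exact_mod_cast hp.pos
  set Z : ℤ := c2 * (p * p1) - c1 * (p * p2) - q * (s1 - s2) * (p1 * p2) with hZ
  have hZr : (Z : ℝ) = f1 * (p * p2) - f2 * (p * p1) := by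
    rw [hZ]
    push_cast
    have e1' : (c1 : ℝ) = p1 * (b - q * ((a + s1) / p)) - f1 := by linarith
    have e2' : (c2 : ℝ) = p2 * (b - q * ((a + s2) / p)) - f2 := by linarith
    rw [e1', e2']
    field_simp
    ring
  have hP0 : (0 : ℝ) ≤ P := Nat.cast_nonneg P
  have hpP' : (p : ℝ) ≤ 2 * P := by exact_mod_cast hpP.2
  have hp1P' : (p1 : ℝ) ≤ 2 * P := by exact_mod_cast hp1P.2
  have hp2P' : (p2 : ℝ) ≤ 2 * P := by exact_mod_cast hp2P.2
  have hb : ∀ (f r : ℝ), |f| ≤ 3 * d → 0 ≤ r → r ≤ 2 * P → |f * (p * r)| ≤ 12 * d * (P : ℝ) ^ 2 := by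
    intro f r hf hr hr2
    rw [abs_mul, abs_of_nonneg (mul_nonneg hp0.le hr)]
    calc |f| * (p * r) ≤ (3 * d) * ((2 * P) * (2 * P)) := by
          refine mul_le_mul hf (mul_le_mul hpP' hr2 hr (by positivity)) (by positivity) (by positivity)
      _ = 12 * d * (P : ℝ) ^ 2 := by ring
  have hZlt : |(Z : ℝ)| < 1 := by
    rw [hZr]
    have k1 := hb f1 p2 hf1 (Nat.cast_nonneg _) hp2P'
    have k2 := hb f2 p1 hf2 (Nat.cast_nonneg _) hp1P'
    have k3 := abs_sub (f1 * (p * p2)) (f2 * (p * p1))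
    have k4 : 0 ≤ d * (P : ℝ) ^ 2 := by positivity
    linarith
  have hZ0 : Z = 0 := by
    have h3 : |Z| < 1 := by exact_mod_cast hZlt
    exact Int.abs_lt_one_iff.1 h3
  have hpi : Prime (p : ℤ) := Nat.prime_iff_prime_int.1 hp
  have hndvd : ∀ r : ℕ, r.Prime → p ≠ r → ¬ (p : ℤ) ∣ (r : ℤ) := by
    intro r hr hne hdv
    exact hne ((Nat.prime_dvd_prime_iff_eq hp hr).1 (Int.natCast_dvd_natCast.1 hdv))
  have hdvd : (p : ℤ) ∣ s1 - s2 := by
    have h3 : (q : ℤ) * (s1 - s2) * (p1 * p2) = p * (c2 * p1 - c1 * p2) := by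
      have h4 := hZ0
      rw [hZ] at h4
      linear_combination -h4
    have h4 : (p : ℤ) ∣ (q : ℤ) * (s1 - s2) * (p1 * p2) := ⟨_, h3⟩
    rcases hpi.dvd_or_dvd h4 with h5 | h5
    · rcases hpi.dvd_or_dvd h5 with h6 | h6
      · exact absurd h6 (hndvd q hq hpq)
      · exact h6
    · rcases hpi.dvd_or_dvd h5 with h6 | h6
      · exact absurd h6 (hndvd p1 hp1 hpp1)
      · exact absurd h6 (hndvd p2 hp2 hpp2)
  obtain ⟨k, hk⟩ := hdvd
  have hk' : (s1 : ℝ) = s2 + p * k := by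
    have : s1 = s2 + p * k := by linarith
    exact_mod_cast this
  have e : (p2 : ℝ) * ((a + s1) / p) - a2 = (p2 * ((a + s2) / p) - a2) + ((p2 * k : ℤ) : ℝ) := by
    rw [hk']
    push_cast
    field_simp
    ring
  rw [e, nz_add_int]
  exact h2

end Pool.Agent.H53.MID

end

section

/-!
# MID CoDeg: two vertices of different label with many common neighbours

Proof.  `deg u = #{v : (v,u) ∈ E}`; `∑_{u ∈ V} (deg u)^2 ≥ |E|^2/|V| ≥ δ^2 P^3/b` (Cauchy-Schwarz, `|E| = ∑ deg u`).  This counts the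
triples `(u, v, v')` with `(v,u), (v',u) ∈ E`.  Those with `pr v = pr v'`: for `(v,u) ∈ E` at most `b` choices of `v'` (`hfib`), so at
most `|E| b ≤ |V|^2 b ≤ b^3 P^2 ≤ δ^2 P^3/(2b)` by `hPbig`.  So `∑_{(v,v') ∈ V^2, pr v ≠ pr v'} codeg(v,v') ≥ δ^2 P^3/(2b)`, there are at most
`(b P)^2` pairs, so some pair has `codeg ≥ δ^2 P/(2 b^3)`.
-/

set_option autoImplicit false

namespace Pool.Agent.H53.MID

open Finset

theorem codeg {ι : Type*} [DecidableEq ι] (V : Finset ι) (pr : ι → ℕ) (E : Finset (ι × ι)) (b P δ : ℝ)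
    (hb : 1 ≤ b) (hP : 0 < P) (hδ : 0 < δ) (hV : (V.card : ℝ) ≤ b * P)
    (hfib : ∀ v ∈ V, ((V.filter (fun u => pr u = pr v)).card : ℝ) ≤ b)
    (hE : E ⊆ V ×ˢ V) (hcard : δ * P ^ 2 ≤ E.card) (hPbig : 2 * b ^ 4 ≤ δ ^ 2 * P) :
    ∃ v ∈ V, ∃ v' ∈ V, pr v ≠ pr v' ∧
      δ ^ 2 * P / (2 * b ^ 3) ≤ ((V.filter (fun u => (v, u) ∈ E ∧ (v', u) ∈ E)).card : ℝ) := by
  classical
  set I : ι → ι → ℝ := fun v u => if (v, u) ∈ E then 1 else 0 with hI
  have hI0 : ∀ v u, 0 ≤ I v u := fun v u => by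
    simp only [hI]
    split_ifs <;> norm_num
  have hI1 : ∀ v u, I v u ≤ 1 := fun v u => by
    simp only [hI]
    split_ifs <;> norm_num
  -- the number of edges
  have hEc : (E.card : ℝ) = ∑ v ∈ V, ∑ u ∈ V, I v u := by
    have h1 : E = (V ×ˢ V).filter (fun p => p ∈ E) := by
      ext p
      rw [Finset.mem_filter]
      exact ⟨fun h => ⟨hE h, h⟩, fun h => h.2⟩
    rw [← Finset.sum_product' V V I]
    conv_lhs => rw [h1]
    rw [Finset.card_filter]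
    push_cast
    rfl
  have hcod : ∀ v v', ((V.filter (fun u => (v, u) ∈ E ∧ (v', u) ∈ E)).card : ℝ) =
      ∑ u ∈ V, I v u * I v' u := by
    intro v v'
    rw [Finset.card_filter]
    push_cast
    refine Finset.sum_congr rfl fun u _ => ?_
    simp only [hI]
    by_cases h1 : (v, u) ∈ E <;> by_cases h2 : (v', u) ∈ E <;> simp [h1, h2]
  -- Cauchy-Schwarz
  have hVnn : (0 : ℝ) ≤ V.card := Nat.cast_nonneg _
  have hcs : (E.card : ℝ) ^ 2 ≤ V.card * ∑ v ∈ V, ∑ v' ∈ V, ∑ u ∈ V, I v u * I v' u := by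
    rw [hEc, Finset.sum_comm]
    refine sq_sum_le_card_mul_sum_sq.trans (le_of_eq ?_)
    congr 1
    have h1 : ∀ u ∈ V, (∑ v ∈ V, I v u) ^ 2 = ∑ v ∈ V, ∑ v' ∈ V, I v u * I v' u := fun u _ => by
      rw [sq, Finset.sum_mul_sum]
    rw [Finset.sum_congr rfl h1, Finset.sum_comm]
    refine Finset.sum_congr rfl fun v _ => ?_
    rw [Finset.sum_comm]
  have hEV : (E.card : ℝ) ≤ (b * P) ^ 2 := by
    have h1 : E.card ≤ V.card * V.card := by
      rw [← Finset.card_product]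
      exact Finset.card_le_card hE
    have h2 : (E.card : ℝ) ≤ (V.card : ℝ) * V.card := by exact_mod_cast h1
    refine h2.trans ?_
    rw [← sq]
    exact pow_le_pow_left₀ hVnn hV 2
  -- the pairs with the same label
  have hsame : ∑ v ∈ V, ∑ v' ∈ V.filter (fun v' => pr v' = pr v), ∑ u ∈ V, I v u * I v' u ≤
      b * E.card := by
    have h1 : ∀ v ∈ V, ∑ v' ∈ V.filter (fun v' => pr v' = pr v), ∑ u ∈ V, I v u * I v' u ≤
        b * ∑ u ∈ V, I v u := by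
      intro v hv
      have hs0 : 0 ≤ ∑ u ∈ V, I v u := Finset.sum_nonneg fun u _ => hI0 v u
      calc ∑ v' ∈ V.filter (fun v' => pr v' = pr v), ∑ u ∈ V, I v u * I v' u
          ≤ ∑ v' ∈ V.filter (fun v' => pr v' = pr v), ∑ u ∈ V, I v u := by
            refine Finset.sum_le_sum fun v' _ => Finset.sum_le_sum fun u _ => ?_
            have := mul_le_mul_of_nonneg_left (hI1 v' u) (hI0 v u)
            rwa [mul_one] at this
        _ = ((V.filter (fun v' => pr v' = pr v)).card : ℝ) * ∑ u ∈ V, I v u := by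
            rw [Finset.sum_const, nsmul_eq_mul]
        _ ≤ b * ∑ u ∈ V, I v u := mul_le_mul_of_nonneg_right (hfib v hv) hs0
    refine (Finset.sum_le_sum h1).trans (le_of_eq ?_)
    rw [← Finset.mul_sum, hEc]
  have hsplit : ∑ v ∈ V, ∑ v' ∈ V, ∑ u ∈ V, I v u * I v' u =
      ∑ v ∈ V, ∑ v' ∈ V.filter (fun v' => pr v' = pr v), ∑ u ∈ V, I v u * I v' u +
      ∑ v ∈ V, ∑ v' ∈ V.filter (fun v' => ¬ pr v' = pr v), ∑ u ∈ V, I v u * I v' u := by
    rw [← Finset.sum_add_distrib]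
    exact Finset.sum_congr rfl fun v _ => (Finset.sum_filter_add_sum_filter_not V _ _).symm
  set S : ℝ := ∑ v ∈ V, ∑ v' ∈ V, ∑ u ∈ V, I v u * I v' u with hS
  set S' : ℝ := ∑ v ∈ V, ∑ v' ∈ V.filter (fun v' => ¬ pr v' = pr v), ∑ u ∈ V, I v u * I v' u
    with hS'
  have hS0 : 0 ≤ S := Finset.sum_nonneg fun v _ => Finset.sum_nonneg fun v' _ =>
    Finset.sum_nonneg fun u _ => mul_nonneg (hI0 v u) (hI0 v' u)
  -- the lower bound
  have hlow : δ ^ 2 * P ^ 3 / b ≤ S := by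
    have h1 : (δ * P ^ 2) ^ 2 ≤ b * P * S := by
      calc (δ * P ^ 2) ^ 2 ≤ (E.card : ℝ) ^ 2 := pow_le_pow_left₀ (by positivity) hcard 2
        _ ≤ V.card * S := hcs
        _ ≤ b * P * S := mul_le_mul_of_nonneg_right hV hS0
    rw [div_le_iff₀ (by linarith)]
    have h2 : P * (δ ^ 2 * P ^ 3) ≤ P * (S * b) := by nlinarith [h1]
    exact le_of_mul_le_mul_left h2 hP
  have hb0 : 0 < b := by linarith
  have hbE : b * (E.card : ℝ) ≤ δ ^ 2 * P ^ 3 / (2 * b) := by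
    rw [le_div_iff₀ (by positivity)]
    have h1 : b * (E.card : ℝ) * (2 * b) ≤ b * (b * P) ^ 2 * (2 * b) := by gcongr
    refine h1.trans ?_
    have h2 : P ^ 2 * (2 * b ^ 4) ≤ P ^ 2 * (δ ^ 2 * P) :=
      mul_le_mul_of_nonneg_left hPbig (by positivity)
    nlinarith [h2]
  have hhalf : δ ^ 2 * P ^ 3 / b = δ ^ 2 * P ^ 3 / (2 * b) + δ ^ 2 * P ^ 3 / (2 * b) := by
    field_simp
    norm_num
  have hS'low : δ ^ 2 * P ^ 3 / (2 * b) ≤ S' := by
    have : S = _ := hsplit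
    linarith
  by_contra hcon
  push Not at hcon
  set M : ℝ := δ ^ 2 * P / (2 * b ^ 3) with hM
  have hM0 : 0 < M := by positivity
  have hpos : 0 < δ ^ 2 * P ^ 3 / (2 * b) := by positivity
  have hup : S' < (b * P) ^ 2 * M := by
    have h1 : ∀ v ∈ V, ∑ v' ∈ V.filter (fun v' => ¬ pr v' = pr v), ∑ u ∈ V, I v u * I v' u ≤
        (V.filter (fun v' => ¬ pr v' = pr v)).card * M := by
      intro v hv
      rw [← nsmul_eq_mul, ← Finset.sum_const]
      refine Finset.sum_le_sum fun v' hv' => ?_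
      rw [Finset.mem_filter] at hv'
      rw [← hcod]
      exact (hcon v hv v' hv'.1 (fun h => hv'.2 h.symm)).le
    -- some pair contributes
    have h2 : ∃ v ∈ V, ∃ v' ∈ V.filter (fun v' => ¬ pr v' = pr v), True := by
      by_contra hno
      push Not at hno
      have : S' = 0 := by
        rw [hS']
        refine Finset.sum_eq_zero fun v hv => ?_
        exact Finset.sum_eq_zero fun v' hv' => (hno v hv v' hv').elim
      linarith
    obtain ⟨v₀, hv₀, v₁, hv₁, -⟩ := h2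
    have h3 : S' < ∑ v ∈ V, ((V.filter (fun v' => ¬ pr v' = pr v)).card : ℝ) * M := by
      rw [hS']
      refine Finset.sum_lt_sum h1 ⟨v₀, hv₀, ?_⟩
      rw [← nsmul_eq_mul, ← Finset.sum_const]
      refine Finset.sum_lt_sum_of_nonempty ⟨v₁, hv₁⟩ fun v' hv' => ?_
      rw [Finset.mem_filter] at hv'
      rw [← hcod]
      exact hcon v₀ hv₀ v' hv'.1 (fun h => hv'.2 h.symm)
    refine h3.trans_le ?_
    calc ∑ v ∈ V, ((V.filter (fun v' => ¬ pr v' = pr v)).card : ℝ) * M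
        ≤ ∑ v ∈ V, (V.card : ℝ) * M := by
          refine Finset.sum_le_sum fun v _ => ?_
          have : ((V.filter (fun v' => ¬ pr v' = pr v)).card : ℝ) ≤ V.card := by
            exact_mod_cast Finset.card_filter_le _ _
          gcongr
      _ = (V.card : ℝ) ^ 2 * M := by
          rw [Finset.sum_const, nsmul_eq_mul]
          ring
      _ ≤ (b * P) ^ 2 * M := by gcongr
  have heq : (b * P) ^ 2 * M = δ ^ 2 * P ^ 3 / (2 * b) := by
    rw [hM]
    field_simp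
  linarith

end Pool.Agent.H53.MID

end
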