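import Pool.Agent.H43.PM.M04
import Pool.Agent.H43.PM.M05

/-! The parts of this file: H74.MDX.TopX, H74.MDX.Sep, H74.MDX.Sets, H74.MDX.Rich, H74.MDX.Nd, H53.MID.GDefs, H80.LV.Tau4, H80.LV.BoxDec, H91.PK.Msq. -/

section

/-!
# MDX TopX: `top` of `H53/MID/Top.lean` with the explicit constant `48 D^6`

The proof is the proof of `Pool.Agent.H53.MID.top` (copy the file `Pool/Agent/H53/MID/Top.lean` with its private lemmas renamed `TopX_..`; there the constant is introduced by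
`refine ⟨48 * D ^ 6, ..⟩`).
-/

set_option autoImplicit false

namespace Pool.Agent.H74.MDX

open Finset
open Pool.Agent.H53.MID (nz Rel Desc)
open Pool.Agent.H53.MID (nz_sub nz_exists nz_frac_ge nz_le_abs nz_add_int nz_eq_abs nz_add nz_neg)

private theorem TopX_gap (A : Finset ℕ) (hA : 2 ≤ A.card) : ∃ u ∈ A, ∃ v ∈ A, ∃ x ∈ A, ∃ y ∈ A,
    u ≤ v ∧ x < y ∧ (y - x) * (A.card - 1) ≤ v - u ∧ A.card ≤ v - u + 1 := by
  have hne : A.Nonempty := Finset.card_pos.mp (by omega)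
  set u := A.min' hne with hu
  set v := A.max' hne with hv
  have hu1 : ∀ z ∈ A, u ≤ z := fun z hz => A.min'_le z hz
  have hv1 : ∀ z ∈ A, z ≤ v := fun z hz => A.le_max' z hz
  have huA : u ∈ A := A.min'_mem hne
  have hvA : v ∈ A := A.max'_mem hne
  have huv : u ≤ v := hu1 v hvA
  have hcard : A.card ≤ v - u + 1 := by
    have hsub : A ⊆ Finset.Icc u v := fun z hz => Finset.mem_Icc.mpr ⟨hu1 z hz, hv1 z hz⟩
    have := Finset.card_le_card hsub
    rw [Nat.card_Icc] at this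
    omega
  set L := (v - u) / (A.card - 1) + 1 with hL
  have hLpos : 0 < L := Nat.succ_pos _
  have hmaps : Set.MapsTo (fun z : ℕ => (z - u) / L) (A : Set ℕ) (Finset.range (A.card - 1) : Set ℕ) := by
    intro z hz
    have hz' : z ∈ A := hz
    simp only [Finset.coe_range, Set.mem_Iio]
    rw [Nat.div_lt_iff_lt_mul hLpos]
    have h1 : z - u ≤ v - u := Nat.sub_le_sub_right (hv1 z hz') u
    have h2 : v - u < (A.card - 1) * L := Nat.lt_mul_div_succ _ (by omega)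
    exact lt_of_le_of_lt h1 h2
  obtain ⟨x, hx, y, hy, hxy, hf⟩ := Finset.exists_ne_map_eq_of_card_lt_of_maps_to
    (by rw [Finset.card_range]; omega) hmaps
  have key : ∀ x ∈ A, ∀ y ∈ A, x < y → (x - u) / L = (y - u) / L →
      (y - x) * (A.card - 1) ≤ v - u := by
    intro x hx y hy hxy hf
    have h1 : y - x < L := by
      have e1 := Nat.div_add_mod (x - u) L
      have e2 := Nat.div_add_mod (y - u) L
      have e3 := Nat.mod_lt (y - u) hLpos
      rw [hf] at e1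
      have e4 := hu1 x hx
      have e5 := hu1 y hy
      omega
    have h2 : y - x ≤ (v - u) / (A.card - 1) := by omega
    exact (Nat.mul_le_mul_right _ h2).trans (Nat.div_mul_le_self _ _)
  rcases lt_or_gt_of_ne hxy with h | h
  · exact ⟨u, huA, v, hvA, x, hx, y, hy, huv, h, key x hx y hy h hf, hcard⟩
  · exact ⟨u, huA, v, hvA, y, hy, x, hx, huv, h, key y hy x hx h hf.symm, hcard⟩

/-- the elements of a set of naturals with bounded differences -/
private theorem TopX_card (A : Finset ℕ) (X : ℝ) (hX : 0 ≤ X)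
    (h : ∀ x ∈ A, ∀ y ∈ A, (y : ℝ) - x ≤ X) : (A.card : ℝ) ≤ X + 1 := by
  rcases A.eq_empty_or_nonempty with rfl | hne
  · simp only [Finset.card_empty, Nat.cast_zero]
    linarith
  · have hsub : A ⊆ Finset.Icc (A.min' hne) (A.max' hne) := fun z hz =>
      Finset.mem_Icc.mpr ⟨A.min'_le z hz, A.le_max' z hz⟩
    have h1 := Finset.card_le_card hsub
    rw [Nat.card_Icc] at h1
    have h2 := h _ (A.min'_mem hne) _ (A.max'_mem hne)
    have h3 : A.min' hne ≤ A.max' hne := A.min'_le _ (A.max'_mem hne)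
    have h4 : A.card + A.min' hne ≤ A.max' hne + 1 := by omega
    have h5 : (A.card : ℝ) + (A.min' hne : ℕ) ≤ (A.max' hne : ℕ) + 1 := by exact_mod_cast h4
    linarith

/-- the fibres of the second coordinate -/
private def TopX_fib (S : Finset (ℕ × ℕ)) (i : ℕ) : Finset ℕ :=
  (S.filter fun t => t.2 = i).image Prod.fst

private theorem TopX_mem_fib {S : Finset (ℕ × ℕ)} {i x : ℕ} : x ∈ TopX_fib S i ↔ (x, i) ∈ S := by
  unfold TopX_fib
  simp only [Finset.mem_image, Finset.mem_filter]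
  constructor
  · rintro ⟨⟨a, b⟩, ⟨h1, h2⟩, h3⟩
    simp only at h2 h3
    rw [← h3, ← h2]
    exact h1
  · intro h
    exact ⟨(x, i), ⟨h, rfl⟩, rfl⟩

private theorem TopX_card_fib (S : Finset (ℕ × ℕ)) (i : ℕ) :
    (TopX_fib S i).card = (S.filter fun t => t.2 = i).card := by
  unfold TopX_fib
  apply Finset.card_image_of_injOn
  rintro ⟨a, b⟩ h1 ⟨c, e⟩ h2 h3
  simp only [Finset.coe_filter, Set.mem_ofPred_eq] at h1 h2
  simp only at h3
  rw [h3, h1.2, h2.2]

private theorem TopX_sum (S : Finset (ℕ × ℕ)) (F : Finset ℕ) (h : ∀ t ∈ S, t.2 ∈ F) :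
    S.card = ∑ i ∈ F, (TopX_fib S i).card := by
  rw [Finset.card_eq_sum_card_fiberwise (f := Prod.snd) (t := F) h]
  exact Finset.sum_congr rfl fun i _ => (TopX_card_fib S i).symm

private theorem TopX_pig (s t : Finset ℕ) (f : ℕ → ℕ) (hf : ∀ x ∈ s, f x ∈ t) (ht : t.Nonempty) :
    ∃ y ∈ t, s.card ≤ t.card * (s.filter fun x => f x = y).card := by
  by_contra hcon
  push Not at hcon
  have h1 : ∑ y ∈ t, t.card * (s.filter fun x => f x = y).card < ∑ _y ∈ t, s.card :=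
    Finset.sum_lt_sum_of_nonempty ht hcon
  rw [← Finset.mul_sum, ← Finset.card_eq_sum_card_fiberwise hf, Finset.sum_const, smul_eq_mul] at h1
  exact lt_irrefl _ h1

theorem topx (D : ℝ) (hD : 1 ≤ D) : ∀ (n P J K : ℕ) (ρ η w : ℝ) (F0 : Finset ℕ) (α : ℕ → ℝ)
    (S : Finset (ℕ × ℕ)), 1 ≤ n → 1 ≤ P → 0 < ρ → ρ ≤ 1 → 0 ≤ η → (n : ℝ) * P ≤ (P : ℝ) ^ J → (P : ℝ) ^ J ≤ n * (P : ℝ) ^ 2 →
    (∀ i ∈ F0, (n : ℝ) / D ≤ i ∧ (i : ℝ) ≤ D * n) → (n : ℝ) / D ≤ K → (K : ℝ) ≤ D * n → 48 * D ^ 6 ≤ ρ * P →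
    48 * D ^ 6 * η * (P : ℝ) ^ 2 ≤ ρ → Desc P J D (D * η) F0 α K w S → ρ * (P : ℝ) ^ J ≤ S.card →
    ∃ (d : ℕ) (b : ℕ) (T : ℝ) (F1 : Finset ℕ), 1 ≤ d ∧ d * ρ ≤ 48 * D ^ 6 ∧ |T| * ρ ≤ 48 * D ^ 6 * η * (n : ℝ) ^ 2 ∧
      F1 ⊆ F0 ∧ ρ ^ 2 * n ≤ 48 * D ^ 6 * F1.card ∧ ∀ i ∈ F1, nz (α i - b / d - T / i) * ρ ≤ 48 * D ^ 6 * η := by
  have hD0 : 0 < D := by linarith
  have hp1 : ∀ k : ℕ, 1 ≤ D ^ k := fun k => one_le_pow₀ hD
  intro n P J K ρ η w F0 α S hn hP hρ hρ1 hη hJ1 hJ2 hF0 hK1 hK2 hPρ hηρ hS hcard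
  have hn1 : (1 : ℝ) ≤ n := by exact_mod_cast hn
  have hn0 : (0 : ℝ) < n := by linarith
  have hP1 : (1 : ℝ) ≤ P := by exact_mod_cast hP
  have hP0 : (0 : ℝ) < P := by linarith
  set Q : ℝ := (P : ℝ) ^ J with hQ
  have hQ0 : 0 < Q := by positivity
  set X : ℝ := 2 * D ^ 2 * Q / n with hX
  have hX0 : 0 < X := by positivity
  have hXn : X * n = 2 * D ^ 2 * Q := by rw [hX]; field_simp
  have hX2 : 2 ≤ X := by
    rw [hX, le_div_iff₀ hn0]
    have h1 : (n : ℝ) ≤ n * P := by nlinarith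
    have h2 : 1 * Q ≤ D ^ 2 * Q := by nlinarith [hp1 2]
    linarith
  have hi0 : ∀ i ∈ F0, (0 : ℝ) < i := fun i hi => lt_of_lt_of_le (by positivity) (hF0 i hi).1
  have hiD : ∀ i ∈ F0, (n : ℝ) ≤ D * i := by
    intro i hi
    have := (hF0 i hi).1
    rw [div_le_iff₀ hD0] at this
    linarith
  -- the fibres are short
  have hfib : ∀ i ∈ F0, ∀ x ∈ TopX_fib S i, ∀ y ∈ TopX_fib S i, (y : ℝ) - x ≤ X := by
    intro i hi x hx y hy
    rw [TopX_mem_fib] at hx hy
    have h1 := hS.pos _ hx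
    have h2 := hS.pos _ hy
    simp only [abs_le] at h1 h2
    rw [← hQ] at h1 h2
    have h3 : (i : ℝ) * ((y : ℝ) - x) ≤ 2 * (D * Q) := by linarith [h1.1, h2.2]
    rcases le_or_gt ((y : ℝ) - x) 0 with h4 | h4
    · linarith
    · have h5 : (n : ℝ) * ((y : ℝ) - x) ≤ D * (i * ((y : ℝ) - x)) := by
        rw [← mul_assoc]
        exact mul_le_mul_of_nonneg_right (hiD i hi) h4.le
      have h6 : (n : ℝ) * ((y : ℝ) - x) ≤ n * X := by
        have h7 : D * ((i : ℝ) * ((y : ℝ) - x)) ≤ D * (2 * (D * Q)) :=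
          mul_le_mul_of_nonneg_left h3 hD0.le
        calc (n : ℝ) * ((y : ℝ) - x) ≤ D * (2 * (D * Q)) := h5.trans h7
          _ = n * X := by rw [mul_comm (n : ℝ) X, hXn]; ring
      exact le_of_mul_le_mul_left h6 hn0
  have hScard0 : (0 : ℝ) < S.card := lt_of_lt_of_le (by positivity) hcard
  have hSne : S.Nonempty := by
    rw [← Finset.card_pos]
    exact_mod_cast hScard0
  have hF0ne : F0.Nonempty := by
    obtain ⟨t, ht⟩ := hSne
    exact ⟨_, hS.mem t ht⟩
  have hF0card : (F0.card : ℝ) ≤ D * n := by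
    have hsub : F0 ⊆ Finset.Icc 1 ⌊D * n⌋₊ := by
      intro i hi
      rw [Finset.mem_Icc]
      refine ⟨?_, Nat.le_floor (hF0 i hi).2⟩
      have := hi0 i hi
      exact_mod_cast this
    have h1 := Finset.card_le_card hsub
    rw [Nat.card_Icc, Nat.add_sub_cancel] at h1
    exact (Nat.cast_le.mpr h1).trans (Nat.floor_le (by positivity))
  -- (1) a large fibre
  obtain ⟨i0, hi0F, hbig⟩ : ∃ i ∈ F0, ρ * Q ≤ D * n * (TopX_fib S i).card := by
    by_contra hcon
    push Not at hcon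
    have h1 : ∑ i ∈ F0, D * n * ((TopX_fib S i).card : ℝ) < ∑ _i ∈ F0, ρ * Q :=
      Finset.sum_lt_sum_of_nonempty hF0ne hcon
    have h2 : (S.card : ℝ) = ∑ i ∈ F0, ((TopX_fib S i).card : ℝ) := by
      rw [TopX_sum S F0 hS.mem]
      push_cast
      rfl
    rw [← Finset.mul_sum, ← h2, Finset.sum_const, nsmul_eq_mul] at h1
    have h3 : (F0.card : ℝ) * (ρ * Q) ≤ D * n * (ρ * Q) :=
      mul_le_mul_of_nonneg_right hF0card (by positivity)
    have h4 : D * n * (ρ * Q) ≤ D * n * S.card := mul_le_mul_of_nonneg_left hcard (by positivity)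
    linarith
  set A := TopX_fib S i0 with hA
  set m : ℝ := (A.card : ℝ) with hm
  have hm48 : 48 ≤ m := by
    have h1 : ρ * (n * P) ≤ ρ * Q := mul_le_mul_of_nonneg_left hJ1 hρ.le
    have h2 : n * (ρ * P) ≤ n * (D * m) := by nlinarith
    have h3 : ρ * P ≤ D * m := le_of_mul_le_mul_left h2 hn0
    have h4 : D * 48 ≤ D * m := by
      have h5 : D ≤ D ^ 6 := le_self_pow₀ hD (by norm_num)
      linarith
    exact le_of_mul_le_mul_left h4 hD0
  have hA2 : 2 ≤ A.card := by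
    have : (2 : ℝ) ≤ A.card := by linarith
    exact_mod_cast this
  obtain ⟨u, hu, v, hv, x, hx, y, hy, huv, hxy, hgap, hcm⟩ := TopX_gap A hA2
  set d : ℕ := y - x with hd
  have hd1 : 1 ≤ d := by omega
  have hd1r : (1 : ℝ) ≤ d := by exact_mod_cast hd1
  have hd0r : (0 : ℝ) < d := by linarith
  have hdr : (d : ℝ) = y - x := by rw [hd, Nat.cast_sub hxy.le]
  set Δ : ℕ := v - u with hΔ
  have hΔr : (Δ : ℝ) = v - u := by rw [hΔ, Nat.cast_sub huv]
  have hΔX : (Δ : ℝ) ≤ X := by rw [hΔr]; exact hfib i0 hi0F u hu v hv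
  have hgapr : (d : ℝ) * (m - 1) ≤ Δ := by
    have h1 : ((d * (A.card - 1) : ℕ) : ℝ) ≤ (Δ : ℕ) := Nat.cast_le.mpr hgap
    rw [Nat.cast_mul, Nat.cast_sub (show 1 ≤ A.card by omega), Nat.cast_one] at h1
    exact h1
  have hcmr : m ≤ Δ + 1 := by
    have : (A.card : ℝ) ≤ ((Δ + 1 : ℕ) : ℝ) := Nat.cast_le.mpr hcm
    rw [Nat.cast_add, Nat.cast_one] at this
    exact this
  have hdm : (d : ℝ) * m ≤ 2 * X := by nlinarith
  have hdρ : (d : ℝ) * ρ ≤ 4 * D ^ 3 := by
    have h1 : (d : ℝ) * (ρ * Q) ≤ d * (D * n * m) := mul_le_mul_of_nonneg_left hbig hd0r.le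
    have h2 : (d : ℝ) * (D * n * m) ≤ (D * n) * (2 * X) := by
      have : (d : ℝ) * (D * n * m) = (D * n) * (d * m) := by ring
      rw [this]
      exact mul_le_mul_of_nonneg_left hdm (by positivity)
    have h3 : (D * n) * (2 * X) = (4 * D ^ 3) * Q := by
      calc (D * n) * (2 * X) = 2 * D * (X * n) := by ring
        _ = (4 * D ^ 3) * Q := by rw [hXn]; ring
    have h4 : (d * ρ) * Q ≤ (4 * D ^ 3) * Q := by
      calc (d * ρ) * Q = d * (ρ * Q) := by ring
        _ ≤ _ := h1.trans (h2.trans h3.le)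
    exact le_of_mul_le_mul_right h4 hQ0
  have hnzd : ∀ x ∈ A, ∀ y ∈ A, nz (((y : ℝ) - x) * w) ≤ 2 * (D * η) := by
    intro x hx y hy
    rw [hA, TopX_mem_fib] at hx hy
    have h1 := hS.freq _ hx
    have h2 := hS.freq _ hy
    simp only at h1 h2
    have h3 : ((y : ℝ) - x) * w = (y * w - α i0) - (x * w - α i0) := by ring
    rw [h3]
    exact (nz_sub _ _).trans (by linarith)
  obtain ⟨a0, ha0⟩ := nz_exists ((d : ℝ) * w)
  have he : |(d : ℝ) * w - a0| ≤ 2 * (D * η) := by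
    rw [ha0, hdr]
    exact hnzd x hx y hy
  set θ : ℝ := ((d : ℝ) * w - a0) / d with hθ
  have hw : w = a0 / d + θ := by
    rw [hθ]
    field_simp
    ring
  have hθ1 : |θ| ≤ 2 * (D * η) := by
    rw [hθ, abs_div, abs_of_pos hd0r, div_le_iff₀ hd0r]
    have : 2 * (D * η) * 1 ≤ 2 * (D * η) * d := mul_le_mul_of_nonneg_left hd1r (by positivity)
    linarith
  have hΔ0 : (0 : ℝ) ≤ Δ := Nat.cast_nonneg _
  have hτX : 2 * (D * η) * X ≤ 4 * D ^ 3 * (η * (P : ℝ) ^ 2) := by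
    have h1 : n * X ≤ n * (2 * D ^ 2 * (P : ℝ) ^ 2) := by
      rw [mul_comm (n : ℝ) X, hXn]
      have := mul_le_mul_of_nonneg_left hJ2 (show (0 : ℝ) ≤ 2 * D ^ 2 by positivity)
      linarith
    have h2 : X ≤ 2 * D ^ 2 * (P : ℝ) ^ 2 := le_of_mul_le_mul_left h1 hn0
    have h3 := mul_le_mul_of_nonneg_left h2 (show (0 : ℝ) ≤ 2 * (D * η) by positivity)
    linarith
  have hΔθ : |(Δ : ℝ) * θ| ≤ 4 * D ^ 3 * (η * (P : ℝ) ^ 2) := by
    rw [abs_mul, abs_of_nonneg hΔ0]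
    calc (Δ : ℝ) * |θ| ≤ X * (2 * (D * η)) := by
          apply mul_le_mul hΔX hθ1 (abs_nonneg _) hX0.le
      _ = 2 * (D * η) * X := by ring
      _ ≤ _ := hτX
  set y2 : ℝ := η * (P : ℝ) ^ 2 with hy2
  have hy20 : 0 ≤ y2 := by positivity
  have hηy : η ≤ y2 := by
    have : 1 ≤ (P : ℝ) ^ 2 := one_le_pow₀ hP1
    nlinarith
  have hηρ' : 48 * D ^ 6 * y2 ≤ ρ := by rw [hy2]; linarith
  have hΔw : nz ((Δ : ℝ) * w) ≤ 2 * (D * η) := by
    rw [hΔr]
    exact hnzd u hu v hv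
  have hΔw2 : (Δ : ℝ) * w = ((Δ * a0 : ℤ) : ℝ) / d + Δ * θ := by
    push_cast
    nth_rewrite 1 [hw]
    ring
  have hdvd : (d : ℤ) ∣ (Δ * a0 : ℤ) := by
    by_contra hnd
    have h1 := nz_frac_ge (Δ * a0 : ℤ) d (by omega) hnd
    have h2 : nz (((Δ * a0 : ℤ) : ℝ) / d) ≤ 2 * (D * η) + 4 * D ^ 3 * y2 := by
      have h3 : ((Δ * a0 : ℤ) : ℝ) / d = (Δ : ℝ) * w - Δ * θ := by rw [hΔw2]; ring
      rw [h3]
      exact (nz_sub _ _).trans (add_le_add hΔw ((nz_le_abs _).trans hΔθ))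
    have h4 : 1 / (d : ℝ) ≤ 6 * D ^ 3 * y2 := by
      have h5 : D * η ≤ D ^ 3 * y2 := by
        apply mul_le_mul (le_self_pow₀ hD (by norm_num)) hηy hη (by positivity)
      linarith
    have h6 : ρ ≤ 4 * D ^ 3 * (1 / (d : ℝ)) := by
      rw [mul_one_div, le_div_iff₀ hd0r]
      linarith
    have h7 : 4 * D ^ 3 * (1 / (d : ℝ)) ≤ 4 * D ^ 3 * (6 * D ^ 3 * y2) :=
      mul_le_mul_of_nonneg_left h4 (by positivity)
    have h8 : 4 * D ^ 3 * (6 * D ^ 3 * y2) = (48 * D ^ 6 * y2) / 2 := by ring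
    linarith
  obtain ⟨q, hq⟩ := hdvd
  have hΔθ2 : |(Δ : ℝ) * θ| ≤ 2 * (D * η) := by
    have h1 : (Δ : ℝ) * w = Δ * θ + (q : ℤ) := by
      rw [hΔw2, hq]
      push_cast
      field_simp
      ring
    rw [h1, nz_add_int] at hΔw
    rw [← nz_eq_abs]
    · exact hΔw
    · have h2 : D ^ 3 * y2 ≤ D ^ 6 * y2 :=
        mul_le_mul_of_nonneg_right (pow_le_pow_right₀ hD (by norm_num)) hy20
      linarith
  have hθm : |θ| * m ≤ 4 * (D * η) := by
    rw [abs_mul, abs_of_nonneg hΔ0] at hΔθ2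
    have h1 : m ≤ 2 * Δ := by linarith
    have h2 : |θ| * m ≤ |θ| * (2 * Δ) := mul_le_mul_of_nonneg_left h1 (abs_nonneg _)
    linarith
  have hθQ : |θ| * (ρ * Q) ≤ 4 * D ^ 2 * η * n := by
    have h1 : |θ| * (ρ * Q) ≤ |θ| * (D * n * m) := mul_le_mul_of_nonneg_left hbig (abs_nonneg _)
    have h2 : |θ| * (D * n * m) = (D * n) * (|θ| * m) := by ring
    have h3 : (D * n) * (|θ| * m) ≤ (D * n) * (4 * (D * η)) :=
      mul_le_mul_of_nonneg_left hθm (by positivity)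
    calc |θ| * (ρ * Q) ≤ (D * n) * (4 * (D * η)) := h1.trans (h2.le.trans h3)
      _ = 4 * D ^ 2 * η * n := by ring
  -- (4) the indices with a descendant
  set Fs := S.image Prod.snd with hFs
  have hFsF : Fs ⊆ F0 := by
    intro i hi
    rw [hFs, Finset.mem_image] at hi
    obtain ⟨t, ht, rfl⟩ := hi
    exact hS.mem t ht
  have hFsc : ρ * n ≤ 4 * D ^ 2 * Fs.card := by
    have h1 : (S.card : ℝ) = ∑ i ∈ Fs, ((TopX_fib S i).card : ℝ) := by
      rw [TopX_sum S Fs (fun t ht => Finset.mem_image_of_mem _ ht)]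
      push_cast
      rfl
    have h2 : ∑ i ∈ Fs, ((TopX_fib S i).card : ℝ) ≤ ∑ _i ∈ Fs, 2 * X := by
      apply Finset.sum_le_sum
      intro i hi
      have := TopX_card (TopX_fib S i) X hX0.le (hfib i (hFsF hi))
      linarith
    rw [Finset.sum_const, nsmul_eq_mul] at h2
    have h3 : ρ * Q ≤ Fs.card * (2 * X) := hcard.trans (h1.le.trans h2)
    have h4 : (ρ * n) * Q ≤ (4 * D ^ 2 * Fs.card) * Q := by
      calc (ρ * n) * Q = n * (ρ * Q) := by ring
        _ ≤ n * (Fs.card * (2 * X)) := mul_le_mul_of_nonneg_left h3 hn0.le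
        _ = 2 * Fs.card * (X * n) := by ring
        _ = (4 * D ^ 2 * Fs.card) * Q := by rw [hXn]; ring
    exact le_of_mul_le_mul_right h4 hQ0
  have hex : ∀ i ∈ Fs, ∃ x : ℕ, (x, i) ∈ S := by
    intro i hi
    rw [hFs, Finset.mem_image] at hi
    obtain ⟨⟨x, i'⟩, ht, rfl⟩ := hi
    exact ⟨x, ht⟩
  choose! g hg using hex
  set f : ℕ → ℕ := fun i => (((g i : ℤ) * a0) % (d : ℤ)).toNat with hf
  have hdz : (0 : ℤ) < d := by exact_mod_cast hd1
  have hmaps : ∀ i ∈ Fs, f i ∈ Finset.range d := by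
    intro i _
    rw [Finset.mem_range, hf]
    have h1 := Int.emod_nonneg ((g i : ℤ) * a0) hdz.ne'
    have h2 := Int.emod_lt_of_pos ((g i : ℤ) * a0) hdz
    simp only
    omega
  obtain ⟨b, -, hb⟩ := TopX_pig Fs (Finset.range d) f hmaps ⟨0, Finset.mem_range.mpr hd1⟩
  rw [Finset.card_range] at hb
  have hbr : (Fs.card : ℝ) ≤ d * (Fs.filter fun i => f i = b).card := by exact_mod_cast hb
  refine ⟨d, b, θ * K * Q, Fs.filter fun i => f i = b, hd1, ?_, ?_, ?_, ?_, ?_⟩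
  · have : D ^ 3 ≤ D ^ 6 := pow_le_pow_right₀ hD (by norm_num)
    linarith [hp1 6]
  · rw [abs_mul, abs_mul, abs_of_nonneg (Nat.cast_nonneg K : (0 : ℝ) ≤ K), abs_of_pos hQ0]
    have h1 : |θ| * K * Q * ρ = K * (|θ| * (ρ * Q)) := by ring
    rw [h1]
    have h2 : (K : ℝ) * (|θ| * (ρ * Q)) ≤ (D * n) * (4 * D ^ 2 * η * n) :=
      mul_le_mul hK2 hθQ (by positivity) (by positivity)
    have h3 : (D * n) * (4 * D ^ 2 * η * n) = 4 * D ^ 3 * (η * n ^ 2) := by ring
    have h4 : D ^ 3 * (η * (n : ℝ) ^ 2) ≤ D ^ 6 * (η * (n : ℝ) ^ 2) :=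
      mul_le_mul_of_nonneg_right (pow_le_pow_right₀ hD (by norm_num)) (by positivity)
    have h5 : 0 ≤ D ^ 6 * (η * (n : ℝ) ^ 2) := by positivity
    calc (K : ℝ) * (|θ| * (ρ * Q)) ≤ 4 * D ^ 3 * (η * n ^ 2) := h2.trans h3.le
      _ ≤ 48 * D ^ 6 * η * (n : ℝ) ^ 2 := by linarith
  · exact (Finset.filter_subset _ _).trans hFsF
  · have h1 : ρ * (ρ * n) ≤ ρ * (4 * D ^ 2 * Fs.card) := mul_le_mul_of_nonneg_left hFsc hρ.le
    set c : ℝ := ((Fs.filter fun i => f i = b).card : ℝ) with hc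
    have hc0 : 0 ≤ c := Nat.cast_nonneg _
    have h2 : ρ * (4 * D ^ 2 * Fs.card) ≤ ρ * (4 * D ^ 2 * (d * c)) := by
      apply mul_le_mul_of_nonneg_left _ hρ.le
      exact mul_le_mul_of_nonneg_left hbr (by positivity)
    have h3 : ρ * (4 * D ^ 2 * (d * c)) = (4 * D ^ 2 * c) * (d * ρ) := by ring
    have h4 : (4 * D ^ 2 * c) * (d * ρ) ≤ (4 * D ^ 2 * c) * (4 * D ^ 3) :=
      mul_le_mul_of_nonneg_left hdρ (mul_nonneg (by positivity) hc0)
    have h5 : (4 * D ^ 2 * c) * (4 * D ^ 3) = 16 * (D ^ 5 * c) := by ring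
    have h6 : D ^ 5 * c ≤ D ^ 6 * c :=
      mul_le_mul_of_nonneg_right (pow_le_pow_right₀ hD (by norm_num)) hc0
    have h7 : 0 ≤ D ^ 6 * c := mul_nonneg (by positivity) hc0
    calc ρ ^ 2 * n = ρ * (ρ * n) := by ring
      _ ≤ 16 * (D ^ 5 * c) := h1.trans (h2.trans (h3.le.trans (h4.trans h5.le)))
      _ ≤ 48 * D ^ 6 * c := by linarith
  · intro i hi
    rw [Finset.mem_filter] at hi
    obtain ⟨hiFs, hfi⟩ := hi
    have hiF0 := hFsF hiFs
    have hip := hi0 i hiF0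
    have hgi := hg i hiFs
    have h1 := hS.freq _ hgi
    have h2 := hS.pos _ hgi
    simp only at h1 h2
    rw [← hQ] at h2
    have hbz : (b : ℤ) = ((g i : ℤ) * a0) % (d : ℤ) := by
      rw [← hfi, hf]
      simp only
      exact Int.toNat_of_nonneg (Int.emod_nonneg _ hdz.ne')
    have hq2 : (g i : ℝ) * a0 = d * (((g i : ℤ) * a0 / (d : ℤ) : ℤ) : ℝ) + b := by
      have h3 := Int.mul_ediv_add_emod ((g i : ℤ) * a0) (d : ℤ)
      rw [← hbz] at h3
      have h4 : ((((d : ℤ) * ((g i : ℤ) * a0 / (d : ℤ)) + (b : ℤ) : ℤ)) : ℝ) = (((g i : ℤ) * a0 : ℤ) : ℝ) := by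
        rw [h3]
      push_cast at h4
      linarith
    set q2 : ℤ := (g i : ℤ) * a0 / (d : ℤ) with hq2d
    have hkey : α i - b / d - θ * K * Q / i =
        (-((g i : ℝ) * w - α i) + θ * ((i : ℝ) * g i - K * Q) / i) + (q2 : ℤ) := by
      rw [hw]
      have h5 : (b : ℝ) = (g i : ℝ) * a0 - d * q2 := by linarith
      rw [h5]
      field_simp
      ring
    rw [hkey, nz_add_int]
    have h6 : nz (-((g i : ℝ) * w - α i) + θ * ((i : ℝ) * g i - K * Q) / i) ≤
        D * η + |θ| * (D * Q) / i := by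
      refine (nz_add _ _).trans (add_le_add ?_ ?_)
      · rw [nz_neg]
        exact h1
      · refine (nz_le_abs _).trans ?_
        rw [abs_div, abs_mul, abs_of_pos hip]
        apply div_le_div_of_nonneg_right _ hip.le
        exact mul_le_mul_of_nonneg_left h2 (abs_nonneg _)
    have h7 : |θ| * (D * Q) / i * ρ ≤ 4 * D ^ 4 * η := by
      rw [div_mul_eq_mul_div, div_le_iff₀ hip]
      have h8 : |θ| * (D * Q) * ρ = D * (|θ| * (ρ * Q)) := by ring
      rw [h8]
      calc D * (|θ| * (ρ * Q)) ≤ D * (4 * D ^ 2 * η * n) := mul_le_mul_of_nonneg_left hθQ hD0.le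
        _ = 4 * D ^ 3 * η * n := by ring
        _ ≤ 4 * D ^ 3 * η * (D * i) := mul_le_mul_of_nonneg_left (hiD i hiF0) (by positivity)
        _ = 4 * D ^ 4 * η * i := by ring
    have h9 := mul_le_mul_of_nonneg_right h6 hρ.le
    have h10 : D * η * ρ ≤ D ^ 6 * η := by
      have h11 : D * η * ρ ≤ D * η * 1 := mul_le_mul_of_nonneg_left hρ1 (by positivity)
      have h12 : D * η ≤ D ^ 6 * η :=
        mul_le_mul_of_nonneg_right (le_self_pow₀ hD (by norm_num)) hη
      linarith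
    have h13 : D ^ 4 * η ≤ D ^ 6 * η :=
      mul_le_mul_of_nonneg_right (pow_le_pow_right₀ hD (by norm_num)) hη
    have h14 : 0 ≤ D ^ 6 * η := by positivity
    rw [add_mul] at h9
    linarith

end Pool.Agent.H74.MDX

end

section

/-!
# MDX Sep: separated nets modulo 1

`net`: a maximal subset of `W` (with respect to inclusion or cardinality: `Finset.exists_max_image` on the filtered powerset) with pairwise `nz (g - g') > s`; by maximality every
`w ∈ W` has some `g` with `nz (w - g) ≤ s` (for `w ∈ Γ` itself `nz 0 = 0 ≤ s`).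
`near_card`: for `g'` in the set choose the integer `m` with `|g - g' - m| = nz (g - g') ≤ s'` and put `x(g') = g' - g + m ∈ [-s', s']` (`nz_exists`); for two different ones
`|x(g') - x(g'')| ≥ nz (g' - g'') > s` (`nz_le_of`).  So the map `g' ↦ ⌊(x(g') + s')/s⌋` is injective with values in `[0, 2s'/s]`: at most `2 s'/s + 1` elements.
-/

set_option autoImplicit false

namespace Pool.Agent.H74.MDX

open Finset
open Pool.Agent.H53.MID (nz Rel)

theorem net (W : Finset ℝ) (s : ℝ) (hs : 0 ≤ s) : ∃ Γ ⊆ W, (∀ w ∈ W, ∃ g ∈ Γ, nz (w - g) ≤ s) ∧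
    ∀ g ∈ Γ, ∀ g' ∈ Γ, g ≠ g' → s < nz (g - g') := by
  classical
  set A : Finset (Finset ℝ) := W.powerset.filter
    (fun Γ => ∀ g ∈ Γ, ∀ g' ∈ Γ, g ≠ g' → s < nz (g - g')) with hA
  have hne : A.Nonempty := by
    refine ⟨∅, ?_⟩
    rw [hA, Finset.mem_filter, Finset.mem_powerset]
    exact ⟨Finset.empty_subset _, fun g hg => absurd hg (Finset.notMem_empty g)⟩
  obtain ⟨Γ, hΓ, hmax⟩ := A.exists_max_image (fun Γ => Γ.card) hne
  rw [hA, Finset.mem_filter, Finset.mem_powerset] at hΓ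
  refine ⟨Γ, hΓ.1, fun w hw => ?_, hΓ.2⟩
  by_contra hcon
  push Not at hcon
  have hwΓ : w ∉ Γ := by
    intro h
    have h1 := hcon w h
    have h2 := Pool.Agent.H53.MID.nz_le_abs (w - w)
    rw [sub_self, abs_zero] at h2
    rw [sub_self] at h1
    linarith
  have hins : insert w Γ ∈ A := by
    rw [hA, Finset.mem_filter, Finset.mem_powerset]
    refine ⟨Finset.insert_subset hw hΓ.1, fun g hg g' hg' hgg => ?_⟩
    rw [Finset.mem_insert] at hg hg'
    rcases hg with rfl | hg <;> rcases hg' with rfl | hg'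
    · exact absurd rfl hgg
    · exact hcon g' hg'
    · rw [← Pool.Agent.H53.MID.nz_neg, neg_sub]
      exact hcon g hg
    · exact hΓ.2 g hg g' hg' hgg
  have h3 := hmax _ hins
  rw [Finset.card_insert_of_notMem hwΓ] at h3
  omega

open Classical in
theorem near_card (Γ : Finset ℝ) (s s' : ℝ) (hs : 0 < s) (hs' : 0 ≤ s')
    (hsep : ∀ g ∈ Γ, ∀ g' ∈ Γ, g ≠ g' → s < nz (g - g')) (g : ℝ) :
    ((Γ.filter (fun g' => nz (g - g') ≤ s')).card : ℝ) ≤ 2 * s' / s + 1 := by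
  set x : ℝ → ℝ := fun g' => g' - g + round (g - g') with hx
  have hxabs : ∀ g', |x g'| = nz (g - g') := by
    intro g'
    have e : x g' = -((g - g') - round (g - g')) := by rw [hx]; ring
    rw [e, abs_neg]
    rfl
  have hcard : (Γ.filter (fun g' => nz (g - g') ≤ s')).card ≤
      (Finset.range (⌊2 * s' / s⌋₊ + 1)).card := by
    refine Finset.card_le_card_of_injOn (fun g' => ⌊(x g' + s') / s⌋₊) ?_ ?_
    · intro g' hg'
      rw [Finset.mem_coe, Finset.mem_filter] at hg'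
      have h1 := hxabs g'
      have h2 : |x g'| ≤ s' := by rw [h1]; exact hg'.2
      rw [abs_le] at h2
      rw [Finset.mem_coe, Finset.mem_range, Nat.lt_succ_iff]
      refine Nat.floor_le_floor ?_
      exact div_le_div_of_nonneg_right (by linarith) hs.le
    · intro a ha b hb hab
      rw [Finset.mem_coe, Finset.mem_filter] at ha hb
      by_contra hne
      have h1 := hsep a ha.1 b hb.1 hne
      have ha2 : |x a| ≤ s' := by rw [hxabs]; exact ha.2
      have hb2 : |x b| ≤ s' := by rw [hxabs]; exact hb.2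
      rw [abs_le] at ha2 hb2
      have hab' : ⌊(x a + s') / s⌋₊ = ⌊(x b + s') / s⌋₊ := hab
      have ha3 := Nat.floor_le (show 0 ≤ (x a + s') / s from div_nonneg (by linarith) hs.le)
      have hb3 := Nat.floor_le (show 0 ≤ (x b + s') / s from div_nonneg (by linarith) hs.le)
      have ha4 := Nat.lt_floor_add_one ((x a + s') / s)
      have hb4 := Nat.lt_floor_add_one ((x b + s') / s)
      rw [← hab'] at hb3 hb4
      rw [le_div_iff₀ hs] at ha3 hb3
      rw [div_lt_iff₀ hs] at ha4 hb4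
      have h2 : |x a - x b| < s := by
        rw [abs_lt]
        constructor <;> linarith
      have h3 := Pool.Agent.H53.MID.nz_le_of (a - b) (round (g - b) - round (g - a))
      have e : a - b - ((round (g - b) - round (g - a) : ℤ) : ℝ) = x a - x b := by
        rw [hx]
        push_cast
        ring
      rw [e] at h3
      linarith
  rw [Finset.card_range] at hcard
  have h1 : ((Γ.filter (fun g' => nz (g - g') ≤ s')).card : ℝ) ≤ (⌊2 * s' / s⌋₊ : ℝ) + 1 := by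
    exact_mod_cast hcard
  have h2 := Nat.floor_le (show 0 ≤ 2 * s' / s from div_nonneg (by linarith) hs.le)
  linarith

end Pool.Agent.H74.MDX

end

section

/-!
# MDX Sets: many sets with small intersections

Proof.  `Y = ∑_{g ∈ Γ} |A g| = ∑_{x ∈ U} f(x)`, `f(x) = #{g ∈ Γ : x ∈ A g}`.  Cauchy-Schwarz: `Y^2 ≤ Tot ∑_x f(x)^2 = Tot ∑_{g, g'} |A g ∩ A g'|`.  Near pairs: `|A g ∩ A g'| ≤ |A g|`, at most
`Kn` values `g'` for every `g`: `≤ Kn Y`.  Far pairs: `≤ |Γ|^2 ι`, and `|Γ| m0 ≤ Y`, so `|Γ|^2 ι Tot ≤ Y^2 ι Tot/m0^2 ≤ Y^2/2`.  So `Y^2/2 ≤ Tot Kn Y`.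
-/

set_option autoImplicit false

namespace Pool.Agent.H74.MDX

open Finset

open Classical in
theorem sets_sum {T W : Type*} (Γ : Finset T) (U : Finset W) (A : T → Finset W) (near : T → T → Prop)
    (Tot Kn ι m0 : ℝ) (hA : ∀ g ∈ Γ, A g ⊆ U) (hU : (U.card : ℝ) ≤ Tot) (hm0 : 0 < m0) (hι : 0 ≤ ι) (hKn : 0 ≤ Kn)
    (hlow : ∀ g ∈ Γ, m0 ≤ ((A g).card : ℝ))
    (hnear : ∀ g ∈ Γ, ((Γ.filter (fun g' => near g g')).card : ℝ) ≤ Kn)
    (hfar : ∀ g ∈ Γ, ∀ g' ∈ Γ, ¬ near g g' → ((A g ∩ A g').card : ℝ) ≤ ι)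
    (hbig : 2 * Tot * ι ≤ m0 ^ 2) : ∑ g ∈ Γ, ((A g).card : ℝ) ≤ 2 * Kn * Tot := by
  have hTot : 0 ≤ Tot := le_trans (Nat.cast_nonneg _) hU
  set Y : ℝ := ∑ g ∈ Γ, ((A g).card : ℝ) with hY
  have hY0 : 0 ≤ Y := Finset.sum_nonneg fun g _ => Nat.cast_nonneg _
  have hcard : ∀ g ∈ Γ, ((A g).card : ℝ) = ∑ x ∈ U, (if x ∈ A g then (1 : ℝ) else 0) := by
    intro g hg
    rw [Finset.sum_ite_mem, Finset.inter_eq_right.mpr (hA g hg)]
    simp
  have hYf : Y = ∑ x ∈ U, ∑ g ∈ Γ, (if x ∈ A g then (1 : ℝ) else 0) := by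
    rw [hY, Finset.sum_congr rfl hcard, Finset.sum_comm]
  have hCS : Y ^ 2 ≤ Tot * ∑ x ∈ U, (∑ g ∈ Γ, (if x ∈ A g then (1 : ℝ) else 0)) ^ 2 := by
    rw [hYf]
    refine (sq_sum_le_card_mul_sum_sq).trans ?_
    exact mul_le_mul_of_nonneg_right hU (Finset.sum_nonneg fun x _ => sq_nonneg _)
  have hsq : ∑ x ∈ U, (∑ g ∈ Γ, (if x ∈ A g then (1 : ℝ) else 0)) ^ 2 =
      ∑ g ∈ Γ, ∑ g' ∈ Γ, ((A g ∩ A g').card : ℝ) := by
    have e1 : ∀ x ∈ U, (∑ g ∈ Γ, (if x ∈ A g then (1 : ℝ) else 0)) ^ 2 =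
        ∑ g ∈ Γ, ∑ g' ∈ Γ, (if x ∈ A g ∩ A g' then (1 : ℝ) else 0) := by
      intro x _
      rw [sq, Finset.sum_mul_sum]
      refine Finset.sum_congr rfl fun g _ => Finset.sum_congr rfl fun g' _ => ?_
      by_cases h1 : x ∈ A g <;> by_cases h2 : x ∈ A g' <;> simp [h1, h2]
    rw [Finset.sum_congr rfl e1, Finset.sum_comm]
    refine Finset.sum_congr rfl fun g hg => ?_
    rw [Finset.sum_comm]
    refine Finset.sum_congr rfl fun g' _ => ?_
    rw [Finset.sum_ite_mem, Finset.inter_eq_right.mpr (Finset.inter_subset_left.trans (hA g hg))]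
    simp
  have hsplit : ∀ g ∈ Γ, ∑ g' ∈ Γ, ((A g ∩ A g').card : ℝ) ≤ Kn * (A g).card + Γ.card * ι := by
    intro g hg
    rw [← Finset.sum_filter_add_sum_filter_not Γ (fun g' => near g g')]
    refine add_le_add ?_ ?_
    · calc ∑ g' ∈ Γ.filter (fun g' => near g g'), ((A g ∩ A g').card : ℝ)
          ≤ ∑ g' ∈ Γ.filter (fun g' => near g g'), ((A g).card : ℝ) := by
            refine Finset.sum_le_sum fun g' _ => ?_
            exact_mod_cast Finset.card_le_card Finset.inter_subset_left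
        _ = ((Γ.filter (fun g' => near g g')).card : ℝ) * (A g).card := by
            rw [Finset.sum_const, nsmul_eq_mul]
        _ ≤ Kn * (A g).card := mul_le_mul_of_nonneg_right (hnear g hg) (Nat.cast_nonneg _)
    · calc ∑ g' ∈ Γ.filter (fun g' => ¬ near g g'), ((A g ∩ A g').card : ℝ)
          ≤ ∑ g' ∈ Γ.filter (fun g' => ¬ near g g'), ι := by
            refine Finset.sum_le_sum fun g' hg' => ?_
            rw [Finset.mem_filter] at hg'
            exact hfar g hg g' hg'.1 hg'.2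
        _ = ((Γ.filter (fun g' => ¬ near g g')).card : ℝ) * ι := by
            rw [Finset.sum_const, nsmul_eq_mul]
        _ ≤ Γ.card * ι := by
            refine mul_le_mul_of_nonneg_right ?_ hι
            exact_mod_cast Finset.card_le_card (Finset.filter_subset _ _)
  have hmain : Y ^ 2 ≤ Tot * (Kn * Y + (Γ.card : ℝ) * ((Γ.card : ℝ) * ι)) := by
    refine hCS.trans (mul_le_mul_of_nonneg_left ?_ hTot)
    rw [hsq]
    refine (Finset.sum_le_sum hsplit).trans (le_of_eq ?_)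
    rw [Finset.sum_add_distrib, ← Finset.mul_sum, Finset.sum_const, nsmul_eq_mul]
  have hcY : (Γ.card : ℝ) * m0 ≤ Y := by
    rw [hY, ← nsmul_eq_mul, ← Finset.sum_const]
    exact Finset.sum_le_sum hlow
  have hfarb : Tot * ((Γ.card : ℝ) * ((Γ.card : ℝ) * ι)) ≤ Y ^ 2 / 2 := by
    have h1 : (Γ.card : ℝ) ^ 2 * m0 ^ 2 ≤ Y ^ 2 := by
      rw [← mul_pow]
      exact pow_le_pow_left₀ (by positivity) hcY 2
    have h2 : (Γ.card : ℝ) ^ 2 * (2 * Tot * ι) ≤ (Γ.card : ℝ) ^ 2 * m0 ^ 2 :=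
      mul_le_mul_of_nonneg_left hbig (by positivity)
    nlinarith
  rcases hY0.eq_or_lt with h0 | hpos
  · rw [← h0]; positivity
  · have h3 : Y ^ 2 / 2 ≤ Tot * (Kn * Y) := by nlinarith
    have h4 : Y * Y ≤ (2 * Kn * Tot) * Y := by nlinarith
    exact le_of_mul_le_mul_right h4 hpos

end Pool.Agent.H74.MDX

end

section

/-!
# MDX Rich: few edges have a poor root (abstract)

`X` = the edges `e` such that fewer than `κ P` edges `f` have the same first vertex and the same root.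
Proof.  Let `N(u) = {u1 : (u, u1) ∈ X}`.  Cauchy-Schwarz: `|X|^2 = (∑_{u ∈ VV} |N(u)|)^2 ≤ |VV| ∑_u |N(u)|^2`, and `∑_u |N(u)|^2` is the number of the
triples `(u, u1, u2)` with `(u,u1), (u,u2) ∈ X`.  The triples with `root (u,u1) = root (u,u2)`: for given `(u, u1) ∈ X` fewer than `κ P` (definition of `X`, `X ⊆ E`),
total `≤ κ P |X|`.  The triples with `root (u,u1) ≠ root (u,u2)`: for given `(u1, u2) ∈ VV × VV` all such `u` have the same value `pr u` (hypothesis `h4`), so there are at most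
`b` of them: total `≤ b |VV|^2`.  So `|X|^2 ≤ |VV| (b |VV|^2 + κ P |X|) ≤ b P (b (b P)^2 + κ P |X|) = b^4 P^3 + κ b P^2 |X|`.  If `|X| > 2 κ b P^2` then
`κ b P^2 |X| < |X|^2/2`, so `|X|^2/2 < b^4 P^3`, `2 κ^2 b^2 P^4 < b^4 P^3`, `2 κ^2 P < b^2`: contradiction with `hbig`.
-/

set_option autoImplicit false

namespace Pool.Agent.H74.MDX

open Finset

open Classical in
theorem rich {V : Type*} (VV : Finset V) (pr : V → ℕ) (E : Finset (V × V)) (root : V × V → ℤ) (b κ P : ℝ)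
    (hb : 0 < b) (hκ : 0 < κ) (hP : 0 < P) (hfib : ∀ p : ℕ, ((VV.filter (fun v => pr v = p)).card : ℝ) ≤ b)
    (hV : (VV.card : ℝ) ≤ b * P) (hE : E ⊆ VV ×ˢ VV)
    (h4 : ∀ u v u1 u2 : V, (u, u1) ∈ E → (u, u2) ∈ E → (v, u1) ∈ E → (v, u2) ∈ E → pr u ≠ pr v →
      root (u, u1) = root (u, u2))
    (hbig : b ^ 2 < 2 * κ ^ 2 * P) :
    ((E.filter (fun e => ((E.filter (fun f => f.1 = e.1 ∧ root f = root e)).card : ℝ) < κ * P)).card : ℝ) ≤
      2 * κ * b * P ^ 2 := by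
  set X : Finset (V × V) :=
    E.filter (fun e => ((E.filter (fun f => f.1 = e.1 ∧ root f = root e)).card : ℝ) < κ * P) with hX
  have hXE : X ⊆ E := filter_subset _ _
  -- the triples
  set T : Finset ((V × V) × (V × V)) := (X ×ˢ X).filter (fun t => t.2.1 = t.1.1) with hT
  have h1 : (X.card : ℝ) = ∑ u ∈ VV, ((X.filter (fun e => e.1 = u)).card : ℝ) := by
    rw [← Nat.cast_sum]
    congr 1
    exact card_eq_sum_card_fiberwise (fun e he => (mem_product.1 (hE (hXE he))).1)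
  have h2 : (X.card : ℝ) ^ 2 ≤ VV.card * ∑ u ∈ VV, ((X.filter (fun e => e.1 = u)).card : ℝ) ^ 2 := by
    rw [h1]
    exact sq_sum_le_card_mul_sum_sq
  have hT0 : T.card = ∑ e ∈ X, (X.filter (fun f => f.1 = e.1)).card := by
    rw [hT, Finset.card_filter, Finset.sum_product]
    refine Finset.sum_congr rfl (fun e _ => ?_)
    rw [Finset.card_filter]
  have h3 : ∑ u ∈ VV, ((X.filter (fun e => e.1 = u)).card : ℝ) ^ 2 = T.card := by
    rw [hT0, Nat.cast_sum, ← Finset.sum_fiberwise_of_maps_to (s := X) (t := VV) (g := fun e => e.1)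
      (fun e he => (mem_product.1 (hE (hXE he))).1)]
    refine Finset.sum_congr rfl (fun u _ => ?_)
    have h31 : ∀ e ∈ X.filter (fun e => e.1 = u), ((X.filter (fun f => f.1 = e.1)).card : ℝ) =
        ((X.filter (fun e => e.1 = u)).card : ℝ) := by
      intro e he
      rw [(mem_filter.1 he).2]
    rw [Finset.sum_congr rfl h31, Finset.sum_const, nsmul_eq_mul, sq]
  -- the two kinds of triples
  have h4' : T.card = (T.filter (fun t => root t.2 = root t.1)).card +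
      (T.filter (fun t => ¬ root t.2 = root t.1)).card := (card_filter_add_card_filter_not _).symm
  have h5 : ((T.filter (fun t => root t.2 = root t.1)).card : ℝ) ≤ κ * P * X.card := by
    have h51 : (T.filter (fun t => root t.2 = root t.1)).card =
        ∑ e ∈ X, (X.filter (fun f => f.1 = e.1 ∧ root f = root e)).card := by
      rw [hT, Finset.filter_filter, Finset.card_filter, Finset.sum_product]
      refine Finset.sum_congr rfl (fun e _ => ?_)
      rw [Finset.card_filter]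
    rw [h51, Nat.cast_sum]
    have h52 : ∀ e ∈ X, ((X.filter (fun f => f.1 = e.1 ∧ root f = root e)).card : ℝ) ≤ κ * P := by
      intro e he
      refine le_trans ?_ (mem_filter.1 he).2.le
      exact_mod_cast card_le_card (filter_subset_filter _ hXE)
    refine (Finset.sum_le_sum h52).trans ?_
    rw [Finset.sum_const, nsmul_eq_mul]
    exact le_of_eq (by ring)
  have h6 : ((T.filter (fun t => ¬ root t.2 = root t.1)).card : ℝ) ≤ b * VV.card ^ 2 := by
    set T2 := T.filter (fun t => ¬ root t.2 = root t.1) with hT2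
    have h61 : (T2.card : ℝ) = ∑ w ∈ VV ×ˢ VV, ((T2.filter (fun t => (t.1.2, t.2.2) = w)).card : ℝ) := by
      rw [← Nat.cast_sum]
      congr 1
      refine card_eq_sum_card_fiberwise (fun t ht => ?_)
      have h62 := (mem_filter.1 (mem_filter.1 ht).1).1
      have h63 := mem_product.1 (hE (hXE (mem_product.1 h62).1))
      have h64 := mem_product.1 (hE (hXE (mem_product.1 h62).2))
      exact mem_coe.2 (mem_product.2 ⟨h63.2, h64.2⟩)
    have h65 : ∀ w ∈ VV ×ˢ VV, ((T2.filter (fun t => (t.1.2, t.2.2) = w)).card : ℝ) ≤ b := by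
      intro w _
      rcases (T2.filter (fun t => (t.1.2, t.2.2) = w)).eq_empty_or_nonempty with h0 | ⟨t0, ht0⟩
      · rw [h0, card_empty, Nat.cast_zero]
        exact hb.le
      · refine le_trans ?_ (hfib (pr t0.1.1))
        have h66 : (T2.filter (fun t => (t.1.2, t.2.2) = w)).card ≤
            (VV.filter (fun v => pr v = pr t0.1.1)).card := by
          refine card_le_card_of_injOn (fun t => t.1.1) (fun t ht => ?_) (fun t ht t' ht' htt => ?_)
          · obtain ⟨ht1, ht2⟩ := mem_filter.1 (mem_coe.1 ht)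
            obtain ⟨ht3, ht4⟩ := mem_filter.1 ht1
            obtain ⟨ht5, ht6⟩ := mem_filter.1 ht3
            obtain ⟨hs1, hs2⟩ := mem_filter.1 ht0
            obtain ⟨hs3, hs4⟩ := mem_filter.1 hs1
            obtain ⟨hs5, hs6⟩ := mem_filter.1 hs3
            obtain ⟨⟨a1, a2⟩, ⟨a3, a4⟩⟩ := t
            obtain ⟨⟨c1, c2⟩, ⟨c3, c4⟩⟩ := t0
            simp only at ht2 ht4 ht6 hs2 hs4 hs6 ⊢
            obtain ⟨w1, w2⟩ := w
            simp only [Prod.mk.injEq] at ht2 hs2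
            obtain ⟨rfl, rfl⟩ := ht2
            obtain ⟨rfl, rfl⟩ := hs2
            subst ht6
            subst hs6
            have k1 := hXE (mem_product.1 ht5).1
            have k2 := hXE (mem_product.1 ht5).2
            have k3 := hXE (mem_product.1 hs5).1
            have k4 := hXE (mem_product.1 hs5).2
            refine mem_coe.2 (mem_filter.2 ⟨(mem_product.1 (hE k1)).1, ?_⟩)
            by_contra hne
            exact ht4 (h4 _ _ _ _ k1 k2 k3 k4 hne).symm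
          · obtain ⟨ht1, ht2⟩ := mem_filter.1 (mem_coe.1 ht)
            obtain ⟨ht3, ht4⟩ := mem_filter.1 ht1
            obtain ⟨ht5, ht6⟩ := mem_filter.1 ht3
            obtain ⟨hs1, hs2⟩ := mem_filter.1 (mem_coe.1 ht')
            obtain ⟨hs3, hs4⟩ := mem_filter.1 hs1
            obtain ⟨hs5, hs6⟩ := mem_filter.1 hs3
            obtain ⟨⟨a1, a2⟩, ⟨a3, a4⟩⟩ := t
            obtain ⟨⟨c1, c2⟩, ⟨c3, c4⟩⟩ := t'
            obtain ⟨w1, w2⟩ := w
            simp only [Prod.mk.injEq] at ht2 hs2 ht6 hs6 htt ⊢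
            obtain ⟨rfl, rfl⟩ := ht2
            obtain ⟨rfl, rfl⟩ := hs2
            subst ht6
            subst hs6
            subst htt
            exact ⟨⟨rfl, rfl⟩, ⟨rfl, rfl⟩⟩
        exact_mod_cast h66
    rw [h61]
    refine (Finset.sum_le_sum h65).trans ?_
    rw [Finset.sum_const, nsmul_eq_mul, card_product]
    push_cast
    exact le_of_eq (by ring)
  have h7 : (T.card : ℝ) ≤ κ * P * X.card + b * VV.card ^ 2 := by
    rw [h4']
    push_cast
    linarith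
  rw [h3] at h2
  set x : ℝ := (X.card : ℝ) with hx
  set n : ℝ := (VV.card : ℝ) with hn
  have hx0 : 0 ≤ x := Nat.cast_nonneg _
  have hn0 : 0 ≤ n := Nat.cast_nonneg _
  have h8 : x ^ 2 ≤ (b * P) * (κ * P * x + b * (b * P) ^ 2) := by
    refine h2.trans ?_
    have h81 : n ^ 2 ≤ (b * P) ^ 2 := pow_le_pow_left₀ hn0 hV 2
    have h82 : (T.card : ℝ) ≤ κ * P * x + b * (b * P) ^ 2 :=
      h7.trans (by
        have := mul_le_mul_of_nonneg_left h81 hb.le
        linarith)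
    exact mul_le_mul hV h82 (Nat.cast_nonneg _) (by positivity)
  by_contra hcon
  push Not at hcon
  have h9 : κ * b * P ^ 2 * x ≤ x ^ 2 / 2 := by
    have := mul_le_mul_of_nonneg_right hcon.le hx0
    nlinarith
  have h10 : x ^ 2 ≤ 2 * (b ^ 4 * P ^ 3) := by
    have : (b * P) * (κ * P * x + b * (b * P) ^ 2) = κ * b * P ^ 2 * x + b ^ 4 * P ^ 3 := by ring
    rw [this] at h8
    linarith
  have h11 : (2 * κ * b * P ^ 2) ^ 2 < x ^ 2 := pow_lt_pow_left₀ hcon (by positivity) (by norm_num)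
  have h12 : (b ^ 2 * P ^ 3) * (2 * κ ^ 2 * P) < (b ^ 2 * P ^ 3) * b ^ 2 := by nlinarith
  have h13 : 2 * κ ^ 2 * P < b ^ 2 := lt_of_mul_lt_mul_left h12 (by positivity)
  linarith

end Pool.Agent.H74.MDX

end

section

/-!
# MDX Nd: a frequency which is small on many rough numbers

Proof.  Dirichlet: there are `q ≥ 1`, `q ≤ 4X`, `b ∈ ℤ` coprime to `q` with `|φ - b/q| ≤ 1/(4 X q)` (e.g. `Real.exists_rat_abs_sub_le_and_den_le`, `Rat.den`, for the natural number
`4X`; it gives `≤ 1/((4X+1) q)`).  For `a ∈ S`: `a ≤ X`, `|a (φ - b/q)| ≤ 1/(4q)`, so `nz (a b/q) ≤ t + 1/(4q)`.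
* `2 ≤ q ≤ P`: take `a ∈ S` (nonempty by `hS`); its prime factors are `> P`, so `gcd(a, q) = 1`, `q ∤ a b`, `nz (a b/q) ≥ 1/q` (`nz_frac_ge`), so `3/(4q) ≤ t`,
  but `t < 3/(4P) ≤ 3/(4q)`.
* `q > P`: `a b mod q` (absolutely smallest residue `r`) satisfies `|r| ≤ t q + 1/4`, at most `2 t q + 3/2` values of `r`, each determines `a` mod `q`, and each class mod `q` contains at most
  `X/q + 1` numbers `a ≤ X`.  So `|S| ≤ (X/q + 1)(2 t q + 3/2) = 2 t X + 3X/(2q) + 2 t q + 3/2 ≤ 10 t X + 3X/(2P) + 3/2` (`q ≤ 4X`): contradiction with `hS`.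
* `q = 1`: `|a (φ - b)| ≤ 1/4 < 1/2`, so `nz (a φ) = |a (φ - b)|` (`nz_sub_int`, `nz_eq_abs`), `Y |φ - b| ≤ a |φ - b| ≤ t`, and `nz φ ≤ |φ - b| ≤ t/Y`.
-/

set_option autoImplicit false

namespace Pool.Agent.H74.MDX

open Finset
open Pool.Agent.H53.MID (nz Rel)

private theorem Nd_int_card (S : Finset ℤ) (c : ℝ) (hc : 0 ≤ c) (h : ∀ k ∈ S, |(k : ℝ)| ≤ c) : (S.card : ℝ) ≤ 2 * c + 1 := by
  have h1 : S ⊆ Finset.Icc ⌈-c⌉ ⌊c⌋ := by
    intro z hz
    have h2 := abs_le.mp (h z hz)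
    rw [Finset.mem_Icc]
    exact ⟨Int.ceil_le.mpr h2.1, Int.le_floor.mpr h2.2⟩
  have h2 := Finset.card_le_card h1
  rw [Int.card_Icc] at h2
  have h3 : ⌈-c⌉ ≤ 0 := by rw [Int.ceil_le]; push_cast; linarith
  have h3' : 0 ≤ ⌊c⌋ := Int.floor_nonneg.mpr hc
  have h5 : (((⌊c⌋ + 1 - ⌈-c⌉).toNat : ℤ) : ℝ) = ((⌊c⌋ + 1 - ⌈-c⌉ : ℤ) : ℝ) := by
    rw [Int.toNat_of_nonneg (by linarith)]
  push_cast at h5
  have h6 : (S.card : ℝ) ≤ ((⌊c⌋ + 1 - ⌈-c⌉).toNat : ℝ) := by exact_mod_cast h2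
  have h7 := Int.floor_le c
  have h8 := Int.le_ceil (-c)
  linarith

private theorem Nd_class (X q : ℕ) (hq : 0 < q) (S : Finset ℕ) (hX : ∀ a ∈ S, a ≤ X)
    (hm : ∀ a ∈ S, ∀ b ∈ S, a % q = b % q) : S.card ≤ X / q + 1 := by
  have hinj : Set.InjOn (fun a : ℕ => a / q) S := by
    intro a ha b hb hab
    have h1 := hm a ha b hb
    have h2 := Nat.div_add_mod a q
    have h3 := Nat.div_add_mod b q
    simp only at hab
    rw [← h2, ← h3, hab, h1]
  rw [← Finset.card_image_of_injOn hinj]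
  have h4 : S.image (fun a : ℕ => a / q) ⊆ Finset.range (X / q + 1) := by
    intro y hy
    rw [Finset.mem_image] at hy
    obtain ⟨a, ha, rfl⟩ := hy
    rw [Finset.mem_range]
    exact Nat.lt_succ_of_le (Nat.div_le_div_right (hX a ha))
  have h5 := Finset.card_le_card h4
  rw [Finset.card_range] at h5
  exact h5

theorem nd_rough (P X Y : ℕ) (t φ : ℝ) (S : Finset ℕ) (hP : 1 ≤ P) (hY : 1 ≤ Y) (hX : 1 ≤ X) (ht : 0 ≤ t) (htP : 4 * t * P < 3)
    (hSX : ∀ a ∈ S, Y ≤ a ∧ a ≤ X) (hSr : ∀ a ∈ S, ∀ q : ℕ, q.Prime → q ∣ a → P < q)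
    (hSt : ∀ a ∈ S, nz (a * φ) ≤ t) (hS : 10 * t * X + 3 * X / P + 3 < S.card) : nz φ ≤ t / Y := by
  have hX0 : (0 : ℝ) < X := by exact_mod_cast hX
  have hP0 : (0 : ℝ) < P := by exact_mod_cast hP
  have hY0 : (0 : ℝ) < Y := by exact_mod_cast hY
  obtain ⟨r, hr1, hr2⟩ := Real.exists_rat_abs_sub_le_and_den_le φ (n := 4 * X) (by omega)
  set q : ℕ := r.den with hq
  have hqpos : 0 < q := r.den_pos
  have hq0 : (0 : ℝ) < q := by exact_mod_cast hqpos
  set b : ℤ := r.num with hb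
  have hrb : (r : ℝ) = (b : ℝ) / q := by
    rw [hb, hq]; exact (Rat.cast_def r)
  have hcop : IsCoprime b (q : ℤ) := by
    rw [Int.isCoprime_iff_nat_coprime]
    have := r.reduced
    simpa using this
  have hnear : ∀ a ∈ S, |(a : ℝ) * φ - (a : ℝ) * (b / q)| ≤ 1 / (4 * q) := by
    intro a ha
    have ha2 : (a : ℝ) ≤ X := by exact_mod_cast (hSX a ha).2
    rw [← mul_sub, abs_mul, Nat.abs_cast]
    have h1 : |φ - (b : ℝ) / q| ≤ 1 / ((4 * X + 1) * q) := by
      rw [← hrb]; push_cast at hr1; exact hr1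
    calc (a : ℝ) * |φ - (b : ℝ) / q| ≤ X * (1 / ((4 * X + 1) * q)) :=
          mul_le_mul ha2 h1 (abs_nonneg _) hX0.le
      _ ≤ 1 / (4 * q) := by
          rw [mul_one_div, div_le_div_iff₀ (by positivity) (by positivity)]
          nlinarith
  have hfrac : ∀ a ∈ S, nz ((a : ℝ) * (b / q)) ≤ t + 1 / (4 * q) := by
    intro a ha
    have h1 : (a : ℝ) * (b / q) = a * φ - (a * φ - a * (b / q)) := by ring
    rw [h1]
    refine (Pool.Agent.H53.MID.nz_sub _ _).trans (add_le_add (hSt a ha) ?_)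
    exact (Pool.Agent.H53.MID.nz_le_abs _).trans (hnear a ha)
  have hSne : S.Nonempty := by
    rw [← Finset.card_pos]
    have h1 : (0 : ℝ) < S.card := lt_of_le_of_lt (by positivity) hS
    exact_mod_cast h1
  rcases Nat.lt_or_ge P q with hPq | hqP
  · -- large denominators: counting
    exfalso
    have hPq' : (P : ℝ) < q := by exact_mod_cast hPq
    set f : ℕ → ℤ := fun a => (a : ℤ) * b - q * round ((a : ℝ) * (b / q)) with hf
    have hfb : ∀ a ∈ S, |((f a : ℤ) : ℝ)| ≤ t * q + 1 / 4 := by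
      intro a ha
      have h1 := hfrac a ha
      have h2 : ((f a : ℤ) : ℝ) = q * ((a : ℝ) * (b / q) - round ((a : ℝ) * (b / q))) := by
        rw [hf]; push_cast; field_simp
      rw [h2, abs_mul, Nat.abs_cast]
      have h3 : |(a : ℝ) * (b / q) - round ((a : ℝ) * (b / q))| ≤ t + 1 / (4 * q) := h1
      calc (q : ℝ) * |(a : ℝ) * (b / q) - round ((a : ℝ) * (b / q))| ≤ q * (t + 1 / (4 * q)) :=
            mul_le_mul_of_nonneg_left h3 hq0.le
        _ = t * q + 1 / 4 := by field_simp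
    have hfib : ∀ z ∈ S.image f, (S.filter (fun a => f a = z)).card ≤ X / q + 1 := by
      intro z _
      refine Nd_class X q hqpos _ (fun a ha => (hSX a (Finset.mem_filter.mp ha).1).2) ?_
      intro a ha a' ha'
      rw [Finset.mem_filter] at ha ha'
      have h1 : f a = f a' := ha.2.trans ha'.2.symm
      have h2 : (q : ℤ) ∣ ((a : ℤ) - a') * b := by
        refine ⟨round ((a : ℝ) * (b / q)) - round ((a' : ℝ) * (b / q)), ?_⟩
        simp only [hf] at h1
        linear_combination h1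
      have h3 : (q : ℤ) ∣ (a : ℤ) - a' := hcop.symm.dvd_of_dvd_mul_right h2
      have h4 : (a' : ℤ) ≡ a [ZMOD q] := (Int.modEq_iff_dvd).mpr h3
      have h5 : (a' : ℕ) ≡ a [MOD q] := (Int.natCast_modEq_iff).mp h4
      exact h5.symm
    have hc1 := Finset.card_le_mul_card_image S (X / q + 1) hfib
    have hc2 : ((S.image f).card : ℝ) ≤ 2 * (t * q + 1 / 4) + 1 := by
      refine Nd_int_card _ _ (by positivity) ?_
      intro k hk
      rw [Finset.mem_image] at hk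
      obtain ⟨a, ha, rfl⟩ := hk
      exact hfb a ha
    have hc3 : ((X / q : ℕ) : ℝ) ≤ X / q := Nat.cast_div_le
    have hc4 : (S.card : ℝ) ≤ (X / q + 1) * (2 * (t * q + 1 / 4) + 1) := by
      calc (S.card : ℝ) ≤ (((X / q : ℕ) : ℝ) + 1) * ((S.image f).card : ℝ) := by exact_mod_cast hc1
        _ ≤ (X / q + 1) * (2 * (t * q + 1 / 4) + 1) :=
            mul_le_mul (by linarith) hc2 (Nat.cast_nonneg _) (by positivity)
    have hq4 : (q : ℝ) ≤ 4 * X := by exact_mod_cast hr2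
    have e1 : ((X : ℝ) / q + 1) * (2 * (t * q + 1 / 4) + 1) = 2 * t * X + 3 / 2 * (X / q) + 2 * t * q + 3 / 2 := by
      field_simp
      ring
    have e2 : (X : ℝ) / q ≤ X / P := div_le_div_of_nonneg_left hX0.le hP0 hPq'.le
    have e3 : t * q ≤ t * (4 * X) := mul_le_mul_of_nonneg_left hq4 ht
    have e4 : 3 * (X : ℝ) / P = 3 * (X / P) := by ring
    have e5 : (0 : ℝ) ≤ X / P := by positivity
    rw [e1] at hc4
    rw [e4] at hS
    linarith
  · rcases Nat.lt_or_ge 1 q with h1q | hq1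
    · -- small denominators
      exfalso
      obtain ⟨a, ha⟩ := hSne
      have hac : Nat.Coprime a q := by
        rw [Nat.coprime_iff_gcd_eq_one]
        by_contra hne
        obtain ⟨p, hp, hpd⟩ := Nat.exists_prime_and_dvd hne
        have h1 := hSr a ha p hp (hpd.trans (Nat.gcd_dvd_left _ _))
        have h2 := Nat.le_of_dvd hqpos (hpd.trans (Nat.gcd_dvd_right _ _))
        omega
      have hnd : ¬ ((q : ℕ) : ℤ) ∣ (a : ℤ) * b := by
        intro hd
        have h1 : IsCoprime ((a : ℤ) * b) (q : ℤ) :=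
          IsCoprime.mul_left (Nat.isCoprime_iff_coprime.mpr hac) hcop
        have h2 : IsUnit ((q : ℕ) : ℤ) := h1.isUnit_of_dvd' hd (dvd_refl _)
        rw [Int.isUnit_iff_natAbs_eq, Int.natAbs_natCast] at h2
        omega
      have h1 := Pool.Agent.H53.MID.nz_frac_ge ((a : ℤ) * b) q hqpos hnd
      have h2 : (((a : ℤ) * b : ℤ) : ℝ) / q = (a : ℝ) * (b / q) := by push_cast; ring
      rw [h2] at h1
      have h3 := h1.trans (hfrac a ha)
      have h4 : 3 ≤ 4 * t * q := by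
        have h5 : 1 / (q : ℝ) - 1 / (4 * q) ≤ t := by linarith
        have h6 : 1 / (q : ℝ) - 1 / (4 * q) = 3 / (4 * q) := by field_simp; ring
        rw [h6, div_le_iff₀ (by positivity)] at h5
        linarith
      have h5 : (q : ℝ) ≤ P := by exact_mod_cast hqP
      have h6 : 4 * t * q ≤ 4 * t * P := mul_le_mul_of_nonneg_left h5 (by positivity)
      linarith
    · -- denominator one
      have hq1' : q = 1 := by omega
      obtain ⟨a, ha⟩ := hSne
      have hY' : (Y : ℝ) ≤ a := by exact_mod_cast (hSX a ha).1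
      have h1 := hnear a ha
      rw [hq1'] at h1
      have h2 : |(a : ℝ) * (φ - b)| ≤ 1 / 4 := by
        have e : (a : ℝ) * (φ - b) = a * φ - a * (b / ((1 : ℕ) : ℝ)) := by push_cast; ring
        rw [e]
        refine h1.trans ?_
        norm_num
      have h3 : nz ((a : ℝ) * φ) = |(a : ℝ) * (φ - b)| := by
        have e : (a : ℝ) * (φ - b) = a * φ - ((a * b : ℤ) : ℝ) := by push_cast; ring
        rw [← Pool.Agent.H53.MID.nz_eq_abs _ (lt_of_le_of_lt h2 (by norm_num)), e,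
          Pool.Agent.H53.MID.nz_sub_int]
      have h4 := hSt a ha
      rw [h3, abs_mul, Nat.abs_cast] at h4
      have h5 : (Y : ℝ) * |φ - b| ≤ t := (mul_le_mul_of_nonneg_right hY' (abs_nonneg _)).trans h4
      refine (Pool.Agent.H53.MID.nz_le_of φ b).trans ?_
      rw [le_div_iff₀ hY0]
      linarith

end Pool.Agent.H74.MDX

end

section

/-!
# MID GDefs: definitions for the Goldbach part

* `JJp`: mean square over short intervals in Fourier form, for `P ≥ L^b` (SP project: `jj_l`, `cor_h`, `lv`), used as a hypothesis; `JJT`, `zs` as in `H35/W/Defs.lean`;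
* `PBp`: `P/(8 log P) ≤ #pb P` for `P ≥ P0` (`Pool.Agent.H76.GB.pb_card`), used as a hypothesis;
* `badB g N H M`: blocks `i ∈ [N/(2H), 4N/H]` with `sup_α ‖Bs g H i α‖ > M`; `badT g N H Q M`: the same with `α = a/r`, `r ≤ Q`, and subintervals of the block;
* `F1 f Q J m = ∑_{j < J} Fp f (2^j Q) m`, `W1 Q J = ∑_{j<J} ∑_{p ∈ pb (2^j Q)} 1/p`, `W2 P = ∑_{p ∈ pb P} 1/p`.
-/

set_option autoImplicit false

namespace Pool.Agent.H53.MID

open Finset MeasureTheory
open Pool.Agent.H91.PK (ee)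
open Pool.Agent.H91.EHA (Lam hR lamR ramS)
open Pool.Agent.H35.W (pb pbl JJT zs)

/-- mean square of short sums, Fourier form -/
def JJp : Prop := ∀ B E : ℕ, ∃ b N0 : ℕ, ∀ N : ℕ, N0 ≤ N → ∀ (P d K1 K2 : ℕ) (c l : ℤ) (Y : ℝ),
  Real.log N ^ b ≤ P → P ^ 3 ≤ N → 1 ≤ d → (d : ℝ) ≤ Real.log N ^ B → IsCoprime c (d : ℤ) →
  N ≤ 32 * P * K1 → K1 < K2 → P * K2 ≤ 32 * N → 0 ≤ Y → P * Y ≤ 1 / Real.log N ^ (E + 13) →
    JJT (cut K1 K2 (hR ⌊Real.log N ^ (B + 1)⌋₊)) K2 (zs (pbl P d l)) ((c : ℝ) / d) 0 Y ≤ N / Real.log N ^ E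

/-- Chebyshev's lower bound -/
def PBp : Prop := ∃ P0 : ℕ, ∀ P : ℕ, P0 ≤ P → (P : ℝ) / (8 * Real.log P) ≤ ((pb P).card : ℝ)

open Classical in
/-- the blocks with a bad rational frequency and subinterval -/
noncomputable def badT (g : ℕ → ℝ) (N H : ℕ) (Q M : ℝ) : Finset ℕ :=
  (Icc (N / (2 * H)) (4 * N / H)).filter (fun i => ∃ r a y1 y2 : ℕ, 1 ≤ r ∧ (r : ℝ) ≤ Q ∧ i * H ≤ y1 ∧
    y2 ≤ (i + 1) * H ∧ M < ‖∑ m ∈ Ico y1 y2, (g m : ℂ) * ee (-(m * ((a : ℝ) / r)))‖)

/-- sum over the dyadic ranges `(2^j Q, 2^(j+1) Q]`, `j < J` -/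
noncomputable def F1 (f : ℕ → ℝ) (Q J m : ℕ) : ℝ := ∑ j ∈ range J, Fp f (2 ^ j * Q) m

noncomputable def W2 (P : ℕ) : ℝ := ∑ p ∈ pb P, 1 / (p : ℝ)

noncomputable def W1 (Q J : ℕ) : ℝ := ∑ j ∈ range J, W2 (2 ^ j * Q)

end Pool.Agent.H53.MID

end

section

/-!
# LV Tau4: the fourth moment of the divisor function and its square over sparse sets

(1) `∑_{k ≤ y} τ(k)^4 / k ≤ (1 + log y)^16`: proved in `Pool/Agent/H70/EHC/Tau.lean` as the private theorems `tau_S_succ`,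
`tau_S_pow` (copy them: `τ(mn) ≤ τ(m) τ(n)` and `∑_{m ≤ n} τ(m)^{k+1}/m ≤ (∑_{m ≤ n} τ(m)^k/m)^2`).  So
`∑_{k ≤ y} τ(k)^4 ≤ y ∑ τ(k)^4/k ≤ y (1 + log y)^16`.
(2) Cauchy-Schwarz over `S ⊆ [1,y]`: `(∑_S τ^2)^2 ≤ |S| ∑_S τ^4`.
-/

set_option autoImplicit false

namespace Pool.Agent.H80.LV

open Finset

open scoped Pointwise in
private theorem tau_mul_le (d e : ℕ) :
    (d * e).divisors.card ≤ d.divisors.card * e.divisors.card := by
  rw [Nat.divisors_mul]
  exact card_mul_le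

private noncomputable def tau_S (k n : ℕ) : ℝ := ∑ m ∈ Icc 1 n, (m.divisors.card : ℝ) ^ k / m

private theorem tau_S_nonneg (k n : ℕ) : 0 ≤ tau_S k n :=
  sum_nonneg fun _ _ => by positivity

private theorem tau_S_succ (k n : ℕ) : tau_S (k + 1) n ≤ tau_S k n ^ 2 := by
  obtain ⟨f, hf⟩ : ∃ f : ℕ × ℕ → ℝ, f = fun p => ((p.1.divisors.card : ℝ) ^ k / p.1) *
      ((p.2.divisors.card : ℝ) ^ k / p.2) := ⟨_, rfl⟩
  have hf0 : ∀ p, 0 ≤ f p := fun p => by rw [hf]; positivity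
  have h1 : tau_S k n ^ 2 = ∑ p ∈ Icc 1 n ×ˢ Icc 1 n, f p := by
    unfold tau_S
    rw [sq, sum_mul_sum, sum_product, hf]
  have h2 : ∀ m ∈ Icc 1 n, (m.divisors.card : ℝ) ^ (k + 1) / m ≤
      ∑ p ∈ ((Icc 1 n ×ˢ Icc 1 n).filter (fun p => p.1 * p.2 ∈ Icc 1 n)).filter
        (fun p => p.1 * p.2 = m), f p := by
    intro m hm
    have hm' := mem_Icc.1 hm
    have e1 : ((Icc 1 n ×ˢ Icc 1 n).filter (fun p => p.1 * p.2 ∈ Icc 1 n)).filter
        (fun p => p.1 * p.2 = m) = m.divisorsAntidiagonal := by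
      ext p
      rw [mem_filter, mem_filter, mem_product, mem_Icc, mem_Icc, Nat.mem_divisorsAntidiagonal]
      constructor
      · rintro ⟨_, h⟩
        exact ⟨h, by omega⟩
      · rintro ⟨h, _⟩
        have hp1 : 1 ≤ p.1 := Nat.one_le_iff_ne_zero.2 (by rintro h0; rw [h0, zero_mul] at h; omega)
        have hp2 : 1 ≤ p.2 := Nat.one_le_iff_ne_zero.2 (by rintro h0; rw [h0, mul_zero] at h; omega)
        have h3 : p.1 ≤ m := h ▸ Nat.le_mul_of_pos_right _ hp2
        have h4 : p.2 ≤ m := h ▸ Nat.le_mul_of_pos_left _ hp1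
        exact ⟨⟨⟨⟨hp1, by omega⟩, ⟨hp2, by omega⟩⟩, h ▸ hm⟩, h⟩
    rw [e1]
    have e2 : (m.divisors.card : ℝ) = ∑ _p ∈ m.divisorsAntidiagonal, (1:ℝ) := by
      rw [Nat.sum_divisorsAntidiagonal (fun _ _ => (1:ℝ))]
      simp
    have e3 : (m.divisors.card : ℝ) ^ (k + 1) / m =
        ∑ _p ∈ m.divisorsAntidiagonal, (m.divisors.card : ℝ) ^ k / m := by
      rw [← mul_one ((m.divisors.card : ℝ) ^ k / m), ← mul_sum, ← e2, pow_succ]
      ring
    rw [e3]
    refine sum_le_sum fun p hp => ?_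
    rw [Nat.mem_divisorsAntidiagonal] at hp
    rw [hf]
    have h5 := tau_mul_le p.1 p.2
    rw [hp.1] at h5
    have h6 : (m.divisors.card : ℝ) ≤ (p.1.divisors.card : ℝ) * (p.2.divisors.card : ℝ) := by
      exact_mod_cast h5
    have h7 : (m : ℝ) = (p.1 : ℝ) * p.2 := by rw [← hp.1]; push_cast; rfl
    show (m.divisors.card : ℝ) ^ k / m ≤ ((p.1.divisors.card : ℝ) ^ k / p.1) *
      ((p.2.divisors.card : ℝ) ^ k / p.2)
    rw [div_mul_div_comm, ← mul_pow, ← h7]
    exact div_le_div_of_nonneg_right (pow_le_pow_left₀ (by positivity) h6 k) (by positivity)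
  rw [h1]
  unfold tau_S
  calc ∑ m ∈ Icc 1 n, (m.divisors.card : ℝ) ^ (k + 1) / m
      ≤ ∑ m ∈ Icc 1 n, ∑ p ∈ ((Icc 1 n ×ˢ Icc 1 n).filter (fun p => p.1 * p.2 ∈ Icc 1 n)).filter
        (fun p => p.1 * p.2 = m), f p := sum_le_sum h2
    _ = ∑ p ∈ (Icc 1 n ×ˢ Icc 1 n).filter (fun p => p.1 * p.2 ∈ Icc 1 n), f p :=
        sum_fiberwise_of_maps_to (fun p hp => (mem_filter.1 hp).2) f
    _ ≤ ∑ p ∈ Icc 1 n ×ˢ Icc 1 n, f p :=
        sum_le_sum_of_subset_of_nonneg (filter_subset _ _) (fun p _ _ => hf0 p)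

private theorem tau_S_zero (n : ℕ) : tau_S 0 n ≤ 1 + Real.log n := by
  have h := harmonic_le_one_add_log n
  refine le_trans (le_of_eq ?_) h
  unfold tau_S
  rw [harmonic_eq_sum_Icc]
  push_cast
  refine sum_congr rfl fun m _ => ?_
  rw [pow_zero, one_div]

private theorem tau_S_pow (n k : ℕ) : tau_S k n ≤ (1 + Real.log n) ^ (2 ^ k) := by
  induction k with
  | zero => simpa using tau_S_zero n
  | succ k ih =>
    refine (tau_S_succ k n).trans ?_
    rw [pow_succ 2 k, pow_mul]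
    exact pow_le_pow_left₀ (tau_S_nonneg k n) ih 2

theorem tau4 (y : ℕ) : ∑ k ∈ Icc 1 y, (k.divisors.card : ℝ) ^ 4 ≤ y * (1 + Real.log y) ^ 16 := by
  have h := tau_S_pow y 4
  have h1 : ∑ k ∈ Icc 1 y, (k.divisors.card : ℝ) ^ 4 ≤ y * tau_S 4 y := by
    unfold tau_S
    rw [mul_sum]
    refine sum_le_sum fun m hm => ?_
    have hm' := mem_Icc.1 hm
    have hm0 : (0:ℝ) < m := by exact_mod_cast hm'.1
    have hmy : (m:ℝ) ≤ y := by exact_mod_cast hm'.2
    rw [← mul_div_assoc, le_div_iff₀ hm0, mul_comm]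
    exact mul_le_mul_of_nonneg_right hmy (by positivity)
  refine h1.trans (mul_le_mul_of_nonneg_left (h.trans (le_of_eq ?_)) (by positivity))
  norm_num

theorem tau2_sparse (y : ℕ) (S : Finset ℕ) (hS : S ⊆ Icc 1 y) :
    (∑ k ∈ S, (k.divisors.card : ℝ) ^ 2) ^ 2 ≤ S.card * (y * (1 + Real.log y) ^ 16) := by
  have h1 : (∑ k ∈ S, (k.divisors.card : ℝ) ^ 2) ^ 2 ≤
      S.card * ∑ k ∈ S, ((k.divisors.card : ℝ) ^ 2) ^ 2 := sq_sum_le_card_mul_sum_sq
  refine h1.trans (mul_le_mul_of_nonneg_left ?_ (by positivity))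
  refine le_trans ?_ (tau4 y)
  calc ∑ k ∈ S, ((k.divisors.card : ℝ) ^ 2) ^ 2 ≤ ∑ k ∈ Icc 1 y, ((k.divisors.card : ℝ) ^ 2) ^ 2 :=
        sum_le_sum_of_subset_of_nonneg hS (fun k _ _ => by positivity)
    _ = ∑ k ∈ Icc 1 y, (k.divisors.card : ℝ) ^ 4 := sum_congr rfl fun k _ => by ring

end Pool.Agent.H80.LV

end

section

/-!
# LV BoxDec: decomposition of a bilinear sum over `m n ≤ y` into boxes

Define `v 0 = U`, `v (j+1) = v j + v j / q` (natural division).  As `v j ≥ U ≥ 2 q`: `v j / q ≥ 2`, `v` is strictly increasing,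
`q * v (j+1) ≤ (q+1) * v j`, and `v (j+1) ≥ v j + v j/q - 1 ≥ v j (1 + 1/(2q))` (real division; `v j ≥ 2q`).  Let `J` be the
least `j` with `y ≤ v j`; then `v (J-1) < y` if `J ≥ 1`, `(1 + 1/(2q))^{J-1} ≤ y` (as `U ≥ 1`), and
`log(1 + 1/(2q)) ≥ 1/(4q)`, so `J ≤ 4 q log y + 1`.
`Ioc U y ⊆` the disjoint union of the `Ioc (v j) (v (j+1))`, `j < J`; the `m` with `m > y` give nothing
(`Ioc U (y/m) = ∅`, `y / m = 0`).  For `m ∈ Ioc (v j) (v (j+1))`: `y / v (j+1) ≤ y / m`, so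
`Ioc U (y/m) = Ioc U (y / v (j+1)) ∪ Ioc (max U (y / v (j+1))) (y/m)`.  The second parts are collected according to `k = m n`:
`e k = ∑ lam m * cc (k/m)` over the `m ∣ k` with `m ∈ Ioc (v j) (v (j+1))` for some `j < J`, `U < k/m`, `y / v (j+1) < k/m`, (and `k ≤ y`).
If `n > y / v (j+1)` then `n * v (j+1) > y`, so `k q = m n q ≥ n q (v j + 1) ... `: precisely
`k (q+1) = m n (q+1) > n v j (q+1) ≥ n q v (j+1) > ... ≥ q y`, i.e. `k (q+1) > q y`, so `k > y - y/(q+1)` and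
`k ∉ Ioc (y - y/q - 1) y` is impossible for such `k`.
-/

set_option autoImplicit false

namespace Pool.Agent.H80.LV

open Finset

/-- the box ends -/
private def bdv (U q : ℕ) : ℕ → ℕ
  | 0 => U
  | (j + 1) => bdv U q j + bdv U q j / q

private lemma bdv_zero (U q : ℕ) : bdv U q 0 = U := rfl

private lemma bdv_succ (U q j : ℕ) : bdv U q (j + 1) = bdv U q j + bdv U q j / q := rfl

private lemma bdv_ge (U q j : ℕ) : U ≤ bdv U q j := by
  induction j with
  | zero => exact le_refl _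
  | succ j ih =>
    rw [bdv_succ]
    exact le_trans ih (Nat.le_add_right _ _)

private lemma bdv_lt (U q j : ℕ) (hq : 1 ≤ q) (hU : 2 * q ≤ U) : bdv U q j < bdv U q (j + 1) := by
  have h1 := bdv_ge U q j
  have h2 : 1 ≤ bdv U q j / q := by
    rw [Nat.one_le_div_iff (by omega)]
    omega
  rw [bdv_succ]
  omega

private lemma bdv_mono (U q : ℕ) (hq : 1 ≤ q) (hU : 2 * q ≤ U) : StrictMono (bdv U q) :=
  strictMono_nat_of_lt_succ (fun j => bdv_lt U q j hq hU)

private lemma bdv_q (U q j : ℕ) : q * bdv U q (j + 1) ≤ (q + 1) * bdv U q j := by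
  rw [bdv_succ]
  have h := Nat.mul_div_le (bdv U q j) q
  nlinarith

private lemma bdv_grow (U q j : ℕ) (hq : 1 ≤ q) (hU : 2 * q ≤ U) :
    (1 + 1 / (2 * (q : ℝ))) ^ j ≤ (bdv U q j : ℝ) := by
  induction j with
  | zero =>
    rw [bdv_zero, pow_zero]
    have : 1 ≤ U := by omega
    exact_mod_cast this
  | succ j ih =>
    have hqp : (0 : ℝ) < q := by exact_mod_cast hq
    have h1 := bdv_ge U q j
    have h2 : 2 * (q : ℝ) ≤ (bdv U q j : ℝ) := by exact_mod_cast le_trans hU h1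
    have h3 : bdv U q j < q * (bdv U q j / q) + q := by
      have h4 := Nat.div_add_mod (bdv U q j) q
      have h5 := Nat.mod_lt (bdv U q j) (show 0 < q by omega)
      omega
    have h6 : (bdv U q j : ℝ) < q * ((bdv U q j / q : ℕ) : ℝ) + q := by exact_mod_cast h3
    rw [pow_succ, bdv_succ]
    push_cast
    have h7 : (bdv U q j : ℝ) * (1 / (2 * (q : ℝ))) ≤ ((bdv U q j / q : ℕ) : ℝ) := by
      rw [mul_one_div, div_le_iff₀ (by positivity)]
      nlinarith
    have h8 : (1 + 1 / (2 * (q : ℝ))) ^ j * (1 + 1 / (2 * (q : ℝ)))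
        ≤ (bdv U q j : ℝ) * (1 + 1 / (2 * (q : ℝ))) :=
      mul_le_mul_of_nonneg_right ih (by positivity)
    nlinarith

private lemma bdv_J (y U q J : ℕ) (hq : 1 ≤ q) (hU : 2 * q ≤ U) (hUy : U ≤ y)
    (hJ : ∀ j, j < J → bdv U q j < y) : (J : ℝ) ≤ 4 * q * Real.log y + 1 := by
  have hqp : (1 : ℝ) ≤ q := by exact_mod_cast hq
  have hy : 1 ≤ y := by omega
  have hyp : (1 : ℝ) ≤ y := by exact_mod_cast hy
  have hlog : 0 ≤ Real.log y := Real.log_nonneg hyp
  rcases Nat.eq_zero_or_pos J with h0 | h0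
  · subst h0
    push_cast
    positivity
  · have h1 := hJ (J - 1) (by omega)
    have h2 := bdv_grow U q (J - 1) hq hU
    have h3 : (1 + 1 / (2 * (q : ℝ))) ^ (J - 1) ≤ (y : ℝ) :=
      le_trans h2 (by exact_mod_cast h1.le)
    have h4 : ((J - 1 : ℕ) : ℝ) * Real.log (1 + 1 / (2 * (q : ℝ))) ≤ Real.log y := by
      rw [← Real.log_pow]
      exact Real.log_le_log (by positivity) h3
    have h5 : 1 / (4 * (q : ℝ)) ≤ Real.log (1 + 1 / (2 * (q : ℝ))) := by
      have h6 := Real.one_sub_inv_le_log_of_pos (show (0 : ℝ) < 1 + 1 / (2 * (q : ℝ)) by positivity)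
      refine le_trans ?_ h6
      have h7 : 1 - (1 + 1 / (2 * (q : ℝ)))⁻¹ = 1 / (2 * q + 1) := by
        field_simp
        ring
      rw [h7]
      apply one_div_le_one_div_of_le (by positivity)
      linarith
    have h8 : ((J - 1 : ℕ) : ℝ) = (J : ℝ) - 1 := by
      rw [Nat.cast_sub (by omega)]
      push_cast
      ring
    have h9 : ((J - 1 : ℕ) : ℝ) * (1 / (4 * (q : ℝ))) ≤ Real.log y :=
      le_trans (mul_le_mul_of_nonneg_left h5 (by positivity)) h4
    rw [mul_one_div, div_le_iff₀ (by positivity), h8] at h9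
    linarith

private lemma bd_sum {R : Type*} [AddCommMonoid R] (v : ℕ → ℕ) (hv : Monotone v) (J : ℕ) (F : ℕ → R) :
    ∑ j ∈ range J, ∑ m ∈ Ioc (v j) (v (j + 1)), F m = ∑ m ∈ Ioc (v 0) (v J), F m := by
  induction J with
  | zero => simp
  | succ J ih =>
    rw [sum_range_succ, ih]
    exact Finset.sum_Ioc_consecutive F (hv (Nat.zero_le J)) (hv (Nat.le_succ J))

private lemma bd_one (S : Finset ℕ) (m k : ℕ) (hm : 1 ≤ m) (hS : ∀ n ∈ S, 1 ≤ n) (a : ℝ) (c : ℕ → ℝ) :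
    |∑ n ∈ S, (if m * n = k then a * c n else 0)| ≤ if m ∈ k.divisors then |a| * |c (k / m)| else 0 := by
  by_cases hex : ∃ n ∈ S, m * n = k
  · obtain ⟨n, hn, hk⟩ := hex
    have h1 : ∑ n' ∈ S, (if m * n' = k then a * c n' else 0) = a * c n := by
      rw [Finset.sum_eq_single_of_mem n hn]
      · rw [if_pos hk]
      · intro b _ hbn
        rw [if_neg]
        intro h
        apply hbn
        exact Nat.eq_of_mul_eq_mul_left (by omega) (h.trans hk.symm)
    have hn1 := hS n hn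
    have hmk : m ∈ k.divisors := by
      rw [Nat.mem_divisors]
      refine ⟨⟨n, hk.symm⟩, ?_⟩
      rw [← hk]
      exact Nat.mul_ne_zero (by omega) (by omega)
    have hkm : k / m = n := by
      rw [← hk]
      exact Nat.mul_div_cancel_left n (by omega)
    rw [h1, if_pos hmk, hkm, abs_mul]
  · have h1 : ∑ n' ∈ S, (if m * n' = k then a * c n' else 0) = 0 := by
      apply Finset.sum_eq_zero
      intro n hn
      rw [if_neg]
      intro h
      exact hex ⟨n, hn, h⟩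
    rw [h1, abs_zero]
    split_ifs
    · positivity
    · exact le_refl _

theorem box_dec (y U q : ℕ) (hq : 1 ≤ q) (hU : 2 * q ≤ U) (hUy : U ≤ y) (lam cc : ℕ → ℝ) :
    ∃ (J : ℕ) (v : ℕ → ℕ) (e : ℕ → ℝ), (J : ℝ) ≤ 4 * q * Real.log y + 1 ∧
      (∀ j, U ≤ v j) ∧ (∀ j, v j < v (j + 1)) ∧ (∀ j, j < J → v (j + 1) ≤ 2 * y) ∧
      (∀ k, |e k| ≤ ∑ m ∈ k.divisors, |lam m| * |cc (k / m)|) ∧
      (∀ k, k ∉ Ioc (y - y / q - 1) y → e k = 0) ∧
      ∀ g : ℕ → ℂ, ∑ m ∈ Ioc U y, ((lam m : ℝ) : ℂ) *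
          ∑ n ∈ Ioc U (y / m), ((cc n : ℝ) : ℂ) * g (m * n)
        = ∑ j ∈ range J, ∑ m ∈ Ioc (v j) (v (j + 1)), ((lam m : ℝ) : ℂ) *
            ∑ n ∈ Ioc U (y / v (j + 1)), ((cc n : ℝ) : ℂ) * g (m * n)
          + ∑ k ∈ Icc 1 y, ((e k : ℝ) : ℂ) * g k := by
  classical
  have hsm := bdv_mono U q hq hU
  have hex : ∃ j, y ≤ bdv U q j := ⟨y, hsm.le_apply⟩
  set J := Nat.find hex with hJdef
  have hJ1 : y ≤ bdv U q J := Nat.find_spec hex
  have hJ2 : ∀ j, j < J → bdv U q j < y := by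
    intro j hj
    have := Nat.find_min hex hj
    omega
  set v := bdv U q with hvdef
  have hU1 : 1 ≤ U := by omega
  have hvpos : ∀ j, 1 ≤ v j := fun j => le_trans hU1 (bdv_ge U q j)
  refine ⟨J, v, fun k => ∑ j ∈ range J, ∑ m ∈ Ioc (v j) (v (j + 1)),
    ∑ n ∈ Ioc (max U (y / v (j + 1))) (y / m), (if m * n = k then lam m * cc n else 0),
    bdv_J y U q J hq hU hUy hJ2, bdv_ge U q, fun j => bdv_lt U q j hq hU, ?_, ?_, ?_, ?_⟩
  · intro j hj
    have h1 := hJ2 j hj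
    have h2 : v (j + 1) = v j + v j / q := bdv_succ U q j
    have h3 : v j / q ≤ v j := Nat.div_le_self _ _
    rw [h2]
    omega
  · intro k
    have hterm : ∀ j m, m ∈ Ioc (v j) (v (j + 1)) →
        |∑ n ∈ Ioc (max U (y / v (j + 1))) (y / m), (if m * n = k then lam m * cc n else 0)|
          ≤ if m ∈ k.divisors then |lam m| * |cc (k / m)| else 0 := by
      intro j m hm
      rw [mem_Ioc] at hm
      apply bd_one _ _ _ (by omega)
      intro n hn
      rw [mem_Ioc] at hn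
      omega
    calc |∑ j ∈ range J, ∑ m ∈ Ioc (v j) (v (j + 1)),
            ∑ n ∈ Ioc (max U (y / v (j + 1))) (y / m), (if m * n = k then lam m * cc n else 0)|
        ≤ ∑ j ∈ range J, ∑ m ∈ Ioc (v j) (v (j + 1)),
            (if m ∈ k.divisors then |lam m| * |cc (k / m)| else 0) := by
          refine le_trans (Finset.abs_sum_le_sum_abs _ _) (Finset.sum_le_sum fun j _ => ?_)
          exact le_trans (Finset.abs_sum_le_sum_abs _ _)
            (Finset.sum_le_sum fun m hm => hterm j m hm)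
      _ = ∑ m ∈ Ioc (v 0) (v J), (if m ∈ k.divisors then |lam m| * |cc (k / m)| else 0) :=
          bd_sum v hsm.monotone J _
      _ = ∑ m ∈ (Ioc (v 0) (v J)).filter (fun m => m ∈ k.divisors), |lam m| * |cc (k / m)| := by
          rw [Finset.sum_filter]
      _ ≤ ∑ m ∈ k.divisors, |lam m| * |cc (k / m)| := by
          apply Finset.sum_le_sum_of_subset_of_nonneg
          · intro m hm
            exact (Finset.mem_filter.1 hm).2
          · intro m _ _
            positivity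
  · intro k hk
    apply Finset.sum_eq_zero
    intro j _
    apply Finset.sum_eq_zero
    intro m hm
    apply Finset.sum_eq_zero
    intro n hn
    rw [if_neg]
    intro hmn
    apply hk
    rw [mem_Ioc] at hm hn ⊢
    have hvj := hvpos (j + 1)
    have hvj0 := hvpos j
    have hm1 : 1 ≤ m := by omega
    have hn1 : 1 ≤ n := by omega
    have hky : k ≤ y := by
      rw [← hmn, mul_comm]
      exact (Nat.le_div_iff_mul_le (by omega)).1 hn.2
    refine ⟨?_, hky⟩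
    by_contra hcon
    have hk1 : 1 ≤ k := by
      rw [← hmn]
      exact Nat.mul_pos (by omega) (by omega)
    have h1 : k + y / q + 1 ≤ y := by omega
    have h2 : y < q * (y / q) + q := by
      have h4 := Nat.div_add_mod y q
      have h5 := Nat.mod_lt y (show 0 < q by omega)
      omega
    have h3 : q * k + y < q * y := by
      have h4 : q * (k + y / q + 1) ≤ q * y := Nat.mul_le_mul_left q h1
      have h5 : q * (k + y / q + 1) = q * k + q * (y / q) + q := by ring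
      omega
    have h6 : y < n * v (j + 1) := by
      have h7 : y / v (j + 1) < n := lt_of_le_of_lt (le_max_right _ _) hn.1
      exact (Nat.div_lt_iff_lt_mul (by omega)).1 h7
    have h8 : q * v (j + 1) ≤ (q + 1) * v j := bdv_q U q j
    have h9 : q * y ≤ q * (n * v (j + 1)) := Nat.mul_le_mul_left q h6.le
    have h10 : n * (q * v (j + 1)) ≤ n * ((q + 1) * v j) := Nat.mul_le_mul_left n h8
    have h11 : n * (q + 1) * v j ≤ n * (q + 1) * m := Nat.mul_le_mul_left _ hm.1.le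
    have h12 : n * (q + 1) * m = q * k + k := by
      rw [← hmn]
      ring
    have h13 : q * (n * v (j + 1)) = n * (q * v (j + 1)) := by ring
    have h14 : n * ((q + 1) * v j) = n * (q + 1) * v j := by ring
    omega
  · intro g
    have hext : ∑ m ∈ Ioc U y, ((lam m : ℝ) : ℂ) *
          ∑ n ∈ Ioc U (y / m), ((cc n : ℝ) : ℂ) * g (m * n)
        = ∑ m ∈ Ioc (v 0) (v J), ((lam m : ℝ) : ℂ) *
          ∑ n ∈ Ioc U (y / m), ((cc n : ℝ) : ℂ) * g (m * n) := by
      apply Finset.sum_subset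
      · intro m hm
        rw [mem_Ioc] at hm ⊢
        have h0 : v 0 = U := rfl
        rw [h0]
        omega
      · intro m hm hm2
        rw [mem_Ioc] at hm hm2
        have h0 : v 0 = U := rfl
        rw [h0] at hm
        have hmy : y < m := by
          by_contra hc
          exact hm2 ⟨hm.1, by omega⟩
        rw [Nat.div_eq_of_lt hmy]
        rw [Finset.Ioc_eq_empty (by omega)]
        simp
    rw [hext, ← bd_sum v hsm.monotone J]
    have hsplit : ∀ j m, m ∈ Ioc (v j) (v (j + 1)) →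
        ((lam m : ℝ) : ℂ) * ∑ n ∈ Ioc U (y / m), ((cc n : ℝ) : ℂ) * g (m * n)
          = ((lam m : ℝ) : ℂ) * ∑ n ∈ Ioc U (y / v (j + 1)), ((cc n : ℝ) : ℂ) * g (m * n)
            + ∑ n ∈ Ioc (max U (y / v (j + 1))) (y / m),
                ((lam m : ℝ) : ℂ) * (((cc n : ℝ) : ℂ) * g (m * n)) := by
      intro j m hm
      rw [mem_Ioc] at hm
      have hvj0 := hvpos j
      have hle : y / v (j + 1) ≤ y / m := Nat.div_le_div_left hm.2 (by omega)
      rw [← Finset.mul_sum, ← mul_add]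
      congr 1
      by_cases hc : U ≤ y / v (j + 1)
      · rw [max_eq_right hc]
        exact (Finset.sum_Ioc_consecutive _ hc hle).symm
      · rw [max_eq_left (by omega)]
        rw [Finset.Ioc_eq_empty (show ¬ U < y / v (j + 1) by omega)]
        simp
    rw [Finset.sum_congr rfl fun j _ => Finset.sum_congr rfl fun m hm => hsplit j m hm]
    simp only [Finset.sum_add_distrib]
    congr 1
    have hk : ∀ k, (((∑ j ∈ range J, ∑ m ∈ Ioc (v j) (v (j + 1)),
        ∑ n ∈ Ioc (max U (y / v (j + 1))) (y / m), (if m * n = k then lam m * cc n else 0) : ℝ)) : ℂ) * g k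
        = ∑ j ∈ range J, ∑ m ∈ Ioc (v j) (v (j + 1)),
          ∑ n ∈ Ioc (max U (y / v (j + 1))) (y / m),
            (if m * n = k then ((lam m : ℝ) : ℂ) * (((cc n : ℝ) : ℂ) * g (m * n)) else 0) := by
      intro k
      push_cast
      rw [Finset.sum_mul]
      refine Finset.sum_congr rfl fun j _ => ?_
      rw [Finset.sum_mul]
      refine Finset.sum_congr rfl fun m _ => ?_
      rw [Finset.sum_mul]
      refine Finset.sum_congr rfl fun n _ => ?_
      split_ifs with h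
      · rw [← h]
        push_cast
        ring
      · rw [Complex.ofReal_zero, zero_mul]
    rw [Finset.sum_congr rfl fun k _ => hk k]
    rw [Finset.sum_comm]
    refine Finset.sum_congr rfl fun j _ => ?_
    rw [Finset.sum_comm]
    refine Finset.sum_congr rfl fun m hm => ?_
    rw [Finset.sum_comm]
    refine Finset.sum_congr rfl fun n hn => ?_
    rw [mem_Ioc] at hm hn
    have hvj0 := hvpos j
    have hmem : m * n ∈ Icc 1 y := by
      rw [mem_Icc]
      constructor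
      · exact Nat.mul_pos (by omega) (by omega)
      · rw [mul_comm]
        exact (Nat.le_div_iff_mul_le (by omega)).1 hn.2
    rw [Finset.sum_ite_eq, if_pos hmem]

end Pool.Agent.H80.LV

end

section

/-!
PK Msq: mean squares of the type II coefficients.

* `sum_moebius_coprime`: for y ≥ 1, g ≥ 1: |∑_{e ≤ y, (e,g)=1} μ(e)/e| ≤ 1.
  Proof: y ∑ μ(e)/e = ∑ μ(e) floor(y/e) + ∑ μ(e) frac(y/e), and ∑_{e ≤ y,(e,g)=1} μ(e) floor(y/e)
   = ∑_{n ≤ y} ∑_{e | n, (e,g)=1} μ(e) = κ := #{n ≤ y : every prime factor of n divides g} ≥ 1 (n = 1).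
  The fractional parts are in [0,1) and 0 for e = 1; the e > 1 coprime to g are not counted in κ, so
   κ + #{2 ≤ e ≤ y, (e,g)=1} ≤ y, hence |y ∑ μ(e)/e| ≤ y.
* `cV_sq_large`: for n ≥ 2, cV V n = - ∑_{d | n, d ≤ V} μ(d).  ∑_{n ≤ Y} (∑_{d|n,d≤V} μ(d))²
   = ∑_{d1,d2 ≤ V} μ(d1)μ(d2) floor(Y/[d1,d2]) ≤ Y ∑ μ(d1)μ(d2)/[d1,d2] + V², and
   ∑_{d1,d2≤V} μμ/[d1,d2] = ∑_{g ≤ V} φ(g) (∑_{d ≤ V, g | d} μ(d)/d)²   ((d1,d2) = ∑_{g | d1, g | d2} φ(g)), and for
   squarefree g, ∑_{d≤V, g|d} μ(d)/d = (μ(g)/g) ∑_{e ≤ V/g, (e,g)=1} μ(e)/e (0 if g is not squarefree), so the sum is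
   ≤ ∑_{g≤V} φ(g)/g² ≤ ∑_{g ≤ V} 1/g ≤ log V + 1.   With V² ≤ Y: total ≤ Y (log V + 2).
* `cV_sq_all`: |cV V n| ≤ τ(n), and ∑_{n≤Y} τ(n)² ≤ Y (log Y + 1)³:
   ∑_{n≤Y} τ(n)² = ∑_{n} ∑_{d m = n} τ(dm) ≤ ∑_{d≤Y} τ(d) ∑_{m ≤ Y/d} τ(m) ≤ ∑_d τ(d) (Y/d)(1+log Y)
   ≤ Y (1+log Y) (∑_{a≤Y} 1/a)².
* `Lam_sq`: ∑_{M<m≤2M} Λ(m)² ≤ log(2M) ψ(2M) ≤ log(2M) (log 3) 2M  (`Pool.Agent.H91.Gold.psi_le_log_three`),
   log 3 ≤ 1.0987 (`Pool.Agent.H91.Gold.log_three_bounds`).
-/

set_option autoImplicit false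

namespace Pool.Agent.H91.PK

open Finset ArithmeticFunction

theorem Msq_abs_moebius (e : ℕ) : |(moebius e : ℝ)| ≤ 1 := by
  have := @abs_moebius_le_one e
  have h2 : ((|moebius e| : ℤ) : ℝ) ≤ ((1 : ℤ) : ℝ) := by exact_mod_cast this
  simpa using h2

theorem Msq_harmonic (n : ℕ) : ∑ g ∈ Icc 1 n, (1 : ℝ) / g ≤ 1 + Real.log n := by
  have h := harmonic_le_one_add_log n
  rw [harmonic_eq_sum_Icc] at h
  push_cast at h
  simpa [one_div] using h

/-- reorganising a double sum -/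
theorem Msq_sum_divisors (Y : ℕ) (f : ℕ → ℕ → ℝ) :
    ∑ n ∈ Icc 1 Y, ∑ d ∈ n.divisors, f d (n / d) =
      ∑ d ∈ Icc 1 Y, ∑ m ∈ Icc 1 (Y / d), f d m := by
  rw [Finset.sum_sigma', Finset.sum_sigma']
  refine Finset.sum_nbij' (fun x => ⟨x.2, x.1 / x.2⟩) (fun x => ⟨x.1 * x.2, x.1⟩) ?_ ?_ ?_ ?_ ?_
  · rintro ⟨n, d⟩ hx
    simp only [mem_sigma, mem_Icc, Nat.mem_divisors] at hx ⊢
    obtain ⟨⟨h1, h2⟩, h3, -⟩ := hx
    have hd : 0 < d := Nat.pos_of_dvd_of_pos h3 h1
    exact ⟨⟨hd, (Nat.le_of_dvd h1 h3).trans h2⟩, Nat.div_pos (Nat.le_of_dvd h1 h3) hd,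
      Nat.div_le_div_right h2⟩
  · rintro ⟨d, m⟩ hx
    simp only [mem_sigma, mem_Icc, Nat.mem_divisors] at hx ⊢
    obtain ⟨⟨h1, h2⟩, h3, h4⟩ := hx
    have h5 : d * m ≤ Y := by
      calc d * m ≤ d * (Y / d) := Nat.mul_le_mul_left _ h4
        _ ≤ Y := Nat.mul_div_le _ _
    have h6 : 0 < d * m := Nat.mul_pos h1 h3
    exact ⟨⟨h6, h5⟩, dvd_mul_right _ _, h6.ne'⟩
  · rintro ⟨n, d⟩ hx
    simp only [mem_sigma, mem_Icc, Nat.mem_divisors] at hx ⊢
    rw [Nat.mul_div_cancel' hx.2.1]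
  · rintro ⟨d, m⟩ hx
    simp only [mem_sigma, mem_Icc] at hx ⊢
    rw [Nat.mul_div_cancel_left m hx.1.1]
  · rintro ⟨n, d⟩ _
    rfl

theorem Msq_tau_sum (x : ℕ) :
    ∑ m ∈ Icc 1 x, (m.divisors.card : ℝ) ≤ x * (1 + Real.log x) := by
  have h1 : ∑ m ∈ Icc 1 x, (m.divisors.card : ℝ) = ∑ d ∈ Icc 1 x, ((x / d : ℕ) : ℝ) := by
    have := Msq_sum_divisors x (fun _ _ => (1 : ℝ))
    simpa using this
  rw [h1]
  calc ∑ d ∈ Icc 1 x, ((x / d : ℕ) : ℝ) ≤ ∑ d ∈ Icc 1 x, (x : ℝ) * (1 / d) := by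
        apply sum_le_sum
        intro d _
        have : ((x / d : ℕ) : ℝ) ≤ (x : ℝ) / d := Nat.cast_div_le
        rwa [mul_one_div]
    _ = x * ∑ d ∈ Icc 1 x, (1 : ℝ) / d := by rw [mul_sum]
    _ ≤ x * (1 + Real.log x) :=
        mul_le_mul_of_nonneg_left (Msq_harmonic x) (Nat.cast_nonneg _)

theorem Msq_tau_sq (Y : ℕ) (hY : 1 ≤ Y) :
    ∑ n ∈ Icc 1 Y, (n.divisors.card : ℝ) ^ 2 ≤ Y * (Real.log Y + 1) ^ 3 := by
  have hlog : 0 ≤ Real.log Y := Real.log_natCast_nonneg Y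
  have hY0 : (0 : ℝ) < Y := by exact_mod_cast hY
  calc ∑ n ∈ Icc 1 Y, (n.divisors.card : ℝ) ^ 2
      ≤ ∑ n ∈ Icc 1 Y, ∑ d ∈ n.divisors, (d.divisors.card : ℝ) * ((n / d).divisors.card : ℝ) := by
        apply sum_le_sum
        intro n hn
        have h1 : (n.divisors.card : ℝ) ^ 2 = ∑ d ∈ n.divisors, (n.divisors.card : ℝ) := by
          rw [sum_const, nsmul_eq_mul, pow_two]
        rw [h1]
        apply sum_le_sum
        intro d hd
        rw [Nat.mem_divisors] at hd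
        have h2 : n.divisors.card ≤ d.divisors.card * (n / d).divisors.card := by
          conv_lhs => rw [← Nat.mul_div_cancel' hd.1]
          rw [Nat.divisors_mul]
          exact card_mul_le
        exact_mod_cast h2
    _ = ∑ d ∈ Icc 1 Y, ∑ m ∈ Icc 1 (Y / d), (d.divisors.card : ℝ) * (m.divisors.card : ℝ) :=
        Msq_sum_divisors Y (fun d m => (d.divisors.card : ℝ) * (m.divisors.card : ℝ))
    _ ≤ ∑ d ∈ Icc 1 Y, (d.divisors.card : ℝ) * ((Y : ℝ) / d * (1 + Real.log Y)) := by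
        apply sum_le_sum
        intro d hd
        rw [mem_Icc] at hd
        rw [← mul_sum]
        apply mul_le_mul_of_nonneg_left _ (Nat.cast_nonneg _)
        have hd0 : (0 : ℝ) < d := by exact_mod_cast hd.1
        have h1 := Msq_tau_sum (Y / d)
        have h2 : ((Y / d : ℕ) : ℝ) ≤ (Y : ℝ) / d := Nat.cast_div_le
        have h3 : 1 ≤ Y / d := Nat.div_pos hd.2 hd.1
        have h4 : Real.log ((Y / d : ℕ) : ℝ) ≤ Real.log Y := by
          apply Real.log_le_log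
          · exact_mod_cast h3
          · exact_mod_cast Nat.div_le_self Y d
        refine h1.trans ?_
        apply mul_le_mul h2 (by linarith) _ (by positivity)
        have : 0 ≤ Real.log ((Y / d : ℕ) : ℝ) := Real.log_natCast_nonneg _
        linarith
    _ = Y * (1 + Real.log Y) * ∑ d ∈ Icc 1 Y, (d.divisors.card : ℝ) * (1 / d) := by
        rw [mul_sum]
        apply sum_congr rfl
        intro d _
        ring
    _ ≤ Y * (1 + Real.log Y) * (1 + Real.log Y) ^ 2 := by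
        apply mul_le_mul_of_nonneg_left _ (by positivity)
        have h1 : ∑ d ∈ Icc 1 Y, (d.divisors.card : ℝ) * (1 / d) =
            ∑ a ∈ Icc 1 Y, ∑ b ∈ Icc 1 (Y / a), (1 : ℝ) / a * (1 / b) := by
          rw [← Msq_sum_divisors Y (fun a b => (1 : ℝ) / a * (1 / b))]
          apply sum_congr rfl
          intro n hn
          rw [mem_Icc] at hn
          rw [← nsmul_eq_mul, ← sum_const]
          apply sum_congr rfl
          intro d hd
          rw [Nat.mem_divisors] at hd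
          have hd0 : d ≠ 0 := fun h => by
            rw [h] at hd
            exact hd.2 (Nat.eq_zero_of_zero_dvd hd.1)
          have h5 : (d : ℝ) * ((n / d : ℕ) : ℝ) = n := by
            exact_mod_cast Nat.mul_div_cancel' hd.1
          rw [div_mul_div_comm, one_mul, h5]
        rw [h1]
        calc ∑ a ∈ Icc 1 Y, ∑ b ∈ Icc 1 (Y / a), (1 : ℝ) / a * (1 / b)
            ≤ ∑ a ∈ Icc 1 Y, ∑ b ∈ Icc 1 Y, (1 : ℝ) / a * (1 / b) := by
              apply sum_le_sum
              intro a _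
              apply sum_le_sum_of_subset_of_nonneg
              · exact Icc_subset_Icc_right (Nat.div_le_self _ _)
              · intro b _ _
                positivity
          _ = (∑ a ∈ Icc 1 Y, (1 : ℝ) / a) ^ 2 := by
              rw [pow_two, sum_mul_sum]
          _ ≤ (1 + Real.log Y) ^ 2 := by
              apply pow_le_pow_left₀ _ (Msq_harmonic Y)
              apply sum_nonneg
              intro a _
              positivity
    _ = Y * (Real.log Y + 1) ^ 3 := by ring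

theorem cV_sq_all (V Y : ℕ) (hV : 1 ≤ V) (hY : 1 ≤ Y) :
    ∑ n ∈ Ioc V Y, (cV V n) ^ 2 ≤ Y * (Real.log Y + 1) ^ 3 := by
  refine le_trans ?_ (Msq_tau_sq Y hY)
  calc ∑ n ∈ Ioc V Y, (cV V n) ^ 2 ≤ ∑ n ∈ Ioc V Y, (n.divisors.card : ℝ) ^ 2 := by
        apply sum_le_sum
        intro n _
        rw [← sq_abs]
        apply pow_le_pow_left₀ (abs_nonneg _)
        unfold cV
        refine (abs_sum_le_sum_abs _ _).trans ?_
        calc ∑ d ∈ n.divisors.filter (fun d => V < d), |(moebius d : ℝ)|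
            ≤ ∑ d ∈ n.divisors.filter (fun d => V < d), (1 : ℝ) :=
              sum_le_sum fun d _ => Msq_abs_moebius d
          _ ≤ n.divisors.card := by
              rw [sum_const, nsmul_eq_mul, mul_one]
              exact_mod_cast card_filter_le _ _
    _ ≤ ∑ n ∈ Icc 1 Y, (n.divisors.card : ℝ) ^ 2 := by
        apply sum_le_sum_of_subset_of_nonneg
        · intro n hn
          rw [mem_Ioc] at hn
          rw [mem_Icc]
          omega
        · intro n _ _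
          positivity

end Pool.Agent.H91.PK

end
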