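import Pool.Agent.H43.PM.M02
import Pool.Agent.H43.PM.M04

/-! The parts of this file: H91.PK.LSa, H53.MID.Mvt, H92.EH.Dual, H92.EH.Ramanujan, H76.EHB.HRe, H76.EHB.Planch, H97.VK.VDefs, H76.EHB.Lap, H76.EHB.Vdc1, H53.MID.Plw, H53.MID.Fac. -/

section

/-!
PK LSa: the additive large sieve for Farey fractions (Gallagher's constant).

`∑_{r ≤ R} ∑_{b mod r, (b,r)=1} |∑_{K0 < n ≤ K0+K} a_n e(n b / r)|² ≤ (R² + π K) ∑ |a_n|²`.

Proof. If K = 0 both sides are 0 (resp. 0 ≤ ...).  Let c = K0 + (K+1)/2 (real) and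
  S(α) = ∑_{K0<n≤K0+K} a_n e(n α),  S₁(α) = ∑ a_n e((n - c) α);  |S₁| = |S|.
Sobolev-Gallagher: for a C¹ function F : ℝ → ℂ, α real and δ > 0,
  |F(α)|² ≤ (1/δ) ∫_{α-δ/2}^{α+δ/2} |F|² + ∫_{α-δ/2}^{α+δ/2} |F| |F'|.
  [g = |F|² (or normSq F) is C¹ with |g'| ≤ 2 |F||F'|; for t in the interval g(α) ≤ g(t) + ∫ |g'| over the
   part between t and α; averaging over t gives g(α) ≤ (1/δ)∫ g + (1/2)∫|g'| (the factor 1/2: for u in the right half
   the set of t beyond u has measure ≤ δ/2) .]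
Apply it with F = S₁, δ = 1/R².  The points b/r (1 ≤ b ≤ r ≤ R, (b,r) = 1) lie in [1/R, 1], distinct ones differ by
 at least 1/(r r') ≥ 1/R² = δ, so the open intervals (b/r - δ/2, b/r + δ/2) are disjoint and contained in
 [δ/2, 1 + δ/2] (1/R ≥ δ).  Summing: ∑ |S(b/r)|² ≤ R² ∫_{δ/2}^{1+δ/2} |S₁|² + ∫_{δ/2}^{1+δ/2} |S₁||S₁'|
  ≤ R² ‖S‖² + ‖S₁‖ ‖S₁'‖ (Cauchy-Schwarz for integrals) where over any interval of length one
  ∫|S₁|² = ∑|a_n|² and ∫|S₁'|² = ∑ |2π(n-c)|² |a_n|² ≤ (π K)² ∑|a_n|²  (|n - c| ≤ (K-1)/2).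
  (Orthogonality: ∫ over an interval of length 1 of e((n-m) t) is 1 if n = m and 0 otherwise; the phases e(-c α)
   cancel in |S₁|² and one can write S₁' = e(-cα) ∑ 2πi(n-c) a_n e(nα).)
-/

set_option autoImplicit false

namespace Pool.Agent.H91.PK

open Finset MeasureTheory intervalIntegral

/-- Sobolev-Gallagher inequality, real version. -/
theorem LSa_sobolev (g g' : ℝ → ℝ) (hg : ∀ t, HasDerivAt g (g' t) t) (hc : Continuous g')
    (α h : ℝ) (hh : 0 < h) :
    2 * h * g α ≤ ∫ t in (α - h)..(α + h), (g t + h * |g' t|) := by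
  have hgc : Continuous g := continuous_iff_continuousAt.2 fun t => (hg t).continuousAt
  have i1 : ∀ a b : ℝ, IntervalIntegrable g volume a b := fun a b => hgc.intervalIntegrable a b
  have i2 : ∀ a b : ℝ, IntervalIntegrable g' volume a b := fun a b => hc.intervalIntegrable a b
  have e1 : ∫ t in (α - h)..α, (t - (α - h)) * g' t
      = h * g α - ∫ t in (α - h)..α, g t := by
    have := integral_mul_deriv_eq_deriv_mul (a := α - h) (b := α) (u := fun t => t - (α - h))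
      (u' := fun _ => 1) (v := g) (v' := g') (fun t _ => by simpa using (hasDerivAt_id t).sub_const (α - h))
      (fun t _ => hg t) (continuous_const.intervalIntegrable _ _) (i2 _ _)
    rw [this]
    simp
  have e2 : ∫ t in α..(α + h), (t - (α + h)) * g' t
      = h * g α - ∫ t in α..(α + h), g t := by
    have := integral_mul_deriv_eq_deriv_mul (a := α) (b := α + h) (u := fun t => t - (α + h))
      (u' := fun _ => 1) (v := g) (v' := g') (fun t _ => by simpa using (hasDerivAt_id t).sub_const (α + h))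
      (fun t _ => hg t) (continuous_const.intervalIntegrable _ _) (i2 _ _)
    rw [this]
    simp
  have b1 : ∫ t in (α - h)..α, (t - (α - h)) * g' t ≤ ∫ t in (α - h)..α, h * |g' t| := by
    apply integral_mono_on (by linarith)
    · exact ((continuous_id.sub continuous_const).mul hc).intervalIntegrable _ _
    · exact (continuous_const.mul hc.abs).intervalIntegrable _ _
    · intro t ht
      have h1 : 0 ≤ t - (α - h) := by linarith [ht.1]
      have h2 : t - (α - h) ≤ h := by linarith [ht.2]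
      calc (t - (α - h)) * g' t ≤ (t - (α - h)) * |g' t| :=
            mul_le_mul_of_nonneg_left (le_abs_self _) h1
        _ ≤ h * |g' t| := mul_le_mul_of_nonneg_right h2 (abs_nonneg _)
  have b2 : ∫ t in α..(α + h), (t - (α + h)) * g' t ≤ ∫ t in α..(α + h), h * |g' t| := by
    apply integral_mono_on (by linarith)
    · exact ((continuous_id.sub continuous_const).mul hc).intervalIntegrable _ _
    · exact (continuous_const.mul hc.abs).intervalIntegrable _ _
    · intro t ht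
      have h1 : 0 ≤ (α + h) - t := by linarith [ht.2]
      have h2 : (α + h) - t ≤ h := by linarith [ht.1]
      calc (t - (α + h)) * g' t = ((α + h) - t) * (- g' t) := by ring
        _ ≤ ((α + h) - t) * |g' t| := mul_le_mul_of_nonneg_left (neg_le_abs _) h1
        _ ≤ h * |g' t| := mul_le_mul_of_nonneg_right h2 (abs_nonneg _)
  have s1 : ∫ t in (α - h)..(α + h), (g t + h * |g' t|)
      = (∫ t in (α - h)..α, g t) + (∫ t in α..(α + h), g t)
        + ((∫ t in (α - h)..α, h * |g' t|) + ∫ t in α..(α + h), h * |g' t|) := by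
    have j : ∀ a b : ℝ, IntervalIntegrable (fun t => h * |g' t|) volume a b :=
      fun a b => (continuous_const.mul hc.abs).intervalIntegrable a b
    rw [integral_add (i1 _ _) (j _ _), ← integral_add_adjacent_intervals (i1 _ α) (i1 α _),
      ← integral_add_adjacent_intervals (j _ α) (j α _)]
  rw [s1]
  linarith

/-- Sum over well spaced points. -/
theorem LSa_sum {ι : Type*} (J : Finset ι) (α : ι → ℝ) (δ x0 x1 : ℝ) (hδ : 0 < δ)
    (g g' : ℝ → ℝ) (hg : ∀ t, HasDerivAt g (g' t) t) (hc : Continuous g') (hg0 : ∀ t, 0 ≤ g t)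
    (h0 : ∀ j ∈ J, x0 ≤ α j - δ / 2) (h1 : ∀ j ∈ J, α j + δ / 2 ≤ x1) (hx : x0 ≤ x1)
    (hsep : ∀ i ∈ J, ∀ j ∈ J, i ≠ j → δ ≤ |α i - α j|) :
    δ * ∑ j ∈ J, g (α j) ≤ ∫ t in x0..x1, (g t + δ / 2 * |g' t|) := by
  have hgc : Continuous g := continuous_iff_continuousAt.2 fun t => (hg t).continuousAt
  set F : ℝ → ℝ := fun t => g t + δ / 2 * |g' t| with hF
  have hFc : Continuous F := hgc.add (continuous_const.mul hc.abs)
  have hF0 : ∀ t, 0 ≤ F t := fun t => add_nonneg (hg0 t) (mul_nonneg (by linarith) (abs_nonneg _))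
  have hFi : ∀ a b : ℝ, IntegrableOn F (Set.Ioc a b) volume := fun a b =>
    (hFc.integrableOn_Icc (a := a) (b := b)).mono_set Set.Ioc_subset_Icc_self
  have key : ∀ j ∈ J, δ * g (α j) ≤ ∫ t in Set.Ioc (α j - δ / 2) (α j + δ / 2), F t := by
    intro j _
    have := LSa_sobolev g g' hg hc (α j) (δ / 2) (by linarith)
    rw [intervalIntegral.integral_of_le (by linarith)] at this
    calc δ * g (α j) = 2 * (δ / 2) * g (α j) := by ring
      _ ≤ _ := this
  rw [Finset.mul_sum]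
  refine (sum_le_sum key).trans ?_
  rw [← integral_biUnion_finset J (fun i _ => measurableSet_Ioc) ?_ (fun i _ => hFi _ _),
    intervalIntegral.integral_of_le hx]
  · apply setIntegral_mono_set (hFi _ _) (Filter.Eventually.of_forall hF0)
    apply HasSubset.Subset.eventuallyLE
    intro t ht
    simp only [Set.mem_iUnion, Set.mem_Ioc, exists_prop] at ht
    obtain ⟨j, hj, h2, h3⟩ := ht
    exact ⟨lt_of_le_of_lt (h0 j hj) h2, h3.trans (h1 j hj)⟩
  · intro i hi j hj hij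
    rw [Function.onFun, Set.disjoint_left]
    intro t ht ht'
    have hs := hsep i hi j hj hij
    rw [Set.mem_Ioc] at ht ht'
    rcases abs_cases (α i - α j) with ⟨h, _⟩ | ⟨h, _⟩ <;> rw [h] at hs <;> linarith

theorem LSa_ee_add (s t : ℝ) : ee (s + t) = ee s * ee t := by
  unfold ee
  rw [← Complex.exp_add]
  congr 1
  push_cast
  ring

theorem LSa_norm_ee (t : ℝ) : ‖ee t‖ = 1 := by
  unfold ee
  have : (2 * Real.pi * t * Complex.I : ℂ) = ((2 * Real.pi * t : ℝ) : ℂ) * Complex.I := by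
    push_cast; ring
  rw [this]
  exact Complex.norm_exp_ofReal_mul_I _

theorem LSa_conj_ee (t : ℝ) : (starRingEnd ℂ) (ee t) = ee (-t) := by
  unfold ee
  rw [← Complex.exp_conj]
  congr 1
  have h : (2 * Real.pi * t * Complex.I : ℂ) = ((2 * Real.pi * t : ℝ) : ℂ) * Complex.I := by
    push_cast; ring
  rw [h, map_mul, Complex.conj_ofReal, Complex.conj_I]
  push_cast
  ring

theorem LSa_int_ee (x : ℝ) (k : ℤ) (hk : k ≠ 0) :
    ∫ t in x..(x + 1), ee (k * t) = 0 := by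
  have hc : (2 * Real.pi * k * Complex.I : ℂ) ≠ 0 := by
    have h1 : (Real.pi : ℂ) ≠ 0 := by exact_mod_cast Real.pi_ne_zero
    have h2 : (k : ℂ) ≠ 0 := by exact_mod_cast hk
    simp [h1, h2]
  have h := integral_exp_mul_complex (a := x) (b := x + 1) hc
  have h3 : ∀ t : ℝ, ee (k * t) = Complex.exp ((2 * Real.pi * k * Complex.I) * t) := by
    intro t
    unfold ee
    congr 1
    push_cast
    ring
  simp_rw [h3]
  rw [h, div_eq_zero_iff]
  left
  have h4 : (2 * Real.pi * k * Complex.I : ℂ) * ((x + 1 : ℝ) : ℂ)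
      = (2 * Real.pi * k * Complex.I) * x + k * (2 * Real.pi * Complex.I) := by
    push_cast; ring
  rw [h4, Complex.exp_add, Complex.exp_int_mul_two_pi_mul_I, mul_one, sub_self]

/-- Parseval over an interval of length one. -/
theorem LSa_parseval (s : Finset ℕ) (b : ℕ → ℂ) (c x : ℝ) :
    ∫ t in x..(x + 1), ‖∑ n ∈ s, b n * ee (((n : ℝ) - c) * t)‖ ^ 2 = ∑ n ∈ s, ‖b n‖ ^ 2 := by
  have hc : ∀ y : ℝ, Continuous fun t : ℝ => ee (y * t) := by
    intro y
    unfold ee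
    fun_prop
  have h1 : ∀ t : ℝ, ((‖∑ n ∈ s, b n * ee (((n : ℝ) - c) * t)‖ ^ 2 : ℝ) : ℂ)
      = ∑ n ∈ s, ∑ m ∈ s, (b n * (starRingEnd ℂ) (b m)) * ee ((((n : ℤ) - (m : ℤ) : ℤ) : ℝ) * t) := by
    intro t
    push_cast
    rw [← Complex.mul_conj', map_sum, Finset.sum_mul_sum]
    refine sum_congr rfl fun n _ => sum_congr rfl fun m _ => ?_
    rw [map_mul, LSa_conj_ee]
    have : ee (((n : ℝ) - (m : ℝ)) * t)
        = ee (((n : ℝ) - c) * t) * ee (-(((m : ℝ) - c) * t)) := by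
      rw [← LSa_ee_add]; congr 1; ring
    rw [this]
    ring
  have h2 : ((∫ t in x..(x + 1), ‖∑ n ∈ s, b n * ee (((n : ℝ) - c) * t)‖ ^ 2 : ℝ) : ℂ)
      = ((∑ n ∈ s, ‖b n‖ ^ 2 : ℝ) : ℂ) := by
    rw [← intervalIntegral.integral_ofReal]
    simp_rw [h1]
    rw [intervalIntegral.integral_finsetSum]
    · rw [Complex.ofReal_sum]
      refine sum_congr rfl fun n hn => ?_
      rw [intervalIntegral.integral_finsetSum]
      · rw [Finset.sum_eq_single n]
        · rw [intervalIntegral.integral_const_mul]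
          have : ∀ t : ℝ, ee ((((n : ℤ) - (n : ℤ) : ℤ) : ℝ) * t) = 1 := by
            intro t; simp [ee]
          simp_rw [this]
          rw [Complex.mul_conj']
          simp
        · intro m _ hmn
          rw [intervalIntegral.integral_const_mul, LSa_int_ee _ _ (by omega), mul_zero]
        · intro h; exact absurd hn h
      · intro m _
        exact (continuous_const.mul (hc _)).intervalIntegrable _ _
    · intro n _
      refine (continuous_finsetSum _ fun m _ => continuous_const.mul (hc _)).intervalIntegrable _ _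
  exact_mod_cast h2

theorem LSa_hasDeriv (y t : ℝ) :
    HasDerivAt (fun t : ℝ => ee (y * t)) ((2 * Real.pi * y * Complex.I) * ee (y * t)) t := by
  have h1 : HasDerivAt (fun t : ℝ => (2 * Real.pi * y * Complex.I : ℂ) * ((t : ℝ) : ℂ))
      ((2 * Real.pi * y * Complex.I : ℂ) * 1) t :=
    (Complex.ofRealCLM.hasDerivAt (x := t)).const_mul _
  have h2 := h1.cexp
  have h3 : ∀ t : ℝ, ee (y * t) = Complex.exp ((2 * Real.pi * y * Complex.I : ℂ) * ((t : ℝ) : ℂ)) := by
    intro t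
    unfold ee
    congr 1
    push_cast
    ring
  have h4 : (fun t : ℝ => ee (y * t))
      = fun t : ℝ => Complex.exp ((2 * Real.pi * y * Complex.I : ℂ) * ((t : ℝ) : ℂ)) := funext h3
  rw [h4, h3 t]
  convert h2 using 1
  ring

theorem additive_ls (R : ℕ) (K0 K : ℕ) (a : ℕ → ℂ) :
    ∑ r ∈ Icc 1 R, ∑ b ∈ (Icc 1 r).filter (fun b => Nat.Coprime b r),
      ‖∑ n ∈ Ioc K0 (K0 + K), a n * ee ((n : ℝ) * b / r)‖ ^ 2
      ≤ ((R : ℝ) ^ 2 + Real.pi * K) * ∑ n ∈ Ioc K0 (K0 + K), ‖a n‖ ^ 2 := by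
  rcases Nat.eq_zero_or_pos K with rfl | hK
  · simp
  rcases Nat.eq_zero_or_pos R with rfl | hR
  · simp only [Nat.lt_one_iff, pos_of_gt, Icc_eq_empty_of_lt, sum_empty]
    have : 0 ≤ ∑ n ∈ Ioc K0 (K0 + K), ‖a n‖ ^ 2 := sum_nonneg fun _ _ => by positivity
    have hp := Real.pi_pos
    positivity
  have hKr : (1 : ℝ) ≤ K := by exact_mod_cast hK
  have hRr : (1 : ℝ) ≤ R := by exact_mod_cast hR
  have hpi := Real.pi_pos
  set c : ℝ := K0 + ((K : ℝ) + 1) / 2 with hcdef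
  set s : Finset ℕ := Ioc K0 (K0 + K) with hs
  set A : ℝ := ∑ n ∈ s, ‖a n‖ ^ 2 with hA
  have hA0 : 0 ≤ A := sum_nonneg fun _ _ => by positivity
  set S : ℝ → ℂ := fun t => ∑ n ∈ s, a n * ee (((n : ℝ) - c) * t) with hS
  set b' : ℕ → ℂ := fun n => a n * (2 * Real.pi * ((((n : ℝ) - c : ℝ)) : ℂ) * Complex.I) with hb'
  set S' : ℝ → ℂ := fun t => ∑ n ∈ s, b' n * ee (((n : ℝ) - c) * t) with hS'
  have hSd : ∀ t, HasDerivAt S (S' t) t := by
    intro t
    have := HasDerivAt.fun_sum (u := s) (A := fun n t => a n * ee (((n : ℝ) - c) * t))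
      (A' := fun n => b' n * ee (((n : ℝ) - c) * t)) (x := t) (fun n _ => by
        have h := (LSa_hasDeriv ((n : ℝ) - c) t).const_mul (a n)
        have e : b' n * ee (((n : ℝ) - c) * t)
            = a n * ((2 * Real.pi * ((((n : ℝ) - c : ℝ)) : ℂ) * Complex.I) * ee (((n : ℝ) - c) * t)) := by
          rw [hb']; ring
        rw [e]
        exact h)
    exact this
  have hcont : ∀ y : ℝ, Continuous fun t : ℝ => ee (y * t) := by
    intro y
    unfold ee
    fun_prop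
  have hSc : Continuous S := continuous_finsetSum _ fun n _ => continuous_const.mul (hcont _)
  have hSc' : Continuous S' := continuous_finsetSum _ fun n _ => continuous_const.mul (hcont _)
  set g : ℝ → ℝ := fun t => ‖S t‖ ^ 2 with hg
  set g' : ℝ → ℝ := fun t => 2 * @inner ℝ ℂ _ (S t) (S' t) with hg'
  have hgd : ∀ t, HasDerivAt g (g' t) t := fun t => (hSd t).norm_sq
  have hgc' : Continuous g' := continuous_const.mul (hSc.inner hSc')
  set δ : ℝ := 1 / (R : ℝ) ^ 2 with hδ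
  have hδ0 : 0 < δ := by positivity
  -- the points
  set J : Finset (Σ _ : ℕ, ℕ) :=
    (Icc 1 R).sigma (fun r => (Icc 1 r).filter (fun b => Nat.Coprime b r)) with hJ
  have hmem : ∀ j ∈ J, 1 ≤ j.1 ∧ j.1 ≤ R ∧ 1 ≤ j.2 ∧ j.2 ≤ j.1 ∧ Nat.Coprime j.2 j.1 := by
    intro j hj
    rw [hJ, mem_sigma, mem_Icc, mem_filter, mem_Icc] at hj
    exact ⟨hj.1.1, hj.1.2, hj.2.1.1, hj.2.1.2, hj.2.2⟩
  have hsep : ∀ i ∈ J, ∀ j ∈ J, i ≠ j → δ ≤ |(i.2 : ℝ) / i.1 - (j.2 : ℝ) / j.1| := by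
    rintro ⟨r, b⟩ hi ⟨q, d⟩ hj hne
    obtain ⟨r1, r2, b1, b2, b3⟩ := hmem _ hi
    obtain ⟨q1, q2, d1, d2, d3⟩ := hmem _ hj
    simp only at r1 r2 b1 b2 b3 q1 q2 d1 d2 d3 ⊢
    have hr0 : (0 : ℝ) < r := by exact_mod_cast r1
    have hq0 : (0 : ℝ) < q := by exact_mod_cast q1
    have hne' : (b : ℤ) * q - d * r ≠ 0 := by
      intro h0
      have h1 : b * q = d * r := by
        have : (b : ℤ) * q = d * r := by linarith
        exact_mod_cast this
      have h2 : r ∣ q := by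
        have : r ∣ b * q := ⟨d, by rw [h1]; ring⟩
        exact (Nat.Coprime.dvd_mul_left b3.symm).1 this
      have h3 : q ∣ r := by
        have : q ∣ d * r := ⟨b, by rw [← h1]; ring⟩
        exact (Nat.Coprime.dvd_mul_left d3.symm).1 this
      have h4 : r = q := Nat.dvd_antisymm h2 h3
      subst h4
      have h5 : b = d := Nat.eq_of_mul_eq_mul_right r1 h1
      subst h5
      exact hne rfl
    have h6 : (1 : ℝ) ≤ |(b : ℝ) * q - d * r| := by
      have : (1 : ℤ) ≤ |(b : ℤ) * q - d * r| := Int.one_le_abs hne'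
      exact_mod_cast this
    have h7 : (b : ℝ) / r - (d : ℝ) / q = ((b : ℝ) * q - d * r) / (r * q) := by
      field_simp
    rw [h7, abs_div, abs_of_pos (mul_pos hr0 hq0), hδ]
    have h8 : (r : ℝ) * q ≤ (R : ℝ) ^ 2 := by
      have h9 : (r : ℝ) ≤ R := by exact_mod_cast r2
      have h10 : (q : ℝ) ≤ R := by exact_mod_cast q2
      nlinarith
    apply div_le_div₀ (by positivity) h6 (mul_pos hr0 hq0) h8
  have hδ1 : δ ≤ 1 / R := by
    rw [hδ]
    apply one_div_le_one_div_of_le (by positivity)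
    nlinarith
  have main := LSa_sum J (fun j => (j.2 : ℝ) / j.1) δ (δ / 2) (δ / 2 + 1) hδ0 g g' hgd hgc'
    (fun t => by positivity)
    (fun j hj => by
      obtain ⟨r1, r2, b1, b2, b3⟩ := hmem j hj
      have hr0 : (0 : ℝ) < j.1 := by exact_mod_cast r1
      have h1 : 1 / (R : ℝ) ≤ (j.2 : ℝ) / j.1 := by
        apply div_le_div₀ (by positivity) (by exact_mod_cast b1) hr0 (by exact_mod_cast r2)
      show δ / 2 ≤ (j.2 : ℝ) / j.1 - δ / 2
      linarith)
    (fun j hj => by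
      obtain ⟨r1, r2, b1, b2, b3⟩ := hmem j hj
      have hr0 : (0 : ℝ) < j.1 := by exact_mod_cast r1
      have h1 : (j.2 : ℝ) / j.1 ≤ 1 := by
        rw [div_le_one hr0]; exact_mod_cast b2
      show (j.2 : ℝ) / j.1 + δ / 2 ≤ δ / 2 + 1
      linarith) (by linarith) hsep
  -- bound of the integral
  have hint : ∫ t in (δ / 2)..(δ / 2 + 1), (g t + δ / 2 * |g' t|) ≤ A + δ * (Real.pi * K * A) := by
    have hP1 := LSa_parseval s a c (δ / 2)
    have hP2 := LSa_parseval s b' c (δ / 2)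
    have hB : ∑ n ∈ s, ‖b' n‖ ^ 2 ≤ (Real.pi * K) ^ 2 * A := by
      rw [hA, Finset.mul_sum]
      apply sum_le_sum
      intro n hn
      rw [hs, mem_Ioc] at hn
      have h1 : |(n : ℝ) - c| ≤ K / 2 := by
        have h2 : (K0 : ℝ) + 1 ≤ n := by exact_mod_cast hn.1
        have h3 : (n : ℝ) ≤ K0 + K := by exact_mod_cast hn.2
        rw [hcdef, abs_le]
        constructor <;> linarith
      rw [hb']
      simp only
      have h4 : ‖(2 * Real.pi * ((((n : ℝ) - c : ℝ)) : ℂ) * Complex.I : ℂ)‖ = 2 * Real.pi * |(n : ℝ) - c| := by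
        rw [norm_mul, norm_mul, norm_mul, Complex.norm_I, Complex.norm_real, Complex.norm_real,
          Real.norm_of_nonneg hpi.le, Real.norm_eq_abs]
        simp
      rw [norm_mul, h4, mul_pow, mul_comm]
      apply mul_le_mul_of_nonneg_right _ (by positivity)
      apply pow_le_pow_left₀ (by positivity)
      nlinarith
    have hpt : ∀ t, g t + δ / 2 * |g' t|
        ≤ (1 + δ * (Real.pi * K) / 2) * ‖S t‖ ^ 2 + (δ / (2 * (Real.pi * K))) * ‖S' t‖ ^ 2 := by
      intro t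
      have h1 : |g' t| ≤ 2 * (‖S t‖ * ‖S' t‖) := by
        rw [hg']
        simp only
        rw [abs_mul, abs_two]
        exact mul_le_mul_of_nonneg_left (abs_real_inner_le_norm _ _) (by norm_num)
      have hp : 0 < Real.pi * K := by positivity
      have h2 : ‖S t‖ * ‖S' t‖ ≤ (Real.pi * K) / 2 * ‖S t‖ ^ 2 + 1 / (2 * (Real.pi * K)) * ‖S' t‖ ^ 2 := by
        have h3 : 0 ≤ (Real.pi * K * ‖S t‖ - ‖S' t‖) ^ 2 / (2 * (Real.pi * K)) := by positivity
        have h4 : (Real.pi * K * ‖S t‖ - ‖S' t‖) ^ 2 / (2 * (Real.pi * K))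
            = (Real.pi * K) / 2 * ‖S t‖ ^ 2 + 1 / (2 * (Real.pi * K)) * ‖S' t‖ ^ 2 - ‖S t‖ * ‖S' t‖ := by
          field_simp
          ring
        linarith
      have h5 : δ / 2 * |g' t| ≤ δ * (‖S t‖ * ‖S' t‖) := by
        calc δ / 2 * |g' t| ≤ δ / 2 * (2 * (‖S t‖ * ‖S' t‖)) :=
              mul_le_mul_of_nonneg_left h1 (by positivity)
          _ = _ := by ring
      have h6 := mul_le_mul_of_nonneg_left h2 hδ0.le
      have h7 : g t = ‖S t‖ ^ 2 := rfl
      rw [h7]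
      calc ‖S t‖ ^ 2 + δ / 2 * |g' t| ≤ ‖S t‖ ^ 2
            + δ * ((Real.pi * K) / 2 * ‖S t‖ ^ 2 + 1 / (2 * (Real.pi * K)) * ‖S' t‖ ^ 2) := by linarith
        _ = _ := by
          field_simp
          ring
    have hgc : Continuous g := (hSc.norm).pow 2
    have hgc2 : Continuous fun t => ‖S' t‖ ^ 2 := (hSc'.norm).pow 2
    calc ∫ t in (δ / 2)..(δ / 2 + 1), (g t + δ / 2 * |g' t|)
        ≤ ∫ t in (δ / 2)..(δ / 2 + 1), ((1 + δ * (Real.pi * K) / 2) * ‖S t‖ ^ 2
            + (δ / (2 * (Real.pi * K))) * ‖S' t‖ ^ 2) := by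
          apply integral_mono_on (by linarith)
          · exact (hgc.add (continuous_const.mul hgc'.abs)).intervalIntegrable _ _
          · exact ((continuous_const.mul hgc).add (continuous_const.mul hgc2)).intervalIntegrable _ _
          · intro t _; exact hpt t
      _ = (1 + δ * (Real.pi * K) / 2) * A + (δ / (2 * (Real.pi * K))) * ∑ n ∈ s, ‖b' n‖ ^ 2 := by
          rw [intervalIntegral.integral_add
            (f := fun t => (1 + δ * (Real.pi * K) / 2) * ‖S t‖ ^ 2)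
            (g := fun t => (δ / (2 * (Real.pi * K))) * ‖S' t‖ ^ 2)
            ((continuous_const.mul hgc).intervalIntegrable _ _)
            ((continuous_const.mul hgc2).intervalIntegrable _ _),
            intervalIntegral.integral_const_mul, intervalIntegral.integral_const_mul]
          rw [← hP2, hA, ← hP1]
      _ ≤ (1 + δ * (Real.pi * K) / 2) * A
            + (δ / (2 * (Real.pi * K))) * ((Real.pi * K) ^ 2 * A) := by
          have : 0 ≤ δ / (2 * (Real.pi * K)) := by positivity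
          have := mul_le_mul_of_nonneg_left hB this
          linarith
      _ = A + δ * (Real.pi * K * A) := by
          field_simp
          ring
  have hsum : ∑ j ∈ J, g ((j.2 : ℝ) / j.1)
      = ∑ r ∈ Icc 1 R, ∑ b ∈ (Icc 1 r).filter (fun b => Nat.Coprime b r),
      ‖∑ n ∈ s, a n * ee ((n : ℝ) * b / r)‖ ^ 2 := by
    rw [hJ, sum_sigma]
    refine sum_congr rfl fun r _ => sum_congr rfl fun b _ => ?_
    show ‖∑ n ∈ s, a n * ee (((n : ℝ) - c) * ((b : ℝ) / r))‖ ^ 2 = _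
    have h1 : ∑ n ∈ s, a n * ee (((n : ℝ) - c) * ((b : ℝ) / r))
        = (∑ n ∈ s, a n * ee ((n : ℝ) * b / r)) * ee (-(c * ((b : ℝ) / r))) := by
      rw [Finset.sum_mul]
      refine sum_congr rfl fun n _ => ?_
      rw [mul_assoc, ← LSa_ee_add]
      congr 2
      ring
    rw [h1, norm_mul, LSa_norm_ee, mul_one]
  rw [← hsum]
  have h1 : δ * ∑ j ∈ J, g ((j.2 : ℝ) / j.1) ≤ δ * (((R : ℝ) ^ 2 + Real.pi * K) * A) := by
    calc δ * ∑ j ∈ J, g ((j.2 : ℝ) / j.1) ≤ A + δ * (Real.pi * K * A) := main.trans hint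
      _ = δ * (((R : ℝ) ^ 2 + Real.pi * K) * A) := by
        rw [hδ]
        field_simp
  exact le_of_mul_le_mul_left h1 hδ0

end Pool.Agent.H91.PK

end

section

/-!
# MID Mvt: mean value theorem in our normalisation

Proof.  `Pool.Agent.H35.W.mean_v` with `a m = c m ee(-τ log m) √m`, `T = 2 π V`: `√m m^(-1/2 + i s) = exp(i s log m)` and `ee(-(t log m)) = exp(i s log m)` with `s = -2π t`;
substitution `s = -2 π t` in the integral (`dt = ds/(2π)`): `≤ (1/(2π)) (4 π V + 4 X (1 + log X)) ∑ |c m|^2`.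
-/

set_option autoImplicit false

namespace Pool.Agent.H53.MID

open Finset MeasureTheory
open Pool.Agent.H91.PK (ee)

private theorem Mvt_term (c : ℕ → ℂ) (τ t : ℝ) (m : ℕ) (hm : 1 ≤ m) :
    c m * ee (-((τ + t) * Real.log m)) =
      (c m * ee (-(τ * Real.log m)) * (Real.sqrt m : ℂ)) *
        (m : ℂ) ^ (-(1 / 2 : ℂ) + ((-(2 * Real.pi) * t : ℝ) : ℂ) * Complex.I) := by
  have hm0 : (0 : ℝ) < m := by exact_mod_cast hm
  have hmc : (m : ℂ) ≠ 0 := by exact_mod_cast hm0.ne'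
  have e1 : (m : ℂ) ^ (-(1 / 2 : ℂ) + ((-(2 * Real.pi) * t : ℝ) : ℂ) * Complex.I)
      = (m : ℂ) ^ (-(1 / 2 : ℂ)) * (m : ℂ) ^ (((-(2 * Real.pi) * t : ℝ) : ℂ) * Complex.I) :=
    Complex.cpow_add _ _ hmc
  have e2 : (m : ℂ) ^ (((-(2 * Real.pi) * t : ℝ) : ℂ) * Complex.I) = ee (-(t * Real.log m)) := by
    unfold ee
    rw [Complex.cpow_def_of_ne_zero hmc, Complex.natCast_log.symm]
    congr 1
    push_cast
    ring
  have e3 : (Real.sqrt m : ℂ) * (m : ℂ) ^ (-(1 / 2 : ℂ)) = 1 := by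
    have h1 : ((Real.sqrt m : ℝ) : ℂ) = (m : ℂ) ^ (1 / 2 : ℂ) := by
      rw [Real.sqrt_eq_rpow, Complex.ofReal_cpow hm0.le]
      push_cast
      rfl
    rw [h1, ← Complex.cpow_add _ _ hmc]
    norm_num
  have e4 : ee (-((τ + t) * Real.log m)) = ee (-(τ * Real.log m)) * ee (-(t * Real.log m)) := by
    rw [← Pool.Agent.H91.PK.LSa_ee_add]
    congr 1
    ring
  rw [e1, e2, e4]
  calc c m * (ee (-(τ * Real.log m)) * ee (-(t * Real.log m)))
      = c m * ee (-(τ * Real.log m)) * 1 * ee (-(t * Real.log m)) := by ring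
    _ = c m * ee (-(τ * Real.log m)) * ((Real.sqrt m : ℂ) * (m : ℂ) ^ (-(1 / 2 : ℂ))) *
          ee (-(t * Real.log m)) := by rw [e3]
    _ = _ := by ring

theorem mvt (c : ℕ → ℂ) (X : ℕ) (V τ : ℝ) (hX : 1 ≤ X) (hV : 0 ≤ V) :
    ∫ t in Set.Icc (-V) V, ‖∑ m ∈ Icc 1 X, c m * ee (-((τ + t) * Real.log m))‖ ^ 2
      ≤ (2 * V + 2 * X * (1 + Real.log X)) * ∑ m ∈ Icc 1 X, ‖c m‖ ^ 2 := by
  obtain ⟨a, ha⟩ : ∃ a : ℕ → ℂ, a = fun m => c m * ee (-(τ * Real.log m)) * (Real.sqrt m : ℂ) :=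
    ⟨_, rfl⟩
  have hpi : 0 < Real.pi := Real.pi_pos
  have hT : 0 ≤ 2 * Real.pi * V := by positivity
  have h1 := Pool.Agent.H35.W.mean_v a X (2 * Real.pi * V) hX hT
  have h2 : ∑ m ∈ Icc 1 X, ‖a m‖ ^ 2 / m = ∑ m ∈ Icc 1 X, ‖c m‖ ^ 2 := by
    refine sum_congr rfl fun m hm => ?_
    have hm0 : (0 : ℝ) < m := by
      have := (mem_Icc.1 hm).1
      exact_mod_cast this
    rw [ha]
    simp only
    rw [norm_mul, norm_mul, Pool.Agent.H91.PK.LSa_norm_ee, mul_one, Complex.norm_real,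
      Real.norm_of_nonneg (Real.sqrt_nonneg _), mul_pow, Real.sq_sqrt hm0.le]
    field_simp
  rw [h2] at h1
  obtain ⟨G, hG⟩ : ∃ G : ℝ → ℝ, G = fun s : ℝ =>
      ‖∑ m ∈ Icc 1 X, a m * (m : ℂ) ^ (-(1 / 2 : ℂ) + (s : ℂ) * Complex.I)‖ ^ 2 := ⟨_, rfl⟩
  have h3 : ∀ t : ℝ, ‖∑ m ∈ Icc 1 X, c m * ee (-((τ + t) * Real.log m))‖ ^ 2 =
      G (-(2 * Real.pi) * t) := by
    intro t
    rw [hG]
    simp only
    congr 2
    refine sum_congr rfl fun m hm => ?_
    rw [Mvt_term c τ t m (mem_Icc.1 hm).1, ha]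
  have h4 : ∫ t in Set.Icc (-V) V, ‖∑ m ∈ Icc 1 X, c m * ee (-((τ + t) * Real.log m))‖ ^ 2 =
      (2 * Real.pi)⁻¹ * ∫ s in (-(2 * Real.pi * V))..(2 * Real.pi * V), G s := by
    rw [MeasureTheory.integral_Icc_eq_integral_Ioc,
      ← intervalIntegral.integral_of_le (by linarith : -V ≤ V)]
    simp_rw [h3]
    rw [intervalIntegral.integral_comp_mul_left G (by
      have : 0 < 2 * Real.pi := by positivity
      exact (neg_neg_of_pos this).ne), intervalIntegral.integral_symm, smul_eq_mul]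
    have e1 : -(2 * Real.pi) * V = -(2 * Real.pi * V) := by ring
    have e2 : -(2 * Real.pi) * -V = 2 * Real.pi * V := by ring
    rw [e1, e2, inv_neg]
    ring
  have h5 : ∫ s in (-(2 * Real.pi * V))..(2 * Real.pi * V), G s ≤
      (2 * (2 * Real.pi * V) + 4 * X * (1 + Real.log X)) * ∑ m ∈ Icc 1 X, ‖c m‖ ^ 2 := by
    rw [hG]
    exact h1
  have hX1 : (1 : ℝ) ≤ X := by exact_mod_cast hX
  have hlog : 0 ≤ Real.log X := Real.log_nonneg hX1
  have hS : 0 ≤ ∑ m ∈ Icc 1 X, ‖c m‖ ^ 2 := sum_nonneg fun m _ => by positivity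
  rw [h4]
  have hp1 : 1 ≤ Real.pi := by
    have := Real.pi_gt_three
    linarith
  calc (2 * Real.pi)⁻¹ * ∫ s in (-(2 * Real.pi * V))..(2 * Real.pi * V), G s
      ≤ (2 * Real.pi)⁻¹ * ((2 * (2 * Real.pi * V) + 4 * X * (1 + Real.log X)) *
          ∑ m ∈ Icc 1 X, ‖c m‖ ^ 2) := mul_le_mul_of_nonneg_left h5 (by positivity)
    _ = (2 * V + 2 * X * (1 + Real.log X) / Real.pi) * ∑ m ∈ Icc 1 X, ‖c m‖ ^ 2 := by
        field_simp
        ring
    _ ≤ (2 * V + 2 * X * (1 + Real.log X)) * ∑ m ∈ Icc 1 X, ‖c m‖ ^ 2 := by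
        refine mul_le_mul_of_nonneg_right ?_ hS
        have : 2 * X * (1 + Real.log X) / Real.pi ≤ 2 * X * (1 + Real.log X) :=
          div_le_self (by positivity) hp1
        linarith

end Pool.Agent.H53.MID

end

section

/-!
The dual form of the additive large sieve inequality for well spaced points.
-/

set_option autoImplicit false

namespace Pool.Agent.H92.EH

open Finset

/-- The Dirichlet kernel. -/
noncomputable def D (M : ℕ) (t : ℝ) : ℂ := ∑ m ∈ range M, e (m * t)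

theorem norm_D_le_nat (M : ℕ) (t : ℝ) : ‖D M t‖ ≤ M := by
  unfold D
  refine (norm_sum_le _ _).trans ?_
  simp [norm_e]

theorem norm_D_neg (M : ℕ) (t : ℝ) : ‖D M (-t)‖ = ‖D M t‖ := by
  have : D M (-t) = (starRingEnd ℂ) (D M t) := by
    unfold D
    rw [map_sum]
    refine sum_congr rfl fun m _ => ?_
    rw [← e_neg]
    congr 1
    ring
  rw [this]
  simp

theorem norm_D_le (M : ℕ) {t δ : ℝ} (hδ : 0 < δ) (h : ∀ m : ℤ, δ ≤ |t - m|) :
    ‖D M t‖ ≤ 1 / (2 * δ) := by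
  have h1 : D M t * (e t - 1) = e t ^ M - 1 := by
    unfold D
    rw [← geom_sum_mul]
    congr 1
    refine sum_congr rfl fun m _ => ?_
    rw [e_nat_mul]
  have h2 : ‖e t ^ M - 1‖ ≤ 2 := by
    refine (norm_sub_le _ _).trans ?_
    rw [norm_pow, norm_e, one_pow, norm_one]
    norm_num
  have h3 := le_norm_e_sub_one h
  have h4 : ‖D M t‖ * ‖e t - 1‖ ≤ 2 := by rw [← norm_mul, h1]; exact h2
  rw [le_div_iff₀ (by positivity)]
  have h5 : ‖D M t‖ * (4 * δ) ≤ 2 := (mul_le_mul_of_nonneg_left h3 (norm_nonneg _)).trans h4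
  linarith

/-- Sum of inverse squares over distinct positive integers. -/
theorem sum_inv_sq_le {ι : Type*} (S : Finset ι) (m : ι → ℕ) (hm : ∀ j ∈ S, 1 ≤ m j)
    (hinj : Set.InjOn m S) : ∑ j ∈ S, ((m j : ℝ) ^ 2)⁻¹ ≤ 2 := by
  classical
  rw [← sum_image (f := fun k : ℕ => ((k : ℝ) ^ 2)⁻¹) (g := m) hinj]
  have hsub : S.image m ⊆ Ioo 0 ((S.image m).sup id + 1) := by
    intro k hk
    rw [mem_Ioo]
    refine ⟨?_, Nat.lt_succ_of_le (le_sup (f := id) hk)⟩
    obtain ⟨j, hj, rfl⟩ := mem_image.mp hk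
    exact hm j hj
  refine (sum_le_sum_of_subset_of_nonneg hsub ?_).trans ?_
  · intro i _ _
    positivity
  · have := sum_Ioo_inv_sq_le (α := ℝ) 0 ((S.image m).sup id + 1)
    simpa using this

/-- One sided estimate used for the row sums. -/
theorem row_aux {ι : Type*} (S : Finset ι) (β : ι → ℝ) (M : ℕ) (hM : 0 < M)
    (h0 : ∀ j ∈ S, ∀ m : ℤ, (1 : ℝ) / M ≤ |β j - m|)
    (hsp : ∀ i ∈ S, ∀ j ∈ S, i ≠ j → ∀ m : ℤ, (1 : ℝ) / M ≤ |β i - β j - m|)
    (hhalf : ∀ j ∈ S, Int.fract (β j) ≤ 1 / 2) (K : ℕ) :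
    ∑ j ∈ S, ‖D K (β j)‖ ^ 2 ≤ (M : ℝ) ^ 2 / 2 := by
  have hM' : (0 : ℝ) < M := by exact_mod_cast hM
  set m : ι → ℕ := fun j => ⌊(M : ℝ) * Int.fract (β j)⌋₊ with hmdef
  have hfr : ∀ j ∈ S, (1 : ℝ) / M ≤ Int.fract (β j) := by
    intro j hj
    have := h0 j hj ⌊β j⌋
    rwa [show β j - (⌊β j⌋ : ℤ) = Int.fract (β j) from rfl, abs_of_nonneg (Int.fract_nonneg _)]
      at this
  have hm1 : ∀ j ∈ S, 1 ≤ m j := by
    intro j hj
    rw [hmdef]
    apply Nat.le_floor
    have := hfr j hj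
    rw [div_le_iff₀ hM'] at this
    push_cast
    linarith
  have hmle : ∀ j ∈ S, (m j : ℝ) ≤ M * Int.fract (β j) := by
    intro j _
    exact Nat.floor_le (by have := Int.fract_nonneg (β j); positivity)
  have hmlt : ∀ j ∈ S, (M : ℝ) * Int.fract (β j) < m j + 1 := by
    intro j _
    exact Nat.lt_floor_add_one _
  have hinj : Set.InjOn m S := by
    intro i hi j hj hij
    by_contra hne
    have h1 := hmle i hi
    have h2 := hmlt i hi
    have h3 := hmle j hj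
    have h4 := hmlt j hj
    have h5 : (m i : ℝ) = m j := by exact_mod_cast hij
    have h6 := hsp i hi j hj hne (⌊β i⌋ - ⌊β j⌋)
    have h7 : β i - β j - ((⌊β i⌋ - ⌊β j⌋ : ℤ) : ℝ) = Int.fract (β i) - Int.fract (β j) := by
      simp only [Int.fract]
      push_cast
      ring
    rw [h7, div_le_iff₀ hM'] at h6
    have h8 : |Int.fract (β i) - Int.fract (β j)| * M < 1 := by
      rw [← abs_of_pos hM', ← abs_mul, abs_lt]
      constructor <;> nlinarith
    linarith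
  have hbound : ∀ j ∈ S, ‖D K (β j)‖ ^ 2 ≤ (M : ℝ) ^ 2 / 4 * ((m j : ℝ) ^ 2)⁻¹ := by
    intro j hj
    have hmpos : (0 : ℝ) < m j := by exact_mod_cast hm1 j hj
    have hdist : ∀ k : ℤ, (m j : ℝ) / M ≤ |β j - k| := by
      intro k
      have h1 : Int.fract (β j) ≤ |β j - k| := by
        have hf := hhalf j hj
        have hf0 := Int.fract_nonneg (β j)
        have hβ : β j = ⌊β j⌋ + Int.fract (β j) := (Int.floor_add_fract _).symm
        rcases le_or_gt k ⌊β j⌋ with hk | hk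
        · have hk' : (k : ℝ) ≤ ⌊β j⌋ := by exact_mod_cast hk
          rw [le_abs]
          left
          linarith
        · have hk' : (⌊β j⌋ : ℝ) + 1 ≤ k := by exact_mod_cast hk
          rw [le_abs]
          right
          linarith
      refine le_trans ?_ h1
      rw [div_le_iff₀ hM']
      have := hmle j hj
      linarith
    have h1 := norm_D_le K (t := β j) (δ := (m j : ℝ) / M) (by positivity) hdist
    have h2 : (1 : ℝ) / (2 * ((m j : ℝ) / M)) = M / (2 * m j) := by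
      field_simp
    rw [h2] at h1
    calc ‖D K (β j)‖ ^ 2 ≤ (M / (2 * m j)) ^ 2 := pow_le_pow_left₀ (norm_nonneg _) h1 2
      _ = (M : ℝ) ^ 2 / 4 * ((m j : ℝ) ^ 2)⁻¹ := by
        field_simp
        ring
  calc ∑ j ∈ S, ‖D K (β j)‖ ^ 2 ≤ ∑ j ∈ S, (M : ℝ) ^ 2 / 4 * ((m j : ℝ) ^ 2)⁻¹ :=
        sum_le_sum hbound
    _ = (M : ℝ) ^ 2 / 4 * ∑ j ∈ S, ((m j : ℝ) ^ 2)⁻¹ := by rw [mul_sum]
    _ ≤ (M : ℝ) ^ 2 / 4 * 2 := by
        apply mul_le_mul_of_nonneg_left (sum_inv_sq_le S m hm1 hinj)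
        positivity
    _ = (M : ℝ) ^ 2 / 2 := by ring

/-- Row sums of the kernel. -/
theorem row_sum_le {ι : Type*} [DecidableEq ι] (J : Finset ι) (α : ι → ℝ) (M : ℕ) (hM : 0 < M)
    (hsp : ∀ i ∈ J, ∀ j ∈ J, i ≠ j → ∀ m : ℤ, (1 : ℝ) / M ≤ |α i - α j - m|)
    (i : ι) (hi : i ∈ J) :
    ∑ j ∈ J, ‖D (2 * M) (α i - α j)‖ ^ 2 ≤ 5 * (M : ℝ) ^ 2 := by
  have hM' : (0 : ℝ) < M := by exact_mod_cast hM
  rw [← add_sum_erase J _ hi]
  have h1 : ‖D (2 * M) (α i - α i)‖ ^ 2 ≤ 4 * (M : ℝ) ^ 2 := by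
    have := norm_D_le_nat (2 * M) (α i - α i)
    push_cast at this
    calc ‖D (2 * M) (α i - α i)‖ ^ 2 ≤ (2 * (M : ℝ)) ^ 2 :=
          pow_le_pow_left₀ (norm_nonneg _) this 2
      _ = 4 * (M : ℝ) ^ 2 := by ring
  set S := J.erase i with hS
  have hSJ : ∀ j ∈ S, j ∈ J ∧ j ≠ i := by
    intro j hj
    rw [hS, mem_erase] at hj
    exact ⟨hj.2, hj.1⟩
  set S1 := S.filter (fun j => Int.fract (α i - α j) ≤ 1 / 2) with hS1
  set S2 := S.filter (fun j => ¬ Int.fract (α i - α j) ≤ 1 / 2) with hS2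
  have hsplit : ∑ j ∈ S, ‖D (2 * M) (α i - α j)‖ ^ 2
      = ∑ j ∈ S1, ‖D (2 * M) (α i - α j)‖ ^ 2 + ∑ j ∈ S2, ‖D (2 * M) (α i - α j)‖ ^ 2 :=
    (sum_filter_add_sum_filter_not S _ _).symm
  have hA : ∑ j ∈ S1, ‖D (2 * M) (α i - α j)‖ ^ 2 ≤ (M : ℝ) ^ 2 / 2 := by
    apply row_aux S1 (fun j => α i - α j) M hM
    · intro j hj m
      rw [hS1, mem_filter] at hj
      obtain ⟨hjJ, hne⟩ := hSJ j hj.1
      exact hsp i hi j hjJ (Ne.symm hne) m
    · intro j hj k hk hne m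
      rw [hS1, mem_filter] at hj hk
      have := hsp k (hSJ k hk.1).1 j (hSJ j hj.1).1 (Ne.symm hne) m
      have heq : α i - α j - (α i - α k) - (m : ℝ) = α k - α j - m := by ring
      show (1 : ℝ) / M ≤ |α i - α j - (α i - α k) - (m : ℝ)|
      rw [heq]
      exact this
    · intro j hj
      rw [hS1, mem_filter] at hj
      exact hj.2
  have hB : ∑ j ∈ S2, ‖D (2 * M) (α i - α j)‖ ^ 2 ≤ (M : ℝ) ^ 2 / 2 := by
    have : ∑ j ∈ S2, ‖D (2 * M) (α i - α j)‖ ^ 2 = ∑ j ∈ S2, ‖D (2 * M) (α j - α i)‖ ^ 2 := by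
      refine sum_congr rfl fun j _ => ?_
      rw [← norm_D_neg, neg_sub]
    rw [this]
    apply row_aux S2 (fun j => α j - α i) M hM
    · intro j hj m
      rw [hS2, mem_filter] at hj
      obtain ⟨hjJ, hne⟩ := hSJ j hj.1
      exact hsp j hjJ i hi hne m
    · intro j hj k hk hne m
      rw [hS2, mem_filter] at hj hk
      have := hsp j (hSJ j hj.1).1 k (hSJ k hk.1).1 hne m
      have heq : α j - α i - (α k - α i) - (m : ℝ) = α j - α k - m := by ring
      show (1 : ℝ) / M ≤ |α j - α i - (α k - α i) - (m : ℝ)|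
      rw [heq]
      exact this
    · intro j hj
      rw [hS2, mem_filter] at hj
      have h2 := hj.2
      push Not at h2
      have h3 : Int.fract (α j - α i) = 1 - Int.fract (α i - α j) := by
        rw [← neg_sub (α i) (α j)]
        apply Int.fract_neg
        intro h
        rw [h] at h2
        norm_num at h2
      show Int.fract (α j - α i) ≤ 1 / 2
      rw [h3]
      linarith
  rw [hsplit]
  linarith

/-- Dual form of the large sieve inequality. -/
theorem dual_large_sieve {ι : Type*} [DecidableEq ι] (J : Finset ι) (α : ι → ℝ) (c : ι → ℂ)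
    (M N : ℕ) (hN : N ≤ M) (hM : 0 < M)
    (hsp : ∀ i ∈ J, ∀ j ∈ J, i ≠ j → ∀ m : ℤ, (1 : ℝ) / M ≤ |α i - α j - m|) :
    ∑ n ∈ Icc 1 N, ‖∑ j ∈ J, c j * e (n * α j)‖ ^ 2 ≤ 5 * M * ∑ j ∈ J, ‖c j‖ ^ 2 := by
  have hM' : (0 : ℝ) < M := by exact_mod_cast hM
  set f : ℤ → ℂ := fun n => ∑ j ∈ J, c j * e (n * α j) with hf
  -- expansion of the double sum
  have hexp : ∑ m ∈ range (2 * M), ∑ m' ∈ range (2 * M), ‖f ((m : ℤ) - m')‖ ^ 2
      ≤ ∑ i ∈ J, ∑ j ∈ J, ‖c i‖ * ‖c j‖ * ‖D (2 * M) (α i - α j)‖ ^ 2 := by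
    have h1 : ∀ m m' : ℕ, ((‖f ((m : ℤ) - m')‖ ^ 2 : ℝ) : ℂ)
        = ∑ i ∈ J, ∑ j ∈ J, c i * (starRingEnd ℂ) (c j) *
          (e (m * (α i - α j)) * (starRingEnd ℂ) (e (m' * (α i - α j)))) := by
      intro m m'
      push_cast
      rw [← Complex.mul_conj', hf]
      simp only
      rw [map_sum, sum_mul_sum]
      refine sum_congr rfl fun i _ => sum_congr rfl fun j _ => ?_
      rw [map_mul]
      have : e (((m : ℤ) - (m' : ℤ) : ℤ) * α i) * (starRingEnd ℂ) (e (((m : ℤ) - (m' : ℤ) : ℤ) * α j))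
          = e (m * (α i - α j)) * (starRingEnd ℂ) (e (m' * (α i - α j))) := by
        rw [e_mul_conj, e_mul_conj]
        congr 1
        push_cast
        ring
      rw [← this]
      ring
    have h2 : ((∑ m ∈ range (2 * M), ∑ m' ∈ range (2 * M), ‖f ((m : ℤ) - m')‖ ^ 2 : ℝ) : ℂ)
        = ∑ i ∈ J, ∑ j ∈ J, c i * (starRingEnd ℂ) (c j) *
          ((‖D (2 * M) (α i - α j)‖ ^ 2 : ℝ) : ℂ) := by
      rw [Complex.ofReal_sum]
      simp_rw [Complex.ofReal_sum, h1]
      have h3 : ∀ i j : ι, ((‖D (2 * M) (α i - α j)‖ ^ 2 : ℝ) : ℂ)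
          = ∑ m ∈ range (2 * M), ∑ m' ∈ range (2 * M),
            (e (m * (α i - α j)) * (starRingEnd ℂ) (e (m' * (α i - α j)))) := by
        intro i j
        push_cast
        rw [← Complex.mul_conj']
        unfold D
        rw [map_sum, sum_mul_sum]
      simp_rw [h3, mul_sum]
      -- reorder sums
      have e1 : ∀ m : ℕ, ∑ m' ∈ range (2 * M), ∑ i ∈ J, ∑ j ∈ J,
            c i * (starRingEnd ℂ) (c j) *
              (e (m * (α i - α j)) * (starRingEnd ℂ) (e (m' * (α i - α j))))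
          = ∑ i ∈ J, ∑ j ∈ J, ∑ m' ∈ range (2 * M),
            c i * (starRingEnd ℂ) (c j) *
              (e (m * (α i - α j)) * (starRingEnd ℂ) (e (m' * (α i - α j)))) := by
        intro m
        rw [sum_comm]
        refine sum_congr rfl fun i _ => ?_
        rw [sum_comm]
      simp_rw [e1]
      rw [sum_comm]
      refine sum_congr rfl fun i _ => ?_
      rw [sum_comm]
    have h4 : (∑ m ∈ range (2 * M), ∑ m' ∈ range (2 * M), ‖f ((m : ℤ) - m')‖ ^ 2 : ℝ)
        = ‖((∑ m ∈ range (2 * M), ∑ m' ∈ range (2 * M), ‖f ((m : ℤ) - m')‖ ^ 2 : ℝ) : ℂ)‖ := by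
      rw [Complex.norm_real, Real.norm_of_nonneg]
      exact sum_nonneg fun _ _ => sum_nonneg fun _ _ => by positivity
    rw [h4, h2]
    refine (norm_sum_le _ _).trans (sum_le_sum fun i _ => ?_)
    refine (norm_sum_le _ _).trans (sum_le_sum fun j _ => ?_)
    rw [norm_mul, norm_mul, RCLike.norm_conj, Complex.norm_real, Real.norm_of_nonneg (by positivity)]
  -- lower bound of the double sum
  have hlow : (M : ℝ) * ∑ n ∈ Icc 1 N, ‖∑ j ∈ J, c j * e (n * α j)‖ ^ 2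
      ≤ ∑ m ∈ range (2 * M), ∑ m' ∈ range (2 * M), ‖f ((m : ℤ) - m')‖ ^ 2 := by
    have h1 : (M : ℝ) * ∑ n ∈ Icc 1 N, ‖∑ j ∈ J, c j * e (n * α j)‖ ^ 2
        = ∑ p ∈ (Icc 1 N) ×ˢ (range M), ‖f (p.1 : ℤ)‖ ^ 2 := by
      rw [sum_product, mul_sum]
      refine sum_congr rfl fun n _ => ?_
      have h0 : ∑ y ∈ range M, ‖f (((n, y) : ℕ × ℕ).1 : ℤ)‖ ^ 2
          = ∑ _y ∈ range M, ‖f (n : ℤ)‖ ^ 2 := rfl
      rw [h0, sum_const, card_range, nsmul_eq_mul, hf]
      simp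
    rw [h1, ← sum_product']
    have h2 : ∑ p ∈ (Icc 1 N) ×ˢ (range M), ‖f (p.1 : ℤ)‖ ^ 2
        = ∑ p ∈ ((Icc 1 N) ×ˢ (range M)).image (fun p : ℕ × ℕ => (p.1 + p.2, p.2)),
          ‖f ((p.1 : ℤ) - p.2)‖ ^ 2 := by
      rw [sum_image]
      · refine sum_congr rfl fun p _ => ?_
        congr 3
        push_cast
        ring
      · rintro ⟨a, b⟩ _ ⟨a', b'⟩ _ h
        simp only [Prod.mk.injEq] at h ⊢
        omega
    rw [h2]
    apply sum_le_sum_of_subset_of_nonneg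
    · intro p hp
      obtain ⟨⟨a, b⟩, hq, rfl⟩ := mem_image.mp hp
      rw [mem_product, mem_Icc, mem_range] at hq
      rw [mem_product, mem_range, mem_range]
      simp only at hq ⊢
      omega
    · intro _ _ _
      positivity
  -- Schur test
  have hschur : ∑ i ∈ J, ∑ j ∈ J, ‖c i‖ * ‖c j‖ * ‖D (2 * M) (α i - α j)‖ ^ 2
      ≤ 5 * (M : ℝ) ^ 2 * ∑ j ∈ J, ‖c j‖ ^ 2 := by
    have h1 : ∑ i ∈ J, ∑ j ∈ J, ‖c i‖ * ‖c j‖ * ‖D (2 * M) (α i - α j)‖ ^ 2
        ≤ ∑ i ∈ J, ∑ j ∈ J, (‖c i‖ ^ 2 / 2 * ‖D (2 * M) (α i - α j)‖ ^ 2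
          + ‖c j‖ ^ 2 / 2 * ‖D (2 * M) (α i - α j)‖ ^ 2) := by
      refine sum_le_sum fun i _ => sum_le_sum fun j _ => ?_
      rw [← add_mul]
      apply mul_le_mul_of_nonneg_right _ (by positivity)
      nlinarith [sq_nonneg (‖c i‖ - ‖c j‖)]
    refine h1.trans ?_
    simp_rw [sum_add_distrib]
    have h2 : ∑ i ∈ J, ∑ j ∈ J, ‖c i‖ ^ 2 / 2 * ‖D (2 * M) (α i - α j)‖ ^ 2
        ≤ 5 * (M : ℝ) ^ 2 / 2 * ∑ j ∈ J, ‖c j‖ ^ 2 := by
      rw [mul_sum]
      refine sum_le_sum fun i hi => ?_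
      rw [← mul_sum]
      have := row_sum_le J α M hM hsp i hi
      nlinarith [sq_nonneg ‖c i‖]
    have h3 : ∑ i ∈ J, ∑ j ∈ J, ‖c j‖ ^ 2 / 2 * ‖D (2 * M) (α i - α j)‖ ^ 2
        = ∑ i ∈ J, ∑ j ∈ J, ‖c i‖ ^ 2 / 2 * ‖D (2 * M) (α i - α j)‖ ^ 2 := by
      rw [sum_comm]
      refine sum_congr rfl fun i _ => sum_congr rfl fun j _ => ?_
      rw [← norm_D_neg, neg_sub]
    rw [h3]
    linarith
  have hfinal := hlow.trans (hexp.trans hschur)
  have : (M : ℝ) * ∑ n ∈ Icc 1 N, ‖∑ j ∈ J, c j * e (n * α j)‖ ^ 2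
      ≤ M * (5 * M * ∑ j ∈ J, ‖c j‖ ^ 2) := by
    refine hfinal.trans (le_of_eq ?_)
    ring
  exact le_of_mul_le_mul_left this hM'

end Pool.Agent.H92.EH

end

section

/-!
Complete exponential sums and Ramanujan sums.
-/

set_option autoImplicit false

namespace Pool.Agent.H92.EH

open Finset

/-- Complete sums of additive characters. -/
theorem sum_complete (n : ℕ) (hn : 0 < n) (m : ℤ) :
    ∑ b ∈ range n, e (m * ((b : ℝ) / n)) = if (n : ℤ) ∣ m then (n : ℂ) else 0 := by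
  have hn0 : (n : ℝ) ≠ 0 := by exact_mod_cast hn.ne'
  have h1 : ∀ b : ℕ, e (m * ((b : ℝ) / n)) = e ((m : ℝ) / n) ^ b := by
    intro b
    rw [← e_nat_mul]
    congr 1
    ring
  simp_rw [h1]
  split_ifs with h
  · obtain ⟨k, rfl⟩ := h
    have : ((n : ℤ) * k : ℤ) / (n : ℝ) = (k : ℝ) := by
      push_cast
      field_simp
    rw [this, e_int]
    simp
  · have hne : e ((m : ℝ) / n) ≠ 1 := by
      intro he
      apply h
      unfold e at he
      rw [Complex.exp_eq_one_iff] at he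
      obtain ⟨k, hk⟩ := he
      refine ⟨k, ?_⟩
      have hpi : (Real.pi : ℂ) ≠ 0 := by exact_mod_cast Real.pi_ne_zero
      have hI := Complex.I_ne_zero
      have hn0' : (n : ℂ) ≠ 0 := by exact_mod_cast hn.ne'
      push_cast at hk
      have h2 : (2 * Real.pi * Complex.I : ℂ) * (m / n) = (2 * Real.pi * Complex.I) * k := by
        linear_combination hk
      have h3 : ((m : ℂ) / n) = k := by
        apply mul_left_cancel₀ _ h2
        simp [hpi, hI]
      rw [div_eq_iff hn0'] at h3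
      have h4 : (m : ℂ) = ((n : ℤ) * k : ℤ) := by
        rw [h3]
        push_cast
        ring
      exact_mod_cast h4
    have h5 : (∑ b ∈ range n, e ((m : ℝ) / n) ^ b) * (e ((m : ℝ) / n) - 1) = 0 := by
      rw [geom_sum_mul, ← e_nat_mul]
      have : (n : ℝ) * ((m : ℝ) / n) = m := by field_simp
      rw [this, e_int, sub_self]
    rcases mul_eq_zero.mp h5 with h6 | h6
    · exact h6
    · exact absurd (sub_eq_zero.mp h6) hne

/-- The Ramanujan sum `c_r(m)`. -/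
noncomputable def ram (r : ℕ) (m : ℤ) : ℂ := ∑ b ∈ red r, e (m * ((b : ℝ) / r))

theorem sum_ram_divisors (n : ℕ) (hn : 0 < n) (m : ℤ) :
    ∑ d ∈ n.divisors, ram d m = if (n : ℤ) ∣ m then (n : ℂ) else 0 := by
  rw [← sum_complete n hn m]
  -- partition `range n` according to the gcd with `n`
  have h1 : ∑ b ∈ range n, e (m * ((b : ℝ) / n))
      = ∑ d ∈ n.divisors, ∑ b ∈ (range n).filter (fun b => n / Nat.gcd b n = d),
          e (m * ((b : ℝ) / n)) := by
    rw [sum_fiberwise_of_maps_to]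
    intro b _
    rw [Nat.mem_divisors]
    exact ⟨Nat.div_dvd_of_dvd (Nat.gcd_dvd_right b n), hn.ne'⟩
  rw [h1]
  refine sum_congr rfl fun d hd => ?_
  rw [Nat.mem_divisors] at hd
  obtain ⟨k, hk⟩ := hd.1
  have hdpos : 0 < d := Nat.pos_of_ne_zero (by rintro rfl; omega)
  have hkpos : 0 < k := Nat.pos_of_ne_zero (by rintro rfl; omega)
  unfold ram
  refine sum_bij (fun b _ => b * k) ?_ ?_ ?_ ?_
  · intro b hb
    rw [mem_red] at hb
    rw [mem_filter, mem_range]
    have hg : Nat.gcd (b * k) n = k := by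
      rw [hk, Nat.gcd_mul_right]
      have : Nat.gcd b d = 1 := hb.2
      rw [this, one_mul]
    refine ⟨?_, ?_⟩
    · rw [hk]
      exact Nat.mul_lt_mul_of_pos_right hb.1 hkpos
    · rw [hg, hk]
      exact Nat.mul_div_cancel _ hkpos
  · intro b _ b' _ h
    exact Nat.eq_of_mul_eq_mul_right hkpos h
  · intro c hc
    rw [mem_filter, mem_range] at hc
    obtain ⟨hc1, hc2⟩ := hc
    have hgpos : 0 < Nat.gcd c n := Nat.gcd_pos_of_pos_right _ hn
    have hgk : Nat.gcd c n = k := by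
      have h2 : Nat.gcd c n ∣ n := Nat.gcd_dvd_right c n
      have h3 : n / Nat.gcd c n * Nat.gcd c n = n := Nat.div_mul_cancel h2
      rw [hc2] at h3
      exact Nat.eq_of_mul_eq_mul_left hdpos (h3.trans hk)
    have hkc : k ∣ c := by rw [← hgk]; exact Nat.gcd_dvd_left c n
    obtain ⟨b, hb⟩ := hkc
    refine ⟨b, ?_, by rw [hb]; ring⟩
    rw [mem_red]
    constructor
    · have : k * b < k * d := by rw [← hb, mul_comm k d, ← hk]; exact hc1
      exact lt_of_mul_lt_mul_left this (Nat.zero_le _)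
    · have h2 : Nat.gcd (k * b) (k * d) = k := by
        rw [← hb, mul_comm k d, ← hk]
        exact hgk
      rw [Nat.gcd_mul_left] at h2
      have h3 : k * Nat.gcd b d = k * 1 := by rw [h2, mul_one]
      exact Nat.eq_of_mul_eq_mul_left hkpos h3
  · intro b _
    congr 2
    have hd0 : (d : ℝ) ≠ 0 := by exact_mod_cast hdpos.ne'
    have hk0 : (k : ℝ) ≠ 0 := by exact_mod_cast hkpos.ne'
    rw [hk]
    push_cast
    field_simp

/-- Formula for the Ramanujan sum. -/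
theorem ram_eq (r : ℕ) (hr : 0 < r) (m : ℤ) :
    ram r m = ∑ x ∈ r.divisorsAntidiagonal,
      ((ArithmeticFunction.moebius x.1 : ℤ) : ℂ) * (if ((x.2 : ℕ) : ℤ) ∣ m then (x.2 : ℂ) else 0) := by
  have h := (ArithmeticFunction.sum_eq_iff_sum_mul_moebius_eq
    (f := fun n => ram n m) (g := fun n : ℕ => if (n : ℤ) ∣ m then (n : ℂ) else 0)).mp
    (fun n hn => sum_ram_divisors n hn m) r hr
  exact h.symm

end Pool.Agent.H92.EH

end

section

/-!
# EHB HRe: `lamR` as an exponential sum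

`lamR_eq`: `ramS c n = ∑_{b ∈ red c} e(n b/c)` (`Pool.Agent.H92.EH.ram`, `ram_eq`; `EH.e t = ee t`), for `c ≥ 1`.
`hR_abs`: `|Lam n| ≤ log n` (`ArithmeticFunction.vonMangoldt_le_log`), `|lamR R n| ≤ ∑_{c ≤ R} φ(c)/φ(c) ≤ R`.
-/

set_option autoImplicit false

namespace Pool.Agent.H76.EHB

open Finset
open Pool.Agent.H91.PK (ee)
open Pool.Agent.H92.EH (red)
open Pool.Agent.H91.EHA (Lam lamR hR ramS)

private theorem hre_ram (c n : ℕ) (hc : 1 ≤ c) (hn : 1 ≤ n) :
    ((ramS c n : ℝ) : ℂ) = ∑ b ∈ red c, ee (n * ((b : ℝ) / c)) := by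
  have h1 : ∑ b ∈ red c, ee (n * ((b : ℝ) / c)) = Pool.Agent.H92.EH.ram c (n : ℤ) := by
    unfold Pool.Agent.H92.EH.ram
    refine sum_congr rfl fun b _ => ?_
    unfold Pool.Agent.H91.PK.ee Pool.Agent.H92.EH.e
    congr 1
    push_cast
    ring
  rw [h1, Pool.Agent.H92.EH.ram_eq c hc (n : ℤ),
    Nat.sum_divisorsAntidiagonal' (f := fun a b : ℕ =>
      ((ArithmeticFunction.moebius a : ℤ) : ℂ) * (if ((b : ℕ) : ℤ) ∣ (n : ℤ) then (b : ℂ) else 0))]
  have h2 : (Nat.gcd c n).divisors = c.divisors.filter (fun d => d ∣ n) := by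
    ext d
    simp only [Nat.mem_divisors, mem_filter, Nat.dvd_gcd_iff]
    constructor
    · rintro ⟨⟨a, b⟩, _⟩
      exact ⟨⟨a, by omega⟩, b⟩
    · rintro ⟨⟨a, _⟩, b⟩
      exact ⟨⟨a, b⟩, (Nat.gcd_pos_of_pos_left n hc).ne'⟩
  unfold ramS
  rw [h2, sum_filter]
  push_cast
  refine sum_congr rfl fun d _ => ?_
  by_cases hd : d ∣ n
  · rw [if_pos hd, if_pos (by exact_mod_cast hd)]
    push_cast
    ring
  · rw [if_neg hd, if_neg (by exact_mod_cast hd)]
    simp

theorem lamR_eq (R n : ℕ) (hn : 1 ≤ n) :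
    ((lamR R n : ℝ) : ℂ) = ∑ c ∈ Icc 1 R, ((((ArithmeticFunction.moebius c : ℤ) : ℝ) / (c.totient : ℝ) : ℝ) : ℂ)
      * ∑ b ∈ red c, ee (n * ((b : ℝ) / c)) := by
  unfold lamR
  rw [Complex.ofReal_sum]
  refine sum_congr rfl fun c hc => ?_
  rw [mem_Icc] at hc
  rw [Complex.ofReal_mul, hre_ram c n hc.1 hn]

end Pool.Agent.H76.EHB

end

section

/-!
# EHB Planch: Plancherel for integrable square integrable functions

Route A: Mathlib's `MeasureTheory.Lp.norm_fourier_eq` (`Mathlib/Analysis/Fourier/LpSpace.lean`) plus the identification of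
the `L²` Fourier transform with the integral: approximate `G` by Schwartz functions simultaneously in `L¹` and `L²`
(density, `SchwartzMap.toLp_fourier_eq`); the transforms converge uniformly and in `L²`, so the limits agree a.e.
Route B (elementary).  `Ĝ(ξ) = ∫ G(u) e(-uξ) du` is bounded and continuous.  For `ε > 0`
`∫ |Ĝ(ξ)|^2 exp(-π (ε ξ)^2) dξ = ∫∫ G(u) conj G(v) (1/ε) exp(-π ((u-v)/ε)^2) du dv` (Fubini and the Gaussian transform, `gft2` scaled).
The right side is `∫ c(w) (1/ε) exp(-π (w/ε)^2) dw` with `c(w) = ∫ G(u + w) conj G(u) du`, a bounded continuous function of `w`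
(continuity of translation in `L²`), `c(0) = ∫ |G|^2`, so it tends to `∫|G|^2` as `ε → 0` (for example by
`Real.tendsto_integral_gaussian_smul'` or directly).  The left side increases to `∫ |Ĝ|^2` (monotone convergence), which is
therefore finite.
-/

set_option autoImplicit false

namespace Pool.Agent.H76.EHB

open Finset MeasureTheory
open Pool.Agent.H91.PK (ee)
open scoped FourierTransform ContDiff SchwartzMap

private theorem planch_eq (G : ℝ → ℂ) (ξ : ℝ) :
    ∫ u, G u * ee (-(u * ξ)) = FourierTransform.fourier G ξ := by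
  rw [Real.fourier_real_eq_integral_exp_smul]
  apply integral_congr_ae
  filter_upwards with u
  rw [ee, smul_eq_mul, mul_comm]
  congr 2
  push_cast
  ring

private theorem planch_continuous (G : ℝ → ℂ) (h1 : Integrable G) :
    Continuous (FourierTransform.fourier G : ℝ → ℂ) :=
  VectorFourier.fourierIntegral_continuous Real.continuous_fourierChar
    (by exact continuous_inner) h1

private theorem planch_ae (G : ℝ → ℂ) (h1 : Integrable G) (h2 : MemLp G 2) :
    (FourierTransform.fourier (h2.toLp G) : Lp (α := ℝ) ℂ 2) =ᵐ[volume]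
      (FourierTransform.fourier G : ℝ → ℂ) := by
  apply ae_eq_of_integral_contDiff_smul_eq
  · exact (Lp.memLp _).locallyIntegrable one_le_two
  · exact (planch_continuous G h1).locallyIntegrable
  · intro g g_smooth g_cpt
    have hg₁ : HasCompactSupport (Complex.ofRealCLM ∘ g) := g_cpt.comp_left rfl
    have hg₂ : ContDiff ℝ ∞ (Complex.ofRealCLM ∘ g) := by fun_prop
    set φ : 𝓢(ℝ, ℂ) := hg₁.toSchwartzMap hg₂ with hφ
    have e1 : ∫ x, g x • (FourierTransform.fourier (h2.toLp G) : Lp (α := ℝ) ℂ 2) x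
        = Lp.toTemperedDistribution (FourierTransform.fourier (h2.toLp G) : Lp (α := ℝ) ℂ 2) φ := by
      rw [Lp.toTemperedDistribution_apply]
      rfl
    have e2 : Lp.toTemperedDistribution (FourierTransform.fourier (h2.toLp G) : Lp (α := ℝ) ℂ 2) φ
        = Lp.toTemperedDistribution (h2.toLp G) (FourierTransform.fourier φ) := by
      rw [← Lp.fourier_toTemperedDistribution_eq]
      rfl
    have e3 : Lp.toTemperedDistribution (h2.toLp G) (FourierTransform.fourier φ)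
        = ∫ x, (FourierTransform.fourier φ : 𝓢(ℝ, ℂ)) x • G x := by
      rw [Lp.toTemperedDistribution_apply]
      apply integral_congr_ae
      filter_upwards [h2.coeFn_toLp] with x hx
      rw [hx]
    have e4 : ∫ x, (FourierTransform.fourier φ : 𝓢(ℝ, ℂ)) x • G x
        = ∫ x, φ x • (FourierTransform.fourier G : ℝ → ℂ) x := by
      have h := VectorFourier.integral_fourierIntegral_smul_eq_flip (L := innerₗ ℝ)
        (μ := volume) (ν := volume) (f := (φ : ℝ → ℂ)) (g := G)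
        Real.continuous_fourierChar continuous_inner φ.integrable h1
      simpa using! h
    rw [e1, e2, e3, e4]
    rfl

private theorem planch_sq (f : Lp (α := ℝ) ℂ 2) : ‖f‖ ^ 2 = ∫ u, ‖f u‖ ^ 2 := by
  have h : (RCLike.re (inner ℂ f f) : ℝ) = ‖f‖ ^ 2 := by
    rw [inner_self_eq_norm_sq]
  rw [← h, L2.inner_def]
  have h2 : ∫ a, (inner ℂ (f a) (f a) : ℂ) = ((∫ u, ‖f u‖ ^ 2 : ℝ) : ℂ) := by
    rw [← integral_complex_ofReal]
    apply integral_congr_ae
    filter_upwards with u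
    rw [inner_self_eq_norm_sq_to_K]
    push_cast
    rfl
  rw [h2]
  exact Complex.ofReal_re _

theorem planch (G : ℝ → ℂ) (h1 : Integrable G) (h2 : MemLp G 2) :
    Integrable (fun ξ : ℝ => ‖∫ u, G u * ee (-(u * ξ))‖ ^ 2) ∧
      ∫ ξ : ℝ, ‖∫ u, G u * ee (-(u * ξ))‖ ^ 2 = ∫ u, ‖G u‖ ^ 2 := by
  have hae := planch_ae G h1 h2
  have hmem : MemLp (FourierTransform.fourier G : ℝ → ℂ) 2 :=
    (memLp_congr_ae hae).1 (Lp.memLp _)
  have hfun : (fun ξ : ℝ => ‖∫ u, G u * ee (-(u * ξ))‖ ^ 2)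
      = fun ξ : ℝ => ‖(FourierTransform.fourier G : ℝ → ℂ) ξ‖ ^ 2 := by
    funext ξ
    rw [planch_eq]
  rw [hfun]
  refine ⟨hmem.integrable_norm_pow (by norm_num), ?_⟩
  have e1 : ∫ ξ : ℝ, ‖(FourierTransform.fourier G : ℝ → ℂ) ξ‖ ^ 2
      = ∫ ξ : ℝ, ‖(FourierTransform.fourier (h2.toLp G) : Lp (α := ℝ) ℂ 2) ξ‖ ^ 2 := by
    apply integral_congr_ae
    filter_upwards [hae] with ξ hξ
    rw [hξ]
  have e2 : ∫ u, ‖G u‖ ^ 2 = ∫ u, ‖(h2.toLp G) u‖ ^ 2 := by
    apply integral_congr_ae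
    filter_upwards [h2.coeFn_toLp] with u hu
    rw [hu]
  rw [e1, e2, ← planch_sq, ← planch_sq, Lp.norm_fourier_eq]

end Pool.Agent.H76.EHB

end

section

/-!
# PROJECT VK (for MP_967f73_nt): definitions for the Vinogradov mean value theorem

`ee(t) = exp(2 π i t)` (`Pool.Agent.H91.PK.ee`, lemmas `LSa_ee_add`, `LSa_norm_ee`, `LSa_conj_ee`).
-/

set_option autoImplicit false

namespace Pool.Agent.H97.VK

open Finset
open Pool.Agent.H91.PK (ee)

/-- the box `[1,M]^s` -/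
def box (s M : ℕ) : Finset (Fin s → ℕ) := Fintype.piFinset (fun _ => Icc 1 M)

/-- the vector of the power sums with exponents `1, ..., k` -/
def pv (k : ℕ) {s : ℕ} (x : Fin s → ℕ) (j : Fin k) : ℤ := ∑ i, (x i : ℤ) ^ ((j : ℕ) + 1)

/-- number of the solutions of the Vinogradov system of degree `k` in `2 s` variables in `[1,M]` -/
def JV (k s M : ℕ) : ℕ :=
  (((box s M) ×ˢ (box s M)).filter (fun w => pv k w.1 = pv k w.2)).card

/-- the finite grid `[0,Q)^k` of frequencies -/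
def grid (k Q : ℕ) : Finset (Fin k → ℕ) := Fintype.piFinset (fun _ => range Q)

/-- exponential sum of a finite set with values in `ℤ^k` -/
noncomputable def FS {ι : Type} {k : ℕ} (X : Finset ι) (φ : ι → Fin k → ℤ) (Q : ℕ)
    (α : Fin k → ℕ) : ℂ :=
  ∑ x ∈ X, ee ((∑ j, (α j : ℝ) * (φ x j : ℝ)) / Q)

/-- the solutions of `φ(w) + ∑ pv(u) = φ(w') + ∑ pv(v)` with `w, w' ∈ W`, `u, v ∈ A^s` -/
def SC {ι : Type} {k : ℕ} (s : ℕ) (W : Finset ι) (φ : ι → Fin k → ℤ) (A : Finset ℕ) : ℕ :=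
  (((W ×ˢ W) ×ˢ ((Fintype.piFinset (fun _ : Fin s => A)) ×ˢ (Fintype.piFinset (fun _ : Fin s => A)))).filter
    (fun z => ∀ j, φ z.1.1 j + pv k z.2.1 j = φ z.1.2 j + pv k z.2.2 j)).card

/-- the tuples in `[1,M]^k` with distinct residues modulo `p` -/
def inj (k p M : ℕ) : Finset (Fin k → ℕ) :=
  (box k M).filter (fun x => ∀ i i', i ≠ i' → x i % p ≠ x i' % p)

/-- the bilinear exponential sum -/
noncomputable def bil (k X : ℕ) (α : Fin k → ℝ) : ℂ :=
  ∑ a ∈ Icc 1 X, ∑ b ∈ Icc 1 X, ee (∑ j : Fin k, α j * ((a : ℝ) * b) ^ ((j : ℕ) + 1))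

/-- the one dimensional sum of geometric sums -/
noncomputable def GG (α : ℝ) (W : ℕ) : ℝ :=
  ∑ w ∈ Icc (-(W : ℤ)) W, ‖∑ v ∈ Icc (-(W : ℤ)) W, ee (α * w * v)‖

end Pool.Agent.H97.VK

end

section

/-!
# EHB Lap: iterated differences of `1/(x+β)`

`LL hs β x = ∫_0^∞ exp(-(x+β) s) ∏_{h ∈ hs} (1 - exp(-h s)) ds` for `x + β > 0`, all `h > 0`.
`LL_nil`: `1/(x+β)`.  `LL_cons`: `(1 - e^{-hs}) e^{-(x+β)s} = e^{-(x+β)s} - e^{-(x+h+β)s}`.
`LL_le`, `LL_ge`: `h s e^{-hs} ≤ 1 - e^{-hs} ≤ h s` and `∫_0^∞ e^{-c s} s^J ds = J!/c^{J+1}` (`Real.integral_rpow_mul_exp_neg_mul_Ioi` or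
`integral_exp_neg_mul_rpow`...).
`LL_deriv`: by induction on `hs` from `LL_cons` (derivative of `LL (h :: hs)` at `x` is the difference of the derivatives), the derivative at `x`
is `-∫_0^∞ s exp(-(x+β)s) ∏(1 - e^{-hs}) ds ≤ 0`; it may be simplest to define `LD` by this integral, prove `LD_nil` (`1/(x+β)^2`), `LD_cons`,
`0 ≤ LD`, `HasDerivAt (LL hs β) (-LD hs β x) x`, and the continuity of `LD` by the same induction.
-/

set_option autoImplicit false

namespace Pool.Agent.H76.EHB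

open MeasureTheory

noncomputable def LL (hs : List ℝ) (β x : ℝ) : ℝ :=
  ∫ s in Set.Ioi (0 : ℝ), Real.exp (-(x + β) * s) * (hs.map (fun h => 1 - Real.exp (-h * s))).prod

noncomputable def LD (hs : List ℝ) (β x : ℝ) : ℝ :=
  ∫ s in Set.Ioi (0 : ℝ), s * (Real.exp (-(x + β) * s) * (hs.map (fun h => 1 - Real.exp (-h * s))).prod)

private lemma lap_prod_nonneg (hs : List ℝ) (hpos : ∀ g ∈ hs, 0 < g) {s : ℝ} (h0 : 0 < s) :
    0 ≤ (hs.map (fun h => 1 - Real.exp (-h * s))).prod := by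
  induction hs with
  | nil => simp
  | cons a l ih =>
    rw [List.map_cons, List.prod_cons]
    have ha : 0 < a := hpos a (by simp)
    have h1 : Real.exp (-a * s) ≤ 1 := by
      rw [Real.exp_le_one_iff]
      nlinarith
    exact mul_nonneg (by linarith) (ih (fun g hg => hpos g (by simp [hg])))

private lemma lap_prod_le_one (hs : List ℝ) (hpos : ∀ g ∈ hs, 0 < g) {s : ℝ} (h0 : 0 < s) :
    (hs.map (fun h => 1 - Real.exp (-h * s))).prod ≤ 1 := by
  induction hs with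
  | nil => simp
  | cons a l ih =>
    rw [List.map_cons, List.prod_cons]
    have h1 : 0 < Real.exp (-a * s) := Real.exp_pos _
    have h2 := ih (fun g hg => hpos g (by simp [hg]))
    have h3 := lap_prod_nonneg l (fun g hg => hpos g (by simp [hg])) h0
    have ha : 0 < a := hpos a (by simp)
    have h4 : Real.exp (-a * s) ≤ 1 := by
      rw [Real.exp_le_one_iff]
      nlinarith
    calc (1 - Real.exp (-a * s)) * (l.map (fun h => 1 - Real.exp (-h * s))).prod
        ≤ 1 * 1 := mul_le_mul (by linarith) h2 h3 (by norm_num)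
      _ = 1 := by norm_num

private lemma lap_prod_le (hs : List ℝ) (hpos : ∀ g ∈ hs, 0 < g) {s : ℝ} (h0 : 0 < s) :
    (hs.map (fun h => 1 - Real.exp (-h * s))).prod ≤ hs.prod * s ^ hs.length := by
  induction hs with
  | nil => simp
  | cons a l ih =>
    rw [List.map_cons, List.prod_cons, List.prod_cons, List.length_cons]
    have h2 := ih (fun g hg => hpos g (by simp [hg]))
    have h3 := lap_prod_nonneg l (fun g hg => hpos g (by simp [hg])) h0
    have ha : 0 < a := hpos a (by simp)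
    have h4 : 1 - Real.exp (-a * s) ≤ a * s := by
      have := Real.add_one_le_exp (-a * s)
      nlinarith
    calc (1 - Real.exp (-a * s)) * (l.map (fun h => 1 - Real.exp (-h * s))).prod
        ≤ (a * s) * (l.prod * s ^ l.length) := mul_le_mul h4 h2 h3 (by positivity)
      _ = a * l.prod * s ^ (l.length + 1) := by ring

private lemma lap_prod_pos (hs : List ℝ) (hpos : ∀ g ∈ hs, 0 < g) : 0 < hs.prod := by
  induction hs with
  | nil => simp
  | cons a l ih =>
    rw [List.prod_cons]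
    exact mul_pos (hpos a (by simp)) (ih (fun g hg => hpos g (by simp [hg])))

private lemma lap_sum_nonneg (hs : List ℝ) (hpos : ∀ g ∈ hs, 0 < g) : 0 ≤ hs.sum := by
  induction hs with
  | nil => simp
  | cons a l ih =>
    rw [List.sum_cons]
    have := hpos a (by simp)
    have := ih (fun g hg => hpos g (by simp [hg]))
    linarith

private lemma lap_prod_ge (hs : List ℝ) (hpos : ∀ g ∈ hs, 0 < g) {s : ℝ} (h0 : 0 < s) :
    hs.prod * s ^ hs.length * Real.exp (-hs.sum * s) ≤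
      (hs.map (fun h => 1 - Real.exp (-h * s))).prod := by
  induction hs with
  | nil => simp
  | cons a l ih =>
    rw [List.map_cons, List.prod_cons, List.prod_cons, List.length_cons, List.sum_cons]
    have h2 := ih (fun g hg => hpos g (by simp [hg]))
    have hl := lap_prod_pos l (fun g hg => hpos g (by simp [hg]))
    have h3 := lap_prod_nonneg l (fun g hg => hpos g (by simp [hg])) h0
    have ha : 0 < a := hpos a (by simp)
    have h4 : a * s * Real.exp (-a * s) ≤ 1 - Real.exp (-a * s) := by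
      have h5 := Real.add_one_le_exp (a * s)
      have h6 : Real.exp (a * s) * Real.exp (-a * s) = 1 := by
        rw [← Real.exp_add]; simp
      have h7 := Real.exp_pos (-a * s)
      nlinarith [mul_le_mul_of_nonneg_right h5 h7.le]
    have h8 : Real.exp (-(a + l.sum) * s) = Real.exp (-a * s) * Real.exp (-l.sum * s) := by
      rw [← Real.exp_add]; ring_nf
    calc a * l.prod * s ^ (l.length + 1) * Real.exp (-(a + l.sum) * s)
        = (a * s * Real.exp (-a * s)) * (l.prod * s ^ l.length * Real.exp (-l.sum * s)) := by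
          rw [h8]; ring
      _ ≤ (1 - Real.exp (-a * s)) * (l.map (fun h => 1 - Real.exp (-h * s))).prod := by
          apply mul_le_mul h4 h2 (by positivity)
          exact le_trans (by positivity) h4

private lemma lap_cont (hs : List ℝ) :
    Continuous (fun s : ℝ => (hs.map (fun h => 1 - Real.exp (-h * s))).prod) := by
  induction hs with
  | nil => simpa using continuous_const
  | cons a l ih =>
    simp only [List.map_cons, List.prod_cons]
    fun_prop

private lemma lap_pow_int (n : ℕ) {c : ℝ} (hc : 0 < c) :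
    IntegrableOn (fun s : ℝ => s ^ n * Real.exp (-c * s)) (Set.Ioi 0) := by
  have h := integrableOn_rpow_mul_exp_neg_mul_rpow (p := 1) (s := (n : ℝ)) (b := c)
    (by have : (0 : ℝ) ≤ n := Nat.cast_nonneg n
        linarith) one_pos hc
  refine h.congr_fun (fun s _ => ?_) measurableSet_Ioi
  simp [Real.rpow_natCast]

private lemma lap_pow_integral (n : ℕ) {c : ℝ} (hc : 0 < c) :
    ∫ s in Set.Ioi (0 : ℝ), s ^ n * Real.exp (-c * s) = (n.factorial : ℝ) / c ^ (n + 1) := by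
  have h := Real.integral_rpow_mul_exp_neg_mul_Ioi (a := (n : ℝ) + 1) (r := c) (by positivity) hc
  have h1 : ∫ s in Set.Ioi (0 : ℝ), s ^ n * Real.exp (-c * s)
      = ∫ t : ℝ in Set.Ioi 0, t ^ ((n : ℝ) + 1 - 1) * Real.exp (-(c * t)) := by
    apply setIntegral_congr_fun measurableSet_Ioi
    intro s _
    simp [Real.rpow_natCast]
  rw [h1, h, Real.Gamma_nat_eq_factorial]
  have h2 : (1 / c) ^ ((n : ℝ) + 1) = 1 / c ^ (n + 1) := by
    have : ((n : ℝ) + 1) = ((n + 1 : ℕ) : ℝ) := by push_cast; ring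
    rw [this, Real.rpow_natCast, one_div, one_div, inv_pow]
  rw [h2]
  ring

private lemma lap_int (hs : List ℝ) (hpos : ∀ g ∈ hs, 0 < g) {c : ℝ} (hc : 0 < c) :
    IntegrableOn (fun s : ℝ => Real.exp (-c * s) * (hs.map (fun h => 1 - Real.exp (-h * s))).prod)
      (Set.Ioi 0) := by
  have h := lap_pow_int 0 hc
  refine Integrable.mono' h ?_ ?_
  · exact (Continuous.aestronglyMeasurable (by
      have := lap_cont hs
      fun_prop))
  · refine (ae_restrict_iff' measurableSet_Ioi).mpr (Filter.Eventually.of_forall (fun s hs0 => ?_))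
    have h0 : 0 < s := hs0
    have h1 := lap_prod_nonneg hs hpos h0
    have h2 := lap_prod_le_one hs hpos h0
    have h3 := Real.exp_pos (-c * s)
    rw [Real.norm_of_nonneg (by positivity)]
    simp only [pow_zero, one_mul]
    nlinarith

private lemma lap_int' (hs : List ℝ) (hpos : ∀ g ∈ hs, 0 < g) {c : ℝ} (hc : 0 < c) :
    IntegrableOn (fun s : ℝ =>
      s * (Real.exp (-c * s) * (hs.map (fun h => 1 - Real.exp (-h * s))).prod)) (Set.Ioi 0) := by
  have h := lap_pow_int 1 hc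
  refine Integrable.mono' h ?_ ?_
  · exact (Continuous.aestronglyMeasurable (by
      have := lap_cont hs
      fun_prop))
  · refine (ae_restrict_iff' measurableSet_Ioi).mpr (Filter.Eventually.of_forall (fun s hs0 => ?_))
    have h0 : 0 < s := hs0
    have h1 := lap_prod_nonneg hs hpos h0
    have h2 := lap_prod_le_one hs hpos h0
    have h3 := Real.exp_pos (-c * s)
    rw [Real.norm_of_nonneg (by positivity)]
    simp only [pow_one]
    apply mul_le_mul_of_nonneg_left _ h0.le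
    nlinarith

theorem LL_nil (β x : ℝ) (hx : 0 < x + β) : LL [] β x = 1 / (x + β) := by
  have h := lap_pow_integral 0 hx
  simp only [pow_zero, one_mul, Nat.factorial_zero, Nat.cast_one, zero_add, pow_one] at h
  simpa [LL] using h

theorem LL_cons (h : ℝ) (hs : List ℝ) (β x : ℝ) (hx : 0 < x + β) (hh : 0 < h) (hpos : ∀ g ∈ hs, 0 < g) :
    LL (h :: hs) β x = LL hs β x - LL hs β (x + h) := by
  have h1 := lap_int hs hpos hx
  have h2 := lap_int hs hpos (c := x + h + β) (by linarith)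
  unfold LL
  rw [← integral_sub h1 h2]
  apply setIntegral_congr_fun measurableSet_Ioi
  intro s _
  simp only [List.map_cons, List.prod_cons]
  have h3 : Real.exp (-(x + h + β) * s) = Real.exp (-(x + β) * s) * Real.exp (-h * s) := by
    rw [← Real.exp_add]; ring_nf
  rw [h3]
  ring

private lemma LD_nil (β x : ℝ) (hx : 0 < x + β) : LD [] β x = 1 / (x + β) ^ 2 := by
  have h := lap_pow_integral 1 hx
  simp only [pow_one, Nat.factorial_one, Nat.cast_one, one_add_one_eq_two] at h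
  simpa [LD] using h

private lemma LD_cons (h : ℝ) (hs : List ℝ) (β x : ℝ) (hx : 0 < x + β) (hh : 0 < h)
    (hpos : ∀ g ∈ hs, 0 < g) :
    LD (h :: hs) β x = LD hs β x - LD hs β (x + h) := by
  have h1 := lap_int' hs hpos hx
  have h2 := lap_int' hs hpos (c := x + h + β) (by linarith)
  unfold LD
  rw [← integral_sub h1 h2]
  apply setIntegral_congr_fun measurableSet_Ioi
  intro s _
  simp only [List.map_cons, List.prod_cons]
  have h3 : Real.exp (-(x + h + β) * s) = Real.exp (-(x + β) * s) * Real.exp (-h * s) := by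
    rw [← Real.exp_add]; ring_nf
  rw [h3]
  ring

theorem LL_le (hs : List ℝ) (β x : ℝ) (hx : 0 < x + β) (hpos : ∀ g ∈ hs, 0 < g) :
    LL hs β x ≤ (hs.length.factorial : ℝ) * hs.prod / (x + β) ^ (hs.length + 1) := by
  have h1 := lap_int hs hpos hx
  have h2 := (lap_pow_int hs.length hx).const_mul hs.prod
  have h3 : LL hs β x ≤ ∫ s in Set.Ioi (0 : ℝ),
      hs.prod * (s ^ hs.length * Real.exp (-(x + β) * s)) := by
    unfold LL
    apply setIntegral_mono_on h1 h2 measurableSet_Ioi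
    intro s hs0
    have h0 : 0 < s := hs0
    have h4 := lap_prod_le hs hpos h0
    have h5 := Real.exp_pos (-(x + β) * s)
    nlinarith [mul_le_mul_of_nonneg_left h4 h5.le]
  rw [integral_const_mul, lap_pow_integral hs.length hx] at h3
  calc LL hs β x ≤ hs.prod * ((hs.length.factorial : ℝ) / (x + β) ^ (hs.length + 1)) := h3
    _ = (hs.length.factorial : ℝ) * hs.prod / (x + β) ^ (hs.length + 1) := by ring

theorem LL_ge (hs : List ℝ) (β x : ℝ) (hx : 0 < x + β) (hpos : ∀ g ∈ hs, 0 < g) :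
    (hs.length.factorial : ℝ) * hs.prod / (x + β + hs.sum) ^ (hs.length + 1) ≤ LL hs β x := by
  have h1 := lap_int hs hpos hx
  have hs0 := lap_sum_nonneg hs hpos
  have hx2 : 0 < x + β + hs.sum := by linarith
  have h2 := (lap_pow_int hs.length hx2).const_mul hs.prod
  have h3 : ∫ s in Set.Ioi (0 : ℝ),
      hs.prod * (s ^ hs.length * Real.exp (-(x + β + hs.sum) * s)) ≤ LL hs β x := by
    unfold LL
    apply setIntegral_mono_on h2 h1 measurableSet_Ioi
    intro s hs0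
    have h0 : 0 < s := hs0
    have h4 := lap_prod_ge hs hpos h0
    have h5 := Real.exp_pos (-(x + β) * s)
    have h6 : Real.exp (-(x + β + hs.sum) * s)
        = Real.exp (-(x + β) * s) * Real.exp (-hs.sum * s) := by
      rw [← Real.exp_add]; ring_nf
    rw [h6]
    calc hs.prod * (s ^ hs.length * (Real.exp (-(x + β) * s) * Real.exp (-hs.sum * s)))
        = Real.exp (-(x + β) * s) * (hs.prod * s ^ hs.length * Real.exp (-hs.sum * s)) := by ring
      _ ≤ Real.exp (-(x + β) * s) * (hs.map (fun h => 1 - Real.exp (-h * s))).prod :=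
          mul_le_mul_of_nonneg_left h4 h5.le
  rw [integral_const_mul, lap_pow_integral hs.length hx2] at h3
  calc (hs.length.factorial : ℝ) * hs.prod / (x + β + hs.sum) ^ (hs.length + 1)
      = hs.prod * ((hs.length.factorial : ℝ) / (x + β + hs.sum) ^ (hs.length + 1)) := by ring
    _ ≤ LL hs β x := h3

theorem LD_nonneg (hs : List ℝ) (β x : ℝ) (hpos : ∀ g ∈ hs, 0 < g) : 0 ≤ LD hs β x := by
  unfold LD
  apply setIntegral_nonneg measurableSet_Ioi
  intro s hs0
  have h0 : 0 < s := hs0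
  have h1 := lap_prod_nonneg hs hpos h0
  positivity

theorem LL_hasDerivAt (hs : List ℝ) (β x : ℝ) (hx : 0 < x + β) (hpos : ∀ g ∈ hs, 0 < g) :
    HasDerivAt (LL hs β) (-LD hs β x) x := by
  induction hs generalizing x with
  | nil =>
    rw [LD_nil β x hx]
    have h1 : HasDerivAt (fun y : ℝ => (y + β)⁻¹) (-1 / (x + β) ^ 2) x :=
      ((hasDerivAt_id x).add_const β).inv hx.ne'
    have h2 : (LL [] β) =ᶠ[nhds x] (fun y : ℝ => (y + β)⁻¹) := by
      have h3 : ∀ᶠ y in nhds x, -β < y := lt_mem_nhds (by linarith)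
      filter_upwards [h3] with y hy
      rw [LL_nil β y (by linarith), one_div]
    have h4 := h1.congr_of_eventuallyEq h2
    have h5 : -(1 / (x + β) ^ 2) = -1 / (x + β) ^ 2 := by ring
    rw [h5]
    exact h4
  | cons a l ih =>
    have ha : 0 < a := hpos a (by simp)
    have hl : ∀ g ∈ l, 0 < g := fun g hg => hpos g (by simp [hg])
    rw [LD_cons a l β x hx ha hl]
    have h1 := ih x hx hl
    have h2 := (ih (x + a) (by linarith) hl).comp_add_const x a
    have h3 : (LL (a :: l) β) =ᶠ[nhds x] (fun y : ℝ => LL l β y - LL l β (y + a)) := by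
      have h4 : ∀ᶠ y in nhds x, -β < y := lt_mem_nhds (by linarith)
      filter_upwards [h4] with y hy
      exact LL_cons a l β y (by linarith) ha hl
    have h5 := (h1.sub h2).congr_of_eventuallyEq h3
    have h6 : -(LD l β x - LD l β (x + a)) = -LD l β x - -LD l β (x + a) := by ring
    rw [h6]
    exact h5

theorem LD_continuousOn (hs : List ℝ) (β : ℝ) (hpos : ∀ g ∈ hs, 0 < g) :
    ContinuousOn (LD hs β) (Set.Ioi (-β)) := by
  induction hs with
  | nil =>
    have h1 : ContinuousOn (fun y : ℝ => 1 / (y + β) ^ 2) (Set.Ioi (-β)) := by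
      apply ContinuousOn.div continuousOn_const (by fun_prop)
      intro y hy
      have : 0 < y + β := by
        have : -β < y := hy
        linarith
      positivity
    refine h1.congr (fun y hy => ?_)
    have : -β < y := hy
    exact LD_nil β y (by linarith)
  | cons a l ih =>
    have ha : 0 < a := hpos a (by simp)
    have hl : ∀ g ∈ l, 0 < g := fun g hg => hpos g (by simp [hg])
    have h1 := ih hl
    have h2 : ContinuousOn (fun y : ℝ => LD l β (y + a)) (Set.Ioi (-β)) := by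
      refine h1.comp (by fun_prop) (fun y hy => ?_)
      have : -β < y := hy
      show -β < y + a
      linarith
    refine (h1.sub h2).congr (fun y hy => ?_)
    have : -β < y := hy
    exact LD_cons a l β y (by linarith) ha hl

end Pool.Agent.H76.EHB

end

section

/-!
# EHB Vdc1: the inequality of Weyl and van der Corput

Put `z n = 0` outside `Ioc a b`.  `H ∑_n z_n = ∑_m ∑_{0 ≤ h < H} z_{m+h}` where `m` runs over at most `Y + H ≤ 2Y` integers; Cauchy:
`H^2 |∑ z|^2 ≤ (Y+H) ∑_m |∑_{h<H} z_{m+h}|^2 = (Y+H) ∑_{h1,h2<H} ∑_m z_{m+h1} conj z_{m+h2}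
 ≤ (Y+H) (H Y + 2 H ∑_{h=1}^{H-1} |∑_n z_{n+h} conj z_n|)`, the inner sum over `n ∈ Ioc a (b-h)`.
(Work with integers or shift; with natural numbers take `m + h` with `m` from `a + 1 - H`: use `ℤ` or replace `z_{m+h}` by
`z_{m-h}`, `m ∈ Ioc a (b + H)`.)
-/

set_option autoImplicit false

namespace Pool.Agent.H76.EHB

open Finset

private theorem vdc_shift (g : ℕ → ℂ) (c d h : ℕ) :
    ∑ n ∈ Ioc c d, g (n + h) = ∑ m ∈ Ioc (c + h) (d + h), g m := by
  rw [← Finset.map_add_right_Ioc, Finset.sum_map]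
  simp

private theorem vdc_pair (z w : ℕ → ℂ) (a b H : ℕ)
    (hw1 : ∀ n ∈ Ioc a b, w n = z n) (hw0 : ∀ n, n ∉ Ioc a b → w n = 0) (h1 h2 : ℕ)
    (h12 : h1 ≤ h2) (h2H : h2 ≤ H) :
    ∑ m ∈ Ioc a (b + H), w (m - h1) * (starRingEnd ℂ) (w (m - h2))
      = ∑ n ∈ Ioc a (b - (h2 - h1)), z (n + (h2 - h1)) * (starRingEnd ℂ) (z n) := by
  have e1 : ∑ n ∈ Ioc a (b - (h2 - h1)), z (n + (h2 - h1)) * (starRingEnd ℂ) (z n)
      = ∑ n ∈ Ioc a (b - (h2 - h1)), (fun m => w (m - h1) * (starRingEnd ℂ) (w (m - h2))) (n + h2) := by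
    refine Finset.sum_congr rfl fun n hn => ?_
    rw [mem_Ioc] at hn
    show z (n + (h2 - h1)) * (starRingEnd ℂ) (z n)
      = w (n + h2 - h1) * (starRingEnd ℂ) (w (n + h2 - h2))
    have e2 : n + h2 - h2 = n := by omega
    have e3 : n + h2 - h1 = n + (h2 - h1) := by omega
    rw [e2, e3, hw1 n (mem_Ioc.2 ⟨by omega, by omega⟩), hw1 _ (mem_Ioc.2 ⟨by omega, by omega⟩)]
  rw [e1, vdc_shift (fun m => w (m - h1) * (starRingEnd ℂ) (w (m - h2))) _ _ h2]
  symm
  apply Finset.sum_subset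
  · intro m hm
    rw [mem_Ioc] at hm ⊢
    omega
  · intro m hm hm2
    rw [mem_Ioc] at hm hm2
    by_cases hc : m - h1 ∈ Ioc a b
    · have hc2 : m - h2 ∉ Ioc a b := by
        intro hc2
        rw [mem_Ioc] at hc hc2
        apply hm2
        omega
      rw [hw0 _ hc2]; simp
    · rw [hw0 _ hc]; simp

private theorem vdc_single (z w : ℕ → ℂ) (a b H : ℕ)
    (hw1 : ∀ n ∈ Ioc a b, w n = z n) (hw0 : ∀ n, n ∉ Ioc a b → w n = 0) (h : ℕ) (hH : h ≤ H) :
    ∑ m ∈ Ioc a (b + H), w (m - h) = ∑ n ∈ Ioc a b, z n := by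
  have e1 : ∑ n ∈ Ioc a b, z n = ∑ n ∈ Ioc a b, (fun m => w (m - h)) (n + h) := by
    refine Finset.sum_congr rfl fun n hn => ?_
    show z n = w (n + h - h)
    rw [show n + h - h = n by omega, hw1 n hn]
  rw [e1, vdc_shift (fun m => w (m - h)) _ _ h]
  symm
  apply Finset.sum_subset
  · intro m hm
    rw [mem_Ioc] at hm ⊢
    omega
  · intro m hm hm2
    rw [mem_Ioc] at hm hm2
    refine hw0 _ fun hc => ?_
    rw [mem_Ioc] at hc
    apply hm2
    omega

theorem vdc_step (z : ℕ → ℂ) (hz : ∀ n, ‖z n‖ ≤ 1) (a b Y H : ℕ) (hab : b - a ≤ Y) (hH : 1 ≤ H)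
    (hHY : H ≤ Y) :
    ‖∑ n ∈ Ioc a b, z n‖ ^ 2
      ≤ 2 * (Y : ℝ) ^ 2 / H + 4 * (Y : ℝ) / H * ∑ h ∈ Icc 1 H,
          ‖∑ n ∈ Ioc a (b - h), z (n + h) * (starRingEnd ℂ) (z n)‖ := by
  classical
  set w : ℕ → ℂ := fun n => if n ∈ Ioc a b then z n else 0 with hw
  have hw1 : ∀ n ∈ Ioc a b, w n = z n := fun n hn => by simp only [hw, if_pos hn]
  have hw0 : ∀ n, n ∉ Ioc a b → w n = 0 := fun n hn => by simp only [hw, if_neg hn]
  set C : ℕ → ℝ := fun h => ‖∑ n ∈ Ioc a (b - h), z (n + h) * (starRingEnd ℂ) (z n)‖ with hC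
  have hC0 : ∀ h, 0 ≤ C h := fun h => norm_nonneg _
  set Sg : ℝ := ∑ h ∈ Icc 1 H, C h with hSg
  have hSg0 : 0 ≤ Sg := Finset.sum_nonneg fun h _ => hC0 h
  have hCz : C 0 ≤ Y := by
    simp only [hC]
    refine (norm_sum_le _ _).trans ?_
    calc ∑ n ∈ Ioc a (b - 0), ‖z (n + 0) * (starRingEnd ℂ) (z n)‖
        ≤ ∑ n ∈ Ioc a (b - 0), (1:ℝ) := by
          refine Finset.sum_le_sum fun n _ => ?_
          rw [norm_mul, RCLike.norm_conj]
          calc ‖z (n + 0)‖ * ‖z n‖ ≤ 1 * 1 := mul_le_mul (hz _) (hz _) (norm_nonneg _) (by norm_num)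
            _ = 1 := by norm_num
      _ = ((b - a : ℕ) : ℝ) := by simp
      _ ≤ Y := by exact_mod_cast hab
  -- pairs
  set T : ℕ → ℕ → ℂ := fun h1 h2 => ∑ m ∈ Ioc a (b + H), w (m - h1) * (starRingEnd ℂ) (w (m - h2))
    with hT
  have hTle : ∀ h1 h2, h1 ≤ h2 → h2 ≤ H → ‖T h1 h2‖ = C (h2 - h1) := by
    intro h1 h2 h12 h2H
    simp only [hT, hC]
    rw [vdc_pair z w a b H hw1 hw0 h1 h2 h12 h2H]
  have hTsymm : ∀ h1 h2, ‖T h1 h2‖ = ‖T h2 h1‖ := by
    intro h1 h2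
    rw [← RCLike.norm_conj (T h1 h2)]
    congr 1
    simp only [hT, map_sum, map_mul, Complex.conj_conj]
    exact Finset.sum_congr rfl fun m _ => mul_comm _ _
  -- row sums
  have hrow : ∀ h1 ∈ range H, ∑ h2 ∈ range H, ‖T h1 h2‖ ≤ Y + 2 * Sg := by
    intro h1 hh1
    rw [mem_range] at hh1
    have hsplit : ∑ h2 ∈ range H, ‖T h1 h2‖
        = ∑ h2 ∈ range h1, ‖T h1 h2‖ + ∑ h2 ∈ Ico h1 H, ‖T h1 h2‖ := by
      rw [Finset.sum_range_add_sum_Ico _ hh1.le]
    rw [hsplit]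
    have hA : ∑ h2 ∈ range h1, ‖T h1 h2‖ ≤ Sg := by
      have e : ∑ h2 ∈ range h1, ‖T h1 h2‖ = ∑ h2 ∈ range h1, C (h1 - h2) := by
        refine Finset.sum_congr rfl fun h2 hh2 => ?_
        rw [mem_range] at hh2
        rw [hTsymm, hTle h2 h1 hh2.le hh1.le]
      rw [e]
      have e2 : ∑ h2 ∈ range h1, C (h1 - h2) = ∑ d ∈ Icc 1 h1, C d := by
        refine Finset.sum_nbij' (fun h2 => h1 - h2) (fun d => h1 - d) ?_ ?_ ?_ ?_ ?_
        · intro x hx
          rw [mem_range] at hx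
          rw [mem_Icc]; omega
        · intro x hx
          rw [mem_Icc] at hx
          rw [mem_range]; omega
        · intro x hx
          rw [mem_range] at hx
          show h1 - (h1 - x) = x
          omega
        · intro x hx
          rw [mem_Icc] at hx
          show h1 - (h1 - x) = x
          omega
        · intro x _
          rfl
      rw [e2]
      refine Finset.sum_le_sum_of_subset_of_nonneg ?_ fun h _ _ => hC0 h
      exact Finset.Icc_subset_Icc le_rfl hh1.le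
    have hB : ∑ h2 ∈ Ico h1 H, ‖T h1 h2‖ ≤ Y + Sg := by
      have e : ∑ h2 ∈ Ico h1 H, ‖T h1 h2‖ = ∑ h2 ∈ Ico h1 H, C (h2 - h1) := by
        refine Finset.sum_congr rfl fun h2 hh2 => ?_
        rw [mem_Ico] at hh2
        rw [hTle h1 h2 hh2.1 hh2.2.le]
      rw [e, Finset.sum_Ico_eq_sum_range]
      have e2 : ∑ i ∈ range (H - h1), C (h1 + i - h1) = ∑ i ∈ range (H - h1), C i :=
        Finset.sum_congr rfl fun i _ => by rw [Nat.add_sub_cancel_left]
      rw [e2]
      obtain ⟨m, hm⟩ : ∃ m, H - h1 = m + 1 := ⟨H - h1 - 1, by omega⟩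
      rw [hm, Finset.sum_range_succ']
      have e3 : ∑ k ∈ range m, C (k + 1) ≤ Sg := by
        have e4 : ∑ k ∈ range m, C (k + 1) = ∑ d ∈ Ico 1 (m + 1), C d := by
          rw [Finset.sum_Ico_eq_sum_range]
          simp [add_comm]
        rw [e4]
        refine Finset.sum_le_sum_of_subset_of_nonneg ?_ fun h _ _ => hC0 h
        intro x hx
        rw [mem_Ico] at hx
        rw [mem_Icc]; omega
      linarith
    linarith
  -- the main identity
  have hS1 : (H : ℂ) * ∑ n ∈ Ioc a b, z n = ∑ m ∈ Ioc a (b + H), ∑ h ∈ range H, w (m - h) := by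
    rw [Finset.sum_comm]
    rw [Finset.sum_congr rfl (fun h hh => vdc_single z w a b H hw1 hw0 h (by
      rw [mem_range] at hh; exact hh.le))]
    simp
  have hS2 : ((∑ m ∈ Ioc a (b + H), ‖∑ h ∈ range H, w (m - h)‖ ^ 2 : ℝ) : ℂ)
      = ∑ h1 ∈ range H, ∑ h2 ∈ range H, T h1 h2 := by
    push_cast
    have e : ∀ m, ((‖∑ h ∈ range H, w (m - h)‖ : ℂ)) ^ 2
        = ∑ h1 ∈ range H, ∑ h2 ∈ range H, w (m - h1) * (starRingEnd ℂ) (w (m - h2)) := by
      intro m
      rw [← Complex.mul_conj']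
      rw [map_sum, Finset.sum_mul_sum]
    rw [Finset.sum_congr rfl (fun m _ => e m), Finset.sum_comm]
    refine Finset.sum_congr rfl fun h1 _ => ?_
    rw [Finset.sum_comm]
  have hS3 : ∑ m ∈ Ioc a (b + H), ‖∑ h ∈ range H, w (m - h)‖ ^ 2 ≤ H * (Y + 2 * Sg) := by
    have hnn : 0 ≤ ∑ m ∈ Ioc a (b + H), ‖∑ h ∈ range H, w (m - h)‖ ^ 2 :=
      Finset.sum_nonneg fun m _ => by positivity
    have e : ∑ m ∈ Ioc a (b + H), ‖∑ h ∈ range H, w (m - h)‖ ^ 2
        = ‖((∑ m ∈ Ioc a (b + H), ‖∑ h ∈ range H, w (m - h)‖ ^ 2 : ℝ) : ℂ)‖ := by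
      rw [Complex.norm_real, Real.norm_of_nonneg hnn]
    rw [e, hS2]
    refine (norm_sum_le _ _).trans ?_
    calc ∑ h1 ∈ range H, ‖∑ h2 ∈ range H, T h1 h2‖
        ≤ ∑ h1 ∈ range H, (Y + 2 * Sg) :=
          Finset.sum_le_sum fun h1 hh1 => (norm_sum_le _ _).trans (hrow h1 hh1)
      _ = H * (Y + 2 * Sg) := by
        rw [Finset.sum_const, card_range, nsmul_eq_mul]
  have hcs : ‖∑ m ∈ Ioc a (b + H), ∑ h ∈ range H, w (m - h)‖ ^ 2
      ≤ ((Ioc a (b + H)).card : ℝ) * ∑ m ∈ Ioc a (b + H), ‖∑ h ∈ range H, w (m - h)‖ ^ 2 := by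
    have h1 : ‖∑ m ∈ Ioc a (b + H), ∑ h ∈ range H, w (m - h)‖
        ≤ ∑ m ∈ Ioc a (b + H), ‖∑ h ∈ range H, w (m - h)‖ := norm_sum_le _ _
    have h2 : (∑ m ∈ Ioc a (b + H), ‖∑ h ∈ range H, w (m - h)‖) ^ 2
        ≤ ((Ioc a (b + H)).card : ℝ) * ∑ m ∈ Ioc a (b + H), ‖∑ h ∈ range H, w (m - h)‖ ^ 2 :=
      sq_sum_le_card_mul_sum_sq
    exact (pow_le_pow_left₀ (norm_nonneg _) h1 2).trans h2
  have hcard : ((Ioc a (b + H)).card : ℝ) ≤ 2 * Y := by
    rw [Nat.card_Ioc]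
    have : b + H - a ≤ 2 * Y := by omega
    exact_mod_cast this
  have hH0 : (0:ℝ) < H := by exact_mod_cast hH
  have hfin : (H:ℝ) ^ 2 * ‖∑ n ∈ Ioc a b, z n‖ ^ 2 ≤ 2 * Y * (H * (Y + 2 * Sg)) := by
    have e : (H:ℝ) ^ 2 * ‖∑ n ∈ Ioc a b, z n‖ ^ 2 = ‖(H : ℂ) * ∑ n ∈ Ioc a b, z n‖ ^ 2 := by
      rw [norm_mul, mul_pow, Complex.norm_natCast]
    rw [e, hS1]
    refine hcs.trans ?_
    have hnn : 0 ≤ ∑ m ∈ Ioc a (b + H), ‖∑ h ∈ range H, w (m - h)‖ ^ 2 :=
      Finset.sum_nonneg fun m _ => by positivity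
    exact mul_le_mul hcard hS3 hnn (by positivity)
  have e : 2 * (Y : ℝ) ^ 2 / H + 4 * (Y : ℝ) / H * Sg = 2 * Y * (H * (Y + 2 * Sg)) / H ^ 2 := by
    field_simp; ring
  rw [e, le_div_iff₀ (by positivity)]
  linarith

end Pool.Agent.H76.EHB

end

section

/-!
# MID Plw: Plancherel for multiplicative windows

Proof.  `G(u) = Dw c X θ u = ∑_m c m 1[log m - θ ≤ u < log m]` is a bounded step function with compact support (in `L¹ ∩ L²`).
`∫ G(u) ee(-(u t)) du = ∑_m c m ee(-(t log m)) κ(t) = Cs c X t · κ(t)`, `κ(t) = ∫_{-θ}^0 ee(-(v t)) dv`, `‖κ(t)‖ ≤ θ`, `‖κ(t)‖ ≤ 1/(π |t|)`.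
`Pool.Agent.H76.EHB.planch`: `∫ ‖G‖^2 = ∫ ‖Cs c X t‖^2 ‖κ t‖^2 dt ≤ θ^2 ∫_{|t| ≤ U} ‖Cs‖^2 + ∫_{|t| > U} ‖Cs‖^2/(π^2 t^2) dt`.
Tail: dyadic pieces `2^j U < |t| ≤ 2^(j+1) U` and `mvt` (`τ = 0`): `≤ ∑_j (4^j U^2 π^2)^(-1) (2^(j+2) U + 2 X (1 + log X)) ∑|c|^2
≤ (4/U + 4 X (1+log X)/U^2) ∑ |c|^2` (or: `1/t^2 = ∫_{|t|}^∞ 2 v^(-3) dv` and Tonelli).
-/

set_option autoImplicit false

namespace Pool.Agent.H53.MID

open Finset MeasureTheory
open Pool.Agent.H91.PK (ee)

private noncomputable def Plw_k (θ t : ℝ) : ℂ := ∫ v in (-θ)..0, ee (-(v * t))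

private theorem Plw_cont (t : ℝ) : Continuous (fun v : ℝ => ee (-(v * t))) := by
  unfold ee
  fun_prop

private theorem Plw_cont2 (s : ℝ) : Continuous (fun t : ℝ => ee (-(t * s))) := by
  unfold ee
  fun_prop

private theorem Plw_k_le (θ t : ℝ) (hθ : 0 < θ) : ‖Plw_k θ t‖ ≤ θ := by
  have h := intervalIntegral.norm_integral_le_of_norm_le_const (a := -θ) (b := 0) (C := 1)
    (f := fun v : ℝ => ee (-(v * t))) (fun v _ => (Pool.Agent.H91.PK.LSa_norm_ee _).le)
  have h2 : |(0 : ℝ) - -θ| = θ := by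
    rw [sub_neg_eq_add, zero_add, abs_of_pos hθ]
  rw [h2, one_mul] at h
  exact h

private theorem Plw_k_le2 (θ t : ℝ) (ht : t ≠ 0) : ‖Plw_k θ t‖ ≤ 1 / (Real.pi * |t|) := by
  have hpi := Real.pi_pos
  have hc : (-(2 * Real.pi * t) * Complex.I : ℂ) ≠ 0 := by
    have : (2 * Real.pi * t : ℂ) ≠ 0 := by
      have h1 : (Real.pi : ℂ) ≠ 0 := by exact_mod_cast hpi.ne'
      have h2 : (t : ℂ) ≠ 0 := by exact_mod_cast ht
      exact mul_ne_zero (mul_ne_zero two_ne_zero h1) h2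
    exact mul_ne_zero (neg_ne_zero.2 this) Complex.I_ne_zero
  have e : ∀ v : ℝ, ee (-(v * t)) = Complex.exp ((-(2 * Real.pi * t) * Complex.I : ℂ) * (v : ℂ)) := by
    intro v
    unfold ee
    congr 1
    push_cast
    ring
  unfold Plw_k
  simp_rw [e]
  rw [integral_exp_mul_complex hc, norm_div]
  have h1 : ‖(-(2 * Real.pi * t) * Complex.I : ℂ)‖ = 2 * Real.pi * |t| := by
    rw [norm_mul, norm_neg, Complex.norm_I, mul_one, norm_mul, norm_mul]
    simp [abs_of_pos hpi]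
  rw [h1]
  have h2 : ∀ v : ℝ, ‖Complex.exp ((-(2 * Real.pi * t) * Complex.I : ℂ) * (v : ℂ))‖ = 1 := by
    intro v
    rw [← e]
    exact Pool.Agent.H91.PK.LSa_norm_ee _
  have h3 : ‖Complex.exp ((-(2 * Real.pi * t) * Complex.I : ℂ) * ((0 : ℝ) : ℂ)) -
      Complex.exp ((-(2 * Real.pi * t) * Complex.I : ℂ) * ((-θ : ℝ) : ℂ))‖ ≤ 2 := by
    refine (norm_sub_le _ _).trans ?_
    rw [h2, h2]
    norm_num
  have h4 : 0 < |t| := abs_pos.2 ht
  calc _ ≤ 2 / (2 * Real.pi * |t|) := div_le_div_of_nonneg_right h3 (by positivity)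
    _ = 1 / (Real.pi * |t|) := by
      field_simp

private theorem Plw_Dw (c : ℕ → ℂ) (X : ℕ) (θ u : ℝ) :
    Dw c X θ u = ∑ m ∈ Icc 1 X, (Set.Ico (Real.log m - θ) (Real.log m)).indicator (fun _ => c m) u := by
  unfold Dw
  rw [Finset.sum_filter]
  refine Finset.sum_congr rfl fun m _ => ?_
  by_cases h : u < Real.log m ∧ Real.log m ≤ u + θ
  · rw [if_pos h, Set.indicator_of_mem]
    exact ⟨by linarith [h.2], h.1⟩
  · rw [if_neg h, Set.indicator_of_notMem]
    rintro ⟨h1, h2⟩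
    exact h ⟨h2, by linarith⟩

private theorem Plw_int1 (c : ℕ → ℂ) (X : ℕ) (θ : ℝ) : Integrable (fun u => Dw c X θ u) := by
  simp_rw [Plw_Dw]
  refine integrable_finsetSum _ fun m _ => ?_
  rw [integrable_indicator_iff measurableSet_Ico]
  exact integrableOn_const (by simp) (by simp)

private theorem Plw_mem (c : ℕ → ℂ) (X : ℕ) (θ : ℝ) : MemLp (fun u => Dw c X θ u) 2 := by
  simp_rw [Plw_Dw]
  refine memLp_finsetSum _ fun m _ => ?_
  exact memLp_indicator_const 2 measurableSet_Ico (c m) (Or.inr (by simp))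

private theorem Plw_four (c : ℕ → ℂ) (X : ℕ) (θ t : ℝ) (hθ : 0 < θ) :
    ∫ u, Dw c X θ u * ee (-(u * t)) = Cs c X t * Plw_k θ t := by
  have h1 : ∀ u : ℝ, Dw c X θ u * ee (-(u * t)) = ∑ m ∈ Icc 1 X,
      (Set.Ico (Real.log m - θ) (Real.log m)).indicator (fun u : ℝ => c m * ee (-(u * t))) u := by
    intro u
    rw [Plw_Dw, Finset.sum_mul]
    refine Finset.sum_congr rfl fun m _ => ?_
    by_cases h : u ∈ Set.Ico (Real.log m - θ) (Real.log m)
    · rw [Set.indicator_of_mem h, Set.indicator_of_mem h]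
    · rw [Set.indicator_of_notMem h, Set.indicator_of_notMem h, zero_mul]
  simp_rw [h1]
  rw [integral_finsetSum]
  · unfold Cs
    rw [Finset.sum_mul]
    refine Finset.sum_congr rfl fun m _ => ?_
    rw [integral_indicator measurableSet_Ico, integral_Ico_eq_integral_Ioo, ← integral_Ioc_eq_integral_Ioo,
      ← intervalIntegral.integral_of_le (by linarith), intervalIntegral.integral_const_mul, mul_assoc]
    congr 1
    unfold Plw_k
    rw [← intervalIntegral.integral_const_mul]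
    have h2 := intervalIntegral.integral_comp_add_right (a := -θ) (b := 0)
      (fun u : ℝ => ee (-(u * t))) (Real.log m)
    have h3 : -θ + Real.log m = Real.log m - θ := by ring
    rw [h3, zero_add] at h2
    rw [← h2]
    refine intervalIntegral.integral_congr fun v _ => ?_
    show ee (-((v + Real.log m) * t)) = ee (-(t * Real.log m)) * ee (-(v * t))
    rw [← Pool.Agent.H91.PK.LSa_ee_add]
    congr 1
    ring
  · intro m _
    rw [integrable_indicator_iff measurableSet_Ico]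
    exact ((continuous_const.mul (Plw_cont t)).integrableOn_Icc).mono_set Set.Ico_subset_Icc_self

private theorem Plw_Cs_cont (c : ℕ → ℂ) (X : ℕ) : Continuous (fun t => Cs c X t) := by
  unfold Cs
  exact continuous_finsetSum _ fun m _ => continuous_const.mul (Plw_cont2 _)

/-- one dyadic step -/
private theorem Plw_step (c : ℕ → ℂ) (X : ℕ) (θ V : ℝ) (hX : 1 ≤ X) (hV : 0 < V)
    (hI : Integrable (fun t : ℝ => ‖Cs c X t * Plw_k θ t‖ ^ 2)) :
    ∫ t in Set.Icc (-(2 * V)) (2 * V), ‖Cs c X t * Plw_k θ t‖ ^ 2 ≤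
      (∫ t in Set.Icc (-V) V, ‖Cs c X t * Plw_k θ t‖ ^ 2) +
        1 / (9 * V ^ 2) * ((4 * V + 2 * X * (1 + Real.log X)) * ∑ m ∈ Icc 1 X, ‖c m‖ ^ 2) := by
  have hpi := Real.pi_gt_three
  have hmv := mvt c X (2 * V) 0 hX (by linarith)
  have hC : Continuous (fun t => ‖Cs c X t‖ ^ 2) := (Plw_Cs_cont c X).norm.pow 2
  have h1 : ∫ t in Set.Icc (-(2 * V)) (2 * V), ‖Cs c X t * Plw_k θ t‖ ^ 2 ≤
      ∫ t in Set.Icc (-(2 * V)) (2 * V), ((Set.Icc (-V) V).indicator (fun t => ‖Cs c X t * Plw_k θ t‖ ^ 2) t +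
        1 / (9 * V ^ 2) * ‖Cs c X t‖ ^ 2) := by
    refine setIntegral_mono_on hI.integrableOn ?_ measurableSet_Icc ?_
    · refine Integrable.add ?_ ?_
      · exact ((hI.integrableOn (s := Set.Icc (-V) V)).integrable_indicator measurableSet_Icc).integrableOn
      · exact (continuous_const.mul hC).integrableOn_Icc
    · intro t _
      by_cases h : t ∈ Set.Icc (-V) V
      · rw [Set.indicator_of_mem h]
        have : 0 ≤ 1 / (9 * V ^ 2) * ‖Cs c X t‖ ^ 2 := by positivity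
        linarith
      · rw [Set.indicator_of_notMem h, zero_add, norm_mul, mul_pow, mul_comm]
        refine mul_le_mul_of_nonneg_right ?_ (by positivity)
        have hlt : V < |t| := by
          by_contra hcon
          push Not at hcon
          exact h ⟨by linarith [(abs_le.1 hcon).1], (abs_le.1 hcon).2⟩
        have ht : t ≠ 0 := by
          intro h0
          rw [h0, abs_zero] at hlt
          linarith
        have h2 := Plw_k_le2 θ t ht
        have h3 : 1 / (Real.pi * |t|) ≤ 1 / (3 * V) := by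
          apply one_div_le_one_div_of_le (by positivity)
          exact mul_le_mul hpi.le hlt.le hV.le (by linarith)
        calc ‖Plw_k θ t‖ ^ 2 ≤ (1 / (3 * V)) ^ 2 := pow_le_pow_left₀ (norm_nonneg _) (h2.trans h3) 2
          _ = 1 / (9 * V ^ 2) := by
            field_simp
            norm_num
  refine h1.trans ?_
  rw [integral_add]
  · refine add_le_add ?_ ?_
    · rw [setIntegral_indicator measurableSet_Icc]
      refine le_of_eq ?_
      congr 2
      ext t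
      simp only [Set.mem_inter_iff, Set.mem_Icc]
      constructor
      · exact fun h => h.2
      · intro h
        exact ⟨⟨by linarith [h.1], by linarith [h.2]⟩, h⟩
    · rw [integral_const_mul]
      refine mul_le_mul_of_nonneg_left ?_ (by positivity)
      have h5 : ∀ t : ℝ, ∑ m ∈ Icc 1 X, c m * ee (-((0 + t) * Real.log m)) = Cs c X t := by
        intro t
        unfold Cs
        simp
      simp_rw [h5] at hmv
      refine hmv.trans (le_of_eq ?_)
      ring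
  · exact ((hI.integrableOn (s := Set.Icc (-V) V)).integrable_indicator measurableSet_Icc).integrableOn
  · exact (continuous_const.mul hC).integrableOn_Icc

private theorem Plw_iter (c : ℕ → ℂ) (X : ℕ) (θ U : ℝ) (hX : 1 ≤ X) (hU : 0 < U)
    (hI : Integrable (fun t : ℝ => ‖Cs c X t * Plw_k θ t‖ ^ 2)) (n : ℕ) :
    ∫ t in Set.Icc (-(2 ^ n * U)) (2 ^ n * U), ‖Cs c X t * Plw_k θ t‖ ^ 2 ≤
      (∫ t in Set.Icc (-U) U, ‖Cs c X t * Plw_k θ t‖ ^ 2) +
        (1 - 1 / 2 ^ n) * ((4 / U + 4 * X * (1 + Real.log X) / U ^ 2) * ∑ m ∈ Icc 1 X, ‖c m‖ ^ 2) := by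
  have hS : 0 ≤ ∑ m ∈ Icc 1 X, ‖c m‖ ^ 2 := Finset.sum_nonneg fun _ _ => by positivity
  have hlog : 0 ≤ Real.log X := Real.log_natCast_nonneg X
  induction n with
  | zero => simp
  | succ n ih =>
    have hV : 0 < 2 ^ n * U := by positivity
    have h1 := Plw_step c X θ (2 ^ n * U) hX hV hI
    have e1 : (2 : ℝ) ^ (n + 1) * U = 2 * (2 ^ n * U) := by ring
    rw [e1]
    have h2 : 1 / (9 * (2 ^ n * U) ^ 2) * ((4 * (2 ^ n * U) + 2 * X * (1 + Real.log X)) * ∑ m ∈ Icc 1 X, ‖c m‖ ^ 2) ≤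
        (1 / 2 ^ (n + 1)) * ((4 / U + 4 * X * (1 + Real.log X) / U ^ 2) * ∑ m ∈ Icc 1 X, ‖c m‖ ^ 2) := by
      rw [← mul_assoc (1 / (9 * (2 ^ n * U) ^ 2)), ← mul_assoc (1 / (2 : ℝ) ^ (n + 1))]
      refine mul_le_mul_of_nonneg_right ?_ hS
      have h3 : 1 / (9 * (2 ^ n * U) ^ 2) * (4 * (2 ^ n * U)) ≤ 1 / 2 ^ (n + 1) * (4 / U) := by
        rw [pow_succ]
        have hp : (0 : ℝ) < 2 ^ n := by positivity
        rw [one_div_mul_eq_div, one_div_mul_eq_div, div_div, div_le_div_iff₀ (by positivity) (by positivity)]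
        nlinarith [mul_pos hp hU, mul_pos (mul_pos hp hU) (mul_pos hp hU)]
      have h4 : 1 / (9 * (2 ^ n * U) ^ 2) * (2 * X * (1 + Real.log X)) ≤
          1 / 2 ^ (n + 1) * (4 * X * (1 + Real.log X) / U ^ 2) := by
        have hp : (1 : ℝ) ≤ 2 ^ n := one_le_pow₀ (by norm_num)
        have hA : 0 ≤ (X : ℝ) * (1 + Real.log X) := by positivity
        have e2 : 1 / (9 * (2 ^ n * U) ^ 2) * (2 * X * (1 + Real.log X)) =
            (X * (1 + Real.log X)) * (2 / (9 * (2 ^ n * U) ^ 2)) := by ring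
        have e3 : 1 / 2 ^ (n + 1) * (4 * X * (1 + Real.log X) / U ^ 2) =
            (X * (1 + Real.log X)) * (4 / (2 ^ (n + 1) * U ^ 2)) := by
          field_simp
        rw [e2, e3]
        refine mul_le_mul_of_nonneg_left ?_ hA
        rw [div_le_div_iff₀ (by positivity) (by positivity), pow_succ]
        have hU2 : 0 < U ^ 2 := by positivity
        nlinarith [mul_le_mul_of_nonneg_right hp (mul_nonneg (le_trans zero_le_one hp) hU2.le),
          mul_pos (lt_of_lt_of_le one_pos hp) hU2]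
      calc _ = 1 / (9 * (2 ^ n * U) ^ 2) * (4 * (2 ^ n * U)) +
            1 / (9 * (2 ^ n * U) ^ 2) * (2 * X * (1 + Real.log X)) := by ring
        _ ≤ _ := add_le_add h3 h4
        _ = _ := by ring
    have e4 : (1 : ℝ) - 1 / 2 ^ (n + 1) = (1 - 1 / 2 ^ n) + 1 / 2 ^ (n + 1) := by
      rw [pow_succ]
      field_simp
      ring
    rw [e4, add_mul]
    linarith

theorem plw (c : ℕ → ℂ) (X : ℕ) (θ U : ℝ) (hX : 1 ≤ X) (hθ : 0 < θ) (hU : 0 < U) :
    Integrable (fun u => ‖Dw c X θ u‖ ^ 2) ∧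
    ∫ u, ‖Dw c X θ u‖ ^ 2 ≤ θ ^ 2 * (∫ t in Set.Icc (-U) U, ‖Cs c X t‖ ^ 2)
      + (4 / U + 4 * X * (1 + Real.log X) / U ^ 2) * ∑ m ∈ Icc 1 X, ‖c m‖ ^ 2 := by
  have hm := Plw_mem c X θ
  refine ⟨hm.integrable_norm_pow (by norm_num), ?_⟩
  obtain ⟨hI, hE⟩ := Pool.Agent.H76.EHB.planch (fun u => Dw c X θ u) (Plw_int1 c X θ) hm
  simp_rw [Plw_four c X θ _ hθ] at hI hE
  rw [← hE]
  have hS : 0 ≤ ∑ m ∈ Icc 1 X, ‖c m‖ ^ 2 := Finset.sum_nonneg fun _ _ => by positivity
  have hlog : 0 ≤ Real.log X := Real.log_natCast_nonneg X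
  have h1 : ∫ t in Set.Icc (-U) U, ‖Cs c X t * Plw_k θ t‖ ^ 2 ≤ θ ^ 2 * (∫ t in Set.Icc (-U) U, ‖Cs c X t‖ ^ 2) := by
    rw [← integral_const_mul]
    refine setIntegral_mono_on hI.integrableOn ?_ measurableSet_Icc ?_
    · exact (continuous_const.mul ((Plw_Cs_cont c X).norm.pow 2)).integrableOn_Icc
    · intro t _
      rw [norm_mul, mul_pow, mul_comm]
      refine mul_le_mul_of_nonneg_right ?_ (by positivity)
      exact pow_le_pow_left₀ (norm_nonneg _) (Plw_k_le θ t hθ) 2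
  have hcov : AECover volume Filter.atTop (fun n : ℕ => Set.Icc (-(2 ^ n * U)) (2 ^ n * U)) := by
    have ht : Filter.Tendsto (fun n : ℕ => (2 : ℝ) ^ n * U) Filter.atTop Filter.atTop :=
      (tendsto_pow_atTop_atTop_of_one_lt (by norm_num)).atTop_mul_const hU
    exact aecover_Icc (Filter.tendsto_neg_atTop_atBot.comp ht) ht
  have hlim := hcov.integral_tendsto_of_countably_generated hI
  refine le_of_tendsto hlim (Filter.Eventually.of_forall fun n => ?_)
  refine (Plw_iter c X θ U hX hU hI n).trans ?_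
  refine add_le_add h1 ?_
  have h2 : 0 ≤ (4 / U + 4 * X * (1 + Real.log X) / U ^ 2) * ∑ m ∈ Icc 1 X, ‖c m‖ ^ 2 := by positivity
  have h3 : (0 : ℝ) ≤ 1 / 2 ^ n := by positivity
  nlinarith

end Pool.Agent.H53.MID

end

section

/-!
# MID Fac: factorisation of the twisted Dirichlet polynomial into residue classes

`Pl P d l s = ∑_{p ∈ pb P, p ≡ l (d)} ee(-s log p)`, `Kl f K1 K2 a s = ∑_{K1 < k ≤ K2} f k ee(-k a) ee(-s log k)`.
`fac`: for `2 P K2 ≤ X`, `1 ≤ d`: `Cs (cc (cut K1 K2 f) P (b/d) T) X t = ∑_{l < d} Pl P d l (T+t) Kl f K1 K2 (l b/d) (T+t)`.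
Proof.  `m = p k`: `Cs = ∑_{m ≤ X} ∑_{p ∈ pb P, p ∣ m} cut f (m/p) ee(-m b/d) ee(-(T+t) log m) = ∑_{p ∈ pb P} ∑_{k ∈ Ioc K1 K2} f k ee(-p k b/d) ee(-(T+t) log p) ee(-(T+t) log k)`
(`k ↦ p k` is a bijection onto the multiples of `p` in `[1, X]` with `K1 < m/p ≤ K2`, since `p K2 ≤ 2 P K2 ≤ X`), and `ee(-p k b/d) = ee(-l k b/d)` for `p ≡ l (d)`.
`fac_sq`: Cauchy-Schwarz.
-/

set_option autoImplicit false

namespace Pool.Agent.H53.MID

open Finset
open Pool.Agent.H91.PK (ee)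
open Pool.Agent.H35.W (pb)

noncomputable def Pl (P d l : ℕ) (s : ℝ) : ℂ := ∑ p ∈ (pb P).filter (fun p => p % d = l % d), ee (-(s * Real.log p))

noncomputable def Kl (f : ℕ → ℝ) (K1 K2 : ℕ) (a s : ℝ) : ℂ :=
  ∑ k ∈ Ioc K1 K2, (f k : ℂ) * ee (-(k * a)) * ee (-(s * Real.log k))

private theorem Fac_ee_add (a b : ℝ) : ee (a + b) = ee a * ee b := by
  unfold ee
  rw [← Complex.exp_add]
  congr 1
  push_cast
  ring

private theorem Fac_ee_int (n : ℤ) : ee (n : ℝ) = 1 := by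
  unfold ee
  have h : 2 * (Real.pi : ℂ) * ((n : ℝ) : ℂ) * Complex.I = n * (2 * Real.pi * Complex.I) := by
    push_cast
    ring
  rw [h]
  exact Complex.exp_int_mul_two_pi_mul_I n

private theorem Fac_class {p l d k b : ℕ} (hd : 1 ≤ d) (h : p % d = l % d) :
    ee (-(((p * k : ℕ) : ℝ) * ((b : ℝ) / d))) = ee (-((k : ℝ) * ((l : ℝ) * b / d))) := by
  have hd0 : (d : ℝ) ≠ 0 := by
    have : d ≠ 0 := by omega
    exact_mod_cast this
  have hdvd : (d : ℤ) ∣ (l : ℤ) - p := (Nat.modEq_iff_dvd).mp h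
  obtain ⟨q, hq⟩ := hdvd
  have hq' : (l : ℝ) - p = d * q := by exact_mod_cast hq
  have h1 : -(((p * k : ℕ) : ℝ) * ((b : ℝ) / d)) =
      -((k : ℝ) * ((l : ℝ) * b / d)) + ((k * q * b : ℤ) : ℝ) := by
    have hp : (p : ℝ) = l - d * q := by linarith
    push_cast
    rw [hp]
    field_simp
    ring
  rw [h1, Fac_ee_add, Fac_ee_int, mul_one]

private theorem Fac_p (f : ℕ → ℝ) (E : ℕ → ℂ) {p K1 K2 X P : ℕ} (hp : 1 ≤ p) (hp2 : p ≤ 2 * P)
    (hX : 2 * P * K2 ≤ X) :
    ∑ m ∈ (Icc 1 X).filter (fun m => p ∣ m), ((cut K1 K2 f (m / p) : ℝ) : ℂ) * E m =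
      ∑ k ∈ Ioc K1 K2, ((f k : ℝ) : ℂ) * E (p * k) := by
  classical
  have hinj : Set.InjOn (fun k => p * k) (Ioc K1 K2 : Set ℕ) := by
    intro a _ b _ hab
    exact Nat.eq_of_mul_eq_mul_left (by omega) hab
  have h1 : ∑ k ∈ Ioc K1 K2, ((f k : ℝ) : ℂ) * E (p * k) =
      ∑ m ∈ (Ioc K1 K2).image (fun k => p * k), ((cut K1 K2 f (m / p) : ℝ) : ℂ) * E m := by
    rw [Finset.sum_image hinj]
    refine Finset.sum_congr rfl fun k hk => ?_
    have h2 : p * k / p = k := Nat.mul_div_cancel_left k (by omega)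
    simp only [h2, cut, if_pos hk]
  rw [h1]
  symm
  apply Finset.sum_subset
  · intro m hm
    rw [Finset.mem_image] at hm
    obtain ⟨k, hk, rfl⟩ := hm
    rw [Finset.mem_Ioc] at hk
    rw [Finset.mem_filter, Finset.mem_Icc]
    refine ⟨⟨?_, ?_⟩, Dvd.intro _ rfl⟩
    · have : 1 ≤ k := by omega
      exact Nat.one_le_iff_ne_zero.mpr (Nat.mul_ne_zero (by omega) (by omega))
    · exact (Nat.mul_le_mul hp2 hk.2).trans hX
  · intro m hm hm'
    rw [Finset.mem_filter] at hm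
    obtain ⟨k, rfl⟩ := hm.2
    have h2 : p * k / p = k := Nat.mul_div_cancel_left k (by omega)
    have hk : k ∉ Ioc K1 K2 := fun hk => hm' (Finset.mem_image.mpr ⟨k, hk, rfl⟩)
    simp only [h2, cut, if_neg hk, Complex.ofReal_zero, zero_mul]

private theorem Fac_log {p k : ℕ} (s : ℝ) (hp : 1 ≤ p) (hk : 1 ≤ k) :
    ee (-(s * Real.log ((p * k : ℕ) : ℝ))) =
      ee (-(s * Real.log p)) * ee (-(s * Real.log k)) := by
  have hp0 : (p : ℝ) ≠ 0 := by
    have : p ≠ 0 := by omega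
    exact_mod_cast this
  have hk0 : (k : ℝ) ≠ 0 := by
    have : k ≠ 0 := by omega
    exact_mod_cast this
  rw [← Fac_ee_add]
  congr 1
  push_cast
  rw [Real.log_mul hp0 hk0]
  ring

theorem fac (f : ℕ → ℝ) (P K1 K2 X d b : ℕ) (T t : ℝ) (hd : 1 ≤ d) (hX : 2 * P * K2 ≤ X) :
    Cs (cc (cut K1 K2 f) P ((b : ℝ) / d) T) X t =
      ∑ l ∈ range d, Pl P d l (T + t) * Kl f K1 K2 ((l : ℝ) * b / d) (T + t) := by
  classical
  have hpb : ∀ p ∈ pb P, 1 ≤ p ∧ p ≤ 2 * P := by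
    intro p hp
    unfold pb at hp
    rw [Finset.mem_filter, Finset.mem_Ioc] at hp
    omega
  -- the sum over `m`
  have h1 : Cs (cc (cut K1 K2 f) P ((b : ℝ) / d) T) X t =
      ∑ m ∈ Icc 1 X, ∑ p ∈ (pb P).filter (fun p => p ∣ m), ((cut K1 K2 f (m / p) : ℝ) : ℂ) *
        (ee (-((m : ℝ) * ((b : ℝ) / d))) * ee (-((T + t) * Real.log m))) := by
    unfold Cs
    refine Finset.sum_congr rfl fun m _ => ?_
    unfold cc Fp
    have h2 : ee (-((T + t) * Real.log m)) = ee (-(T * Real.log m)) * ee (-(t * Real.log m)) := by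
      rw [← Fac_ee_add]
      congr 1
      ring
    rw [← Finset.sum_mul, h2]
    push_cast
    ring
  -- swap
  have h3 : Cs (cc (cut K1 K2 f) P ((b : ℝ) / d) T) X t =
      ∑ p ∈ pb P, ∑ k ∈ Ioc K1 K2, ((f k : ℝ) : ℂ) *
        (ee (-(((p * k : ℕ) : ℝ) * ((b : ℝ) / d))) * ee (-((T + t) * Real.log ((p * k : ℕ) : ℝ)))) := by
    rw [h1]
    have h4 : ∀ m ∈ Icc 1 X, ∑ p ∈ (pb P).filter (fun p => p ∣ m),
        ((cut K1 K2 f (m / p) : ℝ) : ℂ) *
          (ee (-((m : ℝ) * ((b : ℝ) / d))) * ee (-((T + t) * Real.log m))) =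
        ∑ p ∈ pb P, if p ∣ m then ((cut K1 K2 f (m / p) : ℝ) : ℂ) *
          (ee (-((m : ℝ) * ((b : ℝ) / d))) * ee (-((T + t) * Real.log m))) else 0 := by
      intro m _
      rw [Finset.sum_filter]
    rw [Finset.sum_congr rfl h4, Finset.sum_comm]
    refine Finset.sum_congr rfl fun p hp => ?_
    rw [← Finset.sum_filter]
    exact Fac_p f (fun m => ee (-((m : ℝ) * ((b : ℝ) / d))) * ee (-((T + t) * Real.log m)))
      (hpb p hp).1 (hpb p hp).2 hX
  rw [h3]
  -- the classes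
  have h5 : ∀ l ∈ range d, Pl P d l (T + t) * Kl f K1 K2 ((l : ℝ) * b / d) (T + t) =
      ∑ p ∈ (pb P).filter (fun p => p % d = l), ∑ k ∈ Ioc K1 K2, ((f k : ℝ) : ℂ) *
        (ee (-(((p * k : ℕ) : ℝ) * ((b : ℝ) / d))) *
          ee (-((T + t) * Real.log ((p * k : ℕ) : ℝ)))) := by
    intro l hl
    have hl' : l % d = l := Nat.mod_eq_of_lt (Finset.mem_range.mp hl)
    unfold Pl Kl
    rw [hl', Finset.sum_mul]
    refine Finset.sum_congr rfl fun p hp => ?_
    rw [Finset.mem_filter] at hp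
    rw [Finset.mul_sum]
    refine Finset.sum_congr rfl fun k hk => ?_
    rw [Finset.mem_Ioc] at hk
    rw [Fac_class hd (hp.2.trans hl'.symm), Fac_log (T + t) (hpb p hp.1).1 (by omega)]
    ring
  rw [Finset.sum_congr rfl h5]
  rw [Finset.sum_fiberwise_of_maps_to (s := pb P) (t := range d) (g := fun p => p % d)
    (fun p _ => Finset.mem_range.mpr (Nat.mod_lt _ (by omega)))
    (fun p => ∑ k ∈ Ioc K1 K2, ((f k : ℝ) : ℂ) *
        (ee (-(((p * k : ℕ) : ℝ) * ((b : ℝ) / d))) *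
          ee (-((T + t) * Real.log ((p * k : ℕ) : ℝ)))))]

theorem fac_sq (f : ℕ → ℝ) (P K1 K2 X d b : ℕ) (T t : ℝ) (hd : 1 ≤ d) (hX : 2 * P * K2 ≤ X) :
    ‖Cs (cc (cut K1 K2 f) P ((b : ℝ) / d) T) X t‖ ^ 2 ≤
      d * ∑ l ∈ range d, ‖Pl P d l (T + t)‖ ^ 2 * ‖Kl f K1 K2 ((l : ℝ) * b / d) (T + t)‖ ^ 2 := by
  rw [fac f P K1 K2 X d b T t hd hX]
  have h1 : ‖∑ l ∈ range d, Pl P d l (T + t) * Kl f K1 K2 ((l : ℝ) * b / d) (T + t)‖ ≤
      ∑ l ∈ range d, ‖Pl P d l (T + t)‖ * ‖Kl f K1 K2 ((l : ℝ) * b / d) (T + t)‖ := by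
    refine (norm_sum_le _ _).trans (le_of_eq ?_)
    refine Finset.sum_congr rfl fun l _ => norm_mul _ _
  have h2 := sq_sum_le_card_mul_sum_sq (s := range d)
    (f := fun l => ‖Pl P d l (T + t)‖ * ‖Kl f K1 K2 ((l : ℝ) * b / d) (T + t)‖)
  rw [Finset.card_range] at h2
  refine (pow_le_pow_left₀ (norm_nonneg _) h1 2).trans (h2.trans (le_of_eq ?_))
  congr 1
  refine Finset.sum_congr rfl fun l _ => mul_pow _ _ _

end Pool.Agent.H53.MID

end
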