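import Pool.Agent.H43.PM.H53.MID.Nz
import Pool.Agent.H43.PM.M07

/-! The parts of this file: H76.EHB.MelB, H97.VK.PropA, H76.EHB.Ibp, H76.EHB.AvA, H76.EHB.Vdc2, H97.VK.Sft, H80.LV.Defs, H80.LV.Dual, H92.EH2.LS, H53.MID.Net. -/

section

/-!
# EHB MelB: the Mellin transform for small `t`

`FF_near`: Abel summation: `FF(α+θ) = ∑ f(n) e(nα) e(nθ)`, `|e((n+1)θ) - e(nθ)| ≤ 2π|θ|`, so `|FF(α+θ)| ≤ (1 + 2π|θ| N) E` if all truncated
sums `∑_{n ≤ u} f(n) e(nα)`, `u ≤ N`, are at most `E` in absolute value.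
`mel_small`: `Mel g t = ∫_0^Θ g(θ) θ^{-1/2-it} dθ`, `g = gg`, `s = ±1`.  Let `θ0 = 1/P`.  The part `θ ≤ θ0` is at most
`∫_0^{θ0} (1 + 7 θ N) E θ^{-1/2} ≤ 2 √θ0 (1 + 7 θ0 N) E`.  If `Θ > θ0` the rest is
`∑_n f(n) e(nα) ∫_{θ0}^Θ e(s (n - a) θ) θ^{-1/2-it} dθ`, at most `Fm ∑_n (1+|t|) bb P (n - a)` by `osc1` (for `|n-a| < 1`), `osc3`
(for `1 ≤ |n-a| ≤ P`), `osc2` (`|n-a| > P`, `1/√θ0 = √P`), and `bb_sum`.
-/

set_option autoImplicit false

namespace Pool.Agent.H76.EHB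

open Finset MeasureTheory
open Pool.Agent.H91.PK (ee)

theorem melB_ee_sub (x θ : ℝ) : ‖ee (x + θ) - ee x‖ ≤ 7 * |θ| := by
  have h1 : ee (x + θ) - ee x = ee x * (ee θ - 1) := by
    rw [Pool.Agent.H91.PK.LSa_ee_add]; ring
  rw [h1, norm_mul, Pool.Agent.H91.PK.LSa_norm_ee, one_mul]
  have h2 : ee θ = Complex.exp (Complex.I * ((2 * Real.pi * θ : ℝ) : ℂ)) := by
    unfold Pool.Agent.H91.PK.ee
    congr 1
    push_cast
    ring
  rw [h2]
  refine (Real.norm_exp_I_mul_ofReal_sub_one_le).trans ?_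
  rw [Real.norm_eq_abs, abs_mul, abs_of_pos (by positivity : (0 : ℝ) < 2 * Real.pi)]
  have h3 := Real.pi_lt_d2
  have h4 := abs_nonneg θ
  nlinarith

end Pool.Agent.H76.EHB

end

section

set_option autoImplicit false

namespace Pool.Agent.H97.VK

open Finset
open Pool.Agent.H91.PK (ee)

/-- the statement of `jv_eight` -/
def jv_eight_P : Prop :=
    ∃ C : ℝ, 1 ≤ C ∧ ∀ k M : ℕ, 2 ≤ k → 1 ≤ M →
    (JV k (8 * k ^ 2) M : ℝ) ≤ (C * k) ^ (C * k ^ 3) *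
      (M : ℝ) ^ (16 * (k : ℝ) ^ 2 - (k : ℝ) * (k + 1) / 2 + (k : ℝ) ^ 2 / 1000)

/-- the statement of `vexp` -/
def vexp_P : Prop :=
    ∃ c C : ℝ, 0 < c ∧ 1 ≤ C ∧ ∀ (κ N a b : ℕ) (β t : ℝ), 4 ≤ κ → (C * κ) ^ C ≤ N →
    N ≤ a → b ≤ 2 * N → 0 ≤ β → β ≤ 1 → (N : ℝ) ^ (4 * κ - 4) ≤ |t| → |t| ≤ (N : ℝ) ^ (4 * κ) →
    ‖∑ n ∈ Ioc a b, ee (t * Real.log (n + β))‖ ≤ C * (N : ℝ) ^ (1 - c / (κ : ℝ) ^ 2)

end Pool.Agent.H97.VK

end

section

/-!
# EHB Ibp: sums with a small monotone derivative of the phase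

`∑_{a<n≤b} ee(φ n) - ∫_a^b ee(φ x) dx = ∑_n ∫_{n-1}^n (ee(φ n) - ee(φ x)) dx`, at most `2π Λ (b-a)` in absolute value (mean value theorem,
`|φ'| ≤ Λ`).  And `∫_a^b ee(φ) = ∫ (2πi σ ψ ee(φ)) * 1/(2πi σ ψ)`: by parts `= [ee(φ)/(2πiσψ)]_a^b + ∫ ee(φ) ψ'/(2πiσψ²)`, at most
`2/(2πλ) + (1/2π) ∫ (-ψ')/ψ² = 2/(2πλ) + (1/2π)(1/ψ(b) - 1/ψ(a)) ≤ 3/(2πλ) ≤ 1/λ`.
-/

set_option autoImplicit false

namespace Pool.Agent.H76.EHB

open Finset MeasureTheory
open Pool.Agent.H91.PK (ee)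

theorem Ibp_ee_hasDerivAt (φ : ℝ → ℝ) (φ' x : ℝ) (h : HasDerivAt φ φ' x) :
    HasDerivAt (fun y => ee (φ y)) (2 * Real.pi * φ' * Complex.I * ee (φ x)) x := by
  unfold ee
  have h1 : HasDerivAt (fun y : ℝ => ((φ y : ℝ) : ℂ)) (φ' : ℂ) x := h.ofReal_comp
  have h2 : HasDerivAt (fun y : ℝ => 2 * (Real.pi : ℂ) * ((φ y : ℝ) : ℂ) * Complex.I)
      (2 * (Real.pi : ℂ) * (φ' : ℂ) * Complex.I) x := (h1.const_mul _).mul_const _
  have h3 := h2.cexp
  convert h3 using 1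
  ring

theorem Ibp_norm_ee (t : ℝ) : ‖ee t‖ = 1 := Pool.Agent.H91.PK.LSa_norm_ee t

theorem Ibp_norm_deriv (s t : ℝ) :
    ‖(2 * Real.pi * (s : ℂ) * Complex.I * ee t : ℂ)‖ = 2 * Real.pi * |s| := by
  rw [norm_mul, Ibp_norm_ee, norm_mul, Complex.norm_I, norm_mul, norm_mul, Complex.norm_real,
    Complex.norm_real, Complex.norm_ofNat, Real.norm_eq_abs, Real.norm_eq_abs,
    abs_of_pos Real.pi_pos]
  ring

/-- the sum against the integral -/
theorem Ibp_sum_int (φ ψ : ℝ → ℝ) (a b : ℕ) (hab : a ≤ b) (σ Lam : ℝ) (hσ : |σ| = 1)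
    (h1 : ∀ x ∈ Set.Icc (a : ℝ) b, HasDerivAt φ (σ * ψ x) x)
    (h5 : ∀ x ∈ Set.Icc (a : ℝ) b, 0 < ψ x ∧ ψ x ≤ Lam) :
    ‖∑ n ∈ Ioc a b, ee (φ n) - ∫ x in (a : ℝ)..b, ee (φ x)‖ ≤
      2 * Real.pi * Lam * ((b : ℝ) - a) := by
  have habR : (a : ℝ) ≤ b := by exact_mod_cast hab
  have hcont : ContinuousOn (fun x => ee (φ x)) (Set.Icc (a : ℝ) b) := fun x hx =>
    (Ibp_ee_hasDerivAt φ _ x (h1 x hx)).continuousAt.continuousWithinAt
  have hsub : ∀ k ∈ Ico a b, Set.uIcc ((k : ℕ) : ℝ) ((k + 1 : ℕ) : ℝ) ⊆ Set.Icc (a : ℝ) b := by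
    intro k hk
    rw [mem_Ico] at hk
    rw [Set.uIcc_of_le (by push_cast; linarith)]
    apply Set.Icc_subset_Icc
    · exact_mod_cast hk.1
    · exact_mod_cast hk.2
  have hint : ∀ k ∈ Ico a b, IntervalIntegrable (fun x => ee (φ x)) volume ((k : ℕ) : ℝ)
      ((k + 1 : ℕ) : ℝ) := fun k hk => (hcont.mono (hsub k hk)).intervalIntegrable
  have hI : ∑ k ∈ Ico a b, ∫ x in ((k : ℕ) : ℝ)..((k + 1 : ℕ) : ℝ), ee (φ x) =
      ∫ x in (a : ℝ)..b, ee (φ x) :=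
    intervalIntegral.sum_integral_adjacent_intervals_Ico (a := fun k : ℕ => (k : ℝ)) hab
      (fun k hk => hint k (by rw [mem_Ico]; exact hk))
  have hS : ∑ n ∈ Ioc a b, ee (φ n) = ∑ k ∈ Ico a b, ee (φ ((k + 1 : ℕ) : ℝ)) := by
    rw [Finset.sum_Ico_add' (fun n : ℕ => ee (φ (n : ℝ))) a b 1]
    apply Finset.sum_congr _ (fun _ _ => rfl)
    ext x
    simp only [mem_Ioc, mem_Ico]
    omega
  rw [hS, ← hI, ← Finset.sum_sub_distrib]
  have hterm : ∀ k ∈ Ico a b, ‖ee (φ ((k + 1 : ℕ) : ℝ)) -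
      ∫ x in ((k : ℕ) : ℝ)..((k + 1 : ℕ) : ℝ), ee (φ x)‖ ≤ 2 * Real.pi * Lam := by
    intro k hk
    have e1 : ee (φ ((k + 1 : ℕ) : ℝ)) =
        ∫ x in ((k : ℕ) : ℝ)..((k + 1 : ℕ) : ℝ), ee (φ ((k + 1 : ℕ) : ℝ)) := by
      rw [intervalIntegral.integral_const]
      push_cast
      rw [show (k : ℝ) + 1 - k = 1 by ring, one_smul]
    have e2 : ee (φ ((k + 1 : ℕ) : ℝ)) - ∫ x in ((k : ℕ) : ℝ)..((k + 1 : ℕ) : ℝ), ee (φ x) =
        ∫ x in ((k : ℕ) : ℝ)..((k + 1 : ℕ) : ℝ), (ee (φ ((k + 1 : ℕ) : ℝ)) - ee (φ x)) := by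
      rw [intervalIntegral.integral_sub intervalIntegrable_const (hint k hk), ← e1]
    rw [e2]
    have hLam0 : 0 ≤ Lam := by
      have hb : (b : ℝ) ∈ Set.Icc (a : ℝ) b := ⟨habR, le_refl _⟩
      have := h5 _ hb
      linarith
    have hb := intervalIntegral.norm_integral_le_of_norm_le_const (a := ((k : ℕ) : ℝ))
      (b := ((k + 1 : ℕ) : ℝ)) (C := 2 * Real.pi * Lam)
      (f := fun x => ee (φ ((k + 1 : ℕ) : ℝ)) - ee (φ x)) ?_
    · have e3 : |((k + 1 : ℕ) : ℝ) - ((k : ℕ) : ℝ)| = 1 := by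
        push_cast
        rw [show (k : ℝ) + 1 - k = 1 by ring, abs_one]
      rw [e3, mul_one] at hb
      exact hb
    · intro x hx
      have hxI : x ∈ Set.Icc (a : ℝ) b := hsub k hk (Set.uIoc_subset_uIcc hx)
      have hk1 : ((k + 1 : ℕ) : ℝ) ∈ Set.Icc (a : ℝ) b := hsub k hk Set.right_mem_uIcc
      have hm := (convex_Icc (a : ℝ) b).norm_image_sub_le_of_norm_hasDerivWithin_le
        (f := fun x => ee (φ x)) (f' := fun x => 2 * Real.pi * ((σ * ψ x : ℝ) : ℂ) *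
          Complex.I * ee (φ x)) (C := 2 * Real.pi * Lam)
        (fun y hy => (Ibp_ee_hasDerivAt φ _ y (h1 y hy)).hasDerivWithinAt)
        (fun y hy => by
          rw [Ibp_norm_deriv, abs_mul, hσ, one_mul, abs_of_pos (h5 y hy).1]
          exact mul_le_mul_of_nonneg_left (h5 y hy).2 (by positivity)) hxI hk1
      refine hm.trans ?_
      have h6 : ‖((k + 1 : ℕ) : ℝ) - x‖ ≤ 1 := by
        rw [Set.uIoc_of_le (by push_cast; linarith)] at hx
        have h7 := hx.1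
        have h8 := hx.2
        push_cast at h8 ⊢
        rw [Real.norm_eq_abs, abs_le]
        constructor <;> linarith
      calc 2 * Real.pi * Lam * ‖((k + 1 : ℕ) : ℝ) - x‖ ≤ 2 * Real.pi * Lam * 1 :=
            mul_le_mul_of_nonneg_left h6 (by positivity)
        _ = 2 * Real.pi * Lam := mul_one _
  calc ‖∑ k ∈ Ico a b, (ee (φ ((k + 1 : ℕ) : ℝ)) -
        ∫ x in ((k : ℕ) : ℝ)..((k + 1 : ℕ) : ℝ), ee (φ x))‖
      ≤ ∑ k ∈ Ico a b, 2 * Real.pi * Lam := norm_sum_le_of_le _ hterm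
    _ = 2 * Real.pi * Lam * ((b : ℝ) - a) := by
        rw [Finset.sum_const, Nat.card_Ico, nsmul_eq_mul, Nat.cast_sub hab]
        ring

/-- the integral -/
theorem Ibp_int (φ ψ ψ' : ℝ → ℝ) (a b : ℝ) (hab : a ≤ b) (σ lam : ℝ) (hσ : |σ| = 1)
    (hlam : 0 < lam) (h1 : ∀ x ∈ Set.Icc a b, HasDerivAt φ (σ * ψ x) x)
    (h2 : ∀ x ∈ Set.Icc a b, HasDerivAt ψ (ψ' x) x)
    (h3 : ∀ x ∈ Set.Icc a b, ψ' x ≤ 0) (h4 : ContinuousOn ψ' (Set.Icc a b))
    (h5 : ∀ x ∈ Set.Icc a b, lam ≤ ψ x) :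
    ‖∫ x in a..b, ee (φ x)‖ ≤ 1 / lam := by
  have hσ2 : σ * σ = 1 := by
    have := congrArg (fun t => t * t) hσ
    simpa [abs_mul_abs_self] using this
  have hpos : ∀ x ∈ Set.Icc a b, 0 < ψ x := fun x hx => lt_of_lt_of_le hlam (h5 x hx)
  have hψc : ContinuousOn ψ (Set.Icc a b) := fun x hx => (h2 x hx).continuousAt.continuousWithinAt
  have hcont : ContinuousOn (fun x => ee (φ x)) (Set.Icc a b) := fun x hx =>
    (Ibp_ee_hasDerivAt φ _ x (h1 x hx)).continuousAt.continuousWithinAt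
  have huIcc : Set.uIcc a b = Set.Icc a b := Set.uIcc_of_le hab
  -- derivative of 1/ψ
  have hinv : ∀ x ∈ Set.Icc a b, HasDerivAt (fun y => (ψ y)⁻¹) (-ψ' x / (ψ x) ^ 2) x :=
    fun x hx => (h2 x hx).inv (hpos x hx).ne'
  have hgc : ContinuousOn (fun x => -ψ' x / (ψ x) ^ 2) (Set.Icc a b) :=
    (h4.neg).div (hψc.pow 2) (fun x hx => by have := hpos x hx; positivity)
  have hFTC1 : ∫ x in a..b, -ψ' x / (ψ x) ^ 2 = (ψ b)⁻¹ - (ψ a)⁻¹ :=
    intervalIntegral.integral_eq_sub_of_hasDerivAt (fun x hx => hinv x (huIcc ▸ hx))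
      ((huIcc ▸ hgc : ContinuousOn _ (Set.uIcc a b)).intervalIntegrable)
  -- the main function
  set c : ℂ := (σ : ℂ) / (2 * Real.pi * Complex.I) with hc
  have hcn : ‖c‖ = 1 / (2 * Real.pi) := by
    rw [hc, norm_div, norm_mul, norm_mul, Complex.norm_real, Complex.norm_real, Complex.norm_I,
      Complex.norm_ofNat, Real.norm_eq_abs, Real.norm_eq_abs, hσ, abs_of_pos Real.pi_pos, mul_one]
  have hc2 : ∀ s : ℝ, c * (2 * Real.pi * ((σ * s : ℝ) : ℂ) * Complex.I) = s := by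
    intro s
    have hpi : (Real.pi : ℂ) ≠ 0 := by exact_mod_cast Real.pi_ne_zero
    have hI : Complex.I ≠ 0 := Complex.I_ne_zero
    rw [hc]
    push_cast
    field_simp
    have : (σ : ℂ) * σ = 1 := by exact_mod_cast hσ2
    linear_combination (s : ℂ) * this
  have hG : ∀ x ∈ Set.Icc a b, HasDerivAt (fun y => c * ee (φ y) * (((ψ y)⁻¹ : ℝ) : ℂ))
      (ee (φ x) + c * ee (φ x) * ((-ψ' x / (ψ x) ^ 2 : ℝ) : ℂ)) x := by
    intro x hx
    have hd := ((Ibp_ee_hasDerivAt φ _ x (h1 x hx)).const_mul c).mul (hinv x hx).ofReal_comp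
    have h7 := hc2 (ψ x)
    have h8 : ((ψ x : ℝ) : ℂ) * (((ψ x)⁻¹ : ℝ) : ℂ) = 1 := by
      rw [← Complex.ofReal_mul, mul_inv_cancel₀ (hpos x hx).ne', Complex.ofReal_one]
    have h9 : c * (2 * Real.pi * ((σ * ψ x : ℝ) : ℂ) * Complex.I * ee (φ x)) *
        (((ψ x)⁻¹ : ℝ) : ℂ) = ee (φ x) := by
      calc c * (2 * Real.pi * ((σ * ψ x : ℝ) : ℂ) * Complex.I * ee (φ x)) *
        (((ψ x)⁻¹ : ℝ) : ℂ) = (c * (2 * Real.pi * ((σ * ψ x : ℝ) : ℂ) * Complex.I)) * 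
          (((ψ x)⁻¹ : ℝ) : ℂ) * ee (φ x) := by ring
        _ = ee (φ x) := by rw [h7, h8, one_mul]
    rw [h9] at hd
    exact hd
  have hint1 : IntervalIntegrable (fun x => ee (φ x)) volume a b :=
    (huIcc ▸ hcont : ContinuousOn _ (Set.uIcc a b)).intervalIntegrable
  have hcont2 : ContinuousOn (fun x => c * ee (φ x) * ((-ψ' x / (ψ x) ^ 2 : ℝ) : ℂ))
      (Set.Icc a b) :=
    (continuousOn_const.mul hcont).mul (Complex.continuous_ofReal.comp_continuousOn hgc)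
  have hint2 : IntervalIntegrable (fun x => c * ee (φ x) * ((-ψ' x / (ψ x) ^ 2 : ℝ) : ℂ))
      volume a b := (huIcc ▸ hcont2 : ContinuousOn _ (Set.uIcc a b)).intervalIntegrable
  have hFTC2 : ∫ x in a..b, (ee (φ x) + c * ee (φ x) * ((-ψ' x / (ψ x) ^ 2 : ℝ) : ℂ)) =
      c * ee (φ b) * (((ψ b)⁻¹ : ℝ) : ℂ) - c * ee (φ a) * (((ψ a)⁻¹ : ℝ) : ℂ) :=
    intervalIntegral.integral_eq_sub_of_hasDerivAt (fun x hx => hG x (huIcc ▸ hx))
      (hint1.add hint2)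
  rw [intervalIntegral.integral_add hint1 hint2] at hFTC2
  have hmain : ∫ x in a..b, ee (φ x) = (c * ee (φ b) * (((ψ b)⁻¹ : ℝ) : ℂ) -
      c * ee (φ a) * (((ψ a)⁻¹ : ℝ) : ℂ)) -
      ∫ x in a..b, c * ee (φ x) * ((-ψ' x / (ψ x) ^ 2 : ℝ) : ℂ) := by
    rw [← hFTC2]; ring
  have ha : a ∈ Set.Icc a b := ⟨le_refl _, hab⟩
  have hb : b ∈ Set.Icc a b := ⟨hab, le_refl _⟩
  have hia : (ψ a)⁻¹ ≤ 1 / lam := by
    rw [← one_div]; exact one_div_le_one_div_of_le hlam (h5 a ha)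
  have hib : (ψ b)⁻¹ ≤ 1 / lam := by
    rw [← one_div]; exact one_div_le_one_div_of_le hlam (h5 b hb)
  have hia0 : 0 < (ψ a)⁻¹ := inv_pos.mpr (hpos a ha)
  have hib0 : 0 < (ψ b)⁻¹ := inv_pos.mpr (hpos b hb)
  have hbd : ∀ x : ℝ, 0 < (ψ x)⁻¹ → ‖c * ee (φ x) * (((ψ x)⁻¹ : ℝ) : ℂ)‖ =
      1 / (2 * Real.pi) * (ψ x)⁻¹ := by
    intro x hx
    rw [norm_mul, norm_mul, hcn, Ibp_norm_ee, Complex.norm_real, Real.norm_eq_abs, abs_of_pos hx,
      mul_one]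
  have hI2 : ‖∫ x in a..b, c * ee (φ x) * ((-ψ' x / (ψ x) ^ 2 : ℝ) : ℂ)‖ ≤
      1 / (2 * Real.pi) * ((ψ b)⁻¹ - (ψ a)⁻¹) := by
    rw [← hFTC1, ← intervalIntegral.integral_const_mul]
    apply intervalIntegral.norm_integral_le_of_norm_le hab
    · refine Filter.Eventually.of_forall fun x hx => ?_
      have hx' : x ∈ Set.Icc a b := Set.Ioc_subset_Icc_self hx
      rw [norm_mul, norm_mul, hcn, Ibp_norm_ee, Complex.norm_real, Real.norm_eq_abs, abs_of_nonneg,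
        mul_one]
      have := h3 x hx'
      have h0 : 0 ≤ -ψ' x := by linarith
      positivity
    · exact ((huIcc ▸ hgc : ContinuousOn _ (Set.uIcc a b)).intervalIntegrable).const_mul _
  rw [hmain]
  have hpi3 : (3 : ℝ) < Real.pi := Real.pi_gt_three
  have hq : 1 / (2 * Real.pi) ≤ 1 / 3 := by
    apply one_div_le_one_div_of_le <;> linarith
  have hq0 : 0 < 1 / (2 * Real.pi) := by positivity
  calc ‖(c * ee (φ b) * (((ψ b)⁻¹ : ℝ) : ℂ) - c * ee (φ a) * (((ψ a)⁻¹ : ℝ) : ℂ)) -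
      ∫ x in a..b, c * ee (φ x) * ((-ψ' x / (ψ x) ^ 2 : ℝ) : ℂ)‖
      ≤ (‖c * ee (φ b) * (((ψ b)⁻¹ : ℝ) : ℂ)‖ + ‖c * ee (φ a) * (((ψ a)⁻¹ : ℝ) : ℂ)‖) +
        ‖∫ x in a..b, c * ee (φ x) * ((-ψ' x / (ψ x) ^ 2 : ℝ) : ℂ)‖ :=
        (norm_sub_le _ _).trans (by gcongr; exact norm_sub_le _ _)
    _ ≤ (1 / (2 * Real.pi) * (ψ b)⁻¹ + 1 / (2 * Real.pi) * (ψ a)⁻¹) +
        1 / (2 * Real.pi) * ((ψ b)⁻¹ - (ψ a)⁻¹) := by
        rw [hbd b hib0, hbd a hia0]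
        gcongr
    _ = 1 / (2 * Real.pi) * (2 * (ψ b)⁻¹) := by ring
    _ ≤ 1 / 3 * (2 * (ψ b)⁻¹) := by gcongr
    _ ≤ 1 / lam := by nlinarith

theorem first_deriv (φ ψ ψ' : ℝ → ℝ) (a b : ℕ) (hab : a ≤ b) (σ lam Lam : ℝ) (hσ : |σ| = 1)
    (hlam : 0 < lam) (h1 : ∀ x ∈ Set.Icc (a : ℝ) b, HasDerivAt φ (σ * ψ x) x)
    (h2 : ∀ x ∈ Set.Icc (a : ℝ) b, HasDerivAt ψ (ψ' x) x)
    (h3 : ∀ x ∈ Set.Icc (a : ℝ) b, ψ' x ≤ 0) (h4 : ContinuousOn ψ' (Set.Icc (a : ℝ) b))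
    (h5 : ∀ x ∈ Set.Icc (a : ℝ) b, lam ≤ ψ x ∧ ψ x ≤ Lam) :
    ‖∑ n ∈ Ioc a b, ee (φ n)‖ ≤ 1 / lam + 7 * Lam * ((b : ℝ) - a) := by
  have habR : (a : ℝ) ≤ b := by exact_mod_cast hab
  have hA := Ibp_sum_int φ ψ a b hab σ Lam hσ h1
    (fun x hx => ⟨lt_of_lt_of_le hlam (h5 x hx).1, (h5 x hx).2⟩)
  have hB := Ibp_int φ ψ ψ' a b habR σ lam hσ hlam h1 h2 h3 h4 (fun x hx => (h5 x hx).1)
  have hLam0 : 0 ≤ Lam := by
    have hb : (b : ℝ) ∈ Set.Icc (a : ℝ) b := ⟨habR, le_refl _⟩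
    have := h5 _ hb
    linarith [this.1, this.2]
  have hpi : 2 * Real.pi ≤ 7 := by
    have := Real.pi_lt_d2
    linarith
  calc ‖∑ n ∈ Ioc a b, ee (φ n)‖
      = ‖(∑ n ∈ Ioc a b, ee (φ n) - ∫ x in (a : ℝ)..b, ee (φ x)) +
          ∫ x in (a : ℝ)..b, ee (φ x)‖ := by rw [sub_add_cancel]
    _ ≤ 2 * Real.pi * Lam * ((b : ℝ) - a) + 1 / lam :=
        (norm_add_le _ _).trans (add_le_add hA hB)
    _ ≤ 7 * Lam * ((b : ℝ) - a) + 1 / lam := by
        gcongr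
    _ = 1 / lam + 7 * Lam * ((b : ℝ) - a) := by ring

end Pool.Agent.H76.EHB

end

section

/-!
# EHB AvA: the differenced sums of `t log(x+β)`

`PH hs t β` is the iterated difference of `x ↦ t log(x+β)`; derivative `(-1)^J t LL hs β x`, `J = hs.length` (induction, `LL_nil`, `LL_cons`).
`av_base` (`J` differences already made, all `h ≥ 1`, on an interval `[a,b] ⊆ [M, 2M]`, `hs.sum ≤ M`, `0 ≤ β ≤ 1`, `t ≠ 0`): `first_deriv` with
`ψ = |t| LL hs β`, `σ = ±1`, `λ = |t| J! ∏h/(4M)^{J+1}` (`x + β + ∑h ≤ 2M + 1 + M ≤ 4M`), `Λ = |t| J! ∏h/M^{J+1}`, `b - a ≤ M`.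
-/

set_option autoImplicit false

namespace Pool.Agent.H76.EHB

open Finset
open Pool.Agent.H91.PK (ee)

/-- iterated differences of `x ↦ t log(x + β)` -/
noncomputable def PH : List ℝ → ℝ → ℝ → ℝ → ℝ
  | [], t, β, x => t * Real.log (x + β)
  | (h :: hs), t, β, x => PH hs t β (x + h) - PH hs t β x

theorem AvA_deriv (hs : List ℝ) (t β : ℝ) (hpos : ∀ g ∈ hs, 0 < g) : ∀ x : ℝ, 0 < x + β →
    HasDerivAt (PH hs t β) ((-1) ^ hs.length * t * LL hs β x) x := by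
  induction hs with
  | nil =>
    intro x hx
    have h1 : HasDerivAt (fun y : ℝ => t * Real.log (y + β)) (t * (1 / (x + β))) x := by
      have h2 : HasDerivAt (fun y : ℝ => y + β) 1 x := (hasDerivAt_id x).add_const β
      exact (h2.log hx.ne').const_mul t
    rw [LL_nil β x hx]
    simpa [PH] using h1
  | cons h hs ih =>
    intro x hx
    have hh : 0 < h := hpos h (by simp)
    have hpos' : ∀ g ∈ hs, 0 < g := fun g hg => hpos g (by simp [hg])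
    have h1 := ih hpos' (x + h) (by linarith)
    have h2 := ih hpos' x hx
    have h3 : HasDerivAt (fun y : ℝ => PH hs t β (y + h))
        ((-1) ^ hs.length * t * LL hs β (x + h)) x := by
      have h4 : HasDerivAt (fun y : ℝ => y + h) 1 x := (hasDerivAt_id x).add_const h
      have h5 := HasDerivAt.comp x h1 h4
      rw [mul_one] at h5
      exact h5
    have h6 := h3.sub h2
    rw [LL_cons h hs β x hx hh hpos', List.length_cons, pow_succ]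
    have e : (-1 : ℝ) ^ hs.length * t * LL hs β (x + h) - (-1) ^ hs.length * t * LL hs β x =
        (-1) ^ hs.length * (-1) * t * (LL hs β x - LL hs β (x + h)) := by ring
    rw [← e]
    exact h6

theorem av_base (hs : List ℝ) (t β : ℝ) (M a b : ℕ) (hM : 1 ≤ M) (ha : M ≤ a) (hb : b ≤ 2 * M)
    (hβ : 0 ≤ β) (hβ1 : β ≤ 1) (ht : t ≠ 0) (hpos : ∀ g ∈ hs, 1 ≤ g) (hsum : hs.sum ≤ M) :
    ‖∑ n ∈ Ioc a b, ee (PH hs t β n)‖
      ≤ (4 * M : ℝ) ^ (hs.length + 1) / (|t| * hs.prod)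
        + 7 * (hs.length.factorial : ℝ) * |t| * hs.prod / (M : ℝ) ^ hs.length := by
  have hM' : (1 : ℝ) ≤ M := by exact_mod_cast hM
  have hpos' : ∀ g ∈ hs, 0 < g := fun g hg => lt_of_lt_of_le one_pos (hpos g hg)
  have hprod : 0 < hs.prod := List.prod_pos hpos'
  have hsum0 : 0 ≤ hs.sum := List.sum_nonneg (fun g hg => (hpos' g hg).le)
  have ht' : 0 < |t| := abs_pos.mpr ht
  have hfac : (1 : ℝ) ≤ (hs.length.factorial : ℝ) := by exact_mod_cast Nat.succ_le_of_lt (Nat.factorial_pos _)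
  have hfac0 : (0 : ℝ) < (hs.length.factorial : ℝ) := by linarith
  rcases le_total a b with hab | hab
  swap
  · rw [Finset.Ioc_eq_empty_of_le hab, Finset.sum_empty, norm_zero]
    positivity
  have haR : (M : ℝ) ≤ a := by exact_mod_cast ha
  have hbR : (b : ℝ) ≤ 2 * M := by exact_mod_cast hb
  have hxpos : ∀ x ∈ Set.Icc (a : ℝ) b, (M : ℝ) ≤ x + β ∧ x + β + hs.sum ≤ 4 * M := by
    intro x hx
    exact ⟨by linarith [hx.1], by linarith [hx.2]⟩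
  have key := first_deriv (PH hs t β) (fun x => |t| * LL hs β x) (fun x => |t| * (-LD hs β x)) a b hab
    ((-1) ^ hs.length * SignType.sign t)
    (|t| * ((hs.length.factorial : ℝ) * hs.prod / (4 * M) ^ (hs.length + 1)))
    (|t| * ((hs.length.factorial : ℝ) * hs.prod / (M : ℝ) ^ (hs.length + 1))) ?_ (by positivity)
    ?_ ?_ ?_ ?_ ?_
  · refine key.trans (add_le_add ?_ ?_)
    · rw [one_div, mul_div_assoc', inv_div]
      refine div_le_div_of_nonneg_left (by positivity) (by positivity) ?_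
      refine mul_le_mul_of_nonneg_left ?_ ht'.le
      calc hs.prod = 1 * hs.prod := (one_mul _).symm
        _ ≤ (hs.length.factorial : ℝ) * hs.prod := mul_le_mul_of_nonneg_right hfac hprod.le
    · have hba : (b : ℝ) - a ≤ M := by linarith
      calc 7 * (|t| * ((hs.length.factorial : ℝ) * hs.prod / (M : ℝ) ^ (hs.length + 1))) *
            ((b : ℝ) - a)
          ≤ 7 * (|t| * ((hs.length.factorial : ℝ) * hs.prod / (M : ℝ) ^ (hs.length + 1))) * M :=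
            mul_le_mul_of_nonneg_left hba (by positivity)
        _ = 7 * (hs.length.factorial : ℝ) * |t| * hs.prod / (M : ℝ) ^ hs.length := by
            rw [pow_succ]
            field_simp
  · rw [abs_mul, abs_pow, abs_neg, abs_one, one_pow, one_mul]
    rcases lt_or_gt_of_ne ht with h | h
    · rw [sign_neg h]; simp
    · rw [sign_pos h]; simp
  · intro x hx
    have h1 := AvA_deriv hs t β hpos' x (by linarith [(hxpos x hx).1])
    have e : (-1 : ℝ) ^ hs.length * t * LL hs β x =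
        (-1) ^ hs.length * (SignType.sign t : ℝ) * (|t| * LL hs β x) := by
      have h2 : (SignType.sign t : ℝ) * |t| = t := sign_mul_abs t
      calc (-1 : ℝ) ^ hs.length * t * LL hs β x =
          (-1 : ℝ) ^ hs.length * ((SignType.sign t : ℝ) * |t|) * LL hs β x := by rw [h2]
        _ = _ := by ring
    rw [← e]
    exact h1
  · intro x hx
    exact (LL_hasDerivAt hs β x (by linarith [(hxpos x hx).1]) hpos').const_mul |t|
  · intro x hx
    have := LD_nonneg hs β x hpos'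
    nlinarith
  · refine ContinuousOn.mul continuousOn_const ?_
    refine ((LD_continuousOn hs β hpos').mono ?_).neg
    intro x hx
    have := (hxpos x hx).1
    simp only [Set.mem_Ioi]
    linarith
  · intro x hx
    obtain ⟨h1, h2⟩ := hxpos x hx
    have hx0 : 0 < x + β := by linarith
    constructor
    · refine mul_le_mul_of_nonneg_left ?_ ht'.le
      refine le_trans ?_ (LL_ge hs β x hx0 hpos')
      refine div_le_div_of_nonneg_left (by positivity) (by positivity) ?_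
      exact pow_le_pow_left₀ (by linarith) h2 _
    · refine mul_le_mul_of_nonneg_left ?_ ht'.le
      refine (LL_le hs β x hx0 hpos').trans ?_
      refine div_le_div_of_nonneg_left (by positivity) (by positivity) ?_
      exact pow_le_pow_left₀ (by linarith) h1 _

end Pool.Agent.H76.EHB

end

section

/-!
# EHB Vdc2: iteration

`AvS H J φ a b` is the average over `h_1, …, h_J ∈ [1, H]` of the absolute value of the sum with the `J`-fold difference of the phase.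
Induction on `J` (for all `φ, a, b` with `b - a ≤ Y`): with `S = |∑ ee(φ n)|`,
`(S/Y)^2 ≤ 2/H + 4 (1/H) ∑_h S_h/Y` (`vdc_step` with `z n = ee (φ n)`, `z(n+h) conj z n = ee(φ(n+h) - φ n)`), so
`(S/Y)^{2^{J+1}} ≤ 2^{2^J} ((2/H)^{2^J} + 4^{2^J} (1/H) ∑_h (S_h/Y)^{2^J})` (convexity; Jensen `inner_le_nnorm_mul_nnorm` or
`Finset.inner_mul_le_norm_mul_norm`, e.g. `Real.pow_arith_mean_le_arith_mean_pow`) `≤ 8^{2^J} (1/H + (1/H) ∑_h (S_h/Y)^{2^J})`, and the induction hypothesis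
for each `h` (interval `Ioc a (b-h)`, length `≤ Y`).  Constants: `C_{J+1} ≤ 8^{2^J} (1 + C_J) ≤ 16^{2^{J+1}}` if `C_J = 16^{2^J}`, `C_0 ≥ 1`.
-/

set_option autoImplicit false

namespace Pool.Agent.H76.EHB

open Finset
open Pool.Agent.H91.PK (ee)

/-- average of the differenced sums -/
noncomputable def AvS (H : ℕ) : ℕ → (ℕ → ℝ) → ℕ → ℕ → ℝ
  | 0, φ, a, b => ‖∑ n ∈ Ioc a b, ee (φ n)‖
  | (J + 1), φ, a, b => 1 / (H : ℝ) * ∑ h ∈ Icc 1 H, AvS H J (fun n => φ (n + h) - φ n) a (b - h)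

theorem AvS_nonneg (H J : ℕ) (φ : ℕ → ℝ) (a b : ℕ) : 0 ≤ AvS H J φ a b := by
  induction J generalizing φ b with
  | zero => exact norm_nonneg _
  | succ J ih =>
    unfold AvS
    apply mul_nonneg (by positivity)
    exact Finset.sum_nonneg (fun h _ => ih _ _)

theorem vdc_iter (J : ℕ) (φ : ℕ → ℝ) (a b Y H : ℕ) (hab : b - a ≤ Y) (hH : 1 ≤ H) (hHY : H ≤ Y) :
    (‖∑ n ∈ Ioc a b, ee (φ n)‖ / Y) ^ (2 ^ J) ≤ 16 ^ (2 ^ J) * (1 / (H : ℝ) + AvS H J φ a b / Y) := by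
  have hH0 : (0 : ℝ) < H := by exact_mod_cast hH
  have hY0 : (0 : ℝ) < Y := by exact_mod_cast (lt_of_lt_of_le hH hHY)
  have hH1 : (1 : ℝ) ≤ H := by exact_mod_cast hH
  induction J generalizing φ b with
  | zero =>
    simp only [pow_zero, pow_one, AvS]
    have h1 : 0 ≤ ‖∑ n ∈ Ioc a b, ee (φ n)‖ / (Y : ℝ) := by positivity
    have h2 : 0 ≤ 1 / (H : ℝ) := by positivity
    linarith
  | succ J ih =>
    have hN0 : (2 : ℕ) ^ (J + 1) = 2 * 2 ^ J := by rw [pow_succ]; ring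
    rw [hN0]
    have hN1 : 1 ≤ 2 ^ J := Nat.one_le_two_pow
    generalize hN : 2 ^ J = N at ih hN1 ⊢
    set S : ℝ := ‖∑ n ∈ Ioc a b, ee (φ n)‖ with hS
    set X : ℕ → ℝ := fun h => ‖∑ n ∈ Ioc a (b - h), ee (φ (n + h) - φ n)‖ / Y with hX
    have hX0 : ∀ h, 0 ≤ X h := fun h => by rw [hX]; positivity
    have hstep := vdc_step (fun n => ee (φ n)) (fun n => by rw [Pool.Agent.H91.PK.LSa_norm_ee]) a b Y H hab hH hHY
    have hXe : ∀ h, ‖∑ n ∈ Ioc a (b - h), ee (φ (n + h)) * (starRingEnd ℂ) (ee (φ n))‖ = Y * X h := by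
      intro h
      have e1 : ∀ n, ee (φ (n + h)) * (starRingEnd ℂ) (ee (φ n)) = ee (φ (n + h) - φ n) := by
        intro n
        rw [Pool.Agent.H91.PK.LSa_conj_ee, ← Pool.Agent.H91.PK.LSa_ee_add, sub_eq_add_neg]
      simp only [e1, hX]
      field_simp
    have h1 : (S / Y) ^ 2 ≤ 2 / H + 4 * (1 / (H : ℝ) * ∑ h ∈ Icc 1 H, X h) := by
      have h2 : S ^ 2 ≤ 2 * (Y : ℝ) ^ 2 / H + 4 * (Y : ℝ) / H * ∑ h ∈ Icc 1 H, (Y * X h) := by
        have h3 := hstep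
        simp only [hXe] at h3
        exact h3
      rw [div_pow, div_le_iff₀ (by positivity)]
      refine h2.trans (le_of_eq ?_)
      rw [← Finset.mul_sum]
      field_simp
    have hm0 : 0 ≤ 1 / (H : ℝ) * ∑ h ∈ Icc 1 H, X h :=
      mul_nonneg (by positivity) (Finset.sum_nonneg fun h _ => hX0 h)
    -- Jensen
    have hJen : (1 / (H : ℝ) * ∑ h ∈ Icc 1 H, X h) ^ N ≤ 1 / (H : ℝ) * ∑ h ∈ Icc 1 H, X h ^ N := by
      have h3 := Real.pow_arith_mean_le_arith_mean_pow (Icc 1 H) (fun _ => 1 / (H : ℝ)) X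
        (fun _ _ => by positivity) (by simp [Nat.card_Icc]; field_simp) (fun h _ => hX0 h) N
      rw [← Finset.mul_sum, ← Finset.mul_sum] at h3
      exact h3
    have hIH : ∀ h ∈ Icc 1 H, X h ^ N ≤ 16 ^ N * (1 / (H : ℝ)
        + AvS H J (fun n => φ (n + h) - φ n) a (b - h) / Y) := by
      intro h _
      exact ih (fun n => φ (n + h) - φ n) (b - h) (by omega)
    have hA : 1 / (H : ℝ) * ∑ h ∈ Icc 1 H, X h ^ N
        ≤ 16 ^ N * (1 / (H : ℝ) + AvS H (J + 1) φ a b / Y) := by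
      calc 1 / (H : ℝ) * ∑ h ∈ Icc 1 H, X h ^ N
          ≤ 1 / (H : ℝ) * ∑ h ∈ Icc 1 H, 16 ^ N * (1 / (H : ℝ)
              + AvS H J (fun n => φ (n + h) - φ n) a (b - h) / Y) :=
            mul_le_mul_of_nonneg_left (Finset.sum_le_sum hIH) (by positivity)
        _ = 16 ^ N * (1 / (H : ℝ) + AvS H (J + 1) φ a b / Y) := by
            have e7 : AvS H (J + 1) φ a b
                = 1 / (H : ℝ) * ∑ h ∈ Icc 1 H, AvS H J (fun n => φ (n + h) - φ n) a (b - h) := rfl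
            have e8 : ∑ h ∈ Icc 1 H, AvS H J (fun n => φ (n + h) - φ n) a (b - h) / (Y : ℝ)
                = (∑ h ∈ Icc 1 H, AvS H J (fun n => φ (n + h) - φ n) a (b - h)) / (Y : ℝ) :=
              (Finset.sum_div _ _ _).symm
            have e9 : ∑ _h ∈ Icc 1 H, (1 / (H : ℝ)) = 1 := by
              simp only [Finset.sum_const, Nat.card_Icc, nsmul_eq_mul]
              have : ((H + 1 - 1 : ℕ) : ℝ) = H := by simp
              rw [this]; field_simp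
            rw [← Finset.mul_sum, Finset.sum_add_distrib, e8, e9, e7]
            ring
    set Z : ℝ := 1 / (H : ℝ) + AvS H (J + 1) φ a b / Y with hZ
    have hZ0 : 1 / (H : ℝ) ≤ Z := by
      rw [hZ]
      have := AvS_nonneg H (J + 1) φ a b
      have : 0 ≤ AvS H (J + 1) φ a b / Y := by positivity
      linarith
    have hZp : 0 ≤ Z := le_trans (by positivity) hZ0
    have hinv : (1 / (H : ℝ)) ^ N ≤ 1 / (H : ℝ) := by
      have h5 : 1 / (H : ℝ) ≤ 1 := by rw [div_le_one hH0]; exact hH1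
      calc (1 / (H : ℝ)) ^ N ≤ (1 / (H : ℝ)) ^ 1 := pow_le_pow_of_le_one (by positivity) h5 hN1
        _ = _ := pow_one _
    clear_value Z
    generalize (1 / (H : ℝ) * ∑ h ∈ Icc 1 H, X h) = m at h1 hm0 hJen
    have k1 : (S / Y) ^ (2 * N) ≤ (2 / H + 4 * m) ^ N := by
      rw [pow_mul]
      exact pow_le_pow_left₀ (sq_nonneg _) h1 N
    have k2 : (2 / (H : ℝ) + 4 * m) ^ N ≤ 2 ^ (N - 1) * ((2 / (H : ℝ)) ^ N + (4 * m) ^ N) :=
      add_pow_le (by positivity) (by linarith) N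
    have e1 : (2 / (H : ℝ)) ^ N = 2 ^ N * (1 / (H : ℝ)) ^ N := by
      rw [← mul_pow]; ring_nf
    have e10 : (2 : ℝ) ^ N ≤ 64 ^ N :=
      pow_le_pow_left₀ (by norm_num : (0 : ℝ) ≤ 2) (by norm_num : (2 : ℝ) ≤ 64) N
    have k3 : (2 / (H : ℝ)) ^ N ≤ 64 ^ N * Z := by
      rw [e1]
      exact mul_le_mul e10 (hinv.trans hZ0) (by positivity) (by positivity)
    have e2 : (4 : ℝ) ^ N * (16 ^ N * Z) = 64 ^ N * Z := by
      rw [← mul_assoc, ← mul_pow]; norm_num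
    have k4 : (4 * m) ^ N ≤ 64 ^ N * Z := by
      rw [mul_pow, ← e2]
      exact mul_le_mul_of_nonneg_left (hJen.trans hA) (by positivity)
    have e3 : (2 : ℝ) ^ N = 2 ^ (N - 1) * 2 := by
      rw [← pow_succ]; congr 1; omega
    have k5 : (2 : ℝ) ^ (N - 1) * ((2 / (H : ℝ)) ^ N + (4 * m) ^ N) ≤ 2 ^ N * 64 ^ N * Z := by
      have h6 : (2 : ℝ) ^ (N - 1) * ((2 / (H : ℝ)) ^ N + (4 * m) ^ N)
          ≤ 2 ^ (N - 1) * (64 ^ N * Z + 64 ^ N * Z) :=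
        mul_le_mul_of_nonneg_left (add_le_add k3 k4) (by positivity)
      refine h6.trans (le_of_eq ?_)
      rw [e3]; ring
    have e4 : (16 : ℝ) ^ (2 * N) = 256 ^ N := by
      rw [pow_mul]; norm_num
    have k6 : (2 : ℝ) ^ N * 64 ^ N * Z ≤ 16 ^ (2 * N) * Z := by
      apply mul_le_mul_of_nonneg_right _ hZp
      rw [e4, ← mul_pow]
      exact pow_le_pow_left₀ (by norm_num) (by norm_num) N
    exact k1.trans (k2.trans (k5.trans k6))

end Pool.Agent.H76.EHB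

end

section

/-!
# VK Sft: from sums of `(n+β)^{it}` to the bilinear sums

Proof.  For `1 ≤ a', b' ≤ X`: `∑_{n ∈ Ioc a b} ee(t log(n+β)) = ∑_{n ∈ Ioc a b} ee(t log(n+β+a'b')) + O(2 a' b')` (shift of an interval: at most
`2 a' b' ≤ 2 X^2` terms change).  Sum over `a', b'` and divide by `X^2`.
Taylor: `log(n+β+z) = log(n+β) + ∑_{i=1}^k (-1)^{i-1} (z/(n+β))^i / i + R`, `|R| ≤ (z/(n+β))^{k+1}` for `0 ≤ z ≤ n+β`
(`z = a'b' ≤ X^2 ≤ N`; Mathlib: `Real.abs_log_sub_add_sum_range_le` for `x = -z/(n+β)`, which needs `|x| < 1`: use `X^2 < N`).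
`|ee u - ee v| ≤ 2 π |u - v|`.  So
`|∑_n ee(t log(n+β))| ≤ (1/X^2) ∑_n |bil k X (α_n)| + 2 X^2 + 2 π |t| (b-a) · 2 (X^2/N)^{k+1}`, `b - a ≤ N`
(the factor `2` covers the `1/(1-|x|)` of the Mathlib bound when `2 X^2 ≤ N`).
-/

set_option autoImplicit false

namespace Pool.Agent.H97.VK

open Finset
open Pool.Agent.H91.PK (ee)

/-- the Taylor coefficients of `t log (n + β)` -/
noncomputable def tay (k : ℕ) (t β : ℝ) (n : ℕ) (j : Fin k) : ℝ :=
  (-1) ^ (j : ℕ) * t / (((j : ℕ) + 1) * ((n : ℝ) + β) ^ ((j : ℕ) + 1))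

private theorem Sft_lip (u v : ℝ) : ‖ee u - ee v‖ ≤ 2 * Real.pi * |u - v| := by
  have h1 : ee u = ee v * ee (u - v) := by
    rw [← Pool.Agent.H91.PK.LSa_ee_add]
    congr 1
    ring
  have h2 : ee u - ee v = ee v * (ee (u - v) - 1) := by
    rw [h1]
    ring
  rw [h2, norm_mul, Pool.Agent.H91.PK.LSa_norm_ee, one_mul]
  have h3 : ee (u - v) = Complex.exp (Complex.I * ((2 * Real.pi * (u - v) : ℝ) : ℂ)) := by
    unfold ee
    congr 1
    push_cast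
    ring
  rw [h3]
  refine Real.norm_exp_I_mul_ofReal_sub_one_le.trans ?_
  rw [Real.norm_eq_abs, abs_mul, abs_of_nonneg (by positivity : (0 : ℝ) ≤ 2 * Real.pi)]

private theorem Sft_tel (F : ℕ → ℂ) (a b : ℕ) (h : a ≤ b) :
    ∑ n ∈ Ioc a b, (F (n + 1) - F n) = F (b + 1) - F (a + 1) := by
  induction b, h using Nat.le_induction with
  | base => simp
  | succ b hb ih =>
    rw [Finset.sum_Ioc_succ_top (by omega), ih]
    ring

private theorem Sft_shift (f : ℕ → ℂ) (hf : ∀ n, ‖f n‖ ≤ 1) (a b z : ℕ) :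
    ‖∑ n ∈ Ioc a b, f n - ∑ n ∈ Ioc a b, f (n + z)‖ ≤ 2 * z := by
  rcases le_total b a with h | h
  · rw [Ioc_eq_empty (by omega), sum_empty, sum_empty, sub_zero, norm_zero]
    positivity
  induction z with
  | zero => simp
  | succ z ih =>
    have h1 : ∑ n ∈ Ioc a b, f (n + (z + 1)) - ∑ n ∈ Ioc a b, f (n + z) =
        f (b + 1 + z) - f (a + 1 + z) := by
      rw [← sum_sub_distrib, ← Sft_tel (fun n => f (n + z)) a b h]
      refine sum_congr rfl fun n _ => ?_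
      rw [show n + (z + 1) = n + 1 + z by ring]
    have h2 : ∑ n ∈ Ioc a b, f n - ∑ n ∈ Ioc a b, f (n + (z + 1)) =
        (∑ n ∈ Ioc a b, f n - ∑ n ∈ Ioc a b, f (n + z)) -
          (∑ n ∈ Ioc a b, f (n + (z + 1)) - ∑ n ∈ Ioc a b, f (n + z)) := by ring
    rw [h2, h1]
    calc _ ≤ 2 * (z : ℝ) + (1 + 1) := by
          refine (norm_sub_le _ _).trans (add_le_add ih ?_)
          exact (norm_sub_le _ _).trans (add_le_add (hf _) (hf _))
      _ = 2 * ((z + 1 : ℕ) : ℝ) := by push_cast; ring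

private theorem Sft_log (k : ℕ) (y z q : ℝ) (hy : 0 < y) (hz : 0 ≤ z) (hq : z / y ≤ q)
    (hq2 : q ≤ 1 / 2) :
    |(∑ i ∈ range k, (-z / y) ^ (i + 1) / ((i : ℝ) + 1)) + (Real.log (y + z) - Real.log y)| ≤
      2 * q ^ (k + 1) := by
  have hx0 : 0 ≤ z / y := by positivity
  have habs : |(-z / y)| = z / y := by
    rw [neg_div, abs_neg, abs_of_nonneg hx0]
  have h1 := Real.abs_log_sub_add_sum_range_le (x := -z / y) (by rw [habs]; linarith) k
  have h2 : Real.log (1 - -z / y) = Real.log (y + z) - Real.log y := by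
    rw [← Real.log_div (by linarith) hy.ne']
    congr 1
    field_simp
    ring
  rw [h2, habs] at h1
  refine h1.trans ?_
  have h3 : (z / y) ^ (k + 1) ≤ q ^ (k + 1) := pow_le_pow_left₀ hx0 hq _
  have h4 : 0 ≤ q ^ (k + 1) := (pow_nonneg hx0 _).trans h3
  rw [div_le_iff₀ (by linarith)]
  nlinarith

private theorem Sft_pt (k X N n z : ℕ) (t β : ℝ) (hX : 1 ≤ X) (hXN : 2 * X ^ 2 ≤ N)
    (hn : N < n) (hz : z ≤ X ^ 2) (hβ : 0 ≤ β) :
    ‖ee (t * Real.log (((n + z : ℕ) : ℝ) + β)) -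
      ee (t * Real.log (n + β)) * ee (∑ j : Fin k, tay k t β n j * (z : ℝ) ^ ((j : ℕ) + 1))‖ ≤
      4 * Real.pi * |t| * ((X : ℝ) ^ 2 / N) ^ (k + 1) := by
  have hX2 : 1 ≤ X ^ 2 := Nat.one_le_pow _ _ hX
  have hN0 : (0 : ℝ) < (N : ℝ) := by exact_mod_cast (by omega : 0 < N)
  have hnN : (N : ℝ) ≤ (n : ℝ) := by exact_mod_cast hn.le
  have hy : 0 < (n : ℝ) + β := by linarith
  have hzX : (z : ℝ) ≤ (X : ℝ) ^ 2 := by exact_mod_cast hz
  have hz0 : (0 : ℝ) ≤ (z : ℝ) := Nat.cast_nonneg _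
  have hXN' : 2 * (X : ℝ) ^ 2 ≤ (N : ℝ) := by exact_mod_cast hXN
  rw [← Pool.Agent.H91.PK.LSa_ee_add]
  refine (Sft_lip _ _).trans ?_
  have h1 := Sft_log k ((n : ℝ) + β) z ((X : ℝ) ^ 2 / N) hy hz0
    (div_le_div₀ (by positivity) hzX hN0 (by linarith))
    (by rw [div_le_div_iff₀ hN0 (by norm_num)]; linarith)
  have h2 : ∑ j : Fin k, tay k t β n j * (z : ℝ) ^ ((j : ℕ) + 1) =
      -t * ∑ i ∈ range k, (-z / ((n : ℝ) + β)) ^ (i + 1) / ((i : ℝ) + 1) := by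
    rw [mul_sum, ← Fin.sum_univ_eq_sum_range
      (fun i => -t * ((-z / ((n : ℝ) + β)) ^ (i + 1) / ((i : ℝ) + 1)))]
    refine sum_congr rfl fun j _ => ?_
    unfold tay
    have h3 : (-(z : ℝ) / ((n : ℝ) + β)) ^ ((j : ℕ) + 1) =
        (-1) ^ ((j : ℕ) + 1) * (z : ℝ) ^ ((j : ℕ) + 1) / ((n : ℝ) + β) ^ ((j : ℕ) + 1) := by
      rw [div_pow, neg_pow]
    have h5 : ((n : ℝ) + β) ^ ((j : ℕ) + 1) ≠ 0 := (pow_pos hy _).ne'
    have h6 : ((j : ℕ) : ℝ) + 1 ≠ 0 := by positivity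
    rw [h3, pow_succ (-1 : ℝ)]
    field_simp
  have h4 : t * Real.log (((n + z : ℕ) : ℝ) + β) - (t * Real.log (n + β) +
      ∑ j : Fin k, tay k t β n j * (z : ℝ) ^ ((j : ℕ) + 1)) =
      t * ((∑ i ∈ range k, (-z / ((n : ℝ) + β)) ^ (i + 1) / ((i : ℝ) + 1)) +
        (Real.log (((n : ℝ) + β) + z) - Real.log ((n : ℝ) + β))) := by
    rw [h2]
    have h5 : ((n + z : ℕ) : ℝ) + β = ((n : ℝ) + β) + z := by push_cast; ring
    rw [h5]
    ring
  rw [h4, abs_mul]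
  have hpi : 0 ≤ 2 * Real.pi := by positivity
  calc 2 * Real.pi * (|t| * |(∑ i ∈ range k, (-z / ((n : ℝ) + β)) ^ (i + 1) / ((i : ℝ) + 1)) +
        (Real.log (((n : ℝ) + β) + z) - Real.log ((n : ℝ) + β))|)
      ≤ 2 * Real.pi * (|t| * (2 * ((X : ℝ) ^ 2 / N) ^ (k + 1))) := by
        apply mul_le_mul_of_nonneg_left _ hpi
        exact mul_le_mul_of_nonneg_left h1 (abs_nonneg _)
    _ = _ := by ring

theorem sft (k X N a b : ℕ) (t β : ℝ) (hX : 1 ≤ X) (hXN : 2 * X ^ 2 ≤ N) (ha : N ≤ a) (hb : b ≤ 2 * N)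
    (hβ : 0 ≤ β) :
    ‖∑ n ∈ Ioc a b, ee (t * Real.log (n + β))‖ ≤
      (1 / (X : ℝ) ^ 2) * ∑ n ∈ Ioc a b, ‖bil k X (tay k t β n)‖ + 2 * (X : ℝ) ^ 2 +
        4 * Real.pi * |t| * N * ((X : ℝ) ^ 2 / N) ^ (k + 1) := by
  set f : ℕ → ℂ := fun n => ee (t * Real.log (n + β)) with hf
  have hf1 : ∀ n, ‖f n‖ ≤ 1 := fun n => (Pool.Agent.H91.PK.LSa_norm_ee _).le
  set S := ∑ n ∈ Ioc a b, f n with hS
  set D := 4 * Real.pi * |t| * ((X : ℝ) ^ 2 / N) ^ (k + 1) with hD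
  have hD0 : 0 ≤ D := by rw [hD]; positivity
  have hX0 : (0 : ℝ) < (X : ℝ) := by exact_mod_cast hX
  have hX2 : (0 : ℝ) < (X : ℝ) ^ 2 := by positivity
  have huv : ∀ u ∈ Icc 1 X, ∀ v ∈ Icc 1 X, u * v ≤ X ^ 2 := by
    intro u hu v hv
    rw [mem_Icc] at hu hv
    calc u * v ≤ X * X := Nat.mul_le_mul hu.2 hv.2
      _ = X ^ 2 := by ring
  -- the shifted sums
  have h1 : ‖∑ u ∈ Icc 1 X, ∑ v ∈ Icc 1 X, (S - ∑ n ∈ Ioc a b, f (n + u * v))‖ ≤
      (X : ℝ) ^ 2 * (2 * (X : ℝ) ^ 2) := by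
    calc _ ≤ ∑ u ∈ Icc 1 X, ∑ v ∈ Icc 1 X, (2 * (X : ℝ) ^ 2) := by
          refine (norm_sum_le _ _).trans (sum_le_sum fun u hu => ?_)
          refine (norm_sum_le _ _).trans (sum_le_sum fun v hv => ?_)
          refine (Sft_shift f hf1 a b (u * v)).trans ?_
          have := huv u hu v hv
          have h2 : ((u * v : ℕ) : ℝ) ≤ (X : ℝ) ^ 2 := by exact_mod_cast this
          linarith
      _ = _ := by
          rw [sum_const, sum_const, Nat.card_Icc, nsmul_eq_mul, nsmul_eq_mul,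
            Nat.add_sub_cancel]
          ring
  have h2 : ∑ u ∈ Icc 1 X, ∑ v ∈ Icc 1 X, ∑ n ∈ Ioc a b, f (n + u * v) =
      ∑ n ∈ Ioc a b, ∑ u ∈ Icc 1 X, ∑ v ∈ Icc 1 X, f (n + u * v) := by
    rw [sum_comm' (s := Ioc a b) (t := fun _ => Icc 1 X) (t' := Icc 1 X)
      (s' := fun _ => Ioc a b) (by intro x y; tauto)]
    refine sum_congr rfl fun u _ => ?_
    rw [sum_comm]
  have h3 : ∀ n ∈ Ioc a b, ‖∑ u ∈ Icc 1 X, ∑ v ∈ Icc 1 X, f (n + u * v)‖ ≤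
      ‖bil k X (tay k t β n)‖ + (X : ℝ) ^ 2 * D := by
    intro n hn
    rw [mem_Ioc] at hn
    have h4 : ∑ u ∈ Icc 1 X, ∑ v ∈ Icc 1 X, f (n + u * v) =
        f n * bil k X (tay k t β n) +
        ∑ u ∈ Icc 1 X, ∑ v ∈ Icc 1 X, (f (n + u * v) -
          f n * ee (∑ j : Fin k, tay k t β n j * ((u : ℝ) * v) ^ ((j : ℕ) + 1))) := by
      unfold bil
      simp_rw [sum_sub_distrib, mul_sum]
      ring
    rw [h4]
    refine (norm_add_le _ _).trans (add_le_add ?_ ?_)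
    · rw [norm_mul]
      calc ‖f n‖ * ‖bil k X (tay k t β n)‖ ≤ 1 * ‖bil k X (tay k t β n)‖ :=
            mul_le_mul_of_nonneg_right (hf1 n) (norm_nonneg _)
        _ = _ := one_mul _
    · calc _ ≤ ∑ u ∈ Icc 1 X, ∑ v ∈ Icc 1 X, D := by
            refine (norm_sum_le _ _).trans (sum_le_sum fun u hu => ?_)
            refine (norm_sum_le _ _).trans (sum_le_sum fun v hv => ?_)
            have h5 := Sft_pt k X N n (u * v) t β hX hXN (by omega) (huv u hu v hv) hβ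
            rw [Nat.cast_mul u v] at h5
            exact h5
        _ = _ := by
            rw [sum_const, sum_const, Nat.card_Icc, nsmul_eq_mul, nsmul_eq_mul,
              Nat.add_sub_cancel]
            ring
  have h4 : (X : ℂ) ^ 2 * S = ∑ u ∈ Icc 1 X, ∑ v ∈ Icc 1 X,
      (S - ∑ n ∈ Ioc a b, f (n + u * v)) +
      ∑ n ∈ Ioc a b, ∑ u ∈ Icc 1 X, ∑ v ∈ Icc 1 X, f (n + u * v) := by
    rw [← h2]
    simp_rw [sum_sub_distrib]
    rw [sub_add_cancel, sum_const, sum_const, Nat.card_Icc, nsmul_eq_mul, nsmul_eq_mul,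
      Nat.add_sub_cancel]
    ring
  have h5 : ‖∑ n ∈ Ioc a b, ∑ u ∈ Icc 1 X, ∑ v ∈ Icc 1 X, f (n + u * v)‖ ≤
      ∑ n ∈ Ioc a b, ‖bil k X (tay k t β n)‖ + N * ((X : ℝ) ^ 2 * D) := by
    refine (norm_sum_le _ _).trans ((sum_le_sum h3).trans ?_)
    rw [sum_add_distrib, sum_const, Nat.card_Ioc, nsmul_eq_mul]
    have h6 : ((b - a : ℕ) : ℝ) ≤ (N : ℝ) := by exact_mod_cast (by omega : b - a ≤ N)
    have h7 : ((b - a : ℕ) : ℝ) * ((X : ℝ) ^ 2 * D) ≤ (N : ℝ) * ((X : ℝ) ^ 2 * D) :=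
      mul_le_mul_of_nonneg_right h6 (by positivity)
    linarith
  have h6 : (X : ℝ) ^ 2 * ‖S‖ ≤ (X : ℝ) ^ 2 * (2 * (X : ℝ) ^ 2) +
      (∑ n ∈ Ioc a b, ‖bil k X (tay k t β n)‖ + N * ((X : ℝ) ^ 2 * D)) := by
    have h7 : ‖(X : ℂ) ^ 2 * S‖ = (X : ℝ) ^ 2 * ‖S‖ := by
      rw [norm_mul, norm_pow, Complex.norm_natCast]
    rw [← h7, h4]
    exact (norm_add_le _ _).trans (add_le_add h1 h5)
  have h7 : ‖S‖ = (1 / (X : ℝ) ^ 2) * ((X : ℝ) ^ 2 * ‖S‖) := by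
    field_simp
  rw [h7]
  calc (1 / (X : ℝ) ^ 2) * ((X : ℝ) ^ 2 * ‖S‖)
      ≤ (1 / (X : ℝ) ^ 2) * ((X : ℝ) ^ 2 * (2 * (X : ℝ) ^ 2) +
        (∑ n ∈ Ioc a b, ‖bil k X (tay k t β n)‖ + N * ((X : ℝ) ^ 2 * D))) :=
        mul_le_mul_of_nonneg_left h6 (by positivity)
    _ = _ := by
        rw [hD]
        field_simp
        ring

end Pool.Agent.H97.VK

end

section

/-!
# PROJECT SP, Part II (large values): common definitions

`L = log x`, `ee(t) = exp(2 π i t)` (`Pool.Agent.H91.PK.ee`; `LSa_ee_add`, `LSa_norm_ee`, `LSa_conj_ee` in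
`H91/PK/LSa.lean`).  `gE α t n = e(n α) n^{2 π i t}`.  `VK` is the statement of Part I (helper97,
`vk_class`).
-/

set_option autoImplicit false

namespace Pool.Agent.H80.LV

open Finset
open Pool.Agent.H91.PK (ee)
open Pool.Agent.H91.EHA (Lam hR lamR)

/-- `e(n α) n^{2 π i t}` -/
noncomputable def gE (α t : ℝ) (n : ℕ) : ℂ := ee ((n : ℝ) * α + t * Real.log n)

/-- Part I: cancellation in `∑ Λ(n) n^{2 π i t}` over residue classes, `L^K' ≤ |t| ≤ x^2`. -/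
def VK : Prop := ∀ (K B : ℕ) (e0 : ℝ), 0 < e0 → ∃ K' x0 : ℕ, ∀ x : ℕ, x0 ≤ x →
  ∀ (d u z : ℕ) (t : ℝ), 1 ≤ d → (d : ℝ) ≤ Real.log x ^ B → (x : ℝ) ^ e0 ≤ z → z ≤ x ^ 2 →
    Real.log x ^ K' ≤ |t| → |t| ≤ (x : ℝ) ^ (2 : ℕ) →
    ‖∑ n ∈ (Icc 1 z).filter (fun n => n % d = u % d), ((Lam n : ℝ) : ℂ) * ee (t * Real.log n)‖
      ≤ z / Real.log x ^ K

theorem norm_gE (α t : ℝ) (n : ℕ) : ‖gE α t n‖ = 1 := by
  unfold gE
  exact Pool.Agent.H91.PK.LSa_norm_ee _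

theorem gE_mul (α t : ℝ) (m n : ℕ) (hm : 1 ≤ m) (hn : 1 ≤ n) :
    gE α t (m * n) = ee ((m : ℝ) * n * α) * ee (t * Real.log m) * ee (t * Real.log n) := by
  have hm0 : (m : ℝ) ≠ 0 := by positivity
  have hn0 : (n : ℝ) ≠ 0 := by positivity
  unfold gE
  rw [← Pool.Agent.H91.PK.LSa_ee_add, ← Pool.Agent.H91.PK.LSa_ee_add]
  congr 1
  push_cast
  rw [Real.log_mul hm0 hn0]
  ring

/-- logarithms are smaller than powers -/
theorem log_pow_le (s C : ℝ) (hs : 0 < s) (hC : 0 < C) (c : ℕ) :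
    ∃ x0 : ℕ, ∀ x : ℕ, x0 ≤ x → C * Real.log x ^ c ≤ (x : ℝ) ^ s := by
  have h1 := (isLittleO_log_rpow_rpow_atTop (c : ℝ) hs).bound (c := 1 / C) (by positivity)
  have h2 := h1.and (Filter.eventually_ge_atTop (1 : ℝ))
  have h3 := tendsto_natCast_atTop_atTop (R := ℝ) |>.eventually h2
  obtain ⟨x0, hx0⟩ := Filter.eventually_atTop.1 h3
  refine ⟨x0, fun x hx => ?_⟩
  obtain ⟨h4, h5⟩ := hx0 x hx
  have hl : 0 ≤ Real.log x := Real.log_nonneg h5
  have hp : (0 : ℝ) ≤ (x : ℝ) ^ s := Real.rpow_nonneg (by positivity) _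
  rw [Real.rpow_natCast, Real.norm_eq_abs, Real.norm_eq_abs, abs_of_nonneg (by positivity),
    abs_of_nonneg hp] at h4
  rw [div_mul_eq_mul_div, one_mul, le_div_iff₀ hC] at h4
  linarith

/-- logarithms are large -/
theorem log_ge (C : ℝ) : ∃ x0 : ℕ, ∀ x : ℕ, x0 ≤ x → C ≤ Real.log x := by
  have h := (Real.tendsto_log_atTop.comp (tendsto_natCast_atTop_atTop (R := ℝ))).eventually
    (Filter.eventually_ge_atTop C)
  exact Filter.eventually_atTop.1 h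

/-- powers are large -/
theorem pow_ge (s C : ℝ) (hs : 0 < s) : ∃ x0 : ℕ, ∀ x : ℕ, x0 ≤ x → C ≤ (x : ℝ) ^ s := by
  have h := ((tendsto_rpow_atTop hs).comp (tendsto_natCast_atTop_atTop (R := ℝ))).eventually
    (Filter.eventually_ge_atTop C)
  exact Filter.eventually_atTop.1 h

end Pool.Agent.H80.LV

end

section

/-!
# LV Dual: the duality inequality (Halász-Montgomery) on a bounded measurable set

Write `e_n(t) = ee(t log n)`, `F(t) = ∑_{n ≤ K} a_n e_n(t)`, `D(u) = ∑_{n ≤ K} e_n(u)`, `I = ∫_B |F|^2` (all functions are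
continuous and bounded, `B` is bounded, so everything is integrable on `B` and on `B × B`).
`I = ∫_B F conj F = ∑_n a_n c_n`, `c_n = ∫_B e_n(t) conj(F(t)) dt`, so `I^2 ≤ (∑ |a_n|^2) (∑ |c_n|^2)` (Cauchy-Schwarz), and
`∑_n |c_n|^2 = ∫_B ∫_B conj(F(t)) F(s) ∑_n e_n(t) conj(e_n(s)) ds dt = ∫_B ∫_B conj(F(t)) F(s) D(t - s) ds dt`
`≤ ∫_B ∫_B (|F(t)|^2 + |F(s)|^2)/2 |D(t-s)| ds dt = ∫_B |F(t)|^2 (∫_B |D(t-s)| ds) dt ≤ G I`
(`|D(-u)| = |D(u)|`, Fubini).  So `I^2 ≤ G (∑ |a_n|^2) I`; if `I = 0` there is nothing to prove, otherwise divide.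
-/

set_option autoImplicit false

namespace Pool.Agent.H80.LV

open Finset MeasureTheory
open Pool.Agent.H91.PK (ee)

theorem dual_ee_cont (c : ℝ) : Continuous fun t : ℝ => ee (t * c) := by
  unfold ee
  fun_prop

theorem dual_D_cont (K : ℕ) : Continuous fun u : ℝ => ∑ n ∈ Icc 1 K, ee (u * Real.log n) :=
  continuous_finsetSum _ fun _ _ => dual_ee_cont _

theorem dual_F_cont (K : ℕ) (a : ℕ → ℂ) :
    Continuous fun u : ℝ => ∑ n ∈ Icc 1 K, a n * ee (u * Real.log n) :=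
  continuous_finsetSum _ fun _ _ => continuous_const.mul (dual_ee_cont _)

theorem dual_D_bound (K : ℕ) (u : ℝ) : ‖∑ n ∈ Icc 1 K, ee (u * Real.log n)‖ ≤ K := by
  refine (norm_sum_le _ _).trans ?_
  simp [Pool.Agent.H91.PK.LSa_norm_ee]

theorem dual_F_bound (K : ℕ) (a : ℕ → ℂ) (u : ℝ) :
    ‖∑ n ∈ Icc 1 K, a n * ee (u * Real.log n)‖ ≤ ∑ n ∈ Icc 1 K, ‖a n‖ := by
  refine (norm_sum_le _ _).trans (le_of_eq ?_)
  refine Finset.sum_congr rfl fun n _ => ?_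
  rw [norm_mul, Pool.Agent.H91.PK.LSa_norm_ee, mul_one]

theorem dual_D_neg (K : ℕ) (u : ℝ) :
    ‖∑ n ∈ Icc 1 K, ee (-u * Real.log n)‖ = ‖∑ n ∈ Icc 1 K, ee (u * Real.log n)‖ := by
  rw [← Complex.norm_conj (∑ n ∈ Icc 1 K, ee (u * Real.log n)), map_sum]
  congr 1
  refine Finset.sum_congr rfl fun n _ => ?_
  rw [Pool.Agent.H91.PK.LSa_conj_ee]
  congr 1
  ring

theorem dual_ineq (B : Set ℝ) (Y : ℝ) (hB : MeasurableSet B) (hb : B ⊆ Set.Icc (-Y) Y) (K : ℕ)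
    (a : ℕ → ℂ) (G : ℝ) (hG0 : 0 ≤ G)
    (hG : ∀ t ∈ B, ∫ s in B, ‖∑ n ∈ Icc 1 K, ee ((t - s) * Real.log n)‖ ≤ G) :
    ∫ t in B, ‖∑ n ∈ Icc 1 K, a n * ee (t * Real.log n)‖ ^ 2
      ≤ G * ∑ n ∈ Icc 1 K, ‖a n‖ ^ 2 := by
  have hfin : volume B < ⊤ :=
    lt_of_le_of_lt (measure_mono hb) (by rw [Real.volume_Icc]; exact ENNReal.ofReal_lt_top)
  haveI : IsFiniteMeasure (volume.restrict B) := ⟨by rw [Measure.restrict_apply_univ]; exact hfin⟩
  set μ : Measure ℝ := volume.restrict B with hμ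
  set F : ℝ → ℂ := fun t => ∑ n ∈ Icc 1 K, a n * ee (t * Real.log n) with hF
  set D : ℝ → ℂ := fun t => ∑ n ∈ Icc 1 K, ee (t * Real.log n) with hD
  have hFc : Continuous F := dual_F_cont K a
  have hDc : Continuous D := dual_D_cont K
  set M : ℝ := ∑ n ∈ Icc 1 K, ‖a n‖ with hM
  have hM0 : 0 ≤ M := Finset.sum_nonneg fun n _ => norm_nonneg _
  have hFb : ∀ t, ‖F t‖ ≤ M := fun t => dual_F_bound K a t
  have hDb : ∀ t, ‖D t‖ ≤ K := fun t => dual_D_bound K t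
  have int1 : ∀ (f : ℝ → ℂ) (C : ℝ), Continuous f → (∀ t, ‖f t‖ ≤ C) → Integrable f μ :=
    fun f C hf hC => Integrable.of_bound hf.aestronglyMeasurable C (Filter.Eventually.of_forall hC)
  have int2 : ∀ (f : ℝ → ℝ) (C : ℝ), Continuous f → (∀ t, ‖f t‖ ≤ C) → Integrable f μ :=
    fun f C hf hC => Integrable.of_bound hf.aestronglyMeasurable C (Filter.Eventually.of_forall hC)
  have int3 : ∀ (f : ℝ × ℝ → ℂ) (C : ℝ), Continuous f → (∀ t, ‖f t‖ ≤ C) →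
      Integrable f (μ.prod μ) :=
    fun f C hf hC => Integrable.of_bound hf.aestronglyMeasurable C (Filter.Eventually.of_forall hC)
  have int4 : ∀ (f : ℝ × ℝ → ℝ) (C : ℝ), Continuous f → (∀ t, ‖f t‖ ≤ C) →
      Integrable f (μ.prod μ) :=
    fun f C hf hC => Integrable.of_bound hf.aestronglyMeasurable C (Filter.Eventually.of_forall hC)
  set I : ℝ := ∫ t, ‖F t‖ ^ 2 ∂μ with hI
  have hI0 : 0 ≤ I := integral_nonneg fun t => by positivity
  set c : ℕ → ℂ := fun n => ∫ t, ee (t * Real.log n) * (starRingEnd ℂ) (F t) ∂μ with hc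
  have hconjF : Continuous fun t => (starRingEnd ℂ) (F t) := Complex.continuous_conj.comp hFc
  have hec : ∀ n : ℕ, Continuous fun t : ℝ => ee (t * Real.log n) := fun n => dual_ee_cont _
  have hIc : (I : ℂ) = ∑ n ∈ Icc 1 K, a n * c n := by
    have h1 : (I : ℂ) = ∫ t, ((‖F t‖ ^ 2 : ℝ) : ℂ) ∂μ := by
      rw [hI]; exact integral_ofReal.symm
    rw [h1]
    have h2 : ∀ t, ((‖F t‖ ^ 2 : ℝ) : ℂ)
        = ∑ n ∈ Icc 1 K, a n * (ee (t * Real.log n) * (starRingEnd ℂ) (F t)) := by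
      intro t
      have h3 : ((‖F t‖ ^ 2 : ℝ) : ℂ) = F t * (starRingEnd ℂ) (F t) := by
        rw [Complex.mul_conj, Complex.normSq_eq_norm_sq]
      rw [h3, hF, Finset.sum_mul]
      refine Finset.sum_congr rfl fun n _ => ?_
      rw [mul_assoc]
    rw [integral_congr_ae (Filter.Eventually.of_forall h2), integral_finsetSum]
    · refine Finset.sum_congr rfl fun n _ => ?_
      rw [integral_const_mul]
    · intro n _
      refine (int1 _ M ((hec n).mul hconjF) fun t => ?_).const_mul _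
      rw [Pi.mul_apply, norm_mul, Pool.Agent.H91.PK.LSa_norm_ee, one_mul, Complex.norm_conj]
      exact hFb t
  have hCS : I ^ 2 ≤ (∑ n ∈ Icc 1 K, ‖a n‖ ^ 2) * ∑ n ∈ Icc 1 K, ‖c n‖ ^ 2 := by
    have h1 : I ≤ ∑ n ∈ Icc 1 K, ‖a n‖ * ‖c n‖ := by
      have h2 : I = ‖(I : ℂ)‖ := by rw [Complex.norm_real, Real.norm_of_nonneg hI0]
      rw [h2, hIc]
      refine (norm_sum_le _ _).trans (le_of_eq ?_)
      exact Finset.sum_congr rfl fun n _ => norm_mul _ _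
    calc I ^ 2 ≤ (∑ n ∈ Icc 1 K, ‖a n‖ * ‖c n‖) ^ 2 := by gcongr
      _ ≤ _ := Finset.sum_mul_sq_le_sq_mul_sq _ _ _
  have hsum : ((∑ n ∈ Icc 1 K, ‖c n‖ ^ 2 : ℝ) : ℂ)
      = ∫ z : ℝ × ℝ, (starRingEnd ℂ) (F z.1) * F z.2 * D (z.1 - z.2) ∂(μ.prod μ) := by
    have h1 : ∀ n : ℕ, ((‖c n‖ ^ 2 : ℝ) : ℂ) = ∫ z : ℝ × ℝ,
        (ee (z.1 * Real.log n) * (starRingEnd ℂ) (F z.1))
          * ((starRingEnd ℂ) (ee (z.2 * Real.log n)) * F z.2) ∂(μ.prod μ) := by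
      intro n
      rw [integral_prod_mul (fun t : ℝ => ee (t * Real.log n) * (starRingEnd ℂ) (F t))
        (fun t : ℝ => (starRingEnd ℂ) (ee (t * Real.log n)) * F t)]
      have h2 : ∫ t, (starRingEnd ℂ) (ee (t * Real.log n)) * F t ∂μ = (starRingEnd ℂ) (c n) := by
        rw [hc]
        simp only
        rw [← integral_conj]
        refine integral_congr_ae (Filter.Eventually.of_forall fun t => ?_)
        simp only [map_mul, Complex.conj_conj]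
      rw [h2]
      have h3 : ((‖c n‖ ^ 2 : ℝ) : ℂ) = c n * (starRingEnd ℂ) (c n) := by
        rw [Complex.mul_conj, Complex.normSq_eq_norm_sq]
      rw [h3]
    rw [Complex.ofReal_sum, Finset.sum_congr rfl fun n _ => h1 n, ← integral_finsetSum]
    · refine integral_congr_ae (Filter.Eventually.of_forall fun z => ?_)
      simp only [hD]
      rw [Finset.mul_sum]
      refine Finset.sum_congr rfl fun n _ => ?_
      rw [Pool.Agent.H91.PK.LSa_conj_ee, sub_mul, sub_eq_add_neg, Pool.Agent.H91.PK.LSa_ee_add]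
      ring
    · intro n _
      refine int3 _ (M * M) ?_ fun z => ?_
      · exact (((hec n).comp continuous_fst).mul (hconjF.comp continuous_fst)).mul
          ((Complex.continuous_conj.comp ((hec n).comp continuous_snd)).mul
            (hFc.comp continuous_snd))
      · rw [norm_mul, norm_mul, norm_mul, Complex.norm_conj, Complex.norm_conj,
          Pool.Agent.H91.PK.LSa_norm_ee, Pool.Agent.H91.PK.LSa_norm_ee, one_mul, one_mul]
        exact mul_le_mul (hFb _) (hFb _) (norm_nonneg _) hM0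
  set H : ℝ × ℝ → ℝ := fun z => ‖F z.1‖ ^ 2 * ‖D (z.1 - z.2)‖ with hH
  have hHc : Continuous H :=
    ((hFc.comp continuous_fst).norm.pow 2).mul
      (hDc.comp (continuous_fst.sub continuous_snd)).norm
  have hHi : Integrable H (μ.prod μ) := by
    refine int4 H (M ^ 2 * K) hHc fun z => ?_
    rw [Real.norm_of_nonneg (by positivity)]
    exact mul_le_mul (pow_le_pow_left₀ (norm_nonneg _) (hFb _) 2) (hDb _) (norm_nonneg _)
      (by positivity)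
  have hHI : ∫ z, H z ∂(μ.prod μ) ≤ G * I := by
    rw [integral_prod H hHi]
    have h1 : ∀ t ∈ B, ∫ s, H (t, s) ∂μ ≤ G * ‖F t‖ ^ 2 := by
      intro t ht
      have h2 : ∫ s, H (t, s) ∂μ = ‖F t‖ ^ 2 * ∫ s, ‖D (t - s)‖ ∂μ := by
        rw [← integral_const_mul]
      rw [h2, mul_comm G]
      exact mul_le_mul_of_nonneg_left (hG t ht) (by positivity)
    have h3 : ∫ t, ∫ s, H (t, s) ∂μ ∂μ ≤ ∫ t, G * ‖F t‖ ^ 2 ∂μ := by
      refine integral_mono_ae hHi.integral_prod_left ?_ ?_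
      · refine (int2 _ (M ^ 2) (hFc.norm.pow 2) fun t => ?_).const_mul _
        rw [Pi.pow_apply, Real.norm_of_nonneg (by positivity)]
        exact pow_le_pow_left₀ (norm_nonneg _) (hFb _) 2
      · rw [hμ]
        exact (ae_restrict_iff' hB).2 (Filter.Eventually.of_forall h1)
    rw [integral_const_mul] at h3
    exact h3
  have hHI2 : ∫ z : ℝ × ℝ, ‖F z.2‖ ^ 2 * ‖D (z.1 - z.2)‖ ∂(μ.prod μ) ≤ G * I := by
    have h1 : ∫ z : ℝ × ℝ, ‖F z.2‖ ^ 2 * ‖D (z.1 - z.2)‖ ∂(μ.prod μ)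
        = ∫ z : ℝ × ℝ, H z.swap ∂(μ.prod μ) := by
      refine integral_congr_ae (Filter.Eventually.of_forall fun z => ?_)
      simp only [hH, Prod.fst_swap, Prod.snd_swap]
      congr 1
      have := dual_D_neg K (z.1 - z.2)
      rw [← this]
      congr 2
      funext n
      ring_nf
    rw [h1, integral_prod_swap]
    exact hHI
  have hH2i : Integrable (fun z : ℝ × ℝ => ‖F z.2‖ ^ 2 * ‖D (z.1 - z.2)‖) (μ.prod μ) := by
    refine int4 _ (M ^ 2 * K) ?_ fun z => ?_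
    · exact ((hFc.comp continuous_snd).norm.pow 2).mul
        (hDc.comp (continuous_fst.sub continuous_snd)).norm
    · rw [Real.norm_of_nonneg (by positivity)]
      exact mul_le_mul (pow_le_pow_left₀ (norm_nonneg _) (hFb _) 2) (hDb _) (norm_nonneg _)
        (by positivity)
  have hc2 : ∑ n ∈ Icc 1 K, ‖c n‖ ^ 2 ≤ G * I := by
    have h0 : 0 ≤ ∑ n ∈ Icc 1 K, ‖c n‖ ^ 2 := Finset.sum_nonneg fun n _ => by positivity
    have h1 : ∑ n ∈ Icc 1 K, ‖c n‖ ^ 2 = ‖((∑ n ∈ Icc 1 K, ‖c n‖ ^ 2 : ℝ) : ℂ)‖ := by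
      rw [Complex.norm_real, Real.norm_of_nonneg h0]
    rw [h1, hsum]
    refine (norm_integral_le_integral_norm _).trans ?_
    have h2 : ∫ z : ℝ × ℝ, ‖(starRingEnd ℂ) (F z.1) * F z.2 * D (z.1 - z.2)‖ ∂(μ.prod μ)
        ≤ ∫ z : ℝ × ℝ, ((1 / 2) * H z + (1 / 2) * (‖F z.2‖ ^ 2 * ‖D (z.1 - z.2)‖))
            ∂(μ.prod μ) := by
      refine integral_mono ?_ ((hHi.const_mul _).add (hH2i.const_mul _)) fun z => ?_
      · refine int4 _ (M * M * K) ?_ fun z => ?_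
        · exact (((hconjF.comp continuous_fst).mul (hFc.comp continuous_snd)).mul
            (hDc.comp (continuous_fst.sub continuous_snd))).norm
        · rw [Real.norm_of_nonneg (norm_nonneg _), norm_mul, norm_mul, Complex.norm_conj]
          exact mul_le_mul (mul_le_mul (hFb _) (hFb _) (norm_nonneg _) hM0) (hDb _)
            (norm_nonneg _) (by positivity)
      · simp only [hH]
        rw [norm_mul, norm_mul, Complex.norm_conj]
        nlinarith [mul_nonneg (sq_nonneg (‖F z.1‖ - ‖F z.2‖)) (norm_nonneg (D (z.1 - z.2)))]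
    refine h2.trans ?_
    rw [integral_add (hHi.const_mul _) (hH2i.const_mul _), integral_const_mul, integral_const_mul]
    linarith
  have hfinal : I * I ≤ (G * ∑ n ∈ Icc 1 K, ‖a n‖ ^ 2) * I := by
    have h0 : 0 ≤ ∑ n ∈ Icc 1 K, ‖a n‖ ^ 2 := Finset.sum_nonneg fun n _ => by positivity
    calc I * I = I ^ 2 := by ring
      _ ≤ (∑ n ∈ Icc 1 K, ‖a n‖ ^ 2) * ∑ n ∈ Icc 1 K, ‖c n‖ ^ 2 := hCS
      _ ≤ (∑ n ∈ Icc 1 K, ‖a n‖ ^ 2) * (G * I) := mul_le_mul_of_nonneg_left hc2 h0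
      _ = _ := by ring
  rcases hI0.lt_or_eq with hpos | hzero
  · exact le_of_mul_le_mul_right hfinal hpos
  · rw [← hzero]
    have h0 : 0 ≤ ∑ n ∈ Icc 1 K, ‖a n‖ ^ 2 := Finset.sum_nonneg fun n _ => by positivity
    positivity

end Pool.Agent.H80.LV

end

section

/-!
The large sieve inequality in its direct form.
-/

set_option autoImplicit false

namespace Pool.Agent.H92.EH

open Finset

/-- Direct form of the large sieve inequality. -/
theorem large_sieve {ι : Type*} [DecidableEq ι] (J : Finset ι) (α : ι → ℝ) (a : ℕ → ℂ)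
    (M N : ℕ) (hN : N ≤ M) (hM : 0 < M)
    (hsp : ∀ i ∈ J, ∀ j ∈ J, i ≠ j → ∀ m : ℤ, (1 : ℝ) / M ≤ |α i - α j - m|) :
    ∑ j ∈ J, ‖∑ n ∈ Icc 1 N, a n * e (n * α j)‖ ^ 2 ≤ 5 * M * ∑ n ∈ Icc 1 N, ‖a n‖ ^ 2 := by
  set S : ι → ℂ := fun j => ∑ n ∈ Icc 1 N, a n * e (n * α j) with hS
  set T : ℝ := ∑ j ∈ J, ‖S j‖ ^ 2 with hT
  set B : ℝ := ∑ n ∈ Icc 1 N, ‖a n‖ ^ 2 with hB
  have hT0 : 0 ≤ T := sum_nonneg fun _ _ => by positivity
  have hB0 : 0 ≤ B := sum_nonneg fun _ _ => by positivity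
  have hM' : (0 : ℝ) < M := by exact_mod_cast hM
  have h1 : (T : ℂ) = ∑ n ∈ Icc 1 N, a n * ∑ j ∈ J, (starRingEnd ℂ) (S j) * e (n * α j) := by
    rw [hT, Complex.ofReal_sum]
    have h2 : ∀ j, ((‖S j‖ ^ 2 : ℝ) : ℂ)
        = ∑ n ∈ Icc 1 N, a n * ((starRingEnd ℂ) (S j) * e (n * α j)) := by
      intro j
      push_cast
      rw [← Complex.mul_conj']
      nth_rewrite 1 [hS]
      simp only
      rw [sum_mul]
      refine sum_congr rfl fun n _ => ?_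
      ring
    simp_rw [h2]
    rw [sum_comm]
    refine sum_congr rfl fun n _ => ?_
    rw [mul_sum]
  have h3 : T ≤ ∑ n ∈ Icc 1 N, ‖a n‖ * ‖∑ j ∈ J, (starRingEnd ℂ) (S j) * e (n * α j)‖ := by
    have : T = ‖(T : ℂ)‖ := by rw [Complex.norm_real, Real.norm_of_nonneg hT0]
    rw [this, h1]
    refine (norm_sum_le _ _).trans (le_of_eq ?_)
    refine sum_congr rfl fun n _ => ?_
    rw [norm_mul]
  have h4 : T ^ 2 ≤ B * (5 * M * T) := by
    calc T ^ 2 ≤ (∑ n ∈ Icc 1 N, ‖a n‖ * ‖∑ j ∈ J, (starRingEnd ℂ) (S j) * e (n * α j)‖) ^ 2 :=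
          pow_le_pow_left₀ hT0 h3 2
      _ ≤ (∑ n ∈ Icc 1 N, ‖a n‖ ^ 2)
          * ∑ n ∈ Icc 1 N, ‖∑ j ∈ J, (starRingEnd ℂ) (S j) * e (n * α j)‖ ^ 2 :=
          sum_mul_sq_le_sq_mul_sq _ _ _
      _ ≤ B * (5 * M * T) := by
          apply mul_le_mul_of_nonneg_left _ hB0
          refine (dual_large_sieve J α (fun j => (starRingEnd ℂ) (S j)) M N hN hM hsp).trans ?_
          simp only [RCLike.norm_conj]
          exact le_rfl
  rcases hT0.eq_or_lt with h | h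
  · rw [← h]
    positivity
  · have h5 : T * T ≤ (5 * M * B) * T := by nlinarith
    exact le_of_mul_le_mul_right h5 h

end Pool.Agent.H92.EH

end

section

/-!
# MID Net: a small net of large frequencies for an interval (large sieve)

Proof.  Let `G = {γ : ν ≤ ‖S(γ)‖}`, `S(γ) = ∑_{k ∈ [u,u+w)} f(k) ee(-kγ)`.  A finite set `Γ ⊆ G` with `nz (β - β') > 1/w` for all distinct
`β, β' ∈ Γ` satisfies `|Γ| ν^2 ≤ ∑_{β ∈ Γ} ‖S(β)‖^2 ≤ 5 w S` by `Pool.Agent.H92.EH.large_sieve` (`J = Γ`, `α β = -β`,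
`a n = f (u + n - 1)`, `M = N = w`; `‖S(β)‖ = ‖∑_{n=1}^w a_n e(n α)‖` since the factor `e((u-1)β)` has modulus `1`;
`|α_i - α_j - m| ≥ nz(..) ≥ 1/w`, `nz_le_of`, `nz_neg`).  So the cardinalities are bounded; take `Γ` of maximal cardinality (`Nat.findGreatest` or
strong induction).  If `γ ∈ G` had `nz (γ - β) > 1/w` for all `β ∈ Γ`, then `Γ ∪ {γ}` would be larger (`γ ∉ Γ` because `nz 0 = 0`).
-/

set_option autoImplicit false

namespace Pool.Agent.H53.MID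

open Finset
open Pool.Agent.H91.PK (ee)

/-- the exponential sum -/
private noncomputable def Net_S (f : ℕ → ℝ) (u w : ℕ) (γ : ℝ) : ℂ :=
  ∑ k ∈ Ico u (u + w), (f k : ℂ) * ee (-(k * γ))

private theorem Net_norm_eq (f : ℕ → ℝ) (u w : ℕ) (γ : ℝ) :
    ‖Net_S f u w γ‖ = ‖∑ n ∈ Icc 1 w, (f (u + n - 1) : ℂ) * Pool.Agent.H92.EH.e (n * (-γ))‖ := by
  have h1 : Net_S f u w γ = ee (-(((u : ℝ) - 1) * γ)) *
      ∑ n ∈ Icc 1 w, (f (u + n - 1) : ℂ) * Pool.Agent.H92.EH.e (n * (-γ)) := by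
    unfold Net_S
    have h2 : Ico u (u + w) = (Icc 1 w).image (fun n => u + n - 1) := by
      ext k
      rw [Finset.mem_Ico, Finset.mem_image]
      constructor
      · rintro ⟨h3, h4⟩
        exact ⟨k + 1 - u, by rw [Finset.mem_Icc]; omega, by omega⟩
      · rintro ⟨n, hn, rfl⟩
        rw [Finset.mem_Icc] at hn
        omega
    rw [h2, Finset.sum_image, Finset.mul_sum]
    · refine Finset.sum_congr rfl fun n hn => ?_
      rw [Finset.mem_Icc] at hn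
      have h3 : ((u + n - 1 : ℕ) : ℝ) = (u : ℝ) - 1 + n := by
        rw [Nat.cast_sub (by omega)]
        push_cast
        ring
      have h4 : ee (-(((u + n - 1 : ℕ) : ℝ) * γ)) =
          ee (-(((u : ℝ) - 1) * γ)) * Pool.Agent.H92.EH.e (n * (-γ)) := by
        rw [h3]
        unfold ee Pool.Agent.H92.EH.e
        rw [← Complex.exp_add]
        congr 1
        push_cast
        ring
      rw [h4]
      ring
    · intro a ha b hb hab
      simp only [Finset.coe_Icc, Set.mem_Icc] at ha hb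
      simp only at hab
      omega
  have h2 : ‖ee (-(((u : ℝ) - 1) * γ))‖ = 1 := by
    unfold ee
    have h3 : (2 * Real.pi * ((-(((u : ℝ) - 1) * γ) : ℝ) : ℂ) * Complex.I) =
        ((2 * Real.pi * (-(((u : ℝ) - 1) * γ)) : ℝ) : ℂ) * Complex.I := by
      push_cast
      ring
    rw [h3, Complex.norm_exp_ofReal_mul_I]
  rw [h1, norm_mul, h2, one_mul]

private theorem Net_card (f : ℕ → ℝ) (u w : ℕ) (hw : 1 ≤ w) (ν S : ℝ) (hν : 0 < ν)
    (hS : ∑ k ∈ Ico u (u + w), f k ^ 2 ≤ S) (Γ : Finset ℝ)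
    (h1 : ∀ β ∈ Γ, ν ≤ ‖Net_S f u w β‖)
    (h2 : ∀ β ∈ Γ, ∀ β' ∈ Γ, β ≠ β' → 1 / (w : ℝ) < nz (β - β')) :
    (Γ.card : ℝ) ≤ 5 * w * S / ν ^ 2 := by
  have hls := Pool.Agent.H92.EH.large_sieve Γ (fun β => -β)
    (fun n => ((f (u + n - 1) : ℝ) : ℂ)) w w le_rfl (by omega) (by
      intro i hi j hj hij m
      have h3 := h2 j hj i hi hij.symm
      have h4 := nz_le_of (j - i) m
      have h5 : -i - -j - (m : ℝ) = j - i - m := by ring
      rw [h5]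
      linarith)
  have h3 : ∑ n ∈ Icc 1 w, ‖((f (u + n - 1) : ℝ) : ℂ)‖ ^ 2 ≤ S := by
    refine le_trans (le_of_eq ?_) hS
    have h4 : Ico u (u + w) = (Icc 1 w).image (fun n => u + n - 1) := by
      ext k
      rw [Finset.mem_Ico, Finset.mem_image]
      constructor
      · rintro ⟨h3, h4⟩
        exact ⟨k + 1 - u, by rw [Finset.mem_Icc]; omega, by omega⟩
      · rintro ⟨n, hn, rfl⟩
        rw [Finset.mem_Icc] at hn
        omega
    rw [h4, Finset.sum_image]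
    · refine Finset.sum_congr rfl fun n _ => ?_
      rw [Complex.norm_real, Real.norm_eq_abs, sq_abs]
    · intro a ha b hb hab
      simp only [Finset.coe_Icc, Set.mem_Icc] at ha hb
      simp only at hab
      omega
  have h4 : (Γ.card : ℝ) * ν ^ 2 ≤ ∑ j ∈ Γ, ‖∑ n ∈ Icc 1 w, ((f (u + n - 1) : ℝ) : ℂ) *
      Pool.Agent.H92.EH.e (n * (-j))‖ ^ 2 := by
    rw [← nsmul_eq_mul, ← Finset.sum_const]
    refine Finset.sum_le_sum fun β hβ => ?_
    rw [← Net_norm_eq]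
    exact pow_le_pow_left₀ hν.le (h1 β hβ) 2
  rw [le_div_iff₀ (by positivity)]
  refine h4.trans (hls.trans ?_)
  exact mul_le_mul_of_nonneg_left h3 (by positivity)

theorem net (f : ℕ → ℝ) (u w : ℕ) (hw : 1 ≤ w) (ν S : ℝ) (hν : 0 < ν) (hS : ∑ k ∈ Ico u (u + w), f k ^ 2 ≤ S) :
    ∃ Γ : Finset ℝ, (Γ.card : ℝ) ≤ 5 * w * S / ν ^ 2 ∧
      ∀ γ : ℝ, ν ≤ ‖∑ k ∈ Ico u (u + w), (f k : ℂ) * ee (-(k * γ))‖ → ∃ β ∈ Γ, nz (γ - β) ≤ 1 / w := by
  classical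
  set Gd : Finset ℝ → Prop := fun Γ => (∀ β ∈ Γ, ν ≤ ‖Net_S f u w β‖) ∧
    ∀ β ∈ Γ, ∀ β' ∈ Γ, β ≠ β' → 1 / (w : ℝ) < nz (β - β') with hGd
  set P : ℕ → Prop := fun n => ∃ Γ : Finset ℝ, Gd Γ ∧ Γ.card = n with hP
  set B : ℕ := ⌊5 * w * S / ν ^ 2⌋₊ with hB
  have hPB : ∀ n, P n → n ≤ B := by
    rintro n ⟨Γ, hΓ, rfl⟩
    exact Nat.le_floor (Net_card f u w hw ν S hν hS Γ hΓ.1 hΓ.2)
  have hP0 : P 0 := ⟨∅, ⟨by simp, by simp⟩, rfl⟩
  obtain ⟨Γ, hΓ, hcard⟩ := Nat.findGreatest_spec (P := P) (Nat.zero_le B) hP0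
  refine ⟨Γ, Net_card f u w hw ν S hν hS Γ hΓ.1 hΓ.2, ?_⟩
  intro γ hγ
  by_contra hcon
  push Not at hcon
  have hw0 : (0 : ℝ) < 1 / w := by
    have : (0 : ℝ) < w := by exact_mod_cast hw
    positivity
  have hγΓ : γ ∉ Γ := by
    intro h
    have h1 := hcon γ h
    rw [sub_self] at h1
    have h2 := nz_le_abs 0
    rw [abs_zero] at h2
    linarith
  have hnew : P (Γ.card + 1) := by
    refine ⟨insert γ Γ, ⟨?_, ?_⟩, Finset.card_insert_of_notMem hγΓ⟩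
    · intro β hβ
      rw [Finset.mem_insert] at hβ
      rcases hβ with rfl | hβ
      · exact hγ
      · exact hΓ.1 β hβ
    · intro β hβ β' hβ' hne
      rw [Finset.mem_insert] at hβ hβ'
      rcases hβ with rfl | hβ
      · rcases hβ' with rfl | hβ'
        · exact absurd rfl hne
        · exact hcon β' hβ'
      · rcases hβ' with rfl | hβ'
        · have h1 := hcon β hβ
          rw [← nz_neg, neg_sub] at h1
          exact h1
        · exact hΓ.2 β hβ β' hβ' hne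
  have h1 := Nat.le_findGreatest (P := P) (hPB _ hnew) hnew
  rw [← hcard] at h1
  omega

end Pool.Agent.H53.MID

end
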