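import Pool.Agent.H43.PM.M03
import Pool.Agent.H43.PM.M08

/-! The parts of this file: H76.EHB.Basic, H76.EHB.SmallA, H35.W.JredE, H35.W.MelG, H76.SP.MelL, H35.W.MellE, H35.W.MelTl. -/

section

/-!
# EHB Basic: elementary facts on `ee`, `FF`, `ks`

Everything follows from `LSa_ee_add`, `LSa_norm_ee`, `LSa_conj_ee`, `LSa_int_ee`, `LSa_parseval` of
`Pool/Agent/H91/PK/LSa.lean` (for `FF_parseval` take `c = 0`, `s = Icc 1 N`, `b n = f n`).
`sum_inv_ks`: the sum is `2 ∑_{k ≤ K} 1/k ≤ 2 (1 + log K)` (`harmonic_le_one_add_log`).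
-/

set_option autoImplicit false

namespace Pool.Agent.H76.EHB

open Finset MeasureTheory
open Pool.Agent.H91.PK (ee)

theorem continuous_ee : Continuous ee := by
  unfold ee
  fun_prop

theorem ee_int (j : ℤ) : ee j = 1 := by
  unfold ee
  rw [Complex.exp_eq_one_iff]
  refine ⟨j, ?_⟩
  push_cast
  ring

theorem ee_add_int (t : ℝ) (j : ℤ) : ee (t + j) = ee t := by
  rw [Pool.Agent.H91.PK.LSa_ee_add, ee_int, mul_one]

theorem FF_add_int (f : ℕ → ℝ) (N : ℕ) (θ : ℝ) (j : ℤ) : FF f N (θ + j) = FF f N θ := by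
  unfold FF
  refine sum_congr rfl fun n _ => ?_
  have h : (n : ℝ) * (θ + j) = n * θ + (((n : ℤ) * j : ℤ) : ℝ) := by
    push_cast
    ring
  rw [h, ee_add_int]

theorem FF_continuous (f : ℕ → ℝ) (N : ℕ) : Continuous (FF f N) := by
  unfold FF
  refine continuous_finsetSum _ fun n _ => ?_
  exact continuous_const.mul (continuous_ee.comp (continuous_const.mul continuous_id))

theorem norm_FF_le (f : ℕ → ℝ) (N : ℕ) (θ : ℝ) : ‖FF f N θ‖ ≤ ∑ n ∈ Icc 1 N, |f n| := by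
  unfold FF
  refine (norm_sum_le _ _).trans (le_of_eq (sum_congr rfl fun n _ => ?_))
  rw [norm_mul, Pool.Agent.H91.PK.LSa_norm_ee, mul_one, Complex.norm_real, Real.norm_eq_abs]

/-- Cauchy-Schwarz -/
theorem norm_FF_sq_le (f : ℕ → ℝ) (N : ℕ) (θ : ℝ) : ‖FF f N θ‖ ^ 2 ≤ N * S2 f N := by
  have h1 : ‖FF f N θ‖ ^ 2 ≤ (∑ n ∈ Icc 1 N, |f n|) ^ 2 :=
    pow_le_pow_left₀ (norm_nonneg _) (norm_FF_le f N θ) 2
  refine h1.trans ((sq_sum_le_card_mul_sum_sq).trans (le_of_eq ?_))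
  unfold S2
  rw [Nat.card_Icc, Nat.add_sub_cancel]
  simp only [sq_abs]

theorem FF_parseval (f : ℕ → ℝ) (N : ℕ) (x : ℝ) :
    ∫ t in x..(x + 1), ‖FF f N t‖ ^ 2 = S2 f N := by
  have h := Pool.Agent.H91.PK.LSa_parseval (Icc 1 N) (fun n => (f n : ℂ)) 0 x
  simp only [sub_zero, Complex.norm_real, Real.norm_eq_abs, sq_abs] at h
  exact h

theorem S2_nonneg (f : ℕ → ℝ) (N : ℕ) : 0 ≤ S2 f N := Finset.sum_nonneg fun _ _ => sq_nonneg _

end Pool.Agent.H76.EHB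

end

section

/-!
# EHB SmallA: pairs with small difference; tails

Fix a real `α` and `d ≥ 1`.
`near_pairs`: pairs `k1, k2 ∈ ks K`, `0 < |k2 - k1| < r0`, `d ∣ k2 - k1`, any measurable `S`:
 each `‖IpS‖ ≤ (Wk + Wk)/2 ≤ 2 A (1/|k1| + 1/|k2|) S2` (`IpS_le`, `Wk_le`; `|k| ≤ K ≤ A ≤ A |r|`), for given `k` there are at most
 `2 r0/d` integers `k'` with `d ∣ k' - k`, `0 < |k' - k| < r0`; so the sum is `≤ 4 A S2 (2 r0/d) ∑_k 1/|k| ≤ 16 A (1 + log K) (r0/d) S2`.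
`equal_pairs`: pairs `k1 = k2 = k`, `S = Icc (-Y) Y`, `K Y ≤ 1/2`: `IpS` is `∫_{|y| ≤ Y} A |FF(α + k y)|^2 dy = (A/|k|) ∫_{|θ| ≤ |k| Y} |FF(α+θ)|^2`
 `≤ (A/|k|) S2` (an interval of length ≤ 1, `FF_parseval`).
-/

set_option autoImplicit false

namespace Pool.Agent.H76.EHB

open Finset MeasureTheory

theorem SmallA_window (f : ℕ → ℝ) (N : ℕ) (u v : ℝ) (huv : u ≤ v) (hv : v ≤ u + 1) :
    ∫ t in u..v, ‖FF f N t‖ ^ 2 ≤ S2 f N := by
  rw [← FF_parseval f N u]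
  apply intervalIntegral.integral_mono_interval le_rfl huv hv
  · exact Filter.Eventually.of_forall fun t => by positivity
  · exact (((FF_continuous f N).norm).pow 2).intervalIntegrable _ _

end Pool.Agent.H76.EHB

end

section

/-!
# W JredE: from `JJT` to the damped integrals `II S (ge ..)`

Proof.  Compare `EHB.JJ_le` (`H76/EHB/Jred.lean`).  Split `[-Y, Y]` at 0.  For `0 < y ≤ Y`, `s = ±1`, `k ∈ S` (`k ≥ 1`):
`F(α + s k y) ee(-a s k y) = ge f N α a Θ s (k y) + F(α + s k y) ee(-a s k y) (1 - exp(-k y/Θ))`.  So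
`‖∑_k F(α + s k y) ee(..)‖^2 ≤ 2 ‖∑_k ge(k y)‖^2 + 2 ‖E(y)‖^2`, `‖E(y)‖^2 ≤ |S| ∑_k (K Y/Θ)^2 |F(α + s k y)|^2`
(`0 ≤ 1 - e^{-u} ≤ u`), and `∫_0^Y |F(α + s k y)|^2 dy = (1/k) ∫_0^{kY} |F(α + s θ)|^2 dθ ≤ S2/k` as `k Y ≤ 1`
(`SmallA_window`, `FF_parseval`).  Two halves: error `≤ 2 · 2 |S| (K Y/Θ)^2 (∑ 1/k) S2`.  The integral of `‖∑ ge‖^2` over
`(0, Y]` is at most that over `(0, ∞)` (integrability: `ge` is bounded by `(∑|f|) exp(-θ/Θ)` and measurable, `k ≥ 1`; if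
`S` is empty everything is 0).
-/

set_option autoImplicit false

namespace Pool.Agent.H35.W

open Finset MeasureTheory
open Pool.Agent.H91.PK (ee)
open Pool.Agent.H76.EHB

private theorem JredE_norm_ee (t : ℝ) : ‖ee t‖ = 1 := Pool.Agent.H91.PK.LSa_norm_ee t

theorem ge_measurable (f : ℕ → ℝ) (N : ℕ) (α a Θ s : ℝ) : Measurable (ge f N α a Θ s) := by
  unfold ge
  refine Measurable.ite (measurableSet_Ioi (a := (0 : ℝ))) ?_ measurable_const
  have h1 : Continuous (fun θ : ℝ => FF f N (α + s * θ)) :=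
    (FF_continuous f N).comp (by fun_prop)
  have h2 : Continuous (fun θ : ℝ => ee (-(a * s * θ))) := continuous_ee.comp (by fun_prop)
  have h3 : Continuous (fun θ : ℝ => ((Real.exp (-(θ / Θ)) : ℝ) : ℂ)) := by fun_prop
  exact ((h1.mul h2).mul h3).measurable

/-- the norm of `ge` at a positive point -/
private theorem JredE_norm_ge (f : ℕ → ℝ) (N : ℕ) (α a Θ s θ : ℝ) (hθ : 0 < θ) :
    ‖ge f N α a Θ s θ‖ = ‖FF f N (α + s * θ)‖ * Real.exp (-(θ / Θ)) := by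
  unfold ge
  rw [if_pos hθ, norm_mul, norm_mul, JredE_norm_ee, mul_one, Complex.norm_real, Real.norm_eq_abs,
    abs_of_pos (Real.exp_pos _)]

theorem norm_ge_le (f : ℕ → ℝ) (N : ℕ) (α a Θ s θ : ℝ) (hθ : 0 < θ) :
    ‖ge f N α a Θ s θ‖ ≤ (∑ n ∈ Icc 1 N, |f n|) * Real.exp (-(θ / Θ)) := by
  rw [JredE_norm_ge f N α a Θ s θ hθ]
  exact mul_le_mul_of_nonneg_right (norm_FF_le f N _) (Real.exp_pos _).le

/-- windows of length at most one, both signs -/
private theorem JredE_window (f : ℕ → ℝ) (N : ℕ) (α s u v : ℝ) (hs : s = 1 ∨ s = -1)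
    (huv : u ≤ v) (hv : v ≤ u + 1) :
    ∫ θ in u..v, ‖FF f N (α + s * θ)‖ ^ 2 ≤ S2 f N := by
  rcases hs with rfl | rfl
  · have h := intervalIntegral.integral_comp_add_left (a := u) (b := v)
      (fun t => ‖FF f N t‖ ^ 2) α
    simp only [one_mul]
    rw [h]
    exact SmallA_window f N _ _ (by linarith) (by linarith)
  · have h := intervalIntegral.integral_comp_sub_left (a := u) (b := v)
      (fun t => ‖FF f N t‖ ^ 2) α
    have e : ∀ θ : ℝ, α + -1 * θ = α - θ := fun θ => by ring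
    simp only [e]
    rw [h]
    exact SmallA_window f N _ _ (by linarith) (by linarith)

private theorem JredE_FF_cont (f : ℕ → ℝ) (N : ℕ) (α s : ℝ) :
    Continuous (fun θ : ℝ => ‖FF f N (α + s * θ)‖ ^ 2) :=
  (((FF_continuous f N).comp (by fun_prop : Continuous fun θ : ℝ => α + s * θ)).norm).pow 2

private theorem JredE_scale (f : ℕ → ℝ) (N : ℕ) (α s Y : ℝ) (k : ℕ) (hk : 1 ≤ k)
    (hs : s = 1 ∨ s = -1) (hY : 0 ≤ Y) (hkY : k * Y ≤ 1) :
    ∫ y in (0 : ℝ)..Y, ‖FF f N (α + s * (k * y))‖ ^ 2 ≤ (1 / (k : ℝ)) * S2 f N := by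
  have hk0 : (k : ℝ) ≠ 0 := by
    have : (1 : ℝ) ≤ k := by exact_mod_cast hk
    linarith
  have h1 := intervalIntegral.integral_comp_mul_left (a := 0) (b := Y)
    (fun t => ‖FF f N (α + s * t)‖ ^ 2) hk0
  rw [h1, smul_eq_mul, mul_zero, ← one_div]
  have hk1 : (0 : ℝ) ≤ (k : ℝ) * Y := by positivity
  exact mul_le_mul_of_nonneg_left
    (JredE_window f N α s 0 (k * Y) hs hk1 (by linarith)) (by positivity)

private theorem JredE_int_ge (S : Finset ℕ) (hS : ∀ k ∈ S, 1 ≤ k) (f : ℕ → ℝ) (N : ℕ)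
    (α a Θ s : ℝ) (hΘ : 0 < Θ) :
    IntegrableOn (fun y => ‖∑ k ∈ S, ge f N α a Θ s (k * y)‖ ^ 2) (Set.Ioi (0 : ℝ)) := by
  obtain ⟨B, hB⟩ : ∃ B : ℝ, B = ∑ n ∈ Icc 1 N, |f n| := ⟨_, rfl⟩
  have hB0 : 0 ≤ B := by
    rw [hB]
    exact Finset.sum_nonneg fun _ _ => abs_nonneg _
  have hmeas : Measurable (fun y => ‖∑ k ∈ S, ge f N α a Θ s (k * y)‖ ^ 2) := by
    refine (Measurable.norm (Finset.measurable_sum S fun k _ => ?_)).pow_const 2
    exact (ge_measurable f N α a Θ s).comp (measurable_const.mul measurable_id)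
  have hi : IntegrableOn (fun y : ℝ => ((S.card : ℝ) * B) ^ 2 * Real.exp (-(1 / Θ) * y))
      (Set.Ioi (0 : ℝ)) :=
    (exp_neg_integrableOn_Ioi 0 (by positivity : 0 < 1 / Θ)).const_mul _
  refine Integrable.mono' hi hmeas.aestronglyMeasurable ?_
  refine (ae_restrict_iff' measurableSet_Ioi).2 (Filter.Eventually.of_forall ?_)
  intro y hy
  have hy0 : (0 : ℝ) < y := hy
  rw [Real.norm_eq_abs, abs_of_nonneg (sq_nonneg _)]
  have h1 : ‖∑ k ∈ S, ge f N α a Θ s (k * y)‖ ≤ (S.card : ℝ) * B * Real.exp (-(1 / Θ) * y) := by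
    refine (norm_sum_le _ _).trans ?_
    have h2 : ∀ k ∈ S, ‖ge f N α a Θ s (k * y)‖ ≤ B * Real.exp (-(1 / Θ) * y) := by
      intro k hk
      have hk1 : (1 : ℝ) ≤ k := by exact_mod_cast hS k hk
      have hky : 0 < (k : ℝ) * y := by positivity
      refine (norm_ge_le f N α a Θ s _ hky).trans ?_
      rw [← hB]
      apply mul_le_mul_of_nonneg_left _ hB0
      apply Real.exp_le_exp.2
      have h3 : y ≤ k * y := by nlinarith
      have h4 : y / Θ ≤ k * y / Θ := by gcongr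
      calc -(k * y / Θ) ≤ -(y / Θ) := by linarith
        _ = -(1 / Θ) * y := by ring
    refine (Finset.sum_le_sum h2).trans (le_of_eq ?_)
    rw [Finset.sum_const, nsmul_eq_mul]
    ring
  have h5 : Real.exp (-(1 / Θ) * y) ≤ 1 := by
    apply Real.exp_le_one_iff.2
    have : 0 ≤ 1 / Θ * y := by positivity
    linarith
  have h6 := Real.exp_pos (-(1 / Θ) * y)
  calc ‖∑ k ∈ S, ge f N α a Θ s (k * y)‖ ^ 2
      ≤ ((S.card : ℝ) * B * Real.exp (-(1 / Θ) * y)) ^ 2 :=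
        pow_le_pow_left₀ (norm_nonneg _) h1 2
    _ = ((S.card : ℝ) * B) ^ 2 * (Real.exp (-(1 / Θ) * y) * Real.exp (-(1 / Θ) * y)) := by ring
    _ ≤ ((S.card : ℝ) * B) ^ 2 * (1 * Real.exp (-(1 / Θ) * y)) := by
        apply mul_le_mul_of_nonneg_left _ (sq_nonneg _)
        exact mul_le_mul_of_nonneg_right h5 h6.le
    _ = ((S.card : ℝ) * B) ^ 2 * Real.exp (-(1 / Θ) * y) := by ring

/-- the half line bound, one sign -/
private theorem JredE_half (f : ℕ → ℝ) (N K : ℕ) (S : Finset ℕ) (hS : S ⊆ Icc 1 K)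
    (α a Y Θ s : ℝ) (hs : s = 1 ∨ s = -1) (hY : 0 ≤ Y) (hKY : K * Y ≤ 1) (hΘ : 0 < Θ) :
    ∫ y in Set.Ioc (0 : ℝ) Y, ‖∑ k ∈ S, FF f N (α + s * (k * y)) * ee (-(a * s * (k * y)))‖ ^ 2
      ≤ 2 * II S (ge f N α a Θ s)
        + 2 * S.card * (K * Y / Θ) ^ 2 * (∑ k ∈ S, 1 / (k : ℝ)) * S2 f N := by
  have hS1 : ∀ k ∈ S, 1 ≤ k := fun k hk => (mem_Icc.1 (hS hk)).1
  have hSK : ∀ k ∈ S, k ≤ K := fun k hk => (mem_Icc.1 (hS hk)).2
  have i1 := JredE_int_ge S hS1 f N α a Θ s hΘ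
  have hsub : Set.Ioc (0 : ℝ) Y ⊆ Set.Ioi 0 := fun y hy => hy.1
  have j1 := i1.mono_set hsub
  have m1 : ∫ y in Set.Ioc (0 : ℝ) Y, ‖∑ k ∈ S, ge f N α a Θ s (k * y)‖ ^ 2
      ≤ II S (ge f N α a Θ s) :=
    setIntegral_mono_set i1 (Filter.Eventually.of_forall fun y => sq_nonneg _)
      (LE.le.eventuallyLE hsub)
  have hc : ∀ k : ℕ, Continuous (fun y : ℝ => ‖FF f N (α + s * (k * y))‖ ^ 2) := fun k =>
    (JredE_FF_cont f N α s).comp (by fun_prop : Continuous fun y : ℝ => (k : ℝ) * y)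
  have hci : ∀ k : ℕ, IntegrableOn (fun y : ℝ => ‖FF f N (α + s * (k * y))‖ ^ 2)
      (Set.Ioc (0 : ℝ) Y) := fun k =>
    ((hc k).integrableOn_Icc (a := 0) (b := Y)).mono_set Set.Ioc_subset_Icc_self
  obtain ⟨c, hcdef⟩ : ∃ c : ℝ, c = 2 * S.card * (K * Y / Θ) ^ 2 := ⟨_, rfl⟩
  have hc0 : 0 ≤ c := by
    rw [hcdef]
    positivity
  have j2 : IntegrableOn (fun y : ℝ => c * ∑ k ∈ S, ‖FF f N (α + s * (k * y))‖ ^ 2)
      (Set.Ioc (0 : ℝ) Y) :=
    (integrable_finsetSum S fun k _ => hci k).const_mul c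
  have hpt : ∀ y ∈ Set.Ioc (0 : ℝ) Y,
      ‖∑ k ∈ S, FF f N (α + s * (k * y)) * ee (-(a * s * (k * y)))‖ ^ 2
        ≤ 2 * ‖∑ k ∈ S, ge f N α a Θ s (k * y)‖ ^ 2
          + c * ∑ k ∈ S, ‖FF f N (α + s * (k * y))‖ ^ 2 := by
    rintro y ⟨hy0, hyY⟩
    obtain ⟨G, hG⟩ : ∃ G : ℂ, G = ∑ k ∈ S, ge f N α a Θ s (k * y) := ⟨_, rfl⟩
    obtain ⟨E, hE⟩ : ∃ E : ℂ, E = ∑ k ∈ S, FF f N (α + s * (k * y)) * ee (-(a * s * (k * y))) *
      ((1 - Real.exp (-(k * y / Θ)) : ℝ) : ℂ) := ⟨_, rfl⟩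
    have hsum : ∑ k ∈ S, FF f N (α + s * (k * y)) * ee (-(a * s * (k * y))) = G + E := by
      rw [hG, hE, ← Finset.sum_add_distrib]
      refine Finset.sum_congr rfl fun k hk => ?_
      have hk1 : (1 : ℝ) ≤ k := by exact_mod_cast hS1 k hk
      have hky : 0 < (k : ℝ) * y := by positivity
      unfold ge
      rw [if_pos hky]
      push_cast
      ring
    have hEn : ‖E‖ ≤ ∑ k ∈ S, (K * Y / Θ) * ‖FF f N (α + s * (k * y))‖ := by
      rw [hE]
      refine (norm_sum_le _ _).trans (Finset.sum_le_sum fun k hk => ?_)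
      have hk1 : (1 : ℝ) ≤ k := by exact_mod_cast hS1 k hk
      have hkK : (k : ℝ) ≤ K := by exact_mod_cast hSK k hk
      rw [norm_mul, norm_mul, JredE_norm_ee, mul_one, Complex.norm_real, Real.norm_eq_abs, mul_comm]
      apply mul_le_mul_of_nonneg_right _ (norm_nonneg _)
      have h1 : k * y ≤ K * Y := mul_le_mul hkK hyY hy0.le (by positivity)
      have h2 : k * y / Θ ≤ K * Y / Θ := by gcongr
      have h3 : 0 ≤ (k : ℝ) * y / Θ := by positivity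
      have h4 : Real.exp (-(k * y / Θ)) ≤ 1 := Real.exp_le_one_iff.2 (by linarith)
      have h5 := Real.add_one_le_exp (-(k * y / Θ))
      rw [abs_of_nonneg (by linarith)]
      linarith
    have hE2 : ‖E‖ ^ 2 ≤ S.card * ((K * Y / Θ) ^ 2 * ∑ k ∈ S, ‖FF f N (α + s * (k * y))‖ ^ 2) := by
      calc ‖E‖ ^ 2 ≤ (∑ k ∈ S, (K * Y / Θ) * ‖FF f N (α + s * (k * y))‖) ^ 2 :=
            pow_le_pow_left₀ (norm_nonneg _) hEn 2
        _ ≤ S.card * ∑ k ∈ S, ((K * Y / Θ) * ‖FF f N (α + s * (k * y))‖) ^ 2 :=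
            sq_sum_le_card_mul_sum_sq
        _ = S.card * ((K * Y / Θ) ^ 2 * ∑ k ∈ S, ‖FF f N (α + s * (k * y))‖ ^ 2) := by
            have e1 : ∑ k ∈ S, ((K * Y / Θ) * ‖FF f N (α + s * (k * y))‖) ^ 2 =
                (K * Y / Θ) ^ 2 * ∑ k ∈ S, ‖FF f N (α + s * (k * y))‖ ^ 2 := by
              rw [Finset.mul_sum]
              exact Finset.sum_congr rfl fun k _ => mul_pow _ _ 2
            rw [e1]
    rw [hsum, ← hG]
    have h6 := norm_add_le G E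
    have h7 := norm_nonneg (G + E)
    have h8 : ‖G + E‖ ^ 2 ≤ 2 * ‖G‖ ^ 2 + 2 * ‖E‖ ^ 2 := by
      nlinarith [sq_nonneg (‖G‖ - ‖E‖), norm_nonneg G, norm_nonneg E]
    calc ‖G + E‖ ^ 2 ≤ 2 * ‖G‖ ^ 2 + 2 * ‖E‖ ^ 2 := h8
      _ ≤ 2 * ‖G‖ ^ 2 + 2 * (S.card * ((K * Y / Θ) ^ 2 *
            ∑ k ∈ S, ‖FF f N (α + s * (k * y))‖ ^ 2)) := by linarith
      _ = 2 * ‖G‖ ^ 2 + c * ∑ k ∈ S, ‖FF f N (α + s * (k * y))‖ ^ 2 := by
          rw [hcdef]
          ring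
  calc ∫ y in Set.Ioc (0 : ℝ) Y, ‖∑ k ∈ S, FF f N (α + s * (k * y)) * ee (-(a * s * (k * y)))‖ ^ 2
      ≤ ∫ y in Set.Ioc (0 : ℝ) Y, (2 * ‖∑ k ∈ S, ge f N α a Θ s (k * y)‖ ^ 2
          + c * ∑ k ∈ S, ‖FF f N (α + s * (k * y))‖ ^ 2) := by
        apply integral_mono_of_nonneg
        · exact Filter.Eventually.of_forall fun y => sq_nonneg _
        · exact (j1.const_mul 2).add j2
        · exact (ae_restrict_iff' measurableSet_Ioc).2 (Filter.Eventually.of_forall hpt)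
    _ = 2 * (∫ y in Set.Ioc (0 : ℝ) Y, ‖∑ k ∈ S, ge f N α a Θ s (k * y)‖ ^ 2)
          + c * ∑ k ∈ S, ∫ y in Set.Ioc (0 : ℝ) Y, ‖FF f N (α + s * (k * y))‖ ^ 2 := by
        rw [integral_add (j1.const_mul 2) j2, integral_const_mul, integral_const_mul,
          integral_finsetSum S fun k _ => hci k]
    _ ≤ 2 * II S (ge f N α a Θ s) + c * ∑ k ∈ S, (1 / (k : ℝ)) * S2 f N := by
        apply add_le_add
        · linarith
        · apply mul_le_mul_of_nonneg_left _ hc0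
          refine Finset.sum_le_sum fun k hk => ?_
          rw [← intervalIntegral.integral_of_le hY]
          have hkK : (k : ℝ) ≤ K := by exact_mod_cast hSK k hk
          exact JredE_scale f N α s Y k (hS1 k hk) hs hY
            ((mul_le_mul_of_nonneg_right hkK hY).trans hKY)
    _ = 2 * II S (ge f N α a Θ s)
        + 2 * S.card * (K * Y / Θ) ^ 2 * (∑ k ∈ S, 1 / (k : ℝ)) * S2 f N := by
        rw [hcdef, ← Finset.sum_mul]
        ring

theorem jred_e (f : ℕ → ℝ) (N K : ℕ) (S : Finset ℕ) (hS : S ⊆ Icc 1 K) (α a Y Θ : ℝ) (hY : 0 ≤ Y)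
    (hKY : K * Y ≤ 1) (hΘ : 0 < Θ) :
    JJT f N (zs S) α a Y
      ≤ 2 * (II S (ge f N α a Θ 1) + II S (ge f N α a Θ (-1)))
        + 4 * S.card * (K * Y / Θ) ^ 2 * (∑ k ∈ S, 1 / (k : ℝ)) * S2 f N := by
  obtain ⟨H, hH⟩ : ∃ H : ℝ → ℂ, H = fun y => ∑ k ∈ zs S,
      FF f N (α + k * y) * ee (-(a * k * y)) := ⟨_, rfl⟩
  have hHc : Continuous H := by
    rw [hH]
    refine continuous_finsetSum _ fun k _ => ?_
    have h1 : Continuous (fun y : ℝ => FF f N (α + k * y)) :=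
      (FF_continuous f N).comp (by fun_prop)
    have h2 : Continuous (fun y : ℝ => ee (-(a * k * y))) := continuous_ee.comp (by fun_prop)
    exact h1.mul h2
  have hJJ : JJT f N (zs S) α a Y = (∫ y in Set.Ioc (0 : ℝ) Y, ‖H y‖ ^ 2) +
      ∫ y in Set.Ioc (0 : ℝ) Y, ‖H (-y)‖ ^ 2 := by
    have h1 : JJT f N (zs S) α a Y = ∫ y in (-Y)..Y, ‖H y‖ ^ 2 := by
      rw [intervalIntegral.integral_of_le (by linarith), ← integral_Icc_eq_integral_Ioc, hH]
      rfl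
    have hi : ∀ u v : ℝ, IntervalIntegrable (fun y => ‖H y‖ ^ 2) volume u v := fun u v =>
      (hHc.norm.pow 2).intervalIntegrable u v
    rw [h1, ← intervalIntegral.integral_add_adjacent_intervals (hi (-Y) 0) (hi 0 Y),
      ← intervalIntegral.integral_of_le hY, ← intervalIntegral.integral_of_le hY,
      intervalIntegral.integral_comp_neg (fun y => ‖H y‖ ^ 2), neg_zero, add_comm]
  have hHs : ∀ y : ℝ, H y = ∑ k ∈ S, FF f N (α + k * y) * ee (-(a * k * y)) := by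
    intro y
    rw [hH]
    simp only
    unfold zs
    rw [Finset.sum_image (fun i _ j _ h => by exact_mod_cast h)]
    push_cast
    rfl
  have hp : ∀ y : ℝ, H y =
      ∑ k ∈ S, FF f N (α + 1 * (k * y)) * ee (-(a * 1 * (k * y))) := by
    intro y
    rw [hHs]
    refine Finset.sum_congr rfl fun k _ => ?_
    congr 2 <;> ring
  have hm : ∀ y : ℝ, H (-y) =
      ∑ k ∈ S, FF f N (α + (-1) * (k * y)) * ee (-(a * (-1) * (k * y))) := by
    intro y
    rw [hHs]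
    refine Finset.sum_congr rfl fun k _ => ?_
    congr 2 <;> ring
  have e1 := JredE_half f N K S hS α a Y Θ 1 (Or.inl rfl) hY hKY hΘ
  have e2 := JredE_half f N K S hS α a Y Θ (-1) (Or.inr rfl) hY hKY hΘ
  have a1 : ∫ y in Set.Ioc (0 : ℝ) Y, ‖H y‖ ^ 2 = ∫ y in Set.Ioc (0 : ℝ) Y,
      ‖∑ k ∈ S, FF f N (α + 1 * (k * y)) * ee (-(a * 1 * (k * y)))‖ ^ 2 := by
    simp only [hp]
  have a2 : ∫ y in Set.Ioc (0 : ℝ) Y, ‖H (-y)‖ ^ 2 = ∫ y in Set.Ioc (0 : ℝ) Y,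
      ‖∑ k ∈ S, FF f N (α + (-1) * (k * y)) * ee (-(a * (-1) * (k * y)))‖ ^ 2 := by
    simp only [hm]
  rw [hJJ, a1, a2]
  linarith

/-- the `L^2` norm of the damped function -/
theorem ge_L2 (f : ℕ → ℝ) (N : ℕ) (α a Θ s : ℝ) (hΘ0 : 0 < Θ) (hΘ : Θ ≤ 1) (hs : s = 1 ∨ s = -1) :
    ∫ θ in Set.Ioi (0 : ℝ), ‖ge f N α a Θ s θ‖ ^ 2 ≤ 2 * S2 f N := by
  have hS2 := S2_nonneg f N
  have hcont : Continuous (fun θ : ℝ => Real.exp (-(2 * θ)) * ‖FF f N (α + s * θ)‖ ^ 2) :=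
    (by fun_prop : Continuous fun θ : ℝ => Real.exp (-(2 * θ))).mul (JredE_FF_cont f N α s)
  have hint : IntegrableOn (fun θ : ℝ => Real.exp (-(2 * θ)) * ‖FF f N (α + s * θ)‖ ^ 2)
      (Set.Ioi (0 : ℝ)) := by
    have h1 : IntegrableOn (fun θ : ℝ => Real.exp (-2 * θ)) (Set.Ioi (0 : ℝ)) :=
      exp_neg_integrableOn_Ioi 0 (by norm_num)
    have h2 : IntegrableOn (fun θ : ℝ => ((N : ℝ) * S2 f N) * Real.exp (-2 * θ))
      (Set.Ioi (0 : ℝ)) := h1.const_mul _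
    refine Integrable.mono' h2 hcont.aestronglyMeasurable ?_
    refine Filter.Eventually.of_forall fun θ => ?_
    have h3 := norm_FF_sq_le f N (α + s * θ)
    rw [Real.norm_eq_abs, abs_of_nonneg (by positivity), mul_comm]
    have e : -(2 * θ) = -2 * θ := by ring
    rw [e]
    exact mul_le_mul_of_nonneg_right h3 (Real.exp_pos _).le
  have hle : ∫ θ in Set.Ioi (0 : ℝ), ‖ge f N α a Θ s θ‖ ^ 2
      ≤ ∫ θ in Set.Ioi (0 : ℝ), Real.exp (-(2 * θ)) * ‖FF f N (α + s * θ)‖ ^ 2 := by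
    apply integral_mono_of_nonneg
    · exact Filter.Eventually.of_forall fun y => sq_nonneg _
    · exact hint
    · refine (ae_restrict_iff' measurableSet_Ioi).2 (Filter.Eventually.of_forall ?_)
      intro θ hθ
      have hθ0 : (0 : ℝ) < θ := hθ
      simp only
      rw [JredE_norm_ge f N α a Θ s θ hθ0, mul_pow, mul_comm]
      apply mul_le_mul_of_nonneg_right _ (sq_nonneg _)
      rw [← Real.exp_nat_mul]
      apply Real.exp_le_exp.2
      have h1 : θ ≤ θ / Θ := by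
        rw [le_div_iff₀ hΘ0]
        nlinarith
      push_cast
      linarith
  refine hle.trans ?_
  have hlim := intervalIntegral_tendsto_integral_Ioi (μ := volume) (l := Filter.atTop)
    (b := fun M : ℕ => (M : ℝ)) 0 hint tendsto_natCast_atTop_atTop
  refine le_of_tendsto' hlim fun M => ?_
  have h1 : ∫ θ in (0 : ℝ)..(M : ℝ), Real.exp (-(2 * θ)) * ‖FF f N (α + s * θ)‖ ^ 2
      = ∑ k ∈ range M, ∫ θ in ((k : ℕ) : ℝ)..((k + 1 : ℕ) : ℝ),
          Real.exp (-(2 * θ)) * ‖FF f N (α + s * θ)‖ ^ 2 := by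
    have h := intervalIntegral.sum_integral_adjacent_intervals (μ := volume)
      (f := fun θ => Real.exp (-(2 * θ)) * ‖FF f N (α + s * θ)‖ ^ 2) (a := fun k : ℕ => (k : ℝ))
      (n := M) (fun k _ => hcont.intervalIntegrable _ _)
    rw [h, Nat.cast_zero]
  rw [h1]
  have h2 : ∀ k ∈ range M, ∫ θ in ((k : ℕ) : ℝ)..((k + 1 : ℕ) : ℝ),
      Real.exp (-(2 * θ)) * ‖FF f N (α + s * θ)‖ ^ 2 ≤ (1 / 2) ^ k * S2 f N := by
    intro k _
    have hk1 : ((k : ℕ) : ℝ) ≤ ((k + 1 : ℕ) : ℝ) := by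
      push_cast
      linarith
    have h3 : ∫ θ in ((k : ℕ) : ℝ)..((k + 1 : ℕ) : ℝ),
        Real.exp (-(2 * θ)) * ‖FF f N (α + s * θ)‖ ^ 2
        ≤ ∫ θ in ((k : ℕ) : ℝ)..((k + 1 : ℕ) : ℝ), (1 / 2) ^ k * ‖FF f N (α + s * θ)‖ ^ 2 := by
      apply intervalIntegral.integral_mono_on hk1
      · exact hcont.intervalIntegrable _ _
      · exact (continuous_const.mul (JredE_FF_cont f N α s)).intervalIntegrable _ _
      · rintro θ ⟨hθ1, _⟩
        apply mul_le_mul_of_nonneg_right _ (sq_nonneg _)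
        have h4 : Real.exp (-1) ≤ 1 / 2 := by
          rw [Real.exp_neg, one_div]
          apply inv_anti₀ (by norm_num)
          have := Real.add_one_le_exp (1 : ℝ)
          linarith
        calc Real.exp (-(2 * θ)) ≤ Real.exp (k * (-1)) := by
              apply Real.exp_le_exp.2
              have : (0 : ℝ) ≤ k := by positivity
              linarith
          _ = Real.exp (-1) ^ k := by rw [Real.exp_nat_mul]
          _ ≤ (1 / 2) ^ k := pow_le_pow_left₀ (Real.exp_pos _).le h4 k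
    refine h3.trans ?_
    rw [intervalIntegral.integral_const_mul]
    apply mul_le_mul_of_nonneg_left _ (by positivity)
    apply JredE_window f N α s _ _ hs hk1
    push_cast
    linarith
  refine (Finset.sum_le_sum h2).trans ?_
  rw [← Finset.sum_mul]
  apply mul_le_mul_of_nonneg_right _ hS2
  have h5 := geom_sum_eq (by norm_num : (1 / 2 : ℝ) ≠ 1) M
  have h6 : (0 : ℝ) ≤ (1 / 2) ^ M := by positivity
  have h7 : ((1 / 2 : ℝ) ^ M - 1) / (1 / 2 - 1) = 2 - 2 * (1 / 2) ^ M := by ring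
  rw [h5, h7]
  linarith

end Pool.Agent.H35.W

end

section

/-!
# W MelG: the Mellin transform of the damped exponential sum, and the size of the Gamma factor

`ge f N α a Θ s θ = ∑_n f(n) ee(nα) exp(-w_n θ)`, `w_n = 1/Θ - 2πi s (n - a)`, `Re w_n > 0`, so
`Mel (ge ..) t = Γ(1/2 - it) ∑_n f(n) ee(nα) w_n^{-(1/2 - it)}` (`Complex.integral_cpow_mul_exp_neg_mul_Ioi`;
`mellin g z = ∫_{(0,∞)} θ^{z-1} g(θ) dθ`, `Mel g t = mellin g (1/2 - it)`).
`|Γ(1/2 - it)|^2 = Γ(1/2-it) Γ(1/2+it) = π / sin(π/2 - iπt) = π / cosh(πt) ≤ 2π e^{-π|t|}` (`Complex.Gamma_mul_Gamma_one_sub`,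
`Complex.Gamma_conj`), so `|Γ(1/2 - it)| ≤ 3 e^{-π|t|/2}` (and `≤ 2.51 e^{-π|t|/2}`).
-/

set_option autoImplicit false

namespace Pool.Agent.H35.W

open Finset MeasureTheory
open Pool.Agent.H91.PK (ee)
open Pool.Agent.H76.EHB

/-- the integrand is continuous on the half line -/
private theorem MelG_cont (z w : ℂ) :
    ContinuousOn (fun θ : ℝ => (θ : ℂ) ^ (z - 1) * Complex.exp (-(w * θ))) (Set.Ioi 0) := by
  apply ContinuousOn.mul
  · intro θ hθ
    apply ContinuousAt.continuousWithinAt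
    exact Complex.continuousAt_ofReal_cpow_const θ (z - 1) (Or.inr (ne_of_gt hθ))
  · fun_prop

private theorem MelG_norm (z w : ℂ) {θ : ℝ} (hθ : 0 < θ) :
    ‖(θ : ℂ) ^ (z - 1) * Complex.exp (-(w * θ))‖ = θ ^ (z.re - 1) * Real.exp (-(w.re) * θ) := by
  rw [norm_mul, Complex.norm_cpow_eq_rpow_re_of_pos hθ, Complex.norm_exp]
  simp

private theorem MelG_int {z w : ℂ} (hz : 0 < z.re) (hw : 0 < w.re) :
    IntegrableOn (fun θ : ℝ => (θ : ℂ) ^ (z - 1) * Complex.exp (-(w * θ))) (Set.Ioi 0) := by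
  have h1 : IntegrableOn (fun θ : ℝ => θ ^ (z.re - 1) * Real.exp (-(w.re) * θ ^ (1 : ℝ)))
      (Set.Ioi 0) := integrableOn_rpow_mul_exp_neg_mul_rpow (by linarith) one_pos hw
  refine Integrable.mono' h1 ((MelG_cont z w).aestronglyMeasurable measurableSet_Ioi) ?_
  rw [ae_restrict_iff' measurableSet_Ioi]
  refine Filter.Eventually.of_forall fun θ hθ => ?_
  rw [MelG_norm z w hθ, Real.rpow_one]

private theorem MelG_diff {z w : ℂ} (hz : 0 < z.re) (hw : 0 < w.re) :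
    DifferentiableAt ℂ (fun w : ℂ => ∫ θ in Set.Ioi (0 : ℝ),
      (θ : ℂ) ^ (z - 1) * Complex.exp (-(w * θ))) w := by
  have hε : 0 < w.re / 2 := by linarith
  have hI : IntegrableOn (fun θ : ℝ => θ ^ z.re * Real.exp (-(w.re / 2) * θ ^ (1 : ℝ)))
      (Set.Ioi 0) := integrableOn_rpow_mul_exp_neg_mul_rpow (by linarith) one_pos hε
  have h := hasDerivAt_integral_of_dominated_loc_of_deriv_le
    (μ := volume.restrict (Set.Ioi (0 : ℝ))) (x₀ := w)
    (F := fun (w : ℂ) (θ : ℝ) => (θ : ℂ) ^ (z - 1) * Complex.exp (-(w * θ)))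
    (F' := fun (w : ℂ) (θ : ℝ) => (θ : ℂ) ^ (z - 1) * (Complex.exp (-(w * θ)) * (-θ)))
    (bound := fun θ : ℝ => θ ^ z.re * Real.exp (-(w.re / 2) * θ ^ (1 : ℝ)))
    (s := Metric.ball w (w.re / 2))
    (Metric.ball_mem_nhds w hε)
    (Filter.Eventually.of_forall fun w' =>
      (MelG_cont z w').aestronglyMeasurable measurableSet_Ioi)
    (MelG_int hz hw)
    (ContinuousOn.aestronglyMeasurable (by
      have h1 := (MelG_cont z w).mul
        (by fun_prop : ContinuousOn (fun θ : ℝ => (-θ : ℂ)) (Set.Ioi 0))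
      refine h1.congr fun θ _ => ?_
      rw [Pi.mul_apply]
      ring) measurableSet_Ioi)
    (by
      rw [ae_restrict_iff' measurableSet_Ioi]
      refine Filter.Eventually.of_forall fun θ hθ w' hw' => ?_
      have hθ0 : (0 : ℝ) < θ := hθ
      have hre : w.re / 2 ≤ w'.re := by
        have h1 := Complex.abs_re_le_norm (w' - w)
        rw [Metric.mem_ball, dist_eq_norm] at hw'
        rw [Complex.sub_re] at h1
        have h2 := (abs_le.1 (h1.trans hw'.le)).1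
        linarith
      have e1 : (θ : ℂ) ^ (z - 1) * (Complex.exp (-(w' * θ)) * (-θ)) =
          ((θ : ℂ) ^ (z - 1) * Complex.exp (-(w' * θ))) * (-θ) := by ring
      rw [e1, norm_mul, MelG_norm z w' hθ0, norm_neg, Complex.norm_real, Real.norm_eq_abs,
        abs_of_pos hθ0, Real.rpow_one]
      have e2 : θ ^ (z.re - 1) * Real.exp (-(w'.re) * θ) * θ =
          θ ^ z.re * Real.exp (-(w'.re) * θ) := by
        rw [Real.rpow_sub_one hθ0.ne']
        field_simp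
      rw [e2]
      apply mul_le_mul_of_nonneg_left _ (by positivity)
      apply Real.exp_le_exp.2
      nlinarith)
    hI
    (by
      refine Filter.Eventually.of_forall fun θ w' _ => ?_
      have h1 : HasDerivAt (fun w : ℂ => -(w * θ)) (-(1 * (θ : ℂ))) w' :=
        ((hasDerivAt_id w').mul_const (θ : ℂ)).neg
      have h2 := (h1.cexp).const_mul ((θ : ℂ) ^ (z - 1))
      have e3 : (θ : ℂ) ^ (z - 1) * (Complex.exp (-(w' * θ)) * -(1 * (θ : ℂ))) =
          (θ : ℂ) ^ (z - 1) * (Complex.exp (-(w' * θ)) * (-θ)) := by rw [one_mul]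
      rw [e3] at h2
      exact h2)
  exact h.2.differentiableAt

/-- the Gamma integral with a complex scale -/
private theorem MelG_gamma {z w : ℂ} (hz : 0 < z.re) (hw : 0 < w.re) :
    ∫ θ in Set.Ioi (0 : ℝ), (θ : ℂ) ^ (z - 1) * Complex.exp (-(w * θ)) =
      Complex.Gamma z * w ^ (-z) := by
  have hopen : IsOpen {w : ℂ | 0 < w.re} := isOpen_lt continuous_const Complex.continuous_re
  have hconn : IsPreconnected {w : ℂ | 0 < w.re} :=
    (convex_halfSpace_re_gt 0).isPreconnected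
  have hF : AnalyticOnNhd ℂ (fun w : ℂ => ∫ θ in Set.Ioi (0 : ℝ),
      (θ : ℂ) ^ (z - 1) * Complex.exp (-(w * θ))) {w : ℂ | 0 < w.re} :=
    DifferentiableOn.analyticOnNhd
      (fun w hw => (MelG_diff hz hw).differentiableWithinAt) hopen
  have hG : AnalyticOnNhd ℂ (fun w : ℂ => Complex.Gamma z * w ^ (-z)) {w : ℂ | 0 < w.re} := by
    refine DifferentiableOn.analyticOnNhd (fun w hw => ?_) hopen
    refine DifferentiableAt.differentiableWithinAt ?_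
    exact (differentiableAt_id.cpow_const (Or.inl hw)).const_mul _
  have h1 : (1 : ℂ) ∈ {w : ℂ | 0 < w.re} := by simp
  have hreal : ∀ r : ℝ, 0 < r → (∫ θ in Set.Ioi (0 : ℝ),
      (θ : ℂ) ^ (z - 1) * Complex.exp (-((r : ℂ) * θ))) = Complex.Gamma z * (r : ℂ) ^ (-z) := by
    intro r hr
    rw [Complex.integral_cpow_mul_exp_neg_mul_Ioi hz hr, mul_comm]
    congr 1
    rw [one_div, Complex.cpow_neg, Complex.inv_cpow]
    rw [Complex.arg_ofReal_of_nonneg hr.le]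
    exact Real.pi_ne_zero.symm
  have hfreq : ∃ᶠ w in nhdsWithin (1 : ℂ) {1}ᶜ, (∫ θ in Set.Ioi (0 : ℝ),
      (θ : ℂ) ^ (z - 1) * Complex.exp (-(w * θ))) = Complex.Gamma z * w ^ (-z) := by
    have ht : Filter.Tendsto (fun r : ℝ => (r : ℂ)) (nhdsWithin (1 : ℝ) {1}ᶜ)
        (nhdsWithin (1 : ℂ) {1}ᶜ) := by
      apply tendsto_nhdsWithin_of_tendsto_nhds_of_eventually_within
      · have := (Complex.continuous_ofReal.tendsto (1 : ℝ)).mono_left
          (nhdsWithin_le_nhds (s := {1}ᶜ))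
        simpa using this
      · refine eventually_nhdsWithin_of_forall fun r hr => ?_
        simpa using hr
    refine ht.frequently ?_
    apply Filter.Eventually.frequently
    have h2 : ∀ᶠ r : ℝ in nhds 1, 0 < r := lt_mem_nhds one_pos
    have h3 : ∀ᶠ r : ℝ in nhdsWithin 1 {1}ᶜ, 0 < r := nhdsWithin_le_nhds h2
    exact h3.mono fun r hr => hreal r hr
  exact hF.eqOn_of_preconnected_of_frequently_eq hG hconn h1 hfreq hw

theorem mel_ge (f : ℕ → ℝ) (N : ℕ) (α a Θ s t : ℝ) (hΘ : 0 < Θ) :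
    Mel (ge f N α a Θ s) t = Complex.Gamma (1 / 2 - t * Complex.I)
      * ∑ n ∈ Icc 1 N, (f n : ℂ) * ee (n * α)
        * (((1 / Θ : ℝ) : ℂ) - ((2 * Real.pi * s * ((n : ℝ) - a) : ℝ) : ℂ) * Complex.I)
            ^ (-(1 / 2 - t * Complex.I) : ℂ) := by
  obtain ⟨z, hz⟩ : ∃ z : ℂ, z = 1 / 2 - t * Complex.I := ⟨_, rfl⟩
  have hzre : 0 < z.re := by rw [hz]; simp
  let w : ℕ → ℂ := fun n =>
    ((1 / Θ : ℝ) : ℂ) - ((2 * Real.pi * s * ((n : ℝ) - a) : ℝ) : ℂ) * Complex.I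
  have hw : ∀ n, 0 < (w n).re := by
    intro n
    have : (w n).re = 1 / Θ := by
      simp only [w, Complex.sub_re, Complex.ofReal_re, Complex.re_ofReal_mul, Complex.I_re,
        mul_zero, sub_zero]
    rw [this]
    positivity
  rw [Mel, ← hz, mellin]
  have h1 : ∀ θ ∈ Set.Ioi (0 : ℝ), (θ : ℂ) ^ (z - 1) • ge f N α a Θ s θ =
      ∑ n ∈ Icc 1 N, ((f n : ℂ) * ee (n * α)) *
        ((θ : ℂ) ^ (z - 1) * Complex.exp (-(w n * θ))) := by
    intro θ hθ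
    rw [ge, if_pos (show 0 < θ from hθ), FF, smul_eq_mul, Finset.sum_mul, Finset.sum_mul, Finset.mul_sum]
    refine Finset.sum_congr rfl fun n _ => ?_
    have h2 : ee (n * (α + s * θ)) * ee (-(a * s * θ)) * ((Real.exp (-(θ / Θ)) : ℝ) : ℂ) =
        ee (n * α) * Complex.exp (-(w n * θ)) := by
      simp only [ee, w]
      rw [Complex.ofReal_exp, ← Complex.exp_add, ← Complex.exp_add, ← Complex.exp_add]
      congr 1
      push_cast
      ring
    calc (θ : ℂ) ^ (z - 1) * ((f n : ℂ) * ee (n * (α + s * θ)) * ee (-(a * s * θ)) *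
          ((Real.exp (-(θ / Θ)) : ℝ) : ℂ))
        = (θ : ℂ) ^ (z - 1) * (f n : ℂ) * (ee (n * (α + s * θ)) * ee (-(a * s * θ)) *
          ((Real.exp (-(θ / Θ)) : ℝ) : ℂ)) := by ring
      _ = _ := by rw [h2]; ring
  rw [setIntegral_congr_fun measurableSet_Ioi h1, integral_finsetSum]
  · rw [Finset.mul_sum]
    refine Finset.sum_congr rfl fun n _ => ?_
    rw [integral_const_mul, MelG_gamma hzre (hw n)]
    simp only [w]
    ring
  · intro n _
    exact (MelG_int hzre (hw n)).const_mul _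

theorem gamma_half (t : ℝ) :
    ‖Complex.Gamma (1 / 2 - t * Complex.I)‖ ≤ 3 * Real.exp (-(Real.pi * |t| / 2)) := by
  obtain ⟨z, hz⟩ : ∃ z : ℂ, z = 1 / 2 - t * Complex.I := ⟨_, rfl⟩
  rw [← hz]
  have h1 : (1 : ℂ) - z = (starRingEnd ℂ) z := by
    rw [hz]
    apply Complex.ext
    · simp; norm_num
    · simp
  have h2 : Complex.Gamma z * (starRingEnd ℂ) (Complex.Gamma z) =
      Real.pi / Complex.sin (Real.pi * z) := by
    rw [← Complex.Gamma_conj, ← h1]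
    exact Complex.Gamma_mul_Gamma_one_sub z
  have h3 : Complex.sin (Real.pi * z) = ((Real.cosh (Real.pi * t) : ℝ) : ℂ) := by
    have e : (Real.pi : ℂ) * z = Real.pi / 2 - (Real.pi * t : ℝ) * Complex.I := by
      rw [hz]; push_cast; ring
    rw [e, Complex.sin_pi_div_two_sub, Complex.cos_mul_I, Complex.ofReal_cosh]
  have h4 : ‖Complex.Gamma z‖ ^ 2 = Real.pi / Real.cosh (Real.pi * t) := by
    have h5 := congrArg norm h2
    rw [h3, norm_mul, Complex.norm_conj, norm_div, Complex.norm_real, Complex.norm_real,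
      Real.norm_eq_abs, Real.norm_eq_abs, abs_of_pos Real.pi_pos,
      abs_of_pos (Real.cosh_pos _)] at h5
    rw [pow_two]
    exact h5
  have h5 : Real.exp (Real.pi * |t|) / 2 ≤ Real.cosh (Real.pi * t) := by
    rw [← Real.cosh_abs, abs_mul, abs_of_pos Real.pi_pos, Real.cosh_eq]
    have := Real.exp_pos (-(Real.pi * |t|))
    linarith
  have h6 : ‖Complex.Gamma z‖ ^ 2 ≤ (3 * Real.exp (-(Real.pi * |t| / 2))) ^ 2 := by
    rw [h4, mul_pow, ← Real.exp_nat_mul]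
    have e1 : ((2 : ℕ) : ℝ) * (-(Real.pi * |t| / 2)) = -(Real.pi * |t|) := by push_cast; ring
    rw [e1, Real.exp_neg]
    have hE := Real.exp_pos (Real.pi * |t|)
    calc Real.pi / Real.cosh (Real.pi * t) ≤ Real.pi / (Real.exp (Real.pi * |t|) / 2) :=
          div_le_div_of_nonneg_left Real.pi_pos.le (by positivity) h5
      _ = (2 * Real.pi) * (Real.exp (Real.pi * |t|))⁻¹ := by field_simp
      _ ≤ 3 ^ 2 * (Real.exp (Real.pi * |t|))⁻¹ := by
          apply mul_le_mul_of_nonneg_right _ (by positivity)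
          have := Real.pi_lt_four
          linarith
  exact le_of_sq_le_sq h6 (by positivity)

end Pool.Agent.H35.W

end

section

/-!
# SP MelL: the Mellin transform and the mean square of the correlations

Copy of `Pool/Agent/H35/W/MelCor.lean` with `a0 = 0`, `a = 0`, `S0 = M` (the needed lemmas there are private: copy `wM`, `hMf`,
`hM_norm`, `hM_diff`, `abel_sum` with the new prefix `MelL_`); only the last step is different.
`h(n) = w_n^{-1/2 + i t} n^{-i t}`, `w_n = 1/Θ - 2 π i s n`: `|h(n)| ≤ (π M)^{-1/2} e^{π |t|/2} =: H0` for `n ≥ M`,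
`|h(n+1) - h(n)| ≤ H0 (1/n + 2 |t| (1/Θ)/n^2) ≤ H0 w/M`, `w = 1 + 2 |t|/(Θ M)`.
Abel summation (`A_y = cor g 0 M α (t/2π) y`): `|∑| ≤ H0 (|A_N| + (w/M) ∑_{y ∈ Ioc M N} |A_y|)`, times `|Γ(1/2 - i t)| ≤ 3 e^{-π|t|/2}`
(`gamma_half`, `mel_ge`): `|Mel| ≤ (3/√(π M)) (|A_N| + (w/M) ∑ |A_y|)`; square (`9/π ≤ 3`), Cauchy with `#Ioc M N ≤ N`.
If `N ≤ M` then `g = 0` and everything is `0`.
-/

set_option autoImplicit false

namespace Pool.Agent.H76.SP

open Finset MeasureTheory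
open Pool.Agent.H91.PK (ee)
open Pool.Agent.H76.EHB
open Pool.Agent.H35.W

/-- the base of the power -/
private noncomputable def MelL_wM (Θ s a : ℝ) (u : ℂ) : ℂ :=
  ((1 / Θ : ℝ) : ℂ) - (2 * Real.pi * s * (u - a)) * Complex.I

private noncomputable def MelL_hMf (Θ s a t : ℝ) (a0 : ℕ) (u : ℂ) : ℂ :=
  MelL_wM Θ s a u ^ (-(1 / 2 - t * Complex.I) : ℂ) * Complex.exp (-(t * Complex.I) * Complex.log (u - a0))

private lemma MelL_wM_re (Θ s a u : ℝ) : (MelL_wM Θ s a (u : ℂ)).re = 1 / Θ := by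
  simp [MelL_wM]

private lemma MelL_wM_im (Θ s a u : ℝ) : (MelL_wM Θ s a (u : ℂ)).im = -(2 * Real.pi * s * (u - a)) := by
  simp [MelL_wM]

private lemma MelL_wM_slit (Θ s a u : ℝ) (hΘ : 0 < Θ) : MelL_wM Θ s a (u : ℂ) ∈ Complex.slitPlane := by
  left
  rw [MelL_wM_re]; positivity

private lemma MelL_wM_ne (Θ s a u : ℝ) (hΘ : 0 < Θ) : MelL_wM Θ s a (u : ℂ) ≠ 0 :=
  Complex.slitPlane_ne_zero (MelL_wM_slit Θ s a u hΘ)

private lemma MelL_wM_norm (Θ s a u : ℝ) (hs : s = 1 ∨ s = -1) :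
    2 * Real.pi * |u - a| ≤ ‖MelL_wM Θ s a (u : ℂ)‖ := by
  refine le_trans ?_ (Complex.abs_im_le_norm _)
  rw [MelL_wM_im, abs_neg, abs_mul, abs_mul]
  have : |s| = 1 := by rcases hs with rfl | rfl <;> simp
  rw [this, abs_of_pos Real.two_pi_pos, mul_one]

private lemma MelL_pow_norm (w : ℂ) (t : ℝ) (hw : 0 < w.re) (b : ℝ) (hb : 0 < b) (hwb : b ≤ ‖w‖) :
    ‖w ^ (-(1 / 2 - t * Complex.I) : ℂ)‖ ≤ (Real.sqrt b)⁻¹ * Real.exp (Real.pi * |t| / 2) := by
  have hw0 : w ≠ 0 := by rintro rfl; simp at hw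
  have hn : 0 < ‖w‖ := norm_pos_iff.2 hw0
  rw [Complex.norm_cpow_of_ne_zero hw0]
  have hre : (-(1 / 2 - t * Complex.I) : ℂ).re = -(1 / 2) := by simp
  have him : (-(1 / 2 - t * Complex.I) : ℂ).im = t := by simp
  rw [hre, him, div_eq_mul_inv, ← Real.exp_neg, Real.rpow_neg hn.le, ← Real.sqrt_eq_rpow]
  apply mul_le_mul
  · exact inv_anti₀ (Real.sqrt_pos.2 hb) (Real.sqrt_le_sqrt hwb)
  · apply Real.exp_le_exp.2
    have h1 : |Complex.arg w| ≤ Real.pi / 2 := by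
      rw [Complex.abs_arg_le_pi_div_two_iff]; exact hw.le
    calc -(Complex.arg w * t) ≤ |Complex.arg w * t| := neg_le_abs _
      _ = |Complex.arg w| * |t| := abs_mul _ _
      _ ≤ Real.pi / 2 * |t| := by gcongr
      _ = Real.pi * |t| / 2 := by ring
  · positivity
  · positivity

private lemma MelL_hM_norm (Θ s a t S0 : ℝ) (a0 : ℕ) (hs : s = 1 ∨ s = -1) (hΘ : 0 < Θ)
    (hS0 : 1 ≤ S0) (ha : |a - a0| ≤ S0 / 2) (u : ℝ) (hu : (a0 : ℝ) + S0 ≤ u) :
    ‖MelL_hMf Θ s a t a0 (u : ℂ)‖ ≤ (Real.sqrt (Real.pi * S0))⁻¹ * Real.exp (Real.pi * |t| / 2) := by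
  have ha1 := abs_le.1 ha
  have hpi := Real.pi_pos
  rw [MelL_hMf, norm_mul]
  have h1 : ‖Complex.exp (-(t * Complex.I) * Complex.log ((u : ℂ) - a0))‖ = 1 := by
    have e : (-(t * Complex.I) * Complex.log ((u : ℂ) - a0))
        = ((-(t * Real.log (u - a0)) : ℝ) : ℂ) * Complex.I := by
      have h2 : ((u : ℂ) - a0) = ((u - a0 : ℝ) : ℂ) := by push_cast; ring
      rw [h2, ← Complex.ofReal_log (by linarith)]
      push_cast
      ring
    rw [e, Complex.norm_exp_ofReal_mul_I]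
  rw [h1, mul_one]
  apply MelL_pow_norm _ _ (by rw [MelL_wM_re]; positivity) _ (by positivity)
  refine le_trans ?_ (MelL_wM_norm Θ s a u hs)
  have h3 : S0 / 2 ≤ |u - a| := by
    rw [abs_of_nonneg (by linarith)]; linarith
  nlinarith

private lemma MelL_hM_deriv (Θ s a t : ℝ) (a0 : ℕ) (hΘ : 0 < Θ) (u : ℝ) (hu : (a0 : ℝ) < u) :
    HasDerivAt (fun v : ℝ => MelL_hMf Θ s a t a0 (v : ℂ))
      (MelL_hMf Θ s a t a0 (u : ℂ) * ((-(1 / 2 - t * Complex.I)) * (-(2 * Real.pi * s * Complex.I))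
        / MelL_wM Θ s a (u : ℂ) - t * Complex.I / ((u : ℂ) - a0))) u := by
  have hua : ((u : ℂ) - a0) = ((u - a0 : ℝ) : ℂ) := by push_cast; ring
  have hsl : ((u : ℂ) - a0) ∈ Complex.slitPlane := by
    rw [hua]; exact Complex.ofReal_mem_slitPlane.2 (by linarith)
  have hne : ((u : ℂ) - a0) ≠ 0 := Complex.slitPlane_ne_zero hsl
  have hw := MelL_wM_slit Θ s a u hΘ
  have hwn := MelL_wM_ne Θ s a u hΘ
  have d1 : HasDerivAt (fun v : ℂ => MelL_wM Θ s a v) (-(2 * Real.pi * s * Complex.I)) (u : ℂ) := by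
    unfold MelL_wM
    have := (((hasDerivAt_id (u : ℂ)).sub_const (a : ℂ)).const_mul (2 * Real.pi * s : ℂ)).mul_const
      Complex.I |>.const_sub (((1 / Θ : ℝ) : ℂ))
    simpa using this
  have d2 : HasDerivAt (fun v : ℂ => MelL_wM Θ s a v ^ (-(1 / 2 - t * Complex.I) : ℂ))
      ((-(1 / 2 - t * Complex.I)) * MelL_wM Θ s a (u : ℂ) ^ ((-(1 / 2 - t * Complex.I)) - 1 : ℂ)
        * (-(2 * Real.pi * s * Complex.I))) (u : ℂ) := d1.cpow_const hw
  have d3 : HasDerivAt (fun v : ℂ => Complex.exp (-(t * Complex.I) * Complex.log (v - a0)))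
      (Complex.exp (-(t * Complex.I) * Complex.log ((u : ℂ) - a0)) *
        (-(t * Complex.I) * (1 / ((u : ℂ) - a0)))) (u : ℂ) := by
    have h1 : HasDerivAt (fun v : ℂ => v - (a0 : ℂ)) 1 (u : ℂ) :=
      (hasDerivAt_id (u : ℂ)).sub_const _
    have h2 := (h1.clog hsl).const_mul (-(t * Complex.I))
    exact h2.cexp
  have d4 := (d2.mul d3).comp_ofReal
  have e : MelL_hMf Θ s a t a0 (u : ℂ) * ((-(1 / 2 - t * Complex.I)) * (-(2 * Real.pi * s * Complex.I))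
        / MelL_wM Θ s a (u : ℂ) - t * Complex.I / ((u : ℂ) - a0))
      = (-(1 / 2 - t * Complex.I)) * MelL_wM Θ s a (u : ℂ) ^ ((-(1 / 2 - t * Complex.I)) - 1 : ℂ)
        * (-(2 * Real.pi * s * Complex.I)) *
          Complex.exp (-(t * Complex.I) * Complex.log ((u : ℂ) - a0)) +
        MelL_wM Θ s a (u : ℂ) ^ (-(1 / 2 - t * Complex.I) : ℂ) *
        (Complex.exp (-(t * Complex.I) * Complex.log ((u : ℂ) - a0)) *
        (-(t * Complex.I) * (1 / ((u : ℂ) - a0)))) := by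
    rw [MelL_hMf, Complex.cpow_sub _ _ hwn, Complex.cpow_one]
    ring
  rw [e]
  exact d4

private lemma MelL_hM_bd (Θ s a t S0 : ℝ) (a0 : ℕ) (hs : s = 1 ∨ s = -1) (hΘ : 0 < Θ)
    (hS0 : 1 ≤ S0) (ha : |a - a0| ≤ S0 / 2) (r u : ℝ) (hr : (a0 : ℝ) + S0 ≤ r) (hu : r ≤ u) :
    ‖MelL_hMf Θ s a t a0 (u : ℂ) * ((-(1 / 2 - t * Complex.I)) * (-(2 * Real.pi * s * Complex.I))
        / MelL_wM Θ s a (u : ℂ) - t * Complex.I / ((u : ℂ) - a0))‖
      ≤ (Real.sqrt (Real.pi * S0))⁻¹ * Real.exp (Real.pi * |t| / 2)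
        * (1 / (r - a0) + 2 * |t| * (|a - a0| + 1 / Θ) / (r - a0) ^ 2) := by
  have ha1 := abs_le.1 ha
  have hpi := Real.pi_pos
  have hpi1 : 1 ≤ Real.pi := by linarith [Real.pi_gt_three]
  rw [norm_mul]
  apply mul_le_mul (MelL_hM_norm Θ s a t S0 a0 hs hΘ hS0 ha u (by linarith)) _ (norm_nonneg _)
    (by positivity)
  have hwn := MelL_wM_ne Θ s a u hΘ
  have hua : ((u : ℂ) - a0) = ((u - a0 : ℝ) : ℂ) := by push_cast; ring
  have hne : ((u : ℂ) - a0) ≠ 0 := by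
    rw [hua]; exact Complex.ofReal_ne_zero.2 (by linarith)
  have h1 : ‖MelL_wM Θ s a (u : ℂ)‖ ≥ Real.pi * (u - a0) := by
    refine le_trans ?_ (MelL_wM_norm Θ s a u hs)
    have h3 : (u - a0) / 2 ≤ |u - a| := by
      rw [abs_of_nonneg (by linarith)]; linarith
    nlinarith
  have hs1 : |s| = 1 := by rcases hs with rfl | rfl <;> simp
  have e : (-(1 / 2 - t * Complex.I)) * (-(2 * Real.pi * s * Complex.I))
        / MelL_wM Θ s a (u : ℂ) - t * Complex.I / ((u : ℂ) - a0)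
      = (((Real.pi * s : ℝ) : ℂ) * Complex.I) / MelL_wM Θ s a (u : ℂ)
        + ((t : ℝ) : ℂ) * Complex.I * ((-(((2 * Real.pi * s * (a - a0) : ℝ) : ℂ) * Complex.I)
          - ((1 / Θ : ℝ) : ℂ)))
          / (MelL_wM Θ s a (u : ℂ) * ((u : ℂ) - a0)) := by
    field_simp
    rw [MelL_wM]
    push_cast
    ring
  rw [e]
  have b1 : ‖(((Real.pi * s : ℝ) : ℂ) * Complex.I) / MelL_wM Θ s a (u : ℂ)‖ ≤ 1 / (r - a0) := by
    rw [norm_div, norm_mul, Complex.norm_I, mul_one, Complex.norm_real, Real.norm_eq_abs, abs_mul,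
      hs1, mul_one, abs_of_pos hpi, div_le_div_iff₀ (norm_pos_iff.2 hwn) (by linarith)]
    nlinarith
  have b2 : ‖((t : ℝ) : ℂ) * Complex.I * ((-(((2 * Real.pi * s * (a - a0) : ℝ) : ℂ) * Complex.I)
          - ((1 / Θ : ℝ) : ℂ)))
          / (MelL_wM Θ s a (u : ℂ) * ((u : ℂ) - a0))‖ ≤ 2 * |t| * (|a - a0| + 1 / Θ) / (r - a0) ^ 2 := by
    rw [norm_div, norm_mul, norm_mul, norm_mul, Complex.norm_I, mul_one, Complex.norm_real,
      Real.norm_eq_abs]
    have c1 : ‖(-(((2 * Real.pi * s * (a - a0) : ℝ) : ℂ) * Complex.I)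
          - ((1 / Θ : ℝ) : ℂ))‖ ≤ 2 * Real.pi * |a - a0| + 1 / Θ := by
      refine (norm_sub_le _ _).trans ?_
      rw [norm_neg, norm_mul, Complex.norm_I, mul_one, Complex.norm_real, Complex.norm_real,
        Real.norm_eq_abs, Real.norm_eq_abs, abs_mul, abs_mul, hs1, mul_one,
        abs_of_pos Real.two_pi_pos, abs_of_pos (by positivity : 0 < 1 / Θ)]
    have c2 : ‖(u : ℂ) - a0‖ = u - a0 := by
      rw [hua, Complex.norm_real, Real.norm_eq_abs, abs_of_pos (by linarith)]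
    rw [c2]
    have hra : 0 < r - a0 := by linarith
    have c3 : Real.pi * (r - a0) ^ 2 ≤ ‖MelL_wM Θ s a (u : ℂ)‖ * (u - a0) := by
      calc Real.pi * (r - a0) ^ 2 = (Real.pi * (r - a0)) * (r - a0) := by ring
        _ ≤ ‖MelL_wM Θ s a (u : ℂ)‖ * (u - a0) := by
          apply mul_le_mul _ (by linarith) (by linarith) (norm_nonneg _)
          refine le_trans ?_ h1
          gcongr
    have c4 : (2 * Real.pi * |a - a0| + 1 / Θ) ≤ Real.pi * (2 * (|a - a0| + 1 / Θ)) := by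
      have : 0 < 1 / Θ := by positivity
      nlinarith [abs_nonneg (a - a0)]
    calc |t| * ‖(-(((2 * Real.pi * s * (a - a0) : ℝ) : ℂ) * Complex.I)
          - ((1 / Θ : ℝ) : ℂ))‖ / (‖MelL_wM Θ s a (u : ℂ)‖ * (u - a0))
        ≤ |t| * (Real.pi * (2 * (|a - a0| + 1 / Θ))) / (Real.pi * (r - a0) ^ 2) := by
          apply div_le_div₀ (by positivity) _ (by positivity) c3
          exact mul_le_mul_of_nonneg_left (c1.trans c4) (abs_nonneg _)
      _ = 2 * |t| * (|a - a0| + 1 / Θ) / (r - a0) ^ 2 := by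
          field_simp
  exact (norm_add_le _ _).trans (add_le_add b1 b2)

private lemma MelL_hM_diff (Θ s a t S0 : ℝ) (a0 : ℕ) (hs : s = 1 ∨ s = -1) (hΘ : 0 < Θ)
    (hS0 : 1 ≤ S0) (ha : |a - a0| ≤ S0 / 2) (r : ℝ) (hr : (a0 : ℝ) + S0 ≤ r) :
    ‖MelL_hMf Θ s a t a0 ((r + 1 : ℝ) : ℂ) - MelL_hMf Θ s a t a0 (r : ℂ)‖
      ≤ (Real.sqrt (Real.pi * S0))⁻¹ * Real.exp (Real.pi * |t| / 2)
        * (1 / (r - a0) + 2 * |t| * (|a - a0| + 1 / Θ) / (r - a0) ^ 2) := by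
  have := Convex.norm_image_sub_le_of_norm_hasDerivWithin_le
    (f := fun v : ℝ => MelL_hMf Θ s a t a0 (v : ℂ)) (s := Set.Icc r (r + 1)) (x := r) (y := r + 1)
    (f' := fun u => (MelL_hMf Θ s a t a0 (u : ℂ) * ((-(1 / 2 - t * Complex.I)) *
      (-(2 * Real.pi * s * Complex.I)) / MelL_wM Θ s a (u : ℂ) - t * Complex.I / ((u : ℂ) - a0))))
    (C := (Real.sqrt (Real.pi * S0))⁻¹ * Real.exp (Real.pi * |t| / 2)
        * (1 / (r - a0) + 2 * |t| * (|a - a0| + 1 / Θ) / (r - a0) ^ 2))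
    (fun u hu => (MelL_hM_deriv Θ s a t a0 hΘ u (by linarith [hu.1])).hasDerivWithinAt)
    (fun u hu => MelL_hM_bd Θ s a t S0 a0 hs hΘ hS0 ha r u hr hu.1)
    (convex_Icc _ _) ⟨le_rfl, by linarith⟩ ⟨by linarith, le_rfl⟩
  have e : ‖r + 1 - r‖ = 1 := by rw [add_sub_cancel_left]; simp
  rw [e, mul_one] at this
  exact this

private lemma MelL_abel_sum (b h A : ℕ → ℂ) (M : ℕ) (hA : ∀ y, A y = ∑ n ∈ Ioc M y, b n) (y : ℕ)
    (hy : M ≤ y) :
    ∑ n ∈ Ioc M y, b n * h n = A y * h (y + 1) + ∑ n ∈ Ioc M y, A n * (h n - h (n + 1)) := by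
  induction y, hy using Nat.le_induction with
  | base => simp [hA]
  | succ y hy ih =>
    have e : Ioc M (y + 1) = insert (y + 1) (Ioc M y) := by
      ext i; simp only [mem_insert, mem_Ioc]; omega
    have hn : y + 1 ∉ Ioc M y := by simp
    have h1 : A (y + 1) = b (y + 1) + A y := by rw [hA, hA, e, sum_insert hn]
    rw [e, sum_insert hn, sum_insert hn, ih, h1]
    ring

/-- the sum without the gamma factor -/
private theorem MelL_sum (g : ℕ → ℝ) (N M : ℕ) (α Θ s t : ℝ) (hs : s = 1 ∨ s = -1) (hΘ : 0 < Θ)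
    (hM : 1 ≤ M) (hg : ∀ n, n ∉ Ioc M N → g n = 0) :
    ‖∑ n ∈ Icc 1 N, (g n : ℂ) * ee (n * α)
        * (((1 / Θ : ℝ) : ℂ) - ((2 * Real.pi * s * ((n : ℝ) - 0) : ℝ) : ℂ) * Complex.I)
            ^ (-(1 / 2 - t * Complex.I) : ℂ)‖
      ≤ ((Real.sqrt (Real.pi * M))⁻¹ * Real.exp (Real.pi * |t| / 2))
        * (‖cor g 0 M α (t / (2 * Real.pi)) N‖ + (1 + 2 * |t| / (Θ * M)) / M *
          ∑ y ∈ Ioc M N, ‖cor g 0 M α (t / (2 * Real.pi)) y‖) := by
  have hΘ1 : 0 < 1 / Θ := by positivity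
  have hpi := Real.pi_pos
  have hM0 : (1 : ℝ) ≤ M := by exact_mod_cast hM
  have hM00 : (0 : ℝ) < M := by linarith
  rcases lt_or_ge N M with hNM | hNM
  · have : ∑ n ∈ Icc 1 N, (g n : ℂ) * ee (n * α)
        * (((1 / Θ : ℝ) : ℂ) - ((2 * Real.pi * s * ((n : ℝ) - 0) : ℝ) : ℂ) * Complex.I)
            ^ (-(1 / 2 - t * Complex.I) : ℂ) = 0 := by
      apply sum_eq_zero
      intro n hn
      rw [hg n (by simp only [mem_Ioc, not_and, not_le]; intro h; omega)]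
      simp
    rw [this, norm_zero]
    positivity
  set b : ℕ → ℂ := fun n => (g n : ℂ) * ee (n * α + t / (2 * Real.pi) * Real.log ((n : ℝ) - (0 : ℕ)))
    with hb
  set h : ℕ → ℂ := fun n => MelL_hMf Θ s 0 t 0 ((n : ℝ) : ℂ) with hh
  have e1 : ∑ n ∈ Icc 1 N, (g n : ℂ) * ee (n * α)
        * (((1 / Θ : ℝ) : ℂ) - ((2 * Real.pi * s * ((n : ℝ) - 0) : ℝ) : ℂ) * Complex.I)
            ^ (-(1 / 2 - t * Complex.I) : ℂ) = ∑ n ∈ Ioc M N, b n * h n := by
    have e2 : ∑ n ∈ Icc 1 N, (g n : ℂ) * ee (n * α)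
        * (((1 / Θ : ℝ) : ℂ) - ((2 * Real.pi * s * ((n : ℝ) - 0) : ℝ) : ℂ) * Complex.I)
            ^ (-(1 / 2 - t * Complex.I) : ℂ) = ∑ n ∈ Ioc M N, (g n : ℂ) * ee (n * α)
        * (((1 / Θ : ℝ) : ℂ) - ((2 * Real.pi * s * ((n : ℝ) - 0) : ℝ) : ℂ) * Complex.I)
            ^ (-(1 / 2 - t * Complex.I) : ℂ) := by
      symm
      apply sum_subset
      · intro i hi
        rw [mem_Ioc] at hi
        rw [mem_Icc]; omega
      · intro i _ hi
        rw [hg i hi]; simp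
    rw [e2]
    apply sum_congr rfl
    intro n hn
    have hn1 := mem_Ioc.1 hn
    have hna : (0 : ℝ) < (n : ℝ) - (0 : ℕ) := by
      have : (M : ℝ) < n := by exact_mod_cast hn1.1
      push_cast
      linarith
    simp only [hb, hh, MelL_hMf]
    have e3 : (((n : ℝ) : ℂ) - ((0 : ℕ) : ℂ)) = (((n : ℝ) - (0 : ℕ) : ℝ) : ℂ) := by push_cast; ring
    have e4 : ee (n * α + t / (2 * Real.pi) * Real.log ((n : ℝ) - (0 : ℕ)))
        * Complex.exp (-(t * Complex.I) * Complex.log (((n : ℝ) : ℂ) - (0 : ℕ))) = ee (n * α) := by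
      rw [e3, ← Complex.ofReal_log hna.le, ee, ee, ← Complex.exp_add]
      congr 1
      push_cast
      have : (Real.pi : ℂ) ≠ 0 := Complex.ofReal_ne_zero.2 hpi.ne'
      field_simp
      ring
    have e5 : MelL_wM Θ s 0 ((n : ℝ) : ℂ) = (((1 / Θ : ℝ) : ℂ)
        - ((2 * Real.pi * s * ((n : ℝ) - 0) : ℝ) : ℂ) * Complex.I) := by
      rw [MelL_wM]; push_cast; ring
    rw [e5, ← e4]
    ring
  rw [e1, MelL_abel_sum b h (fun y => ∑ n ∈ Ioc M y, b n) M (fun _ => rfl) N hNM]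
  have hA : ∀ y, ‖∑ n ∈ Ioc M y, b n‖ = ‖cor g 0 M α (t / (2 * Real.pi)) y‖ := fun y => rfl
  set H0 : ℝ := (Real.sqrt (Real.pi * M))⁻¹ * Real.exp (Real.pi * |t| / 2) with hH0
  have hH0p : 0 ≤ H0 := by positivity
  have ha : |(0 : ℝ) - (0 : ℕ)| ≤ (M : ℝ) / 2 := by
    simp only [Nat.cast_zero, sub_zero, abs_zero]
    positivity
  have hcast : ∀ n : ℕ, M ≤ n → ((0 : ℕ) : ℝ) + M ≤ n := by
    intro n hn
    have : (M : ℝ) ≤ n := by exact_mod_cast hn
    push_cast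
    linarith
  have b1 : ‖(∑ n ∈ Ioc M N, b n) * h (N + 1)‖ ≤ ‖cor g 0 M α (t / (2 * Real.pi)) N‖ * H0 := by
    rw [norm_mul, hA]
    exact mul_le_mul_of_nonneg_left
      (MelL_hM_norm Θ s 0 t M 0 hs hΘ hM0 ha _ (hcast _ (by omega))) (norm_nonneg _)
  set w : ℝ := 1 + 2 * |t| / (Θ * M) with hw
  have b2 : ‖∑ n ∈ Ioc M N, (∑ i ∈ Ioc M n, b i) * (h n - h (n + 1))‖
      ≤ ∑ n ∈ Ioc M N, ‖cor g 0 M α (t / (2 * Real.pi)) n‖ * (H0 * (w / M)) := by
    refine (norm_sum_le _ _).trans (sum_le_sum fun n hn => ?_)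
    have hn1 := mem_Ioc.1 hn
    rw [norm_mul, hA]
    refine mul_le_mul_of_nonneg_left ?_ (norm_nonneg _)
    have := MelL_hM_diff Θ s 0 t M 0 hs hΘ hM0 ha (n : ℝ) (hcast n hn1.1.le)
    rw [norm_sub_rev]
    have e6 : (((n : ℝ) + 1 : ℝ) : ℂ) = ((((n + 1 : ℕ) : ℝ)) : ℂ) := by push_cast; rfl
    rw [e6] at this
    refine this.trans (mul_le_mul_of_nonneg_left ?_ hH0p)
    have hnM : (M : ℝ) ≤ n := by exact_mod_cast hn1.1.le
    simp only [Nat.cast_zero, sub_zero, abs_zero, zero_add]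
    have c1 : 1 / (n : ℝ) ≤ 1 / M := one_div_le_one_div_of_le hM00 hnM
    have c2 : 2 * |t| * (1 / Θ) / (n : ℝ) ^ 2 ≤ 2 * |t| * (1 / Θ) / (M : ℝ) ^ 2 := by
      gcongr
    have c3 : w / M = 1 / M + 2 * |t| * (1 / Θ) / (M : ℝ) ^ 2 := by
      rw [hw]
      field_simp
    rw [c3]
    exact add_le_add c1 c2
  refine (norm_add_le _ _).trans ((add_le_add b1 b2).trans (le_of_eq ?_))
  rw [← Finset.sum_mul]
  ring

/-- final arithmetic -/
private theorem MelL_fin (M T G X A S Q : ℝ) (N w : ℝ) (hM : 1 ≤ M)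
    (hG0 : 0 ≤ G) (hG : G ≤ 3 * Real.exp (-(Real.pi * T / 2))) (hX0 : 0 ≤ X) (hA : 0 ≤ A)
    (hS : 0 ≤ S) (hw : 0 ≤ w) (hQ : S ^ 2 ≤ N * Q)
    (hX : X ≤ ((Real.sqrt (Real.pi * M))⁻¹ * Real.exp (Real.pi * T / 2)) * (A + w / M * S)) :
    (G * X) ^ 2 ≤ 6 / M * (A ^ 2 + w ^ 2 / M ^ 2 * N * Q) := by
  have hpi := Real.pi_gt_three
  have hM0 : 0 < M := by linarith
  have hY : 0 ≤ A + w / M * S := by positivity
  have h1 : G * X ≤ 3 * Real.exp (-(Real.pi * T / 2)) * (((Real.sqrt (Real.pi * M))⁻¹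
      * Real.exp (Real.pi * T / 2)) * (A + w / M * S)) :=
    mul_le_mul hG hX hX0 (by positivity)
  have h2 : Real.exp (-(Real.pi * T / 2)) * Real.exp (Real.pi * T / 2) = 1 := by
    rw [← Real.exp_add]; simp
  have h3 : G * X ≤ 3 * (Real.sqrt (Real.pi * M))⁻¹ * (A + w / M * S) := by
    refine h1.trans (le_of_eq ?_)
    calc 3 * Real.exp (-(Real.pi * T / 2)) * (((Real.sqrt (Real.pi * M))⁻¹
      * Real.exp (Real.pi * T / 2)) * (A + w / M * S))
        = (Real.exp (-(Real.pi * T / 2)) * Real.exp (Real.pi * T / 2)) *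
          (3 * (Real.sqrt (Real.pi * M))⁻¹ * (A + w / M * S)) := by ring
      _ = _ := by rw [h2, one_mul]
  have h4 : (G * X) ^ 2 ≤ (3 * (Real.sqrt (Real.pi * M))⁻¹ * (A + w / M * S)) ^ 2 :=
    pow_le_pow_left₀ (mul_nonneg hG0 hX0) h3 2
  have h5 : (3 * (Real.sqrt (Real.pi * M))⁻¹ * (A + w / M * S)) ^ 2
      = 9 / (Real.pi * M) * (A + w / M * S) ^ 2 := by
    rw [mul_pow, mul_pow, inv_pow, Real.sq_sqrt (by positivity)]
    field_simp
    ring
  have h6 : 9 / (Real.pi * M) ≤ 3 / M := by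
    rw [div_le_div_iff₀ (by positivity) hM0]
    nlinarith only [hpi, hM0]
  have h7 : (A + w / M * S) ^ 2 ≤ 2 * (A ^ 2 + w ^ 2 / M ^ 2 * N * Q) := by
    have h8 : (w / M * S) ^ 2 ≤ w ^ 2 / M ^ 2 * N * Q := by
      have : (w / M * S) ^ 2 = w ^ 2 / M ^ 2 * S ^ 2 := by ring
      rw [this, mul_assoc]
      exact mul_le_mul_of_nonneg_left hQ (by positivity)
    nlinarith only [h8, sq_nonneg (A - w / M * S)]
  rw [h5] at h4
  refine h4.trans ?_
  calc 9 / (Real.pi * M) * (A + w / M * S) ^ 2 ≤ 3 / M * (A + w / M * S) ^ 2 :=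
        mul_le_mul_of_nonneg_right h6 (sq_nonneg _)
    _ ≤ 3 / M * (2 * (A ^ 2 + w ^ 2 / M ^ 2 * N * Q)) :=
        mul_le_mul_of_nonneg_left h7 (by positivity)
    _ = _ := by ring

theorem mel_l (g : ℕ → ℝ) (N M : ℕ) (α Θ s t : ℝ) (hs : s = 1 ∨ s = -1) (hΘ : 0 < Θ) (hM : 1 ≤ M)
    (hg : ∀ n, n ∉ Ioc M N → g n = 0) :
    ‖Mel (ge g N α 0 Θ s) t‖ ^ 2 ≤ 6 / M * (‖cor g 0 M α (t / (2 * Real.pi)) N‖ ^ 2
      + (1 + 2 * |t| / (Θ * M)) ^ 2 / (M : ℝ) ^ 2 * N *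
        ∑ y ∈ Ioc M N, ‖cor g 0 M α (t / (2 * Real.pi)) y‖ ^ 2) := by
  rw [mel_ge g N α 0 Θ s t hΘ, norm_mul]
  have hM0 : (1 : ℝ) ≤ M := by exact_mod_cast hM
  refine MelL_fin M |t| _ _ ‖cor g 0 M α (t / (2 * Real.pi)) N‖
    (∑ y ∈ Ioc M N, ‖cor g 0 M α (t / (2 * Real.pi)) y‖)
    (∑ y ∈ Ioc M N, ‖cor g 0 M α (t / (2 * Real.pi)) y‖ ^ 2) N (1 + 2 * |t| / (Θ * M)) hM0
    (norm_nonneg _) (gamma_half t) (norm_nonneg _) (norm_nonneg _)
    (sum_nonneg fun _ _ => norm_nonneg _) (by positivity) ?_ ?_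
  · have h1 := sq_sum_le_card_mul_sum_sq (s := Ioc M N)
      (f := fun y => ‖cor g 0 M α (t / (2 * Real.pi)) y‖)
    refine h1.trans (mul_le_mul_of_nonneg_right ?_ (sum_nonneg fun _ _ => sq_nonneg _))
    rw [Nat.card_Ioc]
    exact_mod_cast Nat.sub_le N M
  · exact MelL_sum g N M α Θ s t hs hΘ hM hg

end Pool.Agent.H76.SP

end

section

/-!
# W MellE: Mellin-Plancherel for exponentially decreasing functions

Same proofs as `EHB.mel_planch`, `mel_sum`, `int_sum_sq` (file `H76/EHB/Mell.lean`: copy it): there `g` is bounded with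
bounded support; the only use is that `GG g u = exp(-u/2) g(exp(-u))` is integrable and in `L^2`.  Now
`‖g θ‖ ≤ B exp(-b θ)` for `θ > 0` gives `‖GG g u‖ ≤ B exp(-u/2) exp(-b exp(-u))`, integrable and square integrable.
-/

set_option autoImplicit false

namespace Pool.Agent.H35.W

open Finset MeasureTheory
open Pool.Agent.H76.EHB
open Pool.Agent.H91.PK (ee)

private theorem melle_integrable {E : Type*} [NormedAddCommGroup E] {f : ℝ → E}
    (hf : AEStronglyMeasurable f) {c C C' : ℝ} (hc : 0 < c)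
    (h1 : ∀ u, ‖f u‖ ≤ C * Real.exp (-c * u)) (h2 : ∀ u, ‖f u‖ ≤ C' * Real.exp (c * u)) :
    Integrable f := by
  rw [← integrableOn_univ, ← Set.Iic_union_Ioi (a := (0 : ℝ))]
  refine IntegrableOn.union ?_ ?_
  · exact Integrable.mono' ((integrableOn_exp_mul_Iic hc 0).const_mul C') hf.restrict
      (Filter.Eventually.of_forall h2)
  · exact Integrable.mono' ((integrableOn_exp_mul_Ioi (neg_lt_zero.2 hc) 0).const_mul C) hf.restrict
      (Filter.Eventually.of_forall h1)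

private theorem melle_subst (h : ℝ → ℝ) :
    ∫ θ in Set.Ioi (0 : ℝ), h θ = ∫ u, Real.exp (-u) * h (Real.exp (-u)) := by
  have him : (Real.exp ∘ Neg.neg) '' (Set.univ : Set ℝ) = Set.Ioi 0 := by
    rw [Set.image_comp, Set.image_univ_of_surjective neg_surjective, Set.image_univ, Real.range_exp]
  have hder : ∀ x ∈ (Set.univ : Set ℝ),
      HasDerivWithinAt (Real.exp ∘ Neg.neg) (-Real.exp (-x)) Set.univ x := fun x _ =>
    mul_neg_one (Real.exp (-x)) ▸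
      ((Real.hasDerivAt_exp (-x)).comp x (hasDerivAt_neg x)).hasDerivWithinAt
  have hinj : Set.InjOn (Real.exp ∘ Neg.neg) (Set.univ : Set ℝ) :=
    (Real.exp_injective.comp neg_injective).injOn
  rw [← him, integral_image_eq_integral_abs_deriv_smul MeasurableSet.univ hder hinj]
  simp

/-- the function `exp(-u/2) g(exp(-u))` -/
private noncomputable def GG (g : ℝ → ℂ) (u : ℝ) : ℂ :=
  (Real.exp (-(1 / 2) * u) : ℝ) • g (Real.exp (-u))

private theorem GG_measurable (g : ℝ → ℂ) (hg : Measurable g) : Measurable (GG g) := by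
  unfold GG
  exact (by fun_prop : Measurable fun u : ℝ => (Real.exp (-(1 / 2) * u) : ℝ)).smul
    (hg.comp (by fun_prop))

private theorem GG_norm (g : ℝ → ℂ) (u : ℝ) :
    ‖GG g u‖ = Real.exp (-(1 / 2) * u) * ‖g (Real.exp (-u))‖ := by
  unfold GG
  rw [norm_smul, Real.norm_of_nonneg (Real.exp_pos _).le]

private theorem GG_norm_sq (g : ℝ → ℂ) (u : ℝ) :
    ‖GG g u‖ ^ 2 = Real.exp (-u) * ‖g (Real.exp (-u))‖ ^ 2 := by
  rw [GG_norm, mul_pow, ← Real.exp_nat_mul]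
  congr 2
  push_cast
  ring

private theorem melle_B (g : ℝ → ℂ) {B b : ℝ} (hB : ∀ θ, 0 < θ → ‖g θ‖ ≤ B * Real.exp (-(b * θ))) :
    0 ≤ B := by
  have h := (norm_nonneg _).trans (hB 1 one_pos)
  exact nonneg_of_mul_nonneg_left h (Real.exp_pos _)

private theorem melle_exp {b : ℝ} (hb : 0 < b) (θ : ℝ) (hθ : 0 < θ) :
    Real.exp (-(b * θ)) ≤ 1 / (b * θ) := by
  have h1 : 0 < b * θ := mul_pos hb hθ
  have h2 : b * θ ≤ Real.exp (b * θ) := by
    have := Real.add_one_le_exp (b * θ)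
    linarith
  rw [Real.exp_neg, ← one_div]
  exact one_div_le_one_div_of_le h1 h2

private theorem GG_le1 (g : ℝ → ℂ) {B b : ℝ} (hb : 0 < b)
    (hB : ∀ θ, 0 < θ → ‖g θ‖ ≤ B * Real.exp (-(b * θ))) (u : ℝ) :
    ‖GG g u‖ ≤ B * Real.exp (-(1 / 2) * u) := by
  rw [GG_norm, mul_comm B]
  refine mul_le_mul_of_nonneg_left ?_ (Real.exp_pos _).le
  refine (hB _ (Real.exp_pos _)).trans ?_
  have h1 : Real.exp (-(b * Real.exp (-u))) ≤ 1 := by
    rw [Real.exp_le_one_iff]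
    have := mul_pos hb (Real.exp_pos (-u))
    linarith
  calc B * Real.exp (-(b * Real.exp (-u))) ≤ B * 1 :=
        mul_le_mul_of_nonneg_left h1 (melle_B g hB)
    _ = B := mul_one B

private theorem GG_le2 (g : ℝ → ℂ) {B b : ℝ} (hb : 0 < b)
    (hB : ∀ θ, 0 < θ → ‖g θ‖ ≤ B * Real.exp (-(b * θ))) (u : ℝ) :
    ‖GG g u‖ ≤ B / b * Real.exp ((1 / 2) * u) := by
  rw [GG_norm]
  have h1 : ‖g (Real.exp (-u))‖ ≤ B * (1 / (b * Real.exp (-u))) :=
    (hB _ (Real.exp_pos _)).trans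
      (mul_le_mul_of_nonneg_left (melle_exp hb _ (Real.exp_pos _)) (melle_B g hB))
  refine (mul_le_mul_of_nonneg_left h1 (Real.exp_pos _).le).trans (le_of_eq ?_)
  have h2 : Real.exp ((1 / 2) * u) = Real.exp (-(1 / 2) * u) * Real.exp u := by
    rw [← Real.exp_add]
    congr 1
    ring
  have h3 : Real.exp (-u) = (Real.exp u)⁻¹ := Real.exp_neg u
  rw [h2, h3]
  have h4 := (Real.exp_pos u).ne'
  field_simp

private theorem GG_integrable (g : ℝ → ℂ) (hg : Measurable g) (B b : ℝ) (hb : 0 < b)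
    (hB : ∀ θ, 0 < θ → ‖g θ‖ ≤ B * Real.exp (-(b * θ))) : Integrable (GG g) :=
  melle_integrable (GG_measurable g hg).aestronglyMeasurable (by norm_num : (0 : ℝ) < 1 / 2)
    (GG_le1 g hb hB) (GG_le2 g hb hB)

private theorem GG_memLp (g : ℝ → ℂ) (hg : Measurable g) (B b : ℝ) (hb : 0 < b)
    (hB : ∀ θ, 0 < θ → ‖g θ‖ ≤ B * Real.exp (-(b * θ))) : MemLp (GG g) 2 := by
  rw [memLp_two_iff_integrable_sq_norm (GG_measurable g hg).aestronglyMeasurable]
  refine melle_integrable ((GG_measurable g hg).norm.pow_const 2).aestronglyMeasurable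
    (c := 1) (C := B ^ 2) (C' := (B / b) ^ 2) one_pos (fun u => ?_) (fun u => ?_)
  · rw [Real.norm_of_nonneg (sq_nonneg _)]
    refine (pow_le_pow_left₀ (norm_nonneg _) (GG_le1 g hb hB u) 2).trans (le_of_eq ?_)
    rw [mul_pow, ← Real.exp_nat_mul]
    congr 2
    push_cast
    ring
  · rw [Real.norm_of_nonneg (sq_nonneg _)]
    refine (pow_le_pow_left₀ (norm_nonneg _) (GG_le2 g hb hB u) 2).trans (le_of_eq ?_)
    rw [mul_pow, ← Real.exp_nat_mul]
    congr 2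
    push_cast
    ring

private theorem melle_Mel_eq (g : ℝ → ℂ) (t : ℝ) :
    Mel g t = ∫ u, GG g u * ee (-(u * (-(1 / (2 * Real.pi)) * t))) := by
  unfold Mel
  rw [mellin_eq_fourier, Real.fourier_real_eq_integral_exp_smul]
  refine integral_congr_ae (Filter.Eventually.of_forall fun u => ?_)
  have hre : ((1 / 2 : ℂ) - t * Complex.I).re = 1 / 2 := by
    simp
  have him : ((1 / 2 : ℂ) - t * Complex.I).im = -t := by
    simp
  simp only [hre, him]
  rw [smul_eq_mul, mul_comm]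
  unfold GG ee
  congr 2
  push_cast
  ring

theorem mel_planch_e (g : ℝ → ℂ) (hg : Measurable g) (B b : ℝ) (hb : 0 < b)
    (hB : ∀ θ, 0 < θ → ‖g θ‖ ≤ B * Real.exp (-(b * θ))) :
    Integrable (fun t => ‖Mel g t‖ ^ 2) ∧
      ∫ t, ‖Mel g t‖ ^ 2 = 2 * Real.pi * ∫ θ in Set.Ioi (0 : ℝ), ‖g θ‖ ^ 2 := by
  obtain ⟨h1, h2⟩ := planch (GG g) (GG_integrable g hg B b hb hB) (GG_memLp g hg B b hb hB)
  have hpi : (0 : ℝ) < 2 * Real.pi := by positivity
  have ha : -(1 / (2 * Real.pi)) ≠ 0 := neg_ne_zero.2 (by positivity)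
  have hfun : (fun t => ‖Mel g t‖ ^ 2) =
      fun t => (fun ξ : ℝ => ‖∫ u, GG g u * ee (-(u * ξ))‖ ^ 2) (-(1 / (2 * Real.pi)) * t) := by
    funext t
    rw [melle_Mel_eq]
  rw [hfun]
  refine ⟨h1.comp_mul_left' ha, ?_⟩
  rw [Measure.integral_comp_mul_left
    (fun ξ : ℝ => ‖∫ u, GG g u * ee (-(u * ξ))‖ ^ 2) (-(1 / (2 * Real.pi))), h2, smul_eq_mul]
  congr 1
  · rw [inv_neg, one_div, inv_inv, abs_neg, abs_of_pos hpi]
  · rw [melle_subst (fun θ => ‖g θ‖ ^ 2)]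
    exact integral_congr_ae (Filter.Eventually.of_forall fun u => GG_norm_sq g u)

private theorem melle_conv (g : ℝ → ℂ) (hg : Measurable g) (B b : ℝ) (hb : 0 < b)
    (hB : ∀ θ, 0 < θ → ‖g θ‖ ≤ B * Real.exp (-(b * θ))) (t : ℝ) :
    MellinConvergent g (1 / 2 - t * Complex.I) := by
  unfold MellinConvergent
  have hmeas : AEStronglyMeasurable
      (fun θ : ℝ => (θ : ℂ) ^ ((1 / 2 : ℂ) - t * Complex.I - 1) • g θ)
      (volume.restrict (Set.Ioi 0)) := by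
    have hc : AEStronglyMeasurable (fun θ : ℝ => (θ : ℂ) ^ ((1 / 2 : ℂ) - t * Complex.I - 1))
        (volume.restrict (Set.Ioi 0)) := ?_
    · exact hc.smul hg.aestronglyMeasurable
    refine ContinuousOn.aestronglyMeasurable ?_ measurableSet_Ioi
    intro θ hθ
    exact (Complex.continuousAt_ofReal_cpow_const θ _ (Or.inr (ne_of_gt hθ))).continuousWithinAt
  have hI : IntegrableOn (fun θ : ℝ => θ ^ (-(1 / 2) : ℝ) * Real.exp (-b * θ ^ (1 : ℝ)) * B)
      (Set.Ioi 0) :=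
    (integrableOn_rpow_mul_exp_neg_mul_rpow (by norm_num) one_pos hb).mul_const B
  refine Integrable.mono' hI hmeas ?_
  refine (ae_restrict_iff' measurableSet_Ioi).2 (Filter.Eventually.of_forall fun θ hθ => ?_)
  have hθ' : (0 : ℝ) < θ := hθ
  rw [norm_smul, Complex.norm_cpow_eq_rpow_re_of_pos hθ']
  have hre : ((1 / 2 : ℂ) - t * Complex.I - 1).re = -(1 / 2) := by
    simp
    norm_num
  rw [hre, Real.rpow_one, mul_assoc]
  refine mul_le_mul_of_nonneg_left ?_ (Real.rpow_nonneg hθ'.le _)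
  refine (hB θ hθ').trans (le_of_eq ?_)
  rw [mul_comm, neg_mul]

private theorem melle_sum (S : Finset ℕ) (hS : ∀ k ∈ S, 1 ≤ k) (g : ℝ → ℂ) (hg : Measurable g)
    (B b : ℝ) (hb : 0 < b) (hB : ∀ θ, 0 < θ → ‖g θ‖ ≤ B * Real.exp (-(b * θ))) (t : ℝ) :
    Mel (fun y => ∑ k ∈ S, g (k * y)) t = ZZ S t * Mel g t := by
  unfold Mel ZZ
  have hconv := melle_conv g hg B b hb hB t
  rw [sum_mul]
  have h1 : mellin (fun y => ∑ k ∈ S, g (k * y)) (1 / 2 - t * Complex.I) =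
      ∑ k ∈ S, mellin (fun y => g (k * y)) (1 / 2 - t * Complex.I) := by
    unfold mellin
    simp only [smul_sum]
    refine integral_finsetSum S fun k hk => ?_
    have hk0 : (0 : ℝ) < k := by exact_mod_cast hS k hk
    exact (MellinConvergent.comp_mul_left hk0).2 hconv
  rw [h1]
  refine sum_congr rfl fun k hk => ?_
  have hk0 : (0 : ℝ) < k := by exact_mod_cast hS k hk
  rw [mellin_comp_mul_left g _ hk0, smul_eq_mul]
  congr 1
  push_cast
  congr 1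
  ring

theorem int_sum_sq_e (S : Finset ℕ) (hS : ∀ k ∈ S, 1 ≤ k) (g : ℝ → ℂ) (hg : Measurable g) (B b : ℝ)
    (hb : 0 < b) (hB : ∀ θ, 0 < θ → ‖g θ‖ ≤ B * Real.exp (-(b * θ))) :
    Integrable (fun t => ‖ZZ S t‖ ^ 2 * ‖Mel g t‖ ^ 2) ∧
      II S g = 1 / (2 * Real.pi) * ∫ t, ‖ZZ S t‖ ^ 2 * ‖Mel g t‖ ^ 2 := by
  have hfun : (fun t => ‖ZZ S t‖ ^ 2 * ‖Mel g t‖ ^ 2) =
      fun t => ‖Mel (fun y => ∑ k ∈ S, g (k * y)) t‖ ^ 2 := by
    funext t
    rw [melle_sum S hS g hg B b hb hB t, norm_mul, mul_pow]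
  have hm : Measurable (fun y : ℝ => ∑ k ∈ S, g (k * y)) :=
    Finset.measurable_sum S fun k _ => hg.comp (by fun_prop)
  have hB0 := melle_B g hB
  have hbd : ∀ y : ℝ, 0 < y → ‖∑ k ∈ S, g (k * y)‖ ≤ S.card * B * Real.exp (-(b * y)) := by
    intro y hy
    refine (norm_sum_le _ _).trans ?_
    have h3 : ∑ k ∈ S, ‖g ((k : ℝ) * y)‖ ≤ ∑ _k ∈ S, B * Real.exp (-(b * y)) := by
      refine sum_le_sum fun k hk => ?_
      have hk1 : (1 : ℝ) ≤ k := by exact_mod_cast hS k hk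
      have hky : y ≤ k * y := by nlinarith
      refine (hB _ (lt_of_lt_of_le hy hky)).trans (mul_le_mul_of_nonneg_left ?_ hB0)
      apply Real.exp_le_exp.2
      have := mul_le_mul_of_nonneg_left hky hb.le
      linarith
    refine h3.trans (le_of_eq ?_)
    rw [sum_const, nsmul_eq_mul, mul_assoc]
  obtain ⟨h1, h2⟩ := mel_planch_e (fun y => ∑ k ∈ S, g (k * y)) hm (S.card * B) b hb hbd
  rw [hfun]
  refine ⟨h1, ?_⟩
  rw [h2]
  unfold II
  have hpi : (2 * Real.pi) ≠ 0 := by positivity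
  field_simp

end Pool.Agent.H35.W

end

section

/-!
# W MelTl: the tail of the Mellin transform

In the setting of `MelCor`.  `|w_n^{-1/2+it}| = |w_n|^{-1/2} exp(-t arg w_n)`, `|w_n| ≥ π S0 ≥ 1`,
`|arg w_n| = arctan(2πΘ (n - a)) = π/2 - arctan(1/(2πΘ(n-a)))`, so
`|Γ(1/2-it)| |w_n^{-1/2+it}| ≤ 3 S0^{-1/2} exp(-|t| η_n)`, `η_n = arctan(1/(2πΘ(n - a)))` and `0 < n - a ≤ 2N`
(`n ≤ N`, `a ≥ a0 - S0/2`, `S0 ≤ M < n ≤ N`).  `arctan z ≥ (π/4) min(z, 1)` for `z ≥ 0`, so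
`η_n ≥ 1/(40 (Θ N + 1))`.
(If `N ≤ M` the left side is 0.)
-/

set_option autoImplicit false

namespace Pool.Agent.H35.W

open Finset MeasureTheory
open Pool.Agent.H91.PK (ee)
open Pool.Agent.H76.EHB

/-- the argument of a point of the right half plane -/
private theorem mtl_arg {w : ℂ} (hw : 0 < w.re) :
    |Complex.arg w| ≤ Real.pi / 2 - w.re / ‖w‖ := by
  have hw0 : w ≠ 0 := by
    intro h
    rw [h] at hw
    simp at hw
  have h1 : |Complex.arg w| ≤ Real.pi / 2 := Complex.abs_arg_le_pi_div_two_iff.2 hw.le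
  have h2 : Real.sin (Real.pi / 2 - |Complex.arg w|) = w.re / ‖w‖ := by
    rw [Real.sin_pi_div_two_sub, Real.cos_abs, Complex.cos_arg hw0]
  have h3 := Real.sin_le (sub_nonneg.2 h1)
  rw [h2] at h3
  linarith

private theorem mtl_term {Θ s t S0 a : ℝ} {N M a0 n : ℕ} (hs : s = 1 ∨ s = -1) (hΘ : 0 < Θ)
    (hS0 : 1 ≤ S0) (hM : (a0 : ℝ) + S0 ≤ M) (ha : |a - a0| ≤ S0 / 2) (hn : n ∈ Ioc M N) :
    3 * Real.exp (-(Real.pi * |t| / 2)) *
      ‖((((1 / Θ : ℝ) : ℂ) - ((2 * Real.pi * s * ((n : ℝ) - a) : ℝ) : ℂ) * Complex.I)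
            ^ (-(1 / 2 - t * Complex.I) : ℂ))‖
      ≤ 3 * Real.exp (-(|t| / (40 * (Θ * N + 1)))) := by
  have hn' := Finset.mem_Ioc.1 hn
  have hMn : (M : ℝ) + 1 ≤ n := by exact_mod_cast hn'.1
  have hnN : (n : ℝ) ≤ N := by exact_mod_cast hn'.2
  have ha' := abs_le.1 ha
  have ha0 : (0 : ℝ) ≤ a0 := Nat.cast_nonneg _
  have hpi := Real.pi_gt_three
  have hpi4 := Real.pi_lt_d2
  set v : ℝ := (n : ℝ) - a with hv
  have hv1 : 1 / 2 ≤ v := by rw [hv]; linarith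
  have hv2 : v ≤ 2 * N := by rw [hv]; linarith
  set w : ℂ := (((1 / Θ : ℝ) : ℂ) - ((2 * Real.pi * s * v : ℝ) : ℂ) * Complex.I) with hw
  have hre : w.re = 1 / Θ := by
    rw [hw]
    simp
  have him : w.im = -(2 * Real.pi * s * v) := by
    rw [hw]
    simp
  have hrepos : 0 < w.re := by rw [hre]; positivity
  have hw0 : w ≠ 0 := by
    intro h
    rw [h] at hrepos
    simp at hrepos
  have hs1 : |s| = 1 := by
    rcases hs with h | h <;> rw [h] <;> norm_num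
  have himabs : |w.im| = 2 * Real.pi * v := by
    rw [him, abs_neg, abs_mul, abs_mul, hs1, abs_of_pos (by linarith : (0 : ℝ) < 2 * Real.pi),
      abs_of_pos (by linarith : (0 : ℝ) < v)]
    ring
  have hnorm1 : 1 ≤ ‖w‖ := by
    have h1 := Complex.abs_im_le_norm w
    rw [himabs] at h1
    nlinarith
  have hnorm2 : ‖w‖ ≤ 1 / Θ + 4 * Real.pi * N := by
    have h1 := Complex.norm_le_abs_re_add_abs_im w
    rw [himabs, abs_of_pos hrepos, hre] at h1
    have h2 : 2 * Real.pi * v ≤ 2 * Real.pi * (2 * N) :=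
      mul_le_mul_of_nonneg_left hv2 (by linarith)
    linarith
  have hN0 : (0 : ℝ) ≤ N := Nat.cast_nonneg _
  have harg : |Complex.arg w| ≤ Real.pi / 2 - 1 / (40 * (Θ * N + 1)) := by
    have h1 := mtl_arg hrepos
    have h2 : 1 / (40 * (Θ * N + 1)) ≤ w.re / ‖w‖ := by
      rw [hre]
      have h3 : (1 / Θ) / (1 / Θ + 4 * Real.pi * N) ≤ 1 / Θ / ‖w‖ :=
        div_le_div_of_nonneg_left (by positivity) (by linarith) hnorm2
      refine le_trans ?_ h3
      rw [div_le_div_iff₀ (by positivity) (by positivity)]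
      have h4 : 1 / Θ * (40 * (Θ * N + 1)) = 40 * N + 40 / Θ := by
        field_simp
      rw [h4, one_mul]
      have h5 : 4 * Real.pi * N ≤ 40 * N := by nlinarith
      have h6 : 1 / Θ ≤ 40 / Θ := div_le_div_of_nonneg_right (by norm_num) hΘ.le
      linarith
    linarith
  rw [Complex.norm_cpow_of_ne_zero hw0]
  have hzre : (-(1 / 2 - (t : ℂ) * Complex.I)).re = -(1 / 2 : ℝ) := by
    simp
  have hzim : (-(1 / 2 - (t : ℂ) * Complex.I)).im = t := by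
    simp
  rw [hzre, hzim]
  have hpow : ‖w‖ ^ (-(1 / 2 : ℝ)) ≤ 1 :=
    Real.rpow_le_one_of_one_le_of_nonpos hnorm1 (by norm_num)
  have hexp : 1 / Real.exp (Complex.arg w * t) ≤
      Real.exp (|t| * (Real.pi / 2 - 1 / (40 * (Θ * N + 1)))) := by
    rw [one_div, ← Real.exp_neg]
    apply Real.exp_le_exp.2
    calc -(Complex.arg w * t) ≤ |Complex.arg w * t| := neg_le_abs _
      _ = |t| * |Complex.arg w| := by rw [abs_mul, mul_comm]
      _ ≤ _ := mul_le_mul_of_nonneg_left harg (abs_nonneg _)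
  have h7 : ‖w‖ ^ (-(1 / 2 : ℝ)) / Real.exp (Complex.arg w * t) ≤
      Real.exp (|t| * (Real.pi / 2 - 1 / (40 * (Θ * N + 1)))) := by
    refine le_trans ?_ hexp
    exact div_le_div_of_nonneg_right hpow (Real.exp_pos _).le
  calc 3 * Real.exp (-(Real.pi * |t| / 2)) * (‖w‖ ^ (-(1 / 2 : ℝ)) / Real.exp (Complex.arg w * t))
      ≤ 3 * Real.exp (-(Real.pi * |t| / 2)) *
          Real.exp (|t| * (Real.pi / 2 - 1 / (40 * (Θ * N + 1)))) :=
        mul_le_mul_of_nonneg_left h7 (by positivity)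
    _ = 3 * Real.exp (-(|t| / (40 * (Θ * N + 1)))) := by
        rw [mul_assoc, ← Real.exp_add]
        congr 2
        field_simp
        ring

theorem mel_tl (g : ℕ → ℝ) (N M a0 : ℕ) (α a Θ s t S0 : ℝ) (hs : s = 1 ∨ s = -1) (hΘ : 0 < Θ)
    (hS0 : 1 ≤ S0) (hM : (a0 : ℝ) + S0 ≤ M) (ha : |a - a0| ≤ S0 / 2)
    (hg : ∀ n, n ∉ Ioc M N → g n = 0) :
    ‖Mel (ge g N α a Θ s) t‖
      ≤ 3 * (∑ n ∈ Icc 1 N, |g n|) * Real.exp (-(|t| / (40 * (Θ * N + 1)))) := by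
  rw [mel_ge g N α a Θ s t hΘ, norm_mul]
  have h1 := gamma_half t
  calc ‖Complex.Gamma (1 / 2 - t * Complex.I)‖ * ‖∑ n ∈ Icc 1 N, (g n : ℂ) * ee (n * α)
        * (((1 / Θ : ℝ) : ℂ) - ((2 * Real.pi * s * ((n : ℝ) - a) : ℝ) : ℂ) * Complex.I)
            ^ (-(1 / 2 - t * Complex.I) : ℂ)‖
      ≤ (3 * Real.exp (-(Real.pi * |t| / 2))) * ∑ n ∈ Icc 1 N, |g n| *
        ‖((((1 / Θ : ℝ) : ℂ) - ((2 * Real.pi * s * ((n : ℝ) - a) : ℝ) : ℂ) * Complex.I)
            ^ (-(1 / 2 - t * Complex.I) : ℂ))‖ := by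
        refine mul_le_mul h1 ?_ (norm_nonneg _) (by positivity)
        refine (norm_sum_le _ _).trans (Finset.sum_le_sum fun n _ => ?_)
        rw [norm_mul, norm_mul, Pool.Agent.H91.PK.LSa_norm_ee, mul_one, Complex.norm_real,
          Real.norm_eq_abs]
    _ = ∑ n ∈ Icc 1 N, |g n| * (3 * Real.exp (-(Real.pi * |t| / 2)) *
        ‖((((1 / Θ : ℝ) : ℂ) - ((2 * Real.pi * s * ((n : ℝ) - a) : ℝ) : ℂ) * Complex.I)
            ^ (-(1 / 2 - t * Complex.I) : ℂ))‖) := by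
        rw [Finset.mul_sum]
        refine Finset.sum_congr rfl fun n _ => ?_
        ring
    _ ≤ ∑ n ∈ Icc 1 N, |g n| * (3 * Real.exp (-(|t| / (40 * (Θ * N + 1))))) := by
        refine Finset.sum_le_sum fun n _ => ?_
        by_cases hn : n ∈ Ioc M N
        · exact mul_le_mul_of_nonneg_left (mtl_term hs hΘ hS0 hM ha hn) (abs_nonneg _)
        · rw [hg n hn]
          simp
    _ = 3 * (∑ n ∈ Icc 1 N, |g n|) * Real.exp (-(|t| / (40 * (Θ * N + 1)))) := by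
        rw [← Finset.sum_mul]
        ring

end Pool.Agent.H35.W

end
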