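import Pool.Agent.H43.PM.M06
import Pool.Agent.H43.PM.M09
import Pool.Agent.H43.PM.M10

/-! The parts of this file: H74.MDX.Defs, H74.MDX.MulRel, H74.MDX.Lvl, H74.MDX.Root, H74.MDX.DStep, H74.MDX.Weak, H74.MDX.DsInt, H53.MID.Gal, H53.MID.TypA. -/

section

/-!
# MDX Defs: walks, descendants, vertices and edges

Setting.  `R` is a set of triples `(i, p, g)` (the relation `Rel` of `H53/MID/Nz.lean`), `F` a set of indices.
* `Wk j`: a walk with `j` steps is `(i, t)`, `i : Fin (j+1) → ℕ` the vertices, `t s = (p, g, q)` the step from `i s` to `i (s+1)`.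
* `IsW R w`: for every step `(i s, p, g) ∈ R` and `(i (s+1), q, g) ∈ R`, and the `2 j` numbers `p, q` are pairwise distinct.
* `Om R F j`: the finite set of all walks with `j` steps and all vertices in `F`.
* `Lw`, `Rw`: drop the last (first) step; `v0`, `v1`: first and last vertex; `pa`, `qa`: the products of the `p` and of the `q`;
  `pf`: the `p` of the first step; `ql`: the `q` of the last step.
* `DS P j D τ F α v`: all descendants `(a, i)` of the node `v = (M, γ)`, `j` levels down: `i ∈ F`, `P^j ≤ a ≤ (2P)^j`, all prime factors of `a`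
  are `> P`, `|i a - M P^j| ≤ D P^j`, `nz (a γ - α i) ≤ τ`.
* `VX c P V M`: the vertices `(p, K, k)` over `M`: `p` a prime in `(P, 2P]`, `(K, k) ∈ V`, `|K p - M P| ≤ c P`.
* `EX c P η V M`: the edges `((p,K,k), (p',K',k'))` over `M`: `p ≠ p'`, `nz (p' k - p k') ≤ 2 η`.
-/

set_option autoImplicit false

namespace Pool.Agent.H74.MDX

open Finset
open Pool.Agent.H53.MID (nz Rel Desc)

/-- walks with `j` steps -/
abbrev Wk (j : ℕ) : Type := (Fin (j + 1) → ℕ) × (Fin j → ℕ × ℕ × ℕ)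

variable {j : ℕ}

/-- first vertex -/
def v0 (w : Wk j) : ℕ := w.1 0

/-- last vertex -/
def v1 (w : Wk j) : ℕ := w.1 (Fin.last j)

/-- the product of the `p` -/
def pa (w : Wk j) : ℕ := ∏ s, (w.2 s).1

/-- the product of the `q` -/
def qa (w : Wk j) : ℕ := ∏ s, (w.2 s).2.2

/-- the `p` of the first step -/
def pf (w : Wk (j + 1)) : ℕ := (w.2 0).1

/-- the `q` of the last step -/
def ql (w : Wk (j + 1)) : ℕ := (w.2 (Fin.last j)).2.2

/-- drop the last step -/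
def Lw (w : Wk (j + 1)) : Wk j := (fun s => w.1 s.castSucc, fun s => w.2 s.castSucc)

/-- drop the first step -/
def Rw (w : Wk (j + 1)) : Wk j := (fun s => w.1 s.succ, fun s => w.2 s.succ)

/-- the walks of the relation `R` with distinct primes -/
def IsW (R : Finset (ℕ × ℕ × ℕ)) (w : Wk j) : Prop :=
  (∀ s : Fin j, (w.1 s.castSucc, (w.2 s).1, (w.2 s).2.1) ∈ R ∧ (w.1 s.succ, (w.2 s).2.2, (w.2 s).2.1) ∈ R) ∧
  Function.Injective (Sum.elim (fun s : Fin j => (w.2 s).1) (fun s : Fin j => (w.2 s).2.2))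

open Classical in
/-- the finite set of the walks -/
noncomputable def Om (R : Finset (ℕ × ℕ × ℕ)) (F : Finset ℕ) (j : ℕ) : Finset (Wk j) :=
  ((Fintype.piFinset (fun _ : Fin (j + 1) => F)) ×ˢ
    (Fintype.piFinset (fun _ : Fin j => (R ×ˢ R).image (fun t => (t.1.2.1, t.1.2.2, t.2.2.1))))).filter (fun w => IsW R w)

theorem mem_Om {R : Finset (ℕ × ℕ × ℕ)} {F : Finset ℕ} {w : Wk j} :
    w ∈ Om R F j ↔ (∀ s, w.1 s ∈ F) ∧ IsW R w := by
  classical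
  unfold Om
  rw [Finset.mem_filter, Finset.mem_product, Fintype.mem_piFinset, Fintype.mem_piFinset]
  constructor
  · rintro ⟨⟨h1, -⟩, h3⟩
    exact ⟨h1, h3⟩
  · rintro ⟨h1, h3⟩
    refine ⟨⟨h1, fun s => ?_⟩, h3⟩
    rw [Finset.mem_image]
    exact ⟨((w.1 s.castSucc, (w.2 s).1, (w.2 s).2.1), (w.1 s.succ, (w.2 s).2.2, (w.2 s).2.1)),
      Finset.mem_product.2 (h3.1 s), rfl⟩

theorem Lw_mem {R : Finset (ℕ × ℕ × ℕ)} {F : Finset ℕ} {w : Wk (j + 1)} (h : w ∈ Om R F (j + 1)) : Lw w ∈ Om R F j := by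
  rw [mem_Om] at h ⊢
  refine ⟨fun s => h.1 _, fun s => h.2.1 s.castSucc, ?_⟩
  have hinj : Function.Injective (Sum.map (Fin.castSucc : Fin j → Fin (j + 1)) (Fin.castSucc : Fin j → Fin (j + 1))) :=
    Sum.map_injective.2 ⟨Fin.castSucc_injective _, Fin.castSucc_injective _⟩
  have h2 := h.2.2.comp hinj
  rw [Sum.elim_comp_map] at h2
  exact h2

theorem Rw_mem {R : Finset (ℕ × ℕ × ℕ)} {F : Finset ℕ} {w : Wk (j + 1)} (h : w ∈ Om R F (j + 1)) : Rw w ∈ Om R F j := by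
  rw [mem_Om] at h ⊢
  refine ⟨fun s => h.1 _, fun s => h.2.1 s.succ, ?_⟩
  have hinj : Function.Injective (Sum.map (Fin.succ : Fin j → Fin (j + 1)) (Fin.succ : Fin j → Fin (j + 1))) :=
    Sum.map_injective.2 ⟨Fin.succ_injective _, Fin.succ_injective _⟩
  have h2 := h.2.2.comp hinj
  rw [Sum.elim_comp_map] at h2
  exact h2

theorem qa_eq (w : Wk (j + 1)) : qa w = qa (Lw w) * ql w := by
  unfold qa ql Lw
  exact Fin.prod_univ_castSucc _

theorem pa_eq (w : Wk (j + 1)) : pa w = pf w * pa (Rw w) := by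
  unfold pa pf Rw
  exact Fin.prod_univ_succ _

theorem pf_ne_ql {R : Finset (ℕ × ℕ × ℕ)} {F : Finset ℕ} {w : Wk (j + 1)} (h : w ∈ Om R F (j + 1)) : pf w ≠ ql w := by
  rw [mem_Om] at h
  intro h1
  have h2 := h.2.2 (a₁ := Sum.inl 0) (a₂ := Sum.inr (Fin.last j)) h1
  cases h2

/-- the descendants -/
noncomputable def DS (P j : ℕ) (D τ : ℝ) (F : Finset ℕ) (α : ℕ → ℝ) (v : ℕ × ℝ) : Finset (ℕ × ℕ) := by
  classical
  exact ((Icc (P ^ j) ((2 * P) ^ j)) ×ˢ F).filter (fun t => (∀ q : ℕ, q.Prime → q ∣ t.1 → P < q) ∧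
    |(t.2 : ℝ) * t.1 - v.1 * (P : ℝ) ^ j| ≤ D * (P : ℝ) ^ j ∧ nz (t.1 * v.2 - α t.2) ≤ τ)

theorem mem_DS {P j : ℕ} {D τ : ℝ} {F : Finset ℕ} {α : ℕ → ℝ} {v : ℕ × ℝ} {t : ℕ × ℕ} :
    t ∈ DS P j D τ F α v ↔ P ^ j ≤ t.1 ∧ t.1 ≤ (2 * P) ^ j ∧ t.2 ∈ F ∧ (∀ q : ℕ, q.Prime → q ∣ t.1 → P < q) ∧
      |(t.2 : ℝ) * t.1 - v.1 * (P : ℝ) ^ j| ≤ D * (P : ℝ) ^ j ∧ nz (t.1 * v.2 - α t.2) ≤ τ := by
  classical
  unfold DS
  rw [Finset.mem_filter, Finset.mem_product, Finset.mem_Icc]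
  tauto

theorem DS_desc (P j : ℕ) (D τ : ℝ) (F : Finset ℕ) (α : ℕ → ℝ) (v : ℕ × ℝ) :
    Desc P j D τ F α v.1 v.2 (DS P j D τ F α v) where
  mem := fun t ht => (mem_DS.1 ht).2.2.1
  lo := fun t ht => by exact_mod_cast (mem_DS.1 ht).1
  hi := fun t ht => by exact_mod_cast (mem_DS.1 ht).2.1
  pos := fun t ht => (mem_DS.1 ht).2.2.2.2.1
  freq := fun t ht => (mem_DS.1 ht).2.2.2.2.2

/-- the vertices over `M` -/
noncomputable def VX (c : ℝ) (P : ℕ) (V : Finset (ℕ × ℝ)) (M : ℕ) : Finset (ℕ × ℕ × ℝ) := by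
  classical
  exact (((Ioc P (2 * P)).filter Nat.Prime) ×ˢ V).filter (fun u => |(u.2.1 : ℝ) * u.1 - M * P| ≤ c * P)

theorem mem_VX {c : ℝ} {P : ℕ} {V : Finset (ℕ × ℝ)} {M : ℕ} {u : ℕ × ℕ × ℝ} :
    u ∈ VX c P V M ↔ (P < u.1 ∧ u.1 ≤ 2 * P) ∧ u.1.Prime ∧ u.2 ∈ V ∧ |(u.2.1 : ℝ) * u.1 - M * P| ≤ c * P := by
  classical
  unfold VX
  rw [Finset.mem_filter, Finset.mem_product, Finset.mem_filter, Finset.mem_Ioc]
  tauto

/-- the edges over `M` -/
noncomputable def EX (c : ℝ) (P : ℕ) (η : ℝ) (V : Finset (ℕ × ℝ)) (M : ℕ) :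
    Finset ((ℕ × ℕ × ℝ) × (ℕ × ℕ × ℝ)) := by
  classical
  exact (VX c P V M ×ˢ VX c P V M).filter (fun e => e.1.1 ≠ e.2.1 ∧
    nz ((e.2.1 : ℝ) * e.1.2.2 - e.1.1 * e.2.2.2) ≤ 2 * η)

theorem mem_EX {c : ℝ} {P : ℕ} {η : ℝ} {V : Finset (ℕ × ℝ)} {M : ℕ} {e : (ℕ × ℕ × ℝ) × (ℕ × ℕ × ℝ)} :
    e ∈ EX c P η V M ↔ e.1 ∈ VX c P V M ∧ e.2 ∈ VX c P V M ∧ e.1.1 ≠ e.2.1 ∧
      nz ((e.2.1 : ℝ) * e.1.2.2 - e.1.1 * e.2.2.2) ≤ 2 * η := by
  classical
  unfold EX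
  rw [Finset.mem_filter, Finset.mem_product]
  tauto

/-- bounded multiplicity of the relation: given `(i, p)` or `(g, p)` there are at most `κ` triples -/
structure Mul (κ : ℝ) (P : ℕ) (R : Finset (ℕ × ℕ × ℕ)) : Prop where
  one : 1 ≤ κ
  pos : 1 ≤ P
  prime : ∀ t ∈ R, t.2.1.Prime ∧ P < t.2.1 ∧ t.2.1 ≤ 2 * P
  out : ∀ i p : ℕ, ((R.filter (fun t => t.1 = i ∧ t.2.1 = p)).card : ℝ) ≤ κ
  inn : ∀ g p : ℕ, ((R.filter (fun t => t.2.2 = g ∧ t.2.1 = p)).card : ℝ) ≤ κ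

end Pool.Agent.H74.MDX

end

section

/-!
# MDX MulRel: the relation has bounded multiplicity

`rel_mul`: if `Rel C n P η F F' α α' R`, `C ≥ 1`, `P ≥ 1` then `Mul (2C+1) P R`.  Proof: given `i, p` (we may assume that there is a triple in the set, so `P < p`),
`|g p - i P| ≤ C P` leaves at most `2C+1` natural numbers `g` (`|g - i P/p| ≤ C P/p ≤ C`; the number of integers in a closed interval of length `2C` is
`≤ 2C+1`); given `g, p`: `|i - g p/P| ≤ C`, the same.  See `Edges_count`, `Edges_cnt`, `Edges_div` in `Pool/Agent/H53/MID/Edges.lean` (private: copy).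
`mul_sub`: subsets.  `int_card`: the number of the naturals in an interval.  `rel_card_le`: `|F| ≤ C n`, `|F'| ≤ C n` (`F ⊆ [1, C n]` as `K ≥ n/C > 0`).
-/

set_option autoImplicit false

namespace Pool.Agent.H74.MDX

open Finset
open Pool.Agent.H53.MID (nz Rel Desc)

theorem int_card (S : Finset ℕ) (x r : ℝ) (hr : 0 ≤ r) (h : ∀ k ∈ S, |(k : ℝ) - x| ≤ r) : (S.card : ℝ) ≤ 2 * r + 1 := by
  rcases S.eq_empty_or_nonempty with rfl | ⟨k0, hk0⟩
  · simp only [Finset.card_empty, Nat.cast_zero]; linarith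
  have h1 : (S.image (fun k : ℕ => (k : ℤ))) ⊆ Finset.Icc ⌈x - r⌉ ⌊x + r⌋ := by
    intro z hz
    rw [Finset.mem_image] at hz
    obtain ⟨k, hk, rfl⟩ := hz
    have h2 := abs_le.mp (h k hk)
    rw [Finset.mem_Icc]
    constructor
    · rw [Int.ceil_le]; push_cast; linarith [h2.1]
    · rw [Int.le_floor]; push_cast; linarith [h2.2]
  have h2 := Finset.card_le_card h1
  rw [Finset.card_image_of_injective _ Nat.cast_injective, Int.card_Icc] at h2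
  have h3 : ⌈x - r⌉ ≤ ⌊x + r⌋ := by
    have h4 := h1 (Finset.mem_image_of_mem _ hk0)
    rw [Finset.mem_Icc] at h4
    exact h4.1.trans h4.2
  have h4 : ((⌊x + r⌋ + 1 - ⌈x - r⌉).toNat : ℝ) = (⌊x + r⌋ : ℝ) + 1 - ⌈x - r⌉ := by
    have h5 : (((⌊x + r⌋ + 1 - ⌈x - r⌉).toNat : ℤ) : ℝ) = ((⌊x + r⌋ + 1 - ⌈x - r⌉ : ℤ) : ℝ) := by
      rw [Int.toNat_of_nonneg (by linarith)]
    push_cast at h5
    linarith
  have h6 : (S.card : ℝ) ≤ ((⌊x + r⌋ + 1 - ⌈x - r⌉).toNat : ℝ) := by exact_mod_cast h2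
  rw [h4] at h6
  have h7 := Int.floor_le (x + r)
  have h8 := Int.le_ceil (x - r)
  linarith

theorem rel_mul (C : ℝ) (hC : 1 ≤ C) (n P : ℕ) (hP : 1 ≤ P) (η : ℝ) (F F' : Finset ℕ) (α α' : ℕ → ℝ)
    (R : Finset (ℕ × ℕ × ℕ)) (h : Rel C n P η F F' α α' R) : Mul (2 * C + 1) P R := by
  have hP0 : (0 : ℝ) < P := by exact_mod_cast hP
  refine ⟨by linarith, hP, h.prime, fun i p => ?_, fun g p => ?_⟩
  · rcases (R.filter (fun t => t.1 = i ∧ t.2.1 = p)).eq_empty_or_nonempty with h0 | ⟨t0, ht0⟩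
    · rw [h0]; simp only [Finset.card_empty, Nat.cast_zero]; linarith
    rw [Finset.mem_filter] at ht0
    have hp : P < p := by
      have := (h.prime t0 ht0.1).2.1
      rw [ht0.2.2] at this
      exact this
    have hp0 : (P : ℝ) < p := by exact_mod_cast hp
    have hinj : Set.InjOn (fun t : ℕ × ℕ × ℕ => t.2.2) (R.filter (fun t => t.1 = i ∧ t.2.1 = p)) := by
      intro a ha b hb hab
      rw [Finset.mem_coe, Finset.mem_filter] at ha hb
      obtain ⟨a1, a2, a3⟩ := a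
      obtain ⟨b1, b2, b3⟩ := b
      simp only at ha hb hab
      rw [Prod.mk.injEq, Prod.mk.injEq]
      exact ⟨ha.2.1.trans hb.2.1.symm, ha.2.2.trans hb.2.2.symm, hab⟩
    rw [← Finset.card_image_of_injOn hinj]
    refine int_card _ ((i : ℝ) * P / p) C (by linarith) ?_
    intro k hk
    rw [Finset.mem_image] at hk
    obtain ⟨t, ht, rfl⟩ := hk
    rw [Finset.mem_filter] at ht
    have h1 := h.pos t ht.1
    rw [ht.2.1, ht.2.2] at h1
    have hpp : (0 : ℝ) < p := by linarith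
    have h2 : (t.2.2 : ℝ) - (i : ℝ) * P / p = ((t.2.2 : ℝ) * p - i * P) / p := by
      field_simp
    rw [h2, abs_div, abs_of_pos hpp, div_le_iff₀ hpp]
    refine h1.trans ?_
    exact mul_le_mul_of_nonneg_left hp0.le (by linarith)
  · have hinj : Set.InjOn (fun t : ℕ × ℕ × ℕ => t.1) (R.filter (fun t => t.2.2 = g ∧ t.2.1 = p)) := by
      intro a ha b hb hab
      rw [Finset.mem_coe, Finset.mem_filter] at ha hb
      obtain ⟨a1, a2, a3⟩ := a
      obtain ⟨b1, b2, b3⟩ := b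
      simp only at ha hb hab
      rw [Prod.mk.injEq, Prod.mk.injEq]
      exact ⟨hab, ha.2.2.trans hb.2.2.symm, ha.2.1.trans hb.2.1.symm⟩
    rw [← Finset.card_image_of_injOn hinj]
    refine int_card _ ((g : ℝ) * p / P) C (by linarith) ?_
    intro k hk
    rw [Finset.mem_image] at hk
    obtain ⟨t, ht, rfl⟩ := hk
    rw [Finset.mem_filter] at ht
    have h1 := h.pos t ht.1
    rw [ht.2.1, ht.2.2] at h1
    have h2 : (t.1 : ℝ) - (g : ℝ) * p / P = -(((g : ℝ) * p - t.1 * P) / P) := by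
      field_simp
      ring
    rw [h2, abs_neg, abs_div, abs_of_pos hP0, div_le_iff₀ hP0]
    exact h1

private theorem MulRel_card (C : ℝ) (hC : 1 ≤ C) (n : ℕ) (hn : 1 ≤ n) (F : Finset ℕ)
    (h : ∀ K ∈ F, (n : ℝ) / C ≤ K ∧ (K : ℝ) ≤ C * n) : (F.card : ℝ) ≤ C * n := by
  have hn0 : (0 : ℝ) < n := by exact_mod_cast hn
  have hC0 : (0 : ℝ) < C := by linarith
  have h1 : F ⊆ Finset.Icc 1 ⌊C * n⌋₊ := by
    intro K hK
    rw [Finset.mem_Icc]
    constructor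
    · have h2 := (h K hK).1
      have h3 : (0 : ℝ) < K := lt_of_lt_of_le (by positivity) h2
      have h4 : 0 < K := by exact_mod_cast h3
      exact h4
    · exact Nat.le_floor (h K hK).2
  have h2 := Finset.card_le_card h1
  rw [Nat.card_Icc, Nat.add_sub_cancel] at h2
  calc (F.card : ℝ) ≤ (⌊C * n⌋₊ : ℝ) := by exact_mod_cast h2
    _ ≤ C * n := Nat.floor_le (by positivity)

theorem rel_card_le (C : ℝ) (hC : 1 ≤ C) (n P : ℕ) (hn : 1 ≤ n) (η : ℝ) (F F' : Finset ℕ) (α α' : ℕ → ℝ)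
    (R : Finset (ℕ × ℕ × ℕ)) (h : Rel C n P η F F' α α' R) : (F.card : ℝ) ≤ C * n ∧ (F'.card : ℝ) ≤ C * n :=
  ⟨MulRel_card C hC n hn F h.rngF, MulRel_card C hC n hn F' h.rngF'⟩

end Pool.Agent.H74.MDX

end

section

/-!
# MDX Lvl: parameters and level data

`Par C ℓ P B ε η`: the conditions on the parameters.  `Lvl ... j V G c`: the data of the level `j`: `V` = the nodes, `G` = the good walks, `c` their colours.
The constants: positions `C 3^j` (link) and `C 5^j` (descendants), accuracies `2^(j^2+5j) η` (descendants), `2^(j^2+5j) η P/P^j` (link), `μ = ε/B^5`, multiplicity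
`B^7/ε`, exceptional walks `(4 (2C+1)^2)^j ε n P^(2j)`.

`lvl0` proof: `V = F.image (fun i => (i, α i))`, `G = Om R F 0`, `c w = (w.1 0, α (w.1 0))`.  `mult`: at most one element `≤ B^7/ε`; `desc`: `(1, i) ∈ DS P 0 ..` and `ε/B^5 ≤ 1`;
`link`: `w ∈ Om R F 1`, `G0 = (w.2 0).2.1`, `g = β G0` (`Rel.pos`, `Rel.freq`, `Rel.memF'`, `Rel.rngF'`); `exc`: the set is empty.
`exc` is a bound for the number of `w ∈ Om R F j` with `w ∉ G`.
-/

set_option autoImplicit false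

namespace Pool.Agent.H74.MDX

open Finset
open Pool.Agent.H53.MID (nz Rel Desc)

/-- the conditions on the parameters -/
structure Par (C : ℝ) (ℓ P : ℕ) (B ε η : ℝ) : Prop where
  hC : 1 ≤ C
  hB1 : 2 * C * 5 ^ ℓ + 1 ≤ B
  hB2 : 4 ^ ℓ * C ≤ B
  hB3 : (2 * C + 1) ^ (2 * ℓ) ≤ B
  hB4 : (ℓ.factorial : ℝ) ^ 2 ≤ B
  hB5 : (2 : ℝ) ^ (2 * ℓ + 8) ≤ B
  hε : 0 < ε
  hε1 : ε ≤ 1
  hη : 0 < η
  hP : 40 * B ^ 54 ≤ ε ^ 8 * P
  hηP : 2 ^ (ℓ ^ 2 + 5 * ℓ + 10) * η * (P : ℝ) ^ 3 ≤ 1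

open Classical in
/-- the data of the level `j` -/
structure Lvl (C B ε η : ℝ) (n P : ℕ) (F : Finset ℕ) (α : ℕ → ℝ) (R : Finset (ℕ × ℕ × ℕ)) (j : ℕ)
    (V : Finset (ℕ × ℝ)) (G : Finset (Wk j)) (c : Wk j → ℕ × ℝ) : Prop where
  sub : G ⊆ Om R F j
  col : ∀ w ∈ G, c w ∈ V
  rng : ∀ v ∈ V, (n : ℝ) / C ≤ v.1 ∧ (v.1 : ℝ) ≤ 4 ^ j * C * n
  mult : ∀ K : ℕ, ((V.filter (fun v => v.1 = K)).card : ℝ) ≤ B ^ 7 / ε
  desc : ∀ v ∈ V, ε / B ^ 5 * (P : ℝ) ^ j ≤ ((DS P j (C * 5 ^ j) (2 ^ (j ^ 2 + 5 * j) * η) F α v).card : ℝ)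
  mem0 : ∀ w ∈ G, (qa w, v0 w) ∈ DS P j (C * 5 ^ j) (2 ^ (j ^ 2 + 5 * j) * η) F α (c w)
  mem1 : ∀ w ∈ G, (pa w, v1 w) ∈ DS P j (C * 5 ^ j) (2 ^ (j ^ 2 + 5 * j) * η) F α (c w)
  link : ∀ w ∈ Om R F (j + 1), Lw w ∈ G → Rw w ∈ G → ∃ (G0 : ℕ) (g : ℝ), (n : ℝ) / C ≤ G0 ∧
    (G0 : ℝ) ≤ 4 ^ j * C * n ∧ |(G0 : ℝ) * pf w - (c (Lw w)).1 * P| ≤ C * 3 ^ j * P ∧
    |(G0 : ℝ) * ql w - (c (Rw w)).1 * P| ≤ C * 3 ^ j * P ∧
    nz (pf w * (c (Lw w)).2 - g) ≤ 2 ^ (j ^ 2 + 5 * j) * η * P / (P : ℝ) ^ j ∧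
    nz (ql w * (c (Rw w)).2 - g) ≤ 2 ^ (j ^ 2 + 5 * j) * η * P / (P : ℝ) ^ j
  exc : (((Om R F j).filter (fun w => w ∉ G)).card : ℝ) ≤ (4 * (2 * C + 1) ^ 2) ^ j * ε * n * (P : ℝ) ^ (2 * j)

private theorem Lvl_one_mem {C η : ℝ} {P : ℕ} {F : Finset ℕ} {α : ℕ → ℝ} {i : ℕ} (hC : 0 ≤ C) (hη : 0 ≤ η)
    (hi : i ∈ F) : ((1 : ℕ), i) ∈ DS P 0 (C * 5 ^ 0) (2 ^ (0 ^ 2 + 5 * 0) * η) F α (i, α i) := by
  have h0 : nz (0 : ℝ) = 0 := by
    unfold nz
    simp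
  rw [mem_DS]
  refine ⟨by simp, by simp, hi, ?_, ?_, ?_⟩
  · intro q hq h
    exact absurd (Nat.dvd_one.1 h) hq.ne_one
  · simpa using hC
  · simpa [h0] using hη

theorem lvl0 (C B ε η : ℝ) (ℓ n P : ℕ) (F G : Finset ℕ) (α β : ℕ → ℝ) (R : Finset (ℕ × ℕ × ℕ))
    (hPar : Par C ℓ P B ε η) (hP : 1 ≤ P) (hR : Rel C n P (η * P) F G α β R) :
    ∃ (V : Finset (ℕ × ℝ)) (G' : Finset (Wk 0)) (c : Wk 0 → ℕ × ℝ), Lvl C B ε η n P F α R 0 V G' c := by
  classical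
  have hC0 : 0 ≤ C := zero_le_one.trans hPar.hC
  have hη0 : 0 ≤ η := hPar.hη.le
  have hB : 1 ≤ B := by
    have h1 : 0 ≤ 2 * C * 5 ^ ℓ := by positivity
    linarith [hPar.hB1]
  refine ⟨F.image (fun i => (i, α i)), Om R F 0, fun w => (w.1 0, α (w.1 0)), ?_, ?_, ?_, ?_, ?_, ?_, ?_, ?_, ?_⟩
  · exact Finset.Subset.refl _
  · intro w hw
    exact Finset.mem_image.2 ⟨w.1 0, (mem_Om.1 hw).1 0, rfl⟩
  · intro v hv
    rw [Finset.mem_image] at hv
    obtain ⟨i, hi, rfl⟩ := hv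
    have h1 := hR.rngF i hi
    rw [pow_zero, one_mul]
    exact h1
  · intro K
    have h1 : ((F.image (fun i => (i, α i))).filter (fun v => v.1 = K)).card ≤ 1 := by
      rw [Finset.card_le_one]
      intro a ha b hb
      rw [Finset.mem_filter, Finset.mem_image] at ha hb
      obtain ⟨⟨i, -, rfl⟩, hi⟩ := ha
      obtain ⟨⟨j, -, rfl⟩, hj⟩ := hb
      simp only at hi hj
      rw [hi, hj]
    have h2 : (1 : ℝ) ≤ B ^ 7 / ε := by
      rw [le_div_iff₀ hPar.hε, one_mul]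
      exact hPar.hε1.trans (one_le_pow₀ hB)
    refine le_trans ?_ h2
    exact_mod_cast h1
  · intro v hv
    rw [Finset.mem_image] at hv
    obtain ⟨i, hi, rfl⟩ := hv
    have h1 : 0 < (DS P 0 (C * 5 ^ 0) (2 ^ (0 ^ 2 + 5 * 0) * η) F α (i, α i)).card :=
      Finset.card_pos.2 ⟨_, Lvl_one_mem hC0 hη0 hi⟩
    have h2 : (1 : ℝ) ≤ ((DS P 0 (C * 5 ^ 0) (2 ^ (0 ^ 2 + 5 * 0) * η) F α (i, α i)).card : ℝ) := by
      exact_mod_cast h1
    refine le_trans ?_ h2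
    rw [pow_zero, mul_one, div_le_one (by positivity)]
    exact hPar.hε1.trans (one_le_pow₀ hB)
  · intro w hw
    have h1 := Lvl_one_mem (P := P) (α := α) hC0 hη0 ((mem_Om.1 hw).1 0)
    have h2 : qa w = 1 := by
      unfold qa
      simp
    rw [h2]
    exact h1
  · intro w hw
    have h1 := Lvl_one_mem (P := P) (α := α) hC0 hη0 ((mem_Om.1 hw).1 0)
    have h2 : pa w = 1 := by
      unfold pa
      simp
    rw [h2]
    exact h1
  · intro w hw _ _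
    obtain ⟨h1, h2⟩ := (mem_Om.1 hw).2.1 0
    have h3 := hR.rngF' _ (hR.memF' _ h1)
    have h4 := hR.pos _ h1
    have h5 := hR.pos _ h2
    have h6 := hR.freq _ h1
    have h7 := hR.freq _ h2
    refine ⟨(w.2 0).2.1, β (w.2 0).2.1, ?_, ?_, ?_, ?_, ?_, ?_⟩
    · exact h3.1
    · rw [pow_zero, one_mul]
      exact h3.2
    · rw [pow_zero, mul_one]
      exact h4
    · rw [pow_zero, mul_one]
      exact h5
    · have e : (2 : ℝ) ^ (0 ^ 2 + 5 * 0) * η * P / (P : ℝ) ^ 0 = η * P := by norm_num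
      rw [e]
      exact h6
    · have e : (2 : ℝ) ^ (0 ^ 2 + 5 * 0) * η * P / (P : ℝ) ^ 0 = η * P := by norm_num
      rw [e]
      exact h7
  · have h1 : (Om R F 0).filter (fun w => w ∉ Om R F 0) = ∅ := by
      rw [Finset.filter_eq_empty_iff]
      intro w hw h
      exact h hw
    rw [h1, Finset.card_empty, Nat.cast_zero]
    have := hPar.hε
    positivity

end Pool.Agent.H74.MDX

end

section

/-!
# MDX Root: the root of an edge

For an edge `e = ((p,K,k), (p',K',k'))` (`mem_EX`) `lift` (H53/MID/FourC.lean, with `p := p`, `p1 := p'`, `a := k`, `a1 := k'`, `d := 2 η`) gives an integer `s` with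
`nz (p' ((k + s)/p) - k') ≤ 2 η/p`.  Choose the representative `s ∈ [0, p)` (`s ↦ s % p`; changing `s` by a multiple of `p` changes `(k+s)/p` by an integer and the
argument of `nz` by an integer: `nz_add_int`).  Uniqueness: if `s1, s2 ∈ [0, p)` both satisfy it then `nz (p' (s1 - s2)/p) ≤ 4 η/p < 1/p`, so `p ∣ p' (s1 - s2)`
(`nz_frac_ge`), `p ∣ s1 - s2` (`p ≠ p'` primes), `s1 = s2`.
Second claim: `four_cycle` with `p = pr u`, `q = pr v`, `p1 = pr u1`, `p2 = pr u2`, `a = k_u`, `b = k_v`, `a1 = k_(u1)`, `a2 = k_(u2)`, `d = 2 η`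
(`48 d P^2 = 96 η P^2 < 1`): the label of `(u, u1)` also satisfies the inequality of `(u, u2)`; by uniqueness the labels are equal.
(If `η P^2` is small and `P ≥ 1` then also `4 η < 1`; the vertices have `P < p ≤ 2P`.)
-/

set_option autoImplicit false

namespace Pool.Agent.H74.MDX

open Finset
open Pool.Agent.H53.MID (nz Rel Desc)

private theorem Root_exists (p p1 : ℕ) (hp : p.Prime) (hp1 : p1.Prime) (hne : p ≠ p1) (a a1 d : ℝ)
    (h : nz (p1 * a - p * a1) ≤ d) :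
    ∃ s : ℤ, 0 ≤ s ∧ s < p ∧ nz (p1 * ((a + s) / p) - a1) ≤ d / p := by
  obtain ⟨s0, hs0⟩ := Pool.Agent.H53.MID.lift p p1 hp hp1 hne a a1 d h
  have hp0 : (0 : ℤ) < p := by exact_mod_cast hp.pos
  have hpR : (0 : ℝ) < p := by exact_mod_cast hp.pos
  refine ⟨s0 % p, Int.emod_nonneg _ hp0.ne', Int.emod_lt_of_pos _ hp0, ?_⟩
  have e0 : (s0 : ℝ) = ((s0 % p : ℤ) : ℝ) + p * ((s0 / p : ℤ) : ℝ) := by
    have := Int.emod_add_mul_ediv s0 p
    exact_mod_cast this.symm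
  have e1 : (p1 : ℝ) * ((a + s0) / p) - a1 =
      (p1 * ((a + ((s0 % p : ℤ) : ℝ)) / p) - a1) + ((p1 * (s0 / p) : ℤ) : ℝ) := by
    rw [e0]
    push_cast
    field_simp
    ring
  rw [e1, Pool.Agent.H53.MID.nz_add_int] at hs0
  exact hs0

private theorem Root_unique (p p1 : ℕ) (hp : p.Prime) (hp1 : p1.Prime) (hne : p ≠ p1) (a a1 η : ℝ) (hη : 4 * η < 1)
    (s t : ℤ) (hs0 : 0 ≤ s) (hsp : s < p) (ht0 : 0 ≤ t) (htp : t < p)
    (hs : nz (p1 * ((a + s) / p) - a1) ≤ 2 * η / p) (ht : nz (p1 * ((a + t) / p) - a1) ≤ 2 * η / p) : s = t := by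
  have hpR : (0 : ℝ) < p := by exact_mod_cast hp.pos
  have h1 := Pool.Agent.H53.MID.nz_sub (p1 * ((a + s) / p) - a1) (p1 * ((a + t) / p) - a1)
  have e1 : (p1 : ℝ) * ((a + s) / p) - a1 - (p1 * ((a + t) / p) - a1) = ((p1 * (s - t) : ℤ) : ℝ) / p := by
    push_cast
    field_simp
    ring
  rw [e1] at h1
  have h2 : nz (((p1 * (s - t) : ℤ) : ℝ) / p) < 1 / p := by
    refine (h1.trans (add_le_add hs ht)).trans_lt ?_
    rw [← add_div]
    exact div_lt_div_of_pos_right (by linarith) hpR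
  have h3 : (p : ℤ) ∣ (p1 : ℤ) * (s - t) := by
    by_contra h4
    have h5 := Pool.Agent.H53.MID.nz_frac_ge _ p hp.pos h4
    linarith
  have hpi : Prime (p : ℤ) := Nat.prime_iff_prime_int.1 hp
  rcases hpi.dvd_or_dvd h3 with h4 | h4
  · exact absurd ((Nat.prime_dvd_prime_iff_eq hp hp1).1 (Int.natCast_dvd_natCast.1 h4)) hne
  · have h5 : |s - t| < p := by
      rw [abs_lt]
      constructor <;> linarith
    have h6 := Int.eq_zero_of_abs_lt_dvd h4 h5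
    linarith

theorem root_label (c : ℝ) (P : ℕ) (η : ℝ) (V : Finset (ℕ × ℝ)) (M : ℕ) (hP : 1 ≤ P) (hη : 0 ≤ η)
    (hηP : 100 * η * (P : ℝ) ^ 2 ≤ 1) :
    ∃ s : (ℕ × ℕ × ℝ) × (ℕ × ℕ × ℝ) → ℤ,
      (∀ e ∈ EX c P η V M, nz ((e.2.1 : ℝ) * ((e.1.2.2 + s e) / e.1.1) - e.2.2.2) ≤ 2 * η / e.1.1) ∧
      ∀ u v u1 u2 : ℕ × ℕ × ℝ, (u, u1) ∈ EX c P η V M → (u, u2) ∈ EX c P η V M → (v, u1) ∈ EX c P η V M →
        (v, u2) ∈ EX c P η V M → u.1 ≠ v.1 → s (u, u1) = s (u, u2) := by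
  classical
  have hP2 : (1 : ℝ) ≤ (P : ℝ) ^ 2 := one_le_pow₀ (by exact_mod_cast hP)
  have hη4 : 4 * η < 1 := by nlinarith
  have hd : 48 * (2 * η) * (P : ℝ) ^ 2 < 1 := by nlinarith
  have key : ∀ e : (ℕ × ℕ × ℝ) × (ℕ × ℕ × ℝ), ∃ s : ℤ, e ∈ EX c P η V M →
      0 ≤ s ∧ s < e.1.1 ∧ nz ((e.2.1 : ℝ) * ((e.1.2.2 + s) / e.1.1) - e.2.2.2) ≤ 2 * η / e.1.1 := by
    intro e
    by_cases he : e ∈ EX c P η V M
    · obtain ⟨h1, h2, h3, h4⟩ := mem_EX.1 he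
      obtain ⟨s, hs⟩ := Root_exists e.1.1 e.2.1 (mem_VX.1 h1).2.1 (mem_VX.1 h2).2.1 h3 e.1.2.2 e.2.2.2 (2 * η) h4
      exact ⟨s, fun _ => hs⟩
    · exact ⟨0, fun h => absurd h he⟩
  choose s hs using key
  refine ⟨s, fun e he => (hs e he).2.2, ?_⟩
  intro u v u1 u2 h1 h2 h3 h4 huv
  obtain ⟨a1, a2, a3, a4⟩ := mem_EX.1 h1
  obtain ⟨b1, b2, b3, b4⟩ := mem_EX.1 h2
  obtain ⟨c1, c2, c3, c4⟩ := mem_EX.1 h3
  obtain ⟨d1, d2, d3, d4⟩ := mem_EX.1 h4
  obtain ⟨x1, x2, x3⟩ := hs _ h1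
  obtain ⟨y1, y2, y3⟩ := hs _ h2
  have h5 := Pool.Agent.H53.MID.four_cycle P u.1 v.1 u1.1 u2.1 (mem_VX.1 a1).2.1 (mem_VX.1 c1).2.1
    (mem_VX.1 a2).2.1 (mem_VX.1 b2).2.1 (mem_VX.1 a1).1 (mem_VX.1 c1).1 (mem_VX.1 a2).1 (mem_VX.1 b2).1
    huv a3 b3 u.2.2 v.2.2 u1.2.2 u2.2.2 (2 * η) (s (u, u1)) (s (u, u2)) x3 y3 c4 d4 (by linarith) hd
  exact Root_unique u.1 u2.1 (mem_VX.1 a1).2.1 (mem_VX.1 b2).2.1 b3 u.2.2 u2.2.2 η hη4 _ _ x1 x2 y1 y2 h5 y3

end Pool.Agent.H74.MDX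

end

section

/-!
# MDX DStep: descendants, one level down

`DS_step`: `(a, i) ∈ DS P j D τ F α (K, k)`, `p` a prime in `(P, 2P]`, `|K p - M P| ≤ c P`, `nz (p γ - k) ≤ η'` imply
`(p a, i) ∈ DS P (j+1) (2D + c) ((2P)^j η' + τ) F α (M, γ)`.
Proof: `|i a p - M P^(j+1)| ≤ p |i a - K P^j| + P^j |K p - M P| ≤ 2P D P^j + P^j c P`;
`nz (p a γ - α i) ≤ nz (a (p γ - k)) + nz (a k - α i) ≤ (2P)^j η' + τ`; a prime factor of `p a` is `p` or a prime factor of `a`.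
(See the proof of `chain_step` in `Pool/Agent/H53/MID/Chain.lean`.)
-/

set_option autoImplicit false

namespace Pool.Agent.H74.MDX

open Finset
open Pool.Agent.H53.MID (nz Rel Desc)

theorem DS_mono (P j : ℕ) (D D' τ τ' : ℝ) (F : Finset ℕ) (α : ℕ → ℝ) (v : ℕ × ℝ) (hD : D ≤ D') (hτ : τ ≤ τ') :
    DS P j D τ F α v ⊆ DS P j D' τ' F α v := by
  intro t ht
  rw [mem_DS] at ht ⊢
  obtain ⟨h1, h2, h3, h4, h5, h6⟩ := ht
  have hP : (0 : ℝ) ≤ (P : ℝ) ^ j := by positivity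
  exact ⟨h1, h2, h3, h4, h5.trans (mul_le_mul_of_nonneg_right hD hP), h6.trans hτ⟩

theorem DS_step (P j : ℕ) (c D τ η' : ℝ) (F : Finset ℕ) (α : ℕ → ℝ) (K M p : ℕ) (k γ : ℝ) (hp : p.Prime)
    (hpP : P < p ∧ p ≤ 2 * P) (hK : |(K : ℝ) * p - M * P| ≤ c * P) (hk : nz (p * γ - k) ≤ η') (hD : 0 ≤ D) (hc : 0 ≤ c)
    (t : ℕ × ℕ) (ht : t ∈ DS P j D τ F α (K, k)) :
    (p * t.1, t.2) ∈ DS P (j + 1) (2 * D + c) ((2 * P) ^ j * η' + τ) F α (M, γ) := by
  rw [mem_DS] at ht ⊢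
  obtain ⟨h1, h2, h3, h4, h5, h6⟩ := ht
  obtain ⟨a, i⟩ := t
  simp only at h1 h2 h3 h4 h5 h6 ⊢
  have hp0 : (0 : ℝ) ≤ (p : ℝ) := Nat.cast_nonneg p
  have hPj : (0 : ℝ) ≤ (P : ℝ) ^ j := by positivity
  have hp2' : (p : ℝ) ≤ 2 * P := by exact_mod_cast hpP.2
  refine ⟨?_, ?_, h3, ?_, ?_, ?_⟩
  · rw [pow_succ, mul_comm]
    exact Nat.mul_le_mul hpP.1.le h1
  · rw [pow_succ, mul_comm]
    exact Nat.mul_le_mul h2 hpP.2
  · intro q hq hqd
    rcases (hq.dvd_mul).1 hqd with h | h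
    · rw [(Nat.prime_dvd_prime_iff_eq hq hp).1 h]
      exact hpP.1
    · exact h4 q hq h
  · push_cast
    have e : (i : ℝ) * (p * a) - M * (P : ℝ) ^ (j + 1) =
        p * (i * a - K * (P : ℝ) ^ j) + (P : ℝ) ^ j * (K * p - M * P) := by
      ring
    rw [e]
    refine (abs_add_le _ _).trans ?_
    rw [abs_mul, abs_mul, abs_of_nonneg hp0, abs_of_nonneg hPj]
    have b1 : (p : ℝ) * |(i : ℝ) * a - K * (P : ℝ) ^ j| ≤ (2 * P) * (D * (P : ℝ) ^ j) :=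
      mul_le_mul hp2' h5 (abs_nonneg _) (by positivity)
    have b2 : (P : ℝ) ^ j * |(K : ℝ) * p - M * P| ≤ (P : ℝ) ^ j * (c * P) :=
      mul_le_mul_of_nonneg_left hK hPj
    have e2 : (2 * D + c) * (P : ℝ) ^ (j + 1) = (2 * P) * (D * (P : ℝ) ^ j) + (P : ℝ) ^ j * (c * P) := by
      ring
    rw [e2]
    exact add_le_add b1 b2
  · push_cast
    have e : (p : ℝ) * a * γ - α i = (a : ℝ) * (p * γ - k) + (a * k - α i) := by
      ring
    rw [e]
    refine (Pool.Agent.H53.MID.nz_add _ _).trans ?_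
    have b1 : nz ((a : ℝ) * (p * γ - k)) ≤ (2 * (P : ℝ)) ^ j * η' := by
      refine (Pool.Agent.H53.MID.nz_nat_mul a _).trans ?_
      have h2' : (a : ℝ) ≤ (2 * (P : ℝ)) ^ j := by exact_mod_cast h2
      exact mul_le_mul h2' hk (Pool.Agent.H53.MID.nz_nonneg _) (by positivity)
    exact add_le_add b1 h6

end Pool.Agent.H74.MDX

end

section

/-!
# MDX Weak: a frequency compatible with many vertices has many descendants

Proof.  For every `K` choose `k(K)` such that `(K, k(K)) ∈ V` and the number of the `u ∈ U` with `u.2 = (K, k(K))` is maximal; as at most `m` elements of `V` have the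
first coordinate `K` (`hmult`), the set `U' = {u ∈ U : u.2.2 = k(u.2.1)}` has at least `|U|/m` elements, and `u ∈ U'` is determined by `(u.1, u.2.1)`.
`Q` = sigma type over `u ∈ U'` of `DS P j D τ F α u.2` (each at least `μ P^j` elements, so `|Q| ≥ |U| μ P^j/m`); the map `(u, (a, i)) ↦ (u.1 a, i)` goes to
`DS P (j+1) D1 τ1 F α (M, w)` (`DS_step`, `DS_mono`).  Fibres: given `(a', i)`: `u.1` is a prime `> P` dividing `a' ≤ (2P)^(j+1) < P^(j+2)` (`2^(j+1) < P`): at most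
`j+1` values; given `u.1 = p`: `a = a'/p` and `|K p - M P| ≤ c P` leaves at most `2c+1` values of `K`.  (Same as `chain_step` in `Pool/Agent/H53/MID/Chain.lean`; its
private lemmas `Chain_cardK`, `Chain_cardP` can be copied.)
-/

set_option autoImplicit false

namespace Pool.Agent.H74.MDX

open Finset
open Pool.Agent.H53.MID (nz Rel Desc)

/-- the number of the indices at a bounded distance -/
private theorem Weak_cardK {C X : ℝ} {p P : ℕ} (hC : 0 ≤ C) (hP : 0 < P) (hp : P < p)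
    (U : Finset ℕ) (hU : ∀ K ∈ U, |(K : ℝ) * p - X| ≤ C * P) :
    U.card ≤ ⌊2 * C⌋₊ + 1 := by
  rcases U.eq_empty_or_nonempty with h0 | hne
  · rw [h0]
    simp
  · obtain ⟨a, ha⟩ : ∃ a, a = U.min' hne := ⟨_, rfl⟩
    have haU : a ∈ U := by
      rw [ha]
      exact Finset.min'_mem _ _
    have hsub : U ⊆ Finset.Icc a (a + ⌊2 * C⌋₊) := by
      intro K hK
      have h1 : a ≤ K := by
        rw [ha]
        exact Finset.min'_le _ _ hK
      rw [Finset.mem_Icc]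
      refine ⟨h1, ?_⟩
      have h2 := hU K hK
      have h3 := hU a haU
      rw [abs_le] at h2 h3
      have hP0 : (0 : ℝ) < P := by exact_mod_cast hP
      have hpP : (P : ℝ) < p := by exact_mod_cast hp
      have h4 : ((K : ℝ) - a) * p ≤ 2 * C * P := by linarith [h2.2, h3.1]
      have h5 : (K : ℝ) - a ≤ 2 * C := by
        by_contra hcon
        push Not at hcon
        have h6 : 2 * C * p < ((K : ℝ) - a) * p :=
          mul_lt_mul_of_pos_right hcon (hP0.trans hpP)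
        have h7 : 2 * C * P ≤ 2 * C * p := mul_le_mul_of_nonneg_left hpP.le (by linarith)
        linarith
      have h8 : ((K - a : ℕ) : ℝ) ≤ 2 * C := by
        rw [Nat.cast_sub h1]
        exact h5
      have h9 : K - a ≤ ⌊2 * C⌋₊ := Nat.le_floor h8
      omega
    refine (Finset.card_le_card hsub).trans ?_
    rw [Nat.card_Icc]
    omega

/-- the number of the large prime factors -/
private theorem Weak_cardP {P j N : ℕ} (hP : 2 ^ (j + 1) < P) (hN : 0 < N)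
    (hN2 : N ≤ (2 * P) ^ (j + 1)) (B : Finset ℕ)
    (hB : ∀ p ∈ B, p.Prime ∧ P < p ∧ p ∣ N) : B.card ≤ j + 1 := by
  have hP0 : 0 < P := lt_of_le_of_lt (Nat.zero_le _) hP
  have h1 : ∏ p ∈ B, p ∣ N :=
    Finset.prod_primes_dvd N (fun p hp => (hB p hp).1.prime) fun p hp => (hB p hp).2.2
  have h2 : ∏ p ∈ B, p ≤ N := Nat.le_of_dvd hN h1
  have h3 : P ^ B.card ≤ ∏ p ∈ B, p := Finset.pow_card_le_prod _ _ _ fun p hp => (hB p hp).2.1.le
  have h5 : (2 * P) ^ (j + 1) < P ^ (j + 2) := by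
    rw [mul_pow, pow_succ P (j + 1), mul_comm (P ^ (j + 1)) P]
    exact Nat.mul_lt_mul_of_pos_right hP (pow_pos hP0 _)
  have h6 : P ^ B.card < P ^ (j + 2) := lt_of_le_of_lt (h3.trans (h2.trans hN2)) h5
  have h7 : 1 < P := lt_of_le_of_lt Nat.one_le_two_pow hP
  have h8 := (Nat.pow_lt_pow_iff_right h7).mp h6
  omega

open Classical in
theorem weak (P j : ℕ) (c D D1 τ τ1 η' μ m w : ℝ) (F : Finset ℕ) (α : ℕ → ℝ) (M : ℕ) (V : Finset (ℕ × ℝ))
    (U : Finset (ℕ × ℕ × ℝ)) (hP : 2 ^ (j + 1) < P) (hc : 0 ≤ c) (hD : 0 ≤ D) (hμ : 0 ≤ μ) (hm : 1 ≤ m)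
    (hU : U ⊆ VX c P V M) (hUn : ∀ u ∈ U, nz (u.1 * w - u.2.2) ≤ η')
    (hV : ∀ v ∈ V, μ * (P : ℝ) ^ j ≤ ((DS P j D τ F α v).card : ℝ))
    (hmult : ∀ K : ℕ, ((V.filter (fun v => v.1 = K)).card : ℝ) ≤ m)
    (hD1 : 2 * D + c ≤ D1) (hτ1 : (2 * (P : ℝ)) ^ j * η' + τ ≤ τ1) :
    U.card * (μ * (P : ℝ) ^ j) / (m * ((j + 1) * (2 * c + 1))) ≤ ((DS P (j + 1) D1 τ1 F α (M, w)).card : ℝ) := by
  classical
  have hP0 : 0 < P := lt_of_le_of_lt (Nat.zero_le _) hP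
  have hP0' : (0 : ℝ) < P := by exact_mod_cast hP0
  set f : (Σ _ : ℕ × ℕ × ℝ, ℕ × ℕ) → ℕ × ℕ := fun x => (x.1.1 * x.2.1, x.2.2) with hf
  set Q : Finset (Σ _ : ℕ × ℕ × ℝ, ℕ × ℕ) := U.sigma fun u => DS P j D τ F α u.2 with hQ
  have key : ∀ x ∈ Q, x.1 ∈ U ∧ x.2 ∈ DS P j D τ F α x.1.2 := by
    intro x hx
    rw [hQ, Finset.mem_sigma] at hx
    exact hx
  have himg : Q.image f ⊆ DS P (j + 1) D1 τ1 F α (M, w) := by
    intro t ht
    rw [Finset.mem_image] at ht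
    obtain ⟨x, hx, rfl⟩ := ht
    obtain ⟨hxU, hxS⟩ := key x hx
    have hv := mem_VX.1 (hU hxU)
    have h1 := DS_step P j c D τ η' F α x.1.2.1 M x.1.1 x.1.2.2 w hv.2.1 hv.1 hv.2.2.2 (hUn _ hxU)
      hD hc x.2 hxS
    exact DS_mono P (j + 1) _ _ _ _ F α (M, w) hD1 hτ1 h1
  -- the fibres
  have hfib : ∀ a ∈ Q.image f, (Q.filter fun x => f x = a).card ≤
      (⌊m⌋₊ * (⌊2 * c⌋₊ + 1)) * (j + 1) := by
    intro a ha
    have haD := mem_DS.1 (himg ha)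
    have ha0 : 0 < a.1 := lt_of_lt_of_le (pow_pos hP0 (j + 1)) haD.1
    set G : Finset (ℕ × ℕ × ℝ) := (Q.filter fun x => f x = a).image fun x => x.1 with hG
    have hcard : (Q.filter fun x => f x = a).card = G.card := by
      rw [hG, Finset.card_image_of_injOn]
      intro x hx y hy hxy
      rw [Finset.mem_coe, Finset.mem_filter] at hx hy
      have hxy' : x.1 = y.1 := hxy
      have hp : 0 < x.1.1 := hP0.trans (mem_VX.1 (hU (key x hx.1).1)).1.1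
      have e1 : x.1.1 * x.2.1 = a.1 := congrArg Prod.fst hx.2
      have e2 : y.1.1 * y.2.1 = a.1 := congrArg Prod.fst hy.2
      have e3 : (f x).2 = a.2 := by rw [hx.2]
      have e4 : (f y).2 = a.2 := by rw [hy.2]
      have e5 : x.2.1 = y.2.1 := by
        rw [← hxy', ← e1] at e2
        exact (Nat.eq_of_mul_eq_mul_left hp e2).symm
      have e6 : x.2 = y.2 := Prod.ext e5 (e3.trans e4.symm)
      exact Sigma.ext hxy' (heq_of_eq e6)
    have hGmem : ∀ t ∈ G, t ∈ U ∧ t.1 ∣ a.1 := by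
      intro t ht
      rw [hG, Finset.mem_image] at ht
      obtain ⟨x, hx, rfl⟩ := ht
      rw [Finset.mem_filter] at hx
      exact ⟨(key x hx.1).1, ⟨x.2.1, (congrArg Prod.fst hx.2).symm⟩⟩
    have h1 : G.card ≤ (⌊m⌋₊ * (⌊2 * c⌋₊ + 1)) * (G.image Prod.fst).card := by
      refine Finset.card_le_mul_card_image G _ fun p hp => ?_
      have hp' := hp
      rw [Finset.mem_image] at hp'
      obtain ⟨t0, ht0, ht0p⟩ := hp'
      have hPp : P < p := by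
        rw [← ht0p]
        exact (mem_VX.1 (hU (hGmem t0 ht0).1)).1.1
      have hinj : (G.filter fun x => Prod.fst x = p).card =
          ((G.filter fun x => Prod.fst x = p).image Prod.snd).card := by
        rw [Finset.card_image_of_injOn]
        intro x hx y hy hxy
        rw [Finset.mem_coe, Finset.mem_filter] at hx hy
        exact Prod.ext (hx.2.trans hy.2.symm) hxy
      rw [hinj]
      obtain ⟨W, hW⟩ : ∃ W, W = (G.filter fun x => Prod.fst x = p).image Prod.snd := ⟨_, rfl⟩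
      rw [← hW]
      have hWmem : ∀ v ∈ W, v ∈ V ∧ |(v.1 : ℝ) * p - (M : ℝ) * P| ≤ c * P := by
        intro v hv
        rw [hW, Finset.mem_image] at hv
        obtain ⟨t, ht, rfl⟩ := hv
        rw [Finset.mem_filter] at ht
        have := mem_VX.1 (hU (hGmem t ht.1).1)
        refine ⟨this.2.2.1, ?_⟩
        rw [← ht.2]
        exact this.2.2.2
      have h2 : W.card ≤ ⌊m⌋₊ * (W.image Prod.fst).card := by
        refine Finset.card_le_mul_card_image W _ fun K _ => ?_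
        have h3 : ((W.filter fun x => Prod.fst x = K).card : ℝ) ≤ m := by
          refine le_trans ?_ (hmult K)
          refine Nat.cast_le.2 (Finset.card_le_card fun v hv => ?_)
          rw [Finset.mem_filter] at hv ⊢
          exact ⟨(hWmem v hv.1).1, hv.2⟩
        exact Nat.le_floor h3
      have h3 : (W.image Prod.fst).card ≤ ⌊2 * c⌋₊ + 1 := by
        refine Weak_cardK (X := (M : ℝ) * P) hc hP0 hPp _ fun K hK => ?_
        rw [Finset.mem_image] at hK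
        obtain ⟨v, hv, rfl⟩ := hK
        exact (hWmem v hv).2
      exact h2.trans (Nat.mul_le_mul_left _ h3)
    have h2 : (G.image Prod.fst).card ≤ j + 1 := by
      refine Weak_cardP hP ha0 haD.2.1 _ fun p hp => ?_
      rw [Finset.mem_image] at hp
      obtain ⟨t, ht, rfl⟩ := hp
      obtain ⟨htU, htd⟩ := hGmem t ht
      have := mem_VX.1 (hU htU)
      exact ⟨this.2.1, this.1.1, htd⟩
    rw [hcard]
    exact h1.trans (Nat.mul_le_mul_left _ h2)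
  have hcardQ : Q.card ≤ ((⌊m⌋₊ * (⌊2 * c⌋₊ + 1)) * (j + 1)) * (Q.image f).card :=
    Finset.card_le_mul_card_image Q _ hfib
  have hQc : (U.card : ℝ) * (μ * (P : ℝ) ^ j) ≤ Q.card := by
    rw [hQ, Finset.card_sigma]
    push_cast
    calc (U.card : ℝ) * (μ * (P : ℝ) ^ j) = ∑ _t ∈ U, μ * (P : ℝ) ^ j := by
          rw [Finset.sum_const, nsmul_eq_mul]
      _ ≤ ∑ t ∈ U, ((DS P j D τ F α t.2).card : ℝ) :=
          Finset.sum_le_sum fun t ht => hV _ (mem_VX.1 (hU ht)).2.2.1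
  have hC2 : ((⌊2 * c⌋₊ : ℕ) : ℝ) ≤ 2 * c := Nat.floor_le (by linarith)
  have hm2 : ((⌊m⌋₊ : ℕ) : ℝ) ≤ m := Nat.floor_le (by linarith)
  have hj0 : (0 : ℝ) ≤ j := Nat.cast_nonneg j
  have hm0 : 0 < m := by linarith
  have hpos : (0 : ℝ) < m * ((j + 1) * (2 * c + 1)) := by positivity
  rw [div_le_iff₀ hpos]
  have h3 : (Q.card : ℝ) ≤ ((⌊m⌋₊ : ℝ) * ((⌊2 * c⌋₊ : ℝ) + 1)) * (j + 1) * (Q.image f).card := by
    exact_mod_cast hcardQ
  have h5 : ((⌊m⌋₊ : ℝ) * ((⌊2 * c⌋₊ : ℝ) + 1)) ≤ m * (2 * c + 1) :=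
    mul_le_mul hm2 (by linarith) (by positivity) hm0.le
  have h4 : ((⌊m⌋₊ : ℝ) * ((⌊2 * c⌋₊ : ℝ) + 1)) * (j + 1) * (Q.image f).card ≤
      (m * (2 * c + 1)) * (j + 1) * (DS P (j + 1) D1 τ1 F α (M, w)).card := by
    refine mul_le_mul (mul_le_mul_of_nonneg_right h5 (by linarith)) ?_ (Nat.cast_nonneg _)
      (by positivity)
    exact_mod_cast Finset.card_le_card himg
  calc (U.card : ℝ) * (μ * (P : ℝ) ^ j) ≤ Q.card := hQc
    _ ≤ _ := h3
    _ ≤ _ := h4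
    _ = ((DS P (j + 1) D1 τ1 F α (M, w)).card : ℝ) * (m * ((j + 1) * (2 * c + 1))) := by ring

end Pool.Agent.H74.MDX

end

section

/-!
# MDX DsInt: the total number of descendants, and intersections

`ds_tot`: `a ∈ [P^j, (2P)^j]` takes at most `(2P)^j - P^j + 1 ≤ (2P)^j` values and for each `a ≥ P^j` there are at most `2D+1` values `i` with `|i a - M P^j| ≤ D P^j`
(`|i - M P^j/a| ≤ D`, `int_card`).
`ds_int`: let `S` be the set of the first coordinates of the intersection.  The intersection has at most `(2D+1) |S|` elements (as before), so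
`|S| > 5 X/P`, `X = (2P)^(j+1)`.  For `a ∈ S`: `nz (a (γ - γ')) ≤ 2τ` (`nz_sub`/`nz_triangle`, both `a γ` and `a γ'` are within `τ` of `α i`).  Apply `nd_rough` with `Y = P^(j+1)`,
`t = 2τ`, `φ = γ - γ'`: `4 t P = 8 τ P < 3`, `10 t X + 3 X/P + 3 ≤ X/(2P) + 3X/P + (3/2) X/P = 5 X/P` (`40 τ P ≤ 1`, `X/P ≥ 2`).
-/

set_option autoImplicit false

namespace Pool.Agent.H74.MDX

open Finset
open Pool.Agent.H53.MID (nz nz_sub Rel Desc)

private theorem DsInt_fib (P j M : ℕ) (D : ℝ) (U : Finset (ℕ × ℕ)) (hP : 1 ≤ P) (hD : 0 ≤ D)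
    (hU : ∀ t ∈ U, P ^ j ≤ t.1 ∧ |(t.2 : ℝ) * t.1 - M * (P : ℝ) ^ j| ≤ D * (P : ℝ) ^ j) :
    (U.card : ℝ) ≤ (2 * D + 1) * ((U.image Prod.fst).card : ℝ) := by
  have hP0 : (0 : ℝ) < (P : ℝ) ^ j := by
    have : (0 : ℝ) < P := by exact_mod_cast hP
    positivity
  have h1 : U.card = ∑ a ∈ U.image Prod.fst, (U.filter (fun t => t.1 = a)).card :=
    Finset.card_eq_sum_card_fiberwise (fun t ht => Finset.mem_image_of_mem _ ht)
  have h2 : ∀ a ∈ U.image Prod.fst, ((U.filter (fun t => t.1 = a)).card : ℝ) ≤ 2 * D + 1 := by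
    intro a ha
    obtain ⟨t0, ht0, rfl⟩ := Finset.mem_image.1 ha
    have ha1 : (P : ℝ) ^ j ≤ (t0.1 : ℝ) := by exact_mod_cast (hU t0 ht0).1
    have ha0 : (0 : ℝ) < (t0.1 : ℝ) := lt_of_lt_of_le hP0 ha1
    have h3 : (U.filter (fun t => t.1 = t0.1)).card = ((U.filter (fun t => t.1 = t0.1)).image Prod.snd).card := by
      rw [Finset.card_image_of_injOn]
      intro x hx y hy hxy
      have hx1 := (Finset.mem_filter.1 (Finset.mem_coe.1 hx)).2
      have hy1 := (Finset.mem_filter.1 (Finset.mem_coe.1 hy)).2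
      exact Prod.ext (hx1.trans hy1.symm) hxy
    rw [h3]
    refine int_card _ (M * (P : ℝ) ^ j / t0.1) D hD ?_
    intro k hk
    obtain ⟨t, ht, rfl⟩ := Finset.mem_image.1 hk
    obtain ⟨ht1, ht2⟩ := Finset.mem_filter.1 ht
    have h4 := (hU t ht1).2
    rw [ht2] at h4
    have h5 : (t.2 : ℝ) - M * (P : ℝ) ^ j / t0.1 = ((t.2 : ℝ) * t0.1 - M * (P : ℝ) ^ j) / t0.1 := by
      field_simp
    rw [h5, abs_div, abs_of_pos ha0, div_le_iff₀ ha0]
    refine h4.trans ?_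
    exact mul_le_mul_of_nonneg_left ha1 hD
  rw [h1]
  push_cast
  refine (Finset.sum_le_sum h2).trans (le_of_eq ?_)
  rw [Finset.sum_const, nsmul_eq_mul]
  ring

theorem ds_tot (P j M : ℕ) (D : ℝ) (U : Finset (ℕ × ℕ)) (hP : 1 ≤ P) (hD : 0 ≤ D)
    (hU : ∀ t ∈ U, P ^ j ≤ t.1 ∧ t.1 ≤ (2 * P) ^ j ∧ |(t.2 : ℝ) * t.1 - M * (P : ℝ) ^ j| ≤ D * (P : ℝ) ^ j) :
    (U.card : ℝ) ≤ (2 * D + 1) * (2 * P) ^ j := by
  have h1 := DsInt_fib P j M D U hP hD (fun t ht => ⟨(hU t ht).1, (hU t ht).2.2⟩)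
  have h2 : (U.image Prod.fst) ⊆ Icc (P ^ j) ((2 * P) ^ j) := by
    intro a ha
    obtain ⟨t, ht, rfl⟩ := Finset.mem_image.1 ha
    exact Finset.mem_Icc.2 ⟨(hU t ht).1, (hU t ht).2.1⟩
  have h3 := Finset.card_le_card h2
  rw [Nat.card_Icc] at h3
  have h4 : 1 ≤ P ^ j := Nat.one_le_pow _ _ hP
  have h5 : (U.image Prod.fst).card ≤ (2 * P) ^ j := by omega
  have h6 : ((U.image Prod.fst).card : ℝ) ≤ (2 * P) ^ j := by exact_mod_cast h5
  exact h1.trans (mul_le_mul_of_nonneg_left h6 (by linarith))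

open Classical in
theorem ds_int (P j M : ℕ) (D τ : ℝ) (F : Finset ℕ) (α : ℕ → ℝ) (γ γ' : ℝ) (hP : 1 ≤ P) (hD : 0 ≤ D) (hτ : 0 ≤ τ)
    (hτP : 40 * τ * P ≤ 1)
    (h : 5 * (2 * D + 1) * (2 * P) ^ (j + 1) / P <
      ((DS P (j + 1) D τ F α (M, γ) ∩ DS P (j + 1) D τ F α (M, γ')).card : ℝ)) :
    nz (γ - γ') ≤ 2 * τ / (P : ℝ) ^ (j + 1) := by
  set U := DS P (j + 1) D τ F α (M, γ) ∩ DS P (j + 1) D τ F α (M, γ') with hUdef
  have hPr : (0 : ℝ) < P := by exact_mod_cast hP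
  have hP1 : (1 : ℝ) ≤ P := by exact_mod_cast hP
  have hU : ∀ t ∈ U, t ∈ DS P (j + 1) D τ F α (M, γ) ∧ t ∈ DS P (j + 1) D τ F α (M, γ') := by
    intro t ht
    exact Finset.mem_inter.1 ht
  have h1 := DsInt_fib P (j + 1) M D U hP hD (fun t ht =>
    ⟨(mem_DS.1 (hU t ht).1).1, (mem_DS.1 (hU t ht).1).2.2.2.2.1⟩)
  have hD1 : 0 < 2 * D + 1 := by linarith
  have hX : (1 : ℝ) ≤ (2 * (P : ℝ)) ^ j := one_le_pow₀ (by linarith)
  have hX2 : (2 * (P : ℝ)) ^ (j + 1) = (2 * (P : ℝ)) ^ j * (2 * P) := pow_succ _ _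
  have hXP : (2 * (P : ℝ)) ^ (j + 1) / P = 2 * (2 * (P : ℝ)) ^ j := by
    rw [hX2]
    field_simp
  have h2 : 5 * ((2 * (P : ℝ)) ^ (j + 1) / P) < ((U.image Prod.fst).card : ℝ) := by
    have h3 := h.trans_le h1
    have h4 : 5 * (2 * D + 1) * (2 * (P : ℝ)) ^ (j + 1) / P = (2 * D + 1) * (5 * ((2 * (P : ℝ)) ^ (j + 1) / P)) := by
      ring
    rw [h4] at h3
    exact lt_of_mul_lt_mul_left h3 hD1.le
  have h5 := nd_rough P ((2 * P) ^ (j + 1)) (P ^ (j + 1)) (2 * τ) (γ - γ') (U.image Prod.fst) hP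
    (Nat.one_le_pow _ _ hP) (Nat.one_le_pow _ _ (by omega)) (by linarith) (by nlinarith)
    (by
      intro a ha
      obtain ⟨t, ht, rfl⟩ := Finset.mem_image.1 ha
      exact ⟨(mem_DS.1 (hU t ht).1).1, (mem_DS.1 (hU t ht).1).2.1⟩)
    (by
      intro a ha
      obtain ⟨t, ht, rfl⟩ := Finset.mem_image.1 ha
      exact (mem_DS.1 (hU t ht).1).2.2.2.1)
    (by
      intro a ha
      obtain ⟨t, ht, rfl⟩ := Finset.mem_image.1 ha
      have h6 := (mem_DS.1 (hU t ht).1).2.2.2.2.2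
      have h7 := (mem_DS.1 (hU t ht).2).2.2.2.2.2
      have h8 : (t.1 : ℝ) * (γ - γ') = (t.1 * γ - α t.2) - (t.1 * γ' - α t.2) := by ring
      rw [h8]
      refine (nz_sub _ _).trans ?_
      simp only at h6 h7
      linarith)
    (by
      push_cast
      rw [mul_div_assoc, hXP]
      rw [hXP] at h2
      have h9 : 10 * (2 * τ) * (2 * (P : ℝ)) ^ (j + 1) ≤ (2 * (P : ℝ)) ^ j := by
        rw [hX2]
        have h10 : 10 * (2 * τ) * ((2 * (P : ℝ)) ^ j * (2 * P)) = (40 * τ * P) * (2 * (P : ℝ)) ^ j := by ring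
        rw [h10]
        have h11 := mul_le_mul_of_nonneg_right hτP (by linarith : (0 : ℝ) ≤ (2 * (P : ℝ)) ^ j)
        linarith
      linarith)
  push_cast at h5
  exact h5

end Pool.Agent.H74.MDX

end

section

/-!
# MID Gal: short sums from the Fourier side (discrete)

Proof.  `D(z) = ∑_{z < m ≤ z+W} c m` (`z ∈ ℤ`, `m ∈ [1,X]`) is the `z`-th coefficient of `S(y) K(y)`, `S(y) = ∑ c m ee(m y)`, `K(y) = ∑_{j=1}^W ee(-j y)`.  Parseval on `[-1/2, 1/2]` (compare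
`Pool.Agent.H91.PK.LSa_parseval` in `H91/PK/LSa.lean`): `∑_z ‖D z‖^2 = ∫_{-1/2}^{1/2} ‖S‖^2 ‖K‖^2`, the sum over all integers `z ∈ [-W, X]` (only finitely many `D z ≠ 0`); drop `z < 0`.
`‖K(y)‖ ≤ W` and `‖K(y)‖ ≤ 1/|sin π y| ≤ 1/(2|y|)` for `0 < |y| ≤ 1/2`.  So the integral is `≤ W^2 ∫_{|y| ≤ Y} ‖S‖^2 + (1/(4 Y^2)) ∫_{-1/2}^{1/2} ‖S‖^2` and the last integral is `∑ ‖c m‖^2`.
-/

set_option autoImplicit false

namespace Pool.Agent.H53.MID

open Finset MeasureTheory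
open Pool.Agent.H91.PK (ee)

private noncomputable def Gal_K (W : ℕ) (y : ℝ) : ℂ := ∑ i ∈ range W, ee (((i : ℝ) - W) * y)

private theorem Gal_K_norm (W : ℕ) (y : ℝ) : ‖Gal_K W y‖ = ‖Pool.Agent.H92.EH.D W y‖ := by
  have h : Gal_K W y = ee (-(W * y)) * Pool.Agent.H92.EH.D W y := by
    unfold Gal_K Pool.Agent.H92.EH.D
    rw [Finset.mul_sum]
    refine Finset.sum_congr rfl fun i _ => ?_
    have h1 : Pool.Agent.H92.EH.e (i * y) = ee (i * y) := by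
      unfold Pool.Agent.H91.PK.ee Pool.Agent.H92.EH.e
      congr 1
      push_cast
      ring
    rw [h1, ← Pool.Agent.H91.PK.LSa_ee_add]
    congr 1
    ring
  rw [h, norm_mul, Pool.Agent.H91.PK.LSa_norm_ee, one_mul]

private theorem Gal_cont (x : ℝ) : Continuous (fun y : ℝ => ee (x * y)) := by
  unfold ee
  fun_prop

private noncomputable def Gal_b (X W : ℕ) (c : ℕ → ℂ) (n : ℕ) : ℂ :=
  ∑ m ∈ (Icc 1 X).filter (fun m => m ≤ n ∧ n < m + W), c m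

private theorem Gal_conv (X W : ℕ) (c : ℕ → ℂ) (y : ℝ) :
    (∑ m ∈ Icc 1 X, c m * ee (m * y)) * Gal_K W y =
      ∑ n ∈ range (X + W), Gal_b X W c n * ee (((n : ℝ) - W) * y) := by
  have h1 : ∑ n ∈ range (X + W), Gal_b X W c n * ee (((n : ℝ) - W) * y) =
      ∑ n ∈ range (X + W), ∑ m ∈ Icc 1 X, if (m ≤ n ∧ n < m + W) then c m * ee (((n : ℝ) - W) * y) else 0 := by
    refine Finset.sum_congr rfl fun n _ => ?_
    unfold Gal_b
    rw [Finset.sum_mul, Finset.sum_filter]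
  rw [h1, Finset.sum_comm, Finset.sum_mul]
  refine Finset.sum_congr rfl fun m hm => ?_
  rw [Finset.mem_Icc] at hm
  rw [← Finset.sum_filter]
  have h2 : (range (X + W)).filter (fun n => m ≤ n ∧ n < m + W) = Ico m (m + W) := by
    ext n
    simp only [Finset.mem_filter, Finset.mem_range, Finset.mem_Ico]
    omega
  rw [h2, Finset.sum_Ico_eq_sum_range]
  have h3 : m + W - m = W := by omega
  rw [h3]
  unfold Gal_K
  rw [mul_assoc, Finset.mul_sum, Finset.mul_sum]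
  refine Finset.sum_congr rfl fun i _ => ?_
  rw [← Pool.Agent.H91.PK.LSa_ee_add]
  congr 2
  push_cast
  ring

theorem gal (X W : ℕ) (c : ℕ → ℂ) (Y : ℝ) (hY : 0 < Y) (hY1 : Y ≤ 1 / 2) :
    ∑ z ∈ range X, ‖∑ m ∈ (Icc 1 X).filter (fun m => z < m ∧ m ≤ z + W), c m‖ ^ 2 ≤
      (W : ℝ) ^ 2 * (∫ y in Set.Icc (-Y) Y, ‖∑ m ∈ Icc 1 X, c m * ee (m * y)‖ ^ 2)
        + 1 / Y ^ 2 * ∑ m ∈ Icc 1 X, ‖c m‖ ^ 2 := by
  have h1 : ∑ z ∈ range X, ‖∑ m ∈ (Icc 1 X).filter (fun m => z < m ∧ m ≤ z + W), c m‖ ^ 2 ≤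
      ∑ n ∈ range (X + W), ‖Gal_b X W c n‖ ^ 2 := by
    have e1 : ∀ z ∈ range X, ‖∑ m ∈ (Icc 1 X).filter (fun m => z < m ∧ m ≤ z + W), c m‖ ^ 2 =
        ‖Gal_b X W c (z + W)‖ ^ 2 := by
      intro z _
      unfold Gal_b
      have e2 : (Icc 1 X).filter (fun m => z < m ∧ m ≤ z + W) =
          (Icc 1 X).filter (fun m => m ≤ z + W ∧ z + W < m + W) := by
        ext m
        simp only [Finset.mem_filter, Finset.mem_Icc]
        omega
      rw [e2]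
    rw [Finset.sum_congr rfl e1, ← Finset.sum_image (f := fun n => ‖Gal_b X W c n‖ ^ 2) (g := fun z => z + W)
      (fun a _ b _ hab => Nat.add_right_cancel hab)]
    refine Finset.sum_le_sum_of_subset_of_nonneg ?_ fun _ _ _ => by positivity
    intro n hn
    rw [Finset.mem_image] at hn
    obtain ⟨z, hz, rfl⟩ := hn
    rw [Finset.mem_range] at hz ⊢
    omega
  refine h1.trans ?_
  have hS : Continuous (fun y : ℝ => ∑ m ∈ Icc 1 X, c m * ee (m * y)) :=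
    continuous_finsetSum _ fun m _ => continuous_const.mul (Gal_cont _)
  have hK : Continuous (fun y : ℝ => Gal_K W y) := by
    unfold Gal_K
    exact continuous_finsetSum _ fun m _ => Gal_cont _
  have hS2 : Continuous (fun y : ℝ => ‖∑ m ∈ Icc 1 X, c m * ee (m * y)‖ ^ 2) := hS.norm.pow 2
  rw [← Pool.Agent.H91.PK.LSa_parseval (range (X + W)) (Gal_b X W c) W (-1 / 2)]
  simp_rw [← Gal_conv]
  have h2 : ∑ m ∈ Icc 1 X, ‖c m‖ ^ 2 = ∫ y in (-1 / 2 : ℝ)..(-1 / 2 + 1), ‖∑ m ∈ Icc 1 X, c m * ee (m * y)‖ ^ 2 := by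
    rw [← Pool.Agent.H91.PK.LSa_parseval (Icc 1 X) c 0 (-1 / 2)]
    simp_rw [sub_zero]
  rw [h2]
  have e3 : (-1 / 2 + 1 : ℝ) = 1 / 2 := by norm_num
  rw [e3, intervalIntegral.integral_of_le (by norm_num), intervalIntegral.integral_of_le (by norm_num)]
  have hpt : ∀ y ∈ Set.Ioc (-1 / 2 : ℝ) (1 / 2), ‖(∑ m ∈ Icc 1 X, c m * ee (m * y)) * Gal_K W y‖ ^ 2 ≤
      (Set.Icc (-Y) Y).indicator (fun y => (W : ℝ) ^ 2 * ‖∑ m ∈ Icc 1 X, c m * ee (m * y)‖ ^ 2) y +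
        1 / Y ^ 2 * ‖∑ m ∈ Icc 1 X, c m * ee (m * y)‖ ^ 2 := by
    intro y hy
    rw [norm_mul, mul_pow]
    by_cases h : y ∈ Set.Icc (-Y) Y
    · rw [Set.indicator_of_mem h]
      have h3 : ‖Gal_K W y‖ ≤ W := by
        rw [Gal_K_norm]
        exact Pool.Agent.H92.EH.norm_D_le_nat W y
      have h4 : ‖Gal_K W y‖ ^ 2 ≤ (W : ℝ) ^ 2 := pow_le_pow_left₀ (norm_nonneg _) h3 2
      have h5 : 0 ≤ 1 / Y ^ 2 * ‖∑ m ∈ Icc 1 X, c m * ee (m * y)‖ ^ 2 := by positivity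
      have h6 : ‖∑ m ∈ Icc 1 X, c m * ee (m * y)‖ ^ 2 * ‖Gal_K W y‖ ^ 2 ≤
          (W : ℝ) ^ 2 * ‖∑ m ∈ Icc 1 X, c m * ee (m * y)‖ ^ 2 := by
        rw [mul_comm]
        exact mul_le_mul_of_nonneg_right h4 (by positivity)
      linarith
    · rw [Set.indicator_of_notMem h, zero_add, mul_comm]
      refine mul_le_mul_of_nonneg_right ?_ (by positivity)
      have hlt : Y < |y| := by
        by_contra hcon
        push Not at hcon
        exact h ⟨by linarith [(abs_le.1 hcon).1], (abs_le.1 hcon).2⟩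
      have h3 : ∀ m : ℤ, Y ≤ |y - m| := by
        intro m
        by_cases hm : m = 0
        · rw [hm, Int.cast_zero, sub_zero]
          exact hlt.le
        · have h4 : (1 : ℝ) ≤ |(m : ℝ)| := by
            have := Int.one_le_abs hm
            exact_mod_cast this
          have h5 : |y| ≤ 1 / 2 := abs_le.2 ⟨by linarith [hy.1], hy.2⟩
          have h6 := abs_sub_abs_le_abs_sub (m : ℝ) y
          rw [abs_sub_comm] at h6
          linarith
      have h4 := Pool.Agent.H92.EH.norm_D_le W hY h3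
      rw [← Gal_K_norm] at h4
      have h5 : 1 / (2 * Y) ≤ 1 / Y := one_div_le_one_div_of_le hY (by linarith)
      have h6 : ‖Gal_K W y‖ ^ 2 ≤ (1 / Y) ^ 2 := pow_le_pow_left₀ (norm_nonneg _) (h4.trans h5) 2
      rwa [one_div_pow] at h6
  have hi1 : IntegrableOn (fun y => (Set.Icc (-Y) Y).indicator
      (fun y => (W : ℝ) ^ 2 * ‖∑ m ∈ Icc 1 X, c m * ee (m * y)‖ ^ 2) y) (Set.Ioc (-1 / 2 : ℝ) (1 / 2)) := by
    refine Integrable.integrableOn ?_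
    rw [integrable_indicator_iff measurableSet_Icc]
    exact (continuous_const.mul hS2).integrableOn_Icc
  have hi2 : IntegrableOn (fun y => 1 / Y ^ 2 * ‖∑ m ∈ Icc 1 X, c m * ee (m * y)‖ ^ 2)
      (Set.Ioc (-1 / 2 : ℝ) (1 / 2)) :=
    ((continuous_const.mul hS2).integrableOn_Icc).mono_set Set.Ioc_subset_Icc_self
  refine (setIntegral_mono_on ?_ (hi1.add hi2) measurableSet_Ioc hpt).trans ?_
  · exact (((hS.mul hK).norm.pow 2).integrableOn_Icc).mono_set Set.Ioc_subset_Icc_self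
  · rw [integral_add' hi1 hi2, integral_const_mul]
    refine add_le_add ?_ le_rfl
    rw [setIntegral_indicator measurableSet_Icc, ← integral_const_mul]
    refine setIntegral_mono_set ?_ ?_ ?_
    · exact (continuous_const.mul hS2).integrableOn_Icc
    · exact Filter.Eventually.of_forall fun y => by positivity
    · exact (Filter.Eventually.of_forall fun y (hy : y ∈ Set.Ioc (-1 / 2 : ℝ) (1 / 2) ∩ Set.Icc (-Y) Y) => hy.2)

end Pool.Agent.H53.MID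

end

section

/-!
# MID TypA: mean square of the short sums of `Fp (hR R) P`, `P ≥ L^b`, twisted by `ee(-m a/r)`

`c m = Fp (cut K1 K2 f) P m ee(-(m a/r))`, `X ≥ 2 P K2`, `D(z) = ∑_{z < m ≤ z+W} c m`.
Proof.  Reduce `a/r` to lowest terms (`r' ∣ r`, `r' ≤ L^B`).  `∑_{m ≤ X} c m ee(m y) = ∑_{p ∈ pb P} ∑_{k ∈ Ioc K1 K2} f k ee(-(p k a/r)) ee(p k y) = ∑_{l < r} ∑_{p ∈ pbl P r l} FF (cut K1 K2 f) K2 (-(l a)/r + p y)`
(`ee(-(p k a/r)) = ee(-(k l a/r))` for `p ≡ l (mod r)`).  For `gcd(l,r) > 1` there is no such prime (`p > P ≥ L^b > r`).  Otherwise `gcd(l a, r) = 1` and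
`∫_{|y| ≤ Y} ‖∑_{p ∈ pbl P r l} FF ..‖^2 = JJT (cut K1 K2 f) K2 (zs (pbl P r l)) (c/r) 0 Y`, `c = -(l a)` (in `JJT` the factor `ee(-(0 · k y)) = 1`; the sum over `zs` is the sum over the naturals `k` as integers) `≤ N/L^E'` by `JJp` with `(B, E') = (B, E + 2B + 2)`.
Cauchy-Schwarz over `l < r`: `∫ ≤ r^2 N/L^E' ≤ N/L^(E+2)`.
`∑_{m ≤ X} ‖c m‖^2 ≤ 4L ∑_{p ∈ pb P} ∑_k (cut f k)^2 ≤ 4 L P (K2+1) L^4 ≤ 256 N L^5` (number of primes dividing `m ≤ X ≤ 64N` is `≤ 4 L`; `hsq (B+1)`).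
`gal` with `Y = L^(E+4)/W`: `∑_z ‖D z‖^2 ≤ W^2 N/L^(E+2) + W^2 L^(-2E-8) 256 N L^5 ≤ W^2 N/L^E`.  Condition `P Y ≤ 1/L^(E'+13)`: `P L^(E + 4 + E' + 13) ≤ W` (hypothesis `P * L^b ≤ W` with `b` large); `Y ≤ 1/2` follows.
-/

set_option autoImplicit false

namespace Pool.Agent.H53.MID

open Finset MeasureTheory
open Pool.Agent.H91.PK (ee)
open Pool.Agent.H91.EHA (Lam hR lamR ramS)
open Pool.Agent.H35.W (pb pbl JJT zs)

private theorem TypA_swap {β : Type*} [AddCommMonoid β] (P X : ℕ) (F : ℕ → ℕ → β) :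
    ∑ m ∈ Icc 1 X, ∑ p ∈ (pb P).filter (fun p => p ∣ m), F m p =
      ∑ p ∈ pb P, ∑ m ∈ (Icc 1 X).filter (fun m => p ∣ m), F m p := by
  apply Finset.sum_comm'
  intro m p
  simp only [mem_filter]
  tauto

private theorem TypA_mult {β : Type*} [AddCommMonoid β] (X K2 p : ℕ) (hp : 0 < p)
    (hX : p * K2 ≤ X) (G : ℕ → ℕ → β) (hG : ∀ m k, K2 < k → G m k = 0) :
    ∑ m ∈ (Icc 1 X).filter (fun m => p ∣ m), G m (m / p) = ∑ k ∈ Icc 1 K2, G (p * k) k := by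
  have h1 : ∑ k ∈ Icc 1 K2, G (p * k) k =
      ∑ m ∈ (Icc 1 K2).image (fun k => p * k), G m (m / p) := by
    rw [Finset.sum_image]
    · refine Finset.sum_congr rfl ?_
      intro k _
      rw [Nat.mul_div_cancel_left k hp]
    · intro a _ b _ h
      exact Nat.eq_of_mul_eq_mul_left hp h
  rw [h1]
  symm
  apply Finset.sum_subset
  · intro m hm
    rw [Finset.mem_image] at hm
    obtain ⟨k, hk, rfl⟩ := hm
    rw [Finset.mem_Icc] at hk
    rw [Finset.mem_filter, Finset.mem_Icc]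
    refine ⟨⟨?_, ?_⟩, Dvd.intro k rfl⟩
    · exact Nat.mul_pos hp hk.1
    · exact (Nat.mul_le_mul_left p hk.2).trans hX
  · intro m hm hm'
    rw [Finset.mem_filter, Finset.mem_Icc] at hm
    obtain ⟨⟨h1, h2⟩, k, rfl⟩ := hm
    rw [Nat.mul_div_cancel_left k hp]
    apply hG
    by_contra hk
    apply hm'
    rw [Finset.mem_image]
    refine ⟨k, ?_, rfl⟩
    rw [Finset.mem_Icc]
    constructor
    · rcases Nat.eq_zero_or_pos k with h0 | h0
      · subst h0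
        simp at h1
      · exact h0
    · omega

private theorem TypA_pb {P p : ℕ} (h : p ∈ pb P) : P < p ∧ p ≤ 2 * P ∧ p.Prime := by
  unfold pb at h
  rw [Finset.mem_filter, Finset.mem_Ioc] at h
  exact ⟨h.1.1, h.1.2, h.2⟩

private theorem TypA_pb_card (P : ℕ) : (pb P).card ≤ P := by
  unfold pb
  refine (Finset.card_filter_le _ _).trans ?_
  rw [Nat.card_Ioc]
  omega

/-- the exponential sum of `Fp f P m ee(-(m θ))` -/
private theorem TypA_S (f : ℕ → ℝ) (P K2 X : ℕ) (hf : ∀ k, K2 < k → f k = 0)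
    (hX : 2 * P * K2 ≤ X) (θ y : ℝ) :
    ∑ m ∈ Icc 1 X, (Fp f P m : ℂ) * ee (-(m * θ)) * ee (m * y) =
      ∑ p ∈ pb P, Pool.Agent.H76.EHB.FF f K2 (p * (y - θ)) := by
  have h1 : ∀ m ∈ Icc 1 X, (Fp f P m : ℂ) * ee (-(m * θ)) * ee (m * y) =
      ∑ p ∈ (pb P).filter (fun p => p ∣ m), (f (m / p) : ℂ) * ee (m * (y - θ)) := by
    intro m _
    unfold Fp
    push_cast
    rw [mul_assoc, ← Pool.Agent.H91.PK.LSa_ee_add, Finset.sum_mul]
    refine Finset.sum_congr rfl ?_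
    intro p _
    congr 2
    ring
  rw [Finset.sum_congr rfl h1, TypA_swap]
  refine Finset.sum_congr rfl ?_
  intro p hp
  obtain ⟨hp1, hp2, hp3⟩ := TypA_pb hp
  have h2 := TypA_mult X K2 p hp3.pos ((Nat.mul_le_mul_right _ hp2).trans hX)
    (fun m k => (f k : ℂ) * ee (m * (y - θ))) (by
      intro m k hk
      rw [hf k hk]
      simp)
  rw [h2]
  unfold Pool.Agent.H76.EHB.FF
  refine Finset.sum_congr rfl ?_
  intro k _
  congr 2
  push_cast
  ring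

/-- splitting into reduced classes -/
private theorem TypA_split {P d : ℕ} (hd : 1 ≤ d) (hdP : d ≤ P) (G : ℕ → ℂ) :
    ∑ p ∈ pb P, G p = ∑ l ∈ (range d).filter (fun l => Nat.Coprime l d),
      ∑ p ∈ pbl P d (l : ℤ), G p := by
  have h1 : ∀ p ∈ pb P, p % d ∈ (range d).filter (fun l => Nat.Coprime l d) := by
    intro p hp
    obtain ⟨hp1, hp2, hp3⟩ := TypA_pb hp
    rw [Finset.mem_filter, Finset.mem_range]
    refine ⟨Nat.mod_lt _ hd, ?_⟩
    have h2 : Nat.Coprime p d := by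
      rw [Nat.Prime.coprime_iff_not_dvd hp3]
      intro h
      have := Nat.le_of_dvd hd h
      omega
    unfold Nat.Coprime at h2 ⊢
    rw [← h2, Nat.gcd_comm p d, Nat.gcd_rec d p]
  rw [← Finset.sum_fiberwise_of_maps_to h1]
  refine Finset.sum_congr rfl ?_
  intro l hl
  rw [Finset.mem_filter, Finset.mem_range] at hl
  refine Finset.sum_congr ?_ (fun _ _ => rfl)
  unfold pbl
  ext p
  simp only [Finset.mem_filter]
  refine and_congr_right ?_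
  intro _
  constructor
  · intro h
    have h2 : (p : ℤ) - l = d * ((p / d : ℕ) : ℤ) := by
      have h3 := Nat.div_add_mod p d
      rw [h] at h3
      have h4 : ((d * (p / d) + l : ℕ) : ℤ) = p := by exact_mod_cast h3
      push_cast at h4 ⊢
      linarith
    exact ⟨_, h2⟩
  · intro h
    have h2 : (p : ℤ) ≡ l [ZMOD d] := (Int.modEq_iff_dvd.2 (by
      rw [← neg_sub]
      exact (dvd_neg).2 h))
    have h3 := (Int.natCast_modEq_iff).1 h2
    unfold Nat.ModEq at h3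
    rw [h3]
    exact Nat.mod_eq_of_lt hl.1

/-- the sum over a class is the sum of `JJT` -/
private theorem TypA_class (f : ℕ → ℝ) (P K2 d : ℕ) (l : ℕ) (a : ℤ) (hd : 1 ≤ d) (y : ℝ) :
    ∑ p ∈ pbl P d (l : ℤ), Pool.Agent.H76.EHB.FF f K2 (p * (y - (a : ℝ) / d)) =
      ∑ k ∈ zs (pbl P d (l : ℤ)),
        Pool.Agent.H76.EHB.FF f K2 (((-(l * a) : ℤ) : ℝ) / d + k * y) * ee (-(0 * k * y)) := by
  unfold zs
  rw [Finset.sum_image (by
    intro a _ b _ h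
    have h' : (a : ℤ) = (b : ℤ) := h
    exact_mod_cast h')]
  refine Finset.sum_congr rfl ?_
  intro p hp
  unfold pbl at hp
  rw [Finset.mem_filter] at hp
  obtain ⟨q, hq⟩ := hp.2
  have hd0 : (d : ℝ) ≠ 0 := by
    have : (1 : ℝ) ≤ d := by exact_mod_cast hd
    linarith
  have hq' : (p : ℝ) - l = d * q := by exact_mod_cast hq
  have h1 : (p : ℝ) * (y - (a : ℝ) / d) =
      (((-(l * a) : ℤ) : ℝ) / d + ((p : ℤ) : ℝ) * y) + ((-(q * a) : ℤ) : ℝ) := by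
    push_cast
    have hp' : (p : ℝ) = l + d * q := by linarith
    have h2 : (p : ℝ) * (a / d) = l * a / d + q * a := by
      rw [hp']
      field_simp
    have h3 : (p : ℝ) * (y - a / d) = p * y - p * (a / d) := by ring
    rw [h3, h2]
    ring
  rw [h1, Pool.Agent.H76.EHB.FF_add_int]
  have h3 : ee (-(0 * (((p : ℕ) : ℤ) : ℝ) * y)) = 1 := by
    have := Pool.Agent.H76.EHB.ee_int 0
    simpa using this
  rw [h3, mul_one]

/-- the small frequencies -/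
private theorem TypA_int (f : ℕ → ℝ) (P K2 d : ℕ) (a : ℤ) (Y V : ℝ) (hd : 1 ≤ d) (hdP : d ≤ P)
    (hV0 : 0 ≤ V)
    (hV : ∀ l : ℕ, l < d → Nat.Coprime l d →
      JJT f K2 (zs (pbl P d (l : ℤ))) (((-(l * a) : ℤ) : ℝ) / d) 0 Y ≤ V) :
    ∫ y in Set.Icc (-Y) Y, ‖∑ p ∈ pb P, Pool.Agent.H76.EHB.FF f K2 (p * (y - (a : ℝ) / d))‖ ^ 2 ≤
      (d : ℝ) ^ 2 * V := by
  have hcard : ((((range d).filter (fun l => Nat.Coprime l d)).card : ℕ) : ℝ) ≤ d := by
    have := Finset.card_filter_le (range d) (fun l => Nat.Coprime l d)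
    rw [Finset.card_range] at this
    exact_mod_cast this
  have hd0 : (0 : ℝ) ≤ d := Nat.cast_nonneg _
  have hc : ∀ l : ℕ, Continuous (fun y : ℝ => ‖∑ k ∈ zs (pbl P d (l : ℤ)),
      Pool.Agent.H76.EHB.FF f K2 (((-(l * a) : ℤ) : ℝ) / d + k * y) * ee (-(0 * k * y))‖ ^ 2) := by
    intro l
    refine (continuous_finsetSum _ ?_).norm.pow 2
    intro k _
    refine ((Pool.Agent.H76.EHB.FF_continuous f K2).comp (by fun_prop)).mul ?_
    exact Pool.Agent.H76.EHB.continuous_ee.comp (by fun_prop)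
  have hcS : Continuous (fun y : ℝ =>
      ‖∑ p ∈ pb P, Pool.Agent.H76.EHB.FF f K2 (p * (y - (a : ℝ) / d))‖ ^ 2) := by
    refine (continuous_finsetSum _ ?_).norm.pow 2
    intro k _
    exact (Pool.Agent.H76.EHB.FF_continuous f K2).comp (by fun_prop)
  have hpt : ∀ y : ℝ, ‖∑ p ∈ pb P, Pool.Agent.H76.EHB.FF f K2 (p * (y - (a : ℝ) / d))‖ ^ 2 ≤
      d * ∑ l ∈ (range d).filter (fun l => Nat.Coprime l d), ‖∑ k ∈ zs (pbl P d (l : ℤ)),
      Pool.Agent.H76.EHB.FF f K2 (((-(l * a) : ℤ) : ℝ) / d + k * y) * ee (-(0 * k * y))‖ ^ 2 := by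
    intro y
    rw [TypA_split hd hdP]
    have h1 : ‖∑ l ∈ (range d).filter (fun l => Nat.Coprime l d),
        ∑ p ∈ pbl P d (l : ℤ), Pool.Agent.H76.EHB.FF f K2 (p * (y - (a : ℝ) / d))‖ ≤
        ∑ l ∈ (range d).filter (fun l => Nat.Coprime l d), ‖∑ k ∈ zs (pbl P d (l : ℤ)),
      Pool.Agent.H76.EHB.FF f K2 (((-(l * a) : ℤ) : ℝ) / d + k * y) * ee (-(0 * k * y))‖ := by
      refine (norm_sum_le _ _).trans (le_of_eq ?_)
      refine Finset.sum_congr rfl ?_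
      intro l _
      rw [TypA_class f P K2 d l a hd y]
    refine (pow_le_pow_left₀ (norm_nonneg _) h1 2).trans ?_
    refine sq_sum_le_card_mul_sum_sq.trans ?_
    exact mul_le_mul_of_nonneg_right hcard (Finset.sum_nonneg fun _ _ => sq_nonneg _)
  have h2 : ∫ y in Set.Icc (-Y) Y,
      ‖∑ p ∈ pb P, Pool.Agent.H76.EHB.FF f K2 (p * (y - (a : ℝ) / d))‖ ^ 2 ≤
      ∫ y in Set.Icc (-Y) Y, (d : ℝ) * ∑ l ∈ (range d).filter (fun l => Nat.Coprime l d),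
        ‖∑ k ∈ zs (pbl P d (l : ℤ)),
      Pool.Agent.H76.EHB.FF f K2 (((-(l * a) : ℤ) : ℝ) / d + k * y) * ee (-(0 * k * y))‖ ^ 2 := by
    refine setIntegral_mono_on ?_ ?_ measurableSet_Icc (fun y _ => hpt y)
    · exact hcS.continuousOn.integrableOn_Icc
    · refine (Continuous.continuousOn ?_).integrableOn_Icc
      exact continuous_const.mul (continuous_finsetSum _ fun l _ => hc l)
  refine h2.trans ?_
  rw [integral_const_mul, integral_finsetSum _ (fun l _ => (hc l).continuousOn.integrableOn_Icc)]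
  have h3 : ∑ l ∈ (range d).filter (fun l => Nat.Coprime l d),
      (∫ y in Set.Icc (-Y) Y, ‖∑ k ∈ zs (pbl P d (l : ℤ)),
      Pool.Agent.H76.EHB.FF f K2 (((-(l * a) : ℤ) : ℝ) / d + k * y) * ee (-(0 * k * y))‖ ^ 2) ≤
      ∑ l ∈ (range d).filter (fun l => Nat.Coprime l d), V := by
    refine Finset.sum_le_sum ?_
    intro l hl
    rw [Finset.mem_filter, Finset.mem_range] at hl
    exact hV l hl.1 hl.2
  rw [Finset.sum_const, nsmul_eq_mul] at h3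
  calc (d : ℝ) * _ ≤ d * (d * V) := by
        refine mul_le_mul_of_nonneg_left (h3.trans ?_) hd0
        exact mul_le_mul_of_nonneg_right hcard hV0
    _ = (d : ℝ) ^ 2 * V := by ring

/-- number of prime factors in the block -/
private theorem TypA_omega {P m : ℕ} (hm : 1 ≤ m) :
    (((pb P).filter (fun p => p ∣ m)).card : ℝ) * Real.log 2 ≤ Real.log m := by
  have h1 : ∏ p ∈ (pb P).filter (fun p => p ∣ m), p ∣ m := by
    apply Finset.prod_primes_dvd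
    · intro p hp
      rw [Finset.mem_filter] at hp
      exact (TypA_pb hp.1).2.2.prime
    · intro p hp
      rw [Finset.mem_filter] at hp
      exact hp.2
  have h2 : 2 ^ ((pb P).filter (fun p => p ∣ m)).card ≤
      ∏ p ∈ (pb P).filter (fun p => p ∣ m), p := by
    rw [← Finset.prod_const]
    refine Finset.prod_le_prod' ?_
    intro p hp
    rw [Finset.mem_filter] at hp
    exact (TypA_pb hp.1).2.2.two_le
  have h3 : 2 ^ ((pb P).filter (fun p => p ∣ m)).card ≤ m := h2.trans (Nat.le_of_dvd hm h1)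
  have h4 : (2 : ℝ) ^ ((pb P).filter (fun p => p ∣ m)).card ≤ m := by exact_mod_cast h3
  rw [← Real.log_pow]
  exact Real.log_le_log (by positivity) h4

/-- second moment -/
private theorem TypA_sq (f : ℕ → ℝ) (P K2 X : ℕ) (hf : ∀ k, K2 < k → f k = 0)
    (hX : 2 * P * K2 ≤ X) (Ω : ℝ)
    (hΩ : ∀ m ∈ Icc 1 X, (((pb P).filter (fun p => p ∣ m)).card : ℝ) ≤ Ω) (hΩ0 : 0 ≤ Ω) :
    ∑ m ∈ Icc 1 X, Fp f P m ^ 2 ≤ Ω * (P * ∑ k ∈ Icc 1 K2, f k ^ 2) := by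
  have h1 : ∀ m ∈ Icc 1 X, Fp f P m ^ 2 ≤
      Ω * ∑ p ∈ (pb P).filter (fun p => p ∣ m), f (m / p) ^ 2 := by
    intro m hm
    unfold Fp
    refine sq_sum_le_card_mul_sum_sq.trans ?_
    exact mul_le_mul_of_nonneg_right (hΩ m hm) (Finset.sum_nonneg fun _ _ => sq_nonneg _)
  refine (Finset.sum_le_sum h1).trans ?_
  rw [← Finset.mul_sum, TypA_swap]
  refine mul_le_mul_of_nonneg_left ?_ hΩ0
  have h2 : ∀ p ∈ pb P, ∑ m ∈ (Icc 1 X).filter (fun m => p ∣ m), f (m / p) ^ 2 =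
      ∑ k ∈ Icc 1 K2, f k ^ 2 := by
    intro p hp
    obtain ⟨hp1, hp2, hp3⟩ := TypA_pb hp
    exact TypA_mult X K2 p hp3.pos ((Nat.mul_le_mul_right _ hp2).trans hX)
      (fun _ k => f k ^ 2) (by
        intro m k hk
        rw [hf k hk]
        simp)
  rw [Finset.sum_congr rfl h2, Finset.sum_const, nsmul_eq_mul]
  refine mul_le_mul_of_nonneg_right ?_ (Finset.sum_nonneg fun _ _ => sq_nonneg _)
  exact_mod_cast TypA_pb_card P

theorem typ_a (hJ : JJp) (B E : ℕ) : ∃ b N0 : ℕ, ∀ N : ℕ, N0 ≤ N → ∀ (P K1 K2 X W r a : ℕ),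
    Real.log N ^ b ≤ P → P ^ 3 ≤ N → 1 ≤ r → (r : ℝ) ≤ Real.log N ^ B → N ≤ 32 * P * K1 → K1 < K2 →
    P * K2 ≤ 32 * N → 2 * P * K2 ≤ X → X ≤ 64 * N → P * Real.log N ^ b ≤ W → W ≤ N →
    ∑ z ∈ range X, ‖∑ m ∈ (Icc 1 X).filter (fun m => z < m ∧ m ≤ z + W),
        (Fp (cut K1 K2 (hR ⌊Real.log N ^ (B + 1)⌋₊)) P m : ℂ) * ee (-(m * ((a : ℝ) / r)))‖ ^ 2 ≤
      (W : ℝ) ^ 2 * N / Real.log N ^ E := by
  obtain ⟨b', N1, hJ1⟩ := hJ B (E + 2 * B + 2)
  obtain ⟨N2, hS⟩ := hsq (B + 1)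
  refine ⟨b' + 2 * E + 6 * B + 19, max (max N1 N2) (⌈Real.exp 64⌉₊ + 2), ?_⟩
  intro N hN P K1 K2 X W r a hbP hP3 hr1 hrB hNPK hK12 hPK hXK hXN hPW hWN
  have hN1 : N1 ≤ N := le_trans (le_trans (le_max_left _ _) (le_max_left _ _)) hN
  have hN2 : N2 ≤ N := le_trans (le_trans (le_max_right _ _) (le_max_left _ _)) hN
  have hN3 : ⌈Real.exp 64⌉₊ + 2 ≤ N := le_trans (le_max_right _ _) hN
  have hN0 : (0 : ℝ) < N := by
    have : 0 < N := by omega
    exact_mod_cast this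
  have hL64 : 64 ≤ Real.log N := by
    rw [Real.le_log_iff_exp_le hN0]
    refine (Nat.le_ceil _).trans ?_
    exact_mod_cast (show ⌈Real.exp 64⌉₊ ≤ N by omega)
  set L := Real.log N with hLdef
  have hL1 : 1 ≤ L := by linarith
  have hL0 : 0 < L := by linarith
  set b := b' + 2 * E + 6 * B + 19 with hb
  have hpow : ∀ i j : ℕ, i ≤ j → L ^ i ≤ L ^ j := fun i j h => pow_le_pow_right₀ hL1 h
  -- lowest terms
  obtain ⟨g, hg⟩ : ∃ g, g = Nat.gcd a r := ⟨_, rfl⟩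
  have hg0 : 0 < g := by
    rw [hg]
    exact Nat.gcd_pos_of_pos_right _ hr1
  obtain ⟨a', ha'⟩ : g ∣ a := hg ▸ Nat.gcd_dvd_left a r
  obtain ⟨d, hd⟩ : g ∣ r := hg ▸ Nat.gcd_dvd_right a r
  have hcop : Nat.Coprime a' d := by
    have h1 := Nat.coprime_div_gcd_div_gcd (m := a) (n := r) (by rw [← hg]; exact hg0)
    rw [← hg, ha', hd, Nat.mul_div_cancel_left _ hg0, Nat.mul_div_cancel_left _ hg0] at h1
    exact h1
  have hd1 : 1 ≤ d := by
    rcases Nat.eq_zero_or_pos d with h | h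
    · subst h
      omega
    · exact h
  have hdr : d ≤ r := by
    rw [hd]
    exact Nat.le_mul_of_pos_left d hg0
  have hdr' : (d : ℝ) ≤ L ^ B := le_trans (by exact_mod_cast hdr) hrB
  have hd0 : (0 : ℝ) < d := by exact_mod_cast hd1
  have hdP : d ≤ P := by
    have h1 : (d : ℝ) ≤ P := hdr'.trans ((hpow B b (by omega)).trans hbP)
    exact_mod_cast h1
  have hfrac : (a : ℝ) / r = ((a' : ℤ) : ℝ) / d := by
    rw [ha', hd]
    push_cast
    have hg0' : (g : ℝ) ≠ 0 := by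
      have : (0 : ℝ) < g := by exact_mod_cast hg0
      exact this.ne'
    exact mul_div_mul_left _ _ hg0'
  have hPpos : (0 : ℝ) < P := lt_of_lt_of_le (by positivity) hbP
  have hWpos : (0 : ℝ) < W := lt_of_lt_of_le (by positivity) hPW
  set f : ℕ → ℝ := cut K1 K2 (hR ⌊L ^ (B + 1)⌋₊) with hf
  have hfz : ∀ k, K2 < k → f k = 0 := by
    intro k hk
    rw [hf]
    unfold cut
    rw [if_neg]
    rw [Finset.mem_Ioc]
    omega
  set Y : ℝ := L ^ (E + 4) / W with hY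
  have hY0 : 0 < Y := by positivity
  have hPY : P * Y ≤ 1 / L ^ ((E + 2 * B + 2) + 13) := by
    rw [hY, mul_div_assoc', div_le_div_iff₀ hWpos (by positivity), one_mul]
    refine le_trans ?_ hPW
    rw [mul_assoc, ← pow_add]
    exact mul_le_mul_of_nonneg_left (hpow _ _ (by omega)) hPpos.le
  have hP1 : (1 : ℝ) ≤ P := le_trans (one_le_pow₀ hL1) hbP
  have hY1 : Y ≤ 1 / 2 := by
    have h1 : Y ≤ P * Y := by nlinarith
    have h2 : 1 / L ^ ((E + 2 * B + 2) + 13) ≤ 1 / 2 := by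
      refine one_div_le_one_div_of_le (by norm_num) ?_
      calc (2 : ℝ) ≤ L ^ 1 := by rw [pow_one]; linarith
        _ ≤ _ := hpow _ _ (by omega)
    linarith
  -- small frequencies
  have hint := TypA_int f P K2 d (a' : ℤ) Y (N / L ^ (E + 2 * B + 2)) hd1 hdP (by positivity) (by
    intro l hl hlc
    refine hJ1 N hN1 P d K1 K2 (-(l * (a' : ℤ))) l Y ?_ hP3 hd1 hdr' ?_ hNPK hK12 hPK hY0.le hPY
    · exact (hpow _ _ (by omega)).trans hbP
    · rw [IsCoprime.neg_left_iff]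
      have h1 : Nat.Coprime (l * a') d := Nat.Coprime.mul_left hlc hcop
      have h2 := Nat.isCoprime_iff_coprime.2 h1
      exact_mod_cast h2)
  -- second moment
  have hK1L : L ^ (4 * (B + 1)) + 1 ≤ K1 := by
    have h1 : (N : ℝ) ≤ 32 * P * K1 := by exact_mod_cast hNPK
    have h2 : (W : ℝ) ≤ N := by exact_mod_cast hWN
    have h3 : P * L ^ b ≤ P * (32 * K1) := by nlinarith
    have h4 : L ^ b ≤ 32 * K1 := le_of_mul_le_mul_left h3 hPpos
    have h5 : L ^ (4 * (B + 1)) * 64 ≤ L ^ b := by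
      calc L ^ (4 * (B + 1)) * 64 ≤ L ^ (4 * (B + 1)) * L ^ 1 := by
            rw [pow_one]
            exact mul_le_mul_of_nonneg_left hL64 (by positivity)
        _ = L ^ (4 * (B + 1) + 1) := (pow_add _ _ _).symm
        _ ≤ L ^ b := hpow _ _ (by omega)
    have h6 : 1 ≤ L ^ (4 * (B + 1)) := one_le_pow₀ hL1
    linarith
  have hRle : ((⌊L ^ (B + 1)⌋₊ : ℕ) : ℝ) ≤ L ^ (B + 1) := Nat.floor_le (by positivity)
  have hR4 : ⌊L ^ (B + 1)⌋₊ ^ 4 + 1 ≤ K1 := by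
    have h1 : (((⌊L ^ (B + 1)⌋₊ ^ 4 + 1 : ℕ)) : ℝ) ≤ K1 := by
      push_cast
      have h2 : ((⌊L ^ (B + 1)⌋₊ : ℕ) : ℝ) ^ 4 ≤ (L ^ (B + 1)) ^ 4 :=
        pow_le_pow_left₀ (Nat.cast_nonneg _) hRle 4
      rw [← pow_mul, mul_comm (B + 1) 4] at h2
      linarith
    exact_mod_cast h1
  have hP1' : 1 ≤ P := by exact_mod_cast hP1
  have hN64 : 64 ≤ N := by
    have h1 : (64 : ℝ) ≤ N := by
      have := Real.add_one_le_exp (64 : ℝ)
      have h2 : Real.exp 64 ≤ N := by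
        rw [← Real.le_log_iff_exp_le hN0]
        exact hL64
      linarith
    exact_mod_cast h1
  have hK2N : K2 + 1 ≤ N ^ 4 := by
    have h1 : K2 ≤ 32 * N := le_trans (Nat.le_mul_of_pos_left _ hP1') hPK
    have h2 : N ^ 4 = N * (N * N * N) := by ring
    have h3 : 64 * 64 * 64 ≤ N * N * N := Nat.mul_le_mul (Nat.mul_le_mul hN64 hN64) hN64
    have h4 : N * (64 * 64 * 64) ≤ N * (N * N * N) := Nat.mul_le_mul_left _ h3
    omega
  have hSq : ∑ k ∈ Icc 1 K2, f k ^ 2 ≤ ((K2 : ℝ) + 1) * L ^ 4 := by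
    have h1 := hS N hN2 ⌊L ^ (B + 1)⌋₊ hRle K1 K2 0 (K2 + 1) (by omega) (by omega)
    rw [zero_add] at h1
    push_cast at h1
    refine le_trans ?_ h1
    refine Finset.sum_le_sum_of_subset_of_nonneg ?_ (fun _ _ _ => sq_nonneg _)
    intro k hk
    rw [Finset.mem_Icc] at hk
    rw [Finset.mem_Ico]
    omega
  have hOm : ∀ m ∈ Icc 1 X, (((pb P).filter (fun p => p ∣ m)).card : ℝ) ≤ 4 * L := by
    intro m hm
    rw [Finset.mem_Icc] at hm
    have h1 := TypA_omega (P := P) hm.1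
    have h2 : Real.log m ≤ Real.log (64 * N) := by
      refine Real.log_le_log (by exact_mod_cast hm.1) ?_
      exact_mod_cast hm.2.trans hXN
    rw [Real.log_mul (by norm_num) hN0.ne', show (64 : ℝ) = 2 ^ 6 by norm_num, Real.log_pow] at h2
    have h3 : (0.69 : ℝ) < Real.log 2 := by
      have := Real.log_two_gt_d9
      linarith
    have h4 : Real.log 2 < 0.7 := by
      have := Real.log_two_lt_d9
      linarith
    push_cast at h2
    by_contra hcon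
    push Not at hcon
    have h5 : 4 * L * 0.69 < (((pb P).filter (fun p => p ∣ m)).card : ℝ) * Real.log 2 := by
      have h6 : 4 * L * 0.69 < (((pb P).filter (fun p => p ∣ m)).card : ℝ) * 0.69 := by
        linarith
      have h7 : (((pb P).filter (fun p => p ∣ m)).card : ℝ) * 0.69 ≤
          (((pb P).filter (fun p => p ∣ m)).card : ℝ) * Real.log 2 :=
        mul_le_mul_of_nonneg_left h3.le (Nat.cast_nonneg _)
      linarith
    linarith
  have hsm := TypA_sq f P K2 X hfz hXK (4 * L) hOm (by positivity)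
  have hsm2 : ∑ m ∈ Icc 1 X, Fp f P m ^ 2 ≤ 256 * N * L ^ 5 := by
    refine hsm.trans ?_
    have h1 : (P : ℝ) * K2 ≤ 32 * N := by exact_mod_cast hPK
    have hK2 : (1 : ℝ) ≤ K2 := by
      have : 1 ≤ K2 := by omega
      exact_mod_cast this
    calc 4 * L * (P * ∑ k ∈ Icc 1 K2, f k ^ 2) ≤ 4 * L * (P * (((K2 : ℝ) + 1) * L ^ 4)) := by
          refine mul_le_mul_of_nonneg_left ?_ (by positivity)
          exact mul_le_mul_of_nonneg_left hSq hPpos.le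
      _ = 4 * (P * (K2 + 1)) * L ^ 5 := by ring
      _ ≤ 4 * (64 * N) * L ^ 5 := by
          refine mul_le_mul_of_nonneg_right ?_ (by positivity)
          have h2 : (P : ℝ) * (K2 + 1) ≤ 64 * N := by nlinarith
          linarith
      _ = 256 * N * L ^ 5 := by ring
  -- Gallagher
  have hgal := gal X W (fun m => (Fp f P m : ℂ) * ee (-(m * ((a : ℝ) / r)))) Y hY0 hY1
  refine hgal.trans ?_
  have e1 : (∫ y in Set.Icc (-Y) Y,
      ‖∑ m ∈ Icc 1 X, (Fp f P m : ℂ) * ee (-(m * ((a : ℝ) / r))) * ee (m * y)‖ ^ 2) ≤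
      (d : ℝ) ^ 2 * (N / L ^ (E + 2 * B + 2)) := by
    refine le_trans (le_of_eq ?_) hint
    congr 1
    funext y
    rw [TypA_S f P K2 X hfz hXK ((a : ℝ) / r) y, hfrac]
  have e2 : (d : ℝ) ^ 2 * (N / L ^ (E + 2 * B + 2)) ≤ N / L ^ (E + 2) := by
    have h1 : (d : ℝ) ^ 2 ≤ L ^ (2 * B) := by
      have := pow_le_pow_left₀ hd0.le hdr' 2
      rw [← pow_mul, mul_comm B 2] at this
      exact this
    rw [mul_div_assoc', div_le_div_iff₀ (by positivity) (by positivity)]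
    have h2 : L ^ (E + 2 * B + 2) = L ^ (2 * B) * L ^ (E + 2) := by
      rw [← pow_add]
      congr 1
      omega
    rw [h2]
    calc (d : ℝ) ^ 2 * N * L ^ (E + 2) ≤ L ^ (2 * B) * N * L ^ (E + 2) := by
          refine mul_le_mul_of_nonneg_right ?_ (by positivity)
          exact mul_le_mul_of_nonneg_right h1 hN0.le
      _ = N * (L ^ (2 * B) * L ^ (E + 2)) := by ring
  have e3 : ∑ m ∈ Icc 1 X, ‖(Fp f P m : ℂ) * ee (-(m * ((a : ℝ) / r)))‖ ^ 2 ≤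
      256 * N * L ^ 5 := by
    refine le_trans (le_of_eq ?_) hsm2
    refine Finset.sum_congr rfl ?_
    intro m _
    rw [norm_mul, Pool.Agent.H91.PK.LSa_norm_ee, mul_one, Complex.norm_real, Real.norm_eq_abs,
      sq_abs]
  have e4 : 1 / Y ^ 2 = (W : ℝ) ^ 2 / L ^ (2 * E + 8) := by
    rw [hY, div_pow, one_div_div, ← pow_mul]
    congr 2
    ring
  have e5 : (W : ℝ) ^ 2 * (∫ y in Set.Icc (-Y) Y,
      ‖∑ m ∈ Icc 1 X, (Fp f P m : ℂ) * ee (-(m * ((a : ℝ) / r))) * ee (m * y)‖ ^ 2)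
        + 1 / Y ^ 2 * ∑ m ∈ Icc 1 X, ‖(Fp f P m : ℂ) * ee (-(m * ((a : ℝ) / r)))‖ ^ 2 ≤
      (W : ℝ) ^ 2 * (N / L ^ (E + 2)) + (W : ℝ) ^ 2 / L ^ (2 * E + 8) * (256 * N * L ^ 5) := by
    rw [e4]
    refine add_le_add ?_ ?_
    · exact mul_le_mul_of_nonneg_left (e1.trans e2) (by positivity)
    · exact mul_le_mul_of_nonneg_left e3 (by positivity)
  refine e5.trans ?_
  have e6 : (W : ℝ) ^ 2 * (N / L ^ (E + 2)) + (W : ℝ) ^ 2 / L ^ (2 * E + 8) * (256 * N * L ^ 5) =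
      (W : ℝ) ^ 2 * N / L ^ E * (1 / L ^ 2 + 256 / L ^ (E + 3)) := by
    have h1 : L ^ (2 * E + 8) = L ^ E * L ^ (E + 3) * L ^ 5 := by
      rw [← pow_add, ← pow_add]
      congr 1
      omega
    rw [h1, pow_add L E 2]
    field_simp
  rw [e6]
  have e7 : 1 / L ^ 2 + 256 / L ^ (E + 3) ≤ 1 := by
    have h1 : (64 : ℝ) ^ 2 ≤ L ^ 2 := pow_le_pow_left₀ (by norm_num) hL64 2
    have h2 : (64 : ℝ) ^ 3 ≤ L ^ (E + 3) := (pow_le_pow_left₀ (by norm_num) hL64 3).trans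
      (hpow _ _ (by omega))
    have h3 : 1 / L ^ 2 ≤ 1 / 2 := one_div_le_one_div_of_le (by norm_num) (by linarith)
    have h4 : 256 / L ^ (E + 3) ≤ 1 / 2 := by
      rw [div_le_div_iff₀ (by positivity) (by norm_num)]
      linarith
    linarith
  calc (W : ℝ) ^ 2 * N / L ^ E * (1 / L ^ 2 + 256 / L ^ (E + 3)) ≤
        (W : ℝ) ^ 2 * N / L ^ E * 1 := mul_le_mul_of_nonneg_left e7 (by positivity)
    _ = (W : ℝ) ^ 2 * N / L ^ E := mul_one _

end Pool.Agent.H53.MID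

end
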