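import Pool.Agent.H43.PM.H53.MIX.WinQ
import Pool.Agent.H43.PM.M11

/-! The parts of this file: H74.MDX.Ext, H74.MDX.Fib0, H74.MDX.FibB, H74.MDX.FibA, H74.MDX.CntS, H74.MDX.StepE, H53.MDB.PairF, H53.MIX.ContraQ. -/

section

/-!
# MDX Ext: the number of the one-step extensions of a set of walks

Proof of `ext_L`.  Map the filtered set to `S` by `Lw`; the fibre of `v` embeds (by the last step) into the set of the data `(p, g, q, i')` with
`(v1 v, p, g) ∈ R`, `(i', q, g) ∈ R`: `p` takes at most `P` values (`P < p ≤ 2P`), then `g` at most `κ` (`hM.out`), `q` at most `P`, `i'` at most `κ`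
(`hM.inn`).  `ext_R`: map by `Rw`; the fibre embeds into the data `(i, p, g, q)` with `(i, p, g) ∈ R`, `(v0 v, q, g) ∈ R`: `q` at most `P` values, `g` at most `κ`
(`hM.out`), `p` at most `P`, `i` at most `κ` (`hM.inn`).
-/

set_option autoImplicit false

namespace Pool.Agent.H74.MDX

open Finset

open Classical in
/-- a set of triples whose `p`-fibres have at most `κ` elements -/
private theorem Ext_fib (R T : Finset (ℕ × ℕ × ℕ)) (κ : ℝ) (P : ℕ) (hM : Mul κ P R) (hT : T ⊆ R)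
    (h : ∀ p : ℕ, ((T.filter (fun t => t.2.1 = p)).card : ℝ) ≤ κ) : (T.card : ℝ) ≤ κ * P := by
  have hmap : ∀ t ∈ T, t.2.1 ∈ Ioc P (2 * P) := by
    intro t ht
    have h1 := hM.prime t (hT ht)
    exact Finset.mem_Ioc.2 ⟨h1.2.1, h1.2.2⟩
  have hcard := Finset.card_eq_sum_card_fiberwise (f := fun t : ℕ × ℕ × ℕ => t.2.1) (s := T) (t := Ioc P (2 * P)) hmap
  rw [hcard]
  push_cast
  calc ∑ p ∈ Ioc P (2 * P), ((T.filter (fun t => t.2.1 = p)).card : ℝ) ≤ ∑ p ∈ Ioc P (2 * P), κ :=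
        Finset.sum_le_sum (fun p _ => h p)
    _ = κ * P := by
        rw [Finset.sum_const, Nat.card_Ioc, nsmul_eq_mul]
        have : 2 * P - P = P := by omega
        rw [this]
        ring

open Classical in
private theorem Ext_out (R : Finset (ℕ × ℕ × ℕ)) (κ : ℝ) (P : ℕ) (hM : Mul κ P R) (x : ℕ) :
    ((R.filter (fun t => t.1 = x)).card : ℝ) ≤ κ * P := by
  refine Ext_fib R _ κ P hM (Finset.filter_subset _ _) (fun p => ?_)
  rw [Finset.filter_filter]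
  have h1 := hM.out x p
  refine le_trans ?_ h1
  exact le_of_eq (by congr 2)

open Classical in
private theorem Ext_inn (R : Finset (ℕ × ℕ × ℕ)) (κ : ℝ) (P : ℕ) (hM : Mul κ P R) (g : ℕ) :
    ((R.filter (fun t => t.2.2 = g)).card : ℝ) ≤ κ * P := by
  refine Ext_fib R _ κ P hM (Finset.filter_subset _ _) (fun p => ?_)
  rw [Finset.filter_filter]
  have h1 := hM.inn g p
  refine le_trans ?_ h1
  exact le_of_eq (by congr 2)

open Classical in
/-- the pairs of triples with the same `g` -/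
private noncomputable def Ext_D (R : Finset (ℕ × ℕ × ℕ)) (x : ℕ) : Finset ((ℕ × ℕ × ℕ) × (ℕ × ℕ × ℕ)) :=
  (R ×ˢ R).filter (fun t => t.1.1 = x ∧ t.2.2.2 = t.1.2.2)

open Classical in
private theorem Ext_D_card (R : Finset (ℕ × ℕ × ℕ)) (κ : ℝ) (P : ℕ) (hM : Mul κ P R) (x : ℕ) :
    ((Ext_D R x).card : ℝ) ≤ (κ * P) ^ 2 := by
  have hκ : 0 ≤ κ * P := mul_nonneg (by linarith [hM.one]) (by positivity)
  have hmap : ∀ t ∈ Ext_D R x, t.1 ∈ R.filter (fun t => t.1 = x) := by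
    intro t ht
    unfold Ext_D at ht
    rw [Finset.mem_filter, Finset.mem_product] at ht
    exact Finset.mem_filter.2 ⟨ht.1.1, ht.2.1⟩
  have hcard := Finset.card_eq_sum_card_fiberwise (f := fun t : (ℕ × ℕ × ℕ) × (ℕ × ℕ × ℕ) => t.1) (s := Ext_D R x)
    (t := R.filter (fun t => t.1 = x)) hmap
  rw [hcard]
  push_cast
  have hfib : ∀ u ∈ R.filter (fun t => t.1 = x), (((Ext_D R x).filter (fun t => t.1 = u)).card : ℝ) ≤ κ * P := by
    intro u _
    refine le_trans ?_ (Ext_inn R κ P hM u.2.2)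
    have h1 : ((Ext_D R x).filter (fun t => t.1 = u)).card ≤ (R.filter (fun t => t.2.2 = u.2.2)).card := by
      refine Finset.card_le_card_of_injOn (fun t => t.2) ?_ ?_
      · intro t ht
        have ht' := Finset.mem_filter.1 (Finset.mem_coe.1 ht)
        have ht2 := ht'.1
        unfold Ext_D at ht2
        rw [Finset.mem_filter, Finset.mem_product] at ht2
        refine Finset.mem_coe.2 (Finset.mem_filter.2 ⟨ht2.1.2, ?_⟩)
        rw [ht2.2.2, ht'.2]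
      · intro t ht t' ht' h
        have h1 := (Finset.mem_filter.1 (Finset.mem_coe.1 ht)).2
        have h2 := (Finset.mem_filter.1 (Finset.mem_coe.1 ht')).2
        exact Prod.ext (h1.trans h2.symm) h
    exact_mod_cast h1
  calc ∑ u ∈ R.filter (fun t => t.1 = x), (((Ext_D R x).filter (fun t => t.1 = u)).card : ℝ)
      ≤ ∑ u ∈ R.filter (fun t => t.1 = x), κ * P := Finset.sum_le_sum hfib
    _ = (R.filter (fun t => t.1 = x)).card * (κ * P) := by rw [Finset.sum_const, nsmul_eq_mul]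
    _ ≤ (κ * P) * (κ * P) := mul_le_mul_of_nonneg_right (Ext_out R κ P hM x) hκ
    _ = (κ * P) ^ 2 := by ring

open Classical in
/-- the pairs of triples with the same `g`, second form -/
private noncomputable def Ext_E (R : Finset (ℕ × ℕ × ℕ)) (x : ℕ) : Finset ((ℕ × ℕ × ℕ) × (ℕ × ℕ × ℕ)) :=
  (R ×ˢ R).filter (fun t => t.2.1 = x ∧ t.1.2.2 = t.2.2.2)

open Classical in
private theorem Ext_E_card (R : Finset (ℕ × ℕ × ℕ)) (κ : ℝ) (P : ℕ) (hM : Mul κ P R) (x : ℕ) :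
    ((Ext_E R x).card : ℝ) ≤ (κ * P) ^ 2 := by
  refine le_trans ?_ (Ext_D_card R κ P hM x)
  have h1 : (Ext_E R x).card ≤ (Ext_D R x).card := by
    refine Finset.card_le_card_of_injOn Prod.swap ?_ ?_
    · intro t ht
      have ht' := Finset.mem_coe.1 ht
      unfold Ext_E at ht'
      rw [Finset.mem_filter, Finset.mem_product] at ht'
      refine Finset.mem_coe.2 ?_
      unfold Ext_D
      rw [Finset.mem_filter, Finset.mem_product]
      exact ⟨⟨ht'.1.2, ht'.1.1⟩, ht'.2⟩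
    · intro t _ t' _ h
      exact Prod.swap_injective h
  exact_mod_cast h1

open Classical in
theorem ext_L (R : Finset (ℕ × ℕ × ℕ)) (F : Finset ℕ) (κ : ℝ) (P j : ℕ) (hM : Mul κ P R) (S : Finset (Wk j)) :
    (((Om R F (j + 1)).filter (fun w => Lw w ∈ S)).card : ℝ) ≤ (κ * P) ^ 2 * S.card := by
  have hmap : ∀ w ∈ (Om R F (j + 1)).filter (fun w => Lw w ∈ S), Lw w ∈ S := fun w hw => (Finset.mem_filter.1 hw).2
  have hcard := Finset.card_eq_sum_card_fiberwise (f := fun w : Wk (j + 1) => Lw w)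
    (s := (Om R F (j + 1)).filter (fun w => Lw w ∈ S)) (t := S) hmap
  rw [hcard]
  push_cast
  have hfib : ∀ v ∈ S, ((((Om R F (j + 1)).filter (fun w => Lw w ∈ S)).filter (fun w => Lw w = v)).card : ℝ) ≤ (κ * P) ^ 2 := by
    intro v _
    refine le_trans ?_ (Ext_D_card R κ P hM (v1 v))
    have h1 : (((Om R F (j + 1)).filter (fun w => Lw w ∈ S)).filter (fun w => Lw w = v)).card ≤ (Ext_D R (v1 v)).card := by
      refine Finset.card_le_card_of_injOn (fun w : Wk (j + 1) => ((w.1 (Fin.last j).castSucc, (w.2 (Fin.last j)).1, (w.2 (Fin.last j)).2.1),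
        (w.1 (Fin.last j).succ, (w.2 (Fin.last j)).2.2, (w.2 (Fin.last j)).2.1))) ?_ ?_
      · intro w hw
        have hw1 := Finset.mem_filter.1 (Finset.mem_coe.1 hw)
        have hw2 := (Finset.mem_filter.1 hw1.1).1
        rw [mem_Om] at hw2
        refine Finset.mem_coe.2 ?_
        unfold Ext_D
        rw [Finset.mem_filter, Finset.mem_product]
        refine ⟨hw2.2.1 (Fin.last j), ?_, rfl⟩
        rw [← hw1.2]
        rfl
      · intro w hw w' hw' h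
        have hw1 := (Finset.mem_filter.1 (Finset.mem_coe.1 hw)).2
        have hw1' := (Finset.mem_filter.1 (Finset.mem_coe.1 hw')).2
        have hL : Lw w = Lw w' := hw1.trans hw1'.symm
        have hL1 : ∀ s : Fin (j + 1), w.1 s.castSucc = w'.1 s.castSucc := fun s => congrFun (congrArg Prod.fst hL) s
        have hL2 : ∀ s : Fin j, w.2 s.castSucc = w'.2 s.castSucc := fun s => congrFun (congrArg Prod.snd hL) s
        simp only [Prod.mk.injEq] at h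
        obtain ⟨⟨_, ha, hb⟩, hc, hd, _⟩ := h
        refine Prod.ext ?_ ?_
        · funext s
          refine Fin.lastCases ?_ (fun s => hL1 s) s
          exact hc
        · funext s
          refine Fin.lastCases ?_ (fun s => hL2 s) s
          exact Prod.ext ha (Prod.ext hb hd)
    exact_mod_cast h1
  calc ∑ v ∈ S, ((((Om R F (j + 1)).filter (fun w => Lw w ∈ S)).filter (fun w => Lw w = v)).card : ℝ)
      ≤ ∑ v ∈ S, (κ * P) ^ 2 := Finset.sum_le_sum hfib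
    _ = (κ * P) ^ 2 * S.card := by rw [Finset.sum_const, nsmul_eq_mul, mul_comm]

open Classical in
theorem ext_R (R : Finset (ℕ × ℕ × ℕ)) (F : Finset ℕ) (κ : ℝ) (P j : ℕ) (hM : Mul κ P R) (S : Finset (Wk j)) :
    (((Om R F (j + 1)).filter (fun w => Rw w ∈ S)).card : ℝ) ≤ (κ * P) ^ 2 * S.card := by
  have hmap : ∀ w ∈ (Om R F (j + 1)).filter (fun w => Rw w ∈ S), Rw w ∈ S := fun w hw => (Finset.mem_filter.1 hw).2
  have hcard := Finset.card_eq_sum_card_fiberwise (f := fun w : Wk (j + 1) => Rw w)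
    (s := (Om R F (j + 1)).filter (fun w => Rw w ∈ S)) (t := S) hmap
  rw [hcard]
  push_cast
  have hfib : ∀ v ∈ S, ((((Om R F (j + 1)).filter (fun w => Rw w ∈ S)).filter (fun w => Rw w = v)).card : ℝ) ≤ (κ * P) ^ 2 := by
    intro v _
    refine le_trans ?_ (Ext_E_card R κ P hM (v0 v))
    have h1 : (((Om R F (j + 1)).filter (fun w => Rw w ∈ S)).filter (fun w => Rw w = v)).card ≤ (Ext_E R (v0 v)).card := by
      refine Finset.card_le_card_of_injOn (fun w : Wk (j + 1) => ((w.1 (Fin.castSucc 0), (w.2 0).1, (w.2 0).2.1),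
        (w.1 (Fin.succ 0), (w.2 0).2.2, (w.2 0).2.1))) ?_ ?_
      · intro w hw
        have hw1 := Finset.mem_filter.1 (Finset.mem_coe.1 hw)
        have hw2 := (Finset.mem_filter.1 hw1.1).1
        rw [mem_Om] at hw2
        refine Finset.mem_coe.2 ?_
        unfold Ext_E
        rw [Finset.mem_filter, Finset.mem_product]
        refine ⟨hw2.2.1 0, ?_, rfl⟩
        rw [← hw1.2]
        rfl
      · intro w hw w' hw' h
        have hw1 := (Finset.mem_filter.1 (Finset.mem_coe.1 hw)).2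
        have hw1' := (Finset.mem_filter.1 (Finset.mem_coe.1 hw')).2
        have hL : Rw w = Rw w' := hw1.trans hw1'.symm
        have hL1 : ∀ s : Fin (j + 1), w.1 s.succ = w'.1 s.succ := fun s => congrFun (congrArg Prod.fst hL) s
        have hL2 : ∀ s : Fin j, w.2 s.succ = w'.2 s.succ := fun s => congrFun (congrArg Prod.snd hL) s
        simp only [Prod.mk.injEq] at h
        obtain ⟨⟨hc, ha, hb⟩, _, hd, _⟩ := h
        refine Prod.ext ?_ ?_
        · funext s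
          refine Fin.cases ?_ (fun s => hL1 s) s
          exact hc
        · funext s
          refine Fin.cases ?_ (fun s => hL2 s) s
          exact Prod.ext ha (Prod.ext hb hd)
    exact_mod_cast h1
  calc ∑ v ∈ S, ((((Om R F (j + 1)).filter (fun w => Rw w ∈ S)).filter (fun w => Rw w = v)).card : ℝ)
      ≤ ∑ v ∈ S, (κ * P) ^ 2 := Finset.sum_le_sum hfib
    _ = (κ * P) ^ 2 * S.card := by rw [Finset.sum_const, nsmul_eq_mul, mul_comm]

end Pool.Agent.H74.MDX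

end

section

/-!
# MDX Fib0: walks with given first vertex and given primes

Proof.  Induction on `j`.  `j = 0`: at most one walk.  `j → j+1`: map the set to the corresponding set for `j` (with `p ∘ castSucc`, `q ∘ castSucc`) by `Lw`; in the
fibre of `v` the last step `(p, g, q)` and the last vertex `i'` satisfy `(v1 v, p, g) ∈ R`, `(i', q, g) ∈ R` with given `p`, `q`: at most `κ` values of `g`
(`hM.out`) and then at most `κ` values of `i'` (`hM.inn`).  So the fibre has at most `κ^2` elements.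
-/

set_option autoImplicit false

namespace Pool.Agent.H74.MDX

open Finset

open Classical in
theorem walk_fib (R : Finset (ℕ × ℕ × ℕ)) (F : Finset ℕ) (κ : ℝ) (P j : ℕ) (hM : Mul κ P R) (i : ℕ) (p q : Fin j → ℕ) :
    (((Om R F j).filter (fun w => v0 w = i ∧ (∀ s, (w.2 s).1 = p s) ∧ ∀ s, (w.2 s).2.2 = q s)).card : ℝ) ≤ κ ^ (2 * j) := by
  induction j with
  | zero =>
    have h1 : ((Om R F 0).filter (fun w => v0 w = i ∧ (∀ s, (w.2 s).1 = p s) ∧ ∀ s, (w.2 s).2.2 = q s)).card ≤ 1 := by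
      rw [Finset.card_le_one]
      intro w hw w' hw'
      rw [Finset.mem_filter] at hw hw'
      apply Prod.ext
      · funext s
        have hs : s = 0 := Fin.fin_one_eq_zero s
        rw [hs]
        exact hw.2.1.trans hw'.2.1.symm
      · funext s
        exact Fin.elim0 s
    have h2 : (((Om R F 0).filter (fun w => v0 w = i ∧ (∀ s, (w.2 s).1 = p s) ∧ ∀ s, (w.2 s).2.2 = q s)).card : ℝ) ≤ 1 := by
      exact_mod_cast h1
    simpa using h2
  | succ j ih =>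
    have hκ := hM.one
    have hih := ih (fun s => p s.castSucc) (fun s => q s.castSucc)
    obtain ⟨S, hS⟩ : ∃ S : Finset (Wk (j + 1)), S = (Om R F (j + 1)).filter
      (fun w => v0 w = i ∧ (∀ s, (w.2 s).1 = p s) ∧ ∀ s, (w.2 s).2.2 = q s) := ⟨_, rfl⟩
    obtain ⟨T, hT⟩ : ∃ T : Finset (Wk j), T = (Om R F j).filter
      (fun w => v0 w = i ∧ (∀ s, (w.2 s).1 = p s.castSucc) ∧ ∀ s, (w.2 s).2.2 = q s.castSucc) := ⟨_, rfl⟩
    rw [← hS]
    rw [← hT] at hih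
    have hmaps : ∀ w ∈ S, Lw w ∈ T := by
      intro w hw
      rw [hS, Finset.mem_filter] at hw
      rw [hT, Finset.mem_filter]
      exact ⟨Lw_mem hw.1, hw.2.1, fun s => hw.2.2.1 s.castSucc, fun s => hw.2.2.2 s.castSucc⟩
    have hfib : ∀ v ∈ T, ((S.filter (fun w => Lw w = v)).card : ℝ) ≤ κ ^ 2 := by
      intro v _
      obtain ⟨A, hA⟩ : ∃ A : Finset (ℕ × ℕ × ℕ), A = R.filter (fun t => t.1 = v1 v ∧ t.2.1 = p (Fin.last j)) := ⟨_, rfl⟩
      obtain ⟨B, hB⟩ : ∃ B : (ℕ × ℕ × ℕ) → Finset (ℕ × ℕ × ℕ),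
        B = fun u => R.filter (fun t => t.2.2 = u.2.2 ∧ t.2.1 = q (Fin.last j)) := ⟨_, rfl⟩
      have h1 : (S.filter (fun w => Lw w = v)).card ≤ (A.sigma B).card := by
        apply Finset.card_le_card_of_injOn (fun w : Wk (j + 1) =>
          (⟨(w.1 (Fin.last j).castSucc, (w.2 (Fin.last j)).1, (w.2 (Fin.last j)).2.1),
            (w.1 (Fin.last j).succ, (w.2 (Fin.last j)).2.2, (w.2 (Fin.last j)).2.1)⟩ : Σ _ : ℕ × ℕ × ℕ, ℕ × ℕ × ℕ))
        · intro w hw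
          rw [Finset.mem_coe, Finset.mem_filter, hS, Finset.mem_filter, mem_Om] at hw
          obtain ⟨⟨⟨_, hw1⟩, hw2, hw3, hw4⟩, hw5⟩ := hw
          rw [Finset.mem_coe, Finset.mem_sigma, hA, hB, Finset.mem_filter, Finset.mem_filter]
          refine ⟨⟨(hw1.1 (Fin.last j)).1, ?_, hw3 _⟩, (hw1.1 (Fin.last j)).2, rfl, hw4 _⟩
          rw [← hw5]
          rfl
        · intro w hw w' hw' hww
          rw [Finset.mem_coe, Finset.mem_filter] at hw hw'
          have hL : Lw w = Lw w' := hw.2.trans hw'.2.symm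
          have e1 : ∀ s : Fin (j + 1), w.1 s.castSucc = w'.1 s.castSucc := fun s => congrFun (congrArg Prod.fst hL) s
          have e2 : ∀ s : Fin j, w.2 s.castSucc = w'.2 s.castSucc := fun s => congrFun (congrArg Prod.snd hL) s
          have e3 := congrArg Sigma.fst hww
          have e4 : (w.1 (Fin.last j).succ, (w.2 (Fin.last j)).2.2, (w.2 (Fin.last j)).2.1) =
            (w'.1 (Fin.last j).succ, (w'.2 (Fin.last j)).2.2, (w'.2 (Fin.last j)).2.1) := congrArg (fun z => z.2) hww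
          simp only [Prod.mk.injEq] at e3 e4
          apply Prod.ext
          · funext s
            refine Fin.lastCases ?_ (fun s => e1 s) s
            exact e4.1
          · funext s
            refine Fin.lastCases ?_ (fun s => e2 s) s
            exact Prod.ext e3.2.1 (Prod.ext e4.2.2 e4.2.1)
      have h2 : ((A.sigma B).card : ℝ) ≤ κ ^ 2 := by
        rw [Finset.card_sigma]
        push_cast
        have h3 : ∀ u ∈ A, ((B u).card : ℝ) ≤ κ := by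
          intro u _
          rw [hB]
          exact hM.inn u.2.2 (q (Fin.last j))
        refine (Finset.sum_le_sum h3).trans ?_
        rw [Finset.sum_const, nsmul_eq_mul, pow_two]
        apply mul_le_mul_of_nonneg_right _ (by linarith)
        rw [hA]
        exact hM.out (v1 v) (p (Fin.last j))
      have h3 : ((S.filter (fun w => Lw w = v)).card : ℝ) ≤ ((A.sigma B).card : ℝ) := by exact_mod_cast h1
      exact h3.trans h2
    have hcard : (S.card : ℝ) = ∑ v ∈ T, ((S.filter (fun w => Lw w = v)).card : ℝ) := by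
      rw [Finset.card_eq_sum_card_fiberwise hmaps]
      push_cast
      rfl
    rw [hcard]
    refine (Finset.sum_le_sum hfib).trans ?_
    rw [Finset.sum_const, nsmul_eq_mul]
    have h4 : κ ^ (2 * (j + 1)) = κ ^ (2 * j) * κ ^ 2 := by
      rw [← pow_add]
      congr 1
    rw [h4]
    exact mul_le_mul_of_nonneg_right hih (by positivity)

end Pool.Agent.H74.MDX

end

section

/-!
# MDX FibB: walks with given first prime, last prime and position

Proof.  Map `w ↦ (v0 w, p-sequence, q-sequence)`, fibres have at most `κ^(2(j+1))` elements (`walk_fib`).  In the image: the `q`-sequence is determined by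
its first `j` members (each in `(P, 2P]`, at most `P^j` possibilities; the last one is `q`), the `p`-sequence by its last `j` members (`P^j` possibilities),
and given the `q`-sequence the first vertex satisfies `|v0 · a - X| ≤ c P^j` with `a = ∏_(s < j) q_s ≥ P^j`, so `|v0 - X/a| ≤ c`: at most `2c+1` values
(`int_card` in MulRel).  Total `κ^(2j+2) (2c+1) P^(2j)`.
-/

set_option autoImplicit false

namespace Pool.Agent.H74.MDX

open Finset

private theorem FibB_rng {R : Finset (ℕ × ℕ × ℕ)} {F : Finset ℕ} {κ : ℝ} {P j : ℕ} (hM : Mul κ P R) {w : Wk j}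
    (hw : w ∈ Om R F j) (s : Fin j) :
    (P < (w.2 s).1 ∧ (w.2 s).1 ≤ 2 * P) ∧ (P < (w.2 s).2.2 ∧ (w.2 s).2.2 ≤ 2 * P) := by
  have h := (mem_Om.1 hw).2.1 s
  exact ⟨(hM.prime _ h.1).2, (hM.prime _ h.2).2⟩

open Classical in
private theorem FibB_fiber (R : Finset (ℕ × ℕ × ℕ)) (F : Finset ℕ) (κ : ℝ) (P j : ℕ) (hM : Mul κ P R) (c X : ℝ) (hc : 0 ≤ c)
    (p q : ℕ) (b : (Fin j → ℕ) × (Fin j → ℕ)) :
    ((((Om R F (j + 1)).filter (fun w => pf w = p ∧ ql w = q ∧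
      |(v0 w : ℝ) * qa (Lw w) - X| ≤ c * (P : ℝ) ^ j)).filter
        (fun w => ((fun s : Fin j => (w.2 s.succ).1), (fun s : Fin j => (w.2 s.castSucc).2.2)) = b)).card : ℝ) ≤
      κ ^ (2 * j + 2) * (2 * c + 1) := by
  set U := (((Om R F (j + 1)).filter (fun w => pf w = p ∧ ql w = q ∧
      |(v0 w : ℝ) * qa (Lw w) - X| ≤ c * (P : ℝ) ^ j)).filter
        (fun w => ((fun s : Fin j => (w.2 s.succ).1), (fun s : Fin j => (w.2 s.castSucc).2.2)) = b)) with hU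
  have hκ : 0 ≤ κ := le_trans zero_le_one hM.one
  have hUm : ∀ w ∈ U, w ∈ Om R F (j + 1) ∧ pf w = p ∧ ql w = q ∧
      |(v0 w : ℝ) * qa (Lw w) - X| ≤ c * (P : ℝ) ^ j ∧ (∀ s : Fin j, (w.2 s.succ).1 = b.1 s) ∧
      (∀ s : Fin j, (w.2 s.castSucc).2.2 = b.2 s) := by
    intro w hw
    rw [hU, Finset.mem_filter, Finset.mem_filter] at hw
    obtain ⟨⟨h1, h2, h3, h4⟩, h5⟩ := hw
    refine ⟨h1, h2, h3, h4, fun s => ?_, fun s => ?_⟩
    · exact congrFun (congrArg Prod.fst h5) s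
    · exact congrFun (congrArg Prod.snd h5) s
  have himg : (((U.image v0).card : ℕ) : ℝ) ≤ 2 * c + 1 := by
    refine int_card _ (X / ((∏ s, b.2 s : ℕ) : ℝ)) c hc ?_
    intro k hk
    rw [Finset.mem_image] at hk
    obtain ⟨w, hw, rfl⟩ := hk
    obtain ⟨h1, -, -, h4, -, h6⟩ := hUm w hw
    have hqa : qa (Lw w) = ∏ s, b.2 s := by
      unfold qa Lw
      exact Finset.prod_congr rfl (fun s _ => h6 s)
    have hlow : P ^ j ≤ ∏ s, b.2 s := by
      have : ∏ _s : Fin j, P ≤ ∏ s, b.2 s := by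
        refine Finset.prod_le_prod' (fun s _ => ?_)
        rw [← h6 s]
        exact (FibB_rng hM h1 s.castSucc).2.1.le
      rwa [Finset.prod_const, Finset.card_univ, Fintype.card_fin] at this
    have hP0 : 0 < P ^ j := Nat.pow_pos hM.pos
    have ha0 : (0 : ℝ) < ((∏ s, b.2 s : ℕ) : ℝ) := by exact_mod_cast lt_of_lt_of_le hP0 hlow
    have hlow' : (P : ℝ) ^ j ≤ ((∏ s, b.2 s : ℕ) : ℝ) := by exact_mod_cast hlow
    rw [hqa] at h4
    have h7 : (v0 w : ℝ) - X / ((∏ s, b.2 s : ℕ) : ℝ) = ((v0 w : ℝ) * ((∏ s, b.2 s : ℕ) : ℝ) - X) / ((∏ s, b.2 s : ℕ) : ℝ) := by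
      field_simp
    rw [h7, abs_div, abs_of_pos ha0, div_le_iff₀ ha0]
    exact h4.trans (mul_le_mul_of_nonneg_left hlow' hc)
  have hsum : U.card = ∑ i ∈ U.image v0, (U.filter (fun w => v0 w = i)).card :=
    Finset.card_eq_sum_card_image v0 U
  rw [hsum]
  push_cast
  calc ∑ i ∈ U.image v0, ((U.filter (fun w => v0 w = i)).card : ℝ)
      ≤ ∑ i ∈ U.image v0, κ ^ (2 * (j + 1)) := by
        refine Finset.sum_le_sum (fun i _ => ?_)
        refine le_trans ?_ (walk_fib R F κ P (j + 1) hM i (Fin.cons p b.1) (Fin.snoc b.2 q))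
        refine Nat.cast_le.2 (Finset.card_le_card ?_)
        intro w hw
        rw [Finset.mem_filter] at hw
        obtain ⟨h1, h2, h3, -, h5, h6⟩ := hUm w hw.1
        rw [Finset.mem_filter]
        refine ⟨h1, hw.2, fun s => ?_, fun s => ?_⟩
        · refine Fin.cases ?_ (fun t => ?_) s
          · exact h2
          · exact h5 t
        · refine Fin.lastCases ?_ (fun t => ?_) s
          · rw [Fin.snoc_last]
            exact h3
          · rw [Fin.snoc_castSucc]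
            exact h6 t
    _ = ((U.image v0).card : ℝ) * κ ^ (2 * (j + 1)) := by
        rw [Finset.sum_const, nsmul_eq_mul]
    _ ≤ (2 * c + 1) * κ ^ (2 * (j + 1)) := mul_le_mul_of_nonneg_right himg (pow_nonneg hκ _)
    _ = κ ^ (2 * j + 2) * (2 * c + 1) := by
        rw [mul_comm, show 2 * (j + 1) = 2 * j + 2 by ring]

open Classical in
theorem fib_b (R : Finset (ℕ × ℕ × ℕ)) (F : Finset ℕ) (κ : ℝ) (P j : ℕ) (hM : Mul κ P R) (c X : ℝ) (hc : 0 ≤ c) (p q : ℕ) :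
    (((Om R F (j + 1)).filter (fun w => pf w = p ∧ ql w = q ∧
      |(v0 w : ℝ) * qa (Lw w) - X| ≤ c * (P : ℝ) ^ j)).card : ℝ) ≤ κ ^ (2 * j + 2) * (2 * c + 1) * (P : ℝ) ^ (2 * j) := by
  set T := (Om R F (j + 1)).filter (fun w => pf w = p ∧ ql w = q ∧
      |(v0 w : ℝ) * qa (Lw w) - X| ≤ c * (P : ℝ) ^ j) with hT
  let f : Wk (j + 1) → (Fin j → ℕ) × (Fin j → ℕ) :=
    fun w => ((fun s : Fin j => (w.2 s.succ).1), (fun s : Fin j => (w.2 s.castSucc).2.2))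
  let PP : Finset (Fin j → ℕ) := Fintype.piFinset (fun _ => Ioc P (2 * P))
  have hmap : ∀ w ∈ T, f w ∈ PP ×ˢ PP := by
    intro w hw
    rw [hT, Finset.mem_filter] at hw
    rw [Finset.mem_product]
    refine ⟨Fintype.mem_piFinset.2 (fun s => ?_), Fintype.mem_piFinset.2 (fun s => ?_)⟩
    · exact Finset.mem_Ioc.2 (FibB_rng hM hw.1 s.succ).1
    · exact Finset.mem_Ioc.2 (FibB_rng hM hw.1 s.castSucc).2
  have hcard : PP.card = P ^ j := by
    show (Fintype.piFinset (fun _ : Fin j => Ioc P (2 * P))).card = P ^ j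
    rw [Fintype.card_piFinset, Finset.prod_const, Finset.card_univ, Fintype.card_fin, Nat.card_Ioc]
    congr 1
    omega
  have hsum : T.card = ∑ b ∈ PP ×ˢ PP, (T.filter (fun w => f w = b)).card :=
    Finset.card_eq_sum_card_fiberwise hmap
  rw [hsum]
  push_cast
  calc ∑ b ∈ PP ×ˢ PP, ((T.filter (fun w => f w = b)).card : ℝ)
      ≤ ∑ b ∈ PP ×ˢ PP, κ ^ (2 * j + 2) * (2 * c + 1) :=
        Finset.sum_le_sum (fun b _ => FibB_fiber R F κ P j hM c X hc p q b)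
    _ = κ ^ (2 * j + 2) * (2 * c + 1) * (P : ℝ) ^ (2 * j) := by
        rw [Finset.sum_const, nsmul_eq_mul, Finset.card_product, hcard]
        push_cast
        ring

end Pool.Agent.H74.MDX

end

section

/-!
# MDX FibA: walks with `(qa w, v0 w) ∈ A`, `pa w ∈ B`

`ord_card`: the number of the sequences `p : Fin j → ℕ` of pairwise different primes with product `a` is at most `j!` (as members of any finset `T` of such
sequences).  Proof: if there is one, `p0`, then the set of the values is the same for all (the set of the prime factors of `a`: for a squarefree product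
`Nat.primeFactors` of the product, or unique factorisation), so `p ↦` the permutation `σ` with `p = p0 ∘ σ` is injective; `#Perm (Fin j) = j!`.  Alternatively induction on `j`:
`p (last)` is one of the at most `j` prime factors of `a`, the rest has product `a / p (last)`.
`fib_a`: map `w ↦ (v0 w, p-sequence, q-sequence)`; the fibres have at most `κ^(2j)` elements (`walk_fib`); the image is contained in the union over
`(a, i) ∈ A` and `b ∈ B` of the triples `(i, p, q)` with `q` a sequence of different primes with product `a` and `p` one with product `b` (`IsW` gives injectivity, `hM.prime` gives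
that they are primes): at most `(j!)^2` for each pair.
-/

set_option autoImplicit false

namespace Pool.Agent.H74.MDX

open Finset

theorem ord_card (j a : ℕ) (T : Finset (Fin j → ℕ)) (hT : ∀ p ∈ T, (∀ s, (p s).Prime) ∧ Function.Injective p ∧ ∏ s, p s = a) :
    T.card ≤ j.factorial := by
  classical
  rcases T.eq_empty_or_nonempty with h0 | ⟨p0, hp0⟩
  · rw [h0, Finset.card_empty]
    exact Nat.zero_le _
  · obtain ⟨h1, h2, h3⟩ := hT p0 hp0
    have hsub : T ⊆ (Finset.univ : Finset (Fin j ↪ Fin j)).image (fun σ => fun s => p0 (σ s)) := by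
      intro p hp
      obtain ⟨g1, g2, g3⟩ := hT p hp
      have hex : ∀ s, ∃ s', p s = p0 s' := by
        intro s
        have hd : p s ∣ ∏ s', p0 s' := by
          rw [h3, ← g3]
          exact Finset.dvd_prod_of_mem p (Finset.mem_univ s)
        obtain ⟨s', -, hs'⟩ := ((g1 s).prime.dvd_finsetProd_iff _).1 hd
        exact ⟨s', (Nat.prime_dvd_prime_iff_eq (g1 s) (h1 s')).1 hs'⟩
      choose σ hσ using hex
      have hinj : Function.Injective σ := by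
        intro x y hxy
        apply g2
        rw [hσ x, hσ y, hxy]
      rw [Finset.mem_image]
      exact ⟨⟨σ, hinj⟩, Finset.mem_univ _, funext fun s => (hσ s).symm⟩
    refine (Finset.card_le_card hsub).trans (Finset.card_image_le.trans ?_)
    rw [Finset.card_univ, Fintype.card_embedding_eq, Fintype.card_fin, Nat.descFactorial_self]

/-- the sequences of different primes with product `a` -/
private noncomputable def FibA_T (j a : ℕ) : Finset (Fin j → ℕ) := by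
  classical
  exact (Fintype.piFinset fun _ : Fin j => a.primeFactors).filter
    (fun p => (∀ s, (p s).Prime) ∧ Function.Injective p ∧ ∏ s, p s = a)

private theorem FibA_card (j a : ℕ) : (FibA_T j a).card ≤ j.factorial := by
  classical
  refine ord_card j a _ fun p hp => ?_
  unfold FibA_T at hp
  exact (Finset.mem_filter.1 hp).2

private theorem FibA_mem {j a : ℕ} {p : Fin j → ℕ} (h1 : ∀ s, (p s).Prime)
    (h2 : Function.Injective p) (h3 : ∏ s, p s = a) : p ∈ FibA_T j a := by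
  classical
  unfold FibA_T
  rw [Finset.mem_filter, Fintype.mem_piFinset]
  refine ⟨fun s => ?_, h1, h2, h3⟩
  rw [Nat.mem_primeFactors]
  refine ⟨h1 s, ?_, ?_⟩
  · rw [← h3]
    exact Finset.dvd_prod_of_mem p (Finset.mem_univ s)
  · rw [← h3]
    exact Finset.prod_ne_zero_iff.2 fun s _ => (h1 s).ne_zero

open Classical in
theorem fib_a (R : Finset (ℕ × ℕ × ℕ)) (F : Finset ℕ) (κ : ℝ) (P j : ℕ) (hM : Mul κ P R) (A : Finset (ℕ × ℕ)) (B : Finset ℕ) :
    (((Om R F j).filter (fun w => (qa w, v0 w) ∈ A ∧ pa w ∈ B)).card : ℝ) ≤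
      κ ^ (2 * j) * (j.factorial : ℝ) ^ 2 * A.card * B.card := by
  obtain ⟨S, hS⟩ : ∃ S, S = (Om R F j).filter (fun w => (qa w, v0 w) ∈ A ∧ pa w ∈ B) := ⟨_, rfl⟩
  rw [← hS]
  obtain ⟨φ, hφ⟩ : ∃ φ : Wk j → ℕ × (Fin j → ℕ) × (Fin j → ℕ),
    φ = fun w => (v0 w, (fun s => (w.2 s).1), fun s => (w.2 s).2.2) := ⟨_, rfl⟩
  have hκ : (0 : ℝ) ≤ κ ^ (2 * j) := pow_nonneg (by have := hM.one; linarith) _
  -- fibres
  have h1 : (S.card : ℝ) ≤ κ ^ (2 * j) * (S.image φ).card := by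
    rw [Finset.card_eq_sum_card_image φ S]
    push_cast
    calc ∑ b ∈ S.image φ, ((S.filter (fun a => φ a = b)).card : ℝ)
        ≤ ∑ _b ∈ S.image φ, κ ^ (2 * j) := by
          refine Finset.sum_le_sum fun b _ => ?_
          obtain ⟨i, p, q⟩ := b
          refine le_trans ?_ (walk_fib R F κ P j hM i p q)
          have hsub : S.filter (fun a => φ a = (i, p, q)) ⊆
              (Om R F j).filter (fun w => v0 w = i ∧ (∀ s, (w.2 s).1 = p s) ∧
                ∀ s, (w.2 s).2.2 = q s) := by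
            intro w hw
            rw [Finset.mem_filter] at hw
            obtain ⟨g1, g2⟩ := hw
            rw [hS, Finset.mem_filter] at g1
            rw [Finset.mem_filter]
            rw [hφ] at g2
            simp only [Prod.mk.injEq] at g2
            exact ⟨g1.1, g2.1, fun s => congrFun g2.2.1 s, fun s => congrFun g2.2.2 s⟩
          exact_mod_cast Finset.card_le_card hsub
      _ = κ ^ (2 * j) * (S.image φ).card := by
          rw [Finset.sum_const, nsmul_eq_mul, mul_comm]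
  -- the image
  have h2 : (S.image φ).card ≤ (A ×ˢ B).card * (j.factorial * j.factorial) := by
    have hsub : S.image φ ⊆ (A ×ˢ B).biUnion
        (fun t => ({t.1.2} : Finset ℕ) ×ˢ (FibA_T j t.2 ×ˢ FibA_T j t.1.1)) := by
      intro x hx
      rw [Finset.mem_image] at hx
      obtain ⟨w, hw, rfl⟩ := hx
      rw [hS, Finset.mem_filter, mem_Om] at hw
      obtain ⟨⟨g1, g2, g3⟩, g4, g5⟩ := hw
      rw [Finset.mem_biUnion]
      refine ⟨((qa w, v0 w), pa w), Finset.mem_product.2 ⟨g4, g5⟩, ?_⟩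
      rw [hφ]
      simp only [Finset.mem_product, Finset.mem_singleton, true_and]
      constructor
      · refine FibA_mem (fun s => (hM.prime _ (g2 s).1).1) (fun x y hxy => ?_) rfl
        have := g3 (a₁ := Sum.inl x) (a₂ := Sum.inl y) hxy
        exact Sum.inl_injective this
      · refine FibA_mem (fun s => (hM.prime _ (g2 s).2).1) (fun x y hxy => ?_) rfl
        have := g3 (a₁ := Sum.inr x) (a₂ := Sum.inr y) hxy
        exact Sum.inr_injective this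
    refine (Finset.card_le_card hsub).trans (Finset.card_biUnion_le_card_mul _ _ _ fun t _ => ?_)
    rw [Finset.card_product, Finset.card_product, Finset.card_singleton, one_mul]
    exact Nat.mul_le_mul (FibA_card _ _) (FibA_card _ _)
  have h3 : ((S.image φ).card : ℝ) ≤ (A.card : ℝ) * B.card * (j.factorial * j.factorial) := by
    rw [Finset.card_product] at h2
    exact_mod_cast h2
  refine h1.trans ((mul_le_mul_of_nonneg_left h3 hκ).trans (le_of_eq ?_))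
  ring

end Pool.Agent.H74.MDX

end

section

/-!
# MDX CntS: two counts of exceptional walks

`cntN`: `S ⊆ ⋃_{x ∈ Ms} ⋃_{f ∈ N x} {w : pf w = f.2.1, ql w = f.1.1, |v0 w qa (Lw w) - f.1.2.1 P^j| ≤ D P^j}` and each of these sets is bounded by `fib_b`.
`cntA`: `S ⊆ ⋃_{M ∈ Ms} ⋃_{γ ∈ Γ M, |DS (M, γ)| ≤ y} {w : (qa w, v0 w) ∈ DS (M, γ), pa w ∈ (DS (M, γ)).image fst}`; by `fib_a` each set has at most
`κ^(2j) (j!)^2 |DS|^2 ≤ κ^(2j) (j!)^2 y |DS|` elements; sum over `γ ∈ Γ M` with `hT`.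
-/

set_option autoImplicit false

namespace Pool.Agent.H74.MDX

open Finset

open Classical in
private theorem CntS_un {A B W : Type*} (Ms : Finset A) (N : A → Finset B) (T : A → B → Finset W) (S : Finset W) (f : A → B → ℝ)
    (Y : ℝ) (hS : ∀ w ∈ S, ∃ x ∈ Ms, ∃ b ∈ N x, w ∈ T x b) (hT : ∀ x b, ((T x b).card : ℝ) ≤ f x b)
    (hY : ∀ x ∈ Ms, ∑ b ∈ N x, f x b ≤ Y) : (S.card : ℝ) ≤ Ms.card * Y := by
  have h1 : S ⊆ Ms.biUnion (fun x => (N x).biUnion (fun b => T x b)) := by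
    intro w hw
    obtain ⟨x, hx, b, hb, h⟩ := hS w hw
    exact Finset.mem_biUnion.2 ⟨x, hx, Finset.mem_biUnion.2 ⟨b, hb, h⟩⟩
  have h2 : S.card ≤ ∑ x ∈ Ms, ∑ b ∈ N x, (T x b).card :=
    (Finset.card_le_card h1).trans (Finset.card_biUnion_le.trans
      (Finset.sum_le_sum fun x _ => Finset.card_biUnion_le))
  have h3 : (S.card : ℝ) ≤ ∑ x ∈ Ms, ∑ b ∈ N x, ((T x b).card : ℝ) := by exact_mod_cast h2
  refine h3.trans ?_
  calc ∑ x ∈ Ms, ∑ b ∈ N x, ((T x b).card : ℝ) ≤ ∑ x ∈ Ms, Y :=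
        Finset.sum_le_sum fun x hx => (Finset.sum_le_sum fun b _ => hT x b).trans (hY x hx)
    _ = Ms.card * Y := by rw [Finset.sum_const, nsmul_eq_mul]

theorem cntN (R : Finset (ℕ × ℕ × ℕ)) (F : Finset ℕ) (κ : ℝ) (P j : ℕ) (hM : Mul κ P R) (D B1 : ℝ) (hD : 0 ≤ D)
    (hB1 : 0 ≤ B1) (S : Finset (Wk (j + 1))) (hS : S ⊆ Om R F (j + 1)) (Ms : Finset ℕ) (M : Wk (j + 1) → ℕ)
    (hMs : ∀ w ∈ S, M w ∈ Ms) (N : ℕ → Finset ((ℕ × ℕ × ℝ) × (ℕ × ℕ × ℝ))) (hN : ∀ x ∈ Ms, ((N x).card : ℝ) ≤ B1)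
    (e : Wk (j + 1) → (ℕ × ℕ × ℝ) × (ℕ × ℕ × ℝ)) (he : ∀ w ∈ S, e w ∈ N (M w))
    (he1 : ∀ w ∈ S, (e w).1.1 = ql w ∧ (e w).2.1 = pf w)
    (hpos : ∀ w ∈ S, |(v0 w : ℝ) * qa (Lw w) - (e w).1.2.1 * (P : ℝ) ^ j| ≤ D * (P : ℝ) ^ j) :
    (S.card : ℝ) ≤ Ms.card * (B1 * (κ ^ (2 * j + 2) * (2 * D + 1) * (P : ℝ) ^ (2 * j))) := by
  classical
  have hκ : (0 : ℝ) ≤ κ := zero_le_one.trans hM.one
  have hZ : 0 ≤ κ ^ (2 * j + 2) * (2 * D + 1) * (P : ℝ) ^ (2 * j) := by positivity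
  refine CntS_un Ms N (fun _ f => (Om R F (j + 1)).filter (fun w => pf w = f.2.1 ∧ ql w = f.1.1 ∧
      |(v0 w : ℝ) * qa (Lw w) - (f.1.2.1 : ℝ) * (P : ℝ) ^ j| ≤ D * (P : ℝ) ^ j)) S
    (fun _ _ => κ ^ (2 * j + 2) * (2 * D + 1) * (P : ℝ) ^ (2 * j)) _ ?_ ?_ ?_
  · intro w hw
    refine ⟨M w, hMs w hw, e w, he w hw, Finset.mem_filter.2 ⟨hS hw, (he1 w hw).2.symm, (he1 w hw).1.symm, hpos w hw⟩⟩
  · intro x f
    exact fib_b R F κ P j hM D ((f.1.2.1 : ℝ) * (P : ℝ) ^ j) hD f.2.1 f.1.1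
  · intro x hx
    rw [Finset.sum_const, nsmul_eq_mul]
    exact mul_le_mul_of_nonneg_right (hN x hx) hZ

theorem cntA (R : Finset (ℕ × ℕ × ℕ)) (F : Finset ℕ) (α : ℕ → ℝ) (κ : ℝ) (P j : ℕ) (hM : Mul κ P R) (D τ y T : ℝ)
    (hy0 : 0 ≤ y) (S : Finset (Wk j)) (hS : S ⊆ Om R F j) (Ms : Finset ℕ) (Γ : ℕ → Finset ℝ) (c : Wk j → ℕ × ℝ)
    (hc : ∀ w ∈ S, (c w).1 ∈ Ms ∧ (c w).2 ∈ Γ (c w).1)
    (h0 : ∀ w ∈ S, (qa w, v0 w) ∈ DS P j D τ F α (c w)) (h1 : ∀ w ∈ S, (pa w, v1 w) ∈ DS P j D τ F α (c w))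
    (hy : ∀ w ∈ S, ((DS P j D τ F α (c w)).card : ℝ) ≤ y)
    (hT : ∀ M ∈ Ms, ∑ γ ∈ Γ M, ((DS P j D τ F α (M, γ)).card : ℝ) ≤ T) :
    (S.card : ℝ) ≤ κ ^ (2 * j) * (j.factorial : ℝ) ^ 2 * Ms.card * y * T := by
  classical
  have hκ : (0 : ℝ) ≤ κ := zero_le_one.trans hM.one
  set Z : ℝ := κ ^ (2 * j) * (j.factorial : ℝ) ^ 2 with hZ
  have hZ0 : 0 ≤ Z := by positivity
  have key := CntS_un Ms (fun x => (Γ x).filter (fun γ => ((DS P j D τ F α (x, γ)).card : ℝ) ≤ y))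
    (fun x γ => (Om R F j).filter (fun w => (qa w, v0 w) ∈ DS P j D τ F α (x, γ) ∧
      pa w ∈ (DS P j D τ F α (x, γ)).image Prod.fst)) S
    (fun x γ => Z * ((DS P j D τ F α (x, γ)).card : ℝ) * ((DS P j D τ F α (x, γ)).card : ℝ)) (Z * y * T) ?_ ?_ ?_
  · refine key.trans (le_of_eq ?_)
    ring
  · intro w hw
    refine ⟨(c w).1, (hc w hw).1, (c w).2, Finset.mem_filter.2 ⟨(hc w hw).2, hy w hw⟩,
      Finset.mem_filter.2 ⟨hS hw, h0 w hw, Finset.mem_image.2 ⟨_, h1 w hw, rfl⟩⟩⟩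
  · intro x γ
    refine (fib_a R F κ P j hM (DS P j D τ F α (x, γ)) ((DS P j D τ F α (x, γ)).image Prod.fst)).trans ?_
    refine mul_le_mul_of_nonneg_left ?_ (by positivity)
    exact_mod_cast Finset.card_image_le
  · intro x hx
    have a1 : ∑ γ ∈ (Γ x).filter (fun γ => ((DS P j D τ F α (x, γ)).card : ℝ) ≤ y),
        Z * ((DS P j D τ F α (x, γ)).card : ℝ) * ((DS P j D τ F α (x, γ)).card : ℝ) ≤
        ∑ γ ∈ (Γ x).filter (fun γ => ((DS P j D τ F α (x, γ)).card : ℝ) ≤ y),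
        Z * y * ((DS P j D τ F α (x, γ)).card : ℝ) := by
      refine Finset.sum_le_sum fun γ hγ => ?_
      refine mul_le_mul_of_nonneg_right ?_ (Nat.cast_nonneg _)
      exact mul_le_mul_of_nonneg_left (Finset.mem_filter.1 hγ).2 hZ0
    refine a1.trans ?_
    rw [← Finset.mul_sum]
    refine mul_le_mul_of_nonneg_left ?_ (by positivity)
    refine le_trans ?_ (hT x hx)
    exact Finset.sum_le_sum_of_subset_of_nonneg (Finset.filter_subset _ _) (fun _ _ _ => Nat.cast_nonneg _)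

end Pool.Agent.H74.MDX

end

section

/-!
# MDX StepE: the edge of a walk, and its position

`geo`: `M = ⌊G0 p q/P^2⌋`: `|G0 p q - M P^2| ≤ P^2`, and `(K1 q - M P) P = -(G0 p - K1 P) q + (G0 p q - M P^2)`, so `|K1 q - M P| ≤ 2 c P + P`; the same for `K2 p`;
`p q ≥ P^2` and `p q ≤ 4 P^2` give `G0 ≤ M ≤ 4 G0`.
`step_edge`: for `w` with `Lw w, Rw w ∈ G` choose `(G0, g)` from `link` and put `M w = G0 pf w ql w/P^2`.  `EX` membership (`mem_EX`, `mem_VX`): `ql w`, `pf w` are primes in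
`(P, 2P]` (`Mul.prime`, `mem_Om`), `pf w ≠ ql w` (`pf_ne_ql`), `c (Lw w), c (Rw w) ∈ V`, and
`nz (pf w k1 - ql w k2) ≤ nz (pf w k1 - g) + nz (g - ql w k2) ≤ 2 η_j`.
`step_mem`: `(qa w, v0 w)`: `qa w = qa (Lw w) ql w`, apply `DS_step` to `(qa (Lw w), v0 (Lw w)) ∈ DS (c (Lw w))` with `p = ql w`; `(pa w, v1 w)`: `pa w = pf w pa (Rw w)`,
`DS_step` with `(pa (Rw w), v1 (Rw w)) ∈ DS (c (Rw w))`; then `DS_mono`: `2 C 5^j + 2 C 3^j + 1 ≤ C 5^(j+1)`, `(2P)^j 2^(j+5) X η/P^j + X η = (2^(2j+5) + 1) X η ≤ 2^(2j+6) X η`,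
`(j+1)^2 + 5(j+1) = j^2 + 5j + 2j + 6`.
-/

set_option autoImplicit false

namespace Pool.Agent.H74.MDX

open Finset
open Pool.Agent.H53.MID (nz Rel Desc)

private theorem StepE_div {P X M : ℝ} (hP : 0 < P) (h : |X * P| ≤ M * P * P) : |X| ≤ M * P := by
  rw [abs_mul, abs_of_pos hP] at h
  exact le_of_mul_le_mul_right h hP

theorem geo (P G0 K1 K2 p q : ℕ) (c : ℝ) (hP : 1 ≤ P) (hc : 0 ≤ c) (hp : P < p ∧ p ≤ 2 * P) (hq : P < q ∧ q ≤ 2 * P)
    (h1 : |(G0 : ℝ) * p - K1 * P| ≤ c * P) (h2 : |(G0 : ℝ) * q - K2 * P| ≤ c * P) :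
    |(K1 : ℝ) * q - (G0 * p * q / P ^ 2 : ℕ) * P| ≤ (2 * c + 1) * P ∧
      |(K2 : ℝ) * p - (G0 * p * q / P ^ 2 : ℕ) * P| ≤ (2 * c + 1) * P ∧ G0 ≤ G0 * p * q / P ^ 2 ∧
      G0 * p * q / P ^ 2 ≤ 4 * G0 := by
  have hP2 : 0 < P ^ 2 := by positivity
  have hPR : (1 : ℝ) ≤ (P : ℝ) := by exact_mod_cast hP
  have hP0 : (0 : ℝ) < (P : ℝ) := by linarith
  have hp2 : (p : ℝ) ≤ 2 * P := by exact_mod_cast hp.2
  have hq2 : (q : ℝ) ≤ 2 * P := by exact_mod_cast hq.2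
  have hp0 : (0 : ℝ) ≤ (p : ℝ) := Nat.cast_nonneg p
  have hq0 : (0 : ℝ) ≤ (q : ℝ) := Nat.cast_nonneg q
  have hdm : P ^ 2 * (G0 * p * q / P ^ 2) + (G0 * p * q) % P ^ 2 = G0 * p * q := Nat.div_add_mod _ _
  have hmod : (G0 * p * q) % P ^ 2 < P ^ 2 := Nat.mod_lt _ hP2
  set M : ℕ := G0 * p * q / P ^ 2 with hM
  set r : ℕ := (G0 * p * q) % P ^ 2 with hr
  have hdm' : (P : ℝ) ^ 2 * (M : ℝ) + (r : ℝ) = (G0 : ℝ) * p * q := by exact_mod_cast hdm
  have hr1 : (r : ℝ) ≤ (P : ℝ) ^ 2 := by exact_mod_cast hmod.le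
  have hr0 : (0 : ℝ) ≤ (r : ℝ) := Nat.cast_nonneg r
  refine ⟨?_, ?_, ?_, ?_⟩
  · have h3 : ((K1 : ℝ) * q - M * P) * P = -(((G0 : ℝ) * p - K1 * P) * q) + r := by
      have h4 : (r : ℝ) = (G0 : ℝ) * p * q - (P : ℝ) ^ 2 * M := by linarith
      rw [h4]
      ring
    have h5 : |((K1 : ℝ) * q - M * P) * P| ≤ (2 * c + 1) * P * P := by
      rw [h3]
      have h6 : |((G0 : ℝ) * p - K1 * P) * q| ≤ c * P * (2 * P) := by
        rw [abs_mul, abs_of_nonneg hq0]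
        exact mul_le_mul h1 hq2 hq0 (by positivity)
      have h7 : |(r : ℝ)| ≤ (P : ℝ) ^ 2 := by rw [abs_of_nonneg hr0]; exact hr1
      have h8 := abs_add_le (-(((G0 : ℝ) * p - K1 * P) * q)) (r : ℝ)
      rw [abs_neg] at h8
      nlinarith
    exact StepE_div hP0 h5
  · have h3 : ((K2 : ℝ) * p - M * P) * P = -(((G0 : ℝ) * q - K2 * P) * p) + r := by
      have h4 : (r : ℝ) = (G0 : ℝ) * p * q - (P : ℝ) ^ 2 * M := by linarith
      rw [h4]
      ring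
    have h5 : |((K2 : ℝ) * p - M * P) * P| ≤ (2 * c + 1) * P * P := by
      rw [h3]
      have h6 : |((G0 : ℝ) * q - K2 * P) * p| ≤ c * P * (2 * P) := by
        rw [abs_mul, abs_of_nonneg hp0]
        exact mul_le_mul h2 hp2 hp0 (by positivity)
      have h7 : |(r : ℝ)| ≤ (P : ℝ) ^ 2 := by rw [abs_of_nonneg hr0]; exact hr1
      have h8 := abs_add_le (-(((G0 : ℝ) * q - K2 * P) * p)) (r : ℝ)
      rw [abs_neg] at h8
      nlinarith
    exact StepE_div hP0 h5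
  · rw [hM, Nat.le_div_iff_mul_le hP2]
    have h3 : P * P ≤ p * q := Nat.mul_le_mul hp.1.le hq.1.le
    calc G0 * P ^ 2 = G0 * (P * P) := by ring
      _ ≤ G0 * (p * q) := Nat.mul_le_mul_left _ h3
      _ = G0 * p * q := by ring
  · rw [hM]
    apply Nat.div_le_of_le_mul
    have h3 : p * q ≤ (2 * P) * (2 * P) := Nat.mul_le_mul hp.2 hq.2
    calc G0 * p * q = G0 * (p * q) := by ring
      _ ≤ G0 * ((2 * P) * (2 * P)) := Nat.mul_le_mul_left _ h3
      _ = P ^ 2 * (4 * G0) := by ring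

private theorem StepE_pf {κ : ℝ} {j P : ℕ} {F : Finset ℕ} {R : Finset (ℕ × ℕ × ℕ)} (hM : Mul κ P R) {w : Wk (j + 1)}
    (hw : w ∈ Om R F (j + 1)) : (pf w).Prime ∧ P < pf w ∧ pf w ≤ 2 * P :=
  hM.prime _ ((mem_Om.1 hw).2.1 0).1

private theorem StepE_ql {κ : ℝ} {j P : ℕ} {F : Finset ℕ} {R : Finset (ℕ × ℕ × ℕ)} (hM : Mul κ P R) {w : Wk (j + 1)}
    (hw : w ∈ Om R F (j + 1)) : (ql w).Prime ∧ P < ql w ∧ ql w ≤ 2 * P :=
  hM.prime _ ((mem_Om.1 hw).2.1 (Fin.last j)).2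

theorem step_edge (C B ε η : ℝ) (n P j : ℕ) (F : Finset ℕ) (α : ℕ → ℝ) (R : Finset (ℕ × ℕ × ℕ)) (hC : 1 ≤ C)
    (hM : Mul (2 * C + 1) P R) (V : Finset (ℕ × ℝ)) (G : Finset (Wk j)) (c : Wk j → ℕ × ℝ)
    (hL : Lvl C B ε η n P F α R j V G c) :
    ∃ M : Wk (j + 1) → ℕ, ∀ w ∈ Om R F (j + 1), Lw w ∈ G → Rw w ∈ G → (n : ℝ) / C ≤ M w ∧
      (M w : ℝ) ≤ 4 ^ (j + 1) * C * n ∧ (((ql w, c (Lw w)), (pf w, c (Rw w))) : (ℕ × ℕ × ℝ) × (ℕ × ℕ × ℝ)) ∈
        EX (2 * (C * 3 ^ j) + 1) P (2 ^ (j ^ 2 + 5 * j) * η * P / (P : ℝ) ^ j) V (M w) := by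
  have key : ∀ w : Wk (j + 1), ∃ m : ℕ, w ∈ Om R F (j + 1) → Lw w ∈ G → Rw w ∈ G → (n : ℝ) / C ≤ m ∧
      (m : ℝ) ≤ 4 ^ (j + 1) * C * n ∧ (((ql w, c (Lw w)), (pf w, c (Rw w))) : (ℕ × ℕ × ℝ) × (ℕ × ℕ × ℝ)) ∈
        EX (2 * (C * 3 ^ j) + 1) P (2 ^ (j ^ 2 + 5 * j) * η * P / (P : ℝ) ^ j) V m := by
    intro w
    by_cases hw : w ∈ Om R F (j + 1) ∧ Lw w ∈ G ∧ Rw w ∈ G
    · obtain ⟨hw1, hw2, hw3⟩ := hw
      obtain ⟨G0, g, hg1, hg2, hg3, hg4, hg5, hg6⟩ := hL.link w hw1 hw2 hw3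
      obtain ⟨hpp, hp1, hp2⟩ := StepE_pf hM hw1
      obtain ⟨hqp, hq1, hq2⟩ := StepE_ql hM hw1
      obtain ⟨k1, k2, k3, k4⟩ := geo P G0 (c (Lw w)).1 (c (Rw w)).1 (pf w) (ql w) (C * 3 ^ j) hM.pos (by positivity)
        ⟨hp1, hp2⟩ ⟨hq1, hq2⟩ hg3 hg4
      refine ⟨G0 * pf w * ql w / P ^ 2, fun _ _ _ => ⟨?_, ?_, ?_⟩⟩
      · have h1 : (G0 : ℝ) ≤ ((G0 * pf w * ql w / P ^ 2 : ℕ) : ℝ) := by exact_mod_cast k3
        linarith
      · have h1 : ((G0 * pf w * ql w / P ^ 2 : ℕ) : ℝ) ≤ 4 * (G0 : ℝ) := by exact_mod_cast k4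
        have h2 : (4 : ℝ) ^ (j + 1) = 4 ^ j * 4 := pow_succ _ _
        rw [h2]
        linarith
      · rw [mem_EX]
        refine ⟨?_, ?_, ?_, ?_⟩
        · rw [mem_VX]
          exact ⟨⟨hq1, hq2⟩, hqp, hL.col _ hw2, k1⟩
        · rw [mem_VX]
          exact ⟨⟨hp1, hp2⟩, hpp, hL.col _ hw3, k2⟩
        · exact fun h => pf_ne_ql hw1 h.symm
        · change nz ((pf w : ℝ) * (c (Lw w)).2 - ql w * (c (Rw w)).2) ≤ _
          have h1 : (pf w : ℝ) * (c (Lw w)).2 - ql w * (c (Rw w)).2 =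
              ((pf w : ℝ) * (c (Lw w)).2 - g) + -(ql w * (c (Rw w)).2 - g) := by ring
          rw [h1]
          have h2 := Pool.Agent.H53.MID.nz_add ((pf w : ℝ) * (c (Lw w)).2 - g) (-(ql w * (c (Rw w)).2 - g))
          rw [Pool.Agent.H53.MID.nz_neg] at h2
          linarith
    · refine ⟨0, fun h1 h2 h3 => absurd ⟨h1, h2, h3⟩ hw⟩
  choose M hM' using key
  exact ⟨M, hM'⟩

private theorem StepE_D (C : ℝ) (j : ℕ) (hC : 1 ≤ C) :
    2 * (C * 5 ^ j) + (2 * (C * 3 ^ j) + 1) ≤ C * 5 ^ (j + 1) := by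
  have h1 : (3 : ℝ) ^ j ≤ 5 ^ j := pow_le_pow_left₀ (by norm_num) (by norm_num) j
  have h2 : (1 : ℝ) ≤ 5 ^ j := one_le_pow₀ (by norm_num)
  have h3 : C * 3 ^ j ≤ C * 5 ^ j := mul_le_mul_of_nonneg_left h1 (by linarith)
  have h4 : 1 ≤ C * 5 ^ j := by nlinarith
  rw [pow_succ]
  linarith

private theorem StepE_tau (η : ℝ) (P j : ℕ) (hη : 0 < η) (hP : 1 ≤ P) :
    (2 * (P : ℝ)) ^ j * (2 ^ (j + 5) * (2 ^ (j ^ 2 + 5 * j) * η) / (P : ℝ) ^ j) + 2 ^ (j ^ 2 + 5 * j) * η ≤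
      2 ^ ((j + 1) ^ 2 + 5 * (j + 1)) * η := by
  have hP0 : (0 : ℝ) < (P : ℝ) := by exact_mod_cast hP
  have hPj : (P : ℝ) ^ j ≠ 0 := by positivity
  have h1 : (2 * (P : ℝ)) ^ j * (2 ^ (j + 5) * (2 ^ (j ^ 2 + 5 * j) * η) / (P : ℝ) ^ j) =
      2 ^ (2 * j + 5) * (2 ^ (j ^ 2 + 5 * j) * η) := by
    rw [mul_pow, show 2 * j + 5 = j + (j + 5) by ring, pow_add 2 j (j + 5)]
    field_simp
  rw [h1]
  have h2 : (2 : ℝ) ^ ((j + 1) ^ 2 + 5 * (j + 1)) = 2 ^ (2 * j + 5) * 2 * 2 ^ (j ^ 2 + 5 * j) := by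
    rw [← pow_succ, ← pow_add]
    congr 1
    ring
  rw [h2]
  have h3 : 0 < (2 : ℝ) ^ (j ^ 2 + 5 * j) * η := by positivity
  have h4 : (1 : ℝ) ≤ 2 ^ (2 * j + 5) := one_le_pow₀ (by norm_num)
  nlinarith

theorem step_mem (C B ε η : ℝ) (n P j : ℕ) (F : Finset ℕ) (α : ℕ → ℝ) (R : Finset (ℕ × ℕ × ℕ)) (hC : 1 ≤ C) (hη : 0 < η)
    (hM : Mul (2 * C + 1) P R) (V : Finset (ℕ × ℝ)) (G : Finset (Wk j)) (c : Wk j → ℕ × ℝ)
    (hL : Lvl C B ε η n P F α R j V G c) (w : Wk (j + 1)) (h1 : Lw w ∈ G) (h2 : Rw w ∈ G) (M : ℕ)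
    (hE : (((ql w, c (Lw w)), (pf w, c (Rw w))) : (ℕ × ℕ × ℝ) × (ℕ × ℕ × ℝ)) ∈
        EX (2 * (C * 3 ^ j) + 1) P (2 ^ (j ^ 2 + 5 * j) * η * P / (P : ℝ) ^ j) V M) (γ : ℝ)
    (h3 : nz (ql w * γ - (c (Lw w)).2) ≤ 2 ^ (j + 5) * (2 ^ (j ^ 2 + 5 * j) * η) / (P : ℝ) ^ j)
    (h4 : nz (pf w * γ - (c (Rw w)).2) ≤ 2 ^ (j + 5) * (2 ^ (j ^ 2 + 5 * j) * η) / (P : ℝ) ^ j) :
    (qa w, v0 w) ∈ DS P (j + 1) (C * 5 ^ (j + 1)) (2 ^ ((j + 1) ^ 2 + 5 * (j + 1)) * η) F α (M, γ) ∧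
      (pa w, v1 w) ∈ DS P (j + 1) (C * 5 ^ (j + 1)) (2 ^ ((j + 1) ^ 2 + 5 * (j + 1)) * η) F α (M, γ) := by
  rw [mem_EX] at hE
  obtain ⟨hE1, hE2, -, -⟩ := hE
  rw [mem_VX] at hE1 hE2
  obtain ⟨hq, hqp, -, hqK⟩ := hE1
  obtain ⟨hp, hpp, -, hpK⟩ := hE2
  have hC0 : 0 ≤ C := by linarith
  have hD := StepE_D C j hC
  have hτ := StepE_tau η P j hη hM.pos
  constructor
  · have h5 := DS_step P j (2 * (C * 3 ^ j) + 1) (C * 5 ^ j) (2 ^ (j ^ 2 + 5 * j) * η)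
      (2 ^ (j + 5) * (2 ^ (j ^ 2 + 5 * j) * η) / (P : ℝ) ^ j) F α (c (Lw w)).1 M (ql w) (c (Lw w)).2 γ hqp hq hqK h3
      (by positivity) (by positivity) (qa (Lw w), v0 (Lw w)) (hL.mem0 _ h1)
    have h6 := DS_mono P (j + 1) _ _ _ _ F α (M, γ) hD hτ h5
    have h7 : qa w = ql w * qa (Lw w) := by rw [qa_eq, mul_comm]
    rw [h7]
    exact h6
  · have h5 := DS_step P j (2 * (C * 3 ^ j) + 1) (C * 5 ^ j) (2 ^ (j ^ 2 + 5 * j) * η)
      (2 ^ (j + 5) * (2 ^ (j ^ 2 + 5 * j) * η) / (P : ℝ) ^ j) F α (c (Rw w)).1 M (pf w) (c (Rw w)).2 γ hpp hp hpK h4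
      (by positivity) (by positivity) (pa (Rw w), v1 (Rw w)) (hL.mem1 _ h2)
    have h6 := DS_mono P (j + 1) _ _ _ _ F α (M, γ) hD hτ h5
    rw [pa_eq]
    exact h6

end Pool.Agent.H74.MDX

end

section

/-!
# MDB PairF: the frequency inequality of a quadruple, and the near quadruples

Let `q = ((i,p),(i',p')) ∈ QS C P U`, `j = s i`, `j' = s i'`, `nz (p α_i - p' α_i') ≤ 2 η P`.
`pair_f`: `p (b/d + T/i) - p' (b'/d' + T'/i') = [p α_i - p' α_i'] - p [α_i - b/d - T/i] + p' [α_i' - b'/d' - T'/i']`, `nz ≤ 2 η P + 2 P Q η + 2 P Q η ≤ 6 Q η P` (`nz_nat_mul`, `p, p' ≤ 2 P`, `1 ≤ Q`);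
`p' T'/i' - p T'/i = T' (p' i - p i')/(i i')`, in absolute value `≤ Q η n^2 · 4 C P · C^2/n^2 = 4 C^3 Q η P` (`i, i' ≥ n/C`).  Together `≤ 10 C^3 Q η P`.
`near`: if moreover `|T - T'| ≤ Z = Q^12 η n` then `|p (T - T')/i| ≤ 2 P Q^12 η n C/n = 2 C Q^12 η P`, so `nz (p b/d - p' b'/d') ≤ 10 C^3 Q η P + 2 C Q^12 η P ≤ 12 C^3 Q^12 η P < 1/Q^2 ≤ 1/(d d')`
(from `η Q^60 P^3 ≤ 1`, `200 C^10 ≤ Q`, `1 ≤ P`).  `p b/d - p' b'/d' = (p b d' - p' b' d)/(d d')`, so `d d' ∣ p b d' - p' b' d` by `nz_frac_ge`.  Hence `d ∣ p b d'`; `p` is a prime `> P ≥ Q ≥ d` so prime to `d`, and `b` is prime to `d`: `d ∣ d'`.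
In the same way `d' ∣ d`, so `d = d'`, and (cancel `d`) `p b ≡ p' b' mod d`.
-/

set_option autoImplicit false

namespace Pool.Agent.H53.MDB

open Finset
open Pool.Agent.H53.MID (nz)

theorem pair_f (C : ℝ) (hC : 1 ≤ C) (n P : ℕ) (Q η : ℝ) (α : ℕ → ℝ) (r : ℕ) (U : Finset ℕ) (s d b : ℕ → ℕ) (T : ℕ → ℝ)
    (hc : Cov C n Q η α r U s d b T) (hn : 1 ≤ n) (hP : 1 ≤ P) (hQ : 1 ≤ Q) (hη : 0 ≤ η) (q : (ℕ × ℕ) × (ℕ × ℕ)) (hq : q ∈ QS C P U)
    (hf : nz (q.1.2 * α q.1.1 - q.2.2 * α q.2.1) ≤ 2 * η * P) :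
    nz (q.1.2 * (b (s q.1.1) / d (s q.1.1)) - q.2.2 * (b (s q.2.1) / d (s q.2.1)) + q.1.2 * (T (s q.1.1) - T (s q.2.1)) / q.1.1)
      ≤ 10 * C ^ 3 * Q * η * P := by
  obtain ⟨hi, hp1, hp2, hpp, hi', hp1', hp2', hpp', hclose⟩ := mem_QS.1 hq
  have hC0 : (0 : ℝ) < C := by linarith
  have hn0 : (0 : ℝ) < n := by exact_mod_cast hn
  have hP0 : (0 : ℝ) < P := by exact_mod_cast hP
  have hr1 := (hc.rng _ hi).1
  have hr2 := (hc.rng _ hi').1
  have hnC : (0 : ℝ) < n / C := div_pos hn0 hC0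
  have hi0 : (0 : ℝ) < q.1.1 := lt_of_lt_of_le hnC hr1
  have hi0' : (0 : ℝ) < q.2.1 := lt_of_lt_of_le hnC hr2
  have hf1 := hc.frq _ hi
  have hf2 := hc.frq _ hi'
  have hT' : |T (s q.2.1)| ≤ Q * η * (n : ℝ) ^ 2 := (hc.dat _ (hc.lab _ hi')).2.2.2
  have hp2R : (q.1.2 : ℝ) ≤ 2 * P := by exact_mod_cast hp2
  have hp2R' : (q.2.2 : ℝ) ≤ 2 * P := by exact_mod_cast hp2'
  have hkey : (q.1.2 : ℝ) * (b (s q.1.1) / d (s q.1.1)) - q.2.2 * (b (s q.2.1) / d (s q.2.1)) +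
      q.1.2 * (T (s q.1.1) - T (s q.2.1)) / q.1.1 =
      ((q.1.2 * α q.1.1 - q.2.2 * α q.2.1) -
        q.1.2 * (α q.1.1 - b (s q.1.1) / d (s q.1.1) - T (s q.1.1) / q.1.1)) +
      (q.2.2 * (α q.2.1 - b (s q.2.1) / d (s q.2.1) - T (s q.2.1) / q.2.1) +
        T (s q.2.1) * (q.1.1 * q.2.2 - q.2.1 * q.1.2) / (q.1.1 * q.2.1)) := by
    field_simp
    ring
  rw [hkey]
  have e1 : nz (q.1.2 * (α q.1.1 - b (s q.1.1) / d (s q.1.1) - T (s q.1.1) / q.1.1)) ≤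
      2 * P * (Q * η) := by
    refine (Pool.Agent.H53.MID.nz_nat_mul _ _).trans ?_
    exact mul_le_mul hp2R hf1 (Pool.Agent.H53.MID.nz_nonneg _) (by positivity)
  have e2 : nz (q.2.2 * (α q.2.1 - b (s q.2.1) / d (s q.2.1) - T (s q.2.1) / q.2.1)) ≤
      2 * P * (Q * η) := by
    refine (Pool.Agent.H53.MID.nz_nat_mul _ _).trans ?_
    exact mul_le_mul hp2R' hf2 (Pool.Agent.H53.MID.nz_nonneg _) (by positivity)
  have e3 : nz (T (s q.2.1) * (q.1.1 * q.2.2 - q.2.1 * q.1.2) / (q.1.1 * q.2.1)) ≤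
      4 * C ^ 3 * Q * η * P := by
    refine (Pool.Agent.H53.MID.nz_le_abs _).trans ?_
    rw [abs_div, abs_mul, abs_of_pos (mul_pos hi0 hi0'), div_le_iff₀ (mul_pos hi0 hi0')]
    have h1 : |T (s q.2.1)| * |(q.1.1 : ℝ) * q.2.2 - q.2.1 * q.1.2| ≤
        (Q * η * (n : ℝ) ^ 2) * (4 * C * P) :=
      mul_le_mul hT' hclose (abs_nonneg _) (by positivity)
    have h2 : (n / C) * (n / C) ≤ (q.1.1 : ℝ) * q.2.1 := mul_le_mul hr1 hr2 hnC.le hi0.le
    have h3 : (Q * η * (n : ℝ) ^ 2) * (4 * C * P) = 4 * C ^ 3 * Q * η * P * ((n / C) * (n / C)) := by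
      field_simp
    rw [h3] at h1
    exact h1.trans (mul_le_mul_of_nonneg_left h2 (by positivity))
  have e4 := Pool.Agent.H53.MID.nz_add ((q.1.2 * α q.1.1 - q.2.2 * α q.2.1) -
        q.1.2 * (α q.1.1 - b (s q.1.1) / d (s q.1.1) - T (s q.1.1) / q.1.1))
      (q.2.2 * (α q.2.1 - b (s q.2.1) / d (s q.2.1) - T (s q.2.1) / q.2.1) +
        T (s q.2.1) * (q.1.1 * q.2.2 - q.2.1 * q.1.2) / (q.1.1 * q.2.1))
  have e5 := Pool.Agent.H53.MID.nz_sub (q.1.2 * α q.1.1 - q.2.2 * α q.2.1)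
    (q.1.2 * (α q.1.1 - b (s q.1.1) / d (s q.1.1) - T (s q.1.1) / q.1.1))
  have e6 := Pool.Agent.H53.MID.nz_add (q.2.2 * (α q.2.1 - b (s q.2.1) / d (s q.2.1) - T (s q.2.1) / q.2.1))
    (T (s q.2.1) * (q.1.1 * q.2.2 - q.2.1 * q.1.2) / (q.1.1 * q.2.1))
  have hC3 : 1 ≤ C ^ 3 := one_le_pow₀ hC
  have hX : 0 ≤ Q * η * P := by positivity
  have f1 : 2 * η * P ≤ 2 * C ^ 3 * (Q * η * P) := by
    have g1 : η * P ≤ Q * (η * P) := le_mul_of_one_le_left (by positivity) hQ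
    have g2 : Q * η * P ≤ C ^ 3 * (Q * η * P) := le_mul_of_one_le_left hX hC3
    nlinarith
  have f2 : Q * η * P ≤ C ^ 3 * (Q * η * P) := le_mul_of_one_le_left hX hC3
  nlinarith

theorem near (C : ℝ) (hC : 1 ≤ C) (n P : ℕ) (Q η : ℝ) (α : ℕ → ℝ) (r : ℕ) (U : Finset ℕ) (s d b : ℕ → ℕ) (T : ℕ → ℝ)
    (hc : Cov C n Q η α r U s d b T) (hn : 1 ≤ n) (hP : 1 ≤ P) (hQ : 200 * C ^ 10 ≤ Q) (hQP : Q ≤ P) (hη : 0 ≤ η)
    (hηQ : η * Q ^ 60 * (P : ℝ) ^ 3 ≤ 1) (q : (ℕ × ℕ) × (ℕ × ℕ)) (hq : q ∈ QS C P U)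
    (hf : nz (q.1.2 * α q.1.1 - q.2.2 * α q.2.1) ≤ 2 * η * P) (hT : |T (s q.1.1) - T (s q.2.1)| ≤ Q ^ 12 * η * n) :
    d (s q.1.1) = d (s q.2.1) ∧ q.1.2 * b (s q.1.1) ≡ q.2.2 * b (s q.2.1) [MOD d (s q.1.1)] := by
  obtain ⟨hi, hp1, hp2, hpp, hi', hp1', hp2', hpp', hclose⟩ := mem_QS.1 hq
  have hC0 : (0 : ℝ) < C := by linarith
  have hn0 : (0 : ℝ) < n := by exact_mod_cast hn
  have hP0 : (0 : ℝ) < P := by exact_mod_cast hP
  have hP1 : (1 : ℝ) ≤ P := by exact_mod_cast hP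
  have hC10 : 1 ≤ C ^ 10 := one_le_pow₀ hC
  have hQ1 : 1 ≤ Q := by nlinarith
  have hQ0 : 0 < Q := by linarith
  have hr1 := (hc.rng _ hi).1
  have hnC : (0 : ℝ) < n / C := div_pos hn0 hC0
  have hi0 : (0 : ℝ) < q.1.1 := lt_of_lt_of_le hnC hr1
  have hp2R : (q.1.2 : ℝ) ≤ 2 * P := by exact_mod_cast hp2
  obtain ⟨hd1, hdQ, hbd, -⟩ := hc.dat _ (hc.lab _ hi)
  obtain ⟨hd1', hdQ', hbd', -⟩ := hc.dat _ (hc.lab _ hi')
  have h1 := pair_f C hC n P Q η α r U s d b T hc hn hP hQ1 hη q hq hf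
  -- the error of the frequencies
  have h2 : |(q.1.2 : ℝ) * (T (s q.1.1) - T (s q.2.1)) / q.1.1| ≤ 2 * C * Q ^ 12 * η * P := by
    rw [abs_div, abs_mul, abs_of_pos hi0, div_le_iff₀ hi0, Nat.abs_cast]
    have g1 : (q.1.2 : ℝ) * |T (s q.1.1) - T (s q.2.1)| ≤ (2 * P) * (Q ^ 12 * η * n) :=
      mul_le_mul hp2R hT (abs_nonneg _) (by positivity)
    have g2 : (2 * P) * (Q ^ 12 * η * n) = 2 * C * Q ^ 12 * η * P * (n / C) := by
      field_simp
    rw [g2] at g1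
    exact g1.trans (mul_le_mul_of_nonneg_left hr1 (by positivity))
  have h3 : nz ((q.1.2 : ℝ) * (b (s q.1.1) / d (s q.1.1)) - q.2.2 * (b (s q.2.1) / d (s q.2.1))) ≤
      12 * C ^ 3 * Q ^ 12 * η * P := by
    have g1 : (q.1.2 : ℝ) * (b (s q.1.1) / d (s q.1.1)) - q.2.2 * (b (s q.2.1) / d (s q.2.1)) =
        (q.1.2 * (b (s q.1.1) / d (s q.1.1)) - q.2.2 * (b (s q.2.1) / d (s q.2.1)) +
          q.1.2 * (T (s q.1.1) - T (s q.2.1)) / q.1.1) -
        q.1.2 * (T (s q.1.1) - T (s q.2.1)) / q.1.1 := by ring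
    rw [g1]
    refine (Pool.Agent.H53.MID.nz_sub _ _).trans ?_
    have g2 := (Pool.Agent.H53.MID.nz_le_abs ((q.1.2 : ℝ) * (T (s q.1.1) - T (s q.2.1)) / q.1.1)).trans h2
    have g3 : Q ≤ Q ^ 12 := le_self_pow₀ hQ1 (by norm_num)
    have g4 : C ≤ C ^ 3 := le_self_pow₀ hC (by norm_num)
    have hX : 0 ≤ η * P := by positivity
    have g5 : 10 * C ^ 3 * Q * η * P ≤ 10 * C ^ 3 * Q ^ 12 * η * P := by
      have : C ^ 3 * Q * (η * P) ≤ C ^ 3 * Q ^ 12 * (η * P) :=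
        mul_le_mul_of_nonneg_right (mul_le_mul_of_nonneg_left g3 (by positivity)) hX
      nlinarith
    have g6 : 2 * C * Q ^ 12 * η * P ≤ 2 * C ^ 3 * Q ^ 12 * η * P := by
      have : C * Q ^ 12 * (η * P) ≤ C ^ 3 * Q ^ 12 * (η * P) :=
        mul_le_mul_of_nonneg_right (mul_le_mul_of_nonneg_right g4 (by positivity)) hX
      nlinarith
    linarith
  have h4 : 12 * C ^ 3 * Q ^ 12 * η * P < 1 / ((d (s q.1.1) * d (s q.2.1) : ℕ) : ℝ) := by
    have hd0 : (0 : ℝ) < d (s q.1.1) := by exact_mod_cast hd1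
    have hd0' : (0 : ℝ) < d (s q.2.1) := by exact_mod_cast hd1'
    rw [Nat.cast_mul, lt_div_iff₀ (mul_pos hd0 hd0')]
    have g1 : (d (s q.1.1) : ℝ) * d (s q.2.1) ≤ Q * Q := mul_le_mul hdQ hdQ' hd0'.le hQ0.le
    have g2 : 12 * C ^ 3 ≤ Q := by
      have : C ^ 3 ≤ C ^ 10 := pow_le_pow_right₀ hC (by norm_num)
      nlinarith
    have g3 : 12 * C ^ 3 * Q ^ 12 * η * P * (d (s q.1.1) * d (s q.2.1)) ≤
        Q * Q ^ 12 * η * P * (Q * Q) := by
      refine mul_le_mul ?_ g1 (by positivity) (by positivity)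
      have : 12 * C ^ 3 * (Q ^ 12 * η * P) ≤ Q * (Q ^ 12 * η * P) :=
        mul_le_mul_of_nonneg_right g2 (by positivity)
      nlinarith
    refine lt_of_le_of_lt g3 ?_
    rcases hη.eq_or_lt with h0 | h0
    · rw [← h0]; simp
    have hQ2 : 1 < Q := by nlinarith
    have g4 : Q * Q ^ 12 * η * P * (Q * Q) < η * Q ^ 60 * (P : ℝ) ^ 3 := by
      have k1 : Q ^ 15 < Q ^ 60 := pow_lt_pow_right₀ hQ2 (by norm_num)
      have k2 : (P : ℝ) ≤ (P : ℝ) ^ 3 := le_self_pow₀ hP1 (by norm_num)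
      have k3 : Q ^ 15 * P < Q ^ 60 * (P : ℝ) ^ 3 := by
        calc Q ^ 15 * P < Q ^ 60 * P := mul_lt_mul_of_pos_right k1 hP0
          _ ≤ Q ^ 60 * (P : ℝ) ^ 3 := mul_le_mul_of_nonneg_left k2 (by positivity)
      have k4 := mul_lt_mul_of_pos_left k3 h0
      calc Q * Q ^ 12 * η * P * (Q * Q) = η * (Q ^ 15 * P) := by ring
        _ < η * (Q ^ 60 * (P : ℝ) ^ 3) := k4
        _ = η * Q ^ 60 * (P : ℝ) ^ 3 := by ring
    exact lt_of_lt_of_le g4 hηQ
  have h5 : (((q.1.2 * b (s q.1.1) * d (s q.2.1) : ℕ) : ℤ) -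
      ((q.2.2 * b (s q.2.1) * d (s q.1.1) : ℕ) : ℤ) : ℤ) = _ := rfl
  have hdd : 0 < d (s q.1.1) * d (s q.2.1) := Nat.mul_pos hd1 hd1'
  have h6 : ((d (s q.1.1) * d (s q.2.1) : ℕ) : ℤ) ∣
      ((q.1.2 * b (s q.1.1) * d (s q.2.1) : ℕ) : ℤ) -
      ((q.2.2 * b (s q.2.1) * d (s q.1.1) : ℕ) : ℤ) := by
    by_contra hcon
    have g1 := Pool.Agent.H53.MID.nz_frac_ge _ _ hdd hcon
    have g2 : ((((q.1.2 * b (s q.1.1) * d (s q.2.1) : ℕ) : ℤ) -
      ((q.2.2 * b (s q.2.1) * d (s q.1.1) : ℕ) : ℤ) : ℤ) : ℝ) /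
        ((d (s q.1.1) * d (s q.2.1) : ℕ) : ℝ) =
        (q.1.2 : ℝ) * (b (s q.1.1) / d (s q.1.1)) - q.2.2 * (b (s q.2.1) / d (s q.2.1)) := by
      have hd0 : (d (s q.1.1) : ℝ) ≠ 0 := by
        have : (0 : ℝ) < d (s q.1.1) := by exact_mod_cast hd1
        exact this.ne'
      have hd0' : (d (s q.2.1) : ℝ) ≠ 0 := by
        have : (0 : ℝ) < d (s q.2.1) := by exact_mod_cast hd1'
        exact this.ne'
      push_cast
      field_simp
    rw [g2] at g1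
    linarith
  have hPd : ∀ e : ℕ, (e : ℝ) ≤ Q → e ≤ P := by
    intro e he
    have : (e : ℝ) ≤ P := he.trans hQP
    exact_mod_cast this
  have hcop : ∀ (e p : ℕ), 1 ≤ e → (e : ℝ) ≤ Q → p.Prime → P < p → Nat.Coprime e p := by
    intro e p he1 he hp hPp
    rw [Nat.coprime_comm, Nat.Prime.coprime_iff_not_dvd hp]
    intro hdvd
    have := Nat.le_of_dvd (by omega) hdvd
    have := hPd e he
    omega
  have h7 : d (s q.1.1) ∣ d (s q.2.1) := by
    have g1 : ((d (s q.1.1) : ℕ) : ℤ) ∣ ((q.1.2 * b (s q.1.1) * d (s q.2.1) : ℕ) : ℤ) := by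
      have g2 : ((d (s q.1.1) : ℕ) : ℤ) ∣ ((q.1.2 * b (s q.1.1) * d (s q.2.1) : ℕ) : ℤ) -
          ((q.2.2 * b (s q.2.1) * d (s q.1.1) : ℕ) : ℤ) := by
        refine dvd_trans ?_ h6
        exact_mod_cast dvd_mul_right _ _
      have g3 : ((d (s q.1.1) : ℕ) : ℤ) ∣ ((q.2.2 * b (s q.2.1) * d (s q.1.1) : ℕ) : ℤ) := by
        exact_mod_cast dvd_mul_left _ _
      have g4 := dvd_add g2 g3
      simpa using g4
    have g5 : d (s q.1.1) ∣ q.1.2 * b (s q.1.1) * d (s q.2.1) := by exact_mod_cast g1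
    refine Nat.Coprime.dvd_of_dvd_mul_left ?_ g5
    exact Nat.Coprime.mul_right (hcop _ _ hd1 hdQ hpp hp1) hbd.symm
  have h8 : d (s q.2.1) ∣ d (s q.1.1) := by
    have g1 : ((d (s q.2.1) : ℕ) : ℤ) ∣ ((q.2.2 * b (s q.2.1) * d (s q.1.1) : ℕ) : ℤ) := by
      have g2 : ((d (s q.2.1) : ℕ) : ℤ) ∣ ((q.1.2 * b (s q.1.1) * d (s q.2.1) : ℕ) : ℤ) -
          ((q.2.2 * b (s q.2.1) * d (s q.1.1) : ℕ) : ℤ) := by
        refine dvd_trans ?_ h6
        exact_mod_cast dvd_mul_left _ _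
      have g3 : ((d (s q.2.1) : ℕ) : ℤ) ∣ ((q.1.2 * b (s q.1.1) * d (s q.2.1) : ℕ) : ℤ) := by
        exact_mod_cast dvd_mul_left _ _
      have g4 := dvd_sub g3 g2
      simpa using g4
    have g5 : d (s q.2.1) ∣ q.2.2 * b (s q.2.1) * d (s q.1.1) := by exact_mod_cast g1
    refine Nat.Coprime.dvd_of_dvd_mul_left ?_ g5
    exact Nat.Coprime.mul_right (hcop _ _ hd1' hdQ' hpp' hp1') hbd'.symm
  have h9 : d (s q.1.1) = d (s q.2.1) := Nat.dvd_antisymm h7 h8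
  refine ⟨h9, ?_⟩
  rw [← h9] at h6
  have h10 : ((d (s q.1.1) : ℕ) : ℤ) * (d (s q.1.1) : ℕ) ∣
      ((d (s q.1.1) : ℕ) : ℤ) * (((q.1.2 * b (s q.1.1) : ℕ) : ℤ) - ((q.2.2 * b (s q.2.1) : ℕ) : ℤ)) := by
    have g1 : ((d (s q.1.1) : ℕ) : ℤ) *
        (((q.1.2 * b (s q.1.1) : ℕ) : ℤ) - ((q.2.2 * b (s q.2.1) : ℕ) : ℤ)) =
        ((q.1.2 * b (s q.1.1) * d (s q.1.1) : ℕ) : ℤ) -
        ((q.2.2 * b (s q.2.1) * d (s q.1.1) : ℕ) : ℤ) := by
      push_cast
      ring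
    rw [g1]
    have g2 : ((d (s q.1.1) : ℕ) : ℤ) * (d (s q.1.1) : ℕ) =
        ((d (s q.1.1) * d (s q.1.1) : ℕ) : ℤ) := by push_cast; ring
    rw [g2]
    exact h6
  have hd0Z : ((d (s q.1.1) : ℕ) : ℤ) ≠ 0 := by
    have : d (s q.1.1) ≠ 0 := by omega
    exact_mod_cast this
  have h11 := (mul_dvd_mul_iff_left hd0Z).1 h10
  exact (Nat.modEq_iff_dvd.2 h11).symm

end Pool.Agent.H53.MDB

end

section

/-!
# MIX ContraQ: `Contra` with a parameter `Q2`

Copy and adapt `Pool.Agent.H53.MID.contra` (file `H53/MID/Contra.lean`, complete), using `win_q` in place of `win`.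
-/

set_option autoImplicit false

namespace Pool.Agent.H53.MIX

open Finset MeasureTheory
open Pool.Agent.H91.PK (ee)
open Pool.Agent.H53.MID

private theorem ContraQ_int {D : ℝ → ℝ} (hD0 : ∀ u, 0 ≤ D u)
    (hint : Integrable (fun u => D u ^ 2)) (p q : ℝ) : IntegrableOn D (Set.Icc p q) := by
  have hm : AEStronglyMeasurable D volume := by
    have h := Real.continuous_sqrt.comp_aestronglyMeasurable hint.aestronglyMeasurable
    refine h.congr (Filter.Eventually.of_forall fun u => ?_)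
    exact Real.sqrt_sq (hD0 u)
  have h1 : IntegrableOn (fun u => (1 + D u ^ 2) / 2) (Set.Icc p q) := by
    have h2 : IntegrableOn (fun _ : ℝ => (1 : ℝ)) (Set.Icc p q) := by
      rw [integrableOn_const_iff]
      right
      rw [Real.volume_Icc]
      exact ENNReal.ofReal_lt_top
    exact (h2.add hint.integrableOn).div_const 2
  refine Integrable.mono' h1 hm.restrict (Filter.Eventually.of_forall fun u => ?_)
  rw [Real.norm_of_nonneg (hD0 u)]
  nlinarith [sq_nonneg (D u - 1)]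

private theorem ContraQ_cs {D : ℝ → ℝ} (hD0 : ∀ u, 0 ≤ D u)
    (hint : Integrable (fun u => D u ^ 2)) {p q M : ℝ} (hpq : p < q) (hM : 0 ≤ M)
    (h : M ≤ ∫ u in Set.Icc p q, D u) : M ^ 2 / (q - p) ≤ ∫ u, D u ^ 2 := by
  have hD := ContraQ_int hD0 hint p q
  have hl : 0 < q - p := sub_pos.2 hpq
  set c : ℝ := M / (q - p) with hc
  have hc0 : 0 ≤ c := div_nonneg hM hl.le
  have h1 : 2 * c * ∫ u in Set.Icc p q, D u ≤ ∫ u in Set.Icc p q, (D u ^ 2 + c ^ 2) := by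
    rw [← integral_const_mul]
    refine integral_mono (hD.const_mul _) ?_ fun u => ?_
    · refine hint.integrableOn.add ?_
      rw [integrableOn_const_iff]
      right
      rw [Real.volume_Icc]
      exact ENNReal.ofReal_lt_top
    · show 2 * c * D u ≤ D u ^ 2 + c ^ 2
      nlinarith [sq_nonneg (D u - c)]
  have h2 : ∫ u in Set.Icc p q, (D u ^ 2 + c ^ 2) =
      (∫ u in Set.Icc p q, D u ^ 2) + (q - p) * c ^ 2 := by
    rw [integral_add hint.integrableOn]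
    · congr 1
      rw [setIntegral_const, Measure.real, Real.volume_Icc, ENNReal.toReal_ofReal hl.le]
      rfl
    · rw [integrable_const_iff]
      right
      rw [isFiniteMeasure_restrict, Real.volume_Icc]
      exact ENNReal.ofReal_ne_top
  have h3 : ∫ u in Set.Icc p q, D u ^ 2 ≤ ∫ u, D u ^ 2 :=
    setIntegral_le_integral hint (Filter.Eventually.of_forall fun u => sq_nonneg _)
  have h4 : 2 * c * M ≤ 2 * c * ∫ u in Set.Icc p q, D u :=
    mul_le_mul_of_nonneg_left h (by positivity)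
  have h5 : M ^ 2 / (q - p) = 2 * c * M - (q - p) * c ^ 2 := by
    rw [hc]
    field_simp
    ring
  rw [h5]
  linarith

theorem contra_q (C : ℝ) (hC : 1 ≤ C) (A C1 : ℕ) : ∃ L0 : ℝ, 1 ≤ L0 ∧ ∀ (L Q2 : ℝ) (n H P w0 X Xf : ℕ) (f : ℕ → ℝ) (a T : ℝ)
    (F1 : Finset ℕ) (α : ℕ → ℝ),
    L0 ≤ L → 1 ≤ Q2 → 100 * C ≤ n → 1 ≤ w0 → 1 ≤ P → w0 * P * (Q2 * L ^ (A + 4)) ≤ H → SqB f w0 Xf L →
    8 * C * n * H ≤ Xf → 4 * C * n * H ≤ X → (∀ i ∈ F1, (n : ℝ) / C ≤ i ∧ (i : ℝ) ≤ C * n) →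
    n / L ^ C1 ≤ (F1.card : ℝ) → |T| ≤ Q2 * (n : ℝ) ^ 2 →
    (∀ i ∈ F1, nz (α i - a - T / (i * H)) ≤ Q2 / H) → (∀ i ∈ F1, H / L ^ A ≤ ‖Bs (Fp f P) H i (α i)‖) →
    Integrable (fun u => ‖Dw (cc f P a T) X (1 / (n * (Q2 * L ^ (A + 3)))) u‖ ^ 2) →
    (1 / (n * (Q2 * L ^ (A + 3)))) ^ 2 * ((n : ℝ) * H) ^ 2 / L ^ (2 * A + 2 * C1 + 1) ≤
      ∫ u, ‖Dw (cc f P a T) X (1 / (n * (Q2 * L ^ (A + 3)))) u‖ ^ 2 := by
  obtain ⟨L1, hL1, hw⟩ := win_q C hC A
  refine ⟨max L1 (4 * Real.log (2 * C ^ 2)), le_max_of_le_left hL1, ?_⟩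
  intro L Q2 n H P w0 X Xf f a T F1 α hL hQ hn hw0 hP hH hSq hXf hX hF1 hcard hT hnz hBs hint
  have hLL : L1 ≤ L := (le_max_left _ _).trans hL
  have hL4 : 4 * Real.log (2 * C ^ 2) ≤ L := (le_max_right _ _).trans hL
  have hL0 : 1 ≤ L := hL1.trans hLL
  have hLp : 0 < L := by linarith
  have hC0 : 0 < C := by linarith
  have hn1 : (100 : ℝ) ≤ n := by nlinarith
  have hn0 : (0 : ℝ) < n := by linarith
  have hw0' : (1 : ℝ) ≤ w0 := by exact_mod_cast hw0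
  have hP' : (1 : ℝ) ≤ P := by exact_mod_cast hP
  have hH1 : (1 : ℝ) ≤ H := by
    refine le_trans ?_ hH
    have h1 : (1 : ℝ) ≤ Q2 * L ^ (A + 4) := one_le_mul_of_one_le_of_one_le hQ (one_le_pow₀ hL0)
    have h2 : (1 : ℝ) ≤ w0 * P := one_le_mul_of_one_le_of_one_le hw0' hP'
    exact one_le_mul_of_one_le_of_one_le h2 h1
  have hH0 : (0 : ℝ) < H := by linarith
  have hQ0 : 0 < Q2 := by linarith
  set θ : ℝ := 1 / (n * (Q2 * L ^ (A + 3))) with hθ
  have hθ0 : 0 < θ := by positivity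
  set D : ℝ → ℝ := fun u => ‖Dw (cc f P a T) X θ u‖ with hD
  have hD0 : ∀ u, 0 ≤ D u := fun u => norm_nonneg _
  have hint' : Integrable (fun u => D u ^ 2) := hint
  set p : ℝ := Real.log (n * H / C) with hp
  set q : ℝ := Real.log (2 * C * n * H) with hq
  have hqp : q - p = Real.log (2 * C ^ 2) := by
    rw [hq, hp, ← Real.log_div (by positivity) (by positivity)]
    congr 1
    field_simp
  have hlog : 0 < Real.log (2 * C ^ 2) := Real.log_pos (by nlinarith)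
  have hpq : p < q := by linarith
  have hI := ContraQ_int hD0 hint' p q
  have hi0 : ∀ i ∈ F1, (0 : ℝ) < i := fun i hi => lt_of_lt_of_le (by positivity) (hF1 i hi).1
  have hsub : ∀ i ∈ F1, Set.Ico (Real.log (i * H)) (Real.log ((i + 1) * H)) ⊆ Set.Icc p q := by
    intro i hi u hu
    have h1 := (hF1 i hi).1
    have h2 := (hF1 i hi).2
    have h3 := hi0 i hi
    refine ⟨le_trans ?_ hu.1, hu.2.le.trans ?_⟩
    · refine Real.log_le_log (by positivity) ?_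
      rw [mul_div_right_comm]
      exact mul_le_mul_of_nonneg_right h1 hH0.le
    · refine Real.log_le_log (by positivity) ?_
      have : (i : ℝ) + 1 ≤ 2 * C * n := by nlinarith
      exact mul_le_mul_of_nonneg_right this hH0.le
  have hdisj : Set.Pairwise (F1 : Set ℕ)
      (Function.onFun Disjoint fun i : ℕ => Set.Ico (Real.log (i * H)) (Real.log ((i + 1) * H))) := by
    intro i hi j hj hij
    have key : ∀ i ∈ F1, ∀ j ∈ F1, i < j → Disjoint
        (Set.Ico (Real.log ((i : ℝ) * H)) (Real.log ((i + 1) * H)))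
        (Set.Ico (Real.log ((j : ℝ) * H)) (Real.log ((j + 1) * H))) := by
      intro i hi j hj hlt
      rw [Set.disjoint_left]
      intro u hu hv
      have h1 : ((i : ℝ) + 1) * H ≤ j * H := by
        refine mul_le_mul_of_nonneg_right ?_ hH0.le
        exact_mod_cast hlt
      have h2 : Real.log (((i : ℝ) + 1) * H) ≤ Real.log (j * H) :=
        Real.log_le_log (by positivity) h1
      exact absurd (hu.2.trans_le (h2.trans hv.1)) (lt_irrefl _)
    rcases lt_or_gt_of_ne hij with h | h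
    · exact key i hi j hj h
    · exact (key j hj i hi h).symm
  have hsum : ∑ i ∈ F1, ∫ u in Set.Ico (Real.log ((i : ℝ) * H)) (Real.log ((i + 1) * H)), D u ≤
      ∫ u in Set.Icc p q, D u := by
    rw [← integral_biUnion_finset F1 (fun i _ => measurableSet_Ico) hdisj
      (fun i hi => hI.mono_set (hsub i hi))]
    refine setIntegral_mono_set hI (Filter.Eventually.of_forall fun u => hD0 u) ?_
    exact (Set.iUnion₂_subset hsub).eventuallyLE
  have hone : ∀ i ∈ F1, θ * H / (2 * L ^ A) ≤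
      ∫ u in Set.Ico (Real.log ((i : ℝ) * H)) (Real.log ((i + 1) * H)), D u := by
    intro i hi
    rw [← integral_Icc_eq_integral_Ico]
    exact hw L Q2 n H P w0 X Xf i f a T (α i) hLL hQ hn hw0 hP hH hSq hXf hX (hF1 i hi).1 (hF1 i hi).2 hT
      (hnz i hi) (hBs i hi)
  have hlow : (F1.card : ℝ) * (θ * H / (2 * L ^ A)) ≤ ∫ u in Set.Icc p q, D u := by
    refine le_trans ?_ hsum
    rw [← nsmul_eq_mul]
    exact Finset.card_nsmul_le_sum F1 _ _ hone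
  have hM : n / L ^ C1 * (θ * H / (2 * L ^ A)) ≤ ∫ u in Set.Icc p q, D u :=
    (mul_le_mul_of_nonneg_right hcard (by positivity)).trans hlow
  have h := ContraQ_cs hD0 hint' hpq (by positivity) hM
  refine le_trans ?_ h
  rw [hqp]
  have e1 : (n / L ^ C1 * (θ * H / (2 * L ^ A))) ^ 2 / Real.log (2 * C ^ 2) =
      θ ^ 2 * ((n : ℝ) * H) ^ 2 / (L ^ (2 * A + 2 * C1) * (4 * Real.log (2 * C ^ 2))) := by
    have : L ^ (2 * A + 2 * C1) = (L ^ A) ^ 2 * (L ^ C1) ^ 2 := by ring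
    rw [this]
    field_simp
    ring
  rw [e1, pow_succ]
  refine div_le_div_of_nonneg_left (by positivity) (by positivity) ?_
  exact mul_le_mul_of_nonneg_left hL4 (by positivity)

end Pool.Agent.H53.MIX

end
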