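import Pool.Agent.H43.PM.M11

/-! The parts of this file: H74.MDX.CombA, H74.MDX.Num, H74.MDX.Cnt, H74.MDX.Clean, H53.MDB.Osc, H53.MDB.BoostL, H53.MDB.Split, H53.MID.Ppw. -/

section

/-!
# MDX CombA: asymptotics and the number of levels

`comb_asym`: take logarithms.  `L = log N`, `ℓ ≤ L^(1-t) + 2 ≤ 3 L^(1-t)`; `log(left) = Dℓ (log D + log ℓ + C0 log L) + Dℓ^2 log 2`;
`log ℓ ≤ log 3 + log L`; so `log(left) ≤ 3 D L^(1-t) (C' + (C0+1) log L) + 9 D L^(2(1-t)) = o(L^t2)` because `1 - t < t2` and `2 (1-t) < t2` (both from `2 (1-t) < t2`, `t < 1`).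
(`isLittleO_log_rpow_atTop`, `tendsto_rpow_atTop`, ...)
`comb_lvl`: `ℓ - 1` = the least natural number `k` with `n ≤ P^k`.  Such `k ≤ L^(1-t) + 1`, because for `k ≥ L^(1-t)`: `P^k ≥ exp(k L^t) ≥ exp(L) = N ≥ n`
(`Nat.find` and `Nat.ceil`).  If `k = 0` then `n = 1`: `n P = P = P^1 ≤ n P^2`; if `k ≥ 1` then `P^(k-1) < n ≤ P^k`: `n P ≤ P^(k+1) ≤ n P^2` (see `Comb_exists_level` in
`Pool/Agent/H53/MID/Comb.lean`).
-/

set_option autoImplicit false

namespace Pool.Agent.H74.MDX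

theorem comb_asym (t t2 : ℝ) (ht1 : t < 1) (ht2 : 2 * (1 - t) < t2) (D C0 : ℕ) : ∃ N0 : ℕ, ∀ N : ℕ, N0 ≤ N →
    ∀ ℓ : ℕ, 1 ≤ ℓ → (ℓ : ℝ) ≤ Real.log N ^ (1 - t) + 2 →
      ((D : ℝ) * ℓ * Real.log N ^ C0) ^ (D * ℓ) * 2 ^ (D * ℓ ^ 2) ≤ Real.exp (Real.log N ^ t2) := by
  have ht : 0 < 1 - t := by linarith
  have ht3 : 0 < t2 - 2 * (1 - t) := by linarith
  set A : ℝ := D + 2 + (1 - t) + C0 with hA
  set K : ℝ := 3 * D * A + 9 * D with hK
  have e1 : ∀ᶠ L : ℝ in Filter.atTop, 1 ≤ L := Filter.eventually_ge_atTop 1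
  have e2 : ∀ᶠ L : ℝ in Filter.atTop, Real.log L ≤ L ^ (1 - t) := by
    have h1 := (isLittleO_log_rpow_atTop ht).bound (show (0 : ℝ) < 1 by norm_num)
    filter_upwards [h1, e1] with L hL hL1
    rw [one_mul, Real.norm_eq_abs, Real.norm_eq_abs, abs_of_nonneg (Real.log_nonneg hL1),
      abs_of_nonneg (Real.rpow_nonneg (by linarith) _)] at hL
    exact hL
  have e3 : ∀ᶠ L : ℝ in Filter.atTop, K ≤ L ^ (t2 - 2 * (1 - t)) :=
    (tendsto_rpow_atTop ht3).eventually_ge_atTop K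
  have hlog : Filter.Tendsto (fun N : ℕ => Real.log N) Filter.atTop Filter.atTop :=
    Real.tendsto_log_atTop.comp tendsto_natCast_atTop_atTop
  obtain ⟨N0, hN0⟩ := Filter.eventually_atTop.1 (hlog.eventually (e1.and (e2.and e3)))
  refine ⟨N0, fun N hN ℓ hℓ1 hℓ2 => ?_⟩
  obtain ⟨h1, h2, h3⟩ := hN0 N hN
  set L : ℝ := Real.log N with hL
  have hL0 : 0 < L := by linarith
  set x : ℝ := L ^ (1 - t) with hx
  have hx1 : 1 ≤ x := Real.one_le_rpow h1 ht.le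
  have hx0 : 0 < x := by linarith
  rcases Nat.eq_zero_or_pos D with hD | hD
  · subst hD
    simp only [Nat.zero_mul, pow_zero, mul_one]
    exact Real.one_le_exp (Real.rpow_nonneg hL0.le _)
  have hD1 : (1 : ℝ) ≤ D := by exact_mod_cast hD
  have hl1 : (1 : ℝ) ≤ ℓ := by exact_mod_cast hℓ1
  have hl3 : (ℓ : ℝ) ≤ 3 * x := by linarith
  have hlogL : 0 ≤ Real.log L := Real.log_nonneg h1
  -- the logarithm of the base
  set b : ℝ := (D : ℝ) * ℓ * L ^ C0 with hb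
  have hb0 : 0 < b := by positivity
  have hlogb : Real.log b ≤ A * x := by
    have h4 : Real.log b = Real.log D + Real.log ℓ + C0 * Real.log L := by
      rw [hb, Real.log_mul (by positivity) (by positivity), Real.log_mul (by positivity) (by positivity),
        Real.log_pow]
    have h5 : Real.log D ≤ D := (Real.log_le_sub_one_of_pos (by linarith)).trans (by linarith)
    have h6 : Real.log ℓ ≤ 2 + (1 - t) * Real.log L := by
      have h7 : Real.log ℓ ≤ Real.log (3 * x) := Real.log_le_log (by linarith) hl3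
      have h8 : Real.log (3 * x) = Real.log 3 + (1 - t) * Real.log L := by
        rw [Real.log_mul (by norm_num) hx0.ne', hx, Real.log_rpow hL0]
      have h9 : Real.log 3 ≤ 2 := (Real.log_le_sub_one_of_pos (by norm_num)).trans (by norm_num)
      linarith
    have h10 : (1 - t) * Real.log L ≤ (1 - t) * x := mul_le_mul_of_nonneg_left h2 ht.le
    have h11 : (C0 : ℝ) * Real.log L ≤ C0 * x := mul_le_mul_of_nonneg_left h2 (Nat.cast_nonneg _)
    have h12 : (D : ℝ) + 2 ≤ (D + 2) * x := le_mul_of_one_le_right (by linarith) hx1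
    rw [h4, hA]
    have h13 : ((D : ℝ) + 2 + (1 - t) + C0) * x = (D + 2) * x + (1 - t) * x + C0 * x := by ring
    rw [h13]
    linarith
  have hA0 : 0 ≤ A := by positivity
  have hpow : b ^ (D * ℓ) = Real.exp (((D * ℓ : ℕ) : ℝ) * Real.log b) := by
    rw [Real.exp_nat_mul, Real.exp_log hb0]
  have hpow2 : (2 : ℝ) ^ (D * ℓ ^ 2) = Real.exp (((D * ℓ ^ 2 : ℕ) : ℝ) * Real.log 2) := by
    rw [Real.exp_nat_mul, Real.exp_log (by norm_num)]
  rw [hpow, hpow2, ← Real.exp_add]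
  refine Real.exp_le_exp.2 ?_
  have h20 : L ^ t2 = L ^ (t2 - 2 * (1 - t)) * x ^ 2 := by
    have h21 : x ^ 2 = L ^ (2 * (1 - t)) := by
      rw [hx, ← Real.rpow_natCast, ← Real.rpow_mul hL0.le]
      congr 1
      push_cast
      ring
    rw [h21, ← Real.rpow_add hL0]
    congr 1
    ring
  have h22 : K * x ^ 2 ≤ L ^ t2 := by
    rw [h20]
    exact mul_le_mul_of_nonneg_right h3 (by positivity)
  refine le_trans ?_ h22
  have h23 : ((D * ℓ : ℕ) : ℝ) * Real.log b ≤ (D * (3 * x)) * (A * x) := by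
    push_cast
    have h24 : (D : ℝ) * ℓ ≤ D * (3 * x) := mul_le_mul_of_nonneg_left hl3 (by linarith)
    calc (D : ℝ) * ℓ * Real.log b ≤ (D : ℝ) * ℓ * (A * x) := mul_le_mul_of_nonneg_left hlogb (by positivity)
      _ ≤ _ := mul_le_mul_of_nonneg_right h24 (by positivity)
  have h25 : ((D * ℓ ^ 2 : ℕ) : ℝ) * Real.log 2 ≤ (D * (3 * x) ^ 2) * 1 := by
    push_cast
    have h26 : (ℓ : ℝ) ^ 2 ≤ (3 * x) ^ 2 := pow_le_pow_left₀ (by linarith) hl3 2
    have h27 : Real.log 2 ≤ 1 := (Real.log_le_sub_one_of_pos (by norm_num)).trans (by norm_num)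
    refine mul_le_mul (mul_le_mul_of_nonneg_left h26 (by linarith)) h27 (Real.log_nonneg (by norm_num))
      (by positivity)
  have h28 : (D * (3 * x)) * (A * x) + (D * (3 * x) ^ 2) * 1 = K * x ^ 2 := by
    rw [hK]
    ring
  linarith

theorem comb_lvl (t : ℝ) (ht0 : 0 < t) (ht1 : t < 1) : ∃ N0 : ℕ, ∀ N : ℕ, N0 ≤ N → ∀ n P : ℕ,
    Real.exp (Real.log N ^ t) ≤ P → 1 ≤ n → n ≤ N → ∃ ℓ : ℕ, 1 ≤ ℓ ∧ (ℓ : ℝ) ≤ Real.log N ^ (1 - t) + 2 ∧
      (n : ℝ) * P ≤ (P : ℝ) ^ ℓ ∧ (P : ℝ) ^ ℓ ≤ n * (P : ℝ) ^ 2 := by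
  refine ⟨2, fun N hN n P hP hn1 hnN => ?_⟩
  have hN2 : (2 : ℝ) ≤ N := by exact_mod_cast hN
  set L : ℝ := Real.log N with hL
  have hL0 : 0 < L := Real.log_pos (by linarith)
  have hP1 : (1 : ℝ) ≤ P := le_trans (Real.one_le_exp (Real.rpow_nonneg hL0.le _)) hP
  have hn1' : (1 : ℝ) ≤ n := by exact_mod_cast hn1
  have hk0 : (n : ℝ) ≤ (P : ℝ) ^ ⌈L ^ (1 - t)⌉₊ := by
    have h1 : (Real.exp (L ^ t)) ^ ⌈L ^ (1 - t)⌉₊ ≤ (P : ℝ) ^ ⌈L ^ (1 - t)⌉₊ :=
      pow_le_pow_left₀ (Real.exp_pos _).le hP _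
    rw [← Real.exp_nat_mul] at h1
    have h2 : L ≤ (⌈L ^ (1 - t)⌉₊ : ℝ) * L ^ t := by
      have h3 : L ^ (1 - t) * L ^ t = L := by
        rw [← Real.rpow_add hL0, sub_add_cancel, Real.rpow_one]
      calc L = L ^ (1 - t) * L ^ t := h3.symm
        _ ≤ _ := mul_le_mul_of_nonneg_right (Nat.le_ceil _) (Real.rpow_nonneg hL0.le _)
    have h4 : Real.exp L = N := by
      rw [hL]
      exact Real.exp_log (by linarith)
    have h5 : (N : ℝ) ≤ Real.exp ((⌈L ^ (1 - t)⌉₊ : ℝ) * L ^ t) := by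
      rw [← h4]
      exact Real.exp_le_exp.2 h2
    have h6 : (n : ℝ) ≤ N := by exact_mod_cast hnN
    linarith
  classical
  have hex : ∃ k : ℕ, (n : ℝ) ≤ (P : ℝ) ^ k := ⟨_, hk0⟩
  set k := Nat.find hex with hk
  have hk1 : (n : ℝ) ≤ (P : ℝ) ^ k := Nat.find_spec hex
  have hk2 : k ≤ ⌈L ^ (1 - t)⌉₊ := Nat.find_min' hex hk0
  refine ⟨k + 1, by omega, ?_, ?_, ?_⟩
  · have h7 : (⌈L ^ (1 - t)⌉₊ : ℝ) < L ^ (1 - t) + 1 := Nat.ceil_lt_add_one (Real.rpow_nonneg hL0.le _)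
    have h8 : (k : ℝ) ≤ (⌈L ^ (1 - t)⌉₊ : ℝ) := by exact_mod_cast hk2
    push_cast
    linarith
  · rw [pow_succ]
    exact mul_le_mul_of_nonneg_right hk1 (by linarith)
  · rcases Nat.eq_zero_or_pos k with h9 | h9
    · rw [h9, zero_add, pow_one]
      have h10 : (P : ℝ) ≤ (P : ℝ) ^ 2 := by nlinarith
      have h11 : (P : ℝ) ^ 2 ≤ n * (P : ℝ) ^ 2 := le_mul_of_one_le_left (by positivity) hn1'
      linarith
    · have h10 : ¬ (n : ℝ) ≤ (P : ℝ) ^ (k - 1) := Nat.find_min hex (by omega)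
      have h11 : k + 1 = (k - 1) + 2 := by omega
      rw [h11, pow_add]
      exact mul_le_mul_of_nonneg_right (not_le.1 h10).le (by positivity)

end Pool.Agent.H74.MDX

end

section

/-!
# MDX Num: the numerical constant

Proof.  With `E = 2C+1` (or a natural number `≥ 100 C`): `Bc C ℓ ≤ 6 · max of the summands`, each is at most `(10 E ℓ)^(10 ℓ)` times powers of 2 (`ℓ! ≤ ℓ^ℓ`), so
`Bc C ℓ ≤ (E1 ℓ)^(E1 ℓ)`; `1/εc C δ ℓ = 4(2C+1)/δ · (8C/δ)^(2ℓ) · (4(2C+1)^2)^ℓ ≤ (E1/δ)^(E1 ℓ)` for a natural number `E1 = E1(C)`; `Dc C ℓ ≤ E1^(E1 ℓ) 2^(ℓ^2)`.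
So the left side is at most `(E2 ℓ/δ)^(E2 ℓ) 2^(12 ℓ^2)` for some natural `E2 ≥ 12` depending on `C`; take `D = E2` (monotone in both exponent and base since `E2 ℓ/δ ≥ 1`).
-/

set_option autoImplicit false

namespace Pool.Agent.H74.MDX

noncomputable def Bc (C : ℝ) (ℓ : ℕ) : ℝ :=
  2 * C * 5 ^ ℓ + 1 + 4 ^ ℓ * C + (2 * C + 1) ^ (2 * ℓ) + (ℓ.factorial : ℝ) ^ 2 + 2 ^ (2 * ℓ + 8)

noncomputable def εc (C δ : ℝ) (ℓ : ℕ) : ℝ := δ / (4 * (2 * C + 1)) * (δ / (8 * C)) ^ (2 * ℓ) / (4 * (2 * C + 1) ^ 2) ^ ℓ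

noncomputable def Dc (C : ℝ) (ℓ : ℕ) : ℝ := C * 5 ^ ℓ + 4 ^ ℓ * C + 2 ^ (ℓ ^ 2 + 5 * ℓ)

/-- the total constant -/
noncomputable def Zc (C δ : ℝ) (ℓ : ℕ) : ℝ := 1000 * Bc C ℓ ^ 54 * Dc C ℓ ^ 12 / εc C δ ℓ ^ 8

private theorem Num_Bc {C : ℝ} (hC : 1 ≤ C) {E ℓ : ℕ} (hE : 100 * C ≤ E) (hℓ : 1 ≤ ℓ) :
    Bc C ℓ ≤ ((E : ℝ) * ℓ) ^ (3 * ℓ) := by
  have hℓ' : (1 : ℝ) ≤ ℓ := by exact_mod_cast hℓ
  have hE1 : (100 : ℝ) ≤ E := by linarith
  set Y : ℝ := (E : ℝ) * ℓ with hY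
  have hEY : (E : ℝ) ≤ Y := by rw [hY]; nlinarith
  have hℓY : (ℓ : ℝ) ≤ Y := by rw [hY]; nlinarith
  have hY1 : 100 ≤ Y := hE1.trans hEY
  have hCY : 100 * C ≤ Y := hE.trans hEY
  have hY0 : 0 ≤ Y := by linarith
  have hYY : Y ^ ℓ ≤ Y ^ (2 * ℓ) := pow_le_pow_right₀ (by linarith) (by omega)
  have h1 : 2 * C * 5 ^ ℓ ≤ Y ^ (2 * ℓ) := by
    calc 2 * C * 5 ^ ℓ ≤ (2 * C) ^ ℓ * 5 ^ ℓ := by
          gcongr
          exact le_self_pow₀ (by linarith) (by omega)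
      _ = (2 * C * 5) ^ ℓ := by rw [← mul_pow]
      _ ≤ Y ^ ℓ := pow_le_pow_left₀ (by positivity) (by linarith) _
      _ ≤ Y ^ (2 * ℓ) := hYY
  have h2 : (1 : ℝ) ≤ Y ^ (2 * ℓ) := one_le_pow₀ (by linarith)
  have h3 : 4 ^ ℓ * C ≤ Y ^ (2 * ℓ) := by
    calc 4 ^ ℓ * C ≤ 4 ^ ℓ * C ^ ℓ := by
          gcongr
          exact le_self_pow₀ hC (by omega)
      _ = (4 * C) ^ ℓ := by rw [mul_pow]
      _ ≤ Y ^ ℓ := pow_le_pow_left₀ (by positivity) (by linarith) _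
      _ ≤ Y ^ (2 * ℓ) := hYY
  have h4 : (2 * C + 1) ^ (2 * ℓ) ≤ Y ^ (2 * ℓ) := pow_le_pow_left₀ (by positivity) (by linarith) _
  have h5 : (ℓ.factorial : ℝ) ^ 2 ≤ Y ^ (2 * ℓ) := by
    have h6 : (ℓ.factorial : ℝ) ≤ (ℓ : ℝ) ^ ℓ := by exact_mod_cast Nat.factorial_le_pow ℓ
    calc (ℓ.factorial : ℝ) ^ 2 ≤ ((ℓ : ℝ) ^ ℓ) ^ 2 := by gcongr
      _ = (ℓ : ℝ) ^ (2 * ℓ) := by rw [← pow_mul, mul_comm]
      _ ≤ Y ^ (2 * ℓ) := by gcongr
  have h6 : (2 : ℝ) ^ (2 * ℓ + 8) ≤ Y ^ (2 * ℓ) := by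
    calc (2 : ℝ) ^ (2 * ℓ + 8) ≤ 2 ^ (10 * ℓ) := pow_le_pow_right₀ (by norm_num) (by omega)
      _ = ((2 : ℝ) ^ 5) ^ (2 * ℓ) := by rw [← pow_mul]; congr 1; ring
      _ ≤ Y ^ (2 * ℓ) := pow_le_pow_left₀ (by positivity) (by norm_num; linarith) _
  have h7 : 6 ≤ Y ^ ℓ := by
    have : Y ≤ Y ^ ℓ := le_self_pow₀ (by linarith) (by omega)
    linarith
  have h8 : Y ^ (3 * ℓ) = Y ^ ℓ * Y ^ (2 * ℓ) := by rw [← pow_add]; congr 1; ring
  rw [h8]
  have h9 : 0 ≤ Y ^ (2 * ℓ) := by positivity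
  calc Bc C ℓ ≤ 6 * Y ^ (2 * ℓ) := by
        unfold Bc
        linarith
    _ ≤ Y ^ ℓ * Y ^ (2 * ℓ) := by gcongr

private theorem Num_Dc {C : ℝ} (hC : 1 ≤ C) {E ℓ : ℕ} (hE : 100 * C ≤ E) (hℓ : 1 ≤ ℓ) :
    Dc C ℓ ≤ ((E : ℝ) * ℓ) ^ (2 * ℓ) * 2 ^ (ℓ ^ 2) := by
  have hℓ' : (1 : ℝ) ≤ ℓ := by exact_mod_cast hℓ
  have hE1 : (100 : ℝ) ≤ E := by linarith
  set Y : ℝ := (E : ℝ) * ℓ with hY
  have hEY : (E : ℝ) ≤ Y := by rw [hY]; nlinarith
  have hY1 : 100 ≤ Y := hE1.trans hEY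
  have hCY : 100 * C ≤ Y := hE.trans hEY
  have hY0 : 0 ≤ Y := by linarith
  have ht : (1 : ℝ) ≤ 2 ^ (ℓ ^ 2) := one_le_pow₀ (by norm_num)
  have h1 : C * 5 ^ ℓ ≤ Y ^ ℓ := by
    calc C * 5 ^ ℓ ≤ C ^ ℓ * 5 ^ ℓ := by
          gcongr
          exact le_self_pow₀ hC (by omega)
      _ = (C * 5) ^ ℓ := by rw [mul_pow]
      _ ≤ Y ^ ℓ := pow_le_pow_left₀ (by positivity) (by linarith) _
  have h2 : 4 ^ ℓ * C ≤ Y ^ ℓ := by
    calc 4 ^ ℓ * C ≤ 4 ^ ℓ * C ^ ℓ := by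
          gcongr
          exact le_self_pow₀ hC (by omega)
      _ = (4 * C) ^ ℓ := by rw [mul_pow]
      _ ≤ Y ^ ℓ := pow_le_pow_left₀ (by positivity) (by linarith) _
  have h3 : (2 : ℝ) ^ (ℓ ^ 2 + 5 * ℓ) ≤ 2 ^ (ℓ ^ 2) * Y ^ ℓ := by
    rw [pow_add, pow_mul]
    gcongr
    norm_num
    linarith
  have h4 : 3 ≤ Y ^ ℓ := by
    have : Y ≤ Y ^ ℓ := le_self_pow₀ (by linarith) (by omega)
    linarith
  have h5 : 0 ≤ Y ^ ℓ := by positivity
  have h6 : Y ^ (2 * ℓ) = Y ^ ℓ * Y ^ ℓ := by rw [← pow_add]; congr 1; ring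
  have h7 : Y ^ ℓ ≤ 2 ^ (ℓ ^ 2) * Y ^ ℓ := le_mul_of_one_le_left h5 ht
  calc Dc C ℓ ≤ 3 * (2 ^ (ℓ ^ 2) * Y ^ ℓ) := by
        unfold Dc
        linarith
    _ ≤ Y ^ ℓ * (2 ^ (ℓ ^ 2) * Y ^ ℓ) := by gcongr
    _ = Y ^ (2 * ℓ) * 2 ^ (ℓ ^ 2) := by rw [h6]; ring

private theorem Num_eps {C δ : ℝ} (hC : 1 ≤ C) (hδ : 0 < δ) (hδ1 : δ ≤ 1) {E ℓ : ℕ} (hE : 100 * C ≤ E)
    (hℓ : 1 ≤ ℓ) : 1 / εc C δ ℓ ≤ ((E : ℝ) * ℓ / δ) ^ (5 * ℓ) := by
  have hℓ' : (1 : ℝ) ≤ ℓ := by exact_mod_cast hℓ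
  have hE1 : (100 : ℝ) ≤ E := by linarith
  set X : ℝ := (E : ℝ) * ℓ / δ with hX
  have hEX : (E : ℝ) / δ ≤ X := by
    rw [hX]
    gcongr
    nlinarith
  have hEE : (E : ℝ) ≤ E / δ := by
    rw [le_div_iff₀ hδ]
    nlinarith
  have hX1 : 100 ≤ X := hE1.trans (hEE.trans hEX)
  have hX0 : 0 ≤ X := by linarith
  have hCX : 100 * C / δ ≤ X := by
    refine le_trans ?_ hEX
    gcongr
  have h0 : 1 / εc C δ ℓ = 4 * (2 * C + 1) / δ * (8 * C / δ) ^ (2 * ℓ) * (4 * (2 * C + 1) ^ 2) ^ ℓ := by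
    unfold εc
    rw [div_pow δ (8 * C), div_pow (8 * C) δ]
    field_simp
  have h1 : 4 * (2 * C + 1) / δ ≤ X ^ ℓ := by
    calc 4 * (2 * C + 1) / δ ≤ 100 * C / δ := div_le_div_of_nonneg_right (by linarith) hδ.le
      _ ≤ X := hCX
      _ ≤ X ^ ℓ := le_self_pow₀ (by linarith) (by omega)
  have h2 : (8 * C / δ) ^ (2 * ℓ) ≤ X ^ (2 * ℓ) := by
    refine pow_le_pow_left₀ (by positivity) ?_ _
    refine le_trans ?_ hCX
    gcongr
    norm_num
  have h3 : (4 * (2 * C + 1) ^ 2) ^ ℓ ≤ X ^ (2 * ℓ) := by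
    have h4 : (4 * (2 * C + 1) ^ 2) ^ ℓ = (2 * (2 * C + 1)) ^ (2 * ℓ) := by
      rw [pow_mul]
      congr 1
      ring
    rw [h4]
    refine pow_le_pow_left₀ (by positivity) ?_ _
    have : 100 * C ≤ X := hE.trans (hEE.trans hEX)
    linarith
  have h5 : X ^ (5 * ℓ) = X ^ ℓ * X ^ (2 * ℓ) * X ^ (2 * ℓ) := by
    rw [← pow_add, ← pow_add]
    congr 1
    ring
  rw [h0, h5]
  gcongr

theorem comb_num (C : ℝ) (hC : 1 ≤ C) : ∃ D : ℕ, 1 ≤ D ∧ ∀ (ℓ : ℕ) (δ : ℝ), 1 ≤ ℓ → 0 < δ → δ ≤ 1 →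
    Zc C δ ℓ ≤ (D * ℓ / δ) ^ (D * ℓ) * 2 ^ (D * ℓ ^ 2) := by
  obtain ⟨E, hE⟩ := exists_nat_ge (100 * C)
  refine ⟨E + 228, by omega, ?_⟩
  intro ℓ δ hℓ hδ hδ1
  have hℓ' : (1 : ℝ) ≤ ℓ := by exact_mod_cast hℓ
  have hE1 : (100 : ℝ) ≤ E := by linarith
  have hB := Num_Bc hC hE hℓ
  have hD := Num_Dc hC hE hℓ
  have he := Num_eps hC hδ hδ1 hE hℓ
  set X : ℝ := (E : ℝ) * ℓ / δ with hX
  have hYX : (E : ℝ) * ℓ ≤ X := by
    rw [hX, le_div_iff₀ hδ]
    have : 0 ≤ (E : ℝ) * ℓ := by positivity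
    nlinarith
  have hY1 : 100 ≤ (E : ℝ) * ℓ := by nlinarith
  have hX1 : 100 ≤ X := hY1.trans hYX
  have hX0 : 0 ≤ X := by linarith
  have hBX : Bc C ℓ ≤ X ^ (3 * ℓ) := hB.trans (by gcongr)
  have hDX : Dc C ℓ ≤ X ^ (2 * ℓ) * 2 ^ (ℓ ^ 2) := hD.trans (by gcongr)
  have hB0 : 0 ≤ Bc C ℓ := by
    unfold Bc
    positivity
  have hD0 : 0 ≤ Dc C ℓ := by
    unfold Dc
    positivity
  have hε0 : 0 < εc C δ ℓ := by
    unfold εc
    positivity
  have h1000 : (1000 : ℝ) ≤ X ^ (2 * ℓ) := by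
    calc (1000 : ℝ) ≤ 100 ^ 2 := by norm_num
      _ ≤ X ^ 2 := by gcongr
      _ ≤ X ^ (2 * ℓ) := pow_le_pow_right₀ (by linarith) (by omega)
  have hZ : Zc C δ ℓ ≤ X ^ (228 * ℓ) * 2 ^ (12 * ℓ ^ 2) := by
    have h1 : Zc C δ ℓ = 1000 * Bc C ℓ ^ 54 * Dc C ℓ ^ 12 * (1 / εc C δ ℓ) ^ 8 := by
      unfold Zc
      rw [one_div, inv_pow]
      rfl
    have h2 : (0 : ℝ) ≤ 1 / εc C δ ℓ := by positivity
    rw [h1]
    calc 1000 * Bc C ℓ ^ 54 * Dc C ℓ ^ 12 * (1 / εc C δ ℓ) ^ 8 ≤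
        X ^ (2 * ℓ) * (X ^ (3 * ℓ)) ^ 54 * (X ^ (2 * ℓ) * 2 ^ (ℓ ^ 2)) ^ 12 * (X ^ (5 * ℓ)) ^ 8 := by
          gcongr
      _ = X ^ (228 * ℓ) * 2 ^ (12 * ℓ ^ 2) := by
          rw [mul_pow, ← pow_mul, ← pow_mul, ← pow_mul, ← pow_mul]
          rw [show 12 * ℓ ^ 2 = ℓ ^ 2 * 12 by ring]
          rw [show 228 * ℓ = 2 * ℓ + 3 * ℓ * 54 + 2 * ℓ * 12 + 5 * ℓ * 8 by ring, pow_add, pow_add, pow_add]
          ring
  refine hZ.trans ?_
  have hXD : X ≤ ((E + 228 : ℕ) : ℝ) * ℓ / δ := by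
    rw [hX]
    gcongr
    linarith
  have h1 : X ^ (228 * ℓ) ≤ (((E + 228 : ℕ) : ℝ) * ℓ / δ) ^ ((E + 228) * ℓ) := by
    calc X ^ (228 * ℓ) ≤ (((E + 228 : ℕ) : ℝ) * ℓ / δ) ^ (228 * ℓ) := by gcongr
      _ ≤ (((E + 228 : ℕ) : ℝ) * ℓ / δ) ^ ((E + 228) * ℓ) := by
          refine pow_le_pow_right₀ (by linarith) ?_
          exact Nat.mul_le_mul_right ℓ (by omega)
  have h2 : (2 : ℝ) ^ (12 * ℓ ^ 2) ≤ 2 ^ ((E + 228) * ℓ ^ 2) := by
    refine pow_le_pow_right₀ (by norm_num) ?_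
    exact Nat.mul_le_mul_right _ (by omega)
  gcongr

end Pool.Agent.H74.MDX

end

section

/-!
# MDX Cnt: lower bound for the number of walks

Proof.  Induction on `j`.  `j = 0`: `Om R F 0` is in bijection with `F` (`w ↦ w.1 0`; `IsW` is trivial).
`j → j+1` (the bound `m - 2(j+1)κ ≥ 0` is assumed for `j+1`, so also for `j`): every `w ∈ Om R F j` with last vertex `i = v1 w ∈ F` is extended:
`(p, g)` with `(i, p, g) ∈ R` and `p` different from the `2j` primes of `w`: at least `m - 2jκ` (`h1`; for each `p` at most `κ` triples, `hM.out`);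
then `(i', q)` with `(i', q, g) ∈ R`, `q` different from the `2j+1` primes (`w` and `p`): at least `m - (2j+1)κ` (`h2`, `hM.inn`).  `i' ∈ F` by `hF`.
The walks `(Fin.snoc w.1 i', Fin.snoc w.2 (p, g, q))` are pairwise different.  So `|Om (j+1)| ≥ |Om j| (m - 2(j+1)κ)^2`.
A convenient form: map `Om R F (j+1)` to `Om R F j` by `Lw`; every fibre has at least `(m - 2(j+1)κ)^2` elements (`Finset.card_eq_sum_card_fiberwise`);
the fibre of `w` contains the image of the sigma type over `(i, p, g)` of the triples `(i', q, g)`.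
-/

set_option autoImplicit false

namespace Pool.Agent.H74.MDX

open Finset

private theorem Cnt_rem (S : Finset (ℕ × ℕ × ℕ)) (Q : Finset ℕ) (κ : ℝ)
    (h : ∀ p : ℕ, ((S.filter (fun u => u.2.1 = p)).card : ℝ) ≤ κ) :
    (S.card : ℝ) - Q.card * κ ≤ ((S.filter (fun u => u.2.1 ∉ Q)).card : ℝ) := by
  classical
  have e1 : (S.filter (fun u => u.2.1 ∈ Q)).card + (S.filter (fun u => ¬ u.2.1 ∈ Q)).card = S.card :=
    Finset.card_filter_add_card_filter_not _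
  have e2 : (S.filter (fun u => u.2.1 ∈ Q)).card =
      ∑ p ∈ Q, ((S.filter (fun u => u.2.1 ∈ Q)).filter (fun u => u.2.1 = p)).card := by
    refine Finset.card_eq_sum_card_fiberwise (f := fun u : ℕ × ℕ × ℕ => u.2.1) (t := Q) ?_
    intro u hu
    exact (Finset.mem_filter.1 (Finset.mem_coe.1 hu)).2
  have e3 : ((S.filter (fun u => u.2.1 ∈ Q)).card : ℝ) ≤ Q.card * κ := by
    rw [e2]
    push_cast
    calc ∑ p ∈ Q, (((S.filter (fun u => u.2.1 ∈ Q)).filter (fun u => u.2.1 = p)).card : ℝ)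
        ≤ ∑ _p ∈ Q, κ := by
          refine Finset.sum_le_sum (fun p _ => ?_)
          refine le_trans ?_ (h p)
          exact_mod_cast Finset.card_le_card (Finset.filter_subset_filter _ (Finset.filter_subset _ _))
      _ = Q.card * κ := by rw [Finset.sum_const, nsmul_eq_mul]
  have e4 : ((S.filter (fun u => u.2.1 ∈ Q)).card : ℝ) + ((S.filter (fun u => ¬ u.2.1 ∈ Q)).card : ℝ) = S.card := by
    exact_mod_cast e1
  linarith

/-- the primes of a walk -/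
private def Cnt_pr {j : ℕ} (w : Wk j) : Finset ℕ :=
  (univ.image (fun s : Fin j => (w.2 s).1)) ∪ (univ.image (fun s : Fin j => (w.2 s).2.2))

private theorem Cnt_pr_card {j : ℕ} (w : Wk j) : (Cnt_pr w).card ≤ 2 * j := by
  unfold Cnt_pr
  refine (Finset.card_union_le _ _).trans ?_
  have a1 : (univ.image (fun s : Fin j => (w.2 s).1)).card ≤ j :=
    Finset.card_image_le.trans (by rw [Finset.card_univ, Fintype.card_fin])
  have a2 : (univ.image (fun s : Fin j => (w.2 s).2.2)).card ≤ j :=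
    Finset.card_image_le.trans (by rw [Finset.card_univ, Fintype.card_fin])
  omega

private theorem Cnt_pr1 {j : ℕ} (w : Wk j) (s : Fin j) : (w.2 s).1 ∈ Cnt_pr w :=
  Finset.mem_union_left _ (Finset.mem_image_of_mem (fun s : Fin j => (w.2 s).1) (Finset.mem_univ s))

private theorem Cnt_pr2 {j : ℕ} (w : Wk j) (s : Fin j) : (w.2 s).2.2 ∈ Cnt_pr w :=
  Finset.mem_union_right _ (Finset.mem_image_of_mem (fun s : Fin j => (w.2 s).2.2) (Finset.mem_univ s))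

/-- the extended walk -/
private def Cnt_ext {j : ℕ} (w : Wk j) (a : ℕ) (b : ℕ × ℕ × ℕ) : Wk (j + 1) :=
  (Fin.snoc (α := fun _ => ℕ) w.1 a, Fin.snoc (α := fun _ => ℕ × ℕ × ℕ) w.2 b)

private theorem Cnt_ext_L {j : ℕ} (w : Wk j) (a : ℕ) (b : ℕ × ℕ × ℕ) : Lw (Cnt_ext w a b) = w := by
  unfold Lw Cnt_ext
  refine Prod.ext ?_ ?_
  · funext s
    exact Fin.snoc_castSucc (α := fun _ => ℕ) a w.1 s
  · funext s
    exact Fin.snoc_castSucc (α := fun _ => ℕ × ℕ × ℕ) b w.2 s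

private theorem Cnt_ext_1c {j : ℕ} (w : Wk j) (a : ℕ) (b : ℕ × ℕ × ℕ) (s : Fin (j + 1)) :
    (Cnt_ext w a b).1 s.castSucc = w.1 s := Fin.snoc_castSucc (α := fun _ => ℕ) a w.1 s

private theorem Cnt_ext_1l {j : ℕ} (w : Wk j) (a : ℕ) (b : ℕ × ℕ × ℕ) :
    (Cnt_ext w a b).1 (Fin.last (j + 1)) = a := Fin.snoc_last (α := fun _ => ℕ) a w.1

private theorem Cnt_ext_2c {j : ℕ} (w : Wk j) (a : ℕ) (b : ℕ × ℕ × ℕ) (s : Fin j) :
    (Cnt_ext w a b).2 s.castSucc = w.2 s := Fin.snoc_castSucc (α := fun _ => ℕ × ℕ × ℕ) b w.2 s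

private theorem Cnt_ext_2l {j : ℕ} (w : Wk j) (a : ℕ) (b : ℕ × ℕ × ℕ) :
    (Cnt_ext w a b).2 (Fin.last j) = b := Fin.snoc_last (α := fun _ => ℕ × ℕ × ℕ) b w.2

private theorem Cnt_ext_mem {j : ℕ} (R : Finset (ℕ × ℕ × ℕ)) (F : Finset ℕ) (w : Wk j) (hw : w ∈ Om R F j)
    (i' p g q : ℕ) (hi : i' ∈ F) (h1 : (v1 w, p, g) ∈ R) (h2 : (i', q, g) ∈ R)
    (hp : p ∉ Cnt_pr w) (hq : q ∉ insert p (Cnt_pr w)) : Cnt_ext w i' (p, g, q) ∈ Om R F (j + 1) := by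
  rw [mem_Om] at hw ⊢
  rw [Finset.mem_insert, not_or] at hq
  obtain ⟨hqp, hq⟩ := hq
  refine ⟨?_, ?_, ?_⟩
  · intro s
    refine Fin.lastCases ?_ (fun s => ?_) s
    · rw [Cnt_ext_1l]
      exact hi
    · rw [Cnt_ext_1c]
      exact hw.1 s
  · intro s
    refine Fin.lastCases ?_ (fun s => ?_) s
    · rw [Cnt_ext_1c, Cnt_ext_2l, Fin.succ_last, Cnt_ext_1l]
      exact ⟨h1, h2⟩
    · rw [Cnt_ext_1c, Cnt_ext_2c, Fin.succ_castSucc, Cnt_ext_1c]
      exact hw.2.1 s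
  · have hinj := hw.2.2
    have k1 : ∀ s t : Fin j, (w.2 s).1 = (w.2 t).1 → s = t := fun s t h =>
      Sum.inl_injective (hinj (a₁ := Sum.inl s) (a₂ := Sum.inl t) h)
    have k2 : ∀ s t : Fin j, (w.2 s).2.2 = (w.2 t).2.2 → s = t := fun s t h =>
      Sum.inr_injective (hinj (a₁ := Sum.inr s) (a₂ := Sum.inr t) h)
    have k3 : ∀ s t : Fin j, (w.2 s).1 ≠ (w.2 t).2.2 := fun s t h => by
      have := hinj (a₁ := Sum.inl s) (a₂ := Sum.inr t) h
      cases this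
    have m1 : Function.Injective (fun s : Fin (j + 1) => ((Cnt_ext w i' (p, g, q)).2 s).1) := by
      intro s t
      refine Fin.lastCases ?_ (fun s => ?_) s
      · refine Fin.lastCases (fun _ => rfl) (fun t => ?_) t
        intro h
        simp only [Cnt_ext_2l, Cnt_ext_2c] at h
        exact absurd (h ▸ Cnt_pr1 w t) hp
      · refine Fin.lastCases ?_ (fun t => ?_) t
        · intro h
          simp only [Cnt_ext_2l, Cnt_ext_2c] at h
          exact absurd (h ▸ Cnt_pr1 w s) hp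
        · intro h
          simp only [Cnt_ext_2c] at h
          rw [k1 s t h]
    have m2 : Function.Injective (fun s : Fin (j + 1) => ((Cnt_ext w i' (p, g, q)).2 s).2.2) := by
      intro s t
      refine Fin.lastCases ?_ (fun s => ?_) s
      · refine Fin.lastCases (fun _ => rfl) (fun t => ?_) t
        intro h
        simp only [Cnt_ext_2l, Cnt_ext_2c] at h
        exact absurd (h ▸ Cnt_pr2 w t) hq
      · refine Fin.lastCases ?_ (fun t => ?_) t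
        · intro h
          simp only [Cnt_ext_2l, Cnt_ext_2c] at h
          exact absurd (h ▸ Cnt_pr2 w s) hq
        · intro h
          simp only [Cnt_ext_2c] at h
          rw [k2 s t h]
    refine m1.sumElim m2 ?_
    intro s t
    refine Fin.lastCases ?_ (fun s => ?_) s
    · refine Fin.lastCases ?_ (fun t => ?_) t
      · intro h
        simp only [Cnt_ext_2l] at h
        exact hqp h.symm
      · intro h
        simp only [Cnt_ext_2l, Cnt_ext_2c] at h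
        exact absurd (h ▸ Cnt_pr2 w t) hp
    · refine Fin.lastCases ?_ (fun t => ?_) t
      · intro h
        simp only [Cnt_ext_2l, Cnt_ext_2c] at h
        exact absurd (h ▸ Cnt_pr1 w s) hq
      · intro h
        simp only [Cnt_ext_2c] at h
        exact k3 s t h

private theorem Cnt_fib {j : ℕ} (R : Finset (ℕ × ℕ × ℕ)) (F : Finset ℕ) (κ m : ℝ) (P : ℕ) (hM : Mul κ P R)
    (hF : ∀ t ∈ R, t.1 ∈ F) (hm : 2 * ((j + 1 : ℕ) : ℝ) * κ ≤ m)
    (h1 : ∀ i ∈ F, m ≤ ((R.filter (fun u => u.1 = i)).card : ℝ))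
    (h2 : ∀ t ∈ R, m ≤ ((R.filter (fun u => u.2.2 = t.2.2)).card : ℝ)) (w : Wk j) (hw : w ∈ Om R F j) :
    (m - 2 * ((j + 1 : ℕ) : ℝ) * κ) ^ 2 ≤ (((Om R F (j + 1)).filter (fun v => Lw v = w)).card : ℝ) := by
  classical
  have hκ : (0 : ℝ) ≤ κ := zero_le_one.trans hM.one
  set X : ℝ := m - 2 * ((j + 1 : ℕ) : ℝ) * κ with hX
  have hX0 : 0 ≤ X := by rw [hX]; linarith
  set S1 : Finset (ℕ × ℕ × ℕ) := (R.filter (fun u => u.1 = v1 w)).filter (fun u => u.2.1 ∉ Cnt_pr w) with hS1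
  set S2 : ℕ × ℕ × ℕ → Finset (ℕ × ℕ × ℕ) := fun u =>
    (R.filter (fun t => t.2.2 = u.2.2)).filter (fun t => t.2.1 ∉ insert u.2.1 (Cnt_pr w)) with hS2
  have hv : v1 w ∈ F := (mem_Om.1 hw).1 _
  have c1 : X ≤ (S1.card : ℝ) := by
    have a1 := Cnt_rem (R.filter (fun u => u.1 = v1 w)) (Cnt_pr w) κ (by
      intro p
      rw [Finset.filter_filter]
      exact hM.out _ _)
    have a2 := h1 _ hv
    have a3 : ((Cnt_pr w).card : ℝ) * κ ≤ 2 * j * κ := by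
      refine mul_le_mul_of_nonneg_right ?_ hκ
      exact_mod_cast Cnt_pr_card w
    rw [hX]
    push_cast
    nlinarith
  have c2 : ∀ u ∈ S1, X ≤ ((S2 u).card : ℝ) := by
    intro u hu
    have huR : u ∈ R := (Finset.mem_filter.1 (Finset.mem_filter.1 hu).1).1
    have a1 := Cnt_rem (R.filter (fun t => t.2.2 = u.2.2)) (insert u.2.1 (Cnt_pr w)) κ (by
      intro p
      rw [Finset.filter_filter]
      exact hM.inn _ _)
    have a2 := h2 _ huR
    have a3 : ((insert u.2.1 (Cnt_pr w)).card : ℝ) * κ ≤ (2 * j + 1) * κ := by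
      refine mul_le_mul_of_nonneg_right ?_ hκ
      have b1 := Finset.card_insert_le u.2.1 (Cnt_pr w)
      have b2 := Cnt_pr_card w
      have b3 : (insert u.2.1 (Cnt_pr w)).card ≤ 2 * j + 1 := by omega
      exact_mod_cast b3
    rw [hX]
    push_cast
    nlinarith
  have c3 : X ^ 2 ≤ ((S1.sigma S2).card : ℝ) := by
    rw [Finset.card_sigma]
    push_cast
    calc X ^ 2 = X * X := by ring
      _ ≤ (S1.card : ℝ) * X := mul_le_mul_of_nonneg_right c1 hX0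
      _ = ∑ _u ∈ S1, X := by rw [Finset.sum_const, nsmul_eq_mul]
      _ ≤ ∑ u ∈ S1, ((S2 u).card : ℝ) := Finset.sum_le_sum c2
  refine c3.trans ?_
  have c4 : (S1.sigma S2).card ≤ ((Om R F (j + 1)).filter (fun v => Lw v = w)).card := by
    refine Finset.card_le_card_of_injOn
      (fun x : (_ : ℕ × ℕ × ℕ) × (ℕ × ℕ × ℕ) => Cnt_ext w x.2.1 (x.1.2.1, x.1.2.2, x.2.2.1)) ?_ ?_
    · rintro ⟨u, t⟩ hx
      obtain ⟨hu, ht⟩ := Finset.mem_sigma.1 (Finset.mem_coe.1 hx)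
      obtain ⟨hu1, hu2⟩ := Finset.mem_filter.1 hu
      obtain ⟨hu1, hu3⟩ := Finset.mem_filter.1 hu1
      obtain ⟨ht1, ht2⟩ := Finset.mem_filter.1 ht
      obtain ⟨ht1, ht3⟩ := Finset.mem_filter.1 ht1
      refine Finset.mem_coe.2 (Finset.mem_filter.2 ⟨?_, Cnt_ext_L _ _ _⟩)
      refine Cnt_ext_mem R F w hw _ _ _ _ (hF _ ht1) ?_ ?_ hu2 ht2
      · rw [← hu3]
        exact hu1
      · dsimp only at ht3
        rw [← ht3]
        exact ht1
    · rintro ⟨u, t⟩ hx ⟨u', t'⟩ hx' h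
      obtain ⟨hu, ht⟩ := Finset.mem_sigma.1 (Finset.mem_coe.1 hx)
      obtain ⟨hu', ht'⟩ := Finset.mem_sigma.1 (Finset.mem_coe.1 hx')
      have hu3 := (Finset.mem_filter.1 (Finset.mem_filter.1 hu).1).2
      have hu3' := (Finset.mem_filter.1 (Finset.mem_filter.1 hu').1).2
      have ht3 := (Finset.mem_filter.1 (Finset.mem_filter.1 ht).1).2
      have ht3' := (Finset.mem_filter.1 (Finset.mem_filter.1 ht').1).2
      have e1 := congrArg (fun v : Wk (j + 1) => v.1 (Fin.last (j + 1))) h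
      have e2 := congrArg (fun v : Wk (j + 1) => v.2 (Fin.last j)) h
      simp only [Cnt_ext_1l] at e1
      simp only [Cnt_ext_2l, Prod.mk.injEq] at e2
      dsimp only at hu3 hu3' ht3 ht3' e1 e2
      obtain ⟨u1, u2, u3⟩ := u
      obtain ⟨u1', u2', u3'⟩ := u'
      obtain ⟨t1, t2, t3⟩ := t
      obtain ⟨t1', t2', t3'⟩ := t'
      dsimp only at hu3 hu3' ht3 ht3' e1 e2
      obtain ⟨f1, f2, f3⟩ := e2
      subst f1 f2 f3 e1
      subst hu3 hu3'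
      subst ht3
      subst ht3'
      rfl
  exact_mod_cast c4

theorem om_card (R : Finset (ℕ × ℕ × ℕ)) (F : Finset ℕ) (κ m : ℝ) (P j : ℕ) (hM : Mul κ P R)
    (hF : ∀ t ∈ R, t.1 ∈ F) (hm : 2 * j * κ ≤ m)
    (h1 : ∀ i ∈ F, m ≤ ((R.filter (fun u => u.1 = i)).card : ℝ))
    (h2 : ∀ t ∈ R, m ≤ ((R.filter (fun u => u.2.2 = t.2.2)).card : ℝ)) :
    (F.card : ℝ) * (m - 2 * j * κ) ^ (2 * j) ≤ (Om R F j).card := by
  classical
  have hκ : (0 : ℝ) ≤ κ := zero_le_one.trans hM.one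
  induction j with
  | zero =>
    rw [Nat.mul_zero, pow_zero, mul_one]
    have c : F.card ≤ (Om R F 0).card := by
      refine Finset.card_le_card_of_injOn (fun i : ℕ => ((fun _ => i, fun s => s.elim0) : Wk 0)) ?_ ?_
      · intro i hi
        refine Finset.mem_coe.2 (mem_Om.2 ⟨fun _ => Finset.mem_coe.1 hi, fun s => s.elim0, ?_⟩)
        rintro (s | s)
        · exact s.elim0
        · exact s.elim0
      · intro i _ i' _ h
        exact congrArg (fun v : Wk 0 => v.1 0) h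
    exact_mod_cast c
  | succ j ih =>
    have hm' : 2 * (j : ℝ) * κ ≤ m := by
      push_cast at hm
      nlinarith
    have ih' := ih hm'
    set X : ℝ := m - 2 * ((j + 1 : ℕ) : ℝ) * κ with hX
    have hX0 : 0 ≤ X := by rw [hX]; linarith
    have hXY : X ≤ m - 2 * (j : ℝ) * κ := by
      rw [hX]
      push_cast
      nlinarith
    have c1 : (F.card : ℝ) * X ^ (2 * j) ≤ (Om R F j).card :=
      (mul_le_mul_of_nonneg_left (pow_le_pow_left₀ hX0 hXY _) (Nat.cast_nonneg _)).trans ih'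
    have c2 : (Om R F (j + 1)).card = ∑ w ∈ Om R F j, ((Om R F (j + 1)).filter (fun v => Lw v = w)).card := by
      refine Finset.card_eq_sum_card_fiberwise (f := (Lw : Wk (j + 1) → Wk j)) (t := Om R F j) ?_
      intro v hv
      exact Finset.mem_coe.2 (Lw_mem (Finset.mem_coe.1 hv))
    have c3 : ((Om R F j).card : ℝ) * X ^ 2 ≤ (Om R F (j + 1)).card := by
      rw [c2]
      push_cast
      calc ((Om R F j).card : ℝ) * X ^ 2 = ∑ _w ∈ Om R F j, X ^ 2 := by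
            rw [Finset.sum_const, nsmul_eq_mul]
        _ ≤ _ := Finset.sum_le_sum (fun w hw => Cnt_fib R F κ m P hM hF hm h1 h2 w hw)
    calc (F.card : ℝ) * X ^ (2 * (j + 1)) = ((F.card : ℝ) * X ^ (2 * j)) * X ^ 2 := by ring
      _ ≤ ((Om R F j).card : ℝ) * X ^ 2 := mul_le_mul_of_nonneg_right c1 (by positivity)
      _ ≤ _ := c3

end Pool.Agent.H74.MDX

end

section

/-!
# MDX Clean: a subset of the triples with large minimal degrees

Proof.  Among all `S ⊆ R` (`R.powerset` is finite, nonempty) choose one which maximises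
`f(S) = |S| - m |S.image fst| - k |S.image (·.2.2)|` (real numbers; `Finset.exists_max_image`).  `f(R) ≥ |R| - m |F| - k |G|` because
`R.image fst ⊆ F`, `R.image (·.2.2) ⊆ G`; `|S| ≥ f(S) ≥ f(R)` as `m, k ≥ 0`.  If for some `t ∈ S` fewer than `m` triples `u ∈ S` had `u.1 = t.1`, then
`S' = S.filter (u.1 ≠ t.1)` has `f(S') ≥ |S| - deg - m (|S.image fst| - 1) - k |S.image (·.2.2)| > f(S)`: contradiction.  The same for `.2.2`.
-/

set_option autoImplicit false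

namespace Pool.Agent.H74.MDX

open Finset

private theorem Clean_step (S : Finset (ℕ × ℕ × ℕ)) (φ ψ : ℕ × ℕ × ℕ → ℕ) (m k : ℝ) (hm : 0 ≤ m) (hk : 0 ≤ k)
    (hmax : ∀ T ⊆ S, (T.card : ℝ) - m * (T.image φ).card - k * (T.image ψ).card ≤
      (S.card : ℝ) - m * (S.image φ).card - k * (S.image ψ).card) :
    ∀ t ∈ S, m ≤ ((S.filter (fun u => φ u = φ t)).card : ℝ) := by
  intro t ht
  by_contra hlt
  push Not at hlt
  have h1 := hmax (S.filter (fun u => ¬ φ u = φ t)) (Finset.filter_subset _ _)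
  have h2 : (S.filter (fun u => φ u = φ t)).card + (S.filter (fun u => ¬ φ u = φ t)).card = S.card :=
    Finset.card_filter_add_card_filter_not _
  have h3 : ((S.filter (fun u => ¬ φ u = φ t)).image φ).card + 1 ≤ (S.image φ).card := by
    have h4 : (S.filter (fun u => ¬ φ u = φ t)).image φ ⊆ (S.image φ).erase (φ t) := by
      intro x hx
      rw [Finset.mem_image] at hx
      obtain ⟨u, hu, rfl⟩ := hx
      rw [Finset.mem_filter] at hu
      exact Finset.mem_erase.2 ⟨hu.2, Finset.mem_image_of_mem φ hu.1⟩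
    have h5 := Finset.card_le_card h4
    have h6 := Finset.card_erase_add_one (Finset.mem_image_of_mem φ ht)
    omega
  have h4 : ((S.filter (fun u => ¬ φ u = φ t)).image ψ).card ≤ (S.image ψ).card :=
    Finset.card_le_card (Finset.image_subset_image (Finset.filter_subset _ _))
  have h2' : ((S.filter (fun u => φ u = φ t)).card : ℝ) + ((S.filter (fun u => ¬ φ u = φ t)).card : ℝ) = (S.card : ℝ) := by
    exact_mod_cast h2
  have h3' : (((S.filter (fun u => ¬ φ u = φ t)).image φ).card : ℝ) + 1 ≤ ((S.image φ).card : ℝ) := by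
    exact_mod_cast h3
  have h4' : (((S.filter (fun u => ¬ φ u = φ t)).image ψ).card : ℝ) ≤ ((S.image ψ).card : ℝ) := by
    exact_mod_cast h4
  have h7 := mul_le_mul_of_nonneg_left h3' hm
  have h8 := mul_le_mul_of_nonneg_left h4' hk
  rw [mul_add, mul_one] at h7
  linarith

theorem clean (R : Finset (ℕ × ℕ × ℕ)) (F G : Finset ℕ) (hF : ∀ t ∈ R, t.1 ∈ F) (hG : ∀ t ∈ R, t.2.2 ∈ G)
    (m k : ℝ) (hm : 0 ≤ m) (hk : 0 ≤ k) :
    ∃ S ⊆ R, (R.card : ℝ) - m * F.card - k * G.card ≤ S.card ∧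
      (∀ t ∈ S, m ≤ ((S.filter (fun u => u.1 = t.1)).card : ℝ)) ∧
      (∀ t ∈ S, k ≤ ((S.filter (fun u => u.2.2 = t.2.2)).card : ℝ)) := by
  obtain ⟨S, hS, hmax⟩ := Finset.exists_max_image R.powerset
    (fun S : Finset (ℕ × ℕ × ℕ) => (S.card : ℝ) - m * (S.image (fun u => u.1)).card -
      k * (S.image (fun u => u.2.2)).card) ⟨R, Finset.mem_powerset_self R⟩
  rw [Finset.mem_powerset] at hS
  refine ⟨S, hS, ?_, ?_, ?_⟩
  · have h1 := hmax R (Finset.mem_powerset_self R)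
    have h2 : (R.image (fun u => u.1)).card ≤ F.card := Finset.card_le_card (Finset.image_subset_iff.2 hF)
    have h3 : (R.image (fun u => u.2.2)).card ≤ G.card := Finset.card_le_card (Finset.image_subset_iff.2 hG)
    have h2' : ((R.image (fun u => u.1)).card : ℝ) ≤ (F.card : ℝ) := by exact_mod_cast h2
    have h3' : ((R.image (fun u => u.2.2)).card : ℝ) ≤ (G.card : ℝ) := by exact_mod_cast h3
    have h4 := mul_le_mul_of_nonneg_left h2' hm
    have h5 := mul_le_mul_of_nonneg_left h3' hk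
    have h6 : 0 ≤ m * ((S.image (fun u => u.1)).card : ℝ) := mul_nonneg hm (Nat.cast_nonneg _)
    have h7 : 0 ≤ k * ((S.image (fun u => u.2.2)).card : ℝ) := mul_nonneg hk (Nat.cast_nonneg _)
    linarith
  · exact Clean_step S (fun u => u.1) (fun u => u.2.2) m k hm hk fun T hT =>
      hmax T (Finset.mem_powerset.2 (hT.trans hS))
  · refine Clean_step S (fun u => u.2.2) (fun u => u.1) k m hk hm fun T hT => ?_
    have h1 := hmax T (Finset.mem_powerset.2 (hT.trans hS))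
    linarith

end Pool.Agent.H74.MDX

end

section

/-!
# MDB Osc: few indices `i` with `W/i` near an integer

Proof.  By `nz_neg` we may assume `W > 0` (`nz (-t) = nz t`, replace `W` by `|W|`: `|W|/i = ± W/i`).  For `i ∈ S` let `m(i) = round (W/i)`: `|W/i - m(i)| ≤ κ ≤ 1/2`, so `m(i) ≥ 0` (as `W/i > 0`, `m ≥ -1/2`) and
`m(i) ≤ W C/n + 1/2`.  So the `m(i)` take at most `W C/n + 3/2` values.  Fibre of `m`: if `i < i'` are both in it then `W/i - W/i' ≤ 2κ` and `W/i - W/i' = W (i' - i)/(i i') ≥ W (i' - i)/(C^2 n^2)`, so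
`i' - i ≤ 2 κ C^2 n^2/W`: the fibre is contained in an interval of this length and has at most `2 κ C^2 n^2/W + 1` elements.  `S.card ≤ (number of values) * (max fibre)` (`Finset.card_le_mul_card_image` or
`card_eq_sum_card_fiberwise`).
-/

set_option autoImplicit false

namespace Pool.Agent.H53.MDB

open Finset
open Pool.Agent.H53.MID (nz)

/-- a set of natural numbers of diameter at most `D` -/
private theorem Osc_diam (D : ℝ) (T : Finset ℕ) (hD : 0 ≤ D)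
    (hT : ∀ i ∈ T, ∀ i' ∈ T, i < i' → (i' : ℝ) - i ≤ D) : (T.card : ℝ) ≤ D + 1 := by
  rcases T.eq_empty_or_nonempty with h0 | hne
  · rw [h0, Finset.card_empty, Nat.cast_zero]
    linarith
  · obtain ⟨a, ha⟩ : ∃ a, a = T.min' hne := ⟨_, rfl⟩
    have haT : a ∈ T := by
      rw [ha]
      exact Finset.min'_mem _ _
    have hsub : T ⊆ Finset.Icc a (a + ⌊D⌋₊) := by
      intro i hi
      have h1 : a ≤ i := by
        rw [ha]
        exact Finset.min'_le _ _ hi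
      rw [Finset.mem_Icc]
      refine ⟨h1, ?_⟩
      rcases h1.eq_or_lt with h2 | h2
      · omega
      · have h3 := hT a haT i hi h2
        have h4 : ((i - a : ℕ) : ℝ) ≤ D := by
          rw [Nat.cast_sub h1]
          exact h3
        have h5 : i - a ≤ ⌊D⌋₊ := Nat.le_floor h4
        omega
    have h6 : (T.card : ℝ) ≤ ((⌊D⌋₊ + 1 : ℕ) : ℝ) := by
      have h7 : T.card ≤ ⌊D⌋₊ + 1 := by
        refine (Finset.card_le_card hsub).trans ?_
        rw [Nat.card_Icc]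
        omega
      exact_mod_cast h7
    refine h6.trans ?_
    push_cast
    have := Nat.floor_le hD
    linarith

/-- the case of a positive number -/
private theorem Osc_pos (C : ℝ) (hC : 1 ≤ C) (n : ℕ) (W κ : ℝ) (hn : 1 ≤ n) (hW : 0 < W) (hκ : 0 ≤ κ)
    (hκ2 : κ ≤ 1 / 2) (S : Finset ℕ)
    (hS : ∀ i ∈ S, (n : ℝ) / C ≤ i ∧ (i : ℝ) ≤ C * n ∧ nz (W / i) ≤ κ) :
    (S.card : ℝ) ≤ (C * W / n + 2) * (2 * κ * C ^ 2 * n ^ 2 / W + 1) := by
  have hn0 : (0 : ℝ) < n := by exact_mod_cast hn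
  have hC0 : 0 < C := by linarith
  have hD : 0 ≤ 2 * κ * C ^ 2 * (n : ℝ) ^ 2 / W := by positivity
  have hi0 : ∀ i ∈ S, (0 : ℝ) < i := fun i hi => lt_of_lt_of_le (by positivity) (hS i hi).1
  have h1 : (S.card : ℝ) = ∑ m ∈ S.image (fun i : ℕ => round (W / i)),
      ((S.filter (fun i : ℕ => round (W / i) = m)).card : ℝ) := by
    rw [Finset.card_eq_sum_card_image (fun i : ℕ => round (W / i)) S]
    push_cast
    rfl
  have h2 : ∀ m ∈ S.image (fun i : ℕ => round (W / i)),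
      ((S.filter (fun i : ℕ => round (W / i) = m)).card : ℝ) ≤ 2 * κ * C ^ 2 * n ^ 2 / W + 1 := by
    intro m _
    refine Osc_diam _ _ hD fun i hi i' hi' hlt => ?_
    rw [Finset.mem_filter] at hi hi'
    have a1 := (hS i hi.1).2.2
    have a2 := (hS i' hi'.1).2.2
    unfold nz at a1 a2
    rw [hi.2, abs_le] at a1
    rw [hi'.2, abs_le] at a2
    have b1 := hi0 i hi.1
    have b2 := hi0 i' hi'.1
    have a3 : W / i - W / i' ≤ 2 * κ := by linarith [a1.2, a2.1]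
    have a4 : W / i - W / i' = W * ((i' : ℝ) - i) / (i * i') := by
      field_simp
    rw [a4, div_le_iff₀ (by positivity)] at a3
    have a5 : (i : ℝ) * i' ≤ (C * n) * (C * n) :=
      mul_le_mul (hS i hi.1).2.1 (hS i' hi'.1).2.1 b2.le (by positivity)
    rw [le_div_iff₀ hW]
    have a6 : 2 * κ * ((i : ℝ) * i') ≤ 2 * κ * ((C * n) * (C * n)) :=
      mul_le_mul_of_nonneg_left a5 (by positivity)
    nlinarith
  have h3 : (((S.image (fun i : ℕ => round (W / i))).card : ℕ) : ℝ) ≤ C * W / n + 2 := by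
    have h4 : S.image (fun i : ℕ => round (W / i)) ⊆ Finset.Icc (0 : ℤ) ⌊C * W / n + 1 / 2⌋ := by
      intro m hm
      rw [Finset.mem_image] at hm
      obtain ⟨i, hi, rfl⟩ := hm
      obtain ⟨a1, a2, a3⟩ := hS i hi
      have b1 := hi0 i hi
      unfold nz at a3
      rw [abs_le] at a3
      have c1 : 0 < W / (i : ℝ) := by positivity
      have c2 : W / (i : ℝ) ≤ C * W / n := by
        rw [div_le_iff₀ hC0] at a1
        rw [div_le_div_iff₀ b1 hn0]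
        nlinarith
      rw [Finset.mem_Icc]
      constructor
      · have c3 : (-1 : ℝ) < (round (W / (i : ℝ)) : ℝ) := by linarith [a3.2]
        have c4 : (-1 : ℤ) < round (W / (i : ℝ)) := by exact_mod_cast c3
        omega
      · rw [Int.le_floor]
        linarith [a3.1]
    have h5 := Finset.card_le_card h4
    rw [Int.card_Icc] at h5
    have h6 : (0 : ℤ) ≤ ⌊C * W / n + 1 / 2⌋ := by
      rw [Int.le_floor]
      push_cast
      positivity
    have h7 : ((⌊C * W / n + 1 / 2⌋ + 1 - 0).toNat : ℤ) = ⌊C * W / n + 1 / 2⌋ + 1 := by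
      rw [Int.toNat_of_nonneg (by omega)]
      ring
    have h8 : (((S.image (fun i : ℕ => round (W / i))).card : ℤ) : ℝ) ≤ ((⌊C * W / n + 1 / 2⌋ + 1 : ℤ) : ℝ) := by
      have h9 : (((S.image (fun i : ℕ => round (W / i))).card : ℕ) : ℤ) ≤ ⌊C * W / n + 1 / 2⌋ + 1 := by
        rw [← h7]
        exact_mod_cast h5
      exact_mod_cast h9
    push_cast at h8
    have h10 := Int.floor_le (C * W / n + 1 / 2)
    linarith
  rw [h1]
  refine (Finset.sum_le_sum h2).trans ?_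
  rw [Finset.sum_const, nsmul_eq_mul]
  exact mul_le_mul_of_nonneg_right h3 (by linarith)

theorem osc (C : ℝ) (hC : 1 ≤ C) (n : ℕ) (W κ : ℝ) (hn : 1 ≤ n) (hW : W ≠ 0) (hκ : 0 ≤ κ) (hκ2 : κ ≤ 1 / 2) (S : Finset ℕ)
    (hS : ∀ i ∈ S, (n : ℝ) / C ≤ i ∧ (i : ℝ) ≤ C * n ∧ nz (W / i) ≤ κ) :
    (S.card : ℝ) ≤ (C * |W| / n + 2) * (2 * κ * C ^ 2 * n ^ 2 / |W| + 1) := by
  refine Osc_pos C hC n |W| κ hn (abs_pos.2 hW) hκ hκ2 S fun i hi => ?_
  obtain ⟨a1, a2, a3⟩ := hS i hi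
  refine ⟨a1, a2, ?_⟩
  rcases abs_choice W with h | h
  · rw [h]
    exact a3
  · rw [h, neg_div, Pool.Agent.H53.MID.nz_neg]
    exact a3

end Pool.Agent.H53.MDB

end

section

/-!
# MDB BoostL: few quadruples with the congruence (the boost lemma)

Proof.  `L = log N`, `A = A1 + 2`, `T1'` from `sres_vk A`, `T1 = T1' + 1` in the statement.  Let `V = n/(16 C^2)`, `S = U × {m ∈ (P,2P] : (m, δ) = 1}`, `x (i, m) = log i - log m`, `c (i, m) = (m bb(i)) % δ`, `B = range δ`.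
For `q = ((i,p),(i',p')) ∈ NB`: `p, p' > P ≥ δ` primes (`δ ≤ exp(L^t2) ≤ exp(L^t) ≤ P`), so prime to `δ`; the congruence is `c (i,p) = c (i',p')`; `i, i' ≥ n/C > 0`; `|i p'/(i' p) - 1| = |i p' - i' p|/(i' p) ≤ 4 C P/((n/C) P) = 4 C^2/n ≤ 1/2`,
and `|log y| ≤ 2 |y - 1|` for `|y - 1| ≤ 1/2`, so `|x (i,p) - x (i',p')| = |log (i p'/(i' p))| ≤ 8 C^2/n` and `|x - x'| V ≤ 1/2`.  So by `fej`: `|NB| ≤ (4/V) ∫_{-V}^{V} GG P δ U bb t dt` (the sum over `s ∈ S` with `c s = β` is the double sum of `GG`).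
Split the integral at `|t| = L^T1'` (`≤ V` for large `N`, as `n ≥ N^(1/4)`; or use the bound `GG(t) ≤ (first bound) 1_{|t| ≤ L^T1'} + (second bound)` for all `|t| ≤ V`).
`|t| ≤ L^T1'`: `sres_triv` (`P/δ + 1 ≤ 2P/δ`), `gg_triv`: `GG ≤ δ (2P/δ · |U|)^2 = 4 P^2 |U|^2/δ`; contribution `(4/V) 2 L^T1' 4 P^2 |U|^2/δ = 512 C^2 L^T1' P^2 |U|^2/(n δ) ≤ L^(T1'+1) P^2 |U|^2/(n δ)`.
`L^T1' ≤ |t| ≤ V ≤ N`: `sres_vk`: `M = P/δ/L^A`, `gg_young`: `GG ≤ (P/L^A)^2 ∑_c |u_c(t)|^2`, `u_c(t) = ∑_{i ∈ U, bb i % δ = c} ee(t log i)`; `Pool.Agent.H53.MID.mvt` (`X = ⌊C n⌋`, `τ = 0`, coefficients `1_{U_c}`; replace `t` by `-t`: symmetric interval,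
or use that `ee(t log i)` is the conjugate of `ee(-(t log i))`): `∫_{-V}^{V} |u_c|^2 ≤ (2V + 2X(1 + log X)) |U_c| ≤ 10 C n L |U_c|` (`log X ≤ log C + L`).
Contribution `≤ (64 C^2/n)(P^2/L^(2A)) 10 C n L |U| = 640 C^3 P^2 |U| L^(1-2A) ≤ P^2 |U|/L^A1` for large `N`.
-/

set_option autoImplicit false

namespace Pool.Agent.H53.MDB

open Finset MeasureTheory
open Pool.Agent.H91.PK (ee)
open Pool.Agent.H53.MIX (VKe)

private theorem BoostL_conj (x : ℝ) : starRingEnd ℂ (ee x) = ee (-x) := by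
  unfold ee
  rw [← Complex.exp_conj]
  congr 1
  have h2 : (starRingEnd ℂ) 2 = 2 := map_ofNat _ 2
  simp [h2]

private theorem BoostL_ee_cont (a : ℝ) : Continuous fun t : ℝ => ee (t * a) := by
  unfold ee
  fun_prop

/-- the logarithm near `1` -/
private theorem BoostL_log {y r : ℝ} (h : |y - 1| ≤ r) (hr : r ≤ 1 / 2) : |Real.log y| ≤ 2 * r := by
  have h1 := abs_le.1 h
  have hy : 0 < y := by linarith
  have h2 := Real.log_le_sub_one_of_pos hy
  have h3 := Real.one_sub_inv_le_log_of_pos hy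
  have h4 : -(2 * r) ≤ 1 - y⁻¹ := by
    have h5 : 1 - y⁻¹ = (y - 1) / y := by field_simp
    rw [h5, le_div_iff₀ hy]
    nlinarith
  rw [abs_le]
  constructor <;> linarith

/-- the quadruples are pairs of close values -/
private theorem BoostL_close {C n P i i' p p' : ℝ} (hC : 1 ≤ C) (hn : 8 * C ^ 2 ≤ n) (hP : 0 < P)
    (hi : n / C ≤ i) (hi' : n / C ≤ i') (hp : P < p) (hp' : P < p') (h : |i * p' - i' * p| ≤ 4 * C * P) :
    |(Real.log i - Real.log p) - (Real.log i' - Real.log p')| * (n / (16 * C ^ 2)) ≤ 1 / 2 := by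
  have hC0 : 0 < C := by linarith
  have hn0 : 0 < n := by nlinarith
  have hnC : 0 < n / C := by positivity
  have hi0 : 0 < i := by linarith
  have hi'0 : 0 < i' := by linarith
  have hp0 : 0 < p := by linarith
  have hp'0 : 0 < p' := by linarith
  have e1 : (Real.log i - Real.log p) - (Real.log i' - Real.log p') = Real.log (i * p' / (i' * p)) := by
    rw [Real.log_div (by positivity) (by positivity), Real.log_mul hi0.ne' hp'0.ne',
      Real.log_mul hi'0.ne' hp0.ne']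
    ring
  rw [e1]
  have h1 : |i * p' / (i' * p) - 1| ≤ 4 * C ^ 2 / n := by
    have e2 : i * p' / (i' * p) - 1 = (i * p' - i' * p) / (i' * p) := by
      field_simp
    rw [e2, abs_div, abs_of_pos (show 0 < i' * p by positivity), div_le_div_iff₀ (by positivity) hn0]
    have h2 : n / C * P ≤ i' * p := mul_le_mul hi' hp.le hP.le hi'0.le
    have h3 : n * P ≤ C * (i' * p) := by
      have : n / C * P = n * P / C := by ring
      rw [this, div_le_iff₀ hC0] at h2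
      linarith
    calc |i * p' - i' * p| * n ≤ 4 * C * P * n := mul_le_mul_of_nonneg_right h hn0.le
      _ = 4 * C * (n * P) := by ring
      _ ≤ 4 * C * (C * (i' * p)) := mul_le_mul_of_nonneg_left h3 (by positivity)
      _ = 4 * C ^ 2 * (i' * p) := by ring
  have h2 : 4 * C ^ 2 / n ≤ 1 / 2 := by
    rw [div_le_iff₀ hn0]
    linarith
  have h3 := BoostL_log h1 h2
  calc |Real.log (i * p' / (i' * p))| * (n / (16 * C ^ 2))
      ≤ 2 * (4 * C ^ 2 / n) * (n / (16 * C ^ 2)) := mul_le_mul_of_nonneg_right h3 (by positivity)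
    _ = 1 / 2 := by field_simp; norm_num

/-- `NB` is contained in a set of pairs of close values -/
private theorem BoostL_sub {C : ℝ} (hC : 1 ≤ C) {n P δ : ℕ} (hn : 8 * C ^ 2 ≤ n) (hP : 0 < P) (hδ : 1 ≤ δ)
    (hδP : δ ≤ P) {U : Finset ℕ} {bb : ℕ → ℕ} (hU : ∀ i ∈ U, (n : ℝ) / C ≤ i) {q : (ℕ × ℕ) × (ℕ × ℕ)}
    (hq : q ∈ NB C P U δ bb) :
    (q.1 ∈ U ×ˢ (Ioc P (2 * P)).filter (fun m => Nat.Coprime m δ) ∧
      q.2 ∈ U ×ˢ (Ioc P (2 * P)).filter (fun m => Nat.Coprime m δ)) ∧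
    (q.1.2 * bb q.1.1) % δ = (q.2.2 * bb q.2.1) % δ ∧
    |(Real.log q.1.1 - Real.log q.1.2) - (Real.log q.2.1 - Real.log q.2.2)| * (n / (16 * C ^ 2)) ≤ 1 / 2 := by
  rw [mem_NB, mem_QS] at hq
  obtain ⟨⟨h1, h2, h3, h4, h5, h6, h7, h8, h9⟩, h10⟩ := hq
  have hcop : ∀ p : ℕ, P < p → p.Prime → Nat.Coprime p δ := by
    intro p hp hpp
    rw [Nat.Prime.coprime_iff_not_dvd hpp]
    intro hd
    have := Nat.le_of_dvd (by omega) hd
    omega
  refine ⟨⟨?_, ?_⟩, h10, ?_⟩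
  · rw [Finset.mem_product, Finset.mem_filter, Finset.mem_Ioc]
    exact ⟨h1, ⟨h2, h3⟩, hcop _ h2 h4⟩
  · rw [Finset.mem_product, Finset.mem_filter, Finset.mem_Ioc]
    exact ⟨h5, ⟨h6, h7⟩, hcop _ h6 h8⟩
  · exact BoostL_close hC hn (by exact_mod_cast hP) (hU _ h1) (hU _ h5) (by exact_mod_cast h2)
      (by exact_mod_cast h6) h9

open Classical in
/-- the sum in `fej` is `GG` -/
private theorem BoostL_GG (P δ : ℕ) (U : Finset ℕ) (bb : ℕ → ℕ) (t : ℝ) :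
    ∑ β ∈ range δ, ‖∑ s ∈ (U ×ˢ (Ioc P (2 * P)).filter (fun m => Nat.Coprime m δ)).filter
      (fun s : ℕ × ℕ => (s.2 * bb s.1) % δ = β), ee (t * (Real.log s.1 - Real.log s.2))‖ ^ 2 =
    GG P δ U bb t := by
  unfold GG
  refine Finset.sum_congr rfl fun β _ => ?_
  congr 2
  rw [Finset.sum_filter, Finset.sum_product]
  refine Finset.sum_congr rfl fun i _ => ?_
  rw [Finset.sum_filter, Finset.sum_filter]
  refine Finset.sum_congr rfl fun m _ => ?_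
  by_cases h1 : Nat.Coprime m δ
  · by_cases h2 : (m * bb i) % δ = β
    · rw [if_pos h1, if_pos h2, if_pos ⟨h1, h2⟩]
    · rw [if_pos h1, if_neg h2, if_neg fun h => h2 h.2]
  · rw [if_neg h1, if_neg fun h => h1 h.1]

private theorem BoostL_GG_cont (P δ : ℕ) (U : Finset ℕ) (bb : ℕ → ℕ) :
    Continuous fun t : ℝ => GG P δ U bb t := by
  unfold GG
  refine continuous_finsetSum _ fun β _ => ?_
  refine Continuous.pow ?_ 2
  refine Continuous.norm ?_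
  refine continuous_finsetSum _ fun i _ => ?_
  exact continuous_finsetSum _ fun m _ => BoostL_ee_cont _

/-- the mean value of `u_c` -/
private theorem BoostL_mv (C : ℝ) (hC : 1 ≤ C) (n : ℕ) (hn : 1 ≤ n) (W : Finset ℕ)
    (hW : ∀ i ∈ W, (n : ℝ) / C ≤ i ∧ (i : ℝ) ≤ C * n) (V : ℝ) (hV : 0 ≤ V) :
    ∫ t in Set.Icc (-V) V, ‖∑ i ∈ W, ee (t * Real.log i)‖ ^ 2 ≤
      (2 * V + 2 * (C * n) * (1 + Real.log (C * n))) * W.card := by
  have hn0 : (1 : ℝ) ≤ n := by exact_mod_cast hn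
  have hC0 : 0 < C := by linarith
  have hCn : 1 ≤ C * n := by nlinarith
  set X := ⌊C * n⌋₊ with hX
  have hX1 : 1 ≤ X := Nat.le_floor (by simpa using hCn)
  have hXle : (X : ℝ) ≤ C * n := Nat.floor_le (by linarith)
  have hX1' : (1 : ℝ) ≤ X := by exact_mod_cast hX1
  have hsub : W ⊆ Icc 1 X := by
    intro i hi
    obtain ⟨h1, h2⟩ := hW i hi
    rw [Finset.mem_Icc]
    refine ⟨?_, Nat.le_floor h2⟩
    have h3 : (0 : ℝ) < n / C := by positivity
    have h4 : (0 : ℝ) < i := by linarith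
    exact_mod_cast h4
  have h1 := Pool.Agent.H53.MID.mvt (fun m => if m ∈ W then 1 else 0) X V 0 hX1 hV
  have h2 : ∀ t : ℝ, ‖∑ i ∈ W, ee (t * Real.log i)‖ ^ 2 =
      ‖∑ m ∈ Icc 1 X, (if m ∈ W then (1 : ℂ) else 0) * ee (-((0 + t) * Real.log m))‖ ^ 2 := by
    intro t
    have e1 : ∑ m ∈ Icc 1 X, (if m ∈ W then (1 : ℂ) else 0) * ee (-((0 + t) * Real.log m)) =
        ∑ i ∈ W, ee (-(t * Real.log i)) := by
      rw [← Finset.sum_subset hsub (fun m _ hm => by rw [if_neg hm, zero_mul])]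
      exact Finset.sum_congr rfl fun m hm => by rw [if_pos hm, one_mul, zero_add]
    rw [e1, ← RCLike.norm_conj (∑ i ∈ W, ee (t * Real.log i)), map_sum]
    simp only [BoostL_conj]
  have h3 : ∑ m ∈ Icc 1 X, ‖(if m ∈ W then (1 : ℂ) else 0)‖ ^ 2 = W.card := by
    rw [← Finset.sum_subset hsub (fun m _ hm => by rw [if_neg hm, norm_zero]; ring)]
    rw [Finset.sum_congr rfl fun m hm => by rw [if_pos hm, norm_one, one_pow]]
    simp
  simp only [h2]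
  refine h1.trans ?_
  rw [h3]
  refine mul_le_mul_of_nonneg_right ?_ (Nat.cast_nonneg _)
  have h4 : Real.log X ≤ Real.log (C * n) := Real.log_le_log (by linarith) hXle
  have h5 : 0 ≤ Real.log X := Real.log_nonneg hX1'
  have h6 : (X : ℝ) * (1 + Real.log X) ≤ C * n * (1 + Real.log (C * n)) :=
    mul_le_mul hXle (by linarith) (by linarith) (by linarith)
  linarith

/-- the integral of the sum of the squares of the `u_c` -/
private theorem BoostL_Y (C : ℝ) (hC : 1 ≤ C) (n : ℕ) (hn : 1 ≤ n) (δ : ℕ) (hδ : 1 ≤ δ) (U : Finset ℕ)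
    (bb : ℕ → ℕ) (hU : ∀ i ∈ U, (n : ℝ) / C ≤ i ∧ (i : ℝ) ≤ C * n) (V : ℝ) (hV : 0 ≤ V) :
    ∫ t in Set.Icc (-V) V, ∑ c ∈ range δ, ‖∑ i ∈ U.filter (fun i => bb i % δ = c), ee (t * Real.log i)‖ ^ 2 ≤
      (2 * V + 2 * (C * n) * (1 + Real.log (C * n))) * U.card := by
  rw [integral_finsetSum]
  · calc ∑ c ∈ range δ, ∫ t in Set.Icc (-V) V,
          ‖∑ i ∈ U.filter (fun i => bb i % δ = c), ee (t * Real.log i)‖ ^ 2
        ≤ ∑ c ∈ range δ, (2 * V + 2 * (C * n) * (1 + Real.log (C * n))) *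
            ((U.filter (fun i => bb i % δ = c)).card : ℝ) := by
          refine Finset.sum_le_sum fun c _ => ?_
          exact BoostL_mv C hC n hn _ (fun i hi => hU i (Finset.mem_of_mem_filter i hi)) V hV
      _ = (2 * V + 2 * (C * n) * (1 + Real.log (C * n))) * U.card := by
          rw [← Finset.mul_sum]
          congr 1
          have h1 := Finset.card_eq_sum_card_fiberwise (s := U) (t := range δ) (f := fun i => bb i % δ)
            (fun i _ => Finset.mem_coe.2 (Finset.mem_range.2 (Nat.mod_lt _ (by omega))))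
          rw [h1]
          push_cast
          rfl
  · intro c _
    refine Continuous.integrableOn_Icc ?_
    refine Continuous.pow (Continuous.norm ?_) 2
    exact continuous_finsetSum _ fun i _ => BoostL_ee_cont _

/-- the integral of `GG` -/
private theorem BoostL_int (C : ℝ) (hC : 1 ≤ C) (n P δ : ℕ) (hn : 1 ≤ n) (hδ : 1 ≤ δ) (hδP : δ ≤ P)
    (U : Finset ℕ) (bb : ℕ → ℕ) (hU : ∀ i ∈ U, (n : ℝ) / C ≤ i ∧ (i : ℝ) ≤ C * n ∧ Nat.Coprime (bb i) δ)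
    (V T M : ℝ) (hV : 0 ≤ V) (hT : 0 ≤ T)
    (hM : ∀ t : ℝ, T ≤ |t| → |t| ≤ V → ∀ r : ℕ, ‖sres P δ r t‖ ≤ M) :
    ∫ t in Set.Icc (-V) V, GG P δ U bb t ≤ 4 * P ^ 2 * U.card ^ 2 / δ * (2 * T) +
      (δ * M) ^ 2 * ((2 * V + 2 * (C * n) * (1 + Real.log (C * n))) * U.card) := by
  have hδ0 : (0 : ℝ) < δ := by exact_mod_cast hδ
  have hP0 : (δ : ℝ) ≤ P := by exact_mod_cast hδP
  have hcop : ∀ i ∈ U, Nat.Coprime (bb i) δ := fun i hi => (hU i hi).2.2
  set Y : ℝ → ℝ := fun t => ∑ c ∈ range δ,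
    ‖∑ i ∈ U.filter (fun i => bb i % δ = c), ee (t * Real.log i)‖ ^ 2 with hY
  have hY0 : ∀ t, 0 ≤ Y t := fun t => Finset.sum_nonneg fun c _ => sq_nonneg _
  have hYc : Continuous Y := by
    refine continuous_finsetSum _ fun c _ => ?_
    refine Continuous.pow (Continuous.norm ?_) 2
    exact continuous_finsetSum _ fun i _ => BoostL_ee_cont _
  set G1 : ℝ := 4 * P ^ 2 * U.card ^ 2 / δ with hG1
  have hG10 : 0 ≤ G1 := by positivity
  set ind : ℝ → ℝ := (Set.Icc (-T) T).indicator (fun _ => (1 : ℝ)) with hind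
  have hind0 : ∀ t, 0 ≤ ind t := fun t => Set.indicator_nonneg (fun _ _ => zero_le_one) t
  have hindI : Integrable ind := by
    rw [hind, integrable_indicator_iff measurableSet_Icc]
    exact integrableOn_const (by rw [Real.volume_Icc]; exact ENNReal.ofReal_ne_top) (by simp)
  have hpt : ∀ t ∈ Set.Icc (-V) V, GG P δ U bb t ≤ G1 * ind t + (δ * M) ^ 2 * Y t := by
    intro t ht
    have htV : |t| ≤ V := abs_le.2 ⟨ht.1, ht.2⟩
    by_cases hc : |t| ≤ T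
    · have h1 : ind t = 1 := Set.indicator_of_mem (show t ∈ Set.Icc (-T) T from abs_le.1 hc) _
      have h2 : ∀ r : ℕ, ‖sres P δ r t‖ ≤ 2 * P / δ := by
        intro r
        refine (sres_triv P δ r t hδ).trans ?_
        rw [le_div_iff₀ hδ0, add_mul, div_mul_cancel₀ _ hδ0.ne']
        linarith
      have h3 := gg_triv P δ U bb t (2 * P / δ) hδ hcop h2
      have h4 : (δ : ℝ) * (2 * P / δ * U.card) ^ 2 = G1 := by
        rw [hG1]
        field_simp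
        ring
      rw [h4] at h3
      rw [h1, mul_one]
      have h5 : 0 ≤ (δ * M) ^ 2 * Y t := mul_nonneg (sq_nonneg _) (hY0 t)
      linarith
    · push Not at hc
      have h3 := gg_young P δ U bb t M hδ hcop (hM t hc.le htV)
      have h5 : 0 ≤ G1 * ind t := mul_nonneg hG10 (hind0 t)
      exact h3.trans (le_add_of_nonneg_left h5)
  have hI1 : IntegrableOn (fun t => G1 * ind t) (Set.Icc (-V) V) := (hindI.const_mul G1).integrableOn
  have hI2 : IntegrableOn (fun t => (δ * M) ^ 2 * Y t) (Set.Icc (-V) V) :=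
    (continuous_const.mul hYc).integrableOn_Icc
  calc ∫ t in Set.Icc (-V) V, GG P δ U bb t
      ≤ ∫ t in Set.Icc (-V) V, (G1 * ind t + (δ * M) ^ 2 * Y t) :=
        setIntegral_mono_on (BoostL_GG_cont P δ U bb).integrableOn_Icc (hI1.add hI2)
          measurableSet_Icc hpt
    _ = G1 * (∫ t in Set.Icc (-V) V, ind t) + (δ * M) ^ 2 * ∫ t in Set.Icc (-V) V, Y t := by
        rw [integral_add hI1 hI2, integral_const_mul, integral_const_mul]
    _ ≤ _ := by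
        refine add_le_add (mul_le_mul_of_nonneg_left ?_ hG10)
          (mul_le_mul_of_nonneg_left ?_ (sq_nonneg _))
        · refine (setIntegral_le_integral hindI (Filter.Eventually.of_forall hind0)).trans ?_
          rw [hind, integral_indicator measurableSet_Icc, integral_const]
          simp only [MeasurableSet.univ, measureReal_restrict_apply, Set.univ_inter, smul_eq_mul, mul_one]
          rw [Real.volume_real_Icc_of_le (by linarith)]
          linarith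
        · exact BoostL_Y C hC n hn δ hδ U bb (fun i hi => ⟨(hU i hi).1, (hU i hi).2.1⟩) V hV

theorem boostl (t0 t t2 : ℝ) (h0 : 0 < t0) (h0t : t0 < t) (h2 : 0 < t2) (h2t : t2 < t) (ht : t < 1) (hV : VKe t0) (C : ℝ)
    (hC : 1 ≤ C) (A1 : ℕ) : ∃ T1 N0 : ℕ, ∀ N : ℕ, N0 ≤ N → ∀ (n P δ : ℕ) (U : Finset ℕ) (bb : ℕ → ℕ),
    Real.exp (Real.log N ^ t) ≤ P → P ≤ N → (N : ℝ) ^ (1 / 4 : ℝ) ≤ n → n ≤ N → 1 ≤ δ → (δ : ℝ) ≤ Real.exp (Real.log N ^ t2) →
    (∀ i ∈ U, (n : ℝ) / C ≤ i ∧ (i : ℝ) ≤ C * n ∧ Nat.Coprime (bb i) δ) →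
    ((NB C P U δ bb).card : ℝ) ≤ P ^ 2 * (Real.log N ^ T1 * U.card ^ 2 / (n * δ) + U.card / Real.log N ^ A1) := by
  classical
  obtain ⟨T1, N1, hvk⟩ := sres_vk t0 t t2 h0 h0t h2 h2t hV (A1 + 2)
  have hC0 : 0 < C := by linarith
  -- the choice of `N0`
  have hlogN : Filter.Tendsto (fun N : ℕ => Real.log N) Filter.atTop Filter.atTop :=
    Real.tendsto_log_atTop.comp tendsto_natCast_atTop_atTop
  have hpowN : Filter.Tendsto (fun N : ℕ => (N : ℝ) ^ (1 / 4 : ℝ)) Filter.atTop Filter.atTop :=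
    (tendsto_rpow_atTop (by norm_num)).comp tendsto_natCast_atTop_atTop
  obtain ⟨N2, hN2⟩ := Filter.eventually_atTop.1
    ((hlogN.eventually_ge_atTop (512 * C ^ 3 + (1 + Real.log C))).and
      (hpowN.eventually_ge_atTop (8 * C ^ 2)))
  refine ⟨T1 + 1, max N1 N2, fun N hN n P δ U bb hP hPN hnN hn hδ hδQ hU => ?_⟩
  obtain ⟨hL, hNp⟩ := hN2 N ((le_max_right _ _).trans hN)
  have hvkN := hvk N ((le_max_left _ _).trans hN)
  set L := Real.log N with hLdef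
  have hlogC : 0 ≤ Real.log C := Real.log_nonneg hC
  have hC2 : 1 ≤ C ^ 2 := one_le_pow₀ hC
  have hC3 : 1 ≤ C ^ 3 := one_le_pow₀ hC
  have hC23 : C ^ 2 ≤ C ^ 3 := pow_le_pow_right₀ hC (by norm_num)
  have hL1 : 1 ≤ L := by nlinarith
  have hL512 : 512 * C ^ 3 ≤ L := by linarith
  have hLC : 1 + Real.log C ≤ L := by nlinarith
  have hn8 : 8 * C ^ 2 ≤ (n : ℝ) := hNp.trans hnN
  have hn0 : (0 : ℝ) < n := by nlinarith
  have hn1 : 1 ≤ n := by exact_mod_cast (by exact_mod_cast hn0 : 0 < n)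
  have hδ0 : (0 : ℝ) < δ := by exact_mod_cast hδ
  have hδP' : (δ : ℝ) ≤ P := hδQ.trans ((Real.exp_le_exp.2
    (Real.rpow_le_rpow_of_exponent_le hL1 h2t.le)).trans hP)
  have hδP : δ ≤ P := by exact_mod_cast hδP'
  have hP0 : 0 < P := by omega
  have hP0' : (0 : ℝ) < P := by exact_mod_cast hP0
  have hnN' : (n : ℝ) ≤ N := by exact_mod_cast hn
  set V : ℝ := n / (16 * C ^ 2) with hVdef
  have hV0 : 0 < V := by positivity
  have hVn : V ≤ n := by
    rw [hVdef, div_le_iff₀ (by positivity)]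
    nlinarith
  -- the pairs
  have hfej := fej (U ×ˢ (Ioc P (2 * P)).filter (fun m => Nat.Coprime m δ))
    (fun s : ℕ × ℕ => Real.log s.1 - Real.log s.2) (fun s => (s.2 * bb s.1) % δ) (range δ) V hV0
    (fun s _ => Finset.mem_range.2 (Nat.mod_lt _ (by omega)))
  simp only [BoostL_GG] at hfej
  have hcard : ((NB C P U δ bb).card : ℝ) ≤ 4 / V * ∫ t in Set.Icc (-V) V, GG P δ U bb t := by
    refine le_trans ?_ hfej
    have hle : (NB C P U δ bb).card ≤ (((U ×ˢ (Ioc P (2 * P)).filter (fun m => Nat.Coprime m δ)) ×ˢ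
        (U ×ˢ (Ioc P (2 * P)).filter (fun m => Nat.Coprime m δ))).filter
        (fun q => (q.1.2 * bb q.1.1) % δ = (q.2.2 * bb q.2.1) % δ ∧
          |(Real.log q.1.1 - Real.log q.1.2) - (Real.log q.2.1 - Real.log q.2.2)| * V ≤ 1 / 2)).card := by
      refine Finset.card_le_card fun q hq => ?_
      have h1 := BoostL_sub hC hn8 hP0 hδ hδP (fun i hi => (hU i hi).1) hq
      rw [Finset.mem_filter, Finset.mem_product]
      exact h1
    exact_mod_cast hle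
  have hint := BoostL_int C hC n P δ hn1 hδ hδP U bb hU V (L ^ T1) (P / δ / L ^ (A1 + 2)) hV0.le
    (by positivity) (fun u hu huV r => hvkN P δ r u hP hPN hδ hδQ hu (huV.trans (hVn.trans hnN')))
  have h4V : 4 / V = 64 * C ^ 2 / n := by
    rw [hVdef]
    field_simp
    norm_num
  have hmain : ((NB C P U δ bb).card : ℝ) ≤ 64 * C ^ 2 / n * (4 * P ^ 2 * U.card ^ 2 / δ * (2 * L ^ T1) +
      (δ * (P / δ / L ^ (A1 + 2))) ^ 2 *
        ((2 * V + 2 * (C * n) * (1 + Real.log (C * n))) * U.card)) := by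
    refine hcard.trans ?_
    rw [h4V]
    exact mul_le_mul_of_nonneg_left hint (by positivity)
  refine hmain.trans ?_
  have hU0 : (0 : ℝ) ≤ U.card := Nat.cast_nonneg _
  have hL0 : 0 < L := by linarith
  refine (le_of_eq (mul_add _ _ _)).trans ?_
  refine le_trans (add_le_add ?_ ?_) (le_of_eq (mul_add ((P : ℝ) ^ 2) _ _).symm)
  · have e1 : 64 * C ^ 2 / n * (4 * P ^ 2 * U.card ^ 2 / δ * (2 * L ^ T1)) =
        P ^ 2 * (512 * C ^ 2 * L ^ T1 * U.card ^ 2 / (n * δ)) := by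
      field_simp
      ring
    rw [e1, pow_succ]
    refine mul_le_mul_of_nonneg_left ?_ (by positivity)
    refine div_le_div_of_nonneg_right ?_ (by positivity)
    refine mul_le_mul_of_nonneg_right ?_ (by positivity)
    have h5 : 512 * C ^ 2 ≤ L := by nlinarith
    calc 512 * C ^ 2 * L ^ T1 ≤ L * L ^ T1 := mul_le_mul_of_nonneg_right h5 (by positivity)
      _ = L ^ T1 * L := by ring
  · have hlogn : Real.log n ≤ L := Real.log_le_log hn0 hnN'
    have hlogCn : Real.log (C * n) ≤ Real.log C + L := by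
      rw [Real.log_mul hC0.ne' hn0.ne']
      linarith
    have h5 : 2 * V + 2 * (C * n) * (1 + Real.log (C * n)) ≤ 6 * C * n * L := by
      have h6 : 1 + Real.log (C * n) ≤ 2 * L := by linarith
      have h7 : 2 * (C * n) * (1 + Real.log (C * n)) ≤ 2 * (C * n) * (2 * L) :=
        mul_le_mul_of_nonneg_left h6 (by positivity)
      have h8 : 2 * V ≤ 2 * C * n * L := by
        have h9 : (n : ℝ) ≤ C * n * L := by
          calc (n : ℝ) = 1 * n * 1 := by ring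
            _ ≤ C * n * L := by
              refine mul_le_mul (mul_le_mul_of_nonneg_right hC hn0.le) hL1 zero_le_one (by positivity)
        linarith
      linarith
    have e2 : (δ : ℝ) * (P / δ / L ^ (A1 + 2)) = P / L ^ (A1 + 2) := by
      field_simp
    rw [e2]
    calc 64 * C ^ 2 / n * ((P / L ^ (A1 + 2)) ^ 2 *
          ((2 * V + 2 * (C * n) * (1 + Real.log (C * n))) * U.card))
        ≤ 64 * C ^ 2 / n * ((P / L ^ (A1 + 2)) ^ 2 * ((6 * C * n * L) * U.card)) := by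
          refine mul_le_mul_of_nonneg_left (mul_le_mul_of_nonneg_left
            (mul_le_mul_of_nonneg_right h5 hU0) (by positivity)) (by positivity)
      _ = P ^ 2 * (384 * C ^ 3 * U.card / L ^ (2 * A1 + 3)) := by
          have e3 : L ^ (2 * A1 + 3) * L = (L ^ (A1 + 2)) ^ 2 := by
            rw [← pow_succ, ← pow_mul]
            congr 1
            ring
          rw [div_pow, ← e3]
          field_simp
          ring
      _ ≤ P ^ 2 * (U.card / L ^ A1) := by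
          refine mul_le_mul_of_nonneg_left ?_ (by positivity)
          rw [div_le_div_iff₀ (by positivity) (by positivity)]
          have h10 : 384 * C ^ 3 * L ^ A1 ≤ L ^ (2 * A1 + 3) := by
            calc 384 * C ^ 3 * L ^ A1 ≤ L * L ^ A1 :=
                  mul_le_mul_of_nonneg_right (by linarith) (by positivity)
              _ = L ^ (A1 + 1) := by ring
              _ ≤ L ^ (2 * A1 + 3) := pow_le_pow_right₀ hL1 (by omega)
          calc 384 * C ^ 3 * U.card * L ^ A1 = U.card * (384 * C ^ 3 * L ^ A1) := by ring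
            _ ≤ U.card * L ^ (2 * A1 + 3) := mul_le_mul_of_nonneg_left h10 hU0

end Pool.Agent.H53.MDB

end

section

/-!
# MDB Split: division of `U` according to the denominator and the size of `T`

Proof.  `K` = image of `U` under `i ↦ (⌊T i/Z⌋, D i)`.  If `D i = D i'` and `|T i - T i'| ≤ Z`, let (by symmetry) `T i ≤ T i'`, `m = ⌊T i/Z⌋`: `m Z ≤ T i ≤ T i' ≤ T i + Z < (m + 2) Z`.
Sum: every `i ∈ U` belongs to `Uk k` only for `k.2 = D i` and `k.1 Z ≤ T i < (k.1 + 2) Z`, i.e. `k.1 ∈ {⌊T i/Z⌋, ⌊T i/Z⌋ - 1}`: for at most two `k` (swap the sums, `Finset.sum_comm`, `card_filter`).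
-/

set_option autoImplicit false

namespace Pool.Agent.H53.MDB

open Finset

private theorem Split_floor (Z t : ℝ) (hZ : 0 < Z) : (⌊t / Z⌋ : ℝ) * Z ≤ t ∧ t < ((⌊t / Z⌋ : ℝ) + 1) * Z := by
  constructor
  · have h := Int.floor_le (t / Z)
    rwa [le_div_iff₀ hZ] at h
  · have h := Int.lt_floor_add_one (t / Z)
    rwa [div_lt_iff₀ hZ] at h

open Classical in
private theorem Split_two (Z : ℝ) (hZ : 0 < Z) (K : Finset (ℤ × ℕ)) (t : ℝ) (D : ℕ) :
    (K.filter (fun k => D = k.2 ∧ (k.1 : ℝ) * Z ≤ t ∧ t < ((k.1 : ℝ) + 2) * Z)).card ≤ 2 := by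
  have hsub : K.filter (fun k => D = k.2 ∧ (k.1 : ℝ) * Z ≤ t ∧ t < ((k.1 : ℝ) + 2) * Z) ⊆
      {(⌊t / Z⌋, D), (⌊t / Z⌋ - 1, D)} := by
    rintro ⟨m, d⟩ hk
    rw [Finset.mem_filter] at hk
    obtain ⟨-, h1, h2, h3⟩ := hk
    simp only at h1 h2 h3
    obtain ⟨f1, f2⟩ := Split_floor Z t hZ
    have a1 : (m : ℝ) < (⌊t / Z⌋ : ℝ) + 1 := lt_of_mul_lt_mul_right (lt_of_le_of_lt h2 f2) hZ.le
    have a2 : (⌊t / Z⌋ : ℝ) < (m : ℝ) + 2 := lt_of_mul_lt_mul_right (lt_of_le_of_lt f1 h3) hZ.le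
    have b1 : m < ⌊t / Z⌋ + 1 := by exact_mod_cast a1
    have b2 : ⌊t / Z⌋ < m + 2 := by exact_mod_cast a2
    simp only [Finset.mem_insert, Finset.mem_singleton, Prod.mk.injEq]
    subst h1
    rcases (by omega : m = ⌊t / Z⌋ ∨ m = ⌊t / Z⌋ - 1) with h | h
    · exact Or.inl ⟨h, rfl⟩
    · exact Or.inr ⟨h, rfl⟩
  exact (Finset.card_le_card hsub).trans Finset.card_le_two

open Classical in
theorem split (Z : ℝ) (hZ : 0 < Z) (U : Finset ℕ) (D : ℕ → ℕ) (T : ℕ → ℝ) : ∃ K : Finset (ℤ × ℕ),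
    (∀ k ∈ K, ∃ i ∈ U, D i = k.2) ∧
    ∑ k ∈ K, ((U.filter (fun i => D i = k.2 ∧ k.1 * Z ≤ T i ∧ T i < (k.1 + 2) * Z)).card : ℝ) ≤ 2 * U.card ∧
    ∀ i ∈ U, ∀ i' ∈ U, D i = D i' → |T i - T i'| ≤ Z → ∃ k ∈ K, D i = k.2 ∧ k.1 * Z ≤ T i ∧ T i < (k.1 + 2) * Z ∧
      k.1 * Z ≤ T i' ∧ T i' < (k.1 + 2) * Z := by
  refine ⟨U.image (fun i => (⌊T i / Z⌋, D i)), ?_, ?_, ?_⟩
  · intro k hk
    rw [Finset.mem_image] at hk
    obtain ⟨i, hi, rfl⟩ := hk
    exact ⟨i, hi, rfl⟩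
  · generalize hK : U.image (fun i => (⌊T i / Z⌋, D i)) = K
    have h1 : ∑ k ∈ K, (U.filter (fun i => D i = k.2 ∧ (k.1 : ℝ) * Z ≤ T i ∧ T i < ((k.1 : ℝ) + 2) * Z)).card =
        ∑ i ∈ U, (K.filter (fun k => D i = k.2 ∧ (k.1 : ℝ) * Z ≤ T i ∧ T i < ((k.1 : ℝ) + 2) * Z)).card := by
      simp only [Finset.card_filter]
      exact Finset.sum_comm
    have h2 : ∑ i ∈ U, (K.filter (fun k => D i = k.2 ∧ (k.1 : ℝ) * Z ≤ T i ∧ T i < ((k.1 : ℝ) + 2) * Z)).card ≤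
        ∑ _i ∈ U, 2 := Finset.sum_le_sum (fun i _ => Split_two Z hZ K (T i) (D i))
    rw [Finset.sum_const, smul_eq_mul] at h2
    have h3 : ∑ k ∈ K, (U.filter (fun i => D i = k.2 ∧ (k.1 : ℝ) * Z ≤ T i ∧ T i < ((k.1 : ℝ) + 2) * Z)).card ≤
        2 * U.card := by rw [h1]; linarith
    have h4 : ((∑ k ∈ K, (U.filter (fun i => D i = k.2 ∧ (k.1 : ℝ) * Z ≤ T i ∧ T i < ((k.1 : ℝ) + 2) * Z)).card : ℕ) : ℝ) ≤
        ((2 * U.card : ℕ) : ℝ) := by exact_mod_cast h3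
    push_cast at h4
    exact h4
  · have key : ∀ i ∈ U, ∀ i' ∈ U, D i = D i' → |T i - T i'| ≤ Z → T i ≤ T i' →
        ∃ k ∈ U.image (fun i => (⌊T i / Z⌋, D i)), D i = k.2 ∧ (k.1 : ℝ) * Z ≤ T i ∧ T i < ((k.1 : ℝ) + 2) * Z ∧
      (k.1 : ℝ) * Z ≤ T i' ∧ T i' < ((k.1 : ℝ) + 2) * Z := by
      intro i hi i' hi' hD hT hle
      obtain ⟨f1, f2⟩ := Split_floor Z (T i) hZ
      have hab := abs_le.mp hT
      refine ⟨(⌊T i / Z⌋, D i), Finset.mem_image_of_mem _ hi, rfl, f1, ?_, f1.trans hle, ?_⟩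
      · simp only
        nlinarith
      · simp only
        nlinarith
    intro i hi i' hi' hD hT
    rcases le_total (T i) (T i') with h | h
    · exact key i hi i' hi' hD hT h
    · obtain ⟨k, hk, e1, e2, e3, e4, e5⟩ := key i' hi' i hi hD.symm (by rwa [abs_sub_comm]) h
      exact ⟨k, hk, hD.trans e1, e4, e5, e2, e3⟩

end Pool.Agent.H53.MDB

end

section

/-!
# MID Ppw: few integers are close to `p q^j`, `j ≥ 2`, `p ≤ Z`

Proof.  The number of `m ≤ 4N` of the form `p q^j`, `j ≥ 2`, `p ≤ Z`: for given `p, j`, `q ≤ (4N)^(1/j) ≤ 2 √N`, and `j ≤ log(4N)/log 2 ≤ 3 L`: at most `Z · 3L · 2√N` (`L = log N` large).  Every such `m` spoils at most `4H + 1` integers `n`;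
`(n ≤ 2N`, `H ≤ N`, so `m ≤ 2N + 2H ≤ 4N`.)  Total `≤ 6 L Z √N · 5H ≤ 30 L N^(1/8) N^(1/2) N^(1/4) = 30 L N^(7/8) ≤ N/L^A`.
-/

set_option autoImplicit false

namespace Pool.Agent.H53.MID

open Finset

/-- the numbers -/
private theorem Ppw_num {L x Z s H J : ℝ} {A : ℕ} (hL : 4 ≤ L) (hx : 1 ≤ x) (hZ : Z ≤ x)
    (hs0 : 0 ≤ s) (hs : s ≤ 2 * x ^ 4) (hH0 : 0 ≤ H) (hH : H ≤ x ^ 2) (hJ0 : 0 ≤ J) (hJ : J ≤ 3 * L)
    (h : 168 * L ^ (A + 1) ≤ x) :
    (Z + 1) * (s + 1) * (J + 1) * (4 * H + 3) ≤ x ^ 8 / L ^ A := by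
  have hL0 : 0 < L := by linarith
  have hx0 : 0 < x := by linarith
  have hx2 : 1 ≤ x ^ 2 := one_le_pow₀ hx
  have hx4 : 1 ≤ x ^ 4 := one_le_pow₀ hx
  have h1 : (Z + 1) * (s + 1) ≤ (2 * x) * (3 * x ^ 4) :=
    mul_le_mul (by linarith) (by linarith) (by linarith) (by linarith)
  have h2 : (Z + 1) * (s + 1) * (J + 1) ≤ (2 * x) * (3 * x ^ 4) * (4 * L) :=
    mul_le_mul h1 (by linarith) (by linarith) (by positivity)
  have h3 : (Z + 1) * (s + 1) * (J + 1) * (4 * H + 3) ≤ (2 * x) * (3 * x ^ 4) * (4 * L) * (7 * x ^ 2) :=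
    mul_le_mul h2 (by linarith) (by linarith) (by positivity)
  refine h3.trans ?_
  rw [le_div_iff₀ (by positivity)]
  have h4 : 2 * x * (3 * x ^ 4) * (4 * L) * (7 * x ^ 2) * L ^ A = x ^ 7 * (168 * L ^ (A + 1)) := by ring
  rw [h4]
  calc x ^ 7 * (168 * L ^ (A + 1)) ≤ x ^ 7 * x := mul_le_mul_of_nonneg_left h (by positivity)
    _ = x ^ 8 := by ring

/-- the counting -/
private theorem Ppw_incl {N H Z : ℕ} (hH : 1 ≤ H) (hH4 : H ^ 4 ≤ N) (hN : 16 ≤ N) (n : ℕ)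
    (hn : n ∈ Ioc N (2 * N)) (h : ∃ m p q j : ℕ, p ≤ Z ∧ q.Prime ∧ 2 ≤ j ∧ m = p * q ^ j ∧
      m ≤ n + 2 * H ∧ n ≤ m + 2 * H) :
    n ∈ (range (Z + 1) ×ˢ (range (Nat.sqrt (4 * N) + 1) ×ˢ range (Nat.log 2 (4 * N) + 1))).biUnion
      (fun t => Icc (t.1 * t.2.1 ^ t.2.2 - 2 * H) (t.1 * t.2.1 ^ t.2.2 + 2 * H)) := by
  obtain ⟨m, p, q, j, hp, hq, hj, hm, h1, h2⟩ := h
  rw [mem_Ioc] at hn
  have hHN : 2 * H ≤ N := by
    rcases Nat.lt_or_ge H 2 with h3 | h3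
    · omega
    · have h4 : 2 ^ 3 ≤ H ^ 3 := Nat.pow_le_pow_left h3 3
      have h5 : H ^ 4 = H ^ 3 * H := by ring
      nlinarith
  have hm0 : 0 < m := by omega
  have hp0 : 0 < p := by
    rcases Nat.eq_zero_or_pos p with h3 | h3
    · rw [hm, h3, zero_mul] at hm0
      exact absurd hm0 (lt_irrefl 0)
    · exact h3
  have hm4 : q ^ j ≤ 4 * N := by
    have h3 : q ^ j ≤ p * q ^ j := Nat.le_mul_of_pos_left _ hp0
    omega
  rw [mem_biUnion]
  refine ⟨(p, q, j), ?_, ?_⟩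
  · rw [mem_product, mem_product, mem_range, mem_range, mem_range]
    refine ⟨?_, ?_, ?_⟩
    · show p < Z + 1
      omega
    · show q < Nat.sqrt (4 * N) + 1
      have h3 : q ^ 2 ≤ q ^ j := Nat.pow_le_pow_right hq.pos hj
      have h4 : q ≤ Nat.sqrt (4 * N) := by
        rw [Nat.le_sqrt']
        exact h3.trans hm4
      omega
    · show j < Nat.log 2 (4 * N) + 1
      have h3 : 2 ^ j ≤ q ^ j := Nat.pow_le_pow_left hq.two_le j
      have h4 : j ≤ Nat.log 2 (4 * N) := Nat.le_log_of_pow_le (by norm_num) (h3.trans hm4)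
      omega
  · show n ∈ Icc (p * q ^ j - 2 * H) (p * q ^ j + 2 * H)
    rw [mem_Icc, ← hm]
    omega

private theorem Ppw_card {N H Z : ℕ} :
    ((range (Z + 1) ×ˢ (range (Nat.sqrt (4 * N) + 1) ×ˢ range (Nat.log 2 (4 * N) + 1))).biUnion
      (fun t : ℕ × ℕ × ℕ => Icc (t.1 * t.2.1 ^ t.2.2 - 2 * H) (t.1 * t.2.1 ^ t.2.2 + 2 * H))).card ≤
      (Z + 1) * (Nat.sqrt (4 * N) + 1) * (Nat.log 2 (4 * N) + 1) * (4 * H + 3) := by
  refine (card_biUnion_le_card_mul _ _ (4 * H + 3) (fun t _ => ?_)).trans (le_of_eq ?_)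
  · rw [Nat.card_Icc]
    omega
  · rw [card_product, card_product, card_range, card_range, card_range]
    ring

private theorem Ppw_logJ {N : ℕ} {L : ℝ} (hN : 16 ≤ N) (hLd : L = Real.log N) (hL : 4 ≤ L) :
    ((Nat.log 2 (4 * N) : ℕ) : ℝ) ≤ 3 * L := by
  obtain ⟨J, hJ⟩ : ∃ J, J = Nat.log 2 (4 * N) := ⟨_, rfl⟩
  have h1 : 2 ^ J ≤ 4 * N := by
    rw [hJ]
    exact Nat.pow_log_le_self 2 (by omega)
  have h2 : ((2 : ℝ)) ^ J ≤ 4 * N := by exact_mod_cast h1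
  have hNr : (0 : ℝ) < N := by
    have : 0 < N := by omega
    exact_mod_cast this
  have h3 := Real.log_le_log (by positivity) h2
  rw [Real.log_pow, Real.log_mul (by norm_num) hNr.ne', ← hLd] at h3
  have h4 : Real.log 4 = 2 * Real.log 2 := by
    rw [show (4 : ℝ) = 2 ^ 2 by norm_num, Real.log_pow]
    norm_num
  rw [h4] at h3
  have h5 := Real.log_two_gt_d9
  have h6 := Real.log_two_lt_d9
  rw [← hJ]
  have hJ0 : (0 : ℝ) ≤ J := Nat.cast_nonneg J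
  nlinarith

open Classical in
theorem ppw (A : ℕ) : ∃ N0 : ℕ, ∀ N : ℕ, N0 ≤ N → ∀ H Z : ℕ, 1 ≤ H → H ^ 4 ≤ N → Z ^ 8 ≤ N →
    (((Ioc N (2 * N)).filter (fun n => ∃ m p q j : ℕ, p ≤ Z ∧ q.Prime ∧ 2 ≤ j ∧ m = p * q ^ j ∧
      m ≤ n + 2 * H ∧ n ≤ m + 2 * H)).card : ℝ) ≤ N / Real.log N ^ A := by
  have hlog : Filter.Tendsto (fun N : ℕ => Real.log N) Filter.atTop Filter.atTop :=
    Real.tendsto_log_atTop.comp tendsto_natCast_atTop_atTop
  have hsm : ∀ᶠ y : ℝ in Filter.atTop, 168 * Real.log y ^ (A + 1) ≤ y ^ (1 / 8 : ℝ) := by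
    have h1 : (fun y : ℝ => Real.log y ^ ((A + 1 : ℕ) : ℝ)) =o[Filter.atTop] fun y => y ^ (1 / 8 : ℝ) :=
      isLittleO_log_rpow_rpow_atTop _ (by norm_num)
    have h2 := h1.bound (show (0 : ℝ) < 1 / 168 by norm_num)
    filter_upwards [h2, Filter.eventually_ge_atTop (1 : ℝ)] with y hy hy1
    rw [Real.rpow_natCast, Real.norm_of_nonneg (pow_nonneg (Real.log_nonneg hy1) _),
      Real.norm_of_nonneg (by positivity)] at hy
    linarith
  have hev : ∀ᶠ N : ℕ in Filter.atTop, 168 * Real.log N ^ (A + 1) ≤ (N : ℝ) ^ (1 / 8 : ℝ) ∧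
      4 ≤ Real.log N ∧ 16 ≤ N :=
    (tendsto_natCast_atTop_atTop.eventually hsm).and
      ((hlog.eventually_ge_atTop 4).and (Filter.eventually_ge_atTop 16))
  obtain ⟨N0, hN0⟩ := Filter.eventually_atTop.mp hev
  refine ⟨N0, fun N hN H Z hH hH4 hZ8 => ?_⟩
  obtain ⟨h1, h2, h3⟩ := hN0 N hN
  have hsub := card_le_card (show (Ioc N (2 * N)).filter (fun n => ∃ m p q j : ℕ, p ≤ Z ∧ q.Prime ∧
      2 ≤ j ∧ m = p * q ^ j ∧ m ≤ n + 2 * H ∧ n ≤ m + 2 * H) ⊆ _ from fun n hn =>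
    Ppw_incl hH hH4 h3 n (mem_filter.mp hn).1 (mem_filter.mp hn).2)
  have hcard := hsub.trans Ppw_card
  have hcr : ((((Ioc N (2 * N)).filter (fun n => ∃ m p q j : ℕ, p ≤ Z ∧ q.Prime ∧ 2 ≤ j ∧ m = p * q ^ j ∧
      m ≤ n + 2 * H ∧ n ≤ m + 2 * H)).card : ℕ) : ℝ) ≤
      (((Z + 1) * (Nat.sqrt (4 * N) + 1) * (Nat.log 2 (4 * N) + 1) * (4 * H + 3) : ℕ) : ℝ) :=
    Nat.cast_le.mpr hcard
  refine hcr.trans ?_
  push_cast
  have hNr : (16 : ℝ) ≤ N := by exact_mod_cast h3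
  have hN0' : (0 : ℝ) ≤ N := by linarith
  obtain ⟨x, hx⟩ : ∃ x : ℝ, x = (N : ℝ) ^ (1 / 8 : ℝ) := ⟨_, rfl⟩
  have hx0 : 0 ≤ x := by
    rw [hx]
    positivity
  have hx8 : x ^ 8 = N := by
    rw [hx, ← Real.rpow_natCast, ← Real.rpow_mul hN0']
    norm_num
  have hx1 : 1 ≤ x := by
    by_contra hcon
    push Not at hcon
    have : x ^ 8 ≤ 1 := pow_le_one₀ hx0 hcon.le
    linarith
  rw [← hx] at h1
  refine (Ppw_num (x := x) (A := A) h2 hx1 ?_ (Nat.cast_nonneg _) ?_ (Nat.cast_nonneg H) ?_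
    (Nat.cast_nonneg _) (Ppw_logJ h3 rfl h2) h1).trans (le_of_eq (by rw [hx8]))
  · have h4 : (Z : ℝ) ^ 8 ≤ x ^ 8 := by
      rw [hx8]
      exact_mod_cast hZ8
    exact le_of_pow_le_pow_left₀ (by norm_num) hx0 h4
  · have h4 : Nat.sqrt (4 * N) ^ 2 ≤ 4 * N := Nat.sqrt_le' _
    have h5 : ((Nat.sqrt (4 * N) : ℕ) : ℝ) ^ 2 ≤ 4 * N := by exact_mod_cast h4
    have h6 : ((Nat.sqrt (4 * N) : ℕ) : ℝ) ^ 2 ≤ (2 * x ^ 4) ^ 2 := by
      refine h5.trans (le_of_eq ?_)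
      rw [← hx8]
      ring
    exact le_of_pow_le_pow_left₀ (by norm_num) (by positivity) h6
  · have h4 : (H : ℝ) ^ 4 ≤ (x ^ 2) ^ 4 := by
      have h5 : (H : ℝ) ^ 4 ≤ N := by exact_mod_cast hH4
      refine h5.trans (le_of_eq ?_)
      rw [← hx8]
      ring
    exact le_of_pow_le_pow_left₀ (by norm_num) (by positivity) h4

end Pool.Agent.H53.MID

end
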