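import Pool.Agent.H43.PM.M18

/-! The parts of this file: H91.EHA.SwA, H91.EHA.SwB, H91.EHA.SwC, H91.EHA.SwD3, H91.EHA.SwE, H91.EHA.SwF. -/

section

/-!
# Upper bounds for `L(s,χ)` and its derivatives on `1 < Re s ≤ 2`, nonprincipal characters

Proof of `Lk_le`: put `M = q (|t| + 2)`.  Terms `n ≤ M`: `∑ (log n)^k / n ≤ (1 + log M)^(k+1)`
(and `1 + log M ≤ 2 log M` since `M ≥ 4`).  Terms `n > M`: partial summation with
`‖∑_{n ≤ u} χ(n)‖ ≤ q` (all complete periods vanish): at most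
`q ((log M)^k M^{-1} + |s| ∫_M^∞ ((log u)^k + k (log u)^(k-1)) u^{-2} du) ≤ C_k (log M)^k`,
because `q |s| / M ≤ 2`.  It may be convenient to use discrete Abel summation
`∑_{n > M} χ(n) g(n) = ∑_{n > M} S(n) (g(n) - g(n+1)) - ...` with `g(u) = (log u)^k u^{-s}`,
`|g'(u)| ≤ (|s| (log u)^k + k (log u)^(k-1)) u^{-2}`.
`Lk_hasDeriv`: Mathlib `LSeries_hasDerivAt` / `LSeries.logMul`.
-/

set_option autoImplicit false

namespace Pool.Agent.H91.EHA

open Finset

private theorem swA_fun_eq (q : ℕ) (χ : DirichletCharacter ℂ q) (k : ℕ) :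
    (fun n : ℕ => ((Real.log n : ℝ) : ℂ) ^ k * χ (n : ZMod q))
      = LSeries.logMul^[k] (fun n : ℕ => χ (n : ZMod q)) := by
  induction k with
  | zero => funext n; simp
  | succ k ih =>
    rw [Function.iterate_succ_apply', ← ih]
    funext n
    simp only [LSeries.logMul]
    rw [pow_succ, Complex.natCast_log]
    ring

private theorem swA_absc (q : ℕ) (χ : DirichletCharacter ℂ q) (k : ℕ) (s : ℂ) (hs : 1 < s.re) :
    LSeries.abscissaOfAbsConv (fun n : ℕ => ((Real.log n : ℝ) : ℂ) ^ k * χ (n : ZMod q)) < s.re := by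
  rw [swA_fun_eq, LSeries.absicssaOfAbsConv_logPowMul]
  have h1 : LSeries.abscissaOfAbsConv (fun n : ℕ => χ (n : ZMod q)) ≤ (1 : ℝ) := by
    apply LSeries.abscissaOfAbsConv_le_of_forall_lt_LSeriesSummable
    intro y hy
    exact DirichletCharacter.LSeriesSummable_of_one_lt_re χ (by simpa using hy)
  refine lt_of_le_of_lt h1 ?_
  exact_mod_cast hs

theorem Lk_summable (q : ℕ) (χ : DirichletCharacter ℂ q) (k : ℕ) (s : ℂ) (hs : 1 < s.re) :
    LSeriesSummable (fun n => ((Real.log n : ℝ) : ℂ) ^ k * χ (n : ZMod q)) s :=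
  LSeriesSummable_of_abscissaOfAbsConv_lt_re (swA_absc q χ k s hs)

theorem Lk_hasDeriv (q : ℕ) (χ : DirichletCharacter ℂ q) (k : ℕ) (s : ℂ) (hs : 1 < s.re) :
    HasDerivAt (Lk q χ k) (-(Lk q χ (k + 1) s)) s := by
  have h1 := LSeries_hasDerivAt (swA_absc q χ k s hs)
  have h2 : LSeries.logMul (fun n : ℕ => ((Real.log n : ℝ) : ℂ) ^ k * χ (n : ZMod q))
      = fun n : ℕ => ((Real.log n : ℝ) : ℂ) ^ (k + 1) * χ (n : ZMod q) := by
    funext n
    simp only [LSeries.logMul]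
    rw [pow_succ, Complex.natCast_log]
    ring
  rw [h2] at h1
  exact h1

theorem Lk_zero_eq (q : ℕ) [NeZero q] (χ : DirichletCharacter ℂ q) (s : ℂ) (hs : 1 < s.re) :
    Lk q χ 0 s = DirichletCharacter.LFunction χ s := by
  rw [DirichletCharacter.LFunction_eq_LSeries χ hs, Lk]
  congr 1
  funext n
  simp

/-! ### Character sums over a full period -/

private theorem swA_period {r : ℕ} (hr : 0 < r) (χ : DirichletCharacter ℂ r) (hχ : χ ≠ 1) (B : ℕ) :
    ∑ b ∈ Ico B (B + r), χ (b : ZMod r) = 0 := by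
  have : NeZero r := ⟨hr.ne'⟩
  induction B with
  | zero =>
    obtain ⟨n, rfl⟩ : ∃ n, r = n + 1 := ⟨r - 1, by omega⟩
    have h1 : ∑ x : ZMod (n + 1), χ x = 0 := MulChar.sum_eq_zero_of_ne_one hχ
    have h2 : ∑ b ∈ range (n + 1), χ ((b : ℕ) : ZMod (n + 1)) = ∑ x : Fin (n + 1), χ (((x : ℕ) : ZMod (n + 1))) :=
      Finset.sum_range (fun b : ℕ => χ (b : ZMod (n + 1)))
    have h3 : ∑ x : Fin (n + 1), χ (((x : ℕ) : ZMod (n + 1))) = ∑ x : ZMod (n + 1), χ x := by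
      apply Finset.sum_congr rfl
      intro x _
      congr 1
      exact Fin.cast_val_eq_self x
    have h4 : Ico 0 (0 + (n + 1)) = range (n + 1) := by
      rw [zero_add, Finset.range_eq_Ico]
    rw [h4, h2, h3, h1]
  | succ B ih =>
    have h1 : ∑ b ∈ Ico B (B + r + 1), χ (b : ZMod r)
        = ∑ b ∈ Ico B (B + r), χ (b : ZMod r) + χ ((B + r : ℕ) : ZMod r) :=
      Finset.sum_Ico_succ_top (by omega) _
    have h2 : ∑ b ∈ Ico B (B + r + 1), χ (b : ZMod r)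
        = χ (B : ZMod r) + ∑ b ∈ Ico (B + 1) (B + r + 1), χ (b : ZMod r) :=
      Finset.sum_eq_sum_Ico_succ_bot (by omega) _
    have h3 : ((B + r : ℕ) : ZMod r) = (B : ZMod r) := by
      push_cast
      simp
    rw [h3, ih] at h1
    rw [h1] at h2
    have h4 : B + 1 + r = B + r + 1 := by omega
    rw [h4]
    have h5 : (0 : ℂ) + χ (B : ZMod r) = χ (B : ZMod r) + 0 := by ring
    rw [h5] at h2
    exact (add_left_cancel h2).symm

private theorem swA_char_partial {r : ℕ} (hr : 0 < r) (χ : DirichletCharacter ℂ r) (hχ : χ ≠ 1)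
    (B : ℕ) : ‖∑ b ∈ Icc 1 B, χ (b : ZMod r)‖ ≤ r := by
  induction B using Nat.strong_induction_on with
  | _ B ih =>
    by_cases hB : B < r
    · calc ‖∑ b ∈ Icc 1 B, χ (b : ZMod r)‖ ≤ ∑ b ∈ Icc 1 B, ‖χ (b : ZMod r)‖ := norm_sum_le _ _
        _ ≤ ∑ b ∈ Icc 1 B, (1 : ℝ) := Finset.sum_le_sum fun b _ => DirichletCharacter.norm_le_one χ _
        _ = B := by simp
        _ ≤ r := by exact_mod_cast hB.le
    · push Not at hB
      have h1 := ih (B - r) (by omega)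
      have h2 : ∑ b ∈ Icc 1 B, χ (b : ZMod r) = ∑ b ∈ Icc 1 (B - r), χ (b : ZMod r)
          + ∑ b ∈ Ico (B - r + 1) (B - r + 1 + r), χ (b : ZMod r) := by
        have e1 : Icc 1 B = Ico 1 (B + 1) := by ext x; rw [mem_Icc, mem_Ico]; omega
        have e2 : Icc 1 (B - r) = Ico 1 (B - r + 1) := by ext x; rw [mem_Icc, mem_Ico]; omega
        have e3 : B - r + 1 + r = B + 1 := by omega
        rw [e1, e2, e3]
        exact (Finset.sum_Ico_consecutive _ (by omega) (by omega)).symm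
      rw [h2, swA_period hr χ hχ, add_zero]
      exact h1

/-! ### Summation by parts -/

private theorem swA_abel_eq (f g : ℕ → ℂ) (a b : ℕ) (hab : a + 1 ≤ b) :
    ∑ j ∈ Ioc a b, f j * g j = (∑ j ∈ Icc 1 b, f j) * g b - (∑ j ∈ Icc 1 a, f j) * g (a + 1)
      + ∑ j ∈ Ico (a + 1) b, (∑ i ∈ Icc 1 j, f i) * (g j - g (j + 1)) := by
  induction b, hab using Nat.le_induction with
  | base =>
    rw [Finset.sum_Icc_succ_top (by omega), Finset.Ico_self, Finset.sum_empty]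
    have : Ioc a (a + 1) = {a + 1} := by ext x; simp only [mem_Ioc, mem_singleton]; omega
    rw [this, Finset.sum_singleton]
    ring
  | succ b hb ih =>
    have e1 : Ioc a (b + 1) = insert (b + 1) (Ioc a b) := by
      ext x; simp only [mem_Ioc, mem_insert]; omega
    have e2 : b + 1 ∉ Ioc a b := by simp
    rw [e1, Finset.sum_insert e2, ih, Finset.sum_Ico_succ_top hb,
      Finset.sum_Icc_succ_top (by omega : 1 ≤ b + 1)]
    ring

private theorem swA_abel (f g : ℕ → ℂ) (a b : ℕ) (hab : a + 1 ≤ b) (ρ : ℝ)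
    (hf : ∀ B : ℕ, ‖∑ j ∈ Icc 1 B, f j‖ ≤ ρ) :
    ‖∑ j ∈ Ioc a b, f j * g j‖ ≤ ρ * (‖g b‖ + ‖g (a + 1)‖ +
      ∑ j ∈ Ico (a + 1) b, ‖g j - g (j + 1)‖) := by
  rw [swA_abel_eq f g a b hab]
  calc ‖(∑ j ∈ Icc 1 b, f j) * g b - (∑ j ∈ Icc 1 a, f j) * g (a + 1)
      + ∑ j ∈ Ico (a + 1) b, (∑ i ∈ Icc 1 j, f i) * (g j - g (j + 1))‖
      ≤ ‖(∑ j ∈ Icc 1 b, f j) * g b - (∑ j ∈ Icc 1 a, f j) * g (a + 1)‖
        + ‖∑ j ∈ Ico (a + 1) b, (∑ i ∈ Icc 1 j, f i) * (g j - g (j + 1))‖ := norm_add_le _ _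
    _ ≤ (‖(∑ j ∈ Icc 1 b, f j) * g b‖ + ‖(∑ j ∈ Icc 1 a, f j) * g (a + 1)‖)
        + ∑ j ∈ Ico (a + 1) b, ‖(∑ i ∈ Icc 1 j, f i) * (g j - g (j + 1))‖ :=
        add_le_add (norm_sub_le _ _) (norm_sum_le _ _)
    _ ≤ (ρ * ‖g b‖ + ρ * ‖g (a + 1)‖) + ∑ j ∈ Ico (a + 1) b, ρ * ‖g j - g (j + 1)‖ := by
        simp only [norm_mul]
        refine add_le_add (add_le_add ?_ ?_) (Finset.sum_le_sum fun j _ => ?_)
        · exact mul_le_mul_of_nonneg_right (hf _) (norm_nonneg _)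
        · exact mul_le_mul_of_nonneg_right (hf _) (norm_nonneg _)
        · exact mul_le_mul_of_nonneg_right (hf _) (norm_nonneg _)
    _ = _ := by rw [← Finset.mul_sum]; ring

/-! ### Growth of powers of the logarithm -/

private theorem swA_log_pow (k : ℕ) : ∃ A : ℝ, 1 ≤ A ∧ ∀ Y u : ℝ, 3 ≤ Y → Y ≤ u →
    Real.log u ^ k ≤ A * Real.log Y ^ k * Real.sqrt (u / Y) := by
  refine ⟨(1 + 2 * ((k : ℝ) + 1)) ^ k, ?_, ?_⟩
  · apply one_le_pow₀
    have : (0 : ℝ) ≤ k := Nat.cast_nonneg k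
    linarith
  · intro Y u hY hu
    have hY0 : 0 < Y := by linarith
    have hu0 : 0 < u := by linarith
    have hlY : 1 ≤ Real.log Y := by
      rw [Real.le_log_iff_exp_le hY0]
      have := Real.exp_one_lt_d9
      linarith
    set y : ℝ := u / Y with hy
    have hy1 : 1 ≤ y := by rw [hy, le_div_iff₀ hY0]; linarith
    have hy0 : 0 < y := by linarith
    have hly : 0 ≤ Real.log y := Real.log_nonneg hy1
    have hk0 : (0 : ℝ) ≤ k := Nat.cast_nonneg k
    have h1 : Real.log u ≤ Real.log Y * (1 + Real.log y) := by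
      have : u = Y * y := by rw [hy]; field_simp
      rw [this, Real.log_mul hY0.ne' hy0.ne']
      nlinarith
    have hlu : 0 ≤ Real.log u := Real.log_nonneg (by linarith)
    set ε : ℝ := 1 / (2 * ((k : ℝ) + 1)) with hε
    have hε0 : 0 < ε := by rw [hε]; positivity
    have h2 : Real.log y ≤ y ^ ε / ε := Real.log_le_rpow_div hy0.le hε0
    have h3 : 1 ≤ y ^ ε := Real.one_le_rpow hy1 hε0.le
    have h4 : 1 + Real.log y ≤ (1 + 2 * ((k : ℝ) + 1)) * y ^ ε := by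
      have e : y ^ ε / ε = 2 * ((k : ℝ) + 1) * y ^ ε := by
        rw [hε]; field_simp
      rw [e] at h2
      nlinarith
    have h5 : (y ^ ε) ^ k ≤ Real.sqrt y := by
      rw [Real.sqrt_eq_rpow, ← Real.rpow_natCast, ← Real.rpow_mul hy0.le]
      apply Real.rpow_le_rpow_of_exponent_le hy1
      rw [hε, div_mul_eq_mul_div, one_mul, div_le_div_iff₀ (by positivity) (by norm_num)]
      linarith
    calc Real.log u ^ k ≤ (Real.log Y * (1 + Real.log y)) ^ k := pow_le_pow_left₀ hlu h1 k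
      _ = Real.log Y ^ k * (1 + Real.log y) ^ k := mul_pow _ _ _
      _ ≤ Real.log Y ^ k * ((1 + 2 * ((k : ℝ) + 1)) * y ^ ε) ^ k := by
          apply mul_le_mul_of_nonneg_left _ (by positivity)
          exact pow_le_pow_left₀ (by linarith) h4 k
      _ = Real.log Y ^ k * (1 + 2 * ((k : ℝ) + 1)) ^ k * (y ^ ε) ^ k := by rw [mul_pow]; ring
      _ ≤ Real.log Y ^ k * (1 + 2 * ((k : ℝ) + 1)) ^ k * Real.sqrt y := by
          apply mul_le_mul_of_nonneg_left h5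
          positivity
      _ = _ := by ring

/-! ### The weight -/

private noncomputable def swA_g (k : ℕ) (s : ℂ) (u : ℝ) : ℂ :=
  ((Real.log u : ℝ) : ℂ) ^ k * (u : ℂ) ^ (-s)

private theorem swA_norm_cpow {u : ℝ} (hu : 1 ≤ u) {s : ℂ} (hs : 1 < s.re) (j : ℕ) :
    ‖(u : ℂ) ^ (-s - j)‖ ≤ 1 / u ^ (j + 1) := by
  have hu0 : 0 < u := by linarith
  rw [Complex.norm_cpow_eq_rpow_re_of_pos hu0]
  have h1 : (-s - (j : ℂ)).re ≤ -((j + 1 : ℕ) : ℝ) := by
    simp only [Complex.sub_re, Complex.neg_re, Complex.natCast_re]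
    push_cast
    linarith
  calc u ^ (-s - (j : ℂ)).re ≤ u ^ (-((j + 1 : ℕ) : ℝ)) :=
        Real.rpow_le_rpow_of_exponent_le hu h1
    _ = 1 / u ^ (j + 1) := by
        rw [Real.rpow_neg hu0.le, Real.rpow_natCast, one_div]

private theorem swA_g_norm (k : ℕ) {s : ℂ} (hs : 1 < s.re) {u : ℝ} (hu : 1 ≤ u) :
    ‖swA_g k s u‖ ≤ Real.log u ^ k / u := by
  have h1 := swA_norm_cpow hu hs 0
  simp only [Nat.cast_zero, sub_zero, zero_add, pow_one] at h1
  have h2 : 0 ≤ Real.log u := Real.log_nonneg hu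
  rw [swA_g, norm_mul, norm_pow, Complex.norm_real, Real.norm_eq_abs, abs_of_nonneg h2]
  calc Real.log u ^ k * ‖(u : ℂ) ^ (-s)‖ ≤ Real.log u ^ k * (1 / u) :=
        mul_le_mul_of_nonneg_left h1 (by positivity)
    _ = _ := by ring

private theorem swA_g_deriv (k : ℕ) {s : ℂ} (hs : 1 < s.re) {u : ℝ} (hu : 0 < u) :
    HasDerivAt (swA_g k s)
      ((k : ℂ) * ((Real.log u : ℝ) : ℂ) ^ (k - 1) * ((u⁻¹ : ℝ) : ℂ) * (u : ℂ) ^ (-s)
        + ((Real.log u : ℝ) : ℂ) ^ k * (-s * (u : ℂ) ^ (-s - 1))) u := by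
  have h1 : HasDerivAt (fun v : ℝ => ((Real.log v : ℝ) : ℂ)) ((u⁻¹ : ℝ) : ℂ) u :=
    (Real.hasDerivAt_log hu.ne').ofReal_comp
  have h2 := h1.pow k
  have hs0 : (-s : ℂ) ≠ 0 := by
    intro h
    have : s = 0 := by simpa using h
    rw [this] at hs
    simp at hs
    linarith
  have h3 := hasDerivAt_ofReal_cpow_const hu.ne' hs0
  exact h2.mul h3

private theorem swA_g_diff (k : ℕ) {s : ℂ} (hs : 1 < s.re) (n : ℕ) (hn : 3 ≤ n) :
    ‖swA_g k s n - swA_g k s ((n + 1 : ℕ) : ℝ)‖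
      ≤ (‖s‖ + k) * Real.log ((n + 1 : ℕ) : ℝ) ^ k / (n : ℝ) ^ 2 := by
  have hn3 : (3 : ℝ) ≤ n := by exact_mod_cast hn
  have hn0 : (0 : ℝ) < n := by linarith
  set L : ℝ := Real.log ((n + 1 : ℕ) : ℝ) with hL
  have hbound : ∀ u ∈ Set.Ico (n : ℝ) ((n + 1 : ℕ) : ℝ),
      ‖(k : ℂ) * ((Real.log u : ℝ) : ℂ) ^ (k - 1) * ((u⁻¹ : ℝ) : ℂ) * (u : ℂ) ^ (-s)
        + ((Real.log u : ℝ) : ℂ) ^ k * (-s * (u : ℂ) ^ (-s - 1))‖
        ≤ (‖s‖ + k) * L ^ k / (n : ℝ) ^ 2 := by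
    intro u hu
    have hu1 : (n : ℝ) ≤ u := hu.1
    have hu2 : u < ((n + 1 : ℕ) : ℝ) := hu.2
    have hu3 : (1 : ℝ) ≤ u := by linarith
    have hu0 : 0 < u := by linarith
    have hl1 : 1 ≤ Real.log u := by
      rw [Real.le_log_iff_exp_le hu0]
      have := Real.exp_one_lt_d9
      linarith
    have hl2 : Real.log u ≤ L := Real.log_le_log hu0 hu2.le
    have hc0 := swA_norm_cpow hu3 hs 0
    have hc1 := swA_norm_cpow hu3 hs 1
    simp only [Nat.cast_zero, sub_zero, zero_add, pow_one] at hc0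
    simp only [Nat.cast_one] at hc1
    have hlk : Real.log u ^ k ≤ L ^ k := pow_le_pow_left₀ (by linarith) hl2 k
    have hlk1 : Real.log u ^ (k - 1) ≤ L ^ k :=
      le_trans (pow_le_pow_right₀ hl1 (Nat.sub_le k 1)) hlk
    have hL0 : 0 ≤ L ^ k := le_trans (by positivity) hlk
    have hu2n : 1 / u ^ 2 ≤ 1 / (n : ℝ) ^ 2 := by
      apply one_div_le_one_div_of_le (by positivity)
      exact pow_le_pow_left₀ hn0.le hu1 2
    have hA : ‖(k : ℂ) * ((Real.log u : ℝ) : ℂ) ^ (k - 1) * ((u⁻¹ : ℝ) : ℂ) * (u : ℂ) ^ (-s)‖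
        ≤ k * L ^ k * (1 / (n : ℝ) ^ 2) := by
      rw [norm_mul, norm_mul, norm_mul, norm_pow, Complex.norm_real, Complex.norm_real,
        Real.norm_eq_abs, Real.norm_eq_abs, abs_of_nonneg (by linarith : 0 ≤ Real.log u),
        abs_of_nonneg (inv_nonneg.2 hu0.le), Complex.norm_natCast]
      calc (k : ℝ) * Real.log u ^ (k - 1) * u⁻¹ * ‖(u : ℂ) ^ (-s)‖
          ≤ (k : ℝ) * L ^ k * u⁻¹ * (1 / u) := by
            apply mul_le_mul _ hc0 (norm_nonneg _) (by positivity)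
            apply mul_le_mul_of_nonneg_right _ (inv_nonneg.2 hu0.le)
            exact mul_le_mul_of_nonneg_left hlk1 (Nat.cast_nonneg k)
        _ = (k : ℝ) * L ^ k * (1 / u ^ 2) := by field_simp
        _ ≤ _ := mul_le_mul_of_nonneg_left hu2n (by positivity)
    have hB : ‖((Real.log u : ℝ) : ℂ) ^ k * (-s * (u : ℂ) ^ (-s - 1))‖
        ≤ ‖s‖ * L ^ k * (1 / (n : ℝ) ^ 2) := by
      rw [norm_mul, norm_mul, norm_neg, norm_pow, Complex.norm_real, Real.norm_eq_abs,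
        abs_of_nonneg (by linarith : 0 ≤ Real.log u)]
      calc Real.log u ^ k * (‖s‖ * ‖(u : ℂ) ^ (-s - 1)‖)
          ≤ L ^ k * (‖s‖ * (1 / u ^ (1 + 1))) := by
            apply mul_le_mul hlk _ (by positivity) hL0
            exact mul_le_mul_of_nonneg_left hc1 (norm_nonneg _)
        _ = ‖s‖ * L ^ k * (1 / u ^ 2) := by ring
        _ ≤ _ := mul_le_mul_of_nonneg_left hu2n (by positivity)
    calc _ ≤ _ + _ := norm_add_le _ _
      _ ≤ k * L ^ k * (1 / (n : ℝ) ^ 2) + ‖s‖ * L ^ k * (1 / (n : ℝ) ^ 2) := add_le_add hA hB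
      _ = _ := by ring
  have hmv := norm_image_sub_le_of_norm_deriv_le_segment' (f := swA_g k s)
    (a := (n : ℝ)) (b := ((n + 1 : ℕ) : ℝ))
    (fun u hu => (swA_g_deriv k hs (lt_of_lt_of_le hn0 hu.1)).hasDerivWithinAt) hbound
    ((n + 1 : ℕ) : ℝ) (by
      constructor
      · push_cast; linarith
      · exact le_refl _)
  rw [norm_sub_rev]
  refine le_trans hmv (le_of_eq ?_)
  push_cast
  ring

private theorem swA_tele (j : ℕ) (hj : 2 ≤ j) :
    Real.sqrt ((j : ℝ) + 1) / (j : ℝ) ^ 2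
      ≤ 4 * (1 / Real.sqrt ((j : ℝ) - 1) - 1 / Real.sqrt (j : ℝ)) := by
  have hj2 : (2 : ℝ) ≤ j := by exact_mod_cast hj
  set a := Real.sqrt ((j : ℝ) - 1) with ha
  set b := Real.sqrt (j : ℝ) with hb
  set c := Real.sqrt ((j : ℝ) + 1) with hc
  have ha2 : a ^ 2 = (j : ℝ) - 1 := Real.sq_sqrt (by linarith)
  have hb2 : b ^ 2 = (j : ℝ) := Real.sq_sqrt (by linarith)
  have hc2 : c ^ 2 = (j : ℝ) + 1 := Real.sq_sqrt (by linarith)
  have ha0 : 0 < a := Real.sqrt_pos.2 (by linarith)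
  have hb0 : 0 < b := Real.sqrt_pos.2 (by linarith)
  have hc0 : 0 < c := Real.sqrt_pos.2 (by linarith)
  have hab : a ≤ b := Real.sqrt_le_sqrt (by linarith)
  have hcb : c ≤ 2 * b := by
    nlinarith
  have hj4 : (j : ℝ) ^ 2 = b ^ 4 := by rw [← hb2]; ring
  have hsum : (b - a) * (b + a) = 1 := by nlinarith
  have h1 : 1 / a - 1 / b = 1 / (a * b * (a + b)) := by
    field_simp
    nlinarith
  rw [h1, hj4]
  have h2 : 1 / (2 * b ^ 3) ≤ 1 / (a * b * (a + b)) := by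
    apply one_div_le_one_div_of_le (by positivity)
    have e1 : a * b ≤ b * b := mul_le_mul_of_nonneg_right hab hb0.le
    calc a * b * (a + b) ≤ (b * b) * (b + b) := by
          apply mul_le_mul e1 (by linarith) (by positivity) (by positivity)
      _ = 2 * b ^ 3 := by ring
  calc c / b ^ 4 ≤ 2 * b / b ^ 4 := by
        apply div_le_div_of_nonneg_right hcb (by positivity)
    _ = 4 * (1 / (2 * b ^ 3)) := by field_simp; ring
    _ ≤ _ := by linarith

private theorem swA_tele_sum (a b : ℕ) (ha : 1 ≤ a) (hab : a + 1 ≤ b) :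
    ∑ j ∈ Ico (a + 1) b, Real.sqrt ((j : ℝ) + 1) / (j : ℝ) ^ 2 ≤ 4 / Real.sqrt (a : ℝ) := by
  have h1 : ∀ b : ℕ, a + 1 ≤ b → ∑ j ∈ Ico (a + 1) b, Real.sqrt ((j : ℝ) + 1) / (j : ℝ) ^ 2
      ≤ 4 * (1 / Real.sqrt (a : ℝ) - 1 / Real.sqrt ((b : ℝ) - 1)) := by
    intro b hb
    induction b, hb using Nat.le_induction with
    | base => simp
    | succ b hb ih =>
      rw [Finset.sum_Ico_succ_top hb]
      have h2 := swA_tele b (by omega)
      have h3 : ((b + 1 : ℕ) : ℝ) - 1 = b := by push_cast; ring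
      rw [h3]
      linarith
  have h2 := h1 b hab
  have h3 : 0 ≤ 1 / Real.sqrt ((b : ℝ) - 1) := by positivity
  have h4 : 4 / Real.sqrt (a : ℝ) = 4 * (1 / Real.sqrt (a : ℝ)) := by ring
  rw [h4]
  linarith

private theorem swA_small (Y u : ℝ) (hY : 3 ≤ Y) (hu : Y ≤ u) :
    Real.sqrt (u / Y) / u ≤ 1 / Y := by
  have hY0 : 0 < Y := by linarith
  have hu0 : 0 < u := by linarith
  have h1 : 1 ≤ u / Y := by rw [le_div_iff₀ hY0]; linarith
  have h2 : Real.sqrt (u / Y) ≤ u / Y := by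
    rw [Real.sqrt_le_left (by linarith)]
    nlinarith
  calc Real.sqrt (u / Y) / u ≤ (u / Y) / u := div_le_div_of_nonneg_right h2 hu0.le
    _ = 1 / Y := by field_simp

private theorem swA_tail (k : ℕ) : ∃ C : ℝ, 0 < C ∧ ∀ q : ℕ, 2 ≤ q →
    ∀ χ : DirichletCharacter ℂ q, χ ≠ 1 → ∀ s : ℂ, 1 < s.re → s.re ≤ 2 → ∀ N : ℕ,
      ‖∑ n ∈ Ioc ⌊(q : ℝ) * (|s.im| + 2)⌋₊ N, χ (n : ZMod q) * swA_g k s (n : ℝ)‖
        ≤ C * Real.log (q * (|s.im| + 2)) ^ k := by
  obtain ⟨A, hA1, hA⟩ := swA_log_pow k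
  refine ⟨A * (9 + 4 * k), by positivity, ?_⟩
  intro q hq χ hχ s hs hs2 N
  have hq2 : (2 : ℝ) ≤ q := by exact_mod_cast hq
  have hq0 : (0 : ℝ) < q := by linarith
  have ht := abs_nonneg s.im
  set Y : ℝ := (q : ℝ) * (|s.im| + 2) with hYdef
  have hY4 : 4 ≤ Y := by rw [hYdef]; nlinarith
  have hY0 : 0 < Y := by linarith
  set M : ℕ := ⌊Y⌋₊ with hM
  have hM1 : (M : ℝ) ≤ Y := Nat.floor_le hY0.le
  have hM2 : Y < (M : ℝ) + 1 := Nat.lt_floor_add_one Y
  have hM4 : 4 ≤ M := by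
    rw [hM]; exact Nat.le_floor (by exact_mod_cast hY4)
  have hlY : 0 ≤ Real.log Y ^ k := by
    have := Real.log_nonneg (by linarith : 1 ≤ Y)
    positivity
  have hk0 : (0 : ℝ) ≤ k := Nat.cast_nonneg k
  by_cases hN : M + 1 ≤ N
  swap
  · have : Ioc M N = ∅ := by
      rw [Finset.Ioc_eq_empty_iff]; omega
    rw [this, Finset.sum_empty, norm_zero]
    positivity
  have hab := swA_abel (fun n : ℕ => χ (n : ZMod q)) (fun n : ℕ => swA_g k s (n : ℝ)) M N hN q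
    (fun B => swA_char_partial (by omega) χ hχ B)
  refine le_trans hab ?_
  have hg : ∀ n : ℕ, M + 1 ≤ n → ‖swA_g k s (n : ℝ)‖ ≤ A * Real.log Y ^ k * (1 / Y) := by
    intro n hn
    have hn1 : ((M : ℝ) + 1) ≤ n := by exact_mod_cast hn
    have hYn : Y ≤ n := by linarith
    have hn0 : (0 : ℝ) < n := by linarith
    calc ‖swA_g k s (n : ℝ)‖ ≤ Real.log n ^ k / n := swA_g_norm k hs (by linarith)
      _ ≤ A * Real.log Y ^ k * Real.sqrt ((n : ℝ) / Y) / n :=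
          div_le_div_of_nonneg_right (hA Y n (by linarith) hYn) hn0.le
      _ = A * Real.log Y ^ k * (Real.sqrt ((n : ℝ) / Y) / n) := by ring
      _ ≤ _ := mul_le_mul_of_nonneg_left (swA_small Y n (by linarith) hYn) (by positivity)
  have hsn : ‖s‖ ≤ |s.im| + 2 := by
    have := Complex.norm_le_abs_re_add_abs_im s
    rw [abs_of_pos (by linarith : 0 < s.re)] at this
    linarith
  have hd : ∑ j ∈ Ico (M + 1) N, ‖swA_g k s (j : ℝ) - swA_g k s ((j + 1 : ℕ) : ℝ)‖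
      ≤ (‖s‖ + k) * (A * Real.log Y ^ k) * (8 / Y) := by
    have hterm : ∀ j ∈ Ico (M + 1) N, ‖swA_g k s (j : ℝ) - swA_g k s ((j + 1 : ℕ) : ℝ)‖
        ≤ (‖s‖ + k) * (A * Real.log Y ^ k) / Real.sqrt Y *
          (Real.sqrt ((j : ℝ) + 1) / (j : ℝ) ^ 2) := by
      intro j hj
      rw [mem_Ico] at hj
      have hj1 : ((M : ℝ) + 1) ≤ j := by exact_mod_cast hj.1
      have hj0 : (0 : ℝ) < j := by linarith
      have hYj : Y ≤ ((j + 1 : ℕ) : ℝ) := by push_cast; linarith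
      have h1 := swA_g_diff k hs j (by omega)
      have h2 := hA Y ((j + 1 : ℕ) : ℝ) (by linarith) hYj
      have h3 : Real.sqrt (((j + 1 : ℕ) : ℝ) / Y) = Real.sqrt ((j : ℝ) + 1) / Real.sqrt Y := by
        rw [Real.sqrt_div (by positivity)]
        push_cast
        rfl
      rw [h3] at h2
      refine le_trans h1 ?_
      calc (‖s‖ + k) * Real.log ((j + 1 : ℕ) : ℝ) ^ k / (j : ℝ) ^ 2
          ≤ (‖s‖ + k) * (A * Real.log Y ^ k * (Real.sqrt ((j : ℝ) + 1) / Real.sqrt Y))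
              / (j : ℝ) ^ 2 := by
            apply div_le_div_of_nonneg_right _ (by positivity)
            exact mul_le_mul_of_nonneg_left h2 (by positivity)
        _ = _ := by
            have : Real.sqrt Y ≠ 0 := (Real.sqrt_pos.2 hY0).ne'
            field_simp
    refine le_trans (Finset.sum_le_sum hterm) ?_
    rw [← Finset.mul_sum]
    have h1 := swA_tele_sum M N (by omega) hN
    have hMr : (4 : ℝ) ≤ M := by exact_mod_cast hM4
    have hMY : Y / 2 ≤ M := by linarith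
    have hsM : Real.sqrt Y / 2 ≤ Real.sqrt M := by
      apply Real.le_sqrt_of_sq_le
      rw [div_pow, Real.sq_sqrt hY0.le]
      linarith
    have hsY : 0 < Real.sqrt Y := Real.sqrt_pos.2 hY0
    have h2 : 4 / Real.sqrt (M : ℝ) ≤ 8 / Real.sqrt Y := by
      rw [div_le_div_iff₀ (Real.sqrt_pos.2 (by linarith)) hsY]
      linarith
    calc (‖s‖ + k) * (A * Real.log Y ^ k) / Real.sqrt Y *
          ∑ i ∈ Ico (M + 1) N, Real.sqrt ((i : ℝ) + 1) / (i : ℝ) ^ 2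
        ≤ (‖s‖ + k) * (A * Real.log Y ^ k) / Real.sqrt Y * (8 / Real.sqrt Y) := by
          apply mul_le_mul_of_nonneg_left (le_trans h1 h2)
          positivity
      _ = (‖s‖ + k) * (A * Real.log Y ^ k) * (8 / (Real.sqrt Y * Real.sqrt Y)) := by
          field_simp
      _ = _ := by rw [Real.mul_self_sqrt hY0.le]
  have hqY : (q : ℝ) / Y ≤ 1 / 2 := by
    rw [div_le_div_iff₀ hY0 (by norm_num), hYdef]
    nlinarith
  have hqs : (q : ℝ) * ‖s‖ / Y ≤ 1 := by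
    rw [div_le_one hY0, hYdef]
    exact mul_le_mul_of_nonneg_left hsn hq0.le
  calc (q : ℝ) * (‖swA_g k s (N : ℝ)‖ + ‖swA_g k s ((M + 1 : ℕ) : ℝ)‖ +
        ∑ j ∈ Ico (M + 1) N, ‖swA_g k s (j : ℝ) - swA_g k s ((j + 1 : ℕ) : ℝ)‖)
      ≤ (q : ℝ) * (A * Real.log Y ^ k * (1 / Y) + A * Real.log Y ^ k * (1 / Y) +
          (‖s‖ + k) * (A * Real.log Y ^ k) * (8 / Y)) := by
        apply mul_le_mul_of_nonneg_left _ hq0.le
        exact add_le_add (add_le_add (hg N hN) (hg (M + 1) le_rfl)) hd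
    _ = A * Real.log Y ^ k * (2 * (q / Y) + 8 * (q * ‖s‖ / Y) + 8 * k * (q / Y)) := by ring
    _ ≤ A * Real.log Y ^ k * (2 * (1 / 2) + 8 * 1 + 8 * k * (1 / 2)) := by
        apply mul_le_mul_of_nonneg_left _ (by positivity)
        have := mul_le_mul_of_nonneg_left hqY (by positivity : (0 : ℝ) ≤ 8 * k)
        linarith
    _ = _ := by ring

private theorem swA_head (k : ℕ) (q : ℕ) (χ : DirichletCharacter ℂ q) (s : ℂ) (hs : 1 < s.re)
    (Y : ℝ) (hY : 4 ≤ Y) :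
    ‖∑ n ∈ Icc 1 ⌊Y⌋₊, χ (n : ZMod q) * swA_g k s (n : ℝ)‖ ≤ 2 * Real.log Y ^ (k + 1) := by
  have hY0 : 0 < Y := by linarith
  have hM1 : ((⌊Y⌋₊ : ℕ) : ℝ) ≤ Y := Nat.floor_le hY0.le
  have hM4 : 4 ≤ ⌊Y⌋₊ := Nat.le_floor (by exact_mod_cast hY)
  have hlY : 1 ≤ Real.log Y := by
    rw [Real.le_log_iff_exp_le hY0]
    have := Real.exp_one_lt_d9
    linarith
  have hterm : ∀ n ∈ Icc 1 ⌊Y⌋₊, ‖χ (n : ZMod q) * swA_g k s (n : ℝ)‖
      ≤ Real.log Y ^ k * ((n : ℝ)⁻¹) := by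
    intro n hn
    rw [mem_Icc] at hn
    have hn1 : (1 : ℝ) ≤ n := by exact_mod_cast hn.1
    have hn2 : (n : ℝ) ≤ Y := le_trans (by exact_mod_cast hn.2) hM1
    rw [norm_mul]
    calc ‖χ (n : ZMod q)‖ * ‖swA_g k s (n : ℝ)‖ ≤ 1 * (Real.log n ^ k / n) := by
          apply mul_le_mul (DirichletCharacter.norm_le_one χ _) (swA_g_norm k hs hn1)
            (norm_nonneg _) zero_le_one
      _ = Real.log n ^ k * (n : ℝ)⁻¹ := by rw [one_mul, div_eq_mul_inv]
      _ ≤ _ := by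
          apply mul_le_mul_of_nonneg_right _ (by positivity)
          exact pow_le_pow_left₀ (Real.log_nonneg hn1) (Real.log_le_log (by linarith) hn2) k
  have hharm : ∑ n ∈ Icc 1 ⌊Y⌋₊, ((n : ℝ)⁻¹) ≤ 1 + Real.log Y := by
    have h1 := harmonic_le_one_add_log ⌊Y⌋₊
    have h2 : ((harmonic ⌊Y⌋₊ : ℚ) : ℝ) = ∑ n ∈ Icc 1 ⌊Y⌋₊, ((n : ℝ)⁻¹) := by
      rw [harmonic_eq_sum_Icc]
      push_cast
      rfl
    rw [← h2]
    refine le_trans h1 ?_
    have : Real.log ((⌊Y⌋₊ : ℕ) : ℝ) ≤ Real.log Y :=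
      Real.log_le_log (by exact_mod_cast (by omega : 0 < ⌊Y⌋₊)) hM1
    linarith
  calc ‖∑ n ∈ Icc 1 ⌊Y⌋₊, χ (n : ZMod q) * swA_g k s (n : ℝ)‖
      ≤ ∑ n ∈ Icc 1 ⌊Y⌋₊, ‖χ (n : ZMod q) * swA_g k s (n : ℝ)‖ := norm_sum_le _ _
    _ ≤ ∑ n ∈ Icc 1 ⌊Y⌋₊, Real.log Y ^ k * ((n : ℝ)⁻¹) := Finset.sum_le_sum hterm
    _ = Real.log Y ^ k * ∑ n ∈ Icc 1 ⌊Y⌋₊, ((n : ℝ)⁻¹) := by rw [Finset.mul_sum]
    _ ≤ Real.log Y ^ k * (1 + Real.log Y) := mul_le_mul_of_nonneg_left hharm (by positivity)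
    _ ≤ Real.log Y ^ k * (2 * Real.log Y) := by
        apply mul_le_mul_of_nonneg_left _ (by positivity)
        linarith
    _ = _ := by rw [pow_succ]; ring

theorem Lk_le (k : ℕ) : ∃ C : ℝ, 0 < C ∧ ∀ q : ℕ, 2 ≤ q → ∀ χ : DirichletCharacter ℂ q, χ ≠ 1 →
    ∀ s : ℂ, 1 < s.re → s.re ≤ 2 →
      ‖Lk q χ k s‖ ≤ C * Real.log (q * (|s.im| + 2)) ^ (k + 1) := by
  obtain ⟨C, hC, htail⟩ := swA_tail k
  refine ⟨C + 2, by linarith, ?_⟩
  intro q hq χ hχ s hs hs2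
  have hq2 : (2 : ℝ) ≤ q := by exact_mod_cast hq
  have ht := abs_nonneg s.im
  set Y : ℝ := (q : ℝ) * (|s.im| + 2) with hYdef
  have hY4 : 4 ≤ Y := by rw [hYdef]; nlinarith
  have hY0 : 0 < Y := by linarith
  have hlY : 1 ≤ Real.log Y := by
    rw [Real.le_log_iff_exp_le hY0]
    have := Real.exp_one_lt_d9
    linarith
  have hsum := Lk_summable q χ k s hs
  have hlim := hsum.hasSum.tendsto_sum_nat
  have hterm : ∀ n : ℕ, n ≠ 0 →
      LSeries.term (fun n : ℕ => ((Real.log n : ℝ) : ℂ) ^ k * χ (n : ZMod q)) s n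
        = χ (n : ZMod q) * swA_g k s (n : ℝ) := by
    intro n hn
    rw [LSeries.term_of_ne_zero hn, swA_g, Complex.cpow_neg]
    push_cast
    rw [div_eq_mul_inv]
    ring
  refine le_of_tendsto hlim.norm ?_
  filter_upwards [Filter.eventually_ge_atTop (⌊Y⌋₊ + 1)] with N hN
  obtain ⟨N', rfl⟩ : ∃ N', N = N' + 1 := ⟨N - 1, by omega⟩
  have hN' : ⌊Y⌋₊ ≤ N' := by omega
  have h1 : ∑ i ∈ range (N' + 1),
      LSeries.term (fun n : ℕ => ((Real.log n : ℝ) : ℂ) ^ k * χ (n : ZMod q)) s i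
      = ∑ n ∈ Icc 1 ⌊Y⌋₊, χ (n : ZMod q) * swA_g k s (n : ℝ)
        + ∑ n ∈ Ioc ⌊Y⌋₊ N', χ (n : ZMod q) * swA_g k s (n : ℝ) := by
    have e1 : range (N' + 1) = insert 0 (Icc 1 ⌊Y⌋₊ ∪ Ioc ⌊Y⌋₊ N') := by
      ext x; simp only [mem_range, mem_insert, mem_union, mem_Icc, mem_Ioc]; omega
    have e2 : 0 ∉ Icc 1 ⌊Y⌋₊ ∪ Ioc ⌊Y⌋₊ N' := by simp
    have e3 : Disjoint (Icc 1 ⌊Y⌋₊) (Ioc ⌊Y⌋₊ N') := by
      rw [Finset.disjoint_left]; intro x hx hx'
      rw [mem_Icc] at hx; rw [mem_Ioc] at hx'; omega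
    rw [e1, Finset.sum_insert e2, LSeries.term_zero, zero_add, Finset.sum_union e3]
    congr 1
    · apply Finset.sum_congr rfl
      intro n hn
      rw [mem_Icc] at hn
      exact hterm n (by omega)
    · apply Finset.sum_congr rfl
      intro n hn
      rw [mem_Ioc] at hn
      exact hterm n (by omega)
  rw [h1]
  have h2 := swA_head k q χ s hs Y hY4
  have h3 := htail q hq χ hχ s hs hs2 N'
  have h4 : Real.log Y ^ k ≤ Real.log Y ^ (k + 1) := pow_le_pow_right₀ hlY (Nat.le_succ k)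
  calc _ ≤ _ + _ := norm_add_le _ _
    _ ≤ 2 * Real.log Y ^ (k + 1) + C * Real.log Y ^ k := add_le_add h2 h3
    _ ≤ 2 * Real.log Y ^ (k + 1) + C * Real.log Y ^ (k + 1) := by
        have := mul_le_mul_of_nonneg_left h4 hC.le
        linarith
    _ = _ := by ring

end Pool.Agent.H91.EHA

end

section

/-!
# Upper bounds, principal characters

`L1_le`: `A(u) = #{n ≤ u : (n,q)=1} = (φ(q)/q) u + O(q)`.  With `M = q(|t|+2)`:
terms `n ≤ M` give at most `1 + log M`; terms `n > M` by partial summation: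
`s ∫_M^∞ A(u) u^{-s-1} du - A(M) M^{-s}`, main term `(φ(q)/q)(M^{1-s}/(s-1))·(...)`, at most
`1/‖s-1‖ + C`.  (Any proof is fine; the constant `C` is free.)
`zeta_k_le`: the same for `q = 1` with `(log n)^k`: compare the sum over `n > M`, `M = |t| + 2`, with the
integral `∫_M^∞ (log u)^k u^{-s} du`, which is `O((log M)^k)` since `‖s - 1‖ ≥ 1`
(integrate by parts `k+1` times or use the primitive).
Note that `Lk 1 1 k s` is the series of `(log n)^k` (all values of the character mod 1 are 1).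
-/

set_option autoImplicit false

namespace Pool.Agent.H91.EHA

open Finset

/-- the summand as a function of a real variable -/
noncomputable def swB_g (s : ℂ) (k : ℕ) (u : ℝ) : ℂ :=
  ((Real.log u : ℝ) : ℂ) ^ k * (u : ℂ) ^ (-s)

/-- a primitive of `swB_g s k` -/
noncomputable def swB_G (s : ℂ) : ℕ → ℝ → ℂ
  | 0, u => (u : ℂ) ^ (1 - s) / (1 - s)
  | (k + 1), u => (((Real.log u : ℝ) : ℂ) ^ (k + 1) * (u : ℂ) ^ (1 - s)
      - ((k : ℂ) + 1) * swB_G s k u) / (1 - s)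

/-- derivative of `swB_g s k` -/
noncomputable def swB_g' (s : ℂ) (k : ℕ) (u : ℝ) : ℂ :=
  ((k : ℂ) * ((Real.log u : ℝ) : ℂ) ^ (k - 1) * ((u⁻¹ : ℝ) : ℂ)) * (u : ℂ) ^ (-s)
    + ((Real.log u : ℝ) : ℂ) ^ k * ((-s) * (u : ℂ) ^ (-s - 1))

theorem swB_log_deriv {u : ℝ} (hu : 0 < u) :
    HasDerivAt (fun y : ℝ => ((Real.log y : ℝ) : ℂ)) ((u⁻¹ : ℝ) : ℂ) u :=
  (Real.hasDerivAt_log hu.ne').ofReal_comp

theorem swB_ne_one {s : ℂ} (hs : 1 < s.re) : (1 : ℂ) - s ≠ 0 := by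
  intro h
  have h1 : (1 - s).re = 0 := by rw [h]; simp
  simp only [Complex.sub_re, Complex.one_re] at h1
  linarith

theorem swB_ne_zero {s : ℂ} (hs : 1 < s.re) : s ≠ 0 := by
  rintro rfl
  simp only [Complex.zero_re] at hs
  linarith

theorem swB_g_deriv {s : ℂ} (hs : 1 < s.re) (k : ℕ) {u : ℝ} (hu : 0 < u) :
    HasDerivAt (swB_g s k) (swB_g' s k u) u := by
  have h1 := (swB_log_deriv hu).pow k
  have h2 : HasDerivAt (fun y : ℝ => (y : ℂ) ^ (-s)) ((-s) * (u : ℂ) ^ (-s - 1)) u :=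
    hasDerivAt_ofReal_cpow_const hu.ne' (neg_ne_zero.mpr (swB_ne_zero hs))
  exact h1.mul h2

theorem swB_pow_deriv {s : ℂ} (hs : 1 < s.re) {u : ℝ} (hu : 0 < u) :
    HasDerivAt (fun y : ℝ => (y : ℂ) ^ (1 - s)) ((1 - s) * (u : ℂ) ^ (-s)) u := by
  have h := hasDerivAt_ofReal_cpow_const (x := u) hu.ne' (swB_ne_one hs)
  have e : (1 : ℂ) - s - 1 = -s := by ring
  rw [e] at h
  exact h

theorem swB_G_deriv {s : ℂ} (hs : 1 < s.re) (k : ℕ) {u : ℝ} (hu : 0 < u) :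
    HasDerivAt (swB_G s k) (swB_g s k u) u := by
  have hne := swB_ne_one hs
  induction k with
  | zero =>
    have h := (swB_pow_deriv hs hu).div_const (1 - s)
    have e : (1 - s) * (u : ℂ) ^ (-s) / (1 - s) = swB_g s 0 u := by
      unfold swB_g
      rw [pow_zero, one_mul]
      field_simp
    rw [e] at h
    exact h
  | succ k ih =>
    have h1 := (swB_log_deriv hu).pow (k + 1)
    have h2 := (h1.mul (swB_pow_deriv hs hu)).sub (ih.const_mul ((k : ℂ) + 1))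
    have h3 := h2.div_const (1 - s)
    have hu' : (u : ℂ) ≠ 0 := by exact_mod_cast hu.ne'
    have e1 : (u : ℂ) ^ (1 - s) = (u : ℂ) * (u : ℂ) ^ (-s) := by
      rw [show (1 : ℂ) - s = 1 + (-s) by ring, Complex.cpow_add _ _ hu', Complex.cpow_one]
    have e2 : ((u⁻¹ : ℝ) : ℂ) * (u : ℂ) = 1 := by
      rw [Complex.ofReal_inv]
      exact inv_mul_cancel₀ hu'
    have e : ((((k + 1 : ℕ) : ℂ) * ((Real.log u : ℝ) : ℂ) ^ (k + 1 - 1) * ((u⁻¹ : ℝ) : ℂ))
        * (u : ℂ) ^ (1 - s) + ((Real.log u : ℝ) : ℂ) ^ (k + 1) * ((1 - s) * (u : ℂ) ^ (-s))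
        - ((k : ℂ) + 1) * swB_g s k u) / (1 - s) = swB_g s (k + 1) u := by
      unfold swB_g
      rw [e1, Nat.add_sub_cancel]
      push_cast
      rw [div_eq_iff hne]
      have e2' : ((u : ℂ))⁻¹ * (u : ℂ) = 1 := inv_mul_cancel₀ hu'
      linear_combination (((k : ℂ) + 1) * ((Real.log u : ℝ) : ℂ) ^ k * (u : ℂ) ^ (-s)) * e2'
    rw [← e]
    exact h3

theorem swB_one_le_log {u : ℝ} (hu : 3 ≤ u) : 1 ≤ Real.log u := by
  rw [Real.le_log_iff_exp_le (by linarith)]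
  have := Real.exp_one_lt_d9
  linarith

theorem swB_norm_g' {s : ℂ} (hs : 1 < s.re) (k : ℕ) {u : ℝ} (hu : 3 ≤ u) :
    ‖swB_g' s k u‖ ≤ (k + ‖s‖) * Real.log u ^ k / u ^ 2 := by
  have hu0 : 0 < u := by linarith
  have hl : 1 ≤ Real.log u := swB_one_le_log hu
  have hl0 : 0 ≤ Real.log u := by linarith
  have h1 : ‖(u : ℂ) ^ (-s)‖ ≤ u⁻¹ := by
    rw [Complex.norm_cpow_eq_rpow_re_of_pos hu0, ← Real.rpow_neg_one]
    apply Real.rpow_le_rpow_of_exponent_le (by linarith)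
    rw [Complex.neg_re]
    linarith
  have h2 : ‖(u : ℂ) ^ (-s - 1)‖ ≤ (u ^ 2)⁻¹ := by
    rw [Complex.norm_cpow_eq_rpow_re_of_pos hu0]
    have e : (u ^ 2)⁻¹ = u ^ (-2 : ℝ) := by
      rw [Real.rpow_neg hu0.le]
      norm_num
    rw [e]
    apply Real.rpow_le_rpow_of_exponent_le (by linarith)
    rw [Complex.sub_re, Complex.neg_re, Complex.one_re]
    linarith
  have h3 : ‖((Real.log u : ℝ) : ℂ)‖ = Real.log u := by
    rw [Complex.norm_real, Real.norm_of_nonneg hl0]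
  have h4 : ‖((u⁻¹ : ℝ) : ℂ)‖ = u⁻¹ := by
    rw [Complex.norm_real, Real.norm_of_nonneg (inv_nonneg.mpr hu0.le)]
  have h5 : Real.log u ^ (k - 1) ≤ Real.log u ^ k := pow_le_pow_right₀ hl (Nat.sub_le k 1)
  unfold swB_g'
  refine (norm_add_le _ _).trans ?_
  rw [norm_mul, norm_mul, norm_mul, norm_mul, norm_mul, norm_pow, norm_pow, h3, h4, norm_neg,
    Complex.norm_natCast]
  have hu2 : u⁻¹ * u⁻¹ = (u ^ 2)⁻¹ := by
    rw [sq, mul_inv]
  have hp : 0 ≤ Real.log u ^ k := pow_nonneg hl0 k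
  have hui : 0 ≤ u⁻¹ := inv_nonneg.mpr hu0.le
  have t1 : (k : ℝ) * Real.log u ^ (k - 1) * u⁻¹ * ‖(u : ℂ) ^ (-s)‖
      ≤ (k : ℝ) * Real.log u ^ k * u⁻¹ * u⁻¹ := by
    have hk : (0 : ℝ) ≤ k := Nat.cast_nonneg k
    gcongr
  have t2 : Real.log u ^ k * (‖s‖ * ‖(u : ℂ) ^ (-s - 1)‖) ≤ Real.log u ^ k * (‖s‖ * (u ^ 2)⁻¹) := by
    gcongr
  calc (k : ℝ) * Real.log u ^ (k - 1) * u⁻¹ * ‖(u : ℂ) ^ (-s)‖
        + Real.log u ^ k * (‖s‖ * ‖(u : ℂ) ^ (-s - 1)‖)
      ≤ (k : ℝ) * Real.log u ^ k * u⁻¹ * u⁻¹ + Real.log u ^ k * (‖s‖ * (u ^ 2)⁻¹) :=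
        add_le_add t1 t2
    _ = (k + ‖s‖) * Real.log u ^ k / u ^ 2 := by
        rw [mul_assoc, hu2]
        ring

/-- the error bound of one step -/
noncomputable def swB_e (s : ℂ) (k n : ℕ) : ℝ :=
  (k + ‖s‖) * Real.log ((n : ℝ) + 1) ^ k / (n : ℝ) ^ 2

theorem swB_g'_le {s : ℂ} (hs : 1 < s.re) (k n : ℕ) (hn : 3 ≤ n) {u : ℝ}
    (hu : u ∈ Set.Icc (n : ℝ) ((n : ℝ) + 1)) : ‖swB_g' s k u‖ ≤ swB_e s k n := by
  have hn' : (3 : ℝ) ≤ n := by exact_mod_cast hn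
  have hu3 : 3 ≤ u := le_trans hn' hu.1
  refine (swB_norm_g' hs k hu3).trans ?_
  unfold swB_e
  have h1 : Real.log u ≤ Real.log ((n : ℝ) + 1) := Real.log_le_log (by linarith) hu.2
  have h0 : 0 ≤ Real.log u := by linarith [swB_one_le_log hu3]
  have hks : 0 ≤ (k : ℝ) + ‖s‖ := by positivity
  have h2 : (n : ℝ) ^ 2 ≤ u ^ 2 := pow_le_pow_left₀ (by linarith) hu.1 2
  have h3 : Real.log u ^ k ≤ Real.log ((n : ℝ) + 1) ^ k := pow_le_pow_left₀ h0 h1 k
  have hn2 : 0 < (n : ℝ) ^ 2 := by positivity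
  apply div_le_div₀ (mul_nonneg hks (pow_nonneg (h0.trans h1) k)) _ hn2 h2
  exact mul_le_mul_of_nonneg_left h3 hks

theorem swB_step_g {s : ℂ} (hs : 1 < s.re) (k n : ℕ) (hn : 3 ≤ n) {u : ℝ}
    (hu : u ∈ Set.Icc (n : ℝ) ((n : ℝ) + 1)) : ‖swB_g s k u - swB_g s k n‖ ≤ swB_e s k n := by
  have hn' : (3 : ℝ) ≤ n := by exact_mod_cast hn
  have h := Convex.norm_image_sub_le_of_norm_hasDerivWithin_le (f := swB_g s k)
    (f' := swB_g' s k) (s := Set.Icc (n : ℝ) ((n : ℝ) + 1)) (C := swB_e s k n) (x := (n : ℝ))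
    (y := u)
    (fun x hx => (swB_g_deriv hs k (by linarith [hx.1])).hasDerivWithinAt)
    (fun x hx => swB_g'_le hs k n hn hx) (convex_Icc _ _) ⟨le_refl _, by linarith⟩ hu
  refine h.trans ?_
  have he : 0 ≤ swB_e s k n := le_trans (norm_nonneg _) (swB_g'_le hs k n hn hu)
  have h1 : ‖u - (n : ℝ)‖ ≤ 1 := by
    rw [Real.norm_eq_abs, abs_le]
    constructor <;> linarith [hu.1, hu.2]
  calc swB_e s k n * ‖u - (n : ℝ)‖ ≤ swB_e s k n * 1 := mul_le_mul_of_nonneg_left h1 he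
    _ = swB_e s k n := mul_one _

theorem swB_step_G {s : ℂ} (hs : 1 < s.re) (k n : ℕ) (hn : 3 ≤ n) :
    ‖(swB_G s k ((n : ℝ) + 1) - swB_G s k n) - swB_g s k n‖ ≤ swB_e s k n := by
  have hn' : (3 : ℝ) ≤ n := by exact_mod_cast hn
  have h := Convex.norm_image_sub_le_of_norm_hasDerivWithin_le
    (f := fun x : ℝ => swB_G s k x - (x : ℂ) * swB_g s k n)
    (f' := fun x : ℝ => swB_g s k x - swB_g s k n) (s := Set.Icc (n : ℝ) ((n : ℝ) + 1))
    (C := swB_e s k n) (x := (n : ℝ)) (y := (n : ℝ) + 1)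
    (fun x hx => by
      have h1 := swB_G_deriv hs k (u := x) (by linarith [hx.1])
      have h2 : HasDerivAt (fun x : ℝ => (x : ℂ) * swB_g s k n) (1 * swB_g s k n) x := by
        have := (hasDerivAt_id x).ofReal_comp
        exact this.mul_const _
      rw [one_mul] at h2
      exact (h1.sub h2).hasDerivWithinAt)
    (fun x hx => swB_step_g hs k n hn hx) (convex_Icc _ _) ⟨le_refl _, by linarith⟩
    ⟨by linarith, le_refl _⟩
  have e : (swB_G s k ((n : ℝ) + 1) - (((n : ℝ) + 1 : ℝ) : ℂ) * swB_g s k n)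
      - (swB_G s k n - ((n : ℝ) : ℂ) * swB_g s k n)
      = (swB_G s k ((n : ℝ) + 1) - swB_G s k n) - swB_g s k n := by
    push_cast
    ring
  rw [e] at h
  have e2 : ‖((n : ℝ) + 1) - (n : ℝ)‖ = 1 := by
    rw [add_sub_cancel_left]
    exact norm_one
  rw [e2, mul_one] at h
  exact h

theorem swB_sum_pow (N : ℕ) (hN : 1 ≤ N) (K : ℕ) (hK : N ≤ K) :
    ∑ n ∈ Ico N K, 1 / ((n : ℝ) * Real.sqrt n) ≤ 4 / Real.sqrt N - 4 / Real.sqrt K := by
  induction K, hK using Nat.le_induction with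
  | base => simp
  | succ K hK ih =>
    rw [Finset.sum_Ico_succ_top hK]
    have hK1 : (1 : ℝ) ≤ K := by exact_mod_cast hN.trans hK
    set a := Real.sqrt K with ha
    set b := Real.sqrt ((K + 1 : ℕ) : ℝ) with hb
    have ha2 : a * a = K := Real.mul_self_sqrt (by linarith)
    have hb2 : b * b = K + 1 := by
      rw [hb, Real.mul_self_sqrt (by positivity)]
      push_cast
      ring
    have ha1 : 1 ≤ a := by
      rw [ha]
      exact Real.one_le_sqrt.mpr hK1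
    have hab : a ≤ b := by
      rw [ha, hb]
      apply Real.sqrt_le_sqrt
      push_cast
      linarith
    have hb0 : 0 < b := by linarith
    have ha0 : 0 < a := by linarith
    have hb3 : b ≤ 3 / 2 * a := by
      by_contra hcon
      push Not at hcon
      nlinarith only [ha2, hb2, ha1, hcon]
    have key : 1 / ((K : ℝ) * a) ≤ 4 / a - 4 / b := by
      rw [div_sub_div _ _ ha0.ne' hb0.ne', div_le_div_iff₀ (by positivity) (by positivity)]
      have h1 : (b - a) * (b + a) = 1 := by nlinarith only [ha2, hb2]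
      -- 1 * (a*b) <= 4 (b - a) K a
      have h2 : b * (b + a) ≤ 4 * K := by nlinarith only [ha2, hb2, ha1, hb3]
      have h3 : 1 * (a * b) = (a * b) * ((b - a) * (b + a)) := by rw [h1]; ring
      rw [h3]
      have h4 : 0 ≤ b - a := by linarith
      nlinarith only [mul_le_mul_of_nonneg_left h2 (mul_nonneg ha0.le h4)]
    linarith

theorem swB_log_pow (k n : ℕ) (hn : 1 ≤ n) :
    Real.log ((n : ℝ) + 1) ^ k ≤ (2 : ℝ) ^ (k + 1) * (k.factorial : ℝ) * Real.sqrt n := by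
  have hn' : (1 : ℝ) ≤ n := by exact_mod_cast hn
  set y := Real.log ((n : ℝ) + 1) with hy
  have hy0 : 0 ≤ y := Real.log_nonneg (by linarith)
  have h1 := Real.pow_div_factorial_le_exp (x := y / 2) (by linarith) k
  have hk : (0 : ℝ) < k.factorial := by exact_mod_cast Nat.factorial_pos k
  have h2 : Real.exp (y / 2) = Real.sqrt ((n : ℝ) + 1) := by
    rw [hy, Real.exp_half, Real.exp_log (by linarith)]
  have h3 : Real.sqrt ((n : ℝ) + 1) ≤ 2 * Real.sqrt n := by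
    rw [Real.sqrt_le_left (by positivity), mul_pow, Real.sq_sqrt (by linarith)]
    linarith
  rw [div_le_iff₀ hk, h2, div_pow, div_le_iff₀ (by positivity)] at h1
  calc y ^ k ≤ Real.sqrt ((n : ℝ) + 1) * k.factorial * 2 ^ k := h1
    _ ≤ (2 * Real.sqrt n) * k.factorial * 2 ^ k := by gcongr
    _ = (2 : ℝ) ^ (k + 1) * (k.factorial : ℝ) * Real.sqrt n := by ring

/-- the total error -/
theorem swB_sum_e (s : ℂ) (k N K : ℕ) (hN : 1 ≤ N) (hK : N ≤ K) {X : ℝ} (hX : 0 < X)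
    (hXN : X ^ 2 ≤ N) (hsX : ‖s‖ ≤ X) (hX1 : 1 ≤ X) :
    ∑ n ∈ Ico N K, swB_e s k n ≤ 4 * ((k : ℝ) + 1) * ((2 : ℝ) ^ (k + 1) * (k.factorial : ℝ)) := by
  have hNr : (1 : ℝ) ≤ N := by exact_mod_cast hN
  have h1 : ∀ n ∈ Ico N K, swB_e s k n ≤ ((k + ‖s‖) * ((2 : ℝ) ^ (k + 1) * (k.factorial : ℝ)))
      * (1 / ((n : ℝ) * Real.sqrt n)) := by
    intro n hn
    have hn1 : 1 ≤ n := hN.trans (Finset.mem_Ico.mp hn).1
    have hn' : (1 : ℝ) ≤ n := by exact_mod_cast hn1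
    unfold swB_e
    have h2 := swB_log_pow k n hn1
    have hks : 0 ≤ (k : ℝ) + ‖s‖ := by positivity
    have hsq : Real.sqrt n * Real.sqrt n = n := Real.mul_self_sqrt (by linarith)
    have hsq0 : 0 < Real.sqrt n := Real.sqrt_pos.mpr (by linarith)
    rw [mul_one_div, div_le_div_iff₀ (by positivity) (by positivity)]
    calc (k + ‖s‖) * Real.log ((n : ℝ) + 1) ^ k * ((n : ℝ) * Real.sqrt n)
        ≤ (k + ‖s‖) * ((2 : ℝ) ^ (k + 1) * (k.factorial : ℝ) * Real.sqrt n)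
            * ((n : ℝ) * Real.sqrt n) := by gcongr
      _ = (k + ‖s‖) * ((2 : ℝ) ^ (k + 1) * (k.factorial : ℝ)) * (n * (Real.sqrt n * Real.sqrt n)) := by
          ring
      _ = (k + ‖s‖) * ((2 : ℝ) ^ (k + 1) * (k.factorial : ℝ)) * (n : ℝ) ^ 2 := by
          rw [hsq]
          ring
  refine (Finset.sum_le_sum h1).trans ?_
  rw [← Finset.mul_sum]
  have h3 := swB_sum_pow N hN K hK
  have hsN : X ≤ Real.sqrt N := Real.le_sqrt_of_sq_le hXN
  have h4 : ∑ n ∈ Ico N K, 1 / ((n : ℝ) * Real.sqrt n) ≤ 4 / X := by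
    have h5 : (0 : ℝ) ≤ 4 / Real.sqrt K := by positivity
    have h6 : 4 / Real.sqrt N ≤ 4 / X := by gcongr
    linarith
  have hc : 0 ≤ (k + ‖s‖) * ((2 : ℝ) ^ (k + 1) * (k.factorial : ℝ)) := by positivity
  refine (mul_le_mul_of_nonneg_left h4 hc).trans ?_
  have h7 : (k + ‖s‖) * (4 / X) ≤ 4 * ((k : ℝ) + 1) := by
    rw [mul_div_assoc', div_le_iff₀ hX]
    have hk : (0 : ℝ) ≤ k := Nat.cast_nonneg k
    nlinarith only [hsX, hX1]
  have hc2 : 0 ≤ (2 : ℝ) ^ (k + 1) * (k.factorial : ℝ) := by positivity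
  calc (k + ‖s‖) * ((2 : ℝ) ^ (k + 1) * (k.factorial : ℝ)) * (4 / X)
      = ((k + ‖s‖) * (4 / X)) * ((2 : ℝ) ^ (k + 1) * (k.factorial : ℝ)) := by ring
    _ ≤ (4 * ((k : ℝ) + 1)) * ((2 : ℝ) ^ (k + 1) * (k.factorial : ℝ)) :=
        mul_le_mul_of_nonneg_right h7 hc2
    _ = 4 * ((k : ℝ) + 1) * ((2 : ℝ) ^ (k + 1) * (k.factorial : ℝ)) := by ring

theorem swB_tail {s : ℂ} (hs : 1 < s.re) (k N K : ℕ) (hN : 3 ≤ N) (hK : N ≤ K) {X : ℝ}
    (hX : 0 < X) (hXN : X ^ 2 ≤ N) (hsX : ‖s‖ ≤ X) (hX1 : 1 ≤ X) :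
    ‖∑ n ∈ Ico N K, swB_g s k n‖ ≤ ‖swB_G s k K‖ + ‖swB_G s k N‖
      + 4 * ((k : ℝ) + 1) * ((2 : ℝ) ^ (k + 1) * (k.factorial : ℝ)) := by
  have h1 : ∑ n ∈ Ico N K, swB_g s k n
      = (swB_G s k K - swB_G s k N)
        - ∑ n ∈ Ico N K, ((swB_G s k ((n : ℝ) + 1) - swB_G s k n) - swB_g s k n) := by
    rw [Finset.sum_sub_distrib]
    have h2 : ∑ n ∈ Ico N K, (swB_G s k ((n : ℝ) + 1) - swB_G s k n)
        = swB_G s k K - swB_G s k N := by
      induction K, hK using Nat.le_induction with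
      | base => simp
      | succ K hK ih =>
        rw [Finset.sum_Ico_succ_top hK, ih]
        push_cast
        ring
    rw [h2]
    ring
  rw [h1]
  refine (norm_sub_le _ _).trans ?_
  refine add_le_add (norm_sub_le _ _) ?_
  refine (norm_sum_le _ _).trans ?_
  refine le_trans (Finset.sum_le_sum fun n hn => ?_)
    (swB_sum_e s k N K (by omega) hK hX hXN hsX hX1)
  exact swB_step_G hs k n (hN.trans (Finset.mem_Ico.mp hn).1)

/-- Abel summation against a function with bounded partial sums -/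
theorem swB_abel {s : ℂ} (hs : 1 < s.re) (N K : ℕ) (hN : 3 ≤ N) (hK : N ≤ K) {X q : ℝ}
    (hq : 0 < q) (hX : 0 < X) (hXN : X ^ 2 ≤ N) (hsX : q * ‖s‖ ≤ X) (hqX : q ≤ X) (_ : 1 ≤ X)
    (b : ℕ → ℂ) (hb : ∀ m, ‖∑ n ∈ range m, b n‖ ≤ q) :
    ‖∑ n ∈ Ico N K, b n * swB_g s 0 n‖ ≤ 10 := by
  set B : ℕ → ℂ := fun m => ∑ n ∈ range m, b n with hB
  have h1 : ∑ n ∈ Ico N K, b n * swB_g s 0 n
      = B K * swB_g s 0 K - B N * swB_g s 0 N
        - ∑ n ∈ Ico N K, B (n + 1) * (swB_g s 0 ((n : ℝ) + 1) - swB_g s 0 n) := by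
    induction K, hK using Nat.le_induction with
    | base => simp
    | succ K hK ih =>
      rw [Finset.sum_Ico_succ_top hK, Finset.sum_Ico_succ_top hK, ih]
      have h2 : B (K + 1) = B K + b K := by
        simp only [hB]
        rw [Finset.sum_range_succ]
      rw [h2]
      push_cast
      ring
  have hg : ∀ n : ℕ, N ≤ n → ‖B n * swB_g s 0 n‖ ≤ 1 := by
    intro n hn
    have hn3 : (3 : ℝ) ≤ n := by exact_mod_cast hN.trans hn
    have hn0 : (0 : ℝ) < n := by linarith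
    rw [norm_mul]
    have h2 : ‖swB_g s 0 (n : ℝ)‖ ≤ ((n : ℝ))⁻¹ := by
      unfold swB_g
      rw [pow_zero, one_mul, Complex.norm_cpow_eq_rpow_re_of_pos hn0, ← Real.rpow_neg_one]
      apply Real.rpow_le_rpow_of_exponent_le (by linarith)
      rw [Complex.neg_re]
      linarith
    have h3 : (N : ℝ) ≤ n := by exact_mod_cast hn
    calc ‖B n‖ * ‖swB_g s 0 (n : ℝ)‖ ≤ q * ((n : ℝ))⁻¹ :=
          mul_le_mul (hb n) h2 (norm_nonneg _) hq.le
      _ ≤ 1 := by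
          rw [← div_eq_mul_inv, div_le_one hn0]
          nlinarith only [hXN, hqX, hn3, h3]
  rw [h1]
  have hE : ‖∑ n ∈ Ico N K, B (n + 1) * (swB_g s 0 ((n : ℝ) + 1) - swB_g s 0 n)‖ ≤ 8 := by
    refine (norm_sum_le _ _).trans ?_
    have h2 : ∀ n ∈ Ico N K, ‖B (n + 1) * (swB_g s 0 ((n : ℝ) + 1) - swB_g s 0 n)‖
        ≤ (q * ‖s‖) * (1 / ((n : ℝ) * Real.sqrt n)) := by
      intro n hn
      have hn3 : 3 ≤ n := hN.trans (Finset.mem_Ico.mp hn).1
      have hn' : (3 : ℝ) ≤ n := by exact_mod_cast hn3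
      rw [norm_mul]
      have h3 := swB_step_g hs 0 n hn3 (u := (n : ℝ) + 1) ⟨by linarith, le_refl _⟩
      have h4 : swB_e s 0 n ≤ ‖s‖ * (1 / ((n : ℝ) * Real.sqrt n)) := by
        unfold swB_e
        have h5 : Real.sqrt n ≤ n := by
          rw [Real.sqrt_le_left (by linarith)]
          nlinarith only [hn']
        have h6 : 0 < Real.sqrt n := Real.sqrt_pos.mpr (by linarith)
        rw [pow_zero, mul_one, Nat.cast_zero, zero_add, mul_one_div]
        apply div_le_div_of_nonneg_left (norm_nonneg _) (by positivity)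
        rw [sq]
        exact mul_le_mul_of_nonneg_left h5 (by linarith)
      calc ‖B (n + 1)‖ * ‖swB_g s 0 ((n : ℝ) + 1) - swB_g s 0 n‖
          ≤ q * (‖s‖ * (1 / ((n : ℝ) * Real.sqrt n))) :=
            mul_le_mul (hb (n + 1)) (h3.trans h4) (norm_nonneg _) hq.le
        _ = (q * ‖s‖) * (1 / ((n : ℝ) * Real.sqrt n)) := by ring
    refine (Finset.sum_le_sum h2).trans ?_
    rw [← Finset.mul_sum]
    have h3 := swB_sum_pow N (by omega) K hK
    have hsN : X ≤ Real.sqrt N := Real.le_sqrt_of_sq_le hXN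
    have h4 : ∑ n ∈ Ico N K, 1 / ((n : ℝ) * Real.sqrt n) ≤ 4 / X := by
      have h5 : (0 : ℝ) ≤ 4 / Real.sqrt K := by positivity
      have h6 : 4 / Real.sqrt N ≤ 4 / X := by gcongr
      linarith
    calc (q * ‖s‖) * ∑ n ∈ Ico N K, 1 / ((n : ℝ) * Real.sqrt n)
        ≤ X * (4 / X) := by
          apply mul_le_mul hsX h4 _ hX.le
          exact Finset.sum_nonneg fun n _ => by positivity
      _ = 4 := by field_simp
      _ ≤ 8 := by norm_num
  calc ‖B K * swB_g s 0 K - B N * swB_g s 0 N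
        - ∑ n ∈ Ico N K, B (n + 1) * (swB_g s 0 ((n : ℝ) + 1) - swB_g s 0 n)‖
      ≤ ‖B K * swB_g s 0 K‖ + ‖B N * swB_g s 0 N‖
        + ‖∑ n ∈ Ico N K, B (n + 1) * (swB_g s 0 ((n : ℝ) + 1) - swB_g s 0 n)‖ :=
        (norm_sub_le _ _).trans (add_le_add (norm_sub_le _ _) (le_refl _))
    _ ≤ 1 + 1 + 8 := add_le_add (add_le_add (hg K hK) (hg N (le_refl _))) hE
    _ = 10 := by norm_num

/-- the head of the series -/
theorem swB_head (f : ℕ → ℂ) {s : ℂ} (hs : 1 < s.re) (k N : ℕ) (hN : 1 ≤ N)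
    (hf : ∀ n, 1 ≤ n → n < N → ‖f n‖ ≤ Real.log N ^ k) :
    ‖∑ n ∈ range N, LSeries.term f s n‖ ≤ Real.log N ^ k * (1 + Real.log N) := by
  have hN' : (1 : ℝ) ≤ N := by exact_mod_cast hN
  have hl : 0 ≤ Real.log N := Real.log_nonneg hN'
  have h1 : ∀ n ∈ range N, ‖LSeries.term f s n‖ ≤ Real.log N ^ k * ((n : ℝ))⁻¹ := by
    intro n hn
    rw [LSeries.norm_term_eq]
    by_cases h0 : n = 0
    · rw [if_pos h0, h0]
      simp
    · rw [if_neg h0]
      have hn1 : 1 ≤ n := Nat.one_le_iff_ne_zero.mpr h0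
      have hn' : (1 : ℝ) ≤ n := by exact_mod_cast hn1
      have h2 : (n : ℝ) ≤ (n : ℝ) ^ s.re := by
        calc (n : ℝ) = (n : ℝ) ^ (1 : ℝ) := (Real.rpow_one _).symm
          _ ≤ (n : ℝ) ^ s.re := Real.rpow_le_rpow_of_exponent_le hn' hs.le
      rw [← div_eq_mul_inv]
      exact div_le_div₀ (pow_nonneg hl k) (hf n hn1 (Finset.mem_range.mp hn)) (by linarith) h2
  refine (norm_sum_le _ _).trans ((Finset.sum_le_sum h1).trans ?_)
  rw [← Finset.mul_sum]
  apply mul_le_mul_of_nonneg_left _ (pow_nonneg hl k)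
  have h2 : ∑ n ∈ range N, ((n : ℝ))⁻¹ ≤ ((harmonic N : ℚ) : ℝ) := by
    obtain ⟨M, rfl⟩ : ∃ M, N = M + 1 := ⟨N - 1, by omega⟩
    rw [Finset.sum_range_succ']
    simp only [Nat.cast_zero, inv_zero, add_zero]
    unfold harmonic
    rw [Rat.cast_sum, Finset.sum_range_succ]
    have h3 : (0 : ℝ) ≤ (((((M + 1 : ℕ) : ℚ))⁻¹ : ℚ) : ℝ) := by
      push_cast
      positivity
    have h4 : ∑ i ∈ range M, (((i + 1 : ℕ) : ℝ))⁻¹
        = ∑ i ∈ range M, (((((i + 1 : ℕ) : ℚ))⁻¹ : ℚ) : ℝ) := by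
      refine Finset.sum_congr rfl fun i _ => ?_
      push_cast
      rfl
    rw [h4]
    linarith
  exact h2.trans (harmonic_le_one_add_log N)

theorem swB_norm_G0 {s : ℂ} (hs : 1 < s.re) {u : ℝ} (hu : 1 ≤ u) :
    ‖swB_G s 0 u‖ ≤ 1 / ‖s - 1‖ := by
  have hne := swB_ne_one hs
  unfold swB_G
  rw [norm_div, Complex.norm_cpow_eq_rpow_re_of_pos (by linarith), norm_sub_rev s 1]
  have h1 : u ^ (1 - s).re ≤ 1 := by
    apply Real.rpow_le_one_of_one_le_of_nonpos hu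
    rw [Complex.sub_re, Complex.one_re]
    linarith
  exact div_le_div_of_nonneg_right h1 (norm_nonneg _)

/-- constants for `swB_G_le` -/
noncomputable def swB_D : ℕ → ℝ
  | 0 => 1
  | (k + 1) => 1 + ((k : ℝ) + 1) * swB_D k

theorem swB_D_nonneg (k : ℕ) : 0 ≤ swB_D k := by
  induction k with
  | zero => exact zero_le_one
  | succ k ih =>
    unfold swB_D
    positivity

theorem swB_G_le {s : ℂ} (hs : 1 < s.re) (h1s : 1 ≤ ‖1 - s‖) (k : ℕ) {u : ℝ} (hu : 3 ≤ u) :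
    ‖swB_G s k u‖ ≤ swB_D k * Real.log u ^ k := by
  have hl := swB_one_le_log hu
  have hp : u ^ (1 - s).re ≤ 1 := by
    apply Real.rpow_le_one_of_one_le_of_nonpos (by linarith)
    rw [Complex.sub_re, Complex.one_re]
    linarith
  have hp0 : 0 ≤ u ^ (1 - s).re := Real.rpow_nonneg (by linarith) _
  have h3 : ‖((Real.log u : ℝ) : ℂ)‖ = Real.log u := by
    rw [Complex.norm_real, Real.norm_of_nonneg (by linarith)]
  induction k with
  | zero =>
    unfold swB_G swB_D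
    rw [norm_div, Complex.norm_cpow_eq_rpow_re_of_pos (by linarith), pow_zero, mul_one]
    rw [div_le_one (by linarith)]
    linarith
  | succ k ih =>
    unfold swB_G swB_D
    rw [norm_div, div_le_iff₀ (by linarith)]
    have h4 : ‖((Real.log u : ℝ) : ℂ) ^ (k + 1) * (u : ℂ) ^ (1 - s) - ((k : ℂ) + 1) * swB_G s k u‖
        ≤ Real.log u ^ (k + 1) + ((k : ℝ) + 1) * (swB_D k * Real.log u ^ k) := by
      refine (norm_sub_le _ _).trans (add_le_add ?_ ?_)
      · rw [norm_mul, norm_pow, h3, Complex.norm_cpow_eq_rpow_re_of_pos (by linarith)]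
        calc Real.log u ^ (k + 1) * u ^ (1 - s).re ≤ Real.log u ^ (k + 1) * 1 := by
              apply mul_le_mul_of_nonneg_left hp
              exact pow_nonneg (by linarith) _
          _ = Real.log u ^ (k + 1) := mul_one _
      · rw [norm_mul]
        have h5 : ‖(k : ℂ) + 1‖ = (k : ℝ) + 1 := by
          have : ((k : ℂ) + 1) = ((k + 1 : ℕ) : ℂ) := by push_cast; rfl
          rw [this, Complex.norm_natCast]
          push_cast
          rfl
        rw [h5]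
        exact mul_le_mul_of_nonneg_left ih (by positivity)
    have h6 : Real.log u ^ k ≤ Real.log u ^ (k + 1) := pow_le_pow_right₀ hl (Nat.le_succ k)
    have h7 : 0 ≤ Real.log u ^ (k + 1) := pow_nonneg (by linarith) _
    have h8 : Real.log u ^ (k + 1) + ((k : ℝ) + 1) * (swB_D k * Real.log u ^ k)
        ≤ (1 + ((k : ℝ) + 1) * swB_D k) * Real.log u ^ (k + 1) := by
      have := mul_le_mul_of_nonneg_left h6
        (mul_nonneg (by positivity : (0 : ℝ) ≤ (k : ℝ) + 1) (swB_D_nonneg k))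
      nlinarith
    have h9 : 0 ≤ (1 + ((k : ℝ) + 1) * swB_D k) * Real.log u ^ (k + 1) := by
      have := swB_D_nonneg k
      positivity
    calc _ ≤ _ := h4
      _ ≤ _ := h8
      _ ≤ (1 + ((k : ℝ) + 1) * swB_D k) * Real.log u ^ (k + 1) * ‖1 - s‖ := by
          nlinarith only [h1s, h9]

theorem swB_logpow_tendsto {s : ℂ} (hs : 1 < s.re) (k : ℕ) :
    Filter.Tendsto (fun u : ℝ => ((Real.log u : ℝ) : ℂ) ^ k * (u : ℂ) ^ (1 - s)) Filter.atTop
      (nhds 0) := by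
  rw [tendsto_zero_iff_norm_tendsto_zero]
  have h1 := (isLittleO_log_rpow_rpow_atTop (k : ℝ) (sub_pos.mpr hs)).tendsto_div_nhds_zero
  refine h1.congr' ?_
  filter_upwards [Filter.eventually_ge_atTop (1 : ℝ)] with u hu
  have hl : 0 ≤ Real.log u := Real.log_nonneg hu
  rw [norm_mul, norm_pow, Complex.norm_real, Real.norm_of_nonneg hl,
    Complex.norm_cpow_eq_rpow_re_of_pos (by linarith), Real.rpow_natCast, div_eq_mul_inv,
    ← Real.rpow_neg (by linarith), Complex.sub_re, Complex.one_re, neg_sub]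

theorem swB_G_tendsto {s : ℂ} (hs : 1 < s.re) (k : ℕ) :
    Filter.Tendsto (swB_G s k) Filter.atTop (nhds 0) := by
  induction k with
  | zero =>
    have h := (swB_logpow_tendsto hs 0).div_const (1 - s)
    rw [zero_div] at h
    refine h.congr fun u => ?_
    unfold swB_G
    rw [pow_zero, one_mul]
  | succ k ih =>
    have h := ((swB_logpow_tendsto hs (k + 1)).sub (ih.const_mul ((k : ℂ) + 1))).div_const (1 - s)
    rw [mul_zero, sub_zero, zero_div] at h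
    exact h

theorem swB_term (q : ℕ) (χ : DirichletCharacter ℂ q) (k : ℕ) (s : ℂ) (n : ℕ) (hn : n ≠ 0) :
    LSeries.term (fun n => ((Real.log n : ℝ) : ℂ) ^ k * χ (n : ZMod q)) s n
      = χ (n : ZMod q) * swB_g s k (n : ℝ) := by
  rw [LSeries.term_of_ne_zero hn]
  unfold swB_g
  rw [Complex.cpow_neg, Complex.ofReal_natCast, div_eq_mul_inv]
  ring

theorem swB_one (q : ℕ) (n : ℕ) :
    (1 : DirichletCharacter ℂ q) (n : ZMod q) = if Nat.Coprime n q then 1 else 0 := by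
  by_cases h : Nat.Coprime n q
  · rw [if_pos h, MulChar.one_apply ((ZMod.isUnit_iff_coprime n q).mpr h)]
  · rw [if_neg h, MulChar.map_nonunit _ (fun hu => h ((ZMod.isUnit_iff_coprime n q).mp hu))]

theorem swB_count (q : ℕ) (hq : 1 ≤ q) (m : ℕ) :
    |(((range m).filter (fun n => Nat.Coprime n q)).card : ℝ) - (q.totient : ℝ) / q * m| ≤ q := by
  have hq0 : (0 : ℝ) < q := by exact_mod_cast hq
  have hphi : (q.totient : ℝ) ≤ q := by exact_mod_cast Nat.totient_le q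
  have hphi0 : (0 : ℝ) ≤ q.totient := Nat.cast_nonneg _
  induction m using Nat.strong_induction_on with
  | _ m ih =>
    by_cases h : m < q
    · have h1 : (((range m).filter (fun n => Nat.Coprime n q)).card : ℝ) ≤ m := by
        exact_mod_cast (Finset.card_filter_le _ _).trans (Finset.card_range m).le
      have h2 : (0 : ℝ) ≤ (((range m).filter (fun n => Nat.Coprime n q)).card : ℝ) :=
        Nat.cast_nonneg _
      have h3 : (m : ℝ) ≤ q := by exact_mod_cast h.le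
      have h4 : (0 : ℝ) ≤ m := Nat.cast_nonneg _
      have h5 : (q.totient : ℝ) / q ≤ 1 := by
        rw [div_le_one hq0]
        exact hphi
      have h6 : 0 ≤ (q.totient : ℝ) / q := div_nonneg hphi0 hq0.le
      have h7 : (q.totient : ℝ) / q * m ≤ m := by nlinarith only [h5]
      have h8 : 0 ≤ (q.totient : ℝ) / q * m := mul_nonneg h6 h4
      rw [abs_le]
      constructor <;> linarith
    · obtain ⟨j, rfl⟩ : ∃ j, m = j + q := ⟨m - q, by omega⟩
      have h1 := ih j (by omega)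
      have h2 : ((range (j + q)).filter (fun n => Nat.Coprime n q)).card
          = ((range j).filter (fun n => Nat.Coprime n q)).card + q.totient := by
        rw [← Nat.filter_coprime_Ico_eq_totient q j, range_eq_Ico, range_eq_Ico,
          ← Finset.Ico_union_Ico_eq_Ico (Nat.zero_le j) (Nat.le_add_right j q),
          Finset.filter_union, Finset.card_union_of_disjoint]
        · congr 2
          ext x
          rw [Finset.mem_filter, Finset.mem_filter, Nat.coprime_comm]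
        · apply Finset.disjoint_filter_filter
          exact Finset.Ico_disjoint_Ico_consecutive 0 j (j + q)
      rw [h2]
      have e : (((((range j).filter (fun n => Nat.Coprime n q)).card + q.totient : ℕ) : ℝ)
          - (q.totient : ℝ) / q * ((j + q : ℕ) : ℝ))
          = (((range j).filter (fun n => Nat.Coprime n q)).card : ℝ) - (q.totient : ℝ) / q * j := by
        push_cast
        field_simp
        ring
      rw [e]
      exact h1

theorem swB_b (q : ℕ) (hq : 1 ≤ q) (m : ℕ) :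
    ‖∑ n ∈ range m, ((1 : DirichletCharacter ℂ q) (n : ZMod q)
      - (((q.totient : ℝ) / q : ℝ) : ℂ))‖ ≤ q := by
  have h := swB_count q hq m
  have e : ∑ n ∈ range m, ((1 : DirichletCharacter ℂ q) (n : ZMod q)
      - (((q.totient : ℝ) / q : ℝ) : ℂ))
      = (((((range m).filter (fun n => Nat.Coprime n q)).card : ℝ)
        - (q.totient : ℝ) / q * m : ℝ) : ℂ) := by
    rw [Finset.sum_sub_distrib, Finset.sum_const, Finset.card_range]
    have h1 : ∑ n ∈ range m, (1 : DirichletCharacter ℂ q) (n : ZMod q)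
        = (((range m).filter (fun n => Nat.Coprime n q)).card : ℂ) := by
      rw [Finset.sum_congr rfl fun n _ => swB_one q n, Finset.sum_boole]
    rw [h1, nsmul_eq_mul]
    push_cast
    ring
  rw [e, Complex.norm_real, Real.norm_eq_abs]
  exact h

theorem swB_norm_s {s : ℂ} (hs : 1 < s.re) (hs2 : s.re ≤ 2) : ‖s‖ ≤ |s.im| + 2 := by
  have h := Complex.norm_le_abs_re_add_abs_im s
  have h1 : |s.re| ≤ 2 := by
    rw [abs_of_pos (by linarith)]
    exact hs2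
  linarith

theorem L1_le : ∃ C : ℝ, 0 < C ∧ ∀ q : ℕ, 1 ≤ q → ∀ s : ℂ, 1 < s.re → s.re ≤ 2 →
      ‖Lk q 1 0 s‖ ≤ C * (1 / ‖s - 1‖ + Real.log (q * (|s.im| + 2))) := by
  refine ⟨40, by norm_num, fun q hq s hs hs2 => ?_⟩
  have hq1 : (1 : ℝ) ≤ q := by exact_mod_cast hq
  have ht : 0 ≤ |s.im| := abs_nonneg _
  set X : ℝ := q * (|s.im| + 2) with hX
  have hX2 : 2 ≤ X := by nlinarith only [hq1, ht]
  have hsn := swB_norm_s hs hs2
  have hqs : (q : ℝ) * ‖s‖ ≤ X := mul_le_mul_of_nonneg_left hsn (by linarith)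
  have hsX : ‖s‖ ≤ X := by nlinarith only [hq1, ht, hsn]
  have hqX : (q : ℝ) ≤ X := by nlinarith
  set N : ℕ := ⌈X ^ 2⌉₊ with hN
  have hXN : X ^ 2 ≤ N := Nat.le_ceil _
  have hNX : (N : ℝ) ≤ X ^ 2 + 1 := (Nat.ceil_lt_add_one (by positivity)).le
  have hN4 : (4 : ℝ) ≤ N := by nlinarith only [hX2, hXN]
  have hN3 : 3 ≤ N := by
    have : 4 ≤ N := by exact_mod_cast hN4
    omega
  have hlog2 := Real.log_two_gt_d9
  have hLX : Real.log 2 ≤ Real.log X := Real.log_le_log (by norm_num) hX2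
  have hLN : Real.log N ≤ 3 * Real.log X := by
    have h1 : (N : ℝ) ≤ X ^ 3 := by nlinarith only [hX2, hNX]
    calc Real.log N ≤ Real.log (X ^ 3) := Real.log_le_log (by linarith) h1
      _ = 3 * Real.log X := by
          rw [Real.log_pow]
          norm_num
  have hsum := Lk_summable q 1 0 s hs
  have htend := hsum.hasSum.tendsto_sum_nat.norm
  refine le_of_tendsto htend ((Filter.eventually_ge_atTop N).mono fun K hK => ?_)
  rw [← Finset.sum_range_add_sum_Ico _ hK]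
  have hhead := swB_head (fun n => ((Real.log n : ℝ) : ℂ) ^ 0 * (1 : DirichletCharacter ℂ q)
    (n : ZMod q)) hs 0 N (by omega) (fun n _ _ => by
      simp only [pow_zero, one_mul]
      exact DirichletCharacter.norm_le_one _ _)
  rw [pow_zero, one_mul] at hhead
  have htail : ‖∑ n ∈ Ico N K, LSeries.term (fun n => ((Real.log n : ℝ) : ℂ) ^ 0 *
      (1 : DirichletCharacter ℂ q) (n : ZMod q)) s n‖ ≤ 10 + (2 * (1 / ‖s - 1‖) + 8) := by
    have e : ∑ n ∈ Ico N K, LSeries.term (fun n => ((Real.log n : ℝ) : ℂ) ^ 0 *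
        (1 : DirichletCharacter ℂ q) (n : ZMod q)) s n
        = (∑ n ∈ Ico N K, ((1 : DirichletCharacter ℂ q) (n : ZMod q)
            - (((q.totient : ℝ) / q : ℝ) : ℂ)) * swB_g s 0 n)
          + (((q.totient : ℝ) / q : ℝ) : ℂ) * ∑ n ∈ Ico N K, swB_g s 0 n := by
      rw [Finset.mul_sum, ← Finset.sum_add_distrib]
      refine Finset.sum_congr rfl fun n hn => ?_
      rw [swB_term q 1 0 s n (by have := (Finset.mem_Ico.mp hn).1; omega)]
      ring
    rw [e]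
    refine (norm_add_le _ _).trans (add_le_add ?_ ?_)
    · exact swB_abel hs N K hN3 hK (by linarith) (by linarith) hXN hqs hqX (by linarith) _
        (swB_b q hq)
    · have h1 := swB_tail hs 0 N K hN3 hK (by linarith) hXN hsX (by linarith)
      have hK1 : (1 : ℝ) ≤ K := by
        have : 1 ≤ K := by omega
        exact_mod_cast this
      have h2 := swB_norm_G0 hs (u := (K : ℝ)) hK1
      have h3 := swB_norm_G0 hs (u := (N : ℝ)) (by linarith)
      have h4 : ‖(((q.totient : ℝ) / q : ℝ) : ℂ)‖ ≤ 1 := by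
        rw [Complex.norm_real, Real.norm_of_nonneg (by positivity), div_le_one (by linarith)]
        exact_mod_cast Nat.totient_le q
      rw [norm_mul]
      have h5 : ‖∑ n ∈ Ico N K, swB_g s 0 n‖ ≤ 2 * (1 / ‖s - 1‖) + 8 := by
        refine h1.trans ?_
        norm_num at h2 h3 ⊢
        linarith
      calc ‖(((q.totient : ℝ) / q : ℝ) : ℂ)‖ * ‖∑ n ∈ Ico N K, swB_g s 0 n‖
          ≤ 1 * ‖∑ n ∈ Ico N K, swB_g s 0 n‖ :=
            mul_le_mul_of_nonneg_right h4 (norm_nonneg _)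
        _ ≤ _ := by rw [one_mul]; exact h5
  refine (norm_add_le _ _).trans ((add_le_add hhead htail).trans ?_)
  have h0 : 0 ≤ 1 / ‖s - 1‖ := by positivity
  nlinarith only [hlog2, hLX, hLN, h0]

theorem zeta_k_le (k : ℕ) : ∃ C : ℝ, 0 < C ∧ ∀ s : ℂ, 1 < s.re → s.re ≤ 2 → 1 ≤ |s.im| →
      ‖Lk 1 1 k s‖ ≤ C * Real.log (|s.im| + 2) ^ (k + 1) := by
  have hD := swB_D_nonneg k
  refine ⟨4 * 3 ^ k + swB_D k * 3 ^ k + 4 * ((k : ℝ) + 1) * ((2 : ℝ) ^ (k + 1)
    * (k.factorial : ℝ)), by positivity, fun s hs hs2 ht => ?_⟩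
  set X : ℝ := |s.im| + 2 with hX
  have hX3 : 3 ≤ X := by linarith
  have hsX : ‖s‖ ≤ X := swB_norm_s hs hs2
  have h1s : 1 ≤ ‖1 - s‖ := by
    have h := Complex.abs_im_le_norm (1 - s)
    rw [Complex.sub_im, Complex.one_im, zero_sub, abs_neg] at h
    linarith
  set N : ℕ := ⌈X ^ 2⌉₊ with hN
  have hXN : X ^ 2 ≤ N := Nat.le_ceil _
  have hNX : (N : ℝ) ≤ X ^ 2 + 1 := (Nat.ceil_lt_add_one (by positivity)).le
  have hN9 : (9 : ℝ) ≤ N := by nlinarith only [ht, hXN]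
  have hN3 : 3 ≤ N := by
    have : 9 ≤ N := by exact_mod_cast hN9
    omega
  have hL1 : 1 ≤ Real.log X := swB_one_le_log hX3
  have hLN : Real.log N ≤ 3 * Real.log X := by
    have h1 : (N : ℝ) ≤ X ^ 3 := by nlinarith only [ht, hNX]
    calc Real.log N ≤ Real.log (X ^ 3) := Real.log_le_log (by linarith) h1
      _ = 3 * Real.log X := by
          rw [Real.log_pow]
          norm_num
  have hLN0 : 0 ≤ Real.log N := Real.log_nonneg (by linarith)
  have hsum := Lk_summable 1 1 k s hs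
  have htend := hsum.hasSum.tendsto_sum_nat.norm
  have hGt : Filter.Tendsto (fun K : ℕ => ‖swB_G s k (K : ℝ)‖) Filter.atTop (nhds 0) := by
    have := ((swB_G_tendsto hs k).comp tendsto_natCast_atTop_atTop).norm
    rw [norm_zero] at this
    exact this
  have hR := hGt.add_const ((4 * 3 ^ k + swB_D k * 3 ^ k + 4 * ((k : ℝ) + 1) * ((2 : ℝ) ^ (k + 1)
    * (k.factorial : ℝ))) * Real.log X ^ (k + 1))
  rw [zero_add] at hR
  refine le_of_tendsto_of_tendsto htend hR ((Filter.eventually_ge_atTop N).mono fun K hK => ?_)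
  beta_reduce
  rw [← Finset.sum_range_add_sum_Ico _ hK]
  have hone : ∀ n : ℕ, (1 : DirichletCharacter ℂ 1) (n : ZMod 1) = 1 := by
    intro n
    rw [swB_one, if_pos (Nat.coprime_one_right n)]
  have hhead := swB_head (fun n => ((Real.log n : ℝ) : ℂ) ^ k * (1 : DirichletCharacter ℂ 1)
    (n : ZMod 1)) hs k N (by omega) (fun n hn1 hnN => by
      have hn1' : (1 : ℝ) ≤ n := by exact_mod_cast hn1
      have hnN' : (n : ℝ) ≤ N := by exact_mod_cast hnN.le
      have hl0 : 0 ≤ Real.log n := Real.log_nonneg hn1'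
      rw [hone, mul_one, norm_pow, Complex.norm_real, Real.norm_of_nonneg hl0]
      exact pow_le_pow_left₀ hl0 (Real.log_le_log (by linarith) hnN') k)
  have hhead2 : Real.log N ^ k * (1 + Real.log N) ≤ 4 * 3 ^ k * Real.log X ^ (k + 1) := by
    have h1 : Real.log N ^ k ≤ (3 * Real.log X) ^ k := pow_le_pow_left₀ hLN0 hLN k
    calc Real.log N ^ k * (1 + Real.log N) ≤ (3 * Real.log X) ^ k * (4 * Real.log X) := by
          apply mul_le_mul h1 (by linarith) (by linarith) (by positivity)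
      _ = 4 * 3 ^ k * Real.log X ^ (k + 1) := by
          rw [mul_pow]
          ring
  have htail : ‖∑ n ∈ Ico N K, LSeries.term (fun n => ((Real.log n : ℝ) : ℂ) ^ k *
      (1 : DirichletCharacter ℂ 1) (n : ZMod 1)) s n‖ ≤ ‖swB_G s k K‖ + ‖swB_G s k N‖
      + 4 * ((k : ℝ) + 1) * ((2 : ℝ) ^ (k + 1) * (k.factorial : ℝ)) := by
    have e : ∑ n ∈ Ico N K, LSeries.term (fun n => ((Real.log n : ℝ) : ℂ) ^ k *
        (1 : DirichletCharacter ℂ 1) (n : ZMod 1)) s n = ∑ n ∈ Ico N K, swB_g s k n := by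
      refine Finset.sum_congr rfl fun n hn => ?_
      rw [swB_term 1 1 k s n (by have := (Finset.mem_Ico.mp hn).1; omega), hone, one_mul]
    rw [e]
    exact swB_tail hs k N K hN3 hK (by linarith) hXN hsX (by linarith)
  have hGN : ‖swB_G s k N‖ ≤ swB_D k * 3 ^ k * Real.log X ^ (k + 1) := by
    have h1 := swB_G_le hs h1s k (u := (N : ℝ)) (by linarith)
    have h2 : Real.log N ^ k ≤ (3 * Real.log X) ^ k := pow_le_pow_left₀ hLN0 hLN k
    have h3 : Real.log X ^ k ≤ Real.log X ^ (k + 1) := pow_le_pow_right₀ hL1 (Nat.le_succ k)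
    calc ‖swB_G s k N‖ ≤ swB_D k * Real.log N ^ k := h1
      _ ≤ swB_D k * (3 * Real.log X) ^ k := mul_le_mul_of_nonneg_left h2 hD
      _ = swB_D k * 3 ^ k * Real.log X ^ k := by
          rw [mul_pow]
          ring
      _ ≤ swB_D k * 3 ^ k * Real.log X ^ (k + 1) :=
          mul_le_mul_of_nonneg_left h3 (by positivity)
  have hc : 4 * ((k : ℝ) + 1) * ((2 : ℝ) ^ (k + 1) * (k.factorial : ℝ))
      ≤ 4 * ((k : ℝ) + 1) * ((2 : ℝ) ^ (k + 1) * (k.factorial : ℝ)) * Real.log X ^ (k + 1) := by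
    apply le_mul_of_one_le_right (by positivity)
    exact one_le_pow₀ hL1
  refine (norm_add_le _ _).trans ((add_le_add (hhead.trans hhead2) htail).trans ?_)
  linarith

end Pool.Agent.H91.EHA

end

section

/-!
# Lower bounds for `L(s,χ)` on `1 < Re s ≤ 2`

Write `ℓ = log(q(|t|+2)) ≥ 1`, `s = σ + i t`.
3-4-1 inequality in Mathlib: `DirichletCharacter.norm_LSeries_product_ge_one`
(file `Mathlib/NumberTheory/LSeries/Nonvanishing.lean`):
`‖L(χ0,1+x)^3 L(χ,1+x+iy)^4 L(χ^2,1+x+2iy)‖ ≥ 1` for `x > 0`; `‖L(χ0,σ)‖ ≤ ζ(σ) ≤ 2/(σ-1)` for `1<σ≤2`.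
Complex case: `‖L(σ+2it,χ²)‖ ≤ C ℓ` (SwA), so `‖L(σ+it)‖ ≥ c (σ-1)^{3/4} ℓ^{-1/4}`.  For `σ ≥ 1+η`,
`η = c' ℓ^{-9}`, fine; for `σ < 1+η` use `‖L(σ+it) - L(1+η+it)‖ ≤ η C ℓ²` (SwA, `k=1`, mean value
inequality): gives `‖L‖ ≥ c'' ℓ^{-7}`.
Real case (`χ² = 1`), `λ = ‖L(1,χ)‖ ≤ C ℓ` (limit of SwA; `LFunction χ` is continuous), `δ = λ/(2 C₁ ℓ²)` with
`C₁` the constant of `Lk_le 1`.
 (i) `‖s-1‖ ≤ δ`: `‖L(s)‖ ≥ λ - C₁ℓ²‖s-1‖ ≥ λ/2` (mean value on the segment from `1+` to `s`).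
 (ii) `σ-1 ≥ δ/2`: `‖L(s,χ)‖ ≥ c (σ-1)` (Euler product: `‖L(s,χ)‖⁻¹ = ‖∑ μ(n)χ(n)n^{-s}‖ ≤ ζ(σ)`;
   Mathlib has `LSeries` of `μ χ` times `LSeries χ` equal to 1, `DirichletCharacter.LSeries.mul_mu_eq_one`).
 (iii) `|t| ≥ δ/2`: 3-4-1 with `‖L(σ'+2it,χ0)‖ ≤ C(1/(2|t|) + ℓ) ≤ C' ℓ/δ` (SwB; `δ ≤ 1` may be assumed,
   otherwise enlarge `C₁`): `‖L(σ'+it)‖ ≥ c (σ'-1)^{3/4} (δ/ℓ)^{1/4}`; with `η = c' δ ℓ^{-9}` as before
   `‖L(σ+it)‖ ≥ c'' δ ℓ^{-7}`.
`zeta_lower`: as the complex case, with `SwB` for `‖ζ(σ+2it)‖ ≤ C ℓ` and `‖ζ'‖ ≤ C ℓ²`, `|t| ≥ 1`.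
-/

set_option autoImplicit false

namespace Pool.Agent.H91.EHA

open Finset

/-- abstract 3-4-1 argument -/
private theorem swc_core (F : ℝ → ℝ) (A D K : ℝ) (hA : 1 ≤ A) (hD : 1 ≤ D) (hK : 1 ≤ K)
    (h1 : ∀ σ, 1 < σ → σ ≤ 2 → (σ - 1) ^ 3 ≤ A ^ 3 * K * F σ ^ 4)
    (h2 : ∀ σ σ', 1 < σ → σ ≤ σ' → σ' ≤ 2 → F σ' ≤ F σ + D * (σ' - σ))
    (h0 : ∀ σ, 1 < σ → σ ≤ 2 → 0 ≤ F σ) (σ : ℝ) (hσ : 1 < σ) (hσ2 : σ ≤ 2) :
    1 / (32 * D ^ 3 * A ^ 3 * K) ≤ F σ := by
  by_contra hcon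
  push Not at hcon
  have hA3 : (1:ℝ) ≤ A ^ 3 := one_le_pow₀ hA
  have hD3 : (1:ℝ) ≤ D ^ 3 := one_le_pow₀ hD
  have hD4 : (1:ℝ) ≤ D ^ 4 := one_le_pow₀ hD
  have hAK : (1:ℝ) ≤ A ^ 3 * K := by nlinarith
  set P : ℝ := A ^ 3 * K with hP
  have hP0 : 0 < P := by linarith
  have hDp : 0 < D := by linarith
  set η : ℝ := 1 / (32 * D ^ 4 * P) with hη
  have hη0 : 0 < η := by positivity
  have hη1 : η ≤ 1 / 32 := by
    rw [hη]
    apply one_div_le_one_div_of_le (by norm_num)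
    nlinarith only [mul_le_mul hD4 hAK (by norm_num) (by positivity)]
  have hm : 1 / (32 * D ^ 3 * A ^ 3 * K) = D * η := by
    rw [hη, hP]; field_simp
  rw [hm] at hcon
  have hPη : 32 * D ^ 4 * P * η = 1 := by
    rw [hη]; field_simp
  have hF0 := h0 σ hσ hσ2
  rcases le_or_gt (1 + η) σ with hc | hc
  · have h := h1 σ hσ hσ2
    have h4 : F σ ^ 4 ≤ (D * η) ^ 4 := pow_le_pow_left₀ hF0 hcon.le 4
    have h3 : η ^ 3 ≤ (σ - 1) ^ 3 := pow_le_pow_left₀ hη0.le (by linarith) 3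
    have h5 : η ^ 3 ≤ P * (D * η) ^ 4 := by
      calc η ^ 3 ≤ (σ - 1) ^ 3 := h3
        _ ≤ P * F σ ^ 4 := h
        _ ≤ P * (D * η) ^ 4 := mul_le_mul_of_nonneg_left h4 hP0.le
    have h6 : P * (D * η) ^ 4 = η ^ 3 * (D ^ 4 * P * η) := by ring
    have h7 : D ^ 4 * P * η = 1 / 32 := by linarith
    rw [h6, h7] at h5
    have : 0 < η ^ 3 := by positivity
    linarith
  · have h := h1 (1 + η) (by linarith) (by linarith)
    have hl := h2 σ (1 + η) hσ hc.le (by linarith)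
    have hl2 : F (1 + η) ≤ 2 * (D * η) := by
      have : D * (1 + η - σ) ≤ D * η := mul_le_mul_of_nonneg_left (by linarith) hDp.le
      linarith
    have h4 : F (1 + η) ^ 4 ≤ (2 * (D * η)) ^ 4 :=
      pow_le_pow_left₀ (h0 _ (by linarith) (by linarith)) hl2 4
    have h5 : η ^ 3 ≤ P * (2 * (D * η)) ^ 4 := by
      calc η ^ 3 = (1 + η - 1) ^ 3 := by ring
        _ ≤ P * F (1 + η) ^ 4 := h
        _ ≤ _ := mul_le_mul_of_nonneg_left h4 hP0.le
    have h6 : P * (2 * (D * η)) ^ 4 = η ^ 3 * (16 * (D ^ 4 * P * η)) := by ring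
    have h7 : D ^ 4 * P * η = 1 / 32 := by linarith
    rw [h6, h7] at h5
    have : 0 < η ^ 3 := by positivity
    linarith

private theorem swc_Lk0 (q : ℕ) (χ : DirichletCharacter ℂ q) (s : ℂ) :
    Lk q χ 0 s = LSeries (fun n : ℕ => χ (n : ZMod q)) s := by
  unfold Lk; simp

/-- every bounded Dirichlet series is at most zeta -/
private theorem swc_norm_le (f : ℕ → ℂ) (hf : ∀ n, ‖f n‖ ≤ 1) (s : ℂ) (hs : 1 < s.re) :
    ‖LSeries f s‖ ≤ ‖Lk 1 1 0 (s.re : ℂ)‖ := by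
  have hz : Lk 1 1 0 (s.re : ℂ) = LSeries (fun _ => (1 : ℂ)) (s.re : ℂ) := by
    rw [swc_Lk0]
    congr 1
    funext n
    exact MulChar.one_apply (isUnit_of_subsingleton _)
  have hsum : LSeriesSummable (fun _ => (1 : ℂ)) (s.re : ℂ) := by
    have := LSeriesSummable_one_iff (s := (s.re : ℂ))
    have h2 := this.2 (by simpa using hs)
    exact h2
  have hterm : ∀ n, ‖LSeries.term f s n‖ ≤ ‖LSeries.term (fun _ => (1 : ℂ)) (s.re : ℂ) n‖ := by
    intro n
    rw [LSeries.norm_term_eq, LSeries.norm_term_eq]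
    split_ifs with h
    · exact le_rfl
    · simp only [Complex.ofReal_re, norm_one]
      exact div_le_div_of_nonneg_right (hf n) (by positivity)
  have hval : ∀ n, LSeries.term (fun _ => (1 : ℂ)) (s.re : ℂ) n
      = ((‖LSeries.term (fun _ => (1 : ℂ)) (s.re : ℂ) n‖ : ℝ) : ℂ) := by
    intro n
    rw [LSeries.norm_term_eq]
    rw [LSeries.term_def]
    split_ifs with h
    · simp
    · simp only [Complex.ofReal_re, norm_one]
      push_cast
      rw [Complex.ofReal_cpow (by positivity)]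
      simp
  rw [hz]
  have h1 : ‖LSeries f s‖ ≤ ∑' n, ‖LSeries.term (fun _ => (1 : ℂ)) (s.re : ℂ) n‖ := by
    unfold LSeries
    refine tsum_of_norm_bounded hsum.norm.hasSum hterm
  have h2 : LSeries (fun _ => (1 : ℂ)) (s.re : ℂ)
      = ((∑' n, ‖LSeries.term (fun _ => (1 : ℂ)) (s.re : ℂ) n‖ : ℝ) : ℂ) := by
    rw [Complex.ofReal_tsum]
    unfold LSeries
    exact tsum_congr hval
  rw [h2]
  rw [Complex.norm_real]
  exact h1.trans (le_abs_self _)

private theorem swc_zeta : ∃ A : ℝ, 1 ≤ A ∧ ∀ σ : ℝ, 1 < σ → σ ≤ 2 →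
    ‖Lk 1 1 0 (σ : ℂ)‖ ≤ A / (σ - 1) := by
  obtain ⟨C, hC, h⟩ := L1_le
  refine ⟨2 * C + 1, by linarith, fun σ h1 h2 => ?_⟩
  have := h 1 le_rfl (σ : ℂ) (by simpa using h1) (by simpa using h2)
  refine this.trans ?_
  have e1 : ‖(σ : ℂ) - 1‖ = σ - 1 := by
    rw [show (σ : ℂ) - 1 = ((σ - 1 : ℝ) : ℂ) by push_cast; ring, Complex.norm_real]
    exact abs_of_pos (by linarith)
  rw [e1]
  have e2 : Real.log ((1 : ℕ) * (|(σ : ℂ).im| + 2)) ≤ 1 := by
    simp only [Nat.cast_one, Complex.ofReal_im, abs_zero, zero_add, one_mul]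
    linarith [Real.log_two_lt_d9]
  have e3 : (1:ℝ) ≤ 1 / (σ - 1) := by
    rw [le_div_iff₀ (by linarith)]; linarith
  have e4 : (2 * C + 1) / (σ - 1) = (2 * C + 1) * (1 / (σ - 1)) := by ring
  rw [e4]
  have e5 : C * (1 / (σ - 1) + Real.log ((1 : ℕ) * (|(σ : ℂ).im| + 2)))
      ≤ C * (1 / (σ - 1) + 1 / (σ - 1)) :=
    mul_le_mul_of_nonneg_left (add_le_add le_rfl (e2.trans e3)) hC.le
  have e6 : (2 * C + 1) * (1 / (σ - 1)) = C * (1 / (σ - 1) + 1 / (σ - 1)) + 1 / (σ - 1) := by ring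
  linarith

private theorem swc_341 (A : ℝ) (hA1 : 1 ≤ A)
    (hA : ∀ σ : ℝ, 1 < σ → σ ≤ 2 → ‖Lk 1 1 0 (σ : ℂ)‖ ≤ A / (σ - 1))
    (q : ℕ) (χ : DirichletCharacter ℂ q) (σ t : ℝ) (h1 : 1 < σ) (h2 : σ ≤ 2) :
    (σ - 1) ^ 3 ≤ A ^ 3 * ‖Lk q (χ ^ 2) 0 ⟨σ, 2 * t⟩‖ * ‖Lk q χ 0 ⟨σ, t⟩‖ ^ 4 := by
  have hx : 0 < σ - 1 := by linarith
  have h := DirichletCharacter.norm_LSeries_product_ge_one χ hx t
  have e1 : (1 + ((σ - 1 : ℝ) : ℂ)) = (σ : ℂ) := by push_cast; ring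
  have e2 : (σ : ℂ) + Complex.I * t = ⟨σ, t⟩ := by
    apply Complex.ext <;> simp
  have e3 : (σ : ℂ) + 2 * Complex.I * t = ⟨σ, 2 * t⟩ := by
    apply Complex.ext <;> simp
  rw [e1, e2, e3] at h
  rw [norm_mul, norm_mul, norm_pow, norm_pow] at h
  rw [swc_Lk0 q χ, swc_Lk0 q (χ ^ 2)]
  have hb : ‖LSeries (fun n : ℕ => (1 : DirichletCharacter ℂ q) (n : ZMod q)) (σ : ℂ)‖
      ≤ A / (σ - 1) := by
    have := swc_norm_le (fun n : ℕ => (1 : DirichletCharacter ℂ q) (n : ZMod q))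
      (fun n => DirichletCharacter.norm_le_one _ _) (σ : ℂ) (by simpa using h1)
    refine this.trans ?_
    have := hA σ h1 h2
    simpa using this
  have hb3 := pow_le_pow_left₀ (norm_nonneg _) hb 3
  set a := ‖LSeries (fun n : ℕ => (1 : DirichletCharacter ℂ q) (n : ZMod q)) (σ : ℂ)‖
  set b := ‖LSeries (fun n : ℕ => χ (n : ZMod q)) ⟨σ, t⟩‖
  set c := ‖LSeries (fun n : ℕ => (χ ^ 2) (n : ZMod q)) ⟨σ, 2 * t⟩‖
  have hc : 0 ≤ c := norm_nonneg _
  have hb0 : 0 ≤ b ^ 4 := by positivity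
  have h3 : 1 ≤ (A / (σ - 1)) ^ 3 * b ^ 4 * c := by
    calc (1:ℝ) ≤ a ^ 3 * b ^ 4 * c := h
      _ ≤ _ := by gcongr
  have hx3 : 0 < (σ - 1) ^ 3 := by positivity
  calc (σ - 1) ^ 3 = (σ - 1) ^ 3 * 1 := by ring
    _ ≤ (σ - 1) ^ 3 * ((A / (σ - 1)) ^ 3 * b ^ 4 * c) := mul_le_mul_of_nonneg_left h3 hx3.le
    _ = A ^ 3 * c * b ^ 4 := by field_simp

private theorem swc_lip (q : ℕ) (χ : DirichletCharacter ℂ q) (S : Set ℂ) (hS : Convex ℝ S)
    (h1 : ∀ w ∈ S, 1 < w.re) (D : ℝ) (hD : ∀ w ∈ S, ‖Lk q χ 1 w‖ ≤ D) (a b : ℂ) (ha : a ∈ S)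
    (hb : b ∈ S) : ‖Lk q χ 0 b - Lk q χ 0 a‖ ≤ D * ‖b - a‖ := by
  refine Convex.norm_image_sub_le_of_norm_hasDerivWithin_le (f' := fun w => -(Lk q χ (0 + 1) w))
    (fun w hw => (Lk_hasDeriv q χ 0 w (h1 w hw)).hasDerivWithinAt) (fun w hw => ?_) hS ha hb
  rw [norm_neg]
  exact hD w hw

/-- horizontal line -/
private theorem swc_horizontal (A : ℝ) (hA1 : 1 ≤ A)
    (hA : ∀ σ : ℝ, 1 < σ → σ ≤ 2 → ‖Lk 1 1 0 (σ : ℂ)‖ ≤ A / (σ - 1))
    (q : ℕ) (χ : DirichletCharacter ℂ q) (t D K : ℝ) (hD1 : 1 ≤ D) (hK1 : 1 ≤ K)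
    (hD : ∀ σ : ℝ, 1 < σ → σ ≤ 2 → ‖Lk q χ 1 ⟨σ, t⟩‖ ≤ D)
    (hK : ∀ σ : ℝ, 1 < σ → σ ≤ 2 → ‖Lk q (χ ^ 2) 0 ⟨σ, 2 * t⟩‖ ≤ K)
    (σ : ℝ) (h1 : 1 < σ) (h2 : σ ≤ 2) :
    1 / (32 * D ^ 3 * A ^ 3 * K) ≤ ‖Lk q χ 0 ⟨σ, t⟩‖ := by
  refine swc_core (fun σ => ‖Lk q χ 0 ⟨σ, t⟩‖) A D K hA1 hD1 hK1 ?_ ?_ (fun _ _ _ => norm_nonneg _)
    σ h1 h2
  · intro σ h1 h2
    refine (swc_341 A hA1 hA q χ σ t h1 h2).trans ?_
    have := hK σ h1 h2
    have hA0 : 0 ≤ A ^ 3 := by positivity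
    exact mul_le_mul_of_nonneg_right (mul_le_mul_of_nonneg_left this hA0) (by positivity)
  · intro σ σ' h1 hle h2
    set S : Set ℂ := {w | 1 < w.re ∧ w.re ≤ 2 ∧ w.im = t} with hSdef
    have hS : Convex ℝ S := by
      have e : S = {w | 1 < w.re} ∩ ({w | w.re ≤ 2} ∩ {w | w.im = t}) := by
        ext w; simp [hSdef]
      rw [e]
      refine Convex.inter (convex_halfSpace_re_gt 1) (Convex.inter (convex_halfSpace_re_le 2) ?_)
      have e2 : {w : ℂ | w.im = t} = {w | w.im ≤ t} ∩ {w | t ≤ w.im} := by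
        ext w; simp [le_antisymm_iff]
      rw [e2]
      exact Convex.inter (convex_halfSpace_im_le t) (convex_halfSpace_im_ge t)
    have hb : ∀ w ∈ S, ‖Lk q χ 1 w‖ ≤ D := by
      rintro ⟨a, b⟩ ⟨h1, h2, h3⟩
      simp only at h1 h2 h3
      subst h3
      exact hD a h1 h2
    have := swc_lip q χ S hS (fun w hw => hw.1) D hb ⟨σ, t⟩ ⟨σ', t⟩ ⟨h1, by simp; linarith, rfl⟩
      ⟨by simp; linarith, h2, rfl⟩
    have e : ‖(⟨σ', t⟩ : ℂ) - ⟨σ, t⟩‖ = σ' - σ := by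
      have : (⟨σ', t⟩ : ℂ) - ⟨σ, t⟩ = ((σ' - σ : ℝ) : ℂ) := by
        apply Complex.ext <;> simp
      rw [this, Complex.norm_real]
      exact abs_of_nonneg (by linarith)
    rw [e] at this
    have h4 := norm_sub_norm_le (Lk q χ 0 ⟨σ', t⟩) (Lk q χ 0 ⟨σ, t⟩)
    show ‖Lk q χ 0 ⟨σ', t⟩‖ ≤ ‖Lk q χ 0 ⟨σ, t⟩‖ + D * (σ' - σ)
    linarith

private theorem swc_log_one (q : ℕ) (hq : 2 ≤ q) (t : ℝ) : 1 ≤ Real.log (q * (|t| + 2)) := by
  have hq' : (2:ℝ) ≤ q := by exact_mod_cast hq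
  have h4 : (4:ℝ) ≤ q * (|t| + 2) := by nlinarith [abs_nonneg t]
  have : Real.log 4 ≤ Real.log (q * (|t| + 2)) := Real.log_le_log (by norm_num) h4
  have h2 : Real.log 4 = 2 * Real.log 2 := by
    rw [show (4:ℝ) = 2 ^ 2 by norm_num, Real.log_pow]; norm_num
  linarith [Real.log_two_gt_d9]

private theorem swc_log_double (Q : ℝ) (hQ : 1 ≤ Q) (t : ℝ) :
    Real.log (Q * (|2 * t| + 2)) ≤ 2 * Real.log (Q * (|t| + 2)) := by
  have h1 : Real.log ((Q * (|t| + 2)) ^ 2) = 2 * Real.log (Q * (|t| + 2)) := by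
    rw [Real.log_pow]; norm_num
  rw [← h1]
  have ht := abs_nonneg t
  have e : |2 * t| = 2 * |t| := by rw [abs_mul]; norm_num
  apply Real.log_le_log (by positivity)
  rw [e]
  nlinarith [mul_nonneg ht ht, mul_nonneg (sub_nonneg.2 hQ) ht, mul_nonneg (sub_nonneg.2 hQ) (mul_nonneg ht ht), mul_nonneg (sub_nonneg.2 hQ) (sub_nonneg.2 hQ)]

theorem L_lower_complex : ∃ c : ℝ, 0 < c ∧ ∀ q : ℕ, 2 ≤ q → ∀ χ : DirichletCharacter ℂ q, χ ≠ 1 →
    χ ^ 2 ≠ 1 → ∀ s : ℂ, 1 < s.re → s.re ≤ 2 →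
      c / Real.log (q * (|s.im| + 2)) ^ 9 ≤ ‖Lk q χ 0 s‖ := by
  obtain ⟨A, hA1, hA⟩ := swc_zeta
  obtain ⟨C0, hC0, h0⟩ := Lk_le 0
  obtain ⟨C1, hC1, h1⟩ := Lk_le 1
  set a := C0 + 1
  set b := C1 + 1
  have ha : 1 ≤ a := by simp only [a]; linarith
  have hb : 1 ≤ b := by simp only [b]; linarith
  refine ⟨1 / (64 * b ^ 3 * A ^ 3 * a), by positivity, fun q hq χ hχ hχ2 s hs1 hs2 => ?_⟩
  obtain ⟨σ, t⟩ := s
  simp only at hs1 hs2 ⊢
  have hl := swc_log_one q hq t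
  set l := Real.log (q * (|t| + 2))
  have hl0 : 0 < l := by linarith
  have hl2 : 1 ≤ l ^ 2 := one_le_pow₀ hl
  have key := swc_horizontal A hA1 hA q χ t (b * l ^ 2) (2 * a * l) (by nlinarith) (by nlinarith)
    (fun σ' h1' h2' => by
      have := h1 q hq χ hχ ⟨σ', t⟩ h1' h2'
      refine this.trans ?_
      show C1 * l ^ 2 ≤ b * l ^ 2
      exact mul_le_mul_of_nonneg_right (by simp only [b]; linarith) (by positivity))
    (fun σ' h1' h2' => by
      have := h0 q hq (χ ^ 2) hχ2 ⟨σ', 2 * t⟩ h1' h2'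
      refine this.trans ?_
      have hd := swc_log_double (q : ℝ) (by exact_mod_cast (by omega : 1 ≤ q)) t
      simp only [zero_add, pow_one]
      calc C0 * Real.log (q * (|2 * t| + 2)) ≤ C0 * (2 * l) := mul_le_mul_of_nonneg_left hd hC0.le
        _ ≤ a * (2 * l) := mul_le_mul_of_nonneg_right (by simp only [a]; linarith) (by positivity)
        _ = 2 * a * l := by ring)
    σ hs1 hs2
  refine le_trans ?_ key
  have e : 1 / (32 * (b * l ^ 2) ^ 3 * A ^ 3 * (2 * a * l)) = 1 / (64 * b ^ 3 * A ^ 3 * a) / l ^ 7 := by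
    field_simp; ring
  rw [e]
  apply div_le_div_of_nonneg_left (by positivity) (by positivity)
  exact pow_le_pow_right₀ hl (by norm_num)

theorem L_lower_real : ∃ c : ℝ, 0 < c ∧ ∀ (q : ℕ) [NeZero q], 2 ≤ q →
    ∀ χ : DirichletCharacter ℂ q, χ ≠ 1 → χ ^ 2 = 1 → ∀ s : ℂ, 1 < s.re → s.re ≤ 2 →
      c * ‖DirichletCharacter.LFunction χ 1‖ / Real.log (q * (|s.im| + 2)) ^ 9
        ≤ ‖Lk q χ 0 s‖ := by
  obtain ⟨A, hA1, hA⟩ := swc_zeta
  obtain ⟨C0, hC0, h0⟩ := Lk_le 0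
  obtain ⟨C1, hC1, h1⟩ := Lk_le 1
  obtain ⟨C2, hC2, h2⟩ := L1_le
  -- `b` bounds both the function and its derivative
  set b := C0 + C1 + 1
  have hb : 1 ≤ b := by simp only [b]; linarith
  set a := C2 + 1
  have ha : 1 ≤ a := by simp only [a]; linarith
  have hb0 : 0 < b := by linarith
  have ha0 : 0 < a := by linarith
  have hA0 : 0 < A := by linarith
  refine ⟨1 / (2 * (32 * b ^ 3 * A ^ 3 * (3 * a) * b)), by positivity,
    fun q _ hq χ hχ hχ2 s hs1 hs2 => ?_⟩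
  obtain ⟨σ, t⟩ := s
  simp only at hs1 hs2 ⊢
  have hl := swc_log_one q hq t
  have hq1 : (1:ℝ) ≤ q := by exact_mod_cast (by omega : 1 ≤ q)
  have hmono : ∀ u : ℝ, |u| ≤ |t| → Real.log (q * (|u| + 2)) ≤ Real.log (q * (|t| + 2)) := by
    intro u hu
    have := abs_nonneg u
    apply Real.log_le_log (by positivity)
    exact mul_le_mul_of_nonneg_left (by linarith) (by linarith)
  set l := Real.log (q * (|t| + 2))
  have hl0 : 0 < l := by linarith
  have hl2 : 1 ≤ l ^ 2 := one_le_pow₀ hl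
  -- derivative bound on the rectangle
  have hder : ∀ w : ℂ, 1 < w.re → w.re ≤ 2 → |w.im| ≤ |t| → ‖Lk q χ 1 w‖ ≤ b * l ^ 2 := by
    intro w h1' h2' h3'
    refine (h1 q hq χ hχ w h1' h2').trans ?_
    have h4 : Real.log (q * (|w.im| + 2)) ^ 2 ≤ l ^ 2 :=
      pow_le_pow_left₀ (by linarith [swc_log_one q hq w.im]) (hmono _ h3') 2
    show C1 * Real.log (q * (|w.im| + 2)) ^ 2 ≤ b * l ^ 2
    exact mul_le_mul (by simp only [b]; linarith) h4 (by positivity) hb0.le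
  -- continuity at 1
  set lam := DirichletCharacter.LFunction χ 1 with hlam
  have hcont : Filter.Tendsto (fun x : ℝ => Lk q χ 0 ((1 + x : ℝ) : ℂ)) (nhdsWithin 0 (Set.Ioi 0))
      (nhds lam) := by
    have hc : Continuous (fun x : ℝ => DirichletCharacter.LFunction χ ((1 + x : ℝ) : ℂ)) := by
      have := (DirichletCharacter.differentiable_LFunction hχ).continuous
      fun_prop
    have h3 := (hc.tendsto 0).mono_left (nhdsWithin_le_nhds (s := Set.Ioi (0:ℝ)))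
    simp only [add_zero, Complex.ofReal_one] at h3
    refine h3.congr' ?_
    filter_upwards [self_mem_nhdsWithin] with x hx
    rw [Lk_zero_eq q χ _ (by
      have : (0:ℝ) < x := hx
      rw [Complex.ofReal_re]; linarith)]
  have hev : ∀ᶠ x : ℝ in nhdsWithin 0 (Set.Ioi 0), 0 < x ∧ x ≤ 1 := by
    have : Set.Ioc (0:ℝ) 1 ∈ nhdsWithin 0 (Set.Ioi 0) := Ioc_mem_nhdsGT (by norm_num)
    filter_upwards [this] with x hx using hx
  have hlam_le : ‖lam‖ ≤ b * l := by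
    refine le_of_tendsto hcont.norm ?_
    filter_upwards [hev] with x hx
    have h3 := h0 q hq χ hχ ((1 + x : ℝ) : ℂ) (by rw [Complex.ofReal_re]; linarith [hx.1])
      (by rw [Complex.ofReal_re]; linarith [hx.2])
    refine h3.trans ?_
    rw [Complex.ofReal_im, zero_add, pow_one]
    have h4 := hmono 0 (by rw [abs_zero]; exact abs_nonneg t)
    calc C0 * Real.log (q * (|0| + 2)) ≤ C0 * l := mul_le_mul_of_nonneg_left h4 hC0.le
      _ ≤ b * l := mul_le_mul_of_nonneg_right (by simp only [b]; linarith) hl0.le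
  have hdiff : ‖Lk q χ 0 ⟨σ, t⟩ - lam‖ ≤ b * l ^ 2 * ‖(⟨σ, t⟩ : ℂ) - 1‖ := by
    have hL : Filter.Tendsto (fun x : ℝ => ‖Lk q χ 0 ⟨σ, t⟩ - Lk q χ 0 ((1 + x : ℝ) : ℂ)‖)
        (nhdsWithin 0 (Set.Ioi 0)) (nhds ‖Lk q χ 0 ⟨σ, t⟩ - lam‖) :=
      (hcont.const_sub _).norm
    have hR : Filter.Tendsto (fun x : ℝ => b * l ^ 2 * ‖(⟨σ, t⟩ : ℂ) - ((1 + x : ℝ) : ℂ)‖)
        (nhdsWithin 0 (Set.Ioi 0)) (nhds (b * l ^ 2 * ‖(⟨σ, t⟩ : ℂ) - 1‖)) := by
      have hc : Continuous (fun x : ℝ => b * l ^ 2 * ‖(⟨σ, t⟩ : ℂ) - ((1 + x : ℝ) : ℂ)‖) := by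
        fun_prop
      have h3 := (hc.tendsto 0).mono_left (nhdsWithin_le_nhds (s := Set.Ioi (0:ℝ)))
      simpa only [add_zero, Complex.ofReal_one] using h3
    refine le_of_tendsto_of_tendsto hL hR ?_
    filter_upwards [hev] with x hx
    set S : Set ℂ := {w | 1 < w.re} ∩ ({w | w.re ≤ 2} ∩ ({w | w.im ≤ |t|} ∩ {w | -|t| ≤ w.im}))
      with hSdef
    have hS : Convex ℝ S :=
      Convex.inter (convex_halfSpace_re_gt 1) (Convex.inter (convex_halfSpace_re_le 2)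
        (Convex.inter (convex_halfSpace_im_le _) (convex_halfSpace_im_ge _)))
    refine swc_lip q χ S hS (fun w hw => hw.1) (b * l ^ 2)
      (fun w hw => hder w hw.1 hw.2.1 (abs_le.2 ⟨hw.2.2.2, hw.2.2.1⟩)) _ _ ?_ ?_
    · refine ⟨?_, ?_, ?_, ?_⟩
      · show 1 < (((1 + x : ℝ) : ℂ)).re
        rw [Complex.ofReal_re]; linarith [hx.1]
      · show (((1 + x : ℝ) : ℂ)).re ≤ 2
        rw [Complex.ofReal_re]; linarith [hx.2]
      · show (((1 + x : ℝ) : ℂ)).im ≤ |t|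
        rw [Complex.ofReal_im]; exact abs_nonneg t
      · show -|t| ≤ (((1 + x : ℝ) : ℂ)).im
        rw [Complex.ofReal_im]; linarith [abs_nonneg t]
    · exact ⟨hs1, hs2, le_abs_self t, neg_abs_le t⟩
  set L := ‖lam‖ with hLdef
  have hL0 : 0 ≤ L := norm_nonneg _
  rcases hL0.eq_or_lt with hLz | hLpos
  · rw [← hLz]; simp
  set c := 1 / (2 * (32 * b ^ 3 * A ^ 3 * (3 * a) * b)) with hc
  set δ := L / (2 * b * l ^ 2) with hδ
  have hδ0 : 0 < δ := by positivity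
  have hδ1 : δ ≤ 1 := by
    rw [hδ, div_le_one (by positivity)]
    calc L ≤ b * l := hlam_le
      _ ≤ b * l * (2 * l) := le_mul_of_one_le_right (by positivity) (by linarith)
      _ = 2 * b * l ^ 2 := by ring
  have hA3 : (1:ℝ) ≤ A ^ 3 := one_le_pow₀ hA1
  have hb3 : (1:ℝ) ≤ b ^ 3 := one_le_pow₀ hb
  -- comparison of constants
  have hcc : c ≤ 1 / (4 * A * b) := by
    rw [hc]
    apply one_div_le_one_div_of_le (by positivity)
    have hA2 : A ≤ A ^ 3 := by nlinarith [mul_nonneg (sub_nonneg.2 hA1) (sub_nonneg.2 hA1)]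
    calc 4 * A * b ≤ 4 * A ^ 3 * b := by gcongr
      _ = 4 * 1 * A ^ 3 * 1 * b := by ring
      _ ≤ 192 * b ^ 3 * A ^ 3 * a * b := by gcongr; norm_num
      _ = _ := by ring
  have hcc2 : 1 / (4 * A * b) ≤ 1 / 4 := by
    apply one_div_le_one_div_of_le (by norm_num)
    nlinarith only [mul_le_mul hA1 hb (by norm_num) (by positivity)]
  have hc0 : 0 < c := by rw [hc]; positivity
  have hl9 : (1:ℝ) ≤ l ^ 9 := one_le_pow₀ hl
  rcases le_or_gt ‖(⟨σ, t⟩ : ℂ) - 1‖ δ with hcase | hcase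
  · have h5 : b * l ^ 2 * ‖(⟨σ, t⟩ : ℂ) - 1‖ ≤ L / 2 := by
      calc b * l ^ 2 * ‖(⟨σ, t⟩ : ℂ) - 1‖ ≤ b * l ^ 2 * δ :=
            mul_le_mul_of_nonneg_left hcase (by positivity)
        _ = L / 2 := by rw [hδ]; field_simp
    have h6 : L - ‖Lk q χ 0 ⟨σ, t⟩‖ ≤ ‖Lk q χ 0 ⟨σ, t⟩ - lam‖ := by
      rw [norm_sub_rev]; exact norm_sub_norm_le _ _
    have h7 : c * L / l ^ 9 ≤ L / 2 := by
      calc c * L / l ^ 9 ≤ c * L := div_le_self (by positivity) hl9
        _ ≤ (1 / 2) * L := mul_le_mul_of_nonneg_right (by linarith) hL0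
        _ = L / 2 := by ring
    linarith
  · rcases le_or_gt (δ / 2) (σ - 1) with hcase2 | hcase2
    · -- Euler product
      have h5 := DirichletCharacter.LSeries.mul_mu_eq_one χ (s := ⟨σ, t⟩) hs1
      have h6 : ‖LSeries ((fun n : ℕ => χ (n : ZMod q)) *
          fun n : ℕ => ((ArithmeticFunction.moebius n : ℤ) : ℂ)) ⟨σ, t⟩‖ ≤ A / (σ - 1) := by
        have := swc_norm_le ((fun n : ℕ => χ (n : ZMod q)) *
          fun n : ℕ => ((ArithmeticFunction.moebius n : ℤ) : ℂ)) (fun n => by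
            rw [Pi.mul_apply, norm_mul]
            have e1 := DirichletCharacter.norm_le_one χ (n : ZMod q)
            have e2 : ‖((ArithmeticFunction.moebius n : ℤ) : ℂ)‖ ≤ 1 := by
              rw [Complex.norm_intCast]
              have := ArithmeticFunction.abs_moebius_le_one (n := n)
              exact_mod_cast this
            calc _ ≤ (1:ℝ) * 1 := mul_le_mul e1 e2 (norm_nonneg _) (by norm_num)
              _ = 1 := by norm_num) ⟨σ, t⟩ hs1
        exact this.trans (hA σ hs1 hs2)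
      rw [← swc_Lk0] at h5
      have h7 : 1 ≤ ‖Lk q χ 0 ⟨σ, t⟩‖ * (A / (σ - 1)) := by
        calc (1:ℝ) = ‖Lk q χ 0 ⟨σ, t⟩ * LSeries ((fun n : ℕ => χ (n : ZMod q)) *
          fun n : ℕ => ((ArithmeticFunction.moebius n : ℤ) : ℂ)) ⟨σ, t⟩‖ := by rw [h5, norm_one]
          _ ≤ _ := by
            rw [norm_mul]
            exact mul_le_mul_of_nonneg_left h6 (norm_nonneg _)
      have h8 : (σ - 1) / A ≤ ‖Lk q χ 0 ⟨σ, t⟩‖ := by
        rw [div_le_iff₀ hA0]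
        have h9 : (σ - 1) * 1 ≤ (σ - 1) * (‖Lk q χ 0 ⟨σ, t⟩‖ * (A / (σ - 1))) :=
          mul_le_mul_of_nonneg_left h7 (by linarith)
        have h10 : (σ - 1) * (‖Lk q χ 0 ⟨σ, t⟩‖ * (A / (σ - 1))) = ‖Lk q χ 0 ⟨σ, t⟩‖ * A := by
          have : σ - 1 ≠ 0 := by linarith
          field_simp
        linarith
      refine le_trans ?_ h8
      have h9 : δ / 2 / A ≤ (σ - 1) / A := by gcongr
      refine le_trans ?_ h9
      have h10 : δ / 2 / A = 1 / (4 * A * b) * L / l ^ 2 := by rw [hδ]; field_simp; ring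
      rw [h10]
      have h11 : c * L / l ^ 9 ≤ c * L / l ^ 2 :=
        div_le_div_of_nonneg_left (by positivity) (by positivity)
          (pow_le_pow_right₀ hl (by norm_num))
      refine h11.trans ?_
      gcongr
    · -- 3-4-1
      have ht : δ / 2 ≤ |t| := by
        have h5 : ‖(⟨σ, t⟩ : ℂ) - 1‖ ≤ |((⟨σ, t⟩ : ℂ) - 1).re| + |((⟨σ, t⟩ : ℂ) - 1).im| :=
          Complex.norm_le_abs_re_add_abs_im _
        have h6 : ((⟨σ, t⟩ : ℂ) - 1).re = σ - 1 := by simp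
        have h7 : ((⟨σ, t⟩ : ℂ) - 1).im = t := by simp
        rw [h6, h7, abs_of_pos (by linarith : 0 < σ - 1)] at h5
        linarith
      have key := swc_horizontal A hA1 hA q χ t (b * l ^ 2) (3 * a * l / δ) (by nlinarith only [hC0, hC1, hl2])
        (by
          rw [le_div_iff₀ hδ0]
          nlinarith only [hC2, hl, hδ1])
        (fun σ' h1' h2' => hder ⟨σ', t⟩ h1' h2' le_rfl)
        (fun σ' h1' h2' => by
          rw [hχ2]
          have h5 := h2 q (by omega) ⟨σ', 2 * t⟩ h1' h2'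
          refine h5.trans ?_
          have hd := swc_log_double (q : ℝ) hq1 t
          have h6 : δ ≤ ‖(⟨σ', 2 * t⟩ : ℂ) - 1‖ := by
            have h7 : |((⟨σ', 2 * t⟩ : ℂ) - 1).im| ≤ ‖(⟨σ', 2 * t⟩ : ℂ) - 1‖ :=
              Complex.abs_im_le_norm _
            have h8 : ((⟨σ', 2 * t⟩ : ℂ) - 1).im = 2 * t := by simp
            rw [h8, abs_mul] at h7
            have : |(2:ℝ)| = 2 := by norm_num
            rw [this] at h7
            linarith
          have h7 : 1 / ‖(⟨σ', 2 * t⟩ : ℂ) - 1‖ ≤ 1 / δ := one_div_le_one_div_of_le hδ0 h6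
          have h8 : 1 / δ ≤ l / δ := by gcongr
          have h9 : 2 * l ≤ 2 * l / δ := by
            rw [le_div_iff₀ hδ0]
            nlinarith only [hl, hδ1]
          show C2 * (1 / ‖(⟨σ', 2 * t⟩ : ℂ) - 1‖ + Real.log (q * (|2 * t| + 2))) ≤ 3 * a * l / δ
          calc C2 * (1 / ‖(⟨σ', 2 * t⟩ : ℂ) - 1‖ + Real.log (q * (|2 * t| + 2)))
              ≤ C2 * (l / δ + 2 * l / δ) := mul_le_mul_of_nonneg_left (by linarith) hC2.le
            _ ≤ a * (l / δ + 2 * l / δ) :=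
                mul_le_mul_of_nonneg_right (by simp only [a]; linarith) (by positivity)
            _ = 3 * a * l / δ := by ring)
        σ hs1 hs2
      refine le_trans (le_of_eq ?_) key
      rw [hc, hδ]
      field_simp

theorem zeta_lower : ∃ c : ℝ, 0 < c ∧ ∀ s : ℂ, 1 < s.re → s.re ≤ 2 → 1 ≤ |s.im| →
      c / Real.log (|s.im| + 2) ^ 9 ≤ ‖Lk 1 1 0 s‖ := by
  obtain ⟨A, hA1, hA⟩ := swc_zeta
  obtain ⟨C0, hC0, h0⟩ := zeta_k_le 0
  obtain ⟨C1, hC1, h1⟩ := zeta_k_le 1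
  set a := C0 + 1
  set b := C1 + 1
  have ha : 1 ≤ a := by simp only [a]; linarith
  have hb : 1 ≤ b := by simp only [b]; linarith
  refine ⟨1 / (64 * b ^ 3 * A ^ 3 * a), by positivity, fun s hs1 hs2 hs3 => ?_⟩
  obtain ⟨σ, t⟩ := s
  simp only at hs1 hs2 hs3 ⊢
  have hl : 1 ≤ Real.log (|t| + 2) := by
    have : Real.log (Real.exp 1) ≤ Real.log (|t| + 2) :=
      Real.log_le_log (Real.exp_pos _) (by linarith [Real.exp_one_lt_d9])
    rwa [Real.log_exp] at this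
  set l := Real.log (|t| + 2)
  have hl0 : 0 < l := by linarith
  have hl2 : 1 ≤ l ^ 2 := one_le_pow₀ hl
  have key := swc_horizontal A hA1 hA 1 1 t (b * l ^ 2) (2 * a * l) (by nlinarith) (by nlinarith)
    (fun σ' h1' h2' => by
      have := h1 ⟨σ', t⟩ h1' h2' hs3
      refine this.trans ?_
      show C1 * l ^ 2 ≤ b * l ^ 2
      exact mul_le_mul_of_nonneg_right (by simp only [b]; linarith) (by positivity))
    (fun σ' h1' h2' => by
      have e : |2 * t| = 2 * |t| := by rw [abs_mul]; norm_num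
      have := h0 ⟨σ', 2 * t⟩ h1' h2' (by show 1 ≤ |2 * t|; rw [e]; linarith)
      rw [one_pow]
      refine this.trans ?_
      have hd := swc_log_double (1 : ℝ) le_rfl t
      simp only [one_mul] at hd
      simp only [zero_add, pow_one]
      calc C0 * Real.log (|2 * t| + 2) ≤ C0 * (2 * l) := mul_le_mul_of_nonneg_left hd hC0.le
        _ ≤ a * (2 * l) := mul_le_mul_of_nonneg_right (by simp only [a]; linarith) (by positivity)
        _ = 2 * a * l := by ring)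
    σ hs1 hs2
  refine le_trans ?_ key
  have e : 1 / (32 * (b * l ^ 2) ^ 3 * A ^ 3 * (2 * a * l)) = 1 / (64 * b ^ 3 * A ^ 3 * a) / l ^ 7 := by
    field_simp; ring
  rw [e]
  apply div_le_div_of_nonneg_left (by positivity) (by positivity)
  exact pow_le_pow_right₀ hl (by norm_num)

end Pool.Agent.H91.EHA

end

section

/-!
# Siegel's theorem

Fix `ε` (small; `ε ≤ 1/100`, and so small that `ζ(s) < 0` on `[1-ε,1)`, possible by the residue at 1).
Let `C` be the constant of `estermann`, `η = ε/(8C)`.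
Case A: some real primitive `χ1 ≠ 1` mod `q1` has a real zero `β ∈ [1-η,1)` of `LFunction χ1`.
Case B: none; take any real primitive `χ1 ≠ 1` (e.g. mod 4 or mod 3) and `β = 1-η`.
Let `χ` be real primitive `≠ 1` mod `q`, `χ ≠ χ1` (different modulus or different character; if it is `χ1` itself
adjust the constant, `LFunction χ1 1 ≠ 0` by Mathlib).  `N = q1 q`, lifts `χ1', χ'` to level `N`
(`DirichletCharacter.changeLevel`), `χ1' χ' ≠ 1` (primitive characters inducing the same character are equal: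
compare conductors).  `LFunction_changeLevel`: `L(s,χ1') = L(s,χ1) ∏_{p|N}(1-χ1(p)p^{-s})`.
At `s = β` the value `F(β) ≤ 0`: in case A it is `0`; in case B `L(β,χ0) < 0` (product of `ζ(β)<0` and positive
factors) and the other three are `≥ 0`: a real `L(s,ψ)` without zeros of its primitive character on `[β,1]`
is positive there (real valued, continuous, positive for `s>1`, nonzero at `1`).
So `λ ≥ c (1-β) N^{-C(1-β)}·... ≥ c' q^{-ε/4}`.  And `λ ≤ L(1,χ)·∏_{p|N}(1+1/p) · |L(1,χ1')||L(1,χ1'χ')|`,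
`‖L(1,ψ)‖ ≤ C log N` for `ψ ≠ 1` mod `N` (limit of `Lk_le 0`), `∏_{p|N}(1+1/p) ≤ 1 + log N` type bound (or
`≤ C N^{ε'}`).  Hence `L(1,χ) ≥ c'' q^{-ε}`.
-/

set_option autoImplicit false

namespace Pool.Agent.H91.EHA

open Finset

private theorem swd3_val {N : ℕ} (ψ : DirichletCharacter ℂ N) (h : ψ ^ 2 = 1) (a : ZMod N) :
    (starRingEnd ℂ) (ψ a) = ψ a := by
  by_cases ha : IsUnit a
  · have h1 : (ψ a) ^ 2 = 1 := by
      have h2 := congrArg (fun f : DirichletCharacter ℂ N => f a) h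
      rw [MulChar.pow_apply' _ two_ne_zero, MulChar.one_apply ha] at h2
      exact h2
    have h2 : (ψ a - 1) * (ψ a + 1) = 0 := by
      have : (ψ a - 1) * (ψ a + 1) = ψ a ^ 2 - 1 := by ring
      rw [this, h1, sub_self]
    rcases mul_eq_zero.mp h2 with h3 | h3
    · rw [sub_eq_zero.mp h3, map_one]
    · rw [eq_neg_of_add_eq_zero_left h3, map_neg, map_one]
  · rw [MulChar.map_nonunit _ ha, map_zero]

private theorem swd3_conj_series {N : ℕ} (ψ : DirichletCharacter ℂ N) (h : ψ ^ 2 = 1) (s : ℂ) :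
    (starRingEnd ℂ) (LSeries (fun n => ψ n) ((starRingEnd ℂ) s)) = LSeries (fun n => ψ n) s := by
  unfold LSeries
  rw [Complex.conj_tsum]
  apply tsum_congr
  intro n
  by_cases hn : n = 0
  · subst hn
    simp [LSeries.term_zero]
  · rw [LSeries.term_of_ne_zero hn, LSeries.term_of_ne_zero hn, map_div₀, swd3_val ψ h]
    congr 1
    have h1 : ((n : ℂ)).arg ≠ Real.pi := by
      rw [Complex.natCast_arg]
      exact Real.pi_pos.ne
    rw [← Complex.conj_cpow _ _ h1, Complex.conj_natCast]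

private theorem swd3_conj {N : ℕ} [NeZero N] (ψ : DirichletCharacter ℂ N) (h : ψ ^ 2 = 1)
    (h1 : ψ ≠ 1) (s : ℂ) :
    (starRingEnd ℂ) (DirichletCharacter.LFunction ψ ((starRingEnd ℂ) s)) =
      DirichletCharacter.LFunction ψ s := by
  have hd : Differentiable ℂ (DirichletCharacter.LFunction ψ) :=
    DirichletCharacter.differentiable_LFunction h1
  have hd2 : Differentiable ℂ
      ((starRingEnd ℂ) ∘ DirichletCharacter.LFunction ψ ∘ (starRingEnd ℂ)) := by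
    intro z
    rw [differentiableAt_conj_conj_iff]
    exact hd _
  have hA : AnalyticOnNhd ℂ (DirichletCharacter.LFunction ψ) Set.univ :=
    fun z _ => hd.analyticAt z
  have hB : AnalyticOnNhd ℂ
      ((starRingEnd ℂ) ∘ DirichletCharacter.LFunction ψ ∘ (starRingEnd ℂ)) Set.univ :=
    fun z _ => hd2.analyticAt z
  have hev : ((starRingEnd ℂ) ∘ DirichletCharacter.LFunction ψ ∘ (starRingEnd ℂ)) =ᶠ[nhds 2]
      DirichletCharacter.LFunction ψ := by
    have hopen : {z : ℂ | 1 < z.re} ∈ nhds (2 : ℂ) := by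
      apply (isOpen_lt continuous_const Complex.continuous_re).mem_nhds
      simp
    filter_upwards [hopen] with z hz
    have hz1 : 1 < z.re := hz
    have hz' : 1 < ((starRingEnd ℂ) z).re := by rw [Complex.conj_re]; exact hz1
    simp only [Function.comp_apply]
    rw [DirichletCharacter.LFunction_eq_LSeries ψ hz', DirichletCharacter.LFunction_eq_LSeries ψ hz1]
    exact swd3_conj_series ψ h z
  have := hB.eq_of_eventuallyEq hA hev
  exact congrFun this s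

private theorem swd3_im {N : ℕ} [NeZero N] (ψ : DirichletCharacter ℂ N) (h : ψ ^ 2 = 1)
    (h1 : ψ ≠ 1) (x : ℝ) : (DirichletCharacter.LFunction ψ (x : ℂ)).im = 0 := by
  have h2 := swd3_conj ψ h h1 (x : ℂ)
  rw [Complex.conj_ofReal] at h2
  have h3 := congrArg Complex.im h2
  rw [Complex.conj_im] at h3
  linarith

private theorem swd3_two {N : ℕ} [NeZero N] (ψ : DirichletCharacter ℂ N) :
    0 < (DirichletCharacter.LFunction ψ 2).re := by
  have hre : 1 < (2 : ℂ).re := by simp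
  rw [DirichletCharacter.LFunction_eq_LSeries ψ hre]
  have hsum : HasSum (LSeries.term (fun n => ψ n) 2) (LSeries (fun n => ψ n) 2) :=
    (DirichletCharacter.LSeriesSummable_of_one_lt_re ψ hre).hasSum
  have h1 : HasSum (fun k : ℕ => if k = 1 then (1 : ℂ) else 0) 1 := hasSum_ite_eq 1 1
  have h2 := hsum.sub h1
  have h3 : HasSum (fun k : ℕ => 1 / (k : ℝ) ^ 2 - if k = 1 then (1 : ℝ) else 0)
      (Real.pi ^ 2 / 6 - 1) := hasSum_zeta_two.sub (hasSum_ite_eq 1 1)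
  have h4 : ∀ k : ℕ, ‖LSeries.term (fun n => ψ n) 2 k - (if k = 1 then (1 : ℂ) else 0)‖ ≤
      1 / (k : ℝ) ^ 2 - if k = 1 then (1 : ℝ) else 0 := by
    intro k
    by_cases hk0 : k = 0
    · subst hk0
      simp [LSeries.term_zero]
    · by_cases hk1 : k = 1
      · subst hk1
        rw [LSeries.term_of_ne_zero one_ne_zero]
        simp
      · rw [if_neg hk1, if_neg hk1, sub_zero, sub_zero, LSeries.term_of_ne_zero hk0, norm_div,
          Complex.norm_natCast_cpow_of_pos (Nat.pos_of_ne_zero hk0)]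
        have hk : (0 : ℝ) < (k : ℝ) := by exact_mod_cast Nat.pos_of_ne_zero hk0
        have e : (k : ℝ) ^ ((2 : ℂ).re) = (k : ℝ) ^ 2 := by
          have : ((2 : ℂ).re) = ((2 : ℕ) : ℝ) := by simp
          rw [this, Real.rpow_natCast]
        rw [e]
        exact div_le_div_of_nonneg_right (ψ.norm_le_one _) (by positivity)
  have h5 := h2.norm_le_of_bounded h3 h4
  have h6 : |(LSeries (fun n => ψ n) 2 - 1).re| ≤ Real.pi ^ 2 / 6 - 1 :=
    (Complex.abs_re_le_norm _).trans h5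
  have h7 := (abs_le.mp h6).1
  rw [Complex.sub_re, Complex.one_re] at h7
  have h8 : Real.pi ^ 2 < 12 := by
    have := Real.pi_lt_d2
    have := Real.pi_pos
    nlinarith
  linarith

private theorem swd3_pos {N : ℕ} [NeZero N] (ψ : DirichletCharacter ℂ N) (h : ψ ^ 2 = 1)
    (h1 : ψ ≠ 1) (β : ℝ) (hβ : β < 1)
    (hz : ∀ x : ℝ, β ≤ x → x < 1 → DirichletCharacter.LFunction ψ (x : ℂ) ≠ 0) :
    0 < (DirichletCharacter.LFunction ψ (β : ℂ)).re := by
  by_contra hcon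
  push Not at hcon
  have hcont : Continuous (fun x : ℝ => (DirichletCharacter.LFunction ψ (x : ℂ)).re) :=
    Complex.continuous_re.comp
      ((DirichletCharacter.differentiable_LFunction h1).continuous.comp Complex.continuous_ofReal)
  have h2 : 0 < (DirichletCharacter.LFunction ψ ((2 : ℝ) : ℂ)).re := by
    have := swd3_two ψ
    simpa using this
  have hmem : (0 : ℝ) ∈ Set.Icc ((DirichletCharacter.LFunction ψ (β : ℂ)).re)
      ((DirichletCharacter.LFunction ψ ((2 : ℝ) : ℂ)).re) := ⟨hcon, h2.le⟩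
  obtain ⟨x, hx, hx0⟩ := intermediate_value_Icc (by linarith : β ≤ 2) hcont.continuousOn hmem
  have hx00 : DirichletCharacter.LFunction ψ (x : ℂ) = 0 := by
    apply Complex.ext
    · exact hx0
    · rw [swd3_im ψ h h1]
      simp
  by_cases hx1 : x < 1
  · exact hz x hx.1 hx1 hx00
  · push Not at hx1
    exact DirichletCharacter.LFunction_ne_zero_of_one_le_re ψ (Or.inl h1)
      (by simpa using hx1) hx00

private theorem swd3_upper : ∃ C : ℝ, 0 < C ∧ ∀ (N : ℕ) [NeZero N] (ψ : DirichletCharacter ℂ N),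
    ψ ≠ 1 → ‖DirichletCharacter.LFunction ψ 1‖ ≤ C * Real.log (2 * N) := by
  obtain ⟨C, hC, hL⟩ := Lk_le 0
  refine ⟨C, hC, ?_⟩
  intro N _ ψ hψ
  have hN2 : 2 ≤ N := by
    rcases Nat.lt_or_ge N 2 with h | h
    · exfalso
      have hN0 : N ≠ 0 := NeZero.ne N
      have hN1 : N = 1 := by omega
      exact hψ (DirichletCharacter.level_one' ψ hN1)
    · exact h
  have hcont : Continuous (fun x : ℝ => ‖DirichletCharacter.LFunction ψ (x : ℂ)‖) :=
    ((DirichletCharacter.differentiable_LFunction hψ).continuous.comp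
      Complex.continuous_ofReal).norm
  have ht : Filter.Tendsto (fun x : ℝ => ‖DirichletCharacter.LFunction ψ (x : ℂ)‖)
      (nhdsWithin 1 (Set.Ioi 1)) (nhds ‖DirichletCharacter.LFunction ψ ((1 : ℝ) : ℂ)‖) :=
    (hcont.tendsto 1).mono_left nhdsWithin_le_nhds
  rw [Complex.ofReal_one] at ht
  apply le_of_tendsto ht
  have hev : ∀ᶠ x : ℝ in nhdsWithin 1 (Set.Ioi 1), x < 2 := by
    apply Filter.Eventually.filter_mono nhdsWithin_le_nhds
    exact (isOpen_Iio (a := (2 : ℝ))).mem_nhds (by norm_num)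
  filter_upwards [hev, self_mem_nhdsWithin] with x hx2 hx1
  have hx1' : (1 : ℝ) < x := hx1
  have hre : 1 < ((x : ℝ) : ℂ).re := by simpa using hx1'
  have h1 := hL N hN2 ψ hψ (x : ℂ) hre (by simpa using hx2.le)
  rw [Lk_zero_eq N ψ _ hre] at h1
  simp only [Complex.ofReal_im, abs_zero, zero_add, pow_one] at h1
  rw [mul_comm (2 : ℝ)]
  exact h1

private theorem swd3_prod (N : ℕ) (hN : 1 ≤ N) :
    ∏ p ∈ N.primeFactors, (1 + 1 / (p : ℝ)) ≤ 1 + Real.log N := by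
  rw [Finset.prod_one_add]
  have hprime : ∀ t ∈ N.primeFactors.powerset, ∀ p ∈ t, p.Prime := by
    intro t ht p hp
    exact Nat.prime_of_mem_primeFactors (Finset.mem_powerset.mp ht hp)
  have e1 : ∀ t ∈ N.primeFactors.powerset, ∏ p ∈ t, 1 / (p : ℝ) =
      1 / ((∏ p ∈ t, p : ℕ) : ℝ) := by
    intro t _
    rw [Finset.prod_div_distrib, Finset.prod_const_one, Nat.cast_prod]
  rw [Finset.sum_congr rfl e1]
  have hinj : ∀ t ∈ N.primeFactors.powerset, ∀ t' ∈ N.primeFactors.powerset,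
      (∏ p ∈ t, p : ℕ) = ∏ p ∈ t', p → t = t' := by
    intro t ht t' ht' he
    rw [← Nat.primeFactors_prod (hprime t ht), ← Nat.primeFactors_prod (hprime t' ht'), he]
  have e2 : ∑ t ∈ N.primeFactors.powerset, 1 / ((∏ p ∈ t, p : ℕ) : ℝ) =
      ∑ d ∈ N.primeFactors.powerset.image (fun t => ∏ p ∈ t, p), 1 / (d : ℝ) := by
    rw [Finset.sum_image]
    intro t ht t' ht' he
    exact hinj t ht t' ht' he
  rw [e2]
  have hsub : N.primeFactors.powerset.image (fun t => ∏ p ∈ t, p) ⊆ Finset.Icc 1 N := by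
    intro d hd
    rw [Finset.mem_image] at hd
    obtain ⟨t, ht, rfl⟩ := hd
    rw [Finset.mem_Icc]
    constructor
    · exact Finset.prod_pos fun p hp => (hprime t ht p hp).pos
    · have h1 : (∏ p ∈ t, p) ∣ ∏ p ∈ N.primeFactors, p :=
        Finset.prod_dvd_prod_of_subset _ _ _ (Finset.mem_powerset.mp ht)
      exact Nat.le_of_dvd (by omega) (h1.trans (Nat.prod_primeFactors_dvd N))
  have h2 : ∑ d ∈ N.primeFactors.powerset.image (fun t => ∏ p ∈ t, p), 1 / (d : ℝ) ≤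
      ∑ d ∈ Finset.Icc 1 N, 1 / (d : ℝ) :=
    Finset.sum_le_sum_of_subset_of_nonneg hsub fun _ _ _ => by positivity
  refine h2.trans ?_
  have h3 := harmonic_le_one_add_log N
  rw [harmonic_eq_sum_Icc] at h3
  push_cast at h3
  simpa [one_div] using h3

private theorem swd3_zeta : ∃ η : ℝ, 0 < η ∧ ∀ β : ℝ, 1 - η ≤ β → β < 1 →
    (riemannZeta (β : ℂ)).re < 0 := by
  have h := riemannZeta_residue_one
  have hopen : {z : ℂ | 0 < z.re} ∈ nhds (1 : ℂ) := by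
    apply (isOpen_lt continuous_const Complex.continuous_re).mem_nhds
    simp
  have hev := h.eventually hopen
  rw [eventually_nhdsWithin_iff, Metric.eventually_nhds_iff] at hev
  obtain ⟨δ, hδ, hb⟩ := hev
  refine ⟨δ / 2, by positivity, ?_⟩
  intro β hβ1 hβ2
  have hne : (β : ℂ) ≠ 1 := by
    intro h
    have h2 : ((β : ℝ) : ℂ) = ((1 : ℝ) : ℂ) := by rw [h, Complex.ofReal_one]
    have h3 := Complex.ofReal_injective h2
    linarith
  have hdist : dist (β : ℂ) 1 < δ := by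
    rw [Complex.dist_eq, ← Complex.ofReal_one, ← Complex.ofReal_sub, Complex.norm_real,
      Real.norm_eq_abs, abs_lt]
    constructor <;> linarith
  have h4 := hb hdist hne
  have h5 : (((β : ℂ) - 1) * riemannZeta (β : ℂ)).re = (β - 1) * (riemannZeta (β : ℂ)).re := by
    rw [← Complex.ofReal_one, ← Complex.ofReal_sub, Complex.re_ofReal_mul]
  have h6 : 0 < (β - 1) * (riemannZeta (β : ℂ)).re := by
    rw [← h5]
    exact h4
  by_contra h7
  push Not at h7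
  nlinarith

private theorem swd3_factor {N M : ℕ} (χ : DirichletCharacter ℂ M) (p : ℕ)
    (hp : p ∈ N.primeFactors) (β : ℝ) (hβ : 0 < β) :
    (1 - χ (p : ZMod M) * (p : ℂ) ^ (-(β : ℂ))) ≠ 0 := by
  have hpp := Nat.prime_of_mem_primeFactors hp
  intro h
  have h1 : ‖χ (p : ZMod M) * (p : ℂ) ^ (-(β : ℂ))‖ = 1 := by
    rw [← sub_eq_zero.mp h, norm_one]
  rw [norm_mul, Complex.norm_natCast_cpow_of_pos hpp.pos] at h1
  have h2 : ((-(β : ℂ))).re = -β := by simp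
  rw [h2] at h1
  have h3 : (p : ℝ) ^ (-β) < 1 :=
    Real.rpow_lt_one_of_one_lt_of_neg (by exact_mod_cast hpp.one_lt) (by linarith)
  have h4 : ‖χ (p : ZMod M)‖ ≤ 1 := χ.norm_le_one _
  have h5 : 0 ≤ (p : ℝ) ^ (-β) := by positivity
  nlinarith [norm_nonneg (χ (p : ZMod M))]

/-- the imprimitive characters have no zeros either -/
private theorem swd3_nz (η : ℝ) (hη : η ≤ 1 / 8)
    (hB : ∀ (q : ℕ) [NeZero q] (χ : DirichletCharacter ℂ q), χ.IsPrimitive → χ ^ 2 = 1 → χ ≠ 1 →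
      ∀ x : ℝ, 1 - η ≤ x → x < 1 → DirichletCharacter.LFunction χ (x : ℂ) ≠ 0)
    {N : ℕ} [NeZero N] (ψ : DirichletCharacter ℂ N) (h : ψ ^ 2 = 1) (h1 : ψ ≠ 1) (x : ℝ)
    (hx : 1 - η ≤ x) (hx1 : x < 1) : DirichletCharacter.LFunction ψ (x : ℂ) ≠ 0 := by
  have : NeZero ψ.conductor := ⟨ψ.conductor_ne_zero⟩
  have e : DirichletCharacter.changeLevel ψ.conductor_dvd_level ψ.primitiveCharacter = ψ :=
    ψ.changeLevel_primitiveCharacter
  have hne : ψ.primitiveCharacter ≠ 1 := by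
    intro h2
    apply h1
    rw [← e, h2, map_one]
  have hsq : ψ.primitiveCharacter ^ 2 = 1 := by
    apply DirichletCharacter.changeLevel_injective ψ.conductor_dvd_level
    rw [map_pow, e, h, map_one]
  rw [← e, DirichletCharacter.LFunction_changeLevel ψ.conductor_dvd_level _ (Or.inl hne)]
  apply mul_ne_zero
  · exact hB _ _ ψ.primitiveCharacter_isPrimitive hsq hne x hx hx1
  · rw [Finset.prod_ne_zero_iff]
    intro p hp
    exact swd3_factor _ p hp x (by linarith)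

/-- two primitive real characters with trivial product (at a common level) are equal -/
private theorem swd3_eq {q1 q : ℕ} [NeZero q1] [NeZero q] (χ1 : DirichletCharacter ℂ q1)
    (χ : DirichletCharacter ℂ q) (hp1 : χ1.IsPrimitive) (hp : χ.IsPrimitive) (h2 : χ ^ 2 = 1)
    (h : DirichletCharacter.changeLevel (Nat.dvd_mul_right q1 q) χ1 *
      DirichletCharacter.changeLevel (Nat.dvd_mul_left q q1) χ = 1) :
    ∃ e : q = q1, e ▸ χ = χ1 := by
  have : NeZero (q1 * q) := ⟨Nat.mul_ne_zero (NeZero.ne q1) (NeZero.ne q)⟩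
  have h3 : DirichletCharacter.changeLevel (Nat.dvd_mul_left q q1) χ *
      DirichletCharacter.changeLevel (Nat.dvd_mul_left q q1) χ = 1 := by
    rw [← map_mul, ← pow_two, h2, map_one]
  have h4 : DirichletCharacter.changeLevel (Nat.dvd_mul_right q1 q) χ1 =
      DirichletCharacter.changeLevel (Nat.dvd_mul_left q q1) χ := by
    calc DirichletCharacter.changeLevel (Nat.dvd_mul_right q1 q) χ1
        = DirichletCharacter.changeLevel (Nat.dvd_mul_right q1 q) χ1 *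
          (DirichletCharacter.changeLevel (Nat.dvd_mul_left q q1) χ *
            DirichletCharacter.changeLevel (Nat.dvd_mul_left q q1) χ) := by rw [h3, mul_one]
      _ = DirichletCharacter.changeLevel (Nat.dvd_mul_left q q1) χ := by
          rw [← mul_assoc, h, one_mul]
  have h5 : q = q1 := by
    have e1 := DirichletCharacter.conductor_changeLevel χ1 (Nat.dvd_mul_right q1 q)
    have e2 := DirichletCharacter.conductor_changeLevel χ (Nat.dvd_mul_left q q1)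
    rw [h4, e2] at e1
    rw [DirichletCharacter.isPrimitive_def] at hp1 hp
    rw [hp1, hp] at e1
    exact e1
  subst h5
  refine ⟨rfl, ?_⟩
  exact (DirichletCharacter.changeLevel_injective (Nat.dvd_mul_right q q) h4).symm

private theorem swd3_triv {N : ℕ} [NeZero N] (β : ℝ) (hβ : 0 < β) (hβ1 : β < 1)
    (hζ : (riemannZeta (β : ℂ)).re < 0) :
    (DirichletCharacter.LFunction (1 : DirichletCharacter ℂ N) (β : ℂ)).re ≤ 0 := by
  have hne : (β : ℂ) ≠ 1 := by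
    intro h
    have h2 : ((β : ℝ) : ℂ) = ((1 : ℝ) : ℂ) := by rw [h, Complex.ofReal_one]
    have h3 := Complex.ofReal_injective h2
    linarith
  have h1 := DirichletCharacter.LFunctionTrivChar_eq_mul_riemannZeta (N := N) hne
  have h2 : (∏ p ∈ N.primeFactors, (1 - (p : ℂ) ^ (-(β : ℂ)))) =
      ((∏ p ∈ N.primeFactors, (1 - (p : ℝ) ^ (-β)) : ℝ) : ℂ) := by
    rw [Complex.ofReal_prod]
    apply Finset.prod_congr rfl
    intro p _
    rw [Complex.ofReal_sub, Complex.ofReal_one, Complex.ofReal_cpow (Nat.cast_nonneg p),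
      Complex.ofReal_neg, Complex.ofReal_natCast]
  have h3 : 0 ≤ ∏ p ∈ N.primeFactors, (1 - (p : ℝ) ^ (-β)) := by
    apply Finset.prod_nonneg
    intro p hp
    have hpp := Nat.prime_of_mem_primeFactors hp
    have h3 : (p : ℝ) ^ (-β) < 1 :=
      Real.rpow_lt_one_of_one_lt_of_neg (by exact_mod_cast hpp.one_lt) (by linarith)
    linarith
  rw [h2] at h1
  have h4 : (DirichletCharacter.LFunction (1 : DirichletCharacter ℂ N) (β : ℂ)).re =
      (∏ p ∈ N.primeFactors, (1 - (p : ℝ) ^ (-β))) * (riemannZeta (β : ℂ)).re := by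
    rw [← Complex.re_ofReal_mul, ← h1]
  rw [h4]
  exact mul_nonpos_of_nonneg_of_nonpos h3 hζ.le

private theorem swd3_caseB (η : ℝ) (hη : η ≤ 1 / 8)
    (hB : ∀ (q : ℕ) [NeZero q] (χ : DirichletCharacter ℂ q), χ.IsPrimitive → χ ^ 2 = 1 → χ ≠ 1 →
      ∀ x : ℝ, 1 - η ≤ x → x < 1 → DirichletCharacter.LFunction χ (x : ℂ) ≠ 0)
    {N : ℕ} [NeZero N] (ψ1 ψ2 : DirichletCharacter ℂ N) (h1 : ψ1 ^ 2 = 1) (h2 : ψ2 ^ 2 = 1)
    (n1 : ψ1 ≠ 1) (n2 : ψ2 ≠ 1) (n3 : ψ1 * ψ2 ≠ 1) (β : ℝ) (hβ : 1 - η ≤ β) (hβ1 : β < 1)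
    (hζ : (riemannZeta (β : ℂ)).re < 0) :
    (DirichletCharacter.LFunction (1 : DirichletCharacter ℂ N) β *
          DirichletCharacter.LFunction ψ1 β * DirichletCharacter.LFunction ψ2 β *
          DirichletCharacter.LFunction (ψ1 * ψ2) β).re ≤ 0 := by
  have h3 : (ψ1 * ψ2) ^ 2 = 1 := by rw [mul_pow, h1, h2, mul_one]
  have key : ∀ ψ : DirichletCharacter ℂ N, ψ ^ 2 = 1 → ψ ≠ 1 →
      ∃ r : ℝ, 0 ≤ r ∧ DirichletCharacter.LFunction ψ (β : ℂ) = (r : ℂ) := by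
    intro ψ h n
    refine ⟨(DirichletCharacter.LFunction ψ (β : ℂ)).re, ?_, ?_⟩
    · apply le_of_lt
      apply swd3_pos ψ h n β hβ1
      intro x hx hx1
      exact swd3_nz η hη hB ψ h n x (by linarith) hx1
    · apply Complex.ext
      · simp
      · rw [swd3_im ψ h n]
        simp
  obtain ⟨r1, hr1, e1⟩ := key ψ1 h1 n1
  obtain ⟨r2, hr2, e2⟩ := key ψ2 h2 n2
  obtain ⟨r3, hr3, e3⟩ := key (ψ1 * ψ2) h3 n3
  rw [e1, e2, e3]
  have h4 := swd3_triv (N := N) β (by linarith) hβ1 hζ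
  have h5 : (DirichletCharacter.LFunction (1 : DirichletCharacter ℂ N) (β : ℂ) * (r1 : ℂ) *
      (r2 : ℂ) * (r3 : ℂ)).re =
      (DirichletCharacter.LFunction (1 : DirichletCharacter ℂ N) (β : ℂ)).re * (r1 * r2 * r3) := by
    have : DirichletCharacter.LFunction (1 : DirichletCharacter ℂ N) (β : ℂ) * (r1 : ℂ) *
      (r2 : ℂ) * (r3 : ℂ) = ((r1 * r2 * r3 : ℝ) : ℂ) *
      DirichletCharacter.LFunction (1 : DirichletCharacter ℂ N) (β : ℂ) := by
      push_cast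
      ring
    rw [this, Complex.re_ofReal_mul]
    ring
  rw [h5]
  exact mul_nonpos_of_nonpos_of_nonneg h4 (by positivity)

private theorem swd3_level {q N : ℕ} [NeZero q] [NeZero N] (hd : q ∣ N)
    (χ : DirichletCharacter ℂ q) (n : χ ≠ 1) :
    ‖DirichletCharacter.LFunction (DirichletCharacter.changeLevel hd χ) 1‖ ≤
      ‖DirichletCharacter.LFunction χ 1‖ * (1 + Real.log N) := by
  rw [DirichletCharacter.LFunction_changeLevel hd _ (Or.inl n), norm_mul]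
  apply mul_le_mul_of_nonneg_left _ (norm_nonneg _)
  refine le_trans ?_ (swd3_prod N (Nat.one_le_iff_ne_zero.mpr (NeZero.ne N)))
  rw [norm_prod]
  apply Finset.prod_le_prod
  · intro p _
    exact norm_nonneg _
  · intro p hp
    have hpp := Nat.prime_of_mem_primeFactors hp
    refine (norm_sub_le _ _).trans ?_
    rw [norm_one, norm_mul, Complex.norm_natCast_cpow_of_pos hpp.pos]
    have h2 : ((-(1 : ℂ))).re = -1 := by simp
    rw [h2, Real.rpow_neg_one, one_div]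
    have h4 : ‖χ (p : ZMod q)‖ ≤ 1 := χ.norm_le_one _
    have h5 : 0 ≤ ((p : ℝ))⁻¹ := by positivity
    have h6 := mul_le_mul_of_nonneg_right h4 h5
    linarith

private theorem swd3_core (C C2 : ℝ) (hC : 1 ≤ C) (hC2 : 0 < C2)
    (hE : ∀ (N : ℕ) [NeZero N] (χ1 χ2 : DirichletCharacter ℂ N),
    χ1 ^ 2 = 1 → χ2 ^ 2 = 1 → χ1 ≠ 1 → χ2 ≠ 1 → χ1 * χ2 ≠ 1 → ∀ s : ℝ, 7 / 8 < s → s < 1 →
    1 / 2 - C * (N : ℝ) ^ (C * (1 - s)) / (1 - s) * (((N.totient : ℝ) / N) *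
        (DirichletCharacter.LFunction χ1 1 * DirichletCharacter.LFunction χ2 1 *
          DirichletCharacter.LFunction (χ1 * χ2) 1).re)
      ≤ (DirichletCharacter.LFunction (1 : DirichletCharacter ℂ N) s *
          DirichletCharacter.LFunction χ1 s * DirichletCharacter.LFunction χ2 s *
          DirichletCharacter.LFunction (χ1 * χ2) s).re)
    (hU : ∀ (N : ℕ) [NeZero N] (ψ : DirichletCharacter ℂ N),
      ψ ≠ 1 → ‖DirichletCharacter.LFunction ψ 1‖ ≤ C2 * Real.log (2 * N))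
    (ε : ℝ) (hε : 0 < ε) (hε1 : ε ≤ 1) (β : ℝ) (hβ : 7 / 8 < β) (hβ1 : β < 1)
    (hβε : C * (1 - β) ≤ ε / 8) (q1 : ℕ) [NeZero q1] (χ1 : DirichletCharacter ℂ q1)
    (h1 : χ1 ^ 2 = 1) (n1 : χ1 ≠ 1) :
    ∃ c : ℝ, 0 < c ∧ ∀ (q N : ℕ) [NeZero q] [NeZero N] (_hN : N = q1 * q) (hd1 : q1 ∣ N)
      (hd : q ∣ N) (χ : DirichletCharacter ℂ q),
      χ ^ 2 = 1 → χ ≠ 1 →
      DirichletCharacter.changeLevel hd1 χ1 * DirichletCharacter.changeLevel hd χ ≠ 1 →
      (DirichletCharacter.LFunction (1 : DirichletCharacter ℂ N) β *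
          DirichletCharacter.LFunction (DirichletCharacter.changeLevel hd1 χ1) β *
          DirichletCharacter.LFunction (DirichletCharacter.changeLevel hd χ) β *
          DirichletCharacter.LFunction (DirichletCharacter.changeLevel hd1 χ1 *
            DirichletCharacter.changeLevel hd χ) β).re ≤ 0 →
      c * (q : ℝ) ^ (-ε) ≤ ‖DirichletCharacter.LFunction χ 1‖ := by
  set δ : ℝ := ε / 24 with hδ
  have hδ0 : 0 < δ := by positivity
  set K : ℝ := C * (C2 * (2 / δ)) ^ 2 * (1 + 1 / δ) with hK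
  have hC0 : 0 < C := by linarith
  have hK0 : 0 < K := by positivity
  have hq1 : (0 : ℝ) < q1 := by
    have : 0 < q1 := Nat.pos_of_ne_zero (NeZero.ne q1)
    exact_mod_cast this
  have ha : 0 < 1 - β := by linarith
  refine ⟨(1 - β) / (2 * K * (q1 : ℝ) ^ ε), by positivity, ?_⟩
  intro q N _ _ hN hd1 hd χ h2 n2 n3 hF
  have hq : (0 : ℝ) < q := by
    have : 0 < q := Nat.pos_of_ne_zero (NeZero.ne q)
    exact_mod_cast this
  set ψ1 := DirichletCharacter.changeLevel hd1 χ1 with hψ1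
  set ψ2 := DirichletCharacter.changeLevel hd χ with hψ2
  have m1 : ψ1 ≠ 1 := fun h => n1 ((DirichletCharacter.changeLevel_eq_one_iff _).mp h)
  have m2 : ψ2 ≠ 1 := fun h => n2 ((DirichletCharacter.changeLevel_eq_one_iff _).mp h)
  have s1 : ψ1 ^ 2 = 1 := by rw [hψ1, ← map_pow, h1, map_one]
  have s2 : ψ2 ^ 2 = 1 := by rw [hψ2, ← map_pow, h2, map_one]
  have hest := hE N ψ1 ψ2 s1 s2 m1 m2 n3 β hβ hβ1
  set X := ‖DirichletCharacter.LFunction χ 1‖ with hX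
  have hX0 : 0 ≤ X := norm_nonneg _
  have hNR : (0 : ℝ) < N := by rw [hN]; push_cast; positivity
  have hN1 : (1 : ℝ) ≤ N := by
    have : 1 ≤ N := Nat.one_le_iff_ne_zero.mpr (NeZero.ne N)
    exact_mod_cast this
  set lam : ℝ := ((N.totient : ℝ) / N) *
        (DirichletCharacter.LFunction ψ1 1 * DirichletCharacter.LFunction ψ2 1 *
          DirichletCharacter.LFunction (ψ1 * ψ2) 1).re with hlam
  have hlog2 : Real.log (2 * N) ≤ (2 / δ) * (N : ℝ) ^ δ := by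
    have e1 := Real.log_le_rpow_div (x := 2 * (N : ℝ)) (by positivity) hδ0
    have e2 : (2 * (N : ℝ)) ^ δ = 2 ^ δ * (N : ℝ) ^ δ :=
      Real.mul_rpow (by norm_num) hNR.le
    have e3 : (2 : ℝ) ^ δ ≤ 2 := by
      calc (2 : ℝ) ^ δ ≤ 2 ^ (1 : ℝ) :=
            Real.rpow_le_rpow_of_exponent_le (by norm_num) (by rw [hδ]; linarith)
        _ = 2 := Real.rpow_one 2
    refine e1.trans ?_
    rw [e2, div_mul_eq_mul_div]
    apply div_le_div_of_nonneg_right _ hδ0.le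
    exact mul_le_mul_of_nonneg_right e3 (by positivity)
  have hlog1 : 1 + Real.log N ≤ (1 + 1 / δ) * (N : ℝ) ^ δ := by
    have e1 := Real.log_le_rpow_div (x := (N : ℝ)) hNR.le hδ0
    have e2 : (1 : ℝ) ≤ (N : ℝ) ^ δ := Real.one_le_rpow hN1 hδ0.le
    have e3 : (1 + 1 / δ) * (N : ℝ) ^ δ = (N : ℝ) ^ δ + (N : ℝ) ^ δ / δ := by ring
    rw [e3]
    linarith
  have hlam1 : lam ≤ (C2 * ((2 / δ) * (N : ℝ) ^ δ)) * (X * ((1 + 1 / δ) * (N : ℝ) ^ δ)) *
      (C2 * ((2 / δ) * (N : ℝ) ^ δ)) := by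
    have u1 : ‖DirichletCharacter.LFunction ψ1 1‖ ≤ C2 * ((2 / δ) * (N : ℝ) ^ δ) :=
      (hU N ψ1 m1).trans (mul_le_mul_of_nonneg_left hlog2 hC2.le)
    have u3 : ‖DirichletCharacter.LFunction (ψ1 * ψ2) 1‖ ≤ C2 * ((2 / δ) * (N : ℝ) ^ δ) :=
      (hU N _ n3).trans (mul_le_mul_of_nonneg_left hlog2 hC2.le)
    have u2 : ‖DirichletCharacter.LFunction ψ2 1‖ ≤ X * ((1 + 1 / δ) * (N : ℝ) ^ δ) :=
      (swd3_level hd χ n2).trans (mul_le_mul_of_nonneg_left hlog1 hX0)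
    have hφ0 : 0 ≤ (N.totient : ℝ) / N := by positivity
    have hφ1 : (N.totient : ℝ) / N ≤ 1 := by
      rw [div_le_one hNR]
      exact_mod_cast Nat.totient_le N
    have hnorm : (DirichletCharacter.LFunction ψ1 1 * DirichletCharacter.LFunction ψ2 1 *
          DirichletCharacter.LFunction (ψ1 * ψ2) 1).re ≤
        ‖DirichletCharacter.LFunction ψ1 1‖ * ‖DirichletCharacter.LFunction ψ2 1‖ *
          ‖DirichletCharacter.LFunction (ψ1 * ψ2) 1‖ := by
      refine (Complex.re_le_norm _).trans (le_of_eq ?_)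
      rw [norm_mul, norm_mul]
    calc lam ≤ ((N.totient : ℝ) / N) * (‖DirichletCharacter.LFunction ψ1 1‖ *
          ‖DirichletCharacter.LFunction ψ2 1‖ * ‖DirichletCharacter.LFunction (ψ1 * ψ2) 1‖) :=
          mul_le_mul_of_nonneg_left hnorm hφ0
      _ ≤ 1 * (‖DirichletCharacter.LFunction ψ1 1‖ *
          ‖DirichletCharacter.LFunction ψ2 1‖ * ‖DirichletCharacter.LFunction (ψ1 * ψ2) 1‖) :=
          mul_le_mul_of_nonneg_right hφ1 (by positivity)
      _ = ‖DirichletCharacter.LFunction ψ1 1‖ *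
          ‖DirichletCharacter.LFunction ψ2 1‖ * ‖DirichletCharacter.LFunction (ψ1 * ψ2) 1‖ :=
          one_mul _
      _ ≤ _ := by
          apply mul_le_mul _ u3 (norm_nonneg _) (by positivity)
          exact mul_le_mul u1 u2 (norm_nonneg _) (by positivity)
  have hNε : C * (N : ℝ) ^ (C * (1 - β)) ≤ C * (N : ℝ) ^ (ε / 8) :=
    mul_le_mul_of_nonneg_left (Real.rpow_le_rpow_of_exponent_le hN1 hβε) hC0.le
  have hmain : (1 - β) / 2 ≤ C * (N : ℝ) ^ (C * (1 - β)) * lam := by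
    have e1 : 1 / 2 ≤ C * (N : ℝ) ^ (C * (1 - β)) / (1 - β) * lam := by linarith
    have e2 := mul_le_mul_of_nonneg_left e1 ha.le
    have e3 : (1 - β) * (C * (N : ℝ) ^ (C * (1 - β)) / (1 - β) * lam) =
        C * (N : ℝ) ^ (C * (1 - β)) * lam := by
      field_simp
    rw [e3] at e2
    linarith
  have hlam0 : 0 ≤ lam := by
    by_contra hneg
    push Not at hneg
    have : C * (N : ℝ) ^ (C * (1 - β)) * lam < 0 := mul_neg_of_pos_of_neg (by positivity) hneg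
    linarith
  have hfin : (1 - β) / 2 ≤ K * (N : ℝ) ^ (ε / 4) * X := by
    calc (1 - β) / 2 ≤ C * (N : ℝ) ^ (C * (1 - β)) * lam := hmain
      _ ≤ C * (N : ℝ) ^ (ε / 8) * lam := mul_le_mul_of_nonneg_right hNε hlam0
      _ ≤ C * (N : ℝ) ^ (ε / 8) * ((C2 * ((2 / δ) * (N : ℝ) ^ δ)) *
          (X * ((1 + 1 / δ) * (N : ℝ) ^ δ)) * (C2 * ((2 / δ) * (N : ℝ) ^ δ))) :=
          mul_le_mul_of_nonneg_left hlam1 (by positivity)
      _ = K * ((N : ℝ) ^ (ε / 8) * (N : ℝ) ^ δ * (N : ℝ) ^ δ * (N : ℝ) ^ δ) * X := by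
          rw [hK]
          ring
      _ = K * (N : ℝ) ^ (ε / 4) * X := by
          rw [← Real.rpow_add hNR, ← Real.rpow_add hNR, ← Real.rpow_add hNR]
          congr 3
          rw [hδ]
          ring
  have hNe : (N : ℝ) ^ (ε / 4) ≤ (q1 : ℝ) ^ ε * (q : ℝ) ^ ε := by
    calc (N : ℝ) ^ (ε / 4) ≤ (N : ℝ) ^ ε :=
          Real.rpow_le_rpow_of_exponent_le hN1 (by linarith)
      _ = (q1 : ℝ) ^ ε * (q : ℝ) ^ ε := by
          rw [hN]
          push_cast
          exact Real.mul_rpow hq1.le hq.le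
  have hfin2 : (1 - β) / 2 ≤ K * ((q1 : ℝ) ^ ε * (q : ℝ) ^ ε) * X :=
    hfin.trans (mul_le_mul_of_nonneg_right (mul_le_mul_of_nonneg_left hNe hK0.le) hX0)
  have hqe : 0 < (q : ℝ) ^ ε := by positivity
  have hq1e : 0 < (q1 : ℝ) ^ ε := by positivity
  rw [Real.rpow_neg hq.le, div_mul_eq_mul_div, div_le_iff₀ (by positivity)]
  rw [mul_inv_le_iff₀ hqe]
  have e9 : X * (2 * K * (q1 : ℝ) ^ ε) * (q : ℝ) ^ ε =
      2 * (K * ((q1 : ℝ) ^ ε * (q : ℝ) ^ ε) * X) := by ring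
  rw [e9]
  linarith

theorem siegel (ε : ℝ) (hε : 0 < ε) : ∃ c : ℝ, 0 < c ∧ ∀ (q : ℕ) [NeZero q]
    (χ : DirichletCharacter ℂ q), χ.IsPrimitive → χ ^ 2 = 1 → χ ≠ 1 →
      c * (q : ℝ) ^ (-ε) ≤ ‖DirichletCharacter.LFunction χ 1‖ := by
  -- reduce to ε ≤ 1
  suffices hmain : ∀ ε : ℝ, 0 < ε → ε ≤ 1 → ∃ c : ℝ, 0 < c ∧ ∀ (q : ℕ) [NeZero q]
      (χ : DirichletCharacter ℂ q), χ.IsPrimitive → χ ^ 2 = 1 → χ ≠ 1 →
        c * (q : ℝ) ^ (-ε) ≤ ‖DirichletCharacter.LFunction χ 1‖ by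
    rcases le_total ε 1 with h | h
    · exact hmain ε hε h
    · obtain ⟨c, hc, hb⟩ := hmain 1 one_pos le_rfl
      refine ⟨c, hc, ?_⟩
      intro q _ χ h1 h2 h3
      refine le_trans ?_ (hb q χ h1 h2 h3)
      apply mul_le_mul_of_nonneg_left _ hc.le
      apply Real.rpow_le_rpow_of_exponent_le _ (by linarith)
      have : 1 ≤ q := Nat.one_le_iff_ne_zero.mpr (NeZero.ne q)
      exact_mod_cast this
  intro ε hε hε1
  obtain ⟨C, hC, hE⟩ := estermann
  obtain ⟨C2, hC2, hU⟩ := swd3_upper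
  obtain ⟨η0, hη0, hζ⟩ := swd3_zeta
  have hC0 : 0 < C := by linarith
  set η : ℝ := min (min η0 (1 / 16)) (ε / (8 * C)) with hη
  have hηpos : 0 < η := by
    rw [hη]
    exact lt_min (lt_min hη0 (by norm_num)) (by positivity)
  have hη1 : η ≤ η0 := (min_le_left _ _).trans (min_le_left _ _)
  have hη2 : η ≤ 1 / 16 := (min_le_left _ _).trans (min_le_right _ _)
  have hη3 : C * η ≤ ε / 8 := by
    have h1 : η ≤ ε / (8 * C) := min_le_right _ _
    have h2 := mul_le_mul_of_nonneg_left h1 hC0.le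
    have h3 : C * (ε / (8 * C)) = ε / 8 := by
      field_simp
    rw [h3] at h2
    exact h2
  by_cases hex : ∃ (q1 : ℕ) (_ : NeZero q1) (χ1 : DirichletCharacter ℂ q1),
      χ1.IsPrimitive ∧ χ1 ^ 2 = 1 ∧ χ1 ≠ 1
  swap
  · refine ⟨1, one_pos, ?_⟩
    intro q _ χ h1 h2 h3
    exact absurd ⟨q, inferInstance, χ, h1, h2, h3⟩ hex
  -- the fixed character and the point β
  have hfix : ∃ (q1 : ℕ) (_ : NeZero q1) (χ1 : DirichletCharacter ℂ q1) (β : ℝ),
      χ1.IsPrimitive ∧ χ1 ^ 2 = 1 ∧ χ1 ≠ 1 ∧ 1 - η ≤ β ∧ β < 1 ∧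
      ∀ (q : ℕ) [NeZero q] [NeZero (q1 * q)] (χ : DirichletCharacter ℂ q),
      χ ^ 2 = 1 → χ ≠ 1 →
      DirichletCharacter.changeLevel (Nat.dvd_mul_right q1 q) χ1 *
        DirichletCharacter.changeLevel (Nat.dvd_mul_left q q1) χ ≠ 1 →
      (DirichletCharacter.LFunction (1 : DirichletCharacter ℂ (q1 * q)) β *
          DirichletCharacter.LFunction (DirichletCharacter.changeLevel
            (Nat.dvd_mul_right q1 q) χ1) β *
          DirichletCharacter.LFunction (DirichletCharacter.changeLevel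
            (Nat.dvd_mul_left q q1) χ) β *
          DirichletCharacter.LFunction (DirichletCharacter.changeLevel (Nat.dvd_mul_right q1 q) χ1 *
            DirichletCharacter.changeLevel (Nat.dvd_mul_left q q1) χ) β).re ≤ 0 := by
    by_cases hA : ∃ (q1 : ℕ) (_ : NeZero q1) (χ1 : DirichletCharacter ℂ q1) (β : ℝ),
        χ1.IsPrimitive ∧ χ1 ^ 2 = 1 ∧ χ1 ≠ 1 ∧ 1 - η ≤ β ∧ β < 1 ∧
        DirichletCharacter.LFunction χ1 (β : ℂ) = 0
    · obtain ⟨q1, hq1, χ1, β, a1, a2, a3, a4, a5, a6⟩ := hA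
      refine ⟨q1, hq1, χ1, β, a1, a2, a3, a4, a5, ?_⟩
      intro q _ _ χ h2 n2 n3
      rw [DirichletCharacter.LFunction_changeLevel (Nat.dvd_mul_right q1 q) χ1 (Or.inl a3), a6]
      simp
    · have hB : ∀ (q : ℕ) [NeZero q] (χ : DirichletCharacter ℂ q), χ.IsPrimitive → χ ^ 2 = 1 →
          χ ≠ 1 → ∀ x : ℝ, 1 - η ≤ x → x < 1 →
          DirichletCharacter.LFunction χ (x : ℂ) ≠ 0 := by
        intro q _ χ h1 h2 h3 x hx hx1 h0
        exact hA ⟨q, inferInstance, χ, x, h1, h2, h3, hx, hx1, h0⟩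
      obtain ⟨q1, hq1, χ1, a1, a2, a3⟩ := hex
      refine ⟨q1, hq1, χ1, 1 - η, a1, a2, a3, le_rfl, by linarith, ?_⟩
      intro q _ _ χ h2 n2 n3
      apply swd3_caseB η (by linarith) hB
      · rw [← map_pow, a2, map_one]
      · rw [← map_pow, h2, map_one]
      · exact fun h => a3 ((DirichletCharacter.changeLevel_eq_one_iff _).mp h)
      · exact fun h => n2 ((DirichletCharacter.changeLevel_eq_one_iff _).mp h)
      · exact n3
      · exact le_rfl
      · linarith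
      · exact hζ _ (by linarith) (by linarith)
  obtain ⟨q1, hq1, χ1, β, a1, a2, a3, a4, a5, a6⟩ := hfix
  have hβε : C * (1 - β) ≤ ε / 8 := by
    refine le_trans ?_ hη3
    exact mul_le_mul_of_nonneg_left (by linarith) hC0.le
  obtain ⟨c, hc, hb⟩ := swd3_core C C2 hC hC2 hE hU ε hε hε1 β (by linarith) a5 hβε q1 χ1 a2 a3
  have hL1 : 0 < ‖DirichletCharacter.LFunction χ1 1‖ :=
    norm_pos_iff.mpr (DirichletCharacter.LFunction_apply_one_ne_zero a3)
  refine ⟨min c ‖DirichletCharacter.LFunction χ1 1‖, lt_min hc hL1, ?_⟩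
  intro q _ χ h1 h2 h3
  have hqpos : 0 < (q : ℝ) ^ (-ε) := by
    have : 0 < q := Nat.pos_of_ne_zero (NeZero.ne q)
    have : (0 : ℝ) < q := by exact_mod_cast this
    positivity
  have : NeZero (q1 * q) := ⟨Nat.mul_ne_zero (NeZero.ne q1) (NeZero.ne q)⟩
  by_cases hprod : DirichletCharacter.changeLevel (Nat.dvd_mul_right q1 q) χ1 *
        DirichletCharacter.changeLevel (Nat.dvd_mul_left q q1) χ = 1
  · obtain ⟨e, he⟩ := swd3_eq χ1 χ a1 h1 h2 hprod
    subst e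
    simp only [] at he
    subst he
    have hq1' : (q : ℝ) ^ (-ε) ≤ 1 := by
      apply Real.rpow_le_one_of_one_le_of_nonpos
      · have : 1 ≤ q := Nat.one_le_iff_ne_zero.mpr (NeZero.ne q)
        exact_mod_cast this
      · linarith
    calc min c ‖DirichletCharacter.LFunction χ 1‖ * (q : ℝ) ^ (-ε)
        ≤ ‖DirichletCharacter.LFunction χ 1‖ * (q : ℝ) ^ (-ε) :=
          mul_le_mul_of_nonneg_right (min_le_right _ _) hqpos.le
      _ ≤ ‖DirichletCharacter.LFunction χ 1‖ * 1 :=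
          mul_le_mul_of_nonneg_left hq1' (norm_nonneg _)
      _ = _ := mul_one _
  · refine le_trans ?_ (hb q (q1 * q) rfl _ _ χ h2 h3 hprod (a6 q χ h2 h3 hprod))
    exact mul_le_mul_of_nonneg_right (min_le_left _ _) hqpos.le

end Pool.Agent.H91.EHA

end

section

/-!
# Combined lower bound

Combine `L_lower_complex`, `L_lower_real`, `siegel` and
`log(q(|t|+2)) ≤ C_ε q^{ε/20} log(|t|+3)`.
-/

set_option autoImplicit false

namespace Pool.Agent.H91.EHA

open Finset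

private theorem swe_log (δ : ℝ) (hδ : 0 < δ) (q : ℕ) (hq : 2 ≤ q) (t : ℝ) :
    0 < Real.log (q * (|t| + 2)) ∧
      Real.log (q * (|t| + 2)) ≤ (1 / δ + 1) * ((q : ℝ) ^ δ * Real.log (|t| + 3)) := by
  have hq1 : (2 : ℝ) ≤ q := by exact_mod_cast hq
  have ht : 0 ≤ |t| := abs_nonneg t
  have h3 : 1 ≤ Real.log (|t| + 3) := by
    rw [Real.le_log_iff_exp_le (by linarith)]
    have := Real.exp_one_lt_d9
    linarith
  have hqd : 1 ≤ (q : ℝ) ^ δ := Real.one_le_rpow (by linarith) hδ.le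
  refine ⟨Real.log_pos (by nlinarith), ?_⟩
  rw [Real.log_mul (by linarith) (by linarith)]
  have h1 : Real.log q ≤ (q : ℝ) ^ δ / δ := Real.log_le_rpow_div (by linarith) hδ
  have h2 : Real.log (|t| + 2) ≤ Real.log (|t| + 3) :=
    Real.log_le_log (by linarith) (by linarith)
  have h4 : (q : ℝ) ^ δ / δ ≤ (q : ℝ) ^ δ / δ * Real.log (|t| + 3) :=
    le_mul_of_one_le_right (by positivity) h3
  have h5 : Real.log (|t| + 3) ≤ (q : ℝ) ^ δ * Real.log (|t| + 3) :=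
    le_mul_of_one_le_left (by linarith) hqd
  calc Real.log q + Real.log (|t| + 2) ≤
      (q : ℝ) ^ δ / δ * Real.log (|t| + 3) + (q : ℝ) ^ δ * Real.log (|t| + 3) := by linarith
    _ = _ := by ring

private theorem swe_low (ε : ℝ) (hε : 0 < ε) (c : ℝ) (hc : 0 < c) (q : ℕ) (hq : 2 ≤ q) (t : ℝ) :
    c / (1 / (ε / 9) + 1) ^ 9 * ((q : ℝ) ^ (-ε) / Real.log (|t| + 3) ^ 9) ≤
      c / Real.log (q * (|t| + 2)) ^ 9 := by
  obtain ⟨h0, h1⟩ := swe_log (ε / 9) (by positivity) q hq t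
  have hq0 : (0 : ℝ) < q := by exact_mod_cast (by omega : 0 < q)
  have h3 : 0 < Real.log (|t| + 3) := by
    apply Real.log_pos
    have := abs_nonneg t
    linarith
  have h4 : Real.log (q * (|t| + 2)) ^ 9 ≤
      ((1 / (ε / 9) + 1) * ((q : ℝ) ^ (ε / 9) * Real.log (|t| + 3))) ^ 9 :=
    pow_le_pow_left₀ h0.le h1 9
  have h5 : ((q : ℝ) ^ (ε / 9)) ^ 9 = (q : ℝ) ^ ε := by
    rw [← Real.rpow_natCast, ← Real.rpow_mul hq0.le]
    congr 1
    push_cast
    ring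
  have h6 : c / (1 / (ε / 9) + 1) ^ 9 * ((q : ℝ) ^ (-ε) / Real.log (|t| + 3) ^ 9) =
      c / ((1 / (ε / 9) + 1) * ((q : ℝ) ^ (ε / 9) * Real.log (|t| + 3))) ^ 9 := by
    rw [mul_pow, mul_pow, h5, Real.rpow_neg hq0.le]
    have h7 : (q : ℝ) ^ ε ≠ 0 := (Real.rpow_pos_of_pos hq0 _).ne'
    field_simp
  rw [h6]
  exact div_le_div_of_nonneg_left hc.le (by positivity) h4

theorem L_low (ε : ℝ) (hε : 0 < ε) : ∃ c : ℝ, 0 < c ∧ ∀ q : ℕ, 2 ≤ q →
    ∀ χ : DirichletCharacter ℂ q, χ.IsPrimitive → ∀ s : ℂ, 1 < s.re → s.re ≤ 2 →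
      c * (q : ℝ) ^ (-ε) / Real.log (|s.im| + 3) ^ 9 ≤ ‖Lk q χ 0 s‖ := by
  obtain ⟨c1, hc1, h1⟩ := L_lower_complex
  obtain ⟨c2, hc2, h2⟩ := L_lower_real
  obtain ⟨c3, hc3, h3⟩ := siegel (ε / 2) (by positivity)
  have hK : 0 < (1 / (ε / 9) + 1) ^ 9 := by positivity
  have hK' : 0 < (1 / (ε / 2 / 9) + 1) ^ 9 := by positivity
  refine ⟨min (c1 / (1 / (ε / 9) + 1) ^ 9) (c2 * c3 / (1 / (ε / 2 / 9) + 1) ^ 9),
    lt_min (by positivity) (by positivity), ?_⟩
  intro q hq χ hχ s hs1 hs2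
  have : NeZero q := ⟨by omega⟩
  have hq0 : (0 : ℝ) < q := by exact_mod_cast (by omega : 0 < q)
  have hlog : 0 < Real.log (|s.im| + 3) := by
    apply Real.log_pos
    have := abs_nonneg s.im
    linarith
  have hne : χ ≠ 1 := by
    rintro rfl
    have h4 : DirichletCharacter.conductor (1 : DirichletCharacter ℂ q) = q := hχ
    rw [DirichletCharacter.conductor_one] at h4
    omega
  by_cases hsq : χ ^ 2 = 1
  · refine le_trans ?_ (h2 q hq χ hne hsq s hs1 hs2)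
    have h4 := h3 q χ hχ hsq hne
    have h5 := swe_low (ε / 2) (by positivity) (c2 * (c3 * (q : ℝ) ^ (-(ε / 2)))) (by positivity)
      q hq s.im
    have h6 : c2 * (c3 * (q : ℝ) ^ (-(ε / 2))) / Real.log (q * (|s.im| + 2)) ^ 9 ≤
        c2 * ‖DirichletCharacter.LFunction χ 1‖ / Real.log (q * (|s.im| + 2)) ^ 9 := by
      have h7 := (swe_log 1 one_pos q hq s.im).1
      gcongr
    refine le_trans ?_ (h5.trans h6)
    have h8 : (q : ℝ) ^ (-ε) = (q : ℝ) ^ (-(ε / 2)) * (q : ℝ) ^ (-(ε / 2)) := by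
      rw [← Real.rpow_add hq0]
      congr 1
      ring
    rw [h8]
    calc min (c1 / (1 / (ε / 9) + 1) ^ 9) (c2 * c3 / (1 / (ε / 2 / 9) + 1) ^ 9) *
          ((q : ℝ) ^ (-(ε / 2)) * (q : ℝ) ^ (-(ε / 2))) / Real.log (|s.im| + 3) ^ 9
        ≤ (c2 * c3 / (1 / (ε / 2 / 9) + 1) ^ 9) *
          ((q : ℝ) ^ (-(ε / 2)) * (q : ℝ) ^ (-(ε / 2))) / Real.log (|s.im| + 3) ^ 9 := by
          have := min_le_right (c1 / (1 / (ε / 9) + 1) ^ 9)
            (c2 * c3 / (1 / (ε / 2 / 9) + 1) ^ 9)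
          gcongr
      _ = _ := by ring
  · refine le_trans ?_ (h1 q hq χ hne hsq s hs1 hs2)
    refine le_trans ?_ (swe_low ε hε c1 hc1 q hq s.im)
    rw [mul_div_assoc]
    exact mul_le_mul_of_nonneg_right (min_le_left _ _) (by positivity)

end Pool.Agent.H91.EHA

end

section

/-!
# Bounds for the series of `Λ(n) χ(n) (log n)^k`

`Lk (k+1) = ∑_{i ≤ k} binom(k,i) Lk i · Fk (k-i)` (from `log = Λ * 1`; `k = 0`:
`Lk 1 = Lk 0 · Fk 0`, Mathlib `DirichletCharacter.deriv_LFunction...` / `LSeries_vonMangoldt...`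
(`ArithmeticFunction.LSeries_vonMangoldt_eq`, `LSeries_twist_vonMangoldt_eq`); differentiate `k` times with
`Lk_hasDeriv` and `Fk_hasDeriv`).  Solve for `Fk k` and use induction, `L_low (ε')`, `Lk_le`:
`‖Fk k‖ ≤ C q^{ε'...} (log(|t|+3))^{20(k+1)}`; note `log(q(|t|+2)) ≤ C q^{ε'} log(|t|+3)`.
Exponent check: `9 + (k+2) ≤ 20(k+1)` and `9 + (i+1) + 20(k-i+1) ≤ 20(k+1)` for `i ≥ 1`.
-/

set_option autoImplicit false

namespace Pool.Agent.H91.EHA

open Finset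

theorem Fk_summable (q : ℕ) (χ : DirichletCharacter ℂ q) (k : ℕ) (s : ℂ) (hs : 1 < s.re) :
    LSeriesSummable (fun n => ((Lam n * Real.log n ^ k : ℝ) : ℂ) * χ (n : ZMod q)) s := by
  refine Summable.of_norm_bounded (Lk_summable q χ (k + 1) s hs).norm ?_
  intro n
  apply LSeries.norm_term_le
  have hlog : 0 ≤ Real.log n := Real.log_natCast_nonneg n
  have hLam : Lam n ≤ Real.log n := ArithmeticFunction.vonMangoldt_le_log
  have hLam0 : 0 ≤ Lam n := ArithmeticFunction.vonMangoldt_nonneg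
  rw [norm_mul, norm_mul]
  refine mul_le_mul_of_nonneg_right ?_ (norm_nonneg _)
  rw [norm_pow, Complex.norm_real, Complex.norm_real, Real.norm_eq_abs, Real.norm_eq_abs,
    abs_of_nonneg (mul_nonneg hLam0 (pow_nonneg hlog k)), abs_of_nonneg hlog, pow_succ,
    mul_comm (Real.log n ^ k)]
  exact mul_le_mul_of_nonneg_right hLam (pow_nonneg hlog k)

theorem Fk_hasDeriv (q : ℕ) (χ : DirichletCharacter ℂ q) (k : ℕ) (s : ℂ) (hs : 1 < s.re) :
    HasDerivAt (Fk q χ k) (-(Fk q χ (k + 1) s)) s := by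
  have habs : LSeries.abscissaOfAbsConv
      (fun n : ℕ => ((Lam n * Real.log n ^ k : ℝ) : ℂ) * χ (n : ZMod q)) < s.re := by
    refine lt_of_le_of_lt (b := ((1 : ℝ) : EReal)) ?_ (by exact_mod_cast hs)
    apply LSeries.abscissaOfAbsConv_le_of_forall_lt_LSeriesSummable
    intro y hy
    exact Fk_summable q χ k y (by simpa using hy)
  have h := LSeries_hasDerivAt habs
  have he : LSeries (LSeries.logMul
      (fun n : ℕ => ((Lam n * Real.log n ^ k : ℝ) : ℂ) * χ (n : ZMod q))) s =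
      Fk q χ (k + 1) s := by
    unfold Fk
    apply LSeries_congr
    intro n _
    unfold LSeries.logMul
    rw [← Complex.natCast_log]
    push_cast
    ring
  rw [he] at h
  exact h

private theorem swf_one (q : ℕ) (χ : DirichletCharacter ℂ q) (s : ℂ) (hs : 1 < s.re) :
    Lk q χ 1 s = Lk q χ 0 s * Fk q χ 0 s := by
  have hL0 : Lk q χ 0 = LSeries (fun n => χ (n : ZMod q)) := by
    funext z
    unfold Lk
    apply LSeries_congr
    intro n _
    simp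
  have hF0 : Fk q χ 0 s = LSeries ((fun n : ℕ => χ (n : ZMod q)) *
      (fun n : ℕ => (ArithmeticFunction.vonMangoldt n : ℂ))) s := by
    unfold Fk
    apply LSeries_congr
    intro n _
    simp only [Pi.mul_apply, Lam, pow_zero, mul_one]
    ring
  have h1 := DirichletCharacter.LSeries_twist_vonMangoldt_eq χ hs
  have h2 := (Lk_hasDeriv q χ 0 s hs).deriv
  have h3 := DirichletCharacter.LSeries_ne_zero_of_one_lt_re χ hs
  rw [hF0, h1, hL0]
  rw [hL0] at h2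
  rw [h2, neg_neg, zero_add]
  field_simp

private theorem swf_pascal (a b : ℕ → ℂ) (k : ℕ) :
    ∑ i ∈ range (k + 1), (k.choose i : ℂ) * (a (i + 1) * b (k - i) + a i * b (k - i + 1)) =
      ∑ i ∈ range (k + 1 + 1), ((k + 1).choose i : ℂ) * (a i * b (k + 1 - i)) := by
  rw [Finset.sum_range_succ' (fun i => ((k + 1).choose i : ℂ) * (a i * b (k + 1 - i)))]
  have h1 : ∀ i ∈ range (k + 1), ((k + 1).choose (i + 1) : ℂ) * (a (i + 1) * b (k + 1 - (i + 1))) =
      (k.choose i : ℂ) * (a (i + 1) * b (k - i)) +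
        (k.choose (i + 1) : ℂ) * (a (i + 1) * b (k + 1 - (i + 1))) := by
    intro i _
    rw [Nat.choose_succ_succ, Nat.add_sub_add_right]
    push_cast
    ring
  rw [Finset.sum_congr rfl h1, Finset.sum_add_distrib]
  have h2 : ∑ i ∈ range (k + 1), (k.choose (i + 1) : ℂ) * (a (i + 1) * b (k + 1 - (i + 1))) +
      ((k + 1).choose 0 : ℂ) * (a 0 * b (k + 1 - 0)) =
      ∑ i ∈ range (k + 1), (k.choose i : ℂ) * (a i * b (k - i + 1)) := by
    have h3 := Finset.sum_range_succ' (fun i => (k.choose i : ℂ) * (a i * b (k + 1 - i))) (k + 1)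
    have h4 := Finset.sum_range_succ (fun i => (k.choose i : ℂ) * (a i * b (k + 1 - i))) (k + 1)
    rw [Nat.choose_succ_self, Nat.cast_zero, zero_mul, add_zero] at h4
    rw [Nat.choose_zero_right]
    rw [Nat.choose_zero_right] at h3
    rw [← h3, h4]
    apply Finset.sum_congr rfl
    intro i hi
    rw [Finset.mem_range] at hi
    rw [show k + 1 - i = k - i + 1 by omega]
  rw [add_assoc, h2, ← Finset.sum_add_distrib]
  apply Finset.sum_congr rfl
  intro i _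
  ring

theorem Lk_succ_eq (q : ℕ) (χ : DirichletCharacter ℂ q) (k : ℕ) (s : ℂ) (hs : 1 < s.re) :
    Lk q χ (k + 1) s = ∑ i ∈ range (k + 1), (k.choose i : ℂ) * (Lk q χ i s * Fk q χ (k - i) s) := by
  induction k generalizing s with
  | zero =>
    rw [zero_add, swf_one q χ s hs]
    simp
  | succ k ih =>
    have h1 := Lk_hasDeriv q χ (k + 1) s hs
    have h2 : HasDerivAt (fun z => ∑ i ∈ range (k + 1),
        (k.choose i : ℂ) * (Lk q χ i z * Fk q χ (k - i) z))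
        (∑ i ∈ range (k + 1), (k.choose i : ℂ) *
          (-(Lk q χ (i + 1) s) * Fk q χ (k - i) s + Lk q χ i s * -(Fk q χ (k - i + 1) s))) s := by
      apply HasDerivAt.fun_sum
      intro i _
      exact ((Lk_hasDeriv q χ i s hs).mul (Fk_hasDeriv q χ (k - i) s hs)).const_mul _
    have h3 : (fun z => ∑ i ∈ range (k + 1), (k.choose i : ℂ) * (Lk q χ i z * Fk q χ (k - i) z))
        =ᶠ[nhds s] Lk q χ (k + 1) := by
      have hopen : IsOpen {z : ℂ | 1 < z.re} := isOpen_lt continuous_const Complex.continuous_re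
      filter_upwards [hopen.mem_nhds hs] with z hz
      exact (ih z hz).symm
    have h4 := (h1.congr_of_eventuallyEq h3).unique h2
    have h5 : Lk q χ (k + 1 + 1) s = ∑ i ∈ range (k + 1), (k.choose i : ℂ) *
          (Lk q χ (i + 1) s * Fk q χ (k - i) s + Lk q χ i s * Fk q χ (k - i + 1) s) := by
      rw [← neg_neg (Lk q χ (k + 1 + 1) s), h4, ← Finset.sum_neg_distrib]
      apply Finset.sum_congr rfl
      intro i _
      ring
    rw [h5]
    exact swf_pascal (fun i => Lk q χ i s) (fun j => Fk q χ j s) k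

/-- powers of `1 + log q` -/
private theorem swf_logpow (m : ℕ) (ε : ℝ) (hε : 0 < ε) : ∃ C : ℝ, 0 < C ∧ ∀ q : ℕ, 2 ≤ q →
    (1 + Real.log q) ^ (m + 1) ≤ C * (q : ℝ) ^ ε := by
  set δ : ℝ := ε / (m + 1) with hδ
  have hm : (0 : ℝ) < m + 1 := by positivity
  have hδ0 : 0 < δ := by positivity
  refine ⟨(1 + 1 / δ) ^ (m + 1), by positivity, ?_⟩
  intro q hq
  have hq1 : (1 : ℝ) ≤ q := by exact_mod_cast (by omega : 1 ≤ q)
  have h1 : Real.log q ≤ (q : ℝ) ^ δ / δ := Real.log_le_rpow_div (by linarith) hδ0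
  have h2 : (1 : ℝ) ≤ (q : ℝ) ^ δ := Real.one_le_rpow hq1 hδ0.le
  have h3 : 1 + Real.log q ≤ (1 + 1 / δ) * (q : ℝ) ^ δ := by
    have : (1 + 1 / δ) * (q : ℝ) ^ δ = (q : ℝ) ^ δ + (q : ℝ) ^ δ / δ := by ring
    rw [this]
    linarith
  have h0 : 0 ≤ 1 + Real.log q := by
    have := Real.log_nonneg hq1
    linarith
  calc (1 + Real.log q) ^ (m + 1) ≤ ((1 + 1 / δ) * (q : ℝ) ^ δ) ^ (m + 1) :=
        pow_le_pow_left₀ h0 h3 _
    _ = (1 + 1 / δ) ^ (m + 1) * (q : ℝ) ^ ε := by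
        rw [mul_pow, ← Real.rpow_natCast ((q : ℝ) ^ δ), ← Real.rpow_mul (by linarith)]
        congr 2
        rw [hδ]
        push_cast
        field_simp

private theorem swf_ell (t : ℝ) : 1 ≤ Real.log (|t| + 3) := by
  have h1 : Real.exp 1 ≤ |t| + 3 := by
    have := Real.exp_one_lt_d9
    have := abs_nonneg t
    linarith
  have h2 : 0 < |t| + 3 := by
    have := abs_nonneg t
    linarith
  rwa [Real.le_log_iff_exp_le h2]

/-- `Lk j` in terms of `q ^ ε` and `log (|t| + 3)` -/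
private theorem swf_Lk (j : ℕ) (ε : ℝ) (hε : 0 < ε) : ∃ C : ℝ, 0 < C ∧ ∀ q : ℕ, 2 ≤ q →
    ∀ χ : DirichletCharacter ℂ q, χ ≠ 1 → ∀ s : ℂ, 1 < s.re → s.re ≤ 2 →
      ‖Lk q χ j s‖ ≤ C * (q : ℝ) ^ ε * Real.log (|s.im| + 3) ^ (j + 1) := by
  obtain ⟨C1, hC1, h1⟩ := Lk_le j
  obtain ⟨C2, hC2, h2⟩ := swf_logpow j ε hε
  refine ⟨C1 * C2, by positivity, ?_⟩
  intro q hq χ hχ s hs hs2
  have hq0 : (0 : ℝ) < q := by exact_mod_cast (by omega : 0 < q)
  have hq1 : (1 : ℝ) ≤ q := by exact_mod_cast (by omega : 1 ≤ q)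
  have hlq : 0 ≤ Real.log q := Real.log_nonneg hq1
  have ht := abs_nonneg s.im
  have hell := swf_ell s.im
  have h3 : Real.log (q * (|s.im| + 2)) ≤ (1 + Real.log q) * Real.log (|s.im| + 3) := by
    rw [Real.log_mul hq0.ne' (by linarith)]
    have h4 : Real.log (|s.im| + 2) ≤ Real.log (|s.im| + 3) :=
      Real.log_le_log (by linarith) (by linarith)
    nlinarith
  have h5 : 0 ≤ Real.log (q * (|s.im| + 2)) := by
    apply Real.log_nonneg
    nlinarith
  calc ‖Lk q χ j s‖ ≤ C1 * Real.log (q * (|s.im| + 2)) ^ (j + 1) := h1 q hq χ hχ s hs hs2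
    _ ≤ C1 * ((1 + Real.log q) * Real.log (|s.im| + 3)) ^ (j + 1) := by
        apply mul_le_mul_of_nonneg_left _ hC1.le
        exact pow_le_pow_left₀ h5 h3 _
    _ = C1 * (1 + Real.log q) ^ (j + 1) * Real.log (|s.im| + 3) ^ (j + 1) := by
        rw [mul_pow]
        ring
    _ ≤ C1 * (C2 * (q : ℝ) ^ ε) * Real.log (|s.im| + 3) ^ (j + 1) := by
        apply mul_le_mul_of_nonneg_right _ (pow_nonneg (by linarith) _)
        exact mul_le_mul_of_nonneg_left (h2 q hq) hC1.le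
    _ = C1 * C2 * (q : ℝ) ^ ε * Real.log (|s.im| + 3) ^ (j + 1) := by ring

theorem Fk_le (k : ℕ) (ε : ℝ) (hε : 0 < ε) : ∃ C : ℝ, 0 < C ∧ ∀ q : ℕ, 2 ≤ q →
    ∀ χ : DirichletCharacter ℂ q, χ.IsPrimitive → ∀ s : ℂ, 1 < s.re → s.re ≤ 2 →
      ‖Fk q χ k s‖ ≤ C * (q : ℝ) ^ ε * Real.log (|s.im| + 3) ^ (20 * (k + 1)) := by
  induction k using Nat.strong_induction_on generalizing ε with
  | _ k ih =>
    set δ : ℝ := ε / 3 with hδ
    have hδ0 : 0 < δ := by positivity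
    obtain ⟨c, hc, hlow⟩ := L_low δ hδ0
    have hLK : ∀ j : ℕ, ∃ C : ℝ, 0 < C ∧ ∀ q : ℕ, 2 ≤ q →
      ∀ χ : DirichletCharacter ℂ q, χ ≠ 1 → ∀ s : ℂ, 1 < s.re → s.re ≤ 2 →
        ‖Lk q χ j s‖ ≤ C * (q : ℝ) ^ δ * Real.log (|s.im| + 3) ^ (j + 1) :=
      fun j => swf_Lk j δ hδ0
    choose B hB0 hB using hLK
    have hFK : ∀ j : ℕ, ∃ C : ℝ, 0 < C ∧ (j < k → ∀ q : ℕ, 2 ≤ q →
      ∀ χ : DirichletCharacter ℂ q, χ.IsPrimitive → ∀ s : ℂ, 1 < s.re → s.re ≤ 2 →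
        ‖Fk q χ j s‖ ≤ C * (q : ℝ) ^ δ * Real.log (|s.im| + 3) ^ (20 * (j + 1))) := by
      intro j
      by_cases hj : j < k
      · obtain ⟨C, hC, h⟩ := ih j hj δ hδ0
        exact ⟨C, hC, fun _ => h⟩
      · exact ⟨1, one_pos, fun h => absurd h hj⟩
    choose A hA0 hA using hFK
    set S : ℝ := B (k + 1) + ∑ i ∈ range k, (k.choose (i + 1) : ℝ) * (B (i + 1) * A (k - (i + 1)))
      with hS
    have hS0 : 0 < S := by
      have : 0 ≤ ∑ i ∈ range k, (k.choose (i + 1) : ℝ) * (B (i + 1) * A (k - (i + 1))) := by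
        apply Finset.sum_nonneg
        intro i _
        exact mul_nonneg (Nat.cast_nonneg _) (mul_nonneg (hB0 _).le (hA0 _).le)
      have := hB0 (k + 1)
      linarith
    refine ⟨S / c, by positivity, ?_⟩
    intro q hq χ hχ s hs hs2
    have : NeZero q := ⟨by omega⟩
    have hχ1 : χ ≠ 1 := by
      rintro rfl
      have h1 : DirichletCharacter.conductor (1 : DirichletCharacter ℂ q) = q := hχ
      rw [DirichletCharacter.conductor_one] at h1
      omega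
    have hq0 : (0 : ℝ) < q := by exact_mod_cast (by omega : 0 < q)
    have hq1 : (1 : ℝ) ≤ q := by exact_mod_cast (by omega : 1 ≤ q)
    set l : ℝ := Real.log (|s.im| + 3) with hl
    have hl1 : 1 ≤ l := swf_ell s.im
    have hl0 : 0 < l := by linarith
    set Q : ℝ := (q : ℝ) ^ δ with hQ
    have hQ1 : 1 ≤ Q := Real.one_le_rpow hq1 hδ0.le
    have hQ0 : 0 < Q := by linarith
    have hQ3 : (q : ℝ) ^ ε = Q ^ 3 := by
      rw [hQ, ← Real.rpow_natCast ((q : ℝ) ^ δ), ← Real.rpow_mul hq0.le]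
      congr 1
      rw [hδ]
      push_cast
      ring
    have hlow' := hlow q hq χ hχ s hs hs2
    rw [Real.rpow_neg hq0.le, ← hQ, ← hl] at hlow'
    have hL0pos : 0 < ‖Lk q χ 0 s‖ := lt_of_lt_of_le (by positivity) hlow'
    -- solve for `Fk k`
    have heq := Lk_succ_eq q χ k s hs
    rw [Finset.sum_range_succ'] at heq
    simp only [Nat.choose_zero_right, Nat.cast_one, one_mul, Nat.sub_zero] at heq
    have hbound : ‖Lk q χ 0 s‖ * ‖Fk q χ k s‖ ≤ S * Q ^ 2 * l ^ (20 * (k + 1) - 9) := by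
      rw [← norm_mul]
      have h1 : Lk q χ 0 s * Fk q χ k s = Lk q χ (k + 1) s -
          ∑ i ∈ range k, (k.choose (i + 1) : ℂ) * (Lk q χ (i + 1) s * Fk q χ (k - (i + 1)) s) := by
        rw [heq]
        ring
      rw [h1]
      have h2 : ‖Lk q χ (k + 1) s‖ ≤ B (k + 1) * Q ^ 2 * l ^ (20 * (k + 1) - 9) := by
        refine (hB (k + 1) q hq χ hχ1 s hs hs2).trans ?_
        have h3 : Q ≤ Q ^ 2 := by nlinarith
        have h4 : l ^ (k + 1 + 1) ≤ l ^ (20 * (k + 1) - 9) := pow_le_pow_right₀ hl1 (by omega)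
        have h5 := hB0 (k + 1)
        gcongr
      have h6 : ∀ i ∈ range k, ‖(k.choose (i + 1) : ℂ) *
          (Lk q χ (i + 1) s * Fk q χ (k - (i + 1)) s)‖ ≤
          ((k.choose (i + 1) : ℝ) * (B (i + 1) * A (k - (i + 1)))) * Q ^ 2 *
            l ^ (20 * (k + 1) - 9) := by
        intro i hi
        rw [Finset.mem_range] at hi
        rw [norm_mul, norm_mul, Complex.norm_natCast]
        have h7 := hB (i + 1) q hq χ hχ1 s hs hs2
        have h8 := hA (k - (i + 1)) (by omega) q hq χ hχ s hs hs2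
        rw [← hQ, ← hl] at h7 h8
        have h9 : l ^ (i + 1 + 1) * l ^ (20 * (k - (i + 1) + 1)) ≤ l ^ (20 * (k + 1) - 9) := by
          rw [← pow_add]
          exact pow_le_pow_right₀ hl1 (by omega)
        have hAk := hA0 (k - (i + 1))
        have hBk := hB0 (i + 1)
        calc (k.choose (i + 1) : ℝ) * (‖Lk q χ (i + 1) s‖ * ‖Fk q χ (k - (i + 1)) s‖)
            ≤ (k.choose (i + 1) : ℝ) * ((B (i + 1) * Q * l ^ (i + 1 + 1)) *
                (A (k - (i + 1)) * Q * l ^ (20 * (k - (i + 1) + 1)))) := by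
              apply mul_le_mul_of_nonneg_left _ (Nat.cast_nonneg _)
              exact mul_le_mul h7 h8 (norm_nonneg _) (by positivity)
          _ = (k.choose (i + 1) : ℝ) * (B (i + 1) * A (k - (i + 1))) * Q ^ 2 *
                (l ^ (i + 1 + 1) * l ^ (20 * (k - (i + 1) + 1))) := by ring
          _ ≤ _ := by
              apply mul_le_mul_of_nonneg_left h9
              positivity
      calc ‖Lk q χ (k + 1) s - ∑ i ∈ range k, (k.choose (i + 1) : ℂ) *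
            (Lk q χ (i + 1) s * Fk q χ (k - (i + 1)) s)‖
          ≤ ‖Lk q χ (k + 1) s‖ + ‖∑ i ∈ range k, (k.choose (i + 1) : ℂ) *
            (Lk q χ (i + 1) s * Fk q χ (k - (i + 1)) s)‖ := norm_sub_le _ _
        _ ≤ B (k + 1) * Q ^ 2 * l ^ (20 * (k + 1) - 9) +
            ∑ i ∈ range k, ((k.choose (i + 1) : ℝ) * (B (i + 1) * A (k - (i + 1)))) * Q ^ 2 *
            l ^ (20 * (k + 1) - 9) := by
            apply add_le_add h2
            exact (norm_sum_le _ _).trans (Finset.sum_le_sum h6)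
        _ = S * Q ^ 2 * l ^ (20 * (k + 1) - 9) := by
            rw [hS, ← Finset.sum_mul, ← Finset.sum_mul]
            ring
    have hfin : c * Q⁻¹ / l ^ 9 * ‖Fk q χ k s‖ ≤ S * Q ^ 2 * l ^ (20 * (k + 1) - 9) :=
      (mul_le_mul_of_nonneg_right hlow' (norm_nonneg _)).trans hbound
    have hpw : l ^ (20 * (k + 1)) = l ^ (20 * (k + 1) - 9) * l ^ 9 := by
      have h11 : 20 * (k + 1) - 9 + 9 = 20 * (k + 1) := by omega
      rw [← pow_add, h11]
    rw [hQ3, hpw]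
    have h10 : ‖Fk q χ k s‖ = (c * Q⁻¹ / l ^ 9 * ‖Fk q χ k s‖) * (Q * l ^ 9 / c) := by
      field_simp
    rw [h10]
    calc (c * Q⁻¹ / l ^ 9 * ‖Fk q χ k s‖) * (Q * l ^ 9 / c)
        ≤ (S * Q ^ 2 * l ^ (20 * (k + 1) - 9)) * (Q * l ^ 9 / c) :=
          mul_le_mul_of_nonneg_right hfin (by positivity)
      _ = S / c * Q ^ 3 * (l ^ (20 * (k + 1) - 9) * l ^ 9) := by ring

end Pool.Agent.H91.EHA

end
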