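import Pool.Agent.H43.PM.M19
import Pool.Agent.H43.PM.M22
import Pool.Agent.H43.PM.M24

/-! The parts of this file: H76.VKT.VkChiW, H76.VKT.FkUp, H76.VKT.PSum. -/

section

/-!
# VKT (H97/VK of helper97 with the parameter `T0.t` in place of `9/10`, `t1` in place of `19/20`) VkChiW: `∑_{n≤z} Λ(n) χ(n) n^{it} ≤ z/L^K` for `z ≥ exp(L^{19/20})`

The same proof as in VkChi with `sm_sharp_w`, `ℓ = log 2z ≥ L^{19/20}`, `k = 20 (3κ + K + 3)`.

Proof.  `κ = K + 3`, `k = 10 (3κ + K + 3)`, `sm_sharp k κ B`.  With `a_n = Λ(n) (log n)^k ψ(n) ee(t log n)`, `ψ = ch x χ`, `w = ⌊√z⌋`: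
`∑_{w<n≤z} Λ(n) ψ(n) ee(t log n) = ∑_{w<n≤z} a_n (log n)^{-k}`; Abel summation with the decreasing positive weights `(log n)^{-k} ≤ (e0 L/3)^{-k}`
(`log n ≥ log w ≥ e0 L/3`): at most `4 (3/(e0 L))^k max_{v≤z} ‖∑_{n≤v} a_n‖
 ≤ C z L^{-k} (L^{(9/10)(k+1)} LL^{20(k+1)} L^{3κ} + L^{k+1-κ}) ≤ C z (L^{9/10 - k/10 + 3κ} LL^{20(k+1)} + L^{1-κ}) ≤ z/(4 L^K)`.
The terms `n ≤ w` contribute at most `√z · log z`.  Finally `Λ(n) (χ(n) - ψ(n)) = 0` unless `n` is a power of a prime `≤ y = Yx x` (`ch_apply`): the difference is at most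
`∑_{p ≤ y} log z`-ish `≤ y (log z + 1) ≤ z/(4 L^K)` as `log y ≤ L^{9/10}`, `log z ≥ e0 L`.
(The sum of `Λ` over the powers `≤ z` of one prime is `≤ log z`.)
-/

set_option autoImplicit false

namespace Pool.Agent.H76.VKT

open Finset
open Pool.Agent.H91.EHA
open Pool.Agent.H91.PK (ee)

private theorem VkChiW_abel (f : ℕ → ℂ) (g : ℕ → ℝ) (M : ℝ) (w z : ℕ) (hwz : w < z)
    (hM : ∀ v ≤ z, ‖∑ n ∈ Icc 1 v, f n‖ ≤ M) (hg0 : ∀ n, w < n → 0 ≤ g n)
    (hg : ∀ n, w < n → g (n + 1) ≤ g n) :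
    ‖∑ n ∈ Ioc w z, (g n : ℂ) * f n‖ ≤ 2 * M * g (w + 1) := by
  have key : ∀ m : ℕ, w + 1 ≤ m → m ≤ z →
      ‖∑ n ∈ Ioc w m, (g n : ℂ) * f n - (g m : ℂ) * ∑ n ∈ Icc 1 m, f n‖ ≤
        M * (2 * g (w + 1) - g m) := by
    intro m hm
    induction m, hm using Nat.le_induction with
    | base =>
      intro hz
      rw [sum_Ioc_succ_top le_rfl, Ioc_self, sum_empty, zero_add,
        sum_Icc_succ_top (show 1 ≤ w + 1 by omega)]
      have h1 : (g (w + 1) : ℂ) * f (w + 1) -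
          (g (w + 1) : ℂ) * (∑ k ∈ Icc 1 w, f k + f (w + 1)) =
          -((g (w + 1) : ℂ) * ∑ k ∈ Icc 1 w, f k) := by ring
      rw [h1, norm_neg, norm_mul, Complex.norm_real, Real.norm_of_nonneg (hg0 _ (by omega))]
      have h2 := hM w (by omega)
      have h3 := hg0 (w + 1) (by omega)
      nlinarith
    | succ m hm ih =>
      intro hz
      have h1 := ih (by omega)
      rw [sum_Ioc_succ_top (show w ≤ m by omega), sum_Icc_succ_top (show 1 ≤ m + 1 by omega)]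
      have h2 : ∑ k ∈ Ioc w m, (g k : ℂ) * f k + (g (m + 1) : ℂ) * f (m + 1) -
          (g (m + 1) : ℂ) * (∑ k ∈ Icc 1 m, f k + f (m + 1)) =
          (∑ k ∈ Ioc w m, (g k : ℂ) * f k - (g m : ℂ) * ∑ k ∈ Icc 1 m, f k) +
          ((g m - g (m + 1) : ℝ) : ℂ) * ∑ k ∈ Icc 1 m, f k := by
        push_cast; ring
      rw [h2]
      refine (norm_add_le _ _).trans ?_
      rw [norm_mul, Complex.norm_real, Real.norm_of_nonneg (by linarith [hg m (by omega)])]
      have h3 := hM m (by omega)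
      have h4 := hg m (by omega)
      nlinarith
  have h1 := key z (by omega) le_rfl
  have h2 : ∑ n ∈ Ioc w z, (g n : ℂ) * f n =
      (∑ n ∈ Ioc w z, (g n : ℂ) * f n - (g z : ℂ) * ∑ n ∈ Icc 1 z, f n) +
      (g z : ℂ) * ∑ n ∈ Icc 1 z, f n := by ring
  rw [h2]
  refine (norm_add_le _ _).trans ?_
  rw [norm_mul, Complex.norm_real, Real.norm_of_nonneg (hg0 z hwz)]
  have h3 := hM z le_rfl
  have h4 := hg0 z hwz
  nlinarith

private theorem VkChiW_ev [T0] (t1 : ℝ) (ht1 : T0.t < t1) (K k : ℕ) (A : ℝ) : ∃ x0 : ℕ, ∀ x : ℕ, x0 ≤ x →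
    (Real.log (Real.log x)) ^ (20 * (k + 1)) ≤ Real.log x ∧ A ≤ Real.log x ∧ 1 ≤ Real.log x ∧
    16 * Real.log x ^ (K + 1) ≤ Real.exp (Real.log x ^ t1 / 2) ∧
    Real.log x ^ T0.t ≤ Real.log x ^ t1 / 2 := by
  have hlo := T0.lo
  have h1 : ∀ᶠ u : ℝ in Filter.atTop, Real.log u ^ (20 * (k + 1)) ≤ u := by
    have h := (Real.isLittleO_pow_log_id_atTop (n := 20 * (k + 1))).bound (show (0 : ℝ) < 1 by norm_num)
    filter_upwards [h, Filter.eventually_ge_atTop (1 : ℝ)] with u hu hu1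
    have hl : 0 ≤ Real.log u := Real.log_nonneg hu1
    rw [Real.norm_of_nonneg (by positivity), one_mul, id, Real.norm_of_nonneg (by linarith)] at hu
    exact hu
  have h2 : ∀ᶠ u : ℝ in Filter.atTop, A ≤ u := Filter.eventually_ge_atTop A
  have h3 : ∀ᶠ u : ℝ in Filter.atTop, 1 ≤ u := Filter.eventually_ge_atTop 1
  have h4 : ∀ᶠ u : ℝ in Filter.atTop, 16 * u ^ (K + 1) ≤ Real.exp (u ^ t1 / 2) := by
    have h := (isLittleO_pow_exp_pos_mul_atTop (2 * (K + 1)) (show (0 : ℝ) < 1 / 2 by norm_num)).bound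
      (show (0 : ℝ) < 1 / 16 by norm_num)
    have h' := (tendsto_rpow_atTop (show (0 : ℝ) < t1 by linarith)).eventually h
    filter_upwards [h', Filter.eventually_ge_atTop (1 : ℝ)] with u hu hu1
    have hp : 0 ≤ u ^ t1 := Real.rpow_nonneg (by linarith) _
    rw [Real.norm_of_nonneg (by positivity), Real.norm_of_nonneg (by positivity)] at hu
    have h2 : u ^ (K + 1) ≤ (u ^ t1) ^ (2 * (K + 1)) := by
      rw [← Real.rpow_natCast (u ^ t1), ← Real.rpow_mul (by linarith),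
        ← Real.rpow_natCast u]
      refine Real.rpow_le_rpow_of_exponent_le hu1 ?_
      push_cast
      have : (0 : ℝ) ≤ K := Nat.cast_nonneg _
      nlinarith
    have e : u ^ t1 / 2 = 1 / 2 * u ^ t1 := by ring
    rw [e]
    linarith
  have h5 : ∀ᶠ u : ℝ in Filter.atTop, u ^ T0.t ≤ u ^ t1 / 2 := by
    have h := (tendsto_rpow_atTop (show (0 : ℝ) < t1 - T0.t by linarith)).eventually_ge_atTop 2
    filter_upwards [h, Filter.eventually_ge_atTop (1 : ℝ)] with u hu hu1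
    have e1 : u ^ T0.t * u ^ (t1 - T0.t) = u ^ t1 := by
      rw [← Real.rpow_add (by linarith)]
      congr 1
      ring
    have e2 : 0 ≤ u ^ T0.t := by positivity
    rw [← e1]
    nlinarith
  have hlog : Filter.Tendsto (fun x : ℕ => Real.log (x : ℝ)) Filter.atTop Filter.atTop :=
    Real.tendsto_log_atTop.comp tendsto_natCast_atTop_atTop
  have h := hlog.eventually (h1.and (h2.and (h3.and (h4.and h5))))
  rw [Filter.eventually_atTop] at h
  obtain ⟨x0, hx0⟩ := h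
  exact ⟨x0, fun x hx => hx0 x hx⟩

private theorem VkChiW_pow [T0] (t1 : ℝ) (K k κ : ℕ) (hκ : κ = K + 3)
    (hk : (3 * κ + K + 3 : ℝ) ≤ (t1 - T0.t) * k) (L LL9 ℓ : ℝ)
    (hL : 1 ≤ L) (hLL : LL9 ^ (20 * (k + 1)) ≤ L) (hℓ1 : L ^ t1 ≤ ℓ) (hℓ2 : ℓ ≤ 3 * L) :
    (L ^ T0.t) ^ (k + 1) * LL9 ^ (20 * (k + 1)) * L ^ (3 * κ) + ℓ ^ (k + 1) / L ^ κ ≤
      4 * ℓ ^ k / L ^ (K + 1) := by
  have hL0 : 0 < L := by linarith
  have hℓ0 : 0 ≤ ℓ := (Real.rpow_nonneg hL0.le _).trans hℓ1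
  have hhi := T0.hi
  have h1 : (L ^ T0.t) ^ (k + 1) * LL9 ^ (20 * (k + 1)) * L ^ (3 * κ) ≤
      ℓ ^ k / L ^ (K + 1) := by
    rw [le_div_iff₀ (by positivity)]
    calc (L ^ T0.t) ^ (k + 1) * LL9 ^ (20 * (k + 1)) * L ^ (3 * κ) * L ^ (K + 1)
        ≤ (L ^ T0.t) ^ (k + 1) * L * L ^ (3 * κ) * L ^ (K + 1) := by gcongr
      _ = L ^ (T0.t * (k + 1 : ℕ) + 1 + (3 * κ : ℕ) + (K + 1 : ℕ)) := by
          rw [Real.rpow_add hL0, Real.rpow_add hL0, Real.rpow_add hL0, Real.rpow_natCast,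
            Real.rpow_natCast, Real.rpow_one, Real.rpow_mul hL0.le, Real.rpow_natCast]
      _ ≤ L ^ (t1 * k) := by
          refine Real.rpow_le_rpow_of_exponent_le hL ?_
          push_cast
          nlinarith
      _ = (L ^ t1) ^ k := by rw [Real.rpow_mul hL0.le, Real.rpow_natCast]
      _ ≤ ℓ ^ k := pow_le_pow_left₀ (Real.rpow_nonneg hL0.le _) hℓ1 _
  have h2 : ℓ ^ (k + 1) / L ^ κ ≤ 3 * ℓ ^ k / L ^ (K + 1) := by
    rw [div_le_div_iff₀ (by positivity) (by positivity)]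
    calc ℓ ^ (k + 1) * L ^ (K + 1) = ℓ ^ k * ℓ * L ^ (K + 1) := by ring
      _ ≤ ℓ ^ k * (3 * L) * L ^ (K + 1) := by gcongr
      _ = 3 * ℓ ^ k * L ^ (K + 2) := by ring
      _ ≤ 3 * ℓ ^ k * L ^ κ := by
          refine mul_le_mul_of_nonneg_left (pow_le_pow_right₀ hL (by omega)) (by positivity)
  have h3 : 4 * ℓ ^ k / L ^ (K + 1) = ℓ ^ k / L ^ (K + 1) + 3 * ℓ ^ k / L ^ (K + 1) := by ring
  rw [h3]
  exact add_le_add h1 h2

private theorem VkChiW_lam_le {n z : ℕ} (hn : 1 ≤ n) (hz : n ≤ z) : Lam n ≤ Real.log z :=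
  (ArithmeticFunction.vonMangoldt_le_log).trans
    (Real.log_le_log (by exact_mod_cast hn) (by exact_mod_cast hz))

private theorem VkChiW_lam_nonneg (n : ℕ) : 0 ≤ Lam n := ArithmeticFunction.vonMangoldt_nonneg

private theorem VkChiW_card (y : ℕ) : ((primorial y).primeFactors.card : ℝ) ≤ y := by
  have h : (primorial y).primeFactors ⊆ Icc 1 y := by
    intro p hp
    have hpp := Nat.prime_of_mem_primeFactors hp
    have hd := Nat.dvd_of_mem_primeFactors hp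
    unfold primorial at hd
    rw [Prime.dvd_finsetProd_iff hpp.prime] at hd
    obtain ⟨q, hq, hpq⟩ := hd
    simp only [mem_filter, mem_range] at hq
    have h2 := (Nat.prime_dvd_prime_iff_eq hpp hq.2).1 hpq
    rw [mem_Icc]
    exact ⟨hpp.one_lt.le, by omega⟩
  have h2 := card_le_card h
  rw [Nat.card_Icc] at h2
  have h3 : (primorial y).primeFactors.card ≤ y := by omega
  exact_mod_cast h3

theorem vk_chi_w_h [T0] (h_sm_sharp_w : sm_sharp_w_P)  (t1 : ℝ) (ht1' : T0.t < t1) (K B : ℕ) : ∃ K' x0 : ℕ, ∀ x : ℕ, x0 ≤ x →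
    ∀ (d : ℕ) (χ : DirichletCharacter ℂ d) (t : ℝ) (z : ℕ), 1 ≤ d → (d : ℝ) ≤ Real.log x ^ B →
    Real.exp (Real.log x ^ t1) ≤ z → z ≤ x ^ 2 → Real.log x ^ K' ≤ |t| → |t| ≤ (x : ℝ) ^ (2 : ℕ) →
    ‖∑ n ∈ Icc 1 z, ((Lam n : ℝ) : ℂ) * χ (n : ZMod d) * ee (t * Real.log n)‖ ≤ z / Real.log x ^ K := by
  obtain ⟨κ, hκ⟩ : ∃ κ : ℕ, κ = K + 3 := ⟨_, rfl⟩
  have hlo := T0.lo
  have hdif : 0 < t1 - T0.t := by linarith
  obtain ⟨k, hk⟩ : ∃ k : ℕ, (3 * κ + K + 3 : ℝ) ≤ (t1 - T0.t) * k := by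
    refine ⟨⌈(3 * κ + K + 3 : ℝ) / (t1 - T0.t)⌉₊, ?_⟩
    have h := Nat.le_ceil ((3 * κ + K + 3 : ℝ) / (t1 - T0.t))
    rw [div_le_iff₀ hdif] at h
    linarith
  obtain ⟨C, hC, K', x1, hmain⟩ := h_sm_sharp_w t1 ht1' k κ B (by omega)
  obtain ⟨x2, hev⟩ := VkChiW_ev t1 ht1' K k (16 * C * 3 ^ k)
  obtain ⟨x3, hyx⟩ := yx_ev
  refine ⟨K', max (max x1 x2) (max x3 3), fun x hx d χ t z hd hdB hz1 hz2 ht1 ht2 => ?_⟩
  have hx1 : x1 ≤ x := le_trans (le_trans (le_max_left _ _) (le_max_left _ _)) hx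
  have hx2 : x2 ≤ x := le_trans (le_trans (le_max_right _ _) (le_max_left _ _)) hx
  have hx3 : x3 ≤ x := le_trans (le_trans (le_max_left _ _) (le_max_right _ _)) hx
  have hx4 : 3 ≤ x := le_trans (le_trans (le_max_right _ _) (le_max_right _ _)) hx
  obtain ⟨hv1, hv2, hv3, hv4, hv5⟩ := hev x hx2
  have hLL0 : 0 ≤ LL x := by
    have := (hyx x hx3).2.2.2.1
    linarith
  have hxpos : (0 : ℝ) < x := by
    have : (3 : ℝ) ≤ x := by exact_mod_cast hx4
    linarith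
  obtain ⟨L, hL⟩ : ∃ L : ℝ, L = Real.log x := ⟨_, rfl⟩
  rw [← hL] at hv1 hv2 hv3 hv4 hv5 ⊢
  have hL0 : 0 < L := by linarith
  -- size of z
  obtain ⟨V, hV⟩ : ∃ V : ℝ, V = L ^ t1 := ⟨_, rfl⟩
  have hV1 : 1 ≤ V := by rw [hV]; exact Real.one_le_rpow hv3 (by linarith)
  rw [← hV] at hv4 hv5
  have hze : Real.exp V ≤ z := by rw [hV, hL]; exact hz1
  have hzpos : (0 : ℝ) < z := lt_of_lt_of_le (Real.exp_pos _) hze
  have hlogz1 : V ≤ Real.log z := by
    rw [Real.le_log_iff_exp_le hzpos]; exact hze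
  have hlogz2 : Real.log z ≤ 2 * L := by
    have h : (z : ℝ) ≤ (x : ℝ) ^ 2 := by exact_mod_cast hz2
    have h2 := Real.log_le_log hzpos h
    rw [Real.log_pow] at h2
    rw [hL]
    exact_mod_cast h2
  have hlogz0 : 0 < Real.log z := lt_of_lt_of_le (by positivity) hlogz1
  have hz1' : 1 ≤ z := by
    have : 0 < z := by exact_mod_cast hzpos
    omega
  -- the cut
  obtain ⟨w, hw⟩ : ∃ w : ℕ, w = Nat.sqrt z := ⟨_, rfl⟩
  have hw1 : w * w ≤ z := by rw [hw]; exact Nat.sqrt_le z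
  have hw2 : z < (w + 1) * (w + 1) := by rw [hw]; exact Nat.lt_succ_sqrt z
  have hexp0 : (0 : ℝ) < Real.exp (V / 2) := Real.exp_pos _
  have hexp2 : Real.exp (V) = Real.exp (V / 2) * Real.exp (V / 2) := by
    rw [← Real.exp_add]; congr 1; ring
  have hLK : 1 ≤ L ^ (K + 1) := one_le_pow₀ hv3
  have hw3 : Real.exp (V / 2) < (w : ℝ) + 1 := by
    have h1 : (z : ℝ) < ((w : ℝ) + 1) * ((w : ℝ) + 1) := by exact_mod_cast hw2
    have h2 : Real.exp (V / 2) * Real.exp (V / 2) < ((w : ℝ) + 1) * ((w : ℝ) + 1) := by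
      rw [← hexp2]; linarith
    have h3 : (0 : ℝ) ≤ w := Nat.cast_nonneg _
    exact lt_of_mul_self_lt_mul_self₀ (by linarith) h2
  have hw4 : 8 * L ^ (K + 1) ≤ w := by linarith
  have hwR1 : (8 : ℝ) ≤ w := by linarith
  have hw5 : 8 ≤ w := by exact_mod_cast hwR1
  have hwz : w < z := by nlinarith
  obtain ⟨ℓ, hℓ⟩ : ∃ ℓ : ℝ, ℓ = Real.log (2 * z) := ⟨_, rfl⟩
  have hℓe : ℓ = Real.log 2 + Real.log z := by
    rw [hℓ, Real.log_mul (by norm_num) hzpos.ne']
  have hl2 : 0 < Real.log 2 := Real.log_pos (by norm_num)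
  have hl2' : Real.log 2 ≤ 1 := by
    have := Real.log_two_lt_d9
    linarith
  have hℓ1 : V ≤ ℓ := by linarith
  have hℓ0 : 0 < ℓ := by linarith
  have hℓ2 : ℓ ≤ 3 * L := by linarith
  have hlogw : ℓ / 3 ≤ Real.log ((w + 1 : ℕ) : ℝ) := by
    have h1 : (z : ℝ) ≤ ((w + 1 : ℕ) : ℝ) ^ 2 := by
      have h2 : (z : ℝ) < ((w + 1 : ℕ) : ℝ) * ((w + 1 : ℕ) : ℝ) := by exact_mod_cast hw2
      rw [sq]; exact h2.le
    have h2 := Real.log_le_log hzpos h1
    rw [Real.log_pow] at h2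
    have h3 : 2 * Real.log 2 ≤ Real.log z := by
      have h4 : (2 : ℝ) ^ 2 ≤ z := by
        have h5 : (w : ℝ) * w ≤ z := by exact_mod_cast hw1
        nlinarith
      have h6 := Real.log_le_log (by norm_num) h4
      rw [Real.log_pow] at h6
      exact_mod_cast h6
    push_cast at h2 ⊢
    linarith
  -- the three parts
  obtain ⟨b, hb⟩ : ∃ b : ℕ → ℂ, b = fun n => ((Lam n : ℝ) : ℂ) * χ (n : ZMod d) * ee (t * Real.log n) :=
    ⟨_, rfl⟩
  obtain ⟨b', hb'⟩ : ∃ b' : ℕ → ℂ, b' = fun n =>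
    ((Lam n : ℝ) : ℂ) * ch x χ (n : ZMod (qm x d)) * ee (t * Real.log n) := ⟨_, rfl⟩
  have hsplit : ∑ n ∈ Icc 1 z, ((Lam n : ℝ) : ℂ) * χ (n : ZMod d) * ee (t * Real.log n) =
      ∑ n ∈ Icc 1 z, (b n - b' n) + (∑ n ∈ Icc 1 w, b' n + ∑ n ∈ Ioc w z, b' n) := by
    have h1 : ∑ n ∈ Icc 1 w, b' n + ∑ n ∈ Ioc w z, b' n = ∑ n ∈ Icc 1 z, b' n := by
      have h2 : Icc 1 w = Ioc 0 w := by ext a; simp only [mem_Icc, mem_Ioc]; omega
      have h3 : Icc 1 z = Ioc 0 z := by ext a; simp only [mem_Icc, mem_Ioc]; omega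
      rw [h2, h3]
      exact sum_Ioc_consecutive _ (Nat.zero_le _) hwz.le
    rw [h1, sum_sub_distrib, hb]
    ring
  have hp1 : ‖∑ n ∈ Icc 1 z, (b n - b' n)‖ ≤ z / (4 * L ^ K) := by
    calc ‖∑ n ∈ Icc 1 z, (b n - b' n)‖ ≤ ∑ n ∈ Icc 1 z, ‖b n - b' n‖ := norm_sum_le _ _
      _ ≤ ∑ n ∈ Icc 1 z, (if ¬ Nat.Coprime n (primorial (Yx x)) then Lam n else 0) := by
          apply sum_le_sum
          intro n hn
          rw [hb, hb']
          simp only [ch_apply x hd χ n]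
          by_cases hc : n.Coprime (primorial (Yx x))
          · rw [if_pos hc, if_neg (not_not.2 hc), sub_self, norm_zero]
          · rw [if_neg hc, if_pos hc, mul_zero, zero_mul, sub_zero]
            rw [norm_mul, norm_mul, Complex.norm_real, Pool.Agent.H91.PK.LSa_norm_ee, mul_one,
              Real.norm_of_nonneg (VkChiW_lam_nonneg n)]
            have h1 : ‖χ (n : ZMod d)‖ ≤ 1 := χ.norm_le_one _
            nlinarith [VkChiW_lam_nonneg n]
      _ = ∑ n ∈ (Icc 1 z).filter (fun n => ¬ Nat.Coprime n (primorial (Yx x))), Lam n := by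
          rw [sum_filter]
      _ ≤ ((primorial (Yx x)).primeFactors.card : ℝ) * Real.log z :=
          Pool.Agent.H91.PK.DiA_psi_noncoprime hz1' (primorial_pos _)
      _ ≤ (Yx x : ℝ) * (2 * L) := by
          apply mul_le_mul (VkChiW_card _) hlogz2 hlogz0.le (Nat.cast_nonneg _)
      _ ≤ Real.exp (V / 2) * (2 * L) := by
          apply mul_le_mul_of_nonneg_right _ (by positivity)
          refine (Nat.floor_le (Real.exp_pos _).le).trans ?_
          apply Real.exp_le_exp.2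
          unfold L9
          rw [← hL]
          exact hv5
      _ ≤ z / (4 * L ^ K) := by
          rw [le_div_iff₀ (by positivity)]
          calc Real.exp (V / 2) * (2 * L) * (4 * L ^ K)
              = Real.exp (V / 2) * (8 * L ^ (K + 1)) := by ring
            _ ≤ Real.exp (V / 2) * Real.exp (V / 2) := by
                apply mul_le_mul_of_nonneg_left _ hexp0.le
                linarith
            _ = Real.exp (V) := hexp2.symm
            _ ≤ z := hze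
  have hp2 : ‖∑ n ∈ Icc 1 w, b' n‖ ≤ z / (4 * L ^ K) := by
    calc ‖∑ n ∈ Icc 1 w, b' n‖ ≤ ∑ n ∈ Icc 1 w, ‖b' n‖ := norm_sum_le _ _
      _ ≤ ∑ _n ∈ Icc 1 w, (2 * L) := by
          apply sum_le_sum
          intro n hn
          rw [mem_Icc] at hn
          rw [hb']
          simp only
          rw [norm_mul, norm_mul, Complex.norm_real, Pool.Agent.H91.PK.LSa_norm_ee, mul_one,
              Real.norm_of_nonneg (VkChiW_lam_nonneg n)]
          have h1 := ch_norm_le x χ (n : ZMod (qm x d))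
          have h2 := VkChiW_lam_le hn.1 (hn.2.trans hwz.le)
          have h3 := VkChiW_lam_nonneg n
          nlinarith
      _ = w * (2 * L) := by simp
      _ ≤ z / (4 * L ^ K) := by
          rw [le_div_iff₀ (by positivity)]
          have h1 : (w : ℝ) * w ≤ z := by exact_mod_cast hw1
          calc (w : ℝ) * (2 * L) * (4 * L ^ K) = w * (8 * L ^ (K + 1)) := by ring
            _ ≤ w * w := mul_le_mul_of_nonneg_left hw4 (Nat.cast_nonneg _)
            _ ≤ z := h1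
  have hp3 : ‖∑ n ∈ Ioc w z, b' n‖ ≤ z / (2 * L ^ K) := by
    obtain ⟨M, hMdef⟩ : ∃ M : ℝ, M = C * z * (L9 x ^ (k + 1) * LL x ^ (20 * (k + 1)) *
      Real.log x ^ (3 * κ) + Real.log (2 * z) ^ (k + 1) / Real.log x ^ κ) := ⟨_, rfl⟩
    have h1 := VkChiW_abel (fun n => ((Lam n * Real.log n ^ k : ℝ) : ℂ) *
        ch x χ (n : ZMod (qm x d)) * ee (t * Real.log n))
      (fun n => (Real.log n ^ k)⁻¹) M w z hwz
      (fun v hv => by
        rw [hMdef]
        exact hmain x hx1 d χ t v z hd hdB hz1 hz2 hv ht1 ht2)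
      (fun n hn => by
        have : 0 ≤ Real.log (n : ℝ) := Real.log_natCast_nonneg n
        positivity)
      (fun n hn => by
        have h2 : (1 : ℝ) < n := by
          have : 1 < n := by omega
          exact_mod_cast this
        have h3 : 0 < Real.log (n : ℝ) := Real.log_pos h2
        have h4 : Real.log (n : ℝ) ≤ Real.log ((n + 1 : ℕ) : ℝ) := by
          apply Real.log_le_log (by linarith)
          push_cast; linarith
        apply inv_anti₀ (by positivity)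
        exact pow_le_pow_left₀ h3.le h4 _)
    have h2 : ∑ n ∈ Ioc w z, b' n = ∑ n ∈ Ioc w z, (((Real.log n ^ k)⁻¹ : ℝ) : ℂ) *
        (((Lam n * Real.log n ^ k : ℝ) : ℂ) *
        ch x χ (n : ZMod (qm x d)) * ee (t * Real.log n)) := by
      apply sum_congr rfl
      intro n hn
      rw [mem_Ioc] at hn
      have h2 : (1 : ℝ) < n := by
        have : 1 < n := by omega
        exact_mod_cast this
      have h3 : Real.log (n : ℝ) ≠ 0 := (Real.log_pos h2).ne'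
      have h4 : (((Real.log n ^ k)⁻¹ : ℝ) : ℂ) * ((Lam n * Real.log n ^ k : ℝ) : ℂ) =
          ((Lam n : ℝ) : ℂ) := by
        rw [← Complex.ofReal_mul]
        congr 1
        field_simp
      rw [hb']
      simp only
      rw [← mul_assoc, ← mul_assoc, h4]
    rw [h2]
    refine h1.trans ?_
    have hM0 : 0 ≤ M := by
      rw [hMdef]
      have h3 : 0 ≤ L9 x := by unfold L9; rw [← hL]; positivity
      rw [← hL, ← hℓ]
      positivity
    have h3 : ((Real.log ((w + 1 : ℕ) : ℝ)) ^ k)⁻¹ ≤ ((ℓ / 3) ^ k)⁻¹ := by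
      apply inv_anti₀ (by positivity)
      exact pow_le_pow_left₀ (by positivity) hlogw _
    have h4 : M ≤ C * z * (4 * ℓ ^ k / L ^ (K + 1)) := by
      rw [hMdef]
      apply mul_le_mul_of_nonneg_left _ (by positivity)
      unfold L9
      rw [← hL, ← hℓ]
      exact VkChiW_pow t1 K k κ hκ hk L (LL x) ℓ hv3 (by unfold LL; rw [← hL]; exact hv1)
        (by rw [← hV]; exact hℓ1) hℓ2
    calc 2 * M * ((Real.log ((w + 1 : ℕ) : ℝ)) ^ k)⁻¹
        ≤ 2 * (C * z * (4 * ℓ ^ k / L ^ (K + 1))) * ((ℓ / 3) ^ k)⁻¹ := by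
          apply mul_le_mul (by linarith) h3 (by positivity) (by positivity)
      _ = (8 * C * 3 ^ k) * z / L ^ (K + 1) := by
          rw [div_pow]
          field_simp
          ring
      _ ≤ (L / 2) * z / L ^ (K + 1) := by
          apply div_le_div_of_nonneg_right _ (by positivity)
          apply mul_le_mul_of_nonneg_right _ hzpos.le
          linarith
      _ = z / (2 * L ^ K) := by
          rw [pow_succ]
          field_simp
  rw [hsplit]
  calc ‖∑ n ∈ Icc 1 z, (b n - b' n) + (∑ n ∈ Icc 1 w, b' n + ∑ n ∈ Ioc w z, b' n)‖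
      ≤ ‖∑ n ∈ Icc 1 z, (b n - b' n)‖ + (‖∑ n ∈ Icc 1 w, b' n‖ + ‖∑ n ∈ Ioc w z, b' n‖) :=
        (norm_add_le _ _).trans (add_le_add_right (norm_add_le _ _) _)
    _ ≤ z / (4 * L ^ K) + (z / (4 * L ^ K) + z / (2 * L ^ K)) :=
        add_le_add hp1 (add_le_add hp2 hp3)
    _ = z / L ^ K := by
        field_simp
        ring

end Pool.Agent.H76.VKT

end

section

/-!
# VKT (H97/VK of helper97 with the parameter `T0.t` in place of `9/10`, `t1` in place of `19/20`) FkUp: bounds for the series of `Λ(n) ψ(n) (log n)^k`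

Proof.  `Lk_succ_eq` (`EHA/SwF.lean`): `Lk (k+1) = ∑_{i ≤ k} C(k,i) Lk i · Fk (k-i)`; solve for `Fk k` and use strong induction on `k`, `lk_low`, `lk_up`:
`‖Fk k‖ ≤ (LL^7/c) (C L9^{k+1} LL^{k+2} + ∑_{1≤i≤k} C(k,i) C L9^i LL^{i+1} · C' L9^{k-i+1} LL^{20(k-i+1)}) ≤ C'' L9^{k+1} LL^{20(k+1)}`
(`7 + k + 2 ≤ 20(k+1)`, `7 + i + 1 + 20(k-i+1) ≤ 20(k+1)` for `i ≥ 1`).
-/

set_option autoImplicit false

namespace Pool.Agent.H76.VKT

open Finset
open Pool.Agent.H91.EHA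

theorem fk_up_h [T0] (h_lk_low : lk_low_P) (h_lk_up : lk_up_P)  (k B : ℕ) : ∃ C : ℝ, 1 ≤ C ∧ ∃ K' x0 : ℕ, ∀ x : ℕ, x0 ≤ x → ∀ (d : ℕ) (χ : DirichletCharacter ℂ d) (s : ℂ),
    1 ≤ d → (d : ℝ) ≤ Real.log x ^ B → 1 + 1 / (4 * Real.log x) ≤ s.re → s.re ≤ 2 →
    Real.log x ^ K' ≤ |s.im| → |s.im| ≤ 3 * (x : ℝ) ^ (3 : ℕ) →
    ‖Fk (qm x d) (ch x χ) k s‖ ≤ C * L9 x ^ (k + 1) * LL x ^ (20 * (k + 1)) := by
  induction k using Nat.strong_induction_on with
  | _ k ih =>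
  have hlk : ∀ i : ℕ, ∃ C : ℝ, 1 ≤ C ∧ ∃ K' x0 : ℕ, ∀ x : ℕ, x0 ≤ x →
      ∀ (d : ℕ) (χ : DirichletCharacter ℂ d) (s : ℂ),
      1 ≤ d → (d : ℝ) ≤ Real.log x ^ B → 1 + 1 / (4 * Real.log x) ≤ s.re → s.re ≤ 2 →
      Real.log x ^ K' ≤ |s.im| → |s.im| ≤ 6 * (x : ℝ) ^ (3 : ℕ) →
      ‖Lk (qm x d) (ch x χ) i s‖ ≤ C * L9 x ^ i * LL x ^ (i + 1) := fun i => h_lk_up i B
  have hfk : ∀ j : ℕ, ∃ C : ℝ, 1 ≤ C ∧ ∃ K' x0 : ℕ, j < k → ∀ x : ℕ, x0 ≤ x →
      ∀ (d : ℕ) (χ : DirichletCharacter ℂ d) (s : ℂ),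
      1 ≤ d → (d : ℝ) ≤ Real.log x ^ B → 1 + 1 / (4 * Real.log x) ≤ s.re → s.re ≤ 2 →
      Real.log x ^ K' ≤ |s.im| → |s.im| ≤ 3 * (x : ℝ) ^ (3 : ℕ) →
      ‖Fk (qm x d) (ch x χ) j s‖ ≤ C * L9 x ^ (j + 1) * LL x ^ (20 * (j + 1)) := by
    intro j
    rcases lt_or_ge j k with h | h
    · obtain ⟨C, hC, K', x0, hx⟩ := ih j h
      exact ⟨C, hC, K', x0, fun _ => hx⟩
    · exact ⟨1, le_rfl, 0, 0, fun h' => absurd h' (by omega)⟩
  choose CL hCL KL xL hL using hlk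
  choose CF hCF KF xF hF using hfk
  obtain ⟨c, hc, hc1, K0, xc, hlow⟩ := h_lk_low B
  obtain ⟨xe, hxe⟩ := yx_ev
  obtain ⟨S, hS⟩ : ∃ S : ℝ, S = CL (k + 1) +
      ∑ i ∈ range k, (k.choose (i + 1) : ℝ) * (CL (i + 1) * CF (k - (i + 1))) := ⟨_, rfl⟩
  have hS1 : 1 ≤ S := by
    rw [hS]
    have h1 : 0 ≤ ∑ i ∈ range k, (k.choose (i + 1) : ℝ) * (CL (i + 1) * CF (k - (i + 1))) :=
      sum_nonneg fun i _ => mul_nonneg (by positivity)
        (mul_nonneg (by linarith [hCL (i + 1)]) (by linarith [hCF (k - (i + 1))]))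
    linarith [hCL (k + 1)]
  refine ⟨S / c, ?_, K0 + ∑ i ∈ range (k + 2), KL i + ∑ i ∈ range (k + 2), KF i,
    xc + xe + ∑ i ∈ range (k + 2), xL i + ∑ i ∈ range (k + 2), xF i, ?_⟩
  · rw [le_div_iff₀ hc]; linarith
  intro x hx d χ s hd hdB hs1 hs2 him1 him2
  have hxL : ∀ i, i < k + 2 → xL i ≤ x := by
    intro i hi
    have h1 : xL i ≤ ∑ i ∈ range (k + 2), xL i :=
      single_le_sum (f := xL) (fun _ _ => Nat.zero_le _) (mem_range.2 hi)
    omega
  have hxF : ∀ i, i < k + 2 → xF i ≤ x := by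
    intro i hi
    have h1 : xF i ≤ ∑ i ∈ range (k + 2), xF i :=
      single_le_sum (f := xF) (fun _ _ => Nat.zero_le _) (mem_range.2 hi)
    omega
  obtain ⟨-, -, -, hLL1, hL91, hlog1, -⟩ := hxe x (by omega)
  have himp : ∀ K : ℕ, K ≤ K0 + ∑ i ∈ range (k + 2), KL i + ∑ i ∈ range (k + 2), KF i →
      Real.log x ^ K ≤ |s.im| := fun K hK =>
    (pow_le_pow_right₀ hlog1 hK).trans him1
  have hKL : ∀ i, i < k + 2 → Real.log x ^ KL i ≤ |s.im| := by
    intro i hi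
    refine himp _ ?_
    have h1 : KL i ≤ ∑ i ∈ range (k + 2), KL i :=
      single_le_sum (f := KL) (fun _ _ => Nat.zero_le _) (mem_range.2 hi)
    omega
  have hKF : ∀ i, i < k + 2 → Real.log x ^ KF i ≤ |s.im| := by
    intro i hi
    refine himp _ ?_
    have h1 : KF i ≤ ∑ i ∈ range (k + 2), KF i :=
      single_le_sum (f := KF) (fun _ _ => Nat.zero_le _) (mem_range.2 hi)
    omega
  have hx3 : (0:ℝ) ≤ (x : ℝ) ^ (3 : ℕ) := by positivity
  have him6 : |s.im| ≤ 6 * (x : ℝ) ^ (3 : ℕ) := by linarith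
  have hs : 1 < s.re := by
    have h1 : 0 < 1 / (4 * Real.log x) := by positivity
    linarith
  have hLi : ∀ i, i < k + 2 →
      ‖Lk (qm x d) (ch x χ) i s‖ ≤ CL i * L9 x ^ i * LL x ^ (i + 1) := fun i hi =>
    hL i x (hxL i hi) d χ s hd hdB hs1 hs2 (hKL i hi) him6
  have hFi : ∀ j, j < k →
      ‖Fk (qm x d) (ch x χ) j s‖ ≤ CF j * L9 x ^ (j + 1) * LL x ^ (20 * (j + 1)) := fun j hj =>
    hF j hj x (hxF j (by omega)) d χ s hd hdB hs1 hs2 (hKF j (by omega)) him2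
  have hlow' := hlow x (by omega) d χ s hd hdB hs1 hs2 (himp K0 (by omega)) him2
  obtain ⟨a, ha⟩ : ∃ a, a = L9 x := ⟨_, rfl⟩
  obtain ⟨l, hl⟩ : ∃ l, l = LL x := ⟨_, rfl⟩
  rw [← ha] at hL91
  rw [← hl] at hLL1
  simp only [← ha, ← hl] at hLi hFi hlow' ⊢
  have ha0 : 0 < a := by linarith
  have hl0 : 0 < l := by linarith
  have heq := Lk_succ_eq (qm x d) (ch x χ) k s hs
  rw [Finset.sum_range_succ'] at heq
  simp only [Nat.choose_zero_right, Nat.cast_one, one_mul, Nat.sub_zero] at heq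
  have h1 : Lk (qm x d) (ch x χ) 0 s * Fk (qm x d) (ch x χ) k s =
      Lk (qm x d) (ch x χ) (k + 1) s -
      ∑ i ∈ range k, (k.choose (i + 1) : ℂ) * (Lk (qm x d) (ch x χ) (i + 1) s *
        Fk (qm x d) (ch x χ) (k - (i + 1)) s) := by
    rw [heq]
    ring
  have h2 : ‖Lk (qm x d) (ch x χ) (k + 1) s‖ ≤ CL (k + 1) * (a ^ (k + 1) * l ^ (20 * k + 13)) := by
    refine (hLi (k + 1) (by omega)).trans ?_
    rw [mul_assoc]
    refine mul_le_mul_of_nonneg_left ?_ (by linarith [hCL (k + 1)])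
    exact mul_le_mul_of_nonneg_left (pow_le_pow_right₀ hLL1 (by omega)) (by positivity)
  have h3 : ∀ i ∈ range k, ‖(k.choose (i + 1) : ℂ) * (Lk (qm x d) (ch x χ) (i + 1) s *
        Fk (qm x d) (ch x χ) (k - (i + 1)) s)‖ ≤
      (k.choose (i + 1) : ℝ) * (CL (i + 1) * CF (k - (i + 1))) *
        (a ^ (k + 1) * l ^ (20 * k + 13)) := by
    intro i hi
    rw [mem_range] at hi
    rw [norm_mul, norm_mul, Complex.norm_natCast, mul_assoc]
    refine mul_le_mul_of_nonneg_left ?_ (by positivity)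
    have hA := hLi (i + 1) (by omega)
    have hB := hFi (k - (i + 1)) (by omega)
    have hc1' := hCL (i + 1)
    have hc2' := hCF (k - (i + 1))
    calc ‖Lk (qm x d) (ch x χ) (i + 1) s‖ * ‖Fk (qm x d) (ch x χ) (k - (i + 1)) s‖
        ≤ (CL (i + 1) * a ^ (i + 1) * l ^ (i + 1 + 1)) *
          (CF (k - (i + 1)) * a ^ (k - (i + 1) + 1) * l ^ (20 * (k - (i + 1) + 1))) :=
          mul_le_mul hA hB (norm_nonneg _) (by positivity)
      _ = CL (i + 1) * CF (k - (i + 1)) * (a ^ ((i + 1) + (k - (i + 1) + 1)) *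
          l ^ ((i + 1 + 1) + 20 * (k - (i + 1) + 1))) := by
          rw [pow_add a (i + 1), pow_add l (i + 1 + 1)]; ring
      _ ≤ CL (i + 1) * CF (k - (i + 1)) * (a ^ (k + 1) * l ^ (20 * k + 13)) := by
          refine mul_le_mul_of_nonneg_left ?_ (mul_nonneg (by linarith) (by linarith))
          rw [show (i + 1) + (k - (i + 1) + 1) = k + 1 by omega]
          exact mul_le_mul_of_nonneg_left (pow_le_pow_right₀ hLL1 (by omega)) (by positivity)
  have h4 : ‖Lk (qm x d) (ch x χ) 0 s‖ * ‖Fk (qm x d) (ch x χ) k s‖ ≤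
      S * (a ^ (k + 1) * l ^ (20 * k + 13)) := by
    rw [← norm_mul, h1]
    refine (norm_sub_le _ _).trans ?_
    rw [hS, add_mul, sum_mul]
    exact add_le_add h2 ((norm_sum_le _ _).trans (sum_le_sum h3))
  have h5 : c / l ^ 7 * ‖Fk (qm x d) (ch x χ) k s‖ ≤ S * (a ^ (k + 1) * l ^ (20 * k + 13)) :=
    (mul_le_mul_of_nonneg_right hlow' (norm_nonneg _)).trans h4
  have h6 : ‖Fk (qm x d) (ch x χ) k s‖ ≤ (S * (a ^ (k + 1) * l ^ (20 * k + 13))) / (c / l ^ 7) := by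
    rw [le_div_iff₀ (by positivity), mul_comm]
    exact h5
  refine h6.trans (le_of_eq ?_)
  rw [show 20 * (k + 1) = (20 * k + 13) + 7 by ring, pow_add l (20 * k + 13) 7]
  field_simp

end Pool.Agent.H76.VKT

end

section

/-!
# VKT (H97/VK of helper97 with the parameter `T0.t` in place of `9/10`, `t1` in place of `19/20`) PSum: partial sums of `χ(n) n^{it}` for all `v > y`

Proof.  Split `n ≤ v` into classes modulo `d`: `n = d m + r`, `0 ≤ r < d`, `log n = log d + log (m + r/d)`, `χ(n) = χ(r)`.  The terms with `m = 0` contribute at most `d`.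
The others form `∑_{m ∈ Ioc 0 b} ee(t log(m + r/d))`, `b = (v - r)/d ≤ v`, up to a constant factor of modulus one.
`v ≤ x`: `vk_exp (A + B + 2)` with `K = v` (`v ≥ Yx x + 1 > exp(L9 x)`): at most `v (100/|t| + L^{-A-B-2})` per class.
`v > x`: `H35.W.ks1 1` with its `x` equal to `v` and `K = v` (`|t| ≤ x^3 ≤ v^3`): at most `C v (1/|t| + v^{-δ})` per class.
Sum over `d ≤ L^B` classes; `K' = A + B + 2`; `d ≤ L^B ≤ v/L^{A+1}`.
-/

set_option autoImplicit false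

namespace Pool.Agent.H76.VKT

open Finset
open Pool.Agent.H91.PK (ee)

private lemma psum_ee_norm (r : ℝ) : ‖ee r‖ = 1 := by
  have : (2 * Real.pi * r * Complex.I : ℂ) = ((2 * Real.pi * r : ℝ) : ℂ) * Complex.I := by
    push_cast; ring
  rw [ee, this, Complex.norm_exp_ofReal_mul_I]

private lemma psum_ee_add (r s : ℝ) : ee (r + s) = ee r * ee s := by
  rw [ee, ee, ee, ← Complex.exp_add]
  congr 1
  push_cast
  ring

private lemma psum_per (ψ : ℕ → ℂ) (d : ℕ) (h : ∀ n, ψ (n + d) = ψ n) (l k : ℕ) :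
    ψ (l + d * k) = ψ l := by
  induction k with
  | zero => simp
  | succ k ih => rw [mul_add, mul_one, ← add_assoc, h, ih]

/-- one residue class -/
private lemma psum_class (f : ℕ → ℂ) (hf : ∀ n, ‖f n‖ ≤ 1) (B : ℝ) (K' a b d l : ℕ) (hd : 1 ≤ d)
    (hb : b / d ≤ K') (hB : ∀ a' b' : ℕ, b' ≤ K' → ‖∑ n ∈ Ioc a' b', f n‖ ≤ B) :
    ‖∑ k ∈ (range (b + 1)).filter (fun k => a < l + d * k ∧ l + d * k ≤ b), f k‖ ≤ 1 + B := by
  set T := (range (b + 1)).filter (fun k => a < l + d * k ∧ l + d * k ≤ b) with hT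
  have e : T.erase 0 = Ioc ((a - l) / d) ((b - l) / d) := by
    ext k
    simp only [hT, mem_erase, mem_filter, mem_range, mem_Ioc]
    rw [Nat.div_lt_iff_lt_mul (by omega), Nat.le_div_iff_mul_le (by omega)]
    constructor
    · rintro ⟨h0, h1, h2, h3⟩
      rw [mul_comm d k] at h2 h3
      have : 1 ≤ k * d := Nat.mul_pos (by omega) (by omega)
      omega
    · rintro ⟨h1, h2⟩
      have hk : k ≠ 0 := by rintro rfl; simp at h1
      have h3 : k ≤ k * d := Nat.le_mul_of_pos_right k (by omega)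
      have : 1 ≤ k * d := Nat.mul_pos (by omega) (by omega)
      rw [mul_comm d k]
      omega
  have h1 : ‖∑ k ∈ T.erase 0, f k‖ ≤ B := by
    rw [e]
    exact hB _ _ ((Nat.div_le_div_right (Nat.sub_le _ _)).trans hb)
  by_cases h0 : 0 ∈ T
  · rw [← add_sum_erase _ _ h0]
    exact (norm_add_le _ _).trans (add_le_add (hf 0) h1)
  · rw [erase_eq_of_notMem h0] at h1
    linarith

/-- all residue classes -/
private lemma psum_core (ψ : ℕ → ℂ) (d v : ℕ) (t B : ℝ) (hd : 1 ≤ d) (hper : ∀ n, ψ (n + d) = ψ n)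
    (hψ : ∀ n, ‖ψ n‖ ≤ 1)
    (hB : ∀ (β : ℝ) (a' b' : ℕ), 0 ≤ β → β ≤ 1 → b' ≤ v →
      ‖∑ n ∈ Ioc a' b', ee (t * Real.log (n + β))‖ ≤ B) :
    ‖∑ n ∈ Icc 1 v, ψ n * ee (t * Real.log n)‖ ≤ d * (1 + B) := by
  have hdr : (1 : ℝ) ≤ d := by exact_mod_cast hd
  have hd0 : (d : ℝ) ≠ 0 := by positivity
  have hcl : ∀ l ∈ range d, ‖∑ n ∈ (Ioc 0 v).filter (fun n => n % d = l),
      ψ n * ee (t * Real.log n)‖ ≤ 1 + B := by
    intro l hl
    have hl1 := mem_range.1 hl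
    have e1 : (Ioc 0 v).filter (fun n => n % d = l)
        = ((range (v + 1)).filter (fun k => 0 < l + d * k ∧ l + d * k ≤ v)).image
          (fun k => l + d * k) := by
      ext n
      simp only [mem_filter, mem_Ioc, mem_image, mem_range]
      constructor
      · rintro ⟨⟨h1, h2⟩, h3⟩
        have h4 : n % d + d * (n / d) = n := Nat.mod_add_div n d
        have h5 : n / d ≤ n := Nat.div_le_self n d
        refine ⟨n / d, ⟨by omega, ?_, ?_⟩, ?_⟩ <;> rw [← h3, h4] <;> assumption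
      · rintro ⟨k, ⟨h1, h2, h3⟩, rfl⟩
        exact ⟨⟨h2, h3⟩, by rw [Nat.add_mul_mod_self_left, Nat.mod_eq_of_lt hl1]⟩
    have hinj : Set.InjOn (fun k => l + d * k)
        ((range (v + 1)).filter (fun k => 0 < l + d * k ∧ l + d * k ≤ v) : Finset ℕ) := by
      intro u _ w _ huw
      have : d * u = d * w := by simpa using huw
      exact Nat.eq_of_mul_eq_mul_left (by omega) this
    rw [e1, sum_image hinj]
    have hβl0 : 0 ≤ (l : ℝ) / d := by positivity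
    have hβl1 : (l : ℝ) / d ≤ 1 := by
      rw [div_le_one (by linarith)]
      exact_mod_cast hl1.le
    have e2 : ∑ k ∈ (range (v + 1)).filter (fun k => 0 < l + d * k ∧ l + d * k ≤ v),
        ψ (l + d * k) * ee (t * Real.log ((l + d * k : ℕ) : ℝ))
        = (ψ l * ee (t * Real.log d)) *
          ∑ k ∈ (range (v + 1)).filter (fun k => 0 < l + d * k ∧ l + d * k ≤ v),
            ee (t * Real.log ((k : ℝ) + (l : ℝ) / d)) := by
      rw [mul_sum]
      apply sum_congr rfl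
      intro k hk
      have hk1 := (mem_filter.1 hk).2.1
      have hpos : (0 : ℝ) < l + d * k := by
        have : 0 < l + d * k := by omega
        exact_mod_cast this
      have h1 : ((l + d * k : ℕ) : ℝ) = d * ((k : ℝ) + (l : ℝ) / d) := by
        push_cast
        field_simp
        ring
      have h2 : 0 < (k : ℝ) + (l : ℝ) / d := by
        have h3 : (k : ℝ) + (l : ℝ) / d = (l + d * k) / d := by
          field_simp
          ring
        rw [h3]
        exact div_pos hpos (by linarith)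
      rw [psum_per ψ d hper, h1, Real.log_mul hd0 h2.ne', mul_add, psum_ee_add]
      ring
    rw [e2, norm_mul, norm_mul, psum_ee_norm, mul_one]
    have h3 := psum_class (fun k => ee (t * Real.log ((k : ℝ) + (l : ℝ) / d)))
      (fun n => (psum_ee_norm _).le) B v 0 v d l hd (Nat.div_le_self v d)
      (fun a' b' hb' => hB ((l : ℝ) / d) a' b' hβl0 hβl1 hb')
    calc ‖ψ l‖ * _ ≤ 1 * (1 + B) := mul_le_mul (hψ l) h3 (norm_nonneg _) zero_le_one
      _ = 1 + B := one_mul _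
  have e0 : Icc 1 v = Ioc 0 v := by
    ext n; simp only [mem_Icc, mem_Ioc]; omega
  have e3 : ∑ n ∈ Ioc 0 v, ψ n * ee (t * Real.log n)
      = ∑ l ∈ range d, ∑ n ∈ (Ioc 0 v).filter (fun n => n % d = l),
        ψ n * ee (t * Real.log n) := by
    rw [sum_fiberwise_of_maps_to]
    intro n _
    exact mem_range.2 (Nat.mod_lt n (by omega))
  rw [e0, e3]
  refine (norm_sum_le _ _).trans ((sum_le_sum hcl).trans ?_)
  rw [sum_const, card_range, nsmul_eq_mul]

private lemma psum_tendL : Filter.Tendsto (fun x : ℕ => Real.log x) Filter.atTop Filter.atTop :=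
  Real.tendsto_log_atTop.comp tendsto_natCast_atTop_atTop

/-- powers of `log x` against `exp ((log x)^{9/10})` -/
private lemma psum_ev1 [T0] (N : ℕ) : ∀ᶠ x : ℕ in Filter.atTop,
    2 * Real.log x ^ N ≤ Real.exp (Real.log x ^ T0.t) := by
  have h1 : Filter.Tendsto (fun u : ℝ => u ^ T0.t) Filter.atTop Filter.atTop :=
    tendsto_rpow_atTop (by have := T0.lo; linarith)
  have h2 := (Real.isLittleO_pow_exp_atTop (n := 2 * N)).comp_tendsto h1
  have h3 := (h2.bound (show (0 : ℝ) < 1 / 2 by norm_num))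
  have h4 := psum_tendL.eventually h3
  filter_upwards [h4, psum_tendL.eventually_ge_atTop 1] with x hx hL
  simp only [Function.comp_def, Real.norm_eq_abs] at hx
  have hL0 : 0 ≤ Real.log x := by linarith
  rw [abs_of_nonneg (by positivity), abs_of_nonneg (by positivity)] at hx
  have h5 : Real.log x ^ N ≤ (Real.log x ^ T0.t) ^ (2 * N) := by
    rw [← Real.rpow_natCast (Real.log x ^ T0.t), ← Real.rpow_mul hL0, ← Real.rpow_natCast]
    apply Real.rpow_le_rpow_of_exponent_le hL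
    push_cast
    have : (0 : ℝ) ≤ N := Nat.cast_nonneg N
    have hlo := T0.lo
    nlinarith
  linarith

/-- powers of `log x` against powers of `x` -/
private lemma psum_ev2 (N : ℕ) (δ : ℝ) (hδ : 0 < δ) : ∀ᶠ x : ℕ in Filter.atTop,
    (x : ℝ) ^ (-δ) ≤ 1 / Real.log x ^ N := by
  have h1 : Filter.Tendsto (fun u : ℝ => δ * u) Filter.atTop Filter.atTop :=
    Filter.tendsto_id.const_mul_atTop hδ
  have h2 := (Real.isLittleO_pow_exp_atTop (n := N)).comp_tendsto h1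
  have h3 := (h2.bound (show (0 : ℝ) < δ ^ N by positivity))
  have h4 := psum_tendL.eventually h3
  filter_upwards [h4, psum_tendL.eventually_ge_atTop 1, Filter.eventually_ge_atTop 1] with x hx hL hx1
  simp only [Function.comp_def, Real.norm_eq_abs] at hx
  have hL0 : 0 < Real.log x := by linarith
  have hx0 : (0 : ℝ) < x := by exact_mod_cast hx1
  rw [abs_of_nonneg (by positivity), abs_of_nonneg (by positivity), mul_pow] at hx
  have h5 : Real.log x ^ N ≤ Real.exp (δ * Real.log x) := le_of_mul_le_mul_left hx (by positivity)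
  have h6 : (x : ℝ) ^ (-δ) = (Real.exp (δ * Real.log x))⁻¹ := by
    rw [← Real.exp_neg, Real.rpow_def_of_pos hx0]
    congr 1
    ring
  rw [h6, ← one_div]
  exact one_div_le_one_div_of_le (by positivity) h5

theorem psum_h [T0] (h_vk_exp : vk_exp_P)  (A B : ℕ) : ∃ K' x0 : ℕ, ∀ x : ℕ, x0 ≤ x → ∀ (d : ℕ) (χ : DirichletCharacter ℂ d) (t : ℝ) (v : ℕ),
    1 ≤ d → (d : ℝ) ≤ Real.log x ^ B → Real.log x ^ K' ≤ |t| → |t| ≤ (x : ℝ) ^ (3 : ℕ) → Yx x + 1 ≤ v →
    ‖∑ n ∈ Icc 1 v, χ (n : ZMod d) * ee (t * Real.log n)‖ ≤ v / Real.log x ^ A := by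
  obtain ⟨x1, hx1⟩ := h_vk_exp (A + B + 2)
  obtain ⟨δ, C, hδ, hδ1, hC, x2, hx2⟩ := Pool.Agent.H35.W.ks1 1 one_pos
  obtain ⟨x3, hx3⟩ := Filter.eventually_atTop.1 (psum_ev1 (A + B + 2))
  obtain ⟨x4, hx4⟩ := Filter.eventually_atTop.1 (psum_ev2 (A + B + 2) δ hδ)
  obtain ⟨x5, hx5⟩ := Filter.eventually_atTop.1 (psum_tendL.eventually_ge_atTop (4 * C + 202))
  refine ⟨A + B + 2, max (max (max x1 x2) (max x3 x4)) (max x5 1), ?_⟩
  intro x hx d χ t v hd hdL ht1 ht2 hv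
  have hxa : x1 ≤ x := (le_max_left _ _).trans ((le_max_left _ _).trans ((le_max_left _ _).trans hx))
  have hxb : x2 ≤ x := (le_max_right _ _).trans ((le_max_left _ _).trans ((le_max_left _ _).trans hx))
  have hxc : x3 ≤ x := (le_max_left _ _).trans ((le_max_right _ _).trans ((le_max_left _ _).trans hx))
  have hxd : x4 ≤ x := (le_max_right _ _).trans ((le_max_right _ _).trans ((le_max_left _ _).trans hx))
  have hxe : x5 ≤ x := (le_max_left _ _).trans ((le_max_right _ _).trans hx)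
  have hxf : 1 ≤ x := (le_max_right _ _).trans ((le_max_right _ _).trans hx)
  have h3 := hx3 x hxc
  have h4 := hx4 x hxd
  have hL := hx5 x hxe
  have hxr : (1 : ℝ) ≤ x := by exact_mod_cast hxf
  set L := Real.log x with hLdef
  have hL1 : (202 : ℝ) ≤ L := by linarith
  have hL0 : (0 : ℝ) < L := by linarith
  have hLp : ∀ n : ℕ, 0 < L ^ n := fun n => pow_pos hL0 n
  have hvy : Real.exp (L ^ T0.t) ≤ v := by
    have h5 : Real.exp (L9 x) < (Yx x : ℝ) + 1 := Nat.lt_floor_add_one _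
    have h6 : ((Yx x : ℝ) + 1) ≤ v := by exact_mod_cast hv
    exact h5.le.trans h6
  have hv0 : (0 : ℝ) < v := (Real.exp_pos _).trans_le hvy
  have ht0 : 1 ≤ |t| := (one_le_pow₀ (by linarith : (1 : ℝ) ≤ L)).trans ht1
  have htp : 0 < |t| := by linarith
  have hti : 1 / |t| ≤ 1 / L ^ (A + B + 2) := one_div_le_one_div_of_le (hLp _) ht1
  have key : ∀ (β : ℝ) (a' b' : ℕ), 0 ≤ β → β ≤ 1 → b' ≤ v →
      ‖∑ n ∈ Ioc a' b', ee (t * Real.log (n + β))‖ ≤ v * ((2 * C + 101) / L ^ (A + B + 2)) := by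
    intro β a' b' hβ0 hβ1 hb'
    rcases le_or_gt v x with hvx | hvx
    · refine (hx1 x hxa v a' b' β t hvy hvx hb' hβ0 hβ1 ht0 ht2).trans ?_
      apply mul_le_mul_of_nonneg_left _ hv0.le
      calc 100 / |t| + 1 / L ^ (A + B + 2) = 100 * (1 / |t|) + 1 / L ^ (A + B + 2) := by ring
        _ ≤ 100 * (1 / L ^ (A + B + 2)) + 1 / L ^ (A + B + 2) := by linarith
        _ = 101 / L ^ (A + B + 2) := by ring
        _ ≤ (2 * C + 101) / L ^ (A + B + 2) := by
          apply div_le_div_of_nonneg_right _ (hLp _).le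
          linarith
    · have hxv : (x : ℝ) ≤ v := by exact_mod_cast hvx.le
      have ht3 : |t| ≤ (v : ℝ) ^ (3 : ℕ) := ht2.trans (pow_le_pow_left₀ (by linarith) hxv 3)
      refine (hx2 v (hxb.trans hvx.le) v a' b' β t (by rw [Real.rpow_one]) le_rfl hb' hβ0 hβ1 ht0
        ht3).trans ?_
      have h7 : (v : ℝ) ^ (-δ) ≤ (x : ℝ) ^ (-δ) :=
        Real.rpow_le_rpow_of_nonpos (by linarith) hxv (by linarith)
      have h8 : 1 / |t| + (v : ℝ) ^ (-δ) ≤ 2 * (1 / L ^ (A + B + 2)) := by linarith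
      calc C * v * (1 / |t| + (v : ℝ) ^ (-δ)) ≤ C * v * (2 * (1 / L ^ (A + B + 2))) := by
            apply mul_le_mul_of_nonneg_left h8 (by positivity)
        _ = v * ((2 * C) / L ^ (A + B + 2)) := by ring
        _ ≤ v * ((2 * C + 101) / L ^ (A + B + 2)) := by
          apply mul_le_mul_of_nonneg_left _ hv0.le
          apply div_le_div_of_nonneg_right _ (hLp _).le
          linarith
  have hmain := psum_core (fun n => χ (n : ZMod d)) d v t _ hd (fun n => by simp)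
    (fun n => DirichletCharacter.norm_le_one _ _) key
  refine hmain.trans ?_
  have hd0 : (0 : ℝ) ≤ d := Nat.cast_nonneg _
  have hvL : 2 * L ^ (A + B + 2) ≤ v := h3.trans hvy
  have hC0 : 0 ≤ (2 * C + 101) / L ^ (A + B + 2) := div_nonneg (by linarith) (hLp _).le
  have h9 : (d : ℝ) * (1 + v * ((2 * C + 101) / L ^ (A + B + 2))) ≤
      L ^ B * (1 + v * ((2 * C + 101) / L ^ (A + B + 2))) := by
    apply mul_le_mul_of_nonneg_right hdL
    positivity
  refine h9.trans ?_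
  rw [le_div_iff₀ (hLp _)]
  have e1 : L ^ (A + B + 2) = L ^ A * L ^ B * L ^ 2 := by
    rw [pow_add, pow_add]
  have e2 : L ^ B * (1 + v * ((2 * C + 101) / L ^ (A + B + 2))) * L ^ A
      = L ^ A * L ^ B + v * ((2 * C + 101) / L ^ 2) := by
    rw [e1]
    have hA := (hLp A).ne'
    have hB := (hLp B).ne'
    field_simp
  rw [e2]
  have h10 : L ^ A * L ^ B ≤ v / 2 := by
    have h11 : (1 : ℝ) ≤ L ^ 2 := one_le_pow₀ (by linarith)
    have h12 : 0 ≤ L ^ A * L ^ B := by positivity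
    rw [e1] at hvL
    nlinarith
  have h13 : (2 * C + 101) / L ^ 2 ≤ 1 / 2 := by
    rw [div_le_iff₀ (hLp 2)]
    nlinarith
  nlinarith

end Pool.Agent.H76.VKT

end
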