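import Pool.Agent.H43.PM.M19
import Pool.Agent.H43.PM.M22

/-! The parts of this file: H76.VKT.BrunT, H76.VKT.Low. -/

section

/-!
# VKT (H97/VK of helper97 with the parameter `T0.t` in place of `9/10`, `t1` in place of `19/20`) BrunT: twisted sums over rough numbers

Proof.  `y = Yx x`, `r = ⌈20 (A+1) LL⌉₊ + 1`, `log u ≥ D · LL · L9`, `D = 21(A+1) + 10`, so `u ≥ y^{r+3}` (`log y ≤ L9`).
`ch_apply`, `brun_ineq`: `|∑_{n≤u} ch(n) ee(t log n) - ∑_{m ∈ bdl y r} μ(m) ∑_{n ≤ u, m ∣ n} χ(n) ee(t log n)| ≤ ∑_{m ∈ bd y r} u/m`.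
`n = m k`: `χ(m) ee(t log m) ∑_{k ≤ u/m} χ(k) ee(t log k)`, `u/m ≥ y^{2} ≥ y + 1` (`bdl_le`, `m ≤ y^r`; natural division), `psum (A+3) B`: `≤ (u/m)/L^{A+3}`;
`brun_sum`: total `≤ C (log y) u/L^{A+3} ≤ u/(2 L^A)`.
`brun_tail`: `log log y ≤ LL` and `LL` large: `e (LL + C)/r ≤ 1/e`, so the sum is `≤ e^{-r} ≤ L^{-20(A+1)}`.
-/

set_option autoImplicit false

namespace Pool.Agent.H76.VKT

open Finset
open Pool.Agent.H91.PK (ee)
open Pool.Agent.H97.VK (bd bdl brun_ineq brun_tail brun_sum bdl_le)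

/-- the twisted character -/
private noncomputable def brunT_f {d : ℕ} (χ : DirichletCharacter ℂ d) (t : ℝ) (n : ℕ) : ℂ :=
  χ (n : ZMod d) * ee (t * Real.log n)

private theorem brunT_f_le {d : ℕ} (χ : DirichletCharacter ℂ d) (t : ℝ) (n : ℕ) :
    ‖brunT_f χ t n‖ ≤ 1 := by
  unfold brunT_f
  rw [norm_mul, Pool.Agent.H91.PK.LSa_norm_ee, mul_one]
  exact DirichletCharacter.norm_le_one _ _

private theorem brunT_f_mul {d : ℕ} (χ : DirichletCharacter ℂ d) (t : ℝ) (m k : ℕ) (hm : m ≠ 0)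
    (hk : k ≠ 0) : brunT_f χ t (m * k) = brunT_f χ t m * brunT_f χ t k := by
  unfold brunT_f
  have hm' : (m : ℝ) ≠ 0 := by exact_mod_cast hm
  have hk' : (k : ℝ) ≠ 0 := by exact_mod_cast hk
  rw [Nat.cast_mul, Nat.cast_mul, Real.log_mul hm' hk', mul_add, Pool.Agent.H91.PK.LSa_ee_add, map_mul]
  ring

private theorem brunT_multiples {M : Type} [AddCommMonoid M] (u m : ℕ) (hm : 1 ≤ m) (F : ℕ → M) :
    ∑ n ∈ (Icc 1 u).filter (fun n => m ∣ n), F n = ∑ k ∈ Icc 1 (u / m), F (m * k) := by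
  symm
  refine sum_bij (fun k _ => m * k) ?_ ?_ ?_ ?_
  · intro k hk
    rw [mem_Icc] at hk
    rw [mem_filter, mem_Icc]
    refine ⟨⟨Nat.mul_pos hm hk.1, ?_⟩, Dvd.intro _ rfl⟩
    calc m * k ≤ m * (u / m) := Nat.mul_le_mul_left _ hk.2
      _ ≤ u := Nat.mul_div_le _ _
  · intro a _ b _ hab
    exact Nat.eq_of_mul_eq_mul_left hm hab
  · intro n hn
    rw [mem_filter, mem_Icc] at hn
    obtain ⟨⟨h1, h2⟩, k, rfl⟩ := hn
    refine ⟨k, ?_, rfl⟩
    rw [mem_Icc]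
    constructor
    · rcases Nat.eq_zero_or_pos k with h | h
      · rw [h, mul_zero] at h1
        omega
      · exact h
    · rw [Nat.le_div_iff_mul_le hm]
      calc k * m = m * k := mul_comm _ _
        _ ≤ u := h2
  · intro k _
    rfl

/-- the main inequality. -/
private theorem brunT_main {d : ℕ} (χ : DirichletCharacter ℂ d) (t : ℝ) (y r u : ℕ) (hr : 1 ≤ r)
    (E : ℝ) (hE : ∀ m ∈ bdl y r, ‖∑ k ∈ Icc 1 (u / m), brunT_f χ t k‖ ≤ ((u / m : ℕ) : ℝ) * E)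
    (hE0 : 0 ≤ E) :
    ‖∑ n ∈ Icc 1 u, (if n.Coprime (primorial y) then brunT_f χ t n else 0)‖ ≤
      u * E * ∑ m ∈ bdl y r, (1 : ℝ) / m + u * ∑ m ∈ bd y r, (1 : ℝ) / m := by
  set f : ℕ → ℂ := brunT_f χ t with hf
  set h : ℕ → ℝ := fun n => ∑ m ∈ (bdl y r).filter (fun m => m ∣ n), (ArithmeticFunction.moebius m : ℝ)
    with hh
  set g : ℕ → ℝ := fun n => if n.Coprime (primorial y) then (1 : ℝ) else 0 with hg
  have hpos : ∀ m, m ∣ primorial y → 1 ≤ m := fun m hm => Nat.pos_of_dvd_of_pos hm (primorial_pos y)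
  have hposl : ∀ m ∈ bdl y r, 1 ≤ m := fun m hm => by
    unfold bdl at hm
    exact hpos m (Nat.dvd_of_mem_divisors (mem_filter.1 hm).1)
  have hposb : ∀ m ∈ bd y r, 1 ≤ m := fun m hm => by
    unfold bd at hm
    exact hpos m (Nat.dvd_of_mem_divisors (mem_filter.1 hm).1)
  have e1 : ∑ n ∈ Icc 1 u, (if n.Coprime (primorial y) then f n else 0) =
      ∑ n ∈ Icc 1 u, ((h n : ℝ) : ℂ) * f n + ∑ n ∈ Icc 1 u, (((g n - h n : ℝ)) : ℂ) * f n := by
    rw [← sum_add_distrib]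
    refine sum_congr rfl fun n _ => ?_
    rw [hg]
    dsimp only
    split_ifs
    · push_cast
      ring
    · push_cast
      ring
  -- the error term
  have e2 : ‖∑ n ∈ Icc 1 u, (((g n - h n : ℝ)) : ℂ) * f n‖ ≤ u * ∑ m ∈ bd y r, (1 : ℝ) / m := by
    calc ‖∑ n ∈ Icc 1 u, (((g n - h n : ℝ)) : ℂ) * f n‖
        ≤ ∑ n ∈ Icc 1 u, ‖(((g n - h n : ℝ)) : ℂ) * f n‖ := norm_sum_le _ _
      _ ≤ ∑ n ∈ Icc 1 u, (((bd y r).filter (fun m => m ∣ n)).card : ℝ) := by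
          refine sum_le_sum fun n hn => ?_
          rw [norm_mul, Complex.norm_real, Real.norm_eq_abs]
          have h1 := brun_ineq y r n hr (mem_Icc.1 hn).1
          have h2 := brunT_f_le χ t n
          calc |g n - h n| * ‖f n‖ ≤ |g n - h n| * 1 :=
                mul_le_mul_of_nonneg_left h2 (abs_nonneg _)
            _ = |g n - h n| := mul_one _
            _ ≤ _ := h1
      _ = ∑ m ∈ bd y r, (((Icc 1 u).filter (fun n => m ∣ n)).card : ℝ) := by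
          have h3 : ∀ n, (((bd y r).filter (fun m => m ∣ n)).card : ℝ) =
              ∑ m ∈ bd y r, if m ∣ n then (1 : ℝ) else 0 := by
            intro n
            rw [card_filter]
            push_cast
            rfl
          have h4 : ∀ m, (((Icc 1 u).filter (fun n => m ∣ n)).card : ℝ) =
              ∑ n ∈ Icc 1 u, if m ∣ n then (1 : ℝ) else 0 := by
            intro m
            rw [card_filter]
            push_cast
            rfl
          rw [sum_congr rfl fun n _ => h3 n, sum_comm, sum_congr rfl fun m _ => (h4 m).symm]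
      _ ≤ ∑ m ∈ bd y r, (u : ℝ) * (1 / (m : ℝ)) := by
          refine sum_le_sum fun m hm => ?_
          have h5 : ((Icc 1 u).filter (fun n => m ∣ n)).card = u / m := by
            rw [card_eq_sum_ones, brunT_multiples u m (hposb m hm), ← card_eq_sum_ones, Nat.card_Icc]
            simp
          rw [h5, mul_one_div]
          exact Nat.cast_div_le
      _ = u * ∑ m ∈ bd y r, (1 : ℝ) / m := by rw [mul_sum]
  -- the main term
  have e3 : ‖∑ n ∈ Icc 1 u, ((h n : ℝ) : ℂ) * f n‖ ≤ u * E * ∑ m ∈ bdl y r, (1 : ℝ) / m := by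
    have e4 : ∑ n ∈ Icc 1 u, ((h n : ℝ) : ℂ) * f n =
        ∑ m ∈ bdl y r, ((ArithmeticFunction.moebius m : ℝ) : ℂ) * (f m * ∑ k ∈ Icc 1 (u / m), f k) := by
      have h6 : ∀ n, ((h n : ℝ) : ℂ) * f n =
          ∑ m ∈ bdl y r, if m ∣ n then ((ArithmeticFunction.moebius m : ℝ) : ℂ) * f n else 0 := by
        intro n
        rw [hh]
        dsimp only
        rw [Complex.ofReal_sum, sum_mul, sum_filter]
      rw [sum_congr rfl fun n _ => h6 n, sum_comm]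
      refine sum_congr rfl fun m hm => ?_
      rw [← sum_filter, ← mul_sum, brunT_multiples u m (hposl m hm)]
      congr 1
      rw [mul_sum]
      refine sum_congr rfl fun k hk => ?_
      rw [hf]
      exact brunT_f_mul χ t m k (by have := hposl m hm; omega) (by have := (mem_Icc.1 hk).1; omega)
    rw [e4]
    calc ‖∑ m ∈ bdl y r, ((ArithmeticFunction.moebius m : ℝ) : ℂ) * (f m * ∑ k ∈ Icc 1 (u / m), f k)‖
        ≤ ∑ m ∈ bdl y r, ‖((ArithmeticFunction.moebius m : ℝ) : ℂ) * (f m * ∑ k ∈ Icc 1 (u / m), f k)‖ :=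
          norm_sum_le _ _
      _ ≤ ∑ m ∈ bdl y r, (u : ℝ) * E * (1 / (m : ℝ)) := by
          refine sum_le_sum fun m hm => ?_
          rw [norm_mul, norm_mul, Complex.norm_real, Real.norm_eq_abs]
          have h7 : |((ArithmeticFunction.moebius m : ℤ) : ℝ)| ≤ 1 := by
            have := ArithmeticFunction.abs_moebius_le_one (n := m)
            exact_mod_cast this
          have h8 : ‖f m‖ ≤ 1 := brunT_f_le χ t m
          have h9 : ‖∑ k ∈ Icc 1 (u / m), f k‖ ≤ ((u / m : ℕ) : ℝ) * E := hE m hm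
          have h10 : ((u / m : ℕ) : ℝ) ≤ (u : ℝ) / m := Nat.cast_div_le
          calc |((ArithmeticFunction.moebius m : ℤ) : ℝ)| * (‖f m‖ * ‖∑ k ∈ Icc 1 (u / m), f k‖)
              ≤ 1 * (1 * (((u / m : ℕ) : ℝ) * E)) := by
                refine mul_le_mul h7 ?_ (by positivity) zero_le_one
                exact mul_le_mul h8 h9 (norm_nonneg _) zero_le_one
            _ = ((u / m : ℕ) : ℝ) * E := by ring
            _ ≤ (u : ℝ) / m * E := mul_le_mul_of_nonneg_right h10 hE0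
            _ = (u : ℝ) * E * (1 / (m : ℝ)) := by ring
      _ = u * E * ∑ m ∈ bdl y r, (1 : ℝ) / m := by rw [mul_sum]
  rw [e1]
  exact (norm_add_le _ _).trans (add_le_add e3 e2)

private theorem brunT_ev (c : ℝ) : ∃ x0 : ℕ, ∀ x : ℕ, x0 ≤ x → c ≤ LL x := by
  have h1 : Filter.Tendsto (fun x : ℕ => LL x) Filter.atTop Filter.atTop := by
    unfold LL
    exact Real.tendsto_log_atTop.comp (Real.tendsto_log_atTop.comp tendsto_natCast_atTop_atTop)
  obtain ⟨x0, hx0⟩ := Filter.eventually_atTop.1 (h1.eventually_ge_atTop c)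
  exact ⟨x0, hx0⟩

theorem rtw_h [T0] (h_psum : psum_P)  (A B : ℕ) : ∃ K' D x0 : ℕ, ∀ x : ℕ, x0 ≤ x → ∀ (d : ℕ) (χ : DirichletCharacter ℂ d) (t : ℝ) (u : ℕ),
    1 ≤ d → (d : ℝ) ≤ Real.log x ^ B → Real.log x ^ K' ≤ |t| → |t| ≤ (x : ℝ) ^ (3 : ℕ) → D * (LL x * L9 x) ≤ Real.log u →
    ‖∑ n ∈ Icc 1 u, ch x χ (n : ZMod (qm x d)) * ee (t * Real.log n)‖ ≤ u / Real.log x ^ A := by
  obtain ⟨K', x1, hps⟩ := h_psum (A + 3) B
  obtain ⟨x2, hev⟩ := yx_ev
  obtain ⟨C1, hC1, htail⟩ := brun_tail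
  obtain ⟨C2, hC2, hsum⟩ := brun_sum
  obtain ⟨x3, h3⟩ := brunT_ev (C1 + 2 * C2 + 2)
  refine ⟨K', 20 * (A + 1) + 4, max x1 (max x2 x3), ?_⟩
  intro x hx d χ t u hd hdB ht1 ht2 hu
  have hx1 : x1 ≤ x := (le_max_left _ _).trans hx
  have hx2 : x2 ≤ x := ((le_max_left _ _).trans (le_max_right _ _)).trans hx
  have hx3 : x3 ≤ x := ((le_max_right _ _).trans (le_max_right _ _)).trans hx
  obtain ⟨hy3, hyL, _, hLL1, hL91, hL1, _⟩ := hev x hx2
  have hLLc := h3 x hx3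
  set L : ℝ := Real.log x with hL
  set y : ℕ := Yx x with hy
  have hLLdef : LL x = Real.log L := rfl
  have hLpos : 0 < L := by linarith
  have hexpLL : Real.exp (LL x) = L := by rw [hLLdef, Real.exp_log hLpos]
  have hLbig : C1 + 2 * C2 + 2 ≤ L := by
    have h4 : LL x + 1 ≤ L := by
      have := Real.add_one_le_exp (LL x)
      rwa [hexpLL] at this
    linarith
  have hL9L : L9 x ≤ L := by
    unfold L9
    calc L ^ T0.t ≤ L ^ (1 : ℝ) := Real.rpow_le_rpow_of_exponent_le hL1 T0.hi.le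
      _ = L := Real.rpow_one L
  set r : ℕ := ⌈20 * ((A : ℝ) + 1) * LL x⌉₊ + 1 with hr
  have hr1 : 1 ≤ r := by omega
  have hA0 : (0 : ℝ) ≤ (A : ℝ) := Nat.cast_nonneg A
  have hrlow : 20 * ((A : ℝ) + 1) * LL x ≤ r := by
    have h5 := Nat.le_ceil (20 * ((A : ℝ) + 1) * LL x)
    rw [hr]
    push_cast
    linarith
  have hrup : (r : ℝ) ≤ 20 * ((A : ℝ) + 1) * LL x + 2 := by
    have h5 := Nat.ceil_lt_add_one (a := 20 * ((A : ℝ) + 1) * LL x) (by positivity)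
    rw [hr]
    push_cast
    linarith
  have hrpos : (0 : ℝ) < r := by exact_mod_cast hr1
  -- `y ^ (r + 2) ≤ u`
  have hypos : (0 : ℝ) < y := by
    have : 0 < y := by omega
    exact_mod_cast this
  have hlogu : ((r + 2 : ℕ) : ℝ) * Real.log y ≤ Real.log u := by
    have hly : 0 ≤ Real.log y := Real.log_natCast_nonneg y
    have h6 : ((r + 2 : ℕ) : ℝ) ≤ ((20 * (A + 1) + 4 : ℕ) : ℝ) * LL x := by
      push_cast
      nlinarith
    calc ((r + 2 : ℕ) : ℝ) * Real.log y ≤ ((r + 2 : ℕ) : ℝ) * L9 x :=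
          mul_le_mul_of_nonneg_left hyL (Nat.cast_nonneg _)
      _ ≤ ((20 * (A + 1) + 4 : ℕ) : ℝ) * LL x * L9 x :=
          mul_le_mul_of_nonneg_right h6 (by linarith)
      _ = ((20 * (A + 1) + 4 : ℕ) : ℝ) * (LL x * L9 x) := by ring
      _ ≤ Real.log u := hu
  have hupos : (0 : ℝ) < u := by
    rcases Nat.eq_zero_or_pos u with h | h
    · exfalso
      rw [h] at hu
      simp only [Nat.cast_zero, Real.log_zero] at hu
      have h7 : (0 : ℝ) < ((20 * (A + 1) + 4 : ℕ) : ℝ) * (LL x * L9 x) := by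
        have : (0 : ℝ) < ((20 * (A + 1) + 4 : ℕ) : ℝ) := by
          have : 0 < 20 * (A + 1) + 4 := by omega
          exact_mod_cast this
        have h8 : (0 : ℝ) < LL x * L9 x := by nlinarith
        exact mul_pos this h8
      linarith
    · exact_mod_cast h
  have hyu : y ^ (r + 2) ≤ u := by
    have h7 : ((y : ℝ)) ^ (r + 2) ≤ u := by
      rw [← Real.log_le_log_iff (by positivity) hupos, Real.log_pow]
      exact hlogu
    exact_mod_cast h7
  have hdiv : ∀ m ∈ bdl y r, y + 1 ≤ u / m := by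
    intro m hm
    have hm1 : 1 ≤ m := by
      unfold bdl at hm
      exact Nat.pos_of_dvd_of_pos (Nat.dvd_of_mem_divisors (mem_filter.1 hm).1) (primorial_pos y)
    rw [Nat.le_div_iff_mul_le hm1]
    have h8 : m ≤ y ^ r := bdl_le y r m (by omega) hm
    calc (y + 1) * m ≤ (y * y) * y ^ r := by
          refine Nat.mul_le_mul ?_ h8
          nlinarith
      _ = y ^ (r + 2) := by ring
      _ ≤ u := hyu
  have hE : ∀ m ∈ bdl y r, ‖∑ k ∈ Icc 1 (u / m), brunT_f χ t k‖ ≤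
      ((u / m : ℕ) : ℝ) * (1 / L ^ (A + 3)) := by
    intro m hm
    have h9 := hps x hx1 d χ t (u / m) hd hdB ht1 ht2 (hdiv m hm)
    unfold brunT_f
    rw [mul_one_div]
    exact h9
  have hmain := brunT_main χ t y r u hr1 (1 / L ^ (A + 3)) hE (by positivity)
  have hrew : ∑ n ∈ Icc 1 u, ch x χ (n : ZMod (qm x d)) * ee (t * Real.log n) =
      ∑ n ∈ Icc 1 u, (if n.Coprime (primorial y) then brunT_f χ t n else 0) := by
    refine sum_congr rfl fun n _ => ?_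
    rw [ch_apply x hd χ n]
    unfold brunT_f
    split_ifs
    · rfl
    · rw [zero_mul]
  rw [hrew]
  refine hmain.trans ?_
  have hLA : 0 < L ^ A := by positivity
  -- first part
  have p1 : (u : ℝ) * (1 / L ^ (A + 3)) * ∑ m ∈ bdl y r, (1 : ℝ) / m ≤ u / L ^ A / 2 := by
    have h10 := hsum y r hy3
    have h11 : C2 * Real.log y ≤ C2 * L := mul_le_mul_of_nonneg_left (hyL.trans hL9L) (by linarith)
    calc (u : ℝ) * (1 / L ^ (A + 3)) * ∑ m ∈ bdl y r, (1 : ℝ) / m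
        ≤ (u : ℝ) * (1 / L ^ (A + 3)) * (C2 * L) :=
          mul_le_mul_of_nonneg_left (h10.trans h11) (by positivity)
      _ = (u : ℝ) / L ^ A * (C2 / L ^ 2) := by
          rw [pow_add]
          field_simp
      _ ≤ (u : ℝ) / L ^ A * (1 / 2) := by
          refine mul_le_mul_of_nonneg_left ?_ (by positivity)
          rw [div_le_div_iff₀ (by positivity) (by norm_num)]
          nlinarith
      _ = u / L ^ A / 2 := by ring
  -- second part
  have p2 : (u : ℝ) * ∑ m ∈ bd y r, (1 : ℝ) / m ≤ u / L ^ A / 2 := by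
    have h12 := htail y r hy3 hr1
    have hlogy1 : 1 ≤ Real.log y := by
      have h13 : Real.exp 1 ≤ y := by
        have := Real.exp_one_lt_d9
        have h14 : (3 : ℝ) ≤ y := by exact_mod_cast hy3
        linarith
      rw [← Real.log_exp 1]
      exact Real.log_le_log (Real.exp_pos 1) h13
    have hll : Real.log (Real.log y) ≤ LL x := by
      rw [hLLdef]
      exact Real.log_le_log (by linarith) (hyL.trans hL9L)
    have hll0 : 0 ≤ Real.log (Real.log y) := Real.log_nonneg hlogy1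
    have hbase : Real.exp 1 * (Real.log (Real.log y) + C1) / r ≤ Real.exp (-1) := by
      rw [div_le_iff₀ hrpos]
      have h15 : Real.log (Real.log y) + C1 ≤ 2 * LL x := by linarith
      have h16 : Real.exp 1 < 3 := by
        have := Real.exp_one_lt_d9
        linarith
      have h17 : Real.exp 1 * Real.exp (-1) = 1 := by
        rw [← Real.exp_add]
        simp
      have h18 : (1 : ℝ) / 3 ≤ Real.exp (-1) := by
        have hp : 0 < Real.exp (-1) := Real.exp_pos _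
        rw [div_le_iff₀ (by norm_num)]
        nlinarith
      have h19 : 20 * LL x ≤ r := by nlinarith
      calc Real.exp 1 * (Real.log (Real.log y) + C1) ≤ 3 * (2 * LL x) := by
            refine mul_le_mul h16.le h15 (by linarith) (by norm_num)
        _ ≤ 1 / 3 * r := by nlinarith
        _ ≤ Real.exp (-1) * r := mul_le_mul_of_nonneg_right h18 hrpos.le
    have hbase0 : 0 ≤ Real.exp 1 * (Real.log (Real.log y) + C1) / r := by
      have : 0 ≤ Real.log (Real.log y) + C1 := by linarith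
      positivity
    have h20 : (Real.exp 1 * (Real.log (Real.log y) + C1) / r) ^ r ≤ 1 / L ^ A / 2 := by
      calc (Real.exp 1 * (Real.log (Real.log y) + C1) / r) ^ r ≤ Real.exp (-1) ^ r :=
            pow_le_pow_left₀ hbase0 hbase r
        _ = Real.exp (-(r : ℝ)) := by
            rw [← Real.exp_nat_mul]
            congr 1
            ring
        _ ≤ Real.exp (-(((A : ℝ) + 1) * LL x)) := by
            refine Real.exp_le_exp.2 ?_
            nlinarith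
        _ = 1 / L ^ (A + 1) := by
            rw [Real.exp_neg, one_div]
            congr 1
            have : ((A : ℝ) + 1) * LL x = ((A + 1 : ℕ) : ℝ) * LL x := by push_cast; ring
            rw [this, Real.exp_nat_mul, hexpLL]
        _ ≤ 1 / L ^ A / 2 := by
            rw [div_div]
            refine one_div_le_one_div_of_le (by positivity) ?_
            rw [pow_succ]
            refine mul_le_mul_of_nonneg_left ?_ hLA.le
            linarith
    calc (u : ℝ) * ∑ m ∈ bd y r, (1 : ℝ) / m ≤ u * (1 / L ^ A / 2) :=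
          mul_le_mul_of_nonneg_left (h12.trans h20) hupos.le
      _ = u / L ^ A / 2 := by ring
  linarith

end Pool.Agent.H76.VKT

end

section

/-!
# VKT (H97/VK of helper97 with the parameter `T0.t` in place of `9/10`, `t1` in place of `19/20`) Low: lower bound for the sieved `L`-functions

Proof (compare `EHA/SwC.lean`).  `q = qm x d`, `ψ = ch x χ`, `ψ^2 = ch x (χ^2)` (`ch_sq`), `s = σ + iτ`.
3-4-1: `DirichletCharacter.norm_LSeries_product_ge_one` (`Mathlib/NumberTheory/LSeries/Nonvanishing.lean`; `Lk q ψ 0` is the `LSeries` of `ψ`):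
`‖Lk q 1 0 σ‖^3 ‖Lk q ψ 0 (σ+iτ)‖^4 ‖Lk q ψ^2 0 (σ+2iτ)‖ ≥ 1`.
`zy_up`: `‖Lk q 1 0 σ‖ ≤ 2C/(η L9)` for `η = σ - 1 ≤ 1/L9`, `≤ 2C` for `η ≥ 1/L9`; `lk_up 0`: `‖Lk q ψ^2 0 (σ + 2iτ)‖ ≤ C LL` (`|2τ| ≤ 6 x^3`).
(a) `η ≥ 1/L9`: `‖L‖ ≥ c LL^{-1/4} ≥ c/LL^7`.
(b) `1/L9 ≥ η ≥ η0 := c'/(L9 LL^9)`: `‖L‖ ≥ c1 (η L9)^{3/4} LL^{-1/4} ≥ c1 c'^{3/4} LL^{-7}`.
(c) `1/(4L) ≤ η ≤ η0`: `‖L(σ+iτ) - L(1+η0+iτ)‖ ≤ η0 C2 L9 LL^2 = C2 c' LL^{-7}` (`lk_up 1`, `Lk_hasDeriv`, mean value inequality on the segment), and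
`C2 c' ≤ (c1/2) c'^{3/4}` for `c'` small.  (`η0 ≥ 1/(4L)` or not does not matter.)
-/

set_option autoImplicit false

namespace Pool.Agent.H76.VKT

open Finset
open Pool.Agent.H91.EHA

/-- abstract 3-4-1 argument on `[u0, 1]` -/
private theorem Low_core (F : ℝ → ℝ) (u0 A D K : ℝ) (hu0 : 0 < u0) (hA : 1 ≤ A) (hD : 1 ≤ D) (hK : 1 ≤ K)
    (h1 : ∀ u, u0 ≤ u → u ≤ 1 → u ^ 3 ≤ A ^ 3 * K * F u ^ 4)
    (h2 : ∀ u u', u0 ≤ u → u ≤ u' → u' ≤ 1 → F u' ≤ F u + D * (u' - u))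
    (h0 : ∀ u, u0 ≤ u → u ≤ 1 → 0 ≤ F u) (u : ℝ) (hu : u0 ≤ u) (hu1 : u ≤ 1) :
    1 / (32 * D ^ 3 * A ^ 3 * K) ≤ F u := by
  by_contra hcon
  push Not at hcon
  have hA3 : (1:ℝ) ≤ A ^ 3 := one_le_pow₀ hA
  have hD3 : (1:ℝ) ≤ D ^ 3 := one_le_pow₀ hD
  have hD4 : (1:ℝ) ≤ D ^ 4 := one_le_pow₀ hD
  have hAK : (1:ℝ) ≤ A ^ 3 * K := by nlinarith
  set P : ℝ := A ^ 3 * K with hP
  have hP0 : 0 < P := by linarith
  have hDp : 0 < D := by linarith
  set η : ℝ := 1 / (32 * D ^ 4 * P) with hη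
  have hη0 : 0 < η := by positivity
  have hη1 : η ≤ 1 / 32 := by
    rw [hη]
    apply one_div_le_one_div_of_le (by norm_num)
    nlinarith [mul_le_mul hD4 hAK (by norm_num) (by positivity)]
  have hm : 1 / (32 * D ^ 3 * A ^ 3 * K) = D * η := by
    rw [hη, hP]; field_simp
  rw [hm] at hcon
  have hPη : 32 * D ^ 4 * P * η = 1 := by
    rw [hη]; field_simp
  have hF0 := h0 u hu hu1
  rcases le_or_gt η u with hc | hc
  · have h := h1 u hu hu1
    have h4 : F u ^ 4 ≤ (D * η) ^ 4 := pow_le_pow_left₀ hF0 hcon.le 4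
    have h3 : η ^ 3 ≤ u ^ 3 := pow_le_pow_left₀ hη0.le hc 3
    have h5 : η ^ 3 ≤ P * (D * η) ^ 4 := by
      calc η ^ 3 ≤ u ^ 3 := h3
        _ ≤ P * F u ^ 4 := h
        _ ≤ P * (D * η) ^ 4 := mul_le_mul_of_nonneg_left h4 hP0.le
    have h6 : P * (D * η) ^ 4 = η ^ 3 * (D ^ 4 * P * η) := by ring
    have h7 : D ^ 4 * P * η = 1 / 32 := by linarith
    rw [h6, h7] at h5
    have : 0 < η ^ 3 := by positivity
    linarith
  · have h := h1 η (by linarith) (by linarith)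
    have hl := h2 u η hu hc.le (by linarith)
    have hl2 : F η ≤ 2 * (D * η) := by
      have : D * (η - u) ≤ D * η := mul_le_mul_of_nonneg_left (by linarith) hDp.le
      linarith
    have h4 : F η ^ 4 ≤ (2 * (D * η)) ^ 4 :=
      pow_le_pow_left₀ (h0 _ (by linarith) (by linarith)) hl2 4
    have h5 : η ^ 3 ≤ P * (2 * (D * η)) ^ 4 := by
      calc η ^ 3 ≤ P * F η ^ 4 := h
        _ ≤ _ := mul_le_mul_of_nonneg_left h4 hP0.le
    have h6 : P * (2 * (D * η)) ^ 4 = η ^ 3 * (16 * (D ^ 4 * P * η)) := by ring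
    have h7 : D ^ 4 * P * η = 1 / 32 := by linarith
    rw [h6, h7] at h5
    have : 0 < η ^ 3 := by positivity
    linarith

private theorem Low_Lk0 (q : ℕ) (χ : DirichletCharacter ℂ q) (s : ℂ) :
    Lk q χ 0 s = LSeries (fun n : ℕ => χ (n : ZMod q)) s := by
  unfold Lk; simp

private theorem Low_341 (q : ℕ) (χ : DirichletCharacter ℂ q) (σ t Z : ℝ) (h1 : 1 < σ)
    (hZ : ‖Lk q 1 0 ((σ : ℂ))‖ ≤ Z) :
    1 ≤ Z ^ 3 * ‖Lk q (χ ^ 2) 0 ⟨σ, 2 * t⟩‖ * ‖Lk q χ 0 ⟨σ, t⟩‖ ^ 4 := by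
  have hx : 0 < σ - 1 := by linarith
  have h := DirichletCharacter.norm_LSeries_product_ge_one χ hx t
  have e1 : (1 + ((σ - 1 : ℝ) : ℂ)) = (σ : ℂ) := by push_cast; ring
  have e2 : (σ : ℂ) + Complex.I * t = ⟨σ, t⟩ := by
    apply Complex.ext <;> simp
  have e3 : (σ : ℂ) + 2 * Complex.I * t = ⟨σ, 2 * t⟩ := by
    apply Complex.ext <;> simp
  rw [e1, e2, e3] at h
  rw [norm_mul, norm_mul, norm_pow, norm_pow] at h
  rw [Low_Lk0 q χ, Low_Lk0 q (χ ^ 2)]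
  rw [Low_Lk0 q 1] at hZ
  have hb3 := pow_le_pow_left₀ (norm_nonneg _) hZ 3
  set a := ‖LSeries (fun n : ℕ => (1 : DirichletCharacter ℂ q) (n : ZMod q)) (σ : ℂ)‖
  set b := ‖LSeries (fun n : ℕ => χ (n : ZMod q)) ⟨σ, t⟩‖
  set c := ‖LSeries (fun n : ℕ => (χ ^ 2) (n : ZMod q)) ⟨σ, 2 * t⟩‖
  have hc : 0 ≤ c := norm_nonneg _
  have hb0 : 0 ≤ b ^ 4 := by positivity
  calc (1:ℝ) ≤ a ^ 3 * b ^ 4 * c := h
    _ ≤ Z ^ 3 * b ^ 4 * c := by gcongr
    _ = _ := by ring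

private theorem Low_lip (q : ℕ) (χ : DirichletCharacter ℂ q) (S : Set ℂ) (hS : Convex ℝ S)
    (h1 : ∀ w ∈ S, 1 < w.re) (D : ℝ) (hD : ∀ w ∈ S, ‖Lk q χ 1 w‖ ≤ D) (a b : ℂ) (ha : a ∈ S)
    (hb : b ∈ S) : ‖Lk q χ 0 b - Lk q χ 0 a‖ ≤ D * ‖b - a‖ := by
  refine Convex.norm_image_sub_le_of_norm_hasDerivWithin_le (f' := fun w => -(Lk q χ (0 + 1) w))
    (fun w hw => (Lk_hasDeriv q χ 0 w (h1 w hw)).hasDerivWithinAt) (fun w hw => ?_) hS ha hb
  rw [norm_neg]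
  exact hD w hw

/-- the Lipschitz bound on a horizontal segment -/
private theorem Low_seg (q : ℕ) (χ : DirichletCharacter ℂ q) (t D σ0 : ℝ) (hσ0 : 1 < σ0)
    (hD : ∀ σ : ℝ, σ0 ≤ σ → σ ≤ 2 → ‖Lk q χ 1 ⟨σ, t⟩‖ ≤ D) (σ σ' : ℝ) (h1 : σ0 ≤ σ) (hle : σ ≤ σ')
    (h2 : σ' ≤ 2) : ‖Lk q χ 0 ⟨σ', t⟩‖ ≤ ‖Lk q χ 0 ⟨σ, t⟩‖ + D * (σ' - σ) := by
  set S : Set ℂ := {w | σ0 ≤ w.re ∧ w.re ≤ 2 ∧ w.im = t} with hSdef
  have hS : Convex ℝ S := by
    have e : S = {w | σ0 ≤ w.re} ∩ ({w | w.re ≤ 2} ∩ {w | w.im = t}) := by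
      ext w; simp [hSdef]
    rw [e]
    refine Convex.inter (convex_halfSpace_re_ge σ0) (Convex.inter (convex_halfSpace_re_le 2) ?_)
    have e2 : {w : ℂ | w.im = t} = {w | w.im ≤ t} ∩ {w | t ≤ w.im} := by
      ext w; simp [le_antisymm_iff]
    rw [e2]
    exact Convex.inter (convex_halfSpace_im_le t) (convex_halfSpace_im_ge t)
  have hb : ∀ w ∈ S, ‖Lk q χ 1 w‖ ≤ D := by
    rintro ⟨a, b⟩ ⟨h1, h2, h3⟩
    simp only at h1 h2 h3
    subst h3
    exact hD a h1 h2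
  have := Low_lip q χ S hS (fun w hw => lt_of_lt_of_le hσ0 hw.1) D hb ⟨σ, t⟩ ⟨σ', t⟩ ⟨h1, by simp; linarith, rfl⟩
    ⟨by simp; linarith, h2, rfl⟩
  have e : ‖(⟨σ', t⟩ : ℂ) - ⟨σ, t⟩‖ = σ' - σ := by
    have : (⟨σ', t⟩ : ℂ) - ⟨σ, t⟩ = ((σ' - σ : ℝ) : ℂ) := by
      apply Complex.ext <;> simp
    rw [this, Complex.norm_real]
    exact abs_of_nonneg (by linarith)
  rw [e] at this
  have h4 := norm_sub_norm_le (Lk q χ 0 ⟨σ', t⟩) (Lk q χ 0 ⟨σ, t⟩)
  linarith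

/-- the scaled horizontal argument -/
private theorem Low_hor (q : ℕ) (χ : DirichletCharacter ℂ q) (t lam C D K η0 : ℝ) (hlam : 1 ≤ lam)
    (hη0 : 0 < η0) (hC : 1 ≤ C) (hD1 : 1 ≤ D) (hK1 : 1 ≤ K)
    (hZ : ∀ σ : ℝ, 1 < σ → σ ≤ 2 → ‖Lk q 1 0 ((σ : ℂ))‖ ≤ C * (1 + 1 / ((σ - 1) * lam)))
    (hD : ∀ σ : ℝ, 1 + η0 ≤ σ → σ ≤ 2 → ‖Lk q χ 1 ⟨σ, t⟩‖ ≤ lam * D)
    (hK : ∀ σ : ℝ, 1 + η0 ≤ σ → σ ≤ 2 → ‖Lk q (χ ^ 2) 0 ⟨σ, 2 * t⟩‖ ≤ K)
    (σ : ℝ) (h1 : 1 + η0 ≤ σ) (h2 : σ ≤ 2) :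
    1 / (32 * D ^ 3 * (2 * C) ^ 3 * K) ≤ ‖Lk q χ 0 ⟨σ, t⟩‖ := by
  have hlam0 : 0 < lam := by linarith
  rcases le_or_gt ((σ - 1) * lam) 1 with hc | hc
  · -- small
    have hu : ∀ u : ℝ, η0 * lam ≤ u → u ≤ 1 → 1 + η0 ≤ 1 + u / lam ∧ 1 + u / lam ≤ 2 := by
      intro u hu1 hu2
      have a1 : η0 ≤ u / lam := by rwa [le_div_iff₀ hlam0]
      have a2 : u / lam ≤ 1 := by
        rw [div_le_one hlam0]; linarith
      exact ⟨by linarith, by linarith⟩
    have key := Low_core (fun u => ‖Lk q χ 0 ⟨1 + u / lam, t⟩‖) (η0 * lam) (2 * C) D K (by positivity)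
      (by linarith) hD1 hK1 ?_ ?_ (fun _ _ _ => norm_nonneg _) ((σ - 1) * lam) ?_ hc
    · have e : 1 + (σ - 1) * lam / lam = σ := by
        field_simp
        ring
      simpa only [e] using key
    · intro u hu1 hu2
      obtain ⟨b1, b2⟩ := hu u hu1 hu2
      have hu0 : 0 < u := lt_of_lt_of_le (by positivity) hu1
      have hσ1 : 1 < 1 + u / lam := by
        have : 0 < u / lam := by positivity
        linarith
      have hz := hZ (1 + u / lam) hσ1 b2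
      have hz2 : ‖Lk q 1 0 (((1 + u / lam : ℝ) : ℂ))‖ ≤ 2 * C / u := by
        refine hz.trans ?_
        have e : (1 + u / lam - 1) * lam = u := by
          field_simp
          ring
        rw [e]
        have h3 : (1:ℝ) ≤ 1 / u := by rw [le_div_iff₀ hu0]; linarith
        have h4 : C * (1 + 1 / u) ≤ C * (1 / u + 1 / u) :=
          mul_le_mul_of_nonneg_left (by linarith) (by linarith)
        refine h4.trans (le_of_eq ?_)
        ring
      have h := Low_341 q χ (1 + u / lam) t (2 * C / u) hσ1 hz2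
      have hk := hK (1 + u / lam) b1 b2
      have hF : 0 ≤ ‖Lk q χ 0 ⟨1 + u / lam, t⟩‖ ^ 4 := by positivity
      have hu3 : 0 < u ^ 3 := by positivity
      have hC0 : 0 < 2 * C := by linarith
      calc u ^ 3 = u ^ 3 * 1 := by ring
        _ ≤ u ^ 3 * ((2 * C / u) ^ 3 * ‖Lk q (χ ^ 2) 0 ⟨1 + u / lam, 2 * t⟩‖ *
              ‖Lk q χ 0 ⟨1 + u / lam, t⟩‖ ^ 4) := mul_le_mul_of_nonneg_left h hu3.le
        _ ≤ u ^ 3 * ((2 * C / u) ^ 3 * K * ‖Lk q χ 0 ⟨1 + u / lam, t⟩‖ ^ 4) := by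
              gcongr
        _ = (2 * C) ^ 3 * K * ‖Lk q χ 0 ⟨1 + u / lam, t⟩‖ ^ 4 := by
              field_simp
    · intro u u' hu1 hle hu2
      obtain ⟨b1, _⟩ := hu u hu1 (hle.trans hu2)
      obtain ⟨_, b2⟩ := hu u' (hu1.trans hle) hu2
      have h := Low_seg q χ t (lam * D) (1 + η0) (by linarith) hD (1 + u / lam) (1 + u' / lam) b1
        (by gcongr) b2
      refine h.trans (le_of_eq ?_)
      field_simp
      ring
    · have : η0 ≤ σ - 1 := by linarith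
      exact mul_le_mul_of_nonneg_right this hlam0.le
  · -- large
    have hσ1 : 1 < σ := by linarith
    have hz := hZ σ hσ1 h2
    have hz2 : ‖Lk q 1 0 ((σ : ℂ))‖ ≤ 2 * C := by
      refine hz.trans ?_
      have h3 : 1 / ((σ - 1) * lam) ≤ 1 := by
        rw [div_le_one (by linarith)]; exact hc.le
      have h4 : C * (1 + 1 / ((σ - 1) * lam)) ≤ C * (1 + 1) :=
        mul_le_mul_of_nonneg_left (by linarith) (by linarith)
      linarith
    have h := Low_341 q χ σ t (2 * C) hσ1 hz2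
    have hk := hK σ h1 h2
    set F := ‖Lk q χ 0 ⟨σ, t⟩‖ with hF
    have hF0 : 0 ≤ F := norm_nonneg _
    have h5 : 1 ≤ (2 * C) ^ 3 * K * F ^ 4 := by
      refine h.trans ?_
      gcongr
    set P : ℝ := (2 * C) ^ 3 * K with hP
    have hP1 : 1 ≤ P := by
      have : (1:ℝ) ≤ (2 * C) ^ 3 := one_le_pow₀ (by linarith)
      nlinarith
    have hP0 : 0 < P := by linarith
    have h6 : 1 / (32 * D ^ 3 * (2 * C) ^ 3 * K) ≤ 1 / P := by
      apply one_div_le_one_div_of_le hP0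
      have hD3 : (1:ℝ) ≤ D ^ 3 := one_le_pow₀ hD1
      have : 32 * D ^ 3 * (2 * C) ^ 3 * K = 32 * D ^ 3 * P := by rw [hP]; ring
      rw [this]
      nlinarith
    refine h6.trans ?_
    by_contra hcon
    push Not at hcon
    have h7 : F ^ 4 ≤ (1 / P) ^ 4 := pow_le_pow_left₀ hF0 hcon.le 4
    have hP3 : 1 ≤ P ^ 3 := one_le_pow₀ hP1
    -- F < 1/P ≤ 1
    have hF1 : F < 1 := lt_of_lt_of_le hcon (by rw [div_le_one hP0]; exact hP1)
    have h8 : F ^ 4 ≤ F := by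
      have : F ^ 3 ≤ 1 := pow_le_one₀ hF0 hF1.le
      calc F ^ 4 = F ^ 3 * F := by ring
        _ ≤ 1 * F := mul_le_mul_of_nonneg_right this hF0
        _ = F := one_mul F
    have h9 : P * F < 1 := by
      have := mul_lt_mul_of_pos_left hcon hP0
      rwa [mul_one_div_cancel hP0.ne'] at this
    have h10 : P * F ^ 4 ≤ P * F := mul_le_mul_of_nonneg_left h8 hP0.le
    linarith

theorem lk_low_h [T0] (h_lk_up : lk_up_P) (h_zy_up : zy_up_P)  (B : ℕ) : ∃ c : ℝ, 0 < c ∧ c ≤ 1 ∧ ∃ K' x0 : ℕ, ∀ x : ℕ, x0 ≤ x → ∀ (d : ℕ) (χ : DirichletCharacter ℂ d) (s : ℂ),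
    1 ≤ d → (d : ℝ) ≤ Real.log x ^ B → 1 + 1 / (4 * Real.log x) ≤ s.re → s.re ≤ 2 →
    Real.log x ^ K' ≤ |s.im| → |s.im| ≤ 3 * (x : ℝ) ^ (3 : ℕ) →
    c / LL x ^ 7 ≤ ‖Lk (qm x d) (ch x χ) 0 s‖ := by
  obtain ⟨C0, hC0, K0, x0, h0⟩ := h_lk_up 0 B
  obtain ⟨C1, hC1, K1, x1, h1⟩ := h_lk_up 1 B
  obtain ⟨Cz, hCz, xz, hz⟩ := h_zy_up
  obtain ⟨xe, he⟩ := yx_ev
  have hpos : 0 < 32 * C1 ^ 3 * (2 * Cz) ^ 3 * C0 := by positivity
  refine ⟨1 / (32 * C1 ^ 3 * (2 * Cz) ^ 3 * C0), by positivity, ?_, max K0 K1,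
    max (max x0 x1) (max xz xe), ?_⟩
  · rw [div_le_one hpos]
    have a1 : (1:ℝ) ≤ C1 ^ 3 := one_le_pow₀ hC1
    have a2 : (1:ℝ) ≤ (2 * Cz) ^ 3 := one_le_pow₀ (by linarith)
    have a3 : (1:ℝ) ≤ C1 ^ 3 * (2 * Cz) ^ 3 := by nlinarith
    have a4 : (1:ℝ) ≤ C1 ^ 3 * (2 * Cz) ^ 3 * C0 := by nlinarith
    nlinarith
  · intro x hx d χ s hd hdB hs1 hs2 ht1 ht2
    have hx0 : x0 ≤ x := le_trans (le_trans (le_max_left _ _) (le_max_left _ _)) hx
    have hx1 : x1 ≤ x := le_trans (le_trans (le_max_right _ _) (le_max_left _ _)) hx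
    have hxz : xz ≤ x := le_trans (le_trans (le_max_left _ _) (le_max_right _ _)) hx
    have hxe : xe ≤ x := le_trans (le_trans (le_max_right _ _) (le_max_right _ _)) hx
    obtain ⟨_, _, _, hLL, hL9, hL, _⟩ := he x hxe
    obtain ⟨σ, t⟩ := s
    simp only at hs1 hs2 ht1 ht2
    have hη0 : 0 < 1 / (4 * Real.log x) := by positivity
    have hLL0 : 0 < LL x := by linarith
    have hp0 : Real.log x ^ K0 ≤ Real.log x ^ (max K0 K1) := pow_le_pow_right₀ hL (le_max_left _ _)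
    have hp1 : Real.log x ^ K1 ≤ Real.log x ^ (max K0 K1) := pow_le_pow_right₀ hL (le_max_right _ _)
    have hx3 : (0:ℝ) ≤ (x:ℝ) ^ (3:ℕ) := by positivity
    have habs : |2 * t| = 2 * |t| := by rw [abs_mul]; norm_num
    have hD1 : 1 ≤ C1 * LL x ^ 2 := by
      have : (1:ℝ) ≤ LL x ^ 2 := one_le_pow₀ hLL
      nlinarith
    have hK1' : 1 ≤ C0 * LL x := by nlinarith
    have key := Low_hor (qm x d) (ch x χ) t (L9 x) Cz (C1 * LL x ^ 2) (C0 * LL x)
      (1 / (4 * Real.log x)) hL9 hη0 hCz hD1 hK1'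
      (fun σ' a1 a2 => by
        have := hz x hxz d (σ' : ℂ) hd (by simpa using a1) (by simpa using a2)
        simpa using this)
      (fun σ' a1 a2 => by
        have := h1 x hx1 d χ ⟨σ', t⟩ hd hdB a1 a2 (hp1.trans ht1) (by show |t| ≤ _; linarith)
        refine this.trans (le_of_eq ?_)
        ring)
      (fun σ' a1 a2 => by
        rw [ch_sq]
        have := h0 x hx0 d (χ ^ 2) ⟨σ', 2 * t⟩ hd hdB a1 a2
          (by show _ ≤ |2 * t|; rw [habs]; have := hp0.trans ht1; linarith [abs_nonneg t])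
          (by show |2 * t| ≤ _; rw [habs]; linarith)
        refine this.trans (le_of_eq ?_)
        ring)
      σ hs1 hs2
    refine le_trans (le_of_eq ?_) key
    field_simp

end Pool.Agent.H76.VKT

end
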