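import Pool.Agent.H43.PM.M08
import Pool.Agent.H43.PM.M19
import Pool.Agent.H43.PM.M21
import Pool.Agent.H43.PM.M22

/-! The parts of this file: H91.EHA.SwI, H91.EHA.SwJ1, H91.EHA.SwJ3, H91.EHA.SwK1, H53.MID.SwH. -/

section

/-!
# The Siegel-Walfisz theorem for primitive characters

`a_n = Λ(n)χ(n)(log n)^k`, `LSeries a = Fk q χ k`.  By `Fk_le k ε'` and `smooth_gen`, for `2 ≤ N ≤ 2z`:
`‖∑ a_n om(n/N)‖ ≤ C q^{ε'} z` (`N = 1`: `a_1 = 0`).  `smooth_to_sharp` with `y = z`,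
`H = log(2z)^{k+1}`, `P = 1`, `δ = 1/(2 (log y)^{c+1})`-like: for `√y ≤ z ≤ y`
`‖∑_{n≤z} a_n‖ ≤ C z (q^{ε'} δ^{-3} log z + (log 2z)^{k+1} δ) + ...`.
Abel summation divides by `(log n)^k` (for `n ≤ √y` use the trivial bound `√y log y`); take
`ε' = 1/(B+1)`, `k = 4c + 10`, so `q^{ε'} ≤ log y`.
For small `y` (bounded) enlarge the constant (`‖sum‖ ≤ y log y`).
-/

set_option autoImplicit false

namespace Pool.Agent.H91.EHA

open Finset
open Pool.Agent.H91.PK

private theorem swI_abel (a : ℕ → ℂ) (f : ℕ → ℝ) (M : ℝ) (z0 y : ℕ) (hz : z0 + 1 ≤ y)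
    (hf : ∀ n, z0 + 1 ≤ n → f (n + 1) ≤ f n) (hf0 : ∀ n, z0 + 1 ≤ n → 0 ≤ f n)
    (hA : ∀ z, z ≤ y → ‖∑ n ∈ Icc 1 z, a n‖ ≤ M) :
    ‖∑ n ∈ Ioc z0 y, (f n : ℂ) * a n‖ ≤ 2 * M * f (z0 + 1) := by
  have hM : 0 ≤ M := le_trans (norm_nonneg _) (hA 0 (by omega))
  have claim : ∀ m, z0 + 1 ≤ m → m ≤ y →
      ‖∑ n ∈ Ioc z0 m, (f n : ℂ) * a n - (f m : ℂ) * ∑ n ∈ Icc 1 m, a n‖ ≤
        M * (2 * f (z0 + 1) - f m) := by
    intro m hm
    induction m, hm using Nat.le_induction with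
    | base =>
      intro hy
      rw [Finset.sum_Icc_succ_top (by omega : 1 ≤ z0 + 1), mul_add,
        show Ioc z0 (z0 + 1) = {z0 + 1} by ext x; simp only [mem_Ioc, mem_singleton]; omega,
        Finset.sum_singleton]
      have e : (f (z0 + 1) : ℂ) * a (z0 + 1) - ((f (z0 + 1) : ℂ) * ∑ n ∈ Icc 1 z0, a n +
          (f (z0 + 1) : ℂ) * a (z0 + 1)) = -((f (z0 + 1) : ℂ) * ∑ n ∈ Icc 1 z0, a n) := by ring
      rw [e, norm_neg, norm_mul, Complex.norm_real, Real.norm_eq_abs,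
        abs_of_nonneg (hf0 _ le_rfl)]
      have := mul_le_mul_of_nonneg_left (hA z0 (by omega)) (hf0 _ (le_refl (z0 + 1)))
      linarith
    | succ m hm ih =>
      intro hy
      have ih' := ih (by omega)
      rw [Finset.sum_Ioc_succ_top (by omega : z0 ≤ m), Finset.sum_Icc_succ_top (by omega : 1 ≤ m + 1)]
      have e : ∑ n ∈ Ioc z0 m, (f n : ℂ) * a n + (f (m + 1) : ℂ) * a (m + 1) -
          (f (m + 1) : ℂ) * (∑ n ∈ Icc 1 m, a n + a (m + 1)) =
          (∑ n ∈ Ioc z0 m, (f n : ℂ) * a n - (f m : ℂ) * ∑ n ∈ Icc 1 m, a n) +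
            ((f m - f (m + 1) : ℝ) : ℂ) * ∑ n ∈ Icc 1 m, a n := by
        push_cast; ring
      rw [e]
      refine le_trans (norm_add_le _ _) ?_
      rw [norm_mul, Complex.norm_real, Real.norm_eq_abs, abs_of_nonneg (sub_nonneg.2 (hf m hm))]
      have := mul_le_mul_of_nonneg_left (hA m (by omega)) (sub_nonneg.2 (hf m hm))
      nlinarith
  have h1 := claim y hz le_rfl
  have h2 : ‖(f y : ℂ) * ∑ n ∈ Icc 1 y, a n‖ ≤ f y * M := by
    rw [norm_mul, Complex.norm_real, Real.norm_eq_abs, abs_of_nonneg (hf0 y hz)]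
    exact mul_le_mul_of_nonneg_left (hA y le_rfl) (hf0 y hz)
  have e : ∑ n ∈ Ioc z0 y, (f n : ℂ) * a n =
      (∑ n ∈ Ioc z0 y, (f n : ℂ) * a n - (f y : ℂ) * ∑ n ∈ Icc 1 y, a n) +
        (f y : ℂ) * ∑ n ∈ Icc 1 y, a n := by ring
  rw [e]
  refine le_trans (norm_add_le _ _) ?_
  linarith

private theorem swI_Lam_le {n : ℕ} : Lam n ≤ Real.log n := ArithmeticFunction.vonMangoldt_le_log

private theorem swI_Lam_nonneg {n : ℕ} : 0 ≤ Lam n := ArithmeticFunction.vonMangoldt_nonneg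

private theorem swI_pow_le (m : ℕ) {L : ℝ} (hL : 0 ≤ L) : L ^ m ≤ m.factorial * Real.exp L := by
  have h := Real.pow_div_factorial_le_exp L hL m
  have h0 : (0 : ℝ) < m.factorial := by exact_mod_cast m.factorial_pos
  rw [div_le_iff₀ h0] at h
  linarith

/-- The partial sums of `Λ(n) χ(n) (log n)^k`. -/
private theorem swI_partial (k : ℕ) (ε : ℝ) (hε : 0 < ε) : ∃ C : ℝ, 0 < C ∧ ∀ q : ℕ, 2 ≤ q →
    ∀ χ : DirichletCharacter ℂ q, χ.IsPrimitive → ∀ (y : ℕ) (δ : ℝ), 2 ≤ y → 0 < δ → δ ≤ 1 / 2 →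
      ∀ z ≤ y, ‖∑ n ∈ Icc 1 z, ((Lam n * Real.log n ^ k : ℝ) : ℂ) * χ (n : ZMod q)‖ ≤
        C * ((q : ℝ) ^ ε * y * (1 / δ ^ 3 + Real.log y) +
          Real.log (2 * y) ^ (k + 1) * (δ * y + Real.log y + 1 / δ ^ 3)) := by
  obtain ⟨C1, hC1, h1⟩ := Fk_le k ε hε
  obtain ⟨C2, hC2, h2⟩ := smooth_gen (20 * (k + 1))
  obtain ⟨C3, hC3, h3⟩ := smooth_to_sharp
  refine ⟨C3 * (2 * C2 * C1 + 1), by positivity, ?_⟩
  intro q hq χ hχ y δ hy hδ hδ2 z hz
  have hq0 : (0 : ℝ) < q := by exact_mod_cast (by omega : 0 < q)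
  have hqe : 0 < (q : ℝ) ^ ε := Real.rpow_pos_of_pos hq0 ε
  have hy0 : (0 : ℝ) < y := by exact_mod_cast (by omega : 0 < y)
  have hly : 0 ≤ Real.log y := Real.log_natCast_nonneg y
  have hl2y : 0 ≤ Real.log (2 * y) := Real.log_nonneg (by
    have : (2 : ℝ) ≤ y := by exact_mod_cast hy
    linarith)
  have hRHS : 0 ≤ C3 * (2 * C2 * C1 + 1) * ((q : ℝ) ^ ε * y * (1 / δ ^ 3 + Real.log y) +
          Real.log (2 * y) ^ (k + 1) * (δ * y + Real.log y + 1 / δ ^ 3)) := by positivity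
  set a : ℕ → ℂ := fun n => ((Lam n * Real.log n ^ k : ℝ) : ℂ) * χ (n : ZMod q) with ha
  have ha1 : a 1 = 0 := by
    simp [ha, Lam]
  rcases Nat.lt_or_ge z 2 with hz2 | hz2
  · have hzero : ∑ n ∈ Icc 1 z, a n = 0 := by
      apply Finset.sum_eq_zero
      intro n hn
      have := Finset.mem_Icc.1 hn
      have hn1 : n = 1 := by omega
      rw [hn1, ha1]
    rw [hzero, norm_zero]
    exact hRHS
  have hnorm : ∀ n, n ≤ 2 * y → ‖a n‖ ≤ Real.log (2 * y) ^ (k + 1) := by
    intro n hn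
    rw [ha]
    simp only
    rw [norm_mul, Complex.norm_real, Real.norm_eq_abs]
    have hl0 : 0 ≤ Real.log n := Real.log_natCast_nonneg n
    have hln : Real.log n ≤ Real.log (2 * y) := by
      rcases Nat.eq_zero_or_pos n with h0 | h0
      · subst h0; simpa using hl2y
      · apply Real.log_le_log (by exact_mod_cast h0)
        have : (n : ℝ) ≤ ((2 * y : ℕ) : ℝ) := by exact_mod_cast hn
        push_cast at this
        exact this
    rw [abs_of_nonneg (mul_nonneg swI_Lam_nonneg (pow_nonneg hl0 k))]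
    calc Lam n * Real.log n ^ k * ‖χ (n : ZMod q)‖ ≤ Lam n * Real.log n ^ k * 1 :=
          mul_le_mul_of_nonneg_left (DirichletCharacter.norm_le_one χ _)
            (mul_nonneg swI_Lam_nonneg (pow_nonneg hl0 k))
      _ ≤ Real.log n * Real.log n ^ k := by
          rw [mul_one]
          exact mul_le_mul_of_nonneg_right swI_Lam_le (pow_nonneg hl0 k)
      _ = Real.log n ^ (k + 1) := by ring
      _ ≤ Real.log (2 * y) ^ (k + 1) := pow_le_pow_left₀ hl0 hln _
  have key := h3 a (2 * C2 * C1 * ((q : ℝ) ^ ε) * y) (Real.log (2 * y) ^ (k + 1)) 1 z δ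
    (by positivity) (by positivity) le_rfl hz2 hδ hδ2 ?_ ?_
  · refine le_trans key ?_
    have hlz : Real.log z ≤ Real.log y := by
      apply Real.log_le_log (by exact_mod_cast (by omega : 0 < z))
      exact_mod_cast hz
    have hzy : (z : ℝ) ≤ y := by exact_mod_cast hz
    have hd3 : 0 < 1 / δ ^ 3 := by positivity
    have e1 : 2 * C2 * C1 * (q : ℝ) ^ ε * y * (1 / δ ^ 3 + Real.log z) ≤
        (2 * C2 * C1 + 1) * ((q : ℝ) ^ ε * y * (1 / δ ^ 3 + Real.log y)) := by
      have e2 : (q : ℝ) ^ ε * y * (1 / δ ^ 3 + Real.log z) ≤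
          (q : ℝ) ^ ε * y * (1 / δ ^ 3 + Real.log y) := by gcongr
      have e3 : 0 ≤ (q : ℝ) ^ ε * y * (1 / δ ^ 3 + Real.log y) := by positivity
      have e4 : 0 ≤ 2 * C2 * C1 := by positivity
      nlinarith [mul_le_mul_of_nonneg_left e2 e4]
    have e5 : Real.log (2 * y) ^ (k + 1) * (δ * z + Real.log z + 1 / δ ^ 3) ≤
        (2 * C2 * C1 + 1) *
          (Real.log (2 * y) ^ (k + 1) * (δ * y + Real.log y + 1 / δ ^ 3)) := by
      have e6 : Real.log (2 * y) ^ (k + 1) * (δ * z + Real.log z + 1 / δ ^ 3) ≤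
          Real.log (2 * y) ^ (k + 1) * (δ * y + Real.log y + 1 / δ ^ 3) := by gcongr
      have e7 : 0 ≤ Real.log (2 * y) ^ (k + 1) * (δ * y + Real.log y + 1 / δ ^ 3) := by positivity
      have e4 : 0 ≤ 2 * C2 * C1 := by positivity
      nlinarith [mul_nonneg e4 e7]
    have e8 := add_le_add e1 e5
    calc C3 * (2 * C2 * C1 * (q : ℝ) ^ ε * y * (1 / δ ^ 3 + Real.log z) +
          Real.log (2 * y) ^ (k + 1) * (δ * z + Real.log z + 1 / δ ^ 3))
        ≤ C3 * ((2 * C2 * C1 + 1) * ((q : ℝ) ^ ε * y * (1 / δ ^ 3 + Real.log y)) +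
          (2 * C2 * C1 + 1) *
          (Real.log (2 * y) ^ (k + 1) * (δ * y + Real.log y + 1 / δ ^ 3))) :=
          mul_le_mul_of_nonneg_left e8 hC3.le
      _ = _ := by ring
  · intro N hN1 hN2
    rcases Nat.lt_or_ge N 2 with hN | hN
    · have hN' : N = 1 := by omega
      subst hN'
      rw [Finset.Icc_self, Finset.sum_singleton, ha1, zero_mul, norm_zero]
      positivity
    · have h4 := h2 a (C1 * (q : ℝ) ^ ε) (by positivity) (fun s hs hs2 =>
        ⟨Fk_summable q χ k s hs, h1 q hq χ hχ s hs hs2⟩) N hN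
      refine le_trans h4 ?_
      have hN3 : (N : ℝ) ≤ 2 * y := by
        have : (N : ℝ) ≤ ((2 * y : ℕ) : ℝ) := by exact_mod_cast (by omega : N ≤ 2 * y)
        push_cast at this
        exact this
      calc C2 * (C1 * (q : ℝ) ^ ε) * N ≤ C2 * (C1 * (q : ℝ) ^ ε) * (2 * y) := by gcongr
        _ = 2 * C2 * C1 * (q : ℝ) ^ ε * y := by ring
  · intro u v huv hv
    calc ∑ n ∈ Ioc u v, ‖a n‖ ≤ ∑ n ∈ Ioc u v, Real.log (2 * y) ^ (k + 1) := by
          apply Finset.sum_le_sum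
          intro n hn
          exact hnorm n (by have := Finset.mem_Ioc.1 hn; omega)
      _ = ((v : ℝ) - u) * Real.log (2 * y) ^ (k + 1) := by
          rw [Finset.sum_const, Nat.card_Ioc, nsmul_eq_mul, Nat.cast_sub huv]
      _ ≤ Real.log (2 * y) ^ (k + 1) * ((v : ℝ) - u + 1) := by
          have : 0 ≤ Real.log (2 * y) ^ (k + 1) := by positivity
          nlinarith

theorem siegel_walfisz (B c : ℕ) : ∃ C : ℝ, 0 < C ∧ ∀ q : ℕ, 2 ≤ q →
    ∀ χ : DirichletCharacter ℂ q, χ.IsPrimitive → ∀ y : ℕ, 2 ≤ y → (q : ℝ) ≤ Real.log y ^ B →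
      ‖∑ n ∈ Icc 1 y, ((Lam n : ℝ) : ℂ) * χ (n : ZMod q)‖ ≤ C * y / Real.log y ^ c := by
  obtain ⟨C, hC, hpart⟩ := swI_partial (4 * c + 4) (1 / ((B : ℝ) + 1)) (by positivity)
  set k : ℕ := 4 * c + 4 with hk
  refine ⟨2 ^ (c + 1) * (c + 1).factorial + 2 ^ (k + 1) * (C * (9 + 2 ^ k +
    9 * 2 ^ (k + 1) * k.factorial)), by positivity, ?_⟩
  intro q hq χ hχ y hy hqy
  have hq2 : (2 : ℝ) ≤ q := by exact_mod_cast hq
  have hy2 : (2 : ℝ) ≤ y := by exact_mod_cast hy
  have hy0 : (0 : ℝ) < y := by linarith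
  set L : ℝ := Real.log y with hL
  have hL0 : 0 ≤ L := Real.log_natCast_nonneg y
  have hL1 : 1 < L := by
    by_contra h
    have := pow_le_one₀ (n := B) hL0 (not_lt.1 h)
    linarith
  have hLpos : 0 < L := by linarith
  -- the power of q
  have hqe : (q : ℝ) ^ (1 / ((B : ℝ) + 1)) ≤ L := by
    calc (q : ℝ) ^ (1 / ((B : ℝ) + 1)) ≤ (L ^ B) ^ (1 / ((B : ℝ) + 1)) :=
          Real.rpow_le_rpow (by linarith) hqy (by positivity)
      _ = L ^ ((B : ℝ) * (1 / ((B : ℝ) + 1))) := by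
          rw [← Real.rpow_natCast L B, ← Real.rpow_mul hL0]
      _ ≤ L ^ (1 : ℝ) := by
          apply Real.rpow_le_rpow_of_exponent_le hL1.le
          rw [mul_one_div, div_le_one (by positivity)]
          linarith
      _ = L := Real.rpow_one L
  set δ : ℝ := 1 / (2 * L ^ (c + 1)) with hδ
  have hLc : 1 ≤ L ^ (c + 1) := one_le_pow₀ hL1.le
  have hδ0 : 0 < δ := by positivity
  have hδ2 : δ ≤ 1 / 2 := by
    rw [hδ]
    apply one_div_le_one_div_of_le (by norm_num)
    linarith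
  have hδ3 : 1 / δ ^ 3 = 8 * L ^ (3 * c + 3) := by
    rw [hδ, one_div, one_div, inv_pow, inv_inv, mul_pow, ← pow_mul]
    rw [show (c + 1) * 3 = 3 * c + 3 by ring]
    norm_num
  have hl2y : Real.log (2 * y) ≤ 2 * L := by
    rw [Real.log_mul (by norm_num) (by positivity)]
    have : Real.log 2 ≤ L := Real.log_le_log (by norm_num) hy2
    linarith
  have hl2y0 : 0 ≤ Real.log (2 * y) := Real.log_nonneg (by linarith)
  -- the bound for the partial sums
  set M : ℝ := C * (L * y * (9 * L ^ (3 * c + 3)) +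
    (2 * L) ^ (k + 1) * (δ * y + 9 * L ^ (3 * c + 3))) with hM
  have hL33 : L ≤ L ^ (3 * c + 3) := by
    calc L = L ^ 1 := (pow_one L).symm
      _ ≤ L ^ (3 * c + 3) := pow_le_pow_right₀ hL1.le (by omega)
  have hA : ∀ z ≤ y, ‖∑ n ∈ Icc 1 z, ((Lam n * Real.log n ^ k : ℝ) : ℂ) * χ (n : ZMod q)‖ ≤ M := by
    intro z hz
    refine le_trans (hpart q hq χ hχ y δ hy hδ0 hδ2 z hz) ?_
    rw [hM, hδ3]
    apply mul_le_mul_of_nonneg_left _ hC.le
    apply add_le_add
    · have e1 : 8 * L ^ (3 * c + 3) + L ≤ 9 * L ^ (3 * c + 3) := by linarith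
      have e2 : (q : ℝ) ^ (1 / ((B : ℝ) + 1)) * y ≤ L * y :=
        mul_le_mul_of_nonneg_right hqe hy0.le
      exact mul_le_mul e2 e1 (by positivity) (by positivity)
    · have e1 : δ * y + L + 8 * L ^ (3 * c + 3) ≤ δ * y + 9 * L ^ (3 * c + 3) := by linarith
      exact mul_le_mul (pow_le_pow_left₀ hl2y0 hl2y _) e1 (by positivity) (by positivity)
  -- Abel summation
  set z0 : ℕ := Nat.sqrt y with hz0
  have hz1 : 1 ≤ z0 := Nat.sqrt_pos.2 (by omega)
  have hzy : z0 + 1 ≤ y := by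
    have : z0 < y := Nat.sqrt_lt_self (by omega)
    omega
  have hlogpos : ∀ n : ℕ, z0 + 1 ≤ n → 0 < Real.log n := by
    intro n hn
    exact Real.log_pos (by exact_mod_cast (by omega : 1 < n))
  have hab := swI_abel (fun n => ((Lam n * Real.log n ^ k : ℝ) : ℂ) * χ (n : ZMod q))
    (fun n => 1 / Real.log n ^ k) M z0 y hzy
    (by
      intro n hn
      apply one_div_le_one_div_of_le (pow_pos (hlogpos n hn) k)
      apply pow_le_pow_left₀ (hlogpos n hn).le
      apply Real.log_le_log (by exact_mod_cast (by omega : 0 < n))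
      push_cast
      linarith)
    (by
      intro n hn
      have := hlogpos n hn
      positivity)
    hA
  have hsplit : ∑ n ∈ Icc 1 y, ((Lam n : ℝ) : ℂ) * χ (n : ZMod q) =
      ∑ n ∈ Icc 1 z0, ((Lam n : ℝ) : ℂ) * χ (n : ZMod q) +
      ∑ n ∈ Ioc z0 y, ((1 / Real.log n ^ k : ℝ) : ℂ) *
        (((Lam n * Real.log n ^ k : ℝ) : ℂ) * χ (n : ZMod q)) := by
    have e1 : Icc 1 y = Icc 1 z0 ∪ Ioc z0 y := by
      ext n; simp only [mem_Icc, mem_union, mem_Ioc]; omega
    have e2 : Disjoint (Icc 1 z0) (Ioc z0 y) := by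
      rw [Finset.disjoint_left]
      intro n h1 h2
      have := Finset.mem_Icc.1 h1
      have := Finset.mem_Ioc.1 h2
      omega
    rw [e1, Finset.sum_union e2]
    congr 1
    apply Finset.sum_congr rfl
    intro n hn
    have hn' := hlogpos n (by have := Finset.mem_Ioc.1 hn; omega)
    rw [← mul_assoc, ← Complex.ofReal_mul]
    congr 2
    field_simp
  have hz0r : (z0 : ℝ) ≤ Real.sqrt y := Real.nat_sqrt_le_real_sqrt
  have hz0r' : Real.sqrt y ≤ (z0 : ℝ) + 1 := Real.real_sqrt_le_nat_sqrt_succ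
  have hfirst : ‖∑ n ∈ Icc 1 z0, ((Lam n : ℝ) : ℂ) * χ (n : ZMod q)‖ ≤ Real.sqrt y * L := by
    calc ‖∑ n ∈ Icc 1 z0, ((Lam n : ℝ) : ℂ) * χ (n : ZMod q)‖
        ≤ ∑ n ∈ Icc 1 z0, ‖((Lam n : ℝ) : ℂ) * χ (n : ZMod q)‖ := norm_sum_le _ _
      _ ≤ ∑ n ∈ Icc 1 z0, L := by
          apply Finset.sum_le_sum
          intro n hn
          have hn' := Finset.mem_Icc.1 hn
          rw [norm_mul, Complex.norm_real, Real.norm_eq_abs, abs_of_nonneg swI_Lam_nonneg]
          calc Lam n * ‖χ (n : ZMod q)‖ ≤ Lam n * 1 :=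
                mul_le_mul_of_nonneg_left (DirichletCharacter.norm_le_one χ _) swI_Lam_nonneg
            _ ≤ Real.log n := by rw [mul_one]; exact swI_Lam_le
            _ ≤ L := by
                apply Real.log_le_log (by exact_mod_cast (by omega : 0 < n))
                exact_mod_cast (by omega : n ≤ y)
      _ = z0 * L := by rw [Finset.sum_const, Nat.card_Icc, nsmul_eq_mul]; simp
      _ ≤ Real.sqrt y * L := mul_le_mul_of_nonneg_right hz0r hL0
  have hlog0 : L / 2 ≤ Real.log ((z0 + 1 : ℕ) : ℝ) := by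
    have e1 : Real.log (Real.sqrt y) = L / 2 := Real.log_sqrt hy0.le
    rw [← e1]
    apply Real.log_le_log (Real.sqrt_pos.2 hy0)
    push_cast
    exact hz0r'
  have hM0 : 0 ≤ M := by positivity
  have hsecond : ‖∑ n ∈ Ioc z0 y, ((1 / Real.log n ^ k : ℝ) : ℂ) *
        (((Lam n * Real.log n ^ k : ℝ) : ℂ) * χ (n : ZMod q))‖ ≤ 2 ^ (k + 1) * M / L ^ k := by
    refine le_trans hab ?_
    have e1 : 1 / Real.log ((z0 + 1 : ℕ) : ℝ) ^ k ≤ 1 / (L / 2) ^ k := by
      apply one_div_le_one_div_of_le (by positivity)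
      exact pow_le_pow_left₀ (by positivity) hlog0 k
    calc 2 * M * (1 / Real.log ((z0 + 1 : ℕ) : ℝ) ^ k) ≤ 2 * M * (1 / (L / 2) ^ k) :=
          mul_le_mul_of_nonneg_left e1 (by positivity)
      _ = 2 ^ (k + 1) * M / L ^ k := by
          rw [div_pow, pow_succ]
          field_simp
          try ring
  -- final estimates
  have hexp : Real.exp L = y := Real.exp_log hy0
  have hexp2 : Real.exp (L / 2) = Real.sqrt y := by
    rw [show L / 2 = Real.log (Real.sqrt y) from (Real.log_sqrt hy0.le).symm,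
      Real.exp_log (Real.sqrt_pos.2 hy0)]
  have hsq : Real.sqrt y * Real.sqrt y = y := Real.mul_self_sqrt hy0.le
  have hsq0 : 0 < Real.sqrt y := Real.sqrt_pos.2 hy0
  have f1 : Real.sqrt y * L * L ^ c ≤ 2 ^ (c + 1) * (c + 1).factorial * y := by
    have e1 := swI_pow_le (c + 1) (L := L / 2) (by positivity)
    rw [hexp2, div_pow, div_le_iff₀ (by positivity)] at e1
    calc Real.sqrt y * L * L ^ c = Real.sqrt y * L ^ (c + 1) := by ring
      _ ≤ Real.sqrt y * ((c + 1).factorial * Real.sqrt y * 2 ^ (c + 1)) :=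
          mul_le_mul_of_nonneg_left e1 hsq0.le
      _ = 2 ^ (c + 1) * (c + 1).factorial * (Real.sqrt y * Real.sqrt y) := by ring
      _ = 2 ^ (c + 1) * (c + 1).factorial * y := by rw [hsq]
  have f2 : M * L ^ c ≤ L ^ k * (C * (9 + 2 ^ k + 9 * 2 ^ (k + 1) * k.factorial)) * y := by
    have e1 := swI_pow_le k hL0
    rw [hexp] at e1
    have g1 : L * y * (9 * L ^ (3 * c + 3)) * L ^ c = L ^ k * 9 * y := by
      rw [hk]; ring
    have g2 : (2 * L) ^ (k + 1) * (δ * y) * L ^ c = L ^ k * 2 ^ k * y := by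
      rw [hδ, mul_pow]
      have : L ^ (c + 1) ≠ 0 := by positivity
      field_simp
      ring
    have g3 : (2 * L) ^ (k + 1) * (9 * L ^ (3 * c + 3)) * L ^ c ≤
        L ^ k * (9 * 2 ^ (k + 1) * k.factorial) * y := by
      calc (2 * L) ^ (k + 1) * (9 * L ^ (3 * c + 3)) * L ^ c
          = L ^ k * (9 * 2 ^ (k + 1)) * L ^ (4 * c + 4) := by
            rw [mul_pow]; ring
        _ ≤ L ^ k * (9 * 2 ^ (k + 1)) * (k.factorial * y) :=
            mul_le_mul_of_nonneg_left e1 (by positivity)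
        _ = L ^ k * (9 * 2 ^ (k + 1) * k.factorial) * y := by ring
    have g4 : M * L ^ c = C * (L * y * (9 * L ^ (3 * c + 3)) * L ^ c +
        (2 * L) ^ (k + 1) * (δ * y) * L ^ c +
        (2 * L) ^ (k + 1) * (9 * L ^ (3 * c + 3)) * L ^ c) := by
      rw [hM]; ring
    rw [g4, g1, g2]
    calc C * (L ^ k * 9 * y + L ^ k * 2 ^ k * y +
          (2 * L) ^ (k + 1) * (9 * L ^ (3 * c + 3)) * L ^ c)
        ≤ C * (L ^ k * 9 * y + L ^ k * 2 ^ k * y +
          L ^ k * (9 * 2 ^ (k + 1) * k.factorial) * y) := by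
          apply mul_le_mul_of_nonneg_left _ hC.le
          linarith
      _ = L ^ k * (C * (9 + 2 ^ k + 9 * 2 ^ (k + 1) * k.factorial)) * y := by ring
  rw [hsplit]
  refine le_trans (norm_add_le _ _) ?_
  refine le_trans (add_le_add hfirst hsecond) ?_
  rw [le_div_iff₀ (by positivity), add_mul, add_mul]
  apply add_le_add f1
  rw [div_mul_eq_mul_div, div_le_iff₀ (by positivity)]
  calc 2 ^ (k + 1) * M * L ^ c = 2 ^ (k + 1) * (M * L ^ c) := by ring
    _ ≤ 2 ^ (k + 1) * (L ^ k * (C * (9 + 2 ^ k + 9 * 2 ^ (k + 1) * k.factorial)) * y) :=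
        mul_le_mul_of_nonneg_left f2 (by positivity)
    _ = 2 ^ (k + 1) * (C * (9 + 2 ^ k + 9 * 2 ^ (k + 1) * k.factorial)) * y * L ^ k := by ring

end Pool.Agent.H91.EHA

end

section

/-!
# The series of `(Λ(n) - 1)(log n)^k` for `|Im s| ≥ 1`

`Fk 1 1 k` by the recursion of SwF (`Lk_succ_eq` with `q = 1`), `zeta_lower`, `zeta_k_le`;
the series is `Fk 1 1 k - Lk 1 1 k`.
-/

set_option autoImplicit false

namespace Pool.Agent.H91.EHA

open Finset

/-- `log (t + 3) ≥ 1` for `t ≥ 0`. -/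
theorem swJ1_log_ge (t : ℝ) (ht : 0 ≤ t) : 1 ≤ Real.log (t + 3) := by
  rw [Real.le_log_iff_exp_le (by linarith)]
  have := Real.exp_one_lt_d9
  linarith

theorem swJ1_Lk (k : ℕ) : ∃ C : ℝ, 0 < C ∧ ∀ s : ℂ, 1 < s.re → s.re ≤ 2 → 1 ≤ |s.im| →
    ‖Lk 1 1 k s‖ ≤ C * Real.log (|s.im| + 3) ^ (k + 1) := by
  obtain ⟨C, hC, h⟩ := zeta_k_le k
  refine ⟨C, hC, fun s h1 h2 h3 => (h s h1 h2 h3).trans ?_⟩
  apply mul_le_mul_of_nonneg_left _ hC.le
  apply pow_le_pow_left₀
  · apply Real.log_nonneg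
    linarith [abs_nonneg s.im]
  · apply Real.log_le_log
    · linarith [abs_nonneg s.im]
    · linarith

theorem swJ1_Fk (k : ℕ) : ∃ C : ℝ, 0 < C ∧ ∀ s : ℂ, 1 < s.re → s.re ≤ 2 → 1 ≤ |s.im| →
    ‖Fk 1 1 k s‖ ≤ C * Real.log (|s.im| + 3) ^ (20 * (k + 1)) := by
  induction k using Nat.strong_induction_on with
  | _ k ih =>
    obtain ⟨c, hc, hlow⟩ := zeta_lower
    choose A hA hLk using swJ1_Lk
    have ih' : ∀ j : ℕ, ∃ C : ℝ, 0 < C ∧ (j < k → ∀ s : ℂ, 1 < s.re → s.re ≤ 2 → 1 ≤ |s.im| →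
        ‖Fk 1 1 j s‖ ≤ C * Real.log (|s.im| + 3) ^ (20 * (j + 1))) := by
      intro j
      by_cases hj : j < k
      · obtain ⟨C, hC, h⟩ := ih j hj
        exact ⟨C, hC, fun _ => h⟩
      · exact ⟨1, one_pos, fun h => absurd h hj⟩
    choose B hB hFk using ih'
    set S : ℝ := A (k + 1) + ∑ i ∈ range k, (k.choose (i + 1) : ℝ) * (A (i + 1) * B (k - (i + 1)))
      with hS
    have hSpos : 0 < S := by
      have : 0 ≤ ∑ i ∈ range k, (k.choose (i + 1) : ℝ) * (A (i + 1) * B (k - (i + 1))) :=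
        Finset.sum_nonneg (fun i _ => mul_nonneg (Nat.cast_nonneg _)
          (mul_nonneg (hA _).le (hB _).le))
      linarith [hA (k + 1)]
    refine ⟨S / c, div_pos hSpos hc, fun s h1 h2 h3 => ?_⟩
    set ℓ := Real.log (|s.im| + 3) with hℓ
    have hℓ1 : 1 ≤ ℓ := swJ1_log_ge _ (abs_nonneg _)
    have hℓ0 : 0 < ℓ := by linarith
    have hlow' : c / ℓ ^ 9 ≤ ‖Lk 1 1 0 s‖ := by
      refine le_trans ?_ (hlow s h1 h2 h3)
      apply div_le_div_of_nonneg_left hc.le
      · apply pow_pos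
        apply Real.log_pos
        linarith
      · apply pow_le_pow_left₀
        · apply Real.log_nonneg
          linarith
        · apply Real.log_le_log
          · linarith
          · linarith
    have hLpos : 0 < ‖Lk 1 1 0 s‖ := lt_of_lt_of_le (by positivity) hlow'
    have hrec := Lk_succ_eq 1 1 k s h1
    rw [Finset.sum_range_succ'] at hrec
    simp only [Nat.choose_zero_right, Nat.cast_one, one_mul, Nat.sub_zero] at hrec
    have hnorm : ‖Lk 1 1 0 s‖ * ‖Fk 1 1 k s‖ ≤ S * ℓ ^ (20 * (k + 1) - 9) := by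
      rw [← norm_mul]
      have e : Lk 1 1 0 s * Fk 1 1 k s = Lk 1 1 (k + 1) s
          - ∑ i ∈ range k, (k.choose (i + 1) : ℂ) * (Lk 1 1 (i + 1) s * Fk 1 1 (k - (i + 1)) s) := by
        rw [hrec]; ring
      rw [e]
      refine (norm_sub_le _ _).trans ?_
      rw [hS, add_mul]
      apply add_le_add
      · refine (hLk (k + 1) s h1 h2 h3).trans ?_
        apply mul_le_mul_of_nonneg_left _ (hA _).le
        exact pow_le_pow_right₀ hℓ1 (by omega)
      · refine (norm_sum_le _ _).trans ?_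
        rw [Finset.sum_mul]
        apply Finset.sum_le_sum
        intro i hi
        have hik : i < k := Finset.mem_range.mp hi
        rw [norm_mul, norm_mul, Complex.norm_natCast, mul_assoc]
        apply mul_le_mul_of_nonneg_left _ (Nat.cast_nonneg _)
        have g1 := hLk (i + 1) s h1 h2 h3
        have g2 := hFk (k - (i + 1)) (by omega) s h1 h2 h3
        calc ‖Lk 1 1 (i + 1) s‖ * ‖Fk 1 1 (k - (i + 1)) s‖
            ≤ (A (i + 1) * ℓ ^ (i + 1 + 1)) *
              (B (k - (i + 1)) * ℓ ^ (20 * (k - (i + 1) + 1))) :=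
              mul_le_mul g1 g2 (norm_nonneg _) (by have := hA (i + 1); positivity)
          _ = (A (i + 1) * B (k - (i + 1))) * ℓ ^ ((i + 1 + 1) + 20 * (k - (i + 1) + 1)) := by
              rw [pow_add]; ring
          _ ≤ (A (i + 1) * B (k - (i + 1))) * ℓ ^ (20 * (k + 1) - 9) := by
              apply mul_le_mul_of_nonneg_left _ (mul_nonneg (hA _).le (hB _).le)
              exact pow_le_pow_right₀ hℓ1 (by omega)
    have h4 : c / ℓ ^ 9 * ‖Fk 1 1 k s‖ ≤ S * ℓ ^ (20 * (k + 1) - 9) :=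
      (mul_le_mul_of_nonneg_right hlow' (norm_nonneg _)).trans hnorm
    have h5 : ‖Fk 1 1 k s‖ ≤ (S * ℓ ^ (20 * (k + 1) - 9)) / (c / ℓ ^ 9) := by
      rw [le_div_iff₀ (by positivity)]
      linarith [mul_comm (c / ℓ ^ 9) ‖Fk 1 1 k s‖]
    refine h5.trans (le_of_eq ?_)
    have h6 : 20 * (k + 1) = (20 * (k + 1) - 9) + 9 := by omega
    conv_rhs => rw [h6, pow_add]
    field_simp

theorem zetaF_high (k : ℕ) : ∃ C : ℝ, 0 < C ∧ ∀ s : ℂ, 1 < s.re → s.re ≤ 2 → 1 ≤ |s.im| →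
    ‖LSeries (fun n => (((Lam n - 1) * Real.log n ^ k : ℝ) : ℂ)) s‖
      ≤ C * Real.log (|s.im| + 3) ^ (20 * (k + 1)) := by
  obtain ⟨C1, hC1, h1⟩ := swJ1_Fk k
  obtain ⟨C2, hC2, h2⟩ := swJ1_Lk k
  refine ⟨C1 + C2, add_pos hC1 hC2, fun s hs1 hs2 hs3 => ?_⟩
  have hχ : ∀ n : ℕ, (1 : DirichletCharacter ℂ 1) (n : ZMod 1) = 1 := by
    intro n
    have : (n : ZMod 1) = 1 := Subsingleton.elim _ _
    rw [this, map_one]
  have e : (fun n : ℕ => (((Lam n - 1) * Real.log n ^ k : ℝ) : ℂ)) =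
      (fun n : ℕ => ((Lam n * Real.log n ^ k : ℝ) : ℂ) * (1 : DirichletCharacter ℂ 1) (n : ZMod 1))
      - (fun n : ℕ => ((Real.log n : ℝ) : ℂ) ^ k * (1 : DirichletCharacter ℂ 1) (n : ZMod 1)) := by
    funext n
    simp only [Pi.sub_apply, hχ, mul_one]
    push_cast
    ring
  have e2 : LSeries (fun n => (((Lam n - 1) * Real.log n ^ k : ℝ) : ℂ)) s
      = Fk 1 1 k s - Lk 1 1 k s := by
    rw [e]
    exact LSeries_sub (Fk_summable 1 1 k s hs1) (Lk_summable 1 1 k s hs1)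
  rw [e2]
  refine (norm_sub_le _ _).trans ?_
  rw [add_mul]
  apply add_le_add (h1 s hs1 hs2 hs3)
  refine (h2 s hs1 hs2 hs3).trans ?_
  apply mul_le_mul_of_nonneg_left _ hC2.le
  exact pow_le_pow_right₀ (swJ1_log_ge _ (abs_nonneg _)) (by omega)

end Pool.Agent.H91.EHA

end

section

/-!
# The prime number theorem with log-power saving

Same argument as in SwI with `a_n = (Λ(n) - 1)(log n)^k`.
-/

set_option autoImplicit false

namespace Pool.Agent.H91.EHA

open Finset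
open Pool.Agent.H91.PK

/-- Abel's inequality. -/
theorem swj3_abel (a g : ℕ → ℝ) (M : ℝ) (n : ℕ) (hg : Antitone g) (hg0 : ∀ i, 0 ≤ g i)
    (hM : ∀ j, j ≤ n → |∑ i ∈ range j, a i| ≤ M) :
    |∑ i ∈ range n, g i * a i| ≤ M * g 0 := by
  have hM0 : 0 ≤ M := by
    have := hM 0 (Nat.zero_le _)
    simpa using this
  rcases Nat.eq_zero_or_pos n with rfl | hn
  · simp only [Finset.range_zero, Finset.sum_empty, abs_zero]
    exact mul_nonneg hM0 (hg0 0)
  have h1 := Finset.sum_range_by_parts (M := ℝ) g a n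
  simp only [smul_eq_mul] at h1
  rw [h1]
  have h2 : |g (n - 1) * ∑ i ∈ range n, a i| ≤ M * g (n - 1) := by
    rw [abs_mul, abs_of_nonneg (hg0 _), mul_comm]
    exact mul_le_mul_of_nonneg_right (hM n le_rfl) (hg0 _)
  have h3 : |∑ i ∈ range (n - 1), (g (i + 1) - g i) * ∑ j ∈ range (i + 1), a j|
      ≤ ∑ i ∈ range (n - 1), M * (g i - g (i + 1)) := by
    refine (Finset.abs_sum_le_sum_abs _ _).trans (Finset.sum_le_sum fun i hi => ?_)
    have hi' := Finset.mem_range.mp hi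
    have h4 : 0 ≤ g i - g (i + 1) := sub_nonneg.mpr (hg (Nat.le_succ i))
    rw [abs_mul, abs_sub_comm, abs_of_nonneg h4, mul_comm]
    exact mul_le_mul_of_nonneg_right (hM (i + 1) (by omega)) h4
  have h5 : ∑ i ∈ range (n - 1), M * (g i - g (i + 1)) = M * (g 0 - g (n - 1)) := by
    rw [← Finset.mul_sum, Finset.sum_range_sub']
  calc |g (n - 1) * ∑ i ∈ range n, a i
        - ∑ i ∈ range (n - 1), (g (i + 1) - g i) * ∑ j ∈ range (i + 1), a j|
      ≤ |g (n - 1) * ∑ i ∈ range n, a i|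
        + |∑ i ∈ range (n - 1), (g (i + 1) - g i) * ∑ j ∈ range (i + 1), a j| := abs_sub _ _
    _ ≤ M * g (n - 1) + M * (g 0 - g (n - 1)) := add_le_add h2 (h3.trans h5.le)
    _ = M * g 0 := by ring

theorem swj3_Lam_nonneg (n : ℕ) : 0 ≤ Lam n := ArithmeticFunction.vonMangoldt_nonneg

theorem swj3_Lam_le (n : ℕ) : Lam n ≤ Real.log n := ArithmeticFunction.vonMangoldt_le_log

theorem swj3_log_nonneg (n : ℕ) : 0 ≤ Real.log (n : ℝ) := Real.log_natCast_nonneg n

theorem swj3_a_le (k n : ℕ) :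
    |(Lam n - 1) * Real.log n ^ k| ≤ (Real.log n + 1) ^ (k + 1) := by
  have h0 := swj3_log_nonneg n
  have h1 := swj3_Lam_nonneg n
  have h2 := swj3_Lam_le n
  have h3 : |Lam n - 1| ≤ Real.log n + 1 := by
    rw [abs_le]; constructor <;> linarith
  rw [abs_mul, abs_of_nonneg (pow_nonneg h0 k), pow_succ, mul_comm]
  refine mul_le_mul ?_ h3 (abs_nonneg _) (by positivity)
  exact pow_le_pow_left₀ h0 (by linarith) k

/-- summability of the Dirichlet series -/
theorem swj3_summable (k : ℕ) (s : ℂ) (hs : 1 < s.re) :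
    LSeriesSummable (fun n => (((Lam n - 1) * Real.log n ^ k : ℝ) : ℂ)) s := by
  set ε : ℝ := (s.re - 1) / 2 with hε
  have hε0 : 0 < ε := by rw [hε]; linarith
  set η : ℝ := ε / (k + 1) with hη
  have hη0 : 0 < η := by positivity
  refine LSeriesSummable_of_le_const_mul_rpow (x := 1 + ε) (by rw [hε]; linarith)
    ⟨(1 / η + 1) ^ (k + 1), fun n hn => ?_⟩
  have hn1 : (1 : ℝ) ≤ n := by exact_mod_cast Nat.one_le_iff_ne_zero.mpr hn
  rw [Complex.norm_real, Real.norm_eq_abs]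
  refine (swj3_a_le k n).trans ?_
  have h1 : Real.log n + 1 ≤ (1 / η + 1) * (n : ℝ) ^ η := by
    have h2 := Real.log_le_rpow_div (by positivity : (0 : ℝ) ≤ n) hη0
    have h3 : (1 : ℝ) ≤ (n : ℝ) ^ η := Real.one_le_rpow hn1 hη0.le
    have h4 : (n : ℝ) ^ η / η = 1 / η * (n : ℝ) ^ η := by ring
    rw [h4] at h2
    linarith
  have h5 : (n : ℝ) ^ (1 + ε - 1) = ((n : ℝ) ^ η) ^ (k + 1) := by
    rw [← Real.rpow_natCast, ← Real.rpow_mul (by positivity)]
    congr 1
    rw [hη]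
    push_cast
    field_simp
    ring
  rw [h5, ← mul_pow]
  refine pow_le_pow_left₀ ?_ h1 _
  have := swj3_log_nonneg n
  linarith

/-- the smooth sums -/
theorem swj3_smooth (k : ℕ) : ∃ C : ℝ, 0 < C ∧ ∀ N : ℕ, 1 ≤ N →
    ‖∑ n ∈ Icc 1 N, (((Lam n - 1) * Real.log n ^ k : ℝ) : ℂ) * ((om ((n : ℝ) / N) : ℝ) : ℂ)‖
      ≤ C * N := by
  obtain ⟨C₁, hC₁, h₁⟩ := zetaF_high k
  obtain ⟨C₂, hC₂, h₂⟩ := zetaF_low k
  obtain ⟨C₃, hC₃, h₃⟩ := smooth_gen (20 * (k + 1))
  have hB0 : 0 < max C₁ C₂ := lt_max_of_lt_left hC₁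
  refine ⟨C₃ * max C₁ C₂, by positivity, fun N hN => ?_⟩
  rcases Nat.lt_or_ge 1 N with h2 | h2
  · refine h₃ _ (max C₁ C₂) hB0.le (fun s hs1 hs2 => ⟨swj3_summable k s hs1, ?_⟩) N h2
    have hl1 : 1 ≤ Real.log (|s.im| + 3) := by
      rw [Real.le_log_iff_exp_le (by positivity)]
      have := Real.exp_one_lt_d9
      have := abs_nonneg s.im
      linarith
    have hl2 : 1 ≤ Real.log (|s.im| + 3) ^ (20 * (k + 1)) := one_le_pow₀ hl1
    rcases le_total 1 |s.im| with h | h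
    · refine (h₁ s hs1 hs2 h).trans ?_
      exact mul_le_mul_of_nonneg_right (le_max_left _ _) (by positivity)
    · refine (h₂ s hs1 hs2 h).trans ?_
      calc C₂ ≤ max C₁ C₂ := le_max_right _ _
        _ = max C₁ C₂ * 1 := (mul_one _).symm
        _ ≤ _ := mul_le_mul_of_nonneg_left hl2 hB0.le
  · have : N = 1 := by omega
    subst this
    have ho : om 1 = 0 := om_eq_zero le_rfl
    simp only [Finset.Icc_self, Finset.sum_singleton, Nat.cast_one, div_one, ho,
      Complex.ofReal_zero, mul_zero, norm_zero, mul_one]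
    positivity

/-- sharp sums with weights -/
theorem swj3_sharp (k : ℕ) : ∃ C : ℝ, 0 < C ∧ ∀ (m y : ℕ), 1 ≤ m → 3 ≤ y → ∀ z : ℕ, z ≤ y →
    |∑ n ∈ Icc 1 z, (Lam n - 1) * Real.log n ^ k| ≤
      C * (y * Real.log y ^ (3 * m) + Real.log y ^ (k + 1) * (y / Real.log y ^ m) +
        Real.log y ^ (k + 1) * Real.log y ^ (3 * m)) := by
  obtain ⟨C₁, hC₁, h₁⟩ := swj3_smooth k
  obtain ⟨C₂, hC₂, h₂⟩ := smooth_to_sharp
  refine ⟨1 + C₂ * (18 * C₁ + 9 * 3 ^ (k + 1)), by positivity, fun m y hm hy z hz => ?_⟩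
  have hy' : (3 : ℝ) ≤ y := by exact_mod_cast hy
  set L : ℝ := Real.log y with hL
  have hL1 : 1 ≤ L := by
    rw [hL, Real.le_log_iff_exp_le (by linarith)]
    have := Real.exp_one_lt_d9
    linarith
  have hL0 : 0 < L := by linarith
  have hRHS1 : 1 ≤ L ^ (3 * m) := one_le_pow₀ hL1
  have hLm : 1 ≤ L ^ m := one_le_pow₀ hL1
  have hLm' : L ≤ L ^ (3 * m) := by
    calc L = L ^ 1 := (pow_one L).symm
      _ ≤ L ^ (3 * m) := pow_le_pow_right₀ hL1 (by omega)
  have hR0 : 0 ≤ y * L ^ (3 * m) + L ^ (k + 1) * (y / L ^ m) + L ^ (k + 1) * L ^ (3 * m) := by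
    positivity
  rcases Nat.lt_or_ge z 2 with hz2 | hz2
  · -- z = 0 or z = 1
    have h5 : |∑ n ∈ Icc 1 z, (Lam n - 1) * Real.log n ^ k| ≤ 1 := by
      interval_cases z
      · simp
      · simp only [Finset.Icc_self, Finset.sum_singleton, Nat.cast_one, Real.log_one]
        have hl : Lam 1 = 0 := by simp [Lam]
        rw [hl]
        rcases Nat.eq_zero_or_pos k with rfl | hk
        · simp
        · rw [zero_pow (by omega)]; simp
    refine h5.trans ?_
    have h6 : 1 ≤ y * L ^ (3 * m) + L ^ (k + 1) * (y / L ^ m) + L ^ (k + 1) * L ^ (3 * m) := by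
      have h7 : 1 ≤ (y : ℝ) * L ^ (3 * m) := by nlinarith
      have h8 : 0 ≤ L ^ (k + 1) * (y / L ^ m) := by positivity
      have h9 : 0 ≤ L ^ (k + 1) * L ^ (3 * m) := by positivity
      linarith
    have h7 : 1 ≤ 1 + C₂ * (18 * C₁ + 9 * 3 ^ (k + 1)) := by
      have : 0 ≤ C₂ * (18 * C₁ + 9 * 3 ^ (k + 1)) := by positivity
      linarith
    nlinarith
  · have hzy : (z : ℝ) ≤ y := by exact_mod_cast hz
    have hz0 : (2 : ℝ) ≤ z := by exact_mod_cast hz2
    set δ : ℝ := 1 / (2 * L ^ m) with hδ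
    have hδ0 : 0 < δ := by positivity
    have hδ1 : δ ≤ 1 / 2 := by
      rw [hδ, div_le_div_iff₀ (by positivity) (by norm_num)]
      linarith
    have h3L : Real.log (2 * z) + 1 ≤ 3 * L := by
      have e1 : Real.log (2 * z) = Real.log 2 + Real.log z :=
        Real.log_mul (by norm_num) (by linarith)
      have e2 : Real.log z ≤ L := Real.log_le_log (by linarith) hzy
      have e3 : Real.log 2 ≤ 1 := by
        have := Real.log_two_lt_d9
        linarith
      linarith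
    have hlz0 : 0 ≤ Real.log (2 * z) := Real.log_nonneg (by linarith)
    have hlz : Real.log z ≤ L := Real.log_le_log (by linarith) hzy
    have key := h₂ (fun n => (((Lam n - 1) * Real.log n ^ k : ℝ) : ℂ)) (C₁ * (2 * z))
      ((3 * L) ^ (k + 1)) 1 z δ (by positivity) (by positivity) le_rfl hz2 hδ0 hδ1 ?_ ?_
    · have e1 : ‖∑ n ∈ Icc 1 z, (((Lam n - 1) * Real.log n ^ k : ℝ) : ℂ)‖ =
          |∑ n ∈ Icc 1 z, (Lam n - 1) * Real.log n ^ k| := by
        rw [← Complex.ofReal_sum, Complex.norm_real, Real.norm_eq_abs]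
      rw [e1] at key
      refine key.trans ?_
      have e3 : 1 / δ ^ 3 = 8 * L ^ (3 * m) := by
        rw [hδ]
        field_simp
        ring
      have e4 : δ * z ≤ y / L ^ m := by
        rw [hδ, div_mul_eq_mul_div, one_mul]
        refine div_le_div₀ (by positivity) hzy (by positivity) ?_
        linarith
      rw [e3]
      have p1 : C₁ * (2 * z) * (8 * L ^ (3 * m) + Real.log z) ≤ 18 * C₁ * (y * L ^ (3 * m)) := by
        have q1 : 8 * L ^ (3 * m) + Real.log z ≤ 9 * L ^ (3 * m) := by linarith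
        calc C₁ * (2 * z) * (8 * L ^ (3 * m) + Real.log z)
            ≤ C₁ * (2 * y) * (9 * L ^ (3 * m)) := by
              refine mul_le_mul ?_ q1 ?_ (by positivity)
              · exact mul_le_mul_of_nonneg_left (by linarith) hC₁.le
              · have : 0 ≤ Real.log z := Real.log_nonneg (by linarith)
                positivity
          _ = 18 * C₁ * (y * L ^ (3 * m)) := by ring
      have p2 : (3 * L) ^ (k + 1) * (δ * z + Real.log z + 1 * (8 * L ^ (3 * m)))
          ≤ 9 * 3 ^ (k + 1) * (L ^ (k + 1) * (y / L ^ m) + L ^ (k + 1) * L ^ (3 * m)) := by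
        have q0 : 0 ≤ (y : ℝ) / L ^ m := by positivity
        have q1 : δ * z + Real.log z + 1 * (8 * L ^ (3 * m)) ≤
            9 * (y / L ^ m) + 9 * L ^ (3 * m) := by linarith
        calc (3 * L) ^ (k + 1) * (δ * z + Real.log z + 1 * (8 * L ^ (3 * m)))
            ≤ (3 * L) ^ (k + 1) * (9 * (y / L ^ m) + 9 * L ^ (3 * m)) :=
              mul_le_mul_of_nonneg_left q1 (by positivity)
          _ = _ := by rw [mul_pow]; ring
      have e5 : (1 : ℝ) / δ ^ 3 = 1 * (8 * L ^ (3 * m)) := by rw [e3]; ring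
      have t1 : 0 ≤ (y : ℝ) * L ^ (3 * m) := by positivity
      have t2 : 0 ≤ L ^ (k + 1) * (y / L ^ m) := by positivity
      have t3 : 0 ≤ L ^ (k + 1) * L ^ (3 * m) := by positivity
      have t4 : 0 ≤ 9 * (3 : ℝ) ^ (k + 1) := by positivity
      have p3 : C₁ * (2 * z) * (8 * L ^ (3 * m) + Real.log z) +
          (3 * L) ^ (k + 1) * (δ * z + Real.log z + 8 * L ^ (3 * m)) ≤
          (18 * C₁ + 9 * 3 ^ (k + 1)) *
            (y * L ^ (3 * m) + L ^ (k + 1) * (y / L ^ m) + L ^ (k + 1) * L ^ (3 * m)) := by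
        rw [one_mul] at p2
        nlinarith [mul_nonneg hC₁.le t2, mul_nonneg hC₁.le t3, mul_nonneg t4 t1]
      calc C₂ * (C₁ * (2 * z) * (8 * L ^ (3 * m) + Real.log z) +
          (3 * L) ^ (k + 1) * (δ * z + Real.log z + 8 * L ^ (3 * m)))
          ≤ C₂ * ((18 * C₁ + 9 * 3 ^ (k + 1)) *
            (y * L ^ (3 * m) + L ^ (k + 1) * (y / L ^ m) + L ^ (k + 1) * L ^ (3 * m))) :=
            mul_le_mul_of_nonneg_left p3 hC₂.le
        _ ≤ (1 + C₂ * (18 * C₁ + 9 * 3 ^ (k + 1))) *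
            (y * L ^ (3 * m) + L ^ (k + 1) * (y / L ^ m) + L ^ (k + 1) * L ^ (3 * m)) := by
            linarith
    · intro N hN1 hN2
      refine (h₁ N hN1).trans ?_
      refine mul_le_mul_of_nonneg_left ?_ hC₁.le
      exact_mod_cast hN2
    · intro u v huv hv
      have hterm : ∀ n ∈ Ioc u v, ‖(((Lam n - 1) * Real.log n ^ k : ℝ) : ℂ)‖ ≤ (3 * L) ^ (k + 1) := by
        intro n hn
        have hn' := Finset.mem_Ioc.mp hn
        rw [Complex.norm_real, Real.norm_eq_abs]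
        refine (swj3_a_le k n).trans (pow_le_pow_left₀ ?_ ?_ _)
        · have := swj3_log_nonneg n
          linarith
        · have hn1 : (0 : ℝ) < n := by
            have : 0 < n := by omega
            exact_mod_cast this
          have hn2 : (n : ℝ) ≤ 2 * z := by
            have : n ≤ 2 * z := by omega
            exact_mod_cast this
          have := Real.log_le_log hn1 hn2
          linarith
      refine (Finset.sum_le_sum hterm).trans ?_
      rw [Finset.sum_const, nsmul_eq_mul, Nat.card_Ioc, mul_comm, Nat.cast_sub huv]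
      refine mul_le_mul_of_nonneg_left ?_ (by positivity)
      linarith

theorem swj3_pow_le (n : ℕ) (x : ℝ) (hx : 0 ≤ x) : x ^ n ≤ (n.factorial : ℝ) * Real.exp x := by
  have h := Real.pow_div_factorial_le_exp x hx n
  rw [div_le_iff₀ (by exact_mod_cast n.factorial_pos)] at h
  linarith

theorem pnt (c : ℕ) : ∃ C : ℝ, 0 < C ∧ ∀ y : ℕ, 2 ≤ y →
    |(∑ n ∈ Icc 1 y, Lam n) - y| ≤ C * y / Real.log y ^ c := by
  set m : ℕ := c + 1 with hm
  set k : ℕ := 3 * m + c with hk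
  obtain ⟨C₀, hC₀, h₀⟩ := swj3_sharp k
  set F₁ : ℝ := ((1 + 3 * m + c).factorial : ℝ) with hF₁
  set F₂ : ℝ := ((c + 1).factorial : ℝ) with hF₂
  have hF₁0 : 0 < F₁ := by rw [hF₁]; exact_mod_cast Nat.factorial_pos _
  have hF₂0 : 0 < F₂ := by rw [hF₂]; exact_mod_cast Nat.factorial_pos _
  refine ⟨2 + 2 * (2 * C₀) * 2 ^ k * (2 + F₁) + 2 * (2 ^ (c + 1) * F₂), by positivity,
    fun y hy => ?_⟩
  have hyR : (2 : ℝ) ≤ y := by exact_mod_cast hy
  have hrew : (∑ n ∈ Icc 1 y, Lam n) - y = ∑ n ∈ Icc 1 y, (Lam n - 1) := by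
    rw [Finset.sum_sub_distrib]
    simp
  rw [hrew]
  rcases Nat.lt_or_ge y 3 with hy3 | hy3
  · have hy2 : y = 2 := by omega
    subst hy2
    have e1 : Icc 1 2 = {1, 2} := by decide
    have hl1 : Lam 1 = 0 := by simp [Lam]
    have hl2 := swj3_Lam_le 2
    have hl2' := swj3_Lam_nonneg 2
    have hlog := Real.log_two_lt_d9
    have hlog0 : 0 < Real.log 2 := Real.log_pos (by norm_num)
    rw [e1, Finset.sum_pair (by norm_num), hl1]
    push_cast at hl2
    have h3 : |0 - 1 + (Lam 2 - 1)| ≤ 2 := by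
      rw [abs_le]; constructor <;> linarith
    refine h3.trans ?_
    push_cast
    have hp : Real.log 2 ^ c ≤ 1 := pow_le_one₀ hlog0.le (by linarith)
    have hp0 : 0 < Real.log 2 ^ c := by positivity
    rw [le_div_iff₀ hp0]
    have hbig : 0 ≤ 2 * (2 * C₀) * 2 ^ k * (2 + F₁) + 2 * (2 ^ (c + 1) * F₂) := by positivity
    nlinarith
  · have hy3' : (3 : ℝ) ≤ y := by exact_mod_cast hy3
    obtain ⟨L, hL⟩ : ∃ L : ℝ, L = Real.log y := ⟨_, rfl⟩
    have hL1 : 1 ≤ L := by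
      rw [hL, Real.le_log_iff_exp_le (by linarith)]
      have := Real.exp_one_lt_d9
      linarith
    have hL0 : 0 < L := by linarith
    have hexp : Real.exp L = y := by rw [hL, Real.exp_log (by linarith)]
    rw [← hL]
    set w : ℕ := Nat.sqrt y with hw
    have hwy : w ≤ y := Nat.sqrt_le_self y
    have hw1 : 1 ≤ w := by
      rw [hw, Nat.one_le_iff_ne_zero]
      intro h
      rw [Nat.sqrt_eq_zero] at h
      omega
    have hww : w * w ≤ y := Nat.sqrt_le y
    have hww' : y < (w + 1) * (w + 1) := Nat.lt_succ_sqrt y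
    -- log (w+1) ≥ L/2
    have hlw : L / 2 ≤ Real.log ((w : ℝ) + 1) := by
      have h1 : (y : ℝ) ≤ ((w : ℝ) + 1) * ((w : ℝ) + 1) := by exact_mod_cast hww'.le
      have h2 := Real.log_le_log (by linarith) h1
      rw [Real.log_mul (by positivity) (by positivity), ← hL] at h2
      linarith
    -- w ≤ exp (L/2)
    have hwe : (w : ℝ) ≤ Real.exp (L / 2) := by
      have h1 : (w : ℝ) * w ≤ y := by exact_mod_cast hww
      have h2 : Real.exp (L / 2) * Real.exp (L / 2) = y := by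
        rw [← Real.exp_add, ← hexp]; congr 1; ring
      rw [← h2] at h1
      exact le_of_not_gt fun h9 => absurd h1 (not_le.mpr (mul_self_lt_mul_self (Real.exp_pos _).le h9))
    -- split
    have hsplit : ∑ n ∈ Icc 1 y, (Lam n - 1) =
        ∑ n ∈ Icc 1 w, (Lam n - 1) + ∑ i ∈ range (y - w), (Lam (w + 1 + i) - 1) := by
      have e1 : Icc 1 y = Icc 1 w ∪ Ico (w + 1) (y + 1) := by
        ext n
        simp only [Finset.mem_Icc, Finset.mem_union, Finset.mem_Ico]
        omega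
      rw [e1, Finset.sum_union, Finset.sum_Ico_eq_sum_range]
      · have : y + 1 - (w + 1) = y - w := by omega
        rw [this]
      · rw [Finset.disjoint_left]
        intro n hn hn'
        rw [Finset.mem_Icc] at hn
        rw [Finset.mem_Ico] at hn'
        omega
    -- first part
    have hpart1 : |∑ n ∈ Icc 1 w, (Lam n - 1)| ≤ 2 * (2 ^ (c + 1) * F₂) * y / L ^ c := by
      have h1 : |∑ n ∈ Icc 1 w, (Lam n - 1)| ≤ w * (2 * L) := by
        refine (Finset.abs_sum_le_sum_abs _ _).trans ?_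
        have h2 : ∀ n ∈ Icc 1 w, |Lam n - 1| ≤ 2 * L := by
          intro n hn
          have hn' := Finset.mem_Icc.mp hn
          have h3 := swj3_Lam_nonneg n
          have h4 := swj3_Lam_le n
          have h5 : Real.log n ≤ L := by
            rw [hL]
            refine Real.log_le_log (by exact_mod_cast hn'.1) ?_
            exact_mod_cast hn'.2.trans hwy
          rw [abs_le]; constructor <;> linarith
        refine (Finset.sum_le_sum h2).trans ?_
        rw [Finset.sum_const, nsmul_eq_mul, Nat.card_Icc]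
        simp
      refine h1.trans ?_
      rw [le_div_iff₀ (by positivity)]
      have h2 := swj3_pow_le (c + 1) (L / 2) (by positivity)
      have h3 : L ^ (c + 1) = 2 ^ (c + 1) * (L / 2) ^ (c + 1) := by
        rw [← mul_pow]; congr 1; ring
      have h4 : Real.exp (L / 2) * Real.exp (L / 2) = y := by
        rw [← Real.exp_add, ← hexp]; congr 1; ring
      calc (w : ℝ) * (2 * L) * L ^ c = 2 * (w * L ^ (c + 1)) := by ring
        _ ≤ 2 * (Real.exp (L / 2) * (2 ^ (c + 1) * (F₂ * Real.exp (L / 2)))) := by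
            refine mul_le_mul_of_nonneg_left ?_ (by norm_num)
            refine mul_le_mul hwe ?_ (by positivity) (Real.exp_pos _).le
            rw [h3]
            exact mul_le_mul_of_nonneg_left h2 (by positivity)
        _ = 2 * (2 ^ (c + 1) * F₂) * (Real.exp (L / 2) * Real.exp (L / 2)) := by ring
        _ = 2 * (2 ^ (c + 1) * F₂) * y := by rw [h4]
    -- second part
    obtain ⟨M, hM⟩ : ∃ M : ℝ, M = C₀ * (y * L ^ (3 * m) + L ^ (k + 1) * (y / L ^ m) +
        L ^ (k + 1) * L ^ (3 * m)) := ⟨_, rfl⟩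
    have hA : ∀ z : ℕ, z ≤ y → |∑ n ∈ Icc 1 z, (Lam n - 1) * Real.log n ^ k| ≤ M := by
      intro z hz
      have := h₀ m y (by omega) hy3 z hz
      rw [← hL] at this
      rw [hM]
      exact this
    have hgpos : ∀ i : ℕ, 0 < Real.log ((w + 1 + i : ℕ) : ℝ) := by
      intro i
      refine Real.log_pos ?_
      have : 1 < w + 1 + i := by omega
      exact_mod_cast this
    have habel := swj3_abel (fun i => (Lam (w + 1 + i) - 1) * Real.log ((w + 1 + i : ℕ) : ℝ) ^ k)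
      (fun i => 1 / Real.log ((w + 1 + i : ℕ) : ℝ) ^ k) (2 * M) (y - w) ?_ ?_ ?_
    rotate_left
    · intro i j hij
      have h1 := hgpos i
      have h2 : Real.log ((w + 1 + i : ℕ) : ℝ) ≤ Real.log ((w + 1 + j : ℕ) : ℝ) := by
        refine Real.log_le_log (by positivity) ?_
        exact_mod_cast Nat.add_le_add_left hij _
      refine one_div_le_one_div_of_le (by positivity) ?_
      exact pow_le_pow_left₀ h1.le h2 k
    · intro i
      have h1 := hgpos i
      positivity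
    · intro j hj
      have e1 : ∑ i ∈ range j, (Lam (w + 1 + i) - 1) * Real.log ((w + 1 + i : ℕ) : ℝ) ^ k =
          ∑ n ∈ Icc 1 (w + j), (Lam n - 1) * Real.log n ^ k -
            ∑ n ∈ Icc 1 w, (Lam n - 1) * Real.log n ^ k := by
        have e2 : Icc 1 (w + j) = Icc 1 w ∪ Ico (w + 1) (w + j + 1) := by
          ext n
          simp only [Finset.mem_Icc, Finset.mem_union, Finset.mem_Ico]
          omega
        rw [e2, Finset.sum_union, Finset.sum_Ico_eq_sum_range]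
        · have : w + j + 1 - (w + 1) = j := by omega
          rw [this]
          ring
        · rw [Finset.disjoint_left]
          intro n hn hn'
          rw [Finset.mem_Icc] at hn
          rw [Finset.mem_Ico] at hn'
          omega
      rw [e1]
      have h1 := hA (w + j) (by omega)
      have h2 := hA w hwy
      refine (abs_sub _ _).trans ?_
      linarith
    have hsum2 : ∑ i ∈ range (y - w), (1 / Real.log ((w + 1 + i : ℕ) : ℝ) ^ k) *
        ((Lam (w + 1 + i) - 1) * Real.log ((w + 1 + i : ℕ) : ℝ) ^ k) =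
        ∑ i ∈ range (y - w), (Lam (w + 1 + i) - 1) := by
      refine Finset.sum_congr rfl (fun i _ => ?_)
      have h1 : Real.log ((w + 1 + i : ℕ) : ℝ) ^ k ≠ 0 := (pow_pos (hgpos i) k).ne'
      field_simp
    rw [hsum2] at habel
    have hM0 : 0 ≤ M := by
      have := hA 0 (Nat.zero_le _)
      exact (abs_nonneg _).trans this
    have hg0 : 1 / Real.log ((w + 1 + 0 : ℕ) : ℝ) ^ k ≤ 2 ^ k / L ^ k := by
      have h1 : (L / 2) ^ k ≤ Real.log ((w + 1 + 0 : ℕ) : ℝ) ^ k := by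
        refine pow_le_pow_left₀ (by positivity) ?_ k
        push_cast
        rw [add_zero]
        exact hlw
      calc 1 / Real.log ((w + 1 + 0 : ℕ) : ℝ) ^ k ≤ 1 / (L / 2) ^ k :=
            one_div_le_one_div_of_le (by positivity) h1
        _ = 2 ^ k / L ^ k := by rw [div_pow]; field_simp
    have hMle : M * (2 ^ k / L ^ k) ≤ C₀ * 2 ^ k * (2 + F₁) * y / L ^ c := by
      have hk1 : L ^ k = L ^ (3 * m) * L ^ c := by rw [hk, pow_add]
      have hk2 : L ^ (k + 1) = L ^ k * L := pow_succ _ _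
      have hm1 : L ^ m = L ^ c * L := by rw [hm, pow_succ]
      have hfac := swj3_pow_le (1 + 3 * m + c) L hL0.le
      rw [hexp, ← hF₁] at hfac
      have hfac2 : L ^ (1 + 3 * m + c) = L * L ^ (3 * m) * L ^ c := by
        rw [pow_add, pow_add, pow_one]
      rw [hfac2] at hfac
      rw [hM, le_div_iff₀ (by positivity)]
      have hLc : 0 < L ^ c := by positivity
      have hL3 : 0 < L ^ (3 * m) := by positivity
      have hident : C₀ * (y * L ^ (3 * m) + L ^ (k + 1) * (y / L ^ m) +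
          L ^ (k + 1) * L ^ (3 * m)) * (2 ^ k / L ^ k) * L ^ c =
          C₀ * 2 ^ k * (y + y + L * L ^ (3 * m) * L ^ c) := by
        rw [hk2, hm1, hk1]
        field_simp
      rw [hident]
      have : (y : ℝ) + y + L * L ^ (3 * m) * L ^ c ≤ (2 + F₁) * y := by linarith
      calc C₀ * 2 ^ k * (y + y + L * L ^ (3 * m) * L ^ c) ≤ C₀ * 2 ^ k * ((2 + F₁) * y) :=
            mul_le_mul_of_nonneg_left this (by positivity)
        _ = _ := by ring
    have hpart2 : |∑ i ∈ range (y - w), (Lam (w + 1 + i) - 1)| ≤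
        2 * (2 * C₀) * 2 ^ k * (2 + F₁) * y / L ^ c := by
      refine habel.trans ?_
      calc 2 * M * (1 / Real.log ((w + 1 + 0 : ℕ) : ℝ) ^ k) ≤ 2 * M * (2 ^ k / L ^ k) :=
            mul_le_mul_of_nonneg_left hg0 (by positivity)
        _ = 2 * (M * (2 ^ k / L ^ k)) := by ring
        _ ≤ 2 * (C₀ * 2 ^ k * (2 + F₁) * y / L ^ c) :=
            mul_le_mul_of_nonneg_left hMle (by norm_num)
        _ ≤ 2 * (C₀ * 2 ^ k * (2 + F₁) * y / L ^ c) + 2 * (C₀ * 2 ^ k * (2 + F₁) * y / L ^ c) := by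
            have : 0 ≤ 2 * (C₀ * 2 ^ k * (2 + F₁) * y / L ^ c) := by positivity
            linarith
        _ = _ := by ring
    rw [hsplit]
    refine (abs_add_le _ _).trans ?_
    have h20 : 0 ≤ 2 * (y : ℝ) / L ^ c := by positivity
    calc |∑ n ∈ Icc 1 w, (Lam n - 1)| + |∑ i ∈ range (y - w), (Lam (w + 1 + i) - 1)|
        ≤ 2 * (2 ^ (c + 1) * F₂) * y / L ^ c + 2 * (2 * C₀) * 2 ^ k * (2 + F₁) * y / L ^ c :=
          add_le_add hpart1 hpart2
      _ ≤ 2 * (y : ℝ) / L ^ c + (2 * (2 ^ (c + 1) * F₂) * y / L ^ c +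
            2 * (2 * C₀) * 2 ^ k * (2 + F₁) * y / L ^ c) := by linarith
      _ = _ := by ring

end Pool.Agent.H91.EHA

end

section

/-!
# Primes in progressions to small moduli

Orthogonality of characters mod `c` (Mathlib `DirichletCharacter.sum_char_inv_mul_char_eq`; compare
`PK/DiA.lean`): `psiA y c a = (1/φ(c)) ∑_χ χ⁻¹(a) ∑_{n≤y} Λ(n)χ(n)`.  Principal character: `pnt` minus
`∑_{n ≤ y, (n,c)>1} Λ(n) ≤ (log x)²`-type (`DiA_psi_noncoprime`).  Other characters: replace by the primitive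
character (error again `∑_{(n,c)>1} Λ(n)`), `siegel_walfisz` for `y ≥ √x` (then `log y ≥ (log x)/2`), trivial bound
`y log y` for `y < √x`.
-/

set_option autoImplicit false

namespace Pool.Agent.H91.EHA

open Finset
open Pool.Agent.H91.PK

theorem swk1_Lam_nonneg (n : ℕ) : 0 ≤ Lam n := ArithmeticFunction.vonMangoldt_nonneg

/-- The twisted sum over prime powers. -/
noncomputable def swk1S (y : ℕ) {c : ℕ} (χ : DirichletCharacter ℂ c) : ℂ :=
  ∑ n ∈ Icc 1 y, ((Lam n : ℝ) : ℂ) * χ (n : ZMod c)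

/-- The mass of the `n` not coprime to `c`. -/
noncomputable def swk1E (y c : ℕ) : ℝ :=
  ∑ n ∈ (Icc 1 y).filter (fun n => ¬ Nat.Coprime n c), Lam n

theorem swk1E_nonneg (y c : ℕ) : 0 ≤ swk1E y c := sum_nonneg fun _ _ => swk1_Lam_nonneg _

theorem swk1E_le {y c : ℕ} (hy : 1 ≤ y) (hc : 1 ≤ c) : swk1E y c ≤ 2 * Real.log c * Real.log y := by
  have h1 : swk1E y c ≤ (c.primeFactors.card : ℝ) * Real.log y := DiA_psi_noncoprime hy hc
  have h2 := DiA_omega_le hc
  have h4 : (0.6931471803 : ℝ) < Real.log 2 := Real.log_two_gt_d9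
  have h5 : (0 : ℝ) ≤ c.primeFactors.card := Nat.cast_nonneg _
  have h6 : (c.primeFactors.card : ℝ) * 0.6931471803 ≤ Real.log c := by nlinarith
  have h7 : (c.primeFactors.card : ℝ) ≤ 2 * Real.log c := by nlinarith
  have hL : 0 ≤ Real.log y := Real.log_natCast_nonneg y
  exact h1.trans (mul_le_mul_of_nonneg_right h7 hL)

/-- orthogonality -/
theorem swk1_orth {y c a : ℕ} (hc : 1 ≤ c) (ha : Nat.Coprime a c) :
    (c.totient : ℂ) * ((psiA y c a : ℝ) : ℂ)
      = ∑ χ : DirichletCharacter ℂ c, χ ((a : ZMod c)⁻¹) * swk1S y χ := by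
  have : NeZero c := ⟨by omega⟩
  have hu : IsUnit (a : ZMod c) := (ZMod.isUnit_iff_coprime a c).mpr ha
  unfold swk1S psiA
  simp only [mul_sum]
  rw [sum_comm]
  rw [Complex.ofReal_sum, mul_sum, sum_filter]
  refine sum_congr rfl fun n hn => ?_
  rw [mem_Icc] at hn
  have h1 : ∀ χ : DirichletCharacter ℂ c,
      χ ((a : ZMod c)⁻¹) * (((Lam n : ℝ) : ℂ) * χ (n : ZMod c))
      = (χ ((a : ZMod c)⁻¹) * χ (n : ZMod c)) * ((Lam n : ℝ) : ℂ) := by
    intro χ; ring
  simp only [h1]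
  rw [← sum_mul, DirichletCharacter.sum_char_inv_mul_char_eq ℂ hu]
  have hiff : ((a : ZMod c) = (n : ZMod c)) ↔ n ≡ a [MOD c] := by
    rw [eq_comm]
    exact ZMod.natCast_eq_natCast_iff n a c
  by_cases h : n ≡ a [MOD c]
  · rw [if_pos h, if_pos (hiff.mpr h)]
  · rw [if_neg h, if_neg (fun h' => h (hiff.mp h'))]
    simp

theorem swk1_S_sub {y c : ℕ} (χ : DirichletCharacter ℂ c) :
    ‖swk1S y χ‖ ≤ ‖swk1S y χ.primitiveCharacter‖ + swk1E y c := by
  have h1 : swk1S y χ.primitiveCharacter - swk1S y χ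
      = ∑ n ∈ (Icc 1 y).filter (fun n => ¬ Nat.Coprime n c),
        ((Lam n : ℝ) : ℂ) * χ.primitiveCharacter (n : ZMod χ.conductor) := by
    unfold swk1S
    rw [← sum_sub_distrib, sum_filter]
    refine sum_congr rfl fun n _ => ?_
    by_cases h : Nat.Coprime n c
    · rw [if_neg (not_not.mpr h)]
      simp only [DiA_prim_eq χ h, sub_self]
    · rw [if_pos h]
      simp only [DiA_char_zero χ h, mul_zero, sub_zero]
  have h2 : ‖swk1S y χ.primitiveCharacter - swk1S y χ‖ ≤ swk1E y c := by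
    rw [h1]
    refine (norm_sum_le _ _).trans ?_
    refine sum_le_sum fun n _ => ?_
    rw [norm_mul, Complex.norm_real, Real.norm_of_nonneg (swk1_Lam_nonneg n)]
    calc Lam n * ‖χ.primitiveCharacter (n : ZMod χ.conductor)‖ ≤ Lam n * 1 :=
          mul_le_mul_of_nonneg_left (DiA_norm_char_le _ _) (swk1_Lam_nonneg n)
      _ = Lam n := mul_one _
  calc ‖swk1S y χ‖ = ‖swk1S y χ.primitiveCharacter
        - (swk1S y χ.primitiveCharacter - swk1S y χ)‖ := by congr 1; ring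
    _ ≤ _ := (norm_sub_le _ _).trans (by linarith)

theorem swk1_S_one {y c : ℕ} :
    swk1S y (1 : DirichletCharacter ℂ c)
      = (((∑ n ∈ Icc 1 y, Lam n) - swk1E y c : ℝ) : ℂ) := by
  unfold swk1S swk1E
  rw [sum_filter, ← sum_sub_distrib, Complex.ofReal_sum]
  refine sum_congr rfl fun n _ => ?_
  by_cases h : Nat.Coprime n c
  · rw [if_neg (not_not.mpr h)]
    have : (1 : DirichletCharacter ℂ c) (n : ZMod c) = 1 :=
      MulChar.one_apply ((ZMod.isUnit_iff_coprime n c).mpr h)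
    simp only [this]
    push_cast
    ring
  · rw [if_pos h]
    simp only [DiA_char_zero _ h]
    simp

/-- The main inequality. -/
theorem swk1_main {y c a : ℕ} (hc : 1 ≤ c) (ha : Nat.Coprime a c) {D : ℝ} (hD : 0 ≤ D)
    (h : ∀ χ : DirichletCharacter ℂ c, χ ≠ 1 → ‖swk1S y χ.primitiveCharacter‖ ≤ D) :
    |psiA y c a - (∑ n ∈ Icc 1 y, Lam n) / c.totient| ≤ swk1E y c + D := by
  classical
  have : NeZero c := ⟨by omega⟩
  have hφ : 0 < c.totient := Nat.totient_pos.mpr hc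
  have hφR : (0 : ℝ) < c.totient := by exact_mod_cast hφ
  have hφC : (c.totient : ℂ) ≠ 0 := by exact_mod_cast hφ.ne'
  set E := swk1E y c with hE
  set P := ∑ n ∈ Icc 1 y, Lam n with hP
  have hE0 : 0 ≤ E := swk1E_nonneg _ _
  have hNch : Nch c = univ.erase (1 : DirichletCharacter ℂ c) := by
    ext χ; rw [mem_Nch]; simp
  have horth := swk1_orth (y := y) hc ha
  have hone : (1 : DirichletCharacter ℂ c) ((a : ZMod c)⁻¹) = 1 := by
    refine MulChar.one_apply ?_
    have hu : IsUnit (a : ZMod c) := (ZMod.isUnit_iff_coprime a c).mpr ha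
    obtain ⟨u, hu⟩ := hu
    rw [← hu, ZMod.inv_coe_unit]
    exact Units.isUnit _
  rw [← Finset.add_sum_erase univ _ (mem_univ (1 : DirichletCharacter ℂ c)), ← hNch, hone,
    one_mul, swk1_S_one, ← hP, ← hE] at horth
  have h1 : ((c.totient * psiA y c a - P : ℝ) : ℂ)
      = - ((E : ℝ) : ℂ) + ∑ χ ∈ Nch c, χ ((a : ZMod c)⁻¹) * swk1S y χ := by
    push_cast
    rw [horth]
    push_cast
    ring
  have hcard : (Nch c).card + 1 = c.totient := by
    rw [hNch, card_erase_of_mem (mem_univ _), card_univ, ← Nat.card_eq_fintype_card,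
      DirichletCharacter.card_eq_totient_of_hasEnoughRootsOfUnity ℂ c]
    omega
  have hcardR : ((Nch c).card : ℝ) + 1 = c.totient := by exact_mod_cast hcard
  have h2 : |(c.totient : ℝ) * psiA y c a - P| ≤ (c.totient : ℝ) * (E + D) := by
    have h3 : |(c.totient : ℝ) * psiA y c a - P|
        = ‖((c.totient * psiA y c a - P : ℝ) : ℂ)‖ := by
      rw [Complex.norm_real, Real.norm_eq_abs]
    rw [h3, h1]
    refine (norm_add_le _ _).trans ?_
    rw [norm_neg, Complex.norm_real, Real.norm_of_nonneg hE0]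
    have h4 : ‖∑ χ ∈ Nch c, χ ((a : ZMod c)⁻¹) * swk1S y χ‖
        ≤ ∑ χ ∈ Nch c, (D + E) := by
      refine (norm_sum_le _ _).trans (sum_le_sum fun χ hχ => ?_)
      rw [norm_mul]
      calc ‖χ ((a : ZMod c)⁻¹)‖ * ‖swk1S y χ‖
          ≤ 1 * ‖swk1S y χ‖ :=
            mul_le_mul_of_nonneg_right (DiA_norm_char_le _ _) (norm_nonneg _)
        _ ≤ _ := by
            rw [one_mul]
            exact (swk1_S_sub χ).trans (add_le_add (h χ (mem_Nch.mp hχ)) le_rfl)
    rw [sum_const, nsmul_eq_mul] at h4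
    rw [← hcardR]
    nlinarith
  have h6 : psiA y c a - P / c.totient
      = (1 / (c.totient : ℝ)) * ((c.totient : ℝ) * psiA y c a - P) := by
    field_simp
  rw [h6, abs_mul, abs_of_pos (by positivity : (0 : ℝ) < 1 / (c.totient : ℝ))]
  calc (1 / (c.totient : ℝ)) * |(c.totient : ℝ) * psiA y c a - P|
      ≤ (1 / (c.totient : ℝ)) * ((c.totient : ℝ) * (E + D)) :=
        mul_le_mul_of_nonneg_left h2 (by positivity)
    _ = E + D := by field_simp

/-- The growth conditions on `x`. -/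
theorem swk1_ev (B k : ℕ) (M : ℝ) : ∃ x0 : ℕ, ∀ x : ℕ, x0 ≤ x →
    2 ≤ x ∧ 1 ≤ Real.log x ∧ 2 * 2 ^ B ≤ Real.log x ∧ M ≤ Real.log x ∧
      2 * Real.log x ^ (k + 1) ≤ Real.sqrt x ∧ 4 * (B + 1) * Real.log x ^ (k + 2) ≤ x := by
  have hlog : Filter.Tendsto (fun x : ℕ => Real.log (x : ℝ)) Filter.atTop Filter.atTop :=
    Real.tendsto_log_atTop.comp tendsto_natCast_atTop_atTop
  have h1 : ∀ᶠ x : ℕ in Filter.atTop, 2 ≤ x := Filter.eventually_ge_atTop 2
  have h2 : ∀ᶠ x : ℕ in Filter.atTop, 1 ≤ Real.log x := hlog.eventually_ge_atTop 1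
  have h3 : ∀ᶠ x : ℕ in Filter.atTop, 2 * 2 ^ B ≤ Real.log x := hlog.eventually_ge_atTop _
  have h4 : ∀ᶠ x : ℕ in Filter.atTop, M ≤ Real.log x := hlog.eventually_ge_atTop _
  have hid : ∀ n : ℕ, ∀ e : ℝ, 0 < e → ∀ᶠ t : ℝ in Filter.atTop, Real.log t ^ n ≤ e * t := by
    intro n e he
    have := (Real.isLittleO_pow_log_id_atTop (n := n)).bound he
    filter_upwards [this, Filter.eventually_ge_atTop (1 : ℝ)] with t ht ht1
    have h0 : 0 ≤ Real.log t := Real.log_nonneg ht1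
    rw [Real.norm_of_nonneg (by positivity)] at ht
    simpa [Real.norm_of_nonneg (by linarith : (0 : ℝ) ≤ t)] using ht
  have h5 : ∀ᶠ x : ℕ in Filter.atTop, 2 * Real.log x ^ (k + 1) ≤ Real.sqrt x := by
    have hs : Filter.Tendsto (fun x : ℕ => Real.sqrt (x : ℝ)) Filter.atTop Filter.atTop :=
      Real.tendsto_sqrt_atTop.comp tendsto_natCast_atTop_atTop
    have := hs.eventually (hid (k + 1) (1 / (2 * 2 ^ (k + 1))) (by positivity))
    filter_upwards [this, h1] with x hx hx1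
    have hls : Real.log (Real.sqrt x) = Real.log x / 2 := Real.log_sqrt (Nat.cast_nonneg x)
    rw [hls, div_pow] at hx
    have hp : (0 : ℝ) < 2 ^ (k + 1) := by positivity
    rw [div_le_iff₀ hp] at hx
    have e1 : 1 / (2 * 2 ^ (k + 1)) * Real.sqrt x * (2 : ℝ) ^ (k + 1) = Real.sqrt x / 2 := by
      field_simp
    rw [e1] at hx
    linarith
  have h6 : ∀ᶠ x : ℕ in Filter.atTop, 4 * (B + 1) * Real.log x ^ (k + 2) ≤ x := by
    have hB : (0 : ℝ) < 4 * (B + 1) := by positivity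
    have := (tendsto_natCast_atTop_atTop (R := ℝ)).eventually
      (hid (k + 2) (1 / (4 * (B + 1))) (by positivity))
    filter_upwards [this] with x hx
    have := mul_le_mul_of_nonneg_left hx hB.le
    have e1 : 4 * ((B : ℝ) + 1) * (1 / (4 * (B + 1)) * (x : ℝ)) = x := by
      field_simp
    rw [e1] at this
    exact this
  obtain ⟨x0, hx0⟩ := Filter.eventually_atTop.mp
    (h1.and (h2.and (h3.and (h4.and (h5.and h6)))))
  exact ⟨x0, fun x hx => hx0 x hx⟩

theorem swk1_psi_le (y : ℕ) : ∑ n ∈ Icc 1 y, Lam n ≤ y * Real.log y := by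
  calc ∑ n ∈ Icc 1 y, Lam n ≤ ∑ n ∈ Icc 1 y, Real.log y := by
        refine sum_le_sum fun n hn => ?_
        rw [mem_Icc] at hn
        refine (ArithmeticFunction.vonMangoldt_le_log).trans ?_
        exact Real.log_le_log (by exact_mod_cast hn.1) (by exact_mod_cast hn.2)
    _ = y * Real.log y := by simp

theorem psi_ap (B k : ℕ) : ∃ x0 : ℕ, ∀ x : ℕ, x0 ≤ x → ∀ y : ℕ, y ≤ x → ∀ c : ℕ, 1 ≤ c →
    (c : ℝ) ≤ Real.log x ^ B → ∀ a : ℕ, Nat.Coprime a c →
      |psiA y c a - y / (c.totient : ℝ)| ≤ x / Real.log x ^ k := by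
  obtain ⟨C1, hC1, hsw⟩ := siegel_walfisz (B + 1) (k + 1)
  obtain ⟨C2, hC2, hpnt⟩ := pnt (k + 1)
  obtain ⟨x0, hx0⟩ := swk1_ev B k (2 * ((C1 + C2) * 2 ^ (k + 1)))
  refine ⟨x0, fun x hx y hyx c hc hcB a ha => ?_⟩
  obtain ⟨g1, g2, g3, g4, g5, g6⟩ := hx0 x hx
  have hxR : (2 : ℝ) ≤ x := by exact_mod_cast g1
  have hyxR : (y : ℝ) ≤ x := by exact_mod_cast hyx
  have hφ : 0 < c.totient := Nat.totient_pos.mpr hc
  have hφR : (0 : ℝ) < c.totient := by exact_mod_cast hφ
  have hφ1 : (1 : ℝ) ≤ c.totient := by exact_mod_cast hφ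
  have hy0 : (0 : ℝ) ≤ y := Nat.cast_nonneg y
  have hdiv : (y : ℝ) / c.totient ≤ y := div_le_self hy0 hφ1
  have hdiv0 : (0 : ℝ) ≤ (y : ℝ) / c.totient := by positivity
  have hLk : 0 < Real.log x ^ k := by positivity
  by_cases hbig : (y : ℝ) ≤ Real.sqrt x
  · -- trivial bound
    have hpsi0 : 0 ≤ psiA y c a := sum_nonneg fun _ _ => swk1_Lam_nonneg _
    have hpsi1 : psiA y c a ≤ y * Real.log y := by
      refine le_trans ?_ (swk1_psi_le y)
      exact sum_le_sum_of_subset_of_nonneg (filter_subset _ _) fun _ _ _ => swk1_Lam_nonneg _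
    have hlogy : Real.log y ≤ Real.log x := by
      rcases Nat.eq_zero_or_pos y with h | h
      · subst h; simpa using Real.log_natCast_nonneg x
      · exact Real.log_le_log (by exact_mod_cast h) hyxR
    have hs0 : 0 ≤ Real.sqrt x := Real.sqrt_nonneg _
    have hb1 : psiA y c a ≤ Real.sqrt x * Real.log x := by
      refine hpsi1.trans ?_
      exact mul_le_mul hbig hlogy (Real.log_natCast_nonneg y) hs0
    have hb2 : (y : ℝ) / c.totient ≤ Real.sqrt x * Real.log x := by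
      refine (hdiv.trans hbig).trans ?_
      nlinarith
    have hb3 : Real.sqrt x * Real.log x ≤ x / Real.log x ^ k := by
      rw [le_div_iff₀ hLk]
      have e1 : Real.sqrt x * Real.log x * Real.log x ^ k
          = Real.sqrt x * Real.log x ^ (k + 1) := by ring
      rw [e1]
      have e2 : Real.sqrt x * Real.sqrt x = x := Real.mul_self_sqrt (by positivity)
      have e3 : 0 ≤ Real.log x ^ (k + 1) := by positivity
      nlinarith
    rw [abs_le]
    constructor <;> linarith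
  · rw [not_le] at hbig
    have hs1 : (1 : ℝ) ≤ Real.sqrt x := by
      rw [Real.one_le_sqrt]; linarith
    have hy1R : (1 : ℝ) < y := by linarith
    have hy2 : 2 ≤ y := by
      have : 1 < y := by exact_mod_cast hy1R
      omega
    have hlogy : Real.log x / 2 ≤ Real.log y := by
      rw [← Real.log_sqrt (by positivity)]
      exact Real.log_le_log (by positivity) hbig.le
    have hlogyx : Real.log y ≤ Real.log x := Real.log_le_log (by linarith) hyxR
    have hly0 : 0 < Real.log y := by linarith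
    have h2B : (2 : ℝ) ^ B ≤ Real.log y := by linarith
    have hcy : (c : ℝ) ≤ Real.log y ^ (B + 1) := by
      calc (c : ℝ) ≤ Real.log x ^ B := hcB
        _ ≤ (2 * Real.log y) ^ B := by
            refine pow_le_pow_left₀ (by linarith) (by linarith) _
        _ = 2 ^ B * Real.log y ^ B := by rw [mul_pow]
        _ ≤ Real.log y * Real.log y ^ B := by
            refine mul_le_mul_of_nonneg_right h2B (by positivity)
        _ = Real.log y ^ (B + 1) := by ring
    set D : ℝ := C1 * y / Real.log y ^ (k + 1) with hD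
    have hD0 : 0 ≤ D := by positivity
    have hchar : ∀ χ : DirichletCharacter ℂ c, χ ≠ 1 → ‖swk1S y χ.primitiveCharacter‖ ≤ D := by
      intro χ hχ
      have : NeZero c := ⟨by omega⟩
      have hcond_dvd : χ.conductor ∣ c := χ.conductor_dvd_level
      have hcond0 : χ.conductor ≠ 0 := by
        intro h0
        rw [h0] at hcond_dvd
        have := Nat.eq_zero_of_zero_dvd hcond_dvd
        omega
      have hcond1 : χ.conductor ≠ 1 := by
        intro h1
        exact hχ ((DirichletCharacter.eq_one_iff_conductor_eq_one (χ := χ)).mpr h1)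
      have hcond2 : 2 ≤ χ.conductor := by omega
      have hle : (χ.conductor : ℝ) ≤ Real.log y ^ (B + 1) := by
        refine le_trans ?_ hcy
        exact_mod_cast Nat.le_of_dvd hc hcond_dvd
      exact hsw χ.conductor hcond2 χ.primitiveCharacter
        χ.primitiveCharacter_isPrimitive y hy2 hle
    have hmain := swk1_main (y := y) hc ha hD0 hchar
    have hp := hpnt y hy2
    have hE : swk1E y c ≤ 2 * Real.log c * Real.log y := swk1E_le (by omega) hc
    have hlogc : Real.log c ≤ B * Real.log x := by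
      have h1 : Real.log c ≤ Real.log (Real.log x ^ B) :=
        Real.log_le_log (by exact_mod_cast hc) hcB
      rw [Real.log_pow] at h1
      have h2 : Real.log (Real.log x) ≤ Real.log x := by
        have := Real.log_le_sub_one_of_pos (by linarith : (0 : ℝ) < Real.log x)
        linarith
      exact h1.trans (mul_le_mul_of_nonneg_left h2 (Nat.cast_nonneg B))
    have hlogc0 : 0 ≤ Real.log c := Real.log_natCast_nonneg c
    have hE2 : swk1E y c ≤ 2 * B * Real.log x ^ 2 := by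
      calc swk1E y c ≤ 2 * Real.log c * Real.log y := hE
        _ ≤ 2 * Real.log c * Real.log x := mul_le_mul_of_nonneg_left hlogyx (by positivity)
        _ ≤ 2 * (B * Real.log x) * Real.log x := by
            refine mul_le_mul_of_nonneg_right ?_ (by linarith)
            linarith
        _ = 2 * B * Real.log x ^ 2 := by ring
    have hE3 : swk1E y c ≤ (x / Real.log x ^ k) / 2 := by
      refine hE2.trans ?_
      rw [div_div, le_div_iff₀ (by positivity)]
      have e1 : 2 * B * Real.log x ^ 2 * (Real.log x ^ k * 2)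
          = 4 * B * Real.log x ^ (k + 2) := by ring
      rw [e1]
      refine le_trans ?_ g6
      have : 0 ≤ Real.log x ^ (k + 2) := by positivity
      nlinarith
    have hsub : |psiA y c a - y / (c.totient : ℝ)| ≤
        |psiA y c a - (∑ n ∈ Icc 1 y, Lam n) / c.totient|
          + |(∑ n ∈ Icc 1 y, Lam n) / c.totient - y / (c.totient : ℝ)| := abs_sub_le _ _ _
    have hp2 : |(∑ n ∈ Icc 1 y, Lam n) / c.totient - y / (c.totient : ℝ)|
        ≤ C2 * y / Real.log y ^ (k + 1) := by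
      rw [← sub_div, abs_div, abs_of_pos hφR]
      exact (div_le_self (abs_nonneg _) hφ1).trans hp
    have hfin : (C1 + C2) * y / Real.log y ^ (k + 1) ≤ (x / Real.log x ^ k) / 2 := by
      have hpow : (Real.log x / 2) ^ (k + 1) ≤ Real.log y ^ (k + 1) :=
        pow_le_pow_left₀ (by linarith) hlogy _
      have hpow0 : 0 < (Real.log x / 2) ^ (k + 1) := by
        have : 0 < Real.log x / 2 := by linarith
        positivity
      calc (C1 + C2) * y / Real.log y ^ (k + 1)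
          ≤ (C1 + C2) * x / (Real.log x / 2) ^ (k + 1) := by
            refine div_le_div₀ (by positivity) ?_ hpow0 hpow
            exact mul_le_mul_of_nonneg_left hyxR (by positivity)
        _ ≤ (x / Real.log x ^ k) / 2 := by
            rw [div_pow, div_div_eq_mul_div, div_div, div_le_div_iff₀ (by positivity) (by positivity)]
            have e1 : (C1 + C2) * ↑x * 2 ^ (k + 1) * (Real.log ↑x ^ k * 2)
                = (2 * ((C1 + C2) * 2 ^ (k + 1))) * (x * Real.log x ^ k) := by ring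
            rw [e1]
            have e2 : (x : ℝ) * Real.log x ^ (k + 1) = Real.log x * (x * Real.log x ^ k) := by ring
            rw [e2]
            exact mul_le_mul_of_nonneg_right g4 (by positivity)
    have hadd : D + C2 * y / Real.log y ^ (k + 1) = (C1 + C2) * y / Real.log y ^ (k + 1) := by
      rw [hD]; ring
    linarith

end Pool.Agent.H91.EHA

end

section

/-!
# MID SwH: the hypothesis `SWp` holds (needs the compiled closure of `H91/EHA/SwK3`, `H35/W/SwT`)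

Proof.  Like `Pool.Agent.H91.EHA.sw_h` (`H91/EHA/SwK3.lean`) and `Pool.Agent.H35.W.sw_t` (`H35/W/SwT.lean`) but with independent parameters: `x = K2`, `e0 L ≤ log K2 ≤ L`, so
`c ≤ R ≤ L^B ≤ (log K2)^(B+1)` for `N` large.  `psi_ap (B+1) k'` at `x = K2` gives `|psiA y c a - y/φ(c)| ≤ K2/(log K2)^k'` for `y ≤ K2`, `(a,c) = 1`; then as in `sw_h`
(`SwK3_main`, `SwK3_noncop`, `lamR_exp R y c b` which holds for every `R ≥ c`):
`‖∑_{n ≤ y} hR R n ee(± n b/c)‖ ≤ K2/L^(k+m+3)` for all `y ≤ K2` (error of the `lamR` part `≤ R^3 L` or so; `K2 ≥ N^e0`).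
Then Abel summation with `ee(-(t log n))`, `|ee(t log n) - ee(t log(n+1))| ≤ 7 |t|/n`, total variation `≤ 7 |t| (1 + log K2)`.  The conjugate sign: `-b` or `c - b` instead of `b`.
-/

set_option autoImplicit false

namespace Pool.Agent.H53.MID

open Finset
open Pool.Agent.H91.PK (ee)
open Pool.Agent.H91.EHA (Lam hR lamR ramS)

open Pool.Agent.H91.EHA (psiA psi_ap lamR_exp ramS_eq)
open Pool.Agent.H91.PK (DiA_psi_noncoprime)

private theorem SwH_ee_add (s t : ℝ) : ee (s + t) = ee s * ee t := by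
  unfold ee
  rw [← Complex.exp_add]
  congr 1
  push_cast
  ring

private theorem SwH_ee_nat (n : ℕ) : ee (n : ℝ) = 1 := by
  unfold ee
  rw [Complex.exp_eq_one_iff]
  exact ⟨n, by push_cast; ring⟩

private theorem SwH_norm_ee (t : ℝ) : ‖ee t‖ = 1 := by
  unfold ee
  rw [show (2 * (Real.pi : ℂ) * (t : ℂ) * Complex.I) = ((2 * Real.pi * t : ℝ) : ℂ) * Complex.I by
    push_cast; ring]
  exact Complex.norm_exp_ofReal_mul_I _

private theorem SwH_ee_le {n a b c : ℕ} (hc : 1 ≤ c) (han : a ≤ n) (h : n ≡ a [MOD c]) :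
    ee ((n : ℝ) * b / c) = ee ((a : ℝ) * b / c) := by
  obtain ⟨t, ht⟩ := (Nat.modEq_iff_dvd' han).1 h.symm
  have hn : n = a + c * t := by omega
  have hc' : (c : ℝ) ≠ 0 := by
    have : (0 : ℝ) < c := by exact_mod_cast hc
    exact this.ne'
  have e : (n : ℝ) * b / c = (a : ℝ) * b / c + ((t * b : ℕ) : ℝ) := by
    rw [hn]
    push_cast
    field_simp
  rw [e, SwH_ee_add, SwH_ee_nat, mul_one]

private theorem SwH_ee_congr {n a b c : ℕ} (hc : 1 ≤ c) (h : n ≡ a [MOD c]) :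
    ee ((n : ℝ) * b / c) = ee ((a : ℝ) * b / c) := by
  rcases le_total a n with h1 | h1
  · exact SwH_ee_le hc h1 h
  · exact (SwH_ee_le hc h1 h.symm).symm

/-- the representative in `1..c` -/
private def SwH_rep (c n : ℕ) : ℕ := if n % c = 0 then c else n % c

private theorem SwH_rep_mem {c : ℕ} (hc : 1 ≤ c) (n : ℕ) : SwH_rep c n ∈ Icc 1 c := by
  unfold SwH_rep
  rw [mem_Icc]
  have := Nat.mod_lt n (show 0 < c by omega)
  split_ifs with h
  · omega
  · omega

private theorem SwH_rep_modEq {c : ℕ} (n : ℕ) : n ≡ SwH_rep c n [MOD c] := by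
  unfold SwH_rep Nat.ModEq
  split_ifs with h
  · rw [h, Nat.mod_self]
  · rw [Nat.mod_mod]

private theorem SwH_rep_iff {c n a : ℕ} (hc : 1 ≤ c) (ha : a ∈ Icc 1 c) :
    SwH_rep c n = a ↔ n ≡ a [MOD c] := by
  constructor
  · rintro rfl
    exact SwH_rep_modEq n
  · intro h
    have h1 := SwH_rep_mem hc n
    rw [mem_Icc] at ha h1
    have h2 : SwH_rep c n ≡ a [MOD c] := (SwH_rep_modEq n).symm.trans h
    rcases Nat.lt_or_ge (SwH_rep c n) c with h3 | h3
    · rcases Nat.lt_or_ge a c with h4 | h4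
      · exact Nat.ModEq.eq_of_lt_of_lt h2 h3 h4
      · have h5 : a = c := by omega
        subst h5
        unfold Nat.ModEq at h2
        rw [Nat.mod_self, Nat.mod_eq_of_lt h3] at h2
        omega
    · have h5 : SwH_rep c n = c := by omega
      rw [h5] at h2 ⊢
      unfold Nat.ModEq at h2
      rw [Nat.mod_self] at h2
      rcases Nat.lt_or_ge a c with h4 | h4
      · rw [Nat.mod_eq_of_lt h4] at h2
        omega
      · omega

/-- splitting a sum over `n ≤ y` according to the class of `n` modulo `c` -/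
private theorem SwH_split {M : Type*} [AddCommMonoid M] (y c : ℕ) (hc : 1 ≤ c)
    (P : ℕ → Prop) [DecidablePred P] (hP : ∀ n a, n ≡ a [MOD c] → (P n ↔ P a)) (f : ℕ → M) :
    ∑ n ∈ (Icc 1 y).filter P, f n = ∑ a ∈ (Icc 1 c).filter P,
      ∑ n ∈ (Icc 1 y).filter (fun n => n ≡ a [MOD c]), f n := by
  rw [← Finset.sum_fiberwise_of_maps_to (s := (Icc 1 y).filter P) (t := (Icc 1 c).filter P)
    (g := SwH_rep c)]
  · refine Finset.sum_congr rfl fun a ha => ?_
    rw [mem_filter] at ha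
    refine Finset.sum_congr ?_ fun _ _ => rfl
    ext n
    simp only [mem_filter]
    constructor
    · rintro ⟨⟨h1, _⟩, h3⟩
      exact ⟨h1, (SwH_rep_iff hc ha.1).1 h3⟩
    · rintro ⟨h1, h2⟩
      exact ⟨⟨h1, (hP n a h2).2 ha.2⟩, (SwH_rep_iff hc ha.1).2 h2⟩
  · intro n hn
    rw [mem_filter] at hn ⊢
    exact ⟨SwH_rep_mem hc n, (hP n _ (SwH_rep_modEq n)).1 hn.2⟩

private theorem SwH_lam (y c b : ℕ) (hc : 1 ≤ c) :
    ∑ n ∈ Icc 1 y, ((Lam n : ℝ) : ℂ) * ee ((n : ℝ) * b / c) =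
      ∑ a ∈ Icc 1 c, ((psiA y c a : ℝ) : ℂ) * ee ((b : ℝ) * a / c) := by
  have h := SwH_split y c hc (fun _ => True) (fun _ _ _ => Iff.rfl)
    (fun n => ((Lam n : ℝ) : ℂ) * ee ((n : ℝ) * b / c))
  rw [Finset.filter_true, Finset.filter_true] at h
  rw [h]
  refine Finset.sum_congr rfl fun a _ => ?_
  unfold psiA
  rw [Complex.ofReal_sum, Finset.sum_mul]
  refine Finset.sum_congr rfl fun n hn => ?_
  rw [mem_filter] at hn
  rw [SwH_ee_congr hc hn.2, mul_comm (a : ℝ) (b : ℝ)]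

private theorem SwH_noncop (y c : ℕ) (hc : 1 ≤ c) (hy : 1 ≤ y) :
    ∑ a ∈ (Icc 1 c).filter (fun a => ¬ Nat.Coprime a c), psiA y c a ≤ c * Real.log y := by
  have h := SwH_split y c hc (fun n => ¬ Nat.Coprime n c)
    (fun n a hna => by
      have e : Nat.gcd n c = Nat.gcd a c := Nat.ModEq.gcd_eq hna
      unfold Nat.Coprime
      rw [e]) (fun n => Lam n)
  have h2 : ∑ a ∈ (Icc 1 c).filter (fun a => ¬ Nat.Coprime a c), psiA y c a =
      ∑ n ∈ (Icc 1 y).filter (fun n => ¬ Nat.Coprime n c), Lam n := h.symm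
  rw [h2]
  refine (DiA_psi_noncoprime hy hc).trans ?_
  refine mul_le_mul_of_nonneg_right ?_ (Real.log_natCast_nonneg y)
  have h3 : c.primeFactors.card ≤ c := by
    calc c.primeFactors.card ≤ (Icc 1 c).card := by
          apply Finset.card_le_card
          intro p hp
          rw [mem_Icc]
          exact ⟨(Nat.prime_of_mem_primeFactors hp).one_le, Nat.le_of_mem_primeFactors hp⟩
      _ = c := by simp
  exact_mod_cast h3

private theorem SwH_psi_nonneg (y c a : ℕ) : 0 ≤ psiA y c a :=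
  Finset.sum_nonneg fun _ _ => ArithmeticFunction.vonMangoldt_nonneg

private theorem SwH_ram (c b : ℕ) (hb : Nat.Coprime b c) :
    ramS c b = (ArithmeticFunction.moebius c : ℝ) := by
  unfold ramS
  have h : Nat.gcd c b = 1 := hb.symm
  rw [h, Nat.divisors_one, Finset.sum_singleton, Nat.div_one]
  simp

private theorem SwH_main (y c b : ℕ) (hc : 1 ≤ c) (hy : 1 ≤ y) (hb : Nat.Coprime b c) (E : ℝ)
    (hE : ∀ a : ℕ, Nat.Coprime a c → |psiA y c a - y / (c.totient : ℝ)| ≤ E) :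
    ‖(∑ n ∈ Icc 1 y, ((Lam n : ℝ) : ℂ) * ee ((n : ℝ) * b / c))
      - (((ArithmeticFunction.moebius c : ℝ) / (c.totient : ℝ) * y : ℝ) : ℂ)‖ ≤
      c * E + c * Real.log y := by
  have hE0 : 0 ≤ E := (abs_nonneg _).trans (hE 1 (Nat.coprime_one_left c))
  have hr := ramS_eq c b hc
  rw [SwH_ram c b hb] at hr
  have hmain : (((ArithmeticFunction.moebius c : ℝ) / (c.totient : ℝ) * y : ℝ) : ℂ) =
      ∑ a ∈ (Icc 1 c).filter (fun a => Nat.Coprime a c),
        (((y : ℝ) / (c.totient : ℝ) : ℝ) : ℂ) * ee ((b : ℝ) * a / c) := by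
    rw [← Finset.mul_sum, ← hr]
    push_cast
    ring
  have hsplit : ∑ a ∈ Icc 1 c, ((psiA y c a : ℝ) : ℂ) * ee ((b : ℝ) * a / c) =
      ∑ a ∈ (Icc 1 c).filter (fun a => Nat.Coprime a c),
        ((psiA y c a : ℝ) : ℂ) * ee ((b : ℝ) * a / c) +
      ∑ a ∈ (Icc 1 c).filter (fun a => ¬ Nat.Coprime a c),
        ((psiA y c a : ℝ) : ℂ) * ee ((b : ℝ) * a / c) :=
    (Finset.sum_filter_add_sum_filter_not _ _ _).symm
  rw [SwH_lam y c b hc, hsplit, hmain, add_sub_right_comm, ← Finset.sum_sub_distrib]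
  refine (norm_add_le _ _).trans (add_le_add ?_ ?_)
  · refine (norm_sum_le _ _).trans ?_
    calc ∑ a ∈ (Icc 1 c).filter (fun a => Nat.Coprime a c),
          ‖((psiA y c a : ℝ) : ℂ) * ee ((b : ℝ) * a / c) -
            (((y : ℝ) / (c.totient : ℝ) : ℝ) : ℂ) * ee ((b : ℝ) * a / c)‖
        ≤ ∑ a ∈ (Icc 1 c).filter (fun a => Nat.Coprime a c), E := by
          refine Finset.sum_le_sum fun a ha => ?_
          rw [mem_filter] at ha
          rw [← sub_mul, norm_mul, SwH_norm_ee, mul_one, ← Complex.ofReal_sub,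
            Complex.norm_real, Real.norm_eq_abs]
          exact hE a ha.2
      _ ≤ c * E := by
          rw [Finset.sum_const, nsmul_eq_mul]
          refine mul_le_mul_of_nonneg_right ?_ hE0
          have h1 : ((Icc 1 c).filter (fun a => Nat.Coprime a c)).card ≤ c :=
            (Finset.card_filter_le _ _).trans (by simp)
          exact_mod_cast h1
  · refine (norm_sum_le _ _).trans (le_trans (le_of_eq ?_) (SwH_noncop y c hc hy))
    refine Finset.sum_congr rfl fun a _ => ?_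
    rw [norm_mul, SwH_norm_ee, mul_one, Complex.norm_real, Real.norm_eq_abs,
      abs_of_nonneg (SwH_psi_nonneg y c a)]

private theorem SwH_abel (u : ℕ → ℂ) (a0 M : ℕ) (hM : a0 ≤ M) (t E : ℝ) (N : ℕ)
    (hE : ∀ v, v ≤ N → ‖∑ n ∈ Icc 1 v, u n‖ ≤ E) (j : ℕ) (hj : M + 1 + j ≤ N) :
    ‖(∑ n ∈ Ioc M (M + 1 + j), u n * ee (t * Real.log ((n : ℝ) - a0))) -
      ((∑ n ∈ Icc 1 (M + 1 + j), u n) - ∑ n ∈ Icc 1 M, u n) *
        ee (t * Real.log (((M + 1 + j : ℕ) : ℝ) - a0))‖ ≤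
      14 * E * |t| * (Real.log (((M + 1 + j : ℕ) : ℝ) - a0) - Real.log (((M + 1 : ℕ) : ℝ) - a0)) := by
  induction j with
  | zero =>
    have h1 : Ioc M (M + 1 + 0) = {M + 1} := by
      ext n; simp only [mem_Ioc, mem_singleton]; omega
    have h2 : ∑ n ∈ Icc 1 (M + 1 + 0), u n = ∑ n ∈ Icc 1 M, u n + u (M + 1) := by
      rw [add_zero, Finset.sum_Icc_succ_top (by omega)]
    rw [h1, h2, sum_singleton]
    simp
  | succ j ih =>
    have ih' := ih (by omega)
    have h1 : ∑ n ∈ Ioc M (M + 1 + (j + 1)), u n * ee (t * Real.log ((n : ℝ) - a0)) =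
        ∑ n ∈ Ioc M (M + 1 + j), u n * ee (t * Real.log ((n : ℝ) - a0)) +
          u (M + 1 + (j + 1)) * ee (t * Real.log (((M + 1 + (j + 1) : ℕ) : ℝ) - a0)) := by
      rw [show M + 1 + (j + 1) = (M + 1 + j) + 1 by ring, Finset.sum_Ioc_succ_top (by omega)]
    have h2 : ∑ n ∈ Icc 1 (M + 1 + (j + 1)), u n =
        ∑ n ∈ Icc 1 (M + 1 + j), u n + u (M + 1 + (j + 1)) := by
      rw [show M + 1 + (j + 1) = (M + 1 + j) + 1 by ring, Finset.sum_Icc_succ_top (by omega)]
    set G := ∑ n ∈ Icc 1 (M + 1 + j), u n with hG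
    set GM := ∑ n ∈ Icc 1 M, u n with hGM
    set S := ∑ n ∈ Ioc M (M + 1 + j), u n * ee (t * Real.log ((n : ℝ) - a0)) with hS
    set w := ee (t * Real.log (((M + 1 + j : ℕ) : ℝ) - a0)) with hw
    set w' := ee (t * Real.log (((M + 1 + (j + 1) : ℕ) : ℝ) - a0)) with hw'
    rw [h1, h2]
    have e : S + u (M + 1 + (j + 1)) * w' - (G + u (M + 1 + (j + 1)) - GM) * w' =
        (S - (G - GM) * w) + (G - GM) * (w - w') := by ring
    rw [e]
    have hx1 : (1 : ℝ) ≤ ((M + 1 + j : ℕ) : ℝ) - a0 := by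
      have : (a0 : ℝ) ≤ M := by exact_mod_cast hM
      push_cast
      have hj0 : (0 : ℝ) ≤ j := Nat.cast_nonneg j
      linarith
    have hx2 : ((M + 1 + j : ℕ) : ℝ) - a0 ≤ ((M + 1 + (j + 1) : ℕ) : ℝ) - a0 := by
      push_cast; linarith
    have hlog := Real.log_le_log (by linarith) hx2
    have h3 : ‖w - w'‖ ≤ 7 * (|t| * (Real.log (((M + 1 + (j + 1) : ℕ) : ℝ) - a0) -
        Real.log (((M + 1 + j : ℕ) : ℝ) - a0))) := by
      have h4 := Pool.Agent.H76.EHB.melB_ee_sub (t * Real.log (((M + 1 + j : ℕ) : ℝ) - a0))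
        (t * (Real.log (((M + 1 + (j + 1) : ℕ) : ℝ) - a0) -
        Real.log (((M + 1 + j : ℕ) : ℝ) - a0)))
      have h5 : t * Real.log (((M + 1 + j : ℕ) : ℝ) - a0) +
          t * (Real.log (((M + 1 + (j + 1) : ℕ) : ℝ) - a0) -
          Real.log (((M + 1 + j : ℕ) : ℝ) - a0)) =
          t * Real.log (((M + 1 + (j + 1) : ℕ) : ℝ) - a0) := by ring
      rw [h5, ← hw, ← hw', norm_sub_rev, abs_mul,
        abs_of_nonneg (sub_nonneg.2 hlog)] at h4
      exact h4
    have h6 : ‖G - GM‖ ≤ 2 * E := by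
      refine (norm_sub_le _ _).trans ?_
      have h7 := hE (M + 1 + j) (by omega)
      have h8 := hE M (by omega)
      linarith
    have hE0 : 0 ≤ E := (norm_nonneg _).trans (hE M (by omega))
    refine (norm_add_le _ _).trans ?_
    rw [norm_mul]
    have h9 : ‖G - GM‖ * ‖w - w'‖ ≤ (2 * E) * (7 * (|t| *
        (Real.log (((M + 1 + (j + 1) : ℕ) : ℝ) - a0) -
        Real.log (((M + 1 + j : ℕ) : ℝ) - a0)))) :=
      mul_le_mul h6 h3 (norm_nonneg _) (by linarith)
    linarith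

private theorem SwH_pow_le (n : ℕ) {e0 : ℝ} (he : 0 < e0) : ∀ᶠ N : ℕ in Filter.atTop,
    Real.log N ^ n ≤ 1 / 4 * (N : ℝ) ^ e0 := by
  have h1 := (isLittleO_log_rpow_rpow_atTop (n : ℝ) he).bound (c := 1 / 4) (by norm_num)
  have h2 := tendsto_natCast_atTop_atTop (R := ℝ) |>.eventually h1
  filter_upwards [h2, Filter.eventually_ge_atTop 1] with N hN hN1
  have h3 := (le_abs_self _).trans hN
  rw [Real.rpow_natCast] at h3
  rw [Real.norm_eq_abs, abs_of_nonneg (Real.rpow_nonneg (Nat.cast_nonneg N) _)] at h3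
  exact h3

/-- the twisted sums of `hR R` up to `y ≤ K2` -/
private theorem SwH_core (B k : ℕ) (e0 : ℝ) (he : 0 < e0) : ∃ N0 : ℕ, ∀ N : ℕ, N0 ≤ N →
    ∀ R c b K2 : ℕ, (R : ℝ) ≤ Real.log N ^ B → 1 ≤ c → c ≤ R → Nat.Coprime b c →
      (N : ℝ) ^ e0 ≤ K2 → K2 ≤ N → ∀ y : ℕ, y ≤ K2 →
      ‖∑ n ∈ Icc 1 y, ((hR R n : ℝ) : ℂ) * ee ((n : ℝ) * b / c)‖ ≤ K2 / Real.log N ^ k := by
  obtain ⟨x1, hx1⟩ := psi_ap (B + 1) (k + B + 1)
  have hx1' : ∀ᶠ N : ℕ in Filter.atTop, (x1 : ℝ) ≤ (N : ℝ) ^ e0 :=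
    ((tendsto_rpow_atTop he).comp (tendsto_natCast_atTop_atTop (R := ℝ))).eventually_ge_atTop _
  have hlog : ∀ K : ℝ, ∀ᶠ N : ℕ in Filter.atTop, K ≤ Real.log N := fun K =>
    (Real.tendsto_log_atTop.comp (tendsto_natCast_atTop_atTop (R := ℝ))).eventually_ge_atTop K
  obtain ⟨N0, hN0⟩ := Filter.eventually_atTop.1 ((hx1'.and ((hlog 1).and
    (hlog (1 / e0 ^ (B + 1))))).and ((hlog (4 / e0 ^ (k + B + 1))).and
      ((SwH_pow_le (k + B + 1) he).and (SwH_pow_le (k + 4 * B) he))))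
  refine ⟨N0, fun N hN R c b K2 hRB hc hcR hb hK1 hK2 y hy => ?_⟩
  obtain ⟨⟨g1, g2, g3⟩, g4, g5, g6⟩ := hN0 N hN
  obtain ⟨L, hLdef⟩ : ∃ L : ℝ, L = Real.log N := ⟨_, rfl⟩
  rw [← hLdef] at g2 g3 g4 g5 g6 hRB ⊢
  have hL : 0 < L := by linarith
  have hK0 : (0 : ℝ) ≤ K2 := Nat.cast_nonneg K2
  rcases Nat.eq_zero_or_pos y with hy0 | hy0
  · subst hy0
    simp only [Finset.Icc_eq_empty_of_lt (show 0 < 1 by norm_num), Finset.sum_empty, norm_zero]
    positivity
  have hNpos : (0 : ℝ) < N := by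
    rcases Nat.eq_zero_or_pos N with h | h
    · rw [h] at hLdef
      simp at hLdef
      linarith
    · exact_mod_cast h
  have hK2pos : (0 : ℝ) < K2 := lt_of_lt_of_le (Real.rpow_pos_of_pos hNpos _) hK1
  have hlogK : e0 * L ≤ Real.log K2 := by
    have := Real.log_le_log (Real.rpow_pos_of_pos hNpos e0) hK1
    rw [Real.log_rpow hNpos, ← hLdef] at this
    exact this
  have heL : 0 < e0 * L := mul_pos he hL
  have hK2x : x1 ≤ K2 := by exact_mod_cast g1.trans hK1
  have hcB : (c : ℝ) ≤ L ^ B := le_trans (by exact_mod_cast hcR) hRB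
  have hcK : (c : ℝ) ≤ Real.log K2 ^ (B + 1) := by
    calc (c : ℝ) ≤ L ^ B := hcB
      _ ≤ (e0 * L) ^ (B + 1) := by
          rw [div_le_iff₀ (by positivity)] at g3
          rw [mul_pow, pow_succ L B]
          have h5 : 0 < L ^ B := by positivity
          nlinarith
      _ ≤ Real.log K2 ^ (B + 1) := pow_le_pow_left₀ heL.le hlogK _
  have hE : ∀ a : ℕ, Nat.Coprime a c →
      |psiA y c a - y / (c.totient : ℝ)| ≤ K2 / (e0 * L) ^ (k + B + 1) := by
    intro a ha
    refine (hx1 K2 hK2x y hy c hc hcK a ha).trans ?_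
    exact div_le_div_of_nonneg_left hK0 (by positivity) (pow_le_pow_left₀ heL.le hlogK _)
  have hA := SwH_main y c b hc hy0 hb _ hE
  have hB := lamR_exp R y c b hc hcR hb
  have hsum : ∑ n ∈ Icc 1 y, ((hR R n : ℝ) : ℂ) * ee ((n : ℝ) * b / c) =
      ((∑ n ∈ Icc 1 y, ((Lam n : ℝ) : ℂ) * ee ((n : ℝ) * b / c))
      - (((ArithmeticFunction.moebius c : ℝ) / (c.totient : ℝ) * y : ℝ) : ℂ)) -
      ((∑ n ∈ Icc 1 y, ((lamR R n : ℝ) : ℂ) * ee ((n : ℝ) * b / c))
      - (((ArithmeticFunction.moebius c : ℝ) / (c.totient : ℝ) * y : ℝ) : ℂ)) := by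
    rw [sub_sub_sub_cancel_right, ← Finset.sum_sub_distrib]
    refine Finset.sum_congr rfl fun n _ => ?_
    unfold Pool.Agent.H91.EHA.hR
    push_cast
    ring
  rw [hsum]
  refine (norm_sub_le _ _).trans ((add_le_add hA hB).trans ?_)
  have hc0 : (0 : ℝ) ≤ c := Nat.cast_nonneg c
  have hLk : 0 < L ^ k := by positivity
  have t1 : (c : ℝ) * (K2 / (e0 * L) ^ (k + B + 1)) ≤ 1 / 4 * (K2 / L ^ k) := by
    calc (c : ℝ) * (K2 / (e0 * L) ^ (k + B + 1)) ≤ L ^ B * (K2 / (e0 * L) ^ (k + B + 1)) :=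
          mul_le_mul_of_nonneg_right hcB (by positivity)
      _ = K2 / L ^ k * (1 / (e0 ^ (k + B + 1) * L)) := by
          rw [mul_pow]
          field_simp
          ring
      _ ≤ K2 / L ^ k * (1 / 4) := by
          refine mul_le_mul_of_nonneg_left ?_ (by positivity)
          rw [div_le_iff₀ (by positivity)] at g4
          exact one_div_le_one_div_of_le (by norm_num) (by linarith)
      _ = 1 / 4 * (K2 / L ^ k) := by ring
  have t2 : (c : ℝ) * Real.log y ≤ 1 / 4 * (K2 / L ^ k) := by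
    have hly : Real.log y ≤ L := by
      rw [hLdef]
      exact Real.log_le_log (by exact_mod_cast hy0) (by exact_mod_cast hy.trans hK2)
    calc (c : ℝ) * Real.log y ≤ L ^ B * L := by
          apply mul_le_mul hcB hly (Real.log_natCast_nonneg y) (by positivity)
      _ = L ^ (k + B + 1) / L ^ k := by
          field_simp
          ring
      _ ≤ (1 / 4 * (K2 : ℝ)) / L ^ k := by
          apply div_le_div_of_nonneg_right _ hLk.le
          linarith
      _ = 1 / 4 * (K2 / L ^ k) := by ring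
  have t3 : (R : ℝ) ^ 4 ≤ 1 / 4 * (K2 / L ^ k) := by
    calc (R : ℝ) ^ 4 ≤ (L ^ B) ^ 4 := pow_le_pow_left₀ (Nat.cast_nonneg R) hRB 4
      _ = L ^ (k + 4 * B) / L ^ k := by
          rw [pow_add, ← pow_mul, mul_comm B 4]
          field_simp
      _ ≤ (1 / 4 * (K2 : ℝ)) / L ^ k := by
          apply div_le_div_of_nonneg_right _ hLk.le
          linarith
      _ = 1 / 4 * (K2 / L ^ k) := by ring
  have t4 : 0 ≤ (K2 : ℝ) / L ^ k := by positivity
  linarith

theorem sw_holds : SWp := by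
  intro B m k e0 he
  obtain ⟨N1, hN1⟩ := SwH_core B (k + m + 3) e0 he
  have hlog : ∀ᶠ N : ℕ in Filter.atTop, (4 : ℝ) ≤ Real.log N :=
    (Real.tendsto_log_atTop.comp (tendsto_natCast_atTop_atTop (R := ℝ))).eventually_ge_atTop 4
  obtain ⟨N0, hN0⟩ := Filter.eventually_atTop.1 ((Filter.eventually_ge_atTop N1).and hlog)
  refine ⟨N0, fun N hN R c b K1 K2 t hRB hc hcR hb hK hK2 ht => ?_⟩
  obtain ⟨h1, h4⟩ := hN0 N hN
  have hcore := hN1 N h1 R c b K2 hRB hc hcR hb hK hK2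
  set L := Real.log N with hL
  have hLpos : 0 < L := by linarith
  have hK0 : (0 : ℝ) ≤ K2 := Nat.cast_nonneg K2
  rcases Nat.lt_or_ge K1 K2 with hKK | hKK
  swap
  · rw [Ioc_eq_empty_of_le hKK, sum_empty, norm_zero]
    positivity
  obtain ⟨j, hj⟩ : ∃ j, K2 = K1 + 1 + j := ⟨K2 - (K1 + 1), by omega⟩
  set E : ℝ := K2 / L ^ (k + m + 3) with hE
  have hE0 : 0 ≤ E := by positivity
  set u : ℕ → ℂ := fun n => ((hR R n : ℝ) : ℂ) * ee ((n : ℝ) * b / c) with hu
  have hG : ∀ v, v ≤ K2 → ‖∑ n ∈ Icc 1 v, u n‖ ≤ E := hcore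
  -- the conjugate
  have hconj : ∑ n ∈ Ioc K1 K2, ((hR R n : ℝ) : ℂ) * ee (-((n : ℝ) * b / c)) *
      ee (-(t * Real.log n)) =
      (starRingEnd ℂ) (∑ n ∈ Ioc K1 K2, u n * ee (t * Real.log ((n : ℝ) - (0 : ℕ)))) := by
    rw [map_sum]
    refine Finset.sum_congr rfl fun n _ => ?_
    rw [hu]
    simp only [map_mul, Complex.conj_ofReal, Pool.Agent.H91.PK.LSa_conj_ee, Nat.cast_zero,
      sub_zero]
  rw [hconj, RCLike.norm_conj]
  have hA := SwH_abel u 0 K1 (Nat.zero_le _) t E K2 hG j (by omega)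
  rw [← hj] at hA
  have hlogy : Real.log ((K2 : ℝ) - (0 : ℕ)) - Real.log (((K1 + 1 : ℕ) : ℝ) - (0 : ℕ)) ≤ L := by
    rw [Nat.cast_zero, sub_zero, sub_zero]
    have h5 : 0 ≤ Real.log ((K1 + 1 : ℕ) : ℝ) := Real.log_natCast_nonneg _
    have h6 : Real.log (K2 : ℝ) ≤ L :=
      Real.log_le_log (by exact_mod_cast (by omega : 0 < K2)) (by exact_mod_cast hK2)
    linarith
  have hB : ‖((∑ n ∈ Icc 1 K2, u n) - ∑ n ∈ Icc 1 K1, u n) *
      ee (t * Real.log ((K2 : ℝ) - (0 : ℕ)))‖ ≤ 2 * E := by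
    rw [norm_mul, Pool.Agent.H91.PK.LSa_norm_ee, mul_one]
    refine (norm_sub_le _ _).trans ?_
    have h7 := hG K2 le_rfl
    have h8 := hG K1 (by omega)
    linarith
  have hC : ‖∑ n ∈ Ioc K1 K2, u n * ee (t * Real.log ((n : ℝ) - (0 : ℕ)))‖ ≤
      14 * E * |t| * L + 2 * E := by
    have h9 := norm_sub_norm_le (∑ n ∈ Ioc K1 K2, u n * ee (t * Real.log ((n : ℝ) - (0 : ℕ))))
      (((∑ n ∈ Icc 1 K2, u n) - ∑ n ∈ Icc 1 K1, u n) * ee (t * Real.log ((K2 : ℝ) - (0 : ℕ))))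
    have h10 : 14 * E * |t| * (Real.log ((K2 : ℝ) - (0 : ℕ)) -
        Real.log (((K1 + 1 : ℕ) : ℝ) - (0 : ℕ))) ≤
        14 * E * |t| * L := mul_le_mul_of_nonneg_left hlogy (by positivity)
    linarith
  refine hC.trans ?_
  have hLm : (1 : ℝ) ≤ L ^ m := one_le_pow₀ (by linarith)
  have h11 : 14 * E * |t| * L + 2 * E ≤ 16 * E * L ^ (m + 1) := by
    have h12 : 14 * E * |t| * L ≤ 14 * E * L ^ m * L := by
      apply mul_le_mul_of_nonneg_right _ hLpos.le
      exact mul_le_mul_of_nonneg_left ht (by positivity)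
    have h13 : 2 * E ≤ 2 * E * L ^ (m + 1) := by
      have : (1 : ℝ) ≤ L ^ (m + 1) := one_le_pow₀ (by linarith)
      nlinarith
    calc 14 * E * |t| * L + 2 * E ≤ 14 * E * L ^ m * L + 2 * E * L ^ (m + 1) := by linarith
      _ = 16 * E * L ^ (m + 1) := by ring
  refine h11.trans ?_
  rw [hE]
  have h14 : 16 * ((K2 : ℝ) / L ^ (k + m + 3)) * L ^ (m + 1) = (K2 / L ^ k) * (16 / L ^ 2) := by
    rw [show k + m + 3 = k + 2 + (m + 1) by ring, pow_add, pow_add]
    field_simp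
  rw [h14]
  have h15 : (16 : ℝ) / L ^ 2 ≤ 1 := by
    rw [div_le_one (by positivity)]
    nlinarith
  calc (K2 : ℝ) / L ^ k * (16 / L ^ 2) ≤ K2 / L ^ k * 1 :=
        mul_le_mul_of_nonneg_left h15 (by positivity)
    _ = K2 / L ^ k := mul_one _

end Pool.Agent.H53.MID

end
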