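import Pool.Agent.H43.PM.M06
import Pool.Agent.H43.PM.M24

/-! The parts of this file: H35.W.KSap, H80.LV.ErrB, H80.LV.BoxB, H80.LV.TyI. -/

section

/-!
# W KSap: sums of `(n + β)^{it}` twisted by a periodic function

Proof.  Let `δ1, C` be the constants of `ks1 (kap / 2)`.  Split the sum over `n ∈ (a, b]` into the classes
`n = l + d n'`, `0 ≤ l < d`; `ψ(n) = ψ(l)` (periodicity), `log(n + β) = log d + log(n' + (l+β)/d)` for `n ≥ 1`,
so the class contributes at most `|∑_{a' < n' ≤ b'} ee(t log(n' + (l+β)/d))|` with `(l+β)/d ∈ [0,1]`,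
`b' ≤ K/d`.  (For `n' = 0`, `l > 0` treat the term `n = l` separately: one term of size `≤ 1`, or let the interval
in `ks1` start at `a' + 1` and add the term.)  Apply `ks1` with `K' = K / d + 1` (natural division), `K' ≥ x^{kap/2}`
as `d^4 ≤ K`.  The sum over `l` is `≤ d (2 + C K' (1/|t| + x^{-δ1})) ≤ 4 C K (1/|t| + x^{-δ})` with
`δ = min δ1 (kap/4)`-like (`d ≤ K^{1/4}`, so `d ≤ K · K^{-3/4}`).  For large `x`: `4 C ≤ log x`.
-/

set_option autoImplicit false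

namespace Pool.Agent.H35.W

open Finset
open Pool.Agent.H91.PK (ee)

private lemma ksap_ee_norm (r : ℝ) : ‖ee r‖ = 1 := by
  have : (2 * Real.pi * r * Complex.I : ℂ) = ((2 * Real.pi * r : ℝ) : ℂ) * Complex.I := by
    push_cast; ring
  rw [ee, this, Complex.norm_exp_ofReal_mul_I]

private lemma ksap_ee_add (r s : ℝ) : ee (r + s) = ee r * ee s := by
  rw [ee, ee, ee, ← Complex.exp_add]
  congr 1
  push_cast
  ring

private lemma ksap_per (ψ : ℕ → ℂ) (d : ℕ) (h : ∀ n, ψ (n + d) = ψ n) (l k : ℕ) :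
    ψ (l + d * k) = ψ l := by
  induction k with
  | zero => simp
  | succ k ih => rw [mul_add, mul_one, ← add_assoc, h, ih]

/-- one residue class -/
private lemma ksap_class (f : ℕ → ℂ) (hf : ∀ n, ‖f n‖ ≤ 1) (B : ℝ) (K' a b d l : ℕ) (hd : 1 ≤ d)
    (hb : b / d ≤ K') (hB : ∀ a' b' : ℕ, b' ≤ K' → ‖∑ n ∈ Ioc a' b', f n‖ ≤ B) :
    ‖∑ k ∈ (range (b + 1)).filter (fun k => a < l + d * k ∧ l + d * k ≤ b), f k‖ ≤ 1 + B := by
  set T := (range (b + 1)).filter (fun k => a < l + d * k ∧ l + d * k ≤ b) with hT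
  have e : T.erase 0 = Ioc ((a - l) / d) ((b - l) / d) := by
    ext k
    simp only [hT, mem_erase, mem_filter, mem_range, mem_Ioc]
    rw [Nat.div_lt_iff_lt_mul (by omega), Nat.le_div_iff_mul_le (by omega)]
    constructor
    · rintro ⟨h0, h1, h2, h3⟩
      rw [mul_comm d k] at h2 h3
      have : 1 ≤ k * d := Nat.mul_pos (by omega) (by omega)
      omega
    · rintro ⟨h1, h2⟩
      have hk : k ≠ 0 := by rintro rfl; simp at h1
      have h3 : k ≤ k * d := Nat.le_mul_of_pos_right k (by omega)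
      have : 1 ≤ k * d := Nat.mul_pos (by omega) (by omega)
      rw [mul_comm d k]
      omega
  have h1 : ‖∑ k ∈ T.erase 0, f k‖ ≤ B := by
    rw [e]
    exact hB _ _ ((Nat.div_le_div_right (Nat.sub_le _ _)).trans hb)
  by_cases h0 : 0 ∈ T
  · rw [← add_sum_erase _ _ h0]
    exact (norm_add_le _ _).trans (add_le_add (hf 0) h1)
  · rw [erase_eq_of_notMem h0] at h1
    linarith

private lemma ksap_real (K d : ℕ) (y : ℝ) (hy : 4 ≤ y) (hK : y ^ 2 ≤ K) (hd : 1 ≤ d)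
    (hdK : d ^ 4 ≤ K) : y ≤ ((K / d : ℕ) : ℝ) := by
  by_contra hlt
  push Not at hlt
  have hd0 : (1 : ℝ) ≤ d := by exact_mod_cast hd
  have h1 : (K : ℝ) < d * (y + 1) := by
    have h2 : K < d * (K / d + 1) := Nat.lt_mul_div_succ K (by omega)
    have h3 : (K : ℝ) < (d : ℝ) * (((K / d : ℕ) : ℝ) + 1) := by exact_mod_cast h2
    refine h3.trans_le ?_
    gcongr
  have hKp : (16 : ℝ) ≤ K := by nlinarith
  have h4 : ((d : ℝ)) ^ 4 ≤ K := by exact_mod_cast hdK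
  have h5 : (K : ℝ) ^ 4 < (d * (y + 1)) ^ 4 := pow_lt_pow_left₀ h1 (by linarith) (by norm_num)
  have h6 : ((d : ℝ) * (y + 1)) ^ 4 ≤ K * (y + 1) ^ 4 := by
    rw [mul_pow]; gcongr
  have h7 : (y + 1) ^ 4 ≤ (2 * y) ^ 4 := pow_le_pow_left₀ (by linarith) (by linarith) 4
  have h8 : (2 * y) ^ 4 ≤ 16 * (K : ℝ) ^ 2 := by
    have : y ^ 4 ≤ (K : ℝ) ^ 2 := by
      calc y ^ 4 = (y ^ 2) ^ 2 := by ring
        _ ≤ (K : ℝ) ^ 2 := pow_le_pow_left₀ (by positivity) hK 2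
    calc (2 * y) ^ 4 = 16 * y ^ 4 := by ring
      _ ≤ 16 * (K : ℝ) ^ 2 := by linarith
  have h9 : (K : ℝ) ^ 4 < K * (16 * (K : ℝ) ^ 2) :=
    h5.trans_le (h6.trans (mul_le_mul_of_nonneg_left (h7.trans h8) (by linarith)))
  have h10 : (K : ℝ) * (16 * (K : ℝ) ^ 2) ≤ (K : ℝ) ^ 4 := by
    have : (K : ℝ) ^ 4 = K * (K * (K : ℝ) ^ 2) := by ring
    rw [this]
    gcongr
  linarith

theorem ksap (kap : ℝ) (hkap : 0 < kap) : ∃ δ : ℝ, 0 < δ ∧ δ ≤ 1 ∧ ∃ x0 : ℕ,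
    ∀ x : ℕ, x0 ≤ x → ∀ (K d a b : ℕ) (ψ : ℕ → ℂ) (β t : ℝ), (x : ℝ) ^ kap ≤ K → K ≤ x → 1 ≤ d →
      d ^ 4 ≤ K → (∀ n, ψ (n + d) = ψ n) → (∀ n, ‖ψ n‖ ≤ 1) → b ≤ K → 0 ≤ β → β ≤ 1 →
      1 ≤ |t| → |t| ≤ (x : ℝ) ^ (3 : ℕ) →
      ‖∑ n ∈ Ioc a b, ψ n * ee (t * Real.log (n + β))‖
        ≤ K * Real.log x * (1 / |t| + (x : ℝ) ^ (-δ)) := by
  obtain ⟨δ1, C, hδ1, hδ1', hC, x1, hx1⟩ := ks1 (kap / 2) (by linarith)
  have ev1 : ∀ᶠ x : ℕ in Filter.atTop, (4 : ℝ) ≤ (x : ℝ) ^ (kap / 2) :=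
    ((tendsto_rpow_atTop (by linarith : 0 < kap / 2)).comp
      tendsto_natCast_atTop_atTop).eventually_ge_atTop 4
  have ev2 : ∀ᶠ x : ℕ in Filter.atTop, C + 1 ≤ Real.log x :=
    (Real.tendsto_log_atTop.comp tendsto_natCast_atTop_atTop).eventually_ge_atTop (C + 1)
  obtain ⟨x2, hx2⟩ := Filter.eventually_atTop.1 ev1
  obtain ⟨x3, hx3⟩ := Filter.eventually_atTop.1 ev2
  refine ⟨min δ1 (kap / 2), lt_min hδ1 (by linarith), (min_le_left _ _).trans hδ1',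
    max (max x1 x2) (max x3 1), ?_⟩
  intro x hx K d a b ψ β t hK hKx hd hdK hper hψ hb hβ0 hβ1 ht1 ht2
  have hxa : x1 ≤ x := (le_max_left _ _).trans ((le_max_left _ _).trans hx)
  have hxb : x2 ≤ x := (le_max_right _ _).trans ((le_max_left _ _).trans hx)
  have hxc : x3 ≤ x := (le_max_left _ _).trans ((le_max_right _ _).trans hx)
  have hxd : 1 ≤ x := (le_max_right _ _).trans ((le_max_right _ _).trans hx)
  have hxr : (1 : ℝ) ≤ x := by exact_mod_cast hxd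
  have hdr : (1 : ℝ) ≤ d := by exact_mod_cast hd
  have hd0 : (d : ℝ) ≠ 0 := by positivity
  have hlog := hx3 x hxc
  have hy := hx2 x hxb
  set y : ℝ := (x : ℝ) ^ (kap / 2) with hydef
  have hyK : y ^ 2 ≤ K := by
    refine le_trans (le_of_eq ?_) hK
    rw [hydef, ← Real.rpow_natCast, ← Real.rpow_mul (by linarith)]
    congr 1
    push_cast
    ring
  have hK' : y ≤ ((K / d : ℕ) : ℝ) := ksap_real K d y hy hyK hd hdK
  have hdKK : (d : ℝ) * ((K / d : ℕ) : ℝ) ≤ K := by exact_mod_cast Nat.mul_div_le K d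
  have hK'x : K / d ≤ x := (Nat.div_le_self K d).trans hKx
  set B : ℝ := C * ((K / d : ℕ) : ℝ) * (1 / |t| + (x : ℝ) ^ (-δ1)) with hBdef
  -- the sum over a class
  have hcl : ∀ l ∈ range d, ‖∑ n ∈ (Ioc a b).filter (fun n => n % d = l),
      ψ n * ee (t * Real.log (n + β))‖ ≤ 1 + B := by
    intro l hl
    have hl1 := mem_range.1 hl
    have e1 : (Ioc a b).filter (fun n => n % d = l)
        = ((range (b + 1)).filter (fun k => a < l + d * k ∧ l + d * k ≤ b)).image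
          (fun k => l + d * k) := by
      ext n
      simp only [mem_filter, mem_Ioc, mem_image, mem_range]
      constructor
      · rintro ⟨⟨h1, h2⟩, h3⟩
        have h4 : n % d + d * (n / d) = n := Nat.mod_add_div n d
        have h5 : n / d ≤ n := Nat.div_le_self n d
        refine ⟨n / d, ⟨by omega, ?_, ?_⟩, ?_⟩ <;> rw [← h3, h4] <;> assumption
      · rintro ⟨k, ⟨h1, h2, h3⟩, rfl⟩
        exact ⟨⟨h2, h3⟩, by rw [Nat.add_mul_mod_self_left, Nat.mod_eq_of_lt hl1]⟩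
    have hinj : Set.InjOn (fun k => l + d * k)
        ((range (b + 1)).filter (fun k => a < l + d * k ∧ l + d * k ≤ b) : Finset ℕ) := by
      intro u _ v _ huv
      have : d * u = d * v := by simpa using huv
      exact Nat.eq_of_mul_eq_mul_left (by omega) this
    rw [e1, sum_image hinj]
    have hβl0 : 0 ≤ ((l : ℝ) + β) / d := by positivity
    have hβl1 : ((l : ℝ) + β) / d ≤ 1 := by
      rw [div_le_one (by linarith)]
      have : ((l + 1 : ℕ) : ℝ) ≤ d := by exact_mod_cast hl1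
      push_cast at this
      linarith
    have e2 : ∑ k ∈ (range (b + 1)).filter (fun k => a < l + d * k ∧ l + d * k ≤ b),
        ψ (l + d * k) * ee (t * Real.log (((l + d * k : ℕ) : ℝ) + β))
        = (ψ l * ee (t * Real.log d)) *
          ∑ k ∈ (range (b + 1)).filter (fun k => a < l + d * k ∧ l + d * k ≤ b),
            ee (t * Real.log ((k : ℝ) + ((l : ℝ) + β) / d)) := by
      rw [mul_sum]
      apply sum_congr rfl
      intro k hk
      have hk1 := (mem_filter.1 hk).2.1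
      have hpos : (0 : ℝ) < l + d * k := by
        have : 0 < l + d * k := by omega
        exact_mod_cast this
      have h1 : (((l + d * k : ℕ) : ℝ) + β) = d * ((k : ℝ) + ((l : ℝ) + β) / d) := by
        push_cast
        field_simp
        ring
      have h2 : 0 < (k : ℝ) + ((l : ℝ) + β) / d := by
        have h3 : (k : ℝ) + ((l : ℝ) + β) / d = (l + d * k + β) / d := by
          field_simp
          ring
        rw [h3]
        apply div_pos _ (by linarith)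
        linarith
      rw [ksap_per ψ d hper, h1, Real.log_mul hd0 h2.ne', mul_add, ksap_ee_add]
      ring
    rw [e2, norm_mul, norm_mul, ksap_ee_norm, mul_one]
    have h3 := ksap_class (fun k => ee (t * Real.log ((k : ℝ) + ((l : ℝ) + β) / d)))
      (fun n => (ksap_ee_norm _).le) B (K / d) a b d l hd (Nat.div_le_div_right hb)
      (fun a' b' hb' => hx1 x hxa (K / d) a' b' (((l : ℝ) + β) / d) t hK' hK'x hb' hβl0 hβl1
        ht1 ht2)
    calc ‖ψ l‖ * _ ≤ 1 * (1 + B) := mul_le_mul (hψ l) h3 (norm_nonneg _) zero_le_one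
      _ = 1 + B := one_mul _
  have e3 : ∑ n ∈ Ioc a b, ψ n * ee (t * Real.log (n + β))
      = ∑ l ∈ range d, ∑ n ∈ (Ioc a b).filter (fun n => n % d = l),
        ψ n * ee (t * Real.log (n + β)) := by
    rw [sum_fiberwise_of_maps_to]
    intro n _
    exact mem_range.2 (Nat.mod_lt n (by omega))
  rw [e3]
  refine (norm_sum_le _ _).trans ((sum_le_sum hcl).trans ?_)
  rw [sum_const, card_range, nsmul_eq_mul]
  have htp : 0 < |t| := by linarith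
  have hmin1 : (x : ℝ) ^ (-δ1) ≤ (x : ℝ) ^ (-(min δ1 (kap / 2))) :=
    Real.rpow_le_rpow_of_exponent_le hxr (neg_le_neg (min_le_left _ _))
  have hmin2 : (x : ℝ) ^ (-(kap / 2)) ≤ (x : ℝ) ^ (-(min δ1 (kap / 2))) :=
    Real.rpow_le_rpow_of_exponent_le hxr (neg_le_neg (min_le_right _ _))
  set Z : ℝ := (x : ℝ) ^ (-(min δ1 (kap / 2))) with hZ
  have hZ0 : 0 ≤ Z := by positivity
  have hdZ : (d : ℝ) ≤ K * Z := by
    have h1 : (d : ℝ) * y ≤ K := (mul_le_mul_of_nonneg_left hK' (by linarith)).trans hdKK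
    have h2 : (x : ℝ) ^ (-(kap / 2)) * y = 1 := by
      rw [hydef, ← Real.rpow_add (by linarith)]; simp
    calc (d : ℝ) = (d * y) * (x : ℝ) ^ (-(kap / 2)) := by
          rw [mul_assoc, mul_comm y, h2, mul_one]
      _ ≤ K * Z := by
          apply mul_le_mul h1 hmin2 (by positivity) (Nat.cast_nonneg _)
  have hB2 : (d : ℝ) * B ≤ C * K * (1 / |t| + Z) := by
    calc (d : ℝ) * B = C * (d * ((K / d : ℕ) : ℝ)) * (1 / |t| + (x : ℝ) ^ (-δ1)) := by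
          rw [hBdef]; ring
      _ ≤ C * K * (1 / |t| + Z) := by
          gcongr
  have hKn : (0 : ℝ) ≤ K := Nat.cast_nonneg _
  have htn : 0 ≤ 1 / |t| := by positivity
  calc (d : ℝ) * (1 + B) = d + d * B := by ring
    _ ≤ K * Z + C * K * (1 / |t| + Z) := add_le_add hdZ hB2
    _ ≤ (C + 1) * (K * (1 / |t| + Z)) := by nlinarith [mul_nonneg hKn htn]
    _ ≤ Real.log x * (K * (1 / |t| + Z)) := by
        apply mul_le_mul_of_nonneg_right hlog (by positivity)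
    _ = K * Real.log x * (1 / |t| + Z) := by ring

end Pool.Agent.H35.W

end

section

/-!
# LV ErrB: the boundary terms of the type II sum

Proof.  `gE α t k = ee(k α) ee(t log k)`; apply `hm (1/2)` with `K = y`, `a_k = e_k ee(k α)` (`η` is the one of `hm (1/2)`):
`∫_B ≤ y L^2 ∑_{k ≤ y} e_k^2`.  `|e_k| ≤ ∑_{m ∣ k} Λ(m) |cV U (k/m)| ≤ τ(k) ∑_{m ∣ k} Λ(m) = τ(k) log k ≤ τ(k) L`
(`|cV U n| ≤ τ(n) ≤ τ(k)` for `n ∣ k`: `cV` is a sum of `|μ| ≤ 1` over a subset of the divisors; `ArithmeticFunction.vonMangoldt_sum`).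
With `S = Ioc (y - y/q - 1) y ∩ Icc 1 y`, `|S| ≤ y/q + 1 ≤ 2 y/q` (`q ≤ y`): `∑ e_k^2 ≤ L^2 ∑_S τ^2 ≤ L^2 (|S| y (1+L)^16)^{1/2}`
(`tau2_sparse`) `≤ L^2 · y (2/q)^{1/2} (1+L)^8`.  Total `≤ 1.5 y^2 L^4 (1+L)^8 / q^{1/2} ≤ x^2 L^{14} / q^{1/2}`.
-/

set_option autoImplicit false

namespace Pool.Agent.H80.LV

open Finset MeasureTheory
open Pool.Agent.H91.PK (ee cV)
open Pool.Agent.H91.EHA (Lam)

private theorem ErrB_cV (U n : ℕ) : |cV U n| ≤ (n.divisors.card : ℝ) := by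
  unfold cV
  refine (abs_sum_le_sum_abs _ _).trans ?_
  have h1 : ∀ d ∈ n.divisors.filter (fun d => U < d), |(ArithmeticFunction.moebius d : ℝ)| ≤ 1 := by
    intro d _
    have := ArithmeticFunction.abs_moebius_le_one (n := d)
    exact_mod_cast this
  refine (sum_le_sum h1).trans ?_
  rw [sum_const, nsmul_eq_mul, mul_one]
  exact_mod_cast card_filter_le _ _

private theorem ErrB_tau_le {n k : ℕ} (hk : k ≠ 0) (h : n ∣ k) :
    (n.divisors.card : ℝ) ≤ (k.divisors.card : ℝ) := by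
  exact_mod_cast card_le_card (Nat.divisors_subset_of_dvd hk h)

private theorem ErrB_e (U k : ℕ) (hk : k ≠ 0) :
    ∑ m ∈ k.divisors, |Lam m| * |cV U (k / m)| ≤ k.divisors.card * Real.log k := by
  have h1 : ∀ m ∈ k.divisors, |Lam m| * |cV U (k / m)| ≤ Lam m * (k.divisors.card : ℝ) := by
    intro m hm
    have h0 : 0 ≤ Lam m := ArithmeticFunction.vonMangoldt_nonneg
    rw [abs_of_nonneg h0]
    refine mul_le_mul_of_nonneg_left ?_ h0
    exact (ErrB_cV U (k / m)).trans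
      (ErrB_tau_le hk (Nat.div_dvd_of_dvd (Nat.dvd_of_mem_divisors hm)))
  refine (sum_le_sum h1).trans ?_
  rw [← sum_mul]
  have h2 : ∑ m ∈ k.divisors, Lam m = Real.log k := ArithmeticFunction.vonMangoldt_sum
  rw [h2, mul_comm]

private theorem ErrB_num {L : ℝ} (hL : 4 ≤ L) : 2 * (1 + L) ^ 8 ≤ L ^ 10 := by
  have h1 : (1 + L) ≤ 5 / 4 * L := by linarith
  have h2 : (1 + L) ^ 8 ≤ (5 / 4 * L) ^ 8 := by
    apply pow_le_pow_left₀ (by linarith) h1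
  have h3 : 2 * (5 / 4 : ℝ) ^ 8 ≤ L ^ 2 := by
    have : (16 : ℝ) ≤ L ^ 2 := by nlinarith
    refine le_trans ?_ this
    norm_num
  calc 2 * (1 + L) ^ 8 ≤ 2 * (5 / 4 * L) ^ 8 := by linarith
    _ = (2 * (5 / 4 : ℝ) ^ 8) * L ^ 8 := by ring
    _ ≤ L ^ 2 * L ^ 8 := by
        apply mul_le_mul_of_nonneg_right h3
        positivity
    _ = L ^ 10 := by ring

private theorem ErrB_sq (y q : ℕ) (L : ℝ) (hq : 1 ≤ q) (hqy : q ≤ y) (hL : Real.log y ≤ L)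
    (S : Finset ℕ) (hS : S ⊆ Icc 1 y) (hSc : S.card ≤ y / q + 1) :
    ∑ k ∈ S, (k.divisors.card : ℝ) ^ 2 ≤ 2 * y * (1 + L) ^ 8 / Real.sqrt q := by
  have hy1 : 1 ≤ y := hq.trans hqy
  have hly : 0 ≤ Real.log y := Real.log_nonneg (by exact_mod_cast hy1)
  have hL0 : 0 ≤ L := hly.trans hL
  have hq0 : (0 : ℝ) < q := by exact_mod_cast hq
  have hsq : 0 < Real.sqrt q := Real.sqrt_pos.2 hq0
  have h1 := tau2_sparse y S hS
  have h2 : (S.card : ℝ) ≤ 2 * y / q := by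
    have h3 : (S.card : ℝ) ≤ ((y / q : ℕ) : ℝ) + 1 := by exact_mod_cast hSc
    have h4 : ((y / q : ℕ) : ℝ) ≤ (y : ℝ) / q := Nat.cast_div_le
    have h5 : (1 : ℝ) ≤ (y : ℝ) / q := by
      rw [le_div_iff₀ hq0, one_mul]
      exact_mod_cast hqy
    have h6 : 2 * (y : ℝ) / q = (y : ℝ) / q + (y : ℝ) / q := by ring
    linarith
  have h3 : (1 + Real.log y) ^ 16 ≤ (1 + L) ^ 16 := by
    apply pow_le_pow_left₀ (by linarith)
    linarith
  have h4 : (∑ k ∈ S, (k.divisors.card : ℝ) ^ 2) ^ 2 ≤ (2 * y * (1 + L) ^ 8 / Real.sqrt q) ^ 2 := by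
    refine h1.trans ?_
    rw [div_pow, Real.sq_sqrt hq0.le]
    calc (S.card : ℝ) * (y * (1 + Real.log y) ^ 16) ≤ (2 * y / q) * (y * (1 + L) ^ 16) := by
          apply mul_le_mul h2 _ (by positivity) (by positivity)
          apply mul_le_mul_of_nonneg_left h3 (by positivity)
      _ ≤ 2 * ((2 * y / q) * (y * (1 + L) ^ 16)) := by
          have : 0 ≤ (2 * (y : ℝ) / q) * (y * (1 + L) ^ 16) := by positivity
          linarith
      _ = (2 * y * (1 + L) ^ 8) ^ 2 / q := by ring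
  exact abs_le_of_sq_le_sq' h4 (by positivity) |>.2

theorem errb : ∃ η : ℝ, 0 < η ∧ η ≤ 1 ∧ ∃ x0 : ℕ, ∀ x : ℕ, x0 ≤ x →
    ∀ (U y q : ℕ) (e : ℕ → ℝ) (α : ℝ) (B : Set ℝ), (x : ℝ) ^ (1 / 2 : ℝ) ≤ y → y ≤ x →
      1 ≤ q → q ≤ y →
      (∀ k, |e k| ≤ ∑ m ∈ k.divisors, |Lam m| * |cV U (k / m)|) →
      (∀ k, k ∉ Ioc (y - y / q - 1) y → e k = 0) →
      MeasurableSet B → B ⊆ Set.Icc (-((x : ℝ) ^ (2 : ℕ))) ((x : ℝ) ^ (2 : ℕ)) →
      volume.real B ≤ (x : ℝ) ^ η →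
      ∫ t in B, ‖∑ k ∈ Icc 1 y, ((e k : ℝ) : ℂ) * gE α t k‖ ^ 2
        ≤ (x : ℝ) ^ 2 * Real.log x ^ 14 / Real.sqrt q := by
  obtain ⟨η, h1, h2, x0, H⟩ := hm (1 / 2) (by norm_num)
  obtain ⟨x1, hx1⟩ := log_ge 4
  refine ⟨η, h1, h2, max x0 (max x1 1), ?_⟩
  intro x hx U y q e α B hy hyx hq hqy he he0 hB hBs hv
  have hxx0 : x0 ≤ x := (le_max_left _ _).trans hx
  have hxx1 : x1 ≤ x := ((le_max_left _ _).trans (le_max_right _ _)).trans hx
  have hL : 4 ≤ Real.log x := hx1 x hxx1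
  have hy1 : 1 ≤ y := hq.trans hqy
  have hyR : (1 : ℝ) ≤ y := by exact_mod_cast hy1
  have hyxR : (y : ℝ) ≤ x := by exact_mod_cast hyx
  have hly : Real.log y ≤ Real.log x := Real.log_le_log (by linarith) hyxR
  have hq0 : (0 : ℝ) < q := by exact_mod_cast hq
  have hsq : 0 < Real.sqrt q := Real.sqrt_pos.2 hq0
  have key := H x hxx0 y (fun k => ((e k : ℝ) : ℂ) * ee ((k : ℝ) * α)) B hy hyx hB hBs hv
  have e1 : ∀ t : ℝ, ∑ k ∈ Icc 1 y, ((e k : ℝ) : ℂ) * gE α t k =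
      ∑ n ∈ Icc 1 y, (((e n : ℝ) : ℂ) * ee ((n : ℝ) * α)) * ee (t * Real.log n) := by
    intro t
    refine sum_congr rfl fun k _ => ?_
    rw [gE, Pool.Agent.H91.PK.LSa_ee_add, mul_assoc]
  simp only [e1]
  refine key.trans ?_
  have e2 : ∀ n, ‖((e n : ℝ) : ℂ) * ee ((n : ℝ) * α)‖ ^ 2 = (e n) ^ 2 := by
    intro n
    rw [norm_mul, Pool.Agent.H91.PK.LSa_norm_ee, mul_one, Complex.norm_real, Real.norm_eq_abs,
      sq_abs]
  simp only [e2]
  have e3 : ∑ n ∈ Icc 1 y, (e n) ^ 2 ≤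
      Real.log x ^ 2 * (2 * y * (1 + Real.log x) ^ 8 / Real.sqrt q) := by
    have h3 : ∑ n ∈ Icc 1 y, (e n) ^ 2 =
        ∑ n ∈ (Icc 1 y).filter (fun k => k ∈ Ioc (y - y / q - 1) y), (e n) ^ 2 := by
      rw [sum_filter]
      refine sum_congr rfl fun n _ => ?_
      by_cases hn : n ∈ Ioc (y - y / q - 1) y
      · rw [if_pos hn]
      · rw [if_neg hn, he0 n hn]
        norm_num
    rw [h3]
    have hsub : (Icc 1 y).filter (fun k => k ∈ Ioc (y - y / q - 1) y) ⊆ Icc 1 y := filter_subset _ _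
    have hc : ((Icc 1 y).filter (fun k => k ∈ Ioc (y - y / q - 1) y)).card ≤ y / q + 1 := by
      have h5 : (Icc 1 y).filter (fun k => k ∈ Ioc (y - y / q - 1) y) ⊆ Ioc (y - y / q - 1) y := by
        intro k hk
        exact (mem_filter.1 hk).2
      refine (card_le_card h5).trans ?_
      rw [Nat.card_Ioc]
      generalize y / q = w
      omega
    have h4 := ErrB_sq y q (Real.log x) hq hqy hly _ hsub hc
    refine le_trans ?_ (mul_le_mul_of_nonneg_left h4 (by positivity))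
    rw [mul_sum]
    refine sum_le_sum fun k hk => ?_
    have hk1 := mem_Icc.1 (hsub hk)
    have hk0 : k ≠ 0 := by omega
    have h5 : |e k| ≤ k.divisors.card * Real.log x := by
      refine (he k).trans ((ErrB_e U k hk0).trans ?_)
      apply mul_le_mul_of_nonneg_left _ (by positivity)
      apply Real.log_le_log
      · exact_mod_cast hk1.1
      · exact_mod_cast hk1.2.trans hyx
    calc (e k) ^ 2 = |e k| ^ 2 := (sq_abs _).symm
      _ ≤ (k.divisors.card * Real.log x) ^ 2 := pow_le_pow_left₀ (abs_nonneg _) h5 2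
      _ = Real.log x ^ 2 * (k.divisors.card : ℝ) ^ 2 := by ring
  calc (y : ℝ) * Real.log x ^ 2 * ∑ n ∈ Icc 1 y, (e n) ^ 2
      ≤ (y : ℝ) * Real.log x ^ 2 *
        (Real.log x ^ 2 * (2 * y * (1 + Real.log x) ^ 8 / Real.sqrt q)) := by
        apply mul_le_mul_of_nonneg_left e3 (by positivity)
    _ = (y : ℝ) ^ 2 * Real.log x ^ 4 * (2 * (1 + Real.log x) ^ 8) / Real.sqrt q := by ring
    _ ≤ (x : ℝ) ^ 2 * Real.log x ^ 4 * (Real.log x ^ 10) / Real.sqrt q := by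
        apply div_le_div_of_nonneg_right _ hsq.le
        apply mul_le_mul _ (ErrB_num hL) (by positivity) (by positivity)
        apply mul_le_mul_of_nonneg_right _ (by positivity)
        exact pow_le_pow_left₀ (by linarith) hyxR 2
    _ = (x : ℝ) ^ 2 * Real.log x ^ 14 / Real.sqrt q := by ring

end Pool.Agent.H80.LV

end

section

/-!
# LV BoxB: one box of the type II sum

Proof.  If `N ≤ U` the inner sum is empty.  Otherwise `x^{1/8} ≤ U ≤ N ≤ x` (`1 ≤ v1`: if `v1 = 0` the outer sum is empty).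
`gE_mul`: `gE α t (m n) = ee(m n c/d) ee(t log m) ee(t log n)`, and `ee(m n c/d) = ee(u n c/d)` if `m % d = u`.  So the sum is
`∑_{u < d} A_u(t) C_u(t)`, `A_u(t) = ∑_{m ∈ Ioc v0 v1, m % d = u} Λ(m) ee(t log m)`, `C_u(t) = ∑_{n ∈ Icc 1 N} a_n ee(t log n)`,
`a_n = cV U n ee(u n c/d)` for `n > U` and `0` otherwise, `|a_n| ≤ τ(n)`.
`A_u` = the difference of the sums over `Icc 1 v1` and `Icc 1 v0`; by `VK K3 A (1/8)` (`v0 ≥ U ≥ x^{1/8}`, `v1 ≤ x^2`)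
`|A_u(t)| ≤ 2 v1 / L^{K3}`.  `hm (1/8)`: `∫_B |C_u|^2 ≤ N L^2 ∑_{n ≤ N} τ(n)^2 ≤ N^2 L^2 (log N + 1)^3 ≤ N^2 L^6` (`Msq_tau_sq`).
Cauchy: `|∑_u A_u C_u|^2 ≤ d ∑_u |A_u|^2 |C_u|^2 ≤ d (2 v1/L^{K3})^2 ∑_u |C_u|^2`, so the integral is
`≤ 4 d^2 (v1 N)^2 L^{6 - 2 K3} ≤ 4 x^2 L^{2A + 6 - 2 K3} ≤ x^2/L^K` with `K3 = K + A + 4`.  (`η` is the one of `hm (1/8)`.)
-/

set_option autoImplicit false

namespace Pool.Agent.H80.LV

open Finset MeasureTheory
open Pool.Agent.H91.PK (ee cV)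
open Pool.Agent.H91.EHA (Lam)

private theorem BoxB_ee_int (k : ℤ) : ee (k : ℝ) = 1 := by
  unfold Pool.Agent.H91.PK.ee
  have h : (2 * Real.pi * ((k : ℝ) : ℂ) * Complex.I : ℂ) = (k : ℂ) * (2 * Real.pi * Complex.I) := by
    push_cast
    ring
  rw [h]
  exact Complex.exp_int_mul_two_pi_mul_I k

private theorem BoxB_ee_class (d m u n : ℕ) (c : ℤ) (hd : 1 ≤ d) (hu : m % d = u) :
    ee ((m : ℝ) * n * ((c : ℝ) / d)) = ee ((u : ℝ) * n * ((c : ℝ) / d)) := by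
  have hd0 : (d : ℝ) ≠ 0 := by positivity
  obtain ⟨q, hq⟩ : ∃ q : ℕ, m = d * q + u := ⟨m / d, by rw [← hu]; exact (Nat.div_add_mod m d).symm⟩
  have h1 : (m : ℝ) = (d : ℝ) * q + u := by exact_mod_cast hq
  have h2 : (m : ℝ) * n * ((c : ℝ) / d) =
      (((q : ℤ) * (n : ℤ) * c : ℤ) : ℝ) + (u : ℝ) * n * ((c : ℝ) / d) := by
    rw [h1]
    push_cast
    field_simp
  rw [h2, Pool.Agent.H91.PK.LSa_ee_add, BoxB_ee_int, one_mul]

private noncomputable def BoxB_A (v0 v1 d u : ℕ) (t : ℝ) : ℂ :=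
  ∑ m ∈ (Ioc v0 v1).filter (fun m => m % d = u), ((Lam m : ℝ) : ℂ) * ee (t * Real.log m)

private noncomputable def BoxB_a (U d u : ℕ) (c : ℤ) (n : ℕ) : ℂ :=
  if U < n then ((cV U n : ℝ) : ℂ) * ee ((u : ℝ) * n * ((c : ℝ) / d)) else 0

private noncomputable def BoxB_C (U N d u : ℕ) (c : ℤ) (t : ℝ) : ℂ :=
  ∑ n ∈ Icc 1 N, BoxB_a U d u c n * ee (t * Real.log n)

private theorem BoxB_split (U N v0 v1 d : ℕ) (c : ℤ) (hd : 1 ≤ d) (t : ℝ) :
    ∑ m ∈ Ioc v0 v1, ((Lam m : ℝ) : ℂ) *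
          ∑ n ∈ Ioc U N, ((cV U n : ℝ) : ℂ) * gE ((c : ℝ) / d) t (m * n) =
      ∑ u ∈ range d, BoxB_A v0 v1 d u t * BoxB_C U N d u c t := by
  have h1 : ∑ m ∈ Ioc v0 v1, ((Lam m : ℝ) : ℂ) *
          ∑ n ∈ Ioc U N, ((cV U n : ℝ) : ℂ) * gE ((c : ℝ) / d) t (m * n) =
      ∑ u ∈ range d, ∑ m ∈ (Ioc v0 v1).filter (fun m => m % d = u), ((Lam m : ℝ) : ℂ) *
          ∑ n ∈ Ioc U N, ((cV U n : ℝ) : ℂ) * gE ((c : ℝ) / d) t (m * n) := by
    rw [Finset.sum_fiberwise_of_maps_to]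
    intro m _
    rw [mem_range]
    exact Nat.mod_lt _ hd
  rw [h1]
  apply sum_congr rfl
  intro u _
  unfold BoxB_A
  rw [sum_mul]
  apply sum_congr rfl
  intro m hm
  rw [mem_filter, mem_Ioc] at hm
  obtain ⟨⟨hm1, _⟩, hm2⟩ := hm
  rw [mul_assoc]
  congr 1
  unfold BoxB_C
  rw [mul_sum]
  have h2 : (Ioc U N) = (Icc 1 N).filter (fun n => U < n) := by
    ext n
    simp only [mem_filter, mem_Ioc, mem_Icc]
    constructor
    · rintro ⟨h3, h4⟩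
      exact ⟨⟨by omega, h4⟩, h3⟩
    · rintro ⟨⟨_, h4⟩, h3⟩
      exact ⟨h3, h4⟩
  rw [h2, sum_filter]
  apply sum_congr rfl
  intro n hn
  rw [mem_Icc] at hn
  unfold BoxB_a
  split_ifs with h3
  · rw [gE_mul _ _ _ _ (by omega) hn.1, BoxB_ee_class d m u n c hd hm2]
    ring
  · simp

private theorem BoxB_cont_ee (s : ℝ) : Continuous (fun t : ℝ => ee (t * s)) := by
  unfold Pool.Agent.H91.PK.ee
  fun_prop

private theorem BoxB_cont_C (U N d u : ℕ) (c : ℤ) : Continuous (BoxB_C U N d u c) := by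
  unfold BoxB_C
  apply continuous_finsetSum
  intro n _
  exact continuous_const.mul (BoxB_cont_ee _)

private theorem BoxB_cont_A (v0 v1 d u : ℕ) : Continuous (BoxB_A v0 v1 d u) := by
  unfold BoxB_A
  apply continuous_finsetSum
  intro n _
  exact continuous_const.mul (BoxB_cont_ee _)

private theorem BoxB_A_le (hVK : VK) (K3 A : ℕ) : ∃ K' x0 : ℕ, ∀ x : ℕ, x0 ≤ x →
    ∀ (v0 v1 d u : ℕ) (t : ℝ), 1 ≤ d → (d : ℝ) ≤ Real.log x ^ A → u < d →
      (x : ℝ) ^ (1 / 8 : ℝ) ≤ v0 → v0 ≤ v1 → v1 ≤ x ^ 2 → 0 ≤ Real.log x →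
      Real.log x ^ K' ≤ |t| → |t| ≤ (x : ℝ) ^ (2 : ℕ) →
      ‖BoxB_A v0 v1 d u t‖ ≤ 2 * v1 / Real.log x ^ K3 := by
  obtain ⟨K', x0, H⟩ := hVK K3 A (1 / 8) (by norm_num)
  refine ⟨K', x0, fun x hx v0 v1 d u t hd hdL hu hv0 hv hv1 hL ht1 ht2 => ?_⟩
  have hv' : (v0 : ℝ) ≤ v1 := by exact_mod_cast hv
  have e1 := H x hx d u v1 t hd hdL (hv0.trans hv') hv1 ht1 ht2
  have e2 := H x hx d u v0 t hd hdL hv0 (hv.trans hv1) ht1 ht2
  rw [Nat.mod_eq_of_lt hu] at e1 e2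
  have h1 : BoxB_A v0 v1 d u t =
      ∑ n ∈ (Icc 1 v1).filter (fun n => n % d = u), ((Lam n : ℝ) : ℂ) * ee (t * Real.log n) -
      ∑ n ∈ (Icc 1 v0).filter (fun n => n % d = u), ((Lam n : ℝ) : ℂ) * ee (t * Real.log n) := by
    unfold BoxB_A
    rw [eq_sub_iff_add_eq, ← sum_union]
    · apply sum_congr _ (fun _ _ => rfl)
      ext n
      simp only [mem_union, mem_filter, mem_Ioc, mem_Icc]
      constructor
      · rintro (⟨⟨h3, h4⟩, h5⟩ | ⟨⟨h3, h4⟩, h5⟩)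
        · exact ⟨⟨by omega, h4⟩, h5⟩
        · exact ⟨⟨h3, by omega⟩, h5⟩
      · rintro ⟨⟨h3, h4⟩, h5⟩
        by_cases h6 : n ≤ v0
        · exact Or.inr ⟨⟨h3, h6⟩, h5⟩
        · exact Or.inl ⟨⟨by omega, h4⟩, h5⟩
    · rw [Finset.disjoint_left]
      intro n h3 h4
      rw [mem_filter, mem_Ioc] at h3
      rw [mem_filter, mem_Icc] at h4
      omega
  rw [h1]
  have hLp : (0 : ℝ) ≤ Real.log x ^ K3 := pow_nonneg hL _
  calc _ ≤ _ := norm_sub_le _ _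
    _ ≤ (v1 : ℝ) / Real.log x ^ K3 + (v0 : ℝ) / Real.log x ^ K3 := add_le_add e1 e2
    _ ≤ (v1 : ℝ) / Real.log x ^ K3 + (v1 : ℝ) / Real.log x ^ K3 := by
        gcongr
    _ = 2 * v1 / Real.log x ^ K3 := by ring

private theorem BoxB_a_sq (U N d u : ℕ) (c : ℤ) (hU : 1 ≤ U) (hN : 1 ≤ N) :
    ∑ n ∈ Icc 1 N, ‖BoxB_a U d u c n‖ ^ 2 ≤ N * (Real.log N + 1) ^ 3 := by
  have h := Pool.Agent.H91.PK.cV_sq_all U N hU hN
  refine le_trans (le_of_eq ?_) h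
  have h2 : (Ioc U N) = (Icc 1 N).filter (fun n => U < n) := by
    ext n
    simp only [mem_filter, mem_Ioc, mem_Icc]
    constructor
    · rintro ⟨h3, h4⟩
      exact ⟨⟨by omega, h4⟩, h3⟩
    · rintro ⟨⟨_, h4⟩, h3⟩
      exact ⟨h3, h4⟩
  rw [h2, sum_filter]
  apply sum_congr rfl
  intro n _
  unfold BoxB_a
  split_ifs with h3
  · rw [norm_mul, Pool.Agent.H91.PK.LSa_norm_ee, mul_one, Complex.norm_real, Real.norm_eq_abs,
      sq_abs]
  · simp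

theorem boxb (hVK : VK) : ∃ η : ℝ, 0 < η ∧ η ≤ 1 ∧ ∀ K A : ℕ, ∃ K' x0 : ℕ, ∀ x : ℕ, x0 ≤ x →
    ∀ (U N v0 v1 d : ℕ) (c : ℤ) (B : Set ℝ), 1 ≤ d → (d : ℝ) ≤ Real.log x ^ A →
      (x : ℝ) ^ (1 / 8 : ℝ) ≤ U → U ≤ v0 → v0 ≤ v1 → v1 ≤ x ^ 2 → N * v1 ≤ x →
      MeasurableSet B → (∀ t ∈ B, Real.log x ^ K' ≤ |t| ∧ |t| ≤ (x : ℝ) ^ (2 : ℕ)) →
      volume.real B ≤ (x : ℝ) ^ η →
      ∫ t in B, ‖∑ m ∈ Ioc v0 v1, ((Lam m : ℝ) : ℂ) *
          ∑ n ∈ Ioc U N, ((cV U n : ℝ) : ℂ) * gE ((c : ℝ) / d) t (m * n)‖ ^ 2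
        ≤ (x : ℝ) ^ 2 / Real.log x ^ K := by
  obtain ⟨η, hη0, hη1, x1, Hhm⟩ := hm (1 / 8) (by norm_num)
  refine ⟨η, hη0, hη1, fun K A => ?_⟩
  obtain ⟨K', x2, HA⟩ := BoxB_A_le hVK (K + A + 4) A
  obtain ⟨x3, HL⟩ := log_ge 4
  refine ⟨K', max (max x1 x2) (max x3 1), fun x hx U N v0 v1 d c B hd hdL hU hUv hv hv1 hNv hBm hB hBv => ?_⟩
  have hx1 : x1 ≤ x := le_trans (le_trans (le_max_left _ _) (le_max_left _ _)) hx
  have hx2 : x2 ≤ x := le_trans (le_trans (le_max_right _ _) (le_max_left _ _)) hx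
  have hx3 : x3 ≤ x := le_trans (le_trans (le_max_left _ _) (le_max_right _ _)) hx
  have hx4 : 1 ≤ x := le_trans (le_trans (le_max_right _ _) (le_max_right _ _)) hx
  have hL := HL x hx3
  set L := Real.log x with hLdef
  have hL0 : 0 < L := by linarith
  have hxr : (1 : ℝ) ≤ x := by exact_mod_cast hx4
  have hU1 : 1 ≤ U := by
    have h1 : (1 : ℝ) ≤ (x : ℝ) ^ (1 / 8 : ℝ) := Real.one_le_rpow hxr (by norm_num)
    exact_mod_cast h1.trans hU
  rcases Nat.lt_or_ge U N with hUN | hUN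
  swap
  · have h1 : Ioc U N = ∅ := Finset.Ioc_eq_empty (by omega)
    simp only [h1, sum_empty, mul_zero, sum_const_zero, norm_zero]
    norm_num
    positivity
  have hN1 : 1 ≤ N := by omega
  have hv11 : 1 ≤ v1 := by omega
  have hNx : N ≤ x := le_trans (Nat.le_mul_of_pos_right N (by omega)) hNv
  have hBsub : B ⊆ Set.Icc (-((x : ℝ) ^ (2 : ℕ))) ((x : ℝ) ^ (2 : ℕ)) := by
    intro t ht
    have h1 := (hB t ht).2
    rw [abs_le] at h1
    exact h1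
  have hKN : (x : ℝ) ^ (1 / 8 : ℝ) ≤ N := by
    have : (U : ℝ) ≤ N := by exact_mod_cast hUN.le
    linarith
  have hint : ∀ f : ℝ → ℝ, Continuous f → IntegrableOn f B := by
    intro f hf
    exact (hf.continuousOn.integrableOn_compact isCompact_Icc).mono_set hBsub
  set M : ℝ := 2 * v1 / L ^ (K + A + 4) with hM
  have hM0 : 0 ≤ M := by positivity
  have hpt : ∀ t ∈ B, ‖∑ m ∈ Ioc v0 v1, ((Lam m : ℝ) : ℂ) *
          ∑ n ∈ Ioc U N, ((cV U n : ℝ) : ℂ) * gE ((c : ℝ) / d) t (m * n)‖ ^ 2 ≤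
      M ^ 2 * d * ∑ u ∈ range d, ‖BoxB_C U N d u c t‖ ^ 2 := by
    intro t ht
    rw [BoxB_split U N v0 v1 d c hd t]
    have h1 : ‖∑ u ∈ range d, BoxB_A v0 v1 d u t * BoxB_C U N d u c t‖ ≤
        M * ∑ u ∈ range d, ‖BoxB_C U N d u c t‖ := by
      rw [mul_sum]
      refine (norm_sum_le _ _).trans (sum_le_sum fun u hu => ?_)
      rw [norm_mul]
      apply mul_le_mul_of_nonneg_right _ (norm_nonneg _)
      rw [mem_range] at hu
      have hU' : (x : ℝ) ^ (1 / 8 : ℝ) ≤ v0 := by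
        have : (U : ℝ) ≤ v0 := by exact_mod_cast hUv
        linarith
      exact HA x hx2 v0 v1 d u t hd hdL hu hU' hv hv1 hL0.le (hB t ht).1 (hB t ht).2
    have h2 : (∑ u ∈ range d, ‖BoxB_C U N d u c t‖) ^ 2 ≤
        d * ∑ u ∈ range d, ‖BoxB_C U N d u c t‖ ^ 2 := by
      have h3 := sq_sum_le_card_mul_sum_sq (s := range d) (f := fun u => ‖BoxB_C U N d u c t‖)
      rwa [card_range] at h3
    calc _ ≤ (M * ∑ u ∈ range d, ‖BoxB_C U N d u c t‖) ^ 2 :=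
          pow_le_pow_left₀ (norm_nonneg _) h1 2
      _ = M ^ 2 * (∑ u ∈ range d, ‖BoxB_C U N d u c t‖) ^ 2 := by ring
      _ ≤ M ^ 2 * (d * ∑ u ∈ range d, ‖BoxB_C U N d u c t‖ ^ 2) :=
          mul_le_mul_of_nonneg_left h2 (by positivity)
      _ = _ := by ring
  have hcontF : Continuous (fun t : ℝ => ‖∑ m ∈ Ioc v0 v1, ((Lam m : ℝ) : ℂ) *
          ∑ n ∈ Ioc U N, ((cV U n : ℝ) : ℂ) * gE ((c : ℝ) / d) t (m * n)‖ ^ 2) := by
    have h1 : (fun t : ℝ => ‖∑ m ∈ Ioc v0 v1, ((Lam m : ℝ) : ℂ) *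
          ∑ n ∈ Ioc U N, ((cV U n : ℝ) : ℂ) * gE ((c : ℝ) / d) t (m * n)‖ ^ 2) =
        (fun t : ℝ => ‖∑ u ∈ range d, BoxB_A v0 v1 d u t * BoxB_C U N d u c t‖ ^ 2) := by
      funext t
      rw [BoxB_split U N v0 v1 d c hd t]
    rw [h1]
    apply Continuous.pow
    apply Continuous.norm
    apply continuous_finsetSum
    intro u _
    exact (BoxB_cont_A _ _ _ _).mul (BoxB_cont_C _ _ _ _ _)
  have hcontC : ∀ u, Continuous (fun t : ℝ => ‖BoxB_C U N d u c t‖ ^ 2) := fun u =>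
    ((BoxB_cont_C U N d u c).norm).pow 2
  have hcontG : Continuous (fun t : ℝ => M ^ 2 * d * ∑ u ∈ range d, ‖BoxB_C U N d u c t‖ ^ 2) := by
    apply continuous_const.mul
    apply continuous_finsetSum
    intro u _
    exact hcontC u
  have h5 : ∀ u ∈ range d, ∫ t in B, ‖BoxB_C U N d u c t‖ ^ 2 ≤ (N : ℝ) ^ 2 * L ^ 6 := by
    intro u _
    have h6 := Hhm x hx1 N (BoxB_a U d u c) B hKN (by exact_mod_cast hNx) hBm hBsub hBv
    have h7 := BoxB_a_sq U N d u c hU1 hN1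
    have hlogN0 : 0 ≤ Real.log N := Real.log_nonneg (by exact_mod_cast hN1)
    have hlogN : Real.log N ≤ L := by
      rw [hLdef]
      exact Real.log_le_log (by positivity) (by exact_mod_cast hNx)
    have h8 : (Real.log N + 1) ^ 3 ≤ L ^ 4 := by
      calc (Real.log N + 1) ^ 3 ≤ (L + 1) ^ 3 := by gcongr
        _ ≤ L ^ 4 := by
            nlinarith [pow_nonneg hL0.le 3, mul_nonneg hL0.le hL0.le,
              mul_nonneg (sub_nonneg.2 hL) (pow_nonneg hL0.le 3),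
              mul_nonneg (sub_nonneg.2 hL) (pow_nonneg hL0.le 2),
              mul_nonneg (sub_nonneg.2 hL) hL0.le]
    calc ∫ t in B, ‖BoxB_C U N d u c t‖ ^ 2
        ≤ N * L ^ 2 * ∑ n ∈ Icc 1 N, ‖BoxB_a U d u c n‖ ^ 2 := h6
      _ ≤ N * L ^ 2 * (N * L ^ 4) := by
          apply mul_le_mul_of_nonneg_left _ (by positivity)
          exact h7.trans (mul_le_mul_of_nonneg_left h8 (by positivity))
      _ = (N : ℝ) ^ 2 * L ^ 6 := by ring
  have h9 : ∫ t in B, M ^ 2 * d * ∑ u ∈ range d, ‖BoxB_C U N d u c t‖ ^ 2 ≤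
      M ^ 2 * d * (d * ((N : ℝ) ^ 2 * L ^ 6)) := by
    rw [integral_const_mul]
    apply mul_le_mul_of_nonneg_left _ (by positivity)
    rw [integral_finsetSum _ (fun u _ => hint _ (hcontC u))]
    calc ∑ u ∈ range d, ∫ t in B, ‖BoxB_C U N d u c t‖ ^ 2
        ≤ ∑ u ∈ range d, (N : ℝ) ^ 2 * L ^ 6 := sum_le_sum h5
      _ = d * ((N : ℝ) ^ 2 * L ^ 6) := by
          rw [sum_const, card_range, nsmul_eq_mul]
  calc ∫ t in B, ‖∑ m ∈ Ioc v0 v1, ((Lam m : ℝ) : ℂ) *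
          ∑ n ∈ Ioc U N, ((cV U n : ℝ) : ℂ) * gE ((c : ℝ) / d) t (m * n)‖ ^ 2
      ≤ ∫ t in B, M ^ 2 * d * ∑ u ∈ range d, ‖BoxB_C U N d u c t‖ ^ 2 :=
        setIntegral_mono_on (hint _ hcontF) (hint _ hcontG) hBm hpt
    _ ≤ M ^ 2 * d * (d * ((N : ℝ) ^ 2 * L ^ 6)) := h9
    _ ≤ (x : ℝ) ^ 2 / L ^ K := by
        have hNv' : ((N : ℝ) * v1) ^ 2 ≤ (x : ℝ) ^ 2 := by
          have : (N : ℝ) * v1 ≤ x := by exact_mod_cast hNv
          gcongr
        have hd2 : (d : ℝ) ^ 2 ≤ (L ^ A) ^ 2 := by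
          gcongr
        have e1 : M ^ 2 * d * (d * ((N : ℝ) ^ 2 * L ^ 6)) =
            4 * (d : ℝ) ^ 2 * ((N : ℝ) * v1) ^ 2 * L ^ 6 / (L ^ (K + A + 4)) ^ 2 := by
          rw [hM]
          field_simp
          ring
        rw [e1]
        have e2 : 4 * (d : ℝ) ^ 2 * ((N : ℝ) * v1) ^ 2 * L ^ 6 ≤
            4 * (L ^ A) ^ 2 * (x : ℝ) ^ 2 * L ^ 6 := by
          gcongr
        rw [div_le_div_iff₀ (by positivity) (by positivity)]
        calc 4 * (d : ℝ) ^ 2 * ((N : ℝ) * v1) ^ 2 * L ^ 6 * L ^ K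
            ≤ 4 * (L ^ A) ^ 2 * (x : ℝ) ^ 2 * L ^ 6 * L ^ K :=
              mul_le_mul_of_nonneg_right e2 (by positivity)
          _ ≤ (x : ℝ) ^ 2 * (L ^ (K + A + 4)) ^ 2 := by
              have e3 : (x : ℝ) ^ 2 * (L ^ (K + A + 4)) ^ 2 =
                  (L ^ A) ^ 2 * (x : ℝ) ^ 2 * L ^ 6 * L ^ K * (L ^ K * L ^ 2) := by
                ring
              rw [e3]
              have e4 : (4 : ℝ) ≤ L ^ K * L ^ 2 := by
                have : (1 : ℝ) ≤ L ^ K := one_le_pow₀ (by linarith)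
                nlinarith
              have e5 : 0 ≤ (L ^ A) ^ 2 * (x : ℝ) ^ 2 * L ^ 6 * L ^ K := by positivity
              nlinarith

end Pool.Agent.H80.LV

end

section

/-!
# LV TyI: type I sums, pointwise

Proof.  (1) `gE (c/d) t (a b) = ee(a b c/d) ee(t log a) ee(t log b)` (`gE_mul`); `ψ(b) = ee(a b c/d)` has period `d` and norm 1;
`ksap (1/8)` with `β = 0`, `K = K`, interval `Ioc 0 j`, `j ≤ K`, gives for EVERY `j ≤ K`:
`|W(j)| ≤ K L (1/|t| + x^{-δ})`, `W(j) = ∑_{b ≤ j} gE (c/d) t (a b)` (`d^4 ≤ L^{4A} ≤ x^{1/8} ≤ K`, `x^2 ≤ x^3`).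
(2) Abel summation: `∑_{b ≤ K} log b w_b = W(K) log K - ∑_{j < K} W(j) (log(j+1) - log j)`, so it is at most
`2 log K max |W(j)| ≤ 2 K L^2 (1/|t| + x^{-δ})`.  `δ` is the one of `ksap (1/8)`, independent of `A`.  (Compare `GB/TypeI.lean`, `typeI_abel`, `ty1log`.)
-/

set_option autoImplicit false

namespace Pool.Agent.H80.LV

open Finset
open Pool.Agent.H91.PK (ee)

private theorem TyI_ee_int (k : ℤ) : ee (k : ℝ) = 1 := by
  unfold ee
  have h := Complex.exp_int_mul_two_pi_mul_I k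
  rw [← h]
  congr 1
  push_cast
  ring

/-- Abel summation with logarithms. -/
private theorem TyI_abel (w : ℕ → ℂ) (X : ℕ) :
    ∑ b ∈ Icc 1 X, ((Real.log b : ℝ) : ℂ) * w b =
      ∑ i ∈ Ico 1 X, ((Real.log (i + 1 : ℕ) - Real.log i : ℝ) : ℂ) * ∑ b ∈ Ioc i X, w b := by
  induction X with
  | zero => simp
  | succ X ih =>
    rcases Nat.eq_zero_or_pos X with rfl | hX
    · simp
    rw [Finset.sum_Icc_succ_top (by omega), ih, Finset.sum_Ico_succ_top hX]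
    have h1 : ∀ i ∈ Ico 1 X, ((Real.log (i + 1 : ℕ) - Real.log i : ℝ) : ℂ) *
        ∑ b ∈ Ioc i (X + 1), w b =
        ((Real.log (i + 1 : ℕ) - Real.log i : ℝ) : ℂ) * ∑ b ∈ Ioc i X, w b +
          ((Real.log (i + 1 : ℕ) - Real.log i : ℝ) : ℂ) * w (X + 1) := by
      intro i hi
      rw [mem_Ico] at hi
      rw [← mul_add]
      congr 1
      rw [Finset.sum_Ioc_succ_top (by omega)]
    rw [Finset.sum_congr rfl h1, Finset.sum_add_distrib, ← Finset.sum_mul]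
    have h2 : ∑ i ∈ Ico 1 X, ((Real.log (i + 1 : ℕ) - Real.log i : ℝ) : ℂ) =
        ((Real.log X : ℝ) : ℂ) := by
      rw [← Complex.ofReal_sum]
      congr 1
      have h3 := Finset.sum_Ico_sub (fun i : ℕ => Real.log i) (show 1 ≤ X from hX)
      rw [h3]
      simp
    rw [h2, Nat.Ioc_succ_singleton, Finset.sum_singleton]
    push_cast
    ring

theorem tyI : ∃ δ : ℝ, 0 < δ ∧ δ ≤ 1 ∧ ∀ A : ℕ, ∃ x0 : ℕ, ∀ x : ℕ, x0 ≤ x →
    ∀ (a K d : ℕ) (c : ℤ) (t : ℝ), 1 ≤ a → 1 ≤ d → (d : ℝ) ≤ Real.log x ^ A →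
      (x : ℝ) ^ (1 / 8 : ℝ) ≤ K → K ≤ x → 1 ≤ |t| → |t| ≤ (x : ℝ) ^ (2 : ℕ) →
      ‖∑ b ∈ Icc 1 K, gE ((c : ℝ) / d) t (a * b)‖
        ≤ K * Real.log x * (1 / |t| + (x : ℝ) ^ (-δ)) ∧
      ‖∑ b ∈ Icc 1 K, ((Real.log b : ℝ) : ℂ) * gE ((c : ℝ) / d) t (a * b)‖
        ≤ 2 * K * Real.log x ^ 2 * (1 / |t| + (x : ℝ) ^ (-δ)) := by
  obtain ⟨δ, hδ0, hδ1, x1, hx1⟩ := Pool.Agent.H35.W.ksap (1 / 8) (by norm_num)
  refine ⟨δ, hδ0, hδ1, fun A => ?_⟩
  obtain ⟨x2, hx2⟩ := log_pow_le (1 / 8) 1 (by norm_num) (by norm_num) (4 * A)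
  refine ⟨max (max x1 x2) 1, ?_⟩
  intro x hx a K d c t ha hd hdA hKbig hKx ht1 ht2
  have hxa : x1 ≤ x := (le_max_left _ _).trans ((le_max_left _ _).trans hx)
  have hxb : x2 ≤ x := (le_max_right _ _).trans ((le_max_left _ _).trans hx)
  have hxd : 1 ≤ x := (le_max_right _ _).trans hx
  have hxr : (1 : ℝ) ≤ x := by exact_mod_cast hxd
  have har : (1 : ℝ) ≤ a := by exact_mod_cast ha
  have hdr : (1 : ℝ) ≤ d := by exact_mod_cast hd
  have hlog : 0 ≤ Real.log x := Real.log_nonneg hxr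
  have htp : 0 < |t| := by linarith
  have hpow0 : (0 : ℝ) ≤ (x : ℝ) ^ (-δ) := Real.rpow_nonneg (by linarith) _
  have hKr : (1 : ℝ) ≤ K := (Real.one_le_rpow hxr (by norm_num)).trans hKbig
  have hK1 : 1 ≤ K := by exact_mod_cast hKr
  have hdK : d ^ 4 ≤ K := by
    have h1 : (d : ℝ) ^ 4 ≤ (Real.log x ^ A) ^ 4 := pow_le_pow_left₀ (by linarith) hdA 4
    have h2 := hx2 x hxb
    have h3 : (Real.log x ^ A) ^ 4 = 1 * Real.log x ^ (4 * A) := by
      rw [one_mul, ← pow_mul, mul_comm]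
    have h4 : ((d ^ 4 : ℕ) : ℝ) ≤ K := by
      push_cast
      exact h1.trans ((h3.le.trans h2).trans hKbig)
    exact_mod_cast h4
  -- all intervals
  have key : ∀ i : ℕ, ‖∑ b ∈ Ioc i K, gE ((c : ℝ) / d) t (a * b)‖
      ≤ K * Real.log x * (1 / |t| + (x : ℝ) ^ (-δ)) := by
    intro i
    have hterm : ∀ b ∈ Ioc i K, gE ((c : ℝ) / d) t (a * b) =
        ee (t * Real.log a) * (ee ((a : ℝ) * b * ((c : ℝ) / d)) *
          ee (t * Real.log ((b : ℝ) + 0))) := by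
      intro b hb
      rw [mem_Ioc] at hb
      rw [gE_mul _ _ a b ha (by omega), add_zero]
      ring
    rw [Finset.sum_congr rfl hterm, ← Finset.mul_sum, norm_mul, Pool.Agent.H91.PK.LSa_norm_ee,
      one_mul]
    refine hx1 x hxa K d i K (fun j => ee ((a : ℝ) * j * ((c : ℝ) / d))) 0 t hKbig hKx hd hdK
      ?_ (fun n => (Pool.Agent.H91.PK.LSa_norm_ee _).le) le_rfl le_rfl zero_le_one ht1 ?_
    · intro n
      have hd0 : (d : ℝ) ≠ 0 := by positivity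
      have h1 : (a : ℝ) * ((n + d : ℕ) : ℝ) * ((c : ℝ) / d) =
          (a : ℝ) * n * ((c : ℝ) / d) + (((a : ℤ) * c : ℤ) : ℝ) := by
        push_cast
        field_simp
      rw [h1, Pool.Agent.H91.PK.LSa_ee_add, TyI_ee_int, mul_one]
    · refine ht2.trans ?_
      exact pow_le_pow_right₀ hxr (by norm_num)
  have hB0 : 0 ≤ K * Real.log x * (1 / |t| + (x : ℝ) ^ (-δ)) := by positivity
  constructor
  · have h1 : Icc 1 K = Ioc 0 K := by
      ext b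
      simp only [mem_Icc, mem_Ioc]
      omega
    rw [h1]
    exact key 0
  · rw [TyI_abel]
    refine (norm_sum_le _ _).trans ?_
    have h1 : ∀ i ∈ Ico 1 K, ‖((Real.log (i + 1 : ℕ) - Real.log i : ℝ) : ℂ) *
        ∑ b ∈ Ioc i K, gE ((c : ℝ) / d) t (a * b)‖ ≤
        (Real.log (i + 1 : ℕ) - Real.log i) * (K * Real.log x * (1 / |t| + (x : ℝ) ^ (-δ))) := by
      intro i hi
      rw [mem_Ico] at hi
      have h2 : 0 ≤ Real.log (i + 1 : ℕ) - Real.log i := by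
        have h3 : Real.log i ≤ Real.log (i + 1 : ℕ) := by
          apply Real.log_le_log
          · exact_mod_cast hi.1
          · push_cast
            linarith
        linarith
      rw [norm_mul, Complex.norm_real, Real.norm_eq_abs, abs_of_nonneg h2]
      exact mul_le_mul_of_nonneg_left (key i) h2
    refine (Finset.sum_le_sum h1).trans ?_
    rw [← Finset.sum_mul, Finset.sum_Ico_sub (fun i : ℕ => Real.log i) hK1]
    have h2 : Real.log (K : ℝ) - Real.log ((1 : ℕ) : ℝ) ≤ Real.log x := by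
      rw [Nat.cast_one, Real.log_one, sub_zero]
      apply Real.log_le_log
      · linarith
      · exact_mod_cast hKx
    have h3 : Real.log x * (K * Real.log x * (1 / |t| + (x : ℝ) ^ (-δ))) =
        K * Real.log x ^ 2 * (1 / |t| + (x : ℝ) ^ (-δ)) := by ring
    have h4 : 0 ≤ K * Real.log x ^ 2 * (1 / |t| + (x : ℝ) ^ (-δ)) := by positivity
    calc _ ≤ Real.log x * (K * Real.log x * (1 / |t| + (x : ℝ) ^ (-δ))) :=
          mul_le_mul_of_nonneg_right h2 hB0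
      _ ≤ 2 * K * Real.log x ^ 2 * (1 / |t| + (x : ℝ) ^ (-δ)) := by
          rw [h3]
          linarith

end Pool.Agent.H80.LV

end
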