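import Pool.Agent.H43.PM.M11

/-! The parts of this file: H74.MDX.Nodes, H74.MDX.NodesP. -/

section

/-!
# MDX Nodes: the nodes over one scale `M`

Proof.  `E = EX c P η V M`, `VV = VX c P V M`, `pr = Prod.fst`.  Every prime `p` has at most `(2c+1) m ≤ b` vertices (`|K p - M P| ≤ c P`, `P < p`: at most `2c+1` values `K`
(`int_card`), then at most `m` values `k`), so `|VV| ≤ b P` (`Ioc P (2P)` has `P` elements).  `root_label` gives `s`; `rich` with `root = s` gives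
`N` = the edges with fewer than `κ P` edges with the same first vertex and the same label, `|N| ≤ 2 κ b P^2`.
For `e ∈ E` put `ω e = (e.1.2.2 + s e)/e.1.1`: `e.1.1 ω e - e.1.2.2 = s e` is an integer (so `nz = 0`) and `nz (e.2.1 ω e - e.2.2.2) ≤ 2η/e.1.1 ≤ 2 η/P`.
`Γ` = the net (`net`) of the finite set of the `ω e`, `e ∈ E \ N`, with separation `s0`.  For `e ∈ E \ N` there is `γ ∈ Γ` with `nz (ω e - γ) ≤ s0`, so
`nz (e.1.1 γ - e.1.2.2) ≤ e.1.1 s0 ≤ 2 P s0 ≤ y` (`nz_nat_mul`, `nz_neg`) and `nz (e.2.1 γ - e.2.2.2) ≤ 2 P s0 + 2η/P ≤ y`.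
Each `γ ∈ Γ` is `ω e` for some `e ∈ E \ N`: the set `U` of the second vertices of the (at least `κ P`) edges `f ∈ E` with `f.1 = e.1`, `s f = s e` satisfies
`nz (u.1 γ - u.2.2) ≤ 2η/P`; `weak` (with `η' = 2η/P`) gives `|DS P (j+1) D1 τ1 F α (M, γ)| ≥ κ P μ P^j/(m (j+1)(2c+1)) =: m0`.
`sets_sum` with `A γ = DS P (j+1) D1 τ1 F α (M, γ)`, `U` = their union, `Tot = (2 D1+1)(2P)^(j+1)` (`ds_tot`), `near γ γ' := nz (γ - γ') ≤ 2 τ1/P^(j+1)`,
`Kn` (`near_card`, `4 τ1/(P^(j+1) s0) + 1 ≤ Kn`), `ι = 5 (2 D1+1)(2P)^(j+1)/P` (`ds_int`), `hbig`.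
-/

set_option autoImplicit false

namespace Pool.Agent.H74.MDX

open Finset
open Pool.Agent.H53.MID (nz Rel Desc)

private theorem Nodes_fib (P M : ℕ) (c m b : ℝ) (V : Finset (ℕ × ℝ)) (hP : 1 ≤ P) (hc : 1 ≤ c) (hm : 1 ≤ m)
    (hmult : ∀ K : ℕ, ((V.filter (fun v => v.1 = K)).card : ℝ) ≤ m)
    (hb : (2 * c + 1) * m ≤ b) (p : ℕ) : (((VX c P V M).filter (fun v => v.1 = p)).card : ℝ) ≤ b := by
  classical
  have hP0 : (0 : ℝ) < P := by exact_mod_cast hP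
  have hb0 : 0 ≤ b := by
    refine le_trans ?_ hb
    positivity
  by_cases hp : P < p
  · have hp0 : (0 : ℝ) < p := hP0.trans (by exact_mod_cast hp)
    have hPp : (P : ℝ) ≤ p := by exact_mod_cast hp.le
    set S := (VX c P V M).filter (fun v => v.1 = p) with hS
    have h1 : (S.card : ℝ) = ∑ K ∈ S.image (fun v => v.2.1), ((S.filter (fun v => v.2.1 = K)).card : ℝ) := by
      exact_mod_cast Finset.card_eq_sum_card_image (fun v : ℕ × ℕ × ℝ => v.2.1) S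
    have h2 : ∀ K ∈ S.image (fun v => v.2.1), ((S.filter (fun v => v.2.1 = K)).card : ℝ) ≤ m := by
      intro K _
      refine le_trans ?_ (hmult K)
      have h3 : (S.filter (fun v => v.2.1 = K)).card = ((S.filter (fun v => v.2.1 = K)).image Prod.snd).card := by
        rw [Finset.card_image_of_injOn]
        intro x hx y hy hxy
        rw [Finset.mem_coe, Finset.mem_filter, hS, Finset.mem_filter] at hx hy
        exact Prod.ext (hx.1.2.trans hy.1.2.symm) hxy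
      rw [h3]
      have h4 : (S.filter (fun v => v.2.1 = K)).image Prod.snd ⊆ V.filter (fun v => v.1 = K) := by
        intro x hx
        rw [Finset.mem_image] at hx
        obtain ⟨v, hv, rfl⟩ := hx
        rw [Finset.mem_filter, hS, Finset.mem_filter] at hv
        rw [Finset.mem_filter]
        exact ⟨(mem_VX.1 hv.1.1).2.2.1, hv.2⟩
      exact_mod_cast Finset.card_le_card h4
    have h5 : ((S.image (fun v => v.2.1)).card : ℝ) ≤ 2 * c + 1 := by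
      refine int_card _ (M * P / p) c (by linarith) ?_
      intro K hK
      rw [Finset.mem_image] at hK
      obtain ⟨v, hv, rfl⟩ := hK
      rw [hS, Finset.mem_filter] at hv
      have h6 := (mem_VX.1 hv.1).2.2.2
      rw [hv.2] at h6
      have e : ((v.2.1 : ℕ) : ℝ) - M * P / p = ((v.2.1 : ℝ) * p - M * P) / p := by
        field_simp
      rw [e, abs_div, abs_of_pos hp0, div_le_iff₀ hp0]
      exact h6.trans (mul_le_mul_of_nonneg_left hPp (by linarith))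
    rw [h1]
    refine (Finset.sum_le_sum h2).trans ?_
    rw [Finset.sum_const, nsmul_eq_mul]
    exact (mul_le_mul_of_nonneg_right h5 (by linarith)).trans hb
  · have h1 : (VX c P V M).filter (fun v => v.1 = p) = ∅ := by
      rw [Finset.filter_eq_empty_iff]
      intro v hv h2
      have := (mem_VX.1 hv).1.1
      omega
    rw [h1]
    simpa using hb0

private theorem Nodes_VX (P M : ℕ) (c b : ℝ) (V : Finset (ℕ × ℝ))
    (h : ∀ p : ℕ, (((VX c P V M).filter (fun v => v.1 = p)).card : ℝ) ≤ b) : ((VX c P V M).card : ℝ) ≤ b * P := by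
  classical
  have h1 : ((VX c P V M).card : ℝ) = ∑ p ∈ Ioc P (2 * P), (((VX c P V M).filter (fun v => v.1 = p)).card : ℝ) := by
    exact_mod_cast Finset.card_eq_sum_card_fiberwise (f := fun v : ℕ × ℕ × ℝ => v.1) (s := VX c P V M) (t := Ioc P (2 * P))
      (fun v hv => by
        have := (mem_VX.1 (Finset.mem_coe.1 hv)).1
        exact Finset.mem_coe.2 (Finset.mem_Ioc.2 this))
  rw [h1]
  refine (Finset.sum_le_sum (fun p _ => h p)).trans ?_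
  rw [Finset.sum_const, nsmul_eq_mul, Nat.card_Ioc]
  have : ((2 * P - P : ℕ) : ℝ) = P := by
    have : 2 * P - P = P := by omega
    rw [this]
  rw [this, mul_comm]

open Classical in
theorem nodes (P j M : ℕ) (c D D1 τ τ1 η s0 y μ κ m b Kn : ℝ) (F : Finset ℕ) (α : ℕ → ℝ) (V : Finset (ℕ × ℝ))
    (hP : 2 ^ (j + 1) < P) (hc : 1 ≤ c) (hD : 0 ≤ D) (hτ : 0 ≤ τ) (hη : 0 < η) (hηP : 100 * η * (P : ℝ) ^ 2 ≤ 1)
    (hs0 : 0 < s0) (hμ : 0 < μ) (hκ : 0 < κ) (hm : 1 ≤ m)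
    (hV : ∀ v ∈ V, μ * (P : ℝ) ^ j ≤ ((DS P j D τ F α v).card : ℝ))
    (hmult : ∀ K : ℕ, ((V.filter (fun v => v.1 = K)).card : ℝ) ≤ m)
    (hb : (2 * c + 1) * m ≤ b) (hb2 : b ^ 2 < 2 * κ ^ 2 * P)
    (hD1 : 2 * D + c ≤ D1) (hτ1 : (2 * (P : ℝ)) ^ j * (2 * η / P) + τ ≤ τ1) (hτP : 40 * τ1 * P ≤ 1)
    (hy : 2 * η / P + 2 * P * s0 ≤ y) (hKn : 4 * τ1 / ((P : ℝ) ^ (j + 1) * s0) + 1 ≤ Kn)
    (hbig : 2 * ((2 * D1 + 1) * (2 * P) ^ (j + 1)) * (5 * (2 * D1 + 1) * (2 * P) ^ (j + 1) / P) ≤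
      (κ * P * (μ * (P : ℝ) ^ j) / (m * ((j + 1) * (2 * c + 1)))) ^ 2) :
    ∃ (Γ : Finset ℝ) (N : Finset ((ℕ × ℕ × ℝ) × (ℕ × ℕ × ℝ))), (N.card : ℝ) ≤ 2 * κ * b * (P : ℝ) ^ 2 ∧
      ∑ γ ∈ Γ, ((DS P (j + 1) D1 τ1 F α (M, γ)).card : ℝ) ≤ 2 * Kn * ((2 * D1 + 1) * (2 * P) ^ (j + 1)) ∧
      ∀ e ∈ EX c P η V M, e ∉ N → ∃ γ ∈ Γ, nz ((e.1.1 : ℝ) * γ - e.1.2.2) ≤ y ∧ nz ((e.2.1 : ℝ) * γ - e.2.2.2) ≤ y := by
  have hP1 : 1 ≤ P := by
    have := Nat.one_le_two_pow (n := j + 1)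
    omega
  have hP0 : (0 : ℝ) < P := by exact_mod_cast hP1
  have hc0 : 0 < c := by linarith
  have hD10 : 0 ≤ D1 := by linarith
  have hτ10 : 0 ≤ τ1 := by
    refine le_trans ?_ hτ1
    positivity
  have hb0 : 0 < b := by
    refine lt_of_lt_of_le ?_ hb
    have : 0 < m := by linarith
    positivity
  have hm0 : 0 < m := by linarith
  obtain ⟨s, hs1, hs2⟩ := root_label c P η V M hP1 hη.le hηP
  set E := EX c P η V M with hE
  set VV := VX c P V M with hVV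
  have hfib := Nodes_fib P M c m b V hP1 hc hm hmult hb
  have hVcard := Nodes_VX P M c b V hfib
  have hEs : E ⊆ VV ×ˢ VV := by
    intro e he
    rw [hE, mem_EX] at he
    exact Finset.mem_product.2 ⟨he.1, he.2.1⟩
  have hN0 := rich VV (fun v => v.1) E s b κ P hb0 hκ hP0 (fun p => by simpa using hfib p) hVcard hEs hs2 hb2
  set N := E.filter (fun e => ((E.filter (fun f => f.1 = e.1 ∧ s f = s e)).card : ℝ) < κ * P) with hNdef
  have hN : (N.card : ℝ) ≤ 2 * κ * b * (P : ℝ) ^ 2 := by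
    rw [hNdef]
    exact (le_of_eq (by congr; funext e; congr)).trans hN0
  set ω : (ℕ × ℕ × ℝ) × (ℕ × ℕ × ℝ) → ℝ := fun e => (e.1.2.2 + s e) / e.1.1 with hω
  obtain ⟨Γ, hΓW, hΓnet, hΓsep⟩ := net ((E \ N).image ω) s0 hs0.le
  have hpos : ∀ e ∈ E, (P : ℝ) < e.1.1 ∧ (e.1.1 : ℝ) ≤ 2 * P ∧ (e.2.1 : ℝ) ≤ 2 * P := by
    intro e he
    rw [hE, mem_EX, mem_VX, mem_VX] at he
    obtain ⟨h1, h2, -, -⟩ := he
    exact ⟨by exact_mod_cast h1.1.1, by exact_mod_cast h1.1.2, by exact_mod_cast h2.1.2⟩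
  have hs1' : ∀ e ∈ E, nz ((e.2.1 : ℝ) * ω e - e.2.2.2) ≤ 2 * η / P := by
    intro e he
    refine (hs1 e he).trans ?_
    exact div_le_div_of_nonneg_left (by positivity) hP0 (hpos e he).1.le
  refine ⟨Γ, N, hN, ?_, ?_⟩
  · -- the sets
    have hlow : ∀ γ ∈ Γ, κ * P * (μ * (P : ℝ) ^ j) / (m * ((j + 1) * (2 * c + 1))) ≤
        ((DS P (j + 1) D1 τ1 F α (M, γ)).card : ℝ) := by
      intro γ hγ
      have h1 := hΓW hγ
      rw [Finset.mem_image] at h1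
      obtain ⟨e, he, rfl⟩ := h1
      rw [Finset.mem_sdiff] at he
      obtain ⟨heE, heN⟩ := he
      have h2 : κ * P ≤ ((E.filter (fun f => f.1 = e.1 ∧ s f = s e)).card : ℝ) := by
        by_contra h3
        push Not at h3
        exact heN (by rw [hNdef, Finset.mem_filter]; exact ⟨heE, h3⟩)
      set U := (E.filter (fun f => f.1 = e.1 ∧ s f = s e)).image Prod.snd with hU
      have hUc : U.card = (E.filter (fun f => f.1 = e.1 ∧ s f = s e)).card := by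
        rw [hU, Finset.card_image_of_injOn]
        intro x hx y hy hxy
        rw [Finset.mem_coe, Finset.mem_filter] at hx hy
        exact Prod.ext (hx.2.1.trans hy.2.1.symm) hxy
      have hUmem : ∀ u ∈ U, ∃ f ∈ E, f.1 = e.1 ∧ s f = s e ∧ f.2 = u := by
        intro u hu
        rw [hU, Finset.mem_image] at hu
        obtain ⟨f, hf, hfu⟩ := hu
        rw [Finset.mem_filter] at hf
        exact ⟨f, hf.1, hf.2.1, hf.2.2, hfu⟩
      have hUV : U ⊆ VX c P V M := by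
        intro u hu
        obtain ⟨f, hf, -, -, rfl⟩ := hUmem u hu
        rw [hE, mem_EX] at hf
        exact hf.2.1
      have hUn : ∀ u ∈ U, nz (u.1 * ω e - u.2.2) ≤ 2 * η / P := by
        intro u hu
        obtain ⟨f, hf, h3, h4, rfl⟩ := hUmem u hu
        have h5 := hs1' f hf
        have h6 : ω f = ω e := by
          rw [hω]
          simp only [h3, h4]
        rw [h6] at h5
        exact h5
      have h3 := weak P j c D D1 τ τ1 (2 * η / P) μ m (ω e) F α M V U hP hc0.le hD hμ.le hm hUV hUn hV hmult hD1 hτ1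
      refine le_trans ?_ h3
      refine div_le_div_of_nonneg_right ?_ (by positivity)
      refine mul_le_mul_of_nonneg_right ?_ (by positivity)
      rw [hUc]
      exact h2
    have hUt : ((Γ.biUnion (fun γ => DS P (j + 1) D1 τ1 F α (M, γ))).card : ℝ) ≤ (2 * D1 + 1) * (2 * P) ^ (j + 1) := by
      refine ds_tot P (j + 1) M D1 _ hP1 hD10 ?_
      intro t ht
      rw [Finset.mem_biUnion] at ht
      obtain ⟨γ, -, ht⟩ := ht
      rw [mem_DS] at ht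
      exact ⟨ht.1, ht.2.1, ht.2.2.2.2.1⟩
    have hm00 : 0 < κ * P * (μ * (P : ℝ) ^ j) / (m * ((j + 1) * (2 * c + 1))) := by positivity
    refine sets_sum Γ (Γ.biUnion (fun γ => DS P (j + 1) D1 τ1 F α (M, γ))) (fun γ => DS P (j + 1) D1 τ1 F α (M, γ))
      (fun γ γ' => nz (γ - γ') ≤ 2 * τ1 / (P : ℝ) ^ (j + 1)) ((2 * D1 + 1) * (2 * P) ^ (j + 1)) Kn
      (5 * (2 * D1 + 1) * (2 * P) ^ (j + 1) / P) (κ * P * (μ * (P : ℝ) ^ j) / (m * ((j + 1) * (2 * c + 1))))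
      (fun γ hγ => Finset.subset_biUnion_of_mem (fun γ => DS P (j + 1) D1 τ1 F α (M, γ)) hγ) hUt hm00 (by positivity)
      ?_ hlow ?_ ?_ hbig
    · refine le_trans ?_ hKn
      positivity
    · intro γ _
      refine (near_card Γ s0 (2 * τ1 / (P : ℝ) ^ (j + 1)) hs0 (by positivity) hΓsep γ).trans ?_
      refine le_trans (le_of_eq ?_) hKn
      field_simp
      ring
    · intro γ _ γ' _ hfar
      by_contra h3
      push Not at h3
      exact hfar (ds_int P j M D1 τ1 F α γ γ' hP1 hD10 hτ10 hτP (lt_of_lt_of_eq h3 (by congr; exact Subsingleton.elim _ _)))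
  · intro e he heN
    obtain ⟨γ, hγ, hnz⟩ := hΓnet (ω e) (Finset.mem_image_of_mem _ (Finset.mem_sdiff.2 ⟨he, heN⟩))
    obtain ⟨h1, h2, h3⟩ := hpos e he
    have he0 : (0 : ℝ) < e.1.1 := hP0.trans h1
    have hηP0 : 0 ≤ 2 * η / P := by positivity
    refine ⟨γ, hγ, ?_, ?_⟩
    · have e1 : (e.1.1 : ℝ) * γ - e.1.2.2 = -((e.1.1 : ℝ) * (ω e - γ)) + (s e : ℝ) := by
        rw [hω]
        field_simp
        ring
      rw [e1, Pool.Agent.H53.MID.nz_add_int, Pool.Agent.H53.MID.nz_neg]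
      refine (Pool.Agent.H53.MID.nz_nat_mul _ _).trans ?_
      have h4 : (e.1.1 : ℝ) * nz (ω e - γ) ≤ 2 * P * s0 :=
        mul_le_mul h2 hnz (Pool.Agent.H53.MID.nz_nonneg _) (by positivity)
      linarith
    · have e1 : (e.2.1 : ℝ) * γ - e.2.2.2 = ((e.2.1 : ℝ) * ω e - e.2.2.2) - (e.2.1 : ℝ) * (ω e - γ) := by
        ring
      rw [e1]
      refine (Pool.Agent.H53.MID.nz_sub _ _).trans ?_
      have h4 : nz ((e.2.1 : ℝ) * (ω e - γ)) ≤ 2 * P * s0 := by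
        refine (Pool.Agent.H53.MID.nz_nat_mul _ _).trans ?_
        exact mul_le_mul h3 hnz (Pool.Agent.H53.MID.nz_nonneg _) (by positivity)
      linarith [hs1' e he]

end Pool.Agent.H74.MDX

end

section

/-!
# MDX NodesP: the nodes over one scale, explicit constants

Apply `nodes` with `X = 2^(j^2+5j)`, `c = 2 (C 3^j) + 1`, `D = C 5^j`, `D1 = C 5^(j+1)`, `τ = X η`, `τ1 = 2^((j+1)^2+5(j+1)) η = 2^(2j+6) X η`,
`η := X η P/P^j`, `s0 = 2^(j+3) X η/P^(j+1)`, `y = 2^(j+5) X η/P^j`, `μ = ε/B^5`, `κ = ε^2/(2 B^11)`, `m = B^7/ε`, `b = B^8/ε`, `Kn = 2^(j+6)`.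
Checks (`j < ℓ`, `B ≥ 1`, `ε ≤ 1`): `2^(j+1) < P` (`B ≥ 2^(2ℓ+8)`, `P ≥ 40 B^54/ε^8`); `100 X η P/P^j P^2 ≤ 100 X η P^3 ≤ 1` (`X ≤ 2^(ℓ^2+5ℓ)`);
`(2c+1) m = (4 C 3^j + 3) m ≤ B m` (`4 C 3^j + 3 ≤ 2 C 5^ℓ + 1`); `b^2 < 2 κ^2 P`: `2 B^38/ε^6 < P`; `2D + c = 2 C 5^j + 2 C 3^j + 1 ≤ 5 C 5^j`;
`(2P)^j 2 (X η P/P^j)/P + X η = (2^(j+1) + 1) X η ≤ 2^(2j+6) X η`; `40 τ1 P ≤ 1`; `2η/P + 2 P s0 = (2 + 2^(j+4)) X η/P^j ≤ y`;
`4 τ1/(P^(j+1) s0) = 2^(j+5)`; `hbig`: left side `= 10 (2 D1+1)^2 2^(2j+2) P^(2j+2)/P ≤ 10 B^3 P^(2j+2)/P` (`2 D1 + 1 ≤ B`, `2^(2j+2) ≤ B`), right side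
`≥ (ε^4/(2 B^25))^2 P^(2j+2)` (`κ μ/m = ε^4/(2 B^23)`, `(j+1)(2c+1) ≤ B^2`), and `40 B^53/ε^8 ≤ P`.
-/

set_option autoImplicit false

namespace Pool.Agent.H74.MDX

open Finset
open Pool.Agent.H53.MID (nz Rel Desc)

/-- the last inequality -/
private theorem NodesP_big (B ε P L t Y : ℝ) (hB : 1 ≤ B) (hε : 0 < ε) (hP0 : 0 < P)
    (hP : 40 * B ^ 54 ≤ ε ^ 8 * P) (Z : ℝ) (hZ : 0 < Z) (hL0 : 0 ≤ L) (hL : L ≤ B) (ht0 : 0 ≤ t) (ht : t ^ 2 ≤ B)
    (hY0 : 0 < Y) (hY : Y ≤ B ^ 2) :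
    2 * (L * (t * (P * Z))) * (5 * L * (t * (P * Z)) / P) ≤
      (ε ^ 2 / (2 * B ^ 11) * P * (ε / B ^ 5 * Z) / (B ^ 7 / ε * Y)) ^ 2 := by
  have hB0 : 0 < B := by linarith
  have e1 : 2 * (L * (t * (P * Z))) * (5 * L * (t * (P * Z)) / P) = 10 * L ^ 2 * t ^ 2 * P * Z ^ 2 := by
    field_simp
    ring
  rw [e1]
  have h1 : 10 * L ^ 2 * t ^ 2 * P * Z ^ 2 ≤ 10 * B ^ 3 * P * Z ^ 2 := by
    have h2 : L ^ 2 * t ^ 2 ≤ B ^ 2 * B :=
      mul_le_mul (pow_le_pow_left₀ hL0 hL 2) ht (by positivity) (by positivity)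
    have h3 : 0 ≤ P * Z ^ 2 := by positivity
    nlinarith [mul_le_mul_of_nonneg_right h2 h3]
  refine h1.trans ?_
  have h4 : ε ^ 4 * P * Z / (2 * B ^ 25) ≤ ε ^ 2 / (2 * B ^ 11) * P * (ε / B ^ 5 * Z) / (B ^ 7 / ε * Y) := by
    have e2 : ε ^ 2 / (2 * B ^ 11) * P * (ε / B ^ 5 * Z) / (B ^ 7 / ε * Y) = ε ^ 4 * P * Z / (2 * B ^ 23 * Y) := by
      field_simp
    rw [e2]
    refine div_le_div_of_nonneg_left (by positivity) (by positivity) ?_
    have h5 : 2 * B ^ 23 * Y ≤ 2 * B ^ 23 * B ^ 2 := mul_le_mul_of_nonneg_left hY (by positivity)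
    calc 2 * B ^ 23 * Y ≤ 2 * B ^ 23 * B ^ 2 := h5
      _ = 2 * B ^ 25 := by ring
  have h6 : 10 * B ^ 3 * P * Z ^ 2 ≤ (ε ^ 4 * P * Z / (2 * B ^ 25)) ^ 2 := by
    rw [div_pow, le_div_iff₀ (by positivity)]
    have h7 : 40 * B ^ 53 ≤ ε ^ 8 * P := by
      refine le_trans ?_ hP
      have : B ^ 53 ≤ B ^ 54 := pow_le_pow_right₀ hB (by norm_num)
      linarith
    have h8 : 0 ≤ P * Z ^ 2 := by positivity
    calc 10 * B ^ 3 * P * Z ^ 2 * (2 * B ^ 25) ^ 2 = (40 * B ^ 53) * (P * Z ^ 2) := by ring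
      _ ≤ (ε ^ 8 * P) * (P * Z ^ 2) := mul_le_mul_of_nonneg_right h7 h8
      _ = (ε ^ 4 * P * Z) ^ 2 := by ring
  exact h6.trans (pow_le_pow_left₀ (by positivity) h4 2)

open Classical in
theorem nodesP (C B ε η : ℝ) (ℓ P j M : ℕ) (F : Finset ℕ) (α : ℕ → ℝ) (V : Finset (ℕ × ℝ)) (hPar : Par C ℓ P B ε η)
    (hj : j < ℓ)
    (hV : ∀ v ∈ V, ε / B ^ 5 * (P : ℝ) ^ j ≤ ((DS P j (C * 5 ^ j) (2 ^ (j ^ 2 + 5 * j) * η) F α v).card : ℝ))
    (hmult : ∀ K : ℕ, ((V.filter (fun v => v.1 = K)).card : ℝ) ≤ B ^ 7 / ε) :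
    ∃ (Γ : Finset ℝ) (N : Finset ((ℕ × ℕ × ℝ) × (ℕ × ℕ × ℝ))), (N.card : ℝ) ≤ ε / B ^ 3 * (P : ℝ) ^ 2 ∧
      ∑ γ ∈ Γ, ((DS P (j + 1) (C * 5 ^ (j + 1)) (2 ^ ((j + 1) ^ 2 + 5 * (j + 1)) * η) F α (M, γ)).card : ℝ) ≤
        2 ^ (2 * j + 8) * (2 * (C * 5 ^ (j + 1)) + 1) * (P : ℝ) ^ (j + 1) ∧
      ∀ e ∈ EX (2 * (C * 3 ^ j) + 1) P (2 ^ (j ^ 2 + 5 * j) * η * P / (P : ℝ) ^ j) V M, e ∉ N →
        ∃ γ ∈ Γ, nz ((e.1.1 : ℝ) * γ - e.1.2.2) ≤ 2 ^ (j + 5) * (2 ^ (j ^ 2 + 5 * j) * η) / (P : ℝ) ^ j ∧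
          nz ((e.2.1 : ℝ) * γ - e.2.2.2) ≤ 2 ^ (j + 5) * (2 ^ (j ^ 2 + 5 * j) * η) / (P : ℝ) ^ j := by
  obtain ⟨hC, hB1, hB2, hB3, hB4, hB5, hε, hε1, hη, hPB, hηP⟩ := hPar
  have hB : 1 ≤ B := le_trans (one_le_pow₀ (by norm_num)) hB5
  have hB0 : 0 < B := by linarith
  have hC0 : 0 < C := by linarith
  have hPR : B ^ 54 < P := by
    have h1 : ε ^ 8 * (P : ℝ) ≤ P := by
      have h2 : ε ^ 8 ≤ 1 := pow_le_one₀ hε.le hε1
      nlinarith [Nat.cast_nonneg (α := ℝ) P]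
    have h3 : 0 < B ^ 54 := by positivity
    linarith
  have hBP : B < P := lt_of_le_of_lt (le_self_pow₀ hB (by norm_num)) hPR
  have hP1 : (1 : ℝ) ≤ P := by linarith
  have hP0 : (0 : ℝ) < P := by linarith
  have hPj : (0 : ℝ) < (P : ℝ) ^ j := by positivity
  have hPj1 : (1 : ℝ) ≤ (P : ℝ) ^ j := one_le_pow₀ hP1
  have hjl : j + 1 ≤ ℓ := hj
  -- powers of 2
  obtain ⟨X, hX⟩ : ∃ X : ℝ, X = 2 ^ (j ^ 2 + 5 * j) := ⟨_, rfl⟩
  have hX0 : 0 < X := by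
    rw [hX]
    positivity
  have hX1 : (2 : ℝ) ^ ((j + 1) ^ 2 + 5 * (j + 1)) = 2 ^ (2 * j + 6) * X := by
    rw [hX, ← pow_add]
    congr 1
    ring
  have hXl : 2 ^ (2 * j + 6) * X ≤ 2 ^ (ℓ ^ 2 + 5 * ℓ) := by
    rw [← hX1]
    refine pow_le_pow_right₀ (by norm_num) ?_
    have h1 : (j + 1) ^ 2 ≤ ℓ ^ 2 := Nat.pow_le_pow_left hjl 2
    omega
  have hXP : 1024 * (2 ^ (2 * j + 6) * X) * η * (P : ℝ) ^ 3 ≤ 1 := by
    refine le_trans ?_ hηP
    have h1 : (1024 : ℝ) * (2 ^ (2 * j + 6) * X) ≤ 2 ^ (ℓ ^ 2 + 5 * ℓ + 10) := by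
      rw [pow_add _ (ℓ ^ 2 + 5 * ℓ) 10]
      nlinarith
    have h2 : 0 ≤ η * (P : ℝ) ^ 3 := by positivity
    nlinarith [mul_le_mul_of_nonneg_right h1 h2]
  have hjpow : (1 : ℝ) ≤ 2 ^ (2 * j + 6) := one_le_pow₀ (by norm_num)
  have hj5 : (1 : ℝ) ≤ 5 ^ j := one_le_pow₀ (by norm_num)
  have hj3 : (3 : ℝ) ^ j ≤ 5 ^ j := pow_le_pow_left₀ (by norm_num) (by norm_num) j
  have hj30 : (0 : ℝ) < 3 ^ j := by positivity
  have hC5 : 1 ≤ C * 5 ^ j := by nlinarith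
  have hC3 : C * 3 ^ j ≤ C * 5 ^ j := mul_le_mul_of_nonneg_left hj3 hC0.le
  have hC30 : 0 < C * 3 ^ j := by positivity
  have h5l : C * 5 ^ (j + 1) ≤ C * 5 ^ ℓ :=
    mul_le_mul_of_nonneg_left (pow_le_pow_right₀ (by norm_num) hjl) hC0.le
  have h5s : C * 5 ^ (j + 1) = 5 * (C * 5 ^ j) := by
    rw [pow_succ]
    ring
  have hL : 2 * (C * 5 ^ (j + 1)) + 1 ≤ B := by
    refine le_trans ?_ hB1
    nlinarith
  have h2c : 2 * (2 * (C * 3 ^ j) + 1) + 1 ≤ B := by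
    refine le_trans ?_ hL
    rw [h5s]
    nlinarith
  have hjB : ((j : ℝ) + 1) ≤ B := by
    refine le_trans ?_ hB5
    have h1 : ((j + 1 : ℕ) : ℝ) ≤ ((2 ^ (2 * ℓ + 8) : ℕ) : ℝ) := by
      have h2 : j + 1 ≤ 2 ^ (2 * ℓ + 8) := by
        have h3 : j + 1 < 2 ^ (j + 1) := Nat.lt_two_pow_self
        have h4 : 2 ^ (j + 1) ≤ 2 ^ (2 * ℓ + 8) := Nat.pow_le_pow_right (by norm_num) (by omega)
        omega
      exact_mod_cast h2
    push_cast at h1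
    exact h1
  have hτ1 : (2 * (P : ℝ)) ^ j = 2 ^ j * (P : ℝ) ^ j := mul_pow _ _ _
  have hmain := nodes P j M (2 * (C * 3 ^ j) + 1) (C * 5 ^ j) (C * 5 ^ (j + 1)) (X * η) (2 ^ (2 * j + 6) * X * η)
    (X * η * P / (P : ℝ) ^ j) (2 ^ (j + 3) * X * η / (P : ℝ) ^ (j + 1)) (2 ^ (j + 5) * (X * η) / (P : ℝ) ^ j)
    (ε / B ^ 5) (ε ^ 2 / (2 * B ^ 11)) (B ^ 7 / ε) (B ^ 8 / ε) (2 ^ (j + 6)) F α V
    (by
      have h1 : ((2 ^ (j + 1) : ℕ) : ℝ) < P := by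
        push_cast
        refine lt_of_le_of_lt ?_ hBP
        refine le_trans ?_ hB5
        exact pow_le_pow_right₀ (by norm_num) (by omega)
      exact_mod_cast h1)
    (by linarith) (by linarith) (by positivity) (by positivity)
    (by
      have h1 : 100 * (X * η * P / (P : ℝ) ^ j) * (P : ℝ) ^ 2 ≤ 100 * (X * η * P) * (P : ℝ) ^ 2 := by
        have h2 : X * η * P / (P : ℝ) ^ j ≤ X * η * P := div_le_self (by positivity) hPj1
        have h3 : 0 ≤ (P : ℝ) ^ 2 := by positivity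
        nlinarith [mul_le_mul_of_nonneg_right h2 h3]
      refine h1.trans (le_trans ?_ hXP)
      have h4 : 0 ≤ X * η * (P : ℝ) ^ 3 := by positivity
      nlinarith [mul_le_mul_of_nonneg_right hjpow h4])
    (by positivity) (by positivity) (by positivity)
    (by
      rw [le_div_iff₀ hε, one_mul]
      exact hε1.trans (one_le_pow₀ hB))
    (by
      rw [hX]
      exact hV) hmult
    (by
      have h1 : (2 * (2 * (C * 3 ^ j) + 1) + 1) * (B ^ 7 / ε) ≤ B * (B ^ 7 / ε) :=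
        mul_le_mul_of_nonneg_right h2c (by positivity)
      refine h1.trans (le_of_eq ?_)
      field_simp)
    (by
      have h1 : (B ^ 8 / ε) ^ 2 = (B ^ 16 * (2 * B ^ 22)) / (ε ^ 2 * (2 * B ^ 22)) := by
        field_simp
      have h2 : 2 * (ε ^ 2 / (2 * B ^ 11)) ^ 2 * (P : ℝ) = (ε ^ 6 * P) / (ε ^ 2 * (2 * B ^ 22)) := by
        field_simp
      rw [h1, h2]
      refine div_lt_div_of_pos_right ?_ (by positivity)
      have h3 : ε ^ 8 * (P : ℝ) ≤ ε ^ 6 * P :=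
        mul_le_mul_of_nonneg_right (pow_le_pow_of_le_one hε.le hε1 (by norm_num)) hP0.le
      have h4 : B ^ 38 ≤ B ^ 54 := pow_le_pow_right₀ hB (by norm_num)
      have h5 : B ^ 16 * (2 * B ^ 22) = 2 * B ^ 38 := by ring
      rw [h5]
      have h6 : 0 < B ^ 38 := by positivity
      linarith)
    (by
      rw [h5s]
      linarith)
    (by
      have e1 : (2 * (P : ℝ)) ^ j * (2 * (X * η * P / (P : ℝ) ^ j) / P) + X * η = (2 ^ (j + 1) + 1) * (X * η) := by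
        rw [hτ1, pow_succ]
        field_simp
      rw [e1, mul_assoc (2 ^ (2 * j + 6)) X η]
      refine mul_le_mul_of_nonneg_right ?_ (by positivity)
      have h1 : (2 : ℝ) ^ (2 * j + 6) = 2 ^ (j + 5) * 2 ^ (j + 1) := by
        rw [← pow_add]
        congr 1
        omega
      rw [h1]
      have h2 : (2 : ℝ) ≤ 2 ^ (j + 5) := by
        calc (2 : ℝ) = 2 ^ 1 := by norm_num
          _ ≤ 2 ^ (j + 5) := pow_le_pow_right₀ (by norm_num) (by omega)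
      have h3 : (1 : ℝ) ≤ 2 ^ (j + 1) := one_le_pow₀ (by norm_num)
      nlinarith)
    (by
      have h1 : (P : ℝ) ≤ (P : ℝ) ^ 3 := le_self_pow₀ hP1 (by norm_num)
      have h2 : 0 ≤ 2 ^ (2 * j + 6) * X * η := by positivity
      have h3 : 40 * (2 ^ (2 * j + 6) * X * η) * P ≤ 40 * (2 ^ (2 * j + 6) * X * η) * (P : ℝ) ^ 3 :=
        mul_le_mul_of_nonneg_left h1 (by positivity)
      refine h3.trans (le_trans ?_ hXP)
      have h4 : 0 ≤ (2 ^ (2 * j + 6) * X * η) * (P : ℝ) ^ 3 := by positivity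
      nlinarith)
    (by
      have e1 : 2 * (X * η * P / (P : ℝ) ^ j) / P + 2 * P * (2 ^ (j + 3) * X * η / (P : ℝ) ^ (j + 1)) =
          (2 + 2 ^ (j + 4)) * (X * η) / (P : ℝ) ^ j := by
        rw [pow_succ (P : ℝ) j, pow_succ (2 : ℝ) (j + 3)]
        field_simp
      rw [e1]
      refine div_le_div_of_nonneg_right ?_ hPj.le
      refine mul_le_mul_of_nonneg_right ?_ (by positivity)
      rw [pow_succ (2 : ℝ) (j + 4)]
      have h2 : (2 : ℝ) ≤ 2 ^ (j + 4) := by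
        calc (2 : ℝ) = 2 ^ 1 := by norm_num
          _ ≤ 2 ^ (j + 4) := pow_le_pow_right₀ (by norm_num) (by omega)
      linarith)
    (by
      have e1 : 4 * (2 ^ (2 * j + 6) * X * η) / ((P : ℝ) ^ (j + 1) * (2 ^ (j + 3) * X * η / (P : ℝ) ^ (j + 1))) =
          2 ^ (j + 5) := by
        have h1 : (P : ℝ) ^ (j + 1) * (2 ^ (j + 3) * X * η / (P : ℝ) ^ (j + 1)) = 2 ^ (j + 3) * X * η := by
          field_simp
        rw [h1, div_eq_iff (by positivity)]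
        have h2 : (4 : ℝ) * 2 ^ (2 * j + 6) = 2 ^ (j + 5) * 2 ^ (j + 3) := by
          rw [← pow_add]
          have : j + 5 + (j + 3) = 2 * j + 6 + 2 := by omega
          rw [this, pow_add]
          norm_num
          ring
        calc 4 * (2 ^ (2 * j + 6) * X * η) = (4 * 2 ^ (2 * j + 6)) * (X * η) := by ring
          _ = (2 ^ (j + 5) * 2 ^ (j + 3)) * (X * η) := by rw [h2]
          _ = 2 ^ (j + 5) * (2 ^ (j + 3) * X * η) := by ring
      rw [e1, pow_succ (2 : ℝ) (j + 5)]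
      have h3 : (1 : ℝ) ≤ 2 ^ (j + 5) := one_le_pow₀ (by norm_num)
      linarith)
    (by
      have h1 := NodesP_big B ε P (2 * (C * 5 ^ (j + 1)) + 1) (2 ^ (j + 1))
        (((j : ℝ) + 1) * (2 * (2 * (C * 3 ^ j) + 1) + 1)) hB hε hP0 hPB ((P : ℝ) ^ j) hPj
        (by positivity) hL (by positivity)
        (by
          refine le_trans ?_ hB5
          rw [← pow_mul]
          exact pow_le_pow_right₀ (by norm_num) (by omega))
        (by positivity)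
        (by
          rw [pow_two]
          exact mul_le_mul hjB h2c (by positivity) hB0.le)
      have e1 : (2 * (P : ℝ)) ^ (j + 1) = 2 ^ (j + 1) * (P * (P : ℝ) ^ j) := by
        rw [mul_pow, pow_succ (P : ℝ) j, mul_comm ((P : ℝ) ^ j) (P : ℝ)]
      rw [e1]
      exact h1)
  obtain ⟨Γ, N, hN, hsum, hE⟩ := hmain
  refine ⟨Γ, N, ?_, ?_, ?_⟩
  · refine hN.trans (le_of_eq ?_)
    field_simp
  · rw [hX1]
    refine hsum.trans (le_of_eq ?_)
    rw [mul_pow]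
    have h1 : (2 : ℝ) ^ (2 * j + 8) = 2 * 2 ^ (j + 6) * 2 ^ (j + 1) := by
      have : 2 * j + 8 = 1 + (j + 6) + (j + 1) := by omega
      rw [this, pow_add, pow_add, pow_one]
    rw [h1]
    ring
  · rw [← hX]
    exact hE

end Pool.Agent.H74.MDX

end
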