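import Pool.Agent.H43.PM.M12
import Pool.Agent.H43.PM.M17
import Pool.Agent.H43.PM.M31

/-! The parts of this file: H74.MDX.Step, H74.MDX.Combx. -/

section

/-!
# MDX Step: one level up

Proof.  `step_edge` gives `M w`; `nodesP` (for every `M`) gives `Γ M`, `N M` (`choose`).  `Ms = Icc 1 ⌊4^(j+1) C n⌋₊` (at most `4^(j+1) C n` elements; `M w ∈ Ms` since
`M w ≥ n/C > 0`).  Let `e w = ((ql w, c (Lw w)), (pf w, c (Rw w)))`.  For `w ∈ Om R F (j+1)` with `Lw w, Rw w ∈ G`, `e w ∉ N (M w)` choose `γ w ∈ Γ (M w)` and put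
`c' w = (M w, γ w)`.  `V' = {(M, γ) : M ∈ Ms, M ≥ n/C, γ ∈ Γ M, ε/B^5 P^(j+1) ≤ |DS P (j+1) .. (M, γ)|}`,
`G' = {w ∈ Om R F (j+1) : Lw w ∈ G, Rw w ∈ G, e w ∉ N (M w), c' w ∈ V'}`.
* `mult`: `|V'_M| ε/B^5 P^(j+1) ≤ ∑_γ |DS| ≤ 2^(2j+8) (2 C 5^(j+1) + 1) P^(j+1) ≤ B^2 P^(j+1)`.
* `mem0`, `mem1`: `step_mem`.
* `link` for `w ∈ Om R F (j+2)` with `Lw w, Rw w ∈ G'`: `(G0, g) = c (Rw (Lw w)) = c (Lw (Rw w))` (`LR_comm`), an element of `V`: `rng`; `EX` membership of `e (Lw w)` (its second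
  vertex, `mem_VX`) and of `e (Rw w)` (first vertex) give `|G0 pf w - M (Lw w) P| ≤ (2 C 3^j + 1) P ≤ C 3^(j+1) P`, `|G0 ql w - M (Rw w) P| ≤ ..`; the frequencies:
  `2^(j+5) X η/P^j ≤ 2^(2j+6) X η P/P^(j+1)`.
* `exc`: a walk `w ∈ Om R F (j+1)`, `w ∉ G'`, satisfies `Lw w ∉ G`, or `Rw w ∉ G`, or `e w ∈ N (M w)`, or `|DS (c' w)| < ε/B^5 P^(j+1)`.
  First two: `ext_L`, `ext_R` with `S = (Om R F j).filter (∉ G)` (`Lw_mem`, `Rw_mem`): `≤ 2 (2C+1)^2 P^2 (4(2C+1)^2)^j ε n P^(2j)`.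
  Third: `cntN` with `D = C 5^j`, `B1 = ε/B^3 P^2`: `≤ 4^(j+1) C n · ε/B^3 P^2 · (2C+1)^(2j+2) (2 C 5^j + 1) P^(2j) ≤ ε n P^(2j+2)`.
  Fourth: `cntA` (level `j+1`) with `y = ε/B^5 P^(j+1)`, `T = 2^(2j+8) (2 C 5^(j+1) + 1) P^(j+1)`: `≤ (2C+1)^(2j+2) ((j+1)!)^2 4^(j+1) C n y T ≤ B · B · B · B · B · ε/B^5 n P^(2j+2)`.
  Sum: `2 (2C+1)^2 (4(2C+1)^2)^j ε + 2 ε ≤ (4(2C+1)^2)^(j+1) ε`.
-/

set_option autoImplicit false

namespace Pool.Agent.H74.MDX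

open Finset
open Pool.Agent.H53.MID (nz Rel Desc)

/-- the numerical facts used in the step -/
private theorem Step_num (C B ε η : ℝ) (ℓ P j : ℕ) (hPar : Par C ℓ P B ε η) (hj : j < ℓ) :
    1 ≤ B ∧ 1 ≤ P ∧ 4 ^ (j + 1) * C ≤ B ∧ (2 * C + 1) ^ (2 * j + 2) ≤ B ∧ 2 * (C * 5 ^ j) + 1 ≤ B ∧
      2 * (C * 5 ^ (j + 1)) + 1 ≤ B ∧ (2 : ℝ) ^ (2 * j + 8) ≤ B ∧ (((j + 1).factorial : ℝ)) ^ 2 ≤ B := by
  have hC := hPar.hC
  have h5 : (1 : ℝ) ≤ 5 ^ ℓ := one_le_pow₀ (by norm_num)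
  have hB1 : 1 ≤ B := by
    have := hPar.hB1
    nlinarith
  have hP1 : 1 ≤ P := by
    by_contra h
    have hP0 : P = 0 := by omega
    have h1 := hPar.hP
    rw [hP0, Nat.cast_zero, mul_zero] at h1
    have h2 : (1 : ℝ) ≤ B ^ 54 := one_le_pow₀ hB1
    linarith
  refine ⟨hB1, hP1, ?_, ?_, ?_, ?_, ?_, ?_⟩
  · refine le_trans ?_ hPar.hB2
    exact mul_le_mul_of_nonneg_right (pow_le_pow_right₀ (by norm_num) hj) (by linarith)
  · refine le_trans ?_ hPar.hB3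
    exact pow_le_pow_right₀ (by linarith) (by omega)
  · refine le_trans ?_ hPar.hB1
    have h : (5 : ℝ) ^ j ≤ 5 ^ ℓ := pow_le_pow_right₀ (by norm_num) hj.le
    nlinarith
  · refine le_trans ?_ hPar.hB1
    have h : (5 : ℝ) ^ (j + 1) ≤ 5 ^ ℓ := pow_le_pow_right₀ (by norm_num) hj
    nlinarith
  · refine le_trans ?_ hPar.hB5
    exact pow_le_pow_right₀ (by norm_num) (by omega)
  · refine le_trans ?_ hPar.hB4
    have h : (j + 1).factorial ≤ ℓ.factorial := Nat.factorial_le hj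
    exact pow_le_pow_left₀ (Nat.cast_nonneg _) (by exact_mod_cast h) 2

open Classical in
private theorem Step_mult (T W m0 : ℝ) (hm0 : 0 < m0) (K : ℕ) (V : Finset (ℕ × ℝ)) (Γ : Finset ℝ) (f : ℕ × ℝ → ℝ)
    (hf0 : ∀ v, 0 ≤ f v) (hV : ∀ v ∈ V, v.1 = K → v.2 ∈ Γ) (hVf : ∀ v ∈ V, m0 ≤ f v)
    (hT : ∑ γ ∈ Γ, f (K, γ) ≤ T) (hW : T ≤ W * m0) : ((V.filter (fun v => v.1 = K)).card : ℝ) ≤ W := by
  have h1 : ((V.filter (fun v => v.1 = K)).card : ℝ) * m0 ≤ ∑ v ∈ V.filter (fun v => v.1 = K), f v := by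
    rw [← nsmul_eq_mul]
    refine Finset.card_nsmul_le_sum _ _ _ (fun v hv => ?_)
    exact hVf v (Finset.mem_filter.1 hv).1
  have h2 : ∑ v ∈ V.filter (fun v => v.1 = K), f v ≤ ∑ γ ∈ Γ, f (K, γ) := by
    have h3 : ∑ v ∈ V.filter (fun v => v.1 = K), f v =
        ∑ γ ∈ (V.filter (fun v => v.1 = K)).image (fun v => v.2), f (K, γ) := by
      rw [Finset.sum_image]
      · refine Finset.sum_congr rfl (fun v hv => ?_)
        have := (Finset.mem_filter.1 hv).2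
        rw [← this]
      · intro v hv v' hv' h
        have e1 := (Finset.mem_filter.1 (Finset.mem_coe.1 hv)).2
        have e2 := (Finset.mem_filter.1 (Finset.mem_coe.1 hv')).2
        exact Prod.ext (e1.trans e2.symm) h
    rw [h3]
    refine Finset.sum_le_sum_of_subset_of_nonneg ?_ (fun _ _ _ => hf0 _)
    intro γ hγ
    obtain ⟨v, hv, rfl⟩ := Finset.mem_image.1 hγ
    exact hV v (Finset.mem_filter.1 hv).1 (Finset.mem_filter.1 hv).2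
  have h4 : ((V.filter (fun v => v.1 = K)).card : ℝ) * m0 ≤ W * m0 := (h1.trans h2).trans (hT.trans hW)
  exact le_of_mul_le_mul_right h4 hm0

theorem lvl_step (C B ε η : ℝ) (ℓ n P j : ℕ) (F : Finset ℕ) (α : ℕ → ℝ) (R : Finset (ℕ × ℕ × ℕ))
    (hPar : Par C ℓ P B ε η) (hj : j < ℓ) (hn : 1 ≤ n) (hM : Mul (2 * C + 1) P R) (V : Finset (ℕ × ℝ))
    (G : Finset (Wk j)) (c : Wk j → ℕ × ℝ) (hL : Lvl C B ε η n P F α R j V G c) :
    ∃ (V' : Finset (ℕ × ℝ)) (G' : Finset (Wk (j + 1))) (c' : Wk (j + 1) → ℕ × ℝ),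
      Lvl C B ε η n P F α R (j + 1) V' G' c' := by
  classical
  obtain ⟨hB1, hP1, hBa, hBb, hBc, hBd, hBe, hBf⟩ := Step_num C B ε η ℓ P j hPar hj
  have hC := hPar.hC
  have hε := hPar.hε
  have hη := hPar.hη
  have hB0 : 0 < B := by linarith
  have hC0 : 0 < C := by linarith
  have hP0 : (0 : ℝ) < P := by exact_mod_cast hP1
  have hn0 : (0 : ℝ) < n := by exact_mod_cast hn
  obtain ⟨M, hMw⟩ := step_edge C B ε η n P j F α R hC hM V G c hL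
  choose Γ N hN hΓ hEN using fun M : ℕ => nodesP C B ε η ℓ P j M F α V hPar hj hL.desc hL.mult
  set Ms : Finset ℕ := Finset.Icc 1 ⌊4 ^ (j + 1) * C * (n : ℝ)⌋₊ with hMs
  have hMsc : (Ms.card : ℝ) ≤ B * n := by
    rw [hMs, Nat.card_Icc, Nat.add_sub_cancel]
    refine (Nat.floor_le (by positivity)).trans ?_
    exact mul_le_mul_of_nonneg_right hBa hn0.le
  set e : Wk (j + 1) → (ℕ × ℕ × ℝ) × (ℕ × ℕ × ℝ) := fun w => ((ql w, c (Lw w)), (pf w, c (Rw w))) with he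
  have hMmem : ∀ w ∈ Om R F (j + 1), Lw w ∈ G → Rw w ∈ G → M w ∈ Ms := by
    intro w hw h1 h2
    obtain ⟨a1, a2, -⟩ := hMw w hw h1 h2
    rw [hMs, Finset.mem_Icc]
    refine ⟨?_, Nat.le_floor a2⟩
    have : (0 : ℝ) < M w := lt_of_lt_of_le (by positivity) a1
    exact_mod_cast this
  -- the frequencies
  have hγ : ∀ w : Wk (j + 1), ∃ γ : ℝ, w ∈ Om R F (j + 1) → Lw w ∈ G → Rw w ∈ G → e w ∉ N (M w) →
      γ ∈ Γ (M w) ∧ nz (((e w).1.1 : ℝ) * γ - (e w).1.2.2) ≤ 2 ^ (j + 5) * (2 ^ (j ^ 2 + 5 * j) * η) / (P : ℝ) ^ j ∧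
          nz (((e w).2.1 : ℝ) * γ - (e w).2.2.2) ≤ 2 ^ (j + 5) * (2 ^ (j ^ 2 + 5 * j) * η) / (P : ℝ) ^ j := by
    intro w
    by_cases h : w ∈ Om R F (j + 1) ∧ Lw w ∈ G ∧ Rw w ∈ G ∧ e w ∉ N (M w)
    · obtain ⟨h0, h1, h2, h3⟩ := h
      obtain ⟨γ, g1, g2, g3⟩ := hEN (M w) (e w) (hMw w h0 h1 h2).2.2 h3
      exact ⟨γ, fun _ _ _ _ => ⟨g1, g2, g3⟩⟩
    · exact ⟨0, fun a b c d => absurd ⟨a, b, c, d⟩ h⟩
  choose γ hγ using hγ
  set DD : ℕ × ℝ → Finset (ℕ × ℕ) := fun v =>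
    DS P (j + 1) (C * 5 ^ (j + 1)) (2 ^ ((j + 1) ^ 2 + 5 * (j + 1)) * η) F α v with hDD
  set V' : Finset (ℕ × ℝ) := (Ms ×ˢ (Ms.biUnion Γ)).filter (fun v => (n : ℝ) / C ≤ v.1 ∧ v.2 ∈ Γ v.1 ∧
    ε / B ^ 5 * (P : ℝ) ^ (j + 1) ≤ ((DD v).card : ℝ)) with hV'
  set c' : Wk (j + 1) → ℕ × ℝ := fun w => (M w, γ w) with hc'
  set G' : Finset (Wk (j + 1)) := (Om R F (j + 1)).filter (fun w => Lw w ∈ G ∧ Rw w ∈ G ∧ e w ∉ N (M w) ∧
    c' w ∈ V') with hG'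
  have hm0 : 0 < ε / B ^ 5 * (P : ℝ) ^ (j + 1) := by positivity
  have hV'mem : ∀ v, v ∈ V' ↔ v.1 ∈ Ms ∧ (n : ℝ) / C ≤ v.1 ∧ v.2 ∈ Γ v.1 ∧
      ε / B ^ 5 * (P : ℝ) ^ (j + 1) ≤ ((DD v).card : ℝ) := by
    intro v
    rw [hV', Finset.mem_filter, Finset.mem_product]
    constructor
    · rintro ⟨⟨h1, -⟩, h2⟩
      exact ⟨h1, h2⟩
    · rintro ⟨h1, h2⟩
      exact ⟨⟨h1, Finset.mem_biUnion.2 ⟨v.1, h1, h2.2.1⟩⟩, h2⟩
  have hG'mem : ∀ w, w ∈ G' ↔ w ∈ Om R F (j + 1) ∧ Lw w ∈ G ∧ Rw w ∈ G ∧ e w ∉ N (M w) ∧ c' w ∈ V' := by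
    intro w
    rw [hG', Finset.mem_filter]
  have hT : ∀ K : ℕ, ∑ γ ∈ Γ K, ((DD (K, γ)).card : ℝ) ≤ B ^ 2 * (P : ℝ) ^ (j + 1) := by
    intro K
    refine (hΓ K).trans ?_
    refine mul_le_mul_of_nonneg_right ?_ (by positivity)
    rw [sq]
    exact mul_le_mul hBe hBd (by positivity) hB0.le
  refine ⟨V', G', c', ?_, ?_, ?_, ?_, ?_, ?_, ?_, ?_, ?_⟩
  · -- sub
    rw [hG']
    exact Finset.filter_subset _ _
  · -- col
    intro w hw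
    exact ((hG'mem w).1 hw).2.2.2.2
  · -- rng
    intro v hv
    obtain ⟨h1, h2, -, -⟩ := (hV'mem v).1 hv
    refine ⟨h2, ?_⟩
    rw [hMs, Finset.mem_Icc] at h1
    exact (Nat.le_floor_iff (by positivity)).1 h1.2
  · -- mult
    intro K
    refine Step_mult (B ^ 2 * (P : ℝ) ^ (j + 1)) (B ^ 7 / ε) (ε / B ^ 5 * (P : ℝ) ^ (j + 1)) hm0 K V' (Γ K)
      (fun v => ((DD v).card : ℝ)) (fun _ => Nat.cast_nonneg _) ?_ ?_ (hT K) ?_
    · intro v hv hK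
      rw [← hK]
      exact ((hV'mem v).1 hv).2.2.1
    · intro v hv
      exact ((hV'mem v).1 hv).2.2.2
    · refine le_of_eq ?_
      field_simp
  · -- desc
    intro v hv
    exact ((hV'mem v).1 hv).2.2.2
  · -- mem0
    intro w hw
    obtain ⟨h0, h1, h2, h3, h4⟩ := (hG'mem w).1 hw
    obtain ⟨g1, g2, g3⟩ := hγ w h0 h1 h2 h3
    exact (step_mem C B ε η n P j F α R hC hη hM V G c hL w h1 h2 (M w) (hMw w h0 h1 h2).2.2 (γ w) g2 g3).1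
  · -- mem1
    intro w hw
    obtain ⟨h0, h1, h2, h3, h4⟩ := (hG'mem w).1 hw
    obtain ⟨g1, g2, g3⟩ := hγ w h0 h1 h2 h3
    exact (step_mem C B ε η n P j F α R hC hη hM V G c hL w h1 h2 (M w) (hMw w h0 h1 h2).2.2 (γ w) g2 g3).2
  · -- link
    intro w hw hl hr
    obtain ⟨l0, l1, l2, l3, l4⟩ := (hG'mem (Lw w)).1 hl
    obtain ⟨r0, r1, r2, r3, r4⟩ := (hG'mem (Rw w)).1 hr
    obtain ⟨lg1, lg2, lg3⟩ := hγ (Lw w) l0 l1 l2 l3
    obtain ⟨rg1, rg2, rg3⟩ := hγ (Rw w) r0 r1 r2 r3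
    have lE := (hMw (Lw w) l0 l1 l2).2.2
    have rE := (hMw (Rw w) r0 r1 r2).2.2
    rw [mem_EX, mem_VX, mem_VX] at lE rE
    have l5 := lE.2.1.2.2.2
    have r5 := rE.1.2.2.2
    have hcV := hL.col _ l2
    obtain ⟨q1, q2⟩ := hL.rng _ hcV
    have hpos : (2 * (C * 3 ^ j) + 1) * (P : ℝ) ≤ C * 3 ^ (j + 1) * P := by
      refine mul_le_mul_of_nonneg_right ?_ hP0.le
      have h3 : (1 : ℝ) ≤ 3 ^ j := one_le_pow₀ (by norm_num)
      have h4 : 1 ≤ C * 3 ^ j := by nlinarith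
      rw [pow_succ]
      linarith
    have hfr : 2 ^ (j + 5) * (2 ^ (j ^ 2 + 5 * j) * η) / (P : ℝ) ^ j ≤
        2 ^ ((j + 1) ^ 2 + 5 * (j + 1)) * η * P / (P : ℝ) ^ (j + 1) := by
      have e1 : 2 ^ ((j + 1) ^ 2 + 5 * (j + 1)) * η * P / (P : ℝ) ^ (j + 1) =
          2 ^ ((j + 1) ^ 2 + 5 * (j + 1)) * η / (P : ℝ) ^ j := by
        rw [pow_succ (P : ℝ) j]
        field_simp
      rw [e1]
      refine div_le_div_of_nonneg_right ?_ (by positivity)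
      rw [← mul_assoc, ← pow_add]
      refine mul_le_mul_of_nonneg_right ?_ hη.le
      refine pow_le_pow_right₀ (by norm_num) ?_
      nlinarith
    refine ⟨(c (Rw (Lw w))).1, (c (Rw (Lw w))).2, q1, ?_, ?_, ?_, ?_, ?_⟩
    · refine q2.trans ?_
      refine mul_le_mul_of_nonneg_right (mul_le_mul_of_nonneg_right ?_ hC0.le) hn0.le
      exact pow_le_pow_right₀ (by norm_num) (Nat.le_succ j)
    · exact l5.trans hpos
    · exact r5.trans hpos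
    · exact lg3.trans hfr
    · exact rg2.trans hfr
  · -- exc
    set S0 : Finset (Wk j) := (Om R F j).filter (fun w => w ∉ G) with hS0
    set S3 : Finset (Wk (j + 1)) := (Om R F (j + 1)).filter (fun w => Lw w ∈ G ∧ Rw w ∈ G ∧ e w ∈ N (M w)) with hS3
    set S4 : Finset (Wk (j + 1)) := (Om R F (j + 1)).filter (fun w => Lw w ∈ G ∧ Rw w ∈ G ∧ e w ∉ N (M w) ∧
      c' w ∉ V') with hS4
    have hsub : (Om R F (j + 1)).filter (fun w => w ∉ G') ⊆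
        ((((Om R F (j + 1)).filter (fun w => Lw w ∈ S0)) ∪ ((Om R F (j + 1)).filter (fun w => Rw w ∈ S0))) ∪ S3) ∪ S4 := by
      intro w hw
      obtain ⟨h0, h1⟩ := Finset.mem_filter.1 hw
      rw [hG'mem] at h1
      by_cases a1 : Lw w ∈ G
      · by_cases a2 : Rw w ∈ G
        · by_cases a3 : e w ∈ N (M w)
          · exact Finset.mem_union_left _ (Finset.mem_union_right _ (Finset.mem_filter.2 ⟨h0, a1, a2, a3⟩))
          · refine Finset.mem_union_right _ (Finset.mem_filter.2 ⟨h0, a1, a2, a3, ?_⟩)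
            intro a4
            exact h1 ⟨h0, a1, a2, a3, a4⟩
        · exact Finset.mem_union_left _ (Finset.mem_union_left _ (Finset.mem_union_right _
            (Finset.mem_filter.2 ⟨h0, Finset.mem_filter.2 ⟨Rw_mem h0, a2⟩⟩)))
      · exact Finset.mem_union_left _ (Finset.mem_union_left _ (Finset.mem_union_left _
            (Finset.mem_filter.2 ⟨h0, Finset.mem_filter.2 ⟨Lw_mem h0, a1⟩⟩)))
    have hcard : (((Om R F (j + 1)).filter (fun w => w ∉ G')).card : ℝ) ≤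
        (((Om R F (j + 1)).filter (fun w => Lw w ∈ S0)).card : ℝ) +
          (((Om R F (j + 1)).filter (fun w => Rw w ∈ S0)).card : ℝ) + (S3.card : ℝ) + (S4.card : ℝ) := by
      have b1 := Finset.card_le_card hsub
      have b2 := Finset.card_union_le ((((Om R F (j + 1)).filter (fun w => Lw w ∈ S0)) ∪
        ((Om R F (j + 1)).filter (fun w => Rw w ∈ S0))) ∪ S3) S4
      have b3 := Finset.card_union_le (((Om R F (j + 1)).filter (fun w => Lw w ∈ S0)) ∪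
        ((Om R F (j + 1)).filter (fun w => Rw w ∈ S0))) S3
      have b4 := Finset.card_union_le ((Om R F (j + 1)).filter (fun w => Lw w ∈ S0))
        ((Om R F (j + 1)).filter (fun w => Rw w ∈ S0))
      have b5 := b1.trans (b2.trans (Nat.add_le_add_right (b3.trans (Nat.add_le_add_right b4 _)) _))
      exact_mod_cast b5
    have hL0 := ext_L R F (2 * C + 1) P j hM S0
    have hR0 := ext_R R F (2 * C + 1) P j hM S0
    have hexc := hL.exc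
    -- third set
    have hc3 : (S3.card : ℝ) ≤ ε * n * (P : ℝ) ^ (2 * (j + 1)) := by
      have h := cntN R F (2 * C + 1) P j hM (C * 5 ^ j) (ε / B ^ 3 * (P : ℝ) ^ 2) (by positivity) (by positivity) S3
        (Finset.filter_subset _ _) Ms M (fun w hw => by
          obtain ⟨h0, h1, h2, h3⟩ := Finset.mem_filter.1 hw
          exact hMmem w h0 h1 h2) N (fun x _ => hN x) e (fun w hw => (Finset.mem_filter.1 hw).2.2.2)
        (fun w _ => ⟨rfl, rfl⟩) (fun w hw => by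
          obtain ⟨h0, h1, h2, h3⟩ := Finset.mem_filter.1 hw
          exact (mem_DS.1 (hL.mem0 (Lw w) h1)).2.2.2.2.1)
      refine h.trans ?_
      have k1 : (2 * C + 1) ^ (2 * j + 2) * (2 * (C * 5 ^ j) + 1) ≤ B * B :=
        mul_le_mul hBb hBc (by positivity) hB0.le
      calc (Ms.card : ℝ) * (ε / B ^ 3 * (P : ℝ) ^ 2 * ((2 * C + 1) ^ (2 * j + 2) * (2 * (C * 5 ^ j) + 1) * (P : ℝ) ^ (2 * j)))
          ≤ (B * n) * (ε / B ^ 3 * (P : ℝ) ^ 2 * ((B * B) * (P : ℝ) ^ (2 * j))) := by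
            refine mul_le_mul hMsc ?_ (by positivity) (by positivity)
            refine mul_le_mul_of_nonneg_left ?_ (by positivity)
            exact mul_le_mul_of_nonneg_right k1 (by positivity)
        _ = ε * n * (P : ℝ) ^ (2 * (j + 1)) := by
            rw [show 2 * (j + 1) = 2 * j + 2 by ring, pow_add]
            field_simp
    -- fourth set
    have hc4 : (S4.card : ℝ) ≤ ε * n * (P : ℝ) ^ (2 * (j + 1)) := by
      have h := cntA R F α (2 * C + 1) P (j + 1) hM (C * 5 ^ (j + 1)) (2 ^ ((j + 1) ^ 2 + 5 * (j + 1)) * η)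
        (ε / B ^ 5 * (P : ℝ) ^ (j + 1)) (B ^ 2 * (P : ℝ) ^ (j + 1)) (by positivity) S4
        (Finset.filter_subset _ _) Ms Γ c' (fun w hw => by
          obtain ⟨h0, h1, h2, h3, h4⟩ := Finset.mem_filter.1 hw
          exact ⟨hMmem w h0 h1 h2, (hγ w h0 h1 h2 h3).1⟩) (fun w hw => by
          obtain ⟨h0, h1, h2, h3, h4⟩ := Finset.mem_filter.1 hw
          obtain ⟨g1, g2, g3⟩ := hγ w h0 h1 h2 h3
          exact (step_mem C B ε η n P j F α R hC hη hM V G c hL w h1 h2 (M w) (hMw w h0 h1 h2).2.2 (γ w) g2 g3).1)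
        (fun w hw => by
          obtain ⟨h0, h1, h2, h3, h4⟩ := Finset.mem_filter.1 hw
          obtain ⟨g1, g2, g3⟩ := hγ w h0 h1 h2 h3
          exact (step_mem C B ε η n P j F α R hC hη hM V G c hL w h1 h2 (M w) (hMw w h0 h1 h2).2.2 (γ w) g2 g3).2)
        (fun w hw => by
          obtain ⟨h0, h1, h2, h3, h4⟩ := Finset.mem_filter.1 hw
          obtain ⟨g1, g2, g3⟩ := hγ w h0 h1 h2 h3
          by_contra hlt
          refine h4 ((hV'mem _).2 ⟨hMmem w h0 h1 h2, (hMw w h0 h1 h2).1, g1, ?_⟩)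
          exact (not_le.1 hlt).le) (fun K _ => hT K)
      refine h.trans ?_
      have k1 : (2 * C + 1) ^ (2 * (j + 1)) * (((j + 1).factorial : ℝ)) ^ 2 ≤ B * B := by
        rw [show 2 * (j + 1) = 2 * j + 2 by ring]
        exact mul_le_mul hBb hBf (by positivity) hB0.le
      calc (2 * C + 1) ^ (2 * (j + 1)) * (((j + 1).factorial : ℝ)) ^ 2 * (Ms.card : ℝ) *
            (ε / B ^ 5 * (P : ℝ) ^ (j + 1)) * (B ^ 2 * (P : ℝ) ^ (j + 1))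
          ≤ (B * B) * (B * n) * (ε / B ^ 5 * (P : ℝ) ^ (j + 1)) * (B ^ 2 * (P : ℝ) ^ (j + 1)) := by
            refine mul_le_mul_of_nonneg_right (mul_le_mul_of_nonneg_right ?_ (by positivity)) (by positivity)
            exact mul_le_mul k1 hMsc (by positivity) (by positivity)
        _ = ε * n * (P : ℝ) ^ (2 * (j + 1)) := by
            rw [show 2 * (j + 1) = (j + 1) + (j + 1) by ring, pow_add (P : ℝ) (j + 1) (j + 1)]
            field_simp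
    refine hcard.trans ?_
    have hκ : (3 : ℝ) ≤ 2 * C + 1 := by linarith
    set κ : ℝ := 2 * C + 1 with hκd
    have hK1 : (1 : ℝ) ≤ (4 * κ ^ 2) ^ j := one_le_pow₀ (by nlinarith)
    have hs : (κ * P) ^ 2 * (S0.card : ℝ) ≤ (κ * P) ^ 2 * ((4 * κ ^ 2) ^ j * ε * n * (P : ℝ) ^ (2 * j)) :=
      mul_le_mul_of_nonneg_left hexc (by positivity)
    have hQ : (0 : ℝ) ≤ ε * n * (P : ℝ) ^ (2 * (j + 1)) := by positivity
    have hfin : 2 * (κ ^ 2 * (4 * κ ^ 2) ^ j) + 2 ≤ (4 * κ ^ 2) ^ (j + 1) := by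
      have h9 : 1 ≤ κ ^ 2 * (4 * κ ^ 2) ^ j :=
        one_le_mul_of_one_le_of_one_le (one_le_pow₀ (by linarith)) hK1
      calc 2 * (κ ^ 2 * (4 * κ ^ 2) ^ j) + 2 ≤ 4 * (κ ^ 2 * (4 * κ ^ 2) ^ j) := by linarith
        _ = (4 * κ ^ 2) ^ (j + 1) := by rw [pow_succ]; ring
    have hfin2 := mul_le_mul_of_nonneg_right hfin hQ
    have e1 : (κ * P) ^ 2 * ((4 * κ ^ 2) ^ j * ε * n * (P : ℝ) ^ (2 * j)) =
        (κ ^ 2 * (4 * κ ^ 2) ^ j) * (ε * n * (P : ℝ) ^ (2 * (j + 1))) := by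
      rw [show 2 * (j + 1) = 2 * j + 2 by ring, pow_add]
      ring
    rw [e1] at hs
    have e2 : (4 * κ ^ 2) ^ (j + 1) * ε * n * (P : ℝ) ^ (2 * (j + 1)) =
        (4 * κ ^ 2) ^ (j + 1) * (ε * n * (P : ℝ) ^ (2 * (j + 1))) := by ring
    rw [e2]
    linarith

end Pool.Agent.H74.MDX

end

section

/-!
# MDX Combx: the combinatorial theorem with growing number of levels

Proof.  Put `κ0 = 2C+1`, `B = Bc C ℓ`, `ε = εc C δ ℓ`, `Dt = Dc C ℓ`, so `Zc C δ ℓ = 1000 B^54 Dt^12/ε^8 ≤ Q ≤ P`.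
(1) `clean` with `m = k = δP/(4C)` and `rel_card_le`: `S ⊆ R0` with `|S| ≥ δ n P/2` and all degrees `≥ δP/(4C)`.  `F = S.image fst`; `Rel C n P (η P) F G0 α β S`;
`|S| ≤ κ0 P |F|` (`rel_mul`: given `i, p` at most `κ0` triples), so `|F| ≥ δ n/(2κ0)`.
(2) `om_card` at `ℓ` with `m = δP/(4C)`, `2ℓκ0 ≤ δP/(8C)`: `|Om S F ℓ| ≥ δ n/(2κ0) (δP/(8C))^(2ℓ) = 2 (4κ0^2)^ℓ ε n P^(2ℓ)`.
(3) `Par C ℓ P B ε η`; `lvl0` and `lvl_step` (induction on `j ≤ ℓ`) give `Lvl .. ℓ V G c`; by `exc` and (2) `G` is not empty, so `V` has an element `v = c w`.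
(4) `topx` with `D = Dt`, `ρ = ε/B^5`, `J = ℓ`, `K = v.1`, `w = v.2`, `S = DS P ℓ (C 5^ℓ) (2^(ℓ^2+5ℓ) η) F α v` (`DS_desc`, monotone; `F0 := F`), `|S| ≥ ρ P^ℓ`.
All conclusions follow from `48 Dt^6 B^10/ε^2 ≤ Zc ≤ Q`, and the conditions `48 Dt^6 ≤ ρ P`, `48 Dt^6 η P^2 ≤ ρ` from `Q ≤ P`, `Q η P^3 ≤ 1`.
-/

set_option autoImplicit false

namespace Pool.Agent.H74.MDX

open Finset
open Pool.Agent.H53.MID (nz Rel Desc)

/-- elementary facts about the constants -/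
private theorem Combx_const (C δ : ℝ) (ℓ : ℕ) (hC : 1 ≤ C) (_hℓ : 1 ≤ ℓ) (hδ : 0 < δ) (hδ1 : δ ≤ 1) :
    (1 ≤ Bc C ℓ ∧ 2 * C * 5 ^ ℓ + 1 ≤ Bc C ℓ ∧ 4 ^ ℓ * C ≤ Bc C ℓ ∧ (2 * C + 1) ^ (2 * ℓ) ≤ Bc C ℓ ∧
      (ℓ.factorial : ℝ) ^ 2 ≤ Bc C ℓ ∧ (2 : ℝ) ^ (2 * ℓ + 8) ≤ Bc C ℓ) ∧
    (1 ≤ Dc C ℓ ∧ C * 5 ^ ℓ ≤ Dc C ℓ ∧ 4 ^ ℓ * C ≤ Dc C ℓ ∧ (2 : ℝ) ^ (ℓ ^ 2 + 5 * ℓ) ≤ Dc C ℓ) ∧
    (0 < εc C δ ℓ ∧ εc C δ ℓ ≤ 1 ∧ εc C δ ℓ ≤ δ) := by
  have hC0 : 0 < C := by linarith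
  have h5 : (1 : ℝ) ≤ 5 ^ ℓ := one_le_pow₀ (by norm_num)
  have h4 : (1 : ℝ) ≤ 4 ^ ℓ := one_le_pow₀ (by norm_num)
  have hk : (1 : ℝ) ≤ (2 * C + 1) ^ (2 * ℓ) := one_le_pow₀ (by linarith)
  have hf : (0 : ℝ) ≤ (ℓ.factorial : ℝ) ^ 2 := by positivity
  have h2 : (1 : ℝ) ≤ 2 ^ (2 * ℓ + 8) := one_le_pow₀ (by norm_num)
  have h2' : (1 : ℝ) ≤ 2 ^ (ℓ ^ 2 + 5 * ℓ) := one_le_pow₀ (by norm_num)
  have hC5 : 0 ≤ C * 5 ^ ℓ := by positivity
  have hC4 : 0 ≤ 4 ^ ℓ * C := by positivity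
  refine ⟨?_, ?_, ?_⟩
  · unfold Bc
    refine ⟨?_, ?_, ?_, ?_, ?_, ?_⟩ <;> linarith
  · unfold Dc
    refine ⟨?_, ?_, ?_, ?_⟩ <;> linarith
  · have e1 : (0 : ℝ) < (4 * (2 * C + 1) ^ 2) ^ ℓ := by positivity
    have e2 : 1 ≤ (4 * (2 * C + 1) ^ 2) ^ ℓ := one_le_pow₀ (by nlinarith)
    have e3 : δ / (8 * C) ≤ 1 := by
      rw [div_le_one (by positivity)]
      linarith
    have e4 : (δ / (8 * C)) ^ (2 * ℓ) ≤ 1 := pow_le_one₀ (by positivity) e3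
    have e5 : δ / (4 * (2 * C + 1)) ≤ δ := by
      apply div_le_self hδ.le
      linarith
    have e6 : εc C δ ℓ ≤ δ := by
      unfold εc
      rw [div_le_iff₀ e1]
      calc δ / (4 * (2 * C + 1)) * (δ / (8 * C)) ^ (2 * ℓ) ≤ δ * 1 :=
            mul_le_mul e5 e4 (by positivity) hδ.le
        _ ≤ δ * (4 * (2 * C + 1) ^ 2) ^ ℓ := mul_le_mul_of_nonneg_left e2 hδ.le
    refine ⟨?_, e6.trans hδ1, e6⟩
    unfold εc
    positivity

/-- a lower bound for `Z` -/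
private theorem Combx_Z (B D ε : ℝ) (hB : 1 ≤ B) (hD : 1 ≤ D) (hε : 0 < ε) (hε1 : ε ≤ 1) (a b c : ℕ) (ha : a ≤ 54)
    (hb : b ≤ 12) (hc : c ≤ 8) : 1000 * (B ^ a * D ^ b / ε ^ c) ≤ 1000 * B ^ 54 * D ^ 12 / ε ^ 8 := by
  have e1 : B ^ a ≤ B ^ 54 := pow_le_pow_right₀ hB ha
  have e2 : D ^ b ≤ D ^ 12 := pow_le_pow_right₀ hD hb
  have e3 : ε ^ 8 ≤ ε ^ c := pow_le_pow_of_le_one hε.le hε1 hc
  have e4 : B ^ a * D ^ b / ε ^ c ≤ B ^ 54 * D ^ 12 / ε ^ 8 := by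
    apply div_le_div₀ (by positivity) (mul_le_mul e1 e2 (by positivity) (by positivity)) (by positivity) e3
  calc 1000 * (B ^ a * D ^ b / ε ^ c) ≤ 1000 * (B ^ 54 * D ^ 12 / ε ^ 8) :=
        mul_le_mul_of_nonneg_left e4 (by norm_num)
    _ = 1000 * B ^ 54 * D ^ 12 / ε ^ 8 := by ring

private theorem Combx_P (C δ : ℝ) (ℓ : ℕ) (hC : 1 ≤ C) (hℓ : 1 ≤ ℓ) (hδ : 0 < δ) (hδ1 : δ ≤ 1) :
    1000 ≤ Zc C δ ℓ := by
  obtain ⟨⟨hB, -⟩, ⟨hD, -⟩, hε, hε1, -⟩ := Combx_const C δ ℓ hC hℓ hδ hδ1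
  have := Combx_Z _ _ _ hB hD hε hε1 0 0 0 (by norm_num) (by norm_num) (by norm_num)
  unfold Zc
  simpa using this

/-- the descendants are monotone in the set of the indices -/
private theorem Combx_mono (P j : ℕ) (D τ : ℝ) {F F' : Finset ℕ} (h : F ⊆ F') (α : ℕ → ℝ) (v : ℕ × ℝ) :
    DS P j D τ F α v ⊆ DS P j D τ F' α v := by
  intro t ht
  rw [mem_DS] at ht ⊢
  exact ⟨ht.1, ht.2.1, h ht.2.2.1, ht.2.2.2⟩

/-- a relation with few first coordinates is small -/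
private theorem Combx_first (κ : ℝ) (P : ℕ) (S : Finset (ℕ × ℕ × ℕ)) (h : Mul κ P S) :
    (S.card : ℝ) ≤ κ * P * ((S.image Prod.fst).card : ℝ) := by
  classical
  set T : Finset (ℕ × ℕ) := (S.image Prod.fst) ×ˢ (Ioc P (2 * P)) with hT
  have hmap : ∀ t ∈ S, (t.1, t.2.1) ∈ T := by
    intro t ht
    rw [hT, Finset.mem_product]
    refine ⟨Finset.mem_image_of_mem _ ht, ?_⟩
    rw [Finset.mem_Ioc]
    exact (h.prime t ht).2
  have h1 := Finset.card_eq_sum_card_fiberwise (f := fun t : ℕ × ℕ × ℕ => (t.1, t.2.1)) (s := S) (t := T) hmap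
  have h2 : (S.card : ℝ) = ∑ b ∈ T, ((S.filter fun t => (t.1, t.2.1) = b).card : ℝ) := by
    exact_mod_cast h1
  rw [h2]
  calc ∑ b ∈ T, ((S.filter fun t => (t.1, t.2.1) = b).card : ℝ) ≤ ∑ b ∈ T, κ := by
        refine Finset.sum_le_sum fun b _ => ?_
        have h3 := h.out b.1 b.2
        have h4 : (S.filter fun t => (t.1, t.2.1) = b) = S.filter fun t => t.1 = b.1 ∧ t.2.1 = b.2 := by
          refine Finset.filter_congr fun t _ => ?_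
          rw [Prod.ext_iff]
        rw [h4]
        exact h3
    _ = κ * P * ((S.image Prod.fst).card : ℝ) := by
        rw [Finset.sum_const, nsmul_eq_mul, hT, Finset.card_product, Nat.card_Ioc]
        have h5 : 2 * P - P = P := by omega
        rw [h5]
        push_cast
        ring

theorem combx_node (C : ℝ) (hC : 1 ≤ C) (n P ℓ : ℕ) (δ η Q : ℝ) (hn : 1 ≤ n) (hℓ : 1 ≤ ℓ) (hδ : 0 < δ) (hδ1 : δ ≤ 1)
    (hη : 0 < η) (hQ : Zc C δ ℓ ≤ Q) (hQP : Q ≤ P) (hQη : Q * η * (P : ℝ) ^ 3 ≤ 1) (F0 G0 : Finset ℕ) (α β : ℕ → ℝ)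
    (R0 : Finset (ℕ × ℕ × ℕ)) (hR : Rel C n P (η * P) F0 G0 α β R0) (hR0 : δ * n * P ≤ R0.card) :
    ∃ v : ℕ × ℝ, (n : ℝ) / C ≤ v.1 ∧ (v.1 : ℝ) ≤ 4 ^ ℓ * C * n ∧ εc C δ ℓ / Bc C ℓ ^ 5 * (P : ℝ) ^ ℓ ≤
      ((DS P ℓ (C * 5 ^ ℓ) (2 ^ (ℓ ^ 2 + 5 * ℓ) * η) F0 α v).card : ℝ) := by
  classical
  obtain ⟨⟨hB, hB1, hB2, hB3, hB4, hB5⟩, ⟨hD, -, -, hD3⟩, hε, hε1, hεδ⟩ := Combx_const C δ ℓ hC hℓ hδ hδ1
  have hZ1000 := Combx_P C δ ℓ hC hℓ hδ hδ1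
  have hPr : (1000 : ℝ) ≤ P := (hZ1000.trans hQ).trans hQP
  have hP0 : (0 : ℝ) < P := by linarith
  have hP1 : 1 ≤ P := by
    have : (0 : ℝ) < (P : ℝ) := hP0
    exact_mod_cast this
  have hC0 : 0 < C := by linarith
  have hn0 : (0 : ℝ) < n := by exact_mod_cast hn
  have hQ0 : 0 < Q := by linarith
  obtain ⟨B, hBdef⟩ : ∃ B, B = Bc C ℓ := ⟨_, rfl⟩
  obtain ⟨ε, hεdef⟩ : ∃ ε, ε = εc C δ ℓ := ⟨_, rfl⟩
  obtain ⟨Dt, hDdef⟩ : ∃ Dt, Dt = Dc C ℓ := ⟨_, rfl⟩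
  have hZdef : Zc C δ ℓ = 1000 * B ^ 54 * Dt ^ 12 / ε ^ 8 := by
    rw [hBdef, hεdef, hDdef]
    rfl
  rw [← hBdef] at hB hB1 hB2 hB3 hB4 hB5
  rw [← hεdef] at hε hε1 hεδ
  rw [← hDdef] at hD hD3
  rw [← hBdef, ← hεdef]
  have hB0 : 0 < B := by linarith
  have hZP : 1000 * B ^ 54 * Dt ^ 12 / ε ^ 8 ≤ P := by
    rw [← hZdef]
    exact hQ.trans hQP
  have hZQ : 1000 * B ^ 54 * Dt ^ 12 / ε ^ 8 ≤ Q := by
    rw [← hZdef]
    exact hQ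
  -- the cleaning
  set m : ℝ := δ * P / (4 * C) with hm
  have hm0 : 0 ≤ m := by positivity
  obtain ⟨hF0c, hG0c⟩ := rel_card_le C hC n P hn (η * P) F0 G0 α β R0 hR
  obtain ⟨S, hSR, hScard, hS1, hS2⟩ := clean R0 F0 G0 hR.memF hR.memF' m m hm0 hm0
  have hSlow : δ * n * P / 2 ≤ S.card := by
    have h1 : m * F0.card ≤ m * (C * n) := mul_le_mul_of_nonneg_left hF0c hm0
    have h2 : m * G0.card ≤ m * (C * n) := mul_le_mul_of_nonneg_left hG0c hm0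
    have h3 : m * (C * n) = δ * n * P / 4 := by
      rw [hm]
      field_simp
    linarith
  set F : Finset ℕ := S.image Prod.fst with hF
  have hFF0 : F ⊆ F0 := by
    intro i hi
    rw [hF, Finset.mem_image] at hi
    obtain ⟨t, ht, rfl⟩ := hi
    exact hR.memF t (hSR ht)
  have hRelS : Rel C n P (η * P) F G0 α β S :=
    { memF := fun t ht => by rw [hF]; exact Finset.mem_image_of_mem _ ht
      memF' := fun t ht => hR.memF' t (hSR ht)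
      prime := fun t ht => hR.prime t (hSR ht)
      pos := fun t ht => hR.pos t (hSR ht)
      freq := fun t ht => hR.freq t (hSR ht)
      rngF := fun K hK => hR.rngF K (hFF0 hK)
      rngF' := hR.rngF' }
  have hMul : Mul (2 * C + 1) P S := rel_mul C hC n P hP1 (η * P) F G0 α β S hRelS
  have hFlow : δ * n / (2 * (2 * C + 1)) ≤ F.card := by
    have h1 := Combx_first (2 * C + 1) P S hMul
    rw [← hF] at h1
    rw [div_le_iff₀ (by positivity)]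
    have h2 : δ * n * P ≤ (F.card : ℝ) * (2 * (2 * C + 1)) * P := by linarith
    exact le_of_mul_le_mul_right h2 hP0
  -- the number of walks
  have hmκ : 2 * ℓ * (2 * C + 1) ≤ δ * P / (8 * C) := by
    rw [le_div_iff₀ (by positivity)]
    have hℓ2 : (ℓ : ℝ) ≤ B := by
      have h1 : ℓ < 2 ^ ℓ := Nat.lt_two_pow_self
      have h2 : (ℓ : ℝ) ≤ 2 ^ ℓ := by exact_mod_cast h1.le
      have h3 : (2 : ℝ) ^ ℓ ≤ 2 ^ (2 * ℓ + 8) := pow_le_pow_right₀ (by norm_num) (by omega)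
      linarith
    have hCB : 2 * C + 1 ≤ B := by
      have h5 : (1 : ℝ) ≤ 5 ^ ℓ := one_le_pow₀ (by norm_num)
      have : 2 * C * 1 ≤ 2 * C * 5 ^ ℓ := mul_le_mul_of_nonneg_left h5 (by positivity)
      linarith
    have hz := Combx_Z B Dt ε hB hD hε hε1 3 0 1 (by norm_num) (by norm_num) (by norm_num)
    rw [pow_zero, mul_one, pow_one] at hz
    have hz2 : 1000 * (B ^ 3 / ε) ≤ P := hz.trans hZP
    have hz3 : 1000 * (B ^ 3 / ε) * ε = 1000 * B ^ 3 := by field_simp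
    have hz4 : 1000 * B ^ 3 ≤ P * ε := by
      have := mul_le_mul_of_nonneg_right hz2 hε.le
      rwa [hz3] at this
    have hz5 : (P : ℝ) * ε ≤ P * δ := mul_le_mul_of_nonneg_left hεδ hP0.le
    have hc1 : (ℓ : ℝ) * (2 * C + 1) ≤ B * B := mul_le_mul hℓ2 hCB (by positivity) hB0.le
    have hc2 : (ℓ : ℝ) * (2 * C + 1) * C ≤ B * B * B :=
      mul_le_mul hc1 (by linarith) hC0.le (by positivity)
    have hB3' : B * B * B = B ^ 3 := by ring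
    rw [hB3'] at hc2
    have hB30 : 0 < B ^ 3 := by positivity
    calc 2 * (ℓ : ℝ) * (2 * C + 1) * (8 * C) = 16 * ((ℓ : ℝ) * (2 * C + 1) * C) := by ring
      _ ≤ 16 * B ^ 3 := by linarith
      _ ≤ δ * P := by linarith
  have hmm : δ * P / (8 * C) ≤ m - 2 * ℓ * (2 * C + 1) := by
    have : m = δ * P / (8 * C) + δ * P / (8 * C) := by
      rw [hm]
      field_simp
      ring
    rw [this]
    linarith
  have hOm := om_card S F (2 * C + 1) m P ℓ hMul hRelS.memF (by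
      have h0 : 0 ≤ δ * P / (8 * C) := by positivity
      linarith) (by
      intro i hi
      rw [hF, Finset.mem_image] at hi
      obtain ⟨t, ht, rfl⟩ := hi
      exact hS1 t ht) hS2
  have hpow : (δ * P / (8 * C)) ^ (2 * ℓ) ≤ (m - 2 * ℓ * (2 * C + 1)) ^ (2 * ℓ) :=
    pow_le_pow_left₀ (by positivity) hmm _
  have hOm2 : 2 * ((4 * (2 * C + 1) ^ 2) ^ ℓ * ε * n * (P : ℝ) ^ (2 * ℓ)) ≤ (Om S F ℓ).card := by
    refine le_trans (le_of_eq ?_) ((mul_le_mul hFlow hpow (by positivity) (by positivity)).trans hOm)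
    rw [hεdef]
    unfold εc
    have hne : (4 * (2 * C + 1) ^ 2) ^ ℓ ≠ 0 := by positivity
    have e : δ * P / (8 * C) = (δ / (8 * C)) * P := by ring
    rw [e, mul_pow (δ / (8 * C)) (P : ℝ) (2 * ℓ)]
    generalize (δ / (8 * C)) ^ (2 * ℓ) = X
    generalize (4 * (2 * C + 1) ^ 2) ^ ℓ = Y at hne
    field_simp
    ring
  -- the levels
  have hPar : Par C ℓ P B ε η :=
    { hC := hC
      hB1 := hB1
      hB2 := hB2
      hB3 := hB3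
      hB4 := hB4
      hB5 := hB5
      hε := hε
      hε1 := hε1
      hη := hη
      hP := by
        have h1 : 1000 * B ^ 54 * Dt ^ 12 ≤ P * ε ^ 8 := by
          rwa [div_le_iff₀ (by positivity)] at hZP
        have h2 : (1 : ℝ) ≤ Dt ^ 12 := one_le_pow₀ hD
        have h3 : 1000 * B ^ 54 * 1 ≤ 1000 * B ^ 54 * Dt ^ 12 :=
          mul_le_mul_of_nonneg_left h2 (by positivity)
        have h4 : 0 < B ^ 54 := by positivity
        linarith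
      hηP := by
        have h1 : (2 : ℝ) ^ (ℓ ^ 2 + 5 * ℓ + 10) ≤ Q := by
          have hz := Combx_Z B Dt ε hB hD hε hε1 1 1 0 (by norm_num) (by norm_num) (by norm_num)
          rw [pow_one, pow_one, pow_zero, div_one] at hz
          have h2 : (2 : ℝ) ≤ B := by
            have : (2 : ℝ) ^ 1 ≤ 2 ^ (2 * ℓ + 8) := pow_le_pow_right₀ (by norm_num) (by omega)
            linarith
          rw [pow_add]
          calc (2 : ℝ) ^ (ℓ ^ 2 + 5 * ℓ) * 2 ^ 10 ≤ Dt * 2 ^ 10 :=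
                mul_le_mul_of_nonneg_right hD3 (by positivity)
            _ ≤ 1000 * (B * Dt) := by nlinarith
            _ ≤ Q := hz.trans hZQ
        have h2 : 0 ≤ η * (P : ℝ) ^ 3 := by positivity
        calc (2 : ℝ) ^ (ℓ ^ 2 + 5 * ℓ + 10) * η * (P : ℝ) ^ 3 = 2 ^ (ℓ ^ 2 + 5 * ℓ + 10) * (η * (P : ℝ) ^ 3) := by
              ring
          _ ≤ Q * (η * (P : ℝ) ^ 3) := mul_le_mul_of_nonneg_right h1 h2
          _ = Q * η * (P : ℝ) ^ 3 := by ring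
          _ ≤ 1 := hQη }
  have hlev : ∀ j : ℕ, j ≤ ℓ → ∃ (V : Finset (ℕ × ℝ)) (G : Finset (Wk j)) (c : Wk j → ℕ × ℝ),
      Lvl C B ε η n P F α S j V G c := by
    intro j
    induction j with
    | zero =>
      intro _
      exact lvl0 C B ε η ℓ n P F G0 α β S hPar hP1 hRelS
    | succ j ih =>
      intro hj
      obtain ⟨V, G, c, hL⟩ := ih (by omega)
      exact lvl_step C B ε η ℓ n P j F α S hPar (by omega) hn hMul V G c hL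
  obtain ⟨V, G, c, hL⟩ := hlev ℓ le_rfl
  have hpos : 0 < (4 * (2 * C + 1) ^ 2) ^ ℓ * ε * n * (P : ℝ) ^ (2 * ℓ) := by positivity
  have hex : ∃ w ∈ Om S F ℓ, w ∈ G := by
    by_contra hcon
    push Not at hcon
    have h1 : (Om S F ℓ).filter (fun w => w ∉ G) = Om S F ℓ := Finset.filter_true_of_mem hcon
    have h2 := hL.exc
    rw [h1] at h2
    linarith
  obtain ⟨w, -, hwG⟩ := hex
  have hv := hL.col w hwG
  obtain ⟨hr1, hr2⟩ := hL.rng _ hv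
  refine ⟨c w, hr1, hr2, (hL.desc _ hv).trans ?_⟩
  exact_mod_cast Finset.card_le_card (Combx_mono P ℓ _ _ hFF0 α (c w))

theorem combx (C : ℝ) (hC : 1 ≤ C) (n P ℓ : ℕ) (δ η Q : ℝ) (hn : 1 ≤ n) (hℓ : 1 ≤ ℓ) (hnP : (n : ℝ) * P ≤ (P : ℝ) ^ ℓ)
    (hnP2 : (P : ℝ) ^ ℓ ≤ n * (P : ℝ) ^ 2) (hδ : 0 < δ) (hδ1 : δ ≤ 1)
    (hη : 0 < η) (hQ : Zc C δ ℓ ≤ Q) (hQP : Q ≤ P) (hQη : Q * η * (P : ℝ) ^ 3 ≤ 1) (F0 G0 : Finset ℕ) (α β : ℕ → ℝ)
    (R0 : Finset (ℕ × ℕ × ℕ)) (hR : Rel C n P (η * P) F0 G0 α β R0) (hR0 : δ * n * P ≤ R0.card) :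
    ∃ (d b : ℕ) (T : ℝ) (F1 : Finset ℕ), 1 ≤ d ∧ (d : ℝ) ≤ Q ∧ |T| ≤ Q * η * (n : ℝ) ^ 2 ∧ F1 ⊆ F0 ∧
      (n : ℝ) ≤ Q * F1.card ∧ ∀ i ∈ F1, nz (α i - b / d - T / i) ≤ Q * η := by
  obtain ⟨v, hv1, hv2, hv3⟩ := combx_node C hC n P ℓ δ η Q hn hℓ hδ hδ1 hη hQ hQP hQη F0 G0 α β R0 hR hR0
  obtain ⟨⟨hB, -⟩, ⟨hD, hD1, hD2, hD3⟩, hε, hε1, -⟩ := Combx_const C δ ℓ hC hℓ hδ hδ1
  have hZ1000 := Combx_P C δ ℓ hC hℓ hδ hδ1
  have hPr : (1000 : ℝ) ≤ P := (hZ1000.trans hQ).trans hQP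
  have hP0 : (0 : ℝ) < P := by linarith
  have hP1 : 1 ≤ P := by
    have : (0 : ℝ) < (P : ℝ) := hP0
    exact_mod_cast this
  have hC0 : 0 < C := by linarith
  have hn0 : (0 : ℝ) < n := by exact_mod_cast hn
  have hQ0 : 0 < Q := by linarith
  obtain ⟨B, hBdef⟩ : ∃ B, B = Bc C ℓ := ⟨_, rfl⟩
  obtain ⟨ε, hεdef⟩ : ∃ ε, ε = εc C δ ℓ := ⟨_, rfl⟩
  obtain ⟨Dt, hDdef⟩ : ∃ Dt, Dt = Dc C ℓ := ⟨_, rfl⟩
  have hZdef : Zc C δ ℓ = 1000 * B ^ 54 * Dt ^ 12 / ε ^ 8 := by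
    rw [hBdef, hεdef, hDdef]
    rfl
  rw [← hBdef] at hB hv3
  rw [← hεdef] at hε hε1 hv3
  rw [← hDdef] at hD hD1 hD2 hD3
  have hB0 : 0 < B := by linarith
  have hD0 : 0 < Dt := by linarith
  have hZP : 1000 * B ^ 54 * Dt ^ 12 / ε ^ 8 ≤ P := by
    rw [← hZdef]
    exact hQ.trans hQP
  have hZQ : 1000 * B ^ 54 * Dt ^ 12 / ε ^ 8 ≤ Q := by
    rw [← hZdef]
    exact hQ
  have hCD : C ≤ Dt := by
    have h5 : (1 : ℝ) ≤ 5 ^ ℓ := one_le_pow₀ (by norm_num)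
    have : C * 1 ≤ C * 5 ^ ℓ := mul_le_mul_of_nonneg_left h5 hC0.le
    linarith
  have hnD : (n : ℝ) / Dt ≤ n / C := div_le_div_of_nonneg_left hn0.le hC0 hCD
  -- the constants
  set ρ : ℝ := ε / B ^ 5 with hρ
  have hρ0 : 0 < ρ := by positivity
  have hρ1 : ρ ≤ 1 := by
    rw [hρ, div_le_one (by positivity)]
    exact hε1.trans (one_le_pow₀ hB)
  have hρi : 1 / ρ = B ^ 5 / ε := by rw [hρ, one_div, inv_div]
  -- `48 D^6 / ρ ≤ Q`, `48 D^6 / ρ^2 ≤ Q`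
  have hX : 48 * Dt ^ 6 / ρ ≤ 1000 * B ^ 54 * Dt ^ 12 / ε ^ 8 := by
    have hz := Combx_Z B Dt ε hB hD hε hε1 5 6 1 (by norm_num) (by norm_num) (by norm_num)
    refine le_trans ?_ hz
    rw [pow_one]
    have h1 : 48 * Dt ^ 6 / ρ = 48 * (B ^ 5 * Dt ^ 6 / ε) := by
      rw [hρ]
      field_simp
    rw [h1]
    have h2 : 0 ≤ B ^ 5 * Dt ^ 6 / ε := by positivity
    linarith
  have hX2 : 48 * Dt ^ 6 / ρ ^ 2 ≤ 1000 * B ^ 54 * Dt ^ 12 / ε ^ 8 := by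
    have hz := Combx_Z B Dt ε hB hD hε hε1 10 6 2 (by norm_num) (by norm_num) (by norm_num)
    refine le_trans ?_ hz
    have h1 : 48 * Dt ^ 6 / ρ ^ 2 = 48 * (B ^ 10 * Dt ^ 6 / ε ^ 2) := by
      rw [hρ]
      field_simp
    rw [h1]
    have h2 : 0 ≤ B ^ 10 * Dt ^ 6 / ε ^ 2 := by positivity
    linarith
  have hXQ : 48 * Dt ^ 6 / ρ ≤ Q := hX.trans hZQ
  have hXQ' : 48 * Dt ^ 6 ≤ Q * ρ := by rwa [div_le_iff₀ hρ0] at hXQ
  have hXP' : 48 * Dt ^ 6 ≤ P * ρ := by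
    have := hX.trans hZP
    rwa [div_le_iff₀ hρ0] at this
  have hX2Q : 48 * Dt ^ 6 ≤ Q * ρ ^ 2 := by
    have := hX2.trans hZQ
    rwa [div_le_iff₀ (by positivity)] at this
  have hDesc : Desc P ℓ Dt (Dt * η) F0 α v.1 v.2 (DS P ℓ (C * 5 ^ ℓ) (2 ^ (ℓ ^ 2 + 5 * ℓ) * η) F0 α v) := by
    have h := DS_desc P ℓ (C * 5 ^ ℓ) (2 ^ (ℓ ^ 2 + 5 * ℓ) * η) F0 α v
    exact
      { mem := h.mem
        lo := h.lo
        hi := h.hi
        pos := fun t ht => (h.pos t ht).trans (mul_le_mul_of_nonneg_right hD1 (by positivity))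
        freq := fun t ht => (h.freq t ht).trans (mul_le_mul_of_nonneg_right hD3 hη.le) }
  obtain ⟨d, b, T, F1, hd1, hd2, hT, hF1, hF1c, hnz⟩ := topx Dt hD n P ℓ v.1 ρ η v.2 F0 α
    (DS P ℓ (C * 5 ^ ℓ) (2 ^ (ℓ ^ 2 + 5 * ℓ) * η) F0 α v) hn hP1 hρ0 hρ1 hη.le hnP hnP2
    (fun i hi => ⟨hnD.trans (hR.rngF i hi).1, (hR.rngF i hi).2.trans
      (mul_le_mul_of_nonneg_right hCD hn0.le)⟩)
    (hnD.trans hv1) (hv2.trans (mul_le_mul_of_nonneg_right hD2 hn0.le))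
    (by linarith)
    (by
      have h1 : 48 * Dt ^ 6 * η * (P : ℝ) ^ 2 ≤ Q * ρ * (η * (P : ℝ) ^ 2) := by
        have := mul_le_mul_of_nonneg_right hXQ' (show 0 ≤ η * (P : ℝ) ^ 2 by positivity)
        linarith
      have h2 : Q * (η * (P : ℝ) ^ 2) ≤ 1 := by
        have h3 : (P : ℝ) ^ 2 ≤ (P : ℝ) ^ 3 := pow_le_pow_right₀ (by linarith) (by norm_num)
        have h4 : Q * (η * (P : ℝ) ^ 2) ≤ Q * (η * (P : ℝ) ^ 3) :=
          mul_le_mul_of_nonneg_left (mul_le_mul_of_nonneg_left h3 hη.le) hQ0.le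
        linarith
      have h3 : Q * ρ * (η * (P : ℝ) ^ 2) ≤ ρ := by
        have := mul_le_mul_of_nonneg_left h2 hρ0.le
        linarith
      exact h1.trans h3)
    hDesc hv3
  refine ⟨d, b, T, F1, hd1, ?_, ?_, hF1, ?_, fun i hi => ?_⟩
  · have h1 : (d : ℝ) * ρ ≤ Q * ρ := hd2.trans hXQ'
    exact le_of_mul_le_mul_right h1 hρ0
  · have h1 : |T| * ρ ≤ (Q * η * (n : ℝ) ^ 2) * ρ := by
      refine hT.trans ?_
      have := mul_le_mul_of_nonneg_right hXQ' (show 0 ≤ η * (n : ℝ) ^ 2 by positivity)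
      linarith
    exact le_of_mul_le_mul_right h1 hρ0
  · have h1 : (n : ℝ) * ρ ^ 2 ≤ (Q * F1.card) * ρ ^ 2 := by
      have := mul_le_mul_of_nonneg_right hX2Q (show (0 : ℝ) ≤ F1.card by positivity)
      linarith
    exact le_of_mul_le_mul_right h1 (by positivity)
  · have h1 : nz (α i - b / d - T / i) * ρ ≤ (Q * η) * ρ := by
      refine (hnz i hi).trans ?_
      have := mul_le_mul_of_nonneg_right hXQ' hη.le
      linarith
    exact le_of_mul_le_mul_right h1 hρ0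

end Pool.Agent.H74.MDX

end
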