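import Pool.Agent.H43.PM.M03
import Pool.Agent.H43.PM.M30

/-! The parts of this file: H80.LV.TyII, H80.LV.Pre. -/

section

/-!
# LV TyII: the type II sum

Proof.  `q = ⌈L^{2K+40}⌉₊` (`2q ≤ x^{1/8} ≤ U`, `q ≤ y`), `box_dec y U q` with `lam = Lam`, `cc = cV U`.
For `j < J` the box sum is `boxb` (`K5 = K + 2(2K + 44)`) with `v0 = v j`, `v1 = v (j+1) ≤ 2 y ≤ x^2`, `N = y / v (j+1)` (`N v1 ≤ y ≤ x`):
each `∫_B |.|^2 ≤ x^2/L^{K5}`; `J ≤ 4 q L + 1 ≤ L^{2K+43}`; Cauchy: `∫ |∑_{j<J}|^2 ≤ J ∑_j ∫ ≤ J^2 x^2/L^{K5} ≤ x^2/L^{K+2}`.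
`errb` for the rest: `x^2 L^{14}/q^{1/2} ≤ x^2 L^{14 - K - 20}`.  `|a + b|^2 ≤ 2|a|^2 + 2|b|^2`.  `η` = the least of the two.
(If `y < U` the sum is empty; but `U^4 ≤ x`, `x^{1/2} ≤ y` exclude this.)  `K'` is the one of `boxb`.
-/

set_option autoImplicit false

namespace Pool.Agent.H80.LV

open Finset MeasureTheory
open Pool.Agent.H91.PK (ee cV)
open Pool.Agent.H91.EHA (Lam)

theorem TyII_cont (α : ℝ) (n : ℕ) : Continuous (fun t : ℝ => gE α t n) := by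
  unfold gE ee
  fun_prop

theorem TyII_int (F : ℝ → ℂ) (hF : Continuous F) (B : Set ℝ) (Y : ℝ)
    (hY : ∀ t ∈ B, |t| ≤ Y) : IntegrableOn (fun t => ‖F t‖ ^ 2) B := by
  have h1 : IntegrableOn (fun t => ‖F t‖ ^ 2) (Set.Icc (-Y) Y) :=
    (hF.norm.pow 2).continuousOn.integrableOn_compact isCompact_Icc
  exact h1.mono_set fun t ht => abs_le.1 (hY t ht)

/-- the box sum as a function of `t` -/
noncomputable def TyII_box (U N v0 v1 : ℕ) (α t : ℝ) : ℂ :=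
  ∑ m ∈ Ioc v0 v1, ((Lam m : ℝ) : ℂ) * ∑ n ∈ Ioc U N, ((cV U n : ℝ) : ℂ) * gE α t (m * n)

theorem TyII_box_cont (U N v0 v1 : ℕ) (α : ℝ) : Continuous (fun t => TyII_box U N v0 v1 α t) := by
  unfold TyII_box
  refine continuous_finsetSum _ fun m _ => continuous_const.mul ?_
  exact continuous_finsetSum _ fun n _ => continuous_const.mul (TyII_cont α _)

/-- Cauchy for a sum of `J` functions -/
theorem TyII_cauchy (B : Set ℝ) (hB : MeasurableSet B) (J : ℕ) (F : ℕ → ℝ → ℂ)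
    (hF : ∀ j, Continuous (F j)) (Y : ℝ) (hY : ∀ t ∈ B, |t| ≤ Y) (C : ℝ)
    (hC : ∀ j ∈ range J, ∫ t in B, ‖F j t‖ ^ 2 ≤ C) :
    ∫ t in B, ‖∑ j ∈ range J, F j t‖ ^ 2 ≤ (J : ℝ) ^ 2 * C := by
  have h1 : ∫ t in B, ‖∑ j ∈ range J, F j t‖ ^ 2 ≤ ∫ t in B, (J : ℝ) * ∑ j ∈ range J, ‖F j t‖ ^ 2 := by
    refine setIntegral_mono_on ?_ ?_ hB ?_
    · exact TyII_int _ (continuous_finsetSum _ fun j _ => hF j) B Y hY
    · refine Integrable.const_mul ?_ _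
      exact integrable_finsetSum _ fun j _ => TyII_int _ (hF j) B Y hY
    · intro t _
      have h2 : ‖∑ j ∈ range J, F j t‖ ≤ ∑ j ∈ range J, ‖F j t‖ := norm_sum_le _ _
      have h3 := sq_sum_le_card_mul_sum_sq (s := range J) (f := fun j => ‖F j t‖)
      rw [card_range] at h3
      exact (pow_le_pow_left₀ (norm_nonneg _) h2 2).trans h3
  refine h1.trans ?_
  rw [integral_const_mul, integral_finsetSum _ fun j _ => TyII_int _ (hF j) B Y hY]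
  have h4 : ∑ j ∈ range J, ∫ t in B, ‖F j t‖ ^ 2 ≤ (J : ℝ) * C := by
    calc ∑ j ∈ range J, ∫ t in B, ‖F j t‖ ^ 2 ≤ ∑ j ∈ range J, C := sum_le_sum hC
      _ = (J : ℝ) * C := by rw [sum_const, card_range, nsmul_eq_mul]
  calc (J : ℝ) * ∑ j ∈ range J, ∫ t in B, ‖F j t‖ ^ 2 ≤ J * (J * C) :=
        mul_le_mul_of_nonneg_left h4 (Nat.cast_nonneg _)
    _ = (J : ℝ) ^ 2 * C := by ring

theorem TyII_two (B : Set ℝ) (hB : MeasurableSet B) (F G H : ℝ → ℂ) (hF : Continuous F)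
    (hG : Continuous G) (hFG : ∀ t, H t = F t + G t) (Y : ℝ) (hY : ∀ t ∈ B, |t| ≤ Y) :
    ∫ t in B, ‖H t‖ ^ 2 ≤ 2 * (∫ t in B, ‖F t‖ ^ 2) + 2 * (∫ t in B, ‖G t‖ ^ 2) := by
  have i1 : IntegrableOn (fun t => 2 * ‖F t‖ ^ 2) B := (TyII_int F hF B Y hY).const_mul 2
  have i2 : IntegrableOn (fun t => 2 * ‖G t‖ ^ 2) B := (TyII_int G hG B Y hY).const_mul 2
  have h1 : ∫ t in B, ‖H t‖ ^ 2 ≤ ∫ t in B, (2 * ‖F t‖ ^ 2 + 2 * ‖G t‖ ^ 2) := by
    refine setIntegral_mono_on ?_ (i1.add i2) hB ?_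
    · have : H = fun t => F t + G t := funext hFG
      rw [this]
      exact TyII_int _ (hF.add hG) B Y hY
    · intro t _
      rw [hFG]
      have h2 := norm_add_le (F t) (G t)
      have h3 : ‖F t + G t‖ ^ 2 ≤ (‖F t‖ + ‖G t‖) ^ 2 := pow_le_pow_left₀ (norm_nonneg _) h2 2
      nlinarith [sq_nonneg (‖F t‖ - ‖G t‖)]
  refine h1.trans (le_of_eq ?_)
  have k : ∫ t in B, (2 * ‖F t‖ ^ 2 + 2 * ‖G t‖ ^ 2)
      = (∫ t in B, 2 * ‖F t‖ ^ 2) + ∫ t in B, 2 * ‖G t‖ ^ 2 := integral_add i1 i2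
  rw [k, integral_const_mul, integral_const_mul]

theorem tyII (hVK : VK) : ∃ η : ℝ, 0 < η ∧ η ≤ 1 ∧ ∀ K A : ℕ, ∃ K' x0 : ℕ, ∀ x : ℕ, x0 ≤ x →
    ∀ (U y d : ℕ) (c : ℤ) (B : Set ℝ), 1 ≤ d → (d : ℝ) ≤ Real.log x ^ A →
      (x : ℝ) ^ (1 / 8 : ℝ) ≤ U → U ^ 4 ≤ x → (x : ℝ) ^ (1 / 2 : ℝ) ≤ y → y ≤ x →
      MeasurableSet B → (∀ t ∈ B, Real.log x ^ K' ≤ |t| ∧ |t| ≤ (x : ℝ) ^ (2 : ℕ)) →
      volume.real B ≤ (x : ℝ) ^ η →
      ∫ t in B, ‖∑ m ∈ Ioc U y, ((Lam m : ℝ) : ℂ) *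
          ∑ n ∈ Ioc U (y / m), ((cV U n : ℝ) : ℂ) * gE ((c : ℝ) / d) t (m * n)‖ ^ 2
        ≤ (x : ℝ) ^ 2 / Real.log x ^ K := by
  obtain ⟨η1, h1a, h1b, H1⟩ := boxb hVK
  obtain ⟨η2, h2a, h2b, x2, H2⟩ := errb
  have he1 : min η1 η2 ≤ η1 := min_le_left _ _
  have he2 : min η1 η2 ≤ η2 := min_le_right _ _
  refine ⟨min η1 η2, by positivity, by linarith, fun K A => ?_⟩
  generalize min η1 η2 = η at he1 he2
  obtain ⟨K', x1, H1⟩ := H1 (K + 2 * (2 * K + 44)) A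
  obtain ⟨x3, H3⟩ := log_ge 100
  obtain ⟨x4, H4⟩ := log_pow_le (1 / 8) 4 (by norm_num) (by norm_num) (2 * K + 40)
  refine ⟨K', x1 + x2 + x3 + x4 + 2, ?_⟩
  intro x hx U y d c B hd hdA hU hU4 hy hyx hB hBT hv
  have hL : 100 ≤ Real.log x := H3 x (by omega)
  have H4' := H4 x (by omega)
  have H1' := H1 x (by omega)
  have H2' := H2 x (by omega)
  set L := Real.log x with hLdef
  have hL0 : 0 < L := by linarith
  have hL1 : 1 ≤ L := by linarith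
  have hxN : 2 ≤ x := by omega
  have hx1 : (1 : ℝ) ≤ (x : ℝ) := by exact_mod_cast (by omega : 1 ≤ x)
  have hx0 : (0 : ℝ) < (x : ℝ) := by linarith
  have hLp : ∀ k : ℕ, 1 ≤ L ^ k := fun k => one_le_pow₀ hL1
  have hBx : ∀ t ∈ B, |t| ≤ (x : ℝ) ^ (2 : ℕ) := fun t ht => (hBT t ht).2
  have hv1 : volume.real B ≤ (x : ℝ) ^ η1 :=
    hv.trans (Real.rpow_le_rpow_of_exponent_le hx1 he1)
  have hv2 : volume.real B ≤ (x : ℝ) ^ η2 :=
    hv.trans (Real.rpow_le_rpow_of_exponent_le hx1 he2)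
  set α : ℝ := (c : ℝ) / d with hα
  -- the parameter q
  set Q : ℝ := L ^ (2 * K + 40) with hQ
  have hQ1 : 1 ≤ Q := hLp _
  set q := ⌈Q⌉₊ with hq
  have hq1 : Q ≤ (q : ℝ) := Nat.le_ceil _
  have hq2 : (q : ℝ) ≤ 2 * Q := by
    have := Nat.ceil_lt_add_one (show 0 ≤ Q by linarith)
    linarith
  have hqpos : 1 ≤ q := by
    have : (1 : ℝ) ≤ (q : ℝ) := by linarith
    exact_mod_cast this
  have hqU : 2 * q ≤ U := by
    have h1 : ((2 * q : ℕ) : ℝ) ≤ (U : ℝ) := by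
      push_cast
      linarith
    exact_mod_cast h1
  have hUpos : 1 ≤ U := by omega
  have hUy : U ≤ y := by
    have h1 : (U : ℝ) ^ 2 ≤ (x : ℝ) ^ (1 / 2 : ℝ) := by
      have h2 : ((U : ℝ) ^ 2) ^ 2 ≤ (x : ℝ) := by
        have h3 : ((U ^ 4 : ℕ) : ℝ) ≤ (x : ℝ) := by exact_mod_cast hU4
        push_cast at h3
        calc ((U : ℝ) ^ 2) ^ 2 = (U : ℝ) ^ 4 := by ring
          _ ≤ (x : ℝ) := h3
      have h4 : ((x : ℝ) ^ (1 / 2 : ℝ)) ^ 2 = x := by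
        rw [← Real.rpow_natCast, ← Real.rpow_mul hx0.le]
        norm_num
      have h5 : 0 ≤ (x : ℝ) ^ (1 / 2 : ℝ) := Real.rpow_nonneg hx0.le _
      rw [← h4] at h2
      exact le_of_sq_le_sq h2 h5
    have h6 : (U : ℝ) ≤ (U : ℝ) ^ 2 := by
      have : (1 : ℝ) ≤ (U : ℝ) := by exact_mod_cast hUpos
      nlinarith
    have h7 : (U : ℝ) ≤ (y : ℝ) := by linarith
    exact_mod_cast h7
  have hqy : q ≤ y := by omega
  obtain ⟨J, v, e, hJ, hvU, hvlt, hvy, he, he0, hid⟩ :=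
    box_dec y U q hqpos hqU hUy Lam (cV U)
  -- the number of boxes
  have hJL : (J : ℝ) ≤ L ^ (2 * K + 42) := by
    have hy1 : (1 : ℝ) ≤ (y : ℝ) := by exact_mod_cast (by omega : 1 ≤ y)
    have h1 : Real.log y ≤ L := Real.log_le_log (by linarith) (by exact_mod_cast hyx)
    have h0 : 0 ≤ Real.log (y : ℝ) := Real.log_nonneg hy1
    have h2 : 4 * (q : ℝ) * Real.log y ≤ 4 * (2 * Q) * L := by gcongr
    have h3 : L ^ (2 * K + 42) = Q * L * L := by rw [hQ]; ring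
    have h4 : 1 ≤ Q * L := one_le_mul_of_one_le_of_one_le hQ1 hL1
    rw [h3]
    nlinarith
  have hJ0 : (0 : ℝ) ≤ (J : ℝ) := Nat.cast_nonneg _
  -- the boxes
  have hbox : ∀ j ∈ range J, ∫ t in B, ‖TyII_box U (y / v (j + 1)) (v j) (v (j + 1)) α t‖ ^ 2
      ≤ (x : ℝ) ^ 2 / L ^ (K + 2 * (2 * K + 44)) := by
    intro j hj
    rw [mem_range] at hj
    have h1 := hvy j hj
    refine H1' U (y / v (j + 1)) (v j) (v (j + 1)) d c B hd hdA hU (hvU j) (hvlt j).le ?_ ?_ hB hBT hv1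
    · calc v (j + 1) ≤ 2 * y := h1
        _ ≤ x * x := Nat.mul_le_mul hxN hyx
        _ = x ^ 2 := by ring
    · exact (Nat.div_mul_le_self _ _).trans hyx
  have hA := TyII_cauchy B hB J (fun j t => TyII_box U (y / v (j + 1)) (v j) (v (j + 1)) α t)
    (fun j => TyII_box_cont _ _ _ _ _) _ hBx _ hbox
  have hE := H2' U y q e α B hy hyx hqpos hqy he he0 hB (fun t ht => abs_le.1 (hBx t ht)) hv2
  have hH : ∀ t : ℝ, ∑ m ∈ Ioc U y, ((Lam m : ℝ) : ℂ) *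
          ∑ n ∈ Ioc U (y / m), ((cV U n : ℝ) : ℂ) * gE α t (m * n)
      = ∑ j ∈ range J, TyII_box U (y / v (j + 1)) (v j) (v (j + 1)) α t
        + ∑ k ∈ Icc 1 y, ((e k : ℝ) : ℂ) * gE α t k := by
    intro t
    rw [hid (fun k => gE α t k)]
    rfl
  have hfin := TyII_two B hB (fun t => ∑ j ∈ range J, TyII_box U (y / v (j + 1)) (v j) (v (j + 1)) α t)
    (fun t => ∑ k ∈ Icc 1 y, ((e k : ℝ) : ℂ) * gE α t k) _
    (continuous_finsetSum _ fun j _ => TyII_box_cont _ _ _ _ _)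
    (continuous_finsetSum _ fun k _ => continuous_const.mul (TyII_cont α k)) hH _ hBx
  refine hfin.trans ?_
  have hA2 : ∫ t in B, ‖∑ j ∈ range J, TyII_box U (y / v (j + 1)) (v j) (v (j + 1)) α t‖ ^ 2
      ≤ (x : ℝ) ^ 2 / L ^ (K + 4) := by
    refine hA.trans ?_
    have h1 : (J : ℝ) ^ 2 ≤ L ^ (4 * K + 84) := by
      calc (J : ℝ) ^ 2 ≤ (L ^ (2 * K + 42)) ^ 2 := pow_le_pow_left₀ hJ0 hJL 2
        _ = L ^ (4 * K + 84) := by rw [← pow_mul]; congr 1; ring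
    calc (J : ℝ) ^ 2 * ((x : ℝ) ^ 2 / L ^ (K + 2 * (2 * K + 44)))
        ≤ L ^ (4 * K + 84) * ((x : ℝ) ^ 2 / L ^ (K + 2 * (2 * K + 44))) :=
          mul_le_mul_of_nonneg_right h1 (by positivity)
      _ = (x : ℝ) ^ 2 / L ^ (K + 4) := by
          have h2 : L ^ (K + 2 * (2 * K + 44)) = L ^ (4 * K + 84) * L ^ (K + 4) := by
            rw [← pow_add]; congr 1; ring
          rw [h2]
          field_simp
  have hE2 : ∫ t in B, ‖∑ k ∈ Icc 1 y, ((e k : ℝ) : ℂ) * gE α t k‖ ^ 2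
      ≤ (x : ℝ) ^ 2 / L ^ (K + 4) := by
    refine hE.trans ?_
    have h1 : L ^ (K + 20) ≤ Real.sqrt q := by
      apply Real.le_sqrt_of_sq_le
      calc (L ^ (K + 20)) ^ 2 = Q := by rw [hQ, ← pow_mul]; congr 1; ring
        _ ≤ q := hq1
    calc (x : ℝ) ^ 2 * L ^ 14 / Real.sqrt q ≤ (x : ℝ) ^ 2 * L ^ 14 / L ^ (K + 20) := by
          apply div_le_div_of_nonneg_left (by positivity) (by positivity) h1
      _ ≤ (x : ℝ) ^ 2 * L ^ 16 / L ^ (K + 20) := by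
          apply div_le_div_of_nonneg_right _ (by positivity)
          apply mul_le_mul_of_nonneg_left _ (by positivity)
          exact pow_le_pow_right₀ hL1 (by norm_num)
      _ = (x : ℝ) ^ 2 / L ^ (K + 4) := by
          have h2 : L ^ (K + 20) = L ^ 16 * L ^ (K + 4) := by ring
          rw [h2]
          field_simp
  have hlast : 4 * ((x : ℝ) ^ 2 / L ^ (K + 4)) ≤ (x : ℝ) ^ 2 / L ^ K := by
    have h1 : (x : ℝ) ^ 2 / L ^ (K + 4) = (x : ℝ) ^ 2 / L ^ K * (1 / L ^ 4) := by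
      rw [pow_add]
      field_simp
    have h2 : 1 / L ^ 4 ≤ 1 / 4 := by
      apply one_div_le_one_div_of_le (by norm_num)
      calc (4 : ℝ) ≤ L := by linarith
        _ = L ^ 1 := (pow_one L).symm
        _ ≤ L ^ 4 := pow_le_pow_right₀ hL1 (by norm_num)
    have h3 : 0 ≤ (x : ℝ) ^ 2 / L ^ K := by positivity
    rw [h1]
    nlinarith
  linarith

end Pool.Agent.H80.LV

end

section

/-!
# LV Pre: `∫_B |∑_{n ≤ y} Λ(n) e(n c/d) n^{2 π i t}|^2 dt`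

Proof.  Let `η2` be that of `tyII`, `δ` that of `tyI` (both absolute), `η = min (η2, δ, 1/2) / 3`.
`vol B ≤ T^η L^A ≤ x^{2η} L^A ≤ x^{3η}` (`T ≤ x^2`), `3 η ≤ min (η2, δ, 1/2)`.
Case `y < x^{1/2}`: the sum is `≤ y L ≤ x^{1/2} L`, the integral `≤ x L^2 x^{3η} ≤ x^2/L^K`.
Case `x^{1/2} ≤ y`: `vaughan y U U (gE (c/d) t)`, `U = ⌈x^{1/8}⌉₊ ≤ 2 x^{1/8}` (`U^4 ≤ 16 x^{1/2} ≤ x`):
 (i) first sum `≤ U L`; (ii) `≤ ∑_{a ≤ U} 2 (y/a) L^2 (1/|t| + x^{-δ}) ≤ x L^4 (1/T + x^{-δ})` (`tyI`, natural number `K = y/a ≥ x^{1/8}`);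
 (iii) `|nuV U U a| ≤ log a ≤ L` (`abs_nuV_le`), `a ≤ U^2 ≤ 4 x^{1/4}`, `y/a ≥ x^{1/8}`: `≤ x L^4 (1/T + x^{-δ})`;
 (iv) `tyII`.
 `|sum of the four|^2 ≤ 4 (sum of the squares)`; (i) `4 x^{1/4} L^2 x^{3η}`; (ii),(iii): `2 x^2 L^8 (T^{-2} + x^{-2δ}) vol B ≤
 2 x^2 L^8 (T^{-1} L^A + x^{-δ}) ≤ x^2/L^{K+2}` if `K' ≥ K + A + 12`.
 (Compare `GB/HiLam.lean`.)
-/

set_option autoImplicit false

namespace Pool.Agent.H80.LV

open Finset MeasureTheory
open Pool.Agent.H91.PK (ee cV nuV)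
open Pool.Agent.H91.EHA (Lam)

private theorem Pre_Lam_le (x n : ℕ) (hn : 1 ≤ n) (hnx : n ≤ x) :
    |ArithmeticFunction.vonMangoldt n| ≤ Real.log x := by
  rw [abs_of_nonneg ArithmeticFunction.vonMangoldt_nonneg]
  refine ArithmeticFunction.vonMangoldt_le_log.trans ?_
  exact Real.log_le_log (by exact_mod_cast hn) (by exact_mod_cast hnx)

private theorem Pre_cont_gE (α : ℝ) (n : ℕ) : Continuous (fun t : ℝ => gE α t n) := by
  unfold gE ee
  fun_prop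

/-- `∫_B F ≤ C vol B + 4 ∫_B G` if `F ≤ C + 4 G` on `B` -/
private theorem Pre_int (F G : ℝ → ℝ) (hF : Continuous F) (hG : Continuous G) (B : Set ℝ)
    (R C : ℝ) (hB : MeasurableSet B) (hBR : ∀ t ∈ B, |t| ≤ R)
    (h : ∀ t ∈ B, F t ≤ C + 4 * G t) :
    ∫ t in B, F t ≤ C * volume.real B + 4 * ∫ t in B, G t := by
  have hsub : B ⊆ Set.Icc (-R) R := fun t ht => abs_le.mp (hBR t ht)
  have hfin : volume B ≠ ⊤ := by
    refine ne_top_of_le_ne_top ?_ (measure_mono hsub)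
    rw [Real.volume_Icc]
    exact ENNReal.ofReal_ne_top
  have hFi : IntegrableOn F B := (hF.integrableOn_Icc).mono_set hsub
  have hGi : IntegrableOn G B := (hG.integrableOn_Icc).mono_set hsub
  have hCi : IntegrableOn (fun _ : ℝ => C) B := integrableOn_const hfin
  have h1 : ∫ t in B, F t ≤ ∫ t in B, (C + 4 * G t) :=
    setIntegral_mono_on hFi (hCi.add (hGi.const_mul 4)) hB h
  refine h1.trans (le_of_eq ?_)
  rw [integral_add hCi (hGi.const_mul 4), integral_const_mul, setIntegral_const, smul_eq_mul]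
  ring

private theorem Pre_sq4 (a b c d : ℝ) : (a + b + c + d) ^ 2 ≤ 4 * (a ^ 2 + b ^ 2 + c ^ 2 + d ^ 2) := by
  nlinarith [sq_nonneg (a - b), sq_nonneg (a - c), sq_nonneg (a - d), sq_nonneg (b - c),
    sq_nonneg (b - d), sq_nonneg (c - d)]

/-- the pointwise bound, large `y` -/
private theorem Pre_pt (δ : ℝ) (x y d U : ℕ) (c : ℤ) (t E : ℝ) (r L : ℝ)
    (hL : L = Real.log x) (hL8 : 8 ≤ L)
    (hr8 : 8 ≤ r) (hU : U = ⌈r⌉₊) (hyr : r ^ 4 ≤ y) (hyx : y ≤ x) (hrx : r ^ 8 = x)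
    (hE : 1 / |t| + (x : ℝ) ^ (-δ) ≤ E)
    (H1 : ∀ (a K : ℕ), 1 ≤ a → r ≤ K → K ≤ x →
      ‖∑ b ∈ Icc 1 K, gE ((c : ℝ) / d) t (a * b)‖
        ≤ K * L * (1 / |t| + (x : ℝ) ^ (-δ)) ∧
      ‖∑ b ∈ Icc 1 K, ((Real.log b : ℝ) : ℂ) * gE ((c : ℝ) / d) t (a * b)‖
        ≤ 2 * K * L ^ 2 * (1 / |t| + (x : ℝ) ^ (-δ))) :
    ‖∑ n ∈ Icc 1 y, ((Lam n : ℝ) : ℂ) * gE ((c : ℝ) / d) t n‖ ^ 2
      ≤ 4 * ((2 * r * L) ^ 2 + 2 * (x * L ^ 4 * E) ^ 2) +
        4 * ‖∑ m ∈ Ioc U y, ((Lam m : ℝ) : ℂ) *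
          ∑ n ∈ Ioc U (y / m), ((cV U n : ℝ) : ℂ) * gE ((c : ℝ) / d) t (m * n)‖ ^ 2 := by
  have hr0 : 0 < r := by linarith
  have hx0 : (0 : ℝ) < (x : ℝ) := by rw [← hrx]; positivity
  have hE0 : 0 ≤ 1 / |t| + (x : ℝ) ^ (-δ) := by
    have h1 := Real.rpow_nonneg hx0.le (-δ)
    have h2 : 0 ≤ 1 / |t| := by positivity
    linarith
  have hE00 : 0 ≤ E := hE0.trans hE
  have hU1 : r ≤ (U : ℝ) := by rw [hU]; exact Nat.le_ceil r
  have hU2 : (U : ℝ) ≤ 2 * r := by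
    have := Nat.ceil_lt_add_one hr0.le
    rw [hU]
    linarith
  have hUpos : 1 ≤ U := by
    have : (1 : ℝ) ≤ (U : ℝ) := by linarith
    exact_mod_cast this
  have hr2 : 8 * r ≤ r ^ 2 := by nlinarith
  have hr4 : r ^ 2 * 64 ≤ r ^ 4 := by nlinarith
  have hUUr : ((U * U : ℕ) : ℝ) ≤ 4 * r ^ 2 := by
    push_cast
    nlinarith
  have hxr4 : r ^ 4 ≤ (x : ℝ) := hyr.trans (by exact_mod_cast hyx)
  have hUU : U * U ≤ x := by
    have h1 : ((U * U : ℕ) : ℝ) ≤ (x : ℝ) := by nlinarith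
    exact_mod_cast h1
  have hUx : U ≤ x := le_trans (Nat.le_mul_self U) hUU
  have hUy : U ≤ y := by
    have h1 : (U : ℝ) ≤ (y : ℝ) := by nlinarith
    exact_mod_cast h1
  -- the length of the inner sums
  have hKr : ∀ a : ℕ, 1 ≤ a → (a : ℝ) ≤ 4 * r ^ 2 → r ≤ ((y / a : ℕ) : ℝ) := by
    intro a ha ha2
    have ha0 : (0 : ℝ) < (a : ℝ) := by exact_mod_cast ha
    have h1 : (y : ℝ) < ((y / a : ℕ) + 1 : ℝ) * a := by
      have h2 : y < (y / a + 1) * a := by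
        have := Nat.lt_div_mul_add (a := y) ha
        calc y < y / a * a + a := this
          _ = (y / a + 1) * a := by ring
      exact_mod_cast h2
    have h3 : (y : ℝ) < ((y / a : ℕ) + 1 : ℝ) * (4 * r ^ 2) :=
      h1.trans_le (mul_le_mul_of_nonneg_left ha2 (by positivity))
    have h4 : r ^ 2 * r ^ 2 < ((y / a : ℕ) + 1 : ℝ) * 4 * r ^ 2 := by nlinarith
    have h5 : r ^ 2 < ((y / a : ℕ) + 1 : ℝ) * 4 := lt_of_mul_lt_mul_right h4 (by positivity)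
    nlinarith
  have hKx : ∀ a : ℕ, y / a ≤ x := fun a => (Nat.div_le_self y a).trans hyx
  have hKdiv : ∀ a : ℕ, 1 ≤ a → ((y / a : ℕ) : ℝ) ≤ x * ((1 : ℝ) / a) := by
    intro a ha
    have ha0 : (0 : ℝ) < (a : ℝ) := by exact_mod_cast ha
    calc ((y / a : ℕ) : ℝ) ≤ (y : ℝ) / a := Nat.cast_div_le
      _ ≤ (x : ℝ) / a := div_le_div_of_nonneg_right (by exact_mod_cast hyx) ha0.le
      _ = x * ((1 : ℝ) / a) := by ring
  have hharm : ∀ n : ℕ, 1 ≤ n → n ≤ x → ∑ a ∈ Icc 1 n, (1 : ℝ) / a ≤ 1 + L := by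
    intro n hn hnx
    refine (Pool.Agent.H91.PK.Msq_harmonic n).trans ?_
    have : Real.log n ≤ Real.log x :=
      Real.log_le_log (by exact_mod_cast hn) (by exact_mod_cast hnx)
    rw [hL]
    linarith
  set g : ℕ → ℂ := gE ((c : ℝ) / d) t with hg
  have hg1 : ∀ k, ‖g k‖ ≤ 1 := fun k => (norm_gE _ _ _).le
  have hV := Pool.Agent.H91.PK.vaughan y U U g
  -- (i)
  have hS1 : ‖∑ n ∈ Icc 1 (min U y), ((ArithmeticFunction.vonMangoldt n : ℝ) : ℂ) * g n‖ ≤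
      2 * r * L := by
    have h1 : ‖∑ n ∈ Icc 1 (min U y), ((ArithmeticFunction.vonMangoldt n : ℝ) : ℂ) * g n‖ ≤
        ∑ n ∈ Icc 1 (min U y), L := by
      refine (norm_sum_le _ _).trans (sum_le_sum fun n hn => ?_)
      rw [mem_Icc, le_min_iff] at hn
      rw [norm_mul, Complex.norm_real, Real.norm_eq_abs]
      have h2 := Pre_Lam_le x n hn.1 (hn.2.2.trans hyx)
      have h3 := hg1 n
      calc |ArithmeticFunction.vonMangoldt n| * ‖g n‖ ≤ L * 1 :=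
            mul_le_mul (by rw [hL]; exact h2) h3 (norm_nonneg _) (by linarith)
        _ = L := mul_one L
    rw [sum_const, Nat.card_Icc, nsmul_eq_mul, Nat.add_sub_cancel] at h1
    have h4 : ((min U y : ℕ) : ℝ) ≤ 2 * r := by
      have h5 : ((min U y : ℕ) : ℝ) ≤ (U : ℝ) := by exact_mod_cast min_le_left U y
      linarith
    exact h1.trans (mul_le_mul_of_nonneg_right h4 (by linarith))
  have hcoef : ∀ z : ℝ, 0 ≤ z → z * (1 + L) * (2 * L ^ 2) ≤ z * L ^ 4 := by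
    intro z hz
    have h1 : (1 + L) * (2 * L ^ 2) ≤ L ^ 4 := by
      have h2 : 0 ≤ L ^ 2 := by positivity
      have h3 : 2 * (1 + L) ≤ L ^ 2 := by nlinarith
      nlinarith
    calc z * (1 + L) * (2 * L ^ 2) = z * ((1 + L) * (2 * L ^ 2)) := by ring
      _ ≤ z * L ^ 4 := mul_le_mul_of_nonneg_left h1 hz
  have hxE : 0 ≤ x * E := by positivity
  -- (ii)
  have hS2 : ‖∑ a ∈ Icc 1 U, ((ArithmeticFunction.moebius a : ℝ) : ℂ) *
      ∑ b ∈ Icc 1 (y / a), ((Real.log b : ℝ) : ℂ) * g (a * b)‖ ≤ x * L ^ 4 * E := by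
    have h1 : ‖∑ a ∈ Icc 1 U, ((ArithmeticFunction.moebius a : ℝ) : ℂ) *
        ∑ b ∈ Icc 1 (y / a), ((Real.log b : ℝ) : ℂ) * g (a * b)‖ ≤
        ∑ a ∈ Icc 1 U, (1 : ℝ) / a * (2 * L ^ 2 * (x * E)) := by
      refine (norm_sum_le _ _).trans (sum_le_sum fun a ha => ?_)
      rw [mem_Icc] at ha
      have haU : (a : ℝ) ≤ (U : ℝ) := by exact_mod_cast ha.2
      have h2 := (H1 a (y / a) ha.1 (hKr a ha.1 (by nlinarith)) (hKx a)).2
      rw [norm_mul, Complex.norm_real, Real.norm_eq_abs]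
      have h3 := Pool.Agent.H91.PK.Msq_abs_moebius a
      have h4 := hKdiv a ha.1
      calc |(ArithmeticFunction.moebius a : ℝ)| *
            ‖∑ b ∈ Icc 1 (y / a), ((Real.log b : ℝ) : ℂ) * g (a * b)‖
          ≤ 1 * (2 * ((y / a : ℕ) : ℝ) * L ^ 2 * (1 / |t| + (x : ℝ) ^ (-δ))) :=
            mul_le_mul h3 h2 (norm_nonneg _) zero_le_one
        _ = ((y / a : ℕ) : ℝ) * (2 * L ^ 2) * (1 / |t| + (x : ℝ) ^ (-δ)) := by ring
        _ ≤ (x * ((1 : ℝ) / a)) * (2 * L ^ 2) * E := by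
            apply mul_le_mul _ hE hE0 (by positivity)
            exact mul_le_mul_of_nonneg_right h4 (by positivity)
        _ = (1 : ℝ) / a * (2 * L ^ 2 * (x * E)) := by ring
    rw [← sum_mul] at h1
    calc _ ≤ (∑ a ∈ Icc 1 U, (1 : ℝ) / a) * (2 * L ^ 2 * (x * E)) := h1
      _ ≤ (1 + L) * (2 * L ^ 2 * (x * E)) :=
          mul_le_mul_of_nonneg_right (hharm U hUpos hUx) (by positivity)
      _ = (x * E) * (1 + L) * (2 * L ^ 2) := by ring
      _ ≤ (x * E) * L ^ 4 := hcoef _ hxE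
      _ = _ := by ring
  -- (iii)
  have hS3 : ‖∑ a ∈ Icc 1 (U * U), ((Pool.Agent.H91.PK.nuV U U a : ℝ) : ℂ) *
      ∑ b ∈ Icc 1 (y / a), g (a * b)‖ ≤ x * L ^ 4 * E := by
    have h1 : ‖∑ a ∈ Icc 1 (U * U), ((Pool.Agent.H91.PK.nuV U U a : ℝ) : ℂ) *
        ∑ b ∈ Icc 1 (y / a), g (a * b)‖ ≤
        ∑ a ∈ Icc 1 (U * U), (1 : ℝ) / a * (L ^ 2 * (x * E)) := by
      refine (norm_sum_le _ _).trans (sum_le_sum fun a ha => ?_)
      rw [mem_Icc] at ha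
      have haU : (a : ℝ) ≤ ((U * U : ℕ) : ℝ) := by exact_mod_cast ha.2
      have hax : a ≤ x := ha.2.trans hUU
      have h2 := (H1 a (y / a) ha.1 (hKr a ha.1 (haU.trans hUUr)) (hKx a)).1
      rw [norm_mul, Complex.norm_real, Real.norm_eq_abs]
      have h3 : |Pool.Agent.H91.PK.nuV U U a| ≤ L := by
        refine (Pool.Agent.H91.PK.abs_nuV_le U U a ha.1).trans ?_
        rw [hL]
        exact Real.log_le_log (by exact_mod_cast ha.1) (by exact_mod_cast hax)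
      have h4 := hKdiv a ha.1
      calc |Pool.Agent.H91.PK.nuV U U a| * ‖∑ b ∈ Icc 1 (y / a), g (a * b)‖
          ≤ L * (((y / a : ℕ) : ℝ) * L * (1 / |t| + (x : ℝ) ^ (-δ))) :=
            mul_le_mul h3 h2 (norm_nonneg _) (by linarith)
        _ = ((y / a : ℕ) : ℝ) * (L ^ 2) * (1 / |t| + (x : ℝ) ^ (-δ)) := by ring
        _ ≤ (x * ((1 : ℝ) / a)) * (L ^ 2) * E := by
            apply mul_le_mul _ hE hE0 (by positivity)
            exact mul_le_mul_of_nonneg_right h4 (by positivity)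
        _ = (1 : ℝ) / a * (L ^ 2 * (x * E)) := by ring
    rw [← sum_mul] at h1
    calc _ ≤ (∑ a ∈ Icc 1 (U * U), (1 : ℝ) / a) * (L ^ 2 * (x * E)) := h1
      _ ≤ (1 + L) * (L ^ 2 * (x * E)) :=
          mul_le_mul_of_nonneg_right (hharm (U * U) (Nat.mul_pos hUpos hUpos) hUU)
            (by positivity)
      _ ≤ (1 + L) * (2 * L ^ 2 * (x * E)) := by
          apply mul_le_mul_of_nonneg_left _ (by linarith)
          have : 0 ≤ L ^ 2 * (x * E) := by positivity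
          linarith
      _ = (x * E) * (1 + L) * (2 * L ^ 2) := by ring
      _ ≤ (x * E) * L ^ 4 := hcoef _ hxE
      _ = _ := by ring
  have h1 : ∑ k ∈ Icc 1 y, ((Lam k : ℝ) : ℂ) * g k =
      ∑ n ∈ Icc 1 y, ((ArithmeticFunction.vonMangoldt n : ℝ) : ℂ) * g n := rfl
  have h2 : ∑ m ∈ Ioc U y, ((Lam m : ℝ) : ℂ) *
          ∑ n ∈ Ioc U (y / m), ((cV U n : ℝ) : ℂ) * g (m * n) =
      ∑ m ∈ Ioc U y, ((ArithmeticFunction.vonMangoldt m : ℝ) : ℂ) *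
          ∑ n ∈ Ioc U (y / m), ((cV U n : ℝ) : ℂ) * g (m * n) := rfl
  rw [h1, h2, hV]
  refine le_trans (pow_le_pow_left₀ (norm_nonneg _)
    (?_ : _ ≤ 2 * r * L + x * L ^ 4 * E + x * L ^ 4 * E +
      ‖∑ m ∈ Ioc U y, ((ArithmeticFunction.vonMangoldt m : ℝ) : ℂ) *
          ∑ n ∈ Ioc U (y / m), ((cV U n : ℝ) : ℂ) * g (m * n)‖) 2) ?_
  · refine (norm_add_le _ _).trans ?_
    refine (add_le_add_left (norm_sub_le _ _) _).trans ?_
    refine (add_le_add_left (add_le_add_left (norm_add_le _ _) _) _).trans ?_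
    linarith
  · refine (Pre_sq4 _ _ _ _).trans (le_of_eq ?_)
    ring

theorem pre (hVK : VK) : ∃ η : ℝ, 0 < η ∧ η ≤ 1 ∧ ∀ K A : ℕ, ∃ K' x0 : ℕ, ∀ x : ℕ, x0 ≤ x →
    ∀ (y d : ℕ) (c : ℤ) (T : ℝ) (B : Set ℝ), 1 ≤ d → (d : ℝ) ≤ Real.log x ^ A → y ≤ x →
      Real.log x ^ K' ≤ T → 2 * T ≤ (x : ℝ) ^ (2 : ℕ) →
      MeasurableSet B → (∀ t ∈ B, T ≤ |t| ∧ |t| ≤ 2 * T) →
      volume.real B ≤ T ^ η * Real.log x ^ A →
      ∫ t in B, ‖∑ n ∈ Icc 1 y, ((Lam n : ℝ) : ℂ) * gE ((c : ℝ) / d) t n‖ ^ 2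
        ≤ (x : ℝ) ^ 2 / Real.log x ^ K := by
  obtain ⟨η2, h2a, h2b, H2⟩ := tyII hVK
  obtain ⟨δ, hd0, hd1, H1⟩ := tyI
  have hm1 : min (min η2 δ) (1 / 2) ≤ η2 := (min_le_left _ _).trans (min_le_left _ _)
  have hm2 : min (min η2 δ) (1 / 2) ≤ δ := (min_le_left _ _).trans (min_le_right _ _)
  have hm3 : min (min η2 δ) (1 / 2) ≤ 1 / 2 := min_le_right _ _
  have hm0 : 0 < min (min η2 δ) (1 / 2) := by positivity
  generalize min (min η2 δ) (1 / 2) = s at hm0 hm1 hm2 hm3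
  refine ⟨s / 3, by positivity, by linarith, ?_⟩
  intro K A
  obtain ⟨K2, x2, H2⟩ := H2 (K + 2) A
  obtain ⟨x1, H1⟩ := H1 A
  obtain ⟨x3, H3⟩ := log_ge 8
  obtain ⟨x4, H4⟩ := pow_ge (1 / 8) 8 (by norm_num)
  obtain ⟨x5, H5⟩ := log_pow_le (s / 3) 1 (by positivity) one_pos A
  obtain ⟨x6, H6⟩ := log_pow_le (1 / 2) 64 (by norm_num) (by norm_num) (K + 2)
  obtain ⟨x7, H7⟩ := log_pow_le δ 128 hd0 (by norm_num) (K + 8 + A)
  refine ⟨K2 + (K + A + 12), x1 + x2 + x3 + x4 + x5 + x6 + x7, ?_⟩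
  intro x hx y d c T B hd hdL hyx hT1 hT2 hB hBT hBv
  have h8 : 8 ≤ Real.log x := H3 x (by omega)
  have hr8 : 8 ≤ (x : ℝ) ^ (1 / 8 : ℝ) := H4 x (by omega)
  have hA := H5 x (by omega)
  have hK2 := H6 x (by omega)
  have hKA := H7 x (by omega)
  replace H1 := H1 x (by omega)
  replace H2 := H2 x (by omega)
  set L := Real.log x with hLdef
  set r := (x : ℝ) ^ (1 / 8 : ℝ) with hr
  have hxN : x ≠ 0 := by
    rintro rfl
    rw [hLdef] at h8
    norm_num at h8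
  have hx1 : (1 : ℝ) ≤ (x : ℝ) := by exact_mod_cast Nat.one_le_iff_ne_zero.mpr hxN
  have hx0 : (0 : ℝ) < (x : ℝ) := by linarith
  have hrx : r ^ 8 = x := by
    rw [hr, ← Real.rpow_natCast, ← Real.rpow_mul hx0.le]
    norm_num
  have hL1 : 1 ≤ L := by linarith
  have hL0 : 0 < L := by linarith
  have hT0 : 1 ≤ T := (one_le_pow₀ hL1).trans hT1
  have hTx : T ≤ (x : ℝ) ^ (2 : ℕ) := by linarith
  have hr4 : (x : ℝ) ^ (1 / 2 : ℝ) = r ^ 4 := by
    rw [hr, ← Real.rpow_natCast, ← Real.rpow_mul hx0.le]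
    norm_num
  have hTs : T ^ (s / 3) ≤ ((x : ℝ) ^ (s / 3)) ^ 2 := by
    calc T ^ (s / 3) ≤ ((x : ℝ) ^ (2 : ℕ)) ^ (s / 3) :=
          Real.rpow_le_rpow (by linarith) hTx (by positivity)
      _ = ((x : ℝ) ^ (s / 3)) ^ 2 := by
          rw [← Real.rpow_natCast, ← Real.rpow_natCast, ← Real.rpow_mul hx0.le,
            ← Real.rpow_mul hx0.le, mul_comm]
  have hxs : 0 < (x : ℝ) ^ (s / 3) := Real.rpow_pos_of_pos hx0 _
  have hxs3 : ((x : ℝ) ^ (s / 3)) ^ 3 = (x : ℝ) ^ s := by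
    rw [← Real.rpow_natCast, ← Real.rpow_mul hx0.le]
    congr 1
    push_cast
    ring
  have hV0 : 0 ≤ volume.real B := measureReal_nonneg
  have hV1 : volume.real B ≤ (x : ℝ) ^ s := by
    rw [← hxs3]
    calc volume.real B ≤ T ^ (s / 3) * L ^ A := hBv
      _ ≤ ((x : ℝ) ^ (s / 3)) ^ 2 * (x : ℝ) ^ (s / 3) :=
          mul_le_mul hTs (by linarith) (by positivity) (by positivity)
      _ = _ := by ring
  have hV2 : volume.real B ≤ (x : ℝ) ^ η2 :=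
    hV1.trans (Real.rpow_le_rpow_of_exponent_le hx1 hm1)
  have hV3 : volume.real B ≤ r ^ 4 := by
    rw [← hr4]
    exact hV1.trans (Real.rpow_le_rpow_of_exponent_le hx1 hm3)
  have hcontF : ∀ (N : Finset ℕ) (u : ℕ → ℝ), Continuous (fun t : ℝ =>
      ‖∑ n ∈ N, ((u n : ℝ) : ℂ) * gE ((c : ℝ) / d) t n‖ ^ 2) := by
    intro N u
    refine (Continuous.norm ?_).pow 2
    exact continuous_finsetSum _ fun n _ => continuous_const.mul (Pre_cont_gE _ n)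
  have hLK0 : 0 < L ^ K := by positivity
  by_cases hy : r ^ 4 ≤ (y : ℝ)
  · -- large y
    set U := ⌈r⌉₊ with hU
    have hr0 : 0 < r := by linarith
    have hU1 : r ≤ (U : ℝ) := Nat.le_ceil r
    have hU2 : (U : ℝ) ≤ 2 * r := by
      have := Nat.ceil_lt_add_one hr0.le
      linarith
    have hr16 : 16 ≤ r ^ 4 := by
      have : (8 : ℝ) ^ 4 ≤ r ^ 4 := pow_le_pow_left₀ (by norm_num) hr8 4
      linarith
    have hU4 : U ^ 4 ≤ x := by
      have h1 : (U : ℝ) ^ 4 ≤ (2 * r) ^ 4 := pow_le_pow_left₀ (Nat.cast_nonneg _) hU2 4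
      have h2 : (2 * r) ^ 4 ≤ (x : ℝ) := by
        rw [← hrx]
        nlinarith
      have h3 : ((U ^ 4 : ℕ) : ℝ) ≤ (x : ℝ) := by
        push_cast
        linarith
      exact_mod_cast h3
    have hII := H2 U y d c B hd hdL hU1 hU4 (by rw [hr4]; exact hy) hyx hB
      (fun t ht => ⟨((pow_le_pow_right₀ hL1 (by omega)).trans hT1).trans (hBT t ht).1,
        (hBT t ht).2.trans hT2⟩) hV2
    set E := 1 / T + (x : ℝ) ^ (-δ) with hE
    have hxd : 0 < (x : ℝ) ^ (-δ) := Real.rpow_pos_of_pos hx0 _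
    have hpt := Pre_int
      (fun t => ‖∑ n ∈ Icc 1 y, ((Lam n : ℝ) : ℂ) * gE ((c : ℝ) / d) t n‖ ^ 2)
      (fun t => ‖∑ m ∈ Ioc U y, ((Lam m : ℝ) : ℂ) *
          ∑ n ∈ Ioc U (y / m), ((cV U n : ℝ) : ℂ) * gE ((c : ℝ) / d) t (m * n)‖ ^ 2)
      (hcontF _ _)
      (by
        refine (Continuous.norm ?_).pow 2
        refine continuous_finsetSum _ fun n _ => continuous_const.mul ?_
        exact continuous_finsetSum _ fun m _ => continuous_const.mul (Pre_cont_gE _ _))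
      B (2 * T) (4 * ((2 * r * L) ^ 2 + 2 * (x * L ^ 4 * E) ^ 2)) hB
      (fun t ht => (hBT t ht).2)
      (by
        intro t ht
        have ht1 := (hBT t ht).1
        have ht2 := (hBT t ht).2
        refine Pre_pt δ x y d U c t E r L hLdef h8 hr8 hU hy hyx hrx ?_ ?_
        · have : 1 / |t| ≤ 1 / T := one_div_le_one_div_of_le (by linarith) ht1
          linarith
        · intro a k ha hrk hkx
          exact H1 a k d c t ha hd hdL hrk hkx (hT0.trans ht1) (ht2.trans hT2))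
    refine hpt.trans ?_
    generalize ∫ t in B, ‖∑ m ∈ Ioc U y, ((Lam m : ℝ) : ℂ) *
          ∑ n ∈ Ioc U (y / m), ((cV U n : ℝ) : ℂ) * gE ((c : ℝ) / d) t (m * n)‖ ^ 2 = J at hII
    rw [le_div_iff₀ hLK0]
    rw [hr4] at hK2
    have hT00 : 0 < T := by linarith
    have hE0 : 0 ≤ E := by rw [hE]; positivity
    -- (a)
    have ha : 4 * J * L ^ K ≤ (x : ℝ) ^ 2 / 16 := by
      rw [le_div_iff₀ (by positivity)] at hII
      have h1 : J * L ^ K * L ^ 2 ≤ (x : ℝ) ^ 2 := by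
        calc J * L ^ K * L ^ 2 = J * L ^ (K + 2) := by ring
          _ ≤ _ := hII
      have h2 : 64 ≤ L ^ 2 := by nlinarith
      by_cases hJ : 0 ≤ J
      · have h3 : J * L ^ K * 64 ≤ J * L ^ K * L ^ 2 :=
          mul_le_mul_of_nonneg_left h2 (by positivity)
        linarith
      · have h3 : J * L ^ K ≤ 0 := mul_nonpos_of_nonpos_of_nonneg (by linarith) hLK0.le
        have h4 : 0 ≤ (x : ℝ) ^ 2 := by positivity
        linarith
    -- (b)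
    have hb : 4 * (2 * r * L) ^ 2 * volume.real B * L ^ K ≤ (x : ℝ) ^ 2 / 4 := by
      calc 4 * (2 * r * L) ^ 2 * volume.real B * L ^ K
          = r ^ 2 * volume.real B * (64 * L ^ (K + 2)) / 4 := by ring
        _ ≤ r ^ 2 * r ^ 4 * r ^ 4 / 4 := by
            apply div_le_div_of_nonneg_right _ (by norm_num)
            apply mul_le_mul _ hK2 (by positivity) (by positivity)
            exact mul_le_mul_of_nonneg_left hV3 (by positivity)
        _ = r ^ 10 / 4 := by ring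
        _ ≤ r ^ 16 / 4 := by
            apply div_le_div_of_nonneg_right _ (by norm_num)
            exact pow_le_pow_right₀ (by linarith) (by norm_num)
        _ = (x : ℝ) ^ 2 / 4 := by rw [← hrx]; ring
    -- (c)
    have hTT : T ^ (s / 3) ≤ T := by
      calc T ^ (s / 3) ≤ T ^ (1 : ℝ) :=
            Real.rpow_le_rpow_of_exponent_le hT0 (by linarith)
        _ = T := Real.rpow_one T
    have hTd : T ^ (s / 3) ≤ (x : ℝ) ^ δ := by
      refine hTs.trans ?_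
      rw [← Real.rpow_natCast, ← Real.rpow_mul hx0.le]
      apply Real.rpow_le_rpow_of_exponent_le hx1
      push_cast
      linarith
    have hxdd : (x : ℝ) ^ (-δ) * (x : ℝ) ^ δ = 1 := by
      rw [← Real.rpow_add hx0]
      simp
    have hEV : E ^ 2 * volume.real B ≤ 2 * E * L ^ A := by
      have h1 : E ^ 2 ≤ 2 * ((1 / T) ^ 2 + ((x : ℝ) ^ (-δ)) ^ 2) := by
        rw [hE]
        nlinarith [sq_nonneg (1 / T - (x : ℝ) ^ (-δ))]
      have hTs0 : 0 ≤ T ^ (s / 3) := Real.rpow_nonneg hT00.le _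
      calc E ^ 2 * volume.real B
          ≤ (2 * ((1 / T) ^ 2 + ((x : ℝ) ^ (-δ)) ^ 2)) * (T ^ (s / 3) * L ^ A) :=
            mul_le_mul h1 hBv hV0 (by positivity)
        _ = 2 * ((1 / T) ^ 2 * T ^ (s / 3) + ((x : ℝ) ^ (-δ)) ^ 2 * T ^ (s / 3)) * L ^ A := by
            ring
        _ ≤ 2 * ((1 / T) ^ 2 * T + ((x : ℝ) ^ (-δ)) ^ 2 * (x : ℝ) ^ δ) * L ^ A := by
            apply mul_le_mul_of_nonneg_right _ (by positivity)
            apply mul_le_mul_of_nonneg_left _ (by norm_num)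
            apply add_le_add
            · exact mul_le_mul_of_nonneg_left hTT (by positivity)
            · exact mul_le_mul_of_nonneg_left hTd (by positivity)
        _ = 2 * E * L ^ A := by
            have h2 : (1 / T) ^ 2 * T = 1 / T := by
              field_simp
            have h3 : ((x : ℝ) ^ (-δ)) ^ 2 * (x : ℝ) ^ δ = (x : ℝ) ^ (-δ) := by
              rw [pow_two, mul_assoc, hxdd, mul_one]
            rw [h2, h3]
    have hc1 : L ^ (K + 8 + A) * (1 / T) ≤ 1 / 64 := by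
      rw [mul_one_div, div_le_div_iff₀ hT00 (by norm_num), one_mul]
      calc L ^ (K + 8 + A) * 64 ≤ L ^ (K + 8 + A) * L ^ 4 := by
            apply mul_le_mul_of_nonneg_left _ (by positivity)
            have : (8 : ℝ) ^ 4 ≤ L ^ 4 := pow_le_pow_left₀ (by norm_num) h8 4
            linarith
        _ = L ^ (K + A + 12) := by
            rw [← pow_add]
            congr 1
            omega
        _ ≤ L ^ (K2 + (K + A + 12)) := pow_le_pow_right₀ hL1 (by omega)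
        _ ≤ T := hT1
    have hc2 : L ^ (K + 8 + A) * (x : ℝ) ^ (-δ) ≤ 1 / 128 := by
      have h1 : 128 * L ^ (K + 8 + A) * (x : ℝ) ^ (-δ) ≤ (x : ℝ) ^ δ * (x : ℝ) ^ (-δ) :=
        mul_le_mul_of_nonneg_right hKA hxd.le
      rw [mul_comm ((x : ℝ) ^ δ), hxdd] at h1
      linarith
    have hc : 8 * (x * L ^ 4 * E) ^ 2 * volume.real B * L ^ K ≤ (x : ℝ) ^ 2 / 2 := by
      calc 8 * (x * L ^ 4 * E) ^ 2 * volume.real B * L ^ K
          = 8 * (x : ℝ) ^ 2 * L ^ (K + 8) * (E ^ 2 * volume.real B) := by ring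
        _ ≤ 8 * (x : ℝ) ^ 2 * L ^ (K + 8) * (2 * E * L ^ A) :=
            mul_le_mul_of_nonneg_left hEV (by positivity)
        _ = 16 * (x : ℝ) ^ 2 * (L ^ (K + 8 + A) * (1 / T) + L ^ (K + 8 + A) * (x : ℝ) ^ (-δ)) := by
            rw [hE, pow_add L (K + 8) A]
            ring
        _ ≤ 16 * (x : ℝ) ^ 2 * (1 / 64 + 1 / 128) := by
            apply mul_le_mul_of_nonneg_left _ (by positivity)
            linarith
        _ ≤ (x : ℝ) ^ 2 / 2 := by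
            have : 0 ≤ (x : ℝ) ^ 2 := by positivity
            linarith
    have hx2 : 0 ≤ (x : ℝ) ^ 2 := by positivity
    calc (4 * ((2 * r * L) ^ 2 + 2 * (x * L ^ 4 * E) ^ 2) * volume.real B + 4 * J) * L ^ K
        = 4 * (2 * r * L) ^ 2 * volume.real B * L ^ K +
          8 * (x * L ^ 4 * E) ^ 2 * volume.real B * L ^ K + 4 * J * L ^ K := by ring
      _ ≤ (x : ℝ) ^ 2 / 4 + (x : ℝ) ^ 2 / 2 + (x : ℝ) ^ 2 / 16 :=
          add_le_add (add_le_add hb hc) ha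
      _ ≤ (x : ℝ) ^ 2 := by linarith
  · -- small y
    have hy' : (y : ℝ) ≤ r ^ 4 := (not_le.mp hy).le
    have hpt := Pre_int
      (fun t => ‖∑ n ∈ Icc 1 y, ((Lam n : ℝ) : ℂ) * gE ((c : ℝ) / d) t n‖ ^ 2)
      (fun _ => 0) (hcontF _ _) continuous_const
      B (2 * T) ((r ^ 4 * L) ^ 2) hB (fun t ht => (hBT t ht).2)
      (by
        intro t _
        rw [mul_zero, add_zero]
        apply pow_le_pow_left₀ (norm_nonneg _)
        refine (norm_sum_le _ _).trans ?_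
        calc ∑ n ∈ Icc 1 y, ‖((Lam n : ℝ) : ℂ) * gE ((c : ℝ) / d) t n‖
            ≤ ∑ n ∈ Icc 1 y, L := by
              refine sum_le_sum fun n hn => ?_
              rw [mem_Icc] at hn
              rw [norm_mul, norm_gE, mul_one, Complex.norm_real, Real.norm_eq_abs]
              exact Pre_Lam_le x n hn.1 (hn.2.trans hyx)
          _ = y * L := by
              rw [sum_const, Nat.card_Icc, nsmul_eq_mul, Nat.add_sub_cancel]
          _ ≤ r ^ 4 * L := mul_le_mul_of_nonneg_right hy' hL0.le)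
    refine hpt.trans ?_
    rw [integral_zero, mul_zero, add_zero, le_div_iff₀ hLK0]
    rw [hr4] at hK2
    have h1 : L ^ (K + 2) ≤ r ^ 4 := by
      have : 0 ≤ L ^ (K + 2) := by positivity
      linarith
    calc (r ^ 4 * L) ^ 2 * volume.real B * L ^ K
        = (r ^ 4) ^ 2 * volume.real B * L ^ (K + 2) := by ring
      _ ≤ (r ^ 4) ^ 2 * r ^ 4 * r ^ 4 := by
          apply mul_le_mul _ h1 (by positivity) (by positivity)
          exact mul_le_mul_of_nonneg_left hV3 (by positivity)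
      _ = (r ^ 8) ^ 2 := by ring
      _ = (x : ℝ) ^ 2 := by rw [hrx]

end Pool.Agent.H80.LV

end
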