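import Pool.Agent.H43.PM.H76.SP.IIL
import Pool.Agent.H43.PM.M28
import Pool.Agent.H43.PM.M32
import Pool.Agent.H43.PM.M33
import Pool.Agent.H43.PM.M34

/-! The parts of this file: H74.MDX.CombW, H53.MDB.Far, H53.MDB.BoostF, H53.MDB.Final, H76.SP.JJL, H53.MID.JJh, H80.LV.LR, H80.LV.Main, H76.VKT.VkClassW, H76.VKT.Main. -/

section

/-!
# MDX CombW: the weak combinatorial theorem (part I of MIDX)

Proof.  `comb_num C` gives `D`; `N0` from `comb_asym` (with `D`, `C0`), `comb_lvl`, and such that `log N ≥ 1`.  For `N ≥ N0` take `ℓ` from `comb_lvl`, `δ = 1/(log N)^C0`,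
`Q = exp((log N)^t2)`: `Zc C δ ℓ ≤ (D ℓ/δ)^(D ℓ) 2^(D ℓ^2) ≤ Q` and `Q ≤ exp((log N)^t) ≤ P`.  `combx` gives `d, b, T, F1`.  Reduce the fraction: `g = gcd(b, d)`,
`d' = d/g`, `b' = b/g`: `b'/d' = b/d` (real numbers), `1 ≤ d' ≤ d`, coprime (`Nat.coprime_div_gcd_div_gcd`).
-/

set_option autoImplicit false

namespace Pool.Agent.H74.MDX

open Finset
open Pool.Agent.H53.MID (nz Rel Desc)

/-- the weak combinatorial theorem -/
def CombWeak (t t2 : ℝ) : Prop := ∀ (C : ℝ), 1 ≤ C → ∀ C0 : ℕ, ∃ N0 : ℕ, ∀ N : ℕ, N0 ≤ N →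
  ∀ (n P : ℕ) (η : ℝ) (F0 G0 : Finset ℕ) (α β : ℕ → ℝ) (R0 : Finset (ℕ × ℕ × ℕ)),
    Real.exp (Real.log N ^ t) ≤ P → P ≤ N → 1 ≤ n → n ≤ N → 0 < η →
    Real.exp (Real.log N ^ t2) * η * (P : ℝ) ^ 3 ≤ 1 → Rel C n P (η * P) F0 G0 α β R0 →
    n * P / Real.log N ^ C0 ≤ (R0.card : ℝ) →
    ∃ (d b : ℕ) (T : ℝ) (F1 : Finset ℕ), 1 ≤ d ∧ (d : ℝ) ≤ Real.exp (Real.log N ^ t2) ∧ Nat.Coprime b d ∧
      |T| ≤ Real.exp (Real.log N ^ t2) * η * (n : ℝ) ^ 2 ∧ F1 ⊆ F0 ∧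
      (n : ℝ) ≤ Real.exp (Real.log N ^ t2) * F1.card ∧
      ∀ i ∈ F1, nz (α i - b / d - T / i) ≤ Real.exp (Real.log N ^ t2) * η

/-- reduction of a fraction -/
private theorem CombW_red (d b : ℕ) (hd : 1 ≤ d) : ∃ d' b' : ℕ, 1 ≤ d' ∧ d' ≤ d ∧ Nat.Coprime b' d' ∧
    (b' : ℝ) / d' = b / d := by
  have hg : 0 < Nat.gcd b d := Nat.gcd_pos_of_pos_right b (by omega)
  have h1 : Nat.gcd b d ∣ b := Nat.gcd_dvd_left b d
  have h2 : Nat.gcd b d ∣ d := Nat.gcd_dvd_right b d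
  refine ⟨d / Nat.gcd b d, b / Nat.gcd b d, Nat.div_pos (Nat.le_of_dvd (by omega) h2) hg,
    Nat.div_le_self _ _, Nat.coprime_div_gcd_div_gcd hg, ?_⟩
  have hg' : (Nat.gcd b d : ℝ) ≠ 0 := by exact_mod_cast hg.ne'
  rw [Nat.cast_div h1 hg', Nat.cast_div h2 hg']
  exact div_div_div_cancel_right₀ hg' _ _

theorem comb_weak (t t2 : ℝ) (ht1 : t < 1) (ht2 : 2 * (1 - t) < t2) (ht3 : t2 < t) : CombWeak t t2 := by
  intro C hC C0
  obtain ⟨D, hD1, hD⟩ := comb_num C hC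
  obtain ⟨N1, hN1⟩ := comb_asym t t2 ht1 ht2 D C0
  obtain ⟨N2, hN2⟩ := comb_lvl t (by linarith) ht1
  refine ⟨max N1 (max N2 3), fun N hN n P η F0 G0 α β R0 hP hPN hn hnN hη hQη hR hR0 => ?_⟩
  rw [max_le_iff, max_le_iff] at hN
  obtain ⟨hNa, hNb, hNc⟩ := hN
  have hL1 : 1 ≤ Real.log N := by
    rw [Real.le_log_iff_exp_le (by positivity)]
    have h1 : (3 : ℝ) ≤ N := by exact_mod_cast hNc
    have h2 := Real.exp_one_lt_three
    linarith
  obtain ⟨ℓ, hℓ1, hℓ2, hℓ3, hℓ4⟩ := hN2 N hNb n P hP hn hnN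
  obtain ⟨L, hL⟩ : ∃ L : ℝ, L = Real.log N ^ C0 := ⟨_, rfl⟩
  have hLpos : 1 ≤ L := by rw [hL]; exact one_le_pow₀ hL1
  have hδ : 0 < 1 / L := by positivity
  have hδ1 : 1 / L ≤ 1 := by
    rw [div_le_one (by linarith)]
    exact hLpos
  have hZ : Zc C (1 / L) ℓ ≤ Real.exp (Real.log N ^ t2) := by
    refine (hD ℓ (1 / L) hℓ1 hδ hδ1).trans ?_
    have h1 := hN1 N hNa ℓ hℓ1 hℓ2
    rw [← hL] at h1
    have e1 : (D : ℝ) * ℓ / (1 / L) = D * ℓ * L := by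
      rw [div_div_eq_mul_div, div_one]
    rw [e1]
    exact h1
  have hQP : Real.exp (Real.log N ^ t2) ≤ P := by
    refine le_trans ?_ hP
    exact Real.exp_le_exp.2 (Real.rpow_le_rpow_of_exponent_le hL1 ht3.le)
  have hR0' : 1 / L * n * P ≤ R0.card := by
    rw [← hL] at hR0
    refine le_trans (le_of_eq ?_) hR0
    ring
  obtain ⟨d, b, T, F1, g1, g2, g3, g4, g5, g6⟩ := combx C hC n P ℓ (1 / L) η
    (Real.exp (Real.log N ^ t2)) hn hℓ1 hℓ3 hℓ4 hδ hδ1 hη hZ hQP hQη F0 G0 α β R0 hR hR0'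
  obtain ⟨d', b', k1, k2, k3, k4⟩ := CombW_red d b g1
  refine ⟨d', b', T, F1, k1, ?_, k3, g3, g4, g5, ?_⟩
  · refine le_trans ?_ g2
    exact_mod_cast k2
  · intro i hi
    rw [k4]
    exact g6 i hi

end Pool.Agent.H74.MDX

end

section

/-!
# MDB Far: few quadruples with `|T - T'| > Z = Q^12 η n`

Proof.  Let `q = ((i,p),(i',p'))` be such a quadruple, `j = s i`, `j' = s i'` (`< r`), `V = d_j d_j' (T_j - T_j')`: `Z < |V| ≤ 2 Q^3 η n^2` (`1 ≤ d_j d_j' ≤ Q^2`, `|T_j - T_j'| ≤ 2 Q η n^2`).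
Multiply `pair_f` by the natural number `d_j d_j' ≤ Q^2` (`nz_nat_mul`); `d_j d_j' (p b_j/d_j - p' b_j'/d_j')` is an integer: `nz (V p/i) ≤ κ := 10 C^3 Q^3 η P`.
For fixed `j, j', p` the set `S` of the `i ∈ U` with `nz (V p/i) ≤ κ` has by `osc` (`W = V p`, `|W| ≤ 4 Q^3 η n^2 P`, `|W| ≥ Z P`) at most
`(C |W|/n + 2)(2 κ C^2 n^2/|W| + 1) = 2 κ C^3 n + C |W|/n + 4 κ C^2 n^2/|W| + 2 ≤ n/Q^6` elements: the four terms are `≤ n/(4 Q^6)` each:
`20 C^6 Q^3 η P n` and `4 C Q^3 η P n`: from `η Q^60 P^3 ≤ 1`, `200 C^10 ≤ Q`, `1 ≤ P`; `4 κ C^2 n^2/|W| ≤ 40 C^5 Q^3 η P n^2/(Q^12 η n P) = 40 C^5 n/Q^9`, `160 C^5 ≤ Q^3`; `2 ≤ n/(4 Q^6)`: `8 Q^6 ≤ n`.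
For given `i, p` there are at most `P (8 C + 1)` pairs `(i', p')`: `p' ∈ (P, 2P]` and `|i' - i p'/p| ≤ 4 C P/p < 4 C` (an interval of length `8 C` contains at most `8 C + 1` integers).
So the number of quadruples is at most `∑_{j, j' < r} ∑_{p ∈ (P,2P]} (n/Q^6) · P (8C+1) ≤ (C Q)^2 P (n/Q^6) P (8 C + 1) ≤ n P^2/Q^3` (`9 C^3 ≤ Q`).
Formalization hint: the set of quadruples is contained in the union over `(j, j') ∈ range r × range r` with `|T_j - T_j'| > Z` and `p ∈ Ioc P (2P)` of the sets `{q : q.1.2 = p, q.1.1 ∈ S_{j,j',p}, q.2 ∈ E(q.1)}` (`Finset.card_biUnion_le`).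
-/

set_option autoImplicit false

namespace Pool.Agent.H53.MDB

open Finset
open Pool.Agent.H53.MID (nz)

private theorem Far_fib {α β : Type*} [DecidableEq β] (A : Finset α) (g : α → β) (B : Finset β) (M : ℝ)
    (h : ∀ a ∈ A, g a ∈ B) (hM : ∀ b ∈ B, ((A.filter (fun a => g a = b)).card : ℝ) ≤ M) :
    (A.card : ℝ) ≤ B.card * M := by
  rw [Finset.card_eq_sum_card_fiberwise h]
  push_cast
  refine (Finset.sum_le_sum hM).trans ?_
  rw [Finset.sum_const, nsmul_eq_mul]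

private theorem Far_card (S : Finset ℕ) (a L : ℝ) (hL : 0 ≤ L) (h : ∀ x ∈ S, |(x : ℝ) - a| ≤ L) :
    (S.card : ℝ) ≤ 2 * L + 1 := by
  rcases S.eq_empty_or_nonempty with h0 | h0
  · rw [h0, Finset.card_empty]
    push_cast
    linarith
  · have h1 : S ⊆ Finset.Icc (S.min' h0) (S.max' h0) := fun x hx =>
      Finset.mem_Icc.2 ⟨S.min'_le x hx, S.le_max' x hx⟩
    have h2 := Finset.card_le_card h1
    rw [Nat.card_Icc] at h2
    have h3 := abs_le.1 (h _ (S.min'_mem h0))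
    have h4 := abs_le.1 (h _ (S.max'_mem h0))
    have h5 : S.min' h0 ≤ S.max' h0 := S.min'_le _ (S.max'_mem h0)
    have h6 : (S.card : ℝ) ≤ (S.max' h0 : ℝ) + 1 - S.min' h0 := by
      have h7 : S.card + S.min' h0 ≤ S.max' h0 + 1 := by omega
      have h8 : ((S.card + S.min' h0 : ℕ) : ℝ) ≤ ((S.max' h0 + 1 : ℕ) : ℝ) := by exact_mod_cast h7
      push_cast at h8
      linarith
    linarith [h3.1, h4.2]

private theorem Far_Q {C Q : ℝ} (hC : 1 ≤ C) (hQ : 200 * C ^ 10 ≤ Q) : 200 ≤ Q ∧ 200 * C ^ 6 ≤ Q ∧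
    200 * C ^ 5 ≤ Q ∧ 200 * C ^ 3 ≤ Q ∧ 200 * C ≤ Q := by
  have h1 : (1 : ℝ) ≤ C ^ 10 := one_le_pow₀ hC
  have h2 : C ^ 6 ≤ C ^ 10 := pow_le_pow_right₀ hC (by norm_num)
  have h3 : C ^ 5 ≤ C ^ 10 := pow_le_pow_right₀ hC (by norm_num)
  have h4 : C ^ 3 ≤ C ^ 10 := pow_le_pow_right₀ hC (by norm_num)
  have h5 : C ^ 1 ≤ C ^ 10 := pow_le_pow_right₀ hC (by norm_num)
  rw [pow_one] at h5
  refine ⟨?_, ?_, ?_, ?_, ?_⟩ <;> linarith

private theorem Far_num {C Q n P η w : ℝ} (hC : 1 ≤ C) (hQ : 200 * C ^ 10 ≤ Q) (hP : 1 ≤ P) (hQn : 8 * Q ^ 6 ≤ n)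
    (hη : 0 < η) (hηQ : η * Q ^ 60 * P ^ 3 ≤ 1) (hw1 : Q ^ 12 * η * n * P ≤ w) (hw2 : w ≤ 4 * Q ^ 3 * η * n ^ 2 * P) :
    10 * C ^ 3 * Q ^ 3 * η * P ≤ 1 / 2 ∧
    (C * w / n + 2) * (2 * (10 * C ^ 3 * Q ^ 3 * η * P) * C ^ 2 * n ^ 2 / w + 1) ≤ n / Q ^ 6 := by
  obtain ⟨hQ0, hQ6, hQ5, hQ3, hQC⟩ := Far_Q hC hQ
  have hQp : 0 < Q := by linarith
  have hQ1 : 1 ≤ Q := by linarith
  have hCp : 0 < C := by linarith
  have hPp : 0 < P := by linarith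
  have hn : 0 < n := lt_of_lt_of_le (by positivity) hQn
  have hwp : 0 < w := lt_of_lt_of_le (by positivity) hw1
  obtain ⟨e, he⟩ : ∃ e : ℝ, e = η * P := ⟨_, rfl⟩
  have hep : 0 < e := by
    rw [he]
    positivity
  have he60 : Q ^ 60 * e ≤ 1 := by
    have h1 : P ≤ P ^ 3 := by
      have := pow_le_pow_right₀ hP (show 1 ≤ 3 by norm_num)
      rwa [pow_one] at this
    have h2 : η * Q ^ 60 * P ≤ η * Q ^ 60 * P ^ 3 := mul_le_mul_of_nonneg_left h1 (by positivity)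
    rw [he]
    linarith
  have hpow : ∀ k : ℕ, k ≤ 60 → Q ^ k * e ≤ 1 := fun k hk =>
    (mul_le_mul_of_nonneg_right (pow_le_pow_right₀ hQ1 hk) hep.le).trans he60
  have k1 : 80 * C ^ 6 * Q ^ 9 * e ≤ 1 := by
    have h1 : 80 * C ^ 6 ≤ Q := by
      have : 0 ≤ C ^ 6 := by positivity
      linarith
    have h2 : 80 * C ^ 6 * (Q ^ 9 * e) ≤ Q * (Q ^ 9 * e) := mul_le_mul_of_nonneg_right h1 (by positivity)
    have h3 := hpow 10 (by norm_num)
    calc 80 * C ^ 6 * Q ^ 9 * e = 80 * C ^ 6 * (Q ^ 9 * e) := by ring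
      _ ≤ Q * (Q ^ 9 * e) := h2
      _ = Q ^ 10 * e := by ring
      _ ≤ 1 := h3
  have k2 : 16 * C * Q ^ 9 * e ≤ 1 := by
    have h1 : 16 * C ≤ Q := by linarith
    have h2 : 16 * C * (Q ^ 9 * e) ≤ Q * (Q ^ 9 * e) := mul_le_mul_of_nonneg_right h1 (by positivity)
    have h3 := hpow 10 (by norm_num)
    calc 16 * C * Q ^ 9 * e = 16 * C * (Q ^ 9 * e) := by ring
      _ ≤ Q * (Q ^ 9 * e) := h2
      _ = Q ^ 10 * e := by ring
      _ ≤ 1 := h3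
  have k3 : 160 * C ^ 5 ≤ Q ^ 3 := by
    have h1 : Q ≤ Q ^ 3 := by
      have := pow_le_pow_right₀ hQ1 (show 1 ≤ 3 by norm_num)
      rwa [pow_one] at this
    have : 0 ≤ C ^ 5 := by positivity
    linarith
  have k0 : 20 * C ^ 3 * Q ^ 3 * e ≤ 1 := by
    have h1 : 20 * C ^ 3 ≤ Q := by
      have : 0 ≤ C ^ 3 := by positivity
      linarith
    have h2 : 20 * C ^ 3 * (Q ^ 3 * e) ≤ Q * (Q ^ 3 * e) := mul_le_mul_of_nonneg_right h1 (by positivity)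
    have h3 := hpow 4 (by norm_num)
    calc 20 * C ^ 3 * Q ^ 3 * e = 20 * C ^ 3 * (Q ^ 3 * e) := by ring
      _ ≤ Q * (Q ^ 3 * e) := h2
      _ = Q ^ 4 * e := by ring
      _ ≤ 1 := h3
  have hκ : 10 * C ^ 3 * Q ^ 3 * η * P = 10 * C ^ 3 * Q ^ 3 * e := by
    rw [he]
    ring
  rw [hκ]
  refine ⟨by linarith, ?_⟩
  have hw1' : Q ^ 12 * n * e ≤ w := by
    rw [he]
    calc Q ^ 12 * n * (η * P) = Q ^ 12 * η * n * P := by ring
      _ ≤ w := hw1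
  have hw2' : w ≤ 4 * Q ^ 3 * n ^ 2 * e := by
    rw [he]
    calc w ≤ 4 * Q ^ 3 * η * n ^ 2 * P := hw2
      _ = _ := by ring
  have t1 : C * w / n * (2 * (10 * C ^ 3 * Q ^ 3 * e) * C ^ 2 * n ^ 2 / w) = 20 * C ^ 6 * Q ^ 3 * e * n := by
    field_simp
    ring
  have t1' : 20 * C ^ 6 * Q ^ 3 * e * n ≤ n / Q ^ 6 / 4 := by
    have h1 : 20 * C ^ 6 * Q ^ 3 * e * n = (80 * C ^ 6 * Q ^ 9 * e) * (n / Q ^ 6 / 4) := by
      field_simp
      ring
    rw [h1]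
    exact mul_le_of_le_one_left (by positivity) k1
  have t2 : C * w / n ≤ n / Q ^ 6 / 4 := by
    rw [div_le_iff₀ hn]
    have h1 : C * (4 * Q ^ 3 * n ^ 2 * e) = (16 * C * Q ^ 9 * e) * (n / Q ^ 6 / 4 * n) := by
      field_simp
      ring
    calc C * w ≤ C * (4 * Q ^ 3 * n ^ 2 * e) := mul_le_mul_of_nonneg_left hw2' hCp.le
      _ = (16 * C * Q ^ 9 * e) * (n / Q ^ 6 / 4 * n) := h1
      _ ≤ n / Q ^ 6 / 4 * n := mul_le_of_le_one_left (by positivity) k2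
  have t3 : 2 * (2 * (10 * C ^ 3 * Q ^ 3 * e) * C ^ 2 * n ^ 2 / w) ≤ n / Q ^ 6 / 4 := by
    have h0 : 2 * (2 * (10 * C ^ 3 * Q ^ 3 * e) * C ^ 2 * n ^ 2 / w) = (40 * C ^ 5 * Q ^ 3 * e * n ^ 2) / w := by
      ring
    rw [h0, div_le_iff₀ hwp]
    have h1 : n / Q ^ 6 / 4 * (Q ^ 12 * n * e) = Q ^ 3 * (Q ^ 3 * e * n ^ 2 / 4) := by
      field_simp
    calc 40 * C ^ 5 * Q ^ 3 * e * n ^ 2 = 160 * C ^ 5 * (Q ^ 3 * e * n ^ 2 / 4) := by ring
      _ ≤ Q ^ 3 * (Q ^ 3 * e * n ^ 2 / 4) := mul_le_mul_of_nonneg_right k3 (by positivity)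
      _ = n / Q ^ 6 / 4 * (Q ^ 12 * n * e) := h1.symm
      _ ≤ n / Q ^ 6 / 4 * w := mul_le_mul_of_nonneg_left hw1' (by positivity)
  have t4 : 2 ≤ n / Q ^ 6 / 4 := by
    rw [le_div_iff₀ (by norm_num : (0 : ℝ) < 4), le_div_iff₀ (by positivity)]
    linarith
  calc (C * w / n + 2) * (2 * (10 * C ^ 3 * Q ^ 3 * e) * C ^ 2 * n ^ 2 / w + 1)
      = C * w / n * (2 * (10 * C ^ 3 * Q ^ 3 * e) * C ^ 2 * n ^ 2 / w) + C * w / n +
        2 * (2 * (10 * C ^ 3 * Q ^ 3 * e) * C ^ 2 * n ^ 2 / w) + 2 := by ring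
    _ ≤ n / Q ^ 6 := by
      rw [t1]
      linarith

open Classical in
theorem far (C : ℝ) (hC : 1 ≤ C) (n P : ℕ) (Q η : ℝ) (α : ℕ → ℝ) (r : ℕ) (U : Finset ℕ) (s d b : ℕ → ℕ) (T : ℕ → ℝ)
    (hc : Cov C n Q η α r U s d b T) (hP : 1 ≤ P) (hQ : 200 * C ^ 10 ≤ Q) (hQn : 8 * Q ^ 6 ≤ n) (hη : 0 < η)
    (hηQ : η * Q ^ 60 * (P : ℝ) ^ 3 ≤ 1) :
    (((QS C P U).filter (fun q => nz (q.1.2 * α q.1.1 - q.2.2 * α q.2.1) ≤ 2 * η * P ∧
      Q ^ 12 * η * n < |T (s q.1.1) - T (s q.2.1)|)).card : ℝ) ≤ n * P ^ 2 / Q ^ 3 := by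
  obtain ⟨hQ0, hQ6, hQ5, hQ3, hQC⟩ := Far_Q hC hQ
  have hQp : 0 < Q := by linarith
  have hQ1 : 1 ≤ Q := by linarith
  have hCp : 0 < C := by linarith
  have hP' : (1 : ℝ) ≤ P := by exact_mod_cast hP
  have hPp : (0 : ℝ) < P := by linarith
  have hnp : (0 : ℝ) < n := lt_of_lt_of_le (by positivity) hQn
  have hn : 1 ≤ n := by
    have : 0 < n := by exact_mod_cast hnp
    omega
  obtain ⟨A, hA⟩ : ∃ A, A = (QS C P U).filter (fun q => nz (q.1.2 * α q.1.1 - q.2.2 * α q.2.1) ≤ 2 * η * P ∧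
      Q ^ 12 * η * n < |T (s q.1.1) - T (s q.2.1)|) := ⟨_, rfl⟩
  rw [← hA]
  have hAm : ∀ q ∈ A, q ∈ QS C P U ∧ nz (q.1.2 * α q.1.1 - q.2.2 * α q.2.1) ≤ 2 * η * P ∧
      Q ^ 12 * η * n < |T (s q.1.1) - T (s q.2.1)| := by
    intro q hq
    rw [hA, Finset.mem_filter] at hq
    exact hq
  have hlev : ∀ x ∈ range r ×ˢ range r ×ˢ Ioc P (2 * P),
      ((A.filter (fun q => (s q.1.1, s q.2.1, q.1.2) = x)).card : ℝ) ≤ (n / Q ^ 6) * (P * (8 * C + 1)) := by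
    rintro ⟨j, j', p⟩ hx
    rw [mem_product, mem_product, mem_range, mem_range, mem_Ioc] at hx
    obtain ⟨hj, hj', hp1, hp2⟩ := hx
    have hp1' : (P : ℝ) < p := by exact_mod_cast hp1
    have hp2' : (p : ℝ) ≤ 2 * P := by exact_mod_cast hp2
    have hpp : (0 : ℝ) < p := by linarith
    obtain ⟨A1, hA1⟩ : ∃ A1, A1 = A.filter (fun q => (s q.1.1, s q.2.1, q.1.2) = (j, j', p)) := ⟨_, rfl⟩
    rw [← hA1]
    have hA1m : ∀ q ∈ A1, q ∈ A ∧ s q.1.1 = j ∧ s q.2.1 = j' ∧ q.1.2 = p := by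
      intro q hq
      rw [hA1, Finset.mem_filter, Prod.mk.injEq, Prod.mk.injEq] at hq
      exact hq
    have hfib3 : ∀ i ∈ A1.image (fun q => q.1.1), ((A1.filter (fun q => q.1.1 = i)).card : ℝ) ≤ P * (8 * C + 1) := by
      intro i _
      obtain ⟨A2, hA2⟩ : ∃ A2, A2 = A1.filter (fun q => q.1.1 = i) := ⟨_, rfl⟩
      rw [← hA2]
      have hA2m : ∀ q ∈ A2, q ∈ A1 ∧ q.1.1 = i := by
        intro q hq
        rw [hA2, Finset.mem_filter] at hq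
        exact hq
      have h4 : ∀ p' ∈ Ioc P (2 * P), ((A2.filter (fun q => q.2.2 = p')).card : ℝ) ≤ 8 * C + 1 := by
        intro p' _
        obtain ⟨A3, hA3⟩ : ∃ A3, A3 = A2.filter (fun q => q.2.2 = p') := ⟨_, rfl⟩
        rw [← hA3]
        have hA3m : ∀ q ∈ A3, q ∈ A2 ∧ q.2.2 = p' := by
          intro q hq
          rw [hA3, Finset.mem_filter] at hq
          exact hq
        have hinj : Set.InjOn (fun q : (ℕ × ℕ) × (ℕ × ℕ) => q.2.1) (A3 : Set ((ℕ × ℕ) × (ℕ × ℕ))) := by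
          intro q hq q' hq' h
          have hq := Finset.mem_coe.1 hq
          have hq' := Finset.mem_coe.1 hq'
          have a1 := hA3m q hq
          have a2 := hA3m q' hq'
          have b1 := hA2m q a1.1
          have b2 := hA2m q' a2.1
          have c1 := hA1m q b1.1
          have c2 := hA1m q' b2.1
          exact Prod.ext (Prod.ext (b1.2.trans b2.2.symm) (c1.2.2.2.trans c2.2.2.2.symm))
            (Prod.ext h (a1.2.trans a2.2.symm))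
        rw [← Finset.card_image_of_injOn hinj]
        have h5 := Far_card (A3.image (fun q => q.2.1)) ((i : ℝ) * p' / p) (4 * C) (by positivity) (by
          intro x hx
          obtain ⟨q, hq, hqx⟩ := Finset.mem_image.1 hx
          have a1 := hA3m q hq
          have b1 := hA2m q a1.1
          have c1 := hA1m q b1.1
          have d1 := (mem_QS.1 (hAm q c1.1).1).2.2.2.2.2.2.2.2
          rw [a1.2, b1.2, c1.2.2.2] at d1
          have hqx' : q.2.1 = x := hqx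
          rw [hqx'] at d1
          have e1 : (x : ℝ) - (i : ℝ) * p' / p = -(((i : ℝ) * p' - x * p) / p) := by
            field_simp
            ring
          rw [e1, abs_neg, abs_div, abs_of_pos hpp, div_le_iff₀ hpp]
          refine d1.trans ?_
          exact mul_le_mul_of_nonneg_left hp1'.le (by positivity))
        linarith
      have h5 := Far_fib A2 (fun q => q.2.2) (Ioc P (2 * P)) (8 * C + 1) (by
        intro q hq
        have b1 := hA2m q hq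
        have c1 := hA1m q b1.1
        have d1 := mem_QS.1 (hAm q c1.1).1
        exact mem_Ioc.2 ⟨d1.2.2.2.2.2.1, d1.2.2.2.2.2.2.1⟩) h4
      rw [Nat.card_Ioc] at h5
      have e1 : 2 * P - P = P := by omega
      rw [e1] at h5
      exact h5
    have hM := Far_fib A1 (fun q => q.1.1) (A1.image (fun q => q.1.1)) (P * (8 * C + 1))
      (fun q hq => Finset.mem_image_of_mem _ hq) hfib3
    refine hM.trans (mul_le_mul_of_nonneg_right ?_ (by positivity))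
    rcases A1.eq_empty_or_nonempty with h0 | ⟨q0, hq0⟩
    · rw [h0, Finset.image_empty, Finset.card_empty]
      push_cast
      positivity
    · have hq1 := hA1m q0 hq0
      have hZ := (hAm q0 hq1.1).2.2
      rw [hq1.2.1, hq1.2.2.1] at hZ
      obtain ⟨hd1, hd2, _, hd4⟩ := hc.dat j hj
      obtain ⟨hd1', hd2', _, hd4'⟩ := hc.dat j' hj'
      have hdj : (1 : ℝ) ≤ d j := by exact_mod_cast hd1
      have hdj' : (1 : ℝ) ≤ d j' := by exact_mod_cast hd1'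
      obtain ⟨W, hW⟩ : ∃ W : ℝ, W = ((d j * d j' : ℕ) : ℝ) * (T j - T j') * p := ⟨_, rfl⟩
      have hWabs : |W| = ((d j : ℝ) * d j') * |T j - T j'| * p := by
        rw [hW, abs_mul, abs_mul, abs_of_pos hpp]
        push_cast
        rw [abs_of_nonneg (show (0 : ℝ) ≤ (d j : ℝ) * d j' by positivity)]
      have hDD : (d j : ℝ) * d j' ≤ Q * Q := mul_le_mul hd2 hd2' (by positivity) hQp.le
      have hDD1 : (1 : ℝ) ≤ (d j : ℝ) * d j' := one_le_mul_of_one_le_of_one_le hdj hdj'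
      have hTT : |T j - T j'| ≤ 2 * (Q * η * (n : ℝ) ^ 2) := by
        refine (abs_sub _ _).trans ?_
        linarith
      have hw1 : Q ^ 12 * η * n * P ≤ |W| := by
        rw [hWabs]
        have h5 : Q ^ 12 * η * n ≤ ((d j : ℝ) * d j') * |T j - T j'| := by
          have h6 : 1 * |T j - T j'| ≤ ((d j : ℝ) * d j') * |T j - T j'| :=
            mul_le_mul_of_nonneg_right hDD1 (abs_nonneg _)
          linarith
        exact mul_le_mul h5 hp1'.le hPp.le (by positivity)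
      have hw2 : |W| ≤ 4 * Q ^ 3 * η * (n : ℝ) ^ 2 * P := by
        rw [hWabs]
        calc ((d j : ℝ) * d j') * |T j - T j'| * p
            ≤ (Q * Q) * (2 * (Q * η * (n : ℝ) ^ 2)) * (2 * P) := by
              apply mul_le_mul _ hp2' hpp.le (by positivity)
              exact mul_le_mul hDD hTT (abs_nonneg _) (by positivity)
          _ = 4 * Q ^ 3 * η * (n : ℝ) ^ 2 * P := by ring
      obtain ⟨hκ2, hnum⟩ := Far_num (n := (n : ℝ)) (P := (P : ℝ)) hC hQ hP' hQn hη hηQ hw1 hw2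
      have hW0 : W ≠ 0 := by
        intro h5
        rw [h5, abs_zero] at hw1
        have : 0 < Q ^ 12 * η * n * P := by positivity
        linarith
      have hosc := osc C hC n W (10 * C ^ 3 * Q ^ 3 * η * P) hn hW0 (by positivity) hκ2
        (A1.image (fun q => q.1.1)) (by
          intro i hi
          obtain ⟨q, hq, hqi⟩ := Finset.mem_image.1 hi
          have hqi' : q.1.1 = i := hqi
          have c1 := hA1m q hq
          have a1 := hAm q c1.1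
          have u1 := (mem_QS.1 a1.1).1
          rw [hqi'] at u1
          have hr := hc.rng i u1
          have hi0 : (0 : ℝ) < i := lt_of_lt_of_le (by positivity) hr.1
          refine ⟨hr.1, hr.2, ?_⟩
          have hp := pair_f C hC n P Q η α r U s d b T hc hn hP hQ1 hη.le q a1.1 a1.2.1
          rw [c1.2.1, c1.2.2.1, c1.2.2.2, hqi'] at hp
          have hk := Pool.Agent.H53.MID.nz_nat_mul (d j * d j') ((p : ℝ) * (b j / d j) - q.2.2 * (b j' / d j') + p * (T j - T j') / i)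
          have e1 : ((d j * d j' : ℕ) : ℝ) * ((p : ℝ) * (b j / d j) - q.2.2 * (b j' / d j') + p * (T j - T j') / i) =
              W / i + (((d j' * p * b j : ℤ) - (d j * q.2.2 * b j' : ℤ) : ℤ) : ℝ) := by
            rw [hW]
            push_cast
            field_simp
            ring
          rw [e1, Pool.Agent.H53.MID.nz_add_int] at hk
          refine hk.trans ?_
          push_cast
          calc (d j : ℝ) * d j' * nz ((p : ℝ) * (b j / d j) - q.2.2 * (b j' / d j') + p * (T j - T j') / i)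
              ≤ (Q * Q) * (10 * C ^ 3 * Q * η * P) := mul_le_mul hDD hp (Pool.Agent.H53.MID.nz_nonneg _) (by positivity)
            _ = 10 * C ^ 3 * Q ^ 3 * η * P := by ring)
      exact hosc.trans hnum
  have hfin := Far_fib A (fun q => (s q.1.1, s q.2.1, q.1.2)) (range r ×ˢ range r ×ˢ Ioc P (2 * P))
    ((n / Q ^ 6) * (P * (8 * C + 1))) (by
      intro q hq
      have a1 := mem_QS.1 (hAm q hq).1
      rw [mem_product, mem_product, mem_range, mem_range, mem_Ioc]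
      exact ⟨hc.lab _ a1.1, hc.lab _ a1.2.2.2.2.1, a1.2.1, a1.2.2.1⟩) hlev
  refine hfin.trans ?_
  rw [card_product, card_product, card_range, Nat.card_Ioc]
  have e1 : 2 * P - P = P := by omega
  rw [e1]
  push_cast
  have hr := hc.cnt
  have hr2 : (r : ℝ) * r ≤ (C * Q) * (C * Q) := mul_le_mul hr hr (Nat.cast_nonneg _) (by positivity)
  have hC3 : C ^ 2 * (8 * C + 1) ≤ Q := by
    have h5 : C ^ 2 * 1 ≤ C ^ 2 * C := mul_le_mul_of_nonneg_left hC (by positivity)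
    have h6 : 0 ≤ C ^ 3 := by positivity
    have h7 : C ^ 2 * C = C ^ 3 := by ring
    have h8 : C ^ 2 * (8 * C + 1) = 8 * C ^ 3 + C ^ 2 * 1 := by ring
    rw [h8]
    rw [h7] at h5
    linarith
  calc (r : ℝ) * (r * P) * (n / Q ^ 6 * (P * (8 * C + 1)))
      = (r * r) * (P * (n / Q ^ 6 * (P * (8 * C + 1)))) := by ring
    _ ≤ ((C * Q) * (C * Q)) * (P * (n / Q ^ 6 * (P * (8 * C + 1)))) :=
        mul_le_mul_of_nonneg_right hr2 (by positivity)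
    _ = (C ^ 2 * (8 * C + 1)) * (n * P ^ 2 / Q ^ 4) := by
        field_simp
    _ ≤ Q * (n * P ^ 2 / Q ^ 4) := mul_le_mul_of_nonneg_right hC3 (by positivity)
    _ = n * P ^ 2 / Q ^ 3 := by
        field_simp

end Pool.Agent.H53.MDB

end

section

/-!
# MDB BoostF: the combinatorial theorem with the boost

Proof.  Given `C, C0`.  `L = log N`, `Q = exp(L^t2)`; for large `N`: `200 C^10 ≤ Q ≤ P` (`t2 < t`), `8 Q^6 ≤ N^(1/4) ≤ n` (`t2 < 1`), `L ≥ 100 C^3`, `24 C^2 L^(2 C0) · 2 ≤ Q^3`.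
(1) `cover`: `r, U, s, d, b, T`, `Cov C n Q η α r U s d b T`; `R1 = R0.filter (t.1 ∈ U)`, `|R1| ≥ n P/(2 L^C0)`, `Rel C n P (η P) U G0 α β R1` (`rngF` from `U ⊆ F0`).
(2) `pairs`: the set `A` of the `q ∈ QS C P U` with `nz (p α_i - p' α_i') ≤ 2 η P` has `≥ |R1|^2/(C n (2C+1)) ≥ n P^2/(12 C^2 L^(2 C0))` elements (`2C+1 ≤ 3C`).
(3) `far`: the `q ∈ A` with `|T (s i) - T (s i')| > Z := Q^12 η n` are `≤ n P^2/Q^3 ≤ n P^2/(24 C^2 L^(2C0))`.  So the near ones (`≤ Z`) are `≥ n P^2/(24 C^2 L^(2C0))`.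
(4) `near`: for a near `q`: `d (s i) = d (s i')`, `p b (s i) ≡ p' b (s i') mod d (s i)`.  `split Z U (fun i => d (s i)) (fun i => T (s i))`: `K`; with `U_k = U.filter (...)`: every near `q` is in `NB C P U_k k.2 bb` for some `k ∈ K`, `bb i = b (s i)`.  So
`∑_{k ∈ K} |NB_k| ≥ n P^2/(24 C^2 L^(2 C0))`, `∑_k |U_k| ≤ 2 |U| ≤ 2 C n`.
(5) `boostl` with `A1 = 2 C0 + 1` (for `k ∈ K`: `δ = k.2 = d (s i)` for some `i ∈ U`, so `1 ≤ δ ≤ Q`; for `i ∈ U_k`: `b (s i)` is prime to `d (s i) = δ`): `∑_k |U_k|/L^(2C0+1) ≤ 2 C n/L^(2C0+1) ≤ n/(48 C^2 L^(2C0))`, so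
`∑_k L^T1 |U_k|^2/(n δ_k) ≥ n/(48 C^2 L^(2 C0))`, and as `∑_k |U_k| ≤ 2 C n` some `k` has `L^T1 |U_k|/(n δ_k) ≥ 1/(96 C^3 L^(2 C0))`, i.e. `|U_k| ≥ δ_k n/L^(C1')`, `C1' = 2 C0 + T1 + 1`.
(6) `δ := δ_k ≤ |U_k| L^C1'/n ≤ C L^C1' ≤ L^(C1'+1)`.  Pigeonhole: some `c < δ` is `bb i % δ` for `≥ |U_k|/δ ≥ n/L^C1'` elements `i ∈ U_k`: they form `F1`.  Answer: `d = δ`, `b = c`, `T = k.1 Z`, `C1 = C1' + 1`.
`F1` is nonempty; for `i ∈ F1`: `|T (s i) - T| ≤ 2 Z`, so `|T| ≤ Q η n^2 + 2 Q^12 η n ≤ Q^20 η n^2`; `α_i - c/δ - T/i = (α_i - b(s i)/δ - T(s i)/i) + (b (s i) - c)/δ + (T (s i) - T)/i`, the middle term is an integer,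
`nz ≤ Q η + 2 Q^12 η n C/n ≤ Q^13 η`.
-/

set_option autoImplicit false

namespace Pool.Agent.H53.MDB

open Finset
open Pool.Agent.H53.MID (nz Rel)
open Pool.Agent.H53.MIX (VKe CombX)

open Filter Asymptotics in
/-- large `N` -/
private theorem BoostF_large (t t2 : ℝ) (h2 : 0 < t2) (h2t : t2 < t) (ht : t < 1) (C : ℝ) (hC : 1 ≤ C) (C0 : ℕ) :
    ∃ N1 : ℕ, ∀ N : ℕ, N1 ≤ N → 192 * C ^ 3 ≤ Real.log N ∧ 200 * C ^ 10 ≤ Real.exp (Real.log N ^ t2) ∧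
      24 * C ^ 2 * Real.log N ^ (2 * C0) ≤ Real.exp (Real.log N ^ t2) ^ 3 ∧
      8 * Real.exp (Real.log N ^ t2) ^ 6 ≤ (N : ℝ) ^ (1 / 4 : ℝ) ∧
      Real.exp (Real.log N ^ t2) ≤ Real.exp (Real.log N ^ t) ∧ 1 ≤ N := by
  have hlog : Tendsto (fun N : ℕ => Real.log (N : ℝ)) atTop atTop :=
    Real.tendsto_log_atTop.comp tendsto_natCast_atTop_atTop
  have hpow : Tendsto (fun N : ℕ => Real.log (N : ℝ) ^ t2) atTop atTop := (tendsto_rpow_atTop h2).comp hlog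
  have hexp : Tendsto (fun N : ℕ => Real.exp (Real.log (N : ℝ) ^ t2)) atTop atTop := Real.tendsto_exp_atTop.comp hpow
  have hC2 : (0 : ℝ) < 1 / (24 * C ^ 2) := by positivity
  have h1 := hlog.eventually_ge_atTop (192 * C ^ 3)
  have h3 := hexp.eventually_ge_atTop (200 * C ^ 10)
  have h6 := hpow.eventually ((isLittleO_rpow_exp_atTop ((2 * C0 : ℕ) / t2 : ℝ)).bound hC2)
  have h7 : Tendsto (fun N : ℕ => Real.log (N : ℝ) ^ (1 - t2)) atTop atTop :=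
    (tendsto_rpow_atTop (by linarith)).comp hlog
  have h8 := h7.eventually_ge_atTop 48
  obtain ⟨N1, hN1⟩ := eventually_atTop.1 (h1.and (h3.and (h6.and (h8.and (eventually_ge_atTop 1)))))
  refine ⟨N1, fun N hN => ?_⟩
  obtain ⟨a1, a3, a6, a8, a9⟩ := hN1 N hN
  obtain ⟨L, hL⟩ : ∃ L, L = Real.log (N : ℝ) := ⟨_, rfl⟩
  rw [← hL] at a1 a3 a6 a8 ⊢
  have hC3 : (1 : ℝ) ≤ C ^ 3 := one_le_pow₀ hC
  have hL1 : (192 : ℝ) ≤ L := by linarith
  have hL0 : (0 : ℝ) < L := by linarith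
  have hQ1 : (1 : ℝ) ≤ Real.exp (L ^ t2) := Real.one_le_exp (Real.rpow_nonneg hL0.le _)
  refine ⟨a1, a3, ?_, ?_, ?_, a9⟩
  · have e1 : (L ^ t2) ^ ((2 * C0 : ℕ) / t2 : ℝ) = L ^ (2 * C0) := by
      rw [← Real.rpow_mul hL0.le, mul_div_cancel₀ _ h2.ne', Real.rpow_natCast]
    rw [e1, Real.norm_of_nonneg (pow_nonneg hL0.le _), Real.norm_of_nonneg (Real.exp_pos _).le] at a6
    have e2 : 24 * C ^ 2 * L ^ (2 * C0) ≤ Real.exp (L ^ t2) := by
      have e3 : (0 : ℝ) < 24 * C ^ 2 := by positivity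
      calc 24 * C ^ 2 * L ^ (2 * C0) ≤ 24 * C ^ 2 * (1 / (24 * C ^ 2) * Real.exp (L ^ t2)) :=
            mul_le_mul_of_nonneg_left a6 e3.le
        _ = Real.exp (L ^ t2) := by field_simp
    exact e2.trans (le_self_pow₀ hQ1 (by norm_num))
  · have e1 : (N : ℝ) ^ (1 / 4 : ℝ) = Real.exp (L / 8) * Real.exp (L / 8) := by
      have hN0 : (0 : ℝ) < N := by exact_mod_cast a9
      rw [Real.rpow_def_of_pos hN0, ← hL, ← Real.exp_add]
      congr 1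
      ring
    have e2 : (8 : ℝ) ≤ Real.exp (L / 8) := by
      have := Real.add_one_le_exp (L / 8)
      linarith
    have e3 : L ^ t2 * 48 ≤ L := by
      have e4 : L ^ t2 * L ^ (1 - t2) = L := by
        rw [← Real.rpow_add hL0]
        have : t2 + (1 - t2) = 1 := by ring
        rw [this, Real.rpow_one]
      calc L ^ t2 * 48 ≤ L ^ t2 * L ^ (1 - t2) := mul_le_mul_of_nonneg_left a8 (Real.rpow_nonneg hL0.le _)
        _ = L := e4
    have e5 : Real.exp (L ^ t2) ^ 6 ≤ Real.exp (L / 8) := by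
      rw [← Real.exp_nat_mul]
      apply Real.exp_le_exp.2
      push_cast
      linarith
    rw [e1]
    exact mul_le_mul e2 e5 (by positivity) (by positivity)
  · apply Real.exp_le_exp.2
    exact Real.rpow_le_rpow_of_exponent_le (by linarith) h2t.le

/-- selection of a class -/
private theorem BoostF_sel {ι : Type} (K : Finset ι) (u δ : ι → ℝ) (C n L : ℝ) (C0 T1 : ℕ) (hC : 1 ≤ C) (hn : 0 < n)
    (hL : 192 * C ^ 3 ≤ L) (hu : ∀ k ∈ K, 0 ≤ u k) (hδ : ∀ k ∈ K, 0 < δ k) (hs : ∑ k ∈ K, u k ≤ 2 * (C * n))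
    (h : n / (24 * C ^ 2 * L ^ (2 * C0)) ≤ ∑ k ∈ K, (L ^ T1 * u k ^ 2 / (n * δ k) + u k / L ^ (2 * C0 + 1))) :
    ∃ k ∈ K, n * δ k ≤ u k * L ^ (2 * C0 + T1 + 1) := by
  by_contra hcon
  push Not at hcon
  have hC3 : (1 : ℝ) ≤ C ^ 3 := one_le_pow₀ hC
  have hL0 : (0 : ℝ) < L := by linarith
  have h1 : ∀ k ∈ K, L ^ T1 * u k ^ 2 / (n * δ k) + u k / L ^ (2 * C0 + 1) ≤ 2 * u k / L ^ (2 * C0 + 1) := by
    intro k hk
    have h2 : 0 < n * δ k := mul_pos hn (hδ k hk)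
    have h3 : L ^ T1 * u k ^ 2 / (n * δ k) ≤ u k / L ^ (2 * C0 + 1) := by
      rw [div_le_div_iff₀ h2 (pow_pos hL0 _)]
      have h4 := mul_le_mul_of_nonneg_left (hcon k hk).le (hu k hk)
      calc L ^ T1 * u k ^ 2 * L ^ (2 * C0 + 1) = u k * (u k * L ^ (2 * C0 + T1 + 1)) := by ring
        _ ≤ u k * (n * δ k) := h4
    have h5 : 2 * u k / L ^ (2 * C0 + 1) = u k / L ^ (2 * C0 + 1) + u k / L ^ (2 * C0 + 1) := by ring
    rw [h5]
    exact add_le_add_left h3 _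
  have h6 := h.trans (sum_le_sum h1)
  have h7 : ∑ k ∈ K, 2 * u k / L ^ (2 * C0 + 1) = 2 * (∑ k ∈ K, u k) / L ^ (2 * C0 + 1) := by
    rw [mul_sum, sum_div]
  rw [h7] at h6
  have h8 : 2 * (∑ k ∈ K, u k) / L ^ (2 * C0 + 1) ≤ 4 * (C * n) / L ^ (2 * C0 + 1) := by
    apply div_le_div_of_nonneg_right _ (pow_nonneg hL0.le _)
    linarith
  have h9 := h6.trans h8
  have hLp : (0 : ℝ) < L ^ (2 * C0) := pow_pos hL0 _
  rw [div_le_div_iff₀ (by positivity) (by positivity), pow_succ L (2 * C0)] at h9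
  have h10 : n * L ≤ n * (96 * C ^ 3) := by
    have h11 : (n * L) * L ^ (2 * C0) ≤ (n * (96 * C ^ 3)) * L ^ (2 * C0) := by
      calc (n * L) * L ^ (2 * C0) = n * (L ^ (2 * C0) * L) := by ring
        _ ≤ 4 * (C * n) * (24 * C ^ 2 * L ^ (2 * C0)) := h9
        _ = (n * (96 * C ^ 3)) * L ^ (2 * C0) := by ring
    exact le_of_mul_le_mul_right h11 hLp
  have h12 := le_of_mul_le_mul_left h10 hn
  linarith

open Classical in
/-- many near quadruples -/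
private theorem BoostF_near (C : ℝ) (hC : 1 ≤ C) (n P : ℕ) (Q η L : ℝ) (C0 : ℕ) (α β : ℕ → ℝ) (r : ℕ) (U G0 : Finset ℕ)
    (R1 : Finset (ℕ × ℕ × ℕ)) (s d b : ℕ → ℕ) (T : ℕ → ℝ) (hc : Cov C n Q η α r U s d b T)
    (hR : Rel C n P (η * P) U G0 α β R1) (hn : 1 ≤ n) (hP : 1 ≤ P) (hQ : 200 * C ^ 10 ≤ Q) (hQn : 8 * Q ^ 6 ≤ n)
    (hη : 0 < η) (hηQ : η * Q ^ 60 * (P : ℝ) ^ 3 ≤ 1) (hL : 1 ≤ L) (hQL : 24 * C ^ 2 * L ^ (2 * C0) ≤ Q ^ 3)
    (hcard : n * P / L ^ C0 / 2 ≤ (R1.card : ℝ)) :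
    (n : ℝ) * P ^ 2 / (24 * C ^ 2 * L ^ (2 * C0)) ≤ (((QS C P U).filter (fun q =>
      nz (q.1.2 * α q.1.1 - q.2.2 * α q.2.1) ≤ 2 * η * P ∧ |T (s q.1.1) - T (s q.2.1)| ≤ Q ^ 12 * η * n)).card : ℝ) := by
  have hn0 : (0 : ℝ) < n := by exact_mod_cast hn
  have hP0 : (0 : ℝ) < P := by exact_mod_cast hP
  have hL0 : (0 : ℝ) < L := by linarith
  have hLc : (0 : ℝ) < L ^ C0 := pow_pos hL0 _
  have hp := pairs C hC n P η U G0 α β R1 hR hn hP
  have hf := far C hC n P Q η α r U s d b T hc hP hQ hQn hη hηQ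
  set A := (QS C P U).filter (fun q => nz (q.1.2 * α q.1.1 - q.2.2 * α q.2.1) ≤ 2 * η * P) with hA
  have hsplit : (A.card : ℝ) = (((QS C P U).filter (fun q =>
      nz (q.1.2 * α q.1.1 - q.2.2 * α q.2.1) ≤ 2 * η * P ∧ |T (s q.1.1) - T (s q.2.1)| ≤ Q ^ 12 * η * n)).card : ℝ) +
      (((QS C P U).filter (fun q => nz (q.1.2 * α q.1.1 - q.2.2 * α q.2.1) ≤ 2 * η * P ∧
      Q ^ 12 * η * n < |T (s q.1.1) - T (s q.2.1)|)).card : ℝ) := by
    have h1 := Finset.card_filter_add_card_filter_not (s := A)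
      (fun q : (ℕ × ℕ) × (ℕ × ℕ) => |T (s q.1.1) - T (s q.2.1)| ≤ Q ^ 12 * η * n)
    rw [hA, Finset.filter_filter, Finset.filter_filter] at h1
    simp only [not_le] at h1
    rw [hA, ← h1]
    push_cast
    rfl
  have hA1 : (n : ℝ) * P ^ 2 / (12 * C ^ 2 * L ^ (2 * C0)) ≤ A.card := by
    have h1 : ((n : ℝ) * P / L ^ C0 / 2) ^ 2 ≤ (R1.card : ℝ) ^ 2 :=
      pow_le_pow_left₀ (by positivity) hcard 2
    have h2 : C * n * (2 * C + 1) * (A.card : ℝ) ≤ C * n * (3 * C) * A.card := by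
      apply mul_le_mul_of_nonneg_right _ (Nat.cast_nonneg _)
      apply mul_le_mul_of_nonneg_left _ (by positivity)
      linarith
    have h3 := (h1.trans hp).trans h2
    have h4 : ((n : ℝ) * P / L ^ C0 / 2) ^ 2 = (3 * C ^ 2 * n) * (n * P ^ 2 / (12 * C ^ 2 * L ^ (2 * C0))) := by
      have h5 : L ^ (2 * C0) = (L ^ C0) ^ 2 := by rw [← pow_mul, mul_comm]
      rw [h5]
      have hC0 : C ≠ 0 := by positivity
      field_simp
      ring
    have h6 : C * n * (3 * C) * (A.card : ℝ) = (3 * C ^ 2 * n) * A.card := by ring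
    rw [h4, h6] at h3
    exact le_of_mul_le_mul_left h3 (by positivity)
  have hF : (n : ℝ) * P ^ 2 / Q ^ 3 ≤ n * P ^ 2 / (24 * C ^ 2 * L ^ (2 * C0)) := by
    apply div_le_div_of_nonneg_left (by positivity) (by positivity) hQL
  have hhalf : (n : ℝ) * P ^ 2 / (12 * C ^ 2 * L ^ (2 * C0)) =
      n * P ^ 2 / (24 * C ^ 2 * L ^ (2 * C0)) + n * P ^ 2 / (24 * C ^ 2 * L ^ (2 * C0)) := by
    have hC0 : C ≠ 0 := by positivity
    field_simp
    norm_num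
  have hf2 := hf.trans hF
  rw [hsplit, hhalf] at hA1
  linarith

theorem comb_x (t0 t t2 : ℝ) (h0 : 0 < t0) (h0t : t0 < t) (h2 : 0 < t2) (h2t : t2 < t) (ht : t < 1) (hV : VKe t0)
    (hW : CombWk t t2) : CombX t t2 := by
  intro C hC C0
  obtain ⟨Na, hNa⟩ := cover t t2 hW C hC C0
  obtain ⟨T1, Nb, hNb⟩ := boostl t0 t t2 h0 h0t h2 h2t ht hV C hC (2 * C0 + 1)
  obtain ⟨Nc, hNc⟩ := BoostF_large t t2 h2 h2t ht C hC C0
  refine ⟨2 * C0 + T1 + 2, max Na (max Nb Nc), fun N hN n P η F0 G0 α β R0 hP hPN hnN hn hη hηQ hR hcard => ?_⟩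
  classical
  obtain ⟨l1, l2, l3, l4, l5, l6⟩ := hNc N ((le_max_right _ _).trans ((le_max_right _ _).trans hN))
  have hNb' := hNb N ((le_max_left _ _).trans ((le_max_right _ _).trans hN))
  have hNa' := hNa N ((le_max_left _ _).trans hN)
  clear hNa hNb hNc
  obtain ⟨L, hL⟩ : ∃ L, L = Real.log (N : ℝ) := ⟨_, rfl⟩
  obtain ⟨Q, hQd⟩ : ∃ Q, Q = Real.exp (L ^ t2) := ⟨_, rfl⟩
  rw [← hL] at l1 l2 l3 l4 l5 hP hηQ hcard hNa' hNb' ⊢
  rw [← hQd] at l2 l3 l4 l5 hηQ hNa' hNb' ⊢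
  have hC3 : (1 : ℝ) ≤ C ^ 3 := one_le_pow₀ hC
  have hCC3 : C ≤ C ^ 3 := le_self_pow₀ hC (by norm_num)
  have hC10 : (1 : ℝ) ≤ C ^ 10 := one_le_pow₀ hC
  have hCC10 : C ≤ C ^ 10 := le_self_pow₀ hC (by norm_num)
  have hL1 : (1 : ℝ) ≤ L := by linarith
  have hL0 : (0 : ℝ) < L := by linarith
  have hQ1 : (1 : ℝ) ≤ Q := by linarith
  have hQ0 : (0 : ℝ) < Q := by linarith
  have hC0' : (0 : ℝ) < C := by linarith
  have hNn1 : (1 : ℝ) ≤ (N : ℝ) ^ (1 / 4 : ℝ) := by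
    have : (1 : ℝ) ≤ Q ^ 6 := one_le_pow₀ hQ1
    linarith
  have hn1 : 1 ≤ n := by
    have : (1 : ℝ) ≤ n := hNn1.trans hn
    exact_mod_cast this
  have hn0 : (0 : ℝ) < n := by exact_mod_cast hn1
  have hQP : Q ≤ P := l5.trans hP
  have hP1 : 1 ≤ P := by
    have : (1 : ℝ) ≤ P := hQ1.trans hQP
    exact_mod_cast this
  have hP0 : (0 : ℝ) < P := by exact_mod_cast hP1
  have hQn : 8 * Q ^ 6 ≤ n := l4.trans hn
  have hηQ1 : η * Q * (P : ℝ) ^ 3 ≤ 1 := by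
    refine le_trans ?_ hηQ
    apply mul_le_mul_of_nonneg_right _ (by positivity)
    exact mul_le_mul_of_nonneg_left (le_self_pow₀ hQ1 (by norm_num)) hη.le
  -- (1)
  obtain ⟨r, U, s, d, b, T, hUF, hcov, hR1c⟩ := hNa' n P η F0 G0 α β R0 hP hPN hn1 hnN hη hηQ1 hR hcard
  have hRel1 : Rel C n P (η * P) U G0 α β (R0.filter (fun x => x.1 ∈ U)) :=
    { memF := fun x hx => (Finset.mem_filter.1 hx).2
      memF' := fun x hx => hR.memF' x (Finset.mem_filter.1 hx).1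
      prime := fun x hx => hR.prime x (Finset.mem_filter.1 hx).1
      pos := fun x hx => hR.pos x (Finset.mem_filter.1 hx).1
      freq := fun x hx => hR.freq x (Finset.mem_filter.1 hx).1
      rngF := fun K hK => hR.rngF K (hUF hK)
      rngF' := hR.rngF' }
  have hcard1 : (n : ℝ) * P / L ^ C0 / 2 ≤ ((R0.filter (fun x => x.1 ∈ U)).card : ℝ) := by
    refine le_trans ?_ hR1c
    linarith
  -- (2), (3)
  have hnear := BoostF_near C hC n P Q η L C0 α β r U G0 _ s d b T hcov hRel1 hn1 hP1 l2 hQn hη hηQ hL1 l3 hcard1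
  -- (4)
  have hZ : 0 < Q ^ 12 * η * n := by positivity
  obtain ⟨Z, hZd⟩ : ∃ Z, Z = Q ^ 12 * η * n := ⟨_, rfl⟩
  rw [← hZd] at hnear hZ
  obtain ⟨K, hK1, hK2, hK3⟩ := split Z hZ U (fun i => d (s i)) (fun i => T (s i))
  let Uk : ℤ × ℕ → Finset ℕ := fun k =>
    U.filter (fun i => d (s i) = k.2 ∧ k.1 * Z ≤ T (s i) ∧ T (s i) < (k.1 + 2) * Z)
  have hUk : ∀ k i, i ∈ Uk k ↔ i ∈ U ∧ d (s i) = k.2 ∧ k.1 * Z ≤ T (s i) ∧ T (s i) < (k.1 + 2) * Z := by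
    intro k i
    exact Finset.mem_filter
  have hsub : (QS C P U).filter (fun q =>
      nz (q.1.2 * α q.1.1 - q.2.2 * α q.2.1) ≤ 2 * η * P ∧ |T (s q.1.1) - T (s q.2.1)| ≤ Z) ⊆
      K.biUnion (fun k => NB C P (Uk k) k.2 (fun i => b (s i))) := by
    intro q hq
    rw [Finset.mem_filter] at hq
    obtain ⟨hq1, hq2, hq3⟩ := hq
    have hnr := near C hC n P Q η α r U s d b T hcov hn1 hP1 l2 hQP hη.le hηQ q hq1 hq2 (hZd ▸ hq3)
    rw [mem_QS] at hq1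
    obtain ⟨m1, m2, m3, m4, m5, m6, m7, m8, m9⟩ := hq1
    obtain ⟨k, hk, k1, k2, k3, k4, k5⟩ := hK3 _ m1 _ m5 hnr.1 hq3
    rw [Finset.mem_biUnion]
    refine ⟨k, hk, ?_⟩
    rw [mem_NB, mem_QS, hUk, hUk]
    refine ⟨⟨⟨m1, k1, k2, k3⟩, m2, m3, m4, ⟨m5, ?_, k4, k5⟩, m6, m7, m8, m9⟩, ?_⟩
    · rw [← hnr.1]
      exact k1
    · have := hnr.2
      rw [k1] at this
      exact this
  have hcardsum : (n : ℝ) * P ^ 2 / (24 * C ^ 2 * L ^ (2 * C0)) ≤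
      ∑ k ∈ K, ((NB C P (Uk k) k.2 (fun i => b (s i))).card : ℝ) := by
    refine hnear.trans ?_
    have h1 := (Finset.card_le_card hsub).trans Finset.card_biUnion_le
    exact_mod_cast h1
  -- (5)
  have hδ1 : ∀ k ∈ K, 1 ≤ k.2 ∧ (k.2 : ℝ) ≤ Q := by
    intro k hk
    obtain ⟨i, hi, hi2⟩ := hK1 k hk
    have h1 := hcov.dat (s i) (hcov.lab i hi)
    rw [← hi2]
    exact ⟨h1.1, h1.2.1⟩
  have hboost : ∀ k ∈ K, ((NB C P (Uk k) k.2 (fun i => b (s i))).card : ℝ) ≤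
      P ^ 2 * (L ^ T1 * (Uk k).card ^ 2 / (n * k.2) + (Uk k).card / L ^ (2 * C0 + 1)) := by
    intro k hk
    refine hNb' n P k.2 (Uk k) (fun i => b (s i)) hP hPN hn hnN (hδ1 k hk).1 (hδ1 k hk).2 fun i hi => ?_
    rw [hUk] at hi
    have h1 := hcov.dat (s i) (hcov.lab i hi.1)
    refine ⟨(hcov.rng i hi.1).1, (hcov.rng i hi.1).2, ?_⟩
    rw [← hi.2.1]
    exact h1.2.2.1
  have hsel : (n : ℝ) / (24 * C ^ 2 * L ^ (2 * C0)) ≤
      ∑ k ∈ K, (L ^ T1 * ((Uk k).card : ℝ) ^ 2 / (n * k.2) + (Uk k).card / L ^ (2 * C0 + 1)) := by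
    have h1 := hcardsum.trans (sum_le_sum hboost)
    rw [← mul_sum] at h1
    have h2 : (n : ℝ) * P ^ 2 / (24 * C ^ 2 * L ^ (2 * C0)) = P ^ 2 * (n / (24 * C ^ 2 * L ^ (2 * C0))) := by ring
    rw [h2] at h1
    exact le_of_mul_le_mul_left h1 (by positivity)
  have hUcard : (U.card : ℝ) ≤ C * n := by
    have h1 : U ⊆ Finset.Icc 1 ⌊C * n⌋₊ := by
      intro i hi
      have h2 := hcov.rng i hi
      rw [Finset.mem_Icc]
      constructor
      · have : (0 : ℝ) < i := lt_of_lt_of_le (by positivity) h2.1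
        exact_mod_cast this
      · exact Nat.le_floor h2.2
    have h3 := Finset.card_le_card h1
    rw [Nat.card_Icc, Nat.add_sub_cancel] at h3
    have h4 : (U.card : ℝ) ≤ ⌊C * n⌋₊ := by exact_mod_cast h3
    exact h4.trans (Nat.floor_le (by positivity))
  obtain ⟨k, hkK, hk⟩ := BoostF_sel K (fun k => ((Uk k).card : ℝ)) (fun k => (k.2 : ℝ)) C n L C0 T1 hC hn0 l1
    (fun k _ => Nat.cast_nonneg _) (fun k hk => by
      have := (hδ1 k hk).1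
      exact_mod_cast this) (by
      refine hK2.trans ?_
      linarith) hsel
  -- (6)
  have hδk := hδ1 k hkK
  have hδ0 : (0 : ℝ) < k.2 := by exact_mod_cast hδk.1
  have hUkU : Uk k ⊆ U := Finset.filter_subset _ _
  have hUkc : ((Uk k).card : ℝ) ≤ C * n := by
    have : ((Uk k).card : ℝ) ≤ U.card := by exact_mod_cast Finset.card_le_card hUkU
    exact this.trans hUcard
  have hCL : C ≤ L := by linarith
  have hLe : (0 : ℝ) < L ^ (2 * C0 + T1 + 1) := pow_pos hL0 _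
  have hLe1 : L ^ (2 * C0 + T1 + 1) ≤ L ^ (2 * C0 + T1 + 2) := pow_le_pow_right₀ hL1 (by omega)
  have hδL : (k.2 : ℝ) ≤ L ^ (2 * C0 + T1 + 2) := by
    have h1 : (n : ℝ) * k.2 ≤ n * (C * L ^ (2 * C0 + T1 + 1)) := by
      refine hk.trans ?_
      calc ((Uk k).card : ℝ) * L ^ (2 * C0 + T1 + 1) ≤ C * n * L ^ (2 * C0 + T1 + 1) :=
            mul_le_mul_of_nonneg_right hUkc hLe.le
        _ = n * (C * L ^ (2 * C0 + T1 + 1)) := by ring
    have h2 := le_of_mul_le_mul_left h1 hn0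
    refine h2.trans ?_
    calc C * L ^ (2 * C0 + T1 + 1) ≤ L * L ^ (2 * C0 + T1 + 1) := mul_le_mul_of_nonneg_right hCL hLe.le
      _ = L ^ (2 * C0 + T1 + 2) := by ring
  obtain ⟨c, hc1, hc2⟩ := Finset.exists_le_card_fiber_of_nsmul_le_card_of_maps_to
    (s := Uk k) (t := range k.2) (f := fun i => b (s i) % k.2) (b := (n : ℝ) / L ^ (2 * C0 + T1 + 1))
    (fun i _ => Finset.mem_range.2 (Nat.mod_lt _ hδk.1)) ⟨0, Finset.mem_range.2 hδk.1⟩ (by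
      rw [Finset.card_range, nsmul_eq_mul, mul_div_assoc', div_le_iff₀ hLe]
      calc (k.2 : ℝ) * n = n * k.2 := by ring
        _ ≤ (Uk k).card * L ^ (2 * C0 + T1 + 1) := hk)
  have hF1m : ∀ i ∈ (Uk k).filter (fun i => b (s i) % k.2 = c),
      i ∈ U ∧ d (s i) = k.2 ∧ |T (s i) - k.1 * Z| ≤ 2 * Z ∧ b (s i) % k.2 = c := by
    intro i hi
    rw [Finset.mem_filter, hUk] at hi
    obtain ⟨⟨i1, i2, i3, i4⟩, i5⟩ := hi
    refine ⟨i1, i2, ?_, i5⟩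
    rw [abs_le]
    constructor
    · linarith
    · linarith
  refine ⟨k.2, c, k.1 * Z, (Uk k).filter (fun i => b (s i) % k.2 = c), hδk.1, hδL, ?_, ?_, ?_, ?_⟩
  · -- the bound of `T`
    have hne : ((Uk k).filter (fun i => b (s i) % k.2 = c)).Nonempty := by
      rw [← Finset.card_pos]
      have : (0 : ℝ) < (((Uk k).filter (fun i => b (s i) % k.2 = c)).card : ℝ) := lt_of_lt_of_le (by positivity) hc2
      exact_mod_cast this
    obtain ⟨i, hi⟩ := hne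
    obtain ⟨i1, i2, i3, i4⟩ := hF1m i hi
    have h1 := (hcov.dat (s i) (hcov.lab i i1)).2.2.2
    have h2 : |(k.1 : ℝ) * Z| ≤ |T (s i)| + |T (s i) - k.1 * Z| := by
      have h3 : (k.1 : ℝ) * Z = T (s i) - (T (s i) - k.1 * Z) := by ring
      calc |(k.1 : ℝ) * Z| = |T (s i) - (T (s i) - k.1 * Z)| := by rw [← h3]
        _ ≤ |T (s i)| + |T (s i) - k.1 * Z| := abs_sub _ _
    have hn2 : (n : ℝ) ≤ (n : ℝ) ^ 2 := le_self_pow₀ (by exact_mod_cast hn1) (by norm_num)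
    have h4 : 2 * Z ≤ 2 * Q ^ 12 * η * (n : ℝ) ^ 2 := by
      rw [hZd]
      calc 2 * (Q ^ 12 * η * n) = 2 * Q ^ 12 * η * n := by ring
        _ ≤ 2 * Q ^ 12 * η * (n : ℝ) ^ 2 := mul_le_mul_of_nonneg_left hn2 (by positivity)
    have h5 : Q + 2 * Q ^ 12 ≤ Q ^ 20 := by
      have h6 : Q ≤ Q ^ 12 := le_self_pow₀ hQ1 (by norm_num)
      have h7 : Q ^ 12 * 3 ≤ Q ^ 12 * Q ^ 8 := by
        apply mul_le_mul_of_nonneg_left _ (by positivity)
        have : Q ≤ Q ^ 8 := le_self_pow₀ hQ1 (by norm_num)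
        linarith
      calc Q + 2 * Q ^ 12 ≤ Q ^ 12 * 3 := by linarith
        _ ≤ Q ^ 12 * Q ^ 8 := h7
        _ = Q ^ 20 := by ring
    calc |(k.1 : ℝ) * Z| ≤ Q * η * (n : ℝ) ^ 2 + 2 * Q ^ 12 * η * (n : ℝ) ^ 2 := by linarith
      _ = (Q + 2 * Q ^ 12) * (η * (n : ℝ) ^ 2) := by ring
      _ ≤ Q ^ 20 * (η * (n : ℝ) ^ 2) := mul_le_mul_of_nonneg_right h5 (by positivity)
      _ = Q ^ 20 * η * (n : ℝ) ^ 2 := by ring
  · exact (Finset.filter_subset _ _).trans (hUkU.trans hUF)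
  · refine le_trans ?_ hc2
    exact div_le_div_of_nonneg_left hn0.le hLe hLe1
  · intro i hi
    obtain ⟨i1, i2, i3, i4⟩ := hF1m i hi
    have hfr := hcov.frq i i1
    rw [i2] at hfr
    have hir := (hcov.rng i i1).1
    have hi0 : (0 : ℝ) < i := lt_of_lt_of_le (by positivity) hir
    obtain ⟨m, hdm⟩ : ∃ m : ℕ, (b (s i) : ℝ) = k.2 * (m : ℝ) + c := by
      have := Nat.div_add_mod (b (s i)) k.2
      rw [i4] at this
      exact ⟨b (s i) / k.2, by exact_mod_cast this.symm⟩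
    have h1 : α i - (c : ℝ) / k.2 - k.1 * Z / i = (α i - b (s i) / k.2 - T (s i) / i + (T (s i) - k.1 * Z) / i) +
        ((m : ℤ) : ℝ) := by
      have h2 : (b (s i) : ℝ) / k.2 = (m : ℝ) + c / k.2 := by
        rw [hdm]
        field_simp
      rw [h2, sub_div]
      push_cast
      ring
    rw [h1, Pool.Agent.H53.MID.nz_add_int]
    refine (Pool.Agent.H53.MID.nz_add _ _).trans ?_
    have h3 : nz ((T (s i) - k.1 * Z) / i) ≤ 2 * C * Q ^ 12 * η := by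
      refine (Pool.Agent.H53.MID.nz_le_abs _).trans ?_
      rw [abs_div, abs_of_pos hi0, div_le_iff₀ hi0]
      refine i3.trans ?_
      rw [hZd]
      rw [div_le_iff₀ hC0'] at hir
      calc 2 * (Q ^ 12 * η * n) = 2 * Q ^ 12 * η * n := by ring
        _ ≤ 2 * Q ^ 12 * η * (i * C) := mul_le_mul_of_nonneg_left hir (by positivity)
        _ = 2 * C * Q ^ 12 * η * i := by ring
    have h4 : Q + 2 * C * Q ^ 12 ≤ Q ^ 13 := by
      have h6 : Q ≤ Q ^ 12 := le_self_pow₀ hQ1 (by norm_num)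
      calc Q + 2 * C * Q ^ 12 ≤ Q ^ 12 + 2 * C * Q ^ 12 := by linarith
        _ = Q ^ 12 * (1 + 2 * C) := by ring
        _ ≤ Q ^ 12 * Q := mul_le_mul_of_nonneg_left (by linarith) (by positivity)
        _ = Q ^ 13 := by ring
    calc nz (α i - b (s i) / k.2 - T (s i) / i) + nz ((T (s i) - k.1 * Z) / i)
        ≤ Q * η + 2 * C * Q ^ 12 * η := add_le_add hfr h3
      _ = (Q + 2 * C * Q ^ 12) * η := by ring
      _ ≤ Q ^ 13 * η := mul_le_mul_of_nonneg_right h4 hη.le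

end Pool.Agent.H53.MDB

end

section

/-!
# MDB Final: `CombX t t2` from exponential sums over integers (`VKe t0`)
-/

set_option autoImplicit false

namespace Pool.Agent.H53.MDB

open Pool.Agent.H53.MIX (VKe CombX)

theorem combwk (t t2 : ℝ) (ht : t < 1) (h2 : 2 * (1 - t) < t2) (h2t : t2 < t) : CombWk t t2 := by
  intro C hC C0
  obtain ⟨N0, hN0⟩ := Pool.Agent.H74.MDX.comb_weak t t2 ht h2 h2t C hC C0
  refine ⟨N0, fun N hN n P η F0 G0 α β R0 h1 h3 h4 h5 h6 h7 h8 h9 => ?_⟩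
  exact hN0 N hN n P η F0 G0 α β R0 h1 h3 h4 h5 h6 (by rw [mul_comm (Real.exp _) η]; exact h7) h8 h9

theorem comb_x_all (t0 t t2 : ℝ) (h0 : 0 < t0) (h0t : t0 < t) (h2 : 2 * (1 - t) < t2) (h2t : t2 < t) (ht : t < 1)
    (hV : VKe t0) : CombX t t2 :=
  comb_x t0 t t2 h0 h0t (by linarith) h2t ht hV (combwk t t2 ht h2 h2t)

end Pool.Agent.H53.MDB

end

section

/-!
# SP JJL: the small denominator integral

As `Pool/Agent/H35/W/JJE.lean`, case (1), with `a = 0`.  `ii_l B C0 (E + 2) η` gives `b, K, m0`.  `Θ = 1/L^6`.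
`jred_e` with `K = 2P`, `S = pbl P d l ⊆ Icc 1 (2P)` (`2 P Y ≤ 2/L^{E+12} ≤ 1`):
`JJT ≤ 2 (II(+1) + II(-1)) + 4 |S| (2 P Y/Θ)^2 (∑_{k ∈ S} 1/k) S2 ≤ 4 P x/L^{E+2} + 4 P (2/L^{E+6})^2 · 1 · x L^2 ≤ P x/L^E`.
-/

set_option autoImplicit false

namespace Pool.Agent.H76.SP

open Finset MeasureTheory
open Pool.Agent.H91.PK (ee)
open Pool.Agent.H76.EHB
open Pool.Agent.H35.W

private theorem JJL_card (P d : ℕ) (l : ℤ) : ((pbl P d l).card : ℝ) ≤ P := by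
  have h1 : (pbl P d l).card ≤ (Ioc P (2 * P)).card :=
    Finset.card_le_card ((filter_subset _ _).trans (filter_subset _ _))
  rw [Nat.card_Ioc] at h1
  have h2 : (pbl P d l).card ≤ P := by omega
  exact_mod_cast h2

private theorem JJL_inv (P d : ℕ) (l : ℤ) (hP : 1 ≤ P) : ∑ k ∈ pbl P d l, 1 / (k : ℝ) ≤ 1 := by
  have hP0 : (0 : ℝ) < P := by exact_mod_cast hP
  have h1 : ∑ k ∈ pbl P d l, 1 / (k : ℝ) ≤ (pbl P d l).card • (1 / (P : ℝ)) := by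
    refine Finset.sum_le_card_nsmul _ _ _ fun k hk => ?_
    have h2 : k ∈ Ioc P (2 * P) := ((filter_subset _ _).trans (filter_subset _ _)) hk
    rw [mem_Ioc] at h2
    have h3 : (P : ℝ) ≤ k := by exact_mod_cast h2.1.le
    exact one_div_le_one_div_of_le hP0 h3
  refine h1.trans ?_
  rw [nsmul_eq_mul, mul_one_div, div_le_one hP0]
  exact JJL_card P d l

theorem jj_l (B C0 E : ℕ) (η : ℝ) (hη : 0 < η) (hη1 : η ≤ 1) : ∃ b K m0 : ℕ, ∀ m : ℕ, m0 ≤ m →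
    ∃ x0 : ℕ, ∀ x : ℕ, x0 ≤ x → ∀ (g : ℕ → ℝ) (N M P d : ℕ) (c l : ℤ) (Y : ℝ),
      CorL x B m K η N M g → N ≤ x → x / Real.log x ^ C0 ≤ M → Real.log x ^ b ≤ P →
      P ≤ x → 1 ≤ d → (d : ℝ) ≤ Real.log x ^ B → IsCoprime c (d : ℤ) → 0 ≤ Y →
      P * Y ≤ 1 / Real.log x ^ (E + 12) →
      JJT g N (zs (pbl P d l)) ((c : ℝ) / d) 0 Y ≤ P * x / Real.log x ^ E := by
  obtain ⟨b, K, m0, H⟩ := ii_l B C0 (E + 2) η hη hη1
  refine ⟨b, K, m0, fun m hm => ?_⟩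
  obtain ⟨x0, hx0⟩ := H m hm
  obtain ⟨x1, hx1⟩ := log_ge 4
  refine ⟨max x0 x1, fun x hx g N M P d c l Y hg hN hM hP hPx hd1 hd hcd hY hPY => ?_⟩
  have hL4 : (4 : ℝ) ≤ Real.log x := hx1 x (le_of_max_le_right hx)
  have hxx0 : x0 ≤ x := le_of_max_le_left hx
  have hL1 : (1 : ℝ) ≤ Real.log x := by linarith
  have hL0 : (0 : ℝ) < Real.log x := by linarith
  have hp1 : (1 : ℝ) ≤ P := (one_le_pow₀ hL1).trans hP
  have hPn : 1 ≤ P := by exact_mod_cast hp1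
  have hS0 : 0 ≤ S2 g N := Finset.sum_nonneg fun n _ => sq_nonneg _
  have hx0' : (0 : ℝ) ≤ x := Nat.cast_nonneg x
  have hLE : (4 : ℝ) ≤ Real.log x ^ (E + 12) := hL4.trans (le_self_pow₀ hL1 (by omega))
  have hY1 : P * Y ≤ 1 / 4 := by
    refine hPY.trans ?_
    exact one_div_le_one_div_of_le (by norm_num) hLE
  have hsub : pbl P d l ⊆ Icc 1 (2 * P) := by
    intro k hk
    have h2 : k ∈ Ioc P (2 * P) := ((filter_subset _ _).trans (filter_subset _ _)) hk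
    rw [mem_Ioc] at h2
    rw [mem_Icc]
    exact ⟨by omega, h2.2⟩
  have hΘ : 0 < 1 / Real.log x ^ 6 := by positivity
  have e0 : ∀ s : ℝ, (s = 1 ∨ s = -1) →
      II (pbl P d l) (ge g N ((c : ℝ) / d) 0 (1 / Real.log x ^ 6) s) ≤
        P * x / Real.log x ^ (E + 2) := fun s hs =>
    hx0 x hxx0 g N M P d (pbl P d l) c s hg hN hM hP hPx (filter_subset _ _) hd1 hd hcd hs
  have e3 := jred_e g N (2 * P) (pbl P d l) hsub ((c : ℝ) / d) 0 Y
    (1 / Real.log x ^ 6) hY (by push_cast; nlinarith) hΘ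
  refine e3.trans ?_
  have e4 := e0 1 (Or.inl rfl)
  have e5 := e0 (-1) (Or.inr rfl)
  have e6 : ((2 * P : ℕ) : ℝ) * Y / (1 / Real.log x ^ 6) ≤ 2 / Real.log x ^ (E + 6) := by
    rw [div_le_iff₀ hΘ]
    have h1 : 2 / Real.log x ^ (E + 6) * (1 / Real.log x ^ 6) =
        2 * (1 / Real.log x ^ (E + 12)) := by
      have h2 : Real.log x ^ (E + 12) = Real.log x ^ (E + 6) * Real.log x ^ 6 := by
        rw [← pow_add]
      have h3 : Real.log x ^ (E + 6) ≠ 0 := by positivity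
      rw [h2]
      field_simp
    rw [h1]
    push_cast
    linarith
  have e7 : (((2 * P : ℕ) : ℝ) * Y / (1 / Real.log x ^ 6)) ^ 2 ≤
      (2 / Real.log x ^ (E + 6)) ^ 2 := pow_le_pow_left₀ (by positivity) e6 2
  have e8 : 4 * ((pbl P d l).card : ℝ) * (((2 * P : ℕ) : ℝ) * Y /
      (1 / Real.log x ^ 6)) ^ 2 * (∑ k ∈ pbl P d l, 1 / (k : ℝ)) * S2 g N ≤
      4 * P * (2 / Real.log x ^ (E + 6)) ^ 2 * 1 * (x * Real.log x ^ 2) := by
    have i1 : 4 * ((pbl P d l).card : ℝ) ≤ 4 * P := by linarith [JJL_card P d l]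
    have i2 := mul_le_mul i1 e7 (sq_nonneg _) (by positivity)
    have i3 := mul_le_mul i2 (JJL_inv P d l hPn)
      (Finset.sum_nonneg fun k _ => by positivity) (by positivity)
    exact mul_le_mul i3 hg.sq hS0 (by positivity)
  obtain ⟨D, hD⟩ : ∃ D : ℝ, D = P * x / Real.log x ^ E := ⟨_, rfl⟩
  have hD0 : 0 ≤ D := by rw [hD]; positivity
  have e9 : P * x / Real.log x ^ (E + 2) = D / Real.log x ^ 2 := by
    rw [hD, pow_add, div_div]
  have e10 : 4 * P * (2 / Real.log x ^ (E + 6)) ^ 2 * 1 * (x * Real.log x ^ 2) =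
      D * (16 / Real.log x ^ (E + 10)) := by
    rw [hD]
    field_simp
    ring
  have e11 : D / Real.log x ^ 2 ≤ D / 16 := by
    refine div_le_div_of_nonneg_left hD0 (by norm_num) ?_
    nlinarith
  have e12 : (16 : ℝ) / Real.log x ^ (E + 10) ≤ 1 / 4 := by
    rw [div_le_div_iff₀ (by positivity) (by norm_num)]
    have h1 : Real.log x ^ 3 ≤ Real.log x ^ (E + 10) := pow_le_pow_right₀ hL1 (by omega)
    have h2 : (4 : ℝ) ^ 3 ≤ Real.log x ^ 3 := pow_le_pow_left₀ (by norm_num) hL4 3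
    norm_num at h2
    linarith
  have e13 : D * (16 / Real.log x ^ (E + 10)) ≤ D * (1 / 4) :=
    mul_le_mul_of_nonneg_left e12 hD0
  rw [e9] at e4 e5
  rw [e10] at e8
  rw [← hD]
  linarith

end Pool.Agent.H76.SP

end

section

/-!
# MID JJh: the hypothesis `JJp` follows from `LVP` (SP Part II) and `SWp` (needs the compiled closure of `H76/SP/JJL`, `H76/SP/CorH`)

Proof.  `x = K2`: `K2 > K1 ≥ N/(32 P) ≥ N^(2/3)/32`, so `L/2 ≤ log x ≤ L` (`K2 ≤ 32 N/P ≤ N`), `d ≤ L^B ≤ (log x)^(B+1)` for large `N`; `R = ⌊L^(B+1)⌋ ≤ (log x)^(B+2)` and every natural `d ≤ (log x)^(B+1)` is `≤ R`.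
`LVP` gives `η`; `jj_l (B+1) 1 (E+1) η` gives `b', K, m0`; `LVP` with `(K, A) = (K, B+2)` gives `K'`; `m = max m0 K'`.
`CorL x (B+1) m K η K2 K1 g` for `g = cut K1 K2 (hR R)`: `supp` clear; `sq`: `S2 g x ≤ S2 (hR R) x ≤ 15 x log x` as in `hr_sq` (`H35/W/HRq.lean`; its proof works for every `R ≤ (log x)^(B+2)`) `≤ x (log x)^2`;
`low`: `cor g 0 K1 (c/d) t y = ∑_{n ∈ Ioc K1 y} hR R n ee(n c/d + t log n)` for `y ≤ K2`: empty if `y ≤ K1`, otherwise `SWp` (with `B+1`, `4m`, `3m+1`, `e0 = 1/3`; natural `b ≡ -c (mod d)`, `-t`; `y ≥ K1 ≥ N^(1/3)`, `|t| ≤ (log x)^(4m) ≤ L^(4m)`):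
`≤ y/L^(3m+1) ≤ x/(log x)^(3m)`; `large`: `LVP` as in `cor_h` (`H76/SP/CorH.lean`), `R ≤ (log x)^(B+2)`, `vol ≤ T^η ≤ T^η (log x)^A`.
Conditions of `jj_l`: `K2/log K2 ≤ K1` (`K2 ≤ 32 N/P ≤ 1024 K1`), `(log x)^b' ≤ L^b' ≤ P`, `P ≤ K2`, `P Y ≤ 1/L^(E+13) ≤ 1/(log x)^(E+1+12)`.
Conclusion `≤ P K2/(log x)^(E+1) ≤ 32 N 2^(E+1)/L^(E+1) ≤ N/L^E`.
-/

set_option autoImplicit false

namespace Pool.Agent.H53.MID

open Finset MeasureTheory
open Pool.Agent.H91.PK (ee)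
open Pool.Agent.H91.EHA (Lam hR lamR ramS)
open Pool.Agent.H35.W

private theorem JJh_ev (B : ℕ) : ∀ᶠ x : ℕ in Filter.atTop, 1 ≤ x ∧ 1 ≤ Real.log x ∧
    0 ≤ Real.log (Real.log x) ∧ Real.log x ^ (2 * B) ≤ x ∧
    (2 * B * Real.log (Real.log x) + 1) ^ 2 ≤ 3 / 10 * Real.log x := by
  have hl : Filter.Tendsto (fun x : ℕ => Real.log (x : ℝ)) Filter.atTop Filter.atTop :=
    Real.tendsto_log_atTop.comp tendsto_natCast_atTop_atTop
  set c : ℝ := 3 / 10 / (2 * B + 1) ^ 2 with hc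
  have hc0 : 0 < c := by positivity
  have h1 : ∀ᶠ y : ℝ in Filter.atTop, ‖Real.log y ^ 2‖ ≤ c * ‖y‖ :=
    (Real.isLittleO_pow_log_id_atTop (n := 2)).bound hc0
  have h2 : ∀ᶠ y : ℝ in Filter.atTop, ‖Real.log y ^ (2 * B)‖ ≤ 1 * ‖y‖ :=
    (Real.isLittleO_pow_log_id_atTop (n := 2 * B)).bound one_pos
  filter_upwards [Filter.eventually_ge_atTop 1, hl.eventually_ge_atTop (Real.exp 1),
    hl.eventually h1, tendsto_natCast_atTop_atTop.eventually h2] with x hx e1 e2 e3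
  have hx0 : (0 : ℝ) ≤ x := Nat.cast_nonneg x
  have hE : (1 : ℝ) ≤ Real.exp 1 := by
    have := Real.add_one_le_exp (1 : ℝ)
    linarith
  have hL : 1 ≤ Real.log x := hE.trans e1
  have hLL : 1 ≤ Real.log (Real.log x) := by
    rw [Real.le_log_iff_exp_le (by linarith)]
    exact e1
  refine ⟨hx, hL, by linarith, ?_, ?_⟩
  · rw [Real.norm_eq_abs, Real.norm_eq_abs, one_mul, abs_of_nonneg hx0] at e3
    exact (le_abs_self _).trans e3
  · rw [Real.norm_eq_abs, Real.norm_eq_abs, abs_of_nonneg (by linarith : 0 ≤ Real.log x)] at e2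
    have e4 := (le_abs_self _).trans e2
    have hB : (0 : ℝ) ≤ B := Nat.cast_nonneg B
    calc (2 * (B : ℝ) * Real.log (Real.log x) + 1) ^ 2
        ≤ ((2 * B + 1) * Real.log (Real.log x)) ^ 2 :=
          pow_le_pow_left₀ (by positivity) (by nlinarith) 2
      _ = (2 * B + 1) ^ 2 * Real.log (Real.log x) ^ 2 := by ring
      _ ≤ (2 * B + 1) ^ 2 * (c * Real.log x) :=
          mul_le_mul_of_nonneg_left e4 (by positivity)
      _ = 3 / 10 * Real.log x := by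
          rw [hc]
          field_simp

/-- second moment of `hR R` for every `R ≤ (log x)^B` -/
private theorem JJh_sq (B : ℕ) : ∃ x0 : ℕ, ∀ x : ℕ, x0 ≤ x → ∀ R : ℕ, 1 ≤ R →
    (R : ℝ) ≤ Real.log x ^ B → ∀ N : ℕ, N ≤ x →
    Pool.Agent.H76.EHB.S2 (hR R) N ≤ 15 * x * Real.log x := by
  obtain ⟨x0, h⟩ := Filter.eventually_atTop.1 (JJh_ev B)
  refine ⟨x0, fun x hx R hR1 hRle N hN => ?_⟩
  obtain ⟨hx1, hL, hLL, h2, h3⟩ := h x hx
  have hR0 : (0 : ℝ) < R := by exact_mod_cast hR1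
  have hRx : R ^ 2 ≤ x := by
    have : ((R : ℝ)) ^ 2 ≤ x := by
      calc (R : ℝ) ^ 2 ≤ (Real.log x ^ B) ^ 2 := pow_le_pow_left₀ hR0.le hRle 2
        _ = Real.log x ^ (2 * B) := by rw [← pow_mul]; ring_nf
        _ ≤ x := h2
    exact_mod_cast this
  have hx0 : (0 : ℝ) < x := by exact_mod_cast hx1
  have e1 := Pool.Agent.H76.EHB.lamR_sq R N x hx1 hRx hN
  have e2 := Pool.Agent.H76.EHB.HRm_Lam x N hx1 hN
  have e3 := Pool.Agent.H76.EHB.HRm_tot (R ^ 2) R hR1 le_rfl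
  have e4 : Real.log ((R ^ 2 : ℕ) : ℝ) ≤ 2 * B * Real.log (Real.log x) := by
    push_cast
    rw [Real.log_pow]
    have : Real.log R ≤ B * Real.log (Real.log x) := by
      rw [← Real.log_pow]
      exact Real.log_le_log hR0 hRle
    push_cast
    linarith
  have e5 : 0 ≤ Real.log ((R ^ 2 : ℕ) : ℝ) := Real.log_natCast_nonneg _
  have e6 : ∑ c ∈ Icc 1 R, 1 / (c.totient : ℝ) ≤ 3 / 10 * Real.log x := by
    refine e3.trans (le_trans ?_ h3)
    have e7 : (2 * (B : ℝ) * Real.log (Real.log x) + 1) ^ 2 =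
        (2 * B * Real.log (Real.log x) + 1) * (1 + 2 * B * Real.log (Real.log x)) := by ring
    rw [e7]
    exact mul_le_mul (by linarith) (by linarith) (by linarith) (by linarith)
  have h4 : Pool.Agent.H76.EHB.S2 (hR R) N ≤ 2 * ∑ n ∈ Icc 1 N, Pool.Agent.H91.EHA.Lam n ^ 2 +
      2 * ∑ n ∈ Icc 1 N, Pool.Agent.H91.EHA.lamR R n ^ 2 := by
    unfold Pool.Agent.H76.EHB.S2
    rw [mul_sum, mul_sum, ← sum_add_distrib]
    refine sum_le_sum fun n _ => ?_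
    show (Pool.Agent.H91.EHA.Lam n - Pool.Agent.H91.EHA.lamR R n) ^ 2 ≤ _
    nlinarith [sq_nonneg (Pool.Agent.H91.EHA.Lam n + Pool.Agent.H91.EHA.lamR R n)]
  have h5 : 5 * (x : ℝ) * ∑ c ∈ Icc 1 R, 1 / (c.totient : ℝ) ≤ 5 * x * (3 / 10 * Real.log x) :=
    mul_le_mul_of_nonneg_left e6 (by positivity)
  linarith

/-- the sizes of the parameters -/
private theorem JJh_size (x0 : ℕ) : ∃ N0 : ℕ, ∀ N : ℕ, N0 ≤ N → ∀ P K1 K2 : ℕ, 32 ≤ P →
    P ^ 3 ≤ N → N ≤ 32 * P * K1 → K1 < K2 → P * K2 ≤ 32 * N →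
    x0 ≤ K1 ∧ 1 ≤ K1 ∧ K2 ≤ N ∧ N ≤ K1 ^ 3 ∧ P ≤ K1 ∧ K2 ≤ 1024 * K1 ∧
      Real.log N ≤ 2 * Real.log K2 := by
  refine ⟨max (2 ^ 30) (32768 * x0 ^ 3 + 1), fun N hN P K1 K2 hP hP3 hNK hK hPK => ?_⟩
  have hN1 : 2 ^ 30 ≤ N := (le_max_left _ _).trans hN
  have hN2 : 32768 * x0 ^ 3 + 1 ≤ N := (le_max_right _ _).trans hN
  have hNpos : 0 < N := by omega
  have h1 : N * N ^ 2 ≤ N * (32768 * K1 ^ 3) := by
    calc N * N ^ 2 = N ^ 3 := by ring
      _ ≤ (32 * P * K1) ^ 3 := Nat.pow_le_pow_left hNK 3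
      _ = P ^ 3 * (32768 * K1 ^ 3) := by ring
      _ ≤ N * (32768 * K1 ^ 3) := Nat.mul_le_mul_right _ hP3
  have h2 : N ^ 2 ≤ 32768 * K1 ^ 3 := Nat.le_of_mul_le_mul_left h1 hNpos
  have hNN : N ≤ N ^ 2 := Nat.le_self_pow (by norm_num) N
  have h3 : x0 ≤ K1 := by
    by_contra hcon
    have h4 : K1 ^ 3 ≤ x0 ^ 3 := Nat.pow_le_pow_left (by omega) 3
    have h5 : 32768 * K1 ^ 3 ≤ 32768 * x0 ^ 3 := Nat.mul_le_mul_left _ h4
    omega
  have h4 : 1 ≤ K1 := by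
    rw [Nat.one_le_iff_ne_zero]
    rintro rfl
    rw [mul_zero] at hNK
    omega
  have h5 : K2 ≤ N := by
    have : 32 * K2 ≤ P * K2 := Nat.mul_le_mul_right _ hP
    omega
  have h6 : N ≤ K1 ^ 3 := by
    have h7 : 32768 * N ≤ 32768 * K1 ^ 3 := by
      calc 32768 * N ≤ N * N := Nat.mul_le_mul_right _ (by omega)
        _ = N ^ 2 := by ring
        _ ≤ _ := h2
    omega
  have h7 : P ≤ K1 := by
    by_contra hcon
    have h8 : K1 ^ 3 < P ^ 3 := Nat.pow_lt_pow_left (by omega) (by norm_num)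
    omega
  have h8 : K2 ≤ 1024 * K1 := by
    have h9 : P * K2 ≤ P * (1024 * K1) := by
      calc P * K2 ≤ 32 * N := hPK
        _ ≤ 32 * (32 * P * K1) := Nat.mul_le_mul_left _ hNK
        _ = P * (1024 * K1) := by ring
    exact Nat.le_of_mul_le_mul_left h9 (by omega)
  have h9 : N ≤ K1 ^ 2 := by
    have h10 : 2 ^ 30 * N ^ 3 ≤ 2 ^ 30 * (K1 ^ 2) ^ 3 := by
      calc 2 ^ 30 * N ^ 3 ≤ N * N ^ 3 := Nat.mul_le_mul_right _ hN1
        _ = (N ^ 2) ^ 2 := by ring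
        _ ≤ (32768 * K1 ^ 3) ^ 2 := Nat.pow_le_pow_left h2 2
        _ = 2 ^ 30 * (K1 ^ 2) ^ 3 := by ring
    have h11 : N ^ 3 ≤ (K1 ^ 2) ^ 3 := Nat.le_of_mul_le_mul_left h10 (by norm_num)
    by_contra hcon
    have h12 : (K1 ^ 2) ^ 3 < N ^ 3 := Nat.pow_lt_pow_left (by omega) (by norm_num)
    omega
  refine ⟨h3, h4, h5, h6, h7, h8, ?_⟩
  have h10 : (N : ℝ) ≤ (K1 : ℝ) ^ 2 := by exact_mod_cast h9
  have hN0 : (0 : ℝ) < N := by exact_mod_cast hNpos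
  have h11 : Real.log N ≤ Real.log ((K1 : ℝ) ^ 2) := Real.log_le_log hN0 h10
  rw [Real.log_pow] at h11
  have h12 : Real.log K1 ≤ Real.log K2 :=
    Real.log_le_log (by exact_mod_cast h4) (by exact_mod_cast hK.le)
  push_cast at h11
  linarith

private theorem JJh_cor (K1 K2 y : ℕ) (f : ℕ → ℝ) (α t : ℝ) (hy : y ≤ K2) :
    cor (cut K1 K2 f) 0 K1 α t y = cor f 0 K1 α t y := by
  unfold cor
  refine Finset.sum_congr rfl fun n hn => ?_
  rw [mem_Ioc] at hn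
  have h : n ∈ Ioc K1 K2 := mem_Ioc.2 ⟨hn.1, hn.2.trans hy⟩
  rw [cut, if_pos h]

private theorem JJh_S2 (K1 K2 N : ℕ) (f : ℕ → ℝ) :
    Pool.Agent.H76.EHB.S2 (cut K1 K2 f) N ≤ Pool.Agent.H76.EHB.S2 f N := by
  unfold Pool.Agent.H76.EHB.S2
  refine Finset.sum_le_sum fun n _ => ?_
  unfold cut
  split_ifs
  · exact le_refl _
  · rw [zero_pow two_ne_zero]
    exact sq_nonneg _

/-- a natural residue -/
private theorem JJh_res (c : ℤ) (d : ℕ) (hd : 1 ≤ d) (hc : IsCoprime c (d : ℤ)) :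
    ∃ b : ℕ, Nat.Coprime b d ∧ ∀ (n : ℕ) (t : ℝ),
      ee ((n : ℝ) * ((c : ℝ) / d) + t * Real.log ((n : ℝ) - (0 : ℕ))) =
        ee (-((n : ℝ) * b / d)) * ee (-(-t * Real.log n)) := by
  have hd0 : (d : ℤ) ≠ 0 := by omega
  have hdR : (d : ℝ) ≠ 0 := by positivity
  have hb : ((((-c) % (d : ℤ)).toNat : ℕ) : ℤ) = (-c) % (d : ℤ) :=
    Int.toNat_of_nonneg (Int.emod_nonneg _ hd0)
  have hb2 : (-c) % (d : ℤ) = -c + (d : ℤ) * (-((-c) / (d : ℤ))) := by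
    rw [Int.emod_def]
    ring
  refine ⟨((-c) % (d : ℤ)).toNat, ?_, fun n t => ?_⟩
  · rw [← Nat.isCoprime_iff_coprime, hb, hb2]
    exact (hc.neg_left).add_mul_left_left _
  · have hbR : ((((-c) % (d : ℤ)).toNat : ℕ) : ℝ) = -(c : ℝ) + d * (-(((-c) / (d : ℤ) : ℤ) : ℝ)) := by
      have h1 : (((((-c) % (d : ℤ)).toNat : ℕ) : ℤ) : ℝ) =
          ((-c + (d : ℤ) * (-((-c) / (d : ℤ))) : ℤ) : ℝ) := by rw [hb, hb2]
      rw [Int.cast_natCast] at h1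
      rw [h1]
      push_cast
      ring
    have e1 : (n : ℝ) * ((c : ℝ) / d) + t * Real.log ((n : ℝ) - (0 : ℕ)) =
        -((n : ℝ) * ((((-c) % (d : ℤ)).toNat : ℕ) : ℝ) / d) + -(-t * Real.log n) +
          (((-((n : ℤ) * ((-c) / (d : ℤ)))) : ℤ) : ℝ) := by
      rw [hbR, Nat.cast_zero, sub_zero]
      push_cast
      field_simp
      ring
    rw [e1, Pool.Agent.H91.PK.LSa_ee_add, Pool.Agent.H91.PK.LSa_ee_add,
      Pool.Agent.H76.EHB.ee_int, mul_one]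

theorem jj_holds (hLV : Pool.Agent.H76.SP.LVP) (hSW : SWp) : JJp := by
  obtain ⟨η, hη, hη1, H⟩ := hLV
  intro B E
  obtain ⟨b', K, m0, H1⟩ := Pool.Agent.H76.SP.jj_l (B + 1) 1 (E + 1) η hη hη1
  obtain ⟨K', x1, hx1⟩ := H K (B + 2)
  obtain ⟨m, hm⟩ : ∃ m : ℕ, m = max m0 K' := ⟨_, rfl⟩
  have hm0 : m0 ≤ m := by rw [hm]; exact le_max_left _ _
  have hmK : K' ≤ m := by rw [hm]; exact le_max_right _ _
  obtain ⟨x2, hx2⟩ := H1 m hm0
  obtain ⟨x3, hx3⟩ := JJh_sq (B + 2)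
  obtain ⟨x4, hx4⟩ := Pool.Agent.H76.SP.log_ge (1024 + 2 ^ (B + 1))
  obtain ⟨N1, hN1⟩ := hSW (B + 1) (4 * m) (3 * m) (1 / 3) (by norm_num)
  obtain ⟨N2, hN2⟩ := JJh_size (max (max x1 x2) (max x3 x4))
  obtain ⟨N3, hN3⟩ := Pool.Agent.H76.SP.log_ge (32 + 32 * 2 ^ (E + 1))
  refine ⟨b' + 1, max N1 (max N2 N3), fun N hN P d K1 K2 c l Y hP hP3 hd1 hd hcd hNK hK hPK hY
    hPY => ?_⟩
  have hNN1 : N1 ≤ N := (le_max_left _ _).trans hN
  have hNN2 : N2 ≤ N := (le_max_left _ _).trans ((le_max_right _ _).trans hN)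
  have hNN3 : N3 ≤ N := (le_max_right _ _).trans ((le_max_right _ _).trans hN)
  have hL' := hN3 N hNN3
  have hE0 : (0 : ℝ) < 32 * 2 ^ (E + 1) := by positivity
  have hL32 : (32 : ℝ) ≤ Real.log N := by linarith
  have hLE : 32 * 2 ^ (E + 1) ≤ Real.log N := by linarith
  have hL1 : (1 : ℝ) ≤ Real.log N := by linarith
  have hL0 : (0 : ℝ) < Real.log N := by linarith
  have hP32 : 32 ≤ P := by
    have h1 : (32 : ℝ) ≤ P := hL32.trans ((le_self_pow₀ hL1 (by omega)).trans hP)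
    exact_mod_cast h1
  obtain ⟨hxK, hK1, hK2N, hNK3, hPK1, hK1024, hlog⟩ := hN2 N hNN2 P K1 K2 hP32 hP3 hNK hK hPK
  have hxK2 : max (max x1 x2) (max x3 x4) ≤ K2 := hxK.trans hK.le
  have hKx1 : x1 ≤ K2 := (le_max_left _ _).trans ((le_max_left _ _).trans hxK2)
  have hKx2 : x2 ≤ K2 := (le_max_right _ _).trans ((le_max_left _ _).trans hxK2)
  have hKx3 : x3 ≤ K2 := (le_max_left _ _).trans ((le_max_right _ _).trans hxK2)
  have hKx4 : x4 ≤ K2 := (le_max_right _ _).trans ((le_max_right _ _).trans hxK2)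
  have hK20 : (0 : ℝ) < K2 := by
    have : 0 < K2 := by omega
    exact_mod_cast this
  have hlN : Real.log K2 ≤ Real.log N := Real.log_le_log hK20 (by exact_mod_cast hK2N)
  have hl' := hx4 K2 hKx4
  have hB0 : (1 : ℝ) ≤ 2 ^ (B + 1) := one_le_pow₀ (by norm_num)
  have hl1024 : (1024 : ℝ) ≤ Real.log K2 := by linarith
  have hlB : (2 : ℝ) ^ (B + 1) ≤ Real.log K2 := by linarith
  have hl1 : (1 : ℝ) ≤ Real.log K2 := by linarith
  have hl0 : (0 : ℝ) < Real.log K2 := by linarith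
  -- the parameters
  obtain ⟨R, hRdef⟩ : ∃ R : ℕ, R = ⌊Real.log N ^ (B + 1)⌋₊ := ⟨_, rfl⟩
  have hRL : (R : ℝ) ≤ Real.log N ^ (B + 1) := by
    rw [hRdef]
    exact Nat.floor_le (by positivity)
  have hR1 : 1 ≤ R := by
    rw [hRdef]
    exact Nat.le_floor (by simpa using one_le_pow₀ hL1)
  have hRl : (R : ℝ) ≤ Real.log K2 ^ (B + 2) := by
    calc (R : ℝ) ≤ Real.log N ^ (B + 1) := hRL
      _ ≤ (2 * Real.log K2) ^ (B + 1) := pow_le_pow_left₀ hL0.le hlog _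
      _ = 2 ^ (B + 1) * Real.log K2 ^ (B + 1) := mul_pow _ _ _
      _ ≤ Real.log K2 * Real.log K2 ^ (B + 1) := mul_le_mul_of_nonneg_right hlB (by positivity)
      _ = Real.log K2 ^ (B + 2) := by ring
  have hdl : (d : ℝ) ≤ Real.log K2 ^ (B + 1) := by
    have h2B : (2 : ℝ) ^ B ≤ Real.log K2 :=
      (pow_le_pow_right₀ (by norm_num) (by omega)).trans hlB
    calc (d : ℝ) ≤ Real.log N ^ B := hd
      _ ≤ (2 * Real.log K2) ^ B := pow_le_pow_left₀ hL0.le hlog _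
      _ = 2 ^ B * Real.log K2 ^ B := mul_pow _ _ _
      _ ≤ Real.log K2 * Real.log K2 ^ B := mul_le_mul_of_nonneg_right h2B (by positivity)
      _ = Real.log K2 ^ (B + 1) := by ring
  rw [← hRdef]
  -- the hypotheses
  have hCor : Pool.Agent.H76.SP.CorL K2 (B + 1) m K η K2 K1 (cut K1 K2 (hR R)) := by
    refine ⟨fun n hn => ?_, ?_, ?_, ?_⟩
    · rw [cut, if_neg hn]
    · refine (JJh_S2 K1 K2 K2 (hR R)).trans ((hx3 K2 hKx3 R hR1 hRl K2 le_rfl).trans ?_)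
      have h5 : (15 : ℝ) * K2 ≤ K2 * Real.log K2 := by nlinarith
      calc 15 * (K2 : ℝ) * Real.log K2 ≤ (K2 * Real.log K2) * Real.log K2 :=
            mul_le_mul_of_nonneg_right h5 (by linarith)
        _ = K2 * Real.log K2 ^ 2 := by ring
    · intro c' d' t y hd1' hd' hcd' hy ht
      rw [JJh_cor K1 K2 y _ _ t hy]
      by_cases hyK : y ≤ K1
      · have e : cor (hR R) 0 K1 ((c' : ℝ) / d') t y = 0 := by
          unfold cor
          rw [Ioc_eq_empty (by omega), Finset.sum_empty]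
        rw [e, norm_zero]
        positivity
      · push Not at hyK
        obtain ⟨b, hb, hee⟩ := JJh_res c' d' hd1' hcd'
        have e : cor (hR R) 0 K1 ((c' : ℝ) / d') t y =
            ∑ n ∈ Ioc K1 y, ((hR R n : ℝ) : ℂ) * ee (-((n : ℝ) * b / d')) *
              ee (-(-t * Real.log n)) := by
          unfold cor
          refine Finset.sum_congr rfl fun n _ => ?_
          rw [hee n t, mul_assoc]
        have hdR : d' ≤ R := by
          rw [hRdef]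
          exact Nat.le_floor (hd'.trans (pow_le_pow_left₀ hl0.le hlN _))
        have hNy : (N : ℝ) ^ ((1 : ℝ) / 3) ≤ y := by
          have h1 : (N : ℝ) ≤ (K1 : ℝ) ^ (3 : ℕ) := by exact_mod_cast hNK3
          have h2 : (N : ℝ) ^ ((1 : ℝ) / 3) ≤ ((K1 : ℝ) ^ (3 : ℕ)) ^ ((1 : ℝ) / 3) :=
            Real.rpow_le_rpow (Nat.cast_nonneg N) h1 (by norm_num)
          have h3 : ((K1 : ℝ) ^ (3 : ℕ)) ^ ((1 : ℝ) / 3) = K1 := by
            rw [← Real.rpow_natCast, ← Real.rpow_mul (Nat.cast_nonneg K1)]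
            norm_num
          have h4 : (K1 : ℝ) ≤ y := by exact_mod_cast hyK.le
          linarith
        have hSWy := hN1 N hNN1 R d' b K1 y (-t) hRL hd1' hdR hb hNy (hy.trans hK2N)
          (by
            rw [abs_neg]
            exact ht.trans (pow_le_pow_left₀ hl0.le hlN _))
        rw [e]
        refine hSWy.trans ?_
        have h1 : (y : ℝ) ≤ K2 := by exact_mod_cast hy
        exact div_le_div₀ hK20.le h1 (by positivity) (pow_le_pow_left₀ hl0.le hlN _)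
    · intro c' d' y T 𝓑 hd1' hd' _ hy hT hTx hm𝓑 h𝓑 hvol
      have hT0 : 0 ≤ T := (by positivity : (0 : ℝ) ≤ Real.log K2 ^ m).trans hT
      have e : ∀ t : ℝ, cor (cut K1 K2 (hR R)) 0 K1 ((c' : ℝ) / d') t y =
          cor (hR R) 0 K1 ((c' : ℝ) / d') t y := fun t => JJh_cor K1 K2 y _ _ t hy
      simp only [e]
      refine hx1 K2 hKx1 K1 y d' R c' T 𝓑 hd1'
        (hd'.trans (pow_le_pow_right₀ hl1 (by omega))) hRl hy
        ((pow_le_pow_right₀ hl1 hmK).trans hT) hTx hm𝓑 h𝓑 ?_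
      exact hvol.trans (le_mul_of_one_le_right (Real.rpow_nonneg hT0 _) (one_le_pow₀ hl1))
  have hfin := hx2 K2 hKx2 (cut K1 K2 (hR R)) K2 K1 P d c l Y hCor le_rfl
    (by
      rw [pow_one, div_le_iff₀ hl0]
      have h1 : (K2 : ℝ) ≤ 1024 * K1 := by exact_mod_cast hK1024
      have h2 : (0 : ℝ) ≤ K1 := Nat.cast_nonneg K1
      nlinarith)
    ((pow_le_pow_left₀ hl0.le hlN _).trans
      ((pow_le_pow_right₀ hL1 (by omega : b' ≤ b' + 1)).trans hP))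
    (hPK1.trans hK.le) hd1 hdl hcd hY
    (by
      refine hPY.trans ?_
      have h1 : E + 1 + 12 = E + 13 := by omega
      rw [h1]
      exact one_div_le_one_div_of_le (by positivity) (pow_le_pow_left₀ hl0.le hlN _))
  refine hfin.trans ?_
  have h1 : (P : ℝ) * K2 ≤ 32 * N := by exact_mod_cast hPK
  have h2 : Real.log N ^ (E + 1) ≤ 2 ^ (E + 1) * Real.log K2 ^ (E + 1) := by
    rw [← mul_pow]
    exact pow_le_pow_left₀ hL0.le hlog _
  rw [div_le_div_iff₀ (by positivity) (by positivity)]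
  have h3 : 0 ≤ (N : ℝ) := Nat.cast_nonneg N
  have h4 : 32 * Real.log N ^ E ≤ Real.log K2 ^ (E + 1) := by
    have h5 : (32 * 2 ^ (E + 1)) * Real.log N ^ E ≤ Real.log N * Real.log N ^ E :=
      mul_le_mul_of_nonneg_right hLE (by positivity)
    have h6 : Real.log N * Real.log N ^ E = Real.log N ^ (E + 1) := by ring
    have h7 : 2 ^ (E + 1) * (32 * Real.log N ^ E) ≤ 2 ^ (E + 1) * Real.log K2 ^ (E + 1) := by
      linarith
    exact le_of_mul_le_mul_left h7 (by positivity)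
  calc (P : ℝ) * K2 * Real.log N ^ E ≤ 32 * N * Real.log N ^ E :=
        mul_le_mul_of_nonneg_right h1 (by positivity)
    _ = N * (32 * Real.log N ^ E) := by ring
    _ ≤ N * Real.log K2 ^ (E + 1) := mul_le_mul_of_nonneg_left h4 h3

end Pool.Agent.H53.MID

end

section

/-!
# LV LR: the truncated Ramanujan expansion

Proof.  `lamR R n = ∑_{r ≤ R} (μ(r)/φ(r)) ramS r n`, `|ramS r n| ≤ φ(r)` (`GB.abs_ramS_le`), period `r` (`GB.ramS_congr`).  For fixed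
`1 ≤ r ≤ R ≤ L^A`: `ψ(n) = (μ(r)/φ(r)) ramS r n ee(n c/d)` has norm `≤ 1` and period `r d`, `(r d)^4 ≤ L^{8A} ≤ x`; `ksap 1` with
`K = x`, `a = M`, `b = y`, `β = 0` and period `r d`: `≤ x L (1/|t| + x^{-δ})`.  Sum over `r ≤ R`.
-/

set_option autoImplicit false

namespace Pool.Agent.H80.LV

open Finset
open Pool.Agent.H91.PK (ee)
open Pool.Agent.H91.EHA (Lam hR lamR)

private theorem LR_ee_int (m : ℤ) : ee (m : ℝ) = 1 := by
  unfold ee
  rw [Complex.exp_eq_one_iff]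
  exact ⟨m, by push_cast; ring⟩

/-- the periodic function -/
private noncomputable def LR_psi (r d : ℕ) (c : ℤ) (j : ℕ) : ℂ :=
  (((ArithmeticFunction.moebius r : ℝ) / (r.totient : ℝ) *
    Pool.Agent.H91.EHA.ramS r j : ℝ) : ℂ) * ee ((j : ℝ) * ((c : ℝ) / d))

private theorem LR_psi_per (r d : ℕ) (c : ℤ) (hd : 1 ≤ d) (j : ℕ) :
    LR_psi r d c (j + r * d) = LR_psi r d c j := by
  unfold LR_psi
  have h1 : Pool.Agent.H91.EHA.ramS r (j + r * d) = Pool.Agent.H91.EHA.ramS r j := by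
    apply Pool.Agent.H76.GB.ramS_congr
    unfold Nat.ModEq
    exact Nat.add_mul_mod_self_left _ _ _
  have hd0 : (d : ℝ) ≠ 0 := by exact_mod_cast (by omega : d ≠ 0)
  have h2 : ee ((((j + r * d : ℕ)) : ℝ) * ((c : ℝ) / d)) = ee ((j : ℝ) * ((c : ℝ) / d)) := by
    have e : (((j + r * d : ℕ)) : ℝ) * ((c : ℝ) / d) =
        (j : ℝ) * ((c : ℝ) / d) + (((r : ℤ) * c : ℤ) : ℝ) := by
      push_cast
      field_simp
    rw [e, Pool.Agent.H91.PK.LSa_ee_add, LR_ee_int, mul_one]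
  rw [h1, h2]

private theorem LR_psi_le (r d : ℕ) (c : ℤ) (hr : 1 ≤ r) (j : ℕ) :
    ‖LR_psi r d c j‖ ≤ 1 := by
  unfold LR_psi
  rw [norm_mul, Pool.Agent.H91.PK.LSa_norm_ee, mul_one, Complex.norm_real, Real.norm_eq_abs,
    abs_mul, abs_div]
  have hφ : (0 : ℝ) < r.totient := by exact_mod_cast Nat.totient_pos.2 (by omega)
  rw [abs_of_pos hφ]
  have h1 : |(ArithmeticFunction.moebius r : ℝ)| ≤ 1 := by
    have := ArithmeticFunction.abs_moebius_le_one (n := r)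
    exact_mod_cast this
  have h2 := Pool.Agent.H76.GB.abs_ramS_le r j hr
  calc |(ArithmeticFunction.moebius r : ℝ)| / (r.totient : ℝ) * |Pool.Agent.H91.EHA.ramS r j|
      ≤ 1 / (r.totient : ℝ) * (r.totient : ℝ) :=
        mul_le_mul (div_le_div_of_nonneg_right h1 hφ.le) h2 (abs_nonneg _) (by positivity)
    _ = 1 := by field_simp

private theorem LR_sum (d M y R : ℕ) (c : ℤ) (t : ℝ) :
    ∑ n ∈ Ioc M y, ((lamR R n : ℝ) : ℂ) * gE ((c : ℝ) / d) t n =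
      ∑ r ∈ Icc 1 R, ∑ n ∈ Ioc M y, LR_psi r d c n * ee (t * Real.log ((n : ℝ) + 0)) := by
  rw [sum_comm]
  refine sum_congr rfl fun n _ => ?_
  unfold lamR gE LR_psi
  rw [Pool.Agent.H91.PK.LSa_ee_add]
  push_cast
  rw [sum_mul]
  refine sum_congr rfl fun r _ => ?_
  rw [add_zero]
  ring

theorem lr : ∃ δ : ℝ, 0 < δ ∧ δ ≤ 1 ∧ ∀ A : ℕ, ∃ x0 : ℕ, ∀ x : ℕ, x0 ≤ x →
    ∀ (M y d R : ℕ) (c : ℤ) (t : ℝ), 1 ≤ d → (d : ℝ) ≤ Real.log x ^ A → (R : ℝ) ≤ Real.log x ^ A →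
      y ≤ x → 1 ≤ |t| → |t| ≤ (x : ℝ) ^ (2 : ℕ) →
      ‖∑ n ∈ Ioc M y, ((lamR R n : ℝ) : ℂ) * gE ((c : ℝ) / d) t n‖
        ≤ x * Real.log x ^ (A + 1) * (1 / |t| + (x : ℝ) ^ (-δ)) := by
  obtain ⟨δ, hδ0, hδ1, x1, hx1⟩ := Pool.Agent.H35.W.ksap 1 one_pos
  refine ⟨δ, hδ0, hδ1, fun A => ?_⟩
  obtain ⟨x2, hx2⟩ := log_pow_le 1 1 one_pos one_pos (8 * A)
  obtain ⟨x3, hx3⟩ := log_ge 1
  refine ⟨max (max x1 x2) (max x3 4), ?_⟩
  intro x hx M y d R c t hd hdA hRA hy ht1 ht2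
  have hxa : x1 ≤ x := (le_max_left _ _).trans ((le_max_left _ _).trans hx)
  have hxb : x2 ≤ x := (le_max_right _ _).trans ((le_max_left _ _).trans hx)
  have hxc : x3 ≤ x := (le_max_left _ _).trans ((le_max_right _ _).trans hx)
  have hxd : 4 ≤ x := (le_max_right _ _).trans ((le_max_right _ _).trans hx)
  have hxr : (1 : ℝ) ≤ x := by exact_mod_cast (by omega : 1 ≤ x)
  have hL : 1 ≤ Real.log x := hx3 x hxc
  have hL0 : 0 ≤ Real.log x := by linarith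
  have h8 := hx2 x hxb
  rw [one_mul, Real.rpow_one] at h8
  have hLA : 0 ≤ Real.log x ^ A := by positivity
  rw [LR_sum d M y R c t]
  have hterm : ∀ r ∈ Icc 1 R,
      ‖∑ n ∈ Ioc M y, LR_psi r d c n * ee (t * Real.log ((n : ℝ) + 0))‖ ≤
      x * Real.log x * (1 / |t| + (x : ℝ) ^ (-δ)) := by
    intro r hr
    rw [mem_Icc] at hr
    have hrR : (r : ℝ) ≤ Real.log x ^ A := le_trans (by exact_mod_cast hr.2) hRA
    refine hx1 x hxa x (r * d) M y (LR_psi r d c) 0 t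
      (by rw [Real.rpow_one]) le_rfl (Nat.mul_pos (by omega) (by omega)) ?_
      (LR_psi_per r d c hd) (LR_psi_le r d c hr.1) hy le_rfl zero_le_one ht1 ?_
    · have h1 : ((r : ℝ) * d) ^ 4 ≤ x := by
        refine le_trans ?_ h8
        have h2 : (r : ℝ) * d ≤ Real.log x ^ A * Real.log x ^ A :=
          mul_le_mul hrR hdA (Nat.cast_nonneg _) hLA
        calc ((r : ℝ) * d) ^ 4 ≤ (Real.log x ^ A * Real.log x ^ A) ^ 4 :=
              pow_le_pow_left₀ (by positivity) h2 4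
          _ = Real.log x ^ (8 * A) := by
              rw [← pow_add, ← pow_mul]
              congr 1
              ring
      exact_mod_cast h1
    · refine ht2.trans ?_
      exact pow_le_pow_right₀ hxr (by norm_num)
  refine (norm_sum_le _ _).trans ((sum_le_sum hterm).trans ?_)
  rw [sum_const, Nat.card_Icc, nsmul_eq_mul, Nat.add_sub_cancel]
  have ht0 : 0 < |t| := by linarith
  have hinv : 0 ≤ 1 / |t| := by positivity
  have hZ : 0 ≤ (x : ℝ) ^ (-δ) := by positivity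
  calc ((R : ℕ) : ℝ) * (x * Real.log x * (1 / |t| + (x : ℝ) ^ (-δ)))
      ≤ Real.log x ^ A * (x * Real.log x * (1 / |t| + (x : ℝ) ^ (-δ))) := by
        refine mul_le_mul_of_nonneg_right hRA (by positivity)
    _ = x * Real.log x ^ (A + 1) * (1 / |t| + (x : ℝ) ^ (-δ)) := by
        rw [pow_succ]
        ring

end Pool.Agent.H80.LV

end

section

/-!
# LV Main: large values of the correlations of `hR R` with `e(n c/d) n^{2 π i t}`

Output of Part II of PROJECT SP.  For `M ≤ y`: `cor (hR R) 0 M α t y = P(y) - P(M) - ∑_{Ioc M y} lamR R n gE α t n`, with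
`P(y) = ∑_{n ≤ y} Λ(n) gE α t n` (`pre` with `K + 4`), and `lr`: `(x L^{A+1} (1/T + x^{-δ}))^2 vol B ≤ 2 x^2 L^{2A+2} (T^{-2} + x^{-2δ}) T^η L^A
≤ x^2/L^{K+4}` (`η ≤ δ/2`, `η ≤ 1`; `T^η ≤ x^{2η}`).  `|a - b - c|^2 ≤ 3 (..)`.
-/

set_option autoImplicit false

namespace Pool.Agent.H80.LV

open Finset MeasureTheory
open Pool.Agent.H91.PK (ee)
open Pool.Agent.H91.EHA (Lam hR lamR)
open Pool.Agent.H35.W (cor)

/-- continuity of the exponential sums -/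
theorem Main_cont (s : Finset ℕ) (a : ℕ → ℂ) (α : ℝ) :
    Continuous (fun t : ℝ => ∑ n ∈ s, a n * gE α t n) := by
  refine continuous_finsetSum _ fun n _ => continuous_const.mul ?_
  unfold gE ee
  fun_prop

/-- integrability on bounded sets -/
theorem Main_int (F : ℝ → ℂ) (hF : Continuous F) (B : Set ℝ) (hB : MeasurableSet B) (Y : ℝ)
    (hY : ∀ t ∈ B, |t| ≤ Y) : IntegrableOn (fun t => ‖F t‖ ^ 2) B := by
  have h1 : IntegrableOn (fun t => ‖F t‖ ^ 2) (Set.Icc (-Y) Y) :=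
    (hF.norm.pow 2).continuousOn.integrableOn_compact isCompact_Icc
  exact h1.mono_set fun t ht => abs_le.1 (hY t ht)

theorem Main_fin (B : Set ℝ) (Y : ℝ) (hY : ∀ t ∈ B, |t| ≤ Y) : volume B ≠ ⊤ := by
  have h1 : B ⊆ Set.Icc (-Y) Y := fun t ht => abs_le.1 (hY t ht)
  exact ne_top_of_le_ne_top (by rw [Real.volume_Icc]; exact ENNReal.ofReal_ne_top) (measure_mono h1)

/-- the splitting of `cor` -/
theorem Main_cor (R M y : ℕ) (hMy : M ≤ y) (α t : ℝ) :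
    cor (hR R) 0 M α t y = ∑ n ∈ Icc 1 y, ((Lam n : ℝ) : ℂ) * gE α t n
      - ∑ n ∈ Icc 1 M, ((Lam n : ℝ) : ℂ) * gE α t n
      - ∑ n ∈ Ioc M y, ((lamR R n : ℝ) : ℂ) * gE α t n := by
  have h1 : Icc 1 y = Icc 1 M ∪ Ioc M y := by
    ext n
    simp only [mem_union, mem_Icc, mem_Ioc]
    omega
  have h2 : Disjoint (Icc 1 M) (Ioc M y) := by
    rw [Finset.disjoint_left]
    intro n hn hn2
    rw [mem_Icc] at hn
    rw [mem_Ioc] at hn2
    omega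
  rw [h1, sum_union h2, add_sub_cancel_left, ← sum_sub_distrib]
  unfold cor
  refine sum_congr rfl fun n _ => ?_
  unfold hR gE
  rw [← sub_mul]
  push_cast
  rw [sub_zero]

theorem Main_sq (a b c : ℂ) : ‖a - b - c‖ ^ 2 ≤ 3 * ‖a‖ ^ 2 + 3 * ‖b‖ ^ 2 + 3 * ‖c‖ ^ 2 := by
  have h1 : ‖a - b - c‖ ≤ ‖a‖ + ‖b‖ + ‖c‖ :=
    (norm_sub_le _ _).trans (add_le_add (norm_sub_le _ _) le_rfl)
  have h2 : ‖a - b - c‖ ^ 2 ≤ (‖a‖ + ‖b‖ + ‖c‖) ^ 2 := pow_le_pow_left₀ (norm_nonneg _) h1 2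
  nlinarith [sq_nonneg (‖a‖ - ‖b‖), sq_nonneg (‖b‖ - ‖c‖), sq_nonneg (‖a‖ - ‖c‖)]

theorem Main_split (B : Set ℝ) (f1 f2 f3 : ℝ → ℝ) (i1 : IntegrableOn f1 B)
    (i2 : IntegrableOn f2 B) (i3 : IntegrableOn f3 B) :
    ∫ t in B, (3 * f1 t + 3 * f2 t + 3 * f3 t)
      = 3 * (∫ t in B, f1 t) + 3 * (∫ t in B, f2 t) + 3 * (∫ t in B, f3 t) := by
  have j1 : IntegrableOn (fun t => 3 * f1 t) B := i1.const_mul 3
  have j2 : IntegrableOn (fun t => 3 * f2 t) B := i2.const_mul 3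
  have j3 : IntegrableOn (fun t => 3 * f3 t) B := i3.const_mul 3
  have k1 : ∫ t in B, (3 * f1 t + 3 * f2 t + 3 * f3 t)
      = (∫ t in B, (3 * f1 t + 3 * f2 t)) + ∫ t in B, 3 * f3 t := integral_add (j1.add j2) j3
  have k2 : ∫ t in B, (3 * f1 t + 3 * f2 t) = (∫ t in B, 3 * f1 t) + ∫ t in B, 3 * f2 t :=
    integral_add j1 j2
  rw [k1, k2, integral_const_mul, integral_const_mul, integral_const_mul]

theorem lv (hVK : VK) : ∃ η : ℝ, 0 < η ∧ η ≤ 1 ∧ ∀ K A : ℕ, ∃ K' x0 : ℕ, ∀ x : ℕ, x0 ≤ x →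
    ∀ (M y d R : ℕ) (c : ℤ) (T : ℝ) (B : Set ℝ), 1 ≤ d → (d : ℝ) ≤ Real.log x ^ A →
      (R : ℝ) ≤ Real.log x ^ A → y ≤ x → Real.log x ^ K' ≤ T → 2 * T ≤ (x : ℝ) ^ (2 : ℕ) →
      MeasurableSet B → (∀ t ∈ B, T ≤ |t| ∧ |t| ≤ 2 * T) →
      volume.real B ≤ T ^ η * Real.log x ^ A →
      ∫ t in B, ‖cor (hR R) 0 M ((c : ℝ) / d) t y‖ ^ 2 ≤ (x : ℝ) ^ 2 / Real.log x ^ K := by
  obtain ⟨η1, h1a, h1b, H1⟩ := pre hVK
  obtain ⟨δ, hδ, hδ1, H2⟩ := lr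
  have he1 : min η1 (δ / 2) ≤ η1 := min_le_left _ _
  have he2 : min η1 (δ / 2) ≤ δ / 2 := min_le_right _ _
  have he0 : 0 < min η1 (δ / 2) := by positivity
  refine ⟨min η1 (δ / 2), he0, by linarith, fun K A => ?_⟩
  generalize min η1 (δ / 2) = η at he1 he2 he0
  obtain ⟨K1, x1, H1⟩ := H1 (K + 1) A
  obtain ⟨x2, H2⟩ := H2 A
  obtain ⟨x3, H3⟩ := log_ge 18
  obtain ⟨x4, H4⟩ := log_pow_le δ 1 hδ one_pos (K + 3 * A + 3)
  refine ⟨K1 + (K + 3 * A + 3), x1 + x2 + x3 + x4 + 1, ?_⟩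
  intro x hx M y d R c T B hd hdA hR' hyx hT hTx hB hBT hv
  have hL : 18 ≤ Real.log x := H3 x (by omega)
  have H4' := H4 x (by omega)
  set L := Real.log x with hLdef
  have hL0 : 0 < L := by linarith
  have hL1 : 1 ≤ L := by linarith
  have hxN : 1 ≤ x := by omega
  have hx1 : (1 : ℝ) ≤ (x : ℝ) := by exact_mod_cast hxN
  have hx0 : (0 : ℝ) < (x : ℝ) := by linarith
  have hLp : ∀ k : ℕ, 1 ≤ L ^ k := fun k => one_le_pow₀ hL1
  have hT1 : L ^ K1 ≤ T := (pow_le_pow_right₀ hL1 (by omega)).trans hT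
  have hT2 : L ^ (K + 3 * A + 3) ≤ T := (pow_le_pow_right₀ hL1 (by omega)).trans hT
  have hT1' : 1 ≤ T := (hLp _).trans hT1
  have hT0 : 0 < T := by linarith
  have hBx : ∀ t ∈ B, |t| ≤ (x : ℝ) ^ (2 : ℕ) := fun t ht => (hBT t ht).2.trans hTx
  rcases le_or_gt M y with hMy | hMy
  swap
  · have h0 : ∀ t, cor (hR R) 0 M ((c : ℝ) / d) t y = 0 := by
      intro t
      unfold cor
      rw [Ioc_eq_empty (by omega), sum_empty]
    simp only [h0, norm_zero]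
    rw [zero_pow (by norm_num), integral_zero]
    positivity
  set α : ℝ := (c : ℝ) / d with hα
  have hMx : M ≤ x := hMy.trans hyx
  have hTη : T ^ η ≤ T ^ η1 := Real.rpow_le_rpow_of_exponent_le hT1' he1
  have hv1 : volume.real B ≤ T ^ η1 * L ^ A := hv.trans (mul_le_mul_of_nonneg_right hTη (by positivity))
  have e1 := H1 x (by omega) y d c T B hd hdA hyx hT1 hTx hB hBT hv1
  have e2 := H1 x (by omega) M d c T B hd hdA hMx hT1 hTx hB hBT hv1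
  rw [← hLdef] at e1 e2
  -- the Ramanujan part
  have hQ : ∀ t ∈ B, ‖∑ n ∈ Ioc M y, ((lamR R n : ℝ) : ℂ) * gE α t n‖ ^ 2
      ≤ 2 * (x : ℝ) ^ 2 * L ^ (2 * A + 2) * (T⁻¹ ^ 2 + ((x : ℝ) ^ (-δ)) ^ 2) := by
    intro t ht
    have ht1 := (hBT t ht).1
    have h1 := H2 x (by omega) M y d R c t hd hdA hR' hyx (hT1'.trans ht1) (hBx t ht)
    rw [← hLdef, ← hα] at h1
    have h2 : 1 / |t| ≤ T⁻¹ := by
      rw [one_div]
      exact inv_anti₀ hT0 ht1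
    have h3 : 0 ≤ (x : ℝ) ^ (-δ) := Real.rpow_nonneg hx0.le _
    have h4 : ‖∑ n ∈ Ioc M y, ((lamR R n : ℝ) : ℂ) * gE α t n‖
        ≤ x * L ^ (A + 1) * (T⁻¹ + (x : ℝ) ^ (-δ)) := by
      refine h1.trans ?_
      gcongr
    calc ‖∑ n ∈ Ioc M y, ((lamR R n : ℝ) : ℂ) * gE α t n‖ ^ 2
        ≤ (x * L ^ (A + 1) * (T⁻¹ + (x : ℝ) ^ (-δ))) ^ 2 :=
          pow_le_pow_left₀ (norm_nonneg _) h4 2
      _ = (x : ℝ) ^ 2 * L ^ (2 * A + 2) * (T⁻¹ + (x : ℝ) ^ (-δ)) ^ 2 := by ring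
      _ ≤ (x : ℝ) ^ 2 * L ^ (2 * A + 2) * (2 * (T⁻¹ ^ 2 + ((x : ℝ) ^ (-δ)) ^ 2)) := by
          apply mul_le_mul_of_nonneg_left _ (by positivity)
          nlinarith [sq_nonneg (T⁻¹ - (x : ℝ) ^ (-δ))]
      _ = _ := by ring
  have hvol0 : 0 ≤ volume.real B := measureReal_nonneg
  have hfin : volume B ≠ ⊤ := Main_fin B _ hBx
  have e3 : ∫ t in B, ‖∑ n ∈ Ioc M y, ((lamR R n : ℝ) : ℂ) * gE α t n‖ ^ 2
      ≤ 4 * (x : ℝ) ^ 2 / L ^ (K + 1) := by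
    have h1 : ∫ t in B, ‖∑ n ∈ Ioc M y, ((lamR R n : ℝ) : ℂ) * gE α t n‖ ^ 2
        ≤ ∫ t in B, 2 * (x : ℝ) ^ 2 * L ^ (2 * A + 2) * (T⁻¹ ^ 2 + ((x : ℝ) ^ (-δ)) ^ 2) := by
      refine setIntegral_mono_on ?_ ?_ hB hQ
      · exact Main_int _ (Main_cont _ _ α) B hB _ hBx
      · exact integrableOn_const hfin
    rw [setIntegral_const, smul_eq_mul] at h1
    refine h1.trans ?_
    have h2 : volume.real B * (T⁻¹ ^ 2 + ((x : ℝ) ^ (-δ)) ^ 2) ≤ 2 * L ^ A / L ^ (K + 3 * A + 3) := by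
      have h3 : T ^ η * T⁻¹ ^ 2 ≤ (L ^ (K + 3 * A + 3))⁻¹ := by
        have h4 : T ^ η ≤ T := by
          calc T ^ η ≤ T ^ (1 : ℝ) := Real.rpow_le_rpow_of_exponent_le hT1' (by linarith)
            _ = T := Real.rpow_one T
        calc T ^ η * T⁻¹ ^ 2 ≤ T * T⁻¹ ^ 2 := mul_le_mul_of_nonneg_right h4 (by positivity)
          _ = T⁻¹ := by field_simp
          _ ≤ (L ^ (K + 3 * A + 3))⁻¹ := inv_anti₀ (by positivity) hT2
      have h5 : T ^ η * ((x : ℝ) ^ (-δ)) ^ 2 ≤ (L ^ (K + 3 * A + 3))⁻¹ := by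
        have h6 : T ^ η ≤ (x : ℝ) ^ δ := by
          calc T ^ η ≤ ((x : ℝ) ^ (2 : ℕ)) ^ η := by
                apply Real.rpow_le_rpow hT0.le (by linarith) he0.le
            _ = (x : ℝ) ^ (2 * η) := by
                rw [← Real.rpow_natCast, ← Real.rpow_mul hx0.le]
                norm_num
            _ ≤ (x : ℝ) ^ δ := Real.rpow_le_rpow_of_exponent_le hx1 (by linarith)
        have h7 : ((x : ℝ) ^ (-δ)) = ((x : ℝ) ^ δ)⁻¹ := Real.rpow_neg hx0.le δ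
        have h8 : 0 < (x : ℝ) ^ δ := Real.rpow_pos_of_pos hx0 δ
        rw [h7]
        calc T ^ η * (((x : ℝ) ^ δ)⁻¹) ^ 2 ≤ (x : ℝ) ^ δ * (((x : ℝ) ^ δ)⁻¹) ^ 2 :=
              mul_le_mul_of_nonneg_right h6 (by positivity)
          _ = ((x : ℝ) ^ δ)⁻¹ := by field_simp
          _ ≤ (L ^ (K + 3 * A + 3))⁻¹ := inv_anti₀ (by positivity) (by linarith)
      calc volume.real B * (T⁻¹ ^ 2 + ((x : ℝ) ^ (-δ)) ^ 2)
          ≤ T ^ η * L ^ A * (T⁻¹ ^ 2 + ((x : ℝ) ^ (-δ)) ^ 2) :=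
            mul_le_mul_of_nonneg_right hv (by positivity)
        _ = L ^ A * (T ^ η * T⁻¹ ^ 2 + T ^ η * ((x : ℝ) ^ (-δ)) ^ 2) := by ring
        _ ≤ L ^ A * ((L ^ (K + 3 * A + 3))⁻¹ + (L ^ (K + 3 * A + 3))⁻¹) := by
            apply mul_le_mul_of_nonneg_left _ (by positivity)
            linarith
        _ = 2 * L ^ A / L ^ (K + 3 * A + 3) := by rw [div_eq_mul_inv]; ring
    calc volume.real B * (2 * (x : ℝ) ^ 2 * L ^ (2 * A + 2) * (T⁻¹ ^ 2 + ((x : ℝ) ^ (-δ)) ^ 2))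
        = 2 * (x : ℝ) ^ 2 * L ^ (2 * A + 2) * (volume.real B * (T⁻¹ ^ 2 + ((x : ℝ) ^ (-δ)) ^ 2)) := by
          ring
      _ ≤ 2 * (x : ℝ) ^ 2 * L ^ (2 * A + 2) * (2 * L ^ A / L ^ (K + 3 * A + 3)) := by
          apply mul_le_mul_of_nonneg_left h2 (by positivity)
      _ = 4 * (x : ℝ) ^ 2 / L ^ (K + 1) := by
          have h9 : L ^ (K + 3 * A + 3) = L ^ (K + 1) * (L ^ (2 * A + 2) * L ^ A) := by ring
          rw [h9]
          field_simp
          ring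
  -- combine
  have hmain : ∫ t in B, ‖cor (hR R) 0 M α t y‖ ^ 2
      ≤ ∫ t in B, (3 * ‖∑ n ∈ Icc 1 y, ((Lam n : ℝ) : ℂ) * gE α t n‖ ^ 2
        + 3 * ‖∑ n ∈ Icc 1 M, ((Lam n : ℝ) : ℂ) * gE α t n‖ ^ 2
        + 3 * ‖∑ n ∈ Ioc M y, ((lamR R n : ℝ) : ℂ) * gE α t n‖ ^ 2) := by
    have i1 := Main_int _ (Main_cont (Icc 1 y) (fun n => ((Lam n : ℝ) : ℂ)) α) B hB _ hBx
    have i2 := Main_int _ (Main_cont (Icc 1 M) (fun n => ((Lam n : ℝ) : ℂ)) α) B hB _ hBx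
    have i3 := Main_int _ (Main_cont (Ioc M y) (fun n => ((lamR R n : ℝ) : ℂ)) α) B hB _ hBx
    refine setIntegral_mono_on ?_ (((i1.const_mul 3).add (i2.const_mul 3)).add (i3.const_mul 3)) hB ?_
    · have hc : Continuous (fun t => cor (hR R) 0 M α t y) := by
        simp only [Main_cor R M y hMy]
        exact ((Main_cont _ _ α).sub (Main_cont _ _ α)).sub (Main_cont _ _ α)
      exact Main_int _ hc B hB _ hBx
    · intro t _
      rw [Main_cor R M y hMy]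
      exact Main_sq _ _ _
  have i1 := Main_int _ (Main_cont (Icc 1 y) (fun n => ((Lam n : ℝ) : ℂ)) α) B hB _ hBx
  have i2 := Main_int _ (Main_cont (Icc 1 M) (fun n => ((Lam n : ℝ) : ℂ)) α) B hB _ hBx
  have i3 := Main_int _ (Main_cont (Ioc M y) (fun n => ((lamR R n : ℝ) : ℂ)) α) B hB _ hBx
  have hsplit : ∫ t in B, (3 * ‖∑ n ∈ Icc 1 y, ((Lam n : ℝ) : ℂ) * gE α t n‖ ^ 2
        + 3 * ‖∑ n ∈ Icc 1 M, ((Lam n : ℝ) : ℂ) * gE α t n‖ ^ 2
        + 3 * ‖∑ n ∈ Ioc M y, ((lamR R n : ℝ) : ℂ) * gE α t n‖ ^ 2)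
      = 3 * (∫ t in B, ‖∑ n ∈ Icc 1 y, ((Lam n : ℝ) : ℂ) * gE α t n‖ ^ 2)
        + 3 * (∫ t in B, ‖∑ n ∈ Icc 1 M, ((Lam n : ℝ) : ℂ) * gE α t n‖ ^ 2)
        + 3 * (∫ t in B, ‖∑ n ∈ Ioc M y, ((lamR R n : ℝ) : ℂ) * gE α t n‖ ^ 2) :=
    Main_split B _ _ _ i1 i2 i3
  refine hmain.trans ?_
  rw [hsplit]
  have hfin2 : 18 * ((x : ℝ) ^ 2 / L ^ (K + 1)) ≤ (x : ℝ) ^ 2 / L ^ K := by
    rw [pow_succ L K]
    have h1 : (x : ℝ) ^ 2 / (L ^ K * L) = (x : ℝ) ^ 2 / L ^ K * (1 / L) := by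
      field_simp
    rw [h1]
    have h2 : 1 / L ≤ 1 / 18 := one_div_le_one_div_of_le (by norm_num) hL
    have h3 : 0 ≤ (x : ℝ) ^ 2 / L ^ K := by positivity
    nlinarith
  have h18 : 3 * ((x : ℝ) ^ 2 / L ^ (K + 1)) + 3 * ((x : ℝ) ^ 2 / L ^ (K + 1))
      + 3 * (4 * (x : ℝ) ^ 2 / L ^ (K + 1)) = 18 * ((x : ℝ) ^ 2 / L ^ (K + 1)) := by ring
  linarith

end Pool.Agent.H80.LV

end

section

/-!
# VKT (H97/VK of helper97 with the parameter `T0.t` in place of `9/10`, `t1` in place of `19/20`) VkClassW: `vk_class` for `z ≥ exp(L^{19/20})`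

Proof.  `(u,d) = 1`: orthogonality (Mathlib `DirichletCharacter.sum_char_inv_mul_char_eq`, compare `swk1_orth` in `EHA/SwK1.lean`):
`∑_{n ≡ u} Λ(n) ee(t log n) = (1/φ(d)) ∑_χ χ(u)^{-1} ∑_{n≤z} Λ(n) χ(n) ee(t log n)`, at most `φ(d)` characters, `vk_chi K B e0`.
`(u,d) > 1`: every `n ≡ u mod d` has a common factor with `d`, so `Λ(n) ≠ 0` only for powers of the primes `p ∣ d`:
at most `∑_{p ∣ d} log z ≤ d · log z ≤ z/L^K` (`DiA_psi_noncoprime` in `PK/DiA.lean`, or directly).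
-/

set_option autoImplicit false

namespace Pool.Agent.H76.VKT

open Finset
open Pool.Agent.H91.EHA
open Pool.Agent.H91.PK (ee)

private theorem VkClass_orth {z d u : ℕ} (hd : 1 ≤ d) (hu : Nat.Coprime u d) (f : ℕ → ℂ) :
    (d.totient : ℂ) * ∑ n ∈ (Icc 1 z).filter (fun n => n % d = u % d), f n =
      ∑ χ : DirichletCharacter ℂ d, χ ((u : ZMod d)⁻¹) *
        ∑ n ∈ Icc 1 z, f n * χ (n : ZMod d) := by
  have : NeZero d := ⟨by omega⟩
  have hun : IsUnit (u : ZMod d) := (ZMod.isUnit_iff_coprime u d).mpr hu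
  simp only [mul_sum]
  rw [sum_comm, sum_filter]
  refine sum_congr rfl fun n _ => ?_
  have h1 : ∀ χ : DirichletCharacter ℂ d,
      χ ((u : ZMod d)⁻¹) * (f n * χ (n : ZMod d))
      = (χ ((u : ZMod d)⁻¹) * χ (n : ZMod d)) * f n := by
    intro χ; ring
  simp only [h1]
  rw [← sum_mul, DirichletCharacter.sum_char_inv_mul_char_eq ℂ hun]
  have hiff : ((u : ZMod d) = (n : ZMod d)) ↔ n % d = u % d := by
    rw [eq_comm]
    exact ZMod.natCast_eq_natCast_iff' n u d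
  by_cases h : n % d = u % d
  · rw [if_pos h, if_pos (hiff.mpr h)]
  · rw [if_neg h, if_neg (fun h' => h (hiff.mp h'))]
    simp

private theorem VkClass_norm_ee (t : ℝ) : ‖ee t‖ = 1 := by
  unfold ee
  rw [show (2 * Real.pi * t * Complex.I : ℂ) = ((2 * Real.pi * t : ℝ) : ℂ) * Complex.I by
    push_cast; ring]
  exact Complex.norm_exp_ofReal_mul_I _

private theorem VkClass_norm_char_le {d : ℕ} (χ : DirichletCharacter ℂ d) (a : ZMod d) : ‖χ a‖ ≤ 1 :=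
  DirichletCharacter.norm_le_one χ a

private theorem VkClass_noncop {z d u : ℕ} (hz : 1 ≤ z) (hd : 1 ≤ d) (hu : ¬ Nat.Coprime u d)
    (t : ℝ) :
    ‖∑ n ∈ (Icc 1 z).filter (fun n => n % d = u % d),
      ((Lam n : ℝ) : ℂ) * ee (t * Real.log n)‖ ≤ d * Real.log z := by
  have h1 : ‖∑ n ∈ (Icc 1 z).filter (fun n => n % d = u % d),
      ((Lam n : ℝ) : ℂ) * ee (t * Real.log n)‖ ≤
      ∑ n ∈ (Icc 1 z).filter (fun n => n % d = u % d), ArithmeticFunction.vonMangoldt n := by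
    refine (norm_sum_le _ _).trans (sum_le_sum fun n _ => ?_)
    rw [norm_mul, VkClass_norm_ee, mul_one, Complex.norm_real, Lam,
      Real.norm_of_nonneg ArithmeticFunction.vonMangoldt_nonneg]
  have h2 : ∑ n ∈ (Icc 1 z).filter (fun n => n % d = u % d), ArithmeticFunction.vonMangoldt n ≤
      ∑ n ∈ (Icc 1 z).filter (fun n => ¬ Nat.Coprime n d), ArithmeticFunction.vonMangoldt n := by
    refine sum_le_sum_of_subset_of_nonneg ?_ (fun _ _ _ => ArithmeticFunction.vonMangoldt_nonneg)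
    intro n hn
    rw [mem_filter] at hn ⊢
    refine ⟨hn.1, fun hc => hu ?_⟩
    have h3 : Nat.gcd n d = Nat.gcd u d := Nat.ModEq.gcd_eq hn.2
    rw [Nat.Coprime, ← h3]
    exact hc
  have h4 := Pool.Agent.H91.PK.DiA_psi_noncoprime (N := z) (d := d) hz hd
  have h5 : (d.primeFactors.card : ℝ) ≤ d := by
    have : d.primeFactors.card ≤ (Icc 1 d).card := by
      refine card_le_card fun p hp => ?_
      rw [mem_Icc]
      exact ⟨(Nat.prime_of_mem_primeFactors hp).one_le,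
        Nat.le_of_dvd hd (Nat.dvd_of_mem_primeFactors hp)⟩
    rw [Nat.card_Icc, Nat.add_sub_cancel] at this
    exact_mod_cast this
  calc _ ≤ _ := h1
    _ ≤ _ := h2
    _ ≤ _ := h4
    _ ≤ _ := mul_le_mul_of_nonneg_right h5 (Real.log_natCast_nonneg z)

private theorem VkClassW_large (t1 : ℝ) (ht1 : 1 / 2 ≤ t1) (K B : ℕ) : ∃ x0 : ℕ, ∀ x : ℕ, x0 ≤ x →
    1 ≤ Real.log x ∧ 2 * Real.log x ^ (B + 1 + K) ≤ Real.exp (Real.log x ^ t1) := by
  have h1 : ∀ᶠ u : ℝ in Filter.atTop, 2 * u ^ (B + 1 + K) ≤ Real.exp (u ^ t1) := by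
    have h := (isLittleO_pow_exp_pos_mul_atTop (2 * (B + 1 + K)) (show (0 : ℝ) < 1 by norm_num)).bound
      (show (0 : ℝ) < 1 / 2 by norm_num)
    have h' := (tendsto_rpow_atTop (show (0 : ℝ) < t1 by linarith)).eventually h
    filter_upwards [h', Filter.eventually_ge_atTop (1 : ℝ)] with u hu hu1
    have hp : 0 ≤ u ^ t1 := Real.rpow_nonneg (by linarith) _
    rw [Real.norm_of_nonneg (by positivity), Real.norm_of_nonneg (by positivity), one_mul] at hu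
    have h2 : u ^ (B + 1 + K) ≤ (u ^ t1) ^ (2 * (B + 1 + K)) := by
      rw [← Real.rpow_natCast (u ^ t1), ← Real.rpow_mul (by linarith),
        ← Real.rpow_natCast u]
      refine Real.rpow_le_rpow_of_exponent_le hu1 ?_
      push_cast
      have h1 : (0 : ℝ) ≤ B := Nat.cast_nonneg _
      have h2 : (0 : ℝ) ≤ K := Nat.cast_nonneg _
      nlinarith
    linarith
  have h2 : ∀ᶠ x : ℝ in Filter.atTop, 1 ≤ Real.log x := Real.tendsto_log_atTop.eventually_ge_atTop 1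
  have h3 := (tendsto_natCast_atTop_atTop (R := ℝ)).eventually
    ((Real.tendsto_log_atTop.eventually h1).and h2)
  obtain ⟨x0, hx0⟩ := Filter.eventually_atTop.mp h3
  exact ⟨x0, fun x hx => ⟨(hx0 x hx).2, (hx0 x hx).1⟩⟩

theorem vk_class_w [T0] (t1 : ℝ) (ht1' : T0.t < t1) (K B : ℕ) : ∃ K' x0 : ℕ, ∀ x : ℕ, x0 ≤ x →
    ∀ (d u z : ℕ) (t : ℝ), 1 ≤ d → (d : ℝ) ≤ Real.log x ^ B →
    Real.exp (Real.log x ^ t1) ≤ z → z ≤ x ^ 2 → Real.log x ^ K' ≤ |t| → |t| ≤ (x : ℝ) ^ (2 : ℕ) →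
    ‖∑ n ∈ (Icc 1 z).filter (fun n => n % d = u % d), ((Lam n : ℝ) : ℂ) * ee (t * Real.log n)‖ ≤
      z / Real.log x ^ K := by
  obtain ⟨K', x1, hchi⟩ := vk_chi_w t1 ht1' K B
  obtain ⟨x2, hlarge⟩ := VkClassW_large t1 (by have := T0.lo; linarith) K B
  refine ⟨K', max (max x1 x2) 1, fun x hx d u z t hd hdB hz1 hz2 ht1 ht2 => ?_⟩
  have hx1 : x1 ≤ x := ((le_max_left _ _).trans (le_max_left _ _)).trans hx
  have hx2 : x2 ≤ x := ((le_max_right _ _).trans (le_max_left _ _)).trans hx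
  have hx3 : 1 ≤ x := (le_max_right _ _).trans hx
  obtain ⟨hL1, hL2⟩ := hlarge x hx2
  have hL0 : 0 < Real.log x := by linarith
  have hLK : 0 < Real.log x ^ K := pow_pos hL0 K
  have hz0 : (0 : ℝ) ≤ z := Nat.cast_nonneg z
  by_cases hu : Nat.Coprime u d
  · have : NeZero d := ⟨by omega⟩
    have horth := VkClass_orth (z := z) hd hu (fun n => ((Lam n : ℝ) : ℂ) * ee (t * Real.log n))
    have hphi : (0 : ℝ) < d.totient := by exact_mod_cast Nat.totient_pos.2 hd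
    have h1 : (d.totient : ℝ) * ‖∑ n ∈ (Icc 1 z).filter (fun n => n % d = u % d),
        ((Lam n : ℝ) : ℂ) * ee (t * Real.log n)‖ ≤ d.totient * (z / Real.log x ^ K) := by
      have h2 : (d.totient : ℝ) * ‖∑ n ∈ (Icc 1 z).filter (fun n => n % d = u % d),
          ((Lam n : ℝ) : ℂ) * ee (t * Real.log n)‖ =
          ‖(d.totient : ℂ) * ∑ n ∈ (Icc 1 z).filter (fun n => n % d = u % d),
          ((Lam n : ℝ) : ℂ) * ee (t * Real.log n)‖ := by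
        rw [norm_mul, Complex.norm_natCast]
      rw [h2, horth]
      have h3 : ∀ χ : DirichletCharacter ℂ d, ‖χ ((u : ZMod d)⁻¹) *
          ∑ n ∈ Icc 1 z, ((Lam n : ℝ) : ℂ) * ee (t * Real.log n) * χ (n : ZMod d)‖ ≤
          z / Real.log x ^ K := by
        intro χ
        have h4 := hchi x hx1 d χ t z hd hdB hz1 hz2 ht1 ht2
        have h5 : ∑ n ∈ Icc 1 z, ((Lam n : ℝ) : ℂ) * ee (t * Real.log n) * χ (n : ZMod d) =
            ∑ n ∈ Icc 1 z, ((Lam n : ℝ) : ℂ) * χ (n : ZMod d) * ee (t * Real.log n) :=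
          sum_congr rfl fun n _ => by ring
        rw [norm_mul, h5]
        calc _ ≤ 1 * ‖∑ n ∈ Icc 1 z, ((Lam n : ℝ) : ℂ) * χ (n : ZMod d) *
              ee (t * Real.log n)‖ :=
              mul_le_mul_of_nonneg_right (VkClass_norm_char_le χ _) (norm_nonneg _)
          _ ≤ _ := by rw [one_mul]; exact h4
      have h6 : (Finset.univ : Finset (DirichletCharacter ℂ d)).card = d.totient := by
        rw [card_univ, ← Nat.card_eq_fintype_card,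
          DirichletCharacter.card_eq_totient_of_hasEnoughRootsOfUnity ℂ d]
      calc _ ≤ ∑ χ : DirichletCharacter ℂ d, ‖χ ((u : ZMod d)⁻¹) *
            ∑ n ∈ Icc 1 z, ((Lam n : ℝ) : ℂ) * ee (t * Real.log n) * χ (n : ZMod d)‖ :=
            norm_sum_le _ _
        _ ≤ ∑ _χ : DirichletCharacter ℂ d, (z / Real.log x ^ K : ℝ) :=
            sum_le_sum fun χ _ => h3 χ
        _ = _ := by rw [sum_const, h6, nsmul_eq_mul]
    exact le_of_mul_le_mul_left h1 hphi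
  · have hz3 : (1 : ℝ) ≤ z := by
      have h1 : (1 : ℝ) ≤ Real.exp (Real.log x ^ t1) :=
        Real.one_le_exp (Real.rpow_nonneg hL0.le _)
      linarith
    have hz4 : 1 ≤ z := by exact_mod_cast hz3
    have h1 := VkClass_noncop (z := z) (d := d) (u := u) hz4 hd hu t
    have h2 : Real.log z ≤ 2 * Real.log x := by
      have h3 : (z : ℝ) ≤ (x : ℝ) ^ 2 := by exact_mod_cast hz2
      have h4 := Real.log_le_log (by linarith) h3
      rwa [Real.log_pow, Nat.cast_ofNat] at h4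
    rw [le_div_iff₀ hLK]
    have hlz : 0 ≤ Real.log z := Real.log_natCast_nonneg z
    calc ‖∑ n ∈ (Icc 1 z).filter (fun n => n % d = u % d),
          ((Lam n : ℝ) : ℂ) * ee (t * Real.log n)‖ * Real.log x ^ K
        ≤ (d * Real.log z) * Real.log x ^ K := mul_le_mul_of_nonneg_right h1 hLK.le
      _ ≤ (Real.log x ^ B * (2 * Real.log x)) * Real.log x ^ K := by
          refine mul_le_mul_of_nonneg_right ?_ hLK.le
          exact mul_le_mul hdB h2 hlz (pow_nonneg hL0.le B)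
      _ = 2 * Real.log x ^ (B + 1 + K) := by rw [pow_add, pow_add]; ring
      _ ≤ Real.exp (Real.log x ^ t1) := hL2
      _ ≤ z := hz1

end Pool.Agent.H76.VKT

end

section

/-!
# VKT: the Vinogradov-Korobov library `Pool.Agent.H97.VK` with parameters

* `vk_exp_t`: exponential sums `∑ (n+β)^{2πit}` over intervals in `[0, K]`, `K ≥ exp((log x)^t0)`, every `t0 ∈ (2/3, 1)`;
* `vk_class_t`: `∑_{n ≤ z, n ≡ u (d)} Λ(n) n^{2πit}`, `z ≥ exp((log x)^t1)`, every `t1 ∈ (2/3, 1)`, `d ≤ (log x)^B`.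
-/

set_option autoImplicit false

namespace Pool.Agent.H76.VKT

open Finset
open Pool.Agent.H91.EHA
open Pool.Agent.H91.PK (ee)

theorem vk_exp_t (t0 : ℝ) (h : 2 / 3 < t0) (h1 : t0 < 1) (A : ℕ) : ∃ x0 : ℕ, ∀ x : ℕ, x0 ≤ x →
    ∀ (K a b : ℕ) (β t : ℝ), Real.exp (Real.log x ^ t0) ≤ K → K ≤ x → b ≤ K → 0 ≤ β → β ≤ 1 →
    1 ≤ |t| → |t| ≤ (x : ℝ) ^ (3 : ℕ) →
    ‖∑ n ∈ Ioc a b, ee (t * Real.log (n + β))‖ ≤ K * (100 / |t| + 1 / Real.log x ^ A) :=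
  @vk_exp ⟨t0, h, h1⟩ A

theorem vk_class_t (t1 : ℝ) (h : 2 / 3 < t1) (h1 : t1 < 1) (K B : ℕ) : ∃ K' x0 : ℕ, ∀ x : ℕ, x0 ≤ x →
    ∀ (d u z : ℕ) (t : ℝ), 1 ≤ d → (d : ℝ) ≤ Real.log x ^ B →
    Real.exp (Real.log x ^ t1) ≤ z → z ≤ x ^ 2 → Real.log x ^ K' ≤ |t| → |t| ≤ (x : ℝ) ^ (2 : ℕ) →
    ‖∑ n ∈ (Icc 1 z).filter (fun n => n % d = u % d), ((Lam n : ℝ) : ℂ) * ee (t * Real.log n)‖ ≤
      z / Real.log x ^ K :=
  @vk_class_w ⟨(2 / 3 + t1) / 2, by linarith, by linarith⟩ t1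
    (show (2 / 3 + t1) / 2 < t1 by linarith) K B

end Pool.Agent.H76.VKT

end
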