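import Pool.Agent.H43.PM.M07

/-! The parts of this file: H43.MP.Defs, H92.EH.TestFun, H88.PSI.Defs, H88.PSI.Dpm, H88.PSI.Mvt, H88.PSI.BoxD, H92.EH3.DivBound, H88.PSI.Pw, H88.PSI.Cov, H87T.Defs, H87T.Kusmin, H87T.VdcTwo, H88.PSI.Ker, H88.PSI.Chi, H88.PSI.Edg, H88.PSI.Dks, H88.PSI.Dls, H88.PSI.Bin. -/

section

/-!
# PROJECT MIDP (MP_967f73_nt): definitions

Prime + `E_2` with `|x| ≤ n^(1/6+ε)` for almost all `n`.  `L = log N`, blocks `blk H i = [iH, (i+1)H)`,
`H = Hn θ N = ⌊N^θ⌋`, `P = Pn θ N = ⌊N^(θ/20)⌋`, `R = Rn B N = ⌊L^B⌋`, `pb P` = the primes of `(P, 2P]`.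

* `FF P m = ∑_{p ∈ pb P, p | m} Λ(m/p)`, `Fs P R m = ∑_{p ∈ pb P, p | m} hR R (m/p)` (`hR = Λ - Λ_R`),
  `omP P m = #{p ∈ pb P : p | m}`;
* `badL`: the blocks where the local Fourier uniformity of `Fs` fails (project MID, helper53);
* `badP`: the blocks where the primes are not equidistributed modulo some `r ≤ L^B` (project PSI, helper88).
-/

set_option autoImplicit false

namespace Pool.Agent.H43.MP

open Finset
open Pool.Agent.H91.PK (ee)
open Pool.Agent.H91.EHA (Lam hR lamR ramS)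
open Pool.Agent.H35.W (pb)

/-- the block `[iH, (i+1)H)` -/
def blk (H i : ℕ) : Finset ℕ := Ico (i * H) ((i + 1) * H)

/-- the length of the blocks -/
noncomputable def Hn (θ : ℝ) (N : ℕ) : ℕ := ⌊(N : ℝ) ^ θ⌋₊

/-- the size of the small prime factor -/
noncomputable def Pn (θ : ℝ) (N : ℕ) : ℕ := ⌊(N : ℝ) ^ (θ / 20)⌋₊

/-- the truncation -/
noncomputable def Rn (B N : ℕ) : ℕ := ⌊Real.log N ^ B⌋₊

/-- the indices of the blocks between `N/2` and `3N` -/
def idx (N H : ℕ) : Finset ℕ := Icc (N / (2 * H)) (3 * N / H)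

/-- the weight of the numbers with a prime factor in `(P, 2P]` and a prime cofactor -/
noncomputable def FF (P m : ℕ) : ℝ := ∑ p ∈ (pb P).filter (fun p => p ∣ m), Lam (m / p)

/-- the error part of `FF` -/
noncomputable def Fs (P R m : ℕ) : ℝ := ∑ p ∈ (pb P).filter (fun p => p ∣ m), hR R (m / p)

/-- the number of prime factors in `(P, 2P]` -/
def omP (P m : ℕ) : ℕ := ((pb P).filter (fun p => p ∣ m)).card

open Classical in
/-- the blocks where the local Fourier uniformity fails -/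
noncomputable def badL (N H P R A : ℕ) : Finset ℕ :=
  (idx N H).filter (fun i => ∃ α : ℝ,
    (H : ℝ) / Real.log N ^ A < ‖∑ m ∈ blk H i, ((Fs P R m : ℝ) : ℂ) * ee (-(α * m))‖)

open Classical in
/-- the blocks where the primes are not equidistributed -/
noncomputable def badP (N H A B : ℕ) : Finset ℕ :=
  (idx N H).filter (fun i => ∃ r a : ℕ, 1 ≤ r ∧ (r : ℝ) ≤ Real.log N ^ B ∧ Nat.Coprime a r ∧
    (H : ℝ) / Real.log N ^ A < ‖∑ m ∈ blk H i, ((Lam m : ℝ) : ℂ) * ee (-((a : ℝ) * m / r))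
      - (((ArithmeticFunction.moebius r : ℝ) / (r.totient : ℝ) * H : ℝ) : ℂ)‖)

/-- the sum of `a` over the elements of the block in the class `b` mod `p` -/
noncomputable def Zc (a : ℕ → ℂ) (H i p b : ℕ) : ℂ :=
  ∑ m ∈ (blk H i).filter (fun m => m ≡ b [MOD p]), a m

/-- `W = ∑_{p ∈ pb P} 1/p` -/
noncomputable def WP (P : ℕ) : ℝ := ∑ p ∈ pb P, 1 / (p : ℝ)

/-- `r(n) = ∑_{m ∈ blk} Λ(m) FF(2n - m)` for `n` in the block `i` -/
noncomputable def rr (P H i n : ℕ) : ℝ := ∑ m ∈ blk H i, Lam m * FF P (2 * n - m)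

/-- the error term of `rr` -/
noncomputable def rs (P R H i n : ℕ) : ℝ := ∑ m ∈ blk H i, Lam m * Fs P R (2 * n - m)

/-- the main term of `rr` -/
noncomputable def rm (P R H i n : ℕ) : ℝ :=
  ∑ m ∈ blk H i, Lam m * (lamR R (2 * n - m) * omP P (2 * n - m))

/-- the solutions: `x` with `|x| ≤ H`, `n - x` prime (in the form `φ(n-x) + 1 = n - x`), `n + x = p q`. -/
def sols (P H n : ℕ) : Set ℤ :=
  {x : ℤ | |x| ≤ H ∧ 0 < (n : ℤ) - x ∧ 0 < (n : ℤ) + x ∧
    ((Nat.totient ((n : ℤ) - x).toNat : ℤ) + 1 = (n : ℤ) - x) ∧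
    ∃ p q : ℕ, p.Prime ∧ q.Prime ∧ P < p ∧ p ≤ 2 * P ∧ (n : ℤ) + x = p * q}

end Pool.Agent.H43.MP

end

section

/-!
The test function inequality for a single modulus.
-/

set_option autoImplicit false

namespace Pool.Agent.H92.EH

open Finset

/-- Parseval for a sum of distinct additive characters. -/
theorem parseval_le {ι : Type*} [DecidableEq ι] (q : ℕ) (hq : 0 < q) (P : Finset ι) (c : ι → ℂ)
    (κ : ι → ℤ) (hκ : ∀ i ∈ P, ∀ j ∈ P, i ≠ j → ¬ (q : ℤ) ∣ κ i - κ j) :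
    ∑ a ∈ range q, ‖∑ i ∈ P, c i * e (κ i * ((a : ℝ) / q))‖ ^ 2 = q * ∑ i ∈ P, ‖c i‖ ^ 2 := by
  have h1 : ((∑ a ∈ range q, ‖∑ i ∈ P, c i * e (κ i * ((a : ℝ) / q))‖ ^ 2 : ℝ) : ℂ)
      = ∑ i ∈ P, ∑ j ∈ P, c i * (starRingEnd ℂ) (c j) *
          ∑ a ∈ range q, e ((κ i - κ j : ℤ) * ((a : ℝ) / q)) := by
    rw [Complex.ofReal_sum]
    have h2 : ∀ a : ℕ, ((‖∑ i ∈ P, c i * e (κ i * ((a : ℝ) / q))‖ ^ 2 : ℝ) : ℂ)
        = ∑ i ∈ P, ∑ j ∈ P, c i * (starRingEnd ℂ) (c j) *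
          e ((κ i - κ j : ℤ) * ((a : ℝ) / q)) := by
      intro a
      push_cast
      rw [← Complex.mul_conj', map_sum, sum_mul_sum]
      refine sum_congr rfl fun i _ => sum_congr rfl fun j _ => ?_
      rw [map_mul]
      have : e (κ i * ((a : ℝ) / q)) * (starRingEnd ℂ) (e (κ j * ((a : ℝ) / q)))
          = e (((κ i : ℝ) - κ j) * ((a : ℝ) / q)) := by
        rw [e_mul_conj]
        congr 1
        ring
      rw [← this]
      ring
    simp_rw [h2]
    rw [sum_comm]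
    refine sum_congr rfl fun i _ => ?_
    rw [sum_comm]
    refine sum_congr rfl fun j _ => ?_
    rw [mul_sum]
  have h3 : ∑ i ∈ P, ∑ j ∈ P, c i * (starRingEnd ℂ) (c j) *
          ∑ a ∈ range q, e ((κ i - κ j : ℤ) * ((a : ℝ) / q))
      = ∑ i ∈ P, (q : ℂ) * (‖c i‖ : ℂ) ^ 2 := by
    refine sum_congr rfl fun i hi => ?_
    rw [sum_eq_single_of_mem i hi]
    · rw [sum_complete q hq, sub_self, if_pos (dvd_zero _), Complex.mul_conj', mul_comm]
    · intro j hj hne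
      rw [sum_complete q hq, if_neg (hκ i hi j hj (Ne.symm hne)), mul_zero]
  have h4 : ((∑ a ∈ range q, ‖∑ i ∈ P, c i * e (κ i * ((a : ℝ) / q))‖ ^ 2 : ℝ) : ℂ)
      = ((q * ∑ i ∈ P, ‖c i‖ ^ 2 : ℝ) : ℂ) := by
    rw [h1, h3]
    push_cast
    rw [mul_sum]
  exact_mod_cast h4

theorem e_mod (q p : ℕ) (hq : 0 < q) (m : ℤ) :
    e (m * (((p % q : ℕ) : ℝ) / q)) = e (m * ((p : ℝ) / q)) := by
  have hq' : (q : ℝ) ≠ 0 := by exact_mod_cast hq.ne'
  obtain ⟨t, ht⟩ : ∃ t : ℕ, p = p % q + q * t := ⟨p / q, (Nat.mod_add_div p q).symm⟩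
  have h1 : (m : ℝ) * ((p : ℝ) / q) = m * (((p % q : ℕ) : ℝ) / q) + ((m * t : ℤ) : ℝ) := by
    have h2 : (p : ℝ) = ((p % q : ℕ) : ℝ) + q * (t : ℝ) := by
      exact_mod_cast ht
    rw [h2]
    push_cast
    field_simp
  rw [h1, e_add_int]

end Pool.Agent.H92.EH

end

section

/-!
# PROJECT PSI (MP_967f73_nt): primes in almost all short intervals, in residue classes

THEOREM (`Hux.lean` / `Blk.lean`): for `X^(1/6+e) ≤ H ≤ X^(1/3)`, `d ≤ (log X)^B`, `(u, d) = 1`,
`∑_{X ≤ x < 2X} |∑_{x < n ≤ x+H, n ≡ u (d)} Λ(n) - H/φ(d)|^2 ≤ X H^2/(log X)^A`.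

`L = log X`; `ee t = exp(2 π i t)` (`Pool.Agent.H91.PK.ee`).

* `W f H x` = sum of `f` over the window `(x, x+H]`, `D f H H1 x` = average over the short window minus
  average over the long window;
* `DP f N t = ∑_{n ≤ N} f(n) n^{2 π i t}`;
* `kf k` for `k = 0, 1, 2` is `1`, `log`, `μ`; `seg k a b` = `kf k` on `[a, b)`, `hi k Y` = `kf k` on `[Y, ∞)`,
  `pc k j = seg k (2^j) (2^(j+1))`, `lot k y w` = `kf k` on `[1, 2^y)` (`k = 0, 1`) or `[1, 2^w)` (`k = 2`);
* `Tp κ y w = ∏ i, lot (κ i) y w` (Dirichlet convolution);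
* `tw χ f n = f(n) χ(n)`, `cl d u f n = f(n)` if `n ≡ u (d)`, `0` otherwise.
-/

set_option autoImplicit false

namespace Pool.Agent.H88.PSI

open Finset MeasureTheory
open Pool.Agent.H91.PK (ee)

/-- the sum of `f` over the window `(x, x + H]` -/
noncomputable def W (f : ℕ → ℂ) (H x : ℕ) : ℂ := ∑ n ∈ Ioc x (x + H), f n

/-- the average over the short window minus the average over the long window -/
noncomputable def D (f : ℕ → ℂ) (H H1 x : ℕ) : ℂ := W f H x / H - W f H1 x / H1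

/-- the Dirichlet polynomial `∑_{n ≤ N} f(n) n^{2 π i t}` -/
noncomputable def DP (f : ℕ → ℂ) (N : ℕ) (t : ℝ) : ℂ :=
  ∑ n ∈ Icc 1 N, f n * ee (t * Real.log n)

/-- the second moment `∑_{n ≤ N} |f(n)|^2` -/
noncomputable def SS (f : ℕ → ℂ) (N : ℕ) : ℝ := ∑ n ∈ Icc 1 N, ‖f n‖ ^ 2

/-- the number of divisors -/
noncomputable def tau (n : ℕ) : ℝ := (n.divisors.card : ℝ)

/-- `1`, `log`, `μ` -/
noncomputable def kf (k : Fin 3) (n : ℕ) : ℝ :=
  if k = 0 then 1 else if k = 1 then Real.log n else ((ArithmeticFunction.moebius n : ℤ) : ℝ)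

/-- `kf k` on `[a, b)` -/
noncomputable def seg (k : Fin 3) (a b : ℕ) : ArithmeticFunction ℝ :=
  ⟨fun n => if n ≠ 0 ∧ a ≤ n ∧ n < b then kf k n else 0, by simp⟩

/-- `kf k` on `[Y, ∞)` -/
noncomputable def hi (k : Fin 3) (Y : ℕ) : ArithmeticFunction ℝ :=
  ⟨fun n => if n ≠ 0 ∧ Y ≤ n then kf k n else 0, by simp⟩

/-- a dyadic piece of `kf k` -/
noncomputable def pc (k : Fin 3) (j : ℕ) : ArithmeticFunction ℝ := seg k (2 ^ j) (2 ^ (j + 1))

/-- the exponent of the upper end of the range of a variable of kind `k` -/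
def top (k : Fin 3) (y w : ℕ) : ℕ := if k = 2 then w else y

/-- the truncated function of kind `k` -/
noncomputable def lot (k : Fin 3) (y w : ℕ) : ArithmeticFunction ℝ := seg k 1 (2 ^ top k y w)

/-- a product of truncated functions -/
noncomputable def Tp {r : ℕ} (κ : Fin r → Fin 3) (y w : ℕ) : ArithmeticFunction ℝ :=
  ∏ i, lot (κ i) y w

/-- a product of dyadic pieces -/
noncomputable def Pp {r : ℕ} (κ : Fin r → Fin 3) (j : Fin r → ℕ) : ArithmeticFunction ℝ :=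
  ∏ i, pc (κ i) (j i)

/-- the kinds of the variables in the second term of the Heath-Brown identity -/
def k4 : Fin 4 → Fin 3 := ![1, 0, 2, 2]

/-- the kinds of the variables in the third term of the Heath-Brown identity -/
def k6 : Fin 6 → Fin 3 := ![1, 0, 0, 2, 2, 2]

/-- the coefficients of type I with a logarithm in the smooth variable -/
noncomputable def cA (w : ℕ) : ArithmeticFunction ℝ :=
  (3 : ℝ) • seg 2 1 (2 ^ w) - (3 : ℝ) • (hi 0 1 * seg 2 1 (2 ^ w) ^ 2)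
    + hi 0 1 ^ 2 * seg 2 1 (2 ^ w) ^ 3

/-- the coefficients of type I without a logarithm in the smooth variable -/
noncomputable def cB (y w : ℕ) : ArithmeticFunction ℝ :=
  seg 1 1 (2 ^ y) * (hi 0 1 + seg 0 1 (2 ^ y)) * seg 2 1 (2 ^ w) ^ 3
    - (3 : ℝ) • (seg 1 1 (2 ^ y) * seg 2 1 (2 ^ w) ^ 2)

/-- the von Mangoldt function -/
noncomputable def La : ArithmeticFunction ℝ := ArithmeticFunction.vonMangoldt

/-- twist by a character -/
noncomputable def tw {d : ℕ} (χ : DirichletCharacter ℂ d) (f : ArithmeticFunction ℝ) :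
    ArithmeticFunction ℂ :=
  ⟨fun n => ((f n : ℝ) : ℂ) * χ (n : ZMod d), by simp⟩

/-- restriction to a residue class -/
noncomputable def cl (d u : ℕ) (f : ArithmeticFunction ℝ) (n : ℕ) : ℂ :=
  if n % d = u % d then ((f n : ℝ) : ℂ) else 0

/-- the number of multiples of `m` in the window in the class `u` modulo `d` -/
noncomputable def cnt (d u H m x : ℕ) : ℝ :=
  (((Ioc x (x + H)).filter (fun n => m ∣ n ∧ n % d = u % d)).card : ℝ)

/-- the error term of `cnt` for `(m, d) = 1` -/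
noncomputable def em (d u H m x : ℕ) : ℝ := cnt d u H m x - H / (m * d)

/-- the kernel `∑_{j ≤ H} ee(j θ)` -/
noncomputable def dk (H : ℕ) (θ : ℝ) : ℂ := ∑ j ∈ Icc 1 H, ee (j * θ)

/-- the main term of type I for the cut `k` -/
noncomputable def Bk (a : ℕ → ℝ) (d k x : ℕ) : ℝ :=
  1 / (d : ℝ) * ∑ m ∈ (Icc 1 (x / k)).filter (fun m => Nat.Coprime m d), a m / m

/-- the difference of the two window averages in the logarithmic variable -/
noncomputable def Gw (f : ℕ → ℂ) (N : ℕ) (hs hl H H1 u : ℝ) : ℂ :=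
  ∑ n ∈ Icc 1 N, f n *
    (((if u < Real.log n ∧ Real.log n ≤ u + hs then 1 / H else 0)
      - (if u < Real.log n ∧ Real.log n ≤ u + hl then 1 / H1 else 0) : ℝ) : ℂ)

end Pool.Agent.H88.PSI

end

section

/-!
# PSI Dpm: multiplicativity of the Dirichlet polynomials and of the twist

`ee (t log (m n)) = ee (t log m) ee (t log n)`, `(f * g)(n) = ∑_{ab = n} f(a) g(b)`; a pair `(a, b)` with
`f a ≠ 0`, `g b ≠ 0` has `1 ≤ a ≤ N`, `1 ≤ b ≤ M`.
-/

set_option autoImplicit false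

namespace Pool.Agent.H88.PSI

open Finset

private theorem Dpm_ee_add (x y : ℝ) : Pool.Agent.H91.PK.ee (x + y) = Pool.Agent.H91.PK.ee x * Pool.Agent.H91.PK.ee y := by
  unfold Pool.Agent.H91.PK.ee
  rw [← Complex.exp_add]
  congr 1
  push_cast
  ring

private theorem Dpm_norm_ee (x : ℝ) : ‖Pool.Agent.H91.PK.ee x‖ = 1 := by
  unfold Pool.Agent.H91.PK.ee
  have h1 : 2 * (Real.pi : ℂ) * (x : ℂ) * Complex.I = ((2 * Real.pi * x : ℝ) : ℂ) * Complex.I := by
    push_cast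
    ring
  rw [h1, Complex.norm_exp_ofReal_mul_I]

private theorem Dpm_supp {f g : ArithmeticFunction ℂ} {N M : ℕ} (hf : ∀ n, f n ≠ 0 → n ≤ N)
    (hg : ∀ n, g n ≠ 0 → n ≤ M) (n : ℕ) (h : (f * g) n ≠ 0) : n ≤ N * M := by
  rw [ArithmeticFunction.mul_apply] at h
  obtain ⟨p, hp, hne⟩ := Finset.exists_ne_zero_of_sum_ne_zero h
  rw [Nat.mem_divisorsAntidiagonal] at hp
  rw [← hp.1]
  exact Nat.mul_le_mul (hf _ (left_ne_zero_of_mul hne)) (hg _ (right_ne_zero_of_mul hne))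

theorem dp_mul (f g : ArithmeticFunction ℂ) (N M : ℕ) (hf : ∀ n, f n ≠ 0 → n ≤ N)
    (hg : ∀ n, g n ≠ 0 → n ≤ M) (t : ℝ) :
    DP (⇑(f * g)) (N * M) t = DP f N t * DP g M t := by
  classical
  unfold DP
  rw [Finset.sum_mul_sum, ← Finset.sum_product']
  rw [← Finset.sum_fiberwise_of_maps_to (s := Icc 1 N ×ˢ Icc 1 M) (t := Icc 1 (N * M))
    (g := fun p => p.1 * p.2)]
  · refine Finset.sum_congr rfl fun n hn => ?_
    rw [Finset.mem_Icc] at hn
    rw [ArithmeticFunction.mul_apply, Finset.sum_mul]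
    symm
    refine (Finset.sum_subset (fun p hp => ?_) fun p hp hp' => ?_).trans
      (Finset.sum_congr rfl fun p hp => ?_)
    · rw [Finset.mem_filter, Finset.mem_product, Finset.mem_Icc, Finset.mem_Icc] at hp
      rw [Nat.mem_divisorsAntidiagonal]
      exact ⟨hp.2, by omega⟩
    · rw [Nat.mem_divisorsAntidiagonal] at hp
      rw [Finset.mem_filter, Finset.mem_product, Finset.mem_Icc, Finset.mem_Icc] at hp'
      have h1 : 1 ≤ p.1 := by
        rcases Nat.eq_zero_or_pos p.1 with h | h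
        · rw [h, zero_mul] at hp
          omega
        · exact h
      have h2 : 1 ≤ p.2 := by
        rcases Nat.eq_zero_or_pos p.2 with h | h
        · rw [h, mul_zero] at hp
          omega
        · exact h
      by_cases h3 : f p.1 = 0
      · rw [h3]
        ring
      · by_cases h4 : g p.2 = 0
        · rw [h4]
          ring
        · exact absurd ⟨⟨⟨h1, hf _ h3⟩, ⟨h2, hg _ h4⟩⟩, hp.1⟩ hp'
    · rw [Nat.mem_divisorsAntidiagonal] at hp
      have h1 : p.1 ≠ 0 := by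
        intro h
        rw [h, zero_mul] at hp
        omega
      have h2 : p.2 ≠ 0 := by
        intro h
        rw [h, mul_zero] at hp
        omega
      rw [← hp.1, Nat.cast_mul, Real.log_mul (by exact_mod_cast h1) (by exact_mod_cast h2),
        mul_add, Dpm_ee_add]
      ring
  · intro p hp
    rw [Finset.mem_product, Finset.mem_Icc, Finset.mem_Icc] at hp
    rw [Finset.mem_Icc]
    exact ⟨Nat.mul_pos hp.1.1 hp.2.1, Nat.mul_le_mul hp.1.2 hp.2.2⟩

private theorem Dpm_one (t : ℝ) : DP (⇑(1 : ArithmeticFunction ℂ)) 1 t = 1 := by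
  unfold DP
  have h1 : Pool.Agent.H91.PK.ee 0 = 1 := by
    unfold Pool.Agent.H91.PK.ee
    simp
  simp [h1]

private theorem Dpm_pow_supp (f : ArithmeticFunction ℂ) (N k : ℕ) (hf : ∀ n, f n ≠ 0 → n ≤ N) :
    ∀ n, (f ^ k) n ≠ 0 → n ≤ N ^ k := by
  induction k with
  | zero =>
    intro n hn
    rw [pow_zero] at hn ⊢
    by_contra hcon
    exact hn (ArithmeticFunction.one_apply_ne (by omega))
  | succ k ih =>
    intro n hn
    rw [pow_succ] at hn ⊢
    exact Dpm_supp ih hf n hn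

theorem dp_pow (f : ArithmeticFunction ℂ) (N k : ℕ) (hf : ∀ n, f n ≠ 0 → n ≤ N) (t : ℝ) :
    DP (⇑(f ^ k)) (N ^ k) t = DP f N t ^ k := by
  induction k with
  | zero => simpa using Dpm_one t
  | succ k ih =>
    rw [pow_succ, pow_succ, dp_mul _ _ _ _ (Dpm_pow_supp f N k hf) hf, ih, pow_succ]

private theorem Dpm_prod_supp {ι : Type*} [DecidableEq ι] (s : Finset ι)
    (f : ι → ArithmeticFunction ℂ) (N : ι → ℕ) (hf : ∀ i ∈ s, ∀ n, f i n ≠ 0 → n ≤ N i) :
    ∀ n, (∏ i ∈ s, f i) n ≠ 0 → n ≤ ∏ i ∈ s, N i := by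
  induction s using Finset.induction_on with
  | empty =>
    intro n hn
    rw [Finset.prod_empty] at hn ⊢
    by_contra hcon
    exact hn (ArithmeticFunction.one_apply_ne (by omega))
  | insert a s ha ih =>
    intro n hn
    rw [Finset.prod_insert ha] at hn ⊢
    exact Dpm_supp (hf a (Finset.mem_insert_self a s))
      (ih fun i hi => hf i (Finset.mem_insert_of_mem hi)) n hn

theorem dp_prod {ι : Type*} [DecidableEq ι] (s : Finset ι) (f : ι → ArithmeticFunction ℂ) (N : ι → ℕ)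
    (hf : ∀ i ∈ s, ∀ n, f i n ≠ 0 → n ≤ N i) (t : ℝ) :
    DP (⇑(∏ i ∈ s, f i)) (∏ i ∈ s, N i) t = ∏ i ∈ s, DP (f i) (N i) t := by
  induction s using Finset.induction_on with
  | empty => simpa using Dpm_one t
  | insert a s ha ih =>
    have h1 : ∀ i ∈ s, ∀ n, f i n ≠ 0 → n ≤ N i := fun i hi => hf i (Finset.mem_insert_of_mem hi)
    rw [Finset.prod_insert ha, Finset.prod_insert ha, Finset.prod_insert ha,
      dp_mul _ _ _ _ (hf a (Finset.mem_insert_self a s)) (Dpm_prod_supp s f N h1), ih h1]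

theorem dp_cont (f : ℕ → ℂ) (N : ℕ) : Continuous (DP f N) := by
  have h1 : DP f N = fun t => ∑ n ∈ Icc 1 N, f n * Pool.Agent.H91.PK.ee (t * Real.log n) := rfl
  rw [h1]
  refine continuous_finsetSum _ fun n _ => continuous_const.mul ?_
  unfold Pool.Agent.H91.PK.ee
  fun_prop

theorem dp_norm_le (f : ℕ → ℂ) (N : ℕ) (t : ℝ) : ‖DP f N t‖ ≤ ∑ n ∈ Icc 1 N, ‖f n‖ := by
  unfold DP
  refine (norm_sum_le _ _).trans (Finset.sum_le_sum fun n _ => ?_)
  rw [norm_mul, Dpm_norm_ee, mul_one]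

theorem tw_mul {d : ℕ} (χ : DirichletCharacter ℂ d) (f g : ArithmeticFunction ℝ) :
    tw χ (f * g) = tw χ f * tw χ g := by
  ext n
  rw [ArithmeticFunction.mul_apply]
  have h1 : tw χ (f * g) n = (((f * g) n : ℝ) : ℂ) * χ (n : ZMod d) := rfl
  rw [h1, ArithmeticFunction.mul_apply]
  push_cast
  rw [Finset.sum_mul]
  refine Finset.sum_congr rfl fun p hp => ?_
  rw [Nat.mem_divisorsAntidiagonal] at hp
  have h2 : tw χ f p.1 = ((f p.1 : ℝ) : ℂ) * χ (p.1 : ZMod d) := rfl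
  have h3 : tw χ g p.2 = ((g p.2 : ℝ) : ℂ) * χ (p.2 : ZMod d) := rfl
  rw [h2, h3, ← hp.1, Nat.cast_mul, map_mul]
  ring

theorem tw_prod {d : ℕ} (χ : DirichletCharacter ℂ d) {ι : Type*} [DecidableEq ι] (s : Finset ι)
    (f : ι → ArithmeticFunction ℝ) (hd : d ≠ 0) : tw χ (∏ i ∈ s, f i) = ∏ i ∈ s, tw χ (f i) := by
  induction s using Finset.induction_on with
  | empty =>
    rw [Finset.prod_empty, Finset.prod_empty]
    ext n
    have h1 : tw χ 1 n = ((((1 : ArithmeticFunction ℝ) n : ℝ)) : ℂ) * χ (n : ZMod d) := rfl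
    rw [h1]
    by_cases h2 : n = 1
    · subst h2
      simp
    · rw [ArithmeticFunction.one_apply_ne h2, ArithmeticFunction.one_apply_ne h2]
      simp
  | insert a s ha ih => rw [Finset.prod_insert ha, Finset.prod_insert ha, tw_mul, ih]

end Pool.Agent.H88.PSI

end

section

/-!
# PSI Mvt: mean value theorem

From `Pool.Agent.H35.W.mean_v` (`Pool/Agent/H35/W/MeanV.lean`) with `a m = √m b m` and the substitution `t ↦ 2 π t`.
`tail_int`: dyadic pieces `2^j T ≤ |t| ≤ 2^(j+1) T` (or monotone convergence): `∑_j (2^j T)^(-2) (2^(j+2) T + 4 M (1+log M)) S`.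
-/

set_option autoImplicit false

namespace Pool.Agent.H88.PSI

open Finset MeasureTheory

private theorem Mvt_pt (b : ℕ → ℂ) (M : ℕ) (t : ℝ) :
    ∑ m ∈ Icc 1 M, (((Real.sqrt m : ℝ) : ℂ) * b m) *
      (m : ℂ) ^ (-(1 / 2 : ℂ) + ((2 * Real.pi * t : ℝ) : ℂ) * Complex.I) = DP b M t := by
  unfold DP
  refine Finset.sum_congr rfl fun m hm => ?_
  have hm' := Finset.mem_Icc.1 hm
  have hm0 : (m : ℂ) ≠ 0 := by exact_mod_cast (show m ≠ 0 by omega)
  have hmr : (0 : ℝ) < m := by exact_mod_cast (show 0 < m by omega)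
  rw [Complex.cpow_add _ _ hm0]
  have e1 : (m : ℂ) ^ (-(1 / 2 : ℂ)) = (((m : ℝ) ^ (-(1 / 2) : ℝ) : ℝ) : ℂ) := by
    rw [Complex.ofReal_cpow hmr.le]
    push_cast
    rfl
  have e2 : ((Real.sqrt m : ℝ) : ℂ) * (m : ℂ) ^ (-(1 / 2 : ℂ)) = 1 := by
    rw [e1, ← Complex.ofReal_mul, Real.sqrt_eq_rpow, ← Real.rpow_add hmr]
    norm_num
  have e3 : (m : ℂ) ^ (((2 * Real.pi * t : ℝ) : ℂ) * Complex.I) =
      Pool.Agent.H91.PK.ee (t * Real.log m) := by
    unfold Pool.Agent.H91.PK.ee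
    rw [Complex.cpow_def_of_ne_zero hm0, ← Complex.natCast_log]
    congr 1
    push_cast
    ring
  rw [e3]
  calc ((Real.sqrt m : ℝ) : ℂ) * b m * ((m : ℂ) ^ (-(1 / 2 : ℂ)) *
        Pool.Agent.H91.PK.ee (t * Real.log m)) =
        (((Real.sqrt m : ℝ) : ℂ) * (m : ℂ) ^ (-(1 / 2 : ℂ))) *
          (b m * Pool.Agent.H91.PK.ee (t * Real.log m)) := by ring
    _ = _ := by rw [e2, one_mul]

private theorem Mvt_SS_nonneg (b : ℕ → ℂ) (M : ℕ) : 0 ≤ SS b M :=
  Finset.sum_nonneg fun _ _ => sq_nonneg _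

private theorem Mvt_log (M : ℕ) : 0 ≤ 1 + Real.log M := by
  have := Real.log_natCast_nonneg M
  linarith

theorem mvt (b : ℕ → ℂ) (M : ℕ) (T : ℝ) (hM : 1 ≤ M) (hT : 0 ≤ T) :
    ∫ t in Set.Icc (-T) T, ‖DP b M t‖ ^ 2 ≤ (2 * T + 4 * M * (1 + Real.log M)) * SS b M := by
  have hpi := Real.pi_pos
  have h := Pool.Agent.H35.W.mean_v (fun m => ((Real.sqrt m : ℝ) : ℂ) * b m) M
    (2 * Real.pi * T) hM (by positivity)
  have e1 : ∑ m ∈ Icc 1 M, ‖(fun m : ℕ => ((Real.sqrt m : ℝ) : ℂ) * b m) m‖ ^ 2 / m = SS b M := by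
    unfold SS
    refine Finset.sum_congr rfl fun m hm => ?_
    have hm' := Finset.mem_Icc.1 hm
    have hmr : (0 : ℝ) < m := by exact_mod_cast (show 0 < m by omega)
    show ‖((Real.sqrt m : ℝ) : ℂ) * b m‖ ^ 2 / m = _
    rw [norm_mul, Complex.norm_real, Real.norm_of_nonneg (Real.sqrt_nonneg _), mul_pow,
      Real.sq_sqrt hmr.le]
    field_simp
  rw [e1] at h
  rw [integral_Icc_eq_integral_Ioc, ← intervalIntegral.integral_of_le (by linarith : -T ≤ T)]
  have e2 : ∫ t in (-T)..T, ‖DP b M t‖ ^ 2 = (2 * Real.pi)⁻¹ • ∫ u in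
      (2 * Real.pi * -T)..(2 * Real.pi * T), ‖∑ m ∈ Icc 1 M, (((Real.sqrt m : ℝ) : ℂ) * b m) *
      (m : ℂ) ^ (-(1 / 2 : ℂ) + (u : ℂ) * Complex.I)‖ ^ 2 := by
    rw [← intervalIntegral.integral_comp_mul_left (fun u : ℝ => ‖∑ m ∈ Icc 1 M,
      (((Real.sqrt m : ℝ) : ℂ) * b m) * (m : ℂ) ^ (-(1 / 2 : ℂ) + (u : ℂ) * Complex.I)‖ ^ 2)
      (by positivity : 2 * Real.pi ≠ 0)]
    refine intervalIntegral.integral_congr fun t _ => ?_
    show ‖DP b M t‖ ^ 2 = _
    rw [← Mvt_pt b M t]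
  rw [e2, smul_eq_mul, show 2 * Real.pi * -T = -(2 * Real.pi * T) by ring]
  have h2 := mul_le_mul_of_nonneg_left h (by positivity : 0 ≤ (2 * Real.pi)⁻¹)
  refine h2.trans ?_
  rw [← mul_assoc]
  refine mul_le_mul_of_nonneg_right ?_ (Mvt_SS_nonneg b M)
  have h3 : (2 * Real.pi)⁻¹ * (2 * (2 * Real.pi * T) + 4 * M * (1 + Real.log M)) =
      2 * T + (2 * Real.pi)⁻¹ * (4 * M * (1 + Real.log M)) := by
    field_simp
  rw [h3]
  have h4 : (2 * Real.pi)⁻¹ ≤ 1 := by
    have := Real.pi_gt_three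
    exact inv_le_one_of_one_le₀ (by linarith)
  have h5 : 0 ≤ 4 * M * (1 + Real.log M) := mul_nonneg (by positivity) (Mvt_log M)
  have h6 := mul_le_mul_of_nonneg_right h4 h5
  linarith

/-- the dyadic pieces -/
private def Mvt_S (T : ℝ) (j : ℕ) : Set ℝ := {t | T < |t| ∧ 2 ^ j * T ≤ |t| ∧ |t| < 2 ^ (j + 1) * T}

private theorem Mvt_meas (T : ℝ) (j : ℕ) : MeasurableSet (Mvt_S T j) := by
  unfold Mvt_S
  have h : Measurable fun t : ℝ => |t| := continuous_abs.measurable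
  exact (measurableSet_lt measurable_const h).inter
    ((measurableSet_le measurable_const h).inter (measurableSet_lt h measurable_const))

private theorem Mvt_union {T : ℝ} (hT : 1 ≤ T) : ⋃ j, Mvt_S T j = {t : ℝ | T < |t|} := by
  have hT0 : 0 < T := by linarith
  ext t
  rw [Set.mem_iUnion]
  constructor
  · rintro ⟨j, h, -, -⟩
    exact h
  · intro h
    have h' : T < |t| := h
    obtain ⟨j, h1, h2⟩ := exists_nat_pow_near (x := |t| / T) (y := (2 : ℝ))
      (by rw [le_div_iff₀ hT0]; linarith) (by norm_num)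
    rw [le_div_iff₀ hT0] at h1
    rw [div_lt_iff₀ hT0] at h2
    exact ⟨j, h', h1, h2⟩

private theorem Mvt_disj {T : ℝ} (hT : 1 ≤ T) : Pairwise (Function.onFun Disjoint (Mvt_S T)) := by
  have key : ∀ i j : ℕ, i < j → Disjoint (Mvt_S T i) (Mvt_S T j) := by
    intro i j hij
    rw [Set.disjoint_left]
    rintro t ⟨-, -, h1⟩ ⟨-, h2, -⟩
    have h3 : (2 : ℝ) ^ (i + 1) ≤ 2 ^ j := pow_le_pow_right₀ (by norm_num) hij
    have h4 := mul_le_mul_of_nonneg_right h3 (by linarith : 0 ≤ T)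
    linarith
  intro i j hij
  rcases lt_or_gt_of_ne hij with h | h
  · exact key i j h
  · exact (key j i h).symm

private theorem Mvt_sub {T : ℝ} (j : ℕ) :
    Mvt_S T j ⊆ Set.Icc (-(2 ^ (j + 1) * T)) (2 ^ (j + 1) * T) := by
  rintro t ⟨-, -, h⟩
  exact ⟨(abs_lt.1 h).1.le, (abs_lt.1 h).2.le⟩

private theorem Mvt_int (b : ℕ → ℂ) (M : ℕ) {T : ℝ} (hT : 1 ≤ T) (j : ℕ) :
    IntegrableOn (fun t => ‖DP b M t‖ ^ 2 / t ^ 2) (Mvt_S T j) := by
  have hms : Measurable (fun t => ‖DP b M t‖ ^ 2 / t ^ 2) :=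
    (((dp_cont b M).norm.pow 2).measurable).div (measurable_id.pow_const 2)
  refine Measure.integrableOn_of_bounded (M := (∑ n ∈ Icc 1 M, ‖b n‖) ^ 2) ?_
    hms.aestronglyMeasurable ?_
  · refine ((measure_mono (Mvt_sub j)).trans_lt ?_).ne
    rw [Real.volume_Icc]
    exact ENNReal.ofReal_lt_top
  · refine (ae_restrict_iff' (Mvt_meas T j)).2 (Filter.Eventually.of_forall fun t ht => ?_)
    have h1 : 1 ≤ |t| := hT.trans ht.1.le
    have h2 : 1 ≤ t ^ 2 := by
      rw [← sq_abs]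
      nlinarith
    rw [Real.norm_of_nonneg (by positivity)]
    refine (div_le_self (sq_nonneg _) h2).trans ?_
    exact pow_le_pow_left₀ (norm_nonneg _) (dp_norm_le b M t) 2

private theorem Mvt_piece (b : ℕ → ℂ) (M : ℕ) {T : ℝ} (hM : 1 ≤ M) (hT : 1 ≤ T) (j : ℕ) :
    ∫ t in Mvt_S T j, ‖DP b M t‖ ^ 2 / t ^ 2 ≤
      (4 / T * (1 / 2) ^ j + 4 * M * (1 + Real.log M) / T ^ 2 * (1 / 4) ^ j) * SS b M := by
  have hT0 : 0 < T := by linarith
  have hj : (0 : ℝ) < 2 ^ j := by positivity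
  have hcont : Continuous fun t => ‖DP b M t‖ ^ 2 := (dp_cont b M).norm.pow 2
  have hI : IntegrableOn (fun t => ‖DP b M t‖ ^ 2)
      (Set.Icc (-(2 ^ (j + 1) * T)) (2 ^ (j + 1) * T)) := hcont.integrableOn_Icc
  have h1 : ∫ t in Mvt_S T j, ‖DP b M t‖ ^ 2 / t ^ 2 ≤
      ∫ t in Mvt_S T j, ‖DP b M t‖ ^ 2 * (1 / (2 ^ j * T) ^ 2) := by
    refine setIntegral_mono_on (Mvt_int b M hT j) ((hI.mono_set (Mvt_sub j)).mul_const _)
      (Mvt_meas T j) fun t ht => ?_
    rw [div_eq_mul_one_div]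
    refine mul_le_mul_of_nonneg_left ?_ (sq_nonneg _)
    refine one_div_le_one_div_of_le (by positivity) ?_
    rw [← sq_abs t]
    exact pow_le_pow_left₀ (by positivity) ht.2.1 2
  have h2 : ∫ t in Mvt_S T j, ‖DP b M t‖ ^ 2 * (1 / (2 ^ j * T) ^ 2) =
      (∫ t in Mvt_S T j, ‖DP b M t‖ ^ 2) * (1 / (2 ^ j * T) ^ 2) := integral_mul_const _ _
  have h3 : ∫ t in Mvt_S T j, ‖DP b M t‖ ^ 2 ≤
      ∫ t in Set.Icc (-(2 ^ (j + 1) * T)) (2 ^ (j + 1) * T), ‖DP b M t‖ ^ 2 :=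
    setIntegral_mono_set hI (Filter.Eventually.of_forall fun _ => sq_nonneg _)
      (Mvt_sub j).eventuallyLE
  have h4 := mvt b M (2 ^ (j + 1) * T) hM (by positivity)
  rw [h2] at h1
  refine h1.trans ((mul_le_mul_of_nonneg_right (h3.trans h4) (by positivity)).trans (le_of_eq ?_))
  have e1 : (1 / 2 : ℝ) ^ j = 1 / 2 ^ j := by rw [one_div_pow]
  have e2 : (1 / 4 : ℝ) ^ j = 1 / (2 ^ j * 2 ^ j) := by
    rw [one_div_pow, ← mul_pow]
    norm_num
  rw [e1, e2, pow_succ]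
  field_simp
  ring

theorem tail_int (b : ℕ → ℂ) (M : ℕ) (T : ℝ) (hM : 1 ≤ M) (hT : 1 ≤ T) :
    IntegrableOn (fun t => ‖DP b M t‖ ^ 2 / t ^ 2) {t : ℝ | T < |t|} ∧
      ∫ t in {t : ℝ | T < |t|}, ‖DP b M t‖ ^ 2 / t ^ 2
        ≤ 100 * (1 / T + M * (1 + Real.log M) / T ^ 2) * SS b M := by
  have hT0 : 0 < T := by linarith
  have hK : 0 ≤ 4 * (M : ℝ) * (1 + Real.log M) := mul_nonneg (by positivity) (Mvt_log M)
  have hS := Mvt_SS_nonneg b M
  have hg2 : HasSum (fun j : ℕ => (1 / 2 : ℝ) ^ j) 2 := hasSum_geometric_two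
  have hg4 : HasSum (fun j : ℕ => (1 / 4 : ℝ) ^ j) (4 / 3) := by
    have h := hasSum_geometric_of_lt_one (r := (1 / 4 : ℝ)) (by norm_num) (by norm_num)
    have e : (1 - (1 / 4 : ℝ))⁻¹ = 4 / 3 := by norm_num
    rwa [e] at h
  have hsum := ((hg2.mul_left (4 / T)).add
    (hg4.mul_left (4 * M * (1 + Real.log M) / T ^ 2))).mul_right (SS b M)
  have hnn : ∀ j, 0 ≤ ∫ t in Mvt_S T j, ‖DP b M t‖ ^ 2 / t ^ 2 := fun j =>
    setIntegral_nonneg (Mvt_meas T j) fun t _ => by positivity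
  have hint : IntegrableOn (fun t => ‖DP b M t‖ ^ 2 / t ^ 2) (⋃ j, Mvt_S T j) := by
    refine integrableOn_iUnion_of_summable_integral_norm (Mvt_int b M hT) ?_
    have e : (fun j => ∫ t in Mvt_S T j, ‖‖DP b M t‖ ^ 2 / t ^ 2‖) =
        fun j => ∫ t in Mvt_S T j, ‖DP b M t‖ ^ 2 / t ^ 2 := by
      funext j
      refine setIntegral_congr_fun (Mvt_meas T j) fun t _ => ?_
      exact Real.norm_of_nonneg (by positivity)
    rw [e]
    exact Summable.of_nonneg_of_le hnn (Mvt_piece b M hM hT) hsum.summable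
  have h1 := hasSum_integral_iUnion (Mvt_meas T) (Mvt_disj hT) hint
  rw [Mvt_union hT] at hint h1
  refine ⟨hint, ?_⟩
  refine (hasSum_le (Mvt_piece b M hM hT) h1 hsum).trans ?_
  refine mul_le_mul_of_nonneg_right ?_ hS
  have h2 : 0 ≤ (M : ℝ) * (1 + Real.log M) / T ^ 2 :=
    div_nonneg (mul_nonneg (by positivity) (Mvt_log M)) (by positivity)
  have h3 : 0 ≤ 1 / T := by positivity
  have h4 : 4 / T * 2 = 8 * (1 / T) := by ring
  have h5 : 4 * (M : ℝ) * (1 + Real.log M) / T ^ 2 * (4 / 3) =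
      16 / 3 * (M * (1 + Real.log M) / T ^ 2) := by ring
  rw [h4, h5]
  linarith

end Pool.Agent.H88.PSI

end

section

/-!
# PSI BoxD: boxes of factors (definition) and trivial bounds
-/

set_option autoImplicit false

namespace Pool.Agent.H88.PSI

open Finset MeasureTheory

/-- `r ≤ 6` factors `g i` supported on `[N i, 2 N i)`, bounded by `2 log X`, `N i ≤ X^(11/24)`, `∏ N i ≤ 3 X` -/
structure Box (X : ℕ) {r : ℕ} (N : Fin r → ℕ) (g : Fin r → ArithmeticFunction ℂ) : Prop where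
  hr : r ≤ 6
  one : ∀ i, 1 ≤ N i
  top : ∀ i, (N i : ℝ) ≤ (X : ℝ) ^ (11 / 24 : ℝ)
  prod : ∏ i, N i ≤ 3 * X
  supp : ∀ i n, g i n ≠ 0 → N i ≤ n ∧ n < 2 * N i
  bd : ∀ i n, ‖g i n‖ ≤ 2 * Real.log X

/-- the absolute value of the Dirichlet polynomial of the box -/
noncomputable def FF {r : ℕ} (N : Fin r → ℕ) (g : Fin r → ArithmeticFunction ℂ) (t : ℝ) : ℝ :=
  ∏ i, ‖DP (g i) (2 * N i) t‖

theorem ff_cont {r : ℕ} (N : Fin r → ℕ) (g : Fin r → ArithmeticFunction ℂ) :
    Continuous (FF N g) := by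
  unfold FF
  exact continuous_finsetProd _ fun i _ => (dp_cont _ _).norm

theorem ff_nonneg {r : ℕ} (N : Fin r → ℕ) (g : Fin r → ArithmeticFunction ℂ) (t : ℝ) :
    0 ≤ FF N g t := by
  unfold FF
  exact Finset.prod_nonneg fun i _ => norm_nonneg _

/-- the trivial bound for one factor -/
theorem box_tr {X r : ℕ} {N : Fin r → ℕ} {g : Fin r → ArithmeticFunction ℂ} (h : Box X N g)
    (i : Fin r) (t : ℝ) : ‖DP (g i) (2 * N i) t‖ ≤ 2 * Real.log X * N i := by
  have hL : 0 ≤ 2 * Real.log X := (norm_nonneg _).trans (h.bd i 1)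
  refine (dp_norm_le _ _ t).trans ?_
  have h1 : ∑ n ∈ Icc 1 (2 * N i), ‖g i n‖ = ∑ n ∈ Ico (N i) (2 * N i), ‖g i n‖ := by
    symm
    apply sum_subset
    · intro n hn
      have h2 := mem_Ico.mp hn
      have h3 := h.one i
      exact mem_Icc.mpr ⟨by omega, by omega⟩
    · intro n _ hn
      by_contra h0
      have h4 : g i n ≠ 0 := fun h5 => h0 (by rw [h5, norm_zero])
      exact hn (mem_Ico.mpr (h.supp i n h4))
  rw [h1]
  calc ∑ n ∈ Ico (N i) (2 * N i), ‖g i n‖ ≤ ∑ n ∈ Ico (N i) (2 * N i), 2 * Real.log X :=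
        sum_le_sum fun n _ => h.bd i n
    _ = 2 * Real.log X * N i := by
        rw [sum_const, Nat.card_Ico, nsmul_eq_mul, mul_comm]
        congr 1
        have : 2 * N i - N i = N i := by omega
        rw [this]

end Pool.Agent.H88.PSI

end

section

/-!
The divisor bound.
-/

set_option autoImplicit false

namespace Pool.Agent.H92.EH

open Finset

theorem div_bound (ε : ℝ) (hε : 0 < ε) : ∃ C : ℝ, 1 ≤ C ∧ ∀ n : ℕ, 1 ≤ n →
    (n.divisors.card : ℝ) ≤ C * (n : ℝ) ^ ε := by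
  have hlog2 : 0 < Real.log 2 := Real.log_pos (by norm_num)
  set K : ℝ := 1 + 1 / (ε * Real.log 2) with hK
  have hK1 : 1 ≤ K := by
    rw [hK]
    have : 0 < 1 / (ε * Real.log 2) := by positivity
    linarith
  set P0 : ℕ := ⌈(2 : ℝ) ^ (1 / ε)⌉₊ with hP0
  refine ⟨K ^ P0, one_le_pow₀ hK1, ?_⟩
  intro n hn
  have hn0 : n ≠ 0 := by omega
  have hfac : ∀ p ∈ n.primeFactors, ((n.factorization p + 1 : ℕ) : ℝ) ≤
      (if p < P0 then K else 1) * ((p : ℝ) ^ (n.factorization p)) ^ ε := by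
    intro p hp
    have hpp := Nat.prime_of_mem_primeFactors hp
    have hp2 : (2 : ℝ) ≤ p := by exact_mod_cast hpp.two_le
    set v := n.factorization p with hv
    have e1 : ((p : ℝ) ^ v) ^ ε = ((p : ℝ) ^ ε) ^ v := by
      rw [← Real.rpow_natCast, ← Real.rpow_mul (by linarith), mul_comm, Real.rpow_mul (by linarith),
        Real.rpow_natCast]
    rw [e1]
    split_ifs with h
    · have h1 : ((2 : ℝ) ^ ε) ^ v ≤ ((p : ℝ) ^ ε) ^ v :=
        pow_le_pow_left₀ (by positivity) (Real.rpow_le_rpow (by norm_num) hp2 hε.le) v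
      have h2 : 1 + (v : ℝ) * (ε * Real.log 2) ≤ ((2 : ℝ) ^ ε) ^ v := by
        have h3 : 1 + ε * Real.log 2 ≤ (2 : ℝ) ^ ε := by
          rw [Real.rpow_def_of_pos (by norm_num)]
          have := Real.add_one_le_exp (Real.log 2 * ε)
          linarith
        have h4 : 1 + (v : ℝ) * (ε * Real.log 2) ≤ (1 + ε * Real.log 2) ^ v :=
          one_add_mul_le_pow (by nlinarith [mul_pos hε hlog2]) v
        refine h4.trans ?_
        exact pow_le_pow_left₀ (by positivity) h3 v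
      have h5 : ((v + 1 : ℕ) : ℝ) ≤ K * (1 + (v : ℝ) * (ε * Real.log 2)) := by
        have h6 : K * (1 + (v : ℝ) * (ε * Real.log 2))
            = 1 + v + 1 / (ε * Real.log 2) + (v : ℝ) * (ε * Real.log 2) := by
          rw [hK]
          field_simp
          ring
        rw [h6]
        push_cast
        have h7 : 0 < 1 / (ε * Real.log 2) := by positivity
        have h8 : 0 ≤ (v : ℝ) * (ε * Real.log 2) := by positivity
        linarith
      calc ((v + 1 : ℕ) : ℝ) ≤ K * (1 + (v : ℝ) * (ε * Real.log 2)) := h5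
        _ ≤ K * ((p : ℝ) ^ ε) ^ v := mul_le_mul_of_nonneg_left (h2.trans h1) (by linarith)
    · push Not at h
      have h1 : (2 : ℝ) ^ (1 / ε) ≤ p := by
        refine (Nat.le_ceil _).trans ?_
        exact_mod_cast h
      have h2 : (2 : ℝ) ≤ (p : ℝ) ^ ε := by
        calc (2 : ℝ) = ((2 : ℝ) ^ (1 / ε)) ^ ε := by
              rw [← Real.rpow_mul (by norm_num), one_div, inv_mul_cancel₀ hε.ne', Real.rpow_one]
          _ ≤ (p : ℝ) ^ ε := Real.rpow_le_rpow (by positivity) h1 hε.le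
      have h3 : ((v + 1 : ℕ) : ℝ) ≤ (2 : ℝ) ^ v := by
        have : v + 1 ≤ 2 ^ v := Nat.lt_two_pow_self
        exact_mod_cast this
      rw [one_mul]
      exact h3.trans (pow_le_pow_left₀ (by norm_num) h2 v)
  have hcard : (n.divisors.card : ℝ) = ∏ p ∈ n.primeFactors, ((n.factorization p + 1 : ℕ) : ℝ) := by
    rw [Nat.card_divisors hn0]
    push_cast
    rfl
  have hprod : (n : ℝ) ^ ε = ∏ p ∈ n.primeFactors, ((p : ℝ) ^ (n.factorization p)) ^ ε := by
    have h1 : (n : ℝ) = ∏ p ∈ n.primeFactors, ((p : ℝ) ^ (n.factorization p)) := by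
      have h2 := Nat.factorization_prod_pow_eq_self hn0
      conv_lhs => rw [← h2]
      rw [Finsupp.prod, Nat.support_factorization]
      push_cast
      rfl
    conv_lhs => rw [h1]
    rw [Real.finset_prod_rpow _ _ (fun p _ => by positivity)]
  rw [hcard, hprod]
  calc ∏ p ∈ n.primeFactors, ((n.factorization p + 1 : ℕ) : ℝ)
      ≤ ∏ p ∈ n.primeFactors, (if p < P0 then K else 1) * ((p : ℝ) ^ (n.factorization p)) ^ ε :=
        prod_le_prod (fun p _ => by positivity) hfac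
    _ = (∏ p ∈ n.primeFactors, (if p < P0 then K else 1))
          * ∏ p ∈ n.primeFactors, ((p : ℝ) ^ (n.factorization p)) ^ ε := prod_mul_distrib
    _ ≤ K ^ P0 * ∏ p ∈ n.primeFactors, ((p : ℝ) ^ (n.factorization p)) ^ ε := by
        apply mul_le_mul_of_nonneg_right _ (prod_nonneg fun p _ => by positivity)
        rw [← prod_filter, prod_const]
        apply pow_le_pow_right₀ hK1
        calc (n.primeFactors.filter (fun p => p < P0)).card ≤ (range P0).card := by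
              apply card_le_card
              intro p hp
              exact mem_range.mpr (mem_filter.mp hp).2
          _ = P0 := card_range P0

end Pool.Agent.H92.EH

end

section

/-!
# PSI Pw: pointwise bounds, supports, divisor bounds

`|(f * g)(n)| ≤ ∑_{d ∣ n} |f(d)| |g(n/d)|` and `tau d ≤ tau n` for `d ∣ n`, `n ≠ 0`.
`tau_eps`: from `∑_{m ≤ n} tau(m)^j ≤ n (1 + log n)^(2^j)` (`Pool.Agent.H35.U.tau_pow` in
`Pool/Agent/H35/U/TauM.lean`) with `j ≥ 2/e`, or from any divisor bound of the pool (`H92/EH3/DivBound.lean`).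
-/

set_option autoImplicit false

namespace Pool.Agent.H88.PSI

open Finset

private theorem Pw_tau_nonneg (n : ℕ) : 0 ≤ tau n := by
  unfold tau
  positivity

private theorem Pw_tau_one_le {n : ℕ} (hn : n ≠ 0) : 1 ≤ tau n := by
  unfold tau
  have : 0 < n.divisors.card := by
    rw [Finset.card_pos]
    exact ⟨1, Nat.one_mem_divisors.2 hn⟩
  exact_mod_cast this

private theorem Pw_tau_dvd {d n : ℕ} (h : d ∣ n) (hn : n ≠ 0) : tau d ≤ tau n := by
  unfold tau
  exact_mod_cast Finset.card_le_card (Nat.divisors_subset_of_dvd hn h)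

private theorem Pw_card (n : ℕ) : (n.divisorsAntidiagonal.card : ℝ) = tau n := by
  unfold tau
  have h := Nat.sum_divisorsAntidiagonal (fun _ _ => (1:ℝ)) (n := n)
  simp only [Finset.sum_const, nsmul_eq_mul, mul_one] at h
  exact h

private theorem Pw_mul {R : Type*} [NormedCommRing R] (f g : ArithmeticFunction R) (A B : ℝ)
    (hA : 0 ≤ A) (hB : 0 ≤ B) (a b : ℕ) (hf : ∀ n, ‖f n‖ ≤ A * tau n ^ a)
    (hg : ∀ n, ‖g n‖ ≤ B * tau n ^ b) (n : ℕ) : ‖(f * g) n‖ ≤ A * B * tau n ^ (a + b + 1) := by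
  have ht := Pw_tau_nonneg n
  rcases Nat.eq_zero_or_pos n with h0 | h0
  · subst h0
    rw [ArithmeticFunction.map_zero, norm_zero]
    positivity
  · rw [ArithmeticFunction.mul_apply]
    refine (norm_sum_le _ _).trans ?_
    have h1 : ∀ x ∈ n.divisorsAntidiagonal, ‖f x.1 * g x.2‖ ≤ A * B * tau n ^ (a + b) := by
      intro x hx
      rw [Nat.mem_divisorsAntidiagonal] at hx
      have hx1 : tau x.1 ≤ tau n := Pw_tau_dvd ⟨x.2, hx.1.symm⟩ hx.2
      have hx2 : tau x.2 ≤ tau n := Pw_tau_dvd ⟨x.1, by rw [mul_comm]; exact hx.1.symm⟩ hx.2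
      have h2 : ‖f x.1‖ ≤ A * tau n ^ a := (hf x.1).trans
        (mul_le_mul_of_nonneg_left (pow_le_pow_left₀ (Pw_tau_nonneg _) hx1 a) hA)
      have h3 : ‖g x.2‖ ≤ B * tau n ^ b := (hg x.2).trans
        (mul_le_mul_of_nonneg_left (pow_le_pow_left₀ (Pw_tau_nonneg _) hx2 b) hB)
      calc ‖f x.1 * g x.2‖ ≤ ‖f x.1‖ * ‖g x.2‖ := norm_mul_le _ _
        _ ≤ (A * tau n ^ a) * (B * tau n ^ b) :=
            mul_le_mul h2 h3 (norm_nonneg _) (by positivity)
        _ = A * B * tau n ^ (a + b) := by rw [pow_add]; ring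
    refine (Finset.sum_le_sum h1).trans (le_of_eq ?_)
    rw [Finset.sum_const, nsmul_eq_mul, Pw_card, pow_succ]
    ring

/-- products of bounded functions -/
theorem prod_bd {r : ℕ} (f : Fin r → ArithmeticFunction ℂ) (L : ℝ) (hL : 1 ≤ L)
    (h : ∀ i n, ‖f i n‖ ≤ L) (n : ℕ) : ‖(∏ i, f i) n‖ ≤ L ^ r * tau n ^ r := by
  have key : ∀ s : Finset (Fin r), ∀ n : ℕ, ‖(∏ i ∈ s, f i) n‖ ≤ L ^ s.card * tau n ^ s.card := by
    intro s
    induction s using Finset.induction_on with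
    | empty =>
      intro n
      rw [Finset.prod_empty, Finset.card_empty, pow_zero, pow_zero, mul_one,
        ArithmeticFunction.one_apply]
      split_ifs
      · rw [norm_one]
      · rw [norm_zero]
        exact zero_le_one
    | insert i s hi ih =>
      intro n
      rw [Finset.prod_insert hi, Finset.card_insert_of_notMem hi]
      have h1 := Pw_mul (f i) (∏ i ∈ s, f i) L (L ^ s.card) (by linarith) (by positivity) 0 s.card
        (fun m => by rw [pow_zero, mul_one]; exact h i m) ih n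
      refine h1.trans (le_of_eq ?_)
      rw [zero_add, pow_succ L]
      ring
  have h2 := key univ n
  rw [Finset.card_univ, Fintype.card_fin] at h2
  exact h2

/-- products of functions supported on `[N i, 2 N i)` -/
theorem prod_supp {r : ℕ} (f : Fin r → ArithmeticFunction ℂ) (N : Fin r → ℕ)
    (h : ∀ i n, f i n ≠ 0 → N i ≤ n ∧ n < 2 * N i) (n : ℕ) (hn : (∏ i, f i) n ≠ 0) :
    ∏ i, N i ≤ n ∧ n ≤ ∏ i, (2 * N i) := by
  have key : ∀ s : Finset (Fin r), ∀ n : ℕ, (∏ i ∈ s, f i) n ≠ 0 →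
      ∏ i ∈ s, N i ≤ n ∧ n ≤ ∏ i ∈ s, (2 * N i) := by
    intro s
    induction s using Finset.induction_on with
    | empty =>
      intro n hn
      rw [Finset.prod_empty, ArithmeticFunction.one_apply] at hn
      rw [Finset.prod_empty, Finset.prod_empty]
      split_ifs at hn with h1
      · omega
      · exact absurd rfl hn
    | insert i s hi ih =>
      intro n hn
      rw [Finset.prod_insert hi, ArithmeticFunction.mul_apply] at hn
      obtain ⟨x, hx, hne⟩ := Finset.exists_ne_zero_of_sum_ne_zero hn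
      rw [Nat.mem_divisorsAntidiagonal] at hx
      have h1 := h i x.1 (left_ne_zero_of_mul hne)
      have h2 := ih x.2 (right_ne_zero_of_mul hne)
      rw [Finset.prod_insert hi, Finset.prod_insert hi, ← hx.1]
      exact ⟨Nat.mul_le_mul h1.1 h2.1, Nat.mul_le_mul h1.2.le h2.2⟩
  exact key univ n hn

private theorem Pw_sub (f g : ArithmeticFunction ℝ) (n : ℕ) : (f - g) n = f n - g n := by
  rw [sub_eq_add_neg, ArithmeticFunction.add_apply, sub_eq_add_neg]
  rfl

private theorem Pw_seg2 (w : ℕ) (n : ℕ) : ‖seg 2 1 (2 ^ w) n‖ ≤ 1 * tau n ^ 0 := by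
  rw [pow_zero, mul_one]
  show ‖if n ≠ 0 ∧ 1 ≤ n ∧ n < 2 ^ w then kf 2 n else 0‖ ≤ 1
  split_ifs
  · have h1 : kf 2 n = ((ArithmeticFunction.moebius n : ℤ) : ℝ) := by
      unfold kf
      rw [if_neg (by decide), if_neg (by decide)]
    rw [h1, Real.norm_eq_abs, ← Int.cast_abs]
    exact_mod_cast ArithmeticFunction.abs_moebius_le_one
  · rw [norm_zero]
    exact zero_le_one

private theorem Pw_hi0 (n : ℕ) : ‖hi 0 1 n‖ ≤ 1 * tau n ^ 0 := by
  rw [pow_zero, mul_one]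
  show ‖if n ≠ 0 ∧ 1 ≤ n then kf 0 n else 0‖ ≤ 1
  split_ifs
  · have h1 : kf 0 n = 1 := by
      unfold kf
      rw [if_pos rfl]
    rw [h1, norm_one]
  · rw [norm_zero]
    exact zero_le_one

private theorem Pw_seg0 (y : ℕ) (n : ℕ) : ‖seg 0 1 (2 ^ y) n‖ ≤ 1 := by
  show ‖if n ≠ 0 ∧ 1 ≤ n ∧ n < 2 ^ y then kf 0 n else 0‖ ≤ 1
  split_ifs
  · have h1 : kf 0 n = 1 := by
      unfold kf
      rw [if_pos rfl]
    rw [h1, norm_one]
  · rw [norm_zero]
    exact zero_le_one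

private theorem Pw_seg1 (y : ℕ) (n : ℕ) : ‖seg 1 1 (2 ^ y) n‖ ≤ (y : ℝ) * tau n ^ 0 := by
  rw [pow_zero, mul_one]
  show ‖if n ≠ 0 ∧ 1 ≤ n ∧ n < 2 ^ y then kf 1 n else 0‖ ≤ (y : ℝ)
  split_ifs with h
  · have h1 : kf 1 n = Real.log n := by
      unfold kf
      rw [if_neg (by decide), if_pos rfl]
    have hn1 : (1 : ℝ) ≤ n := by exact_mod_cast h.2.1
    rw [h1, Real.norm_eq_abs, abs_of_nonneg (Real.log_nonneg hn1)]
    have h2 : (n : ℝ) ≤ 2 ^ y := by exact_mod_cast h.2.2.le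
    have h3 : Real.log n ≤ Real.log ((2 : ℝ) ^ y) := Real.log_le_log (by linarith) h2
    rw [Real.log_pow] at h3
    have h4 : Real.log 2 ≤ 1 := by
      have := Real.log_two_lt_d9
      linarith
    have h5 : (0 : ℝ) ≤ y := Nat.cast_nonneg y
    nlinarith
  · rw [norm_zero]
    exact Nat.cast_nonneg y

private theorem Pw_hs (y : ℕ) (n : ℕ) : ‖(hi 0 1 + seg 0 1 (2 ^ y)) n‖ ≤ 2 * tau n ^ 0 := by
  rw [ArithmeticFunction.add_apply]
  have h1 := Pw_hi0 n
  have h2 := Pw_seg0 y n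
  rw [pow_zero, mul_one] at h1 ⊢
  refine (norm_add_le _ _).trans ?_
  linarith

private theorem Pw_sq (w : ℕ) (n : ℕ) : ‖(seg 2 1 (2 ^ w) ^ 2) n‖ ≤ 1 * tau n ^ 1 := by
  rw [pow_two]
  have h := Pw_mul (seg 2 1 (2 ^ w)) (seg 2 1 (2 ^ w)) 1 1 zero_le_one zero_le_one 0 0 (Pw_seg2 w)
    (Pw_seg2 w) n
  simpa using h

private theorem Pw_cube (w : ℕ) (n : ℕ) : ‖(seg 2 1 (2 ^ w) ^ 3) n‖ ≤ 1 * tau n ^ 2 := by
  rw [pow_succ]
  have h := Pw_mul (seg 2 1 (2 ^ w) ^ 2) (seg 2 1 (2 ^ w)) 1 1 zero_le_one zero_le_one 1 0 (Pw_sq w)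
    (Pw_seg2 w) n
  simpa using h

/-- the coefficients `cA` -/
theorem cA_bd (w n : ℕ) : |cA w n| ≤ 7 * tau n ^ 5 := by
  rcases Nat.eq_zero_or_pos n with h0 | h0
  · subst h0
    rw [ArithmeticFunction.map_zero, abs_zero]
    have := Pw_tau_nonneg 0
    positivity
  · have ht := Pw_tau_one_le (n := n) (by omega)
    have h1 := Pw_seg2 w n
    have h2 := Pw_mul (hi 0 1) (seg 2 1 (2 ^ w) ^ 2) 1 1 zero_le_one zero_le_one 0 1 Pw_hi0
      (Pw_sq w) n
    have h3 : ∀ n, ‖(hi 0 1 ^ 2) n‖ ≤ 1 * tau n ^ 1 := by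
      intro n
      rw [pow_two]
      have h := Pw_mul (hi 0 1) (hi 0 1) 1 1 zero_le_one zero_le_one 0 0 Pw_hi0 Pw_hi0 n
      simpa using h
    have h4 := Pw_mul (hi 0 1 ^ 2) (seg 2 1 (2 ^ w) ^ 3) 1 1 zero_le_one zero_le_one 1 2 h3
      (Pw_cube w) n
    rw [Real.norm_eq_abs] at h1 h2 h4
    have e : cA w n = 3 * seg 2 1 (2 ^ w) n - 3 * (hi 0 1 * seg 2 1 (2 ^ w) ^ 2) n +
        (hi 0 1 ^ 2 * seg 2 1 (2 ^ w) ^ 3) n := by
      unfold cA
      rw [ArithmeticFunction.add_apply, Pw_sub]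
      rfl
    rw [e]
    have p1 : tau n ^ 0 ≤ tau n ^ 5 := pow_le_pow_right₀ ht (by norm_num)
    have p2 : tau n ^ (0 + 1 + 1) ≤ tau n ^ 5 := pow_le_pow_right₀ ht (by norm_num)
    have p3 : tau n ^ (1 + 2 + 1) ≤ tau n ^ 5 := pow_le_pow_right₀ ht (by norm_num)
    have q1 := abs_le.1 h1
    have q2 := abs_le.1 h2
    have q4 := abs_le.1 h4
    rw [abs_le]
    constructor <;> linarith [q1.1, q1.2, q2.1, q2.2, q4.1, q4.2]

/-- the coefficients `cB` -/
theorem cB_bd (y w n : ℕ) : |cB y w n| ≤ 5 * (y + 1) * tau n ^ 5 := by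
  rcases Nat.eq_zero_or_pos n with h0 | h0
  · subst h0
    rw [ArithmeticFunction.map_zero, abs_zero]
    have := Pw_tau_nonneg 0
    positivity
  · have ht := Pw_tau_one_le (n := n) (by omega)
    have hy : (0 : ℝ) ≤ y := Nat.cast_nonneg y
    have h1 := Pw_mul (seg 1 1 (2 ^ y)) (hi 0 1 + seg 0 1 (2 ^ y)) y 2 hy (by norm_num) 0 0
      (Pw_seg1 y) (Pw_hs y)
    have h2 := Pw_mul (seg 1 1 (2 ^ y) * (hi 0 1 + seg 0 1 (2 ^ y))) (seg 2 1 (2 ^ w) ^ 3) (y * 2) 1
      (by positivity) zero_le_one (0 + 0 + 1) 2 h1 (Pw_cube w) n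
    have h3 := Pw_mul (seg 1 1 (2 ^ y)) (seg 2 1 (2 ^ w) ^ 2) y 1 hy zero_le_one 0 1 (Pw_seg1 y)
      (Pw_sq w) n
    rw [Real.norm_eq_abs] at h2 h3
    have e : cB y w n = (seg 1 1 (2 ^ y) * (hi 0 1 + seg 0 1 (2 ^ y)) * seg 2 1 (2 ^ w) ^ 3) n -
        3 * (seg 1 1 (2 ^ y) * seg 2 1 (2 ^ w) ^ 2) n := by
      unfold cB
      rw [Pw_sub]
      rfl
    rw [e]
    have p2 : tau n ^ (0 + 1 + 1) ≤ tau n ^ 5 := pow_le_pow_right₀ ht (by norm_num)
    have p3 : tau n ^ (0 + 0 + 1 + 2 + 1) ≤ tau n ^ 5 := pow_le_pow_right₀ ht (by norm_num)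
    have r2 : (y : ℝ) * 1 * tau n ^ (0 + 1 + 1) ≤ y * tau n ^ 5 := by
      rw [mul_one]
      exact mul_le_mul_of_nonneg_left p2 hy
    have r3 : (y : ℝ) * 2 * 1 * tau n ^ (0 + 0 + 1 + 2 + 1) ≤ 2 * (y * tau n ^ 5) := by
      have := mul_le_mul_of_nonneg_left p3 hy
      linarith
    have r4 : 0 ≤ tau n ^ 5 := by positivity
    have q2 := abs_le.1 h2
    have q3 := abs_le.1 h3
    rw [abs_le]
    constructor <;> linarith [q2.1, q2.2, q3.1, q3.2]

/-- divisor bound -/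
theorem tau_eps (e : ℝ) (he : 0 < e) : ∃ C : ℝ, 1 ≤ C ∧ ∀ n : ℕ, tau n ≤ C * (n : ℝ) ^ e + C := by
  obtain ⟨C, hC, h⟩ := Pool.Agent.H92.EH.div_bound e he
  refine ⟨C, hC, fun n => ?_⟩
  have hn : (0 : ℝ) ≤ (n : ℝ) ^ e := Real.rpow_nonneg (Nat.cast_nonneg n) e
  rcases Nat.eq_zero_or_pos n with h0 | h0
  · subst h0
    unfold tau
    rw [Nat.divisors_zero, Finset.card_empty, Nat.cast_zero]
    have h2 : (0 : ℝ) ≤ (0 : ℝ) ^ e := Real.rpow_nonneg le_rfl e
    have h3 : 0 ≤ C * (0 : ℝ) ^ e := mul_nonneg (by linarith) h2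
    linarith
  · have h1 := h n h0
    unfold tau
    linarith

open scoped Pointwise in
private theorem Pw_tau_mul_le (d e : ℕ) :
    (d * e).divisors.card ≤ d.divisors.card * e.divisors.card := by
  rw [Nat.divisors_mul]
  exact card_mul_le

private noncomputable def Pw_S (k n : ℕ) : ℝ := ∑ m ∈ Icc 1 n, (m.divisors.card : ℝ) ^ k / m

private theorem Pw_S_nonneg (k n : ℕ) : 0 ≤ Pw_S k n :=
  sum_nonneg fun _ _ => by positivity

private theorem Pw_S_succ (k n : ℕ) : Pw_S (k + 1) n ≤ Pw_S k n ^ 2 := by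
  obtain ⟨f, hf⟩ : ∃ f : ℕ × ℕ → ℝ, f = fun p => ((p.1.divisors.card : ℝ) ^ k / p.1) *
      ((p.2.divisors.card : ℝ) ^ k / p.2) := ⟨_, rfl⟩
  have hf0 : ∀ p, 0 ≤ f p := fun p => by rw [hf]; positivity
  have h1 : Pw_S k n ^ 2 = ∑ p ∈ Icc 1 n ×ˢ Icc 1 n, f p := by
    unfold Pw_S
    rw [sq, sum_mul_sum, sum_product, hf]
  have h2 : ∀ m ∈ Icc 1 n, (m.divisors.card : ℝ) ^ (k + 1) / m ≤
      ∑ p ∈ ((Icc 1 n ×ˢ Icc 1 n).filter (fun p => p.1 * p.2 ∈ Icc 1 n)).filter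
        (fun p => p.1 * p.2 = m), f p := by
    intro m hm
    have hm' := mem_Icc.1 hm
    have e1 : ((Icc 1 n ×ˢ Icc 1 n).filter (fun p => p.1 * p.2 ∈ Icc 1 n)).filter
        (fun p => p.1 * p.2 = m) = m.divisorsAntidiagonal := by
      ext p
      rw [mem_filter, mem_filter, mem_product, mem_Icc, mem_Icc, Nat.mem_divisorsAntidiagonal]
      constructor
      · rintro ⟨_, h⟩
        exact ⟨h, by omega⟩
      · rintro ⟨h, _⟩
        have hp1 : 1 ≤ p.1 := Nat.one_le_iff_ne_zero.2 (by rintro h0; rw [h0, zero_mul] at h; omega)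
        have hp2 : 1 ≤ p.2 := Nat.one_le_iff_ne_zero.2 (by rintro h0; rw [h0, mul_zero] at h; omega)
        have h3 : p.1 ≤ m := h ▸ Nat.le_mul_of_pos_right _ hp2
        have h4 : p.2 ≤ m := h ▸ Nat.le_mul_of_pos_left _ hp1
        exact ⟨⟨⟨⟨hp1, by omega⟩, ⟨hp2, by omega⟩⟩, h ▸ hm⟩, h⟩
    rw [e1]
    have e2 : (m.divisors.card : ℝ) = ∑ _p ∈ m.divisorsAntidiagonal, (1:ℝ) := by
      rw [Nat.sum_divisorsAntidiagonal (fun _ _ => (1:ℝ))]
      simp
    have e3 : (m.divisors.card : ℝ) ^ (k + 1) / m =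
        ∑ _p ∈ m.divisorsAntidiagonal, (m.divisors.card : ℝ) ^ k / m := by
      rw [← mul_one ((m.divisors.card : ℝ) ^ k / m), ← mul_sum, ← e2, pow_succ]
      ring
    rw [e3]
    refine sum_le_sum fun p hp => ?_
    rw [Nat.mem_divisorsAntidiagonal] at hp
    rw [hf]
    have h5 := Pw_tau_mul_le p.1 p.2
    rw [hp.1] at h5
    have h6 : (m.divisors.card : ℝ) ≤ (p.1.divisors.card : ℝ) * (p.2.divisors.card : ℝ) := by
      exact_mod_cast h5
    have h7 : (m : ℝ) = (p.1 : ℝ) * p.2 := by rw [← hp.1]; push_cast; rfl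
    show (m.divisors.card : ℝ) ^ k / m ≤ ((p.1.divisors.card : ℝ) ^ k / p.1) *
      ((p.2.divisors.card : ℝ) ^ k / p.2)
    rw [div_mul_div_comm, ← mul_pow, ← h7]
    exact div_le_div_of_nonneg_right (pow_le_pow_left₀ (by positivity) h6 k) (by positivity)
  rw [h1]
  unfold Pw_S
  calc ∑ m ∈ Icc 1 n, (m.divisors.card : ℝ) ^ (k + 1) / m
      ≤ ∑ m ∈ Icc 1 n, ∑ p ∈ ((Icc 1 n ×ˢ Icc 1 n).filter (fun p => p.1 * p.2 ∈ Icc 1 n)).filter
        (fun p => p.1 * p.2 = m), f p := sum_le_sum h2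
    _ = ∑ p ∈ (Icc 1 n ×ˢ Icc 1 n).filter (fun p => p.1 * p.2 ∈ Icc 1 n), f p :=
        sum_fiberwise_of_maps_to (fun p hp => (mem_filter.1 hp).2) f
    _ ≤ ∑ p ∈ Icc 1 n ×ˢ Icc 1 n, f p :=
        sum_le_sum_of_subset_of_nonneg (filter_subset _ _) (fun p _ _ => hf0 p)

private theorem Pw_S_zero (n : ℕ) : Pw_S 0 n ≤ 1 + Real.log n := by
  have h := harmonic_le_one_add_log n
  refine le_trans (le_of_eq ?_) h
  unfold Pw_S
  rw [harmonic_eq_sum_Icc]
  push_cast
  refine sum_congr rfl fun m _ => ?_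
  rw [pow_zero, one_div]

private theorem Pw_S_pow (n k : ℕ) : Pw_S k n ≤ (1 + Real.log n) ^ (2 ^ k) := by
  induction k with
  | zero => simpa using Pw_S_zero n
  | succ k ih =>
    refine (Pw_S_succ k n).trans ?_
    rw [pow_succ 2 k, pow_mul]
    exact pow_le_pow_left₀ (Pw_S_nonneg k n) ih 2

/-- moments of the divisor function -/
theorem tau_mom (j n : ℕ) : ∑ m ∈ Icc 1 n, tau m ^ j ≤ n * (1 + Real.log n) ^ (2 ^ j) := by
  have h1 : ∑ m ∈ Icc 1 n, tau m ^ j ≤ n * Pw_S j n := by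
    unfold Pw_S
    rw [mul_sum]
    refine sum_le_sum fun m hm => ?_
    have hm' := mem_Icc.1 hm
    have hm0 : (0:ℝ) < m := by exact_mod_cast hm'.1
    have hmn : (m:ℝ) ≤ n := by exact_mod_cast hm'.2
    unfold tau
    rw [← mul_div_assoc, le_div_iff₀ hm0, mul_comm]
    exact mul_le_mul_of_nonneg_right hmn (by positivity)
  exact h1.trans (mul_le_mul_of_nonneg_left (Pw_S_pow n j) (by positivity))

/-- the same with weights `1/m` (see the private `tau_S_pow` in `Pool/Agent/H80/LV/Tau4.lean`) -/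
theorem tau_momd (j n : ℕ) : ∑ m ∈ Icc 1 n, tau m ^ j / m ≤ (1 + Real.log n) ^ (2 ^ j) := by
  exact Pw_S_pow n j

end Pool.Agent.H88.PSI

end

section

/-!
# PSI Cov: if the product is large, some factor is large

Otherwise every `i` has `v i ≤ 2 L X^(κ/24) (N i)^(s-κ)` (if `N i < X^(κ/24)` by `v i ≤ 2 L N i` and `(N i)^(s-κ) ≥ 1`; if not by `v i < (N i)^(s-κ)`), so
`∏ v i ≤ (2 L)^6 X^(κ/4) (3 X)^(s-κ) ≤ 9 (2 L)^6 X^(s-3κ/4) ≤ X^(s-κ/4)` (`r ≤ 6`; factors `2 L X^(κ/24) ≥ 1`), a contradiction.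
-/

set_option autoImplicit false

namespace Pool.Agent.H88.PSI

open Finset

private theorem Cov_large {κ : ℝ} (hκ : 0 < κ) : ∃ X0 : ℕ, ∀ X : ℕ, X0 ≤ X →
    3 * (2 * Real.log X) ^ 6 ≤ (X : ℝ) ^ (κ / 2) := by
  have h1 := (isLittleO_log_rpow_rpow_atTop (6 : ℝ) (by positivity : 0 < κ / 2)).bound
    (by norm_num : (0 : ℝ) < 1 / 192)
  have h2 : ∀ᶠ X : ℕ in Filter.atTop, ‖Real.log (X : ℝ) ^ (6 : ℝ)‖ ≤
      1 / 192 * ‖(X : ℝ) ^ (κ / 2)‖ := tendsto_natCast_atTop_atTop.eventually h1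
  obtain ⟨X0, hX0⟩ := Filter.eventually_atTop.mp (h2.and (Filter.eventually_ge_atTop 1))
  refine ⟨X0, fun X hX => ?_⟩
  obtain ⟨h3, h4⟩ := hX0 X hX
  have h5 : (0 : ℝ) ≤ (X : ℝ) ^ (κ / 2) := Real.rpow_nonneg (Nat.cast_nonneg _) _
  rw [Real.norm_of_nonneg h5] at h3
  have h6 : Real.log (X : ℝ) ^ (6 : ℝ) = Real.log (X : ℝ) ^ 6 := by
    rw [← Real.rpow_natCast]
    norm_num
  rw [h6] at h3
  have h7 := (le_abs_self _).trans h3
  have h8 : 3 * (2 * Real.log (X : ℝ)) ^ 6 = 192 * Real.log (X : ℝ) ^ 6 := by ring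
  rw [h8]
  linarith

theorem cov (κ : ℝ) (hκ : 0 < κ) (hκ' : κ ≤ 1 / 4) : ∃ X0 : ℕ, ∀ X : ℕ, X0 ≤ X →
    ∀ (r : ℕ) (N : Fin r → ℕ) (v : Fin r → ℝ) (s : ℝ), r ≤ 6 → (∀ i, 1 ≤ N i) →
    ∏ i, N i ≤ 3 * X → (∀ i, 0 ≤ v i) → (∀ i, v i ≤ 2 * Real.log X * N i) → 1 / 2 ≤ s →
    s ≤ 1 + κ → (X : ℝ) ^ (s - κ / 4) < ∏ i, v i →
    ∃ i, (X : ℝ) ^ (κ / 24) ≤ N i ∧ (N i : ℝ) ^ (s - κ) ≤ v i := by
  obtain ⟨X0, hX0⟩ := Cov_large hκ
  refine ⟨max X0 2, fun X hX r N v s hr hN hprod hv0 hv hs hs' hbig => ?_⟩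
  have hlarge := hX0 X ((le_max_left _ _).trans hX)
  have hX2 : 2 ≤ X := (le_max_right _ _).trans hX
  have hXr : (2 : ℝ) ≤ X := by exact_mod_cast hX2
  have hX0' : (0 : ℝ) < X := by linarith
  have hL : 1 ≤ 2 * Real.log X := by
    have h1 : Real.log 2 ≤ Real.log X := Real.log_le_log (by norm_num) hXr
    have h2 := Real.log_two_gt_d9
    linarith
  have he : 0 ≤ s - κ := by linarith
  have hXk : 1 ≤ (X : ℝ) ^ (κ / 24) := Real.one_le_rpow (by linarith) (by positivity)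
  by_contra hcon
  push Not at hcon
  obtain ⟨B, hB⟩ : ∃ B, B = 2 * Real.log X * (X : ℝ) ^ (κ / 24) := ⟨_, rfl⟩
  have hB1 : 1 ≤ B := by
    rw [hB]
    exact one_le_mul_of_one_le_of_one_le hL hXk
  have hNe : ∀ i, 1 ≤ (N i : ℝ) ^ (s - κ) := fun i =>
    Real.one_le_rpow (by exact_mod_cast hN i) he
  have key : ∀ i, v i ≤ B * (N i : ℝ) ^ (s - κ) := by
    intro i
    rcases lt_or_ge (N i : ℝ) ((X : ℝ) ^ (κ / 24)) with h1 | h1
    · have h2 : v i ≤ B := by
        refine (hv i).trans ?_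
        rw [hB]
        exact mul_le_mul_of_nonneg_left h1.le (by linarith)
      have h3 : B ≤ B * (N i : ℝ) ^ (s - κ) := le_mul_of_one_le_right (by linarith) (hNe i)
      exact h2.trans h3
    · have h2 := (hcon i h1).le
      have h3 : (N i : ℝ) ^ (s - κ) ≤ B * (N i : ℝ) ^ (s - κ) :=
        le_mul_of_one_le_left (by linarith [hNe i]) hB1
      exact h2.trans h3
  have h1 : ∏ i, v i ≤ B ^ 6 * (3 * (X : ℝ)) ^ (s - κ) := by
    refine (Finset.prod_le_prod (fun i _ => hv0 i) fun i _ => key i).trans ?_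
    rw [Finset.prod_mul_distrib, Finset.prod_const, Finset.card_univ, Fintype.card_fin]
    refine mul_le_mul (pow_le_pow_right₀ hB1 hr) ?_
      (Finset.prod_nonneg fun i _ => by linarith [hNe i]) (by positivity)
    rw [Real.finsetProd_rpow _ _ fun i _ => Nat.cast_nonneg _]
    refine Real.rpow_le_rpow (Finset.prod_nonneg fun i _ => Nat.cast_nonneg _) ?_ he
    exact_mod_cast hprod
  have h2 : (3 * (X : ℝ)) ^ (s - κ) ≤ 3 * (X : ℝ) ^ (s - κ) := by
    rw [Real.mul_rpow (by norm_num) hX0'.le]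
    refine mul_le_mul_of_nonneg_right ?_ (Real.rpow_nonneg hX0'.le _)
    calc (3 : ℝ) ^ (s - κ) ≤ (3 : ℝ) ^ (1 : ℝ) :=
          Real.rpow_le_rpow_of_exponent_le (by norm_num) (by linarith)
      _ = 3 := Real.rpow_one 3
  have h3 : B ^ 6 = (2 * Real.log X) ^ 6 * (X : ℝ) ^ (κ / 4) := by
    rw [hB, mul_pow, ← Real.rpow_natCast ((X : ℝ) ^ (κ / 24)) 6, ← Real.rpow_mul hX0'.le]
    congr 2
    push_cast
    ring
  have h4 : B ^ 6 * (3 * (X : ℝ) ^ (s - κ)) ≤ (X : ℝ) ^ (s - κ / 4) := by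
    have e1 : B ^ 6 * (3 * (X : ℝ) ^ (s - κ)) =
        3 * (2 * Real.log X) ^ 6 * ((X : ℝ) ^ (κ / 4) * (X : ℝ) ^ (s - κ)) := by
      rw [h3]
      ring
    have e2 : (X : ℝ) ^ (s - κ / 4) = (X : ℝ) ^ (κ / 2) * ((X : ℝ) ^ (κ / 4) * (X : ℝ) ^ (s - κ)) := by
      rw [← Real.rpow_add hX0', ← Real.rpow_add hX0']
      congr 1
      ring
    rw [e1, e2]
    exact mul_le_mul_of_nonneg_right hlarge
      (mul_nonneg (Real.rpow_nonneg hX0'.le _) (Real.rpow_nonneg hX0'.le _))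
  have h5 : B ^ 6 * (3 * (X : ℝ)) ^ (s - κ) ≤ B ^ 6 * (3 * (X : ℝ) ^ (s - κ)) :=
    mul_le_mul_of_nonneg_left h2 (by positivity)
  linarith

end Pool.Agent.H88.PSI

end

section

/-!
Multiplicative functions between pretentious and strongly aperiodic: common definitions.
-/

namespace Pool.Agent.H87T

open Finset

/-- Iterated forward differences. -/
def dif : ℕ → (ℕ → ℝ) → ℕ → ℝ
  | 0, φ => φ
  | k + 1, φ => dif k (fun n => φ (n + 1) - φ n)

/-- `exp (i θ)` -/
noncomputable def ei (θ : ℝ) : ℂ := Complex.exp ((θ : ℂ) * Complex.I)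

end Pool.Agent.H87T

end

section

/-!
The inequality of Kusmin and Landau (discrete form).

PROOF PLAN.  `d n = φ (n+1) - φ n`, `w n = 1/(ei (d n) - 1)`: `|ei d - 1| = 2 |sin (d/2)| >= 2θ/π` because
`d/2` is at distance at least `θ/2` from the multiples of `π` and `|sin| >= (2/π) dist`.  For `n + 1 < I`:
`ei (φ n) = w n (ei (φ (n+1)) - ei (φ n))`; partial summation: the sum over `n + 1 < I` is
`w (I-2) ei (φ (I-1)) - w 0 ei (φ 0) - ∑_{1 <= n <= I-2} (w n - w (n-1)) ei (φ n)`.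
`w n = -1/2 - (i/2) cot (d n/2)`, `d n/2 ∈ [π m + θ/2, π (m+1) - θ/2]` increasing, so `cot (d n/2)` is
decreasing and `∑ |w n - w (n-1)| <= (1/2) (cot (θ/2) + cot (θ/2)) <= 2/θ`.  Total:
`π/θ + 2/θ + 1 <= 9/θ`.
-/

namespace Pool.Agent.H87T

open Finset

private theorem Kusmin_norm (x : ℝ) : ‖ei x‖ = 1 := by
  unfold ei
  exact Complex.norm_exp_ofReal_mul_I x

private theorem Kusmin_ei (y : ℝ) :
    ei y = ((Real.cos y : ℝ) : ℂ) + ((Real.sin y : ℝ) : ℂ) * Complex.I := by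
  unfold ei
  rw [Complex.exp_mul_I, Complex.ofReal_cos, Complex.ofReal_sin]

private theorem Kusmin_add (x y : ℝ) : ei (x + y) = ei x * ei y := by
  unfold ei
  rw [← Complex.exp_add]
  congr 1
  push_cast
  ring

private theorem Kusmin_two_pi (m : ℤ) : ei (2 * Real.pi * m) = 1 := by
  unfold ei
  rw [Complex.exp_eq_one_iff]
  refine ⟨m, ?_⟩
  push_cast
  ring

/-- the weight `1 / (ei (2 x) - 1)` -/
private noncomputable def Kusmin_W (x : ℝ) : ℂ :=
  -(1 / 2) - Complex.I / 2 * ((Real.cos x / Real.sin x : ℝ) : ℂ)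

private theorem Kusmin_key {x : ℝ} (hx : Real.sin x ≠ 0) : Kusmin_W x * (ei (2 * x) - 1) = 1 := by
  have h1 : ei (2 * x) - 1 = -2 * ((Real.sin x : ℝ) : ℂ) ^ 2 +
      2 * ((Real.sin x : ℝ) : ℂ) * ((Real.cos x : ℝ) : ℂ) * Complex.I := by
    rw [Kusmin_ei, Real.cos_two_mul, Real.sin_two_mul]
    have h2 : ((Real.cos x : ℝ) : ℂ) ^ 2 = 1 - ((Real.sin x : ℝ) : ℂ) ^ 2 := by
      rw [← Complex.ofReal_pow, Real.cos_sq']
      push_cast
      ring
    push_cast
    push_cast at h2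
    linear_combination 2 * h2
  have hs : ((Real.sin x : ℝ) : ℂ) ≠ 0 := Complex.ofReal_ne_zero.2 hx
  have h3 : ((Real.sin x : ℝ) : ℂ) ^ 2 + ((Real.cos x : ℝ) : ℂ) ^ 2 = 1 := by
    rw [← Complex.ofReal_pow, ← Complex.ofReal_pow, ← Complex.ofReal_add,
      Real.sin_sq_add_cos_sq, Complex.ofReal_one]
  rw [h1]
  unfold Kusmin_W
  rw [Complex.ofReal_div]
  generalize ((Real.sin x : ℝ) : ℂ) = s at hs h3
  generalize ((Real.cos x : ℝ) : ℂ) = c at h3
  have h4 : (-(1 / 2) - Complex.I / 2 * (c / s)) * (-2 * s ^ 2 + 2 * s * c * Complex.I) =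
      s ^ 2 + c ^ 2 := by
    have h5 : (-(1 / 2) - Complex.I / 2 * (c / s)) * (-2 * s ^ 2 + 2 * s * c * Complex.I) =
        s ^ 2 - s * c * Complex.I + Complex.I * c * (s * (s / s)) -
          Complex.I ^ 2 * c ^ 2 * (s / s) := by ring
    rw [h5, div_self hs, Complex.I_sq]
    ring
  rw [h4, h3]

private theorem Kusmin_sin {θ x : ℝ} (hθ : 0 < θ) (h1 : θ / 2 ≤ x) (h2 : x ≤ Real.pi - θ / 2) :
    θ / Real.pi ≤ Real.sin x := by
  have hpi := Real.pi_pos
  have key : ∀ y : ℝ, θ / 2 ≤ y → y ≤ Real.pi / 2 → θ / Real.pi ≤ Real.sin y := by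
    intro y h3 h4
    have h5 := Real.mul_le_sin (by linarith : (0 : ℝ) ≤ y) h4
    have h6 : 2 / Real.pi * (θ / 2) ≤ 2 / Real.pi * y :=
      mul_le_mul_of_nonneg_left h3 (by positivity)
    have h7 : 2 / Real.pi * (θ / 2) = θ / Real.pi := by ring
    linarith
  rcases le_or_gt x (Real.pi / 2) with h | h
  · exact key x h1 h
  · rw [← Real.sin_pi_sub]
    exact key _ (by linarith) (by linarith)

private theorem Kusmin_cot_anti {x y : ℝ} (hx : 0 < x) (hxy : x ≤ y) (hy : y < Real.pi) :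
    Real.cos y / Real.sin y ≤ Real.cos x / Real.sin x := by
  have h1 : 0 < Real.sin x := Real.sin_pos_of_pos_of_lt_pi hx (by linarith)
  have h2 : 0 < Real.sin y := Real.sin_pos_of_pos_of_lt_pi (by linarith) hy
  rw [div_le_div_iff₀ h2 h1]
  have h3 : 0 ≤ Real.sin (y - x) := Real.sin_nonneg_of_nonneg_of_le_pi (by linarith) (by linarith)
  rw [Real.sin_sub] at h3
  linarith

private theorem Kusmin_cot_half {θ : ℝ} (hθ : 0 < θ) (hθ1 : θ ≤ Real.pi) :
    Real.cos (θ / 2) / Real.sin (θ / 2) ≤ 2 / θ := by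
  have hs : 0 < Real.sin (θ / 2) :=
    Real.sin_pos_of_pos_of_lt_pi (by linarith) (by linarith [Real.pi_pos])
  rcases eq_or_lt_of_le hθ1 with h | h
  · rw [h, Real.cos_pi_div_two, zero_div]
    positivity
  · have h1 := Real.lt_tan (by linarith : 0 < θ / 2) (by linarith)
    have hc : 0 < Real.cos (θ / 2) :=
      Real.cos_pos_of_mem_Ioo ⟨by linarith [Real.pi_pos], by linarith⟩
    rw [Real.tan_eq_sin_div_cos, lt_div_iff₀ hc] at h1
    rw [div_le_div_iff₀ hs hθ]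
    linarith

private theorem Kusmin_cot_abs {θ x : ℝ} (hθ : 0 < θ) (hθ1 : θ ≤ Real.pi) (h1 : θ / 2 ≤ x)
    (h2 : x ≤ Real.pi - θ / 2) : |Real.cos x / Real.sin x| ≤ 2 / θ := by
  have h3 := Kusmin_cot_half hθ hθ1
  rw [abs_le]
  constructor
  · have h4 := Kusmin_cot_anti (by linarith : 0 < x) h2 (by linarith)
    rw [Real.cos_pi_sub, Real.sin_pi_sub, neg_div] at h4
    linarith
  · have h4 := Kusmin_cot_anti (by linarith : 0 < θ / 2) h1 (by linarith)
    linarith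

private theorem Kusmin_W_norm {θ x : ℝ} (hθ : 0 < θ) (h1 : θ / 2 ≤ x)
    (h2 : x ≤ Real.pi - θ / 2) : ‖Kusmin_W x‖ ≤ Real.pi / (2 * θ) := by
  have hpi := Real.pi_pos
  have hs := Kusmin_sin hθ h1 h2
  have hs0 : 0 < Real.sin x := lt_of_lt_of_le (by positivity) hs
  have h3 := Kusmin_key hs0.ne'
  have h4 : ‖Kusmin_W x‖ * ‖ei (2 * x) - 1‖ = 1 := by
    rw [← norm_mul, h3, norm_one]
  have h5 : ‖ei (2 * x) - 1‖ = 2 * Real.sin x := by
    have e1 : ei (2 * x) - 1 = ei x * (2 * ((Real.sin x : ℝ) : ℂ) * Complex.I) := by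
      have e2 : ei (2 * x) = ei x * ei x := by rw [← Kusmin_add]; congr 1; ring
      have e3 : ei x * ei (-x) = 1 := by
        rw [← Kusmin_add, add_neg_cancel]
        unfold ei
        simp
      have e4 : ei x - ei (-x) = 2 * ((Real.sin x : ℝ) : ℂ) * Complex.I := by
        rw [Kusmin_ei x, Kusmin_ei (-x), Real.cos_neg, Real.sin_neg]
        push_cast
        ring
      rw [← e4, mul_sub, e3, e2]
    rw [e1, norm_mul, Kusmin_norm, one_mul, norm_mul, norm_mul, Complex.norm_I,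
      Complex.norm_real, Real.norm_of_nonneg hs0.le]
    simp
  rw [h5] at h4
  have h6 : ‖Kusmin_W x‖ = 1 / (2 * Real.sin x) := by
    rw [eq_div_iff (by positivity)]
    exact h4
  rw [h6, div_le_div_iff₀ (by positivity) (by positivity)]
  rw [div_le_iff₀ hpi] at hs
  linarith

private theorem Kusmin_W_sub (x y : ℝ) : ‖Kusmin_W x - Kusmin_W y‖ =
    1 / 2 * |Real.cos y / Real.sin y - Real.cos x / Real.sin x| := by
  have h : Kusmin_W x - Kusmin_W y =
      Complex.I / 2 * ((Real.cos y / Real.sin y - Real.cos x / Real.sin x : ℝ) : ℂ) := by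
    unfold Kusmin_W
    push_cast
    ring
  rw [h, norm_mul, norm_div, Complex.norm_I, Complex.norm_real, Real.norm_eq_abs]
  simp

theorem kusmin (φ : ℕ → ℝ) (I : ℕ) (m : ℤ) (θ : ℝ) (hθ : 0 < θ) (hθ1 : θ ≤ Real.pi)
    (h1 : ∀ n, n + 1 < I → 2 * Real.pi * m + θ ≤ φ (n + 1) - φ n ∧
      φ (n + 1) - φ n ≤ 2 * Real.pi * (m + 1) - θ)
    (h2 : ∀ n, n + 2 < I → φ (n + 1) - φ n ≤ φ (n + 2) - φ (n + 1)) :
    ‖∑ n ∈ range I, ei (φ n)‖ ≤ 9 / θ := by
  have hpi3 := Real.pi_lt_d2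
  have hpi := Real.pi_pos
  have hsmall : 1 ≤ Real.pi / θ := by
    rw [le_div_iff₀ hθ]
    linarith
  have hpθ : Real.pi / θ ≤ (3.15 : ℝ) / θ := div_le_div_of_nonneg_right (by linarith) hθ.le
  have hθi : 0 < 1 / θ := by positivity
  have e315 : (3.15 : ℝ) / θ = 3.15 * (1 / θ) := by ring
  have e9 : (9 : ℝ) / θ = 9 * (1 / θ) := by ring
  have e2 : (2 : ℝ) / θ = 2 * (1 / θ) := by ring
  obtain ⟨x, hx⟩ : ∃ x : ℕ → ℝ, x = fun n => (φ (n + 1) - φ n) / 2 - Real.pi * m := ⟨_, rfl⟩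
  have hxn : ∀ n, x n = (φ (n + 1) - φ n) / 2 - Real.pi * m := fun n => by rw [hx]
  have hx1 : ∀ n, n + 1 < I → θ / 2 ≤ x n ∧ x n ≤ Real.pi - θ / 2 := by
    intro n hn
    have h3 := h1 n hn
    rw [hxn]
    constructor <;> linarith [h3.1, h3.2]
  have hx2 : ∀ n, n + 2 < I → x n ≤ x (n + 1) := by
    intro n hn
    have h3 := h2 n hn
    rw [hxn, hxn]
    linarith
  have hstep : ∀ n, n + 1 < I → ei (φ n) = Kusmin_W (x n) * (ei (φ (n + 1)) - ei (φ n)) := by
    intro n hn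
    obtain ⟨h3, h4⟩ := hx1 n hn
    have hs : Real.sin (x n) ≠ 0 :=
      (Real.sin_pos_of_pos_of_lt_pi (by linarith) (by linarith)).ne'
    have e1 : ei (φ (n + 1)) = ei (φ n) * ei (2 * x n) := by
      have e3 : ei (2 * x n) = ei (φ (n + 1) - φ n) := by
        have e4 : φ (n + 1) - φ n = 2 * x n + 2 * Real.pi * m := by rw [hxn]; ring
        rw [e4, Kusmin_add, Kusmin_two_pi, mul_one]
      rw [e3, ← Kusmin_add]
      congr 1
      ring
    have e5 := Kusmin_key hs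
    rw [e1]
    linear_combination (-(ei (φ n))) * e5
  have hind : ∀ k, k + 1 < I → ∃ R : ℂ,
      ∑ n ∈ range (k + 1), ei (φ n) = Kusmin_W (x k) * ei (φ (k + 1)) + R ∧
      ‖R‖ ≤ ‖Kusmin_W (x 0)‖ + 1 / 2 * (Real.cos (x 0) / Real.sin (x 0) -
        Real.cos (x k) / Real.sin (x k)) := by
    intro k
    induction k with
    | zero =>
      intro hk
      refine ⟨-(Kusmin_W (x 0) * ei (φ 0)), ?_, ?_⟩
      · rw [zero_add, Finset.sum_range_one]
        have e1 := hstep 0 hk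
        rw [zero_add] at e1
        linear_combination e1
      · rw [norm_neg, norm_mul, Kusmin_norm, mul_one]
        linarith
    | succ k ih =>
      intro hk
      obtain ⟨R, hR1, hR2⟩ := ih (by omega)
      refine ⟨R + (Kusmin_W (x k) - Kusmin_W (x (k + 1))) * ei (φ (k + 1)), ?_, ?_⟩
      · rw [Finset.sum_range_succ, hR1]
        have e1 := hstep (k + 1) hk
        linear_combination e1
      · have e3 : ‖(Kusmin_W (x k) - Kusmin_W (x (k + 1))) * ei (φ (k + 1))‖ =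
            1 / 2 * (Real.cos (x k) / Real.sin (x k) -
              Real.cos (x (k + 1)) / Real.sin (x (k + 1))) := by
          rw [norm_mul, Kusmin_norm, mul_one, Kusmin_W_sub, abs_sub_comm, abs_of_nonneg]
          have h3 := hx1 k (by omega)
          have h4 := hx1 (k + 1) hk
          have h5 := Kusmin_cot_anti (by linarith [h3.1] : 0 < x k) (hx2 k (by omega))
            (by linarith [h4.2])
          linarith
        have e4 := norm_add_le R ((Kusmin_W (x k) - Kusmin_W (x (k + 1))) * ei (φ (k + 1)))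
        linarith
  rcases Nat.lt_or_ge I 2 with hI | hI
  · have e1 : ‖∑ n ∈ range I, ei (φ n)‖ ≤ 1 := by
      refine (norm_sum_le _ _).trans ?_
      rw [Finset.sum_congr rfl fun n _ => Kusmin_norm (φ n), Finset.sum_const, Finset.card_range,
        nsmul_eq_mul, mul_one]
      exact_mod_cast (by omega : I ≤ 1)
    linarith
  · obtain ⟨k, rfl⟩ : ∃ k, I = k + 2 := ⟨I - 2, by omega⟩
    obtain ⟨R, hR1, hR2⟩ := hind k (by omega)
    rw [Finset.sum_range_succ, hR1]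
    have h3 := hx1 k (by omega)
    have h4 := hx1 0 (by omega)
    have e1 := Kusmin_W_norm hθ h3.1 h3.2
    have e3 := Kusmin_W_norm hθ h4.1 h4.2
    have e4 := abs_le.1 (Kusmin_cot_abs hθ hθ1 h3.1 h3.2)
    have e5 := abs_le.1 (Kusmin_cot_abs hθ hθ1 h4.1 h4.2)
    have e6 : ‖Kusmin_W (x k) * ei (φ (k + 1)) + R + ei (φ (k + 1))‖ ≤
        ‖Kusmin_W (x k)‖ + ‖R‖ + 1 := by
      refine (norm_add_le _ _).trans ?_
      rw [Kusmin_norm]
      refine add_le_add ((norm_add_le _ _).trans ?_) le_rfl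
      rw [norm_mul, Kusmin_norm, mul_one]
    have e7 : Real.pi / (2 * θ) = 1 / 2 * (Real.pi / θ) := by
      field_simp
    rw [e7] at e1 e3
    linarith [e4.1, e4.2, e5.1, e5.2]

end Pool.Agent.H87T

end

section

/-!
The second difference test of van der Corput (discrete form).

PROOF PLAN.  `dif 2 φ n = (φ (n+2) - φ (n+1)) - (φ (n+1) - φ n)`, so `d n = φ (n+1) - φ n` is
increasing with increments in `[lam, α lam]`.  `θ = √lam <= 1 <= π`.  For an integer `m` let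
`J_m = {n : n + 1 < I, 2πm - θ <= d n < 2π(m+1) - θ}`: consecutive integers (`d` monotone); nonempty for
at most `α lam I/(2π) + 2` values `m`.  In `J_m` the `n` with `d n < 2πm + θ` are at most `2θ/lam + 1` many
consecutive ones (trivial bound), on the others `kusmin` (applied to `n ↦ φ (n + n0)`) gives `9/θ` (the sum in
`kusmin` has one more term; or apply it to the block itself).  Total at most
`(α lam I + 3) (2/√lam + 1 + 9/√lam + 1) + 1 <= 100 (α I √lam + 1/√lam)`.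
-/

namespace Pool.Agent.H87T

open Finset

private theorem VdcTwo_norm (φ : ℕ → ℝ) (I : ℕ) : ‖∑ n ∈ range I, ei (φ n)‖ ≤ I := by
  refine (norm_sum_le _ _).trans ?_
  have h1 : ∀ n ∈ range I, ‖ei (φ n)‖ = 1 := by
    intro n _
    unfold ei
    exact Complex.norm_exp_ofReal_mul_I _
  rw [sum_congr rfl h1]
  simp

private theorem VdcTwo_mono {lam : ℝ} {φ : ℕ → ℝ} {I : ℕ}
    (h : ∀ n, n + 2 < I → lam ≤ (φ (n + 2) - φ (n + 1)) - (φ (n + 1) - φ n)) {i j : ℕ}
    (hij : i ≤ j) (hj : j + 1 < I) :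
    lam * ((j : ℝ) - i) ≤ (φ (j + 1) - φ j) - (φ (i + 1) - φ i) := by
  induction j, hij using Nat.le_induction with
  | base => simp
  | succ j hij ih =>
    have h1 := ih (by omega)
    have h2 := h j (by omega)
    push_cast
    have h3 : j + 1 + 1 = j + 2 := rfl
    rw [h3]
    linarith

private theorem VdcTwo_ind {θ lam : ℝ} (hθ : 0 < θ) (hθ1 : θ ≤ Real.pi) (hlam : 0 < lam) :
    ∀ (k : ℕ) (φ : ℕ → ℝ) (I : ℕ) (m : ℤ),
      (∀ n, n + 2 < I → lam ≤ (φ (n + 2) - φ (n + 1)) - (φ (n + 1) - φ n)) →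
      (∀ n, n + 1 < I → 2 * Real.pi * m - θ ≤ φ (n + 1) - φ n) →
      (∀ n, n + 1 < I → φ (n + 1) - φ n < 2 * Real.pi * (m + k) - θ) →
      ‖∑ n ∈ range I, ei (φ n)‖ ≤ k * (2 * θ / lam + 1 + 9 / θ) + 1 := by
  intro k
  induction k with
  | zero =>
    intro φ I m _ h1 h2
    have hI : I ≤ 1 := by
      by_contra hcon
      have e1 := h1 0 (by omega)
      have e2 := h2 0 (by omega)
      push_cast at e2
      rw [add_zero] at e2
      linarith
    have e3 := VdcTwo_norm φ I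
    have e4 : (I : ℝ) ≤ 1 := by exact_mod_cast hI
    push_cast
    linarith
  | succ k ih =>
    intro φ I m h h1 h2
    -- end of the first block
    have hex : ∃ n, ¬ (n + 1 < I ∧ φ (n + 1) - φ n < 2 * Real.pi * (m + 1) - θ) :=
      ⟨I, fun hh => by omega⟩
    classical
    set b := Nat.find hex with hb
    have hb1 : ∀ n, n < b → n + 1 < I ∧ φ (n + 1) - φ n < 2 * Real.pi * (m + 1) - θ := by
      intro n hn
      exact not_not.mp (Nat.find_min hex hn)
    have hb2 : ¬ (b + 1 < I ∧ φ (b + 1) - φ b < 2 * Real.pi * (m + 1) - θ) := Nat.find_spec hex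
    have hbI : b ≤ I := by
      by_contra hcon
      have := (hb1 I (by omega)).1
      omega
    -- the bad part of the first block
    have hex2 : ∃ n, ¬ (n < b ∧ φ (n + 1) - φ n < 2 * Real.pi * m + θ) :=
      ⟨b, fun hh => by omega⟩
    set a := Nat.find hex2 with ha
    have ha1 : ∀ n, n < a → n < b ∧ φ (n + 1) - φ n < 2 * Real.pi * m + θ := by
      intro n hn
      exact not_not.mp (Nat.find_min hex2 hn)
    have ha2 : ¬ (a < b ∧ φ (a + 1) - φ a < 2 * Real.pi * m + θ) := Nat.find_spec hex2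
    have hab : a ≤ b := by
      by_contra hcon
      have := (ha1 b (by omega)).1
      omega
    have haB : (a : ℝ) ≤ 2 * θ / lam + 1 := by
      rcases Nat.eq_zero_or_pos a with h0 | h0
      · rw [h0]
        push_cast
        positivity
      · have e1 := ha1 (a - 1) (by omega)
        have e2 := (hb1 (a - 1) e1.1).1
        have e3 := h1 0 (by omega)
        have e4 := VdcTwo_mono h (Nat.zero_le (a - 1)) e2
        have e5 : ((a - 1 : ℕ) : ℝ) = (a : ℝ) - 1 := by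
          rw [Nat.cast_sub h0]
          norm_num
        rw [e5] at e4
        push_cast at e4
        rw [sub_zero] at e4
        have e6 : lam * ((a : ℝ) - 1) ≤ 2 * θ := by
          have := e1.2
          linarith
        have e7 : (a : ℝ) - 1 ≤ 2 * θ / lam := by
          rw [le_div_iff₀ hlam]
          linarith
        linarith
    have hsplit1 : ∑ n ∈ range I, ei (φ n) =
        ∑ n ∈ range b, ei (φ n) + ∑ n ∈ range (I - b), ei (φ (b + n)) := by
      rw [← sum_range_add (fun n => ei (φ n)) b (I - b)]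
      congr 2
      omega
    have hsplit2 : ∑ n ∈ range b, ei (φ n) =
        ∑ n ∈ range a, ei (φ n) + ∑ n ∈ range (b - a), ei (φ (a + n)) := by
      rw [← sum_range_add (fun n => ei (φ n)) a (b - a)]
      congr 2
      omega
    have hp1 := VdcTwo_norm φ a
    have hp2 : ‖∑ n ∈ range (b - a), ei (φ (a + n))‖ ≤ 9 / θ := by
      apply kusmin (fun n => φ (a + n)) (b - a) m θ hθ hθ1
      · intro n hn
        show 2 * Real.pi * m + θ ≤ φ (a + (n + 1)) - φ (a + n) ∧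
          φ (a + (n + 1)) - φ (a + n) ≤ 2 * Real.pi * (m + 1) - θ
        rw [← add_assoc]
        have e1 := hb1 (a + n) (by omega)
        refine ⟨?_, e1.2.le⟩
        have e2 : 2 * Real.pi * m + θ ≤ φ (a + 1) - φ a := by
          by_contra hcon
          exact ha2 ⟨by omega, not_le.mp hcon⟩
        have e3 := VdcTwo_mono h (Nat.le_add_right a n) e1.1
        have e4 : 0 ≤ lam * (((a + n : ℕ) : ℝ) - a) := by
          push_cast
          rw [add_sub_cancel_left]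
          positivity
        linarith
      · intro n hn
        show φ (a + (n + 1)) - φ (a + n) ≤ φ (a + (n + 2)) - φ (a + (n + 1))
        have e1 := hb1 (a + n + 1) (by omega)
        have e2 := h (a + n) (by omega)
        have e3 : a + (n + 1) = a + n + 1 := by ring
        have e4 : a + (n + 2) = a + n + 2 := by ring
        rw [e3, e4]
        linarith
    have hp3 : ‖∑ n ∈ range (I - b), ei (φ (b + n))‖ ≤
        k * (2 * θ / lam + 1 + 9 / θ) + 1 := by
      apply ih (fun n => φ (b + n)) (I - b) (m + 1)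
      · intro n hn
        have e2 := h (b + n) (by omega)
        exact e2
      · intro n hn
        show 2 * Real.pi * ((m + 1 : ℤ) : ℝ) - θ ≤ φ (b + (n + 1)) - φ (b + n)
        rw [← add_assoc]
        have e1 : 2 * Real.pi * (m + 1) - θ ≤ φ (b + 1) - φ b := by
          by_contra hcon
          exact hb2 ⟨by omega, not_le.mp hcon⟩
        have e3 := VdcTwo_mono h (Nat.le_add_right b n) (by omega)
        have e4 : 0 ≤ lam * (((b + n : ℕ) : ℝ) - b) := by
          push_cast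
          rw [add_sub_cancel_left]
          positivity
        push_cast
        linarith
      · intro n hn
        show φ (b + (n + 1)) - φ (b + n) < 2 * Real.pi * (((m + 1 : ℤ) : ℝ) + k) - θ
        rw [← add_assoc]
        have e1 := h2 (b + n) (by omega)
        push_cast at e1 ⊢
        have e2 : (m : ℝ) + 1 + k = m + (k + 1) := by ring
        rw [e2]
        exact e1
    rw [hsplit1, hsplit2]
    have hn1 := norm_add_le (∑ n ∈ range a, ei (φ n) + ∑ n ∈ range (b - a), ei (φ (a + n)))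
      (∑ n ∈ range (I - b), ei (φ (b + n)))
    have hn2 := norm_add_le (∑ n ∈ range a, ei (φ n)) (∑ n ∈ range (b - a), ei (φ (a + n)))
    push_cast
    linarith

theorem vdc_two (φ : ℕ → ℝ) (I : ℕ) (lam α : ℝ) (hlam : 0 < lam) (hlam1 : lam ≤ 1) (hα : 1 ≤ α)
    (h : ∀ n, n + 2 < I → lam ≤ dif 2 φ n ∧ dif 2 φ n ≤ α * lam) :
    ‖∑ n ∈ range I, ei (φ n)‖ ≤ 100 * (α * I * Real.sqrt lam + 1 / Real.sqrt lam) := by
  have hdif : ∀ n, dif 2 φ n = (φ (n + 2) - φ (n + 1)) - (φ (n + 1) - φ n) := fun n => rfl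
  have hpi := Real.pi_gt_three
  set θ := Real.sqrt lam with hθd
  have hθ : 0 < θ := Real.sqrt_pos.mpr hlam
  have hθ1 : θ ≤ 1 := Real.sqrt_le_one.mpr hlam1
  have hθ2 : θ * θ = lam := Real.mul_self_sqrt hlam.le
  set d0 := φ 1 - φ 0 with hd0
  set m : ℤ := ⌊(d0 + θ) / (2 * Real.pi)⌋ with hm
  have h2pi : 0 < 2 * Real.pi := by positivity
  have hm1 : 2 * Real.pi * m - θ ≤ d0 := by
    have e1 : (m : ℝ) ≤ (d0 + θ) / (2 * Real.pi) := Int.floor_le _
    rw [le_div_iff₀ h2pi] at e1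
    linarith
  have hm2 : d0 < 2 * Real.pi * (m + 1) - θ := by
    have e1 : (d0 + θ) / (2 * Real.pi) < (m : ℝ) + 1 := Int.lt_floor_add_one _
    rw [div_lt_iff₀ h2pi] at e1
    linarith
  have hlo : ∀ n, n + 2 < I → lam ≤ (φ (n + 2) - φ (n + 1)) - (φ (n + 1) - φ n) := by
    intro n hn
    rw [← hdif]
    exact (h n hn).1
  have hup : ∀ n, n + 1 < I → φ (n + 1) - φ n ≤ d0 + α * lam * n := by
    intro n
    induction n with
    | zero => intro _; simp [hd0]
    | succ n ih =>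
      intro hn
      have e1 := ih (by omega)
      have e2 := (h n (by omega)).2
      rw [hdif] at e2
      push_cast
      have e3 : n + 1 + 1 = n + 2 := rfl
      rw [e3]
      linarith
  set x := α * lam * I / (2 * Real.pi) with hx
  have hαl : 0 < α * lam := by positivity
  have hx0 : 0 ≤ x := by positivity
  set k := 1 + ⌈x⌉₊ with hk
  have hk1 : (k : ℝ) ≤ 2 + x := by
    have := (Nat.ceil_lt_add_one hx0).le
    rw [hk]
    push_cast
    linarith
  have hk2 : 1 + x ≤ (k : ℝ) := by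
    have := Nat.le_ceil x
    rw [hk]
    push_cast
    linarith
  have key := VdcTwo_ind hθ (by linarith) hlam k φ I m hlo
    (by
      intro n hn
      have e1 := VdcTwo_mono hlo (Nat.zero_le n) hn
      have e2 : 0 ≤ lam * ((n : ℝ) - ((0 : ℕ) : ℝ)) := by
        push_cast
        rw [sub_zero]
        positivity
      have e3 : φ (0 + 1) - φ 0 = d0 := rfl
      rw [e3] at e1
      linarith)
    (by
      intro n hn
      have e1 := hup n hn
      have e2 : α * lam * n ≤ α * lam * I := by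
        apply mul_le_mul_of_nonneg_left _ hαl.le
        exact_mod_cast (by omega : n ≤ I)
      have e3 : 2 * Real.pi * x = α * lam * I := by
        rw [hx]
        field_simp
      have e4 : 2 * Real.pi * (m + (1 + x)) ≤ 2 * Real.pi * (m + k) :=
        mul_le_mul_of_nonneg_left (by linarith) h2pi.le
      have e5 : 2 * Real.pi * (m + (1 + x)) = 2 * Real.pi * (m + 1) + 2 * Real.pi * x := by ring
      linarith)
  have hθinv : 1 ≤ 1 / θ := by
    rw [le_div_iff₀ hθ]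
    linarith
  have hB : 2 * θ / lam + 1 + 9 / θ ≤ 12 * (1 / θ) := by
    have e1 : 2 * θ / lam = 2 * (1 / θ) := by
      rw [← hθ2]
      field_simp
    have e2 : 9 / θ = 9 * (1 / θ) := by ring
    rw [e1, e2]
    linarith
  have hxθ : x * (1 / θ) ≤ α * I * θ / 6 := by
    have e1 : x * (1 / θ) = α * I * θ / (2 * Real.pi) := by
      rw [hx, ← hθ2]
      field_simp
    rw [e1]
    apply div_le_div_of_nonneg_left (by positivity) (by norm_num)
    linarith
  have hB0 : 0 ≤ 2 * θ / lam + 1 + 9 / θ := by positivity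
  have e1 : (k : ℝ) * (2 * θ / lam + 1 + 9 / θ) ≤ (2 + x) * (12 * (1 / θ)) :=
    mul_le_mul hk1 hB hB0 (by linarith)
  have e2 : (2 + x) * (12 * (1 / θ)) = 24 * (1 / θ) + 12 * (x * (1 / θ)) := by ring
  have e3 : 0 ≤ α * I * θ := by positivity
  linarith

end Pool.Agent.H87T

end

section

/-!
# PSI Ker: the kernel `∑_{n ≤ M} n^{2 π i u}`

`|∑_{n ≤ M} ee(u log n)| ≤ C log X (M/(1+|u|) + √|u|)` for `M ≤ X`, `X ≥ 3`.
`|u| ≤ 1`: trivial.  `|u| ≥ 1` (conjugation: `u ≥ 1` or `u ≤ -1` as convenient): split `[1, M]` into `≤ 2 log X + 1` dyadic pieces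
`(N, min(2N, M)]`, `N = 2^i`.  If `|u| ≥ N/10`: second derivative test `Pool.Agent.H87T.vdc_two`
(`Pool/Agent/H87T/VdcTwo.lean`) for `φ(n) = -2π|u| log(N + 1 + n)` (second differences between `c |u|/N^2` and
`C |u|/N^2`; if `2π|u| ≥ N^2` the trivial bound `N ≤ √(2π|u|)` is enough): `≤ C √|u|`.  If `|u| < N/10`: Kuz'min-Landau
`Pool.Agent.H87T.kusmin` with `θ = c|u|/N`: `≤ C N/|u|`.
-/

set_option autoImplicit false

namespace Pool.Agent.H88.PSI

open Finset
open Pool.Agent.H91.PK (ee)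

private theorem Ker_ee (t : ℝ) : ee t = Pool.Agent.H87T.ei (2 * Real.pi * t) := by
  unfold Pool.Agent.H91.PK.ee Pool.Agent.H87T.ei
  congr 1
  push_cast
  ring

private theorem Ker_norm (t : ℝ) : ‖ee t‖ = 1 := by
  rw [Ker_ee]
  unfold Pool.Agent.H87T.ei
  exact Complex.norm_exp_ofReal_mul_I _

private theorem Ker_conj (t : ℝ) : (starRingEnd ℂ) (ee t) = ee (-t) := by
  unfold Pool.Agent.H91.PK.ee
  rw [← Complex.exp_conj]
  congr 1
  simp only [map_mul, Complex.conj_ofReal, Complex.conj_I, map_ofNat]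
  push_cast
  ring

private theorem Ker_log1 {a : ℝ} (ha : 0 < a) :
    1 / (a + 1) ≤ Real.log (a + 1) - Real.log a ∧ Real.log (a + 1) - Real.log a ≤ 1 / a := by
  rw [← Real.log_div (by linarith) ha.ne']
  have hx : 0 < (a + 1) / a := by positivity
  constructor
  · have h := Real.one_sub_inv_le_log_of_pos hx
    have e : 1 - ((a + 1) / a)⁻¹ = 1 / (a + 1) := by
      field_simp
      ring
    rwa [e] at h
  · have h := Real.log_le_sub_one_of_pos hx
    have e : (a + 1) / a - 1 = 1 / a := by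
      field_simp
      ring
    rwa [e] at h

private theorem Ker_log2 {a : ℝ} (ha : 0 < a) :
    1 / (a + 1) ^ 2 ≤ 2 * Real.log (a + 1) - Real.log a - Real.log (a + 2) ∧
      2 * Real.log (a + 1) - Real.log a - Real.log (a + 2) ≤ 1 / (a * (a + 2)) := by
  have e0 : 2 * Real.log (a + 1) - Real.log a - Real.log (a + 2) =
      Real.log ((a + 1) ^ 2 / (a * (a + 2))) := by
    rw [Real.log_div (by positivity) (by positivity), Real.log_pow,
      Real.log_mul ha.ne' (by positivity)]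
    push_cast
    ring
  rw [e0]
  have hx : 0 < (a + 1) ^ 2 / (a * (a + 2)) := by positivity
  constructor
  · have h := Real.one_sub_inv_le_log_of_pos hx
    have e : 1 - ((a + 1) ^ 2 / (a * (a + 2)))⁻¹ = 1 / (a + 1) ^ 2 := by
      field_simp
      ring
    rwa [e] at h
  · have h := Real.log_le_sub_one_of_pos hx
    have e : (a + 1) ^ 2 / (a * (a + 2)) - 1 = 1 / (a * (a + 2)) := by
      field_simp
      ring
    rwa [e] at h

/-- one block -/
private theorem Ker_block (N I : ℕ) (v : ℝ) (hN : 1 ≤ N) (hI : I ≤ 2 * N) (hv : 1 ≤ v) :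
    ‖∑ j ∈ range I, ee (-(v * Real.log ((N + 1 + j : ℕ) : ℝ)))‖ ≤
      4000 * (N / (1 + v) + Real.sqrt v) := by
  have hpi := Real.pi_pos
  have hpi3 := Real.pi_gt_three
  have hpi4 := Real.pi_lt_four
  have hv0 : 0 < v := by linarith
  have hNR : (1 : ℝ) ≤ N := by exact_mod_cast hN
  have hsv : 1 ≤ Real.sqrt v := Real.one_le_sqrt.mpr hv
  have hsvv : Real.sqrt v * Real.sqrt v = v := Real.mul_self_sqrt hv0.le
  set φ : ℕ → ℝ := fun j => 2 * Real.pi * (-(v * Real.log ((N + 1 + j : ℕ) : ℝ))) with hφ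
  have hsum : ∑ j ∈ range I, ee (-(v * Real.log ((N + 1 + j : ℕ) : ℝ))) =
      ∑ j ∈ range I, Pool.Agent.H87T.ei (φ j) := Finset.sum_congr rfl fun j _ => Ker_ee _
  rw [hsum]
  have hcast : ∀ j : ℕ, ((N + 1 + j : ℕ) : ℝ) = (N : ℝ) + 1 + j := fun j => by push_cast; ring
  -- first differences
  have hd1 : ∀ n : ℕ, φ (n + 1) - φ n =
      -(2 * Real.pi * v * (Real.log ((N : ℝ) + 1 + n + 1) - Real.log ((N : ℝ) + 1 + n))) := by
    intro n
    simp only [hφ, hcast]
    push_cast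
    rw [show (N : ℝ) + 1 + ((n : ℝ) + 1) = (N : ℝ) + 1 + n + 1 by ring]
    ring
  have hd2 : ∀ n : ℕ, (φ (n + 2) - φ (n + 1)) - (φ (n + 1) - φ n) =
      2 * Real.pi * v * (2 * Real.log ((N : ℝ) + 1 + n + 1) - Real.log ((N : ℝ) + 1 + n) -
        Real.log ((N : ℝ) + 1 + n + 2)) := by
    intro n
    have h1 := hd1 n
    have h2 := hd1 (n + 1)
    rw [show n + 1 + 1 = n + 2 from rfl] at h2
    rw [h1, h2]
    push_cast
    rw [show (N : ℝ) + 1 + ((n : ℝ) + 1) + 1 = (N : ℝ) + 1 + n + 2 by ring,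
      show (N : ℝ) + 1 + ((n : ℝ) + 1) = (N : ℝ) + 1 + n + 1 by ring]
    ring
  have hapos : ∀ n : ℕ, (0 : ℝ) < (N : ℝ) + 1 + n := fun n => by positivity
  have hIR : (I : ℝ) ≤ 2 * N := by exact_mod_cast hI
  have htriv : ‖∑ j ∈ range I, Pool.Agent.H87T.ei (φ j)‖ ≤ 2 * N := by
    refine (norm_sum_le _ _).trans ?_
    have : ∀ j ∈ range I, ‖Pool.Agent.H87T.ei (φ j)‖ = 1 := fun j _ => by
      unfold Pool.Agent.H87T.ei
      exact Complex.norm_exp_ofReal_mul_I _
    rw [Finset.sum_congr rfl this, Finset.sum_const, Finset.card_range, nsmul_eq_mul, mul_one]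
    exact hIR
  have hq : 0 ≤ (N : ℝ) / (1 + v) := by positivity
  rcases lt_or_ge (10 * v) N with hcase | hcase
  · -- Kusmin - Landau
    have hk := Pool.Agent.H87T.kusmin φ I (-1) (2 * Real.pi * v / (3 * N)) (by positivity)
      (by
        rw [div_le_iff₀ (by positivity)]
        nlinarith)
      (by
        intro n hn
        have hn' : (n : ℝ) + 1 + 1 ≤ I := by exact_mod_cast hn
        obtain ⟨g1, g2⟩ := Ker_log1 (hapos n)
        have hn0 : (0 : ℝ) ≤ n := Nat.cast_nonneg n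
        rw [hd1]
        have u1 : Real.log ((N : ℝ) + 1 + n + 1) - Real.log ((N : ℝ) + 1 + n) ≤ 1 / N := by
          refine g2.trans ?_
          exact one_div_le_one_div_of_le (by linarith) (by linarith)
        have u2 : 1 / (3 * (N : ℝ)) ≤
            Real.log ((N : ℝ) + 1 + n + 1) - Real.log ((N : ℝ) + 1 + n) := by
          refine le_trans ?_ g1
          exact one_div_le_one_div_of_le (by linarith) (by linarith)
        have hpv : 0 < 2 * Real.pi * v := by positivity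
        have w1 := mul_le_mul_of_nonneg_left u1 hpv.le
        have w2 := mul_le_mul_of_nonneg_left u2 hpv.le
        have e1 : 2 * Real.pi * v * (1 / (3 * (N : ℝ))) = 2 * Real.pi * v / (3 * N) := by ring
        rw [e1] at w2
        constructor
        · push_cast
          have e2 : 2 * Real.pi * v * (1 / (N : ℝ)) + 2 * Real.pi * v / (3 * N) ≤
              2 * Real.pi := by
            have e3 : 2 * Real.pi * v * (1 / (N : ℝ)) + 2 * Real.pi * v / (3 * N) =
                2 * Real.pi * ((4 / 3) * v / N) := by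
              field_simp
              ring
            rw [e3]
            have e4 : (4 / 3) * v / N ≤ 1 := by
              rw [div_le_one (by linarith)]
              linarith
            nlinarith
          linarith
        · push_cast
          linarith)
      (by
        intro n hn
        have h1 := hd2 n
        have h2 := (Ker_log2 (hapos n)).1
        have h3 : (0 : ℝ) ≤ 1 / ((N : ℝ) + 1 + n + 1) ^ 2 := by positivity
        have h4 : 0 ≤ 2 * Real.pi * v * (2 * Real.log ((N : ℝ) + 1 + n + 1) -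
            Real.log ((N : ℝ) + 1 + n) - Real.log ((N : ℝ) + 1 + n + 2)) :=
          mul_nonneg (by positivity) (h3.trans h2)
        linarith)
    refine hk.trans ?_
    have e1 : 9 / (2 * Real.pi * v / (3 * (N : ℝ))) = (27 / (2 * Real.pi)) * (N / v) := by
      field_simp
      ring
    rw [e1]
    have e2 : (N : ℝ) / v ≤ 2 * (N / (1 + v)) := by
      rw [div_le_iff₀ hv0, mul_comm 2, mul_assoc, div_mul_eq_mul_div, le_div_iff₀ (by linarith)]
      nlinarith
    have e3 : 27 / (2 * Real.pi) ≤ 9 := by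
      rw [div_le_iff₀ (by positivity)]
      nlinarith
    have e4 : (0 : ℝ) ≤ N / v := by positivity
    have e5 : (27 / (2 * Real.pi)) * ((N : ℝ) / v) ≤ 9 * (2 * (N / (1 + v))) :=
      mul_le_mul e3 e2 e4 (by norm_num)
    have : 0 ≤ Real.sqrt v := by linarith
    nlinarith
  · rcases lt_or_ge (9 * (N : ℝ) ^ 2) (2 * Real.pi * v) with hc2 | hc2
    · -- trivial bound
      have h1 : (N : ℝ) ≤ Real.sqrt v := by
        apply Real.le_sqrt_of_sq_le
        nlinarith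
      nlinarith
    · -- second derivative test
      have hN2 : (0 : ℝ) < 9 * (N : ℝ) ^ 2 := by positivity
      set lam : ℝ := 2 * Real.pi * v / (9 * N ^ 2) with hlam
      have hlam0 : 0 < lam := by positivity
      have hv2 := Pool.Agent.H87T.vdc_two φ I lam 9 hlam0
        (by rw [hlam, div_le_one hN2]; exact hc2) (by norm_num)
        (by
          intro n hn
          have hn' : (n : ℝ) + 2 + 1 ≤ I := by exact_mod_cast hn
          have hn0 : (0 : ℝ) ≤ n := Nat.cast_nonneg n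
          have e0 : Pool.Agent.H87T.dif 2 φ n = (φ (n + 2) - φ (n + 1)) - (φ (n + 1) - φ n) := rfl
          rw [e0, hd2]
          obtain ⟨g1, g2⟩ := Ker_log2 (hapos n)
          have u1 : 1 / (9 * (N : ℝ) ^ 2) ≤ 2 * Real.log ((N : ℝ) + 1 + n + 1) -
              Real.log ((N : ℝ) + 1 + n) - Real.log ((N : ℝ) + 1 + n + 2) := by
            refine le_trans ?_ g1
            apply one_div_le_one_div_of_le (by positivity)
            have : (N : ℝ) + 1 + n + 1 ≤ 3 * N := by linarith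
            calc ((N : ℝ) + 1 + n + 1) ^ 2 ≤ (3 * N) ^ 2 :=
                  pow_le_pow_left₀ (by positivity) this 2
              _ = 9 * (N : ℝ) ^ 2 := by ring
          have u2 : 2 * Real.log ((N : ℝ) + 1 + n + 1) -
              Real.log ((N : ℝ) + 1 + n) - Real.log ((N : ℝ) + 1 + n + 2) ≤ 1 / (N : ℝ) ^ 2 := by
            refine g2.trans ?_
            apply one_div_le_one_div_of_le (by positivity)
            nlinarith
          have hpv : 0 < 2 * Real.pi * v := by positivity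
          have w1 := mul_le_mul_of_nonneg_left u1 hpv.le
          have w2 := mul_le_mul_of_nonneg_left u2 hpv.le
          constructor
          · rw [hlam]
            refine le_trans (le_of_eq ?_) w1
            ring
          · refine w2.trans (le_of_eq ?_)
            rw [hlam]
            field_simp)
      refine hv2.trans ?_
      -- `√lam = √(2 π v)/(3 N)`
      have hs : Real.sqrt lam = Real.sqrt (2 * Real.pi) * Real.sqrt v / (3 * N) := by
        rw [hlam, Real.sqrt_div (by positivity), Real.sqrt_mul (by positivity)]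
        congr 1
        rw [show (9 : ℝ) * (N : ℝ) ^ 2 = (3 * N) ^ 2 by ring]
        exact Real.sqrt_sq (by positivity)
      have hs2 : Real.sqrt (2 * Real.pi) ≤ 3 := by
        rw [Real.sqrt_le_left (by norm_num)]
        linarith
      have hs1 : 2 ≤ Real.sqrt (2 * Real.pi) := by
        apply Real.le_sqrt_of_sq_le
        linarith
      have hs0 : 0 < Real.sqrt (2 * Real.pi) := by linarith
      have hsv0 : 0 < Real.sqrt v := by linarith
      have k1 : 9 * (I : ℝ) * Real.sqrt lam ≤ 18 * Real.sqrt v := by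
        rw [hs]
        calc 9 * (I : ℝ) * (Real.sqrt (2 * Real.pi) * Real.sqrt v / (3 * N)) ≤
            9 * (2 * N) * (3 * Real.sqrt v / (3 * N)) := by
              apply mul_le_mul _ _ (by positivity) (by positivity)
              · linarith
              · apply div_le_div_of_nonneg_right _ (by positivity)
                exact mul_le_mul_of_nonneg_right hs2 hsv0.le
          _ = 18 * Real.sqrt v := by
              field_simp
              ring
      have k2 : 1 / Real.sqrt lam ≤ 15 * Real.sqrt v := by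
        rw [hs, one_div_div, div_le_iff₀ (by positivity)]
        have : 3 * (N : ℝ) ≤ 30 * v := by linarith
        calc 3 * (N : ℝ) ≤ 30 * v := this
          _ = 15 * Real.sqrt v * (2 * Real.sqrt v) := by
              rw [show 15 * Real.sqrt v * (2 * Real.sqrt v) =
                30 * (Real.sqrt v * Real.sqrt v) by ring, hsvv]
          _ ≤ 15 * Real.sqrt v * (Real.sqrt (2 * Real.pi) * Real.sqrt v) := by
              apply mul_le_mul_of_nonneg_left _ (by positivity)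
              exact mul_le_mul_of_nonneg_right hs1 hsv0.le
      have k4 : (100 : ℝ) * (9 * I * Real.sqrt lam + 1 / Real.sqrt lam) ≤
          100 * (18 * Real.sqrt v + 15 * Real.sqrt v) := by linarith
      linarith

/-- the dyadic induction -/
private theorem Ker_ind (v : ℝ) (hv : 1 ≤ v) (M : ℕ) (hM : 1 ≤ M) :
    ‖∑ n ∈ Icc 1 M, ee (-(v * Real.log n))‖ ≤
      4000 * M / (1 + v) + 4000 * (Nat.log 2 M) * Real.sqrt v + 1 := by
  induction M using Nat.strong_induction_on with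
  | _ M ih =>
    have hsv : 1 ≤ Real.sqrt v := Real.one_le_sqrt.mpr hv
    rcases Nat.lt_or_ge M 2 with h | h
    · have h1 : M = 1 := by omega
      subst h1
      rw [Finset.Icc_self, Finset.sum_singleton, Ker_norm]
      have : 0 ≤ 4000 * ((1 : ℕ) : ℝ) / (1 + v) := by positivity
      have h2 : 0 ≤ 4000 * ((Nat.log 2 1 : ℕ) : ℝ) * Real.sqrt v := by positivity
      linarith
    · obtain ⟨K, hK⟩ : ∃ K, K = M / 2 := ⟨_, rfl⟩
      have hK1 : 1 ≤ K := by omega
      have ih' := ih K (by omega) hK1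
      have hb := Ker_block K (M - K) v hK1 (by omega) hv
      have hsplit : ∑ n ∈ Icc 1 M, ee (-(v * Real.log n)) =
          ∑ n ∈ Icc 1 K, ee (-(v * Real.log n)) +
            ∑ j ∈ range (M - K), ee (-(v * Real.log ((K + 1 + j : ℕ) : ℝ))) := by
        have h1 : Icc 1 M = Ico 1 (M + 1) := by ext n; simp only [mem_Icc, mem_Ico]; omega
        have h2 : Icc 1 K = Ico 1 (K + 1) := by ext n; simp only [mem_Icc, mem_Ico]; omega
        rw [h1, h2, ← Finset.sum_Ico_consecutive _ (show 1 ≤ K + 1 by omega)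
          (show K + 1 ≤ M + 1 by omega)]
        congr 1
        rw [Finset.sum_Ico_eq_sum_range]
        have h3 : M + 1 - (K + 1) = M - K := by omega
        rw [h3]
      rw [hsplit]
      refine (norm_add_le _ _).trans ((add_le_add ih' hb).trans ?_)
      have hlog : Nat.log 2 M = Nat.log 2 K + 1 := by
        rw [hK, Nat.log_div_base]
        have : 1 ≤ Nat.log 2 M := Nat.log_pos (by norm_num) h
        omega
      have hKM : 2 * (K : ℝ) ≤ M := by
        have : 2 * K ≤ M := by omega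
        exact_mod_cast this
      rw [hlog]
      push_cast
      have h5 : 4000 * (K : ℝ) / (1 + v) + 4000 * (K / (1 + v)) ≤ 4000 * M / (1 + v) := by
        have : 4000 * (K : ℝ) / (1 + v) + 4000 * (K / (1 + v)) = 4000 * (2 * K) / (1 + v) := by
          ring
        rw [this]
        exact div_le_div_of_nonneg_right (by linarith) (by linarith)
      linarith

theorem ker : ∃ C : ℝ, 1 ≤ C ∧ ∀ (X M : ℕ) (u : ℝ), 3 ≤ X → M ≤ X →
    ‖∑ n ∈ Icc 1 M, ee (u * Real.log n)‖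
      ≤ C * Real.log X * (M / (1 + |u|) + Real.sqrt |u|) := by
  refine ⟨10000, by norm_num, fun X M u hX hMX => ?_⟩
  have hXR : (3 : ℝ) ≤ X := by exact_mod_cast hX
  have hlogX : 1 ≤ Real.log X := by
    rw [Real.le_log_iff_exp_le (by linarith)]
    exact (Real.exp_one_lt_d9.le.trans (by norm_num)).trans hXR
  have hM0 : (0 : ℝ) ≤ M := Nat.cast_nonneg M
  have hu0 := abs_nonneg u
  have hsu := Real.sqrt_nonneg |u|
  have hq : 0 ≤ (M : ℝ) / (1 + |u|) := by positivity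
  rcases lt_or_ge |u| 1 with hu | hu
  · -- trivial
    have h1 : ‖∑ n ∈ Icc 1 M, ee (u * Real.log n)‖ ≤ M := by
      refine (norm_sum_le _ _).trans ?_
      rw [Finset.sum_congr rfl fun n _ => Ker_norm _, Finset.sum_const, Nat.card_Icc,
        nsmul_eq_mul, mul_one]
      simp
    have h2 : (M : ℝ) ≤ 2 * (M / (1 + |u|)) := by
      rw [mul_div_assoc', le_div_iff₀ (by linarith)]
      nlinarith
    calc ‖∑ n ∈ Icc 1 M, ee (u * Real.log n)‖ ≤ M := h1
      _ ≤ 2 * (M / (1 + |u|)) := h2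
      _ ≤ 10000 * Real.log X * (M / (1 + |u|)) := by
          apply mul_le_mul_of_nonneg_right _ hq
          linarith
      _ ≤ 10000 * Real.log X * (M / (1 + |u|) + Real.sqrt |u|) := by
          apply mul_le_mul_of_nonneg_left _ (by positivity)
          linarith
  · rcases Nat.eq_zero_or_pos M with h0 | hM1
    · subst h0
      simp only [Finset.Icc_eq_empty_of_lt (show 0 < 1 by norm_num), Finset.sum_empty, norm_zero]
      positivity
    -- reduction to `-|u|`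
    have hred : ‖∑ n ∈ Icc 1 M, ee (u * Real.log n)‖ =
        ‖∑ n ∈ Icc 1 M, ee (-(|u| * Real.log n))‖ := by
      rcases le_or_gt 0 u with hu1 | hu1
      · rw [abs_of_nonneg hu1, ← RCLike.norm_conj, map_sum]
        congr 1
        exact Finset.sum_congr rfl fun n _ => Ker_conj _
      · rw [abs_of_neg hu1]
        congr 1
        refine Finset.sum_congr rfl fun n _ => ?_
        congr 1
        ring
    rw [hred]
    refine (Ker_ind |u| hu M hM1).trans ?_
    have hsv : 1 ≤ Real.sqrt |u| := Real.one_le_sqrt.mpr hu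
    have hlogM : (Nat.log 2 M : ℝ) ≤ 2 * Real.log X := by
      have h1 : (2 : ℝ) ^ Nat.log 2 M ≤ X := by
        have h2 : 2 ^ Nat.log 2 M ≤ M := Nat.pow_log_le_self 2 (by omega)
        exact_mod_cast h2.trans hMX
      have h3 : (Nat.log 2 M : ℝ) * Real.log 2 ≤ Real.log X := by
        rw [← Real.log_pow]
        exact Real.log_le_log (by positivity) h1
      have h4 : (1 / 2 : ℝ) ≤ Real.log 2 := by
        have := Real.log_two_gt_d9
        linarith
      have h5 : (0 : ℝ) ≤ Nat.log 2 M := Nat.cast_nonneg _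
      nlinarith
    have k1 : 4000 * (M : ℝ) / (1 + |u|) ≤ 10000 * Real.log X * (M / (1 + |u|)) := by
      have : 4000 * (M : ℝ) / (1 + |u|) = 4000 * (M / (1 + |u|)) := by ring
      rw [this]
      apply mul_le_mul_of_nonneg_right _ hq
      linarith
    have k2 : 4000 * (Nat.log 2 M : ℝ) * Real.sqrt |u| ≤
        8000 * Real.log X * Real.sqrt |u| := by
      apply mul_le_mul_of_nonneg_right _ hsu
      linarith
    have k3 : 1 ≤ 2000 * Real.log X * Real.sqrt |u| := by nlinarith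
    have k4 : 10000 * Real.log X * (M / (1 + |u|) + Real.sqrt |u|) =
        10000 * Real.log X * (M / (1 + |u|)) + (8000 * Real.log X * Real.sqrt |u| +
          2000 * Real.log X * Real.sqrt |u|) := by ring
    rw [k4]
    linarith

end Pool.Agent.H88.PSI

end

section

/-!
# PSI Chi: from characters to a residue class

`φ(d) cl d u f n = ∑_χ χ(u⁻¹) tw χ f n` for `(u, d) = 1` (orthogonality, cf. `VkClass_orth` in `Pool/Agent/H97/VK/VkClass.lean` or `swk1_orth`), `D` is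
linear, Cauchy-Schwarz: `|D(cl)|^2 ≤ (1/φ(d)) ∑_χ |D(tw χ f)|^2`.
-/

set_option autoImplicit false

namespace Pool.Agent.H88.PSI

open Finset

private theorem Chi_sum {ι : Type*} (s : Finset ι) (f : ι → ℕ → ℂ) (H H1 x : ℕ) :
    D (fun n => ∑ i ∈ s, f i n) H H1 x = ∑ i ∈ s, D (f i) H H1 x := by
  unfold D W
  rw [sum_sub_distrib, sum_comm, sum_div, sum_comm (s := Ioc x (x + H1)), sum_div]

private theorem Chi_smul (c : ℂ) (f : ℕ → ℂ) (H H1 x : ℕ) :
    D (fun n => c * f n) H H1 x = c * D f H H1 x := by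
  unfold D W
  rw [← mul_sum, ← mul_sum]
  ring

private theorem Chi_orth (f : ArithmeticFunction ℝ) {d u : ℕ} (hd : 1 ≤ d) (hu : Nat.Coprime u d)
    (n : ℕ) : (d.totient : ℂ) * cl d u f n =
      ∑ χ : DirichletCharacter ℂ d, χ ((u : ZMod d)⁻¹) * tw χ f n := by
  have : NeZero d := ⟨by omega⟩
  have hun : IsUnit (u : ZMod d) := (ZMod.isUnit_iff_coprime u d).mpr hu
  have h1 : ∀ χ : DirichletCharacter ℂ d,
      χ ((u : ZMod d)⁻¹) * tw χ f n = (χ ((u : ZMod d)⁻¹) * χ (n : ZMod d)) * ((f n : ℝ) : ℂ) := by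
    intro χ
    show χ ((u : ZMod d)⁻¹) * (((f n : ℝ) : ℂ) * χ (n : ZMod d)) = _
    ring
  simp only [h1]
  rw [← sum_mul, DirichletCharacter.sum_char_inv_mul_char_eq ℂ hun]
  have hiff : ((u : ZMod d) = (n : ZMod d)) ↔ n % d = u % d := by
    rw [eq_comm]
    exact ZMod.natCast_eq_natCast_iff' n u d
  unfold cl
  by_cases h : n % d = u % d
  · rw [if_pos h, if_pos (hiff.mpr h)]
  · rw [if_neg h, if_neg (fun h' => h (hiff.mp h')), mul_zero, zero_mul]

private theorem Chi_norm {d : ℕ} (χ : DirichletCharacter ℂ d) (a : ZMod d) : ‖χ a‖ ≤ 1 :=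
  DirichletCharacter.norm_le_one χ a

private theorem Chi_pt (f : ArithmeticFunction ℝ) {d u : ℕ} (H H1 x : ℕ) (hd : 1 ≤ d)
    (hu : Nat.Coprime u d) :
    (d.totient : ℝ) * ‖D (cl d u f) H H1 x‖ ^ 2 ≤
      ∑ χ : DirichletCharacter ℂ d, ‖D (tw χ f) H H1 x‖ ^ 2 := by
  have hne : NeZero d := ⟨by omega⟩
  have hφ : (0 : ℝ) < d.totient := by exact_mod_cast Nat.totient_pos.2 hd
  have h1 : (d.totient : ℂ) * D (cl d u f) H H1 x =
      ∑ χ : DirichletCharacter ℂ d, χ ((u : ZMod d)⁻¹) * D (tw χ f) H H1 x := by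
    rw [← Chi_smul]
    have e : (fun n => (d.totient : ℂ) * cl d u f n) =
        fun n => ∑ χ : DirichletCharacter ℂ d, χ ((u : ZMod d)⁻¹) * tw χ f n :=
      funext (Chi_orth f hd hu)
    rw [e, Chi_sum]
    refine sum_congr rfl fun χ _ => ?_
    exact Chi_smul _ _ _ _ _
  have h2 : (d.totient : ℝ) * ‖D (cl d u f) H H1 x‖ ≤
      ∑ χ : DirichletCharacter ℂ d, ‖D (tw χ f) H H1 x‖ := by
    have e : (d.totient : ℝ) * ‖D (cl d u f) H H1 x‖ =
        ‖(d.totient : ℂ) * D (cl d u f) H H1 x‖ := by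
      rw [norm_mul, Complex.norm_natCast]
    rw [e, h1]
    refine (norm_sum_le _ _).trans (sum_le_sum fun χ _ => ?_)
    rw [norm_mul]
    exact mul_le_of_le_one_left (norm_nonneg _) (Chi_norm χ _)
  have hcard : ((univ : Finset (DirichletCharacter ℂ d)).card : ℝ) = d.totient := by
    rw [card_univ, ← Nat.card_eq_fintype_card,
      DirichletCharacter.card_eq_totient_of_hasEnoughRootsOfUnity ℂ d]
  have h3 : (∑ χ : DirichletCharacter ℂ d, ‖D (tw χ f) H H1 x‖) ^ 2 ≤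
      (d.totient : ℝ) * ∑ χ : DirichletCharacter ℂ d, ‖D (tw χ f) H H1 x‖ ^ 2 := by
    rw [← hcard]
    exact sq_sum_le_card_mul_sum_sq
  have h4 : ((d.totient : ℝ) * ‖D (cl d u f) H H1 x‖) ^ 2 ≤
      (∑ χ : DirichletCharacter ℂ d, ‖D (tw χ f) H H1 x‖) ^ 2 :=
    pow_le_pow_left₀ (by positivity) h2 2
  have h5 : (d.totient : ℝ) * ((d.totient : ℝ) * ‖D (cl d u f) H H1 x‖ ^ 2) ≤
      (d.totient : ℝ) * ∑ χ : DirichletCharacter ℂ d, ‖D (tw χ f) H H1 x‖ ^ 2 := by
    refine le_trans (le_of_eq ?_) (h4.trans h3)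
    ring
  exact le_of_mul_le_mul_left h5 hφ

theorem chi_cl (f : ArithmeticFunction ℝ) (d u H H1 : ℕ) (S : Finset ℕ) (E : ℝ) (hd : 1 ≤ d)
    (hu : Nat.Coprime u d)
    (h : ∀ χ : DirichletCharacter ℂ d, ∑ x ∈ S, ‖D (tw χ f) H H1 x‖ ^ 2 ≤ E) :
    ∑ x ∈ S, ‖D (cl d u f) H H1 x‖ ^ 2 ≤ E := by
  have hne : NeZero d := ⟨by omega⟩
  have hφ : (0 : ℝ) < d.totient := by exact_mod_cast Nat.totient_pos.2 hd
  have hcard : ((univ : Finset (DirichletCharacter ℂ d)).card : ℝ) = d.totient := by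
    rw [card_univ, ← Nat.card_eq_fintype_card,
      DirichletCharacter.card_eq_totient_of_hasEnoughRootsOfUnity ℂ d]
  have h1 : (d.totient : ℝ) * ∑ x ∈ S, ‖D (cl d u f) H H1 x‖ ^ 2 ≤ (d.totient : ℝ) * E := by
    rw [mul_sum]
    calc ∑ x ∈ S, (d.totient : ℝ) * ‖D (cl d u f) H H1 x‖ ^ 2
        ≤ ∑ x ∈ S, ∑ χ : DirichletCharacter ℂ d, ‖D (tw χ f) H H1 x‖ ^ 2 :=
          sum_le_sum fun x _ => Chi_pt f H H1 x hd hu
      _ = ∑ χ : DirichletCharacter ℂ d, ∑ x ∈ S, ‖D (tw χ f) H H1 x‖ ^ 2 := sum_comm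
      _ ≤ ∑ χ : DirichletCharacter ℂ d, E := sum_le_sum fun χ _ => h χ
      _ = (d.totient : ℝ) * E := by rw [sum_const, nsmul_eq_mul, hcard]
  exact le_of_mul_le_mul_left h1 hφ

/-- `D` is additive -/
theorem d_sum {ι : Type*} (s : Finset ι) (f : ι → ℕ → ℂ) (H H1 x : ℕ) :
    D (fun n => ∑ i ∈ s, f i n) H H1 x = ∑ i ∈ s, D (f i) H H1 x :=
  Chi_sum s f H H1 x

theorem d_smul (c : ℂ) (f : ℕ → ℂ) (H H1 x : ℕ) :
    D (fun n => c * f n) H H1 x = c * D f H H1 x :=
  Chi_smul c f H H1 x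

end Pool.Agent.H88.PSI

end

section

/-!
# PSI Edg: the cut in the smooth variable

`(hi 0 k * a)(n) = ∑_{m ∣ n, n/m ≥ k} a m`; for `m ≤ x/k` all multiples `n > x` of `m` have `n/m ≥ k`, for `m > (x+H)/k` none `≤ x + H` has;
`m ∣ n ≡ u (d)` forces `(m, d) = 1`.  A window of length `H` has `≤ H/m + 1` multiples of `m`.  `em_abs`: `(m, d) = 1`, the numbers divisible by `m` in the class `u`
form one class modulo `m d`.  `zone_sum`: `x/k < m ≤ (x+H)/k` iff `x < m k ≤ x + H`: for every `m` at most `H` values of `x`.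
-/

set_option autoImplicit false

namespace Pool.Agent.H88.PSI

open Finset

private theorem Edg_count (x H r v : ℕ) (hr : 1 ≤ r) :
    |(((Ioc x (x + H)).filter (fun n => n ≡ v [MOD r])).card : ℝ) - H / r| ≤ 1 := by
  have hr0 : (0 : ℚ) < r := by exact_mod_cast hr
  have h1 := Nat.Ioc_filter_modEq_card x (x + H) (r := r) hr v
  obtain ⟨A, hA⟩ : ∃ A : ℤ, A = ⌊(((x + H : ℕ) : ℚ) - v) / (r : ℚ)⌋ := ⟨_, rfl⟩
  obtain ⟨B, hB⟩ : ∃ B : ℤ, B = ⌊((x : ℚ) - v) / (r : ℚ)⌋ := ⟨_, rfl⟩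
  rw [← hA, ← hB] at h1
  have a1 := Int.floor_le ((((x + H : ℕ) : ℚ) - v) / (r : ℚ))
  have a2 := Int.lt_floor_add_one ((((x + H : ℕ) : ℚ) - v) / (r : ℚ))
  have b1 := Int.floor_le (((x : ℚ) - v) / (r : ℚ))
  have b2 := Int.lt_floor_add_one (((x : ℚ) - v) / (r : ℚ))
  rw [← hA] at a1 a2
  rw [← hB] at b1 b2
  have hsplit : (((x + H : ℕ) : ℚ) - v) / (r : ℚ) = ((x : ℚ) - v) / (r : ℚ) + (H : ℚ) / r := by
    push_cast
    ring
  have hH0 : (0 : ℚ) ≤ (H : ℚ) / r := div_nonneg (Nat.cast_nonneg _) hr0.le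
  have hAB : B ≤ A := by
    rw [hA, hB]
    apply Int.floor_le_floor
    rw [hsplit]
    linarith
  rw [max_eq_left (by omega)] at h1
  have h2 : ((((Ioc x (x + H)).filter (fun n => n ≡ v [MOD r])).card : ℕ) : ℚ) = (A : ℚ) - B := by
    exact_mod_cast h1
  have h3 : |((((Ioc x (x + H)).filter (fun n => n ≡ v [MOD r])).card : ℕ) : ℚ) - (H : ℚ) / r| ≤ 1 := by
    rw [h2, abs_le]
    constructor <;> linarith
  have h4 : ((|((((Ioc x (x + H)).filter (fun n => n ≡ v [MOD r])).card : ℕ) : ℚ) - (H : ℚ) / r| : ℚ) : ℝ) ≤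
      ((1 : ℚ) : ℝ) := by exact_mod_cast h3
  push_cast at h4
  exact h4

private theorem Edg_kf (k n : ℕ) : (hi 0 k : ArithmeticFunction ℝ) n = if n ≠ 0 ∧ k ≤ n then 1 else 0 := by
  show (if n ≠ 0 ∧ k ≤ n then kf 0 n else 0) = _
  unfold kf
  rw [if_pos rfl]

private theorem Edg_conv (a : ArithmeticFunction ℝ) (k n M : ℕ) (hk : 1 ≤ k) (hn : 1 ≤ n)
    (hM : n / k ≤ M) :
    (hi 0 k * a) n = ∑ m ∈ Icc 1 M, if m ∣ n ∧ k * m ≤ n then a m else 0 := by
  rw [ArithmeticFunction.mul_apply,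
    Nat.sum_divisorsAntidiagonal' (f := fun p q => (hi 0 k : ArithmeticFunction ℝ) p * a q)]
  have h1 : ∀ m ∈ n.divisors, (hi 0 k : ArithmeticFunction ℝ) (n / m) * a m =
      if m ∣ n ∧ k * m ≤ n then a m else 0 := by
    intro m hm
    have hmn := Nat.dvd_of_mem_divisors hm
    have hm0 : 0 < m := Nat.pos_of_mem_divisors hm
    have hnm : n / m ≠ 0 := by
      have := Nat.div_pos (Nat.le_of_dvd hn hmn) hm0
      omega
    rw [Edg_kf]
    by_cases h : k * m ≤ n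
    · rw [if_pos ⟨hnm, (Nat.le_div_iff_mul_le hm0).mpr h⟩, if_pos ⟨hmn, h⟩, one_mul]
    · rw [if_neg (fun h' => h ((Nat.le_div_iff_mul_le hm0).mp h'.2)), if_neg (fun h' => h h'.2),
        zero_mul]
  rw [Finset.sum_congr rfl h1, ← Finset.sum_filter, ← Finset.sum_filter]
  refine Finset.sum_congr ?_ fun _ _ => rfl
  ext m
  rw [mem_filter, mem_filter, Nat.mem_divisors, mem_Icc]
  constructor
  · rintro ⟨⟨h2, h3⟩, h4, h5⟩
    refine ⟨⟨Nat.pos_of_dvd_of_pos h2 hn, ?_⟩, h4, h5⟩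
    refine le_trans ?_ hM
    rw [Nat.le_div_iff_mul_le hk]
    rw [mul_comm]
    exact h5
  · rintro ⟨_, h4, h5⟩
    exact ⟨⟨h4, by omega⟩, h4, h5⟩

private theorem Edg_coprime {d u m n : ℕ} (hu : Nat.Coprime u d) (hmn : m ∣ n)
    (hn : n % d = u % d) : Nat.Coprime m d := by
  have h1 : Nat.gcd m d ∣ n := (Nat.gcd_dvd_left m d).trans hmn
  have h2 : Nat.gcd m d ∣ d := Nat.gcd_dvd_right m d
  have h3 : n ≡ u [MOD Nat.gcd m d] := Nat.ModEq.of_dvd h2 hn
  have h4 : Nat.gcd m d ∣ u := (Nat.ModEq.dvd_iff h3 dvd_rfl).mp h1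
  have h5 := Nat.dvd_gcd h4 h2
  rw [hu] at h5
  exact Nat.dvd_one.mp h5

private theorem Edg_mult (x H m : ℕ) (hm : 1 ≤ m) :
    (((Ioc x (x + H)).filter (fun n => m ∣ n)).card : ℝ) ≤ (H : ℝ) / m + 1 := by
  have h1 := (abs_le.mp (Edg_count x H m 0 hm)).2
  have h2 : (Ioc x (x + H)).filter (fun n => n ≡ 0 [MOD m]) =
      (Ioc x (x + H)).filter (fun n => m ∣ n) := by
    refine Finset.filter_congr fun n _ => Nat.modEq_zero_iff_dvd
  rw [h2] at h1
  linarith

theorem ti_edge (a : ArithmeticFunction ℝ) (d u H k x : ℕ) (hd : 1 ≤ d) (hk : 1 ≤ k)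
    (hu : Nat.Coprime u d) :
    ‖W (cl d u (hi 0 k * a)) H x
        - ((∑ m ∈ (Icc 1 (x / k)).filter (fun m => Nat.Coprime m d), a m * cnt d u H m x : ℝ) : ℂ)‖
      ≤ ∑ m ∈ Ioc (x / k) ((x + H) / k), |a m| * ((H : ℝ) / m + 1) := by
  have hxk : x / k ≤ (x + H) / k := Nat.div_le_div_right (Nat.le_add_right _ _)
  -- the counting function with the cut
  obtain ⟨C, hC⟩ : ∃ C : ℕ → ℝ, C = fun m : ℕ => (((Ioc x (x + H)).filter
      (fun n => n % d = u % d ∧ (m ∣ n ∧ k * m ≤ n))).card : ℝ) := ⟨_, rfl⟩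
  have hW : W (cl d u (hi 0 k * a)) H x = ((∑ m ∈ Icc 1 ((x + H) / k), a m * C m : ℝ) : ℂ) := by
    have h1 : W (cl d u (hi 0 k * a)) H x =
        ((∑ n ∈ Ioc x (x + H), if n % d = u % d then (hi 0 k * a) n else 0 : ℝ) : ℂ) := by
      unfold W cl
      push_cast
      refine Finset.sum_congr rfl fun n _ => ?_
      split_ifs
      · rfl
      · simp
    rw [h1]
    congr 1
    have h2 : ∀ n ∈ Ioc x (x + H), (if n % d = u % d then (hi 0 k * a) n else 0) =
        ∑ m ∈ Icc 1 ((x + H) / k), if n % d = u % d ∧ (m ∣ n ∧ k * m ≤ n) then a m else 0 := by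
      intro n hn
      rw [mem_Ioc] at hn
      by_cases h3 : n % d = u % d
      · rw [if_pos h3, Edg_conv a k n ((x + H) / k) hk (by omega) (Nat.div_le_div_right hn.2)]
        refine Finset.sum_congr rfl fun m _ => ?_
        by_cases h4 : m ∣ n ∧ k * m ≤ n
        · rw [if_pos h4, if_pos ⟨h3, h4⟩]
        · rw [if_neg h4, if_neg (fun h5 => h4 h5.2)]
      · rw [if_neg h3]
        symm
        refine Finset.sum_eq_zero fun m _ => ?_
        rw [if_neg (fun h5 => h3 h5.1)]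
    rw [Finset.sum_congr rfl h2, Finset.sum_comm]
    refine Finset.sum_congr rfl fun m _ => ?_
    rw [← Finset.sum_filter, Finset.sum_const, nsmul_eq_mul, hC, mul_comm]
  have hsplit : ∑ m ∈ Icc 1 ((x + H) / k), a m * C m =
      (∑ m ∈ Icc 1 (x / k), a m * C m) + ∑ m ∈ Ioc (x / k) ((x + H) / k), a m * C m := by
    rw [← Finset.sum_union]
    · refine Finset.sum_congr ?_ fun _ _ => rfl
      ext m
      rw [mem_union, mem_Icc, mem_Icc, mem_Ioc]
      generalize x / k = A at hxk ⊢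
      generalize (x + H) / k = B at hxk ⊢
      omega
    · rw [Finset.disjoint_left]
      intro m h1 h2
      rw [mem_Icc] at h1
      rw [mem_Ioc] at h2
      omega
  have hlow : ∑ m ∈ Icc 1 (x / k), a m * C m =
      ∑ m ∈ (Icc 1 (x / k)).filter (fun m => Nat.Coprime m d), a m * cnt d u H m x := by
    rw [Finset.sum_filter]
    refine Finset.sum_congr rfl fun m hm => ?_
    rw [mem_Icc] at hm
    have hkm : k * m ≤ x := by
      have := (Nat.le_div_iff_mul_le hk).mp hm.2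
      rw [mul_comm]
      exact this
    have h1 : (Ioc x (x + H)).filter (fun n => n % d = u % d ∧ (m ∣ n ∧ k * m ≤ n)) =
        (Ioc x (x + H)).filter (fun n => m ∣ n ∧ n % d = u % d) := by
      refine Finset.filter_congr fun n hn => ?_
      rw [mem_Ioc] at hn
      constructor
      · rintro ⟨h2, h3, _⟩
        exact ⟨h3, h2⟩
      · rintro ⟨h2, h3⟩
        exact ⟨h3, h2, by omega⟩
    have h2 : C m = cnt d u H m x := by
      rw [hC]
      unfold cnt
      simp only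
      rw [h1]
    split_ifs with h3
    · rw [h2]
    · have h4 : C m = 0 := by
        rw [h2]
        unfold cnt
        rw [Nat.cast_eq_zero, Finset.card_eq_zero, Finset.filter_eq_empty_iff]
        intro n _ h5
        exact h3 (Edg_coprime hu h5.1 h5.2)
      rw [h4, mul_zero]
  rw [hW, hsplit, hlow, ← Complex.ofReal_sub, add_sub_cancel_left, Complex.norm_real, Real.norm_eq_abs]
  refine (Finset.abs_sum_le_sum_abs _ _).trans (Finset.sum_le_sum fun m hm => ?_)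
  rw [mem_Ioc] at hm
  have hC0 : 0 ≤ C m := by
    rw [hC]
    exact Nat.cast_nonneg _
  rw [abs_mul, abs_of_nonneg hC0]
  refine mul_le_mul_of_nonneg_left ?_ (abs_nonneg _)
  refine le_trans ?_ (Edg_mult x H m (Nat.lt_of_le_of_lt (Nat.zero_le _) hm.1))
  rw [hC]
  simp only
  rw [Nat.cast_le]
  apply Finset.card_le_card
  intro n hn
  rw [mem_filter] at hn ⊢
  exact ⟨hn.1, hn.2.2.1⟩

theorem em_abs (d u H m x : ℕ) (hd : 1 ≤ d) (hm : 1 ≤ m) (h : Nat.Coprime m d) :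
    |em d u H m x| ≤ 1 := by
  obtain ⟨v, hv1, hv2⟩ := Nat.chineseRemainder h 0 u
  have h1 : (Ioc x (x + H)).filter (fun n => m ∣ n ∧ n % d = u % d) =
      (Ioc x (x + H)).filter (fun n => n ≡ v [MOD m * d]) := by
    refine Finset.filter_congr fun n _ => ?_
    rw [← Nat.modEq_and_modEq_iff_modEq_mul h]
    constructor
    · rintro ⟨h2, h3⟩
      exact ⟨(Nat.modEq_zero_iff_dvd.mpr h2).trans hv1.symm, Nat.ModEq.trans h3 hv2.symm⟩
    · rintro ⟨h2, h3⟩
      exact ⟨Nat.modEq_zero_iff_dvd.mp (h2.trans hv1), h3.trans hv2⟩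
  unfold em cnt
  rw [h1]
  have h2 := Edg_count x H (m * d) v (Nat.mul_pos hm hd)
  push_cast at h2
  exact h2

theorem zone_sum (X H k : ℕ) (hk : 1 ≤ k) (hX : 1 ≤ X) (hH : H ≤ X) (b : ℕ → ℝ) (hb : ∀ m, 0 ≤ b m) :
    ∑ x ∈ Ico X (2 * X), ∑ m ∈ Ioc (x / k) ((x + H) / k), b m ≤ H * ∑ m ∈ Icc 1 (3 * X), b m := by
  have h1 : ∀ x ∈ Ico X (2 * X), ∑ m ∈ Ioc (x / k) ((x + H) / k), b m =
      ∑ m ∈ Icc 1 (3 * X), if x < m * k ∧ m * k ≤ x + H then b m else 0 := by
    intro x hx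
    rw [mem_Ico] at hx
    rw [← Finset.sum_filter]
    refine Finset.sum_congr ?_ fun _ _ => rfl
    ext m
    rw [mem_Ioc, mem_filter, mem_Icc, Nat.div_lt_iff_lt_mul hk, Nat.le_div_iff_mul_le hk]
    constructor
    · rintro ⟨h2, h3⟩
      refine ⟨⟨?_, ?_⟩, h2, h3⟩
      · rcases Nat.eq_zero_or_pos m with rfl | h4
        · omega
        · exact h4
      · have : m ≤ m * k := Nat.le_mul_of_pos_right m hk
        omega
    · rintro ⟨_, h2, h3⟩
      exact ⟨h2, h3⟩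
  rw [Finset.sum_congr rfl h1, Finset.sum_comm, Finset.mul_sum]
  refine Finset.sum_le_sum fun m _ => ?_
  rw [← Finset.sum_filter, Finset.sum_const, nsmul_eq_mul]
  refine mul_le_mul_of_nonneg_right ?_ (hb m)
  rw [Nat.cast_le]
  have h2 : (Ico X (2 * X)).filter (fun x => x < m * k ∧ m * k ≤ x + H) ⊆ Ico (m * k - H) (m * k) := by
    intro x hx
    rw [mem_filter] at hx
    rw [mem_Ico]
    omega
  refine (Finset.card_le_card h2).trans ?_
  rw [Nat.card_Ico]
  omega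

/-- the main terms of `cnt` add up to `Bk` -/
theorem bk_eq (a : ℕ → ℝ) (d u H k x : ℕ) (hH : 1 ≤ H) :
    (∑ m ∈ (Icc 1 (x / k)).filter (fun m => Nat.Coprime m d), a m * cnt d u H m x) / H
      - Bk a d k x
      = (∑ m ∈ (Icc 1 (x / k)).filter (fun m => Nat.Coprime m d), a m * em d u H m x) / H := by
  have hH0 : (H : ℝ) ≠ 0 := by
    have : (1 : ℝ) ≤ H := by exact_mod_cast hH
    linarith
  unfold Bk
  rw [Finset.sum_div, Finset.sum_div, Finset.mul_sum, ← Finset.sum_sub_distrib]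
  refine Finset.sum_congr rfl fun m _ => ?_
  unfold em
  have h1 : (H : ℝ) / (m * d) / H = 1 / (m * d) := by
    rw [div_div, mul_comm ((m : ℝ) * d) H, ← div_div, div_self hH0]
  have h2 : a m * (cnt d u H m x - H / (m * d)) / H =
      a m * cnt d u H m x / H - a m * ((H : ℝ) / (m * d) / H) := by ring
  rw [h2, h1]
  ring

end Pool.Agent.H88.PSI

end

section

/-!
# PSI Dks: the kernel `dk H θ = ∑_{j ≤ H} ee(jθ)` at the points `c/q + b/d`

`|dk H θ| ≤ H` and `|dk H θ| ≤ 1/(2 ‖θ‖)` (`‖θ‖` = distance to the nearest integer, geometric sum).  The points `c/q + b/d` (`c` mod `q`) are spaced by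
`1/q` modulo 1 and are `≥ 1/(qd)` away from the integers (`(q, d) = 1`, not `q = 1, b = 0`).  The two nearest: `≤ min(H, qd/2)^2 ≤ d^2 min(q^2, qH)`; the
others `≤ 2 ∑_{k ≥ 1} min(H, q/(2k))^2 ≤ 4 min(q^2, qH)`.
-/

set_option autoImplicit false

namespace Pool.Agent.H88.PSI

open Finset
open Pool.Agent.H91.PK (ee)

private theorem Dks_ee_add (a b : ℝ) : ee (a + b) = ee a * ee b := by
  unfold ee
  rw [← Complex.exp_add]
  congr 1
  push_cast
  ring

private theorem Dks_norm_ee (a : ℝ) : ‖ee a‖ = 1 := by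
  unfold ee
  have : (2 * Real.pi * a * Complex.I : ℂ) = ((2 * Real.pi * a : ℝ) : ℂ) * Complex.I := by
    push_cast; ring
  rw [this]
  exact Complex.norm_exp_ofReal_mul_I _

private theorem Dks_ee_int (n : ℤ) : ee (n : ℝ) = 1 := by
  unfold ee
  rw [Complex.exp_eq_one_iff]
  exact ⟨n, by push_cast; ring⟩

private theorem Dks_sin (δ : ℝ) (h : |δ| ≤ 1 / 2) : 4 * |δ| ≤ ‖1 - ee δ‖ := by
  have h1 : ‖1 - ee δ‖ = 2 * |Real.sin (Real.pi * δ)| := by
    have e1 : ee δ = Complex.exp (((2 * Real.pi * δ : ℝ) : ℂ) * Complex.I) := by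
      unfold ee; congr 1; push_cast; ring
    rw [e1, norm_sub_rev]
    have := Complex.norm_exp_I_mul_ofReal_sub_one (2 * Real.pi * δ)
    rw [mul_comm (Complex.I)] at this
    rw [this, Real.norm_eq_abs, abs_mul, abs_two]
    congr 3
    ring
  rw [h1]
  have h2 := Real.mul_abs_le_abs_sin (x := Real.pi * δ) (by
    rw [abs_mul, abs_of_pos Real.pi_pos]
    nlinarith [Real.pi_pos])
  rw [abs_mul, abs_of_pos Real.pi_pos] at h2
  have h3 : 2 / Real.pi * (Real.pi * |δ|) = 2 * |δ| := by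
    field_simp [Real.pi_pos.ne']
  rw [h3] at h2
  linarith

theorem dk_le (H : ℕ) (θ : ℝ) : ‖dk H θ‖ ≤ H := by
  unfold dk
  refine (norm_sum_le _ _).trans ?_
  simp [Dks_norm_ee]

private theorem Dks_geom (H : ℕ) (θ : ℝ) :
    (1 - ee θ) * dk H θ = ee θ - ee ((H + 1 : ℝ) * θ) := by
  unfold dk
  induction H with
  | zero => simp
  | succ n ih =>
    rw [Finset.sum_Icc_succ_top (by omega), mul_add, ih]
    have : ee (((n + 1 : ℕ) : ℝ) * θ) * ee θ = ee (((n + 1 : ℕ) + 1 : ℝ) * θ) := by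
      rw [← Dks_ee_add]; congr 1; ring
    rw [sub_mul, one_mul, mul_comm (ee θ), this]
    push_cast
    ring

theorem dk_inv (H : ℕ) (θ : ℝ) (n : ℤ) (h : ∀ m : ℤ, θ ≠ m) (hn : |θ - n| ≤ 1 / 2) :
    ‖dk H θ‖ ≤ 1 / (2 * |θ - n|) := by
  have hpos : 0 < |θ - n| := abs_pos.2 (sub_ne_zero.2 (h n))
  have h1 : 4 * |θ - n| ≤ ‖1 - ee θ‖ := by
    have := Dks_sin (θ - n) hn
    have e : ee θ = ee (θ - n) := by
      have : θ = (θ - n) + n := by ring
      conv_lhs => rw [this]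
      rw [Dks_ee_add, Dks_ee_int, mul_one]
    rw [e]; exact this
  have h2 : ‖1 - ee θ‖ * ‖dk H θ‖ ≤ 2 := by
    rw [← norm_mul, Dks_geom]
    refine (norm_sub_le _ _).trans ?_
    rw [Dks_norm_ee, Dks_norm_ee]; norm_num
  rw [le_div_iff₀ (by positivity)]
  have h3 := norm_nonneg (dk H θ)
  nlinarith [mul_le_mul_of_nonneg_right h1 h3]

private theorem Dks_nonint (q d b c : ℕ) (hb : b < d)
    (hqd : Nat.Coprime q d) (h0 : ¬ (q = 1 ∧ b = 0)) (hc : Nat.Coprime c q) (m : ℤ) :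
    ((c : ℤ) * d + b * q) ≠ m * (q * d) := by
  intro he
  have h1 : (q : ℤ) ∣ (c : ℤ) * d := by
    have : (c : ℤ) * d = q * (m * d - b) := by linear_combination he
    exact ⟨_, this⟩
  have h2 : q ∣ c * d := by exact_mod_cast h1
  have h3 : q ∣ c := hqd.dvd_of_dvd_mul_right h2
  have h4 : q = 1 := by
    have : q ∣ Nat.gcd c q := Nat.dvd_gcd h3 dvd_rfl
    rw [hc] at this
    exact Nat.dvd_one.1 this
  have h5 : (d : ℤ) ∣ (b : ℤ) * q := by
    have : (b : ℤ) * q = d * (m * q - c) := by linear_combination he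
    exact ⟨_, this⟩
  have h6 : d ∣ b * q := by exact_mod_cast h5
  have h7 : d ∣ b := hqd.symm.dvd_of_dvd_mul_right h6
  exact h0 ⟨h4, Nat.eq_zero_of_dvd_of_lt h7 hb⟩

private theorem Dks_half (S : Finset ℕ) (r : ℕ → ℕ) (hinj : Set.InjOn r S) (M : ℕ)
    (hM : ∀ c ∈ S, 1 ≤ r c ∧ r c ≤ M) (g : ℕ → ℝ) (hg : ∀ k, 0 ≤ g k) :
    ∑ c ∈ S, g (r c) ≤ ∑ k ∈ Icc 1 M, g k := by
  rw [← Finset.sum_image (f := g) hinj]
  refine Finset.sum_le_sum_of_subset_of_nonneg ?_ fun k _ _ => hg k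
  intro k hk
  rw [Finset.mem_image] at hk
  obtain ⟨c, hc, rfl⟩ := hk
  exact Finset.mem_Icc.2 (hM c hc)

private theorem Dks_two (S : Finset ℕ) (r : ℕ → ℤ) (hinj : Set.InjOn r S)
    (hne : ∀ c ∈ S, r c ≠ 0) (M : ℕ) (hM : ∀ c ∈ S, (r c).natAbs ≤ M) (g : ℕ → ℝ)
    (hg : ∀ k, 0 ≤ g k) :
    ∑ c ∈ S, g (r c).natAbs ≤ 2 * ∑ k ∈ Icc 1 M, g k := by
  rw [← Finset.sum_filter_add_sum_filter_not S (fun c => 0 < r c), two_mul]
  refine add_le_add ?_ ?_
  · refine Dks_half _ (fun c => (r c).natAbs) ?_ M ?_ g hg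
    · intro a ha b hb hab
      rw [Finset.mem_coe, Finset.mem_filter] at ha hb
      refine hinj ha.1 hb.1 ?_
      have h1 := ha.2
      have h2 := hb.2
      simp only at hab
      omega
    · intro c hc
      rw [Finset.mem_filter] at hc
      refine ⟨?_, hM c hc.1⟩
      have := hne c hc.1
      omega
  · refine Dks_half _ (fun c => (r c).natAbs) ?_ M ?_ g hg
    · intro a ha b hb hab
      rw [Finset.mem_coe, Finset.mem_filter] at ha hb
      refine hinj ha.1 hb.1 ?_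
      have h1 := ha.2
      have h2 := hb.2
      simp only at hab
      omega
    · intro c hc
      rw [Finset.mem_filter] at hc
      refine ⟨?_, hM c hc.1⟩
      have := hne c hc.1
      omega

private theorem Dks_s1' (M : ℕ) : ∑ k ∈ Icc 1 (M + 1), 1 / (k : ℝ) ^ 2 ≤ 2 - 1 / ((M : ℝ) + 1) := by
  induction M with
  | zero => norm_num
  | succ n ih =>
    rw [Finset.sum_Icc_succ_top (by omega)]
    have h2 : (0 : ℝ) < (n : ℝ) + 1 := by positivity
    have h3 : (0 : ℝ) < (n : ℝ) + 2 := by positivity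
    have h5 : 1 / (((n : ℝ) + 2) ^ 2) ≤ 1 / ((n : ℝ) + 1) - 1 / ((n : ℝ) + 2) := by
      have e : 1 / ((n : ℝ) + 1) - 1 / ((n : ℝ) + 2) = 1 / (((n : ℝ) + 1) * ((n : ℝ) + 2)) := by
        field_simp
        ring
      rw [e]
      apply one_div_le_one_div_of_le (by positivity)
      nlinarith
    have h6 : (((n + 1 + 1 : ℕ)) : ℝ) = (n : ℝ) + 2 := by push_cast; ring
    have h7 : (((n + 1 : ℕ)) : ℝ) + 1 = (n : ℝ) + 2 := by push_cast; ring
    rw [h6, h7]
    linarith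

private theorem Dks_s1 (M : ℕ) : ∑ k ∈ Icc 1 M, 1 / (k : ℝ) ^ 2 ≤ 2 := by
  rcases M with _ | M
  · simp
  · refine (Dks_s1' M).trans ?_
    have : (0 : ℝ) ≤ 1 / ((M : ℝ) + 1) := by positivity
    linarith

private theorem Dks_s2 (A H : ℝ) (hA : 0 < A) (hH : 0 < H) (M : ℕ) :
    ∑ k ∈ Icc 1 M, A ^ 2 * H ^ 2 / (A + k * H) ^ 2 ≤ A * H - A ^ 2 * H / (A + M * H) := by
  induction M with
  | zero =>
    simp
    field_simp
    norm_num
  | succ n ih =>
    rw [Finset.sum_Icc_succ_top (by omega)]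
    have h1 : 0 < A + n * H := by positivity
    have h6 : (((n + 1 : ℕ)) : ℝ) = (n : ℝ) + 1 := by push_cast; ring
    rw [h6]
    have h2 : 0 < A + ((n : ℝ) + 1) * H := by positivity
    have h3 : A ^ 2 * H ^ 2 / (A + ((n : ℝ) + 1) * H) ^ 2 ≤
        A ^ 2 * H / (A + n * H) - A ^ 2 * H / (A + ((n : ℝ) + 1) * H) := by
      have e : A ^ 2 * H / (A + n * H) - A ^ 2 * H / (A + ((n : ℝ) + 1) * H)
          = A ^ 2 * H ^ 2 / ((A + n * H) * (A + ((n : ℝ) + 1) * H)) := by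
        field_simp
        ring
      rw [e]
      apply div_le_div_of_nonneg_left (by positivity) (by positivity)
      rw [sq]
      apply mul_le_mul_of_nonneg_right _ h2.le
      nlinarith
    linarith

private theorem Dks_pt (H : ℕ) (A x δ : ℝ) (hA : 0 < A) (hH : 1 ≤ H) (hx0 : 0 ≤ x) (hx : x ≤ H)
    (k : ℕ) (hk : 1 ≤ k) (hd : δ = k / A) (h : x ≤ 1 / (2 * δ)) :
    x ^ 2 ≤ A ^ 2 * (1 / (k : ℝ) ^ 2) ∧ x ^ 2 ≤ 4 * (A ^ 2 * (H : ℝ) ^ 2 / (A + k * H) ^ 2) := by
  have hk' : (0 : ℝ) < k := by exact_mod_cast hk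
  have hH' : (0 : ℝ) < H := by exact_mod_cast hH
  have h1 : x ≤ A / (2 * k) := by
    have : 1 / (2 * δ) = A / (2 * k) := by rw [hd]; field_simp
    rw [this] at h; exact h
  have h2 : x ^ 2 ≤ (A / (2 * k)) ^ 2 := pow_le_pow_left₀ hx0 h1 2
  have h3 : x ^ 2 ≤ (H : ℝ) ^ 2 := pow_le_pow_left₀ hx0 hx 2
  constructor
  · refine h2.trans ?_
    have : (A / (2 * k)) ^ 2 = A ^ 2 * (1 / (k : ℝ) ^ 2) / 4 := by field_simp; norm_num
    rw [this]
    have : 0 ≤ A ^ 2 * (1 / (k : ℝ) ^ 2) := by positivity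
    linarith
  · rcases le_total ((k : ℝ) * H) A with hc | hc
    · refine h3.trans ?_
      rw [← mul_div_assoc, le_div_iff₀ (by positivity)]
      have h4 : (A + k * H) ^ 2 ≤ (2 * A) ^ 2 := by
        apply pow_le_pow_left₀ (by positivity)
        linarith
      nlinarith [mul_le_mul_of_nonneg_left h4 (sq_nonneg (H : ℝ))]
    · refine h2.trans ?_
      rw [← mul_div_assoc, div_pow, div_le_div_iff₀ (by positivity) (by positivity)]
      have h4 : (A + k * H) ^ 2 ≤ (2 * (k * H)) ^ 2 := by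
        apply pow_le_pow_left₀ (by positivity)
        linarith
      have h5 := mul_le_mul_of_nonneg_left h4 (sq_nonneg A)
      have h6 : 0 ≤ A ^ 2 * (H : ℝ) ^ 2 * (k : ℝ) ^ 2 := by positivity
      nlinarith

theorem dk_sum (H q d b : ℕ) (hH : 1 ≤ H) (hq : 1 ≤ q) (hd : 1 ≤ d) (hb : b < d)
    (hqd : Nat.Coprime q d) (h0 : ¬ (q = 1 ∧ b = 0)) :
    ∑ c ∈ (Icc 1 q).filter (fun c => Nat.Coprime c q), ‖dk H ((c : ℝ) / q + (b : ℝ) / d)‖ ^ 2
      ≤ 100 * (d : ℝ) ^ 2 * min ((q : ℝ) ^ 2) (q * H) := by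
  have hq' : (0 : ℝ) < q := by exact_mod_cast hq
  have hd' : (0 : ℝ) < d := by exact_mod_cast hd
  have hd1 : (1 : ℝ) ≤ d := by exact_mod_cast hd
  have hH' : (0 : ℝ) < H := by exact_mod_cast hH
  set A : ℝ := q * d with hA
  have hA0 : 0 < A := by positivity
  let th : ℕ → ℝ := fun c => (c : ℝ) / q + (b : ℝ) / d
  let r : ℕ → ℤ := fun c => ((c : ℤ) * d + b * q) - round (th c) * (q * d)
  have hr : ∀ c, th c - (round (th c) : ℤ) = (r c : ℝ) / A := by
    intro c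
    simp only [r, th, hA]
    push_cast
    field_simp
  have hrne : ∀ c, Nat.Coprime c q → r c ≠ 0 := by
    intro c hc he
    exact Dks_nonint q d b c hb hqd h0 hc (round (th c)) (sub_eq_zero.1 he)
  have hrabs : ∀ c, |th c - (round (th c) : ℤ)| = ((r c).natAbs : ℝ) / A := by
    intro c
    rw [hr, abs_div, abs_of_pos hA0]
    congr 1
    rw [Nat.cast_natAbs, Int.cast_abs]
  have hrle : ∀ c, (r c).natAbs ≤ q * d := by
    intro c
    have h1 := abs_sub_round (th c)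
    rw [hrabs, div_le_iff₀ hA0] at h1
    have : ((r c).natAbs : ℝ) ≤ ((q * d : ℕ) : ℝ) := by
      push_cast
      rw [hA] at h1
      nlinarith [mul_pos hq' hd']
    exact_mod_cast this
  set S : Finset ℕ := (Icc 1 q).filter (fun c => Nat.Coprime c q) with hS
  have hinj : Set.InjOn r S := by
    intro c hc c' hc' he
    rw [Finset.mem_coe, hS, Finset.mem_filter, Finset.mem_Icc] at hc hc'
    simp only [r] at he
    have h1 : ((c : ℤ) - c') * d = ((round (th c) - round (th c')) * q) * d := by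
      linear_combination he
    have h2 : (c : ℤ) - c' = (round (th c) - round (th c')) * q := by
      refine mul_right_cancel₀ (b := (d : ℤ)) ?_ h1
      exact_mod_cast hd'.ne'
    have h3 : (q : ℤ) ∣ (c : ℤ) - c' := by rw [h2]; exact dvd_mul_left _ _
    have h4 : (c : ℤ) - c' = 0 := by
      apply Int.eq_zero_of_abs_lt_dvd h3
      rw [abs_lt]
      constructor <;> omega
    omega
  have hthne : ∀ c, Nat.Coprime c q → ∀ m : ℤ, th c ≠ m := by
    intro c hc m he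
    refine Dks_nonint q d b c hb hqd h0 hc m ?_
    have h1 : (c : ℝ) * d + b * q = m * (q * d) := by
      rw [← he]
      simp only [th]
      field_simp
    exact_mod_cast h1
  have key : ∀ c ∈ S, ‖dk H (th c)‖ ^ 2 ≤ A ^ 2 * (1 / (((r c).natAbs : ℕ) : ℝ) ^ 2) ∧
      ‖dk H (th c)‖ ^ 2 ≤ 4 * (A ^ 2 * (H : ℝ) ^ 2 / (A + ((r c).natAbs : ℕ) * H) ^ 2) := by
    intro c hc
    rw [hS, Finset.mem_filter, Finset.mem_Icc] at hc
    refine Dks_pt H A _ (|th c - (round (th c) : ℤ)|) hA0 hH (norm_nonneg _) (dk_le _ _) _ ?_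
      (hrabs c) ?_
    · have := hrne c hc.2
      omega
    · exact dk_inv H (th c) _ (hthne c hc.2) (abs_sub_round _)
  have b1 : ∑ c ∈ S, ‖dk H (th c)‖ ^ 2 ≤ 4 * A ^ 2 := by
    refine (Finset.sum_le_sum fun c hc => (key c hc).1).trans ?_
    refine (Dks_two S r hinj (fun c hc => ?_) (q * d) (fun c _ => hrle c)
      (fun k => A ^ 2 * (1 / (k : ℝ) ^ 2)) (fun k => by positivity)).trans ?_
    · rw [hS, Finset.mem_filter] at hc
      exact hrne c hc.2
    · rw [← Finset.mul_sum]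
      nlinarith [mul_le_mul_of_nonneg_left (Dks_s1 (q * d)) (sq_nonneg A)]
  have b2 : ∑ c ∈ S, ‖dk H (th c)‖ ^ 2 ≤ 8 * (A * H) := by
    refine (Finset.sum_le_sum fun c hc => (key c hc).2).trans ?_
    refine (Dks_two S r hinj (fun c hc => ?_) (q * d) (fun c _ => hrle c)
      (fun k => 4 * (A ^ 2 * (H : ℝ) ^ 2 / (A + k * H) ^ 2)) (fun k => by positivity)).trans ?_
    · rw [hS, Finset.mem_filter] at hc
      exact hrne c hc.2
    · rw [← Finset.mul_sum]
      have h1 := Dks_s2 A H hA0 hH' (q * d)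
      have h2 : 0 ≤ A ^ 2 * H / (A + ((q * d : ℕ) : ℝ) * H) := by positivity
      linarith
  have hdd : (d : ℝ) ≤ (d : ℝ) ^ 2 := by nlinarith
  have e : ∑ c ∈ S, ‖dk H ((c : ℝ) / q + (b : ℝ) / d)‖ ^ 2 = ∑ c ∈ S, ‖dk H (th c)‖ ^ 2 := rfl
  rw [e]
  rcases le_total ((q : ℝ) ^ 2) (q * H) with hc | hc
  · rw [min_eq_left hc]
    refine b1.trans ?_
    rw [hA]
    have : 0 ≤ (q : ℝ) ^ 2 * (d : ℝ) ^ 2 := by positivity
    nlinarith
  · rw [min_eq_right hc]
    refine b2.trans ?_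
    rw [hA]
    have h1 : (0 : ℝ) ≤ q * H := by positivity
    nlinarith [mul_le_mul_of_nonneg_left hdd h1, mul_nonneg h1 (sq_nonneg (d : ℝ))]

end Pool.Agent.H88.PSI

end

section

/-!
# PSI Dls: the dual form of the additive large sieve

Duality from `Pool.Agent.H91.PK.additive_ls` (`Pool/Agent/H91/PK/LSa.lean`): put `S x` = inner sum; `∑_x |S x|^2 = ∑_{q,b} c q b ∑_x conj(S x) ee(x b/q)`,
Cauchy-Schwarz, `additive_ls` with `a x = conj (S x)`.
-/

set_option autoImplicit false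

namespace Pool.Agent.H88.PSI

open Finset
open Pool.Agent.H91.PK (ee)

theorem dual_ls (M K0 K : ℕ) (c : ℕ → ℕ → ℂ) :
    ∑ x ∈ Ioc K0 (K0 + K), ‖∑ q ∈ Icc 1 M, ∑ b ∈ (Icc 1 q).filter (fun b => Nat.Coprime b q),
        c q b * ee ((x : ℝ) * b / q)‖ ^ 2
      ≤ ((M : ℝ) ^ 2 + Real.pi * K) *
        ∑ q ∈ Icc 1 M, ∑ b ∈ (Icc 1 q).filter (fun b => Nat.Coprime b q), ‖c q b‖ ^ 2 := by
  obtain ⟨J, hJ⟩ : ∃ J : Finset (Σ _ : ℕ, ℕ),
      J = (Icc 1 M).sigma (fun q => (Icc 1 q).filter (fun b => Nat.Coprime b q)) := ⟨_, rfl⟩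
  obtain ⟨S, hS⟩ : ∃ S : ℕ → ℂ, S = fun x : ℕ => ∑ q ∈ Icc 1 M,
      ∑ b ∈ (Icc 1 q).filter (fun b => Nat.Coprime b q), c q b * ee ((x : ℝ) * b / q) := ⟨_, rfl⟩
  have hSJ : ∀ x, S x = ∑ j ∈ J, c j.1 j.2 * ee ((x : ℝ) * j.2 / j.1) := by
    intro x
    rw [hS, hJ, Finset.sum_sigma]
  have hls := Pool.Agent.H91.PK.additive_ls M K0 K (fun x => (starRingEnd ℂ) (S x))
  have hnc : ∀ x, ‖(starRingEnd ℂ) (S x)‖ = ‖S x‖ := fun x => RCLike.norm_conj (S x)
  simp only [hnc] at hls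
  have hls' : ∑ j ∈ J, ‖∑ n ∈ Ioc K0 (K0 + K), (starRingEnd ℂ) (S n) * ee ((n : ℝ) * j.2 / j.1)‖ ^ 2 ≤
      ((M : ℝ) ^ 2 + Real.pi * K) * ∑ n ∈ Ioc K0 (K0 + K), ‖S n‖ ^ 2 := by
    rw [hJ, Finset.sum_sigma]
    exact hls
  have hgoal : ∑ q ∈ Icc 1 M, ∑ b ∈ (Icc 1 q).filter (fun b => Nat.Coprime b q), ‖c q b‖ ^ 2 =
      ∑ j ∈ J, ‖c j.1 j.2‖ ^ 2 := by
    rw [hJ, Finset.sum_sigma]
  have hlhs : ∑ x ∈ Ioc K0 (K0 + K), ‖∑ q ∈ Icc 1 M, ∑ b ∈ (Icc 1 q).filter (fun b => Nat.Coprime b q),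
        c q b * ee ((x : ℝ) * b / q)‖ ^ 2 = ∑ x ∈ Ioc K0 (K0 + K), ‖S x‖ ^ 2 := by
    rw [hS]
  rw [hgoal, hlhs]
  obtain ⟨T, hT⟩ : ∃ T : ℝ, T = ∑ x ∈ Ioc K0 (K0 + K), ‖S x‖ ^ 2 := ⟨_, rfl⟩
  rw [← hT] at hls' ⊢
  have hT0 : 0 ≤ T := by
    rw [hT]
    exact Finset.sum_nonneg fun _ _ => sq_nonneg _
  have hTc : (T : ℂ) = ∑ j ∈ J, c j.1 j.2 *
      ∑ n ∈ Ioc K0 (K0 + K), (starRingEnd ℂ) (S n) * ee ((n : ℝ) * j.2 / j.1) := by
    have h1 : (T : ℂ) = ∑ n ∈ Ioc K0 (K0 + K), (starRingEnd ℂ) (S n) * S n := by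
      rw [hT]
      push_cast
      refine Finset.sum_congr rfl fun n _ => ?_
      rw [Complex.conj_mul']
    rw [h1]
    simp only [Finset.mul_sum]
    rw [Finset.sum_comm]
    refine Finset.sum_congr rfl fun n _ => ?_
    conv_lhs => rw [hSJ n, Finset.mul_sum]
    refine Finset.sum_congr rfl fun j _ => ?_
    rw [← hSJ n]
    ring
  have h2 : T ≤ ∑ j ∈ J, ‖c j.1 j.2‖ *
      ‖∑ n ∈ Ioc K0 (K0 + K), (starRingEnd ℂ) (S n) * ee ((n : ℝ) * j.2 / j.1)‖ := by
    have h3 : T = ‖(T : ℂ)‖ := by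
      rw [Complex.norm_real, Real.norm_of_nonneg hT0]
    rw [h3, hTc]
    refine (norm_sum_le _ _).trans (Finset.sum_le_sum fun j _ => ?_)
    rw [norm_mul]
  have h3 : T ^ 2 ≤ (∑ j ∈ J, ‖c j.1 j.2‖ ^ 2) * (((M : ℝ) ^ 2 + Real.pi * K) * T) := by
    calc T ^ 2 ≤ (∑ j ∈ J, ‖c j.1 j.2‖ *
        ‖∑ n ∈ Ioc K0 (K0 + K), (starRingEnd ℂ) (S n) * ee ((n : ℝ) * j.2 / j.1)‖) ^ 2 :=
          pow_le_pow_left₀ hT0 h2 2
      _ ≤ (∑ j ∈ J, ‖c j.1 j.2‖ ^ 2) * ∑ j ∈ J,
        ‖∑ n ∈ Ioc K0 (K0 + K), (starRingEnd ℂ) (S n) * ee ((n : ℝ) * j.2 / j.1)‖ ^ 2 :=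
          Finset.sum_mul_sq_le_sq_mul_sq _ _ _
      _ ≤ _ := mul_le_mul_of_nonneg_left hls' (Finset.sum_nonneg fun _ _ => sq_nonneg _)
  rcases hT0.eq_or_lt with h4 | h4
  · rw [← h4]
    have hpi := Real.pi_pos
    have h5 : 0 ≤ ∑ j ∈ J, ‖c j.1 j.2‖ ^ 2 := Finset.sum_nonneg fun _ _ => sq_nonneg _
    positivity
  · have h5 : T * T ≤ (((M : ℝ) ^ 2 + Real.pi * K) * ∑ j ∈ J, ‖c j.1 j.2‖ ^ 2) * T := by
      calc T * T = T ^ 2 := by ring
        _ ≤ _ := h3
        _ = _ := by ring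
    exact le_of_mul_le_mul_right h5 h4

end Pool.Agent.H88.PSI

end

section

/-!
# PSI Bin: binary decomposition of an initial segment

Induction on `r`: if `M < 2^r`, `2^(r-1) ≤ M`: `range M = range 2^(r-1) ∪ Ico 2^(r-1) M`,
`|a+b|^2 ≤ r |a|^2 + r/(r-1) |b|^2`.  (Apply the induction hypothesis to the shifted function.)
-/

set_option autoImplicit false

namespace Pool.Agent.H88.PSI

open Finset

theorem bin_dec (r : ℕ) (f : ℕ → ℝ) (M : ℕ) (hM : M < 2 ^ r) :
    (∑ m ∈ range M, f m) ^ 2 ≤ r * ∑ l ∈ range r, ∑ j ∈ range (2 ^ (r - l)),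
      (∑ m ∈ Ico (j * 2 ^ l) ((j + 1) * 2 ^ l), f m) ^ 2 := by
  set S : ℕ → ℝ := fun l => ∑ m ∈ range (M / 2 ^ l * 2 ^ l), f m with hS
  have h0 : S 0 = ∑ m ∈ range M, f m := by simp [hS]
  have hr : S r = 0 := by simp [hS, Nat.div_eq_of_lt hM]
  have tel : ∑ m ∈ range M, f m = ∑ l ∈ range r, (S l - S (l + 1)) := by
    rw [Finset.sum_range_sub', h0, hr, sub_zero]
  have hterm : ∀ l ∈ range r, (S l - S (l + 1)) ^ 2 ≤ ∑ j ∈ range (2 ^ (r - l)),
      (∑ m ∈ Ico (j * 2 ^ l) ((j + 1) * 2 ^ l), f m) ^ 2 := by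
    intro l hl
    have hl' : l < r := mem_range.1 hl
    have hq : M / 2 ^ l < 2 ^ (r - l) := by
      refine Nat.div_lt_of_lt_mul ?_
      rw [← pow_add, Nat.add_sub_cancel' hl'.le]
      exact hM
    have hq' : M / 2 ^ (l + 1) = M / 2 ^ l / 2 := by rw [pow_succ, Nat.div_div_eq_div_mul]
    rcases Nat.even_or_odd' (M / 2 ^ l) with ⟨q, hq2 | hq2⟩
    · have e1 : M / 2 ^ (l + 1) * 2 ^ (l + 1) = M / 2 ^ l * 2 ^ l := by
        rw [hq', hq2, Nat.mul_div_cancel_left q (by norm_num), pow_succ]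
        ring
      have e2 : S l - S (l + 1) = 0 := by
        simp only [hS]
        rw [e1, sub_self]
      rw [e2, zero_pow two_ne_zero]
      exact sum_nonneg fun j _ => sq_nonneg _
    · have e0 : M / 2 ^ (l + 1) = q := by
        rw [hq', hq2]
        omega
      have e2 : S l - S (l + 1) = ∑ m ∈ Ico (2 * q * 2 ^ l) ((2 * q + 1) * 2 ^ l), f m := by
        simp only [hS]
        rw [e0, hq2, pow_succ]
        have e3 : q * (2 ^ l * 2) = 2 * q * 2 ^ l := by ring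
        rw [e3, Finset.sum_Ico_eq_sub _ (Nat.mul_le_mul_right _ (by omega))]
      rw [e2]
      exact single_le_sum (f := fun j => (∑ m ∈ Ico (j * 2 ^ l) ((j + 1) * 2 ^ l), f m) ^ 2)
        (fun j _ => sq_nonneg _) (mem_range.2 (by omega : 2 * q < 2 ^ (r - l)))
  rw [tel]
  calc (∑ l ∈ range r, (S l - S (l + 1))) ^ 2
      ≤ (range r).card * ∑ l ∈ range r, (S l - S (l + 1)) ^ 2 := sq_sum_le_card_mul_sum_sq
    _ = r * ∑ l ∈ range r, (S l - S (l + 1)) ^ 2 := by rw [card_range]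
    _ ≤ _ := mul_le_mul_of_nonneg_left (sum_le_sum hterm) (Nat.cast_nonneg r)

end Pool.Agent.H88.PSI

end
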