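import Pool.Agent.H43.PM.M21
import Pool.Agent.H43.PM.M37

/-! The parts of this file: H43.MP.Blk, H43.MP.ClsVar, H43.MP.MainVar, H43.MP.MainTerm, H43.MP.WPb, H43.MP.PPw, H43.MP.Cnt, H43.MP.Conv, H43.MP.Split, H97.VK.PropB, H88.PSI.Dy, H88.PSI.HB. -/

section

/-!
# MIDP Blk: from the average over all intervals (`HUX`, project PSI, helper88) to the blocks and the twists

Step 1 (`cls_blk`).  Fix `d ≤ L^B`, `c`, and call the block `i` bad if `|∑_{m ∈ blk H i, m ≡ c (d)} Λ(m) - M| > H/L^A'`, `M = H/φ(d)` or `0`.  For `x = iH - 1 + j`,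
`0 ≤ j ≤ δ`, `δ = H/(8 L^{A'+1})`, the sum over `(x, x+H]` differs from the one over the block by at most `2 δ log(4N) ≤ H/(2L^A')`
(`Λ(m) ≤ log m`, `log(4N) ≤ 2L`), so its deviation is `> H/(2L^A')`.  The intervals of `x` are disjoint for different `i` (`δ < H`), all `x` are in
`[N/2 - 2H, 3N + H]`, which is contained in `(N1, 2N1] ∪ (N, 2N] ∪ (2N, 4N]`, `N1 = ⌊N/4⌋`, together with `(2N1, 4N1]`: apply `HUX θ'` at the four
values `N/4, N/2, N, 2N` with a large exponent: `#bad · δ · (H/(2L^A'))^2 ≤ 4 · 2N H^2/(log (N/4))^{A''}`.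
Step 2.  `∑_{m ∈ blk} Λ(m) ee(-(a m/r)) = ∑_{c < r} ee(-(a c/r)) ∑_{m ≡ c (r)} Λ(m)`, and `∑_{c < r, (c,r)=1} ee(-(a c/r)) = μ(r)` for `(a, r) = 1`
(`Pool.Agent.H91.EHA.ramS_eq`, `ramS r a = μ(r)`); so if no `(r, c)`, `r ≤ L^B`, `c < r`, is bad with `A' = A + B` the deviation is `≤ r H/L^{A'} ≤ H/L^A`.  Union over the
at most `L^{2B} + ..` pairs `(r, c)`.
-/

set_option autoImplicit false

namespace Pool.Agent.H43.MP

open Finset
open Pool.Agent.H91.PK (ee)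
open Pool.Agent.H91.EHA (Lam hR lamR ramS)
open Pool.Agent.H35.W (pb)

/-- primes in almost all intervals of length `N^θ` in classes (in the mean square) -/
def HUX (θ : ℝ) : Prop :=
  ∀ A B : ℕ, ∃ N0 : ℕ, ∀ N : ℕ, N0 ≤ N → ∀ H : ℕ, (N : ℝ) ^ θ ≤ H → (H : ℝ) ≤ (N : ℝ) ^ (1 / 3 : ℝ) →
    ∀ d c : ℕ, 1 ≤ d → (d : ℝ) ≤ Real.log N ^ B →
      ∑ x ∈ Ioc N (2 * N), ((∑ n ∈ (Ioc x (x + H)).filter (fun n => n % d = c % d), Lam n)
        - (if Nat.Coprime c d then (H : ℝ) / d.totient else 0)) ^ 2 ≤ N * (H : ℝ) ^ 2 / Real.log N ^ A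

private theorem Blk_Lam_nonneg (n : ℕ) : 0 ≤ Lam n := ArithmeticFunction.vonMangoldt_nonneg

private theorem Blk_Lam_le {n X : ℕ} (hn : n ≤ X) : Lam n ≤ Real.log X := by
  have h1 : Lam n ≤ Real.log n := ArithmeticFunction.vonMangoldt_le_log
  rcases Nat.eq_zero_or_pos n with h0 | h0
  · rw [h0] at h1 ⊢
    refine h1.trans ?_
    simp only [Nat.cast_zero, Real.log_zero]
    exact Real.log_natCast_nonneg X
  · refine h1.trans (Real.log_le_log (by exact_mod_cast h0) (by exact_mod_cast hn))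

/-- shifting the window by `j` -/
private theorem Blk_shift (f : ℕ → ℝ) (hf : ∀ n, 0 ≤ f n) {K : ℝ} (a j H X : ℕ) (ha : 1 ≤ a)
    (hX : a + H + j ≤ X) (hK : ∀ n, n ≤ X → f n ≤ K) :
    |∑ n ∈ Ioc (a - 1 + j) (a - 1 + j + H), f n - ∑ n ∈ Ico a (a + H), f n| ≤ j * K := by
  have e1 : Ioc (a - 1 + j) (a - 1 + j + H) = Ico (a + j) (a + j + H) := by
    ext n
    simp only [mem_Ioc, mem_Ico]
    omega
  have s1 : ∑ n ∈ Ico a (a + H), f n + ∑ n ∈ Ico (a + H) (a + H + j), f n =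
      ∑ n ∈ Ico a (a + H + j), f n := Finset.sum_Ico_consecutive f (by omega) (by omega)
  have s2 : ∑ n ∈ Ico a (a + j), f n + ∑ n ∈ Ico (a + j) (a + j + H), f n =
      ∑ n ∈ Ico a (a + j + H), f n := Finset.sum_Ico_consecutive f (by omega) (by omega)
  have e2 : a + j + H = a + H + j := by omega
  rw [e2] at s2
  rw [e1, e2]
  have b1 : ∑ n ∈ Ico (a + H) (a + H + j), f n ≤ j * K := by
    calc ∑ n ∈ Ico (a + H) (a + H + j), f n ≤ ∑ _n ∈ Ico (a + H) (a + H + j), K := by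
          refine Finset.sum_le_sum fun n hn => hK n ?_
          rw [mem_Ico] at hn
          omega
      _ = j * K := by
          rw [Finset.sum_const, Nat.card_Ico, nsmul_eq_mul]
          congr 2
          omega
  have b2 : ∑ n ∈ Ico a (a + j), f n ≤ j * K := by
    calc ∑ n ∈ Ico a (a + j), f n ≤ ∑ _n ∈ Ico a (a + j), K := by
          refine Finset.sum_le_sum fun n hn => hK n ?_
          rw [mem_Ico] at hn
          omega
      _ = j * K := by
          rw [Finset.sum_const, Nat.card_Ico, nsmul_eq_mul]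
          congr 2
          omega
  have c1 : 0 ≤ ∑ n ∈ Ico (a + H) (a + H + j), f n := Finset.sum_nonneg fun n _ => hf n
  have c2 : 0 ≤ ∑ n ∈ Ico a (a + j), f n := Finset.sum_nonneg fun n _ => hf n
  rw [abs_le]
  constructor <;> linarith

/-- the four dyadic ranges -/
private theorem Blk_cover (F : ℕ → ℝ) (K : ℕ) :
    ∑ x ∈ Ioc K (16 * K), F x = ∑ x ∈ Ioc K (2 * K), F x + ∑ x ∈ Ioc (2 * K) (2 * (2 * K)), F x +
      ∑ x ∈ Ioc (4 * K) (2 * (4 * K)), F x + ∑ x ∈ Ioc (8 * K) (2 * (8 * K)), F x := by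
  have h1 := Finset.sum_Ioc_consecutive F (show K ≤ 2 * K by omega) (show 2 * K ≤ 4 * K by omega)
  have h2 := Finset.sum_Ioc_consecutive F (show K ≤ 4 * K by omega) (show 4 * K ≤ 8 * K by omega)
  have h3 := Finset.sum_Ioc_consecutive F (show K ≤ 8 * K by omega) (show 8 * K ≤ 16 * K by omega)
  have e1 : 2 * (2 * K) = 4 * K := by omega
  have e2 : 2 * (4 * K) = 8 * K := by omega
  have e3 : 2 * (8 * K) = 16 * K := by omega
  rw [e1, e2, e3]
  linarith

/-- the number of bad blocks from the mean square over the windows -/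
private theorem Blk_count (G : ℕ → ℝ) (hG : ∀ x, 0 ≤ G x) (bad : Finset ℕ) (H δ K : ℕ) {g : ℝ}
    (hδ : δ < H) (hi : ∀ i ∈ bad, 1 ≤ i * H ∧ K + 1 ≤ i * H - 1 ∧ i * H - 1 + δ ≤ 16 * K)
    (hb : ∀ i ∈ bad, ∀ j ≤ δ, g ≤ G (i * H - 1 + j)) :
    bad.card * ((δ + 1 : ℕ) * g) ≤ ∑ x ∈ Ioc K (16 * K), G x := by
  classical
  have hinj : Set.InjOn (fun t : ℕ × ℕ => t.1 * H - 1 + t.2)
      ((bad ×ˢ range (δ + 1) : Finset (ℕ × ℕ)) : Set (ℕ × ℕ)) := by
    intro s hs t ht hst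
    rw [Finset.mem_coe, Finset.mem_product, Finset.mem_range] at hs ht
    have hst' : s.1 * H - 1 + s.2 = t.1 * H - 1 + t.2 := hst
    have h1 := (hi s.1 hs.1).1
    have h2 := (hi t.1 ht.1).1
    have h3 : s.1 * H + s.2 = t.1 * H + t.2 := by omega
    have h4 : s.2 < H := by omega
    have h5 : t.2 < H := by omega
    have h6 : s.1 = t.1 := by
      have e1 : (s.1 * H + s.2) / H = s.1 := by
        rw [mul_comm, Nat.mul_add_div (by omega), Nat.div_eq_of_lt h4, add_zero]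
      have e2 : (t.1 * H + t.2) / H = t.1 := by
        rw [mul_comm, Nat.mul_add_div (by omega), Nat.div_eq_of_lt h5, add_zero]
      rw [← e1, h3, e2]
    have h7 : s.2 = t.2 := by
      rw [h6] at h3
      omega
    exact Prod.ext h6 h7
  have hsub : (bad ×ˢ range (δ + 1)).image (fun t : ℕ × ℕ => t.1 * H - 1 + t.2) ⊆
      Ioc K (16 * K) := by
    intro x hx
    rw [Finset.mem_image] at hx
    obtain ⟨t, ht, rfl⟩ := hx
    rw [Finset.mem_product, Finset.mem_range] at ht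
    obtain ⟨_, h2, h3⟩ := hi t.1 ht.1
    rw [mem_Ioc]
    omega
  calc (bad.card : ℝ) * ((δ + 1 : ℕ) * g) = ∑ _t ∈ bad ×ˢ range (δ + 1), g := by
        rw [Finset.sum_const, Finset.card_product, Finset.card_range, nsmul_eq_mul]
        push_cast
        ring
    _ ≤ ∑ t ∈ bad ×ˢ range (δ + 1), G (t.1 * H - 1 + t.2) := by
        refine Finset.sum_le_sum fun t ht => ?_
        rw [Finset.mem_product, Finset.mem_range] at ht
        exact hb t.1 ht.1 t.2 (by omega)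
    _ = ∑ x ∈ (bad ×ˢ range (δ + 1)).image (fun t : ℕ × ℕ => t.1 * H - 1 + t.2), G x := by
        rw [Finset.sum_image hinj]
    _ ≤ ∑ x ∈ Ioc K (16 * K), G x :=
        Finset.sum_le_sum_of_subset_of_nonneg hsub fun x _ _ => hG x

private theorem Blk_ev_H1 {θ θ' : ℝ} (h0 : 0 < θ') (h1 : θ' < θ) :
    ∀ᶠ N : ℕ in Filter.atTop, (2 * (N : ℝ)) ^ θ' ≤ Hn θ N := by
  have h2 : Filter.Tendsto (fun N : ℕ => (N : ℝ) ^ (θ - θ')) Filter.atTop Filter.atTop :=
    (tendsto_rpow_atTop (by linarith : 0 < θ - θ')).comp tendsto_natCast_atTop_atTop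
  have h3 : Filter.Tendsto (fun N : ℕ => (N : ℝ) ^ θ) Filter.atTop Filter.atTop :=
    (tendsto_rpow_atTop (by linarith : 0 < θ)).comp tendsto_natCast_atTop_atTop
  filter_upwards [h2.eventually_ge_atTop (2 * 2 ^ θ'), h3.eventually_ge_atTop 2,
    Filter.eventually_ge_atTop 1] with N hN1 hN2 hN3
  have hN0 : (0 : ℝ) < N := by exact_mod_cast hN3
  have h4 : (N : ℝ) ^ θ = N ^ θ' * N ^ (θ - θ') := by
    rw [← Real.rpow_add hN0]
    congr 1
    ring
  have h5 : (N : ℝ) ^ θ - 1 ≤ Hn θ N := by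
    unfold Hn
    have := Nat.lt_floor_add_one ((N : ℝ) ^ θ)
    linarith
  have h6 : (2 * (N : ℝ)) ^ θ' = 2 ^ θ' * N ^ θ' := Real.mul_rpow (by norm_num) hN0.le
  have h7 : 0 < (N : ℝ) ^ θ' := Real.rpow_pos_of_pos hN0 _
  have h8 : (N : ℝ) ^ θ' * (2 * 2 ^ θ') ≤ N ^ θ := by
    rw [h4]
    exact mul_le_mul_of_nonneg_left hN1 h7.le
  rw [h6]
  nlinarith

private theorem Blk_ev_H2 {θ : ℝ} (h0 : 0 < θ) (h2 : θ ≤ 1 / 4) :
    ∀ᶠ N : ℕ in Filter.atTop, 1 ≤ Hn θ N ∧ 16 * (Hn θ N + 20) ≤ N := by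
  have h3 : Filter.Tendsto (fun N : ℕ => (N : ℝ) ^ (3 / 4 : ℝ)) Filter.atTop Filter.atTop :=
    (tendsto_rpow_atTop (by norm_num)).comp tendsto_natCast_atTop_atTop
  filter_upwards [h3.eventually_ge_atTop 32, Filter.eventually_ge_atTop 640] with N hN1 hN2
  have hN1' : (1 : ℝ) ≤ N := by exact_mod_cast (by omega : 1 ≤ N)
  have hN0 : (0 : ℝ) < N := by linarith
  have h4 : (Hn θ N : ℝ) ≤ (N : ℝ) ^ θ := Nat.floor_le (by positivity)
  have h5 : (N : ℝ) ^ θ ≤ (N : ℝ) ^ (1 / 4 : ℝ) := Real.rpow_le_rpow_of_exponent_le hN1' h2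
  have h6 : (N : ℝ) = (N : ℝ) ^ (1 / 4 : ℝ) * (N : ℝ) ^ (3 / 4 : ℝ) := by
    rw [← Real.rpow_add hN0]
    norm_num
  have h7 : 0 < (N : ℝ) ^ (1 / 4 : ℝ) := Real.rpow_pos_of_pos hN0 _
  have h8 : 32 * (N : ℝ) ^ (1 / 4 : ℝ) ≤ N := by
    calc 32 * (N : ℝ) ^ (1 / 4 : ℝ) = (N : ℝ) ^ (1 / 4 : ℝ) * 32 := mul_comm _ _
      _ ≤ (N : ℝ) ^ (1 / 4 : ℝ) * (N : ℝ) ^ (3 / 4 : ℝ) := mul_le_mul_of_nonneg_left hN1 h7.le
      _ = N := h6.symm
  constructor
  · unfold Hn
    rw [Nat.one_le_floor_iff]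
    exact Real.one_le_rpow hN1' h0.le
  · have h9 : 16 * ((Hn θ N : ℝ) + 20) ≤ N := by
      have : (640 : ℝ) ≤ N := by exact_mod_cast hN2
      linarith
    exact_mod_cast h9

private theorem Blk_ev_log (K : ℝ) : ∀ᶠ N : ℕ in Filter.atTop, K ≤ Real.log N :=
  (Real.tendsto_log_atTop.comp tendsto_natCast_atTop_atTop).eventually_ge_atTop K

/-- the final inequality of the count -/
private theorem Blk_arith {E D N H l : ℝ} {A A' : ℕ} (hE : 0 ≤ E) (hH : 0 < H)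
    (hN : 0 ≤ N) (hl : 128 * 2 ^ (A + 3 * A' + 2) ≤ l)
    (hD : H / (8 * l ^ (A' + 1)) ≤ D)
    (h : E * (D * (H / (2 * l ^ A')) ^ 2) ≤
      4 * N * H ^ 2 * 2 ^ (A + 3 * A' + 2) / l ^ (A + 3 * A' + 2)) :
    E ≤ N / H / l ^ A := by
  have hl0 : 0 < l := lt_of_lt_of_le (by positivity) hl
  have h1 : E * (H / (8 * l ^ (A' + 1)) * (H / (2 * l ^ A')) ^ 2) ≤
      4 * N * H ^ 2 * 2 ^ (A + 3 * A' + 2) / l ^ (A + 3 * A' + 2) := by
    refine le_trans (mul_le_mul_of_nonneg_left ?_ hE) h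
    exact mul_le_mul_of_nonneg_right hD (by positivity)
  have e1 : E * (H / (8 * l ^ (A' + 1)) * (H / (2 * l ^ A')) ^ 2) =
      (E * H) * (H ^ 2 / (32 * l ^ (3 * A' + 1))) := by
    have : l ^ (3 * A' + 1) = l ^ (A' + 1) * (l ^ A') ^ 2 := by ring
    rw [this]
    field_simp
    ring
  have e2 : 4 * N * H ^ 2 * 2 ^ (A + 3 * A' + 2) / l ^ (A + 3 * A' + 2) =
      (N / l ^ A * (128 * 2 ^ (A + 3 * A' + 2) / l)) * (H ^ 2 / (32 * l ^ (3 * A' + 1))) := by
    have : l ^ (A + 3 * A' + 2) = l ^ A * l * l ^ (3 * A' + 1) := by ring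
    rw [this]
    field_simp
    ring
  rw [e1, e2] at h1
  have h2 : E * H ≤ N / l ^ A * (128 * 2 ^ (A + 3 * A' + 2) / l) :=
    le_of_mul_le_mul_right h1 (by positivity)
  have h3 : 128 * 2 ^ (A + 3 * A' + 2) / l ≤ 1 := by
    rw [div_le_one hl0]
    exact hl
  have h4 : E * H ≤ N / l ^ A := by
    refine h2.trans ?_
    exact mul_le_of_le_one_right (by positivity) h3
  rw [div_div, mul_comm H, ← div_div, le_div_iff₀ hH]
  exact h4

private theorem Blk_third {θ : ℝ} {N K : ℕ} (h2 : θ ≤ 1 / 4) (hN : 4096 ≤ N) (hK : N ≤ 8 * K) :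
    (Hn θ N : ℝ) ≤ (K : ℝ) ^ (1 / 3 : ℝ) := by
  have hNr : (4096 : ℝ) ≤ N := by exact_mod_cast hN
  have hN0 : (0 : ℝ) < N := by linarith
  have a1 : (Hn θ N : ℝ) ≤ (N : ℝ) ^ θ := Nat.floor_le (by positivity)
  have a2 : (N : ℝ) ^ θ ≤ (N : ℝ) ^ (1 / 4 : ℝ) := Real.rpow_le_rpow_of_exponent_le (by linarith) h2
  have a3 : (N : ℝ) / 8 ≤ K := by
    have h5 : (N : ℝ) ≤ 8 * K := by exact_mod_cast hK
    linarith
  have a4 : ((N : ℝ) / 8) ^ (1 / 3 : ℝ) ≤ (K : ℝ) ^ (1 / 3 : ℝ) :=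
    Real.rpow_le_rpow (by positivity) a3 (by norm_num)
  have a5 : ((N : ℝ) / 8) ^ (1 / 3 : ℝ) = (N : ℝ) ^ (1 / 3 : ℝ) / 2 := by
    rw [Real.div_rpow hN0.le (by norm_num)]
    congr 1
    rw [show (8 : ℝ) = 2 ^ (3 : ℝ) by norm_num, ← Real.rpow_mul (by norm_num)]
    norm_num
  have a6 : (N : ℝ) ^ (1 / 3 : ℝ) = (N : ℝ) ^ (1 / 4 : ℝ) * (N : ℝ) ^ (1 / 12 : ℝ) := by
    rw [← Real.rpow_add hN0]
    norm_num
  have a7 : (2 : ℝ) ≤ (N : ℝ) ^ (1 / 12 : ℝ) := by
    have h6 : (4096 : ℝ) ^ (1 / 12 : ℝ) = 2 := by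
      rw [show (4096 : ℝ) = 2 ^ (12 : ℝ) by norm_num, ← Real.rpow_mul (by norm_num)]
      norm_num
    rw [← h6]
    exact Real.rpow_le_rpow (by norm_num) hNr (by norm_num)
  have a8 : (0 : ℝ) ≤ (N : ℝ) ^ (1 / 4 : ℝ) := by positivity
  have a9 : (N : ℝ) ^ (1 / 4 : ℝ) * 2 ≤ (N : ℝ) ^ (1 / 4 : ℝ) * (N : ℝ) ^ (1 / 12 : ℝ) :=
    mul_le_mul_of_nonneg_left a7 a8
  linarith

/-- one application of `HUX` -/
private theorem Blk_app {N K H d A B : ℕ} {S : ℝ} (hlog : Real.log N / 2 ≤ Real.log K)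
    (hlog2 : 4 ≤ Real.log N)
    (hd : (d : ℝ) ≤ Real.log N ^ B)
    (hS : (d : ℝ) ≤ Real.log K ^ (2 * B) → S ≤ K * (H : ℝ) ^ 2 / Real.log K ^ A) :
    S ≤ K * (H : ℝ) ^ 2 * 2 ^ A / Real.log N ^ A := by
  have h1 : 2 ≤ Real.log K := by linarith
  have h2 : (d : ℝ) ≤ Real.log K ^ (2 * B) := by
    calc (d : ℝ) ≤ Real.log N ^ B := hd
      _ ≤ (Real.log K * Real.log K) ^ B := by
          refine pow_le_pow_left₀ (by linarith) ?_ B
          nlinarith
      _ = Real.log K ^ (2 * B) := by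
          rw [← pow_two, ← pow_mul]
  refine (hS h2).trans ?_
  have h3 : 0 < Real.log N := by linarith
  have h4 : (Real.log N / 2) ^ A ≤ Real.log K ^ A := pow_le_pow_left₀ (by linarith) hlog A
  have h5 : K * (H : ℝ) ^ 2 * 2 ^ A / Real.log N ^ A = K * (H : ℝ) ^ 2 / (Real.log N / 2) ^ A := by
    rw [div_pow]
    field_simp
  rw [h5]
  exact div_le_div_of_nonneg_left (by positivity) (by positivity) h4

open Classical in
theorem cls_blk (θ θ' : ℝ) (h0 : 0 < θ') (h1 : θ' < θ) (h2 : θ ≤ 1 / 4) (hx : HUX θ') (A A' B : ℕ) :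
    ∃ N0 : ℕ, ∀ N : ℕ, N0 ≤ N → ∀ d c : ℕ, 1 ≤ d → (d : ℝ) ≤ Real.log N ^ B →
      (((idx N (Hn θ N)).filter (fun i => (Hn θ N : ℝ) / Real.log N ^ A' <
        |(∑ n ∈ (blk (Hn θ N) i).filter (fun n => n % d = c % d), Lam n)
          - (if Nat.Coprime c d then (Hn θ N : ℝ) / d.totient else 0)|)).card : ℝ)
      ≤ (N : ℝ) / (Hn θ N) / Real.log N ^ A := by
  obtain ⟨N1, hN1⟩ := hx (A + 3 * A' + 2) (2 * B)
  have hev : ∀ᶠ N : ℕ in Filter.atTop, 4 * (N1 + 1024) ≤ N := Filter.eventually_ge_atTop _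
  obtain ⟨N0, hN0⟩ := Filter.eventually_atTop.mp (((Blk_ev_H1 h0 h1).and
    (Blk_ev_H2 (h0.trans h1) h2)).and ((Blk_ev_log (128 * 2 ^ (A + 3 * A' + 2))).and hev))
  refine ⟨N0, fun N hN d c hd1 hd => ?_⟩
  obtain ⟨⟨hH1, hHpos, hH2⟩, hL, hNN⟩ := hN0 N hN
  set H : ℕ := Hn θ N with hHdef
  set K : ℕ := N / 4 with hKdef
  set M : ℝ := (if Nat.Coprime c d then (H : ℝ) / d.totient else 0) with hM
  have hp2 : (1 : ℝ) ≤ 2 ^ (A + 3 * A' + 2) := one_le_pow₀ (by norm_num)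
  have hL128 : 128 ≤ Real.log N := by linarith
  have hL0 : 0 < Real.log N := by linarith
  have hNpos : 0 < N := by omega
  have hNR : (0 : ℝ) < N := by exact_mod_cast hNpos
  have hHR : (0 : ℝ) < H := by exact_mod_cast hHpos
  -- the logarithms
  have hlogK : ∀ K' : ℕ, K ≤ K' → Real.log N / 2 ≤ Real.log K' := by
    intro K' hK'
    have h3 : (N : ℝ) / 8 ≤ K' := by
      have h4 : N ≤ 8 * K' := by omega
      have h5 : (N : ℝ) ≤ 8 * K' := by exact_mod_cast h4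
      linarith
    have h6 : Real.log ((N : ℝ) / 8) ≤ Real.log K' := Real.log_le_log (by positivity) h3
    rw [Real.log_div hNR.ne' (by norm_num)] at h6
    have h7 : Real.log 8 ≤ 8 := by
      have := Real.log_le_sub_one_of_pos (by norm_num : (0 : ℝ) < 8)
      linarith
    linarith
  -- the mean squares
  set G : ℕ → ℝ := fun x => ((∑ n ∈ (Ioc x (x + H)).filter (fun n => n % d = c % d), Lam n)
        - M) ^ 2 with hG
  have happ : ∀ K' : ℕ, K ≤ K' → K' ≤ 2 * N → ∑ x ∈ Ioc K' (2 * K'), G x ≤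
      K' * (H : ℝ) ^ 2 * 2 ^ (A + 3 * A' + 2) / Real.log N ^ (A + 3 * A' + 2) := by
    intro K' hK1 hK2
    refine Blk_app (d := d) (B := B) (hlogK K' hK1) (by linarith) hd fun hd' => ?_
    have hb1 : 4096 ≤ N := le_trans (le_trans (by norm_num) (Nat.mul_le_mul_left 4 (Nat.le_add_left 1024 N1))) hNN
    have hb2 : N ≤ 8 * K' := by omega
    have hb3 : (H : ℝ) ≤ (K' : ℝ) ^ (1 / 3 : ℝ) := Blk_third h2 hb1 hb2
    refine hN1 K' (by omega) H ?_ hb3 d c hd1 hd'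
    refine le_trans ?_ hH1
    refine Real.rpow_le_rpow (Nat.cast_nonneg _) ?_ h0.le
    exact_mod_cast hK2
  have hsum : ∑ x ∈ Ioc K (16 * K), G x ≤
      4 * N * (H : ℝ) ^ 2 * 2 ^ (A + 3 * A' + 2) / Real.log N ^ (A + 3 * A' + 2) := by
    rw [Blk_cover G K]
    have a1 := happ K le_rfl (by omega)
    have a2 := happ (2 * K) (by omega) (by omega)
    have a3 := happ (4 * K) (by omega) (by omega)
    have a4 := happ (8 * K) (by omega) (by omega)
    have hK4 : 4 * (K : ℝ) ≤ N := by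
      have : 4 * K ≤ N := by omega
      exact_mod_cast this
    have hq : 0 ≤ (H : ℝ) ^ 2 * 2 ^ (A + 3 * A' + 2) / Real.log N ^ (A + 3 * A' + 2) := by
      positivity
    have e0 : ∀ z : ℝ, z * (H : ℝ) ^ 2 * 2 ^ (A + 3 * A' + 2) / Real.log N ^ (A + 3 * A' + 2) =
        z * ((H : ℝ) ^ 2 * 2 ^ (A + 3 * A' + 2) / Real.log N ^ (A + 3 * A' + 2)) := by
      intro z
      ring
    rw [e0] at a1 a2 a3 a4 ⊢
    push_cast at a2 a3 a4
    have h5 : 15 * (K : ℝ) * ((H : ℝ) ^ 2 * 2 ^ (A + 3 * A' + 2) /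
        Real.log N ^ (A + 3 * A' + 2)) ≤ 4 * N * ((H : ℝ) ^ 2 * 2 ^ (A + 3 * A' + 2) /
        Real.log N ^ (A + 3 * A' + 2)) := mul_le_mul_of_nonneg_right (by linarith) hq
    linarith
  -- the shifts
  set δ : ℕ := ⌊(H : ℝ) / (8 * Real.log N ^ (A' + 1))⌋₊ with hδ
  have hLp : ∀ n : ℕ, 1 ≤ Real.log N ^ n := fun n => one_le_pow₀ (by linarith)
  have hδ1 : (δ : ℝ) ≤ (H : ℝ) / (8 * Real.log N ^ (A' + 1)) := Nat.floor_le (by positivity)
  have hδ2 : (H : ℝ) / (8 * Real.log N ^ (A' + 1)) ≤ ((δ + 1 : ℕ) : ℝ) := by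
    push_cast
    exact (Nat.lt_floor_add_one _).le
  have hδH : δ < H := by
    have h3 : (H : ℝ) / (8 * Real.log N ^ (A' + 1)) < H := by
      rw [div_lt_iff₀ (by positivity)]
      have := hLp (A' + 1)
      nlinarith
    have h4 : (δ : ℝ) < H := lt_of_le_of_lt hδ1 h3
    exact_mod_cast h4
  set bad : Finset ℕ := (idx N H).filter (fun i => (H : ℝ) / Real.log N ^ A' <
        |(∑ n ∈ (blk H i).filter (fun n => n % d = c % d), Lam n) - M|) with hbad
  have hrange : ∀ i ∈ idx N H, 1 ≤ i * H ∧ K + 1 ≤ i * H - 1 ∧ i * H - 1 + δ ≤ 16 * K ∧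
      i * H + H + δ ≤ 4 * N := by
    intro i hi
    unfold idx at hi
    rw [mem_Icc] at hi
    have h3 : i * H ≤ 3 * N := by
      have := Nat.mul_le_mul_right H hi.2
      exact this.trans (Nat.div_mul_le_self _ _)
    have h4 : N < 2 * (i * H) + 2 * H := by
      have h5 : N / (2 * H) * (2 * H) ≤ i * (2 * H) := Nat.mul_le_mul_right _ hi.1
      have h6 : N < N / (2 * H) * (2 * H) + 2 * H := by
        have := Nat.lt_div_mul_add (a := N) (b := 2 * H) (by omega)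
        exact this
      have h7 : i * (2 * H) = 2 * (i * H) := by ring
      omega
    refine ⟨?_, ?_, ?_, ?_⟩ <;> omega
  have hlog4 : Real.log ((4 * N : ℕ) : ℝ) ≤ 2 * Real.log N := by
    push_cast
    rw [Real.log_mul (by norm_num) hNR.ne']
    have h7 : Real.log 4 ≤ 4 := by
      have := Real.log_le_sub_one_of_pos (by norm_num : (0 : ℝ) < 4)
      linarith
    linarith
  have hcount := Blk_count G (fun x => sq_nonneg _) bad H δ K
    (g := ((H : ℝ) / (2 * Real.log N ^ A')) ^ 2) hδH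
    (fun i hi => by
      have := hrange i (Finset.mem_filter.mp hi).1
      exact ⟨this.1, this.2.1, this.2.2.1⟩)
    (fun i hi j hj => by
      obtain ⟨hi1, hi2⟩ := Finset.mem_filter.mp hi
      obtain ⟨r1, _, _, r4⟩ := hrange i hi1
      have hs := Blk_shift (fun n => if n % d = c % d then Lam n else 0)
        (fun n => by
          split_ifs
          · exact Blk_Lam_nonneg n
          · exact le_rfl) (K := Real.log ((4 * N : ℕ) : ℝ)) (i * H) j H (4 * N) r1 (by omega)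
        (fun n hn => by
          split_ifs
          · exact Blk_Lam_le hn
          · exact Real.log_natCast_nonneg _)
      rw [← Finset.sum_filter, ← Finset.sum_filter] at hs
      have hblk : blk H i = Ico (i * H) (i * H + H) := by
        unfold blk
        congr 1
        ring
      rw [hblk] at hi2
      set T := ∑ n ∈ (Ioc (i * H - 1 + j) (i * H - 1 + j + H)).filter (fun n => n % d = c % d),
        Lam n
      set S := ∑ n ∈ (Ico (i * H) (i * H + H)).filter (fun n => n % d = c % d), Lam n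
      have hj' : (j : ℝ) ≤ (H : ℝ) / (8 * Real.log N ^ (A' + 1)) :=
        le_trans (by exact_mod_cast hj) hδ1
      have h3 : |T - S| ≤ (H : ℝ) / (4 * Real.log N ^ A') := by
        refine hs.trans ?_
        calc (j : ℝ) * Real.log ((4 * N : ℕ) : ℝ) ≤
            ((H : ℝ) / (8 * Real.log N ^ (A' + 1))) * (2 * Real.log N) :=
              mul_le_mul hj' hlog4 (Real.log_natCast_nonneg _) (by positivity)
          _ = (H : ℝ) / (4 * Real.log N ^ A') := by
              rw [pow_succ]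
              field_simp
              norm_num
      have h4 : |S - M| ≤ |T - M| + |T - S| := by
        have e : S - M = (T - M) - (T - S) := by ring
        rw [e]
        exact abs_sub _ _
      have h5 : (H : ℝ) / (2 * Real.log N ^ A') ≤ |T - M| := by
        have e1 : (H : ℝ) / (4 * Real.log N ^ A') = (H : ℝ) / Real.log N ^ A' / 4 := by
          rw [mul_comm 4, ← div_div]
        have e2 : (H : ℝ) / (2 * Real.log N ^ A') = (H : ℝ) / Real.log N ^ A' / 2 := by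
          rw [mul_comm 2, ← div_div]
        rw [e1] at h3
        rw [e2]
        have h6 : 0 < (H : ℝ) / Real.log N ^ A' := by positivity
        linarith
      have h6 := pow_le_pow_left₀ (by positivity) h5 2
      rw [sq_abs] at h6
      exact h6)
  exact Blk_arith (Nat.cast_nonneg _) hHR hNR.le hL hδ2 (hcount.trans hsum)

/-- the representative of `m` in `[1, r]` -/
private def Blk_kap (r m : ℕ) : ℕ := if m % r = 0 then r else m % r

private theorem Blk_kap_mem {r : ℕ} (hr : 1 ≤ r) (m : ℕ) : Blk_kap r m ∈ Icc 1 r := by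
  unfold Blk_kap
  have := Nat.mod_lt m (by omega : 0 < r)
  rw [mem_Icc]
  split_ifs <;> omega

private theorem Blk_kap_eq {r : ℕ} {m c : ℕ} (hc : c ∈ Icc 1 r) :
    Blk_kap r m = c ↔ m % r = c % r := by
  rw [mem_Icc] at hc
  unfold Blk_kap
  rcases Nat.lt_or_ge c r with h | h
  · rw [Nat.mod_eq_of_lt h]
    split_ifs with h1
    · omega
    · rfl
  · have h2 : c = r := by omega
    rw [h2, Nat.mod_self]
    have := Nat.mod_lt m (by omega : 0 < r)
    split_ifs with h1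
    · simp [h1]
    · constructor
      · intro h3
        omega
      · intro h3
        exact absurd h3 h1

private theorem Blk_ee_int (t : ℝ) (k : ℤ) : ee (t + k) = ee t := by
  unfold Pool.Agent.H91.PK.ee
  have e : 2 * Real.pi * ((t + k : ℝ) : ℂ) * Complex.I =
      2 * Real.pi * (t : ℂ) * Complex.I + k * (2 * Real.pi * Complex.I) := by
    push_cast
    ring
  rw [e, Complex.exp_add, Complex.exp_int_mul_two_pi_mul_I, mul_one]

private theorem Blk_ee_norm (t : ℝ) : ‖ee t‖ = 1 := by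
  unfold Pool.Agent.H91.PK.ee
  have e : 2 * Real.pi * (t : ℂ) * Complex.I = ((2 * Real.pi * t : ℝ) : ℂ) * Complex.I := by
    push_cast
    ring
  rw [e, Complex.norm_exp_ofReal_mul_I]

private theorem Blk_ee_neg (t : ℝ) : ee (-t) = (starRingEnd ℂ) (ee t) := by
  unfold Pool.Agent.H91.PK.ee
  rw [← Complex.exp_conj]
  congr 1
  simp only [map_mul, Complex.conj_ofReal, Complex.conj_I, map_ofNat]
  push_cast
  ring

private theorem Blk_ee_mod {r m c : ℕ} (a : ℕ) (hr : 1 ≤ r) (h : m % r = c % r) :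
    ee (-((a : ℝ) * m / r)) = ee (-((a : ℝ) * c / r)) := by
  have hr0 : (r : ℝ) ≠ 0 := by exact_mod_cast (by omega : r ≠ 0)
  have h1 : (r : ℤ) ∣ (m : ℤ) - c := by
    have : c ≡ m [MOD r] := h.symm
    exact (Nat.modEq_iff_dvd.mp this)
  obtain ⟨k, hk⟩ := h1
  have h2 : (m : ℝ) = c + r * k := by
    have : ((m : ℤ) : ℝ) = ((c + r * k : ℤ) : ℝ) := by
      congr 1
      linarith
    push_cast at this
    exact this
  have h3 : -((a : ℝ) * m / r) = -((a : ℝ) * c / r) + ((-(a * k) : ℤ) : ℝ) := by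
    rw [h2]
    push_cast
    field_simp
    ring
  rw [h3, Blk_ee_int]

/-- the Ramanujan sum -/
private theorem Blk_ram {a r : ℕ} (hr : 1 ≤ r) (har : Nat.Coprime a r) :
    ∑ c ∈ (Icc 1 r).filter (fun c => Nat.Coprime c r), ee (-((a : ℝ) * c / r)) =
      ((ArithmeticFunction.moebius r : ℝ) : ℂ) := by
  have h1 := Pool.Agent.H91.EHA.ramS_eq r a hr
  have h2 : ramS r a = (ArithmeticFunction.moebius r : ℝ) := by
    unfold Pool.Agent.H91.EHA.ramS
    rw [Nat.Coprime.gcd_eq_one har.symm]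
    simp
  rw [h2] at h1
  have h3 := congrArg (starRingEnd ℂ) h1
  rw [Complex.conj_ofReal, map_sum] at h3
  rw [h3]
  refine Finset.sum_congr rfl fun c _ => ?_
  rw [Blk_ee_neg]

/-- the twist of the block, from the classes -/
private theorem Blk_twist {H i a r : ℕ} {ε : ℝ} (hr : 1 ≤ r) (har : Nat.Coprime a r)
    (h : ∀ c ∈ Icc 1 r, |(∑ n ∈ (blk H i).filter (fun n => n % r = c % r), Lam n)
          - (if Nat.Coprime c r then (H : ℝ) / r.totient else 0)| ≤ ε) :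
    ‖∑ m ∈ blk H i, ((Lam m : ℝ) : ℂ) * ee (-((a : ℝ) * m / r))
      - (((ArithmeticFunction.moebius r : ℝ) / (r.totient : ℝ) * H : ℝ) : ℂ)‖ ≤ r * ε := by
  have h1 : ∑ m ∈ blk H i, ((Lam m : ℝ) : ℂ) * ee (-((a : ℝ) * m / r)) =
      ∑ c ∈ Icc 1 r, ee (-((a : ℝ) * c / r)) *
        ((∑ n ∈ (blk H i).filter (fun n => n % r = c % r), Lam n : ℝ) : ℂ) := by
    rw [← Finset.sum_fiberwise_of_maps_to (s := blk H i) (t := Icc 1 r) (g := Blk_kap r)
      (fun m _ => Blk_kap_mem hr m)]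
    refine Finset.sum_congr rfl fun c hc => ?_
    have e1 : (blk H i).filter (fun m => Blk_kap r m = c) =
        (blk H i).filter (fun n => n % r = c % r) := by
      ext m
      simp only [Finset.mem_filter, Blk_kap_eq hc]
    rw [e1]
    push_cast
    rw [Finset.mul_sum]
    refine Finset.sum_congr rfl fun m hm => ?_
    rw [Blk_ee_mod a hr (Finset.mem_filter.mp hm).2]
    ring
  have h2 : (((ArithmeticFunction.moebius r : ℝ) / (r.totient : ℝ) * H : ℝ) : ℂ) =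
      ∑ c ∈ Icc 1 r, ee (-((a : ℝ) * c / r)) *
        ((if Nat.Coprime c r then (H : ℝ) / r.totient else 0 : ℝ) : ℂ) := by
    have e1 : ∑ c ∈ Icc 1 r, ee (-((a : ℝ) * c / r)) *
        ((if Nat.Coprime c r then (H : ℝ) / r.totient else 0 : ℝ) : ℂ) =
        ∑ c ∈ (Icc 1 r).filter (fun c => Nat.Coprime c r), ee (-((a : ℝ) * c / r)) *
          (((H : ℝ) / r.totient : ℝ) : ℂ) := by
      rw [Finset.sum_filter]
      refine Finset.sum_congr rfl fun c _ => ?_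
      split_ifs <;> simp
    rw [e1, ← Finset.sum_mul, Blk_ram hr har]
    push_cast
    ring
  rw [h1, h2, ← Finset.sum_sub_distrib]
  calc ‖∑ c ∈ Icc 1 r, (ee (-((a : ℝ) * c / r)) *
        ((∑ n ∈ (blk H i).filter (fun n => n % r = c % r), Lam n : ℝ) : ℂ) -
        ee (-((a : ℝ) * c / r)) *
        ((if Nat.Coprime c r then (H : ℝ) / r.totient else 0 : ℝ) : ℂ))‖
      ≤ ∑ _c ∈ Icc 1 r, ε := by
        refine norm_sum_le_of_le _ fun c hc => ?_
        rw [← mul_sub, norm_mul, Blk_ee_norm, one_mul, ← Complex.ofReal_sub, Complex.norm_real,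
          Real.norm_eq_abs]
        exact h c hc
    _ = r * ε := by
        rw [Finset.sum_const, Nat.card_Icc, nsmul_eq_mul]
        congr 2

theorem badP_card (θ θ' : ℝ) (h0 : 0 < θ') (h1 : θ' < θ) (h2 : θ ≤ 1 / 4) (hx : HUX θ') (A B : ℕ) :
    ∃ N0 : ℕ, ∀ N : ℕ, N0 ≤ N →
      ((badP N (Hn θ N) A B).card : ℝ) ≤ (N : ℝ) / (Hn θ N) / Real.log N ^ A := by
  classical
  obtain ⟨N0, hN0⟩ := cls_blk θ θ' h0 h1 h2 hx (A + 2 * B) (A + B) B
  obtain ⟨N1, hN1⟩ := Filter.eventually_atTop.mp ((Blk_ev_log 1).and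
    (Blk_ev_H2 (h0.trans h1) h2))
  refine ⟨max N0 N1, fun N hN => ?_⟩
  obtain ⟨hL, hHpos, _⟩ := hN1 N ((le_max_right _ _).trans hN)
  have hcls := hN0 N ((le_max_left _ _).trans hN)
  have hL0 : 0 < Real.log N := by linarith
  have hHR : (0 : ℝ) < Hn θ N := by exact_mod_cast hHpos
  set H := Hn θ N with hH
  set R : ℕ := ⌊Real.log N ^ B⌋₊ with hR
  have hRle : (R : ℝ) ≤ Real.log N ^ B := Nat.floor_le (by positivity)
  let bad : ℕ → ℕ → Finset ℕ := fun d c => (idx N H).filter (fun i =>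
    (H : ℝ) / Real.log N ^ (A + B) <
        |(∑ n ∈ (blk H i).filter (fun n => n % d = c % d), Lam n)
          - (if Nat.Coprime c d then (H : ℝ) / d.totient else 0)|)
  have hsub : badP N H A B ⊆ (Icc 1 R ×ˢ Icc 1 R).biUnion (fun t => bad t.1 t.2) := by
    intro i hi
    unfold badP at hi
    rw [Finset.mem_filter] at hi
    obtain ⟨hi1, r, a, hr1, hrB, har, hlt⟩ := hi
    have hrR : r ≤ R := Nat.le_floor hrB
    by_contra hcon
    apply absurd hlt
    rw [not_lt]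
    have h3 := Blk_twist (H := H) (i := i) (ε := (H : ℝ) / Real.log N ^ (A + B)) hr1 har
      (fun c hc => by
        by_contra hc2
        rw [not_le] at hc2
        apply hcon
        rw [Finset.mem_biUnion]
        rw [mem_Icc] at hc
        refine ⟨(r, c), ?_, ?_⟩
        · rw [Finset.mem_product, mem_Icc, mem_Icc]
          exact ⟨⟨hr1, hrR⟩, hc.1, hc.2.trans hrR⟩
        · exact Finset.mem_filter.mpr ⟨hi1, hc2⟩)
    refine h3.trans ?_
    calc (r : ℝ) * ((H : ℝ) / Real.log N ^ (A + B)) ≤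
        Real.log N ^ B * ((H : ℝ) / Real.log N ^ (A + B)) :=
          mul_le_mul_of_nonneg_right hrB (by positivity)
      _ = (H : ℝ) / Real.log N ^ A := by
          rw [pow_add]
          field_simp
  have hc1 : ∀ t ∈ Icc 1 R ×ˢ Icc 1 R, ((bad t.1 t.2).card : ℝ) ≤
      (N : ℝ) / H / Real.log N ^ (A + 2 * B) := by
    intro t ht
    rw [Finset.mem_product, mem_Icc, mem_Icc] at ht
    have h3 : (t.1 : ℝ) ≤ Real.log N ^ B := le_trans (by exact_mod_cast ht.1.2) hRle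
    have h4 := hcls t.1 t.2 ht.1.1 h3
    refine le_trans (le_of_eq ?_) h4
    congr 2
  calc ((badP N H A B).card : ℝ) ≤
      (((Icc 1 R ×ˢ Icc 1 R).biUnion (fun t => bad t.1 t.2)).card : ℝ) := by
        exact_mod_cast Finset.card_le_card hsub
    _ ≤ ∑ t ∈ Icc 1 R ×ˢ Icc 1 R, ((bad t.1 t.2).card : ℝ) := by
        exact_mod_cast Finset.card_biUnion_le
    _ ≤ ∑ _t ∈ Icc 1 R ×ˢ Icc 1 R, (N : ℝ) / H / Real.log N ^ (A + 2 * B) :=
        Finset.sum_le_sum hc1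
    _ = (R : ℝ) * R * ((N : ℝ) / H / Real.log N ^ (A + 2 * B)) := by
        rw [Finset.sum_const, Finset.card_product, Nat.card_Icc, nsmul_eq_mul]
        push_cast
        simp
    _ ≤ Real.log N ^ B * Real.log N ^ B * ((N : ℝ) / H / Real.log N ^ (A + 2 * B)) := by
        refine mul_le_mul_of_nonneg_right ?_ (by positivity)
        exact mul_le_mul hRle hRle (Nat.cast_nonneg _) (by positivity)
    _ = (N : ℝ) / H / Real.log N ^ A := by
        rw [pow_add, two_mul, pow_add]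
        field_simp

end Pool.Agent.H43.MP

end

section

/-!
# MIDP ClsVar: variance of a sequence in the classes modulo the primes of `(P, 2P]`

`Z(p,b) - Z/p = (1/p) ∑_{l=1}^{p-1} S(l/p) ee(-b l/p)`, `S(α) = ∑_{m ∈ blk} a_m ee(m α)` (orthogonality of the additive characters mod `p`,
`Pool.Agent.H92.EH.sum_complete`), so `∑_{b mod p} |Z(p,b) - Z/p|^2 = (1/p) ∑_{l=1}^{p-1} |S(l/p)|^2` (Parseval on `ℤ/p`; the inequality `≤` is enough).
The large sieve `Pool.Agent.H91.PK.additive_ls` with `2P` for `R` (restricted to the prime moduli `r = p ∈ pb P`, all `b` with `1 ≤ b < p` are coprime to `p`;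
`blk H i = Ico (iH) ((i+1)H)` is the interval `Ioc K0 (K0 + H)` with `K0 = i H - 1` if `i H ≥ 1`; for `i H = 0` shift: the element `0` can be treated by
a translation `m ↦ m + 1` of the sequence, which changes `S` by a unimodular factor) gives the bound `((2P)^2 + π H) ∑ |a|^2`.
-/

set_option autoImplicit false

namespace Pool.Agent.H43.MP

open Finset
open Pool.Agent.H91.PK (ee)
open Pool.Agent.H91.EHA (Lam hR lamR ramS)
open Pool.Agent.H35.W (pb)

private theorem ClsVar_ee (t : ℝ) : ee t = Pool.Agent.H92.EH.e t := by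
  unfold Pool.Agent.H91.PK.ee Pool.Agent.H92.EH.e
  congr 1
  push_cast
  ring

private theorem ClsVar_mod {p b m : ℕ} (hb : b < p) : m ≡ b [MOD p] ↔ m % p = b := by
  unfold Nat.ModEq
  rw [Nat.mod_eq_of_lt hb]

/-- sums over the classes -/
private theorem ClsVar_fiber (p : ℕ) (hp : 0 < p) (s : Finset ℕ) (a : ℕ → ℂ) (f : ℕ → ℂ)
    (hf : ∀ m, f (m % p) = f m) :
    ∑ b ∈ range p, (∑ m ∈ s.filter (fun m => m ≡ b [MOD p]), a m) * f b = ∑ m ∈ s, a m * f m := by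
  have h1 : ∀ b ∈ range p, (∑ m ∈ s.filter (fun m => m ≡ b [MOD p]), a m) * f b =
      ∑ m ∈ s, if m % p = b then a m * f m else 0 := by
    intro b hb
    rw [sum_mul, sum_filter]
    refine sum_congr rfl fun m _ => ?_
    have hb' := mem_range.1 hb
    by_cases h : m % p = b
    · rw [if_pos ((ClsVar_mod hb').2 h), if_pos h, ← h, hf]
    · rw [if_neg (fun h' => h ((ClsVar_mod hb').1 h')), if_neg h]
  rw [sum_congr rfl h1, sum_comm]
  refine sum_congr rfl fun m _ => ?_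
  rw [sum_ite_eq, if_pos (mem_range.2 (Nat.mod_lt _ hp))]

/-- the variance in the classes modulo a prime -/
private theorem ClsVar_prime (p H i : ℕ) (hp : 0 < p) (a : ℕ → ℂ) :
    (p : ℝ) * ∑ b ∈ range p, ‖Zc a H i p b - (1 / (p : ℂ)) * ∑ m ∈ blk H i, a m‖ ^ 2 =
      ∑ l ∈ (range p).erase 0, ‖∑ m ∈ blk H i, a m * ee ((m : ℝ) * l / p)‖ ^ 2 := by
  have hp0 : (p : ℂ) ≠ 0 := by exact_mod_cast hp.ne'
  have h1 := Pool.Agent.H92.EH.parseval_le p hp (range p)
    (fun b => Zc a H i p b - (1 / (p : ℂ)) * ∑ m ∈ blk H i, a m) (fun b => (b : ℤ)) (by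
      intro x hx y hy hne hd
      have hx' := mem_range.1 hx
      have hy' := mem_range.1 hy
      obtain ⟨k, hk⟩ := hd
      have hk0 : k = 0 := by
        by_contra hk0
        rcases lt_or_gt_of_ne hk0 with h | h
        · have : (p : ℤ) * k ≤ -p := by nlinarith
          omega
        · have : (p : ℤ) ≤ p * k := by nlinarith
          omega
      rw [hk0, mul_zero] at hk
      omega)
  rw [← h1]
  have h2 : ∀ l : ℕ, ∑ b ∈ range p, (Zc a H i p b - (1 / (p : ℂ)) * ∑ m ∈ blk H i, a m) *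
      Pool.Agent.H92.EH.e (((b : ℤ) : ℝ) * ((l : ℝ) / p)) =
      (∑ m ∈ blk H i, a m * ee ((m : ℝ) * l / p)) -
        (1 / (p : ℂ)) * (∑ m ∈ blk H i, a m) * ∑ b ∈ range p, Pool.Agent.H92.EH.e (((l : ℤ) : ℝ) * ((b : ℝ) / p)) := by
    intro l
    simp_rw [sub_mul]
    rw [sum_sub_distrib]
    congr 1
    · have h3 := ClsVar_fiber p hp (blk H i) a (fun m => Pool.Agent.H92.EH.e (((m : ℤ) : ℝ) * ((l : ℝ) / p))) (by
        intro m
        have h4 := Pool.Agent.H92.EH.e_mod p m hp (l : ℤ)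
        have e1 : (((m % p : ℕ) : ℤ) : ℝ) * ((l : ℝ) / p) = ((l : ℤ) : ℝ) * (((m % p : ℕ) : ℝ) / p) := by
          rw [Int.cast_natCast, Int.cast_natCast]
          ring
        have e2 : ((m : ℤ) : ℝ) * ((l : ℝ) / p) = ((l : ℤ) : ℝ) * ((m : ℝ) / p) := by
          push_cast
          ring
        beta_reduce
        rw [e1, e2]
        exact h4)
      unfold Zc
      rw [h3]
      refine sum_congr rfl fun m _ => ?_
      rw [ClsVar_ee]
      congr 2
      push_cast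
      ring
    · rw [Finset.mul_sum (range p)]
      refine sum_congr rfl fun b _ => ?_
      congr 2
      push_cast
      ring
  simp_rw [h2]
  have h0 : (0 : ℕ) ∈ range p := mem_range.2 hp
  rw [← add_sum_erase (range p) _ h0]
  have h5 : ‖(∑ m ∈ blk H i, a m * ee ((m : ℝ) * ((0 : ℕ) : ℝ) / p)) -
        (1 / (p : ℂ)) * (∑ m ∈ blk H i, a m) * ∑ b ∈ range p, Pool.Agent.H92.EH.e ((((0 : ℕ) : ℤ) : ℝ) * ((b : ℝ) / p))‖ ^ 2 = 0 := by
    have e1 : ∀ m : ℕ, ee ((m : ℝ) * ((0 : ℕ) : ℝ) / p) = 1 := by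
      intro m
      rw [ClsVar_ee]
      simp [Pool.Agent.H92.EH.e_zero]
    have e2 : ∀ b : ℕ, Pool.Agent.H92.EH.e ((((0 : ℕ) : ℤ) : ℝ) * ((b : ℝ) / p)) = 1 := by
      intro b
      simp [Pool.Agent.H92.EH.e_zero]
    simp_rw [e1, e2]
    rw [sum_const, card_range]
    simp only [mul_one, nsmul_eq_mul]
    have e3 : (1 / (p : ℂ)) * (∑ m ∈ blk H i, a m) * p = ∑ m ∈ blk H i, a m := by
      field_simp
    rw [e3, sub_self, norm_zero]
    norm_num
  rw [h5, zero_add]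
  refine sum_congr rfl fun l hl => ?_
  have hl1 := mem_erase.1 hl
  have hl2 := mem_range.1 hl1.2
  rw [Pool.Agent.H92.EH.sum_complete p hp, if_neg, mul_zero, sub_zero]
  intro hd
  have h6 : p ∣ l := by exact_mod_cast hd
  have h7 := Nat.le_of_dvd (Nat.pos_of_ne_zero hl1.1) h6
  omega

theorem cls_var (P H i : ℕ) (a : ℕ → ℂ) (hP : 1 ≤ P) (hi : 1 ≤ i) (hH : 1 ≤ H) :
    ∑ p ∈ pb P, (p : ℝ) * ∑ b ∈ range p,
        ‖Zc a H i p b - (1 / (p : ℂ)) * ∑ m ∈ blk H i, a m‖ ^ 2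
      ≤ (4 * (P : ℝ) ^ 2 + Real.pi * H) * ∑ m ∈ blk H i, ‖a m‖ ^ 2 := by
  have hiH : 1 ≤ i * H := Nat.one_le_iff_ne_zero.2 (Nat.mul_ne_zero (by omega) (by omega))
  have hblk : blk H i = Ioc (i * H - 1) (i * H - 1 + H) := by
    unfold blk
    ext m
    rw [mem_Ico, mem_Ioc]
    have e1 : (i + 1) * H = i * H + H := by ring
    rw [e1]
    omega
  have h1 := Pool.Agent.H91.PK.additive_ls (2 * P) (i * H - 1) H a
  rw [← hblk] at h1
  have e2 : (((2 * P : ℕ) : ℝ)) ^ 2 = 4 * (P : ℝ) ^ 2 := by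
    push_cast
    ring
  rw [e2] at h1
  refine le_trans ?_ h1
  have hsub : pb P ⊆ Icc 1 (2 * P) := by
    intro p hp
    have hp' := mem_filter.1 hp
    have hp2 := mem_Ioc.1 hp'.1
    exact mem_Icc.2 ⟨hp'.2.one_lt.le, hp2.2⟩
  refine le_trans ?_ (sum_le_sum_of_subset_of_nonneg hsub fun r _ _ => sum_nonneg fun b _ => by positivity)
  refine sum_le_sum fun p hp => ?_
  have hp' := mem_filter.1 hp
  rw [ClsVar_prime p H i hp'.2.pos a]
  refine sum_le_sum_of_subset_of_nonneg ?_ fun _ _ _ => by positivity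
  intro l hl
  have hl1 := mem_erase.1 hl
  have hl2 := mem_range.1 hl1.2
  refine mem_filter.2 ⟨mem_Icc.2 ⟨Nat.pos_of_ne_zero hl1.1, hl2.le⟩, ?_⟩
  exact (Nat.coprime_of_lt_prime (Nat.pos_of_ne_zero hl1.1).ne' hl2 hp'.2).symm

end Pool.Agent.H43.MP

end

section

/-!
# MIDP MainVar: the variance over the block

Cauchy: `(∑_p x_p)^2 ≤ |pb P| ∑_p x_p^2`, `|pb P| ≤ P`.  For a prime `p` of `(P, 2P]` (odd, as `P ≥ 2`) the map `n ↦ 2n mod p` takes every value
`b mod p` for at most `H/p + 1 ≤ 2H/p` integers `n` of the block (`p ≤ 2P ≤ 4P^2 ≤ H`), and `Zc a H i p (2n) = Zc a H i p (2n % p)`.  So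
`∑_n ‖Z(p,2n) - Z/p‖^2 ≤ (2H/p) ∑_{b < p} ‖Z(p,b) - Z/p‖^2` and, as `p > P`,
`∑_p (2H/p) ∑_b = ∑_p (2H/p^2) p ∑_b ≤ (2H/P^2) (4P^2 + π H) ∑|a|^2 ≤ (2H/P^2)(5H) ∑ |a|^2` (`cls_var`, `4P^2 ≤ H`, `1 + π ≤ 5`).
-/

set_option autoImplicit false

namespace Pool.Agent.H43.MP

open Finset
open Pool.Agent.H91.PK (ee)
open Pool.Agent.H91.EHA (Lam hR lamR ramS)
open Pool.Agent.H35.W (pb)

/-- the number of `n` in the block with `2 n` in a class -/
private theorem MainVar_card (H i p b : ℕ) (hp : p.Prime) (h2 : 2 < p) :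
    ((blk H i).filter (fun n => 2 * n % p = b)).card ≤ H / p + 1 := by
  have h : ((blk H i).filter (fun n => 2 * n % p = b)).card ≤ (range (H / p + 1)).card := by
    refine card_le_card_of_injOn (fun n => (n - i * H) / p) ?_ ?_
    · intro n hn
      have hn1 := mem_filter.1 hn
      have hn2 := mem_Ico.1 hn1.1
      have e1 : (i + 1) * H = i * H + H := by ring
      have e2 : n - i * H ≤ H := by omega
      exact mem_coe.2 (mem_range.2 (Nat.lt_succ_of_le (Nat.div_le_div_right e2)))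
    · intro n hn n' hn' he
      have hn1 := mem_filter.1 hn
      have hn2 := mem_Ico.1 hn1.1
      have hn1' := mem_filter.1 hn'
      have hn2' := mem_Ico.1 hn1'.1
      have he' : (n - i * H) / p = (n' - i * H) / p := he
      have hmod : 2 * n ≡ 2 * n' [MOD p] := by
        unfold Nat.ModEq
        rw [hn1.2, hn1'.2]
      have hcop : Nat.gcd p 2 = 1 := by
        rw [Nat.gcd_comm]
        exact (Nat.coprime_primes Nat.prime_two hp).2 (by omega)
      have hmod2 : n ≡ n' [MOD p] := Nat.ModEq.cancel_left_of_coprime hcop hmod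
      have hmod3 : n - i * H ≡ n' - i * H [MOD p] := by
        have e1 : i * H + (n - i * H) ≡ i * H + (n' - i * H) [MOD p] := by
          rw [Nat.add_sub_cancel' hn2.1, Nat.add_sub_cancel' hn2'.1]
          exact hmod2
        exact Nat.ModEq.add_left_cancel' _ e1
      have h3 : n - i * H = n' - i * H := by
        rw [← Nat.div_add_mod (n - i * H) p, ← Nat.div_add_mod (n' - i * H) p, he', hmod3]
      omega
  rwa [card_range] at h

private theorem MainVar_mod (a : ℕ → ℂ) (H i p n : ℕ) : Zc a H i p n = Zc a H i p (n % p) := by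
  unfold Zc
  congr 1
  refine filter_congr fun m _ => ?_
  unfold Nat.ModEq
  rw [Nat.mod_mod]

private theorem MainVar_prime (H i p : ℕ) (hp : p.Prime) (h2 : 2 < p) (hpH : p ≤ H) (g : ℕ → ℝ) (hg : ∀ b, 0 ≤ g b) :
    ∑ n ∈ blk H i, g (2 * n % p) ≤ (2 * (H : ℝ) / p) * ∑ b ∈ range p, g b := by
  rw [← sum_fiberwise_of_maps_to (s := blk H i) (t := range p) (g := fun n => 2 * n % p)
    (fun n _ => mem_range.2 (Nat.mod_lt _ hp.pos)), mul_sum]
  refine sum_le_sum fun b _ => ?_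
  have h1 : ∑ n ∈ (blk H i).filter (fun n => 2 * n % p = b), g (2 * n % p) =
      (((blk H i).filter (fun n => 2 * n % p = b)).card : ℝ) * g b := by
    rw [← nsmul_eq_mul, ← sum_const]
    refine sum_congr rfl fun n hn => ?_
    rw [(mem_filter.1 hn).2]
  rw [h1]
  refine mul_le_mul_of_nonneg_right ?_ (hg b)
  have hp0 : (0 : ℝ) < p := by exact_mod_cast hp.pos
  have h3 : (((blk H i).filter (fun n => 2 * n % p = b)).card : ℝ) ≤ ((H / p : ℕ) : ℝ) + 1 := by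
    exact_mod_cast MainVar_card H i p b hp h2
  have h4 : ((H / p : ℕ) : ℝ) ≤ (H : ℝ) / p := Nat.cast_div_le
  have h5 : (1 : ℝ) ≤ (H : ℝ) / p := by
    rw [le_div_iff₀ hp0, one_mul]
    exact_mod_cast hpH
  have h6 : 2 * (H : ℝ) / p = (H : ℝ) / p + (H : ℝ) / p := by ring
  rw [h6]
  linarith

theorem main_var (P H i : ℕ) (a : ℕ → ℂ) (hP : 2 ≤ P) (hi : 1 ≤ i) (hPH : 4 * P ^ 2 ≤ H) :
    ∑ n ∈ blk H i, (∑ p ∈ pb P,
        ‖Zc a H i p (2 * n) - (1 / (p : ℂ)) * ∑ m ∈ blk H i, a m‖) ^ 2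
      ≤ 10 * (H : ℝ) ^ 2 / P * ∑ m ∈ blk H i, ‖a m‖ ^ 2 := by
  have hH1 : 1 ≤ H := by nlinarith
  have hPr : (2 : ℝ) ≤ P := by exact_mod_cast hP
  have hHr : 4 * (P : ℝ) ^ 2 ≤ H := by exact_mod_cast hPH
  have hcard : ((pb P).card : ℝ) ≤ P := by
    have h1 : (pb P).card ≤ (Ioc P (2 * P)).card := card_filter_le _ _
    rw [Nat.card_Ioc] at h1
    have h2 : (pb P).card ≤ P := by omega
    exact_mod_cast h2
  set S : ℝ := ∑ m ∈ blk H i, ‖a m‖ ^ 2 with hS
  have hS0 : 0 ≤ S := sum_nonneg fun _ _ => by positivity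
  have hcv := cls_var P H i a (by omega) hi hH1
  rw [← hS] at hcv
  set X : ℕ → ℕ → ℝ := fun p b => ‖Zc a H i p b - (1 / (p : ℂ)) * ∑ m ∈ blk H i, a m‖ ^ 2 with hX
  have h1 : ∀ n ∈ blk H i, (∑ p ∈ pb P,
        ‖Zc a H i p (2 * n) - (1 / (p : ℂ)) * ∑ m ∈ blk H i, a m‖) ^ 2 ≤ P * ∑ p ∈ pb P, X p (2 * n % p) := by
    intro n _
    have h2 := sq_sum_le_card_mul_sum_sq (s := pb P)
      (f := fun p => ‖Zc a H i p (2 * n) - (1 / (p : ℂ)) * ∑ m ∈ blk H i, a m‖)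
    have h3 : ∑ p ∈ pb P, ‖Zc a H i p (2 * n) - (1 / (p : ℂ)) * ∑ m ∈ blk H i, a m‖ ^ 2 = ∑ p ∈ pb P, X p (2 * n % p) := by
      refine sum_congr rfl fun p _ => ?_
      rw [hX, MainVar_mod]
    rw [h3] at h2
    refine h2.trans ?_
    exact mul_le_mul_of_nonneg_right hcard (sum_nonneg fun _ _ => by rw [hX]; positivity)
  refine (sum_le_sum h1).trans ?_
  rw [← mul_sum, sum_comm]
  have h4 : ∀ p ∈ pb P, ∑ n ∈ blk H i, X p (2 * n % p) ≤ (2 * (H : ℝ) / P ^ 2) * (p * ∑ b ∈ range p, X p b) := by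
    intro p hp
    have hp1 := mem_filter.1 hp
    have hp2 := mem_Ioc.1 hp1.1
    have hpH : p ≤ H := by nlinarith
    have hpr : (P : ℝ) ≤ p := by exact_mod_cast hp2.1.le
    have hp0 : (0 : ℝ) < p := by linarith
    have h5 := MainVar_prime H i p hp1.2 (by omega) hpH (X p) (fun b => by rw [hX]; positivity)
    refine h5.trans ?_
    have h6 : 0 ≤ ∑ b ∈ range p, X p b := sum_nonneg fun _ _ => by rw [hX]; positivity
    rw [← mul_assoc]
    refine mul_le_mul_of_nonneg_right ?_ h6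
    have hP0 : (0 : ℝ) < P := by linarith
    rw [div_mul_eq_mul_div, div_le_div_iff₀ hp0 (by positivity)]
    have h7 : (P : ℝ) ^ 2 ≤ p * p := by nlinarith
    have h8 : (0 : ℝ) ≤ 2 * H := by positivity
    calc 2 * (H : ℝ) * P ^ 2 ≤ 2 * H * (p * p) := mul_le_mul_of_nonneg_left h7 h8
      _ = 2 * H * p * p := by ring
  have h9 := sum_le_sum h4
  rw [← mul_sum] at h9
  have hP0 : (0 : ℝ) < P := by linarith
  have h10 : (P : ℝ) * ∑ p ∈ pb P, ∑ n ∈ blk H i, X p (2 * n % p) ≤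
      P * ((2 * (H : ℝ) / P ^ 2) * ((4 * (P : ℝ) ^ 2 + Real.pi * H) * S)) := by
    refine mul_le_mul_of_nonneg_left (h9.trans ?_) hP0.le
    exact mul_le_mul_of_nonneg_left hcv (by positivity)
  refine h10.trans ?_
  have hpi : Real.pi ≤ 4 := Real.pi_le_four
  have hH0 : (0 : ℝ) ≤ H := Nat.cast_nonneg H
  have h11 : (4 * (P : ℝ) ^ 2 + Real.pi * H) ≤ 5 * H := by nlinarith
  have h12 : (4 * (P : ℝ) ^ 2 + Real.pi * H) * S ≤ 5 * H * S := mul_le_mul_of_nonneg_right h11 hS0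
  calc (P : ℝ) * ((2 * (H : ℝ) / P ^ 2) * ((4 * (P : ℝ) ^ 2 + Real.pi * H) * S))
      ≤ P * ((2 * (H : ℝ) / P ^ 2) * (5 * H * S)) := by gcongr
    _ = 10 * (H : ℝ) ^ 2 / P * S := by
        field_simp
        ring

end Pool.Agent.H43.MP

end

section

/-!
# MIDP MainTerm: the main term on a good block

For `1 ≤ i`, `n, m ∈ blk H i`: `m ≤ 2n`.  With `ramS r k = ∑_{(b,r)=1} ee(k b/r)` (`ramS_eq`) and `ee((2n-m) b/r) = ee(2n b/r) ee(-b m/r)`:
`rm(n) = ∑_{r ≤ R} (μ(r)/φ(r)) ∑_b ee(2n b/r) ∑_{p ∈ pb P} Zc a_{r,b} H i p (2n)`, `a_{r,b}(m) = Λ(m) ee(-(b m/r))`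
(`p | 2n - m ↔ m ≡ 2n mod p`).  Replace `Zc` by `(1/p) Z_{r,b}`: error `≤ E(n) := ∑_r ∑_b (1/φ(r)) ∑_p ‖Zc a_{r,b} (2n) - Z_{r,b}/p‖`,
`∑_n E(n)^2 ≤ (∑_r ∑_b 1/φ(r)) ∑_r ∑_b (1/φ(r)) ∑_n (∑_p ..)^2 ≤ R · R · 10 H^2/P ∑ Λ^2` (`main_var`, `#b = φ(r)`).
Replace `Z_{r,b}` by `(μ(r)/φ(r)) H` (`i ∉ badP`): error `≤ W ∑_r ∑_b (1/φ(r)) H/L^A' ≤ W R H/L^A'`; what remains is
`W H ∑_r (μ(r)^2/φ(r)^2) ∑_b ee(2n b/r) = W H SR R (2n)`.
-/

set_option autoImplicit false

namespace Pool.Agent.H43.MP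

open Finset
open Pool.Agent.H91.PK (ee)
open Pool.Agent.H91.EHA (Lam hR lamR ramS)
open Pool.Agent.H35.W (pb)
open Pool.Agent.H76.GB (SR)

/-- the reduced residues -/
private def mt_red (r : ℕ) : Finset ℕ := (Icc 1 r).filter (fun b => Nat.Coprime b r)

private theorem mt_card (r : ℕ) (_hr : 1 ≤ r) : (mt_red r).card = r.totient := by
  have h := Nat.filter_coprime_Ico_eq_totient r 1
  rw [← h]
  unfold mt_red
  congr 1
  ext b
  simp only [mem_filter, mem_Icc, mem_Ico]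
  constructor
  · rintro ⟨⟨h1, h2⟩, h3⟩
    exact ⟨⟨h1, by omega⟩, h3.symm⟩
  · rintro ⟨⟨h1, h2⟩, h3⟩
    exact ⟨⟨h1, by omega⟩, h3.symm⟩

/-- the twisted von Mangoldt function -/
private noncomputable def mt_a (r b m : ℕ) : ℂ := ((Lam m : ℝ) : ℂ) * ee (-((b : ℝ) * m / r))

private theorem mt_norm (r b m : ℕ) : ‖mt_a r b m‖ = |Lam m| := by
  unfold mt_a
  rw [norm_mul, Pool.Agent.H91.PK.LSa_norm_ee, mul_one, Complex.norm_real, Real.norm_eq_abs]

private theorem mt_le (H i n m : ℕ) (hi : 1 ≤ i) (hn : n ∈ blk H i) (hm : m ∈ blk H i) :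
    m < 2 * n := by
  unfold blk at hn hm
  rw [mem_Ico] at hn hm
  have h1 : (i + 1) * H ≤ 2 * (i * H) := by nlinarith
  omega

/-- the exact formula for `rm` -/
private theorem mt_exact (P R H i n : ℕ) (hi : 1 ≤ i) (hn : n ∈ blk H i) :
    ((rm P R H i n : ℝ) : ℂ) = ∑ r ∈ Icc 1 R, (((ArithmeticFunction.moebius r : ℝ) / (r.totient : ℝ) : ℝ) : ℂ)
      * ∑ b ∈ mt_red r, ee (((2 * n : ℕ) : ℝ) * b / r) * ∑ p ∈ pb P, Zc (mt_a r b) H i p (2 * n) := by
  have h1 : ∀ m ∈ blk H i, ((Lam m * (lamR R (2 * n - m) * omP P (2 * n - m)) : ℝ) : ℂ)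
      = ∑ r ∈ Icc 1 R, (((ArithmeticFunction.moebius r : ℝ) / (r.totient : ℝ) : ℝ) : ℂ)
        * ∑ b ∈ mt_red r, ee (((2 * n : ℕ) : ℝ) * b / r) *
          ∑ p ∈ pb P, (if m ≡ 2 * n [MOD p] then mt_a r b m else 0) := by
    intro m hm
    have hmn := mt_le H i n m hi hn hm
    have h2 : ((omP P (2 * n - m) : ℕ) : ℂ) = ∑ p ∈ pb P, (if m ≡ 2 * n [MOD p] then (1 : ℂ) else 0) := by
      unfold omP
      rw [card_filter]
      push_cast
      refine sum_congr rfl fun p _ => ?_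
      have h3 : p ∣ 2 * n - m ↔ m ≡ 2 * n [MOD p] := (Nat.modEq_iff_dvd' hmn.le).symm
      by_cases h4 : p ∣ 2 * n - m
      · rw [if_pos h4, if_pos (h3.1 h4)]
      · rw [if_neg h4, if_neg fun h => h4 (h3.2 h)]
    have h3 : ((lamR R (2 * n - m) : ℝ) : ℂ) = ∑ r ∈ Icc 1 R,
        (((ArithmeticFunction.moebius r : ℝ) / (r.totient : ℝ) : ℝ) : ℂ)
          * ∑ b ∈ mt_red r, ee (((2 * n - m : ℕ) : ℝ) * b / r) := by
      unfold lamR
      rw [Complex.ofReal_sum]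
      refine sum_congr rfl fun r hr => ?_
      rw [mem_Icc] at hr
      rw [Complex.ofReal_mul, Pool.Agent.H91.EHA.ramS_eq r _ hr.1]
      rfl
    rw [Complex.ofReal_mul, Complex.ofReal_mul, Complex.ofReal_natCast, h2, h3, sum_mul, mul_sum]
    refine sum_congr rfl fun r hr => ?_
    rw [mul_assoc, mul_left_comm]
    congr 1
    rw [sum_mul, mul_sum]
    refine sum_congr rfl fun b _ => ?_
    rw [mul_sum, mul_sum, mul_sum]
    refine sum_congr rfl fun p _ => ?_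
    split_ifs
    · unfold mt_a
      have h4 : ee (((2 * n - m : ℕ) : ℝ) * b / r)
          = ee (((2 * n : ℕ) : ℝ) * b / r) * ee (-((b : ℝ) * m / r)) := by
        rw [← Pool.Agent.H91.PK.LSa_ee_add]
        congr 1
        rw [Nat.cast_sub hmn.le]
        ring
      rw [h4]
      ring
    · ring
  unfold rm
  rw [Complex.ofReal_sum, sum_congr rfl h1, sum_comm]
  refine sum_congr rfl fun r _ => ?_
  rw [← mul_sum, sum_comm]
  congr 1
  refine sum_congr rfl fun b _ => ?_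
  rw [← mul_sum, sum_comm]
  congr 1
  refine sum_congr rfl fun p _ => ?_
  unfold Zc
  rw [sum_filter]

/-- the error function -/
private noncomputable def mt_E (P R H i n : ℕ) : ℝ :=
  ∑ t ∈ (Icc 1 R).sigma mt_red, 1 / (t.1.totient : ℝ) *
    ∑ p ∈ pb P, ‖Zc (mt_a t.1 t.2) H i p (2 * n) - (1 / (p : ℂ)) * ∑ m ∈ blk H i, mt_a t.1 t.2 m‖

private theorem mt_E_sq (P R H i : ℕ) (hP : 2 ≤ P) (hi1 : 1 ≤ i) (hPH : 4 * P ^ 2 ≤ H) :
    ∑ n ∈ blk H i, mt_E P R H i n ^ 2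
      ≤ 10 * (R : ℝ) ^ 2 * (H : ℝ) ^ 2 / P * ∑ m ∈ blk H i, Lam m ^ 2 := by
  set T := (Icc 1 R).sigma mt_red with hT
  have hw : ∑ t ∈ T, 1 / (t.1.totient : ℝ) = R := by
    rw [hT, sum_sigma]
    have : ∀ r ∈ Icc 1 R, ∑ b ∈ mt_red r, 1 / (((⟨r, b⟩ : Σ _ : ℕ, ℕ).1.totient : ℕ) : ℝ) = 1 := by
      intro r hr
      rw [mem_Icc] at hr
      show ∑ _b ∈ mt_red r, 1 / (r.totient : ℝ) = 1
      rw [sum_const, mt_card r hr.1, nsmul_eq_mul]
      have : (0 : ℝ) < r.totient := by exact_mod_cast Nat.totient_pos.2 hr.1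
      field_simp
    rw [sum_congr rfl this]
    simp
  have hx : ∀ n, mt_E P R H i n ^ 2 ≤ R * ∑ t ∈ T, 1 / (t.1.totient : ℝ) *
      (∑ p ∈ pb P, ‖Zc (mt_a t.1 t.2) H i p (2 * n)
        - (1 / (p : ℂ)) * ∑ m ∈ blk H i, mt_a t.1 t.2 m‖) ^ 2 := by
    intro n
    rw [← hw]
    unfold mt_E
    refine sum_sq_le_sum_mul_sum_of_sq_le_mul T (fun t _ => by positivity) (fun t _ => by positivity)
      fun t _ => le_of_eq (by ring)
  calc ∑ n ∈ blk H i, mt_E P R H i n ^ 2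
      ≤ ∑ n ∈ blk H i, (R : ℝ) * ∑ t ∈ T, 1 / (t.1.totient : ℝ) *
        (∑ p ∈ pb P, ‖Zc (mt_a t.1 t.2) H i p (2 * n)
          - (1 / (p : ℂ)) * ∑ m ∈ blk H i, mt_a t.1 t.2 m‖) ^ 2 := sum_le_sum fun n _ => hx n
    _ = (R : ℝ) * ∑ t ∈ T, 1 / (t.1.totient : ℝ) * ∑ n ∈ blk H i,
        (∑ p ∈ pb P, ‖Zc (mt_a t.1 t.2) H i p (2 * n)
          - (1 / (p : ℂ)) * ∑ m ∈ blk H i, mt_a t.1 t.2 m‖) ^ 2 := by
        rw [← mul_sum, sum_comm]
        congr 1
        refine sum_congr rfl fun t _ => ?_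
        rw [mul_sum]
    _ ≤ (R : ℝ) * ∑ t ∈ T, 1 / (t.1.totient : ℝ) * (10 * (H : ℝ) ^ 2 / P * ∑ m ∈ blk H i, Lam m ^ 2) := by
        refine mul_le_mul_of_nonneg_left (sum_le_sum fun t _ => ?_) (Nat.cast_nonneg R)
        refine mul_le_mul_of_nonneg_left ?_ (by positivity)
        refine (main_var P H i (mt_a t.1 t.2) hP hi1 hPH).trans (le_of_eq ?_)
        congr 1
        refine sum_congr rfl fun m _ => ?_
        rw [mt_norm, sq_abs]
    _ = _ := by
        rw [← sum_mul, hw]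
        ring

theorem rm_near (N A B P H i : ℕ) (hP : 2 ≤ P) (hi1 : 1 ≤ i) (hPH : 4 * P ^ 2 ≤ H)
    (hi : i ∈ idx N H) (hg : i ∉ badP N H A B) :
    ∃ E : ℕ → ℝ, (∀ n ∈ blk H i, |rm P (Rn B N) H i n - WP P * H * SR (Rn B N) (2 * n)|
        ≤ WP P * (Rn B N) * ((H : ℝ) / Real.log N ^ A) + E n) ∧
      ∑ n ∈ blk H i, E n ^ 2 ≤ 10 * (Rn B N : ℝ) ^ 2 * (H : ℝ) ^ 2 / P * ∑ m ∈ blk H i, Lam m ^ 2 := by
  set R := Rn B N with hR
  refine ⟨mt_E P R H i, fun n hn => ?_, mt_E_sq P R H i hP hi1 hPH⟩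
  have hW0 : 0 ≤ WP P := sum_nonneg fun p _ => by positivity
  have hgood : ∀ r ∈ Icc 1 R, ∀ b ∈ mt_red r, ‖∑ m ∈ blk H i, mt_a r b m
      - (((ArithmeticFunction.moebius r : ℝ) / (r.totient : ℝ) * H : ℝ) : ℂ)‖ ≤ (H : ℝ) / Real.log N ^ A := by
    intro r hr b hb
    by_contra hcon
    push Not at hcon
    apply hg
    classical
    unfold badP
    rw [mem_Icc] at hr
    unfold mt_red at hb
    rw [mem_filter] at hb
    simp only [mem_filter]
    refine ⟨hi, r, b, hr.1, ?_, hb.2, hcon⟩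
    have h1 : (r : ℝ) ≤ R := by exact_mod_cast hr.2
    refine h1.trans ?_
    rw [hR]
    unfold Rn
    refine Nat.floor_le ?_
    have : 0 ≤ Real.log N := Real.log_natCast_nonneg N
    positivity
  -- the main term
  have hmain : ((WP P * H * SR R (2 * n) : ℝ) : ℂ) = ∑ r ∈ Icc 1 R,
      (((ArithmeticFunction.moebius r : ℝ) / (r.totient : ℝ) : ℝ) : ℂ)
        * ∑ b ∈ mt_red r, ee (((2 * n : ℕ) : ℝ) * b / r) * ((WP P : ℝ) : ℂ) *
          (((ArithmeticFunction.moebius r : ℝ) / (r.totient : ℝ) * H : ℝ) : ℂ) := by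
    unfold SR
    rw [Complex.ofReal_mul, Complex.ofReal_sum, mul_sum]
    refine sum_congr rfl fun r hr => ?_
    rw [mem_Icc] at hr
    have h1 := Pool.Agent.H91.EHA.ramS_eq r (2 * n) hr.1
    have h2 : ((ArithmeticFunction.moebius r : ℝ) ^ 2 * ramS r (2 * n) / (r.totient : ℝ) ^ 2 : ℝ)
        = ((ArithmeticFunction.moebius r : ℝ) / (r.totient : ℝ)) ^ 2 * ramS r (2 * n) := by
      rw [div_pow]; ring
    rw [h2, Complex.ofReal_mul, Complex.ofReal_mul, h1, mul_sum, mul_sum, mul_sum]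
    refine sum_congr rfl fun b _ => ?_
    push_cast
    ring
  have hkey : ‖((rm P R H i n : ℝ) : ℂ) - ((WP P * H * SR R (2 * n) : ℝ) : ℂ)‖
      ≤ ∑ r ∈ Icc 1 R, ∑ b ∈ mt_red r, (1 / (r.totient : ℝ) *
        (∑ p ∈ pb P, ‖Zc (mt_a r b) H i p (2 * n) - (1 / (p : ℂ)) * ∑ m ∈ blk H i, mt_a r b m‖)
        + 1 / (r.totient : ℝ) * (WP P * ((H : ℝ) / Real.log N ^ A))) := by
    rw [mt_exact P R H i n hi1 hn, hmain, ← sum_sub_distrib]
    refine norm_sum_le_of_le _ fun r hr => ?_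
    rw [← mul_sub, ← sum_sub_distrib, mul_sum]
    refine norm_sum_le_of_le _ fun b hb => ?_
    have hr1 : 1 ≤ r := (mem_Icc.1 hr).1
    have hphi : (0 : ℝ) < r.totient := by exact_mod_cast Nat.totient_pos.2 hr1
    rw [mul_assoc (ee _), ← mul_sub, norm_mul, norm_mul, Pool.Agent.H91.PK.LSa_norm_ee, one_mul,
      Complex.norm_real, Real.norm_eq_abs, abs_div, abs_of_pos hphi, ← mul_add]
    have hmu : |(ArithmeticFunction.moebius r : ℝ)| ≤ 1 := by
      have := ArithmeticFunction.abs_moebius_le_one (n := r)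
      exact_mod_cast this
    refine mul_le_mul (div_le_div_of_nonneg_right hmu hphi.le) ?_ (norm_nonneg _) (by positivity)
    have hWc : ((WP P : ℝ) : ℂ) = ∑ p ∈ pb P, 1 / (p : ℂ) := by
      unfold WP
      push_cast
      rfl
    have hsplit : ∑ p ∈ pb P, Zc (mt_a r b) H i p (2 * n) - ((WP P : ℝ) : ℂ) *
          (((ArithmeticFunction.moebius r : ℝ) / (r.totient : ℝ) * H : ℝ) : ℂ)
        = ∑ p ∈ pb P, (Zc (mt_a r b) H i p (2 * n) - (1 / (p : ℂ)) * ∑ m ∈ blk H i, mt_a r b m)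
          + ((WP P : ℝ) : ℂ) * (∑ m ∈ blk H i, mt_a r b m
            - (((ArithmeticFunction.moebius r : ℝ) / (r.totient : ℝ) * H : ℝ) : ℂ)) := by
      rw [sum_sub_distrib, ← sum_mul, ← hWc]
      ring
    rw [hsplit]
    refine (norm_add_le _ _).trans (add_le_add (norm_sum_le _ _) ?_)
    rw [norm_mul, Complex.norm_real, Real.norm_eq_abs, abs_of_nonneg hW0]
    exact mul_le_mul_of_nonneg_left (hgood r hr b hb) hW0
  rw [← Complex.ofReal_sub, Complex.norm_real, Real.norm_eq_abs] at hkey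
  refine hkey.trans (le_of_eq ?_)
  rw [sum_congr rfl fun r _ => sum_add_distrib, sum_add_distrib]
  have h1 : ∑ r ∈ Icc 1 R, ∑ _b ∈ mt_red r, 1 / (r.totient : ℝ) * (WP P * ((H : ℝ) / Real.log N ^ A))
      = WP P * R * ((H : ℝ) / Real.log N ^ A) := by
    have : ∀ r ∈ Icc 1 R, ∑ _b ∈ mt_red r, 1 / (r.totient : ℝ) * (WP P * ((H : ℝ) / Real.log N ^ A))
        = WP P * ((H : ℝ) / Real.log N ^ A) := by
      intro r hr
      rw [mem_Icc] at hr
      rw [sum_const, mt_card r hr.1, nsmul_eq_mul]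
      have : (0 : ℝ) < r.totient := by exact_mod_cast Nat.totient_pos.2 hr.1
      field_simp
    rw [sum_congr rfl this]
    simp only [sum_const, Nat.card_Icc, nsmul_eq_mul, add_tsub_cancel_right]
    ring
  rw [h1, add_comm]
  congr 1
  unfold mt_E
  rw [sum_sigma]

end Pool.Agent.H43.MP

end

section

/-!
# MIDP WPb: `W = ∑_{p ∈ pb P} 1/p` and `∑ Λ²` on a block

`WP P ≤ 1` (`|pb P| ≤ P`, every term `≤ 1/P`), `WP P ≥ |pb P|/(2P) ≥ 1/(16 log P)` (`pb_card`);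
`∑_{m ∈ blk H i} Λ(m)^2 ≤ H (2 L)^2` if the block is contained in `[1, N^2]`.
-/

set_option autoImplicit false

namespace Pool.Agent.H43.MP

open Finset
open Pool.Agent.H91.PK (ee)
open Pool.Agent.H91.EHA (Lam hR lamR ramS)
open Pool.Agent.H35.W (pb)

private theorem wPb_card (P : ℕ) : (pb P).card ≤ P := by
  unfold Pool.Agent.H35.W.pb
  refine (Finset.card_filter_le _ _).trans ?_
  rw [Nat.card_Ioc]
  omega

private theorem wPb_mem {P p : ℕ} (h : p ∈ pb P) : P < p ∧ p ≤ 2 * P := by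
  unfold Pool.Agent.H35.W.pb at h
  rw [mem_filter, mem_Ioc] at h
  exact h.1

theorem WP_le (P : ℕ) (hP : 1 ≤ P) : WP P ≤ 1 := by
  have hP0 : (0 : ℝ) < P := by exact_mod_cast hP
  have h1 : WP P ≤ ∑ _p ∈ pb P, 1 / (P : ℝ) := by
    unfold WP
    refine Finset.sum_le_sum fun p hp => ?_
    have h := (wPb_mem hp).1
    exact one_div_le_one_div_of_le hP0 (by exact_mod_cast h.le)
  rw [sum_const, nsmul_eq_mul] at h1
  have h2 : ((pb P).card : ℝ) ≤ P := by exact_mod_cast wPb_card P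
  calc WP P ≤ ((pb P).card : ℝ) * (1 / P) := h1
    _ ≤ P * (1 / P) := mul_le_mul_of_nonneg_right h2 (by positivity)
    _ = 1 := by field_simp

theorem WP_ge : ∃ P0 : ℕ, ∀ P : ℕ, P0 ≤ P → 1 / (16 * Real.log P) ≤ WP P := by
  obtain ⟨P0, h0⟩ := Pool.Agent.H76.GB.pb_card
  refine ⟨max P0 2, fun P hP => ?_⟩
  have h1 := h0 P (le_trans (le_max_left _ _) hP)
  have hP2 : 2 ≤ P := le_trans (le_max_right _ _) hP
  have hP0 : (0 : ℝ) < P := by exact_mod_cast (by omega : 0 < P)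
  have hl : 0 < Real.log P := Real.log_pos (by exact_mod_cast (by omega : 1 < P))
  have h2 : ∑ _p ∈ pb P, 1 / (2 * (P : ℝ)) ≤ WP P := by
    unfold WP
    refine Finset.sum_le_sum fun p hp => ?_
    have h := (wPb_mem hp).2
    have hp0 : (0 : ℝ) < p := by exact_mod_cast (by have := (wPb_mem hp).1; omega : 0 < p)
    exact one_div_le_one_div_of_le hp0 (by exact_mod_cast h)
  rw [sum_const, nsmul_eq_mul] at h2
  calc 1 / (16 * Real.log P) = (P : ℝ) / (8 * Real.log P) * (1 / (2 * P)) := by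
        field_simp
        ring
    _ ≤ ((pb P).card : ℝ) * (1 / (2 * P)) := mul_le_mul_of_nonneg_right h1 (by positivity)
    _ ≤ WP P := h2

private theorem wPb_lam {N m : ℕ} (hN : 1 ≤ N) (h : m ≤ N ^ 2) :
    Lam m ^ 2 ≤ (2 * Real.log N) ^ 2 := by
  have hN1 : (1 : ℝ) ≤ N := by exact_mod_cast hN
  have hl : 0 ≤ Real.log N := Real.log_nonneg hN1
  have h0 : 0 ≤ Lam m := by
    unfold Pool.Agent.H91.EHA.Lam
    exact ArithmeticFunction.vonMangoldt_nonneg
  have h1 : Lam m ≤ 2 * Real.log N := by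
    rcases Nat.eq_zero_or_pos m with hm | hm
    · subst hm
      unfold Pool.Agent.H91.EHA.Lam
      simp only [ArithmeticFunction.map_zero]
      positivity
    · have h2 : Lam m ≤ Real.log m := by
        unfold Pool.Agent.H91.EHA.Lam
        exact ArithmeticFunction.vonMangoldt_le_log
      have h3 : Real.log m ≤ Real.log ((N : ℝ) ^ 2) :=
        Real.log_le_log (by exact_mod_cast hm) (by exact_mod_cast h)
      rw [Real.log_pow] at h3
      push_cast at h3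
      linarith
  exact pow_le_pow_left₀ h0 h1 2

theorem lam_sq (N H i : ℕ) (hN : 1 ≤ N) (h : (i + 1) * H ≤ N ^ 2) :
    ∑ m ∈ blk H i, Lam m ^ 2 ≤ H * (2 * Real.log N) ^ 2 := by
  have h1 : ∑ m ∈ blk H i, Lam m ^ 2 ≤ ∑ _m ∈ blk H i, (2 * Real.log N) ^ 2 := by
    refine Finset.sum_le_sum fun m hm => wPb_lam hN ?_
    unfold blk at hm
    rw [mem_Ico] at hm
    omega
  rw [sum_const, nsmul_eq_mul] at h1
  have h2 : (blk H i).card = H := by
    unfold blk
    rw [Nat.card_Ico, Nat.add_mul, Nat.one_mul, Nat.add_sub_cancel_left]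
  rw [h2] at h1
  exact h1

end Pool.Agent.H43.MP

end

section

/-!
# MIDP PPw: the integers `n` which meet proper prime powers

`ppE N P H` = the `n ∈ (N, 2N]` such that some `m ∈ blk H (n/H)` is a proper prime power or `2n - m = p l` with `p ∈ pb P`, `l` a proper prime power.
First kind: `m < 3N` (`m < n + H ≤ 3N`), `n` is in the block of `m`: `≤ H` integers `n` for every `m`.  Second kind: `p l = 2n - m`, `|p l - n| ≤ H`, so for every pair
`(p, l)` at most `2H + 1` integers `n`; `l ≤ 3N/P`.  Number of proper prime powers `≤ y`: `∑_{n ≤ y, not prime} Λ(n) ≤ 2 √y log y`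
(`Chebyshev.psi_sub_theta_le`, `Chebyshev.psi_sub_theta_eq_sum_not_prime`, compare `ppow_sum2` in `H76/GB/PPow.lean`) and `Λ ≥ log 2` where `Λ ≠ 0`:
at most `4 √y log y` (`2/log 2 ≤ 4`).  Total `≤ H · 4 √(3N) log (3N) + P (2H+1) 4 √(3N/P) log(3N) ≤ C H √(N P) L ≤ N^{1/4 + 1/2 + 1/160 + 0.01} ≤ N/L^A`
for `H ≤ N^{1/4}`, `P ≤ N^{1/80}`.
-/

set_option autoImplicit false

namespace Pool.Agent.H43.MP

open Finset
open Pool.Agent.H91.PK (ee)
open Pool.Agent.H91.EHA (Lam hR lamR ramS)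
open Pool.Agent.H35.W (pb)

open Classical in
/-- the integers `n` whose block contains a proper prime power, or such that some `2n - m`, `m` in the block, is `p` times a proper prime power -/
noncomputable def ppE (N P H : ℕ) : Finset ℕ :=
  (Ioc N (2 * N)).filter (fun n => ∃ m ∈ blk H (n / H),
    (Lam m ≠ 0 ∧ ¬ m.Prime) ∨
      ∃ p ∈ pb P, p ∣ 2 * n - m ∧ Lam ((2 * n - m) / p) ≠ 0 ∧ ¬ ((2 * n - m) / p).Prime)

/-- the von Mangoldt function on the non-primes -/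
private noncomputable def PPw_L2 (n : ℕ) : ℝ := if n.Prime then 0 else Lam n

private theorem PPw_L2_nn (n : ℕ) : 0 ≤ PPw_L2 n := by
  unfold PPw_L2
  split_ifs
  · exact le_rfl
  · exact ArithmeticFunction.vonMangoldt_nonneg

private theorem PPw_sum2 (x : ℕ) (hx : 1 ≤ x) :
    ∑ n ∈ Ioc 0 x, PPw_L2 n ≤ 2 * Real.sqrt x * Real.log x := by
  have h1 := Chebyshev.psi_sub_theta_le (x := (x : ℝ)) (by exact_mod_cast hx)
  rw [Chebyshev.psi_sub_theta_eq_sum_not_prime, Nat.floor_natCast] at h1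
  refine le_trans (le_of_eq ?_) h1
  rw [sum_filter]
  refine sum_congr rfl fun n _ => ?_
  unfold PPw_L2
  by_cases hn : n.Prime
  · rw [if_pos hn, if_neg (not_not.2 hn)]
  · rw [if_neg hn, if_pos hn]
    rfl

open Classical in
/-- the proper prime powers up to `y` -/
private noncomputable def PPw_S (y : ℕ) : Finset ℕ :=
  (Ioc 0 y).filter (fun m => Lam m ≠ 0 ∧ ¬ m.Prime)

private theorem PPw_Lam_ge (m : ℕ) (h : Lam m ≠ 0) : Real.log 2 ≤ Lam m := by
  unfold Lam at h ⊢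
  rw [ArithmeticFunction.vonMangoldt_ne_zero_iff] at h
  rw [ArithmeticFunction.vonMangoldt_apply, if_pos h]
  have h2 : 2 ≤ m.minFac := (Nat.minFac_prime h.ne_one).two_le
  exact Real.log_le_log (by norm_num) (by exact_mod_cast h2)

private theorem PPw_card_S (y : ℕ) :
    ((PPw_S y).card : ℝ) ≤ 4 * Real.sqrt y * Real.log y := by
  rcases Nat.eq_zero_or_pos y with hy | hy
  · subst hy
    simp [PPw_S]
  have h1 : ((PPw_S y).card : ℝ) * Real.log 2 ≤ ∑ n ∈ Ioc 0 y, PPw_L2 n := by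
    calc ((PPw_S y).card : ℝ) * Real.log 2 = ∑ _n ∈ PPw_S y, Real.log 2 := by
          rw [sum_const, nsmul_eq_mul]
      _ ≤ ∑ n ∈ PPw_S y, PPw_L2 n := by
          refine sum_le_sum fun n hn => ?_
          unfold PPw_S at hn
          rw [mem_filter] at hn
          unfold PPw_L2
          rw [if_neg hn.2.2]
          exact PPw_Lam_ge n hn.2.1
      _ ≤ ∑ n ∈ Ioc 0 y, PPw_L2 n :=
          sum_le_sum_of_subset_of_nonneg (filter_subset _ _) fun m _ _ => PPw_L2_nn m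
  have h2 := PPw_sum2 y hy
  have h3 : (1 / 2 : ℝ) ≤ Real.log 2 := by
    have := Real.log_two_gt_d9
    linarith
  have h4 : ((PPw_S y).card : ℝ) * (1 / 2) ≤ ((PPw_S y).card : ℝ) * Real.log 2 :=
    mul_le_mul_of_nonneg_left h3 (Nat.cast_nonneg _)
  linarith

private theorem PPw_near {H n m : ℕ} (hH : 1 ≤ H) (hm : m ∈ blk H (n / H)) :
    m < n + H ∧ n < m + H := by
  unfold blk at hm
  rw [mem_Ico] at hm
  have h1 := Nat.div_mul_le_self n H
  have h2 := Nat.lt_div_mul_add (a := n) hH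
  have h3 : (n / H + 1) * H = n / H * H + H := by ring
  rw [h3] at hm
  omega

private theorem PPw_sub {N P H : ℕ} (hH : 1 ≤ H) (hHN : H ≤ N) (hP : 1 ≤ P) :
    ppE N P H ⊆ (PPw_S (3 * N)).biUnion (fun m => Icc (m - H) (m + H)) ∪
      (pb P ×ˢ PPw_S (3 * N / P)).biUnion (fun q => Icc (q.1 * q.2 - H) (q.1 * q.2 + H)) := by
  intro n hn
  unfold ppE at hn
  rw [mem_filter, mem_Ioc] at hn
  obtain ⟨⟨hn1, hn2⟩, m, hm, hh⟩ := hn
  obtain ⟨e1, e2⟩ := PPw_near hH hm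
  rw [mem_union, mem_biUnion, mem_biUnion]
  rcases hh with ⟨h1, h2⟩ | ⟨p, hp, hpd, h1, h2⟩
  · left
    refine ⟨m, ?_, ?_⟩
    · unfold PPw_S
      rw [mem_filter, mem_Ioc]
      exact ⟨by omega, h1, h2⟩
    · rw [mem_Icc]
      omega
  · right
    refine ⟨(p, (2 * n - m) / p), ?_, ?_⟩
    · rw [mem_product]
      refine ⟨hp, ?_⟩
      unfold PPw_S
      rw [mem_filter, mem_Ioc]
      refine ⟨⟨?_, ?_⟩, h1, h2⟩
      · rcases Nat.eq_zero_or_pos ((2 * n - m) / p) with h0 | h0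
        · exfalso
          apply h1
          rw [h0]
          unfold Lam
          simp
        · exact h0
      · unfold pb at hp
        rw [mem_filter, mem_Ioc] at hp
        exact Nat.div_le_div (by omega) hp.1.1.le (by omega)
    · have e3 : p * ((2 * n - m) / p) = 2 * n - m := Nat.mul_div_cancel' hpd
      show n ∈ Icc (p * ((2 * n - m) / p) - H) (p * ((2 * n - m) / p) + H)
      rw [e3, mem_Icc]
      omega

private theorem PPw_card {N P H : ℕ} (hH : 1 ≤ H) (hHN : H ≤ N) (hP : 1 ≤ P) :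
    ((ppE N P H).card : ℝ) ≤
      ((PPw_S (3 * N)).card + P * (PPw_S (3 * N / P)).card) * (2 * H + 1) := by
  have h1 := card_le_card (PPw_sub hH hHN hP)
  have h2 : ((PPw_S (3 * N)).biUnion (fun m => Icc (m - H) (m + H))).card ≤
      (PPw_S (3 * N)).card * (2 * H + 1) := by
    refine card_biUnion_le_card_mul _ _ _ fun m _ => ?_
    rw [Nat.card_Icc]
    omega
  have h3 : ((pb P ×ˢ PPw_S (3 * N / P)).biUnion
      (fun q => Icc (q.1 * q.2 - H) (q.1 * q.2 + H))).card ≤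
      (pb P ×ˢ PPw_S (3 * N / P)).card * (2 * H + 1) := by
    refine card_biUnion_le_card_mul _ _ _ fun m _ => ?_
    rw [Nat.card_Icc]
    omega
  have h4 : (pb P ×ˢ PPw_S (3 * N / P)).card ≤ P * (PPw_S (3 * N / P)).card := by
    rw [card_product]
    refine Nat.mul_le_mul_right _ ?_
    have h5 : (pb P).card ≤ (Ioc P (2 * P)).card := card_filter_le _ _
    rw [Nat.card_Ioc] at h5
    omega
  have h6 : (ppE N P H).card ≤
      ((PPw_S (3 * N)).card + P * (PPw_S (3 * N / P)).card) * (2 * H + 1) := by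
    refine h1.trans ((card_union_le _ _).trans ?_)
    have h7 : (pb P ×ˢ PPw_S (3 * N / P)).card * (2 * H + 1) ≤
        P * (PPw_S (3 * N / P)).card * (2 * H + 1) := Nat.mul_le_mul_right _ h4
    nlinarith
  exact_mod_cast h6

theorem pp_card (θ : ℝ) (h0 : 0 < θ) (h1 : θ ≤ 1 / 4) (A : ℕ) : ∃ N0 : ℕ, ∀ N : ℕ, N0 ≤ N →
    ((ppE N (Pn θ N) (Hn θ N)).card : ℝ) ≤ N / Real.log N ^ A := by
  have hlo := (isLittleO_log_rpow_rpow_atTop ((A : ℝ) + 1) (show (0 : ℝ) < 3 / 16 by norm_num)).bound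
    (show (0 : ℝ) < 1 / 200 by norm_num)
  have hev := tendsto_natCast_atTop_atTop.eventually hlo
  obtain ⟨N1, hN1⟩ := Filter.eventually_atTop.1 hev
  refine ⟨max N1 3, fun N hN => ?_⟩
  have hN3 : 3 ≤ N := (le_max_right _ _).trans hN
  have hb := hN1 N ((le_max_left _ _).trans hN)
  have hNr : (3 : ℝ) ≤ N := by exact_mod_cast hN3
  have hN0 : (0 : ℝ) < N := by linarith
  have hN1r : (1 : ℝ) ≤ N := by linarith
  obtain ⟨L, hL⟩ : ∃ L, L = Real.log N := ⟨_, rfl⟩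
  have hL1 : 1 ≤ L := by
    rw [hL, Real.le_log_iff_exp_le hN0]
    have := Real.exp_one_lt_d9
    linarith
  rw [← hL]
  have hL0 : 0 < L := by linarith
  have hb2 : L ^ (A + 1) ≤ 1 / 200 * (N : ℝ) ^ (3 / 16 : ℝ) := by
    rw [← hL, Real.norm_of_nonneg (Real.rpow_nonneg hL0.le _),
      Real.norm_of_nonneg (Real.rpow_nonneg hN0.le _)] at hb
    have e : L ^ ((A : ℝ) + 1) = L ^ (A + 1) := by
      rw [← Real.rpow_natCast]
      push_cast
      rfl
    rw [e] at hb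
    exact hb
  -- the parameters
  obtain ⟨H, hH⟩ : ∃ H, H = Hn θ N := ⟨_, rfl⟩
  obtain ⟨P, hP⟩ : ∃ P, P = Pn θ N := ⟨_, rfl⟩
  rw [← hH, ← hP]
  have hH1 : 1 ≤ H := by
    rw [hH]
    unfold Hn
    rw [Nat.one_le_floor_iff]
    exact Real.one_le_rpow hN1r h0.le
  have hP1 : 1 ≤ P := by
    rw [hP]
    unfold Pn
    rw [Nat.one_le_floor_iff]
    exact Real.one_le_rpow hN1r (by linarith)
  have hHle : (H : ℝ) ≤ (N : ℝ) ^ (1 / 4 : ℝ) := by
    rw [hH]
    unfold Hn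
    exact (Nat.floor_le (Real.rpow_nonneg hN0.le _)).trans
      (Real.rpow_le_rpow_of_exponent_le hN1r h1)
  have hPle : (P : ℝ) ≤ (N : ℝ) ^ (1 / 80 : ℝ) := by
    rw [hP]
    unfold Pn
    exact (Nat.floor_le (Real.rpow_nonneg hN0.le _)).trans
      (Real.rpow_le_rpow_of_exponent_le hN1r (by linarith))
  have hHN : H ≤ N := by
    have : (H : ℝ) ≤ N := hHle.trans (by
      calc (N : ℝ) ^ (1 / 4 : ℝ) ≤ (N : ℝ) ^ (1 : ℝ) :=
            Real.rpow_le_rpow_of_exponent_le hN1r (by norm_num)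
        _ = N := Real.rpow_one _)
    exact_mod_cast this
  have hP0 : (0 : ℝ) < P := by exact_mod_cast hP1
  have hPr : (1 : ℝ) ≤ P := by exact_mod_cast hP1
  have hc := PPw_card hH1 hHN hP1
  -- the logarithm
  have hlog : Real.log (3 * N) ≤ 2 * L := by
    rw [Real.log_mul (by norm_num) hN0.ne', ← hL]
    have : Real.log 3 ≤ L := by
      rw [hL]
      exact Real.log_le_log (by norm_num) hNr
    linarith
  have hlog0 : 0 ≤ Real.log (3 * N) := Real.log_nonneg (by linarith)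
  -- the square root
  obtain ⟨S, hS⟩ : ∃ S, S = Real.sqrt (3 * N * P) := ⟨_, rfl⟩
  have hS0 : 0 ≤ S := by rw [hS]; exact Real.sqrt_nonneg _
  have hSle : S ≤ 2 * (N : ℝ) ^ (81 / 160 : ℝ) := by
    rw [hS]
    refine Real.sqrt_le_iff.2 ⟨by positivity, ?_⟩
    have e1 : (2 * (N : ℝ) ^ (81 / 160 : ℝ)) ^ 2 = 4 * (N * (N : ℝ) ^ (1 / 80 : ℝ)) := by
      rw [mul_pow, ← Real.rpow_natCast, ← Real.rpow_natCast, ← Real.rpow_mul hN0.le]
      have e2 : (N : ℝ) * (N : ℝ) ^ (1 / 80 : ℝ) = (N : ℝ) ^ (1 + 1 / 80 : ℝ) := by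
        rw [Real.rpow_add hN0, Real.rpow_one]
      rw [e2]
      norm_num
    rw [e1]
    have e3 : (N : ℝ) * P ≤ N * (N : ℝ) ^ (1 / 80 : ℝ) := mul_le_mul_of_nonneg_left hPle hN0.le
    nlinarith [mul_pos hN0 hP0]
  have hc1 : ((PPw_S (3 * N)).card : ℝ) ≤ 4 * S * (2 * L) := by
    have h2 := PPw_card_S (3 * N)
    push_cast at h2
    refine h2.trans ?_
    have h3 : Real.sqrt (3 * N) ≤ S := by
      rw [hS]
      refine Real.sqrt_le_sqrt ?_
      nlinarith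
    gcongr
  have hc2 : (P : ℝ) * ((PPw_S (3 * N / P)).card : ℝ) ≤ 4 * S * (2 * L) := by
    have h2 := PPw_card_S (3 * N / P)
    have h3 : ((3 * N / P : ℕ) : ℝ) ≤ 3 * N / P := by
      have := @Nat.cast_div_le ℝ _ _ _ (3 * N) P
      push_cast at this
      exact this
    have h4 : Real.log ((3 * N / P : ℕ) : ℝ) ≤ 2 * L := by
      rcases Nat.eq_zero_or_pos (3 * N / P) with h5 | h5
      · rw [h5]
        simp only [Nat.cast_zero, Real.log_zero]
        linarith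
      · refine le_trans (Real.log_le_log (by exact_mod_cast h5) ?_) hlog
        refine h3.trans ?_
        rw [div_le_iff₀ hP0]
        nlinarith
    have h6 : (P : ℝ) * Real.sqrt ((3 * N / P : ℕ) : ℝ) ≤ S := by
      have h7 : Real.sqrt ((3 * N / P : ℕ) : ℝ) ≤ Real.sqrt (3 * N / P) := Real.sqrt_le_sqrt h3
      have h8 : (P : ℝ) * Real.sqrt (3 * N / P) = S := by
        rw [hS]
        have e1 : (P : ℝ) = Real.sqrt (P ^ 2) := (Real.sqrt_sq hP0.le).symm
        calc (P : ℝ) * Real.sqrt (3 * N / P) = Real.sqrt (P ^ 2) * Real.sqrt (3 * N / P) := by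
              rw [← e1]
          _ = Real.sqrt (P ^ 2 * (3 * N / P)) := (Real.sqrt_mul (by positivity) _).symm
          _ = Real.sqrt (3 * N * P) := by
              congr 1
              field_simp
      rw [← h8]
      exact mul_le_mul_of_nonneg_left h7 hP0.le
    calc (P : ℝ) * ((PPw_S (3 * N / P)).card : ℝ)
        ≤ P * (4 * Real.sqrt ((3 * N / P : ℕ) : ℝ) * Real.log ((3 * N / P : ℕ) : ℝ)) :=
          mul_le_mul_of_nonneg_left h2 hP0.le
      _ = 4 * (P * Real.sqrt ((3 * N / P : ℕ) : ℝ)) * Real.log ((3 * N / P : ℕ) : ℝ) := by ring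
      _ ≤ 4 * (P * Real.sqrt ((3 * N / P : ℕ) : ℝ)) * (2 * L) :=
          mul_le_mul_of_nonneg_left h4 (by positivity)
      _ ≤ 4 * S * (2 * L) := by
          refine mul_le_mul_of_nonneg_right ?_ (by positivity)
          linarith
  have hH1r : (1 : ℝ) ≤ (N : ℝ) ^ (1 / 4 : ℝ) := Real.one_le_rpow hN1r (by norm_num)
  have hH2 : 2 * (H : ℝ) + 1 ≤ 3 * (N : ℝ) ^ (1 / 4 : ℝ) := by linarith
  rw [le_div_iff₀ (by positivity)]
  have hLA : 0 < L ^ A := by positivity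
  have hsum : ((PPw_S (3 * N)).card : ℝ) + P * ((PPw_S (3 * N / P)).card : ℝ) ≤ 16 * S * L := by
    linarith
  have hNN : (N : ℝ) ^ (81 / 160 : ℝ) * (N : ℝ) ^ (1 / 4 : ℝ) * (N : ℝ) ^ (3 / 16 : ℝ) ≤ N := by
    rw [← Real.rpow_add hN0, ← Real.rpow_add hN0]
    calc (N : ℝ) ^ (81 / 160 + 1 / 4 + 3 / 16 : ℝ) ≤ (N : ℝ) ^ (1 : ℝ) :=
          Real.rpow_le_rpow_of_exponent_le hN1r (by norm_num)
      _ = N := Real.rpow_one _
  calc ((ppE N P H).card : ℝ) * L ^ A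
      ≤ (((PPw_S (3 * N)).card : ℝ) + P * ((PPw_S (3 * N / P)).card : ℝ)) * (2 * H + 1) * L ^ A :=
        mul_le_mul_of_nonneg_right hc hLA.le
    _ ≤ (16 * S * L) * (3 * (N : ℝ) ^ (1 / 4 : ℝ)) * L ^ A := by
        refine mul_le_mul_of_nonneg_right ?_ hLA.le
        exact mul_le_mul hsum hH2 (by positivity) (by positivity)
    _ = 48 * S * (N : ℝ) ^ (1 / 4 : ℝ) * L ^ (A + 1) := by ring
    _ ≤ 48 * (2 * (N : ℝ) ^ (81 / 160 : ℝ)) * (N : ℝ) ^ (1 / 4 : ℝ) *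
          (1 / 200 * (N : ℝ) ^ (3 / 16 : ℝ)) := by
        gcongr
    _ = 96 / 200 * ((N : ℝ) ^ (81 / 160 : ℝ) * (N : ℝ) ^ (1 / 4 : ℝ) * (N : ℝ) ^ (3 / 16 : ℝ)) := by
        ring
    _ ≤ 1 * N := by
        refine mul_le_mul (by norm_num) hNN (by positivity) (by norm_num)
    _ = N := one_mul _

end Pool.Agent.H43.MP

end

section

/-!
# MIDP Cnt: from the weighted sum to the number of solutions

`n ∈ (N, 2N]`, `n ∉ ppE N P H`, `i = n/H`, `1 ≤ H ≤ N/2`.  In `rr P H i n = ∑_{m ∈ blk} Λ(m) ∑_{p ∈ pb P, p | 2n-m} Λ((2n-m)/p)` all non zero terms have `m` prime and `q = (2n-m)/p`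
prime.  `x = n - m` (an integer) satisfies `|x| ≤ H` (both in the same block), `n - x = m` is prime (`φ(m) + 1 = m`, `Nat.totient_prime`), `n + x = 2n - m = p q`: `x ∈ sols P H n`.
`m ↦ x` is injective; for fixed `m` there are at most 2 primes `p` with `p | 2n - m` and `(2n-m)/p` prime (`2n - m` is a product of two primes);
`Λ(m) ≤ log(3N) ≤ 2 log N`, `Λ(q) ≤ log (4N) ≤ 2 log N`.  So `rr ≤ 8 (log N)^2 (sols P H n).ncard` (`sols` is finite: `|x| ≤ H`).
-/

set_option autoImplicit false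

namespace Pool.Agent.H43.MP

open Finset
open Pool.Agent.H91.PK (ee)
open Pool.Agent.H91.EHA (Lam hR lamR ramS)
open Pool.Agent.H35.W (pb)

private theorem cnt_lam0 (m : ℕ) : 0 ≤ Lam m := by
  unfold Pool.Agent.H91.EHA.Lam
  exact ArithmeticFunction.vonMangoldt_nonneg

private theorem cnt_lam {N m : ℕ} (hN : 1 ≤ N) (h : m ≤ N ^ 2) : Lam m ≤ 2 * Real.log N := by
  have hN1 : (1 : ℝ) ≤ N := by exact_mod_cast hN
  have hl : 0 ≤ Real.log N := Real.log_nonneg hN1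
  rcases Nat.eq_zero_or_pos m with hm | hm
  · subst hm
    unfold Pool.Agent.H91.EHA.Lam
    simp only [ArithmeticFunction.map_zero]
    positivity
  · have h2 : Lam m ≤ Real.log m := by
      unfold Pool.Agent.H91.EHA.Lam
      exact ArithmeticFunction.vonMangoldt_le_log
    have h3 : Real.log m ≤ Real.log ((N : ℝ) ^ 2) :=
      Real.log_le_log (by exact_mod_cast hm) (by exact_mod_cast h)
    rw [Real.log_pow] at h3
    push_cast at h3
    linarith

/-- at most two primes `p` divide `M` with a prime quotient -/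
private theorem cnt_two (S : Finset ℕ) (M : ℕ) (hS : ∀ p ∈ S, p.Prime ∧ p ∣ M ∧ (M / p).Prime) :
    S.card ≤ 2 := by
  rcases S.eq_empty_or_nonempty with h | ⟨p0, hp0⟩
  · rw [h]
    simp
  · obtain ⟨h1, h2, h3⟩ := hS p0 hp0
    have hM : p0 * (M / p0) = M := Nat.mul_div_cancel' h2
    have hsub : S ⊆ {p0, M / p0} := by
      intro p hp
      obtain ⟨g1, g2, -⟩ := hS p hp
      rw [← hM] at g2
      rw [mem_insert, mem_singleton]
      rcases (Nat.Prime.dvd_mul g1).1 g2 with h | h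
      · exact Or.inl ((Nat.prime_dvd_prime_iff_eq g1 h1).1 h)
      · exact Or.inr ((Nat.prime_dvd_prime_iff_eq g1 h3).1 h)
    exact (Finset.card_le_card hsub).trans Finset.card_le_two

theorem rr_le (N P H n : ℕ) (hN : 4 ≤ N) (hH : 1 ≤ H) (hHN : 2 * H ≤ N) (hn : n ∈ Ioc N (2 * N))
    (hpp : n ∉ ppE N P H) :
    rr P H (n / H) n ≤ 8 * Real.log N ^ 2 * ((sols P H n).ncard : ℝ) := by
  classical
  rw [mem_Ioc] at hn
  have hpp' : ∀ m ∈ blk H (n / H), (Lam m ≠ 0 → m.Prime) ∧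
      ∀ p ∈ pb P, p ∣ 2 * n - m → Lam ((2 * n - m) / p) ≠ 0 → ((2 * n - m) / p).Prime := by
    intro m hm
    unfold ppE at hpp
    rw [mem_filter, mem_Ioc] at hpp
    push Not at hpp
    have h := hpp hn m hm
    refine ⟨fun h1 => ?_, fun p hp hd h1 => ?_⟩
    · exact h.1 h1
    · exact h.2 p hp hd h1
  have hblk : ∀ m ∈ blk H (n / H), n < m + H ∧ m < n + H := by
    intro m hm
    unfold blk at hm
    rw [mem_Ico] at hm
    have e1 : n / H * H ≤ n := Nat.div_mul_le_self n H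
    have e2 : n < (n / H + 1) * H := by
      have := Nat.lt_div_mul_add (a := n) (b := H) (by omega)
      rw [Nat.add_mul, Nat.one_mul]
      exact this
    rw [Nat.add_mul, Nat.one_mul] at e2 hm
    omega
  have hL0 : 0 ≤ Real.log N := Real.log_nonneg (by exact_mod_cast (by omega : 1 ≤ N))
  have hNN : 4 * N ≤ N ^ 2 := by nlinarith
  -- the good `m`
  set G : Finset ℕ := (blk H (n / H)).filter (fun m => m.Prime ∧
    ∃ p ∈ pb P, p ∣ 2 * n - m ∧ ((2 * n - m) / p).Prime) with hG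
  -- bound of `FF`
  have hFF : ∀ m ∈ blk H (n / H), FF P (2 * n - m) ≤ 4 * Real.log N := by
    intro m hm
    unfold FF
    set S := ((pb P).filter (fun p => p ∣ 2 * n - m)).filter
      (fun p => ((2 * n - m) / p).Prime) with hS
    have h1 : ∑ p ∈ (pb P).filter (fun p => p ∣ 2 * n - m), Lam ((2 * n - m) / p) =
        ∑ p ∈ S, Lam ((2 * n - m) / p) := by
      rw [hS]
      refine (Finset.sum_filter_of_ne fun p hp h2 => ?_).symm
      rw [mem_filter] at hp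
      exact (hpp' m hm).2 p hp.1 hp.2 h2
    rw [h1]
    have h2 : S.card ≤ 2 := by
      refine cnt_two S (2 * n - m) fun p hp => ?_
      rw [hS, mem_filter, mem_filter] at hp
      have hpP : p.Prime := by
        have := hp.1.1
        unfold Pool.Agent.H35.W.pb at this
        exact (mem_filter.1 this).2
      exact ⟨hpP, hp.1.2, hp.2⟩
    have h3 : ∑ p ∈ S, Lam ((2 * n - m) / p) ≤ ∑ _p ∈ S, 2 * Real.log N := by
      refine Finset.sum_le_sum fun p _ => cnt_lam (by omega) ?_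
      have := Nat.div_le_self (2 * n - m) p
      omega
    rw [sum_const, nsmul_eq_mul] at h3
    have h4 : (S.card : ℝ) ≤ 2 := by exact_mod_cast h2
    nlinarith
  have hFF0 : ∀ m, 0 ≤ FF P m := by
    intro m
    unfold FF
    exact Finset.sum_nonneg fun p _ => cnt_lam0 _
  have hsum : rr P H (n / H) n ≤ 8 * Real.log N ^ 2 * (G.card : ℝ) := by
    unfold rr
    have h1 : ∑ m ∈ blk H (n / H), Lam m * FF P (2 * n - m) =
        ∑ m ∈ G, Lam m * FF P (2 * n - m) := by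
      rw [hG, sum_filter]
      refine Finset.sum_congr rfl fun m hm => ?_
      split_ifs with h
      · rfl
      · by_contra h2
        have h3 : Lam m ≠ 0 := left_ne_zero_of_mul h2
        have h4 : FF P (2 * n - m) ≠ 0 := right_ne_zero_of_mul h2
        refine h ⟨(hpp' m hm).1 h3, ?_⟩
        unfold FF at h4
        obtain ⟨p, hp, hp0⟩ := Finset.exists_ne_zero_of_sum_ne_zero h4
        rw [mem_filter] at hp
        exact ⟨p, hp.1, hp.2, (hpp' m hm).2 p hp.1 hp.2 hp0⟩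
    rw [h1]
    have h2 : ∑ m ∈ G, Lam m * FF P (2 * n - m) ≤ ∑ _m ∈ G, 8 * Real.log N ^ 2 := by
      refine Finset.sum_le_sum fun m hm => ?_
      have hm' : m ∈ blk H (n / H) := (mem_filter.1 (hG ▸ hm)).1
      have hb := hblk m hm'
      have e1 : Lam m ≤ 2 * Real.log N := cnt_lam (by omega) (by omega)
      have e2 := hFF m hm'
      have e3 := cnt_lam0 m
      have e4 := hFF0 (2 * n - m)
      calc Lam m * FF P (2 * n - m) ≤ (2 * Real.log N) * (4 * Real.log N) :=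
            mul_le_mul e1 e2 e4 (by positivity)
        _ = 8 * Real.log N ^ 2 := by ring
    rw [sum_const, nsmul_eq_mul] at h2
    linarith
  -- the good `m` give solutions
  have hfin : (sols P H n).Finite := by
    refine (Set.finite_Icc (-(H : ℤ)) (H : ℤ)).subset fun x hx => ?_
    exact abs_le.1 hx.1
  have hcard : G.card ≤ (sols P H n).ncard := by
    have h1 : (G.image (fun m : ℕ => (n : ℤ) - (m : ℤ))).card = G.card := by
      refine Finset.card_image_of_injective _ fun a b hab => ?_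
      have : (n : ℤ) - (a : ℤ) = (n : ℤ) - (b : ℤ) := hab
      omega
    rw [← h1, ← Set.ncard_coe_finset]
    refine Set.ncard_le_ncard ?_ hfin
    intro x hx
    rw [Finset.mem_coe, mem_image] at hx
    obtain ⟨m, hm, rfl⟩ := hx
    rw [hG, mem_filter] at hm
    obtain ⟨hm1, hm2, p, hp, hpd, hq⟩ := hm
    have hb := hblk m hm1
    have hpp2 : P < p ∧ p ≤ 2 * P ∧ p.Prime := by
      unfold Pool.Agent.H35.W.pb at hp
      rw [mem_filter, mem_Ioc] at hp
      exact ⟨hp.1.1, hp.1.2, hp.2⟩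
    have e1 : (n : ℤ) - ((n : ℤ) - (m : ℤ)) = (m : ℤ) := by ring
    have e2 : (n : ℤ) + ((n : ℤ) - (m : ℤ)) = ((2 * n - m : ℕ) : ℤ) := by
      rw [Nat.cast_sub (by omega)]
      push_cast
      ring
    refine ⟨?_, ?_, ?_, ?_, ?_⟩
    · rw [abs_le]
      constructor <;> omega
    · rw [e1]
      exact_mod_cast hm2.pos
    · rw [e2]
      exact_mod_cast (by omega : 0 < 2 * n - m)
    · rw [e1, Int.toNat_natCast, Nat.totient_prime hm2, Nat.cast_sub hm2.one_le]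
      push_cast
      ring
    · refine ⟨p, (2 * n - m) / p, hpp2.2.2, hq, hpp2.1, hpp2.2.1, ?_⟩
      rw [e2, ← Nat.cast_mul, Nat.mul_div_cancel' hpd]
  have hcR : (G.card : ℝ) ≤ ((sols P H n).ncard : ℝ) := by exact_mod_cast hcard
  exact hsum.trans (mul_le_mul_of_nonneg_left hcR (by positivity))

end Pool.Agent.H43.MP

end

section

/-!
# MIDP Conv: the error term of the additive convolution on a block

`conv_l2`.  Put `U(α) = ∑_{m ∈ I} u(m) ee(-α m)`, `V(α) = ∑_{m ∈ Y} v(m) ee(-α m)`.  Then `U V = ∑_{k ∈ K'} c(k) ee(-α k)`,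
`c(k) = ∑_{m ∈ I, m ≤ k, k - m ∈ Y} u(m) v(k-m)`, `K'` = image of `I ×ˢ Y` under `+` (`c(k) = 0` for `k ∉ K'`).  Parseval
(`Pool.Agent.H91.PK.LSa_parseval` with `c = 0`, on `[0,1]`, after the substitution `α → -α` or conjugation):
`∑_{k ∈ K'} c(k)^2 = ∫_0^1 |U V|^2 ≤ S^2 ∫_0^1 |U|^2 = S^2 ∑_{m ∈ I} u(m)^2`.

`rs_l2`.  For `n, m ∈ blk H i`, `i ≥ 1`: `(i-1) H ≤ 2n - m < (i+2) H`, so `2n - m` is in one of the blocks `i-1, i, i+1`, whose union is
`Y = Ico ((i-1) H) ((i+2) H)`; `S = 3 H / L^A` by the hypothesis for the three blocks.  Apply `conv_l2` with `u = Lam`, `v = Fs P R`, `I = blk H i`,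
`K = (blk H i).image (2 * ·)` (injective).
-/

set_option autoImplicit false

namespace Pool.Agent.H43.MP

open Finset
open Pool.Agent.H91.PK (ee)
open Pool.Agent.H91.EHA (Lam hR lamR ramS)
open Pool.Agent.H35.W (pb)

private theorem Conv_ee_add (x y : ℝ) : ee (x + y) = ee x * ee y := by
  unfold ee
  rw [← Complex.exp_add]
  congr 1
  push_cast
  ring

/-- the coefficients of the product -/
private def Conv_c (u v : ℕ → ℝ) (I Y : Finset ℕ) (k : ℕ) : ℝ :=
  ∑ m ∈ I.filter (fun m => m ≤ k ∧ k - m ∈ Y), u m * v (k - m)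

private theorem Conv_mul (u v : ℕ → ℝ) (I Y : Finset ℕ) (t : ℝ) :
    (∑ m ∈ I, ((u m : ℝ) : ℂ) * ee (((m : ℝ) - 0) * t)) *
      (∑ m ∈ Y, ((v m : ℝ) : ℂ) * ee (((m : ℝ) - 0) * t)) =
    ∑ k ∈ (I ×ˢ Y).image (fun x => x.1 + x.2),
      ((Conv_c u v I Y k : ℝ) : ℂ) * ee (((k : ℝ) - 0) * t) := by
  rw [Finset.sum_mul_sum, ← Finset.sum_product']
  rw [← Finset.sum_fiberwise_of_maps_to (s := I ×ˢ Y) (t := (I ×ˢ Y).image (fun x => x.1 + x.2))
    (g := fun x => x.1 + x.2) (fun x hx => Finset.mem_image_of_mem _ hx)]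
  refine Finset.sum_congr rfl fun k _ => ?_
  unfold Conv_c
  push_cast
  rw [Finset.sum_mul]
  refine Finset.sum_bij' (fun x _ => x.1) (fun m _ => (m, k - m)) ?_ ?_ ?_ ?_ ?_
  · rintro ⟨a, b⟩ hx
    simp only [Finset.mem_filter, Finset.mem_product] at hx ⊢
    obtain ⟨⟨ha, hb⟩, hk⟩ := hx
    have : k - a = b := by omega
    rw [this]
    exact ⟨ha, by omega, hb⟩
  · intro m hm
    simp only [Finset.mem_filter, Finset.mem_product] at hm ⊢
    exact ⟨⟨hm.1, hm.2.2⟩, by omega⟩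
  · rintro ⟨a, b⟩ hx
    simp only [Finset.mem_filter, Finset.mem_product] at hx
    have : k - a = b := by omega
    rw [this]
  · intro m _
    rfl
  · rintro ⟨a, b⟩ hx
    simp only [Finset.mem_filter, Finset.mem_product] at hx
    obtain ⟨_, hk⟩ := hx
    subst hk
    have h1 : a + b - a = b := by omega
    have h2 : (((a + b : ℕ) : ℝ) - 0) * t = ((a : ℝ) - 0) * t + ((b : ℝ) - 0) * t := by
      push_cast
      ring
    simp only [h1]
    rw [h2, Conv_ee_add]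
    ring

private theorem Conv_cont (w : ℕ → ℝ) (s : Finset ℕ) :
    Continuous fun t : ℝ => ‖∑ m ∈ s, ((w m : ℝ) : ℂ) * ee (((m : ℝ) - 0) * t)‖ ^ 2 := by
  unfold ee
  fun_prop

theorem conv_l2 (u v : ℕ → ℝ) (I Y K : Finset ℕ) (S : ℝ)
    (hS : ∀ α : ℝ, ‖∑ m ∈ Y, ((v m : ℝ) : ℂ) * ee (-(α * m))‖ ≤ S) :
    ∑ k ∈ K, (∑ m ∈ I.filter (fun m => m ≤ k ∧ k - m ∈ Y), u m * v (k - m)) ^ 2
      ≤ S ^ 2 * ∑ m ∈ I, u m ^ 2 := by
  set K' := (I ×ˢ Y).image (fun x => x.1 + x.2) with hK'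
  have hS0 : 0 ≤ S := (norm_nonneg _).trans (hS 0)
  -- the sum over `K`
  have hz : ∀ k ∉ K', Conv_c u v I Y k = 0 := by
    intro k hk
    unfold Conv_c
    have h1 : I.filter (fun m => m ≤ k ∧ k - m ∈ Y) = ∅ := by
      rw [Finset.filter_eq_empty_iff]
      rintro m hm ⟨h2, h3⟩
      exact hk (Finset.mem_image.2 ⟨(m, k - m), Finset.mem_product.2 ⟨hm, h3⟩, by simp only; omega⟩)
    rw [h1, Finset.sum_empty]
  have h1 : ∑ k ∈ K, (Conv_c u v I Y k) ^ 2 ≤ ∑ k ∈ K', (Conv_c u v I Y k) ^ 2 := by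
    have h2 : ∑ k ∈ K', (Conv_c u v I Y k) ^ 2 = ∑ k ∈ K ∪ K', (Conv_c u v I Y k) ^ 2 := by
      refine Finset.sum_subset Finset.subset_union_right fun k _ hk => ?_
      rw [hz k hk]
      norm_num
    rw [h2]
    exact Finset.sum_le_sum_of_subset_of_nonneg Finset.subset_union_left
      fun k _ _ => sq_nonneg _
  refine h1.trans ?_
  -- Parseval
  have p1 := Pool.Agent.H91.PK.LSa_parseval K' (fun k => ((Conv_c u v I Y k : ℝ) : ℂ)) 0 0
  have p2 := Pool.Agent.H91.PK.LSa_parseval I (fun k => ((u k : ℝ) : ℂ)) 0 0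
  simp only [Complex.norm_real, Real.norm_eq_abs, sq_abs] at p1 p2
  rw [← p1, ← p2, ← intervalIntegral.integral_const_mul]
  refine intervalIntegral.integral_mono (by norm_num) ?_ ?_ fun t => ?_
  · exact (Conv_cont _ _).intervalIntegrable _ _
  · exact (continuous_const.mul (Conv_cont _ _)).intervalIntegrable _ _
  · simp only
    rw [← Conv_mul, norm_mul, mul_pow, mul_comm]
    refine mul_le_mul_of_nonneg_right ?_ (by positivity)
    refine pow_le_pow_left₀ (norm_nonneg _) ?_ 2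
    have h3 := hS (-t)
    have h4 : ∀ m : ℕ, ee (-(-t * (m : ℝ))) = ee (((m : ℝ) - 0) * t) := by
      intro m
      congr 1
      ring
    simp only [h4] at h3
    exact h3

theorem rs_l2 (P R H i : ℕ) (hi : 1 ≤ i) (S : ℝ)
    (h0 : ∀ α : ℝ, ‖∑ m ∈ blk H (i - 1), ((Fs P R m : ℝ) : ℂ) * ee (-(α * m))‖ ≤ S)
    (h1 : ∀ α : ℝ, ‖∑ m ∈ blk H i, ((Fs P R m : ℝ) : ℂ) * ee (-(α * m))‖ ≤ S)
    (h2 : ∀ α : ℝ, ‖∑ m ∈ blk H (i + 1), ((Fs P R m : ℝ) : ℂ) * ee (-(α * m))‖ ≤ S) :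
    ∑ n ∈ blk H i, rs P R H i n ^ 2 ≤ 9 * S ^ 2 * ∑ m ∈ blk H i, Lam m ^ 2 := by
  obtain ⟨j, rfl⟩ : ∃ j, i = j + 1 := ⟨i - 1, by omega⟩
  rw [Nat.add_sub_cancel] at h0
  set Y : Finset ℕ := Ico (j * H) ((j + 3) * H) with hY
  have e1 : (j + 1) * H = j * H + H := by ring
  have e2 : (j + 1 + 1) * H = j * H + 2 * H := by ring
  have e3 : (j + 3) * H = j * H + 3 * H := by ring
  have e4 : (j + 1 + 1 + 1) * H = j * H + 3 * H := by ring
  have hYs : ∀ α : ℝ, ‖∑ m ∈ Y, ((Fs P R m : ℝ) : ℂ) * ee (-(α * m))‖ ≤ 3 * S := by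
    intro α
    have h3 : ∑ m ∈ Y, ((Fs P R m : ℝ) : ℂ) * ee (-(α * m)) =
        ∑ m ∈ blk H j, ((Fs P R m : ℝ) : ℂ) * ee (-(α * m)) +
        ∑ m ∈ blk H (j + 1), ((Fs P R m : ℝ) : ℂ) * ee (-(α * m)) +
        ∑ m ∈ blk H (j + 1 + 1), ((Fs P R m : ℝ) : ℂ) * ee (-(α * m)) := by
      unfold blk
      rw [Finset.sum_Ico_consecutive _ (by rw [e1]; omega) (by rw [e1, e2]; omega),
        Finset.sum_Ico_consecutive _ (by rw [e2]; omega) (by rw [e2, e4]; omega)]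
    rw [h3]
    calc _ ≤ S + S + S := (norm_add_le _ _).trans (add_le_add ((norm_add_le _ _).trans
            (add_le_add (h0 α) (h1 α))) (h2 α))
      _ = 3 * S := by ring
  have key := conv_l2 Lam (Fs P R) (blk H (j + 1)) Y ((blk H (j + 1)).image (fun n => 2 * n))
    (3 * S) hYs
  rw [Finset.sum_image (fun a _ b _ hab => by omega)] at key
  have h4 : ∑ n ∈ blk H (j + 1), rs P R H (j + 1) n ^ 2 =
      ∑ n ∈ blk H (j + 1), (∑ m ∈ (blk H (j + 1)).filter (fun m => m ≤ 2 * n ∧ 2 * n - m ∈ Y),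
        Lam m * Fs P R (2 * n - m)) ^ 2 := by
    refine Finset.sum_congr rfl fun n hn => ?_
    unfold rs
    congr 1
    rw [Finset.filter_true_of_mem]
    intro m hm
    unfold blk at hm hn
    rw [Finset.mem_Ico, e1, e2] at hm hn
    rw [hY, Finset.mem_Ico, e3]
    omega
  rw [h4]
  refine key.trans (le_of_eq ?_)
  ring

end Pool.Agent.H43.MP

end

section

/-!
# MIDP Split: `FF = Fs + Λ_R · omP`

`Λ_R(m/p) = Λ_R(m)` because all `r ≤ R ≤ P < p` are prime to `p` (`lamR_mul`).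
-/

set_option autoImplicit false

namespace Pool.Agent.H43.MP

open Finset
open Pool.Agent.H91.PK (ee)
open Pool.Agent.H91.EHA (Lam hR lamR ramS)
open Pool.Agent.H35.W (pb)

theorem FF_split (P R m : ℕ) (hRP : R ≤ P) :
    FF P m = Fs P R m + lamR R m * omP P m := by
  unfold FF Fs omP
  rw [card_eq_sum_ones, Nat.cast_sum, mul_sum, ← sum_add_distrib]
  refine sum_congr rfl fun p hp => ?_
  obtain ⟨h1, h2⟩ := mem_filter.1 hp
  have h3 : p.Prime ∧ P < p := by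
    unfold pb at h1
    rw [mem_filter, mem_Ioc] at h1
    exact ⟨h1.2, h1.1.1⟩
  have h4 := Pool.Agent.H76.SP.lamR_mul R p (m / p) h3.1 (by omega)
  rw [Nat.mul_div_cancel' h2] at h4
  rw [h4]
  unfold hR
  push_cast
  ring

theorem rr_split (P R H i n : ℕ) (hRP : R ≤ P) :
    rr P H i n = rs P R H i n + rm P R H i n := by
  unfold rr rs rm
  rw [← sum_add_distrib]
  refine sum_congr rfl fun m _ => ?_
  rw [FF_split P R _ hRP]
  ring

end Pool.Agent.H43.MP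

end

section

set_option autoImplicit false

namespace Pool.Agent.H97.VK

open Finset
open Pool.Agent.H91.EHA
open Pool.Agent.H91.PK (ee)

/-- the statement of `psum` -/
def psum_P : Prop := ∀ (A B : ℕ),
    ∃ K' x0 : ℕ, ∀ x : ℕ, x0 ≤ x → ∀ (d : ℕ) (χ : DirichletCharacter ℂ d) (t : ℝ) (v : ℕ),
    1 ≤ d → (d : ℝ) ≤ Real.log x ^ B → Real.log x ^ K' ≤ |t| → |t| ≤ (x : ℝ) ^ (3 : ℕ) → Yx x + 1 ≤ v →
    ‖∑ n ∈ Icc 1 v, χ (n : ZMod d) * ee (t * Real.log n)‖ ≤ v / Real.log x ^ A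

/-- the statement of `lk_up` -/
def lk_up_P : Prop := ∀ (k B : ℕ),
    ∃ C : ℝ, 1 ≤ C ∧ ∃ K' x0 : ℕ, ∀ x : ℕ, x0 ≤ x → ∀ (d : ℕ) (χ : DirichletCharacter ℂ d) (s : ℂ),
    1 ≤ d → (d : ℝ) ≤ Real.log x ^ B → 1 + 1 / (4 * Real.log x) ≤ s.re → s.re ≤ 2 →
    Real.log x ^ K' ≤ |s.im| → |s.im| ≤ 6 * (x : ℝ) ^ (3 : ℕ) →
    ‖Lk (qm x d) (ch x χ) k s‖ ≤ C * L9 x ^ k * LL x ^ (k + 1)

/-- the statement of `sm_sharp_w` -/
def sm_sharp_w_P : Prop := ∀ (k κ B : ℕ) (hκ : 1 ≤ κ),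
    ∃ C : ℝ, 1 ≤ C ∧ ∃ K' x0 : ℕ, ∀ x : ℕ, x0 ≤ x →
    ∀ (d : ℕ) (χ : DirichletCharacter ℂ d) (t : ℝ) (v z : ℕ), 1 ≤ d → (d : ℝ) ≤ Real.log x ^ B →
    Real.exp (Real.log x ^ (19 / 20 : ℝ)) ≤ z → z ≤ x ^ 2 → v ≤ z → Real.log x ^ K' ≤ |t| → |t| ≤ (x : ℝ) ^ (2 : ℕ) →
    ‖∑ n ∈ Icc 1 v, ((Lam n * Real.log n ^ k : ℝ) : ℂ) * ch x χ (n : ZMod (qm x d)) * ee (t * Real.log n)‖ ≤
      C * z * (L9 x ^ (k + 1) * LL x ^ (20 * (k + 1)) * Real.log x ^ (3 * κ) +
        Real.log (2 * z) ^ (k + 1) / Real.log x ^ κ)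

/-- the statement of `vk_chi_w` -/
def vk_chi_w_P : Prop := ∀ (K B : ℕ),
    ∃ K' x0 : ℕ, ∀ x : ℕ, x0 ≤ x →
    ∀ (d : ℕ) (χ : DirichletCharacter ℂ d) (t : ℝ) (z : ℕ), 1 ≤ d → (d : ℝ) ≤ Real.log x ^ B →
    Real.exp (Real.log x ^ (19 / 20 : ℝ)) ≤ z → z ≤ x ^ 2 → Real.log x ^ K' ≤ |t| → |t| ≤ (x : ℝ) ^ (2 : ℕ) →
    ‖∑ n ∈ Icc 1 z, ((Lam n : ℝ) : ℂ) * χ (n : ZMod d) * ee (t * Real.log n)‖ ≤ z / Real.log x ^ K

end Pool.Agent.H97.VK

end

section

/-!
# PSI Dy: dyadic decomposition of the truncated products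

`lot k y w = ∑_{j < top k y w} pc k j` (every `1 ≤ n < 2^b` lies in exactly one `[2^j, 2^(j+1))`), then
`Finset.prod_univ_sum`.
-/

set_option autoImplicit false

namespace Pool.Agent.H88.PSI

open Finset

private theorem Dy_seg (k : Fin 3) (b : ℕ) :
    seg k 1 (2 ^ b) = ∑ j ∈ range b, pc k j := by
  induction b with
  | zero =>
    ext n
    rw [Finset.range_zero, Finset.sum_empty, ArithmeticFunction.zero_apply]
    show (if n ≠ 0 ∧ 1 ≤ n ∧ n < 2 ^ 0 then kf k n else 0) = 0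
    rw [if_neg]
    rw [pow_zero]
    omega
  | succ b ih =>
    rw [Finset.sum_range_succ, ← ih]
    ext n
    rw [ArithmeticFunction.add_apply]
    show (if n ≠ 0 ∧ 1 ≤ n ∧ n < 2 ^ (b + 1) then kf k n else 0) =
      (if n ≠ 0 ∧ 1 ≤ n ∧ n < 2 ^ b then kf k n else 0) +
      (if n ≠ 0 ∧ 2 ^ b ≤ n ∧ n < 2 ^ (b + 1) then kf k n else 0)
    have h0 : 0 < 2 ^ b := by positivity
    have h1 : 2 ^ (b + 1) = 2 * 2 ^ b := by ring
    by_cases h : n < 2 ^ b
    · rw [if_neg (show ¬ (n ≠ 0 ∧ 2 ^ b ≤ n ∧ n < 2 ^ (b + 1)) by omega), add_zero]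
      by_cases hn : n = 0
      · rw [if_neg (by omega), if_neg (by omega)]
      · rw [if_pos (by omega), if_pos (by omega)]
    · rw [if_neg (show ¬ (n ≠ 0 ∧ 1 ≤ n ∧ n < 2 ^ b) by omega), zero_add]
      by_cases hn : n < 2 ^ (b + 1)
      · rw [if_pos (by omega), if_pos (by omega)]
      · rw [if_neg (by omega), if_neg (by omega)]

theorem tp_dy {r : ℕ} (κ : Fin r → Fin 3) (y w : ℕ) :
    Tp κ y w = ∑ j ∈ Fintype.piFinset (fun i => range (top (κ i) y w)), Pp κ j := by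
  unfold Tp Pp lot
  simp only [Dy_seg]
  exact Finset.prod_univ_sum _ _

end Pool.Agent.H88.PSI

end

section

/-!
# PSI HB: the Heath-Brown identity (k = 3)

`M = seg 2 1 (2^w)` (`μ` on `[1, 2^w)`), `Z = hi 0 1` (`1` on `n ≥ 1`), `G = hi 1 1` (`log`).
`(1 - Z M)(n) = 0` for `n < 2^w`, so `La (1 - Z M)^3` vanishes at `n < (2^w)^3`; `La Z = G`; so
`La = 3 G M - 3 G Z M^2 + G Z^2 M^3` there.  Split `G = hi 1 Y + seg 1 1 Y`, `Z = hi 0 Y + seg 0 1 Y`, `Y = 2^y`, in the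
part with `seg 1 1 Y`; `seg 1 1 Y * M` vanishes at `n ≥ 2^y 2^w`.
-/

set_option autoImplicit false

namespace Pool.Agent.H88.PSI

open ArithmeticFunction in
private theorem HB_vanish {f g : ArithmeticFunction ℝ} {a b n : ℕ} (hf : ∀ m < a, f m = 0)
    (hg : ∀ m < b, g m = 0) (hn : n < a * b) : (f * g) n = 0 := by
  rw [ArithmeticFunction.mul_apply]
  refine Finset.sum_eq_zero fun x hx => ?_
  have h1 : x.1 * x.2 = n := (Nat.mem_divisorsAntidiagonal.1 hx).1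
  rcases lt_or_ge x.1 a with h2 | h2
  · rw [hf _ h2, zero_mul]
  · rcases lt_or_ge x.2 b with h3 | h3
    · rw [hg _ h3, mul_zero]
    · exact absurd (Nat.mul_le_mul h2 h3) (by omega)

private theorem HB_vanish' {f g : ArithmeticFunction ℝ} {a b n : ℕ} (hf : ∀ m, a ≤ m → f m = 0)
    (hg : ∀ m, b ≤ m → g m = 0) (hn : a * b ≤ n) (hn0 : n ≠ 0) : (f * g) n = 0 := by
  rw [ArithmeticFunction.mul_apply]
  refine Finset.sum_eq_zero fun x hx => ?_
  have h1 : x.1 * x.2 = n := (Nat.mem_divisorsAntidiagonal.1 hx).1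
  rcases lt_or_ge x.1 a with h2 | h2
  · rcases lt_or_ge x.2 b with h3 | h3
    · exfalso
      have h4 : x.1 * x.2 ≤ x.1 * b := Nat.mul_le_mul_left _ h3.le
      have h5 : x.1 * b ≤ a * b := Nat.mul_le_mul_right _ h2.le
      have h6 : 0 < x.1 := by
        rcases Nat.eq_zero_or_pos x.1 with h | h
        · rw [h, zero_mul] at h1
          exact absurd h1.symm hn0
        · exact h
      have h7 : x.1 * x.2 < x.1 * b := Nat.mul_lt_mul_of_pos_left h3 h6
      omega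
    · rw [hg _ h3, mul_zero]
  · rw [hf _ h2, zero_mul]

private theorem HB_three (f : ArithmeticFunction ℝ) : (3 : ℝ) • f = 3 * f := by
  have h : (3 : ArithmeticFunction ℝ) * f = f + f + f := by ring
  rw [h]
  ext n
  simp only [ArithmeticFunction.add_apply]
  rw [show ((3 : ℝ) • f) n = 3 * f n from rfl]
  ring

private theorem HB_Z : hi 0 1 = ((ArithmeticFunction.zeta : ArithmeticFunction ℕ) :
    ArithmeticFunction ℝ) := by
  ext n
  rw [ArithmeticFunction.natCoe_apply, ArithmeticFunction.zeta_apply]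
  show (if n ≠ 0 ∧ 1 ≤ n then kf 0 n else 0) = _
  by_cases hn : n = 0
  · simp [hn]
  · have : 1 ≤ n := Nat.one_le_iff_ne_zero.2 hn
    simp [hn, this, kf]

private theorem HB_G : La * hi 0 1 = hi 1 1 := by
  rw [HB_Z]
  unfold La
  rw [ArithmeticFunction.vonMangoldt_mul_zeta]
  ext n
  rw [ArithmeticFunction.log_apply]
  show _ = (if n ≠ 0 ∧ 1 ≤ n then kf 1 n else 0)
  by_cases hn : n = 0
  · simp [hn]
  · have : 1 ≤ n := Nat.one_le_iff_ne_zero.2 hn
    simp [hn, this, kf]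

private theorem HB_ZM (w n : ℕ) (hn : n < 2 ^ w) : (1 - hi 0 1 * seg 2 1 (2 ^ w)) n = 0 := by
  have h1 : (hi 0 1 * ((ArithmeticFunction.moebius : ArithmeticFunction ℤ) :
      ArithmeticFunction ℝ)) = 1 := by
    rw [HB_Z]
    exact ArithmeticFunction.coe_zeta_mul_coe_moebius
  have h2 : (hi 0 1 * seg 2 1 (2 ^ w)) n = (1 : ArithmeticFunction ℝ) n := by
    rw [← h1, ArithmeticFunction.mul_apply, ArithmeticFunction.mul_apply]
    refine Finset.sum_congr rfl fun x hx => ?_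
    obtain ⟨h3, h4⟩ := Nat.mem_divisorsAntidiagonal.1 hx
    congr 1
    have h5 : x.2 ≠ 0 := by
      intro h
      rw [h, mul_zero] at h3
      exact h4 h3.symm
    have h6 : x.2 ∣ n := ⟨x.1, by rw [← h3, mul_comm]⟩
    have h7 : x.2 ≤ n := Nat.le_of_dvd (Nat.pos_of_ne_zero h4) h6
    rw [ArithmeticFunction.intCoe_apply]
    show (if x.2 ≠ 0 ∧ 1 ≤ x.2 ∧ x.2 < 2 ^ w then kf 2 x.2 else 0) = _
    rw [if_pos ⟨h5, Nat.one_le_iff_ne_zero.2 h5, lt_of_le_of_lt h7 hn⟩]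
    simp [kf]
  have h3 : (1 - hi 0 1 * seg 2 1 (2 ^ w)) n =
      (1 : ArithmeticFunction ℝ) n - (hi 0 1 * seg 2 1 (2 ^ w)) n := rfl
  rw [h3, h2, sub_self]

private theorem HB_split (k : Fin 3) (Y : ℕ) : hi k 1 = hi k Y + seg k 1 Y := by
  ext n
  rw [ArithmeticFunction.add_apply]
  show (if n ≠ 0 ∧ 1 ≤ n then kf k n else 0) =
    (if n ≠ 0 ∧ Y ≤ n then kf k n else 0) + (if n ≠ 0 ∧ 1 ≤ n ∧ n < Y then kf k n else 0)
  by_cases hn : n = 0
  · simp [hn]
  · have h1 : 1 ≤ n := Nat.one_le_iff_ne_zero.2 hn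
    rcases lt_or_ge n Y with h2 | h2
    · simp [hn, h1, h2, not_le.2 h2]
    · simp [hn, h1, h2, not_lt.2 h2]

private theorem HB_T4 (y w : ℕ) : Tp k4 y w =
    seg 1 1 (2 ^ y) * seg 0 1 (2 ^ y) * seg 2 1 (2 ^ w) * seg 2 1 (2 ^ w) := by
  unfold Tp
  rw [Fin.prod_univ_four]
  rfl

private theorem HB_T6 (y w : ℕ) : Tp k6 y w =
    seg 1 1 (2 ^ y) * seg 0 1 (2 ^ y) * seg 0 1 (2 ^ y) * seg 2 1 (2 ^ w) * seg 2 1 (2 ^ w) *
      seg 2 1 (2 ^ w) := by
  unfold Tp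
  rw [Fin.prod_univ_six]
  rfl

theorem hb (y w n : ℕ) (h1 : n < (2 ^ w) ^ 3) (h2 : 2 ^ y * 2 ^ w ≤ n) :
    La n = (hi 1 (2 ^ y) * cA w) n + (hi 0 (2 ^ y) * cB y w) n
      - 3 * (Tp k4 y w) n + (Tp k6 y w) n := by
  set M := seg 2 1 (2 ^ w) with hM
  set Z := hi 0 1 with hZ
  set Zh := hi 0 (2 ^ y) with hZh
  set Zl := seg 0 1 (2 ^ y) with hZl
  set g := seg 1 1 (2 ^ y) with hg
  set Gh := hi 1 (2 ^ y) with hGh
  have eZ : Z = Zh + Zl := HB_split 0 (2 ^ y)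
  have eG : La * Z = Gh + g := by
    rw [hZ, HB_G]
    exact HB_split 1 (2 ^ y)
  have v1 : ∀ m < 2 ^ w, (1 - Z * M) m = 0 := fun m hm => HB_ZM w m hm
  have v2 : ∀ m < 2 ^ w * 2 ^ w, ((1 - Z * M) * (1 - Z * M)) m = 0 :=
    fun m hm => HB_vanish v1 v1 hm
  have v3 : ∀ m < 2 ^ w * 2 ^ w * 2 ^ w, ((1 - Z * M) * (1 - Z * M) * (1 - Z * M)) m = 0 :=
    fun m hm => HB_vanish v2 v1 hm
  have v4 : (La * ((1 - Z * M) * (1 - Z * M) * (1 - Z * M))) n = 0 := by
    refine HB_vanish (a := 1) (b := 2 ^ w * 2 ^ w * 2 ^ w) ?_ v3 ?_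
    · intro m hm
      have : m = 0 := by omega
      rw [this]
      exact ArithmeticFunction.map_zero
    · calc n < (2 ^ w) ^ 3 := h1
        _ = 1 * (2 ^ w * 2 ^ w * 2 ^ w) := by ring
  have hn0 : n ≠ 0 := by
    have : 0 < 2 ^ y * 2 ^ w := by positivity
    omega
  have v5 : (g * M) n = 0 := by
    refine HB_vanish' (a := 2 ^ y) (b := 2 ^ w) ?_ ?_ h2 hn0
    · intro m hm
      show (if m ≠ 0 ∧ 1 ≤ m ∧ m < 2 ^ y then kf 1 m else 0) = 0
      rw [if_neg]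
      rintro ⟨_, _, h⟩
      omega
    · intro m hm
      show (if m ≠ 0 ∧ 1 ≤ m ∧ m < 2 ^ w then kf 2 m else 0) = 0
      rw [if_neg]
      rintro ⟨_, _, h⟩
      omega
  have key : La = Gh * cA w + Zh * cB y w - 3 * Tp k4 y w + Tp k6 y w + 3 * (g * M) +
      La * ((1 - Z * M) * (1 - Z * M) * (1 - Z * M)) := by
    have e1 : La * ((1 - Z * M) * (1 - Z * M) * (1 - Z * M)) =
        La - (La * Z) * (3 * M - 3 * (Z * M ^ 2) + Z ^ 2 * M ^ 3) := by ring
    have e2 : cA w = 3 * M - 3 * (Z * M ^ 2) + Z ^ 2 * M ^ 3 := by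
      unfold cA
      rw [HB_three, HB_three]
    have e3 : cB y w = g * (Z + Zl) * M ^ 3 - 3 * (g * M ^ 2) := by
      unfold cB
      rw [HB_three]
    rw [e1, eG, HB_T4, HB_T6, e2, e3, eZ]
    ring
  have e4 : ∀ f : ArithmeticFunction ℝ, (3 * f) n = 3 * f n := by
    intro f
    rw [← HB_three]
    rfl
  calc La n = (Gh * cA w + Zh * cB y w - 3 * Tp k4 y w + Tp k6 y w + 3 * (g * M) +
      La * ((1 - Z * M) * (1 - Z * M) * (1 - Z * M))) n := by rw [← key]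
    _ = (Gh * cA w) n + (Zh * cB y w) n - (3 * Tp k4 y w) n + (Tp k6 y w) n + (3 * (g * M)) n +
      (La * ((1 - Z * M) * (1 - Z * M) * (1 - Z * M))) n := rfl
    _ = _ := by
      rw [e4, e4, v4, v5]
      ring

end Pool.Agent.H88.PSI

end
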