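import Pool.Agent.H43.PM.M38

/-! The parts of this file: H88.PSI.MuB, H88.PSI.SmB. -/

section

/-!
# PSI MuB: cancellation in `∑ μ(n) χ(n) n^{2 π i t}` over dyadic intervals

(helper43)  `F(n) = χ(n) ee(t log n)` is multiplicative.  For `v ≤ 2u + 1` put `M(u,v) = ∑_{u<n≤v} μ(n) F(n)/n`; `|M| ≤ 1`.
`μ log = -(μ * Λ)` gives, with `y = ⌈exp(L^{19/20})⌉`,
`∑_{u<n≤v} μ(n) log n F(n)/n = -∑_{k ≤ y} (Λ(k) F(k)/k) M(u/k, v/k) - ∑_{m ≤ v} (μ(m) F(m)/m) ∑_{max(u/m, y) < k ≤ v/m} Λ(k) F(k)/k`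
(the condition `v ≤ 2u+1` is inherited by `(u/k, v/k)`).  The second part is `≤ C L^{1-K1}` by `vk_chi_w` and partial summation, the first one
`≤ (log y + 6) sup |M(u/k, v/k)|` (Mertens).  Partial summation with `1/log n` and `log u ≥ L/24`:
`sup |M(u,v)| ≤ L^{-1/40} sup |M(u',v')| + L^{-K-1}`, `u' ≥ u/y`.  Iterate `40 (K+1)` times.
-/

set_option autoImplicit false

namespace Pool.Agent.H88.PSI

open Finset
open Pool.Agent.H91.PK (ee)
open Pool.Agent.H91.EHA (Lam)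

/-- Abel summation with decreasing weights -/
private theorem mub_abel_anti (f : ℕ → ℂ) (g : ℕ → ℝ) (M : ℝ) (u v : ℕ)
    (hM : ∀ w, u ≤ w → w ≤ v → ‖∑ n ∈ Ioc u w, f n‖ ≤ M) (hg0 : ∀ n, u < n → n ≤ v → 0 ≤ g n)
    (hg : ∀ n, u < n → n < v → g (n + 1) ≤ g n) (huv : u < v) :
    ‖∑ n ∈ Ioc u v, (g n : ℂ) * f n‖ ≤ M * g (u + 1) := by
  have key : ∀ m : ℕ, u + 1 ≤ m → m ≤ v →
      ‖∑ n ∈ Ioc u m, (g n : ℂ) * f n - (g m : ℂ) * ∑ n ∈ Ioc u m, f n‖ ≤
        M * (g (u + 1) - g m) := by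
    intro m hm
    induction m, hm using Nat.le_induction with
    | base =>
      intro _
      rw [sum_Ioc_succ_top le_rfl, sum_Ioc_succ_top le_rfl, Ioc_self, sum_empty, sum_empty, zero_add,
        zero_add, sub_self, norm_zero, sub_self, mul_zero]
    | succ m hm ih =>
      intro hz
      have h1 := ih (by omega)
      rw [sum_Ioc_succ_top (show u ≤ m by omega), sum_Ioc_succ_top (show u ≤ m by omega)]
      have h2 : ∑ k ∈ Ioc u m, (g k : ℂ) * f k + (g (m + 1) : ℂ) * f (m + 1) -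
          (g (m + 1) : ℂ) * (∑ k ∈ Ioc u m, f k + f (m + 1)) =
          (∑ k ∈ Ioc u m, (g k : ℂ) * f k - (g m : ℂ) * ∑ k ∈ Ioc u m, f k) +
          ((g m - g (m + 1) : ℝ) : ℂ) * ∑ k ∈ Ioc u m, f k := by
        push_cast; ring
      rw [h2]
      refine (norm_add_le _ _).trans ?_
      have h4 := hg m (by omega) (by omega)
      rw [norm_mul, Complex.norm_real, Real.norm_of_nonneg (by linarith)]
      have h3 := hM m (by omega) (by omega)
      nlinarith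
  have h1 := key v (by omega) le_rfl
  have h2 : ∑ n ∈ Ioc u v, (g n : ℂ) * f n =
      (∑ n ∈ Ioc u v, (g n : ℂ) * f n - (g v : ℂ) * ∑ n ∈ Ioc u v, f n) +
      (g v : ℂ) * ∑ n ∈ Ioc u v, f n := by ring
  rw [h2]
  refine (norm_add_le _ _).trans ?_
  rw [norm_mul, Complex.norm_real, Real.norm_of_nonneg (hg0 v huv le_rfl)]
  have h3 := hM v huv.le le_rfl
  have h4 := hg0 v huv le_rfl
  nlinarith

/-- Abel summation with increasing weights -/
theorem mub_abel_mono (f : ℕ → ℂ) (g : ℕ → ℝ) (M : ℝ) (u v : ℕ)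
    (hM : ∀ w, u ≤ w → w ≤ v → ‖∑ n ∈ Ioc u w, f n‖ ≤ M) (hg0 : ∀ n, u < n → n ≤ v → 0 ≤ g n)
    (hg : ∀ n, u < n → n < v → g n ≤ g (n + 1)) (huv : u < v) :
    ‖∑ n ∈ Ioc u v, (g n : ℂ) * f n‖ ≤ 2 * M * g v := by
  have hM0 : 0 ≤ M := (norm_nonneg _).trans (hM u le_rfl huv.le)
  have key : ∀ m : ℕ, u + 1 ≤ m → m ≤ v →
      ‖∑ n ∈ Ioc u m, (g n : ℂ) * f n - (g m : ℂ) * ∑ n ∈ Ioc u m, f n‖ ≤
        M * (g m - g (u + 1)) := by
    intro m hm
    induction m, hm using Nat.le_induction with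
    | base =>
      intro _
      rw [sum_Ioc_succ_top le_rfl, sum_Ioc_succ_top le_rfl, Ioc_self, sum_empty, sum_empty, zero_add,
        zero_add, sub_self, norm_zero, sub_self, mul_zero]
    | succ m hm ih =>
      intro hz
      have h1 := ih (by omega)
      rw [sum_Ioc_succ_top (show u ≤ m by omega), sum_Ioc_succ_top (show u ≤ m by omega)]
      have h2 : ∑ k ∈ Ioc u m, (g k : ℂ) * f k + (g (m + 1) : ℂ) * f (m + 1) -
          (g (m + 1) : ℂ) * (∑ k ∈ Ioc u m, f k + f (m + 1)) =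
          (∑ k ∈ Ioc u m, (g k : ℂ) * f k - (g m : ℂ) * ∑ k ∈ Ioc u m, f k) -
          ((g (m + 1) - g m : ℝ) : ℂ) * ∑ k ∈ Ioc u m, f k := by
        push_cast; ring
      rw [h2]
      refine (norm_sub_le _ _).trans ?_
      have h4 := hg m (by omega) (by omega)
      rw [norm_mul, Complex.norm_real, Real.norm_of_nonneg (by linarith)]
      have h3 := hM m (by omega) (by omega)
      nlinarith
  have h1 := key v (by omega) le_rfl
  have h2 : ∑ n ∈ Ioc u v, (g n : ℂ) * f n =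
      (∑ n ∈ Ioc u v, (g n : ℂ) * f n - (g v : ℂ) * ∑ n ∈ Ioc u v, f n) +
      (g v : ℂ) * ∑ n ∈ Ioc u v, f n := by ring
  rw [h2]
  refine (norm_add_le _ _).trans ?_
  rw [norm_mul, Complex.norm_real, Real.norm_of_nonneg (hg0 v huv le_rfl)]
  have h3 := hM v huv.le le_rfl
  have h4 := hg0 v huv le_rfl
  have h5 := hg0 (u + 1) (by omega) (by omega)
  nlinarith [mul_nonneg hM0 h5]

/-- Mertens, upper bound -/
private theorem mub_mert (n : ℕ) (hn : 1 ≤ n) :
    ∑ d ∈ Ioc 0 n, Lam d / d ≤ Real.log n + (Real.log 4 + 4) := by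
  have hn0 : (0 : ℝ) < n := by exact_mod_cast hn
  have h1 := Pool.Agent.H91.Gold.log_fact_eq n
  have h2 : ∑ k ∈ Ioc 0 n, Real.log k ≤ n * Real.log n := by
    calc ∑ k ∈ Ioc 0 n, Real.log k ≤ ∑ k ∈ Ioc 0 n, Real.log n := by
          apply sum_le_sum
          intro k hk
          rw [mem_Ioc] at hk
          exact Real.log_le_log (by exact_mod_cast hk.1) (by exact_mod_cast hk.2)
      _ = n * Real.log n := by rw [sum_const, Nat.card_Ioc, nsmul_eq_mul]; simp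
  have h3 := Chebyshev.psi_le_const_mul_self (x := (n : ℝ)) (by positivity)
  rw [Pool.Agent.H91.Gold.psi_eq] at h3
  have h4 : ∑ d ∈ Ioc 0 n, Lam d * ((n : ℝ) / d) ≤
      ∑ d ∈ Ioc 0 n, Lam d * ((n / d : ℕ) : ℝ) + ∑ d ∈ Ioc 0 n, Lam d := by
    rw [← sum_add_distrib]
    apply sum_le_sum
    intro d hd
    rw [mem_Ioc] at hd
    have h5 : (n : ℝ) / d ≤ ((n / d : ℕ) : ℝ) + 1 := by
      rw [div_le_iff₀ (by exact_mod_cast hd.1)]
      have h6 := Nat.div_add_mod n d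
      have h7 := Nat.mod_lt n hd.1
      have h8 : n ≤ (n / d + 1) * d := by nlinarith
      exact_mod_cast h8
    have h6 : 0 ≤ Lam d := ArithmeticFunction.vonMangoldt_nonneg
    nlinarith [mul_le_mul_of_nonneg_left h5 h6]
  have h5 : ∑ d ∈ Ioc 0 n, Lam d * ((n : ℝ) / d) = n * ∑ d ∈ Ioc 0 n, Lam d / d := by
    rw [mul_sum]
    exact sum_congr rfl fun d _ => by ring
  have h6 : (n : ℝ) * ∑ d ∈ Ioc 0 n, Lam d / d ≤ n * (Real.log n + (Real.log 4 + 4)) := by
    rw [← h5]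
    unfold Lam at h4 ⊢
    linarith
  exact le_of_mul_le_mul_left h6 hn0

/-- `μ log = -(μ * Λ)` -/
private theorem mub_mulog (n : ℕ) :
    (((ArithmeticFunction.moebius n : ℤ) : ℝ)) * Real.log n =
      -∑ x ∈ n.divisorsAntidiagonal, ((ArithmeticFunction.moebius x.1 : ℤ) : ℝ) * Lam x.2 := by
  have hb : (ArithmeticFunction.log.pmul ((ArithmeticFunction.moebius : ArithmeticFunction ℤ) :
      ArithmeticFunction ℝ)) = -(((ArithmeticFunction.moebius : ArithmeticFunction ℤ) :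
      ArithmeticFunction ℝ) * ArithmeticFunction.vonMangoldt) := by
    have h1 : (ArithmeticFunction.log.pmul ((ArithmeticFunction.moebius : ArithmeticFunction ℤ) :
      ArithmeticFunction ℝ)) * ((ArithmeticFunction.zeta : ArithmeticFunction ℕ) : ArithmeticFunction ℝ)
        = -ArithmeticFunction.vonMangoldt := by
      ext m
      rw [ArithmeticFunction.coe_mul_zeta_apply]
      have h2 := ArithmeticFunction.sum_moebius_mul_log_eq (n := m)
      rw [ArithmeticFunction.neg_apply, ← h2]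
      refine sum_congr rfl fun d _ => ?_
      rw [ArithmeticFunction.pmul_apply, ArithmeticFunction.log_apply, ArithmeticFunction.intCoe_apply]
      ring
    calc (ArithmeticFunction.log.pmul ((ArithmeticFunction.moebius : ArithmeticFunction ℤ) :
      ArithmeticFunction ℝ))
        = (ArithmeticFunction.log.pmul ((ArithmeticFunction.moebius : ArithmeticFunction ℤ) :
          ArithmeticFunction ℝ)) * (((ArithmeticFunction.zeta : ArithmeticFunction ℕ) :
          ArithmeticFunction ℝ) * ((ArithmeticFunction.moebius : ArithmeticFunction ℤ) :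
          ArithmeticFunction ℝ)) := by
            rw [ArithmeticFunction.coe_zeta_mul_coe_moebius, mul_one]
      _ = _ := by
            rw [← mul_assoc, h1]
            ring
  have h3 := congrArg (fun f : ArithmeticFunction ℝ => f n) hb
  simp only [ArithmeticFunction.pmul_apply, ArithmeticFunction.log_apply,
    ArithmeticFunction.intCoe_apply, ArithmeticFunction.neg_apply, ArithmeticFunction.mul_apply] at h3
  unfold Lam
  linarith

/-- sums over the pairs `(m, k)` with `u < m k ≤ v` -/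
private theorem mub_pairs (G : ℕ → ℕ → ℂ) (u v y : ℕ) :
    ∑ n ∈ Ioc u v, ∑ x ∈ n.divisorsAntidiagonal, G x.1 x.2 =
      ∑ k ∈ (Ioc 0 v).filter (fun k => k ≤ y), ∑ m ∈ Ioc (u / k) (v / k), G m k
      + ∑ m ∈ Ioc 0 v, ∑ k ∈ Ioc (max (u / m) y) (v / m), G m k := by
  set P : Finset (ℕ × ℕ) := (Ioc 0 v ×ˢ Ioc 0 v).filter (fun x => u < x.1 * x.2 ∧ x.1 * x.2 ≤ v) with hP
  have h1 : ∑ n ∈ Ioc u v, ∑ x ∈ n.divisorsAntidiagonal, G x.1 x.2 = ∑ x ∈ P, G x.1 x.2 := by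
    rw [← sum_fiberwise_of_maps_to (s := P) (t := Ioc u v) (g := fun x => x.1 * x.2)
      (fun x hx => by
        rw [hP, mem_filter] at hx
        rw [mem_Ioc]
        exact hx.2)]
    refine sum_congr rfl fun n hn => ?_
    refine sum_congr ?_ fun _ _ => rfl
    rw [mem_Ioc] at hn
    ext ⟨a, b⟩
    rw [Nat.mem_divisorsAntidiagonal, mem_filter, hP, mem_filter, mem_product, mem_Ioc, mem_Ioc]
    simp only
    constructor
    · rintro ⟨h, h0⟩
      have ha : 0 < a := by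
        rcases Nat.eq_zero_or_pos a with h2 | h2
        · rw [h2, zero_mul] at h; omega
        · exact h2
      have hb : 0 < b := by
        rcases Nat.eq_zero_or_pos b with h2 | h2
        · rw [h2, mul_zero] at h; omega
        · exact h2
      have ha' : a ≤ a * b := Nat.le_mul_of_pos_right a hb
      have hb' : b ≤ a * b := Nat.le_mul_of_pos_left b ha
      omega
    · rintro ⟨-, h⟩
      exact ⟨h, by omega⟩
  have h2 : ∑ x ∈ P, G x.1 x.2 = ∑ x ∈ P.filter (fun x => x.2 ≤ y), G x.1 x.2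
      + ∑ x ∈ P.filter (fun x => ¬ x.2 ≤ y), G x.1 x.2 := (sum_filter_add_sum_filter_not _ _ _).symm
  have h3 : ∑ x ∈ P.filter (fun x => x.2 ≤ y), G x.1 x.2
      = ∑ k ∈ (Ioc 0 v).filter (fun k => k ≤ y), ∑ m ∈ Ioc (u / k) (v / k), G m k := by
    have e : P.filter (fun x => x.2 ≤ y) =
        (((Ioc 0 v).filter (fun k => k ≤ y)).sigma (fun k => Ioc (u / k) (v / k))).image
          (fun s : Σ _ : ℕ, ℕ => (s.2, s.1)) := by
      ext ⟨a, b⟩
      simp only [hP, mem_filter, mem_product, mem_Ioc, mem_image, mem_sigma, Prod.mk.injEq]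
      constructor
      · rintro ⟨⟨⟨⟨ha, ha'⟩, hb, hb'⟩, h4, h5⟩, h6⟩
        refine ⟨⟨b, a⟩, ⟨⟨⟨hb, hb'⟩, h6⟩, ?_, ?_⟩, rfl, rfl⟩
        · exact (Nat.div_lt_iff_lt_mul hb).2 h4
        · exact (Nat.le_div_iff_mul_le hb).2 h5
      · rintro ⟨⟨k, m⟩, ⟨⟨⟨hb, hb'⟩, h6⟩, h4, h5⟩, rfl, rfl⟩
        simp only at hb hb' h6 h4 h5 ⊢
        have h7 := (Nat.div_lt_iff_lt_mul hb).1 h4
        have h8 := (Nat.le_div_iff_mul_le hb).1 h5
        have h9 : m ≤ v := h5.trans (Nat.div_le_self v k)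
        have h10 : 0 < m := lt_of_le_of_lt (Nat.zero_le _) h4
        exact ⟨⟨⟨⟨h10, h9⟩, hb, hb'⟩, h7, h8⟩, h6⟩
    rw [e, sum_image, sum_sigma]
    rintro ⟨k, m⟩ _ ⟨k', m'⟩ _ h
    simp only [Prod.mk.injEq] at h
    obtain ⟨rfl, rfl⟩ := h
    rfl
  have h4 : ∑ x ∈ P.filter (fun x => ¬ x.2 ≤ y), G x.1 x.2
      = ∑ m ∈ Ioc 0 v, ∑ k ∈ Ioc (max (u / m) y) (v / m), G m k := by
    have e : P.filter (fun x => ¬ x.2 ≤ y) =
        ((Ioc 0 v).sigma (fun m => Ioc (max (u / m) y) (v / m))).image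
          (fun s : Σ _ : ℕ, ℕ => (s.1, s.2)) := by
      ext ⟨a, b⟩
      simp only [hP, mem_filter, mem_product, mem_Ioc, mem_image, mem_sigma, Prod.mk.injEq]
      constructor
      · rintro ⟨⟨⟨⟨ha, ha'⟩, hb, hb'⟩, h4, h5⟩, h6⟩
        refine ⟨⟨a, b⟩, ⟨⟨ha, ha'⟩, ?_, ?_⟩, rfl, rfl⟩
        · have : u / a < b := (Nat.div_lt_iff_lt_mul ha).2 (by rw [mul_comm]; exact h4)
          simp only
          omega
        · exact (Nat.le_div_iff_mul_le ha).2 (by rw [mul_comm]; exact h5)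
      · rintro ⟨⟨m, k⟩, ⟨⟨ha, ha'⟩, h4, h5⟩, rfl, rfl⟩
        simp only at ha ha' h4 h5 ⊢
        have h7 : u < k * m := (Nat.div_lt_iff_lt_mul ha).1 (lt_of_le_of_lt (le_max_left _ _) h4)
        have h8 := (Nat.le_div_iff_mul_le ha).1 h5
        have h9 : k ≤ v := h5.trans (Nat.div_le_self v m)
        have h10 : y < k := lt_of_le_of_lt (le_max_right _ _) h4
        rw [mul_comm] at h7 h8
        exact ⟨⟨⟨⟨ha, ha'⟩, by omega, h9⟩, h7, h8⟩, by omega⟩
    rw [e, sum_image, sum_sigma]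
    rintro ⟨k, m⟩ _ ⟨k', m'⟩ _ h
    simp only [Prod.mk.injEq] at h
    obtain ⟨rfl, rfl⟩ := h
    rfl
  rw [h1, h2, h3, h4]

/-- the decomposition -/
private theorem mub_dec (F : ℕ → ℂ) (hF : ∀ m k, 1 ≤ m → 1 ≤ k → F (m * k) = F m * F k) (u v y : ℕ) :
    ∑ n ∈ Ioc u v, ((Real.log n : ℝ) : ℂ) * ((((ArithmeticFunction.moebius n : ℤ) : ℝ) : ℂ) * (F n / n)) =
      -(∑ k ∈ (Ioc 0 v).filter (fun k => k ≤ y), ((Lam k : ℝ) : ℂ) * (F k / k) *
          ∑ m ∈ Ioc (u / k) (v / k), (((ArithmeticFunction.moebius m : ℤ) : ℝ) : ℂ) * (F m / m)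
        + ∑ m ∈ Ioc 0 v, (((ArithmeticFunction.moebius m : ℤ) : ℝ) : ℂ) * (F m / m) *
          ∑ k ∈ Ioc (max (u / m) y) (v / m), ((Lam k : ℝ) : ℂ) * (F k / k)) := by
  have h1 : ∀ n ∈ Ioc u v, ((Real.log n : ℝ) : ℂ) *
      ((((ArithmeticFunction.moebius n : ℤ) : ℝ) : ℂ) * (F n / n)) =
      -∑ x ∈ n.divisorsAntidiagonal, (((((ArithmeticFunction.moebius x.1 : ℤ) : ℝ) : ℂ) * (F x.1 / x.1)) *
        (((Lam x.2 : ℝ) : ℂ) * (F x.2 / x.2))) := by
    intro n hn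
    rw [mem_Ioc] at hn
    have h2 := mub_mulog n
    have h3 : ((Real.log n : ℝ) : ℂ) * ((((ArithmeticFunction.moebius n : ℤ) : ℝ) : ℂ) * (F n / n))
        = ((((ArithmeticFunction.moebius n : ℤ) : ℝ) * Real.log n : ℝ) : ℂ) * (F n / n) := by
      push_cast
      ring
    rw [h3, h2]
    push_cast
    rw [neg_mul, sum_mul]
    congr 1
    refine sum_congr rfl fun x hx => ?_
    obtain ⟨hx1, hx2⟩ := Nat.mem_divisorsAntidiagonal.1 hx
    have ha : 0 < x.1 := Nat.pos_of_ne_zero fun h => hx2 (by rw [← hx1, h, zero_mul])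
    have hb : 0 < x.2 := Nat.pos_of_ne_zero fun h => hx2 (by rw [← hx1, h, mul_zero])
    rw [← hx1, hF _ _ ha hb]
    have ha0 : (x.1 : ℂ) ≠ 0 := by exact_mod_cast ha.ne'
    have hb0 : (x.2 : ℂ) ≠ 0 := by exact_mod_cast hb.ne'
    push_cast
    field_simp
  rw [sum_congr rfl h1, sum_neg_distrib,
    mub_pairs (fun m k => ((((ArithmeticFunction.moebius m : ℤ) : ℝ) : ℂ) * (F m / m)) *
        (((Lam k : ℝ) : ℂ) * (F k / k))) u v y]
  congr 2
  · refine sum_congr rfl fun k _ => ?_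
    rw [mul_sum]
    exact sum_congr rfl fun m _ => by ring
  · refine sum_congr rfl fun m _ => ?_
    rw [mul_sum]

/-- one step of the iteration -/
private theorem mub_step (F : ℕ → ℂ) (hF : ∀ m k, 1 ≤ m → 1 ≤ k → F (m * k) = F m * F k)
    (hF1 : ∀ n, ‖F n‖ ≤ 1) (Y y : ℕ) (δ E L : ℝ) (hy : 1 ≤ y) (hδ : 0 ≤ δ) (hE : 0 ≤ E) (hL : 1 ≤ L)
    (hlam : ∀ a b, y ≤ a → a ≤ b → b ≤ 2 * a + 1 → b ≤ Y →
      ‖∑ k ∈ Ioc a b, ((Lam k : ℝ) : ℂ) * (F k / k)‖ ≤ δ)
    (hYL : Real.log Y ≤ 2 * L) (U : ℕ) (hU1 : 1 ≤ U)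
    (hM : ∀ u v, U ≤ u → u ≤ v → v ≤ 2 * u + 1 → v ≤ Y →
      ‖∑ m ∈ Ioc u v, (((ArithmeticFunction.moebius m : ℤ) : ℝ) : ℂ) * (F m / m)‖ ≤ E)
    (u v : ℕ) (hu : U * y ≤ u) (huv : u ≤ v) (hv : v ≤ 2 * u + 1) (hvY : v ≤ Y)
    (huL : L / 24 ≤ Real.log (u + 1)) :
    ‖∑ m ∈ Ioc u v, (((ArithmeticFunction.moebius m : ℤ) : ℝ) : ℂ) * (F m / m)‖ ≤
      24 / L * ((Real.log y + 6) * E + 3 * L * δ) := by
  have hL0 : 0 < L := by linarith
  have hly : 0 ≤ Real.log y := Real.log_natCast_nonneg y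
  have hbd0 : 0 ≤ 24 / L * ((Real.log y + 6) * E + 3 * L * δ) := by positivity
  rcases Nat.eq_or_lt_of_le huv with rfl | huv'
  · rw [Ioc_self, sum_empty, norm_zero]
    exact hbd0
  -- bound for the sums with the logarithm
  have hT : ∀ w, u ≤ w → w ≤ v → ‖∑ n ∈ Ioc u w, ((Real.log n : ℝ) : ℂ) *
      ((((ArithmeticFunction.moebius n : ℤ) : ℝ) : ℂ) * (F n / n))‖ ≤ (Real.log y + 6) * E + 3 * L * δ := by
    intro w huw hwv
    rw [mub_dec F hF u w y, norm_neg]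
    refine (norm_add_le _ _).trans (add_le_add ?_ ?_)
    · -- the part `k ≤ y`
      have h1 : ∀ k ∈ (Ioc 0 w).filter (fun k => k ≤ y), ‖((Lam k : ℝ) : ℂ) * (F k / k) *
          ∑ m ∈ Ioc (u / k) (w / k), (((ArithmeticFunction.moebius m : ℤ) : ℝ) : ℂ) * (F m / m)‖
          ≤ Lam k / k * E := by
        intro k hk
        rw [mem_filter, mem_Ioc] at hk
        obtain ⟨⟨hk0, hk1⟩, hk2⟩ := hk
        have hk0' : (0 : ℝ) < k := by exact_mod_cast hk0
        have hLk : 0 ≤ Lam k := ArithmeticFunction.vonMangoldt_nonneg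
        have h2 : ‖∑ m ∈ Ioc (u / k) (w / k), (((ArithmeticFunction.moebius m : ℤ) : ℝ) : ℂ) *
            (F m / m)‖ ≤ E := by
          apply hM
          · rw [Nat.le_div_iff_mul_le hk0]
            exact (Nat.mul_le_mul_left U hk2).trans hu
          · exact Nat.div_le_div_right huw
          · rw [← Nat.lt_succ_iff, Nat.div_lt_iff_lt_mul hk0]
            have h3 := Nat.lt_mul_div_succ u hk0
            have h4 : w ≤ 2 * u + 1 := hwv.trans hv
            nlinarith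
          · exact (Nat.div_le_self w k).trans (hwv.trans hvY)
        rw [norm_mul, norm_mul, Complex.norm_real, Real.norm_of_nonneg hLk, norm_div,
          Complex.norm_natCast]
        have h5 : ‖F k‖ / k ≤ 1 / k := div_le_div_of_nonneg_right (hF1 k) hk0'.le
        calc Lam k * (‖F k‖ / k) * _ ≤ Lam k * (1 / k) * E := by
              refine mul_le_mul (mul_le_mul_of_nonneg_left h5 hLk) h2 (norm_nonneg _) (by positivity)
          _ = Lam k / k * E := by ring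
      refine (norm_sum_le_of_le _ h1).trans ?_
      rw [← sum_mul]
      refine mul_le_mul_of_nonneg_right ?_ hE
      have h2 : ∑ k ∈ (Ioc 0 w).filter (fun k => k ≤ y), Lam k / k ≤ ∑ k ∈ Ioc 0 y, Lam k / k := by
        refine sum_le_sum_of_subset_of_nonneg ?_ fun k _ _ =>
          div_nonneg ArithmeticFunction.vonMangoldt_nonneg (Nat.cast_nonneg k)
        intro k hk
        rw [mem_filter, mem_Ioc] at hk
        rw [mem_Ioc]
        exact ⟨hk.1.1, hk.2⟩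
      refine h2.trans ((mub_mert y hy).trans ?_)
      have h3 : Real.log 4 ≤ 2 := by
        have : Real.log 4 = 2 * Real.log 2 := by
          rw [show (4 : ℝ) = 2 ^ 2 by norm_num, Real.log_pow]; norm_num
        have := Real.log_two_lt_d9
        linarith
      linarith
    · -- the part `k > y`
      have h1 : ∀ m ∈ Ioc 0 w, ‖(((ArithmeticFunction.moebius m : ℤ) : ℝ) : ℂ) * (F m / m) *
          ∑ k ∈ Ioc (max (u / m) y) (w / m), ((Lam k : ℝ) : ℂ) * (F k / k)‖ ≤ 1 / (m : ℝ) * δ := by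
        intro m hm
        rw [mem_Ioc] at hm
        have hm0 : (0 : ℝ) < m := by exact_mod_cast hm.1
        have h2 : ‖∑ k ∈ Ioc (max (u / m) y) (w / m), ((Lam k : ℝ) : ℂ) * (F k / k)‖ ≤ δ := by
          rcases Nat.lt_or_ge (w / m) (max (u / m) y) with h | h
          · rw [Ioc_eq_empty (by omega), sum_empty, norm_zero]
            exact hδ
          · apply hlam _ _ (le_max_right _ _) h
            · have h5 : w / m ≤ 2 * (u / m) + 1 := by
                rw [← Nat.lt_succ_iff, Nat.div_lt_iff_lt_mul hm.1]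
                have h3 := Nat.lt_mul_div_succ u hm.1
                have h4 : w ≤ 2 * u + 1 := hwv.trans hv
                nlinarith
              have h6 := le_max_left (u / m) y
              omega
            · exact (Nat.div_le_self w m).trans (hwv.trans hvY)
        rw [norm_mul, norm_mul, norm_div, Complex.norm_natCast]
        have hmu : ‖(((ArithmeticFunction.moebius m : ℤ) : ℝ) : ℂ)‖ ≤ 1 := by
          rw [Complex.norm_real, Real.norm_eq_abs]
          have := ArithmeticFunction.abs_moebius_le_one (n := m)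
          exact_mod_cast this
        have h5 : ‖F m‖ / m ≤ 1 / m := div_le_div_of_nonneg_right (hF1 m) hm0.le
        have h6 : ‖(((ArithmeticFunction.moebius m : ℤ) : ℝ) : ℂ)‖ * (‖F m‖ / m) ≤ 1 * (1 / m) :=
          mul_le_mul hmu h5 (by positivity) zero_le_one
        rw [one_mul] at h6
        exact mul_le_mul h6 h2 (norm_nonneg _) (by positivity)
      refine (norm_sum_le_of_le _ h1).trans ?_
      rw [← sum_mul]
      refine mul_le_mul_of_nonneg_right ?_ hδ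
      have hw1 : 1 ≤ w := by nlinarith
      have h2 : ∑ m ∈ Ioc 0 w, 1 / (m : ℝ) ≤ 1 + Real.log w := by
        have h3 := harmonic_le_one_add_log w
        have h4 : ((harmonic w : ℚ) : ℝ) = ∑ m ∈ Ioc 0 w, 1 / (m : ℝ) := by
          rw [harmonic_eq_sum_Icc]
          push_cast
          refine sum_congr ?_ fun m _ => by rw [one_div]
          ext m
          simp only [mem_Icc, mem_Ioc]
          omega
        rw [← h4]
        exact h3
      have h3 : Real.log w ≤ Real.log Y :=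
        Real.log_le_log (by exact_mod_cast hw1) (by exact_mod_cast hwv.trans hvY)
      linarith
  -- partial summation with `1/log n`
  have hu1 : 1 ≤ u := by nlinarith
  have hlogpos : ∀ n : ℕ, u < n → 0 < Real.log n := by
    intro n hn
    exact Real.log_pos (by exact_mod_cast (by omega : 1 < n))
  have h1 := mub_abel_anti (fun n => ((Real.log n : ℝ) : ℂ) *
      ((((ArithmeticFunction.moebius n : ℤ) : ℝ) : ℂ) * (F n / n))) (fun n => 1 / Real.log n) _ u v hT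
      (fun n hn _ => by have := hlogpos n hn; positivity)
      (fun n hn _ => one_div_le_one_div_of_le (hlogpos n hn)
        (Real.log_le_log (by exact_mod_cast (by omega : 0 < n)) (by push_cast; linarith))) huv'
  have h2 : ∑ n ∈ Ioc u v, (((1 / Real.log n : ℝ)) : ℂ) * (((Real.log n : ℝ) : ℂ) *
      ((((ArithmeticFunction.moebius n : ℤ) : ℝ) : ℂ) * (F n / n)))
      = ∑ m ∈ Ioc u v, (((ArithmeticFunction.moebius m : ℤ) : ℝ) : ℂ) * (F m / m) := by
    refine sum_congr rfl fun n hn => ?_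
    rw [mem_Ioc] at hn
    have h3 : ((Real.log n : ℝ) : ℂ) ≠ 0 := by
      exact_mod_cast (hlogpos n hn.1).ne'
    rw [Complex.ofReal_div, Complex.ofReal_one, ← mul_assoc, one_div, inv_mul_cancel₀ h3, one_mul]
  rw [h2] at h1
  refine h1.trans ?_
  rw [mul_comm]
  refine mul_le_mul_of_nonneg_right ?_ (by positivity)
  have h3 : 0 < L / 24 := by positivity
  refine (one_div_le_one_div_of_le h3 ?_).trans (le_of_eq ?_)
  · push_cast
    exact huL
  · rw [one_div_div]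

/-- the numerical facts for large `X` -/
private theorem mub_ev (S : ℕ) : ∃ X0 : ℕ, ∀ X : ℕ, X0 ≤ X → ∃ z : ℝ, 1 ≤ z ∧ z ^ 40 = Real.log X ∧
    Real.log X ^ (19 / 20 : ℝ) = z ^ 38 ∧ 216 ≤ Real.log X ∧ 4 * ((S : ℝ) + 1) ≤ Real.log X ∧
    24 * (z ^ 38 + 7) ≤ z ^ 39 ∧ 24 * (S * (z ^ 38 + 1)) ≤ z ^ 40 := by
  obtain ⟨Z, hZ⟩ : ∃ Z : ℝ, Z = 216 + 48 * (S : ℝ) := ⟨_, rfl⟩
  have hS : (0 : ℝ) ≤ S := Nat.cast_nonneg S
  have hZ216 : 216 ≤ Z := by linarith
  have hZS : 48 * (S : ℝ) ≤ Z := by linarith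
  have hZS4 : 4 * ((S : ℝ) + 1) ≤ Z := by linarith
  obtain ⟨X0, hX0⟩ := Filter.eventually_atTop.1
    ((Real.tendsto_log_atTop.comp (tendsto_natCast_atTop_atTop (R := ℝ))).eventually_ge_atTop
      (Z ^ 40))
  refine ⟨X0, fun X hX => ?_⟩
  have h1 : Z ^ 40 ≤ Real.log X := hX0 X hX
  have h3 : Z ≤ Z ^ 40 := le_self_pow₀ (by linarith) (by norm_num)
  have hZL : Z ≤ Real.log X := h3.trans h1
  have hL : 0 < Real.log X := by linarith
  obtain ⟨z, hz⟩ : ∃ z : ℝ, z = Real.log X ^ (1 / 40 : ℝ) := ⟨_, rfl⟩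
  have hzZ : Z ≤ z := by
    have h4 : (Z ^ 40) ^ (1 / 40 : ℝ) ≤ Real.log X ^ (1 / 40 : ℝ) :=
      Real.rpow_le_rpow (by positivity) h1 (by norm_num)
    have h5 : (Z ^ 40) ^ (1 / 40 : ℝ) = Z := by
      rw [← Real.rpow_natCast, ← Real.rpow_mul (by linarith)]
      norm_num
    rw [h5] at h4
    rw [hz]
    exact h4
  clear h1 h3
  have hz0 : 0 < z := by linarith
  have hz1 : 1 ≤ z := by linarith
  have e1 : z ^ 40 = Real.log X := by
    rw [hz, ← Real.rpow_natCast, ← Real.rpow_mul hL.le]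
    norm_num
  have e2 : Real.log X ^ (19 / 20 : ℝ) = z ^ 38 := by
    rw [hz, ← Real.rpow_natCast, ← Real.rpow_mul hL.le]
    norm_num
  obtain ⟨a, ha⟩ : ∃ a : ℝ, a = z ^ 38 := ⟨_, rfl⟩
  have h95 : 1 ≤ a := by rw [ha]; exact one_le_pow₀ hz1
  have h39 : z ^ 39 = z * a := by rw [ha, ← pow_succ']
  have h40 : z ^ 40 = z * (z * a) := by rw [← h39, ← pow_succ']
  refine ⟨z, hz1, e1, e2, by linarith, by linarith, ?_, ?_⟩
  · rw [h39, ← ha]
    have h5 : 192 * a ≤ z * a := mul_le_mul_of_nonneg_right (by linarith) (by linarith)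
    linarith
  · rw [h40, ← ha]
    have h9 : 48 * (S : ℝ) ≤ z := by linarith
    have h11 : (S : ℝ) * (a + 1) ≤ S * (2 * a) := mul_le_mul_of_nonneg_left (by linarith) hS
    have h12 : 48 * (S : ℝ) * a ≤ z * a := mul_le_mul_of_nonneg_right h9 (by linarith)
    have h13 : z * a ≤ z * (z * a) := by
      have : 0 ≤ z * a := by positivity
      exact le_mul_of_one_le_left this hz1
    linarith

/-- the iteration -/
private theorem mub_iter (F : ℕ → ℂ) (hF : ∀ m k, 1 ≤ m → 1 ≤ k → F (m * k) = F m * F k)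
    (hF1 : ∀ n, ‖F n‖ ≤ 1) (Y y S : ℕ) (δ ρ L : ℝ) (hy : 1 ≤ y) (hδ : 0 ≤ δ) (hL : 1 ≤ L)
    (hlam : ∀ a b, y ≤ a → a ≤ b → b ≤ 2 * a + 1 → b ≤ Y →
      ‖∑ k ∈ Ioc a b, ((Lam k : ℝ) : ℂ) * (F k / k)‖ ≤ δ)
    (hYL : Real.log Y ≤ 2 * L) (W : ℕ) (hW : 1 ≤ W) (hWL : L / 24 ≤ Real.log W)
    (hρ0 : 0 < ρ) (hρ1 : ρ ≤ 1) (hρ : 24 / L * (Real.log y + 6) ≤ ρ) (hδρ : 72 * δ ≤ ρ ^ S) :
    ∀ s, s ≤ S → ∀ u v, W * y ^ s ≤ u → u ≤ v → v ≤ 2 * u + 1 → v ≤ Y →
      ‖∑ m ∈ Ioc u v, (((ArithmeticFunction.moebius m : ℤ) : ℝ) : ℂ) * (F m / m)‖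
        ≤ ((s : ℝ) + 1) * ρ ^ s := by
  intro s
  induction s with
  | zero =>
    intro _ u v hu huv hv _
    have hu1 : 1 ≤ u := by
      rw [pow_zero, mul_one] at hu
      omega
    have h1 : ∀ m ∈ Ioc u v, ‖(((ArithmeticFunction.moebius m : ℤ) : ℝ) : ℂ) * (F m / m)‖
        ≤ 1 / ((u : ℝ) + 1) := by
      intro m hm
      rw [mem_Ioc] at hm
      have hm0 : (0 : ℝ) < m := by exact_mod_cast (by omega : 0 < m)
      rw [norm_mul, norm_div, Complex.norm_natCast]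
      have hmu : ‖(((ArithmeticFunction.moebius m : ℤ) : ℝ) : ℂ)‖ ≤ 1 := by
        rw [Complex.norm_real, Real.norm_eq_abs]
        have := ArithmeticFunction.abs_moebius_le_one (n := m)
        exact_mod_cast this
      have h5 : ‖F m‖ / m ≤ 1 / m := div_le_div_of_nonneg_right (hF1 m) hm0.le
      have h6 : ‖(((ArithmeticFunction.moebius m : ℤ) : ℝ) : ℂ)‖ * (‖F m‖ / m) ≤ 1 * (1 / m) :=
        mul_le_mul hmu h5 (by positivity) zero_le_one
      rw [one_mul] at h6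
      refine h6.trans (one_div_le_one_div_of_le (by positivity) ?_)
      exact_mod_cast hm.1
    refine (norm_sum_le_of_le _ h1).trans ?_
    rw [sum_const, Nat.card_Ioc, nsmul_eq_mul]
    have h2 : ((v - u : ℕ) : ℝ) ≤ (u : ℝ) + 1 := by exact_mod_cast (by omega : v - u ≤ u + 1)
    have h3 : (0 : ℝ) < (u : ℝ) + 1 := by positivity
    rw [mul_one_div, div_le_iff₀ h3]
    push_cast
    rw [pow_zero]
    linarith
  | succ s ih =>
    intro hs u v hu huv hv hvY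
    have hU1 : 1 ≤ W * y ^ s := Nat.mul_pos hW (Nat.pow_pos hy)
    have hWu : W ≤ u := by
      refine le_trans ?_ hu
      exact Nat.le_mul_of_pos_right W (Nat.pow_pos hy)
    have hE0 : 0 ≤ ((s : ℝ) + 1) * ρ ^ s := by positivity
    have huL : L / 24 ≤ Real.log ((u : ℝ) + 1) := by
      refine hWL.trans (Real.log_le_log (by exact_mod_cast hW) ?_)
      have : (W : ℝ) ≤ u := by exact_mod_cast hWu
      linarith
    have h1 := mub_step F hF hF1 Y y δ (((s : ℝ) + 1) * ρ ^ s) L hy hδ hE0 hL hlam hYL (W * y ^ s) hU1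
      (ih (by omega)) u v (by rw [mul_assoc, ← pow_succ]; exact hu) huv hv hvY huL
    refine h1.trans ?_
    have hL0 : 0 < L := by linarith
    have h2 : 24 / L * ((Real.log y + 6) * (((s : ℝ) + 1) * ρ ^ s) + 3 * L * δ)
        = (24 / L * (Real.log y + 6)) * (((s : ℝ) + 1) * ρ ^ s) + 72 * δ := by
      field_simp
      ring
    rw [h2]
    have h3 : (24 / L * (Real.log y + 6)) * (((s : ℝ) + 1) * ρ ^ s) ≤ ρ * (((s : ℝ) + 1) * ρ ^ s) :=
      mul_le_mul_of_nonneg_right hρ hE0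
    have h4 : ρ ^ S ≤ ρ ^ (s + 1) := pow_le_pow_of_le_one hρ0.le hρ1 hs
    have h5 : (((s + 1 : ℕ) : ℝ) + 1) * ρ ^ (s + 1) = ρ * (((s : ℝ) + 1) * ρ ^ s) + ρ ^ (s + 1) := by
      push_cast
      ring
    rw [h5]
    linarith

/-- the character with the twist -/
noncomputable def mub_F {d : ℕ} (χ : DirichletCharacter ℂ d) (t : ℝ) (n : ℕ) : ℂ :=
  χ (n : ZMod d) * ee (t * Real.log n)

private theorem mub_F_mul {d : ℕ} (χ : DirichletCharacter ℂ d) (t : ℝ) (m k : ℕ) (hm : 1 ≤ m)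
    (hk : 1 ≤ k) : mub_F χ t (m * k) = mub_F χ t m * mub_F χ t k := by
  unfold mub_F
  have hm0 : (m : ℝ) ≠ 0 := by exact_mod_cast (by omega : m ≠ 0)
  have hk0 : (k : ℝ) ≠ 0 := by exact_mod_cast (by omega : k ≠ 0)
  push_cast
  rw [map_mul, Real.log_mul hm0 hk0, mul_add, Pool.Agent.H91.PK.LSa_ee_add]
  ring

theorem mub_F_norm {d : ℕ} (χ : DirichletCharacter ℂ d) (t : ℝ) (n : ℕ) :
    ‖mub_F χ t n‖ ≤ 1 := by
  unfold mub_F
  rw [norm_mul, Pool.Agent.H91.PK.LSa_norm_ee, mul_one]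
  exact DirichletCharacter.norm_le_one _ _

theorem mu_b_h (h_vk_chi_w : Pool.Agent.H97.VK.vk_chi_w_P) (K B : ℕ) : ∃ K' X0 : ℕ, ∀ X : ℕ, X0 ≤ X →
    ∀ (d : ℕ) (χ : DirichletCharacter ℂ d) (j : ℕ) (t : ℝ), 1 ≤ d → (d : ℝ) ≤ Real.log X ^ B →
    (X : ℝ) ^ (1 / 7 : ℝ) ≤ (2 : ℝ) ^ j → (2 : ℝ) ^ j ≤ X → Real.log X ^ K' ≤ |t| → |t| ≤ X →
    ‖DP (tw χ (pc 2 j)) (2 * 2 ^ j) t‖ ≤ (2 : ℝ) ^ j / Real.log X ^ K := by
  obtain ⟨K', x1, hvk⟩ := h_vk_chi_w (K + 2) B
  obtain ⟨S, hS⟩ : ∃ S : ℕ, S = 40 * (K + 1) := ⟨_, rfl⟩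
  obtain ⟨x2, hev⟩ := mub_ev S
  refine ⟨K', max (max x1 x2) 2, fun X hX d χ j t hd hdB hj1 hj2 ht1 ht2 => ?_⟩
  have hX1 : x1 ≤ X := ((le_max_left _ _).trans (le_max_left _ _)).trans hX
  have hX2 : x2 ≤ X := ((le_max_right _ _).trans (le_max_left _ _)).trans hX
  have hX3 : 2 ≤ X := (le_max_right _ _).trans hX
  obtain ⟨z, hz1, hzL, hz38, hL216, hLS, hz39, hz40⟩ := hev X hX2
  set L := Real.log X with hLdef
  have hXr : (2 : ℝ) ≤ X := by exact_mod_cast hX3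
  have hX0 : (0 : ℝ) < X := by linarith
  have hL0 : 0 < L := by linarith
  have hL1 : 1 ≤ L := by linarith
  have hexpL : Real.exp L = X := Real.exp_log hX0
  have hz0 : 0 < z := by linarith
  -- `y`
  obtain ⟨y, hydef⟩ : ∃ y : ℕ, y = ⌈Real.exp (L ^ (19 / 20 : ℝ))⌉₊ := ⟨_, rfl⟩
  have hy1 : Real.exp (L ^ (19 / 20 : ℝ)) ≤ y := by rw [hydef]; exact Nat.le_ceil _
  have hy2 : (y : ℝ) ≤ Real.exp (z ^ 38 + 1) := by
    have h1 : (y : ℝ) < Real.exp (L ^ (19 / 20 : ℝ)) + 1 := by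
      rw [hydef]; exact Nat.ceil_lt_add_one (Real.exp_pos _).le
    rw [hz38] at h1
    rw [Real.exp_add]
    have h2 : 1 ≤ Real.exp (z ^ 38) := Real.one_le_exp (by positivity)
    have h3 : (2 : ℝ) ≤ Real.exp 1 := by have := Real.exp_one_gt_d9; linarith
    nlinarith
  have hypos : (0 : ℝ) < y := (Real.exp_pos _).trans_le hy1
  have hy : 1 ≤ y := by exact_mod_cast hypos
  have hlogy : Real.log y ≤ z ^ 38 + 1 := by
    rw [Real.log_le_iff_le_exp hypos]
    exact hy2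
  -- `δ`
  set δ : ℝ := 3 / L ^ (K + 2) with hδdef
  have hδ0 : 0 ≤ δ := by positivity
  have hlam : ∀ a b, y ≤ a → a ≤ b → b ≤ 2 * a + 1 → b ≤ 2 * X →
      ‖∑ k ∈ Ioc a b, ((Lam k : ℝ) : ℂ) * (mub_F χ t k / k)‖ ≤ δ := by
    intro a b ha hab hb hbX
    rcases Nat.eq_or_lt_of_le hab with rfl | hab'
    · rw [Ioc_self, sum_empty, norm_zero]
      exact hδ0
    have hpart : ∀ w, y ≤ w → w ≤ 2 * X → ‖∑ n ∈ Icc 1 w, ((Lam n : ℝ) : ℂ) * mub_F χ t n‖ ≤
        w / L ^ (K + 2) := by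
      intro w hw hwX
      have h1 := hvk X hX1 d χ t w hd hdB (hy1.trans (by exact_mod_cast hw)) (by nlinarith) ht1 (by
        refine ht2.trans ?_
        exact le_self_pow₀ (by linarith) (by norm_num))
      refine le_trans (le_of_eq ?_) h1
      congr 1
      refine sum_congr rfl fun n _ => ?_
      unfold mub_F
      ring
    have h1 := mub_abel_anti (fun n => ((Lam n : ℝ) : ℂ) * mub_F χ t n) (fun n => 1 / (n : ℝ))
      ((3 * a + 1) / L ^ (K + 2)) a b (fun w haw hwb => by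
        have h2 : ∑ n ∈ Ioc a w, ((Lam n : ℝ) : ℂ) * mub_F χ t n =
            ∑ n ∈ Icc 1 w, ((Lam n : ℝ) : ℂ) * mub_F χ t n -
            ∑ n ∈ Icc 1 a, ((Lam n : ℝ) : ℂ) * mub_F χ t n := by
          have e : Icc 1 w = Icc 1 a ∪ Ioc a w := by
            ext n
            simp only [mem_union, mem_Icc, mem_Ioc]
            omega
          rw [e, sum_union]
          · ring
          · rw [disjoint_left]
            intro n hn hn'
            simp only [mem_Icc, mem_Ioc] at hn hn'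
            omega
        rw [h2]
        refine (norm_sub_le _ _).trans ?_
        have h3 := hpart w (ha.trans haw) (hwb.trans hbX)
        have h4 := hpart a ha (hab.trans hbX)
        have h5 : (w : ℝ) ≤ 2 * a + 1 := by exact_mod_cast hwb.trans hb
        have h6 : (w : ℝ) / L ^ (K + 2) ≤ (2 * a + 1) / L ^ (K + 2) :=
          div_le_div_of_nonneg_right h5 (by positivity)
        have h7 : ((3 : ℝ) * a + 1) / L ^ (K + 2) = (2 * a + 1) / L ^ (K + 2) + a / L ^ (K + 2) := by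
          ring
        linarith)
      (fun n _ _ => by positivity)
      (fun n hn _ => one_div_le_one_div_of_le (by exact_mod_cast (by omega : 0 < n)) (by
        push_cast; linarith)) hab'
    have h2 : ∑ n ∈ Ioc a b, ((1 / (n : ℝ) : ℝ) : ℂ) * (((Lam n : ℝ) : ℂ) * mub_F χ t n)
        = ∑ k ∈ Ioc a b, ((Lam k : ℝ) : ℂ) * (mub_F χ t k / k) := by
      refine sum_congr rfl fun n _ => ?_
      push_cast
      ring
    rw [h2] at h1
    refine h1.trans ?_
    rw [hδdef]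
    have ha0 : (0 : ℝ) ≤ a := Nat.cast_nonneg a
    have hLp : 0 < L ^ (K + 2) := by positivity
    push_cast
    rw [div_mul_div_comm, mul_one, div_le_div_iff₀ (by positivity) hLp]
    nlinarith
  -- `W`
  obtain ⟨W, hWdef⟩ : ∃ W : ℕ, W = ⌈(X : ℝ) ^ (1 / 24 : ℝ)⌉₊ := ⟨_, rfl⟩
  have hX24 : (X : ℝ) ^ (1 / 24 : ℝ) = Real.exp (L / 24) := by
    rw [Real.rpow_def_of_pos hX0]
    congr 1
    ring
  have hW1 : Real.exp (L / 24) ≤ W := by rw [hWdef, ← hX24]; exact Nat.le_ceil _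
  have hW2 : (W : ℝ) ≤ 2 * Real.exp (L / 24) := by
    have h1 : (W : ℝ) < Real.exp (L / 24) + 1 := by
      rw [hWdef, ← hX24]; exact Nat.ceil_lt_add_one (by positivity)
    have h2 : 1 ≤ Real.exp (L / 24) := Real.one_le_exp (by positivity)
    linarith
  have hWpos : (0 : ℝ) < W := (Real.exp_pos _).trans_le hW1
  have hW : 1 ≤ W := by exact_mod_cast hWpos
  have hWL : L / 24 ≤ Real.log W := by
    rw [Real.le_log_iff_exp_le hWpos]
    exact hW1
  have hYL : Real.log ((2 * X : ℕ) : ℝ) ≤ 2 * L := by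
    push_cast
    rw [Real.log_mul (by norm_num) hX0.ne']
    have := Real.log_two_lt_d9
    linarith
  -- `ρ`
  set ρ : ℝ := 1 / z with hρdef
  have hρ0 : 0 < ρ := by positivity
  have hρ1 : ρ ≤ 1 := by
    rw [hρdef, div_le_one hz0]
    exact hz1
  have hρS : ρ ^ S = 1 / L ^ (K + 1) := by
    rw [hρdef, one_div_pow, hS, ← hzL, ← pow_mul]
  have hρ : 24 / L * (Real.log y + 6) ≤ ρ := by
    rw [hρdef, div_mul_eq_mul_div, div_le_div_iff₀ hL0 hz0, one_mul]
    have h1 : 24 * (Real.log y + 6) ≤ z ^ 39 := by linarith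
    calc 24 * (Real.log y + 6) * z ≤ z ^ 39 * z :=
          mul_le_mul_of_nonneg_right h1 hz0.le
      _ = L := by rw [← hzL, ← pow_succ]
  have hδρ : 72 * δ ≤ ρ ^ S := by
    rw [hρS, hδdef, mul_div_assoc', div_le_div_iff₀ (by positivity) (by positivity), one_mul]
    have h1 : L ^ (K + 2) = L * L ^ (K + 1) := by ring
    rw [h1]
    have h2 : 0 < L ^ (K + 1) := by positivity
    nlinarith
  have hiter := mub_iter (mub_F χ t) (mub_F_mul χ t) (mub_F_norm χ t) (2 * X) y S δ ρ L hy hδ0 hL1 hlam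
    hYL W hW hWL hρ0 hρ1 hρ hδρ S le_rfl
  -- the range
  have hWy : ((W * y ^ S : ℕ) : ℝ) + 1 ≤ (2 : ℝ) ^ j := by
    refine le_trans ?_ hj1
    have h1 : (y : ℝ) ^ S ≤ Real.exp (L / 24) := by
      calc (y : ℝ) ^ S ≤ (Real.exp (z ^ 38 + 1)) ^ S := pow_le_pow_left₀ hypos.le hy2 S
        _ = Real.exp (S * (z ^ 38 + 1)) := by rw [← Real.exp_nat_mul]
        _ ≤ Real.exp (L / 24) := by
            apply Real.exp_le_exp.2
            rw [← hzL]
            linarith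
    have h2 : (X : ℝ) ^ (1 / 7 : ℝ) = Real.exp (L / 12) * Real.exp (5 * L / 84) := by
      rw [← Real.exp_add, Real.rpow_def_of_pos hX0]
      congr 1
      ring
    have h3 : (3 : ℝ) ≤ Real.exp (5 * L / 84) := by
      have := Real.add_one_le_exp (5 * L / 84)
      linarith
    have h4 : 1 ≤ Real.exp (L / 12) := Real.one_le_exp (by positivity)
    have h5 : (W : ℝ) * (y : ℝ) ^ S ≤ 2 * Real.exp (L / 12) := by
      calc (W : ℝ) * (y : ℝ) ^ S ≤ (2 * Real.exp (L / 24)) * Real.exp (L / 24) :=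
            mul_le_mul hW2 h1 (by positivity) (by positivity)
        _ = 2 * Real.exp (L / 12) := by
            rw [mul_assoc, ← Real.exp_add]
            congr 2
            ring
    rw [h2]
    push_cast
    nlinarith
  have hWy' : W * y ^ S + 1 ≤ 2 ^ j := by exact_mod_cast hWy
  have hj2' : 2 ^ j ≤ X := by exact_mod_cast hj2
  -- the sum
  have hbound : ∀ w, 2 ^ j - 1 ≤ w → w ≤ 2 * 2 ^ j - 1 →
      ‖∑ m ∈ Ioc (2 ^ j - 1) w, (((ArithmeticFunction.moebius m : ℤ) : ℝ) : ℂ) * (mub_F χ t m / m)‖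
        ≤ ((S : ℝ) + 1) * ρ ^ S := by
    intro w hw1 hw2
    exact hiter (2 ^ j - 1) w (by omega) hw1 (by omega) (by omega)
  have h2j : 1 ≤ 2 ^ j := Nat.one_le_two_pow
  have hfin := mub_abel_mono (fun m => (((ArithmeticFunction.moebius m : ℤ) : ℝ) : ℂ) * (mub_F χ t m / m))
    (fun n => (n : ℝ)) _ (2 ^ j - 1) (2 * 2 ^ j - 1) hbound (fun n _ _ => Nat.cast_nonneg n)
    (fun n _ _ => by push_cast; linarith) (by omega)
  have hDP : DP (tw χ (pc 2 j)) (2 * 2 ^ j) t = ∑ n ∈ Ioc (2 ^ j - 1 : ℕ) (2 * 2 ^ j - 1), (((n : ℕ) : ℝ) : ℂ) *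
      ((((ArithmeticFunction.moebius n : ℤ) : ℝ) : ℂ) * (mub_F χ t n / n)) := by
    unfold DP
    have hsub : Ioc (2 ^ j - 1) (2 * 2 ^ j - 1) ⊆ Icc 1 (2 * 2 ^ j) := by
      intro n hn
      rw [mem_Ioc] at hn
      rw [mem_Icc]
      omega
    rw [← sum_subset hsub]
    · refine sum_congr rfl fun n hn => ?_
      rw [mem_Ioc] at hn
      have h1 : n ≠ 0 ∧ 2 ^ j ≤ n ∧ n < 2 ^ (j + 1) := by
        rw [pow_succ]
        omega
      have h2 : (tw χ (pc 2 j)) n = (((ArithmeticFunction.moebius n : ℤ) : ℝ) : ℂ) * χ (n : ZMod d) := by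
        unfold tw pc seg kf
        simp only [ArithmeticFunction.coe_mk]
        rw [if_pos h1, if_neg (by decide), if_neg (by decide)]
      rw [h2]
      unfold mub_F
      have h3 : (n : ℂ) ≠ 0 := by exact_mod_cast h1.1
      push_cast
      field_simp
    · intro n hn hn'
      rw [mem_Icc] at hn
      rw [mem_Ioc] at hn'
      have h1 : ¬ (n ≠ 0 ∧ 2 ^ j ≤ n ∧ n < 2 ^ (j + 1)) := by
        rw [pow_succ]
        omega
      have h2 : (tw χ (pc 2 j)) n = 0 := by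
        unfold tw pc seg
        simp only [ArithmeticFunction.coe_mk]
        rw [if_neg h1]
        simp
      rw [h2, zero_mul]
  rw [hDP]
  refine hfin.trans ?_
  rw [hρS]
  have hcast : ((2 * 2 ^ j - 1 : ℕ) : ℝ) ≤ 2 * (2 : ℝ) ^ j := by
    have h1 : ((2 * 2 ^ j - 1 : ℕ) : ℝ) ≤ ((2 * 2 ^ j : ℕ) : ℝ) := by exact_mod_cast Nat.sub_le _ _
    push_cast at h1
    exact h1
  have hS0 : (0 : ℝ) ≤ S := Nat.cast_nonneg S
  have hLK : 0 < L ^ K := by positivity
  calc 2 * (((S : ℝ) + 1) * (1 / L ^ (K + 1))) * ((2 * 2 ^ j - 1 : ℕ) : ℝ)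
      ≤ 2 * (((S : ℝ) + 1) * (1 / L ^ (K + 1))) * (2 * (2 : ℝ) ^ j) :=
        mul_le_mul_of_nonneg_left hcast (by positivity)
    _ = (4 * ((S : ℝ) + 1)) * ((2 : ℝ) ^ j / L ^ (K + 1)) := by ring
    _ ≤ L * ((2 : ℝ) ^ j / L ^ (K + 1)) := mul_le_mul_of_nonneg_right hLS (by positivity)
    _ = (2 : ℝ) ^ j / L ^ K := by
        rw [pow_succ]
        field_simp

end Pool.Agent.H88.PSI

end

section

/-!
# PSI SmB: cancellation in `∑ χ(n) n^{2 π i t}` and `∑ χ(n) log n n^{2 π i t}` over dyadic intervals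

(helper43)  `psum` (`H97/VK/PSum.lean`) for the partial sums, partial summation with the increasing weight `kf k` (`1` or `log`).
-/

set_option autoImplicit false

namespace Pool.Agent.H88.PSI

open Finset
open Pool.Agent.H91.PK (ee)

/-- the numerical facts for large `X` -/
private theorem smb_ev : ∃ X0 : ℕ, ∀ X : ℕ, X0 ≤ X → 12 ≤ Real.log X ∧
    Real.exp (Pool.Agent.H97.VK.L9 X) + 2 ≤ (X : ℝ) ^ (1 / 7 : ℝ) := by
  obtain ⟨Z, hZ⟩ : ∃ Z : ℝ, Z = 100 := ⟨_, rfl⟩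
  obtain ⟨X0, hX0⟩ := Filter.eventually_atTop.1
    ((Real.tendsto_log_atTop.comp (tendsto_natCast_atTop_atTop (R := ℝ))).eventually_ge_atTop
      (Z ^ 10))
  refine ⟨max X0 1, fun X hX => ?_⟩
  have h1 : Z ^ 10 ≤ Real.log X := hX0 X ((le_max_left _ _).trans hX)
  have hX1 : 1 ≤ X := (le_max_right _ _).trans hX
  have hXpos : (0 : ℝ) < X := by exact_mod_cast hX1
  have h3 : Z ≤ Z ^ 10 := le_self_pow₀ (by linarith) (by norm_num)
  have hZL : Z ≤ Real.log X := h3.trans h1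
  set L := Real.log X with hLdef
  have hL : 0 < L := by linarith
  obtain ⟨z, hz⟩ : ∃ z : ℝ, z = L ^ (1 / 10 : ℝ) := ⟨_, rfl⟩
  have hzZ : Z ≤ z := by
    have h4 : (Z ^ 10) ^ (1 / 10 : ℝ) ≤ L ^ (1 / 10 : ℝ) :=
      Real.rpow_le_rpow (by positivity) h1 (by norm_num)
    have h5 : (Z ^ 10) ^ (1 / 10 : ℝ) = Z := by
      rw [← Real.rpow_natCast, ← Real.rpow_mul (by linarith)]
      norm_num
    rw [h5] at h4
    rw [hz]
    exact h4
  clear h1 h3
  have e1 : z ^ 10 = L := by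
    rw [hz, ← Real.rpow_natCast, ← Real.rpow_mul hL.le]
    norm_num
  have e2 : Pool.Agent.H97.VK.L9 X = z ^ 9 := by
    unfold Pool.Agent.H97.VK.L9
    rw [← hLdef, hz, ← Real.rpow_natCast, ← Real.rpow_mul hL.le]
    norm_num
  have hz0 : 0 < z := by linarith
  have h9 : 0 < z ^ 9 := by positivity
  have h10 : L = z * z ^ 9 := by rw [← e1, ← pow_succ']
  refine ⟨by linarith, ?_⟩
  rw [e2, Real.rpow_def_of_pos hXpos, ← hLdef]
  have h5 : z ^ 9 + 2 ≤ L * (1 / 7) := by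
    have h6 : 100 * z ^ 9 ≤ z * z ^ 9 := mul_le_mul_of_nonneg_right (by linarith) h9.le
    have h7 : (1 : ℝ) ≤ z ^ 9 := one_le_pow₀ (by linarith)
    linarith
  have h6 := Real.exp_le_exp.2 h5
  refine le_trans ?_ h6
  rw [Real.exp_add]
  have h7 : (3 : ℝ) ≤ Real.exp 2 := by
    have := Real.add_one_le_exp (2 : ℝ)
    linarith
  have h8 : 1 ≤ Real.exp (z ^ 9) := Real.one_le_exp h9.le
  nlinarith

theorem sm_b_h (h_psum : Pool.Agent.H97.VK.psum_P) (K B : ℕ) : ∃ K' X0 : ℕ, ∀ X : ℕ, X0 ≤ X →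
    ∀ (d : ℕ) (χ : DirichletCharacter ℂ d) (k : Fin 3) (j : ℕ) (t : ℝ), k ≠ 2 → 1 ≤ d →
    (d : ℝ) ≤ Real.log X ^ B →
    (X : ℝ) ^ (1 / 7 : ℝ) ≤ (2 : ℝ) ^ j → (2 : ℝ) ^ j ≤ X → Real.log X ^ K' ≤ |t| → |t| ≤ X →
    ‖DP (tw χ (pc k j)) (2 * 2 ^ j) t‖ ≤ (2 : ℝ) ^ j / Real.log X ^ K := by
  obtain ⟨K', x1, hps⟩ := h_psum (K + 2) B
  obtain ⟨x2, hev⟩ := smb_ev
  refine ⟨K', max (max x1 x2) 2, fun X hX d χ k j t hk hd hdB hj1 hj2 ht1 ht2 => ?_⟩
  have hX1 : x1 ≤ X := ((le_max_left _ _).trans (le_max_left _ _)).trans hX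
  have hX2 : x2 ≤ X := ((le_max_right _ _).trans (le_max_left _ _)).trans hX
  have hX3 : 2 ≤ X := (le_max_right _ _).trans hX
  obtain ⟨hL12, hY⟩ := hev X hX2
  set L := Real.log X with hLdef
  have hXr : (2 : ℝ) ≤ X := by exact_mod_cast hX3
  have hX0 : (0 : ℝ) < X := by linarith
  have hL0 : 0 < L := by linarith
  have h2j : 1 ≤ 2 ^ j := Nat.one_le_two_pow
  have hLA : 0 < L ^ (K + 2) := by positivity
  -- the start
  have hYx : Pool.Agent.H97.VK.Yx X + 1 ≤ 2 ^ j - 1 := by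
    have h1 : (Pool.Agent.H97.VK.Yx X : ℝ) ≤ Real.exp (Pool.Agent.H97.VK.L9 X) :=
      Nat.floor_le (Real.exp_pos _).le
    have h2 : ((Pool.Agent.H97.VK.Yx X + 2 : ℕ) : ℝ) ≤ (2 : ℝ) ^ j := by
      push_cast
      linarith
    have h3 : Pool.Agent.H97.VK.Yx X + 2 ≤ 2 ^ j := by exact_mod_cast h2
    omega
  have hpart : ∀ w, 2 ^ j - 1 ≤ w → ‖∑ n ∈ Icc 1 w, mub_F χ t n‖ ≤ w / L ^ (K + 2) := by
    intro w hw
    refine hps X hX1 d χ t w hd hdB ht1 ?_ (hYx.trans hw)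
    exact ht2.trans (le_self_pow₀ (by linarith) (by norm_num))
  have hM : ∀ w, 2 ^ j - 1 ≤ w → w ≤ 2 * 2 ^ j - 1 →
      ‖∑ n ∈ Ioc (2 ^ j - 1) w, mub_F χ t n‖ ≤ 3 * (2 : ℝ) ^ j / L ^ (K + 2) := by
    intro w hw1 hw2
    have h2 : ∑ n ∈ Ioc (2 ^ j - 1) w, mub_F χ t n =
        ∑ n ∈ Icc 1 w, mub_F χ t n - ∑ n ∈ Icc 1 (2 ^ j - 1), mub_F χ t n := by
      have e : Icc 1 w = Icc 1 (2 ^ j - 1) ∪ Ioc (2 ^ j - 1) w := by
        ext n
        simp only [mem_union, mem_Icc, mem_Ioc]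
        omega
      rw [e, sum_union]
      · ring
      · rw [disjoint_left]
        intro n hn hn'
        simp only [mem_Icc, mem_Ioc] at hn hn'
        omega
    rw [h2]
    refine (norm_sub_le _ _).trans ?_
    have h3 := hpart w hw1
    have h4 := hpart (2 ^ j - 1) le_rfl
    have h5 : (w : ℝ) ≤ 2 * (2 : ℝ) ^ j := by
      exact_mod_cast (by omega : w ≤ 2 * 2 ^ j)
    have h6 : ((2 ^ j - 1 : ℕ) : ℝ) ≤ (2 : ℝ) ^ j := by
      exact_mod_cast Nat.sub_le _ _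
    have h7 : (w : ℝ) / L ^ (K + 2) + ((2 ^ j - 1 : ℕ) : ℝ) / L ^ (K + 2) ≤
        3 * (2 : ℝ) ^ j / L ^ (K + 2) := by
      rw [← add_div]
      exact div_le_div_of_nonneg_right (by linarith) hLA.le
    linarith
  have hkf0 : ∀ n : ℕ, 0 ≤ kf k n := by
    intro n
    unfold kf
    split_ifs with h1 h2
    · exact zero_le_one
    · exact Real.log_natCast_nonneg n
    · exfalso
      omega
  have hkf1 : ∀ n : ℕ, 1 ≤ n → kf k n ≤ kf k (n + 1) := by
    intro n hn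
    unfold kf
    split_ifs with h1 h2
    · exact le_rfl
    · exact Real.log_le_log (by exact_mod_cast hn) (by push_cast; linarith)
    · exfalso
      omega
  have hkf2 : kf k (2 * 2 ^ j - 1) ≤ 2 * L := by
    unfold kf
    split_ifs with h1 h2
    · linarith
    · have h3 : ((2 * 2 ^ j - 1 : ℕ) : ℝ) ≤ 2 * X := by
        have h4 : ((2 * 2 ^ j - 1 : ℕ) : ℝ) ≤ ((2 * 2 ^ j : ℕ) : ℝ) := by
          exact_mod_cast Nat.sub_le _ _
        push_cast at h4
        linarith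
      have h4 : (0 : ℝ) < ((2 * 2 ^ j - 1 : ℕ) : ℝ) := by
        exact_mod_cast (by omega : 0 < 2 * 2 ^ j - 1)
      refine (Real.log_le_log h4 h3).trans ?_
      rw [Real.log_mul (by norm_num) hX0.ne']
      have := Real.log_two_lt_d9
      linarith
    · exfalso
      omega
  have hfin := mub_abel_mono (mub_F χ t) (kf k) _ (2 ^ j - 1) (2 * 2 ^ j - 1) hM
    (fun n _ _ => hkf0 n) (fun n hn _ => hkf1 n (by omega)) (by omega)
  have hDP : DP (tw χ (pc k j)) (2 * 2 ^ j) t = ∑ n ∈ Ioc (2 ^ j - 1 : ℕ) (2 * 2 ^ j - 1),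
      ((kf k n : ℝ) : ℂ) * mub_F χ t n := by
    unfold DP
    have hsub : Ioc (2 ^ j - 1) (2 * 2 ^ j - 1) ⊆ Icc 1 (2 * 2 ^ j) := by
      intro n hn
      rw [mem_Ioc] at hn
      rw [mem_Icc]
      omega
    rw [← sum_subset hsub]
    · refine sum_congr rfl fun n hn => ?_
      rw [mem_Ioc] at hn
      have h1 : n ≠ 0 ∧ 2 ^ j ≤ n ∧ n < 2 ^ (j + 1) := by
        rw [pow_succ]
        omega
      have h2 : (tw χ (pc k j)) n = ((kf k n : ℝ) : ℂ) * χ (n : ZMod d) := by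
        unfold tw pc seg
        simp only [ArithmeticFunction.coe_mk]
        rw [if_pos h1]
      rw [h2]
      unfold mub_F
      ring
    · intro n hn hn'
      rw [mem_Icc] at hn
      rw [mem_Ioc] at hn'
      have h1 : ¬ (n ≠ 0 ∧ 2 ^ j ≤ n ∧ n < 2 ^ (j + 1)) := by
        rw [pow_succ]
        omega
      have h2 : (tw χ (pc k j)) n = 0 := by
        unfold tw pc seg
        simp only [ArithmeticFunction.coe_mk]
        rw [if_neg h1]
        simp
      rw [h2, zero_mul]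
  rw [hDP]
  refine hfin.trans ?_
  calc 2 * (3 * (2 : ℝ) ^ j / L ^ (K + 2)) * kf k (2 * 2 ^ j - 1)
      ≤ 2 * (3 * (2 : ℝ) ^ j / L ^ (K + 2)) * (2 * L) :=
        mul_le_mul_of_nonneg_left hkf2 (by positivity)
    _ = 12 * ((2 : ℝ) ^ j / L ^ (K + 1)) := by
        have : L ^ (K + 2) = L * L ^ (K + 1) := by ring
        rw [this]
        field_simp
        ring
    _ ≤ L * ((2 : ℝ) ^ j / L ^ (K + 1)) := mul_le_mul_of_nonneg_right hL12 (by positivity)
    _ = (2 : ℝ) ^ j / L ^ K := by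
        rw [pow_succ]
        field_simp

end Pool.Agent.H88.PSI

end
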