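import Pool.Agent.H43.PM.M38

/-! The parts of this file: H43.MP.Final, H43.MP.Lnk, H43.MP.Res. -/

section

/-!
# MIDP Final: assembly, with the two black boxes as hypotheses
-/

set_option autoImplicit false

namespace Pool.Agent.H43.MP

open Finset
open Pool.Agent.H91.PK (ee)
open Pool.Agent.H91.EHA (Lam hR lamR ramS)
open Pool.Agent.H35.W (pb)
open Pool.Agent.H76.GB (SR)

private theorem fin_blk_card (H i : ℕ) : (blk H i).card = H := by
  unfold blk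
  rw [Nat.card_Ico]
  have : (i + 1) * H = i * H + H := by ring
  omega

private theorem fin_mem_blk (H n : ℕ) (hH : 1 ≤ H) : n ∈ blk H (n / H) := by
  unfold blk
  rw [mem_Ico]
  refine ⟨Nat.div_mul_le_self n H, ?_⟩
  have := Nat.lt_mul_div_succ n (show 0 < H by omega)
  rw [mul_comm]
  exact this

/-- facts for large `N` -/
private theorem fin_large (θ : ℝ) (h0 : 0 < θ) (h1 : θ ≤ 1 / 4) (A B P0 : ℕ) :
    ∃ N0 : ℕ, ∀ N : ℕ, N0 ≤ N → 10 ≤ Real.log N ∧ (N : ℝ) ^ θ / 2 ≤ Hn θ N ∧ P0 ≤ Pn θ N ∧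
      2 ≤ Pn θ N ∧ 4 * Pn θ N ^ 2 ≤ Hn θ N ∧ Real.log (Pn θ N) ≤ Real.log N / 80 ∧
      40 * Real.log N ^ (2 * B + A + 6) ≤ Pn θ N ∧ 4 * Hn θ N ≤ N ∧ Rn B N ≤ Pn θ N ∧
      (Rn B N : ℝ) ≤ Real.log N ^ B ∧ 1 ≤ Rn B N := by
  obtain ⟨x1, hx1⟩ := Pool.Agent.H76.GB.log_ge 10
  obtain ⟨x2, hx2⟩ := Pool.Agent.H76.GB.log_pow_le (θ / 20) (80 + 2 * P0 : ℝ) (by positivity)
    (by positivity) (2 * B + A + 6)
  obtain ⟨x3, hx3⟩ := Pool.Agent.H76.GB.log_pow_le (9 * θ / 10) 8 (by positivity) (by norm_num) 0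
  obtain ⟨x4, hx4⟩ := Pool.Agent.H76.GB.log_pow_le (3 / 4) 4 (by norm_num) (by norm_num) 0
  refine ⟨max (max x1 x2) (max x3 x4), fun N hN => ?_⟩
  have g1 := hx1 N (((le_max_left _ _).trans (le_max_left _ _)).trans hN)
  have g2 := hx2 N (((le_max_right _ _).trans (le_max_left _ _)).trans hN)
  have g3 := hx3 N (((le_max_left _ _).trans (le_max_right _ _)).trans hN)
  have g4 := hx4 N (((le_max_right _ _).trans (le_max_right _ _)).trans hN)
  rw [pow_zero, mul_one] at g3 g4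
  set L := Real.log N with hL
  have hN0 : N ≠ 0 := by
    rintro rfl
    rw [hL] at g1
    norm_num at g1
  have hN1 : (1 : ℝ) ≤ N := by exact_mod_cast Nat.one_le_iff_ne_zero.2 hN0
  have hNpos : (0 : ℝ) < N := by linarith
  have hL1 : 1 ≤ L := by linarith
  have hLp : 1 ≤ L ^ (2 * B + A + 6) := one_le_pow₀ hL1
  have hLB : 1 ≤ L ^ B := one_le_pow₀ hL1
  have hP0 : (0 : ℝ) ≤ P0 := Nat.cast_nonneg _
  have hNθ1 : (1 : ℝ) ≤ (N : ℝ) ^ θ := Real.one_le_rpow hN1 h0.le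
  -- P
  have p1 : (N : ℝ) ^ (θ / 20) < Pn θ N + 1 := Nat.lt_floor_add_one _
  have p2 : (Pn θ N : ℝ) ≤ (N : ℝ) ^ (θ / 20) := Nat.floor_le (by positivity)
  have p3 : 80 + 2 * (P0 : ℝ) ≤ (N : ℝ) ^ (θ / 20) := by
    refine le_trans ?_ g2
    nlinarith
  have p4 : 40 * L ^ (2 * B + A + 6) ≤ Pn θ N := by
    have : (80 + 2 * (P0 : ℝ)) * L ^ (2 * B + A + 6) ≥ 80 * L ^ (2 * B + A + 6) := by nlinarith
    linarith
  have p5 : P0 ≤ Pn θ N := by
    have : (P0 : ℝ) ≤ Pn θ N := by linarith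
    exact_mod_cast this
  have p6 : 2 ≤ Pn θ N := by
    have : (2 : ℝ) ≤ Pn θ N := by linarith
    exact_mod_cast this
  -- H
  have q1 : (N : ℝ) ^ θ < Hn θ N + 1 := Nat.lt_floor_add_one _
  have q2 : (Hn θ N : ℝ) ≤ (N : ℝ) ^ θ := Nat.floor_le (by positivity)
  have q3 : 1 ≤ Hn θ N := by
    have : 0 < Hn θ N := Nat.floor_pos.2 hNθ1
    exact this
  have q4 : (1 : ℝ) ≤ Hn θ N := by exact_mod_cast q3
  have q5 : (N : ℝ) ^ θ / 2 ≤ Hn θ N := by linarith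
  -- 4 P² ≤ H
  have e1 : 4 * Pn θ N ^ 2 ≤ Hn θ N := by
    have t1 : ((N : ℝ) ^ (θ / 20)) ^ 2 = (N : ℝ) ^ (θ / 10) := by
      rw [← Real.rpow_natCast, ← Real.rpow_mul hNpos.le]
      congr 1
      push_cast
      ring
    have t2 : (N : ℝ) ^ θ = (N : ℝ) ^ (θ / 10) * (N : ℝ) ^ (9 * θ / 10) := by
      rw [← Real.rpow_add hNpos]
      congr 1
      ring
    have t3 : (0 : ℝ) ≤ (N : ℝ) ^ (θ / 10) := by positivity
    have t4 : ((Pn θ N : ℝ)) ^ 2 ≤ (N : ℝ) ^ (θ / 10) := by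
      rw [← t1]
      exact pow_le_pow_left₀ (Nat.cast_nonneg _) p2 2
    have t5 : 4 * (Pn θ N : ℝ) ^ 2 ≤ Hn θ N := by
      nlinarith
    exact_mod_cast t5
  -- log P
  have e2 : Real.log (Pn θ N) ≤ L / 80 := by
    have hPpos : (0 : ℝ) < Pn θ N := by
      have : (2 : ℝ) ≤ Pn θ N := by exact_mod_cast p6
      linarith
    have t1 := Real.log_le_log hPpos p2
    rw [Real.log_rpow hNpos] at t1
    nlinarith
  -- 4 H ≤ N
  have e3 : 4 * Hn θ N ≤ N := by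
    have t1 : (N : ℝ) ^ θ ≤ (N : ℝ) ^ (1 / 4 : ℝ) := Real.rpow_le_rpow_of_exponent_le hN1 h1
    have t2 : (N : ℝ) = (N : ℝ) ^ (1 / 4 : ℝ) * (N : ℝ) ^ (3 / 4 : ℝ) := by
      rw [← Real.rpow_add hNpos]
      norm_num
    have t3 : (0 : ℝ) ≤ (N : ℝ) ^ (1 / 4 : ℝ) := by positivity
    have t4 : (4 : ℝ) * Hn θ N ≤ N := by
      rw [t2]
      nlinarith
    exact_mod_cast t4
  have e5 : (Rn B N : ℝ) ≤ L ^ B := Nat.floor_le (by positivity)
  have e4 : Rn B N ≤ Pn θ N := by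
    have t1 : L ^ B ≤ L ^ (2 * B + A + 6) := pow_le_pow_right₀ hL1 (by omega)
    have : (Rn B N : ℝ) ≤ Pn θ N := by nlinarith
    exact_mod_cast this
  have e6 : 1 ≤ Rn B N := Nat.floor_pos.2 hLB
  exact ⟨g1, q5, p5, p6, e1, e2, p4, e3, e4, e5, e6⟩

private theorem fin_SR (R E : ℕ) (hR : 1 ≤ R) (hE : 1 ≤ E) : 1 ≤ SR R (2 * E) := by
  rcases Nat.lt_or_ge 1 R with h | h
  · exact Pool.Agent.H76.GB.sr_ge R (2 * E) h (by omega) (dvd_mul_right 2 E)
  · have : R = 1 := by omega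
    subst this
    unfold SR ramS
    simp

/-- the number of `n` in given blocks -/
private theorem fin_cnt (N H : ℕ) (hH : 1 ≤ H) (S : Finset ℕ) :
    ((Ioc N (2 * N)).filter (fun n => n / H ∈ S)).card ≤ S.card * H := by
  have h1 : (Ioc N (2 * N)).filter (fun n => n / H ∈ S) ⊆ S.biUnion (blk H) := by
    intro n hn
    rw [mem_filter] at hn
    rw [mem_biUnion]
    exact ⟨n / H, hn.2, fin_mem_blk H n hH⟩
  refine (card_le_card h1).trans (card_biUnion_le.trans ?_)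
  rw [sum_congr rfl fun i _ => fin_blk_card H i, sum_const, smul_eq_mul]

/-- Chebyshev's inequality -/
private theorem fin_cheb (S : Finset ℕ) (f : ℕ → ℝ) (T X : ℝ) (hT : 0 < T)
    (h : ∑ n ∈ S, f n ^ 2 ≤ X) : ((S.filter (fun n => T < |f n|)).card : ℝ) ≤ X / T ^ 2 := by
  rw [le_div_iff₀ (by positivity)]
  refine le_trans ?_ h
  calc ((S.filter (fun n => T < |f n|)).card : ℝ) * T ^ 2
      = ∑ n ∈ S.filter (fun n => T < |f n|), T ^ 2 := by rw [sum_const, nsmul_eq_mul]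
    _ ≤ ∑ n ∈ S.filter (fun n => T < |f n|), f n ^ 2 := by
        refine sum_le_sum fun n hn => ?_
        rw [mem_filter] at hn
        rw [← sq_abs (f n)]
        exact pow_le_pow_left₀ hT.le hn.2.le 2
    _ ≤ ∑ n ∈ S, f n ^ 2 := sum_le_sum_of_subset_of_nonneg (filter_subset _ _)
        fun n _ _ => sq_nonneg _

private theorem fin_alg1 (N H L a : ℝ) (hH : 0 < H) (hL : 0 < L) (ha : 0 < a) :
    2 * (N / H) * (9 * (H / a) ^ 2 * (H * (2 * L) ^ 2) / (H / L) ^ 2) = 72 * N * L ^ 4 / a ^ 2 := by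
  field_simp
  ring

private theorem fin_alg2 (N H L R P : ℝ) (hH : 0 < H) (hL : 0 < L) (hP : 0 < P) :
    2 * (N / H) * (10 * R ^ 2 * H ^ 2 / P * (H * (2 * L) ^ 2) / (H / L) ^ 2)
      = 80 * N * R ^ 2 * L ^ 4 / P := by
  field_simp
  ring

private theorem fin_m4 (N H L : ℝ) (A : ℕ) (hN : 0 < N) (hH : 0 < H) (hL : 10 ≤ L) :
    2 * (N / H) * (9 * (H / L ^ (A + 6)) ^ 2 * (H * (2 * L) ^ 2) / (H / L) ^ 2)
      ≤ N / L ^ A / 10 := by
  have hL0 : 0 < L := by linarith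
  have hL1 : 1 ≤ L := by linarith
  have t2 : (L ^ (A + 6)) ^ 2 = L ^ A * (L ^ A * L ^ 8 * L ^ 4) := by ring
  rw [fin_alg1 N H L (L ^ (A + 6)) hH hL0 (by positivity), t2, div_div,
    div_le_div_iff₀ (by positivity) (by positivity)]
  have t3 : 1 ≤ L ^ A := one_le_pow₀ hL1
  have t4 : (720 : ℝ) ≤ L ^ 8 := by
    calc (720 : ℝ) ≤ 10 ^ 8 := by norm_num
      _ ≤ L ^ 8 := pow_le_pow_left₀ (by norm_num) hL 8
  have t5 : (720 : ℝ) ≤ L ^ A * L ^ 8 := by nlinarith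
  have t6 : 0 < N * L ^ A * L ^ 4 := by positivity
  calc 72 * N * L ^ 4 * (L ^ A * 10) = 720 * (N * L ^ A * L ^ 4) := by ring
    _ ≤ (L ^ A * L ^ 8) * (N * L ^ A * L ^ 4) := mul_le_mul_of_nonneg_right t5 t6.le
    _ = _ := by ring

private theorem fin_m5 (N H L R P : ℝ) (A B : ℕ) (hN : 0 < N) (hH : 0 < H) (hL : 10 ≤ L)
    (hP : 0 < P) (hR : 0 ≤ R) (hRL : R ≤ L ^ B) (hPL : 40 * L ^ (2 * B + A + 6) ≤ P) :
    2 * (N / H) * (10 * R ^ 2 * H ^ 2 / P * (H * (2 * L) ^ 2) / (H / L) ^ 2)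
      ≤ N / L ^ A / 10 := by
  have hL0 : 0 < L := by linarith
  rw [fin_alg2 N H L R P hH hL0 hP, div_div, div_le_div_iff₀ hP (by positivity)]
  have t2 : R ^ 2 ≤ L ^ B * L ^ B := by
    have := mul_le_mul hRL hRL hR (by positivity)
    nlinarith
  have t3 : L ^ (2 * B + A + 6) = (L ^ B * L ^ B) * L ^ A * L ^ 6 := by ring
  rw [t3] at hPL
  have t4 : 0 < N * L ^ 4 * L ^ A := by positivity
  have t5 : (20 : ℝ) ≤ L ^ 2 := by nlinarith
  calc 80 * N * R ^ 2 * L ^ 4 * (L ^ A * 10) = 800 * R ^ 2 * (N * L ^ 4 * L ^ A) := by ring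
    _ ≤ 800 * (L ^ B * L ^ B) * (N * L ^ 4 * L ^ A) := by
        refine mul_le_mul_of_nonneg_right ?_ t4.le
        linarith
    _ = N * (40 * ((L ^ B * L ^ B) * L ^ A * (L ^ 4 * 20))) := by ring
    _ ≤ N * (40 * ((L ^ B * L ^ B) * L ^ A * (L ^ 4 * L ^ 2))) := by
        refine mul_le_mul_of_nonneg_left ?_ hN.le
        refine mul_le_mul_of_nonneg_left ?_ (by norm_num)
        refine mul_le_mul_of_nonneg_left ?_ (by positivity)
        exact mul_le_mul_of_nonneg_left t5 (by positivity)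
    _ = N * (40 * ((L ^ B * L ^ B) * L ^ A * L ^ 6)) := by ring
    _ ≤ N * P := mul_le_mul_of_nonneg_left hPL hN.le

theorem midp_of (θ : ℝ) (h0 : 0 < θ) (h1 : θ ≤ 1 / 4)
    (hlfu : ∀ A : ℕ, ∃ B N0 : ℕ, ∀ N : ℕ, N0 ≤ N →
      ((badL N (Hn θ N) (Pn θ N) (Rn B N) A).card : ℝ) ≤ (N : ℝ) / (Hn θ N) / Real.log N ^ A)
    (hpsi : ∀ A B : ℕ, ∃ N0 : ℕ, ∀ N : ℕ, N0 ≤ N →
      ((badP N (Hn θ N) A B).card : ℝ) ≤ (N : ℝ) / (Hn θ N) / Real.log N ^ A) (A : ℕ) :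
    ∃ N0 : ℕ, ∀ N : ℕ, N0 ≤ N →
      (((Ioc N (2 * N)).filter (fun n =>
        ((sols (Pn θ N) (Hn θ N) n).ncard : ℝ) < (N : ℝ) ^ θ / (10 * Real.log N ^ 3))).card : ℝ)
      ≤ N / Real.log N ^ A := by
  classical
  obtain ⟨B, N1, hL⟩ := hlfu (A + 6)
  obtain ⟨N2, hP⟩ := hpsi (A + B + 2) B
  obtain ⟨P0, hW⟩ := WP_ge
  obtain ⟨N3, hF⟩ := fin_large θ h0 h1 A B P0
  obtain ⟨N4, hpp⟩ := pp_card θ h0 h1 (A + 1)
  refine ⟨max (max N1 N2) (max N3 N4), fun N hN => ?_⟩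
  replace hL := hL N (((le_max_left _ _).trans (le_max_left _ _)).trans hN)
  replace hP := hP N (((le_max_right _ _).trans (le_max_left _ _)).trans hN)
  obtain ⟨f1, f2, f3, f4, f5, f6, f7, f8, f9, f10, f11⟩ :=
    hF N (((le_max_left _ _).trans (le_max_right _ _)).trans hN)
  replace hpp := hpp N (((le_max_right _ _).trans (le_max_right _ _)).trans hN)
  replace hW := hW (Pn θ N) f3
  set L := Real.log N with hLdef
  set H := Hn θ N with hHdef
  set P := Pn θ N with hPdef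
  set R := Rn B N with hRdef
  have hN0 : N ≠ 0 := by
    rintro rfl
    rw [hLdef] at f1
    norm_num at f1
  have hN1 : (1 : ℝ) ≤ N := by exact_mod_cast Nat.one_le_iff_ne_zero.2 hN0
  have hNpos : (0 : ℝ) < N := by linarith
  have hL0 : 0 < L := by linarith
  have hL1 : 1 ≤ L := by linarith
  have hP2 : (2 : ℝ) ≤ P := by exact_mod_cast f4
  have hH1 : 1 ≤ H := by nlinarith
  have hH0 : (0 : ℝ) < H := by exact_mod_cast hH1
  have h4H : 4 * (H : ℝ) ≤ N := by exact_mod_cast f8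
  have hN4 : 4 ≤ N := by omega
  -- W
  have hlogP : 0 < Real.log P := Real.log_pos (by linarith)
  have hWlow : 5 / L ≤ WP P := by
    refine le_trans ?_ hW
    rw [div_le_div_iff₀ hL0 (by positivity)]
    linarith
  have hW0 : 0 ≤ WP P := le_trans (by positivity) hWlow
  have hWup : WP P ≤ 1 := WP_le P (by omega)
  set T : ℝ := H / L with hTdef
  have hT0 : 0 < T := by positivity
  -- the sets
  set idx1 := Icc (N / H) (2 * N / H) with hidx1
  have hq4 : 4 ≤ N / H := by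
    rw [Nat.le_div_iff_mul_le (by omega)]
    omega
  have hidxs : ∀ i ∈ idx1, 1 ≤ i ∧ i - 1 ∈ idx N H ∧ i ∈ idx N H ∧ i + 1 ∈ idx N H := by
    intro i hi
    rw [hidx1, mem_Icc] at hi
    unfold idx
    simp only [mem_Icc]
    have t1 : N / (2 * H) = N / H / 2 := by rw [mul_comm, Nat.div_div_eq_div_mul]
    have t2 : 2 * N / H + 1 ≤ 3 * N / H := by
      rw [← Nat.add_div_right _ (by omega)]
      exact Nat.div_le_div_right (by omega)
    omega
  set BL := badL N H P R (A + 6) with hBL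
  set BP := badP N H (A + B + 2) B with hBP
  set BI := idx1.filter (fun i => i - 1 ∈ BL ∨ i ∈ BL ∨ i + 1 ∈ BL ∨ i ∈ BP) with hBI
  set GI := idx1.filter (fun i => ¬ (i - 1 ∈ BL ∨ i ∈ BL ∨ i + 1 ∈ BL ∨ i ∈ BP)) with hGI
  have hBIc : (BI.card : ℝ) ≤ 3 * (N / H / L ^ (A + 6)) + N / H / L ^ (A + B + 2) := by
    have t1 : BI ⊆ ((BL.image (fun i => i + 1) ∪ BL) ∪ BL.image (fun i => i - 1)) ∪ BP := by
      intro i hi
      rw [hBI, mem_filter] at hi
      have := hidxs i hi.1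
      simp only [mem_union, mem_image]
      rcases hi.2 with h | h | h | h
      · left; left; left; exact ⟨i - 1, h, by omega⟩
      · left; left; right; exact h
      · left; right; exact ⟨i + 1, h, by omega⟩
      · right; exact h
    have t2 : BI.card ≤ 3 * BL.card + BP.card := by
      refine (card_le_card t1).trans ((card_union_le _ _).trans ?_)
      have a1 := card_union_le (BL.image (fun i => i + 1) ∪ BL) (BL.image (fun i => i - 1))
      have a2 := card_union_le (BL.image (fun i => i + 1)) BL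
      have a3 : (BL.image (fun i => i + 1)).card ≤ BL.card := card_image_le
      have a4 : (BL.image (fun i => i - 1)).card ≤ BL.card := card_image_le
      omega
    have t3 : (BI.card : ℝ) ≤ 3 * BL.card + BP.card := by exact_mod_cast t2
    linarith
  have hGIc : (GI.card : ℝ) ≤ 2 * (N / H) := by
    have t1 : GI.card ≤ 2 * N / H - N / H + 1 := by
      refine (card_le_card (filter_subset _ _)).trans ?_
      rw [hidx1, Nat.card_Icc]
      have : N / H ≤ 2 * N / H := Nat.div_le_div_right (by omega)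
      omega
    have t2 : ((2 * N / H : ℕ) : ℝ) ≤ 2 * (N / H) := by
      refine (Nat.cast_div_le).trans (le_of_eq ?_)
      push_cast
      ring
    have t3 : (1 : ℝ) ≤ ((N / H : ℕ) : ℝ) := by exact_mod_cast (by omega : 1 ≤ N / H)
    have t4 : (GI.card : ℝ) + ((N / H : ℕ) : ℝ) ≤ ((2 * N / H : ℕ) : ℝ) + 1 := by
      have : N / H ≤ 2 * N / H := Nat.div_le_div_right (by omega)
      exact_mod_cast (by omega : GI.card + N / H ≤ 2 * N / H + 1)
    linarith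
  -- Λ² on the blocks
  have hLam2 : ∀ i ∈ idx1, ∑ m ∈ blk H i, Lam m ^ 2 ≤ H * (2 * L) ^ 2 := by
    intro i hi
    refine lam_sq N H i (by omega) ?_
    rw [hidx1, mem_Icc] at hi
    have t1 : (i + 1) * H ≤ (2 * N / H + 1) * H := Nat.mul_le_mul_right _ (by omega)
    have t2 : 2 * N / H * H ≤ 2 * N := Nat.div_mul_le_self _ _
    nlinarith
  -- good blocks
  have hgood : ∀ i ∈ GI, ∃ E : ℕ → ℝ, (∀ n ∈ blk H i,
        |rm P R H i n - WP P * H * SR R (2 * n)| ≤ WP P * R * ((H : ℝ) / L ^ (A + B + 2)) + E n) ∧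
      ∑ n ∈ blk H i, E n ^ 2 ≤ 10 * (R : ℝ) ^ 2 * (H : ℝ) ^ 2 / P * (H * (2 * L) ^ 2) ∧
      ∑ n ∈ blk H i, rs P R H i n ^ 2 ≤ 9 * (H / L ^ (A + 6)) ^ 2 * (H * (2 * L) ^ 2) := by
    intro i hi
    rw [hGI, mem_filter] at hi
    obtain ⟨hi1, hi2⟩ := hi
    push Not at hi2
    obtain ⟨k1, k2, k3, k4⟩ := hi2
    obtain ⟨j1, j2, j3, j4⟩ := hidxs i hi1
    obtain ⟨E, hE1, hE2⟩ := rm_near N (A + B + 2) B P H i f4 j1 f5 j3 k4
    refine ⟨E, hE1, hE2.trans ?_, ?_⟩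
    · exact mul_le_mul_of_nonneg_left (hLam2 i hi1) (by positivity)
    · have hlf : ∀ j ∈ idx N H, j ∉ BL → ∀ α : ℝ,
          ‖∑ m ∈ blk H j, ((Fs P R m : ℝ) : ℂ) * ee (-(α * m))‖ ≤ H / L ^ (A + 6) := by
        intro j hj hj2 α
        by_contra hcon
        push Not at hcon
        apply hj2
        rw [hBL]
        unfold badL
        simp only [mem_filter]
        exact ⟨hj, α, hcon⟩
      refine (rs_l2 P R H i j1 _ (hlf _ j2 k1) (hlf _ j3 k2) (hlf _ j4 k3)).trans ?_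
      exact mul_le_mul_of_nonneg_left (hLam2 i hi1) (by positivity)
  choose! E hE1 hE2 hE3 using hgood
  -- the exceptional set
  set X1 := ppE N P H with hX1
  set X2 := (Ioc N (2 * N)).filter (fun n => n / H ∈ BI) with hX2
  set X3 := GI.biUnion (fun i => (blk H i).filter (fun n => T < |rs P R H i n|)) with hX3
  set X4 := GI.biUnion (fun i => (blk H i).filter (fun n => T < |E i n|)) with hX4
  have hsub : (Ioc N (2 * N)).filter (fun n =>
        ((sols P H n).ncard : ℝ) < (N : ℝ) ^ θ / (10 * L ^ 3)) ⊆ X1 ∪ (X2 ∪ (X3 ∪ X4)) := by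
    intro n hn
    rw [mem_filter] at hn
    obtain ⟨hn1, hn2⟩ := hn
    by_contra hcon
    simp only [mem_union, not_or] at hcon
    obtain ⟨c1, c2, c3, c4⟩ := hcon
    have hn1' := mem_Ioc.1 hn1
    have hidx : n / H ∈ idx1 := by
      rw [hidx1, mem_Icc]
      exact ⟨Nat.div_le_div_right (by omega), Nat.div_le_div_right (by omega)⟩
    have hGn : n / H ∈ GI := by
      rw [hGI, mem_filter]
      refine ⟨hidx, fun h => c2 ?_⟩
      rw [hX2, mem_filter]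
      refine ⟨hn1, ?_⟩
      rw [hBI, mem_filter]
      exact ⟨hidx, h⟩
    have hnb := fin_mem_blk H n hH1
    have d3 : |rs P R H (n / H) n| ≤ T := by
      by_contra h
      push Not at h
      apply c3
      rw [hX3, mem_biUnion]
      exact ⟨n / H, hGn, mem_filter.2 ⟨hnb, h⟩⟩
    have d4 : |E (n / H) n| ≤ T := by
      by_contra h
      push Not at h
      apply c4
      rw [hX4, mem_biUnion]
      exact ⟨n / H, hGn, mem_filter.2 ⟨hnb, h⟩⟩
    have d5 := hE1 (n / H) hGn n hnb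
    have d6 := rr_split P R H (n / H) n f9
    have d7 := rr_le N P H n hN4 hH1 (by omega) hn1 c1
    rw [← hLdef] at d7
    have d8 : 1 ≤ SR R (2 * n) := fin_SR R n f11 (by omega)
    -- the error `W R H / L^(A+B+2) ≤ H / L^2`
    have d9 : WP P * R * ((H : ℝ) / L ^ (A + B + 2)) ≤ H / L := by
      have t1 : WP P * R ≤ 1 * L ^ B := mul_le_mul hWup f10 (Nat.cast_nonneg _) zero_le_one
      have t2 : WP P * R * ((H : ℝ) / L ^ (A + B + 2)) ≤ L ^ B * ((H : ℝ) / L ^ (A + B + 2)) := by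
        refine mul_le_mul_of_nonneg_right ?_ (by positivity)
        linarith
      refine t2.trans ?_
      rw [mul_div_assoc', div_le_div_iff₀ (by positivity) hL0]
      have t3 : L ^ B * L ≤ L ^ (A + B + 2) := by
        rw [← pow_succ]
        exact pow_le_pow_right₀ hL1 (by omega)
      nlinarith
    have d10 : 5 * (H / L) ≤ WP P * H * SR R (2 * n) := by
      have t1 : 5 / L * H ≤ WP P * H := mul_le_mul_of_nonneg_right hWlow hH0.le
      have t2 : WP P * H * 1 ≤ WP P * H * SR R (2 * n) :=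
        mul_le_mul_of_nonneg_left d8 (by positivity)
      have t3 : 5 * (H / L) = 5 / L * H := by ring
      linarith
    have d11 : 2 * (H / L) ≤ rr P H (n / H) n := by
      rw [d6]
      have t1 := (abs_le.1 d3).1
      have t2 := (abs_le.1 d4).2
      have t3 := (abs_le.1 d5).1
      rw [hTdef] at t1 t2
      linarith
    -- conclusion
    have d12 : H / (4 * L ^ 3) ≤ ((sols P H n).ncard : ℝ) := by
      have t1 : 2 * (H / L) ≤ 8 * L ^ 2 * ((sols P H n).ncard : ℝ) := d11.trans d7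
      rw [div_le_iff₀ (by positivity)]
      have t2 : 2 * (H / L) * L = 2 * H := by field_simp
      have t3 : 2 * (H / L) * L ≤ 8 * L ^ 2 * ((sols P H n).ncard : ℝ) * L :=
        mul_le_mul_of_nonneg_right t1 hL0.le
      rw [t2] at t3
      have t4 : 8 * L ^ 2 * ((sols P H n).ncard : ℝ) * L = 2 * (((sols P H n).ncard : ℝ) * (4 * L ^ 3)) := by
        ring
      linarith
    have d13 : (N : ℝ) ^ θ / (10 * L ^ 3) ≤ H / (4 * L ^ 3) := by
      have t0 : (0 : ℝ) < (N : ℝ) ^ θ := by positivity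
      rw [div_le_div_iff₀ (by positivity) (by positivity)]
      have t1 : 0 < L ^ 3 := by positivity
      have t2 := mul_le_mul_of_nonneg_right f2 t1.le
      have t3 : 0 < (H : ℝ) * L ^ 3 := by positivity
      have t4 : (N : ℝ) ^ θ * (4 * L ^ 3) = 8 * ((N : ℝ) ^ θ / 2 * L ^ 3) := by ring
      have t5 : (H : ℝ) * (10 * L ^ 3) = 10 * (H * L ^ 3) := by ring
      rw [t4, t5]
      linarith
    linarith
  -- the cardinalities
  have hX2c : (X2.card : ℝ) ≤ 3 * (N / L ^ (A + 6)) + N / L ^ (A + B + 2) := by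
    have t1 : (X2.card : ℝ) ≤ BI.card * H := by exact_mod_cast fin_cnt N H hH1 BI
    refine t1.trans ((mul_le_mul_of_nonneg_right hBIc hH0.le).trans (le_of_eq ?_))
    field_simp
  have hX3c : (X3.card : ℝ) ≤ 2 * (N / H) * (9 * (H / L ^ (A + 6)) ^ 2 * (H * (2 * L) ^ 2) / T ^ 2) := by
    have t1 : (X3.card : ℝ) ≤ ∑ i ∈ GI, (9 * (H / L ^ (A + 6)) ^ 2 * (H * (2 * L) ^ 2) / T ^ 2) := by
      have t2 : (X3.card : ℝ) ≤ ∑ i ∈ GI, (((blk H i).filter (fun n => T < |rs P R H i n|)).card : ℝ) := by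
        exact_mod_cast card_biUnion_le
      refine t2.trans (sum_le_sum fun i hi => ?_)
      exact fin_cheb (blk H i) (fun n => rs P R H i n) T _ hT0 (hE3 i hi)
    refine t1.trans ?_
    rw [sum_const, nsmul_eq_mul]
    exact mul_le_mul_of_nonneg_right hGIc (by positivity)
  have hX4c : (X4.card : ℝ) ≤ 2 * (N / H) * (10 * (R : ℝ) ^ 2 * (H : ℝ) ^ 2 / P * (H * (2 * L) ^ 2) / T ^ 2) := by
    have t1 : (X4.card : ℝ) ≤ ∑ i ∈ GI, (10 * (R : ℝ) ^ 2 * (H : ℝ) ^ 2 / P * (H * (2 * L) ^ 2) / T ^ 2) := by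
      have t2 : (X4.card : ℝ) ≤ ∑ i ∈ GI, (((blk H i).filter (fun n => T < |E i n|)).card : ℝ) := by
        exact_mod_cast card_biUnion_le
      refine t2.trans (sum_le_sum fun i hi => ?_)
      exact fin_cheb (blk H i) (fun n => E i n) T _ hT0 (hE2 i hi)
    refine t1.trans ?_
    rw [sum_const, nsmul_eq_mul]
    exact mul_le_mul_of_nonneg_right hGIc (by positivity)
  have hcard : (((Ioc N (2 * N)).filter (fun n =>
        ((sols P H n).ncard : ℝ) < (N : ℝ) ^ θ / (10 * L ^ 3))).card : ℝ)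
      ≤ X1.card + (X2.card + (X3.card + X4.card)) := by
    have t1 := (card_le_card hsub).trans (card_union_le _ _)
    have t2 := card_union_le X2 (X3 ∪ X4)
    have t3 := card_union_le X3 X4
    exact_mod_cast (by omega)
  refine hcard.trans ?_
  -- numerical estimates
  have hLA : 0 < L ^ A := by positivity
  set M : ℝ := N / L ^ A with hM
  have hM0 : 0 < M := by positivity
  have m1 : (N : ℝ) / L ^ (A + 1) = M / L := by
    rw [hM, pow_succ, div_div]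
  have m2 : (N : ℝ) / L ^ (A + 6) ≤ M / 100 := by
    rw [hM, pow_add, div_div]
    refine div_le_div_of_nonneg_left hNpos.le (by positivity) ?_
    refine mul_le_mul_of_nonneg_left ?_ hLA.le
    calc (100 : ℝ) ≤ 10 ^ 6 := by norm_num
      _ ≤ L ^ 6 := pow_le_pow_left₀ (by norm_num) f1 6
  have m3 : (N : ℝ) / L ^ (A + B + 2) ≤ M / 100 := by
    rw [hM, div_div]
    refine div_le_div_of_nonneg_left hNpos.le (by positivity) ?_
    have : L ^ (A + B + 2) = L ^ A * (L ^ B * L ^ 2) := by ring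
    rw [this]
    refine mul_le_mul_of_nonneg_left ?_ hLA.le
    have t1 : 1 ≤ L ^ B := one_le_pow₀ hL1
    have t2 : (100 : ℝ) ≤ L ^ 2 := by nlinarith
    nlinarith
  have m4 : 2 * ((N : ℝ) / H) * (9 * (H / L ^ (A + 6)) ^ 2 * (H * (2 * L) ^ 2) / T ^ 2) ≤ M / 10 := by
    rw [hTdef, hM]
    exact fin_m4 N H L A hNpos hH0 f1
  have m5 : 2 * ((N : ℝ) / H) * (10 * (R : ℝ) ^ 2 * (H : ℝ) ^ 2 / P * (H * (2 * L) ^ 2) / T ^ 2)
      ≤ M / 10 := by
    rw [hTdef, hM]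
    exact fin_m5 N H L R P A B hNpos hH0 f1 (by linarith) (Nat.cast_nonneg R) f10 f7
  have m6 : M / L ≤ M / 10 := div_le_div_of_nonneg_left hM0.le (by norm_num) f1
  rw [m1] at hpp
  linarith

end Pool.Agent.H43.MP

end

section

/-!
# MIDP Lnk: the theorem from the two black boxes in their final forms

`LFUP`: local Fourier uniformity (project MID, helper53), `HUX θ'`: primes in almost all intervals (project PSI, helper88).
-/

set_option autoImplicit false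

namespace Pool.Agent.H43.MP

open Finset
open Pool.Agent.H91.PK (ee)
open Pool.Agent.H91.EHA (Lam hR lamR ramS)
open Pool.Agent.H35.W (pb)

open Classical in
/-- local Fourier uniformity of `Fs` on almost all blocks, all parameters -/
def LFUP : Prop := ∀ e1 : ℝ, 0 < e1 → ∀ A : ℕ, ∃ B0 : ℕ, ∀ B : ℕ, B0 ≤ B → ∃ N0 : ℕ,
  ∀ N : ℕ, N0 ≤ N → ∀ H P : ℕ, (N : ℝ) ^ e1 ≤ P → P ^ 5 ≤ H → H ^ 2 ≤ N →
    (((Icc (N / (2 * H)) (4 * N / H)).filter (fun i => ∃ α : ℝ, (H : ℝ) / Real.log N ^ A <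
      ‖∑ m ∈ Ico (i * H) ((i + 1) * H), ((Fs P ⌊Real.log N ^ B⌋₊ m : ℝ) : ℂ) * ee (-(m * α))‖)).card : ℝ)
      ≤ (N / H : ℝ) / Real.log N ^ A

/-- the local Fourier uniformity with the parameters of this project -/
theorem badL_of (hl : LFUP) (θ : ℝ) (h0 : 0 < θ) (h1 : θ ≤ 1 / 4) (A : ℕ) :
    ∃ B N0 : ℕ, ∀ N : ℕ, N0 ≤ N →
      ((badL N (Hn θ N) (Pn θ N) (Rn B N) A).card : ℝ) ≤ (N : ℝ) / (Hn θ N) / Real.log N ^ A := by
  classical
  obtain ⟨B, hB⟩ := hl (θ / 40) (by positivity) A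
  obtain ⟨N1, hN1⟩ := hB B le_rfl
  obtain ⟨x1, hx1⟩ := Pool.Agent.H76.GB.log_pow_le (θ / 40) 2 (by positivity) (by norm_num) 0
  obtain ⟨x2, hx2⟩ := Pool.Agent.H76.GB.log_pow_le (3 * θ / 4) 2 (by positivity) (by norm_num) 0
  refine ⟨B, max (max N1 x1) (max x2 1), fun N hN => ?_⟩
  have g1 : N1 ≤ N := ((le_max_left _ _).trans (le_max_left _ _)).trans hN
  have g2 := hx1 N (((le_max_right _ _).trans (le_max_left _ _)).trans hN)
  have g3 := hx2 N (((le_max_left _ _).trans (le_max_right _ _)).trans hN)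
  have g4 : 1 ≤ N := ((le_max_right _ _).trans (le_max_right _ _)).trans hN
  rw [pow_zero, mul_one] at g2 g3
  have hNr : (1 : ℝ) ≤ N := by exact_mod_cast g4
  have hN0 : (0 : ℝ) < N := by linarith
  have e0 : (0 : ℝ) ≤ (N : ℝ) ^ (θ / 40) := by positivity
  have p1 : (N : ℝ) ^ (θ / 20) < Pn θ N + 1 := Nat.lt_floor_add_one _
  have p2 : (Pn θ N : ℝ) ≤ (N : ℝ) ^ (θ / 20) := Nat.floor_le (by positivity)
  have q1 : (N : ℝ) ^ θ < Hn θ N + 1 := Nat.lt_floor_add_one _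
  have q2 : (Hn θ N : ℝ) ≤ (N : ℝ) ^ θ := Nat.floor_le (by positivity)
  have t1 : (N : ℝ) ^ (θ / 20) = (N : ℝ) ^ (θ / 40) * (N : ℝ) ^ (θ / 40) := by
    rw [← Real.rpow_add hN0]
    congr 1
    ring
  have h2 : (N : ℝ) ^ (θ / 40) ≤ Pn θ N := by nlinarith
  have h3 : Pn θ N ^ 5 ≤ Hn θ N := by
    have t2 : ((Pn θ N : ℕ) : ℝ) ^ 5 ≤ (N : ℝ) ^ (θ / 4) := by
      refine (pow_le_pow_left₀ (Nat.cast_nonneg _) p2 5).trans (le_of_eq ?_)
      rw [← Real.rpow_natCast, ← Real.rpow_mul hN0.le]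
      congr 1
      push_cast
      ring
    have t3 : (N : ℝ) ^ θ = (N : ℝ) ^ (θ / 4) * (N : ℝ) ^ (3 * θ / 4) := by
      rw [← Real.rpow_add hN0]
      congr 1
      ring
    have t4 : (1 : ℝ) ≤ (N : ℝ) ^ (θ / 4) := Real.one_le_rpow hNr (by positivity)
    have t5 : ((Pn θ N : ℕ) : ℝ) ^ 5 ≤ Hn θ N := by nlinarith
    exact_mod_cast t5
  have h4 : Hn θ N ^ 2 ≤ N := by
    have t2 : ((Hn θ N : ℕ) : ℝ) ^ 2 ≤ N := by
      refine (pow_le_pow_left₀ (Nat.cast_nonneg _) q2 2).trans ?_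
      rw [← Real.rpow_natCast, ← Real.rpow_mul hN0.le]
      refine (Real.rpow_le_rpow_of_exponent_le hNr (?_ : θ * ((2 : ℕ) : ℝ) ≤ 1)).trans (le_of_eq ?_)
      · push_cast
        linarith
      · rw [Real.rpow_one]
    exact_mod_cast t2
  have h5 := hN1 N g1 (Hn θ N) (Pn θ N) h2 h3 h4
  refine le_trans ?_ h5
  norm_cast
  refine card_le_card ?_
  intro i hi
  unfold badL at hi
  simp only [mem_filter] at hi ⊢
  obtain ⟨hi1, α, hα⟩ := hi
  refine ⟨?_, α, ?_⟩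
  · unfold idx at hi1
    rw [mem_Icc] at hi1 ⊢
    exact ⟨hi1.1, hi1.2.trans (Nat.div_le_div_right (by omega))⟩
  · refine lt_of_lt_of_le hα (le_of_eq ?_)
    unfold blk Rn
    congr 1
    refine sum_congr rfl fun m _ => ?_
    rw [mul_comm α (m : ℝ)]

/-- the theorem from the two black boxes -/
theorem midp_link (hl : LFUP) (hx : ∀ θ' : ℝ, 1 / 6 < θ' → HUX θ') (θ : ℝ) (h1 : 1 / 6 < θ)
    (h2 : θ ≤ 1 / 4) (A : ℕ) : ∃ N0 : ℕ, ∀ N : ℕ, N0 ≤ N →
      (((Ioc N (2 * N)).filter (fun n =>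
        ((sols (Pn θ N) (Hn θ N) n).ncard : ℝ) < (N : ℝ) ^ θ / (10 * Real.log N ^ 3))).card : ℝ)
      ≤ N / Real.log N ^ A :=
  midp_of θ (by linarith) h2 (badL_of hl θ (by linarith) h2)
    (badP_card θ ((1 / 6 + θ) / 2) (by linarith) (by linarith) h2 (hx _ (by linarith))) A

end Pool.Agent.H43.MP

end

section

/-!
# MIDP Res: the theorem in the form of the hand-in
-/

set_option autoImplicit false

namespace Pool.Agent.H43.MP

open Finset

/-- The integers `x` with `|x| ≤ N^θ` such that `φ(n-x)+1 = n-x` (`n-x` is prime) and `n+x = p q` with primes `p, q`,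
`N^(θ/20) < p ≤ 2 N^(θ/20)`. -/
def solR (θ : ℝ) (N n : ℕ) : Set ℤ :=
  {x : ℤ | |(x : ℝ)| ≤ (N : ℝ) ^ θ ∧ 0 < (n : ℤ) - x ∧ 0 < (n : ℤ) + x ∧
    ((Nat.totient ((n : ℤ) - x).toNat : ℤ) + 1 = (n : ℤ) - x) ∧
    ∃ p q : ℕ, p.Prime ∧ q.Prime ∧ (N : ℝ) ^ (θ / 20) < p ∧ (p : ℝ) ≤ 2 * (N : ℝ) ^ (θ / 20) ∧
      (n : ℤ) + x = p * q}

theorem solR_finite (θ : ℝ) (N n : ℕ) : (solR θ N n).Finite := by
  refine Set.Finite.subset (Set.finite_Icc (-⌈(N : ℝ) ^ θ⌉) ⌈(N : ℝ) ^ θ⌉) ?_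
  rintro x ⟨hx, -⟩
  rw [abs_le] at hx
  have h1 := Int.le_ceil ((N : ℝ) ^ θ)
  rw [Set.mem_Icc]
  constructor
  · have : ((-⌈(N : ℝ) ^ θ⌉ : ℤ) : ℝ) ≤ (x : ℝ) := by
      push_cast
      linarith [hx.1]
    exact_mod_cast this
  · have : (x : ℝ) ≤ ((⌈(N : ℝ) ^ θ⌉ : ℤ) : ℝ) := by linarith [hx.2]
    exact_mod_cast this

theorem sols_sub (θ : ℝ) (N n : ℕ) : sols (Pn θ N) (Hn θ N) n ⊆ solR θ N n := by
  rintro x ⟨h1, h2, h3, h4, p, q, hp, hq, h5, h6, h7⟩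
  refine ⟨?_, h2, h3, h4, p, q, hp, hq, ?_, ?_, h7⟩
  · have h8 : (Hn θ N : ℝ) ≤ (N : ℝ) ^ θ := Nat.floor_le (by positivity)
    have h9 : ((|x| : ℤ) : ℝ) ≤ ((Hn θ N : ℤ) : ℝ) := by exact_mod_cast h1
    push_cast at h9
    exact h9.trans h8
  · have h8 : (N : ℝ) ^ (θ / 20) < Pn θ N + 1 := Nat.lt_floor_add_one _
    have h9 : ((Pn θ N : ℕ) : ℝ) + 1 ≤ p := by exact_mod_cast h5
    linarith
  · have h8 : (Pn θ N : ℝ) ≤ (N : ℝ) ^ (θ / 20) := Nat.floor_le (by positivity)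
    have h9 : (p : ℝ) ≤ 2 * (Pn θ N : ℝ) := by exact_mod_cast h6
    linarith

/-- the theorem of the hand-in, from the two black boxes -/
theorem midp_res (hl : LFUP) (hx : ∀ θ' : ℝ, 1 / 6 < θ' → HUX θ') (θ : ℝ) (h1 : 1 / 6 < θ)
    (h2 : θ ≤ 1 / 4) (A : ℕ) : ∃ N0 : ℕ, ∀ N : ℕ, N0 ≤ N →
      ({n : ℕ | N < n ∧ n ≤ 2 * N ∧
        ((solR θ N n).ncard : ℝ) < (N : ℝ) ^ θ / (10 * Real.log N ^ 3)}.ncard : ℝ)
      ≤ N / Real.log N ^ A := by
  classical
  obtain ⟨N0, h⟩ := midp_link hl hx θ h1 h2 A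
  refine ⟨N0, fun N hN => ?_⟩
  refine le_trans ?_ (h N hN)
  have hsub : {n : ℕ | N < n ∧ n ≤ 2 * N ∧
        ((solR θ N n).ncard : ℝ) < (N : ℝ) ^ θ / (10 * Real.log N ^ 3)} ⊆
      (((Ioc N (2 * N)).filter (fun n =>
        ((sols (Pn θ N) (Hn θ N) n).ncard : ℝ) < (N : ℝ) ^ θ / (10 * Real.log N ^ 3)) : Finset ℕ) : Set ℕ) := by
    rintro n ⟨ha, hb, hc⟩
    rw [Finset.mem_coe, mem_filter, mem_Ioc]
    refine ⟨⟨ha, hb⟩, lt_of_le_of_lt ?_ hc⟩
    exact_mod_cast Set.ncard_le_ncard (sols_sub θ N n) (solR_finite θ N n)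
  have := Set.ncard_le_ncard hsub (Finset.finite_toSet _)
  rw [Set.ncard_coe_finset] at this
  exact_mod_cast this

end Pool.Agent.H43.MP

end
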