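import Pool.Agent.H43.PM.M24
import Pool.Agent.H43.PM.M41

/-! The parts of this file: H88.PSI.BoxL, H88.PSI.BoxS, H88.PSI.BoxM, H88.PSI.BoxI. -/

section

/-!
# PSI BoxL: the integral over a small set, given a bound for the longest factor

`i` with `N i` maximal: `N i ≥ (X/2^r)^(1/r) ≥ X^(1/7)`, so `hp` applies to it.  `G = ∏_{i' ≠ i} g i'` (`dp_prod`),
`K' = ∏_{i' ≠ i} 2 N i'`, `X^(1/3) ≤ K' ≤ X` (`N i ≤ X^(11/24)`, `X ≤ 2^r ∏ N`, `∏ N ≤ 3X`).  `Pool.Agent.H80.LV.hm (1/3)`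
(`Pool/Agent/H80/LV/HM.lean`; it has the same sums): `∫_B |DP G K'|^2 ≤ K' L^2 SS G K'`, `SS G K' ≤ K' L^C` (`prod_bd`, `tau_mom`).
`∫_B FF^2 ≤ (N i/L^K)^2 K'^2 L^(C+2) ≤ 4^r 9 X^2 L^(C+2-2K) ≤ X^2/L^A` for `K` large.
-/

set_option autoImplicit false

namespace Pool.Agent.H88.PSI

open Finset MeasureTheory

/-- the longest factor is long -/
theorem BoxL_long {X r : ℕ} {N : Fin r → ℕ} (hr : r ≤ 6) (hX : 2 ≤ X)
    (hP : X ≤ 2 ^ r * ∏ i, N i) (h1 : ∀ i, 1 ≤ N i) :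
    ∃ i : Fin r, (X : ℝ) ^ (1 / 6 : ℝ) ≤ 2 * N i := by
  have hne : (univ : Finset (Fin r)).Nonempty := by
    by_contra hcon
    rw [not_nonempty_iff_eq_empty] at hcon
    rw [hcon, prod_empty] at hP
    have hr0 : r = 0 := by
      by_contra h
      have : (⟨0, Nat.pos_of_ne_zero h⟩ : Fin r) ∈ (univ : Finset (Fin r)) := mem_univ _
      rw [hcon] at this
      exact absurd this (notMem_empty _)
    rw [hr0] at hP
    omega
  obtain ⟨i, _, hi⟩ := exists_max_image univ N hne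
  refine ⟨i, ?_⟩
  have h2 : X ≤ (2 * N i) ^ 6 := by
    calc X ≤ 2 ^ r * ∏ i, N i := hP
      _ ≤ 2 ^ r * ∏ _j : Fin r, N i := by
          apply Nat.mul_le_mul_left
          exact prod_le_prod' fun j _ => hi j (mem_univ _)
      _ = (2 * N i) ^ r := by
          rw [prod_const, card_univ, Fintype.card_fin, mul_pow]
      _ ≤ (2 * N i) ^ 6 := Nat.pow_le_pow_right (by have := h1 i; omega) hr
  have h3 : (X : ℝ) ≤ (2 * N i : ℝ) ^ (6 : ℝ) := by
    rw [show (6 : ℝ) = ((6 : ℕ) : ℝ) by norm_num, Real.rpow_natCast]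
    exact_mod_cast h2
  calc (X : ℝ) ^ (1 / 6 : ℝ) ≤ ((2 * N i : ℝ) ^ (6 : ℝ)) ^ (1 / 6 : ℝ) :=
        Real.rpow_le_rpow (by positivity) h3 (by norm_num)
    _ = 2 * N i := by
        rw [← Real.rpow_mul (by positivity)]
        norm_num

theorem BoxL_SS {X r : ℕ} {N : Fin r → ℕ} {g : Fin r → ArithmeticFunction ℂ} (hB : Box X N g)
    (i : Fin r) (hL : 1 ≤ Real.log X) {K' : ℕ} (hK' : K' ≤ X) (hX : 1 ≤ X) :
    SS (⇑(∏ j ∈ univ.erase i, g j)) K' ≤ K' * (2 * Real.log X) ^ (12 + 2 ^ 12) := by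
  set L := Real.log X with hLdef
  set f' : Fin r → ArithmeticFunction ℂ := fun j => if j = i then 1 else g j with hf'
  have hprod : ∏ j, f' j = ∏ j ∈ univ.erase i, g j := by
    rw [← mul_prod_erase univ f' (mem_univ i)]
    have h1 : f' i = 1 := by simp [hf']
    rw [h1, one_mul]
    apply prod_congr rfl
    intro j hj
    have : j ≠ i := (mem_erase.1 hj).1
    simp [hf', this]
  have hbd : ∀ j n, ‖f' j n‖ ≤ 2 * L := by
    intro j n
    by_cases hj : j = i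
    · simp only [hf', hj, if_true]
      rw [ArithmeticFunction.one_apply]
      split_ifs
      · rw [norm_one]; linarith
      · rw [norm_zero]; linarith
    · simp only [hf', hj, if_false]
      exact hB.bd j n
  have hG : ∀ n, 1 ≤ n → ‖(∏ j ∈ univ.erase i, g j) n‖ ^ 2 ≤ (2 * L) ^ 12 * tau n ^ 12 := by
    intro n hn
    have h1 := prod_bd f' (2 * L) (by linarith) hbd n
    rw [hprod] at h1
    have ht : 1 ≤ tau n := by
      unfold tau
      have : 0 < n.divisors.card := card_pos.2 ⟨1, Nat.one_mem_divisors.2 (by omega)⟩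
      exact_mod_cast this
    have h2 : (2 * L) ^ r * tau n ^ r ≤ (2 * L) ^ 6 * tau n ^ 6 :=
      mul_le_mul (pow_le_pow_right₀ (by linarith) hB.hr) (pow_le_pow_right₀ ht hB.hr)
        (by positivity) (by positivity)
    calc ‖(∏ j ∈ univ.erase i, g j) n‖ ^ 2 ≤ ((2 * L) ^ 6 * tau n ^ 6) ^ 2 :=
          pow_le_pow_left₀ (norm_nonneg _) (h1.trans h2) 2
      _ = _ := by ring
  unfold SS
  calc ∑ n ∈ Icc 1 K', ‖(∏ j ∈ univ.erase i, g j) n‖ ^ 2
      ≤ ∑ n ∈ Icc 1 K', (2 * L) ^ 12 * tau n ^ 12 :=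
        sum_le_sum fun n hn => hG n (mem_Icc.1 hn).1
    _ = (2 * L) ^ 12 * ∑ n ∈ Icc 1 K', tau n ^ 12 := by rw [mul_sum]
    _ ≤ (2 * L) ^ 12 * (K' * (1 + Real.log K') ^ (2 ^ 12)) :=
        mul_le_mul_of_nonneg_left (tau_mom 12 K') (by positivity)
    _ ≤ (2 * L) ^ 12 * (K' * (2 * L) ^ (2 ^ 12)) := by
        apply mul_le_mul_of_nonneg_left _ (by positivity)
        apply mul_le_mul_of_nonneg_left _ (by positivity)
        have h0 : 0 ≤ Real.log K' := Real.log_natCast_nonneg _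
        apply pow_le_pow_left₀ (by linarith)
        have : Real.log K' ≤ L := by
          rcases Nat.eq_zero_or_pos K' with h | h
          · rw [h]
            simp
            linarith
          · exact Real.log_le_log (by exact_mod_cast h) (by exact_mod_cast hK')
        linarith
    _ = _ := by rw [pow_add]; ring

theorem box_l : ∃ η : ℝ, 0 < η ∧ ∀ A : ℕ, ∃ K X0 : ℕ, ∀ X : ℕ, X0 ≤ X →
    ∀ (r : ℕ) (N : Fin r → ℕ) (g : Fin r → ArithmeticFunction ℂ) (B : Set ℝ),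
    Box X N g → X ≤ 2 ^ r * ∏ i, N i → MeasurableSet B →
    B ⊆ Set.Icc (-(X : ℝ)) X → volume.real B ≤ (X : ℝ) ^ η →
    (∀ i, (X : ℝ) ^ (1 / 7 : ℝ) ≤ N i → ∀ t ∈ B, ‖DP (g i) (2 * N i) t‖ ≤ N i / Real.log X ^ K) →
    ∫ t in B, FF N g t ^ 2 ≤ (X : ℝ) ^ 2 / Real.log X ^ A := by
  obtain ⟨η, hη0, hη1, x0, hhm⟩ := Pool.Agent.H80.LV.hm (1 / 3) (by norm_num)
  refine ⟨η, hη0, fun A => ?_⟩
  obtain ⟨EE, hEE⟩ : ∃ EE : ℕ, EE = 2 ^ 12 := ⟨_, rfl⟩
  obtain ⟨C0, hC0⟩ : ∃ C0 : ℝ, C0 = 9216 * 2 ^ (12 + EE) := ⟨_, rfl⟩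
  have hC0pos : 0 < C0 := by rw [hC0]; positivity
  obtain ⟨x1, hx1⟩ := Pool.Agent.H80.LV.log_ge (max 1 C0)
  obtain ⟨x2, hx2⟩ := Pool.Agent.H80.LV.pow_ge (1 / 6 - 1 / 7) 2 (by norm_num)
  obtain ⟨x3, hx3⟩ := Pool.Agent.H80.LV.pow_ge (1 / 7) 96 (by norm_num)
  obtain ⟨x4, hx4⟩ := Pool.Agent.H80.LV.pow_ge (13 / 24 - 1 / 3) 2 (by norm_num)
  refine ⟨A + EE + 20, max 2 (max x0 (max x1 (max x2 (max x3 x4)))), fun X hX => ?_⟩
  have hXa : 2 ≤ X := (le_max_left _ _).trans hX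
  have hX' := (le_max_right _ _).trans hX
  have hX0 : x0 ≤ X := (le_max_left _ _).trans hX'
  have hX'' := (le_max_right _ _).trans hX'
  have hL := hx1 X ((le_max_left _ _).trans hX'')
  have hX3 := (le_max_right _ _).trans hX''
  have hp2 := hx2 X ((le_max_left _ _).trans hX3)
  have hX4 := (le_max_right _ _).trans hX3
  have hp3 := hx3 X ((le_max_left _ _).trans hX4)
  have hp4 := hx4 X ((le_max_right _ _).trans hX4)
  have hL1 : 1 ≤ Real.log X := (le_max_left _ _).trans hL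
  have hLC : C0 ≤ Real.log X := (le_max_right _ _).trans hL
  clear hX hX' hX'' hX3 hX4
  intro r N g B hBox hP hBm hBsub hBvol hp
  have hXr : (0 : ℝ) < X := by exact_mod_cast (show 0 < X by omega)
  have hXr1 : (1 : ℝ) ≤ X := by exact_mod_cast (show 1 ≤ X by omega)
  obtain ⟨i, hi⟩ := BoxL_long hBox.hr hXa hP hBox.one
  have hNi0 : (0 : ℝ) < N i := by exact_mod_cast (hBox.one i)
  -- `N i ≥ X^(1/7)`
  have hi7 : (X : ℝ) ^ (1 / 7 : ℝ) ≤ N i := by
    have h1 : (X : ℝ) ^ (1 / 6 : ℝ) = (X : ℝ) ^ (1 / 7 : ℝ) * (X : ℝ) ^ (1 / 6 - 1 / 7 : ℝ) := by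
      rw [← Real.rpow_add hXr]
      norm_num
    rw [h1] at hi
    have h2 : (X : ℝ) ^ (1 / 7 : ℝ) * 2 ≤ (X : ℝ) ^ (1 / 7 : ℝ) * (X : ℝ) ^ (1 / 6 - 1 / 7 : ℝ) :=
      mul_le_mul_of_nonneg_left hp2 (by positivity)
    linarith
  set G := ∏ j ∈ univ.erase i, g j with hG
  set K' := ∏ j ∈ univ.erase i, (2 * N j) with hK'
  have hKN : (2 * N i) * K' = 2 ^ r * ∏ j, N j := by
    rw [hK', mul_prod_erase univ (fun j => 2 * N j) (mem_univ i), prod_mul_distrib, prod_const,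
      card_univ, Fintype.card_fin]
  have hr1 : 2 ^ r ≤ 2 ^ 6 := Nat.pow_le_pow_right (by norm_num) hBox.hr
  have hKNle : 2 * (N i * K') ≤ 192 * X := by
    calc 2 * (N i * K') = (2 * N i) * K' := by ring
      _ = 2 ^ r * ∏ j, N j := hKN
      _ ≤ 2 ^ 6 * (3 * X) := Nat.mul_le_mul hr1 hBox.prod
      _ = 192 * X := by ring
  have hKNle' : (N i : ℝ) * K' ≤ 96 * X := by
    have : ((2 * (N i * K') : ℕ) : ℝ) ≤ ((192 * X : ℕ) : ℝ) := by exact_mod_cast hKNle
    push_cast at this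
    linarith
  have hK'X : K' ≤ X := by
    have h1 : (96 : ℝ) * K' ≤ 96 * X := by
      calc (96 : ℝ) * K' ≤ N i * K' := mul_le_mul_of_nonneg_right (hp3.trans hi7) (by positivity)
        _ ≤ _ := hKNle'
    have h2 : (K' : ℝ) ≤ X := by linarith
    exact_mod_cast h2
  have hK'low : (X : ℝ) ^ (1 / 3 : ℝ) ≤ K' := by
    have h1 : (X : ℝ) ≤ 2 * N i * K' := by
      have : X ≤ (2 * N i) * K' := hKN ▸ hP
      exact_mod_cast this
    have h2 : (2 : ℝ) * N i * K' ≤ 2 * (X : ℝ) ^ (11 / 24 : ℝ) * K' := by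
      apply mul_le_mul_of_nonneg_right _ (by positivity)
      exact mul_le_mul_of_nonneg_left (hBox.top i) (by norm_num)
    have h3 : (X : ℝ) = (X : ℝ) ^ (11 / 24 : ℝ) * ((X : ℝ) ^ (1 / 3 : ℝ) * (X : ℝ) ^ (13 / 24 - 1 / 3 : ℝ)) := by
      rw [← Real.rpow_add hXr, ← Real.rpow_add hXr]
      norm_num
    have hpos : 0 < (X : ℝ) ^ (11 / 24 : ℝ) := by positivity
    have h4 : (X : ℝ) ^ (11 / 24 : ℝ) * ((X : ℝ) ^ (1 / 3 : ℝ) * (X : ℝ) ^ (13 / 24 - 1 / 3 : ℝ)) ≤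
        (X : ℝ) ^ (11 / 24 : ℝ) * (2 * K') := by
      rw [← h3]
      linarith
    have h5 := le_of_mul_le_mul_left h4 hpos
    have h6 : (X : ℝ) ^ (1 / 3 : ℝ) * 2 ≤ (X : ℝ) ^ (1 / 3 : ℝ) * (X : ℝ) ^ (13 / 24 - 1 / 3 : ℝ) :=
      mul_le_mul_of_nonneg_left hp4 (by positivity)
    linarith
  have hBsub' : B ⊆ Set.Icc (-((X : ℝ) ^ (2 : ℕ))) ((X : ℝ) ^ (2 : ℕ)) := by
    intro t ht
    have h1 := hBsub ht
    have h2 : (X : ℝ) ≤ (X : ℝ) ^ (2 : ℕ) := by nlinarith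
    exact ⟨by linarith [h1.1], by linarith [h1.2]⟩
  have hHM := hhm X hX0 K' (⇑G) B hK'low hK'X hBm hBsub' hBvol
  have hSS := BoxL_SS hBox i hL1 hK'X (by omega)
  rw [← hEE] at hSS
  -- FF as a product
  have hFF : ∀ t, FF N g t ^ 2 = ‖DP (g i) (2 * N i) t‖ ^ 2 * ‖DP (⇑G) K' t‖ ^ 2 := by
    intro t
    have h1 : DP (⇑G) K' t = ∏ j ∈ univ.erase i, DP (g j) (2 * N j) t := by
      rw [hG, hK']
      apply dp_prod (univ.erase i) g (fun j => 2 * N j)
      intro j _ n hn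
      exact (hBox.supp j n hn).2.le
    unfold FF
    rw [← mul_prod_erase univ (fun j => ‖DP (g j) (2 * N j) t‖) (mem_univ i), h1, norm_prod,
      mul_pow]
  have hcontG : Continuous (fun t => ‖DP (⇑G) K' t‖ ^ 2) := ((dp_cont _ _).norm).pow 2
  have hintG : IntegrableOn (fun t => ‖DP (⇑G) K' t‖ ^ 2) B :=
    (hcontG.continuousOn.integrableOn_compact isCompact_Icc).mono_set hBsub
  have hcontF : Continuous (fun t => FF N g t ^ 2) := (ff_cont N g).pow 2
  have hintF : IntegrableOn (fun t => FF N g t ^ 2) B :=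
    (hcontF.continuousOn.integrableOn_compact isCompact_Icc).mono_set hBsub
  set KK := A + EE + 20 with hKK
  set L := Real.log X with hLdef
  have hLpos : 0 < L := by linarith
  have hstep : ∫ t in B, FF N g t ^ 2 ≤ (N i / L ^ KK) ^ 2 * ∫ t in B, ‖DP (⇑G) K' t‖ ^ 2 := by
    rw [← integral_const_mul]
    apply setIntegral_mono_on hintF (hintG.const_mul _) hBm
    intro t ht
    rw [hFF t]
    apply mul_le_mul_of_nonneg_right _ (by positivity)
    exact pow_le_pow_left₀ (norm_nonneg _) (hp i hi7 t ht) 2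
  have hHM' : ∫ t in B, ‖DP (⇑G) K' t‖ ^ 2 ≤ K' * L ^ 2 * (K' * (2 * L) ^ (12 + EE)) := by
    refine hHM.trans ?_
    apply mul_le_mul_of_nonneg_left hSS (by positivity)
  refine hstep.trans ?_
  calc (N i / L ^ KK) ^ 2 * ∫ t in B, ‖DP (⇑G) K' t‖ ^ 2
      ≤ (N i / L ^ KK) ^ 2 * (K' * L ^ 2 * (K' * (2 * L) ^ (12 + EE))) :=
        mul_le_mul_of_nonneg_left hHM' (by positivity)
    _ = ((N i : ℝ) * K') ^ 2 * (L ^ 2 * (2 * L) ^ (12 + EE)) / (L ^ KK) ^ 2 := by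
        field_simp
    _ ≤ (96 * X) ^ 2 * (L ^ 2 * (2 * L) ^ (12 + EE)) / (L ^ KK) ^ 2 := by
        apply div_le_div_of_nonneg_right _ (by positivity)
        apply mul_le_mul_of_nonneg_right _ (by positivity)
        exact pow_le_pow_left₀ (by positivity) hKNle' 2
    _ = (X : ℝ) ^ 2 * (C0 * L ^ (14 + EE)) / (L ^ KK) ^ 2 := by
        rw [hC0, mul_pow (2 : ℝ) L, mul_pow (96 : ℝ)]
        congr 1
        have : L ^ 2 * (2 ^ (12 + EE) * L ^ (12 + EE)) =
            2 ^ (12 + EE) * L ^ (14 + EE) := by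
          rw [show (14 + EE : ℕ) = 2 + (12 + EE) by omega, pow_add L 2]
          ring
        rw [this]
        ring
    _ ≤ (X : ℝ) ^ 2 * (L * L ^ (14 + EE)) / (L ^ KK) ^ 2 := by
        apply div_le_div_of_nonneg_right _ (by positivity)
        apply mul_le_mul_of_nonneg_left _ (by positivity)
        exact mul_le_mul_of_nonneg_right hLC (by positivity)
    _ ≤ (X : ℝ) ^ 2 / L ^ A := by
        rw [div_le_div_iff₀ (by positivity) (by positivity), mul_assoc]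
        apply mul_le_mul_of_nonneg_left _ (by positivity)
        have h1 : L * L ^ (14 + EE) * L ^ A = L ^ (A + 15 + EE) := by
          rw [← pow_succ', ← pow_add]
          congr 1
          ring
        have h2 : (L ^ KK) ^ 2 = L ^ (2 * KK) := by
          rw [← pow_mul]
          congr 1
          ring
        rw [h1, h2]
        apply pow_le_pow_right₀ hL1
        omega

end Pool.Agent.H88.PSI

end

section

/-!
# PSI BoxS: the part of the integral where the product is `≤ X^(1-δ)`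

`κ = eδ/4`, `η = (1/2-δ)/m1 ≤ κ/4` with `m1 : ℕ` fixed, `s_m = 1/2 + m η` (`s_{m1} = 1-δ`).
`{FF ≤ X^(1/2)}`: `≤ 2 T X ≤ 2 X^(11/6)`.  `B_m = {|t| ≤ T, X^(s_{m-1}) < FF ≤ X^(s_m)}`: by `cov` (`s = s_m`, `X^(s-κ/4) ≤ X^(s-η)`, `box_tr`)
`B_m` is covered by the `r ≤ 6` sets `{t ∈ B_m, X^(κ/24) ≤ N i, (N i)^(s_m-κ) ≤ ‖F_i(t)‖}`, each of measure `≤ X^(2-2s_m-eδ)` (`lvs` with the `κ` of
`lvs` := `eδ/96`), so `∫_{B_m} FF^2 ≤ 6 X^(2-eδ)`; sum over `m ≤ m1`.
-/

set_option autoImplicit false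

namespace Pool.Agent.H88.PSI

open Finset MeasureTheory

private theorem BoxS_large (a : ℝ) (ha : 0 < a) (c : ℝ) :
    ∃ X0 : ℕ, ∀ X : ℕ, X0 ≤ X → c ≤ (X : ℝ) ^ a := by
  have h := (tendsto_rpow_atTop ha).comp tendsto_natCast_atTop_atTop
  obtain ⟨X0, hX0⟩ := (Filter.tendsto_atTop_atTop.mp h) c
  exact ⟨X0, fun X hX => hX0 X hX⟩

private theorem BoxS_sq {x a : ℝ} (hx : 0 ≤ x) : (x ^ a) ^ 2 = x ^ (2 * a) := by
  rw [← Real.rpow_natCast, ← Real.rpow_mul hx]
  congr 1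
  push_cast
  ring

theorem box_s (e δ : ℝ) (he : 0 < e) (he' : e ≤ 1 / 100) (hδ : 0 < δ) (hδ' : δ ≤ 1 / 4) :
    ∃ X0 : ℕ, ∀ X : ℕ, X0 ≤ X → ∀ (r : ℕ) (N : Fin r → ℕ) (g : Fin r → ArithmeticFunction ℂ) (T : ℝ),
    Box X N g → 1 ≤ T → T ≤ (X : ℝ) ^ (5 / 6 - e) →
    ∫ t in {t : ℝ | |t| ≤ T ∧ FF N g t ≤ (X : ℝ) ^ (1 - δ)}, FF N g t ^ 2
      ≤ (X : ℝ) ^ (2 - e * δ / 2) := by
  set κ : ℝ := e * δ / 4 with hκd
  have hκ : 0 < κ := by positivity
  have hed : e * δ ≤ 1 / 400 := by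
    calc e * δ ≤ (1 / 100) * (1 / 4) := mul_le_mul he' hδ' hδ.le (by norm_num)
      _ = 1 / 400 := by norm_num
  have hκ' : κ ≤ 1 / 4 := by rw [hκd]; linarith
  obtain ⟨m1, hm1⟩ := exists_nat_gt ((1 / 2 - δ) * 4 / κ)
  have hm0 : (0 : ℝ) < m1 := by
    have : 0 ≤ (1 / 2 - δ) * 4 / κ := by
      apply div_nonneg _ hκ.le
      linarith
    linarith
  set η : ℝ := (1 / 2 - δ) / m1 with hη
  have hη0 : 0 ≤ η := div_nonneg (by linarith) hm0.le
  have hη1 : η ≤ κ / 4 := by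
    rw [hη, div_le_iff₀ hm0]
    rw [div_lt_iff₀ hκ] at hm1
    linarith
  obtain ⟨X1, hcov⟩ := cov κ hκ hκ'
  obtain ⟨X2, hlvs⟩ := lvs e δ (κ / 24) he he' hδ hδ' (by positivity)
  obtain ⟨X3, hX3⟩ := BoxS_large (e * δ / 2) (by positivity) (6 * m1 + 2)
  refine ⟨max (max X1 X2) (max X3 1), ?_⟩
  intro X hX r N g T hB hT hT'
  have hXa : X1 ≤ X := le_trans (le_trans (le_max_left _ _) (le_max_left _ _)) hX
  have hXb : X2 ≤ X := le_trans (le_trans (le_max_right _ _) (le_max_left _ _)) hX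
  have hXc : X3 ≤ X := le_trans (le_trans (le_max_left _ _) (le_max_right _ _)) hX
  have hXd : 1 ≤ X := le_trans (le_trans (le_max_right _ _) (le_max_right _ _)) hX
  have hx1 : (1 : ℝ) ≤ X := by exact_mod_cast hXd
  have hx0 : (0 : ℝ) < X := by linarith
  set s : ℕ → ℝ := fun m => 1 / 2 + m * η with hs
  have hs0 : ∀ m, 1 / 2 ≤ s m := fun m => by
    have : 0 ≤ (m : ℝ) * η := by positivity
    simp only [hs]
    linarith
  have hsm1 : s m1 = 1 - δ := by
    simp only [hs, hη]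
    field_simp
    ring
  have hsle : ∀ m, m ≤ m1 → s m ≤ 1 - δ := by
    intro m hm
    rw [← hsm1]
    simp only [hs]
    have : (m : ℝ) ≤ m1 := by exact_mod_cast hm
    nlinarith
  set C : ℕ → Fin r → Set ℝ := fun m i => {t : ℝ | |t| ≤ T ∧ (X : ℝ) ^ (κ / 24) ≤ N i ∧
    (N i : ℝ) ^ (s m - κ) ≤ ‖DP (g i) (2 * N i) t‖} with hC
  have hCm : ∀ m i, MeasurableSet (C m i) := by
    intro m i
    have h1 : MeasurableSet {t : ℝ | |t| ≤ T} :=
      measurableSet_le continuous_abs.measurable measurable_const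
    have h3 : MeasurableSet {t : ℝ | (N i : ℝ) ^ (s m - κ) ≤ ‖DP (g i) (2 * N i) t‖} :=
      measurableSet_le measurable_const (dp_cont _ _).norm.measurable
    exact h1.inter ((MeasurableSet.const _).inter h3)
  have hCI : ∀ m i, C m i ⊆ Set.Icc (-T) T := by
    intro m i t ht
    exact abs_le.mp ht.1
  have hCv : ∀ m i, m ≤ m1 → volume.real (C m i) ≤ (X : ℝ) ^ (2 - 2 * s m - e * δ) := by
    intro m i hm
    by_cases hN : (X : ℝ) ^ (κ / 24) ≤ N i
    · refine hlvs X hXb (N i) (g i) (s m) T (C m i) hN (hB.top i) ?_ (hB.bd i) (hs0 m)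
        (hsle m hm) hT hT' (hCm m i) (hCI m i) ?_
      · intro n hn
        exact (hB.supp i n hn).2.le
      · intro t ht
        exact ht.2.2
    · have : C m i = ∅ := by
        ext t
        simp only [hC, Set.mem_ofPred_eq, Set.mem_empty_iff_false, iff_false]
        exact fun h => hN h.2.1
      rw [this, measureReal_empty]
      positivity
  set F : ℝ → ℝ := FF N g with hF
  have hFc : Continuous F := ff_cont N g
  have hF0 : ∀ t, 0 ≤ F t := ff_nonneg N g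
  set h : ℝ → ℝ := fun t => (X : ℝ) + ∑ m ∈ Icc 1 m1, ∑ i : Fin r,
    (C m i).indicator (fun _ => (X : ℝ) ^ (2 * s m)) t with hh
  have hind0 : ∀ m i t, 0 ≤ (C m i).indicator (fun _ => (X : ℝ) ^ (2 * s m)) t := by
    intro m i t
    exact Set.indicator_nonneg (fun _ _ => by positivity) t
  have hh0 : ∀ t, 0 ≤ h t := fun t =>
    add_nonneg hx0.le (sum_nonneg fun m _ => sum_nonneg fun i _ => hind0 m i t)
  have key : ∀ t, |t| ≤ T → F t ≤ (X : ℝ) ^ (1 - δ) → F t ^ 2 ≤ h t := by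
    intro t ht hFt
    by_cases h1 : F t ≤ (X : ℝ) ^ (1 / 2 : ℝ)
    · have h2 : F t ^ 2 ≤ ((X : ℝ) ^ (1 / 2 : ℝ)) ^ 2 := pow_le_pow_left₀ (hF0 t) h1 2
      rw [BoxS_sq hx0.le] at h2
      norm_num at h2
      simp only [hh]
      have h3 : 0 ≤ ∑ m ∈ Icc 1 m1, ∑ i : Fin r,
        (C m i).indicator (fun _ => (X : ℝ) ^ (2 * s m)) t :=
        sum_nonneg fun m _ => sum_nonneg fun i _ => hind0 m i t
      linarith
    · have hex : ∃ m, F t ≤ (X : ℝ) ^ s m := ⟨m1, by rw [hsm1]; exact hFt⟩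
      classical
      set m := Nat.find hex with hm
      have hP : F t ≤ (X : ℝ) ^ s m := Nat.find_spec hex
      have hmle : m ≤ m1 := Nat.find_min' hex (by rw [hsm1]; exact hFt)
      have hm1' : 1 ≤ m := by
        by_contra h0
        have h0' : m = 0 := by omega
        rw [h0'] at hP
        simp only [hs, Nat.cast_zero, zero_mul, add_zero] at hP
        exact h1 hP
      have hPn : ¬ F t ≤ (X : ℝ) ^ s (m - 1) := Nat.find_min hex (by omega)
      rw [not_le] at hPn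
      have hsm : s m - κ / 4 ≤ s (m - 1) := by
        simp only [hs]
        have : ((m - 1 : ℕ) : ℝ) = m - 1 := by
          rw [Nat.cast_sub hm1', Nat.cast_one]
        rw [this]
        linarith
      have hlt : (X : ℝ) ^ (s m - κ / 4) < ∏ i, ‖DP (g i) (2 * N i) t‖ :=
        lt_of_le_of_lt (Real.rpow_le_rpow_of_exponent_le hx1 hsm) hPn
      obtain ⟨i, hi1, hi2⟩ := hcov X hXa r N (fun i => ‖DP (g i) (2 * N i) t‖) (s m) hB.hr
        hB.one hB.prod (fun i => norm_nonneg _) (fun i => box_tr hB i t) (hs0 m)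
        (by have := hsle m hmle; linarith) hlt
      have htC : t ∈ C m i := ⟨ht, hi1, hi2⟩
      have h2 : F t ^ 2 ≤ (X : ℝ) ^ (2 * s m) := by
        rw [← BoxS_sq hx0.le]
        exact pow_le_pow_left₀ (hF0 t) hP 2
      have h3 : (X : ℝ) ^ (2 * s m) ≤ ∑ i : Fin r,
          (C m i).indicator (fun _ => (X : ℝ) ^ (2 * s m)) t := by
        have h4 := single_le_sum (s := univ) (f := fun i : Fin r =>
          (C m i).indicator (fun _ => (X : ℝ) ^ (2 * s m)) t)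
          (fun i _ => hind0 m i t) (mem_univ i)
        simp only [Set.indicator_of_mem htC] at h4
        exact h4
      have h5 : ∑ i : Fin r, (C m i).indicator (fun _ => (X : ℝ) ^ (2 * s m)) t ≤
          ∑ m ∈ Icc 1 m1, ∑ i : Fin r,
            (C m i).indicator (fun _ => (X : ℝ) ^ (2 * s m)) t :=
        single_le_sum (f := fun m => ∑ i : Fin r,
          (C m i).indicator (fun _ => (X : ℝ) ^ (2 * s m)) t)
          (fun m _ => sum_nonneg fun i _ => hind0 m i t) (mem_Icc.mpr ⟨hm1', hmle⟩)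
      simp only [hh]
      linarith
  -- integration
  set E : Set ℝ := {t : ℝ | |t| ≤ T ∧ F t ≤ (X : ℝ) ^ (1 - δ)} with hE
  have hEm : MeasurableSet E :=
    (measurableSet_le continuous_abs.measurable measurable_const).inter
      (measurableSet_le hFc.measurable measurable_const)
  have hEI : E ⊆ Set.Icc (-T) T := fun t ht => abs_le.mp ht.1
  have hFi : IntegrableOn (fun t => F t ^ 2) (Set.Icc (-T) T) :=
    (hFc.pow 2).continuousOn.integrableOn_Icc
  have hci : ∀ c : ℝ, IntegrableOn (fun _ : ℝ => c) (Set.Icc (-T) T) := fun c =>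
    continuous_const.continuousOn.integrableOn_Icc
  have hii : ∀ m i, IntegrableOn ((C m i).indicator (fun _ => (X : ℝ) ^ (2 * s m)))
      (Set.Icc (-T) T) := fun m i => (hci _).indicator (hCm m i)
  have hsi : IntegrableOn (fun t => ∑ m ∈ Icc 1 m1, ∑ i : Fin r,
      (C m i).indicator (fun _ => (X : ℝ) ^ (2 * s m)) t) (Set.Icc (-T) T) := by
    apply integrable_finsetSum
    intro m _
    apply integrable_finsetSum
    intro i _
    exact hii m i
  have hhi : IntegrableOn h (Set.Icc (-T) T) := (hci _).add hsi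
  have step1 : ∫ t in E, F t ^ 2 ≤ ∫ t in E, h t :=
    setIntegral_mono_on (hFi.mono_set hEI) (hhi.mono_set hEI) hEm
      (fun t ht => key t ht.1 ht.2)
  have step2 : ∫ t in E, h t ≤ ∫ t in Set.Icc (-T) T, h t :=
    setIntegral_mono_set hhi (Filter.Eventually.of_forall hh0)
      (Filter.Eventually.of_forall hEI)
  have hvolI : volume.real (Set.Icc (-T) T) = 2 * T := by
    rw [Real.volume_real_Icc_of_le (by linarith)]
    ring
  have step3 : ∫ t in Set.Icc (-T) T, h t = 2 * T * X + ∑ m ∈ Icc 1 m1, ∑ i : Fin r,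
      volume.real (C m i) * (X : ℝ) ^ (2 * s m) := by
    simp only [hh]
    rw [integral_add (hci _) hsi, setIntegral_const, hvolI, smul_eq_mul]
    congr 1
    rw [integral_finsetSum]
    · refine sum_congr rfl fun m _ => ?_
      rw [integral_finsetSum]
      · refine sum_congr rfl fun i _ => ?_
        rw [setIntegral_indicator (hCm m i), Set.inter_eq_right.mpr (hCI m i),
          setIntegral_const, smul_eq_mul]
      · intro i _
        exact hii m i
    · intro m _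
      apply integrable_finsetSum
      intro i _
      exact hii m i
  have step4 : ∑ m ∈ Icc 1 m1, ∑ i : Fin r, volume.real (C m i) * (X : ℝ) ^ (2 * s m) ≤
      6 * m1 * (X : ℝ) ^ (2 - e * δ) := by
    calc ∑ m ∈ Icc 1 m1, ∑ i : Fin r, volume.real (C m i) * (X : ℝ) ^ (2 * s m)
        ≤ ∑ m ∈ Icc 1 m1, ∑ _i : Fin r, (X : ℝ) ^ (2 - e * δ) := by
          refine sum_le_sum fun m hm => sum_le_sum fun i _ => ?_
          have hm' := (mem_Icc.mp hm).2
          calc volume.real (C m i) * (X : ℝ) ^ (2 * s m)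
              ≤ (X : ℝ) ^ (2 - 2 * s m - e * δ) * (X : ℝ) ^ (2 * s m) :=
                mul_le_mul_of_nonneg_right (hCv m i hm') (by positivity)
            _ = (X : ℝ) ^ (2 - e * δ) := by
                rw [← Real.rpow_add hx0]
                congr 1
                ring
      _ = m1 * (r * (X : ℝ) ^ (2 - e * δ)) := by
          rw [sum_const, sum_const, Nat.card_Icc, card_univ, Fintype.card_fin, nsmul_eq_mul,
            nsmul_eq_mul, Nat.add_sub_cancel]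
      _ ≤ 6 * m1 * (X : ℝ) ^ (2 - e * δ) := by
          have hr : (r : ℝ) ≤ 6 := by exact_mod_cast hB.hr
          have hp : 0 ≤ (X : ℝ) ^ (2 - e * δ) := by positivity
          have := mul_le_mul_of_nonneg_right hr hp
          nlinarith
  have step5 : 2 * T * X ≤ 2 * (X : ℝ) ^ (2 - e * δ) := by
    have h1 : T * X ≤ (X : ℝ) ^ (5 / 6 - e) * X := mul_le_mul_of_nonneg_right hT' hx0.le
    have h2 : (X : ℝ) ^ (5 / 6 - e) * X = (X : ℝ) ^ (5 / 6 - e + 1) := by
      rw [Real.rpow_add_one hx0.ne']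
    have h3 : (X : ℝ) ^ (5 / 6 - e + 1) ≤ (X : ℝ) ^ (2 - e * δ) :=
      Real.rpow_le_rpow_of_exponent_le hx1 (by linarith)
    linarith
  calc ∫ t in E, F t ^ 2 ≤ 2 * T * X + ∑ m ∈ Icc 1 m1, ∑ i : Fin r,
      volume.real (C m i) * (X : ℝ) ^ (2 * s m) := by
        rw [← step3]
        exact step1.trans step2
    _ ≤ 2 * (X : ℝ) ^ (2 - e * δ) + 6 * m1 * (X : ℝ) ^ (2 - e * δ) := add_le_add step5 step4
    _ = (6 * m1 + 2) * (X : ℝ) ^ (2 - e * δ) := by ring
    _ ≤ (X : ℝ) ^ (e * δ / 2) * (X : ℝ) ^ (2 - e * δ) :=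
        mul_le_mul_of_nonneg_right (hX3 X hXc) (by positivity)
    _ = (X : ℝ) ^ (2 - e * δ / 2) := by
        rw [← Real.rpow_add hx0]
        congr 1
        ring

end Pool.Agent.H88.PSI

end

section

/-!
# PSI BoxM: the measure of the set where the product is `> X^(1-δ)`

`cov` with `κ = 4δ`, `s = 1` (`X^(s-κ/4) = X^(1-δ)`), then `lvl` with `4δ ≤ 1/50` and `κ := δ/6`: `≤ 6 X^(12 δ) ≤ X^(13 δ)`.
-/

set_option autoImplicit false

namespace Pool.Agent.H88.PSI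

open Finset MeasureTheory

theorem box_m (e δ : ℝ) (he : 0 < e) (he' : e ≤ 1 / 100) (hδ : 0 < δ) (hδ' : δ ≤ 1 / 200) :
    ∃ X0 : ℕ, ∀ X : ℕ, X0 ≤ X → ∀ (r : ℕ) (N : Fin r → ℕ) (g : Fin r → ArithmeticFunction ℂ) (T : ℝ),
    Box X N g → 1 ≤ T → T ≤ (X : ℝ) ^ (5 / 6 - e) →
    volume.real {t : ℝ | |t| ≤ T ∧ (X : ℝ) ^ (1 - δ) < FF N g t} ≤ (X : ℝ) ^ (13 * δ) := by
  classical
  obtain ⟨X1, h1⟩ := cov (4 * δ) (by positivity) (by linarith)
  obtain ⟨X2, h2⟩ := lvl e (4 * δ) (δ / 6) he he' (by positivity) (by linarith) (by positivity)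
  obtain ⟨X3, h3⟩ : ∃ X3 : ℕ, ∀ X : ℕ, X3 ≤ X → (6 : ℝ) ≤ (X : ℝ) ^ δ := by
    have h4 := (tendsto_rpow_atTop hδ).comp tendsto_natCast_atTop_atTop
    exact Filter.eventually_atTop.1 (h4.eventually (Filter.eventually_ge_atTop 6))
  refine ⟨X1 + X2 + X3 + 1, fun X hX r N g T hB hT hT' => ?_⟩
  have hX0 : (0 : ℝ) < X := by
    have : 0 < X := by omega
    exact_mod_cast this
  set B : Fin r → Set ℝ := fun i => if (X : ℝ) ^ (δ / 6) ≤ N i then
    {t | t ∈ Set.Icc (-T) T ∧ (N i : ℝ) ^ (1 - 4 * δ) ≤ ‖DP (g i) (2 * N i) t‖} else ∅ with hBd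
  have hsub : {t : ℝ | |t| ≤ T ∧ (X : ℝ) ^ (1 - δ) < FF N g t} ⊆ ⋃ i, B i := by
    rintro t ⟨ht, hF⟩
    obtain ⟨i, hi1, hi2⟩ := h1 X (by omega) r N (fun i => ‖DP (g i) (2 * N i) t‖) 1 hB.hr hB.one
      hB.prod (fun i => norm_nonneg _) (fun i => box_tr hB i t) (by norm_num) (by linarith)
      (by
        have h5 : 1 - 4 * δ / 4 = 1 - δ := by ring
        rw [h5]
        exact hF)
    rw [Set.mem_iUnion]
    refine ⟨i, ?_⟩
    simp only [hBd]
    have h6 : 4 * δ / 24 = δ / 6 := by ring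
    rw [h6] at hi1
    rw [if_pos hi1]
    exact ⟨abs_le.1 ht, hi2⟩
  have hBi : ∀ i, volume.real (B i) ≤ (X : ℝ) ^ (12 * δ) := by
    intro i
    simp only [hBd]
    by_cases h5 : (X : ℝ) ^ (δ / 6) ≤ N i
    · rw [if_pos h5]
      have h6 : 3 * (4 * δ) = 12 * δ := by ring
      have h7 := h2 X (by omega) (N i) (g i) T
        {t | t ∈ Set.Icc (-T) T ∧ (N i : ℝ) ^ (1 - 4 * δ) ≤ ‖DP (g i) (2 * N i) t‖} h5 (hB.top i)
        (fun n hn => (hB.supp i n hn).2.le) (hB.bd i) hT hT'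
        (measurableSet_Icc.inter (measurableSet_le measurable_const
          (dp_cont _ _).norm.measurable)) (fun t ht => ht.1) (fun t ht => ht.2)
      rwa [h6] at h7
    · rw [if_neg h5, measureReal_empty]
      positivity
  have hBsub : ∀ i, B i ⊆ Set.Icc (-T) T := by
    intro i t ht
    simp only [hBd] at ht
    by_cases h5 : (X : ℝ) ^ (δ / 6) ≤ N i
    · rw [if_pos h5] at ht
      exact ht.1
    · rw [if_neg h5] at ht
      exact absurd ht (Set.notMem_empty _)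
  have hfin : volume (⋃ i, B i) ≠ ⊤ := by
    refine ne_top_of_le_ne_top ?_ (measure_mono (Set.iUnion_subset hBsub))
    rw [Real.volume_Icc]
    exact ENNReal.ofReal_ne_top
  calc volume.real {t : ℝ | |t| ≤ T ∧ (X : ℝ) ^ (1 - δ) < FF N g t}
      ≤ volume.real (⋃ i, B i) := measureReal_mono hsub hfin
    _ ≤ ∑ i, volume.real (B i) := measureReal_iUnion_fintype_le _
    _ ≤ ∑ _i : Fin r, (X : ℝ) ^ (12 * δ) := Finset.sum_le_sum fun i _ => hBi i
    _ = r * (X : ℝ) ^ (12 * δ) := by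
      rw [Finset.sum_const, Finset.card_univ, Fintype.card_fin, nsmul_eq_mul]
    _ ≤ (X : ℝ) ^ δ * (X : ℝ) ^ (12 * δ) := by
      refine mul_le_mul_of_nonneg_right ?_ (by positivity)
      have h5 : (r : ℝ) ≤ 6 := by exact_mod_cast hB.hr
      exact h5.trans (h3 X (by omega))
    _ = (X : ℝ) ^ (13 * δ) := by
      rw [← Real.rpow_add hX0]
      congr 1
      ring

end Pool.Agent.H88.PSI

end

section

/-!
# PSI BoxI: mean square of the Dirichlet polynomial of a box of type II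

`η` from `box_l`, `δ = min (η/13) (1/200)`; `box_s` on `{FF ≤ X^(1-δ)}`, and on `B = {L^K' ≤ |t| ≤ T, FF > X^(1-δ)}` `box_m` and
`box_l` with `pt_b`.  `Box`: `tw χ (pc k j)` is supported on `[2^j, 2^(j+1))`, bounded by `log 2^(j+1) ≤ 2 L`.
`FF = ‖DP (tw χ (Pp κ j)) (∏ 2·2^(j i))‖` by `dp_prod`, `tw_prod`; the length may be increased (`hN`).
-/

set_option autoImplicit false

namespace Pool.Agent.H88.PSI

open Finset MeasureTheory

private theorem BoxI_ext (f : ℕ → ℂ) (N0 N : ℕ) (h : ∀ n, f n ≠ 0 → n ≤ N0) (hN : N0 ≤ N) (t : ℝ) :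
    DP f N t = DP f N0 t := by
  unfold DP
  symm
  apply sum_subset (Icc_subset_Icc le_rfl hN)
  intro n _ hn
  have : f n = 0 := by
    by_contra h0
    have := h n h0
    simp only [mem_Icc, not_and, not_le] at hn
    rename_i h1
    rw [mem_Icc] at h1
    have := hn h1.1
    omega
  rw [this, zero_mul]

private theorem BoxI_norm_char {d : ℕ} (χ : DirichletCharacter ℂ d) (a : ZMod d) : ‖χ a‖ ≤ 1 :=
  DirichletCharacter.norm_le_one χ a

theorem BoxI_box (X : ℕ) (hX : 3 ≤ X) {r d : ℕ} (χ : DirichletCharacter ℂ d) (κ : Fin r → Fin 3)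
    (j : Fin r → ℕ) (hr : r ≤ 6) (h1 : ∀ i, (2 : ℝ) ^ j i ≤ (X : ℝ) ^ (11 / 24 : ℝ))
    (h2 : ∏ i, 2 ^ j i ≤ 3 * X) :
    Box X (fun i => 2 ^ j i) (fun i => tw χ (pc (κ i) (j i))) where
  hr := hr
  one := fun i => Nat.one_le_two_pow
  top := fun i => by push_cast; exact h1 i
  prod := h2
  supp := by
    intro i n hn
    have h3 : pc (κ i) (j i) n ≠ 0 := by
      intro h0
      apply hn
      show (((pc (κ i) (j i)) n : ℝ) : ℂ) * χ (n : ZMod d) = 0
      rw [h0]; simp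
    unfold pc seg at h3
    simp only [ArithmeticFunction.coe_mk] at h3
    split_ifs at h3 with h4
    · refine ⟨h4.2.1, ?_⟩
      have := h4.2.2
      rw [pow_succ] at this
      show n < 2 * 2 ^ j i
      omega
    · exact absurd rfl h3
  bd := by
    intro i n
    have hX3 : (3 : ℝ) ≤ X := by exact_mod_cast hX
    have hL1 : 1 ≤ Real.log X := by
      rw [Real.le_log_iff_exp_le (by linarith)]
      have := Real.exp_one_lt_d9
      linarith
    show ‖(((pc (κ i) (j i)) n : ℝ) : ℂ) * χ (n : ZMod d)‖ ≤ 2 * Real.log X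
    rw [norm_mul, Complex.norm_real]
    have h3 : ‖(pc (κ i) (j i)) n‖ ≤ 2 * Real.log X := by
      unfold pc seg
      simp only [ArithmeticFunction.coe_mk]
      split_ifs with h4
      · unfold kf
        split_ifs
        · simp; linarith
        · have hn0 : (0 : ℝ) < n := by
            have := Nat.pos_of_ne_zero h4.1
            exact_mod_cast this
          have hn1 : (1 : ℝ) ≤ n := by
            have := Nat.pos_of_ne_zero h4.1
            exact_mod_cast this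
          rw [Real.norm_eq_abs, abs_of_nonneg (Real.log_nonneg hn1)]
          have h5 : (n : ℝ) ≤ (X : ℝ) ^ 2 := by
            have h6 : (n : ℝ) < 2 ^ (j i + 1) := by exact_mod_cast h4.2.2
            have h7 : (X : ℝ) ^ (11 / 24 : ℝ) ≤ X := by
              nth_rewrite 2 [← Real.rpow_one (X : ℝ)]
              exact Real.rpow_le_rpow_of_exponent_le (by linarith) (by norm_num)
            have h8 := h1 i
            have h9 : (2 : ℝ) ^ (j i + 1) = 2 ^ (j i) * 2 := by ring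
            nlinarith
          calc Real.log n ≤ Real.log ((X : ℝ) ^ 2) := Real.log_le_log hn0 h5
            _ = 2 * Real.log X := by rw [Real.log_pow]; norm_num
        · have h5 := ArithmeticFunction.abs_moebius_le_one (n := n)
          have h6 : |((ArithmeticFunction.moebius n : ℤ) : ℝ)| ≤ 1 := by exact_mod_cast h5
          rw [Real.norm_eq_abs]
          linarith
      · simp; linarith
    calc ‖(pc (κ i) (j i)) n‖ * ‖χ (n : ZMod d)‖ ≤ ‖(pc (κ i) (j i)) n‖ * 1 :=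
          mul_le_mul_of_nonneg_left (BoxI_norm_char χ _) (norm_nonneg _)
      _ ≤ 2 * Real.log X := by rw [mul_one]; exact h3

theorem BoxI_ff {r d : ℕ} (N : ℕ) (hd : 1 ≤ d) (χ : DirichletCharacter ℂ d) (κ : Fin r → Fin 3)
    (j : Fin r → ℕ) (hN : 2 ^ r * ∏ i, 2 ^ j i ≤ N) (t : ℝ) :
    ‖DP (tw χ (Pp κ j)) N t‖ = FF (fun i => 2 ^ j i) (fun i => tw χ (pc (κ i) (j i))) t := by
  have hsup : ∀ i n, tw χ (pc (κ i) (j i)) n ≠ 0 → 2 ^ j i ≤ n ∧ n < 2 * 2 ^ j i := by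
    intro i n hn
    have h3 : pc (κ i) (j i) n ≠ 0 := by
      intro h0
      apply hn
      show (((pc (κ i) (j i)) n : ℝ) : ℂ) * χ (n : ZMod d) = 0
      rw [h0]; simp
    unfold pc seg at h3
    simp only [ArithmeticFunction.coe_mk] at h3
    split_ifs at h3 with h4
    · refine ⟨h4.2.1, ?_⟩
      have := h4.2.2
      rw [pow_succ] at this
      omega
    · exact absurd rfl h3
  have e1 : tw χ (Pp κ j) = ∏ i, tw χ (pc (κ i) (j i)) := by
    unfold Pp
    exact tw_prod χ univ _ (by omega)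
  have e2 : ∏ i : Fin r, (2 * 2 ^ j i) = 2 ^ r * ∏ i, 2 ^ j i := by
    rw [prod_mul_distrib]; simp
  have e3 : DP (⇑(tw χ (Pp κ j))) N t = DP (⇑(∏ i, tw χ (pc (κ i) (j i)))) (∏ i : Fin r, (2 * 2 ^ j i)) t := by
    rw [e1]
    apply BoxI_ext
    · intro n hn
      exact (prod_supp _ (fun i => 2 ^ j i) hsup n hn).2
    · rw [e2]; exact hN
  rw [e3, dp_prod univ (fun i => tw χ (pc (κ i) (j i))) (fun i => 2 * 2 ^ j i)
    (fun i _ n hn => (hsup i n hn).2.le) t, norm_prod]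
  rfl

/-- the statement of `pt_b`, used as a hypothesis -/
def PTB : Prop := ∀ K B : ℕ, ∃ K' X0 : ℕ, ∀ X : ℕ, X0 ≤ X →
    ∀ (d : ℕ) (χ : DirichletCharacter ℂ d) (k : Fin 3) (j : ℕ) (t : ℝ), 1 ≤ d →
    (d : ℝ) ≤ Real.log X ^ B →
    (X : ℝ) ^ (1 / 7 : ℝ) ≤ (2 : ℝ) ^ j → (2 : ℝ) ^ j ≤ X → Real.log X ^ K' ≤ |t| → |t| ≤ X →
    ‖DP (tw χ (pc k j)) (2 * 2 ^ j) t‖ ≤ (2 : ℝ) ^ j / Real.log X ^ K

theorem box_i (hpt : PTB) (e : ℝ) (he : 0 < e) (he' : e ≤ 1 / 100) (A B : ℕ) : ∃ K' X0 : ℕ, ∀ X : ℕ, X0 ≤ X →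
    ∀ (r d N : ℕ) (χ : DirichletCharacter ℂ d) (κ : Fin r → Fin 3) (j : Fin r → ℕ), r ≤ 6 → 1 ≤ d →
    (d : ℝ) ≤ Real.log X ^ B → (∀ i, (2 : ℝ) ^ j i ≤ (X : ℝ) ^ (11 / 24 : ℝ)) →
    ∏ i, 2 ^ j i ≤ 3 * X → X ≤ 2 ^ r * ∏ i, 2 ^ j i → 2 ^ r * ∏ i, 2 ^ j i ≤ N →
    ∫ t in {t : ℝ | Real.log X ^ K' ≤ |t| ∧ |t| ≤ (X : ℝ) ^ (5 / 6 - e)},
      ‖DP (tw χ (Pp κ j)) N t‖ ^ 2 ≤ (X : ℝ) ^ 2 / Real.log X ^ A := by
  obtain ⟨η, hη, HL⟩ := box_l
  obtain ⟨K, X1, HL⟩ := HL (A + 1)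
  obtain ⟨K', X2, HP⟩ := hpt K B
  set δ : ℝ := min (η / 13) (1 / 200) with hδdef
  have hδ : 0 < δ := lt_min (by positivity) (by norm_num)
  have hδ1 : 13 * δ ≤ η := by have := min_le_left (η / 13) (1 / 200 : ℝ); rw [← hδdef] at this; linarith
  have hδ2 : δ ≤ 1 / 200 := min_le_right _ _
  obtain ⟨X3, HS⟩ := box_s e δ he he' hδ (by linarith)
  obtain ⟨X4, HM⟩ := box_m e δ he he' hδ hδ2
  obtain ⟨X5, H5⟩ := Pool.Agent.H80.LV.log_pow_le (e * δ / 2) 2 (by positivity) (by norm_num) A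
  obtain ⟨X6, H6⟩ := Pool.Agent.H80.LV.log_ge 2
  refine ⟨K', max (max (max X1 X2) (max X3 X4)) (max (max X5 X6) 3), ?_⟩
  intro X hX r d N χ κ j hr hd hdB hj1 hj2 hj3 hN
  simp only [max_le_iff] at hX
  obtain ⟨⟨⟨hX1, hX2⟩, hX3, hX4⟩, ⟨hX5, hX6⟩, hX7⟩ := hX
  have hXr : (3 : ℝ) ≤ X := by exact_mod_cast hX7
  have hX0 : (0 : ℝ) < X := by linarith
  have hL := H6 X hX6
  have hbox := BoxI_box X hX7 χ κ j hr hj1 hj2
  set T : ℝ := (X : ℝ) ^ (5 / 6 - e) with hT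
  have hT1 : 1 ≤ T := Real.one_le_rpow (by linarith) (by linarith)
  have hTX : T ≤ X := by
    rw [hT]; nth_rewrite 2 [← Real.rpow_one (X : ℝ)]
    exact Real.rpow_le_rpow_of_exponent_le (by linarith) (by linarith)
  set F : ℝ → ℝ := FF (fun i => 2 ^ j i) (fun i => tw χ (pc (κ i) (j i))) with hF
  have hFc : Continuous F := ff_cont _ _
  have hF0 : ∀ t, 0 ≤ F t := ff_nonneg _ _
  set S : Set ℝ := {t : ℝ | Real.log X ^ K' ≤ |t| ∧ |t| ≤ T} with hS
  set B1 : Set ℝ := {t : ℝ | |t| ≤ T ∧ F t ≤ (X : ℝ) ^ (1 - δ)} with hB1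
  set B2 : Set ℝ := {t : ℝ | (Real.log X ^ K' ≤ |t| ∧ |t| ≤ T) ∧ (X : ℝ) ^ (1 - δ) < F t} with hB2
  have mS : MeasurableSet S := by
    apply MeasurableSet.inter
    · exact measurableSet_le measurable_const continuous_abs.measurable
    · exact measurableSet_le continuous_abs.measurable measurable_const
  have mB1 : MeasurableSet B1 := by
    apply MeasurableSet.inter
    · exact measurableSet_le continuous_abs.measurable measurable_const
    · exact measurableSet_le hFc.measurable measurable_const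
  have mB2 : MeasurableSet B2 := by
    apply MeasurableSet.inter mS
    exact measurableSet_lt measurable_const hFc.measurable
  have hint : IntegrableOn (fun t => F t ^ 2) (Set.Icc (-T) T) :=
    (hFc.pow 2).continuousOn.integrableOn_compact isCompact_Icc
  have sB1 : B1 ⊆ Set.Icc (-T) T := fun t ht => abs_le.1 ht.1
  have sB2 : B2 ⊆ Set.Icc (-T) T := fun t ht => abs_le.1 ht.1.2
  have i1 : IntegrableOn (fun t => F t ^ 2) B1 := hint.mono_set sB1
  have i2 : IntegrableOn (fun t => F t ^ 2) B2 := hint.mono_set sB2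
  have hSsub : S ⊆ B1 ∪ B2 := by
    intro t ht
    by_cases h : F t ≤ (X : ℝ) ^ (1 - δ)
    · exact Or.inl ⟨ht.2, h⟩
    · exact Or.inr ⟨ht, not_le.1 h⟩
  have e1 : ∫ t in S, ‖DP (tw χ (Pp κ j)) N t‖ ^ 2 = ∫ t in S, F t ^ 2 := by
    apply setIntegral_congr_fun mS
    intro t _
    show ‖DP (tw χ (Pp κ j)) N t‖ ^ 2 = F t ^ 2
    rw [BoxI_ff N hd χ κ j hN t]
  have e2 : ∫ t in S, F t ^ 2 ≤ ∫ t in B1 ∪ B2, F t ^ 2 := by
    apply setIntegral_mono_set (i1.union i2)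
    · exact Filter.Eventually.of_forall fun t => sq_nonneg _
    · exact hSsub.eventuallyLE
  have e3 : ∫ t in B1 ∪ B2, F t ^ 2 ≤ (∫ t in B1, F t ^ 2) + ∫ t in B2, F t ^ 2 := by
    have hd1 : Disjoint B1 B2 := by
      rw [Set.disjoint_left]
      intro t h1 h2
      exact absurd h1.2 (not_le.2 h2.2)
    rw [setIntegral_union hd1 mB2 i1 i2]
  have e4 : ∫ t in B1, F t ^ 2 ≤ (X : ℝ) ^ (2 - e * δ / 2) := HS X hX3 r _ _ T hbox hT1 le_rfl
  have e5 : ∫ t in B2, F t ^ 2 ≤ (X : ℝ) ^ 2 / Real.log X ^ (A + 1) := by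
    apply HL X hX1 r _ _ B2 hbox hj3 mB2
    · intro t ht
      have := sB2 ht
      exact ⟨by linarith [this.1], by linarith [this.2]⟩
    · have h1 : volume.real B2 ≤ volume.real {t : ℝ | |t| ≤ T ∧ (X : ℝ) ^ (1 - δ) < F t} := by
        apply measureReal_mono
        · intro t ht
          exact ⟨ht.1.2, ht.2⟩
        · have : {t : ℝ | |t| ≤ T ∧ (X : ℝ) ^ (1 - δ) < F t} ⊆ Set.Icc (-T) T := fun t ht => abs_le.1 ht.1
          exact ne_top_of_le_ne_top (by rw [Real.volume_Icc]; exact ENNReal.ofReal_ne_top) (measure_mono this)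
      have h2 := HM X hX4 r _ _ T hbox hT1 le_rfl
      refine (h1.trans h2).trans ?_
      exact Real.rpow_le_rpow_of_exponent_le (by linarith) hδ1
    · intro i hi t ht
      have h3 := HP X hX2 d χ (κ i) (j i) t hd hdB (by push_cast at hi; exact hi) ?_ ht.1.1 ?_
      · push_cast
        exact h3
      · refine (hj1 i).trans ?_
        nth_rewrite 2 [← Real.rpow_one (X : ℝ)]
        exact Real.rpow_le_rpow_of_exponent_le (by linarith) (by norm_num)
      · exact ht.1.2.trans hTX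
  have hLp : (0 : ℝ) < Real.log X ^ A := by positivity
  have e6 : (X : ℝ) ^ (2 - e * δ / 2) ≤ (X : ℝ) ^ 2 / Real.log X ^ A / 2 := by
    have h1 := H5 X hX5
    have h2 : (X : ℝ) ^ (2 - e * δ / 2) * (X : ℝ) ^ (e * δ / 2) = (X : ℝ) ^ 2 := by
      rw [← Real.rpow_add hX0]
      rw [show (2 - e * δ / 2 + e * δ / 2 : ℝ) = ((2 : ℕ) : ℝ) by push_cast; ring, Real.rpow_natCast]
    rw [div_div, le_div_iff₀ (by positivity), ← h2]
    exact mul_le_mul_of_nonneg_left (by linarith) (by positivity)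
  have e7 : (X : ℝ) ^ 2 / Real.log X ^ (A + 1) ≤ (X : ℝ) ^ 2 / Real.log X ^ A / 2 := by
    rw [div_div]
    apply div_le_div_of_nonneg_left (by positivity) (by positivity)
    rw [pow_succ]
    exact mul_le_mul_of_nonneg_left hL hLp.le
  rw [e1]
  linarith

end Pool.Agent.H88.PSI

end
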